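import Pool.Agent.Work.MP_da2620_ag.Sig

/-!
# Regular points

`reg`: let `R = MvPolynomial I k / 𝔞` (finitely generated, so Noetherian), `𝔪` the ideal of `q`.
The dual of `𝔪 / 𝔪²` is `Tan`, so `𝔪 = (y₁, ..., yₙ) + 𝔪²`.  Let `𝔭` be the prime of `c`.  Claim: every
`a ∈ 𝔭` is killed by an element outside `𝔪` (then `𝔭` is inside each prime contained in `𝔪`).
Otherwise by Krull's intersection theorem in `R_𝔪` one has `a ≡ F(y)` mod `𝔪 ^ (e+1)` for a nonzero
form `F` of degree `e`; after a linear change of the `y` the coefficient of `yₙ ^ e` is nonzero; in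
`(R / 𝔭)_𝔪` one gets `𝔪 ^ e ⊆ (y₁, ..., y_(n-1)) + 𝔪 ^ (e+1)`, by Nakayama `𝔪` is minimal over
`n - 1` elements, contradicting `krull` (the point `c'` found there is `q`, of dimension `0`).
`smooth_one`: apply `purity` to get `c*`; for uniqueness apply `reg` to the ideal
`𝔞 + (φ ^ g v)`, whose tangent space has dimension `≤ N - g` (the derivative of a `p`-th power is
`0`, so the differential of `φ ^ g v` is `δ ↦ dΦ(δ) (φ ^ (g-1) v) ^ p`); given `c`, first use `reg`
for `𝔞` (so `c₀` specialises to `c`).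
-/

namespace PR0

open MvPolynomial

universe u

variable {k : Type u} [Field k] {I : Type}

/-- The point lies on the closed subscheme defined by `𝔞`. -/
def On {R : Type u} [CommRing R] [Algebra k R] (𝔞 : Ideal (MvPolynomial I k)) (c : I → R) : Prop :=
  ∀ f ∈ 𝔞, aeval c f = 0

/-- The quotient by `𝔞` is finitely generated. -/
def FGI (𝔞 : Ideal (MvPolynomial I k)) : Prop :=
  ∃ s : Finset I, ∀ i, ∃ h ∈ Algebra.adjoin k ((X : I → MvPolynomial I k) '' s), X i - h ∈ 𝔞

/-- The dual number point `q + ε v`. -/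
def dn (q v : I → k) : I → TrivSqZeroExt k k := fun i => TrivSqZeroExt.inl (q i) + TrivSqZeroExt.inr (v i)

/-- Derivative of `f` at `q` in direction `v`. -/
noncomputable def dd (q v : I → k) (f : MvPolynomial I k) : k := (aeval (dn q v) f).snd

theorem fst_aeval_dn (q v : I → k) (f : MvPolynomial I k) : (aeval (dn q v) f).fst = aeval q f :=
  DFunLike.congr_fun (MvPolynomial.algHom_ext fun i => by simp [dn] :
    (TrivSqZeroExt.fstHom k k k).comp (aeval (dn q v)) = aeval q) f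

theorem Reg_dd_C (q v : I → k) (a : k) : dd q v (C a) = 0 := by
  simp [dd, TrivSqZeroExt.algebraMap_eq_inl]

theorem Reg_dd_X (q v : I → k) (i : I) : dd q v (X i) = v i := by
  simp [dd, dn]

theorem Reg_dd_add (q v : I → k) (f g : MvPolynomial I k) :
    dd q v (f + g) = dd q v f + dd q v g := by
  simp [dd]

theorem Reg_dd_sub (q v : I → k) (f g : MvPolynomial I k) :
    dd q v (f - g) = dd q v f - dd q v g := by
  simp [dd]

theorem Reg_dd_mul (q v : I → k) (f g : MvPolynomial I k) :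
    dd q v (f * g) = aeval q f * dd q v g + dd q v f * aeval q g := by
  rw [dd, map_mul, DualNumber.snd_mul, fst_aeval_dn, fst_aeval_dn]
  rfl

theorem Reg_dd_pow {p : ℕ} [CharP k p] (q v : I → k) (f : MvPolynomial I k) :
    dd q v (f ^ p) = 0 := by
  rw [dd, map_pow, TrivSqZeroExt.snd_pow, nsmul_eq_mul, CharP.cast_eq_zero, zero_mul]

theorem Reg_dd_sum (q v : I → k) {α : Type} (s : Finset α) (f : α → MvPolynomial I k) :
    dd q v (∑ a ∈ s, f a) = ∑ a ∈ s, dd q v (f a) := by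
  simp only [dd, map_sum, TrivSqZeroExt.snd_sum]

theorem dd_add (q v w : I → k) (f : MvPolynomial I k) : dd q (v + w) f = dd q v f + dd q w f := by
  induction f using MvPolynomial.induction_on with
  | C a => simp [Reg_dd_C]
  | add f g hf hg =>
    simp only [Reg_dd_add, hf, hg]
    ring
  | mul_X f i hf =>
    simp only [Reg_dd_mul, Reg_dd_X, hf, Pi.add_apply]
    ring
theorem dd_smul (q v : I → k) (a : k) (f : MvPolynomial I k) : dd q (a • v) f = a * dd q v f := by
  induction f using MvPolynomial.induction_on with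
  | C a => simp [Reg_dd_C]
  | add f g hf hg =>
    simp only [Reg_dd_add, hf, hg]
    ring
  | mul_X f i hf =>
    simp only [Reg_dd_mul, Reg_dd_X, hf, Pi.smul_apply, smul_eq_mul]
    ring

/-- The tangent space. -/
def Tan (𝔞 : Ideal (MvPolynomial I k)) (q : I → k) : Submodule k (I → k) where
  carrier := {v | ∀ f ∈ 𝔞, dd q v f = 0}
  add_mem' ha hb f hf := by rw [dd_add, ha f hf, hb f hf, add_zero]
  zero_mem' f _ := by simpa using dd_smul q 0 0 f
  smul_mem' a v hv f hf := by rw [dd_smul, hv f hf, mul_zero]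

theorem mem_Tan {𝔞 : Ideal (MvPolynomial I k)} {q v : I → k} (hq : On 𝔞 q) :
    v ∈ Tan 𝔞 q ↔ On 𝔞 (dn q v) :=
  ⟨fun h f hf => TrivSqZeroExt.ext ((fst_aeval_dn q v f).trans (hq f hf)) (h f hf),
    fun h f hf => congrArg TrivSqZeroExt.snd (h f hf)⟩
theorem On.spc {R R' : Type u} [CommRing R] [Algebra k R] [CommRing R'] [Algebra k R']
    {𝔞 : Ideal (MvPolynomial I k)} {c : I → R} {c' : I → R'} (h : On 𝔞 c) (h' : Spc k c c') :
    On 𝔞 c' := fun f hf => h' f (h f hf)
theorem FGI.fg {R : Type u} [CommRing R] [Algebra k R] {𝔞 : Ideal (MvPolynomial I k)}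
    (h : FGI 𝔞) {c : I → R} (hc : On 𝔞 c) : FG k c := by
  obtain ⟨s, hs⟩ := h
  refine ⟨s, fun i => ?_⟩
  obtain ⟨g, hg, hi⟩ := hs i
  have h1 := hc _ hi
  rw [map_sub, aeval_X, sub_eq_zero] at h1
  have h2 := Subalgebra.mem_map.2 ⟨g, hg, (rfl : aeval c g = _)⟩
  rw [AlgHom.map_adjoin, Set.image_image] at h2
  simpa only [aeval_X, ← h1] using h2
theorem FGI.finite_Tan {𝔞 : Ideal (MvPolynomial I k)} (h : FGI 𝔞) {q : I → k} (hq : On 𝔞 q) :
    FiniteDimensional k (Tan 𝔞 q) := by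
  obtain ⟨s, hs⟩ := h
  refine FiniteDimensional.of_injective
    ((LinearMap.funLeft k k ((↑) : s → I)).comp (Tan 𝔞 q).subtype)
    ((injective_iff_map_eq_zero _).2 fun v hv => Subtype.ext (funext fun i => ?_))
  obtain ⟨g, hg, hi⟩ := hs i
  have h1 : dd q v g = 0 := by
    clear hi
    induction hg using Algebra.adjoin_induction with
    | mem x hx =>
      obtain ⟨j, hj, rfl⟩ := hx
      exact (Reg_dd_X q v j).trans (congrFun hv ⟨j, hj⟩)
    | algebraMap a => exact Reg_dd_C q v a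
    | add x y _ _ hx hy => rw [Reg_dd_add, hx, hy, add_zero]
    | mul x y _ _ hx hy => rw [Reg_dd_mul, hx, hy, mul_zero, zero_mul, add_zero]
  have h2 := v.2 _ hi
  rwa [Reg_dd_sub, h1, sub_zero, Reg_dd_X] at h2

theorem Reg_fgi {𝔞 𝔟 : Ideal (MvPolynomial I k)} (h : FGI 𝔞) (hle : 𝔞 ≤ 𝔟) : FGI 𝔟 :=
  h.imp fun _ hs i => (hs i).imp fun _ hg => ⟨hg.1, hle hg.2⟩

theorem Reg_on_sup {R : Type u} [CommRing R] [Algebra k R] {𝔞 : Ideal (MvPolynomial I k)}
    {c : I → R} (hc : On 𝔞 c) {κ : Type} {g : κ → MvPolynomial I k}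
    (hg : ∀ j, aeval c (g j) = 0) : On (𝔞 ⊔ Ideal.span (Set.range g)) c :=
  (sup_le hc (Ideal.span_le.2 (Set.range_subset_iff.2 hg)) :
    𝔞 ⊔ Ideal.span (Set.range g) ≤ RingHom.ker (aeval c))

theorem Reg_noeth {𝔞 : Ideal (MvPolynomial I k)} (h : FGI 𝔞) :
    IsNoetherianRing (MvPolynomial I k ⧸ 𝔞) := by
  classical
  have e : aeval (fun i => Ideal.Quotient.mk 𝔞 (X i)) = Ideal.Quotient.mkₐ k 𝔞 :=
    MvPolynomial.algHom_ext fun i => aeval_X _ i
  obtain ⟨s, hs⟩ := h.fg (c := fun i => Ideal.Quotient.mk 𝔞 (X i)) fun f hf => by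
    rw [e]
    exact Ideal.Quotient.eq_zero_iff_mem.2 hf
  have : Algebra.FiniteType k (MvPolynomial I k ⧸ 𝔞) := by
    refine ⟨s.image fun i => Ideal.Quotient.mk 𝔞 (X i), eq_top_iff.2 fun y hy => ?_⟩
    clear hy
    obtain ⟨f, rfl⟩ := Ideal.Quotient.mk_surjective y
    rw [Finset.coe_image]
    induction f using MvPolynomial.induction_on with
    | C a => exact Subalgebra.algebraMap_mem _ a
    | add f g hf hg => rw [map_add]; exact add_mem hf hg
    | mul_X f i hf => rw [map_mul]; exact mul_mem hf (hs i)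
  exact Algebra.FiniteType.isNoetherianRing k _

/-- Nakayama's lemma at the point `q`. -/
theorem Reg_nak {𝔞 J : Ideal (MvPolynomial I k)} (h : FGI 𝔞) {q : I → k} (hq : On 𝔞 q)
    (hJ : J ≤ 𝔞 ⊔ RingHom.ker (aeval q) * J) : ∃ s, aeval q s ≠ 0 ∧ ∀ a ∈ J, s * a ∈ 𝔞 := by
  have := Reg_noeth h
  obtain ⟨r, h1, h2⟩ := Submodule.exists_sub_one_mem_and_smul_eq_zero_of_fg_of_le_smul
    ((RingHom.ker (aeval q)).map (Ideal.Quotient.mk 𝔞)) (J.map (Ideal.Quotient.mk 𝔞))
    (IsNoetherian.noetherian _) (by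
      refine (Ideal.map_mono hJ).trans ?_
      rw [Ideal.map_sup, Ideal.map_quotient_self, bot_sup_eq, Ideal.map_mul, smul_eq_mul])
  obtain ⟨s, rfl⟩ := Ideal.Quotient.mk_surjective r
  refine ⟨s, fun h0 => ?_, fun a ha => ?_⟩
  · rw [← map_one (Ideal.Quotient.mk 𝔞), ← map_sub, Ideal.mem_quotient_iff_mem hq,
      RingHom.mem_ker, map_sub, h0, map_one, zero_sub, neg_eq_zero] at h1
    exact one_ne_zero h1
  · exact Ideal.Quotient.eq_zero_iff_mem.1 (h2 _ (Ideal.mem_map_of_mem _ ha))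

theorem Reg_cot {𝔞 : Ideal (MvPolynomial I k)} {q : I → k} (hq : On 𝔞 q) (hT : Tan 𝔞 q = ⊥) :
    RingHom.ker (aeval q) ≤ 𝔞 ⊔ RingHom.ker (aeval q) * RingHom.ker (aeval q) := by
  intro f hf
  by_contra hn
  obtain ⟨l, h1, h2⟩ := Submodule.exists_dual_map_eq_bot_of_notMem
    (p := (𝔞 ⊔ RingHom.ker (aeval q) * RingHom.ker (aeval q)).restrictScalars k) hn inferInstance
  have h3 : ∀ g ∈ 𝔞 ⊔ RingHom.ker (aeval q) * RingHom.ker (aeval q), l g = 0 := fun g hg =>
    (Submodule.mem_bot k).1 (h2 ▸ Submodule.mem_map_of_mem hg)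
  have h4 : ∀ g, dd q (fun i => l (X i - C (q i))) g = l (g - C (aeval q g)) := fun g => by
    induction g using MvPolynomial.induction_on with
    | C a => simp [Reg_dd_C]
    | add f g hf hg => rw [Reg_dd_add, hf, hg, map_add, map_add, ← map_add, add_sub_add_comm]
    | mul_X g i hg =>
      have e : g * X i - C (aeval q (g * X i)) = (g - C (aeval q g)) * (X i - C (q i)) +
          (aeval q g • (X i - C (q i)) + q i • (g - C (aeval q g))) := by
        rw [map_mul, aeval_X, map_mul, smul_eq_C_mul, smul_eq_C_mul]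
        ring
      rw [Reg_dd_mul, Reg_dd_X, hg, e, map_add, map_add, map_smul, map_smul, aeval_X,
        h3 _ (Ideal.mem_sup_right (Ideal.mul_mem_mul (by simp [RingHom.mem_ker])
          (by simp [RingHom.mem_ker])))]
      simp only [smul_eq_mul]
      ring
  have h5 : (fun i => l (X i - C (q i))) ∈ Tan 𝔞 q := fun g hg => by
    rw [h4, hq g hg, map_zero, sub_zero]
    exact h3 g (Ideal.mem_sup_left hg)
  have h6 := h4 f
  rw [hT, Submodule.mem_bot] at h5
  rw [h5, RingHom.mem_ker.1 hf, map_zero, sub_zero] at h6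
  exact h1 (h6.symm.trans (by simpa using dd_smul q 0 0 f))

theorem Reg_dm (q : I → k) : dm k q = 0 := by
  refine le_antisymm ((rk_le_of_mem (s := ∅) fun y _ => ?_).trans ?_) zero_le
  · exact IntermediateField.algebraMap_mem _ y
  · simpa using rk_le_encard (k := k) (∅ : Set k)

theorem Reg_exists {K : Type u} [Field K] [Algebra k K] (q : I → k) {c : I → K} {n : ℕ}
    (hd : (n : ℕ∞) + 1 ≤ dm k c) : ∃ x : MvPolynomial I k, aeval q x = 0 ∧ aeval c x ≠ 0 := by
  by_contra hn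
  have h1 : Spc k q c := fun x hx => by_contra fun h => hn ⟨x, hx, h⟩
  have h2 := hd.trans h1.dm_le
  rw [Reg_dm] at h2
  simp at h2

theorem Reg_cut {K : Type u} [Field K] [Algebra k K] {q : I → k} {c : I → K} (hc : FG k c)
    (hq : Spc k c q) {n : ℕ} (hd : (n : ℕ∞) + 1 ≤ dm k c) {x : MvPolynomial I k}
    (hx : aeval q x = 0) :
    ∃ (Ω : Type u) (_ : Field Ω) (_ : Algebra k Ω) (c' : I → Ω),
      Spc k c c' ∧ Spc k c' q ∧ aeval c' x = 0 ∧ (n : ℕ∞) ≤ dm k c' := by
  obtain ⟨Ω, _, _, -, c', h1, h2, h3, h4⟩ := krull hc hq (fun _ : Unit => x) fun _ => hx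
  refine ⟨Ω, _, _, c', h1, h2, h3 (), ?_⟩
  rw [Nat.card_unique, Nat.cast_one] at h4
  exact (WithTop.add_le_add_iff_right ENat.one_ne_top).1 (hd.trans h4)

/-- At a regular point the ideal of a component of full dimension is locally `𝔞`. -/
theorem Reg_loc {q : I → k} (n : ℕ) : ∀ {𝔞 : Ideal (MvPolynomial I k)}, FGI 𝔞 →
    Module.finrank k (Tan 𝔞 q) ≤ n → ∀ {K : Type u} [Field K] [Algebra k K] {c : I → K},
    On 𝔞 c → Spc k c q → (n : ℕ∞) ≤ dm k c →
    ∃ s, aeval q s ≠ 0 ∧ ∀ a, aeval c a = 0 → s * a ∈ 𝔞 := by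
  induction n with
  | zero =>
    intro 𝔞 h hT K _ _ c hc hq _
    have := h.finite_Tan (hc.spc hq)
    obtain ⟨s, h1, h2⟩ := Reg_nak h (hc.spc hq)
      (Reg_cot (hc.spc hq) (Submodule.finrank_eq_zero.1 (Nat.le_zero.1 hT)))
    exact ⟨s, h1, fun a ha => h2 a (hq a ha)⟩
  | succ n ih =>
    intro 𝔞 h hT K _ _ c hc hq hd
    rw [Nat.cast_succ] at hd
    have := h.finite_Tan (hc.spc hq)
    by_cases h0 : Tan 𝔞 q = ⊥
    · exact ih h (by rw [h0, finrank_bot]; exact Nat.zero_le _) hc hq (le_self_add.trans hd)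
    obtain ⟨v, hv, hv0⟩ := Submodule.exists_mem_ne_zero_of_ne_bot h0
    obtain ⟨x, hx, hxc, hxv⟩ : ∃ x, aeval q x = 0 ∧ aeval c x ≠ 0 ∧ dd q v x ≠ 0 := by
      obtain ⟨i, hi⟩ := Function.ne_iff.1 hv0
      obtain ⟨y, hy, hyc⟩ := Reg_exists q hd
      have e1 : aeval q (X i - C (q i) : MvPolynomial I k) = 0 := by simp
      have e2 : dd q v (X i - C (q i)) ≠ 0 := by rwa [Reg_dd_sub, Reg_dd_C, Reg_dd_X, sub_zero]
      by_cases c1 : dd q v y = 0
      · by_cases c2 : aeval c (X i - C (q i) : MvPolynomial I k) = 0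
        · refine ⟨X i - C (q i) + y, ?_, ?_, ?_⟩
          · rw [map_add, e1, hy, add_zero]
          · rwa [map_add, c2, zero_add]
          · rwa [Reg_dd_add, c1, add_zero]
        · exact ⟨_, e1, c2, e2⟩
      · exact ⟨y, hy, hyc, c1⟩
    obtain ⟨Ω, _, _, c', h1, h2, h3, h4⟩ := Reg_cut (h.fg hc) hq hd hx
    have hlt : Tan (𝔞 ⊔ Ideal.span (Set.range fun _ : Unit => x)) q < Tan 𝔞 q :=
      SetLike.lt_iff_le_and_exists.2 ⟨fun w hw f hf => hw f (Ideal.mem_sup_left hf), v, hv,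
        fun hw => hxv (hw x (Ideal.mem_sup_right (Ideal.subset_span ⟨(), rfl⟩)))⟩
    obtain ⟨s, h5, h6⟩ := ih (Reg_fgi h le_sup_left)
      (Nat.le_of_lt_succ ((Submodule.finrank_lt_finrank_of_lt hlt).trans_le hT))
      (Reg_on_sup (hc.spc h1) fun _ => h3) h2 h4
    refine Reg_nak (J := RingHom.ker (aeval c)) h (hc.spc hq) fun a ha => ?_
    have h7 := h6 a (h1 a ha)
    rw [Set.range_const] at h7
    obtain ⟨t, ht, y, hy, e⟩ := Submodule.mem_sup.1 h7
    obtain ⟨b, rfl⟩ := Ideal.mem_span_singleton'.1 hy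
    have hb : aeval c b = 0 := by
      have h8 := congrArg (aeval c) e
      rw [map_add, map_mul, map_mul, hc t ht, RingHom.mem_ker.1 ha, mul_zero, zero_add] at h8
      exact (mul_eq_zero.1 h8).resolve_right hxc
    have e2 : a = C (aeval q s)⁻¹ * (t + (x * b - (s - C (aeval q s)) * a)) := by
      have e3 : (C (aeval q s)⁻¹ * C (aeval q s) : MvPolynomial I k) = 1 := by
        rw [← map_mul, inv_mul_cancel₀ h5, map_one]
      linear_combination (-C (aeval q s)⁻¹) * e - a * e3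
    rw [e2]
    exact Ideal.mul_mem_left _ _ (Submodule.add_mem_sup ht (sub_mem (Ideal.mul_mem_mul hx hb)
      (Ideal.mul_mem_mul (by simp [RingHom.mem_ker]) ha)))

theorem Reg_iter {R R' : Type u} [CommRing R] [CommRing R'] {p : ℕ} {G : Type} [Fintype G]
    (φ : R →+* R') (M : Matrix G G R) (v : G → R) (n : ℕ) (j : G) :
    φ ((sapp p M)^[n] v j) = (sapp p (M.map φ))^[n] (fun i => φ (v i)) j := by
  induction n generalizing j with
  | zero => rfl
  | succ n ih =>
    simp only [Function.iterate_succ_apply', sapp, Matrix.mulVec, dotProduct, map_sum, map_mul,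
      map_pow, ih, Matrix.map_apply]

variable {K K' : Type u} [Field K] [Field K'] [Algebra k K] [Algebra k K']

theorem reg [Infinite k] {𝔞 : Ideal (MvPolynomial I k)} (h : FGI 𝔞) {q : I → k} {n : ℕ}
    (hT : Module.finrank k (Tan 𝔞 q) ≤ n) {c : I → K} {c' : I → K'} (hc : On 𝔞 c) (hc' : On 𝔞 c')
    (hq : Spc k c q) (hq' : Spc k c' q) (hd : (n : ℕ∞) ≤ dm k c) : Spc k c c' := by
  obtain ⟨s, h1, h2⟩ := Reg_loc n h hT hc hq hd
  intro f hf
  have h3 := hc' _ (h2 f hf)
  rw [map_mul] at h3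
  exact (mul_eq_zero.1 h3).resolve_left fun h4 => h1 (hq' s h4)

theorem dm_le_finrank_Tan [Infinite k] {𝔞 : Ideal (MvPolynomial I k)} (h : FGI 𝔞) {q : I → k}
    {c : I → K} (hc : On 𝔞 c) (hq : Spc k c q) : dm k c ≤ Module.finrank k (Tan 𝔞 q) := by
  by_contra hn
  have hd := Order.add_one_le_of_lt (not_le.1 hn)
  obtain ⟨x, hx, hxc⟩ := Reg_exists q hd
  obtain ⟨Ω, _, _, c', h1, h2, h3, h4⟩ := Reg_cut (h.fg hc) hq hd hx
  exact hxc (reg h le_rfl (hc.spc h1) hc h2 hq h4 x h3)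

/-- The conclusion of the local uniqueness theorems: a unique component of the nilpotent locus
passes through `q`. -/
def Uniq (p : ℕ) {G : Type} [Fintype G] [DecidableEq G] (𝔞 : Ideal (MvPolynomial I k))
    (Φ : Matrix G G (MvPolynomial I k)) (q : I → k) : Prop :=
  ∃ (Ω : Type u) (_ : Field Ω) (_ : Algebra k Ω) (_ : IsAlgClosed Ω) (c : I → Ω),
    On 𝔞 c ∧ SNil p (Φ.map (aeval c)) ∧
      ∀ (K : Type u) [Field K] [Algebra k K] (c' : I → K), On 𝔞 c' → SNil p (Φ.map (aeval c')) →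
        Spc k c' q → Spc k c c'

theorem smooth_one {p : ℕ} [Fact p.Prime] [IsAlgClosed k] [CharP k p] {G : Type} [Fintype G]
    [DecidableEq G] {𝔞 : Ideal (MvPolynomial I k)} (h : FGI 𝔞) (Φ : Matrix G G (MvPolynomial I k))
    {q : I → k} {N : ℕ} (hT : Module.finrank k (Tan 𝔞 q) ≤ N) {c₀ : I → K} (hc : On 𝔞 c₀)
    (hq : Spc k c₀ q) (hd : (N : ℕ∞) ≤ dm k c₀) (hn : SNil p (Φ.map (aeval q))) (v : G → k)
    (hv : ∀ w : G → k, ∃ δ ∈ Tan 𝔞 q, sapp p (Φ.map (dd q δ))
      ((sapp p (Φ.map (aeval q)))^[Fintype.card G - 1] v) = w) : Uniq p 𝔞 Φ q := by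
  have : CharP K p := charP_of_injective_algebraMap (algebraMap k K).injective p
  obtain ⟨Ω, _, _, _, c, h1, h2, h3, h4⟩ := purity Φ (h.fg hc) hq hn
  refine ⟨Ω, _, _, inferInstance, c, hc.spc h1, h3, fun L _ _ c' h5 h6 h7 => ?_⟩
  let F : G → MvPolynomial I k := (sapp p Φ)^[Fintype.card G] fun i => C (v i)
  have hF : ∀ (L : Type u) [Field L] [Algebra k L] (c' : I → L), SNil p (Φ.map (aeval c')) →
      ∀ j, aeval c' (F j) = 0 := fun L _ _ c' h6 j => by
    have : CharP L p := charP_of_injective_algebraMap (algebraMap k L).injective p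
    refine (Reg_iter (aeval c' : MvPolynomial I k →ₐ[k] L).toRingHom Φ _ _ j).trans ?_
    rw [iterate_sapp]
    exact (congrArg (fun M => Matrix.mulVec M _ j) h6).trans (congrFun (Matrix.zero_mulVec _) j)
  have := h.finite_Tan (hc.spc hq)
  let T : Tan 𝔞 q →ₗ[k] G → k :=
    { toFun δ j := dd q δ (F j)
      map_add' δ δ' := _root_.funext fun j => dd_add q δ δ' (F j)
      map_smul' a δ := _root_.funext fun j => dd_smul q δ a (F j) }
  have hs : Function.Surjective T := fun w => by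
    obtain ⟨δ, hδ, rfl⟩ := hv w
    refine ⟨⟨δ, hδ⟩, _root_.funext fun j => ?_⟩
    have e : Fintype.card G = Fintype.card G - 1 + 1 :=
      (Nat.sub_add_cancel (Fintype.card_pos_iff.2 ⟨j⟩)).symm
    change dd q δ ((sapp p Φ)^[Fintype.card G] (fun i => C (v i)) j) = _
    rw [e, Function.iterate_succ_apply', ← e]
    have e2 : ∀ i, aeval q ((sapp p Φ)^[Fintype.card G - 1] (fun i => C (v i)) i) =
        (sapp p (Φ.map (aeval q)))^[Fintype.card G - 1] v i := fun i => by
      refine (Reg_iter (aeval q : MvPolynomial I k →ₐ[k] k).toRingHom Φ _ _ i).trans ?_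
      exact congrArg (fun u => (sapp p (Φ.map (aeval q)))^[Fintype.card G - 1] u i)
        (_root_.funext fun i => (aeval_C q (v i)).trans (Algebra.algebraMap_self_apply (v i)))
    simp only [sapp, Matrix.mulVec, dotProduct, Reg_dd_sum, Reg_dd_mul, Reg_dd_pow, mul_zero,
      zero_add, map_pow, Matrix.map_apply]
    exact Finset.sum_congr rfl fun i _ => congrArg (fun t => dd q δ (Φ j i) * t ^ p) (e2 i)
  have h8 : Tan (𝔞 ⊔ Ideal.span (Set.range F)) q ≤ (LinearMap.ker T).map (Tan 𝔞 q).subtype :=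
    fun w hw => ⟨⟨w, fun f hf => hw f (Ideal.mem_sup_left hf)⟩,
      _root_.funext fun j => hw _ (Ideal.mem_sup_right (Ideal.subset_span ⟨j, rfl⟩)), rfl⟩
  have h9 := Submodule.finrank_mono h8
  have h10 := T.finrank_range_add_finrank_ker
  rw [Submodule.finrank_map_subtype_eq] at h9
  rw [LinearMap.range_eq_top.2 hs, finrank_top, Module.finrank_fintype_fun_eq_card] at h10
  refine reg (Reg_fgi h le_sup_left) le_rfl (Reg_on_sup (hc.spc h1) (hF Ω c h3))
    (Reg_on_sup h5 (hF L c' h6)) h2 h7 ?_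
  have h11 : ((Module.finrank k (Tan (𝔞 ⊔ Ideal.span (Set.range F)) q) : ℕ∞)) +
      Fintype.card G ≤ N := by
    rw [← Nat.cast_add, Nat.cast_le]
    omega
  exact (WithTop.add_le_add_iff_right (ENat.natCast_ne_top (Fintype.card G))).1
    (h11.trans (hd.trans h4))

end PR0
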