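import Pool.Agent.Work.MP_da2620_ag.Pt

/-!
# Field valued points: dimension, amalgamation, Krull's theorem
Use `Cyc/KR.lean` (`kr_many`, `trdeg_drop`, `KR_drop`) and `rk_range_eq_trdeg` of
`Work/MP_ffcd14_ag/Cyc/Rk.lean` (copy it).  For `krull` reduce to the finite index type given by
`FG`: choose polynomials `h i` in these variables with `c i = h i (c)`; take the algebraic closure
of the fraction field of the prime found by `kr_many`.  `amalgam`: both fields are algebras over
the fraction field `F` of `MvPolynomial I k / ker`; take a maximal ideal of `K ⊗[F] K'`.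
-/

namespace PR0

open MvPolynomial

universe u

variable {k : Type u} [Field k]
variable {K K' K'' : Type u} [Field K] [Field K'] [Field K''] [Algebra k K] [Algebra k K']
  [Algebra k K''] {I I' : Type}

theorem Pt2_comap {A B : Type u} [CommRing A] [IsDomain A] [Algebra k A] [CommRing B] [IsDomain B]
    [Algebra k B] (ψ : A →ₐ[k] B) (hψ : Function.Injective ψ) :
    (AlgebraicIndependent.matroid k B).comap ψ = AlgebraicIndependent.matroid k A := by
  refine Matroid.ext_indep (by simp) fun J _ => ?_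
  rw [Matroid.comap_indep_iff, and_iff_left hψ.injOn]
  exact (algebraicIndependent_image (R := k) (f := ψ) hψ.injOn).symm.trans
    (ψ.algebraicIndependent_iff (x := fun x : J => (x : A)) hψ)

/-- the ideal of a point -/
noncomputable abbrev Pt2_id (k : Type u) [Field k] [Algebra k K] (c : I → K) :
    Ideal (MvPolynomial I k) :=
  RingHom.ker (aeval c : MvPolynomial I k →ₐ[k] K)

instance Pt2_prime (c : I → K) : (Pt2_id k c).IsPrime := RingHom.ker_isPrime _

theorem Pt2_dm (c : I → K) :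
    dm k c = (Algebra.trdeg k (MvPolynomial I k ⧸ Pt2_id k c)).toENat := by
  have hinj := Ideal.kerLiftAlg_injective (aeval c : MvPolynomial I k →ₐ[k] K)
  have : IsDomain (MvPolynomial I k ⧸ Pt2_id k c) := Ideal.Quotient.isDomain _
  have : FaithfulSMul k (MvPolynomial I k ⧸ Pt2_id k c) :=
    (faithfulSMul_iff_algebraMap_injective _ _).2 (algebraMap k _).injective
  have h1 : Set.range c = Ideal.kerLiftAlg (aeval c : MvPolynomial I k →ₐ[k] K) ''
      Set.range fun i => Ideal.Quotient.mkₐ k (Pt2_id k c) (X i) := by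
    rw [← Set.range_comp]
    congr 1
    funext i
    simp
  have h2 : Algebra.adjoin k (Set.range fun i => Ideal.Quotient.mkₐ k (Pt2_id k c) (X i)) = ⊤ := by
    have h3 : (Set.range fun i => Ideal.Quotient.mkₐ k (Pt2_id k c) (X i)) =
        Ideal.Quotient.mkₐ k (Pt2_id k c) '' Set.range X := by
      rw [← Set.range_comp]
      rfl
    rw [h3, Algebra.adjoin_image, adjoin_range_X, Algebra.map_top]
    exact (AlgHom.range_eq_top _).2 (Ideal.Quotient.mkₐ_surjective k _)
  have h3 : (AlgebraicIndependent.matroid k (MvPolynomial I k ⧸ Pt2_id k c)).Spanning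
      (Set.range fun i => Ideal.Quotient.mkₐ k (Pt2_id k c) (X i)) :=
    AlgebraicIndependent.matroid_spanning_iff.2 ⟨fun y => isAlgebraic_algebraMap
      (⟨y, by rw [h2]; trivial⟩ :
        Algebra.adjoin k (Set.range fun i => Ideal.Quotient.mkₐ k (Pt2_id k c) (X i)))⟩
  rw [dm, h1, rk, ← Matroid.eRk_comap, Pt2_comap _ hinj, h3.eRk_eq,
    ← AlgebraicIndependent.matroid_cRank_eq, Matroid.toENat_cRank_eq]

theorem Pt2_ft {c : I → K} (h : FG k c) :
    Algebra.FiniteType k (MvPolynomial I k ⧸ Pt2_id k c) := by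
  have h1 := h.finiteType
  rw [Algebra.adjoin_range_eq_range_aeval] at h1
  exact h1.equiv (Ideal.quotientKerEquivRange _).symm

theorem Pt2_pt (𝔭 : Ideal (MvPolynomial I k)) [𝔭.IsPrime] :
    ∃ (Ω : Type u) (_ : Field Ω) (_ : Algebra k Ω) (_ : IsAlgClosed Ω) (c : I → Ω),
      Pt2_id k c = 𝔭 := by
  let Ω := AlgebraicClosure (FractionRing (MvPolynomial I k ⧸ 𝔭))
  let φ : (MvPolynomial I k ⧸ 𝔭) →ₐ[k] Ω := IsScalarTower.toAlgHom k _ Ω
  have hφ : Function.Injective φ :=
    (algebraMap (FractionRing (MvPolynomial I k ⧸ 𝔭)) Ω).injective.comp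
      (IsFractionRing.injective (MvPolynomial I k ⧸ 𝔭) _)
  refine ⟨Ω, inferInstance, inferInstance, inferInstance,
    fun i => (φ.comp (Ideal.Quotient.mkₐ k 𝔭)) (X i), ?_⟩
  ext f
  rw [RingHom.mem_ker, ← comp_aeval_apply, aeval_X_left_apply, AlgHom.comp_apply,
    map_eq_zero_iff φ hφ]
  exact Ideal.Quotient.eq_zero_iff_mem

theorem Pt2_kr {A : Type u} [CommRing A] [Algebra k A] (p q : Ideal A) [p.IsPrime] [q.IsPrime]
    [Algebra.FiniteType k (A ⧸ p)] (hpq : p ≤ q) {g : A} (hgq : g ∈ q) :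
    ∃ r : Ideal A, r.IsPrime ∧ p ≤ r ∧ r ≤ q ∧ g ∈ r ∧
      Algebra.trdeg k (A ⧸ p) ≤ Algebra.trdeg k (A ⧸ r) + 1 := by
  by_cases hgp : g ∈ p
  · exact ⟨p, inferInstance, le_rfl, hpq, hgp, le_self_add⟩
  have hq : (q.map (Ideal.Quotient.mk p)).IsPrime :=
    Ideal.map_isPrime_of_surjective Ideal.Quotient.mk_surjective (by rwa [Ideal.mk_ker])
  have hg : Ideal.Quotient.mk p g ≠ 0 := fun e => hgp (Ideal.Quotient.eq_zero_iff_mem.1 e)
  obtain ⟨r, hr, hrq⟩ := Ideal.exists_minimalPrimes_le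
    ((Ideal.span_singleton_le_iff_mem _).2 (Ideal.mem_map_of_mem (Ideal.Quotient.mk p) hgq))
  have hrp : r.IsPrime := hr.1.1
  let F : A →ₐ[k] (A ⧸ p) ⧸ r := (Ideal.Quotient.mkₐ k r).comp (Ideal.Quotient.mkₐ k p)
  have hF : Function.Surjective F :=
    (Ideal.Quotient.mkₐ_surjective k r).comp (Ideal.Quotient.mkₐ_surjective k p)
  have mem : ∀ a, a ∈ RingHom.ker F ↔ Ideal.Quotient.mk p a ∈ r := fun a =>
    Ideal.Quotient.eq_zero_iff_mem
  refine ⟨RingHom.ker F, RingHom.ker_isPrime F, fun a ha => (mem a).2 (by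
    rw [Ideal.Quotient.eq_zero_iff_mem.2 ha]; exact r.zero_mem), fun a ha => ?_,
    (mem g).2 (hr.1.2 (Ideal.mem_span_singleton_self _)), ?_⟩
  · have h4 := hrq ((mem a).1 ha)
    rwa [Ideal.mem_quotient_iff_mem hpq] at h4
  · rw [AlgEquiv.trdeg_eq (Ideal.quotientKerAlgEquivOfSurjective hF)]
    exact Pool.Agent.Work.MP_ffcd14_ag.KR_main r hg hr

theorem Pt2_kr_fin {A : Type u} [CommRing A] [Algebra k A] (p q : Ideal A) [p.IsPrime] [q.IsPrime]
    [Algebra.FiniteType k (A ⧸ p)] (hpq : p ≤ q) (m : ℕ) (g : Fin m → A) (hg : ∀ j, g j ∈ q) :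
    ∃ r : Ideal A, r.IsPrime ∧ p ≤ r ∧ r ≤ q ∧ (∀ j, g j ∈ r) ∧
      Algebra.trdeg k (A ⧸ p) ≤ Algebra.trdeg k (A ⧸ r) + (m : Cardinal) := by
  induction m with
  | zero => exact ⟨p, inferInstance, le_rfl, hpq, fun j => j.elim0, le_self_add⟩
  | succ m ih =>
    obtain ⟨r, hr, h1, h2, h3, h4⟩ := ih (fun j => g j.succ) fun j => hg _
    have : Algebra.FiniteType k (A ⧸ r) :=
      .of_surjective (Ideal.Quotient.factorₐ k h1) (Ideal.Quotient.factor_surjective h1)
    obtain ⟨r', hr', a1, a2, a3, a4⟩ := Pt2_kr (k := k) r q h2 (hg 0)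
    refine ⟨r', hr', h1.trans a1, a2, Fin.cases a3 fun j => a1 (h3 j),
      h4.trans ((add_le_add_left a4 _).trans_eq ?_)⟩
    push_cast
    rw [add_assoc, add_comm 1]

theorem Pt2_amalgam (F K K' : Type u) [Field F] [Field K] [Field K'] [Algebra F K] [Algebra F K'] :
    ∃ (Ω : Type u) (_ : Field Ω) (_ : IsAlgClosed Ω) (φ : K →+* Ω) (φ' : K' →+* Ω),
      ∀ a : F, φ (algebraMap F K a) = φ' (algebraMap F K' a) := by
  obtain ⟨m, hm⟩ := Ideal.exists_maximal (TensorProduct F K K')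
  let _ := Ideal.Quotient.field m
  let ψ : TensorProduct F K K' →+* AlgebraicClosure (TensorProduct F K K' ⧸ m) :=
    (algebraMap (TensorProduct F K K' ⧸ m) _).comp (Ideal.Quotient.mk m)
  refine ⟨AlgebraicClosure (TensorProduct F K K' ⧸ m), inferInstance, inferInstance,
    ψ.comp (Algebra.TensorProduct.includeLeft (S := F)).toRingHom,
    ψ.comp Algebra.TensorProduct.includeRight.toRingHom, fun a => congrArg ψ ?_⟩
  exact ((Algebra.TensorProduct.includeLeft (S := F)).commutes a).trans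
    (Algebra.TensorProduct.includeRight.commutes a).symm

theorem FG.dm_ne_top {c : I → K} (h : FG k c) : dm k c ≠ ⊤ := by
  obtain ⟨s, hs⟩ := h
  refine ne_top_of_le_ne_top (s.finite_toSet.image c).encard_lt_top.ne
    ((rk_le_of_alg ?_).trans (rk_le_encard _))
  rintro _ ⟨i, rfl⟩
  exact isAlgebraic_algebraMap (⟨c i, hs i⟩ : Algebra.adjoin k (c '' s))

theorem Spc.dm_le {c : I → K} {c' : I → K'} (h : Spc k c c') : dm k c' ≤ dm k c := by
  have hle : Pt2_id k c ≤ Pt2_id k c' := h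
  rw [Pt2_dm, Pt2_dm]
  exact OrderHomClass.mono Cardinal.toENat (trdeg_le_of_surjective (Ideal.Quotient.factorₐ k hle)
    (Ideal.Quotient.factor_surjective hle))

theorem Spc.symm_of_dm {c : I → K} {c' : I → K'} (h : Spc k c c') (hc : FG k c)
    (hd : dm k c ≤ dm k c') : Spc k c' c := by
  intro f hf
  by_contra hf'
  have hle : Pt2_id k c ≤ Pt2_id k c' := h
  have h1 := OrderHomClass.mono Cardinal.toENat (Pool.Agent.Work.MP_ffcd14_ag.KR_drop
    (Ideal.Quotient.factorₐ k hle) (Ideal.Quotient.factor_surjective hle)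
    (g := Ideal.Quotient.mk _ f) (fun e => hf' (Ideal.Quotient.eq_zero_iff_mem.1 e))
    (Ideal.Quotient.eq_zero_iff_mem.2 hf))
  rw [map_add, map_one, ← Pt2_dm, ← Pt2_dm] at h1
  exact lt_irrefl _ ((ENat.add_one_le_iff (hc.spc h).dm_ne_top).1 (h1.trans hd))

/-- Two points with the same ideal are conjugate in a common algebraically closed field; more
generally fields can be amalgamated over the fields generated by conjugate points. -/
theorem amalgam {c : I → K} {c' : I → K'} (h : Spc k c c') (h' : Spc k c' c) :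
    ∃ (Ω : Type u) (_ : Field Ω) (_ : Algebra k Ω) (_ : IsAlgClosed Ω) (φ : K →ₐ[k] Ω)
      (φ' : K' →ₐ[k] Ω), ∀ i, φ (c i) = φ' (c' i) := by
  let ψ := Ideal.kerLiftAlg (aeval c : MvPolynomial I k →ₐ[k] K)
  have hψ : Function.Injective ψ := Ideal.kerLiftAlg_injective _
  let ψ' : (MvPolynomial I k ⧸ Pt2_id k c) →ₐ[k] K' := Ideal.Quotient.liftₐ _ (aeval c') h
  have hψ' : Function.Injective ψ' := (injective_iff_map_eq_zero _).2 fun a ha => by
    obtain ⟨f, rfl⟩ := Ideal.Quotient.mk_surjective a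
    exact Ideal.Quotient.eq_zero_iff_mem.2 (h' f ha)
  let F := FractionRing (MvPolynomial I k ⧸ Pt2_id k c)
  let α : F →ₐ[k] K := IsFractionRing.liftAlgHom hψ
  let α' : F →ₐ[k] K' := IsFractionRing.liftAlgHom hψ'
  let _ : Algebra F K := α.toRingHom.toAlgebra
  let _ : Algebra F K' := α'.toRingHom.toAlgebra
  obtain ⟨Ω, _, _, φ, φ', e⟩ := Pt2_amalgam F K K'
  replace e : ∀ a : F, φ (α a) = φ' (α' a) := e
  let _ : Algebra k Ω := (φ.comp (algebraMap k K)).toAlgebra
  refine ⟨Ω, inferInstance, inferInstance, inferInstance, { φ with commutes' := fun _ => rfl },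
    { φ' with commutes' := fun a => ?_ }, fun i => ?_⟩
  · have h1 := e (algebraMap k F a)
    rw [α.commutes, α'.commutes] at h1
    exact h1.symm
  · have h1 := e (algebraMap _ F (Ideal.Quotient.mk (Pt2_id k c) (X i)))
    have h2 : α (algebraMap _ F (Ideal.Quotient.mk (Pt2_id k c) (X i))) = c i :=
      (IsFractionRing.lift_algebraMap hψ _).trans (aeval_X c i)
    have h3 : α' (algebraMap _ F (Ideal.Quotient.mk (Pt2_id k c) (X i))) = c' i :=
      (IsFractionRing.lift_algebraMap hψ' _).trans (aeval_X c' i)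
    rw [h2, h3] at h1
    exact h1

/-- Krull: cutting by `r` equations through a point drops the dimension by at most `r`. -/
theorem krull {c : I → K} {c₀ : I → K'} (hc : FG k c) (h : Spc k c c₀) {κ : Type} [Finite κ]
    (g : κ → MvPolynomial I k) (hg : ∀ j, aeval c₀ (g j) = 0) :
    ∃ (Ω : Type u) (_ : Field Ω) (_ : Algebra k Ω) (_ : IsAlgClosed Ω) (c' : I → Ω),
      Spc k c c' ∧ Spc k c' c₀ ∧ (∀ j, aeval c' (g j) = 0) ∧ dm k c ≤ dm k c' + Nat.card κ := by
  have := Pt2_ft hc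
  obtain ⟨r, hr, h1, h2, h3, h4⟩ := Pt2_kr_fin (k := k) (Pt2_id k c) (Pt2_id k c₀) h (Nat.card κ)
    (fun j => g ((Finite.equivFin κ).symm j)) fun j => hg _
  obtain ⟨Ω, _, _, _, c', rfl⟩ := Pt2_pt r
  refine ⟨Ω, inferInstance, inferInstance, inferInstance, c', h1, h2,
    fun j => by simpa using h3 (Finite.equivFin κ j), ?_⟩
  have h5 := OrderHomClass.mono Cardinal.toENat h4
  rwa [map_add, map_natCast, ← Pt2_dm, ← Pt2_dm] at h5

/-- Nullstellensatz: rational points off a hypersurface. -/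
private theorem Pt2_lift_fin [IsAlgClosed k] (E : Type*) [Field E] [Algebra k E] [Module.Finite k E] :
    Nonempty (E →ₐ[k] k) := ⟨IsAlgClosed.lift⟩

theorem exists_rat [IsAlgClosed k] {c : I → K} (hc : FG k c) {g : MvPolynomial I k}
    (hg : aeval c g ≠ 0) : ∃ c₀ : I → k, Spc k c c₀ ∧ aeval c₀ g ≠ 0 := by
  have := Pt2_ft hc
  have : IsJacobsonRing (MvPolynomial I k ⧸ Pt2_id k c) := isJacobsonRing_of_finiteType (A := k)
  have h1 : Ideal.Quotient.mk (Pt2_id k c) g ∉ (⊥ : Ideal _).jacobson := by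
    rw [IsJacobsonRing.out inferInstance Ideal.isRadical_bot]
    exact fun e => hg (Ideal.Quotient.eq_zero_iff_mem.1 e)
  rw [Ideal.jacobson, Ideal.mem_sInf] at h1
  push Not at h1
  obtain ⟨m, ⟨-, hm⟩, h1⟩ := h1
  let _ := Ideal.Quotient.field m
  have := finite_of_finite_type_of_isJacobsonRing k ((MvPolynomial I k ⧸ Pt2_id k c) ⧸ m)
  obtain ⟨φ⟩ : Nonempty (((MvPolynomial I k ⧸ Pt2_id k c) ⧸ m) →ₐ[k] k) := Pt2_lift_fin _
  let ψ := φ.comp ((Ideal.Quotient.mkₐ k m).comp (Ideal.Quotient.mkₐ k (Pt2_id k c)))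
  have e : ∀ f, aeval (fun i => ψ (X i)) f =
      φ (Ideal.Quotient.mk m (Ideal.Quotient.mk (Pt2_id k c) f)) := fun f => by
    rw [← comp_aeval_apply, aeval_X_left_apply]
    rfl
  refine ⟨fun i => ψ (X i), fun f hf => ?_, ?_⟩
  · rw [e, (Ideal.Quotient.eq_zero_iff_mem (I := Pt2_id k c)).2 hf, map_zero, map_zero]
  · rw [e, map_ne_zero]
    exact fun h2 => h1 (Ideal.Quotient.eq_zero_iff_mem.1 h2)

/-- A point of a ring `R` killed by a prime gives a field valued point. -/
theorem exists_pt_of_prime (𝔭 : Ideal (MvPolynomial I k)) [𝔭.IsPrime] :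
    ∃ (Ω : Type u) (_ : Field Ω) (_ : Algebra k Ω) (_ : IsAlgClosed Ω) (c : I → Ω),
      ∀ f, aeval c f = 0 ↔ f ∈ 𝔭 := by
  obtain ⟨Ω, _, _, _, c, rfl⟩ := Pt2_pt 𝔭
  exact ⟨Ω, inferInstance, inferInstance, inferInstance, c, fun _ => Iff.rfl⟩

/-- Independent generic elements can be adjoined. -/
theorem exists_generic (K : Type u) [Field K] [Algebra k K] (J : Type) :
    ∃ (Ω : Type u) (_ : Field Ω) (_ : Algebra k Ω) (_ : Algebra K Ω) (_ : IsScalarTower k K Ω)
      (_ : IsAlgClosed Ω) (y : J → Ω), AlgebraicIndependent K y := by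
  let Ω := AlgebraicClosure (FractionRing (MvPolynomial J K))
  let φ : MvPolynomial J K →ₐ[K] Ω := IsScalarTower.toAlgHom K _ Ω
  have hφ : Function.Injective φ :=
    (algebraMap (FractionRing (MvPolynomial J K)) Ω).injective.comp
      (IsFractionRing.injective (MvPolynomial J K) _)
  exact ⟨Ω, inferInstance, inferInstance, inferInstance, inferInstance, inferInstance, φ ∘ X,
    (algebraicIndependent_X J K).map' hφ⟩

/-- Adding independent generic coordinates: specialises to anything. -/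
theorem Spc.generic {c : I → K} {c₀ : I → K'} (h : Spc k c c₀) {y : I' → K}
    (hy : AlgebraicIndependent (IntermediateField.adjoin k (Set.range c)) y) (y₀ : I' → K') :
    Spc k (Sum.elim c y) (Sum.elim c₀ y₀) := by
  intro f hf
  obtain ⟨φ, hφ⟩ := h.exists_hom
  have hy' := IntermediateField.algebraicIndependent_adjoin_iff.1 hy
  let ψ : MvPolynomial (I ⊕ I') k →ₐ[k] MvPolynomial I' (Algebra.adjoin k (Set.range c)) :=
    MvPolynomial.aeval (Sum.elim (fun i => C ⟨c i, Algebra.subset_adjoin ⟨i, rfl⟩⟩) X)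
  have e1 : MvPolynomial.aeval (Sum.elim c y) =
      (aevalTower (Algebra.adjoin k (Set.range c)).val y).comp ψ := by
    refine algHom_ext ?_
    rintro (i | i) <;> simp [ψ]
  have e2 : MvPolynomial.aeval (Sum.elim c₀ y₀) = (aevalTower φ y₀).comp ψ := by
    refine algHom_ext ?_
    rintro (i | i) <;> simp [ψ, hφ]
  rw [e1] at hf
  rw [e2, AlgHom.comp_apply, hy'.eq_zero_of_aeval_eq_zero (ψ f) hf, map_zero]

end PR0
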