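import Mathlib

/-!
# Function fields of one variable: the definitions used in the statement
-/

namespace PR0

universe u

section
variable (K L : Type u) [Field K] [Field L] [Algebra K L]

/-- `L` is a function field of one variable over `K`. -/
def IsFF : Prop :=
  ∃ x : L, Transcendental K x ∧ FiniteDimensional (IntermediateField.adjoin K {x}) L

/-- The places of `L / K`: the valuation rings of `L` containing `K`, other than `L`. -/
def Place : Type u := {P : ValuationSubring L // P ≠ ⊤ ∧ ∀ c : K, algebraMap K L c ∈ P}

/-- Repartitions: families `(a P)` of elements of `L`, integral at almost all places. -/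
def Rep : Submodule K (Place K L → L) where
  carrier := {a | {P | a P ∉ P.1}.Finite}
  add_mem' {a b} ha hb := (ha.union hb).subset fun P h => by
    by_contra h'
    simp only [Set.mem_union, Set.mem_setOf_eq, not_or, not_not] at h'
    exact h (add_mem h'.1 h'.2)
  zero_mem' := by simp
  smul_mem' c a ha := ha.subset fun P h h' => h (by
    rw [Pi.smul_apply, Algebra.smul_def]; exact mul_mem (P.2.2 c) h')

/-- Everywhere integral repartitions. -/
def Rep0 : Submodule K (Place K L → L) where
  carrier := {a | ∀ P, a P ∈ P.1}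
  add_mem' ha hb P := add_mem (ha P) (hb P)
  zero_mem' P := zero_mem _
  smul_mem' c a ha P := by rw [Pi.smul_apply, Algebra.smul_def]; exact mul_mem (P.2.2 c) (ha P)

/-- Principal (constant) repartitions. -/
def RepL : Submodule K (Place K L → L) :=
  LinearMap.range (LinearMap.pi fun _ => LinearMap.id : L →ₗ[K] Place K L → L)

/-- The genus: the dimension of `H¹(C, O) = Rep / (Rep0 + L)`. -/
noncomputable def genus : ℕ :=
  Module.finrank K (Rep K L ⧸ (Rep0 K L ⊔ RepL K L).submoduleOf (Rep K L))

/-- `p`-rank zero: the divisor class group has no `p`-torsion.  If the divisor of `h` is `p` times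
a divisor `D`, then `h` is a `p`-th power (so that `D` is principal). -/
def PRankZero (p : ℕ) : Prop :=
  ∀ h : L, (∀ P : Place K L, ∃ a : L, P.1.valuation h = P.1.valuation a ^ p) → ∃ f : L, h = f ^ p

/-- Hasse-Witt form: Frobenius is nilpotent on `H¹(C, O)`. -/
def HW0 (p : ℕ) : Prop :=
  ∀ a ∈ Rep K L, ∃ n : ℕ, a ^ p ^ n ∈ Rep0 K L ⊔ RepL K L

end

/-- `L₀ / k` is a constant reduction of `L / K` at a valuation trivial on `k` whose restriction
to `K` has residue field `k`. -/
def Reduces (k K L L₀ : Type u) [Field k] [Field K] [Field L] [Field L₀] [Algebra k K]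
    [Algebra K L] [Algebra k L₀] : Prop :=
  ∃ (w : ValuationSubring L) (ρ : w →+* L₀), Function.Surjective ρ ∧
    (∀ f : w, ρ f = 0 ↔ w.valuation f < 1) ∧
    (∀ c : k, ∃ h : algebraMap K L (algebraMap k K c) ∈ w, ρ ⟨_, h⟩ = algebraMap k L₀ c) ∧
    ∀ (c : K) (h : algebraMap K L c ∈ w), ∃ c₀ : k, ρ ⟨_, h⟩ = algebraMap k L₀ c₀

end PR0
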