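import Pool.Agent.Work.MP_da2620_ag.Hahn

/-!
# The Hahn field is algebraically closed; arcs

`isAlgClosed`: for a finite extension `E` of degree `n` take a valuation ring `W` of `E` lying over
`HO` (`LocalSubring.exists_le_valuationSubring`); every `x ≠ 0` has a `W`-unit multiple `c x`
(two terms of the minimal polynomial have the same value, and values are divisible), so `lat` makes
`W` free of rank `n`, its maximal ideal is generated by that of `HO`, so the residue field has degree
`n` over `κ`, `n = 1`.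
`gen`: the `τ ^ r` for `r` in an infinite `ℚ`-independent family of positive reals are
algebraically independent over `κ`.
`arc`: `R = k[c]` is a finitely generated domain.  Base change to `κ`: take a minimal prime of
`κ ⊗ R` inside the kernel of the point (it contracts to `0` by flatness / going down); so assume
`k = κ`.  Noether normalisation `κ[u] ⊆ R` with `u` vanishing at the point, send `u i` to `τ ^ r i`,
extend to the algebraic closure of the fraction field, which lands `R` in `HO` (integral); the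
centre is a prime over `(u)`, and these are conjugate under the automorphisms of a finite normal
extension (`Algebra.IsInvariant.exists_smul_of_under_eq`; or use valuation rings: any valuation
ring of a normal extension over a given one is conjugate).
-/

namespace PR0

open MvPolynomial

universe u

variable {k κ K : Type u} [Field k] [Field κ] [Algebra k κ] [Field K] [Algebra k K] {I : Type}

theorem Arc_τ_pow (γ : ℝ) (n : ℕ) : τ κ γ ^ n = τ κ (n * γ) := by
  induction n with
  | zero => simp [τ_zero]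
  | succ n ih => rw [pow_succ, ih, ← τ_add, Nat.cast_succ, add_mul, one_mul]

theorem Arc_pow {F E : Type u} [Field F] [Field E] [Algebra F E] (W : ValuationSubring E) {x : E}
    (hx : x ≠ 0) (hi : IsAlgebraic F x) : ∃ (m : ℕ) (a : F), m ≠ 0 ∧ a ≠ 0 ∧
      W.valuation x ^ m = W.valuation (algebraMap F E a) := by
  classical
  obtain ⟨p, hp, h0⟩ := hi
  rw [Polynomial.aeval_def, Polynomial.eval₂_eq_sum, Polynomial.sum_def] at h0
  obtain ⟨i, hi, hmax⟩ := p.support.exists_max_image
    (fun i => W.valuation (algebraMap F E (p.coeff i) * x ^ i)) (Polynomial.support_nonempty.2 hp)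
  have key : ∀ i ∈ p.support, ∀ j ∈ p.support, i < j →
      W.valuation (algebraMap F E (p.coeff i) * x ^ i) =
        W.valuation (algebraMap F E (p.coeff j) * x ^ j) → ∃ (m : ℕ) (a : F), m ≠ 0 ∧ a ≠ 0 ∧
      W.valuation x ^ m = W.valuation (algebraMap F E a) := fun i hi j hj hij e => by
    obtain ⟨m, rfl⟩ := Nat.exists_eq_add_of_lt hij
    have h1 := Polynomial.mem_support_iff.1 hi
    have h2 := Polynomial.mem_support_iff.1 hj
    refine ⟨m + 1, _, m.succ_ne_zero, div_ne_zero h1 h2, ?_⟩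
    rw [add_assoc, pow_add, mul_comm (x ^ i), ← mul_assoc, map_mul, map_mul _ _ (x ^ i),
      mul_left_inj' (by simp [hx]), ← add_assoc] at e
    rw [map_div₀, map_div₀, eq_div_iff (by simpa using h2), e, map_mul, map_pow, mul_comm]
  obtain ⟨j, hj, hji, e⟩ : ∃ j ∈ p.support, j ≠ i ∧
      W.valuation (algebraMap F E (p.coeff j) * x ^ j) =
        W.valuation (algebraMap F E (p.coeff i) * x ^ i) := by
    by_contra! hc
    have := W.valuation.map_sum_eq_of_lt hi (f := fun i => algebraMap F E (p.coeff i) * x ^ i)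
      fun j hj => (hmax j (Finset.mem_sdiff.1 hj).1).lt_of_ne
        (hc j (Finset.mem_sdiff.1 hj).1 (by simpa using (Finset.mem_sdiff.1 hj).2))
    rw [h0, map_zero] at this
    simp [hx, Polynomial.mem_support_iff.1 hi] at this
  rcases hji.lt_or_gt with h | h
  · exact key j hj i hi h e
  · exact key i hi j hj h e.symm

theorem Arc_unit {E : Type u} [Field E] [Algebra (HF κ) E] (W : ValuationSubring E)
    (hW : ∀ c ∈ HO κ, algebraMap (HF κ) E c ∈ W) {x : E} (hx : x ≠ 0)
    (hi : IsAlgebraic (HF κ) x) : ∃ c : HF κ, c ≠ 0 ∧ W.valuation (c • x) = 1 := by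
  obtain ⟨m, a, hm, ha, e⟩ := Arc_pow W hx hi
  obtain ⟨γ, hγ⟩ := WithTop.ne_top_iff_exists.1 (mt hv_eq_top.1 ha)
  refine ⟨τ κ (-γ / m), τ_ne_zero _, (pow_eq_one_iff.1 (?_ : _ ^ m = _)).resolve_right hm⟩
  have h1 : hv (τ κ (-γ) * a) = 0 := by
    rw [hv_mul, hv_τ, ← hγ, ← WithTop.coe_add, neg_add_cancel, WithTop.coe_zero]
  have h2 := hv_mul (τ κ (-γ) * a) (τ κ (-γ) * a)⁻¹
  rw [mul_inv_cancel₀ (mul_ne_zero (τ_ne_zero _) ha), hv_one, h1, zero_add] at h2
  have h3 := (W.valuation_le_one_iff _).2 (hW _ (mem_HO.2 h2.le))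
  rw [map_inv₀, map_inv₀, inv_le_one₀ (by simp [τ_ne_zero, ha, pos_iff_ne_zero])] at h3
  rw [Algebra.smul_def, map_mul, mul_pow, e, ← map_pow, ← map_pow, ← map_mul, ← map_mul, Arc_τ_pow,
    mul_div_cancel₀ _ (Nat.cast_ne_zero.2 hm)]
  exact le_antisymm ((W.valuation_le_one_iff _).2 (hW _ (mem_HO.2 h1.ge))) h3

theorem Arc_surj [IsAlgClosed κ] (E : Type u) [Field E] [Algebra (HF κ) E]
    [FiniteDimensional (HF κ) E] : Function.Surjective (algebraMap (HF κ) E) := by
  obtain ⟨W, hW, hl⟩ := IsLocalRing.exists_factor_valuationRing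
    ((algebraMap (HF κ) E).comp (HO κ).subtype)
  set f : HO κ →+* W := RingHom.codRestrict _ W.toSubring hW with hf
  have hW₁ : ∀ c ∈ HO κ, algebraMap (HF κ) E c ∈ W := fun c hc => hW ⟨c, hc⟩
  have hW₂ : ∀ c, algebraMap (HF κ) E c ∈ W → c ∈ HO κ := fun c hc => by
    refine ((HO κ).mem_or_inv_mem c).elim id fun h => ?_
    rcases eq_or_ne c 0 with rfl | h0
    · exact zero_mem _
    have h1 : IsUnit (f ⟨c⁻¹, h⟩) := IsUnit.of_mul_eq_one ⟨_, hc⟩ (Subtype.ext (by simp [hf, h0]))
    obtain ⟨d, hd⟩ := (hl.map_nonunit _ h1).exists_right_inv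
    have h2 : c⁻¹ * d = 1 := congrArg Subtype.val hd
    rw [inv_mul_eq_one₀ h0] at h2
    exact h2 ▸ d.2
  have hu := fun (x : E) (hx : x ≠ 0) => Arc_unit W hW₁ hx (Algebra.IsAlgebraic.isAlgebraic x)
  obtain ⟨b, hb⟩ := lat (κ := κ) W.toSubring.toAddSubgroup
    (fun c hc v hv => by rw [Algebra.smul_def]; exact W.mul_mem _ _ (hW₁ c hc) hv) fun v hv => by
      obtain ⟨c, hc, e⟩ := hu v hv
      refine ⟨c, hc, (W.valuation_le_one_iff _).1 e.le, fun d hd => hW₂ d ?_⟩
      have := (W.valuation_le_one_iff _).2 hd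
      rwa [Algebra.smul_def, map_mul, e, mul_one, W.valuation_le_one_iff] at this
  replace hb : ∀ v, v ∈ W ↔ ∀ i, b.repr v i ∈ HO κ := hb
  have hbm : ∀ i, b i ∈ W := fun i => (hb _).2 fun j => by
    rw [b.repr_self, Finsupp.single_apply]
    split_ifs
    · exact one_mem _
    · exact zero_mem _
  have hmax : ∀ w : E, W.valuation w < 1 → ∀ i, 0 < hv (b.repr w i) := fun w hw i => by
    rcases eq_or_ne w 0 with rfl | h0
    · simp [hv_eq_top.2 rfl]
    obtain ⟨c, hc, e⟩ := hu w h0
    have h1 := (hb _).1 ((W.valuation_le_one_iff _).1 e.le) i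
    have h2 : c ∉ HO κ := fun h => by
      rw [Algebra.smul_def, map_mul] at e
      exact (mul_lt_one_of_nonneg_of_lt_one_right ((W.valuation_le_one_iff _).2 (hW₁ c h))
        zero_le hw).ne e
    rw [map_smul, Finsupp.smul_apply, smul_eq_mul, mem_HO, hv_mul] at h1
    by_contra! h3
    exact h2 (h1.trans (add_le_of_nonpos_right h3))
  let ψ : κ →+* IsLocalRing.ResidueField W :=
    (IsLocalRing.residue W).comp (f.comp (algebraMap κ (HO κ)))
  have hψ : ∀ c : HO κ, IsLocalRing.residue W (f c) = ψ (hres c) := fun c => by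
    change _ = IsLocalRing.residue W (f _)
    rw [← sub_eq_zero, ← map_sub, ← map_sub, IsLocalRing.residue_eq_zero_iff]
    exact map_nonunit f _ (mem_max_HO.2 (hres_eq_zero.1 (by simp)))
  let _ := ψ.toAlgebra
  have : Module.Finite κ (IsLocalRing.ResidueField W) := by
    refine Module.finite_def.2 (Submodule.fg_iff_exists_fin_generating_family.2
      ⟨_, fun i => IsLocalRing.residue W ⟨b i, hbm i⟩, eq_top_iff.2 fun z _ => ?_⟩)
    obtain ⟨w, rfl⟩ := IsLocalRing.residue_surjective z
    have h1 : w = ∑ i, f ⟨_, (hb _).1 w.2 i⟩ * ⟨b i, hbm i⟩ := Subtype.ext (by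
      simpa [hf, Algebra.smul_def] using (b.sum_repr w).symm)
    rw [h1, map_sum]
    refine sum_mem fun i _ => ?_
    rw [map_mul, hψ]
    exact Submodule.smul_mem _ (hres _) (Submodule.subset_span ⟨i, rfl⟩)
  choose a ha using fun i => (IsAlgClosed.algebraMap_bijective_of_isIntegral (k := κ)).2
    (IsLocalRing.residue W ⟨b i, hbm i⟩)
  have h1 : ∀ i j, 0 < hv (b.repr (b i - algebraMap κ (HF κ) (a i) • 1) j) := fun i => by
    refine hmax _ ((W.valuation_lt_one_iff (⟨b i, hbm i⟩ - f (algebraMap κ _ (a i)))).1 ?_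
      |>.trans_eq' (congrArg _ (by rw [← Algebra.algebraMap_eq_smul_one]; rfl)))
    rw [← IsLocalRing.residue_eq_zero_iff, map_sub, ← ha, sub_eq_zero]
    rfl
  have h2 : ∀ i j, algebraMap κ κ (if i = j then 1 else 0) =
      a i * hres ⟨_, (hb 1).1 W.one_mem j⟩ := fun i j => by
    have h3 := hres_eq_zero.2 (show 0 < hv (algebraMap κ (HO κ) (if i = j then 1 else 0) -
      algebraMap κ (HO κ) (a i) * ⟨_, (hb 1).1 W.one_mem j⟩ : HO κ).1 by
        convert h1 i j using 2
        rw [map_sub, map_smul, b.repr_self, Finsupp.sub_apply, Finsupp.single_apply]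
        split_ifs <;> simp [Algebra.smul_def] <;> exact .inl rfl)
    rwa [map_sub, map_mul, AlgHom.commutes, AlgHom.commutes, sub_eq_zero] at h3
  have h3 : Module.finrank (HF κ) E ≤ 1 := by
    rw [← Fintype.card_fin (Module.finrank (HF κ) E), Fintype.card_le_one_iff]
    intro i j
    by_contra hij
    have h4 := h2 i i
    have h5 := h2 i j
    have h6 := h2 j j
    simp only [if_true, if_neg hij, map_one, map_zero] at h4 h5 h6
    exact mul_ne_zero (left_ne_zero_of_mul_eq_one h4.symm) (right_ne_zero_of_mul_eq_one h6.symm)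
      h5.symm
  exact fun x => ((finrank_eq_one_iff_of_nonzero' (1 : E) one_ne_zero).1
    (le_antisymm h3 Module.finrank_pos) x).imp fun c hc =>
      (Algebra.algebraMap_eq_smul_one c).trans hc

instance isAlgClosed [IsAlgClosed κ] : IsAlgClosed (HF κ) := by
  refine IsAlgClosed.of_exists_root _ fun p hp hi => ?_
  have := Fact.mk hi
  have := hp.finite_adjoinRoot
  obtain ⟨x, hx⟩ := Arc_surj (κ := κ) (AdjoinRoot p) (AdjoinRoot.root p)
  refine ⟨x, (algebraMap (HF κ) (AdjoinRoot p)).injective ?_⟩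
  rw [← Polynomial.aeval_algebraMap_apply_eq_algebraMap_eval, hx, map_zero, AdjoinRoot.aeval_eq,
    AdjoinRoot.mk_self]

theorem Arc_τ_indep : LinearIndependent κ (τ κ) := by
  classical
  refine linearIndependent_iff'.2 fun s g h i hi => ?_
  have h2 : ∀ j, g j • τ κ j = (HahnSeries.single j (g j) : HahnSeries ℝ κ) := fun j => by
    rw [Algebra.smul_def]
    exact (HahnSeries.single_mul_single (a := (0 : ℝ)) (b := j) (r := g j) (s := 1)).trans
      (by rw [zero_add, mul_one])
  simp only [h2] at h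
  have h1 : (∑ j ∈ s, HahnSeries.single j (g j) : HahnSeries ℝ κ).coeff i = 0 :=
    congrArg (fun x : HF κ => x.ser.coeff i) h
  rwa [HahnSeries.coeff_sum, Finset.sum_eq_single i (fun j _ hj =>
    HahnSeries.coeff_single_of_ne hj.symm) fun h => absurd hi h,
    HahnSeries.coeff_single_same] at h1

theorem Arc_τ_sum {α : Type} (s : Finset α) (e : α → ℝ) :
    ∏ i ∈ s, τ κ (e i) = τ κ (∑ i ∈ s, e i) := by
  induction s using Finset.cons_induction with
  | empty => exact τ_zero.symm
  | cons i s hi ih => rw [Finset.prod_cons, Finset.sum_cons, τ_add, ih]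

theorem Arc_alg_indep {n : ℕ} {e : Fin n → ℝ} (he : LinearIndependent ℚ e) :
    AlgebraicIndependent κ fun i => τ κ (e i) := by
  rw [algebraicIndependent_iff]
  intro p hp
  have hφ : Function.Injective fun d : Fin n →₀ ℕ => ∑ i, (d i : ℝ) * e i := fun d d' h => by
    ext i
    exact_mod_cast Fintype.linearIndependent_iffₛ.1 he (fun i => d i) (fun i => d' i)
      (by simpa [Algebra.smul_def] using h) i
  have h1 := linearIndependent_iff'.1 ((Arc_τ_indep (κ := κ)).comp _ hφ) p.support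
    (fun d => coeff d p) (by
      rw [← hp, aeval_def, eval₂_eq']
      refine Finset.sum_congr rfl fun d _ => ?_
      simp only [Algebra.smul_def, Function.comp, Arc_τ_pow, Arc_τ_sum])
  ext d
  exact by_contra fun h => h (h1 d (mem_support_iff.2 h))

/-- Generic elements at a prescribed distance. -/
theorem gen {s : Set (HF κ)} (hs : rk k s ≠ ⊤) (a : HF κ) (γ : ℝ) :
    ∃ y : HF κ, hv (y - a) = γ ∧ Transcendental (Algebra.adjoin k s) y := by
  by_contra! hc
  simp only [Transcendental, not_not] at hc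
  have h1 : ∀ r : ℝ, γ < r → IsAlgebraic (Algebra.adjoin k s) (τ κ r) := fun r hr => by
    have h2 := hc (a + τ κ γ) (by rw [add_sub_cancel_left, hv_τ])
    have h3 := hc (a + (τ κ γ + τ κ r)) (by
      rw [add_sub_cancel_left, hv_add_of_lt (by rw [hv_τ, hv_τ]; exact_mod_cast hr), hv_τ])
    simpa using h3.sub h2
  have h2 : ∀ r, IsAlgebraic (Algebra.adjoin k s) (τ κ r) := fun r => by
    have := (h1 (r + (|γ| + |r| + 1)) (by linarith [le_abs_self γ, neg_abs_le r])).mul
      (h1 (|γ| + |r| + 1) (by linarith [le_abs_self γ, abs_nonneg r])).inv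
    rwa [τ_add, mul_inv_cancel_right₀ (τ_ne_zero _)] at this
  refine hs (ENat.eq_top_iff_forall_ge.2 fun n => ?_)
  obtain ⟨e, he⟩ := exists_linearIndependent_of_le_rank (R := ℚ) (M := ℝ) (n := n)
    (by rw [Real.rank_rat_real]; exact (Cardinal.nat_lt_continuum n).le)
  exact le_rk_of_indep ((Arc_alg_indep he).restrictScalars (algebraMap k κ).injective)
    fun i => h2 _

theorem Arc_gens {s : Set (HF κ)} (hs : rk k s ≠ ⊤) (n : ℕ) : ∀ (a : Fin n → HF κ) (γ : Fin n → ℝ),
    ∃ y : Fin n → HF κ, (∀ j, hv (y j - a j) = γ j) ∧ rk k (s ∪ Set.range y) = rk k s + n := by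
  induction n with
  | zero => exact fun a γ => ⟨a, fun j => j.elim0, by simp⟩
  | succ n ih =>
    intro a γ
    obtain ⟨y, h1, h2⟩ := ih (Fin.tail a) (Fin.tail γ)
    obtain ⟨z, h3, h4⟩ := gen (k := k) (s := s ∪ Set.range y) (by simp [h2, hs]) (a 0) (γ 0)
    refine ⟨Fin.cons z y, fun j => Fin.cases h3 h1 j, ?_⟩
    rw [Fin.range_cons, Set.union_insert, rk_insert h4, h2, add_assoc, Nat.cast_succ]

/-- Several generic elements. -/
theorem gens {s : Set (HF κ)} (hs : rk k s ≠ ⊤) {J : Type} [Finite J] (a : J → HF κ) (γ : J → ℝ) :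
    ∃ y : J → HF κ, (∀ j, hv (y j - a j) = γ j) ∧
      AlgebraicIndependent (IntermediateField.adjoin k s) y := by
  obtain ⟨n, ⟨e⟩⟩ := Finite.exists_equiv_fin J
  obtain ⟨y, h1, h2⟩ := Arc_gens hs n (a ∘ e.symm) (γ ∘ e.symm)
  rw [rk_union] at h2
  replace h2 := WithTop.add_left_cancel hs h2
  exact ⟨y ∘ e, fun j => by simpa using h1 (e j),
    (indep_of_rk (by simp [h2])).comp e e.injective⟩

/-- An embedding of a subfield of finite rank extends to a field of countable rank. -/
theorem emb [IsAlgClosed κ] {c : I → K} {c' : I → HF κ} (h : Spc k c c') (h' : Spc k c' c)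
    (hc : dm k c ≠ ⊤) (hK : Algebra.trdeg k K ≤ Cardinal.aleph0) :
    ∃ φ : K →ₐ[k] HF κ, ∀ i, φ (c i) = c' i := by
  let A := Algebra.adjoin k (Set.range c)
  let F := IntermediateField.adjoin k (Set.range c')
  obtain ⟨φ₀, h₀⟩ : ∃ φ₀ : A →ₐ[k] HF κ, _ := h.exists_hom
  have h1 : ∀ a : A, ∃ f : MvPolynomial I k, aeval c f = a ∧ aeval c' f = φ₀ a := fun a => by
    obtain ⟨f, hf⟩ := (Algebra.adjoin_range_eq_range_aeval k c).le a.2
    have h2 : aeval (fun i => (⟨c i, Algebra.subset_adjoin ⟨i, rfl⟩⟩ : A)) f = a :=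
      Subtype.ext ((comp_aeval_apply _ A.val f).trans hf)
    exact ⟨f, hf, by rw [← h2, comp_aeval_apply, funext h₀]⟩
  have hinj : Function.Injective φ₀ := (injective_iff_map_eq_zero _).2 fun a ha => by
    obtain ⟨f, h2, h3⟩ := h1 a
    exact Subtype.ext (h2.symm.trans (h' f (h3.trans ha)))
  have hmem : ∀ a, φ₀ a ∈ F.toSubalgebra := fun a => by
    obtain ⟨f, -, h3⟩ := h1 a
    exact IntermediateField.algebra_adjoin_le_adjoin k _
      ((Algebra.adjoin_range_eq_range_aeval k c').ge ⟨f, h3⟩)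
  obtain ⟨ι, x, hx⟩ := exists_isTranscendenceBasis' A K
  obtain ⟨ι', y, hy⟩ := exists_isTranscendenceBasis' F (HF κ)
  obtain ⟨j⟩ : Cardinal.mk ι ≤ Cardinal.mk ι' := by
    refine ((hx.1.restrictScalars (algebraMap k A).injective).cardinalMk_le_trdeg.trans hK).trans
      (Cardinal.aleph0_le.2 fun n => ?_)
    obtain ⟨z, -, hz⟩ := gens (ne_top_of_le_ne_top hc h.dm_le) (fun _ : Fin n => 0) fun _ => 0
    simpa [hy.cardinalMk_eq_trdeg] using hz.lift_cardinalMk_le_trdeg
  let _ : Algebra A (HF κ) := φ₀.toAlgebra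
  have hz : AlgebraicIndependent A (y ∘ j) :=
    AlgebraicIndependent.of_ringHom_of_comp_eq (φ₀.codRestrict F.toSubalgebra hmem).toRingHom
      (RingHom.id _) (hy.1.comp j j.injective) (fun a b hab => hinj (congrArg Subtype.val hab)) rfl
  let θ := (aeval (y ∘ j)).comp hx.1.aevalEquiv.symm.toAlgHom
  let _ : Algebra (Algebra.adjoin A (Set.range x)) (HF κ) := θ.toAlgebra
  have := (faithfulSMul_iff_algebraMap_injective (Algebra.adjoin A (Set.range x)) (HF κ)).2
    (Function.Injective.comp (g := aeval (y ∘ j)) hz hx.1.aevalEquiv.symm.injective)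
  have := hx.isAlgebraic
  let φ : K →ₐ[Algebra.adjoin A (Set.range x)] HF κ := IsAlgClosed.lift
  have hφ : ∀ a : A, φ a = φ₀ a := fun a =>
    (φ.commutes (algebraMap A _ a)).trans (θ.commutes a)
  exact ⟨{ (φ : K →+* HF κ) with
    commutes' := fun r => (hφ (algebraMap k A r)).trans (φ₀.commutes r) },
    fun i => (hφ ⟨c i, _⟩).trans (h₀ i)⟩

theorem Arc_ext {B S H : Type u} [CommRing B] [IsDomain B] [IsIntegrallyClosed B] [CommRing S]
    [IsDomain S] [Algebra B S] [FaithfulSMul B S] [Module.Finite B S] [Field H] [IsAlgClosed H]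
    [Algebra B H] [FaithfulSMul B H] (O : ValuationSubring H) (hO : ∀ b, algebraMap B H b ∈ O)
    (P : Ideal S) (hP : ∀ b, algebraMap B S b ∈ P → O.valuation (algebraMap B H b) < 1) :
    ∃ φ : S →ₐ[B] H, Function.Injective φ ∧ (∀ s, φ s ∈ O) ∧ ∀ s ∈ P, O.valuation (φ s) < 1 := by
  have hm : ∀ (φ : S →ₐ[B] H) s, φ s ∈ O := fun φ s => by
    let _ : Algebra B O := ((algebraMap B H).codRestrict O.toSubring hO).toAlgebra
    have : IsScalarTower B O H := .of_algebraMap_eq fun _ => rfl
    obtain ⟨y, hy⟩ := IsIntegrallyClosed.isIntegral_iff.1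
      (((Algebra.IsIntegral.isIntegral (R := B) s).map φ).tower_top (A := O))
    exact hy ▸ y.2
  have key : ∀ s ∈ P, ∃ φ : S →ₐ[B] H, O.valuation (φ s) < 1 := fun s hs => by
    let _ := FractionRing.liftAlgebra B H
    let _ := FractionRing.liftAlgebra B (FractionRing S)
    have := FractionRing.isScalarTower_liftAlgebra B H
    have := FractionRing.isScalarTower_liftAlgebra B (FractionRing S)
    have := isAlgebraic_of_isFractionRing B S (FractionRing B) (FractionRing S)
    have hi : IsIntegral B s := Algebra.IsIntegral.isIntegral s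
    have h1 := hP _ (Ideal.coeff_zero_mem_comap_of_root_mem hs (minpoly.aeval B s))
    have hmo := (minpoly.monic hi).map (algebraMap B H)
    have h2 := (IsAlgClosed.splits _).coeff_zero_eq_prod_roots_of_monic hmo
    obtain ⟨z, hz, hz'⟩ : ∃ z ∈ ((minpoly B s).map (algebraMap B H)).roots, O.valuation z < 1 := by
      by_contra! hc
      rw [← Polynomial.coeff_map, h2, map_mul, map_pow, Valuation.map_neg, map_one, one_pow,
        one_mul, map_multiset_prod] at h1
      refine not_le.2 h1 (Multiset.one_le_prod_of_one_le fun x hx => ?_)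
      obtain ⟨z, hz, rfl⟩ := Multiset.mem_map.1 hx
      exact hc z hz
    have h3 : z ∈ (minpoly (FractionRing B) (algebraMap S (FractionRing S) s)).rootSet H := by
      rw [minpoly.isIntegrallyClosed_eq_field_fractions (FractionRing B) (FractionRing S) hi,
        ((minpoly.monic hi).map _).mem_rootSet, Polynomial.aeval_map_algebraMap,
        ← Polynomial.eval_map_algebraMap]
      exact (Polynomial.mem_roots hmo.ne_zero).1 hz
    rw [← Algebra.IsAlgebraic.range_eval_eq_rootSet_minpoly] at h3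
    obtain ⟨ψ, rfl⟩ := h3
    exact ⟨(ψ.restrictScalars B).comp (IsScalarTower.toAlgHom B S (FractionRing S)), hz'⟩
  let Q : (S →ₐ[B] H) → Ideal S := fun φ => (IsLocalRing.maximalIdeal O).comap
    ((φ : S →+* H).codRestrict O.toSubring (hm φ))
  have hQ : ∀ φ s, s ∈ Q φ ↔ O.valuation (φ s) < 1 := fun φ s =>
    O.valuation_lt_one_iff ⟨φ s, hm φ s⟩
  obtain ⟨φ₀, -⟩ := key 0 P.zero_mem
  obtain ⟨φ, -, hφ⟩ := (Ideal.subset_union_prime_finite Set.finite_univ (f := Q) φ₀ φ₀
    (fun φ _ _ _ => Ideal.comap_isPrime _ _) (I := P)).1 fun s hs => by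
      obtain ⟨φ, h⟩ := key s hs
      exact Set.mem_biUnion (Set.mem_univ φ) ((hQ φ s).2 h)
  refine ⟨φ, (RingHom.injective_iff_ker_eq_bot φ).2 (Ideal.eq_bot_of_comap_eq_bot (R := B)
    (eq_bot_iff.2 fun b hb => ?_)), hm φ, fun s hs => (hQ φ s).1 (hφ hs)⟩
  exact FaithfulSMul.algebraMap_injective B H ((φ.commutes b).symm.trans (hb.trans (map_zero _).symm))

theorem Arc_base [IsAlgClosed κ] {S : Type u} [CommRing S] [IsDomain S] [Algebra κ S]
    [Algebra.FiniteType κ S] (ψ : S →ₐ[κ] κ) :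
    ∃ φ : S →ₐ[κ] HO κ, Function.Injective φ ∧ ∀ s, hres (φ s) = ψ s := by
  obtain ⟨d, g, hg, hf⟩ := exists_finite_inj_algHom_of_fg κ S
  obtain ⟨y, hy, hi⟩ := gens (k := κ) (κ := κ) (s := ∅)
    (ne_top_of_le_ne_top (by simp) (rk_le_encard _))
    (fun j => algebraMap κ (HF κ) (ψ (g (X j)))) fun _ => 1
  replace hi := hi.restrictScalars (algebraMap κ _).injective
  have h0 : ∀ j, 0 < hv (y j - algebraMap κ (HF κ) (ψ (g (X j)))) := fun j => by
    rw [hy]
    exact_mod_cast one_pos
  let y' : Fin d → HO κ := fun j => ⟨_, (h0 j).le⟩ + algebraMap κ (HO κ) (ψ (g (X j)))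
  have h1 : (IsScalarTower.toAlgHom κ (HO κ) (HF κ)).comp (aeval y') = aeval y :=
    algHom_ext fun j => by
      simp only [AlgHom.comp_apply, aeval_X]
      exact sub_add_cancel _ _
  have h2 : hres.comp (aeval y') = ψ.comp g := algHom_ext fun j => by
    simp only [AlgHom.comp_apply, aeval_X, y']
    rw [map_add, hres_eq_zero.2 (h0 j), zero_add, AlgHom.commutes]
    rfl
  replace h1 : ∀ b, (aeval y' b : HO κ) = aeval y b := fun b => DFunLike.congr_fun h1 b
  let _ : Algebra (MvPolynomial (Fin d) κ) S := g.toAlgebra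
  let _ : Algebra (MvPolynomial (Fin d) κ) (HF κ) := (aeval y).toAlgebra
  have : Module.Finite (MvPolynomial (Fin d) κ) S := hf
  have := (faithfulSMul_iff_algebraMap_injective (MvPolynomial (Fin d) κ) S).2 hg
  have := (faithfulSMul_iff_algebraMap_injective (MvPolynomial (Fin d) κ) (HF κ)).2 hi
  obtain ⟨φ, hφ, hm, hP⟩ := Arc_ext (B := MvPolynomial (Fin d) κ) (HO κ)
    (fun b => (h1 b ▸ (aeval y' b).2 : aeval y b ∈ HO κ)) (RingHom.ker ψ) fun b hb => by
      change (HO κ).valuation (aeval y b) < 1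
      rw [← h1, ← ValuationSubring.valuation_lt_one_iff, mem_max_HO, ← hres_eq_zero]
      exact (DFunLike.congr_fun h2 b).trans hb
  let φ' : S →ₐ[κ] HO κ :=
    { (φ : S →+* HF κ).codRestrict (HO κ).toSubring hm with
      commutes' := fun c => Subtype.ext ((congrArg φ (g.commutes c).symm).trans
        ((φ.commutes (algebraMap κ _ c)).trans ((aeval y).commutes c))) }
  refine ⟨φ', fun a b h => hφ (congrArg Subtype.val h), fun s => ?_⟩
  have h3 := hres_eq_zero.2 (mem_max_HO.1 (((HO κ).valuation_lt_one_iff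
    (φ' (s - algebraMap κ S (ψ s)))).2 (hP _ (by simp [RingHom.mem_ker]))))
  rwa [map_sub, map_sub, AlgHom.commutes, AlgHom.commutes, sub_eq_zero] at h3

/-- Every specialisation is realised by an arc. -/
theorem arc [IsAlgClosed κ] {c : I → K} {c₀ : I → κ} (hc : FG k c) (h : Spc k c c₀) :
    ∃ c' : I → HO κ, Spc k c c' ∧ Spc k (fun i => (c' i : HF κ)) c ∧ ∀ i, hres (c' i) = c₀ i := by
  let _ := algebraMvPolynomial (σ := I) (R := k) (S := κ)
  have : Module.Flat (MvPolynomial I k) (MvPolynomial I κ) := Module.Flat.isBaseChange k _ κ _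
    (Algebra.IsPushout.out (R := k) (S := MvPolynomial I k) (R' := κ) (S' := MvPolynomial I κ))
  have := RingHom.ker_isPrime (aeval c : MvPolynomial I k →ₐ[k] K)
  have := RingHom.ker_isPrime (aeval c₀ : MvPolynomial I κ →ₐ[κ] κ)
  obtain ⟨P, hP, _, hl⟩ := Ideal.exists_ideal_le_liesOver_of_le
    (p := RingHom.ker (aeval c : MvPolynomial I k →ₐ[k] K))
    (q := (RingHom.ker (aeval c₀ : MvPolynomial I κ →ₐ[κ] κ)).under (MvPolynomial I k))
    (RingHom.ker (aeval c₀ : MvPolynomial I κ →ₐ[κ] κ))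
    fun f hf => (aeval_map_algebraMap κ c₀ f).trans (h f hf)
  let x : I → MvPolynomial I κ ⧸ P := fun i => Ideal.Quotient.mkₐ κ P (X i)
  have h1 : ∀ f : MvPolynomial I κ, aeval x f = Ideal.Quotient.mkₐ κ P f := fun f => by
    rw [← comp_aeval_apply, aeval_X_left_apply]
  have h2 : ∀ f : MvPolynomial I k, aeval x f = 0 ↔ aeval c f = 0 := fun f => by
    rw [← aeval_map_algebraMap κ, h1, ← RingHom.mem_ker (f := aeval c), hl.over]
    exact Ideal.Quotient.eq_zero_iff_mem
  have h3 : Spc k c x := fun f => (h2 f).2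
  have : Algebra.FiniteType κ (MvPolynomial I κ ⧸ P) := by
    classical
    obtain ⟨s, hs⟩ := hc.spc h3
    refine ⟨s.image x, eq_top_iff.2 fun z _ => ?_⟩
    obtain ⟨f, rfl⟩ := Ideal.Quotient.mkₐ_surjective κ P z
    refine Algebra.adjoin_le (s := Set.range x) ?_
      ((Algebra.adjoin_range_eq_range_aeval κ x).ge ⟨f, h1 f⟩)
    rintro _ ⟨i, rfl⟩
    rw [Finset.coe_image]
    exact Algebra.adjoin_le (S := (Algebra.adjoin κ (x '' s)).restrictScalars k)
      (fun _ hy => (Subalgebra.mem_restrictScalars k).2 (Algebra.subset_adjoin hy)) (hs i)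
  obtain ⟨φ, hφ, hr⟩ := Arc_base (Ideal.Quotient.liftₐ P (aeval c₀) hP)
  refine ⟨fun i => φ (x i), h3.trans (Spc.map x (φ.restrictScalars k)),
    (Spc.of_map x ((IsScalarTower.toAlgHom k (HO κ) (HF κ)).comp (φ.restrictScalars k))
      (Subtype.val_injective.comp hφ)).trans fun f => (h2 f).1, fun i => (hr _).trans ?_⟩
  exact aeval_X c₀ i

end PR0
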