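import Pool.Agent.Work.MP_da2620_ag.FF

/-!
# Riemann's theorem and the vanishing of `h¹`

`finite_h1`: for transcendental `x` of degree `d` with a `K[x]`-basis `β` of the integral closure,
`ell (n ∞ + D₀) ≥ (n + 1) d`, while `deg (n ∞) ≤ n d`; so `deg D - ell D` is bounded above
(every `D` is below a divisor equivalent to a multiple of `∞`); with
`dim RepD D' / RepD D = deg D' - deg D` (weak approximation) one gets that `h1` is finite and
`ell D - h1 D - deg D` is constant (Stichtenoth 1.4, 1.5).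
`h1z_of_deg`: there is a nonspecial effective divisor `E` of degree `g`: if `ell (P₁ + ... + P_j) = 1`
and `j < g`, some `P` keeps `ell = 1`; otherwise functions with a pole exactly at `P` for `m`
distinct new places `P` are independent, so `ell (D + ∑ P) ≥ m + 1`; but `D + ∑ P` is nonspecial
for large `m` (it is equivalent to `D_big + effective`).  For `deg D ≥ 2g`, `D - E` is equivalent to
an effective divisor.
-/

namespace PR0

universe u

variable {K L : Type u} [Field K] [Field L] [Algebra K L]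

/-- Divisors. -/
abbrev Dv (K L : Type u) [Field K] [Field L] [Algebra K L] := Place K L →₀ ℤ

/-- Degree. -/
def dg (D : Dv K L) : ℤ := D.sum fun _ n => n

variable [IsAlgClosed K] [hL : Fact (IsFF K L)]

/-- Riemann-Roch space. -/
def Lsp (D : Dv K L) : Submodule K L where
  carrier := {f | ∀ P : Place K L, P.Ge f (-D P)}
  add_mem' ha hb P := (ha P).add (hb P)
  zero_mem' _ := Or.inl rfl
  smul_mem' c _ ha P := (ha P).smul c

/-- Repartitions bounded by `D`. -/
def RepD (D : Dv K L) : Submodule K (Place K L → L) where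
  carrier := {a | ∀ P : Place K L, P.Ge (a P) (-D P)}
  add_mem' ha hb P := (ha P).add (hb P)
  zero_mem' _ := Or.inl rfl
  smul_mem' c _ ha P := (ha P).smul c

/-- `ell D`. -/
noncomputable def ell (D : Dv K L) : ℕ := Module.finrank K (Lsp D)

/-- `h¹ D`. -/
noncomputable def h1 (D : Dv K L) : ℕ :=
  Module.finrank K (Rep K L ⧸ (RepD D ⊔ RepL K L).submoduleOf (Rep K L))

/-- Vanishing of `H¹`, in the form of strong approximation. -/
def H1z (D : Dv K L) : Prop := ∀ a ∈ Rep K L, ∃ f : L, ∀ P : Place K L, P.Ge (f - a P) (-D P)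

/-- The divisor of a nonzero function. -/
noncomputable def dv (K : Type u) [Field K] [Algebra K L] [IsAlgClosed K] [Fact (IsFF K L)] (f : L) :
    Dv K L := by
  classical exact if h : f ≠ 0 then Finsupp.ofSupportFinite (fun P => P.ord f) (finite_ord h) else 0

/-- The pole divisor. -/
noncomputable def dvInf (K : Type u) [Field K] [Algebra K L] [IsAlgClosed K] [Fact (IsFF K L)]
    (f : L) : Dv K L := (-dv K f) ⊔ 0

/-- the degree as a homomorphism -/
noncomputable def rr_dg : Dv K L →+ ℤ :=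
  AddMonoidHom.mk' dg fun _ _ => Finsupp.sum_add_index' (fun _ => rfl) fun _ _ _ => rfl

theorem dg_add (D E : Dv K L) : dg (D + E) = dg D + dg E := map_add rr_dg D E
theorem dg_neg (D : Dv K L) : dg (-D) = -dg D := map_neg rr_dg D
theorem dg_sub (D E : Dv K L) : dg (D - E) = dg D - dg E := map_sub rr_dg D E
theorem dg_single (P : Place K L) (n : ℤ) : dg (Finsupp.single P n) = n :=
  Finsupp.sum_single_index rfl
theorem dg_smul (n : ℤ) (D : Dv K L) : dg (n • D) = n * dg D := map_zsmul rr_dg n D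
theorem dg_sum {α : Type*} (s : Finset α) (D : α → Dv K L) : dg (∑ a ∈ s, D a) = ∑ a ∈ s, dg (D a) :=
  map_sum rr_dg D s
theorem rr_dg_zero : dg (0 : Dv K L) = 0 := map_zero (rr_dg (K := K) (L := L))
theorem dg_mono {D E : Dv K L} (h : D ≤ E) : dg D ≤ dg E := by
  have : 0 ≤ dg (E - D) := Finset.sum_nonneg fun P _ => sub_nonneg.2 (h P)
  rw [dg_sub] at this
  omega
theorem dv_apply {f : L} (hf : f ≠ 0) (P : Place K L) : dv K f P = P.ord f := by
  rw [dv, dif_pos hf, Finsupp.ofSupportFinite_coe]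
theorem dvInf_apply {f : L} (hf : f ≠ 0) (P : Place K L) : dvInf K f P = max (-P.ord f) 0 := by
  rw [dvInf, Finsupp.sup_apply, Finsupp.neg_apply, dv_apply hf, Finsupp.zero_apply]
theorem RepD_zero : RepD (0 : Dv K L) = Rep0 K L := by
  ext a
  exact forall_congr' fun P => by rw [Finsupp.zero_apply, neg_zero, ← P.mem_iff]
theorem h1_zero : h1 (0 : Dv K L) = genus K L := by
  rw [h1, RepD_zero, genus]

theorem rr_le_add (D : Dv K L) (P : Place K L) : D ≤ D + Finsupp.single P 1 :=
  le_add_of_nonneg_right (Finsupp.single_nonneg.2 zero_le_one)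

/-- induction on divisors above `D` -/
theorem rr_ind {p : Dv K L → Prop} {D : Dv K L} (h0 : p D)
    (hs : ∀ E P, D ≤ E → p E → p (E + Finsupp.single P 1)) {E : Dv K L} (hE : D ≤ E) : p E := by
  have key : ∀ n : ℕ, ∀ E, D ≤ E → dg E < dg D + n → p E := fun n => by
    induction n with
    | zero => exact fun E h1 h2 => absurd (dg_mono h1) (by omega)
    | succ n ih =>
      intro E h1 h2
      by_cases h : E ≤ D
      · exact le_antisymm h1 h ▸ h0
      obtain ⟨P, hP⟩ := not_forall.1 h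
      have h3 : D ≤ E - Finsupp.single P 1 := fun Q => by
        have := h1 Q
        by_cases hQ : Q = P
        · subst hQ
          simp only [Finsupp.coe_sub, Pi.sub_apply, Finsupp.single_eq_same]
          omega
        · simpa [Finsupp.single_eq_of_ne hQ] using this
      have := hs _ P h3 (ih _ h3 (by rw [dg_sub, dg_single]; omega))
      rwa [sub_add_cancel] at this
  exact key ((dg E - dg D).toNat + 1) E hE (by omega)

theorem rr_ge_unif (P : Place K L) (n : ℤ) : P.ord (P.unif ^ n) = n := by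
  rw [P.ord_zpow P.unif_ne_zero, P.ord_unif, mul_one]

theorem rr_expand {P : Place K L} {f : L} {n : ℤ} (h : P.Ge f n) :
    ∃ c : K, P.Ge (f - c • P.unif ^ n) (n + 1) := by
  have h1 := h.mul (Or.inr (rr_ge_unif P (-n)).ge)
  rw [add_neg_cancel, ← P.mem_iff] at h1
  refine ⟨P.val (f * P.unif ^ (-n)), ?_⟩
  have h2 := (Place.ge_sub_val h1).mul (Or.inr (rr_ge_unif P n).ge)
  rwa [sub_mul, mul_assoc, ← zpow_add₀ P.unif_ne_zero, neg_add_cancel, zpow_zero, mul_one,
    ← Algebra.smul_def, add_comm] at h2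

/-- the repartition with a pole of order `D P + 1` at `P` -/
noncomputable def rr_e (D : Dv K L) (P : Place K L) : Place K L → L :=
  ({P} : Set (Place K L)).indicator fun _ => P.unif ^ (-(D P + 1))

theorem rr_e_ne (D : Dv K L) {P Q : Place K L} (h : Q ≠ P) : rr_e D P Q = 0 :=
  Set.indicator_of_notMem (s := {P}) h _

theorem rr_e_mem (D : Dv K L) (P : Place K L) : rr_e D P ∈ RepD (D + Finsupp.single P 1) :=
  fun Q => by
    by_cases h : Q = P
    · subst h
      rw [rr_e, Set.indicator_of_mem (Set.mem_singleton _), Finsupp.add_apply,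
        Finsupp.single_eq_same]
      exact Or.inr (rr_ge_unif _ _).ge
    · exact Or.inl (rr_e_ne D h)

theorem rr_e_not (D : Dv K L) (P : Place K L) : rr_e D P ∉ RepD D := fun h => by
  have := h P
  rw [rr_e, Set.indicator_of_mem (Set.mem_singleton _)] at this
  rcases this with h | h
  · exact zpow_ne_zero _ P.unif_ne_zero h
  · rw [rr_ge_unif] at h
    omega

theorem rr_e_dec {D : Dv K L} {P : Place K L} {a : Place K L → L}
    (ha : a ∈ RepD (D + Finsupp.single P 1)) : ∃ c : K, a - c • rr_e D P ∈ RepD D := by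
  have h1 := ha P
  rw [Finsupp.add_apply, Finsupp.single_eq_same] at h1
  obtain ⟨c, hc⟩ := rr_expand h1
  refine ⟨c, fun Q => ?_⟩
  by_cases h : Q = P
  · subst h
    rw [Pi.sub_apply, Pi.smul_apply, rr_e, Set.indicator_of_mem (Set.mem_singleton _)]
    exact hc.mono (by omega)
  · have := ha Q
    rw [Finsupp.add_apply, Finsupp.single_eq_of_ne h, add_zero] at this
    rwa [Pi.sub_apply, Pi.smul_apply, rr_e_ne D h, smul_zero, sub_zero]

theorem rr_RepD_mono {D E : Dv K L} (h : D ≤ E) : RepD D ≤ RepD E :=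
  fun _ ha P => (ha P).mono (neg_le_neg (h P))

theorem rr_Lsp_mono {D E : Dv K L} (h : D ≤ E) : Lsp D ≤ Lsp E :=
  fun _ ha P => (ha P).mono (neg_le_neg (h P))

theorem rr_W_le (D : Dv K L) : RepD D ⊔ RepL K L ≤ Rep K L := by
  refine sup_le (fun a ha => D.support.finite_toSet.subset fun P hP => ?_) ?_
  · by_contra h
    have := ha P
    rw [Finsupp.notMem_support_iff.1 h, neg_zero, ← P.mem_iff] at this
    exact hP this
  · rintro _ ⟨f, rfl⟩
    exact finite_poles f

theorem rr_RepD_step (D : Dv K L) (P : Place K L) :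
    RepD (D + Finsupp.single P 1) = RepD D ⊔ K ∙ rr_e D P := by
  refine le_antisymm (fun a ha => ?_) (sup_le (rr_RepD_mono (rr_le_add D P))
    ((Submodule.span_singleton_le_iff_mem _ _).2 (rr_e_mem D P)))
  obtain ⟨c, hc⟩ := rr_e_dec ha
  rw [← sub_add_cancel a (c • rr_e D P)]
  exact Submodule.add_mem_sup hc (Submodule.smul_mem _ _ (Submodule.mem_span_singleton_self _))

theorem rr_mem_W {D : Dv K L} {a : Place K L → L} :
    a ∈ RepD D ⊔ RepL K L ↔ ∃ f : L, ∀ P : Place K L, P.Ge (f - a P) (-D P) := by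
  constructor
  · intro h
    obtain ⟨r, hr, _, ⟨f, rfl⟩, rfl⟩ := Submodule.mem_sup.1 h
    exact ⟨f, fun P => by simpa using (hr P).neg⟩
  · rintro ⟨f, hf⟩
    refine Submodule.mem_sup.2 ⟨a - fun _ => f, fun P => ?_, fun _ => f, ⟨f, rfl⟩, by simp⟩
    simpa using (hf P).neg

theorem rr_step (D : Dv K L) (P : Place K L) :
    (∃ f ∉ Lsp D, Lsp (D + Finsupp.single P 1) = Lsp D ⊔ K ∙ f ∧
      RepD (D + Finsupp.single P 1) ⊔ RepL K L = RepD D ⊔ RepL K L) ∨
    (Lsp (D + Finsupp.single P 1) = Lsp D ∧ rr_e D P ∉ RepD D ⊔ RepL K L) := by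
  have hc : ∀ (E : Dv K L) (f : L), f ∈ Lsp E ↔ (fun _ => f) ∈ RepD E := fun _ _ => Iff.rfl
  by_cases he : rr_e D P ∈ RepD D ⊔ RepL K L
  · obtain ⟨f, hf⟩ := rr_mem_W.1 he
    have hf' : (fun _ => f) - rr_e D P ∈ RepD D := hf
    refine Or.inl ⟨f, fun h => rr_e_not D P ?_, le_antisymm (fun g hg => ?_)
      (sup_le (rr_Lsp_mono (rr_le_add D P)) ((Submodule.span_singleton_le_iff_mem _ _).2 ?_)), ?_⟩
    · simpa using sub_mem ((hc _ _).1 h) hf'
    · obtain ⟨c, h⟩ := rr_e_dec ((hc _ _).1 hg)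
      rw [← sub_add_cancel g (c • f)]
      refine Submodule.add_mem_sup ((hc _ _).2 ?_)
        (Submodule.smul_mem _ _ (Submodule.mem_span_singleton_self _))
      convert sub_mem h (Submodule.smul_mem _ c hf') using 1
      funext Q
      simp [smul_sub]
    · simpa [hc] using add_mem (rr_RepD_mono (rr_le_add D P) hf') (rr_e_mem D P)
    · rw [rr_RepD_step, sup_right_comm]
      exact sup_eq_left.2 ((Submodule.span_singleton_le_iff_mem _ _).2 he)
  · refine Or.inr ⟨le_antisymm (fun g hg => ?_) (rr_Lsp_mono (rr_le_add D P)), he⟩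
    obtain ⟨c, h⟩ := rr_e_dec ((hc _ _).1 hg)
    by_cases h0 : c = 0
    · simpa [h0, hc] using h
    · refine absurd ((Submodule.smul_mem_iff _ h0).1 ?_) he
      simpa using sub_mem (Submodule.mem_sup_right ⟨g, rfl⟩ : (fun _ => g) ∈ RepD D ⊔ RepL K L)
        (Submodule.mem_sup_left h)

theorem rr_Lsp_zero : Lsp (0 : Dv K L) = K ∙ (1 : L) := by
  ext f
  rw [Submodule.mem_span_singleton]
  constructor
  · intro h
    obtain ⟨c, hc⟩ := const_of_regular (K := K) fun P => P.mem_iff.2 (by simpa using h P)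
    exact ⟨c, by rw [hc, Algebra.algebraMap_eq_smul_one]⟩
  · rintro ⟨c, rfl⟩ P
    rw [Finsupp.zero_apply, neg_zero, ← P.mem_iff, ← Algebra.algebraMap_eq_smul_one]
    exact P.2.2 c

instance finite_Lsp (D : Dv K L) : FiniteDimensional K (Lsp D) := by
  have : FiniteDimensional K (Lsp (D ⊔ 0)) := by
    refine rr_ind (p := fun E => FiniteDimensional K (Lsp E)) (D := 0) ?_ (fun E P _ h => ?_)
      le_sup_right
    · rw [rr_Lsp_zero]; infer_instance
    · rcases rr_step E P with ⟨f, -, h1, -⟩ | ⟨h1, -⟩ <;> rw [h1] <;> infer_instance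
  exact Submodule.finiteDimensional_of_le (rr_Lsp_mono (le_sup_left : D ≤ D ⊔ 0))

theorem ell_zero : ell (0 : Dv K L) = 1 := by
  rw [ell, rr_Lsp_zero, finrank_span_singleton one_ne_zero]

theorem rr_ell_step (D : Dv K L) (P : Place K L) :
    (ell (D + Finsupp.single P 1) = ell D + 1 ∧ Lsp (D + Finsupp.single P 1) ≠ Lsp D ∧
      RepD (D + Finsupp.single P 1) ⊔ RepL K L = RepD D ⊔ RepL K L) ∨
    (Lsp (D + Finsupp.single P 1) = Lsp D ∧ rr_e D P ∉ RepD D ⊔ RepL K L) := by
  refine (rr_step D P).imp_left fun ⟨f, h0, h1, h2⟩ => ⟨?_, fun h => h0 ?_, h2⟩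
  · have := Submodule.finrank_sup_add_finrank_inf_eq (Lsp D) (K ∙ f)
    rw [(Submodule.disjoint_span_singleton_of_notMem h0).eq_bot, finrank_bot,
      finrank_span_singleton fun h : f = 0 => h0 (h ▸ zero_mem _)] at this
    rw [ell, h1, ell, ← this, add_zero]
  · rw [← h, h1]
    exact Submodule.mem_sup_right (Submodule.mem_span_singleton_self _)

theorem rr_s_mono {D E : Dv K L} (h : D ≤ E) : dg D - ell D ≤ dg E - ell E := by
  refine rr_ind (p := fun E => dg D - ell D ≤ dg E - ell E) le_rfl (fun E P _ h => ?_) h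
  rw [dg_add, dg_single]
  rcases rr_ell_step E P with ⟨h1, -⟩ | ⟨h1, -⟩
  · rw [h1]; push_cast; omega
  · rw [show ell (E + Finsupp.single P 1) = ell E by rw [ell, h1, ell]]; omega

/-! The degree of the pole divisor. -/

theorem rr_fam {D E : Dv K L} (h : D ≤ E) : ∃ (n : ℕ) (a : Fin n → Place K L → L),
    (n : ℤ) = dg E - dg D ∧ (∀ i, a i ∈ RepD E) ∧
      ∀ c : Fin n → K, ∑ i, c i • a i ∈ RepD D → c = 0 := by
  refine rr_ind (p := fun E => ∃ (n : ℕ) (a : Fin n → Place K L → L),
    (n : ℤ) = dg E - dg D ∧ (∀ i, a i ∈ RepD E) ∧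
      ∀ c : Fin n → K, ∑ i, c i • a i ∈ RepD D → c = 0) ?_ ?_ h
  · exact ⟨0, Fin.elim0, by simp, fun i => i.elim0, fun c _ => Subsingleton.elim _ _⟩
  rintro E P hE ⟨n, a, h1, h2, h3⟩
  refine ⟨n + 1, Fin.cons (rr_e E P) a, by rw [dg_add, dg_single]; push_cast; omega,
    fun i => Fin.cases (rr_e_mem E P) (fun i => rr_RepD_mono (rr_le_add E P) (h2 i)) i,
    fun c hc => ?_⟩
  rw [Fin.sum_univ_succ] at hc
  simp only [Fin.cons_zero, Fin.cons_succ] at hc
  have h4 : c 0 = 0 := by
    by_contra h0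
    refine rr_e_not E P ((Submodule.smul_mem_iff _ h0).1 ?_)
    simpa using sub_mem (rr_RepD_mono hE hc)
      (Submodule.sum_mem _ fun i (_ : i ∈ Finset.univ) => Submodule.smul_mem _ (c i.succ) (h2 i))
  rw [h4, zero_smul, zero_add] at hc
  funext i
  exact Fin.cases h4 (fun i => congrFun (h3 _ hc) i) i

theorem rr_ge_sum {α : Type*} {P : Place K L} {n : ℤ} (s : Finset α) {f : α → L}
    (h : ∀ i ∈ s, P.Ge (f i) n) : P.Ge (∑ i ∈ s, f i) n :=
  Finset.sum_induction f (fun g => P.Ge g n) (fun _ _ => Place.Ge.add) (Or.inl rfl) h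

open scoped IntermediateField.algebraAdjoinAdjoin in
open Polynomial in
theorem rr_indep {y : L} (hy : Transcendental K y) :
    dg (dvInf K y⁻¹) ≤ Module.finrank (IntermediateField.adjoin K {y}) L := by
  have hy0 : y ≠ 0 := fun h => hy (h ▸ isAlgebraic_zero)
  have hB : ∀ P, dvInf K y⁻¹ P = max (P.ord y) 0 := fun P => by
    rw [dvInf_apply (inv_ne_zero hy0), P.ord_inv hy0, neg_neg]
  set B := dvInf K y⁻¹
  have hB0 : 0 ≤ B := le_sup_right
  obtain ⟨n, a, h1, h2, h3⟩ := rr_fam (neg_nonpos.2 hB0)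
  choose z hz using fun i => weak_approx B.support.finite_toSet (a i) B
  have hO : ∀ f, f ∈ regOut (B.support : Set (Place K L))ᶜ ↔ ∀ P ∈ B.support, P.Ge f 0 :=
    fun f => forall_congr' fun P => by rw [← P.mem_iff, Set.mem_compl_iff, not_not]; rfl
  have hyB : ∀ P ∈ B.support, P.Ge y (B P) := fun P hP => by
    have := Finsupp.mem_support_iff.1 hP
    rw [hB] at this ⊢
    exact Or.inr (by omega)
  have hzO : ∀ i, z i ∈ regOut (B.support : Set (Place K L))ᶜ := fun i => (hO _).2 fun P hP => by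
    simpa using ((hz i P hP).mono (hB0 P)).add (h2 i P)
  have h4 : ∀ c : Fin n → K, (∀ P ∈ B.support, P.Ge (∑ i, c i • z i) (B P)) → c = 0 :=
    fun c hc => h3 c fun P => by
      rw [Finsupp.neg_apply, neg_neg, Finset.sum_apply]
      by_cases hP : P ∈ B.support
      · convert (hc P hP).sub (rr_ge_sum Finset.univ fun i _ => (hz i P hP).smul (c i)) using 1
        simp [smul_sub]
      · rw [Finsupp.notMem_support_iff.1 hP]
        exact rr_ge_sum _ fun i _ => by simpa using (h2 i P).smul (c i)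
  have h5 : ∀ φ : Fin n → K[X], ∑ i, aeval y (φ i) * z i = 0 →
      (∀ i, (φ i).coeff 0 = 0) ∧ ∑ i, aeval y (φ i).divX * z i = 0 := fun φ h => by
    have e : ∑ i, (φ i).coeff 0 • z i = -(y * ∑ i, aeval y (φ i).divX * z i) := by
      rw [eq_neg_iff_add_eq_zero, Finset.mul_sum, ← Finset.sum_add_distrib, ← h]
      refine Finset.sum_congr rfl fun i _ => ?_
      conv_rhs => rw [← X_mul_divX_add (φ i)]
      rw [map_add, map_mul, aeval_X, aeval_C, Algebra.smul_def]
      ring
    have hm : ∑ i, aeval y (φ i).divX * z i ∈ regOut (B.support : Set (Place K L))ᶜ :=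
      sum_mem fun i _ => mul_mem (Algebra.adjoin_le (Set.singleton_subset_iff.2
        ((hO _).2 fun P hP => (hyB P hP).mono (hB0 P))) (aeval_mem_adjoin_singleton K y)) (hzO i)
    have h6 := h4 _ fun P hP => by
      rw [e]
      simpa using ((hyB P hP).mul ((hO _).1 hm P hP)).neg
    refine ⟨congrFun h6, ?_⟩
    simpa [congrFun h6, hy0] using e
  have h7 : ∀ (k : ℕ) (φ : Fin n → K[X]), ∑ i, aeval y (φ i) * z i = 0 →
      ∀ i, (φ i).coeff k = 0 := fun k => by
    induction k with
    | zero => exact fun φ h => (h5 φ h).1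
    | succ k ih => exact fun φ h i => coeff_divX.symm.trans (ih _ (h5 φ h).2 i)
  have h8 : LinearIndependent (Algebra.adjoin K {y}) z := by
    refine Fintype.linearIndependent_iff.2 fun g hg i => ?_
    choose φ hφ using fun i => (Algebra.adjoin_singleton_eq_range_aeval K y).le (g i).2
    have : φ i = 0 := Polynomial.ext fun k => h7 k φ (by
      rw [← hg]
      exact Finset.sum_congr rfl fun i _ => congrArg (· * z i) (hφ i)) i
    exact Subtype.ext ((hφ i).symm.trans (by rw [this]; exact map_zero _))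
  have := finiteDimensional_of_transcendental hy
  have h9 := ((LinearIndependent.iff_fractionRing _
    (IntermediateField.adjoin K {y})).1 h8).fintype_card_le_finrank
  rw [Fintype.card_fin] at h9
  rw [dg_neg, rr_dg_zero] at h1
  omega

theorem rr_mem_inf (f : L) : f ∈ Lsp (dvInf K f) := fun P => by
  by_cases hf : f = 0
  · exact Or.inl hf
  · rw [dvInf_apply hf]
    exact Or.inr (by omega)

open Polynomial in
theorem rr_low {x : L} (hx : Transcendental K x) : ∃ C : Dv K L, 0 ≤ C ∧ ∀ n : ℕ,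
    (n + 1) * Module.finrank (IntermediateField.adjoin K {x}) L ≤ ell ((n : ℤ) • dvInf K x + C) := by
  have := finiteDimensional_of_transcendental hx
  let u := Module.finBasis (IntermediateField.adjoin K {x}) L
  have h0 : ∀ f : L, 0 ≤ dvInf K f := fun _ => le_sup_right
  refine ⟨∑ j, dvInf K (u j), Finset.sum_nonneg fun j _ => h0 _, fun n => ?_⟩
  have h1 : LinearIndependent K fun i : ℕ => x ^ i := by
    have := (basisMonomials K).linearIndependent.map' (aeval x).toLinearMap
      (LinearMap.ker_eq_bot.2 (transcendental_iff_injective.1 hx))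
    rwa [show ⇑(aeval x).toLinearMap ∘ ⇑(basisMonomials K) = fun i : ℕ => x ^ i from
      funext fun i => by simp] at this
  have h2 : LinearIndependent K fun i : Fin (n + 1) =>
      IntermediateField.AdjoinSimple.gen K x ^ (i : ℕ) :=
    LinearIndependent.of_comp (IntermediateField.adjoin K {x}).val.toLinearMap
      (h1.comp _ Fin.val_injective)
  have h3 := linearIndependent_smul h2 u.linearIndependent
  have h4 : ∀ p : Fin (n + 1) × Fin _, IntermediateField.AdjoinSimple.gen K x ^ (p.1 : ℕ) • u p.2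
      ∈ Lsp ((n : ℤ) • dvInf K x + ∑ j, dvInf K (u j)) := fun p P => by
    refine (((rr_mem_inf x P).pow p.1).mul (rr_mem_inf (u p.2) P)).mono ?_
    have a1 : dvInf K (u p.2) P ≤ (∑ j, dvInf K (u j)) P :=
      Finset.single_le_sum (f := fun j => dvInf K (u j)) (fun j _ => h0 _) (Finset.mem_univ _) P
    have a2 : ((p.1 : ℕ) : ℤ) * dvInf K x P ≤ n * dvInf K x P :=
      mul_le_mul_of_nonneg_right (by have := p.1.2; omega) (h0 x P)
    rw [Finsupp.add_apply, Finsupp.smul_apply, smul_eq_mul]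
    linarith
  have h5 := (LinearIndependent.of_comp (v := fun p => (⟨_, h4 p⟩ : Lsp ((n : ℤ) • dvInf K x +
    ∑ j, dvInf K (u j)))) (Lsp ((n : ℤ) • dvInf K x + ∑ j, dvInf K (u j))).subtype
    (by exact h3)).fintype_card_le_finrank
  rwa [Fintype.card_prod, Fintype.card_fin, Fintype.card_fin] at h5

theorem rr_adjoin_inv (x : L) :
    IntermediateField.adjoin K {x⁻¹} = IntermediateField.adjoin K {x} :=
  le_antisymm (IntermediateField.adjoin_simple_le_iff.2
      (inv_mem (IntermediateField.mem_adjoin_simple_self K x)))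
    (IntermediateField.adjoin_simple_le_iff.2
      (inv_mem_iff.1 (IntermediateField.mem_adjoin_simple_self K x⁻¹)))

theorem rr_tr_inv {x : L} (hx : Transcendental K x) : Transcendental K x⁻¹ :=
  fun h => hx (IsAlgebraic.inv_iff.1 h)

theorem dg_dvInf {x : L} (hx : Transcendental K x) :
    dg (dvInf K x) = Module.finrank (IntermediateField.adjoin K {x}) L := by
  have h1 := rr_indep (rr_tr_inv hx)
  rw [inv_inv, rr_adjoin_inv] at h1
  refine le_antisymm h1 (not_lt.1 fun h => ?_)
  obtain ⟨C, hC, h2⟩ := rr_low hx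
  have h3 := h2 (dg C + 2).toNat
  have h4 := rr_s_mono (D := 0) (E := ((dg C + 2).toNat : ℤ) • dvInf K x + C)
    (add_nonneg (smul_nonneg (Int.natCast_nonneg _) le_sup_right) hC)
  rw [rr_dg_zero, ell_zero, dg_add, dg_smul] at h4
  have h5 : dg C + 2 ≤ (dg C + 2).toNat := Int.self_le_toNat _
  zify at h3
  generalize ((dg C + 2).toNat : ℤ) = n at *
  have h6 : 0 ≤ dg C := rr_dg_zero.ge.trans (dg_mono hC)
  have h7 := mul_le_mul_of_nonneg_left (Int.add_one_le_iff.2 h) (by omega : 0 ≤ n)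
  have h8 := Int.natCast_nonneg (Module.finrank (IntermediateField.adjoin K {x}) L)
  push_cast at h4
  linarith

theorem dg_dv (f : L) : dg (dv K f) = 0 := by
  by_cases hf : f = 0
  · rw [dv, dif_neg (not_not.2 hf), rr_dg_zero]
  by_cases ht : Transcendental K f
  · have : dv K f = dvInf K f⁻¹ - dvInf K f := by
      ext P
      rw [Finsupp.sub_apply, dvInf_apply hf, dvInf_apply (inv_ne_zero hf), dv_apply hf,
        P.ord_inv hf]
      omega
    rw [this, dg_sub, dg_dvInf ht, dg_dvInf (rr_tr_inv ht), rr_adjoin_inv, sub_self]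
  · obtain ⟨c, rfl⟩ := not_not.1 (mt transcendental_iff.2 ht)
    have : dv K (algebraMap K L c) = 0 := by
      ext P
      rw [dv_apply hf, P.ord_const fun h => hf (by rw [h, map_zero]), Finsupp.zero_apply]
    rw [this, rr_dg_zero]

theorem rr_le_of_mem {D : Dv K L} {f : L} (hf : f ≠ 0) (h : f ∈ Lsp D) : 0 ≤ D + dv K f :=
  fun P => by
    have := (h P).resolve_left hf
    rw [Finsupp.add_apply, dv_apply hf, Finsupp.zero_apply]
    omega

theorem Lsp_eq_bot {D : Dv K L} (h : dg D < 0) : Lsp D = ⊥ := by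
  refine (Submodule.eq_bot_iff _).2 fun f hf => by_contra fun h0 => ?_
  have := dg_mono (rr_le_of_mem h0 hf)
  rw [rr_dg_zero, dg_add, dg_dv] at this
  omega

theorem rr_exists {D : Dv K L} (h : ell D ≠ 0) : ∃ f ∈ Lsp D, f ≠ 0 :=
  Submodule.exists_mem_ne_zero_of_ne_bot fun h0 => h (by rw [ell, h0, finrank_bot])

theorem rr_ge_div {P : Place K L} {f g : L} {n : ℤ} (hf : f ≠ 0) (h : P.Ge g n) :
    P.Ge (g * f⁻¹) (n - P.ord f) :=
  h.mul (Or.inr (P.ord_inv hf).ge)

theorem rr_ell_shift (D : Dv K L) {f : L} (hf : f ≠ 0) : ell D ≤ ell (D + dv K f) := by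
  refine LinearMap.finrank_le_finrank_of_injective
    (f := (LinearMap.mulRight K f⁻¹).restrict (p := Lsp D) (q := Lsp (D + dv K f))
      fun g hg P => ?_) fun a b h => ?_
  · rw [Finsupp.add_apply, dv_apply hf, neg_add, ← sub_eq_add_neg]
    exact rr_ge_div hf (hg P)
  · exact Subtype.ext (mul_right_cancel₀ (inv_ne_zero hf) (congrArg Subtype.val h))

theorem rr_bdd : ∃ γ : ℤ, ∀ D : Dv K L, dg D - ell D ≤ γ := by
  obtain ⟨x, hx, _⟩ := hL.out
  obtain ⟨C, hC, h1⟩ := rr_low hx
  have hd := dg_dvInf hx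
  have hd1 : 0 < Module.finrank (IntermediateField.adjoin K {x}) L := Module.finrank_pos
  have h2 : ∀ n : ℕ, dg ((n : ℤ) • dvInf K x) - ell ((n : ℤ) • dvInf K x) ≤ dg C := fun n => by
    have a1 := rr_s_mono (le_add_of_nonneg_right hC : (n : ℤ) • dvInf K x ≤ _)
    have a2 := h1 n
    rw [dg_add, dg_smul, hd] at a1
    rw [dg_smul, hd]
    zify at a2
    nlinarith
  refine ⟨dg C, fun D => (rr_s_mono (le_sup_left : D ≤ D ⊔ 0)).trans ?_⟩
  obtain ⟨n, hn⟩ : ∃ n : ℕ, dg (D ⊔ 0) + dg C < n := ⟨(dg (D ⊔ 0) + dg C).toNat + 1, by omega⟩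
  have h3 := (rr_s_mono (sub_le_self ((n : ℤ) • dvInf K x)
    (le_sup_right : 0 ≤ D ⊔ 0))).trans (h2 n)
  rw [dg_sub, dg_smul, hd] at h3
  obtain ⟨f, hf, hf0⟩ := rr_exists (D := (n : ℤ) • dvInf K x - D ⊔ 0) fun h => by
    have : (n : ℤ) ≤ n * Module.finrank (IntermediateField.adjoin K {x}) L := by
      exact_mod_cast Nat.le_mul_of_pos_right n hd1
    rw [h] at h3
    omega
  have h4 := rr_s_mono (D := D ⊔ 0) (E := (n : ℤ) • dvInf K x + dv K f) (by
    have := rr_le_of_mem hf0 hf
    rwa [sub_add_eq_add_sub, sub_nonneg] at this)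
  have h5 := rr_ell_shift ((n : ℤ) • dvInf K x) hf0
  have h6 := h2 n
  rw [dg_add, dg_dv] at h4
  omega

theorem rr_H1z {D : Dv K L} : H1z D ↔ Rep K L ≤ RepD D ⊔ RepL K L :=
  forall₂_congr fun _ _ => rr_mem_W.symm

theorem H1z.mono {D E : Dv K L} (h : H1z D) (hE : D ≤ E) : H1z E :=
  rr_H1z.2 ((rr_H1z.1 h).trans (sup_le_sup_right (rr_RepD_mono hE) _))

theorem rr_exists_H1z : ∃ D : Dv K L, H1z D := by
  classical
  obtain ⟨_, ⟨D, rfl⟩, h⟩ := Int.exists_greatest_of_bdd
    (P := fun z => ∃ D : Dv K L, dg D - ell D = z)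
    (rr_bdd.imp fun γ h z ⟨D, hD⟩ => hD ▸ h D) ⟨_, 0, rfl⟩
  have h1 : ∀ E, D ≤ E → RepD E ⊔ RepL K L = RepD D ⊔ RepL K L := fun E hE => by
    refine rr_ind (p := fun E => RepD E ⊔ RepL K L = RepD D ⊔ RepL K L) rfl
      (fun E P hE h2 => ?_) hE
    rcases rr_ell_step E P with ⟨-, -, h3⟩ | ⟨h3, -⟩
    · exact h3.trans h2
    · have a1 := h _ ⟨E + Finsupp.single P 1, rfl⟩
      have a2 := rr_s_mono hE
      rw [dg_add, dg_single, show ell (E + Finsupp.single P 1) = ell E by rw [ell, h3, ell]] at a1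
      omega
  refine ⟨D, rr_H1z.2 fun a ha => ?_⟩
  have h2 : (Function.support fun P : Place K L => if a P ∈ P.1 then 0 else -P.ord (a P)).Finite :=
    Set.Finite.subset ha fun P hP h => hP (if_pos h)
  rw [← h1 (D ⊔ Finsupp.ofSupportFinite _ h2) le_sup_left]
  refine Submodule.mem_sup_left (rr_RepD_mono le_sup_right fun P => ?_)
  rw [Finsupp.ofSupportFinite_coe]
  by_cases hP : a P ∈ P.1
  · simpa [hP] using P.mem_iff.1 hP
  · exact Or.inr (by simp [hP])

theorem rr_quot {V : Type u} [AddCommGroup V] [Module K V] {W : Submodule K V} {e : V}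
    (_ : FiniteDimensional K (V ⧸ (W ⊔ K ∙ e))) : FiniteDimensional K (V ⧸ W) ∧
      (e ∉ W → Module.finrank K (V ⧸ W) = Module.finrank K (V ⧸ (W ⊔ K ∙ e)) + 1) := by
  have q := Submodule.quotientQuotientEquivQuotientSup W (K ∙ e)
  have h1 := q.symm.finiteDimensional
  have h2 : FiniteDimensional K (V ⧸ W) := .of_submodule_quotient ((K ∙ e).map W.mkQ)
  refine ⟨h2, fun he => ?_⟩
  rw [← q.finrank_eq, ← ((K ∙ e).map W.mkQ).finrank_quotient_add_finrank, Submodule.map_span,
    Set.image_singleton, 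
    finrank_span_singleton (v := W.mkQ e) (mt (Submodule.Quotient.mk_eq_zero W).1 he)]

theorem rr_sub_step (D : Dv K L) (P : Place K L) :
    (RepD (D + Finsupp.single P 1) ⊔ RepL K L).submoduleOf (Rep K L) =
      (RepD D ⊔ RepL K L).submoduleOf (Rep K L) ⊔
        K ∙ ⟨rr_e D P, rr_W_le _ (Submodule.mem_sup_left (rr_e_mem D P))⟩ := by
  refine Submodule.map_injective_of_injective (Rep K L).injective_subtype ?_
  rw [Submodule.map_sup, Submodule.submoduleOf, Submodule.submoduleOf, Submodule.map_comap_subtype,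
    Submodule.map_comap_subtype, inf_eq_right.2 (rr_W_le _), inf_eq_right.2 (rr_W_le _),
    Submodule.map_span, Set.image_singleton]
  exact (congrArg (· ⊔ RepL K L) (rr_RepD_step D P)).trans (sup_right_comm _ _ _)

theorem rr_top {D : Dv K L} : H1z D ↔ (RepD D ⊔ RepL K L).submoduleOf (Rep K L) = ⊤ :=
  rr_H1z.trans Submodule.comap_subtype_eq_top.symm

instance finite_h1 (D : Dv K L) :
    FiniteDimensional K (Rep K L ⧸ (RepD D ⊔ RepL K L).submoduleOf (Rep K L)) := by
  obtain ⟨E, hE⟩ := rr_exists_H1z (K := K) (L := L)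
  refine rr_ind (p := fun E =>
    FiniteDimensional K (Rep K L ⧸ (RepD E ⊔ RepL K L).submoduleOf (Rep K L)) →
      FiniteDimensional K (Rep K L ⧸ (RepD D ⊔ RepL K L).submoduleOf (Rep K L))) (D := D) id
    (fun E P _ ih h => ih ?_) (le_sup_left : D ≤ D ⊔ E) ?_
  · rw [rr_sub_step] at h
    exact (rr_quot h).1
  · rw [rr_top.1 (hE.mono le_sup_right)]
    infer_instance

theorem rr_h1_step (D : Dv K L) (P : Place K L) :
    (ell (D + Finsupp.single P 1) = ell D + 1 ∧ h1 (D + Finsupp.single P 1) = h1 D) ∨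
    (Lsp (D + Finsupp.single P 1) = Lsp D ∧ h1 D = h1 (D + Finsupp.single P 1) + 1) := by
  refine (rr_ell_step D P).imp (fun ⟨a, _, b⟩ => ⟨a, by rw [h1, b, h1]⟩) fun ⟨a, b⟩ => ⟨a, ?_⟩
  have := finite_h1 (D + Finsupp.single P 1)
  rw [h1, h1]
  rw [rr_sub_step] at this ⊢
  exact (rr_quot this).2 b

theorem riemann (D : Dv K L) : (ell D : ℤ) - h1 D = dg D + 1 - genus K L := by
  have key : ∀ D E : Dv K L, D ≤ E → (ell E : ℤ) - h1 E - dg E = ell D - h1 D - dg D :=
    fun D E h => rr_ind (p := fun E => (ell E : ℤ) - h1 E - dg E = ell D - h1 D - dg D) rfl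
      (fun E P _ ih => by
        rw [dg_add, dg_single]
        rcases rr_h1_step E P with ⟨a, b⟩ | ⟨a, b⟩
        · omega
        · rw [show ell (E + Finsupp.single P 1) = ell E by rw [ell, a, ell]]
          omega) h
  have a := key D _ (le_sup_left : D ≤ D ⊔ 0)
  have b := key 0 _ (le_sup_right : 0 ≤ D ⊔ 0)
  rw [ell_zero, h1_zero, rr_dg_zero] at b
  omega

theorem h1z_iff (D : Dv K L) : H1z D ↔ h1 D = 0 := by
  rw [rr_top, h1, Module.finrank_zero_iff, Submodule.Quotient.subsingleton_iff]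

theorem H1z.shift {D : Dv K L} (h : H1z D) {f : L} (hf : f ≠ 0) : H1z (D + dv K f) := by
  intro a ha
  obtain ⟨g, hg⟩ := h (fun P => a P * f) ((Set.Finite.union ha (finite_poles f)).subset
    fun P hP => by
      by_contra h'
      rw [Set.mem_union, not_or] at h'
      exact hP (mul_mem (not_not.1 h'.1) (not_not.1 h'.2)))
  refine ⟨g * f⁻¹, fun P => ?_⟩
  have := rr_ge_div hf (hg P)
  rwa [sub_mul, mul_inv_cancel_right₀ hf, sub_eq_add_neg (-D P), ← neg_add, ← dv_apply hf,
    ← Finsupp.add_apply] at this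

theorem rr_h1_eq {D : Dv K L} {P : Place K L} {f : L} (h : f ∈ Lsp (D + Finsupp.single P 1))
    (h' : f ∉ Lsp D) : h1 (D + Finsupp.single P 1) = h1 D :=
  (rr_h1_step D P).elim (·.2) fun a => absurd (a.1 ▸ h) h'

theorem rr_nonspecial : ∃ E : Dv K L, H1z E ∧ ell E = 0 := by
  have key : ∀ n, ∀ E : Dv K L, H1z E → ell E = n → ∃ E : Dv K L, H1z E ∧ ell E = 0 := fun n => by
    induction n with
    | zero => exact fun E a b => ⟨E, a, b⟩
    | succ n ih =>
      intro E a b
      obtain ⟨f, hf, hf0⟩ := rr_exists (D := E) (by omega)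
      have := infinite_place (K := K) (L := L)
      obtain ⟨P, hP⟩ := Infinite.exists_notMem_finset (E + dv K f).support
      have h2 : h1 (E - Finsupp.single P 1 + Finsupp.single P 1) = h1 (E - Finsupp.single P 1) :=
        rr_h1_eq (f := f) (by rwa [sub_add_cancel]) fun h => by
          have a1 := (h P).resolve_left hf0
          have a2 := Finsupp.notMem_support_iff.1 hP
          rw [Finsupp.add_apply, dv_apply hf0] at a2
          rw [Finsupp.sub_apply, Finsupp.single_eq_same] at a1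
          omega
      rw [sub_add_cancel] at h2
      have a1 := riemann E
      have a2 := riemann (E - Finsupp.single P 1)
      rw [dg_sub, dg_single] at a2
      exact ih (E - Finsupp.single P 1) ((h1z_iff _).2 (h2 ▸ (h1z_iff _).1 a)) (by omega)
  obtain ⟨E, hE⟩ := rr_exists_H1z (K := K) (L := L)
  exact key _ E hE rfl

theorem h1z_of_deg {D : Dv K L} (h : 2 * (genus K L : ℤ) ≤ dg D) : H1z D := by
  obtain ⟨E, hE, h0⟩ := rr_nonspecial (K := K) (L := L)
  have a1 := riemann E
  have a2 := riemann (D - E)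
  rw [h0, (h1z_iff _).1 hE] at a1
  rw [dg_sub] at a2
  obtain ⟨f, hf, hf0⟩ := rr_exists (D := D - E) (by omega)
  refine (hE.shift (inv_ne_zero hf0)).mono fun P => ?_
  have := (hf P).resolve_left hf0
  rw [Finsupp.sub_apply] at this
  rw [Finsupp.add_apply, dv_apply (inv_ne_zero hf0), P.ord_inv hf0]
  omega

theorem ell_single (hg : genus K L ≠ 0) (P : Place K L) : ell (Finsupp.single P 1) = 1 := by
  rcases rr_step 0 P with ⟨f, h0, h2, -⟩ | ⟨h2, -⟩
  · exfalso
    have hf0 : f ≠ 0 := fun h => h0 (h ▸ zero_mem _)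
    have hf : f ∈ Lsp (0 + Finsupp.single P 1) :=
      h2 ▸ Submodule.mem_sup_right (Submodule.mem_span_singleton_self _)
    rw [zero_add] at hf
    have h3 : P.ord f = -1 := by
      by_contra h
      refine h0 fun Q => Or.inr ?_
      have := (hf Q).resolve_left hf0
      by_cases hQ : Q = P
      · subst hQ
        rw [Finsupp.single_eq_same] at this
        rw [Finsupp.zero_apply]
        omega
      · rwa [Finsupp.single_eq_of_ne hQ] at this
    have h4 : ∀ n : ℕ, h1 (Finsupp.single P (n : ℤ)) = genus K L := fun n => by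
      induction n with
      | zero => rw [Nat.cast_zero, Finsupp.single_zero, h1_zero]
      | succ n ih =>
        rw [Nat.cast_succ, Finsupp.single_add, ← ih]
        refine rr_h1_eq (f := f ^ (n + 1)) (fun Q => ((hf Q).pow _).mono (le_of_eq ?_)) fun h => ?_
        · by_cases hQ : Q = P
          · subst hQ; simp
          · simp [Finsupp.single_eq_of_ne hQ]
        · have := (h P).resolve_left (pow_ne_zero _ hf0)
          rw [P.ord_pow hf0, h3, Finsupp.single_eq_same] at this
          push_cast at this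
          omega
    exact hg ((h4 (2 * genus K L)).symm.trans
      ((h1z_iff _).1 (h1z_of_deg (by rw [dg_single]; push_cast; rfl))))
  · rw [zero_add] at h2
    rw [ell, h2, ← ell, ell_zero]

/-- prescribing the polar part and values -/
theorem exists_ord_eq {D : Dv K L} (S : Finset (Place K L))
    (h : H1z (D - ∑ P ∈ S, Finsupp.single P 1)) : ∃ f ∈ Lsp D, ∀ P ∈ S, f ≠ 0 ∧ P.ord f = -D P := by
  classical
  obtain ⟨f, hf⟩ := h ((S : Set (Place K L)).indicator fun P => P.unif ^ (-D P))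
    (S.finite_toSet.subset fun P hP => by
      by_contra h'
      exact hP (by rw [Set.indicator_of_notMem h']; exact zero_mem _))
  have h1 : ∀ P, (D - ∑ P ∈ S, Finsupp.single P (1 : ℤ)) P = D P - if P ∈ S then 1 else 0 :=
    fun P => by simp [Finsupp.single_apply]
  have h2 : ∀ P ∈ S, f ≠ 0 ∧ P.ord f = -D P := fun P hP => by
    have := hf P
    rw [h1, if_pos hP, Set.indicator_of_mem (Finset.mem_coe.2 hP)] at this
    have := Place.ord_add_of_lt (zpow_ne_zero (-D P) P.unif_ne_zero)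
      (this.mono (by rw [rr_ge_unif]; omega))
    rwa [add_sub_cancel, rr_ge_unif] at this
  refine ⟨f, fun P => ?_, h2⟩
  by_cases hP : P ∈ S
  · exact Or.inr (h2 P hP).2.ge
  · have := hf P
    rwa [h1, if_neg hP, Set.indicator_of_notMem (mt Finset.mem_coe.1 hP), sub_zero,
      sub_zero] at this

theorem rr_mem_W0 {a : Place K L → L} :
    a ∈ Rep0 K L ⊔ RepL K L ↔ ∃ f : L, ∀ P : Place K L, f - a P ∈ P.1 := by
  rw [← RepD_zero, rr_mem_W]
  simp only [Finsupp.zero_apply, neg_zero, Place.mem_iff]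

/-- `H¹` computed with a finite set of places: every repartition is equivalent to one given by a
function on `S` and zero elsewhere. -/
theorem rep_eq {S : Set (Place K L)} (hS : S.Finite) (hne : S.Nonempty) {a : Place K L → L}
    (ha : a ∈ Rep K L) : ∃ f : L, a - S.indicator (fun _ => f) ∈ Rep0 K L ⊔ RepL K L := by
  obtain ⟨Q, hQ⟩ := hne
  obtain ⟨g, hg⟩ := h1z_of_deg (D := Finsupp.single Q (2 * (genus K L : ℤ)))
    (dg_single _ _).ge a ha
  obtain ⟨f, hf⟩ := weak_approx hS (fun P => a P - g) fun _ => 0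
  refine ⟨f, rr_mem_W0.2 ⟨g, fun P => P.mem_iff.2 ?_⟩⟩
  by_cases hP : P ∈ S
  · rw [Pi.sub_apply, Set.indicator_of_mem hP]
    convert hf P hP using 1
    ring
  · have := hg P
    rw [Finsupp.single_eq_of_ne (fun h : P = Q => hP (h ▸ hQ)), neg_zero] at this
    rwa [Pi.sub_apply, Set.indicator_of_notMem hP, sub_zero]

theorem indicator_mem_iff {S : Set (Place K L)} (f : L) :
    S.indicator (fun _ => f) ∈ Rep0 K L ⊔ RepL K L ↔ ∃ a ∈ regOut S, f - a ∈ regOut Sᶜ := by
  rw [rr_mem_W0]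
  refine exists_congr fun g => ⟨fun h => ⟨fun P hP => ?_, fun P hP => ?_⟩, fun h P => ?_⟩
  · simpa [Set.indicator_of_notMem hP] using h P
  · have := neg_mem (h P)
    rwa [Set.indicator_of_mem (not_not.1 hP), neg_sub] at this
  · by_cases hP : P ∈ S
    · rw [Set.indicator_of_mem hP, ← neg_sub]
      exact neg_mem (h.2 P (not_not.2 hP))
    · rw [Set.indicator_of_notMem hP, sub_zero]
      exact h.1 P hP

theorem rr_ind_mem {S : Set (Place K L)} (hS : S.Finite) (f : L) :
    S.indicator (fun _ => f) ∈ Rep K L :=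
  hS.subset fun P hP => by
    by_contra h'
    exact hP (by rw [Set.indicator_of_notMem h']; exact zero_mem _)

theorem rr_ind_pow (S : Set (Place K L)) (f : L) {q : ℕ} (hq : q ≠ 0) :
    S.indicator (fun _ => f) ^ q = S.indicator fun _ => f ^ q := by
  funext P
  by_cases hP : P ∈ S <;> simp [hP, hq]

theorem hw0_iff (p : ℕ) [Fact p.Prime] [CharP K p] {S : Set (Place K L)} (hS : S.Finite)
    (hne : S.Nonempty) :
    HW0 K L p ↔ ∀ f : L, ∃ n : ℕ, ∃ a ∈ regOut S, f ^ p ^ n - a ∈ regOut Sᶜ := by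
  have hp : ∀ n, p ^ n ≠ 0 := fun n => pow_ne_zero n (Fact.out : p.Prime).ne_zero
  have := charP_of_injective_algebraMap (algebraMap K L).injective p
  refine ⟨fun h f => (h _ (rr_ind_mem hS f)).imp fun n hn => ?_, fun h a ha => ?_⟩
  · rwa [rr_ind_pow S f (hp n), indicator_mem_iff] at hn
  · obtain ⟨f, hf⟩ := rep_eq hS hne ha
    obtain ⟨n, hn⟩ := h f
    rw [← indicator_mem_iff, ← rr_ind_pow S f (hp n)] at hn
    obtain ⟨g, hg⟩ := rr_mem_W0.1 hf
    refine ⟨n, ?_⟩
    rw [← sub_add_cancel (a ^ p ^ n) (S.indicator (fun _ => f) ^ p ^ n)]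
    refine add_mem (rr_mem_W0.2 ⟨g ^ p ^ n, fun P => ?_⟩) hn
    simpa only [Pi.sub_apply, Pi.pow_apply, sub_pow_char_pow] using pow_mem (hg P) (p ^ n)

theorem rr_mem_sup {S : Set (Place K L)} {f : L} :
    f ∈ (regOut S).toSubmodule ⊔ (regOut Sᶜ).toSubmodule ↔ ∃ a ∈ regOut S, f - a ∈ regOut Sᶜ := by
  rw [Submodule.mem_sup]
  exact exists_congr fun a => and_congr Iff.rfl
    ⟨fun ⟨b, hb, e⟩ => by rwa [← e, add_sub_cancel_left], fun h => ⟨_, h, add_sub_cancel _ _⟩⟩

theorem rr_equiv {S : Set (Place K L)} (hS : S.Finite) (hne : S.Nonempty) :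
    Nonempty ((L ⧸ ((regOut S).toSubmodule ⊔ (regOut Sᶜ).toSubmodule)) ≃ₗ[K]
      (Rep K L ⧸ (Rep0 K L ⊔ RepL K L).submoduleOf (Rep K L))) := by
  let i : L →ₗ[K] Rep K L :=
    { toFun := fun f => ⟨S.indicator fun _ => f, rr_ind_mem hS f⟩
      map_add' := fun f g => Subtype.ext (funext fun P => by by_cases hP : P ∈ S <;> simp [hP])
      map_smul' := fun c f => Subtype.ext (funext fun P => by by_cases hP : P ∈ S <;> simp [hP]) }
  let j := ((Rep0 K L ⊔ RepL K L).submoduleOf (Rep K L)).mkQ ∘ₗ i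
  have h1 : Function.Surjective j := fun q => by
    obtain ⟨a, rfl⟩ := Submodule.Quotient.mk_surjective _ q
    obtain ⟨f, hf⟩ := rep_eq hS hne a.2
    exact ⟨f, ((Submodule.Quotient.eq ((Rep0 K L ⊔ RepL K L).submoduleOf (Rep K L))
      (x := a) (y := i f)).2 hf).symm⟩
  have h2 : (regOut S).toSubmodule ⊔ (regOut Sᶜ).toSubmodule = LinearMap.ker j := by
    ext f
    rw [rr_mem_sup, ← indicator_mem_iff]
    exact (Submodule.Quotient.mk_eq_zero ((Rep0 K L ⊔ RepL K L).submoduleOf (Rep K L))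
      (x := i f)).symm
  exact ⟨(Submodule.quotEquivOfEq _ _ h2).trans (j.quotKerEquivOfSurjective h1)⟩

theorem genus_eq {S : Set (Place K L)} (hS : S.Finite) (hne : S.Nonempty) :
    genus K L = Module.finrank K
      (L ⧸ ((regOut S).toSubmodule ⊔ (regOut Sᶜ).toSubmodule)) :=
  (rr_equiv hS hne).elim fun e => e.finrank_eq.symm

/-- a uniform exponent -/
theorem HW0.uniform {p : ℕ} [Fact p.Prime] [CharP K p] (h : HW0 K L p) {S : Set (Place K L)}
    (hS : S.Finite) (hne : S.Nonempty) :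
    ∃ n : ℕ, ∀ f : L, ∃ a ∈ regOut S, f ^ p ^ n - a ∈ regOut Sᶜ := by
  have := charP_of_injective_algebraMap (algebraMap K L).injective p
  have hp : ∀ n, p ^ n ≠ 0 := fun n => pow_ne_zero n (Fact.out : p.Prime).ne_zero
  simp only [← rr_mem_sup]
  have h1 := (hw0_iff p hS hne).1 h
  simp only [← rr_mem_sup] at h1
  have h2 : ∀ n, ∀ f ∈ (regOut S).toSubmodule ⊔ (regOut Sᶜ).toSubmodule,
      f ^ p ^ n ∈ (regOut S).toSubmodule ⊔ (regOut Sᶜ).toSubmodule := fun n f hf => by
    obtain ⟨a, ha, hb⟩ := rr_mem_sup.1 hf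
    exact rr_mem_sup.2 ⟨_, pow_mem ha (p ^ n), by rw [← sub_pow_char_pow]; exact pow_mem hb _⟩
  obtain ⟨e⟩ := rr_equiv hS hne
  have := finite_h1 (0 : Dv K L)
  rw [RepD_zero] at this
  have := e.symm.finiteDimensional
  generalize (regOut S).toSubmodule ⊔ (regOut Sᶜ).toSubmodule = W at *
  let N : ℕ → Submodule K L := fun n =>
    { carrier := {f | f ^ p ^ n ∈ W}
      add_mem' := fun {a b} ha hb => by
        rw [Set.mem_ofPred_eq, add_pow_char_pow]; exact add_mem ha hb
      zero_mem' := by rw [Set.mem_ofPred_eq, zero_pow (hp n)]; exact zero_mem _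
      smul_mem' := fun c a ha => by
        rw [Set.mem_ofPred_eq, smul_pow]; exact W.smul_mem _ ha }
  have h3 : Monotone N := monotone_nat_of_le_succ fun n f hf => by
    have := h2 1 _ hf
    rwa [← pow_mul, ← pow_add] at this
  obtain ⟨n, hn⟩ := monotone_stabilizes_iff_noetherian.2 (inferInstance : IsNoetherian K (L ⧸ W))
    ⟨fun n => (N n).map W.mkQ, fun _ _ h => Submodule.map_mono (h3 h)⟩
  refine ⟨n, fun f => ?_⟩
  obtain ⟨m, hm⟩ := h1 f
  have h4 : W.mkQ f ∈ (N n).map W.mkQ :=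
    (hn (max n m) (le_max_left _ _)).ge ⟨f, h3 (le_max_right _ _) hm, rfl⟩
  obtain ⟨g, hg, e⟩ := h4
  have h5 : g - f ∈ N n := h2 n _ ((Submodule.Quotient.eq W).1 e)
  have h6 : g - (g - f) ∈ N n := sub_mem hg h5
  rwa [sub_sub_cancel] at h6

end PR0
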