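import Pool.Agent.Work.MP_da2620_ag.Stmt

/-!
# The integral closure of `K[x]` in a function field is a finite Dedekind domain
-/

namespace PR0

open IntermediateField IsDedekindDomain HeightOneSpectrum
open scoped IntermediateField.algebraAdjoinAdjoin

universe u

variable {K L : Type u} [Field K] [Field L] [Algebra K L]

theorem FFA_fd (h : IsFF K L) {y : L} (hy : Transcendental K y) : FiniteDimensional K⟮y⟯ L := by
  obtain ⟨x, hx, hf⟩ := h
  have h1 : IsAlgebraic K⟮y⟯ x := isAlgebraic_adjoin_iff.2 (.adjoin_singleton hx hy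
    (isAlgebraic_adjoin_iff.1 (Algebra.IsAlgebraic.isAlgebraic y)))
  have := adjoin.finiteDimensional h1.isIntegral
  have h2 : K⟮x⟯ ≤ restrictScalars K K⟮y⟯⟮x⟯ :=
    adjoin_simple_le_iff.2 (mem_adjoin_simple_self K⟮y⟯ x)
  let _ : Algebra K⟮x⟯ K⟮y⟯⟮x⟯ := (inclusion h2).toAlgebra
  have : IsScalarTower K⟮x⟯ K⟮y⟯⟮x⟯ L := .of_algebraMap_eq fun _ => rfl
  have : FiniteDimensional K⟮y⟯⟮x⟯ L := .right K⟮x⟯ _ L
  exact .trans K⟮y⟯ K⟮y⟯⟮x⟯ L

theorem FFA_tr [IsAlgClosed K] {x : L} : Transcendental K x ↔ x ∉ Set.range (algebraMap K L) := by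
  refine not_congr ⟨fun h => ?_, fun ⟨c, h⟩ => h ▸ isAlgebraic_algebraMap c⟩
  exact minpoly.mem_range_of_degree_eq_one K x
    (IsAlgClosed.degree_eq_one_of_irreducible K (minpoly.irreducible h.isIntegral))

theorem FFA_fin {A B C : Type*} [CommRing A] [CommRing B] [CommRing C] [IsNoetherianRing A]
    (f : A →+* B) (ψ : B →+* C) (hψ : Function.Injective ψ) (h : (ψ.comp f).Finite) :
    f.Finite := by
  algebraize [f, ψ, ψ.comp f]
  exact Module.Finite.of_injective (IsScalarTower.toAlgHom A B C).toLinearMap hψ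

theorem FFA_frob (K : Type u) {A : Type u} [Field K] [CommRing A] [Algebra K A] [PerfectField K]
    [Algebra.FiniteType K A] (p : ℕ) [ExpChar K p] [ExpChar A p] (e : ℕ) :
    (iterateFrobenius A p e).Finite := by
  have h1 : (iterateFrobenius A p e).IsIntegral := fun a => ⟨_,
    Polynomial.monic_X_pow_sub_C a (expChar_pow_pos K p e).ne', by simp [iterateFrobenius_def]⟩
  have h2 := (RingHom.finiteType_algebraMap.2 ‹_›).comp
    (.of_surjective _ (bijective_iterateFrobenius K p e).2)
  rw [RingHom.iterateFrobenius_comm] at h2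
  exact h1.to_finite h2.of_comp_finiteType

theorem FFA_pid {x : L} (hx : Transcendental K x) : IsPrincipalIdealRing (Algebra.adjoin K {x}) :=
  .of_surjective _ (Polynomial.algEquivOfTranscendental K x hx).surjective

private theorem FFA_finite_aux {A F M : Type u} [CommRing A] [IsDomain A] [IsPrincipalIdealRing A]
    [Field F] [Field M] [Algebra K A] [Algebra A F] [Algebra F M] [Algebra A M] [Algebra M L]
    [Algebra A L] [IsScalarTower A F M] [IsScalarTower A M L] [IsFractionRing A F]
    [FiniteDimensional F M] [Algebra.IsSeparable F M] [FiniteDimensional M L]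
    [IsPurelyInseparable M L] [PerfectField K] [Algebra.FiniteType K A] (p : ℕ) [ExpChar K p]
    [ExpChar A p] [ExpChar M p] : Module.Finite A (integralClosure A L) := by
  have h1 := IsPurelyInseparable.algebraMap_iterateFrobenius M (L := L) p le_rfl
  set φ := IsPurelyInseparable.iterateFrobenius M L p le_rfl
  have h2 := IsIntegralClosure.finite A F M (integralClosure A M)
  refine RingHom.finite_algebraMap.1 (FFA_fin (C := integralClosure A M) _
    ((φ.comp (integralClosure A L).val.toRingHom).codRestrict _ fun b => ?_)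
    (fun a b hab => Subtype.ext (φ.injective (congrArg Subtype.val hab))) ?_)
  · refine (isIntegral_algebraMap_iff (algebraMap M L).injective).1 ?_
    exact (h1 b).symm ▸ b.2.pow _
  · convert (RingHom.finite_algebraMap.2 h2).comp
      (FFA_frob K p (IsPurelyInseparable.exponent M L)) using 1
    ext a
    refine (algebraMap M L).injective ((h1 _).trans ?_)
    exact (map_pow (algebraMap A L) a _).symm.trans (IsScalarTower.algebraMap_apply A M L _)

theorem FFA_finite [IsAlgClosed K] (h : IsFF K L) {x : L} (hx : Transcendental K x) :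
    Module.Finite (Algebra.adjoin K {x}) (integralClosure (Algebra.adjoin K {x}) L) := by
  have := FFA_fd h hx
  have := FFA_pid hx
  obtain ⟨p, _⟩ := ExpChar.exists K
  let A := Algebra.adjoin K {x}
  let M := separableClosure K⟮x⟯ L
  have := expChar_of_injective_algebraMap (algebraMap K A).injective p
  have := expChar_of_injective_algebraMap (algebraMap K M).injective p
  have : Algebra.FiniteType K A := .adjoin_of_finite (Set.finite_singleton x)
  have : IsScalarTower A M L := .of_algebraMap_eq fun _ => rfl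
  exact FFA_finite_aux (K := K) (F := K⟮x⟯) (M := M) p

/-- The integral closure of `K[x]`. -/
def FFA_B (K : Type u) [Field K] [Algebra K L] (x : L) : Subalgebra K L :=
  (integralClosure (Algebra.adjoin K {x}) L).restrictScalars K

theorem FFA_frac (h : IsFF K L) {x : L} (hx : Transcendental K x) :
    IsFractionRing (FFA_B K x) L :=
  have := FFA_fd h hx
  integralClosure.isFractionRing_of_finite_extension (A := Algebra.adjoin K {x}) K⟮x⟯ L

theorem FFA_ded [IsAlgClosed K] (h : IsFF K L) {x : L} (hx : Transcendental K x) :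
    IsDedekindDomain (FFA_B K x) := by
  have := FFA_fd h hx
  have := FFA_pid hx
  have := FFA_finite h hx
  have := IsNoetherianRing.of_finite (Algebra.adjoin K {x})
    (integralClosure (Algebra.adjoin K {x}) L)
  have := integralClosure.isIntegrallyClosedOfFiniteExtension (R := Algebra.adjoin K {x}) K⟮x⟯
    (L := L)
  change IsDedekindDomain (integralClosure (Algebra.adjoin K {x}) L)
  exact {}

theorem FFA_int (V : ValuationSubring L) {A : Type*} [CommRing A] [Algebra A L]
    (h : ∀ a, algebraMap A L a ∈ V) {f : L} (hf : IsIntegral A f) : f ∈ V := by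
  let _ : Algebra A V := ((algebraMap A L).codRestrict V.toSubring h).toAlgebra
  have : IsScalarTower A V L := .of_algebraMap_eq fun _ => rfl
  obtain ⟨y, hy⟩ := IsIntegrallyClosed.isIntegral_iff.1 (hf.tower_top (A := V))
  exact hy ▸ y.2

theorem FFA_adj (P : Place K L) {x : L} (hx : x ∈ P.1) : ∀ a ∈ Algebra.adjoin K {x}, a ∈ P.1 :=
  Algebra.adjoin_le (S := ⟨P.1.toSubring.toSubsemiring, P.2.2⟩) (Set.singleton_subset_iff.2 hx)

theorem FFA_le (P : Place K L) {x : L} (hx : x ∈ P.1) : ∀ b ∈ FFA_B K x, b ∈ P.1 :=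
  fun _ => FFA_int P.1 fun a => FFA_adj P hx _ a.2

theorem FFA_self (x : L) : x ∈ FFA_B K x :=
  isIntegral_algebraMap (x := (⟨x, Algebra.self_mem_adjoin_singleton K x⟩ : Algebra.adjoin K {x}))

instance FFA_triv (P : Place K L) : P.1.valuation.IsTrivialOn K where
  eq_one a ha := (P.1.valuation_eq_one_iff ⟨_, P.2.2 a⟩).1
    (.of_mul_eq_one ⟨_, P.2.2 a⁻¹⟩ (Subtype.ext (by simp [ha])))

section
variable {B : Type u} [CommRing B] [IsDedekindDomain B] [Algebra B L] [IsFractionRing B L]

theorem FFA_equiv (v : HeightOneSpectrum B) :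
    (v.valuation L).IsEquiv (valuationSubringAtPrime L v).valuation := by
  rw [valuationSubringAtPrime_eq_valuationSubring]
  exact Valuation.isEquiv_valuation_valuationSubring _

theorem FFA_mem (v : HeightOneSpectrum B) (b : B) :
    (valuationSubringAtPrime L v).valuation (algebraMap B L b) < 1 ↔ b ∈ v.asIdeal :=
  (FFA_equiv v).lt_one_iff_lt_one.symm.trans (v.valuation_lt_one_iff_mem b)

theorem FFA_ne_top (v : HeightOneSpectrum B) : valuationSubringAtPrime L v ≠ ⊤ := fun h => by
  rw [valuationSubringAtPrime_eq_valuationSubring, Valuation.valuationSubring_eq_top_iff] at h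
  exact h inferInstance

theorem FFA_loc (V : ValuationSubring L) (hV : V ≠ ⊤) (h : ∀ b, algebraMap B L b ∈ V) :
    ∃ v : HeightOneSpectrum B, valuationSubringAtPrime L v = V := by
  let I := (IsLocalRing.maximalIdeal V).comap ((algebraMap B L).codRestrict V.toSubring h)
  have hI : ∀ a s, s ∉ I → algebraMap B L a * (algebraMap B L s)⁻¹ ∈ V := fun a s hs => by
    refine mul_mem (h a) ((V.valuation_le_one_iff _).1 ?_)
    rw [map_inv₀, (V.valuation_eq_one_iff ⟨_, h s⟩).1 (IsLocalRing.notMem_maximalIdeal.1 hs),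
      inv_one]
  refine ⟨⟨I, Ideal.comap_isPrime _ _, fun h0 => hV (eq_top_iff.2 fun f _ => ?_)⟩,
    ValuationSubring.eq_of_le_of_ne_top _ ?_ hV⟩
  · obtain ⟨a, s, hs, rfl⟩ := IsFractionRing.div_surjective B f
    rw [div_eq_mul_inv]
    exact hI a s (h0 ▸ nonZeroDivisors.ne_zero hs)
  · rintro _ ⟨a, s, hs, rfl⟩
    exact hI a s hs

theorem FFA_unif (v : HeightOneSpectrum B) : ∃ π : L, π ≠ 0 ∧
    (valuationSubringAtPrime L v).valuation π < 1 ∧ ∀ f : L, f ≠ 0 → ∃ n : ℤ,
      (valuationSubringAtPrime L v).valuation f = (valuationSubringAtPrime L v).valuation π ^ n := by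
  obtain ⟨π, hπ⟩ := v.valuation_exists_uniformizer L
  refine ⟨π, fun h => WithZero.exp_ne_zero (by rw [← hπ, h, map_zero]), (FFA_equiv v).lt_one_iff_lt_one.1 (by
    rw [hπ, ← WithZero.exp_zero, WithZero.exp_lt_exp]; decide), fun f hf =>
    ⟨-WithZero.log (v.valuation L f), ?_⟩⟩
  rw [← map_zpow₀, ← (FFA_equiv v).eq_iff, map_zpow₀, hπ, ← WithZero.exp_zsmul, smul_eq_mul,
    neg_mul_neg, mul_one, WithZero.exp_log (by simpa using hf)]

end

/-- The place of a prime of a Dedekind subalgebra. -/
noncomputable def FFA_pl {B : Subalgebra K L} [IsDedekindDomain B] [IsFractionRing B L]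
    (v : HeightOneSpectrum B) : Place K L :=
  ⟨valuationSubringAtPrime L v, FFA_ne_top v,
    fun c => (algebraMap B (valuationSubringAtPrime L v) (algebraMap K B c)).2⟩

theorem FFA_pl_mem {B : Subalgebra K L} [IsDedekindDomain B] [IsFractionRing B L]
    (v : HeightOneSpectrum B) {b : L} (hb : b ∈ B) : b ∈ (FFA_pl v).1 :=
  (algebraMap B (valuationSubringAtPrime L v) ⟨b, hb⟩).2

theorem FFA_pl_surj {B : Subalgebra K L} [IsDedekindDomain B] [IsFractionRing B L]
    (P : Place K L) (h : ∀ b ∈ B, b ∈ P.1) : ∃ v : HeightOneSpectrum B, FFA_pl v = P :=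
  (FFA_loc P.1 P.2.1 fun b : B => h _ b.2).imp fun _ => Subtype.ext

theorem FFA_place [IsAlgClosed K] (h : IsFF K L) (P : Place K L) :
    ∃ x : L, Transcendental K x ∧ x ∈ P.1 := by
  obtain ⟨x, hx, -⟩ := h
  rcases P.1.mem_or_inv_mem x with h | h
  · exact ⟨x, hx, h⟩
  · exact ⟨x⁻¹, mt IsAlgebraic.inv_iff.1 hx, h⟩

/-- The residue field of a place is the constant field. -/
theorem FFA_res [IsAlgClosed K] (h : IsFF K L) (P : Place K L) {f : L} (hf : f ∈ P.1) :
    ∃ a : K, P.1.valuation (f - algebraMap K L a) < 1 := by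
  by_contra! hc
  have h1 : ∀ s : Polynomial K, s ≠ 0 → 1 ≤ P.1.valuation (Polynomial.aeval f s) := fun s => by
    induction IsAlgClosed.splits s using Submonoid.closure_induction with
    | mem x hx =>
      obtain ⟨a, rfl⟩ | ⟨a, rfl⟩ := hx
      · exact fun ha => by simp [Valuation.IsTrivialOn.eq_one a (by simpa using ha)]
      · exact fun _ => by simpa using hc (-a)
    | one => simp
    | mul x y _ _ hx hy =>
      exact fun h => by
        simpa using one_le_mul (hx (left_ne_zero_of_mul h)) (hy (right_ne_zero_of_mul h))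
  have := FFA_fd h (y := f) (FFA_tr.2 fun ⟨a, ha⟩ => by simpa [ha] using hc a)
  refine P.2.1 (eq_top_iff.2 fun g _ => FFA_int _ (A := K⟮f⟯) (fun ⟨a, ha⟩ => ?_)
    (Algebra.IsIntegral.isIntegral g))
  obtain ⟨r, s, rfl⟩ := (mem_adjoin_simple_iff K a).1 ha
  change _ / _ ∈ P.1
  rcases eq_or_ne s 0 with rfl | hs
  · simp
  · rw [div_eq_mul_inv]
    refine mul_mem (FFA_adj P hf _ (Polynomial.aeval_mem_adjoin_singleton _ _))
      ((P.1.valuation_le_one_iff _).1 ?_)
    rw [map_inv₀]
    exact inv_le_one_of_one_le₀ (h1 s hs)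

theorem FFA_zero {x : L} (hx : Transcendental K x) : ∃ P : Place K L, P.1.valuation x < 1 := by
  let y : (Algebra.adjoin K {x}).toSubring := ⟨x, Algebra.self_mem_adjoin_singleton K x⟩
  obtain ⟨V, h1, h2⟩ := Ideal.image_subset_nonunits_valuationSubring (Ideal.span {y}) fun h => by
    obtain ⟨⟨z, hz⟩, h3⟩ := (Ideal.span_singleton_eq_top.1 h).exists_right_inv
    obtain ⟨q, rfl⟩ := Algebra.adjoin_mem_exists_aeval _ _ hz
    have h4 : Polynomial.X * q = 1 := transcendental_iff_injective.1 hx
      (by simpa using congrArg Subtype.val h3)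
    simpa using congrArg (Polynomial.eval 0) h4
  have h3 : V.valuation x < 1 := h2 ⟨y, Ideal.mem_span_singleton_self y, rfl⟩
  refine ⟨⟨V, ?_, fun c => h1 (Subalgebra.algebraMap_mem _ c)⟩, h3⟩
  rintro rfl
  rcases (ValuationSubring.mem_nonunits_iff_or _).1 h3 with rfl | h
  · exact hx isAlgebraic_zero
  · exact h trivial

end PR0
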