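import Pool.Agent.Work.MP_da2620_ag.CD

/-!
# Constant field extensions

Key fact: `K'` and `L` are linearly disjoint over `K` in `L'`.  Proof: `ψ x` is transcendental over
`K'`; if `K`-independent `f₁, ..., fₙ ∈ L` had a relation over `K'`, use a place of `L'` lying over a place
`P` of `L` and expansions (make the `P`-orders of the `f i` distinct by Gaussian elimination); such
places exist: `K'[t]`, `t` a uniformiser ... or use that `K' ⊗ L` is a domain of transcendence degree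
one over `K'` (`K` algebraically closed), so the map to `L'` is injective.  To see that it is a
domain and to construct places: for a place `P` with expansion `e : L → LS K` (`exists_ex`), the map
`K' ⊗ L → LS K'` is injective (independence of coefficients along a `K`-basis of `K'`).
This gives for each `P` a place `P'` over it with `ord' (∑ e l ψ (b l)) = min ord (b l)` for `K`-independent
`e l ∈ K'`; it is the only one, by counting degrees: for `x` with a zero at `P`, the zero divisor of `x`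
has degree `[L : K(x)] = [L' : K'(ψ x)]` on both sides.  For a chart `d`: let `β` be a `K[x]`-basis of
`d.reg` with discriminant `Δ ∈ K[x]` (`CD.isSeparable`); `f ∈ d'.reg` has `Δ(x) f = ∑ e l ψ (b l)` with
`b l ∈ d.reg` (trace dual), and the order formula at the places over the roots of `Δ` gives
`b l / Δ(x) ∈ d.reg`.
-/

namespace PR0

universe u

variable {K L K' L' : Type u} [Field K] [Field L] [Algebra K L] [Field K'] [Field L'] [Algebra K' L']

/-- `L' / K'` is the constant field extension of `L / K` along `φ`. -/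
structure BC (φ : K →+* K') (ψ : L →+* L') : Prop where
  comm : ∀ c, ψ (algebraMap K L c) = algebraMap K' L' (φ c)
  gen : ∀ f : L', f ∈ Subfield.closure (Set.range ψ ∪ Set.range (algebraMap K' L'))

/-- `P'` lies over `P`. -/
def Over (ψ : L →+* L') (P : Place K L) (P' : Place K' L') : Prop := ∀ f, ψ f ∈ P'.1 ↔ f ∈ P.1

theorem BC.refl : BC (RingHom.id K) (RingHom.id L) :=
  ⟨fun _ => rfl, fun f => Subfield.subset_closure (Or.inl ⟨f, rfl⟩)⟩

theorem BC.BC_ind {φ : K →+* K'} {ψ : L →+* L'} (h : BC φ ψ) (S : Subfield L') (h1 : ∀ f, ψ f ∈ S)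
    (h2 : ∀ c, algebraMap K' L' c ∈ S) (f : L') : f ∈ S := by
  refine (Subfield.closure_le (t := S)).2 ?_ (h.gen f)
  rintro _ (⟨g, rfl⟩ | ⟨c, rfl⟩)
  exacts [h1 g, h2 c]

theorem BC.trans {K'' L'' : Type u} [Field K''] [Field L''] [Algebra K'' L''] {φ : K →+* K'}
    {ψ : L →+* L'} {φ' : K' →+* K''} {ψ' : L' →+* L''} (h : BC φ ψ) (h' : BC φ' ψ') :
    BC (φ'.comp φ) (ψ'.comp ψ) := by
  refine ⟨fun c => by simp only [RingHom.comp_apply, h.comm, h'.comm], h'.BC_ind _ ?_ ?_⟩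
  · refine h.BC_ind (Subfield.comap ψ' (Subfield.closure (Set.range (ψ'.comp ψ) ∪
      Set.range (algebraMap K'' L'')))) (fun a => ?_) fun c => ?_
    · exact Subfield.subset_closure (Or.inl ⟨a, rfl⟩)
    · exact Subfield.subset_closure (Or.inr ⟨φ' c, (h'.comm c).symm⟩)
  · exact fun c => Subfield.subset_closure (Or.inr ⟨c, rfl⟩)

theorem BC.of_equiv {L₂ : Type u} [Field L₂] [Algebra K L₂] (e : L ≃ₐ[K] L₂) :
    BC (RingHom.id K) (e : L →+* L₂) :=
  ⟨fun c => e.commutes c, fun f => Subfield.subset_closure (Or.inl ⟨e.symm f, e.apply_symm_apply f⟩)⟩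

theorem BC.BC_smul {φ : K →+* K'} {ψ : L →+* L'} (h : BC φ ψ) (c : K) (f : L) :
    ψ (c • f) = φ c • ψ f := by
  rw [Algebra.smul_def, Algebra.smul_def, map_mul, h.comm]

theorem BC_mem_adjoin (ψ : L →+* L') (O : Subalgebra K L) (r : L') :
    r ∈ Algebra.adjoin K' (ψ '' O) ↔ r ∈ Submodule.span K' (ψ '' O) := by
  rw [← Subalgebra.mem_toSubmodule, Algebra.adjoin_eq_span]
  have : (Submonoid.closure (ψ '' O) : Set L') = ψ '' O :=
    congrArg SetLike.coe (Submonoid.closure_eq (O.toSubmonoid.map ψ))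
  rw [this]

/-- The ring generated by the new constants and the old functions. -/
def BCring (K' : Type u) [Field K'] [Algebra K' L'] (ψ : L →+* L') : Subalgebra K' L' :=
  Algebra.adjoin K' (Set.range ψ)

theorem BCring_mem (ψ : L →+* L') (f : L) : ψ f ∈ BCring K' ψ := Algebra.subset_adjoin ⟨f, rfl⟩

theorem BCring_span {ψ : L →+* L'} {r : L'} (hr : r ∈ BCring K' ψ) :
    r ∈ Submodule.span K' (Set.range ψ) := by
  rw [BCring, ← Subalgebra.mem_toSubmodule, Algebra.adjoin_eq_span] at hr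
  have : (Submonoid.closure (Set.range ψ) : Set L') = Set.range ψ :=
    congrArg SetLike.coe (Submonoid.closure_eq (MonoidHom.mrange ψ))
  rwa [this] at hr

theorem BC.BC_frac {φ : K →+* K'} {ψ : L →+* L'} (h : BC φ ψ) (f : L') :
    ∃ r ∈ BCring K' ψ, ∃ s ∈ BCring K' ψ, s ≠ 0 ∧ f = r / s := by
  obtain ⟨r, hr, s, hs, e⟩ := Subfield.mem_closure_iff.1 (h.gen f)
  have hle : Subring.closure (Set.range ψ ∪ Set.range (algebraMap K' L')) ≤
      (BCring K' ψ).toSubring := by
    refine Subring.closure_le.2 ?_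
    rintro _ (⟨g, rfl⟩ | ⟨c, rfl⟩)
    exacts [BCring_mem ψ g, (BCring K' ψ).algebraMap_mem c]
  by_cases h0 : s = 0
  · exact ⟨0, zero_mem _, 1, one_mem _, one_ne_zero, by rw [← e, h0, div_zero, zero_div]⟩
  · exact ⟨r, hle hr, s, hle hs, h0, e.symm⟩

theorem BC.BC_fin {φ : K →+* K'} {ψ : L →+* L'} (h : BC φ ψ) (x : L)
    [FiniteDimensional (IntermediateField.adjoin K {x}) L] :
    FiniteDimensional (IntermediateField.adjoin K' {ψ x}) L' := by
  set E := IntermediateField.adjoin K' {ψ x}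
  have h1 : ∀ a : IntermediateField.adjoin K {x}, ψ a ∈ E := fun a => by
    refine IntermediateField.adjoin_le_subfield K {x} (K := E.toSubfield.comap ψ) ?_ ?_ a.2
    · rintro _ ⟨c, rfl⟩
      change ψ _ ∈ E
      rw [h.comm]
      exact E.algebraMap_mem _
    · rintro _ rfl
      exact IntermediateField.mem_adjoin_simple_self K' _
  let ρ : IntermediateField.adjoin K {x} →+* E :=
    (ψ.comp (algebraMap (IntermediateField.adjoin K {x}) L)).codRestrict E h1
  let β := Module.finBasis (IntermediateField.adjoin K {x}) L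
  let M := IntermediateField.adjoin E (Set.range fun i => ψ (β i))
  haveI : FiniteDimensional E M := IntermediateField.finiteDimensional_adjoin (by
    rintro _ ⟨i, rfl⟩
    exact IsIntegral.map_of_comp_eq ρ ψ rfl (IsIntegral.of_finite _ _))
  refine Module.Finite.of_surjective M.val.toLinearMap fun f => ⟨⟨f, ?_⟩, rfl⟩
  refine h.BC_ind M.toSubfield (fun g => ?_) (fun c => ?_) f
  · rw [← β.sum_repr g, map_sum]
    refine sum_mem fun i _ => ?_
    rw [Algebra.smul_def, map_mul]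
    exact mul_mem (M.algebraMap_mem (ρ _)) (IntermediateField.subset_adjoin _ _ ⟨i, rfl⟩)
  · exact M.algebraMap_mem (algebraMap K' E c)

/-- Independence over `K`. -/
def BCind (φ : K →+* K') {n : ℕ} (e : Fin n → K') : Prop :=
  ∀ c : Fin n → K, ∑ l, φ (c l) * e l = 0 → ∀ l, c l = 0

theorem BC_dec (φ : K →+* K') {α : Type*} (s : Finset α) (c : α → K') :
    ∃ (n : ℕ) (e : Fin n → K') (π : α → Fin n → K), BCind φ e ∧
      ∀ a ∈ s, c a = ∑ l, φ (π a l) * e l := by
  classical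
  letI := φ.toAlgebra
  let M := Submodule.span K (c '' s)
  haveI : FiniteDimensional K M := FiniteDimensional.span_of_finite K (s.finite_toSet.image c)
  let b := Module.finBasis K M
  refine ⟨_, fun l => b l, fun a l => if h : c a ∈ M then b.repr ⟨c a, h⟩ l else 0, ?_, ?_⟩
  · intro z hz
    refine Fintype.linearIndependent_iff.1 b.linearIndependent z (Subtype.ext ?_)
    rw [Submodule.coe_sum]
    exact hz
  · intro a ha
    have hm : c a ∈ M := Submodule.subset_span ⟨a, ha, rfl⟩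
    have := congrArg Subtype.val (b.sum_repr ⟨c a, hm⟩)
    rw [Submodule.coe_sum] at this
    simp only [dif_pos hm]
    exact this.symm

theorem BC.BC_sum {φ : K →+* K'} {ψ : L →+* L'} (h : BC φ ψ) {α : Type*} {s : Finset α} {c : α → K'}
    {n : ℕ} {e : Fin n → K'} {π : α → Fin n → K} (hc : ∀ a ∈ s, c a = ∑ l, φ (π a l) * e l)
    (f : α → L) : ∑ a ∈ s, c a • ψ (f a) = ∑ l, e l • ψ (∑ a ∈ s, π a l • f a) := by
  simp only [map_sum, h.BC_smul, Finset.smul_sum]
  rw [Finset.sum_comm]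
  refine Finset.sum_congr rfl fun a ha => ?_
  rw [hc a ha, Finset.sum_smul]
  exact Finset.sum_congr rfl fun l _ => by rw [mul_comm, mul_smul]

theorem BC.BC_repr {φ : K →+* K'} {ψ : L →+* L'} (h : BC φ ψ) {r : L'} (hr : r ∈ BCring K' ψ) :
    ∃ (n : ℕ) (e : Fin n → K') (b : Fin n → L), BCind φ e ∧ r = ∑ l, e l • ψ (b l) := by
  obtain ⟨c, rfl⟩ := Finsupp.mem_span_range_iff_exists_finsupp.1 (BCring_span hr)
  obtain ⟨n, e, π, he, hc⟩ := BC_dec φ c.support c
  exact ⟨n, e, _, he, h.BC_sum hc id⟩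

theorem BC_over_or {φ : K →+* K'} {ψ : L →+* L'} (h : BC φ ψ) (P' : Place K' L') :
    (∃ P : Place K L, Over ψ P P') ∨ ∀ f, ψ f ∈ P'.1 := by
  refine or_iff_not_imp_right.2 fun hn => ⟨⟨P'.1.comap ψ, fun e => hn fun f => ?_, fun c => ?_⟩,
    fun _ => Iff.rfl⟩
  · exact (e.ge (ValuationSubring.mem_top f) : f ∈ P'.1.comap ψ)
  · rw [ValuationSubring.mem_comap, h.comm]
    exact P'.2.2 _

variable [IsAlgClosed K] [IsAlgClosed K'] [hL : Fact (IsFF K L)]
include hL

theorem BC_val_sum (P : Place K L) {α : Type*} (s : Finset α) {f : α → L} (hf : ∀ a ∈ s, f a ∈ P.1) :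
    P.val (∑ a ∈ s, f a) = ∑ a ∈ s, P.val (f a) := by
  classical
  induction s using Finset.induction_on with
  | empty => simpa using Place.val_const (P := P) 0
  | insert a s ha ih =>
    rw [Finset.sum_insert ha, Finset.sum_insert ha,
      Place.val_add (hf a (Finset.mem_insert_self _ _))
        (sum_mem fun b hb => hf b (Finset.mem_insert_of_mem hb)),
      ih fun b hb => hf b (Finset.mem_insert_of_mem hb)]

theorem BC_smul_mem (P : Place K L) (c : K) {f : L} (hf : f ∈ P.1) : c • f ∈ P.1 := by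
  rw [Algebra.smul_def]
  exact mul_mem (P.2.2 c) hf

theorem BC_val_smul (P : Place K L) (c : K) {f : L} (hf : f ∈ P.1) :
    P.val (c • f) = c * P.val f := by
  rw [Algebra.smul_def, Place.val_mul (P.2.2 c) hf, Place.val_const]

theorem BC_nonunits (P : Place K L) {f : L} : f ∈ P.1.nonunits ↔ P.Ge f 1 := by
  rw [ValuationSubring.mem_nonunits_iff, P.valuation_lt_one_iff]

theorem BC_unit {P : Place K L} {u : L} (hu : u ∈ P.1) (h0 : P.val u ≠ 0) : u ≠ 0 ∧ P.ord u = 0 := by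
  rw [Ne, Place.val_eq_zero hu, Place.Ge, not_or] at h0
  have := (P.mem_iff.1 hu).resolve_left h0.1
  exact ⟨h0.1, by omega⟩

theorem BC_ord_div (P : Place K L) {f g : L} (hf : f ≠ 0) (hg : g ≠ 0) :
    P.ord (f / g) = P.ord f - P.ord g := by
  rw [div_eq_mul_inv, P.ord_mul hf (inv_ne_zero hg), P.ord_inv hg, sub_eq_add_neg]

theorem BC_exists_cd : ∃ (n : ℕ), Nonempty (CD K L (Fin (n + 1))) := by
  obtain ⟨d, -⟩ := exists_cd_avoid (K := K) (L := L) (ι := Fin (2 * genus K L + 1)) ∅ (fun _ => 0)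
    (by simp)
  exact ⟨_, ⟨d⟩⟩

/-- The local ring of `R` at a place. -/
def BCloc (R : Subalgebra K L) (P : Place K L) (hR : ∀ r ∈ R, r ∈ P.1) : Subalgebra K L where
  carrier := {z | ∃ s ∈ R, P.val s ≠ 0 ∧ s * z ∈ R}
  mul_mem' := by
    rintro a b ⟨s, hs, h1, h2⟩ ⟨t, ht, h3, h4⟩
    refine ⟨s * t, mul_mem hs ht, ?_, ?_⟩
    · rw [Place.val_mul (hR _ hs) (hR _ ht)]
      exact mul_ne_zero h1 h3
    · rw [mul_mul_mul_comm]
      exact mul_mem h2 h4
  add_mem' := by
    rintro a b ⟨s, hs, h1, h2⟩ ⟨t, ht, h3, h4⟩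
    refine ⟨s * t, mul_mem hs ht, ?_, ?_⟩
    · rw [Place.val_mul (hR _ hs) (hR _ ht)]
      exact mul_ne_zero h1 h3
    · rw [show s * t * (a + b) = t * (s * a) + s * (t * b) by ring]
      exact add_mem (mul_mem ht h2) (mul_mem hs h4)
  algebraMap_mem' c := ⟨algebraMap K L 1, R.algebraMap_mem _,
    by rw [Place.val_const]; exact one_ne_zero, mul_mem (R.algebraMap_mem _) (R.algebraMap_mem _)⟩

section
variable {R : Subalgebra K L} {P : Place K L} (hR : ∀ r ∈ R, r ∈ P.1)

theorem BCloc_of {r : L} (hr : r ∈ R) : r ∈ BCloc R P hR :=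
  ⟨algebraMap K L 1, R.algebraMap_mem _, by rw [Place.val_const]; exact one_ne_zero,
    mul_mem (R.algebraMap_mem _) hr⟩

theorem BCloc_inv {r : L} (hr : r ∈ R) (h0 : P.val r ≠ 0) : r⁻¹ ∈ BCloc R P hR :=
  ⟨r, hr, h0, by rw [mul_inv_cancel₀ (BC_unit (hR r hr) h0).1]; exact one_mem _⟩

theorem BCloc_le {z : L} (hz : z ∈ BCloc R P hR) : z ∈ P.1 := by
  obtain ⟨s, hs, h1, h2⟩ := hz
  obtain ⟨h3, h4⟩ := BC_unit (hR s hs) h1
  rw [← inv_mul_cancel_left₀ h3 z]
  exact mul_mem (P.mem_iff.2 (Or.inr (by rw [P.ord_inv h3, h4, neg_zero]))) (hR _ h2)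

theorem BCloc_main {t : L} (ht : t ≠ 0) (h1 : P.Ge t 1)
    (h : ∀ r ∈ R, (r - algebraMap K L (P.val r)) / t ∈ BCloc R P hR) {r s : L} (hr : r ∈ R)
    (hs : s ∈ R) (h0 : s ≠ 0) (hP : r / s ∈ P.1) : r / s ∈ BCloc R P hR := by
  have h2 : ∀ z ∈ BCloc R P hR, P.val z = 0 → z / t ∈ BCloc R P hR := by
    intro z hz e
    have h3 := BCloc_le hR hz
    obtain ⟨s, hs, h4, h5⟩ := hz
    have h6 := h _ h5
    rw [Place.val_mul (hR s hs) h3, e, mul_zero, map_zero, sub_zero, mul_div_assoc] at h6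
    rw [← inv_mul_cancel_left₀ (BC_unit (hR s hs) h4).1 (z / t)]
    exact mul_mem (BCloc_inv hR hs h4) h6
  have key : ∀ n : ℕ, ∀ r ∈ BCloc R P hR, ∀ s ∈ BCloc R P hR, s ≠ 0 → P.ord s < n → r / s ∈ P.1 →
      r / s ∈ BCloc R P hR := by
    intro n
    induction n with
    | zero =>
      intro r _ s hs h0 h3 _
      have := (P.mem_iff.1 (BCloc_le hR hs)).resolve_left h0
      omega
    | succ n ih =>
      intro r hr s hs h0 h3 hP
      have h4 := BCloc_le hR hs
      by_cases e : P.val s = 0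
      · have h5 : P.val r = 0 := by
          rw [← div_mul_cancel₀ r h0, Place.val_mul hP h4, e, mul_zero]
        have h6 := h1.resolve_left ht
        rw [← div_div_div_cancel_right₀ ht] at hP ⊢
        exact ih _ (h2 r hr h5) _ (h2 s hs e) (div_ne_zero h0 ht)
          (by rw [BC_ord_div P h0 ht]; omega) hP
      · obtain ⟨u, hu, h5, h6⟩ := hs
        have h7 := BCloc_inv hR h6 (by rw [Place.val_mul (hR u hu) h4]; exact mul_ne_zero h5 e)
        rw [← mul_div_mul_left r s (BC_unit (hR u hu) h5).1, div_eq_mul_inv]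
        exact mul_mem (mul_mem (BCloc_of hR hu) hr) h7
  exact key ((P.ord s).toNat + 1) r (BCloc_of hR hr) s (BCloc_of hR hs) h0 (by omega) hP

end

theorem exists_bc (φ : K →+* K') : ∃ (L' : Type u) (_ : Field L') (_ : Algebra K' L')
    (_ : Fact (IsFF K' L')) (ψ : L →+* L'), BC φ ψ := by
  haveI := infinite_place (K := K) (L := L)
  obtain ⟨P⟩ : Nonempty (Place K L) := inferInstance
  obtain ⟨e, he, -⟩ := exists_ex P P.unif_ne_zero P.ord_unif
  let ψ₀ : L →+* LS K' := (LS.map φ).comp e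
  let E := IntermediateField.adjoin K' (Set.range ψ₀)
  let ψ : L →+* E := ψ₀.codRestrict E fun f => IntermediateField.subset_adjoin _ _ ⟨f, rfl⟩
  have h : BC φ ψ := by
    refine ⟨fun c => Subtype.ext ?_, fun f => ?_⟩
    · change LS.map φ (e _) = algebraMap K' (LS K') _
      rw [e.commutes, LS.map_algebraMap]
    · obtain ⟨g, hg, e⟩ := IntermediateField.adjoin_le_subfield K' (Set.range ψ₀)
        (K := (Subfield.closure (Set.range ψ ∪ Set.range (algebraMap K' E))).map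
          (algebraMap E (LS K'))) (by
          rintro _ ⟨c, rfl⟩
          exact ⟨algebraMap K' E c, Subfield.subset_closure (Or.inr ⟨c, rfl⟩), rfl⟩) (by
          rintro _ ⟨c, rfl⟩
          exact ⟨ψ c, Subfield.subset_closure (Or.inl ⟨c, rfl⟩), rfl⟩) f.2
      rwa [← show g = f from Subtype.ext e]
  have ht : Transcendental K P.unif := transcendental_iff.2 fun ⟨c, hc⟩ => by
    have h1 := P.ord_unif
    rw [← hc, P.ord_const (by rintro rfl; exact P.unif_ne_zero (by rw [← hc, map_zero]))] at h1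
    exact zero_ne_one h1
  haveI := finiteDimensional_of_transcendental ht
  refine ⟨E, inferInstance, inferInstance, ⟨ψ P.unif, fun ha => ?_, h.BC_fin _⟩, ψ, h⟩
  obtain ⟨c, hc⟩ := minpoly.mem_range_of_degree_eq_one K' _
    (IsAlgClosed.degree_eq_one_of_irreducible K' (minpoly.irreducible ha.isIntegral))
  have h1 : algebraMap K' (LS K') c = LS.map φ (e P.unif) := congrArg Subtype.val hc
  have h2 := congrArg (LS.cf · 1) h1
  simp [he, LS.cf_T, LS.cf_algebraMap] at h2

variable [hL' : Fact (IsFF K' L')] {φ : K →+* K'} {ψ : L →+* L'} (h : BC φ ψ)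
include hL' h

theorem BC.BC_tr {x : L} (hx : Transcendental K x) : Transcendental K' (ψ x) := fun ha => by
  haveI := finiteDimensional_of_transcendental hx
  haveI := h.BC_fin x
  haveI := IntermediateField.adjoin.finiteDimensional ha.isIntegral
  haveI := Module.Finite.trans (R := K') (IntermediateField.adjoin K' {ψ x}) L'
  obtain ⟨y, hy, -⟩ := hL'.out
  exact hy (IsIntegral.of_finite K' y).isAlgebraic

omit h in
theorem Over.BC_ge {P : Place K L} {P' : Place K' L'} (o : Over ψ P P') (f : L) :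
    P'.Ge (ψ f) 1 ↔ P.Ge f 1 := by
  rw [← BC_nonunits, ← BC_nonunits, ValuationSubring.mem_nonunits_iff_or,
    ValuationSubring.mem_nonunits_iff_or, ← map_inv₀, o, map_eq_zero]

theorem BC.val {P : Place K L} {P' : Place K' L'} (o : Over ψ P P') {f : L} (hf : f ∈ P.1) :
    P'.val (ψ f) = φ (P.val f) := by
  refine Place.val_eq ?_
  rw [← h.comm, ← map_sub, o.BC_ge]
  exact Place.ge_sub_val hf

theorem BC.BC_key {n : ℕ} {e : Fin n → K'} (he : BCind φ e) {b : Fin n → L} {l : Fin n}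
    (hb : b l ≠ 0) (P : Place K L) : ∃ l₀, b l₀ ≠ 0 ∧ (∀ l, b l / b l₀ ∈ P.1) ∧
      ∀ P' : Place K' L', Over ψ P P' → ∑ l, e l • ψ (b l) ≠ 0 ∧
        P'.ord (∑ l, e l • ψ (b l)) = P'.ord (ψ (b l₀)) := by
  haveI : Nonempty (Fin n) := ⟨l⟩
  obtain ⟨l₀, h0⟩ := Finite.exists_max fun l => P.1.valuation (b l)
  have h1 : b l₀ ≠ 0 := fun e => hb (by simpa [e] using h0 l)
  have h2 : ∀ l, b l / b l₀ ∈ P.1 := fun l => by
    rw [← P.1.valuation_le_one_iff, map_div₀]
    exact div_le_one_of_le₀ (h0 l) zero_le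
  refine ⟨l₀, h1, h2, fun P' o => ?_⟩
  have h3 : ψ (b l₀) ≠ 0 := (map_ne_zero ψ).2 h1
  have h4 : ∑ l, e l • ψ (b l) = (∑ l, e l • ψ (b l / b l₀)) * ψ (b l₀) := by
    rw [Finset.sum_mul]
    exact Finset.sum_congr rfl fun l _ => by rw [smul_mul_assoc, ← map_mul, div_mul_cancel₀ _ h1]
  have h5 : ∀ l, e l • ψ (b l / b l₀) ∈ P'.1 := fun l => BC_smul_mem P' _ ((o _).2 (h2 l))
  obtain ⟨h6, h7⟩ := BC_unit (P := P') (sum_mem fun l (_ : l ∈ Finset.univ) => h5 l) fun e0 => by
    rw [BC_val_sum P' _ fun l _ => h5 l] at e0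
    have := he (fun l => P.val (b l / b l₀)) (by
      rw [← e0]
      exact Finset.sum_congr rfl fun l _ => by
        rw [BC_val_smul P' _ ((o _).2 (h2 l)), h.val o (h2 l), mul_comm]) l₀
    rw [div_self h1, ← map_one (algebraMap K L), Place.val_const] at this
    exact one_ne_zero this
  rw [h4, P'.ord_mul h6 h3, h7, zero_add]
  exact ⟨mul_ne_zero h6 h3, rfl⟩

theorem BC.BC_zero {n : ℕ} {e : Fin n → K'} (he : BCind φ e) {b : Fin n → L}
    (h0 : ∑ l, e l • ψ (b l) = 0) (l : Fin n) : b l = 0 := by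
  by_contra hb
  obtain ⟨x, hx, -⟩ := hL.out
  have h1 : ¬ ∀ P' : Place K' L', ψ x ∈ P'.1 := fun h1 => by
    obtain ⟨c, hc⟩ := const_of_regular h1
    exact transcendental_iff.1 (h.BC_tr hx) ⟨c, hc.symm⟩
  obtain ⟨P', hP'⟩ := not_forall.1 h1
  obtain ⟨P, o⟩ := (BC_over_or h P').resolve_right fun h2 => hP' (h2 x)
  obtain ⟨l₀, -, -, h2⟩ := h.BC_key he hb P
  exact (h2 P' o).1 h0

theorem BC.linearIndependent {α : Type*} {f : α → L} (hf : LinearIndependent K f) :
    LinearIndependent K' fun a => ψ (f a) := by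
  rw [linearIndependent_iff'] at hf ⊢
  intro s c h0 a ha
  obtain ⟨n, e, π, he, hc⟩ := BC_dec φ s c
  rw [h.BC_sum hc] at h0
  rw [hc a ha]
  exact Finset.sum_eq_zero fun l _ => by
    rw [hf s (fun a => π a l) (h.BC_zero he h0 l) a ha, map_zero, zero_mul]

theorem BC.BC_ext (O : Subalgebra K L) (θ : O →+* K') (hθ : ∀ c, θ (algebraMap K O c) = φ c) :
    ∃ V : ValuationSubring L', (∀ c, algebraMap K' L' c ∈ V) ∧
      ∀ f : O, ψ f ∈ V ∧ ψ f - algebraMap K' L' (θ f) ∈ V.nonunits := by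
  let b := Module.Basis.ofVectorSpace K O
  have hv := h.linearIndependent (b.linearIndependent.map' O.val.toLinearMap
    (LinearMap.ker_eq_bot.2 Subtype.val_injective))
  obtain ⟨σ, hσ⟩ := LinearMap.exists_extend
    ((Finsupp.linearCombination K' fun i => θ (b i)).comp hv.repr)
  have h1 : ∀ i, σ (ψ (b i)) = θ (b i) := fun i => by
    have := LinearMap.congr_fun hσ ⟨ψ (b i), Submodule.subset_span ⟨i, rfl⟩⟩
    rw [LinearMap.comp_apply, LinearMap.comp_apply, hv.repr_eq_single i _ rfl,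
      Finsupp.linearCombination_single, one_smul] at this
    exact this
  have h2 : ∀ f : O, σ (ψ f) = θ f := fun f => by
    have hf : f ∈ Submodule.span K (Set.range b) := b.span_eq.ge trivial
    induction hf using Submodule.span_induction with
    | mem _ hi => obtain ⟨i, rfl⟩ := hi; exact h1 i
    | zero => simp
    | add x y _ _ hx hy => rw [Subalgebra.coe_add, map_add, map_add, map_add, hx, hy]
    | smul c x _ hx =>
      rw [Subalgebra.coe_smul, h.BC_smul, map_smul, hx, Algebra.smul_def c, map_mul, hθ,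
        smul_eq_mul]
  have h3 : ∀ r ∈ Submodule.span K' (ψ '' O), ∀ s ∈ Submodule.span K' (ψ '' O),
      σ (r * s) = σ r * σ s := fun r hr s hs => by
    induction hr, hs using Submodule.span_induction₂ with
    | mem_mem x y hx hy =>
      obtain ⟨x, hx, rfl⟩ := hx
      obtain ⟨y, hy, rfl⟩ := hy
      rw [← map_mul, h2 ⟨x, hx⟩, h2 ⟨y, hy⟩, ← map_mul θ]
      exact h2 (⟨x, hx⟩ * ⟨y, hy⟩)
    | zero_left => simp
    | zero_right => simp
    | add_left x y z _ _ _ h1 h2 => rw [add_mul, map_add, map_add, h1, h2, add_mul]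
    | add_right x y z _ _ _ h1 h2 => rw [mul_add, map_add, map_add, h1, h2, mul_add]
    | smul_left c x y _ _ h1 => rw [smul_mul_assoc, map_smul, map_smul, h1, smul_mul_assoc]
    | smul_right c x y _ _ h1 => rw [mul_smul_comm, map_smul, map_smul, h1, mul_smul_comm]
  have h4 : σ 1 = 1 := by simpa using h2 1
  let A := (Algebra.adjoin K' (ψ '' O)).toSubring
  let I : Ideal A :=
    { carrier := {r | σ r = 0}
      add_mem' := fun {r s} hr hs => by
        change σ (r + s) = 0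
        rw [map_add, show σ r = 0 from hr, show σ s = 0 from hs, add_zero]
      zero_mem' := map_zero σ
      smul_mem' := fun r s hs => by
        change σ (r * s) = 0
        rw [h3 _ ((BC_mem_adjoin ψ O _).1 r.2) _ ((BC_mem_adjoin ψ O _).1 s.2),
          show σ s = 0 from hs, mul_zero] }
  obtain ⟨V, hV, hI⟩ := I.image_subset_nonunits_valuationSubring
    ((Ideal.ne_top_iff_one I).2 fun e => one_ne_zero (h4.symm.trans e))
  have h5 : ∀ c, algebraMap K' L' c ∈ A := (Algebra.adjoin K' (ψ '' O)).algebraMap_mem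
  have h6 : ∀ f : O, ψ f ∈ A := fun f => Algebra.subset_adjoin ⟨f, f.2, rfl⟩
  refine ⟨V, fun c => hV (h5 c), fun f => ⟨hV (h6 f), hI ⟨⟨_, sub_mem (h6 f) (h5 _)⟩, ?_, rfl⟩⟩⟩
  change σ (_ - _) = 0
  rw [map_sub, h2, Algebra.algebraMap_eq_smul_one, map_smul, h4, smul_eq_mul, mul_one, sub_self]

theorem BC.BC_ord (P : Place K L) {f : L'} (hf : f ≠ 0) :
    ∃ b : L, b ≠ 0 ∧ ∀ P' : Place K' L', Over ψ P P' → P'.ord f = P'.ord (ψ b) := by
  have key : ∀ r ∈ BCring K' ψ, r ≠ 0 →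
      ∃ b : L, b ≠ 0 ∧ ∀ P' : Place K' L', Over ψ P P' → P'.ord r = P'.ord (ψ b) := by
    intro r hr h0
    obtain ⟨n, e, b, he, rfl⟩ := h.BC_repr hr
    obtain ⟨l, -, hl⟩ := Finset.exists_ne_zero_of_sum_ne_zero h0
    obtain ⟨l₀, h1, -, h2⟩ := h.BC_key he (b := b) (l := l) (fun e => hl (by simp [e])) P
    exact ⟨b l₀, h1, fun P' o => (h2 P' o).2⟩
  obtain ⟨r, hr, s, hs, h0, rfl⟩ := h.BC_frac f
  have h1 : r ≠ 0 := fun e => hf (by rw [e, zero_div])
  obtain ⟨a, ha, h2⟩ := key r hr h1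
  obtain ⟨b, hb, h3⟩ := key s hs h0
  refine ⟨a / b, div_ne_zero ha hb, fun P' o => ?_⟩
  rw [map_div₀, BC_ord_div P' h1 h0, BC_ord_div P' ((map_ne_zero ψ).2 ha) ((map_ne_zero ψ).2 hb),
    h2 P' o, h3 P' o]

theorem BC.exists_over (P : Place K L) : ∃! P' : Place K' L', Over ψ P P' := by
  refine existsUnique_of_exists_of_unique ?_ fun P₁ P₂ o₁ o₂ => Place.eq_of_le fun f hf => ?_
  · let O : Subalgebra K L := { P.1.toSubring with algebraMap_mem' := P.2.2 }
    obtain ⟨σ, hσ⟩ := P.exists_ev O fun f hf => hf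
    obtain ⟨V, h1, h2⟩ := h.BC_ext O (φ.comp σ) fun c => by simp
    have h3 : ∀ f, ψ f ∈ V ↔ f ∈ P.1 := fun f => by
      refine ⟨fun hf => by_contra fun hn => ?_, fun hf => (h2 ⟨f, hf⟩).1⟩
      have h4 : f⁻¹ ∈ P.1.nonunits := P.1.inv_mem_nonunits_iff.2 (Or.inr hn)
      have h5 : f⁻¹ ∈ P.1 := P.1.nonunits_subset h4
      have h6 := (h2 ⟨f⁻¹, h5⟩).2
      rw [RingHom.comp_apply, RingHom.coe_coe, hσ, (Place.val_eq_zero h5).2 ((BC_nonunits P).1 h4),
        map_zero, map_zero, sub_zero, map_inv₀, V.inv_mem_nonunits_iff, map_eq_zero] at h6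
      exact h6.elim (fun e => hn (e ▸ zero_mem _)) fun e => e hf
    exact ⟨⟨V, fun e => P.2.1 (top_unique fun f _ => (h3 f).1 (e ▸ ValuationSubring.mem_top _)), h1⟩, h3⟩
  · by_cases h0 : f = 0
    · exact h0 ▸ zero_mem _
    obtain ⟨b, hb, h1⟩ := h.BC_ord P h0
    have hb' := (map_ne_zero ψ).2 hb
    have h2 : ψ b ∈ P₁.1 := P₁.mem_iff.2 (Or.inr (h1 P₁ o₁ ▸ (P₁.mem_iff.1 hf).resolve_left h0))
    exact P₂.mem_iff.2 (Or.inr (h1 P₂ o₂ ▸ (P₂.mem_iff.1 ((o₂ b).2 ((o₁ b).1 h2))).resolve_left hb'))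

theorem BC.BC_ord_eq {P : Place K L} {P' : Place K' L'} (o : Over ψ P P') {f : L} (hf : f ≠ 0) :
    P'.ord (ψ f) = P.ord f := by
  have hu := P.unif_ne_zero
  have hu' := (map_ne_zero ψ).2 hu
  have key : ∀ b : L, b ≠ 0 → P'.ord (ψ b) = P.ord b * P'.ord (ψ P.unif) := fun b hb => by
    have h1 : P.unif ^ P.ord b ≠ 0 := zpow_ne_zero _ hu
    have h2 := div_ne_zero hb h1
    have h3 : P.ord (b / P.unif ^ P.ord b) = 0 := by
      rw [BC_ord_div P hb h1, P.ord_zpow hu, P.ord_unif, mul_one, sub_self]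
    have h4 := (P'.mem_iff.1 ((o _).2 (P.mem_iff.2 (Or.inr h3.ge)))).resolve_left
      ((map_ne_zero ψ).2 h2)
    have h5 := mt (o.BC_ge (b / P.unif ^ P.ord b)).1 (not_or.2 ⟨h2, by omega⟩)
    rw [Place.Ge, not_or] at h5
    rw [map_div₀, map_zpow₀, BC_ord_div P' ((map_ne_zero ψ).2 hb) (zpow_ne_zero _ hu'),
      P'.ord_zpow hu'] at h4 h5
    omega
  obtain ⟨b, hb, h1⟩ := h.BC_ord P P'.unif_ne_zero
  have h2 := h1 P' o
  rw [P'.ord_unif, key b hb] at h2
  have h3 := ((o.BC_ge P.unif).2 (Or.inr P.ord_unif.ge)).resolve_left hu'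
  rw [key f hf, Int.eq_one_of_mul_eq_one_left (by omega) h2.symm, mul_one]

theorem BC.ge_iff {P : Place K L} {P' : Place K' L'} (o : Over ψ P P') (f : L) (n : ℤ) :
    P'.Ge (ψ f) n ↔ P.Ge f n := by
  by_cases hf : f = 0
  · exact iff_of_true (Or.inl (by rw [hf, map_zero])) (Or.inl hf)
  · rw [Place.Ge, Place.Ge, h.BC_ord_eq o hf, map_eq_zero]

theorem BC.over_inj {P Q : Place K L} {P' : Place K' L'} (o : Over ψ P P') (o' : Over ψ Q P') :
    P = Q := Place.eq_of_le fun f hf => (o' f).1 ((o f).2 hf)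

/-- a place not over a place of `L` is trivial on `L` -/
theorem BC.over_or (P' : Place K' L') : (∃ P : Place K L, Over ψ P P') ∨ ∀ f, ψ f ∈ P'.1 :=
  BC_over_or h P'

theorem BC.BC_ge_of_sum {n : ℕ} {e : Fin n → K'} (he : BCind φ e) {b : Fin n → L} {P : Place K L}
    {P' : Place K' L'} (o : Over ψ P P') {m : ℤ} (hm : P'.Ge (∑ l, e l • ψ (b l)) m) (l : Fin n) :
    P.Ge (b l) m := by
  refine or_iff_not_imp_left.2 fun hb => ?_
  obtain ⟨l₀, h1, h2, h3⟩ := h.BC_key he hb P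
  have h4 := hm.resolve_left (h3 P' o).1
  rw [(h3 P' o).2, h.BC_ord_eq o h1] at h4
  have h5 := (P.mem_iff.1 (h2 l)).resolve_left (div_ne_zero hb h1)
  rw [BC_ord_div P hb h1] at h5
  omega

open Polynomial in
theorem BC.BC_gen {P' : Place K' L'} (hP : ∀ f, ψ f ∈ P'.1) :
    ∃ hR : ∀ r ∈ BCring K' ψ, r ∈ P'.1, ∀ f ∈ P'.1, f ∈ BCloc _ P' hR := by
  let O : Subalgebra K' L' := { P'.1.toSubring with algebraMap_mem' := P'.2.2 }
  have hR : ∀ r ∈ BCring K' ψ, r ∈ P'.1 :=
    fun r hr => Algebra.adjoin_le (S := O) (s := Set.range ψ) (by rintro _ ⟨f, rfl⟩; exact hP f) hr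
  refine ⟨hR, ?_⟩
  obtain ⟨n, ⟨d⟩⟩ := BC_exists_cd (K := K) (L := L)
  obtain ⟨σ, hσ⟩ := P'.exists_ev O fun f hf => hf
  let θ : L →+* K' := (σ : O →+* K').comp (ψ.codRestrict O hP)
  have hθ : ∀ f, P'.val (ψ f) = θ f := fun f => (hσ ⟨ψ f, hP f⟩).symm
  set M := BCloc _ P' hR
  set t := ψ d.x - algebraMap K' L' (θ d.x) with ht
  have h0 : t ≠ 0 := fun e => transcendental_iff.1 (h.BC_tr d.transcendental)
    ⟨_, (sub_eq_zero.1 e).symm⟩
  let δ : L → L' := fun y => (ψ y - algebraMap K' L' (θ y)) / t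
  have hadd : ∀ y z, δ (y + z) = δ y + δ z := fun y z => by
    simp only [δ, map_add]; ring
  have hmul : ∀ y z, δ (y * z) = ψ y * δ z + algebraMap K' L' (θ z) * δ y := fun y z => by
    simp only [δ, map_mul]; ring
  have hψ : ∀ y, ψ y ∈ M := fun y => BCloc_of hR (BCring_mem ψ y)
  have hc : ∀ c, δ (algebraMap K L c) = 0 := fun c => by
    simp only [δ]
    rw [← hθ, h.comm, Place.val_const, sub_self, zero_div]
  let B : Subfield L :=
    { carrier := {y | δ y ∈ M}
      mul_mem' := fun {y z} hy hz => by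
        change δ _ ∈ M
        rw [hmul]
        exact add_mem (mul_mem (hψ y) hz) (mul_mem (M.algebraMap_mem _) hy)
      one_mem' := by simp [δ]
      add_mem' := fun {y z} hy hz => by
        change δ _ ∈ M
        rw [hadd]
        exact add_mem hy hz
      zero_mem' := by simp [δ]
      neg_mem' := fun {y} hy => by
        change δ _ ∈ M
        rw [show δ (-y) = -δ y by simp only [δ, map_neg]; ring]
        exact neg_mem hy
      inv_mem' := fun y hy => by
        change δ _ ∈ M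
        by_cases e : y = 0
        · simp [δ, e]
        have h1 := (map_ne_zero ψ).2 e
        have h2 := (map_ne_zero (algebraMap K' L')).2 ((map_ne_zero θ).2 e)
        rw [show δ y⁻¹ = -(ψ y⁻¹ * (algebraMap K' L' (θ y⁻¹) * δ y)) by
          simp only [δ, map_inv₀]; field_simp; ring]
        exact neg_mem (mul_mem (hψ _) (mul_mem (M.algebraMap_mem _) hy)) }
  have hB : ∀ a : IntermediateField.adjoin K {d.x}, δ a ∈ M := fun a => by
    refine IntermediateField.adjoin_le_subfield K {d.x} (K := B) ?_ ?_ a.2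
    · rintro _ ⟨c, rfl⟩
      change δ _ ∈ M
      rw [hc]
      exact zero_mem _
    · rintro _ rfl
      change _ / _ ∈ M
      rw [div_self h0]
      exact one_mem _
  have hall : ∀ y, δ y ∈ M := fun y => by
    have key : ∀ q : (IntermediateField.adjoin K {d.x})[X], ∃ G ∈ BCring K' ψ, ∃ H ∈ M,
        δ (aeval y q) = H + G * δ y ∧ P'.val G = θ (aeval y (derivative q)) := by
      intro q
      induction q using Polynomial.induction_on with
      | C a => exact ⟨algebraMap K' L' 0, Subalgebra.algebraMap_mem _ _, δ a, hB a, by simp,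
          by rw [Place.val_const]; simp⟩
      | add p q hp hq =>
        obtain ⟨G, hG, H, hH, e1, e2⟩ := hp
        obtain ⟨G', hG', H', hH', e3, e4⟩ := hq
        refine ⟨G + G', add_mem hG hG', H + H', add_mem hH hH', ?_, ?_⟩
        · rw [map_add, hadd, e1, e3]; ring
        · rw [Place.val_add (hR _ hG) (hR _ hG'), e2, e4, map_add, map_add, map_add]
      | monomial n a hp =>
        obtain ⟨G, hG, H, hH, e1, e2⟩ := hp
        rw [pow_succ, ← mul_assoc]
        generalize C a * X ^ n = p at e1 e2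
        refine ⟨ψ (aeval y p) + algebraMap K' L' (θ y) * G, add_mem (BCring_mem _ _)
          (mul_mem (Subalgebra.algebraMap_mem _ _) hG), algebraMap K' L' (θ y) * H,
          mul_mem (M.algebraMap_mem _) hH, ?_, ?_⟩
        · rw [map_mul, aeval_X, hmul, e1]; ring
        · rw [Place.val_add (hP _) (mul_mem (P'.2.2 _) (hR _ hG)),
            Place.val_mul (P'.2.2 _) (hR _ hG), Place.val_const, e2, hθ]
          simp only [derivative_mul, derivative_X, map_add, map_mul, aeval_X, mul_one]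
          ring
    obtain ⟨G, hG, H, hH, e1, e2⟩ := key (minpoly _ y)
    have h1 : P'.val G ≠ 0 := by
      rw [e2, _root_.map_ne_zero]
      exact (d.isSeparable.isSeparable' y).aeval_derivative_ne_zero (minpoly.aeval _ _)
    rw [minpoly.aeval, show δ 0 = 0 by simp [δ], eq_comm, ← eq_neg_iff_add_eq_zero] at e1
    rw [← inv_mul_cancel_left₀ (BC_unit (hR G hG) h1).1 (δ y), ← neg_neg (G * _), ← e1]
    exact mul_mem (BCloc_inv hR hG h1) (neg_mem hH)
  intro f hf
  obtain ⟨r, hr, s, hs, h1, rfl⟩ := h.BC_frac f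
  refine BCloc_main hR h0 (by rw [ht, ← hθ]; exact Place.ge_sub_val (hP _)) (fun r hr => ?_) hr hs
    h1 hf
  have h2 : ∀ r ∈ Submodule.span K' (Set.range ψ), r ∈ P'.1 := fun r hr =>
    hR r (Algebra.span_le_adjoin K' _ hr)
  have h3 := BCring_span hr
  clear hr
  induction h3 using Submodule.span_induction with
  | mem _ hy => obtain ⟨y, rfl⟩ := hy; rw [hθ]; exact hall y
  | zero => rw [← map_zero (algebraMap K' L'), Place.val_const, sub_self, zero_div]; exact zero_mem _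
  | add y z hy hz e1 e2 =>
    rw [Place.val_add (h2 y hy) (h2 z hz), map_add, add_sub_add_comm, add_div]
    exact add_mem e1 e2
  | smul c y hy e1 =>
    rw [BC_val_smul P' c (h2 y hy), map_mul, Algebra.smul_def, ← mul_sub, mul_div_assoc]
    exact mul_mem (M.algebraMap_mem c) e1

theorem BC.BC_mem_ring {f : L'} (hf : ∀ P' : Place K' L', (∀ g, ψ g ∈ P'.1) → f ∈ P'.1) :
    f ∈ BCring K' ψ := by
  let A := (BCring K' ψ).toSubring
  let I : Ideal A :=
    { carrier := {r | (r : L') * f ∈ A}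
      add_mem' := fun {r s} hr hs => by
        change ((r : L') + s) * f ∈ A
        rw [add_mul]
        exact add_mem hr hs
      zero_mem' := by simp
      smul_mem' := fun r s hs => by
        change ((r : L') * s) * f ∈ A
        rw [mul_assoc]
        exact mul_mem r.2 hs }
  by_contra hn
  obtain ⟨V, hV, hI⟩ := I.image_subset_nonunits_valuationSubring
    ((Ideal.ne_top_iff_one I).2 fun e => hn (one_mul f ▸ e))
  obtain ⟨r, hr, s, hs, h0, e⟩ := h.BC_frac f
  have h1 : s ∈ V.nonunits := hI ⟨⟨s, hs⟩, by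
    change s * f ∈ A
    rwa [e, mul_div_cancel₀ _ h0], rfl⟩
  let P' : Place K' L' := ⟨V, fun e => (V.mem_nonunits_iff_or.1 h1).elim h0 fun e' =>
    e' (e ▸ ValuationSubring.mem_top _), fun c => hV ((BCring K' ψ).algebraMap_mem c)⟩
  have h2 : ∀ g, ψ g ∈ P'.1 := fun g => hV (BCring_mem ψ g)
  obtain ⟨hR, h3⟩ := h.BC_gen h2
  obtain ⟨u, hu, h4, h5⟩ := h3 f (hf P' h2)
  exact h4 ((Place.val_eq_zero (hR u hu)).2 ((BC_nonunits P').1 (hI ⟨⟨u, hu⟩, h5, rfl⟩)))

theorem BC.BC_span {M : Set L} {f : L'} (hf : ∀ P' : Place K' L', (∀ g, ψ g ∈ P'.1) → f ∈ P'.1)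
    (hM : ∀ b : L, (∀ (P : Place K L) (P' : Place K' L') (m : ℤ), Over ψ P P' → P'.Ge f m →
      P.Ge b m) → b ∈ M) : f ∈ Submodule.span K' (ψ '' M) := by
  obtain ⟨n, e, b, he, rfl⟩ := h.BC_repr (h.BC_mem_ring hf)
  exact sum_mem fun l _ => Submodule.smul_mem _ _ (Submodule.subset_span
    ⟨b l, hM _ fun P P' m o hm => h.BC_ge_of_sum he o hm l, rfl⟩)

theorem BC.exists_cd {ι : Type} [Fintype ι] [DecidableEq ι] [Nonempty ι] (d : CD K L ι) :
    ∃ d' : CD K' L' ι, d'.x = ψ d.x ∧ (∀ i, Over ψ (d.pl i) (d'.pl i)) ∧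
      (∀ f, d'.exT (ψ f) = mapT φ (d.exT f)) ∧ d'.alg = bc φ d.alg ∧
      ∀ f, f ∈ d'.reg ↔ f ∈ Submodule.span K' (ψ '' d.reg) := by
  choose pl hpl using fun i => (h.exists_over (d.pl i)).exists
  have hx : d.x ≠ 0 := fun e => d.transcendental (e ▸ isAlgebraic_zero)
  obtain ⟨d', h1, h2⟩ := PR0.exists_cd (x := ψ d.x) (pl := pl)
    (fun i j e => d.inj (h.over_inj (hpl i) (e ▸ hpl j)))
    (fun i => ⟨(map_ne_zero ψ).2 hx, by rw [h.BC_ord_eq (hpl i) hx, d.ord_x]⟩) fun P' hP' => by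
      obtain ⟨P, o⟩ := (h.over_or P').resolve_right fun e => hP' (e _)
      obtain ⟨i, rfl⟩ := d.pole P (mt (o _).2 hP')
      exact ⟨i, (h.exists_over _).unique o (hpl i)⟩
  subst h2
  have h3 : ∀ f, d'.exT (ψ f) = mapT φ (d.exT f) := fun f => funext fun i => by
    change d'.ex i (ψ f) = LS.map φ (d.ex i f)
    have hT : ∀ (K : Type u) [Field K] (m : ℤ), LS.T K (-1) ^ (-m) = LS.T K m := by
      intro K _ m
      have h0 : ∀ n, LS.T K (-n) = (LS.T K n)⁻¹ := fun n =>
        eq_inv_of_mul_eq_one_left (by rw [← LS.T_add, neg_add_cancel, LS.T_zero])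
      obtain ⟨n, rfl | rfl⟩ := m.eq_nat_or_neg
      · rw [zpow_neg, zpow_natCast, LS.T_pow, ← h0]; simp
      · rw [neg_neg, zpow_natCast, LS.T_pow]; simp
    have key : ∀ k : ℕ, ∀ (m : ℤ) (f : L), (d.ex i f).Ge m →
        (d'.ex i (ψ f) - LS.map φ (d.ex i f)).Ge (m + k) := by
      intro k
      induction k with
      | zero =>
        intro m f hf n hn
        have h4 := (d'.ge_iff i _ _).1 ((h.ge_iff (hpl i) f m).2 ((d.ge_iff i _ _).2 hf))
        rw [LS.cf_sub, LS.cf_map, h4 n (by omega), hf n (by omega), map_zero, sub_zero]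
      | succ k ih =>
        intro m f hf
        have h4 := ih (m + 1) (f - (d.ex i f).cf m • d.x ^ (-m)) fun n hn => by
          rw [map_sub, map_smul, map_zpow₀, d.ex_x, hT, LS.cf_sub, LS.cf_smul, LS.cf_T]
          by_cases e : n = m
          · rw [if_pos e, e, mul_one, sub_self]
          · rw [if_neg e, hf n (by omega), mul_zero, sub_zero]
        simp only [map_sub, map_smul, map_zpow₀, h.BC_smul, LS.map_smul, ← h1, d.ex_x, d'.ex_x,
          LS.map_T, sub_sub_sub_cancel_right] at h4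
        exact h4.mono (by push_cast; omega)
    refine sub_eq_zero.1 (LS.eq_zero_of_ge fun n => ?_)
    obtain ⟨m, hm⟩ := (d.ex i f).exists_ge
    exact (key (m + n).toNat _ f hm).mono (by omega)
  have h4 : ∀ f, f ∈ d'.reg ↔ f ∈ Submodule.span K' (ψ '' d.reg) := fun f => by
    constructor
    · intro hf
      refine h.BC_span (fun P' hP' => hf P' ?_) fun b hb P hP => ?_
      · rintro ⟨i, rfl⟩
        exact (d.pl i).2.1 (top_unique fun g _ => (hpl i g).1 (hP' g))
      · obtain ⟨P', o⟩ := (h.exists_over P).exists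
        refine P.mem_iff.2 (hb P P' 0 o (P'.mem_iff.1 (hf P' ?_)))
        rintro ⟨i, rfl⟩
        exact hP ⟨i, h.over_inj (hpl i) o⟩
    · refine fun hf => Submodule.span_le (p := d'.reg.toSubmodule).2 ?_ hf
      rintro _ ⟨b, hb, rfl⟩ P' hP'
      obtain ⟨P, o⟩ | e := h.over_or P'
      · refine (o b).2 (hb P ?_)
        rintro ⟨i, rfl⟩
        exact hP' ⟨i, (h.exists_over _).unique (hpl i) o⟩
      · exact e b
  refine ⟨d', h1, hpl, h3, ?_, h4⟩
  have h5 : d'.reg = Algebra.adjoin K' (ψ '' d.reg) :=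
    Subalgebra.ext fun f => (h4 f).trans (BC_mem_adjoin ψ d.reg f).symm
  rw [CD.alg, h5, AlgHom.map_adjoin, bc, CD.alg, Subalgebra.coe_map, Set.image_image,
    Set.image_image]
  simp only [h3]

theorem BC.unique {L₂ : Type u} [Field L₂] [Algebra K' L₂] [Fact (IsFF K' L₂)] {ψ₂ : L →+* L₂}
    (h₂ : BC φ ψ₂) : ∃ e : L' ≃ₐ[K'] L₂, ∀ f, e (ψ f) = ψ₂ f := by
  obtain ⟨n, ⟨d⟩⟩ := BC_exists_cd (K := K) (L := L)
  obtain ⟨d₁, -, -, h1, h2, -⟩ := h.exists_cd d
  obtain ⟨d₂, -, -, h3, h4, -⟩ := h₂.exists_cd d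
  obtain ⟨e, he⟩ := d₁.exists_equiv d₂ (h2.trans h4.symm)
  exact ⟨e, fun f => d₂.exT_injective (by rw [he, h1, h3])⟩

theorem BC.genus_eq : genus K' L' = genus K L := by
  obtain ⟨n, ⟨d⟩⟩ := BC_exists_cd (K := K) (L := L)
  obtain ⟨d', -, -, -, h2, -⟩ := h.exists_cd d
  obtain ⟨J, hJ⟩ := d.exists_chart
  rw [← d.card_eq hJ, ← d'.card_eq (h2 ▸ hJ.bc φ)]

theorem BC.hw0_iff (p : ℕ) [Fact p.Prime] [CharP K p] : HW0 K' L' p ↔ HW0 K L p := by
  obtain ⟨n, ⟨d⟩⟩ := BC_exists_cd (K := K) (L := L)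
  obtain ⟨d', -, -, -, h2, -⟩ := h.exists_cd d
  obtain ⟨J, hJ⟩ := d.exists_chart
  have := charP_of_injective_ringHom φ.injective p
  let := φ.toAlgebra
  rw [d.hw0_iff p, d'.hw0_iff p, ← hJ.snil_iff (k := K) p 0, h2,
    ← (hJ.bc φ).snil_iff (k := K) p 0, hJ.coef_bc]
  have e : (hw K p J).map (MvPolynomial.aeval fun a => φ (coef 0 J d.alg a)) =
      ((hw K p J).map (MvPolynomial.aeval (coef 0 J d.alg))).map φ := by
    ext i j
    exact (MvPolynomial.comp_aeval_apply (coef 0 J d.alg) (Algebra.ofId K K') _).symm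
  rw [e]
  exact ⟨SNil.of_map φ.injective, fun h => h.map φ⟩

/-- Riemann-Roch spaces of divisors defined over `K` -/
theorem BC.mem_Lsp {D : Dv K L} {D' : Dv K' L'} (hD : ∀ P P', Over ψ P P' → D' P' = D P)
    (hD' : ∀ P', (∀ f, ψ f ∈ P'.1) → D' P' = 0) (f : L') :
    f ∈ Lsp D' ↔ f ∈ Submodule.span K' (ψ '' Lsp D) := by
  constructor
  · intro hf
    refine h.BC_span (fun P' hP' => P'.mem_iff.2 ?_) fun b hb P => ?_
    · simpa [hD' P' hP'] using hf P'
    · obtain ⟨P', o⟩ := (h.exists_over P).exists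
      exact hb P P' _ o (hD P P' o ▸ hf P')
  · refine fun hf => Submodule.span_le.2 ?_ hf
    rintro _ ⟨b, hb, rfl⟩ P'
    obtain ⟨P, o⟩ | e := h.over_or P'
    · rw [hD P P' o, h.ge_iff o]
      exact hb P
    · rw [hD' P' e, neg_zero]
      exact P'.mem_iff.1 (e b)

/-- a `K'`-valued point of `L` which is an embedding gives a place of `L'`, and conversely two
places trivial on `L` with the same values are equal -/
theorem BC.exists_generic (θ : L →+* K') (hθ : ∀ c, θ (algebraMap K L c) = φ c) :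
    ∃! P' : Place K' L', ∀ f, ψ f ∈ P'.1 ∧ P'.val (ψ f) = θ f := by
  refine existsUnique_of_exists_of_unique ?_ fun P₁ P₂ o₁ o₂ => Place.eq_of_le fun f hf => ?_
  · obtain ⟨V, h1, h2⟩ := h.BC_ext ⊤ (θ.comp (⊤ : Subalgebra K L).val) hθ
    obtain ⟨x, hx, -⟩ := hL.out
    let P' : Place K' L' := ⟨V, fun e =>
      (V.mem_nonunits_iff_or.1 (h2 ⟨x, trivial⟩).2).elim
        (fun e' => transcendental_iff.1 (h.BC_tr hx) ⟨_, (sub_eq_zero.1 e').symm⟩)
        fun e' => e' (e ▸ ValuationSubring.mem_top _), h1⟩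
    exact ⟨P', fun f => ⟨(h2 ⟨f, trivial⟩).1,
      Place.val_eq ((BC_nonunits P').1 (h2 ⟨f, trivial⟩).2)⟩⟩
  · obtain ⟨hR₁, h1⟩ := h.BC_gen fun f => (o₁ f).1
    obtain ⟨hR₂, -⟩ := h.BC_gen fun f => (o₂ f).1
    obtain ⟨s, hs, h2, h3⟩ := h1 f hf
    refine BCloc_le hR₂ ⟨s, hs, ?_, h3⟩
    obtain ⟨n, e, b, -, rfl⟩ := h.BC_repr hs
    rw [BC_val_sum _ _ fun l _ => BC_smul_mem _ _ (o₁ _).1] at h2
    rw [BC_val_sum _ _ fun l _ => BC_smul_mem _ _ (o₂ _).1]
    simpa only [BC_val_smul _ _ (o₁ _).1, BC_val_smul _ _ (o₂ _).1, (o₁ _).2, (o₂ _).2] using h2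

end PR0
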