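import Pool.Agent.Work.MP_da2620_ag.Arc

/-!
# Genus two curves `y ^ 2 = ∏ (x - α i)`: definitions for the connectedness theorem
-/

namespace PR0

open Polynomial

universe u

section
variable {R : Type u} [CommRing R]

/-- The quintic with roots `α i`. -/
noncomputable def fz (α : Fin 5 → R) : R[X] := ∏ i, (X - C (α i))

/-- The Hasse-Witt matrix of `y ^ 2 = f` in the basis `y / x`, `y / x ^ 2`:
`(y / x ^ (i+1)) ^ p = ∑ j, Phi j i * y / x ^ (j+1)` in `H¹`. -/
noncomputable def Phi (p : ℕ) (f : R[X]) : Matrix (Fin 2) (Fin 2) R :=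
  Matrix.of fun j i => (f ^ (p / 2)).coeff ((i + 1) * p - (j + 1))

/-- Frobenius is nilpotent. -/
def Nil2 (p : ℕ) (f : R[X]) : Prop := Phi p f * (Phi p f).map (· ^ p) = 0

/-- The Legendre curve `y ^ 2 = x (x - 1) (x - l)` is supersingular. -/
def SS (p : ℕ) (l : R) : Prop := ((X * (X - 1) * (X - C l)) ^ (p / 2)).coeff (p - 1) = 0

end

variable {k : Type u} [Field k]

/-- Good reduction: the roots are integral with distinct residues `β i`. -/
def Ty1 (F : Fin 5 → HF k) (β : Fin 5 → k) : Prop :=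
  Function.Injective β ∧ ∃ F' : Fin 5 → HO k, (∀ i, F i = F' i) ∧ ∀ i, hres (F' i) = β i

/-- Reduction to two elliptic curves: the inner one `η ^ 2 = n ξ (ξ - 1) (ξ - l)` (`x = ε ξ`,
node at `ξ = ∞`) and the outer one `w ^ 2 = x (x - 1) (x - n)` (`y = x w`, node at `x = 0`). -/
def Ty2 (F : Fin 5 → HF k) (l n : k) : Prop :=
  ∃ ε l' n' : HO k, ε ≠ 0 ∧ hres ε = 0 ∧ hres l' = l ∧ hres n' = n ∧
    F = ![0, (ε : HF k), ε * l', 1, n']

/-- The two configurations become affinely equivalent, up to order, over a common extension. -/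
def Iso5 (k : Type u) [Field k] {K K' : Type u} [Field K] [Field K'] [Algebra k K] [Algebra k K']
    (F : Fin 5 → K) (F' : Fin 5 → K') : Prop :=
  ∃ (Ω : Type u) (_ : Field Ω) (_ : Algebra k Ω) (_ : IsAlgClosed Ω) (φ : K →ₐ[k] Ω)
    (φ' : K' →ₐ[k] Ω) (π : Equiv.Perm (Fin 5)) (a c : Ω),
    a ≠ 0 ∧ ∀ i, φ (F (π i)) = a * φ' (F' i) + c

/-- Smooth of `p`-rank zero. -/
def Nil5 (p : ℕ) {K : Type u} [Field K] (F : Fin 5 → K) : Prop :=
  Function.Injective F ∧ Nil2 p (fz F)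

/-- The curve also degenerates to two supersingular elliptic curves. -/
def Bd5 (p : ℕ) (F : Fin 5 → HF k) : Prop :=
  ∃ (G : Fin 5 → HF k) (l n : k), SS p l ∧ SS p n ∧ Nil5 p G ∧ Ty2 G l n ∧ Iso5 k F G

end PR0
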