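import Pool.Agent.Work.MP_da2620_ag.Sp
import Pool.Agent.Work.MP_da2620_ag.ZDefs

attribute [local instance 2000] DivisionSemiring.to_moduleIsTorsionFree Module.Free.of_divisionRing
  instFaithfulSMul_1
attribute [local instance 1500] IsFractionRing.instFaithfulSMul

/-!
# Hyperelliptic function fields `y ^ 2 = f (x)`, `deg f = 2 g + 1`

`Y ^ 2 - f` is irreducible over `K(x)` since the degree of `f` is odd.  At a pole of `x`, `2 ord y = (2g+1) ord x`, and
`dg_dvInf` gives degree two, so there is one pole, of order two.  For `f` separable and `2 ≠ 0`: an integral element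
`a + b y` (`a, b ∈ K(x)`) has trace `2 a` and norm `a² - b² f` in `K[x]`, so `a, b ∈ K[x]`.  With `S = {∞}`,
`H¹ = L / (K[x, y] + regOut Sᶜ)` (`genus_eq`, `hw0_iff`) has the basis `y / x ^ (i + 1)`, `i < g`: the orders at `∞` of
`x ^ j` and `y x ^ j` (`j ∈ ℤ`) are the even and the odd integers; `y x ^ j` is regular at `∞` iff `j ≤ -(g + 1)`.
`(y / x ^ (i + 1)) ^ p = y f ^ (p / 2) / x ^ ((i + 1) p)`.
`exists_chart`: for `f(c) ≠ 0` put `e = 1 / (x - c)`; apply the same trace and norm argument to `(y e ^ (g+1))² = `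
a separable polynomial in `e` of degree `2 g + 2`.
-/

namespace PR0

open Polynomial

universe u

variable {K L : Type u} [Field K] [Field L] [Algebra K L]

/-- `L = K(x, y)` with `y ^ 2 = f (x)`. -/
structure IsHyp (f : K[X]) (x y : L) : Prop where
  trans : Transcendental K x
  eqn : y ^ 2 = aeval x f
  gen : IntermediateField.adjoin K {x, y} = ⊤

/-- The Hasse-Witt matrix. -/
noncomputable def PhiG (p g : ℕ) {R : Type u} [CommRing R] (f : R[X]) : Matrix (Fin g) (Fin g) R :=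
  Matrix.of fun j i =>
    if (j : ℕ) + 1 ≤ (i + 1) * p then (f ^ (p / 2)).coeff ((i + 1) * p - (j + 1)) else 0

/-- `f` is not a square in the field of rational functions. -/
def HypNS (f : K[X]) : Prop := ∀ A B : K[X], A ^ 2 = B ^ 2 * f → B = 0

theorem HypNS.of_odd {f : K[X]} (h : Odd f.natDegree) : HypNS f := fun A B e => by
  by_contra hB
  have hf : f ≠ 0 := by rintro rfl; simp at h
  have := congrArg natDegree e
  rw [natDegree_mul (pow_ne_zero _ hB) hf, natDegree_pow, natDegree_pow] at this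
  obtain ⟨n, hn⟩ := h
  omega

theorem Hyp_dvd {f B D : K[X]} (hs : Squarefree f) (hD : D ≠ 0) (h : D ^ 2 ∣ B ^ 2 * f) : D ∣ B := by
  obtain ⟨D', B', c, hc, rfl, rfl⟩ := UniqueFactorizationMonoid.exists_reduced_factors D hD B
  rw [mul_pow, mul_pow, mul_assoc,
    mul_dvd_mul_iff_left (pow_ne_zero _ (left_ne_zero_of_mul hD))] at h
  exact mul_dvd_mul_left _ (hs D' (sq D' ▸ hc.pow.dvd_of_dvd_mul_left h)).dvd

theorem HypNS.of_squarefree {f : K[X]} (hs : Squarefree f) (hu : ¬ IsUnit f) : HypNS f :=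
  fun A B e => by
  by_contra hB
  obtain ⟨C, rfl⟩ : B ∣ A := Hyp_dvd squarefree_one hB ⟨f, by rw [mul_one, e]⟩
  rw [mul_pow] at e
  have e' := mul_left_cancel₀ (pow_ne_zero 2 hB) e
  exact hu (e' ▸ (hs C (by rw [← e', sq])).pow 2)

section
variable {f : K[X]} {x y : L}

theorem IsHyp.Hyp_inj (h : IsHyp f x y) : Function.Injective (aeval x : K[X] →ₐ[K] L) :=
  transcendental_iff_injective.1 h.trans

theorem IsHyp.Hyp_ne (h : IsHyp f x y) {D : K[X]} (hD : D ≠ 0) : aeval x D ≠ 0 :=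
  (map_ne_zero_iff _ h.Hyp_inj).2 hD

theorem IsHyp.Hyp_indep (hn : HypNS f) (h : IsHyp f x y) {A B : K[X]}
    (e : aeval x A + aeval x B * y = 0) : A = 0 ∧ B = 0 := by
  have hB : B = 0 := hn A B (h.Hyp_inj (by
    rw [map_mul, map_pow, map_pow, ← h.eqn]
    linear_combination (aeval x A - aeval x B * y) * e))
  exact ⟨h.Hyp_inj (by simpa [hB] using e), hB⟩

theorem IsHyp.Hyp_repr (hn : HypNS f) (h : IsHyp f x y) (a : L) :
    ∃ A B D : K[X], D ≠ 0 ∧ aeval x D * a = aeval x A + aeval x B * y := by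
  have ha : a ∈ IntermediateField.adjoin K {x, y} := h.gen ▸ trivial
  induction ha using IntermediateField.adjoin_induction with
  | mem a ha =>
    rcases ha with rfl | rfl
    · exact ⟨X, 0, 1, one_ne_zero, by simp⟩
    · exact ⟨0, 1, 1, one_ne_zero, by simp⟩
  | algebraMap c => exact ⟨C c, 0, 1, one_ne_zero, by simp⟩
  | add a b _ _ ha hb =>
    obtain ⟨A, B, D, h0, h1⟩ := ha
    obtain ⟨A', B', D', h2, h3⟩ := hb
    refine ⟨D' * A + D * A', D' * B + D * B', D * D', mul_ne_zero h0 h2, ?_⟩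
    simp only [map_add, map_mul]
    linear_combination aeval x D' * h1 + aeval x D * h3
  | inv a _ ha =>
    obtain ⟨A, B, D, h0, h1⟩ := ha
    rcases eq_or_ne a 0 with rfl | ha
    · exact ⟨0, 0, 1, one_ne_zero, by simp⟩
    refine ⟨D * A, -(D * B), A ^ 2 - B ^ 2 * f, fun e => ?_, ?_⟩
    · obtain rfl := hn A B (sub_eq_zero.1 e)
      obtain rfl : A = 0 := by simpa using e
      exact mul_ne_zero (h.Hyp_ne h0) ha (by simpa using h1)
    · simp only [map_sub, map_mul, map_pow, map_neg, ← h.eqn]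
      rw [mul_inv_eq_iff_eq_mul₀ ha]
      linear_combination (aeval x B * y - aeval x A) * h1
  | mul a b _ _ ha hb =>
    obtain ⟨A, B, D, h0, h1⟩ := ha
    obtain ⟨A', B', D', h2, h3⟩ := hb
    refine ⟨A * A' + B * B' * f, A * B' + A' * B, D * D', mul_ne_zero h0 h2, ?_⟩
    simp only [map_add, map_mul, ← h.eqn]
    linear_combination aeval x D' * b * h1 + (aeval x A + aeval x B * y) * h3

theorem IsHyp.Hyp_hom (hn : HypNS f) (h : IsHyp f x y) {L' : Type u} [Field L'] (e : K[X] →+* L')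
    (he : Function.Injective e) {y' : L'} (hy : y' ^ 2 = e f) :
    ∃ ψ : L →+* L', (∀ A, ψ (aeval x A) = e A) ∧ ψ y = y' := by
  choose A B D h0 h1 using h.Hyp_repr hn
  have hD : ∀ a, e (D a) ≠ 0 := fun a => (map_ne_zero_iff _ he).2 (h0 a)
  obtain ⟨ψ, hψ⟩ : ∃ ψ : L → L', ∀ a, e (D a) * ψ a = e (A a) + e (B a) * y' :=
    ⟨fun a => (e (A a) + e (B a) * y') / e (D a), fun a => mul_div_cancel₀ _ (hD a)⟩
  have key : ∀ a A' B' D', aeval x D' * a = aeval x A' + aeval x B' * y →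
      e D' * ψ a = e A' + e B' * y' := fun a A' B' D' h2 => by
    obtain ⟨e1, e2⟩ := h.Hyp_indep hn (A := D' * A a - D a * A') (B := D' * B a - D a * B') (by
      simp only [map_sub, map_mul]
      linear_combination aeval x (D a) * h2 - aeval x D' * h1 a)
    have e3 := congrArg e e1
    have e4 := congrArg e e2
    simp only [map_sub, map_mul, map_zero] at e3 e4
    refine mul_left_cancel₀ (hD a) ?_
    linear_combination e D' * hψ a + e3 + y' * e4
  have k1 : ∀ A, ψ (aeval x A) = e A := fun A => by simpa using key (aeval x A) A 0 1 (by simp)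
  refine ⟨⟨⟨⟨ψ, by simpa using k1 1⟩, fun a b => ?_⟩, by simpa using k1 0, fun a b => ?_⟩, k1,
    by simpa using key y 0 1 1 (by simp)⟩
  · have := key (a * b) (A a * A b + B a * B b * f) (A a * B b + A b * B a) (D a * D b) (by
      simp only [map_add, map_mul, ← h.eqn]
      linear_combination aeval x (D b) * b * h1 a + (aeval x (A a) + aeval x (B a) * y) * h1 b)
    simp only [map_add, map_mul, ← hy] at this
    refine mul_left_cancel₀ (mul_ne_zero (hD a) (hD b)) ?_
    linear_combination this - e (D b) * ψ b * hψ a - (e (A a) + e (B a) * y') * hψ b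
  · have := key (a + b) (D b * A a + D a * A b) (D b * B a + D a * B b) (D a * D b) (by
      simp only [map_add, map_mul]
      linear_combination aeval x (D b) * h1 a + aeval x (D a) * h1 b)
    simp only [map_add, map_mul] at this
    refine mul_left_cancel₀ (mul_ne_zero (hD a) (hD b)) ?_
    linear_combination this - e (D b) * hψ a - e (D a) * hψ b

theorem IsHyp.Hyp_bc (hn : HypNS f) (h : IsHyp f x y) {K' L' : Type u}
    [Field K'] [Field L'] [Algebra K' L'] (φ : K →+* K') {x' y' : L'} (h' : IsHyp (f.map φ) x' y') :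
    ∃ ψ : L →+* L', BC φ ψ ∧ ψ x = x' ∧ ψ y = y' := by
  obtain ⟨ψ, h1, h2⟩ := h.Hyp_hom hn (((aeval x' : K'[X] →ₐ[K'] L') : K'[X] →+* L').comp
    (mapRingHom φ)) (h'.Hyp_inj.comp (map_injective φ φ.injective)) (y' := y') h'.eqn
  have h3 : ψ x = x' := by simpa using h1 X
  refine ⟨ψ, ⟨fun c => by simpa using h1 (C c), fun a => ?_⟩, h3, h2⟩
  have ha : a ∈ IntermediateField.adjoin K' {x', y'} := h'.gen ▸ trivial
  refine Subfield.closure_mono (Set.union_subset Set.subset_union_right ?_) ha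
  rintro _ (rfl | rfl)
  · exact Or.inl ⟨_, h3⟩
  · exact Or.inl ⟨_, h2⟩

theorem IsHyp.Hyp_gen (h : IsHyp f x y) {x' y' : L}
    (hx : x ∈ IntermediateField.adjoin K {x', y'}) (hy : y ∈ IntermediateField.adjoin K {x', y'}) :
    IntermediateField.adjoin K {x', y'} = ⊤ :=
  top_unique (h.gen.ge.trans (IntermediateField.adjoin_le_iff.2 (Set.pair_subset hx hy)))

theorem Hyp_mem₁ (x y : L) : x ∈ IntermediateField.adjoin K {x, y} :=
  IntermediateField.subset_adjoin _ _ (Or.inl rfl)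

theorem Hyp_mem₂ (x y : L) : y ∈ IntermediateField.adjoin K {x, y} :=
  IntermediateField.subset_adjoin _ _ (Or.inr rfl)

theorem IsHyp.Hyp_conj (hn : HypNS f) (h : IsHyp f x y) :
    ∃ σ : L →+* L, BC (RingHom.id K) σ ∧ (∀ A : K[X], σ (aeval x A) = aeval x A) ∧ σ y = -y := by
  obtain ⟨σ, h1, h2, h3⟩ := h.Hyp_bc hn (RingHom.id K) (x' := x) (y' := -y)
    ⟨h.trans, by rw [neg_sq, map_id, h.eqn],
      h.Hyp_gen (Hyp_mem₁ _ _) (neg_mem_iff.1 (Hyp_mem₂ _ _))⟩
  refine ⟨σ, h1, fun A => ?_, h3⟩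
  exact (aeval_algHom_apply (⟨σ, h1.comm⟩ : L →ₐ[K] L) x A).symm.trans (congrArg (aeval · A) h2)

theorem IsHyp.Hyp_finrank (hn : HypNS f) (h : IsHyp f x y) :
    Module.finrank (IntermediateField.adjoin K {x}) L = 2 := by
  have hm : ∀ A : K[X], aeval x A ∈ IntermediateField.adjoin K {x} := fun A =>
    IntermediateField.algebra_adjoin_le_adjoin K _ (aeval_mem_adjoin_singleton K x)
  have hd : ∀ s : IntermediateField.adjoin K {x}, ∃ A D : K[X], D ≠ 0 ∧
      aeval x D * s = aeval x A := fun s => by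
    obtain ⟨A, D, e⟩ := (IntermediateField.mem_adjoin_simple_iff K s.1).1 s.2
    rcases eq_or_ne D 0 with rfl | hD
    · exact ⟨0, 1, one_ne_zero, by simp [e]⟩
    · exact ⟨A, D, hD, by rw [e, mul_div_cancel₀ _ (h.Hyp_ne hD)]⟩
  have li : LinearIndependent (IntermediateField.adjoin K {x}) ![(1 : L), y] := by
    refine LinearIndependent.pair_iff.2 fun s t e => ?_
    obtain ⟨A, D, h1, h2⟩ := hd s
    obtain ⟨B, D', h3, h4⟩ := hd t
    change (s : L) * 1 + (t : L) * y = 0 at e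
    obtain ⟨e1, e2⟩ := h.Hyp_indep hn (A := D' * A) (B := D * B) (by
      simp only [map_mul, ← h2, ← h4]
      linear_combination aeval x D * aeval x D' * e)
    rw [(mul_eq_zero.1 e1).resolve_left h3, map_zero] at h2
    rw [(mul_eq_zero.1 e2).resolve_left h1, map_zero] at h4
    exact ⟨Subtype.ext ((mul_eq_zero.1 h2).resolve_left (h.Hyp_ne h1)),
      Subtype.ext ((mul_eq_zero.1 h4).resolve_left (h.Hyp_ne h3))⟩
  refine (Module.finrank_eq_card_basis (Module.Basis.mk li fun a _ => ?_)).trans (by simp)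
  obtain ⟨A, B, D, h0, h1⟩ := h.Hyp_repr hn a
  refine (Submodule.mem_span_range_iff_exists_fun _).2
    ⟨![⟨_, div_mem (hm A) (hm D)⟩, ⟨_, div_mem (hm B) (hm D)⟩], ?_⟩
  rw [Fin.sum_univ_two]
  change aeval x A / aeval x D * 1 + aeval x B / aeval x D * y = a
  have := h.Hyp_ne h0
  field_simp
  exact h1.symm

end

theorem exists_isHyp (f : K[X]) (h : Odd f.natDegree) : ∃ (C : FFd K) (x y : C.L), IsHyp f x y := by
  obtain ⟨x, hx⟩ : ∃ x : AlgebraicClosure (RatFunc K), Transcendental K x :=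
    ⟨algebraMap (RatFunc K) _ RatFunc.X, (transcendental_algebraMap_iff
      (algebraMap (RatFunc K) _).injective).2 RatFunc.transcendental_X⟩
  obtain ⟨y, hy⟩ := IsAlgClosed.exists_pow_nat_eq (aeval x f) two_pos
  have H : IsHyp f (⟨x, Hyp_mem₁ x y⟩ : IntermediateField.adjoin K {x, y}) ⟨y, Hyp_mem₂ x y⟩ := by
    refine ⟨(transcendental_algebraMap_iff (A := AlgebraicClosure (RatFunc K))
      Subtype.val_injective).1 hx, Subtype.ext (hy.trans (aeval_algHom_apply (IntermediateField.val _)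
        (⟨x, Hyp_mem₁ x y⟩ : IntermediateField.adjoin K {x, y}) f)),
      IntermediateField.lift_injective _ ?_⟩
    rw [IntermediateField.lift_adjoin, IntermediateField.lift_top, Set.image_pair]
  have : Fact (IsFF K (IntermediateField.adjoin K {x, y})) := ⟨_, H.trans,
    Module.finite_of_finrank_pos (by rw [H.Hyp_finrank (.of_odd h)]; exact two_pos)⟩
  exact ⟨⟨_⟩, _, _, H⟩

theorem IsHyp.exists_hom {f : K[X]} (hf : Odd f.natDegree) {x y : L} (h : IsHyp f x y) {K' L' : Type u}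
    [Field K'] [Field L'] [Algebra K' L'] (φ : K →+* K') {x' y' : L'} (h' : IsHyp (f.map φ) x' y') :
    ∃ ψ : L →+* L', BC φ ψ ∧ ψ x = x' ∧ ψ y = y' := by
  exact h.Hyp_bc (.of_odd hf) φ h'

theorem IsHyp.indep {f : K[X]} (hf : Odd f.natDegree) {x y : L} (h : IsHyp f x y) {A B : K[X]}
    (e : aeval x A + aeval x B * y = 0) : A = 0 ∧ B = 0 := by
  exact h.Hyp_indep (.of_odd hf) e

theorem Hyp_natDegree (F : Fin 5 → K) : (fz F).natDegree = 5 := by
  rw [fz, natDegree_prod_of_monic _ _ fun i _ => monic_X_sub_C _]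
  simp

theorem odd_fz (F : Fin 5 → K) : Odd (fz F).natDegree := by
  rw [Hyp_natDegree]; decide
theorem natDegree_fz (F : Fin 5 → K) : (fz F).natDegree = 5 := by
  exact Hyp_natDegree F
theorem map_fz {R R' : Type u} [CommRing R] [CommRing R'] (φ : R →+* R') (F : Fin 5 → R) :
    (fz F).map φ = fz fun i => φ (F i) := by
  simp [fz, Polynomial.map_prod]
theorem nil2_iff (p : ℕ) (hp : 2 ≤ p) (f : K[X]) : Nil2 p f ↔ SNil p (PhiG p 2 f) := by
  have e0 : PhiG p 2 f = Phi p f := Matrix.ext fun j i =>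
    if_pos ((Nat.succ_le_of_lt j.2).trans (hp.trans (Nat.le_mul_of_pos_left _ i.1.succ_pos)))
  have e : SNil p (Phi p f) ↔ Phi p f * (Phi p f * ((1 : Matrix (Fin 2) (Fin 2) K).map
      (· ^ p))).map (· ^ p) = 0 := Iff.rfl
  rw [e0, e, Nil2, Matrix.map_one (fun a : K => a ^ p) (zero_pow (by omega)) (one_pow p), mul_one]

/-- The genus two curve of a configuration. -/
noncomputable def hyp (F : Fin 5 → K) : FFd K := (exists_isHyp (fz F) (odd_fz F)).choose
theorem exists_hyp (F : Fin 5 → K) : ∃ x y : (hyp F).L, IsHyp (fz F) x y :=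
  (exists_isHyp (fz F) (odd_fz F)).choose_spec

variable [IsAlgClosed K]

section
variable [Fact (IsFF K L)] {f : K[X]} {x y : L} {g : ℕ}

theorem Hyp_val {P : Place K L} (hx : x ∈ P.1) (A : K[X]) :
    aeval x A ∈ P.1 ∧ P.val (aeval x A) = A.eval (P.val x) := by
  obtain ⟨σ, hσ⟩ := P.exists_ev { P.1.toSubring with algebraMap_mem' := P.2.2 } fun _ h => h
  have e := aeval_algHom_apply (Subalgebra.val { P.1.toSubring with algebraMap_mem' := P.2.2 })
    ⟨x, hx⟩ A
  refine ⟨e ▸ Subtype.property _, (congrArg P.val e).trans ((hσ _).symm.trans ?_)⟩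
  rw [← aeval_algHom_apply, hσ, coe_aeval_eq_eval]

theorem Hyp_pole {P : Place K L} {a : L} : a ∉ P.1 ↔ a ≠ 0 ∧ P.ord a < 0 := by
  rw [Place.mem_iff, Place.Ge, not_or, not_le]

theorem Hyp_ord {P : Place K L} (hx : x ∉ P.1) (n : ℕ) : ∀ A : K[X], A ≠ 0 → A.natDegree = n →
    aeval x A ≠ 0 ∧ P.ord (aeval x A) = n * P.ord x := by
  obtain ⟨x0, x1⟩ := Hyp_pole.1 hx
  induction n with
  | zero =>
    intro A h0 h1
    obtain ⟨c, rfl⟩ := natDegree_eq_zero.1 h1
    have hc : c ≠ 0 := by rintro rfl; simp at h0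
    simp [hc, P.ord_const hc]
  | succ n ih =>
    intro A h0 h1
    obtain ⟨a1, a2⟩ := ih A.divX (fun e => by
      rw [divX_eq_zero_iff] at e
      rw [e, natDegree_C] at h1
      omega) (by rw [natDegree_divX_eq_natDegree_tsub_one, h1]; rfl)
    have e : P.ord (aeval x A.divX * x) = (n + 1 : ℕ) * P.ord x := by
      rw [P.ord_mul a1 x0, a2]; push_cast; ring
    have := Place.ord_add_of_lt (P := P) (mul_ne_zero a1 x0) (g := algebraMap K L (A.coeff 0))
      ((P.mem_iff.1 (P.2.2 _)).mono (by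
        rw [e]; exact mul_neg_of_pos_of_neg (Int.natCast_pos.2 n.succ_pos) x1))
    rw [e] at this
    rw [← divX_mul_X_add A, map_add, map_mul, aeval_X, aeval_C]
    exact this

theorem Hyp_deg (hx : Transcendental K x) (s : Finset (Place K L)) :
    ∑ P ∈ s, max (-P.ord x) 0 ≤ (Module.finrank (IntermediateField.adjoin K {x}) L : ℤ) := by
  classical
  have x0 : x ≠ 0 := by rintro rfl; exact hx isAlgebraic_zero
  rw [← dg_dvInf hx, dg, Finsupp.sum_of_support_subset _
    (Finset.subset_union_right (s₁ := s)) _ fun _ _ => rfl]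
  simp only [dvInf_apply x0]
  exact Finset.sum_le_sum_of_subset_of_nonneg Finset.subset_union_left fun _ _ _ => le_max_right _ _

theorem Hyp_sq_mem {P : Place K L} (h : y ^ 2 ∈ P.1) : y ∈ P.1 := by
  by_contra h'
  obtain ⟨y0, y1⟩ := Hyp_pole.1 h'
  have := (P.mem_iff.1 h).resolve_left (pow_ne_zero _ y0)
  rw [P.ord_pow y0] at this
  omega

theorem Hyp_rat (hx : Transcendental K x) {a : L} (ha : a ∈ regOut (poles K x)) {A D : K[X]}
    (hD : D ≠ 0) (h : aeval x D * a = aeval x A) : D ∣ A := by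
  obtain ⟨D', A', c, hc, rfl, rfl⟩ := UniqueFactorizationMonoid.exists_reduced_factors D hD A
  refine mul_dvd_mul_left _ (IsUnit.dvd ?_)
  rw [map_mul, map_mul, mul_assoc] at h
  have h' := mul_left_cancel₀ ((map_ne_zero_iff _ (transcendental_iff_injective.1 hx)).2
    (left_ne_zero_of_mul hD)) h
  by_contra hu
  obtain ⟨r, hr⟩ := IsAlgClosed.exists_root D' fun e => hu (isUnit_iff_degree_eq_zero.2 e)
  obtain ⟨P, p1, rfl⟩ := exists_place_val hx r
  have := congrArg P.val h'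
  rw [Place.val_mul (Hyp_val p1 _).1 (ha P fun e => e p1), (Hyp_val p1 _).2, (Hyp_val p1 _).2,
    hr.eq_zero, zero_mul] at this
  exact not_isUnit_X_sub_C _ (hc (dvd_iff_isRoot.2 hr) (dvd_iff_isRoot.2 this.symm))

theorem IsHyp.Hyp_reg (h : IsHyp f x y) (A B : K[X]) :
    aeval x A + aeval x B * y ∈ regOut (poles K x) := fun _ hP =>
  add_mem (Hyp_val (not_not.1 hP) A).1 (mul_mem (Hyp_val (not_not.1 hP) B).1
    (Hyp_sq_mem (h.eqn ▸ (Hyp_val (not_not.1 hP) f).1)))

theorem IsHyp.Hyp_mem_reg (h : IsHyp f x y) (h2 : (2 : K) ≠ 0) (hn : HypNS f) (hs : Squarefree f)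
    {a : L} : a ∈ regOut (poles K x) ↔ ∃ A B : K[X], a = aeval x A + aeval x B * y := by
  refine ⟨fun ha => ?_, fun ⟨A, B, e⟩ => e ▸ h.Hyp_reg A B⟩
  obtain ⟨σ, s1, s2, s3⟩ := h.Hyp_conj hn
  have ha' : σ a ∈ regOut (poles K x) := fun P hP => (s1.over_or P).elim
    (fun ⟨Q, o⟩ => (o a).2 (ha Q fun e => e ((o x).1 (by
      rw [show σ x = x by simpa using s2 X]; exact not_not.1 hP)))) fun e => e a
  obtain ⟨A, B, D, h0, h1⟩ := h.Hyp_repr hn a
  have h3 := congrArg σ h1
  rw [map_mul, map_add, map_mul, s2, s2, s2, s3] at h3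
  obtain ⟨A', rfl⟩ : D ∣ A := (isUnit_C.2 h2.isUnit).dvd_mul_left.1
    (Hyp_rat h.trans (add_mem ha ha') h0 (by
      rw [map_mul, aeval_C, map_ofNat]; linear_combination h1 + h3))
  have h4 : D ^ 2 ∣ (D * A') ^ 2 - B ^ 2 * f := Hyp_rat h.trans (mul_mem ha ha') (pow_ne_zero _ h0)
    (by
      rw [map_sub, map_mul _ (B ^ 2), map_pow, map_pow, map_pow, ← h.eqn]
      linear_combination aeval x D * σ a * h1 + (aeval x (D * A') + aeval x B * y) * h3)
  obtain ⟨B', rfl⟩ := Hyp_dvd hs h0 ((dvd_sub_right ⟨_, mul_pow _ _ _⟩).1 h4)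
  refine ⟨A', B', mul_left_cancel₀ (h.Hyp_ne h0) ?_⟩
  rw [h1, map_mul, map_mul]; ring

theorem IsHyp.exists_inf (h : IsHyp f x y) (hf : f.natDegree = 2 * g + 1) :
    ∃ b : Place K L, poles K x = {b} ∧ x ≠ 0 ∧ y ≠ 0 ∧ b.ord x = -2 ∧ b.ord y = -(2 * g + 1) := by
  classical
  have f0 : f ≠ 0 := by rintro rfl; simp at hf
  have y0 : y ≠ 0 := by rintro rfl; exact h.Hyp_ne f0 (by simpa using h.eqn.symm)
  have hr := h.Hyp_finrank (.of_odd ⟨g, hf⟩)
  have key : ∀ P : Place K L, x ∉ P.1 → 2 * P.ord y = (2 * g + 1) * P.ord x ∧ P.ord x = -2 := by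
    intro P hP
    have e1 := (Hyp_ord hP _ f f0 hf).2
    rw [← h.eqn, P.ord_pow y0] at e1
    have e2 := Hyp_deg h.trans {P}
    have e3 := (Hyp_pole.1 hP).2
    rw [hr, Finset.sum_singleton] at e2
    push_cast at e1 e2
    refine ⟨e1, ?_⟩
    by_contra e4
    rw [show P.ord x = -1 by omega] at e1
    omega
  obtain ⟨b, hb⟩ : ∃ b : Place K L, x ∉ b.1 := by
    by_contra! hc
    obtain ⟨c, hc⟩ := const_of_regular hc
    exact transcendental_iff.1 h.trans ⟨c, hc.symm⟩
  obtain ⟨b1, b2⟩ := key b hb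
  refine ⟨b, Set.eq_singleton_iff_unique_mem.2 ⟨hb, fun P hP => ?_⟩, (Hyp_pole.1 hb).1, y0, b2,
    by rw [b2] at b1; omega⟩
  by_contra hne
  have e2 := Hyp_deg h.trans {P, b}
  rw [hr, Finset.sum_pair hne, b2, (key P hP).2] at e2
  norm_num at e2
theorem IsHyp.finrank (h : IsHyp f x y) (hf : Odd f.natDegree) :
    Module.finrank (IntermediateField.adjoin K {x}) L = 2 := by
  exact h.Hyp_finrank (.of_odd hf)
theorem IsHyp.mem_reg (h : IsHyp f x y) (h2 : (2 : K) ≠ 0) (hf : Odd f.natDegree) (hs : f.Separable)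
    {a : L} : a ∈ regOut (poles K x) ↔ ∃ A B : K[X], a = aeval x A + aeval x B * y := by
  exact h.Hyp_mem_reg h2 (.of_odd hf) hs.squarefree
/-- The functions which are trivial in `H¹`. -/
def HypW (b : Place K L) : Submodule K L :=
  (regOut {b}).toSubmodule ⊔ (regOut ({b} : Set (Place K L))ᶜ).toSubmodule

omit [IsAlgClosed K] [Fact (IsFF K L)] in
theorem HypW_iff {b : Place K L} {a : L} :
    a ∈ HypW b ↔ ∃ r ∈ regOut {b}, a - r ∈ regOut ({b} : Set (Place K L))ᶜ := by
  rw [HypW, Submodule.mem_sup]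
  exact ⟨fun ⟨r, h1, s, h2, e⟩ => ⟨r, h1, by rw [← e, add_sub_cancel_left]; exact h2⟩,
    fun ⟨r, h1, h2⟩ => ⟨r, h1, _, h2, add_sub_cancel _ _⟩⟩

omit [IsAlgClosed K] [Fact (IsFF K L)] in
theorem Hyp_compl {b : Place K L} {a : L} : a ∈ regOut ({b} : Set (Place K L))ᶜ ↔ a ∈ b.1 :=
  ⟨fun h => h b fun e => e rfl, fun h P hP => by rw [not_not.1 hP]; exact h⟩

omit [IsAlgClosed K] [Fact (IsFF K L)] in
theorem HypW_pow (p : ℕ) [Fact p.Prime] [CharP K p] {b : Place K L} {a : L} (h : a ∈ HypW b) :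
    a ^ p ∈ HypW b := by
  have := charP_of_injective_algebraMap (algebraMap K L).injective p
  obtain ⟨r, h1, h2⟩ := HypW_iff.1 h
  exact HypW_iff.2 ⟨r ^ p, pow_mem h1 _, by rw [← sub_pow_char]; exact pow_mem h2 _⟩

/-- The classes `y / x ^ (i + 1)`. -/
noncomputable def HypU (K : Type u) [Field K] [Algebra K L] (x y : L) (g : ℕ) :
    (Fin g → K) →ₗ[K] L := Fintype.linearCombination K fun i => y / x ^ (i.1 + 1)

theorem Hyp_top {b : Place K L} (V : Submodule K L) (h0 : ∀ a ∈ b.1, a ∈ V)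
    (h1 : ∀ m : ℕ, ∃ t ∈ V, t ≠ 0 ∧ b.ord t = -(m + 1)) (a : L) : a ∈ V := by
  suffices h : ∀ (n : ℕ) (a : L), b.Ge a (-n) → a ∈ V from
    h (b.ord a).natAbs a (Or.inr (by omega))
  intro n
  induction n with
  | zero => exact fun a ha => h0 a (b.mem_iff.2 (by simpa using ha))
  | succ n ih =>
    intro a ha
    obtain ⟨t, t1, t2, t3⟩ := h1 n
    have e1 : a * t⁻¹ ∈ b.1 := b.mem_iff.2 ((ha.mul (m := n + 1)
      (Or.inr (by rw [b.ord_inv t2, t3, neg_neg]))).mono (by omega))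
    have e2 := ih _ (((Place.ge_sub_val e1).mul (m := -(n + 1)) (Or.inr t3.ge)).mono (by omega))
    rw [sub_mul, inv_mul_cancel_right₀ t2, ← Algebra.smul_def] at e2
    simpa using add_mem e2 (V.smul_mem (b.val (a * t⁻¹)) t1)

section
variable {b : Place K L} (h : IsHyp f x y) (hb : poles K x = {b}) (y0 : y ≠ 0) (ox : b.ord x = -2)
  (oy : b.ord y = -(2 * g + 1))
include h hb y0 ox oy

theorem IsHyp.Hyp_surj (a : L) : ∃ v, a - HypU K x y g v ∈ HypW b := by
  have hx : x ∉ b.1 := show b ∈ poles K x from hb ▸ rfl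
  have x0 := (Hyp_pole.1 hx).1
  have := Hyp_top (b := b) (HypW b ⊔ LinearMap.range (HypU K x y g))
    (fun a ha => Submodule.mem_sup_left (Submodule.mem_sup_right (Hyp_compl.2 ha))) (fun m => ?_) a
  · obtain ⟨r, hr, _, ⟨v, rfl⟩, rfl⟩ := Submodule.mem_sup.1 this
    exact ⟨v, by simpa using hr⟩
  have hr : ∀ A B : K[X], aeval x A + aeval x B * y ∈ HypW b ⊔ LinearMap.range (HypU K x y g) :=
    fun A B => Submodule.mem_sup_left (Submodule.mem_sup_left (hb ▸ h.Hyp_reg A B))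
  rcases Nat.even_or_odd' m with ⟨j, rfl | rfl⟩
  · rcases lt_or_ge j g with hj | hj
    · refine ⟨y / x ^ (g - j - 1 + 1), Submodule.mem_sup_right
        ⟨Pi.single ⟨g - j - 1, by omega⟩ 1, by simp [HypU]⟩, div_ne_zero y0 (pow_ne_zero _ x0), ?_⟩
      rw [div_eq_mul_inv, b.ord_mul y0 (inv_ne_zero (pow_ne_zero _ x0)),
        b.ord_inv (pow_ne_zero _ x0), b.ord_pow x0, ox, oy]
      omega
    · refine ⟨x ^ (j - g) * y, by simpa using hr 0 (X ^ (j - g)),
        mul_ne_zero (pow_ne_zero _ x0) y0, ?_⟩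
      rw [b.ord_mul (pow_ne_zero _ x0) y0, b.ord_pow x0, ox, oy]
      omega
  · refine ⟨x ^ (j + 1), by simpa using hr (X ^ (j + 1)) 0, pow_ne_zero _ x0, ?_⟩
    rw [b.ord_pow x0, ox]
    omega

omit h in
theorem Hyp_ge {A B : K[X]} (hA : b.Ge (aeval x A + aeval x B * y) (-(2 * g))) : B = 0 := by
  have hx : x ∉ b.1 := show b ∈ poles K x from hb ▸ rfl
  by_contra hB
  obtain ⟨b1, b2⟩ := Hyp_ord hx _ B hB rfl
  have b3 := b.ord_mul b1 y0
  rw [b2, ox, oy] at b3
  have b4 := mul_ne_zero b1 y0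
  rcases eq_or_ne A 0 with rfl | hA0
  · rw [map_zero, zero_add] at hA
    have := hA.resolve_left b4
    omega
  obtain ⟨a1, a2⟩ := Hyp_ord hx _ A hA0 rfl
  rw [ox] at a2
  rcases lt_or_gt_of_ne (show b.ord (aeval x A) ≠ b.ord (aeval x B * y) by omega) with e | e
  · obtain ⟨c1, c2⟩ := Place.ord_add_of_lt (P := b) a1 (g := aeval x B * y) (Or.inr e)
    have := hA.resolve_left c1
    omega
  · obtain ⟨c1, c2⟩ := Place.ord_add_of_lt (P := b) b4 (g := aeval x A) (Or.inr e)
    rw [add_comm] at hA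
    have := hA.resolve_left c1
    omega

theorem IsHyp.Hyp_inj_U (h2 : (2 : K) ≠ 0) (hn : HypNS f) (hs : Squarefree f) {v : Fin g → K}
    (hv : HypU K x y g v ∈ HypW b) : v = 0 := by
  have hx : x ∉ b.1 := show b ∈ poles K x from hb ▸ rfl
  have x0 := (Hyp_pole.1 hx).1
  obtain ⟨r, r1, r2⟩ := HypW_iff.1 hv
  obtain ⟨A, B, rfl⟩ := (h.Hyp_mem_reg h2 hn hs).1 (hb ▸ r1)
  have e : x ^ g * HypU K x y g v = aeval x (∑ i : Fin g, monomial (g - (i + 1)) (v i)) * y := by
    rw [HypU, Fintype.linearCombination_apply, map_sum, Finset.mul_sum, Finset.sum_mul]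
    refine Finset.sum_congr rfl fun i _ => ?_
    rw [aeval_monomial, Algebra.smul_def, pow_sub₀ _ x0 (show i.1 + 1 ≤ g from i.2)]
    ring
  have e2 := Hyp_ge hb y0 ox oy (A := -(X ^ g * A))
    (B := ∑ i : Fin g, monomial (g - (i + 1)) (v i) - X ^ g * B) (by
      have := Place.Ge.mul (P := b) (f := x ^ g) (n := -(2 * g))
        (Or.inr (by rw [b.ord_pow x0, ox]; omega)) (b.mem_iff.1 (Hyp_compl.1 r2))
      rw [mul_sub, e, add_zero] at this
      convert this using 1
      simp only [map_neg, map_sub, map_mul, map_pow, aeval_X]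
      ring)
  funext i
  have e3 := congrArg (coeff · (g - (i + 1))) e2
  simp only [coeff_sub, finsetSum_coeff, coeff_monomial, coeff_X_pow_mul'] at e3
  rw [if_neg (by omega), Finset.sum_eq_single i (fun j _ hj => if_neg fun e => hj (Fin.ext (by
    omega))) (by simp)] at e3
  simpa using e3

theorem IsHyp.Hyp_red (F : K[X]) (M : ℕ) : y * aeval x F / x ^ M -
    HypU K x y g (fun j => if j.1 + 1 ≤ M then F.coeff (M - (j + 1)) else 0) ∈ HypW b := by
  have hx : x ∉ b.1 := show b ∈ poles K x from hb ▸ rfl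
  have x0 := (Hyp_pole.1 hx).1
  induction F using Polynomial.induction_on' with
  | add F G hF hG =>
    convert add_mem hF hG using 1
    rw [show (fun j : Fin g => if j.1 + 1 ≤ M then (F + G).coeff (M - (j + 1)) else 0) =
      (fun j : Fin g => if j.1 + 1 ≤ M then F.coeff (M - (j + 1)) else 0) +
        fun j : Fin g => if j.1 + 1 ≤ M then G.coeff (M - (j + 1)) else 0 from
      funext fun j => by rw [Pi.add_apply]; split_ifs <;> simp, map_add, map_add]
    ring
  | monomial n c =>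
    by_cases h1 : n < M ∧ M ≤ n + g
    · rw [show (fun j : Fin g => if j.1 + 1 ≤ M then (monomial n c).coeff (M - (j + 1)) else 0) =
        Pi.single ⟨M - n - 1, by omega⟩ c from funext fun j => by
          rw [coeff_monomial, Pi.single_apply, ← ite_and]
          exact if_congr (by rw [Fin.ext_iff]; simp only; omega) rfl rfl]
      convert (HypW b).zero_mem
      obtain ⟨m, rfl⟩ := Nat.exists_eq_add_of_lt h1.1
      simp only [HypU, Fintype.linearCombination_apply_single, aeval_monomial, Algebra.smul_def,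
        show n + m + 1 - n - 1 = m by omega]
      field_simp
      ring
    rw [show (fun j : Fin g => if j.1 + 1 ≤ M then (monomial n c).coeff (M - (j + 1)) else 0) = 0
      from funext fun j => by rw [coeff_monomial, ← ite_and]; exact if_neg (by omega), map_zero,
      sub_zero, aeval_monomial]
    rcases le_or_gt M n with h2 | h2
    · have := h.Hyp_reg 0 (monomial (n - M) c)
      rw [hb, map_zero, zero_add, aeval_monomial, pow_sub₀ _ x0 h2] at this
      refine Submodule.mem_sup_left ((Subalgebra.mem_toSubmodule _).2 ?_)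
      convert this using 1
      ring
    · refine Submodule.mem_sup_right (Hyp_compl.2 ?_)
      obtain ⟨m, rfl⟩ := Nat.exists_eq_add_of_lt h2
      rw [show y * (algebraMap K L c * x ^ n) / x ^ (n + m + 1) =
        algebraMap K L c * (y * (x ^ (m + 1))⁻¹) by field_simp; ring]
      refine mul_mem (b.2.2 c) (b.mem_iff.2 (Or.inr ?_))
      rw [b.ord_mul y0 (inv_ne_zero (pow_ne_zero _ x0)), b.ord_inv (pow_ne_zero _ x0), b.ord_pow x0,
        ox, oy]
      omega

theorem IsHyp.Hyp_frob (p : ℕ) [Fact p.Prime] [CharP K p] (hp : p ≠ 2) {a : L}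
    {v : Fin g → K} (ha : a - HypU K x y g v ∈ HypW b) :
    a ^ p - HypU K x y g (sapp p (PhiG p g f) v) ∈ HypW b := by
  have := charP_of_injective_algebraMap (algebraMap K L).injective p
  have e1 : sapp p (PhiG p g f) v = ∑ i : Fin g,
      v i ^ p • fun j : Fin g => if j.1 + 1 ≤ (i + 1) * p then
        (f ^ (p / 2)).coeff ((i + 1) * p - (j + 1)) else 0 := by
    funext j
    simp [sapp, PhiG, Matrix.mulVec, dotProduct, mul_comm]
  have e2 : y ^ p = y * aeval x (f ^ (p / 2)) := by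
    obtain ⟨m, hm⟩ := (Fact.out : p.Prime).odd_of_ne_two hp
    rw [map_pow, ← h.eqn, ← pow_mul, ← pow_succ']
    congr 1
    omega
  have e3 : HypU K x y g v ^ p =
      ∑ i : Fin g, v i ^ p • (y * aeval x (f ^ (p / 2)) / x ^ ((i + 1) * p)) := by
    rw [HypU, Fintype.linearCombination_apply, sum_pow_char]
    exact Finset.sum_congr rfl fun i _ => by rw [_root_.smul_pow, div_pow, e2, pow_mul]
  have e4 := HypW_pow p ha
  rw [sub_pow_char] at e4
  rw [← sub_add_sub_cancel _ (HypU K x y g v ^ p)]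
  refine add_mem e4 ?_
  rw [e1, e3, map_sum, ← Finset.sum_sub_distrib]
  refine Submodule.sum_mem _ fun i _ => ?_
  rw [map_smul, ← smul_sub]
  exact Submodule.smul_mem _ _ (h.Hyp_red hb y0 ox oy _ _)

end

theorem IsHyp.genus (h : IsHyp f x y) (h2 : (2 : K) ≠ 0) (hf : f.natDegree = 2 * g + 1)
    (hs : f.Separable) : genus K L = g := by
  obtain ⟨b, hb, -, y0, ox, oy⟩ := h.exists_inf hf
  rw [genus_eq (Set.finite_singleton b) (Set.singleton_nonempty b)]
  refine ((LinearEquiv.ofBijective ((HypW b).mkQ ∘ₗ HypU K x y g) ⟨?_, fun a => ?_⟩).finrank_eq.symm).trans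
    (by simp)
  · refine (injective_iff_map_eq_zero _).2 fun v hv => ?_
    exact h.Hyp_inj_U hb y0 ox oy h2 (.of_odd ⟨g, hf⟩) hs.squarefree
      ((Submodule.Quotient.mk_eq_zero _).1 hv)
  · obtain ⟨a, rfl⟩ := (HypW b).mkQ_surjective a
    obtain ⟨v, hv⟩ := h.Hyp_surj hb y0 ox oy a
    exact ⟨v, ((Submodule.Quotient.eq _).2 hv).symm⟩
omit [IsAlgClosed K] in
theorem Hyp_two (p : ℕ) [Fact p.Prime] [CharP K p] (hp : p ≠ 2) : (2 : K) ≠ 0 := fun e =>
  hp ((Nat.prime_dvd_prime_iff_eq Fact.out Nat.prime_two).1 ((CharP.cast_eq_zero_iff K p 2).1 e))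

theorem IsHyp.hw0_iff (p : ℕ) [Fact p.Prime] [CharP K p] (hp : p ≠ 2) (h : IsHyp f x y)
    (hf : f.natDegree = 2 * g + 1) (hs : f.Separable) : HW0 K L p ↔ SNil p (PhiG p g f) := by
  obtain ⟨b, hb, -, y0, ox, oy⟩ := h.exists_inf hf
  have it : ∀ (n : ℕ) a v, a - HypU K x y g v ∈ HypW b →
      a ^ p ^ n - HypU K x y g ((sapp p (PhiG p g f))^[n] v) ∈ HypW b := fun n a v ha => by
    induction n with
    | zero => simpa using ha
    | succ n ih =>
      rw [pow_succ, pow_mul, Function.iterate_succ_apply']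
      exact h.Hyp_frob hb y0 ox oy p hp ih
  rw [PR0.hw0_iff p (Set.finite_singleton b) (Set.singleton_nonempty b), snil_iff]
  simp only [← HypW_iff]
  constructor
  · intro H v
    obtain ⟨n, hn⟩ := H (HypU K x y g v)
    refine ⟨n, h.Hyp_inj_U hb y0 ox oy (Hyp_two p hp) (.of_odd ⟨g, hf⟩) hs.squarefree ?_⟩
    have := sub_mem hn (it n _ v (by rw [sub_self]; exact zero_mem _))
    rwa [sub_sub_cancel] at this
  · intro H a
    obtain ⟨v, hv⟩ := h.Hyp_surj hb y0 ox oy a
    obtain ⟨n, hn⟩ := H v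
    exact ⟨n, by simpa [hn] using it n a v hv⟩
omit [IsAlgClosed K] in
theorem Hyp_reflect {G : K[X]} {N : ℕ} (hG : Squarefree G) (hN : G.natDegree + 1 = N) :
    Squarefree (reflect N G) := by
  rintro q ⟨H, hH⟩
  have h0 : q * q * H ≠ 0 := hH ▸ fun e => hG.ne_zero (reflect_eq_zero_iff.1 e)
  have hq := left_ne_zero_of_mul (left_ne_zero_of_mul h0)
  have h1 : (q * q * H).natDegree ≤ N := hH ▸ natDegree_reflect_le.trans (max_le le_rfl (by omega))
  rw [natDegree_mul (left_ne_zero_of_mul h0) (right_ne_zero_of_mul h0), natDegree_mul hq hq] at h1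
  have e : G = reflect q.natDegree q * reflect q.natDegree q *
      reflect (N - (q.natDegree + q.natDegree)) H := by
    rw [← reflect_mul _ _ le_rfl le_rfl, ← reflect_mul _ _ natDegree_mul_le (by omega), ← hH,
      Nat.add_sub_cancel' (by omega), reflect_reflect]
  obtain ⟨c, hc, e2⟩ := Polynomial.isUnit_iff.1 (hG _ ⟨_, e⟩)
  have h2 : G.natDegree ≤ N - (q.natDegree + q.natDegree) := by
    rw [e, ← e2, mul_assoc]
    exact (natDegree_C_mul_le _ _).trans ((natDegree_C_mul_le _ _).trans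
      (natDegree_reflect_le.trans (max_le le_rfl (by omega))))
  have h3 : q.natDegree = 0 := by
    by_contra h3
    omega
  exact isUnit_iff_degree_eq_zero.2 ((degree_eq_natDegree hq).trans (by rw [h3]; rfl))

/-- the chart given by `1 / (x - c)`; `w` is a square root of `f (c)` -/
theorem IsHyp.exists_chart (h : IsHyp f x y) (h2 : (2 : K) ≠ 0) (hf : f.natDegree = 2 * g + 1)
    (hs : f.Separable) {c w : K} (hw : w ≠ 0) (hc : f.eval c = w ^ 2) :
    ∃ d : CD K L (Fin 2), d.x = (x - algebraMap K L c)⁻¹ ∧ y ∈ (d.pl 0).1 ∧ y ∈ (d.pl 1).1 ∧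
      (d.pl 0).val y = w ∧ (d.pl 1).val y = -w ∧
      ∀ a, a ∈ d.reg ↔ ∃ A B : K[X], a = aeval d.x A + aeval d.x B * (y * d.x ^ (g + 1)) := by
  classical
  have hxc : x - algebraMap K L c ≠ 0 := fun e =>
    transcendental_iff.1 h.trans ⟨c, (sub_eq_zero.1 e).symm⟩
  obtain ⟨e, he⟩ : ∃ e, e = (x - algebraMap K L c)⁻¹ := ⟨_, rfl⟩
  have e0 : e ≠ 0 := he ▸ inv_ne_zero hxc
  have hx : x = e⁻¹ + algebraMap K L c := by rw [he, inv_inv, sub_add_cancel]
  have hG : Squarefree (taylor c f) := fun q hq => by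
    have := map_dvd (taylorEquiv c).symm hq
    rw [map_mul, show (taylorEquiv c).symm (taylor c f) = f from
      (taylorEquiv c).symm_apply_apply f] at this
    exact (isUnit_map_iff (taylorEquiv c).symm q).1 (hs.squarefree _ this)
  have hs' := Hyp_reflect hG (N := 2 * (g + 1)) (by rw [natDegree_taylor, hf]; ring)
  have hn : HypNS (reflect (2 * (g + 1)) (taylor c f)) := .of_squarefree hs' fun hu => by
    obtain ⟨a, ha, e⟩ := Polynomial.isUnit_iff.1 hu
    have := congrArg (coeff · 0) e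
    simp only [coeff_C_zero, coeff_reflect, revAt_zero] at this
    exact ha.ne_zero (this.trans (coeff_eq_zero_of_natDegree_lt (by
      rw [natDegree_taylor, hf]; omega)))
  have H : IsHyp (reflect (2 * (g + 1)) (taylor c f)) e (y * e ^ (g + 1)) := by
    have m1 : x ∈ IntermediateField.adjoin K {e, y * e ^ (g + 1)} :=
      hx ▸ add_mem (inv_mem (Hyp_mem₁ _ _)) (IntermediateField.algebraMap_mem _ _)
    refine ⟨transcendental_iff.2 fun ⟨a, ha⟩ => transcendental_iff.1 h.trans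
      ⟨a⁻¹ + c, by rw [hx, ← ha, map_add, map_inv₀]⟩, ?_, h.Hyp_gen m1 ?_⟩
    · let _ := invertibleOfNonzero (inv_ne_zero e0)
      have := eval₂_reflect_mul_pow (algebraMap K L) e⁻¹ (2 * (g + 1)) (taylor c f)
        (by rw [natDegree_taylor, hf]; omega)
      rw [invOf_eq_inv, inv_inv, ← aeval_def, ← aeval_def, taylor_apply, aeval_comp, map_add,
        aeval_X, aeval_C, ← hx, ← h.eqn, inv_pow, mul_inv_eq_iff_eq_mul₀ (pow_ne_zero _ e0)] at this
      rw [taylor_apply, this]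
      ring
    · have := div_mem (Hyp_mem₂ (K := K) e (y * e ^ (g + 1))) (pow_mem (Hyp_mem₁ e _) (g + 1))
      rwa [mul_div_cancel_right₀ _ (pow_ne_zero _ e0)] at this
  have pole : ∀ P : Place K L, x ∈ P.1 → P.val x = c → e ∉ P.1 := fun P h1 h3 =>
    Hyp_pole.2 ⟨e0, by
      have := (Place.ge_sub_val h1).resolve_left (h3 ▸ hxc)
      rw [he, P.ord_inv hxc]
      rw [h3] at this
      omega⟩
  have hy : ∀ P : Place K L, x ∈ P.1 → y ∈ P.1 := fun P h1 =>
    Hyp_sq_mem (h.eqn ▸ (Hyp_val h1 f).1)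
  obtain ⟨P₀, P₁, a1, a2, a3, b1, b2, b3⟩ : ∃ P₀ P₁ : Place K L, x ∈ P₀.1 ∧ P₀.val x = c ∧
      P₀.val y = w ∧ x ∈ P₁.1 ∧ P₁.val x = c ∧ P₁.val y = -w := by
    obtain ⟨σ, s1, s2, s3⟩ := h.Hyp_conj (.of_odd ⟨g, hf⟩)
    have s4 : σ x = x := by simpa using s2 X
    obtain ⟨P, p1, p2⟩ := exists_place_val h.trans c
    obtain ⟨Q, o, -⟩ := s1.exists_over P
    have q1 : x ∈ Q.1 := s4 ▸ (o x).2 p1
    have q2 : Q.val x = c := by simpa [s4, p2] using s1.val o p1
    have q3 : Q.val y + P.val y = 0 := by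
      have := s1.val o (hy P p1)
      rw [RingHom.id_apply, s3] at this
      rw [← this, ← Place.val_add (hy Q q1) (neg_mem (hy Q q1)), add_neg_cancel]
      simpa using Place.val_const (P := Q) 0
    have p3 : P.val y ^ 2 = w ^ 2 := by
      rw [sq, ← Place.val_mul (hy P p1) (hy P p1), ← sq, h.eqn, (Hyp_val p1 f).2, p2, hc]
    rcases sq_eq_sq_iff_eq_or_eq_neg.1 p3 with p4 | p4
    · exact ⟨P, Q, p1, p2, p4, q1, q2, by linear_combination q3 - p4⟩
    · exact ⟨Q, P, q1, q2, by linear_combination q3 - p4, p1, p2, p4⟩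
  have hne : P₀ ≠ P₁ := fun e => mul_ne_zero h2 hw (by
    rw [e, b3] at a3; linear_combination -a3)
  have o0 := (Hyp_pole.1 (pole _ a1 a2)).2
  have o1 := (Hyp_pole.1 (pole _ b1 b2)).2
  have d2 := Hyp_deg H.trans {P₀, P₁}
  rw [H.Hyp_finrank hn, Finset.sum_pair hne] at d2
  obtain ⟨d, d1, d3⟩ := exists_cd (x := e) (pl := ![P₀, P₁])
    (fun i j hij => by
      fin_cases i <;> fin_cases j
      exacts [rfl, absurd hij hne, absurd hij hne.symm, rfl])
    (fun i => ⟨e0, by fin_cases i <;> simp <;> omega⟩) fun P hP => by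
      by_contra! hc
      have d4 := Hyp_deg H.trans {P, P₀, P₁}
      have o2 := (Hyp_pole.1 hP).2
      rw [H.Hyp_finrank hn, Finset.sum_insert (by simpa using ⟨hc 0, hc 1⟩),
        Finset.sum_pair hne] at d4
      omega
  refine ⟨d, d1.trans he, d3 ▸ hy _ a1, d3 ▸ hy _ b1, d3 ▸ a3, d3 ▸ b3, fun a => ?_⟩
  rw [CD.reg, ← d.poles_eq, d1]
  exact H.Hyp_mem_reg h2 hn hs'

end

variable (p : ℕ) [Fact p.Prime] [CharP K p]

theorem hyp_genus (hp : p ≠ 2) {F : Fin 5 → K} (h : Function.Injective F) : genus K (hyp F).L = 2 := by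
  obtain ⟨x, y, H⟩ := exists_hyp F
  exact H.genus (Hyp_two p hp) (natDegree_fz F) (separable_prod_X_sub_C_iff.2 h)
theorem hyp_hw0 (hp : p ≠ 2) {F : Fin 5 → K} (h : Nil5 p F) : HW0 K (hyp F).L p := by
  obtain ⟨x, y, H⟩ := exists_hyp F
  exact (H.hw0_iff p hp (g := 2) (natDegree_fz F) (separable_prod_X_sub_C_iff.2 h.1)).2
    ((nil2_iff p (Fact.out : p.Prime).two_le _).1 h.2)

/-- `x ↦ (x - c) / a`, `y ↦ y / a ^ (5 / 2)` -/
theorem hyp_iso {k K' : Type u} [Field k] [Field K'] [IsAlgClosed K'] [Algebra k K] [Algebra k K']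
    {F : Fin 5 → K} {F' : Fin 5 → K'} (h : Iso5 k F F') :
    ∃ (Ω : Type u) (_ : Field Ω) (_ : Algebra k Ω) (_ : IsAlgClosed Ω) (D : FFd Ω),
      Comb.Le k (hyp F).sm D.sm ∧ Comb.Le k (hyp F').sm D.sm := by
  obtain ⟨Ω, _, _, _, φ, φ', π, a, c, ha, hF⟩ := h
  obtain ⟨x, y, H⟩ := exists_hyp F
  obtain ⟨x', y', H'⟩ := exists_hyp F'
  obtain ⟨u, v, G⟩ := exists_hyp fun i => φ' (F' i)
  obtain ⟨s, hs⟩ := IsAlgClosed.exists_pow_nat_eq (a ^ 5) two_pos
  have s0 : s ≠ 0 := by rintro rfl; exact pow_ne_zero 5 ha (by simpa using hs.symm)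
  have G' : IsHyp (fz fun i => φ (F i)) (a • u + algebraMap Ω _ c) (s • v) := by
    refine ⟨transcendental_iff.2 fun ⟨r, hr⟩ => transcendental_iff.1 G.trans ⟨a⁻¹ • (r - c), ?_⟩,
      ?_, G.Hyp_gen ?_ ?_⟩
    · rw [smul_eq_mul, map_mul, ← Algebra.smul_def, map_sub, hr, add_sub_cancel_right,
        inv_smul_smul₀ ha]
    · rw [_root_.smul_pow, hs, G.eqn, fz, fz, map_prod, map_prod, ← Equiv.prod_comp π
        fun i => aeval _ (X - C (φ (F i)))]
      simp only [Fin.prod_univ_five, hF, map_sub, aeval_X, aeval_C, map_add, map_mul, map_pow,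
        Algebra.smul_def]
      ring
    · have := IntermediateField.smul_mem _ (x := a⁻¹) (sub_mem
        (Hyp_mem₁ (K := Ω) (a • u + algebraMap Ω _ c) (s • v)) (IntermediateField.algebraMap_mem _ c))
      rwa [add_sub_cancel_right, inv_smul_smul₀ ha] at this
    · have := IntermediateField.smul_mem _ (x := s⁻¹)
        (Hyp_mem₂ (K := Ω) (a • u + algebraMap Ω _ c) (s • v))
      rwa [inv_smul_smul₀ s0] at this
  obtain ⟨ψ, h1, -⟩ := H.exists_hom (odd_fz F) (φ : K →+* Ω) (map_fz (φ : K →+* Ω) F ▸ G')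
  obtain ⟨ψ', h2, -⟩ := H'.exists_hom (odd_fz F') (φ' : K' →+* Ω) (map_fz (φ' : K' →+* Ω) F' ▸ G)
  exact ⟨Ω, _, _, ‹_›, _, FFd.le_sm k φ ψ h1, FFd.le_sm k φ' ψ' h2⟩

end PR0
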