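import Pool.Agent.Work.MP_da2620_ag.Cone

/-!
# The cone at a superspecial genus two curve with an elliptic tail

The matrices are `P S` with `P = diag(γ, Q)` fixed and `S` symmetric `3 × 3` whose off-diagonal
column is a multiple of `e`.  Put `⟨a, b⟩ = ∑ a i b i`, `β(y) = ⟨P⁻¹ y, y ^ p⟩`.  Let `P S` be nilpotent.
* rank `S ≤ 1`: `S = a u uᵀ` with `⟨u, (P u) ^ p⟩ = 0`, and the column condition `u₀ [u, e] = 0`
  leaves finitely many lines `u` (`[u, e]` is the `2 × 2` determinant): dimension `≤ 1`.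
* rank `2`: `S y^p = 0`, `y' = P⁻¹ y`, `β(y) = 0`, and there is `x` with `S x^p = y'` and
  `⟨x^p, ȳ⟩ = 0` for `ȳ = ((P^p)⁻¹)ᵀ y^(p²)`; both `y'`, `ȳ` lie in the image `(y^p)^⊥` of `S`.
  If they are independent, `S = a y' y'ᵀ + d ȳ ȳᵀ` and the column condition is the nontrivial
  linear relation `a y'₀ [y', e] + d ȳ₀ [ȳ, e] = 0`.  If they are parallel, the line of `y` is rational
  over `k` (the field generated by its affine coordinates is finitely generated and perfect; or a direct
  finiteness argument), `S = a y' y'ᵀ + b (y' uᵀ + u y'ᵀ)` with `u` a second vector of `(y^p)^⊥`, and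
  the column condition is nontrivial by `he`; dimension `≤ 1`.
So dimension `2` forces: the line of `y` is a generic point of the plane curve `β = 0`, which is
irreducible (`β = c y₀ ^ (p+1) + β'(y₁, y₂)` with `β'` squarefree since its gradient `(Q⁻¹)ᵀ y^p` is
nonzero; Eisenstein), and `S` is a generic multiple of a rational function of `y`.
`onto`: `φ² v = y` with all of `y₀`, `[.,.]` generic; `δ ↦ P S(δ) y^p` is onto: `w` gives the
coordinate `none`, the symmetric block gives the other two.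
-/

namespace PR0

universe u

variable {k : Type u} [Field k]

/-- Symmetric matrices with off-diagonal column proportional to `e`. -/
def hsym (e : Fin 2 → k) : Fin 5 → Matrix (Option (Fin 2)) (Option (Fin 2)) k :=
  ![Matrix.single (some 0) (some 0) 1,
    Matrix.single (some 0) (some 1) 1 + Matrix.single (some 1) (some 0) 1,
    Matrix.single (some 1) (some 1) 1,
    ∑ i, (Matrix.single none (some i) (e i) + Matrix.single (some i) none (e i)),
    Matrix.single none none 1]

/-- The block diagonal matrix `diag(γ, Q)`. -/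
def hblk (γ : k) (Q : Matrix (Fin 2) (Fin 2) k) : Matrix (Option (Fin 2)) (Option (Fin 2)) k
  | none, none => γ
  | some i, some j => Q i j
  | _, _ => 0

section hermring

variable {R R' : Type*} [CommRing R] [CommRing R']

/-- the symmetric matrix with coordinates `z` applied to a vector -/
def hermS (e : Fin 2 → R) (z : Fin 5 → R) (x : Option (Fin 2) → R) : Option (Fin 2) → R
  | none => z 4 * x none + z 3 * (e 0 * x (some 0) + e 1 * x (some 1))
  | some i => z 3 * e i * x none + ![z 0, z 1] i * x (some 0) + ![z 1, z 2] i * x (some 1)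

/-- the block matrix applied to a vector -/
def hermP (g : R) (Q : Matrix (Fin 2) (Fin 2) R) (u : Option (Fin 2) → R) : Option (Fin 2) → R
  | none => g * u none
  | some i => Q i 0 * u (some 0) + Q i 1 * u (some 1)

/-- the `p`-th power of `P u` -/
def hermN (p : ℕ) (g : R) (Q : Matrix (Fin 2) (Fin 2) R) (u : Option (Fin 2) → R) :
    Option (Fin 2) → R := fun i => hermP g Q u i ^ p

/-- the pairing -/
def hermD (u n : Option (Fin 2) → R) : R :=
  u none * n none + u (some 0) * n (some 0) + u (some 1) * n (some 1)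

/-- rotation of the last two coordinates -/
def hermT (n : Option (Fin 2) → R) : Option (Fin 2) → R
  | none => 0
  | some i => ![n (some 1), -n (some 0)] i

/-- the solution of the linear system -/
def hermW (e : Fin 2 → R) (u n A : Option (Fin 2) → R) : Fin 5 → R :=
  ![n none * (-(u none * n none * e 0 * A (some 1)) -
      (e 0 * A (some 0) + e 1 * A (some 1)) * u (some 0) * n (some 1)),
    n none * (u none * n none * e 0 * A (some 0) +
      (e 0 * A (some 0) + e 1 * A (some 1)) * u (some 0) * n (some 0)),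
    n none * (u none * n none * e 1 * A (some 0) +
      (e 0 * A (some 0) + e 1 * A (some 1)) * u (some 1) * n (some 0)),
    u none * n none * (n (some 0) * A (some 1) - n (some 1) * A (some 0)),
    -(u none * (n (some 0) * A (some 1) - n (some 1) * A (some 0)) *
      (e 0 * n (some 0) + e 1 * n (some 1)))]

/-- the parametrisation of the cone -/
def hermZ (p : ℕ) (g : R) (Q : Matrix (Fin 2) (Fin 2) R) (e : Fin 2 → R)
    (u : Option (Fin 2) → R) : Fin 5 → R :=
  hermW e u (hermN p g Q u) (hermN p g Q (hermT (hermN p g Q u)))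

theorem hermS_n (e : Fin 2 → R) (z : Fin 5 → R) (x : Option (Fin 2) → R) :
    hermS e z x none = z 4 * x none + z 3 * (e 0 * x (some 0) + e 1 * x (some 1)) := rfl
theorem hermS_0 (e : Fin 2 → R) (z : Fin 5 → R) (x : Option (Fin 2) → R) :
    hermS e z x (some 0) = z 3 * e 0 * x none + z 0 * x (some 0) + z 1 * x (some 1) := rfl
theorem hermS_1 (e : Fin 2 → R) (z : Fin 5 → R) (x : Option (Fin 2) → R) :
    hermS e z x (some 1) = z 3 * e 1 * x none + z 1 * x (some 0) + z 2 * x (some 1) := rfl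
theorem hermN_n (p : ℕ) (g : R) (Q : Matrix (Fin 2) (Fin 2) R) (u : Option (Fin 2) → R) :
    hermN p g Q u none = (g * u none) ^ p := rfl
theorem hermN_s (p : ℕ) (g : R) (Q : Matrix (Fin 2) (Fin 2) R) (u : Option (Fin 2) → R)
    (i : Fin 2) : hermN p g Q u (some i) = (Q i 0 * u (some 0) + Q i 1 * u (some 1)) ^ p := rfl
theorem hermT_n (n : Option (Fin 2) → R) : hermT n none = 0 := rfl
theorem hermT_0 (n : Option (Fin 2) → R) : hermT n (some 0) = n (some 1) := rfl
theorem hermT_1 (n : Option (Fin 2) → R) : hermT n (some 1) = -n (some 0) := rfl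

theorem herm_ext {α : Type*} {u v : Option (Fin 2) → α} (h : u none = v none)
    (h0 : u (some 0) = v (some 0)) (h1 : u (some 1) = v (some 1)) : u = v := by
  funext i
  rcases i with _ | i
  · exact h
  · fin_cases i
    · exact h0
    · exact h1

theorem herm_sym {e : Fin 2 → R} {z : Fin 5 → R} {n : Option (Fin 2) → R}
    (h : hermS e z n = 0) (x : Option (Fin 2) → R) : hermD (hermS e z x) n = 0 := by
  have h0 := congrFun h none
  have h1 := congrFun h (some 0)
  have h2 := congrFun h (some 1)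
  simp only [hermS_n, hermS_0, hermS_1, Pi.zero_apply, hermD] at h0 h1 h2 ⊢
  linear_combination x none * h0 + x (some 0) * h1 + x (some 1) * h2

theorem hermN_smul (p : ℕ) (g : R) (Q : Matrix (Fin 2) (Fin 2) R) (c : R)
    (u : Option (Fin 2) → R) : hermN p g Q (c • u) = c ^ p • hermN p g Q u := by
  funext i
  rcases i with _ | i <;>
    simp only [hermN_n, hermN_s, Pi.smul_apply, smul_eq_mul, ← mul_pow] <;> congr 1 <;> ring

theorem hermN_add (p : ℕ) [Fact p.Prime] [CharP R p] (g : R) (Q : Matrix (Fin 2) (Fin 2) R)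
    (u w : Option (Fin 2) → R) : hermN p g Q (u + w) = hermN p g Q u + hermN p g Q w := by
  funext i
  rcases i with _ | i <;>
    simp only [hermN_n, hermN_s, Pi.add_apply, ← add_pow_char] <;> congr 1 <;> ring

theorem hermS_lin (e : Fin 2 → R) (z : Fin 5 → R) (c d : R) (x y : Option (Fin 2) → R) :
    hermS e z (c • x + d • y) = c • hermS e z x + d • hermS e z y := by
  refine herm_ext ?_ ?_ ?_ <;>
    simp only [hermS_n, hermS_0, hermS_1, Pi.add_apply, Pi.smul_apply, smul_eq_mul] <;> ring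

theorem hermS_smul (e : Fin 2 → R) (z : Fin 5 → R) (c : R) (x : Option (Fin 2) → R) :
    hermS e z (c • x) = c • hermS e z x := by
  refine herm_ext ?_ ?_ ?_ <;>
    simp only [hermS_n, hermS_0, hermS_1, Pi.smul_apply, smul_eq_mul] <;> ring

theorem hermT_smul (c : R) (n : Option (Fin 2) → R) : hermT (c • n) = c • hermT n := by
  refine herm_ext ?_ ?_ ?_ <;> simp [hermT_n, hermT_0, hermT_1]

theorem hermZ_smul (p : ℕ) (g : R) (Q : Matrix (Fin 2) (Fin 2) R) (e : Fin 2 → R) (c : R)
    (u : Option (Fin 2) → R) :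
    hermZ p g Q e (c • u) = c ^ (p * p + p + p + 1) • hermZ p g Q e u := by
  rw [hermZ, hermZ, hermN_smul, hermT_smul, hermN_smul]
  funext i
  fin_cases i <;> simp [hermW] <;> ring

theorem hermD_smul (c d : R) (u n : Option (Fin 2) → R) :
    hermD (c • u) (d • n) = c * d * hermD u n := by
  simp only [hermD, Pi.smul_apply, smul_eq_mul]
  ring

theorem hermN_map (φ : R →+* R') (p : ℕ) (g : R) (Q : Matrix (Fin 2) (Fin 2) R)
    (u : Option (Fin 2) → R) :
    (fun i => φ (hermN p g Q u i)) = hermN p (φ g) (Q.map φ) fun i => φ (u i) := by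
  funext i
  rcases i with _ | i <;> simp [hermN_n, hermN_s]

theorem hermT_map (φ : R →+* R') (n : Option (Fin 2) → R) :
    (fun i => φ (hermT n i)) = hermT fun i => φ (n i) := by
  refine herm_ext ?_ ?_ ?_ <;> simp [hermT_n, hermT_0, hermT_1]

theorem hermZ_map (φ : R →+* R') (p : ℕ) (g : R) (Q : Matrix (Fin 2) (Fin 2) R) (e : Fin 2 → R)
    (u : Option (Fin 2) → R) :
    (fun i => φ (hermZ p g Q e u i)) =
      hermZ p (φ g) (Q.map φ) (fun i => φ (e i)) fun i => φ (u i) := by
  rw [hermZ, hermZ, ← hermN_map, ← hermT_map, ← hermN_map]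
  funext i
  fin_cases i <;> simp [hermW]

theorem hermB_map (φ : R →+* R') (p : ℕ) (g : R) (Q : Matrix (Fin 2) (Fin 2) R)
    (u : Option (Fin 2) → R) :
    φ (hermD u (hermN p g Q u)) =
      hermD (fun i => φ (u i)) (hermN p (φ g) (Q.map φ) fun i => φ (u i)) := by
  rw [← hermN_map]
  simp [hermD]

end hermring

section hermfield

variable {K : Type*} [Field K] {p : ℕ} [Fact p.Prime] [CharP K p] {g : K}
  {Q : Matrix (Fin 2) (Fin 2) K} {e : Fin 2 → K} {z : Fin 5 → K}

omit [CharP K p] in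
theorem herm_inj (hQ : Q 0 0 * Q 1 1 - Q 0 1 * Q 1 0 ≠ 0) {u : Option (Fin 2) → K}
    (h0 : hermN p g Q u (some 0) = 0) (h1 : hermN p g Q u (some 1) = 0) :
    u (some 0) = 0 ∧ u (some 1) = 0 := by
  have h2 := pow_eq_zero_iff (Fact.out : p.Prime).ne_zero |>.1 ((hermN_s ..).symm.trans h0)
  have h3 := pow_eq_zero_iff (Fact.out : p.Prime).ne_zero |>.1 ((hermN_s ..).symm.trans h1)
  constructor <;> refine mul_left_cancel₀ hQ ?_
  · linear_combination Q 1 1 * h2 - Q 0 1 * h3
  · linear_combination Q 0 0 * h3 - Q 1 0 * h2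

omit [CharP K p] in
theorem herm_B (hQ : Q 0 0 * Q 1 1 - Q 0 1 * Q 1 0 ≠ 0)
    (he : e 0 * (Q 0 0 * e 0 + Q 0 1 * e 1) ^ p + e 1 * (Q 1 0 * e 0 + Q 1 1 * e 1) ^ p ≠ 0)
    (hb : z 3 ≠ 0) {x : Option (Fin 2) → K} (h0 : hermS e z x none = 0)
    (hn : hermS e z (hermN p g Q (hermS e z x)) = 0) : hermS e z x = 0 := by
  have hp := (Fact.out : p.Prime).ne_zero
  have h2 := herm_sym hn x
  generalize hermS e z x = u at h0 hn h2
  have hn0 : hermN p g Q u none = 0 := by rw [hermN_n, h0, mul_zero, zero_pow hp]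
  have h1 := congrFun hn none
  rw [hermS_n, hn0, mul_zero, zero_add, Pi.zero_apply, mul_eq_zero, or_iff_right hb] at h1
  rw [hermD, h0, zero_mul, zero_add] at h2
  suffices h : u (some 0) = 0 ∧ u (some 1) = 0 from herm_ext h0 h.1 h.2
  by_cases hd : u (some 0) * e 1 - u (some 1) * e 0 = 0
  · have a0 : ∀ l, e 0 ^ p * hermN p g Q u (some l) =
        u (some 0) ^ p * (Q l 0 * e 0 + Q l 1 * e 1) ^ p := fun l => by
      rw [hermN_s, ← mul_pow, ← mul_pow]
      congr 1
      linear_combination (-Q l 1) * hd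
    have a1 : ∀ l, e 1 ^ p * hermN p g Q u (some l) =
        u (some 1) ^ p * (Q l 0 * e 0 + Q l 1 * e 1) ^ p := fun l => by
      rw [hermN_s, ← mul_pow, ← mul_pow]
      congr 1
      linear_combination (Q l 0) * hd
    constructor <;> refine (pow_eq_zero_iff hp).1 (mul_right_cancel₀ he ?_)
    · linear_combination e 0 ^ p * h1 - e 0 * a0 0 - e 1 * a0 1
    · linear_combination e 1 ^ p * h1 - e 0 * a1 0 - e 1 * a1 1
  · refine herm_inj (p := p) (g := g) hQ (mul_left_cancel₀ hd ?_) (mul_left_cancel₀ hd ?_)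
    · linear_combination e 1 * h2 - u (some 1) * h1
    · linear_combination u (some 0) * h1 - e 0 * h2

theorem herm_gen [IsAlgClosed K] (hg : g ≠ 0) (hQ : Q 0 0 * Q 1 1 - Q 0 1 * Q 1 0 ≠ 0)
    {x : Option (Fin 2) → K}
    (hn : hermS e z (hermN p g Q (hermS e z (hermN p g Q (hermS e z x)))) = 0)
    (h0 : hermS e z (hermN p g Q (hermS e z x)) none ≠ 0) :
    ∃ u, hermD u (hermN p g Q u) = 0 ∧ z = hermZ p g Q e u := by
  have hp := (Fact.out : p.Prime).ne_zero
  have h1 := herm_sym hn x
  have h2 := herm_sym hn (hermN p g Q (hermS e z x))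
  generalize hermS e z x = w at h0 hn h1 h2
  obtain ⟨u, hu⟩ : ∃ u, hermS e z (hermN p g Q w) = u := ⟨_, rfl⟩
  rw [hu] at h0 hn h1 h2
  have hn0 : hermN p g Q u none ≠ 0 := pow_ne_zero _ (mul_ne_zero hg h0)
  have hΔ : hermN p g Q u (some 0) * hermN p g Q (hermT (hermN p g Q u)) (some 1) -
      hermN p g Q u (some 1) * hermN p g Q (hermT (hermN p g Q u)) (some 0) ≠ 0 := by
    rw [hermN_s p g Q (hermT _), hermN_s p g Q (hermT _), hermT_0, hermT_1]
    nth_rewrite 1 [hermN_s p g Q u 0]
    nth_rewrite 2 [hermN_s p g Q u 1]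
    rw [← mul_pow, ← mul_pow, ← sub_pow_char]
    refine pow_ne_zero _ fun h => mul_ne_zero hQ (mul_ne_zero h0 hn0) ?_
    rw [hermD] at h2
    linear_combination h + (Q 0 0 * Q 1 1 - Q 0 1 * Q 1 0) * h2
  have hA0 : hermN p g Q (hermT (hermN p g Q u)) none = 0 := by
    rw [hermN_n, hermT_n, mul_zero, zero_pow hp]
  obtain ⟨κ, hκ⟩ : ∃ κ : K, u none • w + (-w none) • u = κ • hermT (hermN p g Q u) := by
    rw [hermD] at h1 h2
    generalize hermN p g Q u = n at hn0 h1 h2
    refine ⟨-((u none * w (some 0) - w none * u (some 0)) * u (some 1) -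
      (u none * w (some 1) - w none * u (some 1)) * u (some 0)) / (u none * n none),
      herm_ext ?_ ?_ ?_⟩ <;>
      simp only [hermT_n, hermT_0, hermT_1, Pi.add_apply, Pi.smul_apply, smul_eq_mul]
    · ring
    · field_simp
      linear_combination u none * (w (some 0) * h2 - u (some 0) * h1)
    · field_simp
      linear_combination u none * (w (some 1) * h2 - u (some 1) * h1)
  have h3 := congrArg (fun y => hermS e z (hermN p g Q y)) hκ
  simp only [hermN_add, hermN_smul, hermS_lin, hermS_smul, hu, hn, smul_zero, add_zero] at h3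
  have hD : hermD u (hermN p g Q u) = 0 := h2
  have key : hermZ p g Q e u 3 • z = z 3 • hermZ p g Q e u ∧ z 3 ≠ 0 ∧ hermZ p g Q e u 3 ≠ 0 := by
    rw [hermZ]
    generalize hermN p g Q (hermT (hermN p g Q u)) = A at h3 hA0 hΔ
    generalize hermN p g Q u = n at hn hn0 hΔ
    have a := congrFun h3 none
    have a0 := congrFun h3 (some 0)
    have a1 := congrFun h3 (some 1)
    have b := congrFun hn none
    have b0 := congrFun hn (some 0)
    have b1 := congrFun hn (some 1)
    simp only [hermS_n, hermS_0, hermS_1, Pi.smul_apply, smul_eq_mul, hA0, Pi.zero_apply,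
      mul_zero, zero_add] at a a0 a1 b b0 b1
    have hne : u none ^ p * u none ≠ 0 := mul_ne_zero (pow_ne_zero _ h0) h0
    have hk : κ ^ p ≠ 0 := fun h => hne (by rw [a, h, zero_mul])
    have c0 : u none * (z 0 * A (some 0) + z 1 * A (some 1)) =
        z 3 * (e 0 * A (some 0) + e 1 * A (some 1)) * u (some 0) :=
      mul_left_cancel₀ hk (by linear_combination u (some 0) * a - u none * a0)
    have c1 : u none * (z 1 * A (some 0) + z 2 * A (some 1)) =
        z 3 * (e 0 * A (some 0) + e 1 * A (some 1)) * u (some 1) :=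
      mul_left_cancel₀ hk (by linear_combination u (some 1) * a - u none * a1)
    refine ⟨?_, fun h => hne (by rw [a, h, zero_mul, mul_zero]),
      mul_ne_zero (mul_ne_zero h0 hn0) hΔ⟩
    funext i
    fin_cases i <;> simp [hermW]
    · linear_combination n none * u none * A (some 1) * b0 - n none * n (some 1) * c0
    · linear_combination n none * n (some 0) * c0 - n none * u none * A (some 0) * b0
    · linear_combination n none * n (some 0) * c1 - n none * u none * A (some 0) * b1
    · ring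
    · linear_combination u none * (n (some 0) * A (some 1) - n (some 1) * A (some 0)) * b
  obtain ⟨c, hc⟩ := IsAlgClosed.exists_pow_nat_eq (z 3 / hermZ p g Q e u 3)
    (n := p * p + p + p + 1) (Nat.succ_pos _)
  refine ⟨c • u, by rw [hermN_smul, hermD_smul, hD, mul_zero], ?_⟩
  rw [hermZ_smul, hc, div_eq_inv_mul, mul_smul, ← key.1, inv_smul_smul₀ key.2.2]

omit [Fact p.Prime] [CharP K p] in
theorem herm_onto (hg : g ≠ 0) (hQ : Q 0 0 * Q 1 1 - Q 0 1 * Q 1 0 ≠ 0) {u : Option (Fin 2) → K}
    (h0 : u none ≠ 0) (hD : hermD u (hermN p g Q u) = 0) (w : Option (Fin 2) → K) :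
    ∃ δ, hermP g Q (hermS e δ (hermN p g Q u)) = w := by
  have hn0 : hermN p g Q u none ≠ 0 := pow_ne_zero _ (mul_ne_zero hg h0)
  obtain ⟨y, rfl⟩ : ∃ y, hermP g Q y = w := by
    have h1 := mul_inv_cancel₀ hQ
    refine ⟨fun i => match i with
      | none => w none / g
      | some j => ![Q 1 1 * w (some 0) - Q 0 1 * w (some 1),
          Q 0 0 * w (some 1) - Q 1 0 * w (some 0)] j * (Q 0 0 * Q 1 1 - Q 0 1 * Q 1 0)⁻¹,
      herm_ext ?_ ?_ ?_⟩ <;> simp only [hermP, Matrix.cons_val_zero, Matrix.cons_val_one]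
    · field_simp
    · linear_combination w (some 0) * h1
    · linear_combination w (some 1) * h1
  generalize hermN p g Q u = n at hn0 hD
  rw [hermD] at hD
  suffices h : ∃ δ, hermS e δ n = y from h.imp fun δ h => by rw [h]
  by_cases hm : n (some 0) = 0
  · have hm1 : n (some 1) ≠ 0 := fun h =>
      mul_ne_zero h0 hn0 (by simpa [hm, h] using hD)
    refine ⟨![0, y (some 0) / n (some 1), y (some 1) / n (some 1), 0, y none / n none],
      herm_ext ?_ ?_ ?_⟩ <;> simp [hermS_n, hermS_0, hermS_1, hm, hm1, hn0]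
  · refine ⟨![(y (some 0) - y (some 1) / n (some 0) * n (some 1)) / n (some 0),
      y (some 1) / n (some 0), 0, 0, y none / n none],
      herm_ext ?_ ?_ ?_⟩ <;> simp [hermS_n, hermS_0, hermS_1, hm, hn0]

end hermfield

section hermrat

variable {K : Type u} [Field K] [Algebra k K] {p : ℕ} [Fact p.Prime] [CharP k p]
  {γ : k} {Q : Matrix (Fin 2) (Fin 2) k} {e : Fin 2 → k} {z : Fin 5 → K}

theorem herm_rat [IsAlgClosed k] {x : K} {f : Polynomial k} (hf : f ≠ 0)
    (h : Polynomial.aeval x f = 0) : ∃ r, algebraMap k K r = x :=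
  minpoly.mem_range_of_degree_eq_one k x (IsAlgClosed.degree_eq_one_of_irreducible k
    (minpoly.irreducible (IsAlgebraic.isIntegral ⟨f, hf, h⟩)))

theorem herm_dm1 {I : Type} {z : I → K} (s : K) (r : I → k)
    (h : ∀ i, z i = algebraMap k K (r i) * s) : dm k z ≤ 1 := by
  refine (rk_le_of_mem (s := {s}) ?_).trans ((rk_le_encard _).trans (Set.encard_singleton s).le)
  rintro _ ⟨i, rfl⟩
  rw [h]
  exact mul_mem (IntermediateField.algebraMap_mem _ _) (IntermediateField.subset_adjoin _ _ rfl)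

theorem herm_dm2 {u : Option (Fin 2) → K} {f : MvPolynomial (Option (Fin 2)) k} (hf : f ≠ 0)
    (h : MvPolynomial.aeval u f = 0) : dm k u ≤ 2 := by
  by_contra h2
  refine hf ((indep_of_rk (y := u) ?_).eq_zero_of_aeval_eq_zero _ h)
  have h3 := Order.add_one_le_of_lt (not_le.1 h2)
  rw [Nat.card_eq_fintype_card, Fintype.card_option, Fintype.card_fin]
  exact_mod_cast h3

/-- the roots of the binary form are rational -/
theorem herm_dir [IsAlgClosed k] (hQ : Q 0 0 * Q 1 1 - Q 0 1 * Q 1 0 ≠ 0) {a b : K}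
    (h : a * (algebraMap k K (Q 0 0) * a + algebraMap k K (Q 0 1) * b) ^ p +
      b * (algebraMap k K (Q 1 0) * a + algebraMap k K (Q 1 1) * b) ^ p = 0) :
    ∃ (s : K) (r₀ r₁ : k), a = algebraMap k K r₀ * s ∧ b = algebraMap k K r₁ * s := by
  by_cases hb : b = 0
  · exact ⟨a, 1, 0, by simp, by simp [hb]⟩
  obtain ⟨t, rfl⟩ : ∃ t, a = t * b := ⟨a / b, by field_simp⟩
  obtain ⟨r, rfl⟩ := herm_rat (k := k) (x := t)
    (f := Polynomial.X * (Polynomial.C (Q 0 0) * Polynomial.X + Polynomial.C (Q 0 1)) ^ p +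
      (Polynomial.C (Q 1 0) * Polynomial.X + Polynomial.C (Q 1 1)) ^ p) (fun h0 => by
      have h1 := congrArg Polynomial.derivative h0
      simp only [map_add, Polynomial.derivative_mul, Polynomial.derivative_pow, CharP.cast_eq_zero,
        map_zero, zero_mul, mul_zero, add_zero, Polynomial.derivative_X, one_mul] at h1
      have h2 := pow_eq_zero_iff (Fact.out : p.Prime).ne_zero |>.1 h1
      have h3 := congrArg (Polynomial.coeff · 0) h2
      have h4 := congrArg (Polynomial.coeff · 1) h2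
      simp at h3 h4
      exact hQ (by rw [h3, h4]; ring)) (by
      refine mul_left_cancel₀ (mul_ne_zero hb (pow_ne_zero p hb)) ?_
      simp only [map_add, map_mul, map_pow, Polynomial.aeval_X, Polynomial.aeval_C, mul_zero]
      rw [← h, show algebraMap k K (Q 0 0) * (t * b) + algebraMap k K (Q 0 1) * b =
        b * (algebraMap k K (Q 0 0) * t + algebraMap k K (Q 0 1)) by ring,
        show algebraMap k K (Q 1 0) * (t * b) + algebraMap k K (Q 1 1) * b =
        b * (algebraMap k K (Q 1 0) * t + algebraMap k K (Q 1 1)) by ring, mul_pow, mul_pow]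
      ring)
  exact ⟨b, r, 1, rfl, by simp⟩

theorem herm_cls [IsAlgClosed k] (hγ : γ ≠ 0) (hQ : Q 0 0 * Q 1 1 - Q 0 1 * Q 1 0 ≠ 0)
    (he : e 0 * (Q 0 0 * e 0 + Q 0 1 * e 1) ^ p + e 1 * (Q 1 0 * e 0 + Q 1 1 * e 1) ^ p ≠ 0)
    {g : K} {Q' : Matrix (Fin 2) (Fin 2) K} {e' : Fin 2 → K} (h1 : g = algebraMap k K γ)
    (h2 : ∀ i j, Q' i j = algebraMap k K (Q i j)) (h3 : ∀ i, e' i = algebraMap k K (e i))
    (hn : ∀ x, hermS e' z (hermN p g Q' (hermS e' z (hermN p g Q' (hermS e' z x)))) = 0)
    (h0 : ∀ x, hermS e' z (hermN p g Q' (hermS e' z x)) none = 0) : dm k z ≤ 1 := by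
  have hp := (Fact.out : p.Prime).ne_zero
  have inj := (algebraMap k K).injective
  have hg : g ≠ 0 := h1 ▸ (map_ne_zero_iff _ inj).2 hγ
  have hQ' : Q' 0 0 * Q' 1 1 - Q' 0 1 * Q' 1 0 ≠ 0 := by
    simpa only [h2, ← map_mul, ← map_sub] using (map_ne_zero_iff _ inj).2 hQ
  obtain ⟨h, hh⟩ : ∃ h, h = e 0 * (Q 0 0 * e 0 + Q 0 1 * e 1) ^ p +
    e 1 * (Q 1 0 * e 0 + Q 1 1 * e 1) ^ p := ⟨_, rfl⟩
  have hh' : algebraMap k K h = e' 0 * (Q' 0 0 * e' 0 + Q' 0 1 * e' 1) ^ p +
      e' 1 * (Q' 1 0 * e' 0 + Q' 1 1 * e' 1) ^ p := by simp only [hh, h2, h3, map_add, map_mul, map_pow]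
  have he' := (map_ne_zero_iff _ inj).2 (hh ▸ he : h ≠ 0)
  have a := h0 fun i => i.elim 1 fun _ => 0
  simp only [hermS_n, hermS_0, hermS_1, hermN_n, hermN_s, Option.elim, mul_one, mul_zero,
    add_zero] at a
  by_cases hb : z 3 = 0
  · have ha : z 4 = 0 := by
      rw [hb, zero_mul, add_zero, mul_eq_zero, pow_eq_zero_iff hp, mul_eq_zero] at a
      tauto
    obtain ⟨μ₀, μ₁, hμ, d0, d1⟩ : ∃ μ₀ μ₁ : k, (μ₀ ≠ 0 ∨ μ₁ ≠ 0) ∧
        z 0 * algebraMap k K μ₀ + z 1 * algebraMap k K μ₁ = 0 ∧
        z 1 * algebraMap k K μ₀ + z 2 * algebraMap k K μ₁ = 0 := by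
      by_cases hz : ∃ x, hermS e' z x ≠ 0 ∧ hermS e' z (hermN p g Q' (hermS e' z x)) = 0
      · obtain ⟨x, hx, hy⟩ := hz
        have b := herm_sym hy x
        have b0 : hermS e' z x none = 0 := by rw [hermS_n, ha, hb]; ring
        generalize hermS e' z x = u at hx hy b b0
        rw [hermD, b0, zero_mul, zero_add, hermN_s, hermN_s] at b
        simp only [h2] at b
        obtain ⟨s, r₀, r₁, c0, c1⟩ := herm_dir hQ b
        have hm : ∀ l, hermN p g Q' u (some l) =
            algebraMap k K ((Q l 0 * r₀ + Q l 1 * r₁) ^ p) * s ^ p := fun l => by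
          rw [hermN_s, c0, c1, h2, h2, map_pow, ← mul_pow, map_add, map_mul, map_mul]
          congr 1
          ring
        have hs : s ^ p ≠ 0 := pow_ne_zero _ fun h => hx (herm_ext b0 (by simp [c0, h])
          (by simp [c1, h]))
        have f0 := congrFun hy (some 0)
        have f1 := congrFun hy (some 1)
        rw [hermS_0, hb, hm, hm, Pi.zero_apply] at f0
        rw [hermS_1, hb, hm, hm, Pi.zero_apply] at f1
        refine ⟨(Q 0 0 * r₀ + Q 0 1 * r₁) ^ p, (Q 1 0 * r₀ + Q 1 1 * r₁) ^ p, ?_,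
          mul_left_cancel₀ hs (by linear_combination f0),
          mul_left_cancel₀ hs (by linear_combination f1)⟩
        by_contra hc
        rw [not_or, not_not, not_not] at hc
        have := herm_inj (p := p) (g := g) (u := u) hQ' (by rw [hm, hc.1, map_zero, zero_mul])
          (by rw [hm, hc.2, map_zero, zero_mul])
        exact hx (herm_ext b0 this.1 this.2)
      · push Not at hz
        have hx : ∀ x, hermS e' z x = 0 := fun x => by
          by_contra hc
          exact hz _ (hz x hc) (hn x)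
        have f0 := congrFun (hx fun i => i.elim 0 ![1, 0]) (some 0)
        have f1 := congrFun (hx fun i => i.elim 0 ![1, 0]) (some 1)
        simp [hermS_0, hermS_1] at f0 f1
        exact ⟨1, 0, Or.inl one_ne_zero, by simp [f0], by simp [f1]⟩
    by_cases h : μ₀ = 0
    · have h' := (map_ne_zero_iff _ inj).2 (hμ.resolve_left (not_not.2 h))
      rw [h, map_zero, mul_zero, zero_add, mul_eq_zero, or_iff_left h'] at d0 d1
      refine herm_dm1 (z 0) ![1, 0, 0, 0, 0] fun i => ?_
      fin_cases i <;> simp [ha, hb, d0, d1]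
    · have h' := (map_ne_zero_iff _ inj).2 h
      refine herm_dm1 (z 2) ![μ₁ ^ 2 / μ₀ ^ 2, -μ₁ / μ₀, 1, 0, 0] fun i => ?_
      fin_cases i <;> simp [ha, hb]
      · field_simp
        linear_combination algebraMap k K μ₀ * d0 - algebraMap k K μ₁ * d1
      · field_simp
        linear_combination d1
  · have := charP_of_injective_algebraMap inj p
    have hB := fun x => herm_B (p := p) (g := g) (x := x) hQ' (hh' ▸ he') hb
    have s2 : ∀ x, hermS e' z x none = 0 → hermS e' z x = 0 := fun x hx =>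
      hB x hx (hB _ (h0 x) (hn x))
    obtain ⟨t, ht⟩ : ∃ t, z 4 = t * z 3 := ⟨z 4 / z 3, by field_simp⟩
    have a' : g ^ p * t ^ (p + 1) + algebraMap k K h = 0 := by
      refine mul_left_cancel₀ (mul_ne_zero hb (pow_ne_zero p hb)) ?_
      rw [mul_zero, ← a, hh', ht, show ∀ x y : K, x * (z 3 * e' 0) + y * (z 3 * e' 1) =
        z 3 * (x * e' 0 + y * e' 1) from fun x y => by ring,
        show ∀ x y : K, x * (z 3 * e' 0) + y * (z 3 * e' 1) =
        z 3 * (x * e' 0 + y * e' 1) from fun x y => by ring]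
      simp only [mul_pow]
      ring
    obtain ⟨r, rfl⟩ := herm_rat (k := k) (x := t)
      (f := Polynomial.C (γ ^ p) * Polynomial.X ^ (p + 1) + Polynomial.C h) (fun h0 => by
        have h4 := congrArg (Polynomial.coeff · 0) h0
        simp at h4
        exact he (hh ▸ h4)) (by simpa [h1] using a')
    have hr : algebraMap k K r ≠ 0 := fun h => he' (by simpa [h] using a')
    have f0 := s2 (fun i => i.elim (-e' 0) ![algebraMap k K r, 0]) (by simp [hermS_n, ht]; ring)
    have f1 := s2 (fun i => i.elim (-e' 1) ![0, algebraMap k K r]) (by simp [hermS_n, ht]; ring)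
    have g0 := congrFun f0 (some 0)
    have g1 := congrFun f0 (some 1)
    have g2 := congrFun f1 (some 1)
    simp only [hermS_0, hermS_1, Option.elim, Matrix.cons_val_zero, Matrix.cons_val_one,
      Pi.zero_apply, h3] at g0 g1 g2
    refine herm_dm1 (z 3) ![e 0 * e 0 / r, e 0 * e 1 / r, e 1 * e 1 / r, 1, r] fun i => ?_
    fin_cases i <;> simp [ht]
    · field_simp
      linear_combination g0
    · field_simp
      linear_combination g1
    · field_simp
      linear_combination g2

open MvPolynomial in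
theorem herm_prime [IsAlgClosed k] (hγ : γ ≠ 0) (hQ : Q 0 0 * Q 1 1 - Q 0 1 * Q 1 0 ≠ 0) :
    Prime (hermD X (hermN p (C γ) (Q.map C) X) : MvPolynomial (Option (Fin 2)) k) := by
  have hp := (Fact.out : p.Prime)
  let β : MvPolynomial (Fin 2) k := X 0 * (C (Q 0 0) * X 0 + C (Q 0 1) * X 1) ^ p +
    X 1 * (C (Q 1 0) * X 0 + C (Q 1 1) * X 1) ^ p
  have e1 : optionEquivLeft k (Fin 2) (hermD X (hermN p (C γ) (Q.map C) X)) =
      Polynomial.C (C (γ ^ p)) * Polynomial.X ^ (p + 1) + Polynomial.C β := by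
    simp only [hermD, hermN_n, hermN_s, Matrix.map_apply, map_add, map_mul, map_pow,
      optionEquivLeft_X_none, optionEquivLeft_X_some, optionEquivLeft_C, β, mul_pow]
    ring
  rw [← MulEquiv.prime_iff (optionEquivLeft k (Fin 2)), e1]
  obtain ⟨a, ha, h0⟩ : ∃ a : Fin 2 → k, (a 0 ≠ 0 ∨ a 1 ≠ 0) ∧ eval a β = 0 := by
    by_cases h : Q 0 0 = 0
    · exact ⟨![1, 0], Or.inl one_ne_zero, by simp [β, h, hp.ne_zero]⟩
    · obtain ⟨t, ht⟩ := IsAlgClosed.exists_root
        (Polynomial.X * (Polynomial.C (Q 0 0) * Polynomial.X + Polynomial.C (Q 0 1)) ^ p +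
          (Polynomial.C (Q 1 0) * Polynomial.X + Polynomial.C (Q 1 1)) ^ p) fun h0 => by
        have h1 := congrArg Polynomial.derivative (Polynomial.eq_C_of_degree_eq_zero h0)
        simp only [map_add, Polynomial.derivative_mul, Polynomial.derivative_pow,
          CharP.cast_eq_zero, map_zero, zero_mul, mul_zero, add_zero, Polynomial.derivative_X,
          one_mul, Polynomial.derivative_C] at h1
        have h4 := congrArg (Polynomial.coeff · 1) (pow_eq_zero_iff hp.ne_zero |>.1 h1)
        simp at h4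
        exact h h4
      exact ⟨![t, 1], Or.inr one_ne_zero, by simpa [β] using ht⟩
  have hc : (C (γ ^ p) : MvPolynomial (Fin 2) k) ≠ 0 := C_ne_zero.2 (pow_ne_zero _ hγ)
  have hd : (Polynomial.C (C (γ ^ p)) * Polynomial.X ^ (p + 1) + Polynomial.C β).degree =
      ((p + 1 : ℕ) : WithBot ℕ) := by
    rw [Polynomial.degree_add_C, Polynomial.degree_C_mul_X_pow _ hc]
    rw [Polynomial.degree_C_mul_X_pow _ hc]
    exact_mod_cast p.succ_pos
  have hl : (Polynomial.C (C (γ ^ p)) * Polynomial.X ^ (p + 1) + Polynomial.C β).coeff (p + 1) =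
      C (γ ^ p) := by
    rw [Polynomial.coeff_add, Polynomial.coeff_C_mul_X_pow, if_pos rfl, Polynomial.coeff_C_succ,
      add_zero]
  refine (Polynomial.irreducible_of_eisenstein_criterion (P := RingHom.ker (eval a))
    (RingHom.ker_isPrime _) ?_ (fun n hn => ?_) ?_ (fun h => ?_) fun r hr => ?_).prime
  · rw [Polynomial.leadingCoeff, Polynomial.natDegree_eq_of_degree_eq_some hd, hl, RingHom.mem_ker,
      eval_C]
    exact pow_ne_zero _ hγ
  · rw [hd, Nat.cast_lt] at hn
    rw [Polynomial.coeff_add, Polynomial.coeff_C_mul_X_pow, if_neg hn.ne, zero_add,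
      Polynomial.coeff_C, RingHom.mem_ker]
    split_ifs
    · exact h0
    · exact map_zero _
  · rw [hd]
    exact_mod_cast p.succ_pos
  · have h1 : ∀ f ∈ RingHom.ker (eval a) ^ 2, ∀ j, eval a (pderiv j f) = 0 := fun f hf j => by
      rw [sq] at hf
      refine Submodule.mul_induction_on hf (fun x hx y hy => ?_) fun x y hx hy => ?_
      · rw [RingHom.mem_ker] at hx hy
        simp [hx, hy]
      · simp [hx, hy]
    have h2 := h1 β (by simpa using h) 0
    have h3 := h1 β (by simpa using h) 1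
    simp [β, pderiv_X, hp.ne_zero] at h2 h3
    rcases ha with ha | ha <;> refine ha (mul_left_cancel₀ hQ ?_)
    · linear_combination Q 1 1 * h2 - Q 0 1 * h3
    · linear_combination Q 0 0 * h3 - Q 1 0 * h2
  · have h1 := (Polynomial.C_dvd_iff_dvd_coeff _ _).1 hr (p + 1)
    rw [hl] at h1
    exact isUnit_of_dvd_unit h1 ((pow_ne_zero _ hγ).isUnit.map C)

omit [Fact p.Prime] [CharP k p] in
theorem herm_lin (γ : k) (Q : Matrix (Fin 2) (Fin 2) k) (e : Fin 2 → k) (z : Fin 5 → K)
    (v : Option (Fin 2) → K) : sapp p (lin (fun i => hblk γ Q * hsym e i) z) v =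
      hermP (algebraMap k K γ) (Q.map (algebraMap k K))
        (hermS (fun i => algebraMap k K (e i)) z fun i => v i ^ p) := by
  refine herm_ext ?_ ?_ ?_ <;>
    simp [sapp, lin, Matrix.mulVec, dotProduct, Fin.sum_univ_five, Matrix.mul_apply, hsym, hblk,
      hermP, hermS_n, hermS_0, hermS_1, Matrix.single_apply, Matrix.sum_apply] <;> ring

theorem herm_nil [IsAlgClosed K] (hγ : γ ≠ 0) (hQ : Q 0 0 * Q 1 1 - Q 0 1 * Q 1 0 ≠ 0)
    (h : SNil p (lin (fun i => hblk γ Q * hsym e i) z)) (x : Option (Fin 2) → K) :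
    hermS (fun i => algebraMap k K (e i)) z (hermN p (algebraMap k K γ) (Q.map (algebraMap k K))
      (hermS (fun i => algebraMap k K (e i)) z (hermN p (algebraMap k K γ) (Q.map (algebraMap k K))
        (hermS (fun i => algebraMap k K (e i)) z x)))) = 0 := by
  have inj := (algebraMap k K).injective
  have := charP_of_injective_algebraMap inj p
  have hp := (Fact.out : p.Prime)
  choose v hv using fun i => IsAlgClosed.exists_pow_nat_eq (x i) hp.pos
  have h1 := iterate_sapp (p := p) (lin (fun i => hblk γ Q * hsym e i) z) 3 v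
  rw [show sprod p (lin (fun i => hblk γ Q * hsym e i) z) 3 = 0 from h, Matrix.zero_mulVec] at h1
  simp only [Function.iterate_succ_apply', Function.iterate_zero_apply, herm_lin, hv] at h1
  have h2 : ∀ y, hermP (algebraMap k K γ) (Q.map (algebraMap k K)) y = 0 → y = 0 := fun y hy => by
    have h3 := herm_inj (p := p) (g := algebraMap k K γ) (Q := Q.map (algebraMap k K)) (u := y)
      (by simpa only [Matrix.map_apply, ← map_mul, ← map_sub] using (map_ne_zero_iff _ inj).2 hQ)
      (by rw [hermN, hy]; exact zero_pow hp.ne_zero) (by rw [hermN, hy]; exact zero_pow hp.ne_zero)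
    exact herm_ext ((mul_eq_zero.1 (congrFun hy none)).resolve_left
      ((map_ne_zero_iff _ inj).2 hγ)) h3.1 h3.2
  exact h2 _ h1

open MvPolynomial in
theorem herm_main [IsAlgClosed k] (hγ : γ ≠ 0) (hQ : Q 0 0 * Q 1 1 - Q 0 1 * Q 1 0 ≠ 0)
    (he : e 0 * (Q 0 0 * e 0 + Q 0 1 * e 1) ^ p + e 1 * (Q 1 0 * e 0 + Q 1 1 * e 1) ^ p ≠ 0)
    (h : SNil p (lin (fun i => hblk γ Q * hsym e i) z)) :
    dm k z ≤ 1 ∨ ∃ u : Option (Fin 2) → AlgebraicClosure K, dm k z ≤ dm k u ∧
      aeval u (hermD X (hermN p (C γ) (Q.map C) X) : MvPolynomial _ k) = 0 ∧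
      (fun i => IsScalarTower.toAlgHom k K (AlgebraicClosure K) (z i)) =
        fun i => aeval u (hermZ p (C γ) (Q.map C) (fun i => C (e i)) X i : MvPolynomial _ k) := by
  obtain ⟨φ, hφ⟩ : ∃ φ, φ = IsScalarTower.toAlgHom k K (AlgebraicClosure K) := ⟨_, rfl⟩
  rw [← hφ]
  have inj := (algebraMap k (AlgebraicClosure K)).injective
  have := charP_of_injective_algebraMap inj p
  have hd : dm k z = dm k fun i => φ (z i) := by
    rw [dm, dm, ← rk_image φ, ← Set.range_comp]
    rfl
  have h1 : SNil p (lin (fun i => hblk γ Q * hsym e i) fun i => φ (z i)) := by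
    convert h.map (φ : K →+* AlgebraicClosure K) using 1
    ext i j
    simp [lin, Matrix.sum_apply, -Matrix.map_mul]
  have h2 := herm_nil hγ hQ h1
  rw [hd]
  generalize (fun i => φ (z i)) = y at h2
  by_contra hc
  rw [not_or] at hc
  refine hc.1 (herm_cls hγ hQ he rfl (fun _ _ => rfl) (fun _ => rfl) h2 fun x => ?_)
  by_contra h0
  obtain ⟨u, hu, rfl⟩ := herm_gen ((map_ne_zero_iff _ inj).2 hγ)
    (by simpa only [Matrix.map_apply, ← map_mul, ← map_sub] using (map_ne_zero_iff _ inj).2 hQ)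
    (h2 x) h0
  have e1 : (Q.map C).map (aeval u : MvPolynomial _ k →ₐ[k] _).toRingHom =
      Q.map (algebraMap k (AlgebraicClosure K)) := by
    ext i j
    simp
  have h3 := hermZ_map (aeval u : MvPolynomial _ k →ₐ[k] _).toRingHom p (C γ) (Q.map C)
    (fun i => C (e i)) X
  have h4 := hermB_map (aeval u : MvPolynomial _ k →ₐ[k] _).toRingHom p (C γ) (Q.map C) X
  rw [e1] at h3 h4
  simp only [AlgHom.toRingHom_eq_coe, RingHom.coe_coe, aeval_C, aeval_X] at h3 h4
  refine hc.2 ⟨u, ?_, h4.trans hu, h3.symm⟩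
  rw [← h3]
  refine rk_le_of_mem ?_
  rintro _ ⟨i, rfl⟩
  refine IntermediateField.algebra_adjoin_le_adjoin _ _ ?_
  rw [Algebra.adjoin_range_eq_range_aeval]
  exact ⟨_, rfl⟩

end hermrat

theorem herm_cone {p : ℕ} [Fact p.Prime] [CharP k p] [IsAlgClosed k] {γ : k} (hγ : γ ≠ 0)
    {Q : Matrix (Fin 2) (Fin 2) k} (hQ : Q.det ≠ 0) {e : Fin 2 → k}
    (he : ∑ i, e i * Q.mulVec e i ^ p ≠ 0) : ConeHyp p fun i => hblk γ Q * hsym e i := by
  rw [Matrix.det_fin_two] at hQ
  simp only [Fin.sum_univ_two, Matrix.mulVec, dotProduct] at he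
  have hf := herm_prime (p := p) hγ hQ
  have c3 : Fintype.card (Option (Fin 2)) = 3 := rfl
  have c5 : Fintype.card (Fin 5) = 5 := rfl
  have h2 : ∀ d : ℕ∞, ((5 : ℕ) : ℕ∞) ≤ d + (3 : ℕ) → 2 ≤ d := fun d hd =>
    (ENat.add_le_add_iff_right (ENat.natCast_ne_top 3)).1 (le_trans (by norm_num) hd)
  have h1 : ∀ d : ℕ∞, 2 ≤ d → ¬d ≤ 1 := fun d hd h => absurd (hd.trans h) (by norm_num)
  refine ⟨fun K _ _ z hz => ?_, fun K K' _ _ _ _ z z' hz hz' hd hd' => ?_,
    fun K _ _ _ z hz hd => ?_⟩
  · have : dm k z ≤ 2 := by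
      rcases herm_main hγ hQ he hz with h | ⟨u, h, h', -⟩
      · exact h.trans one_le_two
      · exact h.trans (herm_dm2 hf.ne_zero h')
    rw [c3, c5]
    exact (add_le_add this le_rfl).trans (by norm_num)
  · rw [c3, c5] at hd hd'
    obtain ⟨u, a1, a2, a3⟩ := (herm_main hγ hQ he hz).resolve_left (h1 _ (h2 _ hd))
    obtain ⟨u', -, b2, b3⟩ := (herm_main hγ hQ he hz').resolve_left (h1 _ (h2 _ hd'))
    have := (Ideal.span_singleton_prime hf.ne_zero).2 hf
    obtain ⟨Ω, _, _, _, c, hc⟩ := exists_pt_of_prime (Ideal.span {hermD MvPolynomial.X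
      (hermN p (MvPolynomial.C γ) (Q.map MvPolynomial.C) MvPolynomial.X)})
    have hs : ∀ {L : Type u} [Field L] [Algebra k L] (y : Option (Fin 2) → L),
        MvPolynomial.aeval y (hermD MvPolynomial.X (hermN p (MvPolynomial.C γ)
          (Q.map MvPolynomial.C) MvPolynomial.X)) = 0 → Spc k c y := fun y hy f h => by
      obtain ⟨r, rfl⟩ := Ideal.mem_span_singleton.1 ((hc f).1 h)
      rw [map_mul, hy, zero_mul]
    have h3 := ((hs u a2).symm_of_dm (FG.of_finite c) ((herm_dm2 hf.ne_zero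
      ((hc _).2 (Ideal.mem_span_singleton_self _))).trans ((h2 _ hd).trans a1))).trans (hs u' b2)
    have h4 := h3.aeval (hermZ p (MvPolynomial.C γ) (Q.map MvPolynomial.C)
      (fun i => MvPolynomial.C (e i)) MvPolynomial.X)
    rw [← a3, ← b3] at h4
    exact ((Spc.map z _).trans h4).trans (Spc.of_map z' _ (RingHom.injective _))
  · rw [c3, c5] at hd
    have inj := (algebraMap k K).injective
    have h3 := herm_nil hγ hQ hz
    obtain ⟨x, hx⟩ := not_forall.1 fun h => h1 _ (h2 _ hd)
      (herm_cls hγ hQ he rfl (fun _ _ => rfl) (fun _ => rfl) h3 h)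
    choose v hv using fun i => IsAlgClosed.exists_pow_nat_eq (x i) (Fact.out : p.Prime).pos
    refine ⟨v, fun w => ?_⟩
    obtain ⟨δ, hδ⟩ := herm_onto ((map_ne_zero_iff _ inj).2 hγ)
      (by simpa only [Matrix.map_apply, ← map_mul, ← map_sub] using (map_ne_zero_iff _ inj).2 hQ)
      hx (herm_sym (h3 x) _) w
    refine ⟨δ, ?_⟩
    rw [c3]
    simp only [Function.iterate_succ_apply', Function.iterate_zero_apply, herm_lin, hv]
    exact hδ

end PR0
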