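import Pool.Agent.Work.MP_da2620_ag.HermTB

/-!
# Nodes on a smooth component; independence of the forms `∂ h`
-/

namespace PR0

open Matrix

universe u

variable {k : Type u} [Field k] [IsAlgClosed k] {L : Type u} [Field L] [Algebra k L]
  [Fact (IsFF k L)] {ι : Type} [Fintype ι] [DecidableEq ι] [Nonempty ι] (d : CD k L ι)

theorem CD.exists_node {q : Place k L} (hx : d.x ∈ q.1)
    (hu : ¬ q.Ge (d.x - algebraMap k L (q.val d.x)) 2) : ∃ N : NodeD d.alg,
    (∀ (f : d.alg) (g : L), g ∈ d.reg → f.1 = d.exT g → N.ev f = q.val g) ∧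
    (genus k L ≠ 0 → ∀ a ∈ d.alg, ¬ Pole (N.s - a) 0) ∧
    ∀ D : Derivation k L L, D d.x = 1 → (∀ f ∈ d.reg, D f ∈ q.1) →
      ∀ (f : d.alg) (g : L), g ∈ d.reg → f.1 = d.exT g → N.ev (N.m f) = q.val (D g) := by
  have hX1 := Place.ge_sub_val hx
  obtain ⟨X, hX⟩ : ∃ X, X = d.x - algebraMap k L (q.val d.x) := ⟨_, rfl⟩
  rw [← hX] at hu hX1
  have hX0 : X ≠ 0 := fun h => hu (Or.inl h)
  have hXo : q.ord X⁻¹ = -1 := by
    have a1 := hX1.resolve_left hX0
    have a2 := mt Or.inr hu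
    rw [q.ord_inv hX0]
    omega
  have hq : q ∉ Set.range d.pl := fun h => (d.poles_eq.ge h) hx
  have hz : H1z ((2 * genus k L : ℤ) • d.inf) := h1z_of_deg (by
    rw [dg_smul, CD.inf, dg_sum]
    simp only [dg_single, Finset.sum_const, Finset.card_univ, nsmul_eq_mul, mul_one]
    exact le_mul_of_one_le_right (by positivity) (by exact_mod_cast Fintype.card_pos))
  obtain ⟨s, hs⟩ := hz _ (rr_ind_mem (Set.finite_singleton q) X⁻¹)
  have hs0 : ∀ P, P ∉ Set.range d.pl →
      P.Ge (s - ({q} : Set (Place k L)).indicator (fun _ => X⁻¹) P) 0 := fun P hP => by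
    have : d.inf P = 0 := by
      rw [CD.inf, Finsupp.finsetSum_apply]
      exact Finset.sum_eq_zero fun i _ => Finsupp.single_eq_of_ne fun h => hP ⟨i, h.symm⟩
    simpa [this] using hs P
  have hs1 : ∀ P, P ∉ Set.range d.pl → P ≠ q → s ∈ P.1 := fun P hP h => P.mem_iff.2 (by
    simpa [Set.indicator_of_notMem (s := {q}) h] using hs0 P hP)
  have hs2 : q.Ge (s - X⁻¹) 0 := by simpa using hs0 q hq
  have hs3 : q.Ge s (-1) := by simpa using (hs2.mono (by norm_num)).add (Or.inr hXo.ge)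
  have hs4 : q.Ge (s * X - algebraMap k L 1) 1 := by
    simpa [sub_mul, hX0] using hs2.mul hX1
  have hm : ∀ u ∈ d.reg, q.val u = 0 → s * u ∈ d.reg := fun u hu' h0 P hP => by
    by_cases h : P = q
    · subst h
      exact P.mem_iff.2 (by simpa using hs3.mul ((Place.val_eq_zero (hu' P hP)).1 h0))
    · exact mul_mem (hs1 P hP h) (hu' P hP)
  have hc : ∀ g ∈ d.reg, g - algebraMap k L (q.val g) ∈ d.reg ∧
      q.val (g - algebraMap k L (q.val g)) = 0 := fun g hg =>
    ⟨sub_mem hg (algebraMap_mem _ _), (Place.val_eq_zero (sub_mem (hg q hq) (q.2.2 _))).2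
      (Place.ge_sub_val (hg q hq))⟩
  obtain ⟨ev, hev⟩ := q.exists_ev d.reg fun f hf => hf q hq
  let E : d.reg ≃ₐ[k] d.alg := d.reg.equivMapOfInjective d.exT d.exT_injective
  have hE : ∀ (f : d.alg) (g : L), g ∈ d.reg → f.1 = d.exT g → ev (E.symm f) = q.val g :=
    fun f g hg h => by rw [E.symm_apply_eq.2 (Subtype.ext h : f = E ⟨g, hg⟩), hev]
  have hxa : xx ι k ∈ d.alg := ⟨_, d.x_mem, d.exT_x⟩
  refine ⟨⟨hxa, ev.comp E.symm, d.exT s, ?_, fun w hw => ?_⟩, hE, ?_, ?_⟩
  · rintro ⟨_, g, hg, rfl⟩ h0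
    exact ⟨_, hm g hg ((hE _ g hg rfl).symm.trans h0), map_mul _ _ _⟩
  · refine (hE w (s * X) (hX ▸ hm _ (hc _ d.x_mem).1 (hc _ d.x_mem).2) ?_).trans
      (Place.val_eq hs4)
    rw [hw, hX, map_mul, map_sub, d.exT_x, AlgHom.commutes]
    exact congrArg (fun t => _ * (_ - algebraMap k _ t)) (hE _ _ d.x_mem d.exT_x.symm)
  · rintro hg _ ⟨g, hg', rfl⟩ hP
    have h1 : Lsp 0 = Lsp (Finsupp.single q (1 : ℤ)) := Submodule.eq_of_le_of_finrank_eq
      (rr_Lsp_mono (Finsupp.single_nonneg.2 zero_le_one)) (ell_zero.trans (ell_single hg q).symm)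
    have h2 : s - g ∈ Lsp (Finsupp.single q (1 : ℤ)) := fun P => by
      by_cases h : P = q
      · subst h
        rw [Finsupp.single_eq_same]
        exact hs3.sub ((P.mem_iff.1 (hg' P hq)).mono (by norm_num))
      · rw [Finsupp.single_eq_of_ne h, neg_zero, ← P.mem_iff]
        by_cases h' : P ∈ Set.range d.pl
        · obtain ⟨i, rfl⟩ := h'
          exact (d.mem_pl i _).2 (by simpa [d.exT_apply] using hP i)
        · exact sub_mem (hs1 P h' h) (hg' P h')
    have h3 : q.Ge (s - g) 0 := by simpa using (h1.ge h2) q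
    have h4 : q.Ge X⁻¹ 0 := by simpa using (h3.add (q.mem_iff.1 (hg' q hq))).sub hs2
    have := h4.resolve_left (inv_ne_zero hX0)
    omega
  · intro D hD hD' f g hg hf
    have hw := hm _ (hc g hg).1 (hc g hg).2
    have hσ : s * X ∈ d.reg := hX ▸ hm _ (hc _ d.x_mem).1 (hc _ d.x_mem).2
    refine (hE _ _ hw ?_).trans (Place.val_eq ?_)
    · change d.exT s * (f.1 - algebraMap k _ (ev (E.symm f))) = _
      rw [map_mul, map_sub, AlgHom.commutes, ← hf, ← hE f g hg hf]
    · have r := fun f hf => q.mem_iff.1 (hD' f hf)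
      have h1 := congrArg D (show s * X * (g - algebraMap k L (q.val g)) =
        X * (s * (g - algebraMap k L (q.val g))) by ring)
      rw [D.leibniz (s * X), D.leibniz X, map_sub, D.map_algebraMap, sub_zero,
        show D X = 1 by rw [hX, map_sub, D.map_algebraMap, sub_zero, hD]] at h1
      convert (((hs4.mul (r g hg)).add (Place.ge_sub_val (hD' g hg))).add
        ((Place.ge_sub_val (hg q hq)).mul (r _ hσ))).sub (hX1.mul (r _ hw)) using 1
      · simp only [smul_eq_mul, map_one] at h1 ⊢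
        linear_combination -h1
      · rfl

theorem CD.generic (D : Derivation k L L) (hD : D d.x = 1) : ∃ Z : Set (Place k L), Z.Finite ∧
    ∀ q, q ∉ Z → d.x ∈ q.1 ∧ (∀ f ∈ d.reg, D f ∈ q.1) ∧
      ¬ q.Ge (d.x - algebraMap k L (q.val d.x)) 2 := by
  obtain ⟨s, hs⟩ := finite_intCl d.transcendental
  rw [d.poles_eq] at hs
  refine ⟨Set.range d.pl ∪ ⋃ f ∈ s, poles k (D f), (Set.finite_range _).union
    (s.finite_toSet.biUnion fun f _ => finite_poles _), fun q hq => ?_⟩
  rw [Set.mem_union, not_or] at hq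
  have hx := d.x_mem q hq.1
  let B : Subalgebra k L :=
    { carrier := {f | f ∈ q.1 ∧ D f ∈ q.1}
      mul_mem' := fun h h' => ⟨mul_mem h.1 h'.1, by
        rw [D.leibniz]; exact add_mem (mul_mem h.1 h'.2) (mul_mem h'.1 h.2)⟩
      add_mem' := fun h h' => ⟨add_mem h.1 h'.1, by rw [map_add]; exact add_mem h.2 h'.2⟩
      algebraMap_mem' := fun c => ⟨q.2.2 c, by rw [D.map_algebraMap]; exact zero_mem _⟩ }
  have h1 : ∀ f ∈ d.reg, D f ∈ q.1 := fun f hf => by
    refine (Submodule.span_induction (p := fun f _ => f ∈ B) (fun f hf => ⟨?_, ?_⟩) (zero_mem _)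
      (fun _ _ _ _ => add_mem) (fun b f _ hf => mul_mem ?_ hf) ((hs f).1 hf)).2
    · exact (hs f).2 (Submodule.subset_span hf) q hq.1
    · exact not_not.1 fun h => hq.2 (Set.mem_biUnion hf h)
    · exact Algebra.adjoin_le (S := B) (Set.singleton_subset_iff.2 ⟨hx, hD ▸ one_mem _⟩) b.2
  refine ⟨hx, h1, fun h2 => ?_⟩
  have hf := Set.finite_range d.pl
  have hn := Set.range_nonempty d.pl
  have r := fun f hf => q.mem_iff.1 (h1 f hf)
  have hπ : q.Ge q.unif 1 := Or.inr q.ord_unif.ge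
  obtain ⟨t, ht, t0, hu⟩ := exists_den_place hf hn hq.1 (q.mem_iff.2 (hπ.mono zero_le_one))
  have t1 : t ≠ 0 ∧ q.ord t = 0 := by
    have a1 := mt (Place.val_eq_zero (ht q hq.1)).2 t0
    have a2 : t ≠ 0 := fun h => a1 (Or.inl h)
    have a3 := (q.mem_iff.1 (ht q hq.1)).resolve_left a2
    have a4 := mt Or.inr a1
    exact ⟨a2, by omega⟩
  have u0 := mul_ne_zero t1.1 q.unif_ne_zero
  have u1 : q.ord (t * q.unif) = 1 := by
    rw [q.ord_mul t1.1 q.unif_ne_zero, t1.2, q.ord_unif, zero_add]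
  generalize t * q.unif = u at hu u0 u1
  have h3 := rr_ge_div u0 h2
  rw [u1] at h3
  obtain ⟨t', ht', t0', hw⟩ := exists_den_place hf hn hq.1 (q.mem_iff.2 (h3.mono (by norm_num)))
  refine t0' ((Place.val_eq_zero (ht' q hq.1)).2 ?_)
  have h4 := congrArg D (show t' * (d.x - algebraMap k L (q.val d.x)) =
    u * (t' * ((d.x - algebraMap k L (q.val d.x)) * u⁻¹)) by field_simp)
  rw [D.leibniz t', D.leibniz u, map_sub, D.map_algebraMap, sub_zero, hD] at h4
  convert ((Place.Ge.mul (Or.inr u1.ge) (r _ hw)).add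
    (((q.mem_iff.1 (ht' q hq.1)).mul h3).mul (r _ hu))).sub
      ((h2.mono one_le_two).mul (r _ ht')) using 1
  · simp only [smul_eq_mul] at h4
    linear_combination h4
  · rfl

theorem CD.indep (p : ℕ) [Fact p.Prime] [CharP k p] {J : Finset (ι × ℕ)} (hJ : IsChart J d.alg)
    {D : Derivation k L L} (hD : ∀ f, D f = 0 → ∃ g, f = g ^ p) {G : Type} [Fintype G] (σ : G ≃ J)
    {h : G → L} (hr : ∀ j, h j ∈ d.reg) (hP : ∀ j, Pole (pm k (σ j).1 ^ p - d.exT (h j)) 0) :
    LinearIndependent k fun j => D (h j) := by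
  have hp : 0 < p := (Fact.out : p.Prime).pos
  obtain ⟨i₀⟩ := ‹Nonempty ι›
  refine Fintype.linearIndependent_iff.2 fun c hc j => ?_
  choose v hv using fun j => IsAlgClosed.exists_pow_nat_eq (c j) hp
  obtain ⟨g, hg⟩ := hD (∑ j, c j • h j) (by simpa using hc)
  have h1 : g ^ p ∈ d.reg := hg ▸ sum_mem fun j _ => d.reg.smul_mem (hr j) _
  have h2 : cls i₀ J d.alg (pv J (v ∘ σ.symm)) = 0 := by
    refine (hJ.cls_eq_zero i₀).2 ⟨d.exT g, ⟨g, fun P hP => ?_, rfl⟩, fun i m hm => ?_⟩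
    · by_cases h0 : g = 0
      · exact h0 ▸ zero_mem _
      have h4 := (P.mem_iff.1 (h1 P hP)).resolve_left (pow_ne_zero p h0)
      rw [P.ord_pow h0] at h4
      exact P.mem_iff.2 (Or.inr ((mul_nonneg_iff_of_pos_left (by exact_mod_cast hp)).1 h4))
    · have h3 : ((pv J (v ∘ σ.symm) - d.exT g) i) ^ p =
          ∑ j, c j • (pm k (σ j).1 ^ p - d.exT (h j)) i := by
        rw [Pi.sub_apply, sub_pow_char, pv, ← σ.sum_comp, Finset.sum_apply, sum_pow_char,
          ← Pi.pow_apply, ← map_pow, ← hg, map_sum, Finset.sum_apply, ← Finset.sum_sub_distrib]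
        simp [smul_sub, smul_pow, hv]
      have h4 := congrArg (LS.cf · (p * m)) h3
      have hp' : (0 : ℤ) < p := by exact_mod_cast hp
      simp only [LS.cf_pow_char, dvd_mul_right, if_true, Int.mul_ediv_cancel_left _ hp'.ne',
        LS.cf_sum, LS.cf_smul] at h4
      refine (pow_eq_zero_iff hp.ne').1 (h4.trans (Finset.sum_eq_zero fun j _ => ?_))
      exact mul_eq_zero_of_right _ (hP j i _ (by simpa using mul_neg_of_pos_of_neg hp' hm))
  rw [hJ.cls_pv] at h2
  rw [← hv, show v j = 0 by simpa using congrFun h2 (σ j), zero_pow hp.ne']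

end PR0
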