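import Pool.Agent.Work.MP_da2620_ag.OneT
import Pool.Agent.Work.MP_da2620_ag.Herm
import Pool.Agent.Work.MP_da2620_ag.HermTC

/-!
# Local uniqueness at a superspecial genus two curve with an elliptic tail

Fix a chart `d₀` of `C` with simple `J₀ = {v₀, v₁}`, `v_j ^ p = h_j + regular`, `η j = ∂ h_j`; these are
independent over `k`.  The node `q` is chosen outside a finite set such that `e = η(q)` satisfies the
condition of `herm_cone`.  See `HermTA` (residues), `HermTB` (gluing), `HermTC` (components).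
-/

namespace PR0

universe u

variable {k : Type u} [Field k] [IsAlgClosed k]

theorem CD.res_thm {L : Type u} [Field L] [Algebra k L] [Fact (IsFF k L)] {ι : Type} [Fintype ι]
    [DecidableEq ι] [Nonempty ι] (d : CD k L ι) {F G : LT ι k} (hF : F ∈ d.alg) (hG : G ∈ d.alg) :
    ∑ i, (F i * LS.dx (G i)).cf 1 = 0 :=
  d.exists_chart.elim fun _ h => h.rs_zero (Classical.arbitrary ι) hF hG

open Matrix

section
variable {L : Type u} [Field L] [Algebra k L] [Fact (IsFF k L)] {ι : Type} [Fintype ι]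
  [DecidableEq ι] [Nonempty ι] (d : CD k L ι) (p : ℕ) [Fact p.Prime] [CharP k p]
  {J : Finset (ι × ℕ)}

theorem HermT_li {κ : Type} {ω : κ → L} (h : LinearIndependent k ω) :
    LinearIndependent k fun l => d.exT (ω l) :=
  h.map' d.exT.toLinearMap (LinearMap.ker_eq_bot.2 d.exT_injective)

/-- the elliptic tail -/
theorem HermT_tail (hJ : IsChart J d.alg) (hJ1 : ∀ ν ∈ J, ν.2 < 1) (hg : genus k L = 1)
    (h : HW0 k L p) : ∃ ν ∈ J, ∃ f : d.alg, Pole (pm k ν ^ p - f.1) 0 ∧ rs (pm k ν * dT f.1) ≠ 0 ∧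
      (∀ s, (∀ a ∈ d.alg, ¬ Pole (s - a) 0) → rs (s * dT f.1) ≠ 0) ∧
      ∀ t, ∃ a ∈ d.alg, rs (a * (dT f.1 * dT f.1)) = t := by
  obtain ⟨i₀⟩ := ‹Nonempty ι›
  have hc : Fintype.card J = 1 := by rw [Fintype.card_coe, d.card_eq hJ, hg]
  let σ := (Fintype.equivFinOfCardEq hc).symm
  have hn := (hJ.snil_iff (k := k) p i₀).2 ((d.hw0_iff p).1 h)
  obtain ⟨_, ⟨g, hr, rfl⟩, hP⟩ := (hJ.cls_eq_zero i₀ (F := pm k (σ 0).1 ^ p)).1 (by
    rw [SNil, hc] at hn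
    rw [hJ.cls_pow i₀ (k := k), ← Function.iterate_one (sapp p _), iterate_sapp, hn,
      zero_mulVec])
  obtain ⟨D, hD, -, hD0⟩ := d.exists_der p
  have hd : dT (d.exT g) = d.exT (D g) := funext fun i => (hD i g).symm
  have hP' : ∀ j : Fin 1, Pole (pm k (σ j).1 ^ p - d.exT g) 0 := fun j => by
    rw [Subsingleton.elim j 0]; exact hP
  have hi := d.indep p hJ hD0 σ (h := fun _ => g) (fun _ => hr) hP'
  have hA : d.exT g ∈ d.alg := ⟨g, hr, rfl⟩
  have h2 := dT_pole_pow p hP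
  have hu := (hJ.rs_unit i₀ σ (H := fun _ => d.exT g) (fun _ => hA) (fun _ => h2)
    (by simpa only [hd] using HermT_li d hi)).ne_zero
  rw [det_fin_one, of_apply] at hu
  refine ⟨_, (σ 0).2, ⟨_, hA⟩, hP, hu, fun s hs h0 => ?_, fun t => ?_⟩
  · rw [hJ.rs_cls i₀ hA h2, ← σ.sum_comp, Fin.sum_univ_one] at h0
    obtain ⟨a, ha, h3⟩ := (hJ.cls_eq_zero i₀ (F := s)).1 (funext fun j => by
      obtain ⟨j, rfl⟩ := σ.surjective j
      rw [Subsingleton.elim j 0]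
      exact (mul_eq_zero.1 h0).resolve_left hu)
    exact hs a ha h3
  · obtain ⟨a, ha, h3⟩ := hJ.rs_onto i₀ hJ1 (ω := fun _ : Fin 1 => dT (d.exT g) * dT (d.exT g))
      (by simpa only [hd, ← map_mul] using HermT_li d (linearIndependent_unique_iff.2
        (mul_ne_zero (hi.ne_zero 0) (hi.ne_zero 0)) : LinearIndependent k fun _ : Fin 1 => D g * D g))
      (fun _ => Chart_pole_mono (Univ_pole_mul h2 h2) (by norm_num)) fun _ => t
    exact ⟨a, ha, h3 0⟩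

theorem HermT_quad {a : Fin 2 → L} (h : LinearIndependent k a) :
    LinearIndependent k ![a 0 * a 0, a 0 * a 1, a 1 * a 1] := by
  refine Fintype.linearIndependent_iff.2 fun c hc => ?_
  have h1 := h.ne_zero 1
  have h2 : Polynomial.C (c 0) * Polynomial.X ^ 2 + Polynomial.C (c 1) * Polynomial.X +
      Polynomial.C (c 2) = 0 := by
    by_contra h0
    obtain ⟨r, hr⟩ := herm_rat (x := a 0 / a 1) h0 (by
      simp only [Fin.sum_univ_three, Algebra.smul_def, cons_val] at hc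
      simp only [map_add, map_mul, map_pow, Polynomial.aeval_C, Polynomial.aeval_X]
      field_simp
      linear_combination hc)
    have := Fintype.linearIndependent_iff.1 h ![1, -r] (by
      simp [Algebra.smul_def, hr, h1]) 0
    simp at this
  have h3 := fun n => congrArg (Polynomial.coeff · n) h2
  intro i
  fin_cases i
  · simpa using h3 2
  · simpa using h3 1
  · simpa using h3 0

/-- the superspecial core -/
theorem HermT_core (hJ : IsChart J d.alg) (hJ1 : ∀ ν ∈ J, ν.2 < 1) (hg : genus k L = 2)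
    (h : HWn k L p 1) : ∃ (μ : Fin 2 → ι × ℕ) (f : Fin 2 → d.alg) (Q : Matrix (Fin 2) (Fin 2) k)
      (q : Place k L) (N : NodeD d.alg), Function.Injective μ ∧ (∀ i, μ i ∈ J) ∧
      (∀ i, Pole (pm k (μ i) ^ p - (f i).1) 0) ∧
      Q * of (fun i j => rs (pm k (μ j) * dT (f i).1)) = 1 ∧
      (∀ z : Fin 5 → k, ∃ a ∈ d.alg, ∀ i j, rs (a * (dT (f j).1 * dT (f i).1)) =
        !![z 0, z 1; z 1, z 2] i j) ∧ d.x ∈ q.1 ∧ ¬ q.Ge (d.x - algebraMap k L (q.val d.x)) 2 ∧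
      (∀ (f : d.alg) (g : L), g ∈ d.reg → f.1 = d.exT g → N.ev f = q.val g) ∧
      ∑ i, N.ev (N.m (f i)) * Q.mulVec (fun i => N.ev (N.m (f i))) i ^ p ≠ 0 := by
  obtain ⟨i₀⟩ := ‹Nonempty ι›
  have hc : Fintype.card J = 2 := by rw [Fintype.card_coe, d.card_eq hJ, hg]
  let σ := (Fintype.equivFinOfCardEq hc).symm
  have h0 : ∀ j, ∃ g ∈ d.reg, Pole (pm k (σ j).1 ^ p - d.exT g) 0 := fun j => by
    obtain ⟨_, ⟨g, hr, rfl⟩, hP⟩ := (d.hwn_iff p 1).1 h (pm k (σ j).1)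
    exact ⟨g, hr, by rwa [pow_one] at hP⟩
  choose g hr hP using h0
  obtain ⟨D, hD, hDx, hD0⟩ := d.exists_der p
  have hd : ∀ g, dT (d.exT g) = d.exT (D g) := fun g => funext fun i => (hD i g).symm
  have hi := d.indep p hJ hD0 σ hr hP
  have hA : ∀ j, d.exT (g j) ∈ d.alg := fun j => ⟨_, hr j, rfl⟩
  have h2 := fun j => dT_pole_pow p (hP j)
  have hQ := nonsing_inv_mul _ (hJ.rs_unit i₀ σ hA h2 (by simpa only [hd] using HermT_li d hi))
  generalize (of fun i j => rs (pm k (σ j).1 * dT (d.exT (g i))))⁻¹ = Q at hQ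
  obtain ⟨Z, hZ, hq⟩ := d.generic D hDx
  have hΨ : D (g 0) * (algebraMap k L (Q 0 0) * D (g 0) + algebraMap k L (Q 0 1) * D (g 1)) ^ p +
      D (g 1) * (algebraMap k L (Q 1 0) * D (g 0) + algebraMap k L (Q 1 1) * D (g 1)) ^ p ≠ 0 :=
    fun h0 => by
      obtain ⟨s, r₀, r₁, a0, a1⟩ := herm_dir (by
        simpa [det_fin_two] using det_ne_zero_of_right_inverse hQ) h0
      have := Fintype.linearIndependent_iff.1 hi ![r₁, -r₀] (by
        simp [Algebra.smul_def, a0, a1]; ring) 0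
      exact hi.ne_zero 1 (by simpa [show r₁ = 0 from this] using a1)
  have := infinite_place (K := k) (L := L)
  obtain ⟨q, hq'⟩ := (hZ.union (finite_ord (K := k) hΨ)).infinite_compl.nonempty
  rw [Set.mem_compl_iff, Set.mem_union, not_or] at hq'
  obtain ⟨q1, q2, q3⟩ := hq q hq'.1
  obtain ⟨N, n1, -, n2⟩ := d.exists_node q1 q3
  refine ⟨fun j => σ j, fun j => ⟨_, hA j⟩, Q, q, N, Subtype.val_injective.comp σ.injective,
    fun j => (σ j).2, hP, hQ, fun z => ?_, q1, q3, n1, fun h0 => ?_⟩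
  · have h4 : ∀ i j, Pole (d.exT (D (g i) * D (g j))) (-3) := fun i j => by
      simpa only [hd, ← map_mul] using Chart_pole_mono (Univ_pole_mul (h2 i) (h2 j)) (by norm_num)
    obtain ⟨a, ha, h3⟩ := hJ.rs_onto i₀ hJ1 (HermT_li d (HermT_quad hi))
      (fun l => by fin_cases l <;> exact h4 _ _) ![z 0, z 1, z 2]
    refine ⟨a, ha, fun i j => ?_⟩
    simp only [hd, ← map_mul]
    fin_cases i <;> fin_cases j
    exacts [h3 0, mul_comm (D (g 0)) _ ▸ h3 1, h3 1, h3 2]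
  · obtain ⟨ev, hev⟩ := q.exists_ev (regOut {q}ᶜ) fun f hf => hf q (by simp)
    have hm : ∀ j, D (g j) ∈ regOut ({q}ᶜ : Set (Place k L)) := fun j P hP =>
      (not_not.1 hP : P = q) ▸ q2 _ (hr j)
    have h3 : ∀ j, N.ev (N.m ⟨_, hA j⟩) = ev ⟨_, hm j⟩ := fun j =>
      (n2 D hDx q2 _ _ (hr j) rfl).trans (hev ⟨_, hm j⟩).symm
    simp only [h3, Fin.sum_univ_two, mulVec, dotProduct] at h0
    have h4 := hev (⟨_, hm 0⟩ * (algebraMap k _ (Q 0 0) * ⟨_, hm 0⟩ +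
      algebraMap k _ (Q 0 1) * ⟨_, hm 1⟩) ^ p + ⟨_, hm 1⟩ * (algebraMap k _ (Q 1 0) * ⟨_, hm 0⟩ +
      algebraMap k _ (Q 1 1) * ⟨_, hm 1⟩) ^ p)
    have h5 := not_not.1 hq'.2
    simp only [map_add, map_mul, map_pow, AlgHom.commutes, Algebra.algebraMap_self, RingHom.id_apply,
      h0] at h4
    have h6 := ((Place.val_eq_zero (q.mem_iff.2 (Or.inr h5.ge))).1 h4.symm).resolve_left hΨ
    omega

end

theorem uniqC_herm (p : ℕ) [Fact p.Prime] [CharP k p] (C E : FFd k) (hC : genus k C.L = 2)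
    (h : HWn k C.L p 1) (hE : genus k E.L = 1) (hE' : HW0 k E.L p) (b : Place k E.L) :
    ∃ q : Place k C.L, UniqC p
      (⟨C, fun _ => E, fun _ => q, fun _ => b, fun _ _ _ => rfl⟩ : Comb Unit k) := by
  obtain ⟨d₀, -⟩ := exists_cd_avoid (K := k) (L := C.L) (ι := Fin 5) ∅ (fun _ => 0) (by simp [hC])
  obtain ⟨J₀, s₀, c₀⟩ := d₀.exists_chart_simple (by simp [hC])
  obtain ⟨μ, f, Q, q, N₀, a1, a2, a3, a4, a5, a6, a7, a8, a9⟩ := HermT_core d₀ p c₀ s₀ hC h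
  obtain ⟨d₁, hb⟩ := exists_cd_avoid (K := k) (L := E.L) (ι := Fin 5) {b} (fun _ => q.val d₀.x)
    (by simp [hE])
  obtain ⟨b1, b2, b3⟩ := hb b (Finset.mem_singleton_self b)
  rw [← b2] at b3
  obtain ⟨J₁, s₁, c₁⟩ := d₁.exists_chart_simple (by simp [hE])
  obtain ⟨ν, hν, g, g1, g2, g3, g4⟩ := HermT_tail d₁ p c₁ s₁ hE hE'
  obtain ⟨N₁, n1, n2, -⟩ := d₁.exists_node b1 b3
  let c : (⟨C, fun _ => E, fun _ => q, fun _ => b, fun _ _ _ => rfl⟩ : Comb Unit k).CC (Fin 10) :=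
    { ι₀ := Fin 5, ιt := fun _ => Fin 5, e := Fintype.equivFinOfCardEq (by simp), d₀ := d₀,
      dt := fun _ => d₁, ha := fun _ => a6, hb := fun _ => b1, hv := fun _ => b2.symm }
  obtain ⟨J, hs⟩ := c.exists_split' J₀ fun _ => J₁
  have hJ := (c.isChart_iff hs).2 ⟨c₀, fun _ => c₁⟩
  have hJ1 : ∀ ν ∈ J, ν.2 < 1 := fun ν => c.Comb_ind (P := fun i => (i, ν.2) ∈ J → ν.2 < 1)
    (fun i h => s₀ (i, ν.2) ((hs.1 _).2 h)) (fun j i h => s₁ (i, ν.2) ((hs.2 j _).2 h)) ν.1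
  let e : Fin 5 ⊕ Fin 5 ≃ Fin 10 :=
    (Equiv.sumCongr (Equiv.refl _) (Equiv.uniqueSigma fun _ : Unit => Fin 5).symm).trans c.e
  have e0 : ∀ F, resT k (e ∘ .inl) (c.exT F) = d₀.exT F.1 := fun F => funext (c.exT_inl F)
  have e1 : ∀ F, resT k (e ∘ .inr) (c.exT F) = d₁.exT (F.2 ()) := fun F => funext (c.exT_inr F ())
  have hG : Glued e N₀ N₁ c.alg := fun F => by
    constructor
    · rintro ⟨F, hF, rfl⟩
      obtain ⟨f0, f1, f2⟩ := c.mem_reg.1 hF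
      exact ⟨⟨_, _, f0, rfl⟩, ⟨_, _, f1 (), rfl⟩, e0 F, e1 F,
        (a8 _ _ f0 rfl).trans ((f2 ()).trans (n1 _ _ (f1 ()) rfl).symm)⟩
    · rintro ⟨⟨_, u, hu, rfl⟩, ⟨_, v, hv, rfl⟩, f0, f1, f2⟩
      exact ⟨(u, fun _ => v), c.mem_reg.2 ⟨hu, fun _ => hv, fun _ =>
        (a8 _ _ hu rfl).symm.trans (f2.trans (n1 _ _ hv rfl))⟩,
        resT_ext e ((e0 _).trans f0.symm) ((e1 _).trans f1.symm)⟩
  refine ⟨q, 10, 0, J, c.alg, ⟨c, rfl, hJ⟩, hJ1, fun K _ _ c' h1 h2 hd => ?_⟩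
  exact hG.uniq p hJ 0 hJ1 (c.curv (fun _ => a7) fun _ => b3)
    (by rw [c.card_eq hJ]; simp [Comb.genus, hC, hE]) a1 (fun i => (hs.1 _).1 (a2 i))
    ((hs.2 () _).1 hν) a3 g1 a4 g2 a9 (g3 _ (n2 (by omega))) a5 g4 h1 h2
    (by rwa [Fintype.card_fin])

end PR0
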