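import Pool.Agent.Work.MP_da2620_ag.PicA
import Pool.Agent.Work.MP_da2620_ag.HermT

/-!
# `p`-rank zero means that Frobenius is nilpotent on `H¹`

Fix a chart `d` with simple `J` and the derivation `∂` of `exists_der`.  `Omega d ∂` is the space of `η` with `η dx` regular.
For a finite place `P` with uniformiser `π ∈ d.reg`, `∂ O_P ⊆ O_P ∂π` (for `f = c + π g`, `∂ f = g ∂π + π ∂ g`; take `f ∈ d.reg` among
finitely many generators with `ord (∂ f)` minimal).  Let `W P = - ord_P ∂π ≥ 0` at finite places and `W = -2` at infinity; then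
`Omega = Lsp W` (`mem_span_of_ord`).  `R = {a ∈ A | a ∂A ⊆ A} = {a | ord_P a ≥ W P}` has codimension `≤ ∑ W P`, and `≥ N` by
`exists_indep_der`; so `dg W ≥ 2 g - 2`.  `H1z W` fails: otherwise every Laurent tuple is `η +` (order `≥ 2`) with `η` in the
`A`-span of `∂A`, but `F ↦ ∑ (F i).cf 1` kills both (`res_thm`).  By `riemann`, `ell W ≥ g`.  The pairing embeds `Omega`
in the dual of `H¹ = K ^ J` (`cls`), so it is onto.
`hw0_of_prank`: if Frobenius is not nilpotent take `l` from `exists_form`, `l ∘ cls = ⟨·, η⟩`; then all expansions of `η` satisfy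
`Car` (`cls_pow`, `car_iff`), so `∂ h = η h` for some `h ≠ 0` (`exists_dlog`, `exists_sol`).  All orders of `h` are divisible by `p`
(at infinity `cf_dlog`; at `P`: `h = π ^ n u`, `η = n ∂π / π + ∂u / u`), and `h` is not a `p`-th power as `η ≠ 0`.
`prank_of_hw0`: if all orders of `h ≠ 0` are divisible by `p` then `η = ∂h / h ∈ Omega`, and
`⟨F, η⟩ ^ (p ^ n) = ⟨F ^ (p ^ n), η⟩ = 0` (`car_dlog`), so `η = 0` and `h` is a `p`-th power.
-/

namespace PR0

universe u

variable {K L : Type u} [Field K] [IsAlgClosed K] [Field L] [Algebra K L] [Fact (IsFF K L)]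
  {ι : Type} [Fintype ι] [DecidableEq ι] [Nonempty ι]

/-- Regular differentials `η dx`. -/
def Omega (d : CD K L ι) (D : Derivation K L L) : Submodule K L where
  carrier := {η | η ∈ Submodule.span d.reg (D '' d.reg) ∧ ∀ i, (d.ex i η).Ge 2}
  add_mem' ha hb := ⟨add_mem ha.1 hb.1, fun i => by rw [map_add]; exact (ha.2 i).add (hb.2 i)⟩
  zero_mem' := ⟨zero_mem _, fun i => by rw [map_zero]; exact fun _ _ => rfl⟩
  smul_mem' c _ h := ⟨Submodule.smul_of_tower_mem _ c h.1, fun i => by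
    rw [map_smul]; exact (h.2 i).smul c⟩

/-- The residue pairing. -/
noncomputable def rpair (d : CD K L ι) (F : LT ι K) (η : L) : K := ∑ i, (F i * d.ex i η).cf 1

section
omit [IsAlgClosed K] [Fact (IsFF K L)] [DecidableEq ι] [Nonempty ι]

/-- The residue pairing as a bilinear map. -/
noncomputable def Pic_B (d : CD K L ι) : LT ι K →ₗ[K] L →ₗ[K] K :=
  LinearMap.mk₂ K (rpair d)
    (fun F G η => by simp [rpair, add_mul, Finset.sum_add_distrib])
    (fun c F η => by simp [rpair, Finset.mul_sum])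
    (fun F η η' => by simp [rpair, mul_add, Finset.sum_add_distrib])
    (fun c F η => by simp [rpair, Finset.mul_sum])

theorem Pic_B_apply (d : CD K L ι) (F : LT ι K) (η : L) : Pic_B d F η = rpair d F η := rfl

theorem Pic_single [DecidableEq ι] (d : CD K L ι) (i : ι) (G : LS K) (η : L) :
    rpair d (Pi.single i G) η = (G * d.ex i η).cf 1 := by
  rw [rpair, Finset.sum_eq_single i (fun j _ hj => by simp [Pi.single_eq_of_ne hj]) (by simp),
    Pi.single_eq_same]

end

theorem Pic_fin (d : CD K L ι) {P : Place K L} : P ∉ Set.range d.pl ↔ d.x ∈ P.1 := by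
  rw [← d.poles_eq]
  exact not_not

theorem Pic_div {P : Place K L} {η δ : L} (hδ : δ ≠ 0) : η / δ ∈ P.1 ↔ P.Ge η (P.ord δ) := by
  rw [P.mem_iff]
  by_cases h : η = 0
  · simp [h, Place.Ge]
  · rw [Place.Ge, Place.Ge, div_eq_mul_inv, P.ord_mul h (inv_ne_zero hδ), P.ord_inv hδ]
    simp [h, hδ]

theorem Pic_unit {P : Place K L} {s : L} (h : P.val s ≠ 0) (hs : s ∈ P.1) : s ≠ 0 ∧ P.ord s = 0 := by
  rw [Ne, Place.val_eq_zero hs, Place.Ge, not_or, not_le] at h
  have := (P.mem_iff.1 hs).resolve_left h.1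
  exact ⟨h.1, by omega⟩

section
variable (d : CD K L ι) {D : Derivation K L L} (hD : ∀ i f, d.ex i (D f) = LS.dx (d.ex i f))
include hD

omit [IsAlgClosed K] [Fact (IsFF K L)] [Fintype ι] [DecidableEq ι] in
theorem Pic_x : D d.x = 1 := by
  obtain ⟨i⟩ := ‹Nonempty ι›
  refine (d.ex i).toRingHom.injective ?_
  change d.ex i _ = d.ex i _
  rw [hD, d.ex_x, LS.dx_T, map_one]

theorem Pic_res {η : L} (h : η ∈ Submodule.span d.reg (D '' d.reg)) :
    ∀ a ∈ d.reg, rpair d (d.exT a) η = 0 := by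
  induction h using Submodule.span_induction with
  | mem η h =>
    obtain ⟨f, hf, rfl⟩ := h
    intro a ha
    simp only [rpair, hD]
    exact d.res_thm (Subalgebra.mem_map.2 ⟨a, ha, rfl⟩) (Subalgebra.mem_map.2 ⟨f, hf, rfl⟩)
  | zero => exact fun a _ => (Pic_B d _).map_zero
  | add x y _ _ hx hy =>
    intro a ha
    rw [← Pic_B_apply, map_add, Pic_B_apply, Pic_B_apply, hx a ha, hy a ha, add_zero]
  | smul r x _ hx =>
    intro a ha
    rw [← hx (a * r) (mul_mem ha r.2)]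
    simp only [rpair, CD.exT_apply, Subalgebra.smul_def, smul_eq_mul, map_mul, mul_assoc]

/-- bounds for the derivatives of generators are bounds for all derivatives -/
theorem Pic_gen : ∃ s : Finset L, ∀ (P : Place K L), d.x ∈ P.1 → ∀ m : ℤ, m ≤ 0 →
    (∀ y ∈ s, P.Ge (D y) m) → ∀ f ∈ P.1, P.Ge (D f) m := by
  obtain ⟨s, hs⟩ := finite_intCl (K := K) d.transcendental
  rw [d.poles_eq] at hs
  refine ⟨s, fun P hP m hm h f hf => ?_⟩
  have h1 : ∀ g ∈ Submodule.span (Algebra.adjoin K {d.x}) (s : Set L), P.Ge (D g) m := by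
    intro g hg
    induction hg using Submodule.span_induction with
    | mem y hy => exact h y hy
    | zero => exact Or.inl D.map_zero
    | add x y _ _ hx hy => rw [map_add]; exact hx.add hy
    | smul a y hy ih =>
      obtain ⟨_, ha⟩ := a
      obtain ⟨q, rfl⟩ := Algebra.adjoin_mem_exists_aeval _ _ ha
      have a1 : y ∈ P.1 := (hs y).2 hy P ((Pic_fin d).2 hP)
      have a2 : ∀ q : Polynomial K, Polynomial.aeval d.x q ∈ P.1 := fun q =>
        FFA_adj P hP _ (Polynomial.aeval_mem_adjoin_singleton K d.x)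
      change P.Ge (D (Polynomial.aeval d.x q * y)) m
      rw [D.leibniz, D.map_aeval, Pic_x d hD]
      simp only [smul_eq_mul, mul_one]
      refine Place.Ge.add ?_ ((P.mem_iff.1 (mul_mem a1 (a2 _))).mono hm)
      simpa using (P.mem_iff.1 (a2 q)).mul ih
  obtain ⟨t, ht, h2, h3⟩ := exists_den_place (Set.finite_range d.pl) (Set.range_nonempty d.pl)
    ((Pic_fin d).2 hP) hf
  obtain ⟨h4, h5⟩ := Pic_unit h2 (ht P ((Pic_fin d).2 hP))
  have e : D f = t⁻¹ * (D (t * f) - f * D t) := by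
    rw [D.leibniz]
    simp only [smul_eq_mul]
    field_simp
    ring
  have h6 : P.Ge t⁻¹ 0 := Or.inr (by rw [P.ord_inv h4, h5, neg_zero])
  have h7 : P.Ge (f * D t) m := by simpa using (P.mem_iff.1 hf).mul (h1 t ((hs t).1 ht))
  rw [e]
  simpa using h6.mul ((h1 _ ((hs _).1 h3)).sub h7)

theorem rpair_eq_zero {η : L} (h : η ∈ Omega d D) {F a : LT ι K} (ha : a ∈ d.alg)
    (hF : Pole (F - a) 0) : rpair d F η = 0 := by
  obtain ⟨a, ha', rfl⟩ := Subalgebra.mem_map.1 ha
  have h1 : rpair d (F - d.exT a) η = 0 :=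
    Finset.sum_eq_zero fun i _ => ((hF i).mul (h.2 i)) 1 (by omega)
  rw [← Pic_B_apply, map_sub, LinearMap.sub_apply, Pic_B_apply, Pic_B_apply,
    Pic_res d hD h.1 a ha', sub_zero] at h1
  exact h1

omit hD in
theorem eq_zero_of_rpair {η : L} (h : ∀ F, rpair d F η = 0) : η = 0 := by
  obtain ⟨i⟩ := ‹Nonempty ι›
  refine (d.ex i).toRingHom.injective ?_
  change d.ex i _ = d.ex i _
  rw [map_zero]
  ext n
  have := h (Pi.single i (LS.T K (1 - n)))
  rwa [Pic_single, LS.cf_T_mul, sub_sub_cancel] at this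

theorem der_mem {P : Place K L} (hP : d.x ∈ P.1) {π f : L} (h0 : π ≠ 0) (hπ : P.ord π = 1)
    (hf : f ∈ P.1) : D π ≠ 0 ∧ D f / D π ∈ P.1 := by
  classical
  obtain ⟨s, hs⟩ := Pic_gen d hD
  obtain ⟨b, hb⟩ := (s.image fun y => P.ord (D y)).bddBelow
  have h1 := hs P hP (min b 0) (min_le_right _ _) fun y hy =>
    Or.inr ((min_le_left _ _).trans (hb (Finset.mem_coe.2 (Finset.mem_image_of_mem _ hy))))
  obtain ⟨_, ⟨g, hg, hg0, rfl⟩, hm⟩ := Int.exists_least_of_bdd
    (P := fun n => ∃ g ∈ P.1, D g ≠ 0 ∧ P.ord (D g) = n)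
    ⟨min b 0, by
      rintro _ ⟨g, hg, hg0, rfl⟩
      exact (h1 g hg).resolve_left hg0⟩ ⟨_, d.x, hP, by rw [Pic_x d hD]; exact one_ne_zero, rfl⟩
  have h2 : ∀ f ∈ P.1, P.Ge (D f) (P.ord (D g)) := fun f hf =>
    or_iff_not_imp_left.2 fun h => hm _ ⟨f, hf, h, rfl⟩
  have h3 : (g - algebraMap K L (P.val g)) / π ∈ P.1 :=
    (Pic_div h0).2 (hπ ▸ Place.ge_sub_val hg)
  obtain ⟨w, hw⟩ : ∃ w, w = (g - algebraMap K L (P.val g)) / π := ⟨_, rfl⟩
  rw [← hw] at h3
  have e : g = algebraMap K L (P.val g) + π * w := by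
    rw [hw]
    field_simp
    ring
  have e1 : D g + -(π * D w) = w * D π := by
    conv_lhs => rw [e]
    rw [map_add, D.map_algebraMap, D.leibniz]
    simp
  have h4 := Place.ord_add_of_lt (P := P) (g := -(π * D w)) hg0 (by
    rw [add_comm]
    exact (Place.Ge.mul (Or.inr hπ.ge) (h2 w h3)).neg)
  rw [e1] at h4
  have h5 : D π ≠ 0 := right_ne_zero_of_mul h4.1
  have h6 : w ≠ 0 := left_ne_zero_of_mul h4.1
  have h7 := (P.mem_iff.1 h3).resolve_left h6
  rw [P.ord_mul h6 h5] at h4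
  exact ⟨h5, (Pic_div h5).2 ((h2 f hf).mono (by omega))⟩

theorem Pic_der {P : Place K L} (hP : d.x ∈ P.1) {f : L} (hf : f ∈ P.1) :
    D P.unif ≠ 0 ∧ D f / D P.unif ∈ P.1 := der_mem d hD hP P.unif_ne_zero P.ord_unif hf

theorem Pic_span {η : L} : η ∈ Submodule.span d.reg (D '' d.reg) ↔
    ∀ P : Place K L, d.x ∈ P.1 → η / D P.unif ∈ P.1 := by
  constructor
  · intro h P hP
    induction h using Submodule.span_induction with
    | mem η h =>
      obtain ⟨f, hf, rfl⟩ := h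
      exact (Pic_der d hD hP (Comb_mem d hP hf)).2
    | zero => simp
    | add x y _ _ hx hy => rw [add_div]; exact add_mem hx hy
    | smul r x _ hx =>
      rw [Subalgebra.smul_def, smul_eq_mul, mul_div_assoc]
      exact mul_mem (Comb_mem d hP r.2) hx
  · intro h
    have e : D '' d.reg = Set.range fun f : d.reg => D f := by
      ext y
      simp
    rw [e]
    refine mem_span_of_ord (Set.finite_range d.pl) (Set.range_nonempty d.pl) _ fun P hP => ?_
    have hx := (Pic_fin d).1 hP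
    have hu : P.unif ∈ P.1 := P.mem_iff.2 (Or.inr (by rw [P.ord_unif]; omega))
    obtain ⟨t, ht, h2, h3⟩ := exists_den_place (Set.finite_range d.pl) (Set.range_nonempty d.pl) hP hu
    obtain ⟨h4, h5⟩ := Pic_unit h2 (ht P hP)
    obtain ⟨h6, h7⟩ := der_mem d hD hx (mul_ne_zero h4 P.unif_ne_zero)
      (by rw [P.ord_mul h4 P.unif_ne_zero, h5, P.ord_unif, zero_add]) hu
    have h8 := (Pic_der d hD hx hu).1
    refine ((Pic_div h8).1 (h P hx)).imp_right fun h9 => ⟨⟨_, h3⟩, h6, ?_⟩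
    exact (((Pic_div h6).1 h7).resolve_left h8).trans h9

theorem mem_omega {η : L} : η ∈ Omega d D ↔ (∀ i, (d.ex i η).Ge 2) ∧
    ∀ P : Place K L, d.x ∈ P.1 → η / D P.unif ∈ P.1 := by
  rw [← Pic_span d hD]
  exact and_comm

/-- the finite part of the canonical divisor -/
theorem Pic_W : ∃ W : Dv K L, 0 ≤ W ∧ (∀ i, W (d.pl i) = 0) ∧
    ∀ P : Place K L, d.x ∈ P.1 → W P = -P.ord (D P.unif) := by
  classical
  obtain ⟨s, hs⟩ := Pic_gen d hD
  have h1 : ∀ P : Place K L, d.x ∈ P.1 → P.ord (D P.unif) ≤ 0 := fun P hP => by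
    obtain ⟨a1, a2⟩ := Pic_der d hD hP hP
    rw [Pic_div a1, Pic_x d hD, ← map_one (algebraMap K L)] at a2
    have := a2.resolve_left (by simp)
    rwa [P.ord_const one_ne_zero] at this
  have h2 : (Function.support fun P : Place K L =>
      if d.x ∈ P.1 then -P.ord (D P.unif) else 0).Finite := by
    refine (s.finite_toSet.biUnion fun y _ => finite_poles (K := K) (D y)).subset fun P hP => ?_
    by_contra h3
    simp only [Set.mem_iUnion, not_exists, poles, Set.mem_ofPred_eq, not_not] at h3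
    refine hP ?_
    beta_reduce
    split_ifs with hx
    · have hu : P.unif ∈ P.1 := P.mem_iff.2 (Or.inr (by rw [P.ord_unif]; omega))
      have a1 := (hs P hx 0 le_rfl (fun y hy => P.mem_iff.1 (h3 y hy)) _ hu).resolve_left
        (Pic_der d hD hx hx).1
      have a2 := h1 P hx
      omega
    · rfl
  refine ⟨Finsupp.ofSupportFinite _ h2, fun P => ?_, fun i => if_neg (d.CD_x_notMem i),
    fun P hP => if_pos hP⟩
  change (0 : ℤ) ≤ if d.x ∈ P.1 then -P.ord (D P.unif) else 0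
  split_ifs with hx
  · have := h1 P hx
    omega
  · rfl

theorem Pic_deg (h : 2 * genus K L ≤ Fintype.card ι) {W : Dv K L} (h0 : 0 ≤ W)
    (h1 : ∀ i, W (d.pl i) = 0) (h2 : ∀ P : Place K L, d.x ∈ P.1 → W P = -P.ord (D P.unif)) :
    2 * (Fintype.card ι : ℤ) + 2 * genus K L ≤ dg W + 2 := by
  obtain ⟨J, hJ, hc⟩ := d.exists_chart_simple h
  have hn : 0 < Fintype.card ι := Fintype.card_pos
  obtain ⟨a, ha, hi⟩ := d.exists_indep_der hc hJ (N := 2 * Fintype.card ι + 2 * J.card - 2) (by omega)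
  choose b hb e using fun j => Subalgebra.mem_map.1 (ha j)
  choose m hm using fun j => exists_pole (a j)
  let ψ := Fintype.linearCombination K b
  have hψ : ∀ c, ψ c ∈ Lsp (((∑ j, m j : ℕ) : ℤ) • d.inf - W) → c = 0 := by
    intro c hc
    refine hi c fun F hF => ?_
    obtain ⟨f, hf, rfl⟩ := Subalgebra.mem_map.1 hF
    refine Subalgebra.mem_map.2 ⟨ψ c * D f, fun P hP => ?_, funext fun i => ?_⟩
    · have hx := (Pic_fin d).1 hP
      obtain ⟨a1, a2⟩ := Pic_der d hD hx (hf P hP)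
      have a3 := (hc P).mul ((Pic_div a1).1 a2)
      rw [Finsupp.sub_apply, Finsupp.smul_apply, d.CD_inf_not hP, h2 P hx] at a3
      exact P.mem_iff.2 (a3.mono (by simp))
    · rw [CD.exT_apply, map_mul, hD, CD.exT_apply]
      congr 1
      simp only [ψ, Fintype.linearCombination_apply, map_sum, map_smul, ← e, Finset.sum_apply,
        Pi.smul_apply, CD.exT_apply]
  have hle : ((∑ j, m j : ℕ) : ℤ) • d.inf - W ≤ ((∑ j, m j : ℕ) : ℤ) • d.inf := sub_le_self _ h0
  have a1 : LinearMap.range ψ ⊔ Lsp (((∑ j, m j : ℕ) : ℤ) • d.inf - W) ≤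
      Lsp (((∑ j, m j : ℕ) : ℤ) • d.inf) := by
    refine sup_le ?_ (rr_Lsp_mono hle)
    rintro _ ⟨c, rfl⟩
    rw [Fintype.linearCombination_apply]
    refine Submodule.sum_mem _ fun j _ => Submodule.smul_mem _ _ (d.mem_Lsp.2 ⟨hb j, ?_⟩)
    rw [e]
    exact Chart_pole_mono (hm j) (Int.ofNat_le.2
      (Finset.single_le_sum (fun _ _ => Nat.zero_le _) (Finset.mem_univ j)))
  have a2 : LinearMap.range ψ ⊓ Lsp (((∑ j, m j : ℕ) : ℤ) • d.inf - W) = ⊥ := by
    rw [eq_bot_iff]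
    rintro _ ⟨⟨c, rfl⟩, hc⟩
    rw [hψ c hc, map_zero]
    exact zero_mem _
  have a3 := Submodule.finrank_sup_add_finrank_inf_eq (LinearMap.range ψ)
    (Lsp (((∑ j, m j : ℕ) : ℤ) • d.inf - W))
  have a4 : Function.Injective ψ := (injective_iff_map_eq_zero ψ).2 fun c hc =>
    hψ c (hc ▸ zero_mem _)
  rw [a2, finrank_bot, LinearMap.finrank_range_of_inj a4, Module.finrank_fin_fun] at a3
  have a5 := Submodule.finrank_mono a1
  have a6 := rr_s_mono hle
  rw [dg_sub, ell, ell] at a6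
  rw [← d.card_eq hc]
  omega

theorem genus_le_omega (h : 2 * genus K L ≤ Fintype.card ι) :
    genus K L ≤ Module.finrank K (Omega d D) ∧ FiniteDimensional K (Omega d D) := by
  classical
  obtain ⟨W, h0, h1, h2⟩ := Pic_W d hD
  have h3 := Pic_deg d hD h h0 h1 h2
  have a1 : ∀ i, -(W - (2 : ℤ) • d.inf) (d.pl i) = 2 := fun i => by
    rw [Finsupp.sub_apply, Finsupp.smul_apply, d.CD_inf_pl, h1]
    rfl
  have a2 : ∀ P : Place K L, d.x ∈ P.1 → -(W - (2 : ℤ) • d.inf) P = P.ord (D P.unif) :=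
    fun P hP => by
      rw [Finsupp.sub_apply, Finsupp.smul_apply, d.CD_inf_not ((Pic_fin d).2 hP), h2 P hP]
      simp
  have e : Omega d D = Lsp (W - (2 : ℤ) • d.inf) := by
    ext η
    rw [mem_omega d hD]
    constructor
    · rintro ⟨b1, b2⟩ P
      by_cases hP : P ∈ Set.range d.pl
      · obtain ⟨i, rfl⟩ := hP
        rw [a1, d.ge_iff]
        exact b1 i
      · have hx := (Pic_fin d).1 hP
        rw [a2 P hx, ← Pic_div (Pic_der d hD hx hx).1]
        exact b2 P hx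
    · intro b
      refine ⟨fun i => ?_, fun P hx => ?_⟩
      · rw [← d.ge_iff, ← a1 i]
        exact b _
      · rw [Pic_div (Pic_der d hD hx hx).1, ← a2 P hx]
        exact b _
  have h4 : ¬ H1z (W - (2 : ℤ) • d.inf) := by
    intro hz
    obtain ⟨i₀⟩ := ‹Nonempty ι›
    obtain ⟨f, hf⟩ := hz _ (rr_ind_mem (Set.finite_singleton (d.pl i₀)) d.x⁻¹)
    have b1 : f ∈ Submodule.span d.reg (D '' d.reg) := (Pic_span d hD).2 fun P hx => by
      have := hf P
      have hP : P ∉ ({d.pl i₀} : Set (Place K L)) := fun e =>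
        d.CD_x_notMem i₀ (Set.mem_singleton_iff.1 e ▸ hx)
      rw [a2 P hx, Set.indicator_of_notMem hP, sub_zero] at this
      exact (Pic_div (Pic_der d hD hx hx).1).2 this
    have b2 := Pic_res d hD b1 1 (one_mem _)
    have b3 : ∀ i, (d.exT 1 i * d.ex i f).cf 1 = if i = i₀ then 1 else 0 := by
      intro i
      have b4 := hf (d.pl i)
      rw [a1, d.ge_iff] at b4
      have b5 := b4 1 (by omega)
      rw [map_sub, LS.cf_sub, sub_eq_zero] at b5
      rw [map_one, Pi.one_apply, one_mul, b5]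
      split_ifs with hi
      · subst hi
        have b6 : LS.T K (-1) * LS.T K 1 = 1 := by rw [← LS.T_add, ← LS.T_zero]; rfl
        rw [Set.indicator_of_mem (Set.mem_singleton _), map_inv₀, d.ex_x,
          ← eq_inv_of_mul_eq_one_right b6, LS.cf_T, if_pos rfl]
      · have hP : d.pl i ∉ ({d.pl i₀} : Set (Place K L)) := fun e => hi (d.inj e)
        rw [Set.indicator_of_notMem hP, map_zero, LS.cf_zero]
    simp only [rpair, b3] at b2
    simp at b2
  have h5 := riemann (W - (2 : ℤ) • d.inf)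
  rw [h1z_iff] at h4
  rw [dg_sub, dg_smul, d.CD_dg_inf, ell] at h5
  rw [e]
  exact ⟨by omega, inferInstance⟩

theorem exists_omega (h : 2 * genus K L ≤ Fintype.card ι) (l : LT ι K →ₗ[K] K)
    (hl : ∀ F, ∀ a ∈ d.alg, Pole (F - a) 0 → l F = 0) :
    ∃ η ∈ Omega d D, ∀ F, l F = rpair d F η := by
  obtain ⟨J, -, hc⟩ := d.exists_chart_simple h
  obtain ⟨h1, h2⟩ := genus_le_omega d hD h
  obtain ⟨i₀⟩ := ‹Nonempty ι›
  have key : ∀ l : LT ι K →ₗ[K] K, (∀ F, ∀ a ∈ d.alg, Pole (F - a) 0 → l F = 0) → ∀ F,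
      l F = ∑ j : J, cls i₀ J d.alg F j * l (pm K j.1) := by
    intro l hl F
    have a1 : cls i₀ J d.alg (F - ∑ j : J, cls i₀ J d.alg F j • pm K j.1) = 0 :=
      ((Chart_clsL i₀ J d.alg).map_sub _ _).trans (sub_eq_zero.2 (hc.Chart_cls_sum i₀ _).symm)
    obtain ⟨a, ha, a2⟩ := (hc.cls_eq_zero i₀).1 a1
    have a3 := hl _ a ha a2
    rw [map_sub, sub_eq_zero, map_sum] at a3
    simpa using a3
  have key2 : ∀ η ∈ Omega d D, ∀ F,
      rpair d F η = ∑ j : J, cls i₀ J d.alg F j * rpair d (pm K j.1) η := fun η hη =>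
    key ((Pic_B d).flip η) fun F a ha hF => rpair_eq_zero d hD hη ha hF
  let Φ : Omega d D →ₗ[K] J → K :=
    LinearMap.pi fun j => (Pic_B d (pm K j.1)).comp (Omega d D).subtype
  have h3 : Function.Injective Φ := (injective_iff_map_eq_zero Φ).2 fun η hη =>
    Subtype.ext (eq_zero_of_rpair d fun F => by
      rw [key2 η.1 η.2]
      exact Finset.sum_eq_zero fun j _ => mul_eq_zero_of_right _ (congrFun hη j))
  have h4 := LinearMap.finrank_le_finrank_of_injective h3
  have h5 : Module.finrank K (J → K) = genus K L := by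
    rw [Module.finrank_fintype_fun_eq_card, Fintype.card_coe, d.card_eq hc]
  obtain ⟨η, hη⟩ := (LinearMap.injective_iff_surjective_of_finrank_eq_finrank (by omega)).1 h3
    fun j => l (pm K j.1)
  refine ⟨η, η.2, fun F => ?_⟩
  rw [key l hl, key2 η.1 η.2]
  exact Finset.sum_congr rfl fun j _ => congrArg _ (congrFun hη j).symm

/-- logarithmic derivatives at finite places -/
theorem Pic_dlog {P : Place K L} (hP : d.x ∈ P.1) {f : L} (hf : f ≠ 0) :
    D f / f / D P.unif ∈ P.1 ↔ (P.ord f : K) = 0 := by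
  have hu := P.unif_ne_zero
  obtain ⟨w, hw⟩ : ∃ w, w = f * P.unif ^ (-P.ord f) := ⟨_, rfl⟩
  have h0 : w ≠ 0 := hw ▸ mul_ne_zero hf (zpow_ne_zero _ hu)
  have h1 : P.ord w = 0 := by
    rw [hw, P.ord_mul hf (zpow_ne_zero _ hu), rr_ge_unif, add_neg_cancel]
  obtain ⟨h2, h3⟩ := Pic_der d hD hP (P.mem_iff.2 (Or.inr h1.ge))
  have h4 : D w / D P.unif * w⁻¹ ∈ P.1 :=
    mul_mem h3 (P.mem_iff.2 (Or.inr (by rw [P.ord_inv h0, h1, neg_zero])))
  have e : D w / D P.unif * w⁻¹ = D f / f / D P.unif - algebraMap K L (P.ord f) / P.unif := by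
    have := zpow_ne_zero (P.ord f) hu
    rw [hw, D.leibniz, D.leibniz_zpow, map_intCast, zpow_sub_one₀ hu, zpow_neg]
    simp only [smul_eq_mul, zsmul_eq_mul]
    push_cast
    field_simp
    ring
  rw [e] at h4
  constructor
  · intro h
    by_contra h5
    have h6 := sub_mem h h4
    rw [sub_sub_cancel, Pic_div hu, P.ord_unif] at h6
    rcases h6 with h6 | h6
    · exact h5 ((map_eq_zero _).1 h6)
    · rw [P.ord_const h5] at h6
      omega
  · intro h
    simpa [h] using h4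

/-- logarithmic derivatives at infinity -/
theorem Pic_dlog' (i : ι) {f : L} (hf : f ≠ 0) :
    (d.ex i (D f / f)).Ge 2 ↔ ((d.pl i).ord f : K) = 0 := by
  have h1 : (d.ex i f).Ge ((d.pl i).ord f) := (d.ge_iff i f _).1 (Or.inr le_rfl)
  have h2 : (d.ex i f).cf ((d.pl i).ord f) ≠ 0 := fun e => by
    have : (d.ex i f).Ge ((d.pl i).ord f + 1) := fun m hm => by
      rcases (Int.lt_add_one_iff.1 hm).lt_or_eq with hm | rfl
      · exact h1 m hm
      · exact e
    have := ((d.ge_iff i f _).2 this).resolve_left hf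
    omega
  obtain ⟨h3, h4⟩ := cf_dlog h1 h2
  rw [map_div₀, hD]
  constructor
  · intro h
    exact neg_eq_zero.1 (h4.symm.trans (h 1 (by omega)))
  · intro h m hm
    rcases (show m ≤ 1 by omega).lt_or_eq with hm | rfl
    · exact h3 m hm
    · rw [h4, h, neg_zero]

theorem Pic_omega_iff {f : L} (hf : f ≠ 0) :
    D f / f ∈ Omega d D ↔ ∀ P : Place K L, (P.ord f : K) = 0 := by
  rw [mem_omega d hD]
  refine ⟨fun h P => ?_, fun h => ⟨fun i => (Pic_dlog' d hD i hf).2 (h _),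
    fun P hP => (Pic_dlog d hD hP hf).2 (h P)⟩⟩
  by_cases hP : P ∈ Set.range d.pl
  · obtain ⟨i, rfl⟩ := hP
    exact (Pic_dlog' d hD i hf).1 (h.1 i)
  · exact (Pic_dlog d hD ((Pic_fin d).1 hP) hf).1 (h.2 P ((Pic_fin d).1 hP))

end

variable (p : ℕ) [Fact p.Prime] [CharP K p]

theorem prankZero_iff_ord : PRankZero K L p ↔
    ∀ h : L, h ≠ 0 → (∀ P : Place K L, (p : ℤ) ∣ P.ord h) → ∃ f : L, h = f ^ p := by
  have hp := (Fact.out : p.Prime).ne_zero
  refine ⟨fun H h h0 h1 => H h fun P => ?_, fun H h h1 => ?_⟩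
  · obtain ⟨k, hk⟩ := h1 P
    refine ⟨P.unif ^ k, ?_⟩
    rw [P.valuation_eq h0, hk, map_zpow₀, mul_comm, zpow_mul, zpow_natCast]
  · by_cases h0 : h = 0
    · exact ⟨0, by rw [h0, zero_pow hp]⟩
    refine H h h0 fun P => ?_
    obtain ⟨a, ha⟩ := h1 P
    have a0 : a ≠ 0 := by
      rintro rfl
      rw [map_zero, zero_pow hp, map_eq_zero] at ha
      exact h0 ha
    refine ⟨P.ord a, P.FF_ord ?_⟩
    rw [ha, P.valuation_eq a0, mul_comm, zpow_mul, zpow_natCast]

theorem Pic_cd : Nonempty (CD K L (Fin (2 * genus K L + 1))) :=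
  (exists_cd_avoid (ι := Fin (2 * genus K L + 1)) ∅ (fun _ => 0) (by simp)).nonempty

theorem hw0_of_prank (h : PRankZero K L p) : HW0 K L p := by
  obtain ⟨d⟩ := Pic_cd (K := K) (L := L)
  have hg : 2 * genus K L ≤ Fintype.card (Fin (2 * genus K L + 1)) := by simp
  obtain ⟨J, hc⟩ := d.exists_chart
  obtain ⟨D, hD, hx, -⟩ := d.exists_der p
  rw [d.hw0_iff p, ← hc.snil_iff (k := K) p 0]
  by_contra hn
  obtain ⟨l, hl0, hl⟩ := exists_form p hn
  obtain ⟨η, hη, e⟩ := exists_omega d hD hg (l.comp (Chart_clsL 0 J d.alg)) fun F a ha hF => by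
    change l (cls 0 J d.alg F) = 0
    rw [(hc.cls_eq_zero 0).2 ⟨a, ha, hF⟩, map_zero]
  have e' : ∀ F, l (cls 0 J d.alg F) = rpair d F η := e
  have h1 : Car p (d.ex 0 η) := (car_iff p).2 fun G => by
    rw [← Pic_single, ← Pic_single, ← e', ← e', ← hl, ← hc.cls_pow]
    congr 2
    funext i
    by_cases hi : i = 0 <;> simp [hi, (Fact.out : p.Prime).ne_zero]
  obtain ⟨u, hu, h2⟩ := exists_dlog p h1 (hη.2 0)
  obtain ⟨f, hf, h3⟩ := exists_sol p (d.ex 0) D LS.dx (hD 0) hx (fun f => by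
    refine (d.ex 0).toRingHom.injective ?_
    change d.ex 0 _ = d.ex 0 _
    rw [map_zero, ← LS.iterate_dx p (d.ex 0 f)]
    exact (Function.Semiconj.iterate_right (hD 0) p) f) (LS.iterate_dx p) hu h2
  have h4 : D f / f = η := by rw [h3, mul_div_cancel_right₀ _ hf]
  obtain ⟨g, rfl⟩ := (prankZero_iff_ord p).1 h f hf fun P =>
    (CharP.intCast_eq_zero_iff K p _).1 ((Pic_omega_iff d hD hf).1 (h4 ▸ hη) P)
  rw [D.leibniz_pow, ← Nat.cast_smul_eq_nsmul K, CharP.cast_eq_zero, zero_smul, zero_div] at h4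
  refine hl0 (LinearMap.ext fun v => ?_)
  rw [← hc.Chart_cls_sum 0 v, e', ← h4]
  exact (Pic_B d _).map_zero

theorem prank_of_hw0 (h : HW0 K L p) : PRankZero K L p := by
  obtain ⟨d⟩ := Pic_cd (K := K) (L := L)
  obtain ⟨D, hD, -, hk⟩ := d.exists_der p
  refine (prankZero_iff_ord p).2 fun f hf h1 => hk f ?_
  have h2 := (Pic_omega_iff d hD hf).2 fun P => (CharP.intCast_eq_zero_iff K p _).2 (h1 P)
  have h3 : ∀ F, rpair d (F ^ p) (D f / f) = rpair d F (D f / f) ^ p := fun F => by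
    rw [rpair, rpair, sum_pow_char]
    refine Finset.sum_congr rfl fun i _ => (car_iff p).1 ?_ (F i)
    rw [map_div₀, hD]
    exact car_dlog p ((map_ne_zero (d.ex i)).2 hf)
  have h4 : ∀ (n : ℕ) F, rpair d (F ^ p ^ n) (D f / f) = rpair d F (D f / f) ^ p ^ n := by
    intro n F
    induction n with
    | zero => simp
    | succ n ih => rw [pow_succ, pow_mul, pow_mul, h3, ih]
  have h5 := eq_zero_of_rpair d (η := D f / f) fun F => by
    obtain ⟨n, a, ha, h6⟩ := (d.hw0_iff p).1 h F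
    exact (pow_eq_zero_iff'.1 ((h4 n F).symm.trans (rpair_eq_zero d hD h2 ha h6))).1
  exact (div_eq_zero_iff.1 h5).resolve_right hf

end PR0
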