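import Pool.Agent.Work.MP_da2620_ag.FFA

/-!
# Places of function fields over an algebraically closed field

Standard facts.  Discreteness: for a place `P` choose `x` transcendental in the maximal ideal;
`P ∩ K(x)` is the `x`-adic ring, and a chain of elements with strictly increasing values below the
value of `x` is independent over `K(x)` (Stichtenoth 1.1.7), so has length `≤ [L : K(x)]`.
`finite_intCl`: for `f ∈ L`, `f ^ q` is separable over `K(x)` for a fixed `q = p ^ n`; Frobenius embeds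
the integral closure of `K[x]` into the integral closure `B` of `K[x]` in the separable closure, which
is finite over `K[x]` (`IsIntegralClosure.finite`), and so over `K[x ^ q]`.
-/

namespace PR0

universe u

variable {K L : Type u} [Field K] [Field L] [Algebra K L]

namespace Place

/-- A uniformiser. -/
noncomputable def unif (P : Place K L) : L := Classical.epsilon fun π =>
  π ≠ 0 ∧ P.1.valuation π < 1 ∧ ∀ f : L, f ≠ 0 → ∃ n : ℤ, P.1.valuation f = P.1.valuation π ^ n

/-- The order of a nonzero function. -/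
noncomputable def ord (P : Place K L) (f : L) : ℤ :=
  Classical.epsilon fun n : ℤ => P.1.valuation f = P.1.valuation P.unif ^ n

/-- `f` has order at least `n`. -/
def Ge (P : Place K L) (f : L) (n : ℤ) : Prop := f = 0 ∨ n ≤ P.ord f

/-- The value of a function. -/
noncomputable def val (P : Place K L) (f : L) : K :=
  Classical.epsilon fun a : K => P.1.valuation (f - algebraMap K L a) < 1

end Place

/-- Functions regular outside `S`. -/
def regOut (S : Set (Place K L)) : Subalgebra K L where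
  carrier := {f | ∀ P, P ∉ S → f ∈ P.1}
  mul_mem' ha hb P h := mul_mem (ha P h) (hb P h)
  add_mem' ha hb P h := add_mem (ha P h) (hb P h)
  algebraMap_mem' c P _ := P.2.2 c

/-- The poles of `x`. -/
def poles (K : Type u) [Field K] [Algebra K L] (x : L) : Set (Place K L) := {P | x ∉ P.1}

variable [IsAlgClosed K] [hL : Fact (IsFF K L)]
include hL

namespace Place
variable (P : Place K L) {f g : L} {n m : ℤ}

theorem FF_spec : P.unif ≠ 0 ∧ P.1.valuation P.unif < 1 ∧
    ∀ f : L, f ≠ 0 → ∃ n : ℤ, P.1.valuation f = P.1.valuation P.unif ^ n := by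
  obtain ⟨x, hx, hP⟩ := FFA_place hL.out P
  have := FFA_ded hL.out hx
  have := FFA_frac hL.out hx
  obtain ⟨v, rfl⟩ := FFA_pl_surj P (FFA_le P hP)
  exact Classical.epsilon_spec (FFA_unif v)
theorem FF_pos : 0 < P.1.valuation P.unif := by simpa [pos_iff_ne_zero] using P.FF_spec.1
theorem FF_le : P.1.valuation P.unif ^ n ≤ P.1.valuation P.unif ^ m ↔ m ≤ n :=
  zpow_le_zpow_iff_right_of_lt_one₀ P.FF_pos P.FF_spec.2.1
theorem FF_eq (hf : f ≠ 0) : P.1.valuation f = P.1.valuation P.unif ^ P.ord f :=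
  Classical.epsilon_spec (P.FF_spec.2.2 f hf)
theorem FF_ord (h : P.1.valuation f = P.1.valuation P.unif ^ n) : P.ord f = n :=
  zpow_right_injective₀ P.FF_pos P.FF_spec.2.1.ne ((P.FF_eq fun h0 =>
    (zpow_pos P.FF_pos n).ne (by rw [← h, h0, map_zero])).symm.trans h)
theorem FF_ge : P.Ge f n ↔ P.1.valuation f ≤ P.1.valuation P.unif ^ n := by
  rcases eq_or_ne f 0 with rfl | hf
  · simp [Ge]
  · rw [P.FF_eq hf, FF_le, Ge, or_iff_right hf]
theorem unif_ne_zero : P.unif ≠ 0 := P.FF_spec.1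
theorem ord_unif : P.ord P.unif = 1 := P.FF_ord (zpow_one _).symm
theorem valuation_eq (hf : f ≠ 0) : P.1.valuation f = P.1.valuation P.unif ^ P.ord f := P.FF_eq hf
theorem ord_mul (hf : f ≠ 0) (hg : g ≠ 0) : P.ord (f * g) = P.ord f + P.ord g :=
  P.FF_ord (by rw [map_mul, P.FF_eq hf, P.FF_eq hg, zpow_add₀ P.FF_pos.ne'])
theorem ord_inv (hf : f ≠ 0) : P.ord f⁻¹ = -P.ord f := P.FF_ord (by rw [map_inv₀, P.FF_eq hf, zpow_neg])
theorem ord_zpow (hf : f ≠ 0) (n : ℤ) : P.ord (f ^ n) = n * P.ord f :=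
  P.FF_ord (by rw [map_zpow₀, P.FF_eq hf, ← zpow_mul, mul_comm])
theorem ord_pow (hf : f ≠ 0) (n : ℕ) : P.ord (f ^ n) = n * P.ord f := by
  rw [← P.ord_zpow hf, zpow_natCast]
theorem ord_neg : P.ord (-f) = P.ord f := by simp only [ord, Valuation.map_neg]
theorem ord_const {c : K} (hc : c ≠ 0) : P.ord (algebraMap K L c) = 0 :=
  P.FF_ord (by rw [Valuation.IsTrivialOn.eq_one c hc, zpow_zero])
theorem valuation_le_iff (hf : f ≠ 0) (hg : g ≠ 0) :
    P.1.valuation f ≤ P.1.valuation g ↔ P.ord g ≤ P.ord f := by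
  rw [P.FF_eq hf, P.FF_eq hg, FF_le]
theorem mem_iff : f ∈ P.1 ↔ P.Ge f 0 := by rw [FF_ge, zpow_zero, ValuationSubring.valuation_le_one_iff]
theorem valuation_lt_one_iff : P.1.valuation f < 1 ↔ P.Ge f 1 := by
  rcases eq_or_ne f 0 with rfl | hf
  · simp [Ge]
  · rw [P.FF_eq hf, Ge, or_iff_right hf, zpow_lt_one_iff_right_of_lt_one₀ P.FF_pos P.FF_spec.2.1]
    rfl
variable {P}
omit [IsAlgClosed K] hL in
theorem Ge.mono (h : P.Ge f n) (hm : m ≤ n) : P.Ge f m := h.imp id hm.trans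
theorem Ge.add (h : P.Ge f n) (h' : P.Ge g n) : P.Ge (f + g) n :=
  P.FF_ge.2 (Valuation.map_add_le _ (P.FF_ge.1 h) (P.FF_ge.1 h'))
theorem Ge.neg (h : P.Ge f n) : P.Ge (-f) n := P.FF_ge.2 (by simpa using P.FF_ge.1 h)
theorem Ge.sub (h : P.Ge f n) (h' : P.Ge g n) : P.Ge (f - g) n := sub_eq_add_neg f g ▸ h.add h'.neg
theorem Ge.smul (c : K) (h : P.Ge f n) : P.Ge (c • f) n := by
  rw [FF_ge, Algebra.smul_def, map_mul]
  exact (mul_le_of_le_one_left' ((P.1.valuation_le_one_iff _).2 (P.2.2 c))).trans (P.FF_ge.1 h)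
theorem Ge.mul (h : P.Ge f n) (h' : P.Ge g m) : P.Ge (f * g) (n + m) := by
  rw [FF_ge, map_mul, zpow_add₀ P.FF_pos.ne']
  exact mul_le_mul' (P.FF_ge.1 h) (P.FF_ge.1 h')
theorem Ge.pow (h : P.Ge f n) (e : ℕ) : P.Ge (f ^ e) (e * n) := by
  rw [FF_ge, map_pow, mul_comm, zpow_mul, zpow_natCast]
  exact pow_le_pow_left' (P.FF_ge.1 h) e
theorem ord_add_of_lt (hf : f ≠ 0) (h : P.Ge g (P.ord f + 1)) :
    f + g ≠ 0 ∧ P.ord (f + g) = P.ord f := by
  have h1 : P.1.valuation (f + g) = P.1.valuation f := Valuation.map_add_eq_of_lt_left _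
    ((P.FF_ge.1 h).trans_lt (by rw [P.FF_eq hf, ← not_le, FF_le]; omega))
  exact ⟨fun h0 => hf (by simpa [h0] using h1.symm), P.FF_ord (h1.trans (P.FF_eq hf))⟩
theorem eq_zero_of_ge (h : ∀ n, P.Ge f n) : f = 0 := (h (P.ord f + 1)).resolve_right (by omega)
theorem ge_sub_val (h : f ∈ P.1) : P.Ge (f - algebraMap K L (P.val f)) 1 :=
  P.valuation_lt_one_iff.1 (Classical.epsilon_spec (FFA_res hL.out P h))
theorem val_eq {a : K} (h : P.Ge (f - algebraMap K L a) 1) : P.val f = a := by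
  have h1 : f ∈ P.1 := by simpa using add_mem (P.mem_iff.2 (h.mono zero_le_one)) (P.2.2 a)
  have h2 := h.sub (ge_sub_val h1)
  rw [sub_sub_sub_cancel_left, ← map_sub] at h2
  by_contra h3
  rw [Ge, P.ord_const (sub_ne_zero.2 h3), map_eq_zero, sub_eq_zero] at h2
  exact h2.elim h3 (by decide)
theorem val_add (h : f ∈ P.1) (h' : g ∈ P.1) : P.val (f + g) = P.val f + P.val g :=
  val_eq (by rw [map_add, add_sub_add_comm]; exact (ge_sub_val h).add (ge_sub_val h'))
theorem val_mul (h : f ∈ P.1) (h' : g ∈ P.1) : P.val (f * g) = P.val f * P.val g := by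
  refine val_eq ?_
  convert (((ge_sub_val h).mul (P.mem_iff.1 h')).mono (add_zero _).ge).add
    ((ge_sub_val h').smul (P.val f)) using 1
  rw [Algebra.smul_def, map_mul]
  ring
theorem val_const (c : K) : P.val (algebraMap K L c) = c := val_eq (.inl (sub_self _))
theorem val_eq_zero (h : f ∈ P.1) : P.val f = 0 ↔ P.Ge f 1 :=
  ⟨fun h0 => by simpa [h0] using ge_sub_val h, fun h0 => val_eq (by simpa using h0)⟩
/-- evaluation on a subalgebra of regular functions -/
theorem exists_ev (P : Place K L) (A : Subalgebra K L) (h : ∀ f ∈ A, f ∈ P.1) :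
    ∃ σ : A →ₐ[K] K, ∀ f, σ f = P.val f :=
  ⟨{ toFun f := P.val f
     map_one' := val_eq (by simp [Ge])
     map_mul' a b := val_mul (h _ a.2) (h _ b.2)
     map_zero' := val_eq (by simp [Ge])
     map_add' a b := val_add (h _ a.2) (h _ b.2)
     commutes' := val_const }, fun _ => rfl⟩
theorem eq_of_le {Q : Place K L} (h : P.1 ≤ Q.1) : P = Q := by
  obtain ⟨x, hx, hP⟩ := FFA_place hL.out P
  have := FFA_ded hL.out hx
  have := FFA_frac hL.out hx
  obtain ⟨v, rfl⟩ := FFA_pl_surj P (FFA_le P hP)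
  exact Subtype.ext (ValuationSubring.eq_of_le_of_ne_top
    (IsDedekindDomain.HeightOneSpectrum.valuationSubringAtPrime L v) h Q.2.1)
end Place

theorem finiteDimensional_of_transcendental {x : L} (hx : Transcendental K x) :
    FiniteDimensional (IntermediateField.adjoin K {x}) L := FFA_fd hL.out hx
theorem transcendental_iff {x : L} : Transcendental K x ↔ x ∉ Set.range (algebraMap K L) := FFA_tr
theorem finite_poles (x : L) : (poles K x).Finite := by
  by_cases hx : Transcendental K x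
  · have hx' : Transcendental K x⁻¹ := mt IsAlgebraic.inv_iff.1 hx
    have := FFA_ded hL.out hx'
    have := FFA_frac hL.out hx'
    have h0 : Ideal.span {(⟨x⁻¹, FFA_self _⟩ : FFA_B K x⁻¹)} ≠ 0 := fun h =>
      FFA_tr.1 hx' ⟨0, (map_zero _).trans
        (congrArg Subtype.val (Ideal.span_singleton_eq_bot.1 h)).symm⟩
    refine ((Ideal.finite_factors h0).image FFA_pl).subset fun P hP => ?_
    obtain ⟨v, rfl⟩ := FFA_pl_surj P (FFA_le P ((P.1.mem_or_inv_mem x).resolve_left hP))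
    exact ⟨v, Ideal.dvd_span_singleton.2 ((FFA_mem (L := L) v _).1
      ((ValuationSubring.inv_mem_nonunits_iff _).2 (.inr hP))), rfl⟩
  · obtain ⟨c, rfl⟩ := not_not.1 (mt FFA_tr.2 hx)
    exact Set.finite_empty.subset fun P hP => hP (P.2.2 c)
theorem finite_ord {f : L} (hf : f ≠ 0) : {P : Place K L | P.ord f ≠ 0}.Finite := by
  refine ((finite_poles f).union (finite_poles f⁻¹)).subset fun P hP => by_contra fun h => hP ?_
  simp only [poles, Set.mem_union, Set.mem_ofPred_eq, not_or, not_not, Place.mem_iff, Place.Ge, hf,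
    inv_eq_zero, false_or, P.ord_inv hf] at h
  omega
theorem const_of_regular {f : L} (h : ∀ P : Place K L, f ∈ P.1) : ∃ c, f = algebraMap K L c := by
  by_contra! hc
  have hf : Transcendental K f := FFA_tr.2 fun ⟨c, e⟩ => hc c e.symm
  obtain ⟨P, hP⟩ := FFA_zero (mt IsAlgebraic.inv_iff.1 hf)
  exact ((ValuationSubring.inv_mem_nonunits_iff _).1 hP).elim (fun e => hc 0 (by simp [e]))
    fun e => e (h P)
theorem FF_val {x : L} (hx : Transcendental K x) (a : K) :
    ∃ P : Place K L, x ∈ P.1 ∧ P.val x = a := by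
  obtain ⟨P, hP⟩ := FFA_zero (K := K) (x := x - algebraMap K L a)
    fun h => hx (by simpa using h.add (isAlgebraic_algebraMap a))
  exact ⟨P, by simpa using add_mem ((P.1.valuation_le_one_iff _).1 hP.le) (P.2.2 a),
    Place.val_eq (P.valuation_lt_one_iff.1 hP)⟩
theorem infinite_place : Infinite (Place K L) := by
  obtain ⟨x, hx, -⟩ := hL.out
  choose P hP using FF_val hx
  exact .of_injective P fun a b h => by rw [← (hP a).2, h, (hP b).2]
theorem exists_place_val {x : L} (hx : Transcendental K x) (a : K) :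
    ∃ P : Place K L, x ∈ P.1 ∧ P.val x = a := FF_val hx a
theorem FF_mem {B : Subalgebra K L} [IsDedekindDomain B] [IsFractionRing B L]
    (v : IsDedekindDomain.HeightOneSpectrum B) (b : B) :
    b ∈ v.asIdeal ↔ (FFA_pl v).val b = 0 :=
  ((Place.val_eq_zero (FFA_pl_mem v b.2)).trans
    ((FFA_pl v).valuation_lt_one_iff.symm.trans (FFA_mem v b))).symm
theorem FF_pow {B : Subalgebra K L} [IsDedekindDomain B] [IsFractionRing B L]
    (v : IsDedekindDomain.HeightOneSpectrum B) (e : ℕ) :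
    ∀ b ∈ v.asIdeal ^ e, (FFA_pl v).Ge (b : L) e := by
  induction e with
  | zero => exact fun b _ => (Place.mem_iff _).1 (FFA_pl_mem v b.2)
  | succ e ih =>
    intro b hb
    rw [pow_succ] at hb
    refine Submodule.mul_induction_on hb (fun m hm n hn => ?_) fun _ _ => Place.Ge.add
    exact (ih m hm).mul ((Place.val_eq_zero (FFA_pl_mem v n.2)).1 ((FF_mem v n).1 hn))
/-- weak approximation -/
theorem weak_approx {S : Set (Place K L)} (hS : S.Finite) (a : Place K L → L) (n : Place K L → ℤ) :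
    ∃ f : L, ∀ P ∈ S, P.Ge (f - a P) (n P) := by
  obtain ⟨t, ht, -⟩ := hL.out
  obtain ⟨c, hc⟩ := (hS.image fun P => P.val t).infinite_compl.nonempty
  have hx : Transcendental K (t - algebraMap K L c)⁻¹ := fun h =>
    ht (by simpa using (IsAlgebraic.inv_iff.1 h).add (isAlgebraic_algebraMap c))
  have h1 : ∀ P ∈ S, (t - algebraMap K L c)⁻¹ ∈ P.1 := fun P hP => by_contra fun h =>
    hc ⟨P, hP, Place.val_eq (P.valuation_lt_one_iff.1
      ((ValuationSubring.mem_nonunits_iff_or _).2 (.inr h)))⟩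
  generalize (t - algebraMap K L c)⁻¹ = x at hx h1
  have := FFA_ded hL.out hx
  have := FFA_frac hL.out hx
  have := hS.fintype
  choose v hv using fun P : S => FFA_pl_surj P.1 (FFA_le P.1 (h1 _ P.2))
  obtain ⟨b, hb⟩ := IsLocalization.exist_integer_multiples_of_finite
    (nonZeroDivisors (FFA_B K x)) fun P : S => a P
  choose g hg using hb
  obtain ⟨y, hy⟩ := IsDedekindDomain.exists_forall_sub_mem_ideal (s := Finset.univ)
    (fun P => (v P).asIdeal) (fun P => (n P + P.1.ord b.1).toNat) (fun P _ => (v P).prime)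
    (fun P _ Q _ h e => h (Subtype.ext (by
      rw [← hv, ← hv, IsDedekindDomain.HeightOneSpectrum.ext e]))) fun P => g P
  have hb : (b.1 : L) ≠ 0 := fun h => nonZeroDivisors.ne_zero b.2 (Subtype.ext h)
  refine ⟨y / b.1, fun P hP => ?_⟩
  have h2 := FF_pow _ _ _ (hy ⟨P, hP⟩ (Finset.mem_univ _))
  have h3 : (g ⟨P, hP⟩ : L) = b.1 * a P := hg ⟨P, hP⟩
  rw [hv, Subalgebra.coe_sub, h3] at h2
  convert (h2.mul (.inr (P.ord_inv hb).ge)).mono (m := n P) (by dsimp only; omega) using 1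
  field_simp
theorem mem_regOut_poles {x f : L} (hx : Transcendental K x) :
    f ∈ regOut (poles K x) ↔ IsIntegral (Algebra.adjoin K {x}) f := by
  refine ⟨fun h => ?_, fun h P hP => FFA_le P (not_not.1 hP) f h⟩
  have := FFA_ded hL.out hx
  have := FFA_frac hL.out hx
  obtain ⟨b, rfl⟩ := IsDedekindDomain.HeightOneSpectrum.mem_integers_of_valuation_le_one
    (R := FFA_B K x) L f fun v => (FFA_equiv v).le_one_iff_le_one.2
      ((ValuationSubring.valuation_le_one_iff _ _).2
        (h (FFA_pl v) (not_not.2 (FFA_pl_mem v (FFA_self x)))))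
  exact b.2
theorem finite_intCl {x : L} (hx : Transcendental K x) :
    ∃ s : Finset L, ∀ f, f ∈ regOut (poles K x) ↔
      f ∈ Submodule.span (Algebra.adjoin K {x}) (s : Set L) := by
  obtain ⟨s, hs⟩ := (Module.Finite.iff_fg
    (N := (integralClosure (Algebra.adjoin K {x}) L).toSubmodule)).1 (FFA_finite hL.out hx)
  exact ⟨s, fun f => hs ▸ mem_regOut_poles hx⟩
theorem exists_den {x : L} (hx : Transcendental K x) (f : L) :
    ∃ s : Polynomial K, s.Monic ∧ Polynomial.aeval x s * f ∈ regOut (poles K x) := by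
  have := FFA_fd hL.out hx
  obtain ⟨⟨y, hy⟩, h0, h⟩ := (IntermediateField.isAlgebraic_adjoin_iff.1
    (Algebra.IsAlgebraic.isAlgebraic (R := IntermediateField.adjoin K {x}) f)).exists_integral_multiple
  obtain ⟨q, rfl⟩ := Algebra.adjoin_mem_exists_aeval _ _ hy
  refine ⟨_, Polynomial.monic_mul_leadingCoeff_inv (p := q) (fun e => h0 (Subtype.ext (by
    simp [e]))), ?_⟩
  rw [map_mul, Polynomial.aeval_C, mul_right_comm]
  exact mul_mem ((mem_regOut_poles hx).2 h) (algebraMap_mem _ _)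
theorem FF_bound {t : L} (ht : Transcendental K t) : ∃ k : ℕ, ∀ f : L, ∃ b ∈ regOut (poles K t),
    ∀ P ∈ poles K t, P.Ge (f - b) (-k) := by
  obtain ⟨s, hs⟩ := finite_intCl ht
  obtain ⟨k, hk⟩ := (((finite_poles (K := K) t).prod s.finite_toSet).image
    fun q => (-q.1.ord q.2).toNat).bddAbove
  refine ⟨k, fun f => ?_⟩
  obtain ⟨q, hq, hf⟩ := exists_den ht f
  have h0 : Polynomial.aeval t q ≠ 0 := fun h => ht ⟨q, hq.ne_zero, h⟩
  have key : ∀ g ∈ Submodule.span (Algebra.adjoin K {t}) (s : Set L), ∀ r : Polynomial K,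
      ∃ b ∈ regOut (poles K t), ∀ P ∈ poles K t,
        P.Ge (Polynomial.aeval t r * g / Polynomial.aeval t q - b) (-k) := fun g hg => by
    induction hg using Submodule.span_induction with
    | mem β hβ =>
      refine fun r => ⟨Polynomial.aeval t (r /ₘ q) * β, mul_mem (fun P hP => FFA_adj P
        (not_not.1 hP) _ (Polynomial.aeval_mem_adjoin_singleton _ _))
        ((hs β).2 (Submodule.subset_span hβ)), fun P hP => ?_⟩
      have h1 : Polynomial.aeval t (r %ₘ q) / Polynomial.aeval t q ∈ P.1 := by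
        rcases eq_or_ne (r %ₘ q) 0 with h | h
        · simp [h]
        have h2 : 1 < P.1.valuation t := not_le.1 (mt (P.1.valuation_le_one_iff _).1 hP)
        rw [← P.1.valuation_le_one_iff, map_div₀, div_le_one₀ (by simpa [pos_iff_ne_zero]),
          Polynomial.valuation_aeval_eq_valuation_X_pow_natDegree_of_one_lt_valuation_X _ h2 h,
          Polynomial.valuation_aeval_eq_valuation_X_pow_natDegree_of_one_lt_valuation_X _ h2
            hq.ne_zero]
        exact pow_le_pow_right₀ h2.le (Polynomial.natDegree_modByMonic_le r hq)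
      have h2 : (-P.ord β).toNat ≤ k := hk ⟨(P, β), ⟨hP, hβ⟩, rfl⟩
      convert ((P.mem_iff.1 h1).mul (.inr le_rfl : P.Ge β _)).mono (m := -k) (by omega) using 1
      conv_lhs => rw [← Polynomial.modByMonic_add_div r q, map_add, map_mul]
      rw [Polynomial.modByMonic_add_div]
      field_simp
      ring
    | zero => exact fun r => ⟨0, zero_mem _, fun P _ => .inl (by simp)⟩
    | add g g' _ _ h1 h2 =>
      intro r
      obtain ⟨b, hb, h1⟩ := h1 r
      obtain ⟨b', hb', h2⟩ := h2 r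
      exact ⟨b + b', add_mem hb hb', fun P hP => by
        convert (h1 P hP).add (h2 P hP) using 1
        ring⟩
    | smul a g _ h1 =>
      obtain ⟨r', h2⟩ := Algebra.adjoin_mem_exists_aeval _ _ a.2
      exact fun r => by simpa [h2, mul_assoc, Subalgebra.smul_def] using h1 (r * r')
  simpa [h0] using key _ ((hs _).1 hf) 1
/-- The functions of order at least `n`. -/
def FF_sub (P : Place K L) (n : ℤ) : Submodule K L where
  carrier := {f | P.Ge f n}
  add_mem' := Place.Ge.add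
  zero_mem' := .inl rfl
  smul_mem' c _ h := h.smul c
theorem FF_step {P Q : Place K L} {R : Submodule K L} {n : ℤ} (h : R ≤ FF_sub Q n)
    (hR : ∀ N, ∃ b ∈ R, b ≠ 0 ∧ P.ord b ≤ N) :
    ∀ N, ∃ b ∈ R ⊓ FF_sub Q (n + 1), b ≠ 0 ∧ P.ord b ≤ N := fun N => by
  obtain ⟨b, hb, h0, h1⟩ := hR N
  by_cases h2 : Q.Ge b (n + 1)
  · exact ⟨b, ⟨hb, h2⟩, h0, h1⟩
  obtain ⟨b', hb', h0', h1'⟩ := hR (P.ord b - 1)
  have h3 : Q.ord b = n :=
    le_antisymm (not_lt.1 fun e => h2 (.inr e)) ((h hb).resolve_left h0)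
  have h4 := (Place.ge_sub_val (Q.mem_iff.2 ((Place.Ge.mul (h hb')
    (.inr (Q.ord_inv h0).ge)).mono (by omega)))).mul (h hb)
  have h5 := Place.ord_add_of_lt (P := P) h0'
    ((Place.Ge.smul (Q.val (b' * b⁻¹)) (.inr (by omega)) : P.Ge (_ • b) _).neg)
  refine ⟨_, ⟨add_mem hb' (neg_mem (R.smul_mem _ hb)), ?_⟩, h5.1, by omega⟩
  rwa [sub_mul, inv_mul_cancel_right₀ h0, ← Algebra.smul_def, add_comm, sub_eq_add_neg] at h4
theorem FF_steps {P Q : Place K L} (k : ℕ) : ∀ {R : Submodule K L}, R ≤ FF_sub Q (-k) →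
    (∀ N, ∃ b ∈ R, b ≠ 0 ∧ P.ord b ≤ N) → ∀ N, ∃ b ∈ R ⊓ FF_sub Q 0, b ≠ 0 ∧ P.ord b ≤ N := by
  induction k with
  | zero => exact fun h hR => by rwa [inf_eq_left.2 (by simpa using h)]
  | succ k ih =>
    intro R h hR N
    obtain ⟨b, hb, h1⟩ := ih (inf_le_right.trans_eq (by simp)) (FF_step h hR) N
    exact ⟨b, ⟨hb.1.1, hb.2⟩, h1⟩
theorem FF_all {P : Place K L} (k : ℕ) {T : Set (Place K L)} (hT : T.Finite) {R : Submodule K L}
    (h : ∀ Q ∈ T, R ≤ FF_sub Q (-k)) (hR : ∀ N, ∃ b ∈ R, b ≠ 0 ∧ P.ord b ≤ N) :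
    ∀ N, ∃ b ∈ R ⊓ ⨅ Q ∈ T, FF_sub Q 0, b ≠ 0 ∧ P.ord b ≤ N := by
  induction T, hT using Set.Finite.induction_on with
  | empty => simpa using hR
  | insert _ _ ih =>
    rw [iInf_insert, inf_left_comm, inf_comm]
    exact FF_steps k (inf_le_left.trans (h _ (.inl rfl))) (ih fun Q hQ => h Q (.inr hQ))
theorem FF_pole (P : Place K L) : ∃ x : L, poles K x = {P} := by
  classical
  have ht : Transcendental K P.unif⁻¹ := mt IsAlgebraic.inv_iff.1
    (Valuation.transcendental_of_ne_one K _ P.FF_spec.1 P.FF_spec.2.1.ne)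
  have hP : P ∈ poles K P.unif⁻¹ :=
    ((ValuationSubring.mem_nonunits_iff_or _).1 P.FF_spec.2.1).resolve_left P.FF_spec.1
  generalize P.unif⁻¹ = t at ht hP
  obtain ⟨k, hk⟩ := FF_bound ht
  obtain ⟨x, ⟨h1, h2⟩, h3, h4⟩ := FF_all (P := P) k ((finite_poles t).sdiff (t := {P}))
    (R := (regOut (poles K t)).toSubmodule ⊓ ⨅ Q ∈ poles K t \ {P}, FF_sub Q (-k))
    (fun Q hQ => inf_le_right.trans (iInf₂_le Q hQ)) (fun N => by
      obtain ⟨f, hf⟩ := weak_approx (finite_poles (K := K) t)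
        (Pi.single P (P.unif ^ min N (-k - 1))) 0
      obtain ⟨b, hb, h⟩ := hk f
      have h0 := zpow_ne_zero (min N (-k - 1)) P.unif_ne_zero
      have h1 := P.ord_zpow P.unif_ne_zero (min N (-k - 1))
      rw [P.ord_unif, mul_one] at h1
      have h2 := Place.ord_add_of_lt h0 (((hf P hP).mono (by simp; omega)).sub
        ((h P hP).mono (by omega)))
      rw [Pi.single_eq_same, sub_sub_sub_cancel_left, add_sub_cancel] at h2
      refine ⟨b, ⟨hb, ?_⟩, h2.1, by omega⟩
      simp only [SetLike.mem_coe, Submodule.mem_iInf]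
      intro Q hQ
      have h3 := ((hf Q hQ.1).mono (by simp)).sub (h Q hQ.1)
      rwa [Pi.single_eq_of_ne hQ.2, sub_zero, sub_sub_cancel] at h3) (-1)
  simp only [SetLike.mem_coe, Submodule.mem_iInf] at h2
  refine ⟨x, Set.eq_singleton_iff_unique_mem.2 ⟨fun h => ?_, fun Q hQ => by_contra fun h => hQ ?_⟩⟩
  · have := (P.mem_iff.1 h).resolve_left h3
    omega
  · by_cases h5 : Q ∈ poles K t
    · exact Q.mem_iff.2 (h2 Q ⟨h5, h⟩)
    · exact h1.1 Q h5
theorem FF_aff {S : Set (Place K L)} (hS : S.Finite) (hne : S.Nonempty) :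
    ∃ x : L, poles K x = S ∧ IsDedekindDomain (regOut S) ∧ IsFractionRing (regOut S) L := by
  obtain ⟨x, rfl⟩ : ∃ x : L, poles K x = S := by
    clear hne
    induction S, hS using Set.Finite.induction_on with
    | empty => exact ⟨0, by simp [poles]⟩
    | @insert P S hP _ ih =>
      obtain ⟨y, hy⟩ := FF_pole P
      obtain ⟨z, rfl⟩ := ih
      refine ⟨y + z, Set.ext fun Q => ?_⟩
      have h1 : y ∉ Q.1 ↔ Q = P := Set.ext_iff.1 hy Q
      change ¬ _ ↔ Q = P ∨ z ∉ Q.1
      by_cases h2 : z ∈ Q.1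
      · rw [add_mem_cancel_right h2, h1, or_iff_left (not_not.2 h2)]
      · rw [add_mem_cancel_left (by_contra fun h => hP (h1.1 h ▸ h2)), or_iff_right_of_imp
          fun _ => h2]
  obtain ⟨P, hP⟩ := hne
  have hx : Transcendental K x := FFA_tr.2 fun ⟨c, e⟩ => hP (e ▸ P.2.2 c)
  have h : regOut (poles K x) = FFA_B K x := Subalgebra.ext fun _ => mem_regOut_poles hx
  exact ⟨x, rfl, h ▸ FFA_ded hL.out hx, h ▸ FFA_frac hL.out hx⟩
/-- points of the affine curve are places -/
theorem exists_place_of_hom {S : Set (Place K L)} (hS : S.Finite) (hne : S.Nonempty)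
    (σ : regOut S →ₐ[K] K) : ∃! P : Place K L, P ∉ S ∧ ∀ f, σ f = P.val f := by
  obtain ⟨x, rfl, _, _⟩ := FF_aff hS hne
  have hx : x ∈ regOut (poles K x) := fun _ => not_not.1
  obtain ⟨P₀, h₀⟩ := hne
  let v : IsDedekindDomain.HeightOneSpectrum (regOut (poles K x)) :=
    ⟨RingHom.ker σ, RingHom.ker_isPrime σ, fun h => by
      have h1 : ⟨x, hx⟩ - algebraMap K _ (σ ⟨x, hx⟩) ∈ RingHom.ker σ := by simp [RingHom.mem_ker]
      rw [h, Ideal.mem_bot, sub_eq_zero] at h1
      exact h₀ (Set.mem_of_eq_of_mem (congrArg Subtype.val h1) (P₀.2.2 _))⟩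
  refine ⟨FFA_pl v, ⟨not_not.2 (FFA_pl_mem v hx), fun f => (Place.val_eq ?_).symm⟩,
    fun Q ⟨h1, h2⟩ => ?_⟩
  · exact (Place.val_eq_zero (FFA_pl_mem v (f - algebraMap K _ (σ f)).2)).1
      ((FF_mem v _).1 (by simp [v, RingHom.mem_ker]))
  · obtain ⟨w, rfl⟩ := FFA_pl_surj (B := regOut (poles K x)) Q fun b hb => hb Q h1
    exact congrArg _ (IsDedekindDomain.HeightOneSpectrum.ext (Ideal.ext fun b => by
      rw [FF_mem, ← h2]; rfl))
/-- the local ring of the affine curve at a point is the valuation ring -/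
theorem exists_den_place {S : Set (Place K L)} (hS : S.Finite) (hne : S.Nonempty) {P : Place K L}
    (hP : P ∉ S) {f : L} (hf : f ∈ P.1) : ∃ s ∈ regOut S, P.val s ≠ 0 ∧ s * f ∈ regOut S := by
  obtain ⟨x, -, _, _⟩ := FF_aff hS hne
  obtain ⟨v, rfl⟩ := FFA_pl_surj (B := regOut S) P fun b hb => hb P hP
  obtain ⟨a, s, hs, rfl⟩ := hf
  refine ⟨s, s.2, mt (FF_mem v s).2 hs, ?_⟩
  have h0 : algebraMap _ L s ≠ 0 := fun h => hs ((Subtype.ext h : s = 0) ▸ zero_mem _)
  exact (mul_comm _ _).trans (inv_mul_cancel_right₀ h0 _) ▸ a.2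
/-- ideals of the affine ring: an element is in the ideal generated by a set if it is so locally -/
theorem mem_span_of_ord {S : Set (Place K L)} (hS : S.Finite) (hne : S.Nonempty) {α : Type*}
    (a : α → L) {f : L} (h : ∀ P, P ∉ S → f = 0 ∨ ∃ i, a i ≠ 0 ∧ P.ord (a i) ≤ P.ord f) :
    f ∈ Submodule.span (regOut S) (Set.range a) := by
  obtain ⟨x, hx, _, _⟩ := FF_aff hS hne
  by_contra hf
  obtain ⟨m, hm, h1⟩ := Ideal.exists_le_maximal ((Submodule.span (regOut S) (Set.range a)).comap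
    (LinearMap.toSpanSingleton (regOut S) L f)) fun e => hf (by
      simpa using (Ideal.eq_top_iff_one _).1 e)
  have := infinite_place (K := K) (L := L)
  obtain ⟨Q, hQ⟩ := hS.infinite_compl.nonempty
  obtain ⟨w, -⟩ := FFA_pl_surj (B := regOut S) Q fun b hb => hb Q hQ
  let v : IsDedekindDomain.HeightOneSpectrum (regOut S) := ⟨m, hm.isPrime, fun e =>
    w.ne_bot ((hm.eq_of_le w.isPrime.ne_top (e ▸ bot_le)).symm.trans e)⟩
  have hv : FFA_pl v ∉ S := fun e => (hx.ge e) (FFA_pl_mem v fun _ hP => by_contra fun h => hP (hx.le h))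
  obtain rfl | ⟨i, h2, h3⟩ := h _ hv
  · exact hf (zero_mem _)
  obtain ⟨s, hs, h4, h5⟩ := exists_den_place hS hne hv ((Place.mem_iff _).2
    ((Place.Ge.mul (.inr h3) (.inr (Place.ord_inv _ h2).ge)).mono (by omega)))
  refine h4 ((FF_mem v ⟨s, hs⟩).1 (h1 ?_))
  have h6 : s * (f * (a i)⁻¹) * a i ∈ Submodule.span (regOut S) (Set.range a) :=
    Submodule.smul_mem _ (⟨_, h5⟩ : regOut S) (Submodule.subset_span (Set.mem_range_self i))
  rwa [mul_assoc, inv_mul_cancel_right₀ h2] at h6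

end PR0
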