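import Pool.Agent.Work.MP_da2620_ag.CDA

/-!
# The basis `1, x, ..., x ^ (p - 1)` of `L` over its subfield of `p`-th powers
-/

namespace PR0

universe u

variable {K L : Type u} [Field K] [Field L] [Algebra K L] (p : ℕ) [hp : Fact p.Prime] [CharP K p]

/-- The Frobenius combination. -/
def CDB_c (p : ℕ) (x : L) (g : Fin p → L) : L := ∑ j, g j ^ p * x ^ (j : ℕ)

theorem CDB_inj (e : L →ₐ[K] LS K) {x : L} (hx : e x = LS.T K (-1)) {g : Fin p → L}
    (h : CDB_c p x g = 0) (j : Fin p) : g j = 0 := by
  refine (map_eq_zero e).1 (LS.ext fun k => ?_)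
  have hp0 : (p : ℤ) ≠ 0 := by exact_mod_cast hp.out.ne_zero
  have h1 := congrArg (fun f => (e f).cf (p * k - j)) h
  simp only [CDB_c, map_sum, map_mul, map_pow, hx, LS.T_pow, map_zero, LS.cf_zero, LS.cf_sum,
    mul_comm (e _ ^ p), LS.cf_T_mul, LS.cf_pow_char] at h1
  rw [Finset.sum_eq_single j] at h1
  · rw [show (p : ℤ) * k - j - (j : ℕ) * -1 = p * k by ring, if_pos (dvd_mul_right _ _),
      Int.mul_ediv_cancel_left _ hp0] at h1
    exact pow_eq_zero_iff hp.out.ne_zero |>.1 h1
  · intro l _ hl
    refine if_neg fun hd => hl (Fin.ext ?_)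
    have h2 : (p : ℤ) ∣ ((l : ℕ) : ℤ) - (j : ℕ) := by
      have := hd.sub (dvd_mul_right (p : ℤ) k)
      rwa [show (p : ℤ) * k - j - (l : ℕ) * -1 - p * k = (l : ℕ) - (j : ℕ) by ring] at this
    have h3 := Int.eq_zero_of_abs_lt_dvd h2 (by
      have := l.2
      have := j.2
      rw [abs_lt]
      omega)
    omega
  · simp

theorem CDB_charP (K L : Type u) [Field K] [Field L] [Algebra K L] (p : ℕ) [CharP K p] :
    CharP L p := charP_of_injective_algebraMap (algebraMap K L).injective p

theorem CDB_add [CharP L p] (x : L) (g g' : Fin p → L) :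
    CDB_c p x (g + g') = CDB_c p x g + CDB_c p x g' := by
  simp only [CDB_c, Pi.add_apply, add_pow_char, add_mul, Finset.sum_add_distrib]

omit hp in
theorem CDB_mul (x u : L) (g : Fin p → L) :
    CDB_c p x (fun j => u * g j) = u ^ p * CDB_c p x g := by
  simp only [CDB_c, mul_pow, Finset.mul_sum, mul_assoc]

theorem CDB_single (x u : L) (j : Fin p) : CDB_c p x (Pi.single j u) = u ^ p * x ^ (j : ℕ) := by
  rw [CDB_c, Finset.sum_eq_single j, Pi.single_eq_same]
  · intro l _ hl
    rw [Pi.single_eq_of_ne hl, zero_pow hp.out.ne_zero, zero_mul]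
  · simp

variable [IsAlgClosed K]

theorem CDB_rat (x : L) (a : IntermediateField.adjoin K {x}) :
    ∃ c : Fin p → IntermediateField.adjoin K {x}, CDB_c p x (fun j => c j) = a := by
  have := CDB_charP K L p
  have hx : x ∈ IntermediateField.adjoin K {x} := IntermediateField.mem_adjoin_simple_self K x
  have h1 : ∀ q : Polynomial K, ∃ c : Fin p → IntermediateField.adjoin K {x},
      CDB_c p x (fun j => c j) = Polynomial.aeval x q := by
    intro q
    induction q using Polynomial.induction_on' with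
    | add q r hq hr =>
      obtain ⟨c, hc⟩ := hq
      obtain ⟨d, hd⟩ := hr
      exact ⟨c + d, by rw [map_add, ← hc, ← hd, ← CDB_add]; rfl⟩
    | monomial n a =>
      obtain ⟨b, rfl⟩ := IsAlgClosed.exists_pow_nat_eq a hp.out.pos
      refine ⟨Pi.single ⟨n % p, Nat.mod_lt _ hp.out.pos⟩
        ⟨algebraMap K L b * x ^ (n / p), mul_mem (algebraMap_mem _ b) (pow_mem hx _)⟩, ?_⟩
      refine Eq.trans (congrArg _ (funext fun j => ?_))
        ((CDB_single p x (algebraMap K L b * x ^ (n / p)) ⟨n % p, Nat.mod_lt _ hp.out.pos⟩).trans ?_)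
      · by_cases hj : j = ⟨n % p, Nat.mod_lt _ hp.out.pos⟩
        · rw [hj, Pi.single_eq_same, Pi.single_eq_same]
        · rw [Pi.single_eq_of_ne hj, Pi.single_eq_of_ne hj]
          rfl
      · rw [Polynomial.aeval_monomial, mul_pow, map_pow, mul_assoc, ← pow_mul, ← pow_add,
          Nat.div_add_mod']
  obtain ⟨r, s, h⟩ := (IntermediateField.mem_adjoin_simple_iff K (a : L)).1 a.2
  obtain ⟨c, hc⟩ := h1 (r * s ^ (p - 1))
  have hs : Polynomial.aeval x s ∈ IntermediateField.adjoin K {x} :=
    IntermediateField.algebra_adjoin_le_adjoin K _ (Polynomial.aeval_mem_adjoin_singleton K x)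
  refine ⟨fun j => ⟨_, inv_mem hs⟩ * c j, (CDB_mul p x (Polynomial.aeval x s)⁻¹ _).trans ?_⟩
  rw [hc, h, map_mul, map_pow]
  obtain ⟨m, hm⟩ : ∃ m, p = m + 1 := ⟨p - 1, by have := hp.out.pos; omega⟩
  by_cases h0 : Polynomial.aeval x s = 0
  · rw [h0, inv_zero, zero_pow hp.out.ne_zero, zero_mul, div_zero]
  · rw [hm, Nat.add_sub_cancel, inv_pow, pow_succ]
    field_simp

/-- A copy of `L`, for the twisted module structure. -/
def CDB_Tw (L : Type u) : Type u := L

instance : AddCommGroup (CDB_Tw L) := inferInstanceAs (AddCommGroup L)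

theorem CDB_surj (e : L →ₐ[K] LS K) {x : L} (hx : e x = LS.T K (-1))
    [FiniteDimensional (IntermediateField.adjoin K {x}) L] (f : L) : ∃ g, CDB_c p x g = f := by
  have := CDB_charP K L p
  set F := IntermediateField.adjoin K {x}
  have : CharP F p := CDB_charP K F p
  let b := Module.finBasis F L
  let ψ : (Fin (Module.finrank F L) × Fin p → F) → L :=
    fun c => ∑ i, CDB_c p x (fun j => c (i, j)) * b i
  have h4 : ∀ c d, ψ (c + d) = ψ c + ψ d := fun c d => by
    refine Eq.trans (Finset.sum_congr rfl fun i _ => ?_) Finset.sum_add_distrib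
    rw [← add_mul, ← CDB_add]
    rfl
  have h5 : ∀ (a : F) c, ψ (a • c) = (a : L) ^ p * ψ c := fun a c => by
    rw [Finset.mul_sum]
    refine Finset.sum_congr rfl fun i _ => ?_
    rw [← mul_assoc, ← CDB_mul]
    rfl
  have h6 : Function.Surjective ψ := by
    intro y
    choose c hc using fun i => CDB_rat p x (b.repr y i)
    refine ⟨fun q => c q.1 q.2, Eq.trans (Finset.sum_congr rfl fun i _ => ?_) (b.sum_repr y)⟩
    rw [hc]
    rfl
  let _ : Module F (CDB_Tw L) := Module.compHom L (frobenius F p)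
  let Φ : (Fin p → L) →ₗ[F] CDB_Tw L :=
    { toFun := CDB_c p x
      map_add' := CDB_add p x
      map_smul' := fun a g => CDB_mul p x a g }
  let Ψ : (Fin (Module.finrank F L) × Fin p → F) →ₗ[F] CDB_Tw L :=
    { toFun := ψ
      map_add' := h4
      map_smul' := h5 }
  have hΨ : Function.Surjective Ψ := h6
  have hΦ : Function.Injective Φ :=
    (injective_iff_map_eq_zero Φ).2 fun g hg => funext (CDB_inj p e hx hg)
  have : Module.Finite F (CDB_Tw L) := Module.Finite.of_surjective Ψ hΨ
  have h1 := LinearMap.finrank_le_finrank_of_surjective hΨ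
  have h2 := LinearMap.finrank_le_finrank_of_injective hΦ
  have h3 : Module.finrank F (Fin p → L) =
      Module.finrank F (Fin (Module.finrank F L) × Fin p → F) := by
    rw [Module.finrank_pi_fintype, Module.finrank_fintype_fun_eq_card]
    simp [mul_comm]
  exact (LinearMap.injective_iff_surjective_of_finrank_eq_finrank (by omega)).1 hΦ f

include p in
theorem CDB_sep (e : L →ₐ[K] LS K) {x : L} (hx : e x = LS.T K (-1))
    [FiniteDimensional (IntermediateField.adjoin K {x}) L] :
    Algebra.IsSeparable (IntermediateField.adjoin K {x}) L := by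
  have := CDB_charP K L p
  set F := IntermediateField.adjoin K {x}
  set S := separableClosure F L
  have : CharP S p := (algebraMap S L).charP (algebraMap S L).injective p
  have : IsPurelyInseparable S L := separableClosure.isPurelyInseparable F L
  have : FiniteDimensional S L := Module.Finite.right F S L
  obtain ⟨n, hn⟩ := (IsPurelyInseparable.hasExponent_iff' S L p).1 inferInstance
  have hn' : ∀ a : L, a ^ p ^ n ∈ S := fun a => by
    obtain ⟨y, hy⟩ := hn a
    exact hy ▸ y.2
  have hxS : x ∈ S := S.algebraMap_mem ⟨x, IntermediateField.mem_adjoin_simple_self K x⟩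
  clear hn
  rw [← separableClosure.eq_top_iff, eq_top_iff]
  induction n with
  | zero => exact fun a _ => by simpa using hn' a
  | succ n ih =>
    refine ih fun a => ?_
    obtain ⟨g, rfl⟩ := CDB_surj p e hx a
    rw [CDB_c, sum_pow_char_pow]
    refine sum_mem fun j _ => ?_
    rw [mul_pow, ← pow_mul, ← pow_succ']
    exact mul_mem (hn' _) (pow_mem (pow_mem hxS _) _)

/-- The derivative with respect to `x`. -/
theorem CDB_der (e₀ : L →ₐ[K] LS K) {x : L} (hx : e₀ x = LS.T K (-1))
    [FiniteDimensional (IntermediateField.adjoin K {x}) L] : ∃ D : L → L,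
      (∀ e : L →ₐ[K] LS K, e x = LS.T K (-1) → ∀ f, e (D f) = LS.dx (e f)) ∧
        ∀ f, D f = 0 → ∃ g, f = g ^ p := by
  have := CDB_charP K L p
  choose g hg using CDB_surj p e₀ hx
  refine ⟨fun f => ∑ j : Fin p, g f j ^ p * ((j : ℕ) * x ^ ((j : ℕ) - 1)), fun e he f => ?_,
    fun f hf => ⟨g f 0, ?_⟩⟩
  · conv_rhs => rw [← hg f, CDB_c]
    simp only [map_sum, map_mul, map_pow, map_natCast, he]
    refine Finset.sum_congr rfl fun j _ => ?_
    rw [Derivation.leibniz, Derivation.leibniz_pow, Derivation.leibniz_pow, LS.dx_T,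
      nsmul_eq_mul, nsmul_eq_mul, CharP.cast_eq_zero (LS K) p]
    simp
  · have h1 : CDB_c p x (fun j => ((j : ℕ) : L) * g f j) = 0 := by
      rw [← mul_zero x, ← hf, CDB_c, Finset.mul_sum]
      refine Finset.sum_congr rfl fun j _ => ?_
      rw [mul_pow, ← frobenius_def, map_natCast]
      rcases Nat.eq_zero_or_pos j with h | h
      · simp [h]
      · rw [← mul_pow_sub_one h.ne' x]
        ring
    refine (hg f).symm.trans ?_
    rw [CDB_c, Finset.sum_eq_single 0]
    · simp
    · intro j _ hj
      have h2 : ((j : ℕ) : L) ≠ 0 := fun h => by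
        have h3 := Nat.eq_zero_of_dvd_of_lt ((CharP.cast_eq_zero_iff L p _).1 h) j.2
        exact hj (Fin.ext h3)
      rw [(mul_eq_zero.1 (CDB_inj p e₀ hx h1 j)).resolve_left h2, zero_pow hp.out.ne_zero,
        zero_mul]
    · simp

end PR0
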