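import Pool.Agent.Work.MP_da2620_ag.LS
import Pool.Agent.Work.MP_da2620_ag.Reg

/-!
# Charts: subalgebras of `R((t))^ι`

A polar monomial is `μ = (i, n)`, standing for `t ^ (-(n+1))` in the component `i`.  A chart point of
type `J` is a subalgebra `A` containing `x = 1/t` with `R((t))^ι = A + W_J + R[[t]]^ι` and
`A ∩ (W_J + R[[t]]^ι) = R`.
-/

namespace PR0

open MvPolynomial

universe u

variable {ι : Type} [Fintype ι] [DecidableEq ι]
variable {R R' : Type u} [CommRing R] [CommRing R']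

/-- Tuples of Laurent series. -/
abbrev LT (ι : Type) (R : Type u) [CommRing R] := ι → LS R

/-- The function `x = 1 / t`. -/
noncomputable def xx (ι : Type) (R : Type u) [CommRing R] : LT ι R := fun _ => LS.T R (-1)

/-- Polar monomial. -/
noncomputable def pm (R : Type u) [CommRing R] (μ : ι × ℕ) : LT ι R :=
  Pi.single μ.1 (LS.T R (-(μ.2 + 1)))

/-- Polar coefficient. -/
def pc (F : LT ι R) (μ : ι × ℕ) : R := (F μ.1).cf (-(μ.2 + 1))

/-- Pole order at most `n`. -/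
def Pole (F : LT ι R) (n : ℤ) : Prop := ∀ i, (F i).Ge (-n)

/-- Coefficientwise map. -/
noncomputable def mapT (φ : R →+* R') : LT ι R →+* LT ι R' :=
  Pi.ringHom fun i => (LS.map φ).comp (Pi.evalRingHom _ i)

/-- Chart points. -/
structure IsChart (J : Finset (ι × ℕ)) (A : Subalgebra R (LT ι R)) : Prop where
  x_mem : xx ι R ∈ A
  inj : ∀ F ∈ A, (∀ μ, μ ∉ J → pc F μ = 0) → ∃ c : R, F = algebraMap R (LT ι R) c
  surj : ∀ μ, μ ∉ J → ∃ F ∈ A, ∀ ν, ν ∉ J → pc F ν = if ν = μ then 1 else 0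

/-- The canonical basis element with leading monomial `μ ∉ J` (zero for `μ ∈ J`). -/
noncomputable def chi (i₀ : ι) (J : Finset (ι × ℕ)) (A : Subalgebra R (LT ι R)) (μ : ι × ℕ) :
    LT ι R := if μ ∈ J then 0 else Classical.epsilon fun F =>
  F ∈ A ∧ (F i₀).cf 0 = 0 ∧ ∀ ν, ν ∉ J → pc F ν = if ν = μ then 1 else 0

/-- Index type of the coordinates. -/
abbrev Idx (ι : Type) := (ι × ℕ) × ι × ℤ

/-- Coordinates of a chart point. -/
noncomputable def coef (i₀ : ι) (J : Finset (ι × ℕ)) (A : Subalgebra R (LT ι R)) : Idx ι → R :=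
  fun a => (chi i₀ J A a.1 a.2.1).cf a.2.2

/-- Base change. -/
noncomputable def bc (φ : R →+* R') (A : Subalgebra R (LT ι R)) : Subalgebra R' (LT ι R') :=
  Algebra.adjoin R' (mapT φ '' A)

omit [DecidableEq ι] in
theorem Chart_exists_pole (F : LT ι R) : ∃ n : ℕ, Pole F n := by
  choose n hn using fun i => LS.exists_ge (F i)
  refine ⟨Finset.univ.sup n, fun i => (hn i).mono (neg_le_neg ?_)⟩
  exact_mod_cast Finset.le_sup (f := n) (Finset.mem_univ i)

omit [Fintype ι] [DecidableEq ι] in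
theorem Chart_pole_iff {F : LT ι R} {n : ℕ} :
    Pole F n ↔ ∀ μ : ι × ℕ, n ≤ μ.2 → pc F μ = 0 := by
  refine ⟨fun h μ hμ => h μ.1 _ (by omega), fun h i m hm => ?_⟩
  have h1 := h (i, (-m - 1).toNat) (by simp only; omega)
  rwa [pc, show -((((-m - 1).toNat : ℕ) : ℤ) + 1) = m by omega] at h1

theorem finite_pc (F : LT ι R) : {μ | pc F μ ≠ 0}.Finite := by
  obtain ⟨n, hn⟩ := Chart_exists_pole F
  refine ((Set.finite_univ (α := ι)).prod (Set.finite_lt_nat n)).subset fun μ hμ => ?_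
  exact ⟨trivial, not_le.1 fun h => hμ (Chart_pole_iff.1 hn μ h)⟩

section
omit [Fintype ι] [DecidableEq ι]

theorem Chart_pc_add (F G : LT ι R) (μ : ι × ℕ) : pc (F + G) μ = pc F μ + pc G μ :=
  LS.cf_add _ _ _
theorem Chart_pc_sub (F G : LT ι R) (μ : ι × ℕ) : pc (F - G) μ = pc F μ - pc G μ :=
  LS.cf_sub _ _ _
theorem Chart_pc_smul (c : R) (F : LT ι R) (μ : ι × ℕ) : pc (c • F) μ = c * pc F μ :=
  LS.cf_smul _ _ _
theorem Chart_pc_zero (μ : ι × ℕ) : pc (0 : LT ι R) μ = 0 := rfl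
theorem Chart_pc_sum {α : Type*} (s : Finset α) (F : α → LT ι R) (μ : ι × ℕ) :
    pc (∑ a ∈ s, F a) μ = ∑ a ∈ s, pc (F a) μ := by
  rw [pc, Finset.sum_apply, LS.cf_sum]
  rfl
theorem Chart_pc_C (c : R) (μ : ι × ℕ) : pc (algebraMap R (LT ι R) c) μ = 0 :=
  LS.ge_algebraMap c _ (by omega)
theorem Chart_cf_C (c : R) (i : ι) : (algebraMap R (LT ι R) c i).cf 0 = c :=
  (LS.cf_algebraMap c 0).trans (if_pos rfl)
theorem Chart_pc_xx (F : LT ι R) (i : ι) (m : ℕ) : pc (xx ι R * F) (i, m + 1) = pc F (i, m) := by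
  refine (LS.cf_T_mul (-1) (F i) _).trans (congrArg _ ?_)
  push_cast
  ring
theorem Chart_pole_mono {F : LT ι R} {n m : ℤ} (h : Pole F n) (hm : n ≤ m) : Pole F m :=
  fun i => (h i).mono (neg_le_neg hm)
theorem Chart_mapT_inj {φ : R →+* R'} (hφ : Function.Injective φ) :
    Function.Injective (mapT (ι := ι) φ) :=
  fun _ _ e => funext fun i => LS.map_injective hφ (congrFun e i)

end

/-- The polar part. -/
noncomputable def Chart_pf : LT ι R →ₗ[R] (ι × ℕ) →₀ R where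
  toFun F := ⟨(finite_pc F).toFinset, pc F, fun _ => (finite_pc F).mem_toFinset⟩
  map_add' F G := Finsupp.ext (Chart_pc_add F G)
  map_smul' c F := Finsupp.ext (Chart_pc_smul c F)

/-- Substitution of a family for the polar monomials. -/
noncomputable def Chart_P (G : ι × ℕ → LT ι R) : LT ι R →ₗ[R] LT ι R :=
  (Finsupp.linearCombination R G).comp Chart_pf

theorem Chart_P_apply (G : ι × ℕ → LT ι R) (F : LT ι R) :
    Chart_P G F = ∑ μ ∈ (finite_pc F).toFinset, pc F μ • G μ := rfl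

theorem Chart_P_eq_zero {G : ι × ℕ → LT ι R} {F : LT ι R} (h : ∀ μ, pc F μ = 0 ∨ G μ = 0) :
    Chart_P G F = 0 := by
  rw [Chart_P_apply]
  exact Finset.sum_eq_zero fun μ _ => (h μ).elim (fun e => by rw [e, zero_smul])
    fun e => by rw [e, smul_zero]

/-- The class in `H¹ = W_J`. -/
noncomputable def cls (i₀ : ι) (J : Finset (ι × ℕ)) (A : Subalgebra R (LT ι R)) (F : LT ι R) :
    J → R := fun ν => pc F ν - ∑ μ ∈ (finite_pc F).toFinset, pc F μ * pc (chi i₀ J A μ) ν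

/-- The Hasse-Witt matrix in terms of the coordinates. -/
noncomputable def hw (k : Type u) [Field k] (p : ℕ) (J : Finset (ι × ℕ)) :
    Matrix J J (MvPolynomial (Idx ι) k) := fun ν j =>
  (if (ν : ι × ℕ) = (j.1.1, p * (j.1.2 + 1) - 1) then 1 else 0) -
    X ((j.1.1, p * (j.1.2 + 1) - 1), ν.1.1, -((ν.1.2 : ℤ) + 1))

theorem pc_pm (μ ν : ι × ℕ) : pc (pm R μ) ν = if ν = μ then 1 else 0 := by
  obtain ⟨i, m⟩ := μ
  obtain ⟨j, l⟩ := ν
  unfold pc pm
  by_cases h : j = i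
  · subst h
    rw [Pi.single_eq_same, LS.cf_T]
    exact if_congr (by simp) rfl rfl
  · rw [Pi.single_eq_of_ne h, if_neg fun e => h (congrArg Prod.fst e)]
    rfl
theorem pole_zero_iff {F : LT ι R} : Pole F 0 ↔ ∀ μ, pc F μ = 0 :=
  (Chart_pole_iff (n := 0)).trans ⟨fun h μ => h μ (Nat.zero_le _), fun h μ _ => h μ⟩
theorem exists_pole (F : LT ι R) : ∃ n : ℕ, Pole F n := Chart_exists_pole F
theorem pole_iff {F : LT ι R} {n : ℕ} : Pole F n ↔ ∀ μ : ι × ℕ, n ≤ μ.2 → pc F μ = 0 :=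
  Chart_pole_iff
theorem pc_mapT (φ : R →+* R') (F : LT ι R) (μ : ι × ℕ) : pc (mapT φ F) μ = φ (pc F μ) := rfl
theorem mapT_xx (φ : R →+* R') : mapT φ (xx ι R) = xx ι R' := funext fun _ => LS.map_T φ _
theorem mapT_algebraMap (φ : R →+* R') (c : R) :
    mapT φ (algebraMap R (LT ι R) c) = algebraMap R' (LT ι R') (φ c) :=
  funext fun _ => LS.map_algebraMap φ c
theorem mapT_smul (φ : R →+* R') (c : R) (F : LT ι R) : mapT φ (c • F) = φ c • mapT φ F :=
  funext fun i => LS.map_smul φ c (F i)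
theorem mem_bc {φ : R →+* R'} {A : Subalgebra R (LT ι R)} {F : LT ι R'} :
    F ∈ bc φ A ↔ F ∈ Submodule.span R' (mapT φ '' A) := by
  have h1 : ((Submonoid.closure (mapT φ '' A) : Submonoid (LT ι R')) : Set (LT ι R')) =
      mapT φ '' A := congrArg SetLike.coe (Submonoid.closure_eq (A.toSubmonoid.map (mapT φ)))
  rw [bc, ← Subalgebra.mem_toSubmodule, Algebra.adjoin_eq_span, h1]
theorem Chart_mem_bc (φ : R →+* R') {A : Subalgebra R (LT ι R)} {F : LT ι R} (h : F ∈ A) :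
    mapT φ F ∈ bc φ A := Algebra.subset_adjoin ⟨F, h, rfl⟩
theorem bc_bc {R'' : Type u} [CommRing R''] (φ : R →+* R') (ψ : R' →+* R'')
    (A : Subalgebra R (LT ι R)) : bc ψ (bc φ A) = bc (ψ.comp φ) A := by
  refine le_antisymm (Algebra.adjoin_le ?_) (Algebra.adjoin_le ?_)
  · rintro _ ⟨G, hG, rfl⟩
    replace hG := mem_bc.1 hG
    induction hG using Submodule.span_induction with
    | mem x hx =>
      obtain ⟨F, hF, rfl⟩ := hx
      exact Chart_mem_bc (ψ.comp φ) hF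
    | zero => rw [map_zero]; exact zero_mem _
    | add x y _ _ hx hy => rw [map_add]; exact add_mem hx hy
    | smul c x _ hx => rw [mapT_smul]; exact Subalgebra.smul_mem _ hx _
  · rintro _ ⟨F, hF, rfl⟩
    exact Chart_mem_bc ψ (Chart_mem_bc φ hF)
theorem bc_id (A : Subalgebra R (LT ι R)) : bc (RingHom.id R) A = A := by
  refine le_antisymm (Algebra.adjoin_le ?_) fun F hF => Chart_mem_bc (RingHom.id R) hF
  rintro _ ⟨F, hF, rfl⟩
  exact hF

theorem Chart_P_pm (G : ι × ℕ → LT ι R) (μ : ι × ℕ) : Chart_P G (pm R μ) = G μ := by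
  have h : Chart_pf (pm R μ) = Finsupp.single μ 1 := Finsupp.ext fun ν =>
    (pc_pm μ ν).trans (by rw [Finsupp.single_apply]; exact if_congr eq_comm rfl rfl)
  rw [Chart_P, LinearMap.comp_apply, h, Finsupp.linearCombination_single, one_smul]

theorem Chart_P_map (φ : R →+* R') (G : ι × ℕ → LT ι R) (F : LT ι R) :
    mapT φ (Chart_P G F) = Chart_P (fun μ => mapT φ (G μ)) (mapT φ F) := by
  rw [Chart_P_apply, Chart_P_apply, map_sum, eq_comm]
  refine Finset.sum_subset_zero_on_sdiff (fun μ hμ => ?_) (fun μ hμ => ?_)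
    fun μ _ => (mapT_smul φ _ _).symm
  · rw [Set.Finite.mem_toFinset] at hμ ⊢
    exact fun e => hμ (by rw [pc_mapT, e, map_zero])
  · have h1 := (Finset.mem_sdiff.1 hμ).2
    have h2 : φ (pc F μ) = 0 := not_not.1 fun e => h1 ((finite_pc _).mem_toFinset.2 e)
    rw [mapT_smul, h2, zero_smul]

theorem Chart_chi_zero (i₀ : ι) {J : Finset (ι × ℕ)} (A : Subalgebra R (LT ι R)) {μ : ι × ℕ}
    (hμ : μ ∈ J) : chi i₀ J A μ = 0 := if_pos hμ

theorem Chart_cls (i₀ : ι) (J : Finset (ι × ℕ)) (A : Subalgebra R (LT ι R)) (F : LT ι R)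
    (ν : J) : cls i₀ J A F ν = pc (F - Chart_P (chi i₀ J A) F) ν := by
  rw [Chart_pc_sub, Chart_P_apply, Chart_pc_sum, cls]
  simp only [Chart_pc_smul]

/-- The class as a linear map. -/
noncomputable def Chart_clsL (i₀ : ι) (J : Finset (ι × ℕ)) (A : Subalgebra R (LT ι R)) :
    LT ι R →ₗ[R] J → R where
  toFun := cls i₀ J A
  map_add' F G := funext fun ν => by
    rw [Pi.add_apply, Chart_cls, Chart_cls, Chart_cls, map_add, ← Chart_pc_add, add_sub_add_comm]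
  map_smul' c F := funext fun ν => by
    rw [Pi.smul_apply, Chart_cls, Chart_cls, map_smul, ← smul_sub, Chart_pc_smul]
    rfl

theorem Chart_cls_pole (i₀ : ι) (J : Finset (ι × ℕ)) (A : Subalgebra R (LT ι R)) {F : LT ι R}
    (hF : Pole F 0) : cls i₀ J A F = 0 := funext fun ν => by
  rw [Chart_cls, Chart_P_eq_zero fun μ => Or.inl (pole_zero_iff.1 hF μ), sub_zero]
  exact pole_zero_iff.1 hF ν

theorem Chart_pm_pow {p : ℕ} (hp : 0 < p) (μ : ι × ℕ) :
    pm R μ ^ p = pm R (μ.1, p * (μ.2 + 1) - 1) := by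
  funext i
  rw [pm, pm, Pi.pow_apply]
  by_cases e : i = μ.1
  · subst e
    rw [Pi.single_eq_same, Pi.single_eq_same, LS.T_pow]
    congr 1
    have : 0 < p * (μ.2 + 1) := by positivity
    rw [Nat.cast_sub this]
    push_cast
    ring
  · rw [Pi.single_eq_of_ne e, Pi.single_eq_of_ne e, zero_pow hp.ne']

namespace IsChart

variable {J : Finset (ι × ℕ)} {A : Subalgebra R (LT ι R)} (h : IsChart J A) (i₀ : ι)
include h

theorem Chart_spec {μ : ι × ℕ} (hμ : μ ∉ J) : chi i₀ J A μ ∈ A ∧ (chi i₀ J A μ i₀).cf 0 = 0 ∧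
    ∀ ν, ν ∉ J → pc (chi i₀ J A μ) ν = if ν = μ then 1 else 0 := by
  rw [chi, if_neg hμ]
  refine Classical.epsilon_spec (p := fun F : LT ι R =>
    F ∈ A ∧ (F i₀).cf 0 = 0 ∧ ∀ ν, ν ∉ J → pc F ν = if ν = μ then 1 else 0) ?_
  obtain ⟨F, h1, h2⟩ := h.surj μ hμ
  refine ⟨F - algebraMap R _ ((F i₀).cf 0), sub_mem h1 (A.algebraMap_mem _), ?_, fun ν hν => ?_⟩
  · rw [Pi.sub_apply, LS.cf_sub, Chart_cf_C, sub_self]
  · rw [Chart_pc_sub, Chart_pc_C, sub_zero, h2 ν hν]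

theorem chi_mem (μ : ι × ℕ) : chi i₀ J A μ ∈ A := by
  by_cases hμ : μ ∈ J
  · rw [Chart_chi_zero i₀ A hμ]
    exact zero_mem _
  · exact (h.Chart_spec i₀ hμ).1
theorem chi_cf (μ : ι × ℕ) : (chi i₀ J A μ i₀).cf 0 = 0 := by
  by_cases hμ : μ ∈ J
  · rw [Chart_chi_zero i₀ A hμ]
    rfl
  · exact (h.Chart_spec i₀ hμ).2.1
theorem pc_chi {μ ν : ι × ℕ} (hμ : μ ∉ J) (hν : ν ∉ J) :
    pc (chi i₀ J A μ) ν = if ν = μ then 1 else 0 := (h.Chart_spec i₀ hμ).2.2 ν hν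
theorem Chart_pc_chi (μ : ι × ℕ) {ν : ι × ℕ} (hν : ν ∉ J) :
    pc (chi i₀ J A μ) ν = if ν = μ then 1 else 0 := by
  by_cases hμ : μ ∈ J
  · rw [Chart_chi_zero i₀ A hμ, if_neg fun e : ν = μ => hν (e ▸ hμ)]
    rfl
  · exact h.pc_chi i₀ hμ hν
theorem Chart_eq_zero {F : LT ι R} (hF : F ∈ A) (h0 : (F i₀).cf 0 = 0)
    (h1 : ∀ ν, ν ∉ J → pc F ν = 0) : F = 0 := by
  obtain ⟨c, rfl⟩ := h.inj F hF h1
  rw [Chart_cf_C] at h0
  rw [h0, map_zero]
theorem chi_eq {μ : ι × ℕ} (hμ : μ ∉ J) {F : LT ι R} (hF : F ∈ A) (h0 : (F i₀).cf 0 = 0)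
    (h1 : ∀ ν, ν ∉ J → pc F ν = if ν = μ then 1 else 0) : chi i₀ J A μ = F := by
  refine sub_eq_zero.1 (h.Chart_eq_zero i₀ (sub_mem (h.chi_mem i₀ μ) hF) ?_ fun ν hν => ?_)
  · rw [Pi.sub_apply, LS.cf_sub, h.chi_cf, h0, sub_self]
  · rw [Chart_pc_sub, h.pc_chi i₀ hμ hν, h1 ν hν, sub_self]
theorem pole_chi {μ : ι × ℕ} {n : ℕ} (hμ : μ.2 < n) (hJ : ∀ ν ∈ J, ν.2 < n) :
    Pole (chi i₀ J A μ) n := pole_iff.2 fun ν hν => by
  rw [h.Chart_pc_chi i₀ μ fun e => (hJ ν e).not_ge hν,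
    if_neg fun e : ν = μ => hμ.not_ge (e ▸ hν)]
theorem Chart_P_mem (F : LT ι R) : Chart_P (chi i₀ J A) F ∈ A :=
  sum_mem fun μ _ => A.smul_mem (h.chi_mem i₀ μ) _
theorem Chart_pc_P (F : LT ι R) {ν : ι × ℕ} (hν : ν ∉ J) :
    pc (F - Chart_P (chi i₀ J A) F) ν = 0 := by
  rw [Chart_pc_sub, Chart_P_apply, Chart_pc_sum]
  simp only [Chart_pc_smul, h.Chart_pc_chi i₀ _ hν, mul_ite, mul_one, mul_zero, Finset.sum_ite_eq]
  split_ifs with e
  · exact sub_self _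
  · rw [sub_zero]
    exact not_not.1 fun e' => e ((finite_pc F).mem_toFinset.2 e')
theorem mem_iff {F : LT ι R} : F ∈ A ↔ ∃ c : R,
    F = algebraMap R (LT ι R) c + ∑ μ ∈ (finite_pc F).toFinset, pc F μ • chi i₀ J A μ := by
  rw [← Chart_P_apply]
  constructor
  · intro hF
    obtain ⟨c, hc⟩ := h.inj _ (sub_mem hF (h.Chart_P_mem i₀ F)) fun ν hν => h.Chart_pc_P i₀ F hν
    exact ⟨c, eq_add_of_sub_eq hc⟩
  · rintro ⟨c, hc⟩
    rw [hc]
    exact add_mem (A.algebraMap_mem c) (h.Chart_P_mem i₀ F)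
theorem mem_iff_span {F : LT ι R} :
    F ∈ A ↔ F ∈ Submodule.span R (insert 1 (Set.range (chi i₀ J A))) := by
  constructor
  · intro hF
    obtain ⟨c, hc⟩ := (h.mem_iff i₀).1 hF
    rw [hc, Algebra.algebraMap_eq_smul_one]
    exact add_mem (Submodule.smul_mem _ _ (Submodule.subset_span (Set.mem_insert _ _)))
      (sum_mem fun μ _ => Submodule.smul_mem _ _
        (Submodule.subset_span (Set.mem_insert_of_mem _ ⟨μ, rfl⟩)))
  · intro hF
    refine (Submodule.span_le (p := Subalgebra.toSubmodule A)).2 ?_ hF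
    rintro _ (rfl | ⟨μ, rfl⟩)
    exacts [A.one_mem, h.chi_mem i₀ μ]
theorem Chart_bc_rep (φ : R →+* R') {F : LT ι R'} (hF : F ∈ PR0.bc φ A) : ∃ c : R',
    F = algebraMap R' (LT ι R') c + Chart_P (fun μ => mapT φ (chi i₀ J A μ)) F := by
  replace hF := mem_bc.1 hF
  induction hF using Submodule.span_induction with
  | mem x hx =>
    obtain ⟨G, hG, rfl⟩ := hx
    obtain ⟨c, hc⟩ := (h.mem_iff i₀).1 hG
    refine ⟨φ c, ?_⟩
    rw [← Chart_P_map, ← mapT_algebraMap, ← map_add, Chart_P_apply, ← hc]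
  | zero => exact ⟨0, by simp⟩
  | add x y _ _ hx hy =>
    obtain ⟨c, hc⟩ := hx
    obtain ⟨d, hd⟩ := hy
    exact ⟨c + d, by rw [map_add, map_add, add_add_add_comm, ← hc, ← hd]⟩
  | smul a x _ hx =>
    obtain ⟨c, hc⟩ := hx
    exact ⟨a * c, by rw [map_mul, map_smul, ← Algebra.smul_def, ← smul_add, ← hc]⟩
theorem bc (φ : R →+* R') : IsChart J (bc φ A) := by
  refine ⟨mapT_xx (ι := ι) φ ▸ Chart_mem_bc φ h.x_mem, fun F hF h0 => ?_, fun μ hμ => ?_⟩
  · rcases isEmpty_or_nonempty ι with _ | ⟨⟨i₀⟩⟩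
    · exact ⟨0, Subsingleton.elim _ _⟩
    obtain ⟨c, hc⟩ := h.Chart_bc_rep i₀ φ hF
    rw [Chart_P_eq_zero fun μ => ?_, add_zero] at hc
    · exact ⟨c, hc⟩
    by_cases hμ : μ ∈ J
    · exact Or.inr (by rw [Chart_chi_zero i₀ A hμ, map_zero])
    · exact Or.inl (h0 μ hμ)
  · obtain ⟨F, h1, h2⟩ := h.surj μ hμ
    exact ⟨_, Chart_mem_bc φ h1, fun ν hν => by
      rw [pc_mapT, h2 ν hν, apply_ite φ, map_one, map_zero]⟩
theorem chi_bc (φ : R →+* R') (μ : ι × ℕ) :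
    chi i₀ J (PR0.bc φ A) μ = mapT φ (chi i₀ J A μ) := by
  by_cases hμ : μ ∈ J
  · rw [Chart_chi_zero i₀ _ hμ, Chart_chi_zero i₀ _ hμ, map_zero]
  · refine (h.bc φ).chi_eq i₀ hμ (Chart_mem_bc φ (h.chi_mem i₀ μ)) ?_ fun ν hν => ?_
    · exact (congrArg φ (h.chi_cf i₀ μ)).trans φ.map_zero
    · rw [pc_mapT, h.pc_chi i₀ hμ hν, apply_ite φ, map_one, map_zero]
theorem coef_bc (φ : R →+* R') : coef i₀ J (PR0.bc φ A) = fun a => φ (coef i₀ J A a) :=
  funext fun a => by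
    rw [coef, h.chi_bc]
    rfl
theorem eq_of_coef {A' : Subalgebra R (LT ι R)} (h' : IsChart J A')
    (e : coef i₀ J A = coef i₀ J A') : A = A' := by
  have h1 : chi i₀ J A = chi i₀ J A' :=
    funext fun μ => funext fun i => LS.ext fun m => congrFun e (μ, i, m)
  ext F
  rw [h.mem_iff i₀, h'.mem_iff i₀, h1]
/-- saturation -/
theorem mem_of_mapT {φ : R →+* R'} (hφ : Function.Injective φ) {F : LT ι R}
    (hF : mapT φ F ∈ PR0.bc φ A) : F ∈ A := by
  rcases isEmpty_or_nonempty ι with _ | ⟨⟨i₀⟩⟩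
  · rw [Subsingleton.elim F 0]
    exact zero_mem _
  obtain ⟨c, hc⟩ := h.Chart_bc_rep i₀ φ hF
  rw [← Chart_P_map, ← sub_eq_iff_eq_add, ← map_sub] at hc
  have h1 : φ (((F - Chart_P (chi i₀ J A) F) i₀).cf 0) = c :=
    (congrArg (fun G : LT ι R' => (G i₀).cf 0) hc).trans (Chart_cf_C c i₀)
  rw [← h1, ← mapT_algebraMap] at hc
  exact (h.mem_iff i₀).2 ⟨_, eq_add_of_sub_eq (Chart_mapT_inj hφ hc)⟩
/-- the reduction map is onto, with control of the pole order -/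
theorem exists_lift {φ : R →+* R'} (hφ : Function.Surjective φ) {F : LT ι R'}
    (hF : F ∈ PR0.bc φ A) {n : ℕ} (hJ : ∀ ν ∈ J, ν.2 < n) (hn : Pole F n) :
    ∃ F₀ ∈ A, Pole F₀ n ∧ mapT φ F₀ = F := by
  rcases isEmpty_or_nonempty ι with _ | ⟨⟨i₀⟩⟩
  · exact ⟨0, zero_mem _, fun i => isEmptyElim i, Subsingleton.elim _ _⟩
  obtain ⟨c, hc⟩ := h.Chart_bc_rep i₀ φ hF
  choose s hs using hφ
  refine ⟨algebraMap R _ (s c) + ∑ μ ∈ (finite_pc F).toFinset, s (pc F μ) • chi i₀ J A μ,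
    add_mem (A.algebraMap_mem _) (sum_mem fun μ _ => A.smul_mem (h.chi_mem i₀ μ) _),
    pole_iff.2 fun ν hν => ?_, ?_⟩
  · rw [Chart_pc_add, Chart_pc_C, zero_add, Chart_pc_sum]
    refine Finset.sum_eq_zero fun μ hμ => ?_
    have h1 : μ.2 < n := not_le.1 fun e => (finite_pc F).mem_toFinset.1 hμ (pole_iff.1 hn μ e)
    rw [Chart_pc_smul, pole_iff.1 (h.pole_chi i₀ h1 hJ) ν hν, mul_zero]
  · rw [map_add, mapT_algebraMap, map_sum, hs]
    simp only [mapT_smul, hs]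
    exact hc.symm
theorem cls_add (F F' : LT ι R) : cls i₀ J A (F + F') = cls i₀ J A F + cls i₀ J A F' :=
  (Chart_clsL i₀ J A).map_add F F'
theorem cls_smul (c : R) (F : LT ι R) : cls i₀ J A (c • F) = c • cls i₀ J A F :=
  (Chart_clsL i₀ J A).map_smul c F
theorem Chart_cls_mem {F : LT ι R} (hF : F ∈ A) : cls i₀ J A F = 0 := funext fun ν => by
  obtain ⟨c, hc⟩ := (h.mem_iff i₀).1 hF
  rw [Chart_cls, Chart_P_apply, sub_eq_of_eq_add hc]
  exact Chart_pc_C c ν.1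
theorem cls_eq_zero {F : LT ι R} : cls i₀ J A F = 0 ↔ ∃ a ∈ A, Pole (F - a) 0 := by
  constructor
  · intro h0
    refine ⟨_, h.Chart_P_mem i₀ F, pole_zero_iff.2 fun ν => ?_⟩
    by_cases hν : ν ∈ J
    · exact (Chart_cls i₀ J A F ⟨ν, hν⟩).symm.trans (congrFun h0 _)
    · exact h.Chart_pc_P i₀ F hν
  · rintro ⟨a, ha, h1⟩
    rw [← sub_add_cancel F a, h.cls_add, Chart_cls_pole i₀ J A h1, h.Chart_cls_mem i₀ ha, add_zero]
theorem cls_pm (j : J) : cls i₀ J A (pm R j) = Pi.single j 1 := funext fun ν => by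
  rw [Chart_cls, Chart_P_pm, Chart_chi_zero i₀ A j.2, sub_zero, pc_pm, Pi.single_apply]
  exact if_congr Subtype.ext_iff.symm rfl rfl
theorem Chart_cls_sum (v : J → R) : cls i₀ J A (∑ j, v j • pm R j) = v := by
  refine (map_sum (Chart_clsL i₀ J A) _ _).trans ?_
  conv_rhs => rw [← Finset.univ_sum_single v]
  refine Finset.sum_congr rfl fun j _ => (h.cls_smul i₀ _ _).trans ?_
  rw [h.cls_pm, ← Pi.single_smul', smul_eq_mul, mul_one]
theorem cls_pow {k : Type u} [Field k] [Algebra k R] (p : ℕ) [Fact p.Prime] [CharP R p]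
    (F : LT ι R) :
    cls i₀ J A (F ^ p) = sapp p ((hw k p J).map (aeval (coef i₀ J A))) (cls i₀ J A F) := by
  have : Nonempty ι := ⟨i₀⟩
  have hp : 0 < p := (Fact.out : p.Prime).pos
  set v := cls i₀ J A F with hv
  have h0 : cls i₀ J A (F - ∑ j, v j • pm R j) = 0 := by
    refine ((Chart_clsL i₀ J A).map_sub _ _).trans (sub_eq_zero.2 ?_)
    exact (h.Chart_cls_sum i₀ v).symm
  obtain ⟨a, ha, h1⟩ := (h.cls_eq_zero i₀).1 h0
  have h2 : cls i₀ J A (F ^ p - ∑ j : J, v j ^ p • pm R (j.1.1, p * (j.1.2 + 1) - 1)) = 0 := by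
    refine (h.cls_eq_zero i₀).2 ⟨a ^ p, pow_mem ha p, fun i => ?_⟩
    have h3 := (h1 i).pow p
    rw [neg_zero, mul_zero, ← Pi.pow_apply, sub_pow_char, sub_pow_char, sum_pow_char] at h3
    simpa only [smul_pow, Chart_pm_pow hp, neg_zero] using h3
  have h3 := sub_eq_zero.1 (((Chart_clsL i₀ J A).map_sub _ _).symm.trans h2)
  refine h3.trans ((map_sum (Chart_clsL i₀ J A) _ _).trans (funext fun ν => ?_))
  rw [Finset.sum_apply, sapp, Matrix.mulVec, dotProduct]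
  refine Finset.sum_congr rfl fun j _ => ?_
  rw [map_smul, Pi.smul_apply, smul_eq_mul, mul_comm, Matrix.map_apply, hw, map_sub, aeval_X,
    apply_ite (aeval (coef i₀ J A)), map_one, map_zero]
  congr 1
  refine (Chart_cls i₀ J A _ ν).trans ?_
  rw [Chart_P_pm, Chart_pc_sub, pc_pm]
  rfl
/-- finite generation as a module over `R[x]` -/
theorem span_x {n : ℕ} (hJ : ∀ ν ∈ J, ν.2 < n) {F : LT ι R} : F ∈ A ↔ F ∈
    Submodule.span (Algebra.adjoin R {xx ι R}) (insert 1 (chi i₀ J A '' {μ | μ.2 ≤ n})) := by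
  set M := Submodule.span (Algebra.adjoin R {xx ι R}) (insert 1 (chi i₀ J A '' {μ | μ.2 ≤ n}))
  constructor
  · have key : ∀ m : ℕ, ∀ F ∈ A, Pole F (n + m + 1 : ℕ) → F ∈ M := by
      intro m
      induction m with
      | zero =>
        intro F hF hn
        obtain ⟨c, hc⟩ := (h.mem_iff i₀).1 hF
        rw [hc, Algebra.algebraMap_eq_smul_one]
        refine add_mem (M.smul_of_tower_mem _ (Submodule.subset_span (Set.mem_insert _ _)))
          (sum_mem fun μ hμ => M.smul_of_tower_mem _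
            (Submodule.subset_span (Set.mem_insert_of_mem _ ⟨μ, ?_, rfl⟩)))
        exact Nat.lt_succ_iff.1
          (not_le.1 fun e => (finite_pc F).mem_toFinset.1 hμ (pole_iff.1 hn μ e))
      | succ m ih =>
        intro F hF hn
        have h1 : ∀ i, xx ι R * chi i₀ J A (i, n + m) ∈ M := fun i =>
          M.smul_mem ⟨xx ι R, Algebra.self_mem_adjoin_singleton R _⟩ (ih _ (h.chi_mem i₀ _)
            (h.pole_chi i₀ (Nat.lt_succ_self _) fun ν hν => by have := hJ ν hν; omega))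
        rw [← sub_add_cancel F (∑ i, pc F (i, n + m + 1) • (xx ι R * chi i₀ J A (i, n + m)))]
        refine add_mem (ih _ (sub_mem hF (sum_mem fun i _ =>
          A.smul_mem (mul_mem h.x_mem (h.chi_mem i₀ _)) _)) (pole_iff.2 ?_))
          (sum_mem fun i _ => M.smul_of_tower_mem _ (h1 i))
        rintro ⟨j, l⟩ hl
        obtain ⟨l, rfl⟩ : ∃ l', l = l' + 1 := ⟨l - 1, by simp only at hl; omega⟩
        have h2 : (j, l) ∉ J := fun e => by have := hJ _ e; simp only at hl this; omega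
        rw [Chart_pc_sub, Chart_pc_sum]
        simp only [Chart_pc_smul, Chart_pc_xx, h.Chart_pc_chi i₀ _ h2, Prod.mk.injEq]
        by_cases e : l = n + m
        · simp [e]
        · rw [pole_iff.1 hn (j, l + 1) (by simp only at hl ⊢; omega)]
          simp [e]
    intro hF
    obtain ⟨m, hm⟩ := exists_pole F
    exact key m F hF (Chart_pole_mono hm (by omega))
  · intro hF
    induction hF using Submodule.span_induction with
    | mem x hx =>
      rcases hx with rfl | ⟨μ, -, rfl⟩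
      exacts [A.one_mem, h.chi_mem i₀ μ]
    | zero => exact zero_mem _
    | add x y _ _ hx hy => exact add_mem hx hy
    | smul c x _ hx =>
      exact mul_mem (Algebra.adjoin_le (Set.singleton_subset_iff.2 h.x_mem) c.2) hx

end IsChart

/-- Elements of bounded pole order. -/
def lev (A : Subalgebra R (LT ι R)) (n : ℤ) : Submodule R (LT ι R) where
  carrier := {F | F ∈ A ∧ Pole F n}
  add_mem' ha hb := ⟨add_mem ha.1 hb.1, fun i => (ha.2 i).add (hb.2 i)⟩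
  zero_mem' := ⟨zero_mem _, fun _ _ _ => LS.cf_zero _⟩
  smul_mem' c _ ha := ⟨A.smul_mem ha.1 c, fun i => (ha.2 i).smul c⟩

section
variable {K : Type u} [Field K] {J : Finset (ι × ℕ)} {A : Subalgebra K (LT ι K)}

theorem IsChart.Chart_equiv (h : IsChart J A) (i₀ : ι) {n : ℕ} (hJ : ∀ ν ∈ J, ν.2 < n) :
    Nonempty (lev A n ≃ₗ[K] K × (((Finset.univ ×ˢ Finset.range n) \ J : Finset (ι × ℕ)) → K)) := by
  set S : Finset (ι × ℕ) := (Finset.univ ×ˢ Finset.range n) \ J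
  have hS : ∀ μ, μ ∈ S ↔ μ.2 < n ∧ μ ∉ J := fun μ => by simp [S]
  let Φ : lev A n →ₗ[K] K × (S → K) :=
    { toFun := fun F => ((F.1 i₀).cf 0, fun μ => pc F.1 μ)
      map_add' := fun F G => Prod.ext (LS.cf_add _ _ _) (funext fun μ => Chart_pc_add _ _ _)
      map_smul' := fun c F => Prod.ext (LS.cf_smul _ _ _) (funext fun μ => Chart_pc_smul _ _ _) }
  refine ⟨LinearEquiv.ofBijective Φ ⟨(injective_iff_map_eq_zero Φ).2 fun F hF => ?_, ?_⟩⟩
  · refine Subtype.ext (h.Chart_eq_zero i₀ F.2.1 (congrArg Prod.fst hF) fun ν hν => ?_)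
    by_cases e : ν.2 < n
    · exact congrFun (congrArg Prod.snd hF) ⟨ν, (hS ν).2 ⟨e, hν⟩⟩
    · exact pole_iff.1 F.2.2 ν (not_lt.1 e)
  · rintro ⟨c, a⟩
    refine ⟨⟨algebraMap K _ c + ∑ μ : S, a μ • chi i₀ J A μ,
      add_mem (A.algebraMap_mem _) (sum_mem fun μ _ => A.smul_mem (h.chi_mem i₀ μ) _),
      pole_iff.2 fun ν hν => ?_⟩, Prod.ext ?_ (funext fun ν => ?_)⟩
    · rw [Chart_pc_add, Chart_pc_C, zero_add, Chart_pc_sum]
      refine Finset.sum_eq_zero fun μ _ => ?_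
      rw [Chart_pc_smul, pole_iff.1 (h.pole_chi i₀ ((hS μ).1 μ.2).1 hJ) ν hν, mul_zero]
    · show ((algebraMap K (LT ι K) c + ∑ μ : S, a μ • chi i₀ J A μ) i₀).cf 0 = c
      rw [Pi.add_apply, LS.cf_add, Chart_cf_C, Finset.sum_apply, LS.cf_sum]
      simp [h.chi_cf]
    · show pc (algebraMap K (LT ι K) c + ∑ μ : S, a μ • chi i₀ J A μ) ν = a ν
      rw [Chart_pc_add, Chart_pc_C, zero_add, Chart_pc_sum]
      simp [Chart_pc_smul, h.Chart_pc_chi i₀ _ ((hS ν).1 ν.2).2]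

omit [Fintype ι] [DecidableEq ι] in
theorem Chart_bound (J : Finset (ι × ℕ)) : ∃ n : ℕ, ∀ ν ∈ J, ν.2 < n :=
  ⟨J.sup Prod.snd + 1, fun _ hν => Nat.lt_succ_of_le (Finset.le_sup (f := Prod.snd) hν)⟩

theorem IsChart.finite_lev (h : IsChart J A) (n : ℤ) : FiniteDimensional K (lev A n) := by
  rcases isEmpty_or_nonempty ι with _ | ⟨⟨i₀⟩⟩
  · infer_instance
  obtain ⟨m, hm⟩ := Chart_bound J
  obtain ⟨e⟩ := h.Chart_equiv i₀ (n := m + n.toNat) fun ν hν => (hm ν hν).trans_le le_self_add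
  have := e.symm.finiteDimensional
  exact Submodule.finiteDimensional_of_le (S₂ := lev A (m + n.toNat : ℕ))
    fun F hF => ⟨hF.1, Chart_pole_mono hF.2 (by omega)⟩
theorem IsChart.finrank_lev [Nonempty ι] (h : IsChart J A) {n : ℕ} (hJ : ∀ ν ∈ J, ν.2 < n) :
    Module.finrank K (lev A n) + J.card = n * Fintype.card ι + 1 := by
  obtain ⟨e⟩ := h.Chart_equiv (Classical.arbitrary ι) hJ
  have h1 := Finset.card_sdiff_add_card_eq_card (s := J) (t := Finset.univ ×ˢ Finset.range n)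
    fun ν hν => by simpa using hJ ν hν
  rw [Finset.card_product, Finset.card_univ, Finset.card_range, mul_comm] at h1
  rw [e.finrank_eq, Module.finrank_prod, Module.finrank_self, Module.finrank_fintype_fun_eq_card,
    Fintype.card_coe]
  omega
theorem IsChart.snil_iff {k : Type u} [Field k] [Algebra k K] (p : ℕ) [Fact p.Prime] [CharP K p]
    (h : IsChart J A) (i₀ : ι) : SNil p ((hw k p J).map (aeval (coef i₀ J A))) ↔
      ∀ F : LT ι K, ∃ n : ℕ, ∃ a ∈ A, Pole (F ^ p ^ n - a) 0 := by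
  have key : ∀ (F : LT ι K) (n : ℕ), cls i₀ J A (F ^ p ^ n) =
      (sapp p ((hw k p J).map (aeval (coef i₀ J A))))^[n] (cls i₀ J A F) := by
    intro F n
    induction n with
    | zero => rw [pow_zero, pow_one, Function.iterate_zero_apply]
    | succ n ih => rw [pow_succ, pow_mul, h.cls_pow i₀ (k := k), ih, Function.iterate_succ_apply']
  rw [PR0.snil_iff]
  simp only [← h.cls_eq_zero i₀, key]
  exact ⟨fun H F => H _, fun H v => h.Chart_cls_sum i₀ v ▸ H _⟩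
/-- a subalgebra with only constants regular and finite codimension is a chart point -/
theorem exists_isChart (hx : xx ι K ∈ A) (h0 : ∀ F ∈ A, Pole F 0 → ∃ c, F = algebraMap K _ c)
    {n : ℕ} (h1 : ∀ F : LT ι K, ∃ a ∈ A, Pole (F - a) n) :
    ∃ J : Finset (ι × ℕ), (∀ ν ∈ J, ν.2 < n) ∧ IsChart J A := by
  obtain ⟨J, ⟨hJ, hs⟩, hmin⟩ := wellFounded_lt.has_min {J : Finset (ι × ℕ) | (∀ ν ∈ J, ν.2 < n) ∧
      ∀ F : LT ι K, ∃ a ∈ A, ∀ μ, μ ∉ J → pc (F - a) μ = 0}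
    ⟨Finset.univ ×ˢ Finset.range n, fun ν hν => by simpa using hν, fun F => by
      obtain ⟨a, ha, h2⟩ := h1 F
      exact ⟨a, ha, fun μ hμ => pole_iff.1 h2 μ (by simpa using hμ)⟩⟩
  refine ⟨J, hJ, hx, fun F hF h2 => h0 F hF (pole_zero_iff.2 fun ν => ?_), fun μ _ => ?_⟩
  · by_contra h3
    have h4 : ν ∈ J := not_not.1 fun e => h3 (h2 ν e)
    refine hmin (J.erase ν) ⟨fun μ hμ => hJ μ (Finset.mem_of_mem_erase hμ), fun G => ?_⟩
      (Finset.erase_ssubset h4)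
    obtain ⟨a, ha, h5⟩ := hs G
    refine ⟨a + (pc (G - a) ν / pc F ν) • F, add_mem ha (A.smul_mem hF _), fun μ hμ => ?_⟩
    rw [← sub_sub, Chart_pc_sub, Chart_pc_smul]
    by_cases e : μ = ν
    · rw [e, div_mul_cancel₀ _ h3, sub_self]
    · have h6 : μ ∉ J := fun h => hμ (Finset.mem_erase.2 ⟨e, h⟩)
      rw [h5 μ h6, h2 μ h6, mul_zero, sub_self]
  · obtain ⟨a, ha, h2⟩ := hs (pm K μ)
    refine ⟨a, ha, fun ν hν => ?_⟩
    have h3 := h2 ν hν
    rw [Chart_pc_sub, pc_pm, sub_eq_zero] at h3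
    exact h3.symm
theorem IsChart.card_eq {J' : Finset (ι × ℕ)} (h : IsChart J A) (h' : IsChart J' A) :
    J.card = J'.card := by
  rcases isEmpty_or_nonempty ι with _ | _
  · rw [J.eq_empty_of_isEmpty, J'.eq_empty_of_isEmpty]
  obtain ⟨n, hn⟩ := Chart_bound (J ∪ J')
  have h1 := h.finrank_lev fun ν hν => hn ν (Finset.mem_union_left _ hν)
  have h2 := h'.finrank_lev fun ν hν => hn ν (Finset.mem_union_right _ hν)
  omega
end

end PR0
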