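import Pool.Agent.Work.MP_da2620_ag.CDA
import Pool.Agent.Work.MP_da2620_ag.Chart

/-!
# Chart points that are domains
-/

namespace PR0

universe u

variable {K : Type u} [Field K] {ι : Type} [Fintype ι] [DecidableEq ι] {J : Finset (ι × ℕ)}
  {A : Subalgebra K (LT ι K)}

omit [Fintype ι] [DecidableEq ι] in
theorem CDC_bound (J : Finset (ι × ℕ)) : ∃ n : ℕ, ∀ ν ∈ J, ν.2 < n :=
  ⟨J.sup (fun ν => ν.2) + 1, fun _ hν =>
    Nat.lt_succ_of_le (Finset.le_sup (f := fun ν : ι × ℕ => ν.2) hν)⟩

theorem CDC_span [Nonempty ι] (h : IsChart J A) : ∃ s : Set (LT ι K), s.Finite ∧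
    ∀ F, F ∈ A ↔ F ∈ Submodule.span (Algebra.adjoin K {xx ι K}) s := by
  obtain ⟨n, hn⟩ := CDC_bound J
  refine ⟨_, Set.Finite.insert _ (Set.Finite.image _ ?_),
    fun F => h.span_x (Classical.arbitrary ι) hn⟩
  exact ((Set.finite_univ (α := ι)).prod (Set.finite_Iic n)).subset fun μ hμ => ⟨trivial, hμ⟩

theorem CDC_int [Nonempty ι] (h : IsChart J A) (a : A) :
    (Polynomial.aeval (⟨xx ι K, h.x_mem⟩ : A) : Polynomial K →ₐ[K] A).toRingHom.IsIntegralElem a := by
  obtain ⟨s, hs, h1⟩ := CDC_span h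
  let S : Subalgebra (Algebra.adjoin K {xx ι K}) (LT ι K) :=
    { A.toSubsemiring with
      algebraMap_mem' := fun r => Algebra.adjoin_le (Set.singleton_subset_iff.2 h.x_mem) r.2 }
  have h2 : S.toSubmodule.FG := Submodule.fg_def.2 ⟨s, hs, Submodule.ext fun F => (h1 F).symm⟩
  have h3 := CDA_intx.1 (IsIntegral.of_mem_of_fg S h2 a a.2)
  refine RingHom.IsIntegralElem.of_map (g := A.val.toRingHom) Subtype.val_injective ?_
  rw [CDA_aeval_comp]
  exact h3

/-- The projection to a component. -/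
noncomputable def CDC_pr (A : Subalgebra K (LT ι K)) (i : ι) : A →ₐ[K] LS K :=
  (Pi.evalAlgHom K (fun _ : ι => LS K) i).comp A.val

theorem CDC_inj [IsAlgClosed K] [IsDomain A] (h : IsChart J A) (i : ι) :
    Function.Injective (CDC_pr A i) := by
  have : Nonempty ι := ⟨i⟩
  let _ : Algebra (Polynomial K) A :=
    (Polynomial.aeval (⟨xx ι K, h.x_mem⟩ : A) : Polynomial K →ₐ[K] A).toRingHom.toAlgebra
  have : Algebra.IsIntegral (Polynomial K) A := ⟨CDC_int h⟩
  refine (RingHom.injective_iff_ker_eq_bot (CDC_pr A i).toRingHom).2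
    (Ideal.eq_bot_of_comap_eq_bot (R := Polynomial K) (eq_bot_iff.2 fun q hq => ?_))
  have h1 : CDC_pr A i (Polynomial.aeval (⟨xx ι K, h.x_mem⟩ : A) q) = 0 := hq
  rw [← Polynomial.aeval_algHom_apply] at h1
  exact (injective_iff_map_eq_zero _).1 (transcendental_iff_injective.1 CDA_trans_T) q h1

theorem CDC_fin [Nonempty ι] [IsDomain A] (h : IsChart J A) (L : Type u) [Field L] [Algebra K L]
    [Algebra A L] [IsScalarTower K A L] [IsFractionRing A L] : FiniteDimensional
      (IntermediateField.adjoin K {algebraMap A L ⟨xx ι K, h.x_mem⟩}) L := by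
  obtain ⟨s, hs, h1⟩ := CDC_span h
  set x := algebraMap A L ⟨xx ι K, h.x_mem⟩ with hx
  set F := IntermediateField.adjoin K {x}
  have h2 : ∀ q : Polynomial K, Polynomial.aeval x q ∈ F := fun q =>
    IntermediateField.algebra_adjoin_le_adjoin K _ (Polynomial.aeval_mem_adjoin_singleton K x)
  have h3 : ∀ a : A, IsIntegral F (algebraMap A L a) := fun a => by
    have := (CDC_int h a).map (IsScalarTower.toAlgHom K A L).toRingHom
    rw [CDA_aeval_comp] at this
    exact RingHom.IsIntegralElem.of_comp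
      (f := (Polynomial.aeval x : Polynomial K →ₐ[K] L).toRingHom.codRestrict F h2) this
  let t : Set L := algebraMap A L '' (Subtype.val ⁻¹' s)
  have : Finite t := ((hs.preimage Subtype.val_injective.injOn).image _).to_subtype
  have h4 : FiniteDimensional F (IntermediateField.adjoin F t) :=
    IntermediateField.finiteDimensional_adjoin (by rintro _ ⟨a, -, rfl⟩; exact h3 a)
  have h5 : ∀ G ∈ Submodule.span (Algebra.adjoin K {xx ι K}) s, ∀ hG : G ∈ A,
      algebraMap A L ⟨G, hG⟩ ∈ IntermediateField.adjoin F t := by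
    intro G hG
    induction hG using Submodule.span_induction with
    | mem G hG => exact fun hA => IntermediateField.subset_adjoin F t ⟨⟨G, hA⟩, hG, rfl⟩
    | zero => exact fun _ => (map_zero (algebraMap A L)).symm ▸ zero_mem _
    | add G G' hG hG' ih ih' =>
      intro _
      have := add_mem (ih ((h1 G).2 hG)) (ih' ((h1 G').2 hG'))
      rwa [← map_add] at this
    | smul r G hG ih =>
      intro hA
      obtain ⟨q, hq⟩ := Algebra.adjoin_mem_exists_aeval K _ r.2
      have e : (⟨r • G, hA⟩ : A) =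
          Polynomial.aeval (⟨xx ι K, h.x_mem⟩ : A) q * ⟨G, (h1 G).2 hG⟩ := by
        refine Subtype.ext ?_
        have := Polynomial.aeval_algHom_apply A.val ⟨xx ι K, h.x_mem⟩ q
        exact congrArg (· * G) (hq.symm.trans this)
      rw [e, map_mul, ← Polynomial.aeval_algebraMap_apply]
      exact mul_mem ((IntermediateField.adjoin F t).algebraMap_mem ⟨_, h2 q⟩) (ih _)
  have h6 : IntermediateField.adjoin F t = ⊤ := by
    refine eq_top_iff.2 fun f _ => ?_
    obtain ⟨a, b, -, rfl⟩ := IsFractionRing.div_surjective A f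
    exact div_mem (h5 a ((h1 a).1 a.2) a.2) (h5 b ((h1 b).1 b.2) b.2)
  rw [h6] at h4
  exact IntermediateField.topEquiv.toLinearEquiv.finiteDimensional

end PR0
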