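import Pool.Agent.Work.MP_da2620_ag.Chart

/-!
# The universal chart

`cI`: the ideal of all polynomials vanishing at the coordinates of all chart points (over rings in
the universe of `k`).  `exists_chart`: over `P = MvPolynomial (Idx ι) k` modulo the explicit relations
(`X (μ, i, n) = 0` for `μ ∈ J` and for `n` below the allowed pole order, the normalisations of `pc` and
of the constant term, closure of the span of `1` and the `χ μ` under products, `x` in the span) there is a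
chart point with the variables as coordinates, and every chart point satisfies these relations.
`fgi_cI`: work with the universal chart point `A` over `R = P / cI`; let `M` bound the orders in `J`, let
`R₀` be generated by the coordinates `(μ, i, n)` with `μ.2 ≤ 2 M + 2`, `n ≤ N₀` (large).  Put
`η i = χ (i, M)`, `A' = ⊕ R[x] η i`.  `A / A'` is generated over `R` by `1` and the `χ μ`, `μ.2 < M`, and
`x` acts on these generators by a matrix over `R₀`; by Cayley-Hamilton a monic `Δ ∈ R₀[x]` has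
`Δ(x) η i η l = ∑ q(x) η c` with `q ∈ R₀[x]`.  Multiply by a power of `t`: with `e i = t ^ (M+1) η i ≡ δ i`
mod `t`, one gets `u e i e l = ∑ q'(t) e c`, `u ∈ 1 + t R₀[t]`, `q'(0) = δ δ`; induction on `n` shows that
the coefficients of the `e i` lie in `R₀` (compare the coefficient of `t ^ n` in component `i` for
`l ≠ i` and for `l = i`).  Then `Δ(x) χ μ ∈ ⊕ R₀[x] η c` gives the other `χ μ`, `μ.2 < M`, and
`x χ (i, n) - χ (i, n+1)` is an `R₀`-combination of earlier ones.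
-/

namespace PR0

open MvPolynomial

universe u

variable {ι : Type} [Fintype ι] [DecidableEq ι] (k : Type u) [Field k]

/-- The ideal of the chart. -/
noncomputable def cI (i₀ : ι) (J : Finset (ι × ℕ)) : Ideal (MvPolynomial (Idx ι) k) where
  carrier := {f | ∀ (R : Type u) [CommRing R] [Algebra k R] (A : Subalgebra R (LT ι R)),
    IsChart J A → aeval (coef i₀ J A) f = 0}
  add_mem' ha hb R _ _ A h := by rw [map_add, ha R A h, hb R A h, add_zero]
  zero_mem' R _ _ A h := map_zero _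
  smul_mem' c f hf R _ _ A h := by rw [smul_eq_mul, map_mul, hf R A h, mul_zero]

variable {k} {i₀ : ι} {J : Finset (ι × ℕ)} {R : Type u} [CommRing R] [Algebra k R]

theorem IsChart.on {A : Subalgebra R (LT ι R)} (h : IsChart J A) (i₀ : ι) :
    On (cI k i₀ J) (coef i₀ J A) := fun _ hf => hf R A h

/-- The expansion of an element in terms of a family. -/
noncomputable def Univ_dec (i₀ : ι) (ξ : ι × ℕ → LT ι R) (n : ℕ) (G : LT ι R) : LT ι R :=
  algebraMap R (LT ι R) ((G i₀).cf 0) + ∑ μ ∈ Finset.univ ×ˢ Finset.range n, pc G μ • ξ μ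

theorem Univ_mapT_dec {R' : Type u} [CommRing R'] (φ : R →+* R') (ξ : ι × ℕ → LT ι R) (n : ℕ)
    (G : LT ι R) :
    mapT φ (Univ_dec i₀ ξ n G) = Univ_dec i₀ (fun μ => mapT φ (ξ μ)) n (mapT φ G) := by
  unfold Univ_dec
  rw [map_add, mapT_algebraMap, map_sum]
  simp only [mapT_smul, pc_mapT]
  rfl

omit [Fintype ι] [DecidableEq ι] in
theorem Univ_pc_add (F G : LT ι R) (μ : ι × ℕ) : pc (F + G) μ = pc F μ + pc G μ := LS.cf_add _ _ _

omit [Fintype ι] [DecidableEq ι] in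
theorem Univ_pc_sub (F G : LT ι R) (μ : ι × ℕ) : pc (F - G) μ = pc F μ - pc G μ := LS.cf_sub _ _ _

omit [Fintype ι] [DecidableEq ι] in
theorem Univ_pc_smul (r : R) (F : LT ι R) (μ : ι × ℕ) : pc (r • F) μ = r * pc F μ :=
  LS.cf_smul _ _ _

omit [DecidableEq ι] in
theorem Univ_dec_add (ξ : ι × ℕ → LT ι R) (n : ℕ) (F G : LT ι R) :
    Univ_dec i₀ ξ n (F + G) = Univ_dec i₀ ξ n F + Univ_dec i₀ ξ n G := by
  unfold Univ_dec
  simp only [Pi.add_apply, LS.cf_add, map_add, Univ_pc_add, add_smul, Finset.sum_add_distrib]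
  abel

omit [DecidableEq ι] in
theorem Univ_dec_smul (ξ : ι × ℕ → LT ι R) (n : ℕ) (r : R) (F : LT ι R) :
    Univ_dec i₀ ξ n (r • F) = r • Univ_dec i₀ ξ n F := by
  unfold Univ_dec
  simp only [Pi.smul_apply, LS.cf_smul, Univ_pc_smul, smul_add, Finset.smul_sum, mul_smul,
    Algebra.algebraMap_eq_smul_one]

theorem IsChart.Univ_eq {A : Subalgebra R (LT ι R)} (h : IsChart J A) (i₀ : ι) {G : LT ι R}
    (hG : G ∈ A) {n : ℕ} (hn : Pole G n) : G = Univ_dec i₀ (chi i₀ J A) n G := by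
  obtain ⟨c, hc⟩ := (h.mem_iff i₀).1 hG
  have e : (G i₀).cf 0 = c := by
    rw [hc, Pi.add_apply, LS.cf_add, Finset.sum_apply, LS.cf_sum, Pi.algebraMap_apply,
      LS.cf_algebraMap, if_pos rfl, Finset.sum_eq_zero, add_zero]
    intro μ _
    rw [Pi.smul_apply, LS.cf_smul, h.chi_cf, mul_zero]
  unfold Univ_dec
  rw [e, ← Finset.sum_subset (s₁ := (finite_pc G).toFinset)]
  · exact hc
  · intro μ hμ
    rw [Set.Finite.mem_toFinset] at hμ
    refine Finset.mem_product.2 ⟨Finset.mem_univ _, Finset.mem_range.2 (not_le.1 fun h' => ?_)⟩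
    exact hμ (pole_iff.1 hn μ h')
  · intro μ _ hμ
    rw [Set.Finite.mem_toFinset, Set.mem_ofPred_eq, not_not] at hμ
    rw [hμ, zero_smul]

omit [Fintype ι] [DecidableEq ι] in
theorem Univ_pole_mono {F : LT ι R} {n m : ℤ} (h : Pole F n) (hm : n ≤ m) : Pole F m :=
  fun i => (h i).mono (by omega)

omit [Fintype ι] [DecidableEq ι] in
theorem Univ_pole_mul {F G : LT ι R} {n m : ℤ} (h : Pole F n) (h' : Pole G m) :
    Pole (F * G) (n + m) := fun i => ((h i).mul (h' i)).mono (by omega)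

omit [Fintype ι] [DecidableEq ι] in
theorem Univ_pole_xx : Pole (xx ι R) 1 := fun _ => LS.ge_T _

omit [Fintype ι] [DecidableEq ι] in
theorem Univ_pole_one : Pole (1 : LT ι R) 0 := fun _ => LS.ge_T (R := R) 0

/-- Evaluation as a ring map. -/
noncomputable def Univ_ev (k : Type u) [Field k] [Algebra k R] (c : Idx ι → R) :
    MvPolynomial (Idx ι) k →+* R := (aeval c : MvPolynomial (Idx ι) k →ₐ[k] R).toRingHom

/-- The allowed pole order. -/
def Univ_N (J : Finset (ι × ℕ)) (μ : ι × ℕ) : ℕ := μ.2 + 1 + J.sup Prod.snd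

theorem IsChart.Univ_pole {A : Subalgebra R (LT ι R)} (h : IsChart J A) (i₀ : ι) (μ : ι × ℕ) :
    Pole (chi i₀ J A μ) (Univ_N J μ) := by
  refine h.pole_chi i₀ (by unfold Univ_N; omega) fun ν hν => ?_
  have := Finset.le_sup (f := Prod.snd) hν
  unfold Univ_N
  omega

theorem Univ_tr {c : Idx ι → R} (h : On (cI k i₀ J) c) (G G' : LT ι (MvPolynomial (Idx ι) k))
    (e : ∀ (S : Type u) [CommRing S] [Algebra k S] (B : Subalgebra S (LT ι S)), IsChart J B →
      mapT (Univ_ev k (coef i₀ J B)) G = mapT (Univ_ev k (coef i₀ J B)) G') :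
    mapT (Univ_ev k c) G = mapT (Univ_ev k c) G' := by
  funext i
  refine LS.ext fun n => sub_eq_zero.1 ?_
  have := h ((G i).cf n - (G' i).cf n) fun S _ _ B hB => by
    rw [map_sub, sub_eq_zero]
    exact congrArg (fun F : LT ι S => (F i).cf n) (e S B hB)
  rwa [map_sub] at this

theorem exists_chart {c : Idx ι → R} (h : On (cI k i₀ J) c) :
    ∃ A : Subalgebra R (LT ι R), IsChart J A ∧ coef i₀ J A = c := by
  have hex : ∀ (μ : ι × ℕ) (i : ι), ∃ f : LS (MvPolynomial (Idx ι) k),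
      ∀ n, f.cf n = if n < -(Univ_N J μ : ℤ) then 0 else X (μ, i, n) :=
    fun μ i => LS.exists_cf _ (-(Univ_N J μ : ℤ)) fun m hm => if_pos hm
  choose Ξ hΞ using hex
  have hch : ∀ (S : Type u) [CommRing S] [Algebra k S] (B : Subalgebra S (LT ι S)), IsChart J B →
      ∀ μ, mapT (Univ_ev k (coef i₀ J B)) (Ξ μ) = chi i₀ J B μ := by
    intro S _ _ B hB μ
    funext i
    refine LS.ext fun n => ?_
    change aeval (coef i₀ J B) ((Ξ μ i).cf n) = _
    rw [hΞ]
    split_ifs with hn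
    · rw [map_zero, hB.Univ_pole i₀ μ i n hn]
    · rw [aeval_X]
      rfl
  set F : ι × ℕ → LT ι R := fun μ => mapT (Univ_ev k c) (Ξ μ) with hF
  have dec : ∀ (G : LT ι (MvPolynomial (Idx ι) k)) (n : ℕ),
      (∀ (S : Type u) [CommRing S] [Algebra k S] (B : Subalgebra S (LT ι S)), IsChart J B →
        mapT (Univ_ev k (coef i₀ J B)) G ∈ B ∧ Pole (mapT (Univ_ev k (coef i₀ J B)) G) n) →
      mapT (Univ_ev k c) G = Univ_dec i₀ F n (mapT (Univ_ev k c) G) := by
    intro G n hG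
    rw [hF, ← Univ_mapT_dec]
    refine Univ_tr h _ _ fun S _ _ B hB => ?_
    rw [Univ_mapT_dec, funext (hch S B hB)]
    exact hB.Univ_eq i₀ (hG S B hB).1 (hG S B hB).2
  have hcf : ∀ μ i n, (F μ i).cf n = c (μ, i, n) := by
    intro μ i n
    change aeval c ((Ξ μ i).cf n) = _
    rw [hΞ]
    split_ifs with hn
    · rw [map_zero, ← aeval_X (R := k) c]
      refine (h _ fun S _ _ B hB => ?_).symm
      rw [aeval_X]
      exact hB.Univ_pole i₀ μ i n hn
    · rw [aeval_X]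
  have hJ0 : ∀ μ ∈ J, F μ = 0 := fun μ hμ => by
    rw [← map_zero (mapT (Univ_ev k c))]
    exact Univ_tr h _ _ fun S _ _ B hB => by rw [hch S B hB, map_zero, chi, if_pos hμ]
  have h0 : ∀ μ, (F μ i₀).cf 0 = 0 := fun μ => by
    rw [hcf, ← aeval_X (R := k) c]
    refine h _ fun S _ _ B hB => ?_
    rw [aeval_X]
    exact hB.chi_cf i₀ μ
  have hpc : ∀ μ, μ ∉ J → ∀ ν, ν ∉ J → pc (F μ) ν = if ν = μ then 1 else 0 := by
    intro μ hμ ν hν
    have := h (X (μ, ν.1, -((ν.2 : ℤ) + 1)) - if ν = μ then 1 else 0) fun S _ _ B hB => by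
      rw [map_sub, aeval_X, apply_ite (aeval (coef i₀ J B)), map_one, map_zero, sub_eq_zero]
      exact hB.pc_chi i₀ hμ hν
    rw [map_sub, aeval_X, apply_ite (aeval c), map_one, map_zero, sub_eq_zero] at this
    rw [pc, hcf, this]
  set W := Submodule.span R (insert 1 (Set.range F)) with hW
  have w1 : (1 : LT ι R) ∈ W := Submodule.subset_span (Set.mem_insert _ _)
  have wF : ∀ μ, F μ ∈ W := fun μ => Submodule.subset_span (Set.mem_insert_of_mem _ ⟨μ, rfl⟩)
  have wd : ∀ n G, Univ_dec i₀ F n G ∈ W := fun n G => by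
    rw [Univ_dec, Algebra.algebraMap_eq_smul_one]
    exact add_mem (W.smul_mem _ w1) (sum_mem fun μ _ => W.smul_mem _ (wF μ))
  have wm : ∀ x y, x ∈ W → y ∈ W → x * y ∈ W := by
    intro x y hx hy
    have : W * W ≤ W := by
      rw [hW, Submodule.span_mul_span, Submodule.span_le]
      rintro _ ⟨a, ha, b, hb, rfl⟩
      rcases ha with rfl | ⟨μ, rfl⟩
      · simpa using Submodule.subset_span hb
      rcases hb with rfl | ⟨ν, rfl⟩
      · simpa using wF μ
      have e := dec (Ξ μ * Ξ ν) (Univ_N J μ + Univ_N J ν) fun S _ _ B hB => by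
        rw [map_mul, hch S B hB, hch S B hB]
        exact ⟨mul_mem (hB.chi_mem i₀ μ) (hB.chi_mem i₀ ν),
          Univ_pole_mono (Univ_pole_mul (hB.Univ_pole i₀ μ) (hB.Univ_pole i₀ ν)) (by omega)⟩
      rw [map_mul] at e
      change F μ * F ν ∈ W
      rw [show F μ * F ν = _ from e]
      exact wd _ _
    exact this (Submodule.mul_mem_mul hx hy)
  have hA : IsChart J (W.toSubalgebra w1 wm) := by
    refine ⟨?_, fun G hG hG' => ?_, fun μ hμ => ⟨F μ, wF μ, hpc μ hμ⟩⟩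
    · have e := dec (xx ι _) 1 fun S _ _ B hB => by
        rw [mapT_xx]
        exact ⟨hB.x_mem, Univ_pole_xx⟩
      rw [mapT_xx] at e
      rw [e]
      exact wd _ _
    · have key : ∃ n₀ : ℕ, ∀ n, n₀ ≤ n → G = Univ_dec i₀ F n G := by
        clear hG'
        induction hG using Submodule.span_induction with
        | mem x hx =>
          rcases hx with rfl | ⟨μ, rfl⟩
          · refine ⟨0, fun n _ => ?_⟩
            have e := dec 1 n fun S _ _ B hB => by
              rw [map_one]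
              exact ⟨one_mem _, Univ_pole_mono Univ_pole_one (by omega)⟩
            rwa [map_one] at e
          · refine ⟨Univ_N J μ, fun n hn => dec (Ξ μ) n fun S _ _ B hB => ?_⟩
            rw [hch S B hB]
            exact ⟨hB.chi_mem i₀ μ, Univ_pole_mono (hB.Univ_pole i₀ μ) (by omega)⟩
        | zero =>
          refine ⟨0, fun n _ => ?_⟩
          have e := Univ_dec_smul (i₀ := i₀) F n 0 0
          rw [zero_smul, zero_smul] at e
          exact e.symm
        | add x y _ _ hx hy =>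
          obtain ⟨a, ha⟩ := hx
          obtain ⟨b, hb⟩ := hy
          exact ⟨a + b, fun n hn => by rw [Univ_dec_add, ← ha n (by omega), ← hb n (by omega)]⟩
        | smul r x _ hx =>
          obtain ⟨a, ha⟩ := hx
          exact ⟨a, fun n hn => by rw [Univ_dec_smul, ← ha n hn]⟩
      obtain ⟨n, hn⟩ := key
      refine ⟨(G i₀).cf 0, (hn n le_rfl).trans ?_⟩
      rw [Univ_dec, Finset.sum_eq_zero, add_zero]
      intro μ _
      by_cases hμ : μ ∈ J
      · rw [hJ0 μ hμ, smul_zero]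
      · rw [hG' μ hμ, zero_smul]
  refine ⟨_, hA, funext fun a => ?_⟩
  have e : chi i₀ J (W.toSubalgebra w1 wm) a.1 = F a.1 := by
    by_cases hμ : a.1 ∈ J
    · rw [hJ0 _ hμ, chi, if_pos hμ]
    · exact hA.chi_eq i₀ hμ (wF _) (h0 _) (hpc _ hμ)
  rw [coef, e, hcf]

/-- Series with coefficients in a subring. -/
def Univ_L (R₀ : Subring R) : Subring (LS R) where
  carrier := {f | ∀ n, f.cf n ∈ R₀}
  mul_mem' {f g} hf hg n := by
    obtain ⟨a, ha⟩ := f.exists_ge
    obtain ⟨b, hb⟩ := g.exists_ge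
    rw [LS.cf_mul ha hb]
    exact sum_mem fun i _ => mul_mem (hf _) (hg _)
  one_mem' n := by
    rw [← LS.T_zero, LS.cf_T]
    split_ifs
    exacts [one_mem _, zero_mem _]
  add_mem' hf hg n := by
    rw [LS.cf_add]
    exact add_mem (hf n) (hg n)
  zero_mem' _ := zero_mem _
  neg_mem' hf n := by
    rw [LS.cf_neg]
    exact neg_mem (hf n)

theorem Univ_T_mem (R₀ : Subring R) (m : ℤ) : LS.T R m ∈ Univ_L R₀ := fun n => by
  rw [LS.cf_T]
  split_ifs
  exacts [one_mem _, zero_mem _]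

theorem Univ_smul_mem {R₀ : Subring R} {r : R} (hr : r ∈ R₀) {f : LS R} (hf : f ∈ Univ_L R₀) :
    r • f ∈ Univ_L R₀ := fun n => by
  rw [LS.cf_smul]
  exact mul_mem hr (hf n)

theorem Univ_conv {R₀ : Subring R} {f g : LS R} (hf : f.Ge 0) (hg : g.Ge 0) {n : ℤ} (hn : 0 < n)
    (h1 : ∀ m, m < n → f.cf m ∈ R₀) (h2 : ∀ m, m < n → g.cf m ∈ R₀) :
    (f * g).cf n - (f.cf 0 * g.cf n + f.cf n * g.cf 0) ∈ R₀ := by
  have e : Finset.Icc 0 (n - 0) = insert 0 (insert n (Finset.Ioo 0 n)) := by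
    ext m
    simp only [Finset.mem_Icc, Finset.mem_insert, Finset.mem_Ioo]
    omega
  rw [LS.cf_mul hf hg, e, Finset.sum_insert (by simp; omega), Finset.sum_insert (by simp),
    sub_zero, sub_self, ← add_assoc, add_sub_cancel_left]
  refine sum_mem fun i hi => ?_
  rw [Finset.mem_Ioo] at hi
  exact mul_mem (h1 _ hi.2) (h2 _ (by omega))

theorem Univ_lead {e : ι → LT ι R} (h0 : ∀ i j, (e i j).Ge 0)
    (h1 : ∀ i j, (e i j).cf 0 = if i = j then 1 else 0) {q : LT ι R} {a : ℤ}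
    (hq : ∀ c, (q c).Ge a) (j : ι) : (∑ c, q c * e c j).cf a = (q j).cf a := by
  have : ∀ c, (q c * e c j).cf a = (q c).cf a * if c = j then 1 else 0 := fun c => by
    rw [← h1, ← LS.cf_mul_lead (hq c) (h0 c j), add_zero]
  simp [LS.cf_sum, this]

theorem Univ_ge {e : ι → LT ι R} (h0 : ∀ i j, (e i j).Ge 0)
    (h1 : ∀ i j, (e i j).cf 0 = if i = j then 1 else 0) {q : LT ι R}
    (hq : ∀ j, (∑ c, q c * e c j).Ge 0) : ∀ c, (q c).Ge 0 := by
  obtain ⟨N, hN⟩ := exists_pole q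
  induction N with
  | zero => simpa [Pole] using hN
  | succ N ih =>
    refine ih fun c m hm => ?_
    by_cases e' : m = -((N + 1 : ℕ) : ℤ)
    · rw [e', ← Univ_lead h0 h1 hN c]
      exact hq c _ (by omega)
    · exact hN c m (by omega)

theorem Univ_hensel {R₀ : Subring R} {e : ι → LT ι R} (h0 : ∀ i j, (e i j).Ge 0)
    (h1 : ∀ i j, (e i j).cf 0 = if i = j then 1 else 0)
    (h2 : ∀ (n : ℤ) (i l : ι), ∃ q : LT ι R, (∀ c, q c ∈ Univ_L R₀) ∧
      ∀ j, (e i j * e l j - ∑ c, q c * e c j).Ge n) (i j : ι) : e i j ∈ Univ_L R₀ := by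
  have key : ∀ N : ℕ, ∀ m : ℤ, m ≤ N → ∀ i j, (e i j).cf m ∈ R₀ := by
    intro N
    induction N with
    | zero =>
      intro m hm i j
      rcases lt_or_eq_of_le hm with h | h
      · rw [h0 i j m h]
        exact zero_mem _
      · rw [h, Nat.cast_zero, h1]
        split_ifs
        exacts [one_mem _, zero_mem _]
    | succ N ih =>
      intro n hn l i
      rcases lt_or_eq_of_le hn with h | h
      · exact ih n (by omega) l i
      have hn0 : 0 < n := by omega
      have ih' : ∀ a b m, m < n → (e a b).cf m ∈ R₀ := fun a b m hm => ih m (by omega) a b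
      obtain ⟨q, hq, hq'⟩ := h2 (n + 1) i l
      have a1 : ∀ j m, m ≤ n → (e i j * e l j).cf m = (∑ c, q c * e c j).cf m := fun j m hm => by
        rw [← sub_eq_zero, ← LS.cf_sub]
        exact hq' j m (by omega)
      have a2 : ∀ c, (q c).Ge 0 := Univ_ge h0 h1 fun j m hm => by
        rw [← a1 j m (by omega)]
        exact (h0 i j).mul (h0 l j) m (by omega)
      have a3 : ∀ c, (q c).cf 0 = (if i = c then 1 else 0) * if l = c then 1 else 0 := fun c => by
        rw [← Univ_lead h0 h1 a2 c, ← a1 c 0 hn0.le, ← h1, ← h1,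
          ← LS.cf_mul_lead (h0 i c) (h0 l c), add_zero]
      have a4 := Univ_conv (h0 i i) (h0 l i) hn0 (ih' i i) (ih' l i)
      have a5 : ∑ c, ((q c * e c i).cf n - (q c).cf 0 * (e c i).cf n) ∈ R₀ :=
        sum_mem fun c _ => by
          have b1 := Univ_conv (a2 c) (h0 c i) hn0 (fun m _ => hq c m) (ih' c i)
          have b2 := add_mem b1 (mul_mem (hq c n) (ih' c i 0 hn0))
          convert b2 using 1
          ring
      rw [Finset.sum_sub_distrib, ← LS.cf_sum, ← a1 i n le_rfl] at a5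
      have a6 : ∑ c, (q c).cf 0 * (e c i).cf n = (e i i).cf n * (e l i).cf 0 := by
        simp only [a3, h1, ite_mul, one_mul, zero_mul, Finset.sum_ite_eq, Finset.mem_univ,
          if_true, mul_ite, mul_one, mul_zero]
        by_cases hil : i = l
        · rw [hil]
        · rw [if_neg hil, if_neg (Ne.symm hil)]
      have a7 := sub_mem a5 a4
      rw [a6, h1 i i, if_pos rfl] at a7
      convert a7 using 1
      ring
  exact fun n => key n.toNat n (by omega) i j

/-- Elements approximated to order `n` by combinations of the `η c`. -/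
def Univ_Ap (R₀ : Subring R) (η : ι → LT ι R) (n : ℤ) : AddSubgroup (LT ι R) where
  carrier := {F | ∃ q : LT ι R, (∀ c, q c ∈ Univ_L R₀) ∧ ∀ j, (F j - ∑ c, q c * η c j).Ge n}
  add_mem' := by
    rintro F G ⟨q, h1, h2⟩ ⟨q', h3, h4⟩
    refine ⟨q + q', fun c => add_mem (h1 c) (h3 c), fun j => ?_⟩
    convert (h2 j).add (h4 j) using 1
    simp only [Pi.add_apply, add_mul, Finset.sum_add_distrib]
    ring
  zero_mem' := ⟨0, fun _ => zero_mem _, fun j m _ => by simp⟩
  neg_mem' := by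
    rintro F ⟨q, h1, h2⟩
    refine ⟨-q, fun c => neg_mem (h1 c), fun j => ?_⟩
    convert (h2 j).neg using 1
    simp only [Pi.neg_apply, neg_mul, Finset.sum_neg_distrib]
    ring

omit [DecidableEq ι] in
theorem Univ_Ap_smul {R₀ : Subring R} {η : ι → LT ι R} {n : ℤ} {r : R} (hr : r ∈ R₀) {F : LT ι R}
    (hF : F ∈ Univ_Ap R₀ η n) : r • F ∈ Univ_Ap R₀ η n := by
  obtain ⟨q, h1, h2⟩ := hF
  refine ⟨r • q, fun c => Univ_smul_mem hr (h1 c), fun j => ?_⟩
  convert (h2 j).smul r using 1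
  simp only [Pi.smul_apply, smul_sub, Finset.smul_sum, smul_mul_assoc]

omit [DecidableEq ι] in
theorem Univ_Ap_T {R₀ : Subring R} {η : ι → LT ι R} {n : ℤ} (m : ℤ) {F : LT ι R}
    (hF : F ∈ Univ_Ap R₀ η n) : (fun j => LS.T R m * F j) ∈ Univ_Ap R₀ η (m + n) := by
  obtain ⟨q, h1, h2⟩ := hF
  refine ⟨fun c => LS.T R m * q c, fun c => mul_mem (Univ_T_mem R₀ m) (h1 c), fun j => ?_⟩
  convert (LS.ge_T m).mul (h2 j) using 1
  simp only [mul_sub, Finset.mul_sum, mul_assoc]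

theorem Univ_Ap_eta (R₀ : Subring R) (η : ι → LT ι R) (n : ℤ) (i : ι) : η i ∈ Univ_Ap R₀ η n := by
  refine ⟨Pi.single i 1, fun c => ?_, fun j m _ => ?_⟩
  · rw [Pi.single_apply]
    split_ifs
    exacts [one_mem _, zero_mem _]
  · simp [Pi.single_apply]

omit [DecidableEq ι] in
theorem Univ_Ap_pole (R₀ : Subring R) (η : ι → LT ι R) {n : ℤ} {F : LT ι R} (h : Pole F n) :
    F ∈ Univ_Ap R₀ η (-n) := ⟨0, fun _ => zero_mem _, fun j => by simpa using h j⟩

/-- The expansion constants lie in the subring. -/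
def Univ_Cst (i₀ : ι) (J : Finset (ι × ℕ)) (R₀ : Subring R) (F : LT ι R) : Prop :=
  (F i₀).cf 0 ∈ R₀ ∧ ∀ μ, μ ∉ J → pc F μ ∈ R₀

theorem IsChart.Univ_mem {A : Subalgebra R (LT ι R)} (h : IsChart J A) {R₀ : Subring R}
    {S : AddSubgroup (LT ι R)} (hS : ∀ r ∈ R₀, ∀ F ∈ S, r • F ∈ S) (h1 : 1 ∈ S) {n : ℕ}
    (h2 : ∀ μ : ι × ℕ, μ.2 < n → chi i₀ J A μ ∈ S) {F : LT ι R} (hF : F ∈ A) (hn : Pole F n)
    (hc : Univ_Cst i₀ J R₀ F) : F ∈ S := by
  rw [h.Univ_eq i₀ hF hn, Univ_dec, Algebra.algebraMap_eq_smul_one]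
  refine add_mem (hS _ hc.1 _ h1) (sum_mem fun μ hμ => ?_)
  by_cases hJ : μ ∈ J
  · rw [chi, if_pos hJ, smul_zero]
    exact zero_mem _
  · exact hS _ (hc.2 μ hJ) _ (h2 μ (Finset.mem_range.1 (Finset.mem_product.1 hμ).2))

omit [Fintype ι] [DecidableEq ι] in
theorem Univ_pc_x (F : LT ι R) (j : ι) (m : ℕ) : pc (xx ι R * F) (j, m + 1) = pc F (j, m) := by
  unfold pc
  rw [Pi.mul_apply, xx, LS.cf_T_mul]
  congr 1

theorem IsChart.Univ_up {A : Subalgebra R (LT ι R)} (h : IsChart J A) {R₀ : Subring R}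
    {S : AddSubgroup (LT ι R)} (hS : ∀ r ∈ R₀, ∀ F ∈ S, r • F ∈ S) (h1 : 1 ∈ S)
    (hx : ∀ F ∈ S, xx ι R * F ∈ S) {M : ℕ} (hJ : ∀ ν ∈ J, ν.2 < M)
    (h2 : ∀ μ : ι × ℕ, μ.2 ≤ M → chi i₀ J A μ ∈ S) (N : ℕ)
    (h3 : ∀ μ : ι × ℕ, μ.2 < N → chi i₀ J A μ ∈ S → Univ_Cst i₀ J R₀ (xx ι R * chi i₀ J A μ)) :
    ∀ μ : ι × ℕ, μ.2 ≤ N → chi i₀ J A μ ∈ S := by
  induction N with
  | zero => exact fun μ hμ => h2 μ (by omega)
  | succ n ih =>
    have ih' := ih fun μ hμ => h3 μ (by omega)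
    rintro ⟨i, m⟩ hm
    by_cases a1 : m ≤ n
    · exact ih' _ a1
    by_cases a2 : m ≤ M
    · exact h2 _ a2
    obtain rfl : m = n + 1 := by simp only at hm; omega
    have hnJ : ∀ (j : ι) (l : ℕ), n ≤ l → (j, l) ∉ J := fun j l hl hj => by
      have := hJ _ hj
      simp only at this
      omega
    have b1 := ih' (i, n) le_rfl
    have b2 := h3 (i, n) (Nat.lt_succ_self n) b1
    have b3 : xx ι R * chi i₀ J A (i, n) - chi i₀ J A (i, n + 1) ∈ S := by
      refine h.Univ_mem hS h1 (n := n + 1) (fun μ hμ => ih' μ (by omega))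
        (sub_mem (mul_mem h.x_mem (h.chi_mem i₀ _)) (h.chi_mem i₀ _)) (pole_iff.2 ?_) ⟨?_, ?_⟩
      · rintro ⟨j, l⟩ hl
        obtain ⟨l, rfl⟩ : ∃ l', l = l' + 1 := ⟨l - 1, by simp only at hl; omega⟩
        have hl' : n ≤ l := by simp only at hl; omega
        rw [Univ_pc_sub, Univ_pc_x, h.pc_chi i₀ (hnJ i n le_rfl) (hnJ j l hl'),
          h.pc_chi i₀ (hnJ i _ (by omega)) (hnJ j _ (by omega))]
        simp
      · rw [Pi.sub_apply, LS.cf_sub, h.chi_cf, sub_zero]
        exact b2.1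
      · intro μ hμ
        rw [Univ_pc_sub, h.pc_chi i₀ (hnJ i _ (by omega)) hμ]
        refine sub_mem (b2.2 μ hμ) ?_
        split_ifs
        exacts [one_mem _, zero_mem _]
    simpa using sub_mem (hx _ b1) b3

theorem IsChart.Univ_core {A : Subalgebra R (LT ι R)} (h : IsChart J A) {R₀ : Subring R} {M : ℕ}
    (hJ : ∀ ν ∈ J, ν.2 < M)
    (h1 : ∀ μ : ι × ℕ, μ.2 < 2 * M + 2 → Univ_Cst i₀ J R₀ (xx ι R * chi i₀ J A μ))
    (h2 : ∀ i l, Univ_Cst i₀ J R₀ (chi i₀ J A (i, M) * chi i₀ J A (l, M))) (a : Idx ι) :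
    coef i₀ J A a ∈ R₀ := by
  set η : ι → LT ι R := fun i => chi i₀ J A (i, M) with hη
  have tx : ∀ F : LT ι R, (fun j => LS.T R 1 * (xx ι R * F) j) = F := fun F => funext fun j => by
    rw [Pi.mul_apply, xx, ← mul_assoc, ← LS.T_add, add_neg_cancel, LS.T_zero, one_mul]
  have s1 : ∀ n : ℕ, 1 ∈ Univ_Ap R₀ η (n - M) ∧
      ∀ μ : ι × ℕ, μ.2 < M → chi i₀ J A μ ∈ Univ_Ap R₀ η (n - M) := by
    intro n
    induction n with
    | zero =>
      rw [Nat.cast_zero, zero_sub]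
      exact ⟨Univ_Ap_pole _ _ (Univ_pole_mono Univ_pole_one (by omega)),
        fun μ hμ => Univ_Ap_pole _ _ (h.pole_chi i₀ hμ hJ)⟩
    | succ n ih =>
      have key : ∀ F ∈ A, Pole F M → Univ_Cst i₀ J R₀ (xx ι R * F) →
          F ∈ Univ_Ap R₀ η ((n + 1 : ℕ) - M) := by
        intro F hF hp hc
        have a1 : xx ι R * F ∈ Univ_Ap R₀ η (n - M) := by
          refine h.Univ_mem (fun r hr G hG => Univ_Ap_smul hr hG) ih.1 (n := M + 1) ?_
            (mul_mem h.x_mem hF) (Univ_pole_mono (Univ_pole_mul Univ_pole_xx hp) (by omega)) hc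
          rintro ⟨i, m⟩ hm
          by_cases a2 : m < M
          · exact ih.2 _ a2
          · obtain rfl : m = M := by simp only at hm; omega
            exact Univ_Ap_eta R₀ η _ i
        have a2 := Univ_Ap_T 1 a1
        rw [tx] at a2
        convert a2 using 2
        push_cast
        ring
      refine ⟨key 1 (one_mem _) (Univ_pole_mono Univ_pole_one (by omega)) ?_,
        fun μ hμ => key _ (h.chi_mem i₀ μ) (h.pole_chi i₀ hμ hJ) (h1 μ (by omega))⟩
      rw [mul_one]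
      exact ⟨Univ_T_mem R₀ _ _, fun μ _ => Univ_T_mem R₀ _ _⟩
  have mono : ∀ {F : LT ι R} {n m : ℤ}, F ∈ Univ_Ap R₀ η n → m ≤ n → F ∈ Univ_Ap R₀ η m :=
    fun ⟨q, a1, a2⟩ hm => ⟨q, a1, fun j => (a2 j).mono hm⟩
  set S : AddSubgroup (LT ι R) := ⨅ n, Univ_Ap R₀ η n with hS
  have mS : ∀ {F : LT ι R}, F ∈ S ↔ ∀ n, F ∈ Univ_Ap R₀ η n := AddSubgroup.mem_iInf
  have sm : ∀ r ∈ R₀, ∀ F ∈ S, r • F ∈ S :=
    fun r hr F hF => mS.2 fun n => Univ_Ap_smul hr (mS.1 hF n)
  have s2 : 1 ∈ S := mS.2 fun n => mono (s1 (n + M).toNat).1 (by omega)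
  have s3 : ∀ μ : ι × ℕ, μ.2 ≤ M → chi i₀ J A μ ∈ S := by
    rintro ⟨i, m⟩ hm
    refine mS.2 fun n => ?_
    by_cases a2 : m < M
    · exact mono ((s1 (n + M).toNat).2 _ a2) (by omega)
    · obtain rfl : m = M := by simp only at hm; omega
      exact Univ_Ap_eta R₀ η _ i
  have s4 := h.Univ_up sm s2
    (fun F hF => mS.2 fun n => mono (Univ_Ap_T (-1) (mS.1 hF (n + 1))) (by omega)) hJ s3
    (2 * M + 2) fun μ hμ _ => h1 μ hμ
  have pη : ∀ i, Pole (η i) ((M + 1 : ℕ) : ℤ) := fun i =>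
    h.pole_chi i₀ (Nat.lt_succ_self M) fun ν hν => (hJ ν hν).trans (Nat.lt_succ_self M)
  have s5 : ∀ i l, η i * η l ∈ S := fun i l =>
    h.Univ_mem sm s2 (n := 2 * M + 2) (fun μ hμ => s4 μ hμ.le)
      (mul_mem (h.chi_mem i₀ _) (h.chi_mem i₀ _))
      (Univ_pole_mono (Univ_pole_mul (pη i) (pη l)) (by omega)) (h2 i l)
  have hMJ : ∀ j : ι, (j, M) ∉ J := fun j hj => lt_irrefl _ (hJ _ hj)
  have s6 := Univ_hensel (R₀ := R₀) (e := fun i j => LS.T R (M + 1) * η i j)
    (fun i j => ((LS.ge_T _).mul (pη i j)).mono (by omega))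
    (fun i j => by
      have := h.pc_chi i₀ (hMJ i) (hMJ j)
      rw [LS.cf_T_mul, zero_sub]
      refine Eq.trans this ?_
      simp only [Prod.mk.injEq, and_true, eq_comm])
    (fun n i l => by
      obtain ⟨q, a1, a2⟩ := mS.1 (s5 i l) (n - (M + 1) - (M + 1))
      refine ⟨fun c => LS.T R (M + 1) * q c, fun c => mul_mem (Univ_T_mem R₀ _) (a1 c),
        fun j => ?_⟩
      have a3 := ((LS.ge_T (R := R) (M + 1)).mul ((LS.ge_T (R := R) (M + 1)).mul (a2 j))).mono
        (m := n) (by omega)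
      convert a3 using 1
      simp only [Pi.mul_apply, mul_sub, Finset.mul_sum]
      congr 1
      · ring
      · exact Finset.sum_congr rfl fun c _ => by ring)
  have s7 : ∀ i j, η i j ∈ Univ_L R₀ := fun i j n => by
    have := s6 i j (n + (M + 1))
    rwa [LS.cf_T_mul, add_sub_cancel_right] at this
  have s8 : ∀ F ∈ S, F ∈ AddSubgroup.pi Set.univ fun _ => (Univ_L R₀).toAddSubgroup := by
    intro F hF j _ n
    obtain ⟨q, a1, a2⟩ := mS.1 hF (n + 1)
    have a3 := a2 j n (by omega)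
    rw [LS.cf_sub, sub_eq_zero] at a3
    rw [a3]
    exact (sum_mem fun c _ => mul_mem (a1 c) (s7 c j) : _ ∈ Univ_L R₀) n
  exact h.Univ_up (S := AddSubgroup.pi Set.univ fun _ => (Univ_L R₀).toAddSubgroup)
    (fun r hr F hF j hj => Univ_smul_mem hr (hF j hj)) (s8 _ s2)
    (fun F hF j hj => (mul_mem (Univ_T_mem R₀ _) (hF j hj) : _ ∈ Univ_L R₀)) hJ
    (fun μ hμ => s8 _ (s3 μ hμ)) a.1.2
    (fun μ _ hF => ⟨(mul_mem (Univ_T_mem R₀ _) (hF _ trivial) : _ ∈ Univ_L R₀) _,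
      fun ν _ => (mul_mem (Univ_T_mem R₀ _) (hF _ trivial) : _ ∈ Univ_L R₀) _⟩)
    a.1 le_rfl a.2.1 trivial a.2.2

theorem fgi_cI (k : Type u) [Field k] (i₀ : ι) (J : Finset (ι × ℕ)) : FGI (cI k i₀ J) := by
  classical
  set π := Ideal.Quotient.mkₐ k (cI k i₀ J) with hπ
  obtain ⟨A, hA, hc⟩ := exists_chart (k := k) (i₀ := i₀) (J := J) (c := fun a => π (X a))
    fun f hf => by
      rw [← MvPolynomial.comp_aeval_apply, aeval_X_left_apply]
      exact Ideal.Quotient.eq_zero_iff_mem.2 hf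
  let R₀ : Finset (Idx ι) → Subring (MvPolynomial (Idx ι) k ⧸ cI k i₀ J) := fun s =>
    ((Algebra.adjoin k ((X : Idx ι → MvPolynomial (Idx ι) k) '' s)).map π).toSubring
  have e1 : ∀ r, ∀ᶠ s in Filter.atTop, r ∈ R₀ s := by
    intro r
    obtain ⟨f, rfl⟩ := Ideal.Quotient.mkₐ_surjective k (cI k i₀ J) r
    filter_upwards [Filter.eventually_ge_atTop f.vars] with s hs
    exact ⟨f, (mem_supported (s := (s : Set (Idx ι)))).2 (Finset.coe_subset.2 hs), rfl⟩
  have e2 : ∀ F, ∀ᶠ s in Filter.atTop, Univ_Cst i₀ J (R₀ s) F := by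
    intro F
    filter_upwards [e1 ((F i₀).cf 0),
      (Filter.eventually_all_finite (finite_pc F)).2 fun μ _ => e1 (pc F μ)] with s h1 h2
    refine ⟨h1, fun μ _ => ?_⟩
    by_cases hμ : pc F μ = 0
    · rw [hμ]
      exact zero_mem _
    · exact h2 μ hμ
  obtain ⟨s, h1, h2⟩ := (((Filter.eventually_all_finset
    (Finset.univ ×ˢ Finset.range (2 * (J.sup Prod.snd + 1) + 2))).2
      fun μ _ => e2 (xx ι _ * chi i₀ J A μ)).and
    (Filter.eventually_all.2 fun i => Filter.eventually_all.2 fun l =>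
      e2 (chi i₀ J A (i, J.sup Prod.snd + 1) * chi i₀ J A (l, J.sup Prod.snd + 1)))).exists
  refine ⟨s, fun a => ?_⟩
  have h3 := hA.Univ_core (fun ν hν => Nat.lt_succ_of_le (Finset.le_sup (f := Prod.snd) hν))
    (fun μ hμ => h1 μ (Finset.mem_product.2 ⟨Finset.mem_univ _, Finset.mem_range.2 hμ⟩)) h2 a
  rw [hc] at h3
  obtain ⟨f, hf, e⟩ := h3
  exact ⟨f, hf, Ideal.Quotient.eq.1 e.symm⟩
theorem IsChart.fg {A : Subalgebra R (LT ι R)} (h : IsChart J A) (i₀ : ι) :
    FG k (coef i₀ J A) := (fgi_cI k i₀ J).fg (h.on i₀)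

/-- Realising a specialisation of chart points by a chart point over a subring: if the
coordinates lie in the image of an injective map, the chart point descends. -/
theorem IsChart.descend {R₀ : Type u} [CommRing R₀] [Algebra k R₀] {A : Subalgebra R (LT ι R)}
    (h : IsChart J A) (φ : R₀ →ₐ[k] R) (hφ : Function.Injective φ) {c : Idx ι → R₀}
    (hc : ∀ a, φ (c a) = coef i₀ J A a) :
    ∃ A₀ : Subalgebra R₀ (LT ι R₀), IsChart J A₀ ∧ coef i₀ J A₀ = c ∧
      PR0.bc (φ : R₀ →+* R) A₀ = A :=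
  by
  obtain ⟨A₀, h0, e⟩ := exists_chart (k := k) (i₀ := i₀) (J := J) (c := c) fun f hf => hφ (by
    rw [MvPolynomial.comp_aeval_apply, funext hc, map_zero]
    exact h.on i₀ f hf)
  refine ⟨A₀, h0, e, (h0.bc _).eq_of_coef i₀ h ?_⟩
  rw [h0.coef_bc, e]
  exact funext hc

end PR0
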