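import Pool.Agent.Work.MP_da2620_ag.RR
import Pool.Agent.Work.MP_da2620_ag.Univ
import Pool.Agent.Work.MP_da2620_ag.CDB
import Pool.Agent.Work.MP_da2620_ag.CDC

/-!
# Charts of smooth curves

`exists_ex`: expand in the uniformiser `t = 1/x`: for `f ∈ P` put `f = c₀ + t f₁`, `f₁ = c₁ + t f₂`, ...
`exists_der`: `L` is separable over `K(x)` (there is a place where `x` has order prime to `p`; else
`x` is a `p`-th power in the perfect closure argument: `L ^ p` contains the separable closure), so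
`d / dx` extends uniquely; `ex i ∘ D` and `dx ∘ ex i` are derivations `L → LS K` agreeing on `x`.
`exists_cd_of_sm`: `L` is the fraction field of `A`; the projections `A → LS K` are injective since
`A` is a domain integral over `K[x]` and the kernel meets `K[x]` trivially; `pl i` is the comap of
`vr`; distinct `i` give distinct places since `χ (i, n)` (large `n`) has its worst pole only at `i`;
a place not containing `x` and different from all `pl i` is impossible by counting degrees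
(`finrank_lev` gives `[L : K(x)] = card ι`, and `dg_dvInf`); `A = regOut` by `mem_regOut_poles`.
-/

namespace PR0

universe u

/-- A function with simple poles, with its expansions at the poles. -/
structure CD (K L : Type u) [Field K] [Field L] [Algebra K L] (ι : Type) where
  x : L
  ex : ι → L →ₐ[K] LS K
  pl : ι → Place K L
  ex_x : ∀ i, ex i x = LS.T K (-1)
  mem_pl : ∀ i f, f ∈ (pl i).1 ↔ (ex i f).Ge 0
  inj : Function.Injective pl
  pole : ∀ P : Place K L, x ∉ P.1 → ∃ i, P = pl i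

/-- Smooth chart points. -/
def Sm {K : Type u} [Field K] {ι : Type} (A : Subalgebra K (LT ι K)) : Prop :=
  ∃ _ : IsDomain A, IsIntegrallyClosed A

variable {K L : Type u} [Field K] [Field L] [Algebra K L] {ι : Type}

namespace CD

variable (d : CD K L ι)

/-- All expansions. -/
noncomputable def exT : L →ₐ[K] LT ι K := Pi.algHom K _ d.ex
/-- The affine ring. -/
def reg : Subalgebra K L := regOut (Set.range d.pl)
/-- The chart point. -/
noncomputable def alg : Subalgebra K (LT ι K) := d.reg.map d.exT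
/-- The divisor at infinity. -/
noncomputable def inf [Fintype ι] : Dv K L := ∑ i, Finsupp.single (d.pl i) 1
/-- Reindexing. -/
def comp {ι' : Type} (e : ι' ≃ ι) : CD K L ι' where
  x := d.x
  ex i := d.ex (e i)
  pl i := d.pl (e i)
  ex_x _ := d.ex_x _
  mem_pl _ := d.mem_pl _
  inj := d.inj.comp e.injective
  pole P h := (d.pole P h).elim fun i hi => ⟨e.symm i, by simpa using hi⟩

theorem exT_apply (f : L) (i : ι) : d.exT f i = d.ex i f := rfl
theorem exT_x : d.exT d.x = xx ι K := funext d.ex_x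

variable [IsAlgClosed K] [hL : Fact (IsFF K L)] [Fintype ι] [DecidableEq ι]
include hL

theorem ge_iff (i : ι) (f : L) (n : ℤ) : (d.pl i).Ge f n ↔ (d.ex i f).Ge n := by
  exact CDA_ge_iff _ _ (d.ex_x i) (d.mem_pl i) f n
theorem val_eq (i : ι) {f : L} (h : f ∈ (d.pl i).1) : (d.pl i).val f = (d.ex i f).cf 0 := by
  refine Place.val_eq ((d.ge_iff i _ _).2 fun m hm => ?_)
  rw [map_sub, AlgHom.commutes, LS.cf_sub, LS.cf_algebraMap]
  split_ifs with e
  · rw [e, sub_self]
  · rw [(d.mem_pl i f).1 h m (by omega), sub_zero]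
theorem ord_x (i : ι) : (d.pl i).ord d.x = -1 := by
  exact (CDA_ord_x _ _ (d.ex_x i) (d.mem_pl i)).2
theorem CD_x_notMem (i : ι) : d.x ∉ (d.pl i).1 := fun h =>
  CDA_not_ge_T (K := K) (show (-1 : ℤ) < 0 by omega) (d.ex_x i ▸ (d.mem_pl i _).1 h)
theorem poles_eq : poles K d.x = Set.range d.pl := by
  ext P
  constructor
  · intro h
    obtain ⟨i, hi⟩ := d.pole P h
    exact ⟨i, hi.symm⟩
  · rintro ⟨i, rfl⟩
    exact d.CD_x_notMem i
theorem x_mem : d.x ∈ d.reg := by
  intro P hP
  by_contra h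
  obtain ⟨i, hi⟩ := d.pole P h
  exact hP ⟨i, hi.symm⟩
theorem transcendental [Nonempty ι] : Transcendental K d.x := by
  rw [transcendental_iff]
  rintro ⟨c, hc⟩
  exact d.CD_x_notMem (Classical.arbitrary ι) (hc ▸ (d.pl _).2.2 c)
theorem exT_injective [Nonempty ι] : Function.Injective d.exT := by
  intro f g h
  exact (d.ex (Classical.arbitrary ι)).injective (congrFun h _)
theorem CD_inf_pl (i : ι) : d.inf (d.pl i) = 1 := by
  rw [inf, Finset.sum_apply', Finset.sum_eq_single i, Finsupp.single_eq_same]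
  · exact fun j _ hj => Finsupp.single_eq_of_ne fun h => hj (d.inj h).symm
  · simp
theorem CD_inf_not {P : Place K L} (h : P ∉ Set.range d.pl) : d.inf P = 0 := by
  rw [inf, Finset.sum_apply']
  exact Finset.sum_eq_zero fun j _ => Finsupp.single_eq_of_ne fun e => h ⟨j, e.symm⟩
theorem CD_dg_inf : dg d.inf = Fintype.card ι := by
  simp [inf, dg_sum, dg_single]
theorem dvInf_x [Nonempty ι] : dvInf K d.x = d.inf := by
  have hx := (CDA_ord_x _ _ (d.ex_x (Classical.arbitrary ι)) (d.mem_pl _)).1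
  ext P
  rw [dvInf_apply hx]
  by_cases h : P ∈ Set.range d.pl
  · obtain ⟨i, rfl⟩ := h
    rw [d.CD_inf_pl, d.ord_x]
    rfl
  · have := (CDA_ge_iff_le P hx).1 (P.mem_iff.1 (d.x_mem P h))
    rw [d.CD_inf_not h]
    omega
theorem finrank_eq [Nonempty ι] :
    Module.finrank (IntermediateField.adjoin K {d.x}) L = Fintype.card ι := by
  have := dg_dvInf d.transcendental
  rw [d.dvInf_x, d.CD_dg_inf] at this
  exact_mod_cast this.symm
theorem mem_Lsp {f : L} {n : ℤ} : f ∈ Lsp (n • d.inf) ↔ f ∈ d.reg ∧ Pole (d.exT f) n := by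
  constructor
  · intro h
    refine ⟨fun P hP => P.mem_iff.2 ?_, fun i => (d.ge_iff i _ _).1 ?_⟩
    · simpa [d.CD_inf_not hP] using h P
    · simpa [d.CD_inf_pl] using h (d.pl i)
  · rintro ⟨h1, h2⟩ P
    by_cases h : P ∈ Set.range d.pl
    · obtain ⟨i, rfl⟩ := h
      simpa [d.CD_inf_pl] using (d.ge_iff i _ _).2 (h2 i)
    · simpa [d.CD_inf_not h] using P.mem_iff.1 (h1 P h)
theorem ex_unique {d' : CD K L ι} (hx : d.x = d'.x) (hp : d.pl = d'.pl) : d.ex = d'.ex := by
  funext i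
  refine AlgHom.ext fun f => sub_eq_zero.1 (LS.eq_zero_of_ge fun n => ?_)
  obtain ⟨s, hs⟩ := CDA_trunc (d.ex i f) n
  have h1 := hs
  rw [← CDA_map_trunc _ (d.ex_x i), ← map_sub, ← d.ge_iff, hp, d'.ge_iff, map_sub, hx,
    CDA_map_trunc _ (d'.ex_x i)] at h1
  have := CDA_ge_sub hs h1
  rwa [sub_sub_sub_cancel_right] at this
theorem dense (F : LT ι K) (n : ℤ) : ∃ f : L, ∀ i, (F i - d.ex i f).Ge n := by
  have h1 : ∀ i, ∃ g : L, (F i - d.ex i g).Ge n := fun i => by
    obtain ⟨s, hs⟩ := CDA_trunc (F i) n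
    exact ⟨_, by rwa [CDA_map_trunc _ (d.ex_x i)]⟩
  choose g hg using h1
  obtain ⟨f, hf⟩ := weak_approx (Set.finite_range d.pl) (Function.extend d.pl g 0) fun _ => n
  refine ⟨f, fun i => ?_⟩
  have h2 := hf _ ⟨i, rfl⟩
  rw [d.inj.extend_apply, d.ge_iff, map_sub] at h2
  have := CDA_ge_sub (hg i) h2
  convert this using 1
  ring
theorem approx [Nonempty ι] {n : ℤ} (h : H1z (n • d.inf)) (F : LT ι K) :
    ∃ a ∈ d.reg, Pole (F - d.exT a) n := by
  obtain ⟨f, hf⟩ := d.dense F (-n)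
  obtain ⟨g, hg⟩ := h ((Set.range d.pl).indicator fun _ => f)
    ((Set.finite_range d.pl).subset fun P hP => by
      by_contra hc
      exact hP (by rw [Set.indicator_of_notMem hc]; exact zero_mem _))
  refine ⟨g, fun P hP => P.mem_iff.2 ?_, fun i => ?_⟩
  · simpa [d.CD_inf_not hP, Set.indicator_of_notMem hP] using hg P
  · have h1 := hg (d.pl i)
    rw [Set.indicator_of_mem (Set.mem_range_self i), Finsupp.smul_apply, d.CD_inf_pl, smul_eq_mul,
      mul_one, d.ge_iff, map_sub] at h1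
    have := CDA_ge_sub (hf i) h1
    rw [Pi.sub_apply, exT_apply]
    convert this using 1
    ring
theorem CD_h1z {n : ℕ} (h : 2 * genus K L ≤ n * Fintype.card ι) : H1z ((n : ℤ) • d.inf) := by
  refine h1z_of_deg ?_
  rw [dg_smul, d.CD_dg_inf]
  exact_mod_cast h
theorem CD_chart [Nonempty ι] {n : ℕ} (h : 2 * genus K L ≤ n * Fintype.card ι) :
    ∃ J : Finset (ι × ℕ), (∀ ν ∈ J, ν.2 < n) ∧ IsChart J d.alg := by
  refine exists_isChart (A := d.alg) ⟨d.x, d.x_mem, d.exT_x⟩ ?_ fun F => ?_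
  · rintro _ ⟨f, hf, rfl⟩ h0
    obtain ⟨c, rfl⟩ : ∃ c, f = algebraMap K L c := by
      refine const_of_regular fun P => ?_
      by_cases hP : P ∈ Set.range d.pl
      · obtain ⟨i, rfl⟩ := hP
        exact (d.mem_pl i f).2 (h0 i)
      · exact hf P hP
    exact ⟨c, d.exT.commutes c⟩
  · obtain ⟨a, ha, h1⟩ := d.approx (d.CD_h1z h) F
    exact ⟨_, ⟨a, ha, rfl⟩, h1⟩
theorem exists_chart [Nonempty ι] : ∃ J, IsChart J d.alg := by
  obtain ⟨J, -, h⟩ := d.CD_chart (n := 2 * genus K L)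
    (Nat.le_mul_of_pos_right _ Fintype.card_pos)
  exact ⟨J, h⟩
theorem exists_chart_simple [Nonempty ι] (h : 2 * genus K L ≤ Fintype.card ι) :
    ∃ J : Finset (ι × ℕ), (∀ ν ∈ J, ν.2 < 1) ∧ IsChart J d.alg := by
  exact d.CD_chart (by rwa [one_mul])
theorem card_eq [Nonempty ι] {J : Finset (ι × ℕ)} (h : IsChart J d.alg) : J.card = genus K L := by
  set n : ℕ := J.sup (fun ν => ν.2) + 1 + 2 * genus K L with hn
  have h1 := h.finrank_lev (n := n) fun ν hν => by
    have := Finset.le_sup (f := fun ν : ι × ℕ => ν.2) hν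
    omega
  have h2 : lev d.alg n = (Lsp ((n : ℤ) • d.inf)).map d.exT.toLinearMap := by
    ext F
    constructor
    · rintro ⟨⟨f, hf, rfl⟩, h3⟩
      exact ⟨f, d.mem_Lsp.2 ⟨hf, h3⟩, rfl⟩
    · rintro ⟨f, hf, rfl⟩
      exact ⟨⟨f, (d.mem_Lsp.1 hf).1, rfl⟩, (d.mem_Lsp.1 hf).2⟩
  have h3 := riemann ((n : ℤ) • d.inf)
  rw [(h1z_iff _).1 (d.CD_h1z ((show 2 * genus K L ≤ n by omega).trans
    (Nat.le_mul_of_pos_right _ Fintype.card_pos))), dg_smul, d.CD_dg_inf] at h3
  rw [h2, ← (Submodule.equivMapOfInjective d.exT.toLinearMap d.exT_injective _).finrank_eq] at h1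
  have h4 : ((ell ((n : ℤ) • d.inf) : ℕ) : ℤ) + J.card = n * Fintype.card ι + 1 := by
    exact_mod_cast h1
  omega
theorem hw0_iff [Nonempty ι] (p : ℕ) [Fact p.Prime] [CharP K p] :
    HW0 K L p ↔ ∀ F : LT ι K, ∃ n : ℕ, ∃ a ∈ d.alg, Pole (F ^ p ^ n - a) 0 := by
  rw [PR0.hw0_iff p (Set.finite_range d.pl) (Set.range_nonempty d.pl)]
  constructor
  · intro h F
    obtain ⟨f, hf⟩ := d.dense F 0
    obtain ⟨n, a, ha, h1⟩ := h f
    refine ⟨n, _, ⟨a, ha, rfl⟩, fun i => ?_⟩
    have h2 := (d.mem_pl i _).1 (h1 _ (not_not.2 (Set.mem_range_self i)))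
    have h3 := (hf i).pow (p ^ n)
    rw [mul_zero, sub_pow_char_pow] at h3
    have := h3.add h2
    rwa [map_sub, map_pow, sub_add_sub_cancel] at this
  · intro h f
    obtain ⟨n, _, ⟨a, ha, rfl⟩, h1⟩ := h (d.exT f)
    refine ⟨n, a, ha, fun P hP => ?_⟩
    obtain ⟨i, rfl⟩ := not_not.1 hP
    rw [d.mem_pl, map_sub, map_pow]
    exact h1 i
theorem CD_frac [Nonempty ι] (f : L) : ∃ a ∈ d.reg, ∃ b ∈ d.reg, f = a / b := by
  obtain ⟨s, hs, h⟩ := exists_den d.transcendental f
  rw [d.poles_eq] at h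
  refine ⟨_, h, Polynomial.aeval d.x s, Algebra.adjoin_le (Set.singleton_subset_iff.2 d.x_mem)
    (Polynomial.aeval_mem_adjoin_singleton K d.x), ?_⟩
  rw [mul_div_cancel_left₀ _ fun h0 => d.transcendental ⟨s, hs.ne_zero, h0⟩]
theorem sm [Nonempty ι] : Sm d.alg := by
  have e := (d.reg.equivMapOfInjective d.exT d.exT_injective).toRingEquiv
  refine ⟨e.symm.toMulEquiv.isDomain _, ?_⟩
  have : IsFractionRing d.reg L := IsFractionRing.of_field _ _ fun f => by
    obtain ⟨a, ha, b, hb, h⟩ := d.CD_frac f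
    exact ⟨⟨a, ha⟩, ⟨b, hb⟩, h⟩
  have : IsIntegrallyClosed d.reg := (isIntegrallyClosed_iff L).2 fun {f} hf => by
    refine ⟨⟨f, fun P hP => ?_⟩, rfl⟩
    obtain ⟨y, hy⟩ := IsIntegrallyClosed.isIntegral_iff.1 (hf.map_of_comp_eq
      (d.reg.val.toRingHom.codRestrict P.1 fun a => a.2 P hP) (RingHom.id L) rfl)
    exact (show (y : L) = f from hy) ▸ y.2
  exact IsIntegrallyClosed.of_equiv e
theorem isSeparable [Nonempty ι] : Algebra.IsSeparable (IntermediateField.adjoin K {d.x}) L := by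
  have := finiteDimensional_of_transcendental d.transcendental
  obtain ⟨p, hp⟩ := CharP.exists K
  rcases CharP.char_is_prime_or_zero K p with h | rfl
  · have := Fact.mk h
    exact CDB_sep p (d.ex (Classical.arbitrary ι)) (d.ex_x _)
  · have := CharP.charP_to_charZero K
    have : CharZero (IntermediateField.adjoin K {d.x}) := algebraRat.charZero _
    infer_instance
theorem exists_der [Nonempty ι] (p : ℕ) [Fact p.Prime] [CharP K p] : ∃ D : Derivation K L L,
    (∀ i f, d.ex i (D f) = LS.dx (d.ex i f)) ∧ D d.x = 1 ∧ ∀ f, D f = 0 → ∃ g, f = g ^ p := by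
  have := finiteDimensional_of_transcendental d.transcendental
  let e := d.ex (Classical.arbitrary ι)
  obtain ⟨D, h1, h2⟩ := CDB_der p e (d.ex_x _)
  have h3 := h1 e (d.ex_x _)
  have he : Function.Injective e := e.injective
  let D' : L →ₗ[K] L :=
    { toFun := D
      map_add' := fun f g => he (by simp only [h3, map_add])
      map_smul' := fun c f => he (by
        simp only [h3, map_smul, RingHom.id_apply, Derivation.map_smul]) }
  refine ⟨Derivation.mk' D' fun f g => he ?_, fun i f => h1 _ (d.ex_x i) f, he ?_, h2⟩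
  · show e (D (f * g)) = e (f * D g + g * D f)
    simp only [h3, map_add, map_mul, Derivation.leibniz, smul_eq_mul]
  · show e (D d.x) = e 1
    rw [h3, d.ex_x, LS.dx_T, map_one]

end CD

variable [IsAlgClosed K] [Fintype ι] [DecidableEq ι]

theorem exists_ex [Fact (IsFF K L)] (P : Place K L) {t : L} (ht : t ≠ 0) (h : P.ord t = 1) :
    ∃ e : L →ₐ[K] LS K, e t = LS.T K 1 ∧ ∀ f n, P.Ge f n ↔ (e f).Ge n := by
  exact CDA_exists_ex P ht h

theorem exists_cd [Fact (IsFF K L)] {x : L} {pl : ι → Place K L} (hi : Function.Injective pl)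
    (hx : ∀ i, x ≠ 0 ∧ (pl i).ord x = -1) (hp : ∀ P : Place K L, x ∉ P.1 → ∃ i, P = pl i) :
    ∃ d : CD K L ι, d.x = x ∧ d.pl = pl := by
  choose e h1 h2 using fun i => exists_ex (pl i) (inv_ne_zero (hx i).1)
    (by rw [(pl i).ord_inv (hx i).1, (hx i).2, neg_neg])
  refine ⟨⟨x, e, pl, fun i => ?_, fun i f => (pl i).mem_iff.trans (h2 i f 0), hi, hp⟩, rfl, rfl⟩
  rw [← CDA_T_inv, ← h1, map_inv₀, inv_inv]

theorem CD_avoid (pl : ι → Place K L) (W : Submodule K L) (hf : ∀ i, ∃ f ∈ W, f ∉ (pl i).1)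
    (x : L) : ∃ y ∈ W, ∀ i, x + y ∉ (pl i).1 := by
  have key : ∀ s : Finset ι, ∃ y ∈ W, ∀ i ∈ s, x + y ∉ (pl i).1 := by
    intro s
    induction s using Finset.induction_on with
    | empty => exact ⟨0, zero_mem _, fun _ h => absurd h (Finset.notMem_empty _)⟩
    | insert j s _ ih =>
      obtain ⟨y, hy, h1⟩ := ih
      obtain ⟨f, hfW, h2⟩ := hf j
      have hs : ∀ (P : Place K L) (c : K) (g : L), g ∈ P.1 → c • g ∈ P.1 := fun P c g h => by
        rw [Algebra.smul_def]
        exact mul_mem (P.2.2 c) h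
      have h3 : ∀ i ∈ insert j s, {c : K | x + (y + c • f) ∈ (pl i).1}.Subsingleton := by
        intro i hi c hc c' hc'
        by_contra hne
        have h4 : f ∈ (pl i).1 := by
          have := hs (pl i) (c - c')⁻¹ _ (sub_mem hc hc')
          rwa [add_sub_add_left_eq_sub, add_sub_add_left_eq_sub, ← sub_smul, smul_smul,
            inv_mul_cancel₀ (sub_ne_zero.2 hne), one_smul] at this
        rcases Finset.mem_insert.1 hi with rfl | hi
        · exact h2 h4
        · have := sub_mem hc (hs (pl i) c f h4)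
          rw [← add_assoc, add_sub_cancel_right] at this
          exact h1 i hi this
      obtain ⟨c, hc⟩ := ((insert j s).finite_toSet.biUnion
        fun i hi => (h3 i hi).finite).exists_notMem
      exact ⟨y + c • f, add_mem hy (W.smul_mem c hfW),
        fun i hi h => hc (Set.mem_biUnion hi h)⟩
  obtain ⟨y, hy, h⟩ := key Finset.univ
  exact ⟨y, hy, fun i => h i (Finset.mem_univ i)⟩

/-- Functions with many simple poles, away from a finite set `S`, with prescribed values on `S`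
and unramified on `S`. -/
theorem exists_cd_avoid [Fact (IsFF K L)] (S : Finset (Place K L)) (a : Place K L → K)
    (hn : 2 * genus K L + 2 * S.card + 1 ≤ Fintype.card ι) : ∃ d : CD K L ι, ∀ P ∈ S,
      d.x ∈ P.1 ∧ P.val d.x = a P ∧ ¬ P.Ge (d.x - algebraMap K L (a P)) 2 := by
  classical
  have := infinite_place (K := K) (L := L)
  obtain ⟨pl, hi, hS⟩ : ∃ pl : ι → Place K L, Function.Injective pl ∧ ∀ i, pl i ∉ S := by
    let e := S.finite_toSet.infinite_compl.natEmbedding
    exact ⟨fun i => e (Fintype.equivFin ι i), fun i j h =>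
      (Fintype.equivFin ι).injective (Fin.ext (e.injective (Subtype.ext h))), fun i => (e _).2⟩
  set D : Dv K L := ∑ i, Finsupp.single (pl i) 1 - ∑ P ∈ S, Finsupp.single P 2 with hD
  have hd : dg D = Fintype.card ι - 2 * S.card := by
    simp [hD, dg_sub, dg_sum, dg_single, mul_comm]
  have hn' : 2 * (genus K L : ℤ) + 2 * S.card + 1 ≤ Fintype.card ι := by exact_mod_cast hn
  have D1 : ∀ i, D (pl i) = 1 := fun i => by
    simp [hD, Finsupp.single_apply, hi.eq_iff, hS i]
  have D2 : ∀ P ∈ S, D P = -2 := fun P hP => by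
    have : ∀ i, pl i ≠ P := fun i h => hS i (h ▸ hP)
    simp [hD, Finsupp.single_apply, this, hP]
  have D3 : ∀ P, P ∉ S → (∀ i, pl i ≠ P) → D P = 0 := fun P hP h => by
    simp [hD, Finsupp.single_apply, h, hP]
  have hu : ∀ P : Place K L, P.Ge P.unif 1 := fun P => Or.inr P.ord_unif.ge
  obtain ⟨x₀, hx₀⟩ := h1z_of_deg (D := D) (by omega)
    (fun P => if P ∈ S then algebraMap K L (a P) + P.unif else 0)
    (S.finite_toSet.subset fun P hP => by
      by_contra hc
      exact hP (by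
        show (if P ∈ S then _ else _) ∈ _
        rw [if_neg (show P ∉ S from hc)]
        exact zero_mem _))
  have hf : ∀ i, ∃ f ∈ Lsp D, f ∉ (pl i).1 := fun i => by
    obtain ⟨f, h1, h2⟩ := exists_ord_eq (D := D) {pl i} (h1z_of_deg (by
      rw [dg_sub, Finset.sum_singleton, dg_single]
      omega))
    obtain ⟨h3, h4⟩ := h2 _ (Finset.mem_singleton_self _)
    refine ⟨f, h1, fun h => ?_⟩
    have := (CDA_ge_iff_le _ h3).1 ((pl i).mem_iff.1 h)
    rw [h4, D1] at this
    omega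
  obtain ⟨y, hy, hy'⟩ := CD_avoid pl (Lsp D) hf x₀
  have hx : ∀ P : Place K L, P.Ge (x₀ + y -
      if P ∈ S then algebraMap K L (a P) + P.unif else 0) (-D P) := fun P => by
    rw [add_sub_right_comm]
    exact (hx₀ P).add (hy P)
  have h5 : ∀ P ∈ S, P.Ge (x₀ + y - algebraMap K L (a P) - P.unif) 2 := fun P hP => by
    have := hx P
    rwa [if_pos hP, D2 P hP, neg_neg, ← sub_sub] at this
  have h6 : ∀ P ∈ S, P.Ge (x₀ + y - algebraMap K L (a P)) 1 := fun P hP => by
    have := ((h5 P hP).mono (m := 1) (by omega)).add (hu P)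
    rwa [sub_add_cancel] at this
  have h7 : ∀ P ∈ S, x₀ + y ∈ P.1 := fun P hP => by
    have := add_mem (P.mem_iff.2 ((h6 P hP).mono (by omega))) (P.2.2 (a P))
    rwa [sub_add_cancel] at this
  obtain ⟨d, h8, -⟩ := exists_cd (x := x₀ + y) hi (fun i => by
    have h0 : x₀ + y ≠ 0 := fun h => hy' i (h ▸ zero_mem _)
    have h1 := hx (pl i)
    rw [if_neg (hS i), sub_zero, D1, CDA_ge_iff_le _ h0] at h1
    have h2 := hy' i
    rw [(pl i).mem_iff, CDA_ge_iff_le _ h0] at h2
    exact ⟨h0, by omega⟩) fun P hP => by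
    by_contra hc
    by_cases hPS : P ∈ S
    · exact hP (h7 P hPS)
    · have h1 := hx P
      rw [if_neg hPS, sub_zero, D3 P hPS fun i h => hc ⟨i, h.symm⟩] at h1
      exact hP (P.mem_iff.2 h1)
  refine ⟨d, fun P hP => ?_⟩
  rw [h8]
  refine ⟨h7 P hP, Place.val_eq (h6 P hP), fun h => ?_⟩
  have := h.sub (h5 P hP)
  rw [sub_sub_cancel, CDA_ge_iff_le _ P.unif_ne_zero, P.ord_unif] at this
  omega

theorem exists_cd_of_sm [Nonempty ι] {J : Finset (ι × ℕ)} {A : Subalgebra K (LT ι K)}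
    (h : IsChart J A) (hs : Sm A) : ∃ (L : Type u) (_ : Field L) (_ : Algebra K L)
      (_ : Fact (IsFF K L)) (d : CD K L ι), d.alg = A := by
  obtain ⟨hd, hic⟩ := hs
  obtain ⟨L, _, _, _, _, _⟩ : ∃ (L : Type u) (_ : Field L) (_ : Algebra K L) (_ : Algebra A L)
      (_ : IsScalarTower K A L), IsFractionRing A L :=
    ⟨FractionRing A, inferInstance, inferInstance, inferInstance, inferInstance, inferInstance⟩
  let x : L := algebraMap A L ⟨xx ι K, h.x_mem⟩
  let ex : ι → L →ₐ[K] LS K := fun i => IsFractionRing.liftAlgHom (CDC_inj h i)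
  have hex : ∀ i (a : A), ex i (algebraMap A L a) = (a : LT ι K) i := fun i a =>
    IsFractionRing.lift_algebraMap (g := (CDC_pr A i).toRingHom) (CDC_inj h i) a
  have hx : ∀ i, ex i x = LS.T K (-1) := fun i => hex i _
  have htr : Transcendental K x := fun h' =>
    CDA_trans_T (hx (Classical.arbitrary ι) ▸ h'.algHom (ex (Classical.arbitrary ι)))
  have hFF : Fact (IsFF K L) := ⟨x, htr, CDC_fin h L⟩
  let pl : ι → Place K L := fun i => ⟨(LS.vr K).comap (ex i).toRingHom, fun ht =>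
    CDA_not_ge_T (K := K) (show (-1 : ℤ) < 0 by omega)
      (hx i ▸ (show x ∈ (LS.vr K).comap (ex i).toRingHom from ht ▸ ValuationSubring.mem_top x)),
    fun c => show (ex i (algebraMap K L c)).Ge 0 from (ex i).commutes c ▸ LS.ge_algebraMap c⟩
  have hpl : ∀ i f, f ∈ (pl i).1 ↔ (ex i f).Ge 0 := fun _ _ => Iff.rfl
  have hc := CDA_aeval_comp (IsScalarTower.toAlgHom K A L) ⟨xx ι K, h.x_mem⟩
  have hreg : ∀ f, f ∈ regOut (poles K x) ↔ ∃ a : A, algebraMap A L a = f := fun f => by
    rw [mem_regOut_poles htr, CDA_intx]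
    constructor
    · intro h1
      exact IsIntegrallyClosed.isIntegral_iff.1 (RingHom.IsIntegralElem.of_comp (hc.symm ▸ h1))
    · rintro ⟨a, rfl⟩
      exact hc ▸ (CDC_int h a).map (IsScalarTower.toAlgHom K A L).toRingHom
  have hinj : Function.Injective pl := by
    intro i j hij
    by_contra hne
    obtain ⟨n, hn⟩ := CDC_bound J
    have hJ : ∀ l m, n ≤ m → (l, m) ∉ J := fun l m hm hl => absurd (hn _ hl) (not_lt.2 hm)
    obtain ⟨F, hF, h1⟩ := h.surj (i, n) (hJ i n le_rfl)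
    have h2 : (F j).Ge (-n) := fun m hm => by
      have := h1 (j, (-m - 1).toNat) (hJ _ _ (by omega))
      rw [if_neg fun e => hne (congrArg Prod.fst e).symm, pc,
        show -((((-m - 1).toNat : ℕ) : ℤ) + 1) = m by omega] at this
      exact this
    have h3 : (F i).Ge (-n) := by
      rw [show F j = _ from (hex j ⟨F, hF⟩).symm, ← CDA_ge_iff (pl j) (ex j) (hx j) (hpl j), ← hij,
        CDA_ge_iff (pl i) (ex i) (hx i) (hpl i), hex] at h2
      exact h2
    have h4 := h1 (i, n) (hJ i n le_rfl)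
    rw [if_pos rfl, pc, h3 _ (by omega)] at h4
    exact zero_ne_one h4
  have hpole : ∀ P : Place K L, x ∉ P.1 → ∃ i, P = pl i := by
    intro P hP
    by_contra hc
    obtain ⟨f, h1, h2⟩ := exists_ord_eq (D := Finsupp.single P (2 * (genus K L : ℤ) + 1)) {P}
      (h1z_of_deg (by rw [dg_sub, Finset.sum_singleton, dg_single, dg_single]; omega))
    obtain ⟨h3, h4⟩ := h2 _ (Finset.mem_singleton_self _)
    have h5 : ∀ Q : Place K L, Q ≠ P → f ∈ Q.1 := fun Q hQ => Q.mem_iff.2 (by
      simpa [Finsupp.single_eq_of_ne hQ] using h1 Q)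
    obtain ⟨a, rfl⟩ := (hreg f).1 fun Q hQ => h5 Q fun e => hQ (e ▸ hP)
    obtain ⟨c, h6⟩ := h.inj a a.2 fun μ _ => pole_zero_iff.1 (fun i => by
      rw [← hex i a]
      exact h5 (pl i) fun e => hc ⟨i, e.symm⟩) μ
    have h7 : a = algebraMap K A c := Subtype.ext h6
    have h8 := (CDA_ge_iff_le P h3).1 (P.mem_iff.1 (by
      rw [h7, ← IsScalarTower.algebraMap_apply]
      exact P.2.2 c))
    rw [h4, Finsupp.single_eq_same] at h8
    omega
  let d : CD K L ι := ⟨x, ex, pl, hx, hpl, hinj, hpole⟩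
  refine ⟨L, inferInstance, inferInstance, hFF, d, ?_⟩
  have h1 : d.reg = regOut (poles K x) := congrArg regOut d.poles_eq.symm
  have h2 : ∀ a : A, d.exT (algebraMap A L a) = a := fun a => funext fun i => hex i a
  ext F
  rw [CD.alg, h1]
  constructor
  · rintro ⟨f, hf, rfl⟩
    obtain ⟨a, rfl⟩ := (hreg f).1 hf
    exact (h2 a).symm ▸ a.2
  · exact fun hF => ⟨_, (hreg _).2 ⟨⟨F, hF⟩, rfl⟩, h2 _⟩

theorem CD_range_le [Nonempty ι] [Fact (IsFF K L)] {L' : Type u} [Field L'] [Algebra K L']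
    (d : CD K L ι) (d' : CD K L' ι) (h : d.alg ≤ d'.alg) : d.exT.range ≤ d'.exT.range := by
  rintro _ ⟨f, rfl⟩
  obtain ⟨a, ha, b, hb, rfl⟩ := d.CD_frac f
  obtain ⟨a', -, h1⟩ := h ⟨a, ha, rfl⟩
  obtain ⟨b', -, h2⟩ := h ⟨b, hb, rfl⟩
  refine ⟨a' / b', funext fun i => ?_⟩
  have h3 : d'.ex i a' = d.ex i a := congrFun h1 i
  have h4 : d'.ex i b' = d.ex i b := congrFun h2 i
  show d'.ex i (a' / b') = d.ex i (a / b)
  rw [map_div₀, map_div₀, h3, h4]

/-- Two curves with the same chart point are isomorphic. -/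
theorem CD.exists_equiv [Nonempty ι] [Fact (IsFF K L)] {L' : Type u} [Field L'] [Algebra K L']
    [Fact (IsFF K L')] (d : CD K L ι) (d' : CD K L' ι) (h : d.alg = d'.alg) :
    ∃ e : L ≃ₐ[K] L', ∀ f, d'.exT (e f) = d.exT f := by
  have h1 : d.exT.range = d'.exT.range :=
    le_antisymm (CD_range_le d d' h.le) (CD_range_le d' d h.ge)
  refine ⟨((AlgEquiv.ofInjective d.exT d.exT_injective).trans (Subalgebra.equivOfEq _ _ h1)).trans
    (AlgEquiv.ofInjective d'.exT d'.exT_injective).symm, fun f => ?_⟩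
  exact congrArg Subtype.val
    ((AlgEquiv.ofInjective d'.exT d'.exT_injective).apply_symm_apply _)

end PR0
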