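import Mathlib

/-!
# Laurent series (type synonym, to avoid the instance diamond of `LaurentSeries`)
-/

namespace PR0

universe u

/-- Laurent series over `R`. -/
def LS (R : Type u) [CommRing R] : Type u := HahnSeries ℤ R

namespace LS

variable {R R' : Type u} [CommRing R] [CommRing R']

noncomputable instance : CommRing (LS R) := inferInstanceAs (CommRing (HahnSeries ℤ R))
noncomputable instance {K : Type u} [Field K] : Field (LS K) :=
  { (inferInstance : CommRing (LS K)), (inferInstance : Field (HahnSeries ℤ K)) with }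
example {K : Type u} [Field K] : (Field.toCommRing : CommRing (LS K)) = instCommRing := by
  with_reducible_and_instances rfl
noncomputable instance (S : Type u) [CommRing S] [Algebra S R] : Algebra S (LS R) :=
  ((HahnSeries.C : R →+* HahnSeries ℤ R).comp (algebraMap S R) : S →+* LS R).toAlgebra
instance (S S' : Type u) [CommRing S] [CommRing S'] [Algebra S S'] [Algebra S R] [Algebra S' R]
    [IsScalarTower S S' R] : IsScalarTower S S' (LS R) :=
  IsScalarTower.of_algebraMap_eq fun c =>
    congrArg (HahnSeries.C : R →+* HahnSeries ℤ R) (IsScalarTower.algebraMap_apply S S' R c)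
instance [IsDomain R] : IsDomain (LS R) := inferInstanceAs (IsDomain (HahnSeries ℤ R))

/-- The underlying series. -/
def ser (f : LS R) : HahnSeries ℤ R := f

/-- Coefficients. -/
def cf (f : LS R) (n : ℤ) : R := f.ser.coeff n

/-- The monomial `t ^ n`. -/
noncomputable def T (R : Type u) [CommRing R] (n : ℤ) : LS R :=
  (HahnSeries.single n 1 : HahnSeries ℤ R)

/-- All coefficients below `n` vanish. -/
def Ge (f : LS R) (n : ℤ) : Prop := ∀ m, m < n → f.cf m = 0

@[ext] theorem ext {f g : LS R} (h : ∀ n, f.cf n = g.cf n) : f = g :=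
  HahnSeries.ext (funext h)
@[simp] theorem cf_add (f g : LS R) (n : ℤ) : (f + g).cf n = f.cf n + g.cf n :=
  HahnSeries.coeff_add (x := f.ser) (y := g.ser)
@[simp] theorem cf_neg (f : LS R) (n : ℤ) : (-f).cf n = -f.cf n :=
  HahnSeries.coeff_neg (x := f.ser)
@[simp] theorem cf_sub (f g : LS R) (n : ℤ) : (f - g).cf n = f.cf n - g.cf n :=
  HahnSeries.coeff_sub (x := f.ser) (y := g.ser)
@[simp] theorem cf_zero (n : ℤ) : (0 : LS R).cf n = 0 := rfl
@[simp] theorem cf_smul (c : R) (f : LS R) (n : ℤ) : (c • f).cf n = c * f.cf n :=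
  HahnSeries.coeff_single_zero_mul (x := f.ser)
theorem cf_sum {α : Type*} (s : Finset α) (f : α → LS R) (n : ℤ) :
    (∑ a ∈ s, f a).cf n = ∑ a ∈ s, (f a).cf n := by
  classical
  induction s using Finset.induction_on with
  | empty => simp
  | insert a s ha ih => rw [Finset.sum_insert ha, Finset.sum_insert ha, cf_add, ih]
theorem cf_T (n m : ℤ) : (T R n).cf m = if m = n then 1 else 0 := by
  have := HahnSeries.coeff_single (a := n) (b := m) (r := (1 : R))
  convert this
  rfl
theorem cf_algebraMap (c : R) (m : ℤ) :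
    (algebraMap R (LS R) c).cf m = if m = 0 then c else 0 := by
  have := HahnSeries.coeff_single (a := (0 : ℤ)) (b := m) (r := c)
  convert this
  rfl
theorem T_add (n m : ℤ) : T R (n + m) = T R n * T R m := by
  have := HahnSeries.single_mul_single (a := n) (b := m) (r := (1 : R)) (s := 1)
  rw [mul_one] at this
  exact this.symm
theorem T_zero : T R 0 = 1 := rfl
theorem T_pow (n : ℤ) (m : ℕ) : T R n ^ m = T R (m * n) := by
  induction m with
  | zero => simp [T_zero]
  | succ m ih => rw [pow_succ, ih, ← T_add, Nat.cast_succ, add_mul, one_mul]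
theorem cf_T_mul (n : ℤ) (f : LS R) (m : ℤ) : (T R n * f).cf m = f.cf (m - n) :=
  (HahnSeries.coeff_single_mul (x := f.ser) (r := 1) (a := m) (b := n)).trans (one_mul _)
theorem exists_ge (f : LS R) : ∃ n : ℕ, f.Ge (-n) :=
  ⟨f.ser.order.natAbs, fun _ hm => HahnSeries.coeff_eq_zero_of_lt_order (by omega)⟩
theorem Ge.mono {f : LS R} {n m : ℤ} (h : f.Ge n) (hm : m ≤ n) : f.Ge m :=
  fun k hk => h k (hk.trans_le hm)
theorem Ge.add {f g : LS R} {n : ℤ} (h : f.Ge n) (h' : g.Ge n) : (f + g).Ge n :=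
  fun k hk => by rw [cf_add, h k hk, h' k hk, add_zero]
theorem Ge.neg {f : LS R} {n : ℤ} (h : f.Ge n) : (-f).Ge n :=
  fun k hk => by rw [cf_neg, h k hk, neg_zero]
theorem Ge.smul {f : LS R} {n : ℤ} (c : R) (h : f.Ge n) : (c • f).Ge n :=
  fun k hk => by rw [cf_smul, h k hk, mul_zero]
theorem LS_cf_mul {f g : LS R} {a b : ℤ} (hf : f.Ge a) (hg : g.Ge b) (n : ℤ) :
    (f * g).cf n = ∑ i ∈ Finset.Icc a (n - b), f.cf i * g.cf (n - i) := by
  refine (HahnSeries.coeff_mul (x := f.ser) (y := g.ser) (a := n)).trans ?_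
  refine Finset.sum_bij_ne_zero (fun ij _ _ => ij.1) ?_ ?_ ?_ ?_
  · intro ij h _
    obtain ⟨h1, h2, h3⟩ := Finset.mem_antidiagonal.1 h
    have h4 : ¬ ij.1 < a := fun h => h1 (hf _ h)
    have h5 : ¬ ij.2 < b := fun h => h2 (hg _ h)
    exact Finset.mem_Icc.2 ⟨by omega, by omega⟩
  · intro x hx _ y hy _ e
    have h1 := (Finset.mem_antidiagonal.1 hx).2.2
    have h2 := (Finset.mem_antidiagonal.1 hy).2.2
    exact Prod.ext e (by omega)
  · intro i _ h
    exact ⟨(i, n - i), Finset.mem_antidiagonal.2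
      ⟨left_ne_zero_of_mul h, right_ne_zero_of_mul h, by simp⟩, h, rfl⟩
  · intro ij h _
    have h1 := (Finset.mem_antidiagonal.1 h).2.2
    rw [show n - ij.1 = ij.2 by omega]
    rfl
theorem Ge.mul {f g : LS R} {n m : ℤ} (h : f.Ge n) (h' : g.Ge m) : (f * g).Ge (n + m) :=
  fun k hk => by rw [LS_cf_mul h h', Finset.Icc_eq_empty (by omega), Finset.sum_empty]
theorem LS_ge_T (n : ℤ) : (T R n).Ge n := fun k hk => by rw [cf_T, if_neg hk.ne]
theorem Ge.pow {f : LS R} {n : ℤ} (h : f.Ge n) (m : ℕ) : (f ^ m).Ge (m * n) := by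
  induction m with
  | zero => simpa [T_zero] using LS_ge_T (R := R) 0
  | succ m ih =>
    rw [pow_succ, Nat.cast_succ, add_mul, one_mul]
    exact ih.mul h
theorem ge_T (n : ℤ) : (T R n).Ge n := LS_ge_T n
theorem ge_algebraMap (c : R) : (algebraMap R (LS R) c).Ge 0 :=
  fun k hk => by rw [cf_algebraMap, if_neg hk.ne]
theorem cf_mul {f g : LS R} {a b : ℤ} (hf : f.Ge a) (hg : g.Ge b) (n : ℤ) :
    (f * g).cf n = ∑ i ∈ Finset.Icc a (n - b), f.cf i * g.cf (n - i) := LS_cf_mul hf hg n
theorem cf_mul_lead {f g : LS R} {a b : ℤ} (hf : f.Ge a) (hg : g.Ge b) :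
    (f * g).cf (a + b) = f.cf a * g.cf b := by
  rw [cf_mul hf hg, add_sub_cancel_right, Finset.Icc_self, Finset.sum_singleton,
    add_sub_cancel_left]
theorem eq_zero_of_ge {f : LS R} (h : ∀ n, f.Ge n) : f = 0 :=
  ext fun n => h (n + 1) n (lt_add_one n)
/-- a series with prescribed coefficients -/
theorem exists_cf (a : ℤ → R) (n : ℤ) (h : ∀ m, m < n → a m = 0) : ∃ f : LS R, ∀ m, f.cf m = a m :=
  ⟨(HahnSeries.ofSuppBddBelow a ⟨n, fun m hm => not_lt.1 fun h' => hm (h m h')⟩ :
    HahnSeries ℤ R), fun _ => rfl⟩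
/-- a series whose leading coefficient is a unit is a unit -/
theorem exists_inv {f : LS R} {n : ℤ} (h : f.Ge n) (hu : IsUnit (f.cf n)) :
    ∃ g : LS R, g.Ge (-n) ∧ f * g = 1 := by
  rcases subsingleton_or_nontrivial R with hR | hR
  · exact ⟨0, fun _ _ => rfl, ext fun _ => Subsingleton.elim _ _⟩
  have h0 : f.ser ≠ 0 := fun e => hu.ne_zero (by rw [cf, e]; rfl)
  have h1 : f.ser.order = n :=
    le_antisymm (HahnSeries.order_le_of_coeff_ne_zero hu.ne_zero)
      (not_lt.1 fun h' => HahnSeries.coeff_order_eq_zero.not.2 h0 (h _ h'))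
  have h2 : IsUnit f.ser := HahnSeries.isUnit_of_isUnit_leadingCoeff_AddUnitOrder
    (by rw [HahnSeries.leadingCoeff_eq, h1]; exact hu) (AddGroup.isAddUnit _)
  obtain ⟨g, hg⟩ : ∃ g : LS R, f * g = 1 := h2.exists_right_inv
  refine ⟨g, ?_, hg⟩
  obtain ⟨N, hN⟩ := exists_ge g
  have key : ∀ k : ℕ, -N + (k : ℤ) ≤ -n → g.Ge (-N + k) := by
    intro k
    induction k with
    | zero => intro _; simpa using hN
    | succ k ih =>
      intro hk m hm
      have h3 := ih (by omega)
      by_cases e : m = -N + k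
      · have h4 := cf_mul_lead h h3
        rw [hg, ← T_zero, cf_T, if_neg (by omega)] at h4
        rw [e]
        exact hu.mul_right_eq_zero.1 h4.symm
      · exact h3 m (by omega)
  intro m hm
  by_cases e : m < -N
  · exact hN m e
  · exact key (m + 1 + N).toNat (by omega) m (by omega)
theorem LS_charP (p : ℕ) [CharP R p] : CharP (LS R) p :=
  charP_of_injective_algebraMap (R := R) (fun a b e => by
    simpa [cf_algebraMap] using congrArg (fun f : LS R => f.cf 0) e) p
theorem cf_pow_char (p : ℕ) [Fact p.Prime] [CharP R p] (f : LS R) (m : ℤ) :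
    (f ^ p).cf m = if (p : ℤ) ∣ m then f.cf (m / p) ^ p else 0 := by
  have := LS_charP (R := R) p
  have hp : 0 < p := (Fact.out : p.Prime).pos
  have hp' : (0 : ℤ) < p := by exact_mod_cast hp
  obtain ⟨N, hN⟩ := exists_ge f
  obtain ⟨M, hM⟩ : ∃ M : ℤ, m < p * M := ⟨|m| + 1, by nlinarith [le_abs_self m, abs_nonneg m]⟩
  have hg : (f - ∑ i ∈ Finset.Ico (-N : ℤ) M, f.cf i • T R i).Ge M := by
    intro k hk
    simp only [cf_sub, cf_sum, cf_smul, cf_T, mul_ite, mul_one, mul_zero, Finset.sum_ite_eq,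
      Finset.mem_Ico]
    split_ifs with h
    · exact sub_self _
    · rw [hN k (by omega), sub_zero]
  have e := hg.pow p m hM
  rw [sub_pow_char, cf_sub, sub_eq_zero, sum_pow_char] at e
  rw [e]
  simp only [cf_sum, smul_pow, T_pow, cf_smul, cf_T, mul_ite, mul_one, mul_zero]
  split_ifs with h
  · obtain ⟨k, rfl⟩ := h
    rw [Int.mul_ediv_cancel_left _ hp'.ne']
    simp only [mul_right_inj' hp'.ne', Finset.sum_ite_eq, Finset.mem_Ico]
    have := lt_of_mul_lt_mul_left hM hp'.le
    split_ifs with h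
    · rfl
    · rw [hN k (by omega), zero_pow hp.ne']
  · exact Finset.sum_eq_zero fun i _ => if_neg fun e => h ⟨i, e⟩
instance (p : ℕ) [CharP R p] : CharP (LS R) p := LS_charP p

/-- Coefficientwise map. -/
noncomputable def map (φ : R →+* R') : LS R →+* LS R' where
  toFun f := (f.ser.map φ : HahnSeries ℤ R')
  map_one' := HahnSeries.map_one φ.toMonoidWithZeroHom
  map_mul' f g := HahnSeries.map_mul φ.toNonUnitalRingHom (x := f.ser) (y := g.ser)
  map_zero' := ext fun _ => φ.map_zero
  map_add' f g := HahnSeries.map_add φ.toAddMonoidHom (x := f.ser) (y := g.ser)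

@[simp] theorem cf_map (φ : R →+* R') (f : LS R) (n : ℤ) : (map φ f).cf n = φ (f.cf n) := rfl
@[simp] theorem map_T (φ : R →+* R') (n : ℤ) : map φ (T R n) = T R' n :=
  ext fun m => by rw [cf_map, cf_T, cf_T, apply_ite φ, map_one, map_zero]
theorem map_algebraMap (φ : R →+* R') (c : R) :
    map φ (algebraMap R (LS R) c) = algebraMap R' (LS R') (φ c) :=
  ext fun m => by rw [cf_map, cf_algebraMap, cf_algebraMap, apply_ite φ, map_zero]
theorem map_smul (φ : R →+* R') (c : R) (f : LS R) : map φ (c • f) = φ c • map φ f :=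
  ext fun m => by rw [cf_map, cf_smul, cf_smul, cf_map, map_mul]
theorem map_injective {φ : R →+* R'} (h : Function.Injective φ) : Function.Injective (map φ) :=
  fun _ _ e => ext fun m => h (congrArg (fun f : LS R' => f.cf m) e)

theorem LS_ex (f : LS R) : ∃ d : LS R, ∀ m, d.cf m = -((m - 1 : ℤ) : R) * f.cf (m - 1) :=
  exists_cf (fun m => -((m - 1 : ℤ) : R) * f.cf (m - 1)) (-(exists_ge f).choose + 1)
    fun m hm => by rw [(exists_ge f).choose_spec (m - 1) (by omega), mul_zero]

theorem LS_leib {f g df dg d : LS R} (hf : ∀ m, df.cf m = -((m - 1 : ℤ) : R) * f.cf (m - 1))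
    (hg : ∀ m, dg.cf m = -((m - 1 : ℤ) : R) * g.cf (m - 1))
    (h : ∀ m, d.cf m = -((m - 1 : ℤ) : R) * (f * g).cf (m - 1)) : d = f * dg + g * df := by
  have a : ∀ {u du : LS R}, (∀ m, du.cf m = -((m - 1 : ℤ) : R) * u.cf (m - 1)) →
      ∀ m, (T R (-1) * du).cf m = -(m : R) * u.cf m := fun hu m => by
    rw [cf_T_mul, hu, sub_neg_eq_add, add_sub_cancel_right]
  obtain ⟨N, hN⟩ := exists_ge f
  obtain ⟨M, hM⟩ := exists_ge g
  have hN' : (T R (-1) * df).Ge (-N) := fun m hm => by rw [a hf, hN m hm, mul_zero]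
  have hM' : (T R (-1) * dg).Ge (-M) := fun m hm => by rw [a hg, hM m hm, mul_zero]
  have e : T R (-1) * d = f * (T R (-1) * dg) + (T R (-1) * df) * g := ext fun m => by
    rw [a h, cf_add, cf_mul hN hM, cf_mul hN hM', cf_mul hN' hM, Finset.mul_sum,
      ← Finset.sum_add_distrib]
    refine Finset.sum_congr rfl fun i _ => ?_
    rw [a hf, a hg]
    push_cast
    ring
  have e1 : T R 1 * T R (-1) = 1 := by rw [← T_add, add_neg_cancel, T_zero]
  linear_combination T R 1 * e - (d - f * dg - g * df) * e1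

/-- The derivation `d / dx` for `x = 1 / t`, that is `- t ^ 2 d / dt`. -/
noncomputable def dx : Derivation R (LS R) (LS R) where
  toFun f := (exists_cf (fun m => -((m - 1 : ℤ) : R) * f.cf (m - 1)) (-(exists_ge f).choose + 1)
    fun m hm => by rw [(exists_ge f).choose_spec (m - 1) (by omega), mul_zero]).choose
  map_add' f g := ext fun m => by
    simp only [cf_add]
    generalize_proofs h1 h2 h3
    rw [h1.choose_spec, h2.choose_spec, h3.choose_spec, mul_add]
  map_smul' c f := ext fun m => by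
    simp only [cf_smul, RingHom.id_apply]
    generalize_proofs h1 h2
    rw [h1.choose_spec, h2.choose_spec, mul_left_comm]
  map_one_eq_zero' := ext fun m => by
    simp only [LinearMap.coe_mk, AddHom.coe_mk]
    generalize_proofs h1
    rw [h1.choose_spec, ← T_zero, cf_T, cf_zero]
    split_ifs with h
    · rw [h, Int.cast_zero, neg_zero, zero_mul]
    · rw [mul_zero]
  leibniz' f g := LS_leib (LS_ex f).choose_spec (LS_ex g).choose_spec (LS_ex (f * g)).choose_spec

theorem cf_dx (f : LS R) (m : ℤ) : (dx f).cf m = -((m - 1 : ℤ) : R) * f.cf (m - 1) :=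
  (LS_ex f).choose_spec m
theorem dx_T : dx (T R (-1)) = 1 := ext fun m => by
  rw [cf_dx, ← T_zero, cf_T, cf_T]
  by_cases h : m = 0
  · subst h
    simp
  · rw [if_neg h, if_neg (by omega), mul_zero]
theorem Ge.dx {f : LS R} (h : f.Ge 0) : (dx f).Ge 2 := fun m hm => by
  rw [cf_dx]
  by_cases e : m = 1
  · subst e
    simp
  · rw [h _ (by omega), mul_zero]
/-- the residue of `f dx` is `- f.cf 1`; exact forms have no residue -/
theorem cf_one_dx (f : LS R) : (dx f).cf 1 = 0 := by
  rw [cf_dx]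
  simp

/-- Power series as a valuation ring of the Laurent series field. -/
noncomputable def vr (K : Type u) [Field K] : ValuationSubring (LS K) where
  carrier := {f | f.Ge 0}
  mul_mem' hf hg := (Ge.mul hf hg).mono (add_zero 0).ge
  one_mem' := ge_T 0
  add_mem' := Ge.add
  zero_mem' _ _ := rfl
  neg_mem' := Ge.neg
  mem_or_inv_mem' f := by
    by_cases h : f.Ge 0
    · exact Or.inl h
    have h0 : f.ser ≠ 0 := fun e => h fun m _ => by rw [cf, e]; rfl
    have h1 : f.Ge f.ser.order := fun _ hm => HahnSeries.coeff_eq_zero_of_lt_order hm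
    obtain ⟨g, hg, e⟩ := exists_inv h1 (IsUnit.mk0 _ (HahnSeries.coeff_order_eq_zero.not.2 h0))
    have h2 : ¬ 0 ≤ f.ser.order := fun h' => h (h1.mono h')
    rw [← eq_inv_of_mul_eq_one_right e]
    exact Or.inr (hg.mono (by omega))

theorem mem_vr {K : Type u} [Field K] {f : LS K} : f ∈ vr K ↔ f.Ge 0 := Iff.rfl

end LS

end PR0
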