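import Pool.Agent.Work.MP_da2620_ag.RR
import Pool.Agent.Work.MP_da2620_ag.LS

/-!
# Expansions of functions at a place
-/

namespace PR0

universe u

variable {K L : Type u} [Field K] [Field L] [Algebra K L]

theorem CDA_T_ne (n : ℤ) : LS.T K n ≠ 0 := fun h => by
  have := LS.cf_T (R := K) n n
  rw [h, if_pos rfl, LS.cf_zero] at this
  exact zero_ne_one this

theorem CDA_T_inv (n : ℤ) : (LS.T K n)⁻¹ = LS.T K (-n) :=
  inv_eq_of_mul_eq_one_right (by rw [← LS.T_add, add_neg_cancel, LS.T_zero])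

theorem CDA_T_zpow (a n : ℤ) : LS.T K a ^ n = LS.T K (n * a) := by
  rcases Int.eq_nat_or_neg n with ⟨m, rfl | rfl⟩
  · rw [zpow_natCast, LS.T_pow]
  · rw [zpow_neg, zpow_natCast, LS.T_pow, CDA_T_inv, neg_mul]

theorem CDA_ge_T_mul (a n : ℤ) (f : LS K) : (LS.T K a * f).Ge (a + n) ↔ f.Ge n := by
  constructor
  · intro h m hm
    have := h (m + a) (by omega)
    rwa [LS.cf_T_mul, add_sub_cancel_right] at this
  · exact fun h => (LS.ge_T a).mul h

theorem CDA_not_ge_T {a n : ℤ} (h : a < n) : ¬ (LS.T K a).Ge n := fun h' => by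
  have := h' a h
  rw [LS.cf_T, if_pos rfl] at this
  exact one_ne_zero this

theorem CDA_ge_sub {f g : LS K} {n : ℤ} (h : f.Ge n) (h' : g.Ge n) : (f - g).Ge n := by
  rw [sub_eq_add_neg]
  exact h.add h'.neg

theorem CDA_ge_zero (n : ℤ) : (0 : LS K).Ge n := fun _ _ => rfl

theorem CDA_trunc (f : LS K) (n : ℤ) :
    ∃ s : Finset ℤ, (f - ∑ k ∈ s, f.cf k • LS.T K k).Ge n := by
  obtain ⟨N, hN⟩ := LS.exists_ge f
  refine ⟨Finset.Ico (-N : ℤ) n, fun k hk => ?_⟩
  simp only [LS.cf_sub, LS.cf_sum, LS.cf_smul, LS.cf_T, mul_ite, mul_one, mul_zero,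
    Finset.sum_ite_eq, Finset.mem_Ico]
  split_ifs with h
  · exact sub_self _
  · rw [hN k (by omega), sub_zero]

theorem CDA_exists_ord {f : LS K} {n : ℤ} (h : ¬ f.Ge n) :
    ∃ m, m < n ∧ f.Ge m ∧ f.cf m ≠ 0 := by
  have h0 : f.ser ≠ 0 := fun e => h fun m _ => by rw [LS.cf, e]; rfl
  have h1 : f.Ge f.ser.order := fun _ hm => HahnSeries.coeff_eq_zero_of_lt_order hm
  exact ⟨f.ser.order, not_le.1 fun h' => h (h1.mono h'), h1,
    HahnSeries.coeff_order_eq_zero.not.2 h0⟩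

theorem CDA_map_trunc (e : L →ₐ[K] LS K) {x : L} (hx : e x = LS.T K (-1)) (s : Finset ℤ)
    (c : ℤ → K) : e (∑ k ∈ s, c k • x ^ (-k)) = ∑ k ∈ s, c k • LS.T K k := by
  rw [map_sum]
  refine Finset.sum_congr rfl fun k _ => ?_
  rw [map_smul, map_zpow₀, hx, CDA_T_zpow, neg_mul_neg, mul_one]

theorem CDA_intx {B : Type u} [CommRing B] [Algebra K B] {b f : B} :
    IsIntegral (Algebra.adjoin K {b}) f ↔
      (Polynomial.aeval b : Polynomial K →ₐ[K] B).toRingHom.IsIntegralElem f := by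
  let φ : Polynomial K →+* Algebra.adjoin K {b} :=
    (Polynomial.aeval b : Polynomial K →ₐ[K] B).toRingHom.codRestrict _
      fun q => Polynomial.aeval_mem_adjoin_singleton K b
  have hφ : Function.Surjective φ := fun a => by
    obtain ⟨q, hq⟩ := Algebra.adjoin_mem_exists_aeval K b a.2
    exact ⟨q, Subtype.ext hq⟩
  have e : (Polynomial.aeval b : Polynomial K →ₐ[K] B).toRingHom =
      (algebraMap (Algebra.adjoin K {b}) B).comp φ := rfl
  rw [e]
  refine ⟨?_, fun h => h.of_comp⟩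
  rintro ⟨q, h1, h2⟩
  obtain ⟨r, rfl, -, h3⟩ := Polynomial.lifts_and_natDegree_eq_and_monic
    ((Polynomial.mem_lifts q).2 (Polynomial.map_surjective φ hφ q)) h1
  exact ⟨r, h3, by rw [← Polynomial.eval₂_map, h2]⟩

theorem CDA_aeval_comp {B C : Type u} [CommRing B] [Algebra K B] [CommRing C] [Algebra K C]
    (g : B →ₐ[K] C) (b : B) :
    g.toRingHom.comp (Polynomial.aeval b : Polynomial K →ₐ[K] B).toRingHom =
      (Polynomial.aeval (g b) : Polynomial K →ₐ[K] C).toRingHom :=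
  RingHom.ext fun q => (Polynomial.aeval_algHom_apply g b q).symm

variable [IsAlgClosed K]

theorem CDA_trans_T : Transcendental K (LS.T K (-1)) := fun h => by
  obtain ⟨c, hc⟩ := minpoly.mem_range_of_degree_eq_one K _
    (IsAlgClosed.degree_eq_one_of_irreducible K (minpoly.irreducible h.isIntegral))
  exact CDA_not_ge_T (K := K) (show (-1 : ℤ) < 0 by omega) (hc ▸ LS.ge_algebraMap c)

variable [hL : Fact (IsFF K L)]
include hL

omit [IsAlgClosed K] hL in
theorem CDA_ge_iff_le (P : Place K L) {f : L} (hf : f ≠ 0) {n : ℤ} : P.Ge f n ↔ n ≤ P.ord f :=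
  ⟨fun h => h.resolve_left hf, Or.inr⟩

theorem CDA_ge_sum (P : Place K L) {α : Type*} (s : Finset α) {f : α → L} {n : ℤ}
    (h : ∀ a ∈ s, P.Ge (f a) n) : P.Ge (∑ a ∈ s, f a) n :=
  Finset.sum_induction f (fun g => P.Ge g n) (fun _ _ => Place.Ge.add) (Or.inl rfl) h

theorem CDA_ord_x (P : Place K L) (e : L →ₐ[K] LS K) {x : L} (hx : e x = LS.T K (-1))
    (h : ∀ f, f ∈ P.1 ↔ (e f).Ge 0) : x ≠ 0 ∧ P.ord x = -1 := by
  have hx0 : x ≠ 0 := fun h0 => CDA_T_ne (K := K) (-1) (by rw [← hx, h0, map_zero])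
  have h1 : ¬ 0 ≤ P.ord x := fun h' =>
    CDA_not_ge_T (K := K) (show (-1 : ℤ) < 0 by omega) (hx ▸ (h x).1 (P.mem_iff.2 (Or.inr h')))
  have h2 : (e P.unif).Ge 0 := (h _).1 (P.mem_iff.2 (Or.inr (by rw [P.ord_unif]; omega)))
  have h3 : (e P.unif).Ge 1 := by
    intro m hm
    rcases lt_or_eq_of_le (show m ≤ 0 by omega) with h' | rfl
    · exact h2 m h'
    · by_contra hc
      obtain ⟨g, hg, hg'⟩ := LS.exists_inv h2 (IsUnit.mk0 _ hc)
      rw [neg_zero, eq_inv_of_mul_eq_one_right hg', ← map_inv₀, ← h, P.mem_iff,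
        CDA_ge_iff_le P (inv_ne_zero P.unif_ne_zero), P.ord_inv P.unif_ne_zero, P.ord_unif] at hg
      omega
  have h4 : (e (x * P.unif)).Ge 0 := by
    rw [map_mul, hx]
    simpa using (LS.ge_T (-1)).mul h3
  rw [← h, P.mem_iff, CDA_ge_iff_le P (mul_ne_zero hx0 P.unif_ne_zero),
    P.ord_mul hx0 P.unif_ne_zero, P.ord_unif] at h4
  exact ⟨hx0, by omega⟩

theorem CDA_ge_iff (P : Place K L) (e : L →ₐ[K] LS K) {x : L} (hx : e x = LS.T K (-1))
    (h : ∀ f, f ∈ P.1 ↔ (e f).Ge 0) (f : L) (n : ℤ) : P.Ge f n ↔ (e f).Ge n := by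
  by_cases hf : f = 0
  · rw [hf, map_zero]
    exact iff_of_true (Or.inl rfl) (CDA_ge_zero n)
  obtain ⟨hx0, h1⟩ := CDA_ord_x P e hx h
  have h2 := h (x ^ n * f)
  rw [P.mem_iff, CDA_ge_iff_le P (mul_ne_zero (zpow_ne_zero n hx0) hf),
    P.ord_mul (zpow_ne_zero n hx0) hf, P.ord_zpow hx0, h1, map_mul, map_zpow₀, hx,
    CDA_T_zpow] at h2
  rw [CDA_ge_iff_le P hf, ← CDA_ge_T_mul (n * -1) n, show n * -1 + n = 0 by ring, ← h2]
  omega

section ex

variable (P : Place K L) {t : L} (ht : t ≠ 0) (h : P.ord t = 1)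

/-- Pairs of a Laurent polynomial in `t` and its series. -/
noncomputable def CDA_B (K : Type u) [Field K] [Algebra K L] (t : L) : Submodule K (L × LS K) :=
  Submodule.span K (Set.range fun k : ℤ => ((t ^ k, LS.T K k) : L × LS K))

omit [IsAlgClosed K] hL in
theorem CDA_B_mem (t : L) (k : ℤ) : ((t ^ k, LS.T K k) : L × LS K) ∈ CDA_B K t :=
  Submodule.subset_span ⟨k, rfl⟩

include ht

omit [IsAlgClosed K] hL in
theorem CDA_B_mul {a b : L × LS K} (ha : a ∈ CDA_B K t) (hb : b ∈ CDA_B K t) :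
    a * b ∈ CDA_B K t := by
  have h1 : CDA_B K t * CDA_B K t ≤ CDA_B K t := by
    unfold CDA_B
    rw [Submodule.span_mul_span, Submodule.span_le]
    rintro _ ⟨_, ⟨k, rfl⟩, _, ⟨l, rfl⟩, rfl⟩
    refine Submodule.subset_span ⟨k + l, ?_⟩
    simp only [Prod.mk_mul_mk, zpow_add₀ ht, LS.T_add]
  exact h1 (Submodule.mul_mem_mul ha hb)

include h

theorem CDA_ord_t (k : ℤ) : P.ord (t ^ k) = k := by rw [P.ord_zpow ht, h, mul_one]

theorem CDA_B_of {b : L × LS K} (hb : b ∈ CDA_B K t) {n : ℤ} (hn : b.2.Ge n) : P.Ge b.1 n := by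
  obtain ⟨c, rfl⟩ := Finsupp.mem_span_range_iff_exists_finsupp.1 hb
  simp only [Finsupp.sum, Prod.fst_sum, Prod.snd_sum, Prod.smul_mk] at hn ⊢
  refine CDA_ge_sum P _ fun k hk => Place.Ge.smul _ (Or.inr ?_)
  rw [CDA_ord_t P ht h]
  by_contra hc
  have := hn k (not_le.1 hc)
  simp only [LS.cf_sum, LS.cf_smul, LS.cf_T, mul_ite, mul_one, mul_zero, Finset.sum_ite_eq,
    if_pos hk] at this
  exact Finsupp.mem_support_iff.1 hk this

theorem CDA_B_iff {b : L × LS K} (hb : b ∈ CDA_B K t) (n : ℤ) : P.Ge b.1 n ↔ b.2.Ge n := by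
  refine ⟨fun hn => ?_, CDA_B_of P ht h hb⟩
  by_contra hc
  obtain ⟨m, h1, h2, h3⟩ := CDA_exists_ord hc
  have h4 := CDA_B_of P ht h ((CDA_B K t).sub_mem hb
    ((CDA_B K t).smul_mem (b.2.cf m) (CDA_B_mem t m))) (n := m + 1) (by
      intro k hk
      simp only [Prod.snd_sub, Prod.smul_mk, LS.cf_sub, LS.cf_smul, LS.cf_T]
      split_ifs with e
      · rw [e, mul_one, sub_self]
      · rw [h2 k (by omega), mul_zero, sub_zero])
  have h5 := ((hn.mono (show m + 1 ≤ n by omega)).sub h4).smul (b.2.cf m)⁻¹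
  simp only [Prod.fst_sub, Prod.smul_mk, sub_sub_cancel, smul_smul, inv_mul_cancel₀ h3,
    one_smul] at h5
  rw [CDA_ge_iff_le P (zpow_ne_zero m ht), CDA_ord_t P ht h] at h5
  omega

theorem CDA_B_dense (f : L) (n : ℤ) : ∃ b ∈ CDA_B K t, P.Ge (f - b.1) n := by
  have h0 : P.Ge f (P.ord f) := Or.inr le_rfl
  have key : ∀ k : ℕ, ∃ b ∈ CDA_B K t, P.Ge (f - b.1) (P.ord f + k) := by
    intro k
    induction k with
    | zero => exact ⟨0, zero_mem _, by simpa using h0⟩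
    | succ k ih =>
      obtain ⟨b, hb, h1⟩ := ih
      set m : ℤ := P.ord f + k with hm
      have h2 : ∀ j : ℤ, P.Ge (t ^ j) j := fun j => Or.inr (CDA_ord_t P ht h j).ge
      have h3 : (f - b.1) * t ^ (-m) ∈ P.1 := P.mem_iff.2 (by simpa using h1.mul (h2 (-m)))
      have h4 := (Place.ge_sub_val h3).mul (h2 m)
      refine ⟨b + P.val ((f - b.1) * t ^ (-m)) • (t ^ m, LS.T K m),
        add_mem hb (Submodule.smul_mem _ _ (CDA_B_mem t m)), ?_⟩
      rw [sub_mul, mul_assoc, ← zpow_add₀ ht, neg_add_cancel, zpow_zero, mul_one,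
        ← Algebra.smul_def, sub_sub] at h4
      exact h4.mono (by push_cast; omega)
  obtain ⟨b, hb, h1⟩ := key (n - P.ord f).toNat
  exact ⟨b, hb, h1.mono (by omega)⟩

omit ht h

/-- `F` is the expansion of `f`. -/
def CDA_R (P : Place K L) (t f : L) (F : LS K) : Prop :=
  ∀ n, ∃ b ∈ CDA_B K t, P.Ge (f - b.1) n ∧ (F - b.2).Ge n

omit [IsAlgClosed K] hL in
theorem CDA_R_of {b : L × LS K} (hb : b ∈ CDA_B K t) : CDA_R P t b.1 b.2 := fun n =>
  ⟨b, hb, Or.inl (sub_self _), by rw [sub_self]; exact CDA_ge_zero n⟩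

theorem CDA_R_add {f g : L} {F G : LS K} (h1 : CDA_R P t f F) (h2 : CDA_R P t g G) :
    CDA_R P t (f + g) (F + G) := fun n => by
  obtain ⟨a, ha, a1, a2⟩ := h1 n
  obtain ⟨b, hb, b1, b2⟩ := h2 n
  refine ⟨a + b, add_mem ha hb, ?_, ?_⟩
  · rw [Prod.fst_add, add_sub_add_comm]
    exact a1.add b1
  · rw [Prod.snd_add, add_sub_add_comm]
    exact a2.add b2

include ht h

theorem CDA_R_iff {f : L} {F : LS K} (h1 : CDA_R P t f F) (n : ℤ) : P.Ge f n ↔ F.Ge n := by
  obtain ⟨a, ha, a1, a2⟩ := h1 n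
  constructor
  · intro hf
    have := a2.add ((CDA_B_iff P ht h ha n).1 (by simpa using hf.sub a1))
    rwa [sub_add_cancel] at this
  · intro hf
    have := a1.add ((CDA_B_iff P ht h ha n).2 (by simpa using CDA_ge_sub hf a2))
    rwa [sub_add_cancel] at this

theorem CDA_R_unique {f : L} {F G : LS K} (h1 : CDA_R P t f F) (h2 : CDA_R P t f G) : F = G := by
  refine sub_eq_zero.1 (LS.eq_zero_of_ge fun n => ?_)
  obtain ⟨a, ha, a1, a2⟩ := h1 n
  obtain ⟨b, hb, b1, b2⟩ := h2 n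
  have h3 := (CDA_B_iff P ht h (sub_mem ha hb) n).1 (by simpa using b1.sub a1)
  have := (CDA_ge_sub a2 b2).add h3
  rw [Prod.snd_sub] at this
  convert this using 1
  ring

theorem CDA_R_mul {f g : L} {F G : LS K} (h1 : CDA_R P t f F) (h2 : CDA_R P t g G) :
    CDA_R P t (f * g) (F * G) := fun n => by
  obtain ⟨N, hN⟩ := LS.exists_ge F
  obtain ⟨M, hM⟩ := LS.exists_ge G
  obtain ⟨a, ha, a1, a2⟩ := h1 (|n| + N + M)
  obtain ⟨b, hb, b1, b2⟩ := h2 (|n| + N + M)
  have hn := le_abs_self n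
  have hn' := abs_nonneg n
  have b3 : b.2.Ge (-M) := by simpa using CDA_ge_sub hM (b2.mono (m := -M) (by omega))
  have b4 := (CDA_B_iff P ht h hb _).2 b3
  have f1 := (CDA_R_iff P ht h h1 _).2 hN
  refine ⟨a * b, CDA_B_mul ht ha hb, ?_, ?_⟩
  · have := ((f1.mul b1).mono (m := n) (by omega)).add ((a1.mul b4).mono (m := n) (by omega))
    rw [Prod.fst_mul]
    convert this using 1
    ring
  · have := ((hN.mul b2).mono (m := n) (by omega)).add ((a2.mul b3).mono (m := n) (by omega))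
    rw [Prod.snd_mul]
    convert this using 1
    ring

theorem CDA_R_exists (f : L) : ∃ F, CDA_R P t f F := by
  choose b hb h1 using fun n => CDA_B_dense P ht h f (n + 1)
  obtain ⟨F, hF⟩ := LS.exists_cf (fun m => (b m).2.cf m) (P.ord f) fun m hm => by
    have h2 : P.Ge f (m + 1) := Or.inr (by omega)
    exact (CDA_B_iff P ht h (hb m) (m + 1)).1 (by simpa using h2.sub (h1 m)) m (by omega)
  refine ⟨F, fun n => ⟨b n, hb n, (h1 n).mono (by omega), fun m hm => ?_⟩⟩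
  have h2 := (CDA_B_iff P ht h (sub_mem (hb m) (hb n)) (m + 1)).1
    (by simpa using ((h1 n).mono (m := m + 1) (by omega)).sub (h1 m)) m (by omega)
  rw [Prod.snd_sub, LS.cf_sub] at h2
  rw [LS.cf_sub, hF, h2]

theorem CDA_exists_ex : ∃ e : L →ₐ[K] LS K, e t = LS.T K 1 ∧ ∀ f n, P.Ge f n ↔ (e f).Ge n := by
  choose e he using CDA_R_exists P ht h
  have hc : ∀ c : K, e (algebraMap K L c) = algebraMap K (LS K) c := fun c => by
    have := CDA_R_of P ((CDA_B K t).smul_mem c (CDA_B_mem t 0))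
    simp only [Prod.smul_mk, zpow_zero, LS.T_zero, ← Algebra.algebraMap_eq_smul_one] at this
    exact CDA_R_unique P ht h (he _) this
  refine ⟨⟨⟨⟨⟨e, by simpa using hc 1⟩, fun f g => ?_⟩, by simpa using hc 0, fun f g => ?_⟩, hc⟩,
    ?_, fun f n => CDA_R_iff P ht h (he f) n⟩
  · exact CDA_R_unique P ht h (he _) (CDA_R_mul P ht h (he f) (he g))
  · exact CDA_R_unique P ht h (he _) (CDA_R_add P (he f) (he g))
  · have := CDA_R_of P (CDA_B_mem (K := K) t 1)
    simp only [zpow_one] at this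
    exact CDA_R_unique P ht h (he _) this

end ex

end PR0
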