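import Pool.Agent.Work.MP_da2620_ag.NrmA

-- merged part: Pool.Agent.Work.MP_da2620_ag.Nrm
section
/-!
# Normalisation of a chart point over a field

`exists_nrm`: `i ~ i'` iff the projections `A → LS K` to the components `i`, `i'` have the same kernel.
For a class `v` the image `A v` of `A` in `LT (class)` is a domain; `L v` is its fraction field, embedded
in each `LS K`.  The places `pl i` (comap of `vr`) are distinct, and are all the poles of `x`: the powers
of a function with its only pole at another pole of `x`, multiplied by the conductor, would be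
independent elements of bounded pole order.
`genus_eq`: compare `finrank_lev` for `A` and for the components at a large level.
-/

namespace PR0

universe u

variable {K : Type u} [Field K] [IsAlgClosed K] {ι : Type} [Fintype ι] [DecidableEq ι]
  {J : Finset (ι × ℕ)}

/-- The components of the normalisation of `A`. -/
structure Nrm (A : Subalgebra K (LT ι K)) where
  V : Type
  ιv : V → Type
  [fV : Fintype V]
  [eV : DecidableEq V]
  [fv : ∀ v, Fintype (ιv v)]
  [ev : ∀ v, DecidableEq (ιv v)]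
  [nv : ∀ v, Nonempty (ιv v)]
  e : (Σ v, ιv v) ≃ ι
  C : V → FFd K
  d : ∀ v, CD K (C v).L (ιv v)
  B : Subalgebra K (∀ v, (C v).L)
  exT : (∀ v, (C v).L) →ₐ[K] LT ι K
  exT_apply : ∀ f v i, exT f (e ⟨v, i⟩) = (d v).ex i (f v)
  map_eq : B.map exT = A
  le : ∀ f ∈ B, ∀ v, f v ∈ (d v).reg
  cond : ∃ s : Polynomial K, s.Monic ∧ ∀ f : ∀ v, (C v).L, (∀ v, f v ∈ (d v).reg) →
    (fun v => Polynomial.aeval (d v).x s * f v) ∈ B

attribute [instance] Nrm.fV Nrm.eV Nrm.fv Nrm.ev Nrm.nv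

theorem exists_nrm {A : Subalgebra K (LT ι K)} (h : IsChart J A) : Nonempty (Nrm A) := by
  classical
  let S : Setoid ι := Setoid.ker fun i => {a : A | a.1 i = 0}
  have hS : ∀ i k, (Quotient.mk S i = Quotient.mk S k) ↔ ∀ a : A, a.1 i = 0 ↔ a.1 k = 0 :=
    fun i k => Quotient.eq.trans Set.ext_iff
  choose C ρ h1 h2 using fun v : Quotient S => NrmA_field h v.out
  choose ex he using fun (v : Quotient S) (i : {i // Quotient.mk S i = v}) =>
    h2 v i.1 ((hS _ _).mp (v.out_eq.trans i.2.symm))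
  have h0 : ∀ (v : Quotient S) (i : {i // Quotient.mk S i = v}) (a : A), ρ v a = 0 ↔ a.1 i = 0 :=
    fun v i a => by rw [← he v i, map_eq_zero (ex v i)]
  have h3 : ∀ (v : Quotient S) (k : ι), ∃ a : A, ρ v a ≠ 0 ∧
      (Quotient.mk S k ≠ v → a.1 k = 0) := by
    intro v k
    by_cases hk : Quotient.mk S k = v
    · exact ⟨1, by simp, fun hc => absurd hk hc⟩
    by_contra hc
    push Not at hc
    have h4 : ∀ a : A, a.1 k = 0 → a.1 v.out = 0 := fun a ha => by
      by_contra h5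
      exact (hc a fun e => h5 ((h0 v ⟨_, v.out_eq⟩ a).mp e)).2 ha
    refine hk (((hS _ _).mpr fun a => ⟨h4 a, ?_⟩).trans v.out_eq)
    exact NrmA_incomp h (ρ _) (ex _ ⟨k, rfl⟩) (he _ ⟨k, rfl⟩) h4 a
  choose α hα hα' using h3
  have h4 : ∀ v, ρ v (∏ k, α v k) ≠ 0 := fun v => by
    rw [map_prod]
    exact Finset.prod_ne_zero_iff.mpr fun k _ => hα v k
  have h5 : ∀ v k, Quotient.mk S k ≠ v → (∏ k, α v k).1 k = 0 := fun v k hk => by
    rw [← Finset.mul_prod_erase _ _ (Finset.mem_univ k)]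
    change (α v k).1 k * _ = 0
    rw [hα' v k hk, zero_mul]
  have nv : ∀ v : Quotient S, Nonempty {i // Quotient.mk S i = v} := fun v => ⟨⟨_, v.out_eq⟩⟩
  choose d hd hreg s hs0 hs using fun v => NrmA_cd h (ρ v) Subtype.val_injective (ex v) (he v)
    (h1 v) (h4 v) fun k hk => h5 v k fun e => hk ⟨⟨k, e⟩, rfl⟩
  have hs1 : ∏ v, s v ≠ 0 := Finset.prod_ne_zero_iff.mpr fun v _ => hs0 v
  refine ⟨{
    V := Quotient S
    ιv := fun v => {i // Quotient.mk S i = v}
    e := Equiv.sigmaFiberEquiv (Quotient.mk S)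
    C := C
    d := d
    B := (AlgHom.pi ρ).range
    exT := AlgHom.pi fun i => ((d _).ex ⟨i, rfl⟩).comp (Pi.evalAlgHom K _ (Quotient.mk S i))
    exT_apply := ?_
    map_eq := ?_
    le := ?_
    cond := ⟨_, Polynomial.monic_mul_leadingCoeff_inv hs1, fun f hf => ?_⟩ }⟩
  · rintro f _ ⟨i, rfl⟩
    rfl
  · rw [← AlgHom.range_comp]
    refine Eq.trans (congrArg AlgHom.range (AlgHom.ext fun a => funext fun i => ?_)) A.range_val
    change (d _).ex ⟨i, rfl⟩ (ρ _ a) = a.1 i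
    rw [hd, he]
  · rintro _ ⟨a, rfl⟩ v
    exact hreg v a
  · choose c hc using fun v => hs v (Polynomial.aeval (d v).x ((∏ w ∈ Finset.univ.erase v, s w) *
      Polynomial.C (∏ v, s v).leadingCoeff⁻¹) * f v) (mul_mem (NrmA_aeval_mem _ _) (hf v))
    refine ⟨∑ v, (∏ k, α v k) * c v, funext fun v => ?_⟩
    change ρ v _ = _
    rw [map_sum, Finset.sum_eq_single v, hc, ← mul_assoc, ← map_mul, ← mul_assoc,
      Finset.mul_prod_erase _ _ (Finset.mem_univ v)]
    · intro w _ hw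
      rw [map_mul, (h0 v ⟨_, v.out_eq⟩ _).mpr (h5 w _ fun e => hw (e.symm.trans v.out_eq)),
        zero_mul]
    · exact fun hv => absurd (Finset.mem_univ v) hv

namespace Nrm

variable {A : Subalgebra K (LT ι K)} (N : Nrm A)

/-- The normalisation. -/
def top : Subalgebra K (∀ v, (N.C v).L) := Subalgebra.pi Set.univ fun v => (N.d v).reg

/-- The colength. -/
noncomputable def δ : ℕ :=
  Module.finrank K (N.top.toSubmodule ⧸ N.B.toSubmodule.submoduleOf N.top.toSubmodule)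

/-- Places at finite distance. -/
def Pl : Type u := {P : Σ v, Place K (N.C v).L // (N.d P.1).x ∈ P.2.1}

/-- Two places give the same point. -/
def Glued (P Q : N.Pl) : Prop := ∀ f ∈ N.B, P.1.2.val (f P.1.1) = Q.1.2.val (f Q.1.1)

omit [IsAlgClosed K] [Fintype ι] [DecidableEq ι] in
theorem exT_injective : Function.Injective N.exT := by
  refine (injective_iff_map_eq_zero N.exT).mpr fun f hf => funext fun v => ?_
  obtain ⟨i⟩ := N.nv v
  have := N.exT_apply f v i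
  rw [hf] at this
  exact (map_eq_zero ((N.d v).ex i)).mp this.symm

omit [IsAlgClosed K] [Fintype ι] [DecidableEq ι] in
theorem Nrm_mem {f : ∀ v, (N.C v).L} : N.exT f ∈ A ↔ f ∈ N.B := by
  exact ⟨fun h => (N.map_eq.ge h).elim fun _ hg => N.exT_injective hg.2 ▸ hg.1,
    fun hf => N.map_eq.le ⟨f, hf, rfl⟩⟩

omit [IsAlgClosed K] [Fintype ι] [DecidableEq ι] in
theorem Nrm_lift {F : LT ι K} (hF : F ∈ A) : ∃ f ∈ N.B, N.exT f = F := N.map_eq.ge hF

omit [IsAlgClosed K] [Fintype ι] [DecidableEq ι] in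
theorem Nrm_pole {f : ∀ v, (N.C v).L} {n : ℤ} :
    Pole (N.exT f) n ↔ ∀ v, Pole ((N.d v).exT (f v)) n := by
  refine ⟨fun h v i => ?_, fun h j => ?_⟩
  · have := h (N.e ⟨v, i⟩)
    rwa [N.exT_apply] at this
  obtain ⟨⟨v, i⟩, rfl⟩ := N.e.surjective j
  rw [N.exT_apply]
  exact h v i

omit [IsAlgClosed K] [Fintype ι] [DecidableEq ι] in
theorem Nrm_top {f : ∀ v, (N.C v).L} : f ∈ N.top ↔ ∀ v, f v ∈ (N.d v).reg :=
  ⟨fun h v => h v trivial, fun h v _ => h v⟩

omit [IsAlgClosed K] [Fintype ι] in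
theorem x_mem (h : IsChart J A) : (fun v => (N.d v).x) ∈ N.B := by
  have e : N.exT (fun v => (N.d v).x) = xx ι K := funext fun j => by
    obtain ⟨⟨v, i⟩, rfl⟩ := N.e.surjective j
    rw [N.exT_apply, CD.ex_x]
    rfl
  rw [← N.Nrm_mem, e]
  exact h.x_mem

/-- Elements of the normalisation of bounded pole order. -/
noncomputable def Nrm_lev (n : ℕ) : Submodule K (∀ v, (N.C v).L) :=
  LinearMap.range (LinearMap.pi fun v => (Lsp ((n : ℤ) • (N.d v).inf)).subtype.comp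
    (LinearMap.proj (φ := fun v => Lsp ((n : ℤ) • (N.d v).inf)) v))

omit [Fintype ι] [DecidableEq ι] in
theorem Nrm_mem_lev {n : ℕ} {f : ∀ v, (N.C v).L} :
    f ∈ N.Nrm_lev n ↔ ∀ v, f v ∈ Lsp ((n : ℤ) • (N.d v).inf) :=
  ⟨fun ⟨g, e⟩ v => e ▸ (g v).2, fun h => ⟨fun v => ⟨f v, h v⟩, rfl⟩⟩

instance Nrm_fin (n : ℕ) : FiniteDimensional K (N.Nrm_lev n) := by
  unfold Nrm_lev
  infer_instance

omit [Fintype ι] [DecidableEq ι] in
theorem Nrm_rank (n : ℕ) :
    Module.finrank K (N.Nrm_lev n) = ∑ v, ell ((n : ℤ) • (N.d v).inf) := by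
  rw [Nrm_lev, LinearMap.finrank_range_of_inj, Module.finrank_pi_fintype]
  · rfl
  · exact fun f g e => funext fun v => Subtype.ext (congrFun e v)

omit [Fintype ι] [DecidableEq ι] in
theorem Nrm_lev_le (n : ℕ) : N.Nrm_lev n ≤ N.top.toSubmodule :=
  fun _ hf => N.Nrm_top.mpr fun v => ((N.d v).mem_Lsp.mp (N.Nrm_mem_lev.mp hf v)).1

omit [Fintype ι] [DecidableEq ι] in
theorem Nrm_red : ∃ n₀ : ℕ, ∀ n, n₀ ≤ n → (∀ v, 2 * genus K (N.C v).L ≤ n) ∧
    N.top.toSubmodule ≤ N.B.toSubmodule ⊔ N.Nrm_lev n := by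
  obtain ⟨s, hs, h⟩ := N.cond
  refine ⟨2 * ∑ v, genus K (N.C v).L + s.natDegree, fun n hn => ?_⟩
  have h1 : ∀ v, genus K (N.C v).L ≤ ∑ v, genus K (N.C v).L := fun v =>
    Finset.single_le_sum (f := fun v => genus K (N.C v).L) (fun _ _ => Nat.zero_le _)
      (Finset.mem_univ v)
  refine ⟨fun v => by have := h1 v; omega, fun f hf => ?_⟩
  choose a ha ha' using fun v => NrmA_red (N.d v) hs.ne_zero (n := n) (by have := h1 v; omega)
    (N.Nrm_top.mp hf v)
  exact Submodule.mem_sup.mpr ⟨_, h a ha, _, N.Nrm_mem_lev.mpr ha',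
    funext fun v => add_sub_cancel _ _⟩

omit [Fintype ι] [DecidableEq ι] in
theorem finite_δ : FiniteDimensional K
    (N.top.toSubmodule ⧸ N.B.toSubmodule.submoduleOf N.top.toSubmodule) := by
  obtain ⟨n, hn⟩ := N.Nrm_red
  exact (NrmA_quot (N.Nrm_lev_le n) (hn n le_rfl).2).1

omit [IsAlgClosed K] [DecidableEq ι] in
theorem sum_card : ∑ v, Fintype.card (N.ιv v) = Fintype.card ι := by
  rw [← Fintype.card_sigma, Fintype.card_congr N.e]

theorem genus_eq [Nonempty ι] (h : IsChart J A) :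
    J.card + Fintype.card N.V = ∑ v, genus K (N.C v).L + N.δ + 1 := by
  obtain ⟨n₀, hn₀⟩ := N.Nrm_red
  obtain ⟨n₁, hn₁⟩ := Chart_bound J
  obtain ⟨h1, h2⟩ := hn₀ (n₀ + n₁) (by omega)
  generalize hn : n₀ + n₁ = n at h1 h2
  have h3 := (NrmA_quot (N.Nrm_lev_le n) h2).2
  have h4 := h.finrank_lev (n := n) fun ν hν => by have := hn₁ ν hν; omega
  have h5 : lev A n = (N.Nrm_lev n ⊓ N.B.toSubmodule).map N.exT.toLinearMap := by
    ext F
    constructor
    · rintro ⟨hF, hp⟩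
      obtain ⟨f, hf, rfl⟩ := N.Nrm_lift hF
      exact ⟨f, ⟨N.Nrm_mem_lev.mpr fun v => (N.d v).mem_Lsp.mpr
        ⟨N.le f hf v, N.Nrm_pole.mp hp v⟩, hf⟩, rfl⟩
    · rintro ⟨f, ⟨hf, hf'⟩, rfl⟩
      exact ⟨N.Nrm_mem.mpr hf', N.Nrm_pole.mpr fun v =>
        ((N.d v).mem_Lsp.mp (N.Nrm_mem_lev.mp hf v)).2⟩
  rw [h5, ← (Submodule.equivMapOfInjective _ N.exT_injective _).finrank_eq] at h4
  have h6 := Finset.sum_congr (s₁ := Finset.univ) rfl fun v _ => NrmA_ell (N.d v) (h1 v)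
  rw [Finset.sum_add_distrib, Finset.sum_add_distrib, ← Finset.mul_sum, N.sum_card,
    ← N.Nrm_rank, Finset.sum_const, Finset.card_univ, smul_eq_mul, mul_one, ← h3] at h6
  unfold δ
  omega

omit [Fintype ι] [DecidableEq ι] in
theorem Nrm_pl (σ : N.B →ₐ[K] K) : ∃ P : N.Pl, ∀ f : N.B, σ f = 0 → P.1.2.val (f.1 P.1.1) = 0 := by
  by_contra hc
  push Not at hc
  let T : Submodule N.B (∀ v, (N.C v).L) :=
    { carrier := N.top
      add_mem' := add_mem
      zero_mem' := zero_mem _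
      smul_mem' := fun b f hf => mul_mem (N.Nrm_top.mpr (N.le b.1 b.2)) hf }
  obtain ⟨n, hn⟩ := N.Nrm_red
  obtain ⟨t, ht⟩ := (Submodule.fg_iff_finiteDimensional _).mpr (N.Nrm_fin n)
  have hT : T.FG := by
    classical
    refine ⟨insert 1 t, le_antisymm (Submodule.span_le.mpr fun f hf => ?_) fun f hf => ?_⟩
    · rcases Finset.mem_insert.mp hf with rfl | hf
      · exact one_mem N.top
      · exact N.Nrm_lev_le n (ht ▸ Submodule.subset_span hf)
    · obtain ⟨b, hb, w, hw, rfl⟩ := Submodule.mem_sup.mp ((hn n le_rfl).2 hf)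
      refine add_mem ?_ ?_
      · have h1 : (1 : ∀ v, (N.C v).L) ∈ Submodule.span N.B
            ((insert 1 t : Finset (∀ v, (N.C v).L)) : Set (∀ v, (N.C v).L)) :=
          Submodule.subset_span (by simp)
        have h2 := Submodule.smul_mem _ (⟨b, hb⟩ : N.B) h1
        have e : (⟨b, hb⟩ : N.B) • (1 : ∀ v, (N.C v).L) = b := mul_one b
        rwa [e] at h2
      · rw [← ht] at hw
        exact Submodule.span_mono (by simp) (Submodule.span_le_restrictScalars K N.B _ hw)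
  let I : Ideal N.B := RingHom.ker σ
  have := IsScalarTower.left N.B (α := ∀ v, (N.C v).L)
  have h1 : ∀ (v : N.V) (g : (N.C v).L), g ∈ Submodule.span (regOut (Set.range (N.d v).pl))
      (Set.range fun q : I => q.1.1 v) → ∀ r ∈ (N.d v).reg, Pi.single v (r * g) ∈ I • T := by
    intro v g hg
    induction hg using Submodule.span_induction with
    | mem g hg =>
      obtain ⟨q, rfl⟩ := hg
      intro r hr
      have h2 : Pi.single v r ∈ T := N.Nrm_top.mpr fun w => by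
        by_cases hw : w = v
        · subst hw
          rwa [Pi.single_eq_same]
        · rw [Pi.single_eq_of_ne hw]
          exact zero_mem _
      have h3 := Submodule.smul_mem_smul q.2 h2
      have e : q.1 • (Pi.single v r : ∀ v, (N.C v).L) = Pi.single v (r * q.1.1 v) := by
        change q.1.1 * _ = _
        rw [mul_comm, Pi.single_mul_left]
      rwa [e] at h3
    | zero => simp
    | add f g _ _ hf hg =>
      intro r hr
      rw [mul_add, Pi.single_add]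
      exact add_mem (hf r hr) (hg r hr)
    | smul c g _ hg =>
      intro r hr
      have := hg (r * c.1) (mul_mem hr c.2)
      rwa [mul_assoc] at this
  have h2 : T ≤ I • T := by
    intro f hf
    rw [← Finset.univ_sum_single f]
    refine Submodule.sum_mem _ fun v _ => ?_
    have := h1 v 1 (mem_span_of_ord (Set.finite_range _) (Set.range_nonempty _) _ fun P hP => ?_)
      (f v) (N.Nrm_top.mp hf v)
    · rwa [mul_one] at this
    · obtain ⟨q, hq, hq'⟩ := hc ⟨⟨v, P⟩, (NrmA_fin_iff _).mp hP⟩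
      have h3 := BC_unit (N.le q.1 q.2 v P hP) hq'
      have h4 : P.ord (1 : (N.C v).L) = 0 := by simpa using P.ord_const (one_ne_zero (α := K))
      exact Or.inr ⟨⟨q, hq⟩, h3.1, by rw [h3.2, h4]⟩
  obtain ⟨r, hr, hr'⟩ := Submodule.exists_sub_one_mem_and_smul_eq_zero_of_fg_of_le_smul I T hT h2
  have h3 : r = 0 := Subtype.ext ((mul_one r.1).symm.trans (hr' 1 (one_mem N.top)))
  have h4 : σ (r - 1) = 0 := hr
  rw [h3, map_sub, map_zero, map_one, zero_sub, neg_eq_zero] at h4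
  exact one_ne_zero h4

omit [Fintype ι] [DecidableEq ι] in
theorem Nrm_reg (P : N.Pl) {f : ∀ v, (N.C v).L} (hf : f ∈ N.top) : f P.1.1 ∈ P.1.2.1 :=
  N.Nrm_top.mp hf _ _ ((NrmA_fin_iff _).mpr P.2)

omit [Fintype ι] in
theorem exists_pl (h : IsChart J A) (σ : N.B →ₐ[K] K) :
    ∃ P : N.Pl, ∀ f : N.B, σ f = P.1.2.val (f.1 P.1.1) := by
  have _ := h
  obtain ⟨P, hP⟩ := N.Nrm_pl σ
  refine ⟨P, fun f => ?_⟩
  have h1 := hP (f - algebraMap K N.B (σ f)) (by simp)
  have h2 := N.Nrm_reg P (N.Nrm_top.mpr (N.le f.1 f.2))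
  exact (Place.val_eq ((Place.val_eq_zero (sub_mem h2 (P.1.2.2.2 _))).mp h1)).symm

variable (p : ℕ) [Fact p.Prime] [CharP K p]
  (hn : ∀ F : LT ι K, ∃ n : ℕ, ∃ a ∈ A, Pole (F ^ p ^ n - a) 0)
include hn

omit [Fintype ι] [DecidableEq ι] in
theorem hw0 (v : N.V) : HW0 K (N.C v).L p := by
  refine ((N.d v).hw0_iff p).mpr fun F => ?_
  let g : (Σ v, N.ιv v) → LS K := fun s => (Pi.single v F : ∀ w, LT (N.ιv w) K) s.1 s.2
  obtain ⟨n, a, ha, h⟩ := hn fun j => g (N.e.symm j)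
  obtain ⟨b, hb, rfl⟩ := N.Nrm_lift ha
  refine ⟨n, _, ⟨b v, N.le b hb v, rfl⟩, fun i => ?_⟩
  have h1 := h (N.e ⟨v, i⟩)
  rw [Pi.sub_apply, Pi.pow_apply, N.exT_apply, Equiv.symm_apply_apply] at h1
  simp only [g, Pi.single_eq_same] at h1
  exact h1

omit [Fintype ι] [DecidableEq ι] in
theorem tree {f : ∀ v, (N.C v).L} (hf : f ∈ N.top) (hp : f ^ p - f ∈ N.B) :
    ∃ a ∈ N.B, ∀ v, ∃ c, (f - a) v = algebraMap K _ c := by
  have h1 : ∀ n : ℕ, f ^ p ^ n - f ∈ N.B := by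
    intro n
    induction n with
    | zero => simp
    | succ n ih =>
      have e : f ^ p ^ (n + 1) - f = (f ^ p - f) ^ p ^ n + (f ^ p ^ n - f) := funext fun v => by
        have : CharP (N.C v).L p := charP_of_injective_algebraMap (algebraMap K _).injective p
        simp only [Pi.sub_apply, Pi.add_apply, Pi.pow_apply]
        rw [sub_pow_char_pow, ← pow_mul, ← pow_succ']
        ring
      rw [e]
      exact add_mem (pow_mem hp _) ih
  obtain ⟨n, a, ha, h⟩ := hn (N.exT f)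
  obtain ⟨b, hb, rfl⟩ := N.Nrm_lift ha
  rw [← map_pow, ← map_sub] at h
  refine ⟨b - (f ^ p ^ n - f), sub_mem hb (h1 n), fun v => ?_⟩
  have e : f - (b - (f ^ p ^ n - f)) = f ^ p ^ n - b := by ring
  have h2 := (N.d v).mem_Lsp.mpr ⟨N.Nrm_top.mp (sub_mem (pow_mem hf (p ^ n))
    (N.Nrm_top.mpr (N.le b hb))) v, N.Nrm_pole.mp h v⟩
  rw [zero_smul, rr_Lsp_zero, Submodule.mem_span_singleton] at h2
  obtain ⟨c, hc⟩ := h2
  exact ⟨c, by rw [e, ← hc, Algebra.algebraMap_eq_smul_one]⟩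

omit [Fintype ι] [DecidableEq ι] in
open Classical in
theorem Nrm_jump {Z : Set N.Pl} (hZ : Z.Finite) (Q : N.Pl) : ∃ c : N.V → K, ∀ R ∈ Z, ∀ R' ∈ Z,
    N.Glued R R' → c R'.1.1 - c R.1.1 = (if R' = Q then 1 else 0) - if R = Q then 1 else 0 := by
  obtain ⟨s, hs, h⟩ := N.cond
  have hs0 : ∀ v, Polynomial.aeval (N.d v).x s ≠ 0 :=
    fun v e => (N.d v).transcendental ⟨s, hs.ne_zero, e⟩
  choose f hf hf' hv using fun v => NrmA_approx (N.d v) p
    (fun P => if (⟨v, P⟩ : Σ v, Place K (N.C v).L) = Q.1 then 1 else 0)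
    (fun P => by split_ifs <;> simp [(Fact.out : p.Prime).ne_zero])
    ((hZ.image Subtype.val).preimage
      (sigma_mk_injective (β := fun v => Place K (N.C v).L) (i := v)).injOn)
    (NrmA_aeval_mem _ s) (hs0 v)
  have h1 : f ^ p - f ∈ N.B := by
    have e : f ^ p - f = fun v => Polynomial.aeval (N.d v).x s *
        ((f v ^ p - f v) * (Polynomial.aeval (N.d v).x s)⁻¹) := funext fun v => by
      rw [mul_left_comm, mul_inv_cancel₀ (hs0 v), mul_one]
      rfl
    rw [e]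
    exact h _ hf'
  obtain ⟨a, ha, hc⟩ := N.tree p hn (N.Nrm_top.mpr hf) h1
  choose c hc using hc
  have h2 : ∀ R ∈ Z, (if R = Q then (1 : K) else 0) = R.1.2.val (a R.1.1) + c R.1.1 := by
    intro R hR
    have h3 := hv R.1.1 R.1.2 ⟨R, hR, rfl⟩ R.2
    have h4 : f R.1.1 = a R.1.1 + algebraMap K _ (c R.1.1) := by
      rw [← hc, Pi.sub_apply, add_sub_cancel]
    rw [h4, Place.val_add (N.Nrm_reg R (N.Nrm_top.mpr (N.le a ha))) (R.1.2.2.2 _),
      Place.val_const] at h3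
    rw [h3]
    exact if_congr Subtype.ext_iff rfl rfl
  refine ⟨c, fun R hR R' hR' hg => ?_⟩
  rw [h2 R hR, h2 R' hR', hg a ha]
  ring

omit [Fintype ι] [DecidableEq ι] in
/-- as `Floors.card_glue` in `Conn.lean` -/
theorem card_glue {α : Type} [Fintype α] (P : α → N.Pl) (S : α → Finset N.Pl)
    (hP : ∀ i j, N.Glued (P i) (P j) → i = j) (hS : ∀ i, ∀ Q ∈ S i, Q ≠ P i ∧ N.Glued (P i) Q) :
    ∑ i, (S i).card + 1 ≤ max (Fintype.card N.V) 1 := by
  classical
  rcases isEmpty_or_nonempty α with hα | ⟨⟨i₀⟩⟩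
  · simp
  let Φ : (N.V → K) →ₗ[K] ((Σ i, S i) → K) := LinearMap.pi fun q =>
    (LinearMap.proj q.2.1.1.1 : (N.V → K) →ₗ[K] K) - (LinearMap.proj (P q.1).1.1 : (N.V → K) →ₗ[K] K)
  have hZ : (Set.range P ∪ ⋃ i, (S i : Set N.Pl)).Finite :=
    (Set.finite_range P).union (Set.finite_iUnion fun i => (S i).finite_toSet)
  have h1 : ∀ q, Pi.single q 1 ∈ LinearMap.range Φ := by
    rintro ⟨i, Q, hQ⟩
    obtain ⟨c, hc⟩ := N.Nrm_jump p hn hZ Q
    refine ⟨c, funext ?_⟩
    rintro ⟨j, R, hR⟩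
    have h2 := hc (P j) (Or.inl ⟨j, rfl⟩) R (Or.inr (Set.mem_iUnion.mpr ⟨j, hR⟩)) (hS j R hR).2
    have h3 : P j ≠ Q := fun e => by
      have := hP i j (e ▸ (hS i Q hQ).2)
      subst this
      exact (hS i Q hQ).1 e.symm
    rw [if_neg h3, sub_zero] at h2
    refine h2.trans ?_
    rw [Pi.single_apply]
    refine if_congr ⟨fun e => ?_, fun e => congrArg (fun q : Σ i, S i => q.2.1) e⟩ rfl rfl
    subst e
    have := hP i j fun f hf => ((hS i R hQ).2 f hf).trans ((hS j R hR).2 f hf).symm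
    subst this
    rfl
  have h2 : LinearMap.range Φ = ⊤ := eq_top_iff.mpr fun y _ => by
    rw [pi_eq_sum_univ' y]
    exact Submodule.sum_mem _ fun q _ => Submodule.smul_mem _ _ (h1 q)
  have h3 : LinearMap.ker Φ ≠ ⊥ := by
    refine (Submodule.ne_bot_iff _).mpr ⟨fun _ => 1, funext fun q => sub_self _, fun e => ?_⟩
    exact one_ne_zero (congrFun e (P i₀).1.1)
  have h4 := Φ.finrank_range_add_finrank_ker
  have h5 := Submodule.finrank_eq_zero.not.mpr h3
  rw [h2, finrank_top, Module.finrank_fintype_fun_eq_card, Module.finrank_fintype_fun_eq_card,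
    Fintype.card_sigma] at h4
  simp only [Fintype.card_coe] at h4
  omega

end Nrm

end PR0
end

-- merged part: Pool.Agent.Work.MP_da2620_ag.ClsA
section
/-!
# Orders and values at the finite places of a normalisation, approximation, local to global
-/

namespace PR0.Cls

open Polynomial

universe u

variable {K : Type u} [Field K] [IsAlgClosed K] {ι : Type} [Fintype ι] [DecidableEq ι]

theorem approx1 {L : Type u} [Field L] [Algebra K L] [Fact (IsFF K L)] [Nonempty ι] (d : CD K L ι)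
    {S : Set (Place K L)} (hS : S.Finite) (a : Place K L → L)
    (ha : ∀ P ∈ S, d.x ∈ P.1 ∧ a P ∈ P.1) (M : ℕ) : ∃ f ∈ d.reg, ∀ P ∈ S, P.Ge (f - a P) M := by
  classical
  set n : ℕ := 2 * genus K L + hS.toFinset.card * M with hn
  set D : Dv K L := (n : ℤ) • d.inf - ∑ P ∈ hS.toFinset, Finsupp.single P (M : ℤ) with hD
  have h1 : 2 * (genus K L : ℤ) ≤ dg D := by
    rw [hD, dg_sub, dg_smul, d.CD_dg_inf, dg_sum]
    simp only [dg_single, Finset.sum_const, nsmul_eq_mul]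
    have h2 : (1 : ℤ) ≤ Fintype.card ι := by exact_mod_cast Fintype.card_pos
    have h3 : (n : ℤ) * 1 ≤ n * Fintype.card ι := mul_le_mul_of_nonneg_left h2 (by positivity)
    have h4 : (n : ℤ) = 2 * genus K L + hS.toFinset.card * M := by rw [hn]; push_cast; ring
    linarith
  have h2 : ∀ P, P ∉ Set.range d.pl → D P = if P ∈ S then -(M : ℤ) else 0 := fun P hP => by
    rw [hD, Finsupp.sub_apply, Finsupp.smul_apply, d.CD_inf_not hP, Finsupp.finsetSum_apply]
    simp only [Finsupp.single_apply, Finset.sum_ite_eq', Set.Finite.mem_toFinset]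
    split_ifs <;> simp
  have h3 : ∀ P ∈ S, P ∉ Set.range d.pl := fun P hP => by
    rw [← d.poles_eq]
    exact fun h => h (ha P hP).1
  obtain ⟨f, hf⟩ := h1z_of_deg h1 (S.indicator a) (hS.subset fun P hP => by
    by_contra h
    exact hP (by rw [Set.indicator_of_notMem h]; exact zero_mem _))
  have h4 : ∀ P ∈ S, P.Ge (f - a P) M := fun P hP => by
    have := hf P
    rwa [h2 P (h3 P hP), if_pos hP, neg_neg, Set.indicator_of_mem hP] at this
  refine ⟨f, fun P hP => ?_, h4⟩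
  by_cases h : P ∈ S
  · have := add_mem (P.mem_iff.2 ((h4 P h).mono (by positivity))) (ha P h).2
    rwa [sub_add_cancel] at this
  · have := hf P
    rw [h2 P hP, if_neg h, neg_zero, Set.indicator_of_notMem h, sub_zero] at this
    exact P.mem_iff.2 this

variable {A : Subalgebra K (LT ι K)}

/-- The total ring. -/
abbrev W (N : Nrm A) : Type u := ∀ v, (N.C v).L

/-- The coordinate. -/
def xx (N : Nrm A) : W N := fun v => (N.d v).x

variable {N : Nrm A}

/-- Order at least `n`. -/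
def G (Q : N.Pl) (f : W N) (n : ℤ) : Prop := Q.1.2.Ge (f Q.1.1) n

/-- Value. -/
noncomputable def vl (Q : N.Pl) (f : W N) : K := Q.1.2.val (f Q.1.1)

/-- Order. -/
noncomputable def od (Q : N.Pl) (f : W N) : ℤ := Q.1.2.ord (f Q.1.1)

/-- The shifted coordinate. -/
noncomputable def yy (N : Nrm A) (a : K) : W N := xx N - algebraMap K _ a

/-- Ramification index. -/
noncomputable def ee (Q : N.Pl) : ℤ := od Q (yy N (vl Q (xx N)))

section
variable {Q : N.Pl} {f g : W N} {n m : ℤ}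

theorem G.mono (h : G Q f n) (hm : m ≤ n) : G Q f m := Place.Ge.mono h hm
theorem G.add (h : G Q f n) (h' : G Q g n) : G Q (f + g) n := Place.Ge.add h h'
theorem G.sub (h : G Q f n) (h' : G Q g n) : G Q (f - g) n := Place.Ge.sub h h'
theorem G.neg (h : G Q f n) : G Q (-f) n := Place.Ge.neg h
theorem G.smul (c : K) (h : G Q f n) : G Q (c • f) n := Place.Ge.smul c h
theorem G.mul (h : G Q f n) (h' : G Q g m) : G Q (f * g) (n + m) := Place.Ge.mul h h'
theorem G.pow (h : G Q f n) (e : ℕ) : G Q (f ^ e) (e * n) := Place.Ge.pow h e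
theorem G_zero : G Q 0 n := Or.inl rfl
theorem G_of_eq (h : f Q.1.1 = 0) : G Q f n := Or.inl h
theorem G.of_eq (h : G Q f n) (e : g = f) : G Q g n := e ▸ h
theorem G.mul0 (h : G Q f 0) (h' : G Q g n) : G Q (f * g) n := (h.mul h').mono (by omega)
theorem G.mul1 (h : G Q f n) (h' : G Q g 0) : G Q (f * g) n := (h.mul h').mono (by omega)
theorem G_od : G Q f (od Q f) := Or.inr le_rfl

theorem G_sum {α : Type*} (s : Finset α) {F : α → W N} (h : ∀ i ∈ s, G Q (F i) n) :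
    G Q (∑ i ∈ s, F i) n :=
  Finset.sum_induction F (fun f => G Q f n) (fun _ _ => G.add) G_zero h

theorem G.cancel (hg : g Q.1.1 ≠ 0) (h : G Q (g * f) (n + od Q g)) : G Q f n := by
  by_cases hf : f Q.1.1 = 0
  · exact Or.inl hf
  rcases h with h | h
  · exact absurd h (mul_ne_zero hg hf)
  · right
    rw [Pi.mul_apply, Place.ord_mul _ hg hf, od] at h
    omega

theorem mem_top : f ∈ N.top ↔ ∀ Q : N.Pl, G Q f 0 := by
  refine ⟨fun h Q => (Place.mem_iff _).1 (h Q.1.1 trivial Q.1.2 ?_), fun h v _ P hP => ?_⟩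
  · rw [← CD.poles_eq]
    exact fun h => h Q.2
  · rw [← CD.poles_eq] at hP
    exact (Place.mem_iff _).2 (h ⟨⟨v, P⟩, not_not.1 hP⟩)

theorem G_top (h : f ∈ N.top) : G Q f 0 := mem_top.1 h Q
theorem B_top (h : f ∈ N.B) : f ∈ N.top := fun v _ => N.le f h v
theorem G_B (h : f ∈ N.B) : G Q f 0 := G_top (B_top h)
theorem G_C (c : K) : G Q (algebraMap K _ c) 0 := G_top (algebraMap_mem _ c)
theorem G_one : G Q (1 : W N) 0 := G_top (one_mem _)
theorem xx_top : xx N ∈ N.top := fun v _ => (N.d v).x_mem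
theorem yy_top (a : K) : yy N a ∈ N.top := sub_mem xx_top (algebraMap_mem _ a)
theorem aeval_mem {S : Subalgebra K (W N)} (h : f ∈ S) (p : K[X]) : aeval f p ∈ S :=
  Algebra.adjoin_le (Set.singleton_subset_iff.2 h) (aeval_mem_adjoin_singleton K f)

theorem G.mem (h : G Q f 0) : f Q.1.1 ∈ Q.1.2.1 := (Place.mem_iff _).2 h
theorem vl_add (h : G Q f 0) (h' : G Q g 0) : vl Q (f + g) = vl Q f + vl Q g :=
  Place.val_add h.mem h'.mem
theorem vl_mul (h : G Q f 0) (h' : G Q g 0) : vl Q (f * g) = vl Q f * vl Q g :=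
  Place.val_mul h.mem h'.mem
theorem vl_C (c : K) : vl Q (algebraMap K _ c) = c := Place.val_const c
theorem vl_zero : vl Q 0 = 0 := by simpa using vl_C (Q := Q) 0
theorem vl_one : vl Q 1 = 1 := by simpa using vl_C (Q := Q) 1
theorem vl_smul (c : K) (h : G Q f 0) : vl Q (c • f) = c * vl Q f := by
  rw [Algebra.smul_def, vl_mul (G_C c) h, vl_C]
theorem vl_eq {a : K} (h : G Q (f - algebraMap K _ a) 1) : vl Q f = a := Place.val_eq h
theorem G_vl (h : G Q f 0) : G Q (f - algebraMap K _ (vl Q f)) 1 := Place.ge_sub_val h.mem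
theorem vl_eq_zero (h : G Q f 0) : vl Q f = 0 ↔ G Q f 1 := Place.val_eq_zero h.mem
theorem vl_sub (h : G Q f 0) (h' : G Q g 0) : vl Q (f - g) = vl Q f - vl Q g := by
  rw [eq_sub_iff_add_eq, ← vl_add (h.sub h') h', sub_add_cancel]
theorem vl_of_eq (h : f Q.1.1 = 0) : vl Q f = 0 := (vl_eq_zero (G_of_eq h)).2 (G_of_eq h)
theorem C_eq_zero {c : K} (h : G Q (algebraMap K _ c) 1) : c = 0 := by
  rw [← vl_C (Q := Q) c, vl_eq_zero (G_C c)]
  exact h

theorem od_eq (h : G Q f n) (h' : ¬ G Q f (n + 1)) : f Q.1.1 ≠ 0 ∧ od Q f = n := by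
  have h0 : f Q.1.1 ≠ 0 := fun e => h' (Or.inl e)
  have h1 := h.resolve_left h0
  have h2 : ¬ n + 1 ≤ od Q f := fun e => h' (Or.inr e)
  exact ⟨h0, by unfold od at *; omega⟩

theorem od_pow (h : f Q.1.1 ≠ 0) (e : ℕ) : od Q (f ^ e) = e * od Q f := Place.ord_pow _ h e

end

theorem aeval_apply (p : K[X]) (v : N.V) : aeval (xx N) p v = aeval (N.d v).x p :=
  (aeval_algHom_apply (Pi.evalAlgHom K (fun v => (N.C v).L) v) (xx N) p).symm

theorem aeval_ne {p : K[X]} (hp : p ≠ 0) (v : N.V) : aeval (xx N) p v ≠ 0 := by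
  rw [aeval_apply]
  exact fun h => (N.d v).transcendental ⟨p, hp, h⟩

theorem aeval_yy (a : K) : aeval (xx N) (X - C a) = yy N a := by simp [yy]

theorem yy_ne (a : K) (v : N.V) : yy N a v ≠ 0 := by
  rw [← aeval_yy]
  exact aeval_ne (X_sub_C_ne_zero a) v

theorem G_yy {Q : N.Pl} {a : K} (h : vl Q (xx N) = a) : G Q (yy N a) (ee Q) := h ▸ G_od

theorem ee_pos (Q : N.Pl) : 1 ≤ ee Q := (G_vl (G_top xx_top)).resolve_left (yy_ne _ _)

theorem G_aeval {Q : N.Pl} {a : K} (h : vl Q (xx N) = a) (p : K[X]) :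
    G Q (aeval (xx N) p - algebraMap K _ (p.eval a)) (ee Q) := by
  obtain ⟨q, hq⟩ := X_sub_C_dvd_sub_C_eval (p := p) (a := a)
  refine ((G_yy h).mul1 (G_top (aeval_mem xx_top q))).of_eq ?_
  rw [← aeval_yy, ← map_mul, ← hq, map_sub, aeval_C]

theorem finite_G {g : W N} (hg : ∀ v, g v ≠ 0) : {Q : N.Pl | G Q g 1}.Finite := by
  refine Set.Finite.of_finite_image (f := Subtype.val) ?_ Subtype.val_injective.injOn
  refine (Set.finite_iUnion fun v => (finite_ord (K := K) (hg v)).image (Sigma.mk v)).subset ?_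
  rintro _ ⟨Q, hQ, rfl⟩
  refine Set.mem_iUnion.2 ⟨Q.1.1, Q.1.2, fun e => ?_, rfl⟩
  have := hQ.resolve_left (hg _)
  omega

theorem bound {Z : Set N.Pl} (hZ : Z.Finite) (φ : N.Pl → ℤ) : ∃ M : ℕ, ∀ Q ∈ Z, φ Q ≤ M := by
  obtain ⟨M, hM⟩ := (hZ.image φ).bddAbove
  exact ⟨M.toNat, fun Q hQ => (hM ⟨Q, hQ, rfl⟩).trans (Int.self_le_toNat M)⟩

theorem approx {Z : Set N.Pl} (hZ : Z.Finite) (g : N.Pl → W N) (hg : ∀ Q ∈ Z, G Q (g Q) 0) (M : ℕ) :
    ∃ f ∈ N.top, ∀ Q ∈ Z, G Q (f - g Q) M := by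
  classical
  have h : ∀ v, ∃ f ∈ (N.d v).reg, ∀ (P : Place K (N.C v).L) (h : (N.d v).x ∈ P.1),
      (⟨⟨v, P⟩, h⟩ : N.Pl) ∈ Z → P.Ge (f - g ⟨⟨v, P⟩, h⟩ v) M := fun v => by
    obtain ⟨f, h1, h2⟩ := approx1 (N.d v)
      (S := (fun P => (⟨v, P⟩ : Σ v, Place K (N.C v).L)) ⁻¹' (Subtype.val '' Z))
      ((hZ.image _).preimage (sigma_mk_injective (β := fun v => Place K (N.C v).L)).injOn)
      (fun P => if h : (N.d v).x ∈ P.1 then g ⟨⟨v, P⟩, h⟩ v else 0) (by
        rintro P ⟨⟨Q, h⟩, hQ, e⟩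
        obtain rfl : Q = ⟨v, P⟩ := e
        exact ⟨h, by rw [dif_pos h]; exact (hg _ hQ).mem⟩) M
    refine ⟨f, h1, fun P h hP => ?_⟩
    have := h2 P ⟨_, hP, rfl⟩
    rwa [dif_pos h] at this
  choose f h1 h2 using h
  exact ⟨f, fun v _ => h1 v, fun Q hQ => h2 Q.1.1 Q.1.2 Q.2 hQ⟩

/-- prescribed value at one place, zeros at others -/
theorem approx_one {T : Set N.Pl} (hT : T.Finite) (P : N.Pl) {g : W N} (hg : G P g 0) (M : ℕ) :
    ∃ f ∈ N.top, G P (f - g) M ∧ ∀ Q ∈ T, Q ≠ P → G Q f M := by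
  classical
  obtain ⟨f, h1, h2⟩ := approx (hT.insert P) (fun Q => if Q = P then g else 0) (fun Q _ => by
    split_ifs with h
    · exact h ▸ hg
    · exact G_zero) M
  refine ⟨f, h1, by simpa using h2 P (Set.mem_insert _ _), fun Q hQ h => ?_⟩
  simpa [h] using h2 Q (Set.mem_insert_of_mem _ hQ)

theorem exists_unif {T : Set N.Pl} (hT : T.Finite) (P : N.Pl) (M : ℕ) :
    ∃ u ∈ N.top, G P u 1 ∧ ¬ G P u 2 ∧ ∀ Q ∈ T, Q ≠ P → G Q u M := by
  have h0 : od P (Pi.single P.1.1 P.1.2.unif) = 1 := by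
    rw [od, Pi.single_eq_same, Place.ord_unif]
  have h1 : G P (Pi.single P.1.1 P.1.2.unif) 1 := h0 ▸ G_od
  obtain ⟨u, h2, h3, h4⟩ := approx_one hT P (h1.mono zero_le_one) (M + 2)
  refine ⟨u, h2, ((h3.mono (by omega)).add h1).of_eq (sub_add_cancel _ _).symm, fun h => ?_,
    fun Q hQ h => (h4 Q hQ h).mono (by omega)⟩
  rcases (h.sub (h3.mono (by omega))).of_eq (sub_sub_cancel _ _).symm with h5 | h5
  · rw [Pi.single_eq_same] at h5
    exact Place.unif_ne_zero _ h5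
  · unfold od at h0
    omega

theorem Gl.refl (P : N.Pl) : N.Glued P P := fun _ _ => rfl
theorem Gl.symm {P Q : N.Pl} (h : N.Glued P Q) : N.Glued Q P := fun f hf => (h f hf).symm
theorem Gl.trans {P Q R : N.Pl} (h : N.Glued P Q) (h' : N.Glued Q R) : N.Glued P R :=
  fun f hf => (h f hf).trans (h' f hf)
theorem Gl.vl {P Q : N.Pl} (h : N.Glued P Q) {f : W N} (hf : f ∈ N.B) : vl Q f = vl P f :=
  (h f hf).symm

theorem finite_gl (hx : xx N ∈ N.B) (P : N.Pl) : {Q | N.Glued P Q}.Finite :=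
  (finite_G (yy_ne (vl P (xx N)))).subset fun Q hQ => (G_yy (Gl.vl hQ hx)).mono (ee_pos Q)

theorem sep {U : Set N.Pl} (hU : U.Finite) (P : N.Pl) (M : ℕ) : ∃ ε ∈ N.B,
    (∀ Q, N.Glued P Q → G Q (1 - ε) M) ∧ ∀ Q ∈ U, ¬ N.Glued P Q → G Q ε M := by
  have h1 : ∃ b ∈ N.B, vl P b = 1 ∧ ∀ Q ∈ U, ¬ N.Glued P Q → G Q b 1 := by
    induction U, hU using Set.Finite.induction_on with
    | empty => exact ⟨1, one_mem _, vl_one, fun _ h => h.elim⟩
    | @insert R U _ _ ih =>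
      obtain ⟨b, h1, h2, h3⟩ := ih
      by_cases hR : N.Glued P R
      · refine ⟨b, h1, h2, ?_⟩
        rintro Q (rfl | hQ) h
        exacts [absurd hR h, h3 Q hQ h]
      obtain ⟨f, hf0⟩ := not_forall.1 hR
      obtain ⟨hf, hne⟩ := Classical.not_imp.1 hf0
      clear hf0
      have h4 : vl P f - vl R f ≠ 0 := sub_ne_zero.2 hne
      have h5 : f - algebraMap K _ (vl R f) ∈ N.B := sub_mem hf (algebraMap_mem _ _)
      refine ⟨(vl P f - vl R f)⁻¹ • ((f - algebraMap K _ (vl R f)) * b),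
        N.B.smul_mem (mul_mem h5 h1) _, ?_, ?_⟩
      · rw [vl_smul _ (G_B (mul_mem h5 h1)), vl_mul (G_B h5) (G_B h1), vl_sub (G_B hf) (G_C _), vl_C,
          h2, mul_one, inv_mul_cancel₀ h4]
      · rintro Q (rfl | hQ) h
        exacts [((G_vl (G_B hf)).mul1 (G_B h1)).smul _, ((G_B h5).mul0 (h3 Q hQ h)).smul _]
  obtain ⟨b, h1, h2, h3⟩ := h1
  have h4 : 1 - b ^ (M + 1) ∈ N.B := sub_mem (one_mem _) (pow_mem h1 _)
  refine ⟨1 - (1 - b ^ (M + 1)) ^ M, sub_mem (one_mem _) (pow_mem h4 _), fun Q hQ => ?_,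
    fun Q hQ h => ?_⟩
  · have h5 : G Q (1 - b) 1 := by
      have := (G_vl (Q := Q) (G_B h1)).neg
      rwa [Gl.vl hQ h1, h2, map_one, neg_sub] at this
    have h6 : G Q (1 - b ^ (M + 1)) 1 :=
      (h5.mul1 (G_B (sum_mem fun i _ => pow_mem h1 i))).of_eq (mul_neg_geom_sum b (M + 1)).symm
    exact ((h6.pow M).mono (by omega)).of_eq (sub_sub_cancel _ _)
  · refine ((((h3 Q hQ h).pow (M + 1)).mono (by omega)).mul1
      (G_B (sum_mem (t := Finset.range M) fun i _ => pow_mem h4 i))).of_eq ?_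
    rw [← mul_neg_geom_sum, sub_sub_cancel]

/-- High vanishing on `T` forces membership in `B`. -/
def Cd (T : Set N.Pl) (M : ℕ) : Prop := ∀ f ∈ N.top, (∀ Q ∈ T, G Q f M) → f ∈ N.B

theorem exists_s (N : Nrm A) : ∃ s ∈ N.top, (∀ v, s v ≠ 0) ∧ ∀ f ∈ N.top, s * f ∈ N.B := by
  obtain ⟨s, h1, h2⟩ := N.cond
  refine ⟨aeval (xx N) s, aeval_mem xx_top s, aeval_ne h1.ne_zero, fun f hf => ?_⟩
  convert h2 f fun v => hf v trivial using 1
  exact funext fun v => by rw [Pi.mul_apply, aeval_apply]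

theorem exists_cd (N : Nrm A) : ∃ (T : Set N.Pl) (M : ℕ), T.Finite ∧ Cd T M := by
  obtain ⟨s, h1, h2, h3⟩ := exists_s N
  obtain ⟨M, hM⟩ := bound (finite_G h2) fun Q => od Q s
  refine ⟨_, M, finite_G h2, fun f hf h => ?_⟩
  have h4 : s * (f / s) = f := funext fun v => mul_div_cancel₀ _ (h2 v)
  refine h4 ▸ h3 _ (mem_top.2 fun Q => G.cancel (h2 _) ?_)
  rw [h4, zero_add]
  by_cases hQ : G Q s 1
  · exact (h Q hQ).mono (hM Q hQ)
  · rw [(od_eq (G_top h1) hQ).2]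
    exact G_top hf

theorem Cd.glob {T : Set N.Pl} {M : ℕ} (h : Cd T M) (hT : T.Finite) {f : W N} (hf : f ∈ N.top)
    (hl : ∀ P ∈ T, ∃ b ∈ N.B, ∀ Q ∈ T, N.Glued P Q → G Q (f - b) M) : f ∈ N.B := by
  have h1 : ∀ U : Set N.Pl, U.Finite → U ⊆ T → ∃ b ∈ N.B, ∀ Q ∈ U, G Q (f - b) M := by
    intro U hU
    induction U, hU using Set.Finite.induction_on with
    | empty => exact fun _ => ⟨0, zero_mem _, fun _ h => h.elim⟩
    | @insert P U _ hU ih =>
      intro hs
      obtain ⟨b, h1, h2⟩ := ih ((Set.subset_insert _ _).trans hs)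
      obtain ⟨b', h3, h4⟩ := hl P (hs (Set.mem_insert _ _))
      obtain ⟨ε, h5, h6, h7⟩ := sep hU P M
      refine ⟨b + ε * (b' - b), add_mem h1 (mul_mem h5 (sub_mem h3 h1)), fun Q hQ => ?_⟩
      by_cases hg : N.Glued P Q
      · exact ((h4 Q (hs hQ) hg).add ((h6 Q hg).mul1 (G_B (sub_mem h3 h1)))).of_eq (by ring)
      · have h8 : Q ∈ U := hQ.resolve_left fun e => hg (e ▸ Gl.refl _)
        exact ((h2 Q h8).sub ((h7 Q h8 hg).mul1 (G_B (sub_mem h3 h1)))).of_eq (by ring)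
  obtain ⟨b, h2, h3⟩ := h1 T hT le_rfl
  simpa using add_mem (h _ (sub_mem hf (B_top h2)) h3) h2

theorem Cd.multi {T : Set N.Pl} {M : ℕ} (h : Cd T M) (hT : T.Finite) {P Q : N.Pl} (hne : Q ≠ P)
    (hg : N.Glued P Q) : P ∈ T := by
  by_contra hP
  obtain ⟨f, h1, h2, h3⟩ := approx_one (hT.insert Q) P G_one (M + 1)
  have h4 := Gl.vl hg (h f h1 fun R hR =>
    (h3 R (Set.mem_insert_of_mem _ hR) fun e => hP (e ▸ hR)).mono (by omega))
  rw [(vl_eq_zero (G_top h1)).2 ((h3 Q (Set.mem_insert _ _) hne).mono (by omega)),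
    vl_eq (a := 1) (by rw [map_one]; exact h2.mono (by omega))] at h4
  exact zero_ne_one h4

/-- expansion in a uniformiser lying in `B` -/
theorem loc_all {P : N.Pl} {w : W N} (hw : w ∈ N.B) (h : ¬ G P (w - algebraMap K _ (vl P w)) 2)
    {f : W N} (hf : G P f 0) (M : ℕ) : ∃ b ∈ N.B, G P (f - b) M := by
  have h1 : w - algebraMap K _ (vl P w) ∈ N.B := sub_mem hw (algebraMap_mem _ _)
  have h2 := G_vl (Q := P) (G_B hw)
  have h3 := od_eq h2 h
  generalize w - algebraMap K _ (vl P w) = u at h1 h2 h3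
  induction M with
  | zero => exact ⟨0, zero_mem _, by simpa using hf⟩
  | succ M ih =>
    obtain ⟨b, h4, h5⟩ := ih
    have h6 : (u ^ M) P.1.1 ≠ 0 := pow_ne_zero _ h3.1
    have h7 : (u ^ M * ((f - b) / u ^ M)) P.1.1 = (f - b) P.1.1 := mul_div_cancel₀ _ h6
    have h8 : G P ((f - b) / u ^ M) 0 := G.cancel h6 (by
      rw [od_pow h3.1, h3.2, G, h7, zero_add, mul_one]
      exact h5)
    refine ⟨b + u ^ M * algebraMap K _ (vl P ((f - b) / u ^ M)),
      add_mem h4 (mul_mem (pow_mem h1 _) (algebraMap_mem _ _)), ?_⟩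
    have h9 := (h2.pow M).mul (G_vl h8)
    rw [mul_sub, G, Pi.sub_apply, h7, mul_one] at h9
    rw [← sub_sub, Nat.cast_succ]
    exact h9

theorem nonsing {T : Set N.Pl} (hT : T.Finite) {P : N.Pl} {M : ℕ}
    (H : ∀ f ∈ N.top, (∀ Q ∈ T, Q ≠ P → G Q f M) → f ∈ N.B) :
    ∃ u ∈ N.B, ∃ s ∈ N.B, vl P u = 0 ∧ vl P s ≠ 0 ∧
      ∀ f ∈ N.B, vl P f = 0 → ∃ g ∈ N.B, s * f = u * g := by
  obtain ⟨u, h1, h2, h3, h4⟩ := exists_unif hT P M
  have h5 := od_eq h2 h3
  set u' : W N := Function.update 1 P.1.1 (u P.1.1) with hu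
  have h6 : ∀ v, u' v ≠ 0 := fun v => by
    by_cases h : v = P.1.1
    · rw [h, hu, Function.update_self]
      exact h5.1
    · rw [hu, Function.update_of_ne h]
      exact one_ne_zero
  have h7 : u' ∈ N.top := fun v _ => by
    by_cases h : v = P.1.1
    · rw [h, hu, Function.update_self]
      exact h1 _ trivial
    · rw [hu, Function.update_of_ne h]
      exact (N.d v).reg.one_mem
  have h8 : od P u' = 1 := by rw [← h5.2, od, hu, Function.update_self, od]
  obtain ⟨M', hM⟩ := bound (hT.union (finite_G h6)) fun Q => od Q u'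
  obtain ⟨s, h9, h10, h11⟩ := approx_one (hT.union (finite_G h6)) P G_one (M + M' + 1)
  have h12 : (Pi.single P.1.1 1 : W N) ∈ N.top := fun v _ => by
    by_cases h : v = P.1.1
    · rw [h, Pi.single_eq_same]
      exact (N.d _).reg.one_mem
    · rw [Pi.single_eq_of_ne h]
      exact (N.d v).reg.zero_mem
  have h13 : s * Pi.single P.1.1 1 ∈ N.top := mul_mem h9 h12
  refine ⟨u, H u h1 h4, s * Pi.single P.1.1 1, H _ h13 fun Q hQ h =>
    ((h11 Q (Or.inl hQ) h).mono (by omega)).mul1 (G_top h12), (vl_eq_zero (G_top h1)).2 h2, ?_,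
    fun f hf h0 => ⟨s * Pi.single P.1.1 1 * f / u', ?_, funext fun v => ?_⟩⟩
  · rw [vl_mul (G_top h9) (G_top h12), vl_eq (a := 1) (by rw [map_one]; exact h10.mono (by omega)),
      vl, Pi.single_eq_same, one_mul, ← map_one (algebraMap K (N.C P.1.1).L), Place.val_const]
    exact one_ne_zero
  · have h14 : u' * (s * Pi.single P.1.1 1 * f / u') = s * Pi.single P.1.1 1 * f :=
      funext fun v => mul_div_cancel₀ _ (h6 v)
    have h15 : ∀ Q ∈ T ∪ {Q | G Q u' 1}, Q ≠ P → G Q (s * Pi.single P.1.1 1 * f / u') M :=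
      fun Q hQ h => G.cancel (h6 _) (by
        rw [h14]
        have := hM Q hQ
        exact (((h11 Q hQ h).mono (by omega)).mul1 (G_top h12)).mul1 (G_B hf))
    refine H _ (mem_top.2 fun Q => ?_) fun Q hQ h => h15 Q (Or.inl hQ) h
    by_cases h : Q = P
    · refine G.cancel (h6 _) ?_
      rw [h14, h, h8]
      exact (G_top h13).mul ((vl_eq_zero (G_B hf)).1 h0)
    by_cases h' : G Q u' 1
    · exact (h15 Q (Or.inr h') h).mono (by omega)
    · refine G.cancel (h6 _) ?_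
      rw [h14, (od_eq (G_top h7) h').2]
      exact G_top (mul_mem h13 (B_top hf))
  · by_cases h : v = P.1.1
    · have h14 : u' v = u v := by rw [h, hu, Function.update_self]
      rw [Pi.mul_apply u, Pi.div_apply, h14, mul_div_cancel₀ _ (h14 ▸ h6 v)]
    · simp [Pi.single_eq_of_ne h]

/-- a point with one place and a uniformiser in `B` is not singular -/
theorem nonsing_of_unif {P : N.Pl} (hP : ∀ Q, N.Glued P Q → Q = P) {w : W N} (hw : w ∈ N.B)
    (h : ¬ G P (w - algebraMap K _ (vl P w)) 2) :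
    ∃ u ∈ N.B, ∃ s ∈ N.B, vl P u = 0 ∧ vl P s ≠ 0 ∧
      ∀ f ∈ N.B, vl P f = 0 → ∃ g ∈ N.B, s * f = u * g := by
  obtain ⟨T, M, hT, hc⟩ := exists_cd N
  refine nonsing hT (M := M) fun f hf h0 => hc.glob hT hf fun R _ => ?_
  by_cases hR : R = P
  · obtain ⟨b, h1, h2⟩ := loc_all hw h (G_top hf) M
    exact ⟨b, h1, fun Q _ hQ => hP Q (hR ▸ hQ) ▸ h2⟩
  · refine ⟨0, zero_mem _, fun Q hQ hg => ?_⟩
    rw [sub_zero]
    exact h0 Q hQ fun e => hR (hP R (Gl.symm (e ▸ hg)))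

end PR0.Cls
end
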