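import Pool.Agent.Work.MP_da2620_ag.BC

/-!
# Combs: a smooth core with smooth tails attached at distinct points
-/

namespace PR0

universe u

/-- Bundled function fields. -/
structure FFd (K : Type u) [Field K] where
  L : Type u
  [fld : Field L]
  [alg : Algebra K L]
  [ff : Fact (IsFF K L)]

attribute [instance] FFd.fld FFd.alg FFd.ff

/-- A core `C` with tails `E j`, the point `a j` of the core glued to the point `b j` of the tail. -/
structure Comb (T : Type) (K : Type u) [Field K] where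
  C : FFd K
  E : T → FFd K
  a : T → Place K C.L
  b : ∀ j, Place K (E j).L
  inj : Function.Injective a

variable {K K' : Type u} [Field K] [Field K'] {T T' : Type} {ι : Type}

/-- A smooth curve as a comb. -/
def FFd.sm (C : FFd K) : Comb Empty K := ⟨C, Empty.elim, Empty.elim, fun j => j.elim, fun j => j.elim⟩

theorem Comb_mem {L : Type u} [Field L] [Algebra K L] [IsAlgClosed K] [Fact (IsFF K L)] [Fintype ι]
    [DecidableEq ι] (d : CD K L ι) {P : Place K L} (hx : d.x ∈ P.1) {f : L} (hf : f ∈ d.reg) :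
    f ∈ P.1 := hf P fun h => (d.poles_eq ▸ h : P ∈ poles K d.x) hx

theorem Comb_pc {L : Type u} [Field L] [Algebra K L] (d : CD K L ι) (f : L) (r : K) (μ : ι × ℕ) :
    pc (d.exT (f + algebraMap K L r)) μ = pc (d.exT f) μ := by
  rw [pc, pc, d.exT_apply, d.exT_apply, map_add, AlgHom.commutes, LS.cf_add, LS.cf_algebraMap,
    if_neg (by omega), add_zero]

theorem Comb_pc0 {L : Type u} [Field L] [Algebra K L] (d : CD K L ι) (μ : ι × ℕ) :
    pc (d.exT 0) μ = 0 := by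
  rw [map_zero]
  rfl

theorem Comb_pow (p : ℕ) [Fact p.Prime] [CharP K p] {A : Subalgebra K (LT ι K)} {F : LT ι K}
    {m n : ℕ} (h : m ≤ n) (ha : ∃ a ∈ A, Pole (F ^ p ^ m - a) 0) :
    ∃ a ∈ A, Pole (F ^ p ^ n - a) 0 := by
  obtain ⟨a, ha, h1⟩ := ha
  obtain ⟨r, rfl⟩ := Nat.exists_eq_add_of_le h
  refine ⟨a ^ p ^ r, pow_mem ha _, fun i => ?_⟩
  have := (h1 i).pow (p ^ r)
  rwa [Pi.sub_apply, sub_pow_char_pow, neg_zero, mul_zero, Pi.pow_apply, ← pow_mul,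
    ← pow_add, ← neg_zero] at this

namespace Comb

/-- Adding tails. -/
def add (X : Comb T K) (E : T' → FFd K) (a : T' → Place K X.C.L) (b : ∀ j, Place K (E j).L)
    (h : Function.Injective (Sum.elim X.a a)) : Comb (T ⊕ T') K where
  C := X.C
  E := Sum.elim X.E E
  a := Sum.elim X.a a
  b j := match j with
    | .inl j => X.b j
    | .inr j => b j
  inj := h

/-- Arithmetic genus. -/
noncomputable def genus [Fintype T] (X : Comb T K) : ℕ :=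
  PR0.genus K X.C.L + ∑ j, PR0.genus K (X.E j).L

/-- All components have nilpotent Frobenius. -/
def HW0 (X : Comb T K) (p : ℕ) : Prop := PR0.HW0 K X.C.L p ∧ ∀ j, PR0.HW0 K (X.E j).L p

/-- A function with simple poles on a comb. -/
structure CC (X : Comb T K) (ι : Type) where
  ι₀ : Type
  ιt : T → Type
  [f₀ : Fintype ι₀]
  [e₀ : DecidableEq ι₀]
  [n₀ : Nonempty ι₀]
  [ft : ∀ j, Fintype (ιt j)]
  [et : ∀ j, DecidableEq (ιt j)]
  [nt : ∀ j, Nonempty (ιt j)]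
  e : ι₀ ⊕ (Σ j, ιt j) ≃ ι
  d₀ : CD K X.C.L ι₀
  dt : ∀ j, CD K (X.E j).L (ιt j)
  ha : ∀ j, d₀.x ∈ (X.a j).1
  hb : ∀ j, (dt j).x ∈ (X.b j).1
  hv : ∀ j, (X.a j).val d₀.x = (X.b j).val (dt j).x

attribute [instance] CC.f₀ CC.e₀ CC.n₀ CC.ft CC.et CC.nt

/-- Functions on the components. -/
abbrev Fn (X : Comb T K) := X.C.L × ∀ j, (X.E j).L

/-- Functions regular at the nodes. -/
def node [IsAlgClosed K] (X : Comb T K) : Subalgebra K X.Fn where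
  carrier := {f | ∀ j, f.1 ∈ (X.a j).1 ∧ f.2 j ∈ (X.b j).1 ∧ (X.a j).val f.1 = (X.b j).val (f.2 j)}
  mul_mem' := fun hf hg j => ⟨mul_mem (hf j).1 (hg j).1, mul_mem (hf j).2.1 (hg j).2.1,
    ((X.a j).val_mul (hf j).1 (hg j).1).trans ((congrArg₂ (· * ·) (hf j).2.2 (hg j).2.2).trans
      ((X.b j).val_mul (hf j).2.1 (hg j).2.1).symm)⟩
  add_mem' := fun hf hg j => ⟨add_mem (hf j).1 (hg j).1, add_mem (hf j).2.1 (hg j).2.1,
    ((X.a j).val_add (hf j).1 (hg j).1).trans ((congrArg₂ (· + ·) (hf j).2.2 (hg j).2.2).trans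
      ((X.b j).val_add (hf j).2.1 (hg j).2.1).symm)⟩
  algebraMap_mem' := fun r j => ⟨(X.a j).2.2 r, (X.b j).2.2 r,
    ((X.a j).val_const r).trans ((X.b j).val_const r).symm⟩

namespace CC

variable {X : Comb T K} (c : X.CC ι)

/-- The expansions. -/
noncomputable def exT : X.Fn →ₐ[K] LT ι K :=
  Pi.algHom K _ fun i => match c.e.symm i with
    | .inl i => (c.d₀.ex i).comp (AlgHom.fst K _ _)
    | .inr ⟨j, i⟩ => ((c.dt j).ex i).comp ((Pi.evalAlgHom K _ j).comp (AlgHom.snd K _ _))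

/-- The function. -/
def x : X.Fn := (c.d₀.x, fun j => (c.dt j).x)

/-- The affine ring of the normalisation. -/
def nrm : Subalgebra K X.Fn := c.d₀.reg.prod (Subalgebra.pi Set.univ fun j => (c.dt j).reg)

/-- The affine ring. -/
def reg [IsAlgClosed K] : Subalgebra K X.Fn := c.nrm ⊓ X.node

/-- The chart point. -/
noncomputable def alg [IsAlgClosed K] : Subalgebra K (LT ι K) := c.reg.map c.exT

/-- Splitting a set of polar monomials along the components. -/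
def Split (J : Finset (ι × ℕ)) (J₀ : Finset (c.ι₀ × ℕ)) (Jt : ∀ j, Finset (c.ιt j × ℕ)) : Prop :=
  (∀ μ, μ ∈ J₀ ↔ (c.e (.inl μ.1), μ.2) ∈ J) ∧ ∀ j μ, μ ∈ Jt j ↔ (c.e (.inr ⟨j, μ.1⟩), μ.2) ∈ J

theorem Comb_ind {P : ι → Prop} (h₀ : ∀ i, P (c.e (.inl i))) (ht : ∀ j i, P (c.e (.inr ⟨j, i⟩)))
    (i : ι) : P i := by
  obtain ⟨i | ⟨j, i⟩, rfl⟩ := c.e.surjective i
  exacts [h₀ i, ht j i]

/-- The polar monomials of the components. -/
def Comb_emb : (c.ι₀ × ℕ) ⊕ (Σ j, c.ιt j × ℕ) ↪ ι × ℕ where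
  toFun := Sum.elim (fun μ => (c.e (.inl μ.1), μ.2)) fun μ => (c.e (.inr ⟨μ.1, μ.2.1⟩), μ.2.2)
  inj' := by
    rintro (⟨i, n⟩ | ⟨j, i, n⟩) (⟨i', n'⟩ | ⟨j', i', n'⟩) h <;>
      simp only [Sum.elim_inl, Sum.elim_inr, Prod.mk.injEq, c.e.injective.eq_iff, Sum.inl.injEq,
        Sum.inr.injEq, reduceCtorEq, false_and] at h
    · rw [h.1, h.2]
    · obtain ⟨h, rfl⟩ := h
      cases h
      rfl

theorem Comb_split [Fintype T] (J₀ : Finset (c.ι₀ × ℕ)) (Jt : ∀ j, Finset (c.ιt j × ℕ)) :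
    c.Split ((J₀.disjSum (Finset.univ.sigma Jt)).map c.Comb_emb) J₀ Jt :=
  ⟨fun μ => Finset.inl_mem_disjSum.symm.trans (Finset.mem_map' c.Comb_emb (a := .inl μ)).symm,
    fun j μ => Iff.trans (by simp) (Finset.mem_map' c.Comb_emb (a := .inr ⟨j, μ⟩)).symm⟩

theorem exT_inl (f : X.Fn) (i : c.ι₀) : c.exT f (c.e (.inl i)) = c.d₀.ex i f.1 := by
  simp only [exT, AlgHom.pi_apply, Equiv.symm_apply_apply]
  rfl
theorem exT_inr (f : X.Fn) (j : T) (i : c.ιt j) :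
    c.exT f (c.e (.inr ⟨j, i⟩)) = (c.dt j).ex i (f.2 j) := by
  simp only [exT, AlgHom.pi_apply, Equiv.symm_apply_apply]
  rfl
theorem exT_x : c.exT c.x = xx ι K := by
  funext i
  obtain ⟨i | ⟨j, i⟩, rfl⟩ := c.e.surjective i
  · exact (c.exT_inl _ i).trans (c.d₀.ex_x i)
  · exact (c.exT_inr _ j i).trans ((c.dt j).ex_x i)
theorem mem_nrm {f : X.Fn} : f ∈ c.nrm ↔ f.1 ∈ c.d₀.reg ∧ ∀ j, f.2 j ∈ (c.dt j).reg := and_congr_right fun _ => forall_congr' fun j => imp_iff_right (Set.mem_univ j)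

variable [IsAlgClosed K] [Fintype T] [Fintype ι] [DecidableEq ι]

theorem mem_reg {f : X.Fn} : f ∈ c.reg ↔ f.1 ∈ c.d₀.reg ∧ (∀ j, f.2 j ∈ (c.dt j).reg) ∧
    ∀ j, (X.a j).val f.1 = (X.b j).val (f.2 j) := by
  refine ⟨fun h => ⟨(c.mem_nrm.1 h.1).1, (c.mem_nrm.1 h.1).2, fun j => (h.2 j).2.2⟩, fun h =>
    ⟨c.mem_nrm.2 ⟨h.1, h.2.1⟩, fun j => ⟨Comb_mem c.d₀ (c.ha j) h.1,
      Comb_mem (c.dt j) (c.hb j) (h.2.1 j), h.2.2 j⟩⟩⟩
theorem exT_injective : Function.Injective c.exT := fun f g h => by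
  refine Prod.ext (c.d₀.exT_injective (funext fun i => ?_))
    (funext fun j => (c.dt j).exT_injective (funext fun i => ?_))
  · exact (c.exT_inl f i).symm.trans ((congrFun h _).trans (c.exT_inl g i))
  · exact (c.exT_inr f j i).symm.trans ((congrFun h _).trans (c.exT_inr g j i))
theorem x_mem : c.x ∈ c.reg := c.mem_reg.2 ⟨c.d₀.x_mem, fun j => (c.dt j).x_mem, c.hv⟩
theorem Comb_glue {f : X.C.L} (hf : f ∈ c.d₀.reg) {g : ∀ j, (X.E j).L}
    (hg : ∀ j, g j ∈ (c.dt j).reg) :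
    ∃ κ : T → K, ((f, fun j => g j + algebraMap K _ (κ j)) : X.Fn) ∈ c.reg := by
  refine ⟨fun j => (X.a j).val f - (X.b j).val (g j), c.mem_reg.2 ⟨hf, fun j =>
    add_mem (hg j) (Subalgebra.algebraMap_mem _ _), fun j => ?_⟩⟩
  rw [(X.b j).val_add (Comb_mem (c.dt j) (c.hb j) (hg j)) ((X.b j).2.2 _), Place.val_const,
    add_sub_cancel]

omit [IsAlgClosed K] [Fintype T] [Fintype ι] [DecidableEq ι] in
theorem Comb_pcl (f : X.Fn) (i : c.ι₀) (n : ℕ) :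
    pc (c.exT f) (c.e (.inl i), n) = pc (c.d₀.exT f.1) (i, n) := by
  rw [pc, c.exT_inl]
  rfl

omit [IsAlgClosed K] [Fintype T] [Fintype ι] [DecidableEq ι] in
theorem Comb_pcr (f : X.Fn) (j : T) (i : c.ιt j) (n : ℕ) :
    pc (c.exT f) (c.e (.inr ⟨j, i⟩), n) = pc ((c.dt j).exT (f.2 j)) (i, n) := by
  rw [pc, c.exT_inr]
  rfl

/-- extension of a function on the core by constants -/
theorem Comb_ext0 {f : X.C.L} (hf : f ∈ c.d₀.reg) : ∃ F ∈ c.reg, F.1 = f ∧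
    ∀ j i n, pc (c.exT F) (c.e (.inr ⟨j, i⟩), n) = 0 := by
  obtain ⟨κ, h⟩ := c.Comb_glue hf (g := 0) fun j => zero_mem _
  exact ⟨_, h, rfl, fun j i n => by rw [Comb_pcr, Comb_pc, Pi.zero_apply, Comb_pc0]⟩

/-- extension of a function on a tail by constants -/
theorem Comb_ext1 {j : T} {g : (X.E j).L} (hg : g ∈ (c.dt j).reg) : ∃ F ∈ c.reg, ∃ r : K,
    F.2 j = g + algebraMap K _ r ∧ (∀ i n, pc (c.exT F) (c.e (.inl i), n) = 0) ∧
    ∀ j', j' ≠ j → ∀ i n, pc (c.exT F) (c.e (.inr ⟨j', i⟩), n) = 0 := by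
  classical
  obtain ⟨κ, h⟩ := c.Comb_glue (zero_mem _) (g := Pi.single j g) fun j' => by
    by_cases e : j' = j
    · subst e
      rwa [Pi.single_eq_same]
    · rw [Pi.single_eq_of_ne e]
      exact zero_mem _
  exact ⟨_, h, κ j, by simp, fun i n => by rw [Comb_pcl, Comb_pc0],
    fun j' e i n => by rw [Comb_pcr, Comb_pc, Pi.single_eq_of_ne e, Comb_pc0]⟩

theorem Comb_iff {J : Finset (ι × ℕ)} {J₀ : Finset (c.ι₀ × ℕ)} {Jt : ∀ j, Finset (c.ιt j × ℕ)}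
    (h : c.Split J J₀ Jt) :
    IsChart J c.alg ↔ IsChart J₀ c.d₀.alg ∧ ∀ j, IsChart (Jt j) (c.dt j).alg := by
  refine ⟨fun H => ⟨⟨⟨_, c.d₀.x_mem, c.d₀.exT_x⟩, ?_, fun μ hμ => ?_⟩,
    fun j => ⟨⟨_, (c.dt j).x_mem, (c.dt j).exT_x⟩, ?_, fun μ hμ => ?_⟩⟩,
    fun ⟨H₀, Ht⟩ => ⟨⟨_, c.x_mem, c.exT_x⟩, ?_, fun ⟨i, n⟩ => ?_⟩⟩
  · rintro _ ⟨f, hf, rfl⟩ h1
    obtain ⟨F, hF, rfl, h2⟩ := c.Comb_ext0 hf
    obtain ⟨r, hr⟩ := H.inj _ ⟨F, hF, rfl⟩ fun ⟨i, n⟩ => c.Comb_ind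
      (P := fun i => (i, n) ∉ J → pc (c.exT F) (i, n) = 0)
      (fun i hi => (c.Comb_pcl F i n).trans (h1 _ (mt (h.1 (i, n)).1 hi))) (fun j i _ => h2 j i n) i
    exact ⟨r, funext fun i => (c.exT_inl F i).symm.trans (congrFun hr _)⟩
  · obtain ⟨_, ⟨F, hF, rfl⟩, h1⟩ := H.surj _ (mt (h.1 μ).2 hμ)
    refine ⟨_, ⟨F.1, (c.mem_reg.1 hF).1, rfl⟩, fun ν hν => ?_⟩
    refine (c.Comb_pcl F ν.1 ν.2).symm.trans ((h1 _ (mt (h.1 ν).2 hν)).trans ?_)
    simp [Prod.ext_iff]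
  · rintro _ ⟨g, hg, rfl⟩ h1
    obtain ⟨F, hF, s, e, h2, h3⟩ := c.Comb_ext1 hg
    obtain ⟨r, hr⟩ := H.inj _ ⟨F, hF, rfl⟩ fun ⟨i, n⟩ => c.Comb_ind
      (P := fun i => (i, n) ∉ J → pc (c.exT F) (i, n) = 0) (fun i _ => h2 i n) (fun j' i hi => by
        by_cases e' : j' = j
        · subst e'
          rw [Comb_pcr, e, Comb_pc]
          exact h1 _ (mt (h.2 j' (i, n)).1 hi)
        · exact h3 j' e' i n) i
    refine ⟨r - s, funext fun i => ?_⟩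
    have h4 := (c.exT_inr F j i).symm.trans (congrFun hr _)
    rw [e, map_add, AlgHom.commutes, ← eq_sub_iff_add_eq] at h4
    rw [map_sub]
    exact h4
  · obtain ⟨_, ⟨F, hF, rfl⟩, h1⟩ := H.surj _ (mt (h.2 j μ).2 hμ)
    refine ⟨_, ⟨F.2 j, (c.mem_reg.1 hF).2.1 j, rfl⟩, fun ν hν => ?_⟩
    refine (c.Comb_pcr F j ν.1 ν.2).symm.trans ((h1 _ (mt (h.2 j ν).2 hν)).trans ?_)
    simp [Prod.ext_iff]
  · rintro _ ⟨F, hF, rfl⟩ h1
    obtain ⟨a1, a2, a3⟩ := c.mem_reg.1 hF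
    obtain ⟨r, hr⟩ := H₀.inj _ ⟨F.1, a1, rfl⟩ fun μ hμ =>
      (c.Comb_pcl F μ.1 μ.2).symm.trans (h1 _ (mt (h.1 μ).2 hμ))
    have b1 := c.d₀.exT_injective (hr.trans (c.d₀.exT.commutes r).symm)
    refine ⟨r, (congrArg c.exT (Prod.ext b1 (funext fun j => ?_))).trans (c.exT.commutes r)⟩
    obtain ⟨s, hs⟩ := (Ht j).inj _ ⟨F.2 j, a2 j, rfl⟩ fun μ hμ =>
      (c.Comb_pcr F j μ.1 μ.2).symm.trans (h1 _ (mt (h.2 j μ).2 hμ))
    have b2 := (c.dt j).exT_injective (hs.trans ((c.dt j).exT.commutes s).symm)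
    have b3 := a3 j
    rw [b1, b2, Place.val_const, Place.val_const] at b3
    rw [b2, b3]
    rfl
  · refine c.Comb_ind (P := fun i => (i, n) ∉ J → ∃ F ∈ c.alg, ∀ ν, ν ∉ J →
      pc F ν = if ν = (i, n) then 1 else 0) (fun i hi => ?_) (fun j i hi => ?_) i
    · obtain ⟨_, ⟨f, hf, rfl⟩, h1⟩ := H₀.surj _ (mt (h.1 (i, n)).1 hi)
      obtain ⟨F, hF, rfl, h2⟩ := c.Comb_ext0 hf
      refine ⟨_, ⟨F, hF, rfl⟩, fun ⟨i', m⟩ => c.Comb_ind (P := fun i' => (i', m) ∉ J →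
        pc (c.exT F) (i', m) = if (i', m) = (c.e (.inl i), n) then 1 else 0)
        (fun i' hi' => ?_) (fun j i' _ => ?_) i'⟩
      · refine (c.Comb_pcl F i' m).trans ((h1 _ (mt (h.1 (i', m)).1 hi')).trans ?_)
        simp
      · rw [h2, if_neg (by simp)]
    · obtain ⟨_, ⟨g, hg, rfl⟩, h1⟩ := (Ht j).surj _ (mt (h.2 j (i, n)).1 hi)
      obtain ⟨F, hF, s, e, h2, h3⟩ := c.Comb_ext1 hg
      refine ⟨_, ⟨F, hF, rfl⟩, fun ⟨i', m⟩ => c.Comb_ind (P := fun i' => (i', m) ∉ J →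
        pc (c.exT F) (i', m) = if (i', m) = (c.e (.inr ⟨j, i⟩), n) then 1 else 0)
        (fun i' _ => ?_) (fun j' i' hi' => ?_) i'⟩
      · rw [h2, if_neg (by simp)]
      · by_cases e' : j' = j
        · subst e'
          rw [Comb_pcr, e, Comb_pc]
          refine (h1 _ (mt (h.2 j' (i', m)).1 hi')).trans ?_
          simp
        · rw [h3 j' e', if_neg (by simp [e'])]

theorem exists_chart : ∃ J, IsChart J c.alg := by
  obtain ⟨J₀, h₀⟩ := c.d₀.exists_chart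
  choose Jt ht using fun j => (c.dt j).exists_chart
  exact ⟨_, (c.Comb_iff (c.Comb_split J₀ Jt)).2 ⟨h₀, ht⟩⟩
theorem exists_chart_simple (h₀ : 2 * PR0.genus K X.C.L ≤ Fintype.card c.ι₀)
    (ht : ∀ j, 2 * PR0.genus K (X.E j).L ≤ Fintype.card (c.ιt j)) :
    ∃ J : Finset (ι × ℕ), (∀ ν ∈ J, ν.2 < 1) ∧ IsChart J c.alg := by
  obtain ⟨J₀, a₀, h₀⟩ := c.d₀.exists_chart_simple h₀
  choose Jt a ht using fun j => (c.dt j).exists_chart_simple (ht j)
  have h := c.Comb_split J₀ Jt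
  refine ⟨_, fun ⟨i, n⟩ => ?_, (c.Comb_iff h).2 ⟨h₀, ht⟩⟩
  obtain ⟨i | ⟨j, i⟩, rfl⟩ := c.e.surjective i
  exacts [fun hi => a₀ (i, n) ((h.1 (i, n)).2 hi), fun hi => a j (i, n) ((h.2 j (i, n)).2 hi)]
/-- the chart condition splits (extend a function on one component by constants) -/
theorem isChart_iff {J : Finset (ι × ℕ)} {J₀ : Finset (c.ι₀ × ℕ)} {Jt : ∀ j, Finset (c.ιt j × ℕ)}
    (h : c.Split J J₀ Jt) :
    IsChart J c.alg ↔ IsChart J₀ c.d₀.alg ∧ ∀ j, IsChart (Jt j) (c.dt j).alg := c.Comb_iff h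
theorem exists_split (J : Finset (ι × ℕ)) : ∃ J₀ Jt, c.Split J J₀ Jt := ⟨J.preimage (fun μ => c.Comb_emb (.inl μ)) (c.Comb_emb.injective.comp Sum.inl_injective).injOn,
    fun j => J.preimage (fun μ => c.Comb_emb (.inr ⟨j, μ⟩))
      (c.Comb_emb.injective.comp (Sum.inr_injective.comp sigma_mk_injective)).injOn,
    fun _ => Finset.mem_preimage, fun _ _ => Finset.mem_preimage⟩
theorem exists_split' (J₀ : Finset (c.ι₀ × ℕ)) (Jt : ∀ j, Finset (c.ιt j × ℕ)) :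
    ∃ J, c.Split J J₀ Jt := ⟨_, c.Comb_split J₀ Jt⟩
theorem Split.card {c : X.CC ι} {J : Finset (ι × ℕ)} {J₀ : Finset (c.ι₀ × ℕ)}
    {Jt : ∀ j, Finset (c.ιt j × ℕ)} (h : c.Split J J₀ Jt) :
    J.card = J₀.card + ∑ j, (Jt j).card := by
  have h' := c.Comb_split J₀ Jt
  have e : J = (J₀.disjSum (Finset.univ.sigma Jt)).map c.Comb_emb := by
    ext ⟨i, n⟩
    obtain ⟨i | ⟨j, i⟩, rfl⟩ := c.e.surjective i
    exacts [(h.1 (i, n)).symm.trans (h'.1 (i, n)), (h.2 j (i, n)).symm.trans (h'.2 j (i, n))]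
  rw [e, Finset.card_map, Finset.card_disjSum, Finset.card_sigma]
theorem card_eq {J : Finset (ι × ℕ)} (h : IsChart J c.alg) : J.card = X.genus := by
  obtain ⟨J₀, Jt, hs⟩ := c.exists_split J
  obtain ⟨h₀, ht⟩ := (c.isChart_iff hs).1 h
  rw [hs.card, c.d₀.card_eq h₀, genus]
  exact congrArg _ (Finset.sum_congr rfl fun j _ => (c.dt j).card_eq (ht j))
theorem hw0_iff (p : ℕ) [Fact p.Prime] [CharP K p] :
    X.HW0 p ↔ ∀ F : LT ι K, ∃ n : ℕ, ∃ a ∈ c.alg, Pole (F ^ p ^ n - a) 0 := by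
  rw [HW0, c.d₀.hw0_iff p, forall_congr' fun j => (c.dt j).hw0_iff p]
  constructor
  · rintro ⟨h₀, ht⟩ F
    obtain ⟨n₀, h₀⟩ := h₀ fun i => F (c.e (.inl i))
    choose nt ht using fun j => ht j fun i => F (c.e (.inr ⟨j, i⟩))
    obtain ⟨_, ⟨f, hf, rfl⟩, h₀⟩ :=
      Comb_pow p (n := n₀ + Finset.univ.sup nt) (Nat.le_add_right _ _) h₀
    choose G hG ht using fun j => Comb_pow p (n := n₀ + Finset.univ.sup nt)
      ((Finset.le_sup (Finset.mem_univ j)).trans (Nat.le_add_left _ _)) (ht j)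
    choose g hg e using hG
    obtain ⟨κ, hκ⟩ := c.Comb_glue hf hg
    refine ⟨n₀ + Finset.univ.sup nt, _, ⟨_, hκ, rfl⟩, fun i => ?_⟩
    obtain ⟨i | ⟨j, i⟩, rfl⟩ := c.e.surjective i
    · rw [Pi.sub_apply, RingHom.coe_coe, c.exT_inl]
      exact h₀ i
    · rw [Pi.sub_apply, RingHom.coe_coe, c.exT_inr, map_add,
        AlgHom.commutes, ← sub_sub, sub_eq_add_neg _ (algebraMap K _ _)]
      refine LS.Ge.add ?_ (LS.ge_algebraMap _).neg
      have := ht j i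
      rwa [← e j] at this
  · refine fun h => ⟨fun F => ?_, fun j F => ?_⟩
    · have hi : Function.Injective fun i => c.e (.inl i) := c.e.injective.comp Sum.inl_injective
      obtain ⟨n, _, ⟨f, hf, rfl⟩, h⟩ := h (Function.extend (fun i => c.e (.inl i)) F 0)
      refine ⟨n, _, ⟨f.1, (c.mem_reg.1 hf).1, rfl⟩, fun i => ?_⟩
      have := h (c.e (.inl i))
      rwa [Pi.sub_apply, RingHom.coe_coe, c.exT_inl, Pi.pow_apply,
        hi.extend_apply] at this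
    · have hi : Function.Injective fun i => c.e (.inr ⟨j, i⟩) :=
        c.e.injective.comp (Sum.inr_injective.comp sigma_mk_injective)
      obtain ⟨n, _, ⟨f, hf, rfl⟩, h⟩ := h (Function.extend (fun i => c.e (.inr ⟨j, i⟩)) F 0)
      refine ⟨n, _, ⟨f.2 j, (c.mem_reg.1 hf).2.1 j, rfl⟩, fun i => ?_⟩
      have := h (c.e (.inr ⟨j, i⟩))
      rwa [Pi.sub_apply, RingHom.coe_coe, c.exT_inr, Pi.pow_apply,
        hi.extend_apply] at this

end CC

/-- `A` is a chart point of type `J` of the comb. -/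
def Has [IsAlgClosed K] [DecidableEq ι] (X : Comb T K) (J : Finset (ι × ℕ))
    (A : Subalgebra K (LT ι K)) : Prop := ∃ c : X.CC ι, c.alg = A ∧ IsChart J A

/-- Charts with prescribed behaviour at finitely many points exist: poles avoid given finite sets,
the function is unramified at the nodes, and the degrees are as large as wanted. -/
theorem exists_cc [IsAlgClosed K] [Fintype T] (X : Comb T K) (S : Finset (Place K X.C.L))
    (St : ∀ j, Finset (Place K (X.E j).L)) (n : ℕ) : ∃ (m : ℕ) (c : X.CC (Fin m)),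
      n ≤ Fintype.card c.ι₀ ∧ (∀ j, n ≤ Fintype.card (c.ιt j)) ∧ (∀ P ∈ S, c.d₀.x ∈ P.1) ∧
      (∀ j, ∀ P ∈ St j, (c.dt j).x ∈ P.1) ∧
      (∀ j, ¬ (X.a j).Ge (c.d₀.x - algebraMap K _ ((X.a j).val c.d₀.x)) 2) ∧
      ∀ j, ¬ (X.b j).Ge ((c.dt j).x - algebraMap K _ ((X.b j).val (c.dt j).x)) 2 := by
  classical
  obtain ⟨d₀, h₀⟩ := exists_cd_avoid (ι := Fin (2 * PR0.genus K X.C.L +
    2 * (S ∪ Finset.univ.image X.a).card + n + 1)) (S ∪ Finset.univ.image X.a) (fun _ => 0)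
    (by rw [Fintype.card_fin]; omega)
  choose dt ht using fun j => exists_cd_avoid (ι := Fin (2 * PR0.genus K (X.E j).L +
    2 * (insert (X.b j) (St j)).card + n + 1)) (insert (X.b j) (St j)) (fun _ => 0)
    (by rw [Fintype.card_fin]; omega)
  have ha := fun j => h₀ (X.a j)
    (Finset.mem_union_right _ (Finset.mem_image_of_mem _ (Finset.mem_univ j)))
  have hb := fun j => ht j (X.b j) (Finset.mem_insert_self _ _)
  refine ⟨_, ⟨_, _, Fintype.equivFin _, d₀, dt, fun j => (ha j).1, fun j => (hb j).1,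
    fun j => (ha j).2.1.trans (hb j).2.1.symm⟩, (Fintype.card_fin _).ge.trans' (by omega),
    fun j => (Fintype.card_fin _).ge.trans' (by omega),
    fun P hP => (h₀ P (Finset.mem_union_left _ hP)).1,
    fun j P hP => (ht j P (Finset.mem_insert_of_mem hP)).1, fun j => ?_, fun j => ?_⟩
  · rw [(ha j).2.1]
    exact (ha j).2.2
  · rw [(hb j).2.1]
    exact (hb j).2.2

end Comb

theorem FFd.has_sm [IsAlgClosed K] [Fintype ι] [DecidableEq ι] [Nonempty ι] {C : FFd K}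
    {J : Finset (ι × ℕ)} {A : Subalgebra K (LT ι K)} :
    C.sm.Has J A ↔ ∃ d : CD K C.L ι, d.alg = A ∧ IsChart J A := by
  have key : ∀ (c : C.sm.CC ι) (d : CD K C.L ι), d.reg = c.d₀.reg →
      (∀ i, d.ex (c.e (.inl i)) = c.d₀.ex i) → d.alg = c.alg := fun c d h1 h2 => by
    have h3 : ∀ f : C.sm.Fn, c.exT f = d.exT f.1 := fun f => funext fun i => by
      obtain ⟨i | ⟨j, i⟩, rfl⟩ := c.e.surjective i
      exacts [(c.exT_inl f i).trans (DFunLike.congr_fun (h2 i) _).symm, j.elim]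
    ext F
    constructor
    · rintro ⟨f, hf, rfl⟩
      exact ⟨(f, fun j => j.elim), c.mem_reg.2 ⟨h1 ▸ hf, fun j => j.elim, fun j => j.elim⟩, h3 _⟩
    · rintro ⟨f, hf, rfl⟩
      exact ⟨f.1, h1 ▸ (c.mem_reg.1 hf).1, (h3 f).symm⟩
  constructor
  · rintro ⟨c, h1, h2⟩
    refine ⟨c.d₀.comp (c.e.symm.trans (Equiv.sumEmpty _ _)), (key c _ ?_ fun i => ?_).trans h1, h2⟩
    · exact congrArg regOut ((c.e.symm.trans (Equiv.sumEmpty _ _)).surjective.range_comp c.d₀.pl)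
    · exact congrArg c.d₀.ex (by simp)
  · rintro ⟨d, h1, h2⟩
    exact ⟨@Comb.CC.mk _ _ _ C.sm ι ι Empty.elim _ _ _ (fun j => j.elim) (fun j => j.elim)
      (fun j => j.elim) (Equiv.sumEmpty _ _) d (fun j => j.elim) (fun j => j.elim)
      (fun j => j.elim) (fun j => j.elim), (key _ d rfl fun _ => rfl).symm.trans h1, h2⟩
theorem FFd.genus_sm (C : FFd K) : C.sm.genus = genus K C.L := by
  rw [Comb.genus, Finset.sum_of_isEmpty, add_zero]
  rfl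
theorem FFd.hw0_sm (C : FFd K) (p : ℕ) : C.sm.HW0 p ↔ HW0 K C.L p := and_iff_left fun j => j.elim

end PR0
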