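import Pool.Agent.Work.MP_da2620_ag.ConeB

/-!
# The cone lemma

Proof.  By `dm_le_finrank_Tan` the tangent space has dimension `N`.  Choose polynomials
`z₁, ..., z_N` vanishing at `q` whose differentials are a basis of the dual of `Tan`, the first `m`
being the coordinates of `π`.  Add variables `τ, z'` with the equations `z i = τ z' i` (ideal `𝔞'` in
the variables `I ⊕ Option (Fin N)`), and the variable `u` with `u s = 1` where `s(q) ≠ 0` is chosen
by Nakayama such that `s 𝔪 ⊆ (z) + 𝔞`.  Modulo `𝔞'`, `Φ = τ Φ'` with `Φ' ≡ ∑ z' i T i` mod `τ`, and a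
point with `τ = 0` has `I`-part `q`.  Let `c` be a nilpotent point specialising to `q`, by `reg` and
`purity` of dimension `≥ N - g` without loss.  The point `(c, τ generic, z / τ)` has dimension
`dm c + 1`.  It need not specialise to `(q, 0, 0)` directly: it specialises to `(q, τ, 0)` and this
to `(q, 0, 0)`.  `krull` with `τ = 0` gives a point `(q, 0, z')` of dimension `≥ N - g` with nilpotent
`∑ z' i T i`; by `le` and `uniq` all such `z'` have the same ideal (the last `N - m` coordinates are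
forced to be generic over the first `m`).  By `onto` and `exists_rat` (a determinant is nonzero; `v`
may be specialised along with `z'`) pick one rational point `κ = (q, 0, z₀)` and `v₀` with the
surjectivity; apply `reg` to `𝔞' + (φ' ^ g v₀)` at `κ`, whose tangent space has dimension
`≤ N - g + 1`.
-/

namespace PR0

open MvPolynomial

universe u

variable {k : Type u} [Field k] {I : Type}

/-- The matrix `∑ z i • T i`. -/
noncomputable def lin {G μ : Type} [Fintype μ] (T : μ → Matrix G G k) {K : Type u} [Field K]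
    [Algebra k K] (z : μ → K) : Matrix G G K := ∑ i, z i • (T i).map (algebraMap k K)

/-- The nilpotent cone of the linear family `T` has codimension `g`, a unique top dimensional
component, and is cut transversally at its generic point. -/
structure ConeHyp (p : ℕ) {G μ : Type} [Fintype G] [DecidableEq G] [Fintype μ]
    (T : μ → Matrix G G k) : Prop where
  le : ∀ (K : Type u) [Field K] [Algebra k K] (z : μ → K), SNil p (lin T z) →
    dm k z + Fintype.card G ≤ Fintype.card μ
  uniq : ∀ (K K' : Type u) [Field K] [Algebra k K] [Field K'] [Algebra k K'] (z : μ → K)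
    (z' : μ → K'), SNil p (lin T z) → SNil p (lin T z') →
    (Fintype.card μ : ℕ∞) ≤ dm k z + Fintype.card G →
    (Fintype.card μ : ℕ∞) ≤ dm k z' + Fintype.card G → Spc k z z'
  onto : ∀ (K : Type u) [Field K] [Algebra k K] [IsAlgClosed K] (z : μ → K), SNil p (lin T z) →
    (Fintype.card μ : ℕ∞) ≤ dm k z + Fintype.card G → ∃ v : G → K, ∀ w : G → K, ∃ δ : μ → K,
      sapp p (lin T δ) ((sapp p (lin T z))^[Fintype.card G - 1] v) = w

section aux

variable {G μ : Type} [Fintype μ] {R R' : Type u} [CommRing R] [CommRing R']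

/-- `lin` over rings. -/
noncomputable def coneLin [Algebra k R] (T : μ → Matrix G G k) (z : μ → R) : Matrix G G R :=
  ∑ i, z i • (T i).map (algebraMap k R)

theorem coneLin_apply [Algebra k R] (T : μ → Matrix G G k) (z : μ → R) (a b : G) :
    coneLin T z a b = ∑ i, z i * algebraMap k R (T i a b) := by
  simp only [coneLin, Matrix.sum_apply, Matrix.smul_apply, Matrix.map_apply, smul_eq_mul]

theorem coneLin_map [Algebra k R] [Algebra k R'] (T : μ → Matrix G G k) (z : μ → R)
    (φ : R →ₐ[k] R') : (coneLin T z).map φ = coneLin T fun i => φ (z i) := by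
  ext a b
  simp only [Matrix.map_apply, coneLin_apply, map_sum, map_mul, AlgHom.commutes]

variable [Fintype G] {p : ℕ}

theorem cone_sapp_map [Algebra k R] [Algebra k R'] (φ : R →ₐ[k] R') (M : Matrix G G R)
    (v : G → R) : (fun a => φ (sapp p M v a)) = sapp p (M.map φ) fun a => φ (v a) := by
  funext a
  simp only [sapp, Matrix.mulVec, dotProduct, map_sum, map_mul, map_pow, Matrix.map_apply]

theorem cone_iter_map [Algebra k R] [Algebra k R'] (φ : R →ₐ[k] R') (M : Matrix G G R)
    (v : G → R) (n : ℕ) :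
    (fun a => φ ((sapp p M)^[n] v a)) = (sapp p (M.map φ))^[n] fun a => φ (v a) := by
  induction n with
  | zero => rfl
  | succ n ih => rw [Function.iterate_succ_apply', Function.iterate_succ_apply', ← ih, cone_sapp_map]

variable [DecidableEq G]

theorem cone_snil_spc [Algebra k R] [Algebra k R'] {c : I → R} {c' : I → R'} (h : Spc k c c')
    (Φ : Matrix G G (MvPolynomial I k)) (hn : SNil p (Φ.map (aeval c))) :
    SNil p (Φ.map (aeval c')) := by
  have e := sprod_map (p := p) (aeval c : MvPolynomial I k →ₐ[k] R).toRingHom Φ (Fintype.card G)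
  have e' := sprod_map (p := p) (aeval c' : MvPolynomial I k →ₐ[k] R').toRingHom Φ (Fintype.card G)
  refine e'.symm.trans ?_
  ext a b
  exact h _ (congrFun (congrFun (e.trans hn) a) b)

theorem cone_rat [IsAlgClosed k] (T : μ → Matrix G G k) {K : Type u} [Field K] [Algebra k K]
    {y : μ → K} {v : G → K} {n : ℕ}
    (hv : ∀ w : G → K, ∃ δ : μ → K, sapp p (lin T δ) ((sapp p (lin T y))^[n] v) = w) :
    ∃ (y₀ : μ → k) (v₀ : G → k), Spc k y y₀ ∧
      ∀ w : G → k, ∃ δ : μ → k, sapp p (coneLin T δ) ((sapp p (coneLin T y₀))^[n] v₀) = w := by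
  choose δ hδ using fun b : G => hv (Pi.single b 1)
  let c : μ ⊕ G ⊕ G × μ → K := Sum.elim y (Sum.elim v fun x => δ x.1 x.2)
  obtain ⟨c₀, hc, -⟩ := exists_rat (k := k) (FG.of_finite c) (g := 1) (by simp)
  let P : G → G → MvPolynomial (μ ⊕ G ⊕ G × μ) k := fun b =>
    sapp p (coneLin T fun i => X (.inr (.inr (b, i))))
      ((sapp p (coneLin T fun i => X (.inl i)))^[n] fun a => X (.inr (.inl a)))
  have hP : ∀ (L : Type u) [CommRing L] [Algebra k L] (e : μ ⊕ G ⊕ G × μ → L) (b : G),
      (fun a => aeval e (P b a)) = sapp p (coneLin T fun i => e (.inr (.inr (b, i))))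
        ((sapp p (coneLin T fun i => e (.inl i)))^[n] fun a => e (.inr (.inl a))) := by
    intro L _ _ e b
    simp only [P]
    rw [cone_sapp_map, cone_iter_map, coneLin_map, coneLin_map]
    simp only [aeval_X]
  have h1 : ∀ b, (fun a => aeval c₀ (P b a)) = Pi.single b 1 := by
    intro b
    funext a
    have h2 : aeval c (P b a) = (Pi.single b 1 : G → K) a := congrFun ((hP K c b).trans (hδ b)) a
    have h3 := hc (P b a - (Pi.single b 1 : G → MvPolynomial _ k) a) (by
      rw [map_sub, h2, sub_eq_zero]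
      by_cases e : a = b <;> simp [e])
    rw [map_sub, sub_eq_zero] at h3
    rw [h3]
    by_cases e : a = b <;> simp [e]
  refine ⟨c₀ ∘ Sum.inl, fun a => c₀ (.inr (.inl a)), hc.comp Sum.inl, fun w => ?_⟩
  refine ⟨fun i => ∑ b, w b * c₀ (.inr (.inr (b, i))), ?_⟩
  have h4 : ∀ x : G → k, sapp p (coneLin T fun i => ∑ b, w b * c₀ (.inr (.inr (b, i)))) x =
      ∑ b, w b • sapp p (coneLin T fun i => c₀ (.inr (.inr (b, i)))) x := by
    intro x
    have : (coneLin T fun i => ∑ b, w b * c₀ (.inr (.inr (b, i)))) =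
        ∑ b, w b • coneLin T fun i => c₀ (.inr (.inr (b, i))) := by
      simp only [coneLin, Finset.sum_smul, Finset.smul_sum, mul_smul]
      exact Finset.sum_comm
    simp only [sapp, this, Matrix.sum_mulVec, Matrix.smul_mulVec]
  rw [h4]
  conv_rhs => rw [pi_eq_sum_univ' w]
  exact Finset.sum_congr rfl fun b _ => congrArg _ ((hP k c₀ b).symm.trans (h1 b))

end aux

theorem cone_tan {ν : Type} [Fintype ν] {𝔞 : Ideal (MvPolynomial I k)} {s : MvPolynomial I k}
    {z : ν → MvPolynomial I k} {q : I → k} (hs1 : aeval q s = 1)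
    (hs : ∀ f, aeval q f = 0 → s * f ∈ 𝔞 ⊔ Ideal.span (Set.range z)) {y : ν → k}
    (hy : On (coneCh 𝔞 s z) (conePt0 q y)) :
    Module.finrank k (Tan (coneCh 𝔞 s z) (conePt0 q y)) ≤ Fintype.card ν + 1 := by
  let L : Tan (coneCh 𝔞 s z) (conePt0 q y) →ₗ[k] (Option ν → k) :=
    LinearMap.funLeft k k (fun o => Sum.inr (some o)) ∘ₗ Submodule.subtype _
  have hL : Function.Injective L := by
    rw [injective_iff_map_eq_zero]
    intro v hv
    have h0 : v.1 coneE = 0 := congrFun hv none
    have h1 := coneCh_zero hs1 hs ((mem_Tan hy).1 v.2) (by simp [dn, h0, conePt0, conePt])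
    apply Subtype.ext
    funext j
    have h2 := congrArg TrivSqZeroExt.snd (congrFun h1 j)
    rcases j with i | _ | o
    · simpa [dn, conePt0, conePt, TrivSqZeroExt.algebraMap_eq_inl] using h2
    · simpa [dn, conePt0, conePt] using h2
    · exact congrFun hv o
  have := LinearMap.finrank_le_finrank_of_injective hL
  rwa [Module.finrank_fintype_fun_eq_card, Fintype.card_option] at this

theorem cone_dn {ν : Type} (q : I → k) (y δ : ν → k) :
    dn (conePt0 q y) (conePt 0 0 0 δ) = conePt0 q (dn y δ) := by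
  funext j
  rcases j with i | _ | _ | j <;> simp [dn, conePt0, conePt, TrivSqZeroExt.algebraMap_eq_inl]

theorem cone {p : ℕ} [Fact p.Prime] [IsAlgClosed k] [CharP k p] {G μ : Type} [Fintype G]
    [DecidableEq G] [Fintype μ] {𝔞 : Ideal (MvPolynomial I k)} (h : FGI 𝔞)
    (Φ : Matrix G G (MvPolynomial I k)) {q : I → k} {N : ℕ}
    (hT : Module.finrank k (Tan 𝔞 q) ≤ N) {K : Type u} [Field K] [Algebra k K] {c₀ : I → K}
    (hc : On 𝔞 c₀) (hq : Spc k c₀ q) (hd : (N : ℕ∞) ≤ dm k c₀) (h0 : Φ.map (aeval q) = 0)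
    {T : μ → Matrix G G k} (hT' : ConeHyp p T) (π : Tan 𝔞 q →ₗ[k] μ → k)
    (hπ : Function.Surjective π) (hΦ : ∀ δ : Tan 𝔞 q, Φ.map (dd q δ) = lin T (π δ)) :
    Uniq p 𝔞 Φ q := by
  have hqa : On 𝔞 q := hc.spc hq
  have := h.finite_Tan hqa
  obtain ⟨r, z, hr, hz, hzπ, hsp⟩ := cone_coord π hπ
  obtain ⟨s, hs1, hs⟩ := cone_nak h hqa hz hsp
  have hd' : ((Fintype.card μ + r : ℕ) : ℕ∞) ≤ dm k c₀ :=
    le_trans (Nat.cast_le.2 (hr.le.trans hT)) hd
  have hW : ∀ a b, ∃ w, rename Sum.inl (Φ a b - ∑ i, z (.inl i) * C (T i a b)) -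
      X coneE * (X coneE * w) ∈ coneCh 𝔞 s z := by
    intro a b
    refine coneCh_sq hs (cone_mem_sq hqa ?_ fun δ hδ => ?_)
    · have e : aeval q (Φ a b) = 0 := congrFun (congrFun h0 a) b
      simp only [map_sub, map_sum, map_mul, e, hz, zero_mul, Finset.sum_const_zero, sub_zero]
    · have e : dd q δ (Φ a b) = coneLin T (π ⟨δ, hδ⟩) a b := congrFun (congrFun (hΦ ⟨δ, hδ⟩) a) b
      rw [← coneL_apply, map_sub, map_sum, coneL_apply, e, coneLin_apply, sub_eq_zero]
      refine Finset.sum_congr rfl fun i _ => ?_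
      rw [coneL_apply, cone_dd_mul, cone_dd_C, mul_zero, zero_add, aeval_C, hzπ ⟨δ, hδ⟩]
  choose W hW using hW
  let Φ' : Matrix G G (MvPolynomial (ConeI I (μ ⊕ Fin r)) k) := Matrix.of fun a b =>
    ∑ i, X (coneZ (.inl i)) * C (T i a b) + X coneE * W a b
  have hΦ2 : ∀ (R : Type u) [CommRing R] [Algebra k R] (c : ConeI I (μ ⊕ Fin r) → R),
      On (coneCh 𝔞 s z) c → Φ.map (aeval (c ∘ Sum.inl)) = c coneE • Φ'.map (aeval c) := by
    intro R _ _ c hc
    ext a b
    have e := hc _ (hW a b)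
    have e' := ((on_coneCh c).1 hc).2.2
    simp only [map_sub, map_add, map_mul, map_sum, aeval_X, aeval_rename, aeval_C, rename_C, e',
      sub_sub, sub_eq_zero, mul_assoc] at e
    simp only [Φ', Matrix.map_apply, Matrix.smul_apply, Matrix.of_apply, smul_eq_mul, map_add,
      map_sum, map_mul, aeval_X, aeval_C, e, mul_add, Finset.mul_sum]
  have hΦ0 : ∀ (R : Type u) [CommRing R] [Algebra k R] (y : μ ⊕ Fin r → R),
      Φ'.map (aeval (conePt0 q y)) = coneLin T (y ∘ Sum.inl) := by
    intro R _ _ y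
    ext a b
    simp only [Φ', Matrix.map_apply, Matrix.of_apply, map_add, map_sum, map_mul, aeval_X, aeval_C,
      coneLin_apply]
    exact (congrArg (_ + ·) (zero_mul _)).trans (add_zero _)
  have key : ∀ (K₁ : Type u) [Field K₁] [Algebra k K₁] (c : I → K₁), Spc k c₀ c → Spc k c q →
      SNil p (Φ.map (aeval c)) → dm k c₀ ≤ dm k c + Fintype.card G →
      ∃ (Ω : Type u) (_ : Field Ω) (_ : Algebra k Ω) (c' : ConeI I (μ ⊕ Fin r) → Ω) (Ω' : Type u)
        (_ : Field Ω') (_ : Algebra k Ω') (_ : IsAlgClosed Ω') (y : μ ⊕ Fin r → Ω'),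
        On (coneCh 𝔞 s z) c' ∧ SNil p (Φ'.map (aeval c')) ∧ Spc k (c' ∘ Sum.inl) c ∧
        Spc k c' (conePt0 q y) ∧ SNil p (lin T (y ∘ Sum.inl)) ∧
        (Fintype.card μ : ℕ∞) ≤ dm k (y ∘ Sum.inl) + Fintype.card G ∧ AlgebraicIndependent
          (IntermediateField.adjoin k (Set.range (y ∘ Sum.inl))) (y ∘ Sum.inr) := by
    intro K₁ _ _ c h1 h2 h3 h4
    obtain ⟨Ω, _, _, c', Ω', _, _, _, y, a1, a2, a3, a4, -, a5, a6⟩ :=
      cone_lift h hs1 hz hs (hc.spc h1) h2
    have := charP_of_injective_algebraMap (algebraMap k Ω).injective p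
    have b1 : SNil p (Φ'.map (aeval c')) := by
      rw [← snil_smul a2, ← hΦ2 Ω c' a1]
      exact cone_snil_spc a4 Φ h3
    have b2 : SNil p (lin T (y ∘ Sum.inl)) := by
      have := cone_snil_spc a5 Φ' b1
      rwa [hΦ0] at this
    obtain ⟨b3, b4⟩ := cone_top (hT'.le Ω' _ b2) (hd'.trans (h4.trans (add_le_add_left a6 _)))
    exact ⟨Ω, _, _, c', Ω', _, _, inferInstance, y, a1, b1, a3, a5, b2, b3, b4⟩
  have := charP_of_injective_algebraMap (algebraMap k K).injective p
  have hn0 : SNil p (Φ.map (aeval q)) := by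
    rw [h0, snil_iff]
    exact fun v => ⟨1, Matrix.zero_mulVec _⟩
  obtain ⟨Ω₁, _, _, _, c₁, p1, p2, p3, p4⟩ := purity Φ (h.fg hc) hq hn0
  obtain ⟨Ω₂, _, _, c₂, Ω₃, _, _, _, y₁, -, -, -, -, n1, n2, -⟩ := key Ω₁ c₁ p1 p2 p3 p4
  obtain ⟨v, hv⟩ := hT'.onto Ω₃ _ n1 n2
  obtain ⟨y₀, v₀, hy₀, hv₀⟩ := cone_rat T hv
  let y : μ ⊕ Fin r → k := Sum.elim y₀ 0
  have hκ : On (coneCh 𝔞 s z) (conePt0 q y) := on_conePt0 hqa hs1 hz y
  obtain ⟨Ω₄, _, _, c₄, Ω₅, _, _, _, y₅, a1, -, -, -, a2, a3, a4⟩ := cone_lift h hs1 hz hs hc hq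
  have hU : Uniq p (coneCh 𝔞 s z) Φ' (conePt0 q y) := by
    have := charP_of_injective_algebraMap (algebraMap k Ω₄).injective p
    refine smooth_one (fgi_coneCh h) Φ' (cone_tan hs1 hs hκ) a1
      (a3.trans (spc_conePt0 (cone_spc_indep (indep_of_rk ?_) y) q)) ?_ ?_ v₀ fun w => ?_
    · rw [Nat.card_sum, Nat.card_fin, Nat.card_eq_fintype_card]
      exact hd'.trans a4
    · rw [Fintype.card_sum, Fintype.card_fin, Nat.cast_succ]
      exact (add_le_add_left hd' 1).trans a2
    · have e : ∀ (R : Type u) [CommRing R] [Algebra k R] (x : μ → R),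
          (coneLin T (X : μ → MvPolynomial μ k)).map (aeval x) = coneLin T x := by
        intro R _ _ x
        rw [coneLin_map]
        simp only [aeval_X]
      rw [hΦ0]
      have := cone_snil_spc (p := p) hy₀ (coneLin T X) (by rw [e]; exact n1)
      rwa [e] at this
    · obtain ⟨δ, hδ⟩ := hv₀ w
      refine ⟨conePt 0 0 0 (Sum.elim δ 0), (mem_Tan hκ).2 ?_, ?_⟩
      · rw [cone_dn]
        exact on_conePt0 hqa hs1 hz _
      · have e : Φ'.map (dd (conePt0 q y) (conePt 0 0 0 (Sum.elim δ 0))) = coneLin T δ := by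
          ext a b
          have e1 := congrFun (congrFun (hΦ0 _ (dn y (Sum.elim δ 0))) a) b
          rw [Matrix.map_apply] at e1
          rw [Matrix.map_apply, dd, cone_dn, e1, coneLin_apply, coneLin_apply]
          simp [dn, TrivSqZeroExt.snd_sum, TrivSqZeroExt.algebraMap_eq_inl, mul_comm]
        rw [e, hΦ0]
        exact hδ
  obtain ⟨Ω, _, _, _, c, u1, u2, u3⟩ := hU
  have := charP_of_injective_algebraMap (algebraMap k Ω).injective p
  refine ⟨Ω, _, _, inferInstance, c ∘ Sum.inl, ((on_coneCh c).1 u1).1, ?_, ?_⟩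
  · rw [hΦ2 Ω c u1, SNil, sprod_smul, show sprod p _ _ = 0 from u2, smul_zero]
  · intro K' _ _ c' w1 w2 w3
    obtain ⟨Ω₆, _, _, _, c₆, p1', p2', p3', p4'⟩ :=
      purity Φ (h.fg hc) (reg h hT hc w1 hq w3 hd) w2
    obtain ⟨Ω₇, _, _, c₇, Ω₈, _, _, _, y₈, m1, m2, m3, m4, m5, m6, m7⟩ :=
      key Ω₆ c₆ p1' (p2'.trans w3) p3' p4'
    have m8 := Spc.generic ((hT'.uniq _ _ _ _ m5 n1 m6 n2).trans hy₀) m7 (0 : Fin r → k)
    rw [Sum.elim_comp_inl_inr] at m8
    exact (((u3 Ω₇ c₇ m1 m2 (m4.trans (spc_conePt0 m8 q))).comp Sum.inl).trans m3).trans p2'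

theorem cone_lin_conj {p : ℕ} {G μ : Type} [Fintype G] [DecidableEq G] [Fintype μ]
    (T : μ → Matrix G G k) {B : Matrix G G k} [Fact p.Prime] [CharP k p] (hB : IsUnit B.det)
    {K : Type u} [Field K] [Algebra k K] (z : μ → K) :
    lin (fun i => B * T i * (B.map (· ^ p))⁻¹) z =
      B.map (algebraMap k K) * lin T z * ((B.map (algebraMap k K)).map (· ^ p))⁻¹ := by
  have h1 : IsUnit (B.map (· ^ p)).det := by
    have := RingHom.map_det (frobenius k p) B
    exact this ▸ hB.map (frobenius k p)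
  have h2 : ((B.map (algebraMap k K)).map (· ^ p))⁻¹ = (B.map (· ^ p))⁻¹.map (algebraMap k K) := by
    refine Matrix.inv_eq_right_inv ?_
    have : (B.map (algebraMap k K)).map (· ^ p) = (B.map (· ^ p)).map (algebraMap k K) := by
      ext a b
      simp only [Matrix.map_apply, map_pow]
    rw [this, ← Matrix.map_mul, Matrix.mul_nonsing_inv _ h1,
      Matrix.map_one _ (map_zero _) (map_one _)]
  simp only [lin, h2, Matrix.map_mul, Finset.mul_sum, Finset.sum_mul, Matrix.mul_smul,
    Matrix.smul_mul]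

theorem cone_sapp_conj {p : ℕ} {G : Type} [Fintype G] [DecidableEq G] [Fact p.Prime] {K : Type u}
    [Field K] [CharP K p] {B : Matrix G G K} (hB : IsUnit B.det) (M : Matrix G G K) (x : G → K) :
    sapp p (B * M * (B.map (· ^ p))⁻¹) (B.mulVec x) = B.mulVec (sapp p M x) := by
  have h1 : IsUnit (B.map (· ^ p)).det := by
    have := RingHom.map_det (frobenius K p) B
    exact this ▸ hB.map (frobenius K p)
  have h2 : (fun i => B.mulVec x i ^ p) = (B.map (· ^ p)).mulVec fun i => x i ^ p :=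
    funext fun i => RingHom.map_mulVec (frobenius K p) B x i
  rw [sapp, h2, Matrix.mulVec_mulVec, Matrix.nonsing_inv_mul_cancel_right _ _ h1, sapp,
    Matrix.mulVec_mulVec]

/-- Change of basis. -/
theorem ConeHyp.conj {p : ℕ} [Fact p.Prime] [CharP k p] {G μ : Type} [Fintype G] [DecidableEq G]
    [Fintype μ] {T : μ → Matrix G G k} (h : ConeHyp p T) {B : Matrix G G k} (hB : IsUnit B.det) :
    ConeHyp p fun i => B * T i * (B.map (· ^ p))⁻¹ := by
  have hB' : ∀ (K : Type u) [Field K] [Algebra k K], IsUnit (B.map (algebraMap k K)).det := by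
    intro K _ _
    have := RingHom.map_det (algebraMap k K) B
    exact this ▸ hB.map (algebraMap k K)
  have hn : ∀ (K : Type u) [Field K] [Algebra k K] (z : μ → K),
      SNil p (lin (fun i => B * T i * (B.map (· ^ p))⁻¹) z) → SNil p (lin T z) := by
    intro K _ _ z hz
    have := charP_of_injective_algebraMap (algebraMap k K).injective p
    rwa [cone_lin_conj T hB, snil_conj (hB' K)] at hz
  refine ⟨fun K _ _ z hz => h.le K z (hn K z hz),
    fun K K' _ _ _ _ z z' hz hz' => h.uniq K K' z z' (hn K z hz) (hn K' z' hz'), ?_⟩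
  intro K _ _ _ z hz hd
  have := charP_of_injective_algebraMap (algebraMap k K).injective p
  obtain ⟨v, hv⟩ := h.onto K z (hn K z hz) hd
  refine ⟨(B.map (algebraMap k K)).mulVec v, fun w => ?_⟩
  obtain ⟨δ, hδ⟩ := hv ((B.map (algebraMap k K))⁻¹.mulVec w)
  refine ⟨δ, ?_⟩
  rw [cone_lin_conj T hB, cone_lin_conj T hB,
    ← Function.Semiconj.iterate_right (fun x => (cone_sapp_conj (hB' K) (lin T z) x).symm) _ v,
    cone_sapp_conj (hB' K), hδ, Matrix.mulVec_mulVec, Matrix.mul_nonsing_inv _ (hB' K),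
    Matrix.one_mulVec]

theorem ConeHyp.reindex {p : ℕ} [Fact p.Prime] [CharP k p] {G G' μ : Type} [Fintype G]
    [DecidableEq G] [Fintype G'] [DecidableEq G'] [Fintype μ] {T : μ → Matrix G G k}
    (h : ConeHyp p T) (e : G ≃ G') : ConeHyp p fun i => (T i).reindex e e := by
  have hl : ∀ (K : Type u) [Field K] [Algebra k K] (z : μ → K),
      lin (fun i => (T i).reindex e e) z = (lin T z).reindex e e := by
    intro K _ _ z
    ext a b
    simp only [lin, Matrix.sum_apply, Matrix.smul_apply, Matrix.map_apply, Matrix.reindex_apply,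
      Matrix.submatrix_apply]
  have hn : ∀ (K : Type u) [Field K] [Algebra k K] (z : μ → K),
      SNil p (lin (fun i => (T i).reindex e e) z) → SNil p (lin T z) := by
    intro K _ _ z hz
    have := charP_of_injective_algebraMap (algebraMap k K).injective p
    rwa [hl, snil_reindex] at hz
  have hs : ∀ (K : Type u) [Field K] (M : Matrix G G K) (x : G → K),
      sapp p M x ∘ e.symm = sapp p (M.reindex e e) (x ∘ e.symm) := by
    intro K _ M x
    funext a
    simp only [sapp, Matrix.mulVec, dotProduct, Function.comp_apply, Matrix.reindex_apply,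
      Matrix.submatrix_apply]
    exact (e.symm.sum_comp fun b => M (e.symm a) b * x b ^ p).symm
  have hc := Fintype.card_congr e
  refine ⟨fun K _ _ z hz => hc ▸ h.le K z (hn K z hz), fun K K' _ _ _ _ z z' hz hz' =>
    hc ▸ h.uniq K K' z z' (hn K z hz) (hn K' z' hz'), ?_⟩
  intro K _ _ _ z hz hd
  rw [← hc] at hd ⊢
  obtain ⟨v, hv⟩ := h.onto K z (hn K z hz) hd
  refine ⟨v ∘ e.symm, fun w => ?_⟩
  obtain ⟨δ, hδ⟩ := hv (w ∘ e)
  refine ⟨δ, ?_⟩
  rw [hl, hl, ← Function.Semiconj.iterate_right (f := (· ∘ e.symm)) (hs K (lin T z)) _ v, ← hs, hδ]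
  funext a
  simp

end PR0
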