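import Pool.Agent.Work.MP_da2620_ag.Reg

/-!
# Local coordinates and the chart of the blow up
-/

namespace PR0

open MvPolynomial

universe u

variable {k : Type u} [Field k] {I : Type}

/-- The derivative as a linear map in the polynomial. -/
noncomputable def coneL (q v : I → k) : MvPolynomial I k →ₗ[k] k :=
  TrivSqZeroExt.sndHom k k ∘ₗ (aeval (dn q v)).toLinearMap

theorem coneL_apply (q v : I → k) (f : MvPolynomial I k) : coneL q v f = dd q v f := rfl

theorem cone_dd_X (q v : I → k) (i : I) : dd q v (X i) = v i := by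
  simp [dd, dn]

theorem cone_dd_C (q v : I → k) (a : k) : dd q v (C a) = 0 := by
  simp [dd, TrivSqZeroExt.algebraMap_eq_inl]

theorem cone_dd_mul (q v : I → k) (f g : MvPolynomial I k) :
    dd q v (f * g) = aeval q f * dd q v g + dd q v f * aeval q g := by
  unfold dd
  rw [map_mul, DualNumber.snd_mul, fst_aeval_dn, fst_aeval_dn]

/-- The derivative as a linear map in the tangent vector. -/
noncomputable def coneT (𝔞 : Ideal (MvPolynomial I k)) (q : I → k) (f : MvPolynomial I k) :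
    Tan 𝔞 q →ₗ[k] k where
  toFun δ := dd q δ f
  map_add' a b := dd_add q a b f
  map_smul' a b := dd_smul q b a f

theorem cone_aeval_C (q : I → k) (a : k) : aeval q (C a : MvPolynomial I k) = a := aeval_C q a

theorem cone_mem_sq {𝔞 : Ideal (MvPolynomial I k)} {q : I → k} (hq : On 𝔞 q)
    {f : MvPolynomial I k} (h0 : aeval q f = 0) (h1 : ∀ δ ∈ Tan 𝔞 q, dd q δ f = 0) :
    f ∈ 𝔞 ⊔ RingHom.ker (aeval q) * RingHom.ker (aeval q) := by
  by_contra hf
  set 𝔪 : Ideal (MvPolynomial I k) := RingHom.ker (aeval q) with h𝔪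
  have hle : 𝔞 ⊔ 𝔪 * 𝔪 ≤ 𝔪 := sup_le (fun g hg => hq g hg) Ideal.mul_le_left
  have hf' : f ∉ (𝔞 ⊔ 𝔪 * 𝔪).restrictScalars k ⊔ Submodule.span k {1} := by
    intro h
    obtain ⟨a, ha, b, hb, e⟩ := Submodule.mem_sup.1 h
    obtain ⟨c, rfl⟩ := Submodule.mem_span_singleton.1 hb
    have h2 : aeval q a = 0 := hle ha
    have h3 := congrArg (aeval q) e
    rw [map_add, h2, h0, map_smul, map_one, zero_add, smul_eq_mul, mul_one] at h3
    rw [h3, zero_smul, add_zero] at e
    exact hf (e ▸ ha)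
  obtain ⟨l, hl, hl0⟩ := Submodule.exists_dual_map_eq_bot_of_notMem hf' inferInstance
  have hz : ∀ g ∈ (𝔞 ⊔ 𝔪 * 𝔪).restrictScalars k ⊔ Submodule.span k {1}, l g = 0 := fun g hg => by
    have := Submodule.mem_map_of_mem (f := l) hg
    rwa [hl0, Submodule.mem_bot] at this
  have hC : ∀ a : k, l (C a) = 0 := fun a =>
    hz _ (Submodule.mem_sup_right (Submodule.mem_span_singleton.2 ⟨a, by
      rw [smul_eq_C_mul, mul_one]⟩))
  have key : ∀ g, dd q (fun i => l (X i)) g = l g := by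
    intro g
    induction g using MvPolynomial.induction_on with
    | C a => rw [cone_dd_C, hC]
    | add a b ha hb => rw [← coneL_apply, map_add, map_add, coneL_apply, coneL_apply, ha, hb]
    | mul_X g i ih =>
      have h2 : l ((g - C (aeval q g)) * (X i - C (q i))) = 0 := by
        refine hz _ (Submodule.mem_sup_left (Ideal.mem_sup_right (Ideal.mul_mem_mul ?_ ?_)))
        · rw [h𝔪, RingHom.mem_ker, map_sub, cone_aeval_C, sub_self]
        · rw [h𝔪, RingHom.mem_ker, map_sub, cone_aeval_C, aeval_X, sub_self]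
      have h3 : g * X i = (g - C (aeval q g)) * (X i - C (q i)) + aeval q g • X i + q i • g -
          C (aeval q g * q i) := by
        rw [smul_eq_C_mul, smul_eq_C_mul, C_mul]
        ring
      rw [cone_dd_mul, cone_dd_X, ih, aeval_X]
      conv_rhs => rw [h3, map_sub, map_add, map_add, h2, hC, map_smul, map_smul]
      simp only [smul_eq_mul]
      ring
  refine hl ?_
  rw [← key, h1]
  intro g hg
  rw [key]
  exact hz _ (Submodule.mem_sup_left (Ideal.mem_sup_left hg))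

theorem cone_dual {𝔞 : Ideal (MvPolynomial I k)} {q : I → k} [FiniteDimensional k (Tan 𝔞 q)]
    (φ : Tan 𝔞 q →ₗ[k] k) : ∃ z, aeval q z = 0 ∧ ∀ δ : Tan 𝔞 q, dd q δ z = φ δ := by
  have h := Submodule.span_eq_top_of_ne_zero (R := k) (M := Tan 𝔞 q)
    (s := Set.range fun i => coneT 𝔞 q (X i)) (fun δ hδ => by
      by_contra hc
      push Not at hc
      refine hδ (Subtype.ext (funext fun i => ?_))
      exact (cone_dd_X q δ i).symm.trans (hc _ ⟨i, rfl⟩))
  have hφ : φ ∈ Submodule.span k (Set.range fun i => coneT 𝔞 q (X i)) := h ▸ Submodule.mem_top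
  induction hφ using Submodule.span_induction with
  | mem x hx =>
    obtain ⟨i, rfl⟩ := hx
    refine ⟨X i - C (q i), by rw [map_sub, aeval_X, cone_aeval_C, sub_self], fun δ => ?_⟩
    rw [← coneL_apply, map_sub, coneL_apply, coneL_apply, cone_dd_C, sub_zero]
    rfl
  | zero => exact ⟨0, map_zero _, fun δ => map_zero (coneL q δ)⟩
  | add x y _ _ hx hy =>
    obtain ⟨a, ha, ha'⟩ := hx
    obtain ⟨b, hb, hb'⟩ := hy
    refine ⟨a + b, by rw [map_add, ha, hb, add_zero], fun δ => ?_⟩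
    rw [← coneL_apply, map_add, coneL_apply, coneL_apply, ha', hb']
    rfl
  | smul c x _ hx =>
    obtain ⟨a, ha, ha'⟩ := hx
    refine ⟨c • a, by rw [map_smul, ha, smul_zero], fun δ => ?_⟩
    rw [← coneL_apply, map_smul, coneL_apply, ha']
    rfl

theorem cone_lin {V : Type u} [AddCommGroup V] [Module k V] [FiniteDimensional k V]
    {μ : Type} [Fintype μ] (π : V →ₗ[k] μ → k) (hπ : Function.Surjective π) :
    ∃ (r : ℕ) (L : μ ⊕ Fin r → V →ₗ[k] k),
      Fintype.card μ + r = Module.finrank k V ∧ (∀ δ i, L (.inl i) δ = π δ i) ∧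
      ∀ φ : V →ₗ[k] k, ∃ a : μ ⊕ Fin r → k, ∀ δ, φ δ = ∑ j, a j * L j δ := by
  classical
  let e := (Module.finBasis k (LinearMap.ker π)).equivFun
  obtain ⟨ρ, hρ⟩ := LinearMap.exists_extend e.toLinearMap
  let L : V →ₗ[k] (μ ⊕ Fin (Module.finrank k (LinearMap.ker π)) → k) :=
    LinearMap.pi fun j => Sum.elim (fun i => LinearMap.proj i ∘ₗ π)
      (fun i => LinearMap.proj i ∘ₗ ρ) j
  have hL : LinearMap.ker L = ⊥ := by
    rw [LinearMap.ker_eq_bot']
    intro δ hδ
    have h1 : δ ∈ LinearMap.ker π := funext fun i => congrFun hδ (.inl i)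
    have h2 : e ⟨δ, h1⟩ = 0 :=
      (LinearMap.congr_fun hρ ⟨δ, h1⟩).symm.trans (funext fun i => congrFun hδ (.inr i))
    exact congrArg Subtype.val (e.map_eq_zero_iff.1 h2)
  obtain ⟨g, hg⟩ := L.exists_leftInverse_of_injective hL
  refine ⟨_, fun j => LinearMap.proj j ∘ₗ L, ?_, fun δ i => rfl, fun φ => ?_⟩
  · rw [← LinearMap.finrank_range_add_finrank_ker π, LinearMap.range_eq_top.2 hπ, finrank_top,
      Module.finrank_fintype_fun_eq_card]
  · refine ⟨fun j => (φ ∘ₗ g) fun i => if j = i then 1 else 0, fun δ => ?_⟩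
    have h1 : φ δ = (φ ∘ₗ g) (L δ) := congrArg φ (LinearMap.congr_fun hg δ).symm
    rw [h1, LinearMap.pi_apply_eq_sum_univ]
    refine Finset.sum_congr rfl fun j _ => ?_
    rw [smul_eq_mul, mul_comm]
    rfl

theorem cone_coord {𝔞 : Ideal (MvPolynomial I k)} {q : I → k} [FiniteDimensional k (Tan 𝔞 q)]
    {μ : Type} [Fintype μ] (π : Tan 𝔞 q →ₗ[k] μ → k) (hπ : Function.Surjective π) :
    ∃ (r : ℕ) (z : μ ⊕ Fin r → MvPolynomial I k),
      Fintype.card μ + r = Module.finrank k (Tan 𝔞 q) ∧ (∀ j, aeval q (z j) = 0) ∧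
      (∀ (δ : Tan 𝔞 q) i, dd q δ (z (.inl i)) = π δ i) ∧
      ∀ φ : Tan 𝔞 q →ₗ[k] k, ∃ a : μ ⊕ Fin r → k, ∀ δ : Tan 𝔞 q,
        φ δ = ∑ j, a j * dd q δ (z j) := by
  obtain ⟨r, L, h1, h2, h3⟩ := cone_lin π hπ
  choose z hz hz' using fun j => cone_dual (L j)
  refine ⟨r, z, h1, hz, fun δ i => (hz' (.inl i) δ).trans (h2 δ i), fun φ => ?_⟩
  simp only [hz']
  exact h3 φ

theorem cone_nak {𝔞 : Ideal (MvPolynomial I k)} (h : FGI 𝔞) {q : I → k} (hq : On 𝔞 q)
    {ν : Type} [Fintype ν] {z : ν → MvPolynomial I k} (hz : ∀ j, aeval q (z j) = 0)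
    (hsp : ∀ φ : Tan 𝔞 q →ₗ[k] k, ∃ a : ν → k, ∀ δ : Tan 𝔞 q, φ δ = ∑ j, a j * dd q δ (z j)) :
    ∃ s, aeval q s = 1 ∧ ∀ f, aeval q f = 0 → s * f ∈ 𝔞 ⊔ Ideal.span (Set.range z) := by
  classical
  obtain ⟨S, hS⟩ := h
  set 𝔪 : Ideal (MvPolynomial I k) := RingHom.ker (aeval q) with h𝔪
  let N' : Ideal (MvPolynomial I k) := Ideal.span ((fun i => X i - C (q i)) '' S)
  have hN' : N'.FG := Submodule.fg_span (S.finite_toSet.image _)
  have hN'le : N' ≤ 𝔪 := by
    rw [Ideal.span_le]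
    rintro _ ⟨i, -, rfl⟩
    show aeval q _ = 0
    rw [map_sub, aeval_X, cone_aeval_C, sub_self]
  have hmul : ∀ (J : Ideal (MvPolynomial I k)) (a b : MvPolynomial I k),
      a - C (aeval q a) ∈ J → b - C (aeval q b) ∈ J → a * b - C (aeval q (a * b)) ∈ J := by
    intro J a b ha hb
    have : a * b - C (aeval q (a * b)) =
        (a - C (aeval q a)) * b + C (aeval q a) * (b - C (aeval q b)) := by
      rw [map_mul, C_mul]
      ring
    rw [this]
    exact J.add_mem (J.mul_mem_right _ ha) (J.mul_mem_left _ hb)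
  have hadd : ∀ (J : Ideal (MvPolynomial I k)) (a b : MvPolynomial I k),
      a - C (aeval q a) ∈ J → b - C (aeval q b) ∈ J → a + b - C (aeval q (a + b)) ∈ J := by
    intro J a b ha hb
    rw [map_add, C_add, add_sub_add_comm]
    exact J.add_mem ha hb
  have h1 : ∀ g ∈ Algebra.adjoin k ((X : I → MvPolynomial I k) '' S), g - C (aeval q g) ∈ N' := by
    intro g hg
    induction hg using Algebra.adjoin_induction with
    | mem x hx =>
      obtain ⟨i, hi, rfl⟩ := hx
      rw [aeval_X]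
      exact Ideal.subset_span ⟨i, hi, rfl⟩
    | algebraMap a =>
      rw [algebraMap_eq, cone_aeval_C, sub_self]
      exact N'.zero_mem
    | add a b _ _ ha hb => exact hadd _ a b ha hb
    | mul a b _ _ ha hb => exact hmul _ a b ha hb
  have h2 : ∀ g : MvPolynomial I k, g - C (aeval q g) ∈ 𝔞 ⊔ N' := by
    intro g
    induction g using MvPolynomial.induction_on with
    | C a =>
      rw [cone_aeval_C, sub_self]
      exact Ideal.zero_mem _
    | add a b ha hb => exact hadd _ a b ha hb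
    | mul_X g i ih =>
      refine hmul _ _ _ ih ?_
      obtain ⟨w, hw, hw'⟩ := hS i
      have e := hq _ hw'
      rw [map_sub, sub_eq_zero] at e
      rw [e, ← sub_add_sub_cancel _ w]
      exact Ideal.add_mem _ (Ideal.mem_sup_left hw') (Ideal.mem_sup_right (h1 w hw))
  have h3 : 𝔪 ≤ 𝔞 ⊔ N' := fun g hg => by
    have := h2 g
    rwa [show aeval q g = 0 from hg, C_0, sub_zero] at this
  have h4 : 𝔪 ≤ (𝔞 ⊔ Ideal.span (Set.range z)) ⊔ 𝔪 • N' := by
    intro f hf
    obtain ⟨a, ha⟩ := hsp (coneT 𝔞 q f)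
    have h5 : f - ∑ j, a j • z j ∈ 𝔞 ⊔ 𝔪 * 𝔪 := by
      refine cone_mem_sq hq ?_ fun δ hδ => ?_
      · rw [map_sub, show aeval q f = 0 from hf, map_sum]
        simp only [map_smul, hz, smul_zero, Finset.sum_const_zero, sub_zero]
      · rw [← coneL_apply, map_sub, map_sum, sub_eq_zero]
        simp only [map_smul, smul_eq_mul, coneL_apply]
        exact ha ⟨δ, hδ⟩
    have h6 : 𝔞 ⊔ 𝔪 * 𝔪 ≤ (𝔞 ⊔ Ideal.span (Set.range z)) ⊔ 𝔪 • N' := by
      refine sup_le (le_sup_of_le_left le_sup_left) ((Ideal.mul_mono_right h3).trans ?_)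
      rw [Ideal.mul_sup]
      exact sup_le_sup (le_sup_of_le_left Ideal.mul_le_right) le_rfl
    rw [← sub_add_cancel f (∑ j, a j • z j)]
    refine Ideal.add_mem _ (h6 h5) (Ideal.mem_sup_left (Ideal.mem_sup_right ?_))
    refine Ideal.sum_mem _ fun j _ => ?_
    rw [smul_eq_C_mul]
    exact Ideal.mul_mem_left _ _ (Ideal.subset_span ⟨j, rfl⟩)
  obtain ⟨s, hs, hs'⟩ := Submodule.exists_sub_one_mem_and_smul_le_of_fg_of_le_sup hN' hN'le h4
  refine ⟨s, ?_, fun f hf => hs' (Submodule.smul_mem_pointwise_smul f s 𝔪 hf)⟩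
  have : aeval q (s - 1) = 0 := hs
  rwa [map_sub, map_one, sub_eq_zero] at this

end PR0
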