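import Pool.Agent.Work.MP_da2620_ag.ConeA

/-!
# The chart of the blow up and lifting of points
-/

namespace PR0

open MvPolynomial

universe u

variable {k : Type u} [Field k] {I ν : Type}

/-- Variables of the chart. -/
abbrev ConeI (I ν : Type) : Type := I ⊕ Option (Option ν)

/-- The inverse of `s`. -/
abbrev coneU : ConeI I ν := .inr none
/-- The equation of the exceptional divisor. -/
abbrev coneE : ConeI I ν := .inr (some none)
/-- The new coordinates. -/
abbrev coneZ (j : ν) : ConeI I ν := .inr (some (some j))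

/-- A point of the chart. -/
def conePt {R : Type u} (c : I → R) (u t : R) (z : ν → R) : ConeI I ν → R :=
  Sum.elim c fun o => o.elim u fun o' => o'.elim t z

/-- A point of the exceptional divisor. -/
def conePt0 {R : Type u} [CommRing R] [Algebra k R] (q : I → k) (z : ν → R) : ConeI I ν → R :=
  conePt (algebraMap k R ∘ q) 1 0 z

/-- The ideal of the chart. -/
noncomputable def coneCh (𝔞 : Ideal (MvPolynomial I k)) (s : MvPolynomial I k)
    (z : ν → MvPolynomial I k) : Ideal (MvPolynomial (ConeI I ν) k) :=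
  𝔞.map (rename Sum.inl : MvPolynomial I k →ₐ[k] MvPolynomial (ConeI I ν) k) ⊔
    Ideal.span (insert (X coneU * rename Sum.inl s - 1)
      (Set.range fun j => rename Sum.inl (z j) - X coneE * X (coneZ j)))

variable {𝔞 : Ideal (MvPolynomial I k)} {s : MvPolynomial I k} {z : ν → MvPolynomial I k}
  {q : I → k}

theorem coneCh_a {f : MvPolynomial I k} (hf : f ∈ 𝔞) : rename Sum.inl f ∈ coneCh 𝔞 s z :=
  Ideal.mem_sup_left (Ideal.mem_map_of_mem _ hf)

theorem coneCh_u : X coneU * rename Sum.inl s - 1 ∈ coneCh 𝔞 s z :=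
  Ideal.mem_sup_right (Ideal.subset_span (Set.mem_insert _ _))

theorem coneCh_z (j : ν) : rename Sum.inl (z j) - X coneE * X (coneZ j) ∈ coneCh 𝔞 s z :=
  Ideal.mem_sup_right (Ideal.subset_span (Set.mem_insert_of_mem _ ⟨j, rfl⟩))

theorem on_coneCh {R : Type u} [CommRing R] [Algebra k R] (c : ConeI I ν → R) :
    On (coneCh 𝔞 s z) c ↔ On 𝔞 (c ∘ Sum.inl) ∧ c coneU * aeval (c ∘ Sum.inl) s = 1 ∧
      ∀ j, aeval (c ∘ Sum.inl) (z j) = c coneE * c (coneZ j) := by
  constructor
  · intro h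
    refine ⟨fun f hf => ?_, ?_, fun j => ?_⟩
    · rw [← aeval_rename]
      exact h _ (coneCh_a hf)
    · have := h _ coneCh_u
      rwa [map_sub, map_mul, aeval_X, aeval_rename, map_one, sub_eq_zero] at this
    · have := h _ (coneCh_z j)
      rwa [map_sub, map_mul, aeval_X, aeval_X, aeval_rename, sub_eq_zero] at this
  · rintro ⟨h1, h2, h3⟩
    have : coneCh 𝔞 s z ≤ RingHom.ker (aeval c : MvPolynomial (ConeI I ν) k →ₐ[k] R) := by
      refine sup_le (Ideal.map_le_iff_le_comap.2 fun f hf => ?_) (Ideal.span_le.2 ?_)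
      · show aeval c (rename Sum.inl f) = 0
        rw [aeval_rename]
        exact h1 f hf
      · rintro _ (rfl | ⟨j, rfl⟩)
        · show aeval c _ = 0
          rw [map_sub, map_mul, aeval_X, aeval_rename, map_one, h2, sub_self]
        · show aeval c _ = 0
          rw [map_sub, map_mul, aeval_X, aeval_X, aeval_rename, h3, sub_self]
    exact fun f hf => this hf

theorem fgi_coneCh [Fintype ν] (h : FGI 𝔞) : FGI (coneCh 𝔞 s z) := by
  classical
  obtain ⟨S, hS⟩ := h
  refine ⟨S.image Sum.inl ∪ Finset.univ.image Sum.inr, ?_⟩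
  rintro (i | o)
  · obtain ⟨w, hw, hw'⟩ := hS i
    refine ⟨rename Sum.inl w, ?_, by simpa only [map_sub, rename_X] using coneCh_a hw'⟩
    have := Subalgebra.mem_map.2 ⟨w, hw, (rfl : rename (Sum.inl : I → ConeI I ν) w = _)⟩
    rw [AlgHom.map_adjoin] at this
    refine Algebra.adjoin_mono ?_ this
    rintro _ ⟨_, ⟨j, hj, rfl⟩, rfl⟩
    exact ⟨Sum.inl j, by simpa using hj, (rename_X _ _).symm⟩
  · exact ⟨X (Sum.inr o), Algebra.subset_adjoin ⟨Sum.inr o, by simp, rfl⟩, by simp⟩

theorem coneCh_mem (hs : ∀ f, aeval q f = 0 → s * f ∈ 𝔞 ⊔ Ideal.span (Set.range z))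
    {f : MvPolynomial I k} (hf : aeval q f = 0) :
    ∃ w, rename Sum.inl f - X coneE * w ∈ coneCh 𝔞 s z := by
  let J := coneCh 𝔞 s z ⊔ Ideal.span {X coneE}
  have h1 : 𝔞 ⊔ Ideal.span (Set.range z) ≤
      J.comap (rename Sum.inl : MvPolynomial I k →ₐ[k] MvPolynomial (ConeI I ν) k) := by
    refine sup_le (fun g hg => Ideal.mem_sup_left (coneCh_a hg)) (Ideal.span_le.2 ?_)
    rintro _ ⟨j, rfl⟩
    show rename Sum.inl (z j) ∈ J
    rw [← sub_add_cancel (rename Sum.inl (z j)) (X coneE * X (coneZ j))]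
    exact J.add_mem (Ideal.mem_sup_left (coneCh_z j))
      (Ideal.mem_sup_right (Ideal.mul_mem_right _ _ (Ideal.subset_span rfl)))
  have h2 : rename Sum.inl (s * f) ∈ J := h1 (hs f hf)
  have h3 : rename Sum.inl f ∈ J := by
    have : (rename Sum.inl f : MvPolynomial (ConeI I ν) k) = X coneU * rename Sum.inl (s * f) -
        (X coneU * rename Sum.inl s - 1) * rename Sum.inl f := by
      rw [map_mul]
      ring
    rw [this]
    exact J.sub_mem (J.mul_mem_left _ h2) (J.mul_mem_right _ (Ideal.mem_sup_left coneCh_u))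
  obtain ⟨a, ha, b, hb, e⟩ := Submodule.mem_sup.1 h3
  obtain ⟨w, rfl⟩ := Ideal.mem_span_singleton'.1 hb
  refine ⟨w, ?_⟩
  rwa [← e, mul_comm w, add_sub_cancel_right]

theorem coneCh_sq (hs : ∀ f, aeval q f = 0 → s * f ∈ 𝔞 ⊔ Ideal.span (Set.range z))
    {f : MvPolynomial I k} (hf : f ∈ 𝔞 ⊔ RingHom.ker (aeval q) * RingHom.ker (aeval q)) :
    ∃ w, rename Sum.inl f - X coneE * (X coneE * w) ∈ coneCh 𝔞 s z := by
  obtain ⟨a, ha, b, hb, rfl⟩ := Submodule.mem_sup.1 hf
  have : ∃ w, rename Sum.inl b - X coneE * (X coneE * w) ∈ coneCh 𝔞 s z := by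
    refine Submodule.mul_induction_on hb (fun x hx y hy => ?_) fun x y hx hy => ?_
    · obtain ⟨w1, h1⟩ := coneCh_mem hs hx
      obtain ⟨w2, h2⟩ := coneCh_mem hs hy
      refine ⟨w1 * w2, ?_⟩
      have : rename Sum.inl (x * y) - X coneE * (X coneE * (w1 * w2)) =
          (rename Sum.inl x - X coneE * w1) * rename Sum.inl y +
            X coneE * w1 * (rename Sum.inl y - X coneE * w2) := by
        rw [map_mul]
        ring
      rw [this]
      exact Ideal.add_mem _ (Ideal.mul_mem_right _ _ h1) (Ideal.mul_mem_left _ _ h2)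
    · obtain ⟨w1, h1⟩ := hx
      obtain ⟨w2, h2⟩ := hy
      refine ⟨w1 + w2, ?_⟩
      rw [map_add, mul_add, mul_add, add_sub_add_comm]
      exact Ideal.add_mem _ h1 h2
  obtain ⟨w, hw⟩ := this
  refine ⟨w, ?_⟩
  rw [map_add, add_sub_assoc]
  exact Ideal.add_mem _ (coneCh_a ha) hw

theorem coneCh_zero (hs1 : aeval q s = 1)
    (hs : ∀ f, aeval q f = 0 → s * f ∈ 𝔞 ⊔ Ideal.span (Set.range z))
    {R : Type u} [CommRing R] [Algebra k R] {c : ConeI I ν → R} (hc : On (coneCh 𝔞 s z) c)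
    (h0 : c coneE = 0) : c = conePt0 q (c ∘ coneZ) := by
  have h1 : c ∘ Sum.inl = algebraMap k R ∘ q := by
    funext i
    obtain ⟨w, hw⟩ := coneCh_mem hs (f := X i - C (q i))
      (by rw [map_sub, aeval_X, cone_aeval_C, sub_self])
    have := hc _ hw
    rwa [map_sub, map_mul, aeval_X, h0, zero_mul, sub_zero, aeval_rename, map_sub, aeval_X,
      aeval_C, sub_eq_zero] at this
  have h2 := ((on_coneCh c).1 hc).2.1
  rw [h1, aeval_algebraMap_apply, hs1, map_one, mul_one] at h2
  funext j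
  rcases j with i | _ | _ | j
  · exact congrFun h1 i
  · exact h2
  · exact h0
  · rfl

theorem on_conePt0 (hq : On 𝔞 q) (hs1 : aeval q s = 1) (hz : ∀ j, aeval q (z j) = 0)
    {R : Type u} [CommRing R] [Algebra k R] (y : ν → R) : On (coneCh 𝔞 s z) (conePt0 q y) := by
  have e : conePt0 q y ∘ Sum.inl = algebraMap k R ∘ q := rfl
  rw [on_coneCh, e]
  refine ⟨fun f hf => ?_, ?_, fun j => ?_⟩
  · rw [aeval_algebraMap_apply, hq f hf, map_zero]
  · rw [aeval_algebraMap_apply, hs1, map_one]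
    exact one_mul 1
  · rw [aeval_algebraMap_apply, hz, map_zero]
    exact (zero_mul _).symm

theorem spc_conePt0 {R R' : Type u} [CommRing R] [Algebra k R] [CommRing R'] [Algebra k R']
    {y : ν → R} {y' : ν → R'} (h : Spc k y y') (q : I → k) :
    Spc k (conePt0 q y) (conePt0 q y') := by
  have := h.aeval (conePt0 q X : ConeI I ν → MvPolynomial ν k)
  convert this using 2 with j j
  · rcases j with i | _ | _ | j <;> simp [conePt0, conePt]
  · rcases j with i | _ | _ | j <;> simp [conePt0, conePt]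

variable {K K' : Type u} [Field K] [Field K'] [Algebra k K] [Algebra k K']

theorem cone_den {J : Type} {c : I → K} {c' : I → K'} (h : Spc k c c') (d : MvPolynomial I k)
    (hd : aeval c' d ≠ 0) {e : J → K} {e' : J → K'}
    (he : ∀ j, ∃ Q : MvPolynomial I k,
      e j * aeval c d = aeval c Q ∧ e' j * aeval c' d = aeval c' Q) : Spc k e e' := by
  have key : ∀ P : MvPolynomial J k, ∃ (n : ℕ) (Q : MvPolynomial I k),
      aeval e P * aeval c d ^ n = aeval c Q ∧ aeval e' P * aeval c' d ^ n = aeval c' Q := by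
    intro P
    induction P using MvPolynomial.induction_on with
    | C a => exact ⟨0, C a, by simp, by simp⟩
    | add a b ha hb =>
      obtain ⟨n, Q, h1, h2⟩ := ha
      obtain ⟨n', Q', h1', h2'⟩ := hb
      refine ⟨n + n', Q * d ^ n' + Q' * d ^ n, ?_, ?_⟩
      · simp only [map_add, map_mul, map_pow, ← h1, ← h1']
        ring
      · simp only [map_add, map_mul, map_pow, ← h2, ← h2']
        ring
    | mul_X a j ha =>
      obtain ⟨n, Q, h1, h2⟩ := ha
      obtain ⟨Q', h1', h2'⟩ := he j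
      refine ⟨n + 1, Q * Q', ?_, ?_⟩
      · simp only [map_mul, aeval_X, ← h1, ← h1']
        ring
      · simp only [map_mul, aeval_X, ← h2, ← h2']
        ring
  intro P hP
  obtain ⟨n, Q, h1, h2⟩ := key P
  rw [hP, zero_mul] at h1
  rw [h Q h1.symm] at h2
  exact (mul_eq_zero.1 h2).resolve_right (pow_ne_zero n hd)

theorem cone_spc_indep {J : Type} {y : J → K} (h : AlgebraicIndependent k y) {R : Type u}
    [CommRing R] [Algebra k R] (y' : J → R) : Spc k y y' := fun f hf => by
  rw [algebraicIndependent_iff.1 h f hf, map_zero]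

theorem cone_indep {J : Type} [Algebra K K'] [IsScalarTower k K K'] {y : J → K'}
    (h : AlgebraicIndependent K y) (c : I → K) : AlgebraicIndependent
      (IntermediateField.adjoin k (Set.range fun i => IsScalarTower.toAlgHom k K K' (c i))) y := by
  let ι := IsScalarTower.toAlgHom k K K'
  have hle : IntermediateField.adjoin k (Set.range fun i => ι (c i)) ≤ ι.fieldRange := by
    rw [IntermediateField.adjoin_le_iff]
    rintro _ ⟨i, rfl⟩
    exact ⟨c i, rfl⟩
  let f := (AlgEquiv.ofInjectiveField ι).symm.toAlgHom.comp (IntermediateField.inclusion hle)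
  refine AlgebraicIndependent.of_ringHom_of_comp_eq f.toRingHom (RingHom.id K') h
    f.toRingHom.injective ?_
  ext x
  exact congrArg Subtype.val
    ((AlgEquiv.ofInjectiveField ι).apply_symm_apply (IntermediateField.inclusion hle x))

theorem cone_lift [Fintype ν] (h : FGI 𝔞) (hs1 : aeval q s = 1) (hz : ∀ j, aeval q (z j) = 0)
    (hs : ∀ f, aeval q f = 0 → s * f ∈ 𝔞 ⊔ Ideal.span (Set.range z)) {c : I → K} (hc : On 𝔞 c)
    (hcq : Spc k c q) :
    ∃ (Ω : Type u) (_ : Field Ω) (_ : Algebra k Ω) (c' : ConeI I ν → Ω) (Ω' : Type u)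
      (_ : Field Ω') (_ : Algebra k Ω') (_ : IsAlgClosed Ω') (y : ν → Ω'),
      On (coneCh 𝔞 s z) c' ∧ c' coneE ≠ 0 ∧ Spc k (c' ∘ Sum.inl) c ∧ Spc k c (c' ∘ Sum.inl) ∧
      dm k c + 1 ≤ dm k c' ∧ Spc k c' (conePt0 q y) ∧ dm k c ≤ dm k y := by
  obtain ⟨Ω, _, _, _, _, _, y, hy⟩ := exists_generic (k := k) K (Fin 1)
  let ι := IsScalarTower.toAlgHom k K Ω
  let c1 : I → Ω := fun i => ι (c i)
  have hF : AlgebraicIndependent (IntermediateField.adjoin k (Set.range c1)) y := cone_indep hy c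
  have ht : y 0 ≠ 0 := hy.ne_zero 0
  have h1 : Spc k c1 c := Spc.of_map c ι ι.toRingHom.injective
  have h2 : Spc k c c1 := Spc.map c ι
  have hS : aeval c1 s ≠ 0 := fun e => by
    have := (h1.trans hcq) s e
    rw [hs1] at this
    exact one_ne_zero this
  let c' : ConeI I ν → Ω := conePt c1 (aeval c1 s)⁻¹ (y 0) fun j => aeval c1 (z j) / y 0
  have hon : On (coneCh 𝔞 s z) c' :=
    (on_coneCh c').2 ⟨hc.spc h2, inv_mul_cancel₀ hS, fun j => (mul_div_cancel₀ _ ht).symm⟩
  have hdm : dm k c + 1 ≤ dm k c' := by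
    have e1 : rk k (Set.range c1) = dm k c := by
      rw [show Set.range c1 = ι '' Set.range c from Set.range_comp ι c, rk_image]
      rfl
    have e2 := rk_union (k := k) (Set.range c1) (Set.range y)
    rw [rk_range_of_indep hF, e1, Nat.cast_one] at e2
    rw [← e2]
    refine rk_mono ?_
    rintro _ (⟨i, rfl⟩ | ⟨i, rfl⟩)
    · exact ⟨.inl i, rfl⟩
    · exact ⟨coneE, congrArg y (Subsingleton.elim 0 i)⟩
  have h3 : Spc k (Sum.elim c1 y) (Sum.elim (algebraMap k Ω ∘ q) y) :=
    Spc.generic ((h1.trans hcq).trans (Spc.map q (Algebra.ofId k Ω))) hF y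
  have h4 : Spc k c' (conePt (algebraMap k Ω ∘ q) 1 (y 0) (0 : ν → Ω)) := by
    have e1 : ∀ f : MvPolynomial I k, aeval (Sum.elim c1 y) (rename Sum.inl f) = aeval c1 f :=
      fun f => aeval_rename _ _ _
    have e2 : ∀ f : MvPolynomial I k, aeval (Sum.elim (algebraMap k Ω ∘ q) y) (rename Sum.inl f) =
        algebraMap k Ω (aeval q f) := fun f =>
      (aeval_rename _ _ _).trans (aeval_algebraMap_apply Ω q f)
    refine cone_den h3 (rename Sum.inl s * X (Sum.inr 0)) ?_ ?_
    · rw [map_mul, e2, hs1, map_one, one_mul, aeval_X]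
      exact ht
    · rintro (i | _ | _ | j)
      · exact ⟨X (.inl i) * (rename Sum.inl s * X (Sum.inr 0)),
          by rw [map_mul _ (X _), aeval_X]; rfl, by rw [map_mul _ (X _), aeval_X]; rfl⟩
      · refine ⟨X (.inr 0), ?_, ?_⟩
        · rw [map_mul, e1, ← mul_assoc]
          exact (congrArg (· * _) (inv_mul_cancel₀ hS)).trans (one_mul _)
        · rw [map_mul, e2, hs1, map_one, one_mul]
          exact one_mul _
      · exact ⟨X (.inr 0) * (rename Sum.inl s * X (Sum.inr 0)),
          by rw [map_mul _ (X _), aeval_X]; rfl, by rw [map_mul _ (X _), aeval_X]; rfl⟩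
      · refine ⟨rename Sum.inl (z j) * rename Sum.inl s, ?_, ?_⟩
        · rw [map_mul, map_mul, e1, e1, aeval_X]
          show aeval c1 (z j) / y 0 * (aeval c1 s * y 0) = _
          field_simp
        · rw [map_mul _ (rename _ (z j)), e2, hz, map_zero, zero_mul]
          exact zero_mul _
  have h5 : Spc k (conePt (algebraMap k Ω ∘ q) 1 (y 0) (0 : ν → Ω)) (conePt0 q (0 : ν → k)) := by
    have := (cone_spc_indep (hy.restrictScalars (algebraMap k K).injective) (0 : Fin 1 → k)).aeval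
      (conePt (C ∘ q) 1 (X 0) 0 : ConeI I ν → MvPolynomial (Fin 1) k)
    convert this using 2 with j j
    · rcases j with i | _ | _ | j <;> simp [conePt]
    · rcases j with i | _ | _ | j <;> simp [conePt0, conePt]
  obtain ⟨Ω', _, _, _, e, he1, -, he2, he3⟩ := krull ((fgi_coneCh h).fg hon) (h4.trans h5)
    (fun _ : Fin 1 => X coneE) (fun _ => aeval_X _ _)
  have he := coneCh_zero hs1 hs (hon.spc he1) ((aeval_X _ _).symm.trans (he2 0))
  refine ⟨Ω, _, _, c', Ω', _, _, inferInstance, e ∘ coneZ, hon, ht, h1, h2, hdm, he ▸ he1, ?_⟩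
  have h6 : dm k e ≤ dm k (e ∘ coneZ) := by
    refine rk_le_of_mem ?_
    rintro _ ⟨j, rfl⟩
    rw [congrFun he j]
    rcases j with i | _ | _ | j
    · exact IntermediateField.algebraMap_mem _ _
    · exact one_mem _
    · exact zero_mem _
    · exact IntermediateField.subset_adjoin _ _ ⟨j, rfl⟩
  have h7 : dm k c + 1 ≤ dm k (e ∘ coneZ) + 1 := by
    rw [Nat.card_fin, Nat.cast_one] at he3
    exact hdm.trans (he3.trans (add_le_add_left h6 1))
  exact (ENat.add_le_add_iff_right ENat.one_ne_top).1 h7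

theorem cone_top {μ : Type} {r m g : ℕ} {y : μ ⊕ Fin r → K} (hle : dm k (y ∘ Sum.inl) + g ≤ m)
    (hd : ((m + r : ℕ) : ℕ∞) ≤ dm k y + g) : (m : ℕ∞) ≤ dm k (y ∘ Sum.inl) + g ∧
      AlgebraicIndependent (IntermediateField.adjoin k (Set.range (y ∘ Sum.inl))) (y ∘ Sum.inr) := by
  have h1 : dm k y = dm k (y ∘ Sum.inl) +
      rk (IntermediateField.adjoin k (Set.range (y ∘ Sum.inl))) (Set.range (y ∘ Sum.inr)) := by
    rw [dm, Sum.range_eq, rk_union]
    rfl
  have h2 : rk (IntermediateField.adjoin k (Set.range (y ∘ Sum.inl))) (Set.range (y ∘ Sum.inr)) ≤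
      r := by
    refine (rk_le_encard _).trans ?_
    rw [← Set.image_univ]
    refine (Set.encard_image_le _ _).trans ?_
    simp
  rw [h1] at hd
  have key : ∀ a b : ℕ∞, a + g ≤ m → b ≤ r → ((m + r : ℕ) : ℕ∞) ≤ a + b + g →
      (m : ℕ∞) ≤ a + g ∧ (r : ℕ∞) ≤ b := by
    intro a b ha hb hab
    lift a to ℕ using (ne_top_of_le_ne_top (ENat.natCast_ne_top m) (le_self_add.trans ha))
    lift b to ℕ using (ne_top_of_le_ne_top (ENat.natCast_ne_top r) hb)
    norm_cast at *
    omega
  obtain ⟨h3, h4⟩ := key _ _ hle h2 hd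
  exact ⟨h3, indep_of_rk (by rwa [Nat.card_fin])⟩

end PR0
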