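import Pool.Agent.Work.MP_da2620_ag.RR
import Pool.Agent.Work.MP_da2620_ag.Arc

-- merged part: Pool.Agent.Work.MP_da2620_ag.SpecA
section
/-!
# General lemmas for the reduction of a function field
-/

namespace PR0

open Polynomial IntermediateField

universe u

section Val
variable {L : Type u} [Field L]

theorem SpecA_one (W : ValuationSubring L) {u : L} (h0 : u ≠ 0) (h : u ∈ W) (h' : u⁻¹ ∈ W) :
    W.valuation u = 1 := by
  have h1 := (W.valuation_le_one_iff _).2 h'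
  rw [map_inv₀, inv_le_one₀ (by simpa [pos_iff_ne_zero] using h0)] at h1
  exact le_antisymm ((W.valuation_le_one_iff _).2 h) h1

/-- in a vanishing sum two terms have the same value -/
theorem SpecA_two (W : ValuationSubring L) (t : ℕ → L) (n : ℕ)
    (h : ∑ i ∈ Finset.range n, t i = 0) {k : ℕ} (hk : k < n) (hk' : t k ≠ 0) :
    ∃ i < n, ∃ j < n, i < j ∧ t i ≠ 0 ∧ t j ≠ 0 ∧ W.valuation (t i) = W.valuation (t j) := by
  obtain ⟨i, hi, hmax⟩ := (Finset.range n).exists_max_image (fun i => W.valuation (t i))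
    ⟨k, Finset.mem_range.2 hk⟩
  have hi0 : t i ≠ 0 := fun e => by
    have := hmax k (Finset.mem_range.2 hk)
    rw [e, map_zero, le_zero_iff, map_eq_zero] at this
    exact hk' this
  obtain ⟨j, hj, hji, e⟩ : ∃ j ∈ Finset.range n, j ≠ i ∧ W.valuation (t j) = W.valuation (t i) := by
    by_contra! hc
    have := W.valuation.map_sum_eq_of_lt hi (f := t)
      fun j hj => (hmax j (Finset.mem_sdiff.1 hj).1).lt_of_ne
        (hc j (Finset.mem_sdiff.1 hj).1 (by simpa using (Finset.mem_sdiff.1 hj).2))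
    rw [h, map_zero, eq_comm, map_eq_zero] at this
    exact hi0 this
  have hj0 : t j ≠ 0 := fun e' => by
    rw [e', map_zero, eq_comm, map_eq_zero] at e
    exact hi0 e
  rw [Finset.mem_range] at hi hj
  rcases hji.lt_or_gt with h | h
  · exact ⟨j, hj, i, hi, h, hj0, hi0, e⟩
  · exact ⟨i, hi, j, hj, h, hi0, hj0, e.symm⟩

/-- the upper half of a polynomial relation is a universal denominator -/
theorem SpecA_den (a : ℕ → L) (j m : ℕ) (g : L)
    (h : ∑ i ∈ Finset.range (j + m), a i * g ^ i = 0) (V : ValuationSubring L)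
    (ha : ∀ i, a i ∈ V) : (∑ i ∈ Finset.range m, a (j + i) * g ^ i) ∈ V ∧
      (∑ i ∈ Finset.range m, a (j + i) * g ^ i) * g ∈ V := by
  by_cases hg : g ∈ V
  · have h1 : (∑ i ∈ Finset.range m, a (j + i) * g ^ i) ∈ V :=
      sum_mem fun i _ => mul_mem (ha _) (pow_mem hg _)
    exact ⟨h1, mul_mem h1 hg⟩
  have hg' : g⁻¹ ∈ V := (V.mem_or_inv_mem g).resolve_left hg
  have h0 : g ≠ 0 := fun e => hg (e ▸ zero_mem _)
  have e : (∑ i ∈ Finset.range m, a (j + i) * g ^ i) * g =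
      -∑ i ∈ Finset.range j, a i * g⁻¹ ^ (j - 1 - i) := by
    rw [Finset.sum_range_add] at h
    apply mul_right_cancel₀ (pow_ne_zero j h0)
    have e1 : (∑ i ∈ Finset.range m, a (j + i) * g ^ i) * g ^ j =
        -∑ i ∈ Finset.range j, a i * g ^ i := by
      rw [eq_neg_iff_add_eq_zero, add_comm, ← h, Finset.sum_mul]
      congr 1
      exact Finset.sum_congr rfl fun i _ => by ring
    rw [mul_right_comm, e1, neg_mul, neg_mul, Finset.sum_mul, Finset.sum_mul]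
    congr 1
    refine Finset.sum_congr rfl fun i hi => ?_
    obtain ⟨r, rfl⟩ := Nat.exists_eq_add_of_lt (Finset.mem_range.1 hi)
    rw [show i + r + 1 - 1 - i = r by omega, inv_pow]
    field_simp
    ring
  have h1 : (∑ i ∈ Finset.range m, a (j + i) * g ^ i) * g ∈ V :=
    e ▸ neg_mem (sum_mem fun i _ => mul_mem (ha _) (pow_mem hg' _))
  exact ⟨by simpa [h0] using mul_mem h1 hg', h1⟩

theorem SpecA_coeff {K : Type u} [Field K] [Algebra K L] (F : IntermediateField K L) {R : Type u}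
    [CommRing R] [Algebra R L] (hR : ∀ r, algebraMap R L r ∈ F) {f : L} (hf : IsIntegral R f)
    (i : ℕ) : IsIntegral R (algebraMap F L ((minpoly F f).coeff i)) := by
  let _ : Algebra R F := ((algebraMap R L).codRestrict F.toSubfield.toSubring hR).toAlgebra
  have : IsScalarTower R F L := .of_algebraMap_eq fun _ => rfl
  have hf' : IsIntegral F f := hf.tower_top
  obtain ⟨p, hp, h0⟩ := hf
  exact (isIntegral_coeff_of_dvd p (minpoly F f) hp (minpoly.monic hf')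
    (minpoly.dvd F f (by rwa [aeval_map_algebraMap])) i).map (IsScalarTower.toAlgHom R F L)

end Val

variable {κ : Type u} [Field κ]

/-- simultaneous primitive scaling of polynomials -/
theorem SpecA_scale {ι : Type*} [Fintype ι] (a : ι → (HF κ)[X]) (h : ∃ i, a i ≠ 0) :
    ∃ (γ : ℝ) (b : ι → (HO κ)[X]),
      (∀ i, a i = C (τ κ γ) * (b i).map (algebraMap (HO κ) (HF κ))) ∧
      ∃ i, (b i).map (hres : HO κ →ₐ[κ] κ).toRingHom ≠ 0 := by
  obtain ⟨i₁, h₁⟩ := h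
  obtain ⟨n₁, hn₁⟩ := support_nonempty.2 h₁
  obtain ⟨⟨i₀, n₀⟩, h₀, hmin⟩ := (Finset.univ.sigma fun i => (a i).support).exists_min_image
    (fun p => hv ((a p.1).coeff p.2)) ⟨⟨i₁, n₁⟩, Finset.mem_sigma.2 ⟨Finset.mem_univ _, hn₁⟩⟩
  obtain ⟨γ, hγ⟩ := Hahn_real (mem_support_iff.1 (Finset.mem_sigma.1 h₀).2)
  dsimp only at hγ hmin
  have h1 : ∀ i, ∃ b : (HO κ)[X], b.map (algebraMap (HO κ) (HF κ)) = C (τ κ (-γ)) * a i := fun i => by
    refine (mem_lifts _).1 ((lifts_iff_coeff_lifts _).2 fun n => ?_)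
    rw [coeff_C_mul]
    refine ⟨⟨_, Hahn_τ_mul.2 ?_⟩, rfl⟩
    by_cases hn : n ∈ (a i).support
    · exact hγ ▸ hmin ⟨i, n⟩ (Finset.mem_sigma.2 ⟨Finset.mem_univ _, hn⟩)
    · rw [notMem_support_iff.1 hn, hv_eq_top.2 rfl]
      exact le_top
  choose b hb using h1
  refine ⟨γ, b, fun i => ?_, i₀, fun e => ?_⟩
  · rw [hb, ← mul_assoc, ← C_mul, ← τ_add, add_neg_cancel, τ_zero, C_1, one_mul]
  · have h2 := congrArg (coeff · n₀) e
    have h3 := congrArg (coeff · n₀) (hb i₀)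
    simp only [coeff_map, coeff_zero, coeff_C_mul] at h2 h3
    have h4 := hres_eq_zero.1 h2
    change ((b i₀).coeff n₀).1 = _ at h3
    rw [h3, hv_mul, hv_τ, hγ, ← WithTop.coe_add, neg_add_cancel] at h4
    exact lt_irrefl _ h4

theorem SpecA_all {L : Type u} [Field L] [Algebra (HF κ) L] {W : ValuationSubring L}
    (hW : ∀ c ∈ HO κ, algebraMap (HF κ) L c ∈ W) {c : HF κ} (hc : c ∉ HO κ)
    (hc' : algebraMap (HF κ) L c ∈ W) (d : HF κ) : algebraMap (HF κ) L d ∈ W := by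
  have c0 : c ≠ 0 := fun e => hc (e ▸ zero_mem _)
  rcases eq_or_ne d 0 with rfl | d0
  · exact hW _ (zero_mem _)
  obtain ⟨ρ, hρ⟩ := Hahn_real c0
  obtain ⟨δ, hδ⟩ := Hahn_real d0
  have h1 : ρ < 0 := by
    rw [mem_HO, hρ, not_le] at hc
    exact WithTop.coe_lt_coe.1 hc
  obtain ⟨n, hn⟩ := exists_nat_ge (δ / ρ)
  have h2 : d / c ^ n ∈ HO κ := by
    refine (Hahn_div (pow_ne_zero n c0)).2 ?_
    rw [hv_pow, hρ, hδ, ← WithTop.coe_nsmul, WithTop.coe_le_coe, nsmul_eq_mul]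
    rwa [div_le_iff_of_neg h1] at hn
  have h3 := mul_mem (hW _ h2) (pow_mem hc' n)
  rwa [← map_pow, ← map_mul, div_mul_cancel₀ _ (pow_ne_zero n c0)] at h3

theorem SpecA_li {L₀ : Type u} [Field L₀] [Algebra κ L₀] {y : L₀} (hy : Transcendental κ y)
    {ι : Type*} [Fintype ι] {v : ι → L₀} (hv : LinearIndependent κ⟮y⟯ v) (a : ι → κ[X])
    (h : ∑ i, aeval y (a i) * v i = 0) (i : ι) : a i = 0 := by
  have h1 := Fintype.linearIndependent_iff.1 hv
    (fun i => ⟨aeval y (a i), algebra_adjoin_le_adjoin κ _ (aeval_mem_adjoin_singleton κ y)⟩) h i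
  exact _root_.transcendental_iff.1 hy _ (congrArg Subtype.val h1)

/-- a reduced algebra of bounded rank over `κ(y)` is a finite product of function fields -/
theorem SpecA_prod {Q : Type u} [CommRing Q] [Algebra κ Q] [IsReduced Q] (y : Q)
    (hu : ∀ p : κ[X], p ≠ 0 → IsUnit (aeval y p)) (N : ℕ)
    (hN : ∀ (ι : Type u) [Fintype ι] (v : ι → Q),
      (∀ a : ι → κ[X], ∑ i, aeval y (a i) * v i = 0 → ∀ i, a i = 0) → Fintype.card ι ≤ N) :
    ∃ (s : ℕ) (L₀ : Fin s → Type u) (_ : ∀ w, Field (L₀ w)) (_ : ∀ w, Algebra κ (L₀ w))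
      (ρ : Q →+* ∀ w, L₀ w), Function.Bijective ρ ∧ (∀ c, ρ (algebraMap κ Q c) = algebraMap κ _ c) ∧
      ∀ w, Transcendental κ (ρ y w) ∧ IsFF κ (L₀ w) := by
  classical
  let φ : FractionRing κ[X] →+* Q := IsLocalization.lift (M := nonZeroDivisors κ[X])
    (g := (aeval y : κ[X] →ₐ[κ] Q).toRingHom) fun p => hu p (nonZeroDivisors.ne_zero p.2)
  have hφ : ∀ p, φ (algebraMap _ _ p) = aeval y p := fun p => IsLocalization.lift_eq _ p
  let _ : Algebra (FractionRing κ[X]) Q := φ.toAlgebra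
  have : Module.Finite (FractionRing κ[X]) Q := by
    refine Module.rank_lt_aleph0_iff.1 ((rank_le (n := N) fun s hs => ?_).trans_lt
      Cardinal.natCast_lt_aleph0)
    rw [← Fintype.card_coe]
    refine hN s (fun i => i.1) fun a ha i => IsFractionRing.injective κ[X] (FractionRing κ[X]) ?_
    rw [map_zero]
    refine Fintype.linearIndependent_iff.1 hs (fun i => algebraMap _ _ (a i)) ?_ i
    rw [← ha]
    exact Finset.sum_congr rfl fun i _ => by rw [← hφ]; rfl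
  have : IsArtinianRing Q := IsArtinianRing.of_finite (FractionRing κ[X]) Q
  let σ := (Finite.equivFin (MaximalSpectrum Q)).symm
  let e := (IsArtinianRing.equivPi Q).toRingEquiv.trans
    (RingEquiv.piCongrLeft (fun m : MaximalSpectrum Q => Q ⧸ m.asIdeal) σ).symm
  refine ⟨_, fun w => Q ⧸ (σ w).asIdeal, fun w => Ideal.Quotient.field _, fun w => inferInstance,
    e.toRingHom, e.bijective, fun c => rfl, fun w => ?_⟩
  let _ : Field (Q ⧸ (σ w).asIdeal) := Ideal.Quotient.field _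
  have h1 : ∀ p : κ[X], aeval (Ideal.Quotient.mk (σ w).asIdeal y) p =
      Ideal.Quotient.mk (σ w).asIdeal (aeval y p) := fun p =>
    aeval_algHom_apply (Ideal.Quotient.mkₐ κ (σ w).asIdeal) y p
  have h2 : Transcendental κ (Ideal.Quotient.mk (σ w).asIdeal y) :=
    _root_.transcendental_iff.2 fun p hp => by
      by_contra h
      exact ((hu p h).map (Ideal.Quotient.mk (σ w).asIdeal)).ne_zero (h1 p ▸ hp)
  refine ⟨h2, _, h2, ?_⟩
  refine Module.rank_lt_aleph0_iff.1 ((rank_le (n := N) fun s hs => ?_).trans_lt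
    Cardinal.natCast_lt_aleph0)
  rw [← Fintype.card_coe]
  choose v hv using fun i : s => Ideal.Quotient.mk_surjective i.1
  refine hN s v fun a ha => SpecA_li h2 hs a ?_
  have h3 := congrArg (Ideal.Quotient.mk (σ w).asIdeal) ha
  simpa only [map_sum, map_mul, map_zero, hv, ← h1] using h3

end PR0
end

-- merged part: Pool.Agent.Work.MP_da2620_ag.Spec
section
/-!
# The reduction of a function field with respect to a function `x` (floors)

`K = HF κ`.  `gau x` is the Gauss valuation ring of `K(x)` (a valuation ring of `K(x)`, integrally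
closed), `spec x` its integral closure in `L`.  `prim`: `f / c` is integral iff the coefficients `c j` of the
minimal polynomial satisfy `c j / c ^ j ∈ gau x`; take `hv c = min (v (c j) / j)`.
`exists_floors`: `𝔪 = {f | f / τ ^ γ ∈ spec x for some γ > 0}` is a radical ideal, the quotient is a
reduced algebra over the residue field `κ(x̄)` of `gau x`, of dimension `≤ [L : K(x)]` (independent
elements lift to independent elements), so a finite product of fields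
(`IsArtinianRing.equivPi`), each a function field over `κ`.
`unit_scale`: the localisation of `spec x` at the maximal ideal of `w` is a valuation ring (an
integrally closed local domain contains `f` or `1/f` if `f` is a root of a polynomial with a unit
coefficient); two terms of the minimal polynomial have the same value, so `f / τ ^ γ` is a unit for some
`γ`.  `kill`: if `u` reduces to `0` at all `w' ≠ w` and `g = a / s` with `s` nonzero at `w`, take `s'` with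
`s s' ≡ 1` at `w` ...; rank one: `u ^ n g` is in all the valuation rings for large `n`, and `spec x` is the
intersection of its localisations.
-/

namespace PR0

open Polynomial

universe u

variable {κ : Type u} [Field κ] {L : Type u} [Field L] [Algebra (HF κ) L]

/-- Evaluation of polynomials over the valuation ring. -/
noncomputable def evO (x : L) : (HO κ)[X] →+* L :=
  eval₂RingHom ((algebraMap (HF κ) L).comp (algebraMap (HO κ) (HF κ))) x

/-- The Gauss valuation ring of `K(x)`. -/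
noncomputable def gau (κ : Type u) [Field κ] [Algebra (HF κ) L] (x : L) : Subring L :=
  Subring.closure {f | ∃ a b : (HO κ)[X], b.map (hres : HO κ →ₐ[κ] κ).toRingHom ≠ 0 ∧
    f = evO x a / evO x b}

/-- Its integral closure. -/
noncomputable def spec (κ : Type u) [Field κ] [Algebra (HF κ) L] (x : L) : Subring L :=
  (integralClosure (gau κ x) L).toSubring

theorem Spec_evO_eq (x : L) (a : (HO κ)[X]) :
    evO x a = aeval x (a.map (algebraMap (HO κ) (HF κ))) := by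
  rw [aeval_def, eval₂_map]
  rfl
theorem Spec_evO_C (x : L) (c : HO κ) : evO x (C c) = algebraMap (HF κ) L c := eval₂_C _ _
theorem Spec_evO_X (x : L) : evO (κ := κ) x X = x := eval₂_X _ _
theorem Spec_evO_gau (x : L) (a : (HO κ)[X]) : evO x a ∈ gau κ x :=
  Subring.subset_closure ⟨a, 1, by simp, by simp⟩
theorem Spec_inv_gau (x : L) {b : (HO κ)[X]} (hb : b.map (hres : HO κ →ₐ[κ] κ).toRingHom ≠ 0) :
    (evO x b)⁻¹ ∈ gau κ x := Subring.subset_closure ⟨1, b, hb, by simp⟩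
theorem Spec_le (x : L) : gau κ x ≤ spec κ x := fun f hf =>
  isIntegral_algebraMap (x := (⟨f, hf⟩ : gau κ x))
theorem Spec_int {x f : L} : f ∈ spec κ x ↔ IsIntegral (gau κ x) f := Iff.rfl
theorem Spec_mem_iff {x f : L} :
    f ∈ spec κ x ↔ ∀ W : ValuationSubring L, gau κ x ≤ W.toSubring → f ∈ W :=
  ⟨fun h W hW => FFA_int W (fun a => hW a.2) h, fun h => by
    rw [spec, gau, ← iInf_valuationSubring_superset, Subring.mem_iInf]
    exact fun V => h V.1 (Subring.closure_le.2 V.2)⟩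

theorem evO_mem (x : L) (a : (HO κ)[X]) : evO x a ∈ spec κ x := Spec_le x (Spec_evO_gau x a)
theorem const_mem_spec (x : L) (c : HO κ) : algebraMap (HF κ) L c ∈ spec κ x :=
  Spec_evO_C x c ▸ evO_mem x (C c)
theorem x_mem_spec (x : L) : x ∈ spec κ x := by
  have := evO_mem (κ := κ) x X
  rwa [Spec_evO_X] at this

theorem Spec_smul {x f : L} {c : HF κ} (hc : c ∈ HO κ) (hf : f ∈ spec κ x) : c • f ∈ spec κ x := by
  rw [Algebra.smul_def]
  exact mul_mem (const_mem_spec x ⟨c, hc⟩) hf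

theorem Spec_τ_mem {γ : ℝ} : τ κ γ ∈ HO κ ↔ 0 ≤ γ := by
  rw [mem_HO, hv_τ]
  exact WithTop.coe_le_coe

theorem Spec_mono {x f : L} {γ δ : ℝ} (h : γ ≤ δ) (hf : τ κ γ • f ∈ spec κ x) :
    τ κ δ • f ∈ spec κ x := by
  have := Spec_smul (Spec_τ_mem.2 (sub_nonneg.2 h)) hf
  rwa [smul_smul, ← τ_add, sub_add_cancel] at this

theorem Spec_cW {x : L} {W : ValuationSubring L} (hW : gau κ x ≤ W.toSubring) :
    ∀ c ∈ HO κ, algebraMap (HF κ) L c ∈ W := fun c hc =>
  Spec_mem_iff.1 (const_mem_spec x ⟨c, hc⟩) W hW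

/-- Extensions of the Gauss valuation. -/
def SpecGood (κ : Type u) [Field κ] [Algebra (HF κ) L] (x : L) (W : ValuationSubring L) : Prop :=
  gau κ x ≤ W.toSubring ∧ ∀ c : HF κ, algebraMap (HF κ) L c ∈ W → c ∈ HO κ

theorem Spec_good {x : L} {W : ValuationSubring L} (hW : gau κ x ≤ W.toSubring)
    (h : algebraMap (HF κ) L (τ κ 1) ∈ W.nonunits) : SpecGood κ x W := by
  refine ⟨hW, fun c hc => by_contra fun hc' => ?_⟩
  have h1 := (W.valuation_le_one_iff _).2 (SpecA_all (Spec_cW hW) hc' hc (τ κ (-1)))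
  have h2 := mul_lt_one_of_nonneg_of_lt_one_left zero_le (W.mem_nonunits_iff.1 h) h1
  rw [← map_mul, ← map_mul, ← τ_add, add_neg_cancel, τ_zero, map_one, map_one] at h2
  exact lt_irrefl _ h2

theorem SpecGood.lt {x : L} {W : ValuationSubring L} (hW : SpecGood κ x W) {c : HF κ}
    (hc : 0 < hv c) : W.valuation (algebraMap (HF κ) L c) < 1 := by
  rcases eq_or_ne c 0 with rfl | h0
  · simp
  refine W.mem_nonunits_iff.1 ((W.mem_nonunits_iff_or).2 (.inr fun h => ?_))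
  rw [← map_inv₀] at h
  have h1 := hW.2 _ h
  rw [inv_eq_one_div, mem_HO, Hahn_div h0, hv_one] at h1
  exact absurd hc h1.not_gt

theorem SpecGood.lt' {x : L} {W : ValuationSubring L} (hW : SpecGood κ x W) {b : (HO κ)[X]}
    (hb : b.map (hres : HO κ →ₐ[κ] κ).toRingHom = 0) : W.valuation (evO x b) < 1 := by
  rw [evO, coe_eval₂RingHom, eval₂_eq_sum, sum_def]
  refine W.valuation.map_sum_lt one_ne_zero fun i _ => ?_
  have h1 : hres (b.coeff i) = 0 := by simpa using congrArg (coeff · i) hb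
  rw [map_mul]
  exact mul_lt_one_of_nonneg_of_lt_one_left zero_le (hW.lt (hres_eq_zero.1 h1))
    ((W.valuation_le_one_iff _).2 (pow_mem (Spec_mem_iff.1 (x_mem_spec x) W hW.1) i))

theorem Spec_ρ {Q : Type u} [CommRing Q] [Algebra κ Q] {x : L} (ρ : spec κ x →+* Q)
    (hc : ∀ c : HO κ, ρ ⟨_, const_mem_spec x c⟩ = algebraMap κ Q (hres c)) (b : (HO κ)[X]) :
    ρ ⟨_, evO_mem x b⟩ =
      aeval (ρ ⟨x, x_mem_spec x⟩) (b.map (hres : HO κ →ₐ[κ] κ).toRingHom) := by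
  have : ρ.comp ((evO x).codRestrict _ (evO_mem x)) =
      (aeval (ρ ⟨x, x_mem_spec x⟩) : κ[X] →ₐ[κ] Q).toRingHom.comp
        (mapRingHom (hres : HO κ →ₐ[κ] κ).toRingHom) := by
    refine ringHom_ext (fun c => ?_) ?_
    · refine (congrArg ρ (Subtype.ext (Spec_evO_C x c))).trans ((hc c).trans ?_)
      simp
    · refine (congrArg ρ (Subtype.ext (Spec_evO_X x) : _ = ⟨x, x_mem_spec x⟩)).trans ?_
      simp
  exact DFunLike.congr_fun this b

/-- The kernel of the reduction. -/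
def SpecMax (κ : Type u) [Field κ] [Algebra (HF κ) L] (x : L) : Ideal (spec κ x) where
  carrier := {f | ∃ γ : ℝ, 0 < γ ∧ (τ κ (-γ) • f.1 : L) ∈ spec κ x}
  add_mem' := by
    rintro a b ⟨γ, hγ, ha⟩ ⟨δ, hδ, hb⟩
    refine ⟨min γ δ, lt_min hγ hδ, ?_⟩
    rw [Subring.coe_add, smul_add]
    exact add_mem (Spec_mono (neg_le_neg (min_le_left _ _)) ha)
      (Spec_mono (neg_le_neg (min_le_right _ _)) hb)
  zero_mem' := ⟨1, one_pos, by simp⟩
  smul_mem' := by
    rintro c a ⟨γ, hγ, ha⟩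
    refine ⟨γ, hγ, ?_⟩
    rw [smul_eq_mul, Subring.coe_mul, ← mul_smul_comm]
    exact mul_mem c.2 ha

theorem SpecMax_rad (x : L) : (SpecMax κ x).IsRadical := by
  rintro f ⟨n, hn⟩
  obtain ⟨γ, hγ, h⟩ := (SpecMax κ x).mul_mem_right f hn
  refine ⟨γ / (n + 1 : ℕ), by positivity, IsIntegral.of_pow n.succ_pos ?_⟩
  rw [_root_.smul_pow, Arc_τ_pow, mul_neg, mul_div_cancel₀ _ (by positivity), pow_succ]
  exact h

theorem SpecMax_const (x : L) {c : HO κ} (hc : hres c = 0) :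
    (⟨_, const_mem_spec x c⟩ : spec κ x) ∈ SpecMax κ x := by
  have h1 := hres_eq_zero.1 hc
  rcases eq_or_ne c.1 0 with h0 | h0
  · exact ⟨1, one_pos, by simp [h0]⟩
  obtain ⟨γ, hγ⟩ := Hahn_real h0
  refine ⟨γ, WithTop.coe_lt_coe.1 (h1.trans_eq hγ), ?_⟩
  rw [Algebra.smul_def, ← map_mul]
  exact const_mem_spec x ⟨_, Hahn_τ_mul.2 hγ.ge⟩

theorem Spec_inv_le {x : L} (hx : x ≠ 0) : gau κ x⁻¹ ≤ gau κ x := by
  let _ : Invertible x⁻¹ := invertibleOfNonzero (inv_ne_zero hx)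
  have key : ∀ (a : (HO κ)[X]) (N : ℕ), a.natDegree ≤ N →
      evO x (reflect N a) * x⁻¹ ^ N = evO x⁻¹ a := fun a N h => by
    have := eval₂_reflect_mul_pow ((algebraMap (HF κ) L).comp (algebraMap (HO κ) (HF κ))) x⁻¹ N a h
    rwa [invOf_eq_inv, inv_inv] at this
  refine Subring.closure_le.2 ?_
  rintro _ ⟨a, b, hb, rfl⟩
  refine Subring.subset_closure ⟨reflect (max a.natDegree b.natDegree) a,
    reflect (max a.natDegree b.natDegree) b, ?_, ?_⟩
  · rwa [← reflect_map, Ne, reflect_eq_zero_iff]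
  · rw [← key a _ (le_max_left _ b.natDegree), ← key b _ (le_max_right a.natDegree _),
      mul_div_mul_right _ _ (pow_ne_zero _ (inv_ne_zero hx))]

theorem Spec_add_le (x : L) (c : HO κ) : gau κ (x + algebraMap (HF κ) L c) ≤ gau κ x := by
  have key : ∀ a : (HO κ)[X], evO (x + algebraMap (HF κ) L c) a = evO x (a.comp (X + C c)) :=
    fun a => by
      simp only [evO, coe_eval₂RingHom, eval₂_comp, eval₂_add, eval₂_X, eval₂_C]
      rfl
  refine Subring.closure_le.2 ?_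
  rintro _ ⟨a, b, hb, rfl⟩
  refine Subring.subset_closure ⟨a.comp (X + C c), b.comp (X + C c), ?_, by rw [key, key]⟩
  rwa [map_comp, Polynomial.map_add, map_X, map_C, Ne, comp_X_add_C_eq_zero_iff]

theorem Spec_congr {x y : L} (h : gau κ x = gau κ y) : spec κ x = spec κ y := by
  rw [spec, spec, h]

section
variable {x : L} (hx : Transcendental (HF κ) x)
include hx

theorem Spec_inj : Function.Injective (evO (κ := κ) x) := fun a b h => by
  rw [Spec_evO_eq, Spec_evO_eq] at h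
  exact map_injective _ Subtype.val_injective (transcendental_iff_injective.1 hx h)

theorem Spec_ne {b : (HO κ)[X]} (hb : b.map (hres : HO κ →ₐ[κ] κ).toRingHom ≠ 0) : evO x b ≠ 0 :=
  fun h => hb (by rw [Spec_inj hx (h.trans (map_zero _).symm), Polynomial.map_zero])

theorem Spec_unit {W : ValuationSubring L} (hW : gau κ x ≤ W.toSubring) {b : (HO κ)[X]}
    (hb : b.map (hres : HO κ →ₐ[κ] κ).toRingHom ≠ 0) : W.valuation (evO x b) = 1 :=
  SpecA_one W (Spec_ne hx hb) (hW (Spec_evO_gau x b)) (hW (Spec_inv_gau x hb))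

theorem Spec_mem_gau {f : L} (hf : f ∈ gau κ x) : ∃ a b : (HO κ)[X],
    b.map (hres : HO κ →ₐ[κ] κ).toRingHom ≠ 0 ∧ f = evO x a / evO x b := by
  induction hf using Subring.closure_induction with
  | mem f h => exact h
  | zero => exact ⟨0, 1, by simp, by simp⟩
  | one => exact ⟨1, 1, by simp, by simp⟩
  | add f g _ _ h h' =>
    obtain ⟨a, b, hb, rfl⟩ := h
    obtain ⟨a', b', hb', rfl⟩ := h'
    refine ⟨a * b' + b * a', b * b', by simpa using mul_ne_zero hb hb', ?_⟩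
    rw [div_add_div _ _ (Spec_ne hx hb) (Spec_ne hx hb'), map_add, map_mul, map_mul, map_mul]
  | neg f _ h =>
    obtain ⟨a, b, hb, rfl⟩ := h
    exact ⟨-a, b, hb, by rw [map_neg, neg_div]⟩
  | mul f g _ _ h h' =>
    obtain ⟨a, b, hb, rfl⟩ := h
    obtain ⟨a', b', hb', rfl⟩ := h'
    exact ⟨a * a', b * b', by simpa using mul_ne_zero hb hb', by
      rw [div_mul_div_comm, map_mul, map_mul]⟩

theorem Spec_exists_good : ∃ W, SpecGood κ x W := by
  let t : HO κ := ⟨τ κ 1, Spec_τ_mem.2 zero_le_one⟩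
  have ht : hres t = 0 := hres_eq_zero.2 (by
    rw [hv_τ]
    exact WithTop.coe_lt_coe.2 one_pos)
  obtain ⟨W, hW, h⟩ := Ideal.image_subset_nonunits_valuationSubring
    (Ideal.span {(⟨_, Spec_evO_gau x (C t)⟩ : gau κ x)}) fun h => by
      obtain ⟨⟨g, hg⟩, e⟩ := (Ideal.span_singleton_eq_top.1 h).exists_right_inv
      obtain ⟨a, b, hb, rfl⟩ := Spec_mem_gau hx hg
      have e1 : evO x (C t) * (evO x a / evO x b) = 1 := congrArg Subtype.val e
      rw [← mul_div_assoc, div_eq_one_iff_eq (Spec_ne hx hb), ← map_mul] at e1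
      refine hb ?_
      rw [← Spec_inj hx e1, Polynomial.map_mul, map_C]
      change C (hres t) * _ = 0
      rw [ht, C_0, zero_mul]
  refine ⟨W, Spec_good hW ?_⟩
  have : evO x (C t) ∈ W.nonunits := h ⟨_, Ideal.mem_span_singleton_self _, rfl⟩
  rwa [Spec_evO_C] at this

open scoped IntermediateField.algebraAdjoinAdjoin in
omit hx in
theorem Spec_rel {ι : Type*} [Fintype ι] {f : ι → L}
    (h : ¬LinearIndependent (IntermediateField.adjoin (HF κ) {x}) f) :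
    ∃ b : ι → (HO κ)[X], ∑ i, evO x (b i) * f i = 0 ∧
      ∃ i, (b i).map (hres : HO κ →ₐ[κ] κ).toRingHom ≠ 0 := by
  rw [← LinearIndependent.iff_fractionRing (Algebra.adjoin (HF κ) {x}),
    Fintype.not_linearIndependent_iff] at h
  obtain ⟨g, hg, i, hi⟩ := h
  choose a ha using fun i => Algebra.adjoin_mem_exists_aeval _ _ (g i).2
  obtain ⟨γ, b, hb, hb'⟩ := SpecA_scale a ⟨i, fun e => hi (Subtype.ext (by simp [← ha, e]))⟩
  refine ⟨b, ?_, hb'⟩
  apply mul_left_cancel₀ ((map_ne_zero (algebraMap (HF κ) L)).2 (τ_ne_zero γ))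
  rw [mul_zero, Finset.mul_sum, ← hg]
  refine Finset.sum_congr rfl fun i _ => ?_
  rw [← mul_assoc, Spec_evO_eq, ← aeval_C x, ← map_mul, ← hb, ha]
  rfl

theorem Spec_poly {r : (HF κ)[X]} (hr : r ≠ 0) : ∃ (γ : ℝ) (b : (HO κ)[X]),
    aeval x r = τ κ γ • evO x b ∧ b.map (hres : HO κ →ₐ[κ] κ).toRingHom ≠ 0 := by
  obtain ⟨γ, b, hb, i, hi⟩ := SpecA_scale (fun _ : Unit => r) ⟨(), hr⟩
  exact ⟨γ, b i, by rw [hb i, map_mul, aeval_C, Spec_evO_eq, Algebra.smul_def], hi⟩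

variable [hL : Fact (IsFF (HF κ) L)]

theorem Spec_alg (g : L) : ∃ (n : ℕ) (b : ℕ → (HO κ)[X]),
    ∑ i ∈ Finset.range n, evO x (b i) * g ^ i = 0 ∧
      ∃ i < n, (b i).map (hres : HO κ →ₐ[κ] κ).toRingHom ≠ 0 := by
  have := FFA_fd hL.out hx
  obtain ⟨b, hb, i, hi⟩ := Spec_rel (κ := κ) (x := x)
    (f := fun i : Fin (Module.finrank (IntermediateField.adjoin (HF κ) {x}) L + 1) => g ^ i.1)
    fun h => by simpa using h.fintype_card_le_finrank
  refine ⟨_, fun i => if h : i < _ then b ⟨i, h⟩ else 0, ?_, i, i.2, by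
    simpa only [dif_pos i.2] using hi⟩
  rw [← hb, ← Fin.sum_univ_eq_sum_range]
  exact Finset.sum_congr rfl fun i _ => by simp only [dif_pos i.2]

theorem Spec_hts {g : L} (hg : g ≠ 0) : ∃ T : Finset ℝ, ∀ W : ValuationSubring L,
    gau κ x ≤ W.toSubring → ∃ γ ∈ T, W.valuation (τ κ γ • g) = 1 := by
  obtain ⟨n, b, hb, k, hk, hk'⟩ := Spec_alg hx g
  have h1 : ∀ i, ∃ (γ : ℝ) (c : (HO κ)[X]), evO x (b i) ≠ 0 → evO x (b i) = τ κ γ • evO x c ∧
      c.map (hres : HO κ →ₐ[κ] κ).toRingHom ≠ 0 := fun i => by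
    by_cases h : (b i).map (algebraMap (HO κ) (HF κ)) = 0
    · exact ⟨0, 0, fun e => (e (by rw [Spec_evO_eq, h, map_zero])).elim⟩
    · obtain ⟨γ, c, hc⟩ := Spec_poly hx h
      exact ⟨γ, c, fun _ => by rwa [Spec_evO_eq x (b i)]⟩
  choose γ c hc using h1
  refine ⟨(Finset.range n ×ˢ Finset.range n).image fun p => (γ p.2 - γ p.1) / (p.2 - p.1 : ℕ),
    fun W hW => ?_⟩
  obtain ⟨i, hi, j, hj, hij, hi0, hj0, e⟩ := SpecA_two W _ n hb hk
    (mul_ne_zero (Spec_ne hx hk') (pow_ne_zero _ hg))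
  refine ⟨_, Finset.mem_image.2 ⟨(i, j), by simp [hi, hj], rfl⟩, ?_⟩
  obtain ⟨e1, u1⟩ := hc i (left_ne_zero_of_mul hi0)
  obtain ⟨e2, u2⟩ := hc j (left_ne_zero_of_mul hj0)
  obtain ⟨m, rfl⟩ := Nat.exists_eq_add_of_lt hij
  dsimp only
  rw [show i + m + 1 - i = m + 1 by omega]
  refine (pow_eq_one_iff.1 (?_ : _ ^ (m + 1) = _)).resolve_right m.succ_ne_zero
  rw [← map_pow, _root_.smul_pow, Arc_τ_pow, mul_div_cancel₀ _ (by positivity)]
  simp only [e1, e2, Algebra.smul_def, map_mul, Spec_unit hx hW u1, Spec_unit hx hW u2,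
    mul_one] at e
  have h0 : W.valuation (algebraMap (HF κ) L (τ κ (γ i))) * W.valuation (g ^ i) ≠ 0 := by
    simp [hg, τ_ne_zero]
  apply mul_left_cancel₀ h0
  rw [mul_one]
  conv_rhs => rw [e]
  rw [Algebra.smul_def, map_mul, mul_mul_mul_comm, ← map_mul, ← map_mul, ← τ_add, add_sub_cancel,
    ← map_mul _ (g ^ i), ← pow_add, add_assoc]

theorem Spec_mem_good {f : L} : f ∈ spec κ x ↔ ∀ W, SpecGood κ x W → f ∈ W := by
  refine ⟨fun h W hW => Spec_mem_iff.1 h W hW.1, fun h => Spec_mem_iff.2 fun W hW => ?_⟩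
  by_cases hg : SpecGood κ x W
  · exact h W hg
  obtain ⟨c, hc, hc'⟩ : ∃ c : HF κ, algebraMap (HF κ) L c ∈ W ∧ c ∉ HO κ := by
    by_contra! hc
    exact hg ⟨hW, hc⟩
  rcases eq_or_ne f 0 with rfl | h0
  · exact zero_mem _
  obtain ⟨T, hT⟩ := Spec_hts hx h0
  obtain ⟨γ, -, hγ⟩ := hT W hW
  have := mul_mem (SpecA_all (Spec_cW hW) hc' hc (τ κ (-γ))) ((W.valuation_le_one_iff _).1 hγ.le)
  rwa [← Algebra.smul_def, smul_smul, ← τ_add, neg_add_cancel, τ_zero, one_smul] at this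

theorem Spec_prim {f : L} (hf : f ≠ 0) : ∃ γ : ℝ, τ κ γ • f ∈ spec κ x ∧
    ∀ e : HF κ, e • τ κ γ • f ∈ spec κ x → e ∈ HO κ := by
  classical
  obtain ⟨T, hT⟩ := Spec_hts hx hf
  obtain ⟨W₀, hW₀⟩ := Spec_exists_good hx
  obtain ⟨γ₀, h₀, h₀'⟩ := hT W₀ hW₀.1
  obtain ⟨γ, hγ, hmax⟩ := (T.filter fun γ => ∃ W, SpecGood κ x W ∧
    W.valuation (τ κ γ • f) = 1).exists_max_image id ⟨γ₀, Finset.mem_filter.2 ⟨h₀, W₀, hW₀, h₀'⟩⟩
  obtain ⟨W₁, hW₁, h₁⟩ := (Finset.mem_filter.1 hγ).2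
  refine ⟨γ, (Spec_mem_good hx).2 fun W hW => ?_, fun e he => hW₁.2 e ?_⟩
  · obtain ⟨δ, hδ, hδ'⟩ := hT W hW.1
    have h2 : δ ≤ γ := hmax δ (Finset.mem_filter.2 ⟨hδ, W, hW, hδ'⟩)
    have := mul_mem (Spec_cW hW.1 _ (Spec_τ_mem.2 (sub_nonneg.2 h2)))
      ((W.valuation_le_one_iff _).1 hδ'.le)
    rwa [← Algebra.smul_def, smul_smul, ← τ_add, sub_add_cancel] at this
  · have := (W₁.valuation_le_one_iff _).2 (Spec_mem_iff.1 he W₁ hW₁.1)
    rwa [Algebra.smul_def, map_mul, h₁, mul_one, ValuationSubring.valuation_le_one_iff] at this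

theorem Spec_trick {W : ValuationSubring L} (hW : SpecGood κ x W) {g : L} (hg : g ∈ W) :
    ∃ s ∈ spec κ x, s * g ∈ spec κ x ∧ W.valuation s = 1 := by
  classical
  obtain ⟨n, b, hb, k, hk, hk'⟩ := Spec_alg hx g
  obtain ⟨j, hj, hmax⟩ := ((Finset.range n).filter fun i =>
    (b i).map (hres : HO κ →ₐ[κ] κ).toRingHom ≠ 0).exists_max_image id
      ⟨k, Finset.mem_filter.2 ⟨Finset.mem_range.2 hk, hk'⟩⟩
  rw [Finset.mem_filter, Finset.mem_range] at hj
  obtain ⟨m, rfl⟩ := Nat.exists_eq_add_of_lt hj.1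
  rw [add_assoc] at hb
  have h1 := fun (V : ValuationSubring L) (hV : gau κ x ≤ V.toSubring) =>
    SpecA_den (fun i => evO x (b i)) j (m + 1) g hb V fun i => hV (Spec_evO_gau x _)
  refine ⟨_, Spec_mem_iff.2 fun V hV => (h1 V hV).1, Spec_mem_iff.2 fun V hV => (h1 V hV).2, ?_⟩
  have h2 : W.valuation (evO x (b (j + 0)) * g ^ 0) = 1 := by
    simpa using Spec_unit hx hW.1 hj.2
  rw [W.valuation.map_sum_eq_of_lt (j := 0) (by simp), h2]
  intro i hi
  rw [h2, map_mul]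
  simp only [Finset.mem_sdiff, Finset.mem_range, Finset.mem_singleton] at hi
  refine mul_lt_one_of_nonneg_of_lt_one_left zero_le (hW.lt' ?_)
    ((W.valuation_le_one_iff _).2 (pow_mem hg i))
  by_contra h
  have := hmax (j + i) (Finset.mem_filter.2 ⟨Finset.mem_range.2 (by omega), h⟩)
  simp only [id] at this
  omega

theorem Spec_card {Q : Type u} [CommRing Q] [Algebra κ Q] (ρ : spec κ x →+* Q)
    (hc : ∀ c : HO κ, ρ ⟨_, const_mem_spec x c⟩ = algebraMap κ Q (hres c)) {ι : Type*} [Fintype ι]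
    (f : ι → spec κ x) (h : ∀ a : ι → κ[X],
      ∑ i, aeval (ρ ⟨x, x_mem_spec x⟩) (a i) * ρ (f i) = 0 → ∀ i, a i = 0) :
    Fintype.card ι ≤ Module.finrank (IntermediateField.adjoin (HF κ) {x}) L := by
  have := FFA_fd hL.out hx
  refine LinearIndependent.fintype_card_le_finrank (b := fun i => (f i).1) (by_contra fun hn => ?_)
  obtain ⟨b, hb, i, hi⟩ := Spec_rel hn
  refine hi (h (fun i => (b i).map (hres : HO κ →ₐ[κ] κ).toRingHom) ?_ i)
  have e : ∑ i, (⟨_, evO_mem x (b i)⟩ : spec κ x) * f i = 0 := Subtype.ext (by simpa using hb)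
  simpa only [map_sum, map_mul, map_zero, Spec_ρ ρ hc] using congrArg ρ e

end

/-- The components of the reduction. -/
structure Floors (κ : Type u) [Field κ] {L : Type u} [Field L] [Algebra (HF κ) L] (x : L) where
  s : ℕ
  L₀ : Fin s → Type u
  [fld : ∀ w, Field (L₀ w)]
  [alg : ∀ w, Algebra κ (L₀ w)]
  [ff : ∀ w, Fact (IsFF κ (L₀ w))]
  ρ : spec κ x →+* ∀ w, L₀ w
  surj : Function.Surjective ρ
  ker : ∀ f, ρ f = 0 ↔ ∃ γ : ℝ, 0 < γ ∧ (τ κ (-γ) • f.1 : L) ∈ spec κ x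
  const : ∀ c : HO κ, ρ ⟨_, const_mem_spec x c⟩ = algebraMap κ _ (hres c)
  trans : ∀ w, Transcendental κ (ρ ⟨x, x_mem_spec x⟩ w)

attribute [instance] Floors.fld Floors.alg Floors.ff

/-- The reduction of `x`. -/
noncomputable def Floors.x₀ {x : L} (Φ : Floors κ x) (w : Fin Φ.s) : Φ.L₀ w := Φ.ρ ⟨x, x_mem_spec x⟩ w

/-- `f` is integral and reduces to `f₀`. -/
def Floors.R {x : L} (Φ : Floors κ x) (f : L) (f₀ : ∀ w, Φ.L₀ w) : Prop :=
  ∃ h : f ∈ spec κ x, Φ.ρ ⟨f, h⟩ = f₀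

/-- Degree of a floor. -/
noncomputable def Floors.deg {x : L} (Φ : Floors κ x) (w : Fin Φ.s) : ℕ :=
  Module.finrank (IntermediateField.adjoin κ {Φ.x₀ w}) (Φ.L₀ w)

variable [IsAlgClosed κ] [Fact (IsFF (HF κ) L)] {x : L} (hx : Transcendental (HF κ) x)
include hx

theorem const_mem_spec_iff {c : HF κ} : algebraMap (HF κ) L c ∈ spec κ x ↔ c ∈ HO κ := by
  obtain ⟨W, hW⟩ := Spec_exists_good hx
  exact ⟨fun h => hW.2 c (Spec_mem_iff.1 h W hW.1), fun h => const_mem_spec x ⟨c, h⟩⟩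
theorem prim {f : L} (hf : f ≠ 0) : ∃ c : HF κ, c ≠ 0 ∧ c • f ∈ spec κ x ∧
    ∀ e : HF κ, e • c • f ∈ spec κ x → e ∈ HO κ := by
  obtain ⟨γ, h⟩ := Spec_prim hx hf
  exact ⟨_, τ_ne_zero γ, h⟩
theorem exists_floors : Nonempty (Floors κ x) := by
  let ι : HO κ →+* spec κ x := ((algebraMap (HF κ) L).comp (algebraMap (HO κ) (HF κ))).codRestrict _
    (const_mem_spec x)
  let π := Ideal.Quotient.mk (SpecMax κ x)
  let _ : Algebra κ (spec κ x ⧸ SpecMax κ x) := (π.comp (ι.comp (algebraMap κ (HO κ)))).toAlgebra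
  have : IsReduced (spec κ x ⧸ SpecMax κ x) :=
    (Ideal.isRadical_iff_quotient_reduced _).1 (SpecMax_rad x)
  have hc : ∀ c : HO κ, π ⟨_, const_mem_spec x c⟩ = algebraMap κ _ (hres c) := fun c => by
    change π (ι c) = π (ι (algebraMap κ (HO κ) (hres c)))
    rw [Ideal.Quotient.eq, ← map_sub]
    exact SpecMax_const x (c := c - algebraMap κ (HO κ) (hres c))
      (by rw [map_sub, AlgHom.commutes]; exact sub_self _)
  obtain ⟨s, L₀, _, _, ρ, hρ, hρc, hρt⟩ := SpecA_prod (κ := κ) (π ⟨x, x_mem_spec x⟩)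
    (fun p hp => by
      have e : (p.map (algebraMap κ (HO κ))).map (hres : HO κ →ₐ[κ] κ).toRingHom = p := by
        ext n
        simp
      have hb : (p.map (algebraMap κ (HO κ))).map (hres : HO κ →ₐ[κ] κ).toRingHom ≠ 0 := by
        rwa [e]
      rw [← e, ← Spec_ρ π hc]
      exact (IsUnit.of_mul_eq_one (⟨_, Spec_le x (Spec_inv_gau x hb)⟩ : spec κ x)
        (Subtype.ext (mul_inv_cancel₀ (Spec_ne hx hb)))).map π)
    (Module.finrank (IntermediateField.adjoin (HF κ) {x}) L) fun I _ v hv => by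
      choose f hf using fun i => Ideal.Quotient.mk_surjective (v i)
      refine Spec_card hx π hc f fun a ha => hv a ?_
      simpa only [π, hf] using ha
  have : ∀ w, Fact (IsFF κ (L₀ w)) := fun w => ⟨(hρt w).2⟩
  exact ⟨{ s := s
           L₀ := L₀
           ρ := ρ.comp π
           surj := hρ.2.comp Ideal.Quotient.mk_surjective
           ker := fun f => (map_eq_zero_iff ρ hρ.1).trans Ideal.Quotient.eq_zero_iff_mem
           const := fun c => (congrArg ρ (hc c)).trans (hρc _)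
           trans := fun w => (hρt w).1 }⟩
theorem spec_inv : spec κ x⁻¹ = spec κ x := by
  have h0 : x ≠ 0 := fun e => hx (e ▸ isAlgebraic_zero)
  refine Spec_congr (le_antisymm (Spec_inv_le h0) ?_)
  simpa only [inv_inv] using Spec_inv_le (κ := κ) (inv_ne_zero h0)
theorem spec_sub (c : HO κ) : spec κ (x - algebraMap (HF κ) L c) = spec κ x := by
  refine Spec_congr (le_antisymm ?_ ?_)
  · simpa [sub_eq_add_neg] using Spec_add_le x (-c)
  · simpa only [sub_add_cancel] using Spec_add_le (x - algebraMap (HF κ) L c) c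
open scoped IntermediateField.algebraAdjoinAdjoin in
/-- integral elements of the generic fibre are integral over `O[x]` -/
theorem isIntegral_of_mem {f : L} (h : f ∈ regOut (poles (HF κ) x)) (h' : f ∈ spec κ x) :
    IsIntegral (evO (κ := κ) x).range f := by
  have h1 := (mem_regOut_poles hx).1 h
  have := FFA_pid hx
  have hA : ∀ r : (HF κ)[X], aeval x r ∈ IntermediateField.adjoin (HF κ) {x} := fun r =>
    IntermediateField.algebra_adjoin_le_adjoin _ _ (aeval_mem_adjoin_singleton _ x)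
  have hG : gau κ x ≤ (IntermediateField.adjoin (HF κ) {x}).toSubfield.toSubring := by
    refine Subring.closure_le.2 ?_
    rintro _ ⟨a, b, -, rfl⟩
    rw [Spec_evO_eq, Spec_evO_eq]
    exact (IntermediateField.adjoin (HF κ) {x}).div_mem (hA _) (hA _)
  have hF : IsIntegral (IntermediateField.adjoin (HF κ) {x}) f := h1.tower_top
  suffices hl : (minpoly (IntermediateField.adjoin (HF κ) {x}) f).map
      (algebraMap (IntermediateField.adjoin (HF κ) {x}) L) ∈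
      lifts (algebraMap (evO (κ := κ) x).range L) by
    obtain ⟨q, hq, -, hq'⟩ := lifts_and_natDegree_eq_and_monic hl ((minpoly.monic hF).map _)
    refine ⟨q, hq', ?_⟩
    rw [eval₂_eq_eval_map, hq, eval_map_algebraMap, minpoly.aeval]
  refine (lifts_iff_coeff_lifts _).2 fun i => ?_
  rw [coeff_map]
  have h2 : _ ∈ spec κ x := SpecA_coeff _ (fun r => hG r.2) h' i
  have h3 := SpecA_coeff (IntermediateField.adjoin (HF κ) {x})
    (fun r => IntermediateField.algebra_adjoin_le_adjoin _ _ r.2) h1 i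
  obtain ⟨⟨y, hy⟩, e⟩ := IsIntegrallyClosed.isIntegral_iff.1
    ((isIntegral_algebraMap_iff
      (algebraMap (IntermediateField.adjoin (HF κ) {x}) L).injective).1 h3)
  obtain ⟨r, rfl⟩ := Algebra.adjoin_mem_exists_aeval _ _ hy
  rw [← e] at h2 ⊢
  change aeval x r ∈ _ at h2 ⊢
  rcases eq_or_ne r 0 with rfl | hr
  · exact ⟨0, by simp⟩
  obtain ⟨γ, b, hb, hb'⟩ := Spec_poly hx hr
  have h4 := mul_mem h2 (Spec_le x (Spec_inv_gau x hb'))
  rw [hb, Algebra.smul_def, mul_assoc, mul_inv_cancel₀ (Spec_ne hx hb'), mul_one,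
    const_mem_spec_iff hx] at h4
  exact ⟨⟨_, C ⟨_, h4⟩ * b, rfl⟩, by rw [hb, Algebra.smul_def, ← Spec_evO_C x ⟨_, h4⟩, ← map_mul]; rfl⟩

namespace Floors
variable (Φ : Floors κ x)
theorem s_pos : 0 < Φ.s := by
  refine Nat.pos_of_ne_zero fun h => ?_
  obtain ⟨γ, hγ, h1⟩ := (Φ.ker 1).1 (funext fun w => (h ▸ w).elim0)
  rw [Subring.coe_one, ← Algebra.algebraMap_eq_smul_one, const_mem_spec_iff hx, Spec_τ_mem] at h1
  linarith
theorem sum_deg_le : ∑ w, Φ.deg w ≤ Module.finrank (IntermediateField.adjoin (HF κ) {x}) L := by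
  have hf : ∀ w, FiniteDimensional (IntermediateField.adjoin κ {Φ.x₀ w}) (Φ.L₀ w) := fun w =>
    finiteDimensional_of_transcendental (Φ.trans w)
  let b := fun w => Module.finBasis (IntermediateField.adjoin κ {Φ.x₀ w}) (Φ.L₀ w)
  choose f hf using fun p : Σ w, Fin (Φ.deg w) => Φ.surj (Pi.single p.1 (b p.1 p.2))
  have := Spec_card hx Φ.ρ Φ.const f fun a ha p => by
    refine SpecA_li (Φ.trans p.1) (b p.1).linearIndependent (fun i => a ⟨p.1, i⟩) ?_ p.2
    have h1 := congrFun ha p.1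
    rw [Finset.sum_apply, Fintype.sum_sigma, Finset.sum_eq_single p.1] at h1
    · refine Eq.trans (Finset.sum_congr rfl fun i _ => ?_) h1
      rw [Pi.mul_apply, hf, Pi.single_eq_same]
      exact congrArg (· * _) (aeval_algHom_apply (Pi.evalAlgHom κ Φ.L₀ p.1) _ _)
    · exact fun w _ hw => Finset.sum_eq_zero fun i _ => by
        rw [Pi.mul_apply, hf, Pi.single_eq_of_ne hw.symm, mul_zero]
    · simp
  simpa using this
theorem exists_prim {f : L} (hf : f ≠ 0) : ∃ (γ : ℝ) (f₀ : _), Φ.R (τ κ γ • f) f₀ ∧ f₀ ≠ 0 := by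
  obtain ⟨γ, h, h'⟩ := Spec_prim hx hf
  refine ⟨γ, _, ⟨h, rfl⟩, fun e => ?_⟩
  obtain ⟨δ, hδ, h1⟩ := (Φ.ker _).1 e
  have := Spec_τ_mem.1 (h' _ h1)
  linarith
/-- finite dimensional subspaces reduce to subspaces of the same dimension -/
theorem exists_basis (V : Submodule (HF κ) L) [FiniteDimensional (HF κ) V] :
    ∃ (b : Fin (Module.finrank (HF κ) V) → L) (b₀ : Fin (Module.finrank (HF κ) V) → ∀ w, Φ.L₀ w),
      (∀ i, b i ∈ V ∧ Φ.R (b i) (b₀ i)) ∧ LinearIndependent κ b₀ ∧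
      ∀ f ∈ V, f ∈ spec κ x → ∃ c : _ → HO κ, f = ∑ i, (c i : HF κ) • b i := by
  obtain ⟨b, hb⟩ := lat (κ := κ) (V := V)
    ((spec κ x).toAddSubgroup.comap V.subtype.toAddMonoidHom) (fun c hc v hv => Spec_smul hc hv)
    fun v hv => prim hx (f := v.1) fun e => hv (Subtype.ext e)
  have hb' : ∀ v : V, v.1 ∈ spec κ x ↔ ∀ i, b.repr v i ∈ HO κ := hb
  have h1 : ∀ i, (b i).1 ∈ spec κ x := fun i => (hb' _).2 fun j => by
    rw [b.repr_self, Finsupp.single_apply]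
    split_ifs
    exacts [one_mem _, zero_mem _]
  refine ⟨fun i => b i, fun i => Φ.ρ ⟨_, h1 i⟩, fun i => ⟨(b i).2, h1 i, rfl⟩,
    Fintype.linearIndependent_iff.2 fun c hc i => by_contra fun hi => ?_, fun f hf hf' =>
      ⟨fun i => ⟨_, (hb' ⟨f, hf⟩).1 hf' i⟩, ?_⟩⟩
  · obtain ⟨γ, hγ, h2⟩ := (Φ.ker (∑ i, ⟨_, const_mem_spec x (algebraMap κ (HO κ) (c i))⟩ *
      ⟨_, h1 i⟩)).1 (by
        rw [← hc, map_sum]
        exact Finset.sum_congr rfl fun i _ => by
          rw [map_mul, Φ.const, AlgHom.commutes, Algebra.smul_def]; rfl)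
    have h3 := (hb' (τ κ (-γ) • ∑ i, algebraMap κ (HF κ) (c i) • b i)).1 (by
      convert h2 using 1
      simp only [Submodule.coe_smul, Submodule.coe_sum, AddSubmonoidClass.coe_finsetSum,
        Subring.coe_mul, Algebra.smul_def]
      rfl) i
    rw [map_smul, Finsupp.smul_apply, b.repr_sum_self, smul_eq_mul, Hahn_τ_mul, hv_const hi] at h3
    exact absurd (WithTop.coe_le_coe.1 h3) hγ.not_ge
  · have := congrArg Subtype.val (b.sum_repr ⟨f, hf⟩)
    rw [AddSubmonoidClass.coe_finsetSum] at this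
    exact this.symm
/-- the height of `f` on the floor `w` -/
theorem unit_scale {f : L} (hf : f ≠ 0) (w : Fin Φ.s) : ∃ (γ : ℝ) (u : L) (u₀ g₀ : _),
    Φ.R u u₀ ∧ u₀ w ≠ 0 ∧ Φ.R (u * τ κ (-γ) • f) g₀ ∧ g₀ w ≠ 0 := by
  obtain ⟨W, hW, h⟩ := Ideal.image_subset_nonunits_valuationSubring
    (RingHom.ker ((Pi.evalRingHom Φ.L₀ w).comp Φ.ρ)) (RingHom.ker_ne_top _)
  have h1 : ∀ (a : L) (ha : a ∈ spec κ x), W.valuation a = 1 → Φ.ρ ⟨a, ha⟩ w ≠ 0 :=
    fun a ha e e' => (W.mem_nonunits_iff.1 (h ⟨⟨a, ha⟩, e', rfl⟩)).ne e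
  let t : HO κ := ⟨τ κ 1, Spec_τ_mem.2 zero_le_one⟩
  have ht : hres t = 0 := hres_eq_zero.2 (by
    rw [hv_τ]
    exact WithTop.coe_lt_coe.2 one_pos)
  have hg : SpecGood κ x W := Spec_good ((Spec_le x).trans hW)
    (h ⟨⟨_, const_mem_spec x t⟩, by
      change Φ.ρ _ w = 0
      rw [Φ.const, ht, map_zero, Pi.zero_apply], rfl⟩)
  obtain ⟨T, hT⟩ := Spec_hts hx hf
  obtain ⟨γ, -, hγ⟩ := hT W hg.1
  obtain ⟨s, hs, hs', e⟩ := Spec_trick hx hg ((W.valuation_le_one_iff _).1 hγ.le)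
  rw [← neg_neg γ] at hs' hγ
  exact ⟨-γ, s, _, _, ⟨hs, rfl⟩, h1 _ _ e, ⟨hs', rfl⟩, h1 _ _ (by rw [map_mul, e, hγ, one_mul])⟩
theorem kill {S : Set (Fin Φ.s)} {g u : L} {u₀ : _} (hu : Φ.R u u₀) (hu' : ∀ w, w ∉ S → u₀ w = 0)
    (hg : ∀ w ∈ S, ∃ (s : L) (s₀ : _), Φ.R s s₀ ∧ s₀ w ≠ 0 ∧ s * g ∈ spec κ x) :
    ∃ n : ℕ, u ^ n * g ∈ spec κ x := by
  classical
  rcases eq_or_ne g 0 with rfl | g0
  · exact ⟨0, by simp⟩
  obtain ⟨hu, rfl⟩ := hu
  have h1 : ∀ w, ∃ r : spec κ x, r.1 * g ∈ spec κ x ∧ Φ.ρ r = Pi.single w (Φ.ρ ⟨u, hu⟩ w) :=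
    fun w => by
      by_cases hw : w ∈ S
      · obtain ⟨s, _, ⟨hs, rfl⟩, h0, hs'⟩ := hg w hw
        obtain ⟨t, ht⟩ := Φ.surj (Pi.single w (Φ.ρ ⟨u, hu⟩ w * (Φ.ρ ⟨s, hs⟩ w)⁻¹))
        refine ⟨t * ⟨s, hs⟩, ?_, ?_⟩
        · rw [Subring.coe_mul, mul_assoc]
          exact mul_mem t.2 hs'
        · rw [map_mul, ht, ← Pi.single_mul_left, inv_mul_cancel_right₀ h0]
      · exact ⟨0, by simp, by simp [hu' w hw]⟩
  choose r hr hr' using h1
  obtain ⟨γ, hγ, h2⟩ := (Φ.ker (⟨u, hu⟩ - ∑ w, r w)).1 (by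
    simp only [map_sub, map_sum, hr', Finset.univ_sum_single, sub_self])
  have h3 : (∑ w, r w).1 * g ∈ spec κ x := by
    rw [AddSubmonoidClass.coe_finsetSum, Finset.sum_mul]
    exact sum_mem fun w _ => hr w
  have h4 := (∑ w, r w).2
  rw [AddSubgroupClass.coe_sub] at h2
  generalize (∑ w, r w).1 = a at h2 h3 h4
  have key : ∀ (n : ℕ) (g : L), a * g ∈ spec κ x → τ κ (n * γ) • g ∈ spec κ x →
      u ^ n * g ∈ spec κ x := fun n => by
    induction n with
    | zero => exact fun g _ h => by simpa [τ_zero] using h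
    | succ n ih =>
      intro g h h'
      rw [pow_succ, mul_assoc]
      refine ih _ (by rw [mul_left_comm]; exact mul_mem hu h) ?_
      have e : τ κ (n * γ) • (u * g) = τ κ (n * γ) • (a * g) +
          τ κ (-γ) • (u - a) * τ κ ((n + 1 : ℕ) * γ) • g := by
        rw [smul_mul_smul_comm, ← τ_add, show -γ + (n + 1 : ℕ) * γ = n * γ by
          push_cast; ring, ← smul_add]
        congr 1
        ring
      rw [e]
      exact add_mem (Spec_smul (Spec_τ_mem.2 (by positivity)) h) (mul_mem h2 h')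
  obtain ⟨δ, hδ, -⟩ := Spec_prim hx g0
  obtain ⟨n, hn⟩ := exists_nat_ge (δ / γ)
  exact ⟨n, key n g h3 (Spec_mono ((div_le_iff₀ hγ).1 hn) hδ)⟩
omit hx in
theorem Spec_red {y : L} (hy : Transcendental (HF κ) y) (e : spec κ y = spec κ x) (w : Fin Φ.s)
    (P : Place κ (Φ.L₀ w)) (hy' : y ∈ spec κ x) (hP : Φ.ρ ⟨y, hy'⟩ w ∈ P.1) {g : L}
    (hg : g ∈ spec κ x)
    (hg' : g ∈ regOut (poles (HF κ) y)) : Φ.ρ ⟨g, hg⟩ w ∈ P.1 := by
  obtain ⟨p, hp, h0⟩ := isIntegral_of_mem hy hg' (e ▸ hg)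
  have hle : (evO (κ := κ) y).range ≤ spec κ x := by
    rintro _ ⟨a, rfl⟩
    exact e ▸ evO_mem y a
  let ψ := (Pi.evalRingHom Φ.L₀ w).comp Φ.ρ
  let _ : Algebra (evO (κ := κ) y).range (Φ.L₀ w) := (ψ.comp (Subring.inclusion hle)).toAlgebra
  refine FFA_int P.1 (A := (evO (κ := κ) y).range) ?_ ⟨p, hp, ?_⟩
  · rintro ⟨_, a, rfl⟩
    change ψ ⟨evO y a, hle ⟨a, rfl⟩⟩ ∈ P.1
    induction a using Polynomial.induction_on with
    | C c =>
      rw [show (⟨evO y (C c), hle ⟨_, rfl⟩⟩ : spec κ x) = ⟨_, const_mem_spec x c⟩ from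
        Subtype.ext (Spec_evO_C y c)]
      change Φ.ρ _ w ∈ P.1
      rw [Φ.const]
      exact P.2.2 _
    | add a b ha hb =>
      rw [show (⟨evO y (a + b), hle ⟨_, rfl⟩⟩ : spec κ x) =
        ⟨evO y a, hle ⟨_, rfl⟩⟩ + ⟨evO y b, hle ⟨_, rfl⟩⟩ from Subtype.ext (map_add _ _ _), map_add]
      exact add_mem ha hb
    | monomial n c h =>
      rw [show (⟨evO y (C c * X ^ (n + 1)), hle ⟨_, rfl⟩⟩ : spec κ x) =
        ⟨evO y (C c * X ^ n), hle ⟨_, rfl⟩⟩ * ⟨y, hy'⟩ from Subtype.ext (by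
          change evO y _ = evO y _ * y
          rw [pow_succ, ← mul_assoc, map_mul, Spec_evO_X]), map_mul]
      exact mul_mem h hP
  · have h1 : eval₂ (Subring.inclusion hle) ⟨g, hg⟩ p = 0 := Subtype.ext
      ((hom_eval₂ p _ (spec κ x).subtype _).trans h0)
    have h2 := hom_eval₂ p (Subring.inclusion hle) ψ ⟨g, hg⟩
    rw [h1, map_zero] at h2
    exact h2.symm
/-- reductions of functions with bounded poles -/
theorem red_mem {f : L} {f₀ : _} (h : Φ.R f f₀) {n : ℕ} (hf : f ∈ Lsp ((n : ℤ) • dvInf (HF κ) x))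
    (w : Fin Φ.s) : f₀ w ∈ Lsp ((n : ℤ) • dvInf κ (Φ.x₀ w)) := by
  obtain ⟨h, rfl⟩ := h
  have h0 : x ≠ 0 := fun e => hx (e ▸ isAlgebraic_zero)
  have h0' : Φ.x₀ w ≠ 0 := fun e => Φ.trans w (by
    change IsAlgebraic κ (Φ.x₀ w)
    exact e ▸ isAlgebraic_zero)
  have hi : x⁻¹ ∈ spec κ x := by
    rw [← spec_inv hx]
    exact x_mem_spec x⁻¹
  have hi' : Φ.ρ ⟨x⁻¹, hi⟩ w = (Φ.x₀ w)⁻¹ := by
    refine eq_inv_of_mul_eq_one_left ?_
    rw [x₀, ← Pi.mul_apply, ← map_mul, show (⟨x⁻¹, hi⟩ * ⟨x, x_mem_spec x⟩ : spec κ x) = 1 from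
      Subtype.ext (inv_mul_cancel₀ h0), map_one, Pi.one_apply]
  intro P
  rw [Finsupp.smul_apply, dvInf_apply h0', smul_eq_mul]
  by_cases hP : Φ.x₀ w ∈ P.1
  · have h1 := Φ.Spec_red hx rfl w P _ hP h fun Q hQ => by
      have h2 := hf Q
      have h3 := (Q.mem_iff.1 (not_not.1 hQ)).resolve_left h0
      rw [Finsupp.smul_apply, dvInf_apply h0, max_eq_right (by omega), smul_zero, neg_zero] at h2
      exact Q.mem_iff.2 h2
    have h4 := (P.mem_iff.1 hP).resolve_left h0'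
    rw [max_eq_right (by omega), mul_zero, neg_zero]
    exact P.mem_iff.1 h1
  · have hP' := (P.1.mem_or_inv_mem _).resolve_left hP
    have h1 := Φ.Spec_red (rr_tr_inv hx) (spec_inv hx) w P hi (by rw [hi']; exact hP')
      (mul_mem h (pow_mem hi n)) fun Q hQ => by
        have h2 := hf Q
        have h3 := (Q.mem_iff.1 (not_not.1 hQ)).resolve_left (inv_ne_zero h0)
        rw [Q.ord_inv h0] at h3
        rw [Finsupp.smul_apply, dvInf_apply h0, max_eq_left h3, smul_eq_mul] at h2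
        refine Q.mem_iff.2 ((h2.mul (Place.Ge.pow (.inr (Q.ord_inv h0).ge) n)).mono ?_)
        omega
    rw [show (⟨f * x⁻¹ ^ n, mul_mem h (pow_mem hi n)⟩ : spec κ x) = ⟨f, h⟩ * ⟨x⁻¹, hi⟩ ^ n from
      Subtype.ext (by rw [Subring.coe_mul, Subring.coe_pow]), map_mul, map_pow, Pi.mul_apply, Pi.pow_apply, hi'] at h1
    have h3 := (P.mem_iff.1 hP').resolve_left (inv_ne_zero h0')
    rw [P.ord_inv h0'] at h3
    have h4 := (P.mem_iff.1 h1).mul (Place.Ge.pow (f := Φ.x₀ w) (.inr le_rfl) n)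
    rw [mul_assoc, ← mul_pow, inv_mul_cancel₀ h0', one_pow, mul_one] at h4
    rw [max_eq_left h3]
    exact h4.mono (by simp)
end Floors

end PR0
end

-- merged part: Pool.Agent.Work.MP_da2620_ag.LatA
section
/-!
# Filtrations: finite generation and conductor; multiples of a pole divisor
-/

namespace PR0

universe u

open Polynomial

section abstract

variable {κ V : Type*} [Field κ] [CommRing V] [Algebra κ V]

/-- Filtrations compatible with multiplication by `y`. -/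
structure LatFil (y : V) (N : ℕ → Submodule κ V) : Prop where
  mono : ∀ n, N n ≤ N (n + 1)
  mul : ∀ n, ∀ f ∈ N n, y * f ∈ N (n + 1)

/-- Filtrations generated in bounded degree. -/
def LatGen (y : V) (N : ℕ → Submodule κ V) : Prop :=
  ∃ n₀ : ℕ, ∀ n, n₀ ≤ n → ∀ f ∈ N (n + 1), ∃ a ∈ N n, ∃ b ∈ N n, f = a + y * b

variable (κ) in
/-- The Rees algebra of the degree filtration. -/
noncomputable def LatS (y : V) : Subalgebra κ V[X] := Algebra.adjoin κ {X, C y * X}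

variable {y : V} {M N : ℕ → Submodule κ V}

theorem LatFil.monotone (h : LatFil y N) : Monotone N := monotone_nat_of_le_succ h.mono

theorem LatFil.smul_mem (h : LatFil y N) {s : V[X]} (hs : s ∈ LatS κ y) :
    ∀ p : V[X], (∀ n, p.coeff n ∈ N n) → ∀ n, (s * p).coeff n ∈ N n := by
  have hX : ∀ p : V[X], (∀ n, p.coeff n ∈ N n) → ∀ n, (X * p).coeff n ∈ N n := by
    rintro p hp (_ | n)
    · rw [coeff_X_mul_zero]
      exact zero_mem _
    · rw [coeff_X_mul]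
      exact h.mono n (hp n)
  induction hs using Algebra.adjoin_induction with
  | mem x hx =>
    rcases hx with rfl | rfl
    · exact hX
    · rintro p hp (_ | n)
      · rw [mul_assoc, coeff_C_mul, coeff_X_mul_zero, mul_zero]
        exact zero_mem _
      · rw [mul_assoc, coeff_C_mul, coeff_X_mul]
        exact h.mul n _ (hp n)
  | algebraMap r =>
    intro p hp n
    rw [← Algebra.smul_def, coeff_smul]
    exact Submodule.smul_mem _ _ (hp n)
  | add a b _ _ ha hb =>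
    intro p hp n
    rw [add_mul, coeff_add]
    exact add_mem (ha p hp n) (hb p hp n)
  | mul a b _ _ ha hb =>
    intro p hp
    rw [mul_assoc]
    exact ha _ (hb p hp)

/-- The Rees module. -/
def LatFil.rees (h : LatFil y N) : Submodule (LatS κ y) V[X] where
  carrier := {p | ∀ n, p.coeff n ∈ N n}
  add_mem' ha hb n := by
    rw [coeff_add]
    exact add_mem (ha n) (hb n)
  zero_mem' n := by
    rw [coeff_zero]
    exact zero_mem _
  smul_mem' s p hp := h.smul_mem s.2 p hp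

theorem LatA_fg (hf : ∀ n, FiniteDimensional κ (M n)) (hg : LatGen y M) :
    ∃ P : Submodule (LatS κ y) V[X], P.FG ∧ ∀ p : V[X], (∀ n, p.coeff n ∈ M n) → p ∈ P := by
  classical
  obtain ⟨n₀, hg⟩ := hg
  choose s hs using fun n => (Module.Finite.iff_fg.1 (hf n) : (M n).FG)
  let G : Finset V[X] := (Finset.range (n₀ + 1)).biUnion fun n => (s n).image (monomial n)
  have key : ∀ n, ∀ f ∈ M n, monomial n f ∈ Submodule.span (LatS κ y) (G : Set V[X]) := by
    have base : ∀ n, n ≤ n₀ → ∀ f ∈ M n,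
        monomial n f ∈ Submodule.span (LatS κ y) (G : Set V[X]) := by
      intro n hn f hf
      rw [← hs] at hf
      induction hf using Submodule.span_induction with
      | mem a ha =>
        exact Submodule.subset_span (Finset.mem_coe.2 (Finset.mem_biUnion.2
          ⟨n, Finset.mem_range.2 (by omega), Finset.mem_image_of_mem _ ha⟩))
      | zero => rw [map_zero]; exact zero_mem _
      | add a b _ _ ha hb => rw [map_add]; exact add_mem ha hb
      | smul c a _ ha =>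
        rw [← smul_monomial]
        exact Submodule.smul_of_tower_mem _ c ha
    intro n
    induction n with
    | zero => exact base 0 (Nat.zero_le _)
    | succ n ih =>
      by_cases hn : n + 1 ≤ n₀
      · exact base _ hn
      intro f hf
      obtain ⟨a, ha, b, hb, rfl⟩ := hg n (by omega) f hf
      have e : monomial (n + 1) (a + y * b) = X * monomial n a + (C y * X) * monomial n b := by
        rw [map_add, mul_assoc, X_mul_monomial, X_mul_monomial, C_mul_monomial]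
      rw [e]
      exact add_mem
        (Submodule.smul_mem _ (⟨X, Algebra.subset_adjoin (Or.inl rfl)⟩ : LatS κ y) (ih a ha))
        (Submodule.smul_mem _ (⟨C y * X, Algebra.subset_adjoin (Or.inr rfl)⟩ : LatS κ y) (ih b hb))
  refine ⟨_, ⟨G, rfl⟩, fun p hp => ?_⟩
  rw [p.as_sum_support]
  exact Submodule.sum_mem _ fun n _ => key n _ (hp n)

theorem LatA_gen (hN : LatFil y N) (hle : ∀ n, N n ≤ M n) (hf : ∀ n, FiniteDimensional κ (M n))
    (hg : LatGen y M) : LatGen y N := by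
  classical
  have : IsNoetherianRing (LatS κ y) :=
    isNoetherianRing_of_fg (Subalgebra.fg_def.2 ⟨_, Set.toFinite _, rfl⟩)
  obtain ⟨P, hP, hP'⟩ := LatA_fg hf hg
  obtain ⟨G, hG⟩ : hN.rees.FG := hP.of_le fun p hp => hP' p fun n => hle n (hp n)
  refine ⟨G.sup natDegree, fun n hn f hf => ?_⟩
  let N' : ℕ → Submodule κ V := fun m =>
    if m = n + 1 then N n ⊔ (N n).map (LinearMap.mulLeft κ y) else N m
  have h1 : N' (n + 1) ≤ N (n + 1) := by
    simp only [N', if_true]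
    refine sup_le (hN.mono n) ?_
    rintro _ ⟨a, ha, rfl⟩
    exact hN.mul n a ha
  have h2 : ∀ m, m ≠ n + 1 → N' m = N m := fun m hm => if_neg hm
  have h3 : N' (n + 1) = N n ⊔ (N n).map (LinearMap.mulLeft κ y) := if_pos rfl
  have h4 : ∀ m, N' m ≤ N m := fun m => by
    by_cases hm : m = n + 1
    · exact hm ▸ h1
    · exact (h2 m hm).le
  have hN' : LatFil y N' := by
    constructor
    · intro m
      by_cases hm : m = n
      · rw [hm, h3, h2 n (by omega)]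
        exact le_sup_left
      · rw [h2 (m + 1) (by omega)]
        exact (h4 m).trans (hN.mono m)
    · intro m a ha
      by_cases hm : m = n
      · rw [hm, h2 n (by omega)] at ha
        rw [hm, h3]
        exact Submodule.mem_sup_right ⟨a, ha, rfl⟩
      · rw [h2 (m + 1) (by omega)]
        exact hN.mul m a (h4 m ha)
  have h5 : hN.rees ≤ hN'.rees := by
    rw [← hG, Submodule.span_le]
    intro p hp m
    by_cases hm : m = n + 1
    · rw [coeff_eq_zero_of_natDegree_lt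
        (((Finset.le_sup (f := natDegree) hp).trans hn).trans_lt (by omega))]
      exact zero_mem _
    · rw [h2 m hm]
      exact (hG ▸ Submodule.subset_span hp : p ∈ hN.rees) m
  have h6 : monomial (n + 1) f ∈ hN.rees := fun m => by
    rw [coeff_monomial]
    split_ifs with hm
    · exact hm ▸ hf
    · exact zero_mem _
  have h7 := h5 h6 (n + 1)
  rw [coeff_monomial_same, h3] at h7
  obtain ⟨a, ha, _, ⟨b, hb, rfl⟩, rfl⟩ := Submodule.mem_sup.1 h7
  exact ⟨a, ha, b, hb, rfl⟩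

theorem LatFil.pow_mul (h : LatFil y M) {m : ℕ} {f : V} (hf : f ∈ M m) (i : ℕ) :
    y ^ i * f ∈ M (m + i) := by
  induction i with
  | zero => simpa using hf
  | succ i ih =>
    rw [pow_succ', mul_assoc]
    exact h.mul _ _ ih

theorem LatA_kill (hM : LatFil y M) (hle : ∀ n, N n ≤ M n) (hf : ∀ n, FiniteDimensional κ (M n))
    {c : ℕ} (hc : ∀ n, Module.finrank κ (M n) ≤ Module.finrank κ (N n) + c) {m : ℕ} {f : V}
    (hfm : f ∈ M m) : ∃ p : κ[X], p ≠ 0 ∧ aeval y p * f ∈ N (m + c) := by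
  classical
  by_contra hn
  push Not at hn
  have := hf (m + c)
  let T : κ[X] →ₗ[κ] V := LinearMap.mulRight κ f ∘ₗ (aeval y).toLinearMap
  have hT : ∀ p, T p = aeval y p * f := fun _ => rfl
  have hinj : Function.Injective T := by
    rw [injective_iff_map_eq_zero]
    intro p hp
    by_contra h0
    exact hn p h0 (by rw [← hT, hp]; exact zero_mem _)
  have h1 : (degreeLT κ (c + 1)).map T ≤ M (m + c) := by
    rw [degreeLT_eq_span_X_pow, Submodule.map_span, Submodule.span_le]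
    rintro _ ⟨_, hp, rfl⟩
    obtain ⟨i, hi, rfl⟩ := Finset.mem_image.1 (Finset.mem_coe.1 hp)
    rw [SetLike.mem_coe, hT, map_pow, aeval_X]
    exact hM.monotone (by have := Finset.mem_range.1 hi; omega) (hM.pow_mul hfm i)
  have h2 : (degreeLT κ (c + 1)).map T ⊓ N (m + c) = ⊥ := by
    rw [eq_bot_iff]
    rintro _ ⟨⟨p, -, rfl⟩, hp⟩
    by_cases h0 : p = 0
    · rw [h0, map_zero]
      exact zero_mem _
    · exact absurd hp (hn p h0)
  have := Submodule.finiteDimensional_of_le h1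
  have := Submodule.finiteDimensional_of_le (hle (m + c))
  have h3 := Submodule.finrank_sup_add_finrank_inf_eq ((degreeLT κ (c + 1)).map T) (N (m + c))
  have h4 := Submodule.finrank_mono (sup_le h1 (hle (m + c)))
  rw [h2, finrank_bot, ← (Submodule.equivMapOfInjective T hinj _).finrank_eq,
    (degreeLTEquiv κ (c + 1)).finrank_eq, Module.finrank_fin_fun] at h3
  have := hc (m + c)
  omega

theorem LatA_cond (hM : LatFil y M) (hle : ∀ n, N n ≤ M n) (hf : ∀ n, FiniteDimensional κ (M n))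
    {c : ℕ} (hc : ∀ n, Module.finrank κ (M n) ≤ Module.finrank κ (N n) + c) (hg : LatGen y M)
    (A : Subalgebra κ V) (hy : y ∈ A) (hA : ∀ n, ∀ f ∈ N n, f ∈ A) :
    ∃ s : κ[X], s.Monic ∧ ∀ n, ∀ f ∈ M n, aeval y s * f ∈ A := by
  classical
  obtain ⟨n₀, hg⟩ := hg
  obtain ⟨t, ht⟩ := (Module.Finite.iff_fg.1 (hf n₀) : (M n₀).FG)
  have hp : ∀ p : κ[X], aeval y p ∈ A := fun p =>
    Algebra.adjoin_le (Set.singleton_subset_iff.2 hy) (aeval_mem_adjoin_singleton κ y)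
  have h1 : ∀ f : t, ∃ p : κ[X], p.Monic ∧ aeval y p * f ∈ A := fun f => by
    obtain ⟨p, h0, h⟩ := LatA_kill hM hle hf hc (ht ▸ Submodule.subset_span f.2 : f.1 ∈ M n₀)
    refine ⟨p * C p.leadingCoeff⁻¹, monic_mul_leadingCoeff_inv h0, ?_⟩
    rw [map_mul, mul_right_comm]
    exact mul_mem (hA _ _ h) (hp _)
  choose p hp1 hp2 using h1
  refine ⟨∏ f, p f, monic_prod_of_monic _ _ fun f _ => hp1 f, ?_⟩
  have base : ∀ f ∈ M n₀, aeval y (∏ f, p f) * f ∈ A := by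
    intro f hf
    rw [← ht] at hf
    induction hf using Submodule.span_induction with
    | mem a ha =>
      rw [← Finset.prod_erase_mul _ _ (Finset.mem_univ (⟨a, ha⟩ : t)), map_mul, mul_assoc]
      exact mul_mem (hp _) (hp2 ⟨a, ha⟩)
    | zero => rw [mul_zero]; exact zero_mem _
    | add a b _ _ ha hb => rw [mul_add]; exact add_mem ha hb
    | smul c a _ ha => rw [mul_smul_comm]; exact A.smul_mem ha c
  intro n
  induction n with
  | zero => exact fun f hf => base f (hM.monotone (Nat.zero_le _) hf)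
  | succ n ih =>
    by_cases hn : n + 1 ≤ n₀
    · exact fun f hf => base f (hM.monotone hn hf)
    intro f hf
    obtain ⟨a, ha, b, hb, rfl⟩ := hg n (by omega) f hf
    rw [mul_add, mul_left_comm]
    exact add_mem (ih a ha) (mul_mem hy (ih b hb))

theorem LatA_pi {ι : Type*} [Fintype ι] {W : ι → Type*} [∀ i, AddCommGroup (W i)]
    [∀ i, Module κ (W i)] (p : ∀ i, Submodule κ (W i)) [∀ i, FiniteDimensional κ (p i)] :
    FiniteDimensional κ (Submodule.pi Set.univ p) ∧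
      Module.finrank κ (Submodule.pi Set.univ p) ≤ ∑ i, Module.finrank κ (p i) := by
  let T : Submodule.pi Set.univ p →ₗ[κ] ∀ i, p i := LinearMap.pi fun i =>
    ((LinearMap.proj i).comp (Submodule.pi Set.univ p).subtype).codRestrict (p i)
      fun f => f.2 i trivial
  have hT : Function.Injective T := fun a b h =>
    Subtype.ext (funext fun i => congrArg Subtype.val (congrFun h i))
  exact ⟨Module.Finite.of_injective T hT, by
    rw [← Module.finrank_pi_fintype]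
    exact LinearMap.finrank_le_finrank_of_injective hT⟩

end abstract

section ff

variable {K L : Type u} [Field K] [Field L] [Algebra K L] [IsAlgClosed K] [hL : Fact (IsFF K L)]
  {x : L}

omit [IsAlgClosed K] hL in
theorem LatA_ne (hx : Transcendental K x) : x ≠ 0 := fun h => hx (h ▸ isAlgebraic_zero)

theorem LatA_nonneg (x : L) : 0 ≤ dvInf K x := le_sup_right

theorem LatA_fil (x : L) : LatFil x fun n : ℕ => Lsp ((n : ℤ) • dvInf K x) := by
  constructor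
  · intro n
    refine rr_Lsp_mono fun P => ?_
    have : 0 ≤ dvInf K x P := LatA_nonneg x P
    simp only [Finsupp.smul_apply, smul_eq_mul]
    push_cast
    nlinarith
  · intro n f hf P
    refine ((rr_mem_inf x P).mul (hf P)).mono (le_of_eq ?_)
    simp only [Finsupp.smul_apply, smul_eq_mul]
    push_cast
    ring

theorem LatA_reg {x f : L} (hx : x ≠ 0) {n : ℕ} (hf : f ∈ Lsp ((n : ℤ) • dvInf K x)) :
    f ∈ regOut (poles K x) := fun P hP => by
  have h1 := (P.mem_iff.1 (not_not.1 hP)).resolve_left hx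
  have h2 := hf P
  rw [Finsupp.smul_apply, dvInf_apply hx, max_eq_right (by omega), smul_zero, neg_zero] at h2
  exact P.mem_iff.2 h2

theorem LatA_exists {x f : L} (hx : x ≠ 0) (hf : f ∈ regOut (poles K x)) :
    ∃ n : ℕ, f ∈ Lsp ((n : ℤ) • dvInf K x) := by
  refine ⟨(dg (dvInf K f)).toNat, fun P => ?_⟩
  rw [Finsupp.smul_apply, smul_eq_mul]
  have h0 : 0 ≤ dvInf K x P := LatA_nonneg x P
  by_cases hP : x ∈ P.1
  · exact (P.mem_iff.1 (hf P (not_not.2 hP))).mono (neg_nonpos.2 (by positivity))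
  · refine (rr_mem_inf f P).mono (neg_le_neg ?_)
    have h1 : 1 ≤ dvInf K x P := by
      rw [P.mem_iff, Place.Ge, not_or, not_le] at hP
      rw [dvInf_apply hx]
      omega
    have h2 : dvInf K f P ≤ dg (dvInf K f) := by
      rw [← dg_single P (dvInf K f P)]
      refine dg_mono fun Q => ?_
      rcases eq_or_ne Q P with rfl | hQ
      · rw [Finsupp.single_eq_same]
      · rw [Finsupp.single_eq_of_ne hQ]
        exact LatA_nonneg f Q
    have h3 := Int.self_le_toNat (dg (dvInf K f))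
    nlinarith [Int.natCast_nonneg (dg (dvInf K f)).toNat]

theorem LatA_ell_le {E : Dv K L} (hE : 0 ≤ E) : (ell E : ℤ) ≤ dg E + 1 := by
  have := rr_s_mono hE
  rw [rr_dg_zero, ell_zero] at this
  omega

theorem LatA_ell_ge (E : Dv K L) : dg E + 1 - genus K L ≤ ell E := by
  have := riemann E
  omega

theorem LatA_ell_eq {E : Dv K L} (hE : 2 * (genus K L : ℤ) ≤ dg E) :
    (ell E : ℤ) = dg E + 1 - genus K L := by
  have := riemann E
  rw [(h1z_iff E).1 (h1z_of_deg hE)] at this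
  omega

theorem LatA_genL (hx : Transcendental K x) :
    LatGen x fun n : ℕ => Lsp ((n : ℤ) • dvInf K x) := by
  have hx0 := LatA_ne hx
  have := finiteDimensional_of_transcendental hx
  have hd : 1 ≤ dg (dvInf K x) := by
    rw [dg_dvInf hx]
    exact_mod_cast Module.finrank_pos
  have hell : ∀ n : ℕ, 2 * genus K L ≤ n → (Module.finrank K (Lsp ((n : ℤ) • dvInf K x)) : ℤ) =
      n * dg (dvInf K x) + 1 - genus K L := fun n hn => by
    rw [← dg_smul]
    refine LatA_ell_eq ?_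
    rw [dg_smul]
    have : (2 * genus K L : ℤ) ≤ n := by exact_mod_cast hn
    nlinarith [Int.natCast_nonneg n]
  refine ⟨2 * genus K L + 1, fun n hn f hf => ?_⟩
  obtain ⟨m, rfl⟩ : ∃ m, n = m + 1 := ⟨n - 1, by omega⟩
  have hinj : Function.Injective (LinearMap.mulLeft K x) := mul_right_injective₀ hx0
  have h1 : Lsp (((m + 1 : ℕ) : ℤ) • dvInf K x) ⊔
      (Lsp (((m + 1 : ℕ) : ℤ) • dvInf K x)).map (LinearMap.mulLeft K x) ≤
        Lsp (((m + 1 + 1 : ℕ) : ℤ) • dvInf K x) := by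
    refine sup_le ((LatA_fil x).mono _) ?_
    rintro _ ⟨a, ha, rfl⟩
    exact (LatA_fil x).mul _ a ha
  have h2 : Lsp (((m + 1 : ℕ) : ℤ) • dvInf K x) ⊓
      (Lsp (((m + 1 : ℕ) : ℤ) • dvInf K x)).map (LinearMap.mulLeft K x) ≤
        (Lsp ((m : ℤ) • dvInf K x)).map (LinearMap.mulLeft K x) := by
    rintro _ ⟨h, a, ha, rfl⟩
    refine ⟨a, fun P => ?_, rfl⟩
    by_cases ha0 : a = 0
    · exact Or.inl ha0
    have e1 := (ha P).resolve_left ha0
    have e2 : _ ≤ P.ord (x * a) := (h P).resolve_left (mul_ne_zero hx0 ha0)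
    rw [P.ord_mul hx0 ha0] at e2
    refine Or.inr ?_
    simp only [Finsupp.smul_apply, smul_eq_mul, dvInf_apply hx0] at e1 e2 ⊢
    push_cast at e1 e2
    rcases le_total (-P.ord x) 0 with h3 | h3
    · rw [max_eq_right h3] at e1 ⊢
      simpa using e1
    · rw [max_eq_left h3] at e2 ⊢
      linarith
  have h3 := Submodule.finrank_sup_add_finrank_inf_eq (Lsp (((m + 1 : ℕ) : ℤ) • dvInf K x))
    ((Lsp (((m + 1 : ℕ) : ℤ) • dvInf K x)).map (LinearMap.mulLeft K x))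
  have h4 := Submodule.finrank_mono h2
  rw [← (Submodule.equivMapOfInjective _ hinj _).finrank_eq] at h3 h4
  have e1 := hell m (by omega)
  have e2 := hell (m + 1) (by omega)
  have e3 := hell (m + 1 + 1) (by omega)
  have h5 := Submodule.eq_of_le_of_finrank_le h1 (by
    zify at h3 h4 ⊢
    push_cast at e1 e2 e3 h3 h4 ⊢
    linarith)
  obtain ⟨a, ha, _, ⟨b, hb, rfl⟩, rfl⟩ := Submodule.mem_sup.1 (h5.ge hf)
  exact ⟨a, ha, b, hb, rfl⟩

end ff

end PR0
end

-- merged part: Pool.Agent.Work.MP_da2620_ag.Lat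
section
/-!
# The special fibre: no defect, finite generation

`Λ n = Lsp (n ∞) ∩ spec x`, with reduction `Λ₀ n` of dimension `n d + 1 - g` for large `n`
(`exists_basis`, `riemann`), contained in `∏ Lsp (n ∞_w)` (`red_mem`) of dimension `≤ n ∑ deg w + C`; this
gives `sum_deg`.  `fg`: the graded module `⊕ ∏_w Lsp (n ∞_w)` over `κ[X₀, X₁]` (`X₀` the inclusion, `X₁`
multiplication by `x̄`) is finitely generated: `Lsp ((n+1) ∞) = Lsp (n ∞) + x Lsp (n ∞)` for large `n`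
by the dimension count with the kernel `Lsp ((n-1) ∞)`.  So the graded submodule `⊕ Λ₀ n` is finitely
generated (Hilbert basis theorem), `Λ₀ (n+1) = Λ₀ n + x̄ Λ₀ n` for large `n`, and Nakayama for the finite
free `O`-module `Λ (n+1)` gives the claim.
-/

namespace PR0

universe u

variable {κ : Type u} [Field κ] {L : Type u} [Field L] [Algebra (HF κ) L] [IsAlgClosed κ]
  [Fact (IsFF (HF κ) L)] {x : L}

/-- Integral functions with bounded poles. -/
def Lam (κ : Type u) [Field κ] [Algebra (HF κ) L] [IsAlgClosed κ] [Fact (IsFF (HF κ) L)] (x : L)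
    (n : ℕ) : Set L := {f | f ∈ Lsp ((n : ℤ) • dvInf (HF κ) x) ∧ f ∈ spec κ x}

namespace Floors

section rel
omit [IsAlgClosed κ] [Fact (IsFF (HF κ) L)]
variable {Φ : Floors κ x} {f g : L} {f₀ g₀ : ∀ w, Φ.L₀ w}

theorem Lat_add (h : Φ.R f f₀) (h' : Φ.R g g₀) : Φ.R (f + g) (f₀ + g₀) := by
  obtain ⟨h, rfl⟩ := h
  obtain ⟨h', rfl⟩ := h'
  exact ⟨add_mem h h', map_add Φ.ρ ⟨f, h⟩ ⟨g, h'⟩⟩

theorem Lat_sub (h : Φ.R f f₀) (h' : Φ.R g g₀) : Φ.R (f - g) (f₀ - g₀) := by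
  obtain ⟨h, rfl⟩ := h
  obtain ⟨h', rfl⟩ := h'
  exact ⟨sub_mem h h', map_sub Φ.ρ ⟨f, h⟩ ⟨g, h'⟩⟩

theorem Lat_mul (h : Φ.R f f₀) (h' : Φ.R g g₀) : Φ.R (f * g) (f₀ * g₀) := by
  obtain ⟨h, rfl⟩ := h
  obtain ⟨h', rfl⟩ := h'
  exact ⟨mul_mem h h', map_mul Φ.ρ ⟨f, h⟩ ⟨g, h'⟩⟩

theorem Lat_unique (h : Φ.R f f₀) (h' : Φ.R f g₀) : f₀ = g₀ := h.2.symm.trans h'.2

theorem Lat_zero : Φ.R 0 0 := ⟨zero_mem _, map_zero Φ.ρ⟩

theorem Lat_one : Φ.R 1 1 := ⟨one_mem _, map_one Φ.ρ⟩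

theorem Lat_x : Φ.R x Φ.x₀ := ⟨x_mem_spec x, rfl⟩

theorem Lat_const (c : HO κ) : Φ.R (algebraMap (HF κ) L c) (algebraMap κ _ (hres c)) :=
  ⟨_, Φ.const c⟩

theorem Lat_const' (c : κ) :
    Φ.R (algebraMap (HF κ) L (algebraMap κ (HF κ) c)) (algebraMap κ _ c) := by
  have h := Lat_const (Φ := Φ) (algebraMap κ (HO κ) c)
  rwa [AlgHom.commutes] at h

theorem Lat_smul (c : HO κ) (h : Φ.R f f₀) : Φ.R ((c : HF κ) • f) (hres c • f₀) := by
  rw [Algebra.smul_def, Algebra.smul_def]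
  exact Lat_mul (Lat_const c) h

theorem Lat_sum {α : Type*} (s : Finset α) {a : α → L} {a₀ : α → ∀ w, Φ.L₀ w}
    (h : ∀ i, Φ.R (a i) (a₀ i)) : Φ.R (∑ i ∈ s, a i) (∑ i ∈ s, a₀ i) := by
  classical
  induction s using Finset.induction_on with
  | empty => exact Lat_zero
  | insert i s hi ih =>
    rw [Finset.sum_insert hi, Finset.sum_insert hi]
    exact Lat_add (h i) ih

/-- The same floors for another function with the same ring of integers. -/
noncomputable def Lat_move (Φ : Floors κ x) {x' : L} (h : spec κ x' = spec κ x)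
    (h1 : x' ∈ spec κ x) (ht : ∀ w, Transcendental κ (Φ.ρ ⟨x', h1⟩ w)) : Floors κ x' where
  s := Φ.s
  L₀ := Φ.L₀
  ρ := Φ.ρ.comp (Subring.inclusion h.le)
  surj := fun f₀ => by
    obtain ⟨f, rfl⟩ := Φ.surj f₀
    exact ⟨⟨f.1, h.ge f.2⟩, rfl⟩
  ker f := (Φ.ker ⟨f.1, h.le f.2⟩).trans
    (exists_congr fun _ => and_congr_right fun _ => ⟨fun a => h.ge a, fun a => h.le a⟩)
  const := Φ.const
  trans := ht

theorem Lat_move_spec (Φ : Floors κ x) {x' : L} (h : spec κ x' = spec κ x)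
    (h1 : x' ∈ spec κ x) (ht : ∀ w, Transcendental κ (Φ.ρ ⟨x', h1⟩ w)) (z : ∀ w, Φ.L₀ w)
    (hz : ∀ w, Φ.ρ ⟨x', h1⟩ w = z w) : ∃ Φ' : Floors κ x',
    ∃ e : Fin Φ.s ≃ Fin Φ'.s, ∃ ψ : ∀ w, Φ.L₀ w ≃ₐ[κ] Φ'.L₀ (e w),
      (∀ f f₀ f₀', (∀ w, ψ w (f₀ w) = f₀' (e w)) → (Φ.R f f₀ ↔ Φ'.R f f₀')) ∧
      ∀ w, Φ'.x₀ (e w) = ψ w (z w) := by
  refine ⟨Φ.Lat_move h h1 ht, Equiv.refl (Fin Φ.s),
    fun w => (AlgEquiv.refl : Φ.L₀ w ≃ₐ[κ] Φ.L₀ w), fun f f₀ f₀' e => ?_, fun w => hz w⟩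
  have e' : f₀ = f₀' := funext e
  subst e'
  exact ⟨fun ⟨a, b⟩ => ⟨h.ge a, b⟩, fun ⟨a, b⟩ => ⟨h.le a, b⟩⟩

end rel

/-- The reduction of the lattice. -/
def Lat_red (Φ : Floors κ x) (n : ℕ) : Submodule κ (∀ w, Φ.L₀ w) where
  carrier := {f₀ | ∃ f ∈ Lsp ((n : ℤ) • dvInf (HF κ) x), Φ.R f f₀}
  add_mem' := by
    rintro _ _ ⟨a, ha, ha'⟩ ⟨b, hb, hb'⟩
    exact ⟨a + b, add_mem ha hb, Lat_add ha' hb'⟩
  zero_mem' := ⟨0, zero_mem _, Lat_zero⟩
  smul_mem' := by
    rintro c _ ⟨a, ha, ha'⟩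
    have h := Lat_smul (algebraMap κ (HO κ) c) ha'
    rw [AlgHom.commutes] at h
    exact ⟨_, Submodule.smul_mem _ _ ha, h⟩

/-- The product of the spaces of the floors. -/
noncomputable def Lat_top (Φ : Floors κ x) (n : ℕ) : Submodule κ (∀ w, Φ.L₀ w) :=
  Submodule.pi Set.univ fun w => Lsp ((n : ℤ) • dvInf κ (Φ.x₀ w))

theorem Lat_red_fil (Φ : Floors κ x) : LatFil Φ.x₀ Φ.Lat_red where
  mono n := fun _ ⟨a, ha, ha'⟩ => ⟨a, (LatA_fil x).mono n ha, ha'⟩
  mul n := fun _ ⟨a, ha, ha'⟩ => ⟨x * a, (LatA_fil x).mul n a ha, Lat_mul Lat_x ha'⟩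

omit [Fact (IsFF (HF κ) L)] in
theorem Lat_top_fil (Φ : Floors κ x) : LatFil Φ.x₀ Φ.Lat_top where
  mono n := fun _ ha w hw => (LatA_fil (Φ.x₀ w)).mono n (ha w hw)
  mul n := fun _ ha w hw => (LatA_fil (Φ.x₀ w)).mul n _ (ha w hw)

omit [Fact (IsFF (HF κ) L)] in
theorem Lat_top_fd (Φ : Floors κ x) (n : ℕ) : FiniteDimensional κ (Φ.Lat_top n) := (LatA_pi _).1

omit [Fact (IsFF (HF κ) L)] in
theorem Lat_top_gen (Φ : Floors κ x) : LatGen Φ.x₀ Φ.Lat_top := by
  choose m hm using fun w => LatA_genL (Φ.trans w)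
  refine ⟨Finset.univ.sup m, fun n hn f hf => ?_⟩
  choose a ha b hb e using fun w =>
    hm w n ((Finset.le_sup (Finset.mem_univ w)).trans hn) (f w) (hf w trivial)
  exact ⟨a, fun w _ => ha w, b, fun w _ => hb w, funext e⟩

omit [Fact (IsFF (HF κ) L)] in
theorem Lat_top_le (Φ : Floors κ x) (n : ℕ) :
    Module.finrank κ (Φ.Lat_top n) ≤ n * ∑ w, Φ.deg w + Φ.s := by
  refine (LatA_pi _).2.trans ?_
  have h : ∀ w, Module.finrank κ (Lsp ((n : ℤ) • dvInf κ (Φ.x₀ w))) ≤ n * Φ.deg w + 1 := by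
    intro w
    have h1 := LatA_ell_le (smul_nonneg (Int.natCast_nonneg n) (LatA_nonneg (K := κ) (Φ.x₀ w)))
    rw [dg_smul, dg_dvInf (x := Φ.x₀ w) (Φ.trans w)] at h1
    exact_mod_cast h1
  refine (Finset.sum_le_sum fun w _ => h w).trans (le_of_eq ?_)
  rw [Finset.sum_add_distrib, Finset.mul_sum]
  simp

/-- The reductions of the integral functions regular outside the poles of `y`. -/
def aff (Φ : Floors κ x) (y : L) : Subalgebra κ (∀ w, Φ.L₀ w) where
  carrier := {f₀ | ∃ f ∈ regOut (poles (HF κ) y), Φ.R f f₀}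
  mul_mem' := fun ⟨a, ha, ha'⟩ ⟨b, hb, hb'⟩ => ⟨a * b, mul_mem ha hb, Lat_mul ha' hb'⟩
  add_mem' := fun ⟨a, ha, ha'⟩ ⟨b, hb, hb'⟩ => ⟨a + b, add_mem ha hb, Lat_add ha' hb'⟩
  algebraMap_mem' c := ⟨_, Subalgebra.algebraMap_mem _ _, Lat_const' c⟩

variable (Φ : Floors κ x) (hx : Transcendental (HF κ) x)
include hx

theorem Lat_le (n : ℕ) : Φ.Lat_red n ≤ Φ.Lat_top n :=
  fun _ ⟨_, ha, ha'⟩ w _ => Φ.red_mem hx ha' ha w

theorem Lat_red_ge (n : ℕ) : n * Module.finrank (IntermediateField.adjoin (HF κ) {x}) L ≤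
    Module.finrank κ (Φ.Lat_red n) + genus (HF κ) L := by
  obtain ⟨b, b₀, h1, h2, -⟩ := Φ.exists_basis hx (Lsp ((n : ℤ) • dvInf (HF κ) x))
  have := Φ.Lat_top_fd n
  have := Submodule.finiteDimensional_of_le (Φ.Lat_le hx n)
  have h3 : LinearIndependent κ fun i => (⟨b₀ i, b i, (h1 i).1, (h1 i).2⟩ : Φ.Lat_red n) :=
    LinearIndependent.of_comp (Φ.Lat_red n).subtype h2
  have h4 := h3.fintype_card_le_finrank
  rw [Fintype.card_fin] at h4
  have h5 := LatA_ell_ge ((n : ℤ) • dvInf (HF κ) x)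
  rw [dg_smul, dg_dvInf hx, ell] at h5
  zify at h4 ⊢
  linarith

theorem sum_deg : ∑ w, Φ.deg w = Module.finrank (IntermediateField.adjoin (HF κ) {x}) L := by
  refine le_antisymm (Φ.sum_deg_le hx) (not_lt.1 fun h => ?_)
  have h1 := Φ.Lat_red_ge hx (Φ.s + genus (HF κ) L + 1)
  have h2 := Φ.Lat_top_le (Φ.s + genus (HF κ) L + 1)
  have := Φ.Lat_top_fd (Φ.s + genus (HF κ) L + 1)
  have h3 := Submodule.finrank_mono (Φ.Lat_le hx (Φ.s + genus (HF κ) L + 1))
  have h4 := Nat.mul_le_mul_left (Φ.s + genus (HF κ) L + 1) (Nat.succ_le_of_lt h)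
  rw [Nat.mul_succ] at h4
  omega
theorem fg : ∃ n₀ : ℕ, ∀ n, n₀ ≤ n → ∀ f ∈ Lam κ x (n + 1),
    ∃ a ∈ Lam κ x n, ∃ b ∈ Lam κ x n, f = a + x * b := by
  obtain ⟨Φ⟩ := exists_floors hx
  obtain ⟨n₀, h⟩ := LatA_gen Φ.Lat_red_fil (Φ.Lat_le hx) Φ.Lat_top_fd Φ.Lat_top_gen
  refine ⟨n₀, fun n hn f hf => ?_⟩
  obtain ⟨b, b₀, h1, h2, h3⟩ := Φ.exists_basis hx (Lsp (((n + 1 : ℕ) : ℤ) • dvInf (HF κ) x))
  have hs : ∀ (c : HO κ), ∀ a ∈ Lam κ x n, c • a ∈ Lam κ x n := fun c a ha =>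
    ⟨Submodule.smul_mem _ (c : HF κ) ha.1, (Lat_smul (Φ := Φ) c ⟨ha.2, rfl⟩).1⟩
  let Q : Submodule (HO κ) L :=
    { carrier := {f | ∃ a ∈ Lam κ x n, ∃ b ∈ Lam κ x n, f = a + x * b}
      add_mem' := by
        rintro _ _ ⟨a, ha, b, hb, rfl⟩ ⟨a', ha', b', hb', rfl⟩
        exact ⟨a + a', ⟨add_mem ha.1 ha'.1, add_mem ha.2 ha'.2⟩, b + b',
          ⟨add_mem hb.1 hb'.1, add_mem hb.2 hb'.2⟩, by ring⟩
      zero_mem' := ⟨0, ⟨zero_mem _, zero_mem _⟩, 0, ⟨zero_mem _, zero_mem _⟩, by ring⟩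
      smul_mem' := by
        rintro c _ ⟨a, ha, b, hb, rfl⟩
        exact ⟨c • a, hs c a ha, c • b, hs c b hb, by rw [smul_add, mul_smul_comm]⟩ }
  have h4 : Submodule.span (HO κ) (Set.range b) ≤ Q := by
    refine Submodule.le_of_le_smul_of_le_jacobson_bot (I := IsLocalRing.maximalIdeal (HO κ))
      (Submodule.fg_span (Set.finite_range b))
      (IsLocalRing.jacobson_eq_maximalIdeal ⊥ bot_ne_top).ge ?_
    rw [Submodule.span_le]
    rintro _ ⟨i, rfl⟩
    obtain ⟨a₀, ⟨a, ha, ha'⟩, a₁, ⟨a', hb, hb'⟩, e⟩ := h n hn (b₀ i) ⟨b i, (h1 i).1, (h1 i).2⟩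
    have h5 := Lat_sub (h1 i).2 (Lat_add ha' (Lat_mul Lat_x hb'))
    rw [← e, sub_self] at h5
    obtain ⟨c, hc⟩ := h3 _ (sub_mem (h1 i).1
      (add_mem ((LatA_fil x).mono n ha) ((LatA_fil x).mul n a' hb))) h5.1
    have h6 := Lat_sum Finset.univ fun j => Lat_smul (c j) (h1 j).2
    rw [← hc] at h6
    have h7 := Fintype.linearIndependent_iff.1 h2 _ (Lat_unique h6 h5)
    rw [SetLike.mem_coe, ← add_sub_cancel (a + x * a') (b i), hc]
    refine add_mem (Submodule.mem_sup_left ⟨a, ⟨ha, ha'.1⟩, a', ⟨hb, hb'.1⟩, rfl⟩)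
      (Submodule.mem_sup_right (Submodule.sum_mem _ fun j _ => ?_))
    exact Submodule.smul_mem_smul (r := c j) (mem_max_HO.2 (hres_eq_zero.1 (h7 j)))
      (Submodule.subset_span ⟨j, rfl⟩)
  obtain ⟨c, hc⟩ := h3 f hf.1 hf.2
  refine h4 ?_
  rw [hc]
  exact Submodule.sum_mem _ fun j _ =>
    Submodule.smul_mem _ (c j) (Submodule.subset_span ⟨j, rfl⟩)
theorem exists_lam {f : L} (h : f ∈ regOut (poles (HF κ) x)) (h' : f ∈ spec κ x) :
    ∃ n, f ∈ Lam κ x n := (LatA_exists (LatA_ne hx) h).imp fun _ hn => ⟨hn, h'⟩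
theorem aff_le {f₀ : _} (h : f₀ ∈ Φ.aff x) (w : Fin Φ.s) : f₀ w ∈ regOut (poles κ (Φ.x₀ w)) := by
  obtain ⟨f, hf, hf'⟩ := h
  obtain ⟨n, hn⟩ := LatA_exists (LatA_ne hx) hf
  exact LatA_reg (LatA_ne (Φ.trans w)) (Φ.red_mem hx hf' hn w)
/-- the conductor is nonzero on every floor -/
theorem exists_cond : ∃ s : Polynomial κ, s.Monic ∧ ∀ f₀ : ∀ w, Φ.L₀ w,
    (∀ w, f₀ w ∈ regOut (poles κ (Φ.x₀ w))) → (fun w => Polynomial.aeval (Φ.x₀ w) s * f₀ w) ∈ Φ.aff x := by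
  obtain ⟨s, hs, h⟩ := LatA_cond (c := Φ.s + genus (HF κ) L) Φ.Lat_top_fil (Φ.Lat_le hx)
    Φ.Lat_top_fd (fun n => by
      have h1 := Φ.Lat_red_ge hx n
      have h2 := Φ.Lat_top_le n
      rw [Φ.sum_deg hx] at h2
      omega)
    Φ.Lat_top_gen (Φ.aff x) ⟨x, fun _ => not_not.1, Lat_x⟩
    (fun n f ⟨a, ha, ha'⟩ => ⟨a, LatA_reg (LatA_ne hx) ha, ha'⟩)
  refine ⟨s, hs, fun f₀ hf => ?_⟩
  choose m hm using fun w => LatA_exists (x := Φ.x₀ w) (LatA_ne (Φ.trans w)) (hf w)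
  have h1 := h (Finset.univ.sup m) f₀ fun w _ =>
    (LatA_fil (Φ.x₀ w)).monotone (Finset.le_sup (Finset.mem_univ w)) (hm w)
  convert h1 using 1
  funext w
  rw [Pi.mul_apply]
  congr 1
  exact Polynomial.aeval_algHom_apply (Pi.evalAlgHom κ Φ.L₀ w) Φ.x₀ s
/-- the same floors for the Moebius transform `1 / (x - c)` -/
theorem exists_moeb (c : κ) : ∃ Φ' : Floors κ (x - algebraMap (HF κ) L (algebraMap κ (HF κ) c))⁻¹,
    ∃ e : Fin Φ.s ≃ Fin Φ'.s, ∃ ψ : ∀ w, Φ.L₀ w ≃ₐ[κ] Φ'.L₀ (e w),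
      (∀ f f₀ f₀', (∀ w, ψ w (f₀ w) = f₀' (e w)) → (Φ.R f f₀ ↔ Φ'.R f f₀')) ∧
      ∀ w, Φ'.x₀ (e w) = ψ w (Φ.x₀ w - algebraMap κ _ c)⁻¹ := by
  have ht : Transcendental (HF κ) (x - algebraMap (HF κ) L (algebraMap κ (HF κ) c)) :=
    fun h => hx (by simpa using h.add (isAlgebraic_algebraMap (algebraMap κ (HF κ) c)))
  have h : spec κ (x - algebraMap (HF κ) L (algebraMap κ (HF κ) c))⁻¹ = spec κ x :=
    (spec_inv ht).trans (spec_sub hx (algebraMap κ (HO κ) c))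
  have h1 : (x - algebraMap (HF κ) L (algebraMap κ (HF κ) c))⁻¹ ∈ spec κ x := h ▸ x_mem_spec _
  have h2 : ∀ w, Φ.ρ ⟨_, h1⟩ w = (Φ.x₀ w - algebraMap κ _ c)⁻¹ := fun w => by
    have h3 := Lat_mul (Φ := Φ) ⟨h1, rfl⟩ (Lat_sub Lat_x (Lat_const' c))
    rw [inv_mul_cancel₀ (LatA_ne ht)] at h3
    exact eq_inv_of_mul_eq_one_left (congrFun (Lat_unique h3 Lat_one) w)
  have h4 : ∀ w, Transcendental κ (Φ.ρ ⟨_, h1⟩ w) := fun w => by
    rw [h2]
    refine rr_tr_inv fun h => Φ.trans w ?_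
    have h5 := h.add (isAlgebraic_algebraMap c)
    rwa [sub_add_cancel] at h5
  exact Φ.Lat_move_spec h h1 h4 _ h2

end Floors

end PR0
end

-- merged part: Pool.Agent.Work.MP_da2620_ag.ConnA
section
/-!
# Auxiliary lemmas for `Conn`: the filtration of `spec x`, limits, the decomposition of functions
regular away from the zeros and poles of `x`
-/

namespace PR0

universe u

section general

variable {K L : Type u} [Field K] [Field L] [Algebra K L] [IsAlgClosed K] [Fact (IsFF K L)]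

omit [IsAlgClosed K] [Fact (IsFF K L)] in
theorem Conn_self (x : L) : x ∈ regOut (poles K x) := fun _ h => not_not.1 h

omit [IsAlgClosed K] [Fact (IsFF K L)] in
theorem Conn_reg_mono {S T : Set (Place K L)} (h : S ⊆ T) : regOut S ≤ regOut T :=
  fun _ hf P hP => hf P fun h' => hP (h h')

omit [IsAlgClosed K] [Fact (IsFF K L)] in
theorem Conn_ne {x : L} (hx : Transcendental K x) : x ≠ 0 := by
  rintro rfl
  exact hx isAlgebraic_zero

theorem Conn_ord_nonneg {P : Place K L} {f : L} (hf : f ≠ 0) (h : f ∈ P.1) : 0 ≤ P.ord f :=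
  (P.mem_iff.1 h).resolve_left hf

theorem Conn_inf_zero {P : Place K L} {x : L} (hx : x ≠ 0) (h : x ∈ P.1) : dvInf K x P = 0 := by
  rw [dvInf_apply hx]
  exact max_eq_right (neg_nonpos.2 (Conn_ord_nonneg hx h))

theorem Conn_inf_nonneg (P : Place K L) (x : L) : 0 ≤ dvInf K x P :=
  (le_sup_right : (0 : Dv K L) ≤ -dv K x ⊔ 0) P

theorem Conn_lsp {x f g : L} (hx : x ≠ 0) {N : ℕ} (h1 : f ∈ regOut (poles K x))
    (h2 : g ∈ regOut (poles K x⁻¹)) (e : f = x ^ N * g) : f ∈ Lsp ((N : ℤ) • dvInf K x) := by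
  intro P
  rw [Finsupp.smul_apply, smul_eq_mul]
  by_cases h : x ∈ P.1
  · rw [Conn_inf_zero hx h, mul_zero, neg_zero]
    exact P.mem_iff.1 (h1 P (not_not.2 h))
  · have h3 : P.Ge g 0 := P.mem_iff.1 (h2 P (not_not.2 ((P.1.mem_or_inv_mem x).resolve_left h)))
    have h4 : P.Ge x (P.ord x) := Or.inr le_rfl
    rw [e]
    refine ((h4.pow N).mul h3).mono ?_
    rw [dvInf_apply hx, add_zero, ← mul_neg]
    exact mul_le_mul_of_nonneg_left (by omega) (Int.natCast_nonneg N)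

theorem Conn_lsp_reg {y l : L} (hy : y ≠ 0) {N : ℕ} (h : l ∈ Lsp ((N : ℤ) • dvInf K y)) :
    l ∈ regOut (poles K y) := by
  intro P hP
  have h1 := h P
  rw [Finsupp.smul_apply, Conn_inf_zero hy (not_not.1 hP), smul_zero, neg_zero] at h1
  exact P.mem_iff.2 h1

theorem Conn_lsp_inv {x l : L} (hx : x ≠ 0) {N : ℕ} (h : l ∈ Lsp ((N : ℤ) • dvInf K x⁻¹)) :
    x ^ N * l ∈ regOut (poles K x) := by
  intro P hP
  have h1 := h P
  have h2 := Conn_ord_nonneg hx (not_not.1 hP)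
  rw [Finsupp.smul_apply, dvInf_apply (inv_ne_zero hx), P.ord_inv hx, neg_neg, max_eq_left h2,
    smul_eq_mul] at h1
  have h4 : P.Ge x (P.ord x) := Or.inr le_rfl
  have h5 := (h4.pow N).mul h1
  rw [add_neg_cancel] at h5
  exact P.mem_iff.2 h5

theorem Conn_lsp_mono (x : L) {n m : ℕ} (h : n ≤ m) :
    Lsp ((n : ℤ) • dvInf K x) ≤ Lsp ((m : ℤ) • dvInf K x) := by
  refine rr_Lsp_mono fun P => ?_
  rw [Finsupp.smul_apply, Finsupp.smul_apply, smul_eq_mul, smul_eq_mul]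
  exact mul_le_mul_of_nonneg_right (by exact_mod_cast h) (Conn_inf_nonneg P x)

theorem Conn_clear {x u : L} (hx : x ≠ 0) (hu : u ∈ regOut (poles K x ∪ poles K x⁻¹)) :
    ∃ m : ℕ, x⁻¹ ^ m * u ∈ regOut (poles K x⁻¹) := by
  obtain ⟨m, hm⟩ := ((finite_poles (K := K) x).image fun P => (-P.ord u).toNat).bddAbove
  refine ⟨m, fun P hP => ?_⟩
  by_cases h : x ∈ P.1
  · exact mul_mem (pow_mem (not_not.1 hP) m) (hu P fun h' => h'.elim (not_not.2 h) hP)
  · have h1 : (-P.ord u).toNat ≤ m := hm ⟨P, h, rfl⟩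
    have h2 : ¬ 0 ≤ P.ord x := fun h' => h (P.mem_iff.2 (Or.inr h'))
    have h3 : P.Ge x⁻¹ 1 := Or.inr (by rw [P.ord_inv hx]; omega)
    have h4 : P.Ge u (P.ord u) := Or.inr le_rfl
    exact P.mem_iff.2 (((h3.pow m).mul h4).mono (by omega))

theorem Conn_poles_ne {x : L} (hx : Transcendental K x) : (poles K x).Nonempty := by
  by_contra h
  obtain ⟨c, hc⟩ := const_of_regular (K := K) (f := x) fun P => not_not.1 fun hP => h ⟨P, hP⟩
  exact transcendental_iff.1 hx ⟨c, hc.symm⟩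

theorem Conn_inv_mem {P : Place K L} {f : L} (h : f ∈ P.1) (h0 : P.val f ≠ 0) : f⁻¹ ∈ P.1 := by
  rw [Ne, Place.val_eq_zero h, Place.Ge, not_or] at h0
  exact P.mem_iff.2 (Or.inr (by rw [P.ord_inv h0.1]; omega))

theorem Conn_val_aeval {P : Place K L} {y : L} (h : y ∈ P.1) (t : Polynomial K) :
    Polynomial.aeval y t ∈ P.1 ∧ P.val (Polynomial.aeval y t) = t.eval (P.val y) := by
  induction t using Polynomial.induction_on with
  | C a => simp [P.2.2, Place.val_const]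
  | add s t hs ht =>
    rw [map_add, Place.val_add hs.1 ht.1, hs.2, ht.2, Polynomial.eval_add]
    exact ⟨add_mem hs.1 ht.1, rfl⟩
  | monomial n a ih =>
    rw [pow_succ, ← mul_assoc, map_mul, Polynomial.aeval_X, Place.val_mul ih.1 h, ih.2,
      Polynomial.eval_mul (q := Polynomial.X), Polynomial.eval_X]
    exact ⟨mul_mem ih.1 h, rfl⟩

theorem Conn_val_pole {P : Place K L} {x : L} (h : x ∉ P.1) : x⁻¹ ∈ P.1 ∧ P.val x⁻¹ = 0 := by
  have h1 := (P.1.mem_or_inv_mem x).resolve_left h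
  refine ⟨h1, by_contra fun h0 => h ?_⟩
  simpa using Conn_inv_mem h1 h0

/-- strong approximation -/
theorem Conn_strong {x : L} (hx : Transcendental K x) (e : Place K L → ℤ)
    (he : (Function.support e).Finite) (a : Place K L → K) :
    ∃ f : L, ∀ P : Place K L, x ∈ P.1 → P.Ge (f - algebraMap K L (a P)) (e P) := by
  let E : Dv K L := Finsupp.ofSupportFinite e he
  have hd : 1 ≤ dg (dvInf K x) := by
    have := finiteDimensional_of_transcendental hx
    rw [dg_dvInf hx]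
    exact_mod_cast Module.finrank_pos
  obtain ⟨n, hn⟩ : ∃ n : ℤ, 0 ≤ n ∧ 2 * (genus K L : ℤ) + dg E ≤ n :=
    ⟨max 0 _, le_max_left _ _, le_max_right _ _⟩
  have h1 : H1z (n • dvInf K x - E) := h1z_of_deg (by
    rw [dg_sub, dg_smul]
    nlinarith [hn.1, hn.2])
  obtain ⟨f, hf⟩ := h1 (fun P => algebraMap K L (a P))
    (Set.finite_empty.subset fun P hP => hP (P.2.2 _))
  refine ⟨f, fun P hP => ?_⟩
  have h2 := hf P
  rwa [Finsupp.sub_apply, Finsupp.smul_apply, Conn_inf_zero (Conn_ne hx) hP, smul_zero, zero_sub,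
    neg_neg] at h2

end general

variable {κ : Type u} [Field κ] {L : Type u} [Field L] [Algebra (HF κ) L] {x : L}

/-- The filtration of `L` by the multiples of `spec x`. -/
def ConnF (κ : Type u) [Field κ] [Algebra (HF κ) L] (x : L) (γ : ℝ) (f : L) : Prop :=
  τ κ (-γ) • f ∈ spec κ x

theorem Conn_smul {c : HF κ} (hc : c ∈ HO κ) {f : L} (hf : f ∈ spec κ x) : c • f ∈ spec κ x := by
  rw [Algebra.smul_def]
  exact mul_mem (const_mem_spec x ⟨c, hc⟩) hf

theorem Conn_τ_mem {γ : ℝ} (h : 0 ≤ γ) : τ κ γ ∈ HO κ := by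
  rw [mem_HO, hv_τ]
  exact_mod_cast h

namespace ConnF

variable {γ δ : ℝ} {f g : L}

theorem mono (h : ConnF κ x δ f) (hγ : γ ≤ δ) : ConnF κ x γ f := by
  have h1 := Conn_smul (Conn_τ_mem (κ := κ) (sub_nonneg.2 hγ)) h
  rw [smul_smul, ← τ_add] at h1
  unfold ConnF
  convert h1 using 3
  ring

theorem zero_iff : ConnF κ x 0 f ↔ f ∈ spec κ x := by rw [ConnF, neg_zero, τ_zero, one_smul]

theorem mem (h : ConnF κ x γ f) (hγ : 0 ≤ γ) : f ∈ spec κ x := zero_iff.1 (h.mono hγ)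

theorem add (h : ConnF κ x γ f) (h' : ConnF κ x γ g) : ConnF κ x γ (f + g) := by
  unfold ConnF
  rw [smul_add]
  exact add_mem h h'

theorem neg (h : ConnF κ x γ f) : ConnF κ x γ (-f) := by
  unfold ConnF
  rw [smul_neg]
  exact neg_mem h

theorem sub (h : ConnF κ x γ f) (h' : ConnF κ x γ g) : ConnF κ x γ (f - g) := by
  rw [sub_eq_add_neg]
  exact h.add h'.neg

theorem pow (h : ConnF κ x γ f) (n : ℕ) : ConnF κ x (n * γ) (f ^ n) := by
  have h1 := pow_mem h n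
  rwa [smul_pow, Arc_τ_pow, mul_neg] at h1

theorem mul (h : ConnF κ x γ f) (h' : ConnF κ x δ g) : ConnF κ x (γ + δ) (f * g) := by
  have h1 := mul_mem h h'
  rwa [smul_mul_smul_comm, ← τ_add, ← neg_add] at h1

theorem mul' (h : ConnF κ x γ f) (h' : g ∈ spec κ x) : ConnF κ x γ (f * g) := by
  have h1 := h.mul (zero_iff.2 h')
  rwa [add_zero] at h1

theorem of_smul (hf : f ∈ spec κ x) (γ : ℝ) : ConnF κ x γ (τ κ γ • f) := by
  unfold ConnF
  rwa [smul_smul, ← τ_add, neg_add_cancel, τ_zero, one_smul]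

end ConnF

variable [IsAlgClosed κ] [Fact (IsFF (HF κ) L)] (hx : Transcendental (HF κ) x)
include hx

theorem Conn_sep {f : L} (h : ∀ γ : ℝ, ConnF κ x γ f) : f = 0 := by
  by_contra h0
  obtain ⟨c, hc, -, h1⟩ := prim hx h0
  obtain ⟨r, hr⟩ := Hahn_real hc
  have h2 := h1 (τ κ (-(1 - r)) / c) (by
    rw [smul_smul, div_mul_cancel₀ _ hc]
    exact h (1 - r))
  rw [mem_HO, Hahn_div hc, hr, hv_τ, WithTop.coe_le_coe] at h2
  linarith

theorem Conn_lim (V : Submodule (HF κ) L) [FiniteDimensional (HF κ) V] (v : ℕ → L)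
    (hv' : ∀ n, v n ∈ V) (r : ℕ → ℝ) (h : ∀ i j, ConnF κ x (min (r i) (r j)) (v i - v j)) :
    ∃ z : L, ∀ n, ConnF κ x (r n) (z - v n) := by
  obtain ⟨b, hb⟩ := lat (V := V) ((spec κ x).toAddSubgroup.comap V.subtype.toAddMonoidHom)
    (fun c hc v hv => Conn_smul hc hv) fun v hv => prim hx (f := v.1) fun h => hv (Subtype.ext h)
  have key : ∀ (γ : ℝ) (w : V), ConnF κ x γ w.1 ↔ ∀ i, (γ : WithTop ℝ) ≤ hv (b.repr w i) := by
    intro γ w
    refine (hb (τ κ (-γ) • w)).trans (forall_congr' fun i => ?_)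
    rw [map_smul, Finsupp.smul_apply, smul_eq_mul, Hahn_τ_mul]
  have h1 : ∀ i, ∃ c : HF κ, ∀ n, (r n : WithTop ℝ) ≤ hv (c - b.repr ⟨v n, hv' n⟩ i) := fun i =>
    sph (fun n => b.repr ⟨v n, hv' n⟩ i) r fun m n => by
      have h2 := (key _ (⟨v m, hv' m⟩ - ⟨v n, hv' n⟩)).1 (h m n) i
      rwa [map_sub, Finsupp.sub_apply] at h2
  choose c hc using h1
  refine ⟨(b.equivFun.symm c).1, fun n => (key _ (b.equivFun.symm c - ⟨v n, hv' n⟩)).2 fun i => ?_⟩
  rw [map_sub, Finsupp.sub_apply, ← b.equivFun_apply, LinearEquiv.apply_symm_apply]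
  exact hc i n

theorem Conn_inv_spec : x⁻¹ ∈ spec κ x := spec_inv hx ▸ x_mem_spec x⁻¹

theorem Conn_dec : ∃ N : ℕ, ∀ u ∈ regOut (poles (HF κ) x ∪ poles (HF κ) x⁻¹), u ∈ spec κ x →
    ∃ a ∈ regOut (poles (HF κ) x), a ∈ spec κ x ∧ ∃ a' ∈ regOut (poles (HF κ) x⁻¹),
      u = a + x ^ N * a' := by
  have hy := rr_tr_inv hx
  have h0 := Conn_ne hx
  obtain ⟨N, hN⟩ := Floors.fg (κ := κ) hy
  refine ⟨N, fun u hu hu' => ?_⟩
  have key : ∀ (k : ℕ) (j : ℤ), ∀ l ∈ Lam κ x⁻¹ (N + k),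
      ∃ a ∈ regOut (poles (HF κ) x), a ∈ spec κ x ∧ ∃ a' ∈ regOut (poles (HF κ) x⁻¹),
        x ^ j * l = a + x ^ N * a' := by
    intro k
    induction k with
    | zero =>
      rintro j l ⟨hl, hl'⟩
      rw [spec_inv hx] at hl'
      rcases le_total (N : ℤ) j with h | h
      · obtain ⟨m, rfl⟩ := Int.le.dest h
        refine ⟨x ^ m * (x ^ N * l), mul_mem (pow_mem (Conn_self x) m) (Conn_lsp_inv h0 hl),
          mul_mem (pow_mem (x_mem_spec x) m) (mul_mem (pow_mem (x_mem_spec x) N) hl'), 0,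
          zero_mem _, ?_⟩
        rw [zpow_add₀ h0, zpow_natCast, zpow_natCast]
        ring
      · obtain ⟨m, hm⟩ := Int.le.dest h
        refine ⟨0, zero_mem _, zero_mem _, x⁻¹ ^ m * l,
          mul_mem (pow_mem (Conn_self x⁻¹) m) (Conn_lsp_reg (inv_ne_zero h0) hl), ?_⟩
        rw [eq_sub_of_add_eq hm, zpow_sub₀ h0, zpow_natCast, zpow_natCast, inv_pow]
        ring
    | succ k ih =>
      intro j l hl
      obtain ⟨a, ha, b, hb, rfl⟩ := hN (N + k) (Nat.le_add_right N k) l hl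
      obtain ⟨a₁, h1, h1', a₁', h1'', e1⟩ := ih j a ha
      obtain ⟨a₂, h2, h2', a₂', h2'', e2⟩ := ih (j - 1) b hb
      refine ⟨a₁ + a₂, add_mem h1 h2, add_mem h1' h2', a₁' + a₂', add_mem h1'' h2'', ?_⟩
      rw [zpow_sub_one₀ h0] at e2
      linear_combination e1 + e2
  obtain ⟨m, hm⟩ := Conn_clear h0 hu
  obtain ⟨n, hn⟩ := Floors.exists_lam (κ := κ) hy hm (by
    rw [spec_inv hx]
    exact mul_mem (pow_mem (Conn_inv_spec hx) m) hu')
  have h1 := key n m _ ⟨Conn_lsp_mono _ (Nat.le_add_left n N) hn.1, hn.2⟩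
  rwa [zpow_natCast, ← mul_assoc, ← mul_pow, mul_inv_cancel₀ h0, one_pow, one_mul] at h1

omit hx [IsAlgClosed κ] [Fact (IsFF (HF κ) L)] in
/-- Newton iteration for idempotents. -/
theorem Conn_newton {e e' : L} {γ δ : ℝ} (hγ : 0 ≤ γ) (hδ : γ ≤ δ) (he : e ∈ spec κ x)
    (h1 : ConnF κ x δ (e - e')) (h2 : ConnF κ x δ (e ^ 2 - e)) :
    ConnF κ x (δ + γ) ((3 * e ^ 2 - 2 * e ^ 3) - (3 * e' ^ 2 - 2 * e' ^ 3)) ∧
      ConnF κ x (δ + γ) ((3 * e ^ 2 - 2 * e ^ 3) ^ 2 - (3 * e ^ 2 - 2 * e ^ 3)) ∧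
      ConnF κ x δ ((3 * e ^ 2 - 2 * e ^ 3) - e) := by
  have hn : ∀ n : ℕ, (n : L) ∈ spec κ x := fun n => natCast_mem _ n
  have hd := h1.mem (hγ.trans hδ)
  refine ⟨?_, ?_, ?_⟩
  · have h3 := h1.mul ((((h2.mono hδ).mul' (hn 6)).neg).add ((h1.mono hδ).mul'
      (sub_mem (sub_mem (mul_mem (hn 6) he) (hn 3)) (mul_mem (hn 2) hd))))
    convert h3 using 1
    push_cast
    ring
  · have h3 := (h2.mul (h2.mono hδ)).mul'
      (sub_mem (sub_mem (mul_mem (hn 4) (pow_mem he 2)) (mul_mem (hn 4) he)) (hn 3))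
    convert h3 using 1
    push_cast
    ring
  · have h3 := h2.mul' (sub_mem (one_mem _) (mul_mem (hn 2) he))
    convert h3 using 1
    push_cast
    ring

/-- An approximate idempotent of `A` congruent to an element of `A'` is congruent to `0` or `1`. -/
theorem Conn_idem {e e' : L} {γ : ℝ} (hγ : 0 < γ) (hs : e ∈ spec κ x)
    (he : e ∈ regOut (poles (HF κ) x)) (he' : e' ∈ regOut (poles (HF κ) x⁻¹))
    (h1 : ConnF κ x γ (e - e')) (h2 : ConnF κ x γ (e ^ 2 - e)) :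
    ConnF κ x γ e ∨ ConnF κ x γ (1 - e) := by
  have h0 := Conn_ne hx
  obtain ⟨N, hN⟩ := Conn_dec hx
  let r : ℕ → ℝ := fun n => (n + 1) * γ
  have hr : Monotone r := fun m n h => mul_le_mul_of_nonneg_right
    (by exact_mod_cast Nat.succ_le_succ h) hγ.le
  have hr0 : r 0 = γ := by simp [r]
  have hr1 : ∀ n, r (n + 1) = r n + γ := fun n => by simp only [r]; push_cast; ring
  have hr2 : ∀ n, γ ≤ r n := fun n => hr0 ▸ hr (Nat.zero_le n)
  let φ : L → L := fun e => 3 * e ^ 2 - 2 * e ^ 3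
  have hφ : ∀ {S : Type u} [SetLike S L] [SubringClass S L] (A : S) (f : L), f ∈ A →
      ∀ n, φ^[n] f ∈ A := by
    intro S _ _ A f hf n
    induction n with
    | zero => exact hf
    | succ n ih =>
      rw [Function.iterate_succ_apply']
      exact sub_mem (mul_mem (ofNat_mem A 3) (pow_mem ih 2)) (mul_mem (ofNat_mem A 2) (pow_mem ih 3))
  have hE : ∀ n, ConnF κ x (r n) (φ^[n] e - φ^[n] e') ∧ ConnF κ x (r n) (φ^[n] e ^ 2 - φ^[n] e) := by
    intro n
    induction n with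
    | zero => exact hr0 ▸ ⟨h1, h2⟩
    | succ n ih =>
      have h3 := Conn_newton hγ.le (hr2 n) (hφ _ e hs n) ih.1 ih.2
      rw [hr1, Function.iterate_succ_apply', Function.iterate_succ_apply']
      exact ⟨h3.1, h3.2.1⟩
  have h4 : ∀ n, ConnF κ x (r n) (φ^[n + 1] e - φ^[n] e) := fun n => by
    rw [Function.iterate_succ_apply']
    exact (Conn_newton hγ.le (hr2 n) (hφ _ e hs n) (hE n).1 (hE n).2).2.2
  have h3 : ∀ n, ∃ v ∈ Lsp ((N : ℤ) • dvInf (HF κ) x), ConnF κ x (r n) (v - φ^[n] e) := by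
    intro n
    have hA := hφ _ e he n
    have hA' := hφ _ e' he' n
    have h4 := (hE n).1
    generalize φ^[n] e = E at hA h4 ⊢
    generalize φ^[n] e' = E' at hA' h4 ⊢
    obtain ⟨a, ha, ha', b, hb, e1⟩ := hN _ (Subalgebra.smul_mem _ (sub_mem
      (Conn_reg_mono Set.subset_union_left hA) (Conn_reg_mono Set.subset_union_right hA')) _) h4
    refine ⟨E - τ κ (r n) • a, Conn_lsp h0 (g := x⁻¹ ^ N * E' + τ κ (r n) • b)
      (sub_mem hA (Subalgebra.smul_mem _ ha _))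
      (add_mem (mul_mem (pow_mem (Conn_self _) _) hA') (Subalgebra.smul_mem _ hb _)) ?_, ?_⟩
    · have e2 := congrArg (τ κ (r n) • ·) e1
      simp only [smul_smul, ← τ_add, add_neg_cancel, τ_zero, one_smul, smul_add] at e2
      rw [mul_add, ← mul_assoc, ← mul_pow, mul_inv_cancel₀ h0, one_pow, one_mul, mul_smul_comm]
      linear_combination e2
    · rw [sub_sub_cancel_left]
      exact (ConnF.of_smul ha' _).neg
  choose v hv hv' using h3
  have h5 : ∀ n m, n ≤ m → ConnF κ x (r n) (φ^[m] e - φ^[n] e) := by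
    intro n m h
    induction m, h using Nat.le_induction with
    | base => rw [sub_self, ConnF, smul_zero]; exact zero_mem _
    | succ m hm ih =>
      have h6 := ((h4 m).mono (hr hm)).add ih
      rwa [sub_add_sub_cancel] at h6
  have h6 : ∀ n m, n ≤ m → ConnF κ x (r n) (v m - v n) := fun n m h => by
    have h7 := (((hv' m).mono (hr h)).add (h5 n m h)).sub (hv' n)
    convert h7 using 1
    ring
  obtain ⟨z, hz⟩ := Conn_lim hx _ v hv r fun i j => by
    rcases le_total i j with h | h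
    · rw [min_eq_left (hr h), ← neg_sub]
      exact (h6 i j h).neg
    · rw [min_eq_right (hr h)]
      exact h6 j i h
  have h7 : ∀ n, ConnF κ x (r n) (z - φ^[n] e) := fun n => by
    have h8 := (hz n).add (hv' n)
    rwa [sub_add_sub_cancel] at h8
  have h8 : ConnF κ x γ (z - e) := hr0 ▸ h7 0
  have h9 : z ∈ spec κ x := by simpa using add_mem (h8.mem hγ.le) hs
  have h10 : z * (z - 1) = 0 := Conn_sep hx fun δ => by
    obtain ⟨n, hn⟩ := exists_nat_ge (δ / γ)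
    rw [div_le_iff₀ hγ] at hn
    have h11 := ((h7 n).mul' (sub_mem (add_mem h9 (hφ _ e hs n)) (one_mem _))).add (hE n).2
    refine ConnF.mono (δ := r n) ?_ (by simp only [r]; linarith)
    convert h11 using 1
    ring
  rcases mul_eq_zero.1 h10 with rfl | h11
  · exact Or.inl (by simpa using h8.neg)
  · exact Or.inr (sub_eq_zero.1 h11 ▸ h8)

end PR0
end

-- merged part: Pool.Agent.Work.MP_da2620_ag.Conn
section
/-!
# Connectedness of the special fibre, nilpotence of Frobenius on it, the tree lemma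

Let `A = regOut (poles x) ∩ spec`, `A' = regOut (poles x⁻¹) ∩ spec`, `A'' = A[1/x]`.  From `fg` (for `x`
and `x⁻¹`): `A = ∑_(i ≥ 0) x ^ i Λ n₀`, `A' = ∑_(i ≥ 0) x ^ (-n₀ - i) Λ n₀`, so
`A'' = A + A' + x ^ (-n₀) Λ (2 n₀)`.
`conn`: `aff x ⊓ aff x⁻¹` consists of functions constant on each floor; if it is bigger than `κ` it
contains a nontrivial idempotent `ē`.  Lift it to `e ∈ A`, `e' ∈ A'`, `e - e' = π u`.  For `q = p ^ n`
write `u ^ q = a + a' + x ^ (-n₀) l`; then `e_q = e ^ q - π ^ q a = e' ^ q + π ^ q a' + π ^ q x ^ (-n₀) l` has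
`x ^ n₀ e_q ∈ Λ (2 n₀)`.  As `e ^ p - e ≡ 0`, the `e ^ q` and the `e_q` form a Cauchy sequence; in the basis
of `exists_basis` the coordinates converge (`sph`), and the limit `e_∞ ∈ L` is an idempotent reducing to
`ē`, impossible in a field.
`nil`: `A'' / (A + A')` is torsion free: if `π u = a + a'`, normalise `a(P₀) = 0` at a fixed place with
`x(P₀) ∈ O` (values of elements of `A` at `P₀` are in `O` and depend on the reduction only mod `𝔪`), scale
the pair `(a, a')` to be primitive; if the scaling factor is smaller than `π` the reductions are opposite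
constants (`conn`) vanishing at `P₀`, contradiction.  With `HW0.uniform` for `S = poles x`
(`a' = u ^ q - a` is regular at the poles of `x` and away from the zeros of `x`) this gives the claim for
`f₀` in the reduction of `A''`; in general `f₀ ∈ Ā'' + O_∞` with `O_∞` the localisation of `Ā'` at `x⁻¹ = 0`.
`tree`: if `f ^ p - f ∈ aff x` then `f ^ q - f ∈ aff x`; by `nil` `f - a` is regular everywhere.
`card_glue`: let `Z` be the set of points (algebra maps `aff x → κ`) with at least two places over them,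
`Σ` the set of these places.  If `#Σ > #Z + s - 1` there is `c : Σ → F_p` not of the form
(function of the point) + (function of the floor).  By approximation take `f` in the normalisation,
congruent to `c` to high order at `Σ` and to `0` at the other places over the roots of the conductor
polynomial; then `f ^ p - f ∈ aff x`; apply `tree` and an `F_p`-linear retraction `κ → F_p`.
-/

namespace PR0

universe u

variable {κ : Type u} [Field κ] {L : Type u} [Field L] [Algebra (HF κ) L] [IsAlgClosed κ]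
  [Fact (IsFF (HF κ) L)] {x : L} (Φ : Floors κ x)

namespace Floors

/-- The places of the floors at finite distance. -/
def Pl : Type u := {P : Σ w, Place κ (Φ.L₀ w) // Φ.x₀ P.1 ∈ P.2.1}

/-- Two places give the same point of the special fibre. -/
def Glued (P Q : Φ.Pl) : Prop := ∀ f ∈ Φ.aff x, P.1.2.val (f P.1.1) = Q.1.2.val (f Q.1.1)

section R
omit [IsAlgClosed κ] [Fact (IsFF (HF κ) L)]
variable {Φ} {f g : L} {f₀ g₀ : ∀ w, Φ.L₀ w}

theorem Conn_mul (h : Φ.R f f₀) (h' : Φ.R g g₀) : Φ.R (f * g) (f₀ * g₀) :=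
  ⟨mul_mem h.1 h'.1, by rw [← h.2, ← h'.2, ← map_mul]; rfl⟩

theorem Conn_add (h : Φ.R f f₀) (h' : Φ.R g g₀) : Φ.R (f + g) (f₀ + g₀) :=
  ⟨add_mem h.1 h'.1, by rw [← h.2, ← h'.2, ← map_add]; rfl⟩

theorem Conn_sub (h : Φ.R f f₀) (h' : Φ.R g g₀) : Φ.R (f - g) (f₀ - g₀) :=
  ⟨sub_mem h.1 h'.1, by rw [← h.2, ← h'.2, ← map_sub]; rfl⟩

theorem Conn_pow (h : Φ.R f f₀) (n : ℕ) : Φ.R (f ^ n) (f₀ ^ n) :=
  ⟨pow_mem h.1 n, by rw [← h.2, ← map_pow]; rfl⟩

theorem Conn_uniq (h : Φ.R f f₀) (h' : Φ.R f g₀) : f₀ = g₀ := h.2.symm.trans h'.2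

theorem Conn_ker (h : Φ.R f 0) : ∃ γ : ℝ, 0 < γ ∧ ConnF κ x γ f := (Φ.ker ⟨f, h.1⟩).1 h.2

theorem Conn_ker' {γ : ℝ} (hγ : 0 < γ) (h : ConnF κ x γ f) : Φ.R f 0 :=
  ⟨h.mem hγ.le, (Φ.ker _).2 ⟨γ, hγ, h⟩⟩

variable (Φ)

theorem Conn_const (c : HO κ) : Φ.R (algebraMap (HF κ) L c) (algebraMap κ _ (hres c)) :=
  ⟨_, Φ.const c⟩

theorem Conn_x : Φ.R x Φ.x₀ := ⟨_, rfl⟩

theorem Conn_one : Φ.R 1 1 := ⟨one_mem _, map_one Φ.ρ⟩

end R

theorem Conn_incl {L M : Type*} [Ring L] [Semiring M] {S T : Subring L} (H : S ≤ T) (ρ : T →+* M)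
    (f : S) : ρ.comp (Subring.inclusion H) f = ρ ⟨f.1, H f.2⟩ := rfl

section inv
variable (hx : Transcendental (HF κ) x)
include hx

theorem Conn_xinv : Φ.R x⁻¹ Φ.x₀⁻¹ := by
  refine ⟨Conn_inv_spec hx, funext fun w => eq_inv_of_mul_eq_one_right ?_⟩
  have h1 := Conn_mul Φ.Conn_x (⟨Conn_inv_spec hx, rfl⟩ : Φ.R x⁻¹ _)
  rw [mul_inv_cancel₀ (Conn_ne hx)] at h1
  exact congrFun (Conn_uniq h1 Φ.Conn_one) w

/-- The same floors, for the function `x⁻¹`. -/
@[reducible] noncomputable def ConnInv : Floors κ x⁻¹ where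
  s := Φ.s
  L₀ := Φ.L₀
  ρ := Φ.ρ.comp (Subring.inclusion (spec_inv hx).le)
  surj f₀ := by
    obtain ⟨f, rfl⟩ := Φ.surj f₀
    exact ⟨⟨f.1, (spec_inv hx).ge f.2⟩, Conn_incl _ _ _⟩
  ker f := by
    rw [Conn_incl, Φ.ker]
    exact exists_congr fun γ => and_congr_right fun _ =>
      ⟨fun h => (spec_inv hx).ge h, fun h => (spec_inv hx).le h⟩
  const c := (Conn_incl _ _ _).trans (Φ.const c)
  trans w := by
    rw [Conn_incl, (Φ.Conn_xinv hx).2]
    exact rr_tr_inv (Φ.trans w)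

theorem Conn_inv_x₀ (w : Fin Φ.s) : (Φ.ConnInv hx).x₀ w = (Φ.x₀ w)⁻¹ :=
  congrFun ((Conn_incl (spec_inv hx).le Φ.ρ ⟨_, x_mem_spec x⁻¹⟩).trans (Φ.Conn_xinv hx).2) w

theorem Conn_inv_aff {f₀ : ∀ w, Φ.L₀ w} : f₀ ∈ (Φ.ConnInv hx).aff x⁻¹ ↔ f₀ ∈ Φ.aff x⁻¹ :=
  ⟨fun ⟨f, h, h1, h2⟩ => ⟨f, h, (spec_inv hx).le h1, (Conn_incl _ _ _).symm.trans h2⟩,
    fun ⟨f, h, h1, h2⟩ => ⟨f, h, (spec_inv hx).ge h1, (Conn_incl _ _ _).trans h2⟩⟩

theorem Conn_aff_le {f₀ : ∀ w, Φ.L₀ w} (h : f₀ ∈ Φ.aff x⁻¹) (w : Fin Φ.s) :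
    f₀ w ∈ regOut (poles κ (Φ.x₀ w)⁻¹) := by
  have h1 := (Φ.ConnInv hx).aff_le (rr_tr_inv hx) ((Φ.Conn_inv_aff hx).2 h) w
  rw [Conn_inv_x₀] at h1
  exact h1

theorem Conn_cond : ∃ s : Polynomial κ, s.Monic ∧ ∀ f₀ : ∀ w, Φ.L₀ w,
    (∀ w, f₀ w ∈ regOut (poles κ (Φ.x₀ w)⁻¹)) →
      (fun w => Polynomial.aeval (Φ.x₀ w)⁻¹ s * f₀ w) ∈ Φ.aff x⁻¹ := by
  obtain ⟨s, hs, h⟩ := (Φ.ConnInv hx).exists_cond (rr_tr_inv hx)
  refine ⟨s, hs, fun f₀ hf => (Φ.Conn_inv_aff hx).1 ?_⟩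
  have h1 := h f₀ fun w => by rw [Conn_inv_x₀]; exact hf w
  simp only [Conn_inv_x₀] at h1
  exact h1

/-- Every function on the floors has the polar parts at infinity of a global function. -/
theorem Conn_polar (f₀ : ∀ w, Φ.L₀ w) :
    ∃ u ∈ regOut (poles (HF κ) x ∪ poles (HF κ) x⁻¹), ∃ u₀, Φ.R u u₀ ∧
      ∀ w, (f₀ - u₀) w ∈ regOut (poles κ (Φ.x₀ w))ᶜ := by
  classical
  obtain ⟨s, hs, hc⟩ := Φ.Conn_cond hx
  choose t ht ht' using fun w => exists_den (rr_tr_inv (Φ.trans w)) (f₀ w)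
  have hT : (s * ∏ w, t w).Monic := hs.mul (Polynomial.monic_prod_of_monic _ _ fun w _ => ht w)
  obtain ⟨t₁, h1, h2⟩ := Polynomial.exists_eq_pow_rootMultiplicity_mul_and_not_dvd _ hT.ne_zero 0
  generalize Polynomial.rootMultiplicity 0 (s * ∏ w, t w) = k at h1
  rw [map_zero, sub_zero] at h1 h2
  obtain ⟨α, β, h3⟩ := (Polynomial.irreducible_X.coprime_iff_not_dvd.2 h2).pow_left (m := k)
  have hy : ∀ (w) (q : Polynomial κ),
      Polynomial.aeval (Φ.x₀ w)⁻¹ q ∈ regOut (poles κ (Φ.x₀ w)⁻¹) := fun w q P hP =>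
    (Conn_val_aeval (not_not.1 hP) q).1
  have h4 : ∀ w, Polynomial.aeval (Φ.x₀ w)⁻¹ (∏ w, t w) * f₀ w ∈ regOut (poles κ (Φ.x₀ w)⁻¹) := by
    intro w
    rw [← Finset.prod_erase_mul _ _ (Finset.mem_univ w), map_mul, mul_assoc]
    exact mul_mem (hy w _) (ht' w)
  have h5 := hc (fun w => Polynomial.aeval (Φ.x₀ w)⁻¹ β *
    (Polynomial.aeval (Φ.x₀ w)⁻¹ (∏ w, t w) * f₀ w)) fun w => mul_mem (hy w _) (h4 w)
  obtain ⟨g, hg, hg'⟩ := h5
  refine ⟨x ^ k * g, mul_mem (pow_mem (Conn_reg_mono Set.subset_union_left (Conn_self x)) k)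
    (Conn_reg_mono Set.subset_union_right hg), _, Conn_mul (Conn_pow Φ.Conn_x k) hg',
    fun w P hP => ?_⟩
  have h0 : Φ.x₀ w ≠ 0 := Conn_ne (Φ.trans w)
  obtain ⟨h6, h7⟩ := Conn_val_pole (not_not.1 hP)
  have h8 := Conn_val_aeval h6 t₁
  have h9 : P.val (Polynomial.aeval (Φ.x₀ w)⁻¹ t₁) ≠ 0 := by
    rw [h8.2, h7, ← Polynomial.coeff_zero_eq_eval_zero]
    exact fun h => h2 (Polynomial.X_dvd_iff.2 h)
  have h10 : Polynomial.aeval (Φ.x₀ w)⁻¹ t₁ ≠ 0 := fun h => h9 (by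
    rw [h, ← map_zero (algebraMap κ (Φ.L₀ w)), Place.val_const])
  have h11 := mul_mem (mul_mem (mul_mem (hy w s P (not_not.2 h6)) (h4 w P (not_not.2 h6)))
    (hy w α P (not_not.2 h6))) (Conn_inv_mem h8.1 h9)
  have e1 := congrArg (Polynomial.aeval (Φ.x₀ w)⁻¹) h1
  have e2 := congrArg (Polynomial.aeval (Φ.x₀ w)⁻¹) h3
  simp only [map_mul, map_add, map_pow, Polynomial.aeval_X, map_one] at e1 e2
  have e3 : Φ.x₀ w ^ k * (Φ.x₀ w)⁻¹ ^ k = 1 := by rw [← mul_pow, mul_inv_cancel₀ h0, one_pow]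
  have e4 := mul_inv_cancel₀ h10
  convert h11 using 1
  simp only [Pi.sub_apply, Pi.mul_apply, Pi.pow_apply]
  generalize Polynomial.aeval (Φ.x₀ w)⁻¹ (∏ w, t w) = T at *
  generalize (Polynomial.aeval (Φ.x₀ w)⁻¹ t₁)⁻¹ = i at *
  generalize (Φ.x₀ w)⁻¹ ^ k = y at *
  linear_combination (-(f₀ w * Polynomial.aeval (Φ.x₀ w)⁻¹ α * i) -
    Φ.x₀ w ^ k * Polynomial.aeval (Φ.x₀ w)⁻¹ β * f₀ w) * e1 - f₀ w * e2 -
    (f₀ w * Polynomial.aeval (Φ.x₀ w)⁻¹ β * Polynomial.aeval (Φ.x₀ w)⁻¹ t₁) * e3 -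
    (f₀ w * Polynomial.aeval (Φ.x₀ w)⁻¹ α * y) * e4

end inv

variable (p : ℕ) [Fact p.Prime] [CharP κ p] (hx : Transcendental (HF κ) x)
include hx

theorem Conn_fix {e₀ : _} (h : e₀ ∈ Φ.aff x) (h' : e₀ ∈ Φ.aff x⁻¹) (hp : e₀ ^ 2 = e₀) :
    e₀ = 0 ∨ e₀ = 1 := by
  obtain ⟨e, he, hR⟩ := h
  obtain ⟨e', he', hR'⟩ := h'
  have h3 := Conn_sub hR hR'
  have h4 := Conn_sub (Conn_pow hR 2) hR
  rw [sub_self] at h3
  rw [hp, sub_self] at h4
  obtain ⟨γ₁, h1, h1'⟩ := Conn_ker h3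
  obtain ⟨γ₂, h2, h2'⟩ := Conn_ker h4
  have hγ := lt_min h1 h2
  rcases Conn_idem hx hγ hR.1 he he' (h1'.mono (min_le_left _ _)) (h2'.mono (min_le_right _ _))
    with hc | hc
  · exact Or.inl (Conn_uniq hR (Conn_ker' hγ hc))
  · exact Or.inr (sub_eq_zero.1 (Conn_uniq (Conn_sub Φ.Conn_one hR) (Conn_ker' hγ hc))).symm

theorem conn {f₀ : _} (h : f₀ ∈ Φ.aff x) (h' : f₀ ∈ Φ.aff x⁻¹) : ∃ c, f₀ = algebraMap κ _ c := by
  classical
  have h1 : ∀ w, ∃ c, f₀ w = algebraMap κ _ c := fun w => const_of_regular fun P =>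
    (P.1.mem_or_inv_mem (Φ.x₀ w)).elim (fun hP => Φ.aff_le hx h w P (not_not.2 hP))
      fun hP => Φ.Conn_aff_le hx h' w P (not_not.2 hP)
  choose c hc using h1
  let w₀ : Fin Φ.s := ⟨0, Φ.s_pos hx⟩
  let q : Polynomial κ := ∏ w ∈ Finset.univ.filter fun w => c w ≠ c w₀,
    Polynomial.C (c w₀ - c w)⁻¹ * (Polynomial.X - Polynomial.C (c w))
  have hq : ∀ w, Polynomial.aeval f₀ q w = if c w = c w₀ then 1 else 0 := by
    intro w
    have h2 : Polynomial.aeval f₀ q w = algebraMap κ _ (q.eval (c w)) := by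
      rw [← Polynomial.aeval_algebraMap_apply_eq_algebraMap_eval, ← hc]
      exact (Polynomial.aeval_algHom_apply (Pi.evalAlgHom κ Φ.L₀ w) f₀ q).symm
    rw [h2, Polynomial.eval_prod]
    split_ifs with h3
    · rw [Finset.prod_eq_one, map_one]
      intro v hv
      have h4 : c w₀ - c v ≠ 0 := sub_ne_zero.2 (Finset.mem_filter.1 hv).2.symm
      simp [h3, h4]
    · rw [Finset.prod_eq_zero (i := w) (Finset.mem_filter.2 ⟨Finset.mem_univ w, h3⟩), map_zero]
      simp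
  have hm : ∀ A : Subalgebra κ (∀ w, Φ.L₀ w), f₀ ∈ A → Polynomial.aeval f₀ q ∈ A := fun A hA =>
    Algebra.adjoin_le (Set.singleton_subset_iff.2 hA) (Polynomial.aeval_mem_adjoin_singleton κ f₀)
  have ha := (Φ.Conn_fix hx (hm _ h) (hm _ h') (funext fun w => by
    rw [Pi.pow_apply, hq]
    split_ifs
    · exact one_pow 2
    · exact zero_pow two_ne_zero)).resolve_left fun h2 => by
      have h3 := congrFun h2 w₀
      rw [hq, if_pos rfl] at h3
      exact one_ne_zero h3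
  refine ⟨c w₀, funext fun w => ?_⟩
  have h3 := congrFun ha w
  rw [hq, Pi.one_apply] at h3
  rw [hc, Pi.algebraMap_apply, by_contra fun h4 => zero_ne_one ((if_neg h4).symm.trans h3)]

include Φ in
/-- `H¹` of the model has no torsion. -/
theorem Conn_tors {a a' : L} (ha : a ∈ regOut (poles (HF κ) x))
    (ha' : a' ∈ regOut (poles (HF κ) x⁻¹)) (hu : a + a' ∈ spec κ x) :
    ∃ c : HF κ, a - algebraMap (HF κ) L c ∈ spec κ x := by
  by_cases h0 : a = 0
  · exact ⟨0, by simp [h0]⟩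
  obtain ⟨d₀, hd₀, hd₁, -⟩ := prim hx h0
  obtain ⟨c, hc⟩ := Hahn_best (κ := κ) (Λ := (spec κ x).toAddSubgroup) (b := fun _ : Fin 1 => (1 : L))
    (fun c hc v hv => Conn_smul hc hv) (fun c => by
      rw [Fin.sum_univ_one, ← Algebra.algebraMap_eq_smul_one, Fin.forall_fin_one]
      exact const_mem_spec_iff hx) hd₀ hd₁
  simp only [Fin.sum_univ_one, ← Algebra.algebraMap_eq_smul_one] at hc
  refine ⟨c 0, by_contra fun h1 => ?_⟩
  obtain ⟨γ, f₀, hR, hf⟩ := Φ.exists_prim hx (f := a - algebraMap (HF κ) L (c 0))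
    fun h => h1 (h ▸ zero_mem _)
  have hγ : 0 < γ := by
    refine not_le.1 fun h => h1 (ConnF.mem (γ := -γ) ?_ (neg_nonneg.2 h))
    rw [ConnF, neg_neg]
    exact hR.1
  have h2 : Φ.R (τ κ γ • (a + a')) 0 := Conn_ker' hγ (ConnF.of_smul hu γ)
  obtain ⟨c₀, h3⟩ := Φ.conn hx (f₀ := f₀)
    ⟨_, Subalgebra.smul_mem _ (sub_mem ha (Subalgebra.algebraMap_mem _ _)) _, hR⟩
    ⟨_, Subalgebra.smul_mem _ (neg_mem (add_mem ha' (Subalgebra.algebraMap_mem _ (c 0)))) (τ κ γ), by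
      have h4 := Conn_sub hR h2
      rw [sub_zero, ← smul_sub] at h4
      convert h4 using 2
      ring⟩
  have h4 := Conn_sub hR (Φ.Conn_const (algebraMap κ (HO κ) c₀))
  rw [AlgHom.commutes, Algebra.algebraMap_self, RingHom.id_apply, ← h3, sub_self] at h4
  obtain ⟨δ, hδ, h5⟩ := Conn_ker h4
  have h6 := hc (fun _ => c 0 + τ κ (-γ) * (algebraMap κ (HO κ) c₀ : HO κ)) (τ κ (-δ) * τ κ γ)
    (mul_ne_zero (τ_ne_zero _) (τ_ne_zero _)) (by
      have e : τ κ γ * τ κ (-γ) = 1 := by rw [← τ_add, add_neg_cancel, τ_zero]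
      rw [map_add, ← sub_sub, mul_smul, smul_sub (τ κ γ) (a - _), Algebra.smul_def (τ κ γ) (algebraMap _ _ _),
        ← map_mul, ← mul_assoc, e, one_mul]
      exact h5)
  rw [mul_smul] at h6
  exact hf (Conn_uniq hR (Conn_ker' hδ h6))

theorem nil (h : HW0 (HF κ) L p) : ∃ n : ℕ, ∀ f₀ : ∀ w, Φ.L₀ w, ∃ a ∈ Φ.aff x,
    ∀ w, (f₀ ^ p ^ n - a) w ∈ regOut (poles κ (Φ.x₀ w))ᶜ := by
  obtain ⟨n, hn⟩ := h.uniform (finite_poles x) (Conn_poles_ne hx)
  refine ⟨n, fun f₀ => ?_⟩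
  obtain ⟨u, hu, u₀, hR, h1⟩ := Φ.Conn_polar hx f₀
  obtain ⟨a, ha, ha'⟩ := hn u
  have h2 : u ^ p ^ n - a ∈ regOut (poles (HF κ) x⁻¹) := fun P hP => by
    by_cases h3 : P ∈ poles (HF κ) x
    · exact ha' P (not_not.2 h3)
    · exact sub_mem (pow_mem (hu P fun h => h.elim h3 hP) _) (ha P h3)
  obtain ⟨c, hc⟩ := Φ.Conn_tors hx ha h2 (by
    rw [add_sub_cancel]
    exact pow_mem hR.1 _)
  have h3 : Φ.R (a - algebraMap (HF κ) L c) _ := ⟨hc, rfl⟩
  refine ⟨_, ⟨_, sub_mem ha (Subalgebra.algebraMap_mem _ c), h3⟩, fun w P hP => ?_⟩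
  have h4 := Φ.Conn_aff_le hx ⟨_, by
    rw [← sub_add]
    exact add_mem h2 (Subalgebra.algebraMap_mem _ c), Conn_sub (Conn_pow hR (p ^ n)) h3⟩ w P
    (not_not.2 (Conn_val_pole (not_not.1 hP)).1)
  have : CharP (Φ.L₀ w) p := charP_of_injective_algebraMap (algebraMap κ (Φ.L₀ w)).injective p
  have h5 := add_mem (pow_mem (h1 w P hP) (p ^ n)) h4
  simp only [Pi.sub_apply, Pi.pow_apply, sub_pow_char_pow, sub_add_sub_cancel] at h5 ⊢
  exact h5

theorem tree (h : HW0 (HF κ) L p) {f : ∀ w, Φ.L₀ w} (hf : ∀ w, f w ∈ regOut (poles κ (Φ.x₀ w)))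
    (hp : f ^ p - f ∈ Φ.aff x) : ∃ a ∈ Φ.aff x, ∀ w, ∃ c, (f - a) w = algebraMap κ _ c := by
  obtain ⟨n, hn⟩ := Φ.nil p hx h
  obtain ⟨a, ha, ha'⟩ := hn f
  have h1 : ∀ m : ℕ, f ^ p ^ m - f ∈ Φ.aff x := by
    intro m
    induction m with
    | zero => simp
    | succ m ih =>
      have h2 : f ^ p ^ (m + 1) - f = (f ^ p - f) ^ p ^ m + (f ^ p ^ m - f) := funext fun w => by
        have : CharP (Φ.L₀ w) p := charP_of_injective_algebraMap (algebraMap κ (Φ.L₀ w)).injective p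
        simp only [Pi.sub_apply, Pi.add_apply, Pi.pow_apply, sub_pow_char_pow, ← pow_mul,
          ← pow_succ', sub_add_sub_cancel]
      rw [h2]
      exact add_mem (pow_mem hp _) ih
  have h2 := sub_mem ha (h1 n)
  refine ⟨_, h2, fun w => const_of_regular fun P => ?_⟩
  by_cases h3 : P ∈ poles κ (Φ.x₀ w)
  · have h4 := ha' w P (not_not.2 h3)
    rwa [show f - (a - (f ^ p ^ n - f)) = f ^ p ^ n - a by ring]
  · exact sub_mem (hf w P h3) (Φ.aff_le hx h2 w P h3)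

theorem Conn_delta (h : HW0 (HF κ) L p) {T : Set (Σ w, Place κ (Φ.L₀ w))} (hT : T.Finite)
    (C : (Σ w, Place κ (Φ.L₀ w)) → κ) (hC : ∀ Q, C Q ^ p = C Q) :
    ∃ a ∈ Φ.aff x, ∃ m : Fin Φ.s → κ, ∀ Q : Φ.Pl, Q.1 ∈ T →
      C Q.1 = Q.1.2.val (a Q.1.1) + m Q.1.1 := by
  classical
  obtain ⟨s, hs, hc⟩ := Φ.exists_cond hx
  have h0 : ∀ w, Polynomial.aeval (Φ.x₀ w) s ≠ 0 := fun w h => Φ.trans w ⟨s, hs.ne_zero, h⟩
  have h1 : ∀ w, ∃ f : Φ.L₀ w, ∀ P : Place κ (Φ.L₀ w), Φ.x₀ w ∈ P.1 →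
      P.Ge (f - algebraMap κ _ (C ⟨w, P⟩))
        (max (P.ord (Polynomial.aeval (Φ.x₀ w) s)) (if ⟨w, P⟩ ∈ T then 1 else 0)) := fun w => by
    refine Conn_strong (Φ.trans w) _ (((finite_ord (K := κ) (h0 w)).union
      (hT.preimage (f := Sigma.mk w) sigma_mk_injective.injOn)).subset fun P hP => ?_) _
    by_contra h2
    simp only [Set.mem_union, Set.mem_ofPred_eq, Set.mem_preimage, not_or, not_not] at h2
    exact hP (by simp only [h2.1, if_neg h2.2, max_self])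
  choose f hf using h1
  have h2 : ∀ w, f w ∈ regOut (poles κ (Φ.x₀ w)) := fun w P hP => by
    have h3 := add_mem (P.mem_iff.2 ((hf w P (not_not.1 hP)).mono
      (le_max_of_le_right (by split_ifs <;> norm_num)))) (P.2.2 (C ⟨w, P⟩))
    rwa [sub_add_cancel] at h3
  have h3 := hc (fun w => (f w ^ p - f w) * (Polynomial.aeval (Φ.x₀ w) s)⁻¹) fun w P hP => by
    have : CharP (Φ.L₀ w) p := charP_of_injective_algebraMap (algebraMap κ (Φ.L₀ w)).injective p
    have h4 := (hf w P (not_not.1 hP)).mono (le_max_left _ _)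
    have h5 := Conn_ord_nonneg (h0 w) (Conn_val_aeval (not_not.1 hP) s).1
    have h6 := ((h4.pow p).mono (le_mul_of_one_le_left h5
      (by exact_mod_cast (Fact.out : p.Prime).one_lt.le))).sub h4
    rw [sub_pow_char, ← map_pow, hC, sub_sub_sub_cancel_right] at h6
    have h7 := rr_ge_div (h0 w) h6
    rw [sub_self] at h7
    exact P.mem_iff.2 h7
  have h4 : f ^ p - f ∈ Φ.aff x := by
    convert h3 using 1
    funext w
    rw [mul_comm, inv_mul_cancel_right₀ (h0 w)]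
    rfl
  obtain ⟨a, ha, h5⟩ := Φ.tree p hx h h2 h4
  choose m hm using h5
  refine ⟨a, ha, m, fun Q hQ => ?_⟩
  have h6 := (hf Q.1.1 Q.1.2 Q.2).mono (le_max_of_le_right (if_pos hQ).ge)
  rw [← Place.val_eq h6, ← Place.val_const (P := Q.1.2) (m Q.1.1),
    ← Place.val_add (Φ.aff_le hx ha _ _ (not_not.2 Q.2)) (Q.1.2.2.2 _), ← hm, Pi.sub_apply,
    add_sub_cancel]

/-- If `P i` and the places in `S i` are glued, the `P i` being pairwise not glued, then
`∑ # (S i) ≤ s - 1`. -/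
theorem card_glue (h : HW0 (HF κ) L p) {α : Type} [Fintype α] (P : α → Φ.Pl) (S : α → Finset Φ.Pl)
    (hP : ∀ i j, Φ.Glued (P i) (P j) → i = j) (hS : ∀ i, ∀ Q ∈ S i, Q ≠ P i ∧ Φ.Glued (P i) Q) :
    ∑ i, (S i).card + 1 ≤ Φ.s := by
  classical
  let ψ : (Fin Φ.s → κ) →ₗ[κ] ((Σ i, S i) → κ) :=
    LinearMap.funLeft κ κ (fun Q => Q.2.1.1.1) - LinearMap.funLeft κ κ fun Q => (P Q.1).1.1
  have hψ : ∀ m Q, ψ m Q = m Q.2.1.1.1 - m (P Q.1).1.1 := fun _ _ => rfl
  have hT : ((Set.range fun Q : Σ i, S i => Q.2.1.1) ∪ Set.range fun i => (P i).1).Finite :=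
    (Set.finite_range _).union (Set.finite_range _)
  have hu : ∀ i j, ∀ Q ∈ S i, Φ.Glued (P j) Q → j = i := fun i j Q hQ h' =>
    hP j i fun f hf => (h' f hf).trans ((hS i Q hQ).2 f hf).symm
  have h1 : LinearMap.range ψ = ⊤ := by
    rw [eq_top_iff, ← (Pi.basisFun κ (Σ i, S i)).span_eq, Submodule.span_le]
    rintro _ ⟨Q₀, rfl⟩
    obtain ⟨a, ha, m, hm⟩ := Φ.Conn_delta p hx h hT (fun Q => if Q = Q₀.2.1.1 then 1 else 0)
      fun Q => by
        split_ifs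
        · exact one_pow p
        · exact zero_pow (Fact.out : p.Prime).ne_zero
    refine ⟨m, funext fun Q => ?_⟩
    have h2 := hm Q.2.1 (Or.inl ⟨Q, rfl⟩)
    have h3 := hm (P Q.1) (Or.inr ⟨Q.1, rfl⟩)
    rw [if_neg, (hS Q.1 Q.2.1 Q.2.2).2 a ha] at h3
    · rw [hψ, Pi.basisFun_apply, Pi.single_apply]
      have h4 : Q.2.1.1 = Q₀.2.1.1 ↔ Q = Q₀ := by
        refine ⟨fun h5 => ?_, fun h5 => by rw [h5]⟩
        obtain ⟨i, Q, hQ⟩ := Q
        obtain ⟨j, Q₀, hQ₀⟩ := Q₀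
        obtain rfl : Q = Q₀ := Subtype.ext h5
        obtain rfl := hu i j Q hQ (hS j Q hQ₀).2
        rfl
      simp only [h4] at h2
      linear_combination h3 - h2
    · intro h4
      have h5 : P Q.1 = Q₀.2.1 := Subtype.ext h4
      have h6 := hu Q₀.1 Q.1 Q₀.2.1 Q₀.2.2 fun f _ => by rw [h5]
      exact (hS Q₀.1 Q₀.2.1 Q₀.2.2).1 (by rw [← h5, h6])
  have h2 := ψ.finrank_range_add_finrank_ker
  have h3 : 0 < Module.finrank κ (LinearMap.ker ψ) := by
    refine Module.finrank_pos_iff_exists_ne_zero.2 ⟨⟨fun _ => 1, funext fun Q => sub_self _⟩, ?_⟩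
    exact fun h4 => one_ne_zero (congrFun (congrArg Subtype.val h4) ⟨0, Φ.s_pos hx⟩)
  rw [h1, finrank_top, Module.finrank_fintype_fun_eq_card, Module.finrank_fintype_fun_eq_card,
    Fintype.card_sigma, Fintype.card_fin] at h2
  simp only [Fintype.card_coe] at h2
  omega

end Floors

end PR0
end
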