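import Pool.Agent.Work.MP_da2620_ag.Comb
import Pool.Agent.Work.MP_da2620_ag.ZDefs

/-!
# Weierstrass function fields and curves of genus one

The equation is irreducible (`WeierstrassCurve.Affine.irreducible_polynomial`).  At a pole of `X`,
`2 ord Y = 3 ord X`, and `dg_dvInf` gives degree `2`, so there is one pole, of order `2`.  If `Δ ≠ 0`, every
maximal ideal of `K[X, Y]` is locally principal (one of the two derivatives is nonzero at the point;
`WeierstrassCurve.Affine.equation_iff_nonsingular`-type lemmas), so this ring is integrally closed;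
`ell (n ∞) = n` gives the genus.  `H¹ = E / (K[X,Y] + O_∞)` (`genus_eq`, `hw0_iff`) is spanned by the class
of `Y / X` computed with `S = {∞}`?  Caution: `Y / X` has poles at the zeros of `X`; this is fine, since
`E / (regOut S + regOut Sᶜ)` allows any function, and `Y / X` has a simple pole at `∞`, which is the gap.
For `p` odd and `Y² = f(X)`: `(Y / X) ^ p = Y f ^ m / X ^ p`, and `Y X ^ j` is in `K[X,Y]` for `j ≥ 0`, regular at
`∞` for `j ≤ -2`.  For `p = 2` and `Y² + a₁ X Y + a₃ Y = ...`: `(Y / X)² ≡ a₁ Y / X`.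
`exists_wei`: `ell (n b) = n`; take `X` with pole order `2`, `Y` with pole order `3`; seven functions in
`Lsp (6 b)`; rescale; if `Δ = 0` the slope function at the singular point has degree one, so genus `0`.
-/

namespace PR0

universe u

variable {K E : Type u} [Field K] [Field E] [Algebra K E]

/-- `E` is the function field of the Weierstrass cubic `W` with coordinates `X, Y`. -/
structure IsWei (W : WeierstrassCurve K) (X Y : E) : Prop where
  trans : Transcendental K X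
  eqn : Y ^ 2 + W.a₁ • X * Y + W.a₃ • Y = X ^ 3 + W.a₂ • X ^ 2 + W.a₄ • X + algebraMap K E W.a₆
  gen : IntermediateField.adjoin K {X, Y} = ⊤

section Aux

open Polynomial hiding X
open WeierstrassCurve.Affine IntermediateField

variable {W : WeierstrassCurve K} {X Y : E}

theorem Wei_indep (ht : Transcendental K X)
    (he : Y ^ 2 + W.a₁ • X * Y + W.a₃ • Y = X ^ 3 + W.a₂ • X ^ 2 + W.a₄ • X + algebraMap K E W.a₆)
    {A B : K[X]} (h : aeval X A + aeval X B * Y = 0) : A = 0 ∧ B = 0 := by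
  have h1 : A ^ 2 - A * B * (C W.a₁ * Polynomial.X + C W.a₃) - B ^ 2 * (Polynomial.X ^ 3 +
      C W.a₂ * Polynomial.X ^ 2 + C W.a₄ * Polynomial.X + C W.a₆) = 0 := by
    refine _root_.transcendental_iff.1 ht _ ?_
    simp only [map_sub, map_mul, map_pow, map_add, aeval_C, aeval_X]
    simp only [Algebra.smul_def] at he
    linear_combination (aeval X A - aeval X B * (Y + algebraMap K E W.a₁ * X +
      algebraMap K E W.a₃)) * h + aeval X B ^ 2 * he
  have h2 := CoordinateRing.degree_norm_smul_basis (W' := W.toAffine) A B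
  rw [CoordinateRing.norm_smul_basis, h1, degree_zero, eq_comm, max_eq_bot, two_nsmul, two_nsmul,
    WithBot.add_eq_bot, WithBot.add_eq_bot, WithBot.add_eq_bot, or_self, or_self, degree_eq_bot,
    degree_eq_bot] at h2
  exact ⟨h2.1, h2.2.resolve_right (by decide)⟩

theorem Wei_aeval {S : Subalgebra K E} (hX : X ∈ S) (A : K[X]) : aeval X A ∈ S :=
  Algebra.adjoin_le (Set.singleton_subset_iff.2 hX) (aeval_mem_adjoin_singleton K X)

theorem Wei_X (X Y : E) : X ∈ Algebra.adjoin K {X, Y} := Algebra.subset_adjoin (by simp)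

theorem Wei_Y (X Y : E) : Y ∈ Algebra.adjoin K {X, Y} := Algebra.subset_adjoin (by simp)

theorem IsWei.Wei_mem (h : IsWei W X Y) {r : E} :
    r ∈ Algebra.adjoin K {X, Y} ↔ ∃ A B : K[X], r = aeval X A + aeval X B * Y := by
  constructor
  · intro hr
    induction hr using Algebra.adjoin_induction with
    | mem x hx =>
      rcases hx with rfl | rfl
      · exact ⟨Polynomial.X, 0, by simp⟩
      · exact ⟨0, 1, by simp⟩
    | algebraMap c => exact ⟨C c, 0, by simp⟩
    | add x y _ _ hx hy =>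
      obtain ⟨A, B, rfl⟩ := hx
      obtain ⟨A', B', rfl⟩ := hy
      exact ⟨A + A', B + B', by simp only [map_add]; ring⟩
    | mul x y _ _ hx hy =>
      obtain ⟨A, B, rfl⟩ := hx
      obtain ⟨A', B', rfl⟩ := hy
      refine ⟨A * A' + B * B' * (Polynomial.X ^ 3 + C W.a₂ * Polynomial.X ^ 2 +
        C W.a₄ * Polynomial.X + C W.a₆),
        A * B' + A' * B - B * B' * (C W.a₁ * Polynomial.X + C W.a₃), ?_⟩
      have he := h.eqn
      simp only [Algebra.smul_def] at he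
      simp only [map_sub, map_mul, map_pow, map_add, aeval_C, aeval_X]
      linear_combination aeval X B * aeval X B' * he
  · rintro ⟨A, B, rfl⟩
    exact add_mem (Wei_aeval (Wei_X X Y) A) (mul_mem (Wei_aeval (Wei_X X Y) B) (Wei_Y X Y))

theorem IsWei.Wei_frac (h : IsWei W X Y) (f : E) :
    ∃ r ∈ Algebra.adjoin K {X, Y}, ∃ s ∈ Algebra.adjoin K {X, Y}, f = r / s :=
  mem_adjoin_iff_div.1 (h.gen ▸ mem_top)

theorem IsWei.Wei_den (h : IsWei W X Y) (f : E) :
    ∃ S : K[X], S ≠ 0 ∧ aeval X S * f ∈ Algebra.adjoin K {X, Y} := by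
  obtain ⟨r, hr, s, hs, rfl⟩ := h.Wei_frac f
  by_cases h0 : s = 0
  · exact ⟨1, one_ne_zero, by simp [h0]⟩
  obtain ⟨A, B, rfl⟩ := h.Wei_mem.1 hs
  have he := h.eqn
  simp only [Algebra.smul_def] at he
  have h1 : aeval X (A ^ 2 - A * B * (C W.a₁ * Polynomial.X + C W.a₃) - B ^ 2 * (Polynomial.X ^ 3 +
      C W.a₂ * Polynomial.X ^ 2 + C W.a₄ * Polynomial.X + C W.a₆)) =
      (aeval X A + aeval X B * Y) * (aeval X (A - B * (C W.a₁ * Polynomial.X + C W.a₃)) +
        aeval X (-B) * Y) := by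
    simp only [map_sub, map_mul, map_pow, map_add, map_neg, aeval_C, aeval_X]
    linear_combination aeval X B ^ 2 * he
  generalize A ^ 2 - A * B * (C W.a₁ * Polynomial.X + C W.a₃) - B ^ 2 * (Polynomial.X ^ 3 +
      C W.a₂ * Polynomial.X ^ 2 + C W.a₄ * Polynomial.X + C W.a₆) = N at h1
  refine ⟨N, fun h2 => ?_, ?_⟩
  · rw [h2, map_zero] at h1
    obtain ⟨h3, h4⟩ := Wei_indep h.trans h.eqn ((mul_eq_zero.1 h1.symm).resolve_left h0)
    rw [neg_eq_zero] at h4
    rw [h4, zero_mul, sub_zero] at h3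
    exact h0 (by simp [h3, h4])
  · rw [h1, mul_right_comm, mul_div_cancel₀ _ h0]
    exact mul_mem hr (h.Wei_mem.2 ⟨_, _, rfl⟩)

theorem Wei_rank (ht : Transcendental K X)
    (he : Y ^ 2 + W.a₁ • X * Y + W.a₃ • Y = X ^ 3 + W.a₂ • X ^ 2 + W.a₄ • X + algebraMap K E W.a₆) :
    IsIntegral K⟮X⟯ Y ∧ Module.finrank K⟮X⟯ K⟮X⟯⟮Y⟯ = 2 := by
  let x : K⟮X⟯ := AdjoinSimple.gen K X
  let q : K⟮X⟯[X] := Polynomial.X ^ 2 + C (W.a₁ • x + algebraMap K _ W.a₃) * Polynomial.X -
    C (x ^ 3 + W.a₂ • x ^ 2 + W.a₄ • x + algebraMap K _ W.a₆)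
  have hq : q.Monic := by
    unfold q
    monicity!
  have hd : q.natDegree ≤ 2 := by
    unfold q
    compute_degree
  have h0 : aeval Y q = 0 := by
    simp only [Algebra.smul_def] at he
    simp only [q, x, Algebra.smul_def, map_sub, map_mul, map_pow, map_add, aeval_C, aeval_X,
      AdjoinSimple.algebraMap_gen, ← IsScalarTower.algebraMap_apply]
    linear_combination he
  have hi : IsIntegral K⟮X⟯ Y := ⟨q, hq, h0⟩
  refine ⟨hi, ?_⟩
  rw [adjoin.finrank hi]
  refine le_antisymm ((natDegree_le_natDegree (minpoly.min _ _ hq h0)).trans hd) ?_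
  rw [minpoly.two_le_natDegree_iff hi]
  rintro ⟨z, hz⟩
  obtain ⟨r, s, hrs⟩ := (mem_adjoin_simple_iff K _).1 z.2
  have h1 : Y = aeval X r / aeval X s := hz.symm.trans hrs
  by_cases hs : aeval X s = 0
  · rw [hs, div_zero] at h1
    exact one_ne_zero (Wei_indep ht he (A := 0) (B := 1) (by simp [h1])).2
  · refine hs ?_
    rw [(Wei_indep ht he (A := -r) (B := s) (by rw [h1, map_neg]; field_simp; ring)).2, map_zero]

theorem IsWei.Wei_top (h : IsWei W X Y) : K⟮X⟯⟮Y⟯ = ⊤ := by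
  rw [← restrictScalars_eq_top_iff (K := K), adjoin_simple_adjoin_simple, h.gen]

theorem IsWei.Wei_finrank (h : IsWei W X Y) : Module.finrank K⟮X⟯ E = 2 := by
  rw [← finrank_top', ← h.Wei_top, (Wei_rank h.trans h.eqn).2]

theorem IsWei.Wei_ff (h : IsWei W X Y) : IsFF K E :=
  ⟨X, h.trans, Module.finite_of_finrank_pos (by rw [h.Wei_finrank]; norm_num)⟩

/-- The map from the coordinate ring attached to a point. -/
noncomputable def Wei_lift {K' E' : Type u} [Field K'] [Field E'] [Algebra K' E'] (φ : K →+* K')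
    {X' Y' : E'} (h' : IsWei (W.map φ) X' Y') : W.toAffine.CoordinateRing →+* E' :=
  AdjoinRoot.lift (eval₂RingHom ((algebraMap K' E').comp φ) X') Y' (by
    have he := h'.eqn
    simp only [Algebra.smul_def, WeierstrassCurve.map_a₁, WeierstrassCurve.map_a₂,
      WeierstrassCurve.map_a₃, WeierstrassCurve.map_a₄, WeierstrassCurve.map_a₆] at he
    simp only [polynomial, eval₂_sub, eval₂_add, eval₂_mul, eval₂_pow, eval₂_X, eval₂_C,
      coe_eval₂RingHom, RingHom.comp_apply]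
    linear_combination he)

section
variable {K' E' : Type u} [Field K'] [Field E'] [Algebra K' E'] (φ : K →+* K')
    {X' Y' : E'} (h' : IsWei (W.map φ) X' Y')

theorem Wei_lift_C (A : K[X]) :
    Wei_lift φ h' (CoordinateRing.mk W.toAffine (C A)) = aeval X' (A.map φ) := by
  rw [Wei_lift, AdjoinRoot.lift_mk, eval₂_C, coe_eval₂RingHom, aeval_def, eval₂_map]

theorem Wei_lift_Y : Wei_lift φ h' (CoordinateRing.mk W.toAffine Polynomial.X) = Y' := by
  rw [Wei_lift, AdjoinRoot.lift_mk, eval₂_X]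

theorem Wei_lift_inj : Function.Injective (Wei_lift φ h') := by
  refine (injective_iff_map_eq_zero _).2 fun z hz => ?_
  obtain ⟨p, q, rfl⟩ := CoordinateRing.exists_smul_basis_eq z
  rw [CoordinateRing.smul, CoordinateRing.smul, mul_one, map_add, map_mul, Wei_lift_C, Wei_lift_C,
    Wei_lift_Y] at hz
  obtain ⟨h1, h2⟩ := Wei_indep h'.trans h'.eqn hz
  rw [Polynomial.map_eq_zero] at h1 h2
  simp [h1, h2]

end

end Aux

theorem exists_isWei (W : WeierstrassCurve K) : ∃ (E : FFd K) (X Y : E.L), IsWei W X Y := by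
  let R := W.toAffine.CoordinateRing
  let L := W.toAffine.FunctionField
  let μ : Polynomial (Polynomial K) →+* L :=
    (algebraMap R L).comp (WeierstrassCurve.Affine.CoordinateRing.mk W.toAffine)
  have h1 : ∀ A : Polynomial K,
      Polynomial.aeval (μ (Polynomial.C Polynomial.X)) A = μ (Polynomial.C A) := by
    intro A
    induction A using Polynomial.induction_on' with
    | add p q hp hq => simp only [map_add, hp, hq]
    | monomial n a =>
      rw [← Polynomial.C_mul_X_pow_eq_monomial]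
      simp only [map_mul, map_pow, Polynomial.aeval_C, Polynomial.aeval_X]
      rfl
  have h : IsWei W (μ (Polynomial.C Polynomial.X)) (μ Polynomial.X) := by
    refine ⟨_root_.transcendental_iff.2 fun A hA => ?_, ?_, ?_⟩
    · rw [h1] at hA
      have h2 : WeierstrassCurve.Affine.CoordinateRing.mk W.toAffine (Polynomial.C A) = 0 :=
        (FaithfulSMul.algebraMap_eq_zero_iff (R := R) (A := L)).1 hA
      refine (WeierstrassCurve.Affine.CoordinateRing.smul_basis_eq_zero (W' := W.toAffine)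
        (q := 0) ?_).1
      rw [WeierstrassCurve.Affine.CoordinateRing.smul, h2, zero_mul, zero_smul, add_zero]
    · have h2 : μ W.toAffine.polynomial = 0 := by
        rw [RingHom.comp_apply, WeierstrassCurve.Affine.CoordinateRing.mk, AdjoinRoot.mk_self,
          map_zero]
      simp only [WeierstrassCurve.Affine.polynomial, map_sub μ, map_add μ, map_mul μ,
        map_pow μ] at h2
      rw [← h1, ← h1 (_ + _)] at h2
      simp only [map_add, map_mul, map_pow, Polynomial.aeval_C, Polynomial.aeval_X] at h2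
      simp only [Algebra.smul_def]
      linear_combination h2
    · have h2 : ∀ z : R, algebraMap R L z ∈
          Algebra.adjoin K {μ (Polynomial.C Polynomial.X), μ Polynomial.X} := by
        intro z
        obtain ⟨p, q, rfl⟩ := WeierstrassCurve.Affine.CoordinateRing.exists_smul_basis_eq z
        rw [WeierstrassCurve.Affine.CoordinateRing.smul, WeierstrassCurve.Affine.CoordinateRing.smul,
          mul_one, map_add, map_mul]
        exact add_mem ((h1 p) ▸ Wei_aeval (Wei_X _ _) p)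
          (mul_mem ((h1 q) ▸ Wei_aeval (Wei_X _ _) q) (Wei_Y _ _))
      refine eq_top_iff.2 fun f _ => ?_
      obtain ⟨a, b, -, rfl⟩ := IsFractionRing.div_surjective (A := R) f
      exact IntermediateField.mem_adjoin_iff_div.2 ⟨_, h2 a, _, h2 b, rfl⟩
  exact ⟨@FFd.mk K _ L _ _ ⟨h.Wei_ff⟩, _, _, h⟩

/-- the universal property -/
theorem IsWei.exists_hom {W : WeierstrassCurve K} {X Y : E} (h : IsWei W X Y) {K' E' : Type u}
    [Field K'] [Field E'] [Algebra K' E'] (φ : K →+* K') {X' Y' : E'} (h' : IsWei (W.map φ) X' Y') :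
    ∃ ψ : E →+* E', BC φ ψ ∧ ψ X = X' ∧ ψ Y = Y' := by
  have h₀ : IsWei (W.map (RingHom.id K)) X Y := by rwa [WeierstrassCurve.map_id]
  let := (Wei_lift _ h₀).toAlgebra
  have : FaithfulSMul W.toAffine.CoordinateRing E :=
    (faithfulSMul_iff_algebraMap_injective _ _).2 (Wei_lift_inj _ h₀)
  have h1 : ∀ r ∈ Algebra.adjoin K {X, Y}, ∃ z, Wei_lift _ h₀ z = r := by
    intro r hr
    obtain ⟨A, B, rfl⟩ := h.Wei_mem.1 hr
    refine ⟨WeierstrassCurve.Affine.CoordinateRing.mk _ (Polynomial.C A) +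
      WeierstrassCurve.Affine.CoordinateRing.mk _ (Polynomial.C B) *
        WeierstrassCurve.Affine.CoordinateRing.mk _ Polynomial.X, ?_⟩
    rw [map_add, map_mul, Wei_lift_C, Wei_lift_C, Wei_lift_Y, Polynomial.map_id, Polynomial.map_id]
  have : IsFractionRing W.toAffine.CoordinateRing E := IsFractionRing.of_field _ _ fun f => by
    obtain ⟨r, hr, s, hs, rfl⟩ := h.Wei_frac f
    obtain ⟨a, rfl⟩ := h1 r hr
    obtain ⟨b, rfl⟩ := h1 s hs
    exact ⟨a, b, rfl⟩
  let ψ : E →+* E' := IsFractionRing.lift (Wei_lift_inj φ h')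
  have h2 : ∀ z, ψ (Wei_lift _ h₀ z) = Wei_lift φ h' z :=
    IsFractionRing.lift_algebraMap (Wei_lift_inj φ h')
  have hX : ψ X = X' := by
    have := h2 (WeierstrassCurve.Affine.CoordinateRing.mk _ (Polynomial.C Polynomial.X))
    rwa [Wei_lift_C, Wei_lift_C, Polynomial.map_X, Polynomial.map_X, Polynomial.aeval_X,
      Polynomial.aeval_X] at this
  have hY : ψ Y = Y' := by
    have := h2 (WeierstrassCurve.Affine.CoordinateRing.mk _ Polynomial.X)
    rwa [Wei_lift_Y, Wei_lift_Y] at this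
  refine ⟨ψ, ⟨fun c => ?_, fun f => ?_⟩, hX, hY⟩
  · have := h2 (WeierstrassCurve.Affine.CoordinateRing.mk _ (Polynomial.C (Polynomial.C c)))
    rwa [Wei_lift_C, Wei_lift_C, Polynomial.map_C, Polynomial.map_C, Polynomial.aeval_C,
      Polynomial.aeval_C] at this
  · have hf : f ∈ IntermediateField.adjoin K' {X', Y'} := by
      rw [h'.gen]
      exact IntermediateField.mem_top
    refine IntermediateField.adjoin_le_subfield K' {X', Y'} ?_ ?_ hf
    · exact fun _ hx => Subfield.subset_closure (Or.inr hx)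
    · rintro _ (rfl | rfl)
      exacts [Subfield.subset_closure (Or.inl ⟨X, hX⟩), Subfield.subset_closure (Or.inl ⟨Y, hY⟩)]

theorem IsWei.ker {W : WeierstrassCurve K} {X Y : E} (h : IsWei W X Y) (F : Polynomial (Polynomial K)) :
    Polynomial.aeval Y (F.map (Polynomial.aeval X : Polynomial K →ₐ[K] E).toRingHom) = 0 ↔
      W.toAffine.polynomial ∣ F := by
  have h₀ : IsWei (W.map (RingHom.id K)) X Y := by rwa [WeierstrassCurve.map_id]
  rw [← AdjoinRoot.mk_eq_zero, ← map_eq_zero_iff _ (Wei_lift_inj _ h₀), Wei_lift,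
    AdjoinRoot.lift_mk, Polynomial.coe_aeval_eq_eval, Polynomial.eval_map]
  rfl

variable [IsAlgClosed K] [Fact (IsFF K E)] {W : WeierstrassCurve K} {X Y : E}

section Aux2

open Polynomial hiding X

theorem Wei_c (P : Place K E) (c : K) : P.Ge (algebraMap K E c) 0 := P.mem_iff.1 (P.2.2 c)

omit [IsAlgClosed K] [Fact (IsFF K E)] in
theorem Wei_ge {P : Place K E} {f : E} {n : ℤ} (h : P.ord f = n) : P.Ge f n := Or.inr h.ge

omit [IsAlgClosed K] [Fact (IsFF K E)] in
theorem Wei_smul (P : Place K E) (c : K) {f : E} (h : f ∈ P.1) : c • f ∈ P.1 := by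
  rw [Algebra.smul_def]
  exact mul_mem (P.2.2 c) h

theorem Wei_pole {P : Place K E} {f : E} : f ∉ P.1 ↔ f ≠ 0 ∧ P.ord f < 0 := by
  rw [P.mem_iff, Place.Ge, not_or, not_le]

theorem Wei_ord_smul (P : Place K E) {c : K} (hc : c ≠ 0) {f : E} (hf : f ≠ 0) :
    P.ord (c • f) = P.ord f := by
  rw [Algebra.smul_def, P.ord_mul ((_root_.map_ne_zero _).2 hc) hf, P.ord_const hc, zero_add]

theorem Wei_ord_aeval {P : Place K E} (hX : X ≠ 0) (h : P.ord X < 0) (n : ℕ) :
    ∀ A : K[X], A ≠ 0 → A.natDegree = n → aeval X A ≠ 0 ∧ P.ord (aeval X A) = n * P.ord X := by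
  induction n with
  | zero =>
    intro A hA hn
    rw [eq_C_of_natDegree_eq_zero hn] at hA ⊢
    have h1 := C_ne_zero.1 hA
    rw [aeval_C, P.ord_const h1]
    exact ⟨(_root_.map_ne_zero _).2 h1, by simp⟩
  | succ n ih =>
    intro A hA hn
    have h1 : A.divX.natDegree = n := by rw [natDegree_divX_eq_natDegree_tsub_one, hn]; rfl
    have h2 : A.divX ≠ 0 := fun h0 => by
      rw [divX_eq_zero_iff.1 h0, natDegree_C] at hn
      omega
    obtain ⟨h3, h4⟩ := ih _ h2 h1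
    have h5 := P.ord_mul h3 hX
    have h6 := Place.ord_add_of_lt (P := P) (mul_ne_zero h3 hX)
      ((Wei_c P (A.coeff 0)).mono (by rw [h5, h4]; nlinarith))
    rw [← divX_mul_X_add A, map_add, map_mul, aeval_X, aeval_C]
    exact ⟨h6.1, by rw [h6.2, h5, h4]; push_cast; ring⟩

theorem Wei_red {P : Place K E} {f r : E} {n : ℤ} (hf : P.Ge f n) (hr : r ≠ 0) (h : P.ord r = n) :
    ∃ c : K, P.Ge (f - c • r) (n + 1) := by
  have h1 := rr_ge_div hr hf
  rw [h, sub_self] at h1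
  refine ⟨P.val (f * r⁻¹), ?_⟩
  have h2 := (Place.ge_sub_val (P.mem_iff.2 h1)).mul (Wei_ge h)
  rwa [sub_mul, inv_mul_cancel_right₀ hr, ← Algebra.smul_def, add_comm] at h2

theorem Wei_zero {b : Place K E} {g : E} (h : g ∈ regOut {b}) (h1 : b.Ge g 1) : g = 0 := by
  obtain ⟨c, rfl⟩ : ∃ c, g = algebraMap K E c := const_of_regular fun P => by
    by_cases hP : P = b
    · exact hP ▸ b.mem_iff.2 (h1.mono zero_le_one)
    · exact h P hP
  by_contra h0
  have := h1.resolve_left h0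
  rw [b.ord_const ((_root_.map_ne_zero _).1 h0)] at this
  omega

theorem Wei_lsp {b : Place K E} {g : E} {n : ℤ} :
    g ∈ Lsp (Finsupp.single b n) ↔ g ∈ regOut {b} ∧ b.Ge g (-n) := by
  constructor
  · intro h
    refine ⟨fun P hP => P.mem_iff.2 ?_, by simpa using h b⟩
    have := h P
    rwa [Finsupp.single_eq_of_ne hP, neg_zero] at this
  · rintro ⟨h1, h2⟩ P
    by_cases hP : P = b
    · subst hP
      simpa using h2
    · rw [Finsupp.single_eq_of_ne hP, neg_zero]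
      exact P.mem_iff.1 (h1 P hP)

theorem Wei_const (hg : genus K E ≠ 0) {b : Place K E} {g : E} (h : g ∈ regOut {b})
    (h1 : b.Ge g (-1)) : ∃ c, g = algebraMap K E c := by
  have h2 : Lsp (0 : Dv K E) = Lsp (Finsupp.single b 1) :=
    Submodule.eq_of_le_of_finrank_eq (rr_Lsp_mono (by simp))
      (ell_zero.trans (ell_single hg b).symm)
  have h3 := Wei_lsp.2 ⟨h, h1⟩
  rw [← h2, rr_Lsp_zero, Submodule.mem_span_singleton] at h3
  obtain ⟨c, rfl⟩ := h3
  exact ⟨c, (Algebra.algebraMap_eq_smul_one c).symm⟩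

theorem IsWei.Wei_ord (h : IsWei W X Y) {P : Place K E} (hP : X ∉ P.1) :
    Y ≠ 0 ∧ 2 * P.ord Y = 3 * P.ord X := by
  obtain ⟨hX, h0⟩ := Wei_pole.1 hP
  have hY : Y ≠ 0 := fun h1 =>
    one_ne_zero (Wei_indep h.trans h.eqn (A := 0) (B := 1) (by simp [h1])).2
  refine ⟨hY, ?_⟩
  have gX : P.Ge X (P.ord X) := Wei_ge rfl
  have h3 := P.ord_pow hX 3
  have h1 := Place.ord_add_of_lt (P := P) (pow_ne_zero 3 hX)
    (g := W.a₂ • X ^ 2 + W.a₄ • X + algebraMap K E W.a₆)
    ((((gX.pow 2).smul _).mono (by rw [h3]; push_cast; omega)).add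
      ((gX.smul _).mono (by rw [h3]; push_cast; omega)) |>.add
      ((Wei_c P _).mono (by rw [h3]; push_cast; omega)))
  have h2 : X ^ 3 + (W.a₂ • X ^ 2 + W.a₄ • X + algebraMap K E W.a₆) =
      Y * (Y + (W.a₁ • X + algebraMap K E W.a₃)) := by
    have he := h.eqn
    simp only [Algebra.smul_def] at he ⊢
    linear_combination -he
  have h4 : P.Ge (W.a₁ • X + algebraMap K E W.a₃) (P.ord X) :=
    (gX.smul _).add ((Wei_c P _).mono h0.le)
  rw [h2, h3] at h1
  by_cases h5 : P.ord X ≤ P.ord Y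
  · have h6 := ((Place.Ge.mul (Or.inr h5) (Place.Ge.add (Or.inr h5) h4)).resolve_left h1.1).trans_eq
      h1.2
    push_cast at h6
    omega
  · have h6 := Place.ord_add_of_lt hY (h4.mono (by omega))
    rw [P.ord_mul hY h6.1, h6.2] at h1
    have := h1.2
    push_cast at this
    omega

theorem IsWei.Wei_reg (h : IsWei W X Y) {P : Place K E} (hP : X ∈ P.1) : Y ∈ P.1 := by
  by_contra hY
  obtain ⟨hY, h0⟩ := Wei_pole.1 hY
  have h4 : P.Ge (W.a₁ • X + algebraMap K E W.a₃) 0 :=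
    P.mem_iff.1 (add_mem (Wei_smul P _ hP) (P.2.2 _))
  have h6 := Place.ord_add_of_lt hY (h4.mono (by omega))
  have h2 : Y * (Y + (W.a₁ • X + algebraMap K E W.a₃)) =
      X ^ 3 + W.a₂ • X ^ 2 + W.a₄ • X + algebraMap K E W.a₆ := by
    have he := h.eqn
    simp only [Algebra.smul_def] at he ⊢
    linear_combination he
  refine Wei_pole.2 ⟨mul_ne_zero hY h6.1, by rw [P.ord_mul hY h6.1, h6.2]; omega⟩ ?_
  rw [h2]
  exact add_mem (add_mem (add_mem (pow_mem hP 3) (Wei_smul P _ (pow_mem hP 2))) (Wei_smul P _ hP))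
    (P.2.2 _)

end Aux2

theorem IsWei.exists_inf (h : IsWei W X Y) : ∃ b : Place K E, poles K X = {b} ∧ X ≠ 0 ∧ Y ≠ 0 ∧
    b.ord X = -2 ∧ b.ord Y = -3 := by
  have h1 := dg_dvInf h.trans
  rw [h.Wei_finrank] at h1
  obtain ⟨b, hb⟩ : ∃ b : Place K E, X ∉ b.1 := by
    by_contra h0
    push Not at h0
    obtain ⟨c, hc⟩ := const_of_regular h0
    exact transcendental_iff.1 h.trans ⟨c, hc.symm⟩
  have hX := (Wei_pole.1 hb).1
  have h2 : ∀ P : Place K E, X ∉ P.1 → P.ord X ≤ -2 := fun P hP => by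
    have := (h.Wei_ord hP).2
    have := (Wei_pole.1 hP).2
    omega
  have h3 : -b.ord X ≤ 2 := by
    have : Finsupp.single b (-b.ord X) ≤ dvInf K X := fun P => by
      rw [dvInf_apply hX]
      by_cases hP : P = b
      · subst hP
        simp
      · rw [Finsupp.single_eq_of_ne hP]
        exact le_max_right _ _
    have := dg_mono this
    rwa [dg_single, h1] at this
  have h4 := h2 b hb
  have h5 := h.Wei_ord hb
  refine ⟨b, Set.eq_singleton_iff_unique_mem.2 ⟨hb, fun Q hQ => ?_⟩, hX, h5.1, by omega, by omega⟩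
  by_contra hne
  have h6 := h2 Q hQ
  have : Finsupp.single b 2 + Finsupp.single Q 2 ≤ dvInf K X := fun P => by
    rw [dvInf_apply hX, Finsupp.add_apply]
    by_cases hP : P = b
    · subst hP
      rw [Finsupp.single_eq_same, Finsupp.single_eq_of_ne (Ne.symm hne)]
      omega
    · by_cases hP' : P = Q
      · subst hP'
        rw [Finsupp.single_eq_same, Finsupp.single_eq_of_ne hP]
        omega
      · rw [Finsupp.single_eq_of_ne hP, Finsupp.single_eq_of_ne hP']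
        omega
  have := dg_mono this
  rw [dg_add, dg_single, dg_single, h1] at this
  omega

theorem IsWei.finrank (h : IsWei W X Y) : Module.finrank (IntermediateField.adjoin K {X}) E = 2 :=
  h.Wei_finrank

section Aux3

open Polynomial hiding X

theorem IsWei.Wei_le (h : IsWei W X Y) : Algebra.adjoin K {X, Y} ≤ regOut (poles K X) := by
  refine Algebra.adjoin_le ?_
  rintro _ (rfl | rfl)
  · exact fun P hP => not_not.1 hP
  · exact fun P hP => h.Wei_reg (not_not.1 hP)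

theorem Wei_sub {P : Place K E} {f : E} (hf : f ≠ 0) (h : P.ord f < 0) (c : K) :
    f - algebraMap K E c ≠ 0 ∧ P.ord (f - algebraMap K E c) = P.ord f := by
  rw [sub_eq_add_neg]
  exact Place.ord_add_of_lt hf ((Wei_c P c).neg.mono (by omega))

/-- a regular slope function comes from a singular point -/
theorem IsWei.Wei_sing (h : IsWei W X Y) (hW : W.Δ ≠ 0) {x y : K} {g : E}
    (hg : g ∈ regOut (poles K X)) (e : (X - algebraMap K E x) * g = Y - algebraMap K E y) :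
    False := by
  obtain ⟨b, hb, hX, hY, oX, oY⟩ := h.exists_inf
  have hXr := h.Wei_le (Wei_X X Y)
  rw [hb] at hg hXr
  obtain ⟨hu, ou⟩ := Wei_sub (P := b) hX (by omega) x
  obtain ⟨-, ov⟩ := Wei_sub (P := b) hY (by omega) y
  rw [oX] at ou
  rw [oY] at ov
  have he := h.eqn
  simp only [Algebra.smul_def] at he
  obtain ⟨w, hw⟩ : ∃ w, w = y ^ 2 + W.a₁ * x * y + W.a₃ * y -
    (x ^ 3 + W.a₂ * x ^ 2 + W.a₄ * x + W.a₆) := ⟨_, rfl⟩
  obtain ⟨p, hp⟩ : ∃ p, p = W.a₁ * y - (3 * x ^ 2 + 2 * W.a₂ * x + W.a₄) := ⟨_, rfl⟩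
  obtain ⟨q, hq⟩ : ∃ q, q = 2 * y + W.a₁ * x + W.a₃ := ⟨_, rfl⟩
  have h1 : g ^ 2 + W.a₁ • g - algebraMap K E (3 * x + W.a₂) - (X - algebraMap K E x) =
      -(algebraMap K E w + p • (X - algebraMap K E x) + q • (Y - algebraMap K E y)) *
        ((X - algebraMap K E x) ^ 2)⁻¹ := by
    rw [eq_mul_inv_iff_mul_eq₀ (pow_ne_zero 2 hu)]
    simp only [hw, hp, hq, Algebra.smul_def, map_add, map_sub, map_mul, map_pow, map_ofNat]
    linear_combination he + ((X - algebraMap K E x) * g + (Y - algebraMap K E y) +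
      algebraMap K E W.a₁ * (X - algebraMap K E x)) * e
  have h2 : g ^ 2 + W.a₁ • g - algebraMap K E (3 * x + W.a₂) - (X - algebraMap K E x) = 0 := by
    refine Wei_zero (b := b) (sub_mem (sub_mem (add_mem (pow_mem hg 2) (Subalgebra.smul_mem _ hg _))
      (Subalgebra.algebraMap_mem _ _)) (sub_mem hXr (Subalgebra.algebraMap_mem _ _))) ?_
    rw [h1]
    refine (rr_ge_div (n := -3) (pow_ne_zero 2 hu) (Place.Ge.neg ?_)).mono
      (by rw [b.ord_pow hu, ou]; norm_num)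
    exact (((Wei_c b w).mono (by norm_num)).add (((Wei_ge ou).smul p).mono (by norm_num))).add
      ((Wei_ge ov).smul q)
  rw [h1, mul_eq_zero, neg_eq_zero] at h2
  have h3 := h2.resolve_right (inv_ne_zero (pow_ne_zero 2 hu))
  obtain ⟨h4, h5⟩ := Wei_indep h.trans h.eqn (A := C (w - q * y) + C p * (Polynomial.X - C x))
    (B := C q) (by
      simp only [Algebra.smul_def, map_add, map_sub, map_mul, aeval_C, aeval_X] at h3 ⊢
      linear_combination h3)
  rw [C_eq_zero] at h5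
  have h6 : w = 0 := by simpa [h5] using congrArg (eval x) h4
  have h7 : p = 0 := by simpa [h5, h6] using congrArg (eval (x + 1)) h4
  have h8 := (WeierstrassCurve.Affine.nonsingular_iff' (W := W.toAffine) x y).1
    ((WeierstrassCurve.Affine.equation_iff_nonsingular_of_Δ_ne_zero hW).1
      ((WeierstrassCurve.Affine.equation_iff' (W := W.toAffine) x y).2 (hw.symm.trans h6)))
  exact h8.2.elim (fun h9 => h9 (hp.symm.trans h7)) fun h9 => h9 (hq.symm.trans h5)

theorem IsWei.Wei_key (h : IsWei W X Y) (hW : W.Δ ≠ 0) {x : K} {g : E}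
    (hg : g ∈ regOut (poles K X)) (e : (X - algebraMap K E x) * g ∈ Algebra.adjoin K {X, Y}) :
    g ∈ Algebra.adjoin K {X, Y} := by
  obtain ⟨A, B, e⟩ := h.Wei_mem.1 e
  obtain ⟨A₁, hA⟩ := X_sub_C_dvd_sub_C_eval (p := A) (a := x)
  obtain ⟨B₁, hB⟩ := X_sub_C_dvd_sub_C_eval (p := B) (a := x)
  generalize A.eval x = α at hA
  generalize B.eval x = β at hB
  rw [sub_eq_iff_eq_add.1 hA, sub_eq_iff_eq_add.1 hB] at e
  have h0 := h.Wei_mem.2 ⟨A₁, B₁, rfl⟩
  have h1 := sub_mem hg (h.Wei_le h0)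
  have h2 : (X - algebraMap K E x) * (g - (aeval X A₁ + aeval X B₁ * Y)) =
      algebraMap K E α + algebraMap K E β * Y := by
    simp only [map_add, map_sub, map_mul, aeval_C, aeval_X] at e
    linear_combination e
  by_cases hβ : β = 0
  · obtain ⟨b, hb, hX, -, oX, -⟩ := h.exists_inf
    obtain ⟨hu, ou⟩ := Wei_sub (P := b) hX (by omega) x
    rw [hβ, map_zero, zero_mul, add_zero, mul_comm, ← eq_mul_inv_iff_mul_eq₀ hu] at h2
    rw [hb] at h1
    rw [sub_eq_zero.1 (Wei_zero h1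
      (h2 ▸ (rr_ge_div hu (Wei_c b α)).mono (by rw [ou, oX]; norm_num)))]
    exact h0
  · refine (h.Wei_sing hW (x := x) (y := -(α / β)) (Subalgebra.smul_mem _ h1 β⁻¹) ?_).elim
    have h3 : algebraMap K E β ≠ 0 := (_root_.map_ne_zero _).2 hβ
    rw [mul_smul_comm, h2, Algebra.smul_def, map_neg, map_div₀, map_inv₀]
    field_simp
    ring

end Aux3

theorem IsWei.reg_eq (h : IsWei W X Y) (hW : W.Δ ≠ 0) :
    regOut (poles K X) = Algebra.adjoin K {X, Y} := by
  refine le_antisymm (fun f hf => ?_) h.Wei_le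
  obtain ⟨S, h0, hS⟩ := h.Wei_den f
  have hs := IsAlgClosed.splits S
  induction hs using Submonoid.closure_induction generalizing f with
  | mem S h1 =>
    rcases h1 with ⟨a, rfl⟩ | ⟨a, rfl⟩
    · have := Subalgebra.smul_mem _ hS a⁻¹
      rwa [Polynomial.aeval_C, ← Algebra.smul_def, inv_smul_smul₀ (Polynomial.C_ne_zero.1 h0)] at this
    · exact h.Wei_key hW (x := -a) hf (by simpa using hS)
  | one => simpa using hS
  | mul S T _ _ h1 h2 =>
    rw [map_mul, mul_assoc] at hS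
    exact h2 f hf (right_ne_zero_of_mul h0) (h1 _
      (mul_mem (h.Wei_le (Wei_aeval (Wei_X X Y) T)) hf) (left_ne_zero_of_mul h0) hS)


section Aux4

open Polynomial hiding X

/-- Sums of a function regular off `b` and a function regular at `b`. -/
def Wei_M (b : Place K E) : Submodule K E :=
  (regOut {b}).toSubmodule ⊔ (regOut {b}ᶜ).toSubmodule

theorem Wei_at {b : Place K E} {f : E} : f ∈ regOut {b}ᶜ ↔ b.Ge f 0 :=
  ⟨fun h => b.mem_iff.1 (h b (by simp)), fun h P hP => by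
    rw [Set.notMem_compl_iff.1 hP]
    exact b.mem_iff.2 h⟩

omit [IsAlgClosed K] [Fact (IsFF K E)] in
theorem Wei_Ml {b : Place K E} {f : E} (h : f ∈ regOut {b}) : f ∈ Wei_M b :=
  Submodule.mem_sup_left h

theorem Wei_Mr {b : Place K E} {f : E} (h : b.Ge f 0) : f ∈ Wei_M b :=
  Submodule.mem_sup_right (Wei_at.2 h)

theorem Wei_div {b : Place K E} (hX : X ≠ 0) (hY : Y ≠ 0) (oX : b.ord X = -2) (oY : b.ord Y = -3) :
    b.ord (Y / X) = -1 := by
  rw [div_eq_mul_inv, b.ord_mul hY (inv_ne_zero hX), b.ord_inv hX, oX, oY]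
  norm_num

theorem IsWei.Wei_inf (h : IsWei W X Y) {b : Place K E} (hb : poles K X = {b}) :
    X ≠ 0 ∧ Y ≠ 0 ∧ b.ord X = -2 ∧ b.ord Y = -3 ∧ X ∈ regOut {b} ∧ Y ∈ regOut {b} := by
  obtain ⟨b', hb', hX, hY, oX, oY⟩ := h.exists_inf
  obtain rfl : b' = b := Set.singleton_injective (hb'.symm.trans hb)
  exact ⟨hX, hY, oX, oY, hb ▸ h.Wei_le (Wei_X X Y), hb ▸ h.Wei_le (Wei_Y X Y)⟩

theorem IsWei.Wei_dec (h : IsWei W X Y) {b : Place K E} (hb : poles K X = {b}) (f : E) :
    ∃ c : K, f - c • (Y / X) ∈ Wei_M b := by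
  obtain ⟨hX, hY, oX, oY, rX, rY⟩ := h.Wei_inf hb
  have h1 : ∀ n : ℕ, ∃ r ∈ Wei_M b ⊔ K ∙ (Y / X), r ≠ 0 ∧ b.ord r = -n := by
    intro n
    obtain ⟨i, rfl | rfl⟩ := Nat.even_or_odd' n
    · exact ⟨X ^ i, Submodule.mem_sup_left (Wei_Ml (pow_mem rX i)), pow_ne_zero i hX,
        by rw [b.ord_pow hX, oX]; push_cast; ring⟩
    · rcases i with _ | i
      · exact ⟨Y / X, Submodule.mem_sup_right (Submodule.mem_span_singleton_self _),
          div_ne_zero hY hX, Wei_div hX hY oX oY⟩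
      · exact ⟨X ^ i * Y, Submodule.mem_sup_left (Wei_Ml (mul_mem (pow_mem rX i) rY)),
          mul_ne_zero (pow_ne_zero i hX) hY,
          by rw [b.ord_mul (pow_ne_zero i hX) hY, b.ord_pow hX, oX, oY]; push_cast; ring⟩
  have h2 : ∀ n : ℕ, ∀ f, b.Ge f (-n) → f ∈ Wei_M b ⊔ K ∙ (Y / X) := by
    intro n
    induction n with
    | zero => exact fun f hf => Submodule.mem_sup_left (Wei_Mr hf)
    | succ n ih =>
      intro f hf
      obtain ⟨r, h3, h4, h5⟩ := h1 (n + 1)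
      obtain ⟨c, hc⟩ := Wei_red hf h4 h5
      simpa using add_mem (ih _ (hc.mono (by push_cast; omega))) (Submodule.smul_mem _ c h3)
  obtain ⟨a, ha, z, hz, rfl⟩ := Submodule.mem_sup.1
    (h2 (b.ord f).natAbs f (Or.inr (by omega)))
  obtain ⟨c, rfl⟩ := Submodule.mem_span_singleton.1 hz
  exact ⟨c, by simpa using ha⟩

theorem IsWei.Wei_not (h : IsWei W X Y) (hW : W.Δ ≠ 0) {b : Place K E} (hb : poles K X = {b}) :
    Y / X ∉ Wei_M b := by
  obtain ⟨hX, hY, oX, oY, -, -⟩ := h.Wei_inf hb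
  intro h0
  obtain ⟨a, ha, h1⟩ := rr_mem_sup.1 h0
  rw [← hb, h.reg_eq hW] at ha
  obtain ⟨A, B, rfl⟩ := h.Wei_mem.1 ha
  have h2 := (Wei_ge oX).mul (Wei_at.1 h1)
  have h3 : X * (Y / X - (aeval X A + aeval X B * Y)) =
      aeval X (-(Polynomial.X * A)) + aeval X (1 - Polynomial.X * B) * Y := by
    simp only [map_neg, map_mul, map_sub, map_one, aeval_X]
    field_simp
    ring
  have h4 : 1 - Polynomial.X * B ≠ 0 := fun h5 => by simpa using congrArg (eval 0) h5
  rw [h3] at h2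
  generalize -(Polynomial.X * A) = A at h2
  generalize 1 - Polynomial.X * B = B at h2 h4
  obtain ⟨h5, h6⟩ := Wei_ord_aeval (P := b) hX (by omega) _ B h4 rfl
  have h7 := b.ord_mul h5 hY
  by_cases h8 : b.Ge (aeval X A) (b.ord (aeval X B * Y) + 1)
  · have h9 := Place.ord_add_of_lt (mul_ne_zero h5 hY) h8
    rw [add_comm] at h9
    have := h2.resolve_left h9.1
    rw [h9.2, h7, h6, oX, oY] at this
    omega
  · obtain ⟨h9, h10⟩ := not_or.1 h8
    obtain ⟨-, h11⟩ := Wei_ord_aeval (P := b) hX (by omega) _ A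
      (fun h12 => h9 (by rw [h12, map_zero])) rfl
    rw [h6, oX, oY] at h7
    rw [oX] at h11
    have h12 := Place.ord_add_of_lt (P := b) h9 (g := aeval X B * Y) (Or.inr (by omega))
    have := h2.resolve_left h12.1
    omega

end Aux4

theorem IsWei.genus (h : IsWei W X Y) (hW : W.Δ ≠ 0) : genus K E = 1 := by
  obtain ⟨b, hb, -⟩ := h.exists_inf
  rw [genus_eq (Set.finite_singleton b) (Set.singleton_nonempty b)]
  refine finrank_eq_one_iff'.2 ⟨Submodule.Quotient.mk (Y / X),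
    fun h0 => h.Wei_not hW hb ((Submodule.Quotient.mk_eq_zero _).1 h0), fun w => ?_⟩
  obtain ⟨f, rfl⟩ := Submodule.Quotient.mk_surjective _ w
  obtain ⟨c, hc⟩ := h.Wei_dec hb f
  exact ⟨c, ((Submodule.Quotient.eq _).2 hc).symm⟩

section Aux5

open Polynomial hiding X
open IntermediateField

theorem Wei_gen {b : Place K E} (rX : X ∈ regOut {b}) (hX : X ≠ 0) (oX : b.ord X = -2)
    (he : Y ^ 2 + W.a₁ • X * Y + W.a₃ • Y = X ^ 3 + W.a₂ • X ^ 2 + W.a₄ • X + algebraMap K E W.a₆) :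
    IsWei W X Y ∧ poles K X = {b} := by
  have hb : X ∉ b.1 := Wei_pole.2 ⟨hX, by omega⟩
  have ht : Transcendental K X := transcendental_iff.2 fun ⟨c, hc⟩ => hb (hc ▸ b.2.2 c)
  have h1 : dvInf K X = Finsupp.single b 2 := by
    ext P
    rw [dvInf_apply hX]
    by_cases hP : P = b
    · rw [hP, oX, Finsupp.single_eq_same]
      rfl
    · have := (P.mem_iff.1 (rX P hP)).resolve_left hX
      rw [Finsupp.single_eq_of_ne hP]
      omega
  have h2 := dg_dvInf ht
  rw [h1, dg_single] at h2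
  have := finiteDimensional_of_transcendental ht
  have h3 : K⟮X⟯⟮Y⟯ = ⊤ := IntermediateField.eq_of_le_of_finrank_eq le_top (by
    rw [(Wei_rank ht he).2, finrank_top']
    exact_mod_cast h2)
  refine ⟨⟨ht, he, ?_⟩, Set.eq_singleton_iff_unique_mem.2 ⟨hb, fun P hP => ?_⟩⟩
  · rwa [← restrictScalars_eq_top_iff (K := K), adjoin_simple_adjoin_simple] at h3
  · by_contra h4
    exact hP (rX P h4)

theorem Wei_pre (hg : genus K E = 1) (b : Place K E) :
    ∃ (W : WeierstrassCurve K) (X Y : E), IsWei W X Y ∧ poles K X = {b} := by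
  have hg0 : genus K E ≠ 0 := by omega
  have h1 : H1z (Finsupp.single b 1) := by
    have := riemann (Finsupp.single b 1)
    rw [ell_single hg0, dg_single, hg] at this
    exact (h1z_iff _).2 (by omega)
  have h2 : ∀ n : ℤ, 2 ≤ n → ∃ f ∈ regOut {b}, f ≠ 0 ∧ b.ord f = -n := by
    intro n hn
    obtain ⟨f, h3, h4⟩ := exists_ord_eq (D := Finsupp.single b n) {b} (h1.mono (by
      rw [Finset.sum_singleton, ← Finsupp.single_sub]
      exact Finsupp.single_le_single.2 (by omega)))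
    exact ⟨f, (Wei_lsp.1 h3).1, by simpa using h4⟩
  obtain ⟨X, rX, hX, oX⟩ := h2 2 le_rfl
  obtain ⟨Y, rY, hY, oY⟩ := h2 3 (by norm_num)
  have o6 : b.ord (Y ^ 2) = -6 := by rw [b.ord_pow hY, oY]; norm_num
  obtain ⟨c₆, e₆⟩ := Wei_red (Wei_ge o6) (pow_ne_zero 3 hX) (by rw [b.ord_pow hX, oX]; norm_num)
  obtain ⟨c₅, e₅⟩ := Wei_red e₆ (mul_ne_zero hX hY) (by rw [b.ord_mul hX hY, oX, oY]; norm_num)
  obtain ⟨c₄, e₄⟩ := Wei_red e₅ (pow_ne_zero 2 hX) (by rw [b.ord_pow hX, oX]; norm_num)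
  obtain ⟨c₃, e₃⟩ := Wei_red e₄ hY (by rw [oY]; norm_num)
  obtain ⟨c₂, e₂⟩ := Wei_red e₃ hX (by rw [oX]; norm_num)
  obtain ⟨c₀, e₀⟩ := Wei_const hg0 (sub_mem (sub_mem (sub_mem (sub_mem (sub_mem (pow_mem rY 2)
    (Subalgebra.smul_mem _ (pow_mem rX 3) _)) (Subalgebra.smul_mem _ (mul_mem rX rY) _))
    (Subalgebra.smul_mem _ (pow_mem rX 2) _)) (Subalgebra.smul_mem _ rY _))
    (Subalgebra.smul_mem _ rX _)) e₂
  have hc : c₆ ≠ 0 := by
    rintro rfl
    rw [zero_smul, sub_zero] at e₆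
    have := e₆.resolve_left (pow_ne_zero 2 hY)
    omega
  refine ⟨⟨-c₅, c₄, -(c₃ * c₆), c₂ * c₆, c₀ * c₆ ^ 2⟩, c₆ • X, c₆ • Y,
    Wei_gen (Subalgebra.smul_mem _ rX _) (smul_ne_zero hc hX) ((Wei_ord_smul b hc hX).trans oX) ?_⟩
  simp only [Algebra.smul_def, map_neg, map_mul, map_pow] at e₀ ⊢
  linear_combination algebraMap K E c₆ ^ 2 * e₀

omit [Fact (IsFF K E)] in
theorem IsWei.Wei_change (h : IsWei W X Y) (C : WeierstrassCurve.VariableChange K) :
    ∃ X' Y' : E, IsWei (C • W) X' Y' ∧ poles K X' = poles K X := by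
  obtain ⟨X', hX⟩ : ∃ X', X' = (C.u⁻¹ : Kˣ).1 ^ 2 • (X - algebraMap K E C.r) := ⟨_, rfl⟩
  obtain ⟨Y', hY⟩ : ∃ Y', Y' = (C.u⁻¹ : Kˣ).1 ^ 3 •
    (Y - C.s • (X - algebraMap K E C.r) - algebraMap K E C.t) := ⟨_, rfl⟩
  have h1 : X = C.u.1 ^ 2 • X' + algebraMap K E C.r := by
    rw [hX, smul_smul, ← mul_pow, Units.mul_inv, one_pow, one_smul, sub_add_cancel]
  have h2 : Y = C.u.1 ^ 3 • Y' + C.s • (X - algebraMap K E C.r) + algebraMap K E C.t := by
    rw [hY, smul_smul, ← mul_pow, Units.mul_inv, one_pow, one_smul]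
    ring
  refine ⟨X', Y', ⟨FFA_tr.2 fun ⟨c, hc⟩ => FFA_tr.1 h.trans ⟨C.u.1 ^ 2 * c + C.r, ?_⟩, ?_, ?_⟩, ?_⟩
  · rw [h1, ← hc, Algebra.smul_def, map_add, map_mul]
  · have he := h.eqn
    simp only [hX, hY, Algebra.smul_def, WeierstrassCurve.variableChange_a₁,
      WeierstrassCurve.variableChange_a₂, WeierstrassCurve.variableChange_a₃,
      WeierstrassCurve.variableChange_a₄, WeierstrassCurve.variableChange_a₆, map_add, map_sub,
      map_mul, map_pow, map_ofNat] at he ⊢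
    linear_combination algebraMap K E (C.u⁻¹ : Kˣ).1 ^ 6 * he
  · have h3 : X' ∈ adjoin K {X', Y'} := subset_adjoin _ _ (by simp)
    have h4 : Y' ∈ adjoin K {X', Y'} := subset_adjoin _ _ (by simp)
    have h5 : X ∈ adjoin K {X', Y'} := h1 ▸ add_mem (smul_mem _ h3) (_root_.algebraMap_mem _ _)
    rw [eq_top_iff, ← h.gen, adjoin_le_iff]
    rintro _ (rfl | rfl)
    · exact h5
    · rw [h2]
      exact add_mem (add_mem (smul_mem _ h4) (smul_mem _ (sub_mem h5 (_root_.algebraMap_mem _ _))))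
        (_root_.algebraMap_mem _ _)
  · ext P
    refine not_congr ⟨fun h3 => ?_, fun h3 => ?_⟩
    · rw [h1]
      exact add_mem (Wei_smul P _ h3) (P.2.2 _)
    · rw [hX]
      exact Wei_smul P _ (sub_mem h3 (P.2.2 _))

theorem IsWei.Wei_nosing (h : IsWei W X Y) (hg : PR0.genus K E ≠ 0) {x y : K}
    (h0 : y ^ 2 + W.a₁ * x * y + W.a₃ * y - (x ^ 3 + W.a₂ * x ^ 2 + W.a₄ * x + W.a₆) = 0)
    (h1 : W.a₁ * y - (3 * x ^ 2 + 2 * W.a₂ * x + W.a₄) = 0) (h2 : 2 * y + W.a₁ * x + W.a₃ = 0) :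
    False := by
  obtain ⟨b, hb, -⟩ := h.exists_inf
  obtain ⟨hX, hY, oX, oY, rX, -⟩ := h.Wei_inf hb
  obtain ⟨hu, ou⟩ := Wei_sub (P := b) hX (by omega) x
  obtain ⟨hv, ov⟩ := Wei_sub (P := b) hY (by omega) y
  obtain ⟨g, e⟩ : ∃ g, g = (Y - algebraMap K E y) / (X - algebraMap K E x) := ⟨_, rfl⟩
  have og : b.ord g = -1 := e ▸ Wei_div hu hv (ou.trans oX) (ov.trans oY)
  have hg0 : g ≠ 0 := e ▸ div_ne_zero hv hu
  rw [eq_div_iff hu] at e
  have h3 : g * (g + algebraMap K E W.a₁) = X + algebraMap K E (2 * x + W.a₂) := by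
    refine mul_right_cancel₀ (pow_ne_zero 2 hu) ?_
    have he := h.eqn
    have h4 := congrArg (algebraMap K E) h0
    have h5 := congrArg (algebraMap K E) h1
    have h6 := congrArg (algebraMap K E) h2
    simp only [Algebra.smul_def, map_add, map_sub, map_mul, map_pow, map_ofNat, map_zero]
      at he h4 h5 h6 ⊢
    linear_combination he - h4 - (X - algebraMap K E x) * h5 - (Y - algebraMap K E y) * h6 +
      (g * (X - algebraMap K E x) + (Y - algebraMap K E y) +
      algebraMap K E W.a₁ * (X - algebraMap K E x)) * e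
  obtain ⟨c, hc⟩ := Wei_const hg (b := b) (g := g) (fun P hP => by
    by_contra h4
    obtain ⟨-, h5⟩ := Wei_pole.1 h4
    have h6 := Place.ord_add_of_lt hg0 ((Wei_c P W.a₁).mono (by omega))
    refine Wei_pole.2 ⟨mul_ne_zero hg0 h6.1, by rw [P.ord_mul hg0 h6.1, h6.2]; omega⟩ ?_
    rw [h3]
    exact add_mem (rX P hP) (P.2.2 _)) (Wei_ge og)
  exact Wei_pole.2 ⟨hg0, by omega⟩ (hc ▸ b.2.2 c)

theorem Wei_leg (h2 : (2 : K) ≠ 0) (hg : genus K E = 1) (b : Place K E) :
    ∃ (l : K) (X Y : E), l ≠ 0 ∧ l ≠ 1 ∧ IsWei ⟨0, -(1 + l), 0, l, 0⟩ X Y ∧ poles K X = {b} := by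
  obtain ⟨W₀, X₀, Y₀, h₀, hb₀⟩ := Wei_pre hg b
  let := invertibleOfNonzero h2
  obtain ⟨C₀, a₁, a₃⟩ := W₀.exists_variableChange_isCharNeTwoNF
  obtain ⟨X, Y, h, hb⟩ := h₀.Wei_change C₀
  generalize C₀ • W₀ = W at a₁ a₃ h
  have ha : (⟨1, W.a₂, W.a₄, W.a₆⟩ : Cubic K).a ≠ 0 := one_ne_zero
  obtain ⟨e₁, e₂, e₃, he⟩ := (Cubic.splits_iff_roots_eq_three (φ := RingHom.id K) ha).1
    (IsAlgClosed.splits _)
  have a₂ : W.a₂ = 1 * -(e₁ + e₂ + e₃) := Cubic.b_eq_three_roots ha he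
  have a₄ : W.a₄ = 1 * (e₁ * e₂ + e₁ * e₃ + e₂ * e₃) := Cubic.c_eq_three_roots ha he
  have a₆ : W.a₆ = 1 * -(e₁ * e₂ * e₃) := Cubic.d_eq_three_roots ha he
  have hg0 : genus K E ≠ 0 := by omega
  have n₁ : e₂ - e₁ ≠ 0 := fun h0 => h.Wei_nosing hg0 (x := e₁) (y := 0)
    (by rw [a₂, a₃, a₄, a₆]; ring) (by rw [a₂, a₄]; linear_combination (e₁ - e₃) * h0)
    (by rw [a₁, a₃]; ring)
  have n₂ : e₃ - e₁ ≠ 0 := fun h0 => h.Wei_nosing hg0 (x := e₁) (y := 0)
    (by rw [a₂, a₃, a₄, a₆]; ring) (by rw [a₂, a₄]; linear_combination (e₁ - e₂) * h0)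
    (by rw [a₁, a₃]; ring)
  have n₃ : e₃ - e₂ ≠ 0 := fun h0 => h.Wei_nosing hg0 (x := e₂) (y := 0)
    (by rw [a₂, a₃, a₄, a₆]; ring) (by rw [a₂, a₄]; linear_combination (e₂ - e₁) * h0)
    (by rw [a₁, a₃]; ring)
  obtain ⟨u, hu⟩ := IsAlgClosed.exists_pow_nat_eq (e₂ - e₁) two_pos
  have hu0 : u ≠ 0 := fun h0 => n₁ (by rw [← hu, h0, zero_pow two_ne_zero])
  obtain ⟨X', Y', h', hb'⟩ := h.Wei_change ⟨Units.mk0 u hu0, e₁, 0, 0⟩
  refine ⟨(e₃ - e₁) / (e₂ - e₁), X', Y', div_ne_zero n₂ n₁, fun h0 => n₃ ?_, ?_,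
    hb'.trans (hb.trans hb₀)⟩
  · rw [div_eq_one_iff_eq n₁] at h0
    linear_combination h0
  · convert h' using 1
    have h4 : u ^ 4 = (e₂ - e₁) ^ 2 := by rw [← hu]; ring
    ext
    · simp [WeierstrassCurve.variableChange_a₁, a₁]
    · simp only [WeierstrassCurve.variableChange_a₂, a₁, a₂, Units.val_inv_eq_inv_val, Units.val_mk0,
        inv_pow, hu]
      field_simp
      ring
    · simp [WeierstrassCurve.variableChange_a₃, a₁, a₃]
    · simp only [WeierstrassCurve.variableChange_a₄, a₁, a₂, a₃, a₄, Units.val_inv_eq_inv_val,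
        Units.val_mk0, inv_pow, h4]
      field_simp
      ring
    · simp only [WeierstrassCurve.variableChange_a₆, a₁, a₂, a₃, a₄, a₆]
      ring

omit [IsAlgClosed K] in
theorem Wei_Δ (h2 : (2 : K) ≠ 0) {l : K} (h0 : l ≠ 0) (h1 : l ≠ 1) :
    (⟨0, -(1 + l), 0, l, 0⟩ : WeierstrassCurve K).Δ ≠ 0 := by
  have : (⟨0, -(1 + l), 0, l, 0⟩ : WeierstrassCurve K).Δ = 2 ^ 4 * l ^ 2 * (l - 1) ^ 2 := by
    simp only [WeierstrassCurve.Δ, WeierstrassCurve.b₂, WeierstrassCurve.b₄, WeierstrassCurve.b₆,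
      WeierstrassCurve.b₈]
    ring
  rw [this]
  exact mul_ne_zero (mul_ne_zero (pow_ne_zero _ h2) (pow_ne_zero _ h0))
    (pow_ne_zero _ (sub_ne_zero.2 h1))

end Aux5

theorem exists_wei (hg : genus K E = 1) (b : Place K E) :
    ∃ (W : WeierstrassCurve K) (X Y : E), IsWei W X Y ∧ W.Δ ≠ 0 ∧ poles K X = {b} := by
  by_cases h2 : (2 : K) = 0
  · have := CharTwo.of_one_ne_zero_of_two_eq_zero one_ne_zero h2
    obtain ⟨W₀, X₀, Y₀, h₀, hb₀⟩ := Wei_pre hg b
    obtain ⟨C₀, hC⟩ := W₀.exists_variableChange_isCharTwoNF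
    obtain ⟨X, Y, h, hb⟩ := h₀.Wei_change C₀
    generalize C₀ • W₀ = W at hC h
    refine ⟨W, X, Y, h, fun h0 => ?_, hb.trans hb₀⟩
    have hg0 : genus K E ≠ 0 := by omega
    cases hC
    · rw [W.Δ_of_isCharTwoJNeZeroNF_of_char_two] at h0
      exact h.Wei_nosing hg0 (x := 0) (y := 0) (by simp [h0]) (by simp) (by simp)
    · rw [W.Δ_of_isCharTwoJEqZeroNF_of_char_two, pow_eq_zero_iff four_ne_zero] at h0
      obtain ⟨x, hx⟩ := IsAlgClosed.exists_pow_nat_eq W.a₄ two_pos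
      obtain ⟨y, hy⟩ := IsAlgClosed.exists_pow_nat_eq (x ^ 3 + W.a₄ * x + W.a₆) two_pos
      refine h.Wei_nosing hg0 (x := x) (y := y) ?_ ?_ ?_ <;>
        simp only [W.a₁_of_isCharTwoJEqZeroNF, W.a₂_of_isCharTwoJEqZeroNF, h0]
      · linear_combination hy
      · linear_combination hx - 2 * x ^ 2 * h2
      · linear_combination y * h2
  · obtain ⟨l, X, Y, h0, h1, h, hb⟩ := Wei_leg h2 hg b
    exact ⟨_, X, Y, h, Wei_Δ h2 h0 h1, hb⟩

/-- The Legendre curve. -/
def leg (l : K) : WeierstrassCurve K := ⟨0, -(1 + l), 0, l, 0⟩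

section Aux6

open Polynomial hiding X

theorem Wei_pow (p : ℕ) [Fact p.Prime] [CharP K p] {b : Place K E} {f g : E}
    (h : f - g ∈ Wei_M b) : f ^ p - g ^ p ∈ Wei_M b := by
  have := charP_of_injective_algebraMap (algebraMap K E).injective p
  obtain ⟨a, h1, h2⟩ := rr_mem_sup.1 h
  refine rr_mem_sup.2 ⟨a ^ p, pow_mem h1 p, ?_⟩
  rw [← sub_pow_char, ← sub_pow_char]
  exact pow_mem h2 p

theorem IsWei.Wei_hw (h : IsWei W X Y) (hW : W.Δ ≠ 0) (p : ℕ) [Fact p.Prime] [CharP K p]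
    {b : Place K E} (hb : poles K X = {b}) {a : K} (e : (Y / X) ^ p - a • (Y / X) ∈ Wei_M b) :
    HW0 K E p ↔ a = 0 := by
  rw [hw0_iff p (Set.finite_singleton b) (Set.singleton_nonempty b)]
  constructor
  · intro h1
    by_contra ha
    obtain ⟨n, hn⟩ := h1 (Y / X)
    have h2 : ∀ n : ℕ, ∃ c : K, c ≠ 0 ∧ (Y / X) ^ p ^ n - c • (Y / X) ∈ Wei_M b := by
      intro n
      induction n with
      | zero => exact ⟨1, one_ne_zero, by simp⟩
      | succ n ih =>
        obtain ⟨c, hc, h3⟩ := ih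
        refine ⟨c ^ p * a, mul_ne_zero (pow_ne_zero p hc) ha, ?_⟩
        have h4 := add_mem (Wei_pow p h3) (Submodule.smul_mem _ (c ^ p) e)
        rwa [smul_sub, _root_.smul_pow, sub_add_sub_cancel, smul_smul, ← pow_mul, ← pow_succ] at h4
    obtain ⟨c, hc, h3⟩ := h2 n
    have h4 := sub_mem (rr_mem_sup.2 hn) h3
    rw [sub_sub_cancel, Submodule.smul_mem_iff _ hc] at h4
    exact h.Wei_not hW hb h4
  · rintro rfl f
    obtain ⟨c, hc⟩ := h.Wei_dec hb f
    have h1 := add_mem (Wei_pow p hc) (Submodule.smul_mem _ (c ^ p) e)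
    rw [zero_smul, sub_zero, _root_.smul_pow, sub_add_cancel] at h1
    exact ⟨1, rr_mem_sup.1 (by rwa [pow_one])⟩

theorem IsWei.Wei_poly (h : IsWei W X Y) {b : Place K E} (hb : poles K X = {b}) (n : ℕ)
    (g : K[X]) : Y * aeval X g / X ^ (n + 1) - g.coeff n • (Y / X) ∈ Wei_M b := by
  obtain ⟨hX, hY, oX, oY, rX, rY⟩ := h.Wei_inf hb
  induction g using Polynomial.induction_on' with
  | add f g hf hg =>
    convert add_mem hf hg using 1
    rw [map_add, coeff_add, add_smul]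
    ring
  | monomial k a =>
    rw [aeval_monomial, coeff_monomial, ← Algebra.smul_def, mul_smul_comm, smul_div_assoc]
    split_ifs with hk
    · rw [hk, ← smul_sub, pow_succ', mul_div_mul_right _ _ (pow_ne_zero n hX), sub_self, smul_zero]
      exact zero_mem _
    · rw [zero_smul, sub_zero]
      refine Submodule.smul_mem _ a ?_
      rcases lt_or_gt_of_ne hk with h1 | h1
      · rw [div_eq_mul_inv]
        refine Wei_Mr ((rr_ge_div (pow_ne_zero _ hX)
          ((Wei_ge oY).mul ((Wei_ge oX).pow k))).mono ?_)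
        rw [b.ord_pow hX, oX]
        omega
      · obtain ⟨j, rfl⟩ := Nat.exists_eq_add_of_le h1
        rw [pow_add, mul_left_comm, mul_div_cancel_left₀ _ (pow_ne_zero _ hX)]
        exact Wei_Ml (mul_mem rY (pow_mem rX j))

theorem IsWei.Wei_two (h : IsWei W X Y) {b : Place K E} (hb : poles K X = {b}) :
    (Y / X) ^ 2 - (-W.a₁) • (Y / X) ∈ Wei_M b := by
  obtain ⟨hX, hY, oX, oY, rX, rY⟩ := h.Wei_inf hb
  have h1 : (Y / X) ^ 2 - (-W.a₁) • (Y / X) = X + algebraMap K E W.a₂ +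
      (W.a₄ • X + algebraMap K E W.a₆ - W.a₃ • Y) * (X ^ 2)⁻¹ := by
    have he := h.eqn
    simp only [Algebra.smul_def, map_neg] at he ⊢
    field_simp
    linear_combination he
  rw [h1]
  refine add_mem (Wei_Ml (add_mem rX (algebraMap_mem _ _)))
    (Wei_Mr ((rr_ge_div (n := -3) (pow_ne_zero 2 hX) ?_).mono (by rw [b.ord_pow hX, oX]; norm_num)))
  exact ((((Wei_ge oX).smul _).mono (by norm_num)).add ((Wei_c b _).mono (by norm_num))).sub
    ((Wei_ge oY).smul _)

end Aux6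

omit [IsAlgClosed K] in
theorem leg_Δ (h2 : (2 : K) ≠ 0) {l : K} (h0 : l ≠ 0) (h1 : l ≠ 1) : (leg l).Δ ≠ 0 :=
  Wei_Δ h2 h0 h1
theorem IsWei.hw0_leg (p : ℕ) [Fact p.Prime] [CharP K p] (hp : p ≠ 2) {l : K} (h0 : l ≠ 0)
    (h1 : l ≠ 1) (h : IsWei (leg l) X Y) : HW0 K E p ↔ SS p l := by
  obtain ⟨b, hb, -⟩ := h.exists_inf
  have h2 : (2 : K) ≠ 0 := fun h2 => hp ((Nat.prime_dvd_prime_iff_eq Fact.out Nat.prime_two).1
    ((CharP.cast_eq_zero_iff K p 2).1 h2))
  obtain ⟨m, hm⟩ := (Fact.out : p.Prime).odd_of_ne_two hp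
  refine h.Wei_hw (leg_Δ h2 h0 h1) p hb ?_
  convert h.Wei_poly hb (p - 1) _ using 2
  have he := h.eqn
  simp only [leg, Algebra.smul_def, map_neg, map_add, map_one, map_zero] at he
  have h3 : X * (X - 1) * (X - algebraMap K E l) = Y ^ 2 := by linear_combination -he
  simp only [map_pow, map_mul, map_sub, map_one, Polynomial.aeval_X, Polynomial.aeval_C]
  rw [h3, show p / 2 = m by omega, show p - 1 + 1 = p by omega, div_pow, hm]
  ring
theorem exists_leg (h2 : (2 : K) ≠ 0) (hg : genus K E = 1) (b : Place K E) :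
    ∃ (l : K) (X Y : E), l ≠ 0 ∧ l ≠ 1 ∧ IsWei (leg l) X Y ∧ poles K X = {b} :=
  Wei_leg h2 hg b
omit [IsAlgClosed K] in
theorem SS.map {K' : Type u} [Field K'] (φ : K →+* K') (p : ℕ) (l : K) : SS p (φ l) ↔ SS p l := by
  rw [SS, SS, ← map_eq_zero_iff φ φ.injective, ← Polynomial.coeff_map]
  simp
/-- the Hasse polynomial is nonzero (its value at `0` is `± 1`) -/
theorem SS.mem_range {K' : Type u} [Field K'] (φ : K →+* K') (p : ℕ) [Fact p.Prime] [CharP K p]
    (hp : p ≠ 2) {l : K'} (h : SS p l) : l ∈ Set.range φ := by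
  let := φ.toAlgebra
  by_contra hl
  have ht : Transcendental K l := FFA_tr.2 hl
  obtain ⟨m, hm⟩ := (Fact.out : p.Prime).odd_of_ne_two hp
  have h1 : ∀ {R : Type u} [CommRing R] (ψ : Polynomial K →+* R), ψ (Polynomial.coeff
      ((Polynomial.X * (Polynomial.X - 1) * (Polynomial.X - Polynomial.C Polynomial.X)) ^ (p / 2))
      (p - 1)) = Polynomial.coeff ((Polynomial.X * (Polynomial.X - 1) *
        (Polynomial.X - Polynomial.C (ψ Polynomial.X))) ^ (p / 2)) (p - 1) := by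
    intro R _ ψ
    rw [← Polynomial.coeff_map]
    simp
  have h2 := h1 (Polynomial.aeval l : Polynomial K →ₐ[K] K').toRingHom
  rw [AlgHom.toRingHom_eq_coe, RingHom.coe_coe, Polynomial.aeval_X, h] at h2
  have h3 := h1 (Polynomial.evalRingHom 0)
  rw [_root_.transcendental_iff.1 ht _ h2, map_zero, Polynomial.coe_evalRingHom, Polynomial.eval_X,
    map_zero, sub_zero, show p / 2 = m by omega, show p - 1 = 0 + 2 * m by omega, mul_right_comm,
    ← sq, mul_pow, ← pow_mul, Polynomial.coeff_X_pow_mul, Polynomial.coeff_zero_eq_eval_zero] at h3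
  exact pow_ne_zero m (neg_ne_zero.2 (one_ne_zero (α := K))) (by simpa using h3.symm)
theorem IsWei.hw0_two [CharP K 2] (h : IsWei (⟨0, 0, 1, 0, 0⟩ : WeierstrassCurve K) X Y) :
    HW0 K E 2 := by
  obtain ⟨b, hb, -⟩ := h.exists_inf
  exact (h.Wei_hw (by simp [WeierstrassCurve.Δ_of_char_two]) 2 hb (h.Wei_two hb)).2 neg_zero
theorem exists_two [CharP K 2] (hg : genus K E = 1) (h : HW0 K E 2) (b : Place K E) :
    ∃ X Y : E, IsWei (⟨0, 0, 1, 0, 0⟩ : WeierstrassCurve K) X Y ∧ poles K X = {b} := by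
  obtain ⟨W, X, Y, hW, hΔ, hb⟩ := exists_wei hg b
  have a₁ : W.a₁ = 0 := neg_eq_zero.1 ((hW.Wei_hw hΔ 2 hb (hW.Wei_two hb)).1 h)
  have a₃ : W.a₃ ≠ 0 := fun h0 => hΔ (by simp [WeierstrassCurve.Δ_of_char_two, a₁, h0])
  have h2 : (2 : K) = 0 := CharTwo.two_eq_zero
  obtain ⟨u, hu⟩ := IsAlgClosed.exists_pow_nat_eq W.a₃ three_pos
  have hu0 : u ≠ 0 := fun h0 => a₃ (by rw [← hu, h0, zero_pow three_ne_zero])
  obtain ⟨s, hs⟩ := IsAlgClosed.exists_root (Polynomial.X ^ 4 + Polynomial.C W.a₃ * Polynomial.X +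
    Polynomial.C (W.a₄ + W.a₂ ^ 2)) (by
      rw [show Polynomial.degree _ = 4 by compute_degree!]
      norm_num)
  obtain ⟨r, hr⟩ : ∃ r, r = W.a₂ + s ^ 2 := ⟨_, rfl⟩
  obtain ⟨t, ht⟩ := IsAlgClosed.exists_root (Polynomial.X ^ 2 + Polynomial.C W.a₃ * Polynomial.X -
    Polynomial.C (W.a₆ + r * W.a₄ + r ^ 2 * W.a₂ + r ^ 3)) (by
      rw [show Polynomial.degree _ = 2 by compute_degree!]
      norm_num)
  simp only [Polynomial.IsRoot.def, Polynomial.eval_add, Polynomial.eval_sub, Polynomial.eval_mul,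
    Polynomial.eval_pow, Polynomial.eval_X, Polynomial.eval_C] at hs ht
  obtain ⟨X', Y', h', hb'⟩ := hW.Wei_change ⟨Units.mk0 u hu0, r, s, t⟩
  refine ⟨X', Y', ?_, hb'.trans hb⟩
  convert h' using 1
  ext
  · simp only [WeierstrassCurve.variableChange_a₁, a₁, h2]
    ring
  · simp only [WeierstrassCurve.variableChange_a₂, a₁]
    refine (mul_eq_zero_of_right _ ?_).symm
    linear_combination 3 * hr + (2 * W.a₂ + s ^ 2) * h2
  · simp [WeierstrassCurve.variableChange_a₃, a₁, h2, hu, a₃]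
  · simp only [WeierstrassCurve.variableChange_a₄, a₁]
    refine (mul_eq_zero_of_right _ ?_).symm
    rw [hr]
    linear_combination hs + (2 * W.a₂ ^ 2 + 4 * W.a₂ * s ^ 2 + s ^ 4 - s * W.a₃ - s * t) * h2
  · simp only [WeierstrassCurve.variableChange_a₆, a₁]
    refine (mul_eq_zero_of_right _ ?_).symm
    linear_combination -ht

end PR0
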