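import Pool.Agent.Work.MP_da2620_ag.LiftD
import Mathlib
import Pool.Agent.Work.MP_da2620_ag.Arc
import Pool.Agent.Work.MP_da2620_ag.Wei

-- merged part: Pool.Agent.Work.MP_da2620_ag.Disk
section
-- merged part: Pool.Agent.Work.MP_da2620_ag.Lift
section
/-!
# Lifting a change of the function `x` from the special fibre

Set-up: `𝒜` is a model, `d` a chart of the smooth generic fibre `L`, `c` a chart of the comb `Y` on
the special fibre.  `Rd f f₀` says that `f ∈ L` belongs to `𝒜` and reduces to `f₀`.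
`exists_sec`: choose `u₀ ∈ c.reg` which is a uniformiser at the given smooth point with poles of exact
order `n` (large) at all points at infinity (`exists_ord_eq` on each component, matching values at the
nodes), lift it (`exists_lift`), apply `sec` and `exists_place_of_hom`.
`lift_step` (the new poles are finite points for the old chart).  Let `P i` be places given by
sections `σ i` through the new poles, `D = ∑ P i`.  Let `B` be the ring of fractions `a / s`, `a, s ∈ 𝒜`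
with the reduction of `s` nonzero on every component, `ρ : B → Y.Fn` the reduction; every `f ≠ 0` has a
primitive multiple, so `Lsp (n D) ∩ B` has a basis with independent reductions (`lat`).  These
reductions lie in `c'.reg` with pole order `≤ n`: for `m ∈ 𝒜` with `σ i m = 0` for all `i`, the product
`m ^ n f` lies in `𝒜` (it is in the generic fibre and in `B`, use primitive multiples), with pole order
at infinity at most that of `m ^ n`; choose `m` suitably for each place (reduction nonzero at a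
given point or node, or uniformiser at a new pole, or with unit leading coefficients at infinity).
By `riemann` and `finrank_lev` the reduction is onto `lev c'.alg n`.  So `c'.x` lifts to `x'` with
simple poles at the `P i` (`exists_cd`); `expand`, applied to the localisation of `𝒜` at the new pole
with parameter `1 / x'`, shows that the expansions of elements of `Lsp (n D) ∩ B` are integral and
reduce correctly; conclude by `crit`.
The new chart must be simple (`ν.2 < 1` on `J'`): otherwise `c'.x` need not lift.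
`IsMod` is defined in `LiftB`, `IsMod.genus` is proved in `LiftC`, `lift_step` in `LiftD`.
`lift`: go through an intermediate chart whose poles avoid both sets of poles (`exists_cc`).
`transl`: same functions, new parameter `t' = t / (1 + a t)`; `expand` for `B = O[[t]]`, `crit`.
-/

namespace PR0

universe u

variable {κ : Type u} [Field κ] [IsAlgClosed κ] {ι ι' T : Type} [Fintype ι] [DecidableEq ι]
  [Fintype ι'] [DecidableEq ι'] [Fintype T] {J : Finset (ι × ℕ)} {J' : Finset (ι' × ℕ)}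
  {L : Type u} [Field L] [Algebra (HF κ) L] [Fact (IsFF (HF κ) L)] {Y : Comb T κ}

/-- `f` lies in the model and reduces to `f₀`. -/
def Rd (𝒜 : Subalgebra (HO κ) (LT ι (HO κ))) (d : CD (HF κ) L ι) (c : Y.CC ι) (f : L) (f₀ : Y.Fn) :
    Prop := ∃ F ∈ 𝒜, mapT (inc κ) F = d.exT f ∧ mapT (red κ) F = c.exT f₀

/-- The place `q` specialises to the point `q₀` of the core. -/
def Sec (𝒜 : Subalgebra (HO κ) (LT ι (HO κ))) (d : CD (HF κ) L ι) (c : Y.CC ι)
    (q : Place (HF κ) L) (q₀ : Place κ Y.C.L) : Prop :=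
  d.x ∈ q.1 ∧ ∀ f f₀, Rd 𝒜 d c f f₀ → ∃ o : HO κ, q.val f = o ∧ red κ o = q₀.val f₀.1

variable {𝒜 : Subalgebra (HO κ) (LT ι (HO κ))} {d : CD (HF κ) L ι} {c : Y.CC ι}

theorem IsMod.Lift_rd (h : IsMod J 𝒜 d c) {f : L} {f₀ : Y.Fn} :
    Rd 𝒜 d c f f₀ ↔ ∃ F : 𝒜, h.up F = f ∧ h.dn F = f₀ :=
  ⟨fun ⟨F, hF, e1, e2⟩ => ⟨⟨F, hF⟩, h.LiftB_inj ((h.exT_up _).trans e1),
    c.exT_injective ((h.exT_dn _).trans e2)⟩,
    fun ⟨F, e1, e2⟩ => ⟨F, F.2, e1 ▸ (h.exT_up F).symm, e2 ▸ (h.exT_dn F).symm⟩⟩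

theorem IsMod.exists_rd (h : IsMod J 𝒜 d c) {f₀ : Y.Fn} (hf : f₀ ∈ c.reg) : ∃ f, Rd 𝒜 d c f f₀ := by
  obtain ⟨F, hF⟩ := h.dn_surj hf
  exact ⟨h.up F, h.Lift_rd.2 ⟨F, rfl, hF⟩⟩

/-- Sections through a smooth point of the core, with a prescribed value of a fixed nonconstant
function. -/
theorem IsMod.exists_sec (h : IsMod J 𝒜 d c) (q₀ : Place κ Y.C.L) (hq : c.d₀.x ∈ q₀.1)
    (hq' : ∀ j, q₀ ≠ Y.a j) : ∃ u ∈ d.reg, Transcendental (HF κ) u ∧ ∀ a : HF κ, 0 < hv a →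
      ∃ q : Place (HF κ) L, Sec 𝒜 d c q q₀ ∧ q.val u = a := by
  obtain ⟨U, n, hn, hU, -, -, hσ⟩ := h.exists_section (γ := none) (z := q₀)
    ((LiftA_x_mem c.d₀).1 hq) (fun ⟨j, e⟩ => hq' j e.symm)
  refine ⟨h.up U, h.up_mem U, fun ha => ?_, fun a ha => ?_⟩
  · obtain ⟨i⟩ := c.LiftA_nonempty
    have := Algebra.IsIntegral.adjoin (R := HF κ) (S := {h.up U}) (by simpa using ha.isIntegral)
    obtain ⟨r, hr⟩ := (IsAlgClosed.algebraMap_bijective_of_isIntegral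
      (k := HF κ) (K := Algebra.adjoin (HF κ) {h.up U})).2 ⟨_, Algebra.self_mem_adjoin_singleton _ _⟩
    have h1 : algebraMap (HF κ) L r = h.up U := congrArg Subtype.val hr
    have h2 := congrArg (fun F => (F i).cf (-n)) (h.exT_up U)
    rw [← h1, AlgHom.commutes] at h2
    have h3 := (hU i).map (inc κ)
    rw [← LS.cf_map] at h3
    refine h3.ne_zero (h2.symm.trans ?_)
    exact LS.ge_algebraMap r _ (by omega)
  · obtain ⟨σ, h1, h2, -⟩ := hσ ⟨a, mem_HO.2 ha.le⟩ (hres_eq_zero.2 ha)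
    obtain ⟨q, h3, h4⟩ := h.exists_place σ
    refine ⟨q, ⟨(LiftA_x_mem d).2 h3, fun f f₀ hf => ?_⟩, (h4 U).trans (by rw [h2]; rfl)⟩
    obtain ⟨F, rfl, rfl⟩ := h.Lift_rd.1 hf
    exact ⟨σ F, h4 F, h1 F⟩

theorem IsMod.lift (h : IsMod J 𝒜 d c) (c' : Y.CC ι') (hJ : IsChart J' c'.alg)
    (hJ1 : ∀ ν ∈ J', ν.2 < 1) :
    ∃ (𝒜' : Subalgebra (HO κ) (LT ι' (HO κ))) (d' : CD (HF κ) L ι'), IsMod J' 𝒜' d' c' := by
  classical
  obtain ⟨m, c'', n1, n2, p1, p2, -⟩ := Y.exists_cc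
    (Finset.univ.image c.d₀.pl ∪ Finset.univ.image c'.d₀.pl)
    (fun j => Finset.univ.image (c.dt j).pl ∪ Finset.univ.image (c'.dt j).pl) (2 * Y.genus)
  obtain ⟨J'', h1, h2⟩ := c''.exists_chart_simple
    (le_trans (Nat.mul_le_mul_left _ (Nat.le_add_right _ _)) n1) fun j =>
    le_trans (Nat.mul_le_mul_left _ ((Finset.single_le_sum (f := fun j => PR0.genus κ (Y.E j).L)
      (fun _ _ => Nat.zero_le _) (Finset.mem_univ j)).trans (Nat.le_add_left _ _))) (n2 j)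
  have key : ∀ γ, (∀ k, (c.dc γ).pl k ∉ Set.range (c''.dc γ).pl) ∧
      ∀ k, (c'.dc γ).pl k ∉ Set.range (c''.dc γ).pl := fun γ => by
    cases γ with
    | none =>
      exact ⟨fun k => (LiftA_x_mem c''.d₀).1 (p1 _ (Finset.mem_union_left _
          (Finset.mem_image_of_mem _ (Finset.mem_univ k)))),
        fun k => (LiftA_x_mem c''.d₀).1 (p1 _ (Finset.mem_union_right _
          (Finset.mem_image_of_mem _ (Finset.mem_univ k))))⟩
    | some j =>
      exact ⟨fun k => (LiftA_x_mem (c''.dt j)).1 (p2 j _ (Finset.mem_union_left _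
          (Finset.mem_image_of_mem _ (Finset.mem_univ k)))),
        fun k => (LiftA_x_mem (c''.dt j)).1 (p2 j _ (Finset.mem_union_right _
          (Finset.mem_image_of_mem _ (Finset.mem_univ k))))⟩
  obtain ⟨𝒜'', d'', h''⟩ := h.lift_step c'' h2 h1 fun γ k ⟨k', e⟩ => (key γ).1 k' ⟨k, e.symm⟩
  exact h''.lift_step c' hJ hJ1 fun γ => (key γ).2

theorem IsMod.transl (h : IsMod J 𝒜 d c) (a : HF κ) (ha : 0 < hv a) :
    ∃ (𝒜' : Subalgebra (HO κ) (LT ι (HO κ))) (d' : CD (HF κ) L ι), IsMod J 𝒜' d' c ∧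
      d'.x = d.x + algebraMap _ _ a ∧ d'.pl = d.pl ∧ ∀ f f₀, Rd 𝒜' d' c f f₀ ↔ Rd 𝒜 d c f f₀ := by
  have := c.LiftA_nonempty
  obtain ⟨o, rfl⟩ : ∃ o : HO κ, inc κ o = a := ⟨⟨a, mem_HO.2 ha.le⟩, rfl⟩
  have ho : red κ o = 0 := hres_eq_zero.2 ha
  have hm : ∀ P : Place (HF κ) L, d.x + algebraMap _ _ (inc κ o) ∈ P.1 ↔ d.x ∈ P.1 := fun P =>
    ⟨fun e => by simpa using sub_mem e (P.2.2 (inc κ o)), fun e => add_mem e (P.2.2 _)⟩
  obtain ⟨d', e1, e2⟩ := exists_cd (x := d.x + algebraMap _ _ (inc κ o)) d.inj (fun i => by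
      have h1 : ¬ (d.pl i).Ge (d.x + algebraMap _ _ (inc κ o)) 0 := fun e =>
        d.CD_x_notMem i ((hm _).1 ((Place.mem_iff _).2 e))
      have h0 : d.x + algebraMap _ _ (inc κ o) ≠ 0 := fun e => h1 (Or.inl e)
      have h2 : (d.pl i).Ge (d.x + algebraMap _ _ (inc κ o)) (-1) := by
        rw [d.ge_iff, map_add, d.ex_x, AlgHom.commutes]
        exact (LS.ge_T _).add ((LS.ge_algebraMap _).mono (by norm_num))
      have h3 := h2.resolve_left h0
      have h4 : ¬ 0 ≤ (d.pl i).ord (d.x + algebraMap _ _ (inc κ o)) := fun e => h1 (Or.inr e)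
      exact ⟨h0, by omega⟩)
    fun P hP => d.pole P fun e => hP ((hm P).2 e)
  have hr : d'.reg = d.reg := by rw [CD.reg, CD.reg, e2]
  obtain ⟨J'', hJ''⟩ := d'.exists_chart
  have fw : ∀ {f : L} {F : LT ι (HO κ)} {n : ℕ}, F ∈ 𝒜 → mapT (inc κ) F = d.exT f → Pole F n →
      ∃ F' ∈ lev (sat d'.alg) n, mapT (inc κ) F' = d'.exT f ∧
        mapT (red κ) F' = mapT (red κ) F := fun {f F n} hF e hn => by
    obtain ⟨F', h1, h2, h3⟩ := LiftD_transl e2 ho e1 e hn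
    have h4 : h.up ⟨F, hF⟩ = f := h.LiftB_inj ((h.exT_up _).trans e)
    exact ⟨F', ⟨⟨f, hr ▸ h4 ▸ h.up_mem _, h2.symm⟩, h1⟩, h2, h3⟩
  obtain ⟨h1, h2, h3⟩ := crit hJ'' h.ch_sp (by rw [d'.card_eq hJ'', d.card_eq h.ch_ge]) fun m =>
    ⟨m + J.sup (·.2) + 1, by omega, fun F ⟨hF, hp⟩ => by
      obtain ⟨F₀, k1, k2, rfl⟩ := h.ch.exists_lift LiftB_red_surj (h.sp.le hF)
        (fun ν hν => by have := Finset.le_sup (f := (·.2)) hν; omega) hp
      obtain ⟨F', k3, -, k4⟩ := fw k1 (h.exT_up ⟨F₀, k1⟩).symm k2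
      exact ⟨F', k3, k4⟩⟩
  have h' : IsMod J (sat d'.alg) d' c := ⟨h1, h2.symm, h3.symm⟩
  refine ⟨_, d', h', e1, e2, fun f f₀ => ⟨fun ⟨F, hF, k1, k2⟩ => ?_, fun ⟨F, hF, k1, k2⟩ => ?_⟩⟩
  · obtain ⟨n, hn⟩ := exists_pole F
    obtain ⟨F', -, k3, k4⟩ := LiftD_transl (d := d') (d' := d) e2.symm (a := -o)
      (by rw [map_neg, ho, neg_zero]) (by rw [e1, map_neg, map_neg, add_neg_cancel_right]) k1 hn
    have k5 : h'.up ⟨F, hF⟩ = f := h'.LiftB_inj ((h'.exT_up _).trans k1)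
    refine ⟨F', h.ch.mem_of_mapT LiftB_inc_inj ?_, k3, k4.trans k2⟩
    rw [k3]
    exact h.ge.le (⟨f, hr ▸ k5 ▸ h'.up_mem _, rfl⟩ : d.exT f ∈ d.alg)
  · obtain ⟨n, hn⟩ := exists_pole F
    obtain ⟨F', k3, k4, k5⟩ := fw hF k1 hn
    exact ⟨F', k3.1, k4, k5.trans k2⟩

variable {k K K' : Type u} [Field k] [Field K] [Field K'] [IsAlgClosed K] [IsAlgClosed K']
  [Algebra k K] [Algebra k K']

/-- A specialisation of chart points is realised by a model. -/
theorem exists_isMod {C : FFd K} {Y : Comb T K'} {A : Subalgebra K (LT ι K)} (h : C.sm.Has J A)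
    (c : Y.CC ι) (hc : IsChart J c.alg) {i₀ : ι} (hs : Spc k (coef i₀ J A) (coef i₀ J c.alg)) :
    ∃ (D : FFd (HF K')) (𝒜 : Subalgebra (HO K') (LT ι (HO K'))) (d : CD (HF K') D.L ι),
      IsMod J 𝒜 d c ∧ Spc k (coef i₀ J A) (coef i₀ J d.alg) ∧ Spc k (coef i₀ J d.alg) (coef i₀ J A) := by
  have : Nonempty ι := ⟨i₀⟩
  obtain ⟨d₁, rfl, hA⟩ := FFd.has_sm.1 h
  obtain ⟨𝒜, h1, h2, h3, h4⟩ := exists_model hA hc hs
  obtain ⟨L, _, _, _, d, hd⟩ := exists_cd_of_sm (h1.bc (inc K'))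
    (Sm.of_spc (h1.bc (inc K')) hA h4 d₁.sm)
  exact ⟨⟨L⟩, 𝒜, d, ⟨h1, hd, h2.symm⟩, hd ▸ h3, hd ▸ h4⟩

/-- One specialisation of chart points gives all. -/
theorem sp_of_spc {C : FFd K} {Y : Comb T K'} {A : Subalgebra K (LT ι K)}
    {A' : Subalgebra K' (LT ι K')} (h : C.sm.Has J A) (h' : Y.Has J A') {i₀ : ι}
    (hs : Spc k (coef i₀ J A) (coef i₀ J A')) : Comb.Sp k C.sm Y := by
  intro Ω' _ _ _ Y' ⟨φ, hφ⟩ ι₁ _ _ i₁ J₁ A₁ ⟨c₁, e₁, hc₁⟩ hJ₁
  subst e₁
  have : Nonempty ι := ⟨i₀⟩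
  have : Nonempty ι₁ := ⟨i₁⟩
  obtain ⟨c, e, hc⟩ := hφ.has h'
  obtain ⟨-, -, hA'⟩ := h'
  have h1 : Spc k (coef i₀ J A) (coef i₀ J c.alg) := by
    rw [e, hA'.coef_bc]
    exact hs.trans (Spc.map _ φ)
  obtain ⟨D, 𝒜, d, hm, h2, h3⟩ := exists_isMod h c (e ▸ hc) h1
  obtain ⟨𝒜₁, d₁, hm₁⟩ := hm.lift c₁ hc₁ hJ₁
  obtain ⟨Ω, _, _, _, D', h4, ψ, h5⟩ := le_of_conj h (FFd.has_sm.2 ⟨d, rfl, hm.ch_ge⟩) h2 h3
  refine ⟨Ω, _, _, ‹_›, D'.sm, _, h4, h5.has (FFd.has_sm.2 ⟨d₁, rfl, hm₁.ch_ge⟩), ?_⟩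
  rw [hm₁.ch_ge.coef_bc]
  refine (Spc.of_map _ ψ (ψ : HF Ω' →+* Ω).injective).trans ?_
  rw [hm₁.ge, hm₁.sp]
  exact hm₁.ch.spc_gen_spe i₁

theorem IsMod.sp' [Algebra k κ] {D : FFd (HF κ)} {d : CD (HF κ) D.L ι} (h : IsMod J 𝒜 d c) :
    Comb.Sp k D.sm Y := by
  obtain ⟨i₀⟩ := c.LiftA_nonempty
  have : Nonempty ι := ⟨i₀⟩
  refine sp_of_spc (i₀ := i₀) (FFd.has_sm.2 ⟨d, rfl, h.ch_ge⟩) ⟨c, rfl, h.ch_sp⟩ ?_
  rw [h.ge, h.sp]
  exact h.ch.spc_gen_spe i₀

end PR0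
end

-- merged part: Pool.Agent.Work.MP_da2620_ag.DiskA
section
/-!
# Substitutions in two variables, singular Weierstrass cubics
-/

namespace PR0

open Polynomial

section Ring

variable {A : Type*} [CommRing A]

/-- The substitution `X ↦ r + u X`, `Y ↦ t + s X + v Y`. -/
noncomputable def Disk_sb (r s t u v : A) : A[X][X] →+* A[X][X] :=
  eval₂RingHom (C.comp (compRingHom (C r + C u * X))) (C (C t + C s * X) + C (C v) * X)

theorem Disk_sb_eq (r s t u v : A) (P : A[X][X]) : Disk_sb r s t u v P =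
    (P.map (compRingHom (C r + C u * X))).comp (C (C t + C s * X) + C (C v) * X) :=
  (eval₂_map _ _ _).symm

theorem Disk_sb_C (r s t u v : A) (p : A[X]) :
    Disk_sb r s t u v (C p) = C (p.comp (C r + C u * X)) := eval₂_C _ _

theorem Disk_sb_X (r s t u v : A) :
    Disk_sb r s t u v X = C (C t + C s * X) + C (C v) * X := eval₂_X _ _

theorem Disk_sb_comp (r s t u v r' s' t' u' v' : A) (P : A[X][X]) :
    Disk_sb r' s' t' u' v' (Disk_sb r s t u v P) =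
      Disk_sb (r + u * r') (s * u' + v * s') (t + s * r' + v * t') (u * u') (v * v') P := by
  refine DFunLike.congr_fun (ringHom_ext (f := (Disk_sb r' s' t' u' v').comp (Disk_sb r s t u v))
    (fun p => ?_) ?_) P
  · simp only [RingHom.comp_apply, Disk_sb_C, comp_assoc, add_comp, mul_comp, C_comp, X_comp,
      map_add, map_mul]
    congr 2
    ring
  · simp only [RingHom.comp_apply, Disk_sb_C, Disk_sb_X, C_comp, X_comp, map_add, map_mul]
    ring

theorem Disk_sb_map {A' : Type*} [CommRing A'] (φ : A →+* A') (r s t u v : A) (P : A[X][X]) :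
    (Disk_sb r s t u v P).map (mapRingHom φ) =
      Disk_sb (φ r) (φ s) (φ t) (φ u) (φ v) (P.map (mapRingHom φ)) := by
  refine DFunLike.congr_fun (ringHom_ext
    (f := (mapRingHom (mapRingHom φ)).comp (Disk_sb r s t u v))
    (g := (Disk_sb (φ r) (φ s) (φ t) (φ u) (φ v)).comp (mapRingHom (mapRingHom φ)))
    (fun p => ?_) ?_) P
  · simp [Disk_sb_C, map_comp]
  · simp [Disk_sb_X]

theorem Disk_sb_scale (u v : A) (P : A[X][X]) (i j : ℕ) :
    ((Disk_sb 0 0 0 u v P).coeff j).coeff i = (P.coeff j).coeff i * u ^ i * v ^ j := by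
  rw [Disk_sb_eq, C_0, zero_mul, add_zero, C_0, zero_add, zero_add, comp_C_mul_X_coeff, ← C_pow,
    coeff_mul_C, coeff_map, coe_compRingHom_apply, comp_C_mul_X_coeff]

theorem Disk_sb_id (P : A[X][X]) : Disk_sb 0 0 0 1 1 P = P := by
  ext j i
  simp [Disk_sb_scale]

theorem Disk_sb_mul (r s t u v w : A) (Q : A[X][X]) :
    Disk_sb r s t u v (C (C w) * Q) = C (C w) * Disk_sb r s t u v Q := by
  rw [map_mul, Disk_sb_C, C_comp]

theorem Disk_sb_comm {u z w : A} (r s t : A) {P Q : A[X][X]}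
    (h : Disk_sb 0 0 0 u (u * z) P = C (C w) * Q) :
    Disk_sb 0 0 0 u (u * z) (Disk_sb (u * r) (z * s) (u * z * t) 1 1 P) =
      C (C w) * Disk_sb r s t 1 1 Q := by
  rw [← Disk_sb_mul, ← h, Disk_sb_comp, Disk_sb_comp]
  ring_nf

theorem Disk_sing_pt {r s t : A} {P : A[X][X]} (h0 : ((Disk_sb r s t 1 1 P).coeff 0).coeff 0 = 0)
    (h1 : ((Disk_sb r s t 1 1 P).coeff 0).coeff 1 = 0)
    (h2 : ((Disk_sb r s t 1 1 P).coeff 1).coeff 0 = 0) :
    (P.map (evalRingHom r)).eval t = 0 ∧ (P.derivative.map (evalRingHom r)).eval t = 0 ∧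
      ((P.eval (C t)).derivative).eval r = 0 := by
  have e : Disk_sb (-r) (-s) (s * r - t) 1 1 (Disk_sb r s t 1 1 P) = P := by
    rw [Disk_sb_comp]
    ring_nf
    exact Disk_sb_id P
  generalize Disk_sb r s t 1 1 P = Q at h0 h1 h2 e
  obtain ⟨a, ha⟩ : X ^ 2 ∣ Q.coeff 0 := X_pow_dvd_iff.2 fun d hd => by
    interval_cases d <;> assumption
  obtain ⟨b, hb⟩ : X ∣ Q.coeff 1 := X_dvd_iff.2 h2
  obtain ⟨c, hc⟩ : X ^ 2 ∣ Q - C (Q.coeff 0) - C (Q.coeff 1) * X := X_pow_dvd_iff.2 fun d hd => by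
    interval_cases d <;> simp
  rw [ha, hb, sub_sub, sub_eq_iff_eq_add] at hc
  rw [← e, hc]
  simp [Disk_sb_C, Disk_sb_X, sq, show s * r - t + -(s * r) + t = 0 by ring]

theorem Disk_sum {B : Type*} [CommRing B] (p : B[X]) (n : ℕ) (h : ∀ N, n < N → p.coeff N = 0) :
    p = ∑ i ∈ Finset.range (n + 1), C (p.coeff i) * X ^ i :=
  p.as_sum_range_C_mul_X_pow' (Nat.lt_succ_of_le (natDegree_le_iff_coeff_eq_zero.2 h))

theorem Disk_shape {R : A[X][X]} (h : ∀ i j, 6 < 2 * i + 3 * j → (R.coeff j).coeff i = 0)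
    (h1 : (R.coeff 2).coeff 0 = 1) (h2 : (R.coeff 0).coeff 3 = -1) :
    R = (⟨(R.coeff 1).coeff 1, -(R.coeff 0).coeff 2, (R.coeff 1).coeff 0, -(R.coeff 0).coeff 1,
      -(R.coeff 0).coeff 0⟩ : WeierstrassCurve A).toAffine.polynomial := by
  have e := Disk_sum R 2 fun N hN => Polynomial.ext fun i => h i N (by omega)
  have e0 := Disk_sum (R.coeff 0) 3 fun N hN => h N 0 (by omega)
  have e1 := Disk_sum (R.coeff 1) 1 fun N hN => h N 1 (by omega)
  have e2 := Disk_sum (R.coeff 2) 0 fun N hN => h N 2 (by omega)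
  simp only [Finset.sum_range_succ, Finset.range_zero, Finset.sum_empty, h1, h2] at e e0 e1 e2
  simp only [WeierstrassCurve.Affine.polynomial]
  generalize (R.coeff 0).coeff 0 = a at e0 ⊢
  generalize (R.coeff 0).coeff 1 = b at e0 ⊢
  generalize (R.coeff 0).coeff 2 = c at e0 ⊢
  generalize (R.coeff 1).coeff 0 = d at e1 ⊢
  generalize (R.coeff 1).coeff 1 = f at e1 ⊢
  rw [e, e0, e1, e2]
  simp only [map_add, map_mul, map_neg, map_pow, map_one, map_zero]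
  ring

theorem Disk_coeff (W : WeierstrassCurve A) :
    (W.toAffine.polynomial.coeff 0).coeff 0 = -W.a₆ ∧
      (W.toAffine.polynomial.coeff 0).coeff 1 = -W.a₄ ∧
      (W.toAffine.polynomial.coeff 0).coeff 2 = -W.a₂ ∧
      (W.toAffine.polynomial.coeff 1).coeff 0 = W.a₃ ∧
      (W.toAffine.polynomial.coeff 1).coeff 1 = W.a₁ := by
  simp only [W.toAffine.polynomial_eq, Cubic.coeff_eq_b, Cubic.coeff_eq_c, Cubic.coeff_eq_d,
    and_self]

theorem Disk_low {i j : ℕ} (h : 2 * i + 3 * j < 6) :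
    ((X ^ 2 - C (X ^ 3) : A[X][X]).coeff j).coeff i = 0 := by
  rw [coeff_sub, coeff_X_pow, if_neg (by omega), zero_sub, coeff_neg, coeff_C, neg_eq_zero]
  split_ifs
  · rw [coeff_X_pow, if_neg (by omega)]
  · rfl

end Ring

variable {K : Type*} [Field K]

theorem Disk_rigid {r s t : K}
    (h : ∀ i j, 2 * i + 3 * j < 6 →
      ((Disk_sb r s t 1 1 (X ^ 2 - C (X ^ 3))).coeff j).coeff i = 0) : r = 0 ∧ s = 0 ∧ t = 0 := by
  have e : Disk_sb r s t 1 1 (X ^ 2 - C (X ^ 3)) = (⟨2 * s, 3 * r - s ^ 2, 2 * t,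
      3 * r ^ 2 - 2 * s * t, r ^ 3 - t ^ 2⟩ : WeierstrassCurve K).toAffine.polynomial := by
    simp only [WeierstrassCurve.Affine.polynomial, map_sub, Disk_sb_C, Disk_sb_X, map_pow, X_comp,
      map_add, map_mul, map_one, map_ofNat]
    ring
  obtain ⟨h0, h1, h2, h3, -⟩ := Disk_coeff (⟨2 * s, 3 * r - s ^ 2, 2 * t,
    3 * r ^ 2 - 2 * s * t, r ^ 3 - t ^ 2⟩ : WeierstrassCurve K)
  rw [← e, h _ _ (by norm_num)] at h0 h1 h2 h3
  dsimp only at h0 h1 h2 h3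
  have ht : t = 0 := pow_eq_zero_iff two_ne_zero |>.1 (by
    linear_combination (-3) * h0 + r * h1 + (t - r * s) * h3)
  subst ht
  have hr : r = 0 := pow_eq_zero_iff three_ne_zero |>.1 (by linear_combination h0)
  subst hr
  exact ⟨rfl, pow_eq_zero_iff two_ne_zero |>.1 (by linear_combination -h2), rfl⟩

theorem Disk_shift (W : WeierstrassCurve K) (x y : K) : W.Δ =
    (⟨W.a₁, W.a₂ + 3 * x, 2 * y + W.a₁ * x + W.a₃, 3 * x ^ 2 + 2 * W.a₂ * x + W.a₄ - W.a₁ * y,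
      x ^ 3 + W.a₂ * x ^ 2 + W.a₄ * x + W.a₆ - (y ^ 2 + W.a₁ * x * y + W.a₃ * y)⟩ :
        WeierstrassCurve K).Δ := by
  simp only [WeierstrassCurve.Δ, WeierstrassCurve.b₂, WeierstrassCurve.b₄, WeierstrassCurve.b₆,
    WeierstrassCurve.b₈]
  ring

variable [IsAlgClosed K]

theorem Disk_sing (W : WeierstrassCurve K) (h : W.Δ = 0) : ∃ x y : K,
    2 * y + W.a₁ * x + W.a₃ = 0 ∧ 3 * x ^ 2 + 2 * W.a₂ * x + W.a₄ - W.a₁ * y = 0 ∧
      x ^ 3 + W.a₂ * x ^ 2 + W.a₄ * x + W.a₆ - (y ^ 2 + W.a₁ * x * y + W.a₃ * y) = 0 := by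
  by_cases h2 : (2 : K) = 0
  · have := CharTwo.of_one_ne_zero_of_two_eq_zero one_ne_zero h2
    by_cases h1 : W.a₁ = 0
    · rw [W.Δ_of_char_two, h1] at h
      have h3 : W.a₃ = 0 := pow_eq_zero_iff four_ne_zero |>.1 (by linear_combination h)
      obtain ⟨x, hx⟩ := IsAlgClosed.exists_eq_mul_self W.a₄
      obtain ⟨y, hy⟩ := IsAlgClosed.exists_eq_mul_self (x ^ 3 + W.a₂ * x ^ 2 + W.a₄ * x + W.a₆)
      rw [h1, h3]
      exact ⟨x, y, by linear_combination y * h2,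
        by linear_combination hx + (2 * x ^ 2 + W.a₂ * x) * h2, by linear_combination hy⟩
    · obtain ⟨x, hx⟩ : ∃ x, W.a₁ * x + W.a₃ = 0 := ⟨-W.a₃ / W.a₁, by field_simp; ring⟩
      obtain ⟨y, hy⟩ : ∃ y, 3 * x ^ 2 + 2 * W.a₂ * x + W.a₄ - W.a₁ * y = 0 :=
        ⟨(3 * x ^ 2 + 2 * W.a₂ * x + W.a₄) / W.a₁, by field_simp; ring⟩
      have h3 : 2 * y + W.a₁ * x + W.a₃ = 0 := by linear_combination hx + y * h2
      rw [Disk_shift W x y, h3, hy, WeierstrassCurve.Δ_of_char_two,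
        WeierstrassCurve.b₈_of_char_two] at h
      exact ⟨x, y, h3, hy, mul_left_cancel₀ (pow_ne_zero 6 h1) (by linear_combination h)⟩
  · have h4 : (4 : K) ≠ 0 := fun e => mul_ne_zero h2 h2 (by linear_combination e)
    obtain ⟨x, hx⟩ := IsAlgClosed.exists_root (Cubic.toPoly ⟨4, W.b₂, 2 * W.b₄, W.b₆⟩)
      (by rw [Cubic.degree_of_a_ne_zero h4]; norm_num)
    obtain ⟨y, hy⟩ : ∃ y, 2 * y + W.a₁ * x + W.a₃ = 0 :=
      ⟨-(W.a₁ * x + W.a₃) / 2, by field_simp; ring⟩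
    simp only [IsRoot, Cubic.toPoly, eval_add, eval_mul, eval_C, eval_pow, eval_X,
      WeierstrassCurve.b₂, WeierstrassCurve.b₄, WeierstrassCurve.b₆] at hx
    have h3 : x ^ 3 + W.a₂ * x ^ 2 + W.a₄ * x + W.a₆ - (y ^ 2 + W.a₁ * x * y + W.a₃ * y) = 0 :=
      mul_left_cancel₀ h4 (by linear_combination hx - (2 * y + W.a₁ * x + W.a₃) * hy)
    by_cases h5 : 3 * x ^ 2 + 2 * W.a₂ * x + W.a₄ - W.a₁ * y = 0
    · exact ⟨x, y, hy, h5, h3⟩
    rw [Disk_shift W x y, h3, hy] at h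
    simp only [WeierstrassCurve.Δ, WeierstrassCurve.b₂, WeierstrassCurve.b₄, WeierstrassCurve.b₆,
      WeierstrassCurve.b₈] at h
    obtain ⟨m, hm⟩ : ∃ m, W.a₁ ^ 2 + 4 * (W.a₂ + 3 * x) = -(4 * 4) * m :=
      ⟨-(W.a₁ ^ 2 + 4 * (W.a₂ + 3 * x)) / (4 * 4), by field_simp⟩
    rw [hm] at h
    have h6 : 3 * x ^ 2 + 2 * W.a₂ * x + W.a₄ - W.a₁ * y = 4 * m ^ 2 :=
      mul_left_cancel₀ (mul_ne_zero (pow_ne_zero 2 h5) (pow_ne_zero 3 h4))
        (by linear_combination -h)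
    exact ⟨x + 2 * m, y - W.a₁ * m, by linear_combination hy, by linear_combination h6 + m * hm,
      by linear_combination h3 + 2 * m * h6 + m ^ 2 * hm + W.a₁ * m * hy⟩

theorem Disk_form (W : WeierstrassCurve K) (h : W.Δ = 0) :
    ∃ x y l l' : K, W.c₄ = (l - l') ^ 4 ∧ W.toAffine.polynomial =
      (X - C (C y + C l * (X - C x))) * (X - C (C y + C l' * (X - C x))) - C ((X - C x) ^ 3) := by
  obtain ⟨x, y, h1, h2, h3⟩ := Disk_sing W h
  obtain ⟨l, hl⟩ := IsAlgClosed.exists_root (Cubic.toPoly ⟨0, 1, W.a₁, -(W.a₂ + 3 * x)⟩)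
    (by rw [Cubic.degree_of_b_ne_zero rfl one_ne_zero]; norm_num)
  simp only [IsRoot, Cubic.toPoly, eval_add, eval_mul, eval_C, eval_pow, eval_X] at hl
  obtain ⟨a₁, a₂, a₃, a₄, a₆⟩ := W
  dsimp only at h1 h2 h3 hl
  obtain rfl : a₂ = l ^ 2 + a₁ * l - 3 * x := by linear_combination -hl
  obtain rfl : a₃ = -(2 * y + a₁ * x) := by linear_combination h1
  obtain rfl : a₄ = a₁ * y - 3 * x ^ 2 - 2 * (l ^ 2 + a₁ * l - 3 * x) * x := by
    linear_combination h2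
  obtain rfl : a₆ = (l ^ 2 + a₁ * l - x) * x ^ 2 - y ^ 2 - a₁ * x * y := by linear_combination h3
  refine ⟨x, y, l, -a₁ - l, ?_, ?_⟩
  · simp only [WeierstrassCurve.c₄, WeierstrassCurve.b₂, WeierstrassCurve.b₄]
    ring
  · simp only [WeierstrassCurve.Affine.polynomial, map_sub, map_pow, map_add, map_mul, map_neg,
      map_ofNat]
    ring

theorem Disk_cusp (W : WeierstrassCurve K) (h : W.Δ = 0) (h' : W.c₄ = 0) :
    ∃ x l y : K, Disk_sb x l y 1 1 W.toAffine.polynomial = X ^ 2 - C (X ^ 3) := by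
  obtain ⟨x, y, l, l', h1, h2⟩ := Disk_form W h
  obtain rfl : l = l' := sub_eq_zero.1 (pow_eq_zero_iff four_ne_zero |>.1 (h1.symm.trans h'))
  refine ⟨x, l, y, ?_⟩
  simp only [h2, map_sub, Disk_sb_C, Disk_sb_X, map_pow, X_comp, C_comp, map_add, map_mul, map_one]
  ring

end PR0
end

-- merged part: Pool.Agent.Work.MP_da2620_ag.Disk
section
/-!
# The maximal cuspidal disc

`P ∈ O[X, Y]` reduces to `α Y² - β X³ +` terms of weight `> 6` (weights `2, 3`).  A shift `(r, s, t)` in the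
maximal ideal is admissible at level `γ > 0` if the coefficients `a i j` of `P(r + X, t + s X + Y)` satisfy
`hv (a i j) ≥ (6 - 2 i - 3 j) γ`.  If two shifts are admissible at level `γ` then they differ by a shift
with `hv r ≥ 2γ`, `hv s ≥ γ`, `hv t ≥ 3γ` (in the sense of composing shifts): otherwise at the smaller level
`γ₀ = min (hv r / 2, hv s, hv t / 3)` a nonzero shift over `κ` would preserve the form `α Y² - β X³`, but its
singular point and tangent are unique.  Some shift is admissible (`0`, for small `γ`).  By `sph` (for `r`, `s`,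
and `t` corrected by `s`) there is a shift admissible at all admissible levels.  The levels are bounded,
else `a 0 0 = a 1 0 = a 0 1 = 0`; the supremum `γ` is admissible.  If the cubic obtained at level `γ` by
reducing `τ ^ (-6γ) P(r + τ^(2γ) X, t + s τ^(2γ) X + τ^(3γ) Y)` could be shifted over `κ` to `α Y² - β X³`, a larger
level would be admissible.  Finally rescale `X, Y` and `P` by units to get a Weierstrass equation.
-/

namespace PR0

open Polynomial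

universe u

variable {κ : Type u} [Field κ] [IsAlgClosed κ]

/-- The cubic has a cusp. -/
def Cuspidal (W : WeierstrassCurve κ) : Prop := W.Δ = 0 ∧ W.c₄ = 0

theorem Disk_top {x y : WithTop ℝ} {a b : ℝ} (h : x + a = y + b) (c : ℝ) :
    (c : WithTop ℝ) ≤ x ↔ ((c + a - b : ℝ) : WithTop ℝ) ≤ y := by
  induction x using WithTop.recTopCoe <;> induction y using WithTop.recTopCoe
  · simp
  · exact absurd h.symm WithTop.coe_ne_top
  · exact absurd h WithTop.coe_ne_top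
  · norm_cast at h ⊢
    constructor <;> intro <;> linarith

theorem Disk_min {ι : Type*} {S : Set ι} (hS : S.Finite) (c : ι → ℝ) (x : ι → WithTop ℝ)
    (hc : ∀ k ∈ S, 0 < c k) (hx : ∀ k ∈ S, 0 < x k) (h : ∃ k ∈ S, x k ≠ ⊤) :
    ∃ γ : ℝ, 0 < γ ∧ (∀ k ∈ S, ((c k * γ : ℝ) : WithTop ℝ) ≤ x k) ∧
      ∃ k ∈ S, x k = (c k * γ : ℝ) := by
  obtain ⟨k, ⟨h1, h2⟩, h3⟩ := Set.exists_min_image {k ∈ S | x k ≠ ⊤}
    (fun k => (x k).untopD 0 / c k) (hS.subset fun _ h => h.1) h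
  obtain ⟨a, ha⟩ := WithTop.ne_top_iff_exists.1 h2
  have h4 := hx k h1
  simp only [← ha, WithTop.untopD_coe] at h3
  rw [← ha] at h4
  refine ⟨a / c k, div_pos (WithTop.coe_pos.1 h4) (hc k h1), fun l hl => ?_, k, h1, by
    rw [mul_div_cancel₀ _ (hc k h1).ne', ha]⟩
  by_cases h5 : x l = ⊤
  · exact h5 ▸ le_top
  obtain ⟨b, hb⟩ := WithTop.ne_top_iff_exists.1 h5
  have h6 := h3 l ⟨hl, h5⟩
  rw [← hb, WithTop.untopD_coe, le_div_iff₀' (hc l hl)] at h6
  exact hb ▸ WithTop.coe_le_coe.2 h6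

section Val

omit [IsAlgClosed κ]

theorem Disk_ne {x : HO κ} {γ : ℝ} (h : hv x.1 = γ) : x ≠ 0 := fun e =>
  WithTop.coe_ne_top (h.symm.trans (hv_eq_top.2 (congrArg Subtype.val e)))

theorem Disk_dvd {x y : HO κ} {γ : ℝ} (h : hv x.1 = γ) (h' : (γ : WithTop ℝ) ≤ hv y.1) :
    x ∣ y := by
  have h0 : x.1 ≠ 0 := fun e => Disk_ne h (Subtype.ext e)
  exact ⟨⟨y.1 / x.1, (Hahn_div h0).2 (h.trans_le h')⟩, Subtype.ext (mul_div_cancel₀ _ h0).symm⟩

theorem Disk_hv_mul (x y : HO κ) : hv (x * y).1 = hv x.1 + hv y.1 := hv_mul x.1 y.1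

theorem Disk_hv_pow {x : HO κ} {γ : ℝ} (h : hv x.1 = γ) (n : ℕ) :
    hv (x ^ n).1 = (n * γ : ℝ) := by
  rw [← nsmul_eq_mul, WithTop.coe_nsmul, ← h]
  exact hv_pow x.1 n

theorem Disk_sph {α : Type*} [Nonempty α] (a : α → HO κ) (ρ : α → ℝ) (h0 : ∀ i, hres (a i) = 0)
    (h1 : ∀ i, 0 < ρ i) (h : ∀ i j, ρ i ≤ ρ j → (ρ i : WithTop ℝ) ≤ hv (a j - a i).1) :
    ∃ x : HO κ, hres x = 0 ∧ ∀ i, (ρ i : WithTop ℝ) ≤ hv (x - a i).1 := by
  obtain ⟨x, hx⟩ := sph (fun i => (a i).1) ρ fun i j => by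
    rcases le_total (ρ i) (ρ j) with e | e
    · rw [min_eq_left e, ← hv_neg, neg_sub]
      exact h i j e
    · rw [min_eq_right e]
      exact h j i e
  obtain ⟨i⟩ := ‹Nonempty α›
  have h2 : 0 < hv x := by
    rw [← sub_add_cancel x (a i).1]
    exact (lt_min ((WithTop.coe_pos.2 (h1 i)).trans_le (hx i)) (hres_eq_zero.1 (h0 i))).trans_le
      (hv_add _ _)
  exact ⟨⟨x, h2.le⟩, hres_eq_zero.2 h2, hx⟩

/-- The reduction. -/
noncomputable abbrev Disk_bar (P : (HO κ)[X][X]) : κ[X][X] :=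
  P.map (mapRingHom (hres : HO κ →ₐ[κ] κ).toRingHom)

theorem Disk_bar_coeff (P : (HO κ)[X][X]) (i j : ℕ) :
    ((Disk_bar P).coeff j).coeff i = hres ((P.coeff j).coeff i) := by
  simp

theorem Disk_bar_sb (r s t : HO κ) (P : (HO κ)[X][X]) : Disk_bar (Disk_sb r s t 1 1 P) =
    Disk_sb (hres r) (hres s) (hres t) 1 1 (Disk_bar P) := by
  rw [Disk_bar, Disk_sb_map, map_one]
  rfl

theorem Disk_res {r s t : HO κ} (hr : hres r = 0) (hs : hres s = 0) (ht : hres t = 0)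
    (P : (HO κ)[X][X]) (i j : ℕ) :
    hres (((Disk_sb r s t 1 1 P).coeff j).coeff i) = hres ((P.coeff j).coeff i) := by
  rw [← Disk_bar_coeff, Disk_bar_sb, hr, hs, ht, Disk_sb_id, Disk_bar_coeff]

/-- Admissible at level `γ`. -/
def Disk_adm (γ : ℝ) (P : (HO κ)[X][X]) : Prop := ∀ i j : ℕ, 2 * i + 3 * j < 6 →
  (((6 - (2 * i + 3 * j)) * γ : ℝ) : WithTop ℝ) ≤ hv ((P.coeff j).coeff i).1

theorem Disk_wt {i j : ℕ} (h : 2 * i + 3 * j < 6) : (0 : ℝ) < 6 - (2 * i + 3 * j) := by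
  rw [sub_pos]
  exact_mod_cast h

theorem Disk_adm.mono {γ γ' : ℝ} {P : (HO κ)[X][X]} (h : Disk_adm γ P) (h' : γ' ≤ γ) :
    Disk_adm γ' P := fun i j e =>
  (WithTop.coe_le_coe.2 (mul_le_mul_of_nonneg_left h' (Disk_wt e).le)).trans (h i j e)

theorem Disk_max {P : (HO κ)[X][X]}
    (h0 : ∀ i j, 2 * i + 3 * j < 6 → hres ((P.coeff j).coeff i) = 0)
    (h : ∃ i j, 2 * i + 3 * j < 6 ∧ (P.coeff j).coeff i ≠ 0) :
    ∃ γ : ℝ, 0 < γ ∧ Disk_adm γ P ∧ ∀ ε, 0 < ε → ¬ Disk_adm (γ + ε) P := by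
  obtain ⟨i, j, h1, h2⟩ := h
  obtain ⟨γ, h3, h4, k, h5, h6⟩ := Disk_min (S := {k : ℕ × ℕ | 2 * k.1 + 3 * k.2 < 6})
    ((Set.finite_Iic (3, 2)).subset fun k (hk : 2 * k.1 + 3 * k.2 < 6) =>
      Prod.le_def.2 ⟨show k.1 ≤ 3 by omega, show k.2 ≤ 2 by omega⟩)
    (fun k => 6 - (2 * k.1 + 3 * k.2)) (fun k => hv ((P.coeff k.2).coeff k.1).1)
    (fun k hk => Disk_wt hk) (fun k hk => hres_eq_zero.1 (h0 _ _ hk))
    ⟨(i, j), h1, fun e => h2 (Subtype.ext (hv_eq_top.1 e))⟩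
  refine ⟨γ, h3, fun i j e => h4 (i, j) e, fun ε hε h7 => ?_⟩
  have h8 := WithTop.coe_le_coe.1 ((h7 _ _ h5).trans_eq h6)
  linarith [mul_pos (Disk_wt h5) hε]

theorem Disk_small {P : (HO κ)[X][X]}
    (h0 : ∀ i j, 2 * i + 3 * j < 6 → hres ((P.coeff j).coeff i) = 0) :
    ∃ γ : ℝ, 0 < γ ∧ Disk_adm γ P := by
  by_cases h : ∃ i j, 2 * i + 3 * j < 6 ∧ (P.coeff j).coeff i ≠ 0
  · exact (Disk_max h0 h).imp fun _ h => ⟨h.1, h.2.1⟩
  · push Not at h
    exact ⟨1, one_pos, fun i j e => le_top.trans_eq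
      (hv_eq_top.2 (congrArg Subtype.val (h i j e))).symm⟩

/-- Scaling factors of level `γ`. -/
structure Disk_lev (α β : κ) (γ : ℝ) (u z w : HO κ) : Prop where
  pos : 0 < γ
  hu : hv u.1 = (2 * γ : ℝ)
  hz : hv z.1 = γ
  hw : hv w.1 = (6 * γ : ℝ)
  ea : w = (u * z) ^ 2 * algebraMap κ (HO κ) α
  eb : w = -(u ^ 3 * algebraMap κ (HO κ) β)

variable {α β : κ} {γ : ℝ} {u z w : HO κ} {P Q : (HO κ)[X][X]}

theorem Disk_exists_lev (hα : α ≠ 0) (hβ : β ≠ 0) (hγ : 0 < γ) :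
    ∃ u z w, Disk_lev α β γ u z w := by
  let e : HO κ := ⟨τ κ γ, (WithTop.coe_nonneg.2 hγ.le).trans_eq (hv_τ γ).symm⟩
  have he : hv e.1 = γ := hv_τ γ
  have key : ∀ c : κ, c ≠ 0 → ∀ n : ℕ, hv (algebraMap κ (HO κ) c * e ^ n).1 = (n * γ : ℝ) :=
    fun c hc n => by
      rw [Disk_hv_mul, Disk_hv_pow he, show hv (algebraMap κ (HO κ) c).1 = 0 from hv_const hc,
        zero_add]
  refine ⟨algebraMap κ _ (-(α * β)) * e ^ 2, algebraMap κ _ (-β) * e ^ 1,
    algebraMap κ _ (α ^ 3 * β ^ 4) * e ^ 6, hγ, key _ (by simp [hα, hβ]) 2,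
    by simpa using key _ (neg_ne_zero.2 hβ) 1, key _ (by simp [hα, hβ]) 6, ?_, ?_⟩ <;>
  · simp only [map_neg, map_mul, map_pow]
    ring

namespace Disk_lev

variable (L : Disk_lev α β γ u z w)
include L

theorem hv' : hv (u * z).1 = (3 * γ : ℝ) := by
  rw [Disk_hv_mul, L.hu, L.hz, ← WithTop.coe_add]
  ring_nf

theorem mon (a : HO κ) (i j : ℕ) :
    hv (a * u ^ i * (u * z) ^ j).1 = hv a.1 + ((2 * i + 3 * j) * γ : ℝ) := by
  rw [Disk_hv_mul, Disk_hv_mul, Disk_hv_pow L.hu, Disk_hv_pow L.hv', add_assoc, ← WithTop.coe_add]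
  ring_nf

theorem exists_eq (h : Disk_adm γ P) : ∃ Q, Disk_sb 0 0 0 u (u * z) P = C (C w) * Q := by
  refine (C_dvd_iff_dvd_coeff _ _).2 fun j => (C_dvd_iff_dvd_coeff _ _).2 fun i =>
    Disk_dvd L.hw ?_
  rw [Disk_sb_scale, (Disk_top ((add_zero _).trans (L.mon _ i j)) _).trans Iff.rfl]
  by_cases e : 2 * i + 3 * j < 6
  · convert h i j e using 2
    ring
  · refine le_trans (WithTop.coe_le_zero.2 ?_) ((P.coeff j).coeff i).2
    have h1 : (6 : ℝ) ≤ 2 * i + 3 * j := by exact_mod_cast not_lt.1 e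
    nlinarith [L.pos]

variable (h : Disk_sb 0 0 0 u (u * z) P = C (C w) * Q)
include h

theorem co (i j : ℕ) : w * (Q.coeff j).coeff i = (P.coeff j).coeff i * u ^ i * (u * z) ^ j := by
  rw [← Disk_sb_scale, h, coeff_C_mul, coeff_C_mul]

theorem le_iff (i j : ℕ) (c : ℝ) : (c : WithTop ℝ) ≤ hv ((Q.coeff j).coeff i).1 ↔
    ((c + 6 * γ - (2 * i + 3 * j) * γ : ℝ) : WithTop ℝ) ≤ hv ((P.coeff j).coeff i).1 :=
  Disk_top (by rw [← L.mon, ← L.co h, Disk_hv_mul, L.hw, add_comm]) c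

theorem adm_iff (ε : ℝ) : Disk_adm ε Q ↔ Disk_adm (γ + ε) P := by
  refine forall₃_congr fun i j _ => ?_
  rw [L.le_iff h]
  ring_nf

theorem shape (hα : α ≠ 0) (hβ : β ≠ 0) (h1 : hres ((P.coeff 2).coeff 0) = α)
    (h2 : hres ((P.coeff 0).coeff 3) = β) :
    Disk_bar Q = (⟨hres ((Q.coeff 1).coeff 1), -hres ((Q.coeff 0).coeff 2),
      hres ((Q.coeff 1).coeff 0), -hres ((Q.coeff 0).coeff 1), -hres ((Q.coeff 0).coeff 0)⟩ :
        WeierstrassCurve κ).toAffine.polynomial := by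
  simp only [← Disk_bar_coeff Q]
  refine Disk_shape (fun i j e => ?_) ?_ ?_ <;> rw [Disk_bar_coeff]
  · have h3 : (7 : ℝ) ≤ 2 * i + 3 * j := by exact_mod_cast e
    refine hres_eq_zero.2 ((WithTop.coe_pos.2 L.pos).trans_le ((L.le_iff h i j γ).2
      (le_trans (WithTop.coe_le_zero.2 ?_) ((P.coeff j).coeff i).2)))
    nlinarith [L.pos]
  · have h3 : algebraMap κ (HO κ) α * (Q.coeff 2).coeff 0 = (P.coeff 2).coeff 0 :=
      mul_left_cancel₀ (pow_ne_zero 2 (Disk_ne L.hv'))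
        (by linear_combination L.co h 0 2 - (Q.coeff 2).coeff 0 * L.ea)
    rw [← h3, map_mul, AlgHom.commutes] at h1
    exact mul_left_cancel₀ hα (h1.trans (mul_one α).symm)
  · have h3 : -(algebraMap κ (HO κ) β * (Q.coeff 0).coeff 3) = (P.coeff 0).coeff 3 :=
      mul_left_cancel₀ (pow_ne_zero 3 (Disk_ne L.hu))
        (by linear_combination L.co h 3 0 - (Q.coeff 0).coeff 3 * L.eb)
    rw [← h3, map_neg, map_mul, AlgHom.commutes] at h2
    exact mul_left_cancel₀ hβ (by linear_combination -h2)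

theorem low {γ' : ℝ} (hγ : γ < γ') (ha : Disk_adm γ' P) (i j : ℕ) (e : 2 * i + 3 * j < 6) :
    hres ((Q.coeff j).coeff i) = 0 :=
  hres_eq_zero.2 ((WithTop.coe_pos.2 (mul_pos (Disk_wt e) (sub_pos.2 hγ))).trans_le
    ((L.adm_iff h (γ' - γ)).2 (by rwa [add_sub_cancel]) i j e))

end Disk_lev

/-- Closeness at level `γ`. -/
def Disk_cl (γ : ℝ) (r s t : HO κ) : Prop :=
  ((2 * γ : ℝ) : WithTop ℝ) ≤ hv r.1 ∧ (γ : WithTop ℝ) ≤ hv s.1 ∧ ((3 * γ : ℝ) : WithTop ℝ) ≤ hv t.1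

theorem Disk_keep (hγ : 0 < γ) (h : Disk_adm γ P) {r s t : HO κ} (hc : Disk_cl γ r s t) :
    Disk_adm γ (Disk_sb r s t 1 1 P) := by
  obtain ⟨u, z, w, L⟩ := Disk_exists_lev (one_ne_zero' κ) one_ne_zero hγ
  obtain ⟨Q, hQ⟩ := L.exists_eq h
  obtain ⟨r, rfl⟩ := Disk_dvd L.hu hc.1
  obtain ⟨s, rfl⟩ := Disk_dvd L.hz hc.2.1
  obtain ⟨t, rfl⟩ := Disk_dvd L.hv' hc.2.2
  rw [← add_zero γ, ← L.adm_iff (Disk_sb_comm r s t hQ)]
  intro i j _
  rw [mul_zero]
  exact mem_HO.1 (Subtype.prop _)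

theorem Disk_close (h1 : hres ((P.coeff 2).coeff 0) ≠ 0) (h2 : hres ((P.coeff 0).coeff 3) ≠ 0)
    {r s t : HO κ} (hr : hres r = 0) (hs : hres s = 0) (ht : hres t = 0) (h : Disk_adm γ P)
    (h' : Disk_adm γ (Disk_sb r s t 1 1 P)) : Disk_cl γ r s t := by
  by_contra hc
  obtain ⟨δ, hδ, h3, h4⟩ := Disk_min
    (S := ({(2, hv r.1), (1, hv s.1), (3, hv t.1)} : Set (ℝ × WithTop ℝ))) (Set.toFinite _)
    Prod.fst Prod.snd (by simp) (by simp [← hres_eq_zero, hr, hs, ht]) (by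
      by_contra! h3
      simp only [Set.mem_insert_iff, Set.mem_singleton_iff, forall_eq_or_imp, forall_eq] at h3
      exact hc ⟨h3.1 ▸ le_top, h3.2.1 ▸ le_top, h3.2.2 ▸ le_top⟩)
  simp only [Set.mem_insert_iff, Set.mem_singleton_iff, forall_eq_or_imp, forall_eq,
    exists_eq_or_imp, exists_eq_left, one_mul] at h3 h4
  have h5 : δ < γ := not_le.1 fun e => hc ⟨(WithTop.coe_le_coe.2 (by linarith)).trans h3.1,
    (WithTop.coe_le_coe.2 e).trans h3.2.1, (WithTop.coe_le_coe.2 (by linarith)).trans h3.2.2⟩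
  obtain ⟨u, z, w, L⟩ := Disk_exists_lev h1 h2 hδ
  obtain ⟨Q, hQ⟩ := L.exists_eq (h.mono h5.le)
  obtain ⟨r, rfl⟩ := Disk_dvd L.hu h3.1
  obtain ⟨s, rfl⟩ := Disk_dvd L.hz h3.2.1
  obtain ⟨t, rfl⟩ := Disk_dvd L.hv' h3.2.2
  have h6 : Disk_bar Q = X ^ 2 - C (X ^ 3) := by
    have h7 := L.low hQ h5 h
    rw [L.shape hQ h1 h2 rfl rfl, h7 1 1 (by norm_num), h7 2 0 (by norm_num), h7 0 1 (by norm_num),
      h7 1 0 (by norm_num), h7 0 0 (by norm_num)]
    simp [WeierstrassCurve.Affine.polynomial]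
  obtain ⟨h7, h8, h9⟩ := Disk_rigid (r := hres r) (s := hres s) (t := hres t) fun i j e => by
    rw [← h6, ← Disk_bar_sb, Disk_bar_coeff]
    exact L.low (Disk_sb_comm r s t hQ) h5 h' i j e
  have key : ∀ {x y : HO κ} {c : ℝ}, hv x.1 = c → hres y = 0 → hv (x * y).1 ≠ c :=
    fun hx hy e => by
      rw [Disk_hv_mul, hx] at e
      exact (hres_eq_zero.1 hy).ne' (WithTop.add_left_cancel WithTop.coe_ne_top
        (e.trans (add_zero _).symm))
  exact h4.elim (key L.hu h7) fun h4 => h4.elim (key L.hz h8) (key L.hv' h9)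

theorem Disk_sb_diff (r s t r' s' t' : HO κ) (P : (HO κ)[X][X]) : Disk_sb r' s' t' 1 1 P =
    Disk_sb (r' - r) (s' - s) (t' - (t + s * (r' - r))) 1 1 (Disk_sb r s t 1 1 P) := by
  rw [Disk_sb_comp]
  ring_nf

theorem Disk_best (h0 : ∀ i j, 2 * i + 3 * j < 6 → hres ((P.coeff j).coeff i) = 0)
    (h1 : hres ((P.coeff 2).coeff 0) ≠ 0) (h2 : hres ((P.coeff 0).coeff 3) ≠ 0) :
    ∃ r s t : HO κ, hres r = 0 ∧ hres s = 0 ∧ hres t = 0 ∧ ∀ (r' s' t' : HO κ) (γ : ℝ),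
      hres r' = 0 → hres s' = 0 → hres t' = 0 → 0 < γ → Disk_adm γ (Disk_sb r' s' t' 1 1 P) →
        Disk_adm γ (Disk_sb r s t 1 1 P) := by
  have key : ∀ {r s t r' s' t' : HO κ} {γ γ' : ℝ}, hres r = 0 → hres s = 0 → hres t = 0 →
      hres r' = 0 → hres s' = 0 → hres t' = 0 → Disk_adm γ (Disk_sb r s t 1 1 P) →
      Disk_adm γ' (Disk_sb r' s' t' 1 1 P) → γ ≤ γ' →
      Disk_cl γ (r' - r) (s' - s) (t' - (t + s * (r' - r))) :=
    fun {r s t r' s' t' γ γ'} hr hs ht hr' hs' ht' h h' e => Disk_close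
      (by rwa [Disk_res hr hs ht]) (by rwa [Disk_res hr hs ht]) (by simp [hr, hr'])
      (by simp [hs, hs']) (by simp [hs, ht, ht']) h (by rw [← Disk_sb_diff]; exact h'.mono e)
  let T := {p : (HO κ × HO κ × HO κ) × ℝ // hres p.1.1 = 0 ∧ hres p.1.2.1 = 0 ∧
    hres p.1.2.2 = 0 ∧ 0 < p.2 ∧ Disk_adm p.2 (Disk_sb p.1.1 p.1.2.1 p.1.2.2 1 1 P)}
  have : Nonempty T := by
    obtain ⟨γ, h3, h4⟩ := Disk_small h0
    exact ⟨⟨(0, γ), map_zero _, map_zero _, map_zero _, h3, (Disk_sb_id P).symm ▸ h4⟩⟩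
  have key' : ∀ p q : T, p.1.2 ≤ q.1.2 → _ := fun p q => key p.2.1 p.2.2.1 p.2.2.2.1 q.2.1
    q.2.2.1 q.2.2.2.1 p.2.2.2.2.2 q.2.2.2.2.2
  obtain ⟨r, hr, hr'⟩ := Disk_sph (fun p : T => p.1.1.1) (fun p => 2 * p.1.2) (fun p => p.2.1)
    (fun p => mul_pos two_pos p.2.2.2.2.1) fun p q e => (key' p q (by linarith)).1
  obtain ⟨s, hs, hs'⟩ := Disk_sph (fun p : T => p.1.1.2.1) (fun p => p.1.2) (fun p => p.2.2.1)
    (fun p => p.2.2.2.2.1) fun p q e => (key' p q e).2.1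
  have h3 : ∀ (p : T) (t : HO κ), ((3 * p.1.2 : ℝ) : WithTop ℝ) ≤
      hv (t - (p.1.1.2.2 + p.1.1.2.1 * (r - p.1.1.1))).1 → Disk_adm p.1.2 (Disk_sb r s t 1 1 P) :=
    fun p t h => by
      rw [Disk_sb_diff p.1.1.1 p.1.1.2.1 p.1.1.2.2]
      exact Disk_keep p.2.2.2.2.1 p.2.2.2.2.2 ⟨hr' p, hs' p, h⟩
  have h4 : ∀ p : T, hres (p.1.1.2.2 + p.1.1.2.1 * (r - p.1.1.1)) = 0 := fun p => by
    simp [p.2.2.1, p.2.2.2.1]
  have h5 : ∀ p : T, Disk_adm p.1.2
      (Disk_sb r s (p.1.1.2.2 + p.1.1.2.1 * (r - p.1.1.1)) 1 1 P) := fun p => h3 p _ (by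
    rw [sub_self]
    exact le_top.trans_eq (hv_eq_top.2 rfl).symm)
  obtain ⟨t, ht, ht'⟩ := Disk_sph (fun p : T => p.1.1.2.2 + p.1.1.2.1 * (r - p.1.1.1))
    (fun p => 3 * p.1.2) h4 (fun p => mul_pos three_pos p.2.2.2.2.1) fun p q e => by
      simpa only [sub_self, mul_zero, add_zero] using
        (key hr hs (h4 p) hr hs (h4 q) (h5 p) (h5 q) (by linarith)).2.2
  exact ⟨r, s, t, hr, hs, ht, fun r' s' t' γ a b c d e =>
    h3 ⟨((r', s', t'), γ), a, b, c, d, e⟩ t (ht' _)⟩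

end Val

/-- `P (X, Y)` is written as a polynomial in `Y` over `O[X]`.  The conclusion: `r, s, t` in the maximal
ideal, `u, v, w` with `hv u = 2γ`, `hv v = 3γ`, `hv w = 6γ`, `hv s ≥ 0`, and `Q` over `O` with
`P (r + u X, t + s X' + v Y) = w Q (X, Y)`, `X' = u X`, reducing to a non cuspidal Weierstrass cubic. -/
theorem exists_disk (P : (HO κ)[X][X])
    (h0 : ∀ i j, 2 * i + 3 * j < 6 → hres ((P.coeff j).coeff i) = 0)
    (h1 : hres ((P.coeff 2).coeff 0) ≠ 0) (h2 : hres ((P.coeff 0).coeff 3) ≠ 0)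
    (hs : ∀ r t : HO κ, hres r = 0 → hres t = 0 → (P.map (evalRingHom r)).eval t = 0 →
      (P.derivative.map (evalRingHom r)).eval t = 0 →
      ((P.eval (C t)).derivative).eval r ≠ 0) :
    ∃ (r s t u v w : HO κ) (Q : (HO κ)[X][X]) (W : WeierstrassCurve κ), hres r = 0 ∧ hres s = 0 ∧
      hres t = 0 ∧ u ≠ 0 ∧ v ≠ 0 ∧ w ≠ 0 ∧ hres u = 0 ∧ 3 • hv u.1 = 2 • hv v.1 ∧
      (P.map (compRingHom (C r + C u * X))).comp (C (C t + C (s * u) * X) + C (C v) * X) =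
        C (C w) * Q ∧
      Q.map (mapRingHom (hres : HO κ →ₐ[κ] κ).toRingHom) = W.toAffine.polynomial ∧ ¬ Cuspidal W := by
  obtain ⟨r, s, t, hr, hs', ht, hb⟩ := Disk_best h0 h1 h2
  obtain ⟨γ, hγ, h3, h4⟩ := Disk_max (P := Disk_sb r s t 1 1 P)
    (fun i j e => (Disk_res hr hs' ht P i j).trans (h0 i j e)) (by
      by_contra! h
      obtain ⟨a, b, c⟩ := Disk_sing_pt (h 0 0 (by norm_num)) (h 1 0 (by norm_num))
        (h 0 1 (by norm_num))
      exact hs r t hr ht a b c)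
  obtain ⟨u, z, w, L⟩ := Disk_exists_lev h1 h2 hγ
  obtain ⟨Q, hQ⟩ := L.exists_eq h3
  have hu : hres u = 0 := hres_eq_zero.2 (L.hu ▸ WithTop.coe_pos.2 (mul_pos two_pos hγ))
  have hz : hres z = 0 := hres_eq_zero.2 (L.hz ▸ WithTop.coe_pos.2 hγ)
  have hW := L.shape hQ h1 h2 (Disk_res hr hs' ht P 0 2) (Disk_res hr hs' ht P 3 0)
  refine ⟨r, s, t, u, u * z, w, Q, _, hr, hs', ht, Disk_ne L.hu, Disk_ne L.hv', Disk_ne L.hw, hu,
    ?_, ?_, hW, fun hc => ?_⟩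
  · rw [L.hu, L.hv', ← WithTop.coe_nsmul, ← WithTop.coe_nsmul]
    ring_nf
  · rw [← Disk_sb_eq, ← hQ, Disk_sb_comp]
    ring_nf
  · obtain ⟨x, l, y, e⟩ := Disk_cusp _ hc.1 hc.2
    obtain ⟨ε, hε, h5⟩ := Disk_small (P := Disk_sb (algebraMap κ (HO κ) x) (algebraMap κ _ l)
      (algebraMap κ _ y) 1 1 Q) fun i j h => by
        rw [← Disk_bar_coeff, Disk_bar_sb, AlgHom.commutes, AlgHom.commutes, AlgHom.commutes, hW]
        exact (congrArg (fun R : κ[X][X] => (R.coeff j).coeff i) e).trans (Disk_low h)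
    rw [L.adm_iff (Disk_sb_comm _ _ _ hQ), Disk_sb_comp, mul_one (1 : HO κ)] at h5
    exact h4 ε hε (hb _ _ _ _ (by simp [hr, hu]) (by simp [hs', hz]) (by simp [ht, hu])
      (add_pos hγ hε) h5)

/-- A singular non cuspidal cubic has a node. -/
theorem exists_node (W : WeierstrassCurve κ) (h : W.Δ = 0) (h' : ¬ Cuspidal W) :
    ∃ x y l l' : κ, l ≠ l' ∧ W.toAffine.polynomial =
      (X - C (C y + C l * (X - C x))) * (X - C (C y + C l' * (X - C x))) - C ((X - C x) ^ 3) := by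
  obtain ⟨x, y, l, l', h1, h2⟩ := Disk_form W h
  exact ⟨x, y, l, l', fun e => h' ⟨h, by simp [h1, e]⟩, h2⟩

end PR0
end

-- merged part: Pool.Agent.Work.MP_da2620_ag.GlueA
section
/-!
# Independent generic points of a curve: amalgamation
-/

namespace PR0

universe u

section Ind

variable {k K₀ K₁ K Ω : Type u} [Field k] [Field K₀] [Field K₁] [Field K] [Field Ω] {T : Type}

/-- Independence over the image of `φ`. -/
def GlueInd (φ : K₁ →+* K) (y : T → K) : Prop := @AlgebraicIndependent T K₁ K y _ _ φ.toAlgebra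

theorem GlueInd.map {φ : K₁ →+* K} {y : T → K} (h : GlueInd φ y) (α : K →+* Ω) :
    GlueInd (α.comp φ) fun j => α (y j) := by
  let _ := φ.toAlgebra
  let _ := (α.comp φ).toAlgebra
  exact AlgebraicIndependent.ringHom_of_comp_eq (RingHom.id K₁) α h Function.surjective_id
    α.injective rfl

theorem GlueInd.restrict {φ : K₁ →+* K} {y : T → K} (h : GlueInd φ y) (φ₀ : K₀ →+* K₁) :
    GlueInd (φ.comp φ₀) y := by
  let _ := φ.toAlgebra
  let _ := (φ.comp φ₀).toAlgebra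
  exact AlgebraicIndependent.of_ringHom_of_comp_eq φ₀ (RingHom.id K) h φ₀.injective rfl

theorem GlueInd.comp {T' : Type} {φ : K₁ →+* K} {y : T → K} (h : GlueInd φ y) (e : T' → T)
    (he : Function.Injective e) : GlueInd φ fun j => y (e j) := by
  let _ := φ.toAlgebra
  exact AlgebraicIndependent.comp h e he

theorem GlueInd.notMem {φ : K₁ →+* K} {y : T → K} (h : GlueInd φ y) (j : T) :
    y j ∉ Set.range φ := by
  let _ := φ.toAlgebra
  rintro ⟨c, hc⟩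
  exact AlgebraicIndependent.transcendental h j (hc ▸ isAlgebraic_algebraMap c)

theorem GlueInd_iff [Algebra k K₁] [Algebra k K] (φ : K₁ →ₐ[k] K) (y : T → K) :
    AlgebraicIndependent φ.fieldRange y ↔ GlueInd (φ : K₁ →+* K) y := by
  let _ := (φ : K₁ →+* K).toAlgebra
  let f : K₁ →+* φ.fieldRange := (φ : K₁ →+* K).codRestrict φ.fieldRange fun c => ⟨c, rfl⟩
  exact ⟨fun h => AlgebraicIndependent.of_ringHom_of_comp_eq f (RingHom.id K) h f.injective rfl,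
    fun h => AlgebraicIndependent.ringHom_of_comp_eq f (RingHom.id K) h
      (fun ⟨_, c, hc⟩ => ⟨c, Subtype.ext hc⟩) Function.injective_id rfl⟩

theorem Glue_ind_le [Algebra k K] {F F' : IntermediateField k K} (hF : F ≤ F') {y : T → K}
    (h : AlgebraicIndependent F' y) : AlgebraicIndependent F y :=
  AlgebraicIndependent.of_ringHom_of_comp_eq (IntermediateField.inclusion hF) (RingHom.id K) h
    (IntermediateField.inclusion_injective hF) rfl

theorem Glue_ind_of_alg [Algebra k K] [Finite T] {y z : T → K} (h : AlgebraicIndependent k y)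
    (hz : ∀ j, IsAlgebraic (Algebra.adjoin k (Set.range z)) (y j)) : AlgebraicIndependent k z :=
  indep_of_rk (le_rk_of_indep (h.comp _ (Finite.equivFin T).symm.injective) fun _ => hz _)

theorem Glue_alg_map [Algebra k K] [Algebra k Ω] (ψ : K →ₐ[k] Ω) {s : Set K} {t : Set Ω}
    (ht : ψ '' s ⊆ t) {z : K} (h : IsAlgebraic (Algebra.adjoin k s) z) :
    IsAlgebraic (Algebra.adjoin k t) (ψ z) := by
  rw [← Pt_mem_closure] at h ⊢
  rw [← Pt_comap ψ, Matroid.comap_closure_eq] at h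
  exact Matroid.closure_subset_closure _ ht h

end Ind

variable {K L K' L' : Type u} [Field K] [Field L] [Algebra K L] [Field K'] [Field L'] [Algebra K' L']
  [IsAlgClosed K] [IsAlgClosed K'] [Fact (IsFF K L)] {T : Type}

theorem Glue_alg_ff {u : L} (hu : Transcendental K u) (f : L) :
    IsAlgebraic (Algebra.adjoin K {u}) f := by
  have := finiteDimensional_of_transcendental hu
  exact IntermediateField.isAlgebraic_adjoin_iff.1 (Algebra.IsAlgebraic.isAlgebraic f)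

omit [IsAlgClosed K'] in
theorem GlueInd.change [Finite T] {φ : K →+* K'} {θ : T → L →+* K'}
    (hθ : ∀ j c, θ j (algebraMap K L c) = φ c) {u v : L} (h : GlueInd φ fun j => θ j u)
    (hv : Transcendental K v) : GlueInd φ fun j => θ j v := by
  let _ := φ.toAlgebra
  refine Glue_ind_of_alg (k := K) h fun j => ?_
  exact Glue_alg_map (⟨θ j, hθ j⟩ : L →ₐ[K] K') (by rintro _ ⟨_, rfl, rfl⟩; exact ⟨j, rfl⟩)
    (Glue_alg_ff hv u)

theorem Glue_reg_mem {ι : Type} [Fintype ι] [DecidableEq ι] (d : CD K L ι) {P : Place K L}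
    (hP : d.x ∈ P.1) {f : L} (hf : f ∈ d.reg) : f ∈ P.1 :=
  hf P fun h => (show P ∈ poles K d.x from d.poles_eq ▸ h) hP

omit [IsAlgClosed K] [IsAlgClosed K'] [Fact (IsFF K L)] in
theorem Glue_over_trans {K'' L'' : Type u} [Field K''] [Field L''] [Algebra K'' L'']
    {ψ : L →+* L'} {ψ' : L' →+* L''} {P : Place K L} {P' : Place K' L'} {P'' : Place K'' L''}
    (h : Over ψ P P') (h' : Over ψ' P' P'') : Over (ψ'.comp ψ) P P'' :=
  fun f => (h' (ψ f)).trans (h f)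

variable [Fact (IsFF K' L')] {φ : K →+* K'} {ψ : L →+* L'}

theorem Glue_transc (h : BC φ ψ) {u : L} (hu : Transcendental K u) : Transcendental K' (ψ u) := by
  rw [transcendental_iff] at hu ⊢
  rintro ⟨c, hc⟩
  obtain ⟨a, ha⟩ := const_of_regular (K := K) (f := u) fun P => by
    obtain ⟨P', o, -⟩ := h.exists_over P
    exact (o u).1 (hc ▸ P'.2.2 c)
  exact hu ⟨a, ha.symm⟩

theorem Glue_theta (h : BC φ ψ) {P : Place K' L'} {u : L} (hu : ψ u ∈ P.1)
    (hv : P.val (ψ u) ∉ Set.range φ) : ∃ θ : L →+* K', (∀ c, θ (algebraMap K L c) = φ c) ∧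
      ∀ f, ψ f ∈ P.1 ∧ P.val (ψ f) = θ f := by
  have ht : ∀ f, ψ f ∈ P.1 := (h.over_or P).resolve_left fun ⟨P₀, o⟩ =>
    hv ⟨_, (h.val o ((o u).1 hu)).symm⟩
  obtain ⟨σ, hσ⟩ := P.exists_ev (Algebra.adjoin K' (Set.range ψ)) fun f hf => by
    let A : Subalgebra K' L' := { P.1.toSubring with algebraMap_mem' := P.2.2 }
    exact Algebra.adjoin_le (S := A) (by rintro _ ⟨g, rfl⟩; exact ht g) hf
  refine ⟨(σ : _ →+* K').comp (ψ.codRestrict (Algebra.adjoin K' (Set.range ψ)) fun f =>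
    Algebra.subset_adjoin ⟨f, rfl⟩), fun c => (hσ _).trans ?_,
    fun f => ⟨ht f, (hσ ⟨ψ f, Algebra.subset_adjoin ⟨f, rfl⟩⟩).symm⟩⟩
  change P.val (ψ _) = _
  rw [h.comm, Place.val_const]

theorem Glue_fac {Ω M : Type u} [Field Ω] [IsAlgClosed Ω] [Field M] [Algebra Ω M]
    [Fact (IsFF Ω M)] (h : BC φ ψ) (α : K' →+* Ω) {χ : L →+* M} (hχ : BC (α.comp φ) χ) :
    ∃ χ' : L' →+* M, BC α χ' ∧ ∀ f, χ' (ψ f) = χ f := by
  obtain ⟨M', _, _, _, ψ', h'⟩ := exists_bc (L := L') α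
  obtain ⟨e, he⟩ := (h.trans h').unique hχ
  exact ⟨(e : M' →+* M).comp ψ', h'.trans (BC.of_equiv e), he⟩

theorem Glue_ext {Ω : Type u} [Field Ω] [IsAlgClosed Ω] (h : BC φ ψ) (α : K' →+* Ω) {θ : L →+* Ω}
    (hθ : ∀ c, θ (algebraMap K L c) = α (φ c)) {u : L} (hu : θ u ∉ Set.range α) :
    ∃ θ' : L' →+* Ω, (∀ c, θ' (algebraMap K' L' c) = α c) ∧ ∀ f, θ' (ψ f) = θ f := by
  obtain ⟨M, _, _, _, ψ', h'⟩ := exists_bc (L := L') α
  obtain ⟨P, hP, -⟩ := (h.trans h').exists_generic θ hθ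
  obtain ⟨θ', h1, h2⟩ := Glue_theta h' (u := ψ u) (hP u).1 (by
    rw [show P.val (ψ' (ψ u)) = θ u from (hP u).2]; exact hu)
  exact ⟨θ', h1, fun f => (h2 _).2.symm.trans (hP f).2⟩

omit [Fact (IsFF K' L')] in
theorem Glue_step {F M : Type u} [Field F] [IsAlgClosed F] [Algebra L F] [Algebra.IsAlgebraic L F]
    [Field M] [Algebra F M] [Fact (IsFF F M)] {χ : L →+* M}
    (hχ : BC ((algebraMap L F).comp (algebraMap K L)) χ) {n : ℕ} {θ : Fin (n + 1) → L →+* K'}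
    (hθ : ∀ j c, θ j (algebraMap K L c) = φ c) {u : L} (h : GlueInd φ fun j => θ j u) :
    ∃ (α : F →+* K') (θ' : Fin n → M →+* K'), (∀ f, α (algebraMap L F f) = θ 0 f) ∧
      (∀ j c, θ' j (algebraMap F M c) = α c) ∧ (∀ j f, θ' j (χ f) = θ j.succ f) ∧
      GlueInd α fun j => θ' j (χ u) := by
  obtain ⟨α, hα⟩ : ∃ α : F →+* K', ∀ f, α (algebraMap L F f) = θ 0 f := by
    let _ := (θ 0).toAlgebra
    exact ⟨(IsAlgClosed.lift : F →ₐ[L] K'), (IsAlgClosed.lift : F →ₐ[L] K').commutes⟩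
  have hu : Transcendental K u := transcendental_iff.2 fun ⟨c, hc⟩ =>
    h.notMem 0 ⟨c, by rw [← hc, hθ]⟩
  have hi : GlueInd α fun j : Fin n => θ j.succ u := by
    let _ := φ.toAlgebra
    let _ := α.toAlgebra
    have h1 : rk K (Set.range α) ≤ 1 := by
      refine (rk_le_of_alg (s := {θ 0 u}) ?_).trans
        ((rk_le_encard _).trans (Set.encard_singleton _).le)
      rintro _ ⟨z, rfl⟩
      refine alg_trans (t := Set.range (θ 0)) ?_ ?_
      · rintro _ ⟨f, rfl⟩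
        exact Glue_alg_map (⟨θ 0, hθ 0⟩ : L →ₐ[K] K') (by rintro _ ⟨_, rfl, rfl⟩; rfl)
          (Glue_alg_ff hu f)
      · let f : L →+* Algebra.adjoin K (Set.range (θ 0)) :=
          (θ 0).codRestrict _ fun c => Algebra.subset_adjoin ⟨c, rfl⟩
        exact (Algebra.IsAlgebraic.isAlgebraic (R := L) z).ringHom_of_comp_eq f α f.injective
          (RingHom.ext fun c => (hα c).symm)
    have h2 : ((n + 1 : ℕ) : ℕ∞) ≤ rk K (Set.range α ∪ Set.range fun j : Fin n => θ j.succ u) := by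
      rw [← rk_range_of_indep (k := K) h]
      refine rk_mono ?_
      rintro _ ⟨j, rfl⟩
      exact Fin.cases (Or.inl ⟨_, hα u⟩) (fun j => Or.inr ⟨j, rfl⟩) j
    rw [rk_union] at h2
    have h3 := h2.trans (add_le_add_left h1 _)
    rw [Nat.cast_add, Nat.cast_one, add_comm, ENat.add_le_add_iff_left ENat.one_ne_top] at h3
    have h4 := indep_of_rk (k := IntermediateField.adjoin K (Set.range α))
      (y := fun j : Fin n => θ j.succ u) (by simpa using h3)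
    let f : F →+* IntermediateField.adjoin K (Set.range α) :=
      α.codRestrict _ fun c => IntermediateField.subset_adjoin _ _ ⟨c, rfl⟩
    exact AlgebraicIndependent.of_ringHom_of_comp_eq f (RingHom.id K') h4 f.injective rfl
  choose θ' h1 h2 using fun j : Fin n => Glue_ext hχ α (θ := θ j.succ)
    (fun c => (hθ _ c).trans ((hθ 0 c).symm.trans (hα _).symm)) (hi.notMem j)
  exact ⟨α, θ', hα, h1, h2, by simpa only [h2] using hi⟩

theorem Glue_amalg_fin (n : ℕ) : ∀ {K₁ K K' L : Type u} [Field K₁] [Field K] [Field K'] [Field L]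
    [IsAlgClosed K₁] [IsAlgClosed K] [IsAlgClosed K'] [Algebra K₁ L] [Fact (IsFF K₁ L)]
    {φ : K₁ →+* K} {φ' : K₁ →+* K'} {θ : Fin n → L →+* K} {θ' : Fin n → L →+* K'}
    (_ : ∀ j c, θ j (algebraMap K₁ L c) = φ c) (_ : ∀ j c, θ' j (algebraMap K₁ L c) = φ' c)
    {u u' : L} (_ : GlueInd φ fun j => θ j u) (_ : GlueInd φ' fun j => θ' j u'),
    ∃ (Ω : Type u) (_ : Field Ω) (_ : IsAlgClosed Ω) (α : K →+* Ω) (α' : K' →+* Ω),
      (∀ c, α (φ c) = α' (φ' c)) ∧ ∀ j f, α (θ j f) = α' (θ' j f) := by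
  induction n with
  | zero =>
    intro K₁ K K' L _ _ _ _ _ _ _ _ _ φ φ' θ θ' _ _ u u' _ _
    let _ := φ.toAlgebra
    let _ := φ'.toAlgebra
    obtain ⟨Ω, _, _, α, α', h⟩ := Pt2_amalgam K₁ K K'
    exact ⟨Ω, _, ‹_›, α, α', h, fun j => j.elim0⟩
  | succ n ih =>
    intro K₁ K K' L _ _ _ _ _ _ _ _ _ φ φ' θ θ' hθ hθ' u u' h h'
    obtain ⟨M, _, _, _, χ, hχ⟩ := exists_bc (L := L)
      ((algebraMap L (AlgebraicClosure L)).comp (algebraMap K₁ L))
    obtain ⟨β, η, a1, a2, a3, a4⟩ := Glue_step hχ hθ h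
    obtain ⟨β', η', b1, b2, b3, b4⟩ := Glue_step hχ hθ' h'
    obtain ⟨Ω, _, _, α, α', c1, c2⟩ := ih a2 b2 a4 b4
    have h0 : ∀ f, α (θ 0 f) = α' (θ' 0 f) := fun f => by rw [← a1, ← b1, c1]
    refine ⟨Ω, _, ‹_›, α, α', fun c => by rw [← hθ 0, ← hθ' 0, h0], fun j f => ?_⟩
    exact Fin.cases (h0 f) (fun j => by rw [← a3, ← b3, c2]) j

omit [Fact (IsFF K' L')] in
theorem Glue_amalg [Finite T] {K'' : Type u} [Field K''] [IsAlgClosed K''] {φ' : K →+* K''}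
    {θ : T → L →+* K'} {θ' : T → L →+* K''} (hθ : ∀ j c, θ j (algebraMap K L c) = φ c)
    (hθ' : ∀ j c, θ' j (algebraMap K L c) = φ' c) {u u' : L} (h : GlueInd φ fun j => θ j u)
    (h' : GlueInd φ' fun j => θ' j u') :
    ∃ (Ω : Type u) (_ : Field Ω) (_ : IsAlgClosed Ω) (α : K' →+* Ω) (α' : K'' →+* Ω),
      (∀ c, α (φ c) = α' (φ' c)) ∧ ∀ j f, α (θ j f) = α' (θ' j f) := by
  let e := Finite.equivFin T
  obtain ⟨Ω, _, _, α, α', h1, h2⟩ := Glue_amalg_fin _ (θ := fun j => θ (e.symm j))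
    (θ' := fun j => θ' (e.symm j)) (fun _ => hθ _) (fun _ => hθ' _)
    (h.comp _ e.symm.injective) (h'.comp _ e.symm.injective)
  exact ⟨Ω, _, ‹_›, α, α', h1, fun j f => by simpa using h2 (e j) f⟩

/-- base change of a comb, keeping the numbering of the tails -/
theorem Glue_bc (X : Comb T K) (φ : K →+* K') : ∃ (X' : Comb T K') (ψ₀ : X.C.L →+* X'.C.L)
    (ψ : ∀ j, (X.E j).L →+* (X'.E j).L), BC φ ψ₀ ∧
      ∀ j, BC φ (ψ j) ∧ Over ψ₀ (X.a j) (X'.a j) ∧ Over (ψ j) (X.b j) (X'.b j) := by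
  obtain ⟨M, _, _, _, ψ₀, h₀⟩ := exists_bc (L := X.C.L) φ
  choose N i1 i2 i3 ψ h using fun j => exists_bc (L := (X.E j).L) φ
  choose a ha using fun j => (h₀.exists_over (X.a j)).exists
  choose b hb using fun j => ((h j).exists_over (X.b j)).exists
  exact ⟨⟨⟨M⟩, fun j => ⟨N j⟩, a, b, fun i j e => X.inj (h₀.over_inj (ha i) (e ▸ ha j))⟩, ψ₀, ψ, h₀,
    fun j => ⟨h j, ha j, hb j⟩⟩

end PR0
end

-- merged part: Pool.Agent.Work.MP_da2620_ag.GlueB
section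
/-!
# Constant tails, generic sections, gluing of models
-/

namespace PR0

universe u

section
variable {ι : Type} {R R' R'' : Type u} [CommRing R] [CommRing R'] [CommRing R'']

theorem Glue_mapT_mapT (φ : R →+* R') (ψ : R' →+* R'') (F : LT ι R) :
    mapT ψ (mapT φ F) = mapT (ψ.comp φ) F := funext fun _ => LS.ext fun _ => rfl

theorem Glue_mapT_id (F : LT ι R) : mapT (RingHom.id R) F = F := funext fun _ => LS.ext fun _ => rfl

end

variable {κ : Type u} [Field κ] [IsAlgClosed κ] {ι : Type} [Fintype ι] [DecidableEq ι]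
  {J : Finset (ι × ℕ)}

/-- A chart of a smooth curve as a chart of a comb. -/
def GlueSm {K : Type u} [Field K] [Nonempty ι] {E : FFd K} (d : CD K E.L ι) : E.sm.CC ι where
  ι₀ := ι
  ιt _ := Unit
  e := Equiv.sumEmpty _ _
  d₀ := d
  dt j := j.elim
  ha j := j.elim
  hb j := j.elim
  hv j := j.elim

omit [IsAlgClosed κ] in
theorem GlueSm_exT [Nonempty ι] {E : FFd κ} (d : CD κ E.L ι) (f : E.sm.Fn) :
    (GlueSm d).exT f = d.exT f.1 := funext fun i => (GlueSm d).exT_inl f i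

theorem GlueSm_alg [Nonempty ι] {E : FFd κ} (d : CD κ E.L ι) : (GlueSm d).alg = d.alg := by
  ext F
  constructor
  · rintro ⟨f, hf, rfl⟩
    exact ⟨f.1, ((GlueSm d).mem_reg.1 hf).1, (GlueSm_exT d f).symm⟩
  · rintro ⟨f, hf, rfl⟩
    exact ⟨(f, fun j => j.elim), (GlueSm d).mem_reg.2 ⟨hf, fun j => j.elim, fun j => j.elim⟩,
      GlueSm_exT d _⟩

omit [IsAlgClosed κ] in
theorem Glue_inc_comp : (inc κ).comp (algebraMap κ (HO κ)) = algebraMap κ (HF κ) :=
  (IsScalarTower.algebraMap_eq κ (HO κ) (HF κ)).symm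

omit [IsAlgClosed κ] in
theorem Glue_red_comp : (red κ).comp (algebraMap κ (HO κ)) = RingHom.id κ :=
  RingHom.ext fun c => (hres : HO κ →ₐ[κ] κ).commutes c

/-- The constant model of a tail, translated so that `x` has the value `ξ` at the node. -/
theorem Glue_tail [Nonempty ι] (E₀ : FFd κ) (d₀ : CD κ E₀.L ι) (h : IsChart J d₀.alg)
    (b₀ : Place κ E₀.L) (hb : d₀.x ∈ b₀.1) (ξ : HO κ) (hξ : red κ ξ = b₀.val d₀.x) :
    ∃ (E : FFd (HF κ)) (ψ : E₀.L →+* E.L) (b : Place (HF κ) E.L) (d : CD (HF κ) E.L ι)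
      (𝒜 : Subalgebra (HO κ) (LT ι (HO κ))), BC (algebraMap κ (HF κ)) ψ ∧ Over ψ b₀ b ∧
      IsChart J 𝒜 ∧ d.alg = gen' 𝒜 ∧ d₀.alg = spe 𝒜 ∧ d.x ∈ b.1 ∧ b.val d.x = ξ ∧
      ∀ F ∈ 𝒜, ∀ g g₀, mapT (inc κ) F = d.exT g → mapT (red κ) F = d₀.exT g₀ →
        ∃ o : HO κ, b.val g = o ∧ red κ o = b₀.val g₀ := by
  obtain ⟨M, _, _, _, ψ, hψ⟩ := exists_bc (L := E₀.L) (algebraMap κ (HF κ))
  obtain ⟨b, ho, -⟩ := hψ.exists_over b₀
  obtain ⟨d, hx, -, hex, halg, -⟩ := hψ.exists_cd d₀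
  have hm : IsMod J (bc (algebraMap κ (HO κ)) d₀.alg) d (GlueSm d₀) :=
    ⟨h.bc _, by rw [halg, gen', bc_bc, Glue_inc_comp],
      by rw [GlueSm_alg, spe, bc_bc, Glue_red_comp, bc_id]⟩
  have key : ∀ F ∈ bc (algebraMap κ (HO κ)) d₀.alg, ∃ g g₀, g ∈ b.1 ∧ g₀ ∈ b₀.1 ∧
      mapT (inc κ) F = d.exT g ∧ mapT (red κ) F = d₀.exT g₀ ∧
      ∃ o : HO κ, b.val g = o ∧ red κ o = b₀.val g₀ := by
    intro F hF
    rw [mem_bc] at hF
    induction hF using Submodule.span_induction with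
    | mem F hF =>
      obtain ⟨_, ⟨g₀, hg, rfl⟩, rfl⟩ := hF
      have h0 := Glue_reg_mem d₀ hb hg
      refine ⟨ψ g₀, g₀, (ho g₀).2 h0, h0, ?_, ?_, algebraMap κ _ (b₀.val g₀), hψ.val ho h0,
        (hres : HO κ →ₐ[κ] κ).commutes _⟩
      · rw [Glue_mapT_mapT, Glue_inc_comp, hex]; rfl
      · rw [Glue_mapT_mapT, Glue_red_comp, Glue_mapT_id]; rfl
    | zero =>
      refine ⟨0, 0, zero_mem _, zero_mem _, by simp, by simp, 0, ?_, ?_⟩
      · simpa using Place.val_const (P := b) 0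
      · simpa using (Place.val_const (P := b₀) 0).symm
    | add F G _ _ h1 h2 =>
      obtain ⟨g, g₀, a1, a2, a3, a4, o, a5, a6⟩ := h1
      obtain ⟨g', g₀', b1, b2, b3, b4, o', b5, b6⟩ := h2
      refine ⟨g + g', g₀ + g₀', add_mem a1 b1, add_mem a2 b2, by rw [map_add, map_add, a3, b3],
        by rw [map_add, map_add, a4, b4], o + o', ?_, ?_⟩
      · rw [Place.val_add a1 b1, a5, b5]; rfl
      · rw [Place.val_add a2 b2, map_add, a6, b6]
    | smul c F _ h1 =>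
      obtain ⟨g, g₀, a1, a2, a3, a4, o, a5, a6⟩ := h1
      refine ⟨algebraMap _ _ (inc κ c) * g, algebraMap _ _ (red κ c) * g₀, mul_mem (b.2.2 _) a1,
        mul_mem (b₀.2.2 _) a2, by rw [mapT_smul, ← Algebra.smul_def, map_smul, a3],
        by rw [mapT_smul, ← Algebra.smul_def, map_smul, a4], c * o, ?_, ?_⟩
      · rw [Place.val_mul (b.2.2 _) a1, Place.val_const, a5]; rfl
      · rw [Place.val_mul (b₀.2.2 _) a2, Place.val_const, map_mul, a6]
  have hpos : 0 < hv (ξ - algebraMap κ (HO κ) (b₀.val d₀.x) : HO κ).1 := hres_eq_zero.1 (by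
    rw [map_sub, AlgHom.commutes, ← hξ]; exact sub_self _)
  obtain ⟨𝒜, d', hm', hx', -, hr⟩ := hm.transl _ hpos
  have hxb : ψ d₀.x ∈ b.1 := (ho _).2 hb
  refine ⟨⟨M⟩, ψ, b, d', 𝒜, hψ, ho, hm'.ch, hm'.ge, (GlueSm_alg d₀).symm.trans hm'.sp, ?_, ?_,
    fun F hF g g₀ h1 h2 => ?_⟩
  · rw [hx', hx]; exact add_mem hxb (b.2.2 _)
  · rw [hx', hx, Place.val_add hxb (b.2.2 _), Place.val_const, hψ.val ho hb]
    exact add_sub_cancel _ _
  · have e0 := (GlueSm_exT d₀ (g₀, fun j => j.elim)).symm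
    obtain ⟨F₀, hF₀, h3, h4⟩ := (hr g (g₀, fun j => j.elim)).1 ⟨F, hF, h1, h2.trans e0⟩
    obtain ⟨g', g₀', -, -, a3, a4, o, a5, a6⟩ := key F₀ hF₀
    have e1 : g = g' := d.exT_injective (h3.symm.trans a3)
    have e2 : g₀ = g₀' := d₀.exT_injective (e0.trans (h4.symm.trans a4))
    exact ⟨o, e1 ▸ a5, e2 ▸ a6⟩

/-- Values of an integral function are integral over a fixed finite set and the value of `x`. -/
theorem Glue_int {K L : Type u} [Field K] [IsAlgClosed K] [Field L] [Algebra K L] [Fact (IsFF K L)]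
    [Nonempty ι] (d : CD K L ι) {v : L} (hv : v ∈ d.reg) : ∃ t : Set K, t.Finite ∧
      ∀ (R : Type u) [CommRing R] [Algebra R K] (q : Place K L), d.x ∈ q.1 →
        insert (q.val d.x) t ⊆ Set.range (algebraMap R K) → IsIntegral R (q.val v) := by
  have h1 : IsIntegral (Algebra.adjoin K {d.x}) v :=
    (mem_regOut_poles d.transcendental).1 (by rw [d.poles_eq]; exact hv)
  obtain ⟨P, hP, h0⟩ := h1
  let f : Polynomial K →+* Algebra.adjoin K {d.x} :=
    (Polynomial.aeval d.x : Polynomial K →ₐ[K] L).toRingHom.codRestrict _ fun p =>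
      Polynomial.aeval_mem_adjoin_singleton K d.x
  have hf : Function.Surjective f := fun ⟨y, hy⟩ => by
    rw [Algebra.adjoin_singleton_eq_range_aeval] at hy
    obtain ⟨p, rfl⟩ := hy
    exact ⟨p, rfl⟩
  obtain ⟨Q, hQ, -, hm⟩ := Polynomial.lifts_and_natDegree_eq_and_monic
    (Polynomial.mem_lifts_of_surjective hf P) hP
  refine ⟨⋃ p ∈ Q.coeffs, (p.coeffs : Set K),
    Q.coeffs.finite_toSet.biUnion fun p _ => p.coeffs.finite_toSet, fun R _ _ q hq ht => ?_⟩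
  obtain ⟨σ, hσ⟩ := q.exists_ev d.reg fun g hg => Glue_reg_mem d hq hg
  have hl : Q.map (Polynomial.evalRingHom (q.val d.x)) ∈ Polynomial.lifts (algebraMap R K) := by
    rw [Polynomial.lifts_iff_coeff_lifts]
    intro n
    rw [Polynomial.coeff_map, Polynomial.coe_evalRingHom]
    obtain ⟨r, hr⟩ := ht (Set.mem_insert _ _)
    by_cases hn : Q.coeff n = 0
    · exact ⟨0, by simp [hn]⟩
    obtain ⟨p, hp⟩ := (Polynomial.mem_lifts _).1 ((Polynomial.lifts_iff_coeffs_subset_range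
      (f := algebraMap R K) (Q.coeff n)).2 fun a ha => ht (Set.mem_insert_of_mem _
        (Set.mem_biUnion (Polynomial.coeff_mem_coeffs hn) ha)))
    exact ⟨p.eval r, by rw [← hp, ← hr, Polynomial.eval_map, Polynomial.eval₂_at_apply]⟩
  obtain ⟨Q', hQ', -, hm'⟩ := Polynomial.lifts_and_natDegree_eq_and_monic hl (hm.map _)
  refine ⟨Q', hm', ?_⟩
  rw [← Polynomial.eval_map, hQ', Polynomial.eval_map]
  let g : Polynomial K →ₐ[K] d.reg := Polynomial.aeval ⟨d.x, d.x_mem⟩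
  have e1 : Polynomial.eval₂ (g : Polynomial K →+* d.reg) ⟨v, hv⟩ Q = 0 := by
    apply Subtype.val_injective
    change d.reg.val.toRingHom _ = 0
    rw [Polynomial.hom_eval₂, ← h0, ← hQ, Polynomial.eval₂_map]
    congr 1
    exact RingHom.ext fun p => (Polynomial.aeval_algHom_apply d.reg.val _ p).symm
  have e2 := congrArg (σ : d.reg →+* K) e1
  rw [Polynomial.hom_eval₂, map_zero] at e2
  rw [← e2]
  congr 1
  · refine RingHom.ext fun p => ?_
    have := Polynomial.aeval_algHom_apply σ ⟨d.x, d.x_mem⟩ p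
    rw [hσ, Polynomial.coe_aeval_eq_eval] at this
    exact this
  · exact (hσ ⟨v, hv⟩).symm

/-- Sections with independent values of `x`. -/
theorem Glue_secs {k : Type u} [Field k] [Algebra k κ] {T T' : Type} [Fintype T] [Finite T']
    [Nonempty ι] {L : Type u} [Field L] [Algebra (HF κ) L] [Fact (IsFF (HF κ) L)] {Y : Comb T κ}
    {𝒜 : Subalgebra (HO κ) (LT ι (HO κ))} {d : CD (HF κ) L ι} {c : Y.CC ι} (h : IsMod J 𝒜 d c)
    (q₀ : T' → Place κ Y.C.L) (hq : ∀ j, c.d₀.x ∈ (q₀ j).1) (hq' : ∀ j i, q₀ j ≠ Y.a i)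
    {s : Set (HF κ)} (hs : rk k s ≠ ⊤) : ∃ q : T' → Place (HF κ) L,
      (∀ j, Sec 𝒜 d c (q j) (q₀ j)) ∧
      AlgebraicIndependent (IntermediateField.adjoin k s) fun j => (q j).val d.x := by
  choose v hv _ hsec using fun j => h.exists_sec (q₀ j) (hq j) (hq' j)
  choose t ht hint using fun j => Glue_int d (hv j)
  have hs' : rk k (s ∪ ⋃ j, t j) ≠ ⊤ := ne_top_of_le_ne_top (WithTop.add_ne_top.2 ⟨hs,
    ne_top_of_le_ne_top (Set.finite_iUnion ht).encard_lt_top.ne (rk_le_encard _)⟩) (rk_union_le _ _)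
  obtain ⟨y, hy, hi⟩ := gens hs' (fun _ : T' => 0) fun _ => 1
  choose q h1 h2 using fun j => hsec j (y j) (by
    have := hy j
    rw [sub_zero] at this
    rw [this]; exact WithTop.coe_pos.2 one_pos)
  refine ⟨q, h1, Glue_ind_le (IntermediateField.adjoin.mono _ _ _ Set.subset_union_left)
    (Glue_ind_of_alg hi fun j => ?_)⟩
  rw [← h2]
  refine (hint j _ (q j) (h1 j).1 (Set.insert_subset ⟨⟨_, Algebra.subset_adjoin ⟨j, rfl⟩⟩, rfl⟩
    fun a ha => ⟨algebraMap (IntermediateField.adjoin k (s ∪ ⋃ j, t j)) _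
      ⟨a, IntermediateField.subset_adjoin _ _ (Or.inr (Set.mem_iUnion.2 ⟨j, ha⟩))⟩, rfl⟩)).isAlgebraic

section
variable {K : Type u} [Field K] {S T T' : Type}

/-- The comb formed by the core and the tails `e (inl j)`. -/
def GlueOld (Y : Comb S K) (e : T ⊕ T' ≃ S) : Comb T K where
  C := Y.C
  E j := Y.E (e (.inl j))
  a j := Y.a (e (.inl j))
  b j := Y.b (e (.inl j))
  inj := Y.inj.comp (e.injective.comp Sum.inl_injective)

/-- The restricted chart. -/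
def GlueOldCC {Y : Comb S K} (c : Y.CC ι) (e : T ⊕ T' ≃ S) :
    (GlueOld Y e).CC (c.ι₀ ⊕ Σ j : T, c.ιt (e (.inl j))) where
  ι₀ := c.ι₀
  ιt j := c.ιt (e (.inl j))
  e := Equiv.refl _
  d₀ := c.d₀
  dt j := c.dt (e (.inl j))
  ha _ := c.ha _
  hb _ := c.hb _
  hv _ := c.hv _

/-- Regrouping the points at infinity. -/
def GlueIdx {Y : Comb S K} (c : Y.CC ι) (e : T ⊕ T' ≃ S) :
    (c.ι₀ ⊕ Σ j : T, c.ιt (e (.inl j))) ⊕ (Σ j : T', c.ιt (e (.inr j))) ≃ ι :=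
  (Equiv.sumAssoc _ _ _).trans ((Equiv.sumCongr (Equiv.refl _)
    ((Equiv.sumSigmaDistrib fun x => c.ιt (e x)).symm.trans (Equiv.sigmaCongrLeft e))).trans c.e)

omit [Fintype ι] [DecidableEq ι] in
theorem GlueIdx_old {Y : Comb S K} (c : Y.CC ι) (e : T ⊕ T' ≃ S) (f : Y.Fn)
    (i : c.ι₀ ⊕ Σ j : T, c.ιt (e (.inl j))) : c.exT f (GlueIdx c e (.inl i)) =
      (GlueOldCC c e).exT (f.1, fun j => f.2 (e (.inl j))) i := by
  rcases i with i | ⟨j, i⟩
  · exact (c.exT_inl f i).trans ((GlueOldCC c e).exT_inl (f.1, fun j => f.2 (e (.inl j))) i).symm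
  · exact (c.exT_inr f _ i).trans
      ((GlueOldCC c e).exT_inr (f.1, fun j => f.2 (e (.inl j))) j i).symm

end

/-- Gluing a model of the old part and models of the new tails along sections. -/
theorem Glue_mod {k : Type u} [Field k] [Algebra k κ] {S T T' : Type} [Fintype S] [Fintype T]
    [Fintype T'] [DecidableEq T] {Y : Comb S κ} (c : Y.CC ι) (hc : IsChart J c.alg) (e : T ⊕ T' ≃ S)
    {J₀ : Finset (c.ι₀ × ℕ)} {Jt : ∀ j, Finset (c.ιt j × ℕ)} (hJ : c.Split J J₀ Jt)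
    {J₁ : Finset ((c.ι₀ ⊕ Σ j : T, c.ιt (e (.inl j))) × ℕ)}
    (hJ₁ : (GlueOldCC c e).Split J₁ J₀ fun j => Jt (e (.inl j))) {X : Comb T' (HF κ)}
    {𝒜 : Subalgebra (HO κ) (LT _ (HO κ))} {d : CD (HF κ) X.C.L _}
    (h : IsMod J₁ 𝒜 d (GlueOldCC c e))
    (hs : ∀ j, Sec 𝒜 d (GlueOldCC c e) (X.a j) (Y.a (e (.inr j))))
    (dt : ∀ j, CD (HF κ) (X.E j).L (c.ιt (e (.inr j))))
    (ℬ : ∀ j, Subalgebra (HO κ) (LT (c.ιt (e (.inr j))) (HO κ)))
    (ht : ∀ j, IsChart (Jt _) (ℬ j) ∧ (dt j).alg = gen' (ℬ j) ∧ (c.dt _).alg = spe (ℬ j) ∧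
      (dt j).x ∈ (X.b j).1 ∧ (X.b j).val (dt j).x = (X.a j).val d.x ∧
      ∀ F ∈ ℬ j, ∀ g g₀, mapT (inc κ) F = (dt j).exT g → mapT (red κ) F = (c.dt _).exT g₀ →
        ∃ o : HO κ, (X.b j).val g = o ∧ red κ o = (Y.b (e (.inr j))).val g₀) (i₀ : ι) :
    ∃ A, X.Has J A ∧ Spc k (coef i₀ J A) (coef i₀ J c.alg) := by
  have : Nonempty ι := ⟨i₀⟩
  let c' : X.CC ι :=
    { ι₀ := c.ι₀ ⊕ Σ j : T, c.ιt (e (.inl j))
      ιt j := c.ιt (e (.inr j))
      e := GlueIdx c e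
      d₀ := d
      dt := dt
      ha j := (hs j).1
      hb j := (ht j).2.2.2.1
      hv j := (ht j).2.2.2.2.1.symm }
  have hsp : c'.Split J J₁ fun j => Jt (e (.inr j)) := by
    refine ⟨?_, fun j μ => hJ.2 _ μ⟩
    rintro ⟨i | ⟨j, i⟩, n⟩
    · exact (hJ₁.1 (i, n)).symm.trans (hJ.1 (i, n))
    · exact (hJ₁.2 j (i, n)).symm.trans (hJ.2 _ (i, n))
  have hc' : IsChart J c'.alg := (c'.isChart_iff hsp).2
    ⟨(congrArg (IsChart J₁) h.ge).mpr (h.ch.bc _),
      fun j => (congrArg (IsChart _) (ht j).2.1).mpr ((ht j).1.bc _)⟩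
  have hred : Function.Surjective (red κ) := fun a =>
    ⟨algebraMap κ _ a, (hres : HO κ →ₐ[κ] κ).commutes a⟩
  refine (crit hc' hc rfl fun m => ?_).elim fun h1 ⟨h2, h3⟩ =>
    ⟨_, ⟨c', rfl, hc'⟩, by simpa only [h2, h3] using h1.spc_gen_spe (k := k) i₀⟩
  refine ⟨max m (J.sup (·.2) + 1), le_max_left _ _, ?_⟩
  generalize hn : max m (J.sup (·.2) + 1) = n
  have hJn : ∀ ν ∈ J, ν.2 < n := fun ν hν =>
    hn ▸ (Nat.lt_succ_of_le (Finset.le_sup (f := (·.2)) hν)).trans_le (le_max_right _ _)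
  rintro _ ⟨⟨f, hf, rfl⟩, hp⟩
  obtain ⟨f1, f2, f3⟩ := c.mem_reg.1 hf
  obtain ⟨F, hF, pF, rF⟩ := h.ch.exists_lift hred
    (F := (GlueOldCC c e).exT (f.1, fun j => f.2 (e (.inl j))))
    (h.sp.le ⟨(f.1, fun j => f.2 (e (.inl j))),
      (GlueOldCC c e).mem_reg.2 ⟨f1, fun j => f2 _, fun j => f3 _⟩, rfl⟩) (n := n)
    (fun ν hν => hJn _ ((hsp.1 ν).1 hν)) fun i => by rw [← GlueIdx_old]; exact hp _
  obtain ⟨g, hg, eg⟩ : mapT (inc κ) F ∈ d.alg := h.ge ▸ Algebra.subset_adjoin ⟨F, hF, rfl⟩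
  have tl : ∀ j, ∃ (G : LT _ (HO κ)) (g' : (X.E j).L), Pole G n ∧ g' ∈ (dt j).reg ∧
      mapT (inc κ) G = (dt j).exT g' ∧ mapT (red κ) G = (c.dt _).exT (f.2 (e (.inr j))) ∧
      (X.a j).val g = (X.b j).val g' := by
    intro j
    obtain ⟨t1, t2, t3, t4, -, t6⟩ := ht j
    obtain ⟨G, hG, pG, rG⟩ := t1.exists_lift hred (F := (c.dt _).exT (f.2 (e (.inr j))))
      (t3.le ⟨_, f2 _, rfl⟩) (n := n) (fun ν hν => hJn _ ((hsp.2 j ν).1 hν))
      fun i => by rw [CD.exT_apply, ← c.exT_inr]; exact hp _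
    obtain ⟨g', hg', eg'⟩ : mapT (inc κ) G ∈ (dt j).alg := t2 ▸ Algebra.subset_adjoin ⟨G, hG, rfl⟩
    obtain ⟨o, o1, o2⟩ := (hs j).2 g _ ⟨F, hF, eg.symm, rF⟩
    obtain ⟨o', o3, o4⟩ := t6 G hG g' _ eg'.symm rG
    refine ⟨G + algebraMap _ _ (o - o'), g' + algebraMap _ _ (inc κ (o - o')),
      fun i => (pG i).add ((LS.ge_algebraMap _).mono (by omega)),
      add_mem hg' (Subalgebra.algebraMap_mem _ _), ?_, ?_, ?_⟩
    · rw [map_add, map_add, mapT_algebraMap, AlgHom.commutes]; exact congrArg (· + _) eg'.symm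
    · rw [map_add, mapT_algebraMap, rG, map_sub, o2, o4, ← f3]
      exact (congrArg (_ + ·) ((congrArg _ (sub_self _)).trans (map_zero _))).trans (add_zero _)
    · rw [Place.val_add (Glue_reg_mem _ t4 hg') ((X.b j).2.2 _), Place.val_const, o1, o3]
      exact (add_sub_cancel _ _).symm
  choose G g' p1 p2 p3 p4 p5 using tl
  refine ⟨fun i => Sum.elim F (fun x => G x.1 x.2) ((GlueIdx c e).symm i), ⟨⟨(g, g'),
    c'.mem_reg.2 ⟨hg, p2, p5⟩, funext fun i => ?_⟩, fun i => ?_⟩, funext fun i => ?_⟩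
  all_goals obtain ⟨x, rfl⟩ := (GlueIdx c e).surjective i
  · change _ = LS.map _ (Sum.elim _ _ _)
    rw [Equiv.symm_apply_apply]
    rcases x with i | ⟨j, i⟩
    · exact (c'.exT_inl _ i).trans (congrFun eg i)
    · exact (c'.exT_inr _ j i).trans (congrFun (p3 j) i).symm
  · simp only [Equiv.symm_apply_apply]
    rcases x with i | ⟨j, i⟩
    · exact pF i
    · exact p1 j i
  · change LS.map _ (Sum.elim _ _ _) = _
    rw [Equiv.symm_apply_apply]
    rcases x with i | ⟨j, i⟩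
    · exact (congrFun rF i).trans (GlueIdx_old c e f i).symm
    · exact (congrFun (p4 j) i).trans (c.exT_inr f _ i).symm

end PR0
end

-- merged part: Pool.Agent.Work.MP_da2620_ag.Glue
section
/-!
# Attaching constant tails at generic points

`genu`: the places `a j` are trivial on `C.L` and give embeddings `θ j : C.L → K` over `K₁`.  By
induction on the number of tails build isomorphic subfields: if `F ⊆ K`, `F' ⊆ K'` are algebraically
closed subfields identified over `K₁`, and `θ`, `θ'` are generic over them, then the composita are both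
base changes of `C.L` (`BC.unique`).  Amalgamate (`amalgam` over `K₁`), then use `BC.unique`,
`BC.exists_generic`.
`glue_mod`: glue the models: `𝒜⁺ = {(F, F j) | σ j F = σ' j (F j)}`; check `IsChart` directly (extend
`χ μ` by constants) or by `crit`.
`glue_sp`: restrict the given chart to the old comb and to the new tails (`isChart_iff`), get a model
of the old part (`exists_isMod`) and sections with values `a j` independent over the field generated by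
the coordinates (`exists_sec`, `gens`); the tails have constant models, translated by `transl` to match
the value of `x`.  Adjoin generic elements to the field of definition of the smooth curve given by `Sp`
and amalgamate it with the Hahn field so that the values stay independent; conclude by `genu`.
-/

namespace PR0

universe u

variable {k K₁ K K' : Type u} [Field k] [IsAlgClosed k] [Field K₁] [Field K] [Field K']
  [IsAlgClosed K₁] [IsAlgClosed K] [IsAlgClosed K'] [Algebra k K₁] [Algebra k K] [Algebra k K']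
  {T T' : Type} [Fintype T] [Fintype T']

/-- `X` consists of a base change of `C` with the tails `(E j, b j)` (defined over `k`) attached
at independent generic points. -/
def IsGenT (C : FFd K₁) (E : T → FFd k) (b : ∀ j, Place k (E j).L) (X : Comb T K) : Prop :=
  ∃ (φ : K₁ →ₐ[k] K) (ψ₀ : C.L →+* X.C.L) (ψ : ∀ j, (E j).L →+* (X.E j).L) (u : C.L),
    BC (φ : K₁ →+* K) ψ₀ ∧ (∀ j, BC (algebraMap k K) (ψ j) ∧ Over (ψ j) (b j) (X.b j)) ∧
    (∀ j, ψ₀ u ∈ (X.a j).1) ∧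
    AlgebraicIndependent φ.fieldRange fun j => (X.a j).val (ψ₀ u)

theorem exists_genT (C : FFd K₁) (E : T → FFd k) (b : ∀ j, Place k (E j).L) :
    ∃ (Ω : Type u) (_ : Field Ω) (_ : Algebra k Ω) (_ : IsAlgClosed Ω) (X : Comb T Ω),
      IsGenT C E b X := by
  obtain ⟨Ω, _, _, _, _, _, y, hy⟩ := exists_generic (k := k) K₁ T
  obtain ⟨u, hu, -⟩ := C.ff.out
  obtain ⟨M, _, _, _, ψ₀, h₀⟩ := exists_bc (L := C.L) (algebraMap K₁ Ω)
  choose N i1 i2 i3 ψ h using fun j => exists_bc (L := (E j).L) (algebraMap k Ω)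
  choose a ha hv using fun j => exists_place_val (Glue_transc h₀ hu) (y j)
  choose b' hb using fun j => ((h j).exists_over (b j)).exists
  refine ⟨Ω, _, _, ‹_›, ⟨⟨M⟩, fun j => ⟨N j⟩, a, b', fun i j e => hy.injective ?_⟩,
    IsScalarTower.toAlgHom k K₁ Ω, ψ₀, ψ, u, h₀, fun j => ⟨h j, hb j⟩, ha,
    (GlueInd_iff _ _).2 ?_⟩
  · rw [← hv, ← hv, e]
  · exact (funext hv : (fun j => (a j).val (ψ₀ u)) = y) ▸ hy

omit [IsAlgClosed k] [Fintype T] in
theorem Glue_data {C : FFd K₁} {E : T → FFd k} {b : ∀ j, Place k (E j).L} {X : Comb T K}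
    (h : IsGenT C E b X) : ∃ (φ : K₁ →ₐ[k] K) (ψ₀ : C.L →+* X.C.L)
      (ψ : ∀ j, (E j).L →+* (X.E j).L) (u : C.L) (θ : T → C.L →+* K), BC (φ : K₁ →+* K) ψ₀ ∧
      (∀ j, BC (algebraMap k K) (ψ j) ∧ Over (ψ j) (b j) (X.b j)) ∧
      (∀ j c, θ j (algebraMap K₁ C.L c) = (φ : K₁ →+* K) c) ∧
      (∀ j f, ψ₀ f ∈ (X.a j).1 ∧ (X.a j).val (ψ₀ f) = θ j f) ∧
      GlueInd (φ : K₁ →+* K) fun j => θ j u := by
  obtain ⟨φ, ψ₀, ψ, u, h1, h2, h3, h4⟩ := h
  rw [GlueInd_iff] at h4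
  choose θ h5 h6 using fun j => Glue_theta h1 (h3 j) (h4.notMem j)
  exact ⟨φ, ψ₀, ψ, u, θ, h1, h2, h5, h6, by simpa only [fun j => (h6 j u).2] using h4⟩

theorem genu {C : FFd K₁} {E : T → FFd k} {b : ∀ j, Place k (E j).L} {X : Comb T K}
    {X' : Comb T K'} (h : IsGenT C E b X) (h' : IsGenT C E b X') :
    ∃ (Ω : Type u) (_ : Field Ω) (_ : Algebra k Ω) (_ : IsAlgClosed Ω) (Y : Comb T Ω),
      Comb.Le k X Y ∧ Comb.Le k X' Y := by
  obtain ⟨φ, ψ₀, ψ, u, θ, a1, a2, a3, a4, a5⟩ := Glue_data h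
  obtain ⟨φ', ψ₀', ψ', u', θ', b1, b2, b3, b4, b5⟩ := Glue_data h'
  obtain ⟨Ω, _, _, α, α', c1, c2⟩ := Glue_amalg a3 b3 a5 b5
  let _ : Algebra k Ω := (α.comp (algebraMap k K)).toAlgebra
  have hα' : ∀ c, α' (algebraMap k K' c) = algebraMap k Ω c := fun c => by
    rw [← φ'.commutes]
    exact (c1 _).symm.trans (congrArg α (φ.commutes c))
  obtain ⟨Y, χ₀, χ, d1, d2⟩ := Glue_bc X α
  have e0 : α.comp (φ : K₁ →+* K) = α'.comp (φ' : K₁ →+* K') := RingHom.ext c1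
  have e1 : α.comp (algebraMap k K) = α'.comp (algebraMap k K') :=
    RingHom.ext fun c => (hα' c).symm
  obtain ⟨χ₀', f1, f2⟩ := Glue_fac b1 α' (e0 ▸ a1.trans d1)
  choose χ' g1 g2 using fun j => Glue_fac (b2 j).1 α' (e1 ▸ (a2 j).1.trans (d2 j).1)
  refine ⟨Ω, _, _, ‹_›, Y, ⟨⟨α, fun _ => rfl⟩, Equiv.refl _, χ₀, χ, d1, d2⟩,
    ⟨⟨α', hα'⟩, Equiv.refl _, χ₀', χ', f1, fun j => ⟨g1 j, ?_, ?_⟩⟩⟩
  · obtain ⟨P, hP, -⟩ := f1.exists_over (X'.a j)
    have := ((a1.trans d1).exists_generic (α.comp (θ j)) fun c => congrArg α (a3 j c)).unique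
      (y₁ := P) (y₂ := Y.a j) (fun f => ?_) fun f => ?_
    · exact this ▸ hP
    · rw [← f2]
      exact ⟨(hP _).2 (b4 j f).1,
        (f1.val hP (b4 j f).1).trans ((congrArg α' (b4 j f).2).trans (c2 j f).symm)⟩
    · exact ⟨((d2 j).2.1 _).2 (a4 j f).1,
        (d1.val (d2 j).2.1 (a4 j f).1).trans (congrArg α (a4 j f).2)⟩
  · obtain ⟨P, hP, -⟩ := (g1 j).exists_over (X'.b j)
    have := (((a2 j).1.trans (d2 j).1).exists_over (b j)).unique (y₁ := P) (y₂ := Y.b j)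
      (fun f => ?_) (Glue_over_trans (a2 j).2 (d2 j).2.2)
    · exact this ▸ hP
    · rw [← g2]
      exact Glue_over_trans (b2 j).2 hP f

theorem IsGenT.of_le {C : FFd K₁} {C' : FFd K'} (hC : Comb.Le k C.sm C'.sm) {E : T → FFd k}
    {b : ∀ j, Place k (E j).L} {X : Comb T K} (h : IsGenT C' E b X) : IsGenT C E b X := by
  obtain ⟨φ₀, χ, h₀⟩ : ∃ (φ₀ : K₁ →ₐ[k] K') (χ : C.L →+* C'.L), BC (φ₀ : K₁ →+* K') χ :=
    (FFd.exists_of_le k hC).2
  obtain ⟨φ, ψ₀, ψ, u, θ, a1, a2, a3, a4, a5⟩ := Glue_data h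
  obtain ⟨v, hv, -⟩ := C.ff.out
  refine ⟨φ.comp φ₀, ψ₀.comp χ, ψ, v, h₀.trans a1, a2, fun j => (a4 j _).1,
    (GlueInd_iff _ _).2 ?_⟩
  have := (a5.change a3 (Glue_transc h₀ hv)).restrict (φ₀ : K₁ →+* K')
  rw [← funext fun j => (a4 j (χ v)).2] at this
  exact this

theorem IsGenT.genus {C : FFd K₁} {E : T → FFd k} {b : ∀ j, Place k (E j).L} {X : Comb T K}
    (h : IsGenT C E b X) : X.genus = genus K₁ C.L + ∑ j, genus k (E j).L := by
  obtain ⟨φ, ψ₀, ψ, u, h1, h2, -⟩ := h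
  rw [Comb.genus, h1.genus_eq]
  exact congrArg _ (Finset.sum_congr rfl fun j _ => (h2 j).1.genus_eq)

theorem IsGenT.hw0 {C : FFd K₁} {E : T → FFd k} {b : ∀ j, Place k (E j).L} {X : Comb T K}
    (h : IsGenT C E b X) (p : ℕ) [Fact p.Prime] [CharP k p] :
    X.HW0 p ↔ HW0 K₁ C.L p ∧ ∀ j, HW0 k (E j).L p := by
  obtain ⟨φ, ψ₀, ψ, u, h1, h2, -⟩ := h
  have := charP_of_injective_algebraMap (algebraMap k K₁).injective p
  exact and_congr (h1.hw0_iff p) (forall_congr' fun j => (h2 j).1.hw0_iff p)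

omit [IsAlgClosed k] [Fintype T] in
/-- Nodes which are generic over the coordinates of a chart become generic for a conjugate curve. -/
theorem Glue_conj {ι : Type} [Fintype ι] [DecidableEq ι] {J : Finset (ι × ℕ)} (i₀ : ι) {C : FFd K₁}
    (d₁ : CD K₁ C.L ι) (h₁ : IsChart J d₁.alg) {X : Comb T K} (d : CD K X.C.L ι)
    (h : IsChart J d.alg) (s₁ : Spc k (coef i₀ J d₁.alg) (coef i₀ J d.alg))
    (s₂ : Spc k (coef i₀ J d.alg) (coef i₀ J d₁.alg)) (ha : ∀ j, d.x ∈ (X.a j).1)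
    (hi : AlgebraicIndependent (IntermediateField.adjoin k (Set.range (coef i₀ J d.alg)))
      fun j => (X.a j).val d.x) {E : T → FFd k} {b : ∀ j, Place k (E j).L}
    (ψ : ∀ j, (E j).L →+* (X.E j).L)
    (hψ : ∀ j, BC (algebraMap k K) (ψ j) ∧ Over (ψ j) (b j) (X.b j)) :
    ∃ (Ω : Type u) (_ : Field Ω) (_ : Algebra k Ω) (_ : IsAlgClosed Ω) (Y : Comb T Ω),
      Comb.Le k X Y ∧ IsGenT C E b Y := by
  have : Nonempty ι := ⟨i₀⟩
  obtain ⟨Ω₂, _, _, _, _, _, y, hy⟩ := exists_generic (k := k) K₁ T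
  let φ := IsScalarTower.toAlgHom k K₁ Ω₂
  have hy' : GlueInd (φ : K₁ →+* Ω₂) y := hy
  obtain ⟨Ω, _, _, _, β, β', hβ⟩ := amalgam
    (((Spc.of_map _ φ φ.injective).trans s₁).generic (Glue_ind_le (IntermediateField.adjoin_le_iff.2
      (by rintro _ ⟨a, rfl⟩; exact ⟨_, rfl⟩)) ((GlueInd_iff φ y).2 hy')) fun j => (X.a j).val d.x)
    ((s₂.trans (Spc.map _ φ)).generic hi y)
  obtain ⟨Y, χ₀, χ, d1, d2⟩ := Glue_bc X (β' : K →+* Ω)
  obtain ⟨M, _, _, _, η, hη⟩ := exists_bc (L := C.L) (β.comp φ : K₁ →+* Ω)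
  obtain ⟨d₁', x1, -, -, a1, -⟩ := hη.exists_cd d₁
  obtain ⟨d', x2, -, -, a2, -⟩ := d1.exists_cd d
  obtain ⟨ε, hε⟩ := d₁'.exists_equiv d' (by
    rw [a1, a2]
    refine (h₁.bc _).eq_of_coef i₀ (h.bc _) ?_
    rw [h₁.coef_bc, h.coef_bc]
    exact funext fun a => hβ (.inl a))
  have hx : ε (η d₁.x) = χ₀ d.x := d'.exT_injective (by rw [hε, ← x1, ← x2, CD.exT_x, CD.exT_x])
  refine ⟨Ω, _, _, ‹_›, Y, ⟨β', Equiv.refl _, χ₀, χ, d1, d2⟩, β.comp φ, (ε : M →+* Y.C.L).comp η,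
    fun j => (χ j).comp (ψ j), d₁.x, hη.trans (BC.of_equiv ε), fun j => ⟨?_,
      Glue_over_trans (hψ j).2 (d2 j).2.2⟩, fun j => ?_, (GlueInd_iff _ _).2 ?_⟩
  · exact β'.comp_algebraMap ▸ (hψ j).1.trans (d2 j).1
  · exact (congrArg (· ∈ (Y.a j).1) hx).mpr (((d2 j).2.1 _).2 (ha j))
  · have e : ∀ j, (Y.a j).val (((ε : M →+* Y.C.L).comp η) d₁.x) = β (y j) := fun j =>
      (congrArg (Y.a j).val hx).trans ((d1.val (d2 j).2.1 (ha j)).trans (hβ (.inr j)).symm)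
    rw [funext e]
    exact hy'.map (β : Ω₂ →+* Ω)

theorem Glue_core {S : Type} [Fintype S] {C : FFd K₁} {E : T' → FFd k} {b : ∀ j, Place k (E j).L}
    {X : Comb T' K} (hX : IsGenT C E b X) {Y : Comb S K'} (e : T ⊕ T' ≃ S)
    (h : Comb.Sp k C.sm (GlueOld Y e)) (ψ : ∀ j, (E j).L →+* (Y.E (e (.inr j))).L)
    (hψ : ∀ j, BC (algebraMap k K') (ψ j) ∧ Over (ψ j) (b j) (Y.b (e (.inr j))))
    {ι : Type} [Fintype ι] [DecidableEq ι] (i₀ : ι) {J : Finset (ι × ℕ)}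
    {A' : Subalgebra K' (LT ι K')} (hA : Y.Has J A') (hs : ∀ ν ∈ J, ν.2 < 1) :
    ∃ (Ω : Type u) (_ : Field Ω) (_ : Algebra k Ω) (_ : IsAlgClosed Ω) (X' : Comb T' Ω)
      (A : Subalgebra Ω (LT ι Ω)), Comb.Le k X X' ∧ X'.Has J A ∧
        Spc k (coef i₀ J A) (coef i₀ J A') := by
  classical
  obtain ⟨c, rfl, hc⟩ := hA
  obtain ⟨J₀, Jt, hJ⟩ := c.exists_split J
  obtain ⟨J₁, hJ₁⟩ := (GlueOldCC c e).exists_split' J₀ fun j => Jt (e (.inl j))
  obtain ⟨hc₀, hct⟩ := (c.isChart_iff hJ).1 hc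
  have hc₁ := ((GlueOldCC c e).isChart_iff hJ₁).2 ⟨hc₀, fun j => hct _⟩
  obtain ⟨i₁⟩ : Nonempty (c.ι₀ ⊕ Σ j : T, c.ιt (e (.inl j))) := inferInstance
  have hs₁ : ∀ ν ∈ J₁, ν.2 < 1 := by
    rintro ⟨i | ⟨j, i⟩, n⟩ hν
    · exact hs _ ((hJ.1 (i, n)).1 ((hJ₁.1 (i, n)).2 hν))
    · exact hs _ ((hJ.2 _ (i, n)).1 ((hJ₁.2 j (i, n)).2 hν))
  obtain ⟨Ω₁, _, _, _, X₁, A₁, l₁, hA₁, s₁⟩ :=
    h K' _ (Comb.Le.refl _) _ i₁ J₁ _ ⟨GlueOldCC c e, rfl, hc₁⟩ hs₁
  obtain ⟨C₁, rfl⟩ : ∃ C₁ : FFd Ω₁, X₁ = C₁.sm := ⟨_, (FFd.exists_of_le k l₁).1⟩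
  obtain ⟨D, 𝒜, d, hm, s₂, s₃⟩ := exists_isMod hA₁ _ hc₁ s₁
  obtain ⟨d₁, rfl, hd₁⟩ := FFd.has_sm.1 hA₁
  have hd : IsChart J₁ d.alg := (congrArg (IsChart J₁) hm.ge).mpr (hm.ch.bc _)
  obtain ⟨q, hq, hi⟩ := Glue_secs (k := k) hm (fun j => Y.a (e (.inr j))) (fun j => c.ha _)
    (fun j i hji => Sum.inr_ne_inl (e.injective (Y.inj hji))) (hd.fg i₁).dm_ne_top
  choose ξ x1 x2 using fun j => (hq j).2 d.x (GlueOldCC c e).x
    ⟨_, hm.ch.x_mem, by rw [mapT_xx, d.exT_x], by rw [mapT_xx, Comb.CC.exT_x]⟩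
  choose E' ψ' b' dt ℬ t1 t2 t3 t4 t5 t6 t7 t8 using fun j =>
    Glue_tail (Y.E (e (.inr j))) (c.dt _) (hct _) (Y.b _) (c.hb _) (ξ j) ((x2 j).trans (c.hv _))
  let X₂ : Comb T' (HF K') := ⟨D, E', q, b', fun i j hij => hi.injective (by simp only [hij])⟩
  obtain ⟨A, hA, s₄⟩ := Glue_mod (k := k) c hc e hJ hJ₁ (X := X₂) hm hq dt ℬ
    (fun j => ⟨t3 j, t4 j, t5 j, t6 j, (t7 j).trans (x1 j).symm, t8 j⟩) i₀
  obtain ⟨Ω₃, _, _, _, X₃, l₃, g₃⟩ := Glue_conj i₁ d₁ hd₁ (X := X₂) d hd s₂ s₃ (fun j => (hq j).1) hi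
    (fun j => (ψ' j).comp (ψ j)) fun j =>
      ⟨IsScalarTower.algebraMap_eq k K' (HF K') ▸ (hψ j).1.trans (t1 j),
        Glue_over_trans (hψ j).2 (t2 j)⟩
  obtain ⟨Ω, _, _, _, X₄, l₄, l₅⟩ := genu hX (g₃.of_le l₁)
  obtain ⟨γ, hγ⟩ := l₃.trans l₅
  refine ⟨Ω, _, _, ‹_›, X₄, _, l₄, hγ.has hA, Spc.trans ?_ s₄⟩
  rw [hA.choose_spec.2.coef_bc]
  exact Spc.of_map _ γ γ.injective

theorem glue_sp {C : FFd K₁} {Y : Comb T k} (h : Comb.Sp k C.sm Y) {E : T' → FFd k}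
    {b : ∀ j, Place k (E j).L} {X : Comb T' K} (hX : IsGenT C E b X) (a : T' → Place k Y.C.L)
    (ha : Function.Injective (Sum.elim Y.a a)) : Comb.Sp k X (Y.add E a b ha) := by
  rintro Ω' _ _ _ Y' ⟨φ, e, ψ₀, ψ, h0, h1⟩ ι _ _ i₀ J A' hA' hs
  have hφ : (φ : k →+* Ω') = algebraMap k Ω' := RingHom.ext φ.commutes
  exact Glue_core hX e (h.trans (Comb.Le.sp ⟨φ, Equiv.refl _, ψ₀, fun j => ψ (.inl j), h0,
    fun j => h1 (.inl j)⟩)) (fun j => ψ (.inr j))
    (fun j => ⟨hφ ▸ (h1 (.inr j)).1, (h1 (.inr j)).2.2⟩) i₀ hA' hs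

/-- The same for a smooth special fibre over any field, the tails again at generic points. -/
theorem glue_sp_gen {K₂ : Type u} [Field K₂] [IsAlgClosed K₂] [Algebra k K₂] {C : FFd K₁}
    {C₂ : FFd K₂} (h : Comb.Sp k C.sm C₂.sm) {E : T → FFd k} {b : ∀ j, Place k (E j).L}
    {X : Comb T K} {X₂ : Comb T K'} (hX : IsGenT C E b X) (hX₂ : IsGenT C₂ E b X₂) :
    Comb.Sp k X X₂ := by
  rintro Ω' _ _ _ Y' ⟨φ, e, ψ₀, ψ, h0, h1⟩ ι _ _ i₀ J A' hA' hs
  obtain ⟨φ₂, χ₀, χ, u, g1, g2, -⟩ := hX₂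
  exact Glue_core hX ((Equiv.emptySum Empty T).trans e) (h.trans (Comb.Le.sp
    ⟨φ.comp φ₂, Equiv.refl _, ψ₀.comp χ₀, fun j => j.elim, g1.trans h0, fun j => j.elim⟩))
    (fun j => (ψ j).comp (χ j)) (fun j => ⟨φ.comp_algebraMap ▸ (g2 j).1.trans (h1 j).1,
      Glue_over_trans (g2 j).2 (h1 j).2.2⟩) i₀ hA' hs

end PR0
end
end

-- merged part: Pool.Agent.Work.MP_da2620_ag.WeiC
section
/-!
# The chart of a possibly singular Weierstrass cubic

Let `e = 1 / (X - c)`, `f = Y e ^ 2`.  As `X e = 1 + c e`, the equation times `e ^ 4` shows that `f` satisfies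
a monic quadratic equation over `K[e]`, so `weiA = K[e] + K[e] f`.
`exists_chart`: for each `i` the map `K[X, Y] → K`, `(X, Y) ↦ (c, y i)` exists (`IsWei.ker`) and extends to a
place (`regOut (poles X)` is integral over `K[X, Y]`; lying over, `exists_place_of_hom`); the two places differ and
`deg (X - c) = 2`, so these are all zeros of `X - c`, both simple.  The leading coefficients of `e ^ j` and
`e ^ (j - 2) f` at level `j` are `(1, 1)` and `(y 0, y 1)`.  At the pole of `X`, `e` and `f` vanish.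
If `Δ ≠ 0`: compare `finrank_lev` (genus one), or use `reg_eq`.
`not_nil`: with the names of `exists_node`, with `z = (Y - y - l (X - x)) / (X - x)`, one has
`z (z + l - l') = X - x`; `K[X, Y] = K + (X - x) K[z]` is the ring of polynomials in `z` with equal values at
`0` and `l' - l`.  Let `P₁, P₂` be the two places `z = 0`, `z = l' - l`; all elements of `weiA` have equal values
there, and conversely an element `g` of `d.reg` with equal values is in `weiA` (`(X - c) ^ n g ∈ K[z]`; write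
`(X - c) ^ n g = A(X) + B(X) Y` and bound the degrees by the order at `∞`).  Take `g ∈ d.reg` with values
`0`, `1` at `P₁`, `P₂`; then `g ^ p - g`, so all `g ^ (p ^ n) - g`, lie in `weiA`; nilpotence gives `a ∈ weiA` with
`g - a` regular everywhere, so constant: contradiction.
-/

namespace PR0

open Polynomial

universe u

variable {K E : Type u} [Field K] [Field E] [Algebra K E]

/-- The affine ring of the cubic minus the fibre `X = c`. -/
def weiA (X Y : E) (c : K) : Subalgebra K E :=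
  Algebra.adjoin K {(X - algebraMap K E c)⁻¹, Y * (X - algebraMap K E c)⁻¹ ^ 2}

variable [IsAlgClosed K] {W : WeierstrassCurve K}

theorem exists_fibre (h : ¬ Cuspidal W) : ∃ (c : K) (y : Fin 2 → K), y 0 ≠ y 1 ∧
    W.toAffine.polynomial.map (evalRingHom c) = (X - C (y 0)) * (X - C (y 1)) := by
  have h1 : ∃ c : K, (W.a₁ * c + W.a₃) ^ 2 + 4 * (c ^ 3 + W.a₂ * c ^ 2 + W.a₄ * c + W.a₆) ≠ 0 := by
    by_contra h2
    push Not at h2
    have h3 : (Cubic.toPoly ⟨4, W.b₂, 2 * W.b₄, W.b₆⟩ : K[X]) = 0 := by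
      refine Polynomial.funext fun c => ?_
      have := h2 c
      simp only [Cubic.toPoly, eval_add, eval_mul, eval_C, eval_pow, eval_X, eval_zero,
        WeierstrassCurve.b₂, WeierstrassCurve.b₄, WeierstrassCurve.b₆]
      linear_combination this
    rw [Cubic.toPoly_eq_zero_iff] at h3
    have e1 : (4 : K) = 0 := congrArg Cubic.a h3
    have e2 : W.b₂ = 0 := congrArg Cubic.b h3
    have e3 : 2 * W.b₄ = 0 := congrArg Cubic.c h3
    have e4 : W.b₆ = 0 := congrArg Cubic.d h3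
    refine h ⟨?_, ?_⟩
    · rw [WeierstrassCurve.Δ, e2, e4]
      linear_combination (-2 * W.b₄ ^ 3) * e1
    · rw [WeierstrassCurve.c₄, e2]
      linear_combination (-12) * e3
  obtain ⟨c, hc⟩ := h1
  obtain ⟨r, hr⟩ := IsAlgClosed.exists_root (Cubic.toPoly ⟨0, 1, W.a₁ * c + W.a₃,
    -(c ^ 3 + W.a₂ * c ^ 2 + W.a₄ * c + W.a₆)⟩ : K[X])
    (by rw [Cubic.degree_of_b_ne_zero' one_ne_zero]; decide)
  simp only [Cubic.toPoly, IsRoot.def, eval_add, eval_mul, eval_C, eval_pow, eval_X] at hr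
  refine ⟨c, ![r, -(W.a₁ * c + W.a₃) - r], fun e => hc ?_, ?_⟩
  · simp only [Matrix.cons_val_zero, Matrix.cons_val_one] at e
    linear_combination (2 * r + (W.a₁ * c + W.a₃)) * e - 4 * hr
  · refine Polynomial.funext fun t => ?_
    rw [map_evalRingHom_eval, WeierstrassCurve.Affine.evalEval_polynomial]
    simp only [Matrix.cons_val_zero, Matrix.cons_val_one, eval_mul, eval_sub, eval_X, eval_C]
    linear_combination hr

variable [Fact (IsFF K E)] {X Y : E}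

omit [IsAlgClosed K] [Fact (IsFF K E)] in
theorem IsWei.WeiC_ne (h : IsWei W X Y) (c : K) : X - algebraMap K E c ≠ 0 := fun e =>
  h.trans (sub_eq_zero.1 e ▸ isAlgebraic_algebraMap c)

omit [IsAlgClosed K] [Fact (IsFF K E)] in
/-- the quadratic equation of `Y e ^ 2` -/
theorem IsWei.WeiC_sq (h : IsWei W X Y) (c : K) : ∃ l m : K[X],
    (Y * (X - algebraMap K E c)⁻¹ ^ 2) ^ 2 +
      aeval (X - algebraMap K E c)⁻¹ l * (Y * (X - algebraMap K E c)⁻¹ ^ 2) =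
      aeval (X - algebraMap K E c)⁻¹ m := by
  refine ⟨C W.a₁ * (1 + C c * Polynomial.X) * Polynomial.X + C W.a₃ * Polynomial.X ^ 2,
    (1 + C c * Polynomial.X) ^ 3 * Polynomial.X +
      C W.a₂ * (1 + C c * Polynomial.X) ^ 2 * Polynomial.X ^ 2 +
      C W.a₄ * (1 + C c * Polynomial.X) * Polynomial.X ^ 3 + C W.a₆ * Polynomial.X ^ 4, ?_⟩
  have h1 : 1 + algebraMap K E c * (X - algebraMap K E c)⁻¹ = X * (X - algebraMap K E c)⁻¹ := by
    rw [← mul_inv_cancel₀ (h.WeiC_ne c)]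
    ring
  have h2 := h.eqn
  simp only [Algebra.smul_def] at h2
  simp only [map_add, map_mul, map_pow, map_one, aeval_C, aeval_X, h1]
  linear_combination (X - algebraMap K E c)⁻¹ ^ 4 * h2

/-- roots of monic quadratic equations are integral -/
theorem WeiC_quad (P : Place K E) {z b m : E} (hb : b ∈ P.1) (hm : m ∈ P.1)
    (e : z ^ 2 + b * z = m) : z ∈ P.1 := by
  by_contra hz
  have h0 : z ≠ 0 := fun e => hz (e ▸ zero_mem _)
  have h1 : P.ord z < 0 := not_le.1 fun h => hz (P.mem_iff.2 (.inr h))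
  have h2 : P.Ge (m - b * z) (P.ord z) := by
    refine ((P.mem_iff.1 hm).mono h1.le).sub ?_
    simpa using (P.mem_iff.1 hb).mul (.inr le_rfl : P.Ge z (P.ord z))
  rw [← e, add_sub_cancel_right] at h2
  rcases h2 with h2 | h2
  · exact pow_ne_zero 2 h0 h2
  · rw [P.ord_pow h0] at h2
    push_cast at h2
    omega

omit [IsAlgClosed K] [Fact (IsFF K E)] in
theorem WeiC_aeval (P : Place K E) {z : E} (hz : z ∈ P.1) (A : K[X]) : aeval z A ∈ P.1 :=
  FFA_adj P hz _ (aeval_mem_adjoin_singleton K z)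

theorem IsWei.WeiC_Y (h : IsWei W X Y) (P : Place K E) (hX : X ∈ P.1) : Y ∈ P.1 := by
  refine WeiC_quad P (WeiC_aeval P hX (C W.a₁ * Polynomial.X + C W.a₃)) (WeiC_aeval P hX
    (Polynomial.X ^ 3 + C W.a₂ * Polynomial.X ^ 2 + C W.a₄ * Polynomial.X + C W.a₆)) ?_
  have h2 := h.eqn
  simp only [Algebra.smul_def] at h2
  simp only [map_add, map_mul, map_pow, aeval_C, aeval_X]
  linear_combination h2

theorem IsWei.WeiC_le (h : IsWei W X Y) (c : K) (P : Place K E)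
    (he : (X - algebraMap K E c)⁻¹ ∈ P.1) : ∀ g ∈ weiA X Y c, g ∈ P.1 := by
  obtain ⟨l, m, e⟩ := h.WeiC_sq c
  have hf := WeiC_quad P (WeiC_aeval P he l) (WeiC_aeval P he m) e
  intro g hg
  induction hg using Algebra.adjoin_induction with
  | mem x hx =>
    rcases hx with rfl | rfl
    · exact he
    · exact hf
  | algebraMap r => exact P.2.2 r
  | add x y _ _ hx hy => exact add_mem hx hy
  | mul x y _ _ hx hy => exact mul_mem hx hy

theorem IsWei.mem_weiA (h : IsWei W X Y) (c : K) {g : E} : g ∈ weiA X Y c ↔ ∃ A B : K[X],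
    g = aeval (X - algebraMap K E c)⁻¹ A +
      aeval (X - algebraMap K E c)⁻¹ B * (Y * (X - algebraMap K E c)⁻¹ ^ 2) := by
  constructor
  · obtain ⟨l, m, e⟩ := h.WeiC_sq c
    intro hg
    induction hg using Algebra.adjoin_induction with
    | mem x hx =>
      rcases hx with rfl | rfl
      · exact ⟨Polynomial.X, 0, by simp⟩
      · exact ⟨0, 1, by simp⟩
    | algebraMap r => exact ⟨C r, 0, by simp⟩
    | add x y _ _ hx hy =>
      obtain ⟨A, B, rfl⟩ := hx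
      obtain ⟨A', B', rfl⟩ := hy
      exact ⟨A + A', B + B', by simp only [map_add]; ring⟩
    | mul x y _ _ hx hy =>
      obtain ⟨A, B, rfl⟩ := hx
      obtain ⟨A', B', rfl⟩ := hy
      refine ⟨A * A' + B * B' * m, A * B' + A' * B - B * B' * l, ?_⟩
      simp only [map_add, map_sub, map_mul]
      linear_combination (aeval (X - algebraMap K E c)⁻¹ B * aeval (X - algebraMap K E c)⁻¹ B') * e
  · rintro ⟨A, B, rfl⟩
    have h1 : ∀ A : K[X], aeval (X - algebraMap K E c)⁻¹ A ∈ weiA X Y c := fun A =>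
      Algebra.adjoin_mono (Set.singleton_subset_iff.2 (Set.mem_insert _ _))
        (aeval_mem_adjoin_singleton K _)
    exact add_mem (h1 A) (mul_mem (h1 B) (Algebra.subset_adjoin (Or.inr rfl)))

omit [IsAlgClosed K] [Fact (IsFF K E)] in
theorem WeiC_e_mem (X Y : E) (c : K) (j : ℕ) : (X - algebraMap K E c)⁻¹ ^ j ∈ weiA X Y c := by
  have : (X - algebraMap K E c)⁻¹ ∈ weiA X Y c := Algebra.subset_adjoin (Or.inl rfl)
  exact pow_mem this j

omit [IsAlgClosed K] [Fact (IsFF K E)] in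
theorem WeiC_f_mem (X Y : E) (c : K) (j : ℕ) :
    Y * (X - algebraMap K E c)⁻¹ ^ (j + 2) ∈ weiA X Y c := by
  have : Y * (X - algebraMap K E c)⁻¹ ^ 2 ∈ weiA X Y c := Algebra.subset_adjoin (Or.inr rfl)
  rw [pow_add, mul_left_comm]
  exact mul_mem (WeiC_e_mem X Y c j) this

/-- the points of the affine cubic come from places -/
theorem IsWei.WeiC_place (h : IsWei W X Y) {c y : K} (hc : W.toAffine.polynomial.evalEval c y = 0) :
    ∃ P : Place K E, X ∈ P.1 ∧ Y ∈ P.1 ∧ P.val X = c ∧ P.val Y = y := by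
  let Φ : K[X][X] →+* E := eval₂RingHom (aeval X : K[X] →ₐ[K] E).toRingHom Y
  have hΦ : ∀ F, Φ F = 0 ↔ W.toAffine.polynomial ∣ F := fun F => by
    rw [← h.ker F, coe_aeval_eq_eval, eval_map]
    rfl
  have hI : (RingHom.ker (evalEvalRingHom c y)).map Φ.rangeRestrict ≠ ⊤ := by
    rw [Ideal.ne_top_iff_one, Ideal.mem_map_iff_of_surjective _ Φ.rangeRestrict_surjective]
    rintro ⟨F, h1, h2⟩
    have h3 : Φ (F - 1) = 0 := by
      rw [map_sub, map_one, sub_eq_zero]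
      exact congrArg Subtype.val h2
    have h4 := evalEval_dvd c y ((hΦ _).1 h3)
    have h5 : F.evalEval c y = 0 := h1
    rw [hc, evalEval_sub, h5, evalEval_one] at h4
    simp at h4
  obtain ⟨V, h1, h2⟩ := Ideal.image_subset_nonunits_valuationSubring _ hI
  have h3 : ∀ F : K[X][X], F.evalEval c y = 0 → V.valuation (Φ F) < 1 := fun F hF =>
    h2 ⟨Φ.rangeRestrict F, Ideal.mem_map_of_mem _ hF, rfl⟩
  have h4 : ∀ F, Φ F ∈ V := fun F => h1 ⟨F, rfl⟩
  have a1 : V.valuation (X - algebraMap K E c) < 1 := by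
    have := h3 (C (Polynomial.X - C c)) (by simp [evalEval_C])
    simpa only [Φ, coe_eval₂RingHom, eval₂_C, AlgHom.toRingHom_eq_coe, RingHom.coe_coe,
      aeval_sub, aeval_X, aeval_C] using this
  have a2 : V.valuation (Y - algebraMap K E y) < 1 := by
    have := h3 (Polynomial.X - C (C y)) (by simp [evalEval_C])
    simpa only [Φ, coe_eval₂RingHom, eval₂_sub, eval₂_X, eval₂_C, AlgHom.toRingHom_eq_coe,
      RingHom.coe_coe, aeval_C] using this
  have hV : V ≠ ⊤ := by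
    rintro rfl
    rcases (ValuationSubring.mem_nonunits_iff_or _).1 a1 with e | e
    · exact h.WeiC_ne c e
    · exact e trivial
  let P : Place K E := ⟨V, hV, fun r => by simpa [Φ] using h4 (C (C r))⟩
  refine ⟨P, by simpa [Φ] using h4 (C Polynomial.X), by simpa [Φ] using h4 Polynomial.X, ?_, ?_⟩
  · exact Place.val_eq (P.valuation_lt_one_iff.1 a1)
  · exact Place.val_eq (P.valuation_lt_one_iff.1 a2)

theorem IsWei.WeiC_dg (h : IsWei W X Y) (c : K) : dg (dvInf K (X - algebraMap K E c)⁻¹) = 2 := by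
  have h1 : Transcendental K (X - algebraMap K E c) := fun ha => h.trans (by
    simpa using ha.add (isAlgebraic_algebraMap c))
  have h2 : IntermediateField.adjoin K {X - algebraMap K E c} = IntermediateField.adjoin K {X} := by
    refine le_antisymm ?_ ?_ <;> rw [IntermediateField.adjoin_simple_le_iff]
    · exact sub_mem (IntermediateField.mem_adjoin_simple_self K X) (algebraMap_mem _ c)
    · simpa using add_mem (IntermediateField.mem_adjoin_simple_self K (X - algebraMap K E c))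
        (algebraMap_mem _ c)
  rw [dg_dvInf (rr_tr_inv h1), rr_adjoin_inv, h2, h.finrank]
  rfl

theorem WeiC_dv {D D' : Dv K E} (h : D ≤ D') (e : dg D' ≤ dg D) : D' = D := by
  classical
  ext Q
  by_contra hQ
  have h1 : D + Finsupp.single Q 1 ≤ D' := fun P => by
    rw [Finsupp.add_apply, Finsupp.single_apply]
    split_ifs with hP
    · subst hP
      have := lt_of_le_of_ne (h Q) (Ne.symm hQ)
      omega
    · simpa using h P
  have h2 := dg_mono h1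
  rw [dg_add, dg_single] at h2
  omega

/-- filling in the polar coefficients from the top -/
theorem WeiC_surj {ι : Type} [Fintype ι] [DecidableEq ι] {J : Finset (ι × ℕ)}
    {A : Subalgebra K (LT ι K)} (h : ∀ (n : ℕ) (τ : ι → K), ∃ G ∈ A, Pole G (n + 1 : ℕ) ∧
      ∀ i, (i, n) ∉ J → pc G (i, n) = τ i) (n : ℕ) : ∀ τ : ι × ℕ → K,
    ∃ F ∈ A, Pole F n ∧ ∀ ν, ν ∉ J → ν.2 < n → pc F ν = τ ν := by
  induction n with
  | zero => exact fun τ => ⟨0, zero_mem _, fun i m _ => rfl, fun ν _ h => absurd h (by omega)⟩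
  | succ n ih =>
    intro τ
    obtain ⟨G, h1, h2, h3⟩ := h n fun i => τ (i, n)
    obtain ⟨F, h4, h5, h6⟩ := ih fun ν => τ ν - pc G ν
    refine ⟨F + G, add_mem h4 h1, fun i => ((Chart_pole_mono h5 (by omega)) i).add (h2 i), ?_⟩
    rintro ⟨i, m⟩ hν hm
    rw [Chart_pc_add]
    rcases (Nat.lt_succ_iff.1 hm).lt_or_eq with hm | rfl
    · rw [h6 _ hν hm, sub_add_cancel]
    · rw [pole_iff.1 h5 _ le_rfl, h3 i hν, zero_add]

/-- the levels of `weiA` -/
def WeiC_V (X Y : E) (c : K) (n : ℕ) : Submodule K E := Submodule.span K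
  ({g | ∃ j ≤ n, g = (X - algebraMap K E c)⁻¹ ^ j} ∪
    {g | ∃ j, j + 2 ≤ n ∧ g = Y * (X - algebraMap K E c)⁻¹ ^ (j + 2)})

omit [IsAlgClosed K] [Fact (IsFF K E)] in
theorem WeiC_step {c : K} {n : ℕ} {g : E} (hg : g ∈ WeiC_V X Y c (n + 1)) : ∃ α β : K,
    g - (α • (X - algebraMap K E c)⁻¹ ^ (n + 1) + β • (Y * (X - algebraMap K E c)⁻¹ ^ (n + 1))) ∈
      WeiC_V X Y c n := by
  induction hg using Submodule.span_induction with
  | mem x hx =>
    rcases hx with ⟨j, hj, rfl⟩ | ⟨j, hj, rfl⟩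
    · rcases hj.lt_or_eq with hj | rfl
      · refine ⟨0, 0, ?_⟩
        rw [zero_smul, zero_smul, add_zero, sub_zero]
        exact Submodule.subset_span (Or.inl ⟨j, by omega, rfl⟩)
      · exact ⟨1, 0, by simp⟩
    · rcases hj.lt_or_eq with hj | hj
      · refine ⟨0, 0, ?_⟩
        rw [zero_smul, zero_smul, add_zero, sub_zero]
        exact Submodule.subset_span (Or.inr ⟨j, by omega, rfl⟩)
      · exact ⟨0, 1, by simp [hj]⟩
  | zero => exact ⟨0, 0, by simp⟩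
  | add x y _ _ hx hy =>
    obtain ⟨α, β, hx⟩ := hx
    obtain ⟨α', β', hy⟩ := hy
    refine ⟨α + α', β + β', ?_⟩
    convert add_mem hx hy using 1
    module
  | smul r x _ hx =>
    obtain ⟨α, β, hx⟩ := hx
    refine ⟨r * α, r * β, ?_⟩
    convert Submodule.smul_mem _ r hx using 1
    module

section
variable {c a : K} (d : CD K E (Fin 2)) (hd : d.x = algebraMap K E a + (X - algebraMap K E c)⁻¹)
include hd

omit [IsAlgClosed K] [Fact (IsFF K E)] in
theorem WeiC_ex (i : Fin 2) (j : ℕ) : (d.ex i ((X - algebraMap K E c)⁻¹ ^ j)).Ge (-j) ∧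
    (d.ex i ((X - algebraMap K E c)⁻¹ ^ j)).cf (-j) = 1 := by
  have e : d.ex i (X - algebraMap K E c)⁻¹ = LS.T K (-1) + -algebraMap K (LS K) a := by
    rw [← d.ex_x i, hd, map_add, AlgHom.commutes]
    ring
  have h1 : (d.ex i (X - algebraMap K E c)⁻¹).Ge (-1) := by
    rw [e]
    exact (LS.ge_T _).add ((LS.ge_algebraMap a).mono (by omega)).neg
  have h2 : (d.ex i (X - algebraMap K E c)⁻¹).cf (-1) = 1 := by
    rw [e]
    simp [LS.cf_T, LS.cf_algebraMap]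
  induction j with
  | zero =>
    rw [pow_zero, map_one, ← LS.T_zero]
    exact ⟨LS.ge_T _, by simp [LS.cf_T]⟩
  | succ j ih =>
    rw [pow_succ, map_mul, Nat.cast_succ, neg_add]
    exact ⟨ih.1.mul h1, by rw [LS.cf_mul_lead ih.1 h1, ih.2, h2, mul_one]⟩

omit [IsAlgClosed K] [Fact (IsFF K E)] in
theorem WeiC_not (i : Fin 2) : (X - algebraMap K E c)⁻¹ ∉ (d.pl i).1 := fun he => by
  have h1 := (d.mem_pl i _).1 he (-1) (by omega)
  have h2 := (WeiC_ex d hd i 1).2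
  rw [pow_one] at h2
  exact one_ne_zero (h2.symm.trans h1)

omit [IsAlgClosed K] [Fact (IsFF K E)] in
theorem WeiC_reg : (X - algebraMap K E c)⁻¹ ∈ d.reg := fun P hP => by
  have h1 : d.x ∈ P.1 := by
    by_contra h
    obtain ⟨i, rfl⟩ := d.pole P h
    exact hP ⟨i, rfl⟩
  simpa [hd] using sub_mem h1 (P.2.2 a)

theorem WeiC_u (i : Fin 2) : (d.pl i).Ge (X - algebraMap K E c) 1 := by
  rw [← Place.valuation_lt_one_iff]
  exact (ValuationSubring.mem_nonunits_iff_or _).2 (Or.inr (WeiC_not d hd i))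

theorem WeiC_X (i : Fin 2) : X ∈ (d.pl i).1 := by
  simpa using add_mem ((d.pl i).mem_iff.2 ((WeiC_u d hd i).mono (by omega))) ((d.pl i).2.2 c)

theorem IsWei.WeiC_exY (h : IsWei W X Y) (i : Fin 2) (j : ℕ) :
    (d.ex i (Y * (X - algebraMap K E c)⁻¹ ^ j)).Ge (-j) ∧
      (d.ex i (Y * (X - algebraMap K E c)⁻¹ ^ j)).cf (-j) = (d.pl i).val Y := by
  have h1 := h.WeiC_Y _ (WeiC_X d hd i)
  have h2 := (d.mem_pl i _).1 h1
  have h3 := WeiC_ex d hd i j
  rw [map_mul]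
  refine ⟨by simpa using h2.mul h3.1, ?_⟩
  have h4 := LS.cf_mul_lead h2 h3.1
  rw [zero_add, h3.2, mul_one] at h4
  rw [h4, d.val_eq i h1]

theorem IsWei.WeiC_pole (h : IsWei W X Y) {n : ℕ} {g : E} (hg : g ∈ WeiC_V X Y c n) :
    Pole (d.exT g) n := by
  intro i
  rw [d.exT_apply]
  induction hg using Submodule.span_induction with
  | mem x hx =>
    rcases hx with ⟨j, hj, rfl⟩ | ⟨j, hj, rfl⟩
    · exact (WeiC_ex d hd i j).1.mono (by omega)
    · exact (h.WeiC_exY d hd i (j + 2)).1.mono (by omega)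
  | zero => rw [map_zero]; exact fun _ _ => rfl
  | add x y _ _ hx hy => rw [map_add]; exact hx.add hy
  | smul r x _ hx => rw [map_smul]; exact hx.smul r

theorem IsWei.WeiC_lev (h : IsWei W X Y) (hy : (d.pl 0).val Y ≠ (d.pl 1).val Y) {g : E}
    (hg : g ∈ weiA X Y c) {n : ℕ} (hn : Pole (d.exT g) n) : g ∈ WeiC_V X Y c n := by
  have h1 : ∀ k, g ∈ WeiC_V X Y c (n + k) → g ∈ WeiC_V X Y c n := by
    intro k
    induction k with
    | zero => exact id
    | succ k ih =>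
      intro hk
      obtain ⟨α, β, h2⟩ := WeiC_step (n := n + k) hk
      have h3 : ∀ i, α + β * (d.pl i).val Y = 0 := by
        intro i
        have a1 := h.WeiC_pole d hd h2 i (-((n + k + 1 : ℕ) : ℤ)) (by omega)
        have a2 := hn i (-((n + k + 1 : ℕ) : ℤ)) (by omega)
        rw [d.exT_apply] at a1 a2
        rw [map_sub, map_add, map_smul, map_smul, LS.cf_sub, LS.cf_add, LS.cf_smul, LS.cf_smul, a2,
          (WeiC_ex d hd i _).2, (h.WeiC_exY d hd i _).2] at a1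
        linear_combination -a1
      have hβ : β = 0 := by
        refine (mul_eq_zero.1 (?_ : β * ((d.pl 0).val Y - (d.pl 1).val Y) = 0)).resolve_right
          (sub_ne_zero.2 hy)
        linear_combination h3 0 - h3 1
      have hα : α = 0 := by simpa [hβ] using h3 0
      exact ih (by simpa [hα, hβ] using h2)
  obtain ⟨A, B, rfl⟩ := (h.mem_weiA c).1 hg
  refine h1 (A.natDegree + B.natDegree + 2) (add_mem ?_ ?_)
  · rw [aeval_eq_sum_range]
    exact Submodule.sum_mem _ fun j hj => Submodule.smul_mem _ _ (Submodule.subset_span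
      (Or.inl ⟨j, by have := Finset.mem_range.1 hj; omega, rfl⟩))
  · rw [aeval_eq_sum_range, Finset.sum_mul]
    refine Submodule.sum_mem _ fun j hj => ?_
    rw [smul_mul_assoc]
    exact Submodule.smul_mem _ _ (Submodule.subset_span
      (Or.inr ⟨j, by have := Finset.mem_range.1 hj; omega, by ring⟩))

theorem IsWei.WeiC_chart (h : IsWei W X Y) (hy : (d.pl 0).val Y ≠ (d.pl 1).val Y) :
    IsChart {((1 : Fin 2), 0)} ((weiA X Y c).map d.exT) := by
  refine ⟨Subalgebra.mem_map.2 ⟨d.x, ?_, d.exT_x⟩, ?_, fun μ hμ => ?_⟩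
  · rw [hd]
    exact add_mem (algebraMap_mem _ a) (by simpa using WeiC_e_mem X Y c 1)
  · rintro _ ⟨g, hg, rfl⟩ h0
    have h1 : Pole (d.exT g) (1 : ℕ) := pole_iff.2 fun μ hμ => h0 μ fun e => by
      rw [Finset.mem_singleton.1 e] at hμ
      omega
    have h2 : WeiC_V X Y c 1 ≤ Submodule.span K {1, (X - algebraMap K E c)⁻¹ ^ 1} := by
      refine Submodule.span_mono ?_
      rintro _ (⟨j, hj, rfl⟩ | ⟨j, hj, rfl⟩)
      · interval_cases j
        · exact Or.inl (pow_zero _)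
        · exact Or.inr rfl
      · omega
    obtain ⟨α, β, rfl⟩ := Submodule.mem_span_pair.1 (h2 (h.WeiC_lev d hd hy hg h1))
    have h3 := h0 (0, 0) (by simp)
    have h4 : pc (d.exT ((X - algebraMap K E c)⁻¹ ^ 1)) (0, 0) = 1 := (WeiC_ex d hd 0 1).2
    rw [← Algebra.algebraMap_eq_smul_one] at h3 ⊢
    change pc (d.exT _) _ = 0 at h3
    rw [map_add, map_smul, AlgHom.commutes, Chart_pc_add, Chart_pc_smul, Chart_pc_C, h4, zero_add,
      mul_one] at h3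
    exact ⟨α, by rw [h3, zero_smul, add_zero]; exact d.exT.commutes α⟩
  · have key : ∀ (n : ℕ) (τ : Fin 2 → K), ∃ G ∈ (weiA X Y c).map d.exT, Pole G (n + 1 : ℕ) ∧
        ∀ i, (i, n) ∉ ({((1 : Fin 2), 0)} : Finset (Fin 2 × ℕ)) → pc G (i, n) = τ i := by
      intro n τ
      have e1 : ∀ i, pc (d.exT ((X - algebraMap K E c)⁻¹ ^ (n + 1))) (i, n) = 1 := fun i =>
        (WeiC_ex d hd i (n + 1)).2
      have e2 : ∀ i, pc (d.exT (Y * (X - algebraMap K E c)⁻¹ ^ (n + 1))) (i, n) =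
          (d.pl i).val Y := fun i => (h.WeiC_exY d hd i (n + 1)).2
      cases n with
      | zero =>
        refine ⟨τ 0 • d.exT ((X - algebraMap K E c)⁻¹ ^ (0 + 1)),
          Subalgebra.smul_mem _ (Subalgebra.mem_map.2 ⟨_, WeiC_e_mem X Y c _, rfl⟩) _,
          fun i => (WeiC_ex d hd i _).1.smul _, fun i hi => ?_⟩
        rw [Chart_pc_smul, e1, mul_one]
        fin_cases i
        · rfl
        · simp at hi
      | succ n =>
        have hy' := sub_ne_zero.2 hy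
        refine ⟨(τ 0 - (τ 0 - τ 1) / ((d.pl 0).val Y - (d.pl 1).val Y) * (d.pl 0).val Y) •
            d.exT ((X - algebraMap K E c)⁻¹ ^ (n + 1 + 1)) +
          ((τ 0 - τ 1) / ((d.pl 0).val Y - (d.pl 1).val Y)) •
            d.exT (Y * (X - algebraMap K E c)⁻¹ ^ (n + 1 + 1)),
          add_mem (Subalgebra.smul_mem _ (Subalgebra.mem_map.2 ⟨_, WeiC_e_mem X Y c _, rfl⟩) _)
            (Subalgebra.smul_mem _ (Subalgebra.mem_map.2 ⟨_, WeiC_f_mem X Y c n, rfl⟩) _),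
          fun i => ((WeiC_ex d hd i _).1.smul _).add ((h.WeiC_exY d hd i _).1.smul _),
          fun i _ => ?_⟩
        rw [Chart_pc_add, Chart_pc_smul, Chart_pc_smul, e1, e2]
        fin_cases i
        · simp
        · simp only [Fin.mk_one]
          field_simp
          ring
    obtain ⟨F, h1, h2, h3⟩ := WeiC_surj key (μ.2 + 1) fun ν => if ν = μ then 1 else 0
    refine ⟨F, h1, fun ν hν => ?_⟩
    rcases lt_or_ge ν.2 (μ.2 + 1) with h4 | h4
    · exact h3 ν hν h4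
    · rw [pole_iff.1 h2 ν h4, if_neg]
      rintro rfl
      omega

theorem IsWei.WeiC_le_reg (h : IsWei W X Y) : weiA X Y c ≤ d.reg := fun g hg P hP =>
  h.WeiC_le c P (WeiC_reg d hd P hP) g hg

theorem IsWei.WeiC_eq_reg (h : IsWei W X Y) (hy : (d.pl 0).val Y ≠ (d.pl 1).val Y)
    (hW : W.Δ ≠ 0) : weiA X Y c = d.reg := by
  classical
  refine le_antisymm (h.WeiC_le_reg d hd) fun g hg => ?_
  have hc := h.WeiC_chart d hd hy
  obtain ⟨f, hf, e⟩ := Subalgebra.mem_map.1 (hc.Chart_P_mem 0 (d.exT g))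
  have h1 : ∀ ν, ν ∉ ({((1 : Fin 2), 0)} : Finset (Fin 2 × ℕ)) → pc (d.exT (g - f)) ν = 0 := by
    intro ν hν
    have := hc.Chart_pc_P 0 (d.exT g) hν
    rwa [← e, ← map_sub d.exT] at this
  have h2 : g - f ∈ Lsp (Finsupp.single (d.pl 1) 1) := by
    intro P
    by_cases hP : P ∈ Set.range d.pl
    · obtain ⟨i, rfl⟩ := hP
      rw [d.ge_iff, Finsupp.single_apply]
      intro m hm
      have h3 : m < 0 := by split_ifs at hm <;> omega
      obtain ⟨k, rfl⟩ : ∃ k : ℕ, m = -((k : ℤ) + 1) := ⟨(-m - 1).toNat, by omega⟩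
      refine h1 (i, k) fun hi => ?_
      obtain ⟨rfl, rfl⟩ := Prod.mk.inj (Finset.mem_singleton.1 hi)
      simp at hm
    · rw [Finsupp.single_eq_of_ne fun e => hP ⟨1, e.symm⟩, neg_zero, ← P.mem_iff]
      exact sub_mem hg (h.WeiC_le_reg d hd hf) P hP
  have h3 : Lsp (0 : Dv K E) = Lsp (Finsupp.single (d.pl 1) 1) := by
    refine Submodule.eq_of_le_of_finrank_eq (rr_Lsp_mono (by simp)) ?_
    exact ell_zero.trans (ell_single (by rw [h.genus hW]; exact one_ne_zero) _).symm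
  rw [← h3, rr_Lsp_zero, Submodule.mem_span_singleton] at h2
  obtain ⟨r, hr⟩ := h2
  rw [eq_add_of_sub_eq hr.symm]
  exact add_mem (Subalgebra.smul_mem _ (one_mem _) r) hf

end

theorem IsWei.exists_chart (h : IsWei W X Y) {c : K} {y : Fin 2 → K} (hy : y 0 ≠ y 1)
    (hc : W.toAffine.polynomial.map (evalRingHom c) =
      (Polynomial.X - C (y 0)) * (Polynomial.X - C (y 1))) (a : K) :
    ∃ d : CD K E (Fin 2), d.x = algebraMap K E a + (X - algebraMap K E c)⁻¹ ∧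
      (∀ i, X ∈ (d.pl i).1 ∧ Y ∈ (d.pl i).1 ∧ (d.pl i).val X = c ∧ (d.pl i).val Y = y i) ∧
      weiA X Y c ≤ d.reg ∧ IsChart {((1 : Fin 2), 0)} ((weiA X Y c).map d.exT) ∧
      (W.Δ ≠ 0 → weiA X Y c = d.reg) := by
  classical
  have h0 : ∀ i, W.toAffine.polynomial.evalEval c (y i) = 0 := fun i => by
    rw [← map_evalRingHom_eval, hc]
    fin_cases i <;> simp
  choose pl hpl using fun i => h.WeiC_place (h0 i)
  have hy' : (pl 0).val Y ≠ (pl 1).val Y := by rwa [(hpl 0).2.2.2, (hpl 1).2.2.2]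
  have hne : pl 0 ≠ pl 1 := fun e => hy' (by rw [e])
  have hi : Function.Injective pl := fun i j e => by
    fin_cases i <;> fin_cases j
    · rfl
    · exact absurd e hne
    · exact absurd e.symm hne
    · rfl
  have hu := h.WeiC_ne c
  have he := inv_ne_zero hu
  have h1 : ∀ i, 1 ≤ dvInf K (X - algebraMap K E c)⁻¹ (pl i) := fun i => by
    have := Place.ge_sub_val (hpl i).1
    rw [(hpl i).2.2.1] at this
    rw [dvInf_apply he, Place.ord_inv _ hu, neg_neg]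
    exact le_max_of_le_left (this.resolve_left hu)
  have h2 : dvInf K (X - algebraMap K E c)⁻¹ =
      Finsupp.single (pl 0) 1 + Finsupp.single (pl 1) 1 := by
    refine WeiC_dv (fun P => ?_) (by rw [h.WeiC_dg, dg_add, dg_single, dg_single]; rfl)
    rw [Finsupp.add_apply, Finsupp.single_apply, Finsupp.single_apply]
    split_ifs with a1 a2 a2
    · exact absurd (a1.trans a2.symm) hne
    · exact a1 ▸ h1 0
    · exact a2 ▸ h1 1
    · rw [dvInf_apply he]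
      exact le_max_right _ _
  have h3 : ∀ i, (pl i).ord (X - algebraMap K E c)⁻¹ = -1 := fun i => by
    have a1 : dvInf K (X - algebraMap K E c)⁻¹ (pl i) = 1 := by
      rw [h2]
      fin_cases i <;> simp [hne, hne.symm]
    rw [dvInf_apply he] at a1
    omega
  obtain ⟨d, hd, rfl⟩ := exists_cd (x := algebraMap K E a + (X - algebraMap K E c)⁻¹) hi
    (fun i => by
      have := Place.ord_add_of_lt (P := pl i) (g := algebraMap K E a) he
        (by rw [h3]; exact (pl i).mem_iff.1 ((pl i).2.2 a))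
      rwa [h3, add_comm] at this)
    (fun P hP => by
      by_contra a1
      push Not at a1
      refine hP (add_mem (P.2.2 a) (P.mem_iff.2 (Or.inr ?_)))
      have a2 : dvInf K (X - algebraMap K E c)⁻¹ P = 0 := by
        rw [h2]
        simp [a1 0, a1 1]
      rw [dvInf_apply he] at a2
      omega)
  exact ⟨d, hd, hpl, h.WeiC_le_reg d hd, h.WeiC_chart d hd hy', h.WeiC_eq_reg d hd hy'⟩

/-- pole orders in `weiA` -/
theorem IsWei.lev_weiA (h : IsWei W X Y) {c : K} (d : CD K E (Fin 2)) {a : K}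
    (hd : d.x = algebraMap K E a + (X - algebraMap K E c)⁻¹)
    (hy : (d.pl 0).val Y ≠ (d.pl 1).val Y) {g : E} (hg : g ∈ weiA X Y c) {n : ℕ}
    (hn : Pole (d.exT g) n) : g ∈ Submodule.span K
      ({g | ∃ j ≤ n, g = (X - algebraMap K E c)⁻¹ ^ j} ∪
        {g | ∃ j, j + 2 ≤ n ∧ g = Y * (X - algebraMap K E c)⁻¹ ^ (j + 2)}) :=
  h.WeiC_lev d hd hy hg hn

theorem IsWei.val_inf (h : IsWei W X Y) (c : K) {b : Place K E} (hb : X ∉ b.1) :
    (∀ g ∈ weiA X Y c, g ∈ b.1) ∧ b.Ge (X - algebraMap K E c)⁻¹ 1 ∧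
      b.Ge (Y * (X - algebraMap K E c)⁻¹ ^ 2) 1 := by
  obtain ⟨b', h1, hX, hY, h2, h3⟩ := h.exists_inf
  obtain rfl : b = b' := by
    have : b ∈ poles K X := hb
    rwa [h1] at this
  have hu := h.WeiC_ne c
  have h4 := (Place.ord_add_of_lt (P := b) (g := -algebraMap K E c) hX
    (by rw [h2]; exact (b.mem_iff.1 (neg_mem (b.2.2 c))).mono (by omega))).2
  rw [← sub_eq_add_neg, h2] at h4
  have h5 : b.ord (X - algebraMap K E c)⁻¹ = 2 := by rw [b.ord_inv hu, h4, neg_neg]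
  refine ⟨h.WeiC_le c b (b.mem_iff.2 (Or.inr (by omega))), Or.inr (by omega), Or.inr ?_⟩
  rw [b.ord_mul hY (pow_ne_zero 2 (inv_ne_zero hu)), b.ord_pow (inv_ne_zero hu), h3, h5]
  norm_num

theorem IsWei.not_nil (p : ℕ) [Fact p.Prime] [CharP K p] (h : IsWei W X Y) (h0 : W.Δ = 0)
    (h1 : ¬ Cuspidal W) {c : K} (d : CD K E (Fin 2)) {a : K}
    (hd : d.x = algebraMap K E a + (X - algebraMap K E c)⁻¹)
    (hy : (d.pl 0).val Y ≠ (d.pl 1).val Y) :
    ¬ ∀ F : LT (Fin 2) K, ∃ n : ℕ, ∃ G ∈ (weiA X Y c).map d.exT, Pole (F ^ p ^ n - G) 0 := by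
  intro hF
  obtain ⟨x, y, l, l', hl, hW⟩ := exists_node W h0 h1
  have e0 := (h.ker _).2 dvd_rfl
  rw [hW] at e0
  simp only [AlgHom.toRingHom_eq_coe, Polynomial.map_sub, Polynomial.map_mul, map_X, map_C,
    RingHom.coe_coe, map_sub, map_mul, map_add, map_pow, aeval_X, aeval_C, Polynomial.map_add,
    Polynomial.map_pow, Algebra.algebraMap_self, RingHom.id_apply] at e0
  have hs := h.WeiC_ne x
  obtain ⟨z, hz⟩ : ∃ z, Y = algebraMap K E y + (algebraMap K E l + z) * (X - algebraMap K E x) :=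
    ⟨(Y - algebraMap K E y) / (X - algebraMap K E x) - algebraMap K E l, by field_simp; ring⟩
  have e1 : z ^ 2 + (algebraMap K E l - algebraMap K E l') * z = X - algebraMap K E x := by
    refine mul_left_cancel₀ (pow_ne_zero 2 hs) ?_
    rw [hz] at e0
    linear_combination e0
  have hcx : x - c ≠ 0 := by
    intro e
    obtain rfl := sub_eq_zero.1 e
    have : ∀ i, (d.pl i).val Y = y := fun i => by
      have a1 := WeiC_u d hd i
      have a2 := WeiC_quad (d.pl i) (sub_mem ((d.pl i).2.2 l) ((d.pl i).2.2 l'))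
        ((d.pl i).mem_iff.2 (a1.mono (by omega))) e1
      refine Place.val_eq ?_
      rw [hz, add_sub_cancel_left]
      simpa using ((d.pl i).mem_iff.1 (add_mem ((d.pl i).2.2 l) a2)).mul a1
    exact hy ((this 0).trans (this 1).symm)
  have hu := h.WeiC_ne c
  have hzt : Transcendental K z := by
    rw [transcendental_iff]
    rintro ⟨r, rfl⟩
    refine h.WeiC_ne (x + (r ^ 2 + (l - l') * r)) ?_
    simp only [map_add, map_mul, map_pow, map_sub]
    linear_combination -e1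
  have hg : z * (X - algebraMap K E c)⁻¹ ∈ d.reg := fun P hP => by
    have a1 := WeiC_reg d hd P hP
    refine WeiC_quad P (mul_mem (sub_mem (P.2.2 l) (P.2.2 l')) a1)
      (mul_mem (add_mem (one_mem _) (mul_mem (sub_mem (P.2.2 c) (P.2.2 x)) a1)) a1) ?_
    linear_combination (X - algebraMap K E c)⁻¹ ^ 2 * e1 +
      (X - algebraMap K E c)⁻¹ * mul_inv_cancel₀ hu
  obtain ⟨n, _, ⟨f, hf, rfl⟩, hn⟩ := hF (d.exT (z * (X - algebraMap K E c)⁻¹))
  obtain ⟨κ, hκ⟩ := const_of_regular (K := K) (f := (z * (X - algebraMap K E c)⁻¹) ^ p ^ n - f)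
    fun P => by
      by_cases hP : P ∈ Set.range d.pl
      · obtain ⟨i, rfl⟩ := hP
        rw [d.mem_pl, map_sub, map_pow]
        exact hn i
      · exact sub_mem (pow_mem hg _) (h.WeiC_le_reg d hd hf) P hP
  obtain ⟨A, B, hAB⟩ := (h.mem_weiA c).1 hf
  have key : ∀ r : K, r ^ 2 + (l - l') * r = 0 → (r * (x - c)⁻¹) ^ p ^ n =
      aeval (x - c)⁻¹ A + aeval (x - c)⁻¹ B * (y * (x - c)⁻¹ ^ 2) + κ := by
    intro r hr
    obtain ⟨P, a1, a2⟩ := exists_place_val hzt r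
    have hm : ∀ g : E, g ∈ regOut ({P}ᶜ : Set (Place K E)) ↔ g ∈ P.1 := fun g =>
      ⟨fun hg => hg P (by simp), fun hg Q hQ => by
        obtain rfl : Q = P := by simpa using hQ
        exact hg⟩
    obtain ⟨σ, hσ⟩ := P.exists_ev (regOut {P}ᶜ) fun g => (hm g).1
    obtain ⟨z', rfl⟩ : ∃ z' : regOut ({P}ᶜ : Set (Place K E)), z = z' := ⟨⟨z, (hm z).2 a1⟩, rfl⟩
    rw [← hσ] at a2
    obtain ⟨s, hs1, hs2⟩ : ∃ s : regOut ({P}ᶜ : Set (Place K E)),
        (s : E) = X - algebraMap K E x ∧ σ s = 0 :=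
      ⟨z' ^ 2 + (algebraMap K _ l - algebraMap K _ l') * z', e1, by simpa [a2] using hr⟩
    have b1 : ((s + algebraMap K _ (x - c) : regOut ({P}ᶜ : Set (Place K E))) : E) =
        X - algebraMap K E c := by simp [hs1]
    have b2 : (X - algebraMap K E c)⁻¹ ∈ P.1 := by
      by_contra b3
      have b4 : P.Ge (X - algebraMap K E c) 1 := P.valuation_lt_one_iff.1
        ((ValuationSubring.mem_nonunits_iff_or _).2 (Or.inr b3))
      rw [← b1, ← Place.val_eq_zero ((hm _).1 (Subtype.mem _)), ← hσ] at b4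
      exact hcx (by simpa [hs2] using b4)
    obtain ⟨e, he⟩ : ∃ e : regOut ({P}ᶜ : Set (Place K E)), (X - algebraMap K E c)⁻¹ = e :=
      ⟨⟨_, (hm _).2 b2⟩, rfl⟩
    have b3 : (s + algebraMap K _ (x - c)) * e = 1 := Subtype.ext (by
      rw [MulMemClass.coe_mul, b1, ← he, mul_inv_cancel₀ hu]
      rfl)
    have b4 : σ e = (x - c)⁻¹ := eq_inv_of_mul_eq_one_right (by
      simpa [hs2] using congrArg σ b3)
    have b5 : (z' * e) ^ p ^ n = aeval e A + aeval e B *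
        ((algebraMap K _ y + (algebraMap K _ l + z') * s) * e ^ 2) + algebraMap K _ κ := by
      refine Subtype.ext ?_
      rw [hAB, he, hz, ← hs1] at hκ
      simpa [Subalgebra.aeval_coe] using eq_add_of_sub_eq' hκ
    have b6 := congrArg σ b5
    simpa [a2, b4, hs2, ← aeval_algHom_apply] using b6
  have k1 := key 0 (by simp)
  have k2 := key (l' - l) (by ring)
  rw [← k1, zero_mul, zero_pow (pow_ne_zero n (Fact.out : p.Prime).ne_zero)] at k2
  exact mul_ne_zero (sub_ne_zero.2 hl.symm) (inv_ne_zero hcx) (pow_eq_zero_iff'.1 k2).1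

end PR0
end
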