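import Pool.Agent.Work.MP_da2620_ag.TailAA
import Pool.Agent.Work.MP_da2620_ag.WeiC

-- merged part: Pool.Agent.Work.MP_da2620_ag.CutA
section
/-!
# Polynomials in `x`, points of charts, monogenic fibres
-/

namespace PR0

open Polynomial

universe u

section poly

variable {R R' : Type u} [CommRing R] [CommRing R']

theorem Cut_cf' (p : R[X]) (m : ℤ) :
    (aeval (LS.T R (-1)) p).cf m = if m ≤ 0 then p.coeff (-m).toNat else 0 := by
  induction p using Polynomial.induction_on' with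
  | add p q hp hq =>
    rw [map_add, LS.cf_add, hp, hq, coeff_add]
    split_ifs <;> simp
  | monomial n a =>
    rw [aeval_monomial, ← Algebra.smul_def, LS.cf_smul, LS.T_pow, LS.cf_T, coeff_monomial]
    split_ifs <;> first | omega | simp

theorem Cut_cf (p : R[X]) (n : ℕ) : (aeval (LS.T R (-1)) p).cf (-n) = p.coeff n := by
  rw [Cut_cf', if_pos (by omega)]
  simp

theorem Cut_inj : Function.Injective (aeval (LS.T R (-1)) : R[X] →ₐ[R] LS R) := fun p q h =>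
  Polynomial.ext fun n => by rw [← Cut_cf, ← Cut_cf, h]

theorem Cut_map (φ : R →+* R') (p : R[X]) :
    LS.map φ (aeval (LS.T R (-1)) p) = aeval (LS.T R' (-1)) (p.map φ) := LS.ext fun m => by
  rw [LS.cf_map, Cut_cf', Cut_cf', coeff_map]
  split_ifs <;> simp

theorem Cut_desc {φ : R →+* R'} (hφ : Function.Injective φ) {p : R'[X]} {f : LS R}
    (h : aeval (LS.T R' (-1)) p = LS.map φ f) :
    ∃ p₀ : R[X], aeval (LS.T R (-1)) p₀ = f ∧ p₀.map φ = p := by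
  obtain ⟨p₀, rfl⟩ := (mem_lifts (f := φ) p).1 ((lifts_iff_coeff_lifts p).2 fun n =>
    ⟨f.cf (-n), by rw [← Cut_cf, h, LS.cf_map]⟩)
  exact ⟨p₀, LS.map_injective hφ (by rw [Cut_map, h]), rfl⟩

variable {ι : Type} [Fintype ι] [DecidableEq ι] {J : Finset (ι × ℕ)}

/-- `P` is the characteristic polynomial of `y`. -/
def Cut_CP (y : LT ι R) (P : R[X][X]) : Prop :=
  P.Monic ∧ P.map (aeval (LS.T R (-1)) : R[X] →ₐ[R] LS R).toRingHom = ∏ i, (X - C (y i))

omit [DecidableEq ι] in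
theorem Cut_prod_map {S S' : Type*} [CommRing S] [CommRing S'] (φ : S →+* S') (y : ι → S) :
    (∏ i, (X - C (y i))).map φ = ∏ i, (X - C (φ (y i))) := by
  simp [Polynomial.map_prod]

omit [DecidableEq ι] in
theorem Cut_CP.map {y : LT ι R} {P : R[X][X]} (h : Cut_CP y P) (φ : R →+* R') :
    Cut_CP (mapT φ y) (P.map (mapRingHom φ)) := by
  refine ⟨h.1.map _, ?_⟩
  have := congrArg (Polynomial.map (LS.map φ)) h.2
  rw [Cut_prod_map, Polynomial.map_map] at this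
  rw [Polynomial.map_map]
  refine Eq.trans ?_ this
  congr 1
  exact RingHom.ext fun p => (Cut_map φ p).symm

omit [DecidableEq ι] in
theorem Cut_CP.natDegree [Nontrivial R] {y : LT ι R} {P : R[X][X]} (h : Cut_CP y P) :
    P.natDegree = Fintype.card ι := by
  have : Nontrivial (LS R) := Cut_inj.nontrivial
  rw [← h.1.natDegree_map (aeval (LS.T R (-1)) : R[X] →ₐ[R] LS R).toRingHom, h.2,
    natDegree_prod_of_monic _ _ fun i _ => monic_X_sub_C _]
  simp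

omit [DecidableEq ι] in
theorem Cut_CP.eq {y : LT ι R} {P : R[X][X]} (h : Cut_CP y P) {g : ι → R[X]}
    (hg : ∀ i, y i = aeval (LS.T R (-1)) (g i)) : P = ∏ i, (X - C (g i)) := by
  refine map_injective (aeval (LS.T R (-1)) : R[X] →ₐ[R] LS R).toRingHom Cut_inj ?_
  rw [h.2, Cut_prod_map]
  exact Finset.prod_congr rfl fun i _ => by rw [hg]; rfl

theorem Cut_charpoly {K : Type u} [Field K] {ψ : R →+* K} (hψ : Function.Injective ψ)
    {A : Subalgebra R (LT ι R)} (h : IsChart J A) {y : LT ι R} (hy : y ∈ A) : ∃ P, Cut_CP y P := by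
  obtain ⟨P, -, hP⟩ := (h.bc ψ).exists_charpoly (Chart_mem_bc ψ hy)
  obtain ⟨q, h1, -, h2⟩ := lifts_and_natDegree_eq_and_monic
    (f := (aeval (LS.T R (-1)) : R[X] →ₐ[R] LS R).toRingHom) (p := ∏ i, (X - C (y i)))
    ((lifts_iff_coeff_lifts _).2 fun n => by
      obtain ⟨p₀, e, -⟩ := Cut_desc hψ (p := P.coeff n) (f := (∏ i, (X - C (y i))).coeff n) (by
        rw [← coeff_map, Cut_prod_map]
        exact (coeff_map _ _).symm.trans (congrArg (·.coeff n) hP))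
      exact ⟨p₀, e⟩) (monic_prod_of_monic _ _ fun i _ => monic_X_sub_C _)
  exact ⟨q, h2, h1⟩

/-- The function `x - α`. -/
noncomputable abbrev Cut_ξ (ι : Type) (α : R) : LT ι R := xx ι R - algebraMap R _ α

theorem Cut_mapT_ξ (φ : R →+* R') (α : R) : mapT φ (Cut_ξ ι α) = Cut_ξ ι (φ α) := by
  rw [map_sub, mapT_xx, mapT_algebraMap]

omit [Fintype ι] [DecidableEq ι] in
theorem Cut_ξ_apply (α : R) (i : ι) : Cut_ξ ι α i = aeval (LS.T R (-1)) (X - C α) := by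
  rw [map_sub, aeval_X, aeval_C]
  rfl

omit [Fintype ι] [DecidableEq ι] in
theorem Cut_ξ_ge (α : R) (i : ι) :
    (Cut_ξ ι α i).Ge (-(1 : ℕ)) ∧ IsUnit ((Cut_ξ ι α i).cf (-(1 : ℕ))) := by
  rw [Cut_ξ_apply, Cut_cf]
  refine ⟨fun m hm => ?_, by simp⟩
  rw [Cut_cf', if_pos (by omega), coeff_eq_zero_of_natDegree_lt]
  exact (natDegree_X_sub_C_le α).trans_lt (by omega)

omit [Fintype ι] [DecidableEq ι] in
theorem Cut_ξ_inv (α : R) : ∃ w : LT ι R, (∀ i, (w i).Ge 1) ∧ Cut_ξ ι α * w = 1 := by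
  choose w h1 h2 using fun i : ι => LS.exists_inv (Cut_ξ_ge α i).1 (Cut_ξ_ge α i).2
  exact ⟨w, fun i => by simpa using h1 i, funext h2⟩

omit [Fintype ι] [DecidableEq ι] in
theorem Cut_ξ_cancel {α : R} {G : LT ι R} (h : Cut_ξ ι α * G = 0) : G = 0 := by
  obtain ⟨w, -, hw⟩ := Cut_ξ_inv (ι := ι) α
  rw [← one_mul G, ← hw, mul_right_comm, h, zero_mul]

theorem Cut_mapT_aeval (φ : R →+* R') (y : LT ι R) (p : R[X]) :
    mapT φ (aeval y p) = aeval (mapT φ y) (p.map φ) :=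
  map_aeval_eq_aeval_map (φ := φ) (RingHom.ext fun c => (mapT_algebraMap φ c).symm) p y

omit [Fintype ι] [DecidableEq ι] in
theorem Cut_aeval_apply (y : LT ι R) (p : R[X]) (i : ι) : aeval y p i = aeval (y i) p :=
  (aeval_algHom_apply (Pi.evalAlgHom R (fun _ => LS R) i) y p).symm

omit [DecidableEq ι] in
theorem Cut_rel {A : Subalgebra R (LT ι R)} (hx : xx ι R ∈ A) {y : LT ι R} (hy : y ∈ A)
    {P : R[X][X]} (hP : Cut_CP y P) (α : R) : ∃ g : A,
      aeval y (P.map (evalRingHom α)) = Cut_ξ ι α * g ∧ ∀ σ : A →ₐ[R] R, σ ⟨_, hx⟩ = α →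
        σ g = -(derivative (P.eval (C (σ ⟨y, hy⟩)))).eval α := by
  obtain ⟨H, hH⟩ : C (X - C α) ∣ P - (P.map (evalRingHom α)).map C :=
    (C_dvd_iff_dvd_coeff _ _).2 fun n => by
      rw [coeff_sub, coeff_map, coeff_map]
      exact X_sub_C_dvd_sub_C_eval
  let f : R[X] →+* A := (aeval (⟨_, hx⟩ : A) : R[X] →ₐ[R] A).toRingHom
  have h1 : ∀ (G : R[X][X]) (i : ι), (eval₂ f ⟨y, hy⟩ G).1 i =
      eval (y i) (G.map (aeval (LS.T R (-1)) : R[X] →ₐ[R] LS R).toRingHom) := fun G i => by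
    let π : A →ₐ[R] LS R := (Pi.evalAlgHom R (fun _ => LS R) i).comp A.val
    rw [eval_map]
    refine (hom_eval₂ G f π.toRingHom _).trans ?_
    congr 1
    exact RingHom.ext fun p => (aeval_algHom_apply π _ p).symm
  refine ⟨-eval₂ f ⟨y, hy⟩ H, funext fun i => ?_, fun σ hσ => ?_⟩
  · have h2 := congrArg (fun G => eval (y i)
      (G.map (aeval (LS.T R (-1)) : R[X] →ₐ[R] LS R).toRingHom)) hH
    simp only [Polynomial.map_sub, Polynomial.map_mul, eval_sub, eval_mul, hP.2, map_C, eval_C,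
      eval_prod, eval_X] at h2
    rw [Finset.prod_eq_zero (Finset.mem_univ i) (sub_self _), zero_sub, Polynomial.map_map, eval_map,
      ← h1 H i, neg_eq_iff_eq_neg] at h2
    rw [Cut_aeval_apply, Pi.mul_apply, Cut_ξ_apply]
    refine Eq.trans ?_ (h2.trans ?_)
    · rw [aeval_def]
      congr 1
      exact RingHom.ext fun c => (aeval_C _ c).symm
    · exact (mul_neg _ _).symm
  · have h2 := congrArg (fun G => (derivative (G.eval (C (σ ⟨y, hy⟩)))).eval α) hH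
    have h3 : eval (C (σ ⟨y, hy⟩)) ((P.map (evalRingHom α)).map C) =
        C (eval (σ ⟨y, hy⟩) (P.map (evalRingHom α))) := by
      rw [eval_map, eval₂_hom]
    simp only [eval_sub, h3, eval_mul, eval_C, derivative_sub, derivative_C, sub_zero, derivative_mul,
      derivative_X, eval_add, eval_X, sub_self, zero_mul, add_zero, one_mul] at h2
    rw [map_neg, h2, neg_inj]
    refine (hom_eval₂ H f σ.toRingHom _).trans ?_
    have h4 := hom_eval₂ H (RingHom.id _) (evalRingHom α) (C (σ ⟨y, hy⟩))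
    simp only [coe_evalRingHom, eval_C] at h4
    refine Eq.trans ?_ h4.symm
    congr 1
    refine RingHom.ext fun p => (aeval_algHom_apply σ _ p).symm.trans ?_
    rw [hσ]
    rfl

/-- The powers of `y` below the degree are independent modulo `x - α`. -/
def Cut_Inj (A : Subalgebra R (LT ι R)) (y : LT ι R) (α : R) : Prop :=
  ∀ h : R[X], h.natDegree < Fintype.card ι → ∀ G ∈ A, aeval y h = Cut_ξ ι α * G → h = 0

/-- The value of the point with coordinates `v`. -/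
noncomputable def Cut_L (i₀ : ι) (v : ι × ℕ → R) : LT ι R →ₗ[R] R :=
  Model_co i₀ none + (Finsupp.linearCombination R v).comp Chart_pf

theorem Cut_L_apply (i₀ : ι) (v : ι × ℕ → R) (F : LT ι R) :
    Cut_L i₀ v F = (F i₀).cf 0 + ∑ μ ∈ (finite_pc F).toFinset, pc F μ * v μ := rfl

theorem Cut_L_map (φ : R →+* R') (i₀ : ι) (v : ι × ℕ → R) (F : LT ι R) :
    Cut_L i₀ (fun μ => φ (v μ)) (mapT φ F) = φ (Cut_L i₀ v F) := by
  rw [Cut_L_apply, Cut_L_apply, map_add, map_sum]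
  congr 1
  refine (Finset.sum_subset (fun μ hμ => ?_) fun μ _ hμ => ?_).trans
    (Finset.sum_congr rfl fun μ _ => (map_mul φ _ _).symm)
  · rw [Set.Finite.mem_toFinset] at hμ ⊢
    exact fun e => hμ (by rw [pc_mapT, e, map_zero])
  · rw [Set.Finite.mem_toFinset] at hμ
    rw [not_not.1 hμ, zero_mul]

theorem Cut_L_hom {A : Subalgebra R (LT ι R)} (h : IsChart J A) (i₀ : ι) (σ : A →ₐ[R] R) (F : A) :
    Cut_L i₀ (fun μ => σ ⟨_, h.chi_mem i₀ μ⟩) F = σ F := by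
  have e : F = algebraMap R A ((F.1 i₀).cf 0) +
      ∑ μ ∈ (finite_pc F.1).toFinset, pc F.1 μ • (⟨_, h.chi_mem i₀ μ⟩ : A) :=
    Subtype.ext ((Model_expr h i₀ F.2).trans (by simp))
  rw [Cut_L_apply]
  conv_rhs => rw [e, map_add, map_sum, AlgHom.commutes]
  exact congrArg _ (Finset.sum_congr rfl fun μ _ => (map_smul σ _ _).symm)

/-- `v` is the family of coordinates of a point of `A`. -/
def Cut_Pt (i₀ : ι) (J : Finset (ι × ℕ)) (A : Subalgebra R (LT ι R)) (v : ι × ℕ → R) : Prop :=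
  (∀ μ ∈ J, v μ = 0) ∧ ∀ F ∈ A, ∀ G ∈ A, Cut_L i₀ v (F * G) = Cut_L i₀ v F * Cut_L i₀ v G

variable {A : Subalgebra R (LT ι R)} {i₀ : ι} {v : ι × ℕ → R}

theorem Cut_pt_hom (h : IsChart J A) (i₀ : ι) (σ : A →ₐ[R] R) :
    Cut_Pt i₀ J A fun μ => σ ⟨_, h.chi_mem i₀ μ⟩ := by
  refine ⟨fun μ hμ => ?_, fun F hF G hG => ?_⟩
  · have e : (⟨_, h.chi_mem i₀ μ⟩ : A) = 0 := Subtype.ext (Chart_chi_zero i₀ A hμ)
    exact (congrArg σ e).trans (map_zero σ)
  · have e := map_mul σ (⟨F, hF⟩ : A) (⟨G, hG⟩ : A)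
    rw [← Cut_L_hom h i₀, ← Cut_L_hom h i₀, ← Cut_L_hom h i₀] at e
    exact e

theorem Cut_Pt.bc (h : Cut_Pt i₀ J A v) (φ : R →+* R') :
    Cut_Pt i₀ J (bc φ A) fun μ => φ (v μ) := by
  refine ⟨fun μ hμ => (congrArg φ (h.1 μ hμ)).trans (map_zero φ), fun F hF G hG => ?_⟩
  rw [mem_bc] at hF hG
  induction hF, hG using Submodule.span_induction₂ with
  | mem_mem F G hF hG =>
    obtain ⟨F, hF, rfl⟩ := hF
    obtain ⟨G, hG, rfl⟩ := hG
    rw [← map_mul, Cut_L_map, Cut_L_map, Cut_L_map, h.2 F hF G hG, map_mul]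
  | zero_left => simp
  | zero_right => simp
  | add_left _ _ _ _ _ _ h1 h2 => rw [add_mul, map_add, h1, h2, map_add, add_mul]
  | add_right _ _ _ _ _ _ h1 h2 => rw [mul_add, map_add, h1, h2, map_add, mul_add]
  | smul_left c _ _ _ _ h1 => rw [smul_mul_assoc, map_smul, h1, map_smul, smul_mul_assoc]
  | smul_right c _ _ _ _ h1 => rw [mul_smul_comm, map_smul, h1, map_smul, mul_smul_comm]

theorem Cut_Pt.of_bc {φ : R →+* R'} (hφ : Function.Injective φ)
    (h : Cut_Pt i₀ J (PR0.bc φ A) fun μ => φ (v μ)) : Cut_Pt i₀ J A v :=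
  ⟨fun μ hμ => hφ ((h.1 μ hμ).trans (map_zero φ).symm), fun F hF G hG => hφ (by
    rw [map_mul φ, ← Cut_L_map, ← Cut_L_map, ← Cut_L_map, map_mul,
      h.2 _ (Chart_mem_bc φ hF) _ (Chart_mem_bc φ hG)])⟩

theorem Cut_L_C (i₀ : ι) (v : ι × ℕ → R) (c : R) : Cut_L i₀ v (algebraMap R _ c) = c := by
  rw [Cut_L_apply, Chart_cf_C, Finset.sum_eq_zero fun μ _ => by rw [Chart_pc_C, zero_mul], add_zero]

theorem Cut_Pt.chi (hv : Cut_Pt i₀ J A v) (h : IsChart J A) (μ : ι × ℕ) :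
    Cut_L i₀ v (chi i₀ J A μ) = v μ := by
  by_cases hμ : μ ∈ J
  · rw [Chart_chi_zero i₀ A hμ, map_zero, hv.1 μ hμ]
  rw [Cut_L_apply, h.chi_cf, zero_add, Finset.sum_eq_single μ, h.pc_chi i₀ hμ hμ, if_pos rfl, one_mul]
  · intro ν _ hν
    by_cases e : ν ∈ J
    · rw [hv.1 ν e, mul_zero]
    · rw [h.pc_chi i₀ hμ e, if_neg hν, zero_mul]
  · intro e
    rw [Set.Finite.mem_toFinset] at e
    rw [not_not.1 e, zero_mul]

/-- The point with given coordinates. -/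
noncomputable def Cut_Pt.hom (hv : Cut_Pt i₀ J A v) : A →ₐ[R] R where
  toFun F := Cut_L i₀ v F
  map_one' := Cut_L_C i₀ v 1
  map_mul' F G := hv.2 F F.2 G G.2
  map_zero' := map_zero _
  map_add' _ _ := map_add _ _ _
  commutes' := Cut_L_C i₀ v

end poly

section field

variable {K : Type u} [Field K] {ι : Type} [Fintype ι] [DecidableEq ι] {J : Finset (ι × ℕ)}

omit [Fintype ι] [DecidableEq ι] in
theorem Cut_pole_aeval {y : LT ι K} {m d : ℕ} (hy : Pole y m) {h : K[X]} (hh : h.natDegree < d) :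
    Pole (aeval y h) (d * m : ℕ) := by
  rw [aeval_eq_sum_range' hh]
  refine (Submodule.sum_mem (lev ⊤ (d * m : ℕ)) fun l hl => Submodule.smul_mem _ _
    ⟨trivial, fun i => ((hy i).pow l).mono ?_⟩).2
  have := Nat.mul_le_mul_right m (Finset.mem_range.1 hl).le
  push_cast
  linarith [(Int.ofNat_le.2 this : ((l * m : ℕ) : ℤ) ≤ (d * m : ℕ)), Nat.cast_mul (α := ℤ) l m,
    Nat.cast_mul (α := ℤ) d m]

theorem Cut_gen [Nonempty ι] {A : Subalgebra K (LT ι K)} (h : IsChart J A) {y : LT ι K} (hy : y ∈ A)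
    {α : K} (hi : Cut_Inj A y α) {F : LT ι K} (hF : F ∈ A) :
    ∃ p : K[X], p.natDegree < Fintype.card ι ∧ ∃ G ∈ A, F = aeval y p + Cut_ξ ι α * G := by
  obtain ⟨m, hm⟩ := exists_pole y
  obtain ⟨m', hm'⟩ := exists_pole F
  obtain ⟨M, hM⟩ := Chart_bound J
  set d := Fintype.card ι with hd
  have hd0 : 0 < d := Fintype.card_pos
  let n := d * m + m' + M
  have hξ : Cut_ξ ι α ∈ A := sub_mem h.x_mem (A.algebraMap_mem α)
  have hdeg : ∀ p : degreeLT K d, p.1.natDegree < d := fun p => by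
    by_cases e : p.1 = 0
    · rw [e]; exact hd0
    · exact (natDegree_lt_iff_degree_lt e).2 (mem_degreeLT.1 p.2)
  let Φ : degreeLT K d × lev A n →ₗ[K] LT ι K :=
    ((aeval y).toLinearMap.comp (degreeLT K d).subtype).coprod
      ((LinearMap.mulLeft K (Cut_ξ ι α)).comp (lev A n).subtype)
  have hΦ : ∀ z, Φ z = aeval y z.1.1 + Cut_ξ ι α * z.2.1 := fun z => rfl
  have h1 : ∀ z, Φ z ∈ lev A (n + 1 : ℕ) := fun z => by
    refine add_mem ⟨?_, Chart_pole_mono (Cut_pole_aeval hm (hdeg z.1)) (by omega)⟩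
      ⟨mul_mem hξ z.2.2.1, Chart_pole_mono (Univ_pole_mul (fun i => (Cut_ξ_ge α i).1) z.2.2.2)
        (by omega)⟩
    exact Algebra.adjoin_le (Set.singleton_subset_iff.2 hy) (aeval_mem_adjoin_singleton K y)
  have h2 : Function.Injective (Φ.codRestrict _ h1) := by
    refine (injective_iff_map_eq_zero _).2 fun z hz => ?_
    have e : aeval y z.1.1 + Cut_ξ ι α * z.2.1 = 0 := congrArg Subtype.val hz
    have e1 := hi _ (hdeg z.1) _ (neg_mem z.2.2.1) (by rw [mul_neg]; exact eq_neg_of_add_eq_zero_left e)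
    rw [e1, map_zero, zero_add] at e
    exact Prod.ext (Subtype.ext e1) (Subtype.ext (Cut_ξ_cancel e))
  have := h.finite_lev n
  have := h.finite_lev (n + 1 : ℕ)
  have := Module.Finite.of_basis (degreeLT.basis K d)
  have h3 := h.finrank_lev (n := n) fun ν hν => (hM ν hν).trans_le (by omega)
  have h4 := h.finrank_lev (n := n + 1) fun ν hν => (hM ν hν).trans_le (by omega)
  obtain ⟨z, hz⟩ := (LinearMap.injective_iff_surjective_of_finrank_eq_finrank (by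
    rw [Module.finrank_prod, Module.finrank_eq_card_basis (degreeLT.basis K d), Fintype.card_fin]
    rw [add_mul, one_mul] at h4
    omega)).1 h2 ⟨F, hF, Chart_pole_mono hm' (by omega)⟩
  exact ⟨z.1.1, hdeg _, z.2.1, z.2.2.1, (congrArg Subtype.val hz).symm⟩

theorem Cut_sing0 {A : Type u} [CommRing A] [Algebra K A] (σ : A →ₐ[K] K) {ξ y R : A}
    (hξ : ∀ g, ξ * g = 0 → g = 0) (h0 : σ ξ = 0) {Q : K[X]} (hQ : Q ≠ 0) (hQ' : Q.eval (σ y) = 0)
    (h1 : ∀ F, ∃ (p : K[X]) (g : A), F = aeval y p + ξ * g)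
    (h2 : ∀ (p : K[X]) (g : A), aeval y p = ξ * g → (X - C (σ y)) * Q ∣ p)
    (hR : σ R = 0) (h3 : aeval y ((X - C (σ y)) * Q) = ξ * R) : Sing σ := by
  rintro ⟨u, s, hu, hs, h⟩
  have hσ : ∀ p : K[X], σ (aeval y p) = p.eval (σ y) := fun p => by
    rw [← aeval_algHom_apply, coe_aeval_eq_eval]
  set η := aeval y (X - C (σ y)) with hη
  have hη0 : σ η = 0 := by rw [hσ]; simp
  obtain ⟨g₁, e₁⟩ := h ξ h0
  obtain ⟨g₂, e₂⟩ := h η hη0
  have hu' : ∀ w, u * w = 0 → s * w = 0 := fun w hw => hξ _ (by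
    rw [← mul_assoc, mul_comm ξ, e₁, mul_right_comm, hw, zero_mul])
  have key : ∀ (t : A) (q : K[X]), σ t ≠ 0 → ξ ∣ t * aeval y q →
      ∃ p : K[X], p.eval (σ y) ≠ 0 ∧ (X - C (σ y)) * Q ∣ p * q := fun t q ht ⟨g, hg⟩ => by
    obtain ⟨p, g', e⟩ := h1 t
    refine ⟨p, ?_, h2 _ (g - g' * aeval y q) ?_⟩
    · rwa [e, map_add, map_mul, h0, zero_mul, add_zero, hσ] at ht
    · rw [map_mul, mul_sub, ← hg, e]
      ring
  obtain ⟨p, g, e⟩ := h1 u
  obtain ⟨p₂, rfl⟩ : X - C (σ y) ∣ p := dvd_iff_isRoot.2 (by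
    rwa [e, map_add, map_mul, h0, zero_mul, add_zero, hσ] at hu)
  rw [map_mul, ← hη] at e h3
  have h4 := congrArg σ (hu' (s - (g₂ * aeval y p₂ + g₁ * g)) (by
    linear_combination s * e + aeval y p₂ * e₂ + g * e₁))
  rw [map_mul, map_zero, mul_eq_zero, or_iff_right hs, map_sub, map_add, map_mul, map_mul] at h4
  by_cases c₁ : σ g₁ = 0
  · have c₂ : σ g₂ ≠ 0 := fun c₂ => hs (by simpa [c₁, c₂] using h4)
    obtain ⟨g₄, e₄⟩ := h R hR
    have h5 := hu' (g₂ * aeval y Q - ξ * g₄) (by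
      linear_combination s * h3 - aeval y Q * e₂ + ξ * e₄)
    obtain ⟨p, hp, hp'⟩ := key (s * g₂) Q (by rw [map_mul]; exact mul_ne_zero hs c₂)
      ⟨s * g₄, by linear_combination h5⟩
    exact hp (dvd_iff_isRoot.1 ((mul_dvd_mul_iff_right hQ).1 hp'))
  · obtain ⟨p, hp, hp'⟩ := key (s * g₁) (X - C (σ y)) (by rw [map_mul]; exact mul_ne_zero hs c₁)
      ⟨s * g₂, by rw [← hη]; linear_combination g₁ * e₂ - g₂ * e₁⟩
    rw [mul_comm p, mul_dvd_mul_iff_left (X_sub_C_ne_zero _)] at hp'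
    exact hp (eval_eq_zero_of_dvd_of_eval_eq_zero hp' hQ')

theorem Cut_ld0 {A : Type u} [CommRing A] [Algebra K A] (σ : A →ₐ[K] K) {ξ y : A} {Q : K[X]}
    (h1 : ∀ F, ∃ (p : K[X]) (g : A), F = aeval y p + ξ * g) (hQ : ξ ∣ aeval y Q)
    (h3 : ¬ (X - C (σ y)) ^ 3 ∣ Q) (n : ℕ) :
    Module.finrank K (A ⧸ (Ideal.span {ξ} ⊔ RingHom.ker σ ^ n)) ≤ 2 := by
  set I := Ideal.span {ξ} ⊔ RingHom.ker σ ^ n
  let π := Ideal.Quotient.mkₐ K I
  have hξ : ∀ g, π (ξ * g) = 0 := fun g => Ideal.Quotient.eq_zero_iff_mem.2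
    (Ideal.mem_sup_left (Ideal.mem_span_singleton.2 ⟨g, rfl⟩))
  have hQ0 : Q ≠ 0 := fun e => h3 (e ▸ dvd_zero _)
  obtain ⟨Q₁, e, hQ₁⟩ := exists_eq_pow_rootMultiplicity_mul_and_not_dvd Q hQ0 (σ y)
  have hr : rootMultiplicity (σ y) Q ≤ 2 := by
    by_contra c
    exact h3 ((le_rootMultiplicity_iff hQ0).1 (by omega))
  have hu : IsUnit (aeval (π y) Q₁) := by
    have h4 : IsNilpotent (π (aeval y Q₁ - algebraMap K A (Q₁.eval (σ y)))) :=
      ⟨n, by
        rw [← map_pow]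
        refine Ideal.Quotient.eq_zero_iff_mem.2 (Ideal.mem_sup_right (Ideal.pow_mem_pow ?_ n))
        rw [RingHom.mem_ker, map_sub, ← aeval_algHom_apply, coe_aeval_eq_eval, AlgHom.commutes]
        exact sub_self _⟩
    have h5 := h4.isUnit_add_right_of_commute (((IsUnit.mk0 (Q₁.eval (σ y)) fun c => hQ₁ (dvd_iff_isRoot.2 c)).map
      (algebraMap K A)).map π) (Commute.all _ _)
    rwa [← map_add, sub_add_cancel, ← aeval_algHom_apply] at h5
  have h6 : aeval (π y) ((X - C (σ y)) ^ 2) = 0 := by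
    obtain ⟨g, hg⟩ := hQ
    have h7 : aeval (π y) Q = 0 := by rw [aeval_algHom_apply, hg, hξ]
    rw [e, map_mul, hu.mul_left_eq_zero] at h7
    obtain ⟨w, hw⟩ := pow_dvd_pow (X - C (σ y)) hr
    rw [hw, map_mul, h7, zero_mul]
  refine (finrank_le_of_span_eq_top (v := fun l : Fin 2 => π y ^ (l : ℕ))
    (eq_top_iff.2 fun z _ => ?_)).trans (by simp)
  obtain ⟨F, rfl⟩ := Ideal.Quotient.mkₐ_surjective K I z
  obtain ⟨p, g, rfl⟩ := h1 F
  have hm : ((X - C (σ y)) ^ 2).Monic := (monic_X_sub_C _).pow 2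
  have h8 : (p %ₘ (X - C (σ y)) ^ 2).natDegree < 2 := by
    refine (natDegree_modByMonic_lt p hm fun c => ?_).trans_le (by simp)
    simpa using congrArg natDegree c
  change π _ ∈ _
  rw [map_add, hξ, add_zero, ← aeval_algHom_apply, ← aeval_modByMonic_eq_self_of_root h6,
    aeval_eq_sum_range' h8]
  exact Submodule.sum_mem _ fun l hl => Submodule.smul_mem _ _
    (Submodule.subset_span ⟨⟨l, Finset.mem_range.1 hl⟩, rfl⟩)

variable [Nonempty ι] {A : Subalgebra K (LT ι K)} {y : LT ι K} {P : K[X][X]}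

theorem Cut_gen' (h : IsChart J A) (hy : y ∈ A) {α : K} (hi : Cut_Inj A y α) (F : A) :
    ∃ (p : K[X]) (g : A), F = aeval (⟨y, hy⟩ : A) p +
      (⟨xx ι K, h.x_mem⟩ - algebraMap K A α) * g := by
  obtain ⟨p, -, G, hG, e⟩ := Cut_gen h hy hi F.2
  exact ⟨p, ⟨G, hG⟩, Subtype.ext (e.trans (by simp))⟩

theorem Cut_ld (h : IsChart J A) (hy : y ∈ A) (hP : Cut_CP y P) (σ : A →ₐ[K] K)
    (hi : Cut_Inj A y (σ ⟨_, h.x_mem⟩))
    (h3 : ∀ β, ¬ (X - C β) ^ 3 ∣ P.map (evalRingHom (σ ⟨_, h.x_mem⟩))) (n : ℕ) :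
    Module.finrank K (A ⧸ (Ideal.span {⟨xx ι K, h.x_mem⟩ - algebraMap K A (σ ⟨xx ι K, h.x_mem⟩)} ⊔
      RingHom.ker σ ^ n)) ≤ 2 := by
  obtain ⟨g, hg, -⟩ := Cut_rel h.x_mem hy hP (σ ⟨_, h.x_mem⟩)
  exact Cut_ld0 σ (Cut_gen' h hy hi) ⟨g, Subtype.ext (by simpa using hg)⟩ (h3 _) n

theorem Cut_sing (h : IsChart J A) (hy : y ∈ A) (hP : Cut_CP y P) (σ : A →ₐ[K] K)
    (hi : Cut_Inj A y (σ ⟨_, h.x_mem⟩))
    (h1 : (derivative (P.eval (C (σ ⟨y, hy⟩)))).eval (σ ⟨_, h.x_mem⟩) = 0)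
    (h2 : (derivative (P.map (evalRingHom (σ ⟨_, h.x_mem⟩)))).eval (σ ⟨y, hy⟩) = 0) : Sing σ := by
  obtain ⟨g, hg, hg'⟩ := Cut_rel h.x_mem hy hP (σ ⟨_, h.x_mem⟩)
  set Q := P.map (evalRingHom (σ ⟨_, h.x_mem⟩))
  have hQ : Q.Monic := hP.1.map _
  have hd : Q.natDegree = Fintype.card ι := (hP.1.natDegree_map _).trans hP.natDegree
  let ξ : A := ⟨xx ι K, h.x_mem⟩ - algebraMap K A (σ ⟨xx ι K, h.x_mem⟩)
  have h0 : σ ξ = 0 := by simp [ξ]
  have h3 : aeval (⟨y, hy⟩ : A) Q = ξ * g := Subtype.ext (by simpa [ξ] using hg)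
  obtain ⟨Q₂, e⟩ : X - C (σ ⟨y, hy⟩) ∣ Q := dvd_iff_isRoot.2 (by
    have := congrArg σ h3
    rwa [map_mul, h0, zero_mul, ← aeval_algHom_apply, coe_aeval_eq_eval] at this)
  refine Cut_sing0 σ (ξ := ξ) (y := ⟨y, hy⟩) (R := g) (Q := Q₂)
    (fun g e => Subtype.ext (Cut_ξ_cancel (congrArg Subtype.val e))) h0
    (fun c => hQ.ne_zero (by rw [e, c, mul_zero])) (by simpa [e] using h2) (Cut_gen' h hy hi)
    (fun p G hp => ?_) (by rw [hg' σ rfl, h1, neg_zero]) (e ▸ h3)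
  rw [← e, ← modByMonic_eq_zero_iff_dvd hQ]
  refine hi _ ?_ (G - g * aeval (⟨y, hy⟩ : A) (p /ₘ Q) : A) (Subtype.property _) ?_
  · refine (natDegree_modByMonic_lt p hQ fun c => ?_).trans_eq hd
    rw [c, natDegree_one] at hd
    exact Fintype.card_ne_zero hd.symm
  · have h4 : aeval (⟨y, hy⟩ : A) (p %ₘ Q) = ξ * (G - g * aeval (⟨y, hy⟩ : A) (p /ₘ Q)) := by
      rw [modByMonic_eq_sub_mul_div, map_sub, map_mul, hp, h3]
      ring
    simpa [ξ] using congrArg Subtype.val h4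

end field

end PR0
end

-- merged part: Pool.Agent.Work.MP_da2620_ag.CutB
section
/-!
# Generators of the fibres of a model whose special fibre consists of lines
-/

namespace PR0

open Polynomial

universe u

variable {κ : Type u} [Field κ] {ι : Type} [Fintype ι] [DecidableEq ι] {J : Finset (ι × ℕ)}

omit [DecidableEq ι] in
theorem Cut_pol {A : Subalgebra κ (LT ι κ)} (hl : Lines A) :
    ∃ ρ : ι → A →ₐ[κ] κ[X], ∀ i (F : A), F.1 i = aeval (LS.T κ (-1)) (ρ i F) := by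
  let e := AlgEquiv.ofInjective (aeval (LS.T κ (-1)) : κ[X] →ₐ[κ] LS κ) Cut_inj
  refine ⟨fun i => (e.symm : _ →ₐ[κ] κ[X]).comp
    (((Pi.evalAlgHom κ (fun _ => LS κ) i).comp A.val).codRestrict
      (aeval (LS.T κ (-1)) : κ[X] →ₐ[κ] LS κ).range fun F =>
      (hl.poly F F.2 i).imp fun _ => Eq.symm), fun i F => ?_⟩
  exact (congrArg Subtype.val (e.apply_symm_apply
    ⟨F.1 i, (hl.poly F F.2 i).imp fun _ => Eq.symm⟩)).symm

omit [Fintype ι] [DecidableEq ι] in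
theorem Cut_glue {A : Subalgebra κ (LT ι κ)} {ρ : ι → A →ₐ[κ] κ[X]}
    (hρ : ∀ i (F : A), F.1 i = aeval (LS.T κ (-1)) (ρ i F)) {i i' : ι} {a : κ} {n : ℕ} :
    Glue A i i' a n ↔ ∀ F : A, (X - C a) ^ n ∣ ρ i F - ρ i' F := by
  refine ⟨fun h F => h F F.2 _ _ (hρ i F) (hρ i' F), fun h F hF p p' e e' => ?_⟩
  rw [Cut_inj (e.symm.trans (hρ i ⟨F, hF⟩)), Cut_inj (e'.symm.trans (hρ i' ⟨F, hF⟩))]
  exact h _

omit [DecidableEq ι] in
open Classical in
theorem Cut_cnt {b : ι → κ} {β : κ} {r : ℕ} (h : (X - C β) ^ r ∣ ∏ j, (X - C (b j))) :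
    r ≤ (Finset.univ.filter fun j => β = b j).card := by
  have h0 : ∏ j, (X - C (b j)) ≠ 0 := (monic_prod_of_monic _ _ fun i _ => monic_X_sub_C _).ne_zero
  have h1 : (∏ j, (X - C (b j))).roots = Finset.univ.val.map b := by
    rw [← roots_multiset_prod_X_sub_C (Finset.univ.val.map b), Multiset.map_map]
    rfl
  rw [← le_rootMultiplicity_iff h0, ← count_roots, h1, Multiset.count_map] at h
  exact h

omit [DecidableEq ι] [Field κ] in
open Classical in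
theorem Cut_two {b : ι → κ}
    (h3 : ∀ j j' j'', b j = b j' → b j = b j'' → j = j' ∨ j = j'' ∨ j' = j'') (β : κ) :
    (Finset.univ.filter fun j => β = b j).card ≤ 2 := by
  by_contra c
  obtain ⟨j, j', j'', h, h', h'', e⟩ := Finset.two_lt_card_iff.1 (not_le.1 c)
  rw [Finset.mem_filter] at h h' h''
  have := h3 j j' j'' (h.2.symm.trans h'.2) (h.2.symm.trans h''.2)
  tauto

omit [DecidableEq ι] in
theorem Cut_deg {b : ι → κ} {h : κ[X]} (h0 : h ≠ 0) (h1 : ∀ j, h.eval (b j) = 0)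
    (h2 : ∀ j j', j ≠ j' → b j = b j' → (X - C (b j)) ^ 2 ∣ h)
    (h3 : ∀ j j' j'', b j = b j' → b j = b j'' → j = j' ∨ j = j'' ∨ j' = j'') :
    Fintype.card ι ≤ h.natDegree := by
  classical
  refine le_trans ?_ (card_roots' h)
  refine le_trans (by simp) (Multiset.card_le_card (s := Finset.univ.val.map b)
    (Multiset.le_iff_count.2 fun β => ?_))
  rw [count_roots, Multiset.count_map]
  change (Finset.univ.filter fun j => β = b j).card ≤ _
  have h4 := Cut_two h3 β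
  by_cases c : 1 < (Finset.univ.filter fun j => β = b j).card
  · obtain ⟨j, hj, j', hj', e⟩ := Finset.one_lt_card.1 c
    rw [Finset.mem_filter] at hj hj'
    have := (le_rootMultiplicity_iff h0).2 (h2 j j' e (hj.2.symm.trans hj'.2))
    rw [← hj.2] at this
    convert h4.trans this
  · rcases (Finset.univ.filter fun j => β = b j).eq_empty_or_nonempty with e | ⟨j, hj⟩
    · simp [e]
    · rw [Finset.mem_filter] at hj
      exact (not_lt.1 c).trans ((rootMultiplicity_pos h0).2 (hj.2 ▸ h1 j))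

theorem Cut_generic [Infinite κ] {A : Subalgebra κ (LT ι κ)} (h : IsChart J A) (hl : Lines A)
    (a : κ) : ∃ y ∈ A, ∃ g : ι → κ[X], (∀ j, y j = aeval (LS.T κ (-1)) (g j)) ∧ Cut_Inj A y a ∧
      ∀ j j' j'', (g j).eval a = (g j').eval a → (g j).eval a = (g j'').eval a →
        j = j' ∨ j = j'' ∨ j' = j'' := by
  obtain ⟨ρ, hρ⟩ := Cut_pol hl
  obtain ⟨M, hM⟩ := Chart_bound J
  have h1 : ∀ p : {p : ι × ι // p.1 ≠ p.2}, ∃ n, Glue A p.1.1 p.1.2 a n ∧
      ¬ Glue A p.1.1 p.1.2 a (n + 1) := by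
    rintro ⟨⟨j, j'⟩, hj⟩
    by_contra! c
    have h2 : ∀ n, Glue A j j' a n := fun n => by
      induction n with
      | zero => exact (Cut_glue hρ).2 fun F => by simp
      | succ n ih => exact c n ih
    let F : A := ⟨_, h.chi_mem j (j, M)⟩
    have h3 := eq_zero_of_dvd_of_natDegree_lt ((Cut_glue hρ).1
      (h2 ((ρ j F - ρ j' F).natDegree + 1)) F) (by simp)
    have h4 : F.1 j = F.1 j' := by rw [hρ, hρ, sub_eq_zero.1 h3]
    have n1 : ∀ l, (l, M) ∉ J := fun l hl => (hM _ hl).false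
    have h5 := (h.pc_chi j (n1 j) (n1 j)).symm.trans
      ((congrArg (·.cf (-(M + 1))) h4).trans (h.pc_chi j (n1 j) (n1 j')))
    rw [if_pos rfl, if_neg fun e => hj (congrArg Prod.fst e).symm] at h5
    exact one_ne_zero h5
  choose n hn hn' using h1
  obtain ⟨y, hy⟩ := Submodule.exists_forall_notMem_of_forall_ne_top
    (fun p : {p : ι × ι // p.1 ≠ p.2} =>
      ((Ideal.span {(X - C a) ^ (n p + 1)}).restrictScalars κ).comap
        ((ρ p.1.1).toLinearMap - (ρ p.1.2).toLinearMap)) fun p e => hn' p ((Cut_glue hρ).2 fun F =>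
      Ideal.mem_span_singleton.1 (Submodule.eq_top_iff'.1 e F))
  have hy' : ∀ p, ¬ (X - C a) ^ (n p + 1) ∣ ρ p.1.1 y - ρ p.1.2 y := fun p e =>
    hy p (Ideal.mem_span_singleton.2 e)
  have h6 : ∀ j j', (ρ j y).eval a = (ρ j' y).eval a → Glue A j j' a 1 := fun j j' e => by
    by_cases c : j = j'
    · exact (Cut_glue hρ).2 fun F => by simp [c]
    refine (Cut_glue hρ).2 fun F => (pow_dvd_pow _ (Nat.pos_of_ne_zero fun c' => ?_)).trans
      ((Cut_glue hρ).1 (hn ⟨(j, j'), c⟩) F)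
    refine hy' ⟨(j, j'), c⟩ ?_
    rw [c', zero_add, pow_one, dvd_iff_isRoot, IsRoot, eval_sub, e, sub_self]
  have h7 : ∀ j j' j'', (ρ j y).eval a = (ρ j' y).eval a → (ρ j y).eval a = (ρ j'' y).eval a →
      j = j' ∨ j = j'' ∨ j' = j'' := fun j j' j'' e e' => hl.two a j j' j'' (h6 _ _ e) (h6 _ _ e')
  refine ⟨y, y.2, fun j => ρ j y, fun j => hρ j y, fun p hp G hG e => ?_, h7⟩
  by_contra c
  have h8 : ∀ j, aeval (ρ j y) p = (X - C a) * ρ j ⟨G, hG⟩ := fun j => Cut_inj (by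
    rw [← aeval_algHom_apply, ← hρ, map_mul, ← hρ, ← Cut_aeval_apply, e, ← Cut_ξ_apply a j]
    rfl)
  have h9 : ∀ (q : κ[X]) j, (aeval (ρ j y) q).eval a = q.eval ((ρ j y).eval a) := fun q j => by
    rw [← comp_eq_aeval, eval_comp]
  have h10 : ∀ j, p.eval ((ρ j y).eval a) = 0 := fun j => by rw [← h9, h8]; simp
  refine hp.not_ge (Cut_deg c h10 (fun j j' hj e' => ?_) h7)
  obtain ⟨q, rfl⟩ := dvd_iff_isRoot.2 (h10 j)
  rw [pow_two]
  refine mul_dvd_mul_left _ (dvd_iff_isRoot.2 ?_)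
  set b := (ρ j y).eval a with hb
  obtain ⟨r, hr⟩ := (Cut_glue hρ).1 (hn ⟨(j, j'), hj⟩) y
  obtain ⟨r', hr'⟩ := (Cut_glue hρ).1 (hn ⟨(j, j'), hj⟩) ⟨G, hG⟩
  obtain ⟨w, hw⟩ : ρ j y - ρ j' y ∣ aeval (ρ j y) q - aeval (ρ j' y) q := by
    simp only [aeval_def]
    rw [← eval_map, ← eval_map]
    exact sub_dvd_eval_sub _ _ _
  obtain ⟨w', hw'⟩ : X - C a ∣ ρ j' y - C b := dvd_iff_isRoot.2 (by simp [e'])
  have e1 := h8 j
  have e2 := h8 j'
  simp only [map_mul, map_sub, aeval_X, aeval_C, algebraMap_eq] at e1 e2 hr hr'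
  have h11 : r * aeval (ρ j y) q = (X - C a) * (r' - w' * r * w) :=
    mul_left_cancel₀ (pow_ne_zero (n ⟨(j, j'), hj⟩) (X_sub_C_ne_zero a)) (by
      linear_combination e1 - e2 + (X - C a) * hr' - (aeval (ρ j y) q + (X - C a) * w' * w) * hr -
        (ρ j' y - C b) * hw - (ρ j y - ρ j' y) * w * hw')
  have h12 := congrArg (eval a) h11
  rw [eval_mul, eval_mul, h9, eval_sub, eval_X, eval_C, sub_self, zero_mul, mul_eq_zero] at h12
  refine h12.resolve_left fun c' => hy' ⟨(j, j'), hj⟩ ?_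
  rw [hr, pow_succ]
  exact mul_dvd_mul_left _ (dvd_iff_isRoot.2 c')

omit [DecidableEq ι] in
theorem Cut_mult {Q : (HF κ)[X]} (hQ : Q.Monic) {b : ι → κ}
    (hb : ∀ n, ∃ o : HO κ, inc κ o = Q.coeff n ∧ red κ o = (∏ j, (X - C (b j))).coeff n) {β : HF κ}
    {r : ℕ} (hr : r ≠ 0) (h : (X - C β) ^ r ∣ Q) : ∃ β₀, (X - C β₀) ^ r ∣ ∏ j, (X - C (b j)) := by
  obtain ⟨Q₀, rfl, -, h1⟩ := lifts_and_natDegree_eq_and_monic
    ((lifts_iff_coeff_lifts (f := inc κ) Q).2 fun n => (hb n).imp fun _ e => e.1) hQ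
  have h2 : Q₀.map (red κ) = ∏ j, (X - C (b j)) := Polynomial.ext fun n => by
    obtain ⟨o, e, e'⟩ := hb n
    rw [coeff_map] at e ⊢
    rw [← Model_inc_inj e, e']
  obtain ⟨β₀, rfl⟩ : ∃ β₀, inc κ β₀ = β := IsIntegrallyClosed.isIntegral_iff.1 ⟨Q₀, h1, by
    rw [← eval_map]
    exact dvd_iff_isRoot.1 ((dvd_pow_self _ hr).trans h)⟩
  have h3 : (X - C β₀) ^ r ∣ Q₀ :=
    (map_dvd_map (inc κ) Model_inc_inj ((monic_X_sub_C _).pow r)).1 (by simpa using h)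
  exact ⟨red κ β₀, by simpa [h2] using map_dvd (red κ) h3⟩

variable {𝒜 : Subalgebra (HO κ) (LT ι (HO κ))}

theorem Cut_Inj.gen (h : IsChart J 𝒜) {y : LT ι (HO κ)} {α : HO κ}
    (hi : Cut_Inj (spe 𝒜) (mapT (red κ) y) (red κ α)) :
    Cut_Inj (gen' 𝒜) (mapT (inc κ) y) (inc κ α) := by
  intro p hp G hG e
  by_contra c
  obtain ⟨n, hn, hn'⟩ := p.support.exists_min_image (fun n => hv (p.coeff n))
    (support_nonempty.2 c)
  rw [mem_support_iff] at hn
  obtain ⟨p₀, h1⟩ := (mem_lifts (f := inc κ) (C (p.coeff n)⁻¹ * p)).1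
    ((lifts_iff_coeff_lifts _).2 fun m => by
      refine ⟨⟨(C (p.coeff n)⁻¹ * p).coeff m, ?_⟩, rfl⟩
      rw [coeff_C_mul, mul_comm, ← div_eq_mul_inv, mem_HO, Hahn_div hn]
      by_cases e : m ∈ p.support
      · exact hn' m e
      · rw [notMem_support_iff.1 e, hv_eq_top.2 rfl]
        exact le_top)
  have h2 : p₀.coeff n = 1 := Model_inc_inj (by
    rw [← coeff_map, h1, coeff_C_mul, inv_mul_cancel₀ hn, map_one])
  have h3 : p₀.natDegree ≤ p.natDegree := by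
    rw [← natDegree_map_eq_of_injective Model_inc_inj, h1]
    exact natDegree_C_mul_le _ _
  obtain ⟨w, -, hw⟩ := Cut_ξ_inv (ι := ι) α
  have h4 : w * aeval y p₀ ∈ 𝒜 := h.mem_of_mapT Model_inc_inj (by
    have := congrArg (mapT (inc κ)) hw
    rw [map_mul, map_one, Cut_mapT_ξ] at this
    rw [map_mul, Cut_mapT_aeval, h1, map_mul, aeval_C, e, mul_left_comm, ← mul_assoc (mapT _ w),
      mul_comm (mapT _ w), this, one_mul]
    exact mul_mem (Subalgebra.algebraMap_mem _ _) hG)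
  have h5 := hi (p₀.map (red κ)) ((natDegree_map_le.trans h3).trans_lt hp) _
    (Chart_mem_bc (red κ) h4) (by
      rw [← Cut_mapT_aeval, ← Cut_mapT_ξ, ← map_mul, ← mul_assoc, hw, one_mul])
  have h6 := congrArg (·.coeff n) h5
  simp only [coeff_map, h2, map_one, coeff_zero] at h6
  exact one_ne_zero h6

theorem Cut_theta [IsAlgClosed κ] [Nonempty ι] (h : IsChart J 𝒜) (σ₀ : 𝒜 →+* κ)
    (hσ : ∀ c : HO κ, σ₀ (algebraMap _ _ c) = red κ c) (α : HO κ)
    (hx : σ₀ ⟨_, h.x_mem⟩ = red κ α) :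
    ∃ θ : 𝒜 →ₐ[HO κ] HO κ, θ ⟨_, h.x_mem⟩ = α ∧ ∀ F, red κ (θ F) = σ₀ F := by
  let ξ : 𝒜 := ⟨_, h.x_mem⟩ - algebraMap _ _ α
  have hξ : σ₀ ξ = 0 := by rw [σ₀.map_sub, hx, hσ, sub_self]
  let S : Submonoid 𝒜 :=
    { carrier := {x | ∃ (a : HO κ) (s : 𝒜), a ≠ 0 ∧ σ₀ s ≠ 0 ∧ x = a • s}
      one_mem' := ⟨1, 1, one_ne_zero, by simp, by simp⟩
      mul_mem' := by
        rintro _ _ ⟨a, s, ha, hs, rfl⟩ ⟨a', s', ha', hs', rfl⟩
        exact ⟨a * a', s * s', mul_ne_zero ha ha', by rw [map_mul]; exact mul_ne_zero hs hs',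
          smul_mul_smul_comm _ _ _ _⟩ }
  obtain ⟨𝔭, hp, hle, hdis⟩ := Ideal.exists_le_prime_disjoint (Ideal.span {ξ}) S (by
    rw [Set.disjoint_left]
    rintro x hx ⟨a, s, ha, hs, rfl⟩
    obtain ⟨g, hg⟩ := Ideal.mem_span_singleton.1 hx
    obtain ⟨g', rfl⟩ := Model_tf h ξ (Cut_ξ_ge α) ha s g hg
    exact hs (by rw [map_mul, hξ, zero_mul]))
  rw [Set.disjoint_left] at hdis
  let _ : Semiring (𝒜 ⧸ 𝔭) := Ideal.Quotient.semiring 𝔭
  have h1 : ∀ f ∈ 𝔭, σ₀ f = 0 := fun f hf => by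
    by_contra e
    exact hdis hf ⟨1, f, one_ne_zero, e, (one_smul _ _).symm⟩
  have h2 : ∀ a : HO κ, algebraMap _ (𝒜 ⧸ 𝔭) a = 0 → a = 0 := fun a ha => by
    by_contra e
    refine hdis (a := algebraMap _ 𝒜 a) (Ideal.Quotient.eq_zero_iff_mem.1 ha) ⟨a, 1, e, by simp, ?_⟩
    exact Algebra.algebraMap_eq_smul_one a
  have : FaithfulSMul (HO κ) (𝒜 ⧸ 𝔭) :=
    (faithfulSMul_iff_algebraMap_injective _ _).2 ((RingHom.injective_iff_ker_eq_bot _).2 (eq_bot_iff.2 h2))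
  have := Model_fin h ξ (Cut_ξ_ge α)
  have : Module.Finite (HO κ) (𝒜 ⧸ 𝔭) := Module.Finite.of_surjective
    (Ideal.Quotient.factorₐ (HO κ) hle).toLinearMap (Ideal.Quotient.factor_surjective hle)
  obtain ⟨φ, hφ, hφ', -⟩ := Arc_ext (B := HO κ) (S := 𝒜 ⧸ 𝔭) (HO κ) (fun b => b.2) ⊥
    fun b hb => by rw [h2 b hb, map_zero, map_zero]; exact zero_lt_one
  let σ : 𝒜 →ₐ[HO κ] HO κ :=
    { toFun := fun f => ⟨φ (Ideal.Quotient.mk 𝔭 f), hφ' _⟩
      map_one' := Subtype.ext φ.toRingHom.map_one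
      map_mul' := fun a b => Subtype.ext
        (φ.toRingHom.map_mul (Ideal.Quotient.mk 𝔭 a) (Ideal.Quotient.mk 𝔭 b))
      map_zero' := Subtype.ext φ.toRingHom.map_zero
      map_add' := fun a b => Subtype.ext
        (φ.toRingHom.map_add (Ideal.Quotient.mk 𝔭 a) (Ideal.Quotient.mk 𝔭 b))
      commutes' := fun c => Subtype.ext (φ.commutes c) }
  have h3 : ∀ f, σ f = 0 → f ∈ 𝔭 := fun f hf =>
    Ideal.Quotient.eq_zero_iff_mem.1 (hφ ((congrArg Subtype.val hf).trans (map_zero φ).symm))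
  refine ⟨σ, ?_, fun f => ?_⟩
  · have h4 : σ ξ = 0 := Subtype.ext ((congrArg φ (Ideal.Quotient.eq_zero_iff_mem.2
      (hle (Ideal.mem_span_singleton_self ξ)))).trans (map_zero φ))
    rw [map_sub, AlgHom.commutes, sub_eq_zero] at h4
    exact h4
  · have := h1 _ (h3 (f - algebraMap _ _ (σ f)) (by rw [map_sub, AlgHom.commutes]; exact sub_self _))
    rw [σ₀.map_sub, hσ, sub_eq_zero] at this
    exact this.symm

theorem Cut_inj_far {K : Type u} [Field K] [IsAlgClosed K] {A : Subalgebra K (LT ι K)}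
    (h : IsChart J A) {y : LT ι K} (hy : Function.Injective y) {P : K[X][X]} (hP : Cut_CP y P)
    {α : K} (h2 : ∀ β, ¬ (X - C β) ^ 2 ∣ P.map (evalRingHom α)) : Cut_Inj A y α := by
  classical
  intro p hp G hG e
  by_contra c
  obtain ⟨P', hP'⟩ := Cut_charpoly (ψ := RingHom.id K) Function.injective_id h hG
  let ε := (aeval (LS.T K (-1)) : K[X] →ₐ[K] LS K).toRingHom
  have h3 : P ∣ (P'.scaleRoots (X - C α)).comp (p.map C) := by
    rw [← map_dvd_map ε Cut_inj hP.1, hP.2]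
    refine Finset.prod_dvd_of_coprime (fun j _ j' _ e => pairwise_coprime_X_sub_C hy e)
      fun j _ => dvd_iff_isRoot.2 ?_
    have h4 : eval (y j) ((p.map C).map ε) = ε (X - C α) * G j := by
      rw [Polynomial.map_map, eval_map]
      refine Eq.trans ?_ ((Cut_aeval_apply y p j).symm.trans ((congrFun e j).trans
        (congrArg (· * G j) (Cut_ξ_apply α j))))
      rw [aeval_def]
      congr 1
      exact RingHom.ext fun c => aeval_C _ c
    rw [IsRoot, map_comp, eval_comp, h4, eval_map]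
    refine scaleRoots_eval₂_eq_zero ε ?_
    rw [← eval_map, hP'.2, eval_prod]
    exact Finset.prod_eq_zero (Finset.mem_univ j) (by simp)
  set Q := P.map (evalRingHom α)
  have hQ : Q.Monic := hP.1.map _
  have h5 : Q ∣ p ^ Fintype.card ι := by
    have := map_dvd (evalRingHom α) h3
    rw [map_comp, map_scaleRoots _ _ _ (by simp [hP'.1.leadingCoeff]), Polynomial.map_map] at this
    have e1 : (evalRingHom α).comp C = RingHom.id K := RingHom.ext fun c => eval_C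
    simpa [e1, (hP'.1.map (evalRingHom α)).leadingCoeff, hP'.1.natDegree_map, hP'.natDegree]
      using this
  refine hp.not_ge (le_trans ?_ (card_roots' p))
  rw [← hP.natDegree, ← hP.1.natDegree_map (evalRingHom α),
    (IsAlgClosed.splits Q).natDegree_eq_card_roots]
  refine Multiset.card_le_card (Multiset.le_iff_count.2 fun β => ?_)
  rw [count_roots, count_roots]
  rcases Nat.eq_zero_or_pos (rootMultiplicity β Q) with e | e
  · omega
  have h6 : ¬ 2 ≤ rootMultiplicity β Q := fun e => h2 β ((le_rootMultiplicity_iff hQ.ne_zero).1 e)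
  have h7 := ((rootMultiplicity_pos hQ.ne_zero).1 e).dvd h5
  rw [IsRoot, eval_pow] at h7
  have := (rootMultiplicity_pos c).2 (eq_zero_of_pow_eq_zero h7)
  omega

section lead

variable {R : Type u} [CommRing R]

/-- Power series. -/
def Cut_S (R : Type u) [CommRing R] : Subring (LS R) where
  carrier := {f | f.Ge 0}
  mul_mem' hf hg := (LS.Ge.mul hf hg).mono (add_zero 0).ge
  one_mem' := LS.ge_T 0
  add_mem' := LS.Ge.add
  zero_mem' _ _ := rfl
  neg_mem' := LS.Ge.neg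

/-- The constant term. -/
noncomputable def Cut_c0 (R : Type u) [CommRing R] : Cut_S R →+* R where
  toFun f := f.1.cf 0
  map_one' := (LS.cf_T 0 0).trans (if_pos rfl)
  map_mul' f g := LS.cf_mul_lead (a := 0) (b := 0) f.2 g.2
  map_zero' := rfl
  map_add' _ _ := LS.cf_add _ _ _

omit [DecidableEq ι] in
theorem Cut_lead [IsDomain R] {y : ι → LS R} {m : ℕ} {c : ι → R}
    (hy : ∀ j, (y j).Ge (-m) ∧ (y j).cf (-m) = c j) (r : ℕ) :
    ((∏ j, (X - C (y j))).coeff r).Ge (-((Fintype.card ι - r) * m : ℕ)) ∧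
      ((∏ j, (X - C (y j))).coeff r).cf (-((Fintype.card ι - r) * m : ℕ)) =
        (∏ j, (X - C (c j))).coeff r := by
  classical
  let e : ι → Cut_S R := fun j => ⟨LS.T R m * y j, 
    ((LS.ge_T (m : ℤ)).mul (hy j).1).mono (by omega)⟩
  have h1 : ∀ s : Finset ι, (∏ j ∈ s, (X - C (y j))).scaleRoots (LS.T R m) =
      ∏ j ∈ s, (X - C (e j).1) := fun s => by
    induction s using Finset.induction_on with
    | empty => simp
    | insert j s hj ih =>
      rw [Finset.prod_insert hj, Finset.prod_insert hj, mul_scaleRoots_of_noZeroDivisors, ih,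
        X_sub_C_scaleRoots, mul_comm (y j)]
  have h2 := congrArg (·.coeff r) ((h1 Finset.univ).trans (Cut_prod_map (Cut_S R).subtype e).symm)
  have h3 := congrArg (·.coeff r) (Cut_prod_map (Cut_c0 R) e)
  simp only [coeff_map, coeff_scaleRoots] at h2 h3
  rw [natDegree_prod_of_monic _ _ fun i _ => monic_X_sub_C _, LS.T_pow, mul_comm] at h2
  simp only [natDegree_X_sub_C, Finset.sum_const, smul_eq_mul, mul_one, Finset.card_univ] at h2
  have h4 : ∀ n, ((∏ j, (X - C (e j))).coeff r).1.cf n =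
      ((∏ j, (X - C (y j))).coeff r).cf (n - ((Fintype.card ι - r) * m : ℕ)) := fun n => by
    rw [Nat.cast_mul, ← LS.cf_T_mul, h2]
    rfl
  refine ⟨fun n hn => ?_, ?_⟩
  · have := ((∏ j, (X - C (e j))).coeff r).2 (n + ((Fintype.card ι - r) * m : ℕ)) (by omega)
    rwa [h4, add_sub_cancel_right] at this
  · rw [← zero_sub, ← h4]
    refine h3.trans (congrArg (coeff · r) (Finset.prod_congr rfl fun j _ => ?_))
    rw [← (hy j).2, ← zero_sub, ← LS.cf_T_mul]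
    rfl

end lead

theorem Cut_top {α : HF κ} {t : HO κ} (ht : red κ t = 0) (hα : inc κ t * α = 1) {p : (HO κ)[X]}
    {N : ℕ} (hp : (aeval (LS.T (HO κ) (-1)) p).Ge (-N)) :
    ∃ o : HO κ, inc κ o = (p.map (inc κ)).eval α * inc κ t ^ N ∧ red κ o = red κ (p.coeff N) := by
  have h1 : p.natDegree < N + 1 := Nat.lt_succ_of_le (natDegree_le_iff_coeff_eq_zero.2 fun n hn => by
    rw [← Cut_cf]
    exact hp _ (by omega))
  refine ⟨∑ s ∈ Finset.range (N + 1), p.coeff s * t ^ (N - s), ?_, ?_⟩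
  · rw [eval_eq_sum_range' (natDegree_map_le.trans_lt h1), map_sum, Finset.sum_mul]
    refine Finset.sum_congr rfl fun s hs => ?_
    obtain ⟨l, rfl⟩ := Nat.exists_eq_add_of_le (Nat.le_of_lt_succ (Finset.mem_range.1 hs))
    rw [coeff_map, map_mul, map_pow, Nat.add_sub_cancel_left, pow_add, mul_assoc, ← mul_assoc (α ^ s),
      ← mul_pow, mul_comm α, hα, one_pow, one_mul]
  · rw [Finset.sum_range_succ, map_add, map_sum, Finset.sum_eq_zero fun s hs => by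
      rw [map_mul, map_pow, ht, zero_pow (by have := Finset.mem_range.1 hs; omega), mul_zero]]
    simp

theorem Cut_far [IsAlgClosed κ] [Nonempty ι] (h : IsChart J 𝒜) {α : HF κ} (hα : α ∉ HO κ) :
    ∃ y ∈ gen' 𝒜, ∃ P, Cut_CP y P ∧ Cut_Inj (gen' 𝒜) y α ∧
      ∀ β, ¬ (X - C β) ^ 3 ∣ P.map (evalRingHom α) := by
  classical
  obtain ⟨i₀⟩ := ‹Nonempty ι›
  obtain ⟨M, hM⟩ := Chart_bound J
  let c : ι ↪ κ := (Fintype.equivFin ι).toEmbedding.trans
    (Fin.valEmbedding.trans (Infinite.natEmbedding κ))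
  obtain ⟨t, ht, ht'⟩ := Gauss_inv (r := red κ) (fun c => by
    rw [← ValuationSubring.valuation_lt_one_iff, mem_max_HO]
    exact hres_eq_zero) hα
  let y : LT ι (HO κ) := ∑ j, algebraMap κ (HO κ) (c j) • chi i₀ J 𝒜 (j, M)
  have hy : y ∈ 𝒜 := sum_mem fun j _ => 𝒜.smul_mem (h.chi_mem i₀ _) _
  have n1 : ∀ l, (l, M) ∉ J := fun l hl => (hM _ hl).false
  have h1 : ∀ j, (y j).Ge (-(M + 1 : ℕ)) ∧ (y j).cf (-(M + 1 : ℕ)) = algebraMap κ (HO κ) (c j) :=
    fun j => by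
      refine ⟨(Submodule.sum_mem (lev 𝒜 (M + 1 : ℕ)) fun l _ => Submodule.smul_mem _ _
        ⟨h.chi_mem i₀ _, h.pole_chi i₀ (Nat.lt_succ_self M)
          fun ν hν => (hM ν hν).trans (Nat.lt_succ_self M)⟩).2 j, ?_⟩
      change pc y (j, M) = _
      rw [Chart_pc_sum, Finset.sum_eq_single j (fun l _ hl => ?_) (by simp), Chart_pc_smul,
        h.pc_chi i₀ (n1 j) (n1 j), if_pos rfl, mul_one]
      rw [Chart_pc_smul, h.pc_chi i₀ (n1 l) (n1 j), if_neg fun e => hl (congrArg Prod.fst e).symm,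
        mul_zero]
  obtain ⟨P, hP⟩ := Cut_charpoly Model_inc_inj h hy
  have hP' := hP.map (inc κ)
  set Q := (P.map (mapRingHom (inc κ))).map (evalRingHom α) with hQ
  have h2 : ∀ β, ¬ (X - C β) ^ 2 ∣ Q := fun β hβ => by
    have hu : IsUnit (inc κ t ^ (M + 1)) := (IsUnit.of_mul_eq_one _ ht').pow _
    have h3 := scaleRoots_dvd' _ _ hu hβ
    rw [pow_scaleRoots_of_isReduced, X_sub_C_scaleRoots] at h3
    obtain ⟨β₀, h4⟩ := Cut_mult (b := c) ((monic_scaleRoots_iff _).2 (hP'.1.map _)) (fun r => by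
      have h5 := Cut_lead h1 r
      rw [← hP.2, coeff_map] at h5
      obtain ⟨o, e, e'⟩ := Cut_top ht ht' h5.1
      refine ⟨o, ?_, ?_⟩
      · rw [e, coeff_scaleRoots, hP'.1.natDegree_map, hP'.natDegree, ← pow_mul, mul_comm (M + 1),
          coeff_map, coeff_map]
        rfl
      · rw [e', ← Cut_cf]
        refine (congrArg (red κ) h5.2).trans ?_
        rw [← coeff_map, Cut_prod_map]
        exact congrArg (coeff · r) (Finset.prod_congr rfl fun j _ =>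
          congrArg (X - C ·) (hres.commutes (c j)))) two_ne_zero h3
    obtain ⟨j, hj, j', hj', e⟩ := Finset.one_lt_card.1 (Cut_cnt h4)
    rw [Finset.mem_filter] at hj hj'
    exact e (c.injective (hj.2.symm.trans hj'.2))
  refine ⟨_, Chart_mem_bc _ hy, _, hP', Cut_inj_far (h.bc _) (fun j j' e => ?_) hP' h2,
    fun β hβ => h2 β ((pow_dvd_pow _ (by omega)).trans hβ)⟩
  have h6 : y j = y j' := LS.map_injective Model_inc_inj e
  exact c.injective ((algebraMap κ (HO κ)).injective (by rw [← (h1 j).2, h6, (h1 j').2]))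

theorem Cut_near [IsAlgClosed κ] (h : IsChart J 𝒜) (hl : Lines (spe 𝒜)) (α : HO κ) :
    ∃ y ∈ gen' 𝒜, ∃ P, Cut_CP y P ∧ Cut_Inj (gen' 𝒜) y (inc κ α) ∧
      ∀ β, ¬ (X - C β) ^ 3 ∣ P.map (evalRingHom (inc κ α)) := by
  obtain ⟨_, hy₀, g, hg, hi, h3⟩ := Cut_generic (h.bc _) hl (red κ α)
  obtain ⟨y, hy, rfl⟩ := h.mem_spe.1 hy₀
  obtain ⟨P, hP⟩ := Cut_charpoly Model_inc_inj h hy
  refine ⟨_, Chart_mem_bc _ hy, _, hP.map _, hi.gen h, fun β hβ => ?_⟩
  obtain ⟨β₀, h4⟩ := Cut_mult (b := fun j => (g j).eval (red κ α)) ((hP.map _).1.map _) (fun r => by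
    refine ⟨(P.coeff r).eval α, ?_, ?_⟩
    · rw [coeff_map, coeff_map, coe_mapRingHom, coe_evalRingHom, eval_map, eval₂_hom]
    · have e := congrArg (fun q => (q.map (evalRingHom (red κ α))).coeff r) ((hP.map _).eq hg)
      simp only [Cut_prod_map, coeff_map, coe_mapRingHom, coe_evalRingHom, eval_map, eval₂_hom] at e
      exact e) three_ne_zero hβ
  exact absurd ((Cut_cnt h4).trans (Cut_two h3 β₀)) (by omega)

end PR0
end

-- merged part: Pool.Agent.Work.MP_da2620_ag.Cut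
section
/-!
# Cutting by the singular locus: degeneration to a cusp

`ld2_of_lines`: the fibre over `α` is generated by one element `y` (`Cut_near`, `Cut_far`, `Cut_gen`),
whose characteristic polynomial has no triple root, as one sees by reduction.
`exists_sing`: choose `α ≡ a` transcendental over the coordinates (`gen`) and a point `θ` over `α`
specialising to `z = (i, a)`; the point `(coef, θ χ)` has dimension `≥ dm + 1`.  Descend the chart, the point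
and the characteristic polynomial `P` of a generator `y` to the ring generated by the coordinates; both
derivatives of `P` vanish at `z`.  Apply `krull`, `arc` and base change.
`no_node`: by saturation the element `(x - α on S, 0 elsewhere)` is in `𝒜`; if exactly one of `i, i'` is in `S`
its reduction contradicts `Glue ... 2`.  Otherwise take `w ∈ 𝒜` with `σ w = 0` whose reduction is nonzero at
`(j, a)` for all `j ≠ i, i'`; the product of its components over the side not containing `i, i'` is a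
polynomial over `O` whose value at `α` is a unit.
-/

namespace PR0

open Polynomial

universe u

variable {k K : Type u} [Field k] [IsAlgClosed k] [Field K] [IsAlgClosed K] [Algebra k K]
  {ι : Type} [Fintype ι] [DecidableEq ι] {J : Finset (ι × ℕ)}

section aux

variable {R R' : Type u} [CommRing R] [CommRing R']

omit [IsAlgClosed k] in
theorem Cut_fg [Algebra k R] {A : Subalgebra R (LT ι R)} (h : IsChart J A) {i₀ : ι} {v : ι × ℕ → R}
    (hv : Cut_Pt i₀ J A v) : FG k (Sum.elim (coef i₀ J A) v) := by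
  obtain ⟨s, hs⟩ := h.fg (k := k) i₀
  obtain ⟨M, hM⟩ := Chart_bound J
  refine ⟨s.disjSum (Finset.univ ×ˢ Finset.range (M + 1)), ?_⟩
  set R₁ := Algebra.adjoin k (Sum.elim (coef i₀ J A) v ''
    ↑(s.disjSum ((Finset.univ : Finset ι) ×ˢ Finset.range (M + 1))))
  have h1 : ∀ a, coef i₀ J A a ∈ R₁ := fun a => Algebra.adjoin_mono (by
    rintro _ ⟨b, hb, rfl⟩
    exact ⟨.inl b, Finset.inl_mem_disjSum.2 hb, rfl⟩) (hs a)
  let S : AddSubgroup (LT ι R) :=
    { carrier := {F | F ∈ A ∧ Cut_L i₀ v F ∈ R₁}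
      add_mem' := fun ha hb => ⟨add_mem ha.1 hb.1, by rw [map_add]; exact add_mem ha.2 hb.2⟩
      zero_mem' := ⟨zero_mem _, by rw [map_zero]; exact zero_mem _⟩
      neg_mem' := fun ha => ⟨neg_mem ha.1, by rw [map_neg]; exact neg_mem ha.2⟩ }
  have hS : ∀ r ∈ R₁.toSubring, ∀ F ∈ S, r • F ∈ S := fun r hr F hF =>
    ⟨A.smul_mem hF.1 r, by rw [map_smul]; exact mul_mem hr hF.2⟩
  have h2 : (1 : LT ι R) ∈ S := ⟨one_mem _, (map_one hv.hom).symm ▸ one_mem R₁⟩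
  have h3 : ∀ μ : ι × ℕ, μ.2 ≤ M → chi i₀ J A μ ∈ S := fun μ hμ => ⟨h.chi_mem i₀ μ, by
    rw [hv.chi h]
    exact Algebra.subset_adjoin ⟨.inr μ, Finset.inr_mem_disjSum.2 (by simp; omega), rfl⟩⟩
  have h4 : xx ι R ∈ S := h.Univ_mem hS h2 (n := 1) (fun μ hμ => h3 μ (by omega)) h.x_mem
    Univ_pole_xx ⟨Univ_T_mem _ _ _, fun μ _ => Univ_T_mem _ _ _⟩
  rintro (a | μ)
  · exact h1 a
  have h6 : ∀ ν l n, ((xx ι R * chi i₀ J A ν) l).cf n ∈ R₁ := fun ν l n =>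
    (LS.cf_T_mul (-1) (chi i₀ J A ν l) n).symm.subst (motive := (· ∈ R₁)) (h1 (ν, l, _))
  have h5 := h.Univ_up hS h2 (fun F hF => ⟨mul_mem h4.1 hF.1, by
    rw [hv.2 _ h4.1 _ hF.1]; exact mul_mem h4.2 hF.2⟩) hM h3 μ.2 (fun ν _ _ =>
      ⟨h6 ν i₀ _, fun l _ => h6 ν l.1 _⟩) μ le_rfl
  exact (hv.chi h μ).subst (motive := (· ∈ R₁)) h5.2

/-- The two derivatives at a point. -/
noncomputable def Cut_u (P : R[X][X]) (α β : R) : Fin 2 → R :=
  ![(derivative (P.eval (C β))).eval α, (derivative (P.map (evalRingHom α))).eval β]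

theorem Cut_u_map (φ : R →+* R') (P : R[X][X]) (α β : R) (j : Fin 2) :
    φ (Cut_u P α β j) = Cut_u (P.map (mapRingHom φ)) (φ α) (φ β) j := by
  fin_cases j
  · change φ (eval _ _) = eval _ _
    rw [← eval₂_hom, ← eval_map, ← derivative_map, ← map_C, ← coe_mapRingHom φ, ← eval₂_hom,
      eval_map]
  · change φ (eval _ _) = eval _ _
    rw [← eval₂_hom, ← eval_map, ← derivative_map, Polynomial.map_map, Polynomial.map_map]
    congr 3
    exact RingHom.ext fun p => by simp [eval_map]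

theorem Cut_der {p : R[X]} {a : R} (h : (X - C a) * (X - C a) ∣ p) : (derivative p).eval a = 0 := by
  obtain ⟨q, rfl⟩ := h
  simp

theorem Cut_u_zero {g : ι → R[X]} {i i' : ι} (hi : i ≠ i') {a : R}
    (h : (g i').eval a = (g i).eval a) (j : Fin 2) :
    Cut_u (∏ l, (X - C (g l))) a ((g i).eval a) j = 0 := by
  have key : ∀ {S : Type u} [CommRing S] (f : ι → S), f i * f i' ∣ ∏ l, f l := fun f => by
    rw [← Finset.prod_pair hi]
    exact Finset.prod_dvd_prod_of_subset _ _ _ (Finset.subset_univ _)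
  fin_cases j
  · refine Cut_der (dvd_trans ?_ ((key _).trans (eval_prod _ _ _).symm.dvd))
    exact mul_dvd_mul (dvd_iff_isRoot.2 (by simp)) (dvd_iff_isRoot.2 (by simp [h]))
  · refine Cut_der (dvd_trans ?_ ((key _).trans (Cut_prod_map _ _).symm.dvd))
    simp [h]

omit [IsAlgClosed K] in
theorem Cut_side {A : Subalgebra K (LT ι K)} (h : IsChart J A) {α : K} {U : Finset ι}
    (he : (fun j => if j ∈ U then Cut_ξ ι α j else 0) ∈ A) {w : LT ι K} (hw : w ∈ A) :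
    ∃ P : K[X], aeval (LS.T K (-1)) P = ∏ j ∈ U, w j := by
  let ε := (aeval (LS.T K (-1)) : K[X] →ₐ[K] LS K).toRingHom
  obtain ⟨P, hP⟩ := Cut_charpoly (ψ := RingHom.id K) Function.injective_id h hw
  obtain ⟨P', hP'⟩ := Cut_charpoly (ψ := RingHom.id K) Function.injective_id h (mul_mem hw he)
  have h1 : ε (P'.coeff Uᶜ.card) = ε ((C α - X) ^ U.card) * ∏ j ∈ U, w j := by
    rw [← coeff_map, hP'.2, ← Finset.prod_mul_prod_compl U,
      Finset.prod_congr rfl (s₁ := Uᶜ) (g := fun _ => X) fun j hj => by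
        simp [Finset.mem_compl.1 hj], Finset.prod_const, ← zero_add Uᶜ.card, coeff_mul_X_pow', if_pos (by omega), Nat.sub_self,
      coeff_zero_eq_eval_zero, eval_prod, map_pow, ← Finset.prod_const, ← Finset.prod_mul_distrib]
    refine Finset.prod_congr rfl fun j hj => ?_
    rw [Pi.mul_apply, if_pos hj, Cut_ξ_apply, ← neg_sub X, map_neg, eval_sub, eval_X, eval_C,
      zero_sub, neg_mul, mul_comm]
    rfl
  let := ε.toAlgebra
  have h2 : IsIntegral K[X] (∏ j ∈ U, w j) := IsIntegral.prod _ fun j _ => ⟨P, hP.1, by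
    rw [← eval_map]
    refine (congrArg (eval _) hP.2).trans ?_
    rw [eval_prod]
    exact Finset.prod_eq_zero (Finset.mem_univ j) (by simp)⟩
  let l : FractionRing K[X] →ₐ[K[X]] LS K := IsFractionRing.liftAlgHom (g := Algebra.ofId _ _) Cut_inj
  have h3 : (C α - X) ^ U.card ≠ 0 := pow_ne_zero _ (sub_ne_zero.2 (X_ne_C α).symm)
  have h4 : l (algebraMap K[X] _ (P'.coeff Uᶜ.card) / algebraMap K[X] _ ((C α - X) ^ U.card)) =
      ∏ j ∈ U, w j := by
    rw [map_div₀, l.commutes, l.commutes]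
    exact (congrArg (· / _) h1).trans (mul_div_cancel_left₀ _ ((map_ne_zero_iff _ Cut_inj).2 h3))
  rw [← h4, isIntegral_algHom_iff l l.injective, IsIntegrallyClosed.isIntegral_iff] at h2
  obtain ⟨p, hp⟩ := h2
  exact ⟨p, by rw [← h4, ← hp, l.commutes]; rfl⟩

omit [IsAlgClosed k] [IsAlgClosed K] in
theorem Cut_nil {K' : Type u} [Field K'] [Algebra k K'] (p : ℕ) [Fact p.Prime] [CharP k p]
    {A : Subalgebra K (LT ι K)} {A' : Subalgebra K' (LT ι K')} (h : IsChart J A) (h' : IsChart J A')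
    {i₀ : ι} (hs : Spc k (coef i₀ J A) (coef i₀ J A'))
    (hn : ∀ F : LT ι K, ∃ n : ℕ, ∃ a ∈ A, Pole (F ^ p ^ n - a) 0) :
    ∀ F : LT ι K', ∃ n : ℕ, ∃ a ∈ A', Pole (F ^ p ^ n - a) 0 := by
  have := charP_of_injective_algebraMap (algebraMap k K).injective p
  have := charP_of_injective_algebraMap (algebraMap k K').injective p
  rw [← h.snil_iff (k := k) p i₀] at hn
  rw [← h'.snil_iff (k := k) p i₀]
  have e := sprod_map (p := p) (MvPolynomial.aeval (coef i₀ J A) : _ →ₐ[k] K).toRingHom (hw k p J)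
    (Fintype.card J)
  have e' := sprod_map (p := p) (MvPolynomial.aeval (coef i₀ J A') : _ →ₐ[k] K').toRingHom
    (hw k p J) (Fintype.card J)
  refine e'.symm.trans ?_
  ext a b
  exact hs _ (congrFun (congrFun (e.trans hn) a) b)

end aux

theorem ld2_of_lines {𝒜 : Subalgebra (HO k) (LT ι (HO k))} (h : IsChart J 𝒜) (hl : Lines (spe 𝒜)) :
    LD2 (gen' 𝒜) (h.bc _).x_mem := by
  intro σ n
  rcases isEmpty_or_nonempty ι with hι | hι
  · exact absurd ((map_one σ).symm.trans ((congrArg σ (Subsingleton.elim _ _)).trans (map_zero σ)))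
      one_ne_zero
  by_cases hα : σ ⟨_, (h.bc _).x_mem⟩ ∈ HO k
  · obtain ⟨y, hy, P, hP, hi, h3⟩ := Cut_near h hl ⟨_, hα⟩
    exact Cut_ld (h.bc _) hy hP σ hi h3 n
  · obtain ⟨y, hy, P, hP, hi, h3⟩ := Cut_far h hα
    exact Cut_ld (h.bc _) hy hP σ hi h3 n

/-- `σ` specialises to the point `(i, a)` of the special fibre. -/
def SpzL (𝒜 : Subalgebra (HO k) (LT ι (HO k))) (σ : gen' 𝒜 →ₐ[HF k] HF k) (i : ι) (a : k) : Prop :=
  ∀ F ∈ 𝒜, ∀ (hF : mapT (inc k) F ∈ gen' 𝒜) (h : k[X]),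
    mapT (red k) F i = aeval (LS.T k (-1)) h → ∃ o : HO k, σ ⟨_, hF⟩ = o ∧ red k o = h.eval a

theorem exists_sing {𝒜 : Subalgebra (HO k) (LT ι (HO k))} (h : IsChart J 𝒜) (hl : Lines (spe 𝒜))
    (i₀ : ι) {i i' : ι} {a : k} (hi : i ≠ i') (hg : Glue (spe 𝒜) i i' a 1) :
    ∃ (𝒜' : Subalgebra (HO k) (LT ι (HO k))) (h' : IsChart J 𝒜') (σ : gen' 𝒜' →ₐ[HF k] HF k),
      spe 𝒜' = spe 𝒜 ∧ Spc k (coef i₀ J (gen' 𝒜)) (coef i₀ J (gen' 𝒜')) ∧ SpzL 𝒜' σ i a ∧ Sing σ ∧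
      dm k (coef i₀ J (gen' 𝒜)) ≤
        dm k (Sum.elim (coef i₀ J (gen' 𝒜')) fun μ => σ ⟨_, (h'.bc _).chi_mem i₀ μ⟩) + 1 := by
  have : Nonempty ι := ⟨i₀⟩
  obtain ⟨ρ, hρ⟩ := Cut_pol hl
  let ev : spe 𝒜 →ₐ[k] k := (aeval a).comp (ρ i)
  have hev : ∀ (F : spe 𝒜) (p : k[X]), F.1 i = aeval (LS.T k (-1)) p → ev F = p.eval a :=
    fun F p e => by
      rw [Cut_inj (e.symm.trans (hρ i F))]
      exact congrFun (coe_aeval_eq_eval a) _
  let σ₀ : 𝒜 →+* k := ev.toRingHom.comp (((mapT (red k)).comp 𝒜.val.toRingHom).codRestrict (spe 𝒜)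
    fun F => Chart_mem_bc _ F.2)
  obtain ⟨α', hα, hα'⟩ := gen (k := k) (((h.bc (inc k)).fg i₀).dm_ne_top)
    (algebraMap k (HF k) a) 1
  have hα₀ : 0 < hv (α' - algebraMap k (HF k) a) := by rw [hα]; exact_mod_cast one_pos
  obtain ⟨α, rfl, hα₁⟩ : ∃ α : HO k, inc k α = α' ∧ red k α = a :=
    ⟨⟨_, hα₀.le⟩ + algebraMap k _ a, sub_add_cancel _ _, by
      rw [map_add, show red k ⟨_, hα₀.le⟩ = 0 from hres_eq_zero.2 hα₀, zero_add]
      exact hres.commutes a⟩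
  obtain ⟨θ, hθ, hθ'⟩ := Cut_theta h σ₀ (fun c => hev _ (C (red k c)) (by
      rw [aeval_C]; exact LS.map_algebraMap _ _) |>.trans eval_C) α
    ((hev _ X (by rw [aeval_X]; exact LS.map_T _ _)).trans (eval_X.trans hα₁.symm))
  let c₁ : Idx ι ⊕ ι × ℕ → HO k := Sum.elim (coef i₀ J 𝒜) fun μ => θ ⟨_, h.chi_mem i₀ μ⟩
  let R₀ := Algebra.adjoin k (Set.range c₁)
  let c₁' : Idx ι ⊕ ι × ℕ → R₀ := fun b => ⟨c₁ b, Algebra.subset_adjoin ⟨b, rfl⟩⟩
  obtain ⟨A₀, hA₀, hc, hb⟩ := h.descend (i₀ := i₀) R₀.val Subtype.val_injective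
    (c := fun b => c₁' (.inl b)) fun _ => rfl
  let v₀ : ι × ℕ → R₀ := fun μ => c₁' (.inr μ)
  have hv₀ : Cut_Pt i₀ J A₀ v₀ := Cut_Pt.of_bc (φ := (R₀.val : R₀ →+* HO k)) Subtype.val_injective
    (hb.symm ▸ Cut_pt_hom h i₀ θ)
  let φ₀ : R₀ →+* k := (red k).comp R₀.val
  have hs₀ : bc φ₀ A₀ = spe 𝒜 := by rw [← bc_bc, hb]
  have hL : ∀ F ∈ spe 𝒜, ∀ p : k[X], F i = aeval (LS.T k (-1)) p →
      Cut_L i₀ (fun μ => φ₀ (v₀ μ)) F = p.eval a := fun F hF p e => by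
    rw [← hev ⟨F, hF⟩ p e, ← Cut_L_hom (h.bc _) i₀]
    congr 2
    exact funext fun μ => (hθ' _).trans (congrArg ev (Subtype.ext (h.chi_bc i₀ _ μ).symm))
  obtain ⟨_, hy₁, g, hg', hinj, -⟩ := Cut_generic (h.bc _) hl a
  obtain ⟨y₀, hy₀, rfl⟩ := Gauss_lift (φ := φ₀) (fun c => ⟨algebraMap k R₀ c, hres.commutes c⟩)
    (hs₀.ge hy₁)
  obtain ⟨P₀, hP₀⟩ := Cut_charpoly (ψ := (inc k).comp R₀.val)
    (Model_inc_inj.comp Subtype.val_injective) hA₀ hy₀
  have hG : ∀ r : R₀, ∃ G, MvPolynomial.aeval c₁' G = r := fun r => by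
    obtain ⟨G, e⟩ := (Algebra.adjoin_range_eq_range_aeval k c₁).le r.2
    exact ⟨G, Subtype.ext ((MvPolynomial.comp_aeval_apply c₁' R₀.val G).trans e)⟩
  choose G hG using hG
  let u := Cut_u P₀ (Cut_L i₀ v₀ (xx ι R₀)) (Cut_L i₀ v₀ y₀)
  let j₀ := IsScalarTower.toAlgHom k (HO k) (HF k)
  have ha₀ : φ₀ (Cut_L i₀ v₀ (xx ι R₀)) = a := by
    rw [← Cut_L_map, mapT_xx, hL _ (h.bc _).x_mem X (aeval_X _).symm, eval_X]
  have hfg : FG k fun b => j₀ (c₁ b) := (Cut_fg h (Cut_pt_hom h i₀ θ)).spc (Spc.map c₁ j₀)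
  obtain ⟨Ω, _, _, _, c', s₁, s₂, s₃, s₄⟩ := krull hfg
    ((Spc.of_map c₁ j₀ Model_inc_inj).trans (Spc.map c₁ hres)) (fun j => G (u j)) fun j => by
      refine (MvPolynomial.comp_aeval_apply c₁' (hres.comp R₀.val) _).symm.trans ?_
      rw [hG]
      refine (Cut_u_map φ₀ _ _ _ j).trans ?_
      rw [ha₀, ← Cut_L_map, hL _ hy₁ _ (hg' i), (hP₀.map φ₀).eq hg']
      have h7 := dvd_iff_isRoot.1 ((dvd_pow_self _ one_ne_zero).trans
        (hg _ hy₁ _ _ (hg' i) (hg' i')))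
      rw [IsRoot, eval_sub, sub_eq_zero] at h7
      exact Cut_u_zero hi h7.symm j
  obtain ⟨c'', t₁, t₂, t₃⟩ := arc (hfg.spc s₁) s₂
  obtain ⟨φ, hφ⟩ := ((Spc.map c₁ j₀).trans (s₁.trans t₁)).exists_hom
  have hred : (red k).comp φ = φ₀ := congrArg AlgHom.toRingHom
    (AlgHom.adjoin_ext (φ₁ := hres.comp φ) (φ₂ := hres.comp R₀.val) (by
      rintro _ ⟨b, rfl⟩
      exact (congrArg hres (hφ b)).trans (t₃ b)))
  have h' := hA₀.bc (φ : R₀ →+* HO k)
  have hv' := (hv₀.bc (φ : R₀ →+* HO k)).bc (inc k)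
  have hs' : spe (bc (φ : R₀ →+* HO k) A₀) = spe 𝒜 := by rw [spe, bc_bc, hred, hs₀]
  have e₀ : coef i₀ J (gen' 𝒜) = (fun b => j₀ (c₁ b)) ∘ .inl := h.coef_bc i₀ _
  have e₁ : coef i₀ J (gen' (bc (φ : R₀ →+* HO k) A₀)) = (fun b => j₀ (c'' b)) ∘ .inl := by
    rw [h'.coef_bc, hA₀.coef_bc, hc]
    exact funext fun b => congrArg _ (hφ _)
  have hr : ∀ r, red k (φ r) = φ₀ r := fun r => congrFun (congrArg DFunLike.coe hred) r
  have hσ : ∀ F (hF : F ∈ A₀), hv'.hom ⟨_, Chart_mem_bc _ (Chart_mem_bc _ hF)⟩ =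
      inc k (φ (Cut_L i₀ v₀ F)) := fun F _ =>
    (Cut_L_map _ _ _ _).trans (congrArg _ (Cut_L_map (φ : R₀ →+* HO k) _ _ _))
  have hx : hv'.hom ⟨_, (h'.bc _).x_mem⟩ = inc k (φ (Cut_L i₀ v₀ (xx ι R₀))) := by
    rw [← hσ _ hA₀.x_mem]
    exact congrArg _ (Subtype.ext (by simp only [mapT_xx]))
  have hu : ∀ j, Cut_u ((P₀.map (mapRingHom (φ : R₀ →+* HO k))).map (mapRingHom (inc k)))
      (inc k (φ (Cut_L i₀ v₀ (xx ι R₀)))) (inc k (φ (Cut_L i₀ v₀ y₀))) j = 0 := fun j => by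
    refine (Cut_u_map _ _ _ _ j).symm.trans ((congrArg _ (Cut_u_map (φ : R₀ →+* HO k) _ _ _ j).symm).trans
      ((map_eq_zero_iff _ Model_inc_inj).2 ?_))
    refine (congrArg φ (hG (u j)).symm).trans ((MvPolynomial.comp_aeval_apply _ _ _).trans ?_)
    rw [funext hφ]
    exact t₁ _ (s₃ j)
  refine ⟨_, h', hv'.hom, hs', ?_, fun F hF _ p e => ⟨Cut_L i₀ (fun μ => φ (v₀ μ)) F,
    Cut_L_map _ _ _ _, ?_⟩, ?_, ?_⟩
  · rw [e₀, e₁]
    exact (s₁.trans (t₁.trans (Spc.map c'' j₀))).comp _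
  · rw [← Cut_L_map, ← hL _ (hs' ▸ Chart_mem_bc _ hF) p e]
    simp only [hr]
  · refine Cut_sing (h'.bc _) (Chart_mem_bc _ (Chart_mem_bc _ hy₀)) ((hP₀.map _).map _) _ ?_ ?_ ?_
    · rw [hx]
      refine Cut_Inj.gen h' ?_
      rw [hs', hr, ha₀]
      convert hinj using 1
      exact funext fun j => LS.ext fun n => hr _
    · rw [hx, hσ _ hy₀]
      exact hu 0
    · rw [hx, hσ _ hy₀]
      exact hu 1
  · have e₂ : (Sum.elim (coef i₀ J (gen' (bc (φ : R₀ →+* HO k) A₀))) fun μ =>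
        hv'.hom ⟨_, (h'.bc _).chi_mem i₀ μ⟩) = fun b => j₀ (c'' b) := by
      rw [e₁]
      funext b
      rcases b with b | μ
      · rfl
      · exact (hv'.chi (h'.bc _) μ).trans (congrArg _ (hφ _))
    have h8 : dm k (coef i₀ J (gen' 𝒜)) + 1 ≤ dm k fun b => j₀ (c₁ b) := by
      rw [dm, ← rk_insert hα']
      refine rk_le_of_mem fun z hz => IntermediateField.algebra_adjoin_le_adjoin _ _ ?_
      rcases hz with rfl | ⟨b, rfl⟩
      · rw [Algebra.adjoin_range_eq_range_aeval]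
        refine ⟨G (Cut_L i₀ v₀ (xx ι R₀)),
          (MvPolynomial.comp_aeval_apply c₁' (j₀.comp R₀.val) _).symm.trans ?_⟩
        rw [hG, ← hθ, ← Cut_L_hom h i₀]
        refine congrArg (inc k) ((Cut_L_map (R₀.val : R₀ →+* HO k) _ _ _).symm.trans ?_)
        rw [mapT_xx]
        rfl
      · rw [e₀]
        exact Algebra.subset_adjoin ⟨.inl b, rfl⟩
    have h9 := h8.trans (s₄.trans (add_le_add_left t₂.dm_le _))
    rw [e₂]
    rw [Nat.card_eq_fintype_card, Fintype.card_fin, Nat.cast_ofNat, ← one_add_one_eq_two,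
      ← add_assoc] at h9
    exact (ENat.add_le_add_iff_right ENat.one_ne_top).1 h9

theorem no_node {𝒜 : Subalgebra (HO k) (LT ι (HO k))} (h : IsChart J 𝒜) (hl : Lines (spe 𝒜))
    {i i' : ι} {a : k} (hi : i ≠ i') (hg : Glue (spe 𝒜) i i' a 2) (σ : gen' 𝒜 →ₐ[HF k] HF k)
    (hσ : SpzL 𝒜 σ i a) (S : Finset ι) (h1 : (fun j => if j ∈ S then
      LS.T (HF k) (-1) - algebraMap _ _ (σ ⟨_, (h.bc _).x_mem⟩) else 0) ∈ gen' 𝒜)
    (h2 : ∀ w : gen' 𝒜, σ w = 0 → ∀ P : (HF k)[X], (aeval (LS.T (HF k) (-1)) P = ∏ j ∈ S, w.1 j ∨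
      aeval (LS.T (HF k) (-1)) P = ∏ j ∈ Sᶜ, w.1 j) → P.eval (σ ⟨_, (h.bc _).x_mem⟩) = 0) : False := by
  obtain ⟨o, ho, ho'⟩ := hσ _ h.x_mem (Chart_mem_bc _ h.x_mem) X (by rw [mapT_xx, aeval_X]; rfl)
  have hα : σ ⟨_, (h.bc _).x_mem⟩ = inc k o :=
    (congrArg σ (Subtype.ext (mapT_xx (inc k)).symm)).trans ho
  rw [eval_X] at ho'
  rw [hα] at h1 h2
  change (fun j => if j ∈ S then Cut_ξ ι (inc k o) j else 0) ∈ _ at h1
  have key : ∀ U : Finset ι, i ∉ U → i' ∉ U →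
      (fun j => if j ∈ U then Cut_ξ ι (inc k o) j else 0) ∈ gen' 𝒜 → ∃ w : gen' 𝒜, σ w = 0 ∧
      ∃ P : (HF k)[X], aeval (LS.T (HF k) (-1)) P = ∏ j ∈ U, w.1 j ∧ P.eval (inc k o) ≠ 0 := by
    intro U hU hU' he
    obtain ⟨_, hy₀, g, hg', -, h3⟩ := Cut_generic (h.bc _) hl a
    obtain ⟨y, hy, rfl⟩ := h.mem_spe.1 hy₀
    obtain ⟨b, hb, hb'⟩ := hσ y hy (Chart_mem_bc _ hy) _ (hg' i)
    have hw : y - algebraMap _ _ b ∈ 𝒜 := sub_mem hy (𝒜.algebraMap_mem b)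
    obtain ⟨P, hP⟩ := Cut_side (h.bc _) he (Chart_mem_bc (inc k) hw)
    refine ⟨⟨_, Chart_mem_bc (inc k) hw⟩, ?_, P, hP, fun e => ?_⟩
    · have e : (⟨_, Chart_mem_bc (inc k) hw⟩ : gen' 𝒜) =
          ⟨_, Chart_mem_bc (inc k) hy⟩ - algebraMap _ _ (inc k b) :=
        Subtype.ext ((map_sub _ _ _).trans (congrArg _ (mapT_algebraMap _ _)))
      rw [e, map_sub, hb, AlgHom.commutes]
      exact sub_self _
    obtain ⟨P₀, e₀, rfl⟩ := Cut_desc Model_inc_inj (p := P)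
      (f := ∏ j ∈ U, (y - algebraMap _ _ b) j) (by rw [hP, map_prod]; rfl)
    have h4 : P₀.map (red k) = ∏ j ∈ U, (g j - C ((g i).eval a)) := Cut_inj (by
      rw [← Cut_map, e₀, map_prod, map_prod]
      refine Finset.prod_congr rfl fun j _ => ?_
      rw [map_sub, ← hg', aeval_C, ← hb', ← LS.map_algebraMap, Pi.sub_apply, map_sub]
      rfl)
    rw [eval_map, eval₂_hom, map_eq_zero_iff _ Model_inc_inj] at e
    have h5 := congrArg (eval (red k o)) h4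
    rw [eval_map, eval₂_hom, e, map_zero, ho', eval_prod, eq_comm, Finset.prod_eq_zero_iff] at h5
    obtain ⟨j, hj, h6⟩ := h5
    rw [eval_sub, eval_C, sub_eq_zero] at h6
    have h7 := dvd_iff_isRoot.1 ((dvd_pow_self _ two_ne_zero).trans (hg _ hy₀ _ _ (hg' i) (hg' i')))
    rw [IsRoot, eval_sub, sub_eq_zero] at h7
    rcases h3 i i' j h7 h6.symm with e | rfl | rfl
    exacts [hi e, hU hj, hU' hj]
  have h8 : (fun j => if j ∈ S then Cut_ξ ι o j else 0) ∈ 𝒜 := h.mem_of_mapT Model_inc_inj (by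
    convert h1 using 1
    funext j
    change LS.map _ (ite _ _ _) = _
    split_ifs
    exacts [congrFun (Cut_mapT_ξ (inc k) o) j, map_zero _])
  have h9 : ∀ j, mapT (red k) (fun j => if j ∈ S then Cut_ξ ι o j else 0) j =
      aeval (LS.T k (-1)) (if j ∈ S then X - C a else 0) := fun j => by
    change LS.map _ (ite _ _ _) = _
    split_ifs
    exacts [(congrFun (Cut_mapT_ξ (red k) o) j).trans (ho' ▸ Cut_ξ_apply _ j), by simp]
  have h10 := hg _ (Chart_mem_bc (red k) h8) _ _ (h9 i) (h9 i')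
  have h11 : ¬ (X - C a) ^ 2 ∣ X - C a := fun e => by
    simpa using natDegree_le_of_dvd e (X_sub_C_ne_zero a)
  by_cases c : i ∈ S <;> by_cases c' : i' ∈ S
  · obtain ⟨w, hw, P, hP, e⟩ := key Sᶜ (by simpa) (by simpa) (by
      convert sub_mem (sub_mem (h.bc (inc k)).x_mem (Subalgebra.algebraMap_mem _ (inc k o))) h1
        using 1
      funext j
      by_cases e : j ∈ S <;> simp [e])
    exact e (h2 w hw P (Or.inr hP))
  · exact h11 (by simpa [c, c'] using h10)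
  · rw [if_neg c, if_pos c', zero_sub, dvd_neg] at h10
    exact h11 h10
  · obtain ⟨w, hw, P, hP, e⟩ := key S c c' h1
    exact e (h2 w hw P (Or.inl hP))

/-- The curve has a chart of maximal dimension and large degree. -/
def IsMax (k : Type u) [Field k] [Algebra k K] (C : FFd K) (m : ℕ) : Prop :=
  ∃ (i₀ : Fin m) (J : Finset (Fin m × ℕ)) (d : CD K C.L (Fin m)), IsChart J d.alg ∧
    ((2 * m + J.card : ℕ) : ℕ∞) ≤ dm k (coef i₀ J d.alg) + 2 ∧ 2 * J.card ≤ m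

/-- Degeneration of a maximal curve to a curve with one cusp. -/
theorem exists_cusp (p : ℕ) [Fact p.Prime] [CharP k p] (C : FFd K) (hC : HW0 K C.L p) {m : ℕ}
    (hm : IsMax k C m) (hg : genus K C.L ≠ 0) :
    ∃ (Ω : Type u) (_ : Field Ω) (_ : Algebra k Ω) (_ : IsAlgClosed Ω) (C' : FFd Ω)
      (d' : CD Ω C'.L (Fin m)) (q : Place Ω C'.L) (D : FFd (HF Ω)) (d : CD (HF Ω) D.L (Fin m))
      (J J' : Finset (Fin m × ℕ)) (𝒜 : Subalgebra (HO Ω) (LT (Fin m) (HO Ω))) (i₀ : Fin m),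
      Comb.Sp k C.sm D.sm ∧ HW0 (HF Ω) D.L p ∧ IsChart J 𝒜 ∧ d.alg = gen' 𝒜 ∧
      d'.cuspAlg q = spe 𝒜 ∧ d'.x ∈ cusp q ∧ ¬ q.Ge (d'.x - algebraMap Ω _ (q.val d'.x)) 3 ∧
      genus Ω C'.L + 1 = genus K C.L ∧ J.card = genus K C.L ∧ HW0 Ω C'.L p ∧ IsChart J' d'.alg ∧
      ((2 * m + J'.card : ℕ) : ℕ∞) ≤ dm k (coef i₀ J' d'.alg) + 2 := by
  obtain ⟨i₀, J₀, d₀, h₀, hd₀, -⟩ := hm
  have : Nonempty (Fin m) := ⟨i₀⟩
  obtain ⟨D₁, s, d₁, J, 𝒜₁, hs, sp₁, -, hg₁, hw₁, h₁, e₁, hl, hd₁⟩ :=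
    exists_lines p C hC d₀ h₀ i₀ (by rwa [Fintype.card_fin])
  obtain rfl : m = s := (hs.trans (Fintype.card_fin m)).symm
  have h₁' : IsChart J d₁.alg := e₁ ▸ h₁.bc _
  have hJ : J.card = genus K C.L := (d₁.card_eq h₁').trans hg₁
  obtain ⟨a, i, i', hi, hg2⟩ := hl.exists_tangent (h₁.bc _) (Finset.card_ne_zero.1 (hJ ▸ hg))
  obtain ⟨𝒜', h', σ, e', s₁, hz, hσ, hd'⟩ := exists_sing h₁ hl i₀ hi fun F hF q q' e e' =>
    (pow_dvd_pow _ one_le_two).trans (hg2 F hF q q' e e')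
  rw [← e'] at hl hg2
  have hn := (d₁.hw0_iff p).1 hw₁
  rw [← e₁] at s₁ hd'
  refine (classify (k := k) p (h'.bc _) i₀ (Cut_nil p h₁' (h'.bc _) s₁ hn) (ld2_of_lines h' hl) σ hσ
    (by
      rw [Fintype.card_fin]
      refine (hd₁ i₀).trans ((add_le_add_left hd' 2).trans_eq ?_)
      rw [add_assoc]
      rfl)).elim ?_ fun ⟨S, h1, h2⟩ => (no_node h' hl hi hg2 σ hz S h1 h2).elim
  rintro ⟨C', d', q, J', c₁, c₂, c₃, c₄, c₅, c₆, c₇⟩
  obtain ⟨𝒜, h𝒜, e, t₁, t₂⟩ := exists_model h₁' (h'.bc _) s₁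
  have h4 : IsChart J (gen' 𝒜) := h𝒜.bc _
  obtain ⟨L, _, _, _, d, hd⟩ := exists_cd_of_sm h4 (Sm.of_spc h4 h₁' t₂ d₁.sm)
  refine ⟨HF k, inferInstance, inferInstance, inferInstance, C', d', q, ⟨L⟩, d, J, J', 𝒜, i₀,
    sp₁.trans (sp_of_spc (FFd.has_sm.2 ⟨d₁, rfl, h₁'⟩) (FFd.has_sm.2 ⟨d, hd, h4⟩) t₁),
    (d.hw0_iff p).2 (hd ▸ Cut_nil p h₁' h4 t₁ hn), h𝒜, hd, c₃.symm.trans e.symm, c₁, c₂,
    c₄.trans hJ, hJ, c₅, c₆, by rwa [Fintype.card_fin] at c₇⟩

end PR0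
end
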