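import Mathlib

/-! Canonical curves of genus four and their Hasse-Witt matrices: statement-level definitions. -/

open MvPolynomial

namespace Pool.Agent.Work.MP_da2620_ag

variable {k : Type*} [Field k]

/-- the exponent vector of the monomial `x_i * x_0 x_1 x_2 x_3` -/
noncomputable def ex (i : Fin 4) : Fin 4 →₀ ℕ :=
  Finsupp.single i 1 + ∑ j : Fin 4, Finsupp.single j 1

/-- The Hasse-Witt matrix of the curve `Q = F = 0` in `ℙ³`: the matrix of Frobenius on
`H¹(C, O_C) = H³(ℙ³, O(-5))` in the basis `1 / (x_i * x_0 x_1 x_2 x_3)`. -/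
noncomputable def hasseWitt {R : Type*} [CommRing R] (p : ℕ) (Q F : MvPolynomial (Fin 4) R) :
    Matrix (Fin 4) (Fin 4) R :=
  Matrix.of fun i j => coeff (p • ex j - ex i) ((Q * F) ^ (p - 1))

/-- `p`-rank zero: the product `A A^(p) A^(p^2) A^(p^3)` vanishes -/
def PRankZero (p : ℕ) (Q F : MvPolynomial (Fin 4) k) : Prop :=
  hasseWitt p Q F * (hasseWitt p Q F).map (· ^ p) * (hasseWitt p Q F).map (· ^ p ^ 2) *
    (hasseWitt p Q F).map (· ^ p ^ 3) = 0

/-- the Jacobian criterion: `Q = F = 0` is a smooth complete intersection curve in `ℙ³` -/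
def SmoothCI (Q F : MvPolynomial (Fin 4) k) : Prop :=
  ∀ x : Fin 4 → k, x ≠ 0 → eval x Q = 0 → eval x F = 0 →
    LinearIndependent k ![fun i => eval x (pderiv i Q), fun i => eval x (pderiv i F)]

/-- the coefficient vectors of the pairs (quadric, cubic) that define a smooth curve of `p`-rank
zero -/
def locus (p : ℕ) (k : Type*) [Field k] : Set ((Fin 4 →₀ ℕ) ⊕ (Fin 4 →₀ ℕ) → k) :=
  {c | ∃ Q F : MvPolynomial (Fin 4) k, Q.IsHomogeneous 2 ∧ F.IsHomogeneous 3 ∧ SmoothCI Q F ∧
    PRankZero p Q F ∧ c = Sum.elim (fun m => coeff m Q) (fun m => coeff m F)}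

end Pool.Agent.Work.MP_da2620_ag
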