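import Pool.Agent.Work.MP_da2620_ag.DiscB

/-!
# The fibres of a comb over the `x`-line are monogenic
-/

namespace PR0

open Polynomial

universe u

variable {K L L' : Type u} [Field K] [Field L] [Algebra K L] [Field L'] [Algebra K L']
  {ι : Type} [Fintype ι] [DecidableEq ι]

theorem DiscC_crt {I : Type u} {S : Set I} (hS : S.Finite) {v : I → K} (hv : S.InjOn v)
    (R : I → K[X] → Prop) (h : ∀ i, ∃ (q : K[X]) (e : ℕ), ∀ p, (X - C (v i)) ^ e ∣ p - q → R i p) :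
    ∃ p, ∀ i ∈ S, R i p := by
  choose q e h using h
  have := hS.to_subtype
  obtain ⟨p, hp⟩ := Ideal.exists_forall_sub_mem_ideal
    (I := fun i : S => Ideal.span {(X - C (v i)) ^ e i}) (fun i j hij =>
      (Ideal.isCoprime_span_singleton_iff _ _).2 (pairwise_coprime_X_sub_C hv.injective hij).pow)
    fun i => q i
  exact ⟨p, fun i hi => h i p (Ideal.mem_span_singleton.1 (hp ⟨i, hi⟩))⟩

variable [IsAlgClosed K] [Fact (IsFF K L)] [Fact (IsFF K L')]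

theorem DiscC_approx [Nonempty ι] (d : CD K L ι) {S : Set (Place K L)} (hS : S.Finite)
    (g : Place K L → L) (hg : ∀ P, g P ∈ P.1) :
    ∃ f ∈ d.reg, ∀ P ∈ S, d.x ∈ P.1 → P.Ge (f - g P) 2 := by
  classical
  set D : Dv K L := ((2 * genus K L + 2 * hS.toFinset.card : ℕ) : ℤ) • d.inf -
    ∑ P ∈ hS.toFinset, Finsupp.single P 2 with hD
  have h1 : ∀ P, P ∉ Set.range d.pl → -D P = if P ∈ S then 2 else 0 := fun P hP => by
    simp [hD, d.CD_inf_not hP, Finsupp.single_apply]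
  obtain ⟨f, hf⟩ := h1z_of_deg (D := D) (by
    have : (1 : ℤ) ≤ Fintype.card ι := by exact_mod_cast Fintype.card_pos
    simp only [hD, dg_sub, dg_smul, d.CD_dg_inf, dg_sum, dg_single, Finset.sum_const, nsmul_eq_mul]
    push_cast
    nlinarith [Int.natCast_nonneg (genus K L), Int.natCast_nonneg hS.toFinset.card]) g
    (Set.finite_empty.subset fun P hP => hP (hg P))
  refine ⟨f, fun P hP => ?_, fun P hP hx => ?_⟩
  · have := add_mem (P.mem_iff.2 ((hf P).mono (by rw [h1 P hP]; split_ifs <;> omega))) (hg P)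
    rwa [sub_add_cancel] at this
  · have := hf P
    rwa [h1 P fun ⟨i, e⟩ => d.CD_x_notMem i (e ▸ hx), if_pos hP] at this

theorem DiscC_exp {P : Place K L} {f u : L} {n : ℤ} (hu : u ≠ 0) (h : P.ord u = n)
    (hf : P.Ge f n) : ∃ c : K, P.Ge (f - c • u) (n + 1) := by
  have h1 := (Place.ge_sub_val (P.mem_iff.2 ((rr_ge_div hu hf).mono (by omega)))).mul
    (.inr h.ge : P.Ge u n)
  rw [sub_mul, inv_mul_cancel_right₀ hu, ← Algebra.smul_def, add_comm] at h1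
  exact ⟨_, h1⟩

theorem DiscC_pow {P : Place K L} {y : L} {v : K} (hy : P.Ge (y - algebraMap K L v) 1) {e : ℕ}
    {p : K[X]} (h : (X - C v) ^ e ∣ p) : P.Ge (aeval y p) e := by
  obtain ⟨q, rfl⟩ := h
  have h1 : y ∈ P.1 := by simpa using add_mem (P.mem_iff.2 (hy.mono zero_le_one)) (P.2.2 v)
  have := (hy.pow e).mul (P.mem_iff.1 (FFA_adj P h1 _ (aeval_mem_adjoin_singleton K y (p := q))))
  simpa using this

theorem DiscC_smooth {P : Place K L} {y f : L} {v : K}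
    (hy : P.Ge (y - (algebraMap K L v + P.unif)) 2) (hf : f ∈ P.1) (n : ℤ) :
    ∃ (q : K[X]) (e : ℕ), ∀ p, (X - C v) ^ e ∣ p - q → P.Ge (f - aeval y p) n := by
  obtain ⟨h1, h2⟩ := Place.ord_add_of_lt P.unif_ne_zero
    (hy.mono (m := P.ord P.unif + 1) (by rw [P.ord_unif]; rfl))
  rw [← sub_sub, add_sub_cancel] at h1 h2
  rw [P.ord_unif] at h2
  have key : ∀ e : ℕ, ∃ q : K[X], P.Ge (f - aeval y q) e := fun e => by
    induction e with
    | zero => exact ⟨0, by simpa using P.mem_iff.1 hf⟩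
    | succ e ih =>
      obtain ⟨q, hq⟩ := ih
      obtain ⟨c, hc⟩ := DiscC_exp (pow_ne_zero e h1) (by rw [P.ord_pow h1, h2, mul_one]) hq
      exact ⟨q + c • (X - C v) ^ e, by simpa [sub_sub] using hc⟩
  obtain ⟨q, hq⟩ := key n.toNat
  refine ⟨q, n.toNat, fun p hp => ?_⟩
  have := hq.sub (DiscC_pow (.inr h2.ge) hp)
  rw [map_sub, sub_sub, add_sub_cancel] at this
  exact this.mono (by omega)

theorem DiscC_ord {P : Place K L} {x : L} (hx : x ∈ P.1)
    (h : ¬ P.Ge (x - algebraMap K L (P.val x)) 2) :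
    x - algebraMap K L (P.val x) ≠ 0 ∧ P.ord (x - algebraMap K L (P.val x)) = 1 := by
  have h1 : x - algebraMap K L (P.val x) ≠ 0 := fun e => h (.inl e)
  have h2 := Place.ge_sub_val hx
  rw [CDA_ge_iff_le P h1] at h h2
  exact ⟨h1, by omega⟩

theorem DiscC_node {P : Place K L} {Q : Place K L'} {y f u : L} {y' f' u' : L'} {v : K}
    (hu : u ≠ 0 ∧ P.ord u = 1) (hu' : u' ≠ 0 ∧ Q.ord u' = 1) (hy : P.Ge (y - algebraMap K L v) 2)
    (hy' : Q.Ge (y' - (algebraMap K L' v + u')) 2) (hf : f ∈ P.1) (hf' : f' ∈ Q.1)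
    (e : P.val f = Q.val f') : ∃ (q : K[X]) (e : ℕ), ∀ p, (X - C v) ^ e ∣ p - q →
      ∃ β : K, P.Ge (f - aeval y p - β • u) 2 ∧ Q.Ge (f' - aeval y' p - β • u') 2 := by
  obtain ⟨β, h1⟩ := DiscC_exp hu.1 hu.2 (Place.ge_sub_val hf)
  obtain ⟨β', h2⟩ := DiscC_exp hu'.1 hu'.2 (Place.ge_sub_val hf')
  have h3 : Q.Ge (y' - algebraMap K L' v) 1 := by
    simpa [← sub_sub] using (hy'.mono one_le_two).add (.inr hu'.2.ge)
  refine ⟨C (P.val f) + (β' - β) • (X - C v), 2, fun p hp => ⟨β, ?_, ?_⟩⟩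
  · convert (hy.smul (β - β')).add (h1.sub (DiscC_pow (hy.mono one_le_two) hp)) using 1
    simp only [map_sub, map_add, map_smul, aeval_C, aeval_X, sub_smul]
    ring
  · convert (hy'.smul (β - β')).add (h2.sub (DiscC_pow h3 hp)) using 1
    simp only [map_sub, map_add, map_smul, aeval_C, aeval_X, e, sub_smul, smul_sub, smul_add]
    ring

theorem DiscC_val {P : Place K L} {w u : L} {β : K} (hu : u ≠ 0 ∧ P.ord u = 1)
    (h : P.Ge (w - β • u) 2) : P.Ge w (P.ord u) ∧ P.val (w * u⁻¹) = β := by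
  refine ⟨?_, Place.val_eq ?_⟩
  · simpa [hu.2] using (h.mono one_le_two).add (Place.Ge.smul β (.inr hu.2.ge))
  · have := rr_ge_div hu.1 h
    rwa [sub_mul, Algebra.smul_def, mul_inv_cancel_right₀ hu.1, hu.2] at this

theorem DiscC_val' {P : Place K L} {w u : L} (hw : w ∈ P.1) (hu : u ∈ P.1) (h : P.val u ≠ 0) :
    P.val (w * u⁻¹) = P.val w / P.val u := by
  have h1 : ¬ P.Ge u 1 := fun e => h ((Place.val_eq_zero hu).2 e)
  have h2 : u ≠ 0 := fun e => h1 (.inl e)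
  rw [CDA_ge_iff_le P h2] at h1
  rw [eq_div_iff h, ← Place.val_mul (P.mem_iff.2 ((rr_ge_div h2 (P.mem_iff.1 hw)).mono (by omega)))
    hu, inv_mul_cancel_right₀ h2]

theorem DiscC_ne [Nonempty ι] (d : CD K L ι) (a : K) : d.x - algebraMap K L a ≠ 0 := fun e =>
  transcendental_iff.1 d.transcendental ⟨a, (sub_eq_zero.1 e).symm⟩

theorem DiscC_div [Nonempty ι] (d : CD K L ι) {a : K} {w : L} (hw : w ∈ d.reg)
    (h : ∀ P : Place K L, d.x ∈ P.1 → P.ord (d.x - algebraMap K L a) ≠ 0 → (P.val d.x = a →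
      P.Ge w (P.ord (d.x - algebraMap K L a)))) : w * (d.x - algebraMap K L a)⁻¹ ∈ d.reg := by
  intro P hP
  have h1 := d.x_mem P hP
  by_cases e : P.ord (d.x - algebraMap K L a) = 0
  · exact P.mem_iff.2 ((rr_ge_div (DiscC_ne d a) (P.mem_iff.1 (hw P hP))).mono (by omega))
  · have h2 := (CDA_ge_iff_le P (DiscC_ne d a)).1 (P.mem_iff.1 (sub_mem h1 (P.2.2 a)))
    exact P.mem_iff.2 ((rr_ge_div (DiscC_ne d a)
      (h P h1 e (Place.val_eq (.inr (by omega))))).mono (by omega))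

theorem DiscC_curv {T : Type} [Fintype T] {Z : Comb T K} (c : Z.CC ι)
    (ha : ∀ j, ¬ (Z.a j).Ge (c.d₀.x - algebraMap K _ ((Z.a j).val c.d₀.x)) 2)
    (hb : ∀ j, ¬ (Z.b j).Ge ((c.dt j).x - algebraMap K _ ((Z.b j).val (c.dt j).x)) 2) (a : K) :
    ∃ y ∈ c.alg, ∀ F ∈ c.alg, ∃ p : K[X], ∃ G ∈ c.alg,
      F = aeval y p + (xx ι K - algebraMap K _ a) * G := by
  classical
  have hS := finite_ord (K := K) (DiscC_ne c.d₀ a)
  have hT := fun j => finite_ord (K := K) (DiscC_ne (c.dt j) a)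
  have hI := ((Set.finite_range (Sum.inl : T → T ⊕ Place K Z.C.L ⊕
    Σ j, Place K (Z.E j).L)).union (hS.image fun P => .inr (.inl P))).union
      (Set.finite_iUnion fun j => (hT j).image fun Q => .inr (.inr ⟨j, Q⟩))
  obtain ⟨v, -, hv⟩ := hI.exists_injOn_of_encard_le (t := (Set.univ : Set K)) (by simp)
  have hu : ∀ {M : Type u} [Field M] [Algebra K M] [Fact (IsFF K M)] (P : Place K M) (r : K),
      algebraMap K M r + P.unif ∈ P.1 := fun P r =>
    add_mem (P.2.2 r) (P.mem_iff.2 (.inr (P.ord_unif ▸ zero_le_one)))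
  obtain ⟨y₀, a1, a2⟩ := DiscC_approx c.d₀ (hS.union (Set.finite_range Z.a))
    (Function.extend Z.a (fun j => algebraMap K _ (v (.inl j)))
      fun P => algebraMap K _ (v (.inr (.inl P))) + P.unif) fun P => by
    by_cases e : ∃ j, Z.a j = P
    · obtain ⟨j, rfl⟩ := e
      exact Z.inj.extend_apply _ _ j ▸ (Z.a j).2.2 _
    · exact Function.extend_apply' _ _ P e ▸ hu P _
  choose yt b1 b2 using fun j => DiscC_approx (c.dt j) ((hT j).insert (Z.b j))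
    (fun Q => if Q = Z.b j then algebraMap K _ (v (.inl j)) +
      ((c.dt j).x - algebraMap K _ ((Z.b j).val (c.dt j).x))
      else algebraMap K _ (v (.inr (.inr ⟨j, Q⟩))) + Q.unif) fun Q => by
    split_ifs with e
    · exact add_mem (Q.2.2 _) (sub_mem (e ▸ c.hb j) (Q.2.2 _))
    · exact hu Q _
  have a3 : ∀ j, (Z.a j).Ge (y₀ - algebraMap K _ (v (.inl j))) 2 := fun j => by
    simpa only [Z.inj.extend_apply] using a2 _ (Or.inr ⟨j, rfl⟩) (c.ha j)
  have b3 := fun j => b2 j _ (Set.mem_insert _ _) (c.hb j)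
  simp only [if_true] at b3
  have hy : ((y₀, yt) : Z.Fn) ∈ c.reg := c.mem_reg.2 ⟨a1, b1, fun j =>
    (Place.val_eq ((a3 j).mono one_le_two)).trans (Place.val_eq (by
      simpa [← sub_sub] using ((b3 j).mono one_le_two).add (Place.ge_sub_val (c.hb j)))).symm⟩
  refine ⟨_, ⟨_, hy, rfl⟩, ?_⟩
  rintro _ ⟨f, hf, rfl⟩
  obtain ⟨f1, f2, f3⟩ := c.mem_reg.1 hf
  obtain ⟨p, hp⟩ := DiscC_crt hI hv
    (Sum.elim (fun j p => ∃ β : K,
      (Z.a j).Ge (f.1 - aeval y₀ p - β • (c.d₀.x - algebraMap K _ ((Z.a j).val c.d₀.x))) 2 ∧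
      (Z.b j).Ge (f.2 j - aeval (yt j) p -
        β • ((c.dt j).x - algebraMap K _ ((Z.b j).val (c.dt j).x))) 2)
    (Sum.elim (fun P p => P.ord (c.d₀.x - algebraMap K _ a) ≠ 0 → (¬ ∃ j, Z.a j = P) →
        c.d₀.x ∈ P.1 → P.Ge (f.1 - aeval y₀ p) (P.ord (c.d₀.x - algebraMap K _ a)))
      fun Q p => Q.2.ord ((c.dt Q.1).x - algebraMap K _ a) ≠ 0 → Q.2 ≠ Z.b Q.1 →
        (c.dt Q.1).x ∈ Q.2.1 →
          Q.2.Ge (f.2 Q.1 - aeval (yt Q.1) p) (Q.2.ord ((c.dt Q.1).x - algebraMap K _ a)))) (by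
    rintro (j | P | ⟨j, Q⟩)
    · exact DiscC_node (DiscC_ord (c.ha j) (ha j)) (DiscC_ord (c.hb j) (hb j)) (a3 j) (b3 j)
        (Comb_mem _ (c.ha j) f1) (Comb_mem _ (c.hb j) (f2 j)) (f3 j)
    · by_cases e : P.ord (c.d₀.x - algebraMap K _ a) ≠ 0 ∧ (¬ ∃ j, Z.a j = P) ∧ c.d₀.x ∈ P.1
      · have h1 := a2 P (Or.inl e.1) e.2.2
        rw [Function.extend_apply' _ _ P e.2.1] at h1
        obtain ⟨q, n, h2⟩ := DiscC_smooth h1 (Comb_mem _ e.2.2 f1) _
        exact ⟨q, n, fun p hp _ _ _ => h2 p hp⟩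
      · exact ⟨0, 0, fun p _ e1 e2 e3 => absurd ⟨e1, e2, e3⟩ e⟩
    · by_cases e : Q.ord ((c.dt j).x - algebraMap K _ a) ≠ 0 ∧ Q ≠ Z.b j ∧ (c.dt j).x ∈ Q.1
      · have h1 := b2 j Q (Or.inr e.1) e.2.2
        rw [if_neg e.2.1] at h1
        obtain ⟨q, n, h2⟩ := DiscC_smooth h1 (Comb_mem _ e.2.2 (f2 j)) _
        exact ⟨q, n, fun p hp _ _ _ => h2 p hp⟩
      · exact ⟨0, 0, fun p _ e1 e2 e3 => absurd ⟨e1, e2, e3⟩ e⟩)
  choose β g1 g2 using fun j => hp (.inl j) (.inl (.inl ⟨j, rfl⟩))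
  replace g1 := fun j => DiscC_val (DiscC_ord (c.ha j) (ha j)) (g1 j)
  replace g2 := fun j => DiscC_val (DiscC_ord (c.hb j) (hb j)) (g2 j)
  have e1 : (aeval ((y₀, yt) : Z.Fn) p).1 = aeval y₀ p :=
    (aeval_algHom_apply (AlgHom.fst K _ _) ((y₀, yt) : Z.Fn) p).symm
  have e2 : ∀ j, (aeval ((y₀, yt) : Z.Fn) p).2 j = aeval (yt j) p := fun j => (aeval_algHom_apply
    ((Pi.evalAlgHom K _ j).comp (AlgHom.snd K _ _)) ((y₀, yt) : Z.Fn) p).symm
  obtain ⟨w1, w2, w3⟩ := c.mem_reg.1 (sub_mem hf (DiscA_mem hy p))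
  obtain ⟨u1, u2, u3⟩ := c.mem_reg.1 (sub_mem c.x_mem (c.reg.algebraMap_mem a))
  simp only [Prod.fst_sub, Prod.snd_sub, Pi.sub_apply, e1, e2] at w1 w2 w3
  have hG : (((f.1 - aeval y₀ p) * (c.d₀.x - algebraMap K _ a)⁻¹, fun j =>
      (f.2 j - aeval (yt j) p) * ((c.dt j).x - algebraMap K _ a)⁻¹) : Z.Fn) ∈ c.reg := by
    refine c.mem_reg.2 ⟨DiscC_div _ w1 fun P h1 h2 h3 => ?_,
      fun j => DiscC_div _ (w2 j) fun Q h1 h2 h3 => ?_, fun j => ?_⟩
    · by_cases e : ∃ j, Z.a j = P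
      · obtain ⟨j, rfl⟩ := e
        exact h3 ▸ (g1 j).1
      · exact hp (.inr (.inl P)) (.inl (.inr ⟨P, h2, rfl⟩)) h2 e h1
    · by_cases e : Q = Z.b j
      · subst e
        exact h3 ▸ (g2 j).1
      · exact hp (.inr (.inr ⟨j, Q⟩)) (.inr (Set.mem_iUnion.2 ⟨j, Q, h2, rfl⟩)) h2 e h1
    · by_cases e : (Z.a j).val c.d₀.x = a
      · have h1 := (g1 j).2
        have h2 := (g2 j).2
        rw [e] at h1
        rw [← c.hv j, e] at h2
        exact h1.trans h2.symm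
      · have h1 := Comb_mem _ (c.ha j) u1
        have h2 : (Z.a j).val (c.d₀.x - algebraMap K _ a) ≠ 0 := fun e' =>
          e (Place.val_eq ((Place.val_eq_zero h1).1 e'))
        exact (DiscC_val' (Comb_mem _ (c.ha j) w1) h1 h2).trans
          ((congrArg₂ (· / ·) (w3 j) (u3 j)).trans (DiscC_val' (Comb_mem _ (c.hb j) (w2 j))
            (Comb_mem _ (c.hb j) (u2 j)) fun e' => h2 ((u3 j).trans e')).symm)
  refine ⟨p, _, ⟨_, hG, rfl⟩, ?_⟩
  simp only [RingHom.coe_coe]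
  rw [aeval_algHom_apply, ← c.exT_x, ← c.exT.commutes, ← map_sub, ← map_mul, ← map_add]
  refine congrArg _ (Prod.ext ?_ (funext fun j => ?_))
  · exact (add_sub_cancel (aeval y₀ p) f.1).symm.trans
      (congrArg₂ (· + ·) e1.symm 
        ((mul_comm _ _).trans (inv_mul_cancel_right₀ (DiscC_ne c.d₀ a) _)).symm)
  · exact (add_sub_cancel (aeval (yt j) p) (f.2 j)).symm.trans
      (congrArg₂ (· + ·) (e2 j).symm 
        ((mul_comm _ _).trans (inv_mul_cancel_right₀ (DiscC_ne (c.dt j) a) _)).symm)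

end PR0
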