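import Pool.Agent.Work.MP_da2620_ag.Tan
import Pool.Agent.Work.MP_da2620_ag.DiscC

/-!
# Locally monogenic chart points, the discriminant, the bound on the tangent space

For `J` consisting of simple poles, `A` is free over `K[x]` with basis `1`, `χ (i, 0)` (`(i,0) ∉ J`,
`i ≠ i₁`), `χ (j, 1)` (`(j,0) ∈ J`), where `(i₁, 0) ∉ J`; the determinant of the matrix of components has
pole order exactly `d - 1 + g` (triangular leading terms), its square is the discriminant
`Δ ∈ K[x]` of degree `2d + 2g - 2`.  For `y ∈ A` let `P = ∏ (Y - y i) ∈ K[x][Y]` (`exists_charpoly`),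
`z = P'(y)`, with components `∏_(j ≠ i) (y i - y j)`; if `m` is the determinant of the matrix of
`1, y, ..., y ^ (d-1)` in the basis then the norm of `z` is `± m² Δ`.  By `Curv`, the Chinese remainder
theorem and Nakayama, for any finite set of `a ∈ K` there is `y` with `m(a) ≠ 0` for these `a`.
`dim A / z A = deg N(z)` (`finrank_quotient_span_eq_natDegree_norm`), and its part killed by a power
of `Δ` has dimension `deg Δ` when `m`, `Δ` are coprime (apply the same to the pieces of the Smith normal
form, or use `A / (z, Δ ^ n)`).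
`finrank_DerQ_le`: take `y` for the roots of `Δ` and `y₂` for the roots of `m`.  A derivation `D` is
killed by `m₂ ^ 3 Δ`; if `D y = 0` it is killed by `m` too, so `D = 0`.  `D y` is killed by `z` and by
`gcd (m² Δ, m₂ ^ 3 Δ) = Δ`.
`exists_indep_der` (smooth case): if `a ∂ A ⊆ A` then `a P_x(x, y) ∈ z A`; at a place over a root
of `Δ`, `P_x` and `z = P_y` do not both vanish (the maximal ideal is generated by `x - a`, `y - b`
locally, one of them is a uniformiser, and if both derivatives vanished ... use that the local ring is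
`K[x, y]_loc / (P)` and has cotangent space of dimension one); so `a` maps to `0` in the `Δ`-primary part of
`A / z A`.
-/

namespace PR0

open Polynomial

universe u

variable {K : Type u} [Field K] {ι : Type} [Fintype ι] [DecidableEq ι] {J : Finset (ι × ℕ)}

/-- The characteristic polynomial of an element has coefficients in `K[x]`. -/
theorem IsChart.exists_charpoly {A : Subalgebra K (LT ι K)} (h : IsChart J A) {y : LT ι K}
    (hy : y ∈ A) : ∃ P : K[X][X], P.Monic ∧
      P.map (aeval (LS.T K (-1)) : K[X] →ₐ[K] LS K).toRingHom = ∏ i, (X - C (y i)) :=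
  DiscA_charpoly h hy

/-- All fibres over the `x`-line are monogenic. -/
def Curv (A : Subalgebra K (LT ι K)) : Prop := ∀ a : K, ∃ y ∈ A, ∀ F ∈ A, ∃ h : K[X], ∃ G ∈ A,
  F = aeval y h + (xx ι K - algebraMap K _ a) * G

variable [IsAlgClosed K]

theorem finrank_DerQ_le [Nonempty ι] {A : Subalgebra K (LT ι K)} (h : IsChart J A)
    (hJ : ∀ ν ∈ J, ν.2 < 1) (hc : Curv A) :
    Module.finrank K (DerQ A) + 2 ≤ 2 * Fintype.card ι + 2 * J.card := DiscB_le h hJ hc

theorem CD.curv [Nonempty ι] {L : Type u} [Field L] [Algebra K L] [Fact (IsFF K L)] (d : CD K L ι) :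
    Curv d.alg := by
  obtain ⟨J, hJ⟩ := d.exists_chart
  obtain ⟨c, e, -⟩ := (FFd.has_sm (C := ⟨L⟩)).2 ⟨d, rfl, hJ⟩
  rw [← e]
  exact DiscC_curv c (fun j => j.elim) fun j => j.elim

/-- the local algebra at a node where `x` is unramified on both branches is `K[u] / u²` -/
theorem Comb.CC.curv {T : Type} [Fintype T] {X : Comb T K} (c : X.CC ι)
    (ha : ∀ j, ¬ (X.a j).Ge (c.d₀.x - algebraMap K _ ((X.a j).val c.d₀.x)) 2)
    (hb : ∀ j, ¬ (X.b j).Ge ((c.dt j).x - algebraMap K _ ((X.b j).val (c.dt j).x)) 2) :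
    Curv c.alg := DiscC_curv c ha hb

theorem CD.exists_indep_der [Nonempty ι] {L : Type u} [Field L] [Algebra K L] [Fact (IsFF K L)]
    (d : CD K L ι) (h : IsChart J d.alg) (hJ : ∀ ν ∈ J, ν.2 < 1) {N : ℕ}
    (hN : N + 2 = 2 * Fintype.card ι + 2 * J.card) : ∃ a : Fin N → LT ι K, (∀ j, a j ∈ d.alg) ∧
      ∀ c : Fin N → K, (∀ F ∈ d.alg, (fun i => (∑ j, c j • a j) i * LS.dx (F i)) ∈ d.alg) → c = 0 :=
  DiscB_indep d h hJ d.curv hN

end PR0
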