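import Pool.Agent.Work.MP_da2620_ag.Tan

attribute [local instance 2000] DivisionSemiring.to_moduleIsTorsionFree Module.Free.of_divisionRing
  instFaithfulSMul_1
attribute [local instance 1500] IsFractionRing.instFaithfulSMul

/-!
# A chart point is free over `K[x]`; traces; the dual module
-/

namespace PR0

open Polynomial

universe u

variable {K : Type u} [Field K] {ι : Type} [Fintype ι] [DecidableEq ι] {J : Finset (ι × ℕ)}
  {A : Subalgebra K (LT ι K)}

theorem DiscA_cf (p : K[X]) (m : ℤ) :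
    (aeval (LS.T K (-1)) p).cf m = if m ≤ 0 then p.coeff (-m).toNat else 0 := by
  induction p using Polynomial.induction_on' with
  | add p q hp hq =>
    rw [map_add, LS.cf_add, hp, hq, coeff_add]
    split_ifs <;> simp
  | monomial n c =>
    rw [aeval_monomial, LS.T_pow, ← Algebra.smul_def, LS.cf_smul, LS.cf_T, coeff_monomial]
    split_ifs <;> first | omega | simp

theorem DiscA_inj : Function.Injective (aeval (LS.T K (-1)) : K[X] →ₐ[K] LS K) :=
  (injective_iff_map_eq_zero _).2 fun p h => Polynomial.ext fun n => by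
    have := DiscA_cf p (-n)
    rw [h, if_pos (by omega)] at this
    simpa using this.symm

theorem DiscA_range {f : LS K} (h : ∀ m, 0 < m → f.cf m = 0) :
    ∃ p : K[X], aeval (LS.T K (-1)) p = f := by
  obtain ⟨N, hN⟩ := f.exists_ge
  refine ⟨∑ k ∈ Finset.range (N + 1), monomial k (f.cf (-k)), LS.ext fun m => ?_⟩
  rw [DiscA_cf, finsetSum_coeff]
  simp only [coeff_monomial, Finset.sum_ite_eq', Finset.mem_range]
  split_ifs with h1 h2
  · congr 1
    omega
  · exact (hN m (by omega)).symm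
  · exact (h m (by omega)).symm

omit [Fintype ι] [DecidableEq ι] in
theorem DiscA_ap (p : K[X]) (i : ι) : aeval (xx ι K) p i = aeval (LS.T K (-1)) p :=
  (aeval_algHom_apply (Pi.evalAlgHom K (fun _ : ι => LS K) i) (xx ι K) p).symm

omit [Fintype ι] [DecidableEq ι] in
theorem DiscA_mem {B : Type u} [CommRing B] [Algebra K B] {A : Subalgebra K B} {y : B} (hy : y ∈ A)
    (p : K[X]) : aeval y p ∈ A :=
  Algebra.adjoin_le (Set.singleton_subset_iff.2 hy) (aeval_mem_adjoin_singleton K y)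

theorem DiscA_det (h : IsChart J A) (i₀ : ι) {n : ℕ} (hJ : ∀ ν ∈ J, ν.2 < n) :
    (Matrix.of fun j l => chi i₀ J A (j, n) l).det ≠ 0 := by
  intro h0
  obtain ⟨v, hv, h1⟩ := Matrix.exists_mulVec_eq_zero_iff.2 h0
  obtain ⟨N, hN⟩ := exists_pole (v : LT ι K)
  have key : ∀ k : ℕ, ∀ l, (v l).Ge (-N + k) := by
    intro k
    induction k with
    | zero => exact fun l => (hN l).mono (by omega)
    | succ k ih =>
      intro j m hm
      by_cases e : m = -N + k
      · have h2 := congrArg (fun f : LS K => f.cf (-(n + 1 : ℕ) + (-N + k))) (congrFun h1 j)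
        simp only [Matrix.mulVec, dotProduct, Matrix.of_apply, LS.cf_sum, Pi.zero_apply,
          LS.cf_zero] at h2
        rw [Finset.sum_congr rfl fun l _ => LS.cf_mul_lead (h.pole_chi i₀ (Nat.lt_succ_self n)
          (fun ν hν => (hJ ν hν).trans (Nat.lt_succ_self n)) l) (ih l)] at h2
        have h3 : ∀ l, (chi i₀ J A (j, n) l).cf (-(n + 1 : ℕ)) = if l = j then 1 else 0 := fun l =>
          (h.Chart_pc_chi i₀ (j, n) (ν := (l, n)) fun e => (hJ _ e).false).trans (by simp)
        simp only [h3] at h2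
        simpa [e] using h2
      · exact ih j m (by omega)
  exact hv (funext fun l => LS.eq_zero_of_ge fun m =>
    (key (m + N).toNat l).mono (by omega))

theorem DiscA_basis (h : IsChart J A) : ∃ b : ι → LT ι K, (∀ j, b j ∈ A) ∧
    (Matrix.of b).det ≠ 0 ∧ ∀ F ∈ A, ∃ c : ι → K[X], F = ∑ j, aeval (xx ι K) (c j) * b j := by
  rcases isEmpty_or_nonempty ι with _ | ⟨⟨i₀⟩⟩
  · exact ⟨0, fun j => isEmptyElim j, by simp, fun F _ => ⟨0, Subsingleton.elim _ _⟩⟩
  have : Nonempty ι := ⟨i₀⟩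
  let : Algebra K[X] (LS K) := (aeval (LS.T K (-1)) : K[X] →ₐ[K] LS K).toRingHom.toAlgebra
  have hs : ∀ (p : K[X]) (F : LT ι K), p • F = aeval (xx ι K) p * F := fun p F =>
    funext fun i => by rw [Pi.mul_apply, DiscA_ap]; rfl
  have : IsScalarTower K K[X] (LS K) := IsScalarTower.of_algebraMap_eq fun c =>
    ((aeval (LS.T K (-1)) : K[X] →ₐ[K] LS K).commutes c).symm
  have : FaithfulSMul K[X] (LS K) := (faithfulSMul_iff_algebraMap_injective _ _).2 DiscA_inj
  let M : Submodule K[X] (LT ι K) :=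
    { carrier := A
      add_mem' := A.add_mem
      zero_mem' := A.zero_mem
      smul_mem' := fun p F hF => hs p F ▸ A.mul_mem (DiscA_mem h.x_mem p) hF }
  obtain ⟨n, hn⟩ := Chart_bound J
  have hfg : M.FG := by
    refine Submodule.fg_def.2 ⟨insert 1 (chi i₀ J A '' {μ | μ.2 ≤ n}), (Set.Finite.image _
      (((Set.finite_univ (α := ι)).prod (Set.finite_le_nat n)).subset
        fun μ hμ => ⟨trivial, hμ⟩)).insert _, le_antisymm (Submodule.span_le.2 ?_) fun F hF => ?_⟩
    · rintro _ (rfl | ⟨μ, -, rfl⟩)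
      exacts [A.one_mem, h.chi_mem i₀ μ]
    · have h1 := (h.span_x i₀ hn).1 hF
      clear hF
      induction h1 using Submodule.span_induction with
      | mem x hx => exact Submodule.subset_span hx
      | zero => exact zero_mem _
      | add x y _ _ hx hy => exact add_mem hx hy
      | smul c x _ hx =>
        obtain ⟨q, hq⟩ := Algebra.adjoin_mem_exists_aeval _ _ c.2
        rw [Subalgebra.smul_def, ← hq, smul_eq_mul, ← hs]
        exact Submodule.smul_mem _ _ hx
  have : Module.Finite K[X] M := Module.Finite.iff_fg.2 hfg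
  have hd := DiscA_det h i₀ hn
  let β := Module.Free.chooseBasis K[X] M
  have h1 : Fintype.card ι ≤ Fintype.card (Module.Free.ChooseBasisIndex K[X] M) := by
    rw [← Module.finrank_eq_card_basis β]
    refine LinearIndependent.fintype_card_le_finrank
      (b := fun j => (⟨chi i₀ J A (j, n), h.chi_mem i₀ _⟩ : M)) (.of_comp M.subtype ?_)
    exact (Matrix.linearIndependent_rows_of_det_ne_zero hd).restrict_scalars' K[X]
  have h2 : Fintype.card (Module.Free.ChooseBasisIndex K[X] M) ≤ Fintype.card ι := by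
    choose c hc using fun j => exists_pole (β j : LT ι K)
    set s := Finset.univ.sup c + n
    have key : ∀ N : ℕ, N * Fintype.card (Module.Free.ChooseBasisIndex K[X] M) ≤
        (N + s) * Fintype.card ι + 1 := fun N => by
      have h7 : LinearIndependent K fun k : Fin N => (monomial k.1 (1 : K) : K[X]) :=
        (basisMonomials K).linearIndependent.comp (fun k : Fin N => k.1) Fin.val_injective
      have h8 : LinearIndependent K[X] fun j => (β j : LT ι K) :=
        β.linearIndependent.map' M.subtype M.ker_subtype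
      have h3 := linearIndependent_smul (R := K) (S := K[X]) (A := LT ι K) h7 h8
      have h4 : ∀ p : Fin N × Module.Free.ChooseBasisIndex K[X] M,
          (monomial p.1.1 (1 : K)) • (β p.2 : LT ι K) ∈ lev A (N + s : ℕ) := fun p => by
        refine ⟨(M.smul_mem _ (β p.2).2 :), fun i => ?_⟩
        rw [hs, Pi.mul_apply, DiscA_ap, aeval_monomial, map_one, one_mul, LS.T_pow]
        have := Finset.le_sup (f := c) (Finset.mem_univ p.2)
        exact ((LS.ge_T _).mul (hc p.2 i)).mono (by omega)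
      have := h.finite_lev (N + s : ℕ)
      have h5 := LinearIndependent.fintype_card_le_finrank (R := K)
        (b := fun p => (⟨_, h4 p⟩ : lev A (N + s : ℕ))) (.of_comp (lev A (N + s : ℕ)).subtype h3)
      have h6 := h.finrank_lev (n := N + s) fun ν hν => (hn ν hν).trans_le (by omega)
      rw [Fintype.card_prod, Fintype.card_fin] at h5
      omega
    by_contra h3
    have := key (s * Fintype.card ι + 2)
    have h4 := Nat.mul_le_mul_left (s * Fintype.card ι + 2) (Nat.succ_le_of_lt (not_le.1 h3))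
    rw [Nat.succ_eq_add_one] at h4
    linarith
  let b := β.reindex (Fintype.equivOfCardEq (le_antisymm h2 h1))
  have h3 : ∀ F ∈ A, ∃ c : ι → K[X], F = ∑ j, aeval (xx ι K) (c j) * b j := fun F hF =>
    ⟨b.repr ⟨F, hF⟩, by
      simpa only [← hs, Submodule.coe_sum, Submodule.coe_smul] using
        (congrArg Subtype.val (b.sum_repr ⟨F, hF⟩)).symm⟩
  refine ⟨fun j => b j, fun j => (b j).2, fun h0 => hd ?_, h3⟩
  choose c hc using fun j => h3 _ (h.chi_mem i₀ (j, n))
  have h4 : (Matrix.of fun j l => chi i₀ J A (j, n) l) =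
      (Matrix.of fun j l => aeval (LS.T K (-1)) (c j l)) * Matrix.of fun j => (b j : LT ι K) := by
    ext j l : 2
    rw [Matrix.of_apply, hc j, Finset.sum_apply, Matrix.mul_apply]
    simp only [Pi.mul_apply, DiscA_ap, Matrix.of_apply]
  rw [h4, Matrix.det_mul, h0, mul_zero]

theorem DiscA_charpoly (h : IsChart J A) {y : LT ι K} (hy : y ∈ A) : ∃ P : K[X][X], P.Monic ∧
    P.map (aeval (LS.T K (-1)) : K[X] →ₐ[K] LS K).toRingHom = ∏ i, (X - C (y i)) := by
  obtain ⟨b, h1, h2, h3⟩ := DiscA_basis h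
  choose c hc using fun j => h3 _ (mul_mem (h1 j) hy)
  refine ⟨(Matrix.of c).charpoly, Matrix.charpoly_monic _, ?_⟩
  have h4 : Matrix.of b * Matrix.diagonal y =
      (Matrix.of c).map (aeval (LS.T K (-1)) : K[X] →ₐ[K] LS K).toRingHom * Matrix.of b := by
    ext j l : 2
    rw [Matrix.mul_diagonal, Matrix.of_apply, ← Pi.mul_apply, hc j, Finset.sum_apply,
      Matrix.mul_apply]
    simp only [Pi.mul_apply, DiscA_ap, Matrix.of_apply]
    rfl
  rw [← Matrix.charpoly_map, ← Matrix.charpoly_diagonal,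
    ← Matrix.mul_nonsing_inv_cancel_right (Matrix.of b) ((Matrix.of c).map _) (IsUnit.mk0 _ h2),
    ← h4, Matrix.charpoly_mul_comm, Matrix.nonsing_inv_mul_cancel_left _ _ (IsUnit.mk0 _ h2)]

/-- The dual module for the residue pairing. -/
def DiscA_Perp (A : Subalgebra K (LT ι K)) : Submodule K (LT ι K) where
  carrier := {F | ∀ a ∈ A, ∑ i, (F i * a i).cf 1 = 0}
  add_mem' hF hG a ha := by
    simp only [Pi.add_apply, add_mul, LS.cf_add, Finset.sum_add_distrib, hF a ha, hG a ha, add_zero]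
  zero_mem' a _ := by simp
  smul_mem' c F hF a ha := by
    simp only [Pi.smul_apply, smul_mul_assoc, LS.cf_smul, ← Finset.mul_sum, hF a ha, mul_zero]

omit [DecidableEq ι] in
theorem DiscA_perp (hx : xx ι K ∈ A) {F : LT ι K} : F ∈ DiscA_Perp A ↔
    ∀ a ∈ A, ∃ p : K[X], aeval (LS.T K (-1)) p = ∑ i, F i * a i := by
  refine ⟨fun h a ha => DiscA_range fun m hm => ?_, fun h a ha => ?_⟩
  · rw [LS.cf_sum, ← h _ (mul_mem (pow_mem hx (m - 1).toNat) ha)]
    refine Finset.sum_congr rfl fun i _ => ?_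
    rw [Pi.mul_apply, mul_left_comm, Pi.pow_apply, xx, LS.T_pow, LS.cf_T_mul]
    congr 1
    omega
  · obtain ⟨p, hp⟩ := h a ha
    rw [← LS.cf_sum, ← hp, DiscA_cf, if_neg (by omega)]

theorem DiscA_tr (h : IsChart J A) {a : LT ι K} (ha : a ∈ A) :
    ∃ p : K[X], aeval (LS.T K (-1)) p = ∑ i, a i := by
  obtain ⟨P, -, h1⟩ := DiscA_charpoly h ha
  have h2 := congrArg nextCoeff h1
  rw [nextCoeff_map DiscA_inj, prod_X_sub_C_nextCoeff] at h2
  exact ⟨-P.nextCoeff, by rw [map_neg, neg_eq_iff_eq_neg]; exact h2⟩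

theorem DiscA_le (h : IsChart J A) {F : LT ι K} (hF : F ∈ A) : F ∈ DiscA_Perp A :=
  (DiscA_perp h.x_mem).2 fun _ ha => DiscA_tr h (mul_mem hF ha)

/-- A coefficient as a linear form. -/
def DiscA_cfL (i : ι) (m : ℤ) : LT ι K →ₗ[K] K where
  toFun F := (F i).cf m
  map_add' _ _ := LS.cf_add _ _ _
  map_smul' _ _ := LS.cf_smul _ _ _

theorem DiscA_zero (h : IsChart J A) (hJ : ∀ ν ∈ J, ν.2 < 1) (i₀ : ι) {G : LT ι K}
    (hG : G ∈ DiscA_Perp A) (h1 : ∀ i, (G i).Ge 1) (h2 : ∀ i, i ≠ i₀ → (G i).cf 1 = 0)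
    (h3 : ∀ ν ∈ J, (G ν.1).cf 2 = 0) : G = 0 := by
  have key : ∀ k : ℕ, ∀ i, (G i).Ge (k + 2) := by
    intro k
    induction k with
    | zero =>
      intro i m hm
      by_cases e : m = 1
      · by_cases e' : i = i₀
        · have h4 := hG 1 A.one_mem
          rw [Finset.sum_eq_single i₀ (fun l _ hl => by rw [Pi.one_apply, mul_one, h2 l hl])
            (by simp), Pi.one_apply, mul_one] at h4
          rwa [e, e']
        · exact e ▸ h2 i e'
      · exact h1 i m (by omega)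
    | succ k ih =>
      intro i m hm
      by_cases e : m = k + 2
      · have h4 : ∀ l, (l, k) ∈ J → (G l).cf (k + 2) = 0 := fun l hl => by
          obtain rfl : k = 0 := Nat.lt_one_iff.1 (hJ _ hl)
          exact h3 _ hl
        by_cases hi : (i, k) ∈ J
        · exact e ▸ h4 i hi
        have h5 : ∀ l, (G l * chi i₀ J A (i, k) l).cf 1 =
            (G l).cf (k + 2) * pc (chi i₀ J A (i, k)) (l, k) := fun l => by
          have := LS.cf_mul_lead (ih l) (h.pole_chi i₀ (μ := (i, k)) (Nat.lt_succ_self k)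
            (fun ν hν => (hJ ν hν).trans_le (by omega)) l)
          rwa [show (k + 2 : ℤ) + -(k.succ : ℕ) = 1 by omega] at this
        have h6 := hG _ (h.chi_mem i₀ (i, k))
        rw [Finset.sum_eq_single i (fun l _ hl => ?_) (by simp), h5, h.pc_chi i₀ hi hi, if_pos rfl,
          mul_one] at h6
        · rwa [e]
        · rw [h5]
          by_cases hl' : (l, k) ∈ J
          · rw [h4 l hl', zero_mul]
          · rw [h.pc_chi i₀ hi hl', if_neg (by simpa using hl), mul_zero]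
      · exact ih i m (by omega)
  exact funext fun i => LS.eq_zero_of_ge fun n => (key n.toNat i).mono (by omega)

theorem DiscA_high (h : IsChart J A) (hJ : ∀ ν ∈ J, ν.2 < 1) (i₀ : ι) {G : LT ι K}
    (hG : ∑ i, (G i).cf 1 = 0) : ∃ G' : LT ι K, (∀ i, (G' i).Ge 2) ∧
      (∀ ν ∈ J, (G' ν.1).cf 2 = 0) ∧ G + G' ∈ DiscA_Perp A := by
  choose G' hG' using fun i : ι => LS.exists_cf (fun m => if 2 ≤ m then
    -∑ l, (G l * chi i₀ J A (i, (m - 2).toNat) l).cf 1 else 0) 2 fun m hm => if_neg hm.not_ge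
  have h1 : ∀ i, (G' i).Ge 2 := fun i m hm => (hG' i m).trans (if_neg hm.not_ge)
  have h2 : ∀ i (k : ℕ), (G' i).cf (k + 2) = -∑ l, (G l * chi i₀ J A (i, k) l).cf 1 :=
    fun i k => by rw [hG', if_pos (by omega), add_sub_cancel_right, Int.toNat_natCast]
  have h3 : ∀ i k, (i, k) ∈ J → (G' i).cf (k + 2) = 0 := fun i k hi => by
    simp [h2, Chart_chi_zero i₀ A hi]
  refine ⟨G', h1, fun ⟨i, k⟩ hν => ?_, fun a ha => ?_⟩
  · obtain rfl : k = 0 := Nat.lt_one_iff.1 (hJ _ hν)
    exact h3 i 0 hν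
  replace ha := (h.mem_iff_span i₀).1 ha
  induction ha using Submodule.span_induction with
  | mem x hx =>
    rcases hx with rfl | ⟨⟨i, k⟩, rfl⟩
    · simp only [Pi.one_apply, mul_one, Pi.add_apply, LS.cf_add, h1 _ 1 one_lt_two, add_zero, hG]
    by_cases hi : (i, k) ∈ J
    · simp [Chart_chi_zero i₀ A hi]
    have h4 : ∀ l, (G' l * chi i₀ J A (i, k) l).cf 1 = if l = i then (G' i).cf (k + 2) else 0 := by
      intro l
      have h5 : ∀ m ∈ Finset.Icc (2 : ℤ) (1 - -(k.succ : ℕ)),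
          (G' l).cf m * (chi i₀ J A (i, k) l).cf (1 - m) =
            if m = k + 2 then (if l = i then (G' i).cf (k + 2) else 0) else 0 := fun m hm => by
        obtain ⟨r, rfl⟩ : ∃ r : ℕ, m = r + 2 := ⟨(m - 2).toNat, by
          have := (Finset.mem_Icc.1 hm).1
          omega⟩
        have h6 := h.pc_chi i₀ hi (ν := (l, r))
        rw [pc, show -(((l, r).2 : ℤ) + 1) = 1 - (r + 2) by simp only; omega] at h6
        by_cases hl : (l, r) ∈ J
        · rw [h3 l r hl, zero_mul]
          split_ifs with e1 e2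
          · obtain rfl : r = k := by omega
            exact absurd (e2 ▸ hl) hi
          all_goals rfl
        · rw [h6 hl]
          by_cases e1 : r = k <;> by_cases e2 : l = i <;> simp [e1, e2]
      rw [LS.cf_mul (h1 l) (h.pole_chi i₀ (μ := (i, k)) (Nat.lt_succ_self k)
        (fun ν hν => (hJ ν hν).trans_le (by omega)) l), Finset.sum_congr rfl h5,
        Finset.sum_ite_eq', if_pos (Finset.mem_Icc.2 ⟨by omega, by omega⟩)]
    simp only [Pi.add_apply, add_mul, LS.cf_add, Finset.sum_add_distrib, h4, Finset.sum_ite_eq',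
      Finset.mem_univ, if_true, h2, add_neg_cancel]
  | zero => simp
  | add x y _ _ hx hy =>
    simp only [Pi.add_apply x y, mul_add, LS.cf_add, Finset.sum_add_distrib, hx, hy, add_zero]
  | smul c x _ hx =>
    simp only [Pi.smul_apply c x, mul_smul_comm, LS.cf_smul, ← Finset.mul_sum, hx, mul_zero]

omit [Fintype ι] in
theorem DiscA_ext (hJ : ∀ ν ∈ J, ν.2 < 1) (v : J → K) :
    ∃ α : ι → K, (∀ j : J, α j.1.1 = v j) ∧ ∀ i, (i, 0) ∉ J → α i = 0 := by
  refine ⟨fun i => if h : (i, 0) ∈ J then v ⟨_, h⟩ else 0, ?_, fun i hi => dif_neg hi⟩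
  rintro ⟨⟨i, k⟩, hk⟩
  obtain rfl : k = 0 := Nat.lt_one_iff.1 (hJ _ hk)
  exact dif_pos hk

theorem DiscA_phi [Nonempty ι] (h : IsChart J A) (hJ : ∀ ν ∈ J, ν.2 < 1) {N : ℕ}
    (hN : N + 2 = 2 * Fintype.card ι + 2 * J.card) : ∃ Φ : LT ι K →ₗ[K] (Fin N → K),
      (∀ F ∈ A, Φ F = 0) ∧ (∀ F ∈ DiscA_Perp A, Φ F = 0 → F ∈ A) ∧
        ∀ v, ∃ F ∈ DiscA_Perp A, Φ F = v := by
  obtain ⟨i₀⟩ := ‹Nonempty ι›
  let κ : LT ι K →ₗ[K] ((J → K) × (J → K)) × ({i // i ≠ i₀} → K) × ({i // i ≠ i₀} → K) :=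
    .prod (.prod (.pi fun j => DiscA_cfL j.1.1 (-1)) (.pi fun j => DiscA_cfL j.1.1 2))
      (.prod (.pi fun i => DiscA_cfL i.1 0 - DiscA_cfL i₀ 0) (.pi fun i => DiscA_cfL i.1 1))
  have hκ : ∀ G v, κ G = v ↔ ((∀ j : J, (G j.1.1).cf (-1) = v.1.1 j) ∧
      ∀ j : J, (G j.1.1).cf 2 = v.1.2 j) ∧
        (∀ i : {i // i ≠ i₀}, (G i).cf 0 - (G i₀).cf 0 = v.2.1 i) ∧
          ∀ i : {i // i ≠ i₀}, (G i).cf 1 = v.2.2 i := fun G v => by
    simp only [Prod.ext_iff, funext_iff]
    rfl
  have hc : 1 ≤ Fintype.card ι := Fintype.card_pos_iff.2 ⟨i₀⟩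
  let e := LinearEquiv.ofFinrankEq (R := K)
    (((J → K) × (J → K)) × ({i // i ≠ i₀} → K) × ({i // i ≠ i₀} → K)) (Fin N → K)
    (by simp; omega)
  refine ⟨e.toLinearMap ∘ₗ κ ∘ₗ (.id - Chart_P (chi i₀ J A)), fun F hF => ?_, fun F hF h0 => ?_,
    fun v => ?_⟩
  · obtain ⟨c, hc⟩ := (h.mem_iff i₀).1 hF
    rw [← Chart_P_apply, ← sub_eq_iff_eq_add] at hc
    refine e.map_eq_zero_iff.2 ((congrArg κ hc).trans ((hκ _ _).2 ?_))
    simp [LS.cf_algebraMap]
  · obtain ⟨⟨a1, a2⟩, a3, a4⟩ := (hκ (F - Chart_P (chi i₀ J A) F) 0).1 (e.map_eq_zero_iff.1 h0)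
    have h1 := fun ν => h.Chart_pc_P i₀ F (ν := ν)
    have h2 := sub_mem hF (DiscA_le h (h.Chart_P_mem i₀ F))
    rw [← sub_add_cancel F (Chart_P (chi i₀ J A) F)]
    generalize F - Chart_P (chi i₀ J A) F = G at *
    have h3 : Pole G 0 := pole_zero_iff.2 fun ⟨i, k⟩ => by
      by_cases hi : (i, k) ∈ J
      · obtain rfl : k = 0 := Nat.lt_one_iff.1 (hJ _ hi)
        exact a1 ⟨_, hi⟩
      · exact h1 _ hi
    have h4 := DiscA_zero h hJ i₀ (sub_mem h2 (DiscA_le h (A.algebraMap_mem ((G i₀).cf 0))))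
      (fun i m hm => ?_) (fun i hi => ?_) fun ν hν => ?_
    · exact add_mem (sub_eq_zero.1 h4 ▸ A.algebraMap_mem _) (h.Chart_P_mem i₀ F)
    all_goals rw [Pi.sub_apply, LS.cf_sub, Pi.algebraMap_apply, LS.cf_algebraMap]
    · split_ifs with e
      · by_cases hi : i = i₀
        · rw [e, hi, sub_self]
        · exact e ▸ a3 ⟨i, hi⟩
      · rw [h3 i m (by omega), sub_zero]
    · exact (sub_zero _).trans (a4 ⟨i, hi⟩)
    · exact (sub_zero _).trans (a2 ⟨ν, hν⟩)
  · obtain ⟨⟨⟨v1, v2⟩, v3, v4⟩, rfl⟩ := e.surjective v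
    obtain ⟨α, a1, a2⟩ := DiscA_ext hJ v1
    obtain ⟨δ, d1, -⟩ := DiscA_ext hJ v2
    let β : ι → K := fun i => if h : i = i₀ then 0 else v3 ⟨i, h⟩
    let γ : ι → K := fun i => if h : i = i₀ then -∑ l, v4 l else v4 ⟨i, h⟩
    let G : LT ι K := fun i =>
      α i • LS.T K (-1) + β i • LS.T K 0 + γ i • LS.T K 1 + δ i • LS.T K 2
    have hG : ∀ i m, (G i).cf m = (if m = -1 then α i else 0) + (if m = 0 then β i else 0) +
        (if m = 1 then γ i else 0) + if m = 2 then δ i else 0 := fun i m => by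
      simp only [G, LS.cf_add, LS.cf_smul, LS.cf_T, mul_ite, mul_one, mul_zero]
    obtain ⟨G', b1, b2, b3⟩ := DiscA_high h hJ i₀ (G := G) (by
      have h1 : ∀ l : {i // i ≠ i₀}, (G l).cf 1 = v4 l := fun l => by simp [hG, γ, l.2]
      rw [Fintype.sum_eq_add_sum_subtype_ne _ i₀, Finset.sum_congr rfl fun l _ => h1 l]
      simp [hG, γ])
    refine ⟨G + G', b3, congrArg e ?_⟩
    have h1 : Chart_P (chi i₀ J A) (G + G') = 0 := Chart_P_eq_zero fun ⟨i, k⟩ => by
      by_cases hi : (i, k) ∈ J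
      · exact Or.inr (Chart_chi_zero i₀ A hi)
      · refine Or.inl ?_
        rw [pc, Pi.add_apply, LS.cf_add, b1 _ _ (by omega), hG]
        by_cases hk : k = 0
        · subst hk
          simp [a2 i hi]
        · simp only [add_zero]
          rw [if_neg (by omega), if_neg (by omega), if_neg (by omega), if_neg (by omega)]
          simp
    refine (congrArg κ ((congrArg _ h1).trans (sub_zero _))).trans ((hκ _ _).2 ?_)
    refine ⟨⟨fun j => ?_, fun j => ?_⟩, fun i => ?_, fun i => ?_⟩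
    · simp [hG, b1 _ (-1) (by omega), a1]
    · simp [hG, b2 _ j.2, d1]
    · simp [hG, b1 _ 0 (by omega), β, i.2]
    · simp [hG, b1 _ 1 (by omega), γ, i.2]

end PR0
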