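import Pool.Agent.Work.MP_da2620_ag.DiscA

/-!
# Local generators, the different, Euler's lemma
-/

namespace PR0

open Polynomial

universe u

variable {K : Type u} [Field K] {ι : Type} [Fintype ι] [DecidableEq ι] {J : Finset (ι × ℕ)}
  {A : Subalgebra K (LT ι K)}

section
variable {B B' : Type u} [CommRing B] [Algebra K B] [CommRing B'] [Algebra K B']

theorem DiscB_ev (x y : B) (H : K[X][X]) :
    aevalAeval x y H = (H.map (aeval x : K[X] →ₐ[K] B).toRingHom).eval y := by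
  induction H using Polynomial.induction_on' with
  | add p q hp hq => simp only [map_add, Polynomial.map_add, eval_add, hp, hq]
  | monomial n c => simp [← C_mul_X_pow_eq_monomial]

theorem DiscB_map (g : B →ₐ[K] B') (x y : B) (H : K[X][X]) :
    g (aevalAeval x y H) = aevalAeval (g x) (g y) H :=
  AlgHom.congr_fun (show g.comp (aevalAeval x y) = aevalAeval (g x) (g y) by ext <;> simp) H

theorem DiscB_mem {S : Subalgebra K B} {x y : B} (hx : x ∈ S) (hy : y ∈ S) (H : K[X][X]) :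
    aevalAeval x y H ∈ S :=
  (DiscB_map S.val ⟨x, hx⟩ ⟨y, hy⟩ H) ▸ (aevalAeval (⟨x, hx⟩ : S) ⟨y, hy⟩ H).2

theorem DiscB_chain (R : B → B → Prop)
    (hadd : ∀ a a' b b', R a a' → R b b' → R (a + b) (a' + b'))
    (hmul : ∀ a a' b b', R a a' → R b b' → R (a * b) (a * b' + b * a'))
    (hC : ∀ c : K, R (algebraMap K B c) 0) {x x' y y' : B} (hx : R x x') (hy : R y y')
    (H : K[X][X]) : R (aevalAeval x y H) (aevalAeval y x (derivative (Bivariate.swap H)) * x' +
      aevalAeval x y (derivative H) * y') := by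
  let Q : K[X][X] → Prop := fun H => R (aevalAeval x y H)
    (aevalAeval y x (derivative (Bivariate.swap H)) * x' + aevalAeval x y (derivative H) * y')
  have h1 : ∀ G H, Q G → Q H → Q (G + H) := fun G H hG hH => by
    simp only [Q, map_add]
    convert hadd _ _ _ _ hG hH using 1
    ring
  have h2 : ∀ G H, Q G → Q H → Q (G * H) := fun G H hG hH => by
    simp only [Q, map_mul, derivative_mul, map_add, Bivariate.aevalAeval_swap]
    convert hmul _ _ _ _ hG hH using 1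
    ring
  have h3 : ∀ p, Q (C p) := fun p => by
    induction p using Polynomial.induction_on with
    | C c => simpa [Q, Bivariate.swap_C_C] using hC c
    | add p q hp hq => exact map_add C p q ▸ h1 _ _ hp hq
    | monomial n c ih =>
      rw [pow_succ, ← mul_assoc, map_mul]
      exact h2 _ _ ih (by simpa [Q, Bivariate.swap_X] using hx)
  induction H using Polynomial.induction_on with
  | C c => exact h3 c
  | add p q hp hq => exact h1 _ _ hp hq
  | monomial n c ih =>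
    rw [pow_succ, ← mul_assoc]
    exact h2 _ _ ih (by simpa [Q, Bivariate.swap_Y] using hy)

end

omit [Fintype ι] [DecidableEq ι] in
theorem DiscB_cp (y : LT ι K) (H : K[X][X]) (i : ι) : aevalAeval (xx ι K) y H i =
    (H.map (aeval (LS.T K (-1)) : K[X] →ₐ[K] LS K).toRingHom).eval (y i) :=
  (DiscB_map (Pi.evalAlgHom K (fun _ : ι => LS K) i) _ y H).trans (DiscB_ev _ _ H)

/-- `s A ⊆ K[x, y]`. -/
def DiscB_Good (A : Subalgebra K (LT ι K)) (y : LT ι K) (s : K[X]) : Prop :=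
  ∀ F ∈ A, ∃ H : K[X][X], aeval (xx ι K) s * F = aevalAeval (xx ι K) y H

theorem DiscB_nak (h : IsChart J A) {a : K} {y : LT ι K} (hy : ∀ F ∈ A, ∃ p : K[X], ∃ G ∈ A,
    F = aeval y p + (xx ι K - algebraMap K _ a) * G) : ∃ r, r.eval a = 1 ∧ DiscB_Good A y r := by
  obtain ⟨b, h1, -, h2⟩ := DiscA_basis h
  let : Algebra K[X] (LT ι K) := (aeval (xx ι K) : K[X] →ₐ[K] LT ι K).toRingHom.toAlgebra
  have h3 : ∀ F ∈ A, F ∈ Submodule.span K[X] (Set.range b) := fun F hF => by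
    obtain ⟨c, rfl⟩ := h2 F hF
    exact sum_mem fun j _ => Submodule.smul_mem _ (c j) (Submodule.subset_span ⟨j, rfl⟩)
  have h4 : ∀ H : K[X][X], aeval y H = aevalAeval (xx ι K) y H := fun H =>
    (eval₂_eq_eval_map _).trans (DiscB_ev _ _ H).symm
  obtain ⟨r, h5, h6⟩ := Submodule.exists_sub_one_mem_and_smul_le_of_fg_of_le_sup
    (I := Ideal.span {X - C a}) (N := LinearMap.range (aeval (R := K[X]) y).toLinearMap)
    (Submodule.fg_span (Set.finite_range b)) le_rfl (Submodule.span_le.2 (by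
      rintro _ ⟨j, rfl⟩
      obtain ⟨p, G, hG, e⟩ := hy _ (h1 j)
      refine e ▸ Submodule.add_mem_sup ⟨p.map C, ?_⟩ ?_
      · rw [AlgHom.toLinearMap_apply, h4, ← Bivariate.swap_C, Bivariate.aevalAeval_swap,
          aevalAeval_C]
      · have := Submodule.smul_mem_smul (Ideal.mem_span_singleton_self (X - C a)) (h3 G hG)
        rwa [Algebra.smul_def, RingHom.algebraMap_toAlgebra, AlgHom.toRingHom_eq_coe,
          RingHom.coe_coe, map_sub, aeval_X, aeval_C] at this))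
  refine ⟨r, ?_, fun F hF => ?_⟩
  · simpa [sub_eq_zero] using dvd_iff_isRoot.1 (Ideal.mem_span_singleton.1 h5)
  · obtain ⟨H, hH⟩ := h6 (Submodule.smul_mem_pointwise_smul F r _ (h3 F hF))
    exact ⟨H, hH.symm.trans (h4 H)⟩

theorem DiscB_good [IsAlgClosed K] (h : IsChart J A) (hc : ∀ a : K, ∃ y ∈ A, ∀ F ∈ A, ∃ p : K[X],
    ∃ G ∈ A, F = aeval y p + (xx ι K - algebraMap K _ a) * G) {c : K[X]} (h0 : c ≠ 0) :
    ∃ y ∈ A, ∃ s, DiscB_Good A y s ∧ s ≠ 0 ∧ IsCoprime s c := by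
  classical
  choose y hy hc using hc
  set S := insert 0 c.roots.toFinset
  have h1 : ∀ a ∈ S, ∀ {M : Type u} [AddCommGroup M] [Module K M] (f : K → M),
      ∑ a' ∈ S, (Lagrange.basis S id a').eval a • f a' = f a := fun a ha M _ _ f => by
    rw [Finset.sum_eq_single a (fun a' _ e => ?_) fun e => absurd ha e]
    · exact (congrArg (· • f a) (Lagrange.eval_basis_self (v := id) (Set.injOn_id _) ha)).trans
        (one_smul _ _)
    · exact (congrArg (· • f a') (Lagrange.eval_basis_of_ne (v := id) e ha)).trans (zero_smul _ _)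
  let x : A := ⟨_, h.x_mem⟩
  let Y : A := ∑ a ∈ S, aeval x (Lagrange.basis S id a) * ⟨y a, hy a⟩
  have h2 : ∀ a ∈ S, ∃ r, r.eval a = 1 ∧ DiscB_Good A Y r := fun a ha => DiscB_nak h fun F hF => by
    obtain ⟨p, G, hG, e⟩ := hc a F hF
    let π := Ideal.Quotient.mkₐ K (Ideal.span {x - algebraMap K A a})
    have h3 : π (x - algebraMap K A a) = 0 :=
      Ideal.Quotient.eq_zero_iff_mem.2 (Ideal.mem_span_singleton_self _)
    have h4 : π Y = π ⟨y a, hy a⟩ := by
      rw [map_sub, sub_eq_zero, AlgHom.commutes] at h3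
      simp only [Y, map_sum, map_mul, ← aeval_algHom_apply, h3, aeval_algebraMap_apply,
        coe_aeval_eq_eval, ← Algebra.smul_def]
      exact h1 a ha fun a' => π ⟨y a', hy a'⟩
    have h5 : (⟨F, hF⟩ : A) = aeval ⟨y a, hy a⟩ p + (x - algebraMap K A a) * ⟨G, hG⟩ :=
      Subtype.ext (e.trans (congrArg (· + _) (aeval_algHom_apply A.val ⟨y a, hy a⟩ p)))
    have h6 : π (⟨F, hF⟩ - aeval Y p) = 0 := by
      rw [h5, map_sub, map_add, map_mul, h3, ← aeval_algHom_apply, ← aeval_algHom_apply, h4]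
      simp
    obtain ⟨G', h7⟩ := Ideal.mem_span_singleton.1 (Ideal.Quotient.eq_zero_iff_mem.1 h6)
    exact ⟨p, G', G'.2, (congrArg Subtype.val (eq_add_of_sub_eq' h7)).trans
      (congrArg (· + _) (aeval_algHom_apply A.val Y p).symm)⟩
  choose! r h3 h4 using h2
  have h5 : ∀ a ∈ S, (∑ a' ∈ S, Lagrange.basis S id a' * r a').eval a = 1 := fun a ha => by
    simp only [eval_finsetSum, eval_mul]
    exact (h1 a ha fun a' => (r a').eval a).trans (h3 a ha)
  refine ⟨Y, Y.2, ∑ a ∈ S, Lagrange.basis S id a * r a, fun F hF => ?_, fun e => ?_,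
    (isCoprime_iff_aeval_ne_zero_of_isAlgClosed K K _ _).2 fun a => ?_⟩
  · choose! H hH using fun a ha => h4 a ha F hF
    refine ⟨∑ a ∈ S, C (Lagrange.basis S id a) * H a, ?_⟩
    rw [map_sum, map_sum, Finset.sum_mul]
    exact Finset.sum_congr rfl fun a ha => by
      rw [map_mul, map_mul, aevalAeval_C, mul_assoc, hH a ha]
  · simpa [e] using h5 0 (Finset.mem_insert_self _ _)
  · by_cases ha : a ∈ S
    · exact Or.inl (by rw [coe_aeval_eq_eval, h5 a ha]; exact one_ne_zero)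
    · exact Or.inr fun e => ha (Finset.mem_insert_of_mem (by simpa [h0] using e))

theorem DiscB_inj (h : IsChart J A) {y : LT ι K} {s : K[X]} (hs : DiscB_Good A y s) (h0 : s ≠ 0) :
    Function.Injective y := fun i j e => by
  by_contra hne
  obtain ⟨n, hn⟩ := Chart_bound J
  obtain ⟨H, hH⟩ := hs _ (h.chi_mem i (i, n))
  have h1 : aeval (LS.T K (-1)) s * chi i J A (i, n) i =
      aeval (LS.T K (-1)) s * chi i J A (i, n) j := by
    rw [← DiscA_ap s i, ← Pi.mul_apply, hH, DiscA_ap s i, ← DiscA_ap s j, ← Pi.mul_apply, hH,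
      DiscB_cp, DiscB_cp, e]
  have h2 := h.Chart_pc_chi i (i, n) (ν := (i, n)) fun e => (hn _ e).false
  have h3 := h.Chart_pc_chi i (i, n) (ν := (j, n)) fun e => (hn _ e).false
  rw [pc, mul_left_cancel₀ ((map_ne_zero_iff _ DiscA_inj).2 h0) h1, if_pos rfl] at h2
  rw [pc, h2, if_neg (by simpa using Ne.symm hne)] at h3
  exact one_ne_zero h3

/-- The different. -/
noncomputable def DiscB_z (y : LT ι K) : LT ι K := fun i => ∏ j ∈ Finset.univ.erase i, (y i - y j)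

theorem DiscB_z_ne {y : LT ι K} (hy : Function.Injective y) (i : ι) : DiscB_z y i ≠ 0 :=
  Finset.prod_ne_zero_iff.2 fun _ hj => sub_ne_zero.2 fun e => (Finset.mem_erase.1 hj).1 (hy e).symm

section
variable {y : LT ι K} {P : K[X][X]}
  (hP : P.map (aeval (LS.T K (-1)) : K[X] →ₐ[K] LS K).toRingHom = ∏ i, (X - C (y i)))
include hP

omit [DecidableEq ι] in
theorem DiscB_root : aevalAeval (xx ι K) y P = 0 := funext fun i => by
  rw [DiscB_cp, hP, eval_prod]
  exact Finset.prod_eq_zero (Finset.mem_univ i) (by simp)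

theorem DiscB_deriv : aevalAeval (xx ι K) y (derivative P) = DiscB_z y := funext fun i => by
  rw [DiscB_cp, ← derivative_map, hP, ← Lagrange.nodal_eq,
    Lagrange.eval_nodal_derivative_eval_node_eq (Finset.mem_univ i), Lagrange.eval_nodal]
  rfl

omit [DecidableEq ι] in
theorem DiscB_rem (hm : P.Monic) (H : K[X][X]) : ∃ R : K[X][X], P ∣ H - R ∧
    (R.map (aeval (LS.T K (-1)) : K[X] →ₐ[K] LS K).toRingHom).degree <
      (Finset.univ : Finset ι).card ∧ aevalAeval (xx ι K) y R = aevalAeval (xx ι K) y H := by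
  refine ⟨H %ₘ P, ⟨H /ₘ P, sub_eq_of_eq_add' (modByMonic_add_div H P).symm⟩, ?_, ?_⟩
  · refine degree_map_le.trans_lt ((degree_modByMonic_lt H hm).trans_eq ?_)
    rw [← hm.degree_map (aeval (LS.T K (-1)) : K[X] →ₐ[K] LS K).toRingHom, hP, ← Lagrange.nodal_eq,
      Lagrange.degree_nodal]
  · conv_rhs => rw [← modByMonic_add_div H P, map_add, map_mul, DiscB_root hP, zero_mul, add_zero]

omit [DecidableEq ι] in
theorem DiscB_dvd (hm : P.Monic) (hy : Function.Injective y) {H : K[X][X]}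
    (h : aevalAeval (xx ι K) y H = 0) : P ∣ H := by
  obtain ⟨R, h1, h2, h3⟩ := DiscB_rem hP hm H
  have h4 := eq_zero_of_degree_lt_of_eval_index_eq_zero Finset.univ hy.injOn h2 fun i _ => by
    rw [← DiscB_cp, h3, h, Pi.zero_apply]
  rwa [(Polynomial.map_eq_zero_iff DiscA_inj).1 h4, sub_zero] at h1

theorem DiscB_euler (hm : P.Monic) (hy : Function.Injective y) (H : K[X][X]) :
    ∃ p : K[X], aeval (LS.T K (-1)) p = ∑ i, aevalAeval (xx ι K) y H i / DiscB_z y i := by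
  obtain ⟨R, -, h2, h3⟩ := DiscB_rem hP hm H
  have h4 := Lagrange.coeff_eq_sum hy.injOn h2
  rw [coeff_map] at h4
  exact ⟨_, h4.trans (Finset.sum_congr rfl fun i _ => by rw [← DiscB_cp, h3, DiscB_z])⟩

theorem DiscB_zmul (hx : xx ι K ∈ A) (hy : y ∈ A) {F : LT ι K} (hF : F ∈ DiscA_Perp A) :
    DiscB_z y * F ∈ A := by
  let PA : A[X] := P.map (aeval (⟨_, hx⟩ : A) : K[X] →ₐ[K] A).toRingHom
  have h1 : PA.IsRoot ⟨y, hy⟩ := Subtype.ext (by
    rw [← DiscB_ev]
    exact (DiscB_map A.val _ _ P).trans (DiscB_root hP))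
  obtain ⟨Q, hQ⟩ := dvd_iff_isRoot.2 h1
  have h2 : ∀ l, Q.map (CDC_pr A l).toRingHom = ∏ j ∈ Finset.univ.erase l, (X - C (y j)) :=
    fun l => mul_left_cancel₀ (X_sub_C_ne_zero (y l)) (by
      have := congrArg (Polynomial.map (CDC_pr A l).toRingHom) hQ
      rw [Polynomial.map_map, CDA_aeval_comp, Polynomial.map_mul, Polynomial.map_sub, map_X,
        map_C] at this
      rw [Finset.mul_prod_erase _ (fun j => X - C (y j)) (Finset.mem_univ l), ← hP]
      exact this.symm)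
  choose p hp using fun k => (DiscA_perp hx).1 hF _ (Q.coeff k).2
  have h3 : DiscB_z y * F = ∑ k ∈ Finset.range (Q.natDegree + 1), aeval (xx ι K) (p k) * y ^ k := by
    funext i
    have h4 : ∀ l, F l * (Q.map (CDC_pr A l).toRingHom).eval (y i) =
        if l = i then (DiscB_z y * F) i else 0 := fun l => by
      rw [h2, eval_prod]
      split_ifs with e
      · simp [e, DiscB_z, mul_comm]
      · rw [Finset.prod_eq_zero (Finset.mem_erase.2 ⟨Ne.symm e, Finset.mem_univ i⟩) (by simp),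
          mul_zero]
    have h5 := Finset.sum_congr (rfl : Finset.univ = _) fun l _ => h4 l
    rw [Finset.sum_ite_eq', if_pos (Finset.mem_univ i)] at h5
    simp only [← h5, Finset.sum_apply, Pi.mul_apply _ (y ^ _), DiscA_ap, hp, eval_map,
      eval₂_eq_sum_range, Finset.mul_sum, Finset.sum_mul, mul_assoc]
    exact Finset.sum_comm
  exact h3 ▸ sum_mem fun k _ => mul_mem (DiscA_mem hx _) (pow_mem hy k)

end

theorem DiscB_norm (h : IsChart J A) {z : LT ι K} (hz : z ∈ A) (h0 : ∀ i, z i ≠ 0) :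
    ∃ n : K[X], n ≠ 0 ∧ ∃ w ∈ A, aeval (xx ι K) n = w * z := by
  obtain ⟨P, -, hP⟩ := DiscA_charpoly h hz
  refine ⟨P.coeff 0, fun e => ?_, -aevalAeval (xx ι K) z P.divX, neg_mem (DiscB_mem h.x_mem hz _), ?_⟩
  · have h1 := congrArg (coeff · 0) hP
    simp only [coeff_map, e, map_zero] at h1
    rw [coeff_zero_eq_eval_zero, eval_prod, eq_comm, Finset.prod_eq_zero_iff] at h1
    obtain ⟨i, -, hi⟩ := h1
    exact h0 i (by simpa using hi)
  · have h1 := DiscB_root hP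
    rw [← X_mul_divX_add P, map_add, map_mul, aevalAeval_C, aevalAeval_Y] at h1
    linear_combination h1

theorem DiscB_perp (h : IsChart J A) {y F : LT ι K} {s c : K[X]} (hy : y ∈ A)
    (hs : DiscB_Good A y s) (h0 : s ≠ 0) (hc : IsCoprime s c) (h1 : DiscB_z y * F ∈ A)
    (h2 : aeval (xx ι K) c * F ∈ A) : F ∈ DiscA_Perp A := (DiscA_perp h.x_mem).2 fun a ha => by
  obtain ⟨P, hm, hP⟩ := DiscA_charpoly h hy
  obtain ⟨H, hH⟩ := hs _ (mul_mem h1 ha)
  obtain ⟨p, hp⟩ := DiscB_euler hP hm (DiscB_inj h hs h0) H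
  obtain ⟨q, hq⟩ := DiscA_tr h (mul_mem h2 ha)
  obtain ⟨u, v, e⟩ := hc
  refine ⟨u * p + v * q, ?_⟩
  rw [map_add, map_mul, map_mul, hp, hq, ← hH, Finset.mul_sum, Finset.mul_sum,
    ← Finset.sum_add_distrib]
  refine Finset.sum_congr rfl fun i _ => ?_
  have h3 := congrArg (aeval (LS.T K (-1))) e
  have h4 := DiscB_z_ne (DiscB_inj h hs h0) i
  simp only [Pi.mul_apply, DiscA_ap, map_add, map_mul, map_one] at h3 ⊢
  field_simp
  linear_combination F i * a i * h3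

omit [Fintype ι] [DecidableEq ι] in
theorem DiscB_der (hx : xx ι K ∈ A) {D : A →ₗ[K] LT ι K ⧸ A.toSubmodule} (hD : D ∈ DerQ A) {y : A}
    {F : LT ι K} (hy : D y = Submodule.Quotient.mk F) (H : K[X][X]) (f : A)
    (hf : f.1 = aevalAeval (xx ι K) y.1 H) :
    D f = Submodule.Quotient.mk (aevalAeval (xx ι K) y.1 (derivative H) * F) := by
  have h1 : D 1 = 0 := by
    obtain ⟨G, hG⟩ := Submodule.Quotient.mk_surjective _ (D 1)
    have := hD.2 1 1 G G hG.symm hG.symm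
    rwa [mul_one, OneMemClass.coe_one, one_mul, Submodule.Quotient.mk_add, hG,
      left_eq_add] at this
  obtain ⟨h2, h3⟩ := DiscB_chain (K := K)
    (fun a G => ∃ ha : a ∈ A, D ⟨a, ha⟩ = Submodule.Quotient.mk G)
    (fun a _ b _ ⟨ha, h1⟩ ⟨hb, h2⟩ => ⟨add_mem ha hb, (D.map_add ⟨a, ha⟩ ⟨b, hb⟩).trans
      (by rw [h1, h2, Submodule.Quotient.mk_add])⟩)
    (fun a _ b _ ⟨ha, h1⟩ ⟨hb, h2⟩ => ⟨mul_mem ha hb, hD.2 ⟨a, ha⟩ ⟨b, hb⟩ _ _ h1 h2⟩)
    (fun c => ⟨A.algebraMap_mem c, show D (algebraMap K A c) = 0 by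
      rw [Algebra.algebraMap_eq_smul_one, map_smul, h1, smul_zero]⟩)
    (x' := 0) ⟨hx, hD.1 _ rfl⟩ ⟨y.2, hy⟩ H
  rw [mul_zero, zero_add] at h3
  exact (congrArg D (Subtype.ext hf)).trans h3

theorem DiscB_der_z (h : IsChart J A) {D : A →ₗ[K] LT ι K ⧸ A.toSubmodule} (hD : D ∈ DerQ A) {y : A}
    {F : LT ι K} (hy : D y = Submodule.Quotient.mk F) : DiscB_z y.1 * F ∈ A := by
  obtain ⟨P, -, hP⟩ := DiscA_charpoly h y.2
  have := DiscB_der h.x_mem hD hy P 0 (DiscB_root hP).symm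
  rw [map_zero, DiscB_deriv hP] at this
  exact (Submodule.Quotient.mk_eq_zero _).1 this.symm

omit [Fintype ι] [DecidableEq ι] in
theorem DiscB_der_s (hx : xx ι K ∈ A) {D : A →ₗ[K] LT ι K ⧸ A.toSubmodule} (hD : D ∈ DerQ A)
    {y f : A} {F G : LT ι K} (hy : D y = Submodule.Quotient.mk F) (hf : D f = Submodule.Quotient.mk G)
    {s : K[X]} (hs : DiscB_Good A y s) : ∃ w ∈ A, aeval (xx ι K) s * G - w * F ∈ A := by
  obtain ⟨H, hH⟩ := hs f f.2
  have h1 := DiscB_der hx hD hy (C s) ⟨_, DiscA_mem hx s⟩ (aevalAeval_C _ _ s).symm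
  have h2 := hD.2 _ _ _ _ h1 hf
  rw [DiscB_der hx hD hy H _ hH, derivative_C, map_zero, zero_mul, mul_zero, add_zero] at h2
  exact ⟨_, DiscB_mem hx y.2 _, (Submodule.Quotient.eq _).1 h2.symm⟩

omit [Fintype ι] [DecidableEq ι] in
theorem DiscB_cop (hx : xx ι K ∈ A) {s c : K[X]} (hc : IsCoprime s c) {F : LT ι K}
    (h1 : aeval (xx ι K) s * F ∈ A) (h2 : aeval (xx ι K) c * F ∈ A) : F ∈ A := by
  obtain ⟨u, v, e⟩ := hc
  have h3 := congrArg (aeval (xx ι K)) e
  rw [map_add, map_mul, map_mul, map_one] at h3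
  convert add_mem (mul_mem (DiscA_mem hx u) h1) (mul_mem (DiscA_mem hx v) h2) using 1
  linear_combination -F * h3

theorem DiscB_le [IsAlgClosed K] [Nonempty ι] (h : IsChart J A) (hJ : ∀ ν ∈ J, ν.2 < 1)
    (hc : ∀ a : K, ∃ y ∈ A, ∀ F ∈ A, ∃ p : K[X], ∃ G ∈ A,
      F = aeval y p + (xx ι K - algebraMap K _ a) * G) :
    Module.finrank K (DerQ A) + 2 ≤ 2 * Fintype.card ι + 2 * J.card := by
  have hd : 0 < Fintype.card ι := Fintype.card_pos
  obtain ⟨N, hN⟩ : ∃ N, N + 2 = 2 * Fintype.card ι + 2 * J.card :=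
    ⟨2 * Fintype.card ι + 2 * J.card - 2, by omega⟩
  obtain ⟨Φ, a1, a2, -⟩ := DiscA_phi h hJ hN
  obtain ⟨y₁, b1, s₁, b2, b3, -⟩ := DiscB_good h hc one_ne_zero
  obtain ⟨n, b4, w, b5, b6⟩ := DiscB_norm h (z := DiscB_z y₁) (by
    obtain ⟨P, -, hP⟩ := DiscA_charpoly h b1
    exact DiscB_deriv hP ▸ DiscB_mem h.x_mem b1 _) (DiscB_z_ne (DiscB_inj h b2 b3))
  have hk : ∀ D ∈ DerQ A, ∀ f G, D f = Submodule.Quotient.mk G →
      aeval (xx ι K) (n * s₁) * G ∈ A := fun D hD f G hf => by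
    obtain ⟨F, hF⟩ := Submodule.Quotient.mk_surjective _ (D ⟨y₁, b1⟩)
    obtain ⟨v, h1, h2⟩ := DiscB_der_s h.x_mem hD hF.symm hf b2
    convert add_mem (mul_mem (DiscA_mem h.x_mem n) h2)
      (mul_mem (mul_mem b5 h1) (DiscB_der_z h hD hF.symm)) using 1
    rw [map_mul, b6]
    ring
  obtain ⟨y, c1, s, c2, c3, c4⟩ := DiscB_good h hc (mul_ne_zero b4 b3)
  let Ψ : (A →ₗ[K] LT ι K ⧸ A.toSubmodule) →ₗ[K] Fin N → K :=
    (A.toSubmodule.liftQ Φ a1) ∘ₗ LinearMap.applyₗ (⟨y, c1⟩ : A)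
  have key : ∀ D ∈ DerQ A, Ψ D = 0 → D = 0 := fun D hD h0 => LinearMap.ext fun f => by
    obtain ⟨F, hF⟩ := Submodule.Quotient.mk_surjective _ (D ⟨y, c1⟩)
    obtain ⟨G, hG⟩ := Submodule.Quotient.mk_surjective _ (D f)
    have h5 : Φ F = 0 := (congrArg (A.toSubmodule.liftQ Φ a1) hF).trans h0
    have h7 := DiscB_der_z h hD hF.symm
    have h2 := a2 F (DiscB_perp h c1 c2 c3 c4 h7 (hk _ hD _ _ hF.symm)) h5
    obtain ⟨v, h3, h4⟩ := DiscB_der_s h.x_mem hD hF.symm hG.symm c2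
    have h6 : G ∈ A := DiscB_cop h.x_mem c4 (by simpa using add_mem h4 (mul_mem h3 h2))
      (hk _ hD _ _ hG.symm)
    exact hG.symm.trans ((Submodule.Quotient.mk_eq_zero _).2 h6)
  have h1 := LinearMap.finrank_le_finrank_of_injective (f := Ψ.domRestrict (DerQ A))
    fun D D' e => Subtype.ext (sub_eq_zero.1 (key _ ((DerQ A).sub_mem D.2 D'.2)
      ((map_sub Ψ _ _).trans (sub_eq_zero.2 e))))
  rw [Module.finrank_fin_fun] at h1
  exact (Nat.add_le_add_right h1 2).trans hN.le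

theorem DiscB_loc {B : Type u} [CommRing B] [Algebra K B] (σ : B →ₐ[K] K) {x y S t w : B}
    {P : K[X][X]} (h1 : ∀ H, aevalAeval x y H = 0 → P ∣ H) (h2 : ∀ f, ∃ H : K[X][X],
      S * f = aevalAeval x y H) (h3 : aevalAeval x y P = 0) (hS : σ S ≠ 0) (ht : σ t ≠ 0)
    (h4 : t * (y - algebraMap K B (σ y)) = w * (x - algebraMap K B (σ x))) :
    σ (aevalAeval x y (derivative P)) ≠ 0 := fun h0 => by
  obtain ⟨G, hG⟩ := h2 t
  obtain ⟨H, hH⟩ := h2 w
  obtain ⟨Q, hQ⟩ := h1 (G * (X - C (C (σ y))) - H * C (X - C (σ x))) (by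
    rw [map_sub, map_mul, map_mul, map_sub, aevalAeval_C, aevalAeval_C, aevalAeval_Y, ← hG, ← hH,
      map_sub, aeval_X, aeval_C, aeval_C, mul_assoc, h4, mul_assoc, sub_self])
  have h5 := congrArg (fun p => σ (aevalAeval x y (derivative p))) hQ
  simp only [derivative_mul, derivative_C, derivative_X, map_add, map_sub, map_mul,
    h0, h3, ← hG, aevalAeval_C, aevalAeval_Y, aeval_X, aeval_C, AlgHom.commutes, map_zero, map_one,
    Algebra.algebraMap_self, RingHom.id_apply] at h5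
  simp [hS, ht] at h5

omit [Fintype ι] [DecidableEq ι] in
theorem DiscB_dx (y : LT ι K) (H : K[X][X]) : (fun i => LS.dx (aevalAeval (xx ι K) y H i)) =
    aevalAeval y (xx ι K) (derivative (Bivariate.swap H)) * 1 +
      aevalAeval (xx ι K) y (derivative H) * fun i => LS.dx (y i) :=
  DiscB_chain (K := K) (fun a a' : LT ι K => (fun i => LS.dx (a i)) = a')
    (fun _ _ _ _ h1 h2 => h1 ▸ h2 ▸ funext fun _ => map_add _ _ _)
    (fun _ _ _ _ h1 h2 => h1 ▸ h2 ▸ funext fun _ => Derivation.leibniz _ _ _)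
    (fun c => funext fun _ => LS.dx.map_algebraMap c) (funext fun _ => LS.dx_T) rfl H

theorem DiscB_indep [IsAlgClosed K] [Nonempty ι] {L : Type u} [Field L] [Algebra K L]
    [Fact (IsFF K L)] (d : CD K L ι) (h : IsChart J d.alg) (hJ : ∀ ν ∈ J, ν.2 < 1)
    (hc : ∀ a : K, ∃ y ∈ d.alg, ∀ F ∈ d.alg, ∃ p : K[X], ∃ G ∈ d.alg,
      F = aeval y p + (xx ι K - algebraMap K _ a) * G) {N : ℕ}
    (hN : N + 2 = 2 * Fintype.card ι + 2 * J.card) : ∃ a : Fin N → LT ι K, (∀ j, a j ∈ d.alg) ∧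
      ∀ c : Fin N → K, (∀ F ∈ d.alg, (fun i => (∑ j, c j • a j) i * LS.dx (F i)) ∈ d.alg) →
        c = 0 := by
  obtain ⟨Φ, a1, -, a3⟩ := DiscA_phi h hJ hN
  obtain ⟨y₁, b1, s₁, b2, b3, -⟩ := DiscB_good h hc one_ne_zero
  obtain ⟨P₁, -, hP₁⟩ := DiscA_charpoly h b1
  obtain ⟨n, b4, w, b5, b6⟩ := DiscB_norm h (z := DiscB_z y₁)
    (DiscB_deriv hP₁ ▸ DiscB_mem h.x_mem b1 _) (DiscB_z_ne (DiscB_inj h b2 b3))
  obtain ⟨y, c1, s, c2, c3, c4⟩ := DiscB_good h hc b4
  obtain ⟨P, hm, hP⟩ := DiscA_charpoly h c1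
  choose F hF e using fun j => a3 (Pi.single j 1)
  refine ⟨fun j => DiscB_z y * F j, fun j => DiscB_zmul hP h.x_mem c1 (hF j), fun c hc => ?_⟩
  have h1 : ∑ j, c j • F j ∈ DiscA_Perp d.alg := sum_mem fun j _ => Submodule.smul_mem _ _ (hF j)
  have h2 : Φ (∑ j, c j • F j) = c := by
    simp only [map_sum, map_smul, e]
    exact (pi_eq_sum_univ' c).symm
  have h3 := hc y c1
  simp only [← mul_smul_comm, ← Finset.mul_sum] at h3
  refine h2.symm.trans (a1 _ ?_)
  generalize ∑ j, c j • F j = G at h1 h3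
  have h4 : aevalAeval y (xx ι K) (derivative (Bivariate.swap P)) * G ∈ d.alg := by
    have h5 := DiscB_dx y P
    rw [DiscB_root hP, DiscB_deriv hP] at h5
    convert neg_mem h3 using 1
    funext i
    have := congrFun h5 i
    simp only [Pi.mul_apply, Pi.add_apply, Pi.neg_apply, Pi.zero_apply, map_zero, mul_one] at this ⊢
    linear_combination -G i * this
  have h5 := DiscB_zmul hP h.x_mem c1 h1
  rw [← DiscB_deriv hP] at h5
  obtain ⟨g, h6, h7⟩ := mul_mem b5 (DiscB_zmul hP₁ h.x_mem b1 h1)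
  rw [← mul_assoc, ← b6] at h7
  have h8 : aeval d.x n ≠ 0 := fun e => d.transcendental ⟨n, b4, e⟩
  obtain rfl : d.exT (g / aeval d.x n) = G := funext fun i => by
    have := congrFun h7 i
    rw [Pi.mul_apply, DiscA_ap] at this
    rw [d.exT_apply, map_div₀, ← aeval_algHom_apply, d.ex_x,
      div_eq_iff ((map_ne_zero_iff _ DiscA_inj).2 b4), mul_comm]
    exact this
  refine ⟨_, fun Q hQ => ?_, rfl⟩
  obtain ⟨η, c5, rfl⟩ := Subalgebra.mem_map.1 c1
  obtain ⟨σ, hσ⟩ := Q.exists_ev d.reg fun f hf => hf Q hQ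
  let γ := d.exT.comp d.reg.val
  have hγ : Function.Injective γ := d.exT_injective.comp Subtype.val_injective
  let x : d.reg := ⟨_, d.x_mem⟩
  let y : d.reg := ⟨η, c5⟩
  have e0 : γ x = xx ι K := d.exT_x
  have e3 : γ y = d.exT η := rfl
  have e1 : ∀ H : K[X][X], γ (aevalAeval x y H) = aevalAeval (xx ι K) (d.exT η) H := fun H => by
    rw [DiscB_map, e0, e3]
  have e2 : ∀ p : K[X], γ (aeval x p) = aeval (xx ι K) p := fun p => by
    rw [← aeval_algHom_apply, e0]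
  have key : ∀ r : d.reg, σ r ≠ 0 → γ r * d.exT (g / aeval d.x n) ∈ d.alg →
      g / aeval d.x n ∈ Q.1 := by
    rintro r hr ⟨g', f1, f2⟩
    have f3 : g' = r * (g / aeval d.x n) := 
      d.exT_injective (f2.trans (map_mul d.exT (r : L) _).symm)
    have f4 : (r : L) ≠ 0 := fun e => hr (by rw [show r = 0 from Subtype.ext e, map_zero])
    have f5 := rr_ge_div f4 (Q.mem_iff.1 (f1 Q hQ))
    have f6 : ¬ Q.Ge (r : L) 1 := fun e => hr ((hσ r).trans ((Place.val_eq_zero (r.2 Q hQ)).2 e))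
    rw [f3, mul_right_comm, mul_inv_cancel₀ f4, one_mul] at f5
    rw [CDA_ge_iff_le Q f4] at f6
    exact Q.mem_iff.2 (f5.mono (by omega))
  by_cases hn : σ (aeval x n) = 0
  swap
  · exact key _ hn (by rw [e2, ← h7]; exact ⟨g, h6, rfl⟩)
  have g1 : σ (aeval x s) ≠ 0 := by
    rw [← aeval_algHom_apply] at hn ⊢
    exact (aeval_ne_zero_of_isCoprime c4 _).resolve_right (not_not.2 hn)
  have g2 : ∀ H, aevalAeval x y H = 0 → P ∣ H := fun H e =>
    DiscB_dvd hP hm (DiscB_inj h c2 c3) (by rw [← e1, e, map_zero])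
  have g3 : ∀ f, ∃ H : K[X][X], aeval x s * f = aevalAeval x y H := fun f => by
    obtain ⟨H, hH⟩ := c2 (γ f) ⟨f, f.2, rfl⟩
    exact ⟨H, hγ (by rw [map_mul, e1, e2, hH])⟩
  have g4 : aevalAeval x y P = 0 := hγ (by rw [e1, map_zero]; exact DiscB_root hP)
  have g5 : ∀ u v : d.reg, (u : L) ≠ 0 → (v : L) / u ∈ Q.1 →
      ∃ t w : d.reg, σ t ≠ 0 ∧ t * v = w * u := fun u v hu hv => by
    obtain ⟨t, f1, f2, f3⟩ :=
      exists_den_place (Set.finite_range d.pl) (Set.range_nonempty d.pl) hQ hv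
    exact ⟨⟨t, f1⟩, ⟨_, f3⟩, hσ _ ▸ f2, Subtype.ext (by simp [hu, mul_assoc])⟩
  have g6 : ((x - algebraMap K _ (σ x) : d.reg) : L) ≠ 0 := fun e =>
    transcendental_iff.1 d.transcendental ⟨σ x, (sub_eq_zero.1 e).symm⟩
  by_cases g7 : ((y - algebraMap K _ (σ y) : d.reg) : L) / (x - algebraMap K _ (σ x) : d.reg) ∈ Q.1
  · obtain ⟨t, w, f1, f2⟩ := g5 _ _ g6 g7
    exact key _ (DiscB_loc σ g2 g3 g4 g1 f1 f2) (by rw [e1]; exact h5)
  · obtain ⟨t, w, f1, f2⟩ := g5 _ _ (fun e => g7 (by rw [e, zero_div]; exact zero_mem _))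
      (inv_div (_ : L) _ ▸ (Q.1.mem_or_inv_mem _).resolve_left g7)
    refine key _ (DiscB_loc σ (P := Bivariate.swap P) (fun H e => ?_) (fun f => ?_)
      ((Bivariate.aevalAeval_swap y x P).trans g4) g1 f1 f2) ?_
    · have := _root_.map_dvd (Bivariate.swap (R := K))
        (g2 _ ((Bivariate.aevalAeval_swap x y H).trans e))
      rwa [Bivariate.swap_swap_apply] at this
    · obtain ⟨H, hH⟩ := g3 f
      exact ⟨_, hH.trans (Bivariate.aevalAeval_swap y x H).symm⟩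
    · rw [DiscB_map, e0, e3]
      exact h4

end PR0
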