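import Pool.Agent.Work.MP_da2620_ag.Defs

/-! Smoothness is an open condition in families. -/

open MvPolynomial

namespace Pool.Agent.Work.MP_da2620_ag

variable {k : Type*} [Field k]

attribute [local instance] MvPolynomial.gradedAlgebra

theorem open_no_zero [IsAlgClosed k] {R : Type*} [CommRing R] [Algebra k R] {ι J : Type*}
    [Fintype ι] (f : J → MvPolynomial ι R) (d : J → ℕ) (hf : ∀ j, (f j).IsHomogeneous (d j))
    (t₀ : R →ₐ[k] k) (h0 : ∀ x : ι → k, (∀ j, eval x (map (t₀ : R →+* k) (f j)) = 0) → x = 0) :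
    ∃ h : R, t₀ h ≠ 0 ∧ ∀ t : R →ₐ[k] k, t h ≠ 0 → ∀ x : ι → k,
      (∀ j, eval x (map (t : R →+* k) (f j)) = 0) → x = 0 := by
  classical
  let I : Ideal (MvPolynomial ι R) := Ideal.span (Set.range f)
  have hI : I.IsHomogeneous (homogeneousSubmodule ι R) :=
    Ideal.homogeneous_span _ _ (by rintro _ ⟨j, rfl⟩; exact ⟨d j, hf j⟩)
  have hs : Function.Surjective (map (t₀ : R →+* k) : MvPolynomial ι R → MvPolynomial ι k) :=
    map_surjective _ fun c => ⟨algebraMap k R c, t₀.commutes c⟩
  have h1 : ∀ i, ∃ n : ℕ, (X i : MvPolynomial ι k) ^ n ∈ I.map (map (t₀ : R →+* k)) := by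
    intro i
    change X i ∈ Ideal.radical _
    rw [← vanishingIdeal_zeroLocus_eq_radical (K := k)]
    intro x hx
    rw [h0 x fun j => hx _ (Ideal.mem_map_of_mem _ (Ideal.subset_span ⟨j, rfl⟩))]
    simp
  choose n hn using h1
  let D : ℕ := ∑ i, n i + 1
  have h2 : ∀ g : MvPolynomial ι k, g.IsHomogeneous D → g ∈ I.map (map (t₀ : R →+* k)) := by
    intro g hg
    rw [g.as_sum]
    refine Ideal.sum_mem _ fun m hm => ?_
    obtain ⟨i, hi⟩ : ∃ i, n i ≤ m i := by
      by_contra hc
      have a1 : m.degree = D := by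
        by_contra e
        exact mem_support_iff.1 hm (hg.coeff_eq_zero e)
      have a2 : ∑ i, m i ≤ ∑ i, n i :=
        Finset.sum_le_sum fun i _ => (not_le.1 fun e => hc ⟨i, e⟩).le
      rw [Finsupp.degree_eq_sum] at a1
      omega
    have : monomial m (coeff m g) = monomial (m - Finsupp.single i (n i)) (coeff m g) * X i ^ n i := by
      rw [X_pow_eq_monomial, monomial_mul, mul_one, tsub_add_cancel_of_le]
      exact Finsupp.single_le_iff.2 hi
    rw [this]
    exact Ideal.mul_mem_left _ _ (hn i)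
  let N := (homogeneousSubmodule ι R D).map (Ideal.Quotient.mkₐ R I).toLinearMap
  have h3 : N ≤ RingHom.ker (t₀ : R →+* k) • N := by
    rintro _ ⟨g, hg, rfl⟩
    obtain ⟨q, hq, e⟩ := (Ideal.mem_map_iff_of_surjective _ hs).1 (h2 _ (IsHomogeneous.map hg _))
    have e1 : (Ideal.Quotient.mkₐ R I).toLinearMap g =
        (Ideal.Quotient.mkₐ R I).toLinearMap (homogeneousComponent D (g - q)) := by
      rw [map_sub, homogeneousComponent_eq_self hg, map_sub]
      have : (Ideal.Quotient.mkₐ R I).toLinearMap (homogeneousComponent D q) = 0 :=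
        Ideal.Quotient.eq_zero_iff_mem.2 (homogeneousComponent_mem_of_mem hI hq D)
      rw [this, sub_zero]
    rw [e1, (homogeneousComponent D (g - q)).as_sum, map_sum]
    refine Submodule.sum_mem _ fun m hm => ?_
    have a1 : m.degree = D := by
      by_contra e
      exact mem_support_iff.1 hm ((homogeneousComponent_isHomogeneous D _).coeff_eq_zero e)
    rw [show monomial m (coeff m (homogeneousComponent D (g - q))) =
      coeff m (homogeneousComponent D (g - q)) • monomial m (1 : R) by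
        rw [smul_monomial, smul_eq_mul, mul_one], map_smul]
    refine Submodule.smul_mem_smul ?_ ⟨_, isHomogeneous_monomial _ a1, rfl⟩
    rw [coeff_homogeneousComponent, if_pos a1, RingHom.mem_ker, ← coeff_map, map_sub, e, sub_self,
      coeff_zero]
  obtain ⟨h, hh, hN⟩ := Submodule.exists_sub_one_mem_and_smul_eq_zero_of_fg_of_le_smul _ N
    ((homogeneousSubmodule_fg ι R D).map _) h3
  refine ⟨h, ?_, fun t ht x hx => funext fun i => ?_⟩
  · have : t₀ (h - 1) = 0 := hh
    rw [map_sub, map_one, sub_eq_zero] at this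
    rw [this]
    exact one_ne_zero
  · have a1 := hN _ ⟨X i ^ D, isHomogeneous_X_pow i D, rfl⟩
    rw [← map_smul] at a1
    have a2 : I ≤ RingHom.ker ((eval x).comp (map (t : R →+* k))) :=
      Ideal.span_le.2 (by rintro _ ⟨j, rfl⟩; exact hx j)
    have a3 := a2 (Ideal.Quotient.eq_zero_iff_mem.1 a1)
    rw [RingHom.mem_ker, smul_eq_C_mul] at a3
    simp only [RingHom.comp_apply, map_mul, map_C, map_pow, map_X, eval_C, eval_X] at a3
    exact eq_zero_of_pow_eq_zero ((mul_eq_zero.1 a3).resolve_left ht)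

theorem indep_iff {ι : Type*} (u v : ι → k) :
    LinearIndependent k ![u, v] ↔ ¬∀ i j, u i * v j - u j * v i = 0 := by
  rw [LinearIndependent.pair_iff]
  constructor
  · intro h hm
    have hu : ∀ i, u i = 0 := fun i => neg_eq_zero.1 (h (v i) (-u i) (funext fun j => by
      simp only [Pi.add_apply, Pi.smul_apply, smul_eq_mul, Pi.zero_apply]
      linear_combination -hm i j)).2
    exact one_ne_zero (h 1 0 (funext fun j => by simp [hu j])).1
  · intro h s t e
    by_contra hc
    refine h fun i j => ?_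
    have a1 : s * u i + t * v i = 0 := congrFun e i
    have a2 : s * u j + t * v j = 0 := congrFun e j
    by_contra hm
    refine hc ⟨(mul_eq_zero.1 ?_).resolve_right hm, (mul_eq_zero.1 ?_).resolve_right hm⟩
    · linear_combination v j * a1 - v i * a2
    · linear_combination u i * a2 - u j * a1

theorem smooth_iff (Q F : MvPolynomial (Fin 4) k) : SmoothCI Q F ↔ ∀ x : Fin 4 → k,
    eval x Q = 0 → eval x F = 0 → (∀ i j, eval x (pderiv i Q) * eval x (pderiv j F) -
      eval x (pderiv j Q) * eval x (pderiv i F) = 0) → x = 0 := by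
  refine forall_congr' fun x => ?_
  rw [indep_iff]
  tauto

theorem smooth_open [IsAlgClosed k] {R : Type*} [CommRing R] [Algebra k R]
    {Q F : MvPolynomial (Fin 4) R} (hQ : Q.IsHomogeneous 2) (hF : F.IsHomogeneous 3)
    (t₀ : R →ₐ[k] k) (h0 : SmoothCI (map (t₀ : R →+* k) Q) (map (t₀ : R →+* k) F)) :
    ∃ h : R, t₀ h ≠ 0 ∧ ∀ t : R →ₐ[k] k, t h ≠ 0 →
      SmoothCI (map (t : R →+* k) Q) (map (t : R →+* k) F) := by
  obtain ⟨h, h1, h2⟩ := open_no_zero (J := Bool ⊕ Fin 4 × Fin 4)
    (Sum.elim (fun b => if b then Q else F)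
      fun s => pderiv s.1 Q * pderiv s.2 F - pderiv s.2 Q * pderiv s.1 F)
    (Sum.elim (fun b => if b then 2 else 3) fun _ => 3) (by
      rintro ((_ | _) | s)
      · exact hF
      · exact hQ
      · exact (hQ.pderiv.mul hF.pderiv).sub (hQ.pderiv.mul hF.pderiv)) t₀ fun x hx =>
      (smooth_iff _ _).1 h0 x (hx (Sum.inl true)) (hx (Sum.inl false)) fun i j => by
        simpa [pderiv_map] using hx (Sum.inr (i, j))
  refine ⟨h, h1, fun t ht => (smooth_iff _ _).2 fun x a1 a2 a3 => h2 t ht x ?_⟩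
  rintro ((_ | _) | ⟨i, j⟩)
  · exact a2
  · exact a1
  · simpa [pderiv_map] using a3 i j

end Pool.Agent.Work.MP_da2620_ag
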