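import Pool.Agent.Work.MP_da2620_ag.Model
import Pool.Agent.Work.MP_da2620_ag.Disc

-- merged part: Pool.Agent.Work.MP_da2620_ag.Gauss
section
/-!
# The Gauss valuation of a model with integral special fibre; openness of smoothness

`exists_red`: every nonzero element of the generic fibre is `c • F₀` with `F₀ ∈ 𝒜` of nonzero
reduction (finitely many coordinates in the basis `1, χ μ`); `w` is the set of `a / s` with
`a, s ∈ 𝒜`, `s` of nonzero reduction.
`sm_gen`: nonzero elements of `A = gen' 𝒜` are units of `LT`; smoothness is equivalent to complete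
integral closedness (`Gauss_sm`, `Gauss_almost`).  If `s G ^ m ∈ A` for all `m`, with `s ∈ 𝒜` of
nonzero reduction, put `V = lev A n + K G`; the lattice `{v ∈ V | s v ∈ 𝒜}` has a basis with
independent reductions (`lat`), and `s v ^ m ∈ 𝒜` for all `m` puts the reduction of `v` in
`lev (spe 𝒜) n`.  Comparing dimensions (`finrank_lev`), `V = lev A n`.
-/

namespace PR0

universe u

variable {ι : Type} [Fintype ι] [DecidableEq ι] [Nonempty ι] {J : Finset (ι × ℕ)}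

section aux

omit [Fintype ι] [DecidableEq ι] [Nonempty ι] in
theorem Gauss_inj {R R' : Type u} [CommRing R] [CommRing R'] {φ : R →+* R'}
    (hφ : Function.Injective φ) : Function.Injective (mapT φ : LT ι R → LT ι R') :=
  fun _ _ e => funext fun i => LS.map_injective hφ (congrFun e i)

omit [Nonempty ι] in
theorem Gauss_mem_bc {R R' : Type u} [CommRing R] [CommRing R'] (φ : R →+* R')
    {A : Subalgebra R (LT ι R)} {F : LT ι R} (hF : F ∈ A) : mapT φ F ∈ bc φ A :=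
  mem_bc.2 (Submodule.subset_span ⟨F, hF, rfl⟩)

omit [Nonempty ι] in
theorem Gauss_lift {R R' : Type u} [CommRing R] [CommRing R'] {φ : R →+* R'}
    (hφ : Function.Surjective φ) {A : Subalgebra R (LT ι R)} {F : LT ι R'} (hF : F ∈ bc φ A) :
    ∃ F₀ ∈ A, mapT φ F₀ = F := by
  induction mem_bc.1 hF using Submodule.span_induction with
  | mem x hx => exact hx
  | zero => exact ⟨0, zero_mem _, map_zero _⟩
  | add x y hx hy ihx ihy =>
    obtain ⟨a, ha, rfl⟩ := ihx (mem_bc.2 hx)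
    obtain ⟨b, hb, rfl⟩ := ihy (mem_bc.2 hy)
    exact ⟨a + b, add_mem ha hb, map_add _ _ _⟩
  | smul c x hx ihx =>
    obtain ⟨a, ha, rfl⟩ := ihx (mem_bc.2 hx)
    obtain ⟨c, rfl⟩ := hφ c
    exact ⟨c • a, A.smul_mem ha c, mapT_smul φ c a⟩

omit [Fintype ι] [DecidableEq ι] [Nonempty ι] in
theorem Gauss_pole_map {R R' : Type u} [CommRing R] [CommRing R'] (φ : R →+* R') {F : LT ι R}
    {n : ℤ} (h : Pole F n) : Pole (mapT φ F) n := fun i m hm => by
  change φ ((F i).cf m) = 0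
  rw [h i m hm, map_zero]

omit [Fintype ι] [DecidableEq ι] [Nonempty ι] in
theorem Gauss_pole_of_map {R R' : Type u} [CommRing R] [CommRing R'] {φ : R →+* R'}
    (hφ : Function.Injective φ) {F : LT ι R} {n : ℤ} (h : Pole (mapT φ F) n) : Pole F n :=
  fun i m hm => hφ ((h i m hm).trans (map_zero φ).symm)

omit [Fintype ι] [DecidableEq ι] [Nonempty ι] in
theorem Gauss_unit {K : Type u} [Field K] {F : LT ι K} (h : ∀ i, F i ≠ 0) : IsUnit F :=
  Pi.isUnit_iff.2 fun i => (h i).isUnit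

variable {K κ : Type u} [Field K] [Field κ] {O : ValuationSubring K} {r : O →+* κ}

theorem Gauss_inv (hr' : ∀ c : O, r c = 0 ↔ O.valuation c < 1) {c : K} (hc : c ∉ O) :
    ∃ e : O, r e = 0 ∧ algebraMap O K e * c = 1 := by
  have h0 : c ≠ 0 := fun h => hc (h ▸ zero_mem O)
  refine ⟨⟨c⁻¹, (O.mem_or_inv_mem c).resolve_left hc⟩, (hr' _).2 ?_, inv_mul_cancel₀ h0⟩
  exact O.mem_nonunits_iff.1 (O.inv_mem_nonunits_iff.2 (Or.inr hc))

omit [Nonempty ι] in
theorem Gauss_int (hr' : ∀ c : O, r c = 0 ↔ O.valuation c < 1) {F₀ F₁ : LT ι O} {c : K}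
    (h0 : mapT r F₀ ≠ 0) (h : mapT (algebraMap O K) F₁ = c • mapT (algebraMap O K) F₀) :
    c ∈ O := by
  by_contra hc
  obtain ⟨e, he, he'⟩ := Gauss_inv hr' hc
  have : F₀ = e • F₁ := Gauss_inj (φ := algebraMap O K) Subtype.val_injective (by
    rw [mapT_smul, h, smul_smul, he', one_smul])
  rw [this, mapT_smul, he, zero_smul] at h0
  exact h0 rfl

theorem Gauss_prim (r : O →+* κ) {𝒜 : Subalgebra O (LT ι O)} (h : IsChart J 𝒜) {F : LT ι K}
    (hF : F ∈ bc (algebraMap O K) 𝒜) (h0 : F ≠ 0) : ∃ (c : K) (F₀ : LT ι O), c ≠ 0 ∧ F₀ ∈ 𝒜 ∧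
      mapT (algebraMap O K) F₀ = c • F ∧ mapT r F₀ ≠ 0 := by
  classical
  obtain ⟨i₀⟩ := ‹Nonempty ι›
  have hb := h.bc (algebraMap O K)
  obtain ⟨c, hc⟩ := (hb.mem_iff i₀).1 hF
  set S := (finite_pc F).toFinset with hS
  have hJ : ∀ μ ∈ J, chi i₀ J 𝒜 μ = 0 := fun μ hμ => if_pos hμ
  let y : Option (ι × ℕ) → K := fun o => o.elim c fun μ => if μ ∈ J then 0 else pc F μ
  obtain ⟨o, -, ho⟩ := Finset.exists_max_image (insert none (S.image some))
    (fun o => O.valuation (y o)) ⟨none, Finset.mem_insert_self _ _⟩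
  have hF' : F = algebraMap K _ (y none) +
      ∑ μ ∈ S, y (some μ) • mapT (algebraMap O K) (chi i₀ J 𝒜 μ) := by
    conv_lhs => rw [hc]
    congr 1
    refine Finset.sum_congr rfl fun μ _ => ?_
    rw [h.chi_bc]
    by_cases hμ : μ ∈ J
    · simp [hJ μ hμ]
    · simp [y, hμ]
  have hy : y o ≠ 0 := by
    intro e
    apply h0
    have : ∀ o' ∈ insert none (S.image some), y o' = 0 := fun o' h' => by
      have := ho o' h'
      simpa [e] using this
    rw [hF', this none (Finset.mem_insert_self _ _), map_zero, zero_add]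
    refine Finset.sum_eq_zero fun μ hμ => ?_
    rw [this (some μ) (Finset.mem_insert_of_mem (Finset.mem_image_of_mem _ hμ)), zero_smul]
  have hz : ∀ o', ∃ z : O, o' ∈ insert none (S.image some) →
      algebraMap O K z = (y o)⁻¹ * y o' := fun o' => by
    by_cases h' : o' ∈ insert none (S.image some)
    · obtain ⟨a, ha⟩ := (O.valuation_le_iff _ _).1 (ho o' h')
      refine ⟨a, fun _ => ?_⟩
      rw [← ha, mul_comm (a : K), inv_mul_cancel_left₀ hy]
      rfl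
    · exact ⟨0, fun h'' => (h' h'').elim⟩
  choose z hz using hz
  have key : mapT (algebraMap O K) (algebraMap O (LT ι O) (z none) +
      ∑ μ ∈ S, z (some μ) • chi i₀ J 𝒜 μ) = (y o)⁻¹ • F := by
    conv_rhs => rw [hF']
    rw [map_add, map_sum, mapT_algebraMap, smul_add, Finset.smul_sum,
      hz none (Finset.mem_insert_self _ _), map_mul, ← Algebra.smul_def]
    congr 1
    refine Finset.sum_congr rfl fun μ hμ => ?_
    rw [mapT_smul, hz _ (Finset.mem_insert_of_mem (Finset.mem_image_of_mem _ hμ)), mul_smul]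
  refine ⟨(y o)⁻¹, _, inv_ne_zero hy, add_mem (𝒜.algebraMap_mem _)
    (sum_mem fun μ _ => 𝒜.smul_mem (h.chi_mem i₀ μ) _), key, ?_⟩
  generalize (algebraMap O (LT ι O) (z none) + ∑ μ ∈ S, z (some μ) • chi i₀ J 𝒜 μ) = F₀ at key
  have main : ∀ (i : ι) (m : ℤ), (F i).cf m = y o → mapT r F₀ ≠ 0 := by
    intro i m e e'
    have h1 : algebraMap O K ((F₀ i).cf m) = algebraMap O K 1 := by
      have := congrArg (fun G : LT ι K => (G i).cf m) key
      simp only [Pi.smul_apply, LS.cf_smul, e, inv_mul_cancel₀ hy] at this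
      rw [map_one]
      exact this
    have h2 : r ((F₀ i).cf m) = 0 := congrArg (fun G : LT ι κ => (G i).cf m) e'
    have h3 : (F₀ i).cf m = 1 := Subtype.val_injective h1
    rw [h3, map_one] at h2
    exact one_ne_zero h2
  rcases o with _ | μ
  · refine main i₀ 0 ?_
    conv_lhs => rw [hc]
    simp only [Pi.add_apply, LS.cf_add, Finset.sum_apply, LS.cf_sum, Pi.smul_apply, LS.cf_smul,
      hb.chi_cf, mul_zero, Finset.sum_const_zero, add_zero, Pi.algebraMap_apply, LS.cf_algebraMap]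
    rfl
  · by_cases hμ : μ ∈ J
    · exact (hy (if_pos hμ)).elim
    · exact main μ.1 (-(μ.2 + 1)) (if_neg hμ).symm

theorem Gauss_val {L L₀ B : Type u} [Field L] [Field L₀] [Algebra K L] [Algebra κ L₀] [CommRing B]
    (hr' : ∀ c : O, r c = 0 ↔ O.valuation c < 1) (j : O →+* B) (e : B →+* L) (e₀ : B →+* L₀)
    (he : Function.Injective e) (hj : ∀ c, e (j c) = algebraMap K L c)
    (hj₀ : ∀ c, e₀ (j c) = algebraMap κ L₀ (r c))
    (hp : ∀ f : L, f ≠ 0 → ∃ (c : K) (a s : B), e₀ a ≠ 0 ∧ e₀ s ≠ 0 ∧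
      f * e s = algebraMap K L c * e a)
    (hs : ∀ f : L₀, ∃ a s : B, e₀ s ≠ 0 ∧ f * e₀ s = e₀ a) :
    ∃ (w : ValuationSubring L) (ρ : w →+* L₀), Function.Surjective ρ ∧
      (∀ f : w, ρ f = 0 ↔ w.valuation f < 1) ∧ (∀ c : K, algebraMap K L c ∈ w ↔ c ∈ O) ∧
      ∀ (c : O) (hc : algebraMap K L c ∈ w), ρ ⟨_, hc⟩ = algebraMap κ L₀ (r c) := by
  let w : ValuationSubring L :=
    { carrier := {f | ∃ a s : B, e₀ s ≠ 0 ∧ f * e s = e a}
      mul_mem' := by
        rintro f g ⟨a, s, h1, h2⟩ ⟨b, t, h3, h4⟩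
        refine ⟨a * b, s * t, by rw [map_mul]; exact mul_ne_zero h1 h3, ?_⟩
        rw [map_mul, map_mul, ← h2, ← h4]; ring
      one_mem' := ⟨1, 1, by simp, by simp⟩
      add_mem' := by
        rintro f g ⟨a, s, h1, h2⟩ ⟨b, t, h3, h4⟩
        refine ⟨a * t + b * s, s * t, by rw [map_mul]; exact mul_ne_zero h1 h3, ?_⟩
        rw [map_add, map_mul, map_mul, map_mul, ← h2, ← h4]; ring
      zero_mem' := ⟨0, 1, by simp, by simp⟩
      neg_mem' := by
        rintro f ⟨a, s, h1, h2⟩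
        exact ⟨-a, s, h1, by rw [map_neg, ← h2, neg_mul]⟩
      mem_or_inv_mem' := by
        intro f
        by_cases hf : f = 0
        · exact Or.inl ⟨0, 1, by simp, by simp [hf]⟩
        obtain ⟨c, a, s, h1, h2, h3⟩ := hp f hf
        by_cases hc : c ∈ O
        · exact Or.inl ⟨j ⟨c, hc⟩ * a, s, h2, by rw [map_mul, hj, h3]⟩
        · obtain ⟨c', -, hc'⟩ := Gauss_inv hr' hc
          refine Or.inr ⟨j c' * s, a, h1, ?_⟩
          have h4 := congrArg (algebraMap K L) hc'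
          rw [map_mul, map_one] at h4
          rw [map_mul, hj, inv_mul_eq_iff_eq_mul₀ hf, mul_left_comm, h3, ← mul_assoc]
          exact (one_mul _).symm.trans (congrArg (· * e a) h4.symm) }
  have hw : ∀ f : w, ∃ a s : B, e₀ s ≠ 0 ∧ (f : L) * e s = e a := fun f => f.2
  choose a s hs0 has using hw
  have spec : ∀ (f : w) (b t : B), (f : L) * e t = e b → e₀ (a f) / e₀ (s f) * e₀ t = e₀ b := by
    intro f b t h
    have h1 : a f * t = b * s f := he (by rw [map_mul, map_mul, ← has f, ← h]; ring)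
    have h2 := congrArg e₀ h1
    rw [map_mul, map_mul] at h2
    rw [div_mul_eq_mul_div, h2, mul_div_cancel_right₀ _ (hs0 f)]
  have spec' : ∀ (f : w) (b t : B), e₀ t ≠ 0 → (f : L) * e t = e b →
      e₀ (a f) / e₀ (s f) = e₀ b / e₀ t := fun f b t ht h => by
    rw [eq_div_iff ht, spec f b t h]
  let ρ : w →+* L₀ :=
    { toFun := fun f => e₀ (a f) / e₀ (s f)
      map_one' := by rw [spec' 1 1 1 (by simp) (by simp)]; simp
      map_zero' := by rw [spec' 0 0 1 (by simp) (by simp)]; simp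
      map_mul' := fun f g => by
        rw [spec' (f * g) (a f * a g) (s f * s g)
          (by rw [map_mul]; exact mul_ne_zero (hs0 f) (hs0 g))
          (by rw [map_mul, map_mul, ← has f, ← has g]; push_cast; ring), map_mul, map_mul,
          mul_div_mul_comm]
      map_add' := fun f g => by
        rw [spec' (f + g) (a f * s g + s f * a g) (s f * s g)
          (by rw [map_mul]; exact mul_ne_zero (hs0 f) (hs0 g))
          (by rw [map_add, map_mul, map_mul, map_mul, ← has f, ← has g]; push_cast; ring),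
          map_add, map_mul, map_mul, map_mul, div_add_div _ _ (hs0 f) (hs0 g)] }
  have hρ : Function.Surjective ρ := by
    intro f
    obtain ⟨b, t, ht, h⟩ := hs f
    have ht' : e t ≠ 0 := fun h0 => ht (by rw [(map_eq_zero_iff e he).1 h0, map_zero])
    have h1 : e b / e t * e t = e b := div_mul_cancel₀ _ ht'
    refine ⟨⟨e b / e t, b, t, ht, h1⟩, ?_⟩
    exact (spec' ⟨e b / e t, b, t, ht, h1⟩ b t ht h1).trans ((div_eq_iff ht).2 h.symm)
  refine ⟨w, ρ, hρ, fun f => ?_, fun c => ⟨?_, fun hc => ⟨j ⟨c, hc⟩, 1, by simp, by simp [hj]⟩⟩,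
    fun c hc => ?_⟩
  · rw [← w.valuation_lt_one_iff, ← IsLocalRing.eq_maximalIdeal
      (RingHom.ker_isMaximal_of_surjective ρ hρ), RingHom.mem_ker]
  · rintro ⟨b, t, ht, h⟩
    by_contra hc
    obtain ⟨c', h0, hc'⟩ := Gauss_inv hr' hc
    have h4 := congrArg (algebraMap K L) hc'
    rw [map_mul, map_one] at h4
    have h5 : t = j c' * b := he (by
      rw [map_mul, hj, ← h, ← mul_assoc]
      exact (one_mul _).symm.trans (congrArg (· * e t) h4.symm))
    rw [h5, map_mul, hj₀, h0, map_zero, zero_mul] at ht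
    exact ht rfl
  · refine (spec' ⟨_, hc⟩ (j c) 1 (by simp) (by simp [hj])).trans ?_
    rw [map_one, div_one, hj₀]

theorem Gauss_hom {R L : Type u} [CommRing R] [Field L] [Algebra K L] [IsAlgClosed K]
    [Fact (IsFF K L)] (φ : R →+* K) {𝒜 : Subalgebra R (LT ι R)} (d : CD K L ι)
    (hd : d.alg = bc φ 𝒜) : ∃ e : 𝒜 →+* L, ∀ a, d.exT (e a) = mapT φ a.1 := by
  have h1 : ∀ a : 𝒜, ∃ f : L, d.exT f = mapT φ a.1 := fun a => by
    have := Gauss_mem_bc φ a.2
    rw [← hd] at this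
    obtain ⟨f, -, hf⟩ := this
    exact ⟨f, hf⟩
  choose e he using h1
  have hi := d.exT_injective
  exact ⟨{ toFun := e
           map_one' := hi (by rw [he]; simp)
           map_zero' := hi (by rw [he]; simp)
           map_mul' := fun a b => hi (by rw [map_mul, he, he, he]; simp)
           map_add' := fun a b => hi (by rw [map_add, he, he, he]; simp) }, he⟩

theorem Gauss_frac {L : Type u} [Field L] [Algebra K L] [IsAlgClosed K] [Fact (IsFF K L)]
    (d : CD K L ι) (f : L) : ∃ s : L, s ≠ 0 ∧ d.exT s ∈ d.alg ∧ d.exT (f * s) ∈ d.alg := by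
  obtain ⟨s, hs, h⟩ := exists_den d.transcendental f
  rw [d.poles_eq] at h
  refine ⟨Polynomial.aeval d.x s, fun h0 => d.transcendental ⟨s, hs.ne_zero, h0⟩,
    ⟨_, ?_, rfl⟩, ⟨_, by rw [mul_comm]; exact h, rfl⟩⟩
  exact Algebra.adjoin_le (Set.singleton_subset_iff.2 d.x_mem)
    (Polynomial.aeval_mem_adjoin_singleton K d.x)

theorem Gauss_ord {L : Type u} [Field L] [Algebra K L] [IsAlgClosed K] [Fact (IsFF K L)]
    (P : Place K L) {σ g : L} (hσ : σ ≠ 0) {N n : ℤ}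
    (h : ∀ m : ℕ, P.Ge (σ * g ^ m) (-(N + m * n))) : P.Ge g (-n) := by
  by_cases hg : g = 0
  · exact Or.inl hg
  refine Or.inr (not_lt.1 fun hlt => ?_)
  obtain ⟨m, hm⟩ : ∃ m : ℕ, P.ord σ + N < m := ⟨(P.ord σ + N).toNat + 1, by omega⟩
  have h1 := (h m).resolve_left (mul_ne_zero hσ (pow_ne_zero m hg))
  rw [P.ord_mul hσ (pow_ne_zero m hg), P.ord_pow hg] at h1
  have h2 : (m : ℤ) * P.ord g ≤ m * (-n - 1) :=
    mul_le_mul_of_nonneg_left (by omega) (Int.natCast_nonneg m)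
  linarith

theorem Gauss_ne [IsAlgClosed K] {A : Subalgebra K (LT ι K)} (h : IsChart J A) (hs : Sm A)
    {F : LT ι K} (hF : F ∈ A) (h0 : F ≠ 0) (i : ι) : F i ≠ 0 := by
  obtain ⟨L, _, _, _, d, rfl⟩ := exists_cd_of_sm h hs
  obtain ⟨f, -, rfl⟩ := hF
  have hf : f ≠ 0 := fun e => h0 (by rw [e, map_zero])
  exact (map_ne_zero (d.ex i)).2 hf

theorem Gauss_almost [IsAlgClosed K] {A : Subalgebra K (LT ι K)} (h : IsChart J A) (hs : Sm A)
    {σ G : LT ι K} (h0 : σ ≠ 0) (hG : ∀ m : ℕ, σ * G ^ m ∈ A) :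
    G ∈ A ∧ ∀ N n : ℤ, (∀ m : ℕ, Pole (σ * G ^ m) (N + m * n)) → Pole G n := by
  obtain ⟨L, _, _, _, d, rfl⟩ := exists_cd_of_sm h hs
  obtain ⟨s, -, hs⟩ := hG 0
  obtain ⟨u, -, hu⟩ := hG 1
  rw [pow_zero, mul_one] at hs
  rw [pow_one] at hu
  change d.exT s = σ at hs
  change d.exT u = σ * G at hu
  subst hs
  have hs0 : s ≠ 0 := fun e => h0 (by rw [e, map_zero])
  have hg : G = d.exT (s⁻¹ * u) := by
    rw [map_mul, hu, ← mul_assoc, ← map_mul, inv_mul_cancel₀ hs0, map_one, one_mul]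
  generalize s⁻¹ * u = g at hg
  subst hg
  refine ⟨⟨g, fun P hP => P.mem_iff.2 ?_, rfl⟩, fun N n hN i => ?_⟩
  · have := Gauss_ord P hs0 (g := g) (N := 0) (n := 0) fun m => by
      obtain ⟨v, hv, e⟩ := hG m
      have e' : v = s * g ^ m := d.exT_injective (by rw [map_mul, map_pow]; exact e)
      simpa using P.mem_iff.1 (e' ▸ hv P hP)
    simpa using this
  · refine (d.ge_iff i g _).1 (Gauss_ord _ hs0 (N := N) fun m => (d.ge_iff i _ _).2 ?_)
    have := hN m i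
    rwa [← map_pow, ← map_mul] at this

omit [DecidableEq ι] in
theorem Gauss_sm {A : Subalgebra K (LT ι K)} (hu : ∀ F ∈ A, F ≠ 0 → IsUnit F)
    (hi : ∀ σ G : LT ι K, σ ≠ 0 → (∀ m : ℕ, σ * G ^ m ∈ A) → G ∈ A) : Sm A := by
  have : NoZeroDivisors A := ⟨fun {a b} e => by
    by_cases ha : a = 0
    · exact Or.inl ha
    · refine Or.inr (Subtype.ext ?_)
      exact (hu a a.2 fun h => ha (Subtype.ext h)).mul_right_eq_zero.1 (congrArg Subtype.val e)⟩
  have hd : IsDomain A := NoZeroDivisors.to_isDomain A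
  refine ⟨hd, (isIntegrallyClosed_iff (FractionRing A)).2 fun {x} hx => ?_⟩
  have hU : ∀ y : nonZeroDivisors A, IsUnit (A.val.toRingHom y) := fun y =>
    hu _ y.1.2 fun h => nonZeroDivisors.ne_zero y.2 (Subtype.ext h)
  let E : FractionRing A →+* LT ι K := IsLocalization.lift hU
  have hE : ∀ a : A, E (algebraMap A _ a) = a := IsLocalization.lift_eq hU
  obtain ⟨s, hs, H⟩ := hx.isAlmostIntegral
  have := hi s (E x) (fun h => nonZeroDivisors.ne_zero hs (Subtype.ext h)) fun m => by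
    obtain ⟨a, ha⟩ := H m
    rw [← hE, ← map_pow, ← map_mul, ← Algebra.smul_def, ← ha, hE]
    exact a.2
  exact ⟨⟨_, this⟩, E.injective (hE _)⟩

end aux

theorem exists_red {K κ L L₀ : Type u} [Field K] [Field κ] [Field L] [Field L₀] [Algebra K L]
    [Algebra κ L₀] [IsAlgClosed K] [IsAlgClosed κ] [Fact (IsFF K L)] [Fact (IsFF κ L₀)]
    (O : ValuationSubring K) (r : O →+* κ) (hr : Function.Surjective r)
    (hr' : ∀ c : O, r c = 0 ↔ O.valuation c < 1) {𝒜 : Subalgebra O (LT ι O)} (h : IsChart J 𝒜)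
    (d : CD K L ι) (hd : d.alg = bc (algebraMap O K) 𝒜) (d₀ : CD κ L₀ ι) (hd₀ : d₀.alg = bc r 𝒜) :
    ∃ (w : ValuationSubring L) (ρ : w →+* L₀), Function.Surjective ρ ∧
      (∀ f : w, ρ f = 0 ↔ w.valuation f < 1) ∧ (∀ c : K, algebraMap K L c ∈ w ↔ c ∈ O) ∧
      ∀ (c : O) (hc : algebraMap K L c ∈ w), ρ ⟨_, hc⟩ = algebraMap κ L₀ (r c) := by
  obtain ⟨e, he⟩ := Gauss_hom (algebraMap O K) d hd
  obtain ⟨e₀, he₀⟩ := Gauss_hom r d₀ hd₀
  have hi := d.exT_injective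
  have hi₀ := d₀.exT_injective
  have prim : ∀ f : L, f ≠ 0 → d.exT f ∈ d.alg →
      ∃ (c : K) (a : 𝒜), c ≠ 0 ∧ e₀ a ≠ 0 ∧ e a = algebraMap K L c * f := by
    intro f hf hm
    obtain ⟨c, F₀, hc, h1, h2, h3⟩ := Gauss_prim r h (hd ▸ hm) ((map_ne_zero_iff _ hi).2 hf)
    refine ⟨c, ⟨F₀, h1⟩, hc, fun h0 => h3 ?_, hi ?_⟩
    · rw [← he₀ ⟨F₀, h1⟩, h0, map_zero]
    · rw [he, ← Algebra.smul_def, map_smul]
      exact h2
  refine Gauss_val hr' (algebraMap O 𝒜) e e₀ (fun a b hab => Subtype.ext ?_) (fun c => hi ?_)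
    (fun c => hi₀ ?_) (fun f hf => ?_) fun f => ?_
  · refine Gauss_inj (φ := algebraMap O K) Subtype.val_injective ?_
    rw [← he, ← he, hab]
  · rw [he, AlgHom.commutes]
    exact mapT_algebraMap _ c
  · rw [he₀, AlgHom.commutes]
    exact mapT_algebraMap _ c
  · obtain ⟨s, hs, h1, h2⟩ := Gauss_frac d f
    obtain ⟨c, a, hc, ha, ea⟩ := prim _ (mul_ne_zero hf hs) h2
    obtain ⟨c', t, -, ht, et⟩ := prim _ hs h1
    refine ⟨c' / c, a, t, ha, ht, ?_⟩
    have hc' : algebraMap K L c ≠ 0 := (map_ne_zero _).2 hc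
    rw [ea, et, map_div₀]
    field_simp
  · obtain ⟨s, hs, h1, h2⟩ := Gauss_frac d₀ f
    obtain ⟨t, ht, et⟩ := Gauss_lift hr (hd₀ ▸ h1)
    obtain ⟨a, ha, ea⟩ := Gauss_lift hr (hd₀ ▸ h2)
    have e1 : e₀ ⟨t, ht⟩ = s := hi₀ ((he₀ _).trans et)
    have e2 : e₀ ⟨a, ha⟩ = f * s := hi₀ ((he₀ _).trans ea)
    exact ⟨⟨a, ha⟩, ⟨t, ht⟩, e1 ▸ hs, by rw [e1, e2]⟩

theorem sm_gen {κ : Type u} [Field κ] [IsAlgClosed κ] {𝒜 : Subalgebra (HO κ) (LT ι (HO κ))}
    (h : IsChart J 𝒜) (hs : Sm (spe 𝒜)) : Sm (gen' 𝒜) := by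
  have hr' : ∀ c : HO κ, red κ c = 0 ↔ (HO κ).valuation c < 1 := fun c => by
    rw [← ValuationSubring.valuation_lt_one_iff, mem_max_HO]
    exact hres_eq_zero
  have hinc : Function.Injective (inc κ) := Subtype.val_injective
  have hi := Gauss_inj (ι := ι) hinc
  have h₀ : IsChart J (spe 𝒜) := h.bc _
  have h₁ : IsChart J (gen' 𝒜) := h.bc _
  have hne : ∀ F ∈ 𝒜, mapT (red κ) F ≠ 0 →
      IsUnit (mapT (red κ) F) ∧ IsUnit (mapT (inc κ) F) := fun F hF h0 => by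
    have := Gauss_ne h₀ hs (Gauss_mem_bc _ hF) h0
    refine ⟨Gauss_unit this, Gauss_unit fun i e => this i ?_⟩
    have e' : F i = 0 := LS.map_injective hinc (e.trans (map_zero _).symm)
    change LS.map (red κ) (F i) = 0
    rw [e', map_zero]
  have hu : ∀ F ∈ gen' 𝒜, F ≠ 0 → IsUnit F := fun F hF h0 => by
    obtain ⟨c, F₀, -, h1, h2, h3⟩ := Gauss_prim (red κ) h hF h0
    have := (hne F₀ h1 h3).2
    rw [h2, Algebra.smul_def] at this
    exact isUnit_of_mul_isUnit_right this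
  have hsat : ∀ S ∈ 𝒜, mapT (red κ) S ≠ 0 → ∀ F ∈ gen' 𝒜, ∀ U : LT ι (HO κ),
      mapT (inc κ) U = mapT (inc κ) S * F → ∃ F₀ ∈ 𝒜, mapT (inc κ) F₀ = F := by
    intro S hS hS0 F hF U hU
    by_cases h0 : F = 0
    · exact ⟨0, zero_mem _, by rw [map_zero, h0]⟩
    obtain ⟨c, F₀, hc, h1, h2, h3⟩ := Gauss_prim (red κ) h hF h0
    have h4 : c⁻¹ ∈ HO κ := by
      refine Gauss_int hr' (F₀ := S * F₀) (F₁ := U) ?_ ?_
      · rw [map_mul]
        exact fun e => h3 ((hne S hS hS0).1.mul_right_eq_zero.1 e)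
      · rw [map_mul, h2, mul_smul_comm, smul_smul, inv_mul_cancel₀ hc, one_smul]
        exact hU
    refine ⟨(⟨c⁻¹, h4⟩ : HO κ) • F₀, 𝒜.smul_mem h1 _, ?_⟩
    rw [mapT_smul, h2, smul_smul]
    exact (congrArg (· • F) (inv_mul_cancel₀ hc)).trans (one_smul _ _)
  refine Gauss_sm hu fun σ G hσ hG => ?_
  obtain ⟨S, hS, hS0, hG⟩ : ∃ S ∈ 𝒜, mapT (red κ) S ≠ 0 ∧
      ∀ m : ℕ, mapT (inc κ) S * G ^ m ∈ gen' 𝒜 := by
    obtain ⟨c, S, -, h1, h2, h3⟩ := Gauss_prim (red κ) h (by simpa using hG 0) hσ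
    exact ⟨S, h1, h3, fun m => by
      rw [h2, smul_mul_assoc]
      exact Subalgebra.smul_mem _ (hG m) c⟩
  obtain ⟨n, hJ, hn⟩ : ∃ n : ℕ, (∀ ν ∈ J, ν.2 < n) ∧ Pole G n := by
    obtain ⟨n₁, h1⟩ := exists_pole G
    refine ⟨max n₁ (J.sup (fun ν => ν.2) + 1), fun ν hν => ?_, fun i => (h1 i).mono (by omega)⟩
    have := Finset.le_sup (f := fun ν : ι × ℕ => ν.2) hν
    omega
  obtain ⟨N, hN⟩ := exists_pole (mapT (inc κ) S)
  set s := mapT (inc κ) S with hs_def
  have hsu : IsUnit s := (hne S hS hS0).2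
  have := h₁.finite_lev n
  have := h₀.finite_lev n
  let V : Submodule (HF κ) (LT ι (HF κ)) := lev (gen' 𝒜) n ⊔ Submodule.span (HF κ) {G}
  have hV : ∀ v ∈ V, Pole v n ∧ ∀ m : ℕ, s * v ^ m ∈ gen' 𝒜 := by
    intro v hv
    obtain ⟨a, ha, b, hb, rfl⟩ := Submodule.mem_sup.1 hv
    obtain ⟨c, rfl⟩ := Submodule.mem_span_singleton.1 hb
    refine ⟨fun i => (ha.2 i).add ((hn i).smul c), fun m => ?_⟩
    rw [add_pow, Finset.mul_sum]
    refine sum_mem fun j _ => ?_
    have e : s * (a ^ j * (c • G) ^ (m - j) * (m.choose j : LT ι (HF κ))) =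
        (c ^ (m - j) • (s * G ^ (m - j))) * (a ^ j * (m.choose j : LT ι (HF κ))) := by
      rw [smul_pow, ← mul_smul_comm]; ring
    rw [e]
    exact mul_mem (Subalgebra.smul_mem _ (hG _) _)
      (mul_mem (pow_mem ha.1 _) (natCast_mem _ _))
  let Λ : AddSubgroup V :=
    { carrier := {v | ∃ U ∈ 𝒜, mapT (inc κ) U = s * v.1}
      add_mem' := by
        rintro v w ⟨U, hU, e⟩ ⟨W, hW, e'⟩
        exact ⟨U + W, add_mem hU hW, by rw [map_add, e, e', ← mul_add]; rfl⟩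
      zero_mem' := ⟨0, zero_mem _, by simp⟩
      neg_mem' := by
        rintro v ⟨U, hU, e⟩
        exact ⟨-U, neg_mem hU, by rw [map_neg, e, ← mul_neg]; rfl⟩ }
  obtain ⟨b, hb⟩ := lat Λ (by
    rintro c hc v ⟨U, hU, e⟩
    refine ⟨(⟨c, hc⟩ : HO κ) • U, 𝒜.smul_mem hU _, ?_⟩
    rw [mapT_smul, e, Submodule.coe_smul, mul_smul_comm]
    rfl) (by
    intro v hv
    have h1 : s * v.1 ≠ 0 := fun e => hv (Subtype.ext (hsu.mul_right_eq_zero.1 e))
    obtain ⟨c, F₀, hc, h2, h3, h4⟩ := Gauss_prim (red κ) h (by simpa using (hV v v.2).2 1) h1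
    refine ⟨c, hc, ⟨F₀, h2, by rw [Submodule.coe_smul, mul_smul_comm]; exact h3⟩, ?_⟩
    rintro e ⟨U, -, hU⟩
    refine Gauss_int hr' (F₁ := U) h4 ?_
    rw [h3, ← mul_smul_comm, ← mul_smul_comm]
    exact hU)
  have hred : ∀ v ∈ Λ, ∃ U ∈ 𝒜, mapT (inc κ) U = s * v.1 ∧ ∃ G₀ ∈ lev (spe 𝒜) n,
      mapT (red κ) S * G₀ = mapT (red κ) U := by
    rintro v ⟨U, hU, e⟩
    obtain ⟨G₀, hG₀⟩ : ∃ G₀, mapT (red κ) S * G₀ = mapT (red κ) U :=
      ((hne S hS hS0).1.dvd (a := mapT (red κ) U)).imp fun _ h => h.symm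
    have key : ∀ m : ℕ, ∃ W ∈ 𝒜, mapT (inc κ) W = s * v.1 ^ m ∧
        mapT (red κ) W = mapT (red κ) S * G₀ ^ m := by
      intro m
      obtain ⟨W, hW, eW⟩ := hsat (S ^ m) (pow_mem hS m)
        (by rw [map_pow]; exact ((hne S hS hS0).1.pow m).ne_zero) _ ((hV v v.2).2 m) (S * U ^ m)
        (by rw [map_mul, map_pow, map_pow, e, ← hs_def]; ring)
      refine ⟨W, hW, eW, ?_⟩
      have h1 : S ^ m * W = S * U ^ m := hi (by
        rw [map_mul, map_mul, map_pow, map_pow, eW, e, ← hs_def]; ring)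
      have h2 := congrArg (mapT (red κ)) h1
      rw [map_mul, map_mul, map_pow, map_pow, ← hG₀] at h2
      refine ((hne S hS hS0).1.pow m).mul_left_cancel (h2.trans ?_)
      ring
    choose W hW eW eW' using key
    obtain ⟨h1, h2⟩ := Gauss_almost h₀ hs hS0 (G := G₀) fun m => eW' m ▸ Gauss_mem_bc _ (hW m)
    refine ⟨U, hU, e, G₀, ⟨h1, h2 N n fun m => ?_⟩, hG₀⟩
    rw [← eW']
    refine Gauss_pole_map _ (Gauss_pole_of_map hinc ?_)
    rw [eW]
    intro i
    exact ((hN i).mul (((hV v v.2).1 i).pow m)).mono (le_of_eq (by ring))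
  have hbm : ∀ j, b j ∈ Λ := fun j => (hb _).2 fun i => by
    rw [b.repr_self, Finsupp.single_apply]
    split_ifs
    · exact one_mem _
    · exact zero_mem _
  choose U hU eU G₀ hG₀ eG using fun j => hred _ (hbm j)
  have hli : LinearIndependent κ fun j => (⟨G₀ j, hG₀ j⟩ : lev (spe 𝒜) n) := by
    refine Fintype.linearIndependent_iff.2 fun c hc j => ?_
    have hc' : ∑ j, c j • G₀ j = 0 := by simpa using congrArg Subtype.val hc
    let X : LT ι (HO κ) := ∑ j, algebraMap κ (HO κ) (c j) • U j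
    let v : V := ∑ j, algebraMap κ (HF κ) (c j) • b j
    have hX : X ∈ 𝒜 := sum_mem fun j _ => 𝒜.smul_mem (hU j) _
    have hX0 : mapT (red κ) X = 0 := by
      rw [← mul_zero (mapT (red κ) S), ← hc', Finset.mul_sum, map_sum]
      refine Finset.sum_congr rfl fun j _ => ?_
      rw [mapT_smul, mul_smul_comm, eG]
      exact congrArg (· • _) (hres.commutes (c j))
    have hXv : mapT (inc κ) X = s * v.1 := by
      rw [map_sum, Submodule.coe_sum, Finset.mul_sum]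
      refine Finset.sum_congr rfl fun j _ => ?_
      rw [mapT_smul, eU, Submodule.coe_smul, mul_smul_comm]
      rfl
    have hv : b.repr v j = algebraMap κ (HF κ) (c j) := congrFun (b.repr_sum_self _) j
    by_contra hcj
    have hcj' : algebraMap κ (HF κ) (c j) ≠ 0 := (map_ne_zero _).2 hcj
    have hv0 : mapT (inc κ) X ≠ 0 := fun e => by
      have : v = 0 := Subtype.ext (hsu.mul_right_eq_zero.1 (hXv ▸ e))
      rw [this, b.repr.map_zero] at hv
      exact hcj' hv.symm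
    obtain ⟨e, F₀, -, h2, h3, h4⟩ := Gauss_prim (red κ) h (Gauss_mem_bc _ hX) hv0
    have h5 := (hb (e • v)).1 ⟨F₀, h2, by
      rw [Submodule.coe_smul, mul_smul_comm, ← hXv]; exact h3⟩ j
    rw [map_smul, Finsupp.smul_apply, hv, smul_eq_mul] at h5
    have h6 : e ∈ HO κ := by
      have := mul_mem h5 (const_mem (c j)⁻¹)
      rwa [map_inv₀, mul_inv_cancel_right₀ hcj'] at this
    have h7 : F₀ = (⟨e, h6⟩ : HO κ) • X := hi (by rw [mapT_smul]; exact h3)
    rw [h7, mapT_smul, hX0, smul_zero] at h4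
    exact h4 rfl
  have h1 := hli.fintype_card_le_finrank
  rw [Fintype.card_fin] at h1
  have h2 := h₀.finrank_lev hJ
  have h3 := h₁.finrank_lev hJ
  have h4 : lev (gen' 𝒜) n = V := Submodule.eq_of_le_of_finrank_le le_sup_left (by omega)
  have h5 : G ∈ V := Submodule.mem_sup_right (Submodule.mem_span_singleton_self G)
  rw [← h4] at h5
  exact h5.1

variable {k K K' : Type u} [Field k] [Field K] [Field K'] [IsAlgClosed K] [IsAlgClosed K']

theorem sm_bc_iff {A : Subalgebra K (LT ι K)} (h : IsChart J A) (φ : K →+* K') :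
    Sm (bc φ A) ↔ Sm A := by
  constructor
  · intro hs
    have hi := Gauss_inj (ι := ι) φ.injective
    refine Gauss_sm (fun F hF h0 => Gauss_unit fun i e => ?_) fun σ G h0 hG => ?_
    · refine Gauss_ne (h.bc φ) hs (Gauss_mem_bc φ hF) ((map_ne_zero_iff _ hi).2 h0) i ?_
      change LS.map φ (F i) = 0
      rw [e, map_zero]
    · refine h.mem_of_mapT φ.injective (Gauss_almost (h.bc φ) hs
        ((map_ne_zero_iff _ hi).2 h0) fun m => ?_).1
      rw [← map_pow, ← map_mul]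
      exact Gauss_mem_bc φ (hG m)
  · intro hs
    obtain ⟨L, _, _, _, d, rfl⟩ := exists_cd_of_sm h hs
    obtain ⟨L', _, _, _, ψ, hψ⟩ := exists_bc (L := L) φ
    obtain ⟨d', -, -, -, hd', -⟩ := hψ.exists_cd d
    exact hd' ▸ d'.sm

variable [Algebra k K] [Algebra k K']

theorem Sm.of_spc {A : Subalgebra K (LT ι K)} {A' : Subalgebra K' (LT ι K')} (h : IsChart J A)
    (h' : IsChart J A') {i₀ : ι} (hs : Spc k (coef i₀ J A) (coef i₀ J A')) (hA' : Sm A') : Sm A := by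
  obtain ⟨𝒜, h𝒜, e, h1, h2⟩ := exists_model h h' hs
  have h3 : Sm (gen' 𝒜) := sm_gen h𝒜 (e ▸ hA')
  have h4 : IsChart J (gen' 𝒜) := h𝒜.bc _
  obtain ⟨Ω, _, _, _, φ, φ', hφ⟩ := amalgam h1 h2
  have h5 : bc (φ : K →+* Ω) A = bc (φ' : HF K' →+* Ω) (gen' 𝒜) :=
    (h.bc _).eq_of_coef i₀ (h4.bc _) (by rw [h.coef_bc, h4.coef_bc]; exact funext hφ)
  rw [← sm_bc_iff h (φ : K →+* Ω), h5, sm_bc_iff h4]
  exact h3

/-- Conjugate chart points of smooth curves: the curves have a common base change. -/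
theorem le_of_conj {C : FFd K} {C' : FFd K'} {A : Subalgebra K (LT ι K)}
    {A' : Subalgebra K' (LT ι K')} (h : C.sm.Has J A) (h' : C'.sm.Has J A') {i₀ : ι}
    (hs : Spc k (coef i₀ J A) (coef i₀ J A')) (hs' : Spc k (coef i₀ J A') (coef i₀ J A)) :
    ∃ (Ω : Type u) (_ : Field Ω) (_ : Algebra k Ω) (_ : IsAlgClosed Ω) (D : FFd Ω),
      Comb.Le k C.sm D.sm ∧ Comb.Le k C'.sm D.sm := by
  obtain ⟨d, rfl, hd⟩ := FFd.has_sm.1 h
  obtain ⟨d', rfl, hd'⟩ := FFd.has_sm.1 h'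
  obtain ⟨Ω, _, _, _, φ, φ', hφ⟩ := amalgam hs hs'
  obtain ⟨L₁, _, _, _, ψ, hψ⟩ := exists_bc (L := C.L) (φ : K →+* Ω)
  obtain ⟨L₂, _, _, _, ψ', hψ'⟩ := exists_bc (L := C'.L) (φ' : K' →+* Ω)
  obtain ⟨d₁, -, -, -, h1, -⟩ := hψ.exists_cd d
  obtain ⟨d₂, -, -, -, h2, -⟩ := hψ'.exists_cd d'
  have h3 : d₂.alg = d₁.alg := by
    rw [h1, h2]
    exact (hd'.bc _).eq_of_coef i₀ (hd.bc _)
      (by rw [hd.coef_bc, hd'.coef_bc]; exact funext fun a => (hφ a).symm)
  obtain ⟨e, -⟩ := CD.exists_equiv d₂ d₁ h3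
  exact ⟨Ω, _, _, inferInstance, ⟨L₁⟩, FFd.le_sm k φ ψ hψ,
    FFd.le_sm k φ' ((e : L₂ →+* L₁).comp ψ') (hψ'.trans (BC.of_equiv e))⟩

end PR0
end

-- merged part: Pool.Agent.Work.MP_da2620_ag.Fod
section
/-!
# Fields of definition
`fod_of_coef`: `IsChart.descend`, `sm_bc_iff`, `exists_cd_of_sm`, `exists_bc`, `BC.exists_cd`,
`CD.exists_equiv`.  `coef_of_bc`: the poles of `ψ x₀` lie over places of `L₀` where `x₀` has a simple
pole (`BC.over_or`, `BC.ge_iff`), `exists_cd`, `BC.exists_cd`, `ex_unique`, `IsChart.of_bc`.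
`unram_of_generic`: the fibre of `x` over an element transcendental over `K₀` consists of
`[L₀ : K₀(x₀)]` distinct embeddings (`isSeparable`, `BC.exists_generic`), count with `dg_dvInf`
applied to `1 / (x - a)`.
-/

namespace PR0

universe u

variable (k : Type u) [Field k] {K K₀ : Type u} [Field K] [Field K₀] [Algebra k K]

/-- The algebraic closure in `K` of the field generated by `s`. -/
noncomputable def acl (s : Set K) : IntermediateField k K :=
  (algebraicClosure (IntermediateField.adjoin k s) K).restrictScalars k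

instance acl_isAlgClosed [IsAlgClosed K] (s : Set K) : IsAlgClosed (acl k s) := 
  (algebraicClosure.isAlgClosure (IntermediateField.adjoin k s) K).isAlgClosed

variable {k}

theorem mem_acl {s : Set K} {y : K} : y ∈ acl k s ↔ IsAlgebraic (Algebra.adjoin k s) y := 
  mem_algebraicClosure_iff.trans IntermediateField.isAlgebraic_adjoin_iff
theorem subset_acl (s : Set K) : s ⊆ acl k s := fun y hy =>
  mem_acl.2 (isAlgebraic_algebraMap (⟨y, Algebra.subset_adjoin hy⟩ : Algebra.adjoin k s))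
theorem acl_mono {s t : Set K} (h : s ⊆ t) : acl k s ≤ acl k t := fun _ hy =>
  mem_acl.2 (alg_trans (fun _ hz => mem_acl.1 (subset_acl t (h hz))) (mem_acl.1 hy))
theorem acl_le {s t : Set K} (h : s ⊆ acl k t) : acl k s ≤ acl k t := fun _ hy =>
  mem_acl.2 (alg_trans (fun _ hz => mem_acl.1 (h hz)) (mem_acl.1 hy))
theorem rk_acl (s : Set K) : rk k (acl k s : Set K) = rk k s := 
  le_antisymm (rk_le_of_alg fun _ hy => mem_acl.1 hy) (rk_mono (subset_acl s))
theorem rk_le_of_acl {s t : Set K} (h : t ⊆ acl k s) : rk k t ≤ rk k s := 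
  rk_le_of_alg fun _ hy => mem_acl.1 (h hy)
theorem trdeg_acl_le {s : Set K} (h : rk k s ≠ ⊤) : Algebra.trdeg k (acl k s) ≤ Cardinal.aleph0 :=
  by
  have h1 := rk_image (acl k s).val Set.univ
  rw [Set.image_univ, show Set.range (acl k s).val = (acl k s : Set K) from Subtype.range_coe,
    rk_acl] at h1
  have h2 : rk k (Set.univ : Set (acl k s)) = (Algebra.trdeg k (acl k s)).toENat := by
    rw [rk, ← AlgebraicIndependent.matroid_cRank_eq, Matroid.toENat_cRank_eq]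
    exact Matroid.eRk_ground _
  rw [h1, h2] at h
  exact (Cardinal.toENat_ne_top.1 h).le
theorem dm_val {I : Type} (F : IntermediateField k K) (c : I → F) :
    dm k (fun i => (c i : K)) = dm k c := by
  rw [dm, dm, ← rk_image F.val, ← Set.range_comp]
  rfl
/-- enlarging the base field -/
theorem Spc.restrict {k' K' : Type u} [Field k'] [Algebra k k'] [Algebra k' K] [IsScalarTower k k' K]
    [Field K'] [Algebra k K'] [Algebra k' K'] [IsScalarTower k k' K'] {I : Type} {c : I → K}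
    {c' : I → K'} (h : Spc k' c c') : Spc k c c' := fun f hf => by
  rw [← MvPolynomial.aeval_map_algebraMap k'] at hf ⊢
  exact h _ hf
theorem rk_restrict {k' : Type u} [Field k'] [Algebra k k'] [Algebra k' K] [IsScalarTower k k' K]
    (s : Set K) : rk k' s ≤ rk k s := by
  refine ENat.forall_natCast_le_iff_le.1 fun n hn => ?_
  obtain ⟨y, hy, hi⟩ := exists_indep_of_le_rk hn
  exact le_rk_of_indep (hi.restrictScalars (algebraMap k k').injective)
    fun i => mem_acl.1 (subset_acl s (hy i))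

variable {ι : Type} [Fintype ι] [DecidableEq ι] [Nonempty ι] {J : Finset (ι × ℕ)}

theorem IsChart.of_bc {J₀ : Finset (ι × ℕ)} {A : Subalgebra K₀ (LT ι K₀)} (h₀ : IsChart J₀ A)
    (φ : K₀ →+* K) (h : IsChart J (PR0.bc φ A)) : IsChart J A := by
  refine ⟨h₀.x_mem, fun F hF h0 => h₀.inj F hF fun μ _ => φ.injective ?_, fun μ hμ => ?_⟩
  · obtain ⟨c, hc⟩ := h.inj (mapT φ F) (Algebra.subset_adjoin ⟨F, hF, rfl⟩)
      fun ν hν => by rw [pc_mapT, h0 ν hν, map_zero]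
    rw [← pc_mapT, hc, map_zero, pc, Pi.algebraMap_apply, LS.cf_algebraMap, if_neg (by omega)]
  · let : Algebra K₀ K := φ.toAlgebra
    obtain ⟨l, hl⟩ := (Algebra.linearMap K₀ K).exists_leftInverse_of_injective
      (LinearMap.ker_eq_bot.2 φ.injective)
    have hl' : ∀ c, l (φ c) = c := fun c => LinearMap.congr_fun hl c
    have key : ∀ F ∈ Submodule.span K (mapT φ '' A), ∀ a : K,
        ∃ G ∈ A, ∀ ν, pc G ν = l (a * pc F ν) := by
      intro F hF
      induction hF using Submodule.span_induction with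
      | mem F hF =>
        obtain ⟨G, hG, rfl⟩ := hF
        refine fun a => ⟨l a • G, A.smul_mem hG _, fun ν => ?_⟩
        rw [pc_mapT, mul_comm a, show φ (pc G ν) * a = pc G ν • a from rfl, map_smul]
        simp [pc, mul_comm]
      | zero => exact fun a => ⟨0, zero_mem _, fun ν => by simp [pc]⟩
      | add F F' _ _ h1 h2 =>
        intro a
        obtain ⟨G, hG, e⟩ := h1 a
        obtain ⟨G', hG', e'⟩ := h2 a
        refine ⟨G + G', add_mem hG hG', fun ν => ?_⟩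
        have := e ν
        have := e' ν
        simp_all [pc, mul_add]
      | smul b F _ h1 =>
        intro a
        obtain ⟨G, hG, e⟩ := h1 (a * b)
        exact ⟨G, hG, fun ν => by rw [e ν]; simp [pc, mul_assoc]⟩
    obtain ⟨F, hF, hF'⟩ := h.surj μ hμ
    obtain ⟨G, hG, e⟩ := key F (mem_bc.1 hF) 1
    refine ⟨G, hG, fun ν hν => ?_⟩
    rw [e, hF' ν hν, one_mul]
    split_ifs
    · rw [← φ.map_one, hl']
    · exact map_zero l

variable [IsAlgClosed K] [IsAlgClosed K₀] {L : Type u} [Field L] [Algebra K L] [Fact (IsFF K L)]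

theorem fod_cd {L₀ : Type u} [Field L₀] [Algebra K₀ L₀] [Fact (IsFF K₀ L₀)] {φ : K₀ →+* K}
    {ψ : L₀ →+* L} (hψ : BC φ ψ) (d₀ : CD K₀ L₀ ι) (d : CD K L ι) (hx : ψ d₀.x = d.x)
    (ho : ∀ i, Over ψ (d₀.pl i) (d.pl i)) :
    (∀ f, d.exT (ψ f) = mapT φ (d₀.exT f)) ∧ d.alg = bc φ d₀.alg ∧
      ∀ f, f ∈ d.reg ↔ f ∈ Submodule.span K (ψ '' d₀.reg) := by
  obtain ⟨d', h1, h2, h3⟩ := hψ.exists_cd d₀
  have e1 : d'.x = d.x := h1.trans hx
  have e2 : d'.pl = d.pl := funext fun i => (hψ.exists_over (d₀.pl i)).unique (h2 i) (ho i)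
  have e3 := d'.ex_unique e1 e2
  have e : d' = d := by
    cases d
    cases d'
    simp only at e1 e2 e3
    subst e1 e2 e3
    rfl
  exact e ▸ h3

theorem fod_of_coef [Algebra k K₀] (d : CD K L ι) (h : IsChart J d.alg) (i₀ : ι) (φ : K₀ →ₐ[k] K)
    (hφ : ∀ a, coef i₀ J d.alg a ∈ Set.range φ) :
    ∃ (C₀ : FFd K₀) (d₀ : CD K₀ C₀.L ι) (ψ : C₀.L →+* L), BC (φ : K₀ →+* K) ψ ∧ ψ d₀.x = d.x ∧
      (∀ i, Over ψ (d₀.pl i) (d.pl i)) ∧ IsChart J d₀.alg ∧ bc (φ : K₀ →+* K) d₀.alg = d.alg ∧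
      (∀ f, d.exT (ψ f) = mapT (φ : K₀ →+* K) (d₀.exT f)) ∧
      ∀ f, f ∈ d.reg ↔ f ∈ Submodule.span K (ψ '' d₀.reg) := by
  choose c hc using hφ
  obtain ⟨A₀, hA₀, -, hb⟩ := h.descend φ (φ : K₀ →+* K).injective hc
  obtain ⟨L₀, _, _, _, d₀, rfl⟩ := exists_cd_of_sm hA₀ ((sm_bc_iff hA₀ _).1 (hb ▸ d.sm))
  obtain ⟨L', _, _, _, ψ', hψ'⟩ := exists_bc (L := L₀) (φ : K₀ →+* K)
  obtain ⟨d', h1, h2, -, h4, -⟩ := hψ'.exists_cd d₀
  obtain ⟨e, he⟩ := d'.exists_equiv d (h4.trans hb)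
  have hψ : BC (φ : K₀ →+* K) ((e : L' →+* L).comp ψ') := hψ'.trans (BC.of_equiv e)
  have hx : ((e : L' →+* L).comp ψ') d₀.x = d.x := by
    apply d.exT_injective
    rw [d.exT_x, ← d'.exT_x, h1]
    exact he _
  have ho : ∀ i, Over ((e : L' →+* L).comp ψ') (d₀.pl i) (d.pl i) := by
    intro i f
    rw [← h2 i f, d.mem_pl, d'.mem_pl, ← d.exT_apply, ← d'.exT_apply, ← he]
    rfl
  obtain ⟨k1, -, k3⟩ := fod_cd hψ d₀ d hx ho
  exact ⟨⟨L₀⟩, d₀, _, hψ, hx, ho, hA₀, hb, k1, k3⟩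

variable {L₀ : Type u} [Field L₀] [Algebra K₀ L₀] [Fact (IsFF K₀ L₀)] {φ : K₀ →+* K} {ψ : L₀ →+* L}

theorem coef_of_bc (hψ : BC φ ψ) (d : CD K L ι) (h : IsChart J d.alg) (i₀ : ι)
    (hx : d.x ∈ Set.range ψ) (a : Idx ι) : coef i₀ J d.alg a ∈ Set.range φ := by
  obtain ⟨x₀, hx⟩ := hx
  have hx0 : d.x ≠ 0 := fun h0 => d.transcendental (h0 ▸ isAlgebraic_zero)
  have hng : ∀ i, ¬ (d.pl i).Ge d.x 0 := fun i hg => by
    have := hg.resolve_left hx0
    rw [d.ord_x] at this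
    omega
  have hov : ∀ i, ∃ P : Place K₀ L₀, Over ψ P (d.pl i) := fun i =>
    (hψ.over_or (d.pl i)).resolve_right fun hh => hng i ((d.pl i).mem_iff.1 (hx ▸ hh x₀))
  choose pl hpl using hov
  obtain ⟨d₀, h1, h2⟩ := exists_cd (x := x₀) (pl := pl)
    (fun i j hij => d.inj ((hψ.exists_over (pl i)).unique (hpl i) (hij ▸ hpl j)))
    (fun i => by
      have e0 : x₀ ≠ 0 := fun h0 => hx0 (by rw [← hx, h0, map_zero])
      have e1 := (hψ.ge_iff (hpl i) x₀ (-1)).1 (Or.inr (by rw [hx, d.ord_x]))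
      have e2 := mt (hψ.ge_iff (hpl i) x₀ 0).2 (hx ▸ hng i)
      have e3 := e1.resolve_left e0
      have e4 : ¬ 0 ≤ (pl i).ord x₀ := fun hh => e2 (Or.inr hh)
      exact ⟨e0, by omega⟩)
    (fun P hP => by
      obtain ⟨P', hP', -⟩ := hψ.exists_over P
      obtain ⟨i, rfl⟩ := d.pole P' (hx ▸ mt (hP' x₀).1 hP)
      exact ⟨i, hψ.over_inj hP' (hpl i)⟩)
  obtain ⟨-, e, -⟩ := fod_cd hψ d₀ d (h1 ▸ hx) (h2 ▸ hpl)
  obtain ⟨J₀, hJ₀⟩ := d₀.exists_chart
  rw [e] at h ⊢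
  rw [(hJ₀.of_bc φ h).coef_bc]
  exact ⟨_, rfl⟩

omit [Nonempty ι] in
theorem BC.over_of_val (hψ : BC φ ψ) {x₀ : L₀} (hx : Transcendental K₀ x₀) {P : Place K L}
    (hP : ψ x₀ ∉ P.1 ∨ P.val (ψ x₀) ∈ Set.range φ) : ∃ P₀ : Place K₀ L₀, Over ψ P₀ P := by
  refine (hψ.over_or P).resolve_right fun hh => ?_
  obtain ⟨a, ha⟩ := hP.resolve_left (not_not.2 (hh x₀))
  have h0 : x₀ - algebraMap K₀ L₀ a ≠ 0 := fun h0 =>
    hx (sub_eq_zero.1 h0 ▸ isAlgebraic_algebraMap a)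
  have h1 := Place.ge_sub_val (hh x₀)
  rw [← ha, ← hψ.comm, ← map_sub] at h1
  have h2 := h1.mul (P.mem_iff.1 (hh (x₀ - algebraMap K₀ L₀ a)⁻¹))
  rw [← map_mul, mul_inv_cancel₀ h0, map_one, add_zero, ← P.valuation_lt_one_iff, map_one] at h2
  exact lt_irrefl _ h2

omit [IsAlgClosed K₀] [Fact (IsFF K₀ L₀)] in
theorem fod_theta (hψ : BC φ ψ) {P : Place K L} (hP : ∀ f, ψ f ∈ P.1) :
    ∃ θ : L₀ →+* K, (∀ f, θ f = P.val (ψ f)) ∧ ∀ c, θ (algebraMap K₀ L₀ c) = φ c :=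
  ⟨{ toFun := fun f => P.val (ψ f)
     map_one' := by rw [map_one, ← map_one (algebraMap K L), Place.val_const]
     map_mul' := fun f g => by rw [map_mul, Place.val_mul (hP f) (hP g)]
     map_zero' := by rw [map_zero, ← map_zero (algebraMap K L), Place.val_const]
     map_add' := fun f g => by rw [map_add, Place.val_add (hP f) (hP g)] },
    fun _ => rfl, fun c => (congrArg P.val (hψ.comm c)).trans (Place.val_const _)⟩

theorem unram_of_generic (hψ : BC φ ψ) (d₀ : CD K₀ L₀ ι) {P : Place K L} (hP : ∀ f, ψ f ∈ P.1) :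
    ¬ P.Ge (ψ d₀.x - algebraMap K L (P.val (ψ d₀.x))) 2 := by
  classical
  intro hG
  obtain ⟨θ, hθ, hθc⟩ := fod_theta hψ hP
  obtain ⟨d, hd, -⟩ := hψ.exists_cd d₀
  let F := IntermediateField.adjoin K₀ {d₀.x}
  let : Algebra F K := (θ.comp (algebraMap F L₀)).toAlgebra
  have : FiniteDimensional F L₀ := finiteDimensional_of_transcendental d₀.transcendental
  have : Algebra.IsSeparable F L₀ := d₀.isSeparable
  have hσ : ∀ σ : L₀ →ₐ[F] K, ∀ c, (σ : L₀ →+* K) (algebraMap K₀ L₀ c) = φ c := fun σ c =>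
    (σ.commutes (algebraMap K₀ F c)).trans (hθc c)
  choose Q hQ hQu using fun σ : L₀ →ₐ[F] K => (hψ.exists_generic (σ : L₀ →+* K) (hσ σ))
  have hinj : Function.Injective Q := fun σ τ e => AlgHom.ext fun f => by
    have h1 := (hQ σ f).2
    rw [e, (hQ τ f).2] at h1
    exact h1.symm
  have hcard : (Finset.univ.image Q).card = Fintype.card ι := by
    rw [Finset.card_image_of_injective _ hinj, Finset.card_univ, AlgHom.card, d₀.finrank_eq]
  have hx0 : ψ d₀.x ≠ 0 := fun h0 => d.transcendental (by rw [hd, h0]; exact isAlgebraic_zero)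
  have hdeg : dg (dvInf K (ψ d₀.x) - ∑ R ∈ Finset.univ.image Q, Finsupp.single R 1 -
      Finsupp.single P 1) < 0 := by
    rw [dg_sub, dg_sub, dg_sum, dg_single, ← hd, dg_dvInf d.transcendental, d.finrank_eq]
    simp only [dg_single, Finset.sum_const, hcard, nsmul_eq_mul]
    omega
  have hmem : ψ d₀.x - algebraMap K L (P.val (ψ d₀.x)) ∈ Lsp (dvInf K (ψ d₀.x) -
      ∑ R ∈ Finset.univ.image Q, Finsupp.single R 1 - Finsupp.single P 1) := by
    intro R
    have h1 : (∑ R' ∈ Finset.univ.image Q, Finsupp.single R' (1 : ℤ)) R =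
        if R ∈ Finset.univ.image Q then 1 else 0 := by
      rw [Finsupp.finsetSum_apply]
      simp only [Finsupp.single_apply, Finset.sum_ite_eq']
    have h2 := le_max_right (-R.ord (ψ d₀.x)) 0
    have h3 := le_max_left (-R.ord (ψ d₀.x)) 0
    rw [Finsupp.sub_apply, Finsupp.sub_apply, h1, dvInf_apply hx0, Finsupp.single_apply]
    by_cases e : P = R
    · subst e
      refine hG.mono ?_
      split_ifs <;> omega
    · rw [if_neg e]
      split_ifs with hR
      · obtain ⟨σ, -, rfl⟩ := Finset.mem_image.1 hR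
        have h4 := Place.ge_sub_val (hQ σ d₀.x).1
        have h5 : (σ : L₀ →+* K) d₀.x = θ d₀.x :=
          σ.commutes ⟨d₀.x, IntermediateField.mem_adjoin_simple_self K₀ d₀.x⟩
        rw [(hQ σ d₀.x).2, h5, hθ] at h4
        exact h4.mono (by omega)
      · exact Place.Ge.sub (Or.inr (by omega)) ((R.mem_iff.1 (R.2.2 _)).mono (by omega))
  rw [Lsp_eq_bot hdeg, Submodule.mem_bot, sub_eq_zero] at hmem
  exact d.transcendental (by rw [hd, hmem]; exact isAlgebraic_algebraMap _)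

/-- the values at a place trivial on `L₀` of two nonconstant functions are interalgebraic -/
theorem val_alg (hψ : BC φ ψ) {P : Place K L} (hP : ∀ f, ψ f ∈ P.1) {u : L₀}
    (hu : Transcendental K₀ u) (f : L₀) :
    IsAlgebraic (Subring.closure (insert (P.val (ψ u)) (Set.range φ))) (P.val (ψ f)) := by
  obtain ⟨θ, hθ, hθc⟩ := fod_theta hψ hP
  have := finiteDimensional_of_transcendental hu
  have h1 : IsAlgebraic (Algebra.adjoin K₀ {u}) f :=
    IntermediateField.isAlgebraic_adjoin_iff.1 (Algebra.IsAlgebraic.isAlgebraic f)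
  have h2 : ∀ z ∈ Algebra.adjoin K₀ {u},
      θ z ∈ Subring.closure (insert (P.val (ψ u)) (Set.range φ)) := by
    intro z hz
    induction hz using Algebra.adjoin_induction with
    | mem z hz => exact Subring.subset_closure (Or.inl (by rw [hz, hθ]))
    | algebraMap c => exact Subring.subset_closure (Or.inr ⟨c, (hθc c).symm⟩)
    | add _ _ _ _ a b => rw [map_add]; exact add_mem a b
    | mul _ _ _ _ a b => rw [map_mul]; exact mul_mem a b
  rw [← hθ f]
  exact h1.ringHom_of_comp_eq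
    ((θ.comp (algebraMap (Algebra.adjoin K₀ {u}) L₀)).codRestrict _ fun z => h2 z z.2) θ
    (fun a b e => Subtype.ext (θ.injective (congrArg Subtype.val e))) rfl

end PR0
end

-- merged part: Pool.Agent.Work.MP_da2620_ag.NrmA
section
/-!
# The components of the normalisation of a chart point
-/

namespace PR0

open Polynomial

universe u

variable {K : Type u} [Field K] [IsAlgClosed K] {ι : Type} [Fintype ι] [DecidableEq ι]
  {J : Finset (ι × ℕ)} {A : Subalgebra K (LT ι K)}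

theorem NrmA_T_tr : Transcendental K (LS.T K (-1)) := by
  rw [FFA_tr]
  rintro ⟨c, hc⟩
  have := congrArg (fun f : LS K => f.cf (-1)) hc
  simp [LS.cf_algebraMap, LS.cf_T] at this

omit [IsAlgClosed K] in
theorem NrmA_ge_aeval (s : K[X]) : (aeval (LS.T K (-1)) s).Ge (-(s.natDegree : ℤ)) := by
  intro m hm
  rw [aeval_eq_sum_range, LS.cf_sum]
  refine Finset.sum_eq_zero fun i hi => ?_
  have := Finset.mem_range.mp hi
  rw [LS.cf_smul, LS.T_pow, LS.cf_T, if_neg (by omega), mul_zero]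

omit [IsAlgClosed K] [Fintype ι] [DecidableEq ι] in
theorem NrmA_aeval_xx (s : K[X]) (i : ι) : aeval (xx ι K) s i = aeval (LS.T K (-1)) s :=
  (aeval_algHom_apply (Pi.evalAlgHom K (fun _ : ι => LS K) i) (xx ι K) s).symm

section Field

variable {L : Type u} [Field L] [Algebra K L]

theorem NrmA_tr (ex : L →ₐ[K] LS K) {x : L} (hx : ex x = LS.T K (-1)) : Transcendental K x :=
  fun h => NrmA_T_tr (hx ▸ h.algHom ex)

theorem NrmA_den [Fact (IsFF K L)] {x : L} (hx : Transcendental K x) (O : Subalgebra K L)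
    (hxO : x ∈ O) {a : L} (ha : a ∈ O) (h0 : a ≠ 0) :
    ∃ s : K[X], s ≠ 0 ∧ aeval x s * a⁻¹ ∈ O := by
  obtain ⟨s, hs, hb⟩ := exists_den hx a
  have hle : Algebra.adjoin K {x} ≤ O := Algebra.adjoin_le (Set.singleton_subset_iff.mpr hxO)
  have hsO : aeval x s ∈ O := hle (aeval_mem_adjoin_singleton K x)
  have hs0 : aeval x s ≠ 0 := fun h => hx ⟨s, hs.ne_zero, h⟩
  obtain ⟨t, ht, r, hr, e⟩ := ((mem_regOut_poles hx).mp hb).isAlgebraic.exists_nonzero_eq_adjoin_mul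
    (mem_nonZeroDivisors_of_ne_zero (mul_ne_zero hs0 h0))
  have htO : t ∈ O := by
    refine Algebra.adjoin_induction (p := fun y _ => y ∈ O) ?_ (fun c => hle c.2)
      (fun _ _ _ _ => add_mem) (fun _ _ _ _ => mul_mem) ht
    rintro _ rfl
    exact mul_mem hsO ha
  obtain ⟨q, hq⟩ := (Algebra.adjoin_singleton_eq_range_aeval K x).le r.2
  have hq' : aeval x q = aeval x s * a * t := hq.trans e.symm
  refine ⟨q, ?_, ?_⟩
  · rintro rfl
    exact hr (Subtype.ext (hq.symm.trans (map_zero _)))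
  · rw [hq', mul_right_comm, mul_inv_cancel_right₀ h0]
    exact mul_mem hsO htO

omit [IsAlgClosed K] in
theorem NrmA_int (h : IsChart J A) (ρ : A →ₐ[K] L) {i : ι} (ex : L →ₐ[K] LS K)
    (he : ∀ a, ex (ρ a) = a.1 i) (a : A) :
    IsIntegral (Algebra.adjoin K {ρ ⟨_, h.x_mem⟩}) (ρ a) := by
  obtain ⟨P, hP, e⟩ := h.exists_charpoly a.2
  set x := ρ ⟨_, h.x_mem⟩ with hx
  let φ : K[X] →ₐ[K] Algebra.adjoin K {x} := aeval ⟨x, Algebra.self_mem_adjoin_singleton K x⟩
  refine ⟨P.map φ.toRingHom, hP.map _, ex.injective ?_⟩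
  have h1 : ((ex : L →+* LS K).comp (algebraMap (Algebra.adjoin K {x}) L)).comp φ.toRingHom =
      (aeval (LS.T K (-1)) : K[X] →ₐ[K] LS K).toRingHom := by
    refine Polynomial.ringHom_ext (fun c => ?_) ?_
    · simp [φ]
    · have : ex x = LS.T K (-1) := he ⟨_, h.x_mem⟩
      simpa [φ] using this
  have h2 := congrArg (eval (a.1 i)) e
  rw [eval_map, eval_prod, Finset.prod_eq_zero (Finset.mem_univ i) (by simp)] at h2
  rw [map_zero]
  refine (hom_eval₂ _ _ (ex : L →+* LS K) _).trans ?_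
  rw [eval₂_map, h1, ← h2]
  exact congrArg (fun y => eval₂ _ y P) (he a)

theorem NrmA_ff (h : IsChart J A) (ρ : A →ₐ[K] L) {i : ι} (ex : L →ₐ[K] LS K)
    (he : ∀ a, ex (ρ a) = a.1 i) (hf : ∀ f : L, ∃ a b : A, ρ b ≠ 0 ∧ f = ρ a / ρ b) :
    IsFF K L := by
  set x := ρ ⟨_, h.x_mem⟩ with hx
  refine ⟨x, NrmA_tr ex (he _), ?_⟩
  obtain ⟨n, hn⟩ := Chart_bound J
  let S : Set L := ρ '' {a | a.1 ∈ insert 1 (chi i J A '' {μ | μ.2 ≤ n})}
  have hS : S.Finite := by
    refine (Set.Finite.preimage Subtype.val_injective.injOn (Set.Finite.insert _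
      (Set.Finite.image _ ?_))).image _
    exact (Set.finite_univ.prod (Set.finite_Iic n)).subset fun μ hμ => ⟨trivial, hμ⟩
  have := hS.to_subtype
  have hle : Algebra.adjoin K {x} ≤ (IntermediateField.adjoin K {x}).toSubalgebra :=
    IntermediateField.algebra_adjoin_le_adjoin K _
  let E := IntermediateField.adjoin (IntermediateField.adjoin K {x}) S
  have hE : FiniteDimensional (IntermediateField.adjoin K {x}) E := by
    refine IntermediateField.finiteDimensional_adjoin ?_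
    rintro _ ⟨a, -, rfl⟩
    exact (NrmA_int h ρ ex he a).map_of_comp_eq (Subalgebra.inclusion hle).toRingHom
      (RingHom.id L) rfl
  have h1 : ∀ F ∈ Submodule.span (Algebra.adjoin K {xx ι K})
      (insert 1 (chi i J A '' {μ | μ.2 ≤ n})), ∃ f ∈ E, ex f = F i := by
    intro F hF
    induction hF using Submodule.span_induction with
    | mem F hF =>
      have hA : F ∈ A := (h.span_x i hn).mpr (Submodule.subset_span hF)
      exact ⟨ρ ⟨F, hA⟩, IntermediateField.subset_adjoin _ _ ⟨_, hF, rfl⟩, he _⟩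
    | zero => exact ⟨0, zero_mem _, map_zero _⟩
    | add F G _ _ hF hG =>
      obtain ⟨f, hf, e⟩ := hF
      obtain ⟨g, hg, e'⟩ := hG
      exact ⟨f + g, add_mem hf hg, by rw [map_add, e, e', Pi.add_apply]⟩
    | smul r F _ hF =>
      obtain ⟨f, hf, e⟩ := hF
      obtain ⟨q, hq⟩ := (Algebra.adjoin_singleton_eq_range_aeval K _).le r.2
      have hq' : aeval (xx ι K) q = r.1 := hq
      refine ⟨aeval x q * f, mul_mem (E.algebraMap_mem
        ⟨_, hle (aeval_mem_adjoin_singleton K x)⟩) hf, ?_⟩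
      change _ = (r.1 * F) i
      rw [map_mul, e, ← aeval_algHom_apply, he, ← hq', Pi.mul_apply, NrmA_aeval_xx]
      rfl
  have h2 : ∀ a, ρ a ∈ E := fun a => by
    obtain ⟨f, hf, e⟩ := h1 a.1 ((h.span_x i hn).mp a.2)
    rw [← he] at e
    exact ex.injective e ▸ hf
  have h3 : E = ⊤ := by
    refine eq_top_iff.mpr fun f _ => ?_
    obtain ⟨a, b, -, rfl⟩ := hf f
    exact div_mem (h2 a) (h2 b)
  rw [h3] at hE
  exact IntermediateField.topEquiv.toLinearEquiv.finiteDimensional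

end Field

omit [IsAlgClosed K] in
theorem NrmA_frac {R Ω : Type u} [CommRing R] [Algebra K R] [Field Ω] [Algebra K Ω]
    (π₀ : R →ₐ[K] Ω) : ∃ (L : Type u) (_ : Field L) (_ : Algebra K L) (ρ : R →ₐ[K] L),
    (∀ f : L, ∃ a b : R, ρ b ≠ 0 ∧ f = ρ a / ρ b) ∧
    ∀ π : R →ₐ[K] Ω, (∀ a, π₀ a = 0 ↔ π a = 0) → ∃ ex : L →ₐ[K] Ω, ∀ a, ex (ρ a) = π a := by
  let 𝔭 : Ideal R := RingHom.ker π₀
  have : 𝔭.IsPrime := RingHom.ker_isPrime _
  refine ⟨FractionRing (R ⧸ 𝔭), inferInstance, inferInstance,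
    (IsScalarTower.toAlgHom K (R ⧸ 𝔭) (FractionRing (R ⧸ 𝔭))).comp (Ideal.Quotient.mkₐ K 𝔭),
    fun f => ?_, fun π hi => ?_⟩
  · obtain ⟨a, b, hb, rfl⟩ := IsFractionRing.div_surjective (R ⧸ 𝔭) f
    have hb' := IsFractionRing.to_map_ne_zero_of_mem_nonZeroDivisors (K := FractionRing (R ⧸ 𝔭)) hb
    obtain ⟨a, rfl⟩ := Ideal.Quotient.mk_surjective a
    obtain ⟨b, rfl⟩ := Ideal.Quotient.mk_surjective b
    exact ⟨a, b, hb', rfl⟩
  · let g : (R ⧸ 𝔭) →ₐ[K] Ω := Ideal.Quotient.liftₐ 𝔭 π fun a ha => (hi a).mp ha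
    have hg : Function.Injective g := by
      refine (injective_iff_map_eq_zero g).mpr fun a ha => ?_
      obtain ⟨a, rfl⟩ := Ideal.Quotient.mk_surjective a
      exact Ideal.Quotient.eq_zero_iff_mem.mpr ((hi a).mpr ha)
    refine ⟨IsFractionRing.liftAlgHom hg, fun a => ?_⟩
    rw [IsFractionRing.liftAlgHom_apply]
    exact IsFractionRing.lift_algebraMap hg (Ideal.Quotient.mk 𝔭 a)

theorem NrmA_field (h : IsChart J A) (i₀ : ι) : ∃ (C : FFd K) (ρ : A →ₐ[K] C.L),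
    (∀ f : C.L, ∃ a b : A, ρ b ≠ 0 ∧ f = ρ a / ρ b) ∧
    ∀ i, (∀ a : A, a.1 i₀ = 0 ↔ a.1 i = 0) → ∃ ex : C.L →ₐ[K] LS K, ∀ a, ex (ρ a) = a.1 i := by
  let π : ι → A →ₐ[K] LS K := fun i => (Pi.evalAlgHom K (fun _ : ι => LS K) i).comp A.val
  obtain ⟨L, _, _, ρ, h1, h2⟩ := NrmA_frac (π i₀)
  obtain ⟨ex, he⟩ := h2 (π i₀) fun _ => Iff.rfl
  have : Fact (IsFF K L) := ⟨NrmA_ff h ρ ex he h1⟩
  exact ⟨⟨L⟩, ρ, h1, fun i hi => h2 (π i) hi⟩

section Comp

variable {L : Type u} [Field L] [Algebra K L] [Fact (IsFF K L)]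

omit [Fintype ι] in
theorem NrmA_cond (h : IsChart J A) (ρ : A →ₐ[K] L) (hx : Transcendental K (ρ ⟨_, h.x_mem⟩))
    (hf : ∀ f : L, ∃ a b : A, ρ b ≠ 0 ∧ f = ρ a / ρ b) {a₀ : A} (h0 : ρ a₀ ≠ 0) :
    ∃ s : K[X], s ≠ 0 ∧ ∀ f ∈ regOut (poles K (ρ ⟨_, h.x_mem⟩)), ∃ c : A,
      ρ (a₀ * c) = aeval (ρ ⟨_, h.x_mem⟩) s * f := by
  set x := ρ ⟨_, h.x_mem⟩ with hxd
  have hxO : x ∈ ρ.range := ⟨_, rfl⟩
  have hle : Algebra.adjoin K {x} ≤ ρ.range := Algebra.adjoin_le (Set.singleton_subset_iff.mpr hxO)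
  have hs : ∀ s : K[X], aeval x s ∈ ρ.range := fun s => hle (aeval_mem_adjoin_singleton K x)
  have h1 : ∀ f : L, ∃ s : K[X], s ≠ 0 ∧ aeval x s * f ∈ ρ.range := by
    intro f
    obtain ⟨a, b, hb, rfl⟩ := hf f
    obtain ⟨s, hs0, hs'⟩ := NrmA_den hx ρ.range hxO ⟨b, rfl⟩ hb
    refine ⟨s, hs0, ?_⟩
    rw [div_eq_mul_inv, mul_left_comm]
    exact mul_mem ⟨a, rfl⟩ hs'
  choose σ hσ0 hσ using h1
  obtain ⟨t, ht⟩ := finite_intCl hx
  have h2 : ∀ f ∈ Submodule.span (Algebra.adjoin K {x}) (t : Set L),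
      aeval x (∏ g ∈ t, σ g) * f ∈ ρ.range := by
    intro f hf
    induction hf using Submodule.span_induction with
    | mem f hf =>
      classical
      rw [← Finset.prod_erase_mul _ _ hf, map_mul, mul_assoc]
      exact mul_mem (hs _) (hσ f)
    | zero => simp
    | add f g _ _ hf hg =>
      rw [mul_add]
      exact add_mem hf hg
    | smul r f _ hf =>
      change _ * (r.1 * f) ∈ _
      rw [mul_left_comm]
      exact mul_mem (hle r.2) hf
  refine ⟨σ (ρ a₀)⁻¹ * ∏ g ∈ t, σ g,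
    mul_ne_zero (hσ0 _) (Finset.prod_ne_zero_iff.mpr fun g _ => hσ0 g), fun f hf => ?_⟩
  obtain ⟨c, hc⟩ := mul_mem (hσ (ρ a₀)⁻¹) (h2 f ((ht f).mp hf))
  have hc' : ρ c = _ := hc
  refine ⟨c, ?_⟩
  rw [map_mul, hc', map_mul]
  field_simp

theorem NrmA_cd (h : IsChart J A) (ρ : A →ₐ[K] L) {ι' : Type} [Fintype ι'] [DecidableEq ι']
    [Nonempty ι'] {j : ι' → ι} (hj : Function.Injective j) (ex : ι' → L →ₐ[K] LS K)
    (he : ∀ i a, ex i (ρ a) = a.1 (j i)) (hf : ∀ f : L, ∃ a b : A, ρ b ≠ 0 ∧ f = ρ a / ρ b)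
    {a₀ : A} (h0 : ρ a₀ ≠ 0) (h1 : ∀ i, i ∉ Set.range j → a₀.1 i = 0) :
    ∃ d : CD K L ι', d.ex = ex ∧ (∀ a, ρ a ∈ d.reg) ∧ ∃ s : K[X], s ≠ 0 ∧
      ∀ f ∈ d.reg, ∃ c : A, ρ (a₀ * c) = aeval d.x s * f := by
  obtain ⟨i₀⟩ := ‹Nonempty ι'›
  obtain ⟨s, hs0, hs⟩ := NrmA_cond h ρ (NrmA_tr (ex i₀) (he i₀ _)) hf h0
  have hint := NrmA_int h ρ (ex i₀) (he i₀)
  set x := ρ ⟨_, h.x_mem⟩ with hxd
  have hex : ∀ i, ex i x = LS.T K (-1) := fun i => he i _
  have hx : Transcendental K x := NrmA_tr (ex i₀) (hex i₀)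
  have hxn : ∀ i, ¬ (ex i x).Ge 0 := fun i hc => by
    have := hc (-1) (by norm_num)
    rw [hex, LS.cf_T, if_pos rfl] at this
    exact one_ne_zero this
  let pl : ι' → Place K L := fun i => ⟨(LS.vr K).comap (ex i : L →+* LS K),
    fun hc => hxn i (show x ∈ (LS.vr K).comap (ex i : L →+* LS K) from hc ▸ trivial),
    fun c => show (ex i (algebraMap K L c)).Ge 0 from (ex i).commutes c ▸ LS.ge_algebraMap c⟩
  have hpl : ∀ i f, f ∈ (pl i).1 ↔ (ex i f).Ge 0 := fun _ _ => Iff.rfl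
  have hinj : Function.Injective pl := by
    intro i i' e
    by_contra hne
    obtain ⟨n, hn⟩ := Chart_bound J
    have hJ : ∀ (k : ι) (m : ℕ), n ≤ m → (k, m) ∉ J := fun k m hm hc => by
      have := hn _ hc
      omega
    let F : A := ⟨_, h.chi_mem (j i) (j i, n)⟩
    have hT : ∀ k, ex k (x⁻¹ ^ n * ρ F) = LS.T K n * F.1 (j k) := fun k => by
      have : LS.T K (-1) * LS.T K 1 = 1 := by rw [← LS.T_add, neg_add_cancel, LS.T_zero]
      rw [map_mul, map_pow, map_inv₀, hex, he, ← eq_inv_of_mul_eq_one_right this, LS.T_pow,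
        mul_one]
    have h2 : x⁻¹ ^ n * ρ F ∈ (pl i').1 := by
      rw [hpl, hT]
      intro m hm
      obtain ⟨k, hk⟩ : ∃ k : ℕ, m - n = -((k : ℤ) + 1) := ⟨(n - m - 1).toNat, by omega⟩
      rw [LS.cf_T_mul, hk]
      refine (h.Chart_pc_chi (j i) (j i, n) (hJ (j i') k (by omega))).trans (if_neg fun hc => ?_)
      exact hne (hj (congrArg Prod.fst hc)).symm
    rw [← e, hpl, hT] at h2
    have h3 := h2 (-1) (by norm_num)
    rw [LS.cf_T_mul, show (-1 : ℤ) - n = -((n : ℤ) + 1) by ring] at h3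
    have h4 := h.Chart_pc_chi (j i) (j i, n) (hJ (j i) n le_rfl)
    rw [if_pos rfl] at h4
    exact one_ne_zero (h4.symm.trans h3)
  have hpole : ∀ P : Place K L, x ∉ P.1 → ∃ i, P = pl i := by
    intro P hP
    by_contra hc
    obtain ⟨z, hz⟩ := FF_pole P
    have hzP : ∀ Q : Place K L, Q ≠ P → z ∈ Q.1 := fun Q hQ => by
      by_contra hc'
      exact hQ (hz.le hc')
    have hzt : Transcendental K z := by
      rw [transcendental_iff]
      rintro ⟨c, rfl⟩
      exact (hz.ge rfl) (P.2.2 c)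
    have h2 : ∀ m : ℕ, z ^ m ∈ regOut (poles K x) := fun m =>
      pow_mem (show z ∈ regOut (poles K x) from fun Q hQ => hzP Q fun e => hQ (e ▸ hP)) m
    choose c hc' using fun m => hs _ (h2 m)
    have h3 : ∀ m, (a₀ * c m).1 ∈ lev A s.natDegree := fun m => ⟨(a₀ * c m).2, fun i => by
      by_cases hi : i ∈ Set.range j
      · obtain ⟨i, rfl⟩ := hi
        rw [← he, hc', map_mul, ← aeval_algHom_apply, hex]
        have := (NrmA_ge_aeval s).mul ((hpl i _).mp (pow_mem (hzP _ fun e => hc ⟨i, e.symm⟩) m))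
        rwa [add_zero] at this
      · change (a₀.1 i * (c m).1 i).Ge _
        rw [h1 i hi, zero_mul]
        exact fun _ _ => rfl⟩
    have h4 : LinearIndependent K fun m : ℕ => z ^ m := by
      have := (basisMonomials K).linearIndependent.map' (aeval z).toLinearMap
        (LinearMap.ker_eq_bot.2 (transcendental_iff_injective.1 hzt))
      rwa [show ⇑(aeval z).toLinearMap ∘ ⇑(basisMonomials K) = fun i : ℕ => z ^ i from
        funext fun i => by simp] at this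
    have hsx : aeval x s ≠ 0 := fun e => hx ⟨s, hs0, e⟩
    have h5 := h4.map' ((ex i₀).toLinearMap.comp (LinearMap.mulLeft K (aeval x s)))
      (LinearMap.ker_eq_bot.2 ((ex i₀).injective.comp (mul_right_injective₀ hsx)))
    have h6 : LinearIndependent K fun m : ℕ => (⟨_, h3 m⟩ : lev A s.natDegree) := by
      refine LinearIndependent.of_comp ((LinearMap.proj (j i₀)).comp (lev A s.natDegree).subtype) ?_
      have e : ((LinearMap.proj (j i₀)).comp (lev A s.natDegree).subtype :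
          lev A s.natDegree →ₗ[K] LS K) ∘ (fun m : ℕ => (⟨_, h3 m⟩ : lev A s.natDegree)) =
          ((ex i₀).toLinearMap.comp (LinearMap.mulLeft K (aeval x s))) ∘ fun m : ℕ => z ^ m :=
        funext fun m => (he i₀ _).symm.trans (congrArg (ex i₀) (hc' m))
      rw [e]
      exact h5
    have := h.finite_lev (s.natDegree : ℤ)
    exact Module.Finite.not_linearIndependent_of_infinite _ h6
  let d : CD K L ι' := ⟨x, ex, pl, hex, hpl, hinj, hpole⟩
  have hreg : d.reg = regOut (poles K x) := congrArg regOut d.poles_eq.symm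
  refine ⟨d, rfl, fun a => ?_, s, hs0, fun f hf => hs f (hreg ▸ hf)⟩
  rw [hreg]
  exact (mem_regOut_poles hx).mpr (hint a)

omit [Fintype ι] in
theorem NrmA_incomp (h : IsChart J A) (ρ : A →ₐ[K] L) {i : ι} (ex : L →ₐ[K] LS K)
    (he : ∀ a, ex (ρ a) = a.1 i) {k : ι} (hk : ∀ a : A, a.1 i = 0 → a.1 k = 0) (a : A)
    (ha : a.1 k = 0) : a.1 i = 0 := by
  by_contra h0
  have h1 : ρ a ≠ 0 := fun e => h0 (by rw [← he, e, map_zero])
  obtain ⟨s, hs0, b, hb⟩ := NrmA_den (NrmA_tr ex (he ⟨_, h.x_mem⟩)) ρ.range ⟨_, rfl⟩ ⟨a, rfl⟩ h1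
  have hb' : ρ b = aeval (ρ ⟨_, h.x_mem⟩) s * (ρ a)⁻¹ := hb
  have h2 := hk (aeval (⟨_, h.x_mem⟩ : A) s - a * b) (by
    rw [← he, map_sub, map_mul, hb', ← aeval_algHom_apply, mul_left_comm, mul_inv_cancel₀ h1,
      mul_one, sub_self, map_zero])
  have h3 : (aeval (⟨_, h.x_mem⟩ : A) s).1 = aeval (xx ι K) s :=
    (aeval_algHom_apply A.val _ s).symm
  change (aeval (⟨_, h.x_mem⟩ : A) s).1 k - a.1 k * b.1 k = 0 at h2
  rw [ha, zero_mul, sub_zero, h3, NrmA_aeval_xx] at h2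
  exact NrmA_T_tr ⟨s, hs0, h2⟩

omit [DecidableEq ι] in
theorem NrmA_dg_inf (d : CD K L ι) : dg d.inf = Fintype.card ι := by
  simp [CD.inf, dg_sum, dg_single]

omit [IsAlgClosed K] [DecidableEq ι] [Fact (IsFF K L)] in
theorem NrmA_inf_apply (d : CD K L ι) {P : Place K L} (hP : P ∉ Set.range d.pl) : d.inf P = 0 := by
  rw [CD.inf, Finsupp.finsetSum_apply]
  exact Finset.sum_eq_zero fun i _ => Finsupp.single_eq_of_ne fun e => hP ⟨i, e.symm⟩

theorem NrmA_h1z [Nonempty ι] (d : CD K L ι) {n : ℕ} (hn : 2 * genus K L ≤ n) :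
    H1z ((n : ℤ) • d.inf) := by
  refine h1z_of_deg ?_
  rw [dg_smul, NrmA_dg_inf]
  have : 1 ≤ Fintype.card ι := Fintype.card_pos
  have : (n : ℤ) * 1 ≤ n * Fintype.card ι := by gcongr; exact_mod_cast this
  omega

theorem NrmA_ell [Nonempty ι] (d : CD K L ι) {n : ℕ} (hn : 2 * genus K L ≤ n) :
    ell ((n : ℤ) • d.inf) + genus K L = n * Fintype.card ι + 1 := by
  have h1 := riemann ((n : ℤ) • d.inf)
  rw [(h1z_iff _).mp (NrmA_h1z d hn), dg_smul, NrmA_dg_inf, Nat.cast_zero] at h1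
  zify
  linarith

theorem NrmA_aeval_mem (d : CD K L ι) (s : K[X]) : aeval d.x s ∈ d.reg :=
  Algebra.adjoin_le (Set.singleton_subset_iff.mpr d.x_mem) (aeval_mem_adjoin_singleton K d.x)

theorem NrmA_fin_iff (d : CD K L ι) {P : Place K L} : P ∉ Set.range d.pl ↔ d.x ∈ P.1 := by
  rw [← d.poles_eq]
  exact not_not

theorem NrmA_red [Nonempty ι] (d : CD K L ι) {s : K[X]} (hs : s ≠ 0) {n : ℕ}
    (hn : 2 * genus K L + s.natDegree ≤ n) {f : L} (hf : f ∈ d.reg) :
    ∃ a ∈ d.reg, f - aeval d.x s * a ∈ Lsp ((n : ℤ) • d.inf) := by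
  have h0 : aeval d.x s ≠ 0 := fun e => d.transcendental ⟨s, hs, e⟩
  obtain ⟨a, ha, h1⟩ := d.approx (NrmA_h1z d le_rfl) (d.exT (f * (aeval d.x s)⁻¹))
  refine ⟨a, ha, d.mem_Lsp.mpr ⟨sub_mem hf (mul_mem (NrmA_aeval_mem d s) ha), fun i => ?_⟩⟩
  have e : f - aeval d.x s * a = aeval d.x s * (f * (aeval d.x s)⁻¹ - a) := by
    field_simp
  have h2 := h1 i
  rw [← map_sub, CD.exT_apply] at h2
  rw [e, CD.exT_apply, map_mul, ← aeval_algHom_apply, d.ex_x]
  refine ((NrmA_ge_aeval s).mul h2).mono ?_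
  push_cast
  omega

theorem NrmA_approx [Nonempty ι] (d : CD K L ι) (p : ℕ) [Fact p.Prime] [CharP K p]
    (a : Place K L → K) (ha : ∀ P, a P ^ p = a P) {Z : Set (Place K L)} (hZ : Z.Finite) {u : L}
    (hu : u ∈ d.reg) (h0 : u ≠ 0) : ∃ f ∈ d.reg, (f ^ p - f) * u⁻¹ ∈ d.reg ∧
      ∀ P ∈ Z, d.x ∈ P.1 → P.val f = a P := by
  classical
  have : CharP L p := charP_of_injective_algebraMap (algebraMap K L).injective p
  let E : Dv K L := ∑ P ∈ hZ.toFinset, Finsupp.single P 1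
  have hE : ∀ P, E P = if P ∈ Z then 1 else 0 := fun P => by
    simp [E, Finsupp.finsetSum_apply, Finsupp.single_apply]
  have h1 : H1z (((2 * genus K L + hZ.toFinset.card : ℕ) : ℤ) • d.inf - dv K u - E) := by
    refine h1z_of_deg ?_
    rw [dg_sub, dg_sub, dg_dv, dg_smul, NrmA_dg_inf, dg_sum]
    simp only [dg_single, Finset.sum_const, nsmul_eq_mul, mul_one]
    have : 1 ≤ Fintype.card ι := Fintype.card_pos
    have : ((2 * genus K L + hZ.toFinset.card : ℕ) : ℤ) * 1 ≤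
        ((2 * genus K L + hZ.toFinset.card : ℕ) : ℤ) * Fintype.card ι := by
      gcongr
      exact_mod_cast this
    push_cast at this ⊢
    omega
  obtain ⟨f, hf⟩ := h1 (fun P => algebraMap K L (a P))
    (Set.finite_empty.subset fun P hP => hP (P.2.2 _))
  have h2 : ∀ P, P ∉ Set.range d.pl → 0 ≤ P.ord u ∧ P.Ge (f - algebraMap K L (a P))
      (P.ord u + if P ∈ Z then 1 else 0) := fun P hP => by
    refine ⟨(P.mem_iff.mp (hu P hP)).resolve_left h0, ?_⟩
    have := hf P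
    rw [Finsupp.sub_apply, Finsupp.sub_apply, Finsupp.smul_apply, NrmA_inf_apply d hP, hE,
      dv_apply h0] at this
    exact this.mono (by simp [add_comm])
  have h3 : ∀ P, P ∉ Set.range d.pl → P.Ge (f - algebraMap K L (a P)) (P.ord u) := fun P hP =>
    (h2 P hP).2.mono (by split_ifs <;> omega)
  refine ⟨f, fun P hP => ?_, fun P hP => ?_, fun P hP hx => ?_⟩
  · have := add_mem (P.mem_iff.mpr ((h3 P hP).mono (h2 P hP).1)) (P.2.2 (a P))
    rwa [sub_add_cancel] at this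
  · have e : f ^ p - f = (f - algebraMap K L (a P)) ^ p - (f - algebraMap K L (a P)) := by
      rw [sub_pow_char, ← map_pow, ha]
      ring
    have hp : (1 : ℤ) ≤ p := by exact_mod_cast (Fact.out : p.Prime).one_le
    have h4 := (((h3 P hP).pow p).mono (m := P.ord u) (by nlinarith [(h2 P hP).1])).sub (h3 P hP)
    have h5 := rr_ge_div h0 h4
    rw [sub_self] at h5
    rw [e]
    exact P.mem_iff.mpr h5
  · have h4 := h2 P ((NrmA_fin_iff d).mpr hx)
    rw [if_pos hP] at h4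
    exact Place.val_eq (h4.2.mono (by omega))

end Comp

omit [IsAlgClosed K] in
theorem NrmA_quot {M : Type u} [AddCommGroup M] [Module K M] {T B W : Submodule K M}
    [FiniteDimensional K W] (h1 : W ≤ T) (h2 : T ≤ B ⊔ W) :
    FiniteDimensional K (T ⧸ B.submoduleOf T) ∧
      Module.finrank K (T ⧸ B.submoduleOf T) + Module.finrank K (W ⊓ B : Submodule K M) =
        Module.finrank K W := by
  let φ : W →ₗ[K] T ⧸ B.submoduleOf T := (B.submoduleOf T).mkQ.comp (Submodule.inclusion h1)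
  have hs : Function.Surjective φ := by
    intro y
    obtain ⟨y, rfl⟩ := Submodule.mkQ_surjective _ y
    obtain ⟨b, hb, w, hw, e⟩ := Submodule.mem_sup.mp (h2 y.2)
    refine ⟨⟨w, hw⟩, (Submodule.Quotient.eq _).mpr ?_⟩
    change w - y.1 ∈ B
    rw [← e, sub_add_cancel_right]
    exact neg_mem hb
  have hk : LinearMap.ker φ = (W ⊓ B).submoduleOf W := by
    ext w
    rw [LinearMap.mem_ker]
    exact (Submodule.Quotient.mk_eq_zero _).trans ⟨fun h => ⟨w.2, h⟩, fun h => h.2⟩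
  refine ⟨Module.Finite.of_surjective φ hs, ?_⟩
  have h3 := φ.finrank_range_add_finrank_ker
  rwa [LinearMap.range_eq_top.mpr hs, finrank_top, hk,
    (Submodule.submoduleOfEquivOfLe inf_le_left).finrank_eq] at h3

end PR0
end
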