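import Pool.Agent.Work.MP_da2620_ag.SchDef
import Pool.Agent.Work.MP_da2620_ag.Univ
import Pool.Agent.Work.MP_da2620_ag.NrmA
import Pool.Agent.Work.MP_da2620_ag.BC
import Mathlib
import Pool.Agent.Work.MP_da2620_ag.Hyp
import Pool.Agent.Work.MP_da2620_ag.Comb

-- merged part: Pool.Agent.Work.MP_da2620_ag.SchG
section
-- merged part: Pool.Agent.Work.MP_da2620_ag.SchA
section
/-!
# Smooth proper curves are determined by their function fields

Around each point there is an affine open `V` with `B = Γ(X, V)` standard smooth of relative dimension one over `K`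
(take `U = ⊤` using `HasRingHomProperty`, or note that a nonempty open of `Spec K` is `⊤`), so etale over `K[t]`
(`IsStandardSmoothOfRelativeDimension.exists_etale_mvPolynomial`); `B` is a Noetherian domain with fraction field the
function field (`functionField_isFractionRing_of_isAffineOpen`).  `K[t] → B` is flat, so injective; `B` is quasi-finite, so the
function field is finite over `K(t)` (unramified and essentially of finite type over the field `K(t)`:
`Algebra.FormallyUnramified.finite_of_free`, or algebraic and finitely generated).  For a prime `q` of `B` over `𝔭`, the maximal ideal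
of `B_q` is generated by `𝔭` (`Algebra.isUnramifiedAt_iff_map_eq`, `Algebra.FormallyUnramified.map_maximalIdeal`), so is principal, and
`B_q` is a valuation ring (`tfae_of_isNoetherianRing_of_isLocalRing_of_isDomain`).
`exists_hom`: an isomorphism of function fields gives `Spec L → Y`.  For each `x`, the valuative criterion
(`IsProper.eq_valuativeCriterion` or `UniversallyClosed.eq_valuativeCriterion`) extends it to `Spec O_x`, and
`PartialMap.ofFromSpecStalk` to a neighbourhood, in the class `RationalMap.ofFunctionField`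
(`eq_of_fromFunctionField_eq`); so the domain is `⊤`, and `RationalMap.toPartialMap` gives the morphism.
`exists_iso`: the two composites agree with the identity on the generic point
(`ext_of_isDominant_of_isSeparated`); note that `exists_hom` maps the generic point to the generic point.
-/

namespace PR0

open AlgebraicGeometry CategoryTheory

universe u

variable {K : Type u} [Field K]

theorem SchA_val {A B S : Type*} [CommRing A] [IsDomain A] [IsPrincipalIdealRing A] [CommRing B]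
    [IsDomain B] [Algebra A B] [Algebra.Etale A B] (q : Ideal B) [q.IsPrime] [CommRing S]
    [IsDomain S] [Algebra B S] [IsLocalization.AtPrime S q] : ValuationRing S := by
  have : IsNoetherianRing B := Algebra.FiniteType.isNoetherianRing A B
  let := Localization.AtPrime.algebraOfLiesOver (q.under A) q
  have h := ((Algebra.isUnramifiedAt_iff_map_eq A (q.under A) q).1 inferInstance).2
  have hp : (IsLocalRing.maximalIdeal (Localization.AtPrime q)).IsPrincipal := by
    obtain ⟨a, ha⟩ := (IsPrincipalIdealRing.principal (q.under A)).principal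
    rw [← h, ha, Ideal.submodule_span_eq, Ideal.map_span, Set.image_singleton]
    exact ⟨_, rfl⟩
  have hv : ValuationRing (Localization.AtPrime q) :=
    ((tfae_of_isNoetherianRing_of_isLocalRing_of_isDomain (Localization.AtPrime q)).out 4 1).1 hp
  exact Function.Surjective.valuationRing
    (IsLocalization.algEquiv q.primeCompl (Localization.AtPrime q) S).toRingEquiv.toRingHom
    (IsLocalization.algEquiv q.primeCompl (Localization.AtPrime q) S).surjective

theorem SchA_ff {B L : Type u} [CommRing B] [IsDomain B] [Algebra (Polynomial K) B]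
    [Algebra.Etale (Polynomial K) B] [Field L] [Algebra B L] [IsFractionRing B L] [Algebra K L]
    (h : ∀ c : K, algebraMap B L (algebraMap (Polynomial K) B (Polynomial.C c)) =
      algebraMap K L c) : IsFF K L := by
  let : Algebra (Polynomial K) L := ((algebraMap B L).comp (algebraMap (Polynomial K) B)).toAlgebra
  have : IsScalarTower (Polynomial K) B L := IsScalarTower.of_algebraMap_eq' rfl
  obtain ⟨x, hx⟩ : ∃ x, x = algebraMap (Polynomial K) L Polynomial.X := ⟨_, rfl⟩
  have he : ∀ p : Polynomial K, Polynomial.aeval x p = algebraMap (Polynomial K) L p := fun p => by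
    have : (Polynomial.aeval x : Polynomial K →ₐ[K] L).toRingHom = algebraMap (Polynomial K) L :=
      Polynomial.ringHom_ext (fun c => (Polynomial.aeval_C x c).trans (h c).symm)
        ((Polynomial.aeval_X x).trans hx)
    exact DFunLike.congr_fun this p
  refine ⟨x, ?_, ?_⟩
  · rw [transcendental_iff_injective]
    intro p p' hp
    rw [he, he] at hp
    exact FaithfulSMul.algebraMap_injective (Polynomial K) B (IsFractionRing.injective B L hp)
  · let : Algebra (Polynomial K) (IntermediateField.adjoin K {x}) :=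
      (Polynomial.aeval (IntermediateField.AdjoinSimple.gen K x)).toRingHom.toAlgebra
    have : IsScalarTower (Polynomial K) (IntermediateField.adjoin K {x}) L :=
      IsScalarTower.of_algebraMap_eq fun p => by
        rw [← he]
        exact (IntermediateField.AdjoinSimple.coe_aeval_gen_apply K x p).symm
    have : Algebra.FormallyUnramified B L := .of_isLocalization (nonZeroDivisors B)
    have : Algebra.EssFiniteType B L := .of_isLocalization L (nonZeroDivisors B)
    have : Algebra.FormallyUnramified (Polynomial K) L := .comp _ B _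
    have : Algebra.EssFiniteType (Polynomial K) L := .comp _ B _
    have : Algebra.FormallyUnramified (IntermediateField.adjoin K {x}) L :=
      .of_restrictScalars (Polynomial K) _ _
    have : Algebra.EssFiniteType (IntermediateField.adjoin K {x}) L :=
      .of_comp (Polynomial K) _ _
    exact Algebra.FormallyUnramified.finite_of_free _ _

theorem SchA_chart (C : Curve K) (x : C.X) :
    ∃ (V : C.X.Opens) (_ : IsAffineOpen V) (_ : x ∈ V) (_ : Nonempty V)
      (g : Polynomial K →+* Γ(C.X, V)), g.Etale ∧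
      ∀ c : K, C.X.germToFunctionField V (g (Polynomial.C c)) = algebraMap K C.L c := by
  obtain ⟨U, hU, V, hV, hx, e, hf⟩ :=
    SmoothOfRelativeDimension.exists_isStandardSmoothOfRelativeDimension (n := 1) (f := C.f) x
  obtain rfl : U = ⊤ := top_le_iff.1 fun y _ => by
    rw [Subsingleton.elim y (C.f x)]
    exact e hx
  obtain ⟨g, hg, hg'⟩ := hf.exists_etale_mvPolynomial
  have : Nonempty V := ⟨⟨x, hx⟩⟩
  let φ : Polynomial K ≃+* MvPolynomial (Fin 1) Γ(Spec (CommRingCat.of K), ⊤) :=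
    (MvPolynomial.uniqueAlgEquiv K (Fin 1)).symm.toRingEquiv.trans
      (MvPolynomial.mapEquiv _ (Scheme.ΓSpecIso (CommRingCat.of K)).symm.commRingCatIsoToRingEquiv)
  refine ⟨V, hV, hx, this, g.comp φ.toRingHom,
    RingHom.Etale.stableUnderComposition _ _ (RingHom.Etale.of_bijective φ.bijective) hg',
    fun c => ?_⟩
  have h1 : φ (Polynomial.C c) =
      MvPolynomial.C ((Scheme.ΓSpecIso (CommRingCat.of K)).inv c) := by
    have := (MvPolynomial.uniqueAlgEquiv K (Fin 1)).symm.commutes c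
    rw [Polynomial.algebraMap_eq, MvPolynomial.algebraMap_eq] at this
    change MvPolynomial.map _ ((MvPolynomial.uniqueAlgEquiv K (Fin 1)).symm (Polynomial.C c)) = _
    rw [this, MvPolynomial.map_C]
    rfl
  change C.X.germToFunctionField V (g (φ (Polynomial.C c))) = _
  rw [h1, ← RingHom.comp_apply g, hg]
  change (C.f.appLE ⊤ V e ≫ C.X.germToFunctionField V) _ =
    (C.f.appTop ≫ C.X.presheaf.germ ⊤ (genericPoint C.X) trivial) _
  congr 2
  rw [Scheme.Hom.appLE, Category.assoc, TopCat.Presheaf.germ_res]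
  rfl

theorem SchA_dominant (X : Scheme.{u}) [IsIntegral X] :
    IsDominant (X.fromSpecStalk (genericPoint X)) := by
  constructor
  rw [DenseRange, Scheme.range_fromSpecStalk, dense_iff_closure_eq, Set.eq_univ_iff_forall]
  intro y
  exact closure_mono (Set.singleton_subset_iff.2 (specializes_refl (genericPoint X)))
    (specializes_iff_mem_closure.1 (genericPoint_specializes y))

theorem SchA_stalk {X : Scheme.{u}} (U : X.Opens) {x y : X} (h : x ⤳ y) (hx : x ∈ U)
    (hy : y ∈ U) : U.fromSpecStalkOfMem x hx =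
      Spec.map (X.presheaf.stalkSpecializes h) ≫ U.fromSpecStalkOfMem y hy := by
  rw [← cancel_mono U.ι, Category.assoc, Scheme.Opens.fromSpecStalkOfMem_ι,
    Scheme.Opens.fromSpecStalkOfMem_ι, Scheme.SpecMap_stalkSpecializes_fromSpecStalk]

theorem SchA_extend {X Y S : Scheme.{u}} [IsIntegral X] (sX : X ⟶ S) (sY : Y ⟶ S) [IsProper sY]
    [Y.IsSeparated] [S.IsSeparated] (hv : ∀ x : X, ValuationRing (X.presheaf.stalk x))
    (φ : Spec X.functionField ⟶ Y) (h : φ ≫ sY = X.fromSpecStalk _ ≫ sX) :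
    ∃ g : X ⟶ Y, g ≫ sY = sX ∧ X.fromSpecStalk (genericPoint X) ≫ g = φ := by
  have hE : ValuativeCriterion.Existence sY := by
    have : UniversallyClosed sY := inferInstance
    rw [UniversallyClosed.eq_valuativeCriterion] at this
    exact this.1
  obtain ⟨r, hr⟩ : ∃ r, r = Scheme.RationalMap.ofFunctionField sX sY φ h := ⟨_, rfl⟩
  have hrφ : r.fromFunctionField = φ := by
    rw [hr, Scheme.RationalMap.fromFunctionField_ofFunctionField]
  have hd : r.domain = ⊤ := top_le_iff.1 fun x _ => by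
    have := hv x
    have w : φ ≫ sY = Spec.map (CommRingCat.ofHom
        (algebraMap (X.presheaf.stalk x) X.functionField)) ≫ X.fromSpecStalk x ≫ sX := by
      rw [h, ← Scheme.SpecMap_stalkSpecializes_fromSpecStalk (genericPoint_specializes x),
        Category.assoc]
      rfl
    obtain ⟨l, hl₁, hl₂⟩ := (hE
      { R := X.presheaf.stalk x, K := X.functionField, commSq := ⟨w⟩, .. }).exists_lift
    dsimp only at hl₁ hl₂
    refine Scheme.RationalMap.mem_domain.2 ⟨Scheme.PartialMap.ofFromSpecStalk sX sY l hl₂,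
      Scheme.PartialMap.mem_domain_ofFromSpecStalk sX sY l hl₂,
      Scheme.RationalMap.eq_of_fromFunctionField_eq _ _ ?_⟩
    have h2 := Scheme.PartialMap.fromSpecStalkOfMem_ofFromSpecStalk sX sY l hl₂
    rw [hrφ, Scheme.RationalMap.fromFunctionField_toRationalMap, ← hl₁]
    refine Eq.trans ?_ (congrArg (_ ≫ ·) h2)
    unfold Scheme.PartialMap.fromFunctionField Scheme.PartialMap.fromSpecStalkOfMem
    rw [SchA_stalk _ (genericPoint_specializes x) _
      (Scheme.PartialMap.mem_domain_ofFromSpecStalk sX sY l hl₂), Category.assoc]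
    rfl
  have hle : (⊤ : X.Opens) ≤ r.toPartialMap.domain := hd.ge
  have hg : X.fromSpecStalk (genericPoint X) ≫ X.topIso.inv ≫ X.homOfLE hle ≫
      r.toPartialMap.hom = φ := by
    refine Eq.trans ?_ ((congrArg Scheme.RationalMap.fromFunctionField
      r.toRationalMap_toPartialMap).trans hrφ)
    rw [Scheme.RationalMap.fromFunctionField_toRationalMap]
    unfold Scheme.PartialMap.fromFunctionField Scheme.PartialMap.fromSpecStalkOfMem
    rw [← Category.assoc, ← Category.assoc]
    congr 1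
    rw [← cancel_mono r.toPartialMap.domain.ι]
    simp
  have := SchA_dominant X
  refine ⟨_, ext_of_isDominant (X.fromSpecStalk (genericPoint X)) ?_, hg⟩
  rw [← Category.assoc, hg, h]

/-- the generic point, with source the spectrum of the function field -/
noncomputable def SchA_gen (C : Curve K) : Spec (CommRingCat.of C.L) ⟶ C.X :=
  C.X.fromSpecStalk (genericPoint C.X)

theorem Curve.isFF (C : Curve K) : IsFF K C.L := by
  obtain ⟨V, hV, -, _, g, hg, h⟩ := SchA_chart C (genericPoint C.X)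
  let := g.toAlgebra
  have : Algebra.Etale (Polynomial K) Γ(C.X, V) := hg
  let : Algebra Γ(C.X, V) C.L := (C.X.germToFunctionField V).hom.toAlgebra
  have : IsFractionRing Γ(C.X, V) C.L := functionField_isFractionRing_of_isAffineOpen C.X V hV
  exact SchA_ff (B := Γ(C.X, V)) h

theorem Curve.valuationRing (C : Curve K) (x : C.X) : ValuationRing (C.X.presheaf.stalk x) := by
  obtain ⟨V, hV, hx, _, g, hg, -⟩ := SchA_chart C x
  let := g.toAlgebra
  have : Algebra.Etale (Polynomial K) Γ(C.X, V) := hg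
  let := TopCat.Presheaf.algebra_section_stalk C.X.presheaf (⟨x, hx⟩ : V)
  have := hV.isLocalization_stalk ⟨x, hx⟩
  exact SchA_val (A := Polynomial K) (hV.primeIdealOf ⟨x, hx⟩).asIdeal

theorem Curve.fromSpec_comp (C : Curve K) : C.X.fromSpecStalk (genericPoint C.X) ≫ C.f =
    Spec.map (CommRingCat.ofHom (algebraMap K C.L)) := by
  rw [← Category.comp_id C.f, ← toSpecΓ_SpecMap_ΓSpecIso_inv, ← Category.assoc C.f,
    Scheme.toSpecΓ_naturality, Category.assoc, Scheme.fromSpecStalk_toSpecΓ_assoc,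
    ← Spec.map_comp, ← Spec.map_comp]
  rfl

theorem Curve.exists_hom (C C' : Curve K) (e : C'.L →ₐ[K] C.L) : ∃ g : C.X ⟶ C'.X, g ≫ C'.f = C.f ∧
    C.X.fromSpecStalk (genericPoint C.X) ≫ g =
      Spec.map (CommRingCat.ofHom (e : C'.L →+* C.L)) ≫ C'.X.fromSpecStalk (genericPoint C'.X) := by
  have : C'.X.IsSeparated := by
    constructor
    rw [← Limits.terminal.comp_from C'.f]
    infer_instance
  refine SchA_extend C.f C'.f C.valuationRing _ ?_
  have h : SchA_gen C ≫ C.f = _ := C.fromSpec_comp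
  have h' : SchA_gen C' ≫ C'.f = _ := C'.fromSpec_comp
  change (Spec.map (CommRingCat.ofHom (e : C'.L →+* C.L)) ≫ SchA_gen C') ≫ C'.f = SchA_gen C ≫ C.f
  rw [Category.assoc, h, h', ← Spec.map_comp, ← CommRingCat.ofHom_comp, AlgHom.comp_algebraMap]

theorem Curve.exists_iso (C C' : Curve K) (e : C.L ≃ₐ[K] C'.L) :
    ∃ g : C.X ≅ C'.X, g.hom ≫ C'.f = C.f := by
  have key : ∀ (D D' : Curve K) (a : D.L ≃ₐ[K] D'.L) (g : D.X ⟶ D'.X) (g' : D'.X ⟶ D.X),
      g ≫ D'.f = D.f → g' ≫ D.f = D'.f → SchA_gen D ≫ g =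
        Spec.map (CommRingCat.ofHom ((a.symm : D'.L →ₐ[K] D.L) : D'.L →+* D.L)) ≫ SchA_gen D' →
      SchA_gen D' ≫ g' =
        Spec.map (CommRingCat.ofHom ((a : D.L →ₐ[K] D'.L) : D.L →+* D'.L)) ≫ SchA_gen D →
      g ≫ g' = 𝟙 _ := by
    intro D D' a g g' h1 h2 h3 h4
    have : IsDominant (SchA_gen D) := SchA_dominant D.X
    refine ext_of_isDominant_of_isSeparated D.f (by rw [Category.assoc, h2, h1, Category.id_comp])
      (SchA_gen D) ?_
    have : ((a.symm : D'.L →ₐ[K] D.L) : D'.L →+* D.L).comp ((a : D.L →ₐ[K] D'.L) : D.L →+* D'.L) =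
        RingHom.id _ := RingHom.ext a.symm_apply_apply
    rw [← Category.assoc, h3, Category.assoc, h4, ← Category.assoc, ← Spec.map_comp,
      ← CommRingCat.ofHom_comp, Category.comp_id, this, CommRingCat.ofHom_id, Spec.map_id,
      Category.id_comp]
  obtain ⟨g, h1, h3⟩ := C.exists_hom C' e.symm
  obtain ⟨g', h2, h4⟩ := C'.exists_hom C e
  exact ⟨⟨g, g', key C C' e g g' h1 h2 h3 h4, key C' C e.symm g' g h2 h1 h4 h3⟩, h1⟩

end PR0
end

-- merged part: Pool.Agent.Work.MP_da2620_ag.SchC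
section
/-!
# The two affine rings of a chart point

`AF A hx 0 = A`, and `AF A hx 1` is the union of the `x ^ (-n) lev A n`.  For `n` above the levels of `J`, `lev A n` is free with
basis `1`, `chi μ` (`μ ∉ J`, `μ.2 < n`), compatibly with base change (`mem_iff`, `pole_chi`, `chi_bc`), and
`lev A (n + 1) = lev A n + x lev A n`.  `exists_tens`: the map `R' ⊗ AF → LT ι R'` is injective: an element is a finite sum, so after
multiplying by the unit `uf i ^ n` it is `∑ c μ ⊗ (basis)`.  `finitePresentation`: descend the chart to the Noetherian ring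
`k[coef]` (`IsChart.descend`, `IsChart.fg`, `FG.finiteType`), where finite type implies finite presentation, and use `exists_tens`.
-/

namespace PR0

open TensorProduct

universe u

variable {ι : Type} [Fintype ι] [DecidableEq ι] {R R' : Type u} [CommRing R] [CommRing R']

/-- The two sections `1`, `x`. -/
noncomputable def uf (ι : Type) (R : Type u) [CommRing R] : Fin 2 → LT ι R := ![1, xx ι R]

section
omit [Fintype ι] [DecidableEq ι]

theorem SchC_mul {A : Subalgebra R (LT ι R)} {F G : LT ι R} {n m : ℤ} (h : F ∈ lev A n)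
    (h' : G ∈ lev A m) : F * G ∈ lev A (n + m) := ⟨mul_mem h.1 h'.1, Univ_pole_mul h.2 h'.2⟩

theorem SchC_mono {A : Subalgebra R (LT ι R)} {F : LT ι R} {n m : ℤ} (h : F ∈ lev A n)
    (hm : n ≤ m) : F ∈ lev A m := ⟨h.1, Univ_pole_mono h.2 hm⟩

theorem SchC_one (A : Subalgebra R (LT ι R)) : (1 : LT ι R) ∈ lev A 0 := ⟨one_mem _, Univ_pole_one⟩

theorem SchC_uf {A : Subalgebra R (LT ι R)} (hx : xx ι R ∈ A) (i : Fin 2) : uf ι R i ∈ lev A 1 := by
  fin_cases i
  · exact SchC_mono (SchC_one A) zero_le_one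
  · exact ⟨hx, Univ_pole_xx⟩

theorem SchC_up {A : Subalgebra R (LT ι R)} (hx : xx ι R ∈ A) {i : Fin 2} {F : LT ι R} {n m : ℕ}
    (h : uf ι R i ^ n * F ∈ lev A n) (hm : n ≤ m) : uf ι R i ^ m * F ∈ lev A m := by
  induction m, hm using Nat.le_induction with
  | base => exact h
  | succ m _ ih =>
    rw [pow_succ', mul_assoc, Nat.cast_succ, add_comm]
    exact SchC_mul (SchC_uf hx i) ih

end

/-- The affine rings. -/
def AF (A : Subalgebra R (LT ι R)) (hx : xx ι R ∈ A) (i : Fin 2) : Subalgebra R (LT ι R) where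
  carrier := {F | ∃ n : ℕ, uf ι R i ^ n * F ∈ lev A n}
  mul_mem' := by
    rintro F G ⟨n, hn⟩ ⟨m, hm⟩
    refine ⟨n + m, ?_⟩
    rw [pow_add, mul_mul_mul_comm, Nat.cast_add]
    exact SchC_mul hn hm
  add_mem' := by
    rintro F G ⟨n, hn⟩ ⟨m, hm⟩
    refine ⟨max n m, ?_⟩
    rw [mul_add]
    exact add_mem (SchC_up hx hn (le_max_left _ _)) (SchC_up hx hm (le_max_right _ _))
  algebraMap_mem' := fun c => ⟨0, by
    rw [pow_zero, one_mul, Algebra.algebraMap_eq_smul_one]
    exact Submodule.smul_mem _ c (SchC_one A)⟩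

/-- The ring of the overlap. -/
def AG (A : Subalgebra R (LT ι R)) (hx : xx ι R ∈ A) : Subalgebra R (LT ι R) where
  carrier := {F | ∃ n : ℕ, xx ι R ^ n * F ∈ A}
  mul_mem' := by
    rintro F G ⟨n, hn⟩ ⟨m, hm⟩
    refine ⟨n + m, ?_⟩
    rw [pow_add, mul_mul_mul_comm]
    exact mul_mem hn hm
  add_mem' := by
    rintro F G ⟨n, hn⟩ ⟨m, hm⟩
    refine ⟨n + m, ?_⟩
    have e : xx ι R ^ (n + m) * (F + G) =
        xx ι R ^ m * (xx ι R ^ n * F) + xx ι R ^ n * (xx ι R ^ m * G) := by ring
    rw [e]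
    exact add_mem (mul_mem (pow_mem hx m) hn) (mul_mem (pow_mem hx n) hm)
  algebraMap_mem' := fun c => ⟨0, by
    rw [pow_zero, one_mul]
    exact A.algebraMap_mem c⟩

theorem AF_le {A : Subalgebra R (LT ι R)} (hx : xx ι R ∈ A) (i : Fin 2) : AF A hx i ≤ AG A hx := by
  rintro F ⟨n, hn⟩
  fin_cases i
  · exact ⟨0, by simpa [uf] using hn.1⟩
  · exact ⟨n, hn.1⟩
theorem AF_zero {A : Subalgebra R (LT ι R)} (hx : xx ι R ∈ A) : AF A hx 0 = A := by
  refine le_antisymm ?_ fun F hF => ?_
  · rintro F ⟨n, hn⟩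
    simpa [uf] using hn.1
  · obtain ⟨n, hn⟩ := exists_pole F
    refine ⟨n, ?_⟩
    rw [show uf ι R 0 = 1 from rfl, one_pow, one_mul]
    exact ⟨hF, hn⟩
theorem isUnit_uf (i : Fin 2) : IsUnit (uf ι R i) := by
  fin_cases i
  · exact isUnit_one
  · refine IsUnit.of_mul_eq_one (fun _ => LS.T R 1) (funext fun _ => ?_)
    change LS.T R (-1) * LS.T R 1 = 1
    rw [← LS.T_add, neg_add_cancel, LS.T_zero]

theorem SchC_map_uf (φ : R →+* R') (i : Fin 2) : mapT φ (uf ι R i) = uf ι R' i := by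
  fin_cases i
  · exact map_one _
  · exact mapT_xx φ

theorem SchC_map_lev (φ : R →+* R') {A : Subalgebra R (LT ι R)} {F : LT ι R} {n : ℤ}
    (h : F ∈ lev A n) : mapT φ F ∈ lev (bc φ A) n :=
  ⟨Chart_mem_bc φ h.1, fun i m hm => (congrArg φ (h.2 i m hm)).trans φ.map_zero⟩

/-- Coordinates of an element of bounded pole order. -/
def SchCcrd (i₀ : ι) (n : ℕ) (F : LT ι R) (o : Option (ι × Fin n)) : R :=
  o.elim ((F i₀).cf 0) fun μ => pc F (μ.1, μ.2)

/-- The corresponding spanning family. -/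
noncomputable def SchCbas (i₀ : ι) (J : Finset (ι × ℕ)) (A : Subalgebra R (LT ι R)) (n : ℕ)
    (o : Option (ι × Fin n)) : LT ι R := o.elim 1 fun μ => chi i₀ J A (μ.1, μ.2)

theorem SchC_crd_map (φ : R →+* R') (i₀ : ι) (n : ℕ) (F : LT ι R) (o : Option (ι × Fin n)) :
    SchCcrd i₀ n (mapT φ F) o = φ (SchCcrd i₀ n F o) := by
  cases o <;> rfl

theorem SchC_crd_add (i₀ : ι) (n : ℕ) (F G : LT ι R) (o : Option (ι × Fin n)) :
    SchCcrd i₀ n (F + G) o = SchCcrd i₀ n F o + SchCcrd i₀ n G o := by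
  cases o <;> exact LS.cf_add _ _ _

theorem SchC_crd_smul (i₀ : ι) (n : ℕ) (c : R) (F : LT ι R) (o : Option (ι × Fin n)) :
    SchCcrd i₀ n (c • F) o = c * SchCcrd i₀ n F o := by
  cases o <;> exact LS.cf_smul _ _ _

theorem SchC_crd_zero (i₀ : ι) (n : ℕ) (o : Option (ι × Fin n)) :
    SchCcrd i₀ n (0 : LT ι R) o = 0 := by
  cases o <;> rfl

variable {J : Finset (ι × ℕ)} {A : Subalgebra R (LT ι R)} (h : IsChart J A)
include h

theorem IsChart.SchC_dec (i₀ : ι) {n : ℕ} {G : LT ι R} (hG : G ∈ lev A n) :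
    G = ∑ o, SchCcrd i₀ n G o • SchCbas i₀ J A n o := by
  rw [Fintype.sum_option, Fintype.sum_prod_type]
  refine (h.Univ_eq i₀ hG.1 hG.2).trans ?_
  rw [Univ_dec, Algebra.algebraMap_eq_smul_one, Finset.sum_product]
  congr 1
  exact Finset.sum_congr rfl fun i _ =>
    (Fin.sum_univ_eq_sum_range (fun l => pc G (i, l) • chi i₀ J A (i, l)) n).symm

theorem IsChart.SchC_bas_mem (i₀ : ι) {n : ℕ} (hJ : ∀ ν ∈ J, ν.2 < n) (o : Option (ι × Fin n)) :
    SchCbas i₀ J A n o ∈ lev A n := by
  cases o with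
  | none => exact SchC_mono (SchC_one A) (Nat.cast_nonneg n)
  | some μ => exact ⟨h.chi_mem i₀ _, h.pole_chi i₀ μ.2.2 hJ⟩

theorem IsChart.SchC_bas_bc (i₀ : ι) (φ : R →+* R') (n : ℕ) (o : Option (ι × Fin n)) :
    SchCbas i₀ J (PR0.bc φ A) n o = mapT φ (SchCbas i₀ J A n o) := by
  cases o with
  | none => exact (map_one _).symm
  | some μ => exact h.chi_bc i₀ φ _

theorem IsChart.lev_succ {n : ℕ} (hn : 0 < n) (hJ : ∀ ν ∈ J, ν.2 + 1 < n) {F : LT ι R}
    (hF : F ∈ lev A (n + 1 : ℕ)) :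
    ∃ a ∈ lev A n, ∃ b ∈ lev A n, F = a + xx ι R * b := by
  rcases isEmpty_or_nonempty ι with _ | ⟨⟨i₀⟩⟩
  · exact ⟨0, zero_mem _, 0, zero_mem _, Subsingleton.elim _ _⟩
  obtain ⟨m, rfl⟩ : ∃ m, n = m + 1 := ⟨n - 1, by omega⟩
  have hb : ∑ i, pc F (i, m + 1) • chi i₀ J A (i, m) ∈ lev A (m + 1 : ℕ) :=
    sum_mem fun i _ => Submodule.smul_mem _ _ ⟨h.chi_mem i₀ _,
      h.pole_chi i₀ (Nat.lt_succ_self _) fun ν hν => by have := hJ ν hν; omega⟩
  refine ⟨_, ⟨sub_mem hF.1 (mul_mem h.x_mem hb.1), pole_iff.2 ?_⟩, _, hb, (sub_add_cancel _ _).symm⟩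
  rintro ⟨j, l⟩ hl
  obtain ⟨l, rfl⟩ : ∃ l', l = l' + 1 := ⟨l - 1, by simp only at hl; omega⟩
  have h2 : (j, l) ∉ J := fun e => by have := hJ _ e; simp only at hl this; omega
  rw [Chart_pc_sub, Chart_pc_xx, Chart_pc_sum]
  simp only [Chart_pc_smul, h.Chart_pc_chi i₀ _ h2, Prod.mk.injEq]
  by_cases e : l = m
  · simp [e]
  · rw [pole_iff.1 hF.2 (j, l + 1) (by simp only at hl ⊢; omega)]
    simp [e]

variable [Nonempty ι]

theorem IsChart.lev_fg (n : ℕ) : ∃ m, n ≤ m ∧ (lev A m).FG := by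
  obtain ⟨i₀⟩ := ‹Nonempty ι›
  obtain ⟨N, hN⟩ := Chart_bound J
  refine ⟨(n + N : ℕ), by omega, Submodule.fg_def.2 ⟨_, Set.finite_range (SchCbas i₀ J A (n + N)),
    le_antisymm (Submodule.span_le.2 ?_) fun G hG => ?_⟩⟩
  · rintro _ ⟨o, rfl⟩
    exact h.SchC_bas_mem i₀ (fun ν hν => (hN ν hν).trans_le le_add_self) o
  · rw [h.SchC_dec i₀ hG]
    exact sum_mem fun o _ => Submodule.smul_mem _ _ (Submodule.subset_span ⟨o, rfl⟩)

theorem IsChart.exists_tens [Algebra R R'] (i : Fin 2) :
    ∃ e : R' ⊗[R] AF A h.x_mem i ≃ₐ[R'] AF (PR0.bc (algebraMap R R') A) (h.bc _).x_mem i,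
      ∀ a, (e (1 ⊗ₜ a)).1 = mapT (algebraMap R R') a.1 := by
  obtain ⟨i₀⟩ := ‹Nonempty ι›
  obtain ⟨N, hN⟩ := Chart_bound J
  obtain ⟨v, hv⟩ := (isUnit_uf (ι := ι) (R := R) i).exists_right_inv
  have hv' : ∀ (n : ℕ) (F : LT ι R), uf ι R i ^ n * (v ^ n * F) = F := fun n F => by
    rw [← mul_assoc, ← mul_pow, hv, one_pow, one_mul]
  let ψ : AF A h.x_mem i →ₐ[R] AF (PR0.bc (algebraMap R R') A) (h.bc _).x_mem i :=
    { toFun := fun a => ⟨mapT (algebraMap R R') a.1, a.2.imp fun n hn => by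
        rw [← SchC_map_uf (algebraMap R R'), ← map_pow, ← map_mul]
        exact SchC_map_lev _ hn⟩
      map_one' := Subtype.ext (map_one _)
      map_mul' := fun a b => Subtype.ext (map_mul _ _ _)
      map_zero' := Subtype.ext (map_zero _)
      map_add' := fun a b => Subtype.ext (map_add _ _ _)
      commutes' := fun c => Subtype.ext (mapT_algebraMap _ c) }
  let e := Algebra.TensorProduct.lift (Algebra.ofId R' _) ψ fun _ _ => Commute.all _ _
  have he : ∀ r a, (e (r ⊗ₜ a)).1 = r • mapT (algebraMap R R') a.1 := fun r a =>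
    (Algebra.smul_def r _).symm
  let β : ∀ n, N ≤ n → Option (ι × Fin n) → AF A h.x_mem i := fun n hn o =>
    ⟨v ^ n * SchCbas i₀ J A n o, n, by
      rw [hv']
      exact h.SchC_bas_mem i₀ (fun ν hν => (hN ν hν).trans_le hn) o⟩
  have key : ∀ z : R' ⊗[R] AF A h.x_mem i, ∃ m, ∀ n (hn : N ≤ n), m ≤ n →
      z = ∑ o, SchCcrd i₀ n (uf ι R' i ^ n * (e z).1) o ⊗ₜ β n hn o := fun z => by
    induction z using TensorProduct.induction_on with
    | zero => exact ⟨0, fun n hn _ => by simp [SchC_crd_zero]⟩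
    | tmul r a =>
      obtain ⟨m, hm⟩ := a.2
      refine ⟨m, fun n hn hmn => ?_⟩
      have h1 : a = ∑ o, SchCcrd i₀ n (uf ι R i ^ n * a.1) o • β n hn o := by
        refine Subtype.ext (((isUnit_uf i).pow n).mul_left_cancel ?_)
        rw [AddSubmonoidClass.coe_finsetSum, Finset.mul_sum]
        refine (h.SchC_dec i₀ (SchC_up h.x_mem hm hmn)).trans (Finset.sum_congr rfl fun o _ => ?_)
        rw [Subalgebra.coe_smul, mul_smul_comm, hv']
      rw [he, mul_smul_comm, ← SchC_map_uf (algebraMap R R'), ← map_pow, ← map_mul]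
      conv_lhs => rw [h1, tmul_sum]
      refine Finset.sum_congr rfl fun o _ => ?_
      rw [SchC_crd_smul, SchC_crd_map, tmul_smul, smul_tmul', Algebra.smul_def, mul_comm]
    | add z z' hz hz' =>
      obtain ⟨m, hm⟩ := hz
      obtain ⟨m', hm'⟩ := hz'
      refine ⟨max m m', fun n hn hmn => ?_⟩
      conv_lhs => rw [hm n hn ((le_max_left _ _).trans hmn), hm' n hn ((le_max_right _ _).trans hmn)]
      simp only [map_add, Subalgebra.coe_add, mul_add, SchC_crd_add, add_tmul,
        Finset.sum_add_distrib]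
  refine ⟨AlgEquiv.ofBijective e ⟨(injective_iff_map_eq_zero e).2 fun z hz => ?_, fun F => ?_⟩,
    fun a => (he 1 a).trans (one_smul _ _)⟩
  · obtain ⟨m, hm⟩ := key z
    rw [hm (max N m) (le_max_left _ _) (le_max_right _ _), hz]
    simp [SchC_crd_zero]
  · obtain ⟨m, hm⟩ := F.2
    refine ⟨∑ o, SchCcrd i₀ (max N m) (uf ι R' i ^ max N m * F.1) o ⊗ₜ β _ (le_max_left _ _) o,
      Subtype.ext (((isUnit_uf i).pow (max N m)).mul_left_cancel ?_)⟩
    rw [map_sum, AddSubmonoidClass.coe_finsetSum, Finset.mul_sum]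
    refine Eq.trans (Finset.sum_congr rfl fun o _ => ?_)
      ((h.bc _).SchC_dec i₀ (SchC_up (h.bc _).x_mem hm (le_max_right _ _))).symm
    rw [he, mul_smul_comm, h.SchC_bas_bc]
    congr 1
    rw [← SchC_map_uf (algebraMap R R'), ← map_pow, ← map_mul, hv']

theorem IsChart.finiteType (i : Fin 2) : Algebra.FiniteType R (AF A h.x_mem i) := by
  obtain ⟨i₀⟩ := ‹Nonempty ι›
  obtain ⟨N, hN⟩ := Chart_bound J
  obtain ⟨v, hv⟩ := (isUnit_uf (ι := ι) (R := R) i).exists_right_inv
  have hv' : ∀ (n : ℕ) (F : LT ι R), uf ι R i ^ n * (v ^ n * F) = F := fun n F => by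
    rw [← mul_assoc, ← mul_pow, hv, one_pow, one_mul]
  refine (Subalgebra.fg_iff_finiteType _).1 (Subalgebra.fg_def.2 ⟨insert v (insert (v * xx ι R)
    (Set.range fun o => v ^ (N + 1) * SchCbas i₀ J A (N + 1) o)),
    ((Set.finite_range _).insert _).insert _, le_antisymm (Algebra.adjoin_le ?_) ?_⟩)
  · rintro _ (rfl | rfl | ⟨o, rfl⟩)
    · exact ⟨1, by
        rw [pow_one, hv]
        exact SchC_mono (SchC_one A) (Nat.cast_nonneg 1)⟩
    · exact ⟨1, by
        rw [pow_one, ← mul_assoc, hv, one_mul]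
        exact ⟨h.x_mem, Univ_pole_xx⟩⟩
    · exact ⟨N + 1, by
        rw [hv']
        exact h.SchC_bas_mem i₀ (fun ν hν => (hN ν hν).trans (Nat.lt_succ_self N)) o⟩
  have key : ∀ n, N + 1 ≤ n → ∀ G ∈ lev A (n : ℕ), v ^ n * G ∈ Algebra.adjoin R
      (insert v (insert (v * xx ι R)
        (Set.range fun o => v ^ (N + 1) * SchCbas i₀ J A (N + 1) o))) := fun n hn => by
    induction n, hn using Nat.le_induction with
    | base =>
      intro G hG
      rw [h.SchC_dec i₀ hG, Finset.mul_sum]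
      refine sum_mem fun o _ => ?_
      rw [mul_smul_comm]
      exact Subalgebra.smul_mem _ (Algebra.subset_adjoin (.inr (.inr ⟨o, rfl⟩))) _
    | succ n hn ih =>
      intro G hG
      obtain ⟨a, ha, b, hb, rfl⟩ := h.lev_succ (by omega)
        (fun ν hν => by have := hN ν hν; omega) hG
      have e : v ^ (n + 1) * (a + xx ι R * b) = v * (v ^ n * a) + v * xx ι R * (v ^ n * b) := by
        ring
      rw [e]
      exact add_mem (mul_mem (Algebra.subset_adjoin (.inl rfl)) (ih a ha))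
        (mul_mem (Algebra.subset_adjoin (.inr (.inl rfl))) (ih b hb))
  rintro F ⟨n, hn⟩
  have h1 := key _ (le_max_left _ n) _ (SchC_up h.x_mem hn (le_max_right _ _))
  rwa [mul_left_comm, hv'] at h1

theorem IsChart.SchC_fp {R₀ : Type u} [CommRing R₀] [IsNoetherianRing R₀] [Algebra R₀ R]
    {A₀ : Subalgebra R₀ (LT ι R₀)} (h₀ : IsChart J A₀) (e : PR0.bc (algebraMap R₀ R) A₀ = A)
    (i : Fin 2) : Algebra.FinitePresentation R (AF A h.x_mem i) := by
  subst e
  have := Algebra.FinitePresentation.of_finiteType.1 (h₀.finiteType i)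
  obtain ⟨e, -⟩ := h₀.exists_tens (R' := R) i
  exact .equiv e

theorem IsChart.finitePresentation (k : Type u) [Field k] [Algebra k R] (i : Fin 2) :
    Algebra.FinitePresentation R (AF A h.x_mem i) := by
  obtain ⟨i₀⟩ := id ‹Nonempty ι›
  have := (h.fg (k := k) i₀).finiteType
  have := Algebra.FiniteType.isNoetherianRing k (Algebra.adjoin k (Set.range (coef i₀ J A)))
  obtain ⟨A₀, h₀, -, e⟩ := h.descend (Algebra.adjoin k (Set.range (coef i₀ J A))).val
    Subtype.val_injective (c := fun a => ⟨_, Algebra.subset_adjoin ⟨a, rfl⟩⟩) fun _ => rfl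
  exact h.SchC_fp h₀ e i

theorem IsChart.flat [IsDomain R] [ValuationRing R] (i : Fin 2) : Module.Flat R (AF A h.x_mem i) :=
  Module.Flat.flat_iff_torsion_eq_bot_of_isBezout.2 (eq_bot_iff.2 fun F ⟨c, hc⟩ =>
    Subtype.ext (funext fun j => LS.ext fun m => (mul_eq_zero.1 ((LS.cf_smul c.1 (F.1 j) m).symm.trans
      (congrArg (fun G : AF A h.x_mem i => (G.1 j).cf m) hc))).resolve_left
        (nonZeroDivisors.ne_zero c.2)))

end PR0
end

-- merged part: Pool.Agent.Work.MP_da2620_ag.SchF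
section
/-!
# Fibres of a scheme with two affine charts

Let `Z = pullback π (Spec.map (algebraMap R F))`.  It is covered by the pullbacks of the `j i`, which are
`Spec (F ⊗ B i)` (`pullbackSpecIso`, pasting of pullbacks).  These are integral, and both contain the image of
`Spec L → Z` (given by `θ`; use `hg` to see that the two maps `Spec L → Spec (F ⊗ B i) → Z` agree), so `Z` is irreducible
and reduced.  Smoothness is local on the source (`HasRingHomProperty.iff_of_source_openCover`, `HasRingHomProperty.Spec_iff`,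
`IsZariskiLocalAtSource`).  For the function field use `functionField_isFractionRing_of_isAffineOpen` or the isomorphism of stalks
at the generic point along the open immersion, and `IsLocalization.algEquiv`-type uniqueness.
-/

namespace PR0

open AlgebraicGeometry CategoryTheory TensorProduct

universe u

/-- A scheme over `R` covered by two affine charts which agree on `Spec B₂`. -/
structure TwoCh {R : Type u} [CommRing R] {Y : Scheme.{u}} (π : Y ⟶ Spec (CommRingCat.of R))
    (B : Fin 2 → Type u) [∀ i, CommRing (B i)] [∀ i, Algebra R (B i)] {B₂ : Type u} [CommRing B₂]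
    (g : ∀ i, B i →+* B₂) (j : ∀ i, Spec (CommRingCat.of (B i)) ⟶ Y) : Prop where
  opn : ∀ i, IsOpenImmersion (j i)
  ovr : ∀ i, j i ≫ π = Spec.map (CommRingCat.ofHom (algebraMap R (B i)))
  cov : ∀ z : Y, ∃ i, z ∈ Set.range (j i)
  hg : Spec.map (CommRingCat.ofHom (g 0)) ≫ j 0 = Spec.map (CommRingCat.ofHom (g 1)) ≫ j 1

variable {R : Type u} [CommRing R] {Y : Scheme.{u}} {π : Y ⟶ Spec (CommRingCat.of R)}
  {B : Fin 2 → Type u} [∀ i, CommRing (B i)] [∀ i, Algebra R (B i)] {B₂ : Type u} [CommRing B₂]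
  {g : ∀ i, B i →+* B₂} {j : ∀ i, Spec (CommRingCat.of (B i)) ⟶ Y}

/-- The cover given by two open immersions. -/
noncomputable def SchF_cover {Z : Scheme.{u}} {X : Fin 2 → Scheme.{u}} (u : ∀ i, X i ⟶ Z)
    (ho : ∀ i, IsOpenImmersion (u i)) (hc : ∀ z : Z, ∃ i, z ∈ Set.range (u i)) : Z.OpenCover :=
  Scheme.Cover.mkOfCovers (P := @IsOpenImmersion) (Fin 2) X u
    (fun x => by
      obtain ⟨i, y, hy⟩ := hc x
      exact ⟨i, y, hy⟩) ho

theorem SchF_closedPoint {T L : Type u} [CommRing T] [IsDomain T] [Field L] (e : T →+* L)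
    (he : Function.Injective e) :
    (Spec.map (CommRingCat.ofHom e) : Spec (CommRingCat.of L) ⟶ Spec (CommRingCat.of T))
      (IsLocalRing.closedPoint L) = genericPoint (Spec (CommRingCat.of T)) := by
  rw [genericPoint_eq_bot_of_affine]
  apply PrimeSpectrum.ext
  change Ideal.comap e (IsLocalRing.maximalIdeal L) = ⊥
  rw [IsLocalRing.maximalIdeal_eq_bot, Ideal.comap_bot_of_injective e he]

theorem SchF_integral {Z : Scheme.{u}} {T : Fin 2 → Type u} [∀ i, CommRing (T i)] {L : Type u} [Field L]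
    (u : ∀ i, Spec (CommRingCat.of (T i)) ⟶ Z) (ho : ∀ i, IsOpenImmersion (u i))
    (hc : ∀ z : Z, ∃ i, z ∈ Set.range (u i)) (e : ∀ i, T i →+* L) (he : ∀ i, Function.Injective (e i))
    (hu : Spec.map (CommRingCat.ofHom (e 0)) ≫ u 0 = Spec.map (CommRingCat.ofHom (e 1)) ≫ u 1) :
    IsIntegral Z := by
  have hd : ∀ i, IsDomain (T i) := fun i => (he i).isDomain (e i)
  have hred : IsReduced Z := by
    have : ∀ i, IsReduced ((SchF_cover u ho hc).X i) := fun i => by
      have := hd i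
      exact inferInstanceAs (IsReduced (Spec (CommRingCat.of (T i))))
    exact IsReduced.of_openCover Z (SchF_cover u ho hc)
  let η : Z := (Spec.map (CommRingCat.ofHom (e 0)) ≫ u 0) (IsLocalRing.closedPoint L)
  have hη : ∀ i, u i (genericPoint (Spec (CommRingCat.of (T i)))) = η := by
    intro i
    have := hd i
    rw [← SchF_closedPoint (e i) (he i), ← Scheme.Hom.comp_apply]
    fin_cases i
    · rfl
    · exact congrArg (fun t : Spec (CommRingCat.of L) ⟶ Z => t (IsLocalRing.closedPoint L)) hu.symm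
  have hgen : IsGenericPoint η Set.univ := by
    rw [isGenericPoint_iff_specializes]
    intro z
    refine ⟨fun _ => trivial, fun _ => ?_⟩
    obtain ⟨i, y, rfl⟩ := hc z
    have := hd i
    rw [← hη i]
    exact ((genericPoint_spec _).specializes trivial).map (u i).continuous
  have hirr : IrreducibleSpace Z := by
    rw [irreducibleSpace_def]
    exact hgen.isIrreducible
  exact isIntegral_of_irreducibleSpace_of_isReduced Z

theorem SchF_germ {Z : Scheme.{u}} {F L : CommRingCat.{u}} [IsLocalRing L] (t : Spec L ⟶ Z)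
    (f : Z ⟶ Spec F) (φ : F ⟶ L) (h : t ≫ f = Spec.map φ) :
    (Scheme.ΓSpecIso F).inv ≫ f.appTop ≫ Z.presheaf.germ ⊤ _ trivial ≫ Scheme.stalkClosedPointTo t = φ := by
  have h1 : ∀ s : Spec L ⟶ Spec F, s = Spec.map φ →
      (Spec F).presheaf.germ ⊤ _ trivial ≫ Scheme.stalkClosedPointTo s = (Scheme.ΓSpecIso F).hom ≫ φ := by
    intro s hs
    subst hs
    exact Scheme.germ_stalkClosedPointTo_Spec φ
  have h2 := h1 _ h
  rw [Scheme.stalkClosedPointTo_comp] at h2
  rw [Iso.inv_comp_eq, ← h2]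
  have h3 := Scheme.Hom.germ_stalkMap f ⊤ (t (IsLocalRing.closedPoint L)) trivial
  have h4 := congrArg (fun x => x ≫ Scheme.stalkClosedPointTo t) h3
  exact ((Category.assoc _ _ _).symm.trans h4.symm).trans (Category.assoc _ _ _)

theorem SchF_surj {T L : Type u} [CommRing T] [Field L] (e : T →+* L)
    (hf : ∀ f : L, ∃ a s, e s ≠ 0 ∧ f * e s = e a) {K : Type u} [Field K] (Φ : K →+* L)
    (h : ∀ a, ∃ k, Φ k = e a) : Function.Surjective Φ := by
  intro f
  obtain ⟨a, s, hs, hfs⟩ := hf f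
  obtain ⟨k, hk⟩ := h a
  obtain ⟨l, hl⟩ := h s
  refine ⟨k / l, ?_⟩
  rw [map_div₀, hk, hl, ← hfs, mul_div_assoc, div_self hs, mul_one]

theorem SchF_field {F T L : Type u} [Field F] [CommRing T] [Field L] [Algebra F T] [Algebra F L]
    (C : Curve F) (u : Spec (CommRingCat.of T) ⟶ C.X) [IsOpenImmersion u]
    (hu : u ≫ C.f = Spec.map (CommRingCat.ofHom (algebraMap F T))) (e : T →ₐ[F] L)
    (he : Function.Injective e) (hf : ∀ f : L, ∃ a s, e s ≠ 0 ∧ f * e s = e a) :
    Nonempty (C.L ≃ₐ[F] L) := by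
  have hd : IsDomain T := he.isDomain (e : T →+* L)
  let s : Spec (CommRingCat.of L) ⟶ Spec (CommRingCat.of T) := Spec.map (CommRingCat.ofHom (e : T →+* L))
  have hs : s (IsLocalRing.closedPoint L) = genericPoint (Spec (CommRingCat.of T)) :=
    SchF_closedPoint (e : T →+* L) he
  have hη : (s ≫ u) (IsLocalRing.closedPoint L) = genericPoint C.X := by
    rw [Scheme.Hom.comp_apply, hs, genericPoint_eq_of_isOpenImmersion u]
  have hsp : (s ≫ u) (IsLocalRing.closedPoint L) ⤳ genericPoint C.X := by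
    rw [hη]
  let Φ : C.X.functionField ⟶ CommRingCat.of L :=
    C.X.presheaf.stalkSpecializes hsp ≫ Scheme.stalkClosedPointTo (s ≫ u)
  let Ψ : C.L →+* L := Φ.hom
  have hcomm : ∀ c : F, Ψ (algebraMap F C.L c) = algebraMap F L c := by
    intro c
    have h1 := SchF_germ (s ≫ u) C.f (CommRingCat.ofHom (algebraMap F L)) (by
      rw [Category.assoc, hu, ← Spec.map_comp]
      congr 1
      ext x
      simp)
    have h2 : ((Scheme.ΓSpecIso (CommRingCat.of F)).inv ≫ C.f.appTop ≫
        C.X.presheaf.germ ⊤ (genericPoint C.X) trivial) ≫ Φ = CommRingCat.ofHom (algebraMap F L) := by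
      rw [← h1]
      simp only [Φ, Category.assoc]
      rw [TopCat.Presheaf.germ_stalkSpecializes_assoc]
    exact congrArg (fun t : CommRingCat.of F ⟶ CommRingCat.of L => t.hom c) h2
  have hsurj : Function.Surjective Ψ := by
    refine SchF_surj (e : T →+* L) hf Ψ fun a => ?_
    have h1 := Scheme.germ_stalkClosedPointTo_Spec (R := CommRingCat.of T) (S := CommRingCat.of L)
      (CommRingCat.ofHom (e : T →+* L))
    have h2 : Function.Surjective (u.stalkMap (s (IsLocalRing.closedPoint L))).hom :=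
      (ConcreteCategory.bijective_of_isIso (u.stalkMap (s (IsLocalRing.closedPoint L)))).2
    have h3 : Function.Surjective (C.X.presheaf.stalkSpecializes hsp).hom := by
      have : IsIso (C.X.presheaf.stalkSpecializes hsp) :=
        (C.X.presheaf.stalkCongr (Inseparable.of_eq hη.symm)).isIso_hom
      exact (ConcreteCategory.bijective_of_isIso (C.X.presheaf.stalkSpecializes hsp)).2
    obtain ⟨b, hb⟩ := h2 (((Spec (CommRingCat.of T)).presheaf.germ ⊤ (s (IsLocalRing.closedPoint L)) trivial).hom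
      ((Scheme.ΓSpecIso (CommRingCat.of T)).inv.hom a))
    obtain ⟨k, hk⟩ := h3 b
    refine ⟨k, ?_⟩
    have h4 : Ψ k = (Scheme.stalkClosedPointTo s).hom ((u.stalkMap (s (IsLocalRing.closedPoint L))).hom b) := by
      have := congrArg (fun t => t.hom b) (Scheme.stalkClosedPointTo_comp s u)
      rw [← hk] at this ⊢
      exact this
    rw [h4, hb]
    have h5 := congrArg (fun t => t.hom ((Scheme.ΓSpecIso (CommRingCat.of T)).inv.hom a)) h1
    simp only [CommRingCat.hom_comp, RingHom.comp_apply, CommRingCat.hom_ofHom] at h5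
    rw [h5]
    congr 1
    exact (Scheme.ΓSpecIso (CommRingCat.of T)).inv_hom_id_apply a
  exact ⟨AlgEquiv.ofRingEquiv (f := RingEquiv.ofBijective Ψ ⟨Ψ.injective, hsurj⟩) hcomm⟩

theorem TwoCh.smooth (h : TwoCh π B g j) (hs : ∀ i, Algebra.Smooth R (B i)) : Smooth π := by
  refine IsZariskiLocalAtSource.of_openCover (P := @Smooth) (SchF_cover j h.opn h.cov) fun i => ?_
  change Smooth (j i ≫ π)
  rw [h.ovr i, HasRingHomProperty.Spec_iff (P := @Smooth)]
  exact RingHom.smooth_algebraMap.2 (hs i)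

theorem TwoCh.exists_curve (h : TwoCh π B g j) [IsProper π] {F L : Type u} [Field F] [Field L]
    [Algebra R F] [Algebra F L] (e : ∀ i, F ⊗[R] B i →ₐ[F] L) (he : ∀ i, Function.Injective (e i))
    (hf : ∀ i (f : L), ∃ a s, e i s ≠ 0 ∧ f * e i s = e i a) (θ : B₂ →+* L)
    (hθ : ∀ i b, θ (g i b) = e i (1 ⊗ₜ b))
    (hs : ∀ i, RingHom.Locally (RingHom.IsStandardSmoothOfRelativeDimension 1)
      (algebraMap F (F ⊗[R] B i))) :
    ∃ (C : Curve F) (i : C.X ⟶ Y), IsPullback i C.f π (Spec.map (CommRingCat.ofHom (algebraMap R F))) ∧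
      Nonempty (C.L ≃ₐ[F] L) := by
  let b : Spec (CommRingCat.of F) ⟶ Spec (CommRingCat.of R) := Spec.map (CommRingCat.ofHom (algebraMap R F))
  let l : ∀ i, Spec (CommRingCat.of (F ⊗[R] B i)) ⟶ Spec (CommRingCat.of F) := fun i =>
    Spec.map (CommRingCat.ofHom (S := F ⊗[R] B i) Algebra.TensorProduct.includeLeftRingHom)
  let r : ∀ i, Spec (CommRingCat.of (F ⊗[R] B i)) ⟶ Spec (CommRingCat.of (B i)) := fun i =>
    Spec.map (CommRingCat.ofHom (S := F ⊗[R] B i) Algebra.TensorProduct.includeRight.toRingHom)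
  have sq : ∀ i, IsPullback (l i) (r i) b (j i ≫ π) := fun i => by
    rw [h.ovr i]
    exact isPullback_SpecMap_of_isPushout _ _ _ _ (CommRingCat.isPushout_tensorProduct R F (B i))
  let u : ∀ i, Spec (CommRingCat.of (F ⊗[R] B i)) ⟶ Limits.pullback π b := fun i =>
    Limits.pullback.lift (r i ≫ j i) (l i) (by rw [Category.assoc]; exact (sq i).w.symm)
  have hu1 : ∀ i, u i ≫ Limits.pullback.fst π b = r i ≫ j i := fun i => Limits.pullback.lift_fst _ _ _
  have hu2 : ∀ i, u i ≫ Limits.pullback.snd π b = l i := fun i => Limits.pullback.lift_snd _ _ _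
  have sq2 : ∀ i, IsPullback (u i) (r i) (Limits.pullback.fst π b) (j i) := fun i =>
    IsPullback.of_right (h₁₂ := Limits.pullback.snd π b) (v₁₃ := b) (h₂₂ := π)
      (by rw [hu2 i]; exact sq i) (hu1 i) (IsPullback.of_hasPullback π b).flip
  have ho : ∀ i, IsOpenImmersion (u i) := fun i =>
    MorphismProperty.of_isPullback (P := @IsOpenImmersion) (sq2 i).flip (h.opn i)
  have hc : ∀ z : ↥(Limits.pullback π b : Scheme.{u}), ∃ i, z ∈ Set.range (u i) := fun z => by
    obtain ⟨i, y, hy⟩ := h.cov (Limits.pullback.fst π b z)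
    obtain ⟨p, hp, -⟩ := Scheme.exists_preimage_of_isPullback (sq2 i) z y hy.symm
    exact ⟨i, p, hp⟩
  have hl : ∀ i, Spec.map (CommRingCat.ofHom (e i : F ⊗[R] B i →+* L)) ≫ l i =
      Spec.map (CommRingCat.ofHom (algebraMap F L)) := fun i => by
    rw [← Spec.map_comp]
    congr 1
    ext x
    exact (e i).commutes x
  have hr : ∀ i, Spec.map (CommRingCat.ofHom (e i : F ⊗[R] B i →+* L)) ≫ r i =
      Spec.map (CommRingCat.ofHom θ) ≫ Spec.map (CommRingCat.ofHom (g i)) := fun i => by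
    rw [← Spec.map_comp, ← Spec.map_comp]
    congr 1
    ext x
    exact (hθ i x).symm
  have hu : Spec.map (CommRingCat.ofHom (e 0 : F ⊗[R] B 0 →+* L)) ≫ u 0 =
      Spec.map (CommRingCat.ofHom (e 1 : F ⊗[R] B 1 →+* L)) ≫ u 1 := by
    apply Limits.pullback.hom_ext
    · rw [Category.assoc, Category.assoc, hu1, hu1, ← Category.assoc, ← Category.assoc, hr, hr,
        Category.assoc, Category.assoc, h.hg]
    · rw [Category.assoc, Category.assoc, hu2, hu2, hl, hl]
  have hint : IsIntegral (Limits.pullback π b) :=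
    SchF_integral u ho hc (fun i => (e i : F ⊗[R] B i →+* L)) he hu
  have hsm : SmoothOfRelativeDimension 1 (Limits.pullback.snd π b) := by
    refine IsZariskiLocalAtSource.of_openCover (P := @SmoothOfRelativeDimension 1)
      (SchF_cover u ho hc) fun i => ?_
    change SmoothOfRelativeDimension 1 (u i ≫ Limits.pullback.snd π b)
    rw [hu2 i, HasRingHomProperty.Spec_iff (P := @SmoothOfRelativeDimension 1)]
    exact hs i
  let C : Curve F := ⟨Limits.pullback π b, Limits.pullback.snd π b, hint, inferInstance, hsm⟩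
  refine ⟨C, Limits.pullback.fst π b, IsPullback.of_hasPullback π b, ?_⟩
  have := ho 0
  exact SchF_field C (u 0) (hu2 0) (e 0) (he 0) (hf 0)

end PR0
end

-- merged part: Pool.Agent.Work.MP_da2620_ag.SchD
section
/-!
# The projective model of a chart point

Let `G ⊆ (LT ι R)[X]` be the subalgebra of polynomials whose `n`-th coefficient lies in `lev A n`, graded by
`𝒢 n = {monomial n a}`.  `𝒢 0 ≃ R` (`IsChart.inj`, `pole_zero_iff`; constants embed as `ι` is nonempty).  `G` is of finite type over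
`𝒢 0`: every `lev A n` is a finitely generated module if `R` is Noetherian, in general use only the generators `monomial 1 1`,
`monomial 1 x` and `monomial m a` for `a` in a finite spanning set of `lev A m` ... if small levels are not finitely generated replace
them: take for `G` the polynomials with `n`-th coefficient in `V n`, where `V n = lev A n` for `n ≥ m` and `V n` is the span of
`1, x, ..., x ^ n` for `n < m` (`lev_fg`, `lev_succ`).  So `Proj 𝒢` is proper over `R`.  With `f i = monomial 1 (uf i)`, the irrelevant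
ideal is in the radical of `(f 0, f 1)` (`lev_succ`; `Proj.iSup_basicOpen_eq_top`), `Away 𝒢 (f i) ≃ AF A hx i` by
`a X ^ n / (f i) ^ n ↦ a (uf i) ^ (-n)` (`HomogeneousLocalization.Away`, `val`, `IsLocalization.lift` of the evaluation `X ↦ 1`), and the same
map on `Away 𝒢 (f 0 * f 1)` lands in `AG`; use `awayι`, `awayι_toSpecZero`, `SpecMap_awayMap_awayι`.
-/

namespace PR0

open AlgebraicGeometry CategoryTheory

universe u

section abstract

open HomogeneousLocalization

variable {R G S : Type u} [CommRing R] [CommRing G] [CommRing S] [Algebra R G] [Algebra R S]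
  (𝒢 : ℕ → Submodule R G) [GradedAlgebra 𝒢] (ε : G →ₐ[R] S)

/-- Evaluation of homogeneous fractions. -/
noncomputable def SchD_ev {f : G} (hu : IsUnit (ε f)) : Away 𝒢 f →+* S :=
  (IsLocalization.Away.lift (S := Localization.Away f) (g := (ε : G →+* S)) f hu).comp
    (algebraMap (Away 𝒢 f) (Localization.Away f))

theorem SchD_ev_mk {f : G} (hu : IsUnit (ε f)) {d : ℕ} (hf : f ∈ 𝒢 d) (n : ℕ) (a : G)
    (ha : a ∈ 𝒢 (n • d)) : ε a = ε f ^ n * SchD_ev 𝒢 ε hu (Away.mk 𝒢 hf n a ha) := by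
  rw [← map_pow]
  refine (IsLocalization.lift_mk'_spec (S := Localization.Away f) (g := (ε : G →+* S))
    (fun y : Submonoid.powers f => ?_) a _ ⟨f ^ n, n, rfl⟩).1 ?_
  · obtain ⟨_, k, rfl⟩ := y
    simpa using hu.pow k
  · rw [← Localization.mk_eq_mk', ← Away.val_mk 𝒢 n hf a ha]
    rfl

theorem SchD_ev_zero {f : G} (hu : IsUnit (ε f)) (a : 𝒢 0) :
    SchD_ev 𝒢 ε hu (fromZeroRingHom 𝒢 _ a) = ε a :=
  IsLocalization.Away.lift_eq (S := Localization.Away f) (g := (ε : G →+* S)) f hu a.1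

theorem SchD_ev_map {f g x : G} (hu : IsUnit (ε f)) (hx' : IsUnit (ε x)) {d e : ℕ} (hf : f ∈ 𝒢 d)
    (hg : g ∈ 𝒢 e) (hx : x = f * g) (z : Away 𝒢 f) :
    SchD_ev 𝒢 ε hx' (awayMap 𝒢 hg hx z) = SchD_ev 𝒢 ε hu z := by
  obtain ⟨n, a, ha, rfl⟩ := Away.mk_surjective 𝒢 hf z
  rw [awayMap_mk]
  refine (hx'.pow n).mul_left_cancel ?_
  rw [← SchD_ev_mk, map_mul, SchD_ev_mk 𝒢 ε hu hf n a ha, hx, map_mul, map_pow]
  ring

theorem SchD_proj [Algebra.FiniteType R G] (hinj : ∀ n, ∀ a ∈ 𝒢 n, ε a = 0 → a = 0)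
    (h0 : ∀ a ∈ 𝒢 0, ∃ c, algebraMap R G c = a) (f : Fin 2 → G) (hf : ∀ i, f i ∈ 𝒢 1)
    (hu : ∀ i, IsUnit (ε (f i))) (m : ℕ)
    (hrad : ∀ n, m ≤ n → ∀ a ∈ 𝒢 (n + 1), ∃ b c, a = f 0 * b + f 1 * c)
    (B : Fin 2 → Subalgebra R S)
    (hB : ∀ i F, F ∈ B i ↔ ∃ n, ∃ a ∈ 𝒢 n, ε a = ε (f i) ^ n * F) (B₂ : Subalgebra R S)
    (hle : ∀ i, B i ≤ B₂)
    (hB₂ : ∀ (F : S) (n n' : ℕ), ∀ a ∈ 𝒢 n', ε a = ε (f 0 * f 1) ^ n * F → F ∈ B₂) :
    ∃ (Y : Scheme.{u}) (π : Y ⟶ Spec (CommRingCat.of R))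
      (j : ∀ i, Spec (CommRingCat.of (B i)) ⟶ Y), IsProper π ∧
      TwoCh π (fun i => B i) (fun i => (Subalgebra.inclusion (hle i)).toRingHom) j := by
  have hm : ∀ i z, SchD_ev 𝒢 ε (hu i) z ∈ B i := fun i z => by
    obtain ⟨n, a, ha, rfl⟩ := Away.mk_surjective 𝒢 (hf i) z
    exact (hB i _).2 ⟨n, a, by simpa using ha, SchD_ev_mk 𝒢 ε (hu i) (hf i) n a ha⟩
  have hbij : ∀ i, Function.Bijective ((SchD_ev 𝒢 ε (hu i)).codRestrict (B i) (hm i)) := fun i => by
    refine ⟨(injective_iff_map_eq_zero _).2 fun z hz => ?_, fun F => ?_⟩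
    · obtain ⟨n, a, ha, rfl⟩ := Away.mk_surjective 𝒢 (hf i) z
      have h1 := SchD_ev_mk 𝒢 ε (hu i) (hf i) n a ha
      have h2 : SchD_ev 𝒢 ε (hu i) (Away.mk 𝒢 (hf i) n a ha) = 0 := congrArg Subtype.val hz
      rw [h2, mul_zero] at h1
      obtain rfl := hinj _ a ha h1
      ext
      rw [Away.val_mk, val_zero, Localization.mk_zero]
    · obtain ⟨n, a, ha, h1⟩ := (hB i F).1 F.2
      have ha' : a ∈ 𝒢 (n • 1) := by simpa using ha
      refine ⟨Away.mk 𝒢 (hf i) n a ha', Subtype.ext (((hu i).pow n).mul_left_cancel ?_)⟩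
      exact (SchD_ev_mk 𝒢 ε (hu i) (hf i) n a ha').symm.trans h1
  have hu2 : IsUnit (ε (f 0 * f 1)) := by
    rw [map_mul]
    exact (hu 0).mul (hu 1)
  have hm2 : ∀ z, SchD_ev 𝒢 ε hu2 z ∈ B₂ := fun z => by
    have hx := SetLike.mul_mem_graded (hf 0) (hf 1)
    obtain ⟨n, a, ha, rfl⟩ := Away.mk_surjective 𝒢 hx z
    exact hB₂ _ n _ a ha (SchD_ev_mk 𝒢 ε hu2 hx n a ha)
  have : IsScalarTower R (𝒢 0) G := ⟨fun c a b => smul_mul_assoc c a.1 b⟩
  have : Algebra.FiniteType (𝒢 0) G := .of_restrictScalars_finiteType R _ _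
  have : IsClosedImmersion (Spec.map (CommRingCat.ofHom (algebraMap R (𝒢 0)))) :=
    IsClosedImmersion.spec_of_surjective _ fun a => by
      obtain ⟨c, hc⟩ := h0 a.1 a.2
      exact ⟨c, Subtype.ext hc⟩
  have hiso : ∀ i, IsIso (CommRingCat.ofHom ((SchD_ev 𝒢 ε (hu i)).codRestrict (B i) (hm i))) :=
    fun i => (RingEquiv.ofBijective _ (hbij i)).toCommRingCatIso.isIso_hom
  refine ⟨Proj 𝒢, Proj.toSpecZero 𝒢 ≫ Spec.map (CommRingCat.ofHom (algebraMap R (𝒢 0))),
    fun i => Spec.map (CommRingCat.ofHom ((SchD_ev 𝒢 ε (hu i)).codRestrict (B i) (hm i))) ≫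
      Proj.awayι 𝒢 (f i) (hf i) one_pos, inferInstance, fun i => inferInstance, fun i => ?_,
    fun z => ?_, ?_⟩
  · rw [Category.assoc, Proj.awayι_toSpecZero_assoc, ← Spec.map_comp, ← Spec.map_comp]
    congr 1
    ext c
    exact (SchD_ev_zero 𝒢 ε (hu i) (algebraMap R (𝒢 0) c)).trans (ε.commutes c)
  · have h1 : ∃ i, z ∈ Proj.basicOpen 𝒢 (f i) := by
      by_contra hne
      have h2 : ∀ i, f i ∈ z.asHomogeneousIdeal := fun i => by
        by_contra h3
        exact hne ⟨i, h3⟩
      refine z.not_irrelevant_le ((HomogeneousIdeal.irrelevant_le 𝒢).2 fun d hd a ha => ?_)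
      have h3 : a ^ (m + 1) ∈ 𝒢 ((m + 1) * d - 1 + 1) := by
        rw [Nat.sub_add_cancel (Nat.mul_pos m.succ_pos hd)]
        exact SetLike.pow_mem_graded (A := 𝒢) (m + 1) ha
      obtain ⟨b, c, h4⟩ := hrad _ (Nat.le_sub_one_of_lt
        ((Nat.lt_succ_self m).trans_le (Nat.le_mul_of_pos_right _ hd))) _ h3
      refine z.isPrime.mem_of_pow_mem (m + 1) ?_
      rw [h4]
      exact add_mem (Ideal.mul_mem_right _ _ (h2 0)) (Ideal.mul_mem_right _ _ (h2 1))
    obtain ⟨i, hi⟩ := h1
    rw [← Proj.opensRange_awayι 𝒢 (f i) (hf i) one_pos] at hi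
    refine ⟨i, ?_⟩
    change z ∈ Scheme.Hom.opensRange _
    rwa [Scheme.Hom.opensRange_comp_of_isIso]
  · have key : ∀ (i k : Fin 2) (hx : f 0 * f 1 = f i * f k),
        Spec.map (CommRingCat.ofHom (Subalgebra.inclusion (hle i)).toRingHom) ≫
          Spec.map (CommRingCat.ofHom ((SchD_ev 𝒢 ε (hu i)).codRestrict (B i) (hm i))) ≫
            Proj.awayι 𝒢 (f i) (hf i) one_pos =
        Spec.map (CommRingCat.ofHom ((SchD_ev 𝒢 ε hu2).codRestrict B₂ hm2)) ≫
          Proj.awayι 𝒢 (f 0 * f 1) (SetLike.mul_mem_graded (hf 0) (hf 1)) (by norm_num) :=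
      fun i k hx => by
        rw [← Proj.SpecMap_awayMap_awayι 𝒢 (hf i) one_pos (hf k) hx, ← Spec.map_comp_assoc,
          ← Spec.map_comp_assoc]
        congr 2
        ext z
        exact (SchD_ev_map 𝒢 ε (hu i) hu2 (hf i) (hf k) hx z).symm
    rw [key 0 1 rfl, key 1 0 (mul_comm _ _)]

end abstract

section poly

open Polynomial

variable {R S : Type u} [CommRing R] [CommRing S] [Algebra R S] (G : Subalgebra R S[X])

/-- The monomials of a given degree. -/
def SchD_gr (n : ℕ) : Submodule R G where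
  carrier := {p | ∃ a, p.1 = monomial n a}
  add_mem' := by
    rintro p q ⟨a, ha⟩ ⟨b, hb⟩
    exact ⟨a + b, by rw [Subalgebra.coe_add, ha, hb, map_add]⟩
  zero_mem' := ⟨0, by simp⟩
  smul_mem' := by
    rintro c p ⟨a, ha⟩
    exact ⟨c • a, by rw [Subalgebra.coe_smul, ha, smul_monomial]⟩

instance SchD_monoid : SetLike.GradedMonoid (SchD_gr G) where
  one_mem := ⟨1, rfl⟩
  mul_mem := by
    rintro i j p q ⟨a, ha⟩ ⟨b, hb⟩
    exact ⟨a * b, by rw [Subalgebra.coe_mul, ha, hb, monomial_mul_monomial]⟩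

theorem SchD_internal (hG : ∀ p ∈ G, ∀ n, monomial n (p.coeff n) ∈ G) :
    DirectSum.IsInternal (SchD_gr G) := by
  refine ⟨fun x y hxy => ?_, fun p => ?_⟩
  · have key : ∀ (x : DirectSum ℕ fun n => SchD_gr G n) (n : ℕ),
        (DirectSum.coeAddMonoidHom (SchD_gr G) x).1.coeff n = (x n).1.1.coeff n := fun x n => by
      induction x using DirectSum.induction_on with
      | zero => simp
      | of i y =>
        rw [DirectSum.coeAddMonoidHom_of]
        rcases eq_or_ne i n with rfl | hne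
        · rw [DirectSum.of_eq_same]
        · obtain ⟨a, ha⟩ := y.2
          rw [DirectSum.of_eq_of_ne _ _ _ hne.symm, ha, coeff_monomial, if_neg hne]
          simp
      | add y z hy hz =>
        rw [map_add, Subalgebra.coe_add, coeff_add, hy, hz]
        simp
    ext n : 1
    obtain ⟨a, ha⟩ := (x n).2
    obtain ⟨b, hb⟩ := (y n).2
    have h1 := (key x n).symm.trans (hxy ▸ key y n)
    rw [ha, hb, coeff_monomial, coeff_monomial, if_pos rfl, if_pos rfl] at h1
    exact Subtype.ext (Subtype.ext (by rw [ha, hb, h1]))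
  · refine ⟨∑ n ∈ p.1.support, DirectSum.of (fun n => SchD_gr G n) n
      ⟨⟨monomial n (p.1.coeff n), hG _ p.2 n⟩, _, rfl⟩, Subtype.ext ?_⟩
    simp only [map_sum, DirectSum.coeAddMonoidHom_of, AddSubmonoidClass.coe_finsetSum]
    exact p.1.as_sum_support.symm

end poly

section lev

variable {ι : Type} {R : Type u} [CommRing R] {A : Subalgebra R (LT ι R)}

theorem SchD_mul {a b : LT ι R} {i j : ℕ} (ha : a ∈ lev A i) (hb : b ∈ lev A j) :
    a * b ∈ lev A (i + j : ℕ) :=
  ⟨mul_mem ha.1 hb.1, fun k => ((ha.2 k).mul (hb.2 k)).mono (by push_cast; omega)⟩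

theorem SchD_const (c : R) : algebraMap R (LT ι R) c ∈ lev A (0 : ℕ) :=
  ⟨algebraMap_mem A c, fun _ => LS.ge_algebraMap c⟩

theorem SchD_uf (hx : xx ι R ∈ A) (i : Fin 2) : uf ι R i ∈ lev A (1 : ℕ) := by
  fin_cases i
  · have h1 := SchD_const (A := A) 1
    rw [map_one] at h1
    exact ⟨h1.1, Chart_pole_mono h1.2 (by norm_num)⟩
  · exact ⟨hx, fun _ => LS.ge_T (-1)⟩

theorem SchD_pow (hx : xx ι R ∈ A) (i : Fin 2) (n : ℕ) : uf ι R i ^ n ∈ lev A n := by
  induction n with
  | zero => simpa using SchD_const (A := A) 1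
  | succ n ih => exact pow_succ (uf ι R i) n ▸ SchD_mul ih (SchD_uf hx i)

end lev

theorem IsChart.exists_proj {ι : Type} [Fintype ι] [DecidableEq ι] [Nonempty ι] {R : Type u}
    [CommRing R] {J : Finset (ι × ℕ)} {A : Subalgebra R (LT ι R)} (h : IsChart J A) :
    ∃ (Y : Scheme.{u}) (π : Y ⟶ Spec (CommRingCat.of R))
      (j : ∀ i, Spec (CommRingCat.of (AF A h.x_mem i)) ⟶ Y), IsProper π ∧
      TwoCh π (fun i => AF A h.x_mem i)
        (fun i => (Subalgebra.inclusion (AF_le h.x_mem i)).toRingHom) j := by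
  classical
  obtain ⟨n₀, hn₀⟩ := Chart_bound J
  obtain ⟨m, hm, s, hs⟩ := h.lev_fg (n₀ + 1)
  obtain ⟨T, hT⟩ : ∃ T : Set (Polynomial (LT ι R)), T = Set.range
      (fun i => Polynomial.monomial 1 (uf ι R i)) ∪ Polynomial.monomial m '' (s : Set (LT ι R)) :=
    ⟨_, rfl⟩
  have hfin : T.Finite := hT ▸ (Set.finite_range _).union (s.finite_toSet.image _)
  have hfT : ∀ i, Polynomial.monomial 1 (uf ι R i) ∈ Algebra.adjoin R T := fun i =>
    Algebra.subset_adjoin (hT ▸ Or.inl ⟨i, rfl⟩)
  have mono : ∀ (d : ℕ) (a : LT ι R), Polynomial.monomial d a ∈ Algebra.adjoin R T →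
      a ∈ lev A d → ∀ n, Polynomial.monomial n ((Polynomial.monomial d a).coeff n) ∈
        Algebra.adjoin R T ∧ (Polynomial.monomial d a).coeff n ∈ lev A n := fun d a h1 h2 n => by
    rw [Polynomial.coeff_monomial]
    split_ifs with e
    · exact e ▸ ⟨h1, h2⟩
    · exact ⟨by simp, zero_mem _⟩
  have ha : ∀ p ∈ Algebra.adjoin R T, ∀ n, Polynomial.monomial n (p.coeff n) ∈ Algebra.adjoin R T ∧
      p.coeff n ∈ lev A n := fun p hp => by
    induction hp using Algebra.adjoin_induction with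
    | mem p hp =>
      have hp' := Algebra.subset_adjoin (R := R) hp
      rw [hT] at hp
      rcases hp with ⟨i, rfl⟩ | ⟨a, ha, rfl⟩
      · exact mono 1 _ hp' (SchD_uf h.x_mem i)
      · exact mono m _ hp' (hs ▸ Submodule.subset_span ha)
    | algebraMap c => exact mono 0 _ (algebraMap_mem _ c) (SchD_const c)
    | add p q _ _ hp hq =>
      intro n
      rw [Polynomial.coeff_add, map_add]
      exact ⟨add_mem (hp n).1 (hq n).1, add_mem (hp n).2 (hq n).2⟩
    | mul p q _ _ hp hq =>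
      intro n
      rw [Polynomial.coeff_mul, map_sum]
      refine ⟨sum_mem fun c hc => ?_, sum_mem fun c hc => ?_⟩
      · rw [← Finset.HasAntidiagonal.mem_antidiagonal.1 hc, ← Polynomial.monomial_mul_monomial]
        exact mul_mem (hp _).1 (hq _).1
      · rw [← Finset.HasAntidiagonal.mem_antidiagonal.1 hc]
        exact SchD_mul (hp _).2 (hq _).2
  have ha' : ∀ (n : ℕ) (a : LT ι R), Polynomial.monomial n a ∈ Algebra.adjoin R T → a ∈ lev A n :=
    fun n a h1 => by simpa using (ha _ h1 n).2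
  have split : ∀ (n : ℕ) (a b : LT ι R), Polynomial.monomial (n + 1) (a + xx ι R * b) =
      Polynomial.monomial 1 (uf ι R 0) * Polynomial.monomial n a +
        Polynomial.monomial 1 (uf ι R 1) * Polynomial.monomial n b := fun n a b => by
    rw [Polynomial.monomial_mul_monomial, Polynomial.monomial_mul_monomial, add_comm 1 n, ← map_add]
    congr 2
    exact (one_mul a).symm
  have succ : ∀ n : ℕ, m ≤ n → ∀ F ∈ lev A (n + 1 : ℕ), ∃ a ∈ lev A n, ∃ b ∈ lev A n,
      F = a + xx ι R * b := fun n hn F hF =>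
    h.lev_succ (by omega) (fun ν hν => by have := hn₀ ν hν; omega) hF
  have hb : ∀ n : ℕ, m ≤ n → ∀ a ∈ lev A n, Polynomial.monomial n a ∈ Algebra.adjoin R T := by
    intro n hn
    induction n, hn using Nat.le_induction with
    | base =>
      intro a ha
      rw [← hs] at ha
      induction ha using Submodule.span_induction with
      | mem a ha => exact Algebra.subset_adjoin (hT ▸ Or.inr ⟨a, ha, rfl⟩)
      | zero => simp
      | add a b _ _ ha hb => exact map_add (Polynomial.monomial m) a b ▸ add_mem ha hb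
      | smul c a _ ha => exact Polynomial.smul_monomial c m a ▸ Subalgebra.smul_mem _ ha c
    | succ n hn ih =>
      intro F hF
      obtain ⟨a, ha, b, hb, rfl⟩ := succ n hn F hF
      rw [split]
      exact add_mem (mul_mem (hfT 0) (ih a ha)) (mul_mem (hfT 1) (ih b hb))
  have : Algebra.FiniteType R (Algebra.adjoin R T) := .adjoin_of_finite hfin
  let _ : GradedAlgebra (SchD_gr (Algebra.adjoin R T)) :=
    { toGradedMonoid := SchD_monoid _
      toDecomposition := (SchD_internal _ fun p hp n => (ha p hp n).1).chooseDecomposition }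
  obtain ⟨ε, hε⟩ : ∃ ε : Algebra.adjoin R T →ₐ[R] LT ι R, ∀ p, ε p = p.1.eval 1 :=
    ⟨((Polynomial.aeval (1 : LT ι R)).restrictScalars R).comp (Algebra.adjoin R T).val,
      fun p => Polynomial.coe_aeval_eq_eval (1 : LT ι R) ▸ rfl⟩
  have hε' : ∀ (p : Algebra.adjoin R T) (n : ℕ) (a : LT ι R), p.1 = Polynomial.monomial n a →
      ε p = a := fun p n a hp => by
    rw [hε, hp, Polynomial.eval_monomial, one_pow, mul_one]
  have hlev : ∀ (n : ℕ), ∀ p ∈ SchD_gr (Algebra.adjoin R T) n, ε p ∈ lev A n := by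
    rintro n p ⟨a, hp⟩
    rw [hε' p n a hp]
    exact ha' n a (hp ▸ p.2)
  have hεf : ∀ i, ε ⟨_, hfT i⟩ = uf ι R i := fun i => hε' _ 1 _ rfl
  refine SchD_proj (SchD_gr (Algebra.adjoin R T)) ε ?_ ?_ (fun i => ⟨_, hfT i⟩) (fun i => ⟨_, rfl⟩)
    (fun i => by rw [hεf]; exact isUnit_uf i) m ?_ _ (fun i F => ?_) _ _ fun F n n' p hp e => ?_
  · rintro n p ⟨a, hp⟩ e
    rw [hε' p n a hp] at e
    exact Subtype.ext (by rw [hp, e, map_zero]; rfl)
  · rintro p ⟨a, hp⟩
    have h1 := ha' 0 a (hp ▸ p.2)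
    obtain ⟨c, rfl⟩ := h.inj a h1.1 fun μ _ => pole_zero_iff.1 h1.2 μ
    exact ⟨c, Subtype.ext hp.symm⟩
  · rintro n hn p ⟨F, hp⟩
    obtain ⟨a, h1, b, h2, rfl⟩ := succ n hn F (ha' _ F (hp ▸ p.2))
    exact ⟨⟨_, hb n hn a h1⟩, ⟨_, hb n hn b h2⟩, Subtype.ext (hp.trans (split n a b))⟩
  · rw [hεf]
    constructor
    · rintro ⟨n, hn⟩
      have h1 := SchD_mul (SchD_pow h.x_mem i m) hn
      rw [← mul_assoc, ← pow_add] at h1
      exact ⟨m + n, ⟨_, hb _ (Nat.le_add_right m n) _ h1⟩, ⟨_, rfl⟩, hε' _ _ _ rfl⟩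
    · rintro ⟨n, p, hp, e⟩
      exact ⟨n, e ▸ hlev n p hp⟩
  · rw [map_mul, hεf, hεf] at e
    have h1 := (hlev n' p hp).1
    rw [e] at h1
    exact ⟨n, by simpa [uf] using h1⟩

end PR0
end

-- merged part: Pool.Agent.Work.MP_da2620_ag.SchE
section
/-!
# Smoothness

`smooth_regOut`: `B = regOut (poles x)` is of finite type (`finite_intCl`).  A maximal ideal is the kernel of evaluation at a
place `P` (`exists_place_of_hom`); choose `u ∈ B` with `ord_P u = 1`.  Then `K[U] → B` is injective, so flat (torsion free over a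
PID), of finite presentation, and unramified at the maximal ideal (`Algebra.isUnramifiedAt_iff_map_eq`: the maximal ideal of the
local ring is generated by `u`, `exists_den_place`).  By `IsEtaleAt.of_isUnramifiedAt_of_flat` some `B[1/s]` is etale over `K[U]`,
so standard smooth of relative dimension `0` (`Etale.iff_isStandardSmoothOfRelativeDimension_zero`); compose with
`K → K[U]` (`MvPolynomial (Fin 1) K`).  See `RingHom.locally_iff_exists`, `locally_of_exists`.
`CD.exists_af`: `AF d.alg _ 1` is the image of `regOut (poles x⁻¹)` (`ge_iff`, `mem_Lsp`).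
`smooth_AF`: `Algebra.Smooth.of_formallySmooth_fiber`.  For a prime `𝔮` of `O` the residue field is algebraically closed; the
coordinates of the base change of `𝒜` specialise to those of `bc r 𝒜` (they lie in `O / 𝔮`, through which `r` factors), so it is
smooth (`Sm.of_spc`, `exists_cd_of_sm`); use `exists_tens`.
-/

namespace PR0

universe u

open Polynomial in
theorem SchE_poly (R : Type u) [CommRing R] :
    Algebra.IsStandardSmoothOfRelativeDimension 1 R R[X] := by
  let P : Algebra.SubmersivePresentation R (MvPolynomial Unit R) Unit Empty :=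
    { toGenerators := Algebra.Generators.mvPolynomial R Unit
      relation := Empty.elim
      span_range_relation_eq_ker := by
        rw [Algebra.Generators.ker_mvPolynomial, Set.range_eq_empty, Ideal.span_empty]
      map := Empty.elim
      map_inj := fun a => a.elim
      jacobian_isUnit := by
        rw [Algebra.PreSubmersivePresentation.jacobian_eq_jacobiMatrix_det, Matrix.det_isEmpty,
          map_one]
        exact isUnit_one }
  have := P.isStandardSmoothOfRelativeDimension (n := 1) (by simp [Algebra.Presentation.dimension])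
  exact .of_algEquiv 1 (MvPolynomial.uniqueAlgEquiv R Unit)

open Polynomial in
theorem SchE_loc {K B : Type u} [Field K] [CommRing B] [IsDomain B] [Algebra K B]
    [Algebra.FiniteType K B] (σ : B →ₐ[K] K) {u : B} (hu : Transcendental K u) (h0 : σ u = 0)
    (h : ∀ f, σ f = 0 → ∃ s g, σ s ≠ 0 ∧ s * f = u * g) :
    ∃ s, σ s ≠ 0 ∧ Algebra.IsStandardSmoothOfRelativeDimension 1 K (Localization.Away s) := by
  let _ : Algebra K[X] B := (aeval u : K[X] →ₐ[K] B).toRingHom.toAlgebra
  have : IsScalarTower K K[X] B := .of_algebraMap_eq fun c => ((aeval u).commutes c).symm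
  have : Algebra.FiniteType K[X] B := .of_restrictScalars_finiteType K _ _
  have : Algebra.FinitePresentation K[X] B := Algebra.FinitePresentation.of_finiteType.1 this
  have : FaithfulSMul K[X] B :=
    (faithfulSMul_iff_algebraMap_injective _ _).2 (transcendental_iff_injective.1 hu)
  have hX : algebraMap K[X] B X = u := aeval_X u
  let q := RingHom.ker σ
  have : q.IsMaximal :=
    RingHom.ker_isMaximal_of_surjective σ fun c => ⟨algebraMap K B c, σ.commutes c⟩
  let p := q.under K[X]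
  let _ := Localization.AtPrime.algebraOfLiesOver p q
  have : Algebra.IsUnramifiedAt K[X] q := by
    refine (Algebra.isUnramifiedAt_iff_map_eq K[X] p q).2 ⟨⟨fun x => ?_⟩, le_antisymm ?_ ?_⟩
    · obtain ⟨b, rfl⟩ := q.algebraMap_residueField_surjective x
      have e : algebraMap B q.ResidueField b =
          algebraMap p.ResidueField q.ResidueField (algebraMap K[X] _ (C (σ b))) := by
        rw [← IsScalarTower.algebraMap_apply, IsScalarTower.algebraMap_apply K[X] B, ← sub_eq_zero,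
          ← map_sub, Ideal.algebraMap_residueField_eq_zero, RingHom.mem_ker, map_sub,
          ← Polynomial.algebraMap_eq, ← IsScalarTower.algebraMap_apply, σ.commutes]
        exact sub_self _
      rw [e]
      exact isSeparable_algebraMap _
    · rw [Ideal.map_le_iff_le_comap]
      intro a ha
      rw [Ideal.mem_comap, IsScalarTower.algebraMap_apply K[X] B,
        IsLocalization.AtPrime.to_map_mem_maximal_iff _ q]
      exact ha
    · rw [← Localization.AtPrime.map_eq_maximalIdeal, Ideal.map_le_iff_le_comap]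
      intro f hf
      obtain ⟨s, g, hs, e⟩ := h f hf
      have hs' : IsUnit (algebraMap B (Localization.AtPrime q) s) :=
        IsLocalization.map_units _ (⟨s, hs⟩ : q.primeCompl)
      rw [Ideal.mem_comap, ← Ideal.unit_mul_mem_iff_mem _ hs', ← map_mul, e, map_mul, ← hX,
        ← IsScalarTower.algebraMap_apply]
      refine Ideal.mul_mem_right _ _ (Ideal.mem_map_of_mem _ ?_)
      change σ (algebraMap K[X] B X) = 0
      rw [hX, h0]
  have := Algebra.IsEtaleAt.of_isUnramifiedAt_of_flat (R := K[X]) q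
  obtain ⟨s, hs, he⟩ := Algebra.exists_etale_of_isEtaleAt (R := K[X]) q
  have h1 := Algebra.Etale.iff_isStandardSmoothOfRelativeDimension_zero.1 he
  have h2 := SchE_poly K
  exact ⟨s, hs, Algebra.IsStandardSmoothOfRelativeDimension.trans 1 0 K K[X] _⟩

open Polynomial in
theorem SchE_closed {R K F : Type u} [CommRing R] [IsDomain R] [IsIntegrallyClosed R] [Field K]
    [IsAlgClosed K] [Algebra R K] [IsFractionRing R K] [Field F] (φ : R →+* F)
    (hφ : Function.Surjective φ) : IsAlgClosed F := by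
  refine .of_exists_root _ fun p hp hi => ?_
  obtain ⟨q, rfl, h1, h2⟩ := lifts_and_degree_eq_and_monic
    ((mem_lifts p).2 (map_surjective φ hφ p)) hp
  obtain ⟨x, hx⟩ := IsAlgClosed.exists_aeval_eq_zero K q (h1 ▸ (degree_pos_of_irreducible hi).ne')
  obtain ⟨y, rfl⟩ := IsIntegrallyClosed.isIntegral_iff.1 (⟨q, h2, hx⟩ : IsIntegral R x)
  rw [aeval_algebraMap_eq_zero_iff, coe_aeval_eq_eval] at hx
  exact ⟨φ y, by rw [eval_map, eval₂_at_apply, hx, map_zero]⟩

variable {K L : Type u} [Field K] [IsAlgClosed K] [Field L] [Algebra K L] [Fact (IsFF K L)]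
  {ι : Type} [Fintype ι] [DecidableEq ι] [Nonempty ι]

omit [IsAlgClosed K] [Fact (IsFF K L)] in
theorem SchE_adj (x : L) : Algebra.adjoin K {x} ≤ regOut (poles K x) :=
  Algebra.adjoin_le (Set.singleton_subset_iff.2 fun _ => not_not.1)

theorem SchE_ft {x : L} (hx : Transcendental K x) : Algebra.FiniteType K (regOut (poles K x)) := by
  classical
  obtain ⟨s, hs⟩ := finite_intCl hx
  refine (Subalgebra.fg_iff_finiteType _).1 ⟨insert x s, le_antisymm (Algebra.adjoin_le ?_) ?_⟩
  · rw [Finset.coe_insert, Set.insert_subset_iff]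
    exact ⟨fun _ => not_not.1, fun f hf => (hs f).2 (Submodule.subset_span hf)⟩
  · intro f hf
    replace hf := (hs f).1 hf
    induction hf using Submodule.span_induction with
    | mem y hy => exact Algebra.subset_adjoin (Finset.mem_insert_of_mem hy)
    | zero => exact zero_mem _
    | add y z _ _ h1 h2 => exact add_mem h1 h2
    | smul c y _ h1 =>
      exact mul_mem (Algebra.adjoin_mono (Set.singleton_subset_iff.2
        (Finset.mem_coe.2 (Finset.mem_insert_self x s))) c.2) h1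

theorem smooth_regOut {x : L} (hx : Transcendental K x) :
    RingHom.Locally (RingHom.IsStandardSmoothOfRelativeDimension 1)
      (algebraMap K (regOut (poles K x))) := by
  have := SchE_ft hx
  have hS := finite_poles (K := K) x
  have hne : (poles K x).Nonempty := Set.nonempty_iff_ne_empty.2 fun h => by
    obtain ⟨c, hc⟩ := const_of_regular (K := K) (f := x) fun P =>
      not_not.1 (Set.eq_empty_iff_forall_notMem.1 h P)
    exact transcendental_iff.1 hx ⟨c, hc.symm⟩
  rw [RingHom.locally_iff_span_eq_top]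
  by_contra hn
  obtain ⟨m, hm, hle⟩ := Ideal.exists_le_maximal _ hn
  let _ := Ideal.Quotient.field m
  have := finite_of_finite_type_of_isJacobsonRing K (regOut (poles K x) ⧸ m)
  let e := AlgEquiv.ofBijective (Algebra.ofId K (regOut (poles K x) ⧸ m))
    IsAlgClosed.algebraMap_bijective_of_isIntegral
  let σ : regOut (poles K x) →ₐ[K] K := e.symm.toAlgHom.comp (Ideal.Quotient.mkₐ K m)
  obtain ⟨P, ⟨hP, hσ⟩, -⟩ := exists_place_of_hom hS hne σ
  have h1 : P.Ge P.unif 1 := Or.inr P.ord_unif.ge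
  obtain ⟨s, hs, hs0, hu⟩ := exists_den_place hS hne hP (P.mem_iff.2 (h1.mono zero_le_one))
  obtain ⟨h2, h3⟩ := BC_unit (hs P hP) hs0
  have h4 := mul_ne_zero h2 P.unif_ne_zero
  have h5 : P.ord (s * P.unif) = 1 := by rw [P.ord_mul h2 P.unif_ne_zero, h3, P.ord_unif, zero_add]
  have h6 : Transcendental K (⟨_, hu⟩ : regOut (poles K x)) := by
    refine (transcendental_algebraMap_iff (A := L) Subtype.val_injective).1
      (transcendental_iff.2 ?_)
    rintro ⟨c, hc⟩
    have hc' : algebraMap K L c = s * P.unif := hc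
    rw [← hc', P.ord_const fun h => h4 (by rw [← hc', h, map_zero])] at h5
    exact zero_ne_one h5
  obtain ⟨t, ht, h7⟩ := SchE_loc σ h6
    ((hσ _).trans ((Place.val_eq_zero (hu P hP)).2 (Or.inr h5.ge))) fun f hf => by
      have h8 := rr_ge_div h4 ((Place.val_eq_zero (f.2 P hP)).1 ((hσ f).symm.trans hf))
      rw [h5, sub_self] at h8
      obtain ⟨s', k1, k2, k3⟩ := exists_den_place hS hne hP (P.mem_iff.2 h8)
      refine ⟨⟨s', k1⟩, ⟨_, k3⟩, (hσ _).trans_ne k2, Subtype.ext ?_⟩
      change s' * f = s * P.unif * (s' * (f * (s * P.unif)⁻¹))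
      rw [mul_comm (s * P.unif), mul_assoc s', inv_mul_cancel_right₀ h4]
  refine ht ?_
  have h9 : t ∈ m := hle (Ideal.subset_span (by
    rw [Set.mem_ofPred_eq, ← IsScalarTower.algebraMap_eq,
      RingHom.isStandardSmoothOfRelativeDimension_algebraMap]
    exact h7))
  change e.symm (Ideal.Quotient.mk m t) = 0
  rw [Ideal.Quotient.eq_zero_iff_mem.2 h9, map_zero]

theorem SchE_one (d : CD K L ι) (hx : xx ι K ∈ d.alg) :
    AF d.alg hx 1 = (regOut (poles K d.x⁻¹)).map d.exT := by
  have h0 : d.x ≠ 0 := fun h => d.transcendental (h ▸ isAlgebraic_zero)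
  have h1 : ∀ i, (d.pl i).Ge d.x⁻¹ 1 := fun i =>
    Or.inr (by rw [Place.ord_inv _ h0, d.ord_x, neg_neg])
  ext F
  constructor
  · rintro ⟨n, ⟨a, ha, e⟩, hp⟩
    have e' : d.exT a = xx ι K ^ n * F := e
    refine ⟨d.x⁻¹ ^ n * a, fun P hP => ?_, ?_⟩
    · by_cases h : P ∈ Set.range d.pl
      · obtain ⟨i, rfl⟩ := h
        have h2 : (d.pl i).Ge a (-n) := (d.ge_iff i _ _).2 (by
          rw [← d.exT_apply, e']
          exact hp i)
        exact (Place.mem_iff _).2 ((((h1 i).pow n).mul h2).mono (by omega))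
      · exact mul_mem (pow_mem (not_not.1 hP) n) (ha P h)
    · change d.exT _ = F
      rw [map_mul, e', ← d.exT_x, ← mul_assoc, ← map_pow, ← map_mul, ← mul_pow,
        inv_mul_cancel₀ h0, one_pow, map_one, one_mul]
  · rintro ⟨f, hf, rfl⟩
    obtain ⟨m, hm⟩ := ((finite_poles (K := K) d.x⁻¹).image fun P => P.ord f).bddBelow
    refine ⟨m.natAbs, ⟨d.x ^ m.natAbs * f, fun P hP => ?_, ?_⟩, fun i => ?_⟩
    · by_cases h : P ∈ poles K d.x⁻¹
      · have h2 : P.Ge f m := Or.inr (hm ⟨P, h, rfl⟩)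
        have h3 : P.Ge d.x 1 := Or.inr (by
          have h4 : ¬ (0 ≤ P.ord d.x⁻¹) := fun h5 => h (P.mem_iff.2 (Or.inr h5))
          rw [Place.ord_inv _ h0] at h4
          omega)
        exact P.mem_iff.2 (((h3.pow m.natAbs).mul h2).mono (by omega))
      · exact mul_mem (pow_mem (d.x_mem P hP) _) (hf P h)
    · change d.exT _ = xx ι K ^ _ * d.exT f
      rw [map_mul, map_pow, d.exT_x]
    · change ((xx ι K ^ _ * d.exT f) i).Ge _
      rw [← d.exT_x, ← map_pow, ← map_mul, d.exT_apply, ← d.ge_iff]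
      have h2 : (d.pl i).Ge f 0 := (Place.mem_iff _).1
        (hf _ (not_not.2 ((Place.mem_iff _).2 ((h1 i).mono zero_le_one))))
      have h3 : (d.pl i).Ge d.x (-1) := Or.inr (d.ord_x i).ge
      exact ((h3.pow m.natAbs).mul h2).mono (by omega)

theorem SchE_af (d : CD K L ι) (hx : xx ι K ∈ d.alg) (i : Fin 2) :
    ∃ y : L, Transcendental K y ∧ AF d.alg hx i = (regOut (poles K y)).map d.exT := by
  fin_cases i
  · exact ⟨d.x, d.transcendental, (AF_zero hx).trans (by rw [d.poles_eq]; rfl)⟩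
  · exact ⟨d.x⁻¹, rr_tr_inv d.transcendental, SchE_one d hx⟩

theorem CD.exists_af (d : CD K L ι) (hx : xx ι K ∈ d.alg) (i : Fin 2) :
    ∃ e : AF d.alg hx i →ₐ[K] L, (∀ a, d.exT (e a) = a.1) ∧
      (∀ f : L, ∃ a s, e s ≠ 0 ∧ f * e s = e a) ∧
      RingHom.Locally (RingHom.IsStandardSmoothOfRelativeDimension 1)
        (algebraMap K (AF d.alg hx i)) := by
  obtain ⟨y, hy, h⟩ := SchE_af d hx i
  let e : regOut (poles K y) ≃ₐ[K] AF d.alg hx i :=
    ((regOut (poles K y)).equivMapOfInjective d.exT d.exT_injective).trans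
      (Subalgebra.equivOfEq _ _ h.symm)
  have he : ∀ a, (e a).1 = d.exT a.1 := fun _ => rfl
  refine ⟨(regOut (poles K y)).val.comp e.symm.toAlgHom, fun a => ?_, fun f => ?_, ?_⟩
  · exact (he (e.symm a)).symm.trans (by rw [e.apply_symm_apply])
  · obtain ⟨s, hs, hf⟩ := exists_den hy f
    refine ⟨e ⟨_, hf⟩, e ⟨_, SchE_adj y (Polynomial.aeval_mem_adjoin_singleton K y (p := s))⟩,
      ?_, ?_⟩
    · change (e.symm (e _)).1 ≠ 0
      rw [e.symm_apply_apply]
      exact fun h0 => hy ⟨s, hs.ne_zero, h0⟩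
    · change f * (e.symm (e _)).1 = (e.symm (e _)).1
      rw [e.symm_apply_apply, e.symm_apply_apply]
      exact mul_comm _ _
  · have := (RingHom.locally_respectsIso
      RingHom.isStandardSmoothOfRelativeDimension_respectsIso).left _ e.toRingEquiv
        (smooth_regOut hy)
    convert this using 1
    exact RingHom.ext fun c => (e.commutes c).symm

theorem isAlgClosed_residueField (O : ValuationSubring K) (𝔮 : Ideal O) [𝔮.IsPrime] :
    IsAlgClosed 𝔮.ResidueField :=
  SchE_closed (K := K) ((IsLocalRing.residue _).comp (IsLocalization.algEquiv 𝔮.primeCompl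
    (O.ofPrime 𝔮) (Localization.AtPrime 𝔮)).toRingEquiv.toRingHom)
    (IsLocalRing.residue_surjective.comp (AlgEquiv.surjective _))

theorem SchE_sm {J : Finset (ι × ℕ)} {A : Subalgebra K (LT ι K)} (h : IsChart J A) (hs : Sm A)
    (i : Fin 2) : Algebra.Smooth K (AF A h.x_mem i) := by
  obtain ⟨L, _, _, _, d, rfl⟩ := exists_cd_of_sm h hs
  obtain ⟨-, -, -, h1⟩ := d.exists_af h.x_mem i
  exact RingHom.smooth_algebraMap.1 (RingHom.smooth_iff_locally_isStandardSmooth.2
    (RingHom.locally_of_locally (fun h2 => h2.isStandardSmooth _) h1))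

theorem smooth_AF {k : Type u} [Field k] [IsAlgClosed k] [Algebra k K] (O : ValuationSubring K)
    (r : O →+* k) (hr : ∀ c : k, ∃ h : algebraMap k K c ∈ O, r ⟨_, h⟩ = c)
    (hr' : ∀ c : O, r c = 0 ↔ O.valuation c < 1) {J : Finset (ι × ℕ)} {𝒜 : Subalgebra O (LT ι O)}
    (h : IsChart J 𝒜) (hs : Sm (bc r 𝒜)) (i : Fin 2) : Algebra.Smooth O (AF 𝒜 h.x_mem i) := by
  let _ : Algebra k O := ((algebraMap k K).codRestrict O fun c => (hr c).1).toAlgebra
  let r' : O →ₐ[k] k := { r with commutes' := fun c => (hr c).2 }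
  have := h.finitePresentation k i
  have := h.flat i
  refine .of_formallySmooth_fiber fun I _ => ?_
  have := isAlgClosed_residueField O I
  have i₀ := Classical.arbitrary ι
  have h1 : Spc k (coef i₀ J (bc (algebraMap O I.ResidueField) 𝒜)) (coef i₀ J (bc r 𝒜)) := by
    intro f hf
    rw [h.coef_bc] at hf ⊢
    have e1 := MvPolynomial.comp_aeval_apply (IsScalarTower.toAlgHom k O I.ResidueField)
      (f := coef i₀ J 𝒜) f
    have e2 := MvPolynomial.comp_aeval_apply r' (f := coef i₀ J 𝒜) f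
    refine e2.symm.trans ((hr' _).2 ((O.valuation_lt_one_iff _).1
      (IsLocalRing.le_maximalIdeal (Ideal.IsPrime.ne_top ‹_›) ?_)))
    exact Ideal.algebraMap_residueField_eq_zero.1 (e1.trans hf)
  have := SchE_sm (h.bc _) (Sm.of_spc (h.bc _) (h.bc r) h1 hs) i
  obtain ⟨e, -⟩ := h.exists_tens (R' := I.ResidueField) i
  exact .of_equiv e.symm

end PR0
end

-- merged part: Pool.Agent.Work.MP_da2620_ag.SchG
section
/-!
# From charts to smooth proper families

`exists_fibre`: combine `exists_tens`, `CD.exists_af` (transport along `d.alg = bc φ A`) and `TwoCh.exists_curve`; the map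
`θ : AG → L` sends `F` to the unique `f` with `exT f = mapT φ F` (`x ^ n F ∈ A`).
`exists_curve`: take `R = K`, `φ = id` and any chart.
`specializes_of_chart`: `exists_proj`, `smooth_AF` (`CD.sm`), `TwoCh.smooth`, `exists_fibre` twice, `Curve.exists_iso`,
`IsPullback.of_iso` or pasting with isomorphisms.
-/

namespace PR0

open AlgebraicGeometry CategoryTheory

universe u

variable {ι : Type} [Fintype ι] [DecidableEq ι] [Nonempty ι] {J : Finset (ι × ℕ)}

theorem exists_fibre_curve {R : Type u} [CommRing R] {A : Subalgebra R (LT ι R)} (h : IsChart J A)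
    {Y : Scheme.{u}} {π : Y ⟶ Spec (CommRingCat.of R)} [IsProper π]
    {j : ∀ i, Spec (CommRingCat.of (AF A h.x_mem i)) ⟶ Y}
    (hj : TwoCh π (fun i => AF A h.x_mem i)
      (fun i => (Subalgebra.inclusion (AF_le h.x_mem i)).toRingHom) j)
    {F L : Type u} [Field F] [IsAlgClosed F] [Field L] [Algebra F L] [Fact (IsFF F L)] (φ : R →+* F)
    (d : CD F L ι) (hd : d.alg = bc φ A) :
    ∃ (C : Curve F) (i : C.X ⟶ Y), IsPullback i C.f π (Spec.map (CommRingCat.ofHom φ)) ∧
      Nonempty (C.L ≃ₐ[F] L) := by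
  let : Algebra R F := φ.toAlgebra
  have key : ∀ (A' : Subalgebra F (LT ι F)) (hx : xx ι F ∈ A') (i : Fin 2), d.alg = A' →
      ∃ e : AF A' hx i →ₐ[F] L, (∀ a, d.exT (e a) = a.1) ∧
        (∀ f : L, ∃ a s, e s ≠ 0 ∧ f * e s = e a) ∧
        RingHom.Locally (RingHom.IsStandardSmoothOfRelativeDimension 1)
          (algebraMap F (AF A' hx i)) := by
    rintro _ hx i rfl
    exact d.exists_af hx i
  choose t ht using fun i => h.exists_tens (R' := F) i
  choose e h1 h2 h3 using fun i => key _ (h.bc (algebraMap R F)).x_mem i hd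
  have hG : ∀ G : AG A h.x_mem, ∃ f : L, d.exT f = mapT φ G.1 := by
    rintro ⟨G, n, hn⟩
    obtain ⟨a, -, ha⟩ : mapT φ (xx ι R ^ n * G) ∈ d.alg := hd ▸ Chart_mem_bc φ hn
    have hx : d.x ≠ 0 := fun e => d.transcendental (e ▸ isAlgebraic_zero)
    have hu : IsUnit (xx ι F) := isUnit_uf (ι := ι) (R := F) 1
    refine ⟨a / d.x ^ n, (hu.pow n).mul_left_cancel ?_⟩
    rw [map_mul, map_pow, mapT_xx] at ha
    rw [← d.exT_x, ← map_pow, ← map_mul, mul_div_cancel₀ _ (pow_ne_zero n hx), map_pow, d.exT_x]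
    exact ha
  choose θ hθ using hG
  have hi := d.exT_injective
  let θ' : AG A h.x_mem →+* L :=
    { toFun := θ
      map_one' := hi (by rw [hθ, map_one, OneMemClass.coe_one, map_one])
      map_mul' := fun a b => hi (by rw [hθ, map_mul, hθ, hθ, MulMemClass.coe_mul, map_mul])
      map_zero' := hi (by rw [hθ, map_zero, ZeroMemClass.coe_zero, map_zero])
      map_add' := fun a b => hi (by rw [hθ, map_add, hθ, hθ, AddMemClass.coe_add, map_add]) }
  refine hj.exists_curve (F := F) (L := L) (fun i => (e i).comp (t i).toAlgHom) (fun i => ?_)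
    (fun i f => ?_) θ' (fun i b => hi ?_) fun i => ?_
  · refine Function.Injective.comp (g := e i) (fun a b hab => Subtype.ext ?_) (t i).injective
    rw [← h1, ← h1, hab]
  · obtain ⟨a, s, hs, hf⟩ := h2 i f
    obtain ⟨a, rfl⟩ := (t i).surjective a
    obtain ⟨s, rfl⟩ := (t i).surjective s
    exact ⟨a, s, hs, hf⟩
  · exact (hθ _).trans ((h1 i _).trans (ht i b)).symm
  · have h4 := (RingHom.locally_respectsIso
      RingHom.isStandardSmoothOfRelativeDimension_respectsIso).1 _ (t i).symm.toRingEquiv (h3 i)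
    convert h4 using 1
    exact RingHom.ext fun c => ((t i).symm.commutes c).symm

theorem exists_curve (K L : Type u) [Field K] [IsAlgClosed K] [Field L] [Algebra K L]
    [Fact (IsFF K L)] : ∃ C : Curve K, Nonempty (C.L ≃ₐ[K] L) := by
  obtain ⟨n, ⟨d⟩⟩ := BC_exists_cd (K := K) (L := L)
  obtain ⟨J, hJ⟩ := d.exists_chart
  obtain ⟨Y, π, j, _, hj⟩ := hJ.exists_proj
  obtain ⟨C, -, -, hC⟩ := exists_fibre_curve hJ hj (RingHom.id K) d (bc_id _).symm
  exact ⟨C, hC⟩

theorem specializes_of_chart {k K L L₀ : Type u} [Field k] [Field K] [Field L] [Field L₀]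
    [Algebra k K] [Algebra K L] [Algebra k L₀] [IsAlgClosed K] [IsAlgClosed k] [Fact (IsFF K L)]
    [Fact (IsFF k L₀)] (O : ValuationSubring K) (r : O →+* k)
    (hr : ∀ c : k, ∃ h : algebraMap k K c ∈ O, r ⟨_, h⟩ = c)
    (hr' : ∀ c : O, r c = 0 ↔ O.valuation c < 1) {𝒜 : Subalgebra O (LT ι O)} (h : IsChart J 𝒜)
    (d : CD K L ι) (hd : d.alg = bc (algebraMap O K) 𝒜) (d₀ : CD k L₀ ι) (hd₀ : d₀.alg = bc r 𝒜)
    (C : Curve K) (e : C.L ≃ₐ[K] L) (C₀ : Curve k) (e₀ : C₀.L ≃ₐ[k] L₀) : Specializes C C₀ := by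
  obtain ⟨Y, π, j, hp, hj⟩ := h.exists_proj
  have hs : Smooth π := hj.smooth fun i => smooth_AF O r hr hr' h (hd₀ ▸ d₀.sm) i
  obtain ⟨D, i, hD, ⟨ε⟩⟩ := exists_fibre_curve h hj (algebraMap O K) d hd
  obtain ⟨D₀, i₀, hD₀, ⟨ε₀⟩⟩ := exists_fibre_curve h hj r d₀ hd₀
  obtain ⟨g, hg⟩ := C.exists_iso D (e.trans ε.symm)
  obtain ⟨g₀, hg₀⟩ := C₀.exists_iso D₀ (e₀.trans ε₀.symm)
  exact ⟨O, r, Y, π, g.hom ≫ i, g₀.hom ≫ i₀, hr, hr', hp, hs,
    hD.of_iso' g (Iso.refl _) (Iso.refl _) (Iso.refl _) (by simp) (by simpa using hg) (by simp)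
      (by simp; rfl),
    hD₀.of_iso' g₀ (Iso.refl _) (Iso.refl _) (Iso.refl _) (by simp) (by simpa using hg₀) (by simp)
      (by simp)⟩

end PR0
end
end

-- merged part: Pool.Agent.Work.MP_da2620_ag.Ex
section
-- merged part: Pool.Agent.Work.MP_da2620_ag.MgAA
section
/-!
# A smooth algebra over a field with trivial idempotents is a normal domain

An etale algebra `B` over a normal domain `P` with fraction field `F` embeds in the finite reduced algebra `T = B ⊗ F`, and is integrally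
closed in it.  Every principal ideal of `T` is generated by an idempotent, which lies in `B`.
-/

namespace PR0

open TensorProduct

universe u

theorem MgAA_etale (P B : Type u) [CommRing P] [IsDomain P] [IsIntegrallyClosed P] [CommRing B]
    [Algebra P B] [Algebra.Etale P B] :
    ∃ (T : Type u) (_ : CommRing T) (_ : Algebra B T), IsIntegrallyClosedIn B T ∧
      IsSemisimpleRing T := by
  let F := FractionRing P
  refine ⟨B ⊗[P] F, inferInstance, inferInstance, isIntegrallyClosedIn_iff.2 ⟨?_, fun {t} ht => ?_⟩,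
    ?_⟩
  · exact Algebra.TensorProduct.includeLeft_injective (S := P) (IsFractionRing.injective P F)
  · obtain ⟨z, hz⟩ := (TensorProduct.toIntegralClosure_bijective_of_smooth (R := P) (S := B)
      (B := F)).2 ⟨t, ht⟩
    have e : t = Algebra.TensorProduct.map (AlgHom.id B B) (integralClosure P F).val z :=
      (congrArg Subtype.val hz).symm
    rw [e]
    clear e hz
    induction z using TensorProduct.induction_on with
    | zero => exact ⟨0, by rw [map_zero, map_zero]⟩
    | tmul b y =>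
      obtain ⟨p, hp⟩ := IsIntegrallyClosed.isIntegral_iff.1 y.2
      refine ⟨p • b, ?_⟩
      change (p • b) ⊗ₜ[P] (1 : F) = b ⊗ₜ y.1
      rw [← hp, Algebra.algebraMap_eq_smul_one, smul_tmul]
    | add y z hy hz =>
      obtain ⟨a, ha⟩ := hy
      obtain ⟨b, hb⟩ := hz
      exact ⟨a + b, by rw [map_add, map_add, ha, hb]⟩
  · have := Module.Free.of_divisionRing F (F ⊗[P] B)
    have : Module.Finite F (F ⊗[P] B) := Algebra.FormallyUnramified.finite_of_free _ _
    have : IsArtinianRing (F ⊗[P] B) := IsArtinianRing.of_finite F _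
    have : IsReduced (F ⊗[P] B) := Algebra.FormallyUnramified.isReduced_of_field F _
    have := IsArtinianRing.isSemisimpleRing_of_isReduced (F ⊗[P] B)
    exact (Algebra.TensorProduct.comm P F B).toRingEquiv.isSemisimpleRing

theorem MgAA_idem {B T : Type u} [CommRing B] [CommRing T] [Algebra B T] [IsIntegrallyClosedIn B T]
    [IsSemisimpleRing T] (a : B) : ∃ (e : B) (c : T), IsIdempotentElem e ∧ a * e = a ∧
      algebraMap B T e = c * algebraMap B T a := by
  have hi : Function.Injective (algebraMap B T) := (isIntegrallyClosedIn_iff.1 inferInstance).1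
  obtain ⟨e, he, h⟩ := IsSemisimpleRing.ideal_eq_span_idempotent (Ideal.span {algebraMap B T a})
  obtain ⟨e, rfl⟩ : ∃ y, algebraMap B T y = e := IsIntegrallyClosedIn.isIntegral_iff.1
    ⟨Polynomial.X ^ 2 - Polynomial.X, Polynomial.monic_X_pow_sub
      (Polynomial.degree_X_le.trans_lt (by decide)), by
      rw [Polynomial.eval₂_sub, Polynomial.eval₂_X_pow, Polynomial.eval₂_X, sq, he.eq, sub_self]⟩
  obtain ⟨c, hc⟩ := Ideal.mem_span_singleton'.1 (h.ge (Ideal.mem_span_singleton_self _))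
  obtain ⟨d, hd⟩ := Ideal.mem_span_singleton'.1 (h.le (Ideal.mem_span_singleton_self _))
  refine ⟨e, c, hi (by rw [map_mul, he.eq]), hi ?_, hc.symm⟩
  rw [map_mul, ← hd, mul_assoc, he.eq]

theorem MgAA_closed {B T : Type u} [CommRing B] [IsDomain B] [CommRing T] [Algebra B T]
    [IsIntegrallyClosedIn B T] [IsSemisimpleRing T] : IsIntegrallyClosed B := by
  have hi : Function.Injective (algebraMap B T) := (isIntegrallyClosedIn_iff.1 inferInstance).1
  have := hi.nontrivial
  let φ : FractionRing B →ₐ[B] T :=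
    IsLocalization.liftAlgHom (M := nonZeroDivisors B) (f := Algebra.ofId B T) fun b => by
      obtain ⟨e, c, h1, h2, h3⟩ := MgAA_idem (T := T) b.1
      rcases IsIdempotentElem.iff_eq_zero_or_one.1 h1 with rfl | rfl
      · exact absurd (by rw [← h2, mul_zero]) (nonZeroDivisors.ne_zero b.2)
      · exact IsUnit.of_mul_eq_one_right c (h3.symm.trans (map_one _))
  exact AlgHom.isIntegrallyClosedIn φ φ.toRingHom.injective inferInstance

theorem MgAA_local (K : Type u) {A : Type u} [Field K] [CommRing A] [Algebra K A]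
    [Algebra.Smooth K A] (m : Ideal A) [m.IsPrime] :
    ∃ f ∉ m, ∃ (T : Type u) (_ : CommRing T) (_ : Algebra (Localization.Away f) T),
      IsIntegrallyClosedIn (Localization.Away f) T ∧ IsSemisimpleRing T := by
  obtain ⟨f, hf, n, _, -, _⟩ :=
    Algebra.IsSmoothAt.exists_isStandardEtale_mvPolynomial (R := K) (p := m)
  exact ⟨f, hf, MgAA_etale (MvPolynomial (Fin n) K) _⟩

theorem MgAA_domain (K : Type u) {A : Type u} [Field K] [CommRing A] [Algebra K A]
    [Algebra.Smooth K A] [Nontrivial A] [IsReduced A] (h : ∀ e : A, e * e = e → e = 0 ∨ e = 1) :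
    IsDomain A := by
  have key : ∀ a : A, (Ideal.span {a}).annihilator ⊔
      (Ideal.span {a}).annihilator.annihilator = ⊤ := fun a => by
    by_contra hn
    obtain ⟨m, hm, hle⟩ := Ideal.exists_le_maximal _ hn
    obtain ⟨f, hf, T, _, _, _, _⟩ := MgAA_local K m
    obtain ⟨e, c, -, h2, h3⟩ := MgAA_idem (T := T) (algebraMap A (Localization.Away f) a)
    have hi : Function.Injective (algebraMap (Localization.Away f) T) :=
      (isIntegrallyClosedIn_iff.1 inferInstance).1
    obtain ⟨n, e', he⟩ := IsLocalization.Away.surj f e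
    have h4 : ∀ z : A, algebraMap A (Localization.Away f) z = 0 → f * z = 0 := fun z hz => by
      obtain ⟨⟨_, k, rfl⟩, hk⟩ := (IsLocalization.map_eq_zero_iff (.powers f) _ z).1 hz
      refine IsNilpotent.eq_zero ⟨k + 1, ?_⟩
      have hk' : f ^ k * z = 0 := hk
      calc (f * z) ^ (k + 1) = f ^ k * z * (f * z ^ k) := by ring
        _ = 0 := by rw [hk', zero_mul]
    have h5 : f * (f ^ n - e') ∈ m := hle (Ideal.mem_sup_left (by
      rw [Ideal.submodule_span_eq.symm, Submodule.mem_annihilator_span_singleton, smul_eq_mul,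
        mul_assoc]
      refine h4 _ ?_
      rw [map_mul, map_sub, map_pow, ← he]
      linear_combination (-algebraMap A (Localization.Away f) f ^ n) * h2))
    have h6 : f * e' ∈ m := hle (Ideal.mem_sup_right (Submodule.mem_annihilator.2 fun b hb => by
      rw [Ideal.submodule_span_eq.symm, Submodule.mem_annihilator_span_singleton, smul_eq_mul] at hb
      rw [smul_eq_mul, mul_assoc]
      refine h4 _ (hi ?_)
      have h7 := congrArg (algebraMap (Localization.Away f) T)
        (congrArg (algebraMap A (Localization.Away f)) hb)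
      simp only [map_mul, map_zero] at h7
      rw [map_mul, ← he, map_mul, map_mul, h3, map_zero]
      linear_combination c * algebraMap (Localization.Away f) T
        (algebraMap A (Localization.Away f) f ^ n) * h7))
    refine hf (hm.isPrime.mem_of_pow_mem (n + 1) ?_)
    have h8 := add_mem h5 h6
    rwa [← mul_add, sub_add_cancel, ← pow_succ'] at h8
  have : NoZeroDivisors A := ⟨fun {a b} hab => by
    obtain ⟨s, hs, t, ht, e⟩ := Submodule.mem_sup.1 ((key a).ge (Submodule.mem_top (x := 1)))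
    have h1 : t * s = 0 := Submodule.mem_annihilator.1 ht s hs
    rcases h s (by linear_combination s * e - h1) with rfl | rfl
    · rw [zero_add] at e
      refine Or.inr ((one_mul b).symm.trans (Submodule.mem_annihilator.1 (e ▸ ht) b ?_))
      rw [Ideal.submodule_span_eq.symm, Submodule.mem_annihilator_span_singleton, smul_eq_mul,
        mul_comm, hab]
    · exact Or.inl ((one_mul a).symm.trans
        (Submodule.mem_annihilator.1 hs a (Ideal.mem_span_singleton_self a)))⟩
  exact NoZeroDivisors.to_isDomain A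

theorem MgAA_normal (K : Type u) {A : Type u} [Field K] [CommRing A] [Algebra K A]
    [Algebra.Smooth K A] [IsDomain A] : IsIntegrallyClosed A := by
  refine IsIntegrallyClosed.of_localization_maximal fun m _ _ => ?_
  obtain ⟨f, hf, T, _, _, _, _⟩ := MgAA_local K m
  have h0 : Submonoid.powers f ≤ nonZeroDivisors A :=
    powers_le_nonZeroDivisors_of_noZeroDivisors fun e => hf (e ▸ m.zero_mem)
  have := IsLocalization.isDomain_localization h0
  have := MgAA_closed (B := Localization.Away f) (T := T)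
  have h1 : Submonoid.powers f ≤ m.primeCompl := Submonoid.powers_le.2 hf
  let _ := IsLocalization.localizationAlgebraOfSubmonoidLe (Localization.Away f)
    (Localization.AtPrime m) _ _ h1
  have := IsLocalization.localization_isScalarTower_of_submonoid_le (Localization.Away f)
    (Localization.AtPrime m) _ _ h1
  have := IsLocalization.isLocalization_of_submonoid_le (Localization.Away f)
    (Localization.AtPrime m) _ _ h1
  refine isIntegrallyClosed_of_isLocalization _
    (m.primeCompl.map (algebraMap A (Localization.Away f))) ?_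
  rintro _ ⟨a, ha, rfl⟩
  exact mem_nonZeroDivisors_of_ne_zero fun e => ha
    ((IsLocalization.injective (Localization.Away f) h0 (e.trans (map_zero _).symm)) ▸ m.zero_mem)

end PR0
end

-- merged part: Pool.Agent.Work.MP_da2620_ag.MgA
section
/-!
# Spreading out smoothness

`flat'`: `AF` is the increasing union of the free modules `(uf i) ^ (-n) lev A n` (see the proof of `exists_tens`; for an ideal `I`, an
element of the kernel of `I ⊗ AF → AF` comes from a finite level).
`sm_of_smooth`: the local rings of a smooth algebra of finite type over `K` are integrally closed domains (locally etale over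
`MvPolynomial`; `Algebra.TensorProduct.toIntegralClosure_bijective_of_smooth`-type results, or compare `SchA.lean`: here
`A` is finite over `K[x]` and torsion free, so the relative dimension is one; alternatively use `exists_nrm` of `Nrm.lean`: at a
maximal ideal `𝔪` the cotangent space has dimension `≤ 1`, so `𝔪 A_𝔪` is principal).  An idempotent of `A` has components
`0` or `1`, so is constant by `IsChart.inj`.
`exists_family`: descend the chart to `R₀ = k[coef]` (`IsChart.descend`), `τ` from `Spc.exists_hom`.  Take `π : Y → Spec R₀` from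
`exists_proj`.  It is smooth at all points over `τ` (`Algebra.IsSmoothAt.of_formallySmooth_fiber`, `exists_tens`, `CD.exists_af`); the complement of
`π.smoothLocus` is closed, its image is closed as `π` is proper, so there is `w ∈ R₀` with `τ w ≠ 0` such that `AF` is smooth at all primes not
containing `w`.  Put `R = R₀[1 / w] ⊆ K`; `R ⊗ AF` is the localisation of `AF` at `w`
(`Algebra.basicOpen_subset_smoothLocus_iff`).
-/

namespace PR0

universe u

variable {ι : Type} [Fintype ι] [DecidableEq ι] [Nonempty ι] {J : Finset (ι × ℕ)}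

theorem IsChart.flat' {R : Type u} [CommRing R] {A : Subalgebra R (LT ι R)} (h : IsChart J A)
    (i : Fin 2) : Module.Flat R (AF A h.x_mem i) := by
  obtain ⟨i₀⟩ := ‹Nonempty ι›
  obtain ⟨N, hN⟩ := Chart_bound J
  obtain ⟨v, hv⟩ := (isUnit_uf (ι := ι) (R := R) i).exists_right_inv
  have hv' : ∀ (n : ℕ) (F : LT ι R), uf ι R i ^ n * (v ^ n * F) = F := fun n F => by
    rw [← mul_assoc, ← mul_pow, hv, one_pow, one_mul]
  refine Module.Flat.of_forall_isTrivialRelation fun {l f x} hx => ?_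
  choose m hm using fun a => (x a).2
  let n := max N (Finset.univ.sup m)
  let β : Option (ι × Fin n) → AF A h.x_mem i := fun o => ⟨v ^ n * SchCbas i₀ J A n o, n, by
    rw [hv']
    exact h.SchC_bas_mem i₀ (fun ν hν => (hN ν hν).trans_le (le_max_left _ _)) o⟩
  let e := (Fintype.equivFin (Option (ι × Fin n))).symm
  let c : Option (ι × Fin n) → LT ι R →ₗ[R] R := fun o =>
    { toFun := fun F => SchCcrd i₀ n (uf ι R i ^ n * F) o
      map_add' := fun F G => by rw [mul_add, SchC_crd_add]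
      map_smul' := fun r F => by
        rw [mul_smul_comm, SchC_crd_smul]
        rfl }
  refine ⟨_, fun a j => c (e j) (x a).1, fun j => β (e j), fun a => ?_, fun j => ?_⟩
  · rw [e.sum_comp fun o => c o (x a).1 • β o]
    refine Subtype.ext (((isUnit_uf i).pow n).mul_left_cancel ?_)
    rw [AddSubmonoidClass.coe_finsetSum, Finset.mul_sum]
    refine (h.SchC_dec i₀ (SchC_up h.x_mem (hm a) ((Finset.le_sup (f := m)
      (Finset.mem_univ a)).trans (le_max_right _ _)))).trans (Finset.sum_congr rfl fun o _ => ?_)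
    rw [Subalgebra.coe_smul, mul_smul_comm, hv']
    rfl
  · have h1 := congrArg (fun z : AF A h.x_mem i => c (e j) z.1) hx
    simpa only [AddSubmonoidClass.coe_finsetSum, Subalgebra.coe_smul, map_sum, map_smul,
      smul_eq_mul, ZeroMemClass.coe_zero, map_zero] using h1

theorem sm_of_smooth {K : Type u} [Field K] [IsAlgClosed K] {A : Subalgebra K (LT ι K)}
    (h : IsChart J A) (hs : Algebra.Smooth K (AF A h.x_mem 0)) : Sm A := by
  obtain ⟨i₀⟩ := id ‹Nonempty ι›
  have : Algebra.Smooth K A := .of_equiv (Subalgebra.equivOfEq _ _ (AF_zero h.x_mem))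
  have : IsReduced A := isReduced_of_injective A.val Subtype.val_injective
  have : IsDomain A := MgAA_domain K fun e he => by
    have h1 : ∀ i, e.1 i = 0 ∨ e.1 i = 1 := fun i =>
      IsIdempotentElem.iff_eq_zero_or_one.1 (congrFun (congrArg Subtype.val he) i)
    obtain ⟨c, hc⟩ := h.inj e.1 e.2 fun μ _ => by
      have h2 := LS.ge_algebraMap (1 : K) (-((μ.2 : ℤ) + 1)) (by omega)
      rw [map_one] at h2
      rcases h1 μ.1 with h3 | h3
      · rw [pc, h3]
        rfl
      · rw [pc, h3, h2]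
    have h2 : e = algebraMap K A c := Subtype.ext hc
    rw [h2, ← map_mul] at he
    rcases IsIdempotentElem.iff_eq_zero_or_one.1 ((algebraMap K A).injective he) with h3 | h3
    · exact Or.inl (by rw [h2, h3, map_zero])
    · exact Or.inr (by rw [h2, h3, map_one])
  exact ⟨this, MgAA_normal K⟩

section
open AlgebraicGeometry CategoryTheory TensorProduct

theorem MgA_stalk {R B : Type u} [CommRing R] [CommRing B] [Algebra R B] (q : PrimeSpectrum B) :
    ((Spec.map (CommRingCat.ofHom (algebraMap R B))).stalkMap q).hom.FormallySmooth ↔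
      q ∈ Algebra.smoothLocus R B := by
  let := Localization.AtPrime.algebraOfLiesOver (q.asIdeal.under R) q.asIdeal
  trans Algebra.FormallySmooth (Localization.AtPrime (q.asIdeal.under R))
    (Localization.AtPrime q.asIdeal)
  · rw [← RingHom.formallySmooth_algebraMap]
    exact RingHom.FormallySmooth.respectsIso.arrow_mk_iso_iff (Scheme.arrowStalkMapSpecIso ..)
  · exact Algebra.FormallySmooth.iff_restrictScalars.symm

theorem TwoCh.MgA_spread {R : Type u} [CommRing R] {Y : Scheme.{u}}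
    {π : Y ⟶ Spec (CommRingCat.of R)} {B : Fin 2 → Type u} [∀ i, CommRing (B i)]
    [∀ i, Algebra R (B i)] {B₂ : Type u} [CommRing B₂] {g : ∀ i, B i →+* B₂}
    {j : ∀ i, Spec (CommRingCat.of (B i)) ⟶ Y} (h : TwoCh π B g j) [IsProper π]
    [∀ i, Algebra.FinitePresentation R (B i)] (p : PrimeSpectrum R)
    (hp : ∀ i (q : PrimeSpectrum (B i)), q.comap (algebraMap R (B i)) = p →
      q ∈ Algebra.smoothLocus R (B i)) :
    ∃ w ∉ p.asIdeal, ∀ i, ↑(PrimeSpectrum.basicOpen (algebraMap R (B i) w)) ⊆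
      Algebra.smoothLocus R (B i) := by
  have ho := h.opn
  have h1 : ∀ i (q : Spec (CommRingCat.of (B i))), (π.stalkMap (j i q)).hom.FormallySmooth ↔
      q ∈ Algebra.smoothLocus R (B i) := fun i q => by
    refine Iff.trans ?_ (MgA_stalk q)
    rw [← h.ovr i]
    refine (RingHom.FormallySmooth.respectsIso.cancel_right_isIso _ ((j i).stalkMap q)).symm.trans ?_
    rw [← CommRingCat.hom_comp, ← Scheme.Hom.stalkMap_comp]
    rfl
  have h2 : ∀ i (q : Spec (CommRingCat.of (B i))),
      π (j i q) = PrimeSpectrum.comap (algebraMap R (B i)) q := fun i q => by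
    rw [← Scheme.Hom.comp_apply, h.ovr i]
    rfl
  have h3 : IsOpen {y : Y | (π.stalkMap y).hom.FormallySmooth} := by
    refine isOpen_iff_forall_mem_open.2 fun y hy => ?_
    obtain ⟨i, q, rfl⟩ := h.cov y
    refine ⟨j i '' Algebra.smoothLocus R (B i), ?_,
      (j i).isOpenEmbedding.isOpenMap _ Algebra.isOpen_smoothLocus, q, (h1 i q).1 hy, rfl⟩
    rintro _ ⟨q', hq', rfl⟩
    exact (h1 i q').2 hq'
  have h4 : p ∈ (π '' {y : Y | (π.stalkMap y).hom.FormallySmooth}ᶜ)ᶜ := by
    rintro ⟨y, hy, e⟩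
    obtain ⟨i, q, rfl⟩ := h.cov y
    exact hy ((h1 i q).2 (hp i q ((h2 i q).symm.trans e)))
  obtain ⟨_, ⟨_, ⟨w, rfl⟩, rfl⟩, hw, h5⟩ :=
    PrimeSpectrum.isBasis_basic_opens.exists_subset_of_mem_open h4
      (π.isClosedMap _ h3.isClosed_compl).isOpen_compl
  refine ⟨w, hw, fun i q hq => (h1 i q).1 (not_not.1 fun hn => ?_)⟩
  exact h5 (show q.comap (algebraMap R (B i)) ∈ PrimeSpectrum.basicOpen w from hq)
    ⟨j i q, hn, h2 i q⟩

attribute [local instance] Algebra.TensorProduct.rightAlgebra in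
theorem MgA_away {R₀ : Type u} (R : Type u) {B : Type u} [CommRing R₀] [CommRing R] [CommRing B]
    [Algebra R₀ R] [Algebra R₀ B] [Algebra.FinitePresentation R₀ B] (w : R₀)
    [IsLocalization.Away w R]
    (h : ↑(PrimeSpectrum.basicOpen (algebraMap R₀ B w)) ⊆ Algebra.smoothLocus R₀ B) :
    Algebra.Smooth R (R ⊗[R₀] B) := by
  have h1 := Algebra.basicOpen_subset_smoothLocus_iff.1 h
  have : IsLocalization.Away (algebraMap R₀ B w) (R ⊗[R₀] B) := by
    have := IsLocalization.tensorRight (S := B) R (.powers w)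
    rwa [Algebra.algebraMapSubmonoid_powers] at this
  have : Algebra.FormallySmooth R₀ (R ⊗[R₀] B) := .of_equiv ((IsLocalization.algEquiv
    (.powers (algebraMap R₀ B w)) (Localization.Away (algebraMap R₀ B w)) _).restrictScalars R₀)
  have : Algebra.FormallyEtale R₀ R := .of_isLocalization (.powers w)
  exact ⟨Algebra.FormallySmooth.iff_restrictScalars.1 ‹Algebra.FormallySmooth R₀ _›, inferInstance⟩

end

theorem MgA_sub {k K R₀ : Type u} [Field k] [Field K] [CommRing R₀] [Algebra k K] [Algebra k R₀]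
    [Algebra.FiniteType k R₀] (φ : R₀ →ₐ[k] K) (hφ : Function.Injective φ) (τ₀ : R₀ →ₐ[k] k)
    {w : R₀} (hw : τ₀ w ≠ 0) : ∃ (R : Subalgebra k K) (_ : Algebra R₀ R) (τ : R →ₐ[k] k),
      IsLocalization.Away w R ∧ R.FG ∧ (R.val : R →+* K).comp (algebraMap R₀ R) = φ ∧
        (τ : R →+* k).comp (algebraMap R₀ R) = τ₀ := by
  have h0 : φ w ≠ 0 := fun e => hw (by rw [hφ (e.trans (map_zero φ).symm), map_zero])
  let S := Localization.Away w
  have hu : ∀ {F : Type u} [Field F] [Algebra k F] (σ : R₀ →ₐ[k] F), σ w ≠ 0 →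
      ∃ σ' : S →ₐ[k] F, ∀ a, σ' (algebraMap R₀ S a) = σ a := fun σ hσ =>
    ⟨IsLocalization.liftAlgHom (M := .powers w) (f := σ) (by
      rintro ⟨_, n, rfl⟩
      exact (map_pow σ w n).symm ▸ (pow_ne_zero n hσ).isUnit), fun a => IsLocalization.lift_eq _ a⟩
  obtain ⟨ψ, hψ⟩ := hu φ h0
  obtain ⟨τ, hτ⟩ := hu τ₀ hw
  have hi : Function.Injective ψ := (injective_iff_map_eq_zero ψ).2 fun z hz => by
    obtain ⟨n, a, ha⟩ := IsLocalization.Away.surj w z
    have h1 : a = 0 := hφ (by rw [← hψ, ← ha, map_mul, hz, zero_mul, map_zero])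
    rw [h1, map_zero] at ha
    exact ((IsLocalization.Away.algebraMap_isUnit w).pow n).mul_left_eq_zero.1 ha
  let e := AlgEquiv.ofInjective ψ hi
  let _ : Algebra R₀ ψ.range := ((e : S →+* ψ.range).comp (algebraMap R₀ S)).toAlgebra
  let e' : S ≃ₐ[R₀] ψ.range := { e with commutes' := fun _ => rfl }
  have : Algebra.FinitePresentation R₀ S := IsLocalization.Away.finitePresentation w
  have : Algebra.FiniteType k S := .trans ‹_› inferInstance
  refine ⟨ψ.range, inferInstance, τ.comp e.symm.toAlgHom,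
    IsLocalization.isLocalization_of_algEquiv _ e',
    (Subalgebra.fg_iff_finiteType _).2 (this.equiv e), RingHom.ext hψ, RingHom.ext fun a => ?_⟩
  exact (congrArg τ (e.symm_apply_apply _)).trans (hτ a)

omit [Fintype ι] [DecidableEq ι] [Nonempty ι] in
theorem MgA_congr {R : Type u} [CommRing R] {A A' : Subalgebra R (LT ι R)} (e : A = A')
    (hx : xx ι R ∈ A) (hx' : xx ι R ∈ A') (i : Fin 2) (h : Algebra.Smooth R (AF A hx i)) :
    Algebra.Smooth R (AF A' hx' i) := by
  subst e
  exact h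

theorem IsChart.MgA_bc {R : Type u} [CommRing R] {A : Subalgebra R (LT ι R)} (h : IsChart J A)
    (R' : Type u) [CommRing R'] [Algebra R R'] (i : Fin 2) :
    Algebra.Smooth R' (AF (PR0.bc (algebraMap R R') A) (h.bc _).x_mem i) ↔
      Algebra.Smooth R' (TensorProduct R R' (AF A h.x_mem i)) := by
  obtain ⟨e, -⟩ := h.exists_tens (R' := R') i
  exact ⟨fun _ => .of_equiv e.symm, fun _ => .of_equiv e⟩

theorem IsChart.MgA_loc {k R : Type u} [Field k] [CommRing R] [Algebra k R]
    {A : Subalgebra R (LT ι R)} (h : IsChart J A) (τ : R →ₐ[k] k)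
    (hs : ∀ i, Algebra.Smooth k (AF (PR0.bc (τ : R →+* k) A) (h.bc _).x_mem i)) :
    ∃ w, τ w ≠ 0 ∧ ∀ i, ↑(PrimeSpectrum.basicOpen (algebraMap R (AF A h.x_mem i) w)) ⊆
      Algebra.smoothLocus R (AF A h.x_mem i) := by
  obtain ⟨Y, π, j, _, hj⟩ := h.exists_proj
  have := h.finitePresentation k
  have := h.flat'
  have hp := RingHom.ker_isPrime τ
  refine hj.MgA_spread ⟨RingHom.ker τ, hp⟩ fun i q hq => ?_
  have : q.asIdeal.LiesOver (RingHom.ker τ) := ⟨(congrArg PrimeSpectrum.asIdeal hq).symm⟩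
  have e : (algebraMap k (RingHom.ker τ).ResidueField).comp (τ : R →+* k) = algebraMap R _ :=
    RingHom.ext fun a => by
      change algebraMap k _ (τ a) = _
      rw [IsScalarTower.algebraMap_apply k R, ← sub_eq_zero, ← map_sub,
        Ideal.algebraMap_residueField_eq_zero, RingHom.mem_ker, map_sub, τ.commutes]
      exact sub_self _
  have := hs i
  have := (h.MgA_bc (RingHom.ker τ).ResidueField i).1 (MgA_congr (by rw [bc_bc, e]) _ _ i
    (((h.bc (τ : R →+* k)).MgA_bc (RingHom.ker τ).ResidueField i).2 inferInstance))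
  exact Algebra.IsSmoothAt.of_formallySmooth_fiber (RingHom.ker τ) q.asIdeal

theorem exists_family {k K L L₀ : Type u} [Field k] [Field K] [Field L] [Field L₀] [Algebra k K]
    [Algebra K L] [Algebra k L₀] [IsAlgClosed K] [IsAlgClosed k] [Fact (IsFF K L)] [Fact (IsFF k L₀)]
    (d : CD K L ι) (h : IsChart J d.alg) (d₀ : CD k L₀ ι) (h₀ : IsChart J d₀.alg) (i₀ : ι)
    (hs : Spc k (coef i₀ J d.alg) (coef i₀ J d₀.alg)) :
    ∃ (R : Subalgebra k K) (𝒜 : Subalgebra R (LT ι R)) (h' : IsChart J 𝒜) (τ : R →ₐ[k] k), R.FG ∧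
      d.alg = bc (R.val : R →+* K) 𝒜 ∧ d₀.alg = bc (τ : R →+* k) 𝒜 ∧
      ∀ i, Algebra.Smooth R (AF 𝒜 h'.x_mem i) := by
  have := (h.fg (k := k) i₀).finiteType
  obtain ⟨A₀, hA, hc, e⟩ := h.descend (Algebra.adjoin k (Set.range (coef i₀ J d.alg))).val
    Subtype.val_injective (c := fun a => ⟨_, Algebra.subset_adjoin ⟨a, rfl⟩⟩) fun _ => rfl
  obtain ⟨τ₀, hτ₀⟩ := hs.exists_hom
  have e₀ : d₀.alg = bc (τ₀ : _ →+* k) A₀ := h₀.eq_of_coef i₀ (hA.bc _) (by
    rw [hA.coef_bc, hc]
    exact funext fun a => (hτ₀ a).symm)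
  obtain ⟨w, hw, h1⟩ := hA.MgA_loc τ₀ fun i => MgA_congr e₀ _ _ i (SchE_sm h₀ d₀.sm i)
  obtain ⟨R, _, τ, _, h2, h3, h4⟩ := MgA_sub (Subalgebra.val _) Subtype.val_injective τ₀ hw
  have := hA.finitePresentation k
  refine ⟨R, bc (algebraMap _ R) A₀, hA.bc _, τ, h2, ?_, ?_,
    fun i => (hA.MgA_bc R i).2 (MgA_away R w (h1 i))⟩
  · rw [bc_bc, h3, e]
  · rw [bc_bc, h4, e₀]

end PR0
end

-- merged part: Pool.Agent.Work.MP_da2620_ag.MgB
section
/-!
# Spreading out an isomorphism of function fields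

For `R ≤ R₃` let `e : bc 𝒜 → L` be the embedding (`Gauss_hom`), and the same for `𝒜'`.  Both rings are finitely generated
(`span_x`), and each generator of one is a fraction `a / b` of elements of the generic fibre of the other (`Gauss_frac`), which
involve finitely many coefficients (`mem_bc`); adjoin them to get `R₃`, `b ∈ B = e (bc 𝒜)`, `b' ∈ B'` nonzero with
`B' ⊆ B[1/b]`, `B ⊆ B'[1/b']`.  Write `b = β' / b' ^ m`; let `w` be the product of a nonzero Laurent coefficient of each of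
`b, b', β'`.  If `τ w ≠ 0`, reduction `e₀ : B → L₀` extends to `θ : B' → L₀`, and `e₀' : B' → L₀'` to `θ' : B → L₀'`.
The kernel of `e₀` is `(ker τ) B` (an element of a chart algebra with zero reduction is `c + ∑ pc F μ • chi μ` with
coefficients in `ker τ`), so `θ` and `e₀'` have the same kernel, and `L₀`, `L₀'` are the fraction fields of the images
(`Gauss_lift`, `Gauss_frac`).
-/

namespace PR0

universe u

/-- extension of a homomorphism to fractions -/
theorem MgB_ext {B X Y F : Type u} [CommRing B] [CommRing X] [CommRing Y] [Field F] (g : X →+* Y)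
    (u : B →+* Y) (v : B →+* F) (hk : ∀ a, u a = 0 → v a = 0)
    (hs : ∀ f, ∃ a s, v s ≠ 0 ∧ g f * u s = u a) :
    ∃ Θ : X →+* F, ∀ f a s, g f * u s = u a → Θ f * v s = v a := by
  choose a s hs0 has using hs
  have spec : ∀ f b t, g f * u t = u b → v (a f) / v (s f) * v t = v b := by
    intro f b t h
    have h1 := hk (a f * t - b * s f) (by rw [map_sub, map_mul, map_mul, ← has f, ← h]; ring)
    rw [map_sub, map_mul, map_mul, sub_eq_zero] at h1
    rw [div_mul_eq_mul_div, h1, mul_div_cancel_right₀ _ (hs0 f)]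
  have spec' : ∀ f b t, v t ≠ 0 → g f * u t = u b → v (a f) / v (s f) = v b / v t :=
    fun f b t ht h => by rw [eq_div_iff ht, spec f b t h]
  exact ⟨{ toFun := fun f => v (a f) / v (s f)
           map_one' := by rw [spec' 1 1 1 (by simp) (by simp)]; simp
           map_zero' := by rw [spec' 0 0 1 (by simp) (by simp)]; simp
           map_mul' := fun f f' => by
             rw [spec' (f * f') (a f * a f') (s f * s f')
               (by rw [map_mul]; exact mul_ne_zero (hs0 f) (hs0 f'))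
               (by rw [map_mul, map_mul, map_mul, ← has f, ← has f']; ring), map_mul, map_mul,
               mul_div_mul_comm]
           map_add' := fun f f' => by
             rw [spec' (f + f') (a f * s f' + s f * a f') (s f * s f')
               (by rw [map_mul]; exact mul_ne_zero (hs0 f) (hs0 f'))
               (by rw [map_add, map_add, map_mul, map_mul, map_mul, ← has f, ← has f']; ring),
               map_add, map_mul, map_mul, map_mul, div_add_div _ _ (hs0 f) (hs0 f')] }, spec⟩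

/-- the abstract comparison of two reductions -/
theorem MgB_abs {k S B B' L L₀ L₀' : Type u} [Field k] [CommRing S] [CommRing B] [CommRing B']
    [Field L] [Field L₀] [Field L₀'] [Algebra k L₀] [Algebra k L₀'] (τ : S →+* k)
    (hτ : Function.Surjective τ) (j : S →+* B) (j' : S →+* B') (e : B →+* L) (e' : B' →+* L)
    (he : Function.Injective e) (he' : Function.Injective e') (hj : ∀ c, e (j c) = e' (j' c))
    (e₀ : B →+* L₀) (e₀' : B' →+* L₀') (hj₀ : ∀ c, e₀ (j c) = algebraMap k L₀ (τ c))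
    (hj₀' : ∀ c, e₀' (j' c) = algebraMap k L₀' (τ c))
    (hk : ∀ θ : B →+* L₀', (∀ c, τ c = 0 → θ (j c) = 0) → ∀ a, e₀ a = 0 → θ a = 0)
    (hk' : ∀ θ : B' →+* L₀, (∀ c, τ c = 0 → θ (j' c) = 0) → ∀ a, e₀' a = 0 → θ a = 0)
    (hf : ∀ f : L₀, ∃ a s, e₀ s ≠ 0 ∧ f * e₀ s = e₀ a)
    (hf' : ∀ f : L₀', ∃ a s, e₀' s ≠ 0 ∧ f * e₀' s = e₀' a) {b : B} {b' β' : B'} {m : ℕ}
    (hb : e₀ b ≠ 0) (hb' : e₀' b' ≠ 0) (hβ : e₀' β' ≠ 0) (hm : e b * e' b' ^ m = e' β')
    (h : ∀ a', ∃ (n : ℕ) (a : B), e' a' * e b ^ n = e a)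
    (h' : ∀ a, ∃ (n : ℕ) (a' : B'), e a * e' b' ^ n = e' a') : Nonempty (L₀ ≃ₐ[k] L₀') := by
  obtain ⟨θ, hθ⟩ := MgB_ext e' e e₀ (fun a ha => by rw [(map_eq_zero_iff e he).1 ha, map_zero])
    fun f => by
      obtain ⟨n, a, ha⟩ := h f
      exact ⟨a, b ^ n, by rw [map_pow]; exact pow_ne_zero n hb, by rw [map_pow, ha]⟩
  obtain ⟨θ', hθ'⟩ := MgB_ext e e' e₀' (fun a ha => by rw [(map_eq_zero_iff e' he').1 ha, map_zero])
    fun f => by
      obtain ⟨n, a, ha⟩ := h' f
      exact ⟨a, b' ^ n, by rw [map_pow]; exact pow_ne_zero n hb', by rw [map_pow, ha]⟩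
  have h1 : ∀ c, θ (j' c) = algebraMap k L₀ (τ c) := fun c => by
    have := hθ (j' c) (j c) 1 (by rw [map_one, mul_one, hj])
    rwa [map_one, mul_one, hj₀] at this
  have h1' : ∀ c, θ' (j c) = algebraMap k L₀' (τ c) := fun c => by
    have := hθ' (j c) (j' c) 1 (by rw [map_one, mul_one, hj])
    rwa [map_one, mul_one, hj₀'] at this
  have k1 := hk' θ fun c hc => by rw [h1, hc, map_zero]
  have k1' := hk θ' fun c hc => by rw [h1', hc, map_zero]
  have k2 : ∀ a', θ a' = 0 → e₀' a' = 0 := fun a' h0 => by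
    obtain ⟨n, a, ha⟩ := h a'
    have h2 := hθ a' a (b ^ n) (by rw [map_pow, ha])
    rw [h0, zero_mul] at h2
    have h3 := hθ' a (a' * β' ^ n) (b' ^ (m * n)) (by
      rw [map_mul, map_pow, map_pow, ← ha, ← hm]; ring)
    rw [k1' a h2.symm, zero_mul, map_mul, map_pow] at h3
    exact (mul_eq_zero.1 h3.symm).resolve_right (pow_ne_zero n hβ)
  obtain ⟨Θ, hΘ⟩ := MgB_ext (RingHom.id L₀') e₀' θ k1 fun f => by
    obtain ⟨a, s, hs, ha⟩ := hf' f
    exact ⟨a, s, fun h0 => hs (k2 s h0), ha⟩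
  have h4 : ∀ a', Θ (e₀' a') = θ a' := fun a' => by
    simpa using hΘ (e₀' a') a' 1 (by simp)
  have h5 : ∀ a, ∃ f, Θ f = e₀ a := fun a => by
    obtain ⟨n, a', ha⟩ := h' a
    obtain ⟨r, β, hr⟩ := h b'
    have h6 := hθ a' (a * β ^ n) (b ^ (r * n)) (by
      rw [map_mul, map_pow, map_pow, ← ha, ← hr]; ring)
    have h7 := hθ b' β (b ^ r) (by rw [map_pow, hr])
    have h8 : θ b' ≠ 0 := fun h0 => hb' (k2 b' h0)
    refine ⟨e₀' a' / e₀' b' ^ n, ?_⟩
    rw [map_div₀, map_pow, h4, h4, div_eq_iff (pow_ne_zero n h8)]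
    refine mul_right_cancel₀ (pow_ne_zero (r * n) hb) ?_
    rw [map_mul, map_pow, map_pow, ← h7, map_pow] at h6
    rw [h6]
    ring
  let Θ' : L₀' →ₐ[k] L₀ := { Θ with
    commutes' := fun c => by
      obtain ⟨c, rfl⟩ := hτ c
      exact (congrArg Θ (hj₀' c).symm).trans ((h4 _).trans (h1 c)) }
  refine ⟨(AlgEquiv.ofBijective Θ' ⟨Θ.injective, fun f => ?_⟩).symm⟩
  obtain ⟨a, s, hs, ha⟩ := hf f
  obtain ⟨x, hx⟩ := h5 a
  obtain ⟨y, hy⟩ := h5 s
  refine ⟨x / y, ?_⟩
  change Θ (x / y) = f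
  rw [map_div₀, hx, hy, div_eq_iff hs, ha]

section chart

variable {ι : Type} [Fintype ι] [DecidableEq ι] [Nonempty ι] {J : Finset (ι × ℕ)}

omit [Fintype ι] [DecidableEq ι] [Nonempty ι] in
theorem MgB_coef {S : Type u} [CommRing S] {F : LT ι S} (hF : F ≠ 0) :
    ∃ w : S, w ≠ 0 ∧ ∀ (k : Type u) [CommRing k] (τ : S →+* k), τ w ≠ 0 → mapT τ F ≠ 0 := by
  by_contra hn
  refine hF (funext fun i => LS.ext fun n => ?_)
  by_contra h0
  exact hn ⟨(F i).cf n, h0, fun k _ τ h1 h2 => h1 (congrArg (fun G : LT ι k => (G i).cf n) h2)⟩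

/-- chart algebras are finitely generated -/
theorem MgB_fg {R : Type u} [CommRing R] {𝒜 : Subalgebra R (LT ι R)} (h : IsChart J 𝒜) :
    ∃ G : Finset 𝒜, ∀ V : Subring (LT ι R), (∀ c, algebraMap R _ c ∈ V) → (∀ g ∈ G, g.1 ∈ V) →
      ∀ F ∈ 𝒜, F ∈ V := by
  classical
  obtain ⟨i₀⟩ := ‹Nonempty ι›
  obtain ⟨n, hn⟩ := CDC_bound J
  refine ⟨insert ⟨_, h.x_mem⟩ ((Finset.univ ×ˢ Finset.range (n + 1)).image
    fun μ => ⟨_, h.chi_mem i₀ μ⟩), fun V hV hG F hF => ?_⟩
  have h1 : ∀ c ∈ Algebra.adjoin R {xx ι R}, c ∈ V := fun c hc => by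
    let V' : Subalgebra R (LT ι R) := { V with algebraMap_mem' := hV }
    exact (Algebra.adjoin_le (S := V') (Set.singleton_subset_iff.2
      (hG _ (Finset.mem_insert_self _ _)))) hc
  refine Submodule.span_induction (p := fun F _ => F ∈ V) ?_ V.zero_mem
    (fun _ _ _ _ => V.add_mem) (fun c _ _ hx => V.mul_mem (h1 c.1 c.2) hx) ((h.span_x i₀ hn).1 hF)
  rintro _ (rfl | ⟨μ, hμ, rfl⟩)
  · exact V.one_mem
  · exact hG ⟨_, h.chi_mem i₀ μ⟩ (Finset.mem_insert_of_mem (Finset.mem_image.2
      ⟨μ, Finset.mem_product.2 ⟨Finset.mem_univ _, Finset.mem_range.2 (Nat.lt_succ_of_le hμ)⟩, rfl⟩))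

/-- the kernel of the reduction -/
theorem MgB_ker {S k F : Type u} [CommRing S] [CommRing k] [CommRing F] (τ : S →+* k)
    {𝒜 : Subalgebra S (LT ι S)} (h : IsChart J 𝒜) (θ : 𝒜 →+* F)
    (hθ : ∀ c, τ c = 0 → θ (algebraMap S 𝒜 c) = 0) (a : 𝒜) (ha : mapT τ a.1 = 0) : θ a = 0 := by
  obtain ⟨i₀⟩ := ‹Nonempty ι›
  obtain ⟨c, hc⟩ := (h.mem_iff i₀).1 a.2
  have h1 : ∀ μ, τ (pc a.1 μ) = 0 := fun μ => by rw [← pc_mapT, ha, Chart_pc_zero]
  have h2 : τ c = 0 := by
    rw [hc, map_add, map_sum, mapT_algebraMap, Finset.sum_eq_zero fun μ _ => by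
      rw [mapT_smul, h1, zero_smul], add_zero] at ha
    rw [← Chart_cf_C (τ c) i₀, ha]
    rfl
  have h3 : a = algebraMap S 𝒜 c + ∑ μ ∈ (finite_pc a.1).toFinset,
      algebraMap S 𝒜 (pc a.1 μ) * ⟨_, h.chi_mem i₀ μ⟩ := by
    refine Subtype.ext (hc.trans ?_)
    simp only [Subalgebra.coe_add, AddSubmonoidClass.coe_finsetSum, Subalgebra.coe_mul,
      Subalgebra.coe_algebraMap, Algebra.smul_def]
  rw [h3, RingHom.map_add, map_sum, hθ c h2, zero_add]
  exact Finset.sum_eq_zero fun μ _ => by rw [map_mul, hθ _ (h1 μ), zero_mul]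

variable {k K : Type u} [Field k] [Field K] [Algebra k K]

omit [Fintype ι] [DecidableEq ι] [Nonempty ι] in
theorem MgB_incl {R S : Subalgebra k K} (l : R ≤ S) (F : LT ι R) :
    mapT (S.val : S →+* K) (mapT (Subalgebra.inclusion l : R →+* S) F) = mapT (R.val : R →+* K) F :=
  funext fun _ => LS.ext fun _ => rfl

omit [Nonempty ι] in
/-- an element of the generic fibre has finitely many coefficients -/
theorem MgB_fin {R : Subalgebra k K} {𝒜 : Subalgebra R (LT ι R)} {F : LT ι K}
    (hF : F ∈ bc (R.val : R →+* K) 𝒜) : ∃ T : Finset K, ∀ (S : Subalgebra k K) (l : R ≤ S),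
      (T : Set K) ⊆ S → ∃ F₀ ∈ bc (Subalgebra.inclusion l : R →+* S) 𝒜,
        mapT (S.val : S →+* K) F₀ = F := by
  classical
  refine Submodule.span_induction (p := fun F _ => ∃ T : Finset K, ∀ (S : Subalgebra k K)
    (l : R ≤ S), (T : Set K) ⊆ S → ∃ F₀ ∈ bc (Subalgebra.inclusion l : R →+* S) 𝒜,
      mapT (S.val : S →+* K) F₀ = F) ?_ ?_ ?_ ?_ (mem_bc.1 hF)
  · rintro _ ⟨F₀, h0, rfl⟩
    exact ⟨∅, fun S l _ => ⟨_, Gauss_mem_bc _ h0, MgB_incl l F₀⟩⟩
  · exact ⟨∅, fun S l _ => ⟨0, zero_mem _, map_zero _⟩⟩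
  · rintro x y - - ⟨T, hT⟩ ⟨T', hT'⟩
    refine ⟨T ∪ T', fun S l hS => ?_⟩
    rw [Finset.coe_union, Set.union_subset_iff] at hS
    obtain ⟨a, ha, rfl⟩ := hT S l hS.1
    obtain ⟨b, hb, rfl⟩ := hT' S l hS.2
    exact ⟨a + b, add_mem ha hb, map_add _ _ _⟩
  · rintro c x - ⟨T, hT⟩
    refine ⟨insert c T, fun S l hS => ?_⟩
    rw [Finset.coe_insert, Set.insert_subset_iff] at hS
    obtain ⟨a, ha, rfl⟩ := hT S l hS.2
    exact ⟨(⟨c, hS.1⟩ : S) • a, Subalgebra.smul_mem _ ha _, mapT_smul _ _ _⟩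

/-- fractions in the special fibre -/
theorem MgB_frac {S L₀ : Type u} [CommRing S] [Field L₀] [Algebra k L₀] [IsAlgClosed k]
    [Fact (IsFF k L₀)] {τ : S →+* k} (hτ : Function.Surjective τ) {𝒜 : Subalgebra S (LT ι S)}
    (d₀ : CD k L₀ ι) (hd : d₀.alg = bc τ 𝒜) (e₀ : 𝒜 →+* L₀)
    (he : ∀ a, d₀.exT (e₀ a) = mapT τ a.1) (f : L₀) : ∃ a s, e₀ s ≠ 0 ∧ f * e₀ s = e₀ a := by
  obtain ⟨s, h0, h1, h2⟩ := Gauss_frac d₀ f
  rw [hd] at h1 h2
  obtain ⟨s₀, hs, e1⟩ := Gauss_lift hτ h1
  obtain ⟨a₀, ha, e2⟩ := Gauss_lift hτ h2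
  have e3 : e₀ ⟨s₀, hs⟩ = s := d₀.exT_injective ((he _).trans e1)
  have e4 : e₀ ⟨a₀, ha⟩ = f * s := d₀.exT_injective ((he _).trans e2)
  exact ⟨⟨a₀, ha⟩, ⟨s₀, hs⟩, e3 ▸ h0, by rw [e3, e4]⟩

omit [Nonempty ι] in
theorem MgB_const {S L : Type u} [CommRing S] [Field L] [Algebra K L] {φ : S →+* K}
    {𝒜 : Subalgebra S (LT ι S)} (d : CD K L ι) (hi : Function.Injective d.exT) (e : 𝒜 →+* L)
    (he : ∀ a, d.exT (e a) = mapT φ a.1) (c : S) :
    e (algebraMap S 𝒜 c) = algebraMap K L (φ c) :=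
  hi (by rw [he, AlgHom.commutes]; exact mapT_algebraMap φ c)

/-- a common denominator -/
theorem MgB_den {L : Type u} [Field L] [Algebra K L] [IsAlgClosed K] [Fact (IsFF K L)]
    {ι' : Type} [Fintype ι'] [DecidableEq ι'] [Nonempty ι'] {J' : Finset (ι' × ℕ)}
    {R R' : Subalgebra k K} {𝒜 : Subalgebra R (LT ι R)} {𝒜' : Subalgebra R' (LT ι' R')}
    (h' : IsChart J' 𝒜') (d : CD K L ι) (d' : CD K L ι') (hd : d.alg = bc (R.val : R →+* K) 𝒜)
    (hd' : d'.alg = bc (R'.val : R' →+* K) 𝒜') : ∃ T : Finset K, ∀ (S : Subalgebra k K)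
      (l : R ≤ S) (l' : R' ≤ S), (T : Set K) ⊆ S →
      ∀ (e : bc (Subalgebra.inclusion l : R →+* S) 𝒜 →+* L)
        (e' : bc (Subalgebra.inclusion l' : R' →+* S) 𝒜' →+* L),
        (∀ a, d.exT (e a) = mapT (S.val : S →+* K) a.1) →
        (∀ a, d'.exT (e' a) = mapT (S.val : S →+* K) a.1) →
        ∃ b, b ≠ 0 ∧ ∀ a', ∃ (n : ℕ) (a : _), e' a' * e b ^ n = e a := by
  classical
  obtain ⟨G, hG⟩ := MgB_fg h'
  obtain ⟨e₁, he₁⟩ := Gauss_hom (R'.val : R' →+* K) d' hd'
  choose s hs0 hs1 hs2 using fun g : 𝒜' => Gauss_frac d (e₁ g)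
  have hb1 : d.exT (∏ g ∈ G, s g) ∈ bc (R.val : R →+* K) 𝒜 := by
    rw [← hd, map_prod]
    exact prod_mem fun g _ => hs1 g
  have hb2 : ∀ g : G, d.exT (e₁ g * ∏ g ∈ G, s g) ∈ bc (R.val : R →+* K) 𝒜 := fun g => by
    rw [← hd, ← Finset.mul_prod_erase G s g.2, ← mul_assoc, map_mul, map_prod]
    exact mul_mem (hs2 g) (prod_mem fun g _ => hs1 g)
  obtain ⟨T, hT⟩ := MgB_fin hb1
  choose T' hT' using fun g : G => MgB_fin (hb2 g)
  refine ⟨T ∪ Finset.univ.biUnion T', fun S l l' hS e e' he he' => ?_⟩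
  rw [Finset.coe_union, Set.union_subset_iff] at hS
  obtain ⟨b, hb, eb⟩ := hT S l hS.1
  have eb' : e ⟨b, hb⟩ = ∏ g ∈ G, s g := d.exT_injective ((he _).trans eb)
  refine ⟨⟨b, hb⟩, fun h0 => ?_, fun a' => ?_⟩
  · rw [h0, map_zero] at eb'
    exact Finset.prod_ne_zero_iff.2 (fun g _ => hs0 g) eb'.symm
  let W : Subring L :=
    { carrier := {f | ∃ (n : ℕ) (a : _), f * e ⟨b, hb⟩ ^ n = e a}
      mul_mem' := by
        rintro f g ⟨n, a, ha⟩ ⟨m, c, hc⟩
        exact ⟨n + m, a * c, by rw [map_mul, ← ha, ← hc]; ring⟩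
      one_mem' := ⟨0, 1, by simp⟩
      add_mem' := by
        rintro f g ⟨n, a, ha⟩ ⟨m, c, hc⟩
        exact ⟨n + m, a * ⟨b, hb⟩ ^ m + c * ⟨b, hb⟩ ^ n, by
          rw [RingHom.map_add, map_mul, map_mul, map_pow, map_pow, ← ha, ← hc]; ring⟩
      zero_mem' := ⟨0, 0, by simp⟩
      neg_mem' := by
        rintro f ⟨n, a, ha⟩
        exact ⟨n, -a, by rw [map_neg, ← ha, neg_mul]⟩ }
  have hc : ∀ c : S, algebraMap K L c ∈ W := fun c =>
    ⟨0, algebraMap S _ c, by rw [pow_zero, mul_one, MgB_const d d.exT_injective e he]; rfl⟩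
  have h1 := hG ((W.map (d'.exT : L →+* LT ι' K)).comap (mapT (R'.val : R' →+* K)))
    (fun c => ⟨_, hc ⟨c.1, l' c.2⟩, by
      rw [mapT_algebraMap]
      exact d'.exT.commutes _⟩)
    (fun g hg => ⟨e₁ g, by
      obtain ⟨a, ha, ea⟩ := hT' ⟨g, hg⟩ S l fun x hx => hS.2 (by
        rw [Finset.mem_coe, Finset.mem_biUnion]
        exact ⟨⟨g, hg⟩, Finset.mem_univ _, hx⟩)
      exact ⟨1, ⟨a, ha⟩, by
        rw [pow_one, eb']
        exact d.exT_injective ((he ⟨a, ha⟩).trans ea).symm⟩, he₁ g⟩)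
  have h2 : ∀ F ∈ bc (Subalgebra.inclusion l' : R' →+* S) 𝒜',
      ∃ f ∈ W, d'.exT f = mapT (S.val : S →+* K) F := fun F hF => by
    refine Submodule.span_induction
      (p := fun F _ => ∃ f ∈ W, d'.exT f = mapT (S.val : S →+* K) F) ?_ ?_ ?_ ?_ (mem_bc.1 hF)
    · rintro _ ⟨F₀, h0, rfl⟩
      obtain ⟨f, hf, ef⟩ := h1 F₀ h0
      exact ⟨f, hf, ef.trans (MgB_incl l' F₀).symm⟩
    · exact ⟨0, W.zero_mem, by rw [map_zero, map_zero]⟩
    · rintro x y - - ⟨f, hf, ef⟩ ⟨g, hg, eg⟩
      exact ⟨f + g, W.add_mem hf hg, by rw [map_add, map_add, ef, eg]⟩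
    · rintro c x - ⟨f, hf, ef⟩
      refine ⟨algebraMap K L c * f, W.mul_mem (hc c) hf, ?_⟩
      rw [map_mul, AlgHom.commutes, mapT_smul, ef, Algebra.smul_def]
      rfl
  obtain ⟨f, hf, ef⟩ := h2 a'.1 a'.2
  have e2 : e' a' = f := d'.exT_injective ((he' a').trans ef.symm)
  rw [e2]
  exact hf

end chart

theorem spread {k K L : Type u} [Field k] [Field K] [Field L] [Algebra k K] [Algebra K L]
    [IsAlgClosed K] [IsAlgClosed k] [Fact (IsFF K L)] {ι ι' : Type} [Fintype ι] [DecidableEq ι]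
    [Nonempty ι] [Fintype ι'] [DecidableEq ι'] [Nonempty ι'] {J : Finset (ι × ℕ)}
    {J' : Finset (ι' × ℕ)} {R R' : Subalgebra k K} (hR : R.FG) (hR' : R'.FG)
    {𝒜 : Subalgebra R (LT ι R)} {𝒜' : Subalgebra R' (LT ι' R')} (h : IsChart J 𝒜) (h' : IsChart J' 𝒜')
    (d : CD K L ι) (d' : CD K L ι') (hd : d.alg = bc (R.val : R →+* K) 𝒜)
    (hd' : d'.alg = bc (R'.val : R' →+* K) 𝒜') :
    ∃ (R₃ : Subalgebra k K) (l : R ≤ R₃) (l' : R' ≤ R₃) (w : R₃), R₃.FG ∧ w ≠ 0 ∧
      ∀ τ : R₃ →ₐ[k] k, τ w ≠ 0 → ∀ (L₀ L₀' : Type u) [Field L₀] [Field L₀'] [Algebra k L₀]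
        [Algebra k L₀'] [Fact (IsFF k L₀)] [Fact (IsFF k L₀')] (d₀ : CD k L₀ ι) (d₀' : CD k L₀' ι'),
        d₀.alg = bc (τ.comp (Subalgebra.inclusion l) : R →+* k) 𝒜 →
        d₀'.alg = bc (τ.comp (Subalgebra.inclusion l') : R' →+* k) 𝒜' → Nonempty (L₀ ≃ₐ[k] L₀') := by
  classical
  obtain ⟨T, hT⟩ := MgB_den h' d d' hd hd'
  obtain ⟨T', hT'⟩ := MgB_den h d' d hd' hd
  obtain ⟨S, hS⟩ : ∃ S : Subalgebra k K, S = R ⊔ R' ⊔ Algebra.adjoin k ((T ∪ T' : Finset K) : Set K) :=
    ⟨_, rfl⟩
  have l : R ≤ S := hS ▸ le_sup_left.trans le_sup_left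
  have l' : R' ≤ S := hS ▸ le_sup_right.trans le_sup_left
  have hT2 : ((T ∪ T' : Finset K) : Set K) ⊆ S := fun x hx =>
    (hS ▸ le_sup_right : Algebra.adjoin k ((T ∪ T' : Finset K) : Set K) ≤ S) (Algebra.subset_adjoin hx)
  rw [Finset.coe_union, Set.union_subset_iff] at hT2
  obtain ⟨e, he⟩ := Gauss_hom (S.val : S →+* K) (𝒜 := bc (Subalgebra.inclusion l : R →+* S) 𝒜) d
    (by rw [bc_bc, hd]; rfl)
  obtain ⟨e', he'⟩ := Gauss_hom (S.val : S →+* K)
    (𝒜 := bc (Subalgebra.inclusion l' : R' →+* S) 𝒜') d' (by rw [bc_bc, hd']; rfl)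
  have hi : Function.Injective e := fun a b hab => Subtype.ext
    (Gauss_inj (φ := (S.val : S →+* K)) Subtype.val_injective (by rw [← he, ← he, hab]))
  have hi' : Function.Injective e' := fun a b hab => Subtype.ext
    (Gauss_inj (φ := (S.val : S →+* K)) Subtype.val_injective (by rw [← he', ← he', hab]))
  obtain ⟨b, hb0, hb⟩ := hT S l l' hT2.1 e e' he he'
  obtain ⟨b', hb0', hb'⟩ := hT' S l' l hT2.2 e' e he' he
  obtain ⟨m, β', hm⟩ := hb' b
  have hβ : β' ≠ 0 := fun h0 => by
    rw [h0, map_zero] at hm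
    exact mul_ne_zero ((map_ne_zero_iff e hi).2 hb0)
      (pow_ne_zero m ((map_ne_zero_iff e' hi').2 hb0')) hm
  obtain ⟨w₁, hw₁, h₁⟩ := MgB_coef (F := b.1) fun h0 => hb0 (Subtype.ext h0)
  obtain ⟨w₂, hw₂, h₂⟩ := MgB_coef (F := b'.1) fun h0 => hb0' (Subtype.ext h0)
  obtain ⟨w₃, hw₃, h₃⟩ := MgB_coef (F := β'.1) fun h0 => hβ (Subtype.ext h0)
  refine ⟨S, l, l', w₁ * w₂ * w₃, hS ▸ (hR.sup hR').sup (Subalgebra.fg_adjoin_finset _),
    mul_ne_zero (mul_ne_zero hw₁ hw₂) hw₃, fun τ hτ L₀ L₀' _ _ _ _ _ _ d₀ d₀' hd₀ hd₀' => ?_⟩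
  rw [map_mul, map_mul, mul_ne_zero_iff, mul_ne_zero_iff] at hτ
  have hsurj : Function.Surjective (τ : S →+* k) := fun c => ⟨algebraMap k S c, τ.commutes c⟩
  have g₀ : d₀.alg = bc (τ : S →+* k) (bc (Subalgebra.inclusion l : R →+* S) 𝒜) := by
    rw [bc_bc, hd₀]; rfl
  have g₀' : d₀'.alg = bc (τ : S →+* k) (bc (Subalgebra.inclusion l' : R' →+* S) 𝒜') := by
    rw [bc_bc, hd₀']; rfl
  obtain ⟨e₀, he₀⟩ := Gauss_hom (τ : S →+* k) d₀ g₀
  obtain ⟨e₀', he₀'⟩ := Gauss_hom (τ : S →+* k) d₀' g₀'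
  refine MgB_abs (τ : S →+* k) hsurj (algebraMap S _) (algebraMap S _) e e' hi hi'
    (fun c => (MgB_const d d.exT_injective e he c).trans
      (MgB_const d' d'.exT_injective e' he' c).symm) e₀ e₀'
    (MgB_const d₀ d₀.exT_injective e₀ he₀) (MgB_const d₀' d₀'.exT_injective e₀' he₀')
    (fun θ hθ a ha => MgB_ker (τ : S →+* k) (h.bc _) θ hθ a (by rw [← he₀, ha, map_zero]))
    (fun θ hθ a ha => MgB_ker (τ : S →+* k) (h'.bc _) θ hθ a (by rw [← he₀', ha, map_zero]))
    (MgB_frac hsurj d₀ g₀ e₀ he₀) (MgB_frac hsurj d₀' g₀' e₀' he₀') (fun h0 => ?_) (fun h0 => ?_)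
    (fun h0 => ?_) hm hb hb'
  · exact h₁ k (τ : S →+* k) hτ.1.1 (by rw [← he₀, h0, map_zero])
  · exact h₂ k (τ : S →+* k) hτ.1.2 (by rw [← he₀', h0, map_zero])
  · exact h₃ k (τ : S →+* k) hτ.2 (by rw [← he₀', h0, map_zero])

end PR0
end

-- merged part: Pool.Agent.Work.MP_da2620_ag.ExA
section
/-!
# The Hasse-Witt matrix acts on Laurent series
-/

namespace PR0

open Polynomial

universe u

variable {K : Type u} [Field K] (p : ℕ) [Fact p.Prime]

theorem ExA_cf_mul_aeval (w : LS K) (s : K[X]) (j : ℤ) :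
    (w * aeval (LS.T K (-1)) s).cf j
      = ∑ n ∈ Finset.range (s.natDegree + 1), s.coeff n * w.cf (j + n) := by
  rw [aeval_eq_sum_range, Finset.mul_sum, LS.cf_sum]
  refine Finset.sum_congr rfl fun n _ => ?_
  rw [mul_smul_comm, LS.cf_smul, LS.T_pow, mul_comm w, LS.cf_T_mul]
  congr 2
  ring

theorem ExA_cf_aeval (s : K[X]) {j : ℤ} (hj : 1 ≤ j) : (aeval (LS.T K (-1)) s).cf j = 0 := by
  rw [← one_mul (aeval (LS.T K (-1)) s), ExA_cf_mul_aeval]
  refine Finset.sum_eq_zero fun n _ => ?_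
  rw [← LS.T_zero, LS.cf_T, if_neg (by omega), mul_zero]

theorem ExA_half (hp : p ≠ 2) : 2 * (p / 2) + 1 = p := by
  have := (Fact.out : p.Prime).eq_two_or_odd
  omega

theorem ExA_cf_pow [CharP K p] (v : LS K) (g : ℕ) {m : ℤ} (h1 : 1 ≤ m) (h2 : m < (g + 1) * p) :
    (v ^ p).cf m = ∑ i : Fin g, if m = ((i : ℕ) + 1 : ℤ) * p then v.cf ((i : ℕ) + 1) ^ p else 0 := by
  have hp0 : (0 : ℤ) < p := by exact_mod_cast (Fact.out : p.Prime).pos
  rw [LS.cf_pow_char]
  split_ifs with h
  · obtain ⟨c, rfl⟩ := h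
    have hc1 : 0 < c := (pos_iff_pos_of_mul_pos (by omega : 0 < (p : ℤ) * c)).1 hp0
    have hc2 : c < g + 1 := by
      rw [mul_comm] at h2
      exact lt_of_mul_lt_mul_right h2 hp0.le
    obtain ⟨i, hi⟩ : ∃ i : Fin g, c = ((i : ℕ) : ℤ) + 1 := ⟨⟨(c - 1).toNat, by omega⟩, by simp only; omega⟩
    rw [Finset.sum_eq_single i, if_pos (by rw [hi, mul_comm]), Int.mul_ediv_cancel_left _ hp0.ne', hi]
    · intro b _ hb
      rw [if_neg]
      intro e
      rw [mul_comm, hi] at e
      have := mul_right_cancel₀ hp0.ne' e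
      exact hb (Fin.ext (by omega))
    · intro h
      exact absurd (Finset.mem_univ _) h
  · symm
    refine Finset.sum_eq_zero fun i _ => if_neg fun e => h ?_
    rw [e]
    exact Dvd.intro_left _ rfl

theorem ExA_cf_step [CharP K p] (hp : p ≠ 2) {g : ℕ} {f : K[X]} (hf : f.natDegree = 2 * g + 1)
    (v : LS K) :
    (fun j : Fin g => (v ^ p * aeval (LS.T K (-1)) f ^ (p / 2)).cf ((j : ℕ) + 1))
      = sapp p (PhiG p g f) fun i : Fin g => v.cf ((i : ℕ) + 1) := by
  funext j
  have hh := ExA_half p hp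
  have hd : (f ^ (p / 2)).natDegree = (p / 2) * (2 * g + 1) := by rw [natDegree_pow, hf]
  rw [← map_pow, ExA_cf_mul_aeval]
  have e : ∀ n ∈ Finset.range ((f ^ (p / 2)).natDegree + 1),
      (f ^ (p / 2)).coeff n * (v ^ p).cf ((j : ℕ) + 1 + n) = ∑ i : Fin g,
        if ((j : ℕ) + 1 + n : ℤ) = ((i : ℕ) + 1 : ℤ) * p then
          (f ^ (p / 2)).coeff n * v.cf ((i : ℕ) + 1) ^ p else 0 := by
    intro n hn
    rw [Finset.mem_range, hd] at hn
    rw [ExA_cf_pow p v g (by omega), Finset.mul_sum]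
    · exact Finset.sum_congr rfl fun i _ => by rw [mul_ite, mul_zero]
    · have hj := j.2
      have : (j : ℕ) + 1 + n < (g + 1) * p := by
        generalize p / 2 = q at hh hn
        subst hh
        nlinarith
      exact_mod_cast this
  rw [Finset.sum_congr rfl e, Finset.sum_comm]
  simp only [sapp, PhiG, Matrix.mulVec, dotProduct, Matrix.of_apply]
  refine Finset.sum_congr rfl fun i _ => ?_
  split_ifs with h
  · rw [Finset.sum_eq_single (((i : ℕ) + 1) * p - ((j : ℕ) + 1)), if_pos]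
    · rw [Nat.cast_sub h]
      push_cast
      ring
    · intro b _ hb
      rw [if_neg]
      intro e
      apply hb
      have : (j : ℕ) + 1 + b = ((i : ℕ) + 1) * p := by exact_mod_cast e
      omega
    · intro hn
      rw [Finset.mem_range, not_lt] at hn
      rw [coeff_eq_zero_of_natDegree_lt (by omega), zero_mul, ite_self]
  · rw [zero_mul]
    refine Finset.sum_eq_zero fun n _ => if_neg fun e => h ?_
    have : (j : ℕ) + 1 + n = ((i : ℕ) + 1) * p := by exact_mod_cast e
    omega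

theorem ExA_snil [CharP K p] (hp : p ≠ 2) {g : ℕ} {f : K[X]} (hf : f.natDegree = 2 * g + 1) :
    SNil p (PhiG p g f) ↔ ∀ v : LS K, ∃ n : ℕ, ∀ j : ℤ, 1 ≤ j → j ≤ g →
      ((fun v => v ^ p * aeval (LS.T K (-1)) f ^ (p / 2))^[n] v).cf j = 0 := by
  have key : ∀ (n : ℕ) (v : LS K),
      (fun j : Fin g => ((fun v => v ^ p * aeval (LS.T K (-1)) f ^ (p / 2))^[n] v).cf ((j : ℕ) + 1))
        = (sapp p (PhiG p g f))^[n] fun i : Fin g => v.cf ((i : ℕ) + 1) := by
    intro n v
    induction n with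
    | zero => rfl
    | succ n ih =>
      rw [Function.iterate_succ_apply', Function.iterate_succ_apply', ← ih, ← ExA_cf_step p hp hf]
  rw [snil_iff]
  constructor
  · intro h v
    obtain ⟨n, hn⟩ := h fun i : Fin g => v.cf ((i : ℕ) + 1)
    refine ⟨n, fun j h1 h2 => ?_⟩
    obtain ⟨i, rfl⟩ : ∃ i : Fin g, j = ((i : ℕ) : ℤ) + 1 :=
      ⟨⟨(j - 1).toNat, by omega⟩, by simp only; omega⟩
    exact congrFun ((key n v).trans hn) i
  · intro h w
    obtain ⟨v, hv⟩ := LS.exists_cf
      (fun m => if hm : 1 ≤ m ∧ m ≤ g then w ⟨(m - 1).toNat, by omega⟩ else (0 : K)) 1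
      fun m hm => dif_neg (by omega)
    have e : (fun i : Fin g => v.cf ((i : ℕ) + 1)) = w := by
      funext i
      have := i.2
      rw [hv, dif_pos (by omega)]
      congr 1
      exact Fin.ext (by simp only; omega)
    obtain ⟨n, hn⟩ := h v
    refine ⟨n, ?_⟩
    rw [← e, ← key]
    funext j
    have := j.2
    exact hn _ (by omega) (by omega)

theorem ExA_double [CharP K p] (hp : p ≠ 2) {g : ℕ} {h : K[X]} (hh : h.natDegree = 2 * g + 1) (a : K)
    (hn : SNil p (PhiG p (g + 1) ((X - C a) ^ 2 * h))) :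
    h.eval a = 0 ∧ SNil p (PhiG p g h) := by
  have h0 : h ≠ 0 := by
    rintro rfl
    simp at hh
  have hd : ((X - C a) ^ 2 * h).natDegree = 2 * (g + 1) + 1 := by
    rw [natDegree_mul (pow_ne_zero _ (X_sub_C_ne_zero a)) h0, natDegree_pow, natDegree_X_sub_C, hh]
    ring
  have hq := ExA_half p hp
  rw [ExA_snil p hp hd] at hn
  set x : LS K := LS.T K (-1) with hx
  set y : LS K := aeval x (X - C a) with hy
  have hy' : y = x - algebraMap K (LS K) a := by rw [hy, map_sub, aeval_X, aeval_C]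
  have hcf : ∀ (w : LS K) (j : ℤ), (y * w).cf j = w.cf (j + 1) - a * w.cf j := by
    intro w j
    rw [hy', sub_mul, LS.cf_sub, hx, LS.cf_T_mul, ← Algebra.smul_def, LS.cf_smul, sub_neg_eq_add]
  have hge : y.Ge (-1) := by
    intro m hm
    rw [hy', LS.cf_sub, hx, LS.cf_T, LS.cf_algebraMap, if_neg (by omega), if_neg (by omega), sub_zero]
  have hl : y.cf (-1) = 1 := by
    rw [hy', LS.cf_sub, hx, LS.cf_T, LS.cf_algebraMap, if_pos rfl, if_neg (by omega), sub_zero]
  obtain ⟨z, hz1, hz⟩ := LS.exists_inv hge (by rw [hl]; exact isUnit_one)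
  have hz2 : z.cf 1 = 1 := by
    have := LS.cf_mul_lead hge hz1
    rw [hz, hl, one_mul, ← LS.T_zero, LS.cf_T, if_pos (by omega), neg_neg] at this
    exact this.symm
  have hF : aeval x ((X - C a) ^ 2 * h) ^ (p / 2) = y ^ (2 * (p / 2)) * aeval x h ^ (p / 2) := by
    rw [map_mul, map_pow, mul_pow, ← pow_mul]
  have hyp : y ^ p = y * y ^ (2 * (p / 2)) := by rw [← pow_succ', hq]
  constructor
  · by_contra hne
    obtain ⟨r, hr⟩ : ∃ r : K[X], h ^ (p / 2) = C (h.eval a ^ (p / 2)) + (X - C a) * r := by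
      obtain ⟨r, hr⟩ := X_sub_C_dvd_sub_C_eval (p := h ^ (p / 2)) (a := a)
      exact ⟨r, by rw [← hr, eval_pow]; ring⟩
    have hzp : z ^ p * y ^ (2 * (p / 2)) = z := by
      conv_lhs => rw [← hq]
      rw [hq, show z ^ p = z * z ^ (2 * (p / 2)) by rw [← pow_succ', hq], mul_assoc, ← mul_pow,
        mul_comm z y, hz, one_pow, mul_one]
    have key : ∀ n : ℕ, ∃ c : K, c ≠ 0 ∧ ∃ q : K[X],
        (fun v => v ^ p * aeval x ((X - C a) ^ 2 * h) ^ (p / 2))^[n] z = c • z + aeval x q := by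
      intro n
      induction n with
      | zero => exact ⟨1, one_ne_zero, 0, by simp⟩
      | succ n ih =>
        obtain ⟨c, hc, q, hq'⟩ := ih
        refine ⟨c ^ p * h.eval a ^ (p / 2), mul_ne_zero (pow_ne_zero _ hc) (pow_ne_zero _ hne),
          C (c ^ p) * r + q ^ p * ((X - C a) ^ 2 * h) ^ (p / 2), ?_⟩
        rw [Function.iterate_succ_apply', hq', add_pow_char, add_mul, map_add, map_mul _ (q ^ p),
          map_pow _ q, map_pow _ ((X - C a) ^ 2 * h), ← add_assoc]
        congr 1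
        rw [hF, _root_.smul_pow, smul_mul_assoc, ← mul_assoc, hzp, ← map_pow, hr, map_add, map_mul, ← hy,
          mul_add, ← mul_assoc, mul_comm z y, hz, one_mul, aeval_C, map_mul, aeval_C,
          ← Algebra.smul_def, smul_add, mul_comm z, ← Algebra.smul_def, smul_smul]
    obtain ⟨n, hn'⟩ := hn z
    obtain ⟨c, hc, q, hq'⟩ := key n
    have := hn' 1 le_rfl (by push_cast; omega)
    rw [hq', LS.cf_add, LS.cf_smul, hz2, ExA_cf_aeval q le_rfl, mul_one, add_zero] at this
    exact hc this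
  · rw [ExA_snil p hp hh]
    intro w
    have key : ∀ n : ℕ, (fun v => v ^ p * aeval x h ^ (p / 2))^[n] w
        = y * (fun v => v ^ p * aeval x ((X - C a) ^ 2 * h) ^ (p / 2))^[n] (z * w) := by
      intro n
      induction n with
      | zero => simp only [Function.iterate_zero, id]; rw [← mul_assoc, hz, one_mul]
      | succ n ih =>
        rw [Function.iterate_succ_apply', Function.iterate_succ_apply', ih, hF, mul_pow, hyp]
        ring
    obtain ⟨n, hn'⟩ := hn (z * w)
    refine ⟨n, fun j h1 h2 => ?_⟩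
    rw [key, hcf, hn' _ (by omega) (by push_cast; omega), hn' _ h1 (by push_cast; omega), mul_zero,
      sub_zero]

end PR0
end

-- merged part: Pool.Agent.Work.MP_da2620_ag.ExTwo
section
/-!
# Curves of `2`-rank zero: `y ^ 2 + y = x ^ (2 g + 1)`

The equation has no root in `K(x)` (degree parity).  There is one pole of `x`, with `ord x = -2`, `ord y = -(2 g + 1)`
(`dg_dvInf`).  The trace of `a + b y` is `b`, so the integral closure of `K[x]` is `K[x] + K[x] y` (`mem_regOut_poles`).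
`H¹ = L / (K[x, y] + regOut {∞}ᶜ)` has the basis `y / x ^ (i + 1)`, `i < g` (`genus_eq`), and
`(y / x ^ i) ^ 2 = y / x ^ (2 i) + x ^ (2 g + 1 - 2 i)` (`hw0_iff`).  Compare `Hyp.lean`.
-/

namespace PR0

universe u

section
open Polynomial

variable {K L : Type u} [Field K] [Field L] [Algebra K L]

/-- The Artin-Schreier curve with its involution. -/
structure ExTwo_AS (g : ℕ) (x y : L) (σ : L →ₐ[K] L) : Prop where
  trans : Transcendental K x
  eqn : y ^ 2 + y = x ^ (2 * g + 1)
  gen : ∀ f : L, ∃ S A B : K[X], S ≠ 0 ∧ aeval x S * f = aeval x A + aeval x B * y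
  sx : σ x = x
  sy : σ y = y + 1

theorem ExTwo_exists (K : Type u) [Field K] [CharP K 2] (g : ℕ) :
    ∃ (L : Type u) (_ : Field L) (_ : Algebra K L) (x y : L) (σ : L →ₐ[K] L),
      ExTwo_AS g x y σ := by
  obtain ⟨q₀, hq₀⟩ : ∃ q₀ : K[X][X], q₀ = X ^ 2 + X - C (X ^ (2 * g + 1)) := ⟨_, rfl⟩
  have hm : q₀.Monic := by rw [hq₀]; monicity!
  have hd : q₀.natDegree = 2 := by rw [hq₀]; compute_degree!
  have hi : Irreducible q₀ := by
    rw [hm.irreducible_iff_roots_eq_zero_of_degree_le_three hd.ge (by omega),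
      Multiset.eq_zero_iff_forall_notMem]
    intro r hr
    have h1 : r ^ 2 + r = X ^ (2 * g + 1) := by
      have := isRoot_of_mem_roots hr
      rwa [hq₀, IsRoot, eval_sub, eval_add, eval_pow, eval_X, eval_C, sub_eq_zero] at this
    have h2 := congrArg natDegree h1
    rw [natDegree_X_pow] at h2
    by_cases h3 : r.natDegree = 0
    · have := natDegree_add_le (r ^ 2) r
      rw [natDegree_pow, h3] at this
      omega
    · rw [natDegree_add_eq_left_of_natDegree_lt (by rw [natDegree_pow]; omega),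
        natDegree_pow] at h2
      omega
  obtain ⟨q, hq⟩ : ∃ q : (RatFunc K)[X], q = q₀.map (algebraMap K[X] (RatFunc K)) := ⟨_, rfl⟩
  have hm' : q.Monic := hq ▸ hm.map _
  have hd' : q.degree = 2 := by
    rw [hq, hm.degree_map, degree_eq_natDegree hm.ne_zero, hd]
    rfl
  have : Fact (Irreducible q) := ⟨hq ▸ hm.irreducible_iff_irreducible_map_fraction_map.1 hi⟩
  obtain ⟨x, hx⟩ : ∃ x : AdjoinRoot q, x = algebraMap (RatFunc K) _ RatFunc.X := ⟨_, rfl⟩
  have hev : ∀ z : AdjoinRoot q, aeval z q = z ^ 2 + z - x ^ (2 * g + 1) := fun z => by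
    have e : q = X ^ 2 + X - C (RatFunc.X ^ (2 * g + 1)) := by
      rw [hq, hq₀, Polynomial.map_sub, Polynomial.map_add, Polynomial.map_pow, map_X, map_C, map_pow,
        RatFunc.algebraMap_X]
    have e' := congrArg (aeval z) e
    rwa [map_sub, map_add, map_pow, aeval_X, aeval_C, map_pow, ← hx] at e'
  have hr : aeval (AdjoinRoot.root q) q = 0 := by rw [AdjoinRoot.aeval_eq, AdjoinRoot.mk_self]
  have hy := sub_eq_zero.1 ((hev _).symm.trans hr)
  have hax : ∀ s : K[X], aeval x s = algebraMap (RatFunc K) _ (algebraMap K[X] (RatFunc K) s) :=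
    fun s => by rw [hx, aeval_algebraMap_apply, RatFunc.aeval_X_left_eq_algebraMap]
  have : CharP (AdjoinRoot q) 2 := charP_of_injective_algebraMap (algebraMap K _).injective 2
  have h1 : aeval (AdjoinRoot.root q + 1) q = 0 := by
    rw [hev, ← hy, CharTwo.add_sq]
    linear_combination (CharTwo.two_eq_zero : (2 : AdjoinRoot q) = 0)
  refine ⟨AdjoinRoot q, inferInstance, inferInstance, x, AdjoinRoot.root q,
    (AdjoinRoot.liftAlgHom q (Algebra.ofId (RatFunc K) _) _ h1).restrictScalars K,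
    ?_, hy, fun f => ?_, ?_, AdjoinRoot.liftAlgHom_root q (Algebra.ofId (RatFunc K) _) _ h1⟩
  · rintro ⟨s, hs, h⟩
    rw [hax, map_eq_zero, map_eq_zero_iff _ (RatFunc.algebraMap_injective K)] at h
    exact hs h
  · obtain ⟨r, rfl⟩ := AdjoinRoot.mk_surjective f
    have h2 : (r %ₘ q).degree ≤ 1 := by
      have := degree_modByMonic_lt r hm'
      rw [hd'] at this
      exact Order.le_of_lt_succ this
    rw [← AdjoinRoot.aeval_eq, ← aeval_modByMonic_eq_self_of_root hr,
      eq_X_add_C_of_degree_le_one h2]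
    generalize (r %ₘ q).coeff 1 = b
    generalize (r %ₘ q).coeff 0 = a
    refine ⟨a.denom * b.denom, a.num * b.denom, b.num * a.denom,
      mul_ne_zero a.denom_ne_zero b.denom_ne_zero, ?_⟩
    have ha := (div_eq_iff (RatFunc.algebraMap_ne_zero a.denom_ne_zero)).1 a.num_div_denom
    have hb := (div_eq_iff (RatFunc.algebraMap_ne_zero b.denom_ne_zero)).1 b.num_div_denom
    simp only [hax, map_add, map_mul, aeval_C, aeval_X, ha, hb]
    ring
  · rw [hx]
    exact AlgHom.commutes (AdjoinRoot.liftAlgHom q (Algebra.ofId (RatFunc K) _) _ h1) _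

namespace ExTwo_AS

variable {g : ℕ} {x y : L} {σ : L →ₐ[K] L} (h : ExTwo_AS g x y σ)
include h

theorem ne {s : K[X]} (hs : s ≠ 0) : aeval x s ≠ 0 := fun e => h.trans ⟨s, hs, e⟩

theorem x_ne : x ≠ 0 := by simpa using h.ne X_ne_zero

theorem y_ne : y ≠ 0 := fun e => pow_ne_zero (2 * g + 1) h.x_ne (by rw [← h.eqn, e]; simp)

theorem span : FiniteDimensional (IntermediateField.adjoin K {x}) L ∧
    Module.finrank (IntermediateField.adjoin K {x}) L ≤ 2 := by
  have h1 : Submodule.span (IntermediateField.adjoin K {x}) (Set.range ![(1 : L), y]) = ⊤ := by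
    refine eq_top_iff.2 fun f _ => ?_
    obtain ⟨S, A, B, hS, e⟩ := h.gen f
    have m : ∀ s : K[X], aeval x s ∈ IntermediateField.adjoin K {x} := fun s =>
      IntermediateField.algebra_adjoin_le_adjoin K _ (aeval_mem_adjoin_singleton K x)
    refine (Submodule.mem_span_range_iff_exists_fun _).2
      ⟨![⟨_, div_mem (m A) (m S)⟩, ⟨_, div_mem (m B) (m S)⟩], ?_⟩
    rw [Fin.sum_univ_two]
    change aeval x A / aeval x S * 1 + aeval x B / aeval x S * y = f
    have := h.ne hS
    field_simp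
    rw [e]
  exact ⟨⟨h1 ▸ Submodule.fg_span (Set.finite_range _)⟩,
    (finrank_le_of_span_eq_top h1).trans (Fintype.card_fin 2).le⟩

theorem σ_aeval (s : K[X]) : σ (aeval x s) = aeval x s := by rw [← aeval_algHom_apply, h.sx]

theorem σσ [CharP K 2] (f : L) : σ (σ f) = f := by
  have : CharP L 2 := charP_of_injective_algebraMap (algebraMap K L).injective 2
  obtain ⟨S, A, B, hS, e⟩ := h.gen f
  have e' := congrArg (fun z => σ (σ z)) e
  simp only [map_mul, map_add, h.σ_aeval, h.sy, map_one] at e'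
  refine mul_left_cancel₀ (h.ne hS) ?_
  rw [e', e, add_assoc y, CharTwo.add_self_eq_zero, add_zero]

theorem σ_reg [CharP K 2] {f : L} (hf : f ∈ regOut (poles K x)) : σ f ∈ regOut (poles K x) :=
  fun P hP => hf ⟨P.1.comap (σ : L →+* L), fun e => P.2.1 (eq_top_iff.2 fun z _ => by
      have : σ z ∈ P.1.comap (σ : L →+* L) := e.ge (ValuationSubring.mem_top _)
      exact h.σσ z ▸ this), fun c => by
      change σ _ ∈ P.1
      rw [AlgHom.commutes]
      exact P.2.2 c⟩ (not_not.2 (by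
    change σ x ∈ P.1
    rw [h.sx]
    exact not_not.1 hP))

omit h in
theorem aeval_mem (s : K[X]) : aeval x s ∈ regOut (poles K x) := fun P hP =>
  FFA_adj P (not_not.1 hP) _ (aeval_mem_adjoin_singleton _ _)

variable [IsAlgClosed K] [Fact (IsFF K L)]

theorem y_mem : y ∈ regOut (poles K x) := fun P hP => by
  by_contra hy
  have h1 : P.ord y < 0 := by
    rw [P.mem_iff, Place.Ge, not_or] at hy
    omega
  have h2 := P.ord_pow h.y_ne 2
  have h3 := (Place.ord_add_of_lt (P := P) (pow_ne_zero 2 h.y_ne) (g := y) (.inr (by omega))).2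
  have h4 := (P.mem_iff.1 (pow_mem (not_not.1 hP) (2 * g + 1))).resolve_left
    (pow_ne_zero _ h.x_ne)
  rw [h.eqn] at h3
  omega

theorem poly : ∀ (n : ℕ) (S B : K[X]) (f : L), S.natDegree = n → S ≠ 0 → f ∈ regOut (poles K x) →
    aeval x S * f = aeval x B → ∃ Q : K[X], f = aeval x Q := by
  intro n
  induction n with
  | zero =>
    intro S B f hn hS _ e
    rw [eq_C_of_natDegree_eq_zero hn] at hS e
    have h0 : S.coeff 0 ≠ 0 := C_ne_zero.1 hS
    refine ⟨C (S.coeff 0)⁻¹ * B, ?_⟩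
    rw [map_mul, ← e, aeval_C, aeval_C, ← mul_assoc, ← map_mul, inv_mul_cancel₀ h0, map_one, one_mul]
  | succ n ih =>
    intro S B f hn hS hf e
    obtain ⟨c, hc⟩ := IsAlgClosed.exists_root S (by
      rw [degree_eq_natDegree hS, hn]
      exact_mod_cast n.succ_ne_zero)
    obtain ⟨P, hP, hv⟩ := exists_place_val h.trans c
    obtain ⟨ev, hev⟩ := P.exists_ev (regOut (poles K x)) fun f hf => hf P (not_not.2 hP)
    have hx : ∀ s : K[X], ev ⟨_, aeval_mem s⟩ = s.eval c := fun s => by
      have e1 : (⟨_, aeval_mem s⟩ : regOut (poles K x)) = aeval ⟨x, fun _ hQ => not_not.1 hQ⟩ s :=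
        Subtype.ext (aeval_subalgebra_coe s (regOut (poles K x)) ⟨x, fun _ hQ => not_not.1 hQ⟩).symm
      rw [e1, ← aeval_algHom_apply, hev, hv, coe_aeval_eq_eval]
    have hB : B.IsRoot c := by
      have e1 : (⟨_, aeval_mem S⟩ : regOut (poles K x)) * ⟨f, hf⟩ = ⟨_, aeval_mem B⟩ :=
        Subtype.ext e
      have e2 := congrArg ev e1
      rw [map_mul, hx, hx, hc.eq_zero, zero_mul] at e2
      exact e2.symm
    obtain ⟨S₁, rfl⟩ := dvd_iff_isRoot.2 hc
    obtain ⟨B₁, rfl⟩ := dvd_iff_isRoot.2 hB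
    have hS₁ : S₁ ≠ 0 := right_ne_zero_of_mul hS
    rw [natDegree_mul (X_sub_C_ne_zero c) hS₁, natDegree_X_sub_C] at hn
    rw [map_mul, map_mul, mul_assoc] at e
    exact ih S₁ B₁ f (by omega) hS₁ hf (mul_left_cancel₀ (h.ne (X_sub_C_ne_zero c)) e)

theorem reg [CharP K 2] {f : L} (hf : f ∈ regOut (poles K x)) :
    ∃ A B : K[X], f = aeval x A + aeval x B * y := by
  have : CharP L 2 := charP_of_injective_algebraMap (algebraMap K L).injective 2
  obtain ⟨S, A, B, hS, e⟩ := h.gen f
  have e' := congrArg σ e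
  simp only [map_mul, map_add, h.σ_aeval, h.sy] at e'
  obtain ⟨Q, hQ⟩ := h.poly _ S B (σ f - f) rfl hS (sub_mem (h.σ_reg hf) hf) (by
    rw [mul_sub, e, e']
    ring)
  obtain ⟨Q', hQ'⟩ := h.poly _ S A (f - aeval x Q * y) rfl hS
    (sub_mem hf (mul_mem (aeval_mem Q) h.y_mem)) (by
      rw [← hQ]
      linear_combination (1 + y) * e - y * e')
  exact ⟨Q', Q, by rw [← hQ', sub_add_cancel]⟩

theorem inf : ∃ b : Place K L, poles K x = {b} ∧ b.ord x = -2 ∧ b.ord y = -(2 * g + 1) := by
  have h1 : ∀ P ∈ poles K x, P.ord x ≤ -2 ∧ 2 * P.ord y = (2 * g + 1) * P.ord x := fun P hP => by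
    have h2 : P.ord x < 0 := by
      have : ¬ P.Ge x 0 := fun e => hP (P.mem_iff.2 e)
      rw [Place.Ge, not_or] at this
      omega
    have h3 := P.ord_pow h.x_ne (2 * g + 1)
    have h4 : P.ord (x ^ (2 * g + 1)) < 0 := by
      rw [h3]
      exact mul_neg_of_pos_of_neg (by positivity) h2
    have h5 : P.ord y < 0 := by
      by_contra h5
      have h6 : y ∈ P.1 := P.mem_iff.2 (.inr (by omega))
      have h7 := (P.mem_iff.1 (add_mem (pow_mem h6 2) h6))
      rw [h.eqn] at h7
      have := h7.resolve_left (pow_ne_zero _ h.x_ne)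
      omega
    have h6 := P.ord_pow h.y_ne 2
    have h7 := (Place.ord_add_of_lt (P := P) (pow_ne_zero 2 h.y_ne) (g := y) (.inr (by omega))).2
    rw [h.eqn, h3, h6] at h7
    push_cast at h7
    refine ⟨?_, h7.symm⟩
    by_contra h8
    rw [show P.ord x = -1 by omega] at h7
    omega
  have hd : dg (dvInf K x) ≤ 2 := by
    rw [dg_dvInf h.trans]
    exact_mod_cast h.span.2
  obtain ⟨b, hb⟩ : ∃ b : Place K L, b ∈ poles K x := by
    by_contra! hc
    obtain ⟨c, e⟩ := const_of_regular (K := K) (f := x) fun P => not_not.1 (hc P)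
    exact h.trans (e ▸ isAlgebraic_algebraMap c)
  have h2 : b.ord x = -2 := by
    have h3 : Finsupp.single b (-b.ord x) ≤ dvInf K x := fun P => by
      classical
      rw [dvInf_apply h.x_ne, Finsupp.single_apply]
      split_ifs with e
      · exact e ▸ le_max_left _ _
      · exact le_max_right _ _
    have h4 := dg_mono h3
    rw [dg_single] at h4
    have := (h1 b hb).1
    omega
  refine ⟨b, Set.eq_singleton_iff_unique_mem.2 ⟨hb, fun Q hQ => by_contra fun hne => ?_⟩, h2, ?_⟩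
  · have h3 : Finsupp.single b 2 + Finsupp.single Q 2 ≤ dvInf K x := fun P => by
      classical
      rw [dvInf_apply h.x_ne, Finsupp.add_apply, Finsupp.single_apply, Finsupp.single_apply]
      have := (h1 Q hQ).1
      split_ifs with e e' e'
      · exact absurd (e'.trans e.symm) hne
      · subst e
        omega
      · subst e'
        omega
      · omega
    have h4 := dg_mono h3
    rw [dg_add, dg_single, dg_single] at h4
    omega
  · have := (h1 b hb).2
    rw [h2] at this
    omega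

variable {b : Place K L} (hb : poles K x = {b}) (ox : b.ord x = -2) (oy : b.ord y = -(2 * g + 1))
include ox

theorem ord_aeval {s : K[X]} (hs : s ≠ 0) : b.ord (aeval x s) = -(2 * s.natDegree) := by
  have h1 : 1 < b.1.valuation x := not_le.1 fun e => by
    have := (b.mem_iff.1 ((b.1.valuation_le_one_iff _).1 e)).resolve_left h.x_ne
    omega
  refine b.FF_ord ?_
  rw [valuation_aeval_eq_valuation_X_pow_natDegree_of_one_lt_valuation_X _ h1 hs,
    b.valuation_eq h.x_ne, ox, ← zpow_natCast, ← zpow_mul, neg_mul]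

theorem ge_aeval {s : K[X]} {n : ℕ} {m : ℤ} (h1 : -(2 * (n : ℤ)) < m) (h2 : m ≤ -(2 * (n : ℤ)) + 2) :
    b.Ge (aeval x s) m ↔ s ∈ degreeLT K n := by
  rw [mem_degreeLT]
  rcases eq_or_ne s 0 with rfl | hs
  · exact iff_of_true (.inl (map_zero _)) (by rw [degree_zero]; exact WithBot.bot_lt_coe n)
  · rw [Place.Ge, or_iff_right (h.ne hs), h.ord_aeval ox hs, ← natDegree_lt_iff_degree_lt hs]
    omega

include oy

theorem ge_add {A B : K[X]} {m : ℤ} (hm : b.Ge (aeval x A + aeval x B * y) m) :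
    b.Ge (aeval x A) m ∧ b.Ge (aeval x B) (m + (2 * g + 1)) := by
  rcases eq_or_ne B 0 with rfl | hB
  · rw [map_zero, zero_mul, add_zero] at hm
    exact ⟨hm, .inl (map_zero _)⟩
  have h0 := mul_ne_zero (h.ne hB) h.y_ne
  have h1 := b.ord_mul (h.ne hB) h.y_ne
  rcases eq_or_ne A 0 with rfl | hA
  · rw [map_zero, zero_add] at hm
    have := hm.resolve_left h0
    exact ⟨.inl (map_zero _), .inr (by omega)⟩
  have h2 := h.ord_aeval ox hA
  have h3 := h.ord_aeval ox hB
  rcases lt_or_gt_of_ne (show b.ord (aeval x A) ≠ b.ord (aeval x B * y) by omega) with h4 | h4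
  · obtain ⟨h5, h6⟩ := Place.ord_add_of_lt (P := b) (h.ne hA) (g := aeval x B * y) (.inr h4)
    have := hm.resolve_left h5
    exact ⟨.inr (by omega), .inr (by omega)⟩
  · obtain ⟨h5, h6⟩ := Place.ord_add_of_lt (P := b) h0 (g := aeval x A) (.inr h4)
    rw [add_comm] at hm
    have := hm.resolve_left h5
    exact ⟨.inr (by omega), .inr (by omega)⟩

include hb

theorem genus [CharP K 2] : genus K L = g := by
  obtain ⟨γ, hγ⟩ : ∃ γ, γ = PR0.genus K L := ⟨_, rfl⟩
  let φ : (degreeLT K (g + γ + 1) × degreeLT K (γ + 1)) →ₗ[K] L :=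
    ((aeval x).toLinearMap ∘ₗ Submodule.subtype _).coprod
      (LinearMap.mulRight K y ∘ₗ (aeval x).toLinearMap ∘ₗ Submodule.subtype _)
  have hφ : ∀ z, φ z = aeval x z.1.1 + aeval x z.2.1 * y := fun _ => rfl
  have hi : Function.Injective φ := by
    refine (injective_iff_map_eq_zero _).2 fun z hz => ?_
    have h1 := fun m => h.ge_add ox oy (A := z.1.1) (B := z.2.1) (m := m) (.inl hz)
    refine Prod.ext (Subtype.ext (by_contra fun e => h.ne e ?_))
      (Subtype.ext (by_contra fun e => h.ne e ?_))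
    · exact Place.eq_zero_of_ge fun m => (h1 m).1
    · exact Place.eq_zero_of_ge fun m => by simpa using (h1 (m - (2 * g + 1))).2
  have hn : ∀ P : Place K L, P ≠ b → P ∉ poles K x := fun P hP => by rwa [hb]
  have hr : LinearMap.range φ = Lsp (Finsupp.single b (2 * (g + γ) + 1 : ℤ)) := by
    ext f
    constructor
    · rintro ⟨z, rfl⟩ P
      rcases eq_or_ne P b with rfl | hP
      · rw [Finsupp.single_eq_same, hφ]
        refine .add (((h.ge_aeval ox (m := -(2 * (g + γ))) (by omega) (by omega)).2 z.1.2).mono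
          (by omega)) ((((h.ge_aeval ox (m := -(2 * γ)) (by omega) (by omega)).2 z.2.2).mul
            (.inr oy.ge)).mono (by omega))
      · rw [Finsupp.single_eq_of_ne hP, neg_zero, ← P.mem_iff, hφ]
        exact add_mem (aeval_mem _ P (hn P hP))
          (mul_mem (aeval_mem _ P (hn P hP)) (h.y_mem P (hn P hP)))
    · intro hf
      obtain ⟨A, B, rfl⟩ := h.reg (f := f) fun P hP => by
        have h1 := hf P
        rwa [Finsupp.single_eq_of_ne (fun e => hP (by rw [hb]; exact e)), neg_zero,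
          ← P.mem_iff] at h1
      have h1 := hf b
      rw [Finsupp.single_eq_same] at h1
      obtain ⟨h2, h3⟩ := h.ge_add ox oy h1
      exact ⟨(⟨A, (h.ge_aeval ox (by omega) (by omega)).1 h2⟩,
        ⟨B, (h.ge_aeval ox (by omega) (by omega)).1 h3⟩), rfl⟩
  have he : ell (Finsupp.single b (2 * (g + γ) + 1 : ℤ)) = g + γ + 1 + (γ + 1) := by
    have := Module.Finite.of_basis (degreeLT.basis K (g + γ + 1))
    have := Module.Finite.of_basis (degreeLT.basis K (γ + 1))
    rw [ell, ← hr, LinearMap.finrank_range_of_inj hi, Module.finrank_prod,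
      Module.finrank_eq_card_basis (degreeLT.basis K _),
      Module.finrank_eq_card_basis (degreeLT.basis K _), Fintype.card_fin, Fintype.card_fin]
  have h1 := riemann (Finsupp.single b (2 * (g + γ) + 1 : ℤ))
  rw [he, (h1z_iff _).1 (h1z_of_deg (by rw [dg_single]; omega)), dg_single] at h1
  omega

theorem hw0 [CharP K 2] : HW0 K L 2 := by
  have : CharP L 2 := charP_of_injective_algebraMap (algebraMap K L).injective 2
  refine (hw0_iff 2 (S := poles K x) (finite_poles x) (hb ▸ Set.singleton_nonempty b)).2 ?_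
  set W := (regOut (poles K x)).toSubmodule ⊔ (regOut (poles K x)ᶜ).toSubmodule
  have hO : ∀ f : L, b.Ge f 0 → f ∈ W := fun f hf => Submodule.mem_sup_right fun P hP => by
    have e : P = b := by rwa [hb, Set.notMem_compl_iff] at hP
    exact e ▸ b.mem_iff.2 hf
  have hsq : ∀ f ∈ W, f ^ 2 ∈ W := fun f hf => by
    obtain ⟨a, ha, o, ho, rfl⟩ := Submodule.mem_sup.1 hf
    rw [CharTwo.add_sq]
    exact Submodule.add_mem_sup ((regOut _).pow_mem ha 2) ((regOut _).pow_mem ho 2)
  have hpw : ∀ (f : L) (n m : ℕ), f ^ 2 ^ n ∈ W → f ^ 2 ^ (n + m) ∈ W := fun f n m hf => by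
    induction m with
    | zero => exact hf
    | succ m ih =>
      rw [← add_assoc, pow_succ, pow_mul]
      exact hsq _ ih
  let N : Submodule K L :=
    { carrier := {f | ∃ n : ℕ, f ^ 2 ^ n ∈ W}
      add_mem' := by
        rintro f f' ⟨n, hn⟩ ⟨m, hm⟩
        refine ⟨n + m, ?_⟩
        rw [add_pow_char_pow]
        exact add_mem (hpw _ _ _ hn) (add_comm m n ▸ hpw _ _ _ hm)
      zero_mem' := ⟨0, by simp⟩
      smul_mem' := by
        rintro c f ⟨n, hn⟩
        exact ⟨n, by rw [_root_.smul_pow]; exact W.smul_mem _ hn⟩ }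
  have hWN : ∀ f ∈ W, f ∈ N := fun f hf => ⟨0, by simpa using hf⟩
  have hrt : ∀ f : L, f ^ 2 ∈ N → f ∈ N := fun f ⟨n, hn⟩ => ⟨n + 1, by rwa [pow_succ', pow_mul]⟩
  have hxm : x ∈ regOut (poles K x) := fun _ hQ => not_not.1 hQ
  have hx : ∀ j : ℤ, x ^ j ∈ W := fun j => by
    rcases le_total 0 j with hj | hj
    · lift j to ℕ using hj
      rw [zpow_natCast]
      exact Submodule.mem_sup_left ((regOut _).pow_mem hxm j)
    · exact hO _ (.inr (by rw [b.ord_zpow h.x_ne, ox]; omega))
  have oyx : ∀ j : ℤ, b.ord (y * x ^ j) = -(2 * g + 1) - 2 * j := fun j => by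
    rw [b.ord_mul h.y_ne (zpow_ne_zero j h.x_ne), b.ord_zpow h.x_ne, ox, oy]
    ring
  have hy : ∀ (n : ℕ) (j : ℤ), j ≤ n - (g + 1) → y * x ^ j ∈ N := fun n => by
    induction n with
    | zero => exact fun j hj => hWN _ (hO _ (.inr (by rw [oyx]; omega)))
    | succ n ih =>
      intro j hj
      rcases le_or_gt 0 j with h0 | h0
      · lift j to ℕ using h0
        rw [zpow_natCast]
        exact hWN _ (Submodule.mem_sup_left ((regOut _).mul_mem h.y_mem (pow_mem hxm j)))
      · refine hrt _ ?_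
        have e : (y * x ^ j) ^ 2 = x ^ ((2 * g + 1 : ℕ) + 2 * j) - y * x ^ (2 * j) := by
          rw [zpow_add₀ h.x_ne, zpow_natCast, ← h.eqn, two_mul j, zpow_add₀ h.x_ne]
          ring
        rw [e]
        exact sub_mem (hWN _ (hx _)) (ih _ (by omega))
  have key : ∀ (n : ℕ) (f : L), b.Ge f (-n) → f ∈ N := fun n => by
    induction n with
    | zero => exact fun f hf => hWN _ (hO _ (by simpa using hf))
    | succ n ih =>
      intro f hf
      obtain ⟨e, he, h0, h1⟩ : ∃ e ∈ N, e ≠ 0 ∧ b.ord e = -(n + 1 : ℕ) := by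
        rcases Int.even_or_odd' n with ⟨j, hj | hj⟩
        · exact ⟨y * x ^ (j - g), hy (j.toNat + 1) _ (by omega),
            mul_ne_zero h.y_ne (zpow_ne_zero _ h.x_ne), by rw [oyx]; omega⟩
        · exact ⟨x ^ (j + 1), hWN _ (hx _), zpow_ne_zero _ h.x_ne,
            by rw [b.ord_zpow h.x_ne, ox]; omega⟩
      have h2 := rr_ge_div h0 hf
      rw [h1, sub_self, ← b.mem_iff] at h2
      have h3 := (Place.ge_sub_val h2).mul (.inr h1.ge : b.Ge e _)
      rw [sub_mul, inv_mul_cancel_right₀ h0, ← Algebra.smul_def] at h3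
      have h4 := add_mem (ih _ (h3.mono (by omega))) (N.smul_mem (b.val (f * e⁻¹)) he)
      rwa [sub_add_cancel] at h4
  intro f
  obtain ⟨n, hn⟩ := key (-b.ord f).toNat f (.inr (by omega))
  exact ⟨n, rr_mem_sup.1 hn⟩

end ExTwo_AS

end

theorem exists_hw0_two (K : Type u) [Field K] [IsAlgClosed K] [CharP K 2] (g : ℕ) :
    ∃ C : FFd K, genus K C.L = g ∧ HW0 K C.L 2 := by
  obtain ⟨L, _, _, x, y, σ, h⟩ := ExTwo_exists K g
  have : Fact (IsFF K L) := ⟨x, h.trans, h.span.1⟩
  obtain ⟨b, hb, ox, oy⟩ := h.inf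
  exact ⟨⟨L⟩, h.genus hb ox oy, h.hw0 hb ox oy⟩

end PR0
end

-- merged part: Pool.Agent.Work.MP_da2620_ag.Ex
section
/-!
# Existence of curves of `p`-rank zero

`snil_PhiG`: with `x = T (-1)`, the space `LS K / {F | cf j = 0 for 1 ≤ j ≤ g}` has the basis `T (i + 1)`, and the map
`v ↦ v ^ p f(x) ^ (p / 2)` is well defined on it when `deg f = 2 g + 1`, with matrix `PhiG`.
`snil_double`: multiplication by `x - a` maps the space for `(g + 1, (X - a)² h)` onto the space for `(g, h)`, compatibly with the two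
maps; the class of `1 / (x - a)` is nonzero and is mapped to `h(a) ^ (p / 2)` times itself.
`dm_roots`: induction on `g`.  Replace `α` by `l α` with `l` generic (`exists_generic`, `Spc.generic`, `Spc.aeval`); it specialises to `α`
and to `0` and is nilpotent (`snil_smul`, `snil_conj` with a diagonal matrix).  Cut by `X 0 - X 1` (`krull`).
`exists_roots`: apply `purity` to the generic point of `K ^ (2 g + 1)` and the origin (the matrix for `X ^ (2 g + 1)` is strictly
triangular); the new point has dimension `≥ g + 1`, so distinct coordinates; `exists_rat`.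
-/

namespace PR0

open Polynomial

universe u

variable {k K : Type u} [Field k] [Field K] (p : ℕ) [Fact p.Prime]

theorem snil_PhiG [CharP K p] (hp : p ≠ 2) {g : ℕ} {f : K[X]} (hf : f.natDegree = 2 * g + 1) :
    SNil p (PhiG p g f) ↔ ∀ v : LS K, ∃ n : ℕ, ∀ j : ℤ, 1 ≤ j → j ≤ g →
      ((fun v => v ^ p * aeval (LS.T K (-1)) f ^ (p / 2))^[n] v).cf j = 0 := ExA_snil p hp hf

theorem snil_double [CharP K p] (hp : p ≠ 2) {g : ℕ} {h : K[X]} (hh : h.natDegree = 2 * g + 1) (a : K)
    (hn : SNil p (PhiG p (g + 1) ((X - C a) ^ 2 * h))) : h.eval a = 0 ∧ SNil p (PhiG p g h) :=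
  ExA_double p hp hh a hn

omit [Fact p.Prime] in
theorem Ex_map {R R' : Type u} [CommRing R] [CommRing R'] (φ : R →+* R') (g : ℕ) (f : R[X]) :
    (PhiG p g f).map φ = PhiG p g (f.map φ) := by
  ext j i
  simp only [PhiG, Matrix.map_apply, Matrix.of_apply]
  split_ifs
  · rw [← Polynomial.map_pow, coeff_map]
  · exact map_zero φ

omit [Fact p.Prime] in
theorem Ex_map_prod {R R' : Type u} [CommRing R] [CommRing R'] (φ : R →+* R') (g : ℕ) {I : Type}
    [Fintype I] (α : I → R) :
    (PhiG p g (∏ i, (X - C (α i)))).map φ = PhiG p g (∏ i, (X - C (φ (α i)))) := by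
  rw [Ex_map, Polynomial.map_prod]
  simp only [Polynomial.map_sub, map_X, map_C]

omit [Fact p.Prime] in
theorem Ex_univ {R : Type u} [CommRing R] [Algebra k R] (g : ℕ) {I : Type} [Fintype I] (α : I → R) :
    (PhiG p g (∏ i : I, (X - C (MvPolynomial.X i : MvPolynomial I k)))).map (MvPolynomial.aeval α)
      = PhiG p g (∏ i, (X - C (α i))) := by
  have := Ex_map_prod p (MvPolynomial.aeval α : MvPolynomial I k →ₐ[k] R).toRingHom g
    (fun i : I => (MvPolynomial.X i : MvPolynomial I k))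
  simp only [AlgHom.toRingHom_eq_coe, RingHom.coe_coe, MvPolynomial.aeval_X] at this
  exact this

omit [Fact p.Prime] in
theorem Ex_spc {R R' : Type u} [CommRing R] [CommRing R'] [Algebra k R] [Algebra k R'] {g : ℕ}
    {I : Type} [Fintype I] {α : I → R} {β : I → R'} (h : Spc k α β)
    (hn : SNil p (PhiG p g (∏ i, (X - C (α i))))) : SNil p (PhiG p g (∏ i, (X - C (β i)))) := by
  rw [← Ex_univ (k := k)] at hn ⊢
  have e1 := sprod_map (p := p) (MvPolynomial.aeval α : MvPolynomial I k →ₐ[k] R).toRingHom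
    (PhiG p g (∏ i : I, (X - C (MvPolynomial.X i : MvPolynomial I k)))) (Fintype.card (Fin g))
  have e2 := sprod_map (p := p) (MvPolynomial.aeval β : MvPolynomial I k →ₐ[k] R').toRingHom
    (PhiG p g (∏ i : I, (X - C (MvPolynomial.X i : MvPolynomial I k)))) (Fintype.card (Fin g))
  refine e2.symm.trans ?_
  ext i j
  exact h _ (congrFun (congrFun (e1.trans hn) i) j)

theorem Ex_coeff_scale (l : K) (s : Multiset K) (n : ℕ) :
    ((s.map fun a => X - C (l * a)).prod).coeff n * l ^ n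
      = l ^ s.card * ((s.map fun a => X - C a).prod).coeff n := by
  induction s using Multiset.induction_on generalizing n with
  | empty =>
    simp only [Multiset.map_zero, Multiset.prod_zero, Multiset.card_zero, pow_zero, one_mul, coeff_one]
    split_ifs with h
    · rw [h, pow_zero, mul_one]
    · exact zero_mul _
  | cons a s ih =>
    simp only [Multiset.map_cons, Multiset.prod_cons, Multiset.card_cons, sub_mul, coeff_sub,
      coeff_C_mul]
    cases n with
    | zero =>
      have := ih 0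
      simp only [coeff_X_mul_zero] at this ⊢
      linear_combination (-l * a) * this
    | succ n =>
      simp only [coeff_X_mul]
      linear_combination l * ih n - l * a * ih (n + 1)

theorem Ex_scale [CharP K p] {g : ℕ} {I : Type} [Fintype I] {α : I → K} {l : K} (hl : l ≠ 0)
    (hn : SNil p (PhiG p g (∏ i, (X - C (α i))))) : SNil p (PhiG p g (∏ i, (X - C (l * α i)))) := by
  have hc : ∀ n, ((∏ i, (X - C (l * α i))) ^ (p / 2)).coeff n * l ^ n
      = l ^ (Fintype.card I * (p / 2)) * ((∏ i, (X - C (α i))) ^ (p / 2)).coeff n := by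
    intro n
    have := Ex_coeff_scale l ((p / 2) • (Finset.univ.val.map α)) n
    rw [Multiset.map_nsmul, Multiset.map_nsmul, Multiset.prod_nsmul, Multiset.prod_nsmul,
      Multiset.map_map, Multiset.map_map, Multiset.card_nsmul, Multiset.card_map, mul_comm (p / 2)] at this
    exact this
  rw [← snil_smul (pow_ne_zero (Fintype.card I * (p / 2)) hl), snil_iff] at hn
  rw [snil_iff]
  have step : ∀ v : Fin g → K, sapp p (PhiG p g (∏ i, (X - C (l * α i)))) (fun j => l ^ ((j : ℕ) + 1) * v j)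
      = fun j : Fin g => l ^ ((j : ℕ) + 1) *
        sapp p (l ^ (Fintype.card I * (p / 2)) • PhiG p g (∏ i, (X - C (α i)))) v j := by
    intro v
    funext j
    simp only [sapp, PhiG, Matrix.mulVec, dotProduct, Matrix.of_apply, Matrix.smul_apply, smul_eq_mul,
      Finset.mul_sum]
    refine Finset.sum_congr rfl fun i _ => ?_
    split_ifs with h
    · rw [← hc, mul_pow, ← pow_mul]
      obtain ⟨m, hm⟩ := Nat.exists_eq_add_of_le h
      rw [hm, Nat.add_sub_cancel_left, pow_add l ((j : ℕ) + 1) m]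
      ring
    · simp
  intro w
  obtain ⟨n, hn⟩ := hn fun j => (l ^ ((j : ℕ) + 1))⁻¹ * w j
  have key : ∀ (n : ℕ) (v : Fin g → K),
      (sapp p (PhiG p g (∏ i, (X - C (l * α i)))))^[n] (fun j => l ^ ((j : ℕ) + 1) * v j)
      = fun j : Fin g => l ^ ((j : ℕ) + 1) *
        (sapp p (l ^ (Fintype.card I * (p / 2)) • PhiG p g (∏ i, (X - C (α i)))))^[n] v j := by
    intro n v
    induction n with
    | zero => rfl
    | succ n ih => rw [Function.iterate_succ_apply', Function.iterate_succ_apply', ih, step]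
  refine ⟨n, ?_⟩
  have e : w = fun j : Fin g => l ^ ((j : ℕ) + 1) * ((l ^ ((j : ℕ) + 1))⁻¹ * w j) :=
    funext fun j => (mul_inv_cancel_left₀ (pow_ne_zero _ hl) _).symm
  rw [e, key, hn]
  funext j
  simp

/-- The bound for all index types. -/
def Ex_Bd (k : Type u) [Field k] (p g : ℕ) : Prop :=
  ∀ (I : Type) [Fintype I] (K : Type u) [Field K] [Algebra k K] (α : I → K),
    Fintype.card I = 2 * g + 1 → SNil p (PhiG p g (∏ i, (X - C (α i)))) → dm k α ≤ (g + 1 : ℕ)

theorem Ex_eq [CharP k p] (hp : p ≠ 2) {g : ℕ} (ih : Ex_Bd k p g) {I : Type} [Fintype I]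
    [Algebra k K] {α : I → K} (hI : Fintype.card I = 2 * (g + 1) + 1)
    (hn : SNil p (PhiG p (g + 1) (∏ i, (X - C (α i))))) {i j : I} (hij : i ≠ j) (e : α i = α j) :
    dm k α ≤ (g + 1 : ℕ) := by
  classical
  have := charP_of_injective_algebraMap (algebraMap k K).injective p
  set s : Finset I := (Finset.univ.erase i).erase j with hs
  have hj : j ∈ Finset.univ.erase i := Finset.mem_erase.2 ⟨hij.symm, Finset.mem_univ _⟩
  have hc : s.card = 2 * g + 1 := by
    rw [hs, Finset.card_erase_of_mem hj, Finset.card_erase_of_mem (Finset.mem_univ _),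
      Finset.card_univ, hI]
    omega
  have e1 : ∏ x, (X - C (α x)) = (X - C (α i)) ^ 2 * ∏ x : s, (X - C (α x)) := by
    rw [Finset.prod_coe_sort s fun x => X - C (α x), ← Finset.mul_prod_erase _ _ (Finset.mem_univ i),
      ← Finset.mul_prod_erase _ _ hj, ← e, sq, mul_assoc]
  have hd : (∏ x : s, (X - C (α x))).natDegree = 2 * g + 1 := by
    rw [natDegree_prod_of_monic _ _ fun x _ => monic_X_sub_C _]
    simp [hc]
  rw [e1] at hn
  obtain ⟨h1, h2⟩ := snil_double p hp hd _ hn
  refine le_trans (rk_mono ?_) (ih s K (fun x => α x) (by simp [hc]) h2)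
  rw [eval_prod, Finset.prod_eq_zero_iff] at h1
  obtain ⟨x, -, hx⟩ := h1
  rw [eval_sub, eval_X, eval_C, sub_eq_zero] at hx
  rintro _ ⟨y, rfl⟩
  by_cases hy : y ∈ s
  · exact ⟨⟨y, hy⟩, rfl⟩
  · refine ⟨x, ?_⟩
    by_cases hyi : y = i
    · rw [hyi, hx]
    · have hyj : y = j := by
        by_contra hyj
        exact hy (Finset.mem_erase.2 ⟨hyj, Finset.mem_erase.2 ⟨hyi, Finset.mem_univ _⟩⟩)
      rw [hyj, ← e, hx]

theorem Ex_bd [CharP k p] (hp : p ≠ 2) (g : ℕ) : Ex_Bd k p g := by
  induction g with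
  | zero =>
    intro I _ K _ _ α hI _
    refine (rk_le_encard _).trans ?_
    rw [← Set.image_univ]
    refine (Set.encard_image_le _ _).trans ?_
    rw [Set.encard_univ, ENat.card_eq_coe_fintype_card, hI]
  | succ g ih =>
    intro I _ K _ _ α hI hn
    obtain ⟨Ω, _, _, β, y, hs1, hs0, hy⟩ := sig_generic (k := k) α Unit
    have := charP_of_injective_algebraMap (algebraMap k Ω).injective p
    have hl : y () ≠ 0 := hy.ne_zero ()
    have hsp : ∀ t : K, Spc k (fun i => y () * β i) fun i => t * α i := by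
      intro t
      have := (hs0.generic hy fun _ => t).aeval
        fun i : I => MvPolynomial.X (Sum.inr ()) * MvPolynomial.X (Sum.inl i)
      simpa using this
    have hn' : SNil p (PhiG p (g + 1) (∏ i, (X - C (y () * β i)))) :=
      Ex_scale p hl (Ex_spc p hs1 hn)
    obtain ⟨i, j, hij⟩ : ∃ i j : I, i ≠ j := Fintype.one_lt_card_iff.1 (by omega)
    obtain ⟨Ω', _, _, _, c', h1, -, h3, h4⟩ := krull (FG.of_finite _) (hsp 0)
      (fun _ : Unit => MvPolynomial.X i - MvPolynomial.X j) (by simp)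
    have e : c' i = c' j := by simpa [sub_eq_zero] using h3 ()
    have h5 := Ex_eq p hp ih hI (Ex_spc p h1 hn') hij e
    have h6 : dm k α ≤ dm k fun i => y () * β i := by simpa using (hsp 1).dm_le
    refine h6.trans (h4.trans ?_)
    rw [Nat.card_unique, Nat.cast_add (g + 1)]
    exact add_le_add_left h5 _

theorem dm_roots [CharP k p] (hp : p ≠ 2) (g : ℕ) {K : Type u} [Field K] [Algebra k K]
    (α : Fin (2 * g + 1) → K) (h : SNil p (PhiG p g (∏ i, (X - C (α i))))) :
    dm k α ≤ (g + 1 : ℕ) := Ex_bd p hp g _ K α (Fintype.card_fin _) h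

theorem Ex_zero [CharP K p] (hp : p ≠ 2) (g : ℕ) :
    SNil p (PhiG p g (∏ _i : Fin (2 * g + 1), (X - C (0 : K)))) := by
  have hq := ExA_half p hp
  have h2 := (Fact.out : p.Prime).two_le
  refine sig_nil (Pool.Agent.Work.MP_da2620_ag.tw_upper p fun j i hij => ?_)
  simp only [PhiG, Matrix.of_apply]
  split_ifs with h
  · rw [C_0, sub_zero, Finset.prod_const, Finset.card_univ, Fintype.card_fin, ← pow_mul, coeff_X_pow,
      if_neg]
    intro e
    have h1 : ((i : ℕ) + 1) * p = (2 * g + 1) * (p / 2) + ((j : ℕ) + 1) := by omega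
    have hi := i.2
    have hij' : (i : ℕ) ≤ j := hij
    obtain ⟨m, hm⟩ := Nat.exists_eq_add_of_lt hi
    generalize p / 2 = q at hq h1
    generalize (i : ℕ) = a at *
    generalize (j : ℕ) = b at *
    subst hq
    subst hm
    nlinarith
  · rfl

theorem exists_roots [IsAlgClosed k] [CharP k p] (hp : p ≠ 2) (g : ℕ) :
    ∃ α : Fin (2 * g + 1) → k, Function.Injective α ∧ SNil p (PhiG p g (∏ i, (X - C (α i)))) := by
  classical
  cases g with
  | zero => exact ⟨fun _ => 0, fun a b _ => Subsingleton.elim (α := Fin 1) a b, Ex_zero p hp 0⟩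
  | succ g =>
    obtain ⟨Ω, _, _, y, hy⟩ : ∃ (Ω : Type u) (_ : Field Ω) (_ : Algebra k Ω)
        (y : Fin (2 * (g + 1) + 1) → Ω), AlgebraicIndependent k y := by
      obtain ⟨Ω, _, _, i, _, _, y, hy⟩ := exists_generic (k := k) k (Fin (2 * (g + 1) + 1))
      exact ⟨Ω, _, i, y, hy⟩
    have := charP_of_injective_algebraMap (algebraMap k Ω).injective p
    have hs : Spc k y fun _ => (0 : k) := fun f hf => by
      rw [hy.eq_zero_of_aeval_eq_zero f hf, map_zero]
    obtain ⟨Ω', _, _, _, c, -, -, h3, h4⟩ := purity (p := p)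
      (PhiG p (g + 1) (∏ i : Fin (2 * (g + 1) + 1), (X - C (MvPolynomial.X i : MvPolynomial _ k))))
      (FG.of_finite y) hs (by rw [Ex_univ]; exact Ex_zero p hp (g + 1))
    rw [Ex_univ] at h3
    rw [dm, rk_range_of_indep hy, Fintype.card_fin] at h4
    have hinj : ∀ i j, i ≠ j → c i ≠ c j := by
      intro i j hij e
      have h5 := Ex_eq p hp (Ex_bd (k := k) p hp g) (Fintype.card_fin _) h3 hij e
      have h6 := h4.trans (add_le_add_left h5 _)
      rw [← Nat.cast_add, Nat.cast_le] at h6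
      omega
    obtain ⟨α, h7, h8⟩ := exists_rat (k := k) (FG.of_finite c)
      (g := ∏ x ∈ (Finset.univ : Finset (Fin (2 * (g + 1) + 1))).offDiag,
        (MvPolynomial.X x.1 - MvPolynomial.X x.2)) (by
        rw [map_prod, Finset.prod_ne_zero_iff]
        intro x hx
        rw [map_sub, MvPolynomial.aeval_X, MvPolynomial.aeval_X, sub_ne_zero]
        exact hinj _ _ (Finset.mem_offDiag.1 hx).2.2)
    refine ⟨α, fun i j e => ?_, Ex_spc p h7 h3⟩
    by_contra hij
    rw [map_prod, Finset.prod_ne_zero_iff] at h8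
    refine h8 (i, j) (Finset.mem_offDiag.2 ⟨Finset.mem_univ _, Finset.mem_univ _, hij⟩) ?_
    rw [map_sub, MvPolynomial.aeval_X, MvPolynomial.aeval_X, e, sub_self]

theorem exists_hw0 (k : Type u) [Field k] [IsAlgClosed k] [CharP k p] (g : ℕ) :
    ∃ C : FFd k, genus k C.L = g ∧ HW0 k C.L p := by
  by_cases hp : p = 2
  · subst hp
    exact exists_hw0_two k g
  obtain ⟨α, h1, h2⟩ := exists_roots (k := k) p hp g
  have hd : (∏ i, (X - C (α i))).natDegree = 2 * g + 1 := by
    rw [natDegree_prod_of_monic _ _ fun x _ => monic_X_sub_C _]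
    simp
  have hs : (∏ i, (X - C (α i))).Separable := separable_prod_X_sub_C_iff.2 h1
  obtain ⟨D, x, y, h⟩ := exists_isHyp (∏ i, (X - C (α i))) ⟨g, hd⟩
  exact ⟨D, h.genus (Hyp_two p hp) hd hs, (h.hw0_iff p hp hd hs).2 h2⟩

end PR0
end
end
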