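import Pool.Agent.Work.MP_da2620_ag.Trans

/-! Quadrics and cubics in coordinates. -/

open MvPolynomial Matrix

namespace Pool.Agent.Work.MP_da2620_ag

variable {R S : Type*} [CommRing R] [CommRing S]

/-- the form with the given monomials and coefficients -/
noncomputable def form {ι : Type} [Fintype ι] (v : ι → Fin 4 → ℕ) (a : ι → R) :
    MvPolynomial (Fin 4) R :=
  ∑ i, monomial (Finsupp.equivFunOnFinite.symm (v i)) (a i)

section

variable {ι κ : Type} [Fintype ι] [Fintype κ] (v : ι → Fin 4 → ℕ) (w : κ → Fin 4 → ℕ)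

theorem form_map (φ : R →+* S) (a : ι → R) : map φ (form v a) = form v fun i => φ (a i) := by
  simp [form]

theorem form_hom {d : ℕ} (h : ∀ i, ∑ l, v i l = d) (a : ι → R) : (form v a).IsHomogeneous d :=
  IsHomogeneous.sum _ _ _ fun i _ => isHomogeneous_monomial _ (by
    rw [Finsupp.degree_eq_sum]
    exact h i)

theorem form_surj {d : ℕ} (hv : Function.Injective v)
    (h : ∀ a b c e : Fin (d + 1), a.1 + b.1 + c.1 + e.1 = d → ∃ i, v i = ![a.1, b.1, c.1, e.1])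
    {Q : MvPolynomial (Fin 4) R} (hQ : Q.IsHomogeneous d) : ∃ a, Q = form v a := by
  classical
  refine ⟨fun i => coeff (Finsupp.equivFunOnFinite.symm (v i)) Q, MvPolynomial.ext _ _ fun m => ?_⟩
  simp only [form, coeff_sum, coeff_monomial]
  by_cases hm : m.degree = d
  · rw [Finsupp.degree_eq_sum, Fin.sum_univ_four] at hm
    obtain ⟨i, hi⟩ := h ⟨m 0, by omega⟩ ⟨m 1, by omega⟩ ⟨m 2, by omega⟩ ⟨m 3, by omega⟩ hm
    have e : Finsupp.equivFunOnFinite.symm (v i) = m := by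
      ext l
      rw [hi]
      fin_cases l <;> rfl
    rw [Finset.sum_eq_single i, if_pos e, e]
    · intro j _ hj
      exact if_neg fun e' => hj (hv (Finsupp.equivFunOnFinite.symm.injective (e'.trans e.symm)))
    · simp
  · rw [hQ.coeff_eq_zero hm]
    refine (Finset.sum_eq_zero fun j _ => ?_).symm
    split_ifs with e
    · rw [e, hQ.coeff_eq_zero hm]
    · rfl

theorem eval_form (a : ι → R) (x : Fin 4 → R) : eval x (form v a) =
    ∑ i, a i * (x 0 ^ v i 0 * x 1 ^ v i 1 * x 2 ^ v i 2 * x 3 ^ v i 3) := by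
  simp [form, eval_monomial, Finsupp.prod_fintype, Fin.prod_univ_four]

theorem eval_pderiv_form (a : ι → R) (x : Fin 4 → R) (l : Fin 4) :
    eval x (pderiv l (form v a)) = ∑ i, a i * v i l * (x 0 ^ (v i 0 - if l = 0 then 1 else 0) *
      x 1 ^ (v i 1 - if l = 1 then 1 else 0) * x 2 ^ (v i 2 - if l = 2 then 1 else 0) *
      x 3 ^ (v i 3 - if l = 3 then 1 else 0)) := by
  simp [form, pderiv_monomial, eval_monomial, Finsupp.prod_fintype, Fin.prod_univ_four,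
    Finsupp.single_apply]

theorem form_mul (a : ι → R) (b : κ → R) : form v a * form w b =
    form (fun s : ι × κ => v s.1 + w s.2) fun s => a s.1 * b s.2 := by
  rw [form, form, form, Finset.sum_mul_sum, Fintype.sum_prod_type]
  refine Finset.sum_congr rfl fun i _ => Finset.sum_congr rfl fun j _ => ?_
  rw [monomial_mul]
  congr 2
  ext l
  simp

theorem coeff_form (a : ι → R) (m : Fin 4 →₀ ℕ) :
    coeff m (form v a) = ∑ i, if v i = m then a i else 0 := by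
  simp only [form, coeff_sum, coeff_monomial, Equiv.symm_apply_eq]
  rfl

end

/-- monomials of degree two -/
def v2 : Fin 10 → Fin 4 → ℕ :=
  ![![2, 0, 0, 0], ![1, 1, 0, 0], ![1, 0, 1, 0], ![1, 0, 0, 1], ![0, 2, 0, 0],
    ![0, 1, 1, 0], ![0, 1, 0, 1], ![0, 0, 2, 0], ![0, 0, 1, 1], ![0, 0, 0, 2]]

/-- monomials of degree three -/
def v3 : Fin 20 → Fin 4 → ℕ :=
  ![![3, 0, 0, 0], ![2, 1, 0, 0], ![2, 0, 1, 0], ![2, 0, 0, 1], ![1, 2, 0, 0],
    ![1, 1, 1, 0], ![1, 1, 0, 1], ![1, 0, 2, 0], ![1, 0, 1, 1], ![1, 0, 0, 2],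
    ![0, 3, 0, 0], ![0, 2, 1, 0], ![0, 2, 0, 1], ![0, 1, 2, 0], ![0, 1, 1, 1],
    ![0, 1, 0, 2], ![0, 0, 3, 0], ![0, 0, 2, 1], ![0, 0, 1, 2], ![0, 0, 0, 3]]

theorem quad_hom (a : Fin 10 → R) : (form v2 a).IsHomogeneous 2 := form_hom _ (by decide) a

theorem cub_hom (c : Fin 20 → R) : (form v3 c).IsHomogeneous 3 := form_hom _ (by decide) c

theorem quad_surj {Q : MvPolynomial (Fin 4) R} (h : Q.IsHomogeneous 2) : ∃ a, Q = form v2 a :=
  form_surj _ (by decide) (by decide) h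

theorem cub_surj {F : MvPolynomial (Fin 4) R} (h : F.IsHomogeneous 3) : ∃ c, F = form v3 c :=
  form_surj _ (by decide) (by decide) h

/-- the value of a quadric -/
def qv (a : Fin 10 → R) (x : Fin 4 → R) : R :=
  a 0 * x 0 ^ 2 + a 1 * x 0 * x 1 + a 2 * x 0 * x 2 + a 3 * x 0 * x 3 + a 4 * x 1 ^ 2 +
    a 5 * x 1 * x 2 + a 6 * x 1 * x 3 + a 7 * x 2 ^ 2 + a 8 * x 2 * x 3 + a 9 * x 3 ^ 2

/-- the polar form of a quadric -/
def qb (a : Fin 10 → R) (x y : Fin 4 → R) : R :=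
  a 0 * (2 * x 0 * y 0) + a 1 * (x 0 * y 1 + x 1 * y 0) + a 2 * (x 0 * y 2 + x 2 * y 0) +
    a 3 * (x 0 * y 3 + x 3 * y 0) + a 4 * (2 * x 1 * y 1) + a 5 * (x 1 * y 2 + x 2 * y 1) +
    a 6 * (x 1 * y 3 + x 3 * y 1) + a 7 * (2 * x 2 * y 2) + a 8 * (x 2 * y 3 + x 3 * y 2) +
    a 9 * (2 * x 3 * y 3)

/-- the value of a cubic -/
def cv (c : Fin 20 → R) (x : Fin 4 → R) : R :=
  c 0 * x 0 ^ 3 + c 1 * x 0 ^ 2 * x 1 + c 2 * x 0 ^ 2 * x 2 + c 3 * x 0 ^ 2 * x 3 +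
    c 4 * x 0 * x 1 ^ 2 + c 5 * x 0 * x 1 * x 2 + c 6 * x 0 * x 1 * x 3 + c 7 * x 0 * x 2 ^ 2 +
    c 8 * x 0 * x 2 * x 3 + c 9 * x 0 * x 3 ^ 2 + c 10 * x 1 ^ 3 + c 11 * x 1 ^ 2 * x 2 +
    c 12 * x 1 ^ 2 * x 3 + c 13 * x 1 * x 2 ^ 2 + c 14 * x 1 * x 2 * x 3 + c 15 * x 1 * x 3 ^ 2 +
    c 16 * x 2 ^ 3 + c 17 * x 2 ^ 2 * x 3 + c 18 * x 2 * x 3 ^ 2 + c 19 * x 3 ^ 3

theorem eval_quad (a : Fin 10 → R) (x : Fin 4 → R) : eval x (form v2 a) = qv a x := by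
  simp [eval_form, Fin.sum_univ_succ, v2, qv]
  ring

theorem eval_cub (c : Fin 20 → R) (x : Fin 4 → R) : eval x (form v3 c) = cv c x := by
  simp [eval_form, Fin.sum_univ_succ, v3, cv]
  ring

theorem eval_pderiv_quad (a : Fin 10 → R) (x : Fin 4 → R) (l : Fin 4) :
    eval x (pderiv l (form v2 a)) = qb a x (Pi.single l 1) := by
  fin_cases l <;> simp [eval_pderiv_form, Fin.sum_univ_succ, v2, qb] <;> ring

theorem ex_coe (p : ℕ) (i j : Fin 4) : ⇑(p • ex j - ex i) =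
    fun l => p * ((if j = l then 1 else 0) + 1) - ((if i = l then 1 else 0) + 1) := by
  ext l
  simp [ex, Finsupp.single_apply, mul_add]

/-- the Hasse-Witt matrix in characteristic two -/
def hw2 (a : Fin 10 → R) (c : Fin 20 → R) : Matrix (Fin 4) (Fin 4) R :=
  !![a 0 * c 14 + a 1 * c 8 + a 2 * c 6 + a 3 * c 5 + a 5 * c 3 + a 6 * c 2 + a 8 * c 1,
     a 4 * c 14 + a 5 * c 12 + a 6 * c 11 + a 8 * c 10,
     a 5 * c 17 + a 6 * c 16 + a 7 * c 14 + a 8 * c 13,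
     a 5 * c 19 + a 6 * c 18 + a 8 * c 15 + a 9 * c 14;
    a 0 * c 8 + a 2 * c 3 + a 3 * c 2 + a 8 * c 0,
     a 1 * c 14 + a 2 * c 12 + a 3 * c 11 + a 4 * c 8 + a 5 * c 6 + a 6 * c 5 + a 8 * c 4,
     a 2 * c 17 + a 3 * c 16 + a 7 * c 8 + a 8 * c 7,
     a 2 * c 19 + a 3 * c 18 + a 8 * c 9 + a 9 * c 8;
    a 0 * c 6 + a 1 * c 3 + a 3 * c 1 + a 6 * c 0,
     a 1 * c 12 + a 3 * c 10 + a 4 * c 6 + a 6 * c 4,
     a 1 * c 17 + a 2 * c 14 + a 3 * c 13 + a 5 * c 8 + a 6 * c 7 + a 7 * c 6 + a 8 * c 5,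
     a 1 * c 19 + a 3 * c 15 + a 6 * c 9 + a 9 * c 6;
    a 0 * c 5 + a 1 * c 2 + a 2 * c 1 + a 5 * c 0,
     a 1 * c 11 + a 2 * c 10 + a 4 * c 5 + a 5 * c 4,
     a 1 * c 16 + a 2 * c 13 + a 5 * c 7 + a 7 * c 5,
     a 1 * c 18 + a 2 * c 15 + a 3 * c 14 + a 5 * c 9 + a 6 * c 8 + a 8 * c 6 + a 9 * c 5]

theorem hasseWitt_two (a : Fin 10 → R) (c : Fin 20 → R) :
    hasseWitt 2 (form v2 a) (form v3 c) = hw2 a c := by
  ext i j
  rw [hasseWitt, Matrix.of_apply, pow_one, form_mul, coeff_form, ex_coe, Fintype.sum_prod_type]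
  fin_cases i <;> fin_cases j <;> simp +decide [Fin.sum_univ_succ, hw2] <;> ring

end Pool.Agent.Work.MP_da2620_ag
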