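import Pool.Agent.Work.MP_da2620_ag.Stmt

/-!
# Good reduction, with the two affine charts of the model
-/

namespace PR0

universe u

variable (k K : Type u) {L L₀ : Type u} [Field k] [Field K] [Field L] [Field L₀] [Algebra K L]
  [Algebra k L₀]

/-- The ring `A` of elements of `w` integral over `K[x]` is a finite module over `O[x]`, `O = w ∩ K`, and
reduces onto the integral closure of `k[x̄]` in `L₀`. -/
def AffineChart (w : ValuationSubring L) (ρ : w →+* L₀) (x : w) : Prop :=
  (∃ s : Finset L, ∀ f : L, (f ∈ w ∧ IsIntegral (Algebra.adjoin K {(x : L)}) f) ↔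
    f ∈ Submodule.span
      (Subring.closure (insert (x : L) {c | c ∈ w ∧ c ∈ Set.range (algebraMap K L)})) (s : Set L)) ∧
  ∀ f₀ : L₀, IsIntegral (Algebra.adjoin k {ρ x}) f₀ ↔
    ∃ f : w, IsIntegral (Algebra.adjoin K {(x : L)}) (f : L) ∧ ρ f = f₀

variable (L L₀)

/-- `L / K` has good reduction `L₀ / k` at a valuation `w` of `L` which is trivial on `k`, has residue
field `L₀`, the value group of `K`, whose restriction to `K` has residue field `k`, and for which
some `x` with transcendental residue gives affine charts for `x` and `1 / x`. -/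
def GoodRed [Algebra k K] : Prop :=
  ∃ (w : ValuationSubring L) (ρ : w →+* L₀), Function.Surjective ρ ∧
    (∀ f : w, ρ f = 0 ↔ w.valuation f < 1) ∧
    (∀ c : k, ∃ h : algebraMap K L (algebraMap k K c) ∈ w, ρ ⟨_, h⟩ = algebraMap k L₀ c) ∧
    (∀ (c : K) (h : algebraMap K L c ∈ w), ∃ c₀ : k, ρ ⟨_, h⟩ = algebraMap k L₀ c₀) ∧
    (∀ f : L, ∃ c : K, w.valuation f = w.valuation (algebraMap K L c)) ∧
    ∃ x y : w, x * y = 1 ∧ Transcendental k (ρ x) ∧ AffineChart k K w ρ x ∧ AffineChart k K w ρ y

end PR0
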