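import Pool.Agent.Work.MP_da2620_ag.Pt2

/-!
# The Hahn series field `κ((τ^ℝ))`: spherical completeness, lattices

`sph`: define the limit coefficientwise (coefficient at `γ` is the coefficient of `a i` for any `i`
with `γ < r i`, and `0` if there is none; treat the case that the `r i` have a maximum apart); the
support is well ordered since each initial piece is the piece of the support of some `a i`.
`lat`: put `nm v = - hv c` for a primitive scaling `c • v`; it is an ultrametric norm.  Induction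
on the dimension: best approximations from a subspace with an orthonormal basis exist (apply `sph`
to each coordinate of a maximising family: the sets `{u | nm (v - u) ≥ γ}` are nested products
of balls), and the normalised difference extends the orthonormal family.
-/

namespace PR0

universe u

/-- The Hahn series field. -/
def HF (κ : Type u) [Field κ] : Type u := HahnSeries ℝ κ

variable {κ : Type u} [Field κ]

noncomputable instance : Field (HF κ) := inferInstanceAs (Field (HahnSeries ℝ κ))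
noncomputable instance (k : Type u) [Field k] [Algebra k κ] : Algebra k (HF κ) :=
  ((HahnSeries.C : κ →+* HahnSeries ℝ κ).comp (algebraMap k κ) : k →+* HF κ).toAlgebra
instance (k k' : Type u) [Field k] [Field k'] [Algebra k k'] [Algebra k κ] [Algebra k' κ]
    [IsScalarTower k k' κ] : IsScalarTower k k' (HF κ) :=
  IsScalarTower.of_algebraMap_eq fun c =>
    congrArg (HahnSeries.C : κ →+* HahnSeries ℝ κ) (IsScalarTower.algebraMap_apply k k' κ c)

/-- The underlying series. -/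
def HF.ser (x : HF κ) : HahnSeries ℝ κ := x

/-- The additive valuation. -/
noncomputable def hv (x : HF κ) : WithTop ℝ := x.ser.orderTop

/-- The monomial `τ ^ γ`. -/
noncomputable def τ (κ : Type u) [Field κ] (γ : ℝ) : HF κ := (HahnSeries.single γ 1 : HahnSeries ℝ κ)

theorem hv_mul (x y : HF κ) : hv (x * y) = hv x + hv y := HahnSeries.orderTop_mul x.ser y.ser
theorem hv_add (x y : HF κ) : min (hv x) (hv y) ≤ hv (x + y) :=
  HahnSeries.min_orderTop_le_orderTop_add (x := x.ser) (y := y.ser)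
theorem hv_neg (x : HF κ) : hv (-x) = hv x := HahnSeries.orderTop_neg (x := x.ser)
theorem hv_one : hv (1 : HF κ) = 0 := HahnSeries.orderTop_one (R := κ) (Γ := ℝ)
theorem hv_eq_top {x : HF κ} : hv x = ⊤ ↔ x = 0 := HahnSeries.orderTop_eq_top (x := x.ser)
theorem hv_pow (x : HF κ) (n : ℕ) : hv (x ^ n) = n • hv x := by
  induction n with
  | zero => rw [pow_zero, hv_one, zero_nsmul]
  | succ n ih => rw [pow_succ, hv_mul, ih, succ_nsmul]
theorem hv_τ (γ : ℝ) : hv (τ κ γ) = γ := HahnSeries.orderTop_single one_ne_zero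
theorem τ_add (γ δ : ℝ) : τ κ (γ + δ) = τ κ γ * τ κ δ := by
  have h := HahnSeries.single_mul_single (a := γ) (b := δ) (r := (1 : κ)) (s := 1)
  rw [mul_one] at h
  exact h.symm
theorem τ_zero : τ κ 0 = 1 := rfl
theorem τ_ne_zero (γ : ℝ) : τ κ γ ≠ 0 := fun h => WithTop.coe_ne_top ((hv_τ γ).symm.trans (hv_eq_top.2 h))
theorem hv_add_of_lt {x y : HF κ} (h : hv x < hv y) : hv (x + y) = hv x :=
  HahnSeries.orderTop_add_eq_left (x := x.ser) (y := y.ser) h
theorem hv_const {c : κ} (h : c ≠ 0) : hv (algebraMap κ (HF κ) c) = 0 :=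
  HahnSeries.orderTop_single (a := (0 : ℝ)) h

theorem Hahn_real {x : HF κ} (h : x ≠ 0) : ∃ ρ : ℝ, hv x = ρ :=
  (WithTop.ne_top_iff_exists.1 (hv_eq_top.not.2 h)).imp fun _ e => e.symm

theorem Hahn_div {x y : HF κ} (hy : y ≠ 0) : 0 ≤ hv (x / y) ↔ hv y ≤ hv x := by
  rw [← WithTop.add_le_add_iff_right (hv_eq_top.not.2 hy), zero_add, ← hv_mul, div_mul_cancel₀ x hy]

/-- The valuation ring. -/
noncomputable def HO (κ : Type u) [Field κ] : ValuationSubring (HF κ) where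
  carrier := {x | 0 ≤ hv x}
  mul_mem' := fun {a b} ha hb => by
    change 0 ≤ hv (a * b)
    rw [hv_mul]
    exact add_nonneg ha hb
  one_mem' := hv_one.ge
  add_mem' := fun {a b} ha hb => (le_min ha hb).trans (hv_add a b)
  zero_mem' := (le_top : (0 : WithTop ℝ) ≤ ⊤).trans_eq (hv_eq_top.2 rfl).symm
  neg_mem' := fun {a} ha => ha.trans_eq (hv_neg a).symm
  mem_or_inv_mem' := fun x => by
    change 0 ≤ hv x ∨ 0 ≤ hv x⁻¹
    by_cases h : x = 0
    · exact Or.inl (le_top.trans_eq (hv_eq_top.2 h).symm)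
    · rw [inv_eq_one_div, Hahn_div h, hv_one]
      exact le_total _ _

theorem mem_HO {x : HF κ} : x ∈ HO κ ↔ 0 ≤ hv x := Iff.rfl
theorem const_mem (c : κ) : algebraMap κ (HF κ) c ∈ HO κ := by
  by_cases h : c = 0
  · rw [h, map_zero]
    exact zero_mem _
  · exact (hv_const h).ge

theorem const_mem' (k : Type u) [Field k] [Algebra k κ] (c : k) :
    algebraMap k (HF κ) c ∈ HO κ := const_mem (algebraMap k κ c)

theorem Hahn_pos {x : HF κ} (h : 0 ≤ hv x) : x.ser.coeff 0 = 0 ↔ 0 < hv x :=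
  ⟨fun e => lt_of_le_of_ne h (HahnSeries.orderTop_ne_of_coeff_eq_zero e).symm,
    fun e => HahnSeries.coeff_eq_zero_of_lt_orderTop e⟩

theorem Hahn_coeff_mul {x y : HF κ} (hx : x ∈ HO κ) (hy : y ∈ HO κ) :
    (x * y).ser.coeff 0 = x.ser.coeff 0 * y.ser.coeff 0 := by
  have h1 : 0 < hv (x - algebraMap κ (HF κ) (x.ser.coeff 0)) := by
    refine (Hahn_pos (sub_mem hx (const_mem _))).1 ?_
    change (x.ser - HahnSeries.single 0 (x.ser.coeff 0)).coeff 0 = 0
    simp
  have h2 : 0 < hv ((x - algebraMap κ (HF κ) (x.ser.coeff 0)) * y) := by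
    rw [hv_mul]
    exact h1.trans_le (le_add_of_nonneg_right hy)
  have h3 := (Hahn_pos h2.le).2 h2
  rw [sub_mul] at h3
  change ((x * y).ser - HahnSeries.single 0 (x.ser.coeff 0) * y.ser).coeff 0 = 0 at h3
  rwa [HahnSeries.coeff_sub, HahnSeries.coeff_single_zero_mul, sub_eq_zero] at h3

noncomputable instance instAlgHO (k : Type u) [Field k] [Algebra k κ] : Algebra k (HO κ) :=
  ((algebraMap k (HF κ)).codRestrict (HO κ).toSubring (const_mem' k)).toAlgebra
instance (k : Type u) [Field k] [Algebra k κ] : IsScalarTower k (HO κ) (HF κ) :=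
  @IsScalarTower.of_algebraMap_eq k (HO κ) (HF κ) _ _ _ _ _ _ fun _ => rfl
instance (k k' : Type u) [Field k] [Field k'] [Algebra k k'] [Algebra k κ] [Algebra k' κ]
    [IsScalarTower k k' κ] : IsScalarTower k k' (HO κ) :=
  IsScalarTower.of_algebraMap_eq fun c => Subtype.ext (IsScalarTower.algebraMap_apply k k' (HF κ) c)

/-- The residue map. -/
noncomputable def hres : HO κ →ₐ[κ] κ where
  toFun x := x.1.ser.coeff 0
  map_one' := HahnSeries.coeff_single_same (0 : ℝ) (1 : κ)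
  map_mul' := fun x y => Hahn_coeff_mul x.2 y.2
  map_zero' := rfl
  map_add' := fun _ _ => rfl
  commutes' := fun c => HahnSeries.coeff_single_same (0 : ℝ) c

theorem hres_eq_zero {x : HO κ} : hres x = 0 ↔ 0 < hv x.1 := Hahn_pos x.2
theorem isUnit_HO {x : HO κ} : IsUnit x ↔ hv x.1 = 0 := by
  constructor
  · intro h
    obtain ⟨y, hy⟩ := h.exists_right_inv
    have h1 := hv_mul x.1 y.1
    rw [show x.1 * y.1 = 1 from congrArg Subtype.val hy, hv_one] at h1
    exact le_antisymm ((le_add_of_nonneg_right y.2).trans_eq h1.symm) x.2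
  · intro h
    have h0 : x.1 ≠ 0 := fun e => by
      rw [hv_eq_top.2 e] at h
      exact WithTop.top_ne_zero h
    exact IsUnit.of_mul_eq_one ⟨1 / x.1, (Hahn_div h0).2 (h.trans hv_one.symm).le⟩
      (Subtype.ext (mul_one_div_cancel h0))
theorem mem_max_HO {x : HO κ} : x ∈ IsLocalRing.maximalIdeal (HO κ) ↔ 0 < hv x.1 := by
  rw [IsLocalRing.mem_maximalIdeal, mem_nonunits_iff, isUnit_HO]
  exact ⟨fun h => lt_of_le_of_ne x.2 (Ne.symm h), fun h => h.ne'⟩
theorem valuation_le_HO {x y : HF κ} : (HO κ).valuation x ≤ (HO κ).valuation y ↔ hv y ≤ hv x :=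
  by
    rw [ValuationSubring.valuation_le_iff]
    constructor
    · rintro ⟨a, rfl⟩
      rw [hv_mul]
      exact le_add_of_nonneg_left a.2
    · intro h
      by_cases hy : y = 0
      · rw [hv_eq_top.2 hy, top_le_iff, hv_eq_top] at h
        exact ⟨0, by rw [h, hy, mul_zero]⟩
      · exact ⟨⟨x / y, (Hahn_div hy).2 h⟩, div_mul_cancel₀ x hy⟩
instance (p : ℕ) [CharP κ p] : CharP (HF κ) p :=
  charP_of_injective_algebraMap (algebraMap κ (HF κ)).injective p

/-- Spherical completeness. -/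
theorem sph {α : Type*} [Nonempty α] (a : α → HF κ) (r : α → ℝ)
    (h : ∀ i j, ((min (r i) (r j) : ℝ) : WithTop ℝ) ≤ hv (a i - a j)) :
    ∃ x : HF κ, ∀ i, (r i : WithTop ℝ) ≤ hv (x - a i) := by
  classical
  obtain ⟨c, h1, h2⟩ : ∃ c : ℝ → κ, (∀ γ i, γ < r i → c γ = (a i).ser.coeff γ) ∧
      ∀ γ, c γ ≠ 0 → ∃ i, γ < r i := by
    refine ⟨fun γ => if e : ∃ i, γ < r i then (a e.choose).ser.coeff γ else 0,
      fun γ i hi => ?_, fun γ hγ => ?_⟩
    · have e : ∃ i, γ < r i := ⟨i, hi⟩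
      have h3 := HahnSeries.le_orderTop_iff_forall.1 (h e.choose i) γ
        (WithTop.coe_lt_coe.2 (lt_min e.choose_spec hi))
      change ((a e.choose).ser - (a i).ser).coeff γ = 0 at h3
      rw [HahnSeries.coeff_sub, sub_eq_zero] at h3
      exact (dif_pos e).trans h3
    · by_contra e
      exact hγ (dif_neg e)
  have hw : (Function.support c).IsWF := Set.isWF_iff_no_descending_seq.2 fun f hf hs => by
    obtain ⟨i, hi⟩ := h2 _ (hs 0)
    refine Set.isWF_iff_no_descending_seq.1 (a i).ser.isWF_support f hf fun n => ?_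
    have h3 := hs n
    rwa [Function.mem_support, h1 _ i ((hf.antitone (Nat.zero_le n)).trans_lt hi)] at h3
  refine ⟨(⟨c, hw.isPWO⟩ : HahnSeries ℝ κ), fun i =>
    HahnSeries.le_orderTop_iff_forall.2 fun γ hγ => ?_⟩
  change ((⟨c, hw.isPWO⟩ : HahnSeries ℝ κ) - (a i).ser).coeff γ = 0
  rw [HahnSeries.coeff_sub, sub_eq_zero]
  exact h1 γ i (WithTop.coe_lt_coe.1 hγ)

theorem Hahn_τ_mul {γ : ℝ} {x : HF κ} : τ κ (-γ) * x ∈ HO κ ↔ (γ : WithTop ℝ) ≤ hv x := by
  have e : τ κ (-γ) * x = x / τ κ γ := by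
    rw [eq_div_iff (τ_ne_zero γ), mul_right_comm, ← τ_add, neg_add_cancel, τ_zero, one_mul]
  rw [mem_HO, e, Hahn_div (τ_ne_zero γ), hv_τ]

section Lat

variable {V : Type*} [AddCommGroup V] [Module (HF κ) V] {Λ : AddSubgroup V}

theorem Hahn_mono (hΛ : ∀ c ∈ HO κ, ∀ v ∈ Λ, c • v ∈ Λ) {d d' : HF κ} (hd : d ≠ 0)
    (h : hv d ≤ hv d') {v : V} (hv' : d • v ∈ Λ) : d' • v ∈ Λ := by
  have := hΛ _ ((Hahn_div hd).2 h) _ hv'
  rwa [smul_smul, div_mul_cancel₀ _ hd] at this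

theorem Hahn_best (hΛ : ∀ c ∈ HO κ, ∀ v ∈ Λ, c • v ∈ Λ) {n : ℕ} {b : Fin n → V}
    (hb : ∀ c : Fin n → HF κ, ∑ j, c j • b j ∈ Λ ↔ ∀ j, c j ∈ HO κ) {v : V} {d₀ : HF κ}
    (h0 : d₀ ≠ 0) (hv0 : d₀ • v ∈ Λ) : ∃ x : Fin n → HF κ, ∀ (u : Fin n → HF κ) (d : HF κ),
      d ≠ 0 → d • (v - ∑ j, u j • b j) ∈ Λ → d • (v - ∑ j, x j • b j) ∈ Λ := by
  have key : ∀ (γ : ℝ) (u u' : Fin n → HF κ),
      τ κ (-γ) • (∑ j, u j • b j - ∑ j, u' j • b j) ∈ Λ ↔
        ∀ j, (γ : WithTop ℝ) ≤ hv (u j - u' j) := fun γ u u' => by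
    simp only [← Hahn_τ_mul, ← hb, ← Finset.sum_sub_distrib, Finset.smul_sum, ← sub_smul, smul_smul]
  have conv : ∀ d : HF κ, d ≠ 0 → ∃ γ : ℝ, ∀ w : V, d • w ∈ Λ ↔ τ κ (-γ) • w ∈ Λ := fun d hd => by
    obtain ⟨ρ, hρ⟩ := Hahn_real hd
    have e : hv (τ κ (- -ρ)) = hv d := by rw [neg_neg, hv_τ, hρ]
    exact ⟨-ρ, fun w => ⟨Hahn_mono hΛ hd e.ge, Hahn_mono hΛ (τ_ne_zero _) e.le⟩⟩
  have : Nonempty {p : (Fin n → HF κ) × ℝ // τ κ (-p.2) • (v - ∑ j, p.1 j • b j) ∈ Λ} := by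
    obtain ⟨γ, hγ⟩ := conv d₀ h0
    exact ⟨⟨(0, γ), by simpa using (hγ v).1 hv0⟩⟩
  choose x hx using fun j => sph
    (fun p : {p : (Fin n → HF κ) × ℝ // τ κ (-p.2) • (v - ∑ j, p.1 j • b j) ∈ Λ} => p.1.1 j)
    (fun p => p.1.2) fun p p' => by
      refine (key _ _ _).1 ?_ j
      have h1 := Hahn_mono hΛ (τ_ne_zero _) (d' := τ κ (-min p.1.2 p'.1.2))
        (by rw [hv_τ, hv_τ]; exact WithTop.coe_le_coe.2 (neg_le_neg (min_le_left _ _))) p.2
      have h2 := Hahn_mono hΛ (τ_ne_zero _) (d' := τ κ (-min p.1.2 p'.1.2))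
        (by rw [hv_τ, hv_τ]; exact WithTop.coe_le_coe.2 (neg_le_neg (min_le_right _ _))) p'.2
      have h3 := sub_mem h2 h1
      rwa [← smul_sub, sub_sub_sub_cancel_left] at h3
  refine ⟨x, fun u d hd hu => ?_⟩
  obtain ⟨γ, hγ⟩ := conv d hd
  have h1 := (hγ _).1 hu
  have h2 := sub_mem h1 ((key γ x u).2 fun j => hx j ⟨(u, γ), h1⟩)
  rw [← smul_sub, sub_sub, add_sub_cancel] at h2
  exact (hγ _).2 h2

theorem Hahn_fam (hΛ : ∀ c ∈ HO κ, ∀ v ∈ Λ, c • v ∈ Λ)
    (h : ∀ v : V, v ≠ 0 → ∃ c : HF κ, c ≠ 0 ∧ c • v ∈ Λ ∧ ∀ e : HF κ, e • c • v ∈ Λ → e ∈ HO κ)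
    (n : ℕ) (hn : n ≤ Module.finrank (HF κ) V) :
    ∃ b : Fin n → V, ∀ c : Fin n → HF κ, ∑ j, c j • b j ∈ Λ ↔ ∀ j, c j ∈ HO κ := by
  induction n with
  | zero => exact ⟨Fin.elim0, fun c => by simp⟩
  | succ n ih =>
    obtain ⟨b, hb⟩ := ih (by omega)
    obtain ⟨v, hv'⟩ : ∃ v : V, ∀ u : Fin n → HF κ, v - ∑ j, u j • b j ≠ 0 := by
      by_contra hc
      push Not at hc
      have h1 := finrank_le_of_span_eq_top (R := HF κ) (v := b) (top_unique fun v _ => by
        obtain ⟨u, hu⟩ := hc v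
        exact (Submodule.mem_span_range_iff_exists_fun _).2 ⟨u, (sub_eq_zero.1 hu).symm⟩)
      rw [Fintype.card_fin] at h1
      omega
    obtain ⟨d₀, h0, hv0, -⟩ := h v (by simpa using hv' 0)
    obtain ⟨x, hx⟩ := Hahn_best hΛ hb h0 hv0
    obtain ⟨d, hd, hw, hp⟩ := h _ (hv' x)
    refine ⟨Fin.cons (d • (v - ∑ j, x j • b j)) b, fun c => ?_⟩
    rw [Fin.sum_univ_succ, Fin.forall_fin_succ, ← hb]
    simp only [Fin.cons_zero, Fin.cons_succ]
    refine ⟨fun hc => ?_, fun hc => add_mem (hΛ _ hc.1 _ hw) hc.2⟩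
    have h1 : c 0 ∈ HO κ := by
      by_cases e : c 0 = 0
      · rw [e]
        exact zero_mem _
      have h2 := mul_ne_zero e hd
      refine hp _ ?_
      rw [smul_smul]
      refine hx (fun j => x j - (c 0 * d)⁻¹ * c j.succ) _ h2 ?_
      convert hc using 1
      simp only [sub_smul, Finset.sum_sub_distrib, mul_smul (c 0 * d)⁻¹, ← Finset.smul_sum]
      rw [← sub_add, smul_add, smul_inv_smul₀ h2, smul_smul]
    exact ⟨h1, by simpa using sub_mem hc (hΛ _ h1 _ hw)⟩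

end Lat

/-- Lattices in which every vector has a primitive multiple are free. -/
theorem lat {V : Type*} [AddCommGroup V] [Module (HF κ) V] [FiniteDimensional (HF κ) V]
    (Λ : AddSubgroup V) (hΛ : ∀ c ∈ HO κ, ∀ v ∈ Λ, c • v ∈ Λ)
    (h : ∀ v : V, v ≠ 0 → ∃ c : HF κ, c ≠ 0 ∧ c • v ∈ Λ ∧ ∀ e : HF κ, e • c • v ∈ Λ → e ∈ HO κ) :
    ∃ b : Module.Basis (Fin (Module.finrank (HF κ) V)) (HF κ) V,
      ∀ v, v ∈ Λ ↔ ∀ i, b.repr v i ∈ HO κ := by
  obtain ⟨b, hb⟩ := Hahn_fam hΛ h _ le_rfl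
  have li : LinearIndependent (HF κ) b := Fintype.linearIndependent_iff.2 fun c hc j => by
    by_contra hj
    have h1 := (hb fun i => τ κ (-1) / c j * c i).1 (by
      simp only [mul_smul, ← Finset.smul_sum, hc, smul_zero]
      exact zero_mem _) j
    rw [div_mul_cancel₀ _ hj, mem_HO, hv_τ] at h1
    exact absurd (WithTop.coe_le_coe.1 h1) (by norm_num)
  refine ⟨basisOfLinearIndependentOfCardEqFinrank' b li (Fintype.card_fin _), fun v => ?_⟩
  rw [← hb]
  have h1 := (basisOfLinearIndependentOfCardEqFinrank' b li (Fintype.card_fin _)).sum_repr v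
  rw [coe_basisOfLinearIndependentOfCardEqFinrank'] at h1
  rw [h1]

end PR0
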