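import Pool.Agent.Work.MP_da2620_ag.Disc
import Pool.Agent.Work.MP_da2620_ag.Cone

/-!
# Residues at infinity

`rs F` is the sum of the coefficients of `t` (minus the residue of `F dx`).  For a chart point `A`
with a basis `ω` over `k[x]`, multiplication by `f`, `h` is given by polynomial matrices which are
conjugate to diagonal matrices; a trace computation gives the symmetry
`rs (D f * ∂ h) = rs (D h * ∂ f)` for derivations `D : A → LT / A` killing `x`; for `D = 0` this is the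
residue theorem.
-/

namespace PR0

open Polynomial Matrix

universe u

variable {k : Type u} [Field k] {ι : Type}

/-- componentwise `d / dx` -/
noncomputable def dT : Derivation k (LT ι k) (LT ι k) :=
  Derivation.mk' (LinearMap.pi fun i =>
    (LS.dx : Derivation k (LS k) (LS k)).toLinearMap ∘ₗ LinearMap.proj i)
    fun a b => funext fun i => LS.dx.leibniz (a i) (b i)

theorem dT_apply (F : LT ι k) (i : ι) : dT F i = LS.dx (F i) := rfl

theorem dT_mul (F G : LT ι k) : dT (F * G) = F * dT G + G * dT F := dT.leibniz F G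

theorem dT_xx : dT (xx ι k) = 1 := funext fun _ => LS.dx_T

theorem dT_pow (p : ℕ) [Fact p.Prime] [CharP k p] (F : LT ι k) : dT (F ^ p) = 0 := funext fun i => by
  rw [dT_apply, Pi.pow_apply, Derivation.leibniz_pow, ← Nat.cast_smul_eq_nsmul (LS k),
    CharP.cast_eq_zero, zero_smul, Pi.zero_apply]

theorem dT_pole {F : LT ι k} (h : Pole F 0) : Pole (dT F) (-2) := fun i =>
  (LS.Ge.dx ((h i).mono (by simp))).mono (by simp)

theorem HermTA_aeval (φ : k[X]) (i : ι) : aeval (xx ι k) φ i = aeval (LS.T k (-1)) φ :=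
  (aeval_algHom_apply (Pi.evalAlgHom k (fun _ : ι => LS k) i) (xx ι k) φ).symm

theorem HermTA_cf (φ : k[X]) : (aeval (LS.T k (-1)) φ).cf 1 = 0 := by
  rw [aeval_eq_sum_range, LS.cf_sum]
  refine Finset.sum_eq_zero fun n _ => ?_
  rw [LS.cf_smul, LS.T_pow, LS.cf_T, if_neg (by omega), mul_zero]

theorem HermTA_dx (φ : k[X]) :
    LS.dx (aeval (LS.T k (-1)) φ) = aeval (LS.T k (-1)) (derivative φ) := by
  rw [Derivation.comp_aeval_eq, LS.dx_T, smul_eq_mul, mul_one]

theorem HermTA_mem {A : Subalgebra k (LT ι k)} (hx : xx ι k ∈ A) (φ : k[X]) :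
    aeval (xx ι k) φ ∈ A :=
  Algebra.adjoin_le (Set.singleton_subset_iff.2 hx) (aeval_mem_adjoin_singleton k _)

variable [Fintype ι]

/-- minus the sum of the residues of `F dx` -/
noncomputable def rs : LT ι k →ₗ[k] k where
  toFun F := ∑ i, (F i).cf 1
  map_add' F G := by simp only [Pi.add_apply, LS.cf_add, Finset.sum_add_distrib]
  map_smul' c F := by simp only [Pi.smul_apply, LS.cf_smul, Finset.mul_sum, RingHom.id_apply,
    smul_eq_mul]

theorem rs_apply (F : LT ι k) : rs F = ∑ i, (F i).cf 1 := rfl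

theorem rs_pole {F G : LT ι k} {n m : ℤ} (hF : Pole F n) (hG : Pole G m) (h : n + m ≤ -2) :
    rs (F * G) = 0 :=
  Finset.sum_eq_zero fun i _ => Univ_pole_mul hF hG i 1 (by omega)

variable [DecidableEq ι]

theorem rs_nondeg {G : LT ι k} (h : ∀ F, rs (F * G) = 0) : G = 0 := by
  funext i
  refine LS.ext fun n => ?_
  have := h (Pi.single i (LS.T k (1 - n)))
  rw [rs_apply, Finset.sum_eq_single i (fun j _ hj => by simp [Pi.single_eq_of_ne hj]) (by simp),
    Pi.mul_apply, Pi.single_eq_same, LS.cf_T_mul, sub_sub_cancel] at this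
  exact this

theorem rs_onto {κ : Type} [Fintype κ] {ω : κ → LT ι k} (h : LinearIndependent k ω) (z : κ → k) :
    ∃ F, ∀ l, rs (F * ω l) = z l := by
  classical
  let ψ : LT ι k →ₗ[k] κ → k := LinearMap.pi fun l => rs ∘ₗ LinearMap.mulRight k (ω l)
  suffices H : LinearMap.range ψ = ⊤ from
    (LinearMap.range_eq_top.1 H z).imp fun F hF l => congrFun hF l
  by_contra H
  obtain ⟨f, h0, h1⟩ := Submodule.exists_le_ker_of_lt_top _ (lt_top_iff_ne_top.2 H)
  have h2 := Fintype.linearIndependent_iff.1 h (fun l => f fun j => if l = j then 1 else 0)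
    (rs_nondeg fun F => by
      have : f (ψ F) = 0 := h1 ⟨F, rfl⟩
      rw [LinearMap.pi_apply_eq_sum_univ] at this
      rw [Finset.mul_sum, map_sum]
      exact Eq.trans (Finset.sum_congr rfl fun l _ => by
        rw [mul_smul_comm, map_smul, smul_eq_mul, smul_eq_mul, mul_comm]; rfl) this)
  exact h0 (LinearMap.ext fun v => by
    rw [LinearMap.pi_apply_eq_sum_univ]; simp [h2])

variable {J : Finset (ι × ℕ)} {A : Subalgebra k (LT ι k)}

theorem IsChart.HermTA_dec (h : IsChart J A) (i₀ : ι) (F : LT ι k) :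
    ∃ a ∈ A, Pole (F - pv J (cls i₀ J A F) - a) 0 :=
  (h.cls_eq_zero i₀).1 (((Chart_clsL i₀ J A).map_sub _ _).trans
    (sub_eq_zero.2 (h.cls_pv i₀ _).symm))

theorem IsChart.HermTA_apx (h : IsChart J A) (i₀ : ι) {n : ℕ} (hJ : ∀ ν ∈ J, ν.2 < n)
    (F : LT ι k) : ∃ a ∈ A, Pole (F - a) n := by
  obtain ⟨a, ha, h1⟩ := h.HermTA_dec i₀ F
  refine ⟨a, ha, pole_iff.2 fun μ hμ => ?_⟩
  have := pole_zero_iff.1 h1 μ
  rw [sub_right_comm, Chart_pc_sub, pv, Chart_pc_sum, Finset.sum_eq_zero, sub_zero] at this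
  · exact this
  · intro j _
    rw [Chart_pc_smul, pc_pm, if_neg, mul_zero]
    rintro rfl
    exact absurd (hJ _ j.2) (not_lt.2 hμ)

theorem IsChart.HermTA_inj (h : IsChart J A) (i₀ : ι) {l : LT ι k}
    (hl : ∀ a ∈ A, ∑ i, a i * l i = 0) : l = 0 := by
  obtain ⟨n, hn⟩ := Chart_bound J
  obtain ⟨m, hm⟩ := exists_pole l
  have h1 : Pole ((fun _ => LS.T k (m + n + 2)) * l) (-(n + 2)) := fun i =>
    ((LS.ge_T _).mul (hm i)).mono (by omega)
  have h2 : (fun _ => LS.T k (m + n + 2)) * l = 0 := rs_nondeg fun F => by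
    obtain ⟨a, ha, h3⟩ := h.HermTA_apx i₀ hn F
    rw [← sub_add_cancel F a, add_mul, map_add, rs_pole h3 h1 (by omega), zero_add, rs_apply,
      ← LS.cf_sum]
    simp only [Pi.mul_apply, mul_left_comm (a _), ← Finset.mul_sum, hl a ha, mul_zero, LS.cf_zero]
  funext i
  refine (mul_eq_zero.1 (congrFun h2 i)).resolve_left fun h0 => ?_
  simpa [LS.cf_T] using congrArg (LS.cf · (m + n + 2)) h0

theorem HermTA_card {V κ : Type*} [AddCommGroup V] [Module k V] [Fintype κ] {W : Submodule k V}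
    [FiniteDimensional k W] {v : κ → V} (hv : LinearIndependent k v) (hm : ∀ q, v q ∈ W) :
    Fintype.card κ ≤ Module.finrank k W :=
  (LinearIndependent.of_comp (v := fun q => (⟨v q, hm q⟩ : W)) W.subtype hv).fintype_card_le_finrank

theorem IsChart.HermTA_basis' [IsAlgClosed k] (h : IsChart J A) (i₀ : ι) [Algebra k[X] (LT ι k)]
    [IsScalarTower k k[X] (LT ι k)] (hs : ∀ (φ : k[X]) (F : LT ι k), φ • F = aeval (xx ι k) φ * F) :
    ∃ ω : ι → LT ι k, (∀ a, ω a ∈ A) ∧
    IsUnit (Matrix.of ω).det ∧ ∀ f ∈ A, ∃ φ : ι → k[X], f = ∑ a, aeval (xx ι k) (φ a) * ω a := by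
  have : Nonempty ι := ⟨i₀⟩
  have : Module.IsTorsionFree k[X] (LT ι k) :=
    .of_smul_eq_zero fun φ F hb => or_iff_not_imp_left.2 fun h0 => funext fun i => by
      rw [hs] at hb
      refine (mul_eq_zero.1 (congrFun hb i)).resolve_left fun h1 => h0 ?_
      rw [HermTA_aeval] at h1
      exact _root_.transcendental_iff.1 CDA_trans_T φ h1
  obtain ⟨n, hn⟩ := Chart_bound J
  obtain ⟨M, hM, hfin⟩ : ∃ M : Submodule k[X] (LT ι k),
      (∀ F, F ∈ A ↔ F ∈ M) ∧ Module.Finite k[X] M := by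
    refine ⟨_, fun F => ⟨fun hF => ?_, fun hF => ?_⟩, Module.Finite.span_of_finite _
      (Set.Finite.insert 1 (Set.Finite.image (chi i₀ J A) (s := {μ : ι × ℕ | μ.2 ≤ n})
        ((Set.finite_univ.prod (Set.finite_Iic n)).subset fun μ hμ => ⟨trivial, hμ⟩)))⟩
    · refine Submodule.span_induction (fun _ => Submodule.mem_span_of_mem) (zero_mem _)
        (fun _ _ _ _ => add_mem) (fun b F _ hF => ?_) ((h.span_x i₀ hn).1 hF)
      obtain ⟨φ, hφ⟩ := (Algebra.adjoin_singleton_eq_range_aeval k _).le b.2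
      have : b • F = φ • F := by rw [hs]; exact congrArg (· * F) hφ.symm
      exact this ▸ Submodule.smul_mem _ φ hF
    · refine Submodule.span_induction ?_ (zero_mem _) (fun _ _ _ _ => add_mem)
        (fun φ F _ hF => hs φ F ▸ mul_mem (HermTA_mem h.x_mem φ) hF) hF
      rintro _ (rfl | ⟨μ, -, rfl⟩)
      exacts [one_mem _, h.chi_mem i₀ μ]
  have key : ∀ {κ : Type} [Fintype κ] (b : Module.Basis κ k[X] M),
      (∀ f ∈ A, ∃ φ : κ → k[X], f = ∑ a, aeval (xx ι k) (φ a) * (b a).1) ∧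
        Function.Injective (Matrix.of fun a => (b a).1).mulVec := fun b => by
    have h1 : ∀ f ∈ A, ∃ φ : _ → k[X], f = ∑ a, aeval (xx ι k) (φ a) * (b a).1 := fun f hf => by
      refine ⟨b.repr ⟨f, (hM f).1 hf⟩, ?_⟩
      have := congrArg Subtype.val (b.sum_repr ⟨f, (hM f).1 hf⟩)
      rw [Submodule.coe_sum] at this
      simp only [← hs]
      exact this.symm
    refine ⟨h1, (injective_iff_map_eq_zero (mulVecLin _)).2 fun l hl => h.HermTA_inj i₀
      fun f hf => ?_⟩
    obtain ⟨φ, rfl⟩ := h1 f hf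
    simp only [Finset.sum_apply, Pi.mul_apply, Finset.sum_mul, HermTA_aeval, mul_assoc]
    rw [Finset.sum_comm]
    refine Finset.sum_eq_zero fun a _ => ?_
    rw [← Finset.mul_sum]
    exact mul_eq_zero_of_right _ (congrFun hl a)
  let b := Module.finBasis k[X] M
  have h1 : Fintype.card ι ≤ Module.finrank k[X] M := by
    simpa using LinearMap.finrank_le_finrank_of_injective (f := mulVecLin _) (key b).2
  have h2 : Module.finrank k[X] M ≤ Fintype.card ι := by
    choose c hc using fun a => exists_pole (b a).1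
    obtain ⟨C, hC⟩ := (Set.finite_range c).bddAbove
    have h4 : ∀ N : ℕ, N * Module.finrank k[X] M ≤ (N + C + n) * Fintype.card ι + 1 := fun N => by
      have h5 := linearIndependent_smul (b := fun i : Fin N => basisMonomials k i)
        (c := fun a => (b a).1)
        ((basisMonomials k).linearIndependent.comp _ (Fin.val_injective (n := N)))
        (b.linearIndependent.map' M.subtype M.ker_subtype)
      have h6 : ∀ q : Fin N × Fin (Module.finrank k[X] M),
          basisMonomials k q.1 • (b q.2).1 ∈ lev A (N + C + n : ℕ) :=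
        fun q => ⟨(hM _).2 (M.smul_mem _ (b q.2).2), fun i => by
          have : (basisMonomials k q.1 • (b q.2).1) i = LS.T k (-1) ^ (q.1 : ℕ) * (b q.2).1 i := by
            simp [hs, xx]
          rw [this]
          have a1 := hC ⟨q.2, rfl⟩
          have a2 := q.1.2
          exact (((LS.ge_T _).pow _).mul (hc q.2 i)).mono (by push_cast; omega)⟩
      have := h.finite_lev (N + C + n : ℕ)
      have h7 := HermTA_card h5 h6
      have h8 := h.finrank_lev (n := N + C + n) fun ν hν => (hn ν hν).trans_le (by omega)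
      rw [Fintype.card_prod, Fintype.card_fin, Fintype.card_fin] at h7
      omega
    by_contra h9
    have := h4 ((C + n) * Fintype.card ι + 2)
    nlinarith [Nat.mul_le_mul_left ((C + n) * Fintype.card ι + 2) (Nat.succ_le_of_lt (not_le.1 h9))]
  let b' := (Module.finBasisOfFinrankEq k[X] M (le_antisymm h2 h1)).reindex
    (Fintype.equivFin ι).symm
  exact ⟨_, fun a => (hM _).2 (b' a).2, (Matrix.isUnit_iff_isUnit_det _).1
    (Matrix.mulVec_injective_iff_isUnit.1 (key b').2), (key b').1⟩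

/-- a basis over `k[x]` -/
theorem IsChart.HermTA_basis [IsAlgClosed k] (h : IsChart J A) (i₀ : ι) :
    ∃ ω : ι → LT ι k, (∀ a, ω a ∈ A) ∧
    IsUnit (Matrix.of ω).det ∧ ∀ f ∈ A, ∃ φ : ι → k[X], f = ∑ a, aeval (xx ι k) (φ a) * ω a :=
  letI : Algebra k[X] (LT ι k) := (aeval (xx ι k)).toRingHom.toAlgebra
  haveI : IsScalarTower k k[X] (LT ι k) :=
    .of_algebraMap_eq fun c => ((aeval (xx ι k)).commutes c).symm
  h.HermTA_basis' i₀ fun _ _ => rfl

omit [DecidableEq ι] in
theorem HermTA_tr [DecidableEq ι] {R : Type*} [CommRing R] (a b f h : ι → R) (θ γ : Matrix ι ι R) :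
    trace ((diagonal a + (θ * diagonal f - diagonal f * θ)) *
      (diagonal b + (γ * diagonal h - diagonal h * γ))) =
      ∑ i, a i * b i + ∑ i, ∑ j, θ i j * γ j i * ((f j - f i) * (h i - h j)) := by
  rw [← Finset.sum_add_distrib, trace]
  refine Finset.sum_congr rfl fun i _ => ?_
  have : a i * b i = ∑ j, if j = i then a i * b i else 0 := by simp
  rw [diag_apply, mul_apply, this, ← Finset.sum_add_distrib]
  refine Finset.sum_congr rfl fun j _ => ?_
  by_cases hj : j = i
  · subst hj; simp [mul_comm]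
  · simp [hj, Ne.symm hj]; ring

theorem HermTA_conj {R : Type*} [CommRing R] {W V W' Φ Φ' : Matrix ι ι R} {f F : ι → R}
    (h1 : V * W = 1) (h2 : W * V = 1) (h3 : Φ * W = W * diagonal f)
    (h4 : Φ * W' + Φ' * W = W' * diagonal f + W * diagonal F) :
    V * Φ' * W = diagonal F + (V * W' * diagonal f - diagonal f * (V * W')) := by
  have h5 : V * Φ = diagonal f * V := by
    rw [← Matrix.mul_one (V * Φ), ← h2, ← Matrix.mul_assoc, Matrix.mul_assoc V, h3,
      ← Matrix.mul_assoc, h1, Matrix.one_mul]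
  have h6 := congrArg (V * ·) h4
  simp only [Matrix.mul_add, ← Matrix.mul_assoc, h1, h5, Matrix.one_mul] at h6
  rw [eq_sub_of_add_eq' h6, ← Matrix.mul_assoc]
  abel

omit [Fintype ι] [DecidableEq ι] in
theorem HermTA_der_x (D : DerQ A) (hx : xx ι k ∈ A) (φ : k[X]) :
    D.1 ⟨aeval (xx ι k) φ, HermTA_mem hx φ⟩ = 0 := by
  have : (⟨aeval (xx ι k) φ, HermTA_mem hx φ⟩ : A) = aeval (⟨xx ι k, hx⟩ : A) φ :=
    Subtype.ext (aeval_subalgebra_coe φ A ⟨xx ι k, hx⟩).symm
  rw [this]
  clear this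
  induction φ using Polynomial.induction_on with
  | C a => rw [aeval_C, Tan_one]
  | add p q hp hq => rw [map_add, map_add, hp, hq, add_zero]
  | monomial n a h =>
    rw [pow_succ, ← mul_assoc, map_mul, aeval_X, D.2.2 _ _ 0 0 h (D.2.1 _ rfl), mul_zero, mul_zero,
      add_zero, Submodule.Quotient.mk_zero]

/-- the residue theorem to first order -/
theorem IsChart.rs_sym [IsAlgClosed k] (h : IsChart J A) (i₀ : ι) (D : DerQ A) {f g : A}
    {F G : LT ι k} (hF : D.1 f = Submodule.Quotient.mk F) (hG : D.1 g = Submodule.Quotient.mk G) :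
    rs (F * dT g.1) = rs (G * dT f.1) := by
  obtain ⟨ω, hω, hW, hs⟩ := h.HermTA_basis i₀
  choose Ω hΩ using fun a => Submodule.Quotient.mk_surjective _ (D.1 ⟨ω a, hω a⟩)
  have key : ∀ (f : A) (F : LT ι k), D.1 f = Submodule.Quotient.mk F → ∃ Φ Φ' : Matrix ι ι k[X],
      Φ.map (aeval (LS.T k (-1))) * of ω = of ω * diagonal f.1 ∧
      Φ.map (aeval (LS.T k (-1))) * of Ω + Φ'.map (aeval (LS.T k (-1))) * of ω =
        of Ω * diagonal f.1 + of ω * diagonal F := fun f F hF => by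
    choose Φ hΦ using fun a => hs _ (mul_mem f.2 (hω a))
    have h1 : ∀ a, f.1 * Ω a + ω a * F - ∑ b, aeval (xx ι k) (Φ a b) * Ω b ∈ A := fun a => by
      refine (Submodule.Quotient.eq A.toSubmodule).1 ?_
      have : f * ⟨ω a, hω a⟩ = ∑ b, ⟨_, HermTA_mem h.x_mem (Φ a b)⟩ * ⟨ω b, hω b⟩ :=
        Subtype.ext (by simpa using hΦ a)
      rw [← D.2.2 f ⟨ω a, hω a⟩ _ _ hF (hΩ a).symm, this, map_sum, ← Submodule.mkQ_apply, map_sum]
      refine Finset.sum_congr rfl fun b _ => ?_
      rw [D.2.2 _ _ 0 _ (HermTA_der_x D h.x_mem _) (hΩ b).symm, mul_zero, add_zero]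
      rfl
    choose Φ' hΦ' using fun a => hs _ (h1 a)
    refine ⟨of Φ, of Φ', ?_, ?_⟩ <;> ext1 a i
    · have := congrFun (hΦ a) i
      simp only [Finset.sum_apply, Pi.mul_apply, HermTA_aeval] at this
      rw [mul_diagonal, of_apply, mul_comm (ω a i), this]
      rfl
    · have := congrFun (hΦ' a) i
      simp only [Finset.sum_apply, Pi.mul_apply, HermTA_aeval, Pi.sub_apply, Pi.add_apply] at this
      rw [Matrix.add_apply, Matrix.add_apply, mul_diagonal, mul_diagonal]
      simp only [mul_apply, map_apply, of_apply, ← this]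
      ring
  have hd : ∀ (f : LT ι k) (Φ : Matrix ι ι k[X]),
      Φ.map (aeval (LS.T k (-1))) * of ω = of ω * diagonal f →
      Φ.map (aeval (LS.T k (-1))) * (of ω).map LS.dx +
        (Φ.map derivative).map (aeval (LS.T k (-1))) * of ω =
        (of ω).map LS.dx * diagonal f + of ω * diagonal (dT f) := fun f Φ h1 => by
    ext1 a i
    have := congrArg LS.dx (congrFun (congrFun h1 a) i)
    rw [mul_diagonal] at this
    simp only [mul_apply, map_apply, of_apply, map_sum, Derivation.leibniz,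
      smul_eq_mul, HermTA_dx, Finset.sum_add_distrib] at this
    rw [Matrix.add_apply, Matrix.add_apply, mul_diagonal, mul_diagonal]
    simp only [mul_apply, map_apply, of_apply, dT_apply]
    simp only [mul_comm (ω _ i) (aeval _ _)] at this
    rw [this]
    ring
  have h1 := nonsing_inv_mul _ hW
  have h2 := mul_nonsing_inv _ hW
  have tr : ∀ Φ Ψ : Matrix ι ι k[X], (trace ((of ω)⁻¹ * Φ.map (aeval (LS.T k (-1))) * of ω *
      ((of ω)⁻¹ * Ψ.map (aeval (LS.T k (-1))) * of ω))).cf 1 = 0 := fun Φ Ψ => by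
    rw [← Matrix.mul_assoc, trace_mul_comm, ← Matrix.mul_assoc, ← Matrix.mul_assoc,
      ← Matrix.mul_assoc, ← Matrix.mul_assoc, h2, Matrix.one_mul, Matrix.mul_assoc _ (of ω), h2,
      Matrix.mul_one, ← HermTA_cf (trace (Φ * Ψ))]
    simp [trace, mul_apply]
  obtain ⟨Φ, Φ', a1, a2⟩ := key f F hF
  obtain ⟨Ψ, Ψ', b1, b2⟩ := key g G hG
  have c1 := tr Φ' (Ψ.map derivative)
  have c2 := tr Ψ' (Φ.map derivative)
  rw [HermTA_conj h1 h2 a1 a2, HermTA_conj h1 h2 b1 (hd _ _ b1), HermTA_tr, LS.cf_add,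
    LS.cf_sum] at c1
  rw [HermTA_conj h1 h2 b1 b2, HermTA_conj h1 h2 a1 (hd _ _ a1), HermTA_tr, LS.cf_add,
    LS.cf_sum] at c2
  refine (eq_neg_of_add_eq_zero_left c1).trans (Eq.trans ?_ (eq_neg_of_add_eq_zero_left c2).symm)
  refine congrArg (fun x : LS k => -x.cf 1) ?_
  exact Finset.sum_congr rfl fun i _ => Finset.sum_congr rfl fun j _ => by ring

/-- the residue theorem -/
theorem IsChart.rs_zero [IsAlgClosed k] (h : IsChart J A) (i₀ : ι) {f g : LT ι k} (hf : f ∈ A)
    (hg : g ∈ A) : rs (f * dT g) = 0 := by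
  rw [h.rs_sym i₀ 0 (f := 1) (g := ⟨g, hg⟩) (G := 0)
    ((Submodule.Quotient.mk_eq_zero _).2 hf).symm rfl, zero_mul, map_zero]

omit [Fintype ι] [DecidableEq ι] in
theorem dT_orth {g u : LT ι k} (h : g * u = 0) : g * dT u = 0 := funext fun i =>
  mul_eq_zero.2 ((mul_eq_zero.1 (congrFun h i)).imp_right fun h0 => by
    rw [dT_apply, h0, map_zero])

/-- The derivation `f ↦ a ∂ f`. -/
noncomputable def derA {a : LT ι k} (ha : a ∈ A) : DerQ A :=
  ⟨A.toSubmodule.mkQ ∘ₗ LinearMap.mulLeft k a ∘ₗ (dT (k := k) (ι := ι)).toLinearMap ∘ₗ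
      A.val.toLinearMap,
    fun f hf => (Submodule.Quotient.mk_eq_zero _).2 (by
      change a * dT f.1 ∈ A
      rwa [hf, dT_xx, mul_one]),
    fun f g F G hF hG => by
      have hF' : a * dT f.1 - F ∈ A := (Submodule.Quotient.eq _).1 hF
      have hG' : a * dT g.1 - G ∈ A := (Submodule.Quotient.eq _).1 hG
      refine (Submodule.Quotient.eq _).2 ?_
      change a * dT (f.1 * g.1) - (f.1 * G + g.1 * F) ∈ A
      convert add_mem (A.mul_mem f.2 hG') (A.mul_mem g.2 hF') using 1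
      rw [dT_mul]
      ring⟩

omit [Fintype ι] [DecidableEq ι] in
theorem derA_apply {a : LT ι k} (ha : a ∈ A) (f : A) :
    (derA ha).1 f = Submodule.Quotient.mk (a * dT f.1) := rfl

namespace IsChart

variable [IsAlgClosed k] (h : IsChart J A) (i₀ : ι) {G : Type} [Fintype G] [DecidableEq G]
include h i₀

omit [IsAlgClosed k] in
theorem rs_onto (hJ : ∀ ν ∈ J, ν.2 < 1) {κ : Type} [Fintype κ] {ω : κ → LT ι k}
    (hω : LinearIndependent k ω) (h3 : ∀ l, Pole (ω l) (-3)) (z : κ → k) :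
    ∃ a ∈ A, ∀ l, rs (a * ω l) = z l := by
  obtain ⟨F, hF⟩ := PR0.rs_onto hω z
  obtain ⟨a, ha, h1⟩ := h.HermTA_apx i₀ hJ F
  refine ⟨a, ha, fun l => ?_⟩
  have := rs_pole h1 (h3 l) (by norm_num)
  rw [sub_mul, map_sub, sub_eq_zero] at this
  rw [← this, hF]

/-- products of functions killed by `g` pair to zero with `D g` -/
theorem rs_orth (D : DerQ A) {g u u' : A} {F : LT ι k} (hF : D.1 g = Submodule.Quotient.mk F)
    (hu : g * u = 0) (hu' : g * u' = 0) : rs (F * dT (u.1 * u'.1)) = 0 := by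
  have key : ∀ u u' : A, g * u = 0 → g * u' = 0 → rs (F * (u.1 * dT u'.1)) = 0 :=
    fun u u' hu hu' => by
      obtain ⟨U, hU⟩ := Submodule.Quotient.mk_surjective _ (D.1 u)
      have h1 := D.2.2 g u _ _ hF hU.symm
      rw [hu, map_zero, eq_comm, Submodule.Quotient.mk_eq_zero] at h1
      have h2 := h.rs_zero i₀ h1 u'.2
      rwa [add_mul, mul_right_comm, dT_orth (congrArg Subtype.val hu'), zero_mul, zero_add,
        mul_comm u.1, mul_assoc] at h2
  rw [dT_mul, mul_add, map_add, key u u' hu hu', key u' u hu' hu, add_zero]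

/-- the matrix of residues of `D (H j) ∂ (H i)` -/
noncomputable def sm (H : G → A) : DerQ A →ₗ[k] Matrix G G k where
  toFun D := of fun i j => A.toSubmodule.liftQ (rs ∘ₗ LinearMap.mulRight k (dT (H i).1))
    (fun _ hf => h.rs_zero i₀ hf (H i).2) (D.1 (H j))
  map_add' D D' := by ext i j; simp
  map_smul' c D := by ext i j; simp

theorem sm_eq (H : G → A) (D : DerQ A) (i : G) {j : G} {F : LT ι k}
    (hF : D.1 (H j) = Submodule.Quotient.mk F) : h.sm i₀ H D i j = rs (F * dT (H i).1) := by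
  exact congrArg (A.toSubmodule.liftQ (rs ∘ₗ LinearMap.mulRight k (dT (H i).1))
    fun _ hf => h.rs_zero i₀ hf (H i).2) hF

theorem sm_symm (H : G → A) (D : DerQ A) (i j : G) : h.sm i₀ H D i j = h.sm i₀ H D j i := by
  obtain ⟨F, hF⟩ := Submodule.Quotient.mk_surjective _ (D.1 (H j))
  obtain ⟨F', hF'⟩ := Submodule.Quotient.mk_surjective _ (D.1 (H i))
  rw [h.sm_eq i₀ H D i hF.symm, h.sm_eq i₀ H D j hF'.symm, h.rs_sym i₀ D hF.symm hF'.symm]

theorem rs_cls {g : LT ι k} (hg : g ∈ A) (h2 : Pole (dT g) (-2)) (F : LT ι k) :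
    rs (F * dT g) = ∑ ν : J, rs (pm k ν.1 * dT g) * cls i₀ J A F ν := by
  obtain ⟨a, ha, h1⟩ := h.HermTA_dec i₀ F
  have := rs_pole h1 h2 (by norm_num)
  rw [sub_mul, sub_mul, map_sub, map_sub, h.rs_zero i₀ ha hg, sub_zero, sub_eq_zero] at this
  rw [this, pv, Finset.sum_mul, map_sum]
  exact Finset.sum_congr rfl fun ν _ => by rw [smul_mul_assoc, map_smul, smul_eq_mul, mul_comm]

theorem rs_unit (σ : G ≃ J) {H : G → LT ι k} (hH : ∀ j, H j ∈ A) (h2 : ∀ j, Pole (dT (H j)) (-2))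
    (hi : LinearIndependent k fun j => dT (H j)) :
    IsUnit (of fun i j => rs (pm k (σ j).1 * dT (H i))).det := by
  refine (isUnit_iff_isUnit_det _).1 (mulVec_surjective_iff_isUnit.1 fun z => ?_)
  obtain ⟨F, hF⟩ := PR0.rs_onto hi z
  refine ⟨fun j => cls i₀ J A F (σ j), funext fun i => ?_⟩
  rw [← hF, h.rs_cls i₀ (hH i) (h2 i), ← σ.sum_comp]
  rfl

end IsChart

omit [Fintype ι] [DecidableEq ι] in
theorem dT_pole_pow (p : ℕ) [Fact p.Prime] [CharP k p] {F H : LT ι k} (h : Pole (F ^ p - H) 0) :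
    Pole (dT H) (-2) := fun i => by
  have := (dT_pole h i).neg
  rwa [map_sub, dT_pow, zero_sub, Pi.neg_apply, neg_neg] at this

theorem HermTA_col (p : ℕ) [Fact p.Prime] {G : Type} [Fintype G] [DecidableEq G]
    (M : Matrix G G k) (i j : G) : sapp p M (Pi.single j 1) i = M i j := by
  have : (fun i => (Pi.single j 1 : G → k) i ^ p) = Pi.single j 1 := funext fun i => by
    by_cases h : i = j <;> simp [h, (Fact.out : p.Prime).ne_zero]
  rw [sapp, this, mulVec_single_one]
  rfl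

/-- the cone lemma in terms of residues -/
theorem IsChart.cone_res (p : ℕ) [Fact p.Prime] [CharP k p] [IsAlgClosed k] (h : IsChart J A)
    (i₀ : ι) (hJ : ∀ ν ∈ J, ν.2 < 1) (hc : Curv A) {G μ : Type} [Fintype G] [DecidableEq G]
    [Fintype μ] (σ : G ≃ J) (H : G → A) (hH : ∀ j, Pole (pm k (σ j).1 ^ p - (H j).1) 0)
    {P : Matrix G G k} (hP : P * of (fun i j => rs (pm k (σ j).1 * dT (H i).1)) = 1)
    {S : μ → Matrix G G k} (hS : ConeHyp p fun l => P * S l) (hi : LinearIndependent k S)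
    (hr : LinearMap.range (h.sm i₀ H) = Submodule.span k (Set.range S))
    {K : Type u} [Field K] [Algebra k K] {c₀ : Idx ι → K} (h1 : On (cI k i₀ J) c₀)
    (h2 : Spc k c₀ (coef i₀ J A))
    (hd : ((2 * Fintype.card ι + 2 * J.card : ℕ) : ℕ∞) ≤ dm k c₀ + 2) :
    Uniq p (cI k i₀ J) (hw k p J) (coef i₀ J A) := by
  have : Nonempty ι := ⟨i₀⟩
  obtain ⟨E, -, hE⟩ := exists_tan_equiv p h i₀
  have h3 := finrank_DerQ_le h hJ hc
  rw [← E.finrank_eq] at h3
  let l := Fintype.linearCombination k S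
  obtain ⟨g, hg⟩ := l.exists_leftInverse_of_injective
    (LinearMap.ker_eq_bot.2 (linearIndependent_iff_injective_fintypeLinearCombination.1 hi))
  have hg' : ∀ z, g (l z) = z := fun z => LinearMap.congr_fun hg z
  rw [← Fintype.range_linearCombination] at hr
  have hl : ∀ z, lin (fun i => (P * S i).reindex σ σ) z = (P * l z).reindex σ σ := fun z => by
    ext a b
    simp [lin, l, Fintype.linearCombination_apply, Matrix.sum_apply, Matrix.mul_sum]
  refine cone (fgi_cI k i₀ J) (hw k p J) le_rfl h1 h2 ?_ ?_ (hS.reindex σ)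
    (-(g ∘ₗ h.sm i₀ H ∘ₗ E.toLinearMap)) (fun z => ?_) fun δ => ?_
  · have h4 : (Module.finrank k (Tan (cI k i₀ J) (coef i₀ J A)) : ℕ∞) + 2 ≤
        ((2 * Fintype.card ι + 2 * J.card : ℕ) : ℕ∞) := by exact_mod_cast h3
    exact (ENat.add_le_add_iff_right (ENat.natCast_ne_top 2)).1 (h4.trans hd)
  · ext a b
    obtain ⟨b, rfl⟩ := σ.surjective b
    rw [← HermTA_col p (Matrix.map _ _), ← h.cls_pm i₀, ← h.cls_pow i₀ p,
      (h.cls_eq_zero i₀).2 ⟨_, (H b).2, hH b⟩]
    rfl
  · obtain ⟨D, hD⟩ := hr.ge ⟨-z, rfl⟩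
    exact ⟨E.symm D, by simp [hD, l, hg']⟩
  · obtain ⟨z, hz⟩ := hr.le ⟨E δ, rfl⟩
    have h4 : of (fun i j => rs (pm k (σ j).1 * dT (H i).1)) *
        ((hw k p J).map (dd (coef i₀ J A) δ)).submatrix σ σ = -l z := by
      ext i j
      obtain ⟨F, hF⟩ := Submodule.Quotient.mk_surjective _ ((E δ).1 (H j))
      have h5 := hE δ (Pi.single (σ j) 1) (H j) F (by simpa [pv, Pi.single_apply] using hH j) hF.symm
      rw [Matrix.neg_apply, hz, h.sm_eq i₀ H _ i hF.symm,
        h.rs_cls i₀ (H i).2 (dT_pole_pow p (hH i)), ← σ.sum_comp, ← Finset.sum_neg_distrib,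
        mul_apply]
      refine Finset.sum_congr rfl fun a _ => ?_
      rw [submatrix_apply, ← HermTA_col p (Matrix.map _ _), h5, Pi.neg_apply, of_apply, mul_neg]
    have h5 : (-(g ∘ₗ h.sm i₀ H ∘ₗ E.toLinearMap)) δ = -z := by simp [← hz, l, hg']
    rw [h5, hl, map_neg, ← h4, ← Matrix.mul_assoc, hP, Matrix.one_mul]
    simp

end PR0
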