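import Pool.Agent.Work.MP_da2620_ag.HermTA
import Pool.Agent.Work.MP_da2620_ag.Herm

/-!
# Two chart points glued at a node

The derivation `f ↦ (s₀ (r₁ f - ∂ f), s₁ (r₀ f - ∂ f))` smooths the node; the residue matrices of
all derivations form the span of the `hsym e l`.
-/

namespace PR0

open Matrix

universe u

variable {k : Type u} [Field k] {ι ι₀ ι₁ : Type}

/-- A point at which `x` is unramified, and a function with a simple pole only there. -/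
structure NodeD (A : Subalgebra k (LT ι k)) where
  x_mem : xx ι k ∈ A
  ev : A →ₐ[k] k
  s : LT ι k
  mem : ∀ f : A, ev f = 0 → s * f.1 ∈ A
  one : ∀ w : A, w.1 = s * (xx ι k - algebraMap k _ (ev ⟨_, x_mem⟩)) → ev w = 1

namespace NodeD

variable {A : Subalgebra k (LT ι k)} (N : NodeD A)

/-- the difference quotient -/
noncomputable def m : A →ₗ[k] A where
  toFun f := ⟨N.s * (f - algebraMap k A (N.ev f)).1, N.mem _ (by simp)⟩
  map_add' f g := Subtype.ext (by simp; ring)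
  map_smul' c f := Subtype.ext (by simp [Algebra.smul_def]; ring)

theorem m_val (f : A) : (N.m f).1 = N.s * (f.1 - algebraMap k _ (N.ev f)) := rfl

theorem m_mul (f g : A) : N.m (f * g) = f * N.m g + N.ev g • N.m f :=
  Subtype.ext (by simp [m_val, Algebra.smul_def]; ring)

theorem m_x : N.ev (N.m ⟨_, N.x_mem⟩) = 1 := N.one _ rfl

/-- a function vanishing to order two is a sum of two products -/
theorem dec {g : A} (h0 : N.ev g = 0) (h1 : N.ev (N.m g) = 0) : ∃ u u' w w' : A,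
    N.ev u = 0 ∧ N.ev u' = 0 ∧ N.ev w = 0 ∧ N.ev w' = 0 ∧ g = u * u' + w * w' :=
  ⟨1 - N.m ⟨_, N.x_mem⟩, g, ⟨_, N.x_mem⟩ - algebraMap k A (N.ev ⟨_, N.x_mem⟩), N.m g,
    by simp [m_x], h0, by simp, h1, Subtype.ext (by simp [m_val, h0]; ring)⟩

theorem norm (f : A) : ∃ g : A, N.ev g = 0 ∧ dT g.1 = dT f.1 ∧ N.m g = N.m f ∧
    ∀ F, Pole (F - f.1) 0 → Pole (F - g.1) 0 :=
  ⟨f - algebraMap k A (N.ev f), by simp, by simp, Subtype.ext (by simp [m_val]), fun F hF i => by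
    convert (hF i).add (LS.ge_algebraMap (N.ev f)) using 1
    simp [sub_add]⟩

end NodeD

/-- restriction to some of the components -/
noncomputable def resT (k : Type u) [Field k] (f : ι₀ → ι) : LT ι k →ₐ[k] LT ι₀ k :=
  Pi.algHom k _ fun i => Pi.evalAlgHom k (fun _ : ι => LS k) (f i)

theorem resT_dT (f : ι₀ → ι) (F : LT ι k) : resT k f (dT F) = dT (resT k f F) := rfl

theorem resT_xx (f : ι₀ → ι) : resT k f (xx ι k) = xx ι₀ k := rfl

theorem resT_pm [DecidableEq ι] [DecidableEq ι₀] {f : ι₀ → ι} (hf : Function.Injective f)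
    (μ : ι₀ × ℕ) : resT k f (pm k (f μ.1, μ.2)) = pm k μ := funext fun i => by
  change pm k (f μ.1, μ.2) (f i) = _
  simp [pm, Pi.single_apply, hf.eq_iff]

theorem resT_pm' [DecidableEq ι] {f : ι₀ → ι} {μ : ι × ℕ} (h : ∀ i, f i ≠ μ.1) :
    resT k f (pm k μ) = 0 := funext fun i => Pi.single_eq_of_ne (h i) _

section
variable (e : ι₀ ⊕ ι₁ ≃ ι)

theorem HermTB_ind {P : ι → Prop} (h₀ : ∀ i, P (e (.inl i))) (h₁ : ∀ i, P (e (.inr i))) (i : ι) :
    P i := by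
  obtain ⟨i | i, rfl⟩ := e.surjective i
  exacts [h₀ i, h₁ i]

theorem resT_ext {F G : LT ι k} (h₀ : resT k (e ∘ .inl) F = resT k (e ∘ .inl) G)
    (h₁ : resT k (e ∘ .inr) F = resT k (e ∘ .inr) G) : F = G :=
  funext (HermTB_ind e (congrFun h₀) (congrFun h₁))

theorem resT_gl (F₀ : LT ι₀ k) (F₁ : LT ι₁ k) :
    ∃ F : LT ι k, resT k (e ∘ .inl) F = F₀ ∧ resT k (e ∘ .inr) F = F₁ :=
  ⟨fun i => Sum.elim F₀ F₁ (e.symm i), funext fun i => congrArg (Sum.elim F₀ F₁)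
    (e.symm_apply_apply (.inl i)), funext fun i => congrArg (Sum.elim F₀ F₁)
    (e.symm_apply_apply (.inr i))⟩

theorem resT_pole {F : LT ι k} {n : ℤ} (h₀ : Pole (resT k (e ∘ .inl) F) n)
    (h₁ : Pole (resT k (e ∘ .inr) F) n) : Pole F n := HermTB_ind e h₀ h₁

theorem resT_rs [Fintype ι] [Fintype ι₀] [Fintype ι₁] (F : LT ι k) :
    rs F = rs (resT k (e ∘ .inl) F) + rs (resT k (e ∘ .inr) F) := by
  rw [rs_apply, ← e.sum_comp, Fintype.sum_sum_type]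
  rfl

variable {A : Subalgebra k (LT ι k)} {A₀ : Subalgebra k (LT ι₀ k)} {A₁ : Subalgebra k (LT ι₁ k)}
  (N₀ : NodeD A₀) (N₁ : NodeD A₁)

/-- `A` is obtained by gluing the two points. -/
def Glued (A : Subalgebra k (LT ι k)) : Prop := ∀ F, F ∈ A ↔ ∃ (a₀ : A₀) (a₁ : A₁),
  resT k (e ∘ .inl) F = a₀ ∧ resT k (e ∘ .inr) F = a₁ ∧ N₀.ev a₀ = N₁.ev a₁

variable {e N₀ N₁}

theorem Glued.lift (h : Glued e N₀ N₁ A) {a₀ : A₀} {a₁ : A₁} (ha : N₀.ev a₀ = N₁.ev a₁) :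
    ∃ F : A, resT k (e ∘ .inl) F.1 = a₀ ∧ resT k (e ∘ .inr) F.1 = a₁ := by
  obtain ⟨F, h0, h1⟩ := resT_gl e a₀.1 a₁.1
  exact ⟨⟨F, (h F).2 ⟨a₀, a₁, h0, h1, ha⟩⟩, h0, h1⟩

/-- the derivation smoothing the node -/
theorem Glued.node (h : Glued e N₀ N₁ A) : ∃ D : DerQ A, ∀ (f : A) (a₀ : A₀) (a₁ : A₁),
    resT k (e ∘ .inl) f.1 = a₀ → resT k (e ∘ .inr) f.1 = a₁ →
    ∃ F, D.1 f = Submodule.Quotient.mk F ∧
      resT k (e ∘ .inr) F = N₁.s * (algebraMap k _ (N₀.ev (N₀.m a₀)) - dT a₁.1) := by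
  let p₀ : A →ₐ[k] A₀ := ((resT k (e ∘ .inl)).comp A.val).codRestrict A₀ fun f => by
    obtain ⟨a, -, ha, -⟩ := (h f).1 f.2
    exact ha ▸ a.2
  let p₁ : A →ₐ[k] A₁ := ((resT k (e ∘ .inr)).comp A.val).codRestrict A₁ fun f => by
    obtain ⟨-, a, -, ha, -⟩ := (h f).1 f.2
    exact ha ▸ a.2
  have q₀ : ∀ f, resT k (e ∘ .inl) f.1 = p₀ f := fun _ => rfl
  have q₁ : ∀ f, resT k (e ∘ .inr) f.1 = p₁ f := fun _ => rfl
  have hp : ∀ f, N₀.ev (p₀ f) = N₁.ev (p₁ f) := fun f => by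
    obtain ⟨a, b, ha, hb, hab⟩ := (h f).1 f.2
    rwa [show p₀ f = a from Subtype.ext ha, show p₁ f = b from Subtype.ext hb]
  clear_value p₀ p₁
  obtain ⟨s, s0, s1⟩ := resT_gl e N₀.s N₁.s
  obtain ⟨u, u0, u1⟩ := resT_gl e (1 : LT ι₀ k) (0 : LT ι₁ k)
  let r₀ := N₀.ev.toLinearMap ∘ₗ N₀.m ∘ₗ p₀.toLinearMap
  let r₁ := N₁.ev.toLinearMap ∘ₗ N₁.m ∘ₗ p₁.toLinearMap
  let D : A →ₗ[k] LT ι k := LinearMap.mulLeft k s ∘ₗ (r₁.smulRight u + r₀.smulRight (1 - u) -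
    (dT (k := k) (ι := ι)).toLinearMap ∘ₗ A.val.toLinearMap)
  have hD : ∀ f, D f = s * (N₁.ev (N₁.m (p₁ f)) • u + N₀.ev (N₀.m (p₀ f)) • (1 - u) - dT f.1) :=
    fun _ => rfl
  have d0 : ∀ f, resT k (e ∘ .inl) (D f) =
      N₀.s * (algebraMap k _ (N₁.ev (N₁.m (p₁ f))) - dT (p₀ f).1) := fun f => by
    simp [hD, s0, u0, resT_dT, q₀, Algebra.algebraMap_eq_smul_one]
  have d1 : ∀ f, resT k (e ∘ .inr) (D f) =
      N₁.s * (algebraMap k _ (N₀.ev (N₀.m (p₀ f))) - dT (p₁ f).1) := fun f => by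
    simp [hD, s1, u1, resT_dT, q₁, Algebra.algebraMap_eq_smul_one]
  clear_value D
  refine ⟨⟨A.toSubmodule.mkQ ∘ₗ D, fun f hf => ?_, fun f g F G hF hG => ?_⟩,
    fun f a₀ a₁ h0 h1 => ⟨D f, rfl, ?_⟩⟩
  · have x0 : p₀ f = ⟨_, N₀.x_mem⟩ := Subtype.ext (by rw [← q₀, hf, resT_xx])
    have x1 : p₁ f = ⟨_, N₁.x_mem⟩ := Subtype.ext (by rw [← q₁, hf, resT_xx])
    have : D f = 0 := resT_ext e (by simp [d0, x0, x1, NodeD.m_x, dT_xx])
      (by simp [d1, x0, x1, NodeD.m_x, dT_xx])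
    rw [LinearMap.comp_apply, this, map_zero]
  · have hF' : D f - F ∈ A := (Submodule.Quotient.eq _).1 hF
    have hG' : D g - G ∈ A := (Submodule.Quotient.eq _).1 hG
    have key : D (f * g) - (f.1 * D g + g.1 * D f) ∈ A := (h _).2
      ⟨-(N₁.ev (N₁.m (p₁ g)) • N₀.m (p₀ f) + N₁.ev (N₁.m (p₁ f)) • N₀.m (p₀ g)),
        -(N₀.ev (N₀.m (p₀ g)) • N₁.m (p₁ f) + N₀.ev (N₀.m (p₀ f)) • N₁.m (p₁ g)), by
        simp [d0, q₀, NodeD.m_mul, dT_mul, NodeD.m_val, Algebra.smul_def, hp]; ring, by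
        simp [d1, q₁, NodeD.m_mul, dT_mul, NodeD.m_val, Algebra.smul_def, hp]; ring, by
        simp; ring⟩
    refine (Submodule.Quotient.eq _).2 ?_
    change D (f * g) - (f.1 * G + g.1 * F) ∈ A
    convert add_mem key (add_mem (A.mul_mem f.2 hG') (A.mul_mem g.2 hF')) using 1
    ring
  · rw [d1, show p₀ f = a₀ from Subtype.ext ((q₀ f).symm.trans h0),
      show p₁ f = a₁ from Subtype.ext ((q₁ f).symm.trans h1)]

end

theorem HermTB_hs (c : Fin 2 → k) (z : Fin 5 → k) :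
    Fintype.linearCombination k (hsym c) z = of fun i j => match i, j with
      | none, none => z 4
      | none, some j => z 3 * c j
      | some i, none => z 3 * c i
      | some i, some j => !![z 0, z 1; z 1, z 2] i j := by
  rw [Fintype.linearCombination_apply, Fin.sum_univ_five]
  ext (_ | i) (_ | j) <;> (try fin_cases i) <;> (try fin_cases j) <;>
    simp [hsym, Matrix.single, Matrix.sum_apply]

theorem HermTB_li {c : Fin 2 → k} (hc : c ≠ 0) : LinearIndependent k (hsym c) := by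
  refine linearIndependent_iff_injective_fintypeLinearCombination.2
    ((injective_iff_map_eq_zero _).2 fun z hz => ?_)
  rw [HermTB_hs] at hz
  obtain ⟨i, hi⟩ := Function.ne_iff.1 hc
  have h := fun i j => congrFun (congrFun hz i) j
  funext l
  fin_cases l
  exacts [h (some 0) (some 0), h (some 0) (some 1), h (some 1) (some 1),
    (mul_eq_zero.1 (h none (some i))).resolve_right hi, h none none]

section
variable [IsAlgClosed k] [Fintype ι] [DecidableEq ι] [Fintype ι₀] [Fintype ι₁]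
  {e : ι₀ ⊕ ι₁ ≃ ι} {A : Subalgebra k (LT ι k)} {A₀ : Subalgebra k (LT ι₀ k)}
  {A₁ : Subalgebra k (LT ι₁ k)} {N₀ : NodeD A₀} {N₁ : NodeD A₁} {J : Finset (ι × ℕ)}

private theorem HermTB_aux (c : Fin 2 → k) (hc : c ≠ 0)
    (M : Matrix (Option (Fin 2)) (Option (Fin 2)) k) (hs : ∀ i j, M i j = M j i)
    (key : c 1 * M (some 0) none = c 0 * M (some 1) none) :
    ∃ z, M = Fintype.linearCombination k (hsym c) z := by
  obtain ⟨t, ht⟩ : ∃ t, ∀ i, M (some i) none = t * c i := by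
    by_cases h0 : c 0 = 0
    · have h1 : c 1 ≠ 0 := fun h1 => hc (funext fun i => by fin_cases i; exacts [h0, h1])
      refine ⟨M (some 1) none / c 1, Fin.forall_fin_two.2 ⟨?_, by field_simp⟩⟩
      rw [h0, zero_mul] at key
      rw [h0, mul_zero, (mul_eq_zero.1 key).resolve_left h1]
    · refine ⟨M (some 0) none / c 0, Fin.forall_fin_two.2 ⟨by field_simp, ?_⟩⟩
      field_simp
      linear_combination -key
  refine ⟨![M (some 0) (some 0), M (some 0) (some 1), M (some 1) (some 1), t, M none none], ?_⟩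
  rw [HermTB_hs]
  ext (_ | i) (_ | j)
  · rfl
  · exact (hs _ _).trans (ht j)
  · exact ht i
  · fin_cases i <;> fin_cases j
    exacts [rfl, rfl, hs _ _, rfl]

theorem Glued.range_le (hG : Glued e N₀ N₁ A) (h : IsChart J A) (i₀ : ι)
    {H : Option (Fin 2) → A} {h₀ : Fin 2 → A₀} (g0 : ∀ i, resT k (e ∘ .inl) (H (some i)).1 = h₀ i)
    (g1 : ∀ i, resT k (e ∘ .inr) (H (some i)).1 = 0) (g2 : resT k (e ∘ .inl) (H none).1 = 0)
    (v0 : ∀ i, N₀.ev (h₀ i) = 0) (hc : (fun i => N₀.ev (N₀.m (h₀ i))) ≠ 0) (D : DerQ A) :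
    ∃ z, h.sm i₀ H D = Fintype.linearCombination k (hsym fun i => N₀.ev (N₀.m (h₀ i))) z := by
  obtain ⟨F, hF⟩ := Submodule.Quotient.mk_surjective _ (D.1 (H none))
  obtain lift : ∀ u : A₀, N₀.ev u = 0 → ∃ U : A, resT k (e ∘ .inl) U.1 = u ∧
      resT k (e ∘ .inr) U.1 = 0 ∧ H none * U = 0 := fun u hu => by
    obtain ⟨U, h0, h1⟩ := hG.lift (a₁ := 0) (hu.trans (map_zero _).symm)
    exact ⟨U, h0, h1, Subtype.ext (resT_ext e (by simp [g2]) (by simp [h1]))⟩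
  obtain ⟨c, hc'⟩ : ∃ c : Fin 2 → k, c = fun i => N₀.ev (N₀.m (h₀ i)) := ⟨_, rfl⟩
  rw [← hc'] at hc ⊢
  obtain key : c 1 * h.sm i₀ H D (some 0) none = c 0 * h.sm i₀ H D (some 1) none := by
    obtain ⟨u, u', w, w', a1, a2, a3, a4, a5⟩ := N₀.dec (g := c 1 • h₀ 0 - c 0 • h₀ 1)
      (by simp [v0]) (by simp [hc', mul_comm])
    obtain ⟨U, b1, b2, b3⟩ := lift u a1
    obtain ⟨U', c1, c2, c3⟩ := lift u' a2
    obtain ⟨W, d1, d2, d3⟩ := lift w a3
    obtain ⟨W', e1, e2, e3⟩ := lift w' a4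
    have a6 : c 1 • (H (some 0)).1 - c 0 • (H (some 1)).1 = U.1 * U'.1 + W.1 * W'.1 :=
      resT_ext e (by simpa [g0, b1, c1, d1, e1] using congrArg Subtype.val a5)
        (by simp [g1, b2, d2])
    have a7 := congrArg (fun G => rs (F * dT G)) a6
    simp only [map_add, map_sub, mul_add, mul_sub, h.rs_orth i₀ D hF.symm b3 c3,
      h.rs_orth i₀ D hF.symm d3 e3, Derivation.map_smul, mul_smul_comm, map_smul, smul_eq_mul,
      add_zero, sub_eq_zero] at a7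
    rwa [h.sm_eq i₀ H D _ hF.symm, h.sm_eq i₀ H D _ hF.symm]
  exact HermTB_aux c hc _ (h.sm_symm i₀ H D) key

theorem Glued.range_sm (hG : Glued e N₀ N₁ A) (h : IsChart J A) (i₀ : ι)
    {H : Option (Fin 2) → A} {h₀ : Fin 2 → A₀} {h₁ : A₁}
    (g0 : ∀ i, resT k (e ∘ .inl) (H (some i)).1 = h₀ i)
    (g1 : ∀ i, resT k (e ∘ .inr) (H (some i)).1 = 0) (g2 : resT k (e ∘ .inl) (H none).1 = 0)
    (g3 : resT k (e ∘ .inr) (H none).1 = h₁) (v0 : ∀ i, N₀.ev (h₀ i) = 0)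
    (hc : (fun i => N₀.ev (N₀.m (h₀ i))) ≠ 0) (hκ : rs (N₁.s * dT h₁.1) ≠ 0)
    (p₁ : Pole (dT h₁.1) (-2))
    (o₀ : ∀ z : Fin 5 → k, ∃ a ∈ A₀, ∀ i j, rs (a * (dT (h₀ j).1 * dT (h₀ i).1)) =
      !![z 0, z 1; z 1, z 2] i j) (o₁ : ∀ t, ∃ a ∈ A₁, rs (a * (dT h₁.1 * dT h₁.1)) = t) :
    LinearMap.range (h.sm i₀ H) =
      Submodule.span k (Set.range (hsym fun i => N₀.ev (N₀.m (h₀ i)))) := by
  have hle := hG.range_le h i₀ g0 g1 g2 v0 hc
  rw [← Fintype.range_linearCombination]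
  refine le_antisymm (by rintro _ ⟨D, rfl⟩; exact (hle D).imp fun _ h => h.symm) ?_
  set c := fun i => N₀.ev (N₀.m (h₀ i)) with hc'
  have k1 : ∀ z : Fin 5 → k, z 3 = 0 →
      Fintype.linearCombination k (hsym c) z ∈ LinearMap.range (h.sm i₀ H) := fun z hz => by
    obtain ⟨a, ha, a1⟩ := o₀ z
    obtain ⟨b, hb, b1⟩ := o₁ (z 4)
    obtain ⟨F, f0, f1⟩ := hG.lift (a₀ := ⟨a, ha⟩)
      (a₁ := ⟨b, hb⟩ + algebraMap k _ (N₀.ev ⟨a, ha⟩ - N₁.ev ⟨b, hb⟩)) (by simp)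
    have b2 : ∀ r : k, rs (algebraMap k (LT ι₁ k) r * (dT h₁.1 * dT h₁.1)) = 0 := fun r =>
      rs_pole (n := 0) (fun i => LS.ge_algebraMap r) (Univ_pole_mul p₁ p₁) (by norm_num)
    refine ⟨derA F.2, ?_⟩
    rw [HermTB_hs, hz]
    ext i j
    rw [h.sm_eq i₀ H _ i (derA_apply F.2 (H j)), resT_rs e, mul_assoc]
    rcases i with _ | i <;> rcases j with _ | j <;>
      simp only [map_mul, resT_dT, g0, g1, g2, g3, f0, f1, map_zero, mul_zero, zero_mul, add_zero,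
        zero_add, of_apply]
    · rw [Subalgebra.coe_add, add_mul, map_add, b1, Subalgebra.coe_algebraMap, b2, add_zero]
    · exact a1 i j
  obtain ⟨D, hD⟩ := hG.node
  obtain ⟨z', hz'⟩ := hle D
  have k2 : z' 3 ≠ 0 := fun h3 => by
    obtain ⟨i, hi⟩ := Function.ne_iff.1 hc
    obtain ⟨F, f0, f1⟩ := hD (H (some i)) (h₀ i) 0 (g0 i) (g1 i)
    have := congrFun (congrFun hz' none) (some i)
    rw [HermTB_hs, h.sm_eq i₀ H D none f0, resT_rs e] at this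
    simp only [map_mul, resT_dT, g2, g3, f1, map_zero, mul_zero, zero_add, of_apply, h3, zero_mul,
      ZeroMemClass.coe_zero, sub_zero] at this
    rw [mul_right_comm, mul_comm, ← Algebra.smul_def, map_smul, smul_eq_mul] at this
    exact mul_ne_zero hi hκ this
  rintro _ ⟨z, rfl⟩
  rw [← sub_add_cancel z ((z 3 / z' 3) • z'), map_add, map_smul]
  exact add_mem (k1 _ (by simp [k2])) (Submodule.smul_mem _ _ ⟨D, hz'⟩)

theorem HermTB_blk {γ γ' : k} {Q Q' : Matrix (Fin 2) (Fin 2) k} (h : γ * γ' = 1)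
    (h' : Q * Q' = 1) : hblk γ Q * hblk γ' Q' = 1 := by
  ext (_ | i) (_ | j)
  · simp [mul_apply, Fintype.sum_option, hblk, h]
  · simp [mul_apply, Fintype.sum_option, hblk]
  · simp [mul_apply, Fintype.sum_option, hblk]
  · simpa [mul_apply, Fintype.sum_option, hblk, one_apply] using congrFun (congrFun h' i) j

theorem Glued.uniq [DecidableEq ι₀] [DecidableEq ι₁] (p : ℕ) [Fact p.Prime] [CharP k p]
    (hG : Glued e N₀ N₁ A) (h : IsChart J A) (i₀ : ι) (hJ : ∀ ν ∈ J, ν.2 < 1) (hc : Curv A)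
    (hn : J.card = 3) {μ : Fin 2 → ι₀ × ℕ} (hi : Function.Injective μ)
    (hμ : ∀ i, (e (.inl (μ i).1), (μ i).2) ∈ J) {ν : ι₁ × ℕ} (hν : (e (.inr ν.1), ν.2) ∈ J)
    {h₀ : Fin 2 → A₀} {h₁ : A₁} (P₀ : ∀ i, Pole (pm k (μ i) ^ p - (h₀ i).1) 0)
    (P₁ : Pole (pm k ν ^ p - h₁.1) 0) {Q : Matrix (Fin 2) (Fin 2) k}
    (hQ : Q * of (fun i j => rs (pm k (μ j) * dT (h₀ i).1)) = 1)
    (hγ : rs (pm k ν * dT h₁.1) ≠ 0)
    (he : ∑ i, N₀.ev (N₀.m (h₀ i)) * Q.mulVec (fun i => N₀.ev (N₀.m (h₀ i))) i ^ p ≠ 0)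
    (hκ : rs (N₁.s * dT h₁.1) ≠ 0)
    (o₀ : ∀ z : Fin 5 → k, ∃ a ∈ A₀, ∀ i j, rs (a * (dT (h₀ j).1 * dT (h₀ i).1)) =
      !![z 0, z 1; z 1, z 2] i j) (o₁ : ∀ t, ∃ a ∈ A₁, rs (a * (dT h₁.1 * dT h₁.1)) = t)
    {K : Type u} [Field K] [Algebra k K] {c₀ : Idx ι → K} (h1 : On (cI k i₀ J) c₀)
    (h2 : Spc k c₀ (coef i₀ J A))
    (hd : ((2 * Fintype.card ι + 2 * J.card : ℕ) : ℕ∞) ≤ dm k c₀ + 2) :
    Uniq p (cI k i₀ J) (hw k p J) (coef i₀ J A) := by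
  choose f₀ a1 a2 a3 a4 using fun i => N₀.norm (h₀ i)
  obtain ⟨f₁, b1, b2, -, b4⟩ := N₁.norm h₁
  simp only [← a2, ← a3, ← b2] at hQ hγ he hκ o₀ o₁
  choose H₀ g0 g1 using fun i => hG.lift (a₁ := 0) ((a1 i).trans (map_zero _).symm)
  obtain ⟨H₁, g2, g3⟩ := hG.lift (a₀ := 0) ((map_zero _).trans b1.symm)
  let f : Option (Fin 2) → J := fun o => o.elim ⟨_, hν⟩ fun i => ⟨_, hμ i⟩
  have hf : Function.Injective f := by
    rintro (_ | i) (_ | j) hij <;> simp only [f, Option.elim, Subtype.mk.injEq, Prod.mk.injEq,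
      e.injective.eq_iff, reduceCtorEq, false_and, Sum.inl.injEq] at hij
    · rfl
    · exact congrArg _ (hi (Prod.ext hij.1 hij.2))
  let σ := Equiv.ofBijective f ((Fintype.bijective_iff_injective_and_card f).2 ⟨hf, by simp [hn]⟩)
  have l0 : ∀ i, resT k (e ∘ .inl) (pm k (σ (some i)).1) = pm k (μ i) := fun i =>
    resT_pm (e.injective.comp Sum.inl_injective) _
  have l1 : ∀ i, resT k (e ∘ .inr) (pm k (σ (some i)).1) = 0 := fun i =>
    resT_pm' fun j hj => Sum.inr_ne_inl (e.injective hj)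
  have l2 : resT k (e ∘ .inl) (pm k (σ none).1) = 0 :=
    resT_pm' fun j hj => Sum.inl_ne_inr (e.injective hj)
  have l3 : resT k (e ∘ .inr) (pm k (σ none).1) = pm k ν :=
    resT_pm (e.injective.comp Sum.inr_injective) _
  have hp : p ≠ 0 := (Fact.out : p.Prime).ne_zero
  have hc' : (fun i => N₀.ev (N₀.m (f₀ i))) ≠ 0 := fun h0 => he (by simp [h0, funext_iff.1 h0])
  have z0 : ∀ {κ : Type}, Pole (0 : LT κ k) 0 := fun _ _ _ => rfl
  refine h.cone_res p i₀ hJ hc σ (fun o => o.elim H₁ H₀) ?_ ?_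
    (herm_cone (inv_ne_zero hγ) (det_ne_zero_of_right_inverse hQ) he) (HermTB_li hc')
    (hG.range_sm h i₀ g0 g1 g2 g3 a1 hc' hκ (dT_pole_pow p (b4 _ P₁)) o₀ o₁) h1 h2 hd
  · rintro (_ | i)
    · exact resT_pole e (by simpa [l2, g2, hp] using z0) (by simpa [l3, g3] using b4 _ P₁)
    · exact resT_pole e (by simpa [l0, g0] using a4 i _ (P₀ i)) (by simpa [l1, g1, hp] using z0)
  · rw [← HermTB_blk (inv_mul_cancel₀ hγ) hQ]
    congr 1
    ext (_ | i) (_ | j) <;> rw [of_apply, resT_rs e] <;>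
      simp [resT_dT, l0, l1, l2, l3, g0, g1, g2, g3, hblk]

end

end PR0
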