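import Pool.Agent.Work.MP_da2620_ag.NrmA

-- merged part: Pool.Agent.Work.MP_da2620_ag.LiftA
section
/-!
# Components of a comb, functions with prescribed behaviour (auxiliary file for `Lift`)
-/

namespace PR0

universe u

section
variable {K L : Type u} [Field K] [Field L] [Algebra K L] [IsAlgClosed K] [Fact (IsFF K L)]

theorem LiftA_ord_zero {P : Place K L} {w : L} (hw : w ∈ P.1) (h : P.val w ≠ 0) :
    w ≠ 0 ∧ P.ord w = 0 := by
  have h1 : ¬ P.Ge w 1 := fun e => h ((Place.val_eq_zero hw).2 e)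
  have h0 : w ≠ 0 := fun e => h1 (Or.inl e)
  have h2 := ((Place.mem_iff P).1 hw).resolve_left h0
  have h3 : ¬ 1 ≤ P.ord w := fun e => h1 (Or.inr e)
  exact ⟨h0, by omega⟩

theorem LiftA_ge_of_mul {P : Place K L} {w f : L} {n : ℤ} (hw : w ≠ 0) (h : P.Ge (w * f) n) :
    P.Ge f (n - P.ord w) := by
  by_cases hf : f = 0
  · exact Or.inl hf
  have := h.resolve_left (mul_ne_zero hw hf)
  rw [Place.ord_mul P hw hf] at this
  exact Or.inr (by omega)

theorem LiftA_mem_of_mul {P : Place K L} {w f : L} (hw : w ∈ P.1) (h : P.val w ≠ 0)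
    (hf : w * f ∈ P.1) : f ∈ P.1 := by
  obtain ⟨h0, h1⟩ := LiftA_ord_zero hw h
  have := LiftA_ge_of_mul h0 ((Place.mem_iff P).1 hf)
  rw [h1] at this
  exact (Place.mem_iff P).2 this

theorem LiftA_val_pow {P : Place K L} {w : L} (hw : w ∈ P.1) (n : ℕ) :
    P.val (w ^ n) = P.val w ^ n := by
  induction n with
  | zero => simpa using Place.val_const (P := P) (1 : K)
  | succ n ih => rw [pow_succ, Place.val_mul (pow_mem hw n) hw, ih, pow_succ]

theorem LiftA_val_congr {P : Place K L} {f a : L} (ha : a ∈ P.1) (h : P.Ge (f - a) 1) :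
    f ∈ P.1 ∧ P.val f = P.val a := by
  have h1 : f - a ∈ P.1 := (Place.mem_iff P).2 (h.mono (by norm_num))
  have h2 : f = (f - a) + a := by ring
  refine ⟨h2 ▸ add_mem h1 ha, ?_⟩
  rw [h2, Place.val_add h1 ha, (Place.val_eq_zero h1).2 h, zero_add]

theorem LiftA_sum_apply {α : Type*} [Fintype α] {P : α → Place K L} (hP : Function.Injective P)
    (i : α) : (∑ j, Finsupp.single (P j) (1 : ℤ) : Dv K L) (P i) = 1 := by
  classical
  rw [Finsupp.finsetSum_apply, Finset.sum_eq_single i]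
  · simp
  · intro j _ hj
    exact Finsupp.single_eq_of_ne fun e => hj (hP e).symm
  · simp

theorem LiftA_sum_apply' {α : Type*} [Fintype α] {P : α → Place K L} {Q : Place K L}
    (hQ : Q ∉ Set.range P) : (∑ j, Finsupp.single (P j) (1 : ℤ) : Dv K L) Q = 0 := by
  rw [Finsupp.finsetSum_apply]
  exact Finset.sum_eq_zero fun j _ => Finsupp.single_eq_of_ne fun e => hQ ⟨j, e.symm⟩

theorem LiftA_dg_sum {α : Type*} [Fintype α] (P : α → Place K L) :
    dg (∑ j, Finsupp.single (P j) (1 : ℤ) : Dv K L) = Fintype.card α := by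
  simp [dg_sum, dg_single]

variable {ι : Type} [Fintype ι] [DecidableEq ι]

theorem LiftA_mem_reg (d : CD K L ι) {f : L} (hf : f ∈ d.reg) {P : Place K L}
    (hP : P ∉ Set.range d.pl) : f ∈ P.1 := hf P hP

theorem LiftA_x_mem (d : CD K L ι) {P : Place K L} : d.x ∈ P.1 ↔ P ∉ Set.range d.pl := by
  rw [← d.poles_eq]
  simp [poles]

/-- Prescribing two-jets at finite points and the leading terms at infinity. -/
theorem LiftA_exists [Nonempty ι] (d : CD K L ι) (S : Finset (Place K L))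
    (hS : ∀ P ∈ S, P ∉ Set.range d.pl) (a : Place K L → L) (ha : ∀ P ∈ S, a P ∈ P.1) :
    ∃ n₀ : ℕ, ∀ n : ℕ, n₀ ≤ n → ∃ f ∈ d.reg, (∀ P ∈ S, P.Ge (f - a P) 2) ∧
      ∀ i, (d.ex i f - LS.T K (-n)).Ge (1 - n) := by
  classical
  refine ⟨2 * genus K L + 2 * S.card + 1, fun n hn => ?_⟩
  let E : Dv K L := ∑ P : S, Finsupp.single P.1 1
  let D : Dv K L := ((n : ℤ) - 1) • d.inf - (2 : ℤ) • E
  have hc : 1 ≤ (Fintype.card ι : ℤ) := by exact_mod_cast Fintype.card_pos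
  have hD : H1z D := by
    refine h1z_of_deg ?_
    rw [dg_sub, dg_smul, dg_smul, CD.inf, LiftA_dg_sum, LiftA_dg_sum, Fintype.card_coe]
    have : (2 * genus K L + 2 * S.card + 1 : ℤ) ≤ n := by exact_mod_cast hn
    nlinarith
  let r : Place K L → L := fun P => if P ∈ S then a P else if P ∈ Set.range d.pl then d.x ^ n else 0
  have hr : r ∈ Rep K L := by
    refine (Set.finite_range d.pl).subset fun P hP => ?_
    by_contra h
    apply hP
    simp only [r, if_neg h]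
    split_ifs with h'
    · exact ha P h'
    · exact zero_mem _
  obtain ⟨f, hf⟩ := hD r hr
  have h1 : ∀ P ∈ S, P.Ge (f - a P) 2 := fun P hP => by
    have := hf P
    simp only [r, if_pos hP, D, E, CD.inf, Finsupp.sub_apply, Finsupp.smul_apply,
      LiftA_sum_apply' (hS P hP), LiftA_sum_apply Subtype.val_injective ⟨P, hP⟩] at this
    simpa using this
  refine ⟨f, fun P hP => ?_, h1, fun i => ?_⟩
  · by_cases h : P ∈ S
    · exact (LiftA_val_congr (ha P h) ((h1 P h).mono (by norm_num))).1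
    · have := hf P
      have h' : P ∉ Set.range (Subtype.val : S → Place K L) := by simpa using h
      simp only [r, if_neg h, if_neg hP, D, E, CD.inf, Finsupp.sub_apply, Finsupp.smul_apply,
        LiftA_sum_apply' hP, LiftA_sum_apply' h'] at this
      exact (Place.mem_iff P).2 (by simpa using this)
  · have h : d.pl i ∉ S := fun h => hS _ h ⟨i, rfl⟩
    have h' : d.pl i ∉ Set.range (Subtype.val : S → Place K L) := by simpa using h
    have := hf (d.pl i)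
    simp only [r, if_neg h, if_pos (Set.mem_range_self i), D, E, CD.inf, Finsupp.sub_apply,
      Finsupp.smul_apply, LiftA_sum_apply d.inj, LiftA_sum_apply' h'] at this
    rw [d.ge_iff, map_sub, map_pow, d.ex_x, LS.T_pow] at this
    simpa using this

end

variable {κ : Type u} [Field κ] {T ι : Type}

namespace Comb

/-- The components. -/
def cmp (Y : Comb T κ) : Option T → FFd κ
  | none => Y.C
  | some j => Y.E j

/-- The restriction to a component. -/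
noncomputable def pr (Y : Comb T κ) : (γ : Option T) → Y.Fn →ₐ[κ] (Y.cmp γ).L
  | none => (AlgHom.fst κ _ _ : Y.Fn →ₐ[κ] Y.C.L)
  | some j => ((Pi.evalAlgHom κ _ j).comp (AlgHom.snd κ _ _) : Y.Fn →ₐ[κ] (Y.E j).L)

/-- The nodes on a component. -/
def Nd (Y : Comb T κ) : (γ : Option T) → Set (Place κ (Y.cmp γ).L)
  | none => Set.range Y.a
  | some j => {Y.b j}

theorem LiftA_ext {Y : Comb T κ} {f g : Y.Fn} (h : ∀ γ, Y.pr γ f = Y.pr γ g) : f = g :=
  Prod.ext (h none) (funext fun j => h (some j))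

theorem LiftA_glue (Y : Comb T κ) (g : ∀ γ, (Y.cmp γ).L) : ∃ f : Y.Fn, ∀ γ, Y.pr γ f = g γ :=
  ⟨(g none, fun j => g (some j)), fun γ => by cases γ <;> rfl⟩

theorem LiftA_finite_Nd [Fintype T] (Y : Comb T κ) (γ : Option T) : (Y.Nd γ).Finite := by
  cases γ with
  | none => exact Set.finite_range _
  | some j => exact Set.finite_singleton _

theorem LiftA_isUnit {Y : Comb T κ} {f : Y.Fn} (h : ∀ γ, Y.pr γ f ≠ 0) : IsUnit f := by
  obtain ⟨g, hg⟩ := Y.LiftA_glue fun γ => (Y.pr γ f)⁻¹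
  exact IsUnit.of_mul_eq_one g (LiftA_ext fun γ => by rw [map_mul, hg, map_one, mul_inv_cancel₀ (h γ)])

namespace CC

variable {Y : Comb T κ} (c : Y.CC ι)

/-- The poles on a component. -/
def ιc : Option T → Type
  | none => c.ι₀
  | some j => c.ιt j

instance : (γ : Option T) → Fintype (c.ιc γ)
  | none => c.f₀
  | some j => c.ft j
instance : (γ : Option T) → DecidableEq (c.ιc γ)
  | none => c.e₀
  | some j => c.et j
instance : (γ : Option T) → Nonempty (c.ιc γ)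
  | none => c.n₀
  | some j => c.nt j

/-- The chart of a component. -/
def dc : (γ : Option T) → CD κ (Y.cmp γ).L (c.ιc γ)
  | none => c.d₀
  | some j => c.dt j

/-- The index of a pole. -/
def ix : (γ : Option T) → c.ιc γ → ι
  | none => fun i => c.e (.inl i)
  | some j => fun i => c.e (.inr ⟨j, i⟩)

theorem LiftA_exT (f : Y.Fn) (γ : Option T) (i : c.ιc γ) :
    c.exT f (c.ix γ i) = (c.dc γ).ex i (Y.pr γ f) := by
  cases γ with
  | none => exact c.exT_inl f i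
  | some j => exact c.exT_inr f j i

theorem LiftA_surj (i : ι) : ∃ γ i', c.ix γ i' = i := by
  obtain ⟨s, rfl⟩ := c.e.surjective i
  rcases s with i | ⟨j, i⟩
  · exact ⟨none, i, rfl⟩
  · exact ⟨some j, i, rfl⟩

theorem LiftA_pr_x (γ : Option T) : Y.pr γ c.x = (c.dc γ).x := by cases γ <;> rfl

theorem LiftA_mem_nrm {f : Y.Fn} : f ∈ c.nrm ↔ ∀ γ, Y.pr γ f ∈ (c.dc γ).reg := by
  rw [c.mem_nrm]
  exact ⟨fun h γ => by cases γ with
    | none => exact h.1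
    | some j => exact h.2 j, fun h => ⟨h none, fun j => h (some j)⟩⟩

include c in
theorem LiftA_nonempty : Nonempty ι := ⟨c.e (.inl (Classical.arbitrary _))⟩

variable [IsAlgClosed κ] [Fintype T] [Fintype ι] [DecidableEq ι]

omit [Fintype T] [Fintype ι] [DecidableEq ι] in
theorem LiftA_nd {γ : Option T} {P : Place κ (Y.cmp γ).L} (h : P ∈ Y.Nd γ) :
    P ∉ Set.range (c.dc γ).pl := by
  rw [← LiftA_x_mem]
  cases γ with
  | none =>
    obtain ⟨j, rfl⟩ := h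
    exact c.ha j
  | some j =>
    obtain rfl : P = Y.b j := h
    exact c.hb j

omit [Fintype T] [Fintype ι] [DecidableEq ι] in
theorem LiftA_reg {f : Y.Fn} (hf : f ∈ c.reg) (γ : Option T) : Y.pr γ f ∈ (c.dc γ).reg :=
  c.LiftA_mem_nrm.1 hf.1 γ

theorem LiftA_reg_of_const {f : Y.Fn} (hf : f ∈ c.nrm) {v : κ}
    (h : ∀ γ, ∀ P ∈ Y.Nd γ, P.val (Y.pr γ f) = v) : f ∈ c.reg := by
  rw [c.mem_nrm] at hf
  exact c.mem_reg.2 ⟨hf.1, hf.2, fun j => (h none _ ⟨j, rfl⟩).trans (h (some j) _ rfl).symm⟩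

/-- Transfer of the gluing condition. -/
theorem LiftA_reg_of_val {ι' : Type} [Fintype ι'] [DecidableEq ι'] (c' : Y.CC ι') {f g : Y.Fn}
    (hf : f ∈ c'.nrm) (hg : g ∈ c.reg)
    (h : ∀ γ, ∀ P ∈ Y.Nd γ, P.val (Y.pr γ f) = P.val (Y.pr γ g)) : f ∈ c'.reg := by
  rw [c'.mem_nrm] at hf
  exact c'.mem_reg.2 ⟨hf.1, hf.2, fun j =>
    (h none _ ⟨j, rfl⟩).trans (((c.mem_reg.1 hg).2.2 j).trans (h (some j) _ rfl).symm)⟩

/-- Functions on the comb with prescribed jets at smooth points, value `v` at the nodes, and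
exact pole order at infinity. -/
theorem LiftA_exists_reg (S : ∀ γ, Set (Place κ (Y.cmp γ).L)) (hf : ∀ γ, (S γ).Finite)
    (hS : ∀ γ, ∀ P ∈ S γ, P ∉ Set.range (c.dc γ).pl) (hN : ∀ γ, ∀ P ∈ S γ, P ∉ Y.Nd γ)
    (a : ∀ γ, Place κ (Y.cmp γ).L → (Y.cmp γ).L) (ha : ∀ γ, ∀ P ∈ S γ, a γ P ∈ P.1) (v : κ)
    (m : ℕ) : ∃ n : ℕ, m < n ∧ ∃ f ∈ c.reg, (∀ γ, ∀ P ∈ S γ, P.Ge (Y.pr γ f - a γ P) 2) ∧
      (∀ γ, ∀ P ∈ Y.Nd γ, P.val (Y.pr γ f) = v) ∧
      ∀ i, (c.exT f i - LS.T κ (-n)).Ge (1 - n) := by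
  classical
  choose n₀ hn using fun γ => LiftA_exists (c.dc γ) ((hf γ).union (Y.LiftA_finite_Nd γ)).toFinset
    (fun P hP => by
      rcases (Set.Finite.mem_toFinset _).1 hP with h | h
      · exact hS γ P h
      · exact c.LiftA_nd h)
    (fun P => if P ∈ S γ then a γ P else algebraMap κ _ v) (fun P _ => by
      split_ifs with h
      · exact ha γ P h
      · exact P.2.2 v)
  refine ⟨m + 1 + ∑ γ, n₀ γ, by omega, ?_⟩
  choose g hg hg1 hg2 using fun γ => hn γ (m + 1 + ∑ γ, n₀ γ)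
    (le_add_left (Finset.single_le_sum (f := n₀) (fun _ _ => Nat.zero_le _) (Finset.mem_univ γ)))
  obtain ⟨f, hfg⟩ := Y.LiftA_glue g
  have h2 : ∀ γ, ∀ P ∈ Y.Nd γ, P.val (Y.pr γ f) = v := fun γ P hP => by
    have := hg1 γ P ((Set.Finite.mem_toFinset _).2 (Or.inr hP))
    rw [if_neg fun h => hN γ P h hP] at this
    rw [hfg]
    exact Place.val_eq (this.mono (by norm_num))
  refine ⟨f, c.LiftA_reg_of_const (c.LiftA_mem_nrm.2 fun γ => hfg γ ▸ hg γ) h2, fun γ P hP => ?_,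
    h2, fun i => ?_⟩
  · have := hg1 γ P ((Set.Finite.mem_toFinset _).2 (Or.inl hP))
    rwa [if_pos hP, ← hfg] at this
  · obtain ⟨γ, i, rfl⟩ := c.LiftA_surj i
    rw [LiftA_exT, hfg]
    exact hg2 γ i

/-- Denominators at a smooth point. -/
theorem LiftA_den {γ : Option T} {z : Place κ (Y.cmp γ).L} (hz : z ∉ Set.range (c.dc γ).pl)
    (hN : z ∉ Y.Nd γ) {g : Y.Fn} (hg : Y.pr γ g ∈ z.1) :
    ∃ s ∈ c.reg, z.val (Y.pr γ s) ≠ 0 ∧ s * g ∈ c.reg := by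
  classical
  obtain ⟨s₁, h1, h2, h3⟩ := exists_den_place (Set.finite_range _) (Set.range_nonempty _) hz hg
  obtain ⟨s, hs⟩ := Y.LiftA_glue (Pi.single γ s₁)
  have h4 : s ∈ c.nrm ∧ s * g ∈ c.nrm := by
    rw [LiftA_mem_nrm, LiftA_mem_nrm, ← forall_and]
    intro γ'
    rw [map_mul, hs]
    by_cases e : γ' = γ
    · subst e
      rw [Pi.single_eq_same]
      exact ⟨h1, h3⟩
    · rw [Pi.single_eq_of_ne e, zero_mul]
      exact ⟨zero_mem _, zero_mem _⟩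
  obtain ⟨n, -, w, hw, hw1, hw2, -⟩ := c.LiftA_exists_reg
    (fun γ' => {P | (⟨γ', P⟩ : Σ γ, Place κ (Y.cmp γ).L) = ⟨γ, z⟩})
    (fun γ' => (Set.finite_singleton (⟨γ, z⟩ : Σ γ, Place κ (Y.cmp γ).L)).preimage
      sigma_mk_injective.injOn)
    (fun γ' P hP => by cases hP; exact hz) (fun γ' P hP => by cases hP; exact hN)
    (fun _ _ => 1) (fun _ P _ => one_mem _) 0 0
  have h5 : ∀ f ∈ c.nrm, w * f ∈ c.reg := fun f hf =>
    c.LiftA_reg_of_const (mul_mem hw.1 hf) (v := 0) fun γ' P hP => by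
      rw [map_mul, Place.val_mul (c.LiftA_reg hw γ' P (c.LiftA_nd hP))
        (c.LiftA_mem_nrm.1 hf γ' P (c.LiftA_nd hP)), hw2 γ' P hP, zero_mul]
  refine ⟨w * s, h5 s h4.1, ?_, mul_assoc w s g ▸ h5 _ h4.2⟩
  have h6 := LiftA_val_congr (one_mem _) ((hw1 γ z rfl).mono (by norm_num))
  rw [map_mul, hs, Pi.single_eq_same, Place.val_mul h6.1 (h1 z hz), h6.2]
  refine mul_ne_zero ?_ h2
  simpa using (Place.val_const (P := z) (1 : κ)).trans_ne one_ne_zero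

end CC

end Comb

end PR0
end

-- merged part: Pool.Agent.Work.MP_da2620_ag.LiftB
section
/-!
# Models: generic and special values, the semilocal ring, sections (auxiliary file for `Lift`)
-/

namespace PR0

open Polynomial

universe u

theorem LiftB_fac {R A B : Type*} [CommRing R] [CommRing A] [CommRing B] (e : A →+* B)
    (he : Function.Injective e) (g : R →+* B) (h : ∀ r, ∃ a, e a = g r) :
    ∃ f : R →+* A, ∀ r, e (f r) = g r := by
  choose f hf using h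
  exact ⟨{ toFun := f
           map_one' := he (by rw [hf, map_one, map_one])
           map_mul' := fun a b => he (by rw [hf, map_mul, map_mul, hf, hf])
           map_zero' := he (by rw [hf, map_zero, map_zero])
           map_add' := fun a b => he (by rw [hf, map_add, map_add, hf, hf]) }, hf⟩

theorem LiftB_mapT_inj {ι : Type} {R R' : Type u} [CommRing R] [CommRing R'] {φ : R →+* R'}
    (h : Function.Injective φ) : Function.Injective (mapT (ι := ι) φ) :=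
  fun _ _ e => funext fun i => LS.map_injective h (congrFun e i)

variable {κ : Type u} [Field κ]

theorem LiftB_inc_inj : Function.Injective (inc κ) := Subtype.val_injective

theorem LiftB_red_surj : Function.Surjective (red κ) := fun a =>
  ⟨algebraMap κ _ a, (hres (κ := κ)).commutes a⟩

theorem LiftB_red_const (a : κ) : red κ (algebraMap κ (HO κ) a) = a := (hres (κ := κ)).commutes a

theorem LiftB_unit {o : HO κ} (h : red κ o ≠ 0) : IsUnit o := by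
  by_contra hu
  exact h (hres_eq_zero.2 (mem_max_HO.1 hu))

theorem LiftB_inv {e : HF κ} (he : e ∉ HO κ) :
    ∃ o : HO κ, red κ o = 0 ∧ (o : HF κ) * e = 1 := by
  have h0 : e ≠ 0 := fun h => he (h ▸ zero_mem _)
  have h1 : e⁻¹ ∈ HO κ := ((HO κ).mem_or_inv_mem e).resolve_left he
  refine ⟨⟨e⁻¹, h1⟩, ?_, inv_mul_cancel₀ h0⟩
  by_contra h
  obtain ⟨y, hy⟩ := (LiftB_unit h).exists_right_inv
  have h2 : e⁻¹ * y.1 = 1 := congrArg Subtype.val hy
  rw [inv_mul_eq_one₀ h0] at h2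
  exact he (h2 ▸ y.2)

theorem LiftB_poly {s : (HF κ)[X]} (hs : s ≠ 0) : ∃ (a : HF κ) (s₀ : (HO κ)[X]), a ≠ 0 ∧
    s₀.map (inc κ) = C a * s ∧ s₀.map (red κ) ≠ 0 := by
  obtain ⟨i, hi, hm⟩ := s.support.exists_min_image (fun i => hv (s.coeff i))
    (support_nonempty.2 hs)
  have h0 : s.coeff i ≠ 0 := mem_support_iff.1 hi
  obtain ⟨s₀, e⟩ : C (s.coeff i)⁻¹ * s ∈ lifts (inc κ) := by
    rw [lifts_iff_coeff_lifts]
    intro n
    rw [coeff_C_mul, inv_mul_eq_div]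
    refine ⟨⟨_, (Hahn_div h0).2 ?_⟩, rfl⟩
    by_cases hn : n ∈ s.support
    · exact hm n hn
    · rw [notMem_support_iff.1 hn, hv_eq_top.2 rfl]
      exact le_top
  refine ⟨_, s₀, inv_ne_zero h0, e, fun h => ?_⟩
  have h1 : s₀.coeff i = 1 := LiftB_inc_inj (by
    have := congrArg (fun q => coeff q i) e
    simpa [inv_mul_cancel₀ h0] using this)
  have h2 := congrArg (fun q => coeff q i) h
  simp [h1] at h2

/-- Integral expansions from a division step. -/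
theorem LiftB_exp {Q : LS (HF κ) → LS κ → Prop} (h0 : ∀ ψ φ, Q ψ φ → ψ.Ge 0 ∧ φ.Ge 0)
    (h1 : ∀ ψ φ, Q ψ φ → ∃ (o : HO κ) (ψ' : LS (HF κ)) (φ' : LS κ), Q ψ' φ' ∧
      ψ = algebraMap _ _ (inc κ o) + LS.T _ 1 * ψ' ∧ φ = algebraMap _ _ (red κ o) + LS.T _ 1 * φ')
    {ψ : LS (HF κ)} {φ : LS κ} (h : Q ψ φ) :
    ∃ F : LS (HO κ), F.Ge 0 ∧ LS.map (inc κ) F = ψ ∧ LS.map (red κ) F = φ := by
  have key : ∀ m : ℕ, ∀ ψ φ, Q ψ φ → ∃ o : HO κ, ψ.cf m = inc κ o ∧ φ.cf m = red κ o := by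
    intro m
    induction m with
    | zero =>
      intro ψ φ h
      obtain ⟨o, ψ', φ', h', rfl, rfl⟩ := h1 ψ φ h
      refine ⟨o, ?_, ?_⟩
      · rw [LS.cf_add, LS.cf_T_mul, (h0 _ _ h').1 _ (by norm_num), LS.cf_algebraMap]
        simp
      · rw [LS.cf_add, LS.cf_T_mul, (h0 _ _ h').2 _ (by norm_num), LS.cf_algebraMap]
        simp
    | succ m ih =>
      intro ψ φ h
      obtain ⟨o, ψ', φ', h', rfl, rfl⟩ := h1 ψ φ h
      obtain ⟨o', e1, e2⟩ := ih _ _ h'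
      refine ⟨o', ?_, ?_⟩
      · rw [LS.cf_add, LS.cf_T_mul, LS.cf_algebraMap, if_neg (by omega), zero_add, ← e1]
        simp
      · rw [LS.cf_add, LS.cf_T_mul, LS.cf_algebraMap, if_neg (by omega), zero_add, ← e2]
        simp
  have key2 : ∀ m : ℤ, ∃ o : HO κ, ψ.cf m = inc κ o ∧ φ.cf m = red κ o := fun m => by
    by_cases hm : m < 0
    · exact ⟨0, by rw [(h0 _ _ h).1 m hm, map_zero], by rw [(h0 _ _ h).2 m hm, map_zero]⟩
    · obtain ⟨m, rfl⟩ := Int.eq_ofNat_of_zero_le (not_lt.1 hm)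
      exact key m _ _ h
  choose o e1 e2 using key2
  have h3 : ∀ m, m < 0 → o m = 0 := fun m hm =>
    LiftB_inc_inj (by rw [← e1, (h0 _ _ h).1 m hm, map_zero])
  obtain ⟨F, hF⟩ := LS.exists_cf o 0 h3
  exact ⟨F, fun m hm => by rw [hF, h3 m hm], LS.ext fun m => by rw [LS.cf_map, hF, e1],
    LS.ext fun m => by rw [LS.cf_map, hF, e2]⟩

variable [IsAlgClosed κ] {ι ι' T : Type} [Fintype ι] [DecidableEq ι]
  [Fintype ι'] [DecidableEq ι'] [Fintype T] {J : Finset (ι × ℕ)} {J' : Finset (ι' × ℕ)}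
  {L : Type u} [Field L] [Algebra (HF κ) L] [Fact (IsFF (HF κ) L)] {Y : Comb T κ}

/-- A model with smooth generic fibre and a comb as special fibre. -/
structure IsMod (J : Finset (ι × ℕ)) (𝒜 : Subalgebra (HO κ) (LT ι (HO κ))) (d : CD (HF κ) L ι)
    (c : Y.CC ι) : Prop where
  ch : IsChart J 𝒜
  ge : d.alg = gen' 𝒜
  sp : c.alg = spe 𝒜

variable {𝒜 : Subalgebra (HO κ) (LT ι (HO κ))} {d : CD (HF κ) L ι} {c : Y.CC ι}

namespace IsMod

variable (h : IsMod J 𝒜 d c)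
include h

omit [Fintype T] [Fact (IsFF (HF κ) L)] in
theorem LiftB_ex_up (F : 𝒜) : ∃ f ∈ d.reg, d.exT f = mapT (inc κ) F := by
  have : mapT (inc κ) F ∈ d.alg := h.ge ▸ Algebra.subset_adjoin ⟨F, F.2, rfl⟩
  exact this

omit [Fintype T] [Fact (IsFF (HF κ) L)] in
theorem LiftB_ex_dn (F : 𝒜) : ∃ f ∈ c.reg, c.exT f = mapT (red κ) F := by
  have : mapT (red κ) F ∈ c.alg := h.sp ▸ Algebra.subset_adjoin ⟨F, F.2, rfl⟩
  exact this

omit [Fintype T] in
theorem LiftB_inj : Function.Injective d.exT :=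
  have := c.LiftA_nonempty
  d.exT_injective

/-- The function on the generic fibre. -/
noncomputable def up : 𝒜 →+* L :=
  (LiftB_fac (d.exT : L →+* LT ι (HF κ)) h.LiftB_inj ((mapT (inc κ)).comp 𝒜.val.toRingHom)
    fun F => (h.LiftB_ex_up F).imp fun _ e => e.2).choose

/-- The function on the special fibre. -/
noncomputable def dn : 𝒜 →+* Y.Fn :=
  (LiftB_fac (c.exT : Y.Fn →+* LT ι κ) c.exT_injective ((mapT (red κ)).comp 𝒜.val.toRingHom)
    fun F => (h.LiftB_ex_dn F).imp fun _ e => e.2).choose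

omit [Fintype T] in
theorem exT_up (F : 𝒜) : d.exT (h.up F) = mapT (inc κ) F :=
  (LiftB_fac (d.exT : L →+* LT ι (HF κ)) h.LiftB_inj ((mapT (inc κ)).comp 𝒜.val.toRingHom)
    fun F => (h.LiftB_ex_up F).imp fun _ e => e.2).choose_spec F

omit [Fact (IsFF (HF κ) L)] in
theorem exT_dn (F : 𝒜) : c.exT (h.dn F) = mapT (red κ) F :=
  (LiftB_fac (c.exT : Y.Fn →+* LT ι κ) c.exT_injective ((mapT (red κ)).comp 𝒜.val.toRingHom)
    fun F => (h.LiftB_ex_dn F).imp fun _ e => e.2).choose_spec F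

omit [Fintype T] in
theorem up_mem (F : 𝒜) : h.up F ∈ d.reg := by
  obtain ⟨f, hf, e⟩ := h.LiftB_ex_up F
  rwa [h.LiftB_inj ((h.exT_up F).trans e.symm)]

omit [Fact (IsFF (HF κ) L)] in
theorem dn_mem (F : 𝒜) : h.dn F ∈ c.reg := by
  obtain ⟨f, hf, e⟩ := h.LiftB_ex_dn F
  rwa [c.exT_injective ((h.exT_dn F).trans e.symm)]

omit [Fintype T] in
theorem up_inj : Function.Injective h.up := fun F G e =>
  Subtype.ext (LiftB_mapT_inj LiftB_inc_inj (by rw [← h.exT_up, ← h.exT_up, e]))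

omit [Fintype T] in
theorem up_const (o : HO κ) : h.up (algebraMap _ _ o) = algebraMap (HF κ) L (inc κ o) :=
  h.LiftB_inj (by rw [h.exT_up, AlgHom.commutes]; exact mapT_algebraMap _ _)

omit [Fact (IsFF (HF κ) L)] in
theorem dn_const (o : HO κ) : h.dn (algebraMap _ _ o) = algebraMap κ Y.Fn (red κ o) :=
  c.exT_injective (by rw [h.exT_dn, AlgHom.commutes]; exact mapT_algebraMap _ _)

omit [Fact (IsFF (HF κ) L)] in
theorem dn_surj {f₀ : Y.Fn} (hf : f₀ ∈ c.reg) : ∃ F, h.dn F = f₀ := by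
  have h1 : c.exT f₀ ∈ c.alg := ⟨f₀, hf, rfl⟩
  obtain ⟨F, hF, e⟩ := h.ch.mem_spe.1 (h.sp ▸ h1)
  exact ⟨⟨F, hF⟩, c.exT_injective ((h.exT_dn _).trans e)⟩

omit [Fact (IsFF (HF κ) L)] in
theorem dn_surj' {f₀ : Y.Fn} (hf : f₀ ∈ c.reg) {n : ℕ} (hJ : ∀ ν ∈ J, ν.2 < n)
    (hn : ∀ i, (c.exT f₀ i - LS.T κ (-n)).Ge (1 - n)) :
    ∃ F : 𝒜, h.dn F = f₀ ∧ ∀ i, (F.1 i).Ge (-n) ∧ IsUnit ((F.1 i).cf (-n)) := by
  have h1 : ∀ i, c.exT f₀ i = (c.exT f₀ i - LS.T κ (-n)) + LS.T κ (-n) := fun i => by ring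
  have h0 : c.exT f₀ ∈ c.alg := ⟨f₀, hf, rfl⟩
  rw [h.sp] at h0
  obtain ⟨F, hF, hp, e⟩ := h.ch.exists_lift LiftB_red_surj h0 hJ
    (fun i => h1 i ▸ ((hn i).mono (by omega)).add (LS.ge_T _))
  refine ⟨⟨F, hF⟩, c.exT_injective ((h.exT_dn _).trans e), fun i => ⟨hp i, LiftB_unit ?_⟩⟩
  have h2 : red κ ((F i).cf (-n)) = (c.exT f₀ i).cf (-n) := by
    rw [← e]
    rfl
  rw [h2, h1, LS.cf_add, hn i _ (by omega), LS.cf_T]
  simp

theorem LiftB_prim {f : L} (hf : f ∈ d.reg) (h0 : f ≠ 0) :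
    ∃ (a : HF κ) (F : 𝒜), a ≠ 0 ∧ h.up F = a • f ∧ h.dn F ≠ 0 := by
  have := c.LiftA_nonempty
  obtain ⟨a, F, ha, hF, e1, e2⟩ := h.ch.exists_prim
    (h.ge ▸ (⟨f, hf, rfl⟩ : d.exT f ∈ d.alg)) fun e => h0 (h.LiftB_inj (e.trans (map_zero _).symm))
  refine ⟨a, ⟨F, hF⟩, ha, h.LiftB_inj (by rw [h.exT_up, map_smul, e1]), fun e => e2 ?_⟩
  rw [← h.exT_dn ⟨F, hF⟩, e, map_zero]

/-- `f` lies in the semilocal ring of the generic points of the special fibre, with reduction `f₀`. -/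
def RB (f : L) (f₀ : Y.Fn) : Prop :=
  ∃ a s : 𝒜, IsUnit (h.dn s) ∧ h.up s * f = h.up a ∧ h.dn s * f₀ = h.dn a

theorem rb_up (F : 𝒜) : h.RB (h.up F) (h.dn F) := ⟨F, 1, by simp, by simp, by simp⟩

theorem rb_const (o : HO κ) :
    h.RB (algebraMap (HF κ) L (inc κ o)) (algebraMap κ Y.Fn (red κ o)) := by
  rw [← h.up_const, ← h.dn_const]
  exact h.rb_up _

variable {h} {f g : L} {f₀ g₀ : Y.Fn}

theorem RB.unique (h1 : h.RB f f₀) (h2 : h.RB f g₀) : f₀ = g₀ := by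
  obtain ⟨a, s, hs, e1, e2⟩ := h1
  obtain ⟨a', s', hs', e1', e2'⟩ := h2
  have e : s' * a = s * a' := h.up_inj (by rw [map_mul, map_mul, ← e1, ← e1']; ring)
  refine (hs.mul hs').mul_left_cancel ?_
  have e3 := congrArg h.dn e
  rw [map_mul, map_mul, ← e2, ← e2'] at e3
  linear_combination e3

theorem RB.add (h1 : h.RB f f₀) (h2 : h.RB g g₀) : h.RB (f + g) (f₀ + g₀) := by
  obtain ⟨a, s, hs, e1, e2⟩ := h1
  obtain ⟨a', s', hs', e1', e2'⟩ := h2
  refine ⟨s' * a + s * a', s * s', by rw [map_mul]; exact hs.mul hs', ?_, ?_⟩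
  · rw [RingHom.map_add, map_mul, map_mul, map_mul, ← e1, ← e1']
    ring
  · rw [RingHom.map_add, map_mul, map_mul, map_mul, ← e2, ← e2']
    ring

theorem RB.mul (h1 : h.RB f f₀) (h2 : h.RB g g₀) : h.RB (f * g) (f₀ * g₀) := by
  obtain ⟨a, s, hs, e1, e2⟩ := h1
  obtain ⟨a', s', hs', e1', e2'⟩ := h2
  refine ⟨a * a', s * s', by rw [map_mul]; exact hs.mul hs', ?_, ?_⟩
  · rw [map_mul, map_mul, ← e1, ← e1']
    ring
  · rw [map_mul, map_mul, ← e2, ← e2']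
    ring

theorem RB.smul (h1 : h.RB f f₀) (o : HO κ) : h.RB ((o : HF κ) • f) (red κ o • f₀) := by
  rw [Algebra.smul_def, Algebra.smul_def]
  exact (h.rb_const o).mul h1

theorem RB.zero : h.RB 0 0 := by simpa using h.rb_up 0

theorem RB.sum {α : Type*} (s : Finset α) {f : α → L} {f₀ : α → Y.Fn}
    (h1 : ∀ i ∈ s, h.RB (f i) (f₀ i)) : h.RB (∑ i ∈ s, f i) (∑ i ∈ s, f₀ i) := by
  classical
  induction s using Finset.induction_on with
  | empty => simpa using RB.zero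
  | insert a s ha ih =>
    rw [Finset.sum_insert ha, Finset.sum_insert ha]
    exact (h1 a (Finset.mem_insert_self _ _)).add (ih fun i hi => h1 i (Finset.mem_insert_of_mem hi))

theorem RB.mem_O (h1 : h.RB f f₀) (h0 : f₀ ≠ 0) {e : HF κ} (h2 : h.RB (e • f) g₀) : e ∈ HO κ := by
  by_contra he
  obtain ⟨o, ho, e1⟩ := LiftB_inv he
  have h3 := h2.smul o
  rw [smul_smul, e1, one_smul, ho, zero_smul] at h3
  exact h0 (h1.unique h3)

variable (h) in
theorem rb_prim (h0 : f ≠ 0) : ∃ (a : HF κ) (f₀ : Y.Fn), a ≠ 0 ∧ f₀ ≠ 0 ∧ h.RB (a • f) f₀ := by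
  have := c.LiftA_nonempty
  obtain ⟨s, hs, hf⟩ := exists_den d.transcendental f
  rw [d.poles_eq] at hf
  obtain ⟨a, s₀, ha, e1, e2⟩ := LiftB_poly hs.ne_zero
  let X : 𝒜 := ⟨xx ι _, h.ch.x_mem⟩
  have hX : h.up X = d.x := h.LiftB_inj (by rw [h.exT_up, d.exT_x]; exact mapT_xx _)
  have hX₀ : h.dn X = c.x := c.exT_injective (by rw [h.exT_dn, c.exT_x]; exact mapT_xx _)
  have u1 : h.up (aeval X s₀) = a • aeval d.x s := by
    rw [aeval_def, hom_eval₂, hX, Algebra.smul_def, ← aeval_C d.x, ← map_mul, ← e1, aeval_def,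
      eval₂_map]
    congr 1
    exact RingHom.ext h.up_const
  have u2 : h.dn (aeval X s₀) = aeval c.x (s₀.map (red κ)) := by
    rw [aeval_def, hom_eval₂, hX₀, aeval_def, eval₂_map]
    congr 1
    exact RingHom.ext h.dn_const
  have u3 : IsUnit (h.dn (aeval X s₀)) := Comb.LiftA_isUnit fun γ e => by
    rw [u2, ← aeval_algHom_apply, c.LiftA_pr_x] at e
    exact (c.dc γ).transcendental ⟨_, e2, e⟩
  have u4 : aeval d.x s ≠ 0 := fun e => d.transcendental ⟨_, hs.ne_zero, e⟩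
  obtain ⟨b, F, hb, e3, e4⟩ := h.LiftB_prim (d.reg.smul_mem hf a)
    (smul_ne_zero ha (mul_ne_zero u4 h0))
  obtain ⟨v, hv⟩ := u3.exists_right_inv
  refine ⟨b, v * h.dn F, hb, fun e => e4 ?_, F, aeval X s₀, u3, ?_, ?_⟩
  · rw [← one_mul (h.dn F), ← hv, mul_assoc, e, mul_zero]
  · rw [u1, e3, smul_mul_smul_comm, smul_smul, mul_comm]
  · rw [← mul_assoc, hv, one_mul]

theorem RB.sat (h1 : h.RB f f₀) (hf : f ∈ d.reg) : ∃ F, h.up F = f ∧ h.dn F = f₀ := by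
  by_cases h0 : f = 0
  · subst h0
    exact ⟨0, map_zero _, (map_zero _).trans (RB.zero.unique h1)⟩
  obtain ⟨a, F, ha, e1, e2⟩ := h.LiftB_prim hf h0
  have h2 : a⁻¹ ∈ HO κ := (h.rb_up F).mem_O e2 (by rwa [e1, inv_smul_smul₀ ha])
  have h3 : h.up (algebraMap _ _ (⟨_, h2⟩ : HO κ) * F) = f := by
    rw [map_mul, h.up_const, e1, ← Algebra.smul_def]
    exact inv_smul_smul₀ ha f
  exact ⟨_, h3, (h.rb_up _).unique (h3 ▸ h1)⟩

variable (h) in
/-- A section defines a place of the generic fibre. -/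
theorem exists_place (σ : 𝒜 →ₐ[HO κ] HO κ) : ∃ P : Place (HF κ) L, P ∉ Set.range d.pl ∧
    ∀ F, P.val (h.up F) = inc κ (σ F) := by
  have := c.LiftA_nonempty
  let _ : Algebra 𝒜 d.reg := (h.up.codRestrict d.reg.toSubring h.up_mem).toAlgebra
  let M : Submonoid 𝒜 := (nonZeroDivisors (HO κ)).map (algebraMap (HO κ) 𝒜)
  have hc : ∀ o : HO κ, algebraMap 𝒜 d.reg (algebraMap _ _ o) = algebraMap (HF κ) d.reg (inc κ o) :=
    fun o => Subtype.ext (h.up_const o)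
  have hne : ∀ o ∈ nonZeroDivisors (HO κ), inc κ o ≠ 0 := fun o ho e =>
    nonZeroDivisors.ne_zero ho (LiftB_inc_inj (e.trans (map_zero _).symm))
  have : IsLocalization M d.reg := by
    refine ⟨?_, ?_, ?_⟩
    · rintro ⟨_, o, ho, rfl⟩
      exact (hc o).symm ▸ (IsUnit.mk0 _ (hne o ho)).map _
    · rintro ⟨f, hf⟩
      by_cases h0 : f = 0
      · exact ⟨⟨0, 1⟩, Subtype.ext (by simp [h0])⟩
      obtain ⟨a, F, ha, e1, -⟩ := h.LiftB_prim hf h0
      obtain ⟨b, e, he, rfl⟩ := IsFractionRing.div_surjective (A := HO κ) a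
      have hb : b ∈ nonZeroDivisors (HO κ) :=
        mem_nonZeroDivisors_of_ne_zero fun e => ha (by simp [e])
      refine ⟨⟨algebraMap _ _ e * F, ⟨_, b, hb, rfl⟩⟩, Subtype.ext ?_⟩
      change f * h.up (algebraMap _ _ b) = h.up (algebraMap _ _ e * F)
      rw [map_mul, h.up_const, h.up_const, e1, ← Algebra.smul_def, smul_smul,
        mul_div_cancel₀ _ (hne e he), mul_comm, Algebra.smul_def]
    · intro x y e
      exact ⟨1, by rw [h.up_inj (congrArg Subtype.val e)]⟩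
  have hu : ∀ y : M, IsUnit (((inc κ).comp (σ : 𝒜 →+* HO κ)) y) := by
    rintro ⟨_, o, ho, rfl⟩
    refine IsUnit.mk0 _ ?_
    simpa using hne o ho
  let τ : d.reg →+* HF κ := IsLocalization.lift hu
  have hτ : ∀ F, τ (algebraMap 𝒜 d.reg F) = inc κ (σ F) := fun F => IsLocalization.lift_eq hu F
  have hτ' : ∀ a : HF κ, τ (algebraMap (HF κ) d.reg a) = a := fun a => by
    obtain ⟨b, e, he, rfl⟩ := IsFractionRing.div_surjective (A := HO κ) a
    rw [eq_div_iff (hne e he)]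
    have h1 := hτ (algebraMap _ _ e)
    have h2 := hτ (algebraMap _ _ b)
    rw [hc, AlgHom.commutes] at h1 h2
    change _ = inc κ e at h1
    change _ = inc κ b at h2
    conv_lhs => enter [2]; rw [← h1]
    rw [← map_mul, ← map_mul, div_mul_cancel₀ _ (hne e he), h2]
  obtain ⟨P, ⟨hP, hP'⟩, -⟩ := exists_place_of_hom (Set.finite_range d.pl) (Set.range_nonempty _)
    ({ τ with commutes' := hτ' } : d.reg →ₐ[HF κ] HF κ)
  exact ⟨P, hP, fun F => (hP' (algebraMap 𝒜 d.reg F)).symm.trans (hτ F)⟩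

variable (h) in
/-- Sections through a smooth point of the special fibre. -/
theorem exists_section {γ : Option T} {z : Place κ (Y.cmp γ).L} (hz : z ∉ Set.range (c.dc γ).pl)
    (hN : z ∉ Y.Nd γ) : ∃ (U : 𝒜) (n : ℕ), 0 < n ∧ (∀ i, IsUnit ((U.1 i).cf (-n))) ∧
      Y.pr γ (h.dn U) ≠ 0 ∧ z.ord (Y.pr γ (h.dn U)) = 1 ∧ ∀ o : HO κ, red κ o = 0 →
      ∃ σ : 𝒜 →ₐ[HO κ] HO κ, (∀ F, red κ (σ F) = z.val (Y.pr γ (h.dn F))) ∧ σ U = o ∧
        ∃ s : 𝒜, red κ (σ s) ≠ 0 ∧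
          ∀ F : 𝒜, σ F = 0 → ∃ G : 𝒜, s * F = (U - algebraMap _ _ o) * G := by
  have := c.LiftA_nonempty
  have hu : z.unif ∈ z.1 := (Place.mem_iff z).2 (Or.inr (by rw [z.ord_unif]; norm_num))
  obtain ⟨n, hn, u, hu0, hu1, -, hu3⟩ := c.LiftA_exists_reg
    (fun γ' => {P | (⟨γ', P⟩ : Σ γ, Place κ (Y.cmp γ).L) = ⟨γ, z⟩})
    (fun γ' => (Set.finite_singleton (⟨γ, z⟩ : Σ γ, Place κ (Y.cmp γ).L)).preimage
      sigma_mk_injective.injOn)
    (fun γ' P hP => by cases hP; exact hz) (fun γ' P hP => by cases hP; exact hN)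
    (fun _ P => P.unif) (fun _ P hP => by cases hP; exact hu) 0 (J.sup Prod.snd)
  obtain ⟨U, rfl, hU⟩ := h.dn_surj' hu0 (fun ν hν => (Finset.le_sup (f := Prod.snd) hν).trans_lt hn)
    hu3
  have h1 := Place.ord_add_of_lt z.unif_ne_zero (by rw [z.ord_unif]; exact hu1 γ z rfl)
  rw [add_sub_cancel, z.ord_unif] at h1
  refine ⟨U, n, by omega, fun i => (hU i).2, h1.1, h1.2, fun o ho => ?_⟩
  have hm : ∀ F, Y.pr γ (h.dn F) ∈ z.1 := fun F => c.LiftA_reg (h.dn_mem F) γ z hz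
  let σ₀ : 𝒜 →+* κ :=
    { toFun := fun F => z.val (Y.pr γ (h.dn F))
      map_one' := by simpa using Place.val_const (P := z) (1 : κ)
      map_mul' := fun F G => by rw [map_mul, map_mul, Place.val_mul (hm F) (hm G)]
      map_zero' := by simpa using Place.val_const (P := z) (0 : κ)
      map_add' := fun F G => by
        rw [RingHom.map_add, map_add, Place.val_add (hm F) (hm G)] }
  have hunit : IsUnit (h.dn U) := Comb.LiftA_isUnit fun γ' e => by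
    obtain ⟨i⟩ : Nonempty (c.ιc γ') := inferInstance
    have h2 := hu3 (c.ix γ' i) (-n) (by omega)
    rw [c.LiftA_exT, e, map_zero, LS.cf_sub, LS.cf_T] at h2
    simp at h2
  obtain ⟨v, hv⟩ := hunit.exists_right_inv
  obtain ⟨σ, e1, e2, s, e3, e4⟩ := sec h.ch σ₀ (fun o => by
      change z.val (Y.pr γ (h.dn _)) = _
      rw [h.dn_const, AlgHom.commutes, Place.val_const]) U (n := n) (by omega) hU
    ((Place.val_eq_zero (hm U)).2 (Or.inr h1.2.ge)) (fun F hF => by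
      have h2 : z.Ge (Y.pr γ (h.dn U) * Y.pr γ (v * h.dn F)) 1 := by
        rw [← map_mul, ← mul_assoc, hv, one_mul]
        exact (Place.val_eq_zero (hm F)).1 hF
      have h3 := LiftA_ge_of_mul h1.1 h2
      rw [h1.2, sub_self] at h3
      obtain ⟨s, hs, h4, h5⟩ := c.LiftA_den hz hN ((Place.mem_iff z).2 h3)
      obtain ⟨s, rfl⟩ := h.dn_surj hs
      obtain ⟨G, hG⟩ := h.dn_surj h5
      refine ⟨s, G, h4, ?_⟩
      rw [← h.exT_dn, RingHom.map_sub, map_mul, map_mul, hG]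
      rw [show h.dn s * h.dn F - h.dn U * (h.dn s * (v * h.dn F)) = 0 by
        linear_combination (-(h.dn s * h.dn F)) * hv, map_zero]) o ho
  exact ⟨σ, e1, e2, s, by rwa [e1], e4⟩

end IsMod

end PR0
end

-- merged part: Pool.Agent.Work.MP_da2620_ag.LiftC
section
/-!
# Lifting a chart whose poles are finite points of the old chart (auxiliary file for `Lift`)
-/

namespace PR0

universe u

theorem LiftC_ge_of_mul {K : Type u} [CommRing K] {w f : LS K} {a b : ℤ} (hw : w.Ge a)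
    (hu : IsUnit (w.cf a)) (h : (w * f).Ge (a + b)) : f.Ge b := by
  obtain ⟨g, hg, e⟩ := LS.exists_inv hw hu
  have := hg.mul h
  rwa [← mul_assoc, mul_comm g, e, one_mul, neg_add_cancel_left] at this

theorem LiftC_pow {K : Type u} [CommRing K] {w : LS K} {a : ℤ} (hw : w.Ge a) (n : ℕ) :
    (w ^ n).cf (n * a) = w.cf a ^ n := by
  induction n with
  | zero =>
    rw [pow_zero, pow_zero, ← LS.T_zero, LS.cf_T]
    simp
  | succ n ih => rw [pow_succ, Nat.cast_succ, add_mul, one_mul, LS.cf_mul_lead (hw.pow n) hw, ih,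
      pow_succ]

theorem LiftC_ge_succ {K : Type u} [CommRing K] {w : LS K} {a : ℤ} (hw : w.Ge a)
    (h : w.cf a = 0) : w.Ge (a + 1) := fun m hm => by
  rcases (Int.lt_add_one_iff.1 hm).eq_or_lt with e | e
  · rw [e, h]
  · exact hw m e

variable {κ : Type u} [Field κ] [IsAlgClosed κ] {ι ι' T : Type} [Fintype ι] [DecidableEq ι]
  [Fintype ι'] [DecidableEq ι'] [Fintype T] {J : Finset (ι × ℕ)} {J' : Finset (ι' × ℕ)}
  {L : Type u} [Field L] [Algebra (HF κ) L] [Fact (IsFF (HF κ) L)] {Y : Comb T κ}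
  {𝒜 : Subalgebra (HO κ) (LT ι (HO κ))} {d : CD (HF κ) L ι} {c : Y.CC ι}

omit [Fintype T] [Fact (IsFF (HF κ) L)] in
theorem IsMod.ch_ge (h : IsMod J 𝒜 d c) : IsChart J d.alg := by
  rw [h.ge]
  exact h.ch.bc _

omit [Fintype T] [Fact (IsFF (HF κ) L)] in
theorem IsMod.ch_sp (h : IsMod J 𝒜 d c) : IsChart J c.alg := by
  rw [h.sp]
  exact h.ch.bc _

theorem IsMod.genus (h : IsMod J 𝒜 d c) : genus (HF κ) L = Y.genus := by
  have := c.LiftA_nonempty
  rw [← d.card_eq h.ch_ge, c.card_eq h.ch_sp]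

/-- Sections through the new poles. -/
structure LiftC_Dat (h : IsMod J 𝒜 d c) (c' : Y.CC ι') where
  σ : ι' → 𝒜 →ₐ[HO κ] HO κ
  P : ι' → Place (HF κ) L
  U : ι' → 𝒜
  s : ι' → 𝒜
  dis : ∀ γ k, (c'.dc γ).pl k ∉ Set.range (c.dc γ).pl
  nP : ∀ i, P i ∉ Set.range d.pl
  val : ∀ i F, (P i).val (h.up F) = inc κ (σ i F)
  rd : ∀ i F, red κ (σ i F) = (c'.exT (h.dn F) i).cf 0
  σU : ∀ i, σ i (U i) = 0
  U1 : ∀ i, (c'.exT (h.dn (U i)) i).cf 1 ≠ 0
  hs : ∀ i, red κ (σ i (s i)) ≠ 0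
  div : ∀ i F, σ i F = 0 → ∃ G, s i * F = U i * G

theorem LiftC_exists (h : IsMod J 𝒜 d c) (c' : Y.CC ι')
    (dis : ∀ γ k, (c'.dc γ).pl k ∉ Set.range (c.dc γ).pl) : Nonempty (LiftC_Dat h c') := by
  have key : ∀ i : ι', ∃ (σ : 𝒜 →ₐ[HO κ] HO κ) (U s : 𝒜),
      (∀ F, red κ (σ F) = (c'.exT (h.dn F) i).cf 0) ∧ σ U = 0 ∧
      (c'.exT (h.dn U) i).cf 1 ≠ 0 ∧ red κ (σ s) ≠ 0 ∧ ∀ F, σ F = 0 → ∃ G, s * F = U * G := by
    intro i
    obtain ⟨γ, k, rfl⟩ := c'.LiftA_surj i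
    obtain ⟨U, n, -, -, h1, h2, h3⟩ := h.exists_section (dis γ k)
      fun e => c'.LiftA_nd e ⟨k, rfl⟩
    obtain ⟨σ, e1, e2, s, e3, e4⟩ := h3 0 (map_zero _)
    refine ⟨σ, U, s, fun F => ?_, e2, fun e => ?_, e3, by simpa using e4⟩
    · rw [e1, c'.LiftA_exT, (c'.dc γ).val_eq k (c.LiftA_reg (h.dn_mem F) γ _ (dis γ k))]
    · rw [c'.LiftA_exT] at e
      have := ((c'.dc γ).ge_iff k _ _).2
        (LiftC_ge_succ (((c'.dc γ).ge_iff k _ 1).1 (Or.inr h2.ge)) e)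
      have := this.resolve_left h1
      omega
  choose σ U s h1 h2 h3 h4 h5 using key
  choose P hP hP' using fun i => h.exists_place (σ i)
  exact ⟨⟨σ, P, U, s, dis, hP, hP', h1, h2, h3, h4, h5⟩⟩

namespace LiftC_Dat

variable {h : IsMod J 𝒜 d c} {c' : Y.CC ι'} (t : LiftC_Dat h c')

include t in
theorem ge (i : ι') (F : 𝒜) : (c'.exT (h.dn F) i).Ge 0 := by
  obtain ⟨γ, k, rfl⟩ := c'.LiftA_surj i
  rw [c'.LiftA_exT, ← (c'.dc γ).mem_pl]
  exact c.LiftA_reg (h.dn_mem F) γ _ (t.dis γ k)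

theorem mem (i : ι') (F : 𝒜) : h.up F ∈ (t.P i).1 := h.up_mem F _ (t.nP i)

theorem ge1 {i : ι'} {F : 𝒜} (hF : t.σ i F = 0) : (t.P i).Ge (h.up F) 1 :=
  (Place.val_eq_zero (t.mem i F)).1 (by rw [t.val, hF, map_zero])

theorem ord0 {i : ι'} {F : 𝒜} (hF : red κ (t.σ i F) ≠ 0) :
    h.up F ≠ 0 ∧ (t.P i).ord (h.up F) = 0 :=
  LiftA_ord_zero (t.mem i F) fun e => hF (by
    rw [t.val] at e
    rw [LiftB_inc_inj (e.trans (map_zero _).symm), map_zero])

theorem geU (i : ι') : (c'.exT (h.dn (t.U i)) i).Ge 1 :=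
  LiftC_ge_succ (t.ge i _) (by rw [← t.rd, t.σU, map_zero])

theorem ordU (i : ι') : h.up (t.U i) ≠ 0 ∧ (t.P i).ord (h.up (t.U i)) = 1 := by
  have := c.LiftA_nonempty
  have h0 : h.up (t.U i) ≠ 0 := fun e => t.U1 i (by
    rw [h.up_inj (e.trans (map_zero _).symm)]
    simp)
  refine ⟨h0, le_antisymm ?_ ((t.ge1 (t.σU i)).resolve_left h0)⟩
  have hu : (t.P i).unif ∈ (t.P i).1 :=
    (Place.mem_iff _).2 (Or.inr (by rw [Place.ord_unif]; norm_num))
  obtain ⟨r, hr, hr1, hr2⟩ := exists_den_place (Set.finite_range _) (Set.range_nonempty _) (t.nP i) hu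
  obtain ⟨r0, r1⟩ := LiftA_ord_zero (hr _ (t.nP i)) hr1
  have h1 := mul_ne_zero r0 (t.P i).unif_ne_zero
  obtain ⟨a, F, ha, e1, -⟩ := h.LiftB_prim hr2 h1
  have ha' : algebraMap (HF κ) L a ≠ 0 := (map_ne_zero _).2 ha
  have h2 : h.up F ≠ 0 := by rw [e1]; exact smul_ne_zero ha h1
  have h3 : (t.P i).ord (h.up F) = 1 := by
    rw [e1, Algebra.smul_def, Place.ord_mul _ ha' h1, Place.ord_const _ ha,
      Place.ord_mul _ r0 (t.P i).unif_ne_zero, r1, Place.ord_unif]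
    norm_num
  have h4 : t.σ i F = 0 := LiftB_inc_inj (by
    rw [← t.val, map_zero]
    exact (Place.val_eq_zero (t.mem i F)).2 (Or.inr h3.ge))
  obtain ⟨G, e⟩ := t.div i F h4
  obtain ⟨s0, s1⟩ := t.ord0 (t.hs i)
  have e2 := congrArg h.up e
  rw [map_mul, map_mul] at e2
  have h5 : h.up G ≠ 0 := fun e => mul_ne_zero s0 h2 (by rw [e2, e, mul_zero])
  have h6 := congrArg (t.P i).ord e2
  rw [Place.ord_mul _ s0 h2, Place.ord_mul _ h0 h5, s1, h3] at h6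
  have h7 := ((Place.mem_iff _).1 (t.mem i G)).resolve_left h5
  omega

/-- Functions vanishing along prescribed sections. -/
theorem exists_m (Z : ∀ γ, Set (Place κ (Y.cmp γ).L)) (hf : ∀ γ, (Z γ).Finite)
    (hS : ∀ γ, ∀ Q ∈ Z γ, Q ∉ Set.range (c.dc γ).pl) (hN : ∀ γ, ∀ Q ∈ Z γ, Q ∉ Y.Nd γ) :
    ∃ (m : 𝒜) (n : ℤ), (∀ γ k, (c'.dc γ).pl k ∉ Z γ → t.σ (c'.ix γ k) m = 0) ∧
      (∀ γ, ∀ Q ∈ Z γ ∪ Y.Nd γ, Q.val (Y.pr γ (h.dn m)) = 1) ∧
      ∀ i, (c.exT (h.dn m) i).cf n ≠ 0 ∧ (m.1 i).Ge n := by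
  classical
  obtain ⟨n, hn, w, hw, hw1, hw2, hw3⟩ := c.LiftA_exists_reg
    (fun γ => Z γ ∪ Set.range (c'.dc γ).pl) (fun γ => (hf γ).union (Set.finite_range _))
    (fun γ Q hQ => hQ.elim (hS γ Q) fun ⟨k, e⟩ => e ▸ t.dis γ k)
    (fun γ Q hQ => hQ.elim (hN γ Q) fun e e' => c'.LiftA_nd e' e)
    (fun γ Q => if Q ∈ Z γ then 1 else 0)
    (fun γ Q _ => by split_ifs; exacts [one_mem _, zero_mem _]) 1 (J.sup Prod.snd)
  obtain ⟨W, rfl, hW⟩ := h.dn_surj' hw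
    (fun ν hν => (Finset.le_sup (f := Prod.snd) hν).trans_lt hn) hw3
  let I : Finset ι' := Finset.univ.filter fun i => red κ (t.σ i W) = 0
  have hdn : h.dn (∏ i ∈ I, (W - algebraMap _ _ (t.σ i W))) = h.dn W ^ I.card := by
    rw [map_prod, ← Finset.prod_const]
    refine Finset.prod_congr rfl fun i hi => ?_
    rw [RingHom.map_sub, h.dn_const, (Finset.mem_filter.1 hi).2, map_zero, sub_zero]
  refine ⟨∏ i ∈ I, (W - algebraMap _ _ (t.σ i W)), I.card * -(n : ℤ), fun γ k hk => ?_,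
    fun γ Q hQ => ?_, fun i => ⟨?_, ?_⟩⟩
  · rw [map_prod]
    refine Finset.prod_eq_zero (i := c'.ix γ k) (Finset.mem_filter.2 ⟨Finset.mem_univ _, ?_⟩)
      (by simp)
    have := hw1 γ _ (Or.inr ⟨k, rfl⟩)
    rw [if_neg hk, sub_zero, (c'.dc γ).ge_iff] at this
    rw [t.rd, c'.LiftA_exT]
    exact this 0 (by norm_num)
  · have h1 : Q ∉ Set.range (c.dc γ).pl := hQ.elim (hS γ Q) c.LiftA_nd
    rw [hdn, map_pow, LiftA_val_pow (c.LiftA_reg hw γ Q h1)]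
    rcases hQ with hQ | hQ
    · have := hw1 γ Q (Or.inl hQ)
      rw [if_pos hQ, ← (algebraMap κ (Y.cmp γ).L).map_one] at this
      rw [Place.val_eq (this.mono (by norm_num)), one_pow]
    · rw [hw2 γ Q hQ, one_pow]
  · have h1 : (c.exT (h.dn W) i).Ge (-n) := fun m hm => by
      rw [h.exT_dn]
      exact (congrArg (red κ) ((hW i).1 m hm)).trans (map_zero _)
    rw [hdn, map_pow, Pi.pow_apply, LiftC_pow h1, h.exT_dn]
    exact pow_ne_zero _ ((hW i).2.map (red κ)).ne_zero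
  · have h1 : ∀ I : Finset ι', ((∏ i ∈ I, (W - algebraMap _ _ (t.σ i W))).1 i).Ge
        (I.card * -(n : ℤ)) := by
      intro I
      induction I using Finset.induction_on with
      | empty =>
        rw [Finset.prod_empty, Finset.card_empty, Nat.cast_zero, zero_mul]
        exact LS.ge_T 0
      | insert a I ha ih =>
        have e : (W - algebraMap _ _ (t.σ a W) : 𝒜).1 i =
            W.1 i + -algebraMap (HO κ) (LS (HO κ)) (t.σ a W) := by
          rw [Subalgebra.coe_sub, Subalgebra.coe_algebraMap, Pi.sub_apply, Pi.algebraMap_apply,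
            sub_eq_add_neg]
        rw [Finset.prod_insert ha, Finset.card_insert_of_notMem ha, Nat.cast_succ, add_mul, one_mul,
          add_comm, Subalgebra.coe_mul, Pi.mul_apply, e]
        exact ((hW i).1.add ((LS.ge_algebraMap _).mono (by omega)).neg).mul ih
    exact h1 I

theorem exists_m' (i : ι') : ∃ m : 𝒜, red κ (t.σ i m) ≠ 0 ∧ ∀ j, j ≠ i → t.σ j m = 0 := by
  obtain ⟨γ, k, rfl⟩ := c'.LiftA_surj i
  obtain ⟨m, n, h1, h2, -⟩ := t.exists_m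
    (fun γ' => {P | (⟨γ', P⟩ : Σ γ, Place κ (Y.cmp γ).L) = ⟨γ, (c'.dc γ).pl k⟩})
    (fun γ' => (Set.finite_singleton (⟨γ, (c'.dc γ).pl k⟩ : Σ γ, Place κ (Y.cmp γ).L)).preimage
      sigma_mk_injective.injOn)
    (fun γ' P hP => by cases hP; exact t.dis γ k)
    (fun γ' P hP => by cases hP; exact fun e => c'.LiftA_nd e ⟨k, rfl⟩)
  refine ⟨m, ?_, fun j hj => ?_⟩
  · rw [t.rd, c'.LiftA_exT, ← (c'.dc γ).val_eq k (c.LiftA_reg (h.dn_mem m) γ _ (t.dis γ k)),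
      h2 γ _ (Or.inl rfl)]
    exact one_ne_zero
  · obtain ⟨γ', k', rfl⟩ := c'.LiftA_surj j
    refine h1 γ' k' fun e => hj ?_
    obtain ⟨rfl, e'⟩ := Sigma.mk.inj_iff.1 e
    rw [(c'.dc γ').inj (eq_of_heq e')]

theorem inj : Function.Injective t.P := fun i j e => by
  by_contra hij
  obtain ⟨m, h1, h2⟩ := t.exists_m' i
  have h3 := t.val i m
  rw [e, t.val, h2 j (Ne.symm hij)] at h3
  exact h1 (by rw [← LiftB_inc_inj h3, map_zero])

/-- The divisor of the sections. -/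
noncomputable def D : Dv (HF κ) L := ∑ i, Finsupp.single (t.P i) 1

theorem mem_L {f : L} {n : ℤ} : f ∈ Lsp (n • t.D) ↔
    (∀ i, (t.P i).Ge f (-n)) ∧ ∀ Q, Q ∉ Set.range t.P → f ∈ Q.1 := by
  constructor
  · intro hf
    refine ⟨fun i => ?_, fun Q hQ => (Place.mem_iff Q).2 ?_⟩
    · simpa [D, -Finsupp.coe_finsetSum, LiftA_sum_apply t.inj] using hf (t.P i)
    · simpa [D, -Finsupp.coe_finsetSum, LiftA_sum_apply' hQ] using hf Q
  · rintro ⟨h1, h2⟩ Q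
    by_cases hQ : Q ∈ Set.range t.P
    · obtain ⟨i, rfl⟩ := hQ
      simpa [D, -Finsupp.coe_finsetSum, LiftA_sum_apply t.inj] using h1 i
    · simpa [D, -Finsupp.coe_finsetSum, LiftA_sum_apply' hQ] using (Place.mem_iff Q).1 (h2 Q hQ)

variable {f : L} {f₀ : Y.Fn} {n : ℕ}

theorem clear (hf : f ∈ Lsp ((n : ℤ) • t.D)) (hr : h.RB f f₀) {m : 𝒜} (hm : ∀ i, t.σ i m = 0) :
    ∃ a, h.up a = h.up m ^ n * f ∧ h.dn a = h.dn m ^ n * f₀ := by
  rw [← map_pow, ← map_pow]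
  refine ((h.rb_up _).mul hr).sat fun Q hQ => ?_
  by_cases e : Q ∈ Set.range t.P
  · obtain ⟨i, rfl⟩ := e
    have := ((t.ge1 (hm i)).pow n).mul ((t.mem_L.1 hf).1 i)
    rw [map_pow]
    exact (Place.mem_iff _).2 (by simpa using this)
  · exact mul_mem (h.up_mem _ Q hQ) ((t.mem_L.1 hf).2 Q e)

theorem clear' (hf : f ∈ Lsp ((n : ℤ) • t.D)) (hr : h.RB f f₀) (i : ι') :
    ∃ a s, red κ (t.σ i s) ≠ 0 ∧ h.up s * (h.up (t.U i) ^ n * f) = h.up a ∧
      h.dn s * (h.dn (t.U i) ^ n * f₀) = h.dn a := by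
  obtain ⟨m, h1, h2⟩ := t.exists_m' i
  obtain ⟨a, e1, e2⟩ := t.clear hf hr (m := m * t.U i) fun j => by
    rw [map_mul]
    by_cases e : j = i
    · rw [e, t.σU, mul_zero]
    · rw [h2 j e, zero_mul]
  refine ⟨a, m ^ n, by rw [map_pow, map_pow]; exact pow_ne_zero _ h1, ?_, ?_⟩
  · rw [e1, map_mul, map_pow, mul_pow, mul_assoc]
  · rw [e2, map_mul, map_pow, mul_pow, mul_assoc]

theorem red_pole (hf : f ∈ Lsp ((n : ℤ) • t.D)) (hr : h.RB f f₀) : Pole (c'.exT f₀) n := by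
  intro i
  obtain ⟨a, s, h1, -, h2⟩ := t.clear' hf hr i
  have h3 := t.ge i a
  rw [← h2, map_mul, map_mul, map_pow, Pi.mul_apply, Pi.mul_apply, Pi.pow_apply] at h3
  have h4 := LiftC_ge_of_mul (b := 0) (t.ge i s) (IsUnit.mk0 _ (t.rd i s ▸ h1)) (by simpa using h3)
  refine LiftC_ge_of_mul ((t.geU i).pow n) (IsUnit.mk0 _ ?_) (by simpa using h4)
  rw [LiftC_pow (t.geU i)]
  exact pow_ne_zero _ (t.U1 i)

theorem red_mem (hf : f ∈ Lsp ((n : ℤ) • t.D)) (hr : h.RB f f₀) : f₀ ∈ c'.reg := by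
  have key : ∀ Z : ∀ γ, Set (Place κ (Y.cmp γ).L), (∀ γ, (Z γ).Finite) →
      (∀ γ, ∀ Q ∈ Z γ, Q ∉ Set.range (c.dc γ).pl) → (∀ γ, ∀ Q ∈ Z γ, Q ∉ Y.Nd γ) →
      (∀ γ, ∀ Q ∈ Z γ, Q ∉ Set.range (c'.dc γ).pl) → ∃ g ∈ c.reg,
      (∀ γ, ∀ Q ∈ Z γ ∪ Y.Nd γ, Y.pr γ f₀ ∈ Q.1 ∧ Q.val (Y.pr γ f₀) = Q.val (Y.pr γ g)) ∧
      ∀ i, (c.exT f₀ i).Ge 0 := by
    intro Z h1 h2 h3 h4
    obtain ⟨m, N, m1, m2, m3⟩ := t.exists_m Z h1 h2 h3
    obtain ⟨a, e1, e2⟩ := t.clear hf hr (m := m) fun i => by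
      obtain ⟨γ, k, rfl⟩ := c'.LiftA_surj i
      exact m1 γ k fun e => h4 γ _ e ⟨k, rfl⟩
    refine ⟨h.dn a, h.dn_mem a, fun γ Q hQ => ?_, fun i => ?_⟩
    · have h5 : Q ∉ Set.range (c.dc γ).pl := hQ.elim (h2 γ Q) c.LiftA_nd
      have h6 := c.LiftA_reg (h.dn_mem m) γ Q h5
      have h7 : Q.val (Y.pr γ (h.dn m) ^ n) = 1 := by rw [LiftA_val_pow h6, m2 γ Q hQ, one_pow]
      have h8 := c.LiftA_reg (h.dn_mem a) γ Q h5
      rw [e2, map_mul, map_pow] at h8 ⊢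
      have h9 := LiftA_mem_of_mul (pow_mem h6 n) (h7.trans_ne one_ne_zero) h8
      exact ⟨h9, by rw [Place.val_mul (pow_mem h6 n) h9, h7, one_mul]⟩
    · have h5 : (d.ex i f).Ge 0 :=
        (d.mem_pl i f).1 ((t.mem_L.1 hf).2 _ fun ⟨j, e⟩ => t.nP j ⟨i, e.symm⟩)
      have h6 : (d.exT (h.up m) i).Ge N := fun k hk => by
        rw [h.exT_up]
        exact (congrArg (inc κ) ((m3 i).2 k hk)).trans (map_zero _)
      have h7 : (d.exT (h.up a) i).Ge (n * N + 0) := by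
        rw [e1, map_mul, map_pow]
        exact (h6.pow n).mul h5
      have h8 : (c.exT (h.dn a) i).Ge (n * N + 0) := fun k hk => by
        have := h7 k hk
        rw [h.exT_up] at this
        rw [h.exT_dn]
        exact (congrArg (red κ) (LiftB_inc_inj (this.trans (map_zero _).symm))).trans (map_zero _)
      have h9 : (c.exT (h.dn m) i).Ge N := fun k hk => by
        rw [h.exT_dn]
        exact (congrArg (red κ) ((m3 i).2 k hk)).trans (map_zero _)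
      rw [e2, map_mul, map_pow] at h8
      refine LiftC_ge_of_mul (h9.pow n) (IsUnit.mk0 _ ?_) h8
      rw [LiftC_pow h9]
      exact pow_ne_zero _ (m3 i).1
  obtain ⟨g, hg, h1, h2⟩ := key (fun _ => ∅) (fun _ => Set.finite_empty) (fun _ _ e => e.elim)
    (fun _ _ e => e.elim) fun _ _ e => e.elim
  refine c.LiftA_reg_of_val c' (c'.LiftA_mem_nrm.2 fun γ Q hQ => ?_) hg
    fun γ Q hQ => (h1 γ Q (Or.inr hQ)).2
  by_cases e : Q ∈ Set.range (c.dc γ).pl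
  · obtain ⟨k, rfl⟩ := e
    rw [(c.dc γ).mem_pl, ← c.LiftA_exT]
    exact h2 _
  by_cases e' : Q ∈ Y.Nd γ
  · exact (h1 γ Q (Or.inr e')).1
  obtain ⟨g, -, h3, -⟩ := key (fun γ' => {P | (⟨γ', P⟩ : Σ γ, Place κ (Y.cmp γ).L) = ⟨γ, Q⟩})
    (fun γ' => (Set.finite_singleton (⟨γ, Q⟩ : Σ γ, Place κ (Y.cmp γ).L)).preimage
      sigma_mk_injective.injOn) (fun γ' P hP => by cases hP; exact e)
    (fun γ' P hP => by cases hP; exact e') fun γ' P hP => by cases hP; exact hQ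
  exact (h3 γ Q (Or.inl rfl)).1

/-- The reduction is onto, by a dimension count. -/
theorem onto (hJ : IsChart J' c'.alg) (hn : ∀ ν ∈ J', ν.2 < n) (hf : f₀ ∈ c'.reg)
    (hp : Pole (c'.exT f₀) n) : ∃ f ∈ Lsp ((n : ℤ) • t.D), h.RB f f₀ := by
  have := c'.LiftA_nonempty
  let V := Lsp ((n : ℤ) • t.D)
  let Λ : AddSubgroup V :=
    { carrier := {v | ∃ g, h.RB v g}
      add_mem' := fun ⟨_, ha⟩ ⟨_, hb⟩ => ⟨_, ha.add hb⟩
      zero_mem' := ⟨_, IsMod.RB.zero⟩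
      neg_mem' := fun ⟨_, ha⟩ => ⟨_, by simpa using ha.smul (-1)⟩ }
  obtain ⟨b, hb⟩ := lat Λ (fun e he v ⟨_, hv⟩ => ⟨_, hv.smul ⟨e, he⟩⟩) fun v hv => by
    obtain ⟨a, g, ha, hg, hr⟩ := h.rb_prim (f := v) fun e => hv (Subtype.ext e)
    exact ⟨a, ha, ⟨g, hr⟩, fun e ⟨_, he⟩ => hr.mem_O hg he⟩
  have hb1 : ∀ k, ∃ g, h.RB (b k) g := fun k => (hb (b k)).2 fun i => by
    rw [b.repr_self, Finsupp.single_apply]
    split_ifs
    exacts [one_mem _, zero_mem _]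
  choose g hg using hb1
  have hsum : ∀ a : _ → κ, h.RB ((∑ k, (algebraMap κ (HO κ) (a k) : HF κ) • b k : V) : L)
      (∑ k, a k • g k) := fun a => by
    rw [Submodule.coe_sum]
    refine IsMod.RB.sum _ fun k _ => ?_
    simpa [LiftB_red_const] using (hg k).smul (algebraMap κ (HO κ) (a k))
  let G : _ → lev c'.alg n := fun k =>
    ⟨c'.exT (g k), ⟨g k, t.red_mem (b k).2 (hg k), rfl⟩, t.red_pole (b k).2 (hg k)⟩
  have hG : ∀ a : _ → κ, ((∑ k, a k • G k : lev c'.alg n) : LT ι' κ) = c'.exT (∑ k, a k • g k) :=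
    fun a => by simp [G]
  have li : LinearIndependent κ G := by
    refine Fintype.linearIndependent_iff.2 fun a ha k => ?_
    by_contra hk
    have h1 : ∑ k, a k • g k = 0 := c'.exT_injective (by rw [← hG, ha, map_zero]; rfl)
    have h2 := hsum a
    rw [h1] at h2
    have h3 : b.repr (∑ k, (algebraMap κ (HO κ) (a k) : HF κ) • b k) k =
        algebraMap κ (HO κ) (a k) := by
      rw [← b.coord_apply, ← b.equivFun_symm_apply, b.coord_equivFun_symm]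
    obtain ⟨y, hy⟩ := (LiftB_unit ((LiftB_red_const (a k)).trans_ne hk)).exists_right_inv
    have hy' : (algebraMap κ (HO κ) (a k) : HF κ) * y = 1 := congrArg Subtype.val hy
    obtain ⟨e, g', he, hg', hr⟩ := h.rb_prim
      (f := ((∑ k, (algebraMap κ (HO κ) (a k) : HF κ) • b k : V) : L)) fun e => by
        rw [(Submodule.coe_eq_zero).1 e, map_zero, Finsupp.zero_apply] at h3
        rw [← h3, zero_mul] at hy'
        exact zero_ne_one hy'
    have h4 := (hb (e • ∑ k, (algebraMap κ (HO κ) (a k) : HF κ) • b k)).1 ⟨g', hr⟩ k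
    rw [map_smul, Finsupp.smul_apply, h3, smul_eq_mul] at h4
    have h5 := mul_mem h4 y.2
    rw [mul_assoc, hy', mul_one] at h5
    exact hg' (hr.unique (by simpa using h2.smul ⟨e, h5⟩))
  have := hJ.finite_lev n
  have h1 := hJ.finrank_lev hn
  have h2 := riemann ((n : ℤ) • t.D)
  rw [dg_smul, D, LiftA_dg_sum, h.genus, ← c'.card_eq hJ] at h2
  have h3 : Module.finrank κ (lev c'.alg n) ≤ Module.finrank (HF κ) V := by
    have : (Module.finrank κ (lev c'.alg n) : ℤ) + J'.card = n * Fintype.card ι' + 1 := by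
      exact_mod_cast h1
    change _ ≤ ell ((n : ℤ) • ∑ i, Finsupp.single (t.P i) 1)
    omega
  have h4 := li.span_eq_top_of_card_eq_finrank'
    (le_antisymm li.fintype_card_le_finrank (by simpa using h3))
  obtain ⟨a, ha⟩ := (Submodule.mem_span_range_iff_exists_fun κ).1
    (h4 ▸ Submodule.mem_top : (⟨c'.exT f₀, ⟨f₀, hf, rfl⟩, hp⟩ : lev c'.alg n) ∈ _)
  have h5 : ∑ k, a k • g k = f₀ := c'.exT_injective (by rw [← hG, ha])
  exact ⟨_, (∑ k, (algebraMap κ (HO κ) (a k) : HF κ) • b k : V).2, h5 ▸ hsum a⟩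

end LiftC_Dat

end PR0
end

-- merged part: Pool.Agent.Work.MP_da2620_ag.LiftD
section
/-!
# Integrality of the new expansions (auxiliary file for `Lift`)
-/

namespace PR0

universe u

variable {κ : Type u} [Field κ]

/-- The local ring of a section, inside pairs of Laurent series. -/
def LiftD_Q {R : Type u} [CommRing R] (η : R →+* LS (HF κ)) (ε : R →+* LS κ) (ψ : LS (HF κ))
    (φ : LS κ) : Prop := ∃ a s, (ε s).cf 0 ≠ 0 ∧ η s * ψ = η a ∧ ε s * φ = ε a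

section
variable {R : Type u} [CommRing R] {η : R →+* LS (HF κ)} {ε : R →+* LS κ} {ψ ψ' : LS (HF κ)}
  {φ φ' : LS κ}

theorem LiftD_Q.mul (hε : ∀ a, (ε a).Ge 0) (h : LiftD_Q η ε ψ φ) (h' : LiftD_Q η ε ψ' φ') :
    LiftD_Q η ε (ψ * ψ') (φ * φ') := by
  obtain ⟨a, s, hs, e1, e2⟩ := h
  obtain ⟨a', s', hs', e1', e2'⟩ := h'
  refine ⟨a * a', s * s', ?_, ?_, ?_⟩
  · have := LS.cf_mul_lead (hε s) (hε s')
    rw [add_zero] at this
    rw [map_mul, this]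
    exact mul_ne_zero hs hs'
  · rw [map_mul, map_mul, ← e1, ← e1']
    ring
  · rw [map_mul, map_mul, ← e2, ← e2']
    ring

theorem LiftD_Q.pow (hε : ∀ a, (ε a).Ge 0) (h : LiftD_Q η ε ψ φ) (n : ℕ) :
    LiftD_Q η ε (ψ ^ n) (φ ^ n) := by
  induction n with
  | zero =>
    refine ⟨1, 1, ?_, by simp, by simp⟩
    rw [map_one, ← LS.T_zero, LS.cf_T]
    simp
  | succ n ih =>
    rw [pow_succ, pow_succ]
    exact ih.mul hε h

theorem LiftD_Q.ge (hε : ∀ a, (ε a).Ge 0) (h : LiftD_Q η ε ψ φ) : φ.Ge 0 := by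
  obtain ⟨a, s, hs, -, e2⟩ := h
  exact LiftC_ge_of_mul (hε s) (IsUnit.mk0 _ hs) (by rw [e2, add_zero]; exact hε a)

theorem LiftD_Q.inv (hε : ∀ a, (ε a).Ge 0) (h : LiftD_Q η ε ψ φ) (h0 : φ.cf 0 ≠ 0)
    (h1 : ψ * ψ' = 1) (h2 : φ * φ' = 1) : LiftD_Q η ε ψ' φ' := by
  have h3 := h.ge hε
  obtain ⟨a, s, hs, e1, e2⟩ := h
  refine ⟨s, a, ?_, ?_, ?_⟩
  · have := LS.cf_mul_lead (hε s) h3
    rw [add_zero] at this
    rw [← e2, this]
    exact mul_ne_zero hs h0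
  · rw [← e1, mul_assoc, h1, mul_one]
  · rw [← e2, mul_assoc, h2, mul_one]

theorem LiftD_exp [Algebra (HO κ) R] (σ : R →ₐ[HO κ] HO κ) (hη : ∀ a, (η a).Ge 0)
    (hε : ∀ a, (ε a).Ge 0) (vη : ∀ a, (η a).cf 0 = inc κ (σ a))
    (vε : ∀ a, (ε a).cf 0 = red κ (σ a))
    (cη : ∀ o, η (algebraMap _ _ o) = algebraMap _ _ (inc κ o))
    (cε : ∀ o, ε (algebraMap _ _ o) = algebraMap _ _ (red κ o)) {U s₁ : R}
    (hs₁ : red κ (σ s₁) ≠ 0) (hd : ∀ F, σ F = 0 → ∃ G, s₁ * F = U * G)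
    (hU : LiftD_Q η ε (η U * LS.T _ (-1)) (ε U * LS.T _ (-1))) (h : LiftD_Q η ε ψ φ) :
    ∃ F : LS (HO κ), F.Ge 0 ∧ LS.map (inc κ) F = ψ ∧ LS.map (red κ) F = φ := by
  have hu : ∀ s, (ε s).cf 0 ≠ 0 → IsUnit ((η s).cf 0) := fun s hs => by
    rw [vη]
    exact (LiftB_unit (vε s ▸ hs)).map _
  refine LiftB_exp (Q := LiftD_Q η ε) (fun ψ φ h => ⟨?_, h.ge hε⟩) (fun ψ φ h => ?_) h
  · obtain ⟨a, s, hs, e1, -⟩ := h
    exact LiftC_ge_of_mul (hη s) (hu s hs) (by rw [e1, add_zero]; exact hη a)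
  obtain ⟨a, s, hs, e1, e2⟩ := h
  obtain ⟨y, hy⟩ := (LiftB_unit (vε s ▸ hs)).exists_right_inv
  obtain ⟨G, hG⟩ := hd (a - algebraMap _ _ (σ a * y) * s) (by
    rw [map_sub, map_mul, AlgHom.commutes]
    change σ a - σ a * y * σ s = 0
    linear_combination (-σ a) * hy)
  obtain ⟨a', s', hs', e1', e2'⟩ := hU
  have t1 : ∀ (K : Type u) [Field K], LS.T K 1 * LS.T K (-1) = 1 := fun K _ => by
    rw [← LS.T_add, add_neg_cancel, LS.T_zero]
  refine ⟨σ a * y, (ψ - algebraMap _ _ (inc κ (σ a * y))) * LS.T _ (-1),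
    (φ - algebraMap _ _ (red κ (σ a * y))) * LS.T _ (-1), ⟨a' * G, s' * (s₁ * s), ?_, ?_, ?_⟩, ?_, ?_⟩
  · rw [vε] at hs hs' ⊢
    simp only [map_mul]
    exact mul_ne_zero hs' (mul_ne_zero hs₁ hs)
  · have := congrArg η hG
    rw [map_mul η, map_mul η, map_sub η, map_mul η, cη] at this
    rw [map_mul η, map_mul η, map_mul η, ← e1']
    linear_combination (η s' * LS.T _ (-1)) * this + (η s' * η s₁ * LS.T _ (-1)) * e1
  · have := congrArg ε hG
    rw [map_mul ε, map_mul ε, map_sub ε, map_mul ε, cε] at this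
    rw [map_mul ε, map_mul ε, map_mul ε, ← e2']
    linear_combination (ε s' * LS.T _ (-1)) * this + (ε s' * ε s₁ * LS.T _ (-1)) * e2
  · linear_combination (algebraMap _ _ (inc κ (σ a * y)) - ψ) * t1 (HF κ)
  · linear_combination (algebraMap _ _ (red κ (σ a * y)) - φ) * t1 κ

end

theorem LiftD_shift {ψ : LS (HF κ)} {φ : LS κ} {n : ℤ} (h : ∃ F : LS (HO κ), F.Ge 0 ∧
    LS.map (inc κ) F = LS.T _ n * ψ ∧ LS.map (red κ) F = LS.T _ n * φ) :
    ∃ F : LS (HO κ), F.Ge (-n) ∧ LS.map (inc κ) F = ψ ∧ LS.map (red κ) F = φ := by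
  obtain ⟨F, h1, h2, h3⟩ := h
  refine ⟨LS.T _ (-n) * F, by simpa using (LS.ge_T (-n)).mul h1, ?_, ?_⟩
  · rw [map_mul, LS.map_T, h2, ← mul_assoc, ← LS.T_add, neg_add_cancel, LS.T_zero, one_mul]
  · rw [map_mul, LS.map_T, h3, ← mul_assoc, ← LS.T_add, neg_add_cancel, LS.T_zero, one_mul]

variable [IsAlgClosed κ] {ι ι' T : Type} [Fintype ι] [DecidableEq ι]
  [Fintype ι'] [DecidableEq ι'] [Fintype T] {J : Finset (ι × ℕ)} {J' : Finset (ι' × ℕ)}
  {L : Type u} [Field L] [Algebra (HF κ) L] [Fact (IsFF (HF κ) L)] {Y : Comb T κ}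
  {𝒜 : Subalgebra (HO κ) (LT ι (HO κ))} {d : CD (HF κ) L ι} {c : Y.CC ι}

namespace LiftC_Dat

variable {h : IsMod J 𝒜 d c} {c' : Y.CC ι'} (t : LiftC_Dat h c')

theorem cf_U (i : ι') : (c'.exT (h.dn (t.U i)) i * LS.T κ (-1)).cf 0 ≠ 0 := by
  rw [mul_comm, LS.cf_T_mul]
  simpa using t.U1 i

theorem exists_cd' (hJ : IsChart J' c'.alg) (hJ1 : ∀ ν ∈ J', ν.2 < 1) :
    ∃ d' : CD (HF κ) L ι', d'.pl = t.P ∧ d'.x ∈ Lsp (((1 : ℕ) : ℤ) • t.D) ∧ h.RB d'.x c'.x := by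
  obtain ⟨x, hx, hr⟩ := t.onto (n := 1) hJ hJ1 c'.x_mem (by
    rw [c'.exT_x]
    exact fun i => LS.ge_T _)
  obtain ⟨d', e1, e2⟩ := exists_cd (x := x) t.inj (fun i => by
      obtain ⟨a, s, h1, h2, h3⟩ := t.clear' hx hr i
      have h4 : red κ (t.σ i a) ≠ 0 := by
        have h5 := LS.cf_mul_lead (t.ge i s) ((t.geU i).mul (LS.ge_T (-1)))
        rw [t.rd, ← h3, map_mul, map_mul, pow_one, c'.exT_x]
        refine (h5.trans_ne (mul_ne_zero (t.rd i s ▸ h1) (t.cf_U i)) :)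
      obtain ⟨a0, a1⟩ := t.ord0 h4
      obtain ⟨s0, s1⟩ := t.ord0 h1
      obtain ⟨u0, u1⟩ := t.ordU i
      rw [pow_one] at h2
      have x0 : x ≠ 0 := fun e => a0 (by rw [← h2, e, mul_zero, mul_zero])
      rw [← h2, Place.ord_mul _ s0 (mul_ne_zero u0 x0), Place.ord_mul _ u0 x0, s1, u1] at a1
      exact ⟨x0, by omega⟩)
    fun Q hQ => by
      by_contra e
      exact hQ ((t.mem_L.1 hx).2 Q fun ⟨i, e'⟩ => e ⟨i, e'.symm⟩)
  exact ⟨d', e2, e1 ▸ hx, e1 ▸ hr⟩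

theorem integral {d' : CD (HF κ) L ι'} (e : d'.pl = t.P) (hx : d'.x ∈ Lsp (((1 : ℕ) : ℤ) • t.D))
    (hxr : h.RB d'.x c'.x) {f : L} {f₀ : Y.Fn} {n : ℕ} (hf : f ∈ Lsp ((n : ℤ) • t.D))
    (hr : h.RB f f₀) (i : ι') : ∃ F : LS (HO κ), F.Ge (-n) ∧ LS.map (inc κ) F = d'.ex i f ∧
      LS.map (red κ) F = c'.exT f₀ i := by
  let η : 𝒜 →+* LS (HF κ) := (d'.ex i : L →+* _).comp h.up
  let ε : 𝒜 →+* LS κ := ((Pi.evalRingHom _ i).comp (c'.exT : Y.Fn →+* LT ι' κ)).comp h.dn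
  have hη : ∀ a, η a = d'.ex i (h.up a) := fun _ => rfl
  have hε : ∀ a, ε a = c'.exT (h.dn a) i := fun _ => rfl
  have hm : ∀ a, h.up a ∈ (d'.pl i).1 := fun a => e ▸ t.mem i a
  have key : ∀ {f : L} {f₀ : Y.Fn} {n : ℕ}, f ∈ Lsp ((n : ℤ) • t.D) → h.RB f f₀ →
      LiftD_Q η ε (η (t.U i) ^ n * d'.ex i f) (ε (t.U i) ^ n * c'.exT f₀ i) := by
    intro f f₀ n hf hr
    obtain ⟨a, s, h1, h2, h3⟩ := t.clear' hf hr i
    refine ⟨a, s, t.rd i s ▸ h1, ?_, ?_⟩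
    · simp only [hη, ← h2, map_mul, map_pow]
    · simp only [hε, ← h3, map_mul, map_pow, Pi.mul_apply, Pi.pow_apply]
  have hU := key hx hxr
  rw [pow_one, pow_one, d'.ex_x, c'.exT_x] at hU
  have u0 : η (t.U i) ≠ 0 := (map_ne_zero (d'.ex i)).2 (t.ordU i).1
  have u1 : ε (t.U i) ≠ 0 := fun e => t.U1 i (by rw [← hε, e]; rfl)
  have t1 : ∀ (K : Type u) [Field K], LS.T K (-1) * LS.T K 1 = 1 := fun K _ => by
    rw [← LS.T_add, neg_add_cancel, LS.T_zero]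
  have hV := hU.inv (ψ' := (η (t.U i))⁻¹ * LS.T _ 1) (φ' := (ε (t.U i))⁻¹ * LS.T _ 1) (t.ge i)
    (t.cf_U i) (by rw [mul_mul_mul_comm, mul_inv_cancel₀ u0, t1, mul_one])
    (by rw [mul_mul_mul_comm, mul_inv_cancel₀ u1]; exact (one_mul _).trans (t1 κ))
  have hW := (hV.pow (t.ge i) n).mul (t.ge i) (key hf hr)
  have t2 : ∀ {K : Type u} [Field K] {u : LS K} (ψ : LS K), u ≠ 0 →
      (u⁻¹ * LS.T K 1) ^ n * (u ^ n * ψ) = LS.T K n * ψ := fun ψ hu => by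
    rw [mul_pow, mul_mul_mul_comm, ← mul_pow, inv_mul_cancel₀ hu, one_pow, one_mul, LS.T_pow,
      mul_one]
  rw [t2 _ u0, t2 _ u1] at hW
  exact LiftD_shift (LiftD_exp (t.σ i) (fun a => (d'.mem_pl i _).1 (hm a)) (t.ge i)
    (fun a => by rw [hη, ← d'.val_eq i (hm a), e, t.val]) (fun a => (t.rd i a).symm)
    (fun o => by rw [hη, h.up_const, AlgHom.commutes])
    (fun o => by rw [hε, h.dn_const, AlgHom.commutes]; rfl) (t.hs i) (t.div i) hU hW)

end LiftC_Dat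

theorem IsMod.lift_step (h : IsMod J 𝒜 d c) (c' : Y.CC ι') (hJ : IsChart J' c'.alg)
    (hJ1 : ∀ ν ∈ J', ν.2 < 1) (dis : ∀ γ k, (c'.dc γ).pl k ∉ Set.range (c.dc γ).pl) :
    ∃ (𝒜' : Subalgebra (HO κ) (LT ι' (HO κ))) (d' : CD (HF κ) L ι'), IsMod J' 𝒜' d' c' := by
  have := c'.LiftA_nonempty
  obtain ⟨t⟩ := LiftC_exists h c' dis
  obtain ⟨d', e, hx, hxr⟩ := t.exists_cd' hJ hJ1
  obtain ⟨J'', hJ''⟩ := d'.exists_chart
  obtain ⟨h1, h2, h3⟩ := crit hJ'' hJ (by rw [d'.card_eq hJ'', c'.card_eq hJ, h.genus]) fun m =>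
    ⟨m + 1, Nat.le_succ m, by
      rintro _ ⟨⟨f₀, hf₀, rfl⟩, hp⟩
      obtain ⟨f, hf, hr⟩ := t.onto (n := m + 1) hJ (fun ν hν => by have := hJ1 ν hν; omega) hf₀ hp
      choose F h1 h2 h3 using t.integral e hx hxr hf hr
      have h4 : f ∈ d'.reg := (d'.mem_Lsp.1 (by rw [CD.inf, e]; exact hf)).1
      exact ⟨F, ⟨⟨f, h4, (funext h2).symm⟩, h1⟩, funext h3⟩⟩
  exact ⟨_, d', h1, h2.symm, h3.symm⟩

omit [Fintype T] in
/-- Changing the parameter by a translation of `x`. -/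
theorem LiftD_transl {d d' : CD (HF κ) L ι} (hp : d'.pl = d.pl) {a : HO κ} (ha : red κ a = 0)
    (hx : d'.x = d.x + algebraMap _ _ (inc κ a)) {f : L} {F : LT ι (HO κ)} {n : ℕ}
    (hF : mapT (inc κ) F = d.exT f) (hn : Pole F n) :
    ∃ F' : LT ι (HO κ), Pole F' n ∧ mapT (inc κ) F' = d'.exT f ∧ mapT (red κ) F' = mapT (red κ) F := by
  have key : ∀ i, ∃ F' : LS (HO κ), F'.Ge (-n) ∧ LS.map (inc κ) F' = d'.ex i f ∧
      LS.map (red κ) F' = LS.map (red κ) (F i) := by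
    intro i
    have t1 : ∀ (K : Type u) [Field K], LS.T K 1 * LS.T K (-1) = 1 := fun K _ => by
      rw [← LS.T_add, add_neg_cancel, LS.T_zero]
    let w : LS (HO κ) := LS.T _ (-1) + algebraMap _ _ a
    have w1 : w.Ge (-1) := (LS.ge_T _).add ((LS.ge_algebraMap _).mono (by norm_num))
    have w2 : LS.map (inc κ) w = d.ex i d'.x := by
      rw [hx, map_add, map_add, LS.map_T, LS.map_algebraMap, d.ex_x, AlgHom.commutes]
    have w3 : LS.map (red κ) w = LS.T _ (-1) := by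
      rw [map_add, LS.map_T, LS.map_algebraMap, ha, map_zero, add_zero]
    obtain ⟨v, v1, v2⟩ := LS.exists_inv w1 (by
      rw [LS.cf_add, LS.cf_T, LS.cf_algebraMap]
      simp)
    have x0 : d'.x ≠ 0 := fun e => by
      have := t1 (HF κ)
      rw [← d'.ex_x i, e, map_zero, mul_zero] at this
      exact zero_ne_one this
    have v3 : LS.map (inc κ) v = d.ex i d'.x⁻¹ := by
      rw [map_inv₀, ← w2]
      exact eq_inv_of_mul_eq_one_right (by rw [← map_mul, v2, map_one])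
    have v4 : LS.map (red κ) v = LS.T _ 1 := by
      have := congrArg (LS.map (red κ)) v2
      rw [map_mul, w3, map_one] at this
      linear_combination LS.T κ 1 * this - LS.map (red κ) v * t1 κ
    have v5 : d'.ex i d'.x⁻¹ = LS.T _ 1 := by
      rw [map_inv₀, d'.ex_x]
      exact (eq_inv_of_mul_eq_one_left (t1 _)).symm
    refine LiftD_shift (LiftB_exp (Q := fun ψ φ => ∃ (g : L) (G : LS (HO κ)), G.Ge 0 ∧
      d.ex i g = LS.map (inc κ) G ∧ ψ = d'.ex i g ∧ φ = LS.map (red κ) G) ?_ ?_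
      ⟨d'.x⁻¹ ^ n * f, v ^ n * F i, by simpa using (v1.pow n).mul (hn i), ?_, ?_, ?_⟩)
    · rintro _ _ ⟨g, G, h1, h2, rfl, rfl⟩
      refine ⟨(d'.mem_pl i g).1 (hp ▸ (d.mem_pl i g).2 fun m hm => ?_), fun m hm => ?_⟩
      · rw [h2, LS.cf_map, h1 m hm, map_zero]
      · rw [LS.cf_map, h1 m hm, map_zero]
    · rintro _ _ ⟨g, G, h1, h2, rfl, rfl⟩
      have h3 : (G - algebraMap _ _ (G.cf 0)).Ge 1 := LiftC_ge_succ
        (sub_eq_add_neg G _ ▸ h1.add (LS.ge_algebraMap _).neg) (by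
          rw [LS.cf_sub, LS.cf_algebraMap]
          simp)
      refine ⟨G.cf 0, _, _, ⟨(g - algebraMap _ _ (inc κ (G.cf 0))) * d'.x,
        (G - algebraMap _ _ (G.cf 0)) * w, by simpa using h3.mul w1, ?_, rfl, rfl⟩, ?_, ?_⟩
      · rw [map_mul, map_mul, map_sub, map_sub, w2, h2, LS.map_algebraMap, AlgHom.commutes]
      · rw [map_mul, map_sub, AlgHom.commutes, d'.ex_x]
        linear_combination (algebraMap _ _ (inc κ (G.cf 0)) - d'.ex i g) * t1 (HF κ)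
      · rw [map_mul, map_sub, LS.map_algebraMap, w3]
        linear_combination (algebraMap _ _ (red κ (G.cf 0)) - LS.map (red κ) G) * t1 κ
    · rw [map_mul, map_mul, map_pow, map_pow, v3]
      exact congrArg _ (congrFun hF i).symm
    · rw [map_mul, map_pow, v5, LS.T_pow, mul_one]
    · rw [map_mul, map_pow, v4, LS.T_pow, mul_one]
  choose F' h1 h2 h3 using key
  exact ⟨F', h1, funext h2, funext h3⟩

end PR0
end
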