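import Pool.Agent.Work.MP_da2620_ag.Two

/-! The `2`-rank zero locus in genus four is irreducible. -/

open MvPolynomial Matrix

namespace Pool.Agent.Work.MP_da2620_ag

universe u

theorem row_fixed {R : Type*} [CommRing R] {n : Type} [Fintype n] [DecidableEq n] (p : ℕ)
    [ExpChar R p] {A : Matrix n n R} {h : n → R} (e : h ᵥ* A = fun j => h j ^ p) (r : ℕ) :
    h ᵥ* tw p A r = fun j => h j ^ p ^ r := by
  induction r with
  | zero => simp [tw]
  | succ r ih =>
    rw [tw, ← Matrix.vecMul_vecMul, e]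
    ext j
    rw [pow_succ, pow_mul, ← congrFun ih j]
    exact (RingHom.map_vecMul (frobenius R p) _ h j).symm

theorem cone_eqs {D : Type*} [CommRing D] [IsDomain D] [CharP D 2] {c : Fin 20 → D}
    (h : tw 2 (hw2 (qn 0) c) 4 = 0) (hc : c 19 ≠ 0) : c 6 = 0 ∧ c 14 = 0 ∧
      c 19 * (c 12 + c 8) = c 15 ^ 2 ∧ c 19 ^ 2 * (c 10 + c 5) = c 15 ^ 3 := by
  have h1 := row_fixed 2 (A := hw2 (qn 0) c) (h := ![c 6, 0, c 14, 0]) (by
    ext j
    fin_cases j <;> simp [hw2, qn, Matrix.vecMul, dotProduct, Fin.sum_univ_four] <;> grind) 4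
  rw [h, Matrix.vecMul_zero] at h1
  have a6 : c 6 = 0 := by simpa using (congrFun h1 0).symm
  have a14 : c 14 = 0 := by simpa using (congrFun h1 2).symm
  have st : ∀ x y : D, ph 2 (hw2 (qn 0) c) ![0, x, 0, y] =
      ![0, (c 12 + c 8) * x ^ 2 + c 19 * y ^ 2, 0, (c 10 + c 5) * x ^ 2 + c 15 * y ^ 2] := by
    intro x y
    ext j
    fin_cases j <;> simp [ph, hw2, qn, Matrix.mulVec, dotProduct, Fin.sum_univ_four, a6, a14]
  have h2 := ph_iter_eq_zero 2 h ![0, 0, 0, 1]
  simp only [Function.iterate_succ_apply', Function.iterate_zero_apply] at h2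
  have hδ : (c 12 + c 8) * c 15 = c 19 * (c 10 + c 5) := by
    by_contra hne
    have key : ∀ x y : D, ph 2 (hw2 (qn 0) c) ![0, x, 0, y] = 0 → ![0, x, 0, y] = 0 := by
      intro x y e
      rw [st] at e
      have e1 : (c 12 + c 8) * x ^ 2 + c 19 * y ^ 2 = 0 := congrFun e 1
      have e2 : (c 10 + c 5) * x ^ 2 + c 15 * y ^ 2 = 0 := congrFun e 3
      have b1 : x ^ 2 = 0 := (mul_eq_zero.1 (by linear_combination c 15 * e1 - c 19 * e2 :
        ((c 12 + c 8) * c 15 - c 19 * (c 10 + c 5)) * x ^ 2 = 0)).resolve_left (sub_ne_zero.2 hne)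
      have b2 : y ^ 2 = 0 := (mul_eq_zero.1 (by linear_combination e1 - (c 12 + c 8) * b1 :
        c 19 * y ^ 2 = 0)).resolve_left hc
      rw [eq_zero_of_pow_eq_zero b1, eq_zero_of_pow_eq_zero b2]
      simp
    rw [st, st, st] at h2
    have h3 := key _ _ h2
    rw [← st] at h3
    have h4 := key _ _ h3
    rw [← st] at h4
    have h5 := key _ _ h4
    exact hc (by simpa using congrFun h5 1)
  have h3 : c 19 * (c 12 + c 8) + c 15 ^ 2 = 0 :=
    eigen_zero 2 h (v := ![0, c 19, 0, c 15]) (i := 1) (by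
      rw [st]
      ext j
      fin_cases j <;> simp <;> grind) hc
  refine ⟨a6, a14, by grind, by grind⟩

variable {k : Type u} [Field k]

theorem alg_of_mul {A D : Type*} [CommRing A] [CommRing D] [Algebra A D] {u w : A} (hu : u ≠ 0)
    {x : D} (h : algebraMap A D u * x = algebraMap A D w) : IsAlgebraic A x :=
  ⟨Polynomial.C u * Polynomial.X - Polynomial.C w, fun e => hu (by
    simpa using congrArg (Polynomial.coeff · 1) e), by simp [h]⟩

theorem trdeg_le_of_gen {D : Type u} [CommRing D] [IsDomain D] [Algebra k D] {σ : Type}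
    (φ : MvPolynomial σ k →ₐ[k] D) (hφ : Function.Surjective φ) {ι : Type} [Fintype ι] (y : ι → D)
    (h : ∀ s, IsAlgebraic (Algebra.adjoin k (Set.range y)) (φ (X s))) :
    Algebra.trdeg k D ≤ Fintype.card ι := by
  have : Algebra.IsAlgebraic (Algebra.adjoin k (Set.range y)) D := ⟨fun x => by
    obtain ⟨f, rfl⟩ := hφ x
    induction f using MvPolynomial.induction_on with
    | C a =>
      rw [← algebraMap_eq, AlgHom.commutes, IsScalarTower.algebraMap_apply k
        (Algebra.adjoin k (Set.range y)) D]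
      exact isAlgebraic_algebraMap _
    | add f g hf hg => rw [map_add]; exact hf.add hg
    | mul_X f s hf => rw [map_mul]; exact hf.mul (h s)⟩
  refine (Algebra.IsAlgebraic.trdeg_le_cardinalMk k (Set.range y)).trans ?_
  simpa using Cardinal.mk_range_le_lift (f := y)

/-- the coefficient vector of a pair -/
noncomputable def coords {R : Type*} [CommRing R] (Q F : MvPolynomial (Fin 4) R) :
    (Fin 4 →₀ ℕ) ⊕ (Fin 4 →₀ ℕ) → R :=
  Sum.elim (fun m => coeff m Q) fun m => coeff m F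

theorem coords_map {R S : Type*} [CommRing R] [CommRing S] [Algebra k R] [Algebra k S]
    (φ : R →ₐ[k] S) (Q F : MvPolynomial (Fin 4) R) :
    (fun s => φ (coords Q F s)) = coords (map (φ : R →+* S) Q) (map (φ : R →+* S) F) := by
  ext s
  rcases s with s | s <;> simp [coords, coeff_map]

/-- the parameters -/
abbrev Par : Type := (Fin 10 ⊕ Fin 4) ⊕ (Fin 4 × Fin 4) ⊕ (Fin 4 × Fin 4)

/-- the cubic with given parameters -/
noncomputable def parC {R : Type*} [CommRing R] (t : Par → R) : Fin 20 → R :=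
  dq (genNil 2 (fun s => t (Sum.inr (Sum.inl s))) fun s => t (Sum.inr (Sum.inr s)))
    (fun i => t (Sum.inl (Sum.inl i))) fun i => t (Sum.inl (Sum.inr i))

theorem parC_map {R S : Type*} [CommRing R] [CommRing S] [Algebra k R] [Algebra k S]
    (φ : R →ₐ[k] S) (t : Par → R) (i : Fin 20) : φ (parC t i) = parC (fun s => φ (t s)) i := by
  rw [parC, dq_map, parC]
  congr 1
  ext i j
  exact genNil_map 2 φ _ _ i j

variable (k) in
/-- the parametrisation -/
noncomputable def psi : (Fin 4 →₀ ℕ) ⊕ (Fin 4 →₀ ℕ) → MvPolynomial Par k :=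
  coords (form v2 fun i => X (Sum.inl (Sum.inl i))) (form v3 (parC X))

theorem psi_eval (t : Par → k) : (fun s => aeval t (psi k s)) =
    coords (form v2 fun i => t (Sum.inl (Sum.inl i))) (form v3 (parC t)) := by
  rw [psi, coords_map, form_map, form_map]
  simp only [RingHom.coe_coe, parC_map, aeval_X]

/-- the pair lies in the closure of the parametrised family -/
def Cl (Q F : MvPolynomial (Fin 4) k) : Prop :=
  ∀ f : MvPolynomial ((Fin 4 →₀ ℕ) ⊕ (Fin 4 →₀ ℕ)) k, aeval (psi k) f = 0 →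
    aeval (coords Q F) f = 0

variable [CharP k 2]

theorem cl_of_pf {a : Fin 10 → k} {c : Fin 20 → k} (hp : pf a ≠ 0)
    (h : tw 2 (hw2 a c) 4 = 0) : Cl (form v2 a) (form v3 c) := by
  obtain ⟨e, he⟩ := tw_smul 2 (pf a)⁻¹ (hw2 a c) 4
  rw [h, smul_zero] at he
  obtain ⟨x, y, hxy⟩ := genNil_surj 2 he
  intro f hf
  have := congrArg (aeval (Sum.elim (Sum.elim a ((pf a)⁻¹ • lq a c)) (Sum.elim x y))) hf
  rw [aeval_aeval, psi_eval, map_zero] at this
  rw [← this]
  congr 4
  change c = dq (genNil 2 x y) a _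
  rw [← hxy]
  change c = dq _ a ((pf a)⁻¹ • lq a c)
  rw [dq_smul, dq_hw2, smul_smul, inv_mul_cancel₀ hp, one_smul]

theorem cone_trdeg (r : Ideal (MvPolynomial (Option (Fin 20)) k)) [r.IsPrime]
    (h : ∀ i j, tw 2 (hw2 (qn (X none)) fun i => X (some i)) 4 i j ∈ r) (h0 : X none ∈ r)
    (h19 : X (some 19) ∉ r) : Algebra.trdeg k (MvPolynomial (Option (Fin 20)) k ⧸ r) ≤ 16 := by
  have : CharP (MvPolynomial (Option (Fin 20)) k ⧸ r) 2 :=
    charP_of_injective_algebraMap (algebraMap k _).injective 2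
  let c : Fin 20 → MvPolynomial (Option (Fin 20)) k ⧸ r := fun i => Ideal.Quotient.mk r (X (some i))
  have hc : c 19 ≠ 0 := fun e => h19 (Ideal.Quotient.eq_zero_iff_mem.1 e)
  have e0 := Ideal.Quotient.eq_zero_iff_mem.2 h0
  obtain ⟨a6, a14, a12, a10⟩ := cone_eqs (c := c) (by
    have e := tw_map (Ideal.Quotient.mk r) 2 (hw2 (qn (X none)) fun i => X (some i)) 4
    rw [hw2_map] at e
    have e1 : (fun j => Ideal.Quotient.mk r (qn (X none) j)) = qn 0 := by
      ext j
      fin_cases j <;> simp [qn, e0]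
    rw [e1] at e
    rw [← e]
    ext i j
    exact Ideal.Quotient.eq_zero_iff_mem.2 (h i j)) hc
  let y : {i : Fin 20 // i ≠ 6 ∧ i ≠ 14 ∧ i ≠ 12 ∧ i ≠ 10} → _ := fun i => c i.1
  let y' : ∀ i : Fin 20, i ≠ 6 ∧ i ≠ 14 ∧ i ≠ 12 ∧ i ≠ 10 → Algebra.adjoin k (Set.range y) :=
    fun i hi => ⟨c i, Algebra.subset_adjoin ⟨⟨i, hi⟩, rfl⟩⟩
  have hy : y' 19 (by decide) ≠ 0 := fun e => hc (congrArg Subtype.val e)
  refine (trdeg_le_of_gen (Ideal.Quotient.mkₐ k r) (Ideal.Quotient.mkₐ_surjective k r) y ?_).trans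
    (by rw [show Fintype.card {i : Fin 20 // i ≠ 6 ∧ i ≠ 14 ∧ i ≠ 12 ∧ i ≠ 10} = 16 by decide]; simp)
  rintro (_ | i)
  · exact e0 ▸ isAlgebraic_zero
  change IsAlgebraic _ (c i)
  by_cases h6 : i = 6
  · rw [h6, a6]
    exact isAlgebraic_zero
  by_cases h14 : i = 14
  · rw [h14, a14]
    exact isAlgebraic_zero
  by_cases h12 : i = 12
  · rw [h12]
    refine alg_of_mul hy (w := y' 15 (by decide) ^ 2 - y' 19 (by decide) * y' 8 (by decide)) ?_
    change c 19 * c 12 = c 15 ^ 2 - c 19 * c 8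
    linear_combination a12
  by_cases h10 : i = 10
  · rw [h10]
    refine alg_of_mul (pow_ne_zero 2 hy)
      (w := y' 15 (by decide) ^ 3 - y' 19 (by decide) ^ 2 * y' 5 (by decide)) ?_
    change c 19 ^ 2 * c 10 = c 15 ^ 3 - c 19 ^ 2 * c 5
    linear_combination a10
  · exact isAlgebraic_algebraMap (y' i ⟨h6, h14, h12, h10⟩)

variable [IsAlgClosed k]

theorem cl_of_cone {g : Matrix (Fin 4) (Fin 4) k} (hg : g.det ≠ 0) {c : Fin 20 → k}
    (hc : c 19 ≠ 0) (h : tw 2 (hw2 (qn 0) c) 4 = 0) :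
    Cl (sub g (form v2 (qn 0))) (sub g (form v3 c)) := by
  have hq : ∀ x : Option (Fin 20) → k, (fun j => aeval x (qn (X none : MvPolynomial _ k) j)) =
      qn (x none) := fun x => by
    ext j
    fin_cases j <;> simp [qn]
  have hA : ∀ x : Option (Fin 20) → k, (hw2 (qn (X none : MvPolynomial _ k)) fun i =>
      X (some i)).map (aeval x) = hw2 (qn (x none)) fun i => x (some i) := fun x => by
    rw [hw2_map, hq]
    simp
  obtain ⟨r, hr, h1, h2, h3⟩ := purity 2 (m := 3) (hw2 (qn (X none)) fun i => X (some i))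
    (fun o : Option (Fin 20) => o.elim 0 c) (by rw [hA]; exact h)
  have hb : X none ∉ r := fun hb => by
    have := h3.trans (add_le_add_left (cone_trdeg r h2 hb fun e => hc (by
      simpa using (mem_vanishingIdeal_singleton_iff _ _).1 (h1 e))) _)
    simp only [Nat.card_eq_fintype_card, Fintype.card_option, Fintype.card_fin] at this
    norm_cast at this
  let Θ := coords (sub (g.map C) (form v2 (qn (X none : MvPolynomial (Option (Fin 20)) k))))
    (sub (g.map C) (form v3 fun i => X (some i)))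
  have hΘ : ∀ x : Option (Fin 20) → k, (fun s => aeval x (Θ s)) =
      coords (sub g (form v2 (qn (x none)))) (sub g (form v3 fun i => x (some i))) := fun x => by
    have e : (g.map (C : k → MvPolynomial (Option (Fin 20)) k)).map
        (aeval x : MvPolynomial (Option (Fin 20)) k →ₐ[k] k) = g := by
      ext i j
      simp
    rw [coords_map, map_sub_, map_sub_, form_map, form_map]
    simp only [RingHom.coe_coe, hq, e, aeval_X]
  intro f hf
  have : X none * aeval Θ f ∈ r := by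
    rw [← IsPrime.vanishingIdeal_zeroLocus (K := k) r]
    intro x hx
    rw [map_mul, aeval_X]
    by_cases e : x none = 0
    · rw [e, zero_mul]
    obtain ⟨a', ha'⟩ := quad_surj (sub_hom g (quad_hom (qn (x none))))
    obtain ⟨c', hc'⟩ := cub_surj (sub_hom g (cub_hom fun i => x (some i)))
    have hn := nil_sub 2 hg (quad_hom (qn (x none))) (cub_hom fun i => x (some i)) (by
      rw [hasseWitt_two, ← hA, ← tw_map]
      ext i j
      exact hx _ (h2 i j))
    rw [ha', hc', hasseWitt_two] at hn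
    rw [aeval_aeval, hΘ, ha', hc', cl_of_pf (pf_ne hg e ha') hn f hf, mul_zero]
  have h4 := (mem_vanishingIdeal_singleton_iff _ _).1 (h1 ((hr.mem_or_mem this).resolve_left hb))
  rwa [aeval_aeval, hΘ] at h4

theorem cl_of_mem {Q F : MvPolynomial (Fin 4) k} (hQ : Q.IsHomogeneous 2) (hF : F.IsHomogeneous 3)
    (hs : SmoothCI Q F) (h : tw 2 (hasseWitt 2 Q F) 4 = 0) : Cl Q F := by
  obtain ⟨a, rfl⟩ := quad_surj hQ
  obtain ⟨c, rfl⟩ := cub_surj hF
  by_cases hp : pf a = 0
  · obtain ⟨g, hg, e⟩ := normal_form hs hp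
    obtain ⟨c', hc'⟩ := cub_surj (sub_hom g hF)
    have h1 := nil_sub 2 hg hQ hF h
    have h2 := smooth_sub hg hs
    rw [e, hc'] at h1 h2
    rw [hasseWitt_two] at h1
    have h3 : c' 19 ≠ 0 := fun e' => by
      have := (smooth_iff _ _).1 h2 ![0, 0, 0, 1] (by simp [eval_quad, qv, qn])
        (by simp [eval_cub, cv, e']) fun i j => by simp [eval_pderiv_quad, qb, qn]
      simpa using congrFun this 3
    have := cl_of_cone (g := g⁻¹) (by simpa using hg) h3 h1
    rwa [← e, ← hc', ← sub_mul, ← sub_mul, Matrix.mul_nonsing_inv _ (Ne.isUnit hg), sub_one,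
      sub_one] at this
  · exact cl_of_pf hp (by rwa [hasseWitt_two] at h)

/-- the cubic `x₃ ^ 3 + x₀ ^ 2 x₁ + x₂ ^ 3` -/
def c0 (k : Type u) [Field k] : Fin 20 → k :=
  ![0, 1, 0, 0, 0, 0, 0, 0, 0, 0, 0, 0, 0, 0, 0, 0, 1, 0, 0, 1]

omit [IsAlgClosed k] in
theorem c0_smooth : SmoothCI (form v2 (qn (0 : k))) (form v3 (c0 k)) := by
  refine (smooth_iff _ _).2 fun x h1 h2 h3 => ?_
  have a1 := h3 0 2
  have a2 := h3 1 2
  simp only [eval_pderiv_quad] at a1 a2
  simp [qb, qn, eval_pderiv_form, Fin.sum_univ_succ, v3, c0,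
    CharTwo.two_eq_zero, show (3 : k) = 1 by grind] at a1 a2
  simp [eval_quad, qv, qn, a1, a2] at h1
  simp [eval_cub, cv, c0, a1, a2] at h2
  ext i
  fin_cases i <;> simpa

omit [IsAlgClosed k] in
theorem c0_nil : tw 2 (hw2 (qn (0 : k)) (c0 k)) 4 = 0 := by
  rw [tw_four]
  ext i j
  fin_cases i <;> fin_cases j <;>
    simp [hw2, qn, c0, Matrix.mul_apply, Fin.sum_univ_four, Matrix.vecMul, dotProduct]

theorem locus_two_prime : (vanishingIdeal k (locus 2 k)).IsPrime := by
  let a : Fin 10 → MvPolynomial ((Fin 4 →₀ ℕ) ⊕ (Fin 4 →₀ ℕ)) k := fun i =>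
    X (Sum.inl (Finsupp.equivFunOnFinite.symm (v2 i)))
  let c : Fin 20 → MvPolynomial ((Fin 4 →₀ ℕ) ⊕ (Fin 4 →₀ ℕ)) k := fun i =>
    X (Sum.inr (Finsupp.equivFunOnFinite.symm (v3 i)))
  have i2 : Function.Injective v2 := by decide
  have i3 : Function.Injective v3 := by decide
  have ha : ∀ (a' : Fin 10 → k) (c' : Fin 20 → k), MvPolynomial.map ((aeval (coords (form v2 a')
      (form v3 c')) : _ →ₐ[k] k) : _ →+* k) (form v2 a) = form v2 a' := fun a' c' => by
    rw [form_map]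
    simp [a, coords, coeff_form, i2.eq_iff]
  have hc : ∀ (a' : Fin 10 → k) (c' : Fin 20 → k), MvPolynomial.map ((aeval (coords (form v2 a')
      (form v3 c')) : _ →ₐ[k] k) : _ →+* k) (form v3 c) = form v3 c' := fun a' c' => by
    rw [form_map]
    simp [c, coords, coeff_form, i3.eq_iff]
  obtain ⟨h, h1, h2⟩ := smooth_open (quad_hom a) (cub_hom c)
    (aeval (coords (form v2 (qn (0 : k))) (form v3 (c0 k)))) (by rw [ha, hc]; exact c0_smooth)
  have h3 : aeval (psi k) h ≠ 0 := fun e => h1 (cl_of_mem (quad_hom _) (cub_hom _) c0_smooth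
    (by rw [hasseWitt_two]; exact c0_nil) h e)
  refine prime_of_param (psi k) _ (aeval (psi k) h *
    (Matrix.of fun i j => X (Sum.inr (Sum.inl (i, j)))).det) (mul_ne_zero h3 (det_gen_ne
      (fun s => Sum.inr (Sum.inl s)) (Sum.inr_injective.comp Sum.inl_injective))) ?_ ?_
  · intro t ht
    rw [map_mul, aeval_aeval, psi_eval, AlgHom.map_det] at ht
    have h4 := h2 _ (left_ne_zero_of_mul ht)
    rw [ha, hc] at h4
    refine ⟨_, _, quad_hom _, cub_hom _, h4, ?_, psi_eval t⟩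
    rw [PRankZero, ← tw_four, hasseWitt_two, parC, hw2_dq]
    obtain ⟨e, he⟩ := tw_smul 2 (pf fun i => t (Sum.inl (Sum.inl i))) (genNil 2
      (fun s => t (Sum.inr (Sum.inl s))) fun s => t (Sum.inr (Sum.inr s))) 4
    rw [he, genNil_nil 2 (by
      convert right_ne_zero_of_mul ht using 2
      ext i j
      simp), smul_zero]
  · rintro _ ⟨Q, F, hQ, hF, hs, hn, rfl⟩
    exact cl_of_mem hQ hF hs (by rw [tw_four]; exact hn)

end Pool.Agent.Work.MP_da2620_ag
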