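import Pool.Agent.Work.MP_da2620_ag.SchDef

/-!
# The space of `k`-points of the moduli space of curves
-/

namespace PR0

open AlgebraicGeometry CategoryTheory

universe u

variable (k : Type u) [Field k] (g : ℕ)

/-- Curves of genus `g`. -/
abbrev CurveG : Type (u + 1) := {C : Curve k // genus k C.L = g}

/-- Isomorphism classes of curves of genus `g` over `k`. -/
def Mg : Type (u + 1) :=
  Quot fun C C' : CurveG k g => ∃ e : C.1.X ≅ C'.1.X, e.hom ≫ C'.1.f = C.1.f

/-- The class of a curve. -/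
def Mg.mk {k : Type u} [Field k] {g : ℕ} (C : CurveG k g) : Mg k g := Quot.mk _ C

/-- A smooth proper family over a base locally of finite type over `k`, whose fibres over all
`k`-points are curves of genus `g`. -/
structure Family where
  S : Scheme.{u}
  Y : Scheme.{u}
  s : S ⟶ Spec (CommRingCat.of k)
  π : Y ⟶ S
  finiteType : LocallyOfFiniteType s
  proper : IsProper π
  smooth : Smooth π
  fibre : ∀ t : Spec (CommRingCat.of k) ⟶ S, t ≫ s = 𝟙 _ →
    ∃ (C : CurveG k g) (i : C.1.X ⟶ Y), IsPullback i C.1.f π t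

/-- The `k`-points of the base of `F` whose fibre has its class in `U` are those lying in `V`. -/
def Family.Cuts {k : Type u} [Field k] {g : ℕ} (F : Family k g) (U : Set (Mg k g)) (V : F.S.Opens) :
    Prop :=
  ∀ t : Spec (CommRingCat.of k) ⟶ F.S, t ≫ F.s = 𝟙 _ → ∀ (C : CurveG k g) (i : C.1.X ⟶ F.Y),
    IsPullback i C.1.f F.π t → (Mg.mk C ∈ U ↔ t (IsLocalRing.closedPoint k) ∈ V)

/-- The Zariski topology: the finest topology for which the classifying maps `S(k) → Mg k g` of all
families are continuous. -/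
instance : TopologicalSpace (Mg k g) where
  IsOpen U := ∀ F : Family k g, ∃ V : F.S.Opens, F.Cuts U V
  isOpen_univ F := ⟨⊤, fun _ _ _ _ _ => iff_of_true trivial trivial⟩
  isOpen_inter U U' h h' F := by
    obtain ⟨V, hV⟩ := h F
    obtain ⟨V', hV'⟩ := h' F
    exact ⟨V ⊓ V', fun t ht C i hi => and_congr (hV t ht C i hi) (hV' t ht C i hi)⟩
  isOpen_sUnion 𝒰 h F := by
    choose V hV using fun U : 𝒰 => h U.1 U.2 F
    refine ⟨⨆ U, V U, fun t ht C i hi => ?_⟩
    rw [TopologicalSpace.Opens.mem_iSup, Set.mem_sUnion]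
    exact ⟨fun ⟨U, hU, e⟩ => ⟨⟨U, hU⟩, (hV _ t ht C i hi).1 e⟩,
      fun ⟨U, e⟩ => ⟨U.1, U.2, (hV _ t ht C i hi).2 e⟩⟩

/-- The `p`-rank zero stratum. -/
def Mg0 (p : ℕ) : Set (Mg k g) := {x | ∃ C : CurveG k g, Mg.mk C = x ∧ PRankZero k C.1.L p}

end PR0
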