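import Mathlib
import Pool.Agent.Work.MP_da2620_ag.Disc

-- merged part: Pool.Agent.Work.MP_da2620_ag.SmdA
section
/-!
# Lifting along nilpotent extensions, a fixed point equation
-/

namespace PR0

open Polynomial IntermediateField

universe u

variable {K L B C : Type u} [Field K] [Field L] [Algebra K L] [CommRing B] [Algebra K B]
  [CommRing C] [Algebra K C] {x : L}

theorem SmdA_ext [Algebra.IsSeparable K⟮x⟯ L] {I : Ideal B} (hI : IsNilpotent I)
    {θ θ' : L →ₐ[K] B} (h : ∀ y, θ y - θ' y ∈ I) (hx : θ x = θ' x) : θ = θ' := by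
  have h1 : ∀ y ∈ K⟮x⟯, θ y = θ' y := by
    intro y hy
    induction hy using IntermediateField.adjoin_induction with
    | mem z hz => rw [Set.mem_singleton_iff.1 hz, hx]
    | algebraMap c => rw [θ.commutes, θ'.commutes]
    | add a b _ _ ha hb => rw [map_add, map_add, ha, hb]
    | mul a b _ _ ha hb => rw [map_mul, map_mul, ha, hb]
    | inv a _ ha =>
      by_cases h0 : a = 0
      · rw [h0, inv_zero, map_zero, map_zero]
      have e1 : θ a * θ a⁻¹ = 1 := by rw [← map_mul, mul_inv_cancel₀ h0, map_one]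
      have e2 : θ' a * θ' a⁻¹ = 1 := by rw [← map_mul, mul_inv_cancel₀ h0, map_one]
      rw [ha] at e1
      linear_combination θ' a⁻¹ * e1 - θ a⁻¹ * e2
  letI : Algebra K⟮x⟯ B := (θ.toRingHom.comp (algebraMap K⟮x⟯ L)).toAlgebra
  haveI := Algebra.FormallyEtale.of_isSeparable K⟮x⟯ L
  have := Algebra.FormallyUnramified.ext (R := K⟮x⟯) (A := L) I hI
    (g₁ := { θ.toRingHom with commutes' := fun _ => rfl })
    (g₂ := { θ'.toRingHom with commutes' := fun r => (h1 r r.2).symm })
    fun y => Ideal.Quotient.eq.2 (h y)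
  exact AlgHom.ext fun y => AlgHom.congr_fun this y

theorem SmdA_congr [Algebra.IsSeparable K⟮x⟯ L] {I : Ideal B} (hI : IsNilpotent I) (M : Ideal B)
    {θ θ' : L →ₐ[K] B} (h : ∀ y, θ y - θ' y ∈ I) (hx : θ x - θ' x ∈ M) (y : L) :
    θ y - θ' y ∈ M := by
  have hI' : IsNilpotent (I.map (Ideal.Quotient.mk M)) := by
    obtain ⟨n, hn⟩ := hI
    exact ⟨n, by rw [← Ideal.map_pow, hn, Ideal.zero_eq_bot, Ideal.map_bot, Ideal.zero_eq_bot]⟩
  have := SmdA_ext (x := x) hI' (θ := (Ideal.Quotient.mkₐ K M).comp θ)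
    (θ' := (Ideal.Quotient.mkₐ K M).comp θ') (fun y => by
      have := Ideal.mem_map_of_mem (Ideal.Quotient.mk M) (h y)
      rwa [map_sub] at this) (Ideal.Quotient.eq.2 hx)
  exact Ideal.Quotient.eq.1 (AlgHom.congr_fun this y)

theorem SmdA_unit {g : B →ₐ[K] C} (hg : Function.Surjective g)
    (hn : IsNilpotent (RingHom.ker g)) {b : B} (h : IsUnit (g b)) : IsUnit b := by
  obtain ⟨c, hc⟩ := h.exists_right_inv
  obtain ⟨b', rfl⟩ := hg c
  obtain ⟨n, hn⟩ := hn
  have h1 : b * b' - 1 ∈ RingHom.ker g := by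
    rw [RingHom.mem_ker, map_sub, map_mul, hc, map_one, sub_self]
  have h2 : IsNilpotent (b * b' - 1) :=
    ⟨n, by have := Ideal.pow_mem_pow h1 n; rwa [hn, Ideal.zero_eq_bot, Ideal.mem_bot] at this⟩
  have h3 := h2.isUnit_add_one
  rw [sub_add_cancel] at h3
  exact isUnit_of_mul_isUnit_left h3

theorem SmdA_lift (hx : Transcendental K x) [Algebra.IsSeparable K⟮x⟯ L] {g : B →ₐ[K] C}
    (hg : Function.Surjective g) (hn : IsNilpotent (RingHom.ker g)) (f : L →ₐ[K] C) {b : B}
    (hb : g b = f x) : ∃ θ : L →ₐ[K] B, (∀ y, g (θ y) = f y) ∧ θ x = b := by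
  have e1 : ∀ q : K[X], g (aeval b q) = f (aeval x q) := fun q => by
    rw [← aeval_algHom_apply, ← aeval_algHom_apply, hb]
  have hu : ∀ q : nonZeroDivisors K[X], IsUnit ((aeval b : K[X] →ₐ[K] B) q) := fun q => by
    refine SmdA_unit hg hn ?_
    rw [e1]
    refine IsUnit.map f (IsUnit.mk0 _ fun h => nonZeroDivisors.coe_ne_zero q ?_)
    exact transcendental_iff_injective.1 hx (by rw [h, map_zero])
  let e := RatFunc.algEquivOfTranscendental x hx
  let ψ₀ : RatFunc K →ₐ[K] B := IsLocalization.liftAlgHom hu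
  let ψ : K⟮x⟯ →ₐ[K] B := ψ₀.comp e.symm.toAlgHom
  have e2 : g.comp ψ₀ = (f.comp K⟮x⟯.val).comp e.toAlgHom := by
    refine AlgHom.coe_ringHom_injective (IsLocalization.ringHom_ext (nonZeroDivisors K[X]) ?_)
    refine RingHom.ext fun q => ?_
    have a1 : ψ₀ (algebraMap K[X] (RatFunc K) q) = aeval b q := IsLocalization.lift_eq hu q
    have a2 : (e (algebraMap K[X] (RatFunc K) q) : L) = aeval x q := by
      rw [RatFunc.algEquivOfTranscendental_algebraMap]
      exact (aeval_algHom_apply K⟮x⟯.val _ q).symm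
    change g (ψ₀ (algebraMap K[X] (RatFunc K) q)) = f (e (algebraMap K[X] (RatFunc K) q) : L)
    rw [a1, a2, e1]
  have e3 : ∀ r : K⟮x⟯, g (ψ r) = f r := fun r => by
    have := AlgHom.congr_fun e2 (e.symm r)
    change g (ψ₀ (e.symm r)) = f (e (e.symm r) : L) at this
    rwa [e.apply_symm_apply] at this
  letI : Algebra K⟮x⟯ B := ψ.toRingHom.toAlgebra
  letI : Algebra K⟮x⟯ C := (f.toRingHom.comp (algebraMap K⟮x⟯ L)).toAlgebra
  haveI := Algebra.FormallyEtale.of_isSeparable K⟮x⟯ L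
  let f' : L →ₐ[K⟮x⟯] C := { f.toRingHom with commutes' := fun _ => rfl }
  let g' : B →ₐ[K⟮x⟯] C := { g.toRingHom with commutes' := e3 }
  let θ := Algebra.FormallySmooth.liftOfSurjective f' g' hg hn
  have e4 : ∀ r : K⟮x⟯, θ r = ψ r := θ.commutes
  refine ⟨{ θ.toRingHom with commutes' := fun c => ?_ },
    Algebra.FormallySmooth.liftOfSurjective_apply f' g' hg hn, ?_⟩
  · exact (e4 (algebraMap K K⟮x⟯ c)).trans (ψ.commutes c)
  · refine (e4 (AdjoinSimple.gen K x)).trans ?_
    change ψ₀ (e.symm (AdjoinSimple.gen K x)) = b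
    rw [RatFunc.algEquivOfTranscendental_symm_gen, ← RatFunc.algebraMap_X]
    exact (IsLocalization.lift_eq hu X).trans (aeval_X b)

theorem SmdA_fix (hx : Transcendental K x) [Algebra.IsSeparable K⟮x⟯ L] {g : B →ₐ[K] C}
    (hg : Function.Surjective g) (hn : IsNilpotent (RingHom.ker g)) (f : L →ₐ[K] C) {b : B}
    (hb : g b = f x) {N : ℕ} {s : Fin N → B} (hs : ∀ j, g (s j) = 0) (a : Fin N → L) :
    ∃ θ : L →ₐ[K] B, (∀ y, g (θ y) = f y) ∧ θ x + ∑ j, s j * θ (a j) = b := by
  have key : ∀ m : ℕ, ∃ θ : L →ₐ[K] B, (∀ y, g (θ y) = f y) ∧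
      θ x + ∑ j, s j * θ (a j) - b ∈ RingHom.ker g ^ m := by
    intro m
    induction m with
    | zero =>
      obtain ⟨θ, h, -⟩ := SmdA_lift hx hg hn f hb
      exact ⟨θ, h, by simp⟩
    | succ m ih =>
      obtain ⟨θ, h, h'⟩ := ih
      obtain ⟨θ', h1, h2⟩ := SmdA_lift hx hg hn f (b := b - ∑ j, s j * θ (a j))
        (by simp [hb, hs])
      refine ⟨θ', h1, ?_⟩
      have h3 := SmdA_congr (x := x) hn (RingHom.ker g ^ m) (θ := θ') (θ' := θ)
        (fun y => by rw [RingHom.mem_ker, map_sub, h, h1, sub_self])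
        (by rw [h2, ← neg_mem_iff]; convert h' using 1; ring)
      have e : θ' x + ∑ j, s j * θ' (a j) - b = ∑ j, (θ' (a j) - θ (a j)) * s j := by
        rw [h2, Finset.sum_congr rfl fun j _ => sub_mul (θ' (a j)) (θ (a j)) (s j),
          Finset.sum_sub_distrib, Finset.sum_congr rfl fun j _ => mul_comm (θ' (a j)) (s j),
          Finset.sum_congr rfl fun j _ => mul_comm (θ (a j)) (s j)]
        ring
      rw [e, pow_succ]
      exact Ideal.sum_mem _ fun j _ => Ideal.mul_mem_mul (h3 _) (hs j)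
  obtain ⟨n, hn⟩ := hn
  obtain ⟨θ, h, h'⟩ := key n
  rw [hn, Ideal.zero_eq_bot, Ideal.mem_bot, sub_eq_zero] at h'
  exact ⟨θ, h, h'⟩

theorem SmdA_fix_unique [Algebra.IsSeparable K⟮x⟯ L] {I : Ideal B} (hI : IsNilpotent I)
    {θ θ' : L →ₐ[K] B} (h : ∀ y, θ y - θ' y ∈ I) {N : ℕ} {s : Fin N → B} (hs : ∀ j, s j ∈ I)
    {a : Fin N → L} (e : θ x + ∑ j, s j * θ (a j) = θ' x + ∑ j, s j * θ' (a j)) : θ = θ' := by
  have key : ∀ m : ℕ, ∀ y, θ y - θ' y ∈ I ^ m := by
    intro m
    induction m with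
    | zero => simp
    | succ m ih =>
      refine SmdA_congr (x := x) hI _ h ?_
      have e' : θ x - θ' x = -∑ j, (θ (a j) - θ' (a j)) * s j := by
        rw [Finset.sum_congr rfl fun j _ => sub_mul (θ (a j)) (θ' (a j)) (s j),
          Finset.sum_sub_distrib, Finset.sum_congr rfl fun j _ => mul_comm (θ' (a j)) (s j),
          Finset.sum_congr rfl fun j _ => mul_comm (θ (a j)) (s j)]
        linear_combination e
      rw [e', neg_mem_iff, pow_succ]
      exact Ideal.sum_mem _ fun j _ => Ideal.mul_mem_mul (ih _) (hs j)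
  obtain ⟨n, hn⟩ := hI
  refine AlgHom.ext fun y => ?_
  have := key n y
  rwa [hn, Ideal.zero_eq_bot, Ideal.mem_bot, sub_eq_zero] at this

end PR0
end

-- merged part: Pool.Agent.Work.MP_da2620_ag.SmdB
section
/-!
# Power series with independent linear terms
-/

namespace PR0

open MvPolynomial

universe u

variable {K : Type u} [Field K] {N : ℕ}

/-- Series without terms of degree below `n`. -/
def SmdB_Od (K : Type u) [Field K] (N n : ℕ) : Ideal (MvPowerSeries (Fin N) K) where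
  carrier := {F | ∀ m : Fin N →₀ ℕ, m.degree < n → MvPowerSeries.coeff m F = 0}
  add_mem' ha hb m hm := by rw [map_add, ha m hm, hb m hm, add_zero]
  zero_mem' m _ := map_zero _
  smul_mem' c F hF m hm := by
    refine MvPowerSeries.coeff_of_lt_order (lt_of_lt_of_le ?_ MvPowerSeries.le_order_mul)
    exact lt_of_lt_of_le (Nat.cast_lt.2 hm) ((MvPowerSeries.nat_le_order hF).trans le_add_self)

theorem SmdB_mem {n : ℕ} {F : MvPowerSeries (Fin N) K} : F ∈ SmdB_Od K N n ↔
    ∀ m : Fin N →₀ ℕ, m.degree < n → MvPowerSeries.coeff m F = 0 := Iff.rfl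

theorem SmdB_mono {a b : ℕ} (h : a ≤ b) : SmdB_Od K N b ≤ SmdB_Od K N a :=
  fun _ hF m hm => hF m (hm.trans_le h)

theorem SmdB_mul {a b : ℕ} {F G : MvPowerSeries (Fin N) K} (hF : F ∈ SmdB_Od K N a)
    (hG : G ∈ SmdB_Od K N b) : F * G ∈ SmdB_Od K N (a + b) := fun m hm => by
  refine MvPowerSeries.coeff_of_lt_order (lt_of_lt_of_le ?_ MvPowerSeries.le_order_mul)
  refine lt_of_lt_of_le (Nat.cast_lt.2 hm) ?_
  rw [Nat.cast_add]
  exact add_le_add (MvPowerSeries.nat_le_order hF) (MvPowerSeries.nat_le_order hG)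

theorem SmdB_pow (n : ℕ) : SmdB_Od K N 1 ^ n ≤ SmdB_Od K N n := by
  induction n with
  | zero => intro F _ m hm; omega
  | succ n ih =>
    rw [pow_succ]
    exact Ideal.mul_le.2 fun F hF G hG => SmdB_mul (ih hF) hG

theorem SmdB_one {F : MvPowerSeries (Fin N) K} :
    F ∈ SmdB_Od K N 1 ↔ MvPowerSeries.constantCoeff F = 0 := by
  constructor
  · intro h
    exact h 0 (by simp)
  · intro h m hm
    rwa [(Finsupp.degree_eq_zero_iff m).1 (by omega)]

theorem SmdB_two {F : MvPowerSeries (Fin N) K} (h0 : MvPowerSeries.constantCoeff F = 0)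
    (h1 : ∀ j, MvPowerSeries.coeff (Finsupp.single j 1) F = 0) : F ∈ SmdB_Od K N 2 := by
  intro m hm
  by_cases h : m.degree = 1
  · have : m ∈ Set.range fun j : Fin N => Finsupp.single j 1 := by
      rw [Finsupp.range_single_one]
      exact h
    obtain ⟨j, rfl⟩ := this
    exact h1 j
  · exact SmdB_one.2 h0 m (by omega)

theorem SmdB_lim (u : ℕ → MvPowerSeries (Fin N) K) (h : ∀ n, u (n + 1) - u n ∈ SmdB_Od K N n) :
    ∃ v, ∀ n, v - u n ∈ SmdB_Od K N n := by
  have key : ∀ n k, u (n + k) - u n ∈ SmdB_Od K N n := by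
    intro n k
    induction k with
    | zero => simp
    | succ k ih =>
      have := add_mem (SmdB_mono (Nat.le_add_right n k) (h (n + k))) ih
      rwa [sub_add_sub_cancel] at this
  refine ⟨fun m => MvPowerSeries.coeff m (u (m.degree + 1)), fun n m hm => ?_⟩
  obtain ⟨k, rfl⟩ := Nat.exists_eq_add_of_le (Nat.succ_le_of_lt hm)
  have := key (m.degree + 1) k m (Nat.lt_succ_self _)
  rw [map_sub, sub_eq_zero] at this ⊢
  exact this.symm

theorem SmdB_zero {F : MvPowerSeries (Fin N) K} (h : ∀ n, F ∈ SmdB_Od K N n) : F = 0 :=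
  MvPowerSeries.ext fun m => h (m.degree + 1) m (Nat.lt_succ_self _)

/-- Same lowest terms in degree `n`. -/
def SmdB_R (n : ℕ) (F G : MvPowerSeries (Fin N) K) : Prop :=
  F ∈ SmdB_Od K N n ∧ G ∈ SmdB_Od K N n ∧ F - G ∈ SmdB_Od K N (n + 1)

theorem SmdB_R.mul {a b : ℕ} {F G F' G' : MvPowerSeries (Fin N) K} (h : SmdB_R a F G)
    (h' : SmdB_R b F' G') : SmdB_R (a + b) (F * F') (G * G') := by
  refine ⟨SmdB_mul h.1 h'.1, SmdB_mul h.2.1 h'.2.1, ?_⟩
  have e : F * F' - G * G' = F * (F' - G') + (F - G) * G' := by ring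
  rw [e]
  refine add_mem (SmdB_mul (b := b + 1) h.1 h'.2.2) ?_
  rw [add_right_comm]
  exact SmdB_mul h.2.2 h'.2.1

theorem SmdB_R_one : SmdB_R 0 (1 : MvPowerSeries (Fin N) K) 1 :=
  ⟨fun _ h => by omega, fun _ h => by omega, by simp⟩

theorem SmdB_R_mon {M : ℕ} {g l : Fin M → MvPowerSeries (Fin N) K} (h : ∀ i, SmdB_R 1 (g i) (l i))
    (m : Fin M →₀ ℕ) :
    SmdB_R m.degree (aeval g (monomial m (1 : K))) (aeval l (monomial m (1 : K))) := by
  induction m using Finsupp.induction_linear with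
  | zero => simpa using SmdB_R_one
  | add m m' h1 h2 =>
    have := h1.mul h2
    rwa [← map_mul, ← map_mul, monomial_mul, mul_one, ← map_add] at this
  | single i k =>
    rw [← X_pow_eq_monomial, map_pow, map_pow, aeval_X, aeval_X, Finsupp.degree_single]
    induction k with
    | zero => simpa using SmdB_R_one
    | succ k ih =>
      rw [pow_succ, pow_succ]
      exact ih.mul (h i)

theorem SmdB_low {M : ℕ} {g l : Fin M → MvPowerSeries (Fin N) K} (h : ∀ i, SmdB_R 1 (g i) (l i))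
    {Q : MvPolynomial (Fin M) K} {e : ℕ} (he : ∀ m ∈ Q.support, e ≤ m.degree) :
    aeval g Q - aeval l (homogeneousComponent e Q) ∈ SmdB_Od K N (e + 1) := by
  have a : ∀ (m : Fin M →₀ ℕ) (c : K), monomial m c = c • monomial m (1 : K) := fun m c => by
    rw [smul_monomial, smul_eq_mul, mul_one]
  rw [homogeneousComponent_apply, Finset.sum_filter]
  nth_rewrite 1 [Q.as_sum]
  rw [map_sum, map_sum, ← Finset.sum_sub_distrib]
  refine Ideal.sum_mem _ fun m hm => ?_
  have := SmdB_R_mon h m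
  split_ifs with h1
  · rw [a m, map_smul, map_smul, ← smul_sub, ← h1]
    exact Submodule.smul_of_tower_mem _ _ this.2.2
  · rw [map_zero, sub_zero, a m, map_smul]
    exact Submodule.smul_of_tower_mem _ _ (SmdB_mono (by have := he m hm; omega) this.1)

theorem SmdB_indep (f : Fin N → MvPowerSeries (Fin N) K)
    (h : (Matrix.of fun i j => MvPowerSeries.coeff (Finsupp.single j 1) (f i)).det ≠ 0) :
    AlgebraicIndependent K f := by
  classical
  set M : Matrix (Fin N) (Fin N) K :=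
    Matrix.of fun i j => MvPowerSeries.coeff (Finsupp.single j 1) (f i) with hM
  let l : Fin N → MvPolynomial (Fin N) K := fun i => ∑ j, C (M i j) * X j
  let l' : Fin N → MvPolynomial (Fin N) K := fun i => ∑ j, C (M⁻¹ i j) * X j
  let c : Fin N → K := fun i => MvPowerSeries.constantCoeff (f i)
  let g : Fin N → MvPowerSeries (Fin N) K := fun i => f i - MvPowerSeries.C (c i)
  let co := coeToMvPowerSeries.algHom (σ := Fin N) (R := K) K
  have hco : ∀ P m, MvPowerSeries.coeff m (co P) = coeff m P := fun P m => by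
    simp [co, coeToMvPowerSeries.algHom_apply]
  have hl : ∀ i, (l i).IsHomogeneous 1 := fun i =>
    IsHomogeneous.sum _ _ _ fun j _ => isHomogeneous_C_mul_X _ _
  have h0 : ∀ i, MvPowerSeries.constantCoeff (co (l i)) = 0 := fun i => by
    rw [← MvPowerSeries.coeff_zero_eq_constantCoeff_apply, hco]
    exact (hl i).coeff_eq_zero (by simp)
  have h0' : ∀ i, MvPowerSeries.constantCoeff (g i) = 0 := fun i => by simp [g, c]
  have hR : ∀ i, SmdB_R 1 (g i) (co (l i)) := fun i => by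
    refine ⟨SmdB_one.2 (h0' i), SmdB_one.2 (h0 i), SmdB_two (by rw [map_sub, h0, h0', sub_zero])
      fun j => ?_⟩
    rw [map_sub, hco]
    simp only [g, l, map_sub, MvPowerSeries.coeff_C, coeff_sum, coeff_C_mul, coeff_X,
      Finsupp.single_left_inj one_ne_zero, mul_ite, mul_one, mul_zero, Finset.sum_ite_eq',
      Finset.mem_univ, if_true, Finsupp.single_eq_zero, one_ne_zero, if_false, sub_zero, hM,
      Matrix.of_apply, sub_self]
  have hinv : (aeval l').comp (aeval l) = AlgHom.id K (MvPolynomial (Fin N) K) := by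
    refine algHom_ext fun i => ?_
    have e := Matrix.mul_nonsing_inv M (IsUnit.mk0 _ h)
    simp only [AlgHom.comp_apply, aeval_X, AlgHom.id_apply, l, l', map_sum, map_mul, aeval_C,
      algebraMap_eq, Finset.mul_sum]
    simp only [← mul_assoc, ← C_mul]
    rw [Finset.sum_comm]
    simp only [← Finset.sum_mul, ← map_sum, ← Matrix.mul_apply, e, Matrix.one_apply,
      apply_ite C, C_1, C_0, ite_mul, one_mul, zero_mul, Finset.sum_ite_eq, Finset.mem_univ, if_true]
  have hg : ∀ Q : MvPolynomial (Fin N) K, aeval g Q = 0 → Q = 0 := by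
    intro Q hQ
    by_contra h1
    obtain ⟨m, hm, he⟩ := Finset.exists_min_image Q.support (fun m => m.degree)
      (support_nonempty.2 h1)
    have h2 := SmdB_low hR he
    have e0 : (aeval fun i => co (l i)) (homogeneousComponent m.degree Q) =
        co (aeval l (homogeneousComponent m.degree Q)) := by rw [← comp_aeval]; rfl
    rw [hQ, zero_sub, neg_mem_iff, e0] at h2
    have h3 := (homogeneousComponent_isHomogeneous m.degree Q).aeval l hl
    rw [one_mul] at h3
    have h4 : aeval l (homogeneousComponent m.degree Q) = 0 := by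
      ext m'
      by_cases e : m'.degree = m.degree
      · rw [← hco]
        exact h2 m' (by omega)
      · exact h3.coeff_eq_zero e
    have h5 := AlgHom.congr_fun hinv (homogeneousComponent m.degree Q)
    rw [AlgHom.comp_apply, h4, map_zero, AlgHom.id_apply] at h5
    have h6 := congrArg (coeff m) h5
    rw [coeff_homogeneousComponent, if_pos rfl, coeff_zero] at h6
    exact mem_support_iff.1 hm h6.symm
  rw [algebraicIndependent_iff]
  intro P hP
  have e1 : (aeval g).comp (aeval fun i => X i + C (c i)) = (aeval f : MvPolynomial (Fin N) K →ₐ[K] _) :=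
    algHom_ext fun i => by simp [g, MvPowerSeries.algebraMap_apply]
  have e2 : (aeval fun i => X i - C (c i)).comp (aeval fun i => X i + C (c i)) =
      AlgHom.id K (MvPolynomial (Fin N) K) := algHom_ext fun i => by simp
  have h1 : aeval (fun i => X i + C (c i)) P = 0 := hg _ ((AlgHom.congr_fun e1 P).trans hP)
  have h2 := AlgHom.congr_fun e2 P
  rw [AlgHom.comp_apply, h1, map_zero] at h2
  exact h2.symm

/-- independent vectors have a nonzero maximal minor -/
theorem SmdB_minor {I : Type} (δ : I → Fin N → K)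
    (h : ∀ c : Fin N → K, (∀ a, ∑ j, c j * δ a j = 0) → c = 0) :
    ∃ e : Fin N → I, (Matrix.of fun i j => δ (e i) j).det ≠ 0 := by
  classical
  have h1 : Submodule.span K (Set.range δ) = ⊤ := by
    by_contra h2
    obtain ⟨φ, h3, h4⟩ := Submodule.exists_le_ker_of_lt_top _ (lt_top_iff_ne_top.2 h2)
    have h5 : ∀ v : Fin N → K, φ v = ∑ j, φ (Pi.single j 1) * v j := fun v => by
      rw [LinearMap.pi_apply_eq_sum_univ]
      refine Finset.sum_congr rfl fun j _ => ?_
      rw [smul_eq_mul, mul_comm]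
      congr 2
      ext k
      simp [Pi.single_apply, eq_comm]
    have h6 := h (fun j => φ (Pi.single j 1)) fun a =>
      (h5 _).symm.trans (h4 (Submodule.subset_span ⟨a, rfl⟩))
    refine h3 (LinearMap.ext fun v => ?_)
    rw [h5]
    exact Finset.sum_eq_zero fun j _ => by rw [congrFun h6 j, Pi.zero_apply, zero_mul]
  obtain ⟨κ, a, -, h2, h3⟩ := exists_linearIndependent' K δ
  rw [h1] at h2
  let b := Module.Basis.mk h3 h2.ge
  let e := b.indexEquiv (Pi.basisFun K (Fin N))
  refine ⟨a ∘ e.symm, ?_⟩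
  have h4 : LinearIndependent K ((δ ∘ a) ∘ e.symm) := h3.comp _ e.symm.injective
  have h5 := (Matrix.linearIndependent_rows_iff_isUnit
    (A := Matrix.of fun i j => δ ((a ∘ e.symm) i) j)).1 h4
  exact ((Matrix.isUnit_iff_isUnit_det _).1 h5).ne_zero

end PR0
end

-- merged part: Pool.Agent.Work.MP_da2620_ag.Smd
section
/-!
# The chart has dimension at least `N = 2d + 2g - 2` at smooth points

Let `a j` be as in `exists_indep_der`, `Λ n = K[s₁, ..., s_N] / (s) ^ n`.  Let `Δ ∈ K[x]` be nonzero with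
`A[1 / Δ]` formally etale over `K[x]` (for a primitive element `y ∈ A`, `A[1/Δ] = K[x, 1/Δ][y] / (P)` with
`P'(y)` a unit; or use directly that `L` is formally etale over `K(x)` and that nonzero polynomials in a
lift of `x` are units of `LT ι (Λ n)`).  So for each nilpotent `ν` in the kernel of `LT ι (Λ n) → LT ι K`
there is a unique lift `θ_ν : L → LT ι (Λ n)` of `exT` with `θ_ν x = x + ν`.  The iteration
`ν ↦ - ∑ s j θ_ν (a j)` becomes stationary, giving a unique `θ n` with
`θ n x + ∑ s j θ n (a j) = x`, compatible in `n`.  The `Λ n`-span `A n` of `θ n A` is a chart point of type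
`J` (filter by powers of `(s)`), compatible in `n`; so the coordinates define a point with values in
`K[[s]]` lying on `cI`, with constant terms `coef A`.  Its linear terms: `s j` gives the tangent vector
with derivation `F ↦ - a j ∂ F` (`exists_tan_equiv`), and these are independent; so `N` of the coordinates
have independent linear terms, hence are algebraically independent (lowest degree forms).
-/

namespace PR0

universe u

set_option linter.unusedSectionVars false

section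
variable {K : Type u} [Field K] {ι : Type} [Fintype ι] [DecidableEq ι] {J : Finset (ι × ℕ)}
  {Λ Λ' : Type u} [CommRing Λ] [Algebra K Λ] [CommRing Λ'] [Algebra K Λ']

/-- The coefficientwise map as an algebra map. -/
noncomputable def Smd_map (ι : Type) [Fintype ι] [DecidableEq ι] (φ : Λ →ₐ[K] Λ') :
    LT ι Λ →ₐ[K] LT ι Λ' :=
  { mapT (φ : Λ →+* Λ') with
    commutes' := fun c => by
      rw [IsScalarTower.algebraMap_apply K Λ (LT ι Λ), IsScalarTower.algebraMap_apply K Λ' (LT ι Λ'),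
        ← φ.commutes]
      exact mapT_algebraMap _ _ }

theorem Smd_map_apply (φ : Λ →ₐ[K] Λ') (F : LT ι Λ) : Smd_map ι φ F = mapT (φ : Λ →+* Λ') F := rfl

theorem Smd_cf (φ : Λ →ₐ[K] Λ') (F : LT ι Λ) (i : ι) (n : ℤ) :
    (Smd_map ι φ F i).cf n = φ ((F i).cf n) := rfl

theorem Smd_surj (ε : Λ →ₐ[K] K) : Function.Surjective (Smd_map ι ε) := fun F =>
  ⟨Smd_map ι (Algebra.ofId K Λ) F, funext fun _ => LS.ext fun _ => ε.commutes _⟩

theorem Smd_nil {φ : Λ →ₐ[K] Λ'} (h : IsNilpotent (RingHom.ker φ)) :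
    IsNilpotent (RingHom.ker (Smd_map ι φ)) := by
  have key : ∀ m : ℕ, ∀ F ∈ RingHom.ker (Smd_map ι φ) ^ m, ∀ i n,
      (F i).cf n ∈ RingHom.ker φ ^ m := by
    intro m
    induction m with
    | zero => simp
    | succ m ih =>
      intro F hF
      rw [pow_succ] at hF
      refine Submodule.mul_induction_on hF (fun F hF G hG i n => ?_) fun F G hF hG i n => ?_
      · obtain ⟨a, ha⟩ := LS.exists_ge (F i)
        obtain ⟨b, hb⟩ := LS.exists_ge (G i)
        rw [Pi.mul_apply, LS.cf_mul ha hb, pow_succ]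
        refine Ideal.sum_mem _ fun k _ => Ideal.mul_mem_mul (ih F hF i k) ?_
        rw [RingHom.mem_ker, ← Smd_cf, RingHom.mem_ker.1 hG]
        rfl
      · rw [Pi.add_apply, LS.cf_add]
        exact add_mem (hF i n) (hG i n)
  obtain ⟨m, hm⟩ := h
  refine ⟨m, (Submodule.eq_bot_iff _).2 fun F hF => funext fun i => LS.ext fun n => ?_⟩
  have := key m F hF i n
  rwa [hm, Ideal.zero_eq_bot, Ideal.mem_bot] at this

theorem Smd_pc_sub (F G : LT ι Λ) (ν : ι × ℕ) : pc (F - G) ν = pc F ν - pc G ν := LS.cf_sub _ _ _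

theorem Smd_pc_add (F G : LT ι Λ) (ν : ι × ℕ) : pc (F + G) ν = pc F ν + pc G ν := LS.cf_add _ _ _

theorem Smd_pc_smul (c : Λ) (F : LT ι Λ) (ν : ι × ℕ) : pc (c • F) ν = c * pc F ν :=
  LS.cf_smul _ _ _

theorem Smd_pc_sum {α : Type} (S : Finset α) (F : α → LT ι Λ) (ν : ι × ℕ) :
    pc (∑ a ∈ S, F a) ν = ∑ a ∈ S, pc (F a) ν := by
  rw [pc, Finset.sum_apply, LS.cf_sum]
  rfl

theorem Smd_pc_one (ν : ι × ℕ) : pc (1 : LT ι Λ) ν = 0 := by
  rw [pc, Pi.one_apply, ← LS.T_zero, LS.cf_T, if_neg (by omega)]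

theorem Smd_approx {A : Subalgebra Λ (LT ι Λ)} {M : Ideal Λ} {v : ι × ℕ → LT ι Λ}
    (hv : ∀ μ, v μ ∈ A) (h : ∀ μ, μ ∉ J → ∀ ν, ν ∉ J → pc (v μ) ν - (if ν = μ then 1 else 0) ∈ M)
    (m : ℕ) (F : LT ι Λ) : ∃ a ∈ A, ∀ ν, ν ∉ J → pc (F - a) ν ∈ M ^ m := by
  induction m with
  | zero => exact ⟨0, zero_mem _, by simp⟩
  | succ m ih =>
    obtain ⟨a, ha, h1⟩ := ih
    refine ⟨a + ∑ μ ∈ (finite_pc (F - a)).toFinset.filter (· ∉ J), pc (F - a) μ • v μ,
      add_mem ha (sum_mem fun μ _ => A.smul_mem (hv μ) _), fun ν hν => ?_⟩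
    have e : pc (F - a) ν = ∑ μ ∈ (finite_pc (F - a)).toFinset.filter (· ∉ J),
        pc (F - a) μ * (if ν = μ then 1 else 0) := by
      simp only [mul_ite, mul_one, mul_zero, Finset.sum_ite_eq]
      split_ifs with h2
      · rfl
      · exact not_not.1 fun h3 => h2
          (Finset.mem_filter.2 ⟨(finite_pc (F - a)).mem_toFinset.2 h3, hν⟩)
    rw [← sub_sub, Smd_pc_sub, Smd_pc_sum, e, ← Finset.sum_sub_distrib, pow_succ]
    refine Ideal.sum_mem _ fun μ hμ => ?_
    have h2 := (Finset.mem_filter.1 hμ).2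
    rw [Smd_pc_smul, ← mul_sub]
    exact Ideal.mul_mem_mul (h1 μ h2) (sub_mem_comm_iff.1 (h μ h2 ν hν))

variable {L : Type u} [Field L] [Algebra K L] {N : ℕ}

/-- The algebra spanned by the image of the affine ring. -/
noncomputable def Smd_A (d : CD K L ι) (θ : L →ₐ[K] LT ι Λ) : Subalgebra Λ (LT ι Λ) :=
  Algebra.adjoin Λ (θ '' d.reg)

theorem Smd_mem {d : CD K L ι} {θ : L →ₐ[K] LT ι Λ} {f : L} (h : f ∈ d.reg) : θ f ∈ Smd_A d θ :=
  Algebra.subset_adjoin ⟨f, h, rfl⟩

theorem Smd_span {d : CD K L ι} {θ : L →ₐ[K] LT ι Λ} {F : LT ι Λ} (h : F ∈ Smd_A d θ) :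
    F ∈ Submodule.span Λ (θ '' d.reg) := by
  have e : Submonoid.closure (θ '' d.reg) = (d.reg.map θ).toSubmonoid :=
    Submonoid.closure_eq (d.reg.map θ).toSubmonoid
  have h1 : F ∈ (Smd_A d θ).toSubmodule := h
  rwa [Smd_A, Algebra.adjoin_eq_span, e] at h1

theorem Smd_bc (d : CD K L ι) (θ : L →ₐ[K] LT ι Λ) (φ : Λ →ₐ[K] Λ') :
    bc (φ : Λ →+* Λ') (Smd_A d θ) = Smd_A d ((Smd_map ι φ).comp θ) := by
  refine le_antisymm (Algebra.adjoin_le ?_) (Algebra.adjoin_le ?_)
  · rintro _ ⟨F, hF, rfl⟩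
    have h1 := Smd_span hF
    clear hF
    induction h1 using Submodule.span_induction with
    | mem F hF =>
      obtain ⟨f, hf, rfl⟩ := hF
      exact Smd_mem (θ := (Smd_map ι φ).comp θ) hf
    | zero => rw [map_zero]; exact zero_mem _
    | add F G _ _ h1 h2 => rw [map_add]; exact add_mem h1 h2
    | smul c F _ h1 => rw [mapT_smul]; exact Subalgebra.smul_mem _ h1 _
  · rintro _ ⟨f, hf, rfl⟩
    exact Algebra.subset_adjoin ⟨θ f, Smd_mem hf, rfl⟩

theorem Smd_A_exT (d : CD K L ι) : Smd_A d d.exT = d.alg := Algebra.adjoin_eq d.alg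

/-- The deformation with parameters `s`. -/
structure Smd_Df (d : CD K L ι) (a : Fin N → L) (ε : Λ →ₐ[K] K) (s : Fin N → Λ)
    (θ : L →ₐ[K] LT ι Λ) : Prop where
  nil : IsNilpotent (RingHom.ker ε)
  zero : ∀ j, ε (s j) = 0
  red : ∀ f, Smd_map ι ε (θ f) = d.exT f
  eq : θ d.x + ∑ j, algebraMap Λ (LT ι Λ) (s j) * θ (a j) = xx ι Λ

variable [IsAlgClosed K] [Nonempty ι] [Fact (IsFF K L)] {d : CD K L ι} {a : Fin N → L}
  {ε : Λ →ₐ[K] K} {s : Fin N → Λ} {θ θ' : L →ₐ[K] LT ι Λ}

theorem Smd_exists (d : CD K L ι) (a : Fin N → L) (hn : IsNilpotent (RingHom.ker ε))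
    (hs : ∀ j, ε (s j) = 0) : ∃ θ, Smd_Df d a ε s θ := by
  have := d.isSeparable
  obtain ⟨θ, h1, h2⟩ := SmdA_fix d.transcendental (Smd_surj ε) (Smd_nil hn) d.exT (b := xx ι Λ)
    ((mapT_xx _).trans d.exT_x.symm) (s := fun j => algebraMap Λ (LT ι Λ) (s j))
    (fun j => (mapT_algebraMap _ _).trans (by rw [RingHom.coe_coe, hs, map_zero])) a
  exact ⟨θ, hn, hs, h1, h2⟩

theorem Smd_Df.unique (h : Smd_Df d a ε s θ) (h' : Smd_Df d a ε s θ') : θ = θ' := by
  have := d.isSeparable
  exact SmdA_fix_unique (x := d.x) (Smd_nil (ι := ι) h.nil)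
    (fun y => by rw [RingHom.mem_ker, map_sub, h.red, h'.red, sub_self])
    (s := fun j => algebraMap Λ (LT ι Λ) (s j))
    (fun j => (mapT_algebraMap _ _).trans (by rw [RingHom.coe_coe, h.zero, map_zero]))
    (h.eq.trans h'.eq.symm)

omit [IsAlgClosed K] [Nonempty ι] [Fact (IsFF K L)] in
theorem Smd_Df.map (h : Smd_Df d a ε s θ) (φ : Λ →ₐ[K] Λ') {ε' : Λ' →ₐ[K] K}
    (hn : IsNilpotent (RingHom.ker ε')) (he : ∀ c, ε' (φ c) = ε c) :
    Smd_Df d a ε' (fun j => φ (s j)) ((Smd_map ι φ).comp θ) where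
  nil := hn
  zero j := (he _).trans (h.zero j)
  red f := (funext fun _ => LS.ext fun _ => he _).trans (h.red f)
  eq := by
    have := congrArg (Smd_map ι φ) h.eq
    rw [map_add, map_sum, Smd_map_apply φ (xx ι Λ), mapT_xx] at this
    rw [← this]
    congr 1
    refine Finset.sum_congr rfl fun j _ => ?_
    rw [map_mul, Smd_map_apply φ (algebraMap _ _ _), mapT_algebraMap]
    rfl

theorem Smd_Df.chart (h : Smd_Df d a ε s θ) (hA : IsChart J d.alg) (ha : ∀ j, a j ∈ d.reg) :
    IsChart J (Smd_A d θ) := by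
  obtain ⟨i₀⟩ := (inferInstance : Nonempty ι)
  choose y hy hy' using fun μ => hA.chi_mem i₀ μ
  replace hy' : ∀ μ, d.exT (y μ) = chi i₀ J d.alg μ := hy'
  have h0 : ∀ μ ∈ J, y μ = 0 := fun μ hμ =>
    d.exT_injective (by rw [hy', chi, if_pos hμ, map_zero])
  have h1 : ∀ μ, μ ∉ J → ∀ ν, ν ∉ J →
      pc (θ (y μ)) ν - (if ν = μ then 1 else 0) ∈ RingHom.ker ε := fun μ hμ ν hν => by
    have := pc_mapT (ε : Λ →+* K) (θ (y μ)) ν
    rw [← Smd_map_apply, h.red, hy', hA.pc_chi i₀ hμ hν, RingHom.coe_coe] at this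
    rw [RingHom.mem_ker, map_sub, ← this, apply_ite ε, map_one, map_zero, sub_self]
  obtain ⟨n, hn⟩ := h.nil
  refine ⟨?_, fun F hF hF' => ?_, fun μ hμ => ?_⟩
  · rw [← h.eq]
    exact add_mem (Smd_mem d.x_mem)
      (sum_mem fun j _ => mul_mem (Subalgebra.algebraMap_mem _ _) (Smd_mem (ha j)))
  · have h2 : Submodule.span Λ (θ '' d.reg) ≤
        Submodule.span Λ (insert 1 (Set.range fun μ => θ (y μ))) := by
      refine Submodule.span_le.2 ?_
      rintro _ ⟨f, hf, rfl⟩
      obtain ⟨c, hc⟩ := (hA.mem_iff i₀).1 (⟨f, hf, rfl⟩ : d.exT f ∈ d.alg)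
      have e : f = algebraMap K L c +
          ∑ μ ∈ (finite_pc (d.exT f)).toFinset, pc (d.exT f) μ • y μ :=
        d.exT_injective (by simpa only [map_add, map_sum, map_smul, hy', AlgHom.commutes] using hc)
      rw [e, map_add, map_sum, AlgHom.commutes, Algebra.algebraMap_eq_smul_one]
      refine add_mem (Submodule.smul_of_tower_mem _ _ (Submodule.subset_span (Or.inl rfl)))
        (sum_mem fun μ _ => ?_)
      rw [map_smul]
      exact Submodule.smul_of_tower_mem _ _ (Submodule.subset_span (Or.inr ⟨μ, rfl⟩))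
    obtain ⟨c, z, hz, rfl⟩ := Submodule.mem_span_insert.1 (h2 (Smd_span hF))
    obtain ⟨w, rfl⟩ := Finsupp.mem_span_range_iff_exists_finsupp.1 hz
    have key : ∀ m : ℕ, ∀ ν, ν ∉ J → w ν ∈ RingHom.ker ε ^ m := by
      intro m
      induction m with
      | zero => simp
      | succ m ih =>
        intro ν hν
        have e := hF' ν hν
        rw [Smd_pc_add, Smd_pc_smul, Smd_pc_one, mul_zero, zero_add, Finsupp.sum, Smd_pc_sum] at e
        have e' : w ν = ∑ μ ∈ w.support, w μ * (if ν = μ then 1 else 0) := by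
          simp only [mul_ite, mul_one, mul_zero, Finset.sum_ite_eq]
          split_ifs with h3
          · rfl
          · exact Finsupp.notMem_support_iff.1 h3
        rw [← neg_mem_iff, ← zero_sub, ← e, e', ← Finset.sum_sub_distrib, pow_succ]
        refine Ideal.sum_mem _ fun μ _ => ?_
        rw [Smd_pc_smul, ← mul_sub]
        by_cases hμ : μ ∈ J
        · rw [h0 μ hμ, map_zero, if_neg (fun e : ν = μ => hν (e ▸ hμ)), sub_zero]
          exact (mul_zero (w μ)).symm ▸ zero_mem _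
        · exact Ideal.mul_mem_mul (ih μ hμ) (h1 μ hμ ν hν)
    refine ⟨c, ?_⟩
    rw [Algebra.algebraMap_eq_smul_one, add_eq_left]
    refine Finset.sum_eq_zero fun μ _ => ?_
    beta_reduce
    by_cases hμ : μ ∈ J
    · rw [h0 μ hμ, map_zero, smul_zero]
    · have := key n μ hμ
      rw [hn, Ideal.zero_eq_bot, Ideal.mem_bot] at this
      rw [this, zero_smul]
  · obtain ⟨F, hF, h2⟩ := Smd_approx (fun μ => Smd_mem (hy μ)) h1 n (pm Λ μ)
    refine ⟨F, hF, fun ν hν => ?_⟩
    have := h2 ν hν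
    rw [hn, Ideal.zero_eq_bot, Ideal.mem_bot, Smd_pc_sub, sub_eq_zero, pc_pm] at this
    exact this.symm

/-- The componentwise derivative. -/
noncomputable def Smd_D (F : LT ι K) : LT ι K := fun i => LS.dx (F i)

theorem Smd_D_mul (F G : LT ι K) : Smd_D (F * G) = F * Smd_D G + G * Smd_D F :=
  funext fun i => LS.dx.leibniz (F i) (G i)

theorem Smd_D_add (F G : LT ι K) : Smd_D (F + G) = Smd_D F + Smd_D G :=
  funext fun i => LS.dx.map_add (F i) (G i)

theorem Smd_D_C (c : K) : Smd_D (algebraMap K (LT ι K) c) = 0 :=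
  funext fun _ => LS.dx.map_algebraMap c

open TrivSqZeroExt in
/-- A first order deformation that is trivial as a chart point comes from a regular vector field. -/
theorem Smd_first (hA : IsChart J d.alg) (ha : ∀ j, a j ∈ d.reg) {c : Fin N → K}
    {θ : L →ₐ[K] LT ι (TrivSqZeroExt K K)}
    (h : Smd_Df d a (fstHom K K K) (fun j => inr (c j)) θ) (i₀ : ι)
    (e : ∀ b, coef i₀ J (Smd_A d θ) b = inl (coef i₀ J d.alg b)) {F : LT ι K} (hF : F ∈ d.alg) :
    (∑ j, c j • d.exT (a j)) * Smd_D F ∈ d.alg := by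
  set α := ∑ j, c j • d.exT (a j) with hα
  let φ := Smd_map ι (inlAlgHom K K K)
  let E := algebraMap (TrivSqZeroExt K K) (LT ι (TrivSqZeroExt K K)) (inr 1)
  have hE : E * E = 0 := by rw [← map_mul, inr_mul_inr, map_zero]
  have hD0 : Smd_D (0 : LT ι K) = 0 := by simpa using Smd_D_C (ι := ι) (0 : K)
  have hD1 : Smd_D (1 : LT ι K) = 0 := by simpa using Smd_D_C (ι := ι) (1 : K)
  let θ' : L →ₐ[K] LT ι (TrivSqZeroExt K K) :=
    { toFun f := φ (d.exT f) - E * φ (α * Smd_D (d.exT f))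
      map_one' := by simp [hD1]
      map_mul' f g := by
        simp only [map_mul, map_add, Smd_D_mul]
        linear_combination (-φ α ^ 2 * φ (Smd_D (d.exT f)) * φ (Smd_D (d.exT g))) * hE
      map_zero' := by simp [hD0]
      map_add' f g := by
        simp only [map_mul, map_add, Smd_D_add]
        ring
      commutes' c := by simp [Smd_D_C] }
  have hθ : ∀ f, θ' f = φ (d.exT f) - E * φ (α * Smd_D (d.exT f)) := fun _ => rfl
  have h1 : Smd_map ι (fstHom K K K) E = 0 := (mapT_algebraMap _ _).trans (map_zero _)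
  have h2 : Smd_Df d a (fstHom K K K) (fun j => inr (c j)) θ' := by
    refine ⟨h.nil, h.zero, fun f => ?_, ?_⟩
    · rw [hθ, map_sub, map_mul, h1, zero_mul, sub_zero]
      rfl
    · have e1 : ∀ j, algebraMap (TrivSqZeroExt K K) (LT ι (TrivSqZeroExt K K)) (inr (c j)) *
          θ' (a j) = E * φ (c j • d.exT (a j)) := fun j => by
        have e2 : algebraMap (TrivSqZeroExt K K) (LT ι (TrivSqZeroExt K K)) (inr (c j)) =
            E * algebraMap K _ (c j) := by
          rw [IsScalarTower.algebraMap_apply K (TrivSqZeroExt K K) (LT ι _), ← map_mul]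
          congr 1
          ext <;> simp [algebraMap_eq_inl]
        rw [e2, hθ, map_smul, Algebra.smul_def]
        linear_combination (-(algebraMap K _ (c j)) * φ (α * Smd_D (d.exT (a j)))) * hE
      have e3 : Smd_D (xx ι K) = 1 := funext fun _ => LS.dx_T
      rw [Finset.sum_congr rfl fun j _ => e1 j, ← Finset.mul_sum, ← map_sum, hθ, d.exT_x, e3,
        mul_one, sub_add_cancel]
      exact mapT_xx _
  have hB := hA.bc (inlAlgHom K K K : K →+* TrivSqZeroExt K K)
  have h3 : Smd_A d θ = bc (inlAlgHom K K K : K →+* TrivSqZeroExt K K) d.alg :=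
    (h.chart hA ha).eq_of_coef i₀ hB (by rw [hA.coef_bc]; exact funext e)
  have h4 : ∀ G ∈ d.alg, φ G ∈ Smd_A d θ := fun G hG =>
    h3 ▸ Algebra.subset_adjoin ⟨G, hG, rfl⟩
  obtain ⟨f, hf, rfl⟩ := hF
  have h5 : θ' f ∈ Smd_A d θ := h.unique h2 ▸ Smd_mem hf
  obtain ⟨G, hG, h6⟩ := Smd_approx (M := ⊥) (J := J) (hA.chi_mem i₀)
    (fun μ hμ ν hν => by rw [hA.pc_chi i₀ hμ hν, sub_self]; exact zero_mem _) 1
    (α * Smd_D (d.exT f))
  have h7 : E * φ (α * Smd_D (d.exT f) - G) ∈ Smd_A d θ := by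
    have := sub_mem (sub_mem (h4 _ ⟨f, hf, rfl⟩) h5)
      (mul_mem (Subalgebra.algebraMap_mem _ (inr 1)) (h4 G hG))
    rw [hθ] at this
    convert this using 1
    rw [map_sub]
    change _ = φ (d.exT f) - _ - E * _
    ring
  obtain ⟨c', h8⟩ := (h.chart hA ha).inj _ h7 fun ν hν => by
    have := h6 ν hν
    rw [pow_one, Ideal.mem_bot] at this
    rw [← Algebra.smul_def, Smd_pc_smul, Smd_map_apply, pc_mapT, this, map_zero, mul_zero]
  have h9 : α * Smd_D (d.exT f) - G = algebraMap K _ c'.snd := by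
    refine funext fun i => LS.ext fun n => ?_
    have := congrArg (fun F : LT ι (TrivSqZeroExt K K) => ((F i).cf n).snd) h8
    simp only [E, ← Algebra.smul_def, Pi.smul_apply, LS.cf_smul, φ, Smd_cf, Pi.algebraMap_apply,
      LS.cf_algebraMap, apply_ite snd] at this ⊢
    simpa using this
  rw [sub_eq_iff_eq_add] at h9
  exact h9 ▸ add_mem (Subalgebra.algebraMap_mem _ _) hG

/-- The constant term. -/
noncomputable def Smd_cc (K : Type u) [Field K] (N : ℕ) : MvPowerSeries (Fin N) K →ₐ[K] K :=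
  { MvPowerSeries.constantCoeff with commutes' := fun c => MvPowerSeries.constantCoeff_C c }

/-- The constant term on truncated series. -/
noncomputable def Smd_eps (K : Type u) [Field K] (N n : ℕ) :
    (MvPowerSeries (Fin N) K ⧸ SmdB_Od K N (n + 1)) →ₐ[K] K :=
  Ideal.Quotient.liftₐ _ (Smd_cc K N) fun _ h => SmdB_one.1 (SmdB_mono (by omega) h)

theorem Smd_eps_nil (n : ℕ) : IsNilpotent (RingHom.ker (Smd_eps K N n)) := by
  have h1 : RingHom.ker (Smd_eps K N n) ≤ (SmdB_Od K N 1).map (Ideal.Quotient.mk _) := by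
    intro F hF
    obtain ⟨F, rfl⟩ := Ideal.Quotient.mk_surjective F
    exact Ideal.mem_map_of_mem _ (SmdB_one.2 hF)
  refine ⟨n + 1, le_bot_iff.1 ((Ideal.pow_right_mono h1 _).trans ?_)⟩
  rw [← Ideal.map_pow]
  exact (Ideal.map_mono (SmdB_pow _)).trans (Ideal.map_quotient_self _).le

theorem Smd_lin (j : Fin N) (F G : MvPowerSeries (Fin N) K) :
    MvPowerSeries.coeff (Finsupp.single j 1) (F * G) =
      MvPowerSeries.constantCoeff F * MvPowerSeries.coeff (Finsupp.single j 1) G +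
        MvPowerSeries.constantCoeff G * MvPowerSeries.coeff (Finsupp.single j 1) F := by
  have h := SmdB_mul (F := F - MvPowerSeries.C (MvPowerSeries.constantCoeff F))
    (G := G - MvPowerSeries.C (MvPowerSeries.constantCoeff G)) (SmdB_one.2 (by simp))
    (SmdB_one.2 (by simp)) (Finsupp.single j 1) (by simp)
  rw [sub_mul, mul_sub, mul_sub, ← map_mul] at h
  simp only [map_sub, MvPowerSeries.coeff_C_mul, MvPowerSeries.coeff_mul_C, MvPowerSeries.coeff_C,
    Finsupp.single_eq_zero, one_ne_zero, if_false] at h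
  linear_combination h

open TrivSqZeroExt in
/-- A tangent vector at the origin. -/
noncomputable def Smd_tv (c : Fin N → K) : MvPowerSeries (Fin N) K →ₐ[K] TrivSqZeroExt K K where
  toFun F := inl (MvPowerSeries.constantCoeff F) +
    inr (∑ j, c j * MvPowerSeries.coeff (Finsupp.single j 1) F)
  map_one' := by ext <;> simp [MvPowerSeries.coeff_one]
  map_mul' F G := by
    ext
    · simp
    · simp only [Smd_lin, mul_add, Finset.sum_add_distrib, mul_left_comm (c _), ← Finset.mul_sum]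
      simp [mul_comm, add_comm]
  map_zero' := by simp
  map_add' F G := by ext <;> simp [mul_add, Finset.sum_add_distrib]
  commutes' a := by
    ext <;> simp [MvPowerSeries.algebraMap_apply, MvPowerSeries.coeff_C, algebraMap_eq_inl]

open TrivSqZeroExt in
theorem Smd_formal (hA : IsChart J d.alg) (ha : ∀ j, a j ∈ d.reg) (i₀ : ι) :
    ∃ c₀ : Idx ι → MvPowerSeries (Fin N) K, On (cI K i₀ J) c₀ ∧
      (∀ b, Smd_cc K N (c₀ b) = coef i₀ J d.alg b) ∧ ∀ c : Fin N → K,
        (∀ b, ∑ j, c j * MvPowerSeries.coeff (Finsupp.single j 1) (c₀ b) = 0) →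
          ∀ F ∈ d.alg, (∑ j, c j • d.exT (a j)) * Smd_D F ∈ d.alg := by
  choose θ hθ using fun n => Smd_exists (ε := Smd_eps K N n)
    (s := fun j => Ideal.Quotient.mk _ (MvPowerSeries.X j)) d a (Smd_eps_nil n)
    fun j => MvPowerSeries.constantCoeff_X j
  have hc := fun n => (hθ n).chart hA ha
  choose v hv using fun n b => Ideal.Quotient.mk_surjective (coef i₀ J (Smd_A d (θ n)) b)
  have h1 : ∀ n b, v (n + 1) b - v n b ∈ SmdB_Od K N (n + 1) := fun n b => by
    let φ := Ideal.Quotient.factorₐ K (SmdB_mono (K := K) (N := N) (Nat.le_succ (n + 1)))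
    have e := ((hθ (n + 1)).map φ (Smd_eps_nil n) fun c => by
      obtain ⟨c, rfl⟩ := Ideal.Quotient.mk_surjective c
      rfl).unique (hθ n)
    rw [← Ideal.Quotient.eq, hv, ← e, ← Smd_bc, (hc _).coef_bc]
    exact congrArg φ (hv (n + 1) b)
  choose c₀ h2 using fun b => SmdB_lim (fun n => v n b) fun n => SmdB_mono n.le_succ (h1 n b)
  have h3 : ∀ n b, Ideal.Quotient.mkₐ K (SmdB_Od K N (n + 1)) (c₀ b) =
      coef i₀ J (Smd_A d (θ n)) b := fun n b => by
    have := add_mem (h2 b (n + 1)) (h1 n b)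
    rw [sub_add_sub_cancel] at this
    exact (Ideal.Quotient.eq.2 this).trans (hv n b)
  have h4 : ∀ b, Smd_cc K N (c₀ b) = coef i₀ J d.alg b := fun b => by
    have e : (Smd_map ι (Smd_eps K N 0)).comp (θ 0) = d.exT := AlgHom.ext (hθ 0).red
    rw [← Smd_A_exT, ← e, ← Smd_bc, (hc _).coef_bc]
    exact congrArg (Smd_eps K N 0) (h3 0 b)
  refine ⟨c₀, fun f hf => SmdB_zero fun n => SmdB_mono n.le_succ ?_, h4, fun c h5 F hF => ?_⟩
  · rw [← Ideal.Quotient.eq_zero_iff_mem, ← Ideal.Quotient.mkₐ_eq_mk K,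
      MvPolynomial.comp_aeval_apply, funext (h3 n)]
    exact (hc n).on i₀ f hf
  · let π : (MvPowerSeries (Fin N) K ⧸ SmdB_Od K N 2) →ₐ[K] TrivSqZeroExt K K :=
      Ideal.Quotient.liftₐ _ (Smd_tv c) fun F hF => by
        have a1 : MvPowerSeries.constantCoeff F = 0 := SmdB_one.1 (SmdB_mono (by omega) hF)
        have a2 : ∀ j, MvPowerSeries.coeff (Finsupp.single j 1) F = 0 := fun j => hF _ (by simp)
        simp [Smd_tv, a1, a2]
    have hn : IsNilpotent (RingHom.ker (fstHom K K K)) := by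
      refine ⟨2, le_bot_iff.1 ?_⟩
      rw [Submodule.pow_succ, Submodule.pow_succ, Submodule.pow_zero, Ideal.one_eq_top, Ideal.top_mul]
      refine Ideal.mul_le.2 fun x hx y hy => ?_
      have a1 : x.fst = 0 := hx
      have a2 : y.fst = 0 := hy
      rw [Ideal.mem_bot]
      ext <;> simp [a1, a2]
    have h6 := (hθ 1).map π hn fun x => by
      obtain ⟨x, rfl⟩ := Ideal.Quotient.mk_surjective x
      change (Smd_tv c x).fst = MvPowerSeries.constantCoeff x
      simp [Smd_tv]
    have e : (fun j => π (Ideal.Quotient.mk _ (MvPowerSeries.X j))) = fun j => inr (c j) := by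
      funext j
      change Smd_tv c (MvPowerSeries.X j) = _
      simp [Smd_tv, MvPowerSeries.coeff_X, Finsupp.single_left_inj]
    rw [e] at h6
    refine Smd_first hA ha h6 i₀ (fun b => ?_) hF
    rw [← Smd_bc, (hc _).coef_bc, ← h4]
    refine (congrArg π (h3 1 b)).symm.trans ?_
    change Smd_tv c (c₀ b) = inl (MvPowerSeries.constantCoeff (c₀ b))
    simp [Smd_tv, h5]

end

variable {K : Type u} [Field K] [IsAlgClosed K] {ι : Type} [Fintype ι] [DecidableEq ι] [Nonempty ι]
  {J : Finset (ι × ℕ)}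

theorem indep_of_linear {N : ℕ} (f : Fin N → MvPowerSeries (Fin N) K)
    (h : (Matrix.of fun i j => MvPowerSeries.coeff (Finsupp.single j 1) (f i)).det ≠ 0) :
    AlgebraicIndependent K f := SmdB_indep f h

theorem smd (p : ℕ) [Fact p.Prime] [CharP K p] {L : Type u} [Field L] [Algebra K L] [Fact (IsFF K L)]
    (d : CD K L ι) (h : IsChart J d.alg) (hJ : ∀ ν ∈ J, ν.2 < 1) (i₀ : ι) :
    ∃ (Ω : Type u) (_ : Field Ω) (_ : Algebra K Ω) (c : Idx ι → Ω), On (cI K i₀ J) c ∧
      Spc K c (coef i₀ J d.alg) ∧ ((2 * Fintype.card ι + 2 * J.card : ℕ) : ℕ∞) ≤ dm K c + 2 := by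
  obtain ⟨N, hN⟩ : ∃ N, N + 2 = 2 * Fintype.card ι + 2 * J.card :=
    ⟨2 * Fintype.card ι + 2 * J.card - 2, by have := Fintype.card_pos (α := ι); omega⟩
  obtain ⟨a', ha', h1⟩ := d.exists_indep_der h hJ hN
  choose a ha e using ha'
  obtain rfl : (fun j => d.exT (a j)) = a' := funext e
  obtain ⟨c₀, h2, h3, h4⟩ := Smd_formal h ha i₀
  obtain ⟨e, h5⟩ := SmdB_minor (fun b j => MvPowerSeries.coeff (Finsupp.single j 1) (c₀ b))
    fun c hc => h1 c (h4 c hc)
  let φ := IsScalarTower.toAlgHom K (MvPowerSeries (Fin N) K)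
    (FractionRing (MvPowerSeries (Fin N) K))
  have hφ : Function.Injective φ := IsFractionRing.injective _ _
  refine ⟨FractionRing (MvPowerSeries (Fin N) K), inferInstance, inferInstance, fun b => φ (c₀ b),
    h2.spc (Spc.map c₀ φ), (Spc.of_map c₀ φ hφ).trans (funext h3 ▸ Spc.map c₀ (Smd_cc K N)), ?_⟩
  have h6 := le_rk_of_indep (s := Set.range fun b => φ (c₀ b))
    ((indep_of_linear (fun i => c₀ (e i)) h5).map' hφ) fun i =>
      isAlgebraic_algebraMap (⟨_, Algebra.subset_adjoin ⟨e i, rfl⟩⟩ :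
        Algebra.adjoin K (Set.range fun b => φ (c₀ b)))
  rw [← hN, Nat.cast_add]
  exact add_le_add h6 le_rfl

end PR0
end
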