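import Pool.Agent.Work.MP_da2620_ag.StarTB

/-!
# Local uniqueness at a star

Choose the chart by `exists_cc` (unramified at the nodes, degrees `≥ 2`) and `exists_chart_simple`; by
`isChart_iff` and `card_eq`, `J` has exactly one element `v_w` on each component `w : Option T`.  On each
component Frobenius is zero on the one dimensional `H¹`, so `v_w ^ p = h_w + regular` with
`h_w ∈ c.reg` equal to a function `f_w` on the component `w` and constant on the others.  So the
Hasse-Witt matrix vanishes at the point, and by `exists_tan_equiv` its derivative in the direction `D`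
has columns `- cls (D h_w)`.  Classes are computed componentwise: every class is represented in the
total ring `X.Fn`; `D` takes values in `X.Fn / reg` since it is killed by a nonzero polynomial in `x`
(or argue with `LT` directly).  At the node `j` take `u, v ∈ reg` with `u = (x - x(node j)) s` on the core
and `0` on all tails up to ..., more precisely `u` vanishes on the tail `j` and is a uniformiser at `a j`,
`v` vanishes on the core and on the other tails and is a uniformiser at `b j`; from `u v' = 0` one gets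
that the core component of `D v` and the tail component of `D u` have simple poles at the node with
the same normalised residue `b_j(D)`, a linear form.  On a genus one curve a function with a simple pole at
one finite point and regular at the other finite points has a nonzero class (`ell_single`), depending
linearly on the residue.  `∂ f_w` does not vanish at the nodes: `η = ∂ f_w ≠ 0` (else `f_w` is a `p`-th power
and `v_w` has trivial class) vanishes to order `≥ 2` at the `d_w` poles, ... use: the divisor of `η` has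
degree zero, its poles are bounded by the different of degree `2 d_w` (from `finrank_DerQ_le` /
`exists_indep_der` for the component, or: `H¹` of the fractional ideal generated by `η` with
regularity at infinity is `H¹(E)` for the divisor `E = ∑ ord_∞ η` of degree `≥ 2 d_w`; any other proof
that `d f_w` has no zero at a given point: if `f - f(P)` vanishes to order `2` at `P`, where `f` has a pole
of order exactly `p` at one point only ... alternatively choose the attaching points generically is NOT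
allowed, the statement is for all points).  A clean proof: residue pairing or Riemann-Hurwitz for the
degree: let `R = {a | a ∂ A ⊆ A}`, `dim A / R ≤ 2 d_w` by `finrank_DerQ_le` (`a ↦ (F ↦ a ∂ F)` is injective
on `A / R`), so `∑_P max_(F ∈ A) (- ord_P ∂ F) ≤ 2 d_w`; with `deg (η) = 0` all inequalities are equalities,
and at a point where `x` is unramified `ord_P η = 0`.
Surjectivity of `π`: diagonal directions `D(f) = (a ∂ f_w on w, 0 elsewhere)` with `a` vanishing at the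
nodes of `w`; node directions: the derivation `D(f) = s ^ 2 · E(f)`, where near the node `j`, with
`X = x - x(node)`, `E (f₀, f_j) = ((f₀ - f_j(node)) / X ^ 2 ...` or use dimension counting: by
`finrank_DerQ_le`-type presentation `A[1/m] = K[x, 1/m][y] / (P)`, `D y = 1 / P'(y)` localised at the node;
explicitly, writing `∂` for `d/dx` on both branches and `r(f) = ∂ f₀(a j) - ∂ f_j(b j)`,
`r₂(f) =` (second Hasse coefficient of `f₀` at `a j`) `-` (that of `f_j` at `b j`), the map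
`D f = r(f) (1/X, -1/X) + 2 r₂(f) (1, 0)` modulo the local ring of the node is a derivation killing `x`.
Finally apply `cone` with `arrow_cone` and `ConeHyp.reindex`.
-/

namespace PR0

universe u

variable {k : Type u} [Field k] [IsAlgClosed k] {T : Type} [Fintype T]

section comp

variable {L : Type u} [Field L] [Algebra k L] [Fact (IsFF k L)] {ι : Type} [Fintype ι]
  [DecidableEq ι] {d : CD k L ι} {J : Finset (ι × ℕ)}

/-- if `d f` vanishes at `P` then it has no residue against `s` -/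
theorem StarT_Nd.rs_zero {P : Place k L} {s : L} {r : L →ₗ[k] k} (h : StarT_Nd d P s r)
    (hJ : IsChart J d.alg) (i₀ : ι) {f : L} (hf : f ∈ d.reg) (h0 : r f = 0) :
    StarT_rs (d.exT f) (d.exT s) = 0 := by
  have hm : ∀ g ∈ d.reg, d.exT g ∈ d.alg := fun g hg => ⟨g, hg, rfl⟩
  have hu : f - algebraMap k L (P.val f) ∈ d.reg := sub_mem hf (algebraMap_mem _ _)
  have hX : d.x - algebraMap k L (P.val d.x) ∈ d.reg := sub_mem d.x_mem (algebraMap_mem _ _)
  have hw := h.mem hf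
  have hy := sub_mem (one_mem d.reg) (h.mem d.x_mem)
  have hy0 : P.val (1 - s * (d.x - algebraMap k L (P.val d.x))) = 0 := by
    have h1 := P.val_add (h.mem_P hy) (h.memP h.fin)
    have h2 := P.val_const 1
    rw [map_one] at h2
    rw [sub_add_cancel, h.val _ h.fin, h.r_x, h2] at h1
    exact right_eq_add.1 h1
  have e : d.exT f = d.exT (1 - s * (d.x - algebraMap k L (P.val d.x))) *
      d.exT (f - algebraMap k L (P.val f)) + d.exT (d.x - algebraMap k L (P.val d.x)) *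
        d.exT (s * (f - algebraMap k L (P.val f))) + algebraMap k _ (P.val f) := by
    rw [← map_mul, ← map_mul, ← d.exT.commutes, ← map_add, ← map_add]
    exact congrArg _ (by ring)
  rw [e, StarT_rs_add, StarT_rs_add, StarT_rs_mul, StarT_rs_mul, ← map_mul, ← map_mul, ← map_mul,
    ← map_mul, StarT_res hJ i₀ (hm _ (h.mem0 hy hy0)) (hm _ hu), StarT_res hJ i₀ (hm _ hw) (hm _ hy),
    StarT_res hJ i₀ (hm _ (h.mem d.x_mem)) (hm _ hw),
    StarT_res hJ i₀ (hm _ (h.mem0 hw ((h.val _ (h.mem_P hf)).trans h0))) (hm _ hX),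
    StarT_rs_zero fun i => by
      rw [show algebraMap k (LT ι k) (P.val f) i = algebraMap k _ (P.val f) from rfl, StarT_dx_C,
        mul_zero]]
  simp only [add_zero]

omit [IsAlgClosed k] in
theorem StarT_ge_of_pow (p : ℕ) [Fact p.Prime] [CharP k p] {f : LS k} (h : (f ^ p).Ge 0) :
    f.Ge 0 := fun m hm => by
  have hp : 0 < p := (Fact.out : p.Prime).pos
  have hp' : (0 : ℤ) < p := by exact_mod_cast hp
  have h1 := h (p * m) (mul_neg_of_pos_of_neg hp' hm)
  rw [LS.cf_pow_char, if_pos (dvd_mul_right _ _), Int.mul_ediv_cancel_left _ hp'.ne'] at h1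
  exact pow_eq_zero_iff hp.ne' |>.1 h1

/-- the regular differential on a supersingular elliptic curve -/
theorem StarT_gen1 (p : ℕ) [Fact p.Prime] [CharP k p] [Nonempty ι] (hJ : IsChart J d.alg)
    (hg : genus k L = 1) (h : HW0 k L p) : ∃ ν, J = {ν} ∧ ∃ f ∈ d.reg,
      Pole (pm k ν ^ p - d.exT f) 0 ∧ StarT_rs (d.exT f) (pm k ν) ≠ 0 ∧
        ∀ F, (∀ a ∈ d.reg, ¬ Pole (F - d.exT a) 0) → StarT_rs (d.exT f) F ≠ 0 := by
  have hp : 0 < p := (Fact.out : p.Prime).pos
  obtain ⟨i₀⟩ := ‹Nonempty ι›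
  obtain ⟨ν, rfl⟩ := Finset.card_eq_one.1 ((d.card_eq hJ).trans hg)
  have hn := (hJ.snil_iff (k := k) p i₀).2 ((d.hw0_iff p).1 h)
  obtain ⟨_, ⟨f, hf, rfl⟩, h1⟩ := (hJ.cls_eq_zero i₀ (F := pm k ν ^ p)).1 (by
    have h2 := iterate_sapp (p := p) ((hw k p {ν}).map (MvPolynomial.aeval (coef i₀ {ν} d.alg)))
      (Fintype.card ({ν} : Finset (ι × ℕ))) (cls i₀ {ν} d.alg (pm k ν))
    rw [hn, Matrix.zero_mulVec, Fintype.card_coe, Finset.card_singleton, Function.iterate_one] at h2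
    rw [hJ.cls_pow i₀ (k := k), h2])
  let μ : ({ν} : Finset (ι × ℕ)) := ⟨ν, Finset.mem_singleton_self ν⟩
  have hμ : ∀ μ', μ' = μ := fun μ' => Subtype.ext (Finset.mem_singleton.1 μ'.2)
  have h2 : ∀ F, StarT_rs (d.exT f) F = cls i₀ {ν} d.alg F μ * StarT_rs (d.exT f) (pm k ν) :=
    fun F => by
      rw [StarT_rs_cls hJ i₀ (H := d.exT f) ⟨f, hf, rfl⟩ (StarT_ge2 p h1) F,
        Fintype.sum_eq_single μ fun μ' e => (e (hμ μ')).elim]
  obtain ⟨D, hD, -, hD0⟩ := d.exists_der p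
  have hη : D f ≠ 0 := fun h3 => by
    obtain ⟨g, rfl⟩ := hD0 f h3
    have h4 := (hJ.cls_eq_zero i₀ (F := pm k μ.1)).2 ⟨d.exT g, ⟨g, fun P hP => ?_, rfl⟩, fun i => ?_⟩
    · rw [hJ.cls_pm] at h4
      simpa using congrFun h4 μ
    · have h3 := P.mem_iff.1 (hf P hP)
      rcases eq_or_ne g 0 with rfl | hg
      · exact zero_mem _
      · refine P.mem_iff.2 (Or.inr ?_)
        have h4 := h3.resolve_left (pow_ne_zero p hg)
        rw [P.ord_pow hg] at h4
        exact (mul_nonneg_iff_of_pos_left (by exact_mod_cast hp)).1 h4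
    · have h3 := h1 i
      rw [neg_zero] at h3 ⊢
      refine StarT_ge_of_pow p ?_
      rw [Pi.sub_apply, sub_pow_char]
      simpa only [Pi.sub_apply, Pi.pow_apply, RingHom.coe_coe, map_pow] using h3
  have h3 : StarT_rs (d.exT f) (pm k ν) ≠ 0 := fun h3 => by
    obtain ⟨g, h4⟩ := StarT_nondeg ((map_ne_zero (d.ex i₀)).2 hη)
    have h5 := h2 (Pi.single i₀ g)
    rw [h3, mul_zero, StarT_rs_apply, Fintype.sum_eq_single i₀ fun i hi => by
      rw [Pi.single_eq_of_ne hi, zero_mul, LS.cf_zero], Pi.single_eq_same, d.exT_apply, ← hD] at h5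
    exact h4 h5
  refine ⟨ν, rfl, f, hf, h1, h3, fun F hF => ?_⟩
  rw [h2]
  refine mul_ne_zero (fun h4 => ?_) h3
  obtain ⟨_, ⟨a, ha, rfl⟩, h5⟩ := (hJ.cls_eq_zero i₀ (F := F)).1 (funext fun μ' => hμ μ' ▸ h4)
  exact hF a ha h5

theorem StarT_val {P : Place k L} {f g : L} (hf : f ∈ P.1) (hg : g ∈ P.1) (a b : k) :
    P.val (algebraMap k L a * f + algebraMap k L b * g) = a * P.val f + b * P.val g := by
  rw [P.val_add (mul_mem (P.2.2 _) hf) (mul_mem (P.2.2 _) hg), P.val_mul (P.2.2 _) hf,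
    P.val_mul (P.2.2 _) hg, P.val_const, P.val_const]

theorem StarT_val_zero (P : Place k L) : P.val 0 = 0 := (P.val_eq_zero (zero_mem _)).2 (.inl rfl)

end comp

namespace Comb.CC

variable {ι : Type} [Fintype ι] [DecidableEq ι] {X : Comb T k} (c : X.CC ι)

theorem StarT_mk (Δ : X.Fn →ₗ[k] X.Fn) (hx : Δ c.x = 0)
    (hm : ∀ f ∈ c.reg, ∀ g ∈ c.reg, Δ (f * g) - (f * Δ g + g * Δ f) ∈ c.reg) :
    ∃ D : DerQ c.alg, ∀ f (hf : f ∈ c.reg),
      D.1 ⟨c.exT f, f, hf, rfl⟩ = Submodule.Quotient.mk (c.exT (Δ f)) := by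
  obtain ⟨l, hl⟩ := LinearMap.exists_leftInverse_of_injective c.exT.toLinearMap
    (LinearMap.ker_eq_bot.2 c.exT_injective)
  have hl' : ∀ f, l (c.exT f) = f := fun f => DFunLike.congr_fun hl f
  let D : c.alg →ₗ[k] LT ι k ⧸ c.alg.toSubmodule :=
    c.alg.toSubmodule.mkQ ∘ₗ c.exT.toLinearMap ∘ₗ Δ ∘ₗ l ∘ₗ c.alg.val.toLinearMap
  have hD : ∀ (F : c.alg) f, F.1 = c.exT f → D F = Submodule.Quotient.mk (c.exT (Δ f)) :=
    fun F f e => by
      change Submodule.Quotient.mk (c.exT (Δ (l F.1))) = _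
      rw [e, hl']
  refine ⟨⟨D, fun f hf => ?_, ?_⟩, fun f hf => hD _ f rfl⟩
  · rw [hD f c.x (hf.trans c.exT_x.symm), hx, map_zero, Submodule.Quotient.mk_zero]
  · rintro ⟨_, f, hf, rfl⟩ ⟨_, g, hg, rfl⟩ F G hF hG
    rw [hD _ f rfl, Submodule.Quotient.eq] at hF
    rw [hD _ g rfl, Submodule.Quotient.eq] at hG
    rw [hD _ (f * g) (map_mul c.exT f g).symm, Submodule.Quotient.eq]
    have h1 : c.exT _ ∈ c.alg := ⟨_, hm f hf g hg, rfl⟩
    have h2 : c.exT f ∈ c.alg := ⟨f, hf, rfl⟩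
    have h3 : c.exT g ∈ c.alg := ⟨g, hg, rfl⟩
    change c.exT _ - (c.exT f * G + c.exT g * F) ∈ c.alg
    convert add_mem h1 (add_mem (mul_mem h2 hG) (mul_mem h3 hF)) using 1
    simp only [map_sub, map_add, map_mul]
    ring

theorem StarT_single [DecidableEq T] {j : T} {f : X.C.L} {g : (X.E j).L} (hf : f ∈ c.d₀.reg)
    (hg : g ∈ (c.dt j).reg) (h : (X.a j).val f = (X.b j).val g)
    (h' : ∀ j', j' ≠ j → (X.a j').val f = 0) : ((f, Pi.single j g) : X.Fn) ∈ c.reg := by
  refine c.mem_reg.2 ⟨hf, fun j' => ?_, fun j' => ?_⟩ <;> rcases eq_or_ne j' j with rfl | hj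
  · simpa only [Pi.single_eq_same] using hg
  · simpa only [Pi.single_eq_of_ne hj] using zero_mem _
  · simpa only [Pi.single_eq_same] using h
  · simpa only [Pi.single_eq_of_ne hj, StarT_val_zero] using h' j' hj

/-- The derivation smoothing the node `j`. -/
theorem StarT_node [DecidableEq T] {j : T} {s₀ : X.C.L} {r₀ : X.C.L →ₗ[k] k} {s₁ : (X.E j).L}
    {r₁ : (X.E j).L →ₗ[k] k} (h₀ : StarT_Nd c.d₀ (X.a j) s₀ r₀)
    (h₁ : StarT_Nd (c.dt j) (X.b j) s₁ r₁) (hs : ∀ j', j' ≠ j → (X.a j').Ge s₀ 1)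
    (D₀ : Derivation k X.C.L X.C.L) (D₁ : Derivation k (X.E j).L (X.E j).L) (hD₀ : D₀ c.d₀.x = 1)
    (hD₁ : D₁ (c.dt j).x = 1) : ∃ D : DerQ c.alg, ∀ f (hf : f ∈ c.reg),
      D.1 ⟨c.exT f, f, hf, rfl⟩ = Submodule.Quotient.mk (c.exT
        (s₀ * (algebraMap k _ (r₁ (f.2 j)) - D₀ f.1),
          Pi.single j (s₁ * (algebraMap k _ (r₀ f.1) - D₁ (f.2 j))))) := by
  let p₀ : X.Fn →ₗ[k] X.C.L := LinearMap.fst k _ _
  let p₁ : X.Fn →ₗ[k] (X.E j).L := LinearMap.proj j ∘ₗ LinearMap.snd k _ _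
  refine c.StarT_mk (LinearMap.prod
    (LinearMap.mulLeft k s₀ ∘ₗ (Algebra.linearMap k _ ∘ₗ r₁ ∘ₗ p₁ - D₀.toLinearMap ∘ₗ p₀))
    (LinearMap.single k (fun j => (X.E j).L) j ∘ₗ LinearMap.mulLeft k s₁ ∘ₗ
      (Algebra.linearMap k _ ∘ₗ r₀ ∘ₗ p₀ - D₁.toLinearMap ∘ₗ p₁))) ?_ fun f hf g hg => ?_
  · change ((s₀ * (algebraMap k _ (r₁ (c.dt j).x) - D₀ c.d₀.x), Pi.single j
      (s₁ * (algebraMap k _ (r₀ c.d₀.x) - D₁ (c.dt j).x))) : X.Fn) = 0
    rw [h₀.r_x, h₁.r_x, hD₀, hD₁, map_one, map_one, sub_self, sub_self, mul_zero, mul_zero,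
      Pi.single_zero]
    rfl
  obtain ⟨f0, f1, f2⟩ := c.mem_reg.1 hf
  obtain ⟨g0, g1, g2⟩ := c.mem_reg.1 hg
  have h2 := c.StarT_single (j := j)
    (add_mem (mul_mem (algebraMap_mem _ (-r₁ (g.2 j))) (h₀.mem f0))
      (mul_mem (algebraMap_mem _ (-r₁ (f.2 j))) (h₀.mem g0)))
    (add_mem (mul_mem (algebraMap_mem _ (-r₀ g.1)) (h₁.mem (f1 j)))
      (mul_mem (algebraMap_mem _ (-r₀ f.1)) (h₁.mem (g1 j))))
    (by
      rw [StarT_val (h₀.memP (h₀.mem_P f0)) (h₀.memP (h₀.mem_P g0)),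
        StarT_val (h₁.memP (h₁.mem_P (f1 j))) (h₁.memP (h₁.mem_P (g1 j))),
        h₀.val _ (h₀.mem_P f0), h₀.val _ (h₀.mem_P g0), h₁.val _ (h₁.mem_P (f1 j)),
        h₁.val _ (h₁.mem_P (g1 j))]
      ring)
    fun j' hj => by
      have h3 : ∀ u ∈ c.d₀.reg, ∀ a : k, (X.a j').Ge (s₀ * (u - algebraMap k _ a)) 1 :=
        fun u hu a => (hs j' hj).mul ((X.a j').mem_iff.1
          (sub_mem (Comb_mem c.d₀ (c.ha j') hu) ((X.a j').2.2 _)))
      have h4 : ∀ u ∈ c.d₀.reg, ∀ a : k, s₀ * (u - algebraMap k _ a) ∈ (X.a j').1 :=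
        fun u hu a => (X.a j').mem_iff.2 ((h3 u hu a).mono zero_le_one)
      rw [StarT_val (h4 _ f0 _) (h4 _ g0 _), ((X.a j').val_eq_zero (h4 _ f0 _)).2 (h3 _ f0 _),
        ((X.a j').val_eq_zero (h4 _ g0 _)).2 (h3 _ g0 _), mul_zero, mul_zero, add_zero]
  convert h2 using 1
  refine Prod.ext ?_ (funext fun j' => ?_)
  · change s₀ * (algebraMap k _ (r₁ (f.2 j * g.2 j)) - D₀ (f.1 * g.1)) -
      (f.1 * (s₀ * (algebraMap k _ (r₁ (g.2 j)) - D₀ g.1)) +
        g.1 * (s₀ * (algebraMap k _ (r₁ (f.2 j)) - D₀ f.1))) = _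
    rw [h₁.r_mul (h₁.mem_P (f1 j)) (h₁.mem_P (g1 j)), ← f2, ← g2, Derivation.leibniz]
    simp only [map_add, map_mul, map_neg, smul_eq_mul]
    ring
  · change Pi.single (M := fun j => (X.E j).L) j
        (s₁ * (algebraMap k _ (r₀ (f.1 * g.1)) - D₁ (f.2 j * g.2 j))) j' -
      (f.2 j' * Pi.single (M := fun j => (X.E j).L) j
        (s₁ * (algebraMap k _ (r₀ g.1) - D₁ (g.2 j))) j' +
        g.2 j' * Pi.single (M := fun j => (X.E j).L) j
          (s₁ * (algebraMap k _ (r₀ f.1) - D₁ (f.2 j))) j') = Pi.single (M := fun j => (X.E j).L) j _ j'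
    rcases eq_or_ne j' j with rfl | hj
    · simp only [Pi.single_eq_same]
      rw [h₀.r_mul (h₀.mem_P f0) (h₀.mem_P g0), f2, g2, Derivation.leibniz]
      simp only [map_add, map_mul, map_neg, smul_eq_mul]
      ring
    · simp only [Pi.single_eq_of_ne hj, mul_zero, add_zero, sub_zero]

/-- The component of a pole. -/
def StarT_cp (i : ι) : Option T := Sum.elim (fun _ => none) (fun x => some x.1) (c.e.symm i)

omit [IsAlgClosed k] [Fintype T] [Fintype ι] [DecidableEq ι]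

theorem StarT_cp_l (i : c.ι₀) : c.StarT_cp (c.e (.inl i)) = none := by
  rw [StarT_cp, Equiv.symm_apply_apply, Sum.elim_inl]

theorem StarT_cp_r (j : T) (i : c.ιt j) : c.StarT_cp (c.e (.inr ⟨j, i⟩)) = some j := by
  rw [StarT_cp, Equiv.symm_apply_apply, Sum.elim_inr]

theorem StarT_inj_l : Function.Injective fun i => c.e (.inl i) :=
  c.e.injective.comp Sum.inl_injective

theorem StarT_inj_r (j : T) : Function.Injective fun i : c.ιt j => c.e (.inr ⟨j, i⟩) :=
  c.e.injective.comp (Sum.inr_injective.comp sigma_mk_injective)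

theorem StarT_ne_l {i : ι} (h : i ∉ Set.range fun i => c.e (.inl i)) : c.StarT_cp i ≠ none := by
  induction i using c.Comb_ind with
  | h₀ i => exact (h ⟨i, rfl⟩).elim
  | ht j i => exact c.StarT_cp_r j i ▸ Option.some_ne_none j

theorem StarT_ne_r {j : T} {i : ι} (h : i ∉ Set.range fun i : c.ιt j => c.e (.inr ⟨j, i⟩)) :
    c.StarT_cp i ≠ some j := by
  induction i using c.Comb_ind with
  | h₀ i => exact c.StarT_cp_l i ▸ (Option.some_ne_none j).symm
  | ht j' i =>
    rw [c.StarT_cp_r]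
    rintro ⟨rfl⟩
    exact h ⟨i, rfl⟩

end Comb.CC

/-- The nilpotent locus has a unique component through some chart point of the comb (provided the
chart has the expected dimension there). -/
def UniqC (p : ℕ) (Y : Comb T k) : Prop :=
  ∃ (m : ℕ) (i₀ : Fin m) (J : Finset (Fin m × ℕ)) (A : Subalgebra k (LT (Fin m) k)), Y.Has J A ∧
    (∀ ν ∈ J, ν.2 < 1) ∧ ∀ (K : Type u) [Field K] [Algebra k K] (c₀ : Idx (Fin m) → K),
      On (cI k i₀ J) c₀ → Spc k c₀ (coef i₀ J A) → ((2 * m + 2 * J.card : ℕ) : ℕ∞) ≤ dm k c₀ + 2 →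
      Uniq p (cI k i₀ J) (hw k p J) (coef i₀ J A)

theorem uniqC_star (p : ℕ) [Fact p.Prime] [CharP k p] (Y : Comb T k) (hT : 2 ≤ Fintype.card T)
    (h₀ : genus k Y.C.L = 1) (ht : ∀ j, genus k (Y.E j).L = 1) (h : Y.HW0 p) : UniqC p Y := by
  classical
  obtain ⟨m, c, hn₀, hnt, -, -, ha, hb⟩ := Y.exists_cc ∅ (fun _ => ∅) 2
  obtain ⟨J, hJ1, hJ⟩ := c.exists_chart_simple (by omega) fun j => by rw [ht j]; exact hnt j
  obtain ⟨J₀, Jt, hsp⟩ := c.exists_split J
  obtain ⟨hJ₀, hJt⟩ := (c.isChart_iff hsp).1 hJ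
  obtain ⟨ν₀, hν₀, f₀, hf₀, hp₀, hl₀, hr₀⟩ := StarT_gen1 p hJ₀ h₀ h.1
  choose ν hν f hf hp hl hr using fun j => StarT_gen1 p (hJt j) (ht j) (h.2 j)
  choose s₀ r₀ hN₀ hs₀ using fun j => StarT_exists_nd c.d₀ (c.ha j) (ha j) (Finset.univ.image Y.a)
    fun Q hQ => by
      obtain ⟨j', -, rfl⟩ := Finset.mem_image.1 hQ
      exact c.ha j'
  have hs : ∀ j j', j' ≠ j → (Y.a j').Ge (s₀ j) 1 := fun j j' hj =>
    hs₀ j _ (Finset.mem_image_of_mem _ (Finset.mem_univ j')) (Y.inj.ne hj)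
  choose s₁ r₁ hN₁ using fun j => (StarT_exists_nd (c.dt j) (c.hb j) (hb j) ∅ (by simp)).imp
    fun _ h => h.imp fun _ h => h.1
  let ε₀ : Option T → J := fun v => v.elim
    ⟨(c.e (.inl ν₀.1), ν₀.2), (hsp.1 ν₀).1 (hν₀ ▸ Finset.mem_singleton_self _)⟩
    fun j => ⟨(c.e (.inr ⟨j, (ν j).1⟩), (ν j).2),
      (hsp.2 j (ν j)).1 ((hν j).symm ▸ Finset.mem_singleton_self _)⟩
  have hε : ∀ v, c.StarT_cp (ε₀ v).1.1 = v := by
    rintro (_ | j)
    · exact c.StarT_cp_l _
    · exact c.StarT_cp_r _ _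
  have hε' : Function.Bijective ε₀ := ⟨fun v w e => by rw [← hε v, e, hε], by
    rintro ⟨⟨i, n⟩, hi⟩
    induction i using c.Comb_ind with
    | h₀ i =>
      have h1 := (hsp.1 (i, n)).2 hi
      rw [hν₀, Finset.mem_singleton] at h1
      exact ⟨none, Subtype.ext (by subst h1; rfl)⟩
    | ht j i =>
      have h1 := (hsp.2 j (i, n)).2 hi
      rw [hν j, Finset.mem_singleton] at h1
      refine ⟨some j, Subtype.ext ?_⟩
      change (c.e (.inr ⟨j, (ν j).1⟩), (ν j).2) = _
      rw [← h1]⟩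
  have hext : ∀ g ∈ c.d₀.reg, ((g, fun j => algebraMap k _ ((Y.a j).val g)) : Y.Fn) ∈ c.reg :=
    fun g hg => c.mem_reg.2 ⟨hg, fun j => algebraMap_mem _ _, fun j => ((Y.b j).val_const _).symm⟩
  have hH₁ : ∀ j, ((0, Pi.single j (f j - algebraMap k _ ((Y.b j).val (f j)))) : Y.Fn) ∈ c.reg :=
    fun j => c.StarT_single (zero_mem _) (sub_mem (hf j) (algebraMap_mem _ _))
      ((StarT_val_zero _).trans (StarT_Nd.val_sub ((hN₁ j).mem_P (hf j))).symm)
      fun _ _ => StarT_val_zero _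
  let H : Option T → c.alg := fun v => v.elim ⟨c.exT _, _, hext f₀ hf₀, rfl⟩
    fun j => ⟨c.exT _, _, hH₁ j, rfl⟩
  have hs1 : ∀ j i, c.StarT_cp i ≠ some j → (H (some j)).1 i = 0 := fun j i hi => by
    induction i using c.Comb_ind with
    | h₀ i => exact (c.exT_inl _ i).trans (map_zero _)
    | ht j' i =>
      refine (c.exT_inr _ j' i).trans ?_
      rw [c.StarT_cp_r] at hi
      dsimp only
      rw [Pi.single_eq_of_ne fun e => hi (congrArg _ e), map_zero]
  have hs0 : ∀ i, c.StarT_cp i ≠ none → ∃ a : k, (H none).1 i = algebraMap k _ a := fun i hi => by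
    induction i using c.Comb_ind with
    | h₀ i => exact (hi (c.StarT_cp_l i)).elim
    | ht j i => exact ⟨_, (c.exT_inr _ j i).trans (AlgHom.commutes _ _)⟩
  have hd0 : ∀ i, c.StarT_cp i ≠ none → LS.dx ((H none).1 i) = 0 := fun i hi => by
    obtain ⟨a, ha⟩ := hs0 i hi
    rw [ha, StarT_dx_C]
  have he1 : ∀ j i, (H (some j)).1 (c.e (.inr ⟨j, i⟩)) =
      (c.dt j).ex i (f j) - algebraMap k _ ((Y.b j).val (f j)) := fun j i => by
    refine (c.exT_inr _ j i).trans ?_
    dsimp only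
    rw [Pi.single_eq_same, map_sub, AlgHom.commutes]
  have hR₀ : ∀ F, StarT_rs (H none).1 F = StarT_rs (c.d₀.exT f₀) fun i => F (c.e (.inl i)) :=
    fun F => (StarT_rs_inj c.StarT_inj_l (fun i hi => hd0 i (c.StarT_ne_l hi)) F).trans
      (StarT_rs_congr fun i => congrArg (fun g => _ * LS.dx g) (c.exT_inl _ i))
  have hR₁ : ∀ j F, StarT_rs (H (some j)).1 F =
      StarT_rs ((c.dt j).exT (f j)) fun i => F (c.e (.inr ⟨j, i⟩)) := fun j F =>
    (StarT_rs_inj (c.StarT_inj_r j) (fun i hi => by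
      rw [hs1 j i (c.StarT_ne_r hi), map_zero]) F).trans (StarT_rs_congr fun i => by
        rw [Function.comp_apply, Function.comp_apply, he1, map_sub, StarT_dx_C, sub_zero]
        rfl)
  have hpm : ∀ v i, c.StarT_cp i ≠ v → (pm k (ε₀ v).1 ^ p) i = 0 := fun v i hi => by
    rw [Pi.pow_apply, pm, Pi.single_eq_of_ne fun e => hi ((congrArg _ e).trans (hε v)),
      zero_pow (Fact.out : p.Prime).ne_zero]
  refine ⟨m, c.e (.inl ν₀.1), J, c.alg, ⟨c, rfl, hJ⟩, hJ1, fun K _ _ c₀ hc hq hd =>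
    StarT_abs p hT hJ hJ1 (c.curv ha hb) _ (Equiv.ofBijective ε₀ hε') c.StarT_cp hε H ?_ hs1 hd0
      (fun j j' hj => ?_) ?_ (fun j => ?_) hc hq (by rwa [Fintype.card_fin])⟩
  · rintro (_ | j) i
    · by_cases hi : i ∈ Set.range fun i => c.e (.inl i)
      · obtain ⟨i, rfl⟩ := hi
        have h1 := hp₀ i
        rw [Pi.sub_apply, Pi.pow_apply, ← StarT_pm_inj c.StarT_inj_l, c.d₀.exT_apply] at h1
        rw [Pi.sub_apply, show (H none).1 _ = _ from c.exT_inl _ i]
        exact h1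
      · obtain ⟨a, ha⟩ := hs0 i (c.StarT_ne_l hi)
        rw [Pi.sub_apply, Equiv.ofBijective_apply, hpm none i (c.StarT_ne_l hi), ha, zero_sub]
        exact (LS.ge_algebraMap a).neg
    · by_cases hi : i ∈ Set.range fun i : c.ιt j => c.e (.inr ⟨j, i⟩)
      · obtain ⟨i, rfl⟩ := hi
        have h1 := (hp j i).add (LS.ge_algebraMap ((Y.b j).val (f j)))
        rw [Pi.sub_apply, Pi.pow_apply, ← StarT_pm_inj (c.StarT_inj_r j), sub_add] at h1
        rw [Pi.sub_apply, he1]
        exact h1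
      · rw [Pi.sub_apply, Equiv.ofBijective_apply, hpm _ i (c.StarT_ne_r hi),
          hs1 j i (c.StarT_ne_r hi), sub_zero]
        exact fun _ _ => rfl
  · refine ⟨_, ⟨_, hext _ ((hN₀ j).mem c.d₀.x_mem), rfl⟩, fun i hi => ?_, fun i hi => ?_⟩
    · obtain ⟨i, rfl⟩ := by_contra fun e => c.StarT_ne_r e hi
      refine (c.exT_inr _ j i).trans ?_
      dsimp only
      rw [(hN₀ j).val _ (c.ha j), (hN₀ j).r_x, map_one, map_one]
    · obtain ⟨i, rfl⟩ := by_contra fun e => c.StarT_ne_r e hi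
      refine (c.exT_inr _ j' i).trans ?_
      have h1 := (hs j j' hj.symm).mul ((Y.a j').mem_iff.1
        (sub_mem (c.ha j') ((Y.a j').2.2 ((Y.a j).val c.d₀.x))))
      dsimp only
      rw [((Y.a j').val_eq_zero ((Y.a j').mem_iff.2 (h1.mono zero_le_one))).2 h1, map_zero, map_zero]
  · rintro (_ | j)
    · rw [hR₀]
      exact (funext (StarT_pm_inj (k := k) c.StarT_inj_l ν₀)).symm ▸ hl₀
    · rw [hR₁]
      exact (funext (StarT_pm_inj (k := k) (c.StarT_inj_r j) (ν j))).symm ▸ hl j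
  · obtain ⟨D₀, -, hD₀, -⟩ := c.d₀.exists_der p
    obtain ⟨D₁, -, hD₁, -⟩ := (c.dt j).exists_der p
    obtain ⟨D, hD⟩ := c.StarT_node (hN₀ j) (hN₁ j) (hs j) D₀ D₁ hD₀ hD₁
    refine ⟨D, _, hD _ (hext f₀ hf₀), ?_, fun j' hj => ?_⟩
    · have h1 : r₀ j f₀ ≠ 0 := fun e => hr₀ _ (fun a ha => by
        rw [← map_sub]
        exact (hN₀ j).ntriv (by omega) ha) ((hN₀ j).rs_zero hJ₀ ν₀.1 hf₀ e)
      have h2 := hr j ((c.dt j).exT (s₁ j)) fun a ha => by
        rw [← map_sub]
        exact (hN₁ j).ntriv (by rw [ht j]; exact one_ne_zero) ha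
      rw [hR₁]
      convert mul_ne_zero h1 h2 using 1
      rw [← smul_eq_mul (r₀ j f₀), ← map_smul]
      refine congrArg _ (funext fun i => (c.exT_inr _ j i).trans ?_)
      dsimp only
      rw [Pi.single_eq_same, Derivation.map_algebraMap, sub_zero, mul_comm, ← Algebra.smul_def,
        map_smul]
      rfl
    · rw [hR₁]
      refine StarT_rs_zero fun i => ?_
      rw [c.exT_inr]
      dsimp only
      rw [Pi.single_eq_of_ne hj, map_zero, zero_mul]

end PR0
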