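import Pool.Agent.Work.MP_da2620_ag.ZG1
import Pool.Agent.Work.MP_da2620_ag.Pt2

/-!
# Hyperplane sections of irreducible cones are connected in codimension one
-/

namespace PR0.Z

open MvPolynomial

universe u

attribute [local instance] MvPolynomial.gradedAlgebra

variable {k : Type u} [Field k] {σ : Type}

/-- Homogeneous ideals. -/
def Hom (I : Ideal (MvPolynomial σ k)) : Prop := I.IsHomogeneous (homogeneousSubmodule σ k)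

/-- Dimension of a prime. -/
noncomputable def dI (𝔮 : Ideal (MvPolynomial σ k)) : ℕ∞ :=
  open Classical in
  if h : 𝔮.IsPrime then
    (haveI := h; (Algebra.trdeg k (MvPolynomial σ k ⧸ 𝔮)).toENat) else 0

theorem dI_eq (𝔮 : Ideal (MvPolynomial σ k)) [h : 𝔮.IsPrime] :
    dI 𝔮 = (Algebra.trdeg k (MvPolynomial σ k ⧸ 𝔮)).toENat := dif_pos h

theorem dI_pt {K : Type u} [Field K] [Algebra k K] (c : σ → K) : dI (Pt2_id k c) = dm k c :=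
  (dI_eq _).trans (Pt2_dm c).symm

theorem Hom.comp {I : Ideal (MvPolynomial σ k)} (h : Hom I) {f : MvPolynomial σ k} (hf : f ∈ I)
    (n : ℕ) : homogeneousComponent n f ∈ I := homogeneousComponent_mem_of_mem h hf n

theorem hom_of {I : Ideal (MvPolynomial σ k)} (h : ∀ f ∈ I, ∀ n, homogeneousComponent n f ∈ I) :
    Hom I := fun n f hf => by
  have := h f hf n
  rwa [← decomposition.decompose'_apply] at this

theorem Hom.sup {I J : Ideal (MvPolynomial σ k)} (h : Hom I) (h' : Hom J) : Hom (I ⊔ J) :=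
  Ideal.IsHomogeneous.sup h h'

theorem hom_span {s : Set (MvPolynomial σ k)} {n : ℕ} (h : ∀ f ∈ s, f.IsHomogeneous n) :
    Hom (Ideal.span s) := Ideal.homogeneous_span _ _ fun f hf => ⟨n, h f hf⟩

theorem Hom.core {J 𝔮 : Ideal (MvPolynomial σ k)} (hJ : Hom J) (h : 𝔮.IsPrime) (hle : J ≤ 𝔮) :
    ∃ 𝔯 : Ideal (MvPolynomial σ k), 𝔯.IsPrime ∧ Hom 𝔯 ∧ J ≤ 𝔯 ∧ 𝔯 ≤ 𝔮 :=
  ⟨_, h.homogeneousCore (𝒜 := homogeneousSubmodule σ k), HomogeneousIdeal.isHomogeneous _,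
    (Ideal.IsHomogeneous.toIdeal_homogeneousCore_eq_self hJ).symm.le.trans
      (Ideal.homogeneousCore_mono _ hle), Ideal.toIdeal_homogeneousCore_le _ _⟩

theorem comp_mul {l : MvPolynomial σ k} (hl : l.IsHomogeneous 1) (g : MvPolynomial σ k) (n : ℕ) :
    homogeneousComponent (n + 1) (l * g) = l * homogeneousComponent n g := by
  have := DirectSum.coe_decompose_mul_add_of_left_mem (homogeneousSubmodule σ k) (i := 1) (j := n)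
    (b := g) hl
  rw [← decomposition.decompose'_apply, ← decomposition.decompose'_apply, add_comm]
  exact this

/-- The vertex. -/
noncomputable abbrev vx (k : Type u) [Field k] (σ : Type) : Ideal (MvPolynomial σ k) :=
  Pt2_id k (0 : σ → k)

theorem mem_vx {f : MvPolynomial σ k} : f ∈ vx k σ ↔ coeff 0 f = 0 := by
  rw [RingHom.mem_ker, aeval_zero]
  rfl

theorem Hom.le_vx {𝔮 : Ideal (MvPolynomial σ k)} (h : Hom 𝔮) (hq : 𝔮.IsPrime) : 𝔮 ≤ vx k σ := by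
  intro f hf
  have h1 := h.comp hf 0
  rw [homogeneousComponent_zero] at h1
  rw [mem_vx]
  by_contra h2
  exact hq.ne_top (Ideal.eq_top_of_isUnit_mem _ h1 ((Ne.isUnit h2).map C))

theorem mem_vx_of {f : MvPolynomial σ k} {n : ℕ} (hf : f.IsHomogeneous n) (hn : n ≠ 0) :
    f ∈ vx k σ := mem_vx.2 (hf.coeff_eq_zero (by simpa using hn.symm))

theorem vx_le {𝔮 : Ideal (MvPolynomial σ k)} (h : ∀ i, X i ∈ 𝔮) : vx k σ ≤ 𝔮 := by
  intro f hf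
  have h1 : Ideal.Quotient.mkₐ k 𝔮 = aeval 0 := algHom_ext fun i => by
    simpa [Ideal.Quotient.eq_zero_iff_mem] using h i
  rw [← Ideal.Quotient.eq_zero_iff_mem, ← Ideal.Quotient.mkₐ_eq_mk k, h1, aeval_zero]
  exact (congrArg _ (mem_vx.1 hf)).trans (map_zero _)

theorem hom_vx : Hom (vx k σ) := hom_of fun f hf n => by
  rcases n with _ | n
  · rw [homogeneousComponent_zero, mem_vx.1 hf, map_zero]
    exact zero_mem _
  · exact mem_vx_of (homogeneousComponent_isHomogeneous _ _) (by omega)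

theorem dI_mono {𝔭 𝔮 : Ideal (MvPolynomial σ k)} (hp : 𝔭.IsPrime) (hq : 𝔮.IsPrime) (h : 𝔭 ≤ 𝔮) :
    dI 𝔮 ≤ dI 𝔭 := by
  obtain ⟨K, _, _, _, c, rfl⟩ := Pt2_pt 𝔭
  obtain ⟨K', _, _, _, c', rfl⟩ := Pt2_pt 𝔮
  rw [dI_pt, dI_pt]
  exact Spc.dm_le h

theorem dI_vx : dI (vx k σ) = 0 := by
  rw [dI_pt]
  refine le_antisymm ((rk_le_of_mem (s := ∅) ?_).trans ((rk_le_encard _).trans (by simp)))
    zero_le
  rintro _ ⟨i, rfl⟩
  exact zero_mem _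

theorem dI_of_X {𝔮 : Ideal (MvPolynomial σ k)} (hq : 𝔮.IsPrime) (h : ∀ i, X i ∈ 𝔮) : dI 𝔮 = 0 :=
  le_antisymm ((dI_mono inferInstance hq (vx_le h)).trans dI_vx.le) zero_le

theorem Hom.X_mem {𝔮 : Ideal (MvPolynomial σ k)} (h : Hom 𝔮) (hq : 𝔮.IsPrime) (hd : dI 𝔮 = 0)
    (i : σ) : X i ∈ 𝔮 := by
  obtain ⟨K, _, _, _, c, rfl⟩ := Pt2_pt 𝔮
  rw [dI_pt] at hd
  by_contra hi
  have h1 : AlgebraicIndependent k fun _ : Fin 1 => c i := by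
    rw [algebraicIndependent_unique_type_iff]
    rintro ⟨g, hg, hg'⟩
    have h2 : Polynomial.aeval (X i : MvPolynomial σ k) g ∈ Pt2_id k c := by
      rw [RingHom.mem_ker, ← Polynomial.aeval_algHom_apply, aeval_X, hg']
    have h3 := h.comp h2 g.natDegree
    rw [Polynomial.aeval_eq_sum_range, map_sum, Finset.sum_eq_single g.natDegree, map_smul,
      homogeneousComponent_eq_self (by simpa using (isHomogeneous_X k i).pow g.natDegree),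
      smul_eq_C_mul] at h3
    · rcases hq.mem_or_mem h3 with h4 | h4
      · exact hq.ne_top (Ideal.eq_top_of_isUnit_mem _ h4
          ((Ne.isUnit (Polynomial.leadingCoeff_ne_zero.2 hg)).map C))
      · exact hi (hq.mem_of_pow_mem _ h4)
    · intro b _ hb
      rw [map_smul, homogeneousComponent_of_mem (n := b)
        (by simpa using (isHomogeneous_X k i).pow b), if_neg hb.symm, smul_zero]
    · simp
  have h2 := le_rk_of_indep (s := Set.range c) h1 fun _ => isAlgebraic_algebraMap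
    (⟨c i, Algebra.subset_adjoin ⟨i, rfl⟩⟩ : Algebra.adjoin k (Set.range c))
  exact absurd (h2.trans (le_of_eq hd)) (by simp)

variable [Finite σ]

theorem dI_ne_top {𝔮 : Ideal (MvPolynomial σ k)} (hq : 𝔮.IsPrime) : dI 𝔮 ≠ ⊤ := by
  obtain ⟨K, _, _, _, c, rfl⟩ := Pt2_pt 𝔮
  rw [dI_pt]
  exact (FG.of_finite c).dm_ne_top

theorem dI_lt {𝔭 𝔮 : Ideal (MvPolynomial σ k)} (hp : 𝔭.IsPrime) (hq : 𝔮.IsPrime) (h : 𝔭 ≤ 𝔮)
    (h' : ¬ 𝔮 ≤ 𝔭) : dI 𝔮 + 1 ≤ dI 𝔭 := by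
  rw [ENat.add_one_le_iff (dI_ne_top hq), ← not_le]
  obtain ⟨K, _, _, _, c, rfl⟩ := Pt2_pt 𝔭
  obtain ⟨K', _, _, _, c', rfl⟩ := Pt2_pt 𝔮
  rw [dI_pt, dI_pt]
  exact fun hd => h' (Spc.symm_of_dm h (FG.of_finite c) hd)

theorem dI_krull {𝔭 𝔮 : Ideal (MvPolynomial σ k)} (hp : 𝔭.IsPrime) (hq : 𝔮.IsPrime) (h : 𝔭 ≤ 𝔮)
    {m : ℕ} (g : Fin m → MvPolynomial σ k) (hg : ∀ j, g j ∈ 𝔮) :
    ∃ 𝔯 : Ideal (MvPolynomial σ k), 𝔯.IsPrime ∧ 𝔭 ≤ 𝔯 ∧ 𝔯 ≤ 𝔮 ∧ (∀ j, g j ∈ 𝔯) ∧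
      dI 𝔭 ≤ dI 𝔯 + m := by
  obtain ⟨𝔯, h1, h2, h3, h4, h5⟩ := Pt2_kr_fin (k := k) 𝔭 𝔮 h m g hg
  refine ⟨𝔯, h1, h2, h3, h4, ?_⟩
  rw [dI_eq, dI_eq]
  simpa using OrderHomClass.mono Cardinal.toENat h5

/-- All components have dimension at most `j`. -/
def Dle (J : Ideal (MvPolynomial σ k)) (j : ℕ) : Prop := ∀ 𝔮, 𝔮.IsPrime → J ≤ 𝔮 → dI 𝔮 ≤ j

theorem cut [Infinite k] (J₁ J₂ : Ideal (MvPolynomial σ k)) : ∃ l : MvPolynomial σ k,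
    l.IsHomogeneous 1 ∧ (∀ j, Dle J₁ (j + 1) → Dle (J₁ ⊔ Ideal.span {l}) j) ∧
      ∀ j, Dle J₂ (j + 1) → Dle (J₂ ⊔ Ideal.span {l}) j := by
  let T := {𝔮 : Ideal (MvPolynomial σ k) |
    (𝔮 ∈ J₁.minimalPrimes ∨ 𝔮 ∈ J₂.minimalPrimes) ∧ ∃ i, X i ∉ 𝔮}
  have hT : T.Finite := ((J₁.finite_minimalPrimes_of_isNoetherianRing _).union
    (J₂.finite_minimalPrimes_of_isNoetherianRing _)).subset fun _ h => h.1
  have := hT.to_subtype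
  obtain ⟨l, hl⟩ := Submodule.exists_forall_notMem_of_forall_ne_top
    (fun 𝔮 : T => (𝔮.1.restrictScalars k).comap (homogeneousSubmodule σ k 1).subtype) (by
      rintro ⟨𝔮, h, i, hi⟩ ht
      exact hi (Submodule.eq_top_iff'.1 ht ⟨X i, isHomogeneous_X k i⟩))
  have key : ∀ J, J = J₁ ∨ J = J₂ → ∀ j, Dle J (j + 1) → Dle (J ⊔ Ideal.span {l.1}) j := by
    intro J hJ j hd 𝔮 hq hle
    obtain ⟨𝔭, hp, hpq⟩ := Ideal.exists_minimalPrimes_le (le_sup_left.trans hle)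
    by_cases hX : ∃ i, X i ∉ 𝔭
    · have h1 := dI_lt hp.1.1 hq hpq fun h => hl
        ⟨𝔭, hJ.imp (fun e => by rwa [← e]) (fun e => by rwa [← e]), hX⟩
        (h (hle (Ideal.mem_sup_right (Ideal.mem_span_singleton_self _))))
      have h2 := h1.trans (hd 𝔭 hp.1.1 hp.1.2)
      push_cast at h2
      exact (ENat.add_le_add_iff_right ENat.one_ne_top).1 h2
    · push Not at hX
      exact (dI_of_X hq fun i => hpq (hX i)).le.trans zero_le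
  exact ⟨l, l.2, key _ (.inl rfl), key _ (.inr rfl)⟩

theorem cuts [Infinite k] (n : ℕ) : ∀ J₁ J₂ : Ideal (MvPolynomial σ k),
    ∃ l : Fin n → MvPolynomial σ k, (∀ i, (l i).IsHomogeneous 1) ∧
      (∀ j, Dle J₁ (j + n) → Dle (J₁ ⊔ Ideal.span (Set.range l)) j) ∧
      ∀ j, Dle J₂ (j + n) → Dle (J₂ ⊔ Ideal.span (Set.range l)) j := by
  induction n with
  | zero => exact fun J₁ J₂ => ⟨Fin.elim0, fun i => i.elim0,
      fun j h 𝔮 hq hle => h 𝔮 hq (le_sup_left.trans hle),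
      fun j h 𝔮 hq hle => h 𝔮 hq (le_sup_left.trans hle)⟩
  | succ n ih =>
    intro J₁ J₂
    obtain ⟨l₀, h0, h1, h2⟩ := cut J₁ J₂
    obtain ⟨l, h3, h4, h5⟩ := ih (J₁ ⊔ Ideal.span {l₀}) (J₂ ⊔ Ideal.span {l₀})
    refine ⟨Fin.cons l₀ l, Fin.cases h0 h3, fun j h => ?_, fun j h => ?_⟩
    · rw [Fin.range_cons, Ideal.span_insert, ← sup_assoc]
      exact h4 j (h1 _ h)
    · rw [Fin.range_cons, Ideal.span_insert, ← sup_assoc]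
      exact h5 j (h2 _ h)

omit [Finite σ] in
theorem Dle.vx_le {J : Ideal (MvPolynomial σ k)} (h : Dle J 0) (hJ : Hom J) :
    vx k σ ≤ J.radical := by
  rw [Ideal.radical_eq_sInf]
  refine le_sInf ?_
  rintro 𝔮 ⟨h1, h2⟩
  obtain ⟨𝔯, h3, h4, h5, h6⟩ := hJ.core h2 h1
  exact (PR0.Z.vx_le (h4.X_mem h3 (le_antisymm (h 𝔯 h3 h5) zero_le))).trans h6

omit [Finite σ] in
theorem gr_ind {τ : Type} [Finite τ] {𝔭 : Ideal (MvPolynomial σ k)} (hp : Hom 𝔭)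
    {l : τ → MvPolynomial σ k} (hl : ∀ j, (l j).IsHomogeneous 1) {μ₀ : σ →₀ ℕ}
    (hM : ∀ i, X i ^ μ₀ i ∈ 𝔭 ⊔ Ideal.span (Set.range l))
    (N : ℕ → Submodule k (MvPolynomial σ k)) (h0 : ∀ J, ∀ f ∈ 𝔭, f ∈ N J)
    (h1 : ∀ J, ∀ μ ≤ μ₀, monomial μ 1 ∈ N J) (h2 : ∀ J j, ∀ f ∈ N J, l j * f ∈ N (J + 1))
    (J : ℕ) : ∀ f : MvPolynomial σ k, f.IsHomogeneous J → f ∈ N J := by
  have := Fintype.ofFinite τ
  induction J using Nat.strong_induction_on with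
  | _ J ih =>
  intro f hf
  rw [f.as_sum]
  refine sum_mem fun μ hμ => ?_
  have hd : μ.degree = J := by
    by_contra h
    exact mem_support_iff.1 hμ (hf.coeff_eq_zero h)
  rw [← mul_one (coeff μ f), ← smul_eq_mul, ← smul_monomial]
  refine Submodule.smul_mem _ _ ?_
  by_cases hb : μ ≤ μ₀
  · exact h1 J μ hb
  · obtain ⟨i, hi⟩ : ∃ i, μ₀ i < μ i := by simpa [Finsupp.le_def] using hb
    have h3 : monomial μ (1 : k) ∈ 𝔭 ⊔ Ideal.span (Set.range l) := by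
      refine Ideal.mem_of_dvd _ ?_ (hM i)
      rw [X_pow_eq_monomial]
      exact monomial_dvd_monomial.2 ⟨.inr (Finsupp.single_le_iff.2 hi.le), dvd_rfl⟩
    obtain ⟨π, hπ, w, hw, h4⟩ := Submodule.mem_sup.1 h3
    obtain ⟨g, rfl⟩ := Ideal.mem_span_range_iff_exists_fun.1 hw
    have h5 := Finsupp.le_degree i μ
    obtain ⟨J, rfl⟩ : ∃ J', J = J' + 1 := ⟨J - 1, by omega⟩
    have h6 := congrArg (homogeneousComponent (J + 1)) h4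
    rw [homogeneousComponent_eq_self (isHomogeneous_monomial _ hd), map_add, map_sum] at h6
    rw [← h6]
    refine add_mem (h0 _ _ (hp.comp hπ _)) (sum_mem fun j _ => ?_)
    rw [mul_comm, comp_mul (hl j)]
    exact h2 _ _ _ (ih J (by omega) _ (homogeneousComponent_isHomogeneous _ _))

theorem gc_gr {ι : Type} [Finite ι] {𝔭 𝔞 𝔟 𝔮₁ 𝔮₂ : Ideal (MvPolynomial σ k)} (hp : 𝔭.IsPrime)
    (hp' : Hom 𝔭) {l : ι ⊕ Fin 2 → MvPolynomial σ k} (hl : ∀ j, (l j).IsHomogeneous 1)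
    (hd : (Nat.card (ι ⊕ Fin 2) : ℕ∞) ≤ dI 𝔭) (h0 : Dle (𝔭 ⊔ Ideal.span (Set.range l)) 0)
    (ha : Hom 𝔞) (hb : Hom 𝔟)
    (hab : ∀ 𝔮 : Ideal (MvPolynomial σ k), 𝔮.IsPrime → 𝔭 ≤ 𝔮 → (∀ i, l (.inl i) ∈ 𝔮) →
      𝔞 ≤ 𝔮 ∨ 𝔟 ≤ 𝔮)
    (h1 : Dle (𝔭 ⊔ 𝔞 ⊔ 𝔟 ⊔ Ideal.span (Set.range fun i => l (.inl i))) 0)
    (hq₁ : 𝔮₁.IsPrime) (hq₂ : 𝔮₂.IsPrime) (hpq₁ : 𝔭 ≤ 𝔮₁) (hpq₂ : 𝔭 ≤ 𝔮₂)
    (hl₁ : ∀ i, l (.inl i) ∈ 𝔮₁) (hl₂ : ∀ i, l (.inl i) ∈ 𝔮₂) (ha₁ : 𝔞 ≤ 𝔮₁) (hb₂ : 𝔟 ≤ 𝔮₂) :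
    dI 𝔮₁ = 0 ∨ dI 𝔮₂ = 0 := by
  classical
  set P := MvPolynomial (ι ⊕ Fin 2) k
  set R := MvPolynomial σ k ⧸ 𝔭
  let π : MvPolynomial σ k →ₐ[k] R := Ideal.Quotient.mkₐ k 𝔭
  have hπ : Function.Surjective π := Ideal.Quotient.mkₐ_surjective k 𝔭
  let _ : Algebra P R := (π.comp (aeval l)).toRingHom.toAlgebra
  let _ : Module P R := Algebra.toModule
  let _ : SMul P R := Algebra.toSMul
  have hX : ∀ j, algebraMap P R (X j) = π (l j) := fun j => congrArg π (aeval_X l j)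
  have : IsScalarTower k P R := IsScalarTower.of_algebraMap_eq fun c =>
    ((π.comp (aeval l)).commutes c).symm
  have hrad := h0.vx_le (hp'.sup (hom_span (n := 1) (by rintro _ ⟨j, rfl⟩; exact hl j)))
  choose M hM using fun i => hrad (mem_vx_of (isHomogeneous_X k i) one_ne_zero)
  let μ₀ : σ →₀ ℕ := Finsupp.equivFunOnFinite.symm M
  have hbox : (Set.Iic μ₀).Finite := Set.finite_Iic μ₀
  have hall : ∀ N : Submodule k (MvPolynomial σ k), (∀ J, ∀ f : MvPolynomial σ k,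
      f.IsHomogeneous J → f ∈ N) → ∀ f, f ∈ N := fun N h f => by
    rw [← sum_homogeneousComponent f]
    exact sum_mem fun J _ => h J _ (homogeneousComponent_isHomogeneous _ _)
  have hfin : Module.Finite P R := by
    let N := Submodule.span P ((fun μ => π (monomial μ 1)) '' Set.Iic μ₀)
    refine ⟨(Submodule.fg_def).2 ⟨_, hbox.image fun μ => π (monomial μ 1), ?_⟩⟩
    rw [eq_top_iff]
    intro w _
    obtain ⟨f, rfl⟩ := hπ w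
    refine hall ((N.restrictScalars k).comap π.toLinearMap) (gr_ind hp' hl (μ₀ := μ₀) hM
      (fun _ => (N.restrictScalars k).comap π.toLinearMap) (fun _ f hf => ?_)
      (fun _ μ hμ => Submodule.subset_span ⟨μ, hμ, rfl⟩) fun _ j f hf => ?_) f
    · change π f ∈ N
      rw [show π f = 0 from Ideal.Quotient.eq_zero_iff_mem.2 hf]
      exact zero_mem _
    · change π (l j * f) ∈ N
      rw [map_mul, ← hX, ← Algebra.smul_def]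
      exact N.smul_mem _ hf
  have hinj : FaithfulSMul P R := by
    rw [faithfulSMul_iff_algebraMap_injective]
    let K := FractionRing R
    let ψ : R →ₐ[k] K := IsScalarTower.toAlgHom k R K
    have hψ : Function.Injective ψ := IsFractionRing.injective R K
    have h2 : Pt2_id k (fun i => ψ (π (X i))) = 𝔭 := by
      ext f
      rw [RingHom.mem_ker, ← Ideal.Quotient.eq_zero_iff_mem, ← map_eq_zero_iff ψ hψ]
      rw [show (aeval fun i => ψ (π (X i))) = ψ.comp π from algHom_ext fun i => by simp]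
      rfl
    have h3 : AlgebraicIndependent k fun j => ψ (π (l j)) := by
      refine indep_of_rk (hd.trans ?_)
      refine ((congrArg dI h2).symm.trans (dI_pt _)).le.trans (rk_le_of_alg ?_)
      rintro _ ⟨i, rfl⟩
      obtain ⟨g, hg, hg'⟩ := Algebra.IsIntegral.isIntegral (R := P) (π (X i))
      let θ : P →ₐ[k] Algebra.adjoin k (Set.range fun j => ψ (π (l j))) :=
        aeval fun j => ⟨_, Algebra.subset_adjoin ⟨j, rfl⟩⟩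
      refine IsIntegral.isAlgebraic ⟨g.map θ.toRingHom, hg.map _, ?_⟩
      have h4 := congrArg ψ hg'
      rw [map_zero] at h4
      rw [Polynomial.eval₂_map, ← h4]
      refine Eq.trans ?_ (Polynomial.hom_eval₂ g _ ψ.toRingHom _).symm
      congr 1
      have h5 : (Subalgebra.val _).comp θ = ψ.comp (π.comp (aeval l)) :=
        algHom_ext fun j => by simp [θ]
      exact congrArg AlgHom.toRingHom h5
    have h4 : (aeval fun j => ψ (π (l j))) = ψ.comp (π.comp (aeval l)) :=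
      algHom_ext fun j => by simp
    have h5 : Function.Injective (ψ.comp (π.comp (aeval l))) := h4 ▸ h3
    exact Function.Injective.of_comp (f := ψ) h5
  let G : ℕ → AddSubgroup R := fun J =>
    ((homogeneousSubmodule σ k J).map π.toLinearMap).toAddSubgroup
  have hG1 : ∀ {J f}, f.IsHomogeneous J → π f ∈ G J := fun hf => ⟨_, hf, rfl⟩
  have : SetLike.GradedMonoid G :=
    { one_mem := by simpa using hG1 (isHomogeneous_one σ k)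
      mul_mem := by
        rintro i j _ _ ⟨f, hf, rfl⟩ ⟨g, hg, rfl⟩
        simpa using hG1 (IsHomogeneous.mul hf hg) }
  have hG : ∀ φ : R →ₗ[P] P, ∃ d, ∀ J, ∀ w ∈ G J, (φ w).totalDegree ≤ J + d := by
    intro φ
    obtain ⟨d, hd⟩ := (hbox.image fun μ => (φ (π (monomial μ 1))).totalDegree).bddAbove
    refine ⟨d, ?_⟩
    rintro J _ ⟨f, hf, rfl⟩
    refine (mem_restrictTotalDegree _ _ _).1 (gr_ind hp' hl (μ₀ := μ₀) hM
      (fun J => (restrictTotalDegree _ k (J + d)).comap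
        ((φ.restrictScalars k).comp π.toLinearMap)) (fun _ f hf => ?_)
      (fun J μ hμ => (mem_restrictTotalDegree _ _ _).2
        ((hd ⟨μ, hμ, rfl⟩).trans (Nat.le_add_left _ _))) (fun J j f hf => ?_) J f hf)
    · change φ (π f) ∈ restrictTotalDegree (ι ⊕ Fin 2) k _
      rw [show π f = 0 from Ideal.Quotient.eq_zero_iff_mem.2 hf, map_zero]
      exact zero_mem _
    · change φ (π (l j * f)) ∈ restrictTotalDegree (ι ⊕ Fin 2) k _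
      rw [map_mul, ← hX, ← Algebra.smul_def, map_smul, smul_eq_mul, mem_restrictTotalDegree]
      have h2 : (φ (π f)).totalDegree ≤ J + d := (mem_restrictTotalDegree _ _ _).1 hf
      have h3 := totalDegree_mul (X j : P) (φ (π f))
      rw [totalDegree_X] at h3
      omega
  set I := Ideal.span (Set.range fun i => l (.inl i))
  have hI : Hom I := hom_span (n := 1) (by rintro _ ⟨j, rfl⟩; exact hl _)
  have hrad' := h1.vx_le (((hp'.sup ha).sup hb).sup hI)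
  choose N hN using fun j => hrad' (mem_vx_of (hl (.inr j)) one_ne_zero)
  have hsplit : ∀ j, ∃ a b : MvPolynomial σ k, a.IsHomogeneous (N 0 + N 1) ∧
      b.IsHomogeneous (N 0 + N 1) ∧ a ∈ 𝔞 ⊔ (𝔭 ⊔ I) ∧ b ∈ 𝔟 ∧ l (.inr j) ^ (N 0 + N 1) = a + b := by
    intro j
    have h2 : l (.inr j) ^ (N 0 + N 1) ∈ (𝔞 ⊔ (𝔭 ⊔ I)) ⊔ 𝔟 := by
      have h3 : 𝔭 ⊔ 𝔞 ⊔ 𝔟 ⊔ I = (𝔞 ⊔ (𝔭 ⊔ I)) ⊔ 𝔟 := by ac_rfl
      rw [← h3]
      exact Ideal.pow_mem_of_pow_mem _ (hN j) (by fin_cases j <;> simp)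
    obtain ⟨a, h3, b, h4, h5⟩ := Submodule.mem_sup.1 h2
    refine ⟨_, _, homogeneousComponent_isHomogeneous _ a, homogeneousComponent_isHomogeneous _ b,
      (ha.sup (hp'.sup hI)).comp h3 _, hb.comp h4 _, ?_⟩
    rw [← map_add, h5, homogeneousComponent_eq_self (by simpa using (hl _).pow (N 0 + N 1))]
  choose a b h2 h3 h4 h5 h6 using hsplit
  have hker : ∀ {𝔮 : Ideal (MvPolynomial σ k)}, 𝔭 ≤ 𝔮 → RingHom.ker π ≤ 𝔮 := fun h f hf =>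
    h (Ideal.Quotient.eq_zero_iff_mem.1 hf)
  have hIle : ∀ {𝔮 : Ideal (MvPolynomial σ k)}, (∀ i, l (.inl i) ∈ 𝔮) → I ≤ 𝔮 := fun h =>
    Ideal.span_le.2 (by rintro _ ⟨i, rfl⟩; exact h i)
  have := Ideal.map_isPrime_of_surjective hπ (hker hpq₁)
  have := Ideal.map_isPrime_of_surjective hπ (hker hpq₂)
  have key := gc_core G hG (N := N 0 + N 1) (a := fun j => π (a j)) (b := fun j => π (b j))
    (fun j => hG1 (h2 j)) (fun j => hG1 (h3 j)) (fun j => by rw [hX, ← map_pow, h6, map_add])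
    (fun i j => by
      rw [Ideal.radical_eq_sInf, Ideal.mem_sInf]
      rintro 𝔯 ⟨h7, h8⟩
      have h9 : 𝔭 ≤ 𝔯.comap π := fun f hf => by
        rw [Ideal.mem_comap, show π f = 0 from Ideal.Quotient.eq_zero_iff_mem.2 hf]
        exact zero_mem _
      have h10 : ∀ i, l (.inl i) ∈ 𝔯.comap π := fun i => h7 (Ideal.subset_span ⟨i, hX _⟩)
      rcases hab (𝔯.comap π) inferInstance h9 h10 with h | h
      · exact Ideal.mul_mem_right _ _ (sup_le h (sup_le h9 (hIle h10)) (h4 i))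
      · exact Ideal.mul_mem_left _ _ (h (h5 j)))
    (𝔭 := 𝔮₁.map π) (𝔮 := 𝔮₂.map π) (fun i => hX _ ▸ Ideal.mem_map_of_mem _ (hl₁ i))
    (fun i => hX _ ▸ Ideal.mem_map_of_mem _ (hl₂ i))
    (fun j => Ideal.mem_map_of_mem _ (sup_le ha₁ (sup_le hpq₁ (hIle hl₁)) (h4 j)))
    (fun j => Ideal.mem_map_of_mem _ (hb₂ (h5 j)))
  have hend : ∀ 𝔮 : Ideal (MvPolynomial σ k), 𝔮.IsPrime → 𝔭 ≤ 𝔮 → (∀ i, l (.inl i) ∈ 𝔮) →
      (∀ j, algebraMap P R (X (.inr j)) ∈ 𝔮.map π) → dI 𝔮 = 0 := by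
    intro 𝔮 hq h7 h8 h9
    refine le_antisymm (h0 𝔮 hq (sup_le h7 (Ideal.span_le.2 ?_))) zero_le
    rintro _ ⟨i | j, rfl⟩
    · exact h8 i
    · have h10 := h9 j
      rw [hX, ← Ideal.mem_comap, Ideal.comap_map_of_surjective _ hπ] at h10
      exact sup_le le_rfl (hker h7) h10
  exact key.imp (hend _ hq₁ hpq₁ hl₁) (hend _ hq₂ hpq₂ hl₂)

/-- Components of the hyperplane section `x = 0`. -/
structure Top (𝔭 : Ideal (MvPolynomial σ k)) (x : MvPolynomial σ k)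
    (𝔮 : Ideal (MvPolynomial σ k)) : Prop where
  prime : 𝔮.IsPrime
  le : 𝔭 ≤ 𝔮
  mem : x ∈ 𝔮
  dim : dI 𝔭 ≤ dI 𝔮 + 1

section
variable {𝔭 𝔮 : Ideal (MvPolynomial σ k)} {x : MvPolynomial σ k}

theorem exists_top (hp : 𝔭.IsPrime) (hq : 𝔮.IsPrime) (h : 𝔭 ≤ 𝔮) (hx : x ∈ 𝔮) :
    ∃ 𝔯, Top 𝔭 x 𝔯 ∧ 𝔯 ≤ 𝔮 := by
  obtain ⟨𝔯, h1, h2, h3, h4, h5⟩ := dI_krull hp hq h (fun _ : Fin 1 => x) fun _ => hx
  exact ⟨𝔯, ⟨h1, h2, h4 0, h5⟩, h3⟩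

theorem Top.min (h : Top 𝔭 x 𝔮) (hp : 𝔭.IsPrime) (hx : x ∉ 𝔭) :
    𝔮 ∈ (𝔭 ⊔ Ideal.span {x}).minimalPrimes := by
  refine ⟨⟨h.prime, sup_le h.le ((Ideal.span_singleton_le_iff_mem _).2 h.mem)⟩, ?_⟩
  rintro 𝔯 ⟨h1, h2⟩ h3
  by_contra h4
  have h5 := dI_lt h1 h.prime h3 h4
  have h6 := dI_lt hp h1 (le_sup_left.trans h2) fun h =>
    hx (h (h2 (Ideal.mem_sup_right (Ideal.mem_span_singleton_self _))))
  have h7 := (h6.trans h.dim).trans h5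
  exact lt_irrefl _ ((ENat.add_one_le_iff (dI_ne_top h1)).1 h7)

theorem Top.hom (h : Top 𝔭 x 𝔮) (hp : 𝔭.IsPrime) (hp' : Hom 𝔭) {n : ℕ} (hx' : x.IsHomogeneous n)
    (hx : x ∉ 𝔭) : Hom 𝔮 := by
  have h1 := h.min hp hx
  obtain ⟨𝔯, h2, h3, h4, h5⟩ :=
    (hp'.sup (hom_span (n := n) (s := {x}) (by rintro _ rfl; exact hx'))).core h.prime h1.1.2
  exact le_antisymm h5 (h1.2 ⟨h2, h4⟩ h5) ▸ h3

/-- Connectedness in codimension one. -/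
theorem conn [Infinite k] (hp : 𝔭.IsPrime) (hp' : Hom 𝔭) (hx' : x.IsHomogeneous 1) (hx : x ∉ 𝔭)
    (Q : Ideal (MvPolynomial σ k) → Prop) {𝔮₁ 𝔮₂ : Ideal (MvPolynomial σ k)} (h₁ : Top 𝔭 x 𝔮₁)
    (h₂ : Top 𝔭 x 𝔮₂) (hQ₁ : Q 𝔮₁) (hQ₂ : ¬ Q 𝔮₂) :
    ∃ 𝔯₁ 𝔯₂ 𝔡, Top 𝔭 x 𝔯₁ ∧ Top 𝔭 x 𝔯₂ ∧ Q 𝔯₁ ∧ ¬ Q 𝔯₂ ∧ 𝔡.IsPrime ∧ Hom 𝔡 ∧ 𝔯₁ ≤ 𝔡 ∧ 𝔯₂ ≤ 𝔡 ∧
      dI 𝔭 ≤ dI 𝔡 + 2 := by
  by_contra hcon
  obtain ⟨n, hn⟩ := ENat.ne_top_iff_exists.1 (dI_ne_top hp)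
  have hv₁ := (h₁.hom hp hp' hx' hx).le_vx h₁.prime
  have hv₂ := (h₂.hom hp hp' hx' hx).le_vx h₂.prime
  obtain ⟨j, rfl⟩ : ∃ j, n = j + 3 := by
    by_contra h
    refine hcon ⟨𝔮₁, 𝔮₂, vx k σ, h₁, h₂, hQ₁, hQ₂, inferInstance, hom_vx, hv₁, hv₂, ?_⟩
    rw [← hn, dI_vx, zero_add]
    have : n ≤ 2 := by
      by_contra h'
      exact h ⟨n - 3, by omega⟩
    exact_mod_cast this
  have hinf : ∀ Q' : Ideal (MvPolynomial σ k) → Prop, ∃ 𝔞, Hom 𝔞 ∧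
      ∀ 𝔮, 𝔮.IsPrime → (𝔞 ≤ 𝔮 ↔ ∃ 𝔯, Top 𝔭 x 𝔯 ∧ Q' 𝔯 ∧ 𝔯 ≤ 𝔮) := by
    intro Q'
    have hf : {𝔯 | Top 𝔭 x 𝔯 ∧ Q' 𝔯}.Finite :=
      ((𝔭 ⊔ Ideal.span {x}).finite_minimalPrimes_of_isNoetherianRing _).subset
        fun _ h => h.1.min hp hx
    refine ⟨sInf {𝔯 | Top 𝔭 x 𝔯 ∧ Q' 𝔯},
      Ideal.IsHomogeneous.sInf fun _ h => h.1.hom hp hp' hx' hx, fun 𝔮 hq => ?_⟩
    rw [← hf.coe_toFinset, ← Finset.inf_id_eq_sInf, hq.inf_le']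
    simp [and_assoc]
  obtain ⟨𝔞, ha, ha'⟩ := hinf Q
  obtain ⟨𝔟, hb, hb'⟩ := hinf fun 𝔯 => ¬ Q 𝔯
  have hD1 : Dle (𝔭 ⊔ Ideal.span {x}) (2 + j) := fun 𝔮 hq hle => by
    have h1 := dI_lt hp hq (le_sup_left.trans hle) fun h =>
      hx (h (hle (Ideal.mem_sup_right (Ideal.mem_span_singleton_self _))))
    rw [← hn, show j + 3 = (2 + j) + 1 by omega, Nat.cast_add_one] at h1
    exact (ENat.add_le_add_iff_right ENat.one_ne_top).1 h1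
  have hD2 : Dle (𝔭 ⊔ 𝔞 ⊔ 𝔟) (0 + j) := fun 𝔮 hq hle => by
    obtain ⟨𝔡, h1, h2, h3, h4⟩ := ((hp'.sup ha).sup hb).core hq hle
    obtain ⟨𝔯₁, h5, h6, h7⟩ := (ha' 𝔡 h1).1 ((le_sup_right.trans le_sup_left).trans h3)
    obtain ⟨𝔯₂, h8, h9, h10⟩ := (hb' 𝔡 h1).1 (le_sup_right.trans h3)
    refine (dI_mono h1 hq h4).trans ?_
    by_contra h11
    refine hcon ⟨𝔯₁, 𝔯₂, 𝔡, h5, h8, h6, h9, h1, h2, h7, h10, ?_⟩
    obtain ⟨m, hm⟩ := ENat.ne_top_iff_exists.1 (dI_ne_top h1)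
    rw [← hm] at h11 ⊢
    rw [← hn]
    have : ¬ m ≤ 0 + j := by exact_mod_cast h11
    have : j + 3 ≤ m + 2 := by omega
    exact_mod_cast this
  obtain ⟨l, hl, hl1, hl2⟩ := cuts j (𝔭 ⊔ Ideal.span {x}) (𝔭 ⊔ 𝔞 ⊔ 𝔟)
  obtain ⟨y, hy, hy1, -⟩ := cuts 2 (𝔭 ⊔ Ideal.span {x} ⊔ Ideal.span (Set.range l)) ⊤
  have hcut : ∀ 𝔮, Top 𝔭 x 𝔮 → 𝔮 ≤ vx k σ → ∃ 𝔯 : Ideal (MvPolynomial σ k), 𝔯.IsPrime ∧ 𝔮 ≤ 𝔯 ∧
      (∀ i, (Fin.cons x l : Fin (j + 1) → _) i ∈ 𝔯) ∧ dI 𝔯 ≠ 0 := by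
    intro 𝔮 h hv
    obtain ⟨𝔯, h1, h2, -, h4, h5⟩ := dI_krull h.prime inferInstance hv l
      fun i => mem_vx_of (hl i) one_ne_zero
    refine ⟨𝔯, h1, h2, Fin.cases (h2 h.mem) h4, fun h6 => ?_⟩
    have h7 := h.dim.trans (add_le_add_left h5 1)
    rw [h6, ← hn, zero_add] at h7
    have : j + 3 ≤ j + 1 := by exact_mod_cast h7
    omega
  obtain ⟨𝔯₁, h1, h2, h3, h4⟩ := hcut 𝔮₁ h₁ hv₁
  obtain ⟨𝔯₂, h5, h6, h7, h8⟩ := hcut 𝔮₂ h₂ hv₂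
  refine (gc_gr (ι := Fin (j + 1)) (l := Sum.elim (Fin.cons x l) y) hp hp' ?_ ?_ ?_ ha hb ?_ ?_
    h1 h5 (h₁.le.trans h2) (h₂.le.trans h6) h3 h7 ((ha' _ h1).2 ⟨_, h₁, hQ₁, h2⟩)
    ((hb' _ h5).2 ⟨_, h₂, hQ₂, h6⟩)).elim h4 h8
  · rintro (i | i)
    · exact Fin.cases (motive := fun i => IsHomogeneous (Fin.cons (α := fun _ => _) x l i) 1)
        hx' hl i
    · exact hy i
  · rw [← hn]
    simp
    rfl
  · rw [Set.Sum.elim_range, Fin.range_cons, Ideal.span_union, Ideal.span_insert, ← sup_assoc,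
      ← sup_assoc]
    exact hy1 0 (hl1 2 hD1)
  · intro 𝔮 hq h9 h10
    obtain ⟨𝔯, h11, h12⟩ := exists_top hp hq h9 (h10 0)
    by_cases h : Q 𝔯
    · exact .inl ((ha' _ hq).2 ⟨𝔯, h11, h, h12⟩)
    · exact .inr ((hb' _ hq).2 ⟨𝔯, h11, h, h12⟩)
  · intro 𝔮 hq h9
    refine hl2 0 hD2 𝔮 hq (sup_le (le_sup_left.trans h9) (Ideal.span_le.2 ?_))
    rintro _ ⟨i, rfl⟩
    exact h9 (Ideal.mem_sup_right (Ideal.subset_span ⟨i.succ, rfl⟩))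

end

end PR0.Z
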