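import Pool.Agent.Work.MP_da2620_ag.ZP3
import Pool.Agent.Work.MP_da2620_ag.ZG2

-- merged part: Pool.Agent.Work.MP_da2620_ag.ZG3
section
-- merged part: Pool.Agent.Work.MP_da2620_ag.ZA1
section
/-!
# Integral models of configurations over the Hahn field
-/

namespace PR0.Z

open Polynomial Matrix

universe u

variable {κ : Type u} [Field κ]

/-- `x` is integral with residue `c`. -/
def Red (x : HF κ) (c : κ) : Prop := ∃ x' : HO κ, (x' : HF κ) = x ∧ hres x' = c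

theorem Red.of (x : HO κ) : Red (x : HF κ) (hres x) := ⟨x, rfl, rfl⟩

theorem Red.unique {x : HF κ} {c c' : κ} (h : Red x c) (h' : Red x c') : c = c' := by
  obtain ⟨y, rfl, rfl⟩ := h
  obtain ⟨y', h1, rfl⟩ := h'
  rw [Subtype.ext h1]

theorem Red.mul {x y : HF κ} {c d : κ} (h : Red x c) (h' : Red y d) : Red (x * y) (c * d) := by
  obtain ⟨x, rfl, rfl⟩ := h
  obtain ⟨y, rfl, rfl⟩ := h'
  exact ⟨x * y, rfl, map_mul _ _ _⟩

theorem Red.pow {x : HF κ} {c : κ} (h : Red x c) (n : ℕ) : Red (x ^ n) (c ^ n) := by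
  obtain ⟨x, rfl, rfl⟩ := h
  exact ⟨x ^ n, rfl, map_pow _ _ _⟩

theorem Red.inv {x : HF κ} {c : κ} (h : Red x c) (hc : c ≠ 0) : x ≠ 0 ∧ Red x⁻¹ c⁻¹ := by
  obtain ⟨x, rfl, rfl⟩ := h
  have h1 : IsUnit x := isUnit_HO.2 (le_antisymm (not_lt.1 fun h => hc (hres_eq_zero.2 h)) x.2)
  obtain ⟨y, hy⟩ := h1.exists_right_inv
  have h2 : (x : HF κ) * y = 1 := congrArg Subtype.val hy
  refine ⟨left_ne_zero_of_mul_eq_one h2, y, eq_inv_of_mul_eq_one_right h2,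
    eq_inv_of_mul_eq_one_right ?_⟩
  rw [← map_mul, hy, map_one]

theorem Red.div {x y : HF κ} {c d : κ} (h : Red x c) (h' : Red y d) (hd : d ≠ 0) :
    Red (x / y) (c / d) := by
  rw [div_eq_mul_inv, div_eq_mul_inv]
  exact h.mul (h'.inv hd).2

theorem Red.root {x : HF κ} {c : κ} {n : ℕ} (hn : n ≠ 0) (h : Red (x ^ n) c) :
    ∃ d, Red x d ∧ d ^ n = c := by
  have h1 : x ∈ HO κ := by
    rcases (HO κ).mem_or_inv_mem x with h1 | h1
    · exact h1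
    · obtain ⟨y, h2, -⟩ := h
      obtain ⟨n, rfl⟩ := Nat.exists_eq_succ_of_ne_zero hn
      by_cases hx : x = 0
      · exact hx ▸ zero_mem _
      have : x = y * x⁻¹ ^ n := by
        rw [h2, pow_succ', inv_pow, mul_assoc, mul_inv_cancel₀ (pow_ne_zero _ hx), mul_one]
      exact this ▸ mul_mem y.2 (pow_mem h1 n)
  exact ⟨_, Red.of ⟨x, h1⟩, ((Red.of ⟨x, h1⟩).pow n).unique h⟩

/-- The theta point of `α`, scaled by `w`, reduces to `t`. -/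
def PA (α : Fin 5 → HF κ) (w : HF κ) (t : Equiv.Perm (Fin 5) → κ) : Prop :=
  ∀ σ, Red (w * TT α σ) (t σ)

theorem PA.rcr {α : Fin 5 → HF κ} {w : HF κ} {t : Equiv.Perm (Fin 5) → κ} (h : PA α w t)
    {σ : Equiv.Perm (Fin 5)} (hd : den t σ ≠ 0) : α (σ 1) - α (σ 0) ≠ 0 ∧
      Red ((α (σ 2) - α (σ 0)) / (α (σ 1) - α (σ 0))) (cr t σ) := by
  choose t' h1 h2 using h
  have h3 : Red (den (fun τ => w * TT α τ) σ) (den t σ) :=
    ⟨den t' σ, by simpa [h1] using den_map (HO κ).subtype t' σ,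
      by simpa [h2] using den_map hres t' σ⟩
  have h4 : Red (num (fun τ => w * TT α τ) σ) (num t σ) :=
    ⟨num t' σ, by simpa [h1] using num_map (HO κ).subtype t' σ,
      by simpa [h2] using num_map hres t' σ⟩
  obtain ⟨h5, h6⟩ := cr_TT (h3.inv hd).1
  exact ⟨h5, h6 ▸ h4.div h3 hd⟩

theorem PA.comp {α : Fin 5 → HF κ} {w w₀ a c : HF κ} {t t₀ : Equiv.Perm (Fin 5) → κ}
    {π : Equiv.Perm (Fin 5)} (h : PA α w t) (h₀ : PA (fun i => a * α (π i) + c) w₀ t₀)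
    (ht : t ≠ 0) (ht₀ : t₀ ≠ 0) : ∃ (r : κ) (r' : HF κ), r ≠ 0 ∧ Red r' r ∧ w = r' * (w₀ * a ^ 4) ∧
      ∀ σ, t (π * σ) = r * t₀ σ := by
  simp only [PA, TT_aff, ← mul_assoc] at h₀
  obtain ⟨σ₀, h1⟩ := Function.ne_iff.1 ht₀
  obtain ⟨σ₁, h2⟩ := Function.ne_iff.1 ht
  have h3 := (h (π * σ₀)).div (h₀ σ₀) h1
  have h4 := ((h₀ σ₀).inv h1).1
  have h5 : w = w * TT α (π * σ₀) / (w₀ * a ^ 4 * TT α (π * σ₀)) * (w₀ * a ^ 4) := by
    rw [mul_div_mul_right _ _ (right_ne_zero_of_mul h4), div_mul_cancel₀ _ (left_ne_zero_of_mul h4)]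
  have h6 : ∀ σ, t (π * σ) = t (π * σ₀) / t₀ σ₀ * t₀ σ := fun σ => by
    refine (h (π * σ)).unique ?_
    have h7 := h3.mul (h₀ σ)
    rwa [← mul_assoc, ← h5] at h7
  refine ⟨_, _, fun h7 => h2 ?_, h3, h5, h6⟩
  have h8 := h6 (π⁻¹ * σ₁)
  rwa [h7, zero_mul, mul_inv_cancel_left] at h8

variable {p : ℕ} [Fact p.Prime] [CharP κ p]

theorem pu_zero {R : Type u} [CommRing R] (U : Fin 5 → R) {A : Fin 5 → R} (h : A 0 = 0) :
    (pu U A).coeff 0 = 0 := by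
  rw [coeff_zero_eq_eval_zero, pu, eval_prod]
  exact Finset.prod_eq_zero (Finset.mem_univ 0) (by simp [h])

theorem pu_deg {R : Type u} [CommRing R] (U A : Fin 5 → R) : (pu U A).natDegree ≤ 5 := by
  rw [pu, Fin.prod_univ_five]
  compute_degree

theorem model (hp : p ≠ 2) {U A : Fin 5 → HO κ} (hU : ∀ i, U i ≠ 0) (h0 : A 0 = 0) :
    (((∏ i, U i : HO κ) : HF κ) ^ 2) ^ (p / 2) * Dc p (fun i => (A i : HF κ) / (U i : HF κ)) =
      ((Phi p (pu U A)).det : HO κ) ∧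
    ∀ h, HC p (fun i => (A i : HF κ) / (U i : HF κ)) h →
      HH p ((Phi p (pu U A)).map (HO κ).subtype) ((Psi p (pu U A)).map (HO κ).subtype)
        ((((∏ i, U i : HO κ) : HF κ) ^ 2) ^ (p / 2 * (p + 1)) * h) := by
  have h1 := pu_div (U := fun i => (U i : HF κ)) (fun i h => hU i (Subtype.ext h))
    fun i => (A i : HF κ)
  have h2 : (pu U A).map (HO κ).subtype = pu (fun i => (U i : HF κ)) fun i => (A i : HF κ) :=
    pu_map _ _ _
  have h3 : ((∏ i, U i : HO κ) : HF κ) = ∏ i, (U i : HF κ) := by push_cast; rfl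
  obtain ⟨m, hm⟩ := odd_p hp
  constructor
  · refine Eq.trans ?_ ((HO κ).subtype.map_det (Phi p (pu U A))).symm
    rw [RingHom.mapMatrix_apply, ← Phi_map, h2, ← h1, Phi_C_mul, det_smul, h3, Dc,
      Fintype.card_fin, ← pow_mul, ← pow_mul, mul_comm 2]
  · intro h hH
    rw [← Phi_map, ← Psi_map, h2, ← h1, h3]
    simp only [HC, h0, ZeroMemClass.coe_zero, zero_div, sub_zero] at hH
    have h4 := HH.comp hp (fz_deg _).le (fz_zero (i := 0) (by simp [h0])) (d := 1) (c := 0)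
      (e := ∏ i, (U i : HF κ)) one_ne_zero (by simpa using fz_zero (i := 0) (by simp [h0])) hH
    simp only [map_one, one_mul, map_zero, add_zero, comp_X, one_pow, mul_one] at h4
    convert h4 using 2
    rw [← pow_mul, ← pow_mul, show p - 1 = 2 * (p / 2) by omega]
    congr 1
    ring

omit [Fact p.Prime] [CharP κ p] in
theorem model_T {U : Fin 5 → HO κ} (hU : ∀ i, U i ≠ 0) (A : Fin 5 → HO κ)
    (σ : Equiv.Perm (Fin 5)) :
    ((∏ i, U i : HO κ) : HF κ) ^ 2 * TT (fun i => (A i : HF κ) / (U i : HF κ)) σ = (TU U A σ : HO κ) := by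
  have h3 : ((∏ i, U i : HO κ) : HF κ) = ∏ i, (U i : HF κ) := by push_cast; rfl
  rw [h3, TU_div fun i h => hU i (Subtype.ext h)]
  exact (TU_map (HO κ).subtype U A σ).symm

theorem caseI [IsAlgClosed κ] (hp : p ≠ 2) {U A : Fin 5 → HO κ} (hU : ∀ i, U i ≠ 0) (h0 : A 0 = 0)
    {u a : Fin 5 → κ} (hu : ∀ i, hres (U i) = u i) (ha : ∀ i, hres (A i) = a i)
    (h1 : ∀ i, u i ≠ 0 ∨ a i ≠ 0)
    (h3 : ∀ i j l, i ≠ j → i ≠ l → j ≠ l → br u a i j = 0 → br u a i l ≠ 0)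
    (h4 : 4 ≤ (pu u a).natDegree) :
    PA (fun i => (A i : HF κ) / (U i : HF κ)) (((∏ i, U i : HO κ) : HF κ) ^ 2) (TU u a) ∧
    Red ((((∏ i, U i : HO κ) : HF κ) ^ 2) ^ (p / 2) * Dc p (fun i => (A i : HF κ) / (U i : HF κ)))
      (Phi p (pu u a)).det ∧
    ∀ h, HC p (fun i => (A i : HF κ) / (U i : HF κ)) h → ∃ c,
      Red ((((∏ i, U i : HO κ) : HF κ) ^ 2) ^ (p / 2 * (p + 1)) * h) c ∧
        (c = 0 ↔ Nil2 p (pu u a)) := by
  obtain ⟨h5, h6⟩ := model hp hU h0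
  have h7 : (pu U A).map hres.toRingHom = pu u a := by
    rw [pu_map]
    congr 1 <;> ext i
    exacts [hu i, ha i]
  have h8 : (Phi p (pu U A)).map hres = Phi p (pu u a) := by
    rw [← h7, Phi_map]
    rfl
  have h9 : (Psi p (pu U A)).map hres = Psi p (pu u a) := by
    rw [← h7, Psi_map]
    rfl
  refine ⟨fun σ => ⟨_, (model_T hU A σ).symm, by simp only [TU_map, hu, ha]⟩,
    ⟨_, h5.symm, ?_⟩, fun h hH => ?_⟩
  · rw [← h8]
    exact hres.map_det _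
  · obtain ⟨h', h10, h11⟩ := lin (h6 h hH) fun β => by
      rw [h8, h9]
      exact key2 hp h4 (pu_deg _ _) (pu_zero _ (by rw [← ha, h0, map_zero])) (rm_pu h1 h3)
    exact ⟨_, ⟨h', h10.symm, rfl⟩, by rw [Nil2, ← h8]; exact h11⟩

theorem pigeon : ∀ a b c d e : Fin 5, a ≠ b → a ≠ c → a ≠ d → a ≠ e → b ≠ c → b ≠ d → b ≠ e →
    c ≠ d → c ≠ e → d ≠ e →
    (a < 3 ∧ b < 3) ∨ (b < 3 ∧ c < 3) ∨ (a < 3 ∧ c < 3) ∨ (d < 3 ∧ e < 3) := by decide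

omit [Fact p.Prime] [CharP κ p] in
theorem caseII_T (k : Type u) [Field k] [Algebra k κ] {ε l b : HO κ} (hε : ε ≠ 0)
    (hε' : hres ε = 0) (hb : b ≠ 0) : ∃ t : Equiv.Perm (Fin 5) → κ,
      PA ![0, (ε : HF κ), ε * l, 1, (b : HF κ)⁻¹] ((b : HF κ) ^ 2 / (ε : HF κ)) t ∧
        ∀ σ, t σ ∈ Algebra.adjoin k {hres l, hres b} := by
  let L := (Algebra.adjoin k {hres l, hres b}).toSubring.comap hres.toRingHom
  let U : Fin 5 → HO κ := ![1, 1, 1, 1, b]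
  let A : Fin 5 → HO κ := ![0, ε, ε * l, 1, 1]
  have hl : l ∈ L := mem_adj1 _ _
  have hεL : ε ∈ L := by
    change hres ε ∈ Algebra.adjoin k _
    rw [hε']
    exact zero_mem _
  have hU : ∀ i, U i ∈ L := fun i => by
    fin_cases i
    exacts [one_mem _, one_mem _, one_mem _, one_mem _, mem_adj2 _ _]
  have hA : ∀ i, A i ∈ L := fun i => by
    fin_cases i
    exacts [zero_mem _, hεL, mul_mem hεL hl, one_mem _, one_mem _]
  have h1 : ∀ i j, br U A i j ∈ L := fun i j =>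
    sub_mem (mul_mem (hA _) (hU _)) (mul_mem (hA _) (hU _))
  have h2 : ∀ i j, i < 3 ∧ j < 3 → ∃ e ∈ L, br U A i j = ε * e := by
    have h3 : ∀ i, i < 3 → U i = 1 ∧ ∃ e ∈ L, A i = ε * e := fun i hi => by
      fin_cases i
      · exact ⟨rfl, 0, zero_mem _, (mul_zero _).symm⟩
      · exact ⟨rfl, 1, one_mem _, (mul_one _).symm⟩
      · exact ⟨rfl, l, hl, rfl⟩
      · simp at hi
      · simp at hi
    intro i j h
    obtain ⟨h4, e, h5, h6⟩ := h3 i h.1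
    obtain ⟨h7, e', h8, h9⟩ := h3 j h.2
    exact ⟨e - e', sub_mem h5 h8, by rw [br, h4, h6, h7, h9]; ring⟩
  have h3 : ∀ σ : Equiv.Perm (Fin 5), ∃ e ∈ L, TU U A σ = ε * e := by
    intro σ
    have h4 : ∀ {i j}, i ≠ j → σ i ≠ σ j := fun h => σ.injective.ne h
    rcases pigeon (σ 0) (σ 1) (σ 2) (σ 3) (σ 4) (h4 (by decide)) (h4 (by decide)) (h4 (by decide))
      (h4 (by decide)) (h4 (by decide)) (h4 (by decide)) (h4 (by decide)) (h4 (by decide))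
      (h4 (by decide)) (h4 (by decide)) with h | h | h | h <;> obtain ⟨e, h5, h6⟩ := h2 _ _ h
    · exact ⟨_, mul_mem (mul_mem (mul_mem (mul_mem (mul_mem h5 (h1 (σ 1) (σ 2))) (h1 (σ 0) (σ 2)))
        (h1 (σ 3) (σ 4))) (hU (σ 3))) (hU (σ 4)), by rw [TU, h6]; ring⟩
    · exact ⟨_, mul_mem (mul_mem (mul_mem (mul_mem (mul_mem h5 (h1 (σ 0) (σ 1))) (h1 (σ 0) (σ 2)))
        (h1 (σ 3) (σ 4))) (hU (σ 3))) (hU (σ 4)), by rw [TU, h6]; ring⟩
    · exact ⟨_, mul_mem (mul_mem (mul_mem (mul_mem (mul_mem h5 (h1 (σ 0) (σ 1))) (h1 (σ 1) (σ 2)))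
        (h1 (σ 3) (σ 4))) (hU (σ 3))) (hU (σ 4)), by rw [TU, h6]; ring⟩
    · exact ⟨_, mul_mem (mul_mem (mul_mem (mul_mem (mul_mem h5 (h1 (σ 0) (σ 1))) (h1 (σ 1) (σ 2)))
        (h1 (σ 0) (σ 2))) (hU (σ 3))) (hU (σ 4)), by rw [TU, h6]; ring⟩
  choose e he he' using h3
  refine ⟨fun σ => hres (e σ), fun σ => ⟨e σ, ?_, rfl⟩, he⟩
  have h4 := model_T (U := U) (fun i => by fin_cases i <;> simp [U, hb]) A σ
  have h5 : (fun i => (A i : HF κ) / (U i : HF κ)) = ![0, (ε : HF κ), ε * l, 1, (b : HF κ)⁻¹] := by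
    ext i
    fin_cases i <;> simp [U, A]
  have h6 : ∏ i, U i = b := by simp [U, Fin.prod_univ_five]
  have h7 : (ε : HF κ) ≠ 0 := fun h => hε (Subtype.ext h)
  rw [h5, h6, he'] at h4
  rw [div_mul_eq_mul_div, h4]
  push_cast
  rw [mul_div_cancel_left₀ _ h7]

theorem caseII [IsAlgClosed κ] (hp : p ≠ 2) {ε l b : HO κ} (hε : ε ≠ 0) (hε' : hres ε = 0)
    (hb : b ≠ 0) :
    Red (((b : HF κ) ^ 2 / (ε : HF κ)) ^ (p / 2) * Dc p ![0, (ε : HF κ), ε * l, 1, (b : HF κ)⁻¹])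
      (has p 1 (hres l) * has p (hres b) 1) ∧
    ∀ h, HC p ![0, (ε : HF κ), ε * l, 1, (b : HF κ)⁻¹] h → ∃ c,
      Red (((b : HF κ) ^ 2 / (ε : HF κ)) ^ (p / 2 * (p + 1)) * h) c ∧
        (c = 0 ↔ has p 1 (hres l) = 0 ∧ has p (hres b) 1 = 0) := by
  let U : Fin 5 → HO κ := ![1, 1, 1, 1, b]
  let A : Fin 5 → HO κ := ![0, ε, ε * l, 1, 1]
  obtain ⟨h1, h2⟩ := model hp (U := U) (A := A) (fun i => by fin_cases i <;> simp [U, hb]) rfl
  obtain h5 : (fun i => (A i : HF κ) / (U i : HF κ)) = ![0, (ε : HF κ), ε * l, 1, (b : HF κ)⁻¹] := by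
    ext i
    fin_cases i <;> simp [U, A]
  have h6 : ∏ i, U i = b := by simp [U, Fin.prod_univ_five]
  have h7 : (ε : HF κ) ≠ 0 := fun h => hε (Subtype.ext h)
  rw [h5, h6] at h1 h2
  obtain ⟨δ, rfl, hδ⟩ : ∃ δ : HO κ, ε = δ ^ 2 ∧ hres δ = 0 := by
    obtain ⟨δ, h⟩ := IsAlgClosed.exists_pow_nat_eq (ε : HF κ) two_pos
    obtain ⟨d, ⟨δ, rfl, rfl⟩, h3⟩ := Red.root two_ne_zero (h ▸ Red.of ε)
    exact ⟨δ, Subtype.ext h.symm, pow_eq_zero_iff two_ne_zero |>.1 (h3.trans hε')⟩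
  have hδ0 : (δ : HF κ) ≠ 0 := fun h => h7 (by simp [h])
  set f := pu U A with hf
  set g : (HO κ)[X] := X * (X - 1) * (X - C l) * (C (δ ^ 2) * X - 1) * (C (b * δ ^ 2) * X - 1)
    with hg
  obtain h8 : f.comp (C (δ ^ 2) * X) = C ((δ ^ 2) ^ 3) * g := by
    clear * - κ f δ g l b U A hf hg
    simp only [hf, hg, pu, U, A, Fin.prod_univ_five, cons_val_zero, cons_val_one, cons_val,
      mul_comp, sub_comp, C_comp, X_comp, C_mul, C_pow, C_1, C_0, one_comp, zero_comp, pow_comp]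
    ring
  obtain h9 : ∀ n j, n + j = 3 * (p / 2) →
      (f ^ (p / 2)).coeff n = δ ^ (2 * j) * (g ^ (p / 2)).coeff n := by
    clear * - p κ f δ g h8 hε
    intro n j h
    have h10 := congrArg (fun q => (q ^ (p / 2)).coeff n) h8
    simp only [← pow_comp, comp_C_mul_X_coeff, mul_pow, ← C_pow, coeff_C_mul] at h10
    refine mul_right_cancel₀ (pow_ne_zero n hε) ?_
    rw [h10, ← pow_mul _ 3, ← h]
    ring
  obtain h10 : f.coeff 1 = δ ^ 4 * g.coeff 1 := by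
    have h10 := congrArg (coeff · 1) h8
    simp only [comp_C_mul_X_coeff, coeff_C_mul] at h10
    refine mul_right_cancel₀ hε ?_
    linear_combination h10
  obtain hfr : f.map hres.toRingHom = X ^ 2 * (X * (X - 1) * (C (hres b) * X - C 1)) := by
    clear * - κ f b δ l U A hf hδ
    simp [hf, pu, U, A, Fin.prod_univ_five, hδ]
    ring
  obtain hgr : g.map hres.toRingHom = X * (X - 1) * (C 1 * X - C (hres l)) := by
    simp [hg, hδ]
  have hc : ∀ (q : (HO κ)[X]) n, hres ((q ^ (p / 2)).coeff n) =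
      (q.map hres.toRingHom ^ (p / 2)).coeff n := fun q n => by
    rw [← Polynomial.map_pow, coeff_map]
    rfl
  have hc' : ∀ (q : (HO κ)[X]) n, hres (q.coeff n) = (q.map hres.toRingHom).coeff n :=
    fun q n => by rw [coeff_map]; rfl
  obtain ⟨m, hm⟩ := odd_p hp
  have hm' : p / 2 = m + 1 := by omega
  have e1 := h9 (p - 1) (m + 1) (by omega)
  have e2 := h9 (p - 2) (m + 2) (by omega)
  have e3 := h9 p m (by omega)
  have e4 := h9 (p - 3) (m + 3) (by omega)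
  let Φ : Matrix (Fin 2) (Fin 2) (HO κ) :=
    !![(g ^ (p / 2)).coeff (p - 1), δ * (f ^ (p / 2)).coeff (2 * p - 1);
      δ * (g ^ (p / 2)).coeff (p - 2), (f ^ (p / 2)).coeff (2 * p - 2)]
  let Ψ : Matrix (Fin 2) (Fin 2) (HO κ) :=
    !![g.coeff 1 * (g ^ (p / 2)).coeff p, δ ^ 3 * (g.coeff 1 * (f ^ (p / 2)).coeff (2 * p));
      δ ^ 3 * (f.coeff 5 * (g ^ (p / 2)).coeff (p - 3)),
        f.coeff 5 * (f ^ (p / 2)).coeff (2 * p - 3)]
  have r1 : hres ((g ^ (p / 2)).coeff (p - 1)) = has p 1 (hres l) := by rw [hc, hgr, has]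
  obtain r2 : hres ((f ^ (p / 2)).coeff (2 * p - 2)) = has p (hres b) 1 := by
    rw [hc, hfr, show 2 * p - 2 = p - 1 + 2 * (p / 2) by omega, coeff_X2, has]
  obtain hΦ : Φ.map hres = !![has p 1 (hres l), 0; 0, has p (hres b) 1] := by
    clear * - κ Φ p l b g δ f r1 hδ r2
    ext i j
    fin_cases i <;> fin_cases j <;> simp [Φ, hδ, r1, r2]
  constructor
  · refine ⟨Φ.det, ?_, ?_⟩
    · rw [div_pow, div_mul_eq_mul_div, h1, eq_div_iff (pow_ne_zero _ h7)]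
      norm_cast
      simp only [det_fin_two, Φ, Phi_eq, e1, e2, of_apply, cons_val', cons_val_zero, cons_val_one,
        cons_val_fin_one]
      rw [hm']
      ring
    · rw [show hres Φ.det = (Φ.map hres).det from hres.map_det _, hΦ, det_fin_two]
      simp
  · intro h hH
    have h11 := (h2 h hH).rescale (Φ' := Φ.map (HO κ).subtype) (Ψ' := Ψ.map (HO κ).subtype) hδ0
      (by clear * - κ δ p Φ f g m e1 hm; simp [Φ, Phi_eq, e1]; rw [hm]; ring) (by simp [Φ, Phi_eq])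
      (by clear * - κ δ p Φ f g m e2 hm; simp [Φ, Phi_eq, e2]; rw [hm]; ring) (by simp [Φ, Phi_eq])
      (by simp [Ψ, Psi, e3, h10]; rw [hm]; ring) (by clear * - κ δ Ψ p f g h10; simp [Ψ, Psi, h10]; ring)
      (by clear * - κ δ p Ψ f g m e4 hm; simp [Ψ, Psi, e4]; rw [hm]; ring) (by simp [Ψ, Psi])
    obtain ⟨h', h12, h13⟩ := lin h11 fun β h12 h13 => by
      clear * - κ p l b β Φ hΦ h12 Ψ h13 g δ f hδ hc' hc hp hgr hfr m hm hm'
      rw [hΦ] at h12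
      have k1 := congrFun h12 0
      have k2 := congrFun h12 1
      have k3 := congrFun h13 0
      have k4 := congrFun h13 1
      simp only [mulVec, dotProduct, Fin.sum_univ_two, Ψ, map_apply, of_apply, cons_val',
        cons_val_zero, cons_val_one, cons_val_fin_one, map_mul, map_pow, hδ, Pi.zero_apply,
        zero_mul, add_zero, zero_add, zero_pow three_ne_zero, mul_eq_zero] at k1 k2 k3 k4
      ext i
      fin_cases i
      · refine k1.elim (fun k => k3.resolve_left ?_) id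
        rw [← mul_eq_zero, hc', hc]
        exact (key1' hp (.inl one_ne_zero) k hgr).1
      · refine k2.elim (fun k => k4.resolve_left ?_) id
        rw [← mul_eq_zero, hc', hc, hfr, show 2 * p - 3 = p - 2 + 2 * (p / 2) by omega, coeff_X2,
          coeff_X_pow_mul _ 2 3]
        exact (key1' hp (.inr one_ne_zero) k rfl).2
    refine ⟨_, ⟨h', ?_, rfl⟩, h13.trans ?_⟩
    · rw [← h12, div_pow, div_mul_eq_mul_div]
      congr 1
      push_cast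
      rw [← pow_mul, ← pow_mul, show p - 1 = 2 * (p / 2) by omega]
      congr 1
      ring
    · rw [hΦ, ← Matrix.ext_iff]
      simp [Matrix.mul_apply, Fin.forall_fin_two, (Fact.out : p.Prime).ne_zero]

end PR0.Z
end

-- merged part: Pool.Agent.Work.MP_da2620_ag.ZG3
section
/-!
# Cones with one extra coordinate; small fields
-/

namespace PR0.Z

open MvPolynomial

universe u

attribute [local instance] MvPolynomial.gradedAlgebra

variable {k : Type u} [Field k] {I : Type}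
variable {K K' κ : Type u} [Field K] [Field K'] [Field κ] [Algebra k K] [Algebra k K'] [Algebra k κ]

theorem pt [Finite I] (𝔭 : Ideal (MvPolynomial I k)) (h : 𝔭.IsPrime) :
    ∃ (Ω : Type u) (_ : Field Ω) (_ : Algebra k Ω) (_ : IsAlgClosed Ω) (_ : FinTrdeg k Ω)
      (c : I → Ω), Pt2_id k c = 𝔭 := by
  let Ω := AlgebraicClosure (FractionRing (MvPolynomial I k ⧸ 𝔭))
  let φ : (MvPolynomial I k ⧸ 𝔭) →ₐ[k] Ω := IsScalarTower.toAlgHom k _ Ω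
  have hφ : Function.Injective φ :=
    (algebraMap (FractionRing (MvPolynomial I k ⧸ 𝔭)) Ω).injective.comp
      (IsFractionRing.injective (MvPolynomial I k ⧸ 𝔭) _)
  have : Algebra.EssFiniteType k (FractionRing (MvPolynomial I k ⧸ 𝔭)) :=
    have := Algebra.EssFiniteType.of_isLocalization (FractionRing (MvPolynomial I k ⧸ 𝔭))
      (nonZeroDivisors (MvPolynomial I k ⧸ 𝔭))
    .comp k (MvPolynomial I k ⧸ 𝔭) _
  refine ⟨Ω, inferInstance, inferInstance, inferInstance,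
    .trans k (FractionRing (MvPolynomial I k ⧸ 𝔭)) Ω,
    fun i => (φ.comp (Ideal.Quotient.mkₐ k 𝔭)) (X i), ?_⟩
  ext f
  rw [RingHom.mem_ker, ← comp_aeval_apply, aeval_X_left_apply, AlgHom.comp_apply,
    map_eq_zero_iff φ hφ]
  exact Ideal.Quotient.eq_zero_iff_mem

theorem arc3 [Finite I] [IsAlgClosed κ] [FinTrdeg k K] {c : I → K} {c₀ : I → κ} (h : Spc k c c₀) :
    ∃ φ : K →ₐ[k] HF κ, ∀ i, Red (φ (c i)) (c₀ i) := by
  obtain ⟨c', h1, h2, h3⟩ := arc (FG.of_finite c) h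
  obtain ⟨φ, hφ⟩ := emb (h1.trans (Spc.map c' (IsScalarTower.toAlgHom k (HO κ) (HF κ)))) h2
    (FG.of_finite c).dm_ne_top (trdeg_lt_aleph0 k K).le
  exact ⟨φ, fun i => ⟨c' i, (hφ i).symm, h3 i⟩⟩

theorem spc_of_red (φ : K →ₐ[k] HF κ) {c : I → K} {c₀ : I → κ} (h : ∀ i, Red (φ (c i)) (c₀ i)) :
    Spc k c c₀ := by
  choose c' h1 h2 using h
  have h3 := Spc.of_map c' (IsScalarTower.toAlgHom k (HO κ) (HF κ)) Subtype.val_injective
  have h4 := Spc.map c' (hres.restrictScalars k)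
  rw [show (fun i => (IsScalarTower.toAlgHom k (HO κ) (HF κ)) (c' i)) = fun i => φ (c i) from
    funext h1] at h3
  rw [show (fun i => (hres.restrictScalars k) (c' i)) = c₀ from funext h2] at h4
  exact (Spc.map c φ).trans (h3.trans h4)

theorem id_map (φ : K →ₐ[k] K') (c : I → K) : Pt2_id k (fun i => φ (c i)) = Pt2_id k c :=
  le_antisymm (Spc.of_map c φ φ.injective) (Spc.map c φ)

theorem aeval_smul {f : MvPolynomial I k} {n : ℕ} (hf : f.IsHomogeneous n) (s : K) (c : I → K) :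
    aeval (fun i => s * c i) f = s ^ n * aeval c f := by
  rw [f.as_sum, map_sum, map_sum, Finset.mul_sum]
  refine Finset.sum_congr rfl fun μ hμ => ?_
  have hd : μ.degree = n := by
    by_contra h
    exact mem_support_iff.1 hμ (hf.coeff_eq_zero h)
  simp only [aeval_monomial, Finsupp.prod, mul_pow, Finset.prod_mul_distrib,
    Finset.prod_pow_eq_pow_sum, ← hd, Finsupp.degree_apply]
  ring

theorem Hom.smul {𝔭 : Ideal (MvPolynomial I k)} (h : Hom 𝔭) {c : I → K} (hc : 𝔭 ≤ Pt2_id k c)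
    (s : K) : 𝔭 ≤ Pt2_id k fun i => s * c i := fun f hf => by
  rw [RingHom.mem_ker, ← sum_homogeneousComponent f, map_sum]
  refine Finset.sum_eq_zero fun n _ => ?_
  rw [aeval_smul (homogeneousComponent_isHomogeneous n f), hc (h.comp hf n), mul_zero]

theorem coneify (k K : Type u) [Field k] [Field K] [Algebra k K] [FinTrdeg k K] :
    ∃ (Ω : Type u) (_ : Field Ω) (_ : Algebra k Ω) (_ : IsAlgClosed Ω) (_ : FinTrdeg k Ω)
      (ψ : K →ₐ[k] Ω) (s : Ω), (∀ S : Set K, Transcendental (Algebra.adjoin k (ψ '' S)) s) ∧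
      ∀ (I : Type) (c : I → K), Hom (Pt2_id k fun i => s * ψ (c i)) ∧
        (Pt2_id k fun i => s * ψ (c i)) ≤ Pt2_id k c := by
  let Ω := AlgebraicClosure (FractionRing (Polynomial K))
  have : Algebra.EssFiniteType K (FractionRing (Polynomial K)) :=
    have := Algebra.EssFiniteType.of_isLocalization (FractionRing (Polynomial K))
      (nonZeroDivisors (Polynomial K))
    .comp K (Polynomial K) _
  have : FinTrdeg K Ω := .trans K (FractionRing (Polynomial K)) Ω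
  let φ : Polynomial K →ₐ[K] Ω := IsScalarTower.toAlgHom K _ Ω
  have hφ : Function.Injective φ :=
    (algebraMap (FractionRing (Polynomial K)) Ω).injective.comp (IsFractionRing.injective _ _)
  have hs : Transcendental K (φ Polynomial.X) := by
    rw [transcendental_iff_injective]
    convert hφ
    ext
    simp
  generalize φ Polynomial.X = s at hs
  let ψ := IsScalarTower.toAlgHom k K Ω
  have key : ∀ (I : Type) (c : I → K), ∀ f ∈ Pt2_id k fun i => s * ψ (c i), ∀ n,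
      aeval c (homogeneousComponent n f) = 0 := by
    intro I c f hf n
    have h1 : ∑ n ∈ Finset.range (f.totalDegree + 1),
        Polynomial.monomial n (aeval c (homogeneousComponent n f)) = 0 := by
      refine transcendental_iff.1 hs _ ?_
      rw [RingHom.mem_ker, ← sum_homogeneousComponent f, map_sum] at hf
      rw [← hf, map_sum]
      refine Finset.sum_congr rfl fun n _ => ?_
      rw [aeval_smul (homogeneousComponent_isHomogeneous n f), Polynomial.aeval_monomial, mul_comm,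
        ← comp_aeval_apply]
      rfl
    have h2 := congrArg (Polynomial.coeff · n) h1
    simp only [Polynomial.finsetSum_coeff, Polynomial.coeff_monomial, Finset.sum_ite_eq',
      Finset.mem_range, Polynomial.coeff_zero] at h2
    split_ifs at h2 with h
    · exact h2
    · rw [homogeneousComponent_eq_zero _ _ (by omega), map_zero]
  refine ⟨Ω, inferInstance, inferInstance, inferInstance, .trans k K Ω, ψ, s, fun S => ?_,
    fun I c => ⟨hom_of fun f hf n => ?_, fun f hf => ?_⟩⟩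
  · have h1 : Transcendental ψ.range s := fun h => hs (h.of_ringHom_of_comp_eq
      (AlgEquiv.ofInjective ψ ψ.injective).toRingEquiv.toRingHom (RingHom.id _)
      (AlgEquiv.ofInjective ψ ψ.injective).surjective Function.injective_id rfl)
    refine fun h => h1 (h.tower_top_of_subalgebra_le (Algebra.adjoin_le ?_))
    rintro _ ⟨x, -, rfl⟩
    exact ⟨x, rfl⟩
  · rw [RingHom.mem_ker, aeval_smul (homogeneousComponent_isHomogeneous n f), ← comp_aeval_apply,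
      key I c f hf n, map_zero, mul_zero]
  · rw [RingHom.mem_ker, ← sum_homogeneousComponent f, map_sum]
    exact Finset.sum_eq_zero fun n _ => key I c f hf n

theorem core' {𝔮 : Ideal (MvPolynomial I k)} (h : 𝔮.IsPrime) :
    ∃ 𝔯 : Ideal (MvPolynomial I k), 𝔯.IsPrime ∧ Hom 𝔯 ∧ 𝔯 ≤ 𝔮 ∧
      ∀ f, (∀ n, homogeneousComponent n f ∈ 𝔮) → f ∈ 𝔯 := by
  refine ⟨_, h.homogeneousCore (𝒜 := homogeneousSubmodule I k), HomogeneousIdeal.isHomogeneous _,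
    Ideal.toIdeal_homogeneousCore_le _ _, fun f hf => ?_⟩
  rw [← sum_homogeneousComponent f]
  exact sum_mem fun n _ => Ideal.mem_homogeneousCore_of_homogeneous_of_mem
    ⟨n, homogeneousComponent_isHomogeneous n f⟩ (hf n)

/-- A point with one more coordinate. -/
def ex (η : K) (t : I → K) : Option I → K := fun o => o.elim η t

/-- Adding the coordinate zero. -/
noncomputable def up (𝔷 : Ideal (MvPolynomial I k)) : Ideal (MvPolynomial (Option I) k) :=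
  𝔷.comap (aeval fun o : Option I => (o.elim 0 X : MvPolynomial I k))

/-- Forgetting the extra coordinate. -/
noncomputable def down (𝔮 : Ideal (MvPolynomial (Option I) k)) : Ideal (MvPolynomial I k) :=
  𝔮.comap (rename some)

theorem up_pt (t : I → K) : up (Pt2_id k t) = Pt2_id k (ex 0 t) := by
  ext f
  rw [up, Ideal.mem_comap, RingHom.mem_ker, RingHom.mem_ker, comp_aeval_apply]
  congr! with o
  cases o <;> simp [ex]

theorem down_pt (η : K) (t : I → K) : down (Pt2_id k (ex η t)) = Pt2_id k t := by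
  ext f
  rw [down, Ideal.mem_comap, RingHom.mem_ker, RingHom.mem_ker, aeval_rename]
  rfl

theorem dm_ex (η : K) (t : I → K) : dm k t ≤ dm k (ex η t) :=
  rk_mono (by rintro _ ⟨i, rfl⟩; exact ⟨some i, rfl⟩)

theorem dm_ex_zero (t : I → K) : dm k (ex 0 t) ≤ dm k t :=
  (rk_mono (by rintro _ ⟨_ | i, rfl⟩ <;> simp [ex])).trans (rk_alg isAlgebraic_zero _)

theorem down_mono {𝔭 𝔮 : Ideal (MvPolynomial (Option I) k)} (h : 𝔭 ≤ 𝔮) : down 𝔭 ≤ down 𝔮 :=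
  Ideal.comap_mono h

theorem up_mono {𝔭 𝔮 : Ideal (MvPolynomial I k)} (h : 𝔭 ≤ 𝔮) : up 𝔭 ≤ up 𝔮 := Ideal.comap_mono h

theorem down_up (𝔷 : Ideal (MvPolynomial I k)) : down (up 𝔷) = 𝔷 := by
  ext f
  rw [down, up, Ideal.mem_comap, Ideal.mem_comap, aeval_rename]
  exact (congrArg (· ∈ 𝔷) (aeval_X_left_apply f)).to_iff

theorem Hom.down {𝔮 : Ideal (MvPolynomial (Option I) k)} (h : Hom 𝔮) : Hom (down 𝔮) :=
  hom_of fun f hf n => by
    rw [PR0.Z.down, Ideal.mem_comap, rename_homogeneousComponent]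
    exact h.comp hf n

theorem down_spec {𝔮 : Ideal (MvPolynomial (Option I) k)} (h : 𝔮.IsPrime) (hx : X none ∈ 𝔮) :
    (down 𝔮).IsPrime ∧ up (down 𝔮) = 𝔮 ∧ dI 𝔮 ≤ dI (down 𝔮) := by
  obtain ⟨K, _, _, _, c, rfl⟩ := Pt2_pt 𝔮
  obtain ⟨t, rfl⟩ : ∃ t, c = ex 0 t := ⟨c ∘ some, by
    ext (_ | i)
    · simpa [ex] using hx
    · rfl⟩
  rw [down_pt, up_pt, dI_pt, dI_pt]
  exact ⟨inferInstance, rfl, dm_ex_zero t⟩

theorem up_spec {𝔷 : Ideal (MvPolynomial I k)} (h : 𝔷.IsPrime) :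
    (up 𝔷).IsPrime ∧ X none ∈ up 𝔷 ∧ dI 𝔷 ≤ dI (up 𝔷) := by
  obtain ⟨K, _, _, _, c, rfl⟩ := Pt2_pt 𝔷
  rw [up_pt, dI_pt, dI_pt]
  exact ⟨inferInstance, by simp [ex], dm_ex _ _⟩

/-- Components of the section by the extra coordinate. -/
structure TopT (𝔭 : Ideal (MvPolynomial (Option I) k)) (𝔷 : Ideal (MvPolynomial I k)) : Prop where
  prime : 𝔷.IsPrime
  le : 𝔭 ≤ up 𝔷
  dim : dI 𝔭 ≤ dI 𝔷 + 1

variable {𝔭 : Ideal (MvPolynomial (Option I) k)}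

theorem Top.topT {𝔮 : Ideal (MvPolynomial (Option I) k)} (h : Top 𝔭 (X none) 𝔮) :
    TopT 𝔭 (down 𝔮) := by
  obtain ⟨h1, h2, h3⟩ := down_spec h.prime h.mem
  exact ⟨h1, h2.symm ▸ h.le, h.dim.trans (add_le_add_left h3 1)⟩

theorem TopT.top {𝔷 : Ideal (MvPolynomial I k)} (h : TopT 𝔭 𝔷) : Top 𝔭 (X none) (up 𝔷) := by
  obtain ⟨h1, h2, h3⟩ := up_spec h.prime
  exact ⟨h1, h.le, h2, h.dim.trans (add_le_add_left h3 1)⟩

variable [Finite I]

theorem exists_topT (hp : 𝔭.IsPrime) {𝔶 : Ideal (MvPolynomial I k)} (hy : 𝔶.IsPrime)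
    (h : 𝔭 ≤ up 𝔶) : ∃ 𝔷, TopT 𝔭 𝔷 ∧ 𝔷 ≤ 𝔶 := by
  obtain ⟨h1, h2, -⟩ := up_spec hy
  obtain ⟨𝔯, h3, h4⟩ := exists_top hp h1 h h2
  exact ⟨_, h3.topT, (down_mono h4).trans (down_up 𝔶).le⟩

theorem TopT.hom {𝔷 : Ideal (MvPolynomial I k)} (h : TopT 𝔭 𝔷) (hp : 𝔭.IsPrime) (hp' : Hom 𝔭)
    (hx : X none ∉ 𝔭) : Hom 𝔷 :=
  down_up 𝔷 ▸ (h.top.hom hp hp' (isHomogeneous_X k none) hx).down

theorem connT [Infinite k] (hp : 𝔭.IsPrime) (hp' : Hom 𝔭) (hx : X none ∉ 𝔭)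
    (Q : Ideal (MvPolynomial I k) → Prop) (n : ℕ) (hn : (n + 2 : ℕ) ≤ dI 𝔭)
    (hQ : ∀ 𝔯₁ 𝔯₂ 𝔡, TopT 𝔭 𝔯₁ → TopT 𝔭 𝔯₂ → 𝔡.IsPrime → Hom 𝔡 → 𝔯₁ ≤ 𝔡 → 𝔯₂ ≤ 𝔡 → n ≤ dI 𝔡 →
      Q 𝔯₁ → Q 𝔯₂) {𝔮₁ 𝔮₂ : Ideal (MvPolynomial I k)} (h₁ : TopT 𝔭 𝔮₁) (h₂ : TopT 𝔭 𝔮₂)
    (hQ₁ : Q 𝔮₁) : Q 𝔮₂ := by
  by_contra hQ₂
  obtain ⟨𝔯₁, 𝔯₂, 𝔡, h1, h2, h3, h4, h5, h6, h7, h8, h9⟩ := conn hp hp' (isHomogeneous_X k none) hx
    (fun 𝔮 => Q (down 𝔮)) h₁.top h₂.top (by rwa [down_up]) (by rwa [down_up])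
  obtain ⟨h10, -, h11⟩ := down_spec h5 (h7 h1.mem)
  refine h4 (hQ _ _ _ h1.topT h2.topT h10 h6.down (down_mono h7) (down_mono h8) ?_ h3)
  have h12 := (hn.trans h9).trans (add_le_add_left h11 2)
  push_cast at h12
  exact (ENat.add_le_add_iff_right (by simp)).1 h12

omit [Finite I] in
theorem ne_zero_of_dm {c : I → K} (h : 1 ≤ dm k c) : c ≠ 0 := by
  rintro rfl
  have h1 : dI (Pt2_id k (0 : I → K)) = 0 := dI_of_X inferInstance fun i => by simp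
  rw [dI_pt] at h1
  simp [h1] at h

theorem rat_pt [IsAlgClosed k] {𝔡 : Ideal (MvPolynomial I k)} (h : 𝔡.IsPrime) (hd : 1 ≤ dI 𝔡) :
    ∃ x : I → k, x ≠ 0 ∧ 𝔡 ≤ Pt2_id k x := by
  obtain ⟨K, _, _, _, c, rfl⟩ := Pt2_pt 𝔡
  rw [dI_pt] at hd
  obtain ⟨i, hi⟩ := Function.ne_iff.1 (ne_zero_of_dm hd)
  obtain ⟨x, h1, h2⟩ := exists_rat (k := k) (FG.of_finite c) (g := X i) (by simpa using hi)
  exact ⟨x, fun e => h2 (by simp [e]), h1⟩

end PR0.Z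
end
end

-- merged part: Pool.Agent.Work.MP_da2620_ag.Z2
section
-- merged part: Pool.Agent.Work.MP_da2620_ag.ZA2
section
/-!
# Arcs of configurations: normal forms and the reduction of the Hasse invariants
-/

namespace PR0.Z

open Polynomial Matrix

universe u

variable {κ : Type u} [Field κ]

theorem hv_div_pos {x y : HF κ} (hy : y ≠ 0) : 0 < hv (x / y) ↔ hv y < hv x := by
  by_cases hx : x = 0
  · rw [hx, zero_div, hv_eq_top.2 rfl]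
    simp [lt_top_iff_ne_top, hv_eq_top, hy]
  · rw [← not_le, ← not_le, ← Hahn_div hx, not_iff_not]
    have h1 : hv (x / y) + hv (y / x) = 0 := by
      rw [← hv_mul, div_mul_div_cancel₀ hy, div_self hx, hv_one]
    obtain ⟨a, ha⟩ := Hahn_real (div_ne_zero hx hy)
    obtain ⟨b, hb⟩ := Hahn_real (div_ne_zero hy hx)
    rw [ha, hb] at h1 ⊢
    norm_cast at h1 ⊢
    constructor <;> intro <;> linarith

theorem nf {α : Fin 5 → HF κ} (hα : Function.Injective α) :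
    ∃ (π : Equiv.Perm (Fin 5)) (a c : HF κ), a ≠ 0 ∧
      ((∃ (x y : HO κ) (z : HF κ), (fun i => a * α (π i) + c) = ![0, 1, (x : HF κ), y, z] ∧
        ∀ i j l, i ≠ j → i ≠ l → j ≠ l → 0 < hv (a * α (π j) + c - (a * α (π i) + c)) →
          ¬ 0 < hv (a * α (π l) + c - (a * α (π i) + c))) ∨
      ∃ ε l b : HO κ, ε ≠ 0 ∧ hres ε = 0 ∧ b ≠ 0 ∧
        (fun i => a * α (π i) + c) = ![0, (ε : HF κ), ε * l, 1, (b : HF κ)⁻¹]) := by
  let N : Equiv.Perm (Fin 5) → WithTop ℝ := fun σ =>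
    min (hv (α (σ 1) - α (σ 0))) (hv (α (σ 2) - α (σ 0)))
  obtain ⟨π, h1, h2, h3⟩ : ∃ π, (∀ τ, N τ ≤ N π) ∧ hv (α (π 1) - α (π 0)) ≤ hv (α (π 2) - α (π 0)) ∧
      hv (α (π 4) - α (π 0)) ≤ hv (α (π 3) - α (π 0)) := by
    obtain ⟨π, h⟩ := Finite.exists_max N
    rcases le_total (hv (α (π 1) - α (π 0))) (hv (α (π 2) - α (π 0))) with h1 | h1 <;>
      rcases le_total (hv (α (π 4) - α (π 0))) (hv (α (π 3) - α (π 0))) with h2 | h2
    · exact ⟨π, h, h1, h2⟩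
    · exact ⟨π * pv ![0, 1, 2, 4, 3] (by decide), h, h1, h2⟩
    · exact ⟨π * pv ![0, 2, 1, 3, 4] (by decide), fun τ => (h τ).trans (min_comm _ _).le, h1, h2⟩
    · exact ⟨π * pv ![0, 2, 1, 4, 3] (by decide), fun τ => (h τ).trans (min_comm _ _).le, h1, h2⟩
  have h4 : ∀ i, i ≠ 0 → α (π i) - α (π 0) ≠ 0 := fun i hi =>
    sub_ne_zero.2 (hα.ne (π.injective.ne hi))
  have h5 := h4 1 (by decide)
  have h6 := h4 3 (by decide)
  have h7 := h4 4 (by decide)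
  rcases le_or_gt (hv (α (π 1) - α (π 0))) (hv (α (π 3) - α (π 0))) with h | h
  · refine ⟨π, (α (π 1) - α (π 0))⁻¹, -((α (π 1) - α (π 0))⁻¹ * α (π 0)), inv_ne_zero h5,
      .inl ⟨⟨_, (Hahn_div h5).2 h2⟩, ⟨_, (Hahn_div h5).2 h⟩,
        (α (π 4) - α (π 0)) / (α (π 1) - α (π 0)), ?_, ?_⟩⟩
    · ext i
      fin_cases i <;> simp <;> field_simp <;> ring
    · intro i j l hij hil hjl h8 h9
      obtain ⟨τ, rfl, rfl, rfl⟩ := exists_perm3 hij hil hjl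
      have h10 : ∀ i, (α (π 1) - α (π 0))⁻¹ * α (π (τ i)) + -((α (π 1) - α (π 0))⁻¹ * α (π 0)) -
          ((α (π 1) - α (π 0))⁻¹ * α (π (τ 0)) + -((α (π 1) - α (π 0))⁻¹ * α (π 0))) =
          (α (π (τ i)) - α (π (τ 0))) / (α (π 1) - α (π 0)) := fun i => by
        field_simp
        ring
      rw [h10, hv_div_pos h5] at h8 h9
      exact ((lt_min h8 h9).trans_le ((h1 (π * τ)).trans (min_le_left _ _))).false
  · refine ⟨π, (α (π 3) - α (π 0))⁻¹, -((α (π 3) - α (π 0))⁻¹ * α (π 0)), inv_ne_zero h6,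
      .inr ⟨⟨_, (Hahn_div h6).2 h.le⟩, ⟨_, (Hahn_div h5).2 h2⟩, ⟨_, (Hahn_div h7).2 h3⟩,
        fun e => div_ne_zero h5 h6 (congrArg Subtype.val e), hres_eq_zero.2 ((hv_div_pos h6).2 h),
        fun e => div_ne_zero h6 h7 (congrArg Subtype.val e), ?_⟩⟩
    ext i
    fin_cases i <;> simp <;> field_simp <;> ring

/-- Points of smooth curves of `p`-rank zero. -/
def N1 (p : ℕ) (t : Equiv.Perm (Fin 5) → κ) : Prop :=
  ∃ (β : Fin 5 → κ) (w : κ), Nil5 p β ∧ w ≠ 0 ∧ ∀ σ, t σ = w * TT β σ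

/-- Points of smooth curves that are not ordinary. -/
def W1 (p : ℕ) (t : Equiv.Perm (Fin 5) → κ) : Prop :=
  ∃ (β : Fin 5 → κ) (w : κ), Function.Injective β ∧ Dc p β = 0 ∧ w ≠ 0 ∧ ∀ σ, t σ = w * TT β σ

/-- First auxiliary permutation. -/
noncomputable def pe : Equiv.Perm (Fin 5) := pv ![0, 3, 1, 2, 4] (by decide)

/-- Second auxiliary permutation. -/
noncomputable def pn : Equiv.Perm (Fin 5) := pv ![0, 3, 4, 1, 2] (by decide)

/-- Points of pairs of supersingular elliptic curves. -/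
def N2 (p : ℕ) (t : Equiv.Perm (Fin 5) → κ) (π : Equiv.Perm (Fin 5)) : Prop :=
  den t π ≠ 0 ∧ den t (π * pe) ≠ 0 ∧ den t (π * pn) ≠ 0 ∧ cr t (π * pe) = 0 ∧ SS p (cr t π) ∧
    SS p (cr t (π * pn))

/-- Points of `p`-rank zero. -/
def NP (p : ℕ) (t : Equiv.Perm (Fin 5) → κ) : Prop := N1 p t ∨ ∃ π, N2 p t π

variable {p : ℕ} [Fact p.Prime] [CharP κ p] {α : Fin 5 → HF κ} {w : HF κ}
  {t : Equiv.Perm (Fin 5) → κ}

omit [Fact p.Prime] [CharP κ p] in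
theorem PA.II_ne {ε l b : HO κ} (hε : ε ≠ 0) (hε' : hres ε = 0) (hb : b ≠ 0)
    (h : PA ![0, (ε : HF κ), ε * l, 1, (b : HF κ)⁻¹] ((b : HF κ) ^ 2 / (ε : HF κ)) t) :
    t (pv ![0, 1, 3, 2, 4] (by decide)) = hres b ∧ t (pv ![0, 1, 4, 2, 3] (by decide)) = 1 ∧
    t (pe * pv ![0, 1, 3, 2, 4] (by decide)) = -(hres l * hres b) ∧
    t (pe * pv ![0, 1, 4, 2, 3] (by decide)) = (hres b - 1) * (1 - hres l) ∧
    t (pn * pv ![0, 1, 3, 2, 4] (by decide)) = hres b ∧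
    t (pn * pv ![0, 1, 4, 2, 3] (by decide)) = hres l * hres b := by
  have h1 : (ε : HF κ) ≠ 0 := fun h => hε (Subtype.ext h)
  have h2 : (b : HF κ) ≠ 0 := fun h => hb (Subtype.ext h)
  refine ⟨(h _).unique ⟨(ε - 1) * (ε * l * b - 1) * b, ?_, ?_⟩,
    (h _).unique ⟨(ε * b - 1) * (ε * l - 1), ?_, ?_⟩,
    (h _).unique ⟨l * (1 - ε * l) * (ε * b - 1) * b, ?_, ?_⟩,
    (h _).unique ⟨(b - 1) * (1 - l), ?_, ?_⟩,
    (h _).unique ⟨(1 - ε) * (1 - ε * l * b) * b, ?_, ?_⟩,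
    (h _).unique ⟨l * (1 - ε * l) * (1 - ε * b) * b, ?_, ?_⟩⟩ <;>
  first
  | (simp [hε']; done)
  | (simp only [TT, pe, pn, Equiv.Perm.mul_apply, pv_apply, cons_val_zero, cons_val_one, cons_val]
     push_cast
     field_simp
     ring)

theorem PA.II_N2 (hp : p ≠ 2) {ε l b : HO κ} (hε : ε ≠ 0) (hε' : hres ε = 0) (hb : b ≠ 0)
    (h : PA ![0, (ε : HF κ), ε * l, 1, (b : HF κ)⁻¹] ((b : HF κ) ^ 2 / (ε : HF κ)) t)
    (hl : has p 1 (hres l) = 0) (hb' : has p (hres b) 1 = 0) :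
    N2 p t 1 ∧ cr t 1 = hres l ∧ cr t pn = (hres b)⁻¹ := by
  obtain ⟨h1, h2, h3, h4, h5, h6⟩ := h.II_ne hε hε' hb
  have h7 : hres b ≠ 0 := fun e => by
    rw [e, has_zero_one hp] at hb'
    exact pow_ne_zero _ (neg_ne_zero.2 one_ne_zero) hb'
  have h8 : SS p (hres b)⁻¹ := by
    have := has_mul p (hres b)⁻¹ (hres b) 1
    rwa [hb', mul_zero, inv_mul_cancel₀ h7, mul_one, ← SS_iff] at this
  have h9 : hres b - 1 ≠ 0 := fun e => h8.ne_one hp (by rw [sub_eq_zero.1 e, inv_one])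
  have h10 := (SS_iff.2 hl).ne_zero hp
  have h11 := sub_ne_zero.2 ((SS_iff.2 hl).ne_one hp).symm
  have h12 := two_ne (K := κ) hp
  have d1 : den t 1 ≠ 0 := by simp [den, h1, h2, h7, h12]
  have d2 : den t pe ≠ 0 := by simp [den, h3, h4, h7, h9, h10, h11, h12]
  have d3 : den t pn ≠ 0 := by simp [den, h5, h6, h7, h10, h12]
  have h13 : (ε : HF κ) ≠ 0 := fun h => hε (Subtype.ext h)
  have c1 : cr t 1 = hres l := (h.rcr d1).2.unique ⟨l, by simp [h13], rfl⟩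
  have c2 : cr t pe = 0 := (h.rcr d2).2.unique ⟨ε, by simp [pe], hε'⟩
  have c3 : cr t pn = (hres b)⁻¹ :=
    (h.rcr d3).2.unique (by simpa [pn] using ((Red.of b).inv h7).2)
  exact ⟨⟨d1, by simpa, by simpa, by simpa, by rw [c1, SS_iff]; exact hl,
    by rw [one_mul, c3]; exact h8⟩, c1, c3⟩

omit [Fact p.Prime] [CharP κ p] in
theorem N2.smul {t₀ : Equiv.Perm (Fin 5) → κ} {r : κ} (hr : r ≠ 0) {π : Equiv.Perm (Fin 5)}
    (h : ∀ σ, t (π * σ) = r * t₀ σ) (h₀ : N2 p t₀ 1) : N2 p t π := by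
  have h1 : t₀ = fun σ => r⁻¹ * t (π * σ) := by
    ext σ
    rw [h, inv_mul_cancel_left₀ hr]
  simp only [N2, h1, den_smul, cr_smul (inv_ne_zero hr), mul_one, one_mul, ne_eq, mul_eq_zero,
    not_or] at h₀
  exact ⟨h₀.1.2, h₀.2.1.2, h₀.2.2.1.2, h₀.2.2.2⟩

omit [Fact p.Prime] [CharP κ p] in
theorem PA.ty2 {π : Equiv.Perm (Fin 5)} (h : PA α w t) (h2 : N2 p t π) :
    ∃ (a c : HF κ) (ε l n : HO κ), a ≠ 0 ∧ ε ≠ 0 ∧ hres ε = 0 ∧ hres l = cr t π ∧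
      hres n = cr t (π * pn) ∧ (fun i => a * α (π i) + c) = ![0, (ε : HF κ), ε * l, 1, n] := by
  obtain ⟨h3, l, h4, h5⟩ := h.rcr h2.1
  obtain ⟨h6, ε, h7, h8⟩ := h.rcr h2.2.1
  obtain ⟨-, n, h9, h10⟩ := h.rcr h2.2.2.1
  simp only [pe, pn, Equiv.Perm.mul_apply, pv_apply, cons_val_zero, cons_val_one, cons_val] at h6 h7 h9
  refine ⟨(α (π 3) - α (π 0))⁻¹, -((α (π 3) - α (π 0))⁻¹ * α (π 0)), ε, l, n, inv_ne_zero h6,
    fun e => div_ne_zero h3 h6 (h7.symm.trans (congrArg Subtype.val e)), h8.trans h2.2.2.2.1, h5,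
    h10, ?_⟩
  rw [h4, h7, h9]
  ext i
  fin_cases i <;> simp <;> field_simp <;> ring

theorem PA.ty1 (hp : p ≠ 2) (h : PA α w t) {β : Fin 5 → κ} {v : κ} (hβ : Function.Injective β)
    (hv : v ≠ 0) (ht : ∀ σ, t σ = v * TT β σ) : ∃ (a c : HF κ) (A : Fin 5 → HO κ), a ≠ 0 ∧
      A 0 = 0 ∧ (∀ i, a * α i + c = A i) ∧ ∀ i, hres (A i) = (β 1 - β 0)⁻¹ * β i + -((β 1 - β 0)⁻¹ * β 0) := by
  obtain rfl : t = fun σ => v * TT β σ := funext ht
  have h1 := den_ne hp fun σ => mul_ne_zero hv (TT_ne hβ σ)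
  have h2 : α 1 - α 0 ≠ 0 := (h.rcr (h1 1)).1
  have h3 : β 1 - β 0 ≠ 0 := (cr_TT (h1 1)).1
  have h4 : ∀ i, Red ((α 1 - α 0)⁻¹ * α i + -((α 1 - α 0)⁻¹ * α 0))
      ((β 1 - β 0)⁻¹ * β i + -((β 1 - β 0)⁻¹ * β 0)) := by
    intro i
    rw [← sub_eq_add_neg, ← sub_eq_add_neg, ← mul_sub, ← mul_sub]
    by_cases h0 : 0 = i
    · subst h0
      exact ⟨0, by simp, by simp⟩
    by_cases h5 : 1 = i
    · subst h5
      exact ⟨1, by simp [h2], by simp [h3]⟩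
    obtain ⟨σ, k0, k1, k2⟩ := exists_perm3 zero_ne_one h0 h5
    have h6 := (h.rcr (h1 σ)).2
    rwa [(cr_TT (h1 σ)).2, k0, k1, k2, div_eq_inv_mul, div_eq_inv_mul] at h6
  choose A h5 h6 using h4
  exact ⟨_, _, A, inv_ne_zero h2, Subtype.ext ((h5 0).trans (add_neg_cancel _)),
    fun i => (h5 i).symm, h6⟩

theorem TU_ne {K : Type u} [Field K] {u a : Fin 5 → K} (h0 : u 0 = 1) (h1 : u 1 = 1) (h2 : u 2 = 1)
    (h3 : u 3 = 1) (h01 : br u a 0 1 ≠ 0)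
    (h : ∀ i j l, i ≠ j → i ≠ l → j ≠ l → br u a i j = 0 → br u a i l ≠ 0) : TU u a ≠ 0 := by
  intro h4
  have hs : ∀ i j, br u a j i = 0 ↔ br u a i j = 0 := fun i j => by
    rw [br, br, ← neg_eq_zero, neg_sub]
  have k1 := congrFun h4 (pv ![0, 1, 4, 2, 3] (by decide))
  have k2 := congrFun h4 (pv ![2, 3, 4, 0, 1] (by decide))
  have k3 := congrFun h4 (pv ![0, 2, 4, 1, 3] (by decide))
  have k4 := congrFun h4 (pv ![1, 3, 4, 0, 2] (by decide))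
  simp only [TU, pv_apply, cons_val_zero, cons_val_one, cons_val, h0, h1, h2, h3, mul_one,
    Pi.zero_apply, mul_eq_zero, h01, hs 4, false_or, or_false] at k1 k2 k3 k4
  have l1 := h 4 0 1 (by decide) (by decide) (by decide)
  have l2 := h 4 0 2 (by decide) (by decide) (by decide)
  have l3 := h 4 0 3 (by decide) (by decide) (by decide)
  have l4 := h 4 1 2 (by decide) (by decide) (by decide)
  have l5 := h 4 1 3 (by decide) (by decide) (by decide)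
  have l6 := h 2 3 0 (by decide) (by decide) (by decide)
  have l7 := h 3 2 1 (by decide) (by decide) (by decide)
  have l8 := h 2 3 4 (by decide) (by decide) (by decide)
  have l9 := h 3 2 4 (by decide) (by decide) (by decide)
  rw [ne_eq, hs 0] at l6
  rw [ne_eq, hs 1, hs 2] at l7
  rw [ne_eq, hs 4] at l8
  rw [ne_eq, hs 4, hs 2] at l9
  by_cases h23 : br u a 2 3 = 0
  · simp only [l6 h23, l7 h23, l8 h23, l9 h23, false_or, or_false] at k3 k4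
    exact l1 k3 k4
  · simp only [h23, false_or, or_false] at k1 k2
    rcases k1 with k1 | k1 <;> rcases k2 with k2 | k2
    exacts [l5 k1 k2, l4 k1 k2, l3 k1 k2, l2 k1 k2]

omit [Fact p.Prime] [CharP κ p] in
theorem pu_one {R : Type u} [CommRing R] (A : Fin 5 → R) : pu (fun _ => 1) A = fz A := by
  simp [pu, fz]

variable [IsAlgClosed κ] (k : Type u) [Field k] [Algebra k κ]

/-- The statement about an arc. -/
def Res (p : ℕ) (α : Fin 5 → HF κ) (w : HF κ) (t : Equiv.Perm (Fin 5) → κ) : Prop :=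
  (∃ d, Red (w ^ (p / 2) * Dc p α) d ∧ (d = 0 → W1 p t ∨ ∀ r, dm k (fun σ => r * t σ) ≤ 2)) ∧
    ∀ h, HC p α h → ∃ c, Red (w ^ (p / 2 * (p + 1)) * h) c ∧ (c = 0 → NP p t)

theorem resIa (hp : p ≠ 2) {A : Fin 5 → HO κ} (h0 : A 0 = 0) (h1 : A 1 = 1)
    (h3 : ∀ i j l, i ≠ j → i ≠ l → j ≠ l → hres (A i) = hres (A j) → hres (A i) ≠ hres (A l)) :
    ∃ t, t ≠ 0 ∧ PA (fun i => (A i : HF κ)) 1 t ∧ Res k p (fun i => (A i : HF κ)) 1 t := by
  have h4 : ∀ i j l, i ≠ j → i ≠ l → j ≠ l → br (fun _ => 1) (fun i => hres (A i)) i j = 0 →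
      br (fun _ => 1) (fun i => hres (A i)) i l ≠ 0 := by
    simpa [br, sub_eq_zero] using h3
  obtain ⟨k1, k2, k3⟩ := caseI hp (U := fun _ => 1) (A := A) (fun _ => by simp) h0 (u := fun _ => 1)
    (fun _ => map_one _) (fun _ => rfl) (fun _ => .inl (one_ne_zero (α := κ))) h4
    (by rw [pu_one, fz_deg]; omega)
  simp only [Finset.prod_const_one, OneMemClass.coe_one, one_pow, div_one, pu_one] at k1 k2 k3
  refine ⟨_, TU_ne rfl rfl rfl rfl (by simp [br, h0, h1]) h4, k1, ⟨_, by simpa using k2, ?_⟩, ?_⟩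
  · intro h
    rw [TU_one]
    by_cases hi : Function.Injective fun i => hres (A i)
    · exact .inl ⟨_, 1, hi, h, one_ne_zero, fun _ => (one_mul _).symm⟩
    · obtain ⟨i, j, h5, h6⟩ := Function.not_injective_iff.1 hi
      obtain ⟨l, h7, h8⟩ : ∃ l, i ≠ l ∧ j ≠ l := by
        clear h5 h6
        revert i j
        decide
      exact .inr (deg1 hp h6 h5 (h3 i j l h6 h7 h8 h5).symm h)
  · intro h hH
    obtain ⟨c, h5, h6⟩ := k3 h hH
    exact ⟨c, by simpa using h5, fun hc => .inl ⟨_, 1, ⟨inj_of_nil hp h3 (h6.1 hc), h6.1 hc⟩,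
      one_ne_zero, fun _ => by rw [TU_one, one_mul]⟩⟩

theorem resIb (hp : p ≠ 2) {x y u : HO κ} (hu : u ≠ 0) (hu' : hres u = 0)
    (h3 : ∀ i j l : Fin 5, i ≠ j → i ≠ l → j ≠ l → i ≠ 4 → j ≠ 4 → l ≠ 4 →
      hres (![0, 1, x, y, 1] i) = hres (![0, 1, x, y, 1] j) →
      hres (![0, 1, x, y, 1] i) ≠ hres (![0, 1, x, y, 1] l)) :
    ∃ t, t ≠ 0 ∧ PA ![0, 1, (x : HF κ), y, (u : HF κ)⁻¹] ((u : HF κ) ^ 2) t ∧
      Res k p ![0, 1, (x : HF κ), y, (u : HF κ)⁻¹] ((u : HF κ) ^ 2) t := by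
  have h2 : ∀ i, hres (![0, 1, x, y, 1] i) = ![0, 1, hres x, hres y, 1] i := fun i => by
    fin_cases i <;> simp
  have h4 : ∀ i j l, i ≠ j → i ≠ l → j ≠ l →
      br ![1, 1, 1, 1, 0] ![0, 1, hres x, hres y, 1] i j = 0 →
      br ![1, 1, 1, 1, 0] ![0, 1, hres x, hres y, 1] i l ≠ 0 := by
    have h5 : ∀ i j, i ≠ j → br ![1, 1, 1, 1, 0] ![0, 1, hres x, hres y, 1] i j = 0 →
        i ≠ 4 ∧ j ≠ 4 ∧ ![0, 1, hres x, hres y, 1] i = ![0, 1, hres x, hres y, 1] j := by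
      intro i j
      fin_cases i <;> fin_cases j <;> simp [br, sub_eq_zero] <;> exact Eq.symm
    intro i j l h6 h7 h8 h9 h10
    obtain ⟨k1, k2, k3⟩ := h5 i j h6 h9
    obtain ⟨-, k4, k5⟩ := h5 i l h7 h10
    exact h3 i j l h6 h7 h8 k1 k2 k4 (by rwa [h2, h2]) (by rwa [h2, h2])
  have h5 : (pu ![1, 1, 1, 1, 0] ![0, 1, hres x, hres y, 1]).natDegree = 4 ∧
      (pu ![1, 1, 1, 1, 0] ![0, 1, hres x, hres y, 1]).coeff 4 = -1 := by
    have h6 : (X * (X - 1) * (X - C (hres x)) * (X - C (hres y))).coeff 4 = 1 := by compute_degree!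
    rw [pu_four, natDegree_neg, coeff_neg, h6]
    exact ⟨natDegree_eq_of_le_of_coeff_ne_zero (by compute_degree) (by simp [h6]), rfl⟩
  obtain ⟨k1, k2, k3⟩ := caseI hp (U := ![1, 1, 1, 1, u]) (A := ![0, 1, x, y, 1])
    (fun i => by fin_cases i <;> simp [hu]) rfl (u := ![1, 1, 1, 1, 0])
    (fun i => by fin_cases i <;> simp [hu']) h2 (fun i => by fin_cases i <;> simp) h4 h5.1.ge
  have h6 : (fun i => ((![0, 1, x, y, 1] i : HO κ) : HF κ) / ((![1, 1, 1, 1, u] i : HO κ) : HF κ)) =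
      ![0, 1, (x : HF κ), y, (u : HF κ)⁻¹] := by
    ext i
    fin_cases i <;> simp
  have h7 : ∏ i, ![1, 1, 1, 1, u] i = u := by simp [Fin.prod_univ_five]
  rw [h6, h7] at k1 k2 k3
  refine ⟨_, TU_ne rfl rfl rfl rfl (by simp [br]) h4, k1, ⟨_, k2, fun h => .inr (deg2 hp h)⟩,
    fun h hH => ?_⟩
  obtain ⟨c, h8, h9⟩ := k3 h hH
  exact ⟨c, h8, fun hc => absurd (h9.1 hc) (not_nil_four hp h5.1.le (by simp [h5.2]))⟩

theorem resII (hp : p ≠ 2) {ε l b : HO κ} (hε : ε ≠ 0) (hε' : hres ε = 0) (hb : b ≠ 0) :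
    ∃ t, t ≠ 0 ∧ PA ![0, (ε : HF κ), ε * l, 1, (b : HF κ)⁻¹] ((b : HF κ) ^ 2 / (ε : HF κ)) t ∧
      Res k p ![0, (ε : HF κ), ε * l, 1, (b : HF κ)⁻¹] ((b : HF κ) ^ 2 / (ε : HF κ)) t := by
  obtain ⟨t, h1, h2⟩ := caseII_T k (l := l) hε hε' hb
  obtain ⟨h3, h4⟩ := caseII hp (l := l) hε hε' hb
  refine ⟨t, fun h => ?_, h1, ⟨_, h3, fun h => .inr fun r => ?_⟩, fun h hH => ?_⟩
  · simpa [h] using (h1.II_ne hε hε' hb).2.1
  · refine (dm_le_of h2 r).trans (add_le_add_left ?_ 1 |>.trans one_add_one_eq_two.le)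
    rcases mul_eq_zero.1 h with h | h
    · exact (rk_alg (alg_has hp h) _).trans ((rk_le_encard _).trans (by simp))
    · rw [Set.pair_comm]
      exact (rk_alg (alg_has' hp h) _).trans ((rk_le_encard _).trans (by simp))
  · obtain ⟨c, h5, h6⟩ := h4 h hH
    exact ⟨c, h5, fun hc => .inr ⟨1, (h1.II_N2 hp hε hε' hb (h6.1 hc).1 (h6.1 hc).2).1⟩⟩

theorem res_nf (hp : p ≠ 2) (hα : Function.Injective α) :
    ∃ (π : Equiv.Perm (Fin 5)) (a c w₀ : HF κ) (t₀ : Equiv.Perm (Fin 5) → κ), a ≠ 0 ∧ t₀ ≠ 0 ∧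
      PA (fun i => a * α (π i) + c) w₀ t₀ ∧ Res k p (fun i => a * α (π i) + c) w₀ t₀ := by
  obtain ⟨π, a, c, ha, ⟨x, y, z, h1, h2⟩ | ⟨ε, l, b, h1, h2, h3, h4⟩⟩ := nf hα
  · have h3 : ∀ (A : Fin 5 → HO κ) i j, a * α (π i) + c = A i → a * α (π j) + c = A j →
        hres (A i) = hres (A j) → 0 < hv (a * α (π j) + c - (a * α (π i) + c)) := by
      intro A i j hi hj h
      rw [hi, hj]
      exact (hres_eq_zero (x := A j - A i)).1 (by rw [map_sub, h, sub_self])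
    by_cases hz : z ∈ HO κ
    · have h4 : ∀ i, a * α (π i) + c = (![0, 1, x, y, ⟨z, hz⟩] i : HO κ) := fun i => by
        rw [congrFun h1 i]
        fin_cases i <;> rfl
      obtain ⟨t, h5, h6, h7⟩ := resIa k hp (A := ![0, 1, x, y, ⟨z, hz⟩]) rfl rfl
        fun i j l k1 k2 k3 k4 k5 => h2 i j l k1 k2 k3 (h3 _ _ _ (h4 i) (h4 j) k4)
          (h3 _ _ _ (h4 i) (h4 l) k5)
      exact ⟨π, a, c, 1, t, ha, h5, funext h4 ▸ h6, funext h4 ▸ h7⟩
    · have hz0 : z ≠ 0 := fun h => hz (h ▸ zero_mem _)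
      have h4 : ∀ i, i ≠ 4 → a * α (π i) + c = (![0, 1, x, y, 1] i : HO κ) := fun i hi => by
        rw [congrFun h1 i]
        fin_cases i <;> first | rfl | exact absurd rfl hi
      have h5 : 0 < hv z⁻¹ := by
        rw [inv_eq_one_div, hv_div_pos hz0, hv_one]
        exact not_le.1 hz
      obtain ⟨t, h6, h7, h8⟩ := resIb k hp (x := x) (y := y) (u := ⟨z⁻¹, h5.le⟩)
        (fun h => inv_ne_zero hz0 (congrArg Subtype.val h)) (hres_eq_zero.2 h5)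
        fun i j l k1 k2 k3 k6 k7 k8 k4 k5 => h2 i j l k1 k2 k3 (h3 _ _ _ (h4 i k6) (h4 j k7) k4)
          (h3 _ _ _ (h4 i k6) (h4 l k8) k5)
      simp only [inv_inv] at h7 h8
      exact ⟨π, a, c, _, t, ha, h6, h1 ▸ h7, h1 ▸ h8⟩
  · obtain ⟨t, h5, h6, h7⟩ := resII k hp (l := l) h1 h2 h3
    exact ⟨π, a, c, _, t, ha, h5, h4 ▸ h6, h4 ▸ h7⟩

omit [IsAlgClosed κ] in
theorem red_comp {w₀ a r' x : HF κ} {r c : κ} (h1 : Red r' r) (h2 : w = r' * (w₀ * a ^ 4)) {n : ℕ}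
    (h : Red (w₀ ^ n * ((a ^ 4) ^ n * x)) c) : Red (w ^ n * x) (r ^ n * c) := by
  have := (h1.pow n).mul h
  rwa [← mul_assoc (w₀ ^ n), ← mul_pow, ← mul_assoc, ← mul_pow, ← h2] at this

theorem PA.res (hp : p ≠ 2) (hα : Function.Injective α) (h : PA α w t) (ht : t ≠ 0) :
    (∃ d, Red (w ^ (p / 2) * Dc p α) d ∧ (d = 0 → W1 p t ∨ dm k t ≤ 2)) ∧
    ∀ h, HC p α h → ∃ c, Red (w ^ (p / 2 * (p + 1)) * h) c ∧ (c = 0 → NP p t) := by
  obtain ⟨π, a, c, w₀, t₀, ha, h1, h2, ⟨d, h3, h4⟩, h5⟩ := res_nf k hp hα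
  obtain ⟨r, r', h6, h7, h8, h9⟩ := h.comp h2 ht h1
  have h10 : ∀ (β : Fin 5 → κ) v, (∀ σ, t₀ σ = v * TT β σ) →
      ∀ σ, t σ = r * v * TT (fun i => 1 * β (π⁻¹ i) + 0) σ := fun β v h σ => by
    rw [TT_aff, one_pow, one_mul, mul_assoc, ← h, ← h9, mul_inv_cancel_left]
  have h11 : ∀ β : Fin 5 → κ, Function.Injective β →
      Function.Injective fun i => 1 * β (π⁻¹ i) + 0 := fun β h i j e =>
    π⁻¹.injective (h (by simpa using e))
  rw [Dc_aff hp _ _ ha] at h3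
  refine ⟨⟨_, red_comp h7 h8 h3, fun hd => ?_⟩, fun h hH => ?_⟩
  · rcases h4 ((mul_eq_zero.1 hd).resolve_left (pow_ne_zero _ h6)) with ⟨β, v, k1, k2, k3, k4⟩ | k
    · exact .inl ⟨_, r * v, h11 β k1, by rw [Dc_aff hp _ _ one_ne_zero, k2, mul_zero],
        mul_ne_zero h6 k3, h10 β v k4⟩
    · refine .inr ((rk_mono ?_).trans (k r))
      rintro _ ⟨σ, rfl⟩
      exact ⟨π⁻¹ * σ, (h9 _).symm.trans (by rw [mul_inv_cancel_left])⟩
  · obtain ⟨c', k1, k2⟩ := h5 _ (hH.aff hp π ha c)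
    refine ⟨_, red_comp h7 h8 k1, fun hc => ?_⟩
    rcases k2 ((mul_eq_zero.1 hc).resolve_left (pow_ne_zero _ h6)) with ⟨β, v, k3, k4, k5⟩ | ⟨τ, k3⟩
    · exact .inl ⟨_, r * v, ⟨h11 β k3.1, (nil_aff hp _ _ one_ne_zero _).2 k3.2⟩,
        mul_ne_zero h6 k4, h10 β v k5⟩
    · exact .inr ⟨π * τ, N2.smul (t₀ := fun σ => t₀ (τ * σ)) h6
        (fun σ => by rw [mul_assoc, h9]) (by simpa [N2, den, cr, num, mul_assoc] using k3)⟩

theorem PA.of_N2 (hp : p ≠ 2) (h : PA α w t) (ht : t ≠ 0) {π : Equiv.Perm (Fin 5)}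
    (h2 : N2 p t π) : dm k t ≤ 1 ∧ Red (w ^ (p / 2) * Dc p α) 0 ∧
      ∀ h, HC p α h → Red (w ^ (p / 2 * (p + 1)) * h) 0 := by
  obtain ⟨a, c, ε, l, n, ha, h3, h4, h5, h6, h7⟩ := h.ty2 h2
  have h8 : SS p (hres n) := h6 ▸ h2.2.2.2.2.2
  obtain ⟨h9, b, h10, h11⟩ := (Red.of n).inv (h8.ne_zero hp)
  have hb : b ≠ 0 := fun e => inv_ne_zero h9 (h10.symm.trans (congrArg Subtype.val e))
  have h12 : (n : HF κ) = (b : HF κ)⁻¹ := by rw [h10, inv_inv]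
  rw [h12] at h7
  have h13 : has p 1 (hres l) = 0 := SS_iff.1 (h5 ▸ h2.2.2.2.2.1)
  have h14 : has p (hres b) 1 = 0 := by
    have := has_mul p (hres n)⁻¹ 1 (hres n)
    rwa [SS_iff.1 h8, mul_zero, inv_mul_cancel₀ (h8.ne_zero hp), mul_one, ← h11] at this
  obtain ⟨t₀, k1, k2⟩ := caseII_T k (l := l) h3 h4 hb
  obtain ⟨k3, k4⟩ := caseII hp (l := l) h3 h4 hb
  have k5 : t₀ ≠ 0 := fun h => by simpa [h] using (k1.II_ne h3 h4 hb).2.1
  rw [← h7] at k1 k3 k4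
  obtain ⟨r, r', k6, k7, k8, k9⟩ := h.comp k1 ht k5
  refine ⟨?_, ?_, fun h hH => ?_⟩
  · refine (rk_mono ?_).trans ((dm_le_of k2 r).trans ?_)
    · rintro _ ⟨σ, rfl⟩
      exact ⟨π⁻¹ * σ, (k9 _).symm.trans (by rw [mul_inv_cancel_left])⟩
    · have := ((rk_alg (alg_has (k := k) hp h13) _).trans
        (rk_alg (alg_has' (k := k) hp h14) ∅)).trans (rk_le_encard _)
      simpa using add_le_add_left this 1
  · rw [Dc_aff hp _ _ ha, h13, zero_mul] at k3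
    simpa using red_comp k7 k8 k3
  · obtain ⟨c', l1, l2⟩ := k4 _ (hH.aff hp π ha c)
    rw [l2.2 ⟨h13, h14⟩] at l1
    simpa using red_comp k7 k8 l1

omit k in
theorem PA.of_NP (hp : p ≠ 2) (h : PA α w t) (ht : t ≠ 0) (h2 : NP p t) {x : HF κ}
    (hH : HC p α x) : Red (w ^ (p / 2 * (p + 1)) * x) 0 := by
  rcases h2 with ⟨β, v, h2, h3, h4⟩ | ⟨π, h2⟩
  · obtain ⟨a, c, A, ha, h9, h5, h6⟩ := h.ty1 hp h2.1 h3 h4
    have h7 : (β 1 - β 0)⁻¹ ≠ 0 := inv_ne_zero (sub_ne_zero.2 (h2.1.ne (by decide)))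
    have h8 : Function.Injective fun i => hres (A i) := fun i j e => by
      simp only [h6, add_left_inj] at e
      exact h2.1 (mul_left_cancel₀ h7 e)
    obtain ⟨k1, -, k3⟩ := caseI hp (U := fun _ => 1) (A := A) (fun _ => by simp) h9 (u := fun _ => 1)
      (fun _ => map_one _) (fun _ => rfl) (fun _ => .inl (one_ne_zero (α := κ)))
      (fun i j l h _ _ e => absurd (h8 (by simpa [br, sub_eq_zero] using e)) h)
      (by rw [pu_one, fz_deg]; omega)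
    simp only [Finset.prod_const_one, OneMemClass.coe_one, div_one, pu_one, TU_one, ← h5] at k1 k3
    obtain ⟨r, r', k6, k7, k8, k9⟩ := h.comp (π := 1) k1 ht fun e => TT_ne h8 1 (congrFun e 1)
    obtain ⟨c', l1, l2⟩ := k3 _ (hH.aff hp 1 ha c)
    rw [l2.2 (by simp only [h6]; exact (nil_aff hp β 1 h7 _).2 h2.2)] at l1
    simpa using red_comp k7 k8 l1
  · exact (h.of_N2 κ hp ht h2).2.2 x hH

end PR0.Z
end

-- merged part: Pool.Agent.Work.MP_da2620_ag.ZM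
section
/-!
# The two cones: the generic configuration with its Hasse invariant, and a component of the
non-ordinary locus with its second Hasse invariant
-/

namespace PR0.Z

open MvPolynomial Matrix

universe u

/-- Index type of the theta coordinates. -/
abbrev P5 := Equiv.Perm (Fin 5)

variable {k : Type u} [Field k] {p : ℕ} [Fact p.Prime] [CharP k p]
variable {K K' κ : Type u} [Field K] [Field K'] [Field κ] [Algebra k K] [Algebra k K'] [Algebra k κ]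

omit [Fact p.Prime] in
theorem chp (k : Type u) [Field k] (p : ℕ) [CharP k p] (K : Type u) [Field K] [Algebra k K] :
    CharP K p := charP_of_injective_algebraMap (algebraMap k K).injective p

omit [Fact p.Prime] [CharP k p] in
theorem HC.map {α : Fin 5 → K} {h : K} (hH : HC p α h) (φ : K →ₐ[k] K') :
    HC p (fun i => φ (α i)) (φ h) := by
  obtain ⟨a, b, ρ, ha, h1, rfl⟩ := hH
  have h2 := h1.map φ.toRingHom
  rw [← Phi_map, ← Psi_map, fz_map] at h2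
  refine ⟨_, _, _, fun e => ha (funext fun i => φ.injective ?_), by simpa using h2,
    hh_map p a b ρ φ.toRingHom⟩
  simpa using congrFun e i

omit [Fact p.Prime] [CharP k p] in
theorem _root_.PR0.Nil5.map {α : Fin 5 → K} (h : Nil5 p α) (φ : K →ₐ[k] K') : Nil5 p fun i => φ (α i) :=
  ⟨φ.injective.comp h.1, by simpa [fz_map] using h.2.map φ.toRingHom⟩

theorem HC.nil_iff [CharP K p] [IsAlgClosed K] (hp : p ≠ 2) {α : Fin 5 → K}
    (hα : Function.Injective α) {h : K} (hH : HC p α h) : h = 0 ↔ Nil2 p (fz α) := by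
  obtain ⟨a, b, ρ, ha, h1, rfl⟩ := hH
  refine (h1.nil_iff ha fun β => key2 hp (by rw [fz_deg]; omega) (fz_deg _).le
    (fz_zero (i := 0) (by simp)) ?_).trans ?_
  · rw [← pu_one]
    exact rm_pu (fun _ => .inl one_ne_zero)
      fun i j l h _ _ e => absurd (hα (by simpa [br, sub_eq_zero] using e)) h
  · simpa [sub_eq_add_neg, Nil2] using nil_aff hp α 1 one_ne_zero (-α 0)

theorem _root_.PR0.Nil2.det [CharP K p] {α : Fin 5 → K} (h : Nil2 p (fz α)) : Dc p α = 0 := by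
  have h1 := congrArg Matrix.det h
  rw [det_mul, det_zero, show (Phi p (fz α)).map (· ^ p) = (frobenius K p).mapMatrix _ from rfl,
    ← RingHom.map_det, mul_eq_zero, map_eq_zero, or_self] at h1
  exact h1

theorem Mne (hp : p ≠ 2) : p / 2 * (p + 1) ≠ 0 := by
  obtain ⟨m, hm⟩ := odd_p hp
  exact mul_ne_zero (by omega) (by omega)

omit [Fact p.Prime] [CharP k p] in
theorem pa_of (φ : K →ₐ[k] HF κ) {β : Fin 5 → K} {v : K} {x : P5 → κ}
    (h : ∀ σ, Red (φ (v * TT β σ)) (x σ)) : PA (fun i => φ (β i)) (φ v) x := fun σ => by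
  simpa only [map_mul, TT_map] using h σ

variable (k p) in
/-- Components of the non-ordinary locus. -/
def WP (𝔴 : Ideal (MvPolynomial P5 k)) : Prop :=
  Hom 𝔴 ∧ 3 ≤ dI 𝔴 ∧ ∃ (K : Type u) (_ : Field K) (_ : Algebra k K) (_ : IsAlgClosed K)
    (_ : FinTrdeg k K) (t : P5 → K), Pt2_id k t = 𝔴 ∧ W1 p t

variable (k p) in
/-- Positive dimensional families of smooth curves of `p`-rank zero. -/
def ZP (𝔷 : Ideal (MvPolynomial P5 k)) : Prop :=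
  Hom 𝔷 ∧ 2 ≤ dI 𝔷 ∧ ∃ (K : Type u) (_ : Field K) (_ : Algebra k K) (_ : IsAlgClosed K)
    (_ : FinTrdeg k K) (t : P5 → K), Pt2_id k t = 𝔷 ∧ N1 p t

omit [Fact p.Prime] [CharP k p] in
theorem ZP.prime {𝔷 : Ideal (MvPolynomial P5 k)} (h : ZP k p 𝔷) : 𝔷.IsPrime := by
  obtain ⟨-, -, K, _, _, _, _, t, rfl, -⟩ := h
  infer_instance

variable (k p) in
/-- The second cone. -/
structure C2 (𝔴 : Ideal (MvPolynomial P5 k)) (𝔭 : Ideal (MvPolynomial (Option P5) k)) : Prop where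
  prime : 𝔭.IsPrime
  hom : Hom 𝔭
  dn : down 𝔭 = 𝔴
  dim : 3 ≤ dI 𝔭
  lift : ∀ (κ : Type u) [Field κ] [Algebra k κ] [IsAlgClosed κ] (x : P5 → κ), x ≠ 0 →
    𝔴 ≤ Pt2_id k x → ∃ η, 𝔭 ≤ Pt2_id k (ex η x) ∧ (NP p x → η = 0)
  nil : ∀ (κ : Type u) [Field κ] [Algebra k κ] [IsAlgClosed κ] (x : P5 → κ), x ≠ 0 →
    𝔭 ≤ Pt2_id k (ex 0 x) → NP p x ∧ (2 ≤ dm k x → N1 p x)

theorem WP.c2 (hp : p ≠ 2) {𝔴 : Ideal (MvPolynomial P5 k)} (h : WP k p 𝔴) :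
    ∃ 𝔭, C2 k p 𝔴 𝔭 := by
  obtain ⟨h1, h2, K₀, _, _, _, _, t, rfl, β₀, v₀, h3, h4, -, h5⟩ := h
  obtain rfl : t = fun σ => v₀ * TT β₀ σ := funext h5
  have := chp k p K₀
  obtain ⟨h₀, h6⟩ := exists_HC hp h4
  obtain ⟨η₀, h7⟩ := IsAlgClosed.exists_pow_nat_eq (v₀ ^ (p / 2 * (p + 1)) * h₀)
    (Nat.pos_of_ne_zero (Mne hp))
  obtain ⟨K, _, _, _, _, ψ, s, -, h8⟩ := coneify k K₀
  obtain ⟨β, v, η, h, k1, k2, k3, k4, k5⟩ : ∃ (β : Fin 5 → K) (v η h : K), Function.Injective β ∧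
      HC p β h ∧ η ^ (p / 2 * (p + 1)) = v ^ (p / 2 * (p + 1)) * h ∧
      Hom (Pt2_id k (ex η fun σ => v * TT β σ)) ∧
      Pt2_id k (fun σ => v * TT β σ) = Pt2_id k fun σ => v₀ * TT β₀ σ := by
    have h9 : (fun σ => s * ψ v₀ * TT (fun i => ψ (β₀ i)) σ) = fun σ => s * ψ (v₀ * TT β₀ σ) := by
      simp only [map_mul, TT_map, mul_assoc]
    refine ⟨fun i => ψ (β₀ i), s * ψ v₀, s * ψ η₀, ψ h₀, ψ.injective.comp h3, h6.map ψ, ?_, ?_, ?_⟩
    · rw [mul_pow, mul_pow, ← map_pow, h7, map_mul, map_pow, mul_assoc]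
    · convert (h8 _ (ex η₀ fun σ => v₀ * TT β₀ σ)).1 using 2
      rw [h9]
      ext (_ | i) <;> rfl
    · rw [h9]
      exact le_antisymm (h8 _ _).2 (h1.smul (id_map ψ _).ge s)
  rw [← k5] at h2 ⊢
  refine ⟨_, inferInstance, k4, down_pt _ _, ?_, fun κ _ _ _ x hx hle => ?_,
    fun κ _ _ _ x hx hle => ?_⟩
  · rw [dI_pt] at h2 ⊢
    exact h2.trans (dm_ex _ _)
  · have := chp k p κ
    obtain ⟨φ, l1⟩ := arc3 (c₀ := x) hle
    have l2 := pa_of φ l1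
    obtain ⟨c, l3, -⟩ := (l2.res k hp (φ.injective.comp k1) hx).2 _ (k2.map φ)
    have l4 : φ η ^ (p / 2 * (p + 1)) = φ v ^ (p / 2 * (p + 1)) * φ h := by
      rw [← map_pow, k3, map_mul, map_pow]
    obtain ⟨d, l5, l6⟩ := Red.root (Mne hp) (l4 ▸ l3)
    refine ⟨d, spc_of_red φ ?_, fun hN => pow_eq_zero_iff (Mne hp) |>.1
      (l6.trans (l3.unique (l2.of_NP hp hx hN (k2.map φ))))⟩
    rintro (_ | σ)
    exacts [l5, l1 σ]
  · have := chp k p κ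
    obtain ⟨φ, l1⟩ := arc3 (c₀ := ex 0 x) hle
    have l2 := pa_of φ fun σ => l1 (some σ)
    obtain ⟨c, l3, l4⟩ := (l2.res k hp (φ.injective.comp k1) hx).2 _ (k2.map φ)
    have l5 := (l1 none).pow (p / 2 * (p + 1))
    simp only [ex, Option.elim_none, ← map_pow, k3, zero_pow (Mne hp)] at l5
    rw [map_mul, map_pow] at l5
    have l6 := l4 (l3.unique l5)
    refine ⟨l6, fun hd => l6.resolve_right ?_⟩
    rintro ⟨π, l7⟩
    exact absurd (hd.trans (l2.of_N2 k hp hx l7).1) (by decide)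

section
variable {𝔴 : Ideal (MvPolynomial P5 k)} {𝔭 : Ideal (MvPolynomial (Option P5) k)}

omit [Fact p.Prime] [CharP k p] in
theorem C2.zp (h : C2 k p 𝔴 𝔭) {𝔷 : Ideal (MvPolynomial P5 k)} (h1 : 𝔷.IsPrime) (h2 : Hom 𝔷)
    (h3 : 2 ≤ dI 𝔷) (h4 : 𝔭 ≤ up 𝔷) : ZP k p 𝔷 := by
  obtain ⟨K, _, _, _, _, z, rfl⟩ := pt 𝔷 h1
  refine ⟨h2, h3, K, _, _, inferInstance, inferInstance, z, rfl, ?_⟩
  rw [dI_pt] at h3
  exact (h.nil K z (ne_zero_of_dm (le_trans (by decide) h3)) (up_pt (k := k) z ▸ h4)).2 h3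

omit [Fact p.Prime] [CharP k p] in
theorem C2.zp_top (h : C2 k p 𝔴 𝔭) (hx : X none ∉ 𝔭) {𝔷 : Ideal (MvPolynomial P5 k)}
    (h1 : TopT 𝔭 𝔷) : ZP k p 𝔷 :=
  h.zp h1.prime (h1.hom h.prime h.hom hx)
    ((ENat.add_le_add_iff_right ENat.one_ne_top).1 (h.dim.trans h1.dim)) h1.le

omit [Fact p.Prime] [CharP k p] in
theorem C2.zp_self (h : C2 k p 𝔴 𝔭) (hx : X none ∈ 𝔭) : ZP k p 𝔴 := by
  obtain ⟨h1, h2, h3⟩ := down_spec h.prime hx
  rw [← h.dn]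
  exact h.zp h1 h.hom.down (le_trans (by decide) (h.dim.trans h3)) h2.ge

omit [Fact p.Prime] [CharP k p] in
theorem C2.le_up (h : C2 k p 𝔴 𝔭) [IsAlgClosed κ] {x : P5 → κ} (hx : x ≠ 0) (hN : NP p x)
    (hle : 𝔴 ≤ Pt2_id k x) : 𝔭 ≤ up (Pt2_id k x) := by
  obtain ⟨η, h1, h2⟩ := h.lift κ x hx hle
  rwa [up_pt, ← h2 hN]

omit [Fact p.Prime] [CharP k p] in
theorem C2.through (h : C2 k p 𝔴 𝔭) [IsAlgClosed κ] {x : P5 → κ} (hx : x ≠ 0) (hN : NP p x)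
    (hle : 𝔴 ≤ Pt2_id k x) : ∃ 𝔷, ZP k p 𝔷 ∧ 𝔴 ≤ 𝔷 ∧ 𝔷 ≤ Pt2_id k x := by
  by_cases h0 : X none ∈ 𝔭
  · exact ⟨𝔴, h.zp_self h0, le_rfl, hle⟩
  · obtain ⟨𝔷, h1, h2⟩ := exists_topT h.prime inferInstance (h.le_up hx hN hle)
    exact ⟨𝔷, h.zp_top h0 h1, h.dn ▸ (down_mono h1.le).trans (down_up 𝔷).le, h2⟩

omit [Fact p.Prime] [CharP k p] in
theorem C2.meet (h : C2 k p 𝔴 𝔭) {𝔡 : Ideal (MvPolynomial P5 k)} (h1 : 𝔡.IsPrime) (h2 : Hom 𝔡)
    (h3 : 2 ≤ dI 𝔡) (h4 : 𝔴 ≤ 𝔡) : ∃ (κ : Type u) (_ : Field κ) (_ : Algebra k κ)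
      (_ : IsAlgClosed κ) (x : P5 → κ), 1 ≤ dm k x ∧ NP p x ∧ 𝔡 ≤ Pt2_id k x := by
  obtain ⟨K, _, _, _, z, rfl⟩ := Pt2_pt 𝔡
  rw [dI_pt] at h3
  obtain ⟨η, h5, -⟩ := h.lift K z (ne_zero_of_dm (le_trans (by decide) h3)) h4
  obtain ⟨𝔢, h6, h7, h8, h9⟩ := core' (𝔮 := Pt2_id k (ex η z)) inferInstance
  obtain ⟨𝔯, h10, -⟩ := exists_top h6 inferInstance (h7.le_vx h6)
    (mem_vx_of (isHomogeneous_X k none) one_ne_zero)
  obtain ⟨h11, h12, h13⟩ := down_spec h10.prime h10.mem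
  obtain ⟨κ, _, _, _, x, h14⟩ := Pt2_pt (down 𝔯)
  have h15 : 1 ≤ dm k x := by
    have h16 := (dI_mono h6 inferInstance h8).trans (h10.dim.trans (add_le_add_left h13 1))
    rw [dI_pt, ← h14, dI_pt] at h16
    exact (ENat.add_le_add_iff_right ENat.one_ne_top).1 ((h3.trans (dm_ex η z)).trans h16)
  refine ⟨κ, _, _, inferInstance, x, h15, (h.nil κ x (ne_zero_of_dm h15) ?_).1, ?_⟩
  · rw [← up_pt, h14, h12]
    exact fun f hf => h10.le (h9 f fun n => h5 (h.hom.comp hf n))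
  · rw [h14]
    refine le_trans (fun f hf => h9 _ fun n => ?_) (down_mono h10.le)
    rw [← rename_homogeneousComponent]
    exact (down_pt η z).ge (h2.comp hf n)

omit [Fact p.Prime] [CharP k p] in
theorem C2.const [Infinite k] (h : C2 k p 𝔴 𝔭) (V : Ideal (MvPolynomial P5 k) → Prop)
    (hV : ∀ 𝔷 𝔷' 𝔡, ZP k p 𝔷 → ZP k p 𝔷' → 𝔡.IsPrime → 𝔷 ≤ 𝔡 → 𝔷' ≤ 𝔡 → 1 ≤ dI 𝔡 → V 𝔷 → V 𝔷')
    {𝔷 𝔷' : Ideal (MvPolynomial P5 k)} (h1 : ZP k p 𝔷) (h2 : ZP k p 𝔷') (h3 : 𝔴 ≤ 𝔷)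
    (h4 : 𝔴 ≤ 𝔷') (h5 : V 𝔷) : V 𝔷' := by
  have h6 : ∀ {𝔷}, ZP k p 𝔷 → 1 ≤ dI 𝔷 := fun h => le_trans (by decide) h.2.1
  by_cases h0 : X none ∈ 𝔭
  · exact hV _ _ _ (h.zp_self h0) h2 h2.prime h4 le_rfl (h6 h2)
      (hV _ _ _ h1 (h.zp_self h0) h1.prime le_rfl h3 (h6 h1) h5)
  have h7 : ∀ {𝔷}, ZP k p 𝔷 → 𝔴 ≤ 𝔷 → ∃ 𝔯, TopT 𝔭 𝔯 ∧ 𝔯 ≤ 𝔷 := by
    intro 𝔷 h8 h9
    have h10 := h6 h8
    obtain ⟨-, -, K, _, _, _, _, t, rfl, h11⟩ := h8
    exact exists_topT h.prime inferInstance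
      (h.le_up (ne_zero_of_dm (dI_pt (k := k) t ▸ h10)) (.inl h11) h9)
  obtain ⟨𝔯, h8, h9⟩ := h7 h1 h3
  obtain ⟨𝔯', h10, h11⟩ := h7 h2 h4
  refine hV _ _ _ (h.zp_top h0 h10) h2 h2.prime h11 le_rfl (h6 h2) ?_
  refine connT h.prime h.hom h0 V 1 h.dim (fun _ _ _ k1 k2 k3 _ k4 k5 k6 =>
    hV _ _ _ (h.zp_top h0 k1) (h.zp_top h0 k2) k3 k4 k5 k6) h8 h10 ?_
  exact hV _ _ _ h1 (h.zp_top h0 h8) h1.prime le_rfl h9 (h6 h1) h5

end

omit [Fact p.Prime] [CharP k p] in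
theorem red_T (φ : K →ₐ[k] HF κ) {β : Fin 5 → K} {β₀ : Fin 5 → κ} (h : ∀ i, Red (φ (β i)) (β₀ i)) :
    (∀ σ, Red (φ (TT β σ)) (TT β₀ σ)) ∧ Red (φ (Dc p β)) (Dc p β₀) := by
  choose A h1 h2 using h
  refine ⟨fun σ => ⟨TT A σ, ?_, by simp only [TT_map, h2]⟩, Dc p A, ?_, ?_⟩
  · refine (TT_map (HO κ).subtype A σ).trans (Eq.trans ?_ (TT_map φ β σ).symm)
    simp [h1]
  · refine (Dc_map p A (HO κ).subtype).trans (Eq.trans ?_ (Dc_map p β φ.toRingHom).symm)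
    simp [h1]
  · simpa [h2] using Dc_map p A hres.toRingHom

theorem cone1 [IsAlgClosed k] (hp : p ≠ 2) : ∃ 𝔭 : Ideal (MvPolynomial (Option P5) k),
    𝔭.IsPrime ∧ Hom 𝔭 ∧ 4 ≤ dI 𝔭 ∧ X none ∉ 𝔭 ∧ (∀ 𝔴, TopT 𝔭 𝔴 → WP k p 𝔴) ∧
      ∀ l n : k, SS p l → SS p n → ∃ x : P5 → k, x ≠ 0 ∧ N2 p x 1 ∧ cr x 1 = l ∧ cr x pn = n ∧
        𝔭 ≤ up (Pt2_id k x) := by
  obtain ⟨m, hm⟩ := odd_p hp
  have hm0 : p / 2 ≠ 0 := by omega
  obtain ⟨K₀, _, _, _, _, y₀, hy₀⟩ := pt (⊥ : Ideal (MvPolynomial (Fin 3) k)) Ideal.isPrime_bot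
  have hy₀' : AlgebraicIndependent k y₀ := (RingHom.injective_iff_ker_eq_bot _).2 hy₀
  obtain ⟨η₀, h1⟩ := IsAlgClosed.exists_pow_nat_eq (Dc p ![0, 1, y₀ 0, y₀ 1, y₀ 2])
    (Nat.pos_of_ne_zero hm0)
  obtain ⟨K, _, _, _, _, ψ, s, h2, h3⟩ := coneify k K₀
  have := chp k p K
  obtain ⟨y, η, hy, k1, k2⟩ : ∃ (y : Fin 3 → K) (η : K), AlgebraicIndependent k (Fin.cons s y) ∧
      η ^ (p / 2) = s ^ (p / 2) * Dc p ![0, 1, y 0, y 1, y 2] ∧
      Hom (Pt2_id k (ex η fun σ => s * TT ![0, 1, y 0, y 1, y 2] σ)) := by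
    have h4 : (fun i => ψ (![0, 1, y₀ 0, y₀ 1, y₀ 2] i)) = ![0, 1, ψ (y₀ 0), ψ (y₀ 1), ψ (y₀ 2)] := by
      ext i
      fin_cases i <;> simp
    refine ⟨fun i => ψ (y₀ i), s * ψ η₀, indep_of_rk ?_, ?_, ?_⟩
    · rw [Fin.range_cons, show (Set.range fun i => ψ (y₀ i)) = ψ '' Set.range y₀ from
        Set.range_comp _ _, rk_insert (h2 _), rk_image, rk_range_of_indep hy₀']
      simp
      rfl
    · rw [mul_pow, ← map_pow, h1, ← h4]
      exact congrArg _ (Dc_map p _ ψ.toRingHom)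
    · convert (h3 _ (ex η₀ (TT ![0, 1, y₀ 0, y₀ 1, y₀ 2]))).1 using 2
      ext (_ | i)
      · rfl
      · simp only [ex, Option.elim_some, TT_map, h4]
  set β : Fin 5 → K := ![0, 1, y 0, y 1, y 2] with hβ
  let G : Fin 5 → MvPolynomial (Fin 4) k := ![0, 1, X 1, X 2, X 3]
  have hG : ∀ i, aeval (Fin.cons s y : Fin 4 → K) (G i) = β i := fun i => by
    fin_cases i <;> simp [G, hβ] <;> rfl
  have k3 : Function.Injective β := fun i j e => by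
    rw [← hG, ← hG] at e
    have e' := hy e
    have h4 := congrArg (eval (![0, 0, 0, 0] : Fin 4 → k)) e'
    have h5 := congrArg (eval (![0, 1, 0, 0] : Fin 4 → k)) e'
    have h6 := congrArg (eval (![0, 0, 1, 0] : Fin 4 → k)) e'
    have h7 := congrArg (eval (![0, 0, 0, 1] : Fin 4 → k)) e'
    fin_cases i <;> fin_cases j <;> simp [G] at h4 h5 h6 h7 ⊢
  have hs : s ≠ 0 := hy.ne_zero 0
  have k4 : 4 ≤ dI (Pt2_id k (ex η fun σ => s * TT β σ)) := by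
    rw [dI_pt]
    refine le_trans ?_ (dm_ex _ _)
    refine (rk_range_of_indep hy).ge.trans (rk_le_of_mem ?_)
    set L := IntermediateField.adjoin k (Set.range fun σ => s * TT β σ)
    have h4 : ∀ σ, s * TT β σ ∈ L := fun σ => IntermediateField.subset_adjoin _ _ ⟨σ, rfl⟩
    have h5 : ∀ i, β i ∈ L := by
      intro i
      by_cases h0 : 0 = i
      · exact h0 ▸ zero_mem _
      by_cases h5 : 1 = i
      · exact h5 ▸ one_mem _
      obtain ⟨σ, l0, l1, l2⟩ := exists_perm3 zero_ne_one h0 h5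
      have h6 := (cr_TT (den_ne hp (fun σ => mul_ne_zero hs (TT_ne k3 σ)) σ)).2
      rw [l0, l1, l2, show β 0 = 0 from rfl, show β 1 = 1 from rfl, sub_zero, sub_zero,
        div_one] at h6
      rw [← h6]
      exact div_mem (sub_mem (add_mem (mul_mem (h4 _) (h4 _)) (mul_mem (h4 _) (h4 _)))
        (mul_mem (h4 _) (h4 _))) (mul_mem (ofNat_mem _ _) (mul_mem (h4 _) (h4 _)))
    rintro _ ⟨i, rfl⟩
    refine Fin.cases ?_ (fun i => ?_) i
    · have h6 := div_mem (h4 1) (TU_one β ▸ TU_mem (fun _ => one_mem L) h5 1)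
      rwa [mul_div_cancel_right₀ _ (TT_ne k3 1)] at h6
    · fin_cases i
      exacts [h5 2, h5 3, h5 4]
  have k5 : (X none : MvPolynomial (Option P5) k) ∉ Pt2_id k (ex η fun σ => s * TT β σ) := by
    intro h
    have h4 : η = 0 := by simpa [ex] using h
    rw [h4, zero_pow hm0, zero_eq_mul, or_iff_right (pow_ne_zero _ hs)] at k1
    have h5 : Dc p G = 0 := hy (by
      refine (Dc_map p G (aeval (Fin.cons s y) : _ →ₐ[k] K).toRingHom).trans ?_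
      simpa [hG] using k1)
    refine Dc_node (k := k) hp ?_
    have h6 := Dc_map p G (aeval ![0, 0, X 0, X 1] : _ →ₐ[k] MvPolynomial (Fin 2) k).toRingHom
    rw [h5, map_zero] at h6
    refine Eq.trans ?_ h6.symm
    congr 1
    ext1 i
    fin_cases i <;> simp [G]
  refine ⟨_, inferInstance, k2, k4, k5, fun 𝔴 h => ?_, fun l n hl hn => ?_⟩
  · have h4 : 3 ≤ dI 𝔴 := (ENat.add_le_add_iff_right ENat.one_ne_top).1 (k4.trans h.dim)
    obtain ⟨κ, _, _, _, _, z, rfl⟩ := pt 𝔴 h.prime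
    refine ⟨h.hom inferInstance k2 k5, h4, κ, _, _, inferInstance, inferInstance, z, rfl, ?_⟩
    have := chp k p κ
    rw [dI_pt] at h4
    obtain ⟨φ, l1⟩ := arc3 (c₀ := ex 0 z) (up_pt (k := k) z ▸ h.le)
    have l2 := pa_of φ fun σ => l1 (some σ)
    obtain ⟨d, l3, l4⟩ := (l2.res k hp (φ.injective.comp k3)
      (ne_zero_of_dm (le_trans (by decide) h4))).1
    have l5 := (l1 none).pow (p / 2)
    simp only [ex, Option.elim_none, ← map_pow, k1, zero_pow hm0] at l5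
    rw [map_mul, map_pow, show φ (Dc p β) = _ from Dc_map p β φ.toRingHom] at l5
    exact (l4 (l3.unique l5)).resolve_right fun h => absurd (h4.trans h) (by decide)
  · let ε : HO k := ⟨τ k 1, by rw [mem_HO, hv_τ]; exact_mod_cast zero_le_one⟩
    have e1 : (ε : HF k) ≠ 0 := τ_ne_zero 1
    have e2 : ε ≠ 0 := fun h => e1 (congrArg Subtype.val h)
    have e3 : hres ε = 0 := hres_eq_zero.2 (by
      change 0 < hv (τ k 1)
      rw [hv_τ]
      exact_mod_cast zero_lt_one)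
    have e4 : algebraMap k (HO k) n⁻¹ ≠ 0 := by simpa using hn.ne_zero hp
    obtain ⟨x, l1, -⟩ := caseII_T k (l := algebraMap k (HO k) l) e2 e3 e4
    have l2 : x ≠ 0 := fun h => by simpa [h] using (l1.II_ne e2 e3 e4).2.1
    obtain ⟨l3, l4, l5⟩ := l1.II_N2 hp e2 e3 e4 (by simpa using SS_iff.1 hl) (by
      have := has_mul p n⁻¹ 1 n
      rw [SS_iff.1 hn, mul_zero, inv_mul_cancel₀ (hn.ne_zero hp), mul_one] at this
      simpa using this)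
    refine ⟨x, l2, l3, by simpa using l4, by simpa using l5, ?_⟩
    have l6 := (l1.of_N2 k hp l2 l3).2.1
    generalize hF : (![0, (ε : HF k), ε * (algebraMap k (HO k) l : HO k), 1,
      ((algebraMap k (HO k) n⁻¹ : HO k) : HF k)⁻¹] : Fin 5 → HF k) = F at l1 l6
    generalize ((algebraMap k (HO k) n⁻¹ : HO k) : HF k) ^ 2 / (ε : HF k) = w at l1 l6
    have l7 : F 0 = 0 := hF ▸ rfl
    have l8 : F 1 = ε := hF ▸ rfl
    obtain ⟨φ, l9⟩ := arc3 (k := k) (c := (Fin.cons s y : Fin 4 → K))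
      (c₀ := ![w * ε ^ 4, (ε : HF k)⁻¹ * F 2, (ε : HF k)⁻¹ * F 3, (ε : HF k)⁻¹ * F 4])
      fun f hf => by rw [hy (hf.trans (map_zero _).symm), map_zero]
    have m0 : Red (φ s) (w * ε ^ 4) := l9 0
    have m1 : Red (φ (y 0)) ((ε : HF k)⁻¹ * F 2) := l9 1
    have m2 : Red (φ (y 1)) ((ε : HF k)⁻¹ * F 3) := l9 2
    have m3 : Red (φ (y 2)) ((ε : HF k)⁻¹ * F 4) := l9 3
    have m4 : w * ε ^ 4 * (ε : HF k)⁻¹ ^ 4 = w := by field_simp
    obtain ⟨l10, l11⟩ := red_T (p := p) φ (β := β) (β₀ := fun i => (ε : HF k)⁻¹ * F ((1 : P5) i) + 0)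
      fun i => by
        fin_cases i
        · exact ⟨0, by simp [hβ], by simp [l7]⟩
        · exact ⟨1, by simp [hβ], by simp [l8, e1]⟩
        · simpa [hβ] using m1
        · simpa [hβ] using m2
        · simpa [hβ] using m3
    have l12 : Red (φ η ^ (p / 2)) (w ^ (p / 2) * Dc p F) := by
      have := (m0.pow (p / 2)).mul l11
      rw [Dc_aff hp _ _ (inv_ne_zero e1), ← mul_assoc, ← mul_pow, m4] at this
      rwa [← map_pow, k1, map_mul, map_pow]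
    obtain ⟨d, l13, l14⟩ := Red.root hm0 l12
    obtain ⟨d', l15, l16⟩ := Red.root hm0 (l14 ▸ l6)
    rw [up_pt]
    refine Spc.trans (c' := ex d fun σ => w * TT F σ) (spc_of_red φ ?_)
      (spc_of_red (AlgHom.id k _) ?_)
    · rintro (_ | σ)
      · exact l13
      · have := m0.mul (l10 σ)
        rwa [TT_aff, ← mul_assoc, ← map_mul, m4, one_mul] at this
    · rintro (_ | σ)
      · exact (pow_eq_zero_iff hm0).1 l16 ▸ l15
      · exact l1 σ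

end PR0.Z
end

-- merged part: Pool.Agent.Work.MP_da2620_ag.Z2
section
/-!
# Connectedness of the supersingular locus in genus two
-/

namespace PR0.Z

open MvPolynomial Matrix

universe u

variable {k : Type u} [Field k] {p : ℕ} [Fact p.Prime] [CharP k p]

/-- The configuration `F` is a generic point of `𝔷`. -/
def Rp (𝔷 : Ideal (MvPolynomial P5 k)) (F : Fin 5 → HF k) : Prop :=
  ∃ (π : P5) (w : HF k), w ≠ 0 ∧ Pt2_id k (fun σ => w * TT F (π * σ)) = 𝔷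

theorem ratio {K : Type u} [Field K] [CharP K p] (hp : p ≠ 2) {α β : Fin 5 → K} {v w : K}
    (hα : Function.Injective α) (hv : v ≠ 0) (h : ∀ σ, v * TT α σ = w * TT β σ) :
    ∃ a c, a ≠ 0 ∧ ∀ i, α i = a * β i + c := by
  have h1 := den_ne hp fun σ => mul_ne_zero hv (TT_ne hα σ)
  have h2 := h1
  simp only [h] at h2
  have h3 : α 1 - α 0 ≠ 0 := (cr_TT (h1 1)).1
  have h4 : β 1 - β 0 ≠ 0 := (cr_TT (h2 1)).1
  refine ⟨(α 1 - α 0) / (β 1 - β 0), α 0 - (α 1 - α 0) / (β 1 - β 0) * β 0, div_ne_zero h3 h4,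
    fun i => ?_⟩
  by_cases h0 : 0 = i
  · subst h0
    ring
  by_cases h5 : 1 = i
  · subst h5
    field_simp
    ring
  obtain ⟨σ, k0, k1, k2⟩ := exists_perm3 zero_ne_one h0 h5
  have h6 := (cr_TT (h1 σ)).2
  simp only [h] at h6
  rw [(cr_TT (h2 σ)).2, k0, k1, k2, div_eq_div_iff h4 h3] at h6
  field_simp
  linear_combination -h6

theorem Rp.iso (hp : p ≠ 2) {𝔷 : Ideal (MvPolynomial P5 k)} {F F' : Fin 5 → HF k}
    (hF : Function.Injective F) (h : Rp 𝔷 F) (h' : Rp 𝔷 F') : Iso5 k F F' := by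
  obtain ⟨π, w, h1, rfl⟩ := h
  obtain ⟨π', w', -, h2⟩ := h'
  obtain ⟨Ω, _, _, _, φ, φ', h3⟩ := amalgam (k := k) (c := fun σ => w * TT F (π * σ))
    (c' := fun σ => w' * TT F' (π' * σ)) h2.ge h2.le
  have := chp k p Ω
  obtain ⟨a, c, h4, h5⟩ := ratio hp (α := fun i => φ (F (π i))) (β := fun i => φ' (F' (π' i)))
    (v := φ w) (w := φ' w') ((φ.injective.comp hF).comp π.injective) (by simpa using h1)
    fun σ => by simpa [TT] using h3 σ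
  exact ⟨Ω, _, _, inferInstance, φ, φ', π * π'⁻¹, a, c, h4, fun i => by simpa using h5 (π'⁻¹ i)⟩

omit [Fact p.Prime] [CharP k p] in
theorem rp_aff {F : Fin 5 → HF k} {w a : HF k} (hw : w ≠ 0) (ha : a ≠ 0) (π : P5) (c : HF k) :
    Rp (Pt2_id k fun σ => w * TT F σ) fun i => a * F (π i) + c :=
  ⟨π⁻¹, w / a ^ 4, div_ne_zero hw (pow_ne_zero _ ha), by
    congr 1
    ext σ
    rw [TT_aff, mul_inv_cancel_left]
    field_simp⟩

theorem _root_.PR0.Nil5.aff {K : Type u} [Field K] [CharP K p] (hp : p ≠ 2) {F : Fin 5 → K} (h : Nil5 p F)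
    (π : P5) {a : K} (ha : a ≠ 0) (c : K) : Nil5 p fun i => a * F (π i) + c :=
  ⟨fun _ _ e => π.injective (h.1 (mul_left_cancel₀ ha (add_right_cancel e))),
    (nil_aff hp F π ha c).2 h.2⟩

variable [IsAlgClosed k]

theorem ZP.arc (hp : p ≠ 2) {𝔷 : Ideal (MvPolynomial P5 k)} (h : ZP k p 𝔷) {x : P5 → k}
    (hx : x ≠ 0) (hle : 𝔷 ≤ Pt2_id k x) : NP p x ∧
      (∀ π, N2 p x π → ∃ F, Nil5 p F ∧ Rp 𝔷 F ∧ Ty2 F (cr x π) (cr x (π * pn))) ∧
      ∀ β v, Nil5 p β → v ≠ 0 → (∀ σ, x σ = v * TT β σ) → ∃ F, Nil5 p F ∧ Rp 𝔷 F ∧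
        Ty1 F fun i => (β 1 - β 0)⁻¹ * β i + -((β 1 - β 0)⁻¹ * β 0) := by
  obtain ⟨-, -, K, _, _, _, _, t, rfl, γ, v, h1, h2, h3⟩ := h
  obtain rfl : t = fun σ => v * TT γ σ := funext h3
  obtain ⟨φ, h4⟩ := arc3 (c₀ := x) hle
  have h5 := pa_of φ h4
  have h6 := h1.map φ
  have h7 : φ v ≠ 0 := by simpa using h2
  have h8 : Pt2_id k (fun σ => v * TT γ σ) = Pt2_id k fun σ => φ v * TT (fun i => φ (γ i)) σ := by
    simpa only [map_mul, TT_map] using (id_map φ fun σ => v * TT γ σ).symm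
  rw [h8]
  refine ⟨?_, fun π h => ?_, fun β v k1 k2 k3 => ?_⟩
  · obtain ⟨h, h9⟩ := exists_HC hp h6.2.det
    obtain ⟨c, h10, h11⟩ := (h5.res k hp h6.1 hx).2 h h9
    rw [(h9.nil_iff hp h6.1).2 h6.2, mul_zero] at h10
    exact h11 (h10.unique ⟨0, rfl, map_zero _⟩)
  · obtain ⟨a, c, ε, l, n, k1, k2, k3, k4, k5, k6⟩ := h5.ty2 h
    exact ⟨_, h6.aff hp π k1 c, rp_aff h7 k1 π c, ε, l, n, k2, k3, k4, k5, k6⟩
  · obtain ⟨a, c, A, k4, -, k5, k6⟩ := h5.ty1 hp k1.1 k2 k3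
    exact ⟨_, h6.aff hp 1 k4 c, rp_aff h7 k4 1 c,
      (k1.aff hp 1 (inv_ne_zero (sub_ne_zero.2 (k1.1.ne (by decide)))) _).1, A, k5, k6⟩

theorem ZP.bd (hp : p ≠ 2) {𝔷 : Ideal (MvPolynomial P5 k)} (h : ZP k p 𝔷) {F : Fin 5 → HF k}
    (hF : Function.Injective F) (hR : Rp 𝔷 F) : Bd5 p F := by
  obtain ⟨𝔯, h1, -⟩ := exists_top h.prime inferInstance (h.1.le_vx h.prime)
    (mem_vx_of (isHomogeneous_X k 1) one_ne_zero)
  obtain ⟨x, h2, h3⟩ := rat_pt h1.prime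
    ((ENat.add_le_add_iff_right ENat.one_ne_top).1 (h.2.1.trans h1.dim))
  obtain ⟨⟨β, v, h4, h5, h6⟩ | ⟨π, h4⟩, h7, -⟩ := h.arc hp h2 (h1.le.trans h3)
  · refine absurd ?_ (mul_ne_zero h5 (TT_ne h4.1 1))
    simpa [h6] using h3 h1.mem
  · obtain ⟨G, h8, h9, h10⟩ := h7 π h4
    exact ⟨G, _, _, h4.2.2.2.2.1, h4.2.2.2.2.2, h8, h10, hR.iso hp hF h9⟩

theorem _root_.PR0.Z2 (hp : p ≠ 2) (S : (Fin 5 → HF k) → Prop)
    (hiso : ∀ F F', Nil5 p F → Nil5 p F' → Iso5 k F F' → S F → S F')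
    (h1 : ∀ F F' β, Nil5 p F → Nil5 p F' → Nil5 p β → Ty1 F β → Ty1 F' β → Bd5 p F → Bd5 p F' →
      S F → S F')
    (h2 : ∀ F F' l n, Nil5 p F → Nil5 p F' → SS p l → SS p n → Ty2 F l n → Ty2 F' l n →
      S F → S F')
    {l n l' n' : k} (hl : SS p l) (hn : SS p n) (hl' : SS p l') (hn' : SS p n') :
    ∃ F F', Nil5 p F ∧ Nil5 p F' ∧ Ty2 F l n ∧ Ty2 F' l' n' ∧ (S F ↔ S F') := by
  let V : Ideal (MvPolynomial P5 k) → Prop := fun 𝔷 => ∃ F, Nil5 p F ∧ Rp 𝔷 F ∧ S F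
  have hV0 : ∀ {𝔷 F}, Nil5 p F → Rp 𝔷 F → V 𝔷 → S F := by
    rintro 𝔷 F k1 k2 ⟨G, k3, k4, k5⟩
    exact hiso _ _ k3 k1 (k4.iso hp k3.1 k2) k5
  have hV : ∀ 𝔷 𝔷' 𝔡, ZP k p 𝔷 → ZP k p 𝔷' → 𝔡.IsPrime → 𝔷 ≤ 𝔡 → 𝔷' ≤ 𝔡 → 1 ≤ dI 𝔡 →
      V 𝔷 → V 𝔷' := by
    intro 𝔷 𝔷' 𝔡 k1 k2 k3 k4 k5 k6 k7
    obtain ⟨x, k8, k9⟩ := rat_pt k3 k6
    obtain ⟨k10, k11, k12⟩ := k1.arc hp k8 (k4.trans k9)
    obtain ⟨-, k13, k14⟩ := k2.arc hp k8 (k5.trans k9)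
    rcases k10 with ⟨β, v, l1, l2, l3⟩ | ⟨π, l1⟩
    · obtain ⟨F, l4, l5, l6⟩ := k12 β v l1 l2 l3
      obtain ⟨F', l7, l8, l9⟩ := k14 β v l1 l2 l3
      exact ⟨F', l7, l8, h1 F F' _ l4 l7
        (l1.aff hp 1 (inv_ne_zero (sub_ne_zero.2 (l1.1.ne (by decide)))) _) l6 l9
        (k1.bd hp l4.1 l5) (k2.bd hp l7.1 l8) (hV0 l4 l5 k7)⟩
    · obtain ⟨F, l4, l5, l6⟩ := k11 π l1
      obtain ⟨F', l7, l8, l9⟩ := k13 π l1
      exact ⟨F', l7, l8, h2 F F' _ _ l4 l7 l1.2.2.2.2.1 l1.2.2.2.2.2 l6 l9 (hV0 l4 l5 k7)⟩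
  obtain ⟨𝔭, c1, c2, c3, c4, c5, c6⟩ := cone1 (k := k) hp
  let Q : Ideal (MvPolynomial P5 k) → Prop := fun 𝔴 => ∃ 𝔷, ZP k p 𝔷 ∧ 𝔴 ≤ 𝔷 ∧ V 𝔷
  have hQ : ∀ {𝔴 𝔴'}, TopT 𝔭 𝔴 → TopT 𝔭 𝔴' → Q 𝔴 → Q 𝔴' := by
    refine connT c1 c2 c4 Q 2 c3 ?_
    rintro 𝔴 𝔴' 𝔡 k1 k2 k3 k4 k5 k6 k7 ⟨𝔷, k8, k9, k10⟩
    obtain ⟨𝔮, l1⟩ := (c5 _ k1).c2 hp
    obtain ⟨𝔮', l2⟩ := (c5 _ k2).c2 hp
    obtain ⟨κ, _, _, _, x, l3, l4, l5⟩ := l1.meet k3 k4 k7 k5
    obtain ⟨𝔶, l6, l7, l8⟩ := l1.through (ne_zero_of_dm l3) l4 (k5.trans l5)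
    obtain ⟨𝔶', l9, l10, l11⟩ := l2.through (ne_zero_of_dm l3) l4 (k6.trans l5)
    exact ⟨𝔶', l9, l10, hV _ _ _ l6 l9 inferInstance l8 l11 (l3.trans (dI_pt x).ge)
      (l1.const V hV k8 l6 k9 l7 k10)⟩
  have key : ∀ {l n : k}, SS p l → SS p n → ∃ 𝔴 F, TopT 𝔭 𝔴 ∧ Nil5 p F ∧ Ty2 F l n ∧
      (S F ↔ Q 𝔴) := by
    intro l n hl hn
    obtain ⟨x, k1, k2, rfl, rfl, k3⟩ := c6 l n hl hn
    obtain ⟨𝔴, k4, k5⟩ := exists_topT c1 inferInstance k3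
    obtain ⟨𝔮, k6⟩ := (c5 _ k4).c2 hp
    obtain ⟨𝔷, k7, k8, k9⟩ := k6.through k1 (.inr ⟨1, k2⟩) k5
    obtain ⟨F, k10, k11, k12⟩ := (k7.arc hp k1 k9).2.1 1 k2
    refine ⟨𝔴, F, k4, k10, by simpa using k12, fun h => ⟨𝔷, k7, k8, F, k10, k11, h⟩, ?_⟩
    rintro ⟨𝔶, l1, l2, l3⟩
    exact hV0 k10 k11 (k6.const V hV l1 k7 l2 k8 l3)
  obtain ⟨𝔴, F, k1, k2, k3, k4⟩ := key hl hn
  obtain ⟨𝔴', F', k5, k6, k7, k8⟩ := key hl' hn'
  exact ⟨F, F', k2, k6, k3, k7, k4.trans (Iff.trans ⟨hQ k1 k5, hQ k5 k1⟩ k8.symm)⟩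

end PR0.Z
end
end
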