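import Pool.Agent.Work.MP_da2620_ag.TailB
import Pool.Agent.Work.MP_da2620_ag.WeiC
import Pool.Agent.Work.MP_da2620_ag.Cut
import Pool.Agent.Work.MP_da2620_ag.Smd
import Pool.Agent.Work.MP_da2620_ag.StarT
import Pool.Agent.Work.MP_da2620_ag.Hyp
import Pool.Agent.Work.MP_da2620_ag.HermT
import Pool.Agent.Work.MP_da2620_ag.Z2
import Pool.Agent.Work.MP_da2620_ag.MgDef
import Pool.Agent.Work.MP_da2620_ag.Ex
import Pool.Agent.Work.MP_da2620_ag.Pic

-- merged part: Pool.Agent.Work.MP_da2620_ag.HypMA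
section
-- merged part: Pool.Agent.Work.MP_da2620_ag.Tail
section
/-!
# The elliptic tail: the model with two components

`Lf f f₀ f₁ n` says that `f` has poles only at infinity and at `P 0`, `P 1`, has
integral expansions at infinity reducing to those of `f₀`, and `z ^ n f ∈ B` reduces to `(X - c) ^ n f₁`.
`exists_lf`: the relation is closed under sums, products with elements of the model (`mem`), constants, and
increasing `n`.  With `N` large, `μ = m ^ N`, `μ₀ = m₀(q) ^ N`: `μ / z ^ j = μ u ^ j / (x - α) ^ j` lifts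
`(0, μ₀ / (X - c) ^ j)` for `j ≥ 1` (the expansion of `x - α` is a unit of `LS O`); `μ η / z ^ j = μ y' (u ^ j / v) / (x - α) ^ j`
lifts `(0, μ₀ Y / (X - c) ^ j)` for `j ≥ 2` since `hv (u ^ j / v) > 0`; and `μ y' / (x - α) = μ (v / u) η / z` lifts
`(m₀ ^ N y₀ / (x̄ - a), 0)` at level one, whose first component is in `d'.reg` and is a uniformiser at `q`.
Every `f₀ ∈ d'.reg` is a multiple of it plus an element of the cusp algebra; use `lev_weiA`, `val_inf`.  Finally lower the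
pole order at infinity by subtracting `∑ pc F μ • chi μ` over `μ.2 ≥ n`; these coefficients lie in `𝔪`.
`exists_mod`: the lift `x₁` of `(x̄, a + 1 / (X - c))` at level one (from `exists_lf` and `CuspMod.simple`) has simple poles at infinity and at the `P i`
(`exists_cd`).  Apply `expand` at infinity to `{f | ex i f ∈ O[[t]]}` with `t₁ = 1 / x₁`, and at `P i` to the ring of
fractions `{f | ∃ s ∈ B, hres (σ i s) ≠ 0, s f ∈ B}` with `e₀ = dE.ex i ∘ ρ` (`σker`; `z x₁` is a unit there).  Then `crit`.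
`exists_tail`: nilpotence passes from the generic fibre to the special fibre (`snil_iff`, `spc_gen_spe`, `SNil` is a closed
condition), then to the second factor; `not_nil` gives `Δ ≠ 0`; conclude with `IsMod.sp'`.
-/

namespace PR0

open Polynomial

universe u

/-- A comb with one tail. -/
abbrev Comb.one {K : Type u} [Field K] (C E : FFd K) (a : Place K C.L) (b : Place K E.L) :
    Comb Unit K := ⟨C, fun _ => E, fun _ => a, fun _ => b, fun _ _ _ => rfl⟩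

section
variable {K : Type u} [Field K] {ι ι' : Type}

/-- Gluing two chart algebras along two characters. -/
def glue2 (A : Subalgebra K (LT ι K)) (A' : Subalgebra K (LT ι' K)) (σ : A →ₐ[K] K)
    (σ' : A' →ₐ[K] K) : Subalgebra K (LT (ι ⊕ ι') K) where
  carrier := {F | ∃ (a : A) (a' : A'), σ a = σ' a' ∧ F = Sum.elim a.1 a'.1}
  mul_mem' := by
    rintro _ _ ⟨a, a', h, rfl⟩ ⟨b, b', h', rfl⟩
    exact ⟨a * b, a' * b', by rw [map_mul, map_mul, h, h'], funext fun i => by cases i <;> rfl⟩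
  add_mem' := by
    rintro _ _ ⟨a, a', h, rfl⟩ ⟨b, b', h', rfl⟩
    exact ⟨a + b, a' + b', by rw [map_add, map_add, h, h'], funext fun i => by cases i <;> rfl⟩
  algebraMap_mem' := fun c => ⟨algebraMap K A c, algebraMap K A' c,
    by rw [AlgHom.commutes, AlgHom.commutes], funext fun i => by cases i <;> rfl⟩

theorem IsChart.glue2 [Fintype ι] [DecidableEq ι] [Fintype ι'] [DecidableEq ι'] {J : Finset (ι × ℕ)}
    {J' : Finset (ι' × ℕ)} {A : Subalgebra K (LT ι K)} {A' : Subalgebra K (LT ι' K)}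
    (h : IsChart J A) (h' : IsChart J' A') (σ : A →ₐ[K] K) (σ' : A' →ₐ[K] K)
    (hx : σ ⟨_, h.x_mem⟩ = σ' ⟨_, h'.x_mem⟩) : ∃ J₂ : Finset ((ι ⊕ ι') × ℕ),
      J₂.card = J.card + J'.card ∧ IsChart J₂ (glue2 A A' σ σ') := by
  let e : (ι × ℕ) ⊕ (ι' × ℕ) ≃ (ι ⊕ ι') × ℕ := (Equiv.sumProdDistrib ι ι' ℕ).symm
  have m1 : ∀ i n, (Sum.inl i, n) ∈ (J.disjSum J').map e.toEmbedding ↔ (i, n) ∈ J := by
    intro i n
    rw [Finset.mem_map_equiv]
    exact Finset.inl_mem_disjSum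
  have m2 : ∀ i n, (Sum.inr i, n) ∈ (J.disjSum J').map e.toEmbedding ↔ (i, n) ∈ J' := by
    intro i n
    rw [Finset.mem_map_equiv]
    exact Finset.inr_mem_disjSum
  refine ⟨(J.disjSum J').map e.toEmbedding, by rw [Finset.card_map, Finset.card_disjSum], ?_, ?_, ?_⟩
  · exact ⟨⟨_, h.x_mem⟩, ⟨_, h'.x_mem⟩, hx, funext fun i => by cases i <;> rfl⟩
  · rintro _ ⟨a, a', e₀, rfl⟩ hF
    obtain ⟨c, hc⟩ := h.inj a.1 a.2 fun μ hμ => hF (Sum.inl μ.1, μ.2) (by rwa [m1])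
    obtain ⟨c', hc'⟩ := h'.inj a'.1 a'.2 fun μ hμ => hF (Sum.inr μ.1, μ.2) (by rwa [m2])
    have e1 : a = algebraMap K A c := Subtype.ext hc
    have e2 : a' = algebraMap K A' c' := Subtype.ext hc'
    rw [e1, e2, AlgHom.commutes, AlgHom.commutes] at e₀
    have e3 : c = c' := e₀
    subst e3
    exact ⟨c, by rw [hc, hc']; exact funext fun i => by cases i <;> rfl⟩
  · rintro ⟨i | i, n⟩ hμ
    · obtain ⟨F, hF, h1⟩ := h.surj (i, n) (by rwa [← m1])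
      refine ⟨_, ⟨⟨F, hF⟩, algebraMap K A' (σ ⟨F, hF⟩), (σ'.commutes _).symm, rfl⟩, ?_⟩
      rintro ⟨j | j, m⟩ hν
      · have := h1 (j, m) (by rwa [← m1])
        simp only [Prod.mk.injEq, Sum.inl.injEq] at this ⊢
        exact this
      · rw [if_neg (by simp)]
        exact Chart_pc_C (ι := ι') (σ ⟨F, hF⟩) (j, m)
    · obtain ⟨F, hF, h1⟩ := h'.surj (i, n) (by rwa [← m2])
      refine ⟨_, ⟨algebraMap K A (σ' ⟨F, hF⟩), ⟨F, hF⟩, σ.commutes _, rfl⟩, ?_⟩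
      rintro ⟨j | j, m⟩ hν
      · rw [if_neg (by simp)]
        exact Chart_pc_C (ι := ι) (σ' ⟨F, hF⟩) (j, m)
      · have := h1 (j, m) (by rwa [← m2])
        simp only [Prod.mk.injEq, Sum.inr.injEq] at this ⊢
        exact this

end

section
variable {K L : Type u} [Field K] [Field L] [Algebra K L] [IsAlgClosed K] [Fact (IsFF K L)]

theorem Tail_ord {Q : Place K L} {f : L} (h : f ∈ Q.1) (h0 : Q.val f ≠ 0) : f ≠ 0 ∧ Q.ord f = 0 := by
  have h1 : ¬ Q.Ge f 1 := fun e => h0 ((Place.val_eq_zero h).2 e)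
  have h2 := Q.mem_iff.1 h
  rw [Place.Ge, not_or, not_le] at h1
  have h3 := h2.resolve_left h1.1
  exact ⟨h1.1, by omega⟩

theorem Tail_inv_mem {Q : Place K L} {f : L} (h : f ∈ Q.1) (h0 : Q.val f ≠ 0) : f⁻¹ ∈ Q.1 := by
  obtain ⟨h1, h2⟩ := Tail_ord h h0
  exact Q.mem_iff.2 (.inr (by rw [Q.ord_inv h1, h2, neg_zero]))

theorem Tail_val_zero (Q : Place K L) : Q.val (0 : L) = 0 := by
  simpa using Q.val_const 0

theorem Tail_N {x m : L} {a : K} (S : Set (Place K L)) (hx : x - algebraMap K L a ≠ 0)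
    (h : ∀ Q ∈ S, x ∈ Q.1 ∧ m ∈ Q.1 ∧ (Q.val x = a → Q.val m = 0)) :
    ∃ N₀ : ℕ, ∀ N, N₀ ≤ N → ∀ Q ∈ S, m ^ N * (x - algebraMap K L a)⁻¹ ∈ Q.1 := by
  obtain ⟨M, hM⟩ := ((finite_ord (K := K) hx).image
    fun P : Place K L => P.ord (x - algebraMap K L a)).bddAbove
  refine ⟨M.toNat, fun N hN Q hQ => ?_⟩
  obtain ⟨h1, h2, h3⟩ := h Q hQ
  by_cases e : Q.val x = a
  · have h4 := ((Place.val_eq_zero h2).1 (h3 e)).pow N
    have h5 : Q.ord (x - algebraMap K L a) ≤ N := by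
      by_cases e' : Q.ord (x - algebraMap K L a) = 0
      · omega
      · have := hM ⟨Q, e', rfl⟩
        simp only at this
        omega
    have h6 : Q.Ge (x - algebraMap K L a)⁻¹ (-N) := .inr (by rw [Q.ord_inv hx]; omega)
    exact Q.mem_iff.2 ((h4.mul h6).mono (by omega))
  · refine mul_mem (pow_mem h2 _) (Tail_inv_mem (sub_mem h1 (Q.2.2 a)) fun e' => e ?_)
    exact Place.val_eq ((Place.val_eq_zero (sub_mem h1 (Q.2.2 a))).1 e')

theorem Tail_dec {q : Place K L} {π f : L} (h0 : π ≠ 0) (h1 : q.ord π = 1) (hf : f ∈ q.1) :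
    ∃ l : K, f - algebraMap K L l * π ∈ cusp q ∧ q.val (f - algebraMap K L l * π) = q.val f := by
  have h2 := Place.ge_sub_val hf
  have h3 : q.Ge π⁻¹ (-1) := .inr (by rw [q.ord_inv h0, h1])
  have h4 : (f - algebraMap K L (q.val f)) * π⁻¹ ∈ q.1 := q.mem_iff.2 ((h2.mul h3).mono (by omega))
  have h5 := (Place.ge_sub_val h4).mul (show q.Ge π 1 from .inr h1.ge)
  set l := q.val ((f - algebraMap K L (q.val f)) * π⁻¹)
  have h6 : q.Ge (f - algebraMap K L l * π - algebraMap K L (q.val f)) 2 := by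
    convert h5.mono (show (2 : ℤ) ≤ 1 + 1 by norm_num) using 1
    field_simp
    ring
  have h7 : q.val (f - algebraMap K L l * π) = q.val f := Place.val_eq (h6.mono (by omega))
  refine ⟨l, ⟨sub_mem hf (mul_mem (q.2.2 l) (q.mem_iff.2 (.inr (by omega)))), ?_⟩, h7⟩
  rw [h7]
  exact h6

end

section
variable {κ : Type u} [Field κ] {L E : Type u} [Field L] [Algebra (HF κ) L] [Field E] [Algebra κ E]

theorem Tail_T_ne {K : Type u} [Field K] (n : ℤ) : LS.T K n ≠ 0 := fun e => by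
  have := congrArg (fun f : LS K => f.cf n) e
  simp only [LS.cf_T, if_true, LS.cf_zero] at this
  exact one_ne_zero this

theorem Tail_T_inv {K : Type u} [Field K] : (LS.T K (-1))⁻¹ = LS.T K 1 :=
  (eq_inv_of_mul_eq_one_left (by rw [← LS.T_add, add_neg_cancel, LS.T_zero])).symm

/-- Functions together with an integral expansion. -/
def TailR (e : L →ₐ[HF κ] LS (HF κ)) : Subring (L × LS (HO κ)) where
  carrier := {p | p.2.Ge 0 ∧ LS.map (inc κ) p.2 = e p.1}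
  mul_mem' ha hb := ⟨(ha.1.mul hb.1).mono (by omega), by
    rw [Prod.snd_mul, Prod.fst_mul, map_mul, map_mul, ha.2, hb.2]⟩
  one_mem' := ⟨LS.ge_T 0, by rw [Prod.snd_one, Prod.fst_one, map_one, map_one]⟩
  add_mem' ha hb := ⟨ha.1.add hb.1, by
    rw [Prod.snd_add, Prod.fst_add, map_add, map_add, ha.2, hb.2]⟩
  zero_mem' := ⟨fun _ _ => rfl, by rw [Prod.snd_zero, Prod.fst_zero, map_zero, map_zero]⟩
  neg_mem' ha := ⟨ha.1.neg, by rw [Prod.snd_neg, Prod.fst_neg, map_neg, map_neg, ha.2]⟩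

/-- Change of the parameter at a point at infinity. -/
theorem Tail_inf (e e' : L →ₐ[HF κ] LS (HF κ)) (hee : ∀ f, (e f).Ge 0 → (e' f).Ge 0) {x₁ : L}
    (hx : e' x₁ = LS.T _ (-1)) {G₁ : LS (HO κ)} (h1 : LS.map (inc κ) G₁ = e x₁) (h2 : G₁.Ge (-1))
    (h3 : LS.map (red κ) G₁ = LS.T _ (-1)) {f : L} {G : LS (HO κ)} (hG : LS.map (inc κ) G = e f) :
    ∃ F : LS (HO κ), LS.map (inc κ) F = e' f ∧ LS.map (red κ) F = LS.map (red κ) G := by
  have x0 : x₁ ≠ 0 := fun e0 => Tail_T_ne (-1) (by rw [← hx, e0, map_zero])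
  have hu : IsUnit (G₁.cf (-1)) := Model_unit.2 (by
    rw [← LS.cf_map, h3, LS.cf_T, if_pos rfl]; exact one_ne_zero)
  obtain ⟨H, H1, H2⟩ := LS.exists_inv h2 hu
  have H3 : LS.map (inc κ) H = e x₁⁻¹ := by
    have := congrArg (LS.map (inc κ)) H2
    rw [map_mul, map_one, h1] at this
    rw [map_inv₀]
    exact eq_inv_of_mul_eq_one_right this
  have H4 : LS.map (red κ) H = LS.T κ 1 := by
    have := congrArg (LS.map (red κ)) H2
    rw [map_mul, map_one, h3] at this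
    rw [← Tail_T_inv]
    exact eq_inv_of_mul_eq_one_right this
  have eo : ∀ (e : L →ₐ[HF κ] LS (HF κ)) (o : HO κ), e (oL κ L o) = algebraMap _ _ (inc κ o) :=
    fun e o => e.commutes _
  let σ : TailR e →+* HO κ :=
    { toFun := fun p => p.1.2.cf 0
      map_one' := by
        show (LS.T (HO κ) 0).cf 0 = 1
        rw [LS.cf_T, if_pos rfl]
      map_mul' := fun a b => LS.cf_mul_lead (a := 0) (b := 0) a.2.1 b.2.1
      map_zero' := rfl
      map_add' := fun a b => LS.cf_add _ _ _ }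
  let j : HO κ →+* TailR e := ((oL κ L).prod (algebraMap (HO κ) (LS (HO κ)))).codRestrict (TailR e)
    fun o => ⟨LS.ge_algebraMap o, (LS.map_algebraMap _ o).trans (eo e o).symm⟩
  let τ : TailR e := ⟨(x₁⁻¹, H), H1.mono (by omega), H3⟩
  have hdec : ∀ p : TailR e, ∃ p', p = j (σ p) + τ * p' := fun p => by
    have k1 : (p.1.2 - algebraMap _ _ (p.1.2.cf 0)).Ge 1 := fun m hm => by
      rw [LS.cf_sub, LS.cf_algebraMap]
      split_ifs with e0
      · rw [e0, sub_self]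
      · rw [p.2.1 m (by omega), sub_zero]
    refine ⟨⟨(x₁ * (p.1.1 - oL κ L (p.1.2.cf 0)), G₁ * (p.1.2 - algebraMap _ _ (p.1.2.cf 0))),
      (h2.mul k1).mono (by omega), by
        rw [map_mul, map_mul, map_sub, map_sub, h1, p.2.2, LS.map_algebraMap, eo]⟩,
      Subtype.ext (Prod.ext ?_ ?_)⟩
    · show p.1.1 = oL κ L (p.1.2.cf 0) + x₁⁻¹ * (x₁ * (p.1.1 - oL κ L (p.1.2.cf 0)))
      rw [inv_mul_cancel_left₀ x0, add_sub_cancel]
    · show p.1.2 = algebraMap _ _ (p.1.2.cf 0) + H * (G₁ * (p.1.2 - algebraMap _ _ (p.1.2.cf 0)))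
      rw [← mul_assoc, mul_comm H, H2, one_mul, add_sub_cancel]
  obtain ⟨n, hn⟩ := G.exists_ge
  obtain ⟨F, _, F1, F2⟩ := expand σ j τ hdec
    (e'.toRingHom.comp ((RingHom.fst _ _).comp (TailR e).subtype))
    ((LS.map (red κ)).comp ((RingHom.snd _ _).comp (TailR e).subtype)) (fun c => eo e' c)
    (fun c => LS.map_algebraMap _ c) (by
      show e' x₁⁻¹ = _
      rw [map_inv₀, hx, Tail_T_inv]) H4
    (fun p => hee _ (p.2.2 ▸ fun m hm => by rw [LS.cf_map, p.2.1 m hm, map_zero]))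
    (fun p m hm => by
      show (LS.map (red κ) p.1.2).cf m = 0
      rw [LS.cf_map, p.2.1 m hm, map_zero])
    ⟨(x₁⁻¹ ^ n * f, H ^ n * G), ((H1.pow n).mul hn).mono (by omega), by
      rw [map_mul, map_pow, H3, hG, map_mul, map_pow]⟩
  refine ⟨LS.T _ (-1) ^ n * F, ?_, ?_⟩
  · rw [map_mul, map_pow, LS.map_T, F1]
    show _ * e' (x₁⁻¹ ^ n * f) = _
    rw [← hx, ← map_pow, ← map_mul, ← mul_assoc, ← mul_pow, mul_inv_cancel₀ x0, one_pow, one_mul]
  · rw [map_mul, map_pow, LS.map_T, F2]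
    show _ * LS.map (red κ) (H ^ n * G) = _
    rw [map_mul, map_pow, H4, ← mul_assoc, ← mul_pow, ← LS.T_add, neg_add_cancel, LS.T_zero,
      one_pow, one_mul]

/-- The local ring along a section, with its two characters. -/
def TailS (B : Subring L) (ρ : B →+* E) (σ : B →+* HO κ) : Subring (L × HO κ × E) where
  carrier := {p | ∃ s g : B, red κ (σ s) ≠ 0 ∧ s * p.1 = g ∧ σ s * p.2.1 = σ g ∧ ρ s * p.2.2 = ρ g}
  mul_mem' := by
    rintro a b ⟨s, g, h1, h2, h3, h4⟩ ⟨s', g', h1', h2', h3', h4'⟩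
    refine ⟨s * s', g * g', by rw [map_mul, map_mul]; exact mul_ne_zero h1 h1', ?_, ?_, ?_⟩
    · rw [Subring.coe_mul, Subring.coe_mul, ← h2, ← h2', Prod.fst_mul]; ring
    · rw [map_mul, map_mul, ← h3, ← h3', Prod.snd_mul, Prod.fst_mul]; ring
    · rw [map_mul, map_mul, ← h4, ← h4', Prod.snd_mul, Prod.snd_mul]; ring
  one_mem' := ⟨1, 1, by simp, by simp, by simp, by simp⟩
  add_mem' := by
    rintro a b ⟨s, g, h1, h2, h3, h4⟩ ⟨s', g', h1', h2', h3', h4'⟩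
    refine ⟨s * s', g * s' + s * g', by rw [map_mul, map_mul]; exact mul_ne_zero h1 h1', ?_, ?_, ?_⟩
    · rw [Subring.coe_add, Subring.coe_mul, Subring.coe_mul, Subring.coe_mul, ← h2, ← h2',
        Prod.fst_add]; ring
    · rw [map_add, map_mul, map_mul, map_mul, ← h3, ← h3', Prod.snd_add, Prod.fst_add]; ring
    · rw [map_add, map_mul, map_mul, map_mul, ← h4, ← h4', Prod.snd_add, Prod.snd_add]; ring
  zero_mem' := ⟨1, 0, by simp, by simp, by simp, by simp⟩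
  neg_mem' := by
    rintro a ⟨s, g, h1, h2, h3, h4⟩
    refine ⟨s, -g, h1, ?_, ?_, ?_⟩
    · rw [Subring.coe_neg, ← h2, Prod.fst_neg]; ring
    · rw [map_neg, ← h3, Prod.snd_neg, Prod.fst_neg]; ring
    · rw [map_neg, ← h4, Prod.snd_neg, Prod.snd_neg]; ring

variable [IsAlgClosed κ] [Fact (IsFF (HF κ) L)] [Fact (IsFF κ E)]

/-- Expansions along a section. -/
theorem Tail_loc {B : Subring L} {ρ : B →+* E} {σ : B →+* HO κ}
    (hO : ∀ o, ∃ h : oL κ L o ∈ B, σ ⟨_, h⟩ = o ∧ ρ ⟨_, h⟩ = algebraMap κ E (red κ o)) {z ω s₀ : B}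
    (hz : σ z = 0) (hω : red κ (σ ω) ≠ 0) (hs₀ : red κ (σ s₀) ≠ 0)
    (hker : ∀ f : B, σ f = 0 → ∃ g : B, s₀ * f = z * g) {P : Place (HF κ) L}
    (hP : ∀ f : B, (f : L) ∈ P.1 ∧ P.val (f : L) = σ f) {Q : Place κ E}
    (hQ : ∀ f : B, ρ f ∈ Q.1 ∧ Q.val (ρ f) = red κ (σ f)) (e : L →ₐ[HF κ] LS (HF κ))
    (he : ∀ f ∈ P.1, (e f).Ge 0) (e₀ : E →ₐ[κ] LS κ) (he₀ : ∀ f ∈ Q.1, (e₀ f).Ge 0) {x₁ : L} {x₀ : E}
    (hx : e x₁ = LS.T _ (-1)) (hx₀ : e₀ x₀ = LS.T _ (-1)) (h1 : (z : L) * x₁ = ω)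
    (h2 : ρ ω = ρ z * x₀) {f : L} {f₁ : E} {n : ℕ} {g : B} (hg : (z : L) ^ n * f = g)
    (hg' : ρ g = ρ z ^ n * f₁) :
    ∃ F : LS (HO κ), LS.map (inc κ) F = e f ∧ LS.map (red κ) F = e₀ f₁ := by
  have x0 : x₁ ≠ 0 := fun e0 => Tail_T_ne (-1) (by rw [← hx, e0, map_zero])
  have x0' : x₀ ≠ 0 := fun e0 => Tail_T_ne (-1) (by rw [← hx₀, e0, map_zero])
  have v1 : ∀ s : B, red κ (σ s) ≠ 0 → P.val (s : L) ≠ 0 := fun s hs e0 => hs (by
    rw [(hP s).2] at e0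
    rw [show σ s = 0 from Subtype.ext e0, map_zero])
  have v2 : ∀ s : B, red κ (σ s) ≠ 0 → Q.val (ρ s) ≠ 0 := fun s hs => (hQ s).2 ▸ hs
  have n1 : ∀ s : B, red κ (σ s) ≠ 0 → (s : L) ≠ 0 := fun s hs => (Tail_ord (hP s).1 (v1 s hs)).1
  have n2 : ∀ s : B, red κ (σ s) ≠ 0 → ρ s ≠ 0 := fun s hs => (Tail_ord (hQ s).1 (v2 s hs)).1
  have ex : ∀ s g : B, red κ (σ s) ≠ 0 → ∃ o : HO κ, σ s * o = σ g := fun s g hs => by
    obtain ⟨w, hw⟩ := (Model_unit.2 hs).exists_right_inv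
    exact ⟨w * σ g, by rw [← mul_assoc, hw, one_mul]⟩
  let j : HO κ →+* TailS B ρ σ := ((oL κ L).prod ((RingHom.id _).prod
    ((algebraMap κ E).comp (red κ)))).codRestrict (TailS B ρ σ) fun o => by
      obtain ⟨a1, a2, a3⟩ := hO o
      exact ⟨1, ⟨_, a1⟩, by simp, one_mul _, by rw [map_one, one_mul, a2]; rfl,
        by rw [map_one, one_mul, a3]; rfl⟩
  let τ : TailS B ρ σ := ⟨(x₁⁻¹, 0, x₀⁻¹), ω, z, hω, by rw [← h1, mul_inv_cancel_right₀ x0],
    by rw [mul_zero, hz], by rw [h2, mul_inv_cancel_right₀ x0']⟩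
  have hdec : ∀ p : TailS B ρ σ, ∃ p', p = j p.1.2.1 + τ * p' := fun p => by
    obtain ⟨⟨p1, p2, p3⟩, s, g, a1, a2, a3, a4⟩ := p
    simp only at a2 a3 a4
    obtain ⟨b1, b2, b3⟩ := hO p2
    obtain ⟨g', hg'⟩ := hker (g - s * ⟨_, b1⟩) (by rw [map_sub, map_mul, b2, a3, sub_self])
    have hss : red κ (σ (s₀ * s)) ≠ 0 := by rw [map_mul, map_mul]; exact mul_ne_zero hs₀ a1
    obtain ⟨o', ho'⟩ := ex (s₀ * s) (ω * g') hss
    have c1 := congrArg (fun b : B => (b : L)) hg'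
    have c2 := congrArg ρ hg'
    simp only [Subring.coe_mul, AddSubgroupClass.coe_sub] at c1
    rw [map_mul, map_sub, map_mul, map_mul, b3] at c2
    refine ⟨⟨(x₁ * (p1 - oL κ L p2), o', x₀ * (p3 - algebraMap κ E (red κ p2))), s₀ * s, ω * g',
      hss, ?_, ho', ?_⟩, Subtype.ext (Prod.ext ?_ (Prod.ext ?_ ?_))⟩
    · rw [Subring.coe_mul, Subring.coe_mul, ← h1]
      linear_combination x₁ * c1 + x₁ * s₀ * a2
    · rw [map_mul, map_mul, h2]
      linear_combination x₀ * c2 + x₀ * ρ s₀ * a4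
    · show p1 = oL κ L p2 + x₁⁻¹ * (x₁ * (p1 - oL κ L p2))
      rw [inv_mul_cancel_left₀ x0, add_sub_cancel]
    · show p2 = p2 + 0 * o'
      rw [zero_mul, add_zero]
    · show p3 = algebraMap κ E (red κ p2) + x₀⁻¹ * (x₀ * (p3 - algebraMap κ E (red κ p2)))
      rw [inv_mul_cancel_left₀ x0', add_sub_cancel]
  have hωn : red κ (σ (ω ^ n)) ≠ 0 := by rw [map_pow, map_pow]; exact pow_ne_zero _ hω
  obtain ⟨o, ho⟩ := ex (ω ^ n) g hωn
  obtain ⟨F, _, F1, F2⟩ := expand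
    ((RingHom.fst _ _).comp ((RingHom.snd _ _).comp (TailS B ρ σ).subtype)) j τ hdec
    (e.toRingHom.comp ((RingHom.fst _ _).comp (TailS B ρ σ).subtype))
    (e₀.toRingHom.comp ((RingHom.snd _ _).comp ((RingHom.snd _ _).comp (TailS B ρ σ).subtype)))
    (fun c => e.commutes _) (fun c => e₀.commutes _) (by
      show e x₁⁻¹ = _
      rw [map_inv₀, hx, Tail_T_inv]) (by
      show e₀ x₀⁻¹ = _
      rw [map_inv₀, hx₀, Tail_T_inv])
    (fun p => he _ (by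
      obtain ⟨s, g, a1, a2, _, _⟩ := p.2
      show p.1.1 ∈ P.1
      rw [← inv_mul_cancel_left₀ (n1 s a1) p.1.1, a2]
      exact mul_mem (Tail_inv_mem (hP s).1 (v1 s a1)) (hP g).1))
    (fun p => he₀ _ (by
      obtain ⟨s, g, a1, _, _, a2⟩ := p.2
      show p.1.2.2 ∈ Q.1
      rw [← inv_mul_cancel_left₀ (n2 s a1) p.1.2.2, a2]
      exact mul_mem (Tail_inv_mem (hQ s).1 (v2 s a1)) (hQ g).1))
    ⟨(x₁⁻¹ ^ n * f, o, x₀⁻¹ ^ n * f₁), ω ^ n, g, hωn, by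
      rw [Subring.coe_pow, ← h1, ← hg, ← mul_assoc, ← mul_pow, mul_inv_cancel_right₀ x0], ho, by
      rw [map_pow, h2, hg', ← mul_assoc, ← mul_pow, mul_inv_cancel_right₀ x0']⟩
  refine ⟨LS.T _ (-1) ^ n * F, ?_, ?_⟩
  · rw [map_mul, map_pow, LS.map_T, F1]
    show _ * e (x₁⁻¹ ^ n * f) = _
    rw [← hx, ← map_pow, ← map_mul, ← mul_assoc, ← mul_pow, mul_inv_cancel₀ x0, one_pow, one_mul]
  · rw [map_mul, map_pow, LS.map_T, F2]
    show _ * e₀ (x₀⁻¹ ^ n * f₁) = _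
    rw [← hx₀, ← map_pow, ← map_mul, ← mul_assoc, ← mul_pow, mul_inv_cancel₀ x0', one_pow, one_mul]

end

variable {κ : Type u} [Field κ] [IsAlgClosed κ] {ι : Type} [Fintype ι] [DecidableEq ι] [Nonempty ι]
  {J : Finset (ι × ℕ)} {L L' : Type u} [Field L] [Algebra (HF κ) L] [Fact (IsFF (HF κ) L)]
  [Field L'] [Algebra κ L'] [Fact (IsFF κ L')]
  {𝒜 : Subalgebra (HO κ) (LT ι (HO κ))} {d : CD (HF κ) L ι} {d' : CD κ L' ι} {q : Place κ L'}

/-- Integral expansions at infinity. -/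
def TailEx (d : CD (HF κ) L ι) (d' : CD κ L' ι) (f : L) (f₀ : L') : Prop :=
  ∃ F : LT ι (HO κ), mapT (inc κ) F = d.exT f ∧ mapT (red κ) F = d'.exT f₀

theorem TailEx.add {f g : L} {f₀ g₀ : L'} (h : TailEx d d' f f₀) (h' : TailEx d d' g g₀) :
    TailEx d d' (f + g) (f₀ + g₀) := by
  obtain ⟨F, h1, h2⟩ := h
  obtain ⟨G, h3, h4⟩ := h'
  exact ⟨F + G, by rw [map_add, map_add, h1, h3], by rw [map_add, map_add, h2, h4]⟩

theorem TailEx.mul {f g : L} {f₀ g₀ : L'} (h : TailEx d d' f f₀) (h' : TailEx d d' g g₀) :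
    TailEx d d' (f * g) (f₀ * g₀) := by
  obtain ⟨F, h1, h2⟩ := h
  obtain ⟨G, h3, h4⟩ := h'
  exact ⟨F * G, by rw [map_mul, map_mul, h1, h3], by rw [map_mul, map_mul, h2, h4]⟩

theorem TailEx.of_rd {f : L} {f₀ : L'} (h : RdC 𝒜 d d' f f₀) : TailEx d d' f f₀ := by
  obtain ⟨F, _, h1⟩ := h
  exact ⟨F, h1⟩

theorem TailEx.inv (α : HO κ) :
    TailEx d d' (d.x - oL κ L α)⁻¹ (d'.x - algebraMap κ L' (red κ α))⁻¹ := by
  have h1 : (LS.T (HO κ) (-1) - algebraMap _ _ α).Ge (-1) := by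
    rw [sub_eq_add_neg]
    exact (LS.ge_T _).add ((LS.ge_algebraMap α).mono (by omega)).neg
  have h2 : IsUnit ((LS.T (HO κ) (-1) - algebraMap _ _ α).cf (-1)) := by
    rw [LS.cf_sub, LS.cf_T, LS.cf_algebraMap, if_pos rfl, if_neg (by omega), sub_zero]
    exact isUnit_one
  obtain ⟨G, _, h3⟩ := LS.exists_inv h1 h2
  refine ⟨fun _ => G, funext fun i => ?_, funext fun i => ?_⟩
  · have h4 := congrArg (LS.map (inc κ)) h3
    rw [map_mul, map_one, map_sub, LS.map_T, LS.map_algebraMap] at h4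
    rw [d.exT_apply, map_inv₀, map_sub, d.ex_x]
    have h5 : d.ex i (oL κ L α) = algebraMap _ _ (inc κ α) := (d.ex i).commutes _
    rw [h5]
    exact eq_inv_of_mul_eq_one_right h4
  · have h4 := congrArg (LS.map (red κ)) h3
    rw [map_mul, map_one, map_sub, LS.map_T, LS.map_algebraMap] at h4
    rw [d'.exT_apply, map_inv₀, map_sub, d'.ex_x, AlgHom.commutes]
    exact eq_inv_of_mul_eq_one_right h4

theorem Tail_lower (h : IsChart J 𝒜) {n : ℕ} (hJ : ∀ ν ∈ J, ν.2 < n) (F : LT ι (HO κ))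
    (hF : Pole (mapT (red κ) F) n) : ∃ G ∈ 𝒜, mapT (red κ) G = 0 ∧ Pole (F - G) n := by
  obtain ⟨i₀⟩ := ‹Nonempty ι›
  refine ⟨∑ μ ∈ (finite_pc F).toFinset.filter (fun μ => n ≤ μ.2), pc F μ • chi i₀ J 𝒜 μ,
    sum_mem fun μ _ => 𝒜.smul_mem (h.chi_mem i₀ μ) _, ?_, pole_iff.2 fun ν hν => ?_⟩
  · rw [map_sum]
    refine Finset.sum_eq_zero fun μ hμ => ?_
    rw [mapT_smul, ← pc_mapT, pole_iff.1 hF μ (Finset.mem_filter.1 hμ).2, zero_smul]
  · have h1 : ν ∉ J := fun e => by have := hJ ν e; omega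
    rw [Chart_pc_sub, Chart_pc_sum]
    simp only [Chart_pc_smul, h.Chart_pc_chi i₀ _ h1, mul_ite, mul_one, mul_zero]
    rw [Finset.sum_ite_eq]
    split_ifs with e
    · exact sub_self _
    · rw [sub_zero]
      by_contra e'
      exact e (Finset.mem_filter.2 ⟨(Set.Finite.mem_toFinset _).2 e', hν⟩)

namespace TailD

variable (t : TailD 𝒜 d d' q)

/-- Lifts with poles of order `≤ n`. -/
def Lf (f : L) (f₀ : L') (f₁ : t.E.L) (n : ℕ) : Prop :=
  (∀ Q : Place (HF κ) L, d.x ∈ Q.1 → (∀ i, Q ≠ t.P i) → f ∈ Q.1) ∧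
  (∃ F : LT ι (HO κ), mapT (inc κ) F = d.exT f ∧ mapT (red κ) F = d'.exT f₀) ∧
  ∃ hf : (t.z : L) ^ n * f ∈ t.B, t.ρ ⟨_, hf⟩ = (t.X - algebraMap κ _ t.c) ^ n * f₁

variable {t}

theorem Tail_mk {f : L} {f₀ : L'} {f₁ : t.E.L} {n : ℕ}
    (h1 : ∀ Q : Place (HF κ) L, d.x ∈ Q.1 → (∀ i, Q ≠ t.P i) → f ∈ Q.1) (h2 : TailEx d d' f f₀)
    (g : t.B) (h3 : (t.z : L) ^ n * f = g) (h4 : t.ρ g = (t.X - algebraMap κ _ t.c) ^ n * f₁) :
    t.Lf f f₀ f₁ n := by
  refine ⟨h1, h2, h3 ▸ g.2, ?_⟩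
  rw [← h4]
  exact congrArg t.ρ (Subtype.ext h3)

theorem Lf.Tail_add {f g : L} {f₀ g₀ : L'} {f₁ g₁ : t.E.L} {n : ℕ} (h : t.Lf f f₀ f₁ n)
    (h' : t.Lf g g₀ g₁ n) : t.Lf (f + g) (f₀ + g₀) (f₁ + g₁) n := by
  obtain ⟨a1, a2, a3, a4⟩ := h
  obtain ⟨b1, b2, b3, b4⟩ := h'
  exact Tail_mk (fun Q h1 h2 => add_mem (a1 Q h1 h2) (b1 Q h1 h2)) (TailEx.add a2 b2)
    (⟨_, a3⟩ + ⟨_, b3⟩) (mul_add _ _ _) (by rw [map_add, a4, b4, mul_add])

theorem Lf.Tail_mul {f g : L} {f₀ g₀ : L'} {f₁ g₁ : t.E.L} {n m : ℕ} (h : t.Lf f f₀ f₁ n)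
    (h' : t.Lf g g₀ g₁ m) : t.Lf (f * g) (f₀ * g₀) (f₁ * g₁) (n + m) := by
  obtain ⟨a1, a2, a3, a4⟩ := h
  obtain ⟨b1, b2, b3, b4⟩ := h'
  refine Tail_mk (fun Q h1 h2 => mul_mem (a1 Q h1 h2) (b1 Q h1 h2)) (TailEx.mul a2 b2)
    (⟨_, a3⟩ * ⟨_, b3⟩) ?_ (by rw [map_mul, a4, b4]; ring)
  rw [Subring.coe_mul]
  ring

theorem Lf.Tail_mono {f : L} {f₀ : L'} {f₁ : t.E.L} {n m : ℕ} (h : t.Lf f f₀ f₁ n) (hm : n ≤ m) :
    t.Lf f f₀ f₁ m := by
  obtain ⟨k, rfl⟩ := Nat.exists_eq_add_of_le hm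
  obtain ⟨a1, a2, a3, a4⟩ := h
  refine Tail_mk a1 a2 (t.z ^ k * ⟨_, a3⟩) ?_ (by rw [map_mul, map_pow, a4, t.ρz]; ring)
  rw [Subring.coe_mul, Subring.coe_pow]
  ring

theorem Tail_rd (h : CuspMod J 𝒜 d d' q) {g : L} {g₀ : L'} (hg : RdC 𝒜 d d' g g₀) (n : ℕ) :
    t.Lf g g₀ (algebraMap κ _ (q.val g₀)) n := by
  obtain ⟨h1, h2⟩ := t.mem g g₀ hg
  exact (Tail_mk (n := 0) (fun Q hQ _ => Comb_mem d hQ (h.mem_of_rd hg).1) (TailEx.of_rd hg)
    ⟨g, h1⟩ (by rw [pow_zero, one_mul]) (by rw [h2, pow_zero, one_mul])).Tail_mono n.zero_le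

theorem Tail_const (h : CuspMod J 𝒜 d d' q) (c : κ) (n : ℕ) :
    t.Lf (oL κ L (cO c)) (algebraMap κ _ c) (algebraMap κ _ c) n := by
  have h1 := Tail_rd (t := t) h (RdC.const (cO c)) n
  have h2 : red κ (cO c) = c := (hres : HO κ →ₐ[κ] κ).commutes c
  rwa [h2, q.val_const] at h1

theorem Lf.Tail_smul (h : CuspMod J 𝒜 d d' q) (c : κ) {f : L} {f₀ : L'} {f₁ : t.E.L} {n : ℕ}
    (hf : t.Lf f f₀ f₁ n) :
    t.Lf (oL κ L (cO c) * f) (algebraMap κ _ c * f₀) (algebraMap κ _ c * f₁) n := by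
  simpa only [zero_add] using (Tail_const h c 0).Tail_mul hf

theorem Lf.Tail_pow (h : CuspMod J 𝒜 d d' q) {f : L} {f₀ : L'} {f₁ : t.E.L} {n : ℕ}
    (hf : t.Lf f f₀ f₁ n) (j : ℕ) : t.Lf (f ^ j) (f₀ ^ j) (f₁ ^ j) (j * n) := by
  induction j with
  | zero => simpa only [map_one, pow_zero, zero_mul] using Tail_const (t := t) h 1 0
  | succ j ih => simpa only [pow_succ, add_mul, one_mul] using ih.Tail_mul hf

variable (t)

theorem Tail_oL (o : HO κ) : ∃ ho : oL κ L o ∈ t.B, t.ρ ⟨_, ho⟩ = algebraMap κ _ (red κ o) := by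
  simpa only [Place.val_const] using t.mem _ _ (RdC.const o)

theorem Tail_X : t.X - algebraMap κ _ t.c ≠ 0 := fun e =>
  transcendental_iff.1 t.wei.trans ⟨t.c, (sub_eq_zero.1 e).symm⟩

theorem Tail_uv : ∃ o o' : HO κ, red κ o = 0 ∧ red κ o' = 0 ∧ o * t.v = t.u ^ 2 ∧ o' * t.u = t.v := by
  have hu : t.u.1 ≠ 0 := fun e => t.u0 (Subtype.ext e)
  have hv' : t.v.1 ≠ 0 := fun e => t.v0 (Subtype.ext e)
  obtain ⟨a, ha⟩ := Hahn_real hu
  obtain ⟨b, hb⟩ := Hahn_real hv'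
  have h1 := hres_eq_zero.1 t.ru
  have h2 := t.uv
  rw [ha] at h1
  rw [ha, hb, ← WithTop.coe_nsmul, ← WithTop.coe_nsmul, WithTop.coe_inj, nsmul_eq_mul,
    nsmul_eq_mul] at h2
  have h3 : 0 < a := by exact_mod_cast h1
  push_cast at h2
  have key : ∀ (x y : HF κ) (r s : ℝ), y ≠ 0 → hv x = r → hv y = s → s < r → 0 < hv (x / y) := by
    intro x y r s hy hx hs hlt
    have e : hv (x / y) + hv y = hv x := by rw [← hv_mul, div_mul_cancel₀ _ hy]
    have e0 : x / y ≠ 0 := by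
      refine div_ne_zero (fun e' => ?_) hy
      rw [hv_eq_top.2 e'] at hx
      exact WithTop.top_ne_coe hx
    obtain ⟨w, hw⟩ := Hahn_real e0
    rw [hw, hs, hx, ← WithTop.coe_add, WithTop.coe_inj] at e
    rw [hw]
    exact_mod_cast (by linarith : 0 < w)
  have k1 := key (t.u.1 ^ 2) t.v.1 (2 * a) b hv'
    (by rw [hv_pow, ha, ← WithTop.coe_nsmul, nsmul_eq_mul]; rfl) hb (by linarith)
  have k2 := key t.v.1 t.u.1 b a hu hb ha (by linarith)
  refine ⟨⟨_, mem_HO.2 k1.le⟩, ⟨_, mem_HO.2 k2.le⟩, hres_eq_zero.2 k1, hres_eq_zero.2 k2,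
    Subtype.ext (div_mul_cancel₀ _ hv'), Subtype.ext (div_mul_cancel₀ _ hu)⟩

/-- The three basic lifts. -/
theorem Tail_basic (h : CuspMod J 𝒜 d d' q) :
    (∃ f, t.Lf f 0 (t.X - algebraMap κ _ t.c)⁻¹ 1) ∧
    (∃ f, t.Lf f 0 (t.Y * (t.X - algebraMap κ _ t.c)⁻¹ ^ 2) 2) ∧
    ∃ f π, π ∈ d'.reg ∧ π ≠ 0 ∧ q.ord π = 1 ∧ t.Lf f π 0 1 := by
  have hα : red κ t.α = q.val d'.x := t.rα
  have hx : d.x - algebraMap (HF κ) L (t.α : HF κ) ≠ 0 := fun e =>
    transcendental_iff.1 d.transcendental ⟨_, (sub_eq_zero.1 e).symm⟩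
  have hx' : d'.x - algebraMap κ L' (q.val d'.x) ≠ 0 := fun e => h.x3 (.inl e)
  have hm := h.mem_of_rd t.rdm
  have hy := h.mem_of_rd t.rdy
  obtain ⟨N₁, hN₁⟩ := Tail_N (m := t.m) {Q | d.x ∈ Q.1 ∧ ∀ i, Q ≠ t.P i} hx
    fun Q hQ => ⟨hQ.1, Comb_mem d hQ.1 hm.1, t.mP Q hQ.2 hQ.1⟩
  obtain ⟨N₂, hN₂⟩ := Tail_N (m := t.m₀) {Q | d'.x ∈ Q.1 ∧ Q ≠ q} hx'
    fun Q hQ => ⟨hQ.1, Comb_mem d' hQ.1 hm.2.1, t.moth Q hQ.2 hQ.1⟩
  obtain ⟨N, n1, n2⟩ : ∃ N, N₁ ≤ N ∧ N₂ ≤ N := ⟨_, le_max_left _ _, le_max_right _ _⟩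
  have hA : ∀ Q : Place (HF κ) L, d.x ∈ Q.1 → (∀ i, Q ≠ t.P i) →
      t.m ^ N * (d.x - oL κ L t.α)⁻¹ ∈ Q.1 := fun Q h1 h2 => hN₁ N n1 Q ⟨h1, h2⟩
  have hA₀ := hN₂ N n2
  have hpow : ∀ j : ℕ, RdC 𝒜 d d' (t.m ^ j) (t.m₀ ^ j) := by
    intro j
    induction j with
    | zero => simpa only [map_one, pow_zero] using RdC.const (𝒜 := 𝒜) (d := d) (d' := d') 1
    | succ j ih => simpa only [pow_succ] using ih.mul t.rdm
  have eA : TailEx d d' (t.m ^ N * (d.x - oL κ L t.α)⁻¹)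
      (t.m₀ ^ N * (d'.x - algebraMap κ L' (q.val d'.x))⁻¹) := by
    have := (TailEx.of_rd (hpow N)).mul (TailEx.inv t.α)
    rwa [hα] at this
  set A := t.m ^ N * (d.x - oL κ L t.α)⁻¹ with hAd
  set A₀ := t.m₀ ^ N * (d'.x - algebraMap κ L' (q.val d'.x))⁻¹ with hA₀d
  obtain ⟨mB, mρ⟩ := t.mem _ _ (hpow N)
  have hmq : t.m₀ ∈ q.1 := hm.2.2.1
  have hμ : q.val (t.m₀ ^ N) ≠ 0 := by
    obtain ⟨σ, hσ⟩ := q.exists_ev (cusp q) fun f hf => hf.1
    have := hσ (⟨_, hm.2.2⟩ ^ N)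
    rw [map_pow, hσ] at this
    exact this ▸ pow_ne_zero _ t.mq
  set μ := q.val (t.m₀ ^ N)
  have hz : (t.z : L) * (oL κ L t.u * A) = t.m ^ N := by
    have e : (d.x - oL κ L t.α) * (d.x - oL κ L t.α)⁻¹ = 1 := mul_inv_cancel₀ hx
    rw [hAd]
    linear_combination (t.m ^ N * (d.x - oL κ L t.α)⁻¹) * t.hz + t.m ^ N * e
  have hX := t.Tail_X
  have hμ' : algebraMap κ t.E.L μ ≠ 0 := (_root_.map_ne_zero _).2 hμ
  have cst : ∀ o : HO κ, red κ o = 0 → TailEx d d' (oL κ L o) 0 := fun o ho => by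
    simpa only [ho, map_zero] using TailEx.of_rd (RdC.const (𝒜 := 𝒜) (d := d) (d' := d') o)
  have cm : ∀ (o : HO κ) (Q : Place (HF κ) L), oL κ L o ∈ Q.1 := fun o Q => Q.2.2 _
  obtain ⟨o, o', r1, r2, e1, e2⟩ := t.Tail_uv
  refine ⟨?_, ?_, ?_⟩
  · have l1 : t.Lf (oL κ L t.u * A) 0 (algebraMap κ _ μ * (t.X - algebraMap κ _ t.c)⁻¹) 1 :=
      Tail_mk (fun Q h1 h2 => mul_mem (cm _ Q) (hA Q h1 h2))
        (by simpa only [zero_mul] using (cst t.u t.ru).mul eA) ⟨_, mB⟩ (by rw [pow_one, hz])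
        (by rw [mρ]; field_simp)
    have l2 := l1.Tail_smul h μ⁻¹
    rw [mul_zero, map_inv₀, inv_mul_cancel_left₀ hμ'] at l2
    exact ⟨_, l2⟩
  · have l1 : t.Lf (oL κ L o * (oL κ L t.v * t.η * A ^ 2)) 0
        (algebraMap κ _ (μ ^ 2) * (t.Y * (t.X - algebraMap κ _ t.c)⁻¹ ^ 2)) 2 := by
      refine Tail_mk (fun Q h1 h2 => mul_mem (cm _ Q)
        (mul_mem (Comb_mem d h1 hy.1) (pow_mem (hA Q h1 h2) _))) ?_ (t.η * ⟨_, mB⟩ ^ 2) ?_ ?_
      · simpa only [zero_mul, sq] using (cst o r1).mul ((TailEx.of_rd t.rdy).mul (eA.mul eA))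
      · have e3 := congrArg (oL κ L) e1
        rw [map_mul, map_pow] at e3
        rw [Subring.coe_mul, Subring.coe_pow]
        simp only
        rw [← hz]
        linear_combination ((t.z : L) ^ 2 * t.η * A ^ 2) * e3
      · rw [map_mul, map_pow, mρ, t.ρη, map_pow]
        field_simp
    have l2 := l1.Tail_smul h (μ ^ 2)⁻¹
    rw [mul_zero, map_inv₀, inv_mul_cancel_left₀ ((_root_.map_ne_zero _).2 (pow_ne_zero 2 hμ))] at l2
    exact ⟨_, l2⟩
  · obtain ⟨m1, m2⟩ := Tail_ord hmq t.mq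
    have o2 : q.ord (d'.x - algebraMap κ L' (q.val d'.x)) = 2 := by
      have a1 := h.x2.2.resolve_left hx'
      have a2 := h.x3
      rw [Place.Ge, not_or] at a2
      omega
    have a0 : A₀ ≠ 0 := mul_ne_zero (pow_ne_zero _ m1) (inv_ne_zero hx')
    have o1 : q.ord (t.y₀ * A₀) = 1 := by
      rw [q.ord_mul t.y₀ne a0, hA₀d, q.ord_mul (pow_ne_zero _ m1) (inv_ne_zero hx'), q.ord_pow m1,
        q.ord_inv hx', t.ordy, m2, o2]
      ring
    obtain ⟨oB, oρ⟩ := t.Tail_oL o'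
    refine ⟨oL κ L t.v * t.η * A, t.y₀ * A₀, fun Q hQ => ?_, mul_ne_zero t.y₀ne a0, o1,
      Tail_mk (fun Q h1 h2 => mul_mem (Comb_mem d h1 hy.1) (hA Q h1 h2))
        ((TailEx.of_rd t.rdy).mul eA) (⟨_, oB⟩ * t.η * ⟨_, mB⟩) ?_ ?_⟩
    · have hxQ : d'.x ∈ Q.1 := by
        by_contra e
        obtain ⟨i, rfl⟩ := d'.pole Q e
        exact hQ ⟨i, rfl⟩
      by_cases e : Q = q
      · rw [e]
        exact q.mem_iff.2 (.inr (by omega))
      · exact mul_mem (Comb_mem d' hxQ hy.2.1) (hA₀ Q ⟨hxQ, e⟩)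
    · have e3 := congrArg (oL κ L) e2
      rw [map_mul] at e3
      rw [Subring.coe_mul, Subring.coe_mul]
      simp only
      rw [← hz, ← e3]
      ring
    · rw [map_mul, map_mul, oρ, r2, map_zero, zero_mul, zero_mul, mul_zero]

theorem exists_lf (h : CuspMod J 𝒜 d d' q) (dE : CD κ t.E.L (Fin 2))
    {a : κ} (hd : dE.x = algebraMap κ _ a + (t.X - algebraMap κ _ t.c)⁻¹)
    (hy : (dE.pl 0).val t.Y ≠ (dE.pl 1).val t.Y) {b : Place κ t.E.L} (hb : t.X ∉ b.1) {n : ℕ}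
    (hn : 1 ≤ n) (hJ : ∀ ν ∈ J, ν.2 < n) {f₀ : L'} {f₁ : t.E.L} (h₀ : f₀ ∈ d'.reg) (h₀' : Pole (d'.exT f₀) n)
    (h₁ : f₁ ∈ weiA t.X t.Y t.c) (h₁' : Pole (dE.exT f₁) n) (hv : q.val f₀ = b.val f₁) :
    ∃ f, t.Lf f f₀ f₁ n ∧ Pole (d.exT f) n := by
  obtain ⟨⟨e, he⟩, ⟨y, hy'⟩, w, π, π1, π2, π3, hw⟩ := t.Tail_basic h
  obtain ⟨_, b1, b2⟩ := t.wei.val_inf t.c hb
  have key : ∀ g ∈ Submodule.span κ
      ({g | ∃ j ≤ n, g = (t.X - algebraMap κ _ t.c)⁻¹ ^ j} ∪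
        {g | ∃ j, j + 2 ≤ n ∧ g = t.Y * (t.X - algebraMap κ _ t.c)⁻¹ ^ (j + 2)}),
      ∃ (f : L) (c : κ), t.Lf f (algebraMap κ _ c) g n ∧ b.Ge (g - algebraMap κ _ c) 1 := by
    intro g hg
    induction hg using Submodule.span_induction with
    | mem g hg =>
      rcases hg with ⟨j, hj, rfl⟩ | ⟨j, hj, rfl⟩
      · rcases j with _ | j
        · refine ⟨1, 1, ?_, .inl (by simp)⟩
          simpa only [map_one, pow_zero] using Tail_const (t := t) h 1 n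
        · refine ⟨e ^ (j + 1), 0, ?_, ?_⟩
          · have := (he.Tail_pow h (j + 1)).Tail_mono (m := n) (by omega)
            rwa [zero_pow (by omega), ← map_zero (algebraMap κ L')] at this
          · rw [map_zero, sub_zero]
            exact (b1.pow (j + 1)).mono (by push_cast; omega)
      · have e1 : t.Y * (t.X - algebraMap κ _ t.c)⁻¹ ^ (j + 2) =
            t.Y * (t.X - algebraMap κ _ t.c)⁻¹ ^ 2 * (t.X - algebraMap κ _ t.c)⁻¹ ^ j := by ring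
        refine ⟨y * e ^ j, 0, ?_, ?_⟩
        · have := (hy'.Tail_mul (he.Tail_pow h j)).Tail_mono (m := n) (by omega)
          rwa [zero_mul, ← map_zero (algebraMap κ L'), ← e1] at this
        · rw [map_zero, sub_zero, e1]
          exact (b2.mul (b1.pow j)).mono (by omega)
    | zero => exact ⟨0, 0, by simpa only [map_zero] using Tail_const (t := t) h 0 n, .inl (by simp)⟩
    | add g g' _ _ ih ih' =>
      obtain ⟨f, c, h1, h2⟩ := ih
      obtain ⟨f', c', h3, h4⟩ := ih'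
      refine ⟨f + f', c + c', by rw [map_add]; exact h1.Tail_add h3, ?_⟩
      rw [map_add, add_sub_add_comm]
      exact h2.add h4
    | smul r g _ ih =>
      obtain ⟨f, c, h1, h2⟩ := ih
      refine ⟨_, r * c, by rw [map_mul, Algebra.smul_def]; exact h1.Tail_smul h r, ?_⟩
      have := h2.smul r
      rwa [smul_sub, Algebra.smul_def r (algebraMap κ _ c), ← map_mul] at this
  obtain ⟨f', c, k1, k2⟩ := key f₁ (t.wei.lev_weiA dE hd hy h₁ h₁')
  have hc : q.val f₀ = c := hv.trans (Place.val_eq k2)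
  obtain ⟨l, l1, l2⟩ := Tail_dec π2 π3 (Comb_mem d' h.x2.1 h₀)
  obtain ⟨g, hg⟩ := h.exists_rd (sub_mem h₀ (mul_mem (d'.reg.algebraMap_mem l) π1)) l1
  have k3 := Tail_rd (t := t) h hg n
  rw [l2, hc] at k3
  have k4 := ((k1.Tail_add k3).Tail_add ((hw.Tail_smul h l).Tail_mono hn)).Tail_add
    (Tail_const h (-c) n)
  have k5 : t.Lf (f' + g + oL κ L (cO l) * w + oL κ L (cO (-c))) f₀ f₁ n := by
    convert k4 using 1
    · rw [map_neg]; ring
    · rw [map_neg]; ring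
  obtain ⟨F, F1, F2⟩ := k5.2.1
  obtain ⟨G, G1, G2, G3⟩ := Tail_lower h.ch hJ F (F2 ▸ h₀')
  obtain ⟨g', g₀, r1, r2, r3⟩ := h.exists_rd' G1
  have r4 : g₀ = 0 := d'.exT_injective (by rw [← r3, G2, map_zero])
  have k6 := k5.Tail_add ((Tail_rd h r1 n).Tail_smul h (-1))
  rw [r4, Tail_val_zero, map_zero, mul_zero, mul_zero, add_zero, add_zero] at k6
  refine ⟨_, k6, ?_⟩
  have k7 := Model_pole_mapT (inc κ) G3
  rw [map_sub, F1, r2, ← map_sub] at k7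
  convert k7 using 2
  have k8 : oL κ L (cO (-1)) = -1 := by simp only [cO, map_neg, map_one]
  rw [k8]
  ring

theorem exists_mod (h : CuspMod J 𝒜 d d' q) (dE : CD κ t.E.L (Fin 2))
    (hd : dE.x = algebraMap κ _ (q.val d'.x) + (t.X - algebraMap κ _ t.c)⁻¹)
    (hx : ∃ x₁, t.Lf x₁ d'.x dE.x 1 ∧ Pole (d.exT x₁) 1)
    (hy : ∀ i, t.X ∈ (dE.pl i).1 ∧ (dE.pl i).val t.X = t.c ∧ (dE.pl i).val t.Y = t.yv i)
    {b : Place κ t.E.L} (hb : t.X ∉ b.1) {J₂ : Finset ((ι ⊕ Fin 2) × ℕ)} (hc : J₂.card = J.card)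
    {A₀ : Subalgebra κ (LT (ι ⊕ Fin 2) κ)} (h₀ : IsChart J₂ A₀)
    (hA : ∀ F, F ∈ A₀ ↔ ∃ f₀ ∈ d'.reg, ∃ f₁ ∈ weiA t.X t.Y t.c, q.val f₀ = b.val f₁ ∧
      F = Sum.elim (d'.exT f₀) (dE.exT f₁)) :
    ∃ (𝒜₁ : Subalgebra (HO κ) (LT (ι ⊕ Fin 2) (HO κ))) (d₁ : CD (HF κ) L (ι ⊕ Fin 2)),
      IsChart J₂ 𝒜₁ ∧ d₁.alg = gen' 𝒜₁ ∧ spe 𝒜₁ = A₀ := by
  obtain ⟨x₁, ⟨a1, ⟨F₁, a2, a3⟩, ωB, ωρ⟩, a4⟩ := hx
  have hX := t.Tail_X
  have hQ : ∀ i (f : t.B), t.ρ f ∈ (dE.pl i).1 ∧ (dE.pl i).val (t.ρ f) = red κ (t.σ i f) :=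
    fun i => t.σρ i _ (hy i).1 (hy i).2.1 (hy i).2.2
  set ω : t.B := ⟨_, ωB⟩ with hωd
  have hω1 : (t.z : L) * x₁ = ω := by rw [hωd]; simp only [pow_one]
  rw [pow_one, ← t.ρz] at ωρ
  have hω : ∀ i, red κ (t.σ i ω) ≠ 0 := fun i => by
    have e1 : t.ρ ω = algebraMap κ _ (q.val d'.x) * t.ρ t.z + algebraMap κ _ 1 := by
      rw [ωρ, hd, t.ρz, map_one]
      field_simp
    rw [← (hQ i ω).2, e1, Place.val_add (mul_mem ((dE.pl i).2.2 _) (hQ i _).1) ((dE.pl i).2.2 _),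
      Place.val_mul ((dE.pl i).2.2 _) (hQ i _).1, (hQ i _).2, t.σz, map_zero, mul_zero, zero_add,
      Place.val_const]
    exact one_ne_zero
  have z0 : (t.z : L) ≠ 0 := fun e => hX (by
    rw [← t.ρz, show t.z = 0 from Subtype.ext e, map_zero])
  have g1 : ∀ i, LS.map (inc κ) (F₁ i) = d.ex i x₁ := fun i => congrFun a2 i
  have g2 : ∀ i, (F₁ i).Ge (-1) := Gauss_pole_of_map Model_inc_inj (n := 1) (a2 ▸ a4)
  have g3 : ∀ i, LS.map (red κ) (F₁ i) = LS.T κ (-1) := fun i => (congrFun a3 i).trans (d'.ex_x i)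
  have o1 : ∀ i, x₁ ≠ 0 ∧ (d.pl i).ord x₁ = -1 := fun i => by
    have b1 := (d.ge_iff i x₁ (-1)).2 (a4 i)
    have b2 : ¬ (d.pl i).Ge x₁ 0 := fun e => by
      have b3 := (d.ge_iff i x₁ 0).1 e (-1) (by omega)
      rw [← g1, LS.cf_map] at b3
      have b4 := congrArg (fun f : LS κ => f.cf (-1)) (g3 i)
      simp only [LS.cf_map, LS.cf_T, if_true] at b4
      rw [Model_inc_inj (b3.trans (map_zero _).symm), map_zero] at b4
      exact zero_ne_one b4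
    rw [Place.Ge, not_or] at b2
    have b5 := b1.resolve_left b2.1
    exact ⟨b2.1, by omega⟩
  have x0 : x₁ ≠ 0 := (o1 (Classical.arbitrary ι)).1
  have o2 : ∀ i, (t.P i).ord x₁ = -1 := fun i => by
    have b1 := Tail_ord (t.Pval i ω).1 fun e => hω i (by
      rw [(t.Pval i ω).2] at e
      rw [show t.σ i ω = 0 from Subtype.ext e, map_zero])
    rw [← hω1, (t.P i).ord_mul z0 x0, t.Pord] at b1
    omega
  have xP : ∀ i, d.x ∈ (t.P i).1 := fun i => (t.Pval i ⟨_, (t.mem _ _ h.rd_x).1⟩).1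
  have xp : ∀ i, d.x ∉ (d.pl i).1 := fun i e => by
    have := ((d.pl i).mem_iff.1 e).resolve_left fun e0 => Tail_T_ne (-1) (by
      rw [← d.ex_x i, e0, map_zero])
    rw [d.ord_x] at this
    omega
  have hP : Function.Injective t.P := by
    have b1 : t.P 0 ≠ t.P 1 := fun e => t.yne (by
      have b2 := (t.Pval 0 t.η).2
      rw [e, (t.Pval 1 t.η).2] at b2
      rw [← (hy 0).2.2, ← (hy 1).2.2, ← t.ρη, (hQ 0 _).2, (hQ 1 _).2, Subtype.ext b2])
    intro i j e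
    fin_cases i <;> fin_cases j
    · rfl
    · exact (b1 e).elim
    · exact (b1 e.symm).elim
    · rfl
  obtain ⟨d₁, dx, dp⟩ := exists_cd (x := x₁) (pl := Sum.elim d.pl t.P)
    (d.inj.sumElim hP fun i j e => xp i (e ▸ xP j))
    (by
      rintro (i | i)
      · exact o1 i
      · exact ⟨x0, o2 i⟩)
    (fun Q hQ => by
      by_cases e : d.x ∈ Q.1
      · by_contra e'
        exact hQ (a1 Q e fun i e'' => e' ⟨.inr i, e''⟩)
      · obtain ⟨i, hi⟩ := d.pole Q e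
        exact ⟨.inl i, hi⟩)
  have p1 : ∀ i, d₁.pl (.inl i) = d.pl i := fun i => by rw [dp]; rfl
  have p2 : ∀ i, d₁.pl (.inr i) = t.P i := fun i => by rw [dp]; rfl
  obtain ⟨J', hJ'⟩ := d₁.exists_chart
  have hcard : J'.card = J₂.card := by
    rw [d₁.card_eq hJ', hc, d.card_eq (h.ge ▸ h.ch.bc _)]
  obtain ⟨M, hM⟩ := Model_bound J
  obtain ⟨k1, k2, k3⟩ := crit hJ' h₀ hcard fun m => ⟨m + M + 1, by omega, fun F hF => by
    obtain ⟨f₀, c1, f₁, c2, c3, rfl⟩ := (hA F).1 hF.1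
    set n := m + M + 1
    obtain ⟨f, ⟨c4, ⟨G, c5, c6⟩, c7, c8⟩, c9⟩ := t.exists_lf h dE hd
      (by rw [(hy 0).2.2, (hy 1).2.2]; exact t.yne) hb (n := n) (by omega)
      (fun ν hν => by have := hM ν hν; omega) c1 (fun i => hF.2 (.inl i)) c2
      (fun i => hF.2 (.inr i)) c3
    have e1 : ∀ i : ι ⊕ Fin 2, ∃ F₀ : LS (HO κ), LS.map (inc κ) F₀ = d₁.ex i f ∧
        LS.map (red κ) F₀ = Sum.elim (d'.exT f₀) (dE.exT f₁) i := by
      rintro (i | i)
      · obtain ⟨F₀, e2, e3⟩ := Tail_inf (d.ex i) (d₁.ex (.inl i))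
          (fun f hf => (d₁.mem_pl _ f).1 (p1 i ▸ (d.mem_pl i f).2 hf)) (dx ▸ d₁.ex_x _) (g1 i) (g2 i)
          (g3 i) (congrFun c5 i)
        exact ⟨F₀, e2, e3.trans (congrFun c6 i)⟩
      · obtain ⟨s₀, e2, e3⟩ := t.σker i
        exact Tail_loc (fun o => ⟨(t.Tail_oL o).1, t.σo i o _, (t.Tail_oL o).2⟩) (t.σz i) (hω i) e2
          (fun f hf => e3 f hf) (t.Pval i) (hQ i) (d₁.ex (.inr i))
          (fun f hf => (d₁.mem_pl _ f).1 (p2 i ▸ hf)) (dE.ex i)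
          (fun f hf => (dE.mem_pl i f).1 hf) (dx ▸ d₁.ex_x _) (dE.ex_x i) hω1 ωρ
          (g := ⟨_, c7⟩) rfl (by rw [c8, t.ρz])
    choose F₀ e2 e3 using e1
    have e4 : mapT (inc κ) F₀ = d₁.exT f := funext e2
    have e5 : f ∈ d₁.reg := fun Q hQ => c4 Q (by
      by_contra e
      obtain ⟨i, hi⟩ := d.pole Q e
      exact hQ ⟨.inl i, (p1 i).trans hi.symm⟩) fun i e => hQ ⟨.inr i, (p2 i).trans e.symm⟩
    have e6 : Pole (d₁.exT f) n := by
      rintro (i | i)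
      · exact (d₁.ge_iff _ f _).1 (p1 i ▸ (d.ge_iff i f _).2 (c9 i))
      · refine (d₁.ge_iff _ f _).1 ?_
        rw [p2]
        have e7 := (t.P i).mem_iff.1 (t.Pval i ⟨_, c7⟩).1
        have e8 : (t.P i).Ge ((t.z : L) ^ n)⁻¹ (-n) := .inr (by
          rw [(t.P i).ord_inv (pow_ne_zero _ z0), (t.P i).ord_pow z0, t.Pord, mul_one])
        have e9 := e8.mul e7
        simp only [inv_mul_cancel_left₀ (pow_ne_zero n z0), add_zero] at e9
        exact e9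
    exact ⟨F₀, ⟨show mapT (inc κ) F₀ ∈ d₁.alg from ⟨f, e5, e4.symm⟩,
      Gauss_pole_of_map Model_inc_inj (e4 ▸ e6)⟩, funext e3⟩⟩
  exact ⟨_, d₁, k1, k2.symm, k3⟩

end TailD

theorem Tail_ev (d' : CD κ L' ι) (q : Place κ L') (A : Subalgebra κ L')
    (h : ∀ f ∈ A, f ∈ q.1) :
    ∃ σ : A.map d'.exT →ₐ[κ] κ, ∀ f (hf : f ∈ A), σ ⟨d'.exT f, f, hf, rfl⟩ = q.val f := by
  obtain ⟨σ, hσ⟩ := q.exists_ev A h
  let e := A.equivMapOfInjective d'.exT d'.exT_injective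
  refine ⟨σ.comp e.symm.toAlgHom, fun f hf => ?_⟩
  have : (⟨d'.exT f, f, hf, rfl⟩ : A.map d'.exT) = e ⟨f, hf⟩ := rfl
  rw [this]
  show σ (e.symm (e ⟨f, hf⟩)) = _
  rw [e.symm_apply_apply, hσ]

theorem TailD.Tail_xE (t : TailD 𝒜 d d' q) (a : κ) {b : Place κ t.E.L} (hb : t.X ∉ b.1) :
    algebraMap κ _ a + (t.X - algebraMap κ _ t.c)⁻¹ ∈ weiA t.X t.Y t.c ∧
      b.val (algebraMap κ _ a + (t.X - algebraMap κ _ t.c)⁻¹) = a :=
  ⟨add_mem (Subalgebra.algebraMap_mem _ a) (Algebra.subset_adjoin (.inl rfl)),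
    Place.val_eq (by rw [add_sub_cancel_left]; exact (t.wei.val_inf t.c hb).2.1)⟩

theorem TailD.Tail_model (t : TailD 𝒜 d d' q) (h : CuspMod J 𝒜 d d' q)
    (hg : genus κ L' + 1 = J.card)
    (hx : ∃ x₁, t.Lf x₁ d'.x (algebraMap κ _ (q.val d'.x) + (t.X - algebraMap κ _ t.c)⁻¹) 1 ∧
      Pole (d.exT x₁) 1) {b : Place κ t.E.L} (hb : t.X ∉ b.1) :
    ∃ (dE : CD κ t.E.L (Fin 2)) (J₂ : Finset ((ι ⊕ Fin 2) × ℕ))
      (𝒜₁ : Subalgebra (HO κ) (LT (ι ⊕ Fin 2) (HO κ))) (d₁ : CD (HF κ) L (ι ⊕ Fin 2)),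
      dE.x = algebraMap κ _ (q.val d'.x) + (t.X - algebraMap κ _ t.c)⁻¹ ∧
      (dE.pl 0).val t.Y ≠ (dE.pl 1).val t.Y ∧ (t.W.Δ ≠ 0 → weiA t.X t.Y t.c = dE.reg) ∧
      IsChart J₂ 𝒜₁ ∧ d₁.alg = gen' 𝒜₁ ∧ ∀ F, F ∈ spe 𝒜₁ ↔ ∃ f₀ ∈ d'.reg, ∃ f₁ ∈ weiA t.X t.Y t.c,
        q.val f₀ = b.val f₁ ∧ F = Sum.elim (d'.exT f₀) (dE.exT f₁) := by
  obtain ⟨dE, hd, hy, _, hc, hΔ⟩ := t.wei.exists_chart t.yne t.fib (q.val d'.x)
  obtain ⟨J', hJ'⟩ := d'.exists_chart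
  obtain ⟨σ, hσ⟩ := Tail_ev d' q d'.reg fun f hf => Comb_mem d' h.x2.1 hf
  obtain ⟨σ', hσ'⟩ := Tail_ev dE b (weiA t.X t.Y t.c) (t.wei.val_inf t.c hb).1
  obtain ⟨x1, x2⟩ := t.Tail_xE (q.val d'.x) hb
  rw [← hd] at x1 x2 hx
  obtain ⟨J₂, c1, c2⟩ := hJ'.glue2 hc σ σ' (by
    have e1 := hσ _ d'.x_mem
    have e2 := hσ' _ x1
    simp only [CD.exT_x] at e1 e2
    exact e1.trans (x2.symm.trans e2.symm))
  have hA : ∀ F, F ∈ glue2 d'.alg _ σ σ' ↔ ∃ f₀ ∈ d'.reg, ∃ f₁ ∈ weiA t.X t.Y t.c,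
      q.val f₀ = b.val f₁ ∧ F = Sum.elim (d'.exT f₀) (dE.exT f₁) := fun F => by
    constructor
    · rintro ⟨⟨_, f₀, e1, rfl⟩, ⟨_, f₁, e2, rfl⟩, e3, rfl⟩
      exact ⟨f₀, e1, f₁, e2, (hσ f₀ e1).symm.trans (e3.trans (hσ' f₁ e2)), rfl⟩
    · rintro ⟨f₀, e1, f₁, e2, e3, rfl⟩
      exact ⟨⟨_, f₀, e1, rfl⟩, ⟨_, f₁, e2, rfl⟩, (hσ f₀ e1).trans (e3.trans (hσ' f₁ e2).symm), rfl⟩
  obtain ⟨𝒜₁, d₁, k1, k2, k3⟩ := t.exists_mod h dE hd hx (fun i => ⟨(hy i).1, (hy i).2.2⟩) hb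
    (by rw [c1, d'.card_eq hJ', Finset.card_singleton, hg]) c2 hA
  exact ⟨dE, J₂, 𝒜₁, d₁, hd, by rw [(hy 0).2.2.2, (hy 1).2.2.2]; exact t.yne, hΔ, k1, k2,
    k3 ▸ hA⟩

theorem TailD.sp (k : Type u) [Field k] [Algebra k κ]
    {D : FFd (HF κ)} {C' : FFd κ} {d : CD (HF κ) D.L ι} {d' : CD κ C'.L ι} {q : Place κ C'.L}
    (t : TailD 𝒜 d d' q) (h : CuspMod J 𝒜 d d' q) (hg : genus κ C'.L + 1 = J.card) (hΔ : t.W.Δ ≠ 0)
    (hx : ∃ x₁, t.Lf x₁ d'.x (algebraMap κ _ (q.val d'.x) + (t.X - algebraMap κ _ t.c)⁻¹) 1 ∧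
      Pole (d.exT x₁) 1) {b : Place κ t.E.L} (hb : t.X ∉ b.1) :
    Comb.Sp k D.sm (Comb.one C' t.E q b) := by
  obtain ⟨dE, J₂, 𝒜₁, d₁, hd, _, hw, k1, k2, k3⟩ := t.Tail_model h hg hx hb
  obtain ⟨x1, x2⟩ := t.Tail_xE (q.val d'.x) hb
  rw [← hd] at x1 x2
  let c : (Comb.one C' t.E q b).CC (ι ⊕ Fin 2) :=
    { ι₀ := ι
      ιt := fun _ => Fin 2
      e := Equiv.sumCongr (Equiv.refl ι) (Equiv.uniqueSigma fun _ : Unit => Fin 2)
      d₀ := d'
      dt := fun _ => dE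
      ha := fun _ => h.x2.1
      hb := fun _ => (t.wei.val_inf t.c hb).1 _ x1
      hv := fun _ => x2.symm }
  have e1 : ∀ f, c.exT f = Sum.elim (d'.exT f.1) (dE.exT (f.2 ())) := fun f => funext fun i => by
    rcases i with i | i
    · exact c.exT_inl f i
    · exact c.exT_inr f () i
  refine IsMod.sp' (c := c) (d := d₁) ⟨k1, k2, SetLike.ext fun F => ?_⟩
  rw [k3, hw hΔ]
  constructor
  · rintro ⟨f, hf, rfl⟩
    obtain ⟨a1, a2, a3⟩ := c.mem_reg.1 hf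
    exact ⟨f.1, a1, f.2 (), a2 (), a3 (), e1 f⟩
  · rintro ⟨f₀, a1, f₁, a2, a3, rfl⟩
    exact ⟨(f₀, fun _ => f₁), c.mem_reg.2 ⟨a1, fun _ => a2, fun _ => a3⟩, e1 _⟩

theorem exists_tail (k : Type u) [Field k] [Algebra k κ] (p : ℕ) [Fact p.Prime] [CharP κ p]
    {D : FFd (HF κ)} {C' : FFd κ} {d : CD (HF κ) D.L ι} {d' : CD κ C'.L ι} {q : Place κ C'.L}
    (h : CuspMod J 𝒜 d d' q) (hg : genus κ C'.L + 1 = J.card) (hm : 2 * J.card ≤ Fintype.card ι)
    (hD : HW0 (HF κ) D.L p) : ∃ (E : FFd κ) (b : Place κ E.L), genus κ E.L = 1 ∧ HW0 κ E.L p ∧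
      Comb.Sp k D.sm (Comb.one C' E q b) := by
  obtain ⟨t⟩ := h.exists_tailD
  obtain ⟨b, hb, _⟩ := t.wei.exists_inf
  have hb' : t.X ∉ b.1 := (hb ▸ Set.mem_singleton b : b ∈ poles κ t.X)
  obtain ⟨J', j1, j2⟩ := h.simple hg hm
  obtain ⟨x1, x2⟩ := t.Tail_xE (q.val d'.x) hb'
  have hx : ∃ x₁, t.Lf x₁ d'.x (algebraMap κ _ (q.val d'.x) + (t.X - algebraMap κ _ t.c)⁻¹) 1 ∧
      Pole (d.exT x₁) 1 := by
    obtain ⟨dE, hd, hy, _⟩ := t.wei.exists_chart t.yne t.fib (q.val d'.x)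
    exact t.exists_lf ⟨j2, h.ge, h.sp, h.x2, h.x3⟩ dE hd
      (by rw [(hy 0).2.2.2, (hy 1).2.2.2]; exact t.yne) hb' (n := 1) le_rfl j1 d'.x_mem
      (by rw [d'.exT_x]; exact fun _ => LS.ge_T _) x1
      (by rw [← hd, dE.exT_x]; exact fun _ => LS.ge_T _) x2.symm
  obtain ⟨dE, J₂, 𝒜₁, d₁, hd, hy, hw, k1, k2, k3⟩ := t.Tail_model h hg hx hb'
  obtain ⟨i₀⟩ : Nonempty (ι ⊕ Fin 2) := inferInstance
  have n1 := ((k1.bc (inc κ)).snil_iff (k := κ) p i₀).2 (by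
    have := (d₁.hw0_iff p).1 hD
    rwa [k2] at this)
  have n2 : SNil p ((PR0.hw κ p J₂).map (MvPolynomial.aeval (coef i₀ J₂ 𝒜₁))) := by
    refine SNil.of_map Model_inc_inj ?_
    rw [k1.coef_bc] at n1
    convert n1 using 1
    ext a a'
    exact (Model_aeval_inc _ _).symm
  have n3 := ((k1.bc (red κ)).snil_iff (k := κ) p i₀).1 (by
    rw [k1.coef_bc]
    convert n2.map (red κ) using 1
    ext a a'
    exact Model_aeval_red _ _)
  have n4 : ∀ F : LT (Fin 2) κ, ∃ n : ℕ, ∃ G ∈ (weiA t.X t.Y t.c).map dE.exT,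
      Pole (F ^ p ^ n - G) 0 := fun F => by
    obtain ⟨n, G, g1, g2⟩ := n3 (Sum.elim 0 F)
    obtain ⟨f₀, _, f₁, g3, _, rfl⟩ := (k3 G).1 g1
    exact ⟨n, _, ⟨f₁, g3, rfl⟩, fun i => g2 (.inr i)⟩
  have hΔ : t.W.Δ ≠ 0 := fun e => t.wei.not_nil p e t.ncusp dE hd hy n4
  refine ⟨t.E, b, t.wei.genus hΔ, (dE.hw0_iff p).2 ?_, t.sp k h hg hΔ hx hb'⟩
  rw [hw hΔ] at n4
  exact n4

end PR0
end

-- merged part: Pool.Agent.Work.MP_da2620_ag.Ell
section
/-!
# Supersingular tails and stars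

All pointed supersingular genus one curves are defined over `k` (`exists_leg`, `hw0_leg`, `SS.mem_range`,
`exists_two`, `exists_hom`).  `one_swap`: a chart of a base change of `one E C b a` is a chart of the swapped comb
(exchange the roles of `d₀` and `dt ()`).
-/

namespace PR0

universe u

variable (k : Type u) [Field k] (p : ℕ)

/-- Parameters of supersingular curves. -/
def SI : Type u := {l : k // if p = 2 then l = 0 else SS p l}

variable {k p}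

/-- The Weierstrass equation. -/
noncomputable def SI.W (s : SI k p) : WeierstrassCurve k := if p = 2 then ⟨0, 0, 1, 0, 0⟩ else leg s.1
/-- The function field. -/
noncomputable def SI.E (s : SI k p) : FFd k := (exists_isWei s.W).choose
/-- The first coordinate. -/
noncomputable def SI.X (s : SI k p) : s.E.L := (exists_isWei s.W).choose_spec.choose
/-- The second coordinate. -/
noncomputable def SI.Y (s : SI k p) : s.E.L := (exists_isWei s.W).choose_spec.choose_spec.choose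
theorem SI.wei (s : SI k p) : IsWei s.W s.X s.Y :=
  (exists_isWei s.W).choose_spec.choose_spec.choose_spec

variable [IsAlgClosed k]

/-- The point at infinity. -/
noncomputable def SI.pt (s : SI k p) : Place k s.E.L := s.wei.exists_inf.choose
theorem SI.poles_eq (s : SI k p) : poles k s.X = {s.pt} := s.wei.exists_inf.choose_spec.1

/-- Stars. -/
noncomputable def star {T : Type} (s₀ : SI k p) (s : T → SI k p) (a : T → Place k s₀.E.L)
    (ha : Function.Injective a) : Comb T k := ⟨s₀.E, fun j => (s j).E, a, fun j => (s j).pt, ha⟩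

variable [Fact p.Prime] [CharP k p] {K K' : Type u} [Field K] [IsAlgClosed K] [Algebra k K]
  [Field K'] [IsAlgClosed K'] [Algebra k K']

section
open Polynomial

omit [IsAlgClosed k] in
theorem Ell_two (p : ℕ) [Fact p.Prime] [CharP k p] (hp : p ≠ 2) : (2 : k) ≠ 0 := fun h =>
  hp ((Nat.prime_dvd_prime_iff_eq Fact.out Nat.prime_two).1
    ((CharP.cast_eq_zero_iff k p 2).1 (by exact_mod_cast h)))

omit [IsAlgClosed k] [Fact p.Prime] [CharP k p] in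
theorem Ell_W (hp : p ≠ 2) (s : SI k p) : s.W = leg s.1 := if_neg hp

omit [IsAlgClosed k] [Fact p.Prime] [CharP k p] in
theorem Ell_ss (hp : p ≠ 2) (s : SI k p) : SS p s.1 := by
  have := s.2
  rwa [if_neg hp] at this

omit [IsAlgClosed k] [CharP k p] in
theorem Ell_ne0 (hp : p ≠ 2) {l : k} (h : SS p l) : l ≠ 0 := by
  rintro rfl
  obtain ⟨m, hm⟩ := (Fact.out : p.Prime).odd_of_ne_two hp
  have h1 : p / 2 = m := by omega
  have h2 : p - 1 = 0 + 2 * m := by omega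
  have h3 : ((X * (X - 1) * (X - C 0)) ^ m : k[X]) = X ^ (2 * m) * (X - 1) ^ m := by
    rw [map_zero, sub_zero, pow_mul, ← mul_pow]
    refine congrArg (· ^ m) ?_
    ring
  rw [SS, h1, h2, h3, coeff_X_pow_mul, coeff_zero_eq_eval_zero] at h
  simp at h

omit [IsAlgClosed k] in
theorem Ell_ne1 (hp : p ≠ 2) {l : k} (h : SS p l) : l ≠ 1 := by
  rintro rfl
  have hpr : p.Prime := Fact.out
  obtain ⟨m, hm⟩ := hpr.odd_of_ne_two hp
  have h1 : p / 2 = m := by omega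
  have h2 : p - 1 = m + m := by omega
  have h3 : ((X * (X - 1) * (X - C 1)) ^ m : k[X]) = X ^ m * (X + C (-1)) ^ (2 * m) := by
    rw [pow_mul, ← mul_pow, map_neg, map_one]
    congr 1
    ring
  rw [SS, h1, h2, h3, coeff_X_pow_mul, coeff_X_add_C_pow, mul_eq_zero] at h
  rcases h with h | h
  · simp at h
  · have h4 := (CharP.cast_eq_zero_iff k p _).1 h
    have h5 := Nat.choose_mul_factorial_mul_factorial (n := 2 * m) (k := m) (by omega)
    have h6 : p ∣ (2 * m).factorial := h5 ▸ (h4.mul_right _).mul_right _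
    have := hpr.dvd_factorial.1 h6
    omega

end

theorem SI.Δ_ne (s : SI k p) : s.W.Δ ≠ 0 := by
  by_cases hp : p = 2
  · subst hp
    have h27 : (27 : k) ≠ 0 := by
      have := (CharP.cast_eq_zero_iff k 2 27).not.2 (by norm_num)
      exact_mod_cast this
    rw [SI.W, if_pos rfl]
    simpa [WeierstrassCurve.Δ, WeierstrassCurve.b₂, WeierstrassCurve.b₄, WeierstrassCurve.b₆,
      WeierstrassCurve.b₈] using h27
  · rw [Ell_W hp]
    exact leg_Δ (Ell_two p hp) (Ell_ne0 hp (Ell_ss hp s)) (Ell_ne1 hp (Ell_ss hp s))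
theorem SI.genus (s : SI k p) : genus k s.E.L = 1 := s.wei.genus s.Δ_ne
theorem SI.hw0 (s : SI k p) : HW0 k s.E.L p := by
  by_cases hp : p = 2
  · subst hp
    have h := s.wei
    rw [SI.W, if_pos rfl] at h
    exact h.hw0_two
  · have h := s.wei
    rw [Ell_W hp] at h
    exact (h.hw0_leg p hp (Ell_ne0 hp (Ell_ss hp s)) (Ell_ne1 hp (Ell_ss hp s))).2 (Ell_ss hp s)
theorem SI.subsingleton (h : p = 2) : Subsingleton (SI k p) := ⟨fun s t => by
  have hs := s.2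
  have ht := t.2
  rw [if_pos h] at hs ht
  exact Subtype.ext (hs.trans ht.symm)⟩
theorem exists_si (k : Type u) [Field k] [IsAlgClosed k] [Algebra k K] [CharP k p] (E : FFd K)
    (b : Place K E.L) (hg : genus K E.L = 1) (h : HW0 K E.L p) :
    ∃ (s : SI k p) (ψ : s.E.L →+* E.L), BC (algebraMap k K) ψ ∧ Over ψ s.pt b := by
  have : CharP K p := charP_of_injective_algebraMap (algebraMap k K).injective p
  have key : ∀ (s : SI k p) (X Y : E.L), IsWei (s.W.map (algebraMap k K)) X Y →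
      poles K X = {b} → ∃ ψ : s.E.L →+* E.L, BC (algebraMap k K) ψ ∧ Over ψ s.pt b := by
    intro s X Y hW hb
    obtain ⟨ψ, h1, h2, -⟩ := s.wei.exists_hom (algebraMap k K) hW
    have hX : X ∉ b.1 := (hb ▸ Set.mem_singleton b : b ∈ poles K X)
    refine ⟨ψ, h1, ?_⟩
    rcases h1.over_or b with ⟨P, hP⟩ | hP
    · have h3 : P ∈ poles k s.X := fun h4 => hX (h2 ▸ (hP _).2 h4)
      rw [s.poles_eq] at h3
      exact (h3 : P = s.pt) ▸ hP
    · exact absurd (h2 ▸ hP s.X) hX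
  by_cases hp : p = 2
  · subst hp
    obtain ⟨X, Y, hW, hb⟩ := exists_two hg h b
    obtain ⟨s⟩ : Nonempty (SI k 2) := ⟨⟨0, by rw [if_pos rfl]⟩⟩
    refine ⟨s, key s X Y ?_ hb⟩
    rw [SI.W, if_pos rfl]
    convert hW using 1
    ext <;> simp
  · obtain ⟨l, X, Y, h0, h1, hW, hb⟩ := exists_leg (Ell_two p hp) hg b
    have hl := (hW.hw0_leg p hp h0 h1).1 h
    obtain ⟨l₀, rfl⟩ := SS.mem_range (algebraMap k K) p hp hl
    obtain ⟨s, rfl⟩ : ∃ s : SI k p, s.1 = l₀ :=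
      ⟨⟨l₀, by rw [if_neg hp]; exact (SS.map _ p l₀).1 hl⟩, rfl⟩
    refine ⟨s, key s X Y ?_ hb⟩
    rw [Ell_W hp]
    convert hW using 1
    ext <;> simp [leg]
/-- Legendre curves over `k` -/
theorem SI.exists_equiv (hp : p ≠ 2) (s : SI k p) {E : Type u} [Field E] [Algebra k E] {X Y : E}
    (h : IsWei (leg s.1) X Y) : ∃ e : s.E.L ≃ₐ[k] E, e s.X = X ∧ e s.Y = Y := by
  obtain ⟨ψ, h1, h2, h3⟩ := s.wei.exists_hom (RingHom.id k)
    (X' := X) (Y' := Y) (by rwa [WeierstrassCurve.map_id, Ell_W hp])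
  have hs : Function.Surjective ψ := fun f => by
    refine (Subfield.closure_le (t := ψ.fieldRange)).2 ?_ (h1.gen f)
    rintro _ (⟨g, rfl⟩ | ⟨c, rfl⟩)
    · exact ⟨g, rfl⟩
    · exact ⟨_, h1.comm c⟩
  exact ⟨AlgEquiv.ofBijective ⟨ψ, h1.comm⟩ ⟨ψ.injective, hs⟩, h2, h3⟩
/-- translation by the point `(0, 0)`: `X ↦ l / X`, `Y ↦ l Y / X ^ 2` -/
theorem IsWei.transl {l : K} (h0 : l ≠ 0) {E : Type u} [Field E] [Algebra K E] {X Y : E}
    (h : IsWei (leg l) X Y) :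
    IsWei (leg l) (algebraMap K E l / X) (algebraMap K E l * Y / X ^ 2) := by
  have hX : X ≠ 0 := fun h1 => h.trans (h1 ▸ isAlgebraic_zero)
  have hl : algebraMap K E l ≠ 0 := (map_ne_zero _).2 h0
  refine ⟨fun h1 => h.trans ?_, ?_, ?_⟩
  · have h2 := (isAlgebraic_algebraMap (R := K) (A := E) l).mul h1.inv
    rwa [inv_div, mul_div_cancel₀ _ hl] at h2
  · have h1 := h.eqn
    simp only [leg, Algebra.smul_def, map_zero, zero_mul, add_zero, map_neg, map_add,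
      map_one] at h1 ⊢
    rw [div_pow, mul_pow, h1]
    field_simp
    ring
  · rw [eq_top_iff, ← h.gen, IntermediateField.adjoin_le_iff]
    set F := IntermediateField.adjoin K {algebraMap K E l / X, algebraMap K E l * Y / X ^ 2}
    have h1 : algebraMap K E l / X ∈ F := IntermediateField.subset_adjoin _ _ (by simp)
    have h2 : algebraMap K E l * Y / X ^ 2 ∈ F := IntermediateField.subset_adjoin _ _ (by simp)
    have h3 : X ∈ F := by
      have := div_mem (F.algebraMap_mem l) h1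
      rwa [div_div_cancel₀ hl] at this
    rintro _ (rfl | rfl)
    · exact h3
    · have := div_mem (mul_mem h2 (pow_mem h3 2)) (F.algebraMap_mem l)
      rwa [div_mul_cancel₀ _ (pow_ne_zero 2 hX), mul_div_cancel_left₀ _ hl] at this

variable {T T' : Type} [Fintype T] [Fintype T']

theorem star_genus (s₀ : SI k p) (s : T → SI k p) (a : T → Place k s₀.E.L)
    (ha : Function.Injective a) : (star s₀ s a ha).genus = Fintype.card T + 1 := by
  change genus k s₀.E.L + ∑ j, genus k (s j).E.L = _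
  simp only [SI.genus, Finset.sum_const, Finset.card_univ, smul_eq_mul, mul_one, add_comm]
theorem star_hw0 (s₀ : SI k p) (s : T → SI k p) (a : T → Place k s₀.E.L)
    (ha : Function.Injective a) : (star s₀ s a ha).HW0 p := ⟨s₀.hw0, fun j => (s j).hw0⟩
theorem star_le (e : T ≃ T') (s₀ : SI k p) (s : T' → SI k p) (a : T' → Place k s₀.E.L)
    (ha : Function.Injective a) :
    Comb.Le k (star s₀ (s ∘ e) (a ∘ e) (ha.comp e.injective)) (star s₀ s a ha) :=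
  ⟨AlgHom.id k k, e, RingHom.id _, fun _ => RingHom.id _, BC.refl,
    fun _ => ⟨BC.refl, fun _ => Iff.rfl, fun _ => Iff.rfl⟩⟩
theorem star_add (s₀ : SI k p) (s : T → SI k p) (s' : T' → SI k p) (a : T → Place k s₀.E.L)
    (a' : T' → Place k s₀.E.L) (ha : Function.Injective a) (h : Function.Injective (Sum.elim a a')) :
    Comb.Le k ((star s₀ s a ha).add (fun j => (s' j).E) a' (fun j => (s' j).pt) h)
      (star s₀ (Sum.elim s s') (Sum.elim a a') h) := by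
  refine ⟨AlgHom.id k k, Equiv.refl _, RingHom.id _,
    fun j => match j with | .inl _ => RingHom.id _ | .inr _ => RingHom.id _, BC.refl, ?_⟩
  rintro (j | j)
  · exact ⟨BC.refl, fun _ => Iff.rfl, fun _ => Iff.rfl⟩
  · exact ⟨BC.refl, fun _ => Iff.rfl, fun _ => Iff.rfl⟩
omit [Fact p.Prime] [CharP k p] in
/-- new points on the core -/
theorem exists_new (Y : Comb T K) (T' : Type) [Fintype T'] :
    ∃ a : T' → Place K Y.C.L, Function.Injective (Sum.elim Y.a a) := by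
  have := infinite_place (K := K) (L := Y.C.L)
  let f := (Set.finite_range Y.a).infinite_compl.natEmbedding
  refine ⟨fun j => f (Fintype.equivFin T' j), Y.inj.sumElim (fun i j h => ?_) fun i j h => ?_⟩
  · exact (Fintype.equivFin T').injective (Fin.ext (f.injective (Subtype.ext h)))
  · exact (f (Fintype.equivFin T' j)).2 ⟨i, h⟩
omit [Fact p.Prime] [CharP k p] in
/-- specialising the attaching points -/
theorem IsGenT.sp {C : FFd K} {C₀ : FFd k} (h : Comb.Sp k C.sm C₀.sm) {E : T → FFd k}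
    {b : ∀ j, Place k (E j).L} {X : Comb T K'} (hX : IsGenT C E b X) (a : T → Place k C₀.L)
    (ha : Function.Injective a) : Comb.Sp k X ⟨C₀, E, a, b, ha⟩ := by
  have ha' : Function.Injective (Sum.elim C₀.sm.a a) :=
    C₀.sm.inj.sumElim ha fun i => i.elim
  refine (glue_sp h hX a ha').trans (Comb.Le.sp' ?_)
  exact ⟨AlgHom.id k k, (Equiv.emptySum Empty T).symm, RingHom.id _, fun _ => RingHom.id _, BC.refl,
    fun _ => ⟨BC.refl, fun _ => Iff.rfl, fun _ => Iff.rfl⟩⟩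
/-- the swapped function -/
noncomputable def Ell_swap {Y : Comb Unit K} {ι : Type} (c : Y.CC ι) :
    (Comb.one (Y.E ()) Y.C (Y.b ()) (Y.a ())).CC ι where
  ι₀ := c.ιt ()
  ιt := fun _ => c.ι₀
  e := (Equiv.mk (fun i => match i with | .inl i => .inr ⟨(), i⟩ | .inr ⟨_, i⟩ => .inl i)
    (fun i => match i with | .inl i => .inr ⟨(), i⟩ | .inr ⟨_, i⟩ => .inl i)
    (by rintro (i | ⟨j, i⟩) <;> rfl) (by rintro (i | ⟨j, i⟩) <;> rfl)).trans c.e
  d₀ := c.dt ()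
  dt := fun _ => c.d₀
  ha := fun _ => c.hb ()
  hb := fun _ => c.ha ()
  hv := fun _ => (c.hv ()).symm

theorem Ell_swap_alg {Y : Comb Unit K} {ι : Type} [Fintype ι] [DecidableEq ι] (c : Y.CC ι) :
    (Ell_swap c).alg = c.alg := by
  have key : ∀ f : Y.Fn, (Ell_swap c).exT (f.2 (), fun _ => f.1) = c.exT f := fun f => by
    funext i
    obtain ⟨i | ⟨j, i⟩, rfl⟩ := c.e.surjective i
    · exact ((Ell_swap c).exT_inr _ () i).trans (c.exT_inl f i).symm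
    · exact ((Ell_swap c).exT_inl _ i).trans (c.exT_inr f j i).symm
  ext F
  constructor
  · rintro ⟨f, hf, rfl⟩
    obtain ⟨h1, h2, h3⟩ := (Ell_swap c).mem_reg.1 hf
    exact ⟨(f.2 (), fun _ => f.1), c.mem_reg.2 ⟨h2 (), fun _ => h1, fun _ => (h3 ()).symm⟩,
      (key _).symm⟩
  · rintro ⟨f, hf, rfl⟩
    obtain ⟨h1, h2, h3⟩ := c.mem_reg.1 hf
    exact ⟨(f.2 (), fun _ => f.1), (Ell_swap c).mem_reg.2 ⟨h2 (), fun _ => h1,
      fun _ => (h3 ()).symm⟩, key f⟩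

omit [IsAlgClosed k] [Fact p.Prime] [CharP k p] in
theorem one_swap (C E : FFd K) (a : Place K C.L) (b : Place K E.L) :
    Comb.Sp k (Comb.one C E a b) (Comb.one E C b a) := by
  intro Ω _ _ _ Y hY ι _ _ i₀ J A hA _
  obtain ⟨φ, e, ψ₀, ψ, h₀, h⟩ := hY
  obtain ⟨c, rfl, hc⟩ := hA
  refine ⟨Ω, _, _, ‹_›, Comb.one (Y.E ()) Y.C (Y.b ()) (Y.a ()), c.alg,
    ⟨φ, Equiv.refl _, ψ (), fun _ => ψ₀, (h ()).1, fun _ => ⟨h₀, (h ()).2.2, (h ()).2.1⟩⟩,
    ⟨Ell_swap c, Ell_swap_alg c, hc⟩, Spc.refl _⟩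

end PR0
end

-- merged part: Pool.Agent.Work.MP_da2620_ag.GenQ
section
/-!
# A ramification point of a maximal chart is a generic point of a maximal curve

Let `g` be the genus, `n = m + 1 - g = ell D` for `D = d.inf` (`h1z_of_deg`, `riemann`).  Descend `(C, d)` to
`K₀ = acl (coef)` (`fod_of_coef`): `(C₀, d₀)`, of rank `e` with `e + 2 = 2 m + g` (`dm_le`).  Let `β` be a basis of `Lsp D₀` over
`K₀`, and `l j` generic over `K` in `Ω` (`exists_generic`); `C'` is the base change of `C` to `Ω`.  Then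
`x'' = ∑ l j β j` has simple poles at all points at infinity (its leading coefficients are nonzero linear forms in `l`),
giving a chart `d''` of `C'` (`exists_cd`, `exists_chart`).  Let `K₁ = acl (coef d'')`, of rank `e₁ ≤ e` (`dm_le`), and descend
to `(C₁, d₁)`.  Let `γ` be a basis of a `K₁`-subspace `V₁` of `Lsp D₁` such that `x = ∑ ν j γ j` with `ν j ∈ Ω`
(`BC.mem_Lsp`), and `K₃ = acl (K₁, ν)`, `L₃ ⊆ C'.L` the base change of `C₁` to `K₃` (`exists_bc`, `BC.unique`).  As `x ∈ L₃`,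
`coef_of_bc` gives `K₀ ⊆ K₃`, and the functions `chi μ` of the chart of `x` lie in `L₃`, so the image of `C₀.L` does; thus
`β j ∈ L₃` is a basis of `Lsp D₃` over `K₃`, `x'' ∈ Lsp D₃`, and by independence over `Ω`, `l j ∈ K₃`.  So
`e + n ≤ e₁ + dim V₁`.  With `V₁ = Lsp D₁` this gives `e₁ = e`.  If the place `q'` over `q` were over a place `q₁` of `C₁`, take
`V₁ = Lsp D₁ ⊓ cusp q₁`, of dimension `n - 1` (`ell (D - 2 q) + 1`), contradiction.  So `x''(q') ∉ K₁` (`over_of_val`).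
-/

namespace PR0

universe u

section
variable {K L K' L' : Type u} [Field K] [Field L] [Algebra K L] [Field K'] [Field L'] [Algebra K' L']

theorem GenQ_span {φ : K →+* K'} {ψ : L →+* L'} (h : BC φ ψ) (V : Submodule K L)
    [FiniteDimensional K V] {f : L'} (hf : f ∈ Submodule.span K' (ψ '' V)) :
    ∃ (γ : Fin (Module.finrank K V) → L) (ν : _ → K'), f = ∑ j, ν j • ψ (γ j) := by
  let b := Module.finBasis K V
  have : Submodule.span K' (ψ '' V) ≤ Submodule.span K' (Set.range fun j => ψ (b j)) := by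
    refine Submodule.span_le.2 ?_
    rintro _ ⟨v, hv, rfl⟩
    have e := congrArg (fun w : V => ψ w) (b.sum_repr ⟨v, hv⟩)
    simp only [AddSubmonoidClass.coe_finsetSum, SetLike.val_smul, map_sum, h.BC_smul] at e
    rw [← e]
    exact Submodule.sum_mem _ fun j _ => Submodule.smul_mem _ _ (Submodule.subset_span ⟨j, rfl⟩)
  obtain ⟨ν, hν⟩ := (Submodule.mem_span_range_iff_exists_fun _).1 (this hf)
  exact ⟨fun j => b j, ν, hν.symm⟩

variable [IsAlgClosed K] [IsAlgClosed K'] [Fact (IsFF K L)] [Fact (IsFF K' L')]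

theorem GenQ_ell {D : Dv K L} (h : 2 * (genus K L : ℤ) ≤ dg D) :
    (Module.finrank K (Lsp D) : ℤ) = dg D + 1 - genus K L := by
  have := riemann D
  rwa [(h1z_iff _).1 (h1z_of_deg h), Nat.cast_zero, sub_zero] at this

theorem GenQ_factor {K₃ : Type u} [Field K₃] [IsAlgClosed K₃] (φ : K →+* K₃) (φ' : K₃ →+* K')
    {ψ : L →+* L'} (h : BC (φ'.comp φ) ψ) : ∃ (L₃ : Type u) (_ : Field L₃) (_ : Algebra K₃ L₃)
      (_ : Fact (IsFF K₃ L₃)) (ψ₁ : L →+* L₃) (ψ₃ : L₃ →+* L'), BC φ ψ₁ ∧ BC φ' ψ₃ ∧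
        ∀ f, ψ₃ (ψ₁ f) = ψ f := by
  obtain ⟨L₃, _, _, _, ψ₁, h₁⟩ := exists_bc (L := L) φ
  obtain ⟨L₄, _, _, _, ψ₂, h₂⟩ := exists_bc (L := L₃) φ'
  obtain ⟨e, he⟩ := (h₁.trans h₂).unique h
  exact ⟨L₃, inferInstance, inferInstance, inferInstance, ψ₁, (e : L₄ →+* L').comp ψ₂, h₁,
    h₂.trans (BC.of_equiv e), he⟩

theorem GenQ_coeff {φ : K →+* K'} {ψ : L →+* L'} (h : BC φ ψ) {n : ℕ} {b : Fin n → L} {u : L}
    {l : Fin n → K'} (hb : LinearIndependent K' fun j => ψ (b j)) (hu : ψ u = ∑ j, l j • ψ (b j))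
    (j : Fin n) : l j ∈ Set.range φ := by
  have hb' : LinearIndependent K b := Fintype.linearIndependent_iff.2 fun c hc i => φ.injective (by
    rw [map_zero]
    refine Fintype.linearIndependent_iff.1 hb (fun i => φ (c i)) ?_ i
    simpa only [map_sum, h.BC_smul, map_zero] using congrArg ψ hc)
  have hu' : u ∈ Submodule.span K (Set.range b) := by
    by_contra hn
    have h1 := (linearIndependent_option.1 (h.linearIndependent (hb'.option hn))).2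
    refine h1 ?_
    change ψ u ∈ _
    rw [hu]
    exact Submodule.sum_mem _ fun j _ => Submodule.smul_mem _ _ (Submodule.subset_span ⟨j, rfl⟩)
  obtain ⟨c, rfl⟩ := (Submodule.mem_span_range_iff_exists_fun _).1 hu'
  simp only [map_sum, h.BC_smul] at hu
  exact ⟨c j, Fintype.linearIndependent_iffₛ.1 hb _ _ hu j⟩

/-- `D'` is the base change of the divisor `D`. -/
def GenQ_Cmp (ψ : L →+* L') (D : Dv K L) (D' : Dv K' L') : Prop :=
  (∀ P P', Over ψ P P' → D' P' = D P) ∧ ∀ P', (∀ f, ψ f ∈ P'.1) → D' P' = 0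

theorem GenQ_single {φ : K →+* K'} {ψ : L →+* L'} (h : BC φ ψ) {P : Place K L} {P' : Place K' L'}
    (o : Over ψ P P') (n : ℤ) : GenQ_Cmp ψ (Finsupp.single P n) (Finsupp.single P' n) := by
  refine ⟨fun Q Q' o' => ?_, fun Q' hQ' => Finsupp.single_eq_of_ne ?_⟩
  · by_cases e : Q = P
    · subst e
      rw [(h.exists_over Q).unique o' o, Finsupp.single_eq_same, Finsupp.single_eq_same]
    · rw [Finsupp.single_eq_of_ne e, Finsupp.single_eq_of_ne]
      rintro rfl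
      exact e (h.over_inj o' o)
  · rintro rfl
    exact P.2.1 (eq_top_iff.2 fun f _ => (o f).1 (hQ' f))

variable {ι : Type} [Fintype ι] [DecidableEq ι]

omit [DecidableEq ι] in
theorem GenQ_inf {φ : K →+* K'} {ψ : L →+* L'} (h : BC φ ψ) (d : CD K L ι) (d' : CD K' L' ι)
    (o : ∀ i, Over ψ (d.pl i) (d'.pl i)) : GenQ_Cmp ψ d.inf d'.inf := by
  refine ⟨fun Q Q' o' => ?_, fun Q' hQ' => ?_⟩
  · rw [CD.inf, CD.inf, Finsupp.finsetSum_apply, Finsupp.finsetSum_apply]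
    exact Finset.sum_congr rfl fun i _ => (GenQ_single h (o i) 1).1 Q Q' o'
  · rw [CD.inf, Finsupp.finsetSum_apply]
    exact Finset.sum_eq_zero fun i _ => (GenQ_single h (o i) 1).2 Q' hQ'

theorem GenQ_x_mem [Nonempty ι] (d : CD K L ι) : d.x ∈ Lsp d.inf := d.dvInf_x ▸ rr_mem_inf d.x

theorem GenQ_desc [Nonempty ι] {φ : K →+* K'} {ψ : L →+* L'} (hψ : BC φ ψ) (d : CD K' L' ι)
    (hx : d.x ∈ Set.range ψ) :
    ∃ d₀ : CD K L ι, ψ d₀.x = d.x ∧ ∀ i, Over ψ (d₀.pl i) (d.pl i) := by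
  obtain ⟨x₀, hx⟩ := hx
  have hx0 : d.x ≠ 0 := fun h0 => d.transcendental (h0 ▸ isAlgebraic_zero)
  have hov : ∀ i, ∃ P : Place K L, Over ψ P (d.pl i) := fun i =>
    (hψ.over_or (d.pl i)).resolve_right fun hh => d.CD_x_notMem i (hx ▸ hh x₀)
  choose pl hpl using hov
  obtain ⟨d₀, h1, h2⟩ := exists_cd (x := x₀) (pl := pl)
    (fun i j hij => d.inj ((hψ.exists_over (pl i)).unique (hpl i) (hij ▸ hpl j)))
    (fun i => by
      have e0 : x₀ ≠ 0 := fun h0 => hx0 (by rw [← hx, h0, map_zero])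
      exact ⟨e0, by rw [← hψ.BC_ord_eq (hpl i) e0, hx, d.ord_x]⟩)
    (fun P hP => by
      obtain ⟨P', hP', -⟩ := hψ.exists_over P
      obtain ⟨i, rfl⟩ := d.pole P' (hx ▸ mt (hP' x₀).1 hP)
      exact ⟨i, hψ.over_inj hP' (hpl i)⟩)
  exact ⟨d₀, h1 ▸ hx, h2 ▸ hpl⟩

/-- A generic element of `Lsp d.inf` has simple poles at all points at infinity. -/
theorem GenQ_cd [Nonempty ι] {φ : K →+* K'} {ψ : L →+* L'} (h : BC φ ψ) (d : CD K L ι)
    (d' : CD K' L' ι) (o : ∀ i, Over ψ (d.pl i) (d'.pl i)) {n : ℕ}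
    (β : Module.Basis (Fin n) K (Lsp d.inf)) {l : Fin n → K'} (hl : BCind φ l) :
    ∃ d'' : CD K' L' ι, d''.x = ∑ j, l j • ψ (β j) ∧ d''.pl = d'.pl := by
  have h1 : ∑ j, l j • ψ (β j) ∈ Lsp d'.inf :=
    (h.mem_Lsp (GenQ_inf h d d' o).1 (GenQ_inf h d d' o).2 _).2
      (Submodule.sum_mem _ fun j _ => Submodule.smul_mem _ _
        (Submodule.subset_span ⟨_, (β j).2, rfl⟩))
  refine exists_cd d'.inj (fun i => ?_) fun P hP => by_contra fun hn => hP (P.mem_iff.2 ?_)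
  · have h2 : ¬ (d'.pl i).Ge (∑ j, l j • ψ (β j)) 0 := fun e => by
      have h3 := congrArg Subtype.val (β.sum_repr ⟨d.x, GenQ_x_mem d⟩)
      simp only [AddSubmonoidClass.coe_finsetSum, SetLike.val_smul] at h3
      refine d.CD_x_notMem i ((d.pl i).mem_iff.2 ?_)
      rw [← h3]
      exact rr_ge_sum _ fun j _ => (h.BC_ge_of_sum hl (o i) e j).smul _
    have h3 := h1 (d'.pl i)
    rw [d'.CD_inf_pl] at h3
    simp only [Place.Ge, not_or] at h2 h3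
    exact ⟨h2.1, by have := h3.resolve_left h2.1; omega⟩
  · simpa [d'.CD_inf_not (P := P) fun ⟨i, e⟩ => hn ⟨i, e.symm⟩] using h1 P

end

variable {k K : Type u} [Field k] [IsAlgClosed k] [Field K] [IsAlgClosed K] [Algebra k K]

omit [IsAlgClosed k] in
theorem GenQ_acl (k : Type u) [Field k] [Algebra k K] (s : Set K) :
    ∃ (F : IntermediateField k K) (_ : IsAlgClosed F), ∀ y, y ∈ F ↔ y ∈ acl k s :=
  ⟨acl k s, inferInstance, fun _ => Iff.rfl⟩

omit [IsAlgClosed k] [IsAlgClosed K] in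
theorem GenQ_rk {Ω : Type u} [Field Ω] [Algebra k Ω] [Algebra K Ω] [IsScalarTower k K Ω] {s : Set K}
    {e n : ℕ} (he : (e : ℕ∞) ≤ rk k s) {l : Fin n → Ω} (hl : AlgebraicIndependent K l) {t : Set Ω}
    (h₁ : ∀ a ∈ s, algebraMap K Ω a ∈ acl k t) (h₂ : ∀ j, l j ∈ acl k t) :
    ((n + e : ℕ) : ℕ∞) ≤ rk k t := by
  obtain ⟨y, hy, hy'⟩ := exists_indep_of_le_rk he
  have h1 := (hy'.map' (f := IsScalarTower.toAlgHom k K Ω) (algebraMap K Ω).injective).sumElim_of_tower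
    (S := K) (by rintro _ ⟨i, rfl⟩; exact ⟨_, rfl⟩) hl
  refine le_rk_of_indep (h1.comp _ finSumFinEquiv.symm.injective) fun i => mem_acl.1 ?_
  rw [Function.comp_apply]
  rcases finSumFinEquiv.symm i with j | j
  · exact h₂ j
  · exact h₁ _ (hy j)

omit [IsAlgClosed k] in
/-- The key inequality. -/
theorem GenQ_key {ι : Type} [Fintype ι] [DecidableEq ι] [Nonempty ι] {K₀ L₀ Ω L' : Type u} [Field K₀]
    [IsAlgClosed K₀] [Algebra k K₀] [Field L₀] [Algebra K₀ L₀] [Fact (IsFF K₀ L₀)] [Field Ω]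
    [IsAlgClosed Ω] [Algebra k Ω] [Field L'] [Algebra Ω L'] [Fact (IsFF Ω L')] {φ₀ : K₀ →+* Ω}
    {ψ₀ : L₀ →+* L'} (h₀ : BC φ₀ ψ₀) (d₀ : CD K₀ L₀ ι) (d' : CD Ω L' ι) (hx : ψ₀ d₀.x = d'.x)
    (ho : ∀ i, Over ψ₀ (d₀.pl i) (d'.pl i)) {J : Finset (ι × ℕ)} (hJ : IsChart J d'.alg) (i₀ : ι)
    (hK : ∀ F : IntermediateField k Ω, IsAlgClosed F → (∀ a, coef i₀ J d'.alg a ∈ F) →
      ∀ c, φ₀ c ∈ F) {n : ℕ} {β : Fin n → L₀} (hβ : ∀ j, β j ∈ d₀.reg)
    (hβ' : LinearIndependent K₀ β) {l : Fin n → Ω} {K₁ K₃ : IntermediateField k Ω} [IsAlgClosed K₁]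
    [IsAlgClosed K₃] (hle : K₁ ≤ K₃) {L₁ : Type u} [Field L₁] [Algebra K₁ L₁] [Fact (IsFF K₁ L₁)]
    {ψ₁ : L₁ →+* L'} (h₁ : BC (K₁.val : K₁ →+* Ω) ψ₁) {u : L₁} (hu : ψ₁ u = ∑ j, l j • ψ₀ (β j))
    {α : Type} [Fintype α] {γ : α → L₁} {ν : α → Ω} (hγ : d'.x = ∑ j, ν j • ψ₁ (γ j))
    (hν : ∀ j, ν j ∈ K₃) : (∀ c, φ₀ c ∈ K₃) ∧ ∀ j, l j ∈ K₃ := by
  have e₁ : (K₁.val : K₁ →+* Ω) =
      (K₃.val : K₃ →+* Ω).comp (IntermediateField.inclusion hle : K₁ →+* K₃) :=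
    RingHom.ext fun _ => rfl
  rw [e₁] at h₁
  obtain ⟨L₃, _, _, _, ψ₁₃, ψ₃, h₁₃, h₃, e₃⟩ := GenQ_factor _ _ h₁
  have hx₃ : d'.x ∈ Set.range ψ₃ := ⟨∑ j, (⟨ν j, hν j⟩ : K₃) • ψ₁₃ (γ j), by
    simp only [map_sum, h₃.BC_smul, e₃, hγ]
    rfl⟩
  have h1 : ∀ c, φ₀ c ∈ K₃ := hK K₃ inferInstance fun a => by
    obtain ⟨c, hc⟩ := coef_of_bc h₃ d' hJ i₀ hx₃ a
    exact hc ▸ c.2
  refine ⟨h1, fun j => ?_⟩
  obtain ⟨d₃, hd₃, ho₃⟩ := GenQ_desc h₃ d' hx₃
  obtain ⟨a₁, a₂, -⟩ := fod_cd h₃ d₃ d' hd₃ ho₃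
  obtain ⟨b₁, b₂, b₃⟩ := fod_cd h₀ d₀ d' hx ho
  obtain ⟨J₃, hJ₃⟩ := d₃.exists_chart
  have h2 : ∀ j, ∃ b, ψ₃ b = ψ₀ (β j) := fun j => by
    have h3 : mapT (K₃.val : K₃ →+* Ω) (mapT (φ₀.codRestrict K₃ h1) (d₀.exT (β j))) =
        d'.exT (ψ₀ (β j)) := (b₁ _).symm
    obtain ⟨b, -, hb⟩ := hJ₃.mem_of_mapT (φ := (K₃.val : K₃ →+* Ω)) Subtype.val_injective
      (F := mapT (φ₀.codRestrict K₃ h1) (d₀.exT (β j))) (by
        rw [h3, ← a₂]
        exact ⟨_, (b₃ _).2 (Submodule.subset_span ⟨_, hβ j, rfl⟩), rfl⟩)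
    refine ⟨b, d'.exT_injective ?_⟩
    rw [a₁, ← h3, ← hb]
    rfl
  choose b hb using h2
  obtain ⟨c, hc⟩ := GenQ_coeff h₃ (b := b) (u := ψ₁₃ u) (l := l)
    (by simpa only [hb] using h₀.linearIndependent hβ') (by simpa only [hb, e₃] using hu) j
  exact hc ▸ c.2

theorem genq (p : ℕ) [Fact p.Prime] [CharP k p] (C : FFd K) (hC : HW0 K C.L p) {m : ℕ}
    (d : CD K C.L (Fin m)) {J : Finset (Fin m × ℕ)} (h : IsChart J d.alg) (i₀ : Fin m)
    (hd : ((2 * m + J.card : ℕ) : ℕ∞) ≤ dm k (coef i₀ J d.alg) + 2) (hm : 2 * genus K C.L + 2 ≤ m)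
    (q : Place K C.L) (hq : d.x ∈ cusp q) (E : FFd K) (b : Place K E.L) (E₀ : FFd k)
    (b₀ : Place k E₀.L) (ψ : E₀.L →+* E.L) (hψ : BC (algebraMap k K) ψ) (hb : Over ψ b₀ b) :
    ∃ (K₁ : Type u) (_ : Field K₁) (_ : Algebra k K₁) (_ : IsAlgClosed K₁) (C₁ : FFd K₁)
      (Ω : Type u) (_ : Field Ω) (_ : Algebra k Ω) (_ : IsAlgClosed Ω) (Y : Comb Unit Ω),
      IsMax k C₁ m ∧ genus K₁ C₁.L = genus K C.L ∧ HW0 K₁ C₁.L p ∧
      Comb.Le k (Comb.one C E q b) Y ∧ IsGenT C₁ (fun _ => E₀) (fun _ => b₀) Y := by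
  classical
  have : Nonempty (Fin m) := ⟨i₀⟩
  have : CharP K p := charP_of_injective_algebraMap (algebraMap k K).injective p
  have hg := d.card_eq h
  obtain ⟨e, he⟩ := ENat.ne_top_iff_exists.1 (h.fg (k := k) i₀).dm_ne_top
  -- descent to the field of the coordinates
  obtain ⟨K₀, _, hK₀⟩ := GenQ_acl k (Set.range (coef i₀ J d.alg))
  obtain ⟨C₀, d₀, ψ₀, hψ₀, hx₀, ho₀, -⟩ := fod_of_coef d h i₀ K₀.val
    fun a => ⟨⟨_, (hK₀ _).2 (subset_acl _ ⟨a, rfl⟩)⟩, rfl⟩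
  have hn₀ := GenQ_ell (D := d₀.inf) (by
    rw [d₀.CD_dg_inf, ← hψ₀.genus_eq, Fintype.card_fin]; omega)
  rw [d₀.CD_dg_inf, ← hψ₀.genus_eq, Fintype.card_fin] at hn₀
  have := Module.Free.of_divisionRing K₀ (Lsp d₀.inf)
  have β := Module.finBasis K₀ (Lsp d₀.inf)
  generalize Module.finrank K₀ (Lsp d₀.inf) = n at hn₀ β
  obtain ⟨Ω, _, _, _, _, _, l, hl⟩ := exists_generic (k := k) K (Fin n)
  obtain ⟨L', _, _, _, ψ', hψ'⟩ := exists_bc (L := C.L) (algebraMap K Ω)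
  obtain ⟨d', hx', ho', -, hd', -⟩ := hψ'.exists_cd d
  have hΨ := hψ₀.trans hψ'
  have hO : ∀ i, Over (ψ'.comp ψ₀) (d₀.pl i) (d'.pl i) := fun i f => (ho' i _).trans (ho₀ i f)
  obtain ⟨d'', hx'', hpl⟩ := GenQ_cd hΨ d₀ d' hO β (l := l) fun c hc j => Subtype.ext
    (Fintype.linearIndependent_iff.1 hl.linearIndependent (fun j => (c j : K))
      (by simp only [Algebra.smul_def]; exact hc) j)
  obtain ⟨J'', hJ''⟩ := d''.exists_chart
  have hg'' := (d''.card_eq hJ'').trans hψ'.genus_eq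
  obtain ⟨e₁, he₁⟩ := ENat.ne_top_iff_exists.1 (hJ''.fg (k := k) i₀).dm_ne_top
  obtain ⟨K₁, _, hK₁⟩ := GenQ_acl k (Set.range (coef i₀ J'' d''.alg))
  obtain ⟨C₁, d₁, ψ₁, hψ₁, hx₁, ho₁, hJ₁, hb₁, -⟩ := fod_of_coef d'' hJ'' i₀ K₁.val
    fun a => ⟨⟨_, (hK₁ _).2 (subset_acl _ ⟨a, rfl⟩)⟩, rfl⟩
  have hg₁ := hψ₁.genus_eq.symm.trans hψ'.genus_eq
  have hJ' : IsChart J d'.alg := hd' ▸ h.bc _
  have hcoef : ∀ a, coef i₀ J d'.alg a = algebraMap K Ω (coef i₀ J d.alg a) := fun a => by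
    rw [hd', h.coef_bc]
  have key : ∀ {α : Type} [Fintype α] {γ : α → C₁.L} {ν : α → Ω}, d'.x = ∑ j, ν j • ψ₁ (γ j) →
      n + e ≤ e₁ + Fintype.card α := fun {α} _ γ ν hγ => by
    obtain ⟨K₃, _, hK₃⟩ := GenQ_acl k (Set.range (coef i₀ J'' d''.alg) ∪ Set.range ν)
    obtain ⟨h1, h2⟩ := GenQ_key hΨ d₀ d' (by rw [hx', ← hx₀]; rfl) hO hJ' i₀
      (fun F _ hF c => by
        have h3 : IsAlgebraic F (algebraMap K Ω c) := by
          refine (mem_acl.1 ((hK₀ _).1 c.2)).ringHom_of_comp_eq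
            (((algebraMap K Ω).comp (algebraMap (Algebra.adjoin k _) K)).codRestrict F fun z => ?_)
            (algebraMap K Ω) (fun a b e => Subtype.ext
              ((algebraMap K Ω).injective (congrArg Subtype.val e))) rfl
          exact Algebra.adjoin_le (S := F.toSubalgebra.comap (IsScalarTower.toAlgHom k K Ω))
            (by rintro _ ⟨a, rfl⟩; exact (hcoef a ▸ hF a : algebraMap K Ω _ ∈ F)) z.2
        obtain ⟨z, hz⟩ := not_not.1 (mt FFA_tr.2 (not_not.2 h3))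
        exact Set.mem_of_eq_of_mem hz.symm z.2)
      (β := fun j => β j) (fun j => (d₀.mem_Lsp (n := 1)).1 (by simp) |>.1)
      (β.linearIndependent.map' (Lsp d₀.inf).subtype (Submodule.ker_subtype _))
      (K₃ := K₃) (fun z hz => (hK₃ z).2 (acl_mono Set.subset_union_left ((hK₁ z).1 hz))) hψ₁
      (hx₁.trans hx'') hγ fun j => (hK₃ _).2 (subset_acl _ (Or.inr ⟨j, rfl⟩))
    have h3 := (GenQ_rk he.le hl (fun a ha => (hK₃ _).1 (h1 ⟨a, (hK₀ _).2 (subset_acl _ ha)⟩))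
      fun j => (hK₃ _).1 (h2 j)).trans (rk_union_le _ _)
    have h4 : rk k (Set.range ν) ≤ Fintype.card α := (rk_le_encard _).trans (by
      rw [← Set.image_univ]
      exact (Set.encard_image_le _ _).trans (by simp))
    have h5 := h3.trans (add_le_add he₁.ge h4)
    exact_mod_cast h5
  have hinf : d''.inf = d'.inf := by rw [CD.inf, CD.inf, hpl]
  have hcmp := GenQ_inf hψ₁ d₁ d'' ho₁
  rw [hinf] at hcmp
  have hd₁ : dg d₁.inf = m := by rw [d₁.CD_dg_inf, Fintype.card_fin]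
  have he' : 2 * m + genus K C.L ≤ e + 2 := by
    rw [← he, hg] at hd
    exact_mod_cast hd
  have : CharP Ω p := charP_of_injective_algebraMap (algebraMap k Ω).injective p
  have hC' : HW0 Ω L' p := (hψ'.hw0_iff p).2 hC
  have he₁' : e₁ + 2 ≤ 2 * m + genus K C.L := by
    have := dm_le (k := k) p ⟨L'⟩ hC' d'' hJ'' i₀
    rw [← he₁, hg'', Fintype.card_fin] at this
    exact_mod_cast this
  have hee : e ≤ e₁ := by
    obtain ⟨γ, ν, h1⟩ := GenQ_span hψ₁ _ ((hψ₁.mem_Lsp hcmp.1 hcmp.2 _).1 (GenQ_x_mem d'))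
    have h2 := key h1
    have h3 := GenQ_ell (D := d₁.inf) (by rw [hd₁, hg₁]; omega)
    rw [Fintype.card_fin] at h2
    rw [hd₁, hg₁] at h3
    omega
  obtain ⟨q', hq', -⟩ := hψ'.exists_over q
  have hno : ¬ ∃ q₁ : Place K₁ C₁.L, Over ψ₁ q₁ q' := by
    rintro ⟨q₁, hq₁⟩
    have h0 := GenQ_single hψ₁ hq₁ 2
    have h1 : d'.x - algebraMap Ω L' (algebraMap K Ω (q.val d.x)) ∈
        Lsp (d'.inf - Finsupp.single q' 2) := fun P => by
      by_cases hP : P = q'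
      · subst hP
        have h2 : d'.inf P = 0 := d'.CD_inf_not fun ⟨i, e⟩ =>
          d'.CD_x_notMem i (by rw [e, hx']; exact (hq' _).2 hq.1)
        have h3 := (hψ'.ge_iff hq' _ _).2 hq.2
        rw [map_sub, hψ'.comm, ← hx'] at h3
        simpa [h2] using h3
      · have h2 : 0 ≤ d'.inf P := by
          rw [← d'.dvInf_x]
          exact (le_sup_right : (0 : Dv Ω L') ≤ dvInf Ω d'.x) P
        rw [Finsupp.sub_apply, Finsupp.single_eq_of_ne hP, sub_zero]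
        exact (GenQ_x_mem d' P).sub ((P.mem_iff.1 (P.2.2 _)).mono (by omega))
    obtain ⟨γ, ν, h2⟩ := GenQ_span hψ₁ _ ((hψ₁.mem_Lsp (D := d₁.inf - Finsupp.single q₁ 2)
      (fun P P' o => by rw [Finsupp.sub_apply, Finsupp.sub_apply, hcmp.1 P P' o, h0.1 P P' o])
      (fun P' o => by rw [Finsupp.sub_apply, hcmp.2 P' o, h0.2 P' o, sub_zero]) _).1 h1)
    have h3 := key (γ := fun o : Option _ => o.elim 1 γ)
      (ν := fun o => o.elim (algebraMap K Ω (q.val d.x)) ν) (by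
        rw [Fintype.sum_option]
        simp only [Option.elim_none, Option.elim_some]
        rw [← h2, map_one, ← Algebra.algebraMap_eq_smul_one, add_sub_cancel])
    have h4 := GenQ_ell (D := d₁.inf - Finsupp.single q₁ 2)
      (by rw [dg_sub, dg_single, hd₁, hg₁]; omega)
    rw [Fintype.card_option, Fintype.card_fin] at h3
    rw [dg_sub, dg_single, hd₁, hg₁] at h4
    omega
  obtain ⟨LE, _, _, _, ψE, hψE⟩ := exists_bc (L := E.L) (algebraMap K Ω)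
  obtain ⟨b', hb', -⟩ := hψE.exists_over b
  have : CharP K₁ p := charP_of_injective_algebraMap (algebraMap k K₁).injective p
  refine ⟨K₁, inferInstance, inferInstance, inferInstance, C₁, Ω, inferInstance, inferInstance,
    inferInstance, Comb.one ⟨L'⟩ ⟨LE⟩ q' b', ⟨i₀, J'', d₁, hJ₁, ?_, by omega⟩, hg₁, (hψ₁.hw0_iff p).1 hC',
    ⟨IsScalarTower.toAlgHom k K Ω, Equiv.refl _, ψ', fun _ => ψE, hψ', fun _ => ⟨hψE, hq', hb'⟩⟩,
    K₁.val, ψ₁, fun _ => ψE.comp ψ, d₁.x, hψ₁,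
    fun _ => ⟨?_, fun f => (hb' _).trans (hb f)⟩,
    fun _ => (hψ₁.over_or q').resolve_left hno _, ?_⟩
  · rw [← dm_val, show (fun a => ((coef i₀ J'' d₁.alg a : K₁) : Ω)) = coef i₀ J'' d''.alg by
      rw [← hb₁, hJ₁.coef_bc]; rfl, ← he₁, hg'']
    exact_mod_cast he'.trans (by omega)
  · rw [IsScalarTower.algebraMap_eq k K Ω]
    exact hψ.trans hψE
  · rw [IntermediateField.fieldRange_val, algebraicIndependent_unique_type_iff, FFA_tr]
    exact fun e => hno (hψ₁.over_of_val d₁.transcendental (Or.inr e))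

end PR0
end

-- merged part: Pool.Agent.Work.MP_da2620_ag.Key
section
/-!
# Maximal curves: existence, local uniqueness, degeneration to a star

`exists_max`: take a chart of degree `m` with simple `J` (`exists_cd_avoid`, `exists_chart_simple`); `smd` over the
base `K` gives a generisation of dimension `≥ N` also over `k` (`Spc.restrict`, `rk_restrict`, `exists_chart`,
`IsChart.on`); apply `purity`; the new point is a chart point (`exists_chart`), smooth (`Sm.of_spc`,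
`exists_cd_of_sm`), nilpotent (`snil_iff`, `hw0_iff`); `sp_of_spc`.
`IsMax.sp_symm`: apply `Sp` to the maximal chart of `C`; by `dm_le` and `Spc.symm_of_dm` the two chart points are
conjugate; `le_of_conj`, `Le.sp`, `Le.sp'`.
`key0`: apply both `Sp` to the chart of `UniqC`; `smd` for the base change of `C` gives the hypothesis of `UniqC`; the
point `c` of `Uniq` specialises to both chart points (base change to a common field is not needed).
`exists_star`: induction on `n`, with `exists_cusp`, `exists_tail`, `exists_si`, `genq`, `glue_sp`, `exists_new`,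
`star_add`, `star_le`.
-/

namespace PR0

universe u

variable {k K K' : Type u} [Field k] [IsAlgClosed k] [Field K] [IsAlgClosed K] [Algebra k K]
  [Field K'] [IsAlgClosed K'] [Algebra k K'] (p : ℕ) [Fact p.Prime] [CharP k p]
  {T T' : Type} [Fintype T] [Fintype T']

theorem Key_snil {R R' : Type u} [CommRing R] [CommRing R'] {k : Type u} [Field k] [Algebra k R]
    [Algebra k R'] {I G : Type} [Fintype G] [DecidableEq G] {p : ℕ}
    {Φ : Matrix G G (MvPolynomial I k)} {c : I → R} {c' : I → R'} (h : Spc k c c')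
    (hn : SNil p (Φ.map (MvPolynomial.aeval c))) : SNil p (Φ.map (MvPolynomial.aeval c')) := by
  have e : ∀ {S : Type u} [CommRing S] [Algebra k S] (d : I → S),
      sprod p (Φ.map (MvPolynomial.aeval d)) (Fintype.card G) =
        (sprod p Φ (Fintype.card G)).map (MvPolynomial.aeval d) := fun d =>
    (sprod_map (MvPolynomial.aeval d : MvPolynomial I k →ₐ[k] _).toRingHom Φ _).symm
  rw [SNil, e] at hn ⊢
  ext i j
  exact h _ (congrFun (congrFun hn i) j)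

section
variable {ι : Type} [Fintype ι] [DecidableEq ι] {J : Finset (ι × ℕ)}

omit [IsAlgClosed k] in
theorem Key_has {X : Comb T K} {A : Subalgebra K (LT ι K)} (h : X.Has J A) (i₀ : ι) :
    X.HW0 p ↔ SNil p ((hw k p J).map (MvPolynomial.aeval (coef i₀ J A))) := by
  have := charP_of_injective_algebraMap (algebraMap k K).injective p
  obtain ⟨c, rfl, hc⟩ := h
  rw [c.hw0_iff p, hc.snil_iff p i₀]

omit [IsAlgClosed k] in
theorem Key_real {i₀ : ι} {c : Idx ι → K} (hc : On (cI k i₀ J) c)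
    (hn : SNil p ((hw k p J).map (MvPolynomial.aeval c))) {C' : FFd K'} (d' : CD K' C'.L ι)
    (h' : IsChart J d'.alg) (hs : Spc k c (coef i₀ J d'.alg)) :
    ∃ (C : FFd K) (d : CD K C.L ι), IsChart J d.alg ∧ coef i₀ J d.alg = c ∧ HW0 K C.L p := by
  have : Nonempty ι := ⟨i₀⟩
  obtain ⟨A, hA, rfl⟩ := exists_chart hc
  obtain ⟨L, _, _, _, d, rfl⟩ := exists_cd_of_sm hA (Sm.of_spc hA h' hs d'.sm)
  refine ⟨⟨L⟩, d, hA, rfl, ?_⟩
  have := charP_of_injective_algebraMap (algebraMap k K).injective p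
  exact (d.hw0_iff p).2 ((hA.snil_iff p i₀).1 hn)

omit [IsAlgClosed k] in
include p in
theorem Key_smd {C : FFd K} (d : CD K C.L ι) (h : IsChart J d.alg) (hJ : ∀ ν ∈ J, ν.2 < 1)
    (i₀ : ι) : ∃ (Ω : Type u) (_ : Field Ω) (_ : Algebra k Ω) (c : Idx ι → Ω), On (cI k i₀ J) c ∧
      Spc k c (coef i₀ J d.alg) ∧
        ((2 * Fintype.card ι + 2 * J.card : ℕ) : ℕ∞) ≤ dm k c + 2 := by
  have : Nonempty ι := ⟨i₀⟩
  have := charP_of_injective_algebraMap (algebraMap k K).injective p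
  obtain ⟨Ω, _, _, c, h1, h2, h3⟩ := smd p d h hJ i₀
  let _ : Algebra k Ω := ((algebraMap K Ω).comp (algebraMap k K)).toAlgebra
  have : IsScalarTower k K Ω := IsScalarTower.of_algebraMap_eq fun _ => rfl
  obtain ⟨A, hA, rfl⟩ := exists_chart h1
  exact ⟨Ω, _, _, _, hA.on i₀, h2.restrict, h3.trans (add_le_add_left (rk_restrict _) _)⟩

end

omit [IsAlgClosed k] in
theorem Key_chart (Y : Comb T K) : ∃ (m : ℕ) (_ : Fin m) (J : Finset (Fin m × ℕ))
    (A : Subalgebra K (LT (Fin m) K)), Y.Has J A ∧ ∀ ν ∈ J, ν.2 < 1 := by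
  obtain ⟨m, c, h1, h2, -⟩ := Y.exists_cc ∅ (fun _ => ∅) (2 * Y.genus)
  obtain ⟨J, hJ, hJ'⟩ := c.exists_chart_simple (le_trans (by unfold Comb.genus; omega) h1)
    fun j => le_trans (by
      have := Finset.single_le_sum (f := fun j => PR0.genus K (Y.E j).L) (fun _ _ => Nat.zero_le _)
        (Finset.mem_univ j)
      unfold Comb.genus
      omega) (h2 j)
  exact ⟨m, c.e (.inl (Classical.arbitrary _)), J, c.alg, ⟨c, rfl, hJ'⟩, hJ⟩

omit [IsAlgClosed k] in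
theorem Key_dm {C : FFd K} {ι : Type} [Fintype ι] [DecidableEq ι] (d : CD K C.L ι)
    {J J' : Finset (ι × ℕ)} (h : IsChart J d.alg) (h' : IsChart J' d.alg) (i₀ : ι) :
    dm k (coef i₀ J d.alg) ≤ dm k (coef i₀ J' d.alg) := by
  have : Nonempty ι := ⟨i₀⟩
  obtain ⟨C₀, d₀, ψ, h1, h2, -⟩ := fod_of_coef d h' i₀ (acl k (Set.range (coef i₀ J' d.alg))).val
    fun a => ⟨⟨_, subset_acl _ ⟨a, rfl⟩⟩, rfl⟩
  refine rk_le_of_acl ?_
  rintro _ ⟨a, rfl⟩
  obtain ⟨c, hc⟩ := coef_of_bc h1 d h i₀ ⟨_, h2⟩ a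
  exact hc ▸ c.2

theorem exists_max (k : Type u) [Field k] [IsAlgClosed k] [Algebra k K] [CharP k p] (C₀ : FFd K)
    (h : HW0 K C₀.L p) {m : ℕ} (hm : 2 * genus K C₀.L + 1 ≤ m) :
    ∃ (Ω : Type u) (_ : Field Ω) (_ : Algebra k Ω) (_ : IsAlgClosed Ω) (C : FFd Ω),
      IsMax k C m ∧ HW0 Ω C.L p ∧ Comb.Sp k C.sm C₀.sm := by
  let i₀ : Fin m := ⟨0, by omega⟩
  have : Nonempty (Fin m) := ⟨i₀⟩
  obtain ⟨d, -⟩ := exists_cd_avoid (K := K) (L := C₀.L) (ι := Fin m) ∅ (fun _ => 0) (by simpa using hm)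
  obtain ⟨J, hJ, hd⟩ := d.exists_chart_simple (by rw [Fintype.card_fin]; omega)
  have h₀ : C₀.sm.Has J d.alg := FFd.has_sm.2 ⟨d, rfl, hd⟩
  obtain ⟨Ω, _, _, c, h1, h2, h3⟩ := Key_smd (k := k) p d hd hJ i₀
  have := charP_of_injective_algebraMap (algebraMap k Ω).injective p
  obtain ⟨Ω', _, _, _, c', h4, h5, h6, h7⟩ := purity (hw k p J) ((fgi_cI k i₀ J).fg h1) h2
    ((Key_has p h₀ i₀).1 ((FFd.hw0_sm C₀ p).2 h))
  obtain ⟨C, d', h8, rfl, h9⟩ := Key_real p (h1.spc h4) h6 d hd h5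
  refine ⟨Ω', _, _, ‹_›, C, ⟨i₀, J, d', h8, ?_, by rw [d.card_eq hd]; omega⟩, h9, sp_of_spc (FFd.has_sm.2 ⟨d', rfl, h8⟩) h₀ h5⟩
  rw [Fintype.card_fin] at h3
  rw [Fintype.card_coe] at h7
  have h10 := h3.trans (add_le_add_left h7 2)
  rw [add_right_comm, show 2 * m + 2 * J.card = 2 * m + J.card + J.card by omega,
    Nat.cast_add] at h10
  exact (ENat.add_le_add_iff_right (ENat.natCast_ne_top _)).1 h10

omit [IsAlgClosed k] in
theorem Comb.Sp.genus {X : Comb T K} {Y : Comb T' K'} (h : Comb.Sp k X Y) : X.genus = Y.genus := by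
  obtain ⟨m, i₀, J, A, hA, hJ⟩ := Key_chart Y
  obtain ⟨Ω, _, _, _, X', A', ⟨φ, h1⟩, ⟨c', rfl, h2⟩, -⟩ := h K' Y (Comb.Le.refl Y) _ i₀ J A hA hJ
  obtain ⟨c, rfl, h3⟩ := hA
  rw [← h1.genus, ← c'.card_eq h2, c.card_eq h3]

include p in
theorem Comb.Sp.hw0 {X : Comb T K} {Y : Comb T' K'} (h : Comb.Sp k X Y) (hX : X.HW0 p) : Y.HW0 p := by
  have := charP_of_injective_algebraMap (algebraMap k K).injective p
  obtain ⟨m, i₀, J, A, hA, hJ⟩ := Key_chart Y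
  obtain ⟨Ω, _, _, _, X', A', ⟨φ, h1⟩, h2, h3⟩ := h K' Y (Comb.Le.refl Y) _ i₀ J A hA hJ
  exact (Key_has (k := k) p hA i₀).2 (Key_snil h3 ((Key_has p h2 i₀).1 ((h1.hw0 p).2 hX)))

variable {p}

theorem IsMax.sp_symm {C : FFd K} {m : ℕ} (h : IsMax k C m) {C' : FFd K'} (hC' : HW0 K' C'.L p)
    (hs : Comb.Sp k C'.sm C.sm) : Comb.Sp k C.sm C'.sm := by
  have := charP_of_injective_algebraMap (algebraMap k K').injective p
  obtain ⟨i₀, J₀, d, hd₀, hb, hm⟩ := h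
  have : Nonempty (Fin m) := ⟨i₀⟩
  obtain ⟨J, hJ, hd⟩ := d.exists_chart_simple (by rw [Fintype.card_fin, ← d.card_eq hd₀]; exact hm)
  replace hb := hb.trans (add_le_add_left (Key_dm (k := k) d hd₀ hd i₀) 2)
  rw [hd₀.card_eq hd] at hb
  have h₀ : C.sm.Has J d.alg := FFd.has_sm.2 ⟨d, rfl, hd⟩
  obtain ⟨Ω, _, _, _, X', A', h1, h2, h3⟩ := hs K C.sm (Comb.Le.refl _) _ i₀ J _ h₀ hJ
  refine (sp_of_spc h₀ h2 (i₀ := i₀) ?_).trans h1.sp'
  have e := (FFd.exists_of_le k h1).1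
  obtain ⟨φ, h1⟩ := h1
  have h4 := ((h1.hw0 p).2 ((FFd.hw0_sm C' p).2 hC')).1
  rw [e] at h2
  obtain ⟨d', rfl, hd'⟩ := FFd.has_sm.1 h2
  have h5 := dm_le (k := k) p X'.C h4 d' hd' i₀
  rw [Fintype.card_fin] at h5
  exact h3.symm_of_dm (hd'.fg i₀)
    ((ENat.add_le_add_iff_right (ENat.natCast_ne_top 2)).1 (h5.trans hb))

theorem key0 {Y : Comb T k} (hY : UniqC p Y) {C : FFd K} (hC : HW0 K C.L p) (h : Comb.Sp k C.sm Y)
    {X : Comb T' K'} (hX : X.HW0 p) (h' : Comb.Sp k X Y) :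
    ∃ (Ω : Type u) (_ : Field Ω) (_ : Algebra k Ω) (_ : IsAlgClosed Ω) (D : FFd Ω),
      HW0 Ω D.L p ∧ Comb.Sp k D.sm C.sm ∧ Comb.Sp k D.sm X := by
  have := charP_of_injective_algebraMap (algebraMap k K).injective p
  have := charP_of_injective_algebraMap (algebraMap k K').injective p
  obtain ⟨m, i₀, J, A, hA, hJ, H⟩ := hY
  have : Nonempty (Fin m) := ⟨i₀⟩
  obtain ⟨Ω₁, _, _, _, X₁, A₁, a1, a2, a3⟩ := h k Y (Comb.Le.refl Y) _ i₀ J A hA hJ
  obtain ⟨Ω₂, _, _, _, X₂, A₂, b1, b2, b3⟩ := h' k Y (Comb.Le.refl Y) _ i₀ J A hA hJ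
  have a4 : X₁.HW0 p := a1.elim fun φ hφ => (hφ.hw0 p).2 ((FFd.hw0_sm C p).2 hC)
  have b4 : X₂.HW0 p := b1.elim fun φ hφ => (hφ.hw0 p).2 hX
  have a5 := a2
  rw [(FFd.exists_of_le k a1).1] at a5
  obtain ⟨d₁, rfl, hd₁⟩ := FFd.has_sm.1 a5
  obtain ⟨Ω₀, _, _, c₀, h1, h2, h3⟩ := Key_smd (k := k) p d₁ hd₁ hJ i₀
  rw [Fintype.card_fin] at h3
  obtain ⟨Ω, _, _, _, c, h4, h5, h6⟩ := H Ω₀ c₀ h1 (h2.trans a3) h3
  have h7 := h6 Ω₁ _ (hd₁.on i₀) ((Key_has p a2 i₀).1 a4) a3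
  have h8 := h6 Ω₂ _ (b2.elim fun _ hc => hc.2.on i₀) ((Key_has p b2 i₀).1 b4) b3
  obtain ⟨D, d, hd, rfl, hD⟩ := Key_real p h4 h5 d₁ hd₁ h7
  have h9 : D.sm.Has J d.alg := FFd.has_sm.2 ⟨d, rfl, hd⟩
  exact ⟨Ω, _, _, ‹_›, D, hD, (sp_of_spc h9 a2 h7).trans a1.sp', (sp_of_spc h9 b2 h8).trans b1.sp'⟩

theorem key {Y : Comb T k} (hY : UniqC p Y) {C : FFd K} {m : ℕ} (hm : IsMax k C m)
    (hC : HW0 K C.L p) (h : Comb.Sp k C.sm Y) {X : Comb T' K'} (hX : X.HW0 p)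
    (h' : Comb.Sp k X Y) : Comb.Sp k C.sm X := by
  obtain ⟨Ω, _, _, _, D, hD, h1, h2⟩ := key0 hY hC h hX h'
  exact (hm.sp_symm hD h1).trans h2

theorem exists_star (n : ℕ) {C : FFd K} {m : ℕ} (hm : IsMax k C m) (hC : HW0 K C.L p)
    (hg : genus K C.L = n + 1) (hmg : 2 * (n + 1) ≤ m) :
    ∃ (s₀ : SI k p) (s : Fin n → SI k p) (a : Fin n → Place k s₀.E.L) (ha : Function.Injective a),
      Comb.Sp k C.sm (star s₀ s a ha) := by
  induction n generalizing K with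
  | zero =>
    obtain ⟨i₀, J, d, -⟩ := hm
    obtain ⟨s, ψ, hψ, -⟩ := exists_si k C (d.pl i₀) hg hC
    refine ⟨s, Fin.elim0, Fin.elim0, fun j => j.elim0, Comb.Le.sp' ?_⟩
    exact ⟨Algebra.ofId k K, Equiv.equivEmpty _, ψ, fun j => j.elim0, hψ, fun j => j.elim0⟩
  | succ n ih =>
    obtain ⟨Ω, _, _, _, C', d', q, D, d, J, J', 𝒜, i₀, h1, h2, h3, h4, h5, h6, h7, h8, h9, h10, h11,
      h12⟩ := exists_cusp p C hC hm (by omega)
    have : Nonempty (Fin m) := ⟨i₀⟩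
    have := charP_of_injective_algebraMap (algebraMap k Ω).injective p
    obtain ⟨E, b, e1, e2, e3⟩ := exists_tail k p (⟨h3, h4, h5, h6, h7⟩ : CuspMod J 𝒜 d d' q)
      (by omega) (by rw [Fintype.card_fin]; omega) h2
    obtain ⟨s, ψ, hψ, hb⟩ := exists_si k E b e1 e2
    obtain ⟨K₁, _, _, _, C₁, Ω₁, _, _, _, Y, g1, g2, g3, g4, g5⟩ :=
      genq p C' h10 d' h11 i₀ h12 (by omega) q h6 E b s.E s.pt ψ hψ hb
    obtain ⟨s₀, s', a, ha, hs⟩ := ih g1 g3 (by omega) (by omega)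
    obtain ⟨a', ha'⟩ := exists_new (star s₀ s' a ha) Unit
    let e : Fin (n + 1) ≃ Fin n ⊕ Unit := Fintype.equivOfCardEq (by simp)
    exact ⟨s₀, _, _, _, h1.trans (e3.trans (g4.sp.trans ((glue_sp hs g5 a' ha').trans
      ((star_add s₀ s' (fun _ => s) a a' ha ha').sp.trans (star_le e s₀ _ _ ha').sp'))))⟩

theorem exists_lower (n : ℕ) {C : FFd K} {m : ℕ} (hm : IsMax k C m) (hC : HW0 K C.L p)
    (hg : n ≤ genus K C.L) :
    ∃ (Ω : Type u) (_ : Field Ω) (_ : Algebra k Ω) (_ : IsAlgClosed Ω) (C' : FFd Ω),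
      IsMax k C' m ∧ HW0 Ω C'.L p ∧ genus Ω C'.L = n := by
  obtain ⟨r, hr⟩ := Nat.exists_eq_add_of_le hg
  clear hg
  induction r generalizing K with
  | zero => exact ⟨K, _, _, ‹_›, C, hm, hC, hr⟩
  | succ r ih =>
    obtain ⟨Ω, _, _, _, C', d', q, D, d, J, J', 𝒜, i₀, -, -, -, -, -, -, -, h8, -, h10, h11,
      h12⟩ := exists_cusp p C hC hm (by omega)
    obtain ⟨i₁, J₁, d₁, h13, -, h14⟩ := hm
    have : Nonempty (Fin m) := ⟨i₀⟩
    rw [d₁.card_eq h13] at h14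
    exact ih (C := C') ⟨i₀, J', d', h11, h12, by rw [d'.card_eq h11]; omega⟩ h10 (by omega)

end PR0
end

-- merged part: Pool.Agent.Work.MP_da2620_ag.HypMA
section
/-!
# Square roots of power series and the hyperelliptic chart point
-/

namespace PR0

open Polynomial

universe u

section
variable {R : Type u} [CommRing R]

theorem HypMA_sub {f g : LS R} {n : ℤ} (h : f.Ge n) (h' : g.Ge n) : (f - g).Ge n :=
  fun k hk => by rw [LS.cf_sub, h k hk, h' k hk, sub_zero]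

theorem HypMA_sqrt (h2 : IsUnit (2 : R)) {F : LS R} (hF : F.Ge 0) {w : R} (hw : IsUnit w)
    (h : F.cf 0 = w ^ 2) : ∃ s : LS R, s.Ge 0 ∧ s.cf 0 = w ∧ s ^ 2 = F := by
  obtain ⟨u, hu⟩ := (h2.mul hw).exists_left_inv
  let a : ℕ → LS R := fun n => Nat.rec (algebraMap R (LS R) w)
    (fun n s => s + (u * (F - s ^ 2).cf (n + 1)) • LS.T R (n + 1)) n
  have ha : ∀ n : ℕ, a (n + 1) = a n + (u * (F - a n ^ 2).cf (n + 1)) • LS.T R (n + 1) :=
    fun _ => rfl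
  have key : ∀ n : ℕ, (a n).Ge 0 ∧ (a n).cf 0 = w ∧ (F - a n ^ 2).Ge (n + 1) := by
    intro n
    induction n with
    | zero =>
      refine ⟨LS.ge_algebraMap w, (LS.cf_algebraMap w 0).trans (if_pos rfl), fun m hm => ?_⟩
      change (F - algebraMap R (LS R) w ^ 2).cf m = 0
      rw [← map_pow, LS.cf_sub, LS.cf_algebraMap]
      split_ifs with e
      · rw [e, h, sub_self]
      · rw [hF m (by omega), sub_zero]
    | succ n ih =>
      obtain ⟨h1, h3, h4⟩ := ih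
      rw [ha]
      generalize hc : u * (F - a n ^ 2).cf (n + 1) = c
      have ht : (c • LS.T R (n + 1)).Ge (n + 1) := (LS.ge_T _).smul c
      refine ⟨h1.add (ht.mono (by omega)), by rw [LS.cf_add, h3, ht 0 (by omega), add_zero],
        fun m hm => ?_⟩
      have e : F - (a n + c • LS.T R (n + 1)) ^ 2 = (F - a n ^ 2) -
          (2 : R) • (a n * c • LS.T R (n + 1)) - c • LS.T R (n + 1) * c • LS.T R (n + 1) := by
        rw [two_smul]; ring
      rw [e, LS.cf_sub, LS.cf_sub, LS.cf_smul, (ht.mul ht) m (by omega), sub_zero]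
      by_cases e' : m = n + 1
      · have h5 := LS.cf_mul_lead h1 ht
        rw [zero_add, h3, LS.cf_smul, LS.cf_T, if_pos rfl] at h5
        rw [e', h5, ← hc]
        linear_combination (-(F - a n ^ 2).cf (n + 1)) * hu
      · rw [h4 m (by omega), (h1.mul ht) m (by omega), mul_zero, sub_zero]
  have step : ∀ i j : ℕ, i ≤ j → (a j - a i).Ge (i + 1) := by
    intro i j hij
    induction j, hij using Nat.le_induction with
    | base => rw [sub_self]; exact fun _ _ => rfl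
    | succ j hij ih =>
      rw [ha, add_sub_right_comm]
      exact ih.add (((LS.ge_T _).smul _).mono (by omega))
  obtain ⟨s, hs⟩ := LS.exists_cf (fun m => (a m.toNat).cf m) 0 fun m hm => (key _).1 m hm
  have hs0 : s.Ge 0 := fun m hm => (hs m).trans ((key _).1 m hm)
  have hsa : ∀ n : ℕ, (s - a n).Ge (n + 1) := by
    intro n m hm
    rw [LS.cf_sub, hs, ← neg_sub, ← LS.cf_sub, step m.toNat n (by omega) m (by omega), neg_zero]
  refine ⟨s, hs0, (hs 0).trans (key 0).2.1, (sub_eq_zero.1 (LS.eq_zero_of_ge fun n => ?_)).symm⟩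
  have e : F - s ^ 2 = (F - a n.toNat ^ 2) - (s - a n.toNat) * (s + a n.toNat) := by ring
  rw [e]
  exact HypMA_sub ((key _).2.2.mono (by omega))
    (((hsa _).mul (hs0.add (key _).1)).mono (by omega))

theorem HypMA_uniq {s s' : LS R} (hs : s.Ge 0) (hs' : s'.Ge 0) (h0 : s.cf 0 = s'.cf 0)
    (hu : IsUnit (2 * s.cf 0)) (h : s ^ 2 = s' ^ 2) : s = s' := by
  obtain ⟨g, -, hg⟩ := LS.exists_inv (hs.add hs') (by rwa [LS.cf_add, ← h0, ← two_mul])
  linear_combination g * h - (s - s') * hg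

theorem HypMA_cf (A : R[X]) (n : ℕ) : (aeval (LS.T R (-1)) A).cf (-n) = A.coeff n := by
  rw [aeval_eq_sum_range, LS.cf_sum]
  simp only [LS.cf_smul, LS.T_pow, LS.cf_T, mul_neg, mul_one, neg_inj, Nat.cast_inj, mul_ite,
    mul_zero, Finset.sum_ite_eq, Finset.mem_range]
  split_ifs with h
  · rfl
  · exact (coeff_eq_zero_of_natDegree_lt (by omega)).symm

theorem HypMA_ge (A : R[X]) : (aeval (LS.T R (-1)) A).Ge (-A.natDegree) := fun m hm => by
  obtain ⟨n, rfl⟩ : ∃ n : ℕ, m = -n := ⟨(-m).toNat, by omega⟩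
  rw [HypMA_cf]
  exact coeff_eq_zero_of_natDegree_lt (by omega)

theorem HypMA_ge1 (A : R[X]) :
    (aeval (LS.T R 1) A).Ge 0 ∧ (aeval (LS.T R 1) A).cf 0 = A.coeff 0 := by
  have h : ∀ m : ℤ, m ≤ 0 → (aeval (LS.T R 1) A).cf m = if m = 0 then A.coeff 0 else 0 := by
    intro m hm
    rw [aeval_eq_sum_range, LS.cf_sum, Finset.sum_eq_single 0]
    · simp [LS.cf_smul, ← LS.T_zero, LS.cf_T]
    · intro i _ hi
      rw [LS.cf_smul, LS.T_pow, LS.cf_T, if_neg (by omega), mul_zero]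
    · simp
  exact ⟨fun m hm => (h m hm.le).trans (if_neg hm.ne), (h 0 le_rfl).trans (if_pos rfl)⟩

theorem HypMA_refl {f : R[X]} {N : ℕ} (hf : f.natDegree ≤ N) :
    ∃ G : R[X], aeval (LS.T R (-1)) G = aeval (LS.T R 1) f * LS.T R (-N) := by
  refine ⟨∑ i ∈ Finset.range (N + 1), f.coeff i • X ^ (N - i), ?_⟩
  rw [aeval_eq_sum_range' (Nat.lt_succ_of_le hf), map_sum, Finset.sum_mul]
  refine Finset.sum_congr rfl fun i hi => ?_
  have := Finset.mem_range.1 hi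
  rw [map_smul, map_pow, aeval_X, smul_mul_assoc, LS.T_pow, LS.T_pow, ← LS.T_add]
  congr 2
  omega

theorem HypMA_nf {S : Type u} [CommRing S] [Algebra R S] {x y : S} {G : R[X]}
    (h : y ^ 2 = aeval x G) {F : S} (hF : F ∈ Algebra.adjoin R {x, y}) :
    ∃ A B : R[X], F = aeval x A + aeval x B * y := by
  induction hF using Algebra.adjoin_induction with
  | mem z hz =>
    rcases hz with rfl | rfl
    · exact ⟨X, 0, by simp⟩
    · exact ⟨0, 1, by simp⟩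
  | algebraMap r => exact ⟨C r, 0, by simp⟩
  | add a b _ _ ha hb =>
    obtain ⟨A, B, rfl⟩ := ha
    obtain ⟨A', B', rfl⟩ := hb
    exact ⟨A + A', B + B', by simp only [map_add]; ring⟩
  | mul a b _ _ ha hb =>
    obtain ⟨A, B, rfl⟩ := ha
    obtain ⟨A', B', rfl⟩ := hb
    exact ⟨A * A' + B * B' * G, A * B' + B * A', by
      simp only [map_add, map_mul]
      linear_combination aeval x B * aeval x B' * h⟩

theorem HypMA_aeval_mem {S : Type u} [CommRing S] [Algebra R S] {A : Subalgebra R S} {x : S}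
    (hx : x ∈ A) (P : R[X]) : aeval x P ∈ A :=
  Algebra.adjoin_le (Set.singleton_subset_iff.2 hx) (aeval_mem_adjoin_singleton R x)

theorem HypMA_adjoin {S : Type u} [CommRing S] [Algebra R S] {A : Subalgebra R S} {x y : S}
    (h : ∀ a, a ∈ A ↔ ∃ P Q : R[X], a = aeval x P + aeval x Q * y) :
    A = Algebra.adjoin R {x, y} := by
  refine le_antisymm (fun a ha => ?_) (Algebra.adjoin_le ?_)
  · obtain ⟨P, Q, rfl⟩ := (h a).1 ha
    have hx : x ∈ Algebra.adjoin R {x, y} := Algebra.subset_adjoin (Or.inl rfl)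
    exact add_mem (HypMA_aeval_mem hx P)
      (mul_mem (HypMA_aeval_mem hx Q) (Algebra.subset_adjoin (Or.inr rfl)))
  · rintro _ (rfl | rfl)
    · exact (h _).2 ⟨X, 0, by simp⟩
    · exact (h _).2 ⟨0, 1, by simp⟩

theorem HypMA_surj {ι : Type} [Fintype ι] [DecidableEq ι] {J : Finset (ι × ℕ)}
    {A : Subalgebra R (LT ι R)} (h : ∀ (n : ℕ) (τ : ι → R), ∃ G ∈ A, Pole G (n + 1 : ℕ) ∧
      ∀ i, (i, n) ∉ J → pc G (i, n) = τ i) (n : ℕ) : ∀ τ : ι × ℕ → R,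
    ∃ F ∈ A, Pole F n ∧ ∀ ν, ν ∉ J → ν.2 < n → pc F ν = τ ν := by
  induction n with
  | zero => exact fun τ => ⟨0, zero_mem _, fun i m _ => rfl, fun ν _ h => absurd h (by omega)⟩
  | succ n ih =>
    intro τ
    obtain ⟨G, h1, h2, h3⟩ := h n fun i => τ (i, n)
    obtain ⟨F, h4, h5, h6⟩ := ih fun ν => τ ν - pc G ν
    refine ⟨F + G, add_mem h4 h1, fun i => ((Chart_pole_mono h5 (by omega)) i).add (h2 i), ?_⟩
    rintro ⟨i, m⟩ hν hm
    rw [Chart_pc_add]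
    rcases (Nat.lt_succ_iff.1 hm).lt_or_eq with hm | rfl
    · rw [h6 _ hν hm, sub_add_cancel]
    · rw [pole_iff.1 h5 _ le_rfl, h3 i hν, zero_add]

/-- The second generator. -/
noncomputable def HypMA_Y (s : LS R) (g : ℕ) : LT (Fin 2) R :=
  ![s * LS.T R (-(g + 1)), -(s * LS.T R (-(g + 1)))]

/-- The chart point. -/
noncomputable def HypMA_A (s : LS R) (g : ℕ) : Subalgebra R (LT (Fin 2) R) :=
  Algebra.adjoin R {xx (Fin 2) R, HypMA_Y s g}

/-- The type of the chart point. -/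
def HypMA_J (g : ℕ) : Finset (Fin 2 × ℕ) :=
  (Finset.range g).map ⟨fun n => ((1 : Fin 2), n), fun _ _ e => (Prod.ext_iff.1 e).2⟩

theorem HypMA_mem_J {g : ℕ} {i : Fin 2} {n : ℕ} : (i, n) ∈ HypMA_J g ↔ i = 1 ∧ n < g := by
  simp only [HypMA_J, Finset.mem_map, Finset.mem_range, Function.Embedding.coeFn_mk, Prod.mk.injEq]
  exact ⟨fun ⟨a, h1, h2, h3⟩ => ⟨h2.symm, h3 ▸ h1⟩, fun h => ⟨n, h.2, h.1.symm, rfl⟩⟩

theorem HypMA_aeval_xx {ι : Type} (A : R[X]) (i : ι) :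
    aeval (xx ι R) A i = aeval (LS.T R (-1)) A :=
  (aeval_algHom_apply (Pi.evalAlgHom R (fun _ : ι => LS R) i) (xx ι R) A).symm

theorem HypMA_chart (h2 : IsUnit (2 : R)) {s : LS R} (hs : s.Ge 0) (hw : IsUnit (s.cf 0)) {g : ℕ}
    {f : R[X]} (hf : f.natDegree ≤ 2 * g + 2) (h : s ^ 2 = aeval (LS.T R 1) f) :
    IsChart (HypMA_J g) (HypMA_A s g) := by
  have hx : xx (Fin 2) R ∈ HypMA_A s g := Algebra.subset_adjoin (Or.inl rfl)
  have hy : HypMA_Y s g ∈ HypMA_A s g := Algebra.subset_adjoin (Or.inr rfl)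
  have hxp : ∀ (n : ℕ) (i : Fin 2), (xx (Fin 2) R ^ n) i = LS.T R (-n) := fun n i => by
    rw [Pi.pow_apply, xx, LS.T_pow, mul_neg_one]
  refine ⟨hx, fun F hF h0 => ?_, fun μ hμ => ?_⟩
  · obtain ⟨G, hG⟩ := HypMA_refl hf
    have hY : HypMA_Y s g ^ 2 = aeval (xx (Fin 2) R) G := by
      have e : (s * LS.T R (-(g + 1))) ^ 2 = aeval (LS.T R (-1)) G := by
        rw [hG, mul_pow, h, LS.T_pow,
          show ((2 : ℕ) : ℤ) * -(g + 1) = -((2 * g + 2 : ℕ) : ℤ) by push_cast; ring]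
      funext i
      rw [HypMA_aeval_xx, ← e]
      fin_cases i
      · rfl
      · exact neg_sq _
    obtain ⟨A, B, rfl⟩ := HypMA_nf hY hF
    have h1 : Pole (aeval (xx (Fin 2) R) A + aeval (xx (Fin 2) R) B * HypMA_Y s g) g :=
      pole_iff.2 fun μ hμ => h0 μ fun e => (HypMA_mem_J.1 e).2.not_ge hμ
    have h3 := HypMA_sub (h1 0) (h1 1) (-B.natDegree + (0 + -(g + 1))) (by omega)
    have e : (aeval (xx (Fin 2) R) A + aeval (xx (Fin 2) R) B * HypMA_Y s g) 0 -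
        (aeval (xx (Fin 2) R) A + aeval (xx (Fin 2) R) B * HypMA_Y s g) 1 =
        (2 : R) • (aeval (LS.T R (-1)) B * (s * LS.T R (-(g + 1)))) := by
      simp only [Pi.add_apply, Pi.mul_apply, HypMA_aeval_xx, HypMA_Y, Matrix.cons_val_zero,
        Matrix.cons_val_one, two_smul]
      ring
    rw [e, LS.cf_smul, LS.cf_mul_lead (HypMA_ge B) (hs.mul (LS.ge_T _)),
      LS.cf_mul_lead hs (LS.ge_T _), HypMA_cf, LS.cf_T, if_pos rfl, mul_one,
      h2.mul_right_eq_zero, hw.mul_left_eq_zero] at h3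
    obtain rfl : B = 0 := leadingCoeff_eq_zero.1 h3
    have hA : A = C (A.coeff 0) := by
      ext n
      rcases n with _ | n
      · rw [coeff_C_zero]
      · have h4 := h0 (0, n) fun e => absurd (HypMA_mem_J.1 e).1 (by decide)
        rw [map_zero, zero_mul, add_zero, pc, HypMA_aeval_xx, ← Nat.cast_succ, HypMA_cf] at h4
        rw [coeff_C_succ]
        exact h4
    exact ⟨A.coeff 0, by rw [hA, map_zero, zero_mul, add_zero, aeval_C, coeff_C_zero]⟩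
  · suffices key : ∀ (n : ℕ) (τ : Fin 2 → R), ∃ G ∈ HypMA_A s g, Pole G (n + 1 : ℕ) ∧
        ∀ i, (i, n) ∉ HypMA_J g → pc G (i, n) = τ i by
      obtain ⟨F, h3, h4, h5⟩ := HypMA_surj key (μ.2 + 1) fun ν => if ν = μ then 1 else 0
      refine ⟨F, h3, fun ν hν => ?_⟩
      by_cases e : ν.2 < μ.2 + 1
      · exact h5 ν hν e
      · rw [pole_iff.1 h4 ν (not_lt.1 e), if_neg fun e' => e (by rw [e']; omega)]
    intro n τ
    have p1 : Pole (xx (Fin 2) R ^ (n + 1)) (n + 1 : ℕ) := fun i => by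
      rw [hxp]; exact LS.ge_T _
    have c1 : ∀ i, pc (xx (Fin 2) R ^ (n + 1)) (i, n) = 1 := fun i => by
      rw [pc, hxp, LS.cf_T, if_pos (by push_cast; rfl)]
    by_cases hn : n < g
    · refine ⟨τ 0 • xx (Fin 2) R ^ (n + 1), Subalgebra.smul_mem _ (pow_mem hx _) _,
        fun i => (p1 i).smul _, fun i hi => ?_⟩
      rw [Chart_pc_smul, c1, mul_one]
      fin_cases i
      · rfl
      · exact absurd (HypMA_mem_J.2 ⟨rfl, hn⟩) hi
    · obtain ⟨m, rfl⟩ := Nat.exists_eq_add_of_le (not_lt.1 hn)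
      obtain ⟨u, hu⟩ := h2.exists_left_inv
      obtain ⟨v, hv⟩ := hw.exists_left_inv
      have e : LS.T R (-m) * (s * LS.T R (-(g + 1))) = LS.T R (-((g + m : ℕ) + 1)) * s := by
        rw [mul_left_comm, ← LS.T_add, mul_comm]
        congr 2
        push_cast
        ring
      have e0 : (xx (Fin 2) R ^ m * HypMA_Y s g) 0 = LS.T R (-((g + m : ℕ) + 1)) * s := by
        rw [Pi.mul_apply, hxp]; exact e
      have e1 : (xx (Fin 2) R ^ m * HypMA_Y s g) 1 = -(LS.T R (-((g + m : ℕ) + 1)) * s) := by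
        rw [Pi.mul_apply, hxp, ← e]; exact mul_neg _ _
      have g0 : (LS.T R (-((g + m : ℕ) + 1)) * s).Ge (-((g + m + 1 : ℕ) : ℤ)) :=
        ((LS.ge_T _).mul hs).mono (by omega)
      have p2 : Pole (xx (Fin 2) R ^ m * HypMA_Y s g) (g + m + 1 : ℕ) :=
        Fin.forall_fin_two.2 ⟨e0 ▸ g0, e1 ▸ g0.neg⟩
      refine ⟨(u * (τ 0 + τ 1)) • xx (Fin 2) R ^ (g + m + 1) +
        (u * v * (τ 0 - τ 1)) • (xx (Fin 2) R ^ m * HypMA_Y s g),
        add_mem (Subalgebra.smul_mem _ (pow_mem hx _) _)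
          (Subalgebra.smul_mem _ (mul_mem (pow_mem hx _) hy) _),
        fun i => ((p1 i).smul _).add ((p2 i).smul _), Fin.forall_fin_two.2 ⟨fun _ => ?_, fun _ => ?_⟩⟩
      · rw [Chart_pc_add, Chart_pc_smul, Chart_pc_smul, c1, pc, e0, LS.cf_T_mul, sub_self]
        linear_combination τ 0 * hu + u * (τ 0 - τ 1) * hv
      · rw [Chart_pc_add, Chart_pc_smul, Chart_pc_smul, c1, pc, e1, LS.cf_neg, LS.cf_T_mul, sub_self]
        linear_combination τ 1 * hu - u * (τ 0 - τ 1) * hv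

theorem HypMA_mapY {R' : Type u} [CommRing R'] (φ : R →+* R') (s : LS R) (g : ℕ) :
    mapT φ (HypMA_Y s g) = HypMA_Y (LS.map φ s) g := by
  have e : LS.map φ (s * LS.T R (-(g + 1))) = LS.map φ s * LS.T R' (-(g + 1)) := by
    rw [map_mul, LS.map_T]
  funext i
  fin_cases i
  · exact e
  · exact (map_neg (LS.map φ) _).trans (congrArg Neg.neg e)

theorem HypMA_bc {R' : Type u} [CommRing R'] (φ : R →+* R') (s : LS R) (g : ℕ) :
    bc φ (HypMA_A s g) = HypMA_A (LS.map φ s) g := by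
  refine le_antisymm (Algebra.adjoin_le ?_) (Algebra.adjoin_le ?_)
  · rintro _ ⟨F, hF, rfl⟩
    change mapT φ F ∈ HypMA_A (LS.map φ s) g
    induction hF using Algebra.adjoin_induction with
    | mem z hz =>
      rcases hz with rfl | rfl
      · rw [mapT_xx]; exact Algebra.subset_adjoin (Or.inl rfl)
      · rw [HypMA_mapY]; exact Algebra.subset_adjoin (Or.inr rfl)
    | algebraMap r => rw [mapT_algebraMap]; exact Subalgebra.algebraMap_mem _ _
    | add a b _ _ ha hb => rw [map_add]; exact add_mem ha hb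
    | mul a b _ _ ha hb => rw [map_mul]; exact mul_mem ha hb
  · rintro _ (rfl | rfl)
    · rw [← mapT_xx φ]; exact Chart_mem_bc φ (Algebra.subset_adjoin (Or.inl rfl))
    · rw [← HypMA_mapY φ]; exact Chart_mem_bc φ (Algebra.subset_adjoin (Or.inr rfl))

theorem HypMA_map_aeval {R' : Type u} [CommRing R'] (φ : R →+* R') (f : R[X]) (t : LS R) :
    LS.map φ (aeval t f) = aeval (LS.map φ t) (f.map φ) := by
  induction f using Polynomial.induction_on' with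
  | add p q hp hq => rw [map_add, map_add, hp, hq, Polynomial.map_add, map_add]
  | monomial n a =>
    rw [Polynomial.map_monomial, aeval_monomial, aeval_monomial, map_mul, map_pow,
      LS.map_algebraMap]

end

section
variable {R K L : Type u} [CommRing R] [Field K] [Field L] [Algebra K L] [IsAlgClosed K]
  [Fact (IsFF K L)]

theorem HypMA_ex {ι : Type} [Fintype ι] [DecidableEq ι] (d : CD K L ι) (i : ι) {x y : L} {c : K}
    {f : K[X]} (hd : d.x = (x - algebraMap K L c)⁻¹) (hy : y ∈ (d.pl i).1) (e : y ^ 2 = aeval x f)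
    {s : LS K} (hs : s.Ge 0) (h0 : (d.pl i).val y = s.cf 0) (hu : 2 * s.cf 0 ≠ 0)
    (h : s ^ 2 = aeval (LS.T K 1) (f.comp (X + C c))) : d.ex i y = s := by
  have h1 := d.ex_x i
  rw [hd, map_inv₀, inv_eq_iff_eq_inv, CDA_T_inv, neg_neg, map_sub, AlgHom.commutes,
    sub_eq_iff_eq_add] at h1
  rw [d.val_eq i hy] at h0
  refine (HypMA_uniq hs ((d.mem_pl i y).1 hy) h0.symm hu.isUnit ?_).symm
  rw [h, ← map_pow, e, ← aeval_algHom_apply, h1, aeval_comp, map_add, aeval_X, aeval_C]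

theorem HypMA_exY (φ : R →+* K) (d : CD K L (Fin 2)) {x y : L} {c : R} {f : R[X]}
    (hd : d.x = (x - algebraMap K L (φ c))⁻¹) (hy : ∀ i, y ∈ (d.pl i).1)
    (e : y ^ 2 = aeval x (f.map φ)) {s : LS R} (hs : s.Ge 0) (h0 : (d.pl 0).val y = φ (s.cf 0))
    (h1 : (d.pl 1).val y = -φ (s.cf 0)) (hu : 2 * φ (s.cf 0) ≠ 0)
    (h : s ^ 2 = aeval (LS.T R 1) (f.comp (X + C c))) (g : ℕ) :
    d.exT (y * d.x ^ (g + 1)) = mapT φ (HypMA_Y s g) := by
  have hs' : (LS.map φ s).Ge 0 := fun m hm => (congrArg φ (hs m hm)).trans φ.map_zero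
  have h' : LS.map φ s ^ 2 = aeval (LS.T K 1) ((f.map φ).comp (X + C (φ c))) := by
    rw [← map_pow, h, HypMA_map_aeval, LS.map_T, map_comp, Polynomial.map_add, map_X, map_C]
  have e0 := HypMA_ex d 0 hd (hy 0) e hs' h0 hu h'
  have e1 := HypMA_ex d 1 hd (hy 1) e hs'.neg (h1.trans (LS.cf_neg (LS.map φ s) 0).symm)
    (by rw [LS.cf_neg, mul_neg]; exact neg_ne_zero.2 hu) ((neg_sq _).trans h')
  have e2 : LS.T K (-1) ^ (g + 1) = LS.T K (-(g + 1)) := by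
    rw [LS.T_pow, mul_neg_one, Nat.cast_succ]
  rw [HypMA_mapY]
  funext i
  rw [CD.exT_apply, map_mul, map_pow, d.ex_x, e2]
  fin_cases i
  · exact congrArg (· * _) e0
  · exact (congrArg (· * _) e1).trans (neg_mul _ _)

omit [IsAlgClosed K] [Fact (IsFF K L)] in
theorem HypMA_alg (φ : R →+* K) (d : CD K L (Fin 2)) {Y : L} {s : LS R} {g : ℕ}
    (h : d.exT Y = mapT φ (HypMA_Y s g)) :
    (Algebra.adjoin K {d.x, Y}).map d.exT = bc φ (HypMA_A s g) := by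
  rw [HypMA_bc, AlgHom.map_adjoin, Set.image_pair, d.exT_x, h, HypMA_mapY, HypMA_A]

theorem HypMA_fib (φ : R →+* K) {x y : L} {c : R} {f : R[X]} (H : IsHyp (f.map φ) x y)
    (h2 : (2 : K) ≠ 0) {g : ℕ} (hf : (f.map φ).natDegree = 2 * g + 1) (hsep : (f.map φ).Separable)
    {s : LS R} (hs : s.Ge 0) (hw : φ (s.cf 0) ≠ 0) (hc : s.cf 0 ^ 2 = f.eval c)
    (h : s ^ 2 = aeval (LS.T R 1) (f.comp (X + C c))) :
    ∃ d : CD K L (Fin 2), d.x = (x - algebraMap K L (φ c))⁻¹ ∧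
      d.exT (y * d.x ^ (g + 1)) = mapT φ (HypMA_Y s g) ∧ d.alg = bc φ (HypMA_A s g) := by
  obtain ⟨d, a1, a2, a3, a4, a5, a6⟩ := H.exists_chart h2 hf hsep (c := φ c) hw
    (by rw [eval_map_apply, ← hc, map_pow])
  have e := HypMA_exY φ d a1 (Fin.forall_fin_two.2 ⟨a2, a3⟩) H.eqn hs a4 a5 (mul_ne_zero h2 hw) h g
  exact ⟨d, a1, e, by rw [CD.alg, HypMA_adjoin a6, HypMA_alg φ d e]⟩

end

section
variable {κ : Type u} [Field κ] [IsAlgClosed κ]

theorem HypMA_sqrtO (a : HO κ) : ∃ b : HO κ, b ^ 2 = a := by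
  obtain ⟨b, hb⟩ := IsAlgClosed.exists_pow_nat_eq (a : HF κ) two_pos
  have h : b ∈ HO κ := by
    rcases (HO κ).mem_or_inv_mem b with h | h
    · exact h
    · have e : b = a * b⁻¹ := by
        rw [← hb, sq, mul_assoc]
        by_cases h0 : b = 0
        · rw [h0, zero_mul]
        · rw [mul_inv_cancel₀ h0, mul_one]
      rw [e]
      exact mul_mem a.2 h
  exact ⟨⟨b, h⟩, Subtype.ext hb⟩

omit [IsAlgClosed κ] in
theorem HypMA_red_cO (c : κ) : red κ (cO c) = c := (hres : HO κ →ₐ[κ] κ).commutes c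

theorem HypMA_model (h2 : (2 : κ) ≠ 0) {f : (HO κ)[X]} {g : ℕ} (hf : f.natDegree ≤ 2 * g + 2)
    {c : κ} (hc : (f.map (red κ)).eval c ≠ 0) : ∃ s : LS (HO κ), s.Ge 0 ∧ red κ (s.cf 0) ≠ 0 ∧
      s.cf 0 ^ 2 = f.eval (cO c) ∧ s ^ 2 = aeval (LS.T _ 1) (f.comp (X + C (cO c))) ∧
      IsChart (HypMA_J g) (HypMA_A s g) := by
  obtain ⟨w, hw⟩ := HypMA_sqrtO (f.eval (cO c))
  have h0 : red κ w ≠ 0 := fun e => hc (by
    rw [← HypMA_red_cO c, eval_map_apply, ← hw, map_pow, e, zero_pow two_ne_zero])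
  have h2' : IsUnit (2 : HO κ) := Model_unit.2 (by rwa [map_ofNat])
  obtain ⟨s, a1, a2, a3⟩ := HypMA_sqrt h2' (HypMA_ge1 (f.comp (X + C (cO c)))).1
    (Model_unit.2 h0) (by
      rw [(HypMA_ge1 _).2, coeff_zero_eq_eval_zero, eval_comp, hw]
      simp)
  refine ⟨s, a1, a2 ▸ h0, a2 ▸ hw, a3, HypMA_chart h2' a1 (a2 ▸ Model_unit.2 h0) ?_ a3⟩
  refine natDegree_comp_le.trans ?_
  rw [natDegree_X_add_C, mul_one]
  exact hf

theorem HypMA_two {p : ℕ} [Fact p.Prime] (K : Type u) [Field K] [CharP K p] (hp : p ≠ 2) :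
    (2 : K) ≠ 0 := fun h => hp ((Nat.prime_dvd_prime_iff_eq Fact.out Nat.prime_two).1
  ((CharP.cast_eq_zero_iff K p 2).1 (by exact_mod_cast h)))

theorem HypMA_deg {R : Type u} [CommRing R] [Nontrivial R] (F : Fin 5 → R) :
    (fz F).natDegree = 5 := by
  rw [fz, natDegree_finsetProd_X_sub_C_eq_card]
  rfl

theorem HypMA_ty1 {p : ℕ} [Fact p.Prime] [CharP κ p] (hp : p ≠ 2) {F : Fin 5 → HF κ}
    {β : Fin 5 → κ} (h : Ty1 F β) : Comb.Sp κ (hyp F).sm (hyp β).sm := by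
  classical
  obtain ⟨hβ, F', hF, hr⟩ := h
  obtain rfl : F = fun i => inc κ (F' i) := funext hF
  obtain rfl : β = fun i => red κ (F' i) := funext fun i => (hr i).symm
  have hFi : Function.Injective fun i => inc κ (F' i) := fun i j e =>
    hβ (congrArg (red κ) (Model_inc_inj e))
  obtain ⟨c, hc⟩ := Infinite.exists_notMem_finset (Finset.univ.image fun i => red κ (F' i))
  have h2 := HypMA_two κ hp
  obtain ⟨s, a1, a2, a3, a4, a5⟩ := HypMA_model h2 (f := fz F') (g := 2)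
    (by rw [HypMA_deg]; omega) (c := c) (by
      rw [map_fz, fz, eval_prod]
      refine Finset.prod_ne_zero_iff.2 fun i _ e => hc (Finset.mem_image.2 ⟨i, Finset.mem_univ _, ?_⟩)
      rw [eval_sub, eval_X, eval_C, sub_eq_zero] at e
      exact e.symm)
  obtain ⟨x, y, H⟩ := exists_hyp fun i => inc κ (F' i)
  obtain ⟨x', y', H'⟩ := exists_hyp fun i => red κ (F' i)
  obtain ⟨d, -, -, hd⟩ := HypMA_fib (inc κ) (map_fz (inc κ) F' ▸ H) (HypMA_two _ hp) (g := 2)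
    (by rw [map_fz, HypMA_deg]) (by rw [map_fz]; exact separable_prod_X_sub_C_iff.2 hFi) a1
    (fun e => a2 (by rw [Model_inc_inj (e.trans (map_zero _).symm), map_zero])) a3 a4
  obtain ⟨d', -, -, hd'⟩ := HypMA_fib (red κ) (map_fz (red κ) F' ▸ H') h2 (g := 2)
    (by rw [map_fz, HypMA_deg]) (by rw [map_fz]; exact separable_prod_X_sub_C_iff.2 hβ) a1 a2 a3 a4
  obtain ⟨c', hc', -⟩ := (FFd.has_sm (C := hyp fun i => red κ (F' i))).2 ⟨d', hd', a5.bc _⟩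
  exact IsMod.sp' (D := hyp fun i => inc κ (F' i)) ⟨a5, hd, hc'⟩

end

end PR0
end
end

-- merged part: Pool.Agent.Work.MP_da2620_ag.MgC
section
-- merged part: Pool.Agent.Work.MP_da2620_ag.HypMB
section
/-!
# The ring `O[ξ, η, e]` with `η² = G(ξ)`, `e H(ξ) = 1`, and the cusp on a Legendre curve
-/

namespace PR0

open Polynomial

universe u

section
variable {O L S : Type u} [CommRing O] [CommRing L] [CommRing S]

/-- The ring generated by the constants and three elements. -/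
def HypMB_B (φ : O →+* L) (ξ η e : L) : Subring L := Subring.closure (Set.range φ ∪ {ξ, η, e})

/-- The ring is generated by the constants and three elements. -/
def HypMB_Gen (φ : O →+* L) (ξ η e : L) : Prop := ∀ p : L → Prop, (∀ o, p (φ o)) → p ξ → p η → p e →
  (∀ a b, p a → p b → p (a + b)) → (∀ a b, p a → p b → p (a * b)) → ∀ f, p f

theorem HypMB_c (φ : O →+* L) (ξ η e : L) (o : O) : φ o ∈ HypMB_B φ ξ η e :=
  Subring.subset_closure (Or.inl ⟨o, rfl⟩)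
theorem HypMB_x (φ : O →+* L) (ξ η e : L) : ξ ∈ HypMB_B φ ξ η e :=
  Subring.subset_closure (Or.inr (Or.inl rfl))
theorem HypMB_y (φ : O →+* L) (ξ η e : L) : η ∈ HypMB_B φ ξ η e :=
  Subring.subset_closure (Or.inr (Or.inr (Or.inl rfl)))
theorem HypMB_e (φ : O →+* L) (ξ η e : L) : e ∈ HypMB_B φ ξ η e :=
  Subring.subset_closure (Or.inr (Or.inr (Or.inr rfl)))

/-- The constants. -/
def HypMB_j (φ : O →+* L) (ξ η e : L) : O →+* HypMB_B φ ξ η e :=
  φ.codRestrict _ (HypMB_c φ ξ η e)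

theorem HypMB_gen (φ : O →+* L) (ξ η e : L) : HypMB_Gen (HypMB_j φ ξ η e) ⟨ξ, HypMB_x φ ξ η e⟩
    ⟨η, HypMB_y φ ξ η e⟩ ⟨e, HypMB_e φ ξ η e⟩ := by
  rintro p hc hx hy he ha hm ⟨f, hf⟩
  induction hf using Subring.closure_induction with
  | mem z hz =>
    rcases hz with ⟨o, rfl⟩ | rfl | rfl | rfl
    exacts [hc o, hx, hy, he]
  | zero =>
    have := hc 0
    rwa [map_zero] at this
  | one =>
    have := hc 1
    rwa [map_one] at this
  | add a b _ _ h h' => exact ha _ _ h h'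
  | neg a _ h =>
    have := hm _ _ (hc (-1)) h
    rwa [map_neg, map_one, neg_one_mul] at this
  | mul a b _ _ h h' => exact hm _ _ h h'

theorem HypMB_eval (φ : O →+* L) (ξ η e : L) (A : O[X]) :
    ((A.eval₂ (HypMB_j φ ξ η e) ⟨ξ, HypMB_x φ ξ η e⟩ : HypMB_B φ ξ η e) : L) = A.eval₂ φ ξ :=
  hom_eval₂ A (HypMB_j φ ξ η e) (HypMB_B φ ξ η e).subtype _

theorem HypMB_nf {φ : O →+* L} {ξ η e : L} (h : HypMB_Gen φ ξ η e) {G H : O[X]}
    (hη : η ^ 2 = G.eval₂ φ ξ) (he : e * H.eval₂ φ ξ = 1) (f : L) :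
    ∃ (N : ℕ) (A B : O[X]), f = e ^ N * (A.eval₂ φ ξ + B.eval₂ φ ξ * η) := by
  refine h (fun f => ∃ (N : ℕ) (A B : O[X]), f = e ^ N * (A.eval₂ φ ξ + B.eval₂ φ ξ * η))
    (fun o => ⟨0, C o, 0, by simp⟩) ⟨0, X, 0, by simp⟩ ⟨0, 0, 1, by simp⟩ ⟨1, 1, 0, by simp⟩ ?_ ?_ f
  · rintro _ _ ⟨N, A, B, rfl⟩ ⟨N', A', B', rfl⟩
    refine ⟨N + N', A * H ^ N' + A' * H ^ N, B * H ^ N' + B' * H ^ N, ?_⟩
    have h1 : ∀ M : ℕ, e ^ M * H.eval₂ φ ξ ^ M = 1 := fun M => by rw [← mul_pow, he, one_pow]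
    simp only [eval₂_add, eval₂_mul, eval₂_pow, pow_add]
    linear_combination (-(e ^ N * (A.eval₂ φ ξ + B.eval₂ φ ξ * η))) * h1 N' -
      e ^ N' * (A'.eval₂ φ ξ + B'.eval₂ φ ξ * η) * h1 N
  · rintro _ _ ⟨N, A, B, rfl⟩ ⟨N', A', B', rfl⟩
    refine ⟨N + N', A * A' + B * B' * G, A * B' + B * A', ?_⟩
    simp only [eval₂_add, eval₂_mul, pow_add]
    linear_combination e ^ N * e ^ N' * B.eval₂ φ ξ * B'.eval₂ φ ξ * hη

theorem HypMB_hom {φ : O →+* L} {ξ η e : L} (h : HypMB_Gen φ ξ η e) {G H : O[X]}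
    (hη : η ^ 2 = G.eval₂ φ ξ) (he : e * H.eval₂ φ ξ = 1)
    (ind : ∀ A B : O[X], A.eval₂ φ ξ + B.eval₂ φ ξ * η = 0 → A = 0 ∧ B = 0)
    (ψ : O →+* S) {ξ' η' e' : S} (hη' : η' ^ 2 = G.eval₂ ψ ξ') (he' : e' * H.eval₂ ψ ξ' = 1) :
    ∃ ρ : L →+* S, (∀ o, ρ (φ o) = ψ o) ∧ ρ ξ = ξ' ∧ ρ η = η' ∧ ρ e = e' := by
  let Γ := HypMB_B (φ.prod ψ) (ξ, ξ') (η, η') (e, e')
  let π : Γ →+* L := (RingHom.fst L S).comp Γ.subtype
  have ev : ∀ A : O[X], A.eval₂ (φ.prod ψ) (ξ, ξ') = (A.eval₂ φ ξ, A.eval₂ ψ ξ') := fun A =>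
    Prod.ext (hom_eval₂ A (φ.prod ψ) (RingHom.fst L S) _)
      (hom_eval₂ A (φ.prod ψ) (RingHom.snd L S) _)
  have hi : Function.Injective π := by
    refine (injective_iff_map_eq_zero π).2 fun γ hγ => ?_
    obtain ⟨N, A, B, h1⟩ := HypMB_nf (HypMB_gen (φ.prod ψ) (ξ, ξ') (η, η') (e, e')) (G := G) (H := H)
      (Subtype.ext (by rw [HypMB_eval, ev]; exact Prod.ext hη hη'))
      (Subtype.ext (by rw [Subring.coe_mul, HypMB_eval, ev]; exact Prod.ext he he')) γ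
    have h2 := congrArg π h1
    rw [hγ, map_mul, map_pow, map_add, map_mul, hom_eval₂, hom_eval₂] at h2
    have h3 : A.eval₂ φ ξ + B.eval₂ φ ξ * η = 0 :=
      ((IsUnit.of_mul_eq_one _ he).pow N).mul_right_eq_zero.1 h2.symm
    obtain ⟨rfl, rfl⟩ := ind A B h3
    rw [h1, eval₂_zero, zero_mul, add_zero, mul_zero]
  have hs : Function.Surjective π := h (fun f => ∃ γ, π γ = f)
    (fun o => ⟨⟨_, HypMB_c _ _ _ _ o⟩, rfl⟩) ⟨⟨_, HypMB_x _ _ _ _⟩, rfl⟩ ⟨⟨_, HypMB_y _ _ _ _⟩, rfl⟩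
    ⟨⟨_, HypMB_e _ _ _ _⟩, rfl⟩ (fun _ _ ⟨a, ha⟩ ⟨b, hb⟩ => ⟨a + b, by rw [map_add, ha, hb]⟩)
    fun _ _ ⟨a, ha⟩ ⟨b, hb⟩ => ⟨a * b, by rw [map_mul, ha, hb]⟩
  let θ := RingEquiv.ofBijective π ⟨hi, hs⟩
  have key : ∀ γ : Γ, ((RingHom.snd L S).comp Γ.subtype).comp θ.symm.toRingHom (π γ) = γ.1.2 :=
    fun γ => congrArg (fun γ : Γ => γ.1.2) (θ.symm_apply_apply γ)
  exact ⟨_, fun o => key ⟨_, HypMB_c _ _ _ _ o⟩, key ⟨_, HypMB_x _ _ _ _⟩, key ⟨_, HypMB_y _ _ _ _⟩,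
    key ⟨_, HypMB_e _ _ _ _⟩⟩

theorem HypMB_ker {φ : O →+* L} {ξ η e : L} (h : HypMB_Gen φ ξ η e) {G : O[X]}
    (hη : η ^ 2 = G.eval₂ φ ξ) (σ : L →+* O) (hσ : ∀ o, σ (φ o) = o) {z : L}
    (h1 : z ∣ ξ - φ (σ ξ)) (h2 : z ∣ e - φ (σ e)) (f : L) :
    z ∣ (η + φ (σ η)) * (f - φ (σ f)) := by
  refine h (fun f => z ∣ (η + φ (σ η)) * (f - φ (σ f))) (fun o => ?_) (h1.mul_left _) ?_
    (h2.mul_left _) (fun a b ha hb => ?_) (fun a b ha hb => ?_) f
  · rw [hσ, sub_self, mul_zero]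
    exact dvd_zero _
  · have h3 : φ (σ η) ^ 2 = G.eval₂ φ (φ (σ ξ)) := by
      rw [← map_pow, ← map_pow, hη, ← RingHom.comp_apply, hom_eval₂]
      congr 1
      exact RingHom.ext fun o => congrArg φ (hσ o)
    rw [← sq_sub_sq, hη, h3, eval₂_eq_eval_map, eval₂_eq_eval_map]
    exact h1.trans (sub_dvd_eval_sub _ _ _)
  · rw [map_add, map_add, add_sub_add_comm, mul_add]
    exact dvd_add ha hb
  · have e1 : (η + φ (σ η)) * (a * b - φ (σ (a * b))) = (η + φ (σ η)) * (a - φ (σ a)) * b +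
        φ (σ a) * ((η + φ (σ η)) * (b - φ (σ b))) := by
      rw [map_mul, map_mul]; ring
    rw [e1]
    exact dvd_add (ha.mul_right _) (hb.mul_left _)

end

section
variable {K L : Type u} [Field K] [Field L] [Algebra K L]

theorem HypMB_id {x : L} {c r α : K} (hα : α * (r - c) = 1) (hx : x - algebraMap K L c ≠ 0) :
    (x - algebraMap K L c)⁻¹ - algebraMap K L α =
      algebraMap K L (-α) * ((x - algebraMap K L c)⁻¹ * (x - algebraMap K L r)) := by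
  have h1 := congrArg (algebraMap K L) hα
  rw [map_mul, map_sub, map_one] at h1
  rw [map_neg]
  linear_combination (-(x - algebraMap K L c)⁻¹) * h1 + algebraMap K L α * inv_mul_cancel₀ hx

theorem HypMB_eqn {l : K} {X Y : L} (h : IsWei (leg l) X Y) :
    Y ^ 2 = X * (X - 1) * (X - algebraMap K L l) := by
  have := h.eqn
  simp only [leg, zero_mul, add_zero, map_zero, Algebra.smul_def, map_neg, map_add,
    map_one] at this
  linear_combination this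

theorem HypMB_fib {l c w : K} (h : w ^ 2 = c * (c - 1) * (c - l)) :
    (leg l).toAffine.polynomial.map (evalRingHom c) =
      (X - C (![w, -w] 0)) * (X - C (![w, -w] 1)) := by
  have h1 := congrArg (C : K →+* K[X]) h
  simp only [map_pow, map_mul, map_sub, map_one] at h1
  simp only [WeierstrassCurve.Affine.polynomial, leg, Polynomial.map_sub, Polynomial.map_add,
    Polynomial.map_mul, Polynomial.map_pow, map_X, map_C, coe_evalRingHom,
    eval_C, eval_X, map_add, map_mul, map_pow, map_neg, map_one, map_zero,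
    Matrix.cons_val_zero, Matrix.cons_val_one, Polynomial.map_neg, Polynomial.map_one,
    Polynomial.map_zero]
  linear_combination h1

variable [IsAlgClosed K] [Fact (IsFF K L)]

theorem HypMB_cancel (P : Place K L) {a v : K} (ha : a ≠ 0) {f : L}
    (h : algebraMap K L a * f ∈ P.1) (hv : P.val (algebraMap K L a * f) = a * v) :
    f ∈ P.1 ∧ P.val f = v := by
  have h1 : f ∈ P.1 := by
    have := mul_mem (P.2.2 a⁻¹) h
    rwa [← mul_assoc, ← map_mul, inv_mul_cancel₀ ha, map_one, one_mul] at this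
  rw [Place.val_mul (P.2.2 a) h1, Place.val_const] at hv
  exact ⟨h1, mul_left_cancel₀ ha hv⟩

theorem HypMB_not (Q : Place K L) {x : L} {c r α : K} (hα : α * (r - c) = 1)
    (hx : x - algebraMap K L c ≠ 0) (hr : x - algebraMap K L r ≠ 0)
    (he : (x - algebraMap K L c)⁻¹ ∈ Q.1) (hv : Q.val (x - algebraMap K L c)⁻¹ = α) :
    (x - algebraMap K L r)⁻¹ ∉ Q.1 := fun h => by
  have h0 : -α ≠ 0 := neg_ne_zero.2 (left_ne_zero_of_mul_eq_one hα)
  have h1 := (Place.ge_sub_val he).mul (Q.mem_iff.1 h)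
  rw [hv, HypMB_id hα hx, mul_assoc, mul_inv_cancel_right₀ hr, add_zero,
    ← Place.val_eq_zero (mul_mem (Q.2.2 _) he), Place.val_mul (Q.2.2 _) he, Place.val_const,
    hv] at h1
  exact mul_ne_zero h0 (neg_ne_zero.1 h0) h1

theorem HypMB_pl (P : Place K L) {x : L} {c r α : K} (hα : α * (r - c) = 1)
    (hr : x - algebraMap K L r ≠ 0) (hm : 1 ≤ P.ord (x - algebraMap K L r)) :
    x ∈ P.1 ∧ P.val x = r ∧ (x - algebraMap K L c)⁻¹ ≠ 0 ∧ P.ord (x - algebraMap K L c)⁻¹ = 0 ∧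
      P.val (x - algebraMap K L c)⁻¹ = α ∧ (x - algebraMap K L c)⁻¹ - algebraMap K L α ≠ 0 ∧
      P.ord ((x - algebraMap K L c)⁻¹ - algebraMap K L α) = P.ord (x - algebraMap K L r) := by
  have h0 : -α ≠ 0 := neg_ne_zero.2 (left_ne_zero_of_mul_eq_one hα)
  have h1 : x ∈ P.1 := by
    have := add_mem (P.mem_iff.2 (Or.inr (zero_le_one.trans hm))) (P.2.2 r)
    rwa [sub_add_cancel] at this
  have h2 : P.val (x - algebraMap K L c) = r - c :=
    Place.val_eq (Or.inr (by rwa [map_sub, sub_sub_sub_cancel_right]))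
  obtain ⟨h3, h4⟩ := BC_unit (sub_mem h1 (P.2.2 c)) (h2 ▸ right_ne_zero_of_mul_eq_one hα)
  have h5 : P.ord (x - algebraMap K L c)⁻¹ = 0 := by rw [P.ord_inv h3, h4, neg_zero]
  have h6 : P.ord ((x - algebraMap K L c)⁻¹ - algebraMap K L α) = P.ord (x - algebraMap K L r) := by
    rw [HypMB_id hα h3, P.ord_mul ((_root_.map_ne_zero _).2 h0) (mul_ne_zero (inv_ne_zero h3) hr),
      P.ord_const h0, P.ord_mul (inv_ne_zero h3) hr, h5, zero_add, zero_add]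
  refine ⟨h1, Place.val_eq (Or.inr hm), inv_ne_zero h3, h5, Place.val_eq (Or.inr (h6 ▸ hm)), ?_, h6⟩
  rw [HypMB_id hα h3]
  exact mul_ne_zero ((_root_.map_ne_zero _).2 h0) (mul_ne_zero (inv_ne_zero h3) hr)

theorem HypMB_cusp_of {q : Place K L} {f : L} (h : q.Ge f 2) : f ∈ cusp q := by
  have h0 : q.val f = 0 := Place.val_eq (by rw [map_zero, sub_zero]; exact h.mono (by omega))
  exact ⟨q.mem_iff.2 (h.mono (by omega)), by rwa [h0, map_zero, sub_zero]⟩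

/-- the cusp at the point `(0, 0)` of a Legendre curve -/
theorem HypMB_cusp (h2 : (2 : K) ≠ 0) {n : K} (h0 : n ≠ 0) (h1 : n ≠ 1) {X Y : L}
    (h : IsWei (leg n) X Y) {c w : K} (hw : w ≠ 0) (hc : w ^ 2 = c * (c - 1) * (c - n)) :
    ∃ (d : CD K L (Fin 2)) (q : Place K L), d.x = (X - algebraMap K L c)⁻¹ ∧
      (∀ i, X * Y ∈ (d.pl i).1) ∧ (d.pl 0).val (X * Y) = c * w ∧ (d.pl 1).val (X * Y) = -(c * w) ∧
      d.reg ⊓ cusp q = Algebra.adjoin K {d.x, X * Y * d.x ^ 3} ∧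
      poles K (algebraMap K L n / X) = {q} ∧ q.val d.x = -c⁻¹ ∧ d.x ∈ cusp q ∧
      ¬ q.Ge (d.x - algebraMap K L (q.val d.x)) 3 ∧ X * Y * d.x ^ 3 ≠ 0 ∧
      q.ord (X * Y * d.x ^ 3) = 3 ∧
      ∀ Q : Place K L, Q ≠ q → d.x ∈ Q.1 → Q.val d.x ≠ -c⁻¹ := by
  have hc0 : c ≠ 0 := fun e => hw (pow_eq_zero_iff two_ne_zero |>.1 (by rw [hc, e]; ring))
  obtain ⟨d, a1, a2, -, -, a3⟩ := h.exists_chart (y := ![w, -w])
    (fun e => mul_ne_zero h2 hw (by
      have : w = -w := e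
      linear_combination this)) (HypMB_fib hc) 0
  rw [map_zero, zero_add] at a1
  replace a3 := a3 (leg_Δ h2 h0 h1)
  obtain ⟨-, -, hX, hY, -⟩ := h.exists_inf
  obtain ⟨q, b1, -, -, b2, b3⟩ := (h.transl h0).exists_inf
  have hn : algebraMap K L n ≠ 0 := (_root_.map_ne_zero _).2 h0
  rw [BC_ord_div q hn hX, q.ord_const h0] at b2
  rw [BC_ord_div q (mul_ne_zero hn hY) (pow_ne_zero _ hX), q.ord_mul hn hY, q.ord_const h0,
    q.ord_pow hX] at b3
  have oX : q.ord X = 2 := by omega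
  have oY : q.ord Y = 1 := by omega
  have hα : -c⁻¹ * (0 - c) = 1 := by rw [zero_sub, neg_mul_neg, inv_mul_cancel₀ hc0]
  have hX' : X - algebraMap K L 0 ≠ 0 := by rwa [map_zero, sub_zero]
  obtain ⟨-, -, c1, c2, c3, c4, c5⟩ := HypMB_pl q hα hX' (by rw [map_zero, sub_zero]; omega)
  rw [map_zero, sub_zero, oX] at c5
  have c0 := inv_ne_zero c1
  rw [inv_inv] at c0
  have c6 := HypMB_id hα c0
  rw [map_zero, sub_zero, neg_neg] at c6
  rw [← a1] at c1 c2 c3 c4 c5 c6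
  have hxq : d.x ∈ cusp q := ⟨q.mem_iff.2 (Or.inr c2.ge), Or.inr (c3 ▸ c5.ge)⟩
  have hne : X * Y * d.x ^ 3 ≠ 0 := mul_ne_zero (mul_ne_zero hX hY) (pow_ne_zero _ c1)
  have ho : q.ord (X * Y * d.x ^ 3) = 3 := by
    rw [q.ord_mul (mul_ne_zero hX hY) (pow_ne_zero _ c1), q.ord_mul hX hY, q.ord_pow c1, c2, oX, oY]
    rfl
  have hle : Algebra.adjoin K {d.x, X * Y * d.x ^ 3} ≤ cusp q := by
    refine Algebra.adjoin_le ?_
    rintro _ (rfl | rfl)
    · exact hxq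
    · exact HypMB_cusp_of (Or.inr (by omega))
  refine ⟨d, q, a1, fun i => mul_mem (a2 i).1 (a2 i).2.1, ?_, ?_, le_antisymm ?_ (le_inf ?_ hle), b1,
    c3, hxq, ?_, hne, ho, fun Q hQ hx hv => ?_⟩
  · rw [Place.val_mul (a2 0).1 (a2 0).2.1, (a2 0).2.2.1, (a2 0).2.2.2]
    rfl
  · rw [Place.val_mul (a2 1).1 (a2 1).2.1, (a2 1).2.2.1, (a2 1).2.2.2]
    exact mul_neg _ _
  · rintro a ⟨ha, ha'⟩
    obtain ⟨A, B, rfl⟩ := (h.mem_weiA c).1 (a3 ▸ ha)
    rw [← a1] at ha' ⊢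
    obtain ⟨B₁, hB⟩ := X_sub_C_dvd_sub_C_eval (a := -c⁻¹) (p := B)
    have hB' := congrArg (aeval d.x) hB
    rw [map_sub, map_mul, map_sub, aeval_X, aeval_C, aeval_C, c6] at hB'
    have hx : d.x ∈ Algebra.adjoin K {d.x, X * Y * d.x ^ 3} := Algebra.subset_adjoin (Or.inl rfl)
    have hm : aeval d.x A + algebraMap K L c⁻¹ * aeval d.x B₁ * (X * Y * d.x ^ 3) ∈
        Algebra.adjoin K {d.x, X * Y * d.x ^ 3} :=
      add_mem (HypMA_aeval_mem hx A) (mul_mem (mul_mem (Subalgebra.algebraMap_mem _ _)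
        (HypMA_aeval_mem hx B₁)) (Algebra.subset_adjoin (Or.inr rfl)))
    have e : aeval d.x A + aeval d.x B * (Y * d.x ^ 2) =
        (aeval d.x A + algebraMap K L c⁻¹ * aeval d.x B₁ * (X * Y * d.x ^ 3)) +
          algebraMap K L (B.eval (-c⁻¹)) * (Y * d.x ^ 2) := by
      linear_combination Y * d.x ^ 2 * hB'
    have h3 := sub_mem ha' (hle hm)
    rw [e, add_sub_cancel_left] at h3
    rw [e]
    by_cases hβ : B.eval (-c⁻¹) = 0
    · rwa [hβ, map_zero, zero_mul, add_zero]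
    · exfalso
      have n1 : Y * d.x ^ 2 ≠ 0 := mul_ne_zero hY (pow_ne_zero _ c1)
      have n2 := (_root_.map_ne_zero (algebraMap K L)).2 hβ
      have o1 : q.ord (algebraMap K L (B.eval (-c⁻¹)) * (Y * d.x ^ 2)) = 1 := by
        rw [q.ord_mul n2 n1, q.ord_const hβ, q.ord_mul hY (pow_ne_zero _ c1), q.ord_pow c1, c2, oY]
        rfl
      have h4 := h3.2
      rw [(Place.val_eq_zero h3.1).2 (Or.inr o1.ge), map_zero, sub_zero] at h4
      exact h4.elim (mul_ne_zero n2 n1) (by omega)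
  · refine Algebra.adjoin_le ?_
    rintro _ (rfl | rfl)
    · exact d.x_mem
    · have e : X * Y * d.x ^ 3 = Y * d.x ^ 2 + algebraMap K L c * (Y * d.x ^ 3) := by
        rw [a1]
        linear_combination Y * (X - algebraMap K L c)⁻¹ ^ 2 * mul_inv_cancel₀ c0
      change _ ∈ d.reg
      rw [e, ← a3, a1]
      exact add_mem (WeiC_f_mem X Y c 0)
        (mul_mem (Subalgebra.algebraMap_mem _ _) (WeiC_f_mem X Y c 1))
  · rw [c3]
    exact fun h3 => h3.elim c4 (by omega)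
  · rw [a1] at hx hv
    refine HypMB_not Q hα c0 hX' hx hv ?_
    have h3 : algebraMap K L n / X ∈ Q.1 := by
      by_contra h3
      exact hQ (b1.subset h3)
    have h4 := mul_mem (Q.2.2 n⁻¹) h3
    rw [map_zero, sub_zero]
    rwa [map_inv₀, div_eq_mul_inv, inv_mul_cancel_left₀ hn] at h4

end

end PR0
end

-- merged part: Pool.Agent.Work.MP_da2620_ag.HypMC
section
/-!
# The tail of a genus two curve of type two
-/

namespace PR0

open Polynomial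

universe u

theorem HypMC_f {O S : Type u} [CommRing O] [CommRing S] (ε l n : O) (ψ : O →+* S) (t : S) :
    (fz ![0, ε, ε * l, 1, n]).eval₂ ψ t =
      t * (t - ψ ε) * (t - ψ ε * ψ l) * (t - 1) * (t - ψ n) := by
  simp [fz, Fin.prod_univ_five, eval₂_mul, eval₂_sub]

/-- The rescaled quintic. -/
noncomputable def HypMC_G {O : Type u} [CommRing O] (ε l ν : O) : O[X] :=
  X * (X - 1) * (X - C l) * (C ε * X - 1) * (C (ν ^ 2 * ε) * X - 1)

theorem HypMC_evG {O S : Type u} [CommRing O] [CommRing S] (ε l ν : O) (ψ : O →+* S) (t : S) :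
    (HypMC_G ε l ν).eval₂ ψ t =
      t * (t - 1) * (t - ψ l) * (ψ ε * t - 1) * (ψ ν ^ 2 * ψ ε * t - 1) := by
  simp [HypMC_G, eval₂_mul, eval₂_sub, eval₂_pow]

theorem HypMC_evH {O S : Type u} [CommRing O] [CommRing S] (ε c : O) (ψ : O →+* S) (t : S) :
    (C ε * X - C c).eval₂ ψ t = ψ ε * t - ψ c := by
  simp [eval₂_mul, eval₂_sub]

theorem HypMC_avoid {κ : Type u} [Field κ] [IsAlgClosed κ] (l : κ) :
    ∃ c : κ, c ≠ 0 ∧ c * (c - 1) * (c - l) ≠ 0 := by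
  classical
  obtain ⟨c, hc⟩ := Infinite.exists_notMem_finset ({0, 1, l} : Finset κ)
  simp only [Finset.mem_insert, Finset.mem_singleton, not_or] at hc
  exact ⟨c, hc.1, mul_ne_zero (mul_ne_zero hc.1 (sub_ne_zero.2 hc.2.1)) (sub_ne_zero.2 hc.2.2)⟩

theorem HypMC_indep {O K L : Type u} [CommRing O] [Field K] [Field L] [Algebra K L] {ι : O →+* K}
    (hι : Function.Injective ι) {f : K[X]} (hf : Odd f.natDegree) {x y ξ η : L} (h : IsHyp f x y)
    {a b : K} (ha : a ≠ 0) (hb : b ≠ 0) (hx : x = algebraMap K L a * ξ)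
    (hy : y = algebraMap K L b * η) (A B : O[X])
    (e : A.eval₂ ((algebraMap K L).comp ι) ξ + B.eval₂ ((algebraMap K L).comp ι) ξ * η = 0) :
    A = 0 ∧ B = 0 := by
  have key : ∀ P : O[X], aeval x ((P.map ι).comp (C a⁻¹ * X)) =
      P.eval₂ ((algebraMap K L).comp ι) ξ := fun P => by
    rw [aeval_comp, map_mul, aeval_C, aeval_X, hx, ← mul_assoc, ← map_mul, inv_mul_cancel₀ ha,
      map_one, one_mul, aeval_def, eval₂_map]
  have key2 : ∀ P : O[X], (P.map ι).comp (C a⁻¹ * X) = 0 → P = 0 := fun P hP => by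
    rwa [comp_C_mul_X_eq_zero_iff (mem_nonZeroDivisors_of_ne_zero (inv_ne_zero ha)),
      Polynomial.map_eq_zero_iff hι] at hP
  obtain ⟨h1, h2⟩ := h.indep hf (A := C b * (A.map ι).comp (C a⁻¹ * X))
    (B := (B.map ι).comp (C a⁻¹ * X)) (by
      rw [map_mul, aeval_C, key, key, hy]
      linear_combination algebraMap K L b * e)
  exact ⟨key2 A ((mul_eq_zero.1 h1).resolve_left (C_ne_zero.2 hb)), key2 B h2⟩

section
variable {κ : Type u} [Field κ] [IsAlgClosed κ] {L L' : Type u} [Field L] [Algebra (HF κ) L]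
  [Fact (IsFF (HF κ) L)] [Field L'] [Algebra κ L'] [Fact (IsFF κ L')]

theorem HypMC_mem {s : LS (HO κ)} {g : ℕ} {d : CD (HF κ) L (Fin 2)} {d' : CD κ L' (Fin 2)}
    {q : Place κ L'} {B : Subring L} {S : Type u} [Field S] [Algebra κ S] (ρ : B →+* S)
    (hc : ∀ o, ∃ h : oL κ L o ∈ B, ρ ⟨_, h⟩ = algebraMap κ S (red κ o))
    (hx : ∃ h : d.x ∈ B, ρ ⟨_, h⟩ = algebraMap κ S (q.val d'.x)) (hx' : d'.x ∈ q.1)
    {y : L} {y' : L'} (hy : ∃ h : y ∈ B, ρ ⟨_, h⟩ = algebraMap κ S (q.val y')) (hy' : y' ∈ q.1)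
    (e : d.exT y = mapT (inc κ) (HypMA_Y s g)) (e' : d'.exT y' = mapT (red κ) (HypMA_Y s g))
    (f : L) (f₀ : L') (h : RdC (HypMA_A s g) d d' f f₀) :
    ∃ hf : f ∈ B, ρ ⟨f, hf⟩ = algebraMap κ _ (q.val f₀) := by
  obtain ⟨F, hF, h1, h2⟩ := h
  suffices key : ∃ (f : B) (f₀ : L'), f₀ ∈ q.1 ∧ mapT (inc κ) F = d.exT f ∧
      mapT (red κ) F = d'.exT f₀ ∧ ρ f = algebraMap κ _ (q.val f₀) by
    obtain ⟨a, a₀, -, h3, h4, h5⟩ := key
    obtain rfl : f = a := d.exT_injective (h1.symm.trans h3)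
    obtain rfl : f₀ = a₀ := d'.exT_injective (h2.symm.trans h4)
    exact ⟨a.2, h5⟩
  clear h1 h2
  induction hF using Algebra.adjoin_induction with
  | mem z hz =>
    rcases hz with rfl | rfl
    · exact ⟨⟨_, hx.1⟩, d'.x, hx', (mapT_xx _).trans d.exT_x.symm, (mapT_xx _).trans d'.exT_x.symm,
        hx.2⟩
    · exact ⟨⟨_, hy.1⟩, y', hy', e.symm, e'.symm, hy.2⟩
  | algebraMap r =>
    exact ⟨⟨_, (hc r).1⟩, algebraMap κ L' (red κ r), q.2.2 _,
      (mapT_algebraMap _ _).trans (d.exT.commutes _).symm,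
      (mapT_algebraMap _ _).trans (d'.exT.commutes _).symm, by rw [(hc r).2, Place.val_const]⟩
  | add a b _ _ ha hb =>
    obtain ⟨f, f₀, a1, a2, a3, a4⟩ := ha
    obtain ⟨g, g₀, b1, b2, b3, b4⟩ := hb
    exact ⟨f + g, f₀ + g₀, add_mem a1 b1, by rw [map_add, a2, b2, Subring.coe_add, map_add],
      by rw [map_add, a3, b3, map_add], by rw [map_add, a4, b4, Place.val_add a1 b1, map_add]⟩
  | mul a b _ _ ha hb =>
    obtain ⟨f, f₀, a1, a2, a3, a4⟩ := ha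
    obtain ⟨g, g₀, b1, b2, b3, b4⟩ := hb
    exact ⟨f * g, f₀ * g₀, mul_mem a1 b1, by rw [map_mul, a2, b2, Subring.coe_mul, map_mul],
      by rw [map_mul, a3, b3, map_mul], by rw [map_mul, a4, b4, Place.val_mul a1 b1, map_mul]⟩

end

theorem HypMC_val {O B K L : Type u} [CommRing O] [CommRing B] [Field K] [Field L] [Algebra K L]
    [IsAlgClosed K] [Fact (IsFF K L)] {j : O →+* B} {ξ η e : B} (h : HypMB_Gen j ξ η e)
    (ρ : B →+* L) (σ : B →+* K) (Q : Place K L) (hj : ∀ o, ρ (j o) = algebraMap K L (σ (j o)))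
    (h1 : ρ ξ ∈ Q.1 ∧ Q.val (ρ ξ) = σ ξ) (h2 : ρ η ∈ Q.1 ∧ Q.val (ρ η) = σ η)
    (h3 : ρ e ∈ Q.1 ∧ Q.val (ρ e) = σ e) (f : B) : ρ f ∈ Q.1 ∧ Q.val (ρ f) = σ f :=
  h (fun f => ρ f ∈ Q.1 ∧ Q.val (ρ f) = σ f)
    (fun o => by rw [hj]; exact ⟨Q.2.2 _, Place.val_const _⟩) h1 h2 h3
    (fun a b ha hb => by
      rw [map_add, map_add, Place.val_add ha.1 hb.1, ha.2, hb.2]
      exact ⟨add_mem ha.1 hb.1, rfl⟩)
    (fun a b ha hb => by
      rw [map_mul, map_mul, Place.val_mul ha.1 hb.1, ha.2, hb.2]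
      exact ⟨mul_mem ha.1 hb.1, rfl⟩) f

theorem HypMC_cusp {κ : Type u} [Field κ] [IsAlgClosed κ] (h2 : (2 : κ) ≠ 0) (h2' : (2 : HF κ) ≠ 0)
    {L L' : Type u} [Field L] [Algebra (HF κ) L] [Fact (IsFF (HF κ) L)] [Field L'] [Algebra κ L']
    [Fact (IsFF κ L')] {x y : L} {ε l' n' : HO κ} (rε : red κ ε = 0)
    (H : IsHyp ((fz ![0, ε, ε * l', 1, n']).map (inc κ)) x y)
    (hsep : ((fz ![0, ε, ε * l', 1, n']).map (inc κ)).Separable) {X' Y' : L'}
    (hC : IsWei (leg (red κ n')) X' Y') (n0 : red κ n' ≠ 0) (n1 : red κ n' ≠ 1) :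
    ∃ (c : κ) (s : LS (HO κ)) (d : CD (HF κ) L (Fin 2)) (d' : CD κ L' (Fin 2)) (q : Place κ L')
      (y' : L'), c ≠ 0 ∧ CuspMod (HypMA_J 2) (HypMA_A s 2) d d' q ∧ d.x = (x - oL κ L (cO c))⁻¹ ∧
      d.exT (y * d.x ^ 3) = mapT (inc κ) (HypMA_Y s 2) ∧ d'.exT y' = mapT (red κ) (HypMA_Y s 2) ∧
      poles κ (algebraMap κ L' (red κ n') / X') = {q} ∧ q.val d'.x = -c⁻¹ ∧ y' ≠ 0 ∧ q.ord y' = 3 ∧
      ∀ Q : Place κ L', Q ≠ q → d'.x ∈ Q.1 → Q.val d'.x ≠ -c⁻¹ := by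
  obtain ⟨c, c0, hc⟩ := HypMC_avoid (red κ n')
  obtain ⟨s, a1, a2, a3, a4, a5⟩ := HypMA_model h2 (f := fz ![0, ε, ε * l', 1, n']) (g := 2)
    (by rw [HypMA_deg]; omega) (c := c) (by
      rw [eval_map, HypMC_f, rε]
      intro e
      exact mul_ne_zero (pow_ne_zero 2 c0) hc (by linear_combination e))
  obtain ⟨d, b1, b2, b3⟩ := HypMA_fib (inc κ) H h2' (g := 2) (by rw [map_fz, HypMA_deg]) hsep a1
    (fun e => a2 (by rw [Model_inc_inj (e.trans (map_zero _).symm), map_zero])) a3 a4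
  have hw : (red κ (s.cf 0) / c) ^ 2 = c * (c - 1) * (c - red κ n') := by
    rw [div_pow, ← map_pow, a3, ← eval₂_at_apply, HypMC_f, HypMA_red_cO, rε,
      div_eq_iff (pow_ne_zero 2 c0)]
    ring
  obtain ⟨d', q, c1, c2, c3, c4, c5, c6, c7, c8, c9, c10, c11, c12⟩ :=
    HypMB_cusp h2 n0 n1 hC (div_ne_zero a2 c0) hw
  rw [mul_div_cancel₀ _ c0] at c3 c4
  have e' := HypMA_exY (red κ) d' (c := cO c) (x := X') (f := fz ![0, ε, ε * l', 1, n'])
    (by rw [HypMA_red_cO]; exact c1) c2 (by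
      rw [aeval_def, eval₂_map, HypMC_f, mul_pow, HypMB_eqn hC]
      simp only [RingHom.comp_apply, rε, map_zero]
      ring) a1 c3 c4 (mul_ne_zero h2 a2) a4 2
  exact ⟨c, s, d, d', q, _, c0, ⟨a5, b3, by rw [CD.cuspAlg, c5, HypMA_alg (red κ) d' e'], c8, c9⟩,
    b1, b2, e', c6, c7, c10, c11, c12⟩

theorem HypMC_tail {κ : Type u} [Field κ] [IsAlgClosed κ] (h2 : (2 : κ) ≠ 0) (h2' : (2 : HF κ) ≠ 0)
    {D : FFd (HF κ)} {x y : D.L} {ε l' n' : HO κ} (hε : ε ≠ 0) (rε : red κ ε = 0)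
    (H : IsHyp ((fz ![0, ε, ε * l', 1, n']).map (inc κ)) x y)
    (hsep : ((fz ![0, ε, ε * l', 1, n']).map (inc κ)).Separable) {C' E : FFd κ} {X' Y' : C'.L}
    {X Y : E.L} (hC : IsWei (leg (red κ n')) X' Y') (n0 : red κ n' ≠ 0) (n1 : red κ n' ≠ 1)
    (hE : IsWei (leg (red κ l')) X Y) (l0 : red κ l' ≠ 0) (l1 : red κ l' ≠ 1) {b : Place κ E.L}
    (hb : X ∉ b.1) : ∃ q, poles κ (algebraMap κ C'.L (red κ n') / X') = {q} ∧
      Comb.Sp κ D.sm (Comb.one C' E q b) := by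
  obtain ⟨c, s, d, d', q, y', c0, hM, hd, ey, ey', hq, vq, y0, oy, hQ⟩ :=
    HypMC_cusp h2 h2' rε H hsep hC n0 n1
  refine ⟨q, hq, ?_⟩
  have hdeg : ((fz ![0, ε, ε * l', 1, n']).map (inc κ)).natDegree = 2 * 2 + 1 := by
    rw [map_fz, HypMA_deg]
  have hinc : ∀ {o : HO κ}, o ≠ 0 → inc κ o ≠ 0 := fun h =>
    (map_ne_zero_iff _ Model_inc_inj).2 h
  have hred : ∀ {o : HO κ}, red κ o ≠ 0 → o ≠ 0 := fun h e => h (by rw [e, map_zero])
  obtain ⟨c', -, hc'⟩ := HypMC_avoid (red κ l')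
  obtain ⟨δ, hδ⟩ := HypMA_sqrtO ε
  obtain ⟨ν, hν⟩ := HypMA_sqrtO n'
  have rν : red κ ν ≠ 0 := fun e => n0 (by rw [← hν, map_pow, e, zero_pow two_ne_zero])
  obtain ⟨νi, hνi⟩ := (Model_unit.2 rν).exists_left_inv
  have rνi : red κ νi * red κ ν = 1 := by rw [← map_mul, hνi, map_one]
  have δ0 : δ ≠ 0 := fun e => hε (by rw [← hδ, e, zero_pow two_ne_zero])
  obtain ⟨ω, hω⟩ := HypMA_sqrtO ((HypMC_G ε l' νi).eval₂ (RingHom.id _) (cO c'))
  have rω : red κ ω ^ 2 = c' * (c' - 1) * (c' - red κ l') := by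
    rw [← map_pow, hω, hom_eval₂, HypMC_evG]
    simp only [RingHom.comp_id, HypMA_red_cO, rε]
    ring
  have rω0 : red κ ω ≠ 0 := fun e => hc' (by rw [← rω, e, zero_pow two_ne_zero])
  obtain ⟨α, hα⟩ := (Model_unit.2 (show red κ (ε * cO c' - cO c) ≠ 0 by
    rw [map_sub, map_mul, rε, zero_mul, zero_sub, HypMA_red_cO]
    exact neg_ne_zero.2 c0)).exists_left_inv
  have rα : red κ α = -c⁻¹ := by
    have := congrArg (red κ) hα
    rw [map_mul, map_sub, map_mul, rε, zero_mul, zero_sub, HypMA_red_cO, map_one] at this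
    rw [eq_inv_of_mul_eq_one_left this, inv_neg]
  have hci : cO c⁻¹ * cO c = 1 := by rw [← map_mul, inv_mul_cancel₀ c0, map_one]
  have hαK : inc κ α * (inc κ (ε * cO c') - inc κ (cO c)) = 1 := by
    rw [← map_sub, ← map_mul, hα, map_one]
  have hφ : ∀ {o : HO κ}, o ≠ 0 → oL κ D.L o ≠ 0 := fun h =>
    (_root_.map_ne_zero (algebraMap (HF κ) D.L)).2 (hinc h)
  have v0 : ε * δ ≠ 0 := mul_ne_zero hε δ0
  have w0 : ε * δ * ν ≠ 0 := mul_ne_zero v0 (hred rν)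
  obtain ⟨ξ, hξ⟩ : ∃ ξ, x = oL κ D.L ε * ξ := ⟨_, (mul_div_cancel₀ x (hφ hε)).symm⟩
  obtain ⟨η, hη⟩ : ∃ η, y = oL κ D.L (ε * δ * ν) * η := ⟨_, (mul_div_cancel₀ y (hφ w0)).symm⟩
  have hxc : ∀ a : HF κ, x - algebraMap _ D.L a ≠ 0 := fun a e =>
    transcendental_iff.1 H.trans ⟨a, (sub_eq_zero.1 e).symm⟩
  have pδ := congrArg (oL κ D.L) hδ
  have pν := congrArg (oL κ D.L) hν
  have pνi := congrArg (oL κ D.L) hνi
  have pα := congrArg (oL κ D.L) hα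
  have pc := congrArg (oL κ D.L) hci
  simp only [map_pow, map_mul, map_sub, map_one] at pδ pν pνi pα pc
  have he : d.x * (oL κ D.L ε * ξ - oL κ D.L (cO c)) = 1 := by
    rw [← hξ, hd]
    exact inv_mul_cancel₀ (hxc _)
  have r1 : η ^ 2 = (HypMC_G ε l' νi).eval₂ (oL κ D.L) ξ := by
    have h1 := H.eqn
    rw [aeval_def, eval₂_map, HypMC_f, hη, hξ, map_mul, map_mul, ← pν, mul_pow, mul_pow, mul_pow,
      pδ] at h1
    refine mul_left_cancel₀ (mul_ne_zero (pow_ne_zero 3 (hφ hε)) (pow_ne_zero 2 (hφ (hred rν)))) ?_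
    rw [HypMC_evG]
    linear_combination h1 - oL κ D.L ε ^ 4 * ξ ^ 2 * (ξ - 1) * (ξ - oL κ D.L l') *
      (oL κ D.L ε * ξ - 1) * (oL κ D.L νi * oL κ D.L ν + 1) * pνi
  have ind := HypMC_indep Model_inc_inj (hdeg ▸ (by decide : Odd (2 * 2 + 1))) H (hinc hε) (hinc w0)
    hξ hη
  have hgen := HypMB_gen (oL κ D.L) ξ η d.x
  set B := HypMB_B (oL κ D.L) ξ η d.x with hB
  set j := HypMB_j (oL κ D.L) ξ η d.x with hj
  set ξB : B := ⟨ξ, HypMB_x (oL κ D.L) ξ η d.x⟩ with hξB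
  set ηB : B := ⟨η, HypMB_y (oL κ D.L) ξ η d.x⟩ with hηB
  set eB : B := ⟨d.x, HypMB_e (oL κ D.L) ξ η d.x⟩ with heB
  have r1B : ηB ^ 2 = (HypMC_G ε l' νi).eval₂ j ξB :=
    Subtype.ext (r1.trans (HypMB_eval _ ξ η d.x _).symm)
  have r2B : eB * (C ε * Polynomial.X - C (cO c)).eval₂ j ξB = 1 := by
    rw [HypMC_evH]
    exact Subtype.ext he
  have indB : ∀ A A' : (HO κ)[X], A.eval₂ j ξB + A'.eval₂ j ξB * ηB = 0 → A = 0 ∧ A' = 0 :=
    fun A A' e => ind A A' (by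
      rw [← HypMB_eval _ ξ η d.x, ← HypMB_eval _ ξ η d.x A']
      exact congrArg Subtype.val e)
  obtain ⟨ρ, ρ1, ρ2, ρ3, ρ4⟩ := HypMB_hom hgen r1B r2B indB ((algebraMap κ E.L).comp (red κ))
    (ξ' := X) (η' := Y) (e' := algebraMap κ E.L (-c⁻¹)) (by
      rw [HypMC_evG, HypMB_eqn hE]
      simp only [RingHom.comp_apply, rε, map_zero]
      ring) (by
      rw [HypMC_evH]
      simp only [RingHom.comp_apply, rε, map_zero, HypMA_red_cO]
      rw [zero_mul, zero_sub, ← map_neg, ← map_mul, neg_mul_neg, inv_mul_cancel₀ c0, map_one])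
  simp only [RingHom.comp_apply] at ρ1
  have hωi : ∀ i, ![ω, -ω] i ^ 2 = (HypMC_G ε l' νi).eval₂ (RingHom.id _) (cO c') :=
    Fin.forall_fin_two.2 ⟨hω, (neg_sq _).trans hω⟩
  have rωi : ∀ i, red κ (![ω, -ω] i) = ![red κ ω, -red κ ω] i :=
    Fin.forall_fin_two.2 ⟨rfl, map_neg _ _⟩
  have rωi0 : ∀ i, red κ (![ω, -ω] i) ≠ 0 :=
    Fin.forall_fin_two.2 ⟨rω0, (rωi 1).trans_ne (neg_ne_zero.2 rω0)⟩
  choose σ σ1 σ2 σ3 σ4 using fun i => HypMB_hom hgen r1B r2B indB (RingHom.id _) (hωi i) (e' := α)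
    (by rw [HypMC_evH]; exact hα)
  simp only [RingHom.id_apply] at σ1
  obtain ⟨d₂, g1, g2, g3, g4, g5, -⟩ := H.exists_chart h2' hdeg hsep (c := inc κ (ε * cO c'))
    (w := inc κ (ε * δ * ν * ω)) (hinc (mul_ne_zero w0 (hred rω0))) (by
      rw [eval_map_apply, ← map_pow, ← eval₂_id, HypMC_f]
      refine congrArg (inc κ) ?_
      rw [HypMC_evG] at hω
      simp only [RingHom.id_apply] at hω ⊢
      rw [mul_pow, mul_pow, mul_pow, hδ, hω, ← hν]
      linear_combination (-(ε ^ 4 * cO c' ^ 2 * (cO c' - 1) * (cO c' - l') * (ε * cO c' - 1) *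
        (νi * ν + 1))) * hνi)
  have oP : ∀ i, (d₂.pl i).ord (x - algebraMap _ D.L (inc κ (ε * cO c'))) = 1 := fun i => by
    have := d₂.ord_x i
    rw [g1, (d₂.pl i).ord_inv (hxc _)] at this
    omega
  have pl := fun i => HypMB_pl (d₂.pl i) hαK (hxc _) (oP i).ge
  have hdK : d.x = (x - algebraMap _ D.L (inc κ (cO c)))⁻¹ := hd
  simp only [← hdK] at pl
  have gy : ∀ i, y ∈ (d₂.pl i).1 ∧ (d₂.pl i).val y = inc κ (ε * δ * ν) * inc κ (![ω, -ω] i) :=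
    Fin.forall_fin_two.2 ⟨⟨g2, g4.trans (map_mul _ _ _)⟩, ⟨g3, g5.trans (by
      rw [← map_neg, ← mul_neg, map_mul]; rfl)⟩⟩
  have hP : ∀ Q : Place (HF κ) D.L, (∀ i, Q ≠ d₂.pl i) → d.x ∈ Q.1 → Q.val d.x ≠ inc κ α := by
    intro Q h1 h3 h4
    obtain ⟨i, hi⟩ := d₂.pole Q (g1 ▸ HypMB_not Q hαK (hxc _) (hxc _) (hdK ▸ h3) (hdK ▸ h4))
    exact h1 i hi
  let z : B := j (cO c ^ 2 * α) * (ξB - j (cO c')) * eB
  have hz : oL κ D.L (-(ε * cO c⁻¹ ^ 2)) * z = d.x - oL κ D.L α := by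
    change _ * (oL κ D.L (cO c ^ 2 * α) * (ξ - oL κ D.L (cO c')) * d.x) = _
    simp only [map_neg, map_mul, map_pow]
    linear_combination (-(oL κ D.L ε * oL κ D.L α * (ξ - oL κ D.L (cO c')) * d.x *
      (oL κ D.L (cO c⁻¹) * oL κ D.L (cO c) + 1))) * pc - oL κ D.L α * he + d.x * pα
  have u0 : -(ε * cO c⁻¹ ^ 2) ≠ 0 := neg_ne_zero.2 (mul_ne_zero hε
    (pow_ne_zero 2 (left_ne_zero_of_mul_eq_one hci)))
  have ρz : ρ z = X - algebraMap κ E.L c' := by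
    have h1 : algebraMap κ E.L (red κ (cO c ^ 2 * α)) * algebraMap κ E.L (-c⁻¹) = 1 := by
      rw [← map_mul, map_mul (red κ), map_pow, HypMA_red_cO, rα, ← map_one (algebraMap κ E.L)]
      congr 1
      field_simp
    simp only [z, map_mul ρ, map_sub ρ, ρ1, ρ2, ρ4, HypMA_red_cO]
    linear_combination (X - algebraMap κ E.L c') * h1
  have hY : RdC (HypMA_A s 2) d d' (y * d.x ^ 3) y' :=
    ⟨_, Algebra.subset_adjoin (Or.inr rfl), ey.symm, ey'.symm⟩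
  have k0 : red κ (-(cO c ^ 3 * νi)) ≠ 0 := by
    rw [map_neg, map_mul, map_pow, HypMA_red_cO]
    exact neg_ne_zero.2 (mul_ne_zero (pow_ne_zero 3 c0) (left_ne_zero_of_mul_eq_one rνi))
  let t : TailD (HypMA_A s 2) d d' q :=
    { W := leg (red κ l'), E := E, X := X, Y := Y, wei := hE
      ncusp := fun h => leg_Δ h2 l0 l1 h.1
      c := c', yv := ![red κ ω, -red κ ω]
      yne := fun e => mul_ne_zero h2 rω0 (by
        have : red κ ω = -red κ ω := e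
        linear_combination this)
      fib := HypMB_fib rω
      B := B, ρ := ρ, z := z, η := -(j (cO c ^ 3) * eB ^ 3 * ηB)
      u := -(ε * cO c⁻¹ ^ 2), v := ε * δ, α := α, u0 := u0, v0 := v0
      ru := by
        change red κ _ = 0
        rw [map_neg, map_mul, rε, zero_mul, neg_zero]
      uv := by
        have h1 : (-(ε * cO c⁻¹ ^ 2)) ^ 3 = -(cO c⁻¹ ^ 6) * (ε * δ) ^ 2 := by
          rw [mul_pow ε δ, hδ]; ring
        have h3 := congrArg (fun o : HO κ => hv (inc κ o)) h1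
        simp only [map_mul (inc κ) (-(cO c⁻¹ ^ 6)), map_pow, hv_mul, hv_pow] at h3
        have h4 : hv (inc κ (-(cO c⁻¹ ^ 6))) = 0 :=
          isUnit_HO.1 ((IsUnit.of_mul_eq_one _ hci).pow 6).neg
        rw [h4, zero_add] at h3
        exact h3
      rα := rα.trans vq.symm
      hz := hz
      ρz := ρz
      ρη := by
        have h1 : algebraMap κ E.L (red κ (cO c ^ 3)) * algebraMap κ E.L (-c⁻¹) ^ 3 = -1 := by
          rw [← map_pow (algebraMap κ E.L), ← map_mul, map_pow, HypMA_red_cO,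
            ← map_one (algebraMap κ E.L), ← map_neg]
          congr 1
          field_simp
        rw [map_neg, map_mul, map_mul, map_pow ρ, ρ1, ρ3, ρ4, h1, neg_one_mul, neg_neg]
      y₀ := algebraMap κ _ (red κ (-(cO c ^ 3 * νi))) * y'
      rdy := by
        have e : oL κ D.L (ε * δ) * ((-(j (cO c ^ 3) * eB ^ 3 * ηB) : B) : D.L) =
            oL κ D.L (-(cO c ^ 3 * νi)) * (y * d.x ^ 3) := by
          change _ * -(oL κ D.L (cO c ^ 3) * d.x ^ 3 * η) = _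
          rw [hη]
          simp only [map_neg, map_mul, map_pow]
          linear_combination oL κ D.L ε * oL κ D.L δ * oL κ D.L (cO c) ^ 3 * d.x ^ 3 * η * pνi
        rw [e]
        exact (RdC.const _).mul hY
      y₀ne := mul_ne_zero ((_root_.map_ne_zero _).2 k0) y0
      ordy := by rw [q.ord_mul ((_root_.map_ne_zero _).2 k0) y0, q.ord_const k0, oy, zero_add]
      mem := by
        have e : y * d.x ^ 3 = (j (ε * δ * ν) * ηB * eB ^ 3 : B) := by rw [hη]; rfl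
        refine HypMC_mem ρ (fun o => ⟨(j o).2, ρ1 o⟩) ⟨eB.2, vq ▸ ρ4⟩ hM.x2.1 ⟨e ▸ Subtype.mem _, ?_⟩
          (q.mem_iff.2 (Or.inr (by omega))) ey ey'
        rw [(Place.val_eq_zero (q.mem_iff.2 (Or.inr (by omega)))).2 (Or.inr (by omega)), map_zero,
          show (⟨y * d.x ^ 3, _⟩ : B) = j (ε * δ * ν) * ηB * eB ^ 3 from Subtype.ext e, map_mul,
          map_mul, ρ1, map_mul (red κ), map_mul (red κ), rε, zero_mul, zero_mul, map_zero, zero_mul,
          zero_mul]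
      σ := σ
      σo := fun i o _ => σ1 i o
      σz := fun i => by simp only [z, map_mul (σ i), map_sub (σ i), σ1, σ2, sub_self, mul_zero, zero_mul]
      σρ := fun i Q h1 h3 h4 => HypMC_val hgen ρ ((red κ).comp (σ i)) Q
        (fun o => by rw [ρ1, RingHom.comp_apply, σ1])
        (by rw [ρ2, RingHom.comp_apply, σ2, HypMA_red_cO]; exact ⟨h1, h3⟩)
        (by rw [ρ3, RingHom.comp_apply, σ3, rωi]; exact ⟨hE.WeiC_Y Q h1, h4⟩)
        (by rw [ρ4, RingHom.comp_apply, σ4, rα]; exact ⟨Q.2.2 _, Place.val_const _⟩)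
      σker := fun i => by
        refine ⟨ηB + j (σ i ηB), ?_, fun f hf => ?_⟩
        · change red κ _ ≠ 0
          rw [map_add (σ i), σ1, σ3, ← two_mul, map_mul, map_ofNat]
          exact mul_ne_zero h2 (rωi0 i)
        · have h1 := HypMB_ker hgen r1B (σ i) (σ1 i) (z := z)
            ⟨j (cO c⁻¹ ^ 2 * (ε * cO c' - cO c)) * (j ε * ξB - j (cO c)), Subtype.ext (by
              rw [σ2]
              change ξ - oL κ D.L (cO c') = oL κ D.L (cO c ^ 2 * α) * (ξ - oL κ D.L (cO c')) * d.x *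
                (oL κ D.L (cO c⁻¹ ^ 2 * (ε * cO c' - cO c)) * (oL κ D.L ε * ξ - oL κ D.L (cO c)))
              have h3 : oL κ D.L (cO c ^ 2 * α) * oL κ D.L (cO c⁻¹ ^ 2 * (ε * cO c' - cO c)) = 1 := by
                rw [← map_mul, ← map_one (oL κ D.L)]
                refine congrArg (oL κ D.L) ?_
                linear_combination (cO c⁻¹ * cO c) ^ 2 * hα + (cO c⁻¹ * cO c + 1) * hci
              linear_combination (-(ξ - oL κ D.L (cO c'))) * h3 - oL κ D.L (cO c ^ 2 * α) *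
                oL κ D.L (cO c⁻¹ ^ 2 * (ε * cO c' - cO c)) * (ξ - oL κ D.L (cO c')) * he)⟩
            ⟨j (-(ε * cO c⁻¹ ^ 2)), Subtype.ext (by
              rw [σ4]
              exact hz.symm.trans (mul_comm _ _))⟩ f
          rwa [hf, map_zero, sub_zero] at h1
      P := d₂.pl
      Pval := fun i => HypMC_val hgen B.subtype ((inc κ).comp (σ i)) (d₂.pl i)
        (fun o => by rw [RingHom.comp_apply, σ1]; rfl)
        (by
          rw [RingHom.comp_apply, σ2]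
          exact HypMB_cancel _ (hinc hε) (hξ ▸ (pl i).1) (hξ ▸ (pl i).2.1.trans (map_mul _ _ _)))
        (by
          rw [RingHom.comp_apply, σ3]
          exact HypMB_cancel _ (hinc w0) (hη ▸ (gy i).1) (hη ▸ (gy i).2))
        (by
          rw [RingHom.comp_apply, σ4]
          exact ⟨(d₂.pl i).mem_iff.2 (Or.inr (pl i).2.2.2.1.ge), (pl i).2.2.2.2.1⟩)
      Pord := fun i => by
        have h1 := (pl i).2.2.2.2.2.2.trans (oP i)
        have h3 := (pl i).2.2.2.2.2.1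
        change oL κ D.L (-(ε * cO c⁻¹ ^ 2)) * z = d.x - algebraMap _ D.L (inc κ α) at hz
        rw [← hz] at h1 h3
        rw [(d₂.pl i).ord_mul (hφ u0) (right_ne_zero_of_mul h3)] at h1
        have h4 : (d₂.pl i).ord (oL κ D.L (-(ε * cO c⁻¹ ^ 2))) = 0 := (d₂.pl i).ord_const (hinc u0)
        omega
      m := oL κ D.L 1
      m₀ := algebraMap κ _ (red κ 1)
      rdm := RdC.const 1
      mq := by rw [Place.val_const, map_one]; exact one_ne_zero
      moth := fun Q h1 h3 h4 => absurd (h4.trans vq) (hQ Q h1 h3)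
      mP := fun Q h1 h3 h4 => absurd h4 (hP Q h1 h3) }
  have hT : (LS.T (HO κ) (-1) - algebraMap _ _ α).Ge (-1) :=
    HypMA_sub (LS.ge_T _) ((LS.ge_algebraMap α).mono (by omega))
  obtain ⟨G, hG, hG'⟩ := LS.exists_inv hT (by
    rw [LS.cf_sub, LS.cf_T, LS.cf_algebraMap, if_pos rfl, if_neg (by omega), sub_zero]
    exact isUnit_one)
  have hx0 : d.x - oL κ D.L α ≠ 0 := (pl 0).2.2.2.2.2.1
  have z0 : (z : D.L) ≠ 0 := right_ne_zero_of_mul (hz ▸ hx0)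
  have zi : (z : D.L)⁻¹ = oL κ D.L (-(ε * cO c⁻¹ ^ 2)) * (d.x - oL κ D.L α)⁻¹ := by
    rw [← hz, mul_inv, mul_inv_cancel_left₀ (hφ u0)]
  have hF : mapT (inc κ) (xx (Fin 2) (HO κ) + (-(ε * cO c⁻¹ ^ 2)) • fun _ => G) =
      d.exT (d.x + (z : D.L)⁻¹) := by
    rw [map_add, mapT_xx, mapT_smul, map_add, d.exT_x, zi, map_mul]
    congr 1
    funext i
    have h1 := congrArg (LS.map (inc κ)) hG'
    rw [map_mul, map_sub, LS.map_T, LS.map_algebraMap, map_one] at h1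
    have h3 : d.ex i (d.x - oL κ D.L α)⁻¹ = LS.map (inc κ) G := by
      rw [map_inv₀, map_sub, d.ex_x, eq_inv_of_mul_eq_one_right h1]
      congr 2
      exact (d.ex i).commutes _
    rw [Pi.mul_apply, CD.exT_apply, CD.exT_apply, h3, Pi.smul_apply, Algebra.smul_def]
    exact congrArg (· * _) ((d.ex i).commutes _).symm
  refine TailD.sp κ t hM (by rw [hC.genus (leg_Δ h2 n0 n1)]; rfl) (leg_Δ h2 l0 l1)
    ⟨d.x + (z : D.L)⁻¹, ⟨fun Q h1 h3 => add_mem h1 ?_, ⟨_, hF, ?_⟩, ?_⟩, ?_⟩ hb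
  · have h4 : d.x - oL κ D.L α ∈ Q.1 := sub_mem h1 (Q.2.2 _)
    obtain ⟨h5, h6⟩ := BC_unit h4 fun e => hP Q h3 h1 (Place.val_eq ((Place.val_eq_zero h4).1 e))
    rw [zi]
    exact mul_mem (Q.2.2 _) (Q.mem_iff.2 (Or.inr (by rw [Q.ord_inv h5, h6, neg_zero])))
  · rw [map_add, mapT_xx, mapT_smul, map_neg, map_mul, rε, zero_mul, neg_zero, zero_smul, add_zero,
      d'.exT_x]
  · have e : (z : D.L) ^ 1 * (d.x + (z : D.L)⁻¹) = (z * eB + 1 : B) := by
      rw [pow_one, mul_add, mul_inv_cancel₀ z0]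
      rfl
    refine ⟨e ▸ Subtype.mem _, ?_⟩
    change ρ _ = (X - algebraMap κ E.L c') ^ 1 * (_ + (X - algebraMap κ E.L c')⁻¹)
    rw [show (⟨(z : D.L) ^ 1 * (d.x + (z : D.L)⁻¹), _⟩ : B) = z * eB + 1 from Subtype.ext e, map_add,
      map_mul, map_one, ρz, ρ4, vq, pow_one, mul_add, mul_inv_cancel₀ (hE.WeiC_ne c')]
  · rw [← hF]
    exact Model_pole_mapT _ fun i => (LS.ge_T _).add ((hG.mono (by omega)).smul _)

end PR0
end

-- merged part: Pool.Agent.Work.MP_da2620_ag.HypM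
section
/-!
# Models of genus two curves

`hypA s g = R[T⁻¹] + R[T⁻¹] (s, -s) T ^ (-(g+1))`.  It is a chart point of type `{1} × [0, g)`.
`exists_sqrt`: a power series with constant term `w ^ 2` has a square root with constant term `w` (recursion, or
Hensel); it is unique.
For `f ∈ O[X]`, `c ∈ k` with `f̄(c) ≠ 0`, `s² = f(c + T)`: the generic fibre of `hypA s g` is the algebra of the chart of
`IsHyp.exists_chart` (the expansions of `y` are `± s` by uniqueness of square roots).  In type one the same holds for the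
special fibre; use `IsMod.sp'` and `FFd.has_sm`.
Type two: `f̄ = x³ (x - 1)(x - n)`, `y = x w` with `w² = x (x - 1)(x - n)` on the curve `C' = E n`, `q` the point `(0, 0)`, the only
place over `x = 0`; `ord_q x = 2`, `ord_q w = 1`.  With `e = 1 / (x - c)`, `d'.reg = k[e] + k[e] w e²`, and the cusp algebra is
`k[e] + k[e] y e³` (`x e = 1 + c e`).  So we have a `CuspMod`.  Build `TailD` by hand with `W = leg l`, `E = E l`: let `ξ = x / ε`,
`η₁ = y / (ε δ ν)` with `δ² = ε`, `ν² = n'`; then `η₁² = ξ (ξ - 1)(ξ - l') (εξ - 1)(εξ - n') / n'`.  `B = O[ξ, η₁, e]`, where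
`O[ξ, η₁] = O[ξ] ⊕ O[ξ] η₁` (`IsHyp.indep`), `ρ ξ = X`, `ρ η₁ = Y`, `ρ e = -1 / c`.  Choose `c' ∈ k` with `c'(c'-1)(c'-l) ≠ 0`;
`α = 1 / (ε c' - c)`, `u = - ε / c²`, `z = (e - α) / u = c² (ξ - c') e α`, `η = - c³ e³ η₁`, `v = ε δ`, `m = 1`.  The lift of the new
function is `e + 1 / z`.  Apply `TailD.sp`, `one_swap`, and `IsWei.transl` to identify `(E n, q)` with `(E n, ∞)`.
-/

namespace PR0

open Polynomial

universe u

section
variable {R : Type u} [CommRing R]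

theorem LS.exists_sqrt (h2 : IsUnit (2 : R)) {F : LS R} (hF : F.Ge 0) {w : R} (hw : IsUnit w)
    (h : F.cf 0 = w ^ 2) : ∃ s : LS R, s.Ge 0 ∧ s.cf 0 = w ∧ s ^ 2 = F :=
  HypMA_sqrt h2 hF hw h

/-- The hyperelliptic chart point. -/
noncomputable def hypA (s : LS R) (g : ℕ) : Subalgebra R (LT (Fin 2) R) :=
  Algebra.adjoin R {xx (Fin 2) R, ![s * LS.T R (-(g + 1)), -(s * LS.T R (-(g + 1)))]}

theorem isChart_hypA (h2 : IsUnit (2 : R)) {s : LS R} (hs : s.Ge 0) (hw : IsUnit (s.cf 0)) {g : ℕ}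
    {f : R[X]} (hf : f.natDegree ≤ 2 * g + 2) (h : s ^ 2 = aeval (LS.T R 1) f) :
    IsChart ((Finset.range g).map ⟨fun n => ((1 : Fin 2), n), fun _ _ e => (Prod.ext_iff.1 e).2⟩)
      (hypA s g) :=
  HypMA_chart h2 hs hw hf h

theorem bc_hypA {R' : Type u} [CommRing R'] (φ : R →+* R') (s : LS R) (g : ℕ) :
    bc φ (hypA s g) = hypA (LS.map φ s) g :=
  HypMA_bc φ s g

end

variable {k : Type u} [Field k] [IsAlgClosed k] {p : ℕ} [Fact p.Prime] [CharP k p]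

theorem sp_ty1 (hp : p ≠ 2) {F : Fin 5 → HF k} {β : Fin 5 → k} (h : Ty1 F β) :
    Comb.Sp k (hyp F).sm (hyp β).sm :=
  HypMA_ty1 hp h

theorem HypM_si (hp : p ≠ 2) (l : SI k p) : IsWei (leg l.1) l.X l.Y ∧ l.1 ≠ 0 ∧ l.1 ≠ 1 := by
  have e : l.W = leg l.1 := if_neg hp
  have h := l.Δ_ne
  rw [e] at h
  refine ⟨e ▸ l.wei, fun h0 => h ?_, fun h1 => h ?_⟩
  · simp only [h0, leg, WeierstrassCurve.Δ, WeierstrassCurve.b₂, WeierstrassCurve.b₄,
      WeierstrassCurve.b₆, WeierstrassCurve.b₈]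
    ring
  · simp only [h1, leg, WeierstrassCurve.Δ, WeierstrassCurve.b₂, WeierstrassCurve.b₄,
      WeierstrassCurve.b₆, WeierstrassCurve.b₈]
    ring

theorem sp_ty2 (hp : p ≠ 2) {F : Fin 5 → HF k} (hF : Function.Injective F) {l n : SI k p}
    (h : Ty2 F l.1 n.1) : (∃ a, Comb.Sp k (hyp F).sm (Comb.one n.E l.E a l.pt)) ∧
      ∃ a, Comb.Sp k (hyp F).sm (Comb.one l.E n.E a n.pt) := by
  obtain ⟨ε, l', n', hε, rε, rl, rn, rfl⟩ := h
  have e : (fun i => inc k (![0, ε, ε * l', 1, n'] i)) = ![0, (ε : HF k), ε * l', 1, n'] := by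
    funext i
    fin_cases i <;> rfl
  obtain ⟨x, y, H⟩ := exists_hyp ![0, (ε : HF k), ε * l', 1, n']
  have ef : fz ![0, (ε : HF k), ε * l', 1, n'] = (fz ![0, ε, ε * l', 1, n']).map (inc k) := by
    rw [map_fz, e]
  obtain ⟨hn, n0, n1⟩ := HypM_si hp n
  obtain ⟨hl, l0, l1⟩ := HypM_si hp l
  have rl' : l.1 = red k l' := rl.symm
  have rn' : n.1 = red k n' := rn.symm
  obtain ⟨q, hq, hs⟩ := HypMC_tail (HypMA_two k hp) (HypMA_two _ hp) hε rε (ef ▸ H)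
    (by rw [← ef]; exact separable_prod_X_sub_C_iff.2 hF) (rn' ▸ hn) (rn' ▸ n0) (rn' ▸ n1)
    (rl' ▸ hl) (rl' ▸ l0) (rl' ▸ l1) (b := l.pt) (l.poles_eq.superset rfl)
  rw [← rn'] at hq
  refine ⟨⟨q, hs⟩, l.pt, (hs.trans (one_swap _ _ _ _)).trans (Comb.Le.sp' ?_)⟩
  obtain ⟨θ, h1, -⟩ := n.exists_equiv hp (hn.transl n0)
  obtain ⟨Q, hQ⟩ := ((BC.of_equiv θ).exists_over n.pt).exists
  obtain rfl : Q = q := hq.subset fun h2 => n.poles_eq.superset rfl ((hQ n.X).1 (h1 ▸ h2))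
  exact Comb.le_of_equiv (Equiv.refl _) AlgEquiv.refl (fun _ => θ) (fun _ _ => Iff.rfl) fun _ => hQ

end PR0
end

-- merged part: Pool.Agent.Work.MP_da2620_ag.Moves
section
/-!
# All stars lie on the same component

`St C s₀ s` says that `C` specialises to the star with these components for all positions of the tails.
`st_of_sp`: a comb `X` with generic tails on `E s₀` (`exists_genT`) specialises to all these stars (`IsGenT.sp` with
`Sp.refl`); apply `key` with `uniqC_star`.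
`st_three` (`p` odd; for `p = 2` use `SI.subsingleton`).  Fix `c`.  For a configuration `F` let `S F` say that `C` specialises to
every comb `X` with `IsGenT (hyp F) (E c) (pt c) X` (such combs exist and are all equivalent: `exists_genT`, `genu`).  If
`Ty2 F l n`, then `X` specialises to stars `(l; n, c)` and `(n; l, c)` (`sp_ty2`, `glue_sp`, `exists_new`, `le_of_equiv`), so by `key`
and `st_of_sp`, `S F ↔ St C l ![n, c] ↔ St C n ![l, c]`.  Check the hypotheses of `Z2`: `hiso` by `hyp_iso`, `IsGenT.of_le`; `h2`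
from the above; `h1`: if `HWn k (hyp β).L p 1`, use `uniqC_herm`, `sp_ty1`, `IsGenT.sp`, `key`.  Otherwise `uniqC_one` and
`key0` give a smooth `D` of genus two specialising to `hyp F` and `hyp F'`; a comb `X_D` with a generic tail specialises to
`X_F` and `X_F'` (`glue_sp_gen`), so to the star given by `Bd5 p F`, to which `C` specialises too; `key` gives `Sp C X_D`.
So `St C l ![n, c] ↔ St C l' ![n', c]` for all `l n l' n' c`; combine with `St.perm`.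
`st_all`: let `L₃` be maximal of genus three (`exists_lower`); by `exists_star`, `st_of_sp`, `st_three` it specialises to all stars
with two tails.  To change `s₀` and one tail `j`, write `T ≃ Fin 2 ⊕ T'` with `j` in the first summand, take `ζ` with
generic tails `s|T'` on `L₃`; by `glue_sp`, `star_add`, `star_le` it specialises to both stars; apply `key`.  Induction on the
number of tails that differ.
-/

namespace PR0

universe u

variable {k K K' : Type u} [Field k] [IsAlgClosed k] [Field K] [IsAlgClosed K] [Algebra k K]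
  [Field K'] [IsAlgClosed K'] [Algebra k K'] {p : ℕ} [Fact p.Prime] [CharP k p]
  {T T' : Type} [Fintype T] [Fintype T']

/-- `C` specialises to all stars with the given components. -/
def St (C : FFd K) (s₀ : SI k p) (s : T → SI k p) : Prop :=
  ∀ (a : T → Place k s₀.E.L) (ha : Function.Injective a), Comb.Sp k C.sm (star s₀ s a ha)

theorem St.perm {C : FFd K} {s₀ : SI k p} {s : T' → SI k p} (e : T ≃ T') :
    St C s₀ (s ∘ e) ↔ St C s₀ s := by
  refine ⟨fun h a ha => (h _ (ha.comp e.injective)).trans (star_le e s₀ s a ha).sp,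
    fun h a ha => ?_⟩
  obtain ⟨a', rfl⟩ : ∃ a' : T' → Place k s₀.E.L, a = a' ∘ e :=
    ⟨a ∘ e.symm, funext fun j => congrArg a (e.symm_apply_apply j).symm⟩
  have ha' := (e.injective_comp a').1 ha
  exact (h a' ha').trans (star_le e s₀ s a' ha').sp'

omit [Fact p.Prime] [CharP k p] in
theorem Moves_pts (s₀ : SI k p) (T : Type) [Fintype T] :
    ∃ a : T → Place k s₀.E.L, Function.Injective a := by
  obtain ⟨a, ha⟩ := exists_new s₀.E.sm T
  exact ⟨a, ha.comp Sum.inr_injective⟩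

/-- Adding generic tails to a curve that specialises to a star. -/
theorem Moves_add {D : FFd K} {s₀ : SI k p} {s : T → SI k p} {a : T → Place k s₀.E.L}
    {ha : Function.Injective a} (h : Comb.Sp k D.sm (star s₀ s a ha)) {t : T' → SI k p}
    {X : Comb T' K'} (hX : IsGenT D (fun j => (t j).E) (fun j => (t j).pt) X) :
    ∃ a' ha', Comb.Sp k X (star s₀ (Sum.elim s t) a' ha') := by
  obtain ⟨a', ha'⟩ := exists_new (star s₀ s a ha) T'
  exact ⟨_, ha', (glue_sp h hX a' ha').trans (star_add s₀ s t a a' ha ha').sp⟩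

/-- `C` specialises to `D` with the tail `c` at a generic point. -/
def Moves_S (C : FFd K) (D : FFd K') (c : SI k p) : Prop :=
  ∀ (Ω : Type u) [Field Ω] [Algebra k Ω] [IsAlgClosed Ω] (X : Comb Unit Ω),
    IsGenT D (fun _ => c.E) (fun _ => c.pt) X → Comb.Sp k C.sm X

omit [Fact p.Prime] [CharP k p] in
theorem Moves_mono {K'' : Type u} [Field K''] [IsAlgClosed K''] [Algebra k K''] {C : FFd K}
    {D : FFd K'} {D' : FFd K''} {c : SI k p} (h : Comb.Sp k D.sm D'.sm) (hS : Moves_S C D c) :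
    Moves_S C D' c := by
  intro Ω' _ _ _ X' hX'
  obtain ⟨Ω, _, _, _, X, hX⟩ := exists_genT D (fun _ : Unit => c.E) fun _ => c.pt
  exact (hS Ω X hX).trans (glue_sp_gen h hX hX')

omit [IsAlgClosed k] in
theorem Moves_iso {F : Fin 5 → K} {F' : Fin 5 → K'} (h : Iso5 k F F') :
    Comb.Sp k (hyp F).sm (hyp F').sm := by
  obtain ⟨Ω, _, _, _, D, h1, h2⟩ := hyp_iso h
  exact h1.sp.trans h2.sp'

variable {C : FFd K} {m : ℕ} (hm : IsMax k C m) (hC : HW0 K C.L p)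
include hm hC

theorem Moves_key (hT : 2 ≤ Fintype.card T) {s₀ : SI k p} {s : T → SI k p}
    {a : T → Place k s₀.E.L} {ha : Function.Injective a} (h : Comb.Sp k C.sm (star s₀ s a ha))
    {X : Comb T' K'} (hX : X.HW0 p) (h' : Comb.Sp k X (star s₀ s a ha)) : Comb.Sp k C.sm X :=
  key (uniqC_star p (star s₀ s a ha) hT s₀.genus (fun j => (s j).genus) (star_hw0 s₀ s a ha))
    hm hC h hX h'

theorem st_of_sp (hT : 2 ≤ Fintype.card T) {s₀ : SI k p} {s : T → SI k p} {a : T → Place k s₀.E.L}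
    {ha : Function.Injective a} (h : Comb.Sp k C.sm (star s₀ s a ha)) : St C s₀ s := by
  intro a' ha'
  obtain ⟨Ω, _, _, _, X, hX⟩ := exists_genT s₀.E (fun j => (s j).E) fun j => (s j).pt
  exact (Moves_key hm hC hT h ((hX.hw0 p).2 ⟨s₀.hw0, fun j => (s j).hw0⟩)
    (hX.sp (Comb.Sp.refl _) a ha)).trans (hX.sp (Comb.Sp.refl _) a' ha')

theorem Moves_iff {D : FFd K'} (hD : HW0 K' D.L p) {l n c : SI k p} {a : Place k l.E.L}
    (h : Comb.Sp k D.sm (Comb.one l.E n.E a n.pt)) :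
    Moves_S C D c ↔ St C l (Sum.elim (fun _ : Unit => n) fun _ : Unit => c) := by
  have h' : Comb.Sp k D.sm (star l (fun _ : Unit => n) (fun _ => a) fun _ _ _ => rfl) := h
  have hT : 2 ≤ Fintype.card (Unit ⊕ Unit) := by simp
  refine ⟨fun hS => ?_, fun hS Ω _ _ _ X hX => ?_⟩
  · obtain ⟨Ω, _, _, _, X, hX⟩ := exists_genT D (fun _ : Unit => c.E) fun _ => c.pt
    obtain ⟨a', ha', h1⟩ := Moves_add h' (t := fun _ => c) hX
    exact st_of_sp hm hC hT ((hS Ω X hX).trans h1)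
  · obtain ⟨a', ha', h1⟩ := Moves_add h' (t := fun _ => c) hX
    exact Moves_key hm hC hT (hS a' ha') ((hX.hw0 p).2 ⟨hD, fun _ => c.hw0⟩) h1

theorem Moves_ty1 (hp : p ≠ 2) {c : SI k p} {F F' : Fin 5 → HF k} {β : Fin 5 → k} (hF : Nil5 p F)
    (hF' : Nil5 p F') (hβ : Nil5 p β) (t : Ty1 F β) (t' : Ty1 F' β) (hb : Bd5 p F)
    (hS : Moves_S C (hyp F) c) : Moves_S C (hyp F') c := by
  have hg := hyp_genus p hp hβ.1
  by_cases h : HWn k (hyp β).L p 1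
  · obtain ⟨q, hq⟩ := uniqC_herm p (hyp β) c.E hg h c.genus c.hw0 c.pt
    obtain ⟨Ω, _, _, _, X, hX⟩ := exists_genT (hyp F) (fun _ : Unit => c.E) fun _ => c.pt
    intro Ω' _ _ _ X' hX'
    exact key hq hm hC ((hS Ω X hX).trans (hX.sp (sp_ty1 hp t) _ _))
      ((hX'.hw0 p).2 ⟨hyp_hw0 p hp hF', fun _ => c.hw0⟩) (hX'.sp (sp_ty1 hp t') _ _)
  · obtain ⟨Ω, _, _, _, D, hD, h1, h2⟩ := key0 (uniqC_one p (hyp β) (hyp_hw0 p hp hβ) (by rwa [hg]))
      (hyp_hw0 p hp hF) (sp_ty1 hp t) ((FFd.hw0_sm _ p).2 (hyp_hw0 p hp hF')) (sp_ty1 hp t')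
    obtain ⟨G, l, n, hl, hn, hG, t2, hi⟩ := hb
    obtain ⟨a, h3⟩ := (sp_ty2 hp hG.1 (l := ⟨l, (if_neg hp).mpr hl⟩)
      (n := ⟨n, (if_neg hp).mpr hn⟩) t2).2
    have h4 := (Moves_iso hi).trans h3
    exact Moves_mono h2 ((Moves_iff hm hC hD (h1.trans h4)).2
      ((Moves_iff hm hC (hyp_hw0 p hp hF) h4).1 hS))

theorem Moves_two (hp : p ≠ 2) {l n l' n' c : SI k p}
    (h : St C l (Sum.elim (fun _ : Unit => n) fun _ : Unit => c)) :
    St C l' (Sum.elim (fun _ : Unit => n') fun _ : Unit => c) := by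
  have h2 : ∀ {F : Fin 5 → HF k} {l n : SI k p}, Nil5 p F → Ty2 F l.1 n.1 →
      (Moves_S C (hyp F) c ↔ St C l (Sum.elim (fun _ : Unit => n) fun _ : Unit => c)) :=
    fun hF t => by
      obtain ⟨a, h3⟩ := (sp_ty2 hp hF.1 t).2
      exact Moves_iff hm hC (hyp_hw0 p hp hF) h3
  obtain ⟨F, F', hF, hF', t, t', H⟩ := Z2 hp (fun F => Moves_S C (hyp F) c)
    (fun F F' _ _ hi => Moves_mono (Moves_iso hi))
    (fun F F' β hF hF' hβ t t' hb _ => Moves_ty1 hm hC hp hF hF' hβ t t' hb)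
    (fun F F' l n hF hF' hl hn t t' hS =>
      (h2 (l := ⟨l, (if_neg hp).mpr hl⟩) (n := ⟨n, (if_neg hp).mpr hn⟩) hF' t').2
        ((h2 (l := ⟨l, (if_neg hp).mpr hl⟩) (n := ⟨n, (if_neg hp).mpr hn⟩) hF t).1 hS))
    ((if_neg hp).mp l.2) ((if_neg hp).mp n.2) ((if_neg hp).mp l'.2) ((if_neg hp).mp n'.2)
  exact (h2 hF' t').1 (H.1 ((h2 hF t).2 h))

theorem st_three {s₀ s₀' : SI k p} {s s' : Fin 2 → SI k p} (h : St C s₀ s) : St C s₀' s' := by
  by_cases hp : p = 2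
  · have := SI.subsingleton (k := k) hp
    rwa [Subsingleton.elim s₀' s₀, Subsingleton.elim s' s]
  · let e : Unit ⊕ Unit ≃ Fin 2 := Fintype.equivFinOfCardEq (by simp)
    have he : ∀ t : Unit ⊕ Unit → SI k p,
        t = Sum.elim (fun _ => t (.inl ())) fun _ => t (.inr ()) := fun t => by
      funext j
      rcases j with _ | _ <;> rfl
    have hs : ∀ {l n c : SI k p}, St C l (Sum.elim (fun _ : Unit => n) fun _ : Unit => c) →
        St C l (Sum.elim (fun _ : Unit => c) fun _ : Unit => n) := fun {l n c} h => by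
      refine (St.perm (Equiv.sumComm Unit Unit)).1 ?_
      rwa [he (_ ∘ _)]
    rw [← St.perm e, he (_ ∘ _)] at h ⊢
    exact hs (Moves_two hm hC hp (hs (Moves_two hm hC hp (l' := s₀') h)))

theorem Moves_move (hg : 3 ≤ genus K C.L) (hmg : 6 ≤ m) (hT : Fintype.card T = 2)
    {s₀ s₀' : SI k p} {s s' : T → SI k p} {t : T' → SI k p} (h : St C s₀ (Sum.elim s t)) :
    St C s₀' (Sum.elim s' t) := by
  obtain ⟨Ω, _, _, _, L, hL, hL', hL3⟩ := exists_lower 3 hm hC hg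
  obtain ⟨r₀, r, a, ha, h1⟩ := exists_star 2 hL hL' hL3 hmg
  have h2 := st_of_sp hL hL' (by simp) h1
  obtain ⟨Ω', _, _, _, X, hX⟩ := exists_genT L (fun j => (t j).E) fun j => (t j).pt
  have h3 : ∀ (u₀ : SI k p) (u : T → SI k p),
      ∃ a' ha', Comb.Sp k X (star u₀ (Sum.elim u t) a' ha') := fun u₀ u => by
    obtain ⟨b, hb⟩ := Moves_pts u₀ T
    exact Moves_add ((St.perm (Fintype.equivFinOfCardEq hT).symm).1 (st_three hL hL' h2) b hb) hX
  have hT' : 2 ≤ Fintype.card (T ⊕ T') := by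
    rw [Fintype.card_sum]
    omega
  obtain ⟨b, hb, h4⟩ := h3 s₀ s
  obtain ⟨b', hb', h5⟩ := h3 s₀' s'
  exact st_of_sp hm hC hT' ((Moves_key hm hC hT' (h b hb)
    ((hX.hw0 p).2 ⟨hL', fun j => (t j).hw0⟩) h4).trans h5)

theorem st_all (hT : 2 ≤ Fintype.card T) (hmg : 6 ≤ m) {s₀ s₀' : SI k p} {s s' : T → SI k p}
    (h : St C s₀ s) : St C s₀' s' := by
  classical
  have hg : 3 ≤ genus K C.L := by
    obtain ⟨a, ha⟩ := Moves_pts s₀ T
    rw [← C.genus_sm, (h a ha).genus, star_genus]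
    omega
  have mv : ∀ (j : T) {r₀ r₀' : SI k p} {r r' : T → SI k p}, (∀ i, i ≠ j → r i = r' i) →
      St C r₀ r → St C r₀' r' := fun j r₀ r₀' r r' hr H => by
    obtain ⟨j', hj⟩ := Fintype.exists_ne_of_one_lt_card hT j
    let e := Equiv.sumCompl fun i => i ∈ ({j', j} : Finset T)
    have h1 : (r' ∘ e) ∘ Sum.inr = (r ∘ e) ∘ Sum.inr := funext fun i =>
      (hr i.1 fun h => i.2 (Finset.mem_insert_of_mem (Finset.mem_singleton.2 h))).symm
    rw [← St.perm e, ← Sum.elim_comp_inl_inr (_ ∘ e)] at H ⊢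
    rw [h1]
    exact Moves_move hm hC hg hmg (by rw [Fintype.card_coe, Finset.card_pair hj]) H
  have key : ∀ (U : Finset T) (r : T → SI k p), (∀ i, i ∉ U → r i = s' i) → St C s₀ r →
      St C s₀' s' := fun U => by
    induction U using Finset.induction_on with
    | empty =>
      intro r hr H
      obtain ⟨j⟩ : Nonempty T := Fintype.card_pos_iff.1 (by omega)
      exact mv j (fun i _ => hr i (Finset.notMem_empty i)) H
    | insert j U _ ih =>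
      intro r hr H
      refine ih (Function.update r j (s' j)) (fun i hi => ?_)
        (mv j (fun i hi => (Function.update_of_ne hi _ _).symm) H)
      by_cases hij : i = j
      · rw [hij, Function.update_self]
      · rw [Function.update_of_ne hij]
        exact hr i fun h => (Finset.mem_insert.1 h).elim hij hi
  exact key Finset.univ s (fun i hi => absurd (Finset.mem_univ i) hi) h

/-- Two maximal curves of the same genus are equivalent. -/
theorem max_sp (hg : 3 ≤ genus K C.L) (hmg : 2 * genus K C.L ≤ m) {C' : FFd K'} {m' : ℕ}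
    (hm' : IsMax k C' m') (hC' : HW0 K' C'.L p) (hg' : genus K' C'.L = genus K C.L)
    (hmg' : 2 * genus K C.L ≤ m') : Comb.Sp k C.sm C'.sm := by
  obtain ⟨n, hn⟩ : ∃ n, genus K C.L = n + 1 := ⟨genus K C.L - 1, by omega⟩
  rw [hn] at hg hmg hg' hmg'
  have hT : 2 ≤ Fintype.card (Fin n) := by
    rw [Fintype.card_fin]
    omega
  obtain ⟨s₀, s, a, ha, h1⟩ := exists_star n hm hC hn hmg
  obtain ⟨s₀', s', a', ha', h2⟩ := exists_star n hm' hC' hg' hmg'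
  exact Moves_key hm hC hT (st_all hm hC hT (by omega) (st_of_sp hm hC hT h1) a' ha')
    ((C'.hw0_sm p).2 hC') h2

end PR0
end

-- merged part: Pool.Agent.Work.MP_da2620_ag.Final
section
/-!
# From specialisation of chart points to constant reductions

`reduces_of_sp`: let `K ⊇ K₀` be algebraically closed with infinitely many independent elements (`exists_generic`), `L` the
base change of `C`.  Given `C₀` over `k` take a chart `d₀` with `J`; `Sp` gives a base change `C₂` of `C` along `φ : K₀ → Ω` with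
a chart `d₂` whose coordinates specialise to those of `d₀`.  The function `d₂.x` lies in the subfield generated by
the image of `C.L` and a finite set `s ⊆ Ω`; let `K₁ = acl K₀ s` (with `Ω` a `K₀`-algebra through `φ`), `C₁` the base change of `C` to
`K₁`, mapped into `C₂.L` (`exists_bc`, `BC.unique`).  By `coef_of_bc` and `fod_of_coef` (or directly) the chart comes from a chart `d₁` of
`C₁`.  Embed `K₁` into `K` over `K₀` (a transcendence basis is finite; `IsAlgClosed.lift`), which gives a chart `d` of `L`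
(`BC.exists_cd`, `BC.unique`) whose coordinates `c` specialise to those of `d₀`.  Extend `k[c] → k` (`Spc.exists_hom`) to a
valuation ring `O` of `K` (`exists_ext`), get a chart over `O` by `IsChart.descend`, identify the special
fibre by `coef_bc`, `eq_of_coef`, and apply `goodRed_of_chart`.
-/

namespace PR0

universe u

variable {k K₀ : Type u} [Field k] [IsAlgClosed k] [Field K₀] [IsAlgClosed K₀] [Algebra k K₀]

open Polynomial in
theorem Final_root {F E : Type u} [Field F] [Field E] (a : F →+* E) (g : F →+* k) (x : E) :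
    ∃ y : k, ∀ q : F[X], q.eval₂ a x = 0 → q.eval₂ g y = 0 := by
  let := a.toAlgebra
  let := g.toAlgebra
  by_cases hx : IsIntegral F x
  · obtain ⟨y, hy⟩ := IsAlgClosed.exists_aeval_eq_zero k _ (minpoly.degree_pos hx).ne'
    refine ⟨y, fun q hq => ?_⟩
    obtain ⟨s, rfl⟩ := minpoly.dvd F x hq
    change aeval y _ = 0
    rw [map_mul, hy, zero_mul]
  · refine ⟨0, fun q hq => ?_⟩
    by_cases h0 : q = 0
    · rw [h0, eval₂_zero]
    · exact absurd (IsAlgebraic.isIntegral ⟨q, h0, hq⟩) hx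

/-- Extension of homomorphisms to an algebraically closed field (Zorn's lemma for pairs `(R, f)`, e.g. as
graphs; a maximal pair is local with `ker f` maximal, and for `x ≠ 0` one of `𝔪 R[x]`, `𝔪 R[x⁻¹]` is proper, see
`LocalSubring.exists_valuationRing_of_isMax`; Atiyah-Macdonald 5.21). -/
theorem exists_ext {K : Type u} [Field K] (R : Subring K) (f : R →+* k) :
    ∃ (O : ValuationSubring K) (h : R ≤ O.toSubring) (r : O →+* k),
      (∀ c : R, r ⟨c.1, h c.2⟩ = f c) ∧ ∀ c : O, r c = 0 ↔ O.valuation c < 1 := by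
  obtain ⟨Γ, h0, hm⟩ := zorn_le_nonempty₀ {Γ : Subring (K × k) | ∀ z ∈ Γ, z.1 = 0 → z.2 = 0}
    (fun c hc hch y hy => ⟨sSup c, fun z hz => by
      obtain ⟨s, hs, hz⟩ := (Subring.mem_sSup_of_directedOn ⟨y, hy⟩ hch.directedOn).1 hz
      exact hc hs z hz, fun z hz => le_sSup hz⟩) (R.subtype.prod f).range (by
      rintro _ ⟨c, rfl⟩ hc
      change f c = 0
      rw [show c = 0 from Subtype.ext hc, map_zero])
  have hinv : ∀ z : Γ, z.1.2 ≠ 0 → IsUnit z := by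
    rintro ⟨z, hz⟩ h2
    have h1 : z.1 ≠ 0 := fun e => h2 (hm.1 z hz e)
    let Γ' : Subring (K × k) :=
      { carrier := {w | ∃ n : ℕ, z ^ n * w ∈ Γ}
        mul_mem' := by
          rintro a b ⟨n, ha⟩ ⟨m, hb⟩
          exact ⟨n + m, by rw [pow_add, mul_mul_mul_comm]; exact mul_mem ha hb⟩
        one_mem' := ⟨0, by simp⟩
        add_mem' := by
          rintro a b ⟨n, ha⟩ ⟨m, hb⟩
          refine ⟨n + m, ?_⟩
          rw [show z ^ (n + m) * (a + b) = z ^ m * (z ^ n * a) + z ^ n * (z ^ m * b) by ring]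
          exact add_mem (mul_mem (pow_mem hz _) ha) (mul_mem (pow_mem hz _) hb)
        zero_mem' := ⟨0, by simp⟩
        neg_mem' := by
          rintro a ⟨n, ha⟩
          exact ⟨n, by rw [mul_neg]; exact neg_mem ha⟩ }
    have h3 : z * z⁻¹ = 1 := Prod.ext (mul_inv_cancel₀ h1) (mul_inv_cancel₀ h2)
    have h4 : Γ' ≤ Γ := hm.2 (y := Γ') (by
      rintro w ⟨n, hw⟩ e
      have := hm.1 _ hw (by simp [e])
      exact (mul_eq_zero.1 this).resolve_left (pow_ne_zero n h2)) fun w hw => ⟨0, by simpa using hw⟩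
    exact IsUnit.of_mul_eq_one ⟨z⁻¹, h4 ⟨1, by rw [pow_one, h3]; exact one_mem _⟩⟩ (Subtype.ext h3)
  have : IsLocalRing Γ := .of_isUnit_or_isUnit_one_sub_self fun z => by
    by_cases e : z.1.2 = 0
    · exact Or.inr (hinv _ (by simp [e]))
    · exact Or.inl (hinv _ e)
  let a₂ : Γ →+* k := (RingHom.snd K k).comp Γ.subtype
  have : IsLocalHom a₂ := ⟨fun z hz => hinv z hz.ne_zero⟩
  obtain ⟨V, hV, hl⟩ := IsLocalRing.exists_factor_valuationRing ((RingHom.fst K k).comp Γ.subtype)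
  let a : Γ →+* V := ((RingHom.fst K k).comp Γ.subtype).codRestrict V.toSubring hV
  have : IsLocalHom a := hl
  have ha : Function.Bijective a := by
    refine ⟨(injective_iff_map_eq_zero _).2 fun z hz => ?_, fun x => ?_⟩
    · have h1 : z.1.1 = 0 := congrArg Subtype.val hz
      exact Subtype.ext (Prod.ext h1 (hm.1 _ z.2 h1))
    · obtain ⟨y, hy⟩ := Final_root (IsLocalRing.ResidueField.map a)
        (IsLocalRing.ResidueField.lift a₂) (IsLocalRing.residue V x)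
      let θ : Polynomial Γ →+* K × k := (V.subtype.comp (Polynomial.eval₂RingHom a x)).prod
        (Polynomial.eval₂RingHom a₂ y)
      have h4 : θ.range ≤ Γ := hm.2 (y := θ.range) (by
        rintro _ ⟨q, rfl⟩ e
        have h1 : q.eval₂ a x = 0 := Subtype.ext e
        have h2 := hy (q.map (IsLocalRing.residue Γ)) (by
          rw [Polynomial.eval₂_map, IsLocalRing.ResidueField.map_comp_residue,
            ← Polynomial.hom_eval₂, h1, map_zero])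
        rwa [Polynomial.eval₂_map, IsLocalRing.ResidueField.lift_comp_residue] at h2)
        fun w hw => ⟨Polynomial.C ⟨w, hw⟩, Prod.ext (by simp [θ, a]) (by simp [θ, a₂])⟩
      exact ⟨⟨θ Polynomial.X, h4 ⟨_, rfl⟩⟩, Subtype.ext (by simp [θ, a])⟩
  let e := RingEquiv.ofBijective a ha
  refine ⟨V, fun c hc => hV ⟨_, h0 ⟨⟨c, hc⟩, rfl⟩⟩, a₂.comp e.symm, fun c => ?_, fun c => ?_⟩
  · exact congrArg a₂ (e.symm_apply_apply ⟨_, h0 ⟨c, rfl⟩⟩)
  · obtain ⟨z, rfl⟩ := e.surjective c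
    rw [RingHom.comp_apply, RingHom.coe_coe, e.symm_apply_apply, ← V.valuation_lt_one_iff,
      IsLocalRing.mem_maximalIdeal, mem_nonunits_iff, MulEquiv.isUnit_map, ← isUnit_map_iff a₂,
      isUnit_iff_ne_zero, not_not]

theorem Final_factor {K₁ Ω L₀ L₁ L : Type u} [Field K₁] [IsAlgClosed K₁] [Field Ω] [IsAlgClosed Ω]
    [Field L₀] [Algebra K₀ L₀] [Fact (IsFF K₀ L₀)] [Field L₁] [Algebra K₁ L₁] [Fact (IsFF K₁ L₁)]
    [Field L] [Algebra Ω L] [Fact (IsFF Ω L)] {φ₁ : K₀ →+* K₁} {ψ₁ : L₀ →+* L₁} (h₁ : BC φ₁ ψ₁)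
    (j : K₁ →+* Ω) {ψ : L₀ →+* L} (h : BC (j.comp φ₁) ψ) :
    ∃ χ : L₁ →+* L, BC j χ ∧ ∀ f, χ (ψ₁ f) = ψ f := by
  obtain ⟨L', _, _, _, ψ', h'⟩ := exists_bc (L := L₁) j
  obtain ⟨e, he⟩ := (h₁.trans h').unique h
  exact ⟨(e : L' →+* L).comp ψ', h'.trans (BC.of_equiv e), he⟩

theorem Final_cd {K L₀ L : Type u} [Field K] [IsAlgClosed K] [Field L₀] [Algebra K₀ L₀]
    [Fact (IsFF K₀ L₀)] [Field L] [Algebra K L] [Fact (IsFF K L)] {φ : K₀ →+* K} {ψ : L₀ →+* L}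
    (hψ : BC φ ψ) {ι : Type} [Fintype ι] [DecidableEq ι] [Nonempty ι] (d : CD K L ι)
    (hx : d.x ∈ Set.range ψ) : ∃ d₀ : CD K₀ L₀ ι, d.alg = bc φ d₀.alg := by
  obtain ⟨x₀, hx⟩ := hx
  have hx0 : x₀ ≠ 0 := fun h0 => d.transcendental (by rw [← hx, h0, map_zero]; exact isAlgebraic_zero)
  have hov : ∀ i, ∃ P : Place K₀ L₀, Over ψ P (d.pl i) := fun i =>
    (hψ.over_or (d.pl i)).resolve_right fun hh =>
      (d.poles_eq.ge ⟨i, rfl⟩ : d.pl i ∈ poles K d.x) (hx ▸ hh x₀)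
  choose pl hpl using hov
  obtain ⟨d₀, h1, h2⟩ := exists_cd (x := x₀) (pl := pl)
    (fun i j hij => d.inj ((hψ.exists_over (pl i)).unique (hpl i) (hij ▸ hpl j)))
    (fun i => ⟨hx0, by rw [← hψ.BC_ord_eq (hpl i) hx0, hx, d.ord_x]⟩)
    (fun P hP => by
      obtain ⟨P', hP', -⟩ := hψ.exists_over P
      obtain ⟨i, rfl⟩ := d.pole P' (hx ▸ mt (hP' x₀).1 hP)
      exact ⟨i, hψ.over_inj hP' (hpl i)⟩)
  exact ⟨d₀, (fod_cd hψ d₀ d (h1 ▸ hx) (h2 ▸ hpl)).2.1⟩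

omit [IsAlgClosed k] in
theorem Final_empty {K K' : Type u} [Field K] [Field K'] [Algebra k K] [Algebra k K']
    (c : Empty → K) (c' : Empty → K') : Spc k c c' := fun f hf => by
  obtain ⟨a, rfl⟩ := MvPolynomial.C_surjective Empty f
  rw [MvPolynomial.aeval_C, map_eq_zero] at hf ⊢
  exact hf

omit [IsAlgClosed k] in
theorem Final_move (C : FFd K₀) (D : FFd (HF K₀)) {ψ : C.L →+* D.L}
    (hψ : BC (algebraMap K₀ (HF K₀)) ψ) {Ω : Type u} [Field Ω] [Algebra k Ω] [IsAlgClosed Ω]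
    {C₂ : FFd Ω} (φ : K₀ →ₐ[k] Ω) {ψ₂ : C.L →+* C₂.L} (h₂ : BC (φ : K₀ →+* Ω) ψ₂) {ι : Type}
    [Fintype ι] [DecidableEq ι] [Nonempty ι] (i₀ : ι) {J : Finset (ι × ℕ)} (d₂ : CD Ω C₂.L ι)
    (hJ : IsChart J d₂.alg) : ∃ d : CD (HF K₀) D.L ι, IsChart J d.alg ∧
      Spc k (coef i₀ J d.alg) (coef i₀ J d₂.alg) := by
  let : Algebra K₀ Ω := (φ : K₀ →+* Ω).toAlgebra
  have : IsScalarTower k K₀ Ω := .of_algebraMap_eq fun c => (φ.commutes c).symm
  obtain ⟨r, hr, s, hs, -, hx⟩ := h₂.BC_frac d₂.x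
  obtain ⟨n, e, b, -, rfl⟩ := h₂.BC_repr hr
  obtain ⟨n', e', b', -, rfl⟩ := h₂.BC_repr hs
  let K₁ := acl K₀ (Set.range e ∪ Set.range e')
  obtain ⟨L₁, _, _, _, ψ₁, h₁⟩ := exists_bc (L := C.L) (algebraMap K₀ K₁)
  obtain ⟨χ, hχ, h3⟩ := Final_factor h₁ (algebraMap K₁ Ω) (ψ := ψ₂) h₂
  have h4 : ∀ {n : ℕ} (e : Fin n → Ω) (b : Fin n → C.L), (∀ l, e l ∈ K₁) →
      ∑ l, e l • ψ₂ (b l) ∈ χ.fieldRange := fun e b he =>
    sum_mem fun l _ => ⟨(⟨e l, he l⟩ : K₁) • ψ₁ (b l), by rw [hχ.BC_smul, h3]; rfl⟩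
  obtain ⟨d₁, h5⟩ := Final_cd hχ d₂ (hx ▸ div_mem
    (h4 e b fun l => subset_acl _ (Or.inl ⟨l, rfl⟩))
    (h4 e' b' fun l => subset_acl _ (Or.inr ⟨l, rfl⟩)) : d₂.x ∈ χ.fieldRange)
  obtain ⟨J₁, hJ₁⟩ := d₁.exists_chart
  have h6 : IsChart J d₁.alg := hJ₁.of_bc _ (h5 ▸ hJ)
  obtain ⟨j, -⟩ := emb (k := K₀) (κ := K₀) (K := K₁) (I := Empty) (c := Empty.elim)
    (c' := Empty.elim) (Final_empty _ _) (Final_empty _ _)
    (ne_top_of_le_ne_top (Set.finite_range _).encard_lt_top.ne (rk_le_encard _))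
    (trdeg_acl_le (ne_top_of_le_ne_top
      ((Set.finite_range _).union (Set.finite_range _)).encard_lt_top.ne (rk_le_encard _)))
  obtain ⟨χ', hχ', -⟩ := Final_factor h₁ (j : K₁ →+* HF K₀) (ψ := ψ) (j.comp_algebraMap ▸ hψ)
  obtain ⟨d, -, -, -, h7, -⟩ := hχ'.exists_cd d₁
  refine ⟨d, h7 ▸ h6.bc _, ?_⟩
  rw [h5, h7, h6.coef_bc, h6.coef_bc]
  exact (Spc.of_map _ (j.restrictScalars k) (j : K₁ →+* HF K₀).injective).trans
    (Spc.map _ (K₁.val.restrictScalars k))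

/-- There is a chart over a valuation ring with the two given fibres. -/
def ChartRed (k K L L₀ : Type u) [Field k] [Field K] [Field L] [Field L₀] [Algebra k K] [Algebra K L]
    [Algebra k L₀] : Prop :=
  ∃ (m : ℕ) (J : Finset (Fin (m + 1) × ℕ)) (O : ValuationSubring K) (r : O →+* k)
    (𝒜 : Subalgebra O (LT (Fin (m + 1)) O)) (d : CD K L (Fin (m + 1))) (d₀ : CD k L₀ (Fin (m + 1))),
    (∀ c : k, ∃ h : algebraMap k K c ∈ O, r ⟨_, h⟩ = c) ∧ (∀ c : O, r c = 0 ↔ O.valuation c < 1) ∧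
    IsChart J 𝒜 ∧ d.alg = bc (algebraMap O K) 𝒜 ∧ d₀.alg = bc r 𝒜

theorem reduces_of_sp (C : FFd K₀) :
    ∃ (K : Type u) (_ : Field K) (_ : Algebra k K) (_ : IsAlgClosed K) (D : FFd K),
      Comb.Le k C.sm D.sm ∧ ∀ C₀ : FFd k, Comb.Sp k C.sm C₀.sm → ChartRed k K D.L C₀.L := by
  obtain ⟨L, _, _, _, ψ, hψ⟩ := exists_bc (L := C.L) (algebraMap K₀ (HF K₀))
  refine ⟨HF K₀, inferInstance, inferInstance, inferInstance, ⟨L⟩,
    FFd.le_sm k (C' := ⟨L⟩) (IsScalarTower.toAlgHom k K₀ (HF K₀)) ψ hψ, fun C₀ h => ?_⟩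
  obtain ⟨d₀, -⟩ := exists_cd_avoid (K := k) (L := C₀.L) (ι := Fin (2 * genus k C₀.L + 1)) ∅
    (fun _ => 0) (by simp)
  obtain ⟨J, hJ1, hJ⟩ := d₀.exists_chart_simple (by simp)
  obtain ⟨Ω, _, _, _, X, A, h1, h2, h3⟩ := h k C₀.sm (Comb.Le.refl _) _ 0 J _
    (FFd.has_sm.2 ⟨d₀, rfl, hJ⟩) hJ1
  obtain ⟨h4, φ, ψ₂, h5⟩ := FFd.exists_of_le _ h1
  rw [h4] at h2
  obtain ⟨d₂, rfl, h6⟩ := FFd.has_sm.1 h2
  obtain ⟨d, h7, h8⟩ := Final_move C ⟨L⟩ hψ φ h5 0 d₂ h6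
  obtain ⟨f, hf⟩ := (h8.trans h3).exists_hom
  obtain ⟨O, hO, r, h9, h10⟩ := exists_ext
    (Algebra.adjoin k (Set.range (coef 0 J d.alg))).toSubring (f : _ →+* k)
  have hk : ∀ c, algebraMap k (HF K₀) c ∈ O := fun c =>
    hO ((Algebra.adjoin k (Set.range (coef 0 J d.alg))).algebraMap_mem c)
  have hr : ∀ c, r ⟨_, hk c⟩ = c := fun c => 
    (h9 ⟨_, (Algebra.adjoin k (Set.range (coef 0 J d.alg))).algebraMap_mem c⟩).trans (f.commutes c)
  let : Algebra k O := ((algebraMap k (HF K₀)).codRestrict O hk).toAlgebra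
  obtain ⟨A₀, a1, a2, a3⟩ := h7.descend (i₀ := 0)
    ({ O.subtype with commutes' := fun _ => rfl } : O →ₐ[k] HF K₀) Subtype.val_injective
    (c := fun a => ⟨_, hO (Algebra.subset_adjoin ⟨a, rfl⟩)⟩) fun _ => rfl
  exact ⟨_, J, O, r, A₀, d, d₀, fun c => ⟨hk c, hr c⟩, h10, a1, a3.symm,
    hJ.eq_of_coef 0 (a1.bc r) (by
      rw [a1.coef_bc, a2]
      exact funext fun a => ((h9 ⟨_, Algebra.subset_adjoin ⟨a, rfl⟩⟩).trans (hf a)).symm)⟩

/-- The main theorem in Hasse-Witt form (`exists_max`, `max_sp`, `reduces_of_sp`). -/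
theorem main_hw (p : ℕ) [Fact p.Prime] [CharP k p] {g : ℕ} (hg : 3 ≤ g) (C₁ : FFd k)
    (h₁ : genus k C₁.L = g) (h₂ : HW0 k C₁.L p) :
    ∃ (K : Type u) (_ : Field K) (_ : Algebra k K) (_ : IsAlgClosed K) (D : FFd K),
      genus K D.L = g ∧ HW0 K D.L p ∧
        ∀ C₀ : FFd k, genus k C₀.L = g → HW0 k C₀.L p → ChartRed k K D.L C₀.L := by
  obtain ⟨Ω, _, _, _, C, a1, a2, a3⟩ := exists_max p k C₁ h₂ le_rfl
  have a4 : genus Ω C.L = g := by rw [← C.genus_sm, a3.genus, C₁.genus_sm, h₁]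
  have := charP_of_injective_algebraMap (algebraMap k Ω).injective p
  obtain ⟨K, _, _, _, D, ⟨φ, b1⟩, b2⟩ := reduces_of_sp (k := k) C
  refine ⟨K, _, _, inferInstance, D, by rw [← D.genus_sm, b1.genus, C.genus_sm, a4],
    (D.hw0_sm p).1 ((b1.hw0 p).2 ((C.hw0_sm p).2 a2)), fun C₀ c1 c2 => b2 C₀ ?_⟩
  obtain ⟨Ω', _, _, _, C', d1, d2, d3⟩ := exists_max p k C₀ c2 le_rfl
  have d4 : genus Ω' C'.L = g := by rw [← C'.genus_sm, d3.genus, C₀.genus_sm, c1]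
  exact (max_sp a1 a2 (a4 ▸ hg) (by omega) d1 d2 (d4.trans a4.symm) (by omega)).trans d3

end PR0
end

-- merged part: Pool.Agent.Work.MP_da2620_ag.MgC
section
/-!
# Irreducibility of the `p`-rank zero stratum

`family_of_chart`: `exists_proj`, `TwoCh.smooth`; for `τ` use `exists_tens`, `sm_of_smooth`, `exists_cd_of_sm`, `exists_fibre_curve`.
`open_nbhd`: every `k`-point of `Spec R` is `Spec.map τ` (`Spec.preimage`), so `family_of_chart` gives a `Family` (genus: `CD.card_eq`,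
`BC.of_equiv`, `BC.genus_eq`).  The open set `V` attached to `U` contains the point `ker τ₀` (`Curve.exists_iso`, `Quot.sound`), so a basic open `D(v)`
around it.
`irreducible_Mg0`: nonempty by `exists_hw0`, `exists_curve`, `prank_of_hw0`.  Let `D` be as in `main_hw`, and `[C₀] ∈ U`, `[C₀'] ∈ U'` of `p`-rank
zero.  `ChartRed` gives charts `d`, `d'` of `D` specialising to charts of `C₀.L`, `C₀'.L` (`coef_bc`, `Spc.of_map`, `Spc.map`); apply
`exists_family`, `open_nbhd`, `spread`, and choose `τ : R₃ → k` with `τ (v v' w) ≠ 0` (Nullstellensatz; `exists_rat`).  The fibre has nilpotent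
Frobenius since its coordinates are a specialisation of those of `d` (`Key_has`, `Key_snil`, or `snil_iff`, `SNil.map`, `SNil.of_map`).
-/

namespace PR0

open AlgebraicGeometry CategoryTheory

universe u

variable {k : Type u} [Field k] [IsAlgClosed k] {ι : Type} [Fintype ι] [DecidableEq ι] [Nonempty ι]
  {J : Finset (ι × ℕ)} {R : Type u} [CommRing R] [Algebra k R] {𝒜 : Subalgebra R (LT ι R)}

theorem family_of_chart (h : IsChart J 𝒜) (hs : ∀ i, Algebra.Smooth R (AF 𝒜 h.x_mem i)) :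
    ∃ (Y : Scheme.{u}) (π : Y ⟶ Spec (CommRingCat.of R)), IsProper π ∧ Smooth π ∧
      ∀ τ : R →ₐ[k] k, ∃ (C₀ : FFd k) (d₀ : CD k C₀.L ι) (C : Curve k) (i : C.X ⟶ Y),
        d₀.alg = bc (τ : R →+* k) 𝒜 ∧
        IsPullback i C.f π (Spec.map (CommRingCat.ofHom (τ : R →+* k))) ∧
        Nonempty (C.L ≃ₐ[k] C₀.L) := by
  obtain ⟨Y, π, j, hp, hj⟩ := h.exists_proj
  refine ⟨Y, π, hp, hj.smooth hs, fun τ => ?_⟩
  let : Algebra R k := (τ : R →+* k).toAlgebra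
  obtain ⟨e, -⟩ := h.exists_tens (R' := k) 0
  have := hs 0
  have h1 : Algebra.Smooth k (AF (bc (algebraMap R k) 𝒜) (h.bc _).x_mem 0) :=
    Algebra.Smooth.of_equiv e
  obtain ⟨L, _, _, _, d, hd⟩ := exists_cd_of_sm (h.bc _) (sm_of_smooth (h.bc _) h1)
  obtain ⟨C, i, h2, h3⟩ := exists_fibre_curve h hj (τ : R →+* k) d hd
  exact ⟨⟨L⟩, d, C, i, hd, h2, h3⟩

omit [IsAlgClosed k] in
theorem MgC_mk {g : ℕ} (C C' : CurveG k g) (e : C.1.L ≃ₐ[k] C'.1.L) : Mg.mk C = Mg.mk C' :=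
  Quot.sound (C.1.exists_iso C'.1 e)

theorem MgC_null {B : Type u} [CommRing B] [IsDomain B] [Algebra k B] [Algebra.FiniteType k B] {z : B}
    (hz : z ≠ 0) : ∃ τ : B →ₐ[k] k, τ z ≠ 0 := by
  have : IsJacobsonRing B := isJacobsonRing_of_finiteType (A := k)
  have h1 : z ∉ (⊥ : Ideal B).jacobson := by
    rw [IsJacobsonRing.out inferInstance Ideal.isPrime_bot.isRadical]
    exact hz
  obtain ⟨m, hm, hzm⟩ : ∃ m : Ideal B, m.IsMaximal ∧ z ∉ m := by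
    simpa [Ideal.jacobson, Ideal.mem_sInf] using h1
  let := Ideal.Quotient.field m
  have := finite_of_finite_type_of_isJacobsonRing k (B ⧸ m)
  exact ⟨(IsAlgClosed.lift : B ⧸ m →ₐ[k] k).comp (Ideal.Quotient.mkₐ k m),
    (map_ne_zero (IsAlgClosed.lift : B ⧸ m →ₐ[k] k)).2
      fun e => hzm (Ideal.Quotient.eq_zero_iff_mem.1 e)⟩

omit [IsAlgClosed k] [Nonempty ι] in
theorem MgC_spc (h : IsChart J 𝒜) (i₀ : ι) {K K' : Type u} [CommRing K] [CommRing K'] [Algebra k K]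
    [Algebra k K'] (φ : R →ₐ[k] K) (hφ : Function.Injective φ) (τ : R →ₐ[k] K') :
    Spc k (coef i₀ J (bc (φ : R →+* K) 𝒜)) (coef i₀ J (bc (τ : R →+* K') 𝒜)) := by
  rw [h.coef_bc, h.coef_bc]
  exact (Spc.of_map _ φ hφ).trans (Spc.map _ τ)

theorem open_nbhd [Algebra.FiniteType k R] (h : IsChart J 𝒜)
    (hs : ∀ i, Algebra.Smooth R (AF 𝒜 h.x_mem i)) {g : ℕ} (hg : J.card = g) {U : Set (Mg k g)}
    (hU : IsOpen U) (C₀ : CurveG k g) (h₀ : Mg.mk C₀ ∈ U) (τ₀ : R →ₐ[k] k) (d₀ : CD k C₀.1.L ι)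
    (hd₀ : d₀.alg = bc (τ₀ : R →+* k) 𝒜) : ∃ v : R, τ₀ v ≠ 0 ∧ ∀ τ : R →ₐ[k] k, τ v ≠ 0 →
      ∃ (C : CurveG k g) (d : CD k C.1.L ι), d.alg = bc (τ : R →+* k) 𝒜 ∧ Mg.mk C ∈ U := by
  obtain ⟨Y, π, hp, hsm, hf⟩ := family_of_chart (k := k) h hs
  have h1 : ∀ τ : R →ₐ[k] k, ∃ (C : CurveG k g) (d : CD k C.1.L ι) (i : C.1.X ⟶ Y),
      d.alg = bc (τ : R →+* k) 𝒜 ∧
      IsPullback i C.1.f π (Spec.map (CommRingCat.ofHom (τ : R →+* k))) := fun τ => by
    obtain ⟨C₁, d₁, C, i, h1, h2, ⟨e⟩⟩ := hf τ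
    have : Fact (IsFF k C.L) := ⟨C.isFF⟩
    obtain ⟨d, -, -, -, h3, -⟩ := (BC.of_equiv e.symm).exists_cd d₁
    rw [bc_id, h1] at h3
    exact ⟨⟨C, (d.card_eq (h3 ▸ h.bc _)).symm.trans hg⟩, d, i, h3, h2⟩
  obtain ⟨V, hV⟩ := hU
    { S := Spec (CommRingCat.of R)
      Y := Y
      s := Spec.map (CommRingCat.ofHom (algebraMap k R))
      π := π
      finiteType := (HasRingHomProperty.Spec_iff (P := @LocallyOfFiniteType)).2
        (RingHom.finiteType_algebraMap.2 inferInstance)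
      proper := hp
      smooth := hsm
      fibre := fun t ht => by
        obtain ⟨t, rfl⟩ := Spec.map_surjective t
        rw [← Spec.map_comp, ← Spec.map_id] at ht
        obtain ⟨C, -, i, -, h2⟩ := h1 ⟨t.hom, fun c =>
          congrArg (fun f => f.hom c) (Spec.map_injective ht)⟩
        exact ⟨C, i, h2⟩ }
  have h2 : ∀ τ : R →ₐ[k] k, Spec.map (CommRingCat.ofHom (τ : R →+* k)) ≫
      Spec.map (CommRingCat.ofHom (algebraMap k R)) = 𝟙 _ := fun τ => by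
    rw [← Spec.map_comp, ← CommRingCat.ofHom_comp, τ.comp_algebraMap, ← Spec.map_id]
    rfl
  have h3 : ∀ (τ : R →ₐ[k] k) (v : R), (Spec.map (CommRingCat.ofHom (τ : R →+* k)) :
      Spec (CommRingCat.of k) ⟶ Spec (CommRingCat.of R)) (IsLocalRing.closedPoint k) ∈
        PrimeSpectrum.basicOpen v ↔ τ v ≠ 0 := fun τ v =>
    (IsLocalRing.notMem_maximalIdeal (x := τ v)).trans isUnit_iff_ne_zero
  obtain ⟨C₁, d₁, i₁, h4, h5⟩ := h1 τ₀
  have : Fact (IsFF k C₁.1.L) := ⟨C₁.1.isFF⟩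
  have : Fact (IsFF k C₀.1.L) := ⟨C₀.1.isFF⟩
  obtain ⟨e, -⟩ := d₁.exists_equiv d₀ (h4.trans hd₀.symm)
  obtain ⟨_, ⟨v, rfl⟩, h6, h7⟩ := PrimeSpectrum.isTopologicalBasis_basic_opens.exists_subset_of_mem_open
    ((hV _ (h2 τ₀) C₁ i₁ h5).1 (MgC_mk _ _ e ▸ h₀)) V.2
  refine ⟨v, (h3 τ₀ v).1 h6, fun τ hτ => ?_⟩
  obtain ⟨C, d, i, h8, h9⟩ := h1 τ
  exact ⟨C, d, h8, (hV _ (h2 τ) C i h9).2 (h7 ((h3 τ v).2 hτ))⟩

theorem MgC_red {K : Type u} [Field K] [Algebra k K] [IsAlgClosed K] {D : FFd K} {g : ℕ}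
    {U : Set (Mg k g)} (hU : IsOpen U) (C₀ : CurveG k g) (h₀ : Mg.mk C₀ ∈ U)
    (h : ChartRed k K D.L C₀.1.L) : ∃ (m : ℕ) (J : Finset (Fin (m + 1) × ℕ)) (R : Subalgebra k K)
      (𝒜 : Subalgebra R (LT (Fin (m + 1)) R)) (d : CD K D.L (Fin (m + 1))) (v : R), R.FG ∧
      IsChart J 𝒜 ∧ d.alg = bc (R.val : R →+* K) 𝒜 ∧ v ≠ 0 ∧ ∀ τ : R →ₐ[k] k, τ v ≠ 0 →
        ∃ (C : CurveG k g) (d : CD k C.1.L (Fin (m + 1))), d.alg = bc (τ : R →+* k) 𝒜 ∧
          Mg.mk C ∈ U := by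
  have : Fact (IsFF k C₀.1.L) := ⟨C₀.1.isFF⟩
  obtain ⟨m, J, O, r, 𝒜, d, d₀, a1, -, a3, a4, a5⟩ := h
  let : Algebra k O := ((algebraMap k K).codRestrict O fun c => (a1 c).1).toAlgebra
  have h1 := MgC_spc a3 0 (⟨algebraMap O K, fun _ => rfl⟩ : O →ₐ[k] K) Subtype.val_injective
    (⟨r, fun c => (a1 c).2⟩ : O →ₐ[k] k)
  have h2 : IsChart J d₀.alg := a5 ▸ a3.bc _
  obtain ⟨R, ℬ, h3, τ₀, h4, h5, h6, h7⟩ := exists_family d (a4 ▸ a3.bc _) d₀ h2 0
    (by rw [a4, a5]; exact h1)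
  have := (Subalgebra.fg_iff_finiteType R).1 h4
  obtain ⟨v, h8, h9⟩ := open_nbhd h3 h7 ((d₀.card_eq h2).trans C₀.2) hU C₀ h₀ τ₀ d₀ h6
  exact ⟨m, J, R, ℬ, d, v, h4, h3, h5, fun e => h8 (by rw [e, map_zero]), h9⟩

theorem irreducible_Mg0 (k : Type u) [Field k] [IsAlgClosed k] (p : ℕ) [Fact p.Prime] [CharP k p]
    (g : ℕ) (hg : 3 ≤ g) : IsIrreducible (Mg0 k g p) := by
  obtain ⟨C₁, h₁, h₂⟩ := exists_hw0 p k g
  constructor
  · obtain ⟨C, ⟨e⟩⟩ := exists_curve k C₁.L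
    have : Fact (IsFF k C.L) := ⟨C.isFF⟩
    have hb := BC.of_equiv e
    exact ⟨_, ⟨C, hb.genus_eq.symm.trans h₁⟩, rfl, prank_of_hw0 p ((hb.hw0_iff p).1 h₂)⟩
  obtain ⟨K, _, _, _, D, -, e2, e3⟩ := main_hw p hg C₁ h₁ h₂
  have : CharP K p := charP_of_injective_algebraMap (algebraMap k K).injective p
  rintro U U' hU hU' ⟨_, ⟨C₀, rfl, h0⟩, hC₀⟩ ⟨_, ⟨C₀', rfl, h0'⟩, hC₀'⟩
  have : Fact (IsFF k C₀.1.L) := ⟨C₀.1.isFF⟩
  have : Fact (IsFF k C₀'.1.L) := ⟨C₀'.1.isFF⟩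
  obtain ⟨m, J, R, 𝒜, d, v, a1, a2, a3, a4, a5⟩ :=
    MgC_red hU C₀ hC₀ (e3 ⟨C₀.1.L⟩ C₀.2 (hw0_of_prank p h0))
  obtain ⟨m', J', R', 𝒜', d', v', b1, b2, b3, b4, b5⟩ :=
    MgC_red hU' C₀' hC₀' (e3 ⟨C₀'.1.L⟩ C₀'.2 (hw0_of_prank p h0'))
  obtain ⟨R₃, l, l', w, c1, c2, c3⟩ := spread a1 b1 a2 b2 d d' a3 b3
  have := (Subalgebra.fg_iff_finiteType R₃).1 c1
  obtain ⟨τ, hτ⟩ := MgC_null (k := k) (mul_ne_zero (mul_ne_zero
    ((map_ne_zero_iff _ (Subalgebra.inclusion_injective l)).2 a4)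
    ((map_ne_zero_iff _ (Subalgebra.inclusion_injective l')).2 b4)) c2)
  rw [map_mul, map_mul, mul_ne_zero_iff, mul_ne_zero_iff] at hτ
  obtain ⟨C, dC, a6, a7⟩ := a5 (τ.comp (Subalgebra.inclusion l)) hτ.1.1
  obtain ⟨C', dC', b6, b7⟩ := b5 (τ.comp (Subalgebra.inclusion l')) hτ.1.2
  have : Fact (IsFF k C.1.L) := ⟨C.1.isFF⟩
  have : Fact (IsFF k C'.1.L) := ⟨C'.1.isFF⟩
  obtain ⟨e⟩ := c3 τ hτ.2 _ _ dC dC' a6 b6
  refine ⟨_, ⟨C, rfl, prank_of_hw0 p ((dC.hw0_iff p).2 ?_)⟩, a7, MgC_mk _ _ e ▸ b7⟩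
  have h3 := (d.hw0_iff p).1 e2
  rw [a3] at h3
  rw [a6]
  exact ((a2.bc _).snil_iff (k := k) p 0).1 (Key_snil (MgC_spc a2 0 R.val Subtype.val_injective _)
    (((a2.bc _).snil_iff (k := k) p 0).2 h3))

end PR0
end
end
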