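import Pool.Agent.Work.MP_da2620_ag.Sp
import Pool.Agent.Work.MP_da2620_ag.Arc

/-!
# Models over the valuation ring of the Hahn field

`crit`: lift `1` and the `χ μ` (`μ ∉ J`, `μ.2 < n`) of the special fibre; the matrix of their polar
coefficients outside `J` is the identity mod the maximal ideal, so invertible; this gives `surj`;
these elements are a basis of `lev A n` by `finrank_lev`, which gives the rest.
`expand`: induction on the coefficient: `f = σ f + t f'`.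
`sec`: `y = u - c` has unit leading coefficients, so `N = 𝒜 / y` is a finite `O`-module (divide: an
element of pole order `m ≥ n + M` is congruent mod `y` to one of smaller order), torsion free (if
`π f = y g` then the reduction of `g` vanishes, as that of `y` is a unit of `LT`; divide by a
coefficient of minimal value), so free, with reduction `spe / ū = κ × rest`.  Take `e ∈ 𝒜` reducing to
the idempotent `(1, 0)`; its characteristic polynomial on `N` is `∏ (T - l i)` with `l i ∈ O`,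
reducing to `(T - 1) T ^ (r-1)`.  With `s = ∏_(i > 1) (e - l i)` the ideal `s N_K` is one dimensional;
`f s = σ(f) s` defines `σ`.
-/

namespace PR0

open MvPolynomial

universe u

variable {κ : Type u} [Field κ] {ι : Type} [Fintype ι] [DecidableEq ι] {J : Finset (ι × ℕ)}

/-- The inclusion of the valuation ring. -/
noncomputable abbrev inc (κ : Type u) [Field κ] : HO κ →+* HF κ := algebraMap (HO κ) (HF κ)
/-- The residue map. -/
noncomputable abbrev red (κ : Type u) [Field κ] : HO κ →+* κ := (hres : HO κ →ₐ[κ] κ)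

/-- Generic fibre. -/
noncomputable abbrev gen' (𝒜 : Subalgebra (HO κ) (LT ι (HO κ))) := bc (inc κ) 𝒜
/-- Special fibre. -/
noncomputable abbrev spe (𝒜 : Subalgebra (HO κ) (LT ι (HO κ))) := bc (red κ) 𝒜

/-- The saturation of a chart point over the Hahn field. -/
noncomputable def sat (A : Subalgebra (HF κ) (LT ι (HF κ))) : Subalgebra (HO κ) (LT ι (HO κ)) where
  carrier := {F | mapT (inc κ) F ∈ A}
  mul_mem' ha hb := by simpa using mul_mem ha hb
  add_mem' ha hb := by simpa using add_mem ha hb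
  algebraMap_mem' c := by
    simp only [Set.mem_setOf_eq, mapT_algebraMap]; exact A.algebraMap_mem _

theorem Model_inc_inj : Function.Injective (inc κ) := Subtype.val_injective

theorem Model_red_surj : Function.Surjective (red κ) := fun c =>
  ⟨algebraMap κ (HO κ) c, (hres : HO κ →ₐ[κ] κ).commutes c⟩

theorem Model_unit {a : HO κ} : IsUnit a ↔ red κ a ≠ 0 := by
  rw [isUnit_HO]
  refine ⟨fun h h' => ?_, fun h => ?_⟩
  · exact (hres_eq_zero.1 h').ne' h
  · exact le_antisymm (not_lt.1 fun h' => h (hres_eq_zero.2 h')) a.2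

section Coord

variable {R R' : Type u} [CommRing R] [CommRing R']

theorem Model_pole_mono {F : LT ι R} {n m : ℤ} (h : Pole F n) (hnm : n ≤ m) : Pole F m :=
  fun i => (h i).mono (neg_le_neg hnm)

theorem Model_mapT_inj {φ : R →+* R'} (hφ : Function.Injective φ) :
    Function.Injective (mapT φ : LT ι R → LT ι R') :=
  fun _ _ e => funext fun i => LS.map_injective hφ (congrFun e i)

theorem Model_pole_mapT (φ : R →+* R') {F : LT ι R} {n : ℤ} (h : Pole F n) : Pole (mapT φ F) n :=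
  fun i m hm => (congrArg φ (h i m hm)).trans φ.map_zero

/-- Coordinates: the constant term at `i₀` and the polar coefficients. -/
noncomputable def Model_co (i₀ : ι) (a : Option (ι × ℕ)) : LT ι R →ₗ[R] R where
  toFun F := a.elim ((F i₀).cf 0) (pc F)
  map_add' F G := by cases a <;> exact LS.cf_add _ _ _
  map_smul' c F := by cases a <;> exact LS.cf_smul _ _ _

theorem Model_co_none (i₀ : ι) (F : LT ι R) : Model_co i₀ none F = (F i₀).cf 0 := rfl
theorem Model_co_some (i₀ : ι) (μ : ι × ℕ) (F : LT ι R) : Model_co i₀ (some μ) F = pc F μ := rfl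

theorem Model_co_mapT (φ : R →+* R') (i₀ : ι) (a : Option (ι × ℕ)) (F : LT ι R) :
    Model_co i₀ a (mapT φ F) = φ (Model_co i₀ a F) := by
  cases a <;> rfl

theorem Model_cf_alg (i₀ : ι) (c : R) : ((algebraMap R (LT ι R) c) i₀).cf 0 = c := by
  rw [Pi.algebraMap_apply, LS.cf_algebraMap, if_pos rfl]

theorem Model_pc_alg (c : R) (μ : ι × ℕ) : pc (algebraMap R (LT ι R) c) μ = 0 := by
  rw [pc, Pi.algebraMap_apply, LS.cf_algebraMap, if_neg (by omega)]

theorem Model_chi_J (i₀ : ι) (A : Subalgebra R (LT ι R)) {μ : ι × ℕ} (h : μ ∈ J) :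
    chi i₀ J A μ = 0 := if_pos h

theorem Model_expr {A : Subalgebra R (LT ι R)} (h : IsChart J A) (i₀ : ι) {F : LT ι R}
    (hF : F ∈ A) : F = algebraMap R (LT ι R) ((F i₀).cf 0) +
      ∑ μ ∈ (finite_pc F).toFinset, pc F μ • chi i₀ J A μ := by
  obtain ⟨c, hc⟩ := (h.mem_iff i₀).1 hF
  have e := congrArg (Model_co i₀ none) hc
  simp only [map_add, map_sum, map_smul, Model_co_none, h.chi_cf, smul_zero, Finset.sum_const_zero,
    add_zero, Model_cf_alg] at e
  rw [e]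
  exact hc

theorem Model_eq_of_le {A A' : Subalgebra R (LT ι R)} (h : IsChart J A) (h' : IsChart J A')
    (i₀ : ι) (hle : A ≤ A') : A = A' := by
  refine h.eq_of_coef i₀ h' (funext fun a => ?_)
  have : chi i₀ J A' a.1 = chi i₀ J A a.1 := by
    by_cases hμ : a.1 ∈ J
    · rw [Model_chi_J i₀ _ hμ, Model_chi_J i₀ _ hμ]
    · exact h'.chi_eq i₀ hμ (hle (h.chi_mem i₀ _)) (h.chi_cf i₀ _) fun ν hν => h.pc_chi i₀ hμ hν
  rw [coef, coef, this]

theorem Model_bound (J : Finset (ι × ℕ)) : ∃ M : ℕ, ∀ ν ∈ J, ν.2 < M := by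
  obtain ⟨M, hM⟩ := (J.image Prod.snd).bddAbove
  exact ⟨M + 1, fun ν hν =>
    Nat.lt_succ_of_le (hM (Finset.mem_coe.2 (Finset.mem_image_of_mem _ hν)))⟩

theorem Model_expand {B : Type u} [CommRing B] (σ : B →+* R) (j : R →+* B) (t : B) (D : B → B)
    (h : ∀ f, f = j (σ f) + t * D f) (φ : R →+* R') (e : B →+* LS R')
    (he : ∀ c, e (j c) = algebraMap _ _ (φ c)) (ht : e t = LS.T _ 1) (hg : ∀ f, (e f).Ge 0)
    (k : ℕ) (f : B) : (e f).cf k = φ (σ (D^[k] f)) := by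
  induction k generalizing f with
  | zero =>
    conv_lhs => rw [h f]
    rw [map_add, map_mul, he, ht, LS.cf_add, LS.cf_T_mul, LS.cf_algebraMap, hg _ _ (by omega)]
    simp
  | succ k ih =>
    conv_lhs => rw [h f]
    rw [map_add, map_mul, he, ht, LS.cf_add, LS.cf_T_mul, LS.cf_algebraMap, if_neg (by omega),
      zero_add, Function.iterate_succ_apply, ← ih]
    congr 1
    push_cast
    ring

end Coord

theorem IsChart.sat_gen {𝒜 : Subalgebra (HO κ) (LT ι (HO κ))} (h : IsChart J 𝒜) :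
    sat (gen' 𝒜) = 𝒜 := by
  ext F
  exact ⟨fun hF => h.mem_of_mapT Model_inc_inj hF, fun hF => Algebra.subset_adjoin ⟨F, hF, rfl⟩⟩
theorem IsChart.mem_spe {𝒜 : Subalgebra (HO κ) (LT ι (HO κ))} (h : IsChart J 𝒜) {F : LT ι κ} :
    F ∈ spe 𝒜 ↔ ∃ F₀ ∈ 𝒜, mapT (red κ) F₀ = F := by
  refine ⟨fun hF => ?_, ?_⟩
  · obtain ⟨M, hM⟩ := Model_bound J
    obtain ⟨n, hn⟩ := exists_pole F
    obtain ⟨F₀, h1, -, h2⟩ := h.exists_lift Model_red_surj hF (n := M + n)
      (fun ν hν => (hM ν hν).trans_le (Nat.le_add_right _ _))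
      (Model_pole_mono hn (by push_cast; omega))
    exact ⟨F₀, h1, h2⟩
  · rintro ⟨F₀, h1, rfl⟩
    exact Algebra.subset_adjoin ⟨F₀, h1, rfl⟩

theorem Model_descend {𝒜 : Subalgebra (HO κ) (LT ι (HO κ))} (h : IsChart J 𝒜) (i₀ : ι)
    {F : LT ι (HF κ)} (hF : F ∈ gen' 𝒜) (h0 : (F i₀).cf 0 ∈ HO κ)
    (h1 : ∀ μ, μ ∉ J → pc F μ ∈ HO κ) : ∃ F₀ ∈ 𝒜, mapT (inc κ) F₀ = F := by
  refine ⟨algebraMap _ _ (⟨_, h0⟩ : HO κ) + ∑ μ ∈ (finite_pc F).toFinset,
    (if hμ : μ ∈ J then 0 else (⟨_, h1 μ hμ⟩ : HO κ)) • chi i₀ J 𝒜 μ, ?_, ?_⟩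
  · exact add_mem (𝒜.algebraMap_mem _) (sum_mem fun μ _ => 𝒜.smul_mem (h.chi_mem i₀ μ) _)
  · conv_rhs => rw [Model_expr (h.bc (inc κ)) i₀ hF]
    rw [map_add, map_sum, mapT_algebraMap]
    congr 1
    refine Finset.sum_congr rfl fun μ _ => ?_
    rw [mapT_smul, h.chi_bc]
    by_cases hμ : μ ∈ J
    · rw [Model_chi_J i₀ _ hμ, map_zero, smul_zero, smul_zero]
    · rw [dif_neg hμ]
      rfl

/-- primitive multiples -/
theorem IsChart.exists_prim [Nonempty ι] {𝒜 : Subalgebra (HO κ) (LT ι (HO κ))} (h : IsChart J 𝒜)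
    {F : LT ι (HF κ)} (hF : F ∈ gen' 𝒜) (h0 : F ≠ 0) : ∃ (c : HF κ) (F₀ : LT ι (HO κ)), c ≠ 0 ∧
      F₀ ∈ 𝒜 ∧ mapT (inc κ) F₀ = c • F ∧ mapT (red κ) F₀ ≠ 0 := by
  obtain ⟨i₀⟩ := ‹Nonempty ι›
  let S : Finset (Option (ι × ℕ)) := insert none (((finite_pc F).toFinset \ J).image some)
  obtain ⟨a, ha, hmin⟩ := Finset.exists_min_image S (fun a => hv (Model_co i₀ a F))
    ⟨none, Finset.mem_insert_self _ _⟩
  have hn : hv (Model_co i₀ a F) ≤ hv ((F i₀).cf 0) := hmin none (Finset.mem_insert_self _ _)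
  have hs : ∀ μ, μ ∉ J → hv (Model_co i₀ a F) ≤ hv (pc F μ) := by
    intro μ hμ
    by_cases e : pc F μ = 0
    · rw [e, hv_eq_top.2 rfl]
      exact le_top
    · exact hmin (some μ) (Finset.mem_insert_of_mem (Finset.mem_image_of_mem _
        (Finset.mem_sdiff.2 ⟨(finite_pc F).mem_toFinset.2 e, hμ⟩)))
  have hd : Model_co i₀ a F ≠ 0 := by
    intro e
    rw [e, hv_eq_top.2 rfl] at hn hs
    obtain ⟨c, hc⟩ := (h.bc (inc κ)).inj F hF fun μ hμ => hv_eq_top.1 (top_le_iff.1 (hs μ hμ))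
    have h1 := hv_eq_top.1 (top_le_iff.1 hn)
    rw [hc, Model_cf_alg] at h1
    exact h0 (by rw [hc, h1, map_zero])
  obtain ⟨F₀, h1, h2⟩ := Model_descend h i₀ (F := (Model_co i₀ a F)⁻¹ • F)
    (Subalgebra.smul_mem _ hF _)
    (by
      rw [← Model_co_none, map_smul, smul_eq_mul, inv_mul_eq_div]
      exact (Hahn_div hd).2 hn)
    (fun μ hμ => by
      rw [← Model_co_some i₀, map_smul, smul_eq_mul, inv_mul_eq_div]
      exact (Hahn_div hd).2 (hs μ hμ))
  refine ⟨_, F₀, inv_ne_zero hd, h1, h2, fun e => ?_⟩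
  have h3 := congrArg (Model_co i₀ a) h2
  rw [Model_co_mapT, map_smul, smul_eq_mul, inv_mul_cancel₀ hd, ← (inc κ).map_one] at h3
  have h4 := congrArg (Model_co i₀ a) e
  rw [Model_co_mapT, Model_inc_inj h3, map_one, map_zero] at h4
  exact one_ne_zero h4

theorem Model_aeval_inc {k : Type u} [Field k] [Algebra k κ] {I : Type} (c : I → HO κ)
    (f : MvPolynomial I k) : aeval (fun a => inc κ (c a)) f = inc κ (aeval c f) :=
  (comp_aeval_apply (f := c) (IsScalarTower.toAlgHom k (HO κ) (HF κ)) f).symm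

theorem Model_aeval_red {k : Type u} [Field k] [Algebra k κ] {I : Type} (c : I → HO κ)
    (f : MvPolynomial I k) : aeval (fun a => red κ (c a)) f = red κ (aeval c f) :=
  (comp_aeval_apply (f := c) ((hres : HO κ →ₐ[κ] κ).restrictScalars k) f).symm

theorem IsChart.spc_gen_spe {k : Type u} [Field k] [Algebra k κ]
    {𝒜 : Subalgebra (HO κ) (LT ι (HO κ))} (h : IsChart J 𝒜) (i₀ : ι) :
    Spc k (coef i₀ J (gen' 𝒜)) (coef i₀ J (spe 𝒜)) := by
  intro f hf
  rw [h.coef_bc, Model_aeval_inc, ← (inc κ).map_zero] at hf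
  rw [h.coef_bc, Model_aeval_red, Model_inc_inj hf, map_zero]

theorem exists_model {k K : Type u} [Field k] [Algebra k κ] [IsAlgClosed κ] [Field K] [Algebra k K]
    {A : Subalgebra K (LT ι K)} {A₀ : Subalgebra κ (LT ι κ)} (h : IsChart J A) (h₀ : IsChart J A₀)
    {i₀ : ι} (hs : Spc k (coef i₀ J A) (coef i₀ J A₀)) :
    ∃ 𝒜 : Subalgebra (HO κ) (LT ι (HO κ)), IsChart J 𝒜 ∧ spe 𝒜 = A₀ ∧
      Spc k (coef i₀ J A) (coef i₀ J (gen' 𝒜)) ∧ Spc k (coef i₀ J (gen' 𝒜)) (coef i₀ J A) := by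
  obtain ⟨c, h1, h2, h3⟩ := arc (h.fg i₀) hs
  obtain ⟨𝒜, h4, h5⟩ := exists_chart (k := k) (i₀ := i₀) (J := J) (c := c)
    fun f hf => h1 f (h.on i₀ f hf)
  refine ⟨𝒜, h4, (h4.bc (red κ)).eq_of_coef i₀ h₀ ?_, fun f hf => ?_, ?_⟩
  · rw [h4.coef_bc, h5]
    exact funext h3
  · rw [h4.coef_bc, h5, Model_aeval_inc, h1 f hf, map_zero]
  · rw [h4.coef_bc, h5]
    exact h2

/-- Index set of a basis of the elements of pole order at most `n`. -/
def Model_ix (J : Finset (ι × ℕ)) (n : ℕ) : Finset (Option (ι × ℕ)) :=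
  Finset.insertNone ((Finset.univ ×ˢ Finset.range n) \ J)

theorem Model_none_ix (n : ℕ) : none ∈ Model_ix J n := Finset.none_mem_insertNone

theorem Model_some_ix {n : ℕ} {μ : ι × ℕ} : some μ ∈ Model_ix J n ↔ μ.2 < n ∧ μ ∉ J := by
  simp [Model_ix]

theorem Model_card_ix {n : ℕ} (hJ : ∀ ν ∈ J, ν.2 < n) :
    (Model_ix J n).card + J.card = n * Fintype.card ι + 1 := by
  have h1 := Finset.card_sdiff_add_card_eq_card (s := J) (t := Finset.univ ×ˢ Finset.range n)
    fun ν hν => by simpa using hJ ν hν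
  rw [Finset.card_product, Finset.card_univ, Finset.card_range, mul_comm] at h1
  rw [Model_ix, Finset.card_insertNone]
  omega

theorem Model_basis {J' : Finset (ι × ℕ)} {A : Subalgebra (HF κ) (LT ι (HF κ))}
    {A₀ : Subalgebra κ (LT ι κ)} (h : IsChart J' A) (h₀ : IsChart J A₀) (hc : J'.card = J.card)
    (i₀ : ι) {n : ℕ} (hJ : ∀ ν ∈ J, ν.2 < n) (hJ' : ∀ ν ∈ J', ν.2 < n)
    (hl : ∀ F ∈ lev A₀ n, ∃ F₀ ∈ lev (sat A) n, mapT (red κ) F₀ = F) :
    ∃ G : Model_ix J n → LT ι (HO κ), (∀ b, G b ∈ lev (sat A) n) ∧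
      (∀ a b : Model_ix J n, Model_co i₀ a.1 (G b) = if a = b then 1 else 0) ∧
      ∀ F ∈ lev A n, F = ∑ b : Model_ix J n, Model_co i₀ b.1 F • mapT (inc κ) (G b) := by
  have : Nonempty ι := ⟨i₀⟩
  have h1 : ∀ b : Model_ix J n, ∃ F ∈ lev A₀ n,
      ∀ a : Model_ix J n, Model_co i₀ a.1 F = if a = b then 1 else 0 := by
    rintro ⟨_ | μ, hb⟩
    · refine ⟨algebraMap _ _ (1 : κ), ⟨A₀.algebraMap_mem _,
        fun i => (LS.ge_algebraMap _).mono (by omega)⟩, ?_⟩
      rintro ⟨_ | ν, ha⟩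
      · rw [if_pos rfl]
        exact Model_cf_alg i₀ _
      · rw [if_neg (by simp)]
        exact Model_pc_alg _ _
    · have hμ := Model_some_ix.1 hb
      refine ⟨chi i₀ J A₀ μ, ⟨h₀.chi_mem i₀ μ, h₀.pole_chi i₀ hμ.1 hJ⟩, ?_⟩
      rintro ⟨_ | ν, ha⟩
      · rw [if_neg (by simp)]
        exact h₀.chi_cf i₀ μ
      · refine (h₀.pc_chi i₀ hμ.2 (Model_some_ix.1 ha).2).trans ?_
        simp
  choose F₀ hF₀ hF₀' using h1
  choose G₀ hG₀ hG₀' using fun b => hl _ (hF₀ b)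
  let M : Matrix (Model_ix J n) (Model_ix J n) (HO κ) := fun a b => Model_co i₀ a.1 (G₀ b)
  have hM : (red κ).mapMatrix M = 1 := by
    ext a b
    rw [RingHom.mapMatrix_apply, Matrix.map_apply, Matrix.one_apply, ← hF₀' b a, ← hG₀' b,
      Model_co_mapT]
  have hdet : IsUnit M.det := by
    rw [Model_unit, RingHom.map_det, hM, Matrix.det_one]
    exact one_ne_zero
  let G : Model_ix J n → LT ι (HO κ) := fun b => ∑ c, M⁻¹ c b • G₀ c
  have hG : ∀ b, G b ∈ lev (sat A) n := fun b =>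
    Submodule.sum_mem _ fun c _ => Submodule.smul_mem _ _ (hG₀ c)
  have hG' : ∀ a b : Model_ix J n, Model_co i₀ a.1 (G b) = if a = b then 1 else 0 := by
    intro a b
    rw [← Matrix.one_apply, ← Matrix.mul_nonsing_inv M hdet, Matrix.mul_apply]
    simp only [G, map_sum, map_smul, smul_eq_mul]
    exact Finset.sum_congr rfl fun c _ => mul_comm _ _
  have hco : ∀ (g : Model_ix J n → HF κ) (a : Model_ix J n),
      Model_co i₀ a.1 (∑ b, g b • mapT (inc κ) (G b)) = g a := by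
    intro g a
    simp only [map_sum, map_smul, Model_co_mapT, hG', smul_eq_mul, apply_ite (inc κ), map_one,
      map_zero, mul_ite, mul_one, mul_zero, Finset.sum_ite_eq, Finset.mem_univ, if_true]
  refine ⟨G, hG, hG', fun F hF => ?_⟩
  let v : Model_ix J n → lev A n := fun b =>
    ⟨mapT (inc κ) (G b), (hG b).1, Model_pole_mapT _ (hG b).2⟩
  have hv' : ∀ g : Model_ix J n → HF κ,
      ((∑ b, g b • v b : lev A n) : LT ι (HF κ)) = ∑ b, g b • mapT (inc κ) (G b) := by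
    intro g
    simp only [AddSubmonoidClass.coe_finsetSum, SetLike.val_smul, v]
  have li : LinearIndependent (HF κ) v := Fintype.linearIndependent_iff.2 fun g hg a => by
    rw [← hco g a, ← hv', hg]
    exact map_zero _
  have := h.finite_lev n
  have hcard : Fintype.card (Model_ix J n) = Module.finrank (HF κ) (lev A n) := by
    have e1 := h.finrank_lev hJ'
    have e2 := Model_card_ix hJ
    rw [Fintype.card_coe]
    omega
  have hsp := li.span_eq_top_of_card_eq_finrank' hcard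
  obtain ⟨g, hg⟩ := (Submodule.mem_span_range_iff_exists_fun _).1
    (hsp.ge (Submodule.mem_top (x := (⟨F, hF⟩ : lev A n))))
  have e : F = ∑ b, g b • mapT (inc κ) (G b) := by rw [← hv', hg]
  refine e.trans (Finset.sum_congr rfl fun b _ => ?_)
  rw [e, hco]

theorem crit [Nonempty ι] {J' : Finset (ι × ℕ)} {A : Subalgebra (HF κ) (LT ι (HF κ))}
    {A₀ : Subalgebra κ (LT ι κ)} (h : IsChart J' A) (h₀ : IsChart J A₀) (hc : J'.card = J.card)
    (hl : ∀ m : ℕ, ∃ n : ℕ, m ≤ n ∧ ∀ F ∈ lev A₀ n, ∃ F₀ ∈ lev (sat A) n, mapT (red κ) F₀ = F) :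
    IsChart J (sat A) ∧ gen' (sat A) = A ∧ spe (sat A) = A₀ := by
  obtain ⟨i₀⟩ := ‹Nonempty ι›
  obtain ⟨M, hM⟩ := Model_bound J
  obtain ⟨M', hM'⟩ := Model_bound J'
  have key : ∀ m : ℕ, ∃ n : ℕ, m ≤ n ∧ ∃ G : Model_ix J n → LT ι (HO κ),
      (∀ b, G b ∈ lev (sat A) n) ∧
      (∀ a b : Model_ix J n, Model_co i₀ a.1 (G b) = if a = b then 1 else 0) ∧
      ∀ F ∈ lev A n, F = ∑ b : Model_ix J n, Model_co i₀ b.1 F • mapT (inc κ) (G b) := by
    intro m
    obtain ⟨n, hn, hn'⟩ := hl (m + M + M')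
    exact ⟨n, by omega, Model_basis h h₀ hc i₀ (fun ν hν => (hM ν hν).trans_le (by omega))
      (fun ν hν => (hM' ν hν).trans_le (by omega)) hn'⟩
  have hch : IsChart J (sat A) := by
    refine ⟨?_, fun F hF hF' => ⟨(F i₀).cf 0, ?_⟩, fun μ hμ => ?_⟩
    · change mapT (inc κ) _ ∈ A
      rw [mapT_xx]
      exact h.x_mem
    · rw [← sub_eq_zero]
      have h1 : F - algebraMap _ _ ((F i₀).cf 0) ∈ sat A := sub_mem hF ((sat A).algebraMap_mem _)
      obtain ⟨m, hm⟩ := exists_pole (F - algebraMap _ _ ((F i₀).cf 0))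
      obtain ⟨n, hn, G, -, -, hG⟩ := key m
      refine Model_mapT_inj Model_inc_inj ?_
      rw [hG _ ⟨h1, Model_pole_mapT _ (Model_pole_mono hm (by exact_mod_cast hn))⟩, map_zero]
      refine Finset.sum_eq_zero ?_
      rintro ⟨_ | ν, hb⟩ -
      · rw [Model_co_mapT, map_sub, Model_co_none, Model_co_none, Model_cf_alg, sub_self, map_zero,
          zero_smul]
      · rw [Model_co_mapT, map_sub, Model_co_some, Model_co_some, Model_pc_alg,
          hF' ν (Model_some_ix.1 hb).2, sub_self, map_zero, zero_smul]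
    · obtain ⟨n, hn, G, hG, hG', -⟩ := key (μ.2 + 1)
      refine ⟨G ⟨some μ, Model_some_ix.2 ⟨hn, hμ⟩⟩, (hG _).1, fun ν hν => ?_⟩
      by_cases e : ν.2 < n
      · refine (hG' ⟨some ν, Model_some_ix.2 ⟨e, hν⟩⟩ _).trans ?_
        simp
      · rw [pole_iff.1 (hG _).2 ν (not_lt.1 e), if_neg]
        rintro rfl
        exact e hn
  refine ⟨hch, le_antisymm (Algebra.adjoin_le ?_) fun F hF => ?_,
    (Model_eq_of_le h₀ (hch.bc (red κ)) i₀ fun F hF => ?_).symm⟩
  · rintro _ ⟨F, hF, rfl⟩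
    exact hF
  · obtain ⟨m, hm⟩ := exists_pole F
    obtain ⟨n, hn, G, hG, -, hG'⟩ := key m
    rw [hG' F ⟨hF, Model_pole_mono hm (by exact_mod_cast hn)⟩]
    refine sum_mem fun b _ => Subalgebra.smul_mem _ ?_ _
    exact Algebra.subset_adjoin ⟨_, (hG b).1, rfl⟩
  · obtain ⟨m, hm⟩ := exists_pole F
    obtain ⟨n, hn, hn'⟩ := hl m
    obtain ⟨F₀, h1, h2⟩ := hn' F ⟨hF, Model_pole_mono hm (by exact_mod_cast hn)⟩
    exact Algebra.subset_adjoin ⟨F₀, h1.1, h2⟩

theorem expand {B : Type u} [CommRing B] (σ : B →+* HO κ) (j : HO κ →+* B) (t : B)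
    (h : ∀ f, ∃ f', f = j (σ f) + t * f') (e : B →+* LS (HF κ)) (e₀ : B →+* LS κ)
    (he : ∀ c, e (j c) = algebraMap _ _ (inc κ c)) (he₀ : ∀ c, e₀ (j c) = algebraMap _ _ (red κ c))
    (ht : e t = LS.T _ 1) (ht₀ : e₀ t = LS.T _ 1) (hg : ∀ f, (e f).Ge 0) (hg₀ : ∀ f, (e₀ f).Ge 0)
    (f : B) : ∃ F : LS (HO κ), F.Ge 0 ∧ LS.map (inc κ) F = e f ∧ LS.map (red κ) F = e₀ f := by
  choose D hD using h
  obtain ⟨F, hF⟩ := LS.exists_cf (fun m => if m < 0 then 0 else σ (D^[m.toNat] f)) 0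
    fun m hm => if_pos hm
  refine ⟨F, fun m hm => (hF m).trans (if_pos hm), LS.ext fun m => ?_, LS.ext fun m => ?_⟩
  · rw [LS.cf_map, hF]
    split_ifs with hm
    · rw [hg f m hm, map_zero]
    · rw [← Model_expand σ j t D hD (inc κ) e he ht hg, Int.toNat_of_nonneg (not_lt.1 hm)]
  · rw [LS.cf_map, hF]
    split_ifs with hm
    · rw [hg₀ f m hm, map_zero]
    · rw [← Model_expand σ j t D hD (red κ) e₀ he₀ ht₀ hg₀, Int.toNat_of_nonneg (not_lt.1 hm)]

theorem Model_sec [IsAlgClosed κ] {N : Type u} [CommRing N] [Algebra (HO κ) N]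
    [Module.Finite (HO κ) N] (htf : ∀ (a : HO κ) (x : N), a ≠ 0 → a • x = 0 → x = 0)
    (σ₀ : N →+* κ) (hσ : ∀ c : HO κ, σ₀ (algebraMap _ _ c) = red κ c)
    (hun : ∀ f, σ₀ f = 0 → ∃ (s : N) (π π' : HO κ) (g g' : N), σ₀ s ≠ 0 ∧ red κ π = 0 ∧
      red κ π' = 0 ∧ s * f = π • g + π' • g') :
    ∃ σ : N →ₐ[HO κ] HO κ, (∀ f, red κ (σ f) = σ₀ f) ∧
      ∃ s : N, σ₀ s ≠ 0 ∧ ∀ f, σ f = 0 → s * f = 0 := by
  let S : Submonoid N :=
    { carrier := {x | ∃ (a : HO κ) (s : N), a ≠ 0 ∧ σ₀ s ≠ 0 ∧ x = a • s}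
      one_mem' := ⟨1, 1, one_ne_zero, by simp, by simp⟩
      mul_mem' := by
        rintro _ _ ⟨a, s, ha, hs, rfl⟩ ⟨a', s', ha', hs', rfl⟩
        exact ⟨a * a', s * s', mul_ne_zero ha ha', by rw [map_mul]; exact mul_ne_zero hs hs',
          smul_mul_smul_comm _ _ _ _⟩ }
  obtain ⟨𝔭, hp, -, hdis⟩ := Ideal.exists_le_prime_disjoint (⊥ : Ideal N) S (by
    rw [Set.disjoint_left]
    rintro x hx ⟨a, s, ha, hs, rfl⟩
    exact hs (by rw [htf a s ha hx, map_zero]))
  rw [Set.disjoint_left] at hdis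
  have h1 : ∀ f ∈ 𝔭, σ₀ f = 0 := fun f hf => by
    by_contra e
    exact hdis hf ⟨1, f, one_ne_zero, e, (one_smul _ _).symm⟩
  have h2 : ∀ a : HO κ, algebraMap _ (N ⧸ 𝔭) a = 0 → a = 0 := fun a ha => by
    by_contra e
    refine hdis (a := algebraMap _ N a) (Ideal.Quotient.eq_zero_iff_mem.1 ha) ⟨a, 1, e, by simp, ?_⟩
    exact Algebra.algebraMap_eq_smul_one a
  have : FaithfulSMul (HO κ) (N ⧸ 𝔭) :=
    (faithfulSMul_iff_algebraMap_injective _ _).2 ((injective_iff_map_eq_zero _).2 h2)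
  obtain ⟨φ, hφ, hφ', -⟩ := Arc_ext (B := HO κ) (S := N ⧸ 𝔭) (HO κ) (fun b => b.2) ⊥
    fun b hb => by rw [h2 b hb, map_zero, map_zero]; exact zero_lt_one
  let σ : N →ₐ[HO κ] HO κ :=
    { toFun := fun f => ⟨φ (Ideal.Quotient.mk 𝔭 f), hφ' _⟩
      map_one' := Subtype.ext (by simp)
      map_mul' := fun _ _ => Subtype.ext (by simp)
      map_zero' := Subtype.ext (by simp)
      map_add' := fun _ _ => Subtype.ext (by simp)
      commutes' := fun c => Subtype.ext (φ.commutes c) }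
  have h3 : ∀ f, σ f = 0 → f ∈ 𝔭 := fun f hf =>
    Ideal.Quotient.eq_zero_iff_mem.1 (hφ ((congrArg Subtype.val hf).trans (map_zero φ).symm))
  have h4 : ∀ f, σ (f - algebraMap _ _ (σ f)) = 0 := fun f => by
    rw [map_sub, AlgHom.commutes]
    exact sub_self _
  have h5 : ∀ f, red κ (σ f) = σ₀ f := fun f => by
    have := h1 _ (h3 _ (h4 f))
    rw [map_sub, hσ, sub_eq_zero] at this
    exact this.symm
  let L : N →ₗ[HO κ] N := LinearMap.id - (Algebra.linearMap (HO κ) N).comp σ.toLinearMap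
  have hL : ∀ f, L f = f - algebraMap _ _ (σ f) := fun f => rfl
  have hfg : (RingHom.ker σ : Submodule N N).FG := by
    refine Submodule.FG.of_restrictScalars (HO κ) ?_
    have e : Submodule.restrictScalars (HO κ) (RingHom.ker σ : Submodule N N) =
        Submodule.map L ⊤ := by
      ext f
      rw [Submodule.restrictScalars_mem, RingHom.mem_ker, Submodule.mem_map]
      refine ⟨fun hf => ⟨f, trivial, by rw [hL, hf, map_zero, sub_zero]⟩, ?_⟩
      rintro ⟨g, -, rfl⟩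
      exact h4 g
    rw [e]
    exact Module.Finite.fg_top.map L
  obtain ⟨r, hr, hr'⟩ := Submodule.exists_sub_one_mem_and_smul_eq_zero_of_fg_of_le_smul
    (RingHom.ker σ₀) (RingHom.ker σ : Submodule N N) hfg (by
      intro f hf
      have hf' : σ f = 0 := hf
      obtain ⟨s, π, π', g, g', hs, hπ, hπ', e⟩ := hun f (by rw [← h5, hf', map_zero])
      obtain ⟨b, hb⟩ := Model_red_surj (σ₀ s)⁻¹
      have e1 : s * f = algebraMap _ N π • L g + algebraMap _ N π' • L g' := by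
        rw [algebraMap_smul, algebraMap_smul, ← map_smul, ← map_smul, ← map_add, ← e, hL, map_mul,
          hf', mul_zero, map_zero, sub_zero]
      have e2 : f = (1 - algebraMap _ N b * s) • f + algebraMap _ N b • (s * f) := by
        simp only [smul_eq_mul]
        ring
      rw [e2, e1]
      refine add_mem (Submodule.smul_mem_smul ?_ hf) (Submodule.smul_mem _ _
        (add_mem (Submodule.smul_mem_smul ?_ (h4 g)) (Submodule.smul_mem_smul ?_ (h4 g'))))
      · rw [RingHom.mem_ker, map_sub, map_mul, map_one, hσ, hb, inv_mul_cancel₀ hs, sub_self]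
      · rw [RingHom.mem_ker, hσ, hπ]
      · rw [RingHom.mem_ker, hσ, hπ'])
  refine ⟨σ, h5, r, ?_, fun f hf => hr' f hf⟩
  rw [RingHom.mem_ker, map_sub, map_one, sub_eq_zero] at hr
  rw [hr]
  exact one_ne_zero

theorem Model_div [Nonempty ι] {𝒜 : Subalgebra (HO κ) (LT ι (HO κ))} (h : IsChart J 𝒜) (F : 𝒜)
    (h0 : mapT (red κ) F.1 = 0) : ∃ (π : HO κ) (G : 𝒜), red κ π = 0 ∧ F = π • G := by
  by_cases e : F = 0
  · exact ⟨0, 0, map_zero _, by rw [e, smul_zero]⟩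
  obtain ⟨c, F₀, hc, h1, h2, h3⟩ := h.exists_prim (F := mapT (inc κ) F.1)
    (Algebra.subset_adjoin ⟨_, F.2, rfl⟩)
    fun e' => e (Subtype.ext (Model_mapT_inj Model_inc_inj (e'.trans (map_zero _).symm)))
  rcases (HO κ).mem_or_inv_mem c with hc' | hc'
  · refine absurd ?_ h3
    have e1 : F₀ = (⟨c, hc'⟩ : HO κ) • F.1 :=
      Model_mapT_inj Model_inc_inj (h2.trans (mapT_smul (inc κ) ⟨c, hc'⟩ _).symm)
    rw [e1, mapT_smul, h0, smul_zero]
  · have e1 : F.1 = (⟨c⁻¹, hc'⟩ : HO κ) • F₀ := by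
      refine Model_mapT_inj Model_inc_inj ?_
      rw [mapT_smul, h2]
      exact (inv_smul_smul₀ hc _).symm
    refine ⟨⟨c⁻¹, hc'⟩, ⟨F₀, h1⟩, ?_, Subtype.ext e1⟩
    by_contra e2
    rw [e1, mapT_smul] at h0
    exact h3 (by rw [← inv_smul_smul₀ e2 (mapT (red κ) F₀), h0, smul_zero])

theorem Model_tf {𝒜 : Subalgebra (HO κ) (LT ι (HO κ))} (h : IsChart J 𝒜) (y : 𝒜) {n : ℕ}
    (hy : ∀ i, (y.1 i).Ge (-n) ∧ IsUnit ((y.1 i).cf (-n))) {a : HO κ} (ha : a ≠ 0) (f g : 𝒜)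
    (e : a • f = y * g) : ∃ g' : 𝒜, f = y * g' := by
  choose z _ hz using fun i => LS.exists_inv (hy i).1 (hy i).2
  have hz' : y.1 * z = 1 := funext hz
  have e1 : a • (f.1 * z) = g.1 := by
    have e2 : a • f.1 = y.1 * g.1 := congrArg Subtype.val e
    rw [← smul_mul_assoc, e2, mul_right_comm, hz', one_mul]
  have ha' : inc κ a ≠ 0 := fun e' => ha (Model_inc_inj (e'.trans (map_zero _).symm))
  refine ⟨⟨f.1 * z, h.mem_of_mapT Model_inc_inj ?_⟩, Subtype.ext ?_⟩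
  · rw [← inv_smul_smul₀ ha' (mapT (inc κ) (f.1 * z)), ← mapT_smul, e1]
    refine Subalgebra.smul_mem _ ?_ _
    exact Algebra.subset_adjoin ⟨_, g.2, rfl⟩
  · change f.1 = y.1 * (f.1 * z)
    rw [mul_left_comm, hz', mul_one]

private theorem fin_aux1 {R A N μ : Type*} [CommRing R] [Ring A] [Ring N] [Algebra R A]
    [Algebra R N] (q : A →ₐ[R] N) {T : Set N} {c : R} {s : Finset μ} {a : μ → R} {χ : μ → A}
    (h1 : 1 ∈ T) (h : ∀ m ∈ s, q (χ m) ∈ T) :
    q (algebraMap R A c + ∑ m ∈ s, a m • χ m) ∈ Submodule.span R T := by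
  rw [map_add, map_sum, AlgHom.commutes, Algebra.algebraMap_eq_smul_one]
  refine add_mem (Submodule.smul_mem _ _ (Submodule.subset_span h1)) (sum_mem fun m hm => ?_)
  rw [map_smul]
  exact Submodule.smul_mem _ _ (Submodule.subset_span (h m hm))

private theorem fin_aux2 {R A N : Type*} [CommRing R] [Ring A] [Ring N] [Algebra R A]
    [Algebra R N] (q : A →ₐ[R] N) {y : A} (h : q y = 0) (F g : A) : q F = q (F - y * g) := by
  rw [map_sub, map_mul, h, zero_mul, sub_zero]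

theorem Model_fin {R : Type u} [CommRing R] [Nonempty ι] {A : Subalgebra R (LT ι R)}
    (h : IsChart J A) (y : A) {n : ℕ} (hy : ∀ i, (y.1 i).Ge (-n) ∧ IsUnit ((y.1 i).cf (-n))) :
    Module.Finite R (A ⧸ Ideal.span {y}) := by
  obtain ⟨i₀⟩ := ‹Nonempty ι›
  obtain ⟨M, hM⟩ := Model_bound J
  let χ : ι × ℕ → A := fun μ => ⟨chi i₀ J A μ, h.chi_mem i₀ μ⟩
  let q := Ideal.Quotient.mkₐ R (Ideal.span {y})
  let T : Set (A ⧸ Ideal.span {y}) :=
    insert 1 ((fun μ => q (χ μ)) ''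
      ((Finset.univ ×ˢ Finset.range (n + M) : Finset (ι × ℕ)) : Set (ι × ℕ)))
  have hT : T.Finite := ((Finset.finite_toSet _).image _).insert _
  have base : ∀ F : A, Pole F.1 (n + M : ℕ) → q F ∈ Submodule.span R T := by
    intro F hF
    have e : F = algebraMap R A ((F.1 i₀).cf 0) +
        ∑ μ ∈ (finite_pc F.1).toFinset, pc F.1 μ • χ μ := by
      refine Subtype.ext ((Model_expr h i₀ F.2).trans ?_)
      simp only [χ, AddMemClass.coe_add, AddSubmonoidClass.coe_finsetSum, SetLike.val_smul,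
        SubalgebraClass.coe_algebraMap]
    rw [e]
    refine fin_aux1 q (Set.mem_insert _ _) fun μ hμ => Set.mem_insert_of_mem _ ⟨μ, ?_, rfl⟩
    have h1 : ¬ n + M ≤ μ.2 := fun h' =>
      (finite_pc F.1).mem_toFinset.1 hμ (pole_iff.1 hF μ h')
    simpa using h1
  have step : ∀ (k : ℕ) (F : A), Pole F.1 (n + M + k : ℕ) → q F ∈ Submodule.span R T := by
    intro k
    induction k with
    | zero => exact base
    | succ k ih =>
      intro F hF
      choose w hw using fun i => (hy i).2.exists_right_inv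
      have hJ : ∀ i, (i, M + k) ∉ J := fun i hi => absurd (hM _ hi) (by simp)
      let g : A := ∑ i, (w i * pc F.1 (i, n + M + k)) • χ (i, M + k)
      have hg : g.1 = ∑ i, (w i * pc F.1 (i, n + M + k)) • chi i₀ J A (i, M + k) := by
        simp only [g, χ, AddSubmonoidClass.coe_finsetSum, SetLike.val_smul]
      have hg1 : g.1 ∈ lev A (M + k + 1 : ℕ) := by
        rw [hg]
        exact Submodule.sum_mem _ fun i _ => Submodule.smul_mem _ _ ⟨h.chi_mem i₀ _,
          h.pole_chi i₀ (by simp) fun ν hν => (hM ν hν).trans_le (by omega)⟩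
      have hg2 : ∀ i, pc g.1 (i, M + k) = w i * pc F.1 (i, n + M + k) := by
        intro i
        rw [hg, ← Model_co_some i₀, map_sum]
        simp only [map_smul, Model_co_some, h.pc_chi i₀ (hJ _) (hJ i), smul_eq_mul, Prod.mk.injEq,
          and_true, mul_ite, mul_one, mul_zero, Finset.sum_ite_eq, Finset.mem_univ, if_true]
      rw [fin_aux2 q (Ideal.Quotient.eq_zero_iff_mem.2 (Ideal.mem_span_singleton_self y)) F g]
      refine ih _ fun i m hm => ?_
      change (F.1 i - y.1 i * g.1 i).cf m = 0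
      rw [LS.cf_sub]
      by_cases e : m = -n + -(M + k + 1 : ℕ)
      · have h2 : (g.1 i).cf (-(M + k + 1 : ℕ)) = w i * pc F.1 (i, n + M + k) := by
          rw [← hg2 i, pc]
          congr 1
        have h3 : (F.1 i).cf (-n + -(M + k + 1 : ℕ)) = pc F.1 (i, n + M + k) := by
          rw [pc]
          congr 1
          push_cast
          ring
        rw [e, LS.cf_mul_lead (hy i).1 (hg1.2 i), h2, h3, ← mul_assoc, hw, one_mul, sub_self]
      · rw [hF i m (by push_cast at hm e ⊢; omega),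
          ((hy i).1.mul (hg1.2 i)) m (by push_cast at hm e ⊢; omega), sub_self]
  refine ⟨Submodule.fg_def.2 ⟨T, hT, top_unique fun x _ => ?_⟩⟩
  obtain ⟨F, rfl⟩ := Ideal.Quotient.mkₐ_surjective R _ x
  obtain ⟨m, hm⟩ := exists_pole F.1
  exact step m F (Model_pole_mono hm (by push_cast; omega))

private theorem sec_aux0 {R A N : Type*} [CommRing R] [Ring A] [Ring N] [Algebra R A]
    [Algebra R N] (q : A →ₐ[R] N) {u : A} {c : R} (e : q (u - algebraMap _ _ c) = 0) :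
    q u = algebraMap _ _ c := by
  rwa [map_sub, AlgHom.commutes, sub_eq_zero] at e

private theorem sec_aux1 {R A N : Type*} [CommRing R] [Ring A] [Ring N] [Algebra R A]
    [Algebra R N] (q : A →ₐ[R] N) {s f u g G : A} {π c : R} (hu : q u = algebraMap _ _ c)
    (e : s * f - u * g = π • G) : q s * q f = π • q G + c • q g := by
  have e2 := congrArg q e
  rwa [map_sub, map_mul, map_mul, map_smul, hu, ← Algebra.smul_def, sub_eq_iff_eq_add] at e2

private theorem sec_aux2 {R A N : Type*} [CommRing R] [Ring A] [Ring N] [Algebra R A]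
    [Algebra R N] (q : A →ₐ[R] N) (a : R) (f : A) : q (a • f) = a • q f := map_smul q a f

/-- Sections through a smooth point of the special fibre. -/
theorem sec [IsAlgClosed κ] [Nonempty ι] {𝒜 : Subalgebra (HO κ) (LT ι (HO κ))} (h : IsChart J 𝒜)
    (σ₀ : 𝒜 →+* κ) (hσ : ∀ c : HO κ, σ₀ (algebraMap _ _ c) = red κ c) (u : 𝒜) {n : ℕ} (hn : 0 < n)
    (hu : ∀ i, (u.1 i).Ge (-n) ∧ IsUnit ((u.1 i).cf (-n))) (hu0 : σ₀ u = 0)
    (hun : ∀ f : 𝒜, σ₀ f = 0 → ∃ s g : 𝒜, σ₀ s ≠ 0 ∧ mapT (red κ) (s * f - u * g).1 = 0)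
    (c : HO κ) (hc : red κ c = 0) :
    ∃ σ : 𝒜 →ₐ[HO κ] HO κ, (∀ f, red κ (σ f) = σ₀ f) ∧ σ u = c ∧
      ∃ s : 𝒜, σ₀ s ≠ 0 ∧ ∀ f : 𝒜, σ f = 0 → ∃ g : 𝒜, s * f = (u - algebraMap _ _ c) * g := by
  obtain ⟨y, hy⟩ : ∃ y : 𝒜, y = u - algebraMap _ _ c := ⟨_, rfl⟩
  rw [← hy]
  have hy' : ∀ i, (y.1 i).Ge (-n) ∧ IsUnit ((y.1 i).cf (-n)) := by
    intro i
    have e : y.1 i = u.1 i - algebraMap _ _ c := by rw [hy]; rfl
    refine ⟨fun m hm => ?_, ?_⟩
    · rw [e, LS.cf_sub, (hu i).1 m hm, LS.cf_algebraMap, if_neg (by omega), sub_self]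
    · rw [e, LS.cf_sub, LS.cf_algebraMap, if_neg (by omega), sub_zero]
      exact (hu i).2
  have := Model_fin h y hy'
  have hy0 : σ₀ y = 0 := by rw [hy, σ₀.map_sub, hu0, hσ, hc, sub_self]
  let q := Ideal.Quotient.mkₐ (HO κ) (Ideal.span {y})
  have hq : ∀ f, q f = 0 ↔ ∃ g, f = y * g := fun f =>
    Ideal.Quotient.eq_zero_iff_mem.trans Ideal.mem_span_singleton
  have hqy : q y = 0 := (hq y).2 ⟨1, (mul_one y).symm⟩
  have hqu := sec_aux0 q ((congrArg q hy).symm.trans hqy)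
  let τ₀ : (𝒜 ⧸ Ideal.span {y}) →+* κ := Ideal.Quotient.lift _ σ₀ fun f hf => by
    obtain ⟨g, rfl⟩ := Ideal.mem_span_singleton.1 hf
    rw [map_mul, hy0, zero_mul]
  have hτ : ∀ f, τ₀ (q f) = σ₀ f := fun f => rfl
  obtain ⟨σ, h1, s, h2, h3⟩ := Model_sec (N := 𝒜 ⧸ Ideal.span {y})
    (fun a x ha hx => by
      obtain ⟨f, rfl⟩ := Ideal.Quotient.mkₐ_surjective (HO κ) _ x
      obtain ⟨g, hg⟩ := (hq _).1 ((sec_aux2 q a f).trans hx)
      exact (hq f).2 (Model_tf h y hy' ha f g hg))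
    τ₀ (fun a => by rw [← q.commutes, hτ, hσ])
    (fun x hx => by
      obtain ⟨f, rfl⟩ := Ideal.Quotient.mkₐ_surjective (HO κ) _ x
      obtain ⟨s, g, hs, e⟩ := hun f hx
      obtain ⟨π, G, hπ, e'⟩ := Model_div h _ e
      exact ⟨q s, π, c, q G, q g, hs, hπ, hc, sec_aux1 q hqu e'⟩)
  obtain ⟨s, rfl⟩ := Ideal.Quotient.mkₐ_surjective (HO κ) _ s
  refine ⟨σ.comp q, fun f => h1 _, ?_, s, h2, fun f hf => (hq _).1 ?_⟩
  · rw [AlgHom.comp_apply, hqu, AlgHom.commutes]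
    rfl
  · rw [map_mul]
    exact h3 _ hf

end PR0
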