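import Pool.Agent.Work.MP_da2620_ag.Conn
import Pool.Agent.Work.MP_da2620_ag.Chart
import Pool.Agent.Work.MP_da2620_ag.Model
import Pool.Agent.Work.MP_da2620_ag.CD

private theorem MoebB_auxB1 {R A N : Type*} [CommRing R] [Ring A] [Ring N] [Algebra R A]
    [Algebra R N] (q : A →ₐ[R] N) {s f u g G : A} {π : R} (hu : q u = 0)
    (e : s * f - u * g = π • G) : q s * q f = π • q G + (0 : R) • (0 : N) := by
  have e2 := congrArg q e
  rw [map_sub, map_mul, map_mul, map_smul, hu, zero_mul, sub_zero] at e2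
  rw [smul_zero, add_zero, e2]

private theorem MoebB_auxB2 {R A N : Type*} [CommRing R] [Ring A] [Ring N] [Algebra R A]
    [Algebra R N] (q : A →ₐ[R] N) (a : R) (f : A) : q (a • f) = a • q f := map_smul q a f

-- merged part: Pool.Agent.Work.MP_da2620_ag.Count
section
/-!
# Counting points on the floors

Let `A = regOut (poles x) ∩ spec x`.  A place `Q` with `x(Q) ∈ O` gives `A → O → κ`
(`isIntegral_of_mem`), which kills the kernel of the reduction, so gives a point `aff x → κ`; it is given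
by some place of some floor (`exists_pl`: the normalisation is integral over `aff x`, lying over,
`exists_place_of_hom`).
`exists_zero`: suppose all places glued to `z` lie on the floor `w`.  There is `u ∈ A` whose reduction
is nonzero at `z` and zero on the other floors (the kernels of the projections to the other floors are
not contained in the maximal ideal of `z`).  Let `γ` be the height of `y` on `w`; `Y = u ^ n τ ^ (-γ) y ∈ A`
(`kill`), with nonzero reduction on `w`.  If `hv (y Q) ≠ γ` then `Y` reduces to a function vanishing at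
`z`.  If no zero of `Y` specialised to `z`, each zero is killed by an element of `A` not vanishing at `z`,
so `s = Y h` with `s ∈ A` not vanishing at `z`, `h` regular; `u ^ n h ∈ A` (`kill`), contradiction at `z`.
`count`: the points `z i` are pairwise not glued (different `x`).  Each `i` is of type (α) `hv (y (Q i))` is
the height of a floor (at most `s ≤ d` such `i`), or (β) a zero of `y` specialises to `z i` (at most
`deg (zeros of y) ≤ m d`, by `dg_dv`, `dg_dvInf`), or (γ) `z i` is glued to a place on another floor (at most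
`s - 1` by `card_glue`).
-/

namespace PR0

universe u

variable {κ : Type u} [Field κ] {L : Type u} [Field L] [Algebra (HF κ) L] [IsAlgClosed κ]
  [Fact (IsFF (HF κ) L)] {x : L} (Φ : Floors κ x)

namespace Floors

/-- The place `Q` of the generic fibre specialises to the point given by `z`. -/
def Spz (Q : Place (HF κ) L) (z : Φ.Pl) : Prop := x ∈ Q.1 ∧ ∀ f f₀, f ∈ regOut (poles (HF κ) x) →
  Φ.R f f₀ → ∃ o : HO κ, Q.val f = o ∧ hres o = z.1.2.val (f₀ z.1.1)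

section
variable {Φ}
omit [IsAlgClosed κ] [Fact (IsFF (HF κ) L)]

theorem Count_mul {f g : L} {f₀ g₀ : _} (h : Φ.R f f₀) (h' : Φ.R g g₀) : Φ.R (f * g) (f₀ * g₀) := by
  obtain ⟨h, rfl⟩ := h
  obtain ⟨h', rfl⟩ := h'
  exact ⟨mul_mem h h', Φ.ρ.map_mul ⟨f, h⟩ ⟨g, h'⟩⟩

theorem Count_add {f g : L} {f₀ g₀ : _} (h : Φ.R f f₀) (h' : Φ.R g g₀) : Φ.R (f + g) (f₀ + g₀) := by
  obtain ⟨h, rfl⟩ := h
  obtain ⟨h', rfl⟩ := h'
  exact ⟨add_mem h h', Φ.ρ.map_add ⟨f, h⟩ ⟨g, h'⟩⟩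

theorem Count_sub {f g : L} {f₀ g₀ : _} (h : Φ.R f f₀) (h' : Φ.R g g₀) : Φ.R (f - g) (f₀ - g₀) := by
  obtain ⟨h, rfl⟩ := h
  obtain ⟨h', rfl⟩ := h'
  exact ⟨sub_mem h h', Φ.ρ.map_sub ⟨f, h⟩ ⟨g, h'⟩⟩

theorem Count_one : Φ.R 1 1 := ⟨one_mem _, Φ.ρ.map_one⟩

theorem Count_pow {f : L} {f₀ : _} (h : Φ.R f f₀) (n : ℕ) : Φ.R (f ^ n) (f₀ ^ n) := by
  induction n with
  | zero => rw [pow_zero, pow_zero]; exact Count_one
  | succ n ih => rw [pow_succ, pow_succ]; exact Count_mul ih h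

theorem Count_uniq {f : L} {f₀ f₁ : _} (h : Φ.R f f₀) (h' : Φ.R f f₁) : f₀ = f₁ := by
  obtain ⟨h, rfl⟩ := h
  obtain ⟨h', rfl⟩ := h'
  rfl

theorem Count_const (c : HO κ) : Φ.R (algebraMap (HF κ) L c) (algebraMap κ _ (hres c)) :=
  ⟨_, Φ.const c⟩

theorem Count_x : Φ.R x Φ.x₀ := ⟨x_mem_spec x, rfl⟩

theorem Count_zero {f : L} (h : Φ.R f 0) : ∃ γ : ℝ, 0 < γ ∧ τ κ (-γ) • f ∈ spec κ x := by
  obtain ⟨h, e⟩ := h
  exact (Φ.ker _).1 e

theorem Count_zero' {f : L} {f₀ : _} (h : Φ.R f f₀) {γ : ℝ} (h₁ : 0 < γ)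
    (h₂ : τ κ (-γ) • f ∈ spec κ x) : f₀ = 0 := by
  obtain ⟨h, rfl⟩ := h
  exact (Φ.ker _).2 ⟨γ, h₁, h₂⟩

/-- The height of a function on a floor is unique. -/
theorem Count_ht {y : L} {w : Fin Φ.s} {γ γ' : ℝ}
    (h : ∃ (u : L) (u₀ g₀ : _), Φ.R u u₀ ∧ u₀ w ≠ 0 ∧ Φ.R (u * τ κ (-γ) • y) g₀ ∧ g₀ w ≠ 0)
    (h' : ∃ (u : L) (u₀ g₀ : _), Φ.R u u₀ ∧ u₀ w ≠ 0 ∧ Φ.R (u * τ κ (-γ') • y) g₀ ∧ g₀ w ≠ 0) :
    γ = γ' := by
  have key : ∀ {γ γ' : ℝ},
      (∃ (u : L) (u₀ g₀ : _), Φ.R u u₀ ∧ u₀ w ≠ 0 ∧ Φ.R (u * τ κ (-γ) • y) g₀ ∧ g₀ w ≠ 0) →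
      (∃ (u : L) (u₀ g₀ : _), Φ.R u u₀ ∧ u₀ w ≠ 0 ∧ Φ.R (u * τ κ (-γ') • y) g₀ ∧ g₀ w ≠ 0) →
      ¬ γ < γ' := by
    rintro γ γ' ⟨u, u₀, g₀, a₁, -, a₃, a₄⟩ ⟨u', u₀', g₀', b₁, b₂, b₃, -⟩ hlt
    have h1 := Count_zero' (Count_mul b₁ a₃) (sub_pos.2 hlt) (by
      have e : τ κ (-(γ' - γ)) • (u' * (u * τ κ (-γ) • y)) = u * (u' * τ κ (-γ') • y) := by
        rw [show -γ' = -(γ' - γ) + -γ by ring, τ_add, mul_smul]
        simp only [Algebra.smul_def]
        ring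
      rw [e]
      exact mul_mem a₁.1 b₃.1)
    exact mul_ne_zero b₂ a₄ (congrFun h1 w)
  exact le_antisymm (not_lt.1 (key h' h)) (not_lt.1 (key h h'))

end

theorem Count_xreg {K L : Type u} [Field K] [Field L] [Algebra K L] (x : L) :
    x ∈ regOut (poles K x) := fun _ => not_not.1

omit [IsAlgClosed κ] [Fact (IsFF (HF κ) L)] in
theorem Count_xaff : Φ.x₀ ∈ Φ.aff x := ⟨x, Count_xreg x, Count_x⟩

theorem Count_val_sub {K L : Type u} [Field K] [Field L] [Algebra K L] [IsAlgClosed K]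
    [Fact (IsFF K L)] {P : Place K L} {f g : L} (h : f ∈ P.1) (h' : g ∈ P.1) :
    P.val (f - g) = P.val f - P.val g := by
  rw [eq_sub_iff_add_eq, ← Place.val_add (sub_mem h h') h', sub_add_cancel]

theorem Count_val_pow {K L : Type u} [Field K] [Field L] [Algebra K L] [IsAlgClosed K]
    [Fact (IsFF K L)] {P : Place K L} {f : L} (h : f ∈ P.1) (n : ℕ) :
    P.val (f ^ n) = P.val f ^ n := by
  induction n with
  | zero => rw [pow_zero, pow_zero, ← map_one (algebraMap K L), Place.val_const]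
  | succ n ih => rw [pow_succ, pow_succ, Place.val_mul (pow_mem h n) h, ih]

theorem Count_inv_mem {K L : Type u} [Field K] [Field L] [Algebra K L] [IsAlgClosed K]
    [Fact (IsFF K L)] {P : Place K L} {f : L} (h : f ∈ P.1) (h' : P.val f ≠ 0) : f⁻¹ ∈ P.1 := by
  rcases eq_or_ne f 0 with rfl | hf
  · simp
  have h1 := mt (Place.val_eq_zero h).2 h'
  rw [Place.Ge, or_iff_right hf] at h1
  rw [P.mem_iff]
  exact Or.inr (by rw [P.ord_inv hf]; omega)

/-- The composite of a place and the valuation ring of the constants. -/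
noncomputable def Count_V (Q : Place (HF κ) L) : ValuationSubring L where
  carrier := {g | g ∈ Q.1 ∧ Q.val g ∈ HO κ}
  mul_mem' ha hb := ⟨mul_mem ha.1 hb.1, by rw [Place.val_mul ha.1 hb.1]; exact mul_mem ha.2 hb.2⟩
  one_mem' := ⟨one_mem _, by rw [← map_one (algebraMap (HF κ) L), Place.val_const]; exact one_mem _⟩
  add_mem' ha hb := ⟨add_mem ha.1 hb.1, by rw [Place.val_add ha.1 hb.1]; exact add_mem ha.2 hb.2⟩
  zero_mem' :=
    ⟨zero_mem _, by rw [← map_zero (algebraMap (HF κ) L), Place.val_const]; exact zero_mem _⟩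
  neg_mem' {a} ha := ⟨neg_mem ha.1, by
    rw [← zero_sub, Count_val_sub (zero_mem _) ha.1, ← map_zero (algebraMap (HF κ) L),
      Place.val_const]
    exact sub_mem (zero_mem _) ha.2⟩
  mem_or_inv_mem' g := by
    by_cases hg : g ∈ Q.1
    · by_cases hg' : Q.val g ∈ HO κ
      · exact Or.inl ⟨hg, hg'⟩
      have h0 : Q.val g ≠ 0 := fun e => hg' (e ▸ zero_mem _)
      have h1 := Count_inv_mem hg h0
      have h2 : g ≠ 0 := fun e => h0 (by
        rw [e, ← map_zero (algebraMap (HF κ) L), Place.val_const])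
      have h3 := Place.val_mul hg h1
      rw [mul_inv_cancel₀ h2, ← map_one (algebraMap (HF κ) L), Place.val_const] at h3
      refine Or.inr ⟨h1, ?_⟩
      rw [eq_inv_of_mul_eq_one_right h3.symm]
      exact ((HO κ).mem_or_inv_mem _).resolve_left hg'
    · have h1 : g⁻¹ ∈ Q.1 := (Q.1.mem_or_inv_mem g).resolve_left hg
      refine Or.inr ⟨h1, ?_⟩
      by_cases h0 : Q.val g⁻¹ = 0
      · rw [h0]; exact zero_mem _
      · exact absurd (by simpa using Count_inv_mem h1 h0) hg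

variable (hx : Transcendental (HF κ) x)
include hx

theorem Count_val_mem {Q : Place (HF κ) L} (h : x ∈ Q.1) (h' : Q.val x ∈ HO κ) {f : L}
    (hf : f ∈ regOut (poles (HF κ) x)) (hf' : f ∈ spec κ x) : Q.val f ∈ HO κ := by
  refine (FFA_int (Count_V Q) (A := (evO (κ := κ) x).range) ?_ (isIntegral_of_mem hx hf hf')).2
  rintro ⟨_, a, rfl⟩
  change evO x a ∈ Count_V Q
  have hxV : x ∈ Count_V Q := ⟨h, h'⟩
  induction a using Polynomial.induction_on' with
  | add a b ha hb => rw [map_add]; exact add_mem ha hb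
  | monomial n c =>
    rw [evO, Polynomial.coe_eval₂RingHom, Polynomial.eval₂_monomial]
    refine mul_mem ⟨Q.2.2 _, ?_⟩ (pow_mem hxV n)
    change Q.val (algebraMap (HF κ) L c) ∈ HO κ
    rw [Place.val_const]
    exact c.2

/-- A place with integral `x`-coordinate gives a point of the special fibre. -/
theorem Count_pt {Q : Place (HF κ) L} (h : x ∈ Q.1) (h' : Q.val x ∈ HO κ) :
    ∃ σ : Φ.aff x →ₐ[κ] κ, ∀ (f : L) (f₀ : Φ.aff x), f ∈ regOut (poles (HF κ) x) → Φ.R f f₀ →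
      ∃ o : HO κ, Q.val f = o ∧ hres o = σ f₀ := by
  have hQ : ∀ {f : L}, f ∈ regOut (poles (HF κ) x) → f ∈ Q.1 := fun hf => hf Q (not_not.2 h)
  have key : ∀ f₀ : Φ.aff x, ∃ c : κ, ∀ f ∈ regOut (poles (HF κ) x), Φ.R f f₀ →
      ∃ o : HO κ, Q.val f = o ∧ hres o = c := by
    rintro ⟨f₀, g, hg, hg'⟩
    refine ⟨hres ⟨_, Count_val_mem hx h h' hg hg'.1⟩, fun f hf hf' =>
      ⟨⟨_, Count_val_mem hx h h' hf hf'.1⟩, rfl, ?_⟩⟩
    have h1 := Count_sub hf' hg'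
    rw [sub_self] at h1
    obtain ⟨γ, hγ, h2⟩ := Count_zero h1
    have h3 := Count_val_mem hx h h' (Subalgebra.smul_mem _ (sub_mem hf hg) _) h2
    rw [Algebra.smul_def, Place.val_mul (Q.2.2 _) (hQ (sub_mem hf hg)), Place.val_const,
      Hahn_τ_mul, Count_val_sub (hQ hf) (hQ hg)] at h3
    rw [← sub_eq_zero, ← map_sub, hres_eq_zero]
    exact (WithTop.coe_lt_coe.2 hγ).trans_le h3
  choose c hc using key
  have hc' : ∀ (f₀ : Φ.aff x) (f : L) (o : HO κ), f ∈ regOut (poles (HF κ) x) → Φ.R f f₀ →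
      Q.val f = o → c f₀ = hres o := fun f₀ f o h1 h2 h3 => by
    obtain ⟨o', h4, h5⟩ := hc f₀ f h1 h2
    rw [← h5, Subtype.ext (h4.symm.trans h3)]
  have hk : ∀ a : κ, c (algebraMap κ _ a) = a := fun a => by
    have h1 := Count_const (Φ := Φ) (algebraMap κ (HO κ) a)
    rw [AlgHom.commutes] at h1
    rw [hc' (algebraMap κ _ a) _ (algebraMap κ (HO κ) a) (Subalgebra.algebraMap_mem _ _) h1
      (Place.val_const _), AlgHom.commutes]
    rfl
  refine ⟨⟨⟨⟨⟨c, by simpa using hk 1⟩, fun a b => ?_⟩, by simpa using hk 0, fun a b => ?_⟩, hk⟩,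
    fun f f₀ h1 h2 => hc f₀ f h1 h2⟩
  · obtain ⟨f, hf, hf'⟩ := a.2
    obtain ⟨g, hg, hg'⟩ := b.2
    obtain ⟨o, ho, ho'⟩ := hc a f hf hf'
    obtain ⟨o', hp, hp'⟩ := hc b g hg hg'
    change c (a * b) = c a * c b
    rw [hc' (a * b) (f * g) (o * o') (mul_mem hf hg) (Count_mul hf' hg')
      (by rw [Place.val_mul (hQ hf) (hQ hg), ho, hp]; rfl), map_mul, ho', hp']
  · obtain ⟨f, hf, hf'⟩ := a.2
    obtain ⟨g, hg, hg'⟩ := b.2
    obtain ⟨o, ho, ho'⟩ := hc a f hf hf'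
    obtain ⟨o', hp, hp'⟩ := hc b g hg hg'
    change c (a + b) = c a + c b
    rw [hc' (a + b) (f + g) (o + o') (add_mem hf hg) (Count_add hf' hg')
      (by rw [Place.val_add (hQ hf) (hQ hg), ho, hp]; rfl), map_add, ho', hp']

/-- A point which factors through the floor `w` is given by a place of that floor. -/
theorem Count_lift (σ : Φ.aff x →ₐ[κ] κ) (w : Fin Φ.s)
    (h : ∀ f : Φ.aff x, f.1 w = 0 → σ f = 0) :
    ∃ P : Place κ (Φ.L₀ w), Φ.x₀ w ∈ P.1 ∧ ∀ f : Φ.aff x, σ f = P.val (f.1 w) := by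
  have ht : Transcendental κ (Φ.x₀ w) := Φ.trans w
  obtain ⟨P₀, hP₀⟩ : (poles κ (Φ.x₀ w)).Nonempty := by
    by_contra hn
    obtain ⟨c, hc⟩ := const_of_regular (K := κ) (f := Φ.x₀ w) fun P => by_contra fun e => hn ⟨P, e⟩
    exact ht (hc ▸ isAlgebraic_algebraMap c)
  obtain ⟨-, -, _, _⟩ := FF_aff (finite_poles (K := κ) (Φ.x₀ w)) ⟨P₀, hP₀⟩
  let π : Φ.aff x →ₐ[κ] regOut (poles κ (Φ.x₀ w)) :=
    ((Pi.evalAlgHom κ Φ.L₀ w).comp (Φ.aff x).val).codRestrict _ fun f => Φ.aff_le hx f.2 w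
  let _ := π.toRingHom.toAlgebra
  let X : Φ.aff x := ⟨Φ.x₀, Φ.Count_xaff⟩
  have : Algebra.IsIntegral (Φ.aff x) (regOut (poles κ (Φ.x₀ w))) := ⟨fun b => by
    obtain ⟨q, hq, hq'⟩ := (mem_regOut_poles ht).1 b.2
    let φ := (Polynomial.algEquivOfTranscendental κ (Φ.x₀ w) ht).symm
    refine ⟨q.map ((Polynomial.aeval X).toRingHom.comp φ.toRingHom), hq.map _, Subtype.ext ?_⟩
    rw [Polynomial.eval₂_map]
    refine ((Polynomial.hom_eval₂ q _ (regOut (poles κ (Φ.x₀ w))).val.toRingHom b).trans ?_).trans hq'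
    congr 1
    refine RingHom.ext fun a => ?_
    obtain ⟨a, rfl⟩ := φ.symm.surjective a
    change (Polynomial.aeval X (φ (φ.symm a))).1 w = _
    rw [AlgEquiv.apply_symm_apply]
    exact (Polynomial.aeval_algHom_apply ((Pi.evalAlgHom κ Φ.L₀ w).comp (Φ.aff x).val) X a).symm.trans
      (Polynomial.aeval_algHom_apply (Algebra.adjoin κ {Φ.x₀ w}).val
        ⟨_, Algebra.self_mem_adjoin_singleton κ _⟩ a)⟩
  have := RingHom.ker_isPrime σ
  obtain ⟨𝔓, -, h1, h2⟩ := Ideal.exists_ideal_over_prime_of_isIntegral (RingHom.ker σ)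
    (⊥ : Ideal (regOut (poles κ (Φ.x₀ w)))) fun f hf => h f (congrArg Subtype.val hf)
  have h3 : ∀ f : Φ.aff x, π f - algebraMap κ _ (σ f) ∈ 𝔓 := fun f => by
    have : f - algebraMap κ _ (σ f) ∈ RingHom.ker σ := by simp [RingHom.mem_ker]
    rw [← h2] at this
    rw [← π.commutes, ← map_sub]
    exact this
  let v : IsDedekindDomain.HeightOneSpectrum (regOut (poles κ (Φ.x₀ w))) := ⟨𝔓, h1, fun e => by
    have h4 := h3 X
    rw [e, Ideal.mem_bot, sub_eq_zero] at h4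
    exact hP₀ (Set.mem_of_eq_of_mem (congrArg Subtype.val h4) (P₀.2.2 _))⟩
  refine ⟨FFA_pl v, FFA_pl_mem v (Count_xreg _), fun f => (Place.val_eq ?_).symm⟩
  exact (Place.val_eq_zero (FFA_pl_mem v (π f - algebraMap κ _ (σ f)).2)).1 ((FF_mem v _).1 (h3 f))

/-- The point given by a place of a floor. -/
theorem Count_ev (z : Φ.Pl) : ∃ σ : Φ.aff x →ₐ[κ] κ, ∀ f, σ f = z.1.2.val (f.1 z.1.1) := by
  obtain ⟨σ, hσ⟩ := z.1.2.exists_ev (regOut (poles κ (Φ.x₀ z.1.1))) fun f hf => hf _ (not_not.2 z.2)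
  exact ⟨σ.comp (((Pi.evalAlgHom κ Φ.L₀ z.1.1).comp (Φ.aff x).val).codRestrict _
    fun f => Φ.aff_le hx f.2 z.1.1), fun f => hσ _⟩

theorem Count_spz_x {Q : Place (HF κ) L} {z : Φ.Pl} (h : Φ.Spz Q z) {a : HO κ} (ha : Q.val x = a) :
    hres a = z.1.2.val (Φ.x₀ z.1.1) := by
  obtain ⟨o, h1, h2⟩ := h.2 x _ (Count_xreg x) Count_x
  rw [← h2, Subtype.ext (ha.symm.trans h1)]

/-- A function vanishing at the other floors but not at `z`. -/
theorem Count_sep {z : Φ.Pl} (hz : ∀ z', Φ.Glued z z' → z'.1.1 = z.1.1) :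
    ∃ u₀ ∈ Φ.aff x, z.1.2.val (u₀ z.1.1) ≠ 0 ∧ ∀ w, w ≠ z.1.1 → u₀ w = 0 := by
  classical
  obtain ⟨σ, hσ⟩ := Φ.Count_ev hx z
  have key : ∀ w, w ≠ z.1.1 → ∃ f : Φ.aff x, f.1 w = 0 ∧ σ f ≠ 0 := fun w hw => by
    by_contra! hn
    obtain ⟨P, hP, hP'⟩ := Φ.Count_lift hx σ w hn
    exact hw (hz ⟨⟨w, P⟩, hP⟩ fun f hf => (hσ ⟨f, hf⟩).symm.trans (hP' ⟨f, hf⟩))
  choose! f hf hf' using key
  refine ⟨(∏ w ∈ Finset.univ.erase z.1.1, f w).1, Subtype.prop _, ?_, fun w hw => ?_⟩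
  · rw [← hσ, map_prod]
    exact Finset.prod_ne_zero_iff.2 fun w hw => hf' w (Finset.ne_of_mem_erase hw)
  · rw [SubmonoidClass.coe_finsetProd, Finset.prod_apply]
    exact Finset.prod_eq_zero (Finset.mem_erase.2 ⟨hw, Finset.mem_univ w⟩) (hf w hw)

/-- A place not specialising to `z` is killed by an integral function not vanishing at `z`. -/
theorem Count_kill {z : Φ.Pl} {Q : Place (HF κ) L} (h : x ∈ Q.1) (h' : ¬ Φ.Spz Q z) :
    ∃ (s : L) (s₀ : _), s ∈ regOut (poles (HF κ) x) ∧ Φ.R s s₀ ∧ z.1.2.val (s₀ z.1.1) ≠ 0 ∧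
      Q.Ge s 1 := by
  have hQ : ∀ {f : L}, f ∈ regOut (poles (HF κ) x) → f ∈ Q.1 := fun hf => hf Q (not_not.2 h)
  by_cases hv' : Q.val x ∈ HO κ
  · simp only [Spz, not_and, not_forall] at h'
    obtain ⟨f, f₀, h1, h2, h3⟩ := h' h
    let o : HO κ := ⟨_, Count_val_mem hx h hv' h1 h2.1⟩
    refine ⟨f - algebraMap _ L (o : HF κ), _, sub_mem h1 (Subalgebra.algebraMap_mem _ _),
      Count_sub h2 (Count_const o), fun e => h3 ⟨o, rfl, ?_⟩, Place.ge_sub_val (hQ h1)⟩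
    have h4 : f₀ z.1.1 ∈ z.1.2.1 := Φ.aff_le hx ⟨f, h1, h2⟩ _ _ (not_not.2 z.2)
    rw [Pi.sub_apply, Pi.algebraMap_apply, Count_val_sub h4 (z.1.2.2.2 _), Place.val_const,
      sub_eq_zero] at e
    exact e.symm
  · have h0 : Q.val x ≠ 0 := fun e => hv' (e ▸ zero_mem _)
    let c : HO κ := ⟨(Q.val x)⁻¹, ((HO κ).mem_or_inv_mem _).resolve_left hv'⟩
    have hc : hres c = 0 := by
      by_contra e
      have h1 : IsUnit c := isUnit_HO.2 (le_antisymm (not_lt.1 (mt hres_eq_zero.2 e)) c.2)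
      obtain ⟨c', hc'⟩ := h1.exists_right_inv
      have h2 : (Q.val x)⁻¹ * (c' : HF κ) = 1 := congrArg Subtype.val hc'
      rw [inv_mul_eq_one₀ h0] at h2
      exact hv' (h2 ▸ c'.2)
    have h1 : (1 - algebraMap _ L (c : HF κ) * x) ∈ regOut (poles (HF κ) x) :=
      sub_mem (one_mem _) (mul_mem (Subalgebra.algebraMap_mem _ _) (Count_xreg x))
    refine ⟨_, _, h1, Count_sub Count_one (Count_mul (Count_const c) Count_x), ?_, ?_⟩
    · rw [hc, map_zero, zero_mul, sub_zero, Pi.one_apply, ← map_one (algebraMap κ _),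
        Place.val_const]
      exact one_ne_zero
    · rw [← Place.val_eq_zero (hQ h1), Count_val_sub (one_mem _) (mul_mem (Q.2.2 _) h),
        Place.val_mul (Q.2.2 _) h, Place.val_const, ← map_one (algebraMap (HF κ) L),
        Place.val_const]
      exact sub_eq_zero.2 (inv_mul_cancel₀ h0).symm

/-- A function vanishing at `z` but not on the floor of `z` has a zero specialising to `z`. -/
theorem Count_root {z : Φ.Pl} {u : L} {u₀ : _} (hu : u ∈ regOut (poles (HF κ) x)) (hu' : Φ.R u u₀)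
    (hu₁ : z.1.2.val (u₀ z.1.1) ≠ 0) (hu₂ : ∀ w, w ≠ z.1.1 → u₀ w = 0) {Y : L} {Y₀ : _}
    (hY : Y ∈ regOut (poles (HF κ) x)) (hY' : Φ.R Y Y₀) (hY₁ : Y₀ z.1.1 ≠ 0)
    (hY₂ : z.1.2.val (Y₀ z.1.1) = 0) : ∃ Q', Φ.Spz Q' z ∧ Q'.val Y = 0 := by
  by_contra! hn
  obtain ⟨σ, hσ⟩ := Φ.Count_ev hx z
  have hσ' : ∀ {f f₀ g g₀}, f ∈ regOut (poles (HF κ) x) → Φ.R f f₀ → g ∈ regOut (poles (HF κ) x) →
      Φ.R g g₀ → z.1.2.val ((f₀ * g₀) z.1.1) = z.1.2.val (f₀ z.1.1) * z.1.2.val (g₀ z.1.1) :=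
    fun a b c d => Place.val_mul (Φ.aff_le hx ⟨_, a, b⟩ _ _ (not_not.2 z.2))
      (Φ.aff_le hx ⟨_, c, d⟩ _ _ (not_not.2 z.2))
  have hσ'' : ∀ {f f₀} (n : ℕ), f ∈ regOut (poles (HF κ) x) → Φ.R f f₀ →
      z.1.2.val ((f₀ ^ n) z.1.1) = z.1.2.val (f₀ z.1.1) ^ n :=
    fun n a b => Count_val_pow (Φ.aff_le hx ⟨_, a, b⟩ _ _ (not_not.2 z.2)) n
  have hY0 : Y ≠ 0 := fun e => hY₁ (by
    have h1 := Count_const (Φ := Φ) 0
    rw [map_zero, map_zero, ZeroMemClass.coe_zero, map_zero, ← e] at h1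
    rw [Count_uniq hY' h1]
    rfl)
  have key : ∀ T : Set (Place (HF κ) L), T.Finite → (∀ Q ∈ T, x ∈ Q.1 ∧ Q.val Y = 0) →
      ∃ (s : L) (s₀ : _), s ∈ regOut (poles (HF κ) x) ∧ Φ.R s s₀ ∧ z.1.2.val (s₀ z.1.1) ≠ 0 ∧
        ∀ Q ∈ T, Q.Ge s (Q.ord Y) := fun T hT => by
    induction T, hT using Set.Finite.induction_on with
    | empty =>
      refine fun _ => ⟨1, 1, one_mem _, Count_one, ?_, by simp⟩
      rw [Pi.one_apply, ← map_one (algebraMap κ _), Place.val_const]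
      exact one_ne_zero
    | @insert P T _ _ ih =>
      intro hT
      obtain ⟨s, s₀, a₁, a₂, a₃, a₄⟩ := ih fun Q hQ => hT Q (Set.mem_insert_of_mem _ hQ)
      obtain ⟨hP, hP'⟩ := hT P (Set.mem_insert _ _)
      obtain ⟨t, t₀, b₁, b₂, b₃, b₄⟩ := Φ.Count_kill hx hP fun e => hn P e hP'
      refine ⟨s * t ^ (P.ord Y).toNat, _, mul_mem a₁ (pow_mem b₁ _), Count_mul a₂ (Count_pow b₂ _),
        ?_, ?_⟩
      · rw [hσ' a₁ a₂ (pow_mem b₁ _) (Count_pow b₂ _), hσ'' _ b₁ b₂]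
        exact mul_ne_zero a₃ (pow_ne_zero _ b₃)
      · rintro Q (rfl | hQ)
        · exact ((Q.mem_iff.1 (a₁ Q (not_not.2 hP))).mul (b₄.pow _)).mono (by omega)
        · exact ((a₄ Q hQ).mul (Q.mem_iff.1 (pow_mem b₁ _ Q
            (not_not.2 (hT Q (Set.mem_insert_of_mem _ hQ)).1)))).mono (by omega)
  obtain ⟨s, s₀, a₁, a₂, a₃, a₄⟩ := key {Q | x ∈ Q.1 ∧ Q.val Y = 0}
    ((finite_ord (K := HF κ) hY0).subset fun Q hQ => by
      have := ((Place.val_eq_zero (hY Q (not_not.2 hQ.1))).1 hQ.2).resolve_left hY0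
      change Q.ord Y ≠ 0
      omega) fun _ h => h
  have hh : s * Y⁻¹ ∈ regOut (poles (HF κ) x) := fun Q hQ => by
    by_cases e : Q.val Y = 0
    · exact Q.mem_iff.2 ((rr_ge_div hY0 (a₄ Q ⟨not_not.1 hQ, e⟩)).mono (by omega))
    · exact mul_mem (a₁ Q hQ) (Count_inv_mem (hY Q hQ) e)
  obtain ⟨n, hn'⟩ := Φ.kill hx (S := {z.1.1}) (g := s * Y⁻¹) hu' hu₂ (by
    rintro _ rfl
    refine ⟨Y, Y₀, hY', hY₁, ?_⟩
    rw [mul_comm, inv_mul_cancel_right₀ hY0]
    exact a₂.1)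
  have h1 := Count_mul hY' (⟨hn', rfl⟩ : Φ.R _ _)
  have h2 := hσ' hY hY' (mul_mem (pow_mem hu n) hh) ⟨hn', rfl⟩
  rw [show Y * (u ^ n * (s * Y⁻¹)) = u ^ n * s by field_simp] at h1
  rw [Count_uniq h1 (Count_mul (Count_pow hu' n) a₂), hσ' (pow_mem hu n) (Count_pow hu' n) a₁ a₂,
    hσ'' n hu hu', hY₂, zero_mul] at h2
  exact mul_ne_zero (pow_ne_zero n hu₁) a₃ h2

theorem exists_pl {Q : Place (HF κ) L} (h : x ∈ Q.1) (h' : Q.val x ∈ HO κ) : ∃ z, Φ.Spz Q z := by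
  obtain ⟨σ, hσ⟩ := Φ.Count_pt hx h h'
  obtain ⟨w, hw⟩ : ∃ w, ∀ f : Φ.aff x, f.1 w = 0 → σ f = 0 := by
    by_contra! hn
    choose f hf hf' using hn
    have h1 : ∏ w, f w = 0 := Subtype.ext (funext fun w => by
      rw [SubmonoidClass.coe_finsetProd, Finset.prod_apply]
      exact Finset.prod_eq_zero (Finset.mem_univ w) (hf w))
    have h2 := congrArg σ h1
    rw [map_prod, map_zero, Finset.prod_eq_zero_iff] at h2
    obtain ⟨w, -, h3⟩ := h2
    exact hf' w h3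
  obtain ⟨P, hP, hP'⟩ := Φ.Count_lift hx σ w hw
  refine ⟨⟨⟨w, P⟩, hP⟩, h, fun f f₀ h1 h2 => ?_⟩
  obtain ⟨o, h3, h4⟩ := hσ f ⟨f₀, f, h1, h2⟩ h1 h2
  exact ⟨o, h3, h4.trans (hP' _)⟩

theorem exists_zero {y : L} (hy : y ≠ 0) (hy' : y ∈ regOut (poles (HF κ) x)) {z : Φ.Pl}
    (hz : ∀ z', Φ.Glued z z' → z'.1.1 = z.1.1) : ∃ γ : ℝ, (∃ (u : L) (u₀ g₀ : _), Φ.R u u₀ ∧
      u₀ z.1.1 ≠ 0 ∧ Φ.R (u * τ κ (-γ) • y) g₀ ∧ g₀ z.1.1 ≠ 0) ∧
      ∀ Q, Φ.Spz Q z → hv (Q.val y) ≠ γ → ∃ Q', Φ.Spz Q' z ∧ Q'.val y = 0 := by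
  obtain ⟨u₀, ⟨u, hu, hu'⟩, hu₁, hu₂⟩ := Φ.Count_sep hx hz
  obtain ⟨γ, u', u₀', g₀, a₁, a₂, a₃, a₄⟩ := Φ.unit_scale hx hy z.1.1
  refine ⟨γ, ⟨u', u₀', g₀, a₁, a₂, a₃, a₄⟩, fun Q hQ hne => ?_⟩
  obtain ⟨n, hn⟩ := Φ.kill hx (S := {z.1.1}) (g := τ κ (-γ) • y) hu' hu₂ (by
    rintro _ rfl
    exact ⟨u', u₀', a₁, a₂, a₃.1⟩)
  have hY : u ^ n * τ κ (-γ) • y ∈ regOut (poles (HF κ) x) :=
    mul_mem (pow_mem hu n) (Subalgebra.smul_mem _ hy' _)
  have hval : ∀ Q', Φ.Spz Q' z → ∃ o : HO κ, hv o.1 = 0 ∧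
      Q'.val (u ^ n * τ κ (-γ) • y) = o.1 ^ n * (τ κ (-γ) * Q'.val y) := fun Q' hQ' => by
    have hx' : Q' ∉ poles (HF κ) x := not_not.2 hQ'.1
    obtain ⟨o, h1, h2⟩ := hQ'.2 u u₀ hu hu'
    refine ⟨o, le_antisymm (not_lt.1 (mt hres_eq_zero.2 (h2 ▸ hu₁))) o.2, ?_⟩
    rw [Place.val_mul (pow_mem hu n Q' hx') (Subalgebra.smul_mem _ hy' _ Q' hx'),
      Count_val_pow (hu Q' hx'), h1, Algebra.smul_def, Place.val_mul (Q'.2.2 _) (hy' Q' hx'),
      Place.val_const]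
  have hu0 : u₀ z.1.1 ≠ 0 := fun e => hu₁ (by rw [e, ← map_zero (algebraMap κ _), Place.val_const])
  obtain ⟨Q', h1, h2⟩ := Φ.Count_root hx hu hu' hu₁ hu₂ hY ⟨hn, rfl⟩ (fun e => by
    have h1 := Count_mul a₁ (⟨hn, rfl⟩ : Φ.R _ _)
    rw [mul_left_comm] at h1
    have h2 := congrFun (Count_uniq h1 (Count_mul (Count_pow hu' n) a₃)) z.1.1
    rw [Pi.mul_apply, e, mul_zero] at h2
    exact mul_ne_zero (pow_ne_zero n hu0) a₄ h2.symm) (by
    obtain ⟨o, h1, h2⟩ := hQ.2 _ _ hY ⟨hn, rfl⟩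
    obtain ⟨o', h3, h4⟩ := hval Q hQ
    rw [← h2, hres_eq_zero]
    have h5 : hv o.1 = hv (τ κ (-γ) * Q.val y) := by
      rw [← h1, h4, hv_mul, hv_pow, h3, nsmul_zero, zero_add]
    refine lt_of_le_of_ne o.2 fun e => hne ?_
    rw [← e, hv_mul, hv_τ] at h5
    have h6 := congrArg ((γ : WithTop ℝ) + ·) h5
    simp only [← add_assoc, ← WithTop.coe_add, add_neg_cancel, add_zero, WithTop.coe_zero,
      zero_add] at h6
    exact h6.symm)
  refine ⟨Q', h1, ?_⟩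
  obtain ⟨o, h3, h4⟩ := hval Q' h1
  rw [h4] at h2
  have h5 : o.1 ≠ 0 := fun e => by
    rw [hv_eq_top.2 e] at h3
    exact WithTop.top_ne_zero h3
  exact (mul_eq_zero.1 ((mul_eq_zero.1 h2).resolve_left (pow_ne_zero n h5))).resolve_left
    (τ_ne_zero _)

theorem count (p : ℕ) [Fact p.Prime] [CharP κ p] (h : HW0 (HF κ) L p) {d m n : ℕ}
    (hd : Module.finrank (IntermediateField.adjoin (HF κ) {x}) L = d) {y : L} (hy : y ≠ 0)
    (hy' : y ∈ Lsp ((m : ℤ) • dvInf (HF κ) x)) (Q : Fin n → Place (HF κ) L) (a : Fin n → HO κ)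
    (hQ : ∀ i, x ∈ (Q i).1 ∧ (Q i).val x = a i) (ha : Function.Injective fun i => hres (a i))
    (hb : Function.Injective fun i => hv ((Q i).val y)) :
    n + 1 ≤ 2 * d + m * d ∧ (n + 1 = 2 * d + m * d → (∀ w, Φ.deg w = 1) ∧
      ∃ P P' : Fin (Φ.s - 1) → Φ.Pl, (∀ i j, Φ.Glued (P i) (P j) → i = j) ∧
        ∀ i, P' i ≠ P i ∧ Φ.Glued (P i) (P' i)) := by
  classical
  have hx0 : x ≠ 0 := fun e => hx (e ▸ isAlgebraic_zero)
  have hinf : ∀ P : Place (HF κ) L, x ∈ P.1 → dvInf (HF κ) x P = 0 := fun P hP => by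
    have := (P.mem_iff.1 hP).resolve_left hx0
    rw [dvInf_apply hx0]
    omega
  have hyr : y ∈ regOut (poles (HF κ) x) := fun P hP => P.mem_iff.2 (by
    simpa [hinf P (not_not.1 hP)] using hy' P)
  choose z hz using fun i => Φ.exists_pl hx (hQ i).1 ((hQ i).2 ▸ (a i).2)
  have hzx : ∀ i, hres (a i) = (z i).1.2.val (Φ.x₀ (z i).1.1) := fun i =>
    Φ.Count_spz_x hx (hz i) (hQ i).2
  have hgl : ∀ i j, Φ.Glued (z i) (z j) → i = j := fun i j e =>
    ha ((hzx i).trans ((e _ Φ.Count_xaff).trans (hzx j).symm))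
  choose ht hht using fun w => Φ.unit_scale hx hy w
  let C : Finset (Fin n) := Finset.univ.filter fun i => ∃ z', Φ.Glued (z i) z' ∧ z'.1.1 ≠ (z i).1.1
  let A : Finset (Fin n) := Finset.univ.filter fun i => hv ((Q i).val y) = ht (z i).1.1
  let B : Finset (Fin n) := Finset.univ.filter fun i => ∃ Q', Φ.Spz Q' (z i) ∧ Q'.val y = 0
  have hcov : n ≤ A.card + B.card + C.card := by
    refine le_trans ?_ ((Finset.card_union_le _ _).trans
      (Nat.add_le_add_right (Finset.card_union_le A B) _))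
    conv_lhs => rw [← Fintype.card_fin n, ← Finset.card_univ]
    refine Finset.card_le_card fun i _ => ?_
    simp only [A, B, C, Finset.mem_union, Finset.mem_filter, Finset.mem_univ, true_and]
    by_contra! hn
    obtain ⟨γ, h1, h2⟩ := Φ.exists_zero hx hy hyr hn.2
    obtain ⟨Q', h3, h4⟩ := h2 _ (hz i) (Count_ht h1 (hht _) ▸ hn.1.1)
    exact hn.1.2 Q' h3 h4
  have hA : A.card ≤ Φ.s := by
    conv_rhs => rw [← Fintype.card_fin Φ.s, ← Finset.card_univ]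
    refine Finset.card_le_card_of_injOn (fun i => (z i).1.1) (fun _ _ => Finset.mem_univ _)
      fun i hi j hj e => hb ?_
    have e' : (z i).1.1 = (z j).1.1 := e
    exact (Finset.mem_filter.1 hi).2.trans (e' ▸ (Finset.mem_filter.1 hj).2.symm)
  have hB : B.card ≤ m * d := by
    choose Q' h1 h2 using fun i : B => (Finset.mem_filter.1 i.2).2
    have hinj : Function.Injective Q' := fun i j e => Subtype.ext (ha (by
      obtain ⟨o, h3, -⟩ := (h1 i).2 x _ (Count_xreg x) Count_x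
      exact (hzx i).trans ((Φ.Count_spz_x hx (h1 i) h3).symm.trans
        ((Φ.Count_spz_x hx (h1 j) (e ▸ h3)).trans (hzx j).symm))))
    have h3 : ∑ i, Finsupp.single (Q' i) (1 : ℤ) ≤ (m : ℤ) • dvInf (HF κ) x + dv (HF κ) y :=
      fun P => by
        by_cases e : ∃ i, Q' i = P
        · obtain ⟨i, rfl⟩ := e
          have h4 := ((Place.val_eq_zero (hyr _ (not_not.2 (h1 i).1))).1 (h2 i)).resolve_left hy
          rw [Finsupp.finsetSum_apply, Finset.sum_eq_single i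
            (fun j _ hj => Finsupp.single_eq_of_ne (hinj.ne hj.symm)) (by simp)]
          simpa [hinf _ (h1 i).1, dv_apply hy] using h4
        · rw [Finsupp.finsetSum_apply, Finset.sum_eq_zero
            fun j _ => Finsupp.single_eq_of_ne fun e' => e ⟨j, e'.symm⟩]
          exact rr_le_of_mem hy hy' P
    have h4 := dg_mono h3
    rw [dg_add, dg_dv, dg_smul, dg_dvInf hx, hd, dg_sum] at h4
    simp only [dg_single, Finset.sum_const, Finset.card_univ, Fintype.card_coe, nsmul_eq_mul,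
      mul_one, add_zero] at h4
    exact_mod_cast h4
  choose z' hz₁ hz₂ using fun i : C => (Finset.mem_filter.1 i.2).2
  have hne : ∀ i : C, z' i ≠ z i := fun i e => hz₂ i (by rw [e])
  have hC : C.card + 1 ≤ Φ.s := by
    have := Φ.card_glue p hx h (fun i : C => z i) (fun i => {z' i})
      (fun i j e => Subtype.ext (hgl _ _ e)) fun i P hP => by
        rw [Finset.mem_singleton.1 hP]
        exact ⟨hne i, hz₁ i⟩
    simpa using this
  have hdeg : ∀ w, 1 ≤ Φ.deg w := fun w => by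
    have := finiteDimensional_of_transcendental (K := κ) (x := Φ.x₀ w) (Φ.trans w)
    exact Module.finrank_pos
  have hsum := Φ.sum_deg_le hx
  rw [hd] at hsum
  have hs : Φ.s ≤ ∑ w, Φ.deg w := by
    simpa using Finset.sum_le_sum fun w (_ : w ∈ Finset.univ) => hdeg w
  refine ⟨by omega, fun e => ⟨fun w => ?_, ?_⟩⟩
  · by_contra e'
    have := Finset.sum_lt_sum (fun w (_ : w ∈ Finset.univ) => hdeg w)
      ⟨w, Finset.mem_univ w, lt_of_le_of_ne (hdeg w) (Ne.symm e')⟩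
    simp only [Finset.sum_const, Finset.card_univ, Fintype.card_fin, smul_eq_mul, mul_one] at this
    omega
  · let ε : Fin (Φ.s - 1) ≃ C := (Finset.equivFinOfCardEq (by omega)).symm
    exact ⟨fun i => z (ε i), fun i => z' (ε i),
      fun i j e' => ε.injective (Subtype.ext (hgl _ _ e')), fun i => ⟨hne _, hz₁ _⟩⟩

end Floors

end PR0
end

-- merged part: Pool.Agent.Work.MP_da2620_ag.MoebA
section
/-!
# Polynomials in `1 / t`, and tuples of polynomials with transversal gluing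
-/

namespace PR0

open Polynomial

universe u

variable {κ : Type u} [Field κ] {ι : Type}

theorem MoebA_cf (h : κ[X]) (k : ℤ) :
    (aeval (LS.T κ (-1)) h).cf k = if k ≤ 0 then h.coeff (-k).toNat else 0 := by
  induction h using Polynomial.induction_on' with
  | add p q hp hq =>
    rw [map_add, LS.cf_add, hp, hq, coeff_add]
    split_ifs <;> simp
  | monomial n a =>
    rw [aeval_monomial, ← Algebra.smul_def, LS.cf_smul, LS.T_pow, LS.cf_T, coeff_monomial]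
    split_ifs <;> first | omega | simp

theorem MoebA_inj : Function.Injective (aeval (LS.T κ (-1)) : κ[X] → LS κ) := fun p q e =>
  Polynomial.ext fun n => by
    have h := congrArg (fun f : LS κ => f.cf (-n)) e
    simpa [MoebA_cf] using h

theorem MoebA_ge {h : κ[X]} {n : ℕ} (hn : h.natDegree ≤ n) : (aeval (LS.T κ (-1)) h).Ge (-n) :=
  fun m hm => by
    rw [MoebA_cf, if_pos (by omega)]
    exact coeff_eq_zero_of_natDegree_lt (by omega)

theorem MoebA_polar (G : LS κ) : ∃ h : κ[X], (G - aeval (LS.T κ (-1)) h).Ge 0 := by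
  obtain ⟨N, hN⟩ := LS.exists_ge G
  refine ⟨∑ m ∈ Finset.range (N + 1), monomial m (G.cf (-m)), fun k hk => ?_⟩
  rw [LS.cf_sub, MoebA_cf, if_pos hk.le, finsetSum_coeff]
  simp only [coeff_monomial, Finset.sum_ite_eq', Finset.mem_range]
  split_ifs with h
  · rw [show (-(((-k).toNat : ℕ) : ℤ)) = k by omega, sub_self]
  · rw [hN k (by omega), sub_zero]

theorem MoebA_approx {s : κ[X]} (hs : s ≠ 0) (G : LS κ) :
    ∃ h : κ[X], (G - aeval (LS.T κ (-1)) (s * h)).Ge (-s.natDegree) := by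
  have h0 : (aeval (LS.T κ (-1)) s : LS κ) ≠ 0 := fun e => hs (MoebA_inj (e.trans (map_zero _).symm))
  obtain ⟨h, hh⟩ := MoebA_polar (G / aeval (LS.T κ (-1)) s)
  refine ⟨h, ?_⟩
  have h1 := (MoebA_ge (le_refl s.natDegree)).mul hh
  rwa [add_zero, mul_sub, mul_div_cancel₀ _ h0, ← map_mul] at h1

section Tangent

variable [Fintype ι] [DecidableEq ι] (A : Subalgebra κ (ι → κ[X]))

omit [DecidableEq ι] in
/-- Separating the lines through a point from the others. -/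
theorem MoebA_sep (a : κ) (i : ι) : ∃ u ∈ A, (u i).eval a = 1 ∧
    ∀ j, (¬ ∀ F ∈ A, (F i).eval a = (F j).eval a) → (u j).eval a = 0 := by
  have h : ∀ j, ∃ u ∈ A, (u i).eval a = 1 ∧
      ((¬ ∀ F ∈ A, (F i).eval a = (F j).eval a) → (u j).eval a = 0) := by
    intro j
    by_cases h : ∀ F ∈ A, (F i).eval a = (F j).eval a
    · exact ⟨1, one_mem _, by simp, fun h' => absurd h h'⟩
    · push Not at h
      obtain ⟨F, hF, h⟩ := h
      refine ⟨((F i).eval a - (F j).eval a)⁻¹ • (F - algebraMap κ _ ((F j).eval a)),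
        A.smul_mem (sub_mem hF (A.algebraMap_mem _)) _, ?_, fun _ => ?_⟩
      · simp [inv_mul_cancel₀ (sub_ne_zero.2 h)]
      · simp
  choose u hu hu1 hu2 using h
  refine ⟨∏ j, u j, prod_mem fun j _ => hu j, ?_, fun j hj => ?_⟩
  · rw [Finset.prod_apply, eval_prod]
    exact Finset.prod_eq_one fun j _ => hu1 j
  · rw [Finset.prod_apply, eval_prod]
    exact Finset.prod_eq_zero (Finset.mem_univ j) (hu2 j hj)

theorem MoebA_val (a : κ) (w : ι → κ)
    (hw : ∀ i j, (∀ F ∈ A, (F i).eval a = (F j).eval a) → w i = w j) :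
    ∃ v ∈ A, ∀ j, (v j).eval a = w j := by
  have h : ∀ T : Finset ι, ∃ v ∈ A, ∀ j ∈ T, (v j).eval a = w j := by
    intro T
    induction T using Finset.induction_on with
    | empty => exact ⟨0, zero_mem _, by simp⟩
    | insert i T _ ih =>
      obtain ⟨v, hv, h⟩ := ih
      obtain ⟨u, hu, h1, h2⟩ := MoebA_sep A a i
      refine ⟨v + (w i - (v i).eval a) • u, add_mem hv (A.smul_mem hu _), fun j hj => ?_⟩
      rw [Pi.add_apply, Pi.smul_apply, eval_add, eval_smul, smul_eq_mul]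
      rcases Finset.mem_insert.1 hj with rfl | hj
      · rw [h1]
        ring
      · by_cases e : ∀ F ∈ A, (F i).eval a = (F j).eval a
        · rw [hw i j e, e v hv, h j hj]
          ring
        · rw [h2 j e, h j hj]
          ring
  obtain ⟨v, hv, h⟩ := h Finset.univ
  exact ⟨v, hv, fun j => h j (Finset.mem_univ j)⟩

omit [Fintype ι] [DecidableEq ι] in
theorem MoebA_const (hX : (fun _ => X) ∈ A) (q : κ[X]) : (fun _ => q) ∈ A := by
  induction q using Polynomial.induction_on with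
  | C a => exact A.algebraMap_mem a
  | add p q hp hq => exact add_mem hp hq
  | monomial n a h =>
    simp only [pow_succ, ← mul_assoc]
    exact mul_mem h hX

/-- A local generator of the maximal ideal on one line. -/
theorem MoebA_gen (hX : (fun _ => X) ∈ A) (a : κ) (i : ι)
    (two : ∀ j j', (∀ F ∈ A, (F i).eval a = (F j).eval a) → (∀ F ∈ A, (F i).eval a = (F j').eval a) →
      i = j ∨ i = j' ∨ j = j')
    (nt : ∀ j, i ≠ j → ∃ F ∈ A, ¬ (X - C a) ^ 2 ∣ F i - F j) :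
    ∃ G ∈ A, ∀ j, (X - C a) ^ 2 ∣ G j - Pi.single (M := fun _ => κ[X]) i (X - C a) j := by
  obtain ⟨u, hu, h1, h2⟩ := MoebA_sep A a i
  have h3 : ∃ G ∈ A, (X - C a) ^ 2 ∣ G i - (X - C a) ∧
      ∀ j, i ≠ j → (∀ F ∈ A, (F i).eval a = (F j).eval a) → G j = 0 := by
    by_cases h : ∃ j, i ≠ j ∧ ∀ F ∈ A, (F i).eval a = (F j).eval a
    · obtain ⟨j, hj, h⟩ := h
      obtain ⟨F, hF, h4⟩ := nt j hj
      obtain ⟨q, hq⟩ : X - C a ∣ F i - F j := dvd_iff_isRoot.2 (by simp [h F hF])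
      have h5 : q.eval a ≠ 0 := fun e => h4 (by
        rw [hq, sq]
        exact mul_dvd_mul_left _ (dvd_iff_isRoot.2 e))
      refine ⟨(q.eval a)⁻¹ • (F - fun _ => F j), A.smul_mem (sub_mem hF (MoebA_const A hX _)) _,
        ?_, fun j' hj' h' => ?_⟩
      · have h6 : X - C a ∣ (q.eval a)⁻¹ • q - 1 := dvd_iff_isRoot.2 (by
          simp [inv_mul_cancel₀ h5])
        rw [Pi.smul_apply, Pi.sub_apply, hq, sq, ← mul_smul_comm, ← mul_sub_one]
        exact mul_dvd_mul_left _ h6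
      · obtain rfl : j = j' := ((two j j' h h').resolve_left hj).resolve_left hj'
        simp
    · exact ⟨fun _ => X - C a, MoebA_const A hX _, by simp, fun j hj h' => absurd ⟨j, hj, h'⟩ h⟩
  obtain ⟨G, hG, h4, h5⟩ := h3
  refine ⟨G * u ^ 2, mul_mem hG (pow_mem hu 2), fun j => ?_⟩
  rw [Pi.mul_apply, Pi.pow_apply]
  by_cases e : i = j
  · subst e
    have h6 : X - C a ∣ u i ^ 2 - 1 := dvd_iff_isRoot.2 (by simp [h1])
    rw [Pi.single_eq_same, show G i * u i ^ 2 - (X - C a) =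
      (G i - (X - C a)) * u i ^ 2 + (X - C a) * (u i ^ 2 - 1) by ring]
    exact dvd_add (h4.mul_right _) (by rw [sq]; exact mul_dvd_mul_left _ h6)
  · rw [Pi.single_eq_of_ne' e, sub_zero]
    by_cases e' : ∀ F ∈ A, (F i).eval a = (F j).eval a
    · rw [h5 j e e', zero_mul]
      exact dvd_zero _
    · exact (pow_dvd_pow_of_dvd (dvd_iff_isRoot.2 (h2 j e')) 2).mul_left _

theorem MoebA_mem [IsAlgClosed κ] (hX : (fun _ => X) ∈ A)
    (two : ∀ a i j j', (∀ F ∈ A, (F i).eval a = (F j).eval a) →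
      (∀ F ∈ A, (F i).eval a = (F j').eval a) → i = j ∨ i = j' ∨ j = j')
    (nt : ∀ a i j, i ≠ j → ∃ F ∈ A, ¬ (X - C a) ^ 2 ∣ F i - F j) {w : ι → κ[X]}
    (hw : ∀ a i j, (∀ F ∈ A, (F i).eval a = (F j).eval a) → (w i).eval a = (w j).eval a) :
    w ∈ A := by
  let N : Submodule κ[X] (ι → κ[X]) :=
    { carrier := A
      add_mem' := add_mem
      zero_mem' := zero_mem _
      smul_mem' := fun q F hF => mul_mem (MoebA_const A hX q) hF }
  have key : ∀ a : κ, ∃ q : κ[X], q.eval a ≠ 0 ∧ q • w ∈ N := by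
    intro a
    choose G hG hG' using fun i => MoebA_gen A hX a i (two a i) (nt a i)
    let P : Submodule κ[X] (ι → κ[X]) := Ideal.span {X - C a} • ⊤
    have hP : ∀ F : ι → κ[X], (∀ j, X - C a ∣ F j) → F ∈ P := fun F hF => by
      choose g hg using hF
      rw [show F = (X - C a) • g from funext hg]
      exact Submodule.smul_mem_smul (Ideal.mem_span_singleton_self _) trivial
    obtain ⟨r, hr, hr'⟩ := Submodule.exists_sub_one_mem_and_smul_le_of_fg_of_le_sup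
      (I := Ideal.span {X - C a}) (N := N) (N' := P) (P := P) (IsNoetherian.noetherian P) le_rfl (by
        refine Submodule.smul_le.2 fun r hr F _ => ?_
        obtain ⟨r, rfl⟩ := Ideal.mem_span_singleton'.1 hr
        rw [mul_smul, ← Finset.univ_sum_single F, Finset.smul_sum]
        refine Submodule.smul_mem _ _ (sum_mem fun i _ => ?_)
        choose g hg using hG' i
        have e : (X - C a) • Pi.single (M := fun _ => κ[X]) i (F i) =
            F i • G i + (X - C a) • (-F i • (X - C a) • g) := funext fun j => by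
          have := hg j
          by_cases e : j = i
          · subst e
            simp only [Pi.single_eq_same, Pi.add_apply, Pi.smul_apply, smul_eq_mul] at this ⊢
            linear_combination (-F j) * this
          · simp only [Pi.single_eq_of_ne e, Pi.add_apply, Pi.smul_apply, smul_eq_mul] at this ⊢
            linear_combination (-F i) * this
        rw [e]
        exact add_mem (Submodule.mem_sup_left (N.smul_mem _ (hG i))) (Submodule.mem_sup_right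
          (Submodule.smul_mem_smul (Ideal.mem_span_singleton_self _) (P.smul_mem _
            (Submodule.smul_mem_smul (Ideal.mem_span_singleton_self _) trivial)))))
    obtain ⟨v, hv, hv'⟩ := MoebA_val A a (fun i => (w i).eval a) (hw a)
    refine ⟨r, ?_, ?_⟩
    · have := dvd_iff_isRoot.1 (Ideal.mem_span_singleton.1 hr)
      rw [IsRoot, eval_sub, eval_one, sub_eq_zero] at this
      rw [this]
      exact one_ne_zero
    · rw [← sub_add_cancel w v, smul_add]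
      exact add_mem (hr' (Submodule.smul_mem_pointwise_smul _ _ _
        (hP _ fun j => dvd_iff_isRoot.2 (by simp [hv'])))) (N.smul_mem r hv)
  let I : Ideal κ[X] := N.comap (LinearMap.toSpanSingleton κ[X] _ w)
  obtain ⟨g, hg⟩ := (IsPrincipalIdealRing.principal I).principal
  have h1 : g.degree = 0 := by
    by_contra h
    obtain ⟨a, ha⟩ := IsAlgClosed.exists_root g h
    obtain ⟨q, hq, hq'⟩ := key a
    have h2 : q ∈ I := hq'
    rw [hg] at h2
    obtain ⟨c, rfl⟩ := Ideal.mem_span_singleton.1 h2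
    exact hq (by rw [eval_mul, ha.eq_zero, zero_mul])
  have h2 : (1 : κ[X]) ∈ I := by
    rw [hg]
    exact Ideal.mem_span_singleton.2 (isUnit_iff_degree_eq_zero.2 h1).dvd
  have h3 : (1 : κ[X]) • w ∈ N := h2
  rwa [one_smul] at h3

end Tangent

/-- Tuples of polynomials in `1 / t`. -/
noncomputable def MoebA_P (ι : Type) (κ : Type u) [Field κ] : (ι → κ[X]) →ₐ[κ] LT ι κ :=
  AlgHom.pi fun i => (aeval (LS.T κ (-1))).comp (Pi.evalAlgHom κ (fun _ => κ[X]) i)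

theorem MoebA_P_apply (w : ι → κ[X]) (i : ι) : MoebA_P ι κ w i = aeval (LS.T κ (-1)) (w i) := rfl

theorem MoebA_count [Fintype ι] (A : Subalgebra κ (LT ι κ)) (S : Finset (κ × Sym2 ι))
    (hS : ∀ w : ι → κ[X], (∀ a i j, (a, s(i, j)) ∈ S → (w i).eval a = (w j).eval a) →
      MoebA_P ι κ w ∈ A) (n : ℕ) [FiniteDimensional κ (lev A n)] :
    (n + 1) * Fintype.card ι ≤ Module.finrank κ (lev A n) + S.card := by
  have := (degreeLT.basis κ (n + 1)).finiteDimensional_of_finite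
  let c : (ι → degreeLT κ (n + 1)) →ₗ[κ] ι → κ[X] := (degreeLT κ (n + 1)).subtype.compLeft ι
  let Δ : (ι → κ[X]) →ₗ[κ] S → κ := LinearMap.pi fun μ => (leval μ.1.1).comp
    (LinearMap.proj (R := κ) (φ := fun _ => κ[X]) μ.1.2.out.1 -
      LinearMap.proj (R := κ) (φ := fun _ => κ[X]) μ.1.2.out.2)
  have hΔ : ∀ w μ, Δ w μ = (w μ.1.2.out.1).eval μ.1.1 - (w μ.1.2.out.2).eval μ.1.1 := fun w μ => by
    simp [Δ]
  let Ψ : LinearMap.ker (Δ.comp c) →ₗ[κ] lev A n :=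
    (((MoebA_P ι κ).toLinearMap.comp c).comp (Submodule.subtype _)).codRestrict _ fun w => by
      refine ⟨hS _ fun a i j h => ?_, fun i => MoebA_ge ?_⟩
      · have h1 := (hΔ _ _).symm.trans (congrFun (LinearMap.mem_ker.1 w.2) ⟨_, h⟩)
        have h2 : s((s(i, j)).out.1, (s(i, j)).out.2) = s(i, j) := Quot.out_eq s(i, j)
        rw [Pi.zero_apply, sub_eq_zero] at h1
        rcases Sym2.eq_iff.1 h2 with ⟨h3, h4⟩ | ⟨h3, h4⟩
        · simp only [h3, h4] at h1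
          exact h1
        · simp only [h3, h4] at h1
          exact h1.symm
      · have h1 := mem_degreeLT.1 (w.1 i).2
        exact natDegree_le_iff_coeff_eq_zero.2 fun N hN =>
          (degree_lt_iff_coeff_zero _ _).1 h1 N hN
  have hΨ : Function.Injective Ψ := fun w w' e => Subtype.ext (funext fun i => Subtype.ext
    (MoebA_inj (congrFun (congrArg Subtype.val e) i)))
  have h1 := LinearMap.finrank_le_finrank_of_injective hΨ
  have h2 := (Δ.comp c).finrank_range_add_finrank_ker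
  have h3 := Submodule.finrank_le (LinearMap.range (Δ.comp c))
  rw [Module.finrank_fintype_fun_eq_card, Fintype.card_coe] at h3
  rw [Module.finrank_pi_fintype, Module.finrank_eq_card_basis (degreeLT.basis κ (n + 1)),
    Finset.sum_const, Finset.card_univ, Fintype.card_fin, smul_eq_mul, mul_comm] at h2
  omega

end PR0
end

-- merged part: Pool.Agent.Work.MP_da2620_ag.MoebB
section
/-!
# Sections through the points at infinity of a special fibre made of lines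
-/

namespace PR0

open Polynomial

universe u

section FF

variable {K L : Type u} [Field K] [Field L] [Algebra K L] [IsAlgClosed K] [Fact (IsFF K L)]

theorem MoebB_cd {ι : Type} [Fintype ι] [DecidableEq ι] {y : L} (hy : Transcendental K y)
    {pl : ι → Place K L} (hi : Function.Injective pl) (h : ∀ i, y ∉ (pl i).1)
    (hd : Module.finrank (IntermediateField.adjoin K {y}) L = Fintype.card ι) :
    ∃ d : CD K L ι, d.x = y ∧ d.pl = pl := by
  classical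
  have h0 : y ≠ 0 := fun e => hy (e ▸ isAlgebraic_zero)
  have h1 : ∀ P : Place K L, y ∉ P.1 → P.ord y < 0 := fun P hP =>
    not_le.1 fun e => hP (P.mem_iff.2 (Or.inr e))
  let D : Dv K L := ∑ i, Finsupp.single (pl i) 1
  have hD : ∀ i, D (pl i) = 1 := fun i => by
    simp [D, Finsupp.single_apply, hi.eq_iff]
  have hD' : ∀ P, (∀ i, P ≠ pl i) → D P = 0 := fun P hP => by
    simp only [D, Finsupp.finsetSum_apply]
    exact Finset.sum_eq_zero fun i _ => Finsupp.single_eq_of_ne (hP i)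
  have h2 : ∀ P, D P ≤ dvInf K y P := fun P => by
    rw [dvInf_apply h0]
    by_cases e : ∃ i, P = pl i
    · obtain ⟨i, rfl⟩ := e
      have := h1 _ (h i)
      rw [hD]
      omega
    · rw [hD' P (not_exists.1 e)]
      omega
  have h3 : ∀ P, D P = dvInf K y P := fun P => by
    by_contra e
    have h4 : D + Finsupp.single P 1 ≤ dvInf K y := fun Q => by
      have := h2 Q
      rw [Finsupp.add_apply, Finsupp.single_apply]
      split_ifs with e'
      · subst e'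
        omega
      · omega
    have h5 := dg_mono h4
    rw [dg_add, dg_single, dg_dvInf hy, hd, dg_sum] at h5
    simp [dg_single] at h5
  refine exists_cd hi (fun i => ⟨h0, ?_⟩) fun P hP => ?_
  · have := h3 (pl i)
    rw [hD, dvInf_apply h0] at this
    omega
  · by_contra e
    have h4 := h3 P
    have := h1 P hP
    rw [hD' P (not_exists.1 e), dvInf_apply h0] at h4
    omega

theorem MoebB_line {y : L} (hy : Transcendental K y)
    (hd : Module.finrank (IntermediateField.adjoin K {y}) L = 1) : ∃ d : CD K L Unit, d.x = y := by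
  have h0 : y ≠ 0 := fun e => hy (e ▸ isAlgebraic_zero)
  obtain ⟨P, h1, h2⟩ := exists_place_val (rr_tr_inv hy) 0
  obtain ⟨d, hd', -⟩ := MoebB_cd (pl := fun _ : Unit => P) hy (fun _ _ _ => rfl) (fun _ h => by
    have h3 := Place.val_mul h h1
    rw [mul_inv_cancel₀ h0, h2, mul_zero, ← map_one (algebraMap K L), Place.val_const] at h3
    exact one_ne_zero h3) (by simpa using hd)
  exact ⟨d, hd'⟩

open scoped IntermediateField.algebraAdjoinAdjoin in
theorem MoebB_poly {z : L} (hz : Transcendental K z)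
    (hd : Module.finrank (IntermediateField.adjoin K {z}) L = 1) {f : L}
    (hf : f ∈ regOut (poles K z)) : ∃ h : K[X], f = aeval z h := by
  have h1 : f ∈ IntermediateField.adjoin K {z} := by
    rw [IntermediateField.finrank_eq_one_iff_eq_top.1 hd]
    trivial
  have := FFA_pid hz
  have h2 : IsIntegral (Algebra.adjoin K {z}) (⟨f, h1⟩ : IntermediateField.adjoin K {z}) :=
    (isIntegral_algebraMap_iff (algebraMap (IntermediateField.adjoin K {z}) L).injective).1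
      ((mem_regOut_poles hz).1 hf)
  obtain ⟨⟨g, hg⟩, e⟩ := IsIntegrallyClosed.isIntegral_iff.1 h2
  obtain ⟨h, rfl⟩ := Algebra.adjoin_mem_exists_aeval _ _ hg
  exact ⟨h, (congrArg Subtype.val e).symm⟩

theorem MoebB_val {P : Place K L} {z : L} (hz : z ∈ P.1) (h : K[X]) :
    aeval z h ∈ P.1 ∧ P.val (aeval z h) = h.eval (P.val z) := by
  induction h using Polynomial.induction_on' with
  | add p q hp hq => rw [map_add, eval_add, Place.val_add hp.1 hq.1, hp.2, hq.2]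
                     exact ⟨add_mem hp.1 hq.1, rfl⟩
  | monomial n a =>
    induction n with
    | zero => simpa using ⟨P.2.2 a, Place.val_const a⟩
    | succ n ih =>
      rw [← monomial_mul_X, map_mul, aeval_X, Place.val_mul ih.1 hz, ih.2, eval_mul, eval_X]
      exact ⟨mul_mem ih.1 hz, rfl⟩

theorem MoebB_reg {z f : L} (hz : z ≠ 0) {n : ℕ} (hf : f ∈ Lsp ((n : ℤ) • dvInf K z)) :
    f ∈ regOut (poles K z) := fun P hP => by
  have h1 := (P.mem_iff.1 (not_not.1 hP)).resolve_left hz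
  have h2 := hf P
  rw [Finsupp.smul_apply, dvInf_apply hz, max_eq_right (by omega), smul_zero, neg_zero] at h2
  exact P.mem_iff.2 h2

theorem MoebB_flip {z f : L} (hz : z ≠ 0) {n m : ℕ} (hm : n ≤ m)
    (hf : f ∈ Lsp ((n : ℤ) • dvInf K z⁻¹)) : z ^ m * f ∈ Lsp ((m : ℤ) • dvInf K z) := fun P => by
  have h2 := hf P
  rw [Finsupp.smul_apply, dvInf_apply (inv_ne_zero hz), P.ord_inv hz, neg_neg, smul_eq_mul] at h2
  refine ((Place.Ge.pow (Or.inr le_rfl : P.Ge z (P.ord z)) m).mul h2).mono ?_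
  rw [Finsupp.smul_apply, dvInf_apply hz, smul_eq_mul]
  rcases le_total 0 (P.ord z) with h | h
  · rw [max_eq_left h, max_eq_right (by omega)]
    nlinarith [(Nat.cast_le (α := ℤ)).2 hm]
  · rw [max_eq_right h, max_eq_left (by omega)]
    nlinarith

end FF

variable {κ : Type u} [Field κ]

theorem MoebB_expand {B : Type u} [CommRing B] (σ : B →+* HO κ) (j : HO κ →+* B) (t s : B)
    (hj : ∀ c, σ (j c) = c) (hs : red κ (σ s) ≠ 0)
    (h : ∀ f, σ f = 0 → ∃ f', s * f = t * f') (e : B →+* LS (HF κ)) (e₀ : B →+* LS κ)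
    (he : ∀ c, e (j c) = algebraMap _ _ (inc κ c)) (he₀ : ∀ c, e₀ (j c) = algebraMap _ _ (red κ c))
    (ht : e t = LS.T _ 1) (ht₀ : e₀ t = LS.T _ 1) (hg : ∀ f, (e f).Ge 0) (hg₀ : ∀ f, (e₀ f).Ge 0)
    (h1 : (e s).cf 0 ≠ 0) (h2 : (e₀ s).cf 0 ≠ 0)
    (f : B) : ∃ F : LS (HO κ), F.Ge 0 ∧ LS.map (inc κ) F = e f ∧ LS.map (red κ) F = e₀ f := by
  let S := Localization.Away s
  have key : ∀ {K : Type u} [Field K] (e : B →+* LS K), (∀ f, (e f).Ge 0) → (e s).cf 0 ≠ 0 →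
      ∃ e' : S →+* LS K, (∀ f, e' (algebraMap B S f) = e f) ∧ ∀ f, (e' f).Ge 0 := by
    intro K _ e hg h1
    obtain ⟨g, hg1, hg2⟩ := LS.exists_inv (hg s) (IsUnit.mk0 _ h1)
    refine ⟨IsLocalization.Away.lift s (IsUnit.of_mul_eq_one _ hg2),
      IsLocalization.Away.lift_eq s _, fun f => ?_⟩
    obtain ⟨n, a, ha⟩ := IsLocalization.Away.surj s f
    have h3 := congrArg (IsLocalization.Away.lift s (IsUnit.of_mul_eq_one _ hg2)) ha
    rw [map_mul, map_pow, IsLocalization.Away.lift_eq, IsLocalization.Away.lift_eq] at h3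
    have h4 := (hg a).mul (hg1.pow n)
    rwa [← h3, mul_assoc, ← mul_pow, hg2, one_pow, mul_one, neg_zero, mul_zero, add_zero] at h4
  obtain ⟨e', he1, he2⟩ := key e hg h1
  obtain ⟨e₀', he3, he4⟩ := key e₀ hg₀ h2
  have hu := Model_unit.2 hs
  rw [← he1, ← he3]
  refine expand (IsLocalization.Away.lift s hu) ((algebraMap B S).comp j) (algebraMap B S t)
    (fun f => ?_) e' e₀' (fun c => (he1 _).trans (he c)) (fun c => (he3 _).trans (he₀ c))
    ((he1 _).trans ht) ((he3 _).trans ht₀) he2 he4 _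
  obtain ⟨n, a, ha⟩ := IsLocalization.Away.surj s f
  have h3 := congrArg (IsLocalization.Away.lift s hu) ha
  rw [map_mul, map_pow, IsLocalization.Away.lift_eq, IsLocalization.Away.lift_eq] at h3
  obtain ⟨g, hg'⟩ := h (a - j (IsLocalization.Away.lift s hu f) * s ^ n) (by
    rw [map_sub, map_mul, hj, map_pow, h3, sub_self])
  obtain ⟨v, hv⟩ := (IsLocalization.Away.algebraMap_isUnit (S := S) s).exists_right_inv
  refine ⟨algebraMap B S g * v ^ (n + 1), ?_⟩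
  have h4 := congrArg (algebraMap B S) hg'
  rw [map_mul, map_sub, ← ha, map_mul, map_mul, map_pow] at h4
  have h5 : (algebraMap B S s) ^ (n + 1) * v ^ (n + 1) = 1 := by rw [← mul_pow, hv, one_pow]
  rw [RingHom.comp_apply]
  linear_combination v ^ (n + 1) * h4 -
    (f - algebraMap B S (j (IsLocalization.Away.lift s hu f))) * h5

/-- Lowering the pole order of a lift. -/
theorem MoebB_lower {ι : Type} [Fintype ι] [DecidableEq ι] {R R' : Type u} [CommRing R]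
    [CommRing R'] (φ : R →+* R') (A : Subalgebra R (LT ι R)) {n : ℕ}
    (h : ∀ m, n ≤ m → ∀ i, ∃ G ∈ A, Pole G (m + 1 : ℕ) ∧ ∀ j, pc G (j, m) = if j = i then 1 else 0)
    {F : LT ι R} (hF : F ∈ A) (hn : Pole (mapT φ F) n) :
    ∃ F' ∈ A, Pole F' n ∧ mapT φ F' = mapT φ F := by
  obtain ⟨k, hk⟩ := exists_pole F
  replace hk : Pole F (n + k : ℕ) := Chart_pole_mono hk (by omega)
  induction k generalizing F with
  | zero => exact ⟨F, hF, hk, rfl⟩
  | succ k ih =>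
    choose G hG hG1 hG2 using h (n + k) (by omega)
    have e : mapT φ (F - ∑ i, pc F (i, n + k) • G i) = mapT φ F := by
      rw [map_sub, map_sum, Finset.sum_eq_zero, sub_zero]
      intro i _
      rw [mapT_smul, ← pc_mapT, pole_iff.1 hn _ (by simp), zero_smul]
    rw [← e]
    refine ih (sub_mem hF (sum_mem fun i _ => A.smul_mem (hG i) _)) (e ▸ hn) (pole_iff.2 ?_)
    rintro ⟨j, l⟩ hl
    rw [Chart_pc_sub, Chart_pc_sum]
    simp only [Chart_pc_smul]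
    by_cases e' : l = n + k
    · subst e'
      simp [hG2]
    · have h1 : n + k + 1 ≤ l := by simp only at hl; omega
      rw [pole_iff.1 hk (j, l) h1, Finset.sum_eq_zero, sub_zero]
      intro i _
      rw [pole_iff.1 (hG1 i) (j, l) h1, mul_zero]

variable {L : Type u} [Field L] [Algebra (HF κ) L]

theorem MoebB_smul (c : HO κ) (f : L) : c • f = algebraMap (HF κ) L c * f :=
  Algebra.smul_def (c : HF κ) f

/-- The integral functions (with respect to `y`) regular outside the poles of `z`. -/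
def MoebB_B (κ : Type u) [Field κ] [Algebra (HF κ) L] (y z : L) : Subalgebra (HO κ) L where
  carrier := {f | f ∈ regOut (poles (HF κ) z) ∧ f ∈ spec κ y}
  mul_mem' ha hb := ⟨mul_mem ha.1 hb.1, mul_mem ha.2 hb.2⟩
  add_mem' ha hb := ⟨add_mem ha.1 hb.1, add_mem ha.2 hb.2⟩
  algebraMap_mem' c := ⟨(regOut _).algebraMap_mem (c : HF κ), const_mem_spec y c⟩

variable {y : L}

/-- The reduction map. -/
noncomputable def MoebB_r (Φ : Floors κ y) (z : L) : MoebB_B κ y z →+* ∀ w, Φ.L₀ w :=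
  Φ.ρ.comp ((MoebB_B κ y z).val.toRingHom.codRestrict (spec κ y) fun f => f.2.2)

theorem MoebB_r_R (Φ : Floors κ y) {z : L} (f : MoebB_B κ y z) : Φ.R f (MoebB_r Φ z f) :=
  ⟨f.2.2, rfl⟩

theorem MoebB_r_eq (Φ : Floors κ y) {z : L} {f : MoebB_B κ y z} {f₀ : _} (h : Φ.R f f₀) :
    MoebB_r Φ z f = f₀ := h.2

theorem MoebB_aff (Φ : Floors κ y) [IsAlgClosed κ] [Fact (IsFF (HF κ) L)] {z : L} {f₀ : _} :
    f₀ ∈ Φ.aff z ↔ ∃ f, MoebB_r Φ z f = f₀ :=
  ⟨fun ⟨f, h1, h2, h3⟩ => ⟨⟨f, h1, h2⟩, h3⟩, fun ⟨f, h⟩ => ⟨f, f.2.1, f.2.2, h⟩⟩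

theorem MoebB_r_const (Φ : Floors κ y) (z : L) (c : HO κ) :
    MoebB_r Φ z (algebraMap _ _ c) = algebraMap κ _ (red κ c) := Φ.const c

theorem MoebB_r_smul (Φ : Floors κ y) {z : L} (c : HO κ) (f : MoebB_B κ y z) :
    MoebB_r Φ z (c • f) = red κ c • MoebB_r Φ z f := by
  rw [Algebra.smul_def, map_mul, MoebB_r_const, Algebra.smul_def]

theorem MoebB_r_ker (Φ : Floors κ y) {z : L} {f : MoebB_B κ y z} (h : MoebB_r Φ z f = 0) :
    ∃ (π : HO κ) (g : MoebB_B κ y z), red κ π = 0 ∧ f = π • g := by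
  obtain ⟨γ, h1, h2⟩ := (Φ.ker ⟨f, f.2.2⟩).1 h
  have h3 : (0 : WithTop ℝ) < hv (τ κ γ) := by
    rw [hv_τ]
    exact_mod_cast h1
  refine ⟨⟨τ κ γ, h3.le⟩, ⟨τ κ (-γ) • f.1, Subalgebra.smul_mem _ f.2.1 _, h2⟩,
    hres_eq_zero.2 h3, Subtype.ext ?_⟩
  change f.1 = τ κ γ • τ κ (-γ) • f.1
  rw [smul_smul, ← τ_add, add_neg_cancel, τ_zero, one_smul]

theorem MoebB_self (K : Type u) [Field K] [Algebra K L] (z : L) : z ∈ regOut (poles K z) :=
  fun _ h => not_not.1 h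

variable [IsAlgClosed κ] [Fact (IsFF (HF κ) L)] (hy : Transcendental (HF κ) y)
include hy

theorem MoebB_inv_mem : y⁻¹ ∈ spec κ y := spec_inv hy ▸ x_mem_spec y⁻¹

theorem MoebB_R_inv (Φ : Floors κ y) : Φ.R y⁻¹ fun w => (Φ.x₀ w)⁻¹ := by
  refine ⟨MoebB_inv_mem hy, funext fun w => eq_inv_of_mul_eq_one_right ?_⟩
  have h0 : y ≠ 0 := fun e => hy (e ▸ isAlgebraic_zero)
  have h1 : (⟨y, x_mem_spec y⟩ * ⟨y⁻¹, MoebB_inv_mem hy⟩ : spec κ y) = 1 :=
    Subtype.ext (mul_inv_cancel₀ h0)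
  have h2 := congrFun (congrArg Φ.ρ h1) w
  rw [map_mul, map_one] at h2
  exact h2

/-- A section of the affine model is a place. -/
theorem MoebB_place {z : L} (hz : Transcendental (HF κ) z) (σ : MoebB_B κ y z →ₐ[HO κ] HO κ) :
    ∃ Q : Place (HF κ) L, z ∈ Q.1 ∧ ∀ f : MoebB_B κ y z, Q.val f = σ f := by
  have h1 : ∀ f : regOut (poles (HF κ) z), ∃ (a : HO κ) (g : MoebB_B κ y z), a ≠ 0 ∧
      g.1 = a • f.1 := fun f => by
    by_cases h0 : f.1 = 0
    · exact ⟨1, 0, one_ne_zero, by simp [h0]⟩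
    obtain ⟨c, hc, h, -⟩ := prim hy h0
    rcases (HO κ).mem_or_inv_mem c with h' | h'
    · exact ⟨⟨c, h'⟩, ⟨c • f.1, Subalgebra.smul_mem _ f.2 _, h⟩,
        fun e => hc (congrArg Subtype.val e), rfl⟩
    · have h2 := mul_mem (const_mem_spec y ⟨_, h'⟩) h
      rw [← Algebra.smul_def, inv_smul_smul₀ hc] at h2
      exact ⟨1, ⟨f.1, f.2, h2⟩, one_ne_zero, by simp⟩
  choose a G ha hG using h1
  have ha' : ∀ f, (a f : HF κ) ≠ 0 := fun f e => ha f (Subtype.ext e)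
  let v : regOut (poles (HF κ) z) → HF κ := fun f => σ (G f) / a f
  have hv : ∀ f (c : HO κ) (g : MoebB_B κ y z), g.1 = c • f.1 → (σ g : HF κ) = c * v f := by
    intro f c g h
    have h2 : a f • g = c • G f := Subtype.ext (by
      rw [Subalgebra.coe_smul, Subalgebra.coe_smul, h, hG, smul_comm])
    have h3 := congrArg (fun g => (σ g : HF κ)) h2
    simp only [map_smul, smul_eq_mul, MulMemClass.coe_mul] at h3
    rw [← mul_div_assoc, ← h3, mul_div_cancel_left₀ _ (ha' f)]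
  have hc : ∀ c, v (algebraMap _ _ c) = c := fun c => by
    rcases (HO κ).mem_or_inv_mem c with h' | h'
    · have h2 := hv (algebraMap _ _ c) 1 (algebraMap _ _ (⟨c, h'⟩ : HO κ)) (one_smul _ _).symm
      rw [AlgHom.commutes] at h2
      simpa using h2.symm
    · by_cases h0 : c = 0
      · have h2 := hv (algebraMap _ _ c) 1 0 (by simp [h0])
        simpa [h0] using h2.symm
      have h2 := hv (algebraMap _ _ c) ⟨_, h'⟩ 1 (by
        rw [MoebB_smul, Subalgebra.coe_algebraMap, ← map_mul, inv_mul_cancel₀ h0, map_one]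
        rfl)
      rw [map_one] at h2
      exact ((eq_inv_mul_iff_mul_eq₀ h0).1 h2).symm.trans (mul_one c)
  let s : regOut (poles (HF κ) z) →ₐ[HF κ] HF κ :=
    { toFun := v
      map_one' := by simpa using hc 1
      map_zero' := by simpa using hc 0
      commutes' := hc
      map_mul' := fun f g => by
        have h2 := hv (f * g) (a f * a g) (G f * G g) (by
          rw [MulMemClass.coe_mul, hG, hG, smul_mul_smul_comm]
          rfl)
        rw [map_mul, MulMemClass.coe_mul, MulMemClass.coe_mul, hv f _ _ (hG f), hv g _ _ (hG g),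
          mul_mul_mul_comm] at h2
        exact (mul_left_cancel₀ (mul_ne_zero (ha' f) (ha' g)) h2).symm
      map_add' := fun f g => by
        have h2 := hv (f + g) (a f * a g) (a g • G f + a f • G g) (by
          rw [AddMemClass.coe_add, Subalgebra.coe_smul, Subalgebra.coe_smul, hG, hG, smul_smul,
            smul_smul, mul_comm (a g), ← smul_add]
          rfl)
        simp only [map_add, map_smul, smul_eq_mul, MulMemClass.coe_mul, AddMemClass.coe_add,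
          hv f _ _ (hG f), hv g _ _ (hG g)] at h2
        refine mul_left_cancel₀ (mul_ne_zero (ha' f) (ha' g)) (h2.symm.trans ?_)
        ring }
  have hne : (poles (HF κ) z).Nonempty := by
    by_contra e
    obtain ⟨c, hc⟩ := const_of_regular (K := HF κ) (f := z) fun P => by_contra fun h => e ⟨P, h⟩
    exact transcendental_iff.1 hz ⟨c, hc.symm⟩
  obtain ⟨Q, ⟨h1, h2⟩, -⟩ := exists_place_of_hom (finite_poles z) hne s
  refine ⟨Q, not_not.1 h1, fun f => (h2 ⟨f, f.2.1⟩).symm.trans ?_⟩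
  exact ((hv ⟨f, f.2.1⟩ 1 f (one_smul _ _).symm).trans (one_mul _)).symm

theorem MoebB_lam (f : MoebB_B κ y y⁻¹) : ∃ n : ℕ, f.1 ∈ Lsp ((n : ℤ) • dvInf (HF κ) y⁻¹) :=
  (Floors.exists_lam (rr_tr_inv hy) f.2.1 ((spec_inv hy).symm ▸ f.2.2)).imp fun _ h => h.1

theorem MoebB_le (Φ : Floors κ y) (f : MoebB_B κ y y⁻¹) (w : Fin Φ.s) :
    MoebB_r Φ y⁻¹ f w ∈ regOut (poles κ (Φ.x₀ w)⁻¹) := by
  have h0 : y ≠ 0 := fun e => hy (e ▸ isAlgebraic_zero)
  have h1 : Φ.x₀ w ≠ 0 := fun e => Φ.trans w (by rw [← Floors.x₀, e]; exact isAlgebraic_zero)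
  obtain ⟨n, hn⟩ := MoebB_lam hy f
  have h2 : Φ.R (y ^ n * f.1) (Φ.x₀ ^ n * MoebB_r Φ y⁻¹ f) :=
    ⟨mul_mem (pow_mem (x_mem_spec y) n) f.2.2, by
      rw [show (⟨y ^ n * f.1, mul_mem (pow_mem (x_mem_spec y) n) f.2.2⟩ : spec κ y) =
        ⟨y, x_mem_spec y⟩ ^ n * ⟨f.1, f.2.2⟩ from rfl, map_mul, map_pow]
      rfl⟩
  have h3 := Φ.red_mem hy h2 (MoebB_flip h0 le_rfl hn) w
  rw [← inv_inv (Φ.x₀ w)] at h3
  have h4 := MoebB_flip (inv_ne_zero h1) le_rfl h3
  rw [Pi.mul_apply, Pi.pow_apply, ← mul_assoc, ← mul_pow, inv_mul_cancel₀ h1, one_pow,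
    one_mul] at h4
  exact MoebB_reg (inv_ne_zero h1) h4

/-- The function `t = 1 / y`. -/
def MoebB_t : MoebB_B κ y y⁻¹ := ⟨y⁻¹, MoebB_self _ _, MoebB_inv_mem hy⟩

theorem MoebB_fin (Φ : Floors κ y) :
    Module.Finite (HO κ) (MoebB_B κ y y⁻¹ ⧸ Ideal.span {MoebB_t hy}) := by
  have h0 : y⁻¹ ≠ 0 := inv_ne_zero fun e => hy (e ▸ isAlgebraic_zero)
  obtain ⟨n₀, hn⟩ := Floors.fg (rr_tr_inv hy)
  obtain ⟨b, b₀, h1, -, h2⟩ := Φ.exists_basis hy (Lsp ((n₀ : ℤ) • dvInf (HF κ) y⁻¹))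
  let β : _ → MoebB_B κ y y⁻¹ := fun i => ⟨b i, MoebB_reg h0 (h1 i).1, (h1 i).2.1⟩
  let q := Ideal.Quotient.mkₐ (HO κ) (Ideal.span {MoebB_t hy})
  have key : ∀ (k : ℕ) (f : MoebB_B κ y y⁻¹), f.1 ∈ Lsp ((n₀ + k : ℕ) • dvInf (HF κ) y⁻¹ :) →
      q f ∈ Submodule.span (HO κ) (Set.range fun i => q (β i)) := by
    intro k
    induction k with
    | zero =>
      intro f hf
      obtain ⟨c, hc⟩ := h2 f (by simpa using hf) f.2.2
      have e : f = ∑ i, c i • β i := Subtype.ext (hc.trans (by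
        rw [AddSubmonoidClass.coe_finsetSum]
        rfl))
      rw [e, map_sum]
      exact sum_mem fun i _ => by
        rw [map_smul]
        exact Submodule.smul_mem _ _ (Submodule.subset_span ⟨i, rfl⟩)
    | succ k ih =>
      intro f hf
      obtain ⟨a, ha, g, hg, e⟩ := hn (n₀ + k) (by omega) f
        ⟨by rw [natCast_zsmul]; exact hf, (spec_inv hy).symm ▸ f.2.2⟩
      have e' : f = ⟨a, MoebB_reg h0 ha.1, spec_inv hy ▸ ha.2⟩ +
        MoebB_t hy * ⟨g, MoebB_reg h0 hg.1, spec_inv hy ▸ hg.2⟩ := Subtype.ext e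
      have h3 : q (MoebB_t hy) = 0 :=
        Ideal.Quotient.eq_zero_iff_mem.2 (Ideal.mem_span_singleton_self _)
      rw [e', map_add, map_mul, h3, zero_mul, add_zero]
      exact ih _ (by rw [← natCast_zsmul]; exact ha.1)
  refine ⟨Submodule.fg_def.2 ⟨_, Set.finite_range fun i => q (β i), top_unique fun x _ => ?_⟩⟩
  obtain ⟨f, rfl⟩ := Ideal.Quotient.mkₐ_surjective (HO κ) _ x
  obtain ⟨n, hn⟩ := MoebB_lam hy f
  refine key n f (rr_Lsp_mono (fun P => ?_) hn)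
  rw [natCast_zsmul, add_smul, Finsupp.add_apply]
  exact le_add_of_nonneg_left (nsmul_nonneg (le_sup_right (a := -dv (HF κ) y⁻¹) P) n₀)

omit [IsAlgClosed κ] [Fact (IsFF (HF κ) L)] hy in
theorem MoebB_tr (Φ : Floors κ y) (w : Fin Φ.s) : Transcendental κ (Φ.x₀ w) := Φ.trans w

omit hy in
theorem MoebB_cf {K L : Type u} [Field K] [Field L] [Algebra K L] {ι : Type} (d : CD K L ι)
    (i : ι) : d.ex i d.x⁻¹ = LS.T K 1 := by
  rw [map_inv₀, d.ex_x]
  exact inv_eq_of_mul_eq_one_right (by rw [← LS.T_add, neg_add_cancel, LS.T_zero])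

omit hy in
theorem MoebB_cf_aeval {K : Type u} [Field K] (h : K[X]) :
    (aeval (LS.T K 1) h).Ge 0 ∧ (aeval (LS.T K 1) h).cf 0 = h.eval 0 := by
  induction h using Polynomial.induction_on' with
  | add p q hp hq => rw [map_add, LS.cf_add, hp.2, hq.2, eval_add]
                     exact ⟨hp.1.add hq.1, rfl⟩
  | monomial n a =>
    rw [aeval_monomial, ← Algebra.smul_def, LS.T_pow, LS.cf_smul, LS.cf_T, eval_monomial]
    refine ⟨((LS.ge_T _).mono (by omega)).smul a, ?_⟩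
    cases n with
    | zero => simp
    | succ n => rw [if_neg (by omega), zero_pow n.succ_ne_zero]

variable (Φ : Floors κ y) (hd : ∀ w, Φ.deg w = 1) (d₀ : ∀ w, CD κ (Φ.L₀ w) Unit)
  (hd₀ : ∀ w, (d₀ w).x = Φ.x₀ w) {s : κ[X]} (hs : s.eval 0 ≠ 0)
  (hs' : ∀ f₀ : ∀ w, Φ.L₀ w, (∀ w, f₀ w ∈ regOut (poles κ (Φ.x₀ w)⁻¹)) →
    (fun w => aeval (Φ.x₀ w)⁻¹ s * f₀ w) ∈ Φ.aff y⁻¹)
include hd hd₀

theorem MoebB_e0 (f : MoebB_B κ y y⁻¹) (w : Fin Φ.s) : ∃ h : κ[X],
    MoebB_r Φ y⁻¹ f w = aeval (Φ.x₀ w)⁻¹ h ∧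
      (d₀ w).ex () (MoebB_r Φ y⁻¹ f w) = aeval (LS.T κ 1) h := by
  obtain ⟨h, e⟩ := MoebB_poly (rr_tr_inv (MoebB_tr Φ w)) (by rw [rr_adjoin_inv]; exact hd w)
    (MoebB_le hy Φ f w)
  exact ⟨h, e, by rw [e, ← aeval_algHom_apply, ← hd₀, MoebB_cf]⟩

omit hy hd hd₀ in
include hs' in
theorem MoebB_single (w : Fin Φ.s) (h : κ[X]) : ∃ f : MoebB_B κ y y⁻¹,
    MoebB_r Φ y⁻¹ f = Pi.single w (aeval (Φ.x₀ w)⁻¹ (s * h)) := by
  refine (MoebB_aff Φ).1 ?_
  convert hs' (Pi.single w (aeval (Φ.x₀ w)⁻¹ h)) fun w' => ?_ using 2 with w'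
  · by_cases e : w' = w
    · subst e
      simp
    · simp [Pi.single_eq_of_ne e]
  · by_cases e : w' = w
    · subst e
      rw [Pi.single_eq_same]
      exact Algebra.adjoin_le (Set.singleton_subset_iff.2 (MoebB_self _ _))
        (aeval_mem_adjoin_singleton κ _)
    · rw [Pi.single_eq_of_ne e]
      exact zero_mem _

include hs hs'

theorem MoebB_sec (w : Fin Φ.s) : ∃ σ : MoebB_B κ y y⁻¹ →ₐ[HO κ] HO κ, σ (MoebB_t hy) = 0 ∧
    (∀ f, red κ (σ f) = ((d₀ w).ex () (MoebB_r Φ y⁻¹ f w)).cf 0) ∧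
    ∃ u, red κ (σ u) ≠ 0 ∧ ∀ f, σ f = 0 → ∃ g, u * f = MoebB_t hy * g := by
  have h0 : y ≠ 0 := fun e => hy (e ▸ isAlgebraic_zero)
  have := MoebB_fin hy Φ
  have hg : ∀ f, ((d₀ w).ex () (MoebB_r Φ y⁻¹ f w)).Ge 0 := fun f => by
    obtain ⟨h, -, e⟩ := MoebB_e0 hy Φ hd d₀ hd₀ f w
    exact e ▸ (MoebB_cf_aeval h).1
  let σ₀ : MoebB_B κ y y⁻¹ →+* κ :=
    { toFun := fun f => ((d₀ w).ex () (MoebB_r Φ y⁻¹ f w)).cf 0
      map_one' := by
        rw [map_one, Pi.one_apply, map_one, ← LS.T_zero, LS.cf_T, if_pos rfl]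
      map_zero' := by rw [map_zero, Pi.zero_apply, map_zero, LS.cf_zero]
      map_add' := fun f g => by rw [map_add, Pi.add_apply, map_add, LS.cf_add]
      map_mul' := fun f g => by
        rw [map_mul, Pi.mul_apply, map_mul, ← LS.cf_mul_lead (hg f) (hg g), add_zero] }
  have h1 : ∀ f (h : κ[X]), MoebB_r Φ y⁻¹ f w = aeval (Φ.x₀ w)⁻¹ h → σ₀ f = h.eval 0 := by
    intro f h e
    change ((d₀ w).ex () (MoebB_r Φ y⁻¹ f w)).cf 0 = _
    rw [e, ← aeval_algHom_apply, ← hd₀, MoebB_cf, (MoebB_cf_aeval h).2]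
  have ht : MoebB_r Φ y⁻¹ (MoebB_t hy) = fun w => (Φ.x₀ w)⁻¹ := MoebB_r_eq Φ (MoebB_R_inv hy Φ)
  have hy0 : σ₀ (MoebB_t hy) = 0 := (h1 _ X (by rw [ht, aeval_X])).trans eval_X
  let q := Ideal.Quotient.mkₐ (HO κ) (Ideal.span {MoebB_t hy})
  have hq : ∀ f, q f = 0 ↔ ∃ g, f = MoebB_t hy * g := fun f =>
    Ideal.Quotient.eq_zero_iff_mem.trans Ideal.mem_span_singleton
  have hqy : q (MoebB_t hy) = 0 := (hq _).2 ⟨1, (mul_one _).symm⟩
  let τ₀ : (MoebB_B κ y y⁻¹ ⧸ Ideal.span {MoebB_t hy}) →+* κ := Ideal.Quotient.lift _ σ₀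
    fun f hf => by
      obtain ⟨g, rfl⟩ := Ideal.mem_span_singleton.1 hf
      rw [map_mul, hy0, zero_mul]
  have hτ : ∀ f, τ₀ (q f) = σ₀ f := fun f => rfl
  obtain ⟨σ, h2, u, h3, h4⟩ := Model_sec (N := MoebB_B κ y y⁻¹ ⧸ Ideal.span {MoebB_t hy})
    (fun a x ha hx => by
      obtain ⟨f, rfl⟩ := Ideal.Quotient.mkₐ_surjective (HO κ) _ x
      obtain ⟨g, hg⟩ := (hq _).1 ((MoebB_auxB2 q a f).trans hx)
      have h5 : (a : HF κ) • f.1 = y⁻¹ * g.1 := congrArg Subtype.val hg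
      have h6 : (a : HF κ) ≠ 0 := fun e => ha (Subtype.ext e)
      refine (hq f).2 ⟨⟨y * f.1, ?_, mul_mem (x_mem_spec y) f.2.2⟩,
        Subtype.ext (inv_mul_cancel_left₀ h0 _).symm⟩
      rw [← inv_smul_smul₀ h6 f.1, h5, mul_smul_comm, mul_inv_cancel_left₀ h0]
      exact Subalgebra.smul_mem _ g.2.1 _)
    τ₀ (fun a => by
      rw [← q.commutes, hτ, h1 _ (C (red κ a)) (by rw [MoebB_r_const, aeval_C]; rfl), eval_C])
    (fun x hx => by
      obtain ⟨f, rfl⟩ := Ideal.Quotient.mkₐ_surjective (HO κ) _ x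
      obtain ⟨h, e, -⟩ := MoebB_e0 hy Φ hd d₀ hd₀ f w
      obtain ⟨h, rfl⟩ : X ∣ h := X_dvd_iff.2 (by rw [coeff_zero_eq_eval_zero, ← h1 f h e]; exact hx)
      obtain ⟨u, hu⟩ := MoebB_single Φ hs' w 1
      obtain ⟨g, hg⟩ := MoebB_single Φ hs' w h
      obtain ⟨π, G, hπ, e'⟩ := MoebB_r_ker Φ (f := u * f - MoebB_t hy * g) (funext fun w' => by
        rw [map_sub, map_mul, map_mul, hu, hg, ht]
        by_cases e' : w' = w
        · subst e'
          simp [e]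
          ring
        · simp [Pi.single_eq_of_ne e'])
      refine ⟨q u, π, 0, q G, 0, ?_, hπ, map_zero _, ?_⟩
      · rwa [hτ, h1 u (s * 1) (by rw [hu, Pi.single_eq_same]), mul_one]
      · exact MoebB_auxB1 q hqy e')
  obtain ⟨u, rfl⟩ := Ideal.Quotient.mkₐ_surjective (HO κ) _ u
  refine ⟨σ.comp q, ?_, fun f => h2 _, u, (h2 _).trans_ne h3, fun f hf => (hq _).1 ?_⟩
  · rw [AlgHom.comp_apply, hqy, map_zero]
  · rw [map_mul]
    exact h4 _ hf

/-- The chart of the generic fibre, with integral expansions. -/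
theorem MoebB_gen : ∃ d : CD (HF κ) L (Fin Φ.s), d.x = y ∧
    (∀ (f : MoebB_B κ y y⁻¹) w, ∃ F : LS (HO κ), F.Ge 0 ∧ LS.map (inc κ) F = d.ex w f ∧
      LS.map (red κ) F = (d₀ w).ex () (MoebB_r Φ y⁻¹ f w)) ∧
    ∀ w, ∃ f : MoebB_B κ y y⁻¹, ∀ w', (d.ex w' f).cf 0 = if w' = w then 1 else 0 := by
  have h0 : y ≠ 0 := fun e => hy (e ▸ isAlgebraic_zero)
  choose σ h1 h2 u h3 h4 using MoebB_sec hy Φ hd d₀ hd₀ hs hs'
  choose Q h5 h6 using fun w => MoebB_place hy (rr_tr_inv hy) (σ w)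
  choose e he using fun w => MoebB_single Φ hs' w 1
  have h7 : ∀ w w', red κ (σ w' (e w)) = if w' = w then s.eval 0 else 0 := fun w w' => by
    rw [h2, he]
    split_ifs with h
    · subst h
      rw [Pi.single_eq_same, ← aeval_algHom_apply, ← hd₀, MoebB_cf, (MoebB_cf_aeval _).2, mul_one]
    · rw [Pi.single_eq_of_ne h, map_zero, LS.cf_zero]
  obtain ⟨d, hx, rfl⟩ := MoebB_cd (pl := Q) hy (fun w w' h => by
      by_contra h'
      have h8 := h7 w' w'
      have h9 : σ w (e w') = σ w' (e w') :=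
        Subtype.ext ((h6 w (e w')).symm.trans (h ▸ h6 w' (e w')))
      rw [← h9, h7, if_neg h', if_pos rfl] at h8
      exact hs h8.symm)
    (fun w h => by
      have h8 := Place.val_mul h (h5 w)
      rw [mul_inv_cancel₀ h0, show (Q w).val y⁻¹ = 0 from
        (h6 w (MoebB_t hy)).trans (congrArg _ (h1 w)), mul_zero, ← map_one (algebraMap (HF κ) L),
        Place.val_const] at h8
      exact one_ne_zero h8)
    (by simp [← Φ.sum_deg hy, hd])
  have h8 : ∀ w (f : MoebB_B κ y y⁻¹), f.1 ∈ (d.pl w).1 := fun w f => f.2.1 _ (not_not.2 (h5 w))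
  have h9 : ∀ w (f : MoebB_B κ y y⁻¹), (d.ex w f).cf 0 = σ w f := fun w f =>
    (d.val_eq w (h8 w f)).symm.trans (h6 w f)
  refine ⟨d, hx, fun f w => ?_, fun w => ?_⟩
  · refine MoebB_expand (σ w).toRingHom (algebraMap _ _) (MoebB_t hy) (u w) (σ w).commutes (h3 w)
      (h4 w) ((d.ex w).toRingHom.comp (MoebB_B κ y y⁻¹).val.toRingHom)
      (((d₀ w).ex ()).toRingHom.comp ((Pi.evalRingHom _ w).comp (MoebB_r Φ y⁻¹)))
      (fun c => (d.ex w).commutes (c : HF κ)) (fun c => ?_) ((congrArg (fun z => d.ex w z⁻¹) hx).symm.trans (MoebB_cf d w)) ?_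
      (fun f => (d.mem_pl w _).1 (h8 w f)) (fun f => ?_) ?_ ((h2 w _).symm.trans_ne (h3 w)) f
    · exact (congrArg _ (congrFun (MoebB_r_const Φ _ c) w)).trans (((d₀ w).ex ()).commutes _)
    · exact (congrArg _ ((congrFun (MoebB_r_eq Φ (f := MoebB_t hy) (MoebB_R_inv hy Φ)) w).trans
        (congrArg _ (hd₀ w).symm))).trans (MoebB_cf (d₀ w) ())
    · obtain ⟨h, -, e⟩ := MoebB_e0 hy Φ hd d₀ hd₀ f w
      exact e.symm ▸ (MoebB_cf_aeval h).1
    · exact (h9 w _).trans_ne fun e => h3 w (by rw [show σ w (u w) = 0 from Subtype.ext e, map_zero])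
  · have h10 : IsUnit (∏ w' ∈ Finset.univ.erase w, (σ w (e w) - σ w' (e w))) := by
      rw [Model_unit, map_prod]
      refine Finset.prod_ne_zero_iff.2 fun w' hw => ?_
      rwa [map_sub, h7, h7, if_pos rfl, if_neg (Finset.ne_of_mem_erase hw), sub_zero]
    obtain ⟨v, hv⟩ := h10.exists_left_inv
    refine ⟨v • ∏ w' ∈ Finset.univ.erase w, (e w - algebraMap _ _ (σ w' (e w))), fun w' => ?_⟩
    rw [h9, map_smul, map_prod]
    simp only [map_sub, AlgHom.commutes, Algebra.algebraMap_self, RingHom.id_apply, smul_eq_mul]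
    split_ifs with h
    · rw [h, hv]
      rfl
    · rw [Finset.prod_eq_zero (Finset.mem_erase.2 ⟨h, Finset.mem_univ _⟩) (sub_self _), mul_zero]
      rfl

omit hy hd hd₀ hs hs' in
/-- The expansions on the floors. -/
noncomputable def MoebB_E : (∀ w, Φ.L₀ w) →ₐ[κ] LT (Fin Φ.s) κ :=
  AlgHom.pi fun w => ((d₀ w).ex ()).comp (Pi.evalAlgHom κ _ w)

omit hy hd hd₀ hs hs' [IsAlgClosed κ] [Fact (IsFF (HF κ) L)] in
theorem MoebB_E_inj : Function.Injective (MoebB_E Φ d₀) := fun _ _ e =>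
  funext fun w => ((d₀ w).ex ()).injective (congrFun e w)

omit hd₀ hs hs' in
theorem MoebB_aff_poly {f : ∀ w, Φ.L₀ w} (hf : f ∈ Φ.aff y) (w : Fin Φ.s) :
    ∃ h : κ[X], f w = aeval (Φ.x₀ w) h := MoebB_poly (MoebB_tr Φ w) (hd w) (Φ.aff_le hy hf w)

omit hy hd hs hs' [IsAlgClosed κ] [Fact (IsFF (HF κ) L)] in
theorem MoebB_ex (w : Fin Φ.s) (h : κ[X]) :
    (d₀ w).ex () (aeval (Φ.x₀ w) h) = aeval (LS.T κ (-1)) h := by
  rw [← aeval_algHom_apply, ← hd₀, (d₀ w).ex_x]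

omit hd hd₀ hs hs' in
theorem MoebB_swap (f : MoebB_B κ y y) : ∃ n : ℕ, f.1 ∈ Lsp ((n : ℤ) • dvInf (HF κ) y) ∧
    ∃ g : MoebB_B κ y y⁻¹, g.1 = y⁻¹ ^ n * f.1 ∧
      MoebB_r Φ y⁻¹ g = fun w => (Φ.x₀ w)⁻¹ ^ n * MoebB_r Φ y f w := by
  have h0 : y⁻¹ ≠ 0 := inv_ne_zero fun e => hy (e ▸ isAlgebraic_zero)
  obtain ⟨n, hn, -⟩ := Floors.exists_lam hy f.2.1 f.2.2
  refine ⟨n, hn, ⟨y⁻¹ ^ n * f.1, MoebB_reg h0 (MoebB_flip h0 le_rfl (by rwa [inv_inv])),
    mul_mem (pow_mem (MoebB_inv_mem hy) n) f.2.2⟩, rfl, ?_⟩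
  refine (Φ.ρ.map_mul (⟨y⁻¹, MoebB_inv_mem hy⟩ ^ n) ⟨f.1, f.2.2⟩).trans ?_
  rw [map_pow, (MoebB_R_inv hy Φ).2]
  rfl

omit hd in
theorem MoebB_chart₀ : ∃ J, IsChart J ((Φ.aff y).map (MoebB_E Φ d₀)) := by
  obtain ⟨s', h1, h2⟩ := Φ.exists_cond hy
  refine (exists_isChart (A := (Φ.aff y).map (MoebB_E Φ d₀)) (n := s'.natDegree)
    ⟨Φ.x₀, ⟨y, MoebB_self _ _, x_mem_spec y, rfl⟩,
    funext fun w => (congrArg _ (hd₀ w).symm).trans ((d₀ w).ex_x ())⟩ ?_ fun F => ?_).imp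
    fun _ h => h.2
  · rintro _ ⟨f, hf, rfl⟩ h
    have h3 : ∀ w, f w ∈ regOut (poles κ (Φ.x₀ w)⁻¹) := fun w P _ => by
      by_cases e : Φ.x₀ w ∈ P.1
      · exact Φ.aff_le hy hf w P (not_not.2 e)
      · obtain ⟨i, rfl⟩ := (d₀ w).pole P (hd₀ w ▸ e)
        exact ((d₀ w).mem_pl i _).2 ((h w).mono neg_zero.ge)
    have h4 : ∀ q : κ[X], (fun w => aeval (Φ.x₀ w)⁻¹ q) ∈ Φ.aff y⁻¹ := fun q => by
      have e : (fun w => aeval (Φ.x₀ w)⁻¹ q) = aeval (fun w => (Φ.x₀ w)⁻¹) q :=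
        funext fun w => aeval_algHom_apply (Pi.evalAlgHom κ _ w) (fun w => (Φ.x₀ w)⁻¹) q
      rw [e]
      exact Algebra.adjoin_le (S := Φ.aff y⁻¹)
        (Set.singleton_subset_iff.2 ⟨y⁻¹, MoebB_self _ _, MoebB_R_inv hy Φ⟩)
        (aeval_mem_adjoin_singleton κ _)
    obtain ⟨f, rfl⟩ := (MoebB_aff Φ).1 hf
    obtain ⟨n, -, g, -, hg⟩ := MoebB_swap hy Φ f
    obtain ⟨a, b, e⟩ : IsCoprime s (X ^ n) := IsCoprime.pow_right
      ((irreducible_X.coprime_iff_not_dvd.2 fun h' =>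
        hs (coeff_zero_eq_eval_zero s ▸ X_dvd_iff.1 h')).symm)
    have h5 := add_mem (mul_mem (h4 a) (hs' _ h3)) (mul_mem (h4 b) ((MoebB_aff Φ).2 ⟨g, hg⟩))
    obtain ⟨c, hc⟩ := Φ.conn hy hf (by
      convert h5 using 1
      funext w
      have e' := congrArg (aeval (Φ.x₀ w)⁻¹) e
      simp only [map_add, map_mul, map_pow, aeval_X, map_one] at e'
      simp only [Pi.add_apply, Pi.mul_apply]
      linear_combination (-MoebB_r Φ y f w) * e')
    exact ⟨c, by rw [hc]; exact (MoebB_E Φ d₀).commutes c⟩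
  · choose h hh using fun w => MoebA_approx h1.ne_zero (F w)
    refine ⟨_, ⟨_, h2 (fun w => aeval (Φ.x₀ w) (h w)) fun w => Algebra.adjoin_le
      (Set.singleton_subset_iff.2 (MoebB_self _ _)) (aeval_mem_adjoin_singleton κ _), rfl⟩,
      fun w => ?_⟩
    have := hh w
    rwa [← MoebB_ex Φ d₀ hd₀ w, map_mul] at this

theorem MoebB_chart : ∃ (d : CD (HF κ) L (Fin Φ.s)) (J : Finset (Fin Φ.s × ℕ))
    (𝒜 : Subalgebra (HO κ) (LT (Fin Φ.s) (HO κ))), d.x = y ∧ IsChart J 𝒜 ∧ d.alg = gen' 𝒜 ∧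
      spe 𝒜 = (Φ.aff y).map (MoebB_E Φ d₀) := by
  have h0 : y ≠ 0 := fun e => hy (e ▸ isAlgebraic_zero)
  have : Nonempty (Fin Φ.s) := ⟨⟨0, Φ.s_pos hy⟩⟩
  obtain ⟨d, hx, h1, h2⟩ := MoebB_gen hy Φ hd d₀ hd₀ hs hs'
  have hx1 : ∀ w, d.ex w y = LS.T _ (-1) := fun w => (congrArg _ hx).symm.trans (d.ex_x w)
  have hx2 : ∀ w, d.ex w y⁻¹ = LS.T _ 1 := fun w =>
    (congrArg (fun z => d.ex w z⁻¹) hx).symm.trans (MoebB_cf d w)
  have hx3 : regOut (poles (HF κ) y) = d.reg :=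
    (congrArg (fun z => regOut (poles (HF κ) z)) hx).symm.trans (congrArg _ d.poles_eq)
  have hx4 : dvInf (HF κ) y = d.inf := (congrArg _ hx).symm.trans d.dvInf_x
  obtain ⟨J, hJ⟩ := MoebB_chart₀ hy Φ d₀ hd₀ hs hs'
  obtain ⟨J', hJ'⟩ := d.exists_chart
  have h3 : ∀ f : MoebB_B κ y y, ∃ F, mapT (inc κ) F = d.exT f ∧
      mapT (red κ) F = MoebB_E Φ d₀ (MoebB_r Φ y f) := fun f => by
    obtain ⟨n, -, g, hg, hg'⟩ := MoebB_swap hy Φ f
    choose F _ h4 h5 using h1 g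
    have h6 : ∀ {K : Type u} [Field K], LS.T K (-1) ^ n * LS.T K 1 ^ n = 1 := by
      intro K _
      rw [← mul_pow, ← LS.T_add, neg_add_cancel, LS.T_zero, one_pow]
    refine ⟨fun w => LS.T _ (-1) ^ n * F w, funext fun w => ?_, funext fun w => ?_⟩
    · change LS.map (inc κ) (LS.T _ (-1) ^ n * F w) = d.ex w f
      rw [map_mul, map_pow, LS.map_T, h4, hg, map_mul, map_pow, hx2, ← mul_assoc, h6, one_mul]
    · change LS.map (red κ) (LS.T _ (-1) ^ n * F w) = (d₀ w).ex () (MoebB_r Φ y f w)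
      rw [map_mul, map_pow, LS.map_T, h5, hg', map_mul, map_pow, ← hd₀, MoebB_cf, ← mul_assoc, h6,
        one_mul]
  let 𝒜 : Subalgebra (HO κ) (LT (Fin Φ.s) (HO κ)) :=
    { carrier := {F | ∃ f : MoebB_B κ y y, mapT (inc κ) F = d.exT f ∧
        mapT (red κ) F = MoebB_E Φ d₀ (MoebB_r Φ y f)}
      mul_mem' := by
        rintro _ _ ⟨f, h4, h5⟩ ⟨g, h6, h7⟩
        exact ⟨f * g, by rw [map_mul, h4, h6, ← map_mul]; rfl, by simp only [map_mul, h5, h7]⟩
      add_mem' := by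
        rintro _ _ ⟨f, h4, h5⟩ ⟨g, h6, h7⟩
        exact ⟨f + g, by rw [map_add, h4, h6, ← map_add]; rfl, by simp only [map_add, h5, h7]⟩
      algebraMap_mem' := fun c => ⟨algebraMap _ _ c,
        (mapT_algebraMap _ _).trans (d.exT.commutes (c : HF κ)).symm,
        by rw [mapT_algebraMap, MoebB_r_const, AlgHom.commutes]⟩ }
  have hp : ∀ {F : LT (Fin Φ.s) (HO κ)} {n : ℤ}, Pole (mapT (inc κ) F) n → Pole F n :=
    fun h i m hm => Model_inc_inj ((h i m hm).trans (map_zero _).symm)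
  have hL : ∀ {f : L} {n : ℕ}, f ∈ Lsp ((n : ℤ) • dvInf (HF κ) y) ↔
      f ∈ regOut (poles (HF κ) y) ∧ Pole (d.exT f) n := by
    intro f n
    rw [hx4, d.mem_Lsp, hx3]
  choose e he using h2
  choose k hk using fun w => MoebB_lam hy (e w)
  have h4 : ∀ m, Finset.univ.sup k ≤ m → ∀ i, ∃ G ∈ 𝒜, Pole G (m + 1 : ℕ) ∧
      ∀ j, pc G (j, m) = if j = i then 1 else 0 := fun m hm i => by
    have h5 := MoebB_flip (m := m + 1) h0
      ((Finset.le_sup (f := k) (Finset.mem_univ i)).trans (hm.trans m.le_succ)) (hk i)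
    obtain ⟨G, h6, h7⟩ := h3 ⟨_, MoebB_reg h0 h5, mul_mem (pow_mem (x_mem_spec _) _) (e i).2.2⟩
    refine ⟨G, ⟨_, h6, h7⟩, hp (h6 ▸ (hL.1 h5).2), fun j => Model_inc_inj ?_⟩
    rw [← pc_mapT, h6, apply_ite (inc κ), map_one, map_zero, ← he i j]
    change (d.ex j (y ^ (m + 1) * _)).cf _ = _
    rw [map_mul, map_pow, hx1, LS.T_pow, LS.cf_T_mul]
    congr 1
    push_cast
    ring
  have h5 : ∀ n, Finset.univ.sup k ≤ n → ∀ F ∈ lev ((Φ.aff y).map (MoebB_E Φ d₀)) n,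
      ∃ F₀ ∈ 𝒜, Pole F₀ n ∧ mapT (red κ) F₀ = F := by
    rintro n hn _ ⟨⟨f, hf, rfl⟩, h6⟩
    obtain ⟨f, rfl⟩ := (MoebB_aff Φ).1 hf
    obtain ⟨G, h7, h8⟩ := h3 f
    obtain ⟨F, h9, h10, h11⟩ := MoebB_lower (red κ) 𝒜 (fun m hm => h4 m (hn.trans hm))
      (F := G) ⟨f, h7, h8⟩ (h8 ▸ h6)
    exact ⟨F, h9, h10, h11.trans h8⟩
  have h6 : J'.card = J.card := by
    obtain ⟨n, hn⟩ := Chart_bound (J ∪ J')
    obtain ⟨n, hn, hn'⟩ : ∃ n : ℕ, (∀ ν ∈ J ∪ J', ν.2 < n) ∧ Finset.univ.sup k ≤ n :=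
      ⟨n + _, fun ν hν => (hn ν hν).trans_le le_self_add, le_add_self⟩
    have e1 := hJ.finrank_lev fun ν hν => hn ν (Finset.mem_union_left _ hν)
    have e2 := hJ'.finrank_lev fun ν hν => hn ν (Finset.mem_union_right _ hν)
    obtain ⟨b, b₀, h7, h8, h9⟩ := Φ.exists_basis hy (Lsp ((n : ℤ) • dvInf (HF κ) y))
    let β : _ → MoebB_B κ y y := fun i => ⟨b i, MoebB_reg h0 (h7 i).1, (h7 i).2.1⟩
    have hβ : ∀ i, MoebB_r Φ y (β i) = b₀ i := fun i => MoebB_r_eq Φ (h7 i).2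
    have e3 : lev d.alg n = (Lsp ((n : ℤ) • dvInf (HF κ) y)).map d.exT.toLinearMap := by
      ext F
      constructor
      · rintro ⟨⟨f, hf, rfl⟩, h⟩
        exact ⟨f, hL.2 ⟨hx3.ge hf, h⟩, rfl⟩
      · rintro ⟨f, hf, rfl⟩
        exact ⟨⟨f, hx3.le (hL.1 hf).1, rfl⟩, (hL.1 hf).2⟩
    have e4 : lev ((Φ.aff y).map (MoebB_E Φ d₀)) n =
        Submodule.span κ (Set.range ((MoebB_E Φ d₀).toLinearMap ∘ b₀)) := by
      refine le_antisymm (fun F hF => ?_) (Submodule.span_le.2 ?_)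
      · obtain ⟨G, ⟨f, h10, h11⟩, h12, rfl⟩ := h5 n hn' F hF
        obtain ⟨c, hc⟩ := h9 f (hL.2 ⟨f.2.1, h10 ▸ Model_pole_mapT _ h12⟩) f.2.2
        have e : f = ∑ i, c i • β i := Subtype.ext (hc.trans (by
          rw [AddSubmonoidClass.coe_finsetSum]
          rfl))
        rw [h11, e, map_sum, map_sum]
        refine sum_mem fun i _ => ?_
        rw [MoebB_r_smul, map_smul, hβ]
        exact Submodule.smul_mem _ _ (Submodule.subset_span ⟨i, rfl⟩)
      · rintro _ ⟨i, rfl⟩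
        obtain ⟨G, h10, h11⟩ := h3 (β i)
        refine ⟨⟨_, (MoebB_aff Φ).2 ⟨_, hβ i⟩, rfl⟩, ?_⟩
        have h12 := Model_pole_mapT (red κ) (hp (h10 ▸ (hL.1 (h7 i).1).2 : Pole (mapT _ G) n))
        rwa [h11, hβ] at h12
    rw [e4, finrank_span_eq_card (h8.map' _ (LinearMap.ker_eq_bot.2 (MoebB_E_inj Φ d₀))),
      Fintype.card_fin] at e1
    rw [e3, ← (Submodule.equivMapOfInjective _ d.exT_injective _).finrank_eq] at e2
    omega
  obtain ⟨h7, h8, h9⟩ := crit hJ' hJ h6 fun m => ⟨m + Finset.univ.sup k, le_self_add, fun F hF => by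
    obtain ⟨G, ⟨f, h10, h11⟩, h12, h13⟩ := h5 _ le_add_self F hF
    refine ⟨G, ⟨?_, h12⟩, h13⟩
    exact ⟨f, hx3.le f.2.1, h10.symm⟩⟩
  exact ⟨d, J, _, hx, h7, h8.symm, h9⟩

end PR0
end
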