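import Pool.Agent.Work.MP_da2620_ag.Pt

/-!
# Kummer independence of monomials
-/

namespace PR0

open MvPolynomial

variable {F : Type*} [Field F] {T : Type} [Fintype T] [DecidableEq T]

theorem moorea_gal {E : Type*} [Field E] [Algebra F E] [IsGalois F E] {n : ℕ} (hn : n ≠ 0)
    {ζ : F} (hζ : IsPrimitiveRoot ζ n) (a : T → Fˣ) (ν : T → Fˣ →* Multiplicative ℤ)
    (hν : ∀ i j, (n : ℤ) ∣ Multiplicative.toAdd (ν j (a i)) - if i = j then 1 else 0)
    {U : T → E} (hU : ∀ j, U j ^ n = algebraMap F E (a j)) :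
    LinearIndependent F fun e : T → Fin n => ∏ j, U j ^ (e j : ℕ) := by
  have : NeZero n := ⟨hn⟩
  set u : (T → Fin n) → E := fun e => ∏ j, U j ^ (e j : ℕ) with hu
  have hU0 : ∀ j, U j ≠ 0 := fun j h => by
    have := hU j
    rw [h, zero_pow hn, eq_comm, map_eq_zero] at this
    exact (a j).ne_zero this
  have hu0 : ∀ e, u e ≠ 0 := fun e => Finset.prod_ne_zero_iff.2 fun j _ => pow_ne_zero _ (hU0 j)
  have hun : ∀ e, u e ^ n = algebraMap F E ((∏ j, a j ^ (e j : ℕ) : Fˣ) : F) := fun e => by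
    simp only [hu, ← Finset.prod_pow, Units.coe_prod, map_prod, Units.val_pow_eq_pow_val, map_pow,
      ← hU]
    exact Finset.prod_congr rfl fun j _ => pow_right_comm _ _ _
  have hroot : ∀ e (σ : E ≃ₐ[F] E), ∃ c : F, σ (u e) = algebraMap F E c * u e := fun e σ => by
    have h1 : (σ (u e) / u e) ^ n = 1 := by
      rw [div_pow, ← map_pow, hun, AlgEquiv.commutes, div_self]
      exact (map_ne_zero _).2 (Units.ne_zero _)
    obtain ⟨i, -, hi⟩ :=
      (hζ.map_of_injective (algebraMap F E).injective).eq_pow_of_pow_eq_one h1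
    exact ⟨ζ ^ i, by rw [map_pow, hi, div_mul_cancel₀ _ (hu0 e)]⟩
  let χ : (T → Fin n) → ((E ≃ₐ[F] E) →* E) := fun e =>
    { toFun := fun σ => σ (u e) / u e
      map_one' := div_self (hu0 e)
      map_mul' := fun σ τ => by
        obtain ⟨c, hc⟩ := hroot e τ
        rw [AlgEquiv.mul_apply, hc, map_mul, AlgEquiv.commutes, mul_div_cancel_right₀ _ (hu0 e),
          mul_div_assoc, mul_comm] }
  have hχ : Function.Injective χ := by
    intro e e' h
    obtain ⟨w, hw⟩ : u e / u e' ∈ Set.range (algebraMap F E) := by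
      refine (InfiniteGalois.mem_range_algebraMap_iff_fixed _).2 fun σ => ?_
      have h1 : σ (u e) / u e = σ (u e') / u e' := DFunLike.congr_fun h σ
      have h2 : σ (u e') ≠ 0 := (map_ne_zero σ).2 (hu0 e')
      rw [div_eq_div_iff (hu0 e) (hu0 e')] at h1
      rw [map_div₀, div_eq_div_iff h2 (hu0 e'), h1, mul_comm]
    have hw0 : w ≠ 0 := fun h0 => by
      rw [h0, map_zero] at hw
      exact div_ne_zero (hu0 e) (hu0 e') hw.symm
    have key : Units.mk0 w hw0 ^ n * ∏ j, a j ^ (e' j : ℕ) = ∏ j, a j ^ (e j : ℕ) := by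
      apply Units.ext
      apply (algebraMap F E).injective
      rw [Units.val_mul, map_mul, ← hun, ← hun, Units.val_pow_eq_pow_val, map_pow, Units.val_mk0,
        hw, ← mul_pow, div_mul_cancel₀ _ (hu0 e')]
    funext j
    have hs : ∀ f : T → Fin n, (n : ℤ) ∣
        Multiplicative.toAdd (ν j (∏ i, a i ^ (f i : ℕ))) - (f j : ℕ) := fun f => by
      have : Multiplicative.toAdd (ν j (∏ i, a i ^ (f i : ℕ))) - (f j : ℕ) =
          ∑ i, ((f i : ℕ) : ℤ) * (Multiplicative.toAdd (ν j (a i)) - if i = j then 1 else 0) := by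
        simp [mul_sub, Finset.sum_sub_distrib, toAdd_prod]
      rw [this]
      exact Finset.dvd_sum fun i _ => (hν i j).mul_left _
    have h1 := hs e
    have h2 := hs e'
    rw [← key, map_mul, map_pow, toAdd_mul, toAdd_pow, nsmul_eq_mul] at h1
    have h3 : (n : ℤ) ∣ ((e' j : ℕ) : ℤ) - (e j : ℕ) := by
      have h4 := (h1.sub h2).sub (Dvd.intro (Multiplicative.toAdd (ν j (Units.mk0 w hw0))) rfl)
      exact (congrArg _ (by ring)).mp h4
    have h5 := Int.eq_zero_of_abs_lt_dvd h3 (by
      have := (e j).2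
      have := (e' j).2
      rw [abs_lt]
      constructor <;> omega)
    exact Fin.ext (by omega)
  have hli := (linearIndependent_monoidHom (E ≃ₐ[F] E) E).comp χ hχ
  rw [Fintype.linearIndependent_iff] at hli ⊢
  intro g hg e
  have := hli (fun e => algebraMap F E (g e) * u e) (by
    funext σ
    have h1 := congrArg σ hg
    rw [map_sum, map_zero] at h1
    rw [Finset.sum_apply, Pi.zero_apply, ← h1]
    refine Finset.sum_congr rfl fun e _ => ?_
    change algebraMap F E (g e) * u e * (σ (u e) / u e) = _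
    rw [map_smul, Algebra.smul_def, mul_assoc, mul_div_cancel₀ _ (hu0 e)]) e
  exact (map_eq_zero _).1 ((mul_eq_zero.1 this).resolve_right (hu0 e))

theorem moorea_indep {K : Type*} [Field K] [Algebra F K] {n : ℕ} (hn : (n : F) ≠ 0)
    {ζ : F} (hζ : IsPrimitiveRoot ζ n) (a : T → Fˣ) (ν : T → Fˣ →* Multiplicative ℤ)
    (hν : ∀ i j, (n : ℤ) ∣ Multiplicative.toAdd (ν j (a i)) - if i = j then 1 else 0)
    {U : T → K} (hU : ∀ j, U j ^ n = algebraMap F K (a j)) :
    LinearIndependent F fun e : T → Fin n => ∏ j, U j ^ (e j : ℕ) := by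
  have hn0 : n ≠ 0 := by
    rintro rfl
    exact hn Nat.cast_zero
  have hs : ∀ j, U j ∈ separableClosure F K := fun j =>
    (Polynomial.separable_X_pow_sub_C (a j : F) hn (a j).ne_zero).of_dvd
      (minpoly.dvd F (U j) (by simp [hU]))
  let φ : separableClosure F K →ₐ[F] SeparableClosure F := IsSepClosed.lift
  let V : T → separableClosure F K := fun j => ⟨U j, hs j⟩
  have hV : ∀ j, V j ^ n = algebraMap F _ (a j : F) := fun j => Subtype.ext (hU j)
  have h1 := moorea_gal hn0 hζ a ν hν (U := fun j => φ (V j))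
    (fun j => by rw [← map_pow, hV, AlgHom.commutes])
  have h2 : LinearIndependent F fun e : T → Fin n => ∏ j, V j ^ (e j : ℕ) := by
    refine LinearIndependent.of_comp φ.toLinearMap ?_
    have h4 : (φ.toLinearMap ∘ fun e : T → Fin n => ∏ j, V j ^ (e j : ℕ)) =
        fun e : T → Fin n => ∏ j, φ (V j) ^ (e j : ℕ) := by
      funext e
      simp
    rw [h4]
    exact h1
  have h3 := h2.map' (separableClosure F K).val.toLinearMap
    (LinearMap.ker_eq_bot.2 Subtype.val_injective)
  have h4 : (fun e : T → Fin n => ∏ j, U j ^ (e j : ℕ)) =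
      (separableClosure F K).val.toLinearMap ∘ fun e : T → Fin n => ∏ j, V j ^ (e j : ℕ) := by
    funext e
    simp [V]
  rw [h4]
  exact h3

omit [DecidableEq T] in
theorem moorea_span {R : Type*} [CommRing R] [Algebra F R] {n : ℕ} (hn : n ≠ 0) (a : T → F)
    {V : T → R} (hV : ∀ j, V j ^ n = algebraMap F R (a j)) (f : MvPolynomial T F) :
    aeval V f ∈ Submodule.span F (Set.range fun e : T → Fin n => ∏ j, V j ^ (e j : ℕ)) := by
  induction f using MvPolynomial.induction_on' with
  | monomial m c =>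
    have h : (∏ j, V j ^ m j) = (∏ j, a j ^ (m j / n)) • ∏ j, V j ^ (m j % n) := by
      rw [Algebra.smul_def, map_prod, ← Finset.prod_mul_distrib]
      refine Finset.prod_congr rfl fun j _ => ?_
      rw [map_pow, ← hV, ← pow_mul, ← pow_add, Nat.div_add_mod]
    rw [aeval_monomial, Finsupp.prod_fintype _ _ (by simp), h, ← Algebra.smul_def]
    exact Submodule.smul_mem _ _ (Submodule.smul_mem _ _ (Submodule.subset_span
      ⟨fun j => ⟨m j % n, Nat.mod_lt _ (Nat.pos_of_ne_zero hn)⟩, rfl⟩))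
  | add p q hp hq =>
    rw [map_add]
    exact Submodule.add_mem _ hp hq

theorem moorea_kummer {K K' : Type*} [Field K] [Field K'] [Algebra F K] [Algebra F K'] {n : ℕ}
    (hn : (n : F) ≠ 0) {ζ : F} (hζ : IsPrimitiveRoot ζ n) (a : T → Fˣ)
    (ν : T → Fˣ →* Multiplicative ℤ)
    (hν : ∀ i j, (n : ℤ) ∣ Multiplicative.toAdd (ν j (a i)) - if i = j then 1 else 0)
    {U : T → K} {U' : T → K'} (hU : ∀ j, U j ^ n = algebraMap F K (a j))
    (hU' : ∀ j, U' j ^ n = algebraMap F K' (a j)) (f : MvPolynomial T F) (hf : aeval U f = 0) :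
    aeval U' f = 0 := by
  have hn0 : n ≠ 0 := by
    rintro rfl
    exact hn Nat.cast_zero
  have h1 := moorea_span (R := K × K') hn0 (fun j => (a j : F)) (V := fun j => (U j, U' j))
    (fun j => Prod.ext (hU j) (hU' j)) f
  obtain ⟨c, hc⟩ := (Submodule.mem_span_range_iff_exists_fun F).1 h1
  have e1 := congrArg (AlgHom.fst F K K') hc
  have e2 := congrArg (AlgHom.snd F K K') hc
  rw [← AlgHom.comp_apply, comp_aeval] at e1 e2
  simp only [map_sum, map_smul, map_prod, map_pow, AlgHom.fst_apply, AlgHom.snd_apply] at e1 e2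
  have hli := moorea_indep hn hζ a ν hν hU
  rw [Fintype.linearIndependent_iff] at hli
  have h0 := hli c (e1.trans hf)
  rw [← e2]
  simp [h0]

end PR0
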