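import Pool.Agent.Work.MP_da2620_ag.Pt

/-!
# The polynomials that solve the Moore system, and their orders

With `ρ = σ ^ (p - 1)`, the function `σ ↦ σ * mooreN p l ρ` is the additive polynomial whose roots
are the combinations over the prime field of the roots attached to the list `l`.
-/

namespace PR0

open MvPolynomial

section N
variable {R R' : Type*} [CommRing R] [CommRing R']

/-- The recursion for additive polynomials in terms of the variable `x ^ (p - 1)`. -/
def mooreN (p : ℕ) : List R → R → R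
  | [], _ => 1
  | a :: l, x => x * mooreN p l x ^ p - a * mooreN p l a ^ (p - 1) * mooreN p l x

theorem mooreb_map {G : Type*} [FunLike G R R'] [RingHomClass G R R'] (φ : G) (p : ℕ)
    (l : List R) (x : R) : φ (mooreN p l x) = mooreN p (l.map φ) (φ x) := by
  induction l generalizing x with
  | nil => simp [mooreN]
  | cons a l ih => simp [mooreN, ih]

theorem mooreb_root {p : ℕ} (hp : p ≠ 0) {l : List R} {a : R} (h : a ∈ l) : mooreN p l a = 0 := by
  induction l with
  | nil => simp at h
  | cons b l ih =>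
    rcases List.mem_cons.1 h with rfl | h
    · rw [mooreN, mul_assoc, pow_sub_one_mul hp, sub_self]
    · simp [mooreN, ih h, hp]

theorem mooreb_zero {p : ℕ} (a : R) (l : List R) :
    mooreN p (a :: l) 0 = -(a * mooreN p l a ^ (p - 1) * mooreN p l 0) := by
  simp [mooreN]

theorem mooreb_mem {k : Type*} [CommRing k] [Algebra k R] (A : Subalgebra k R) (p : ℕ)
    {l : List R} (hl : ∀ a ∈ l, a ∈ A) {x : R} (hx : x ∈ A) : mooreN p l x ∈ A := by
  induction l generalizing x with
  | nil => exact A.one_mem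
  | cons a l ih =>
    have h1 : a ∈ A := hl a (by simp)
    have h2 : ∀ b ∈ l, b ∈ A := fun b hb => hl b (by simp [hb])
    exact A.sub_mem (A.mul_mem hx (A.pow_mem (ih h2 hx) _))
      (A.mul_mem (A.mul_mem h1 (A.pow_mem (ih h2 h1) _)) (ih h2 hx))

variable {p : ℕ} [hp : Fact p.Prime] [CharP R p]

theorem mooreb_span (l : List R) : mooreN p l ∈ Submodule.span R
    {f : R → R | ∃ i ≤ l.length, f = fun x => x ^ (∑ m ∈ Finset.range i, p ^ m)} := by
  induction l with
  | nil => exact Submodule.subset_span ⟨0, le_rfl, by funext x; simp [mooreN]⟩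
  | cons a l ih =>
    have e : mooreN p (a :: l) =
        (fun x => x * mooreN p l x ^ p) - (a * mooreN p l a ^ (p - 1)) • mooreN p l := rfl
    rw [e]
    refine Submodule.sub_mem _ ?_ (Submodule.smul_mem _ _ (Submodule.span_mono ?_ ih))
    · generalize mooreN p l = f at ih
      induction ih using Submodule.span_induction with
      | mem f hf =>
        obtain ⟨i, hi, rfl⟩ := hf
        refine Submodule.subset_span ⟨i + 1, by simpa using hi, ?_⟩
        funext x
        rw [geom_sum_succ, pow_succ', ← pow_mul, mul_comm p]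
      | zero =>
        convert Submodule.zero_mem _
        simp [hp.1.ne_zero]
      | add f g _ _ hf hg =>
        have e : (fun x => x * (f + g) x ^ p) = (fun x => x * f x ^ p) + fun x => x * g x ^ p := by
          funext x
          simp [add_pow_char, mul_add]
        rw [e]
        exact Submodule.add_mem _ hf hg
      | smul c f _ hf =>
        have e : (fun x => x * (c • f) x ^ p) = c ^ p • fun x => x * f x ^ p := by
          funext x
          simp only [Pi.smul_apply, smul_eq_mul]
          ring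
        rw [e]
        exact Submodule.smul_mem _ _ hf
    · rintro f ⟨i, hi, rfl⟩
      exact ⟨i, hi.trans (Nat.le_succ _), rfl⟩

theorem mooreb_sys {T : Type} [Fintype T] {x ρ : T → R} (h0 : ∑ j, x j = -1)
    (h1 : ∀ i, 1 ≤ i → i < Fintype.card T →
      ∑ j, x j * ρ j ^ (∑ m ∈ Finset.range i, p ^ m) = 0)
    {l : List R} (hl : l.length < Fintype.card T) :
    ∑ j, x j * mooreN p l (ρ j) = -mooreN p l 0 := by
  have h := mooreb_span (p := p) l
  generalize mooreN p l = f at h
  induction h using Submodule.span_induction with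
  | mem f hf =>
    obtain ⟨i, hi, rfl⟩ := hf
    rcases Nat.eq_zero_or_pos i with rfl | h
    · simpa using h0
    · rw [h1 i h (by omega)]
      beta_reduce
      rw [zero_pow, neg_zero]
      obtain ⟨i, rfl⟩ : ∃ j, i = j + 1 := ⟨i - 1, by omega⟩
      rw [geom_sum_succ]
      omega
  | zero => simp
  | add f g _ _ hf hg => simp only [Pi.add_apply, mul_add, Finset.sum_add_distrib, hf, hg, neg_add]
  | smul c f _ hf =>
    simp only [Pi.smul_apply, smul_eq_mul, mul_left_comm _ c, ← Finset.mul_sum, hf, mul_neg]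

theorem mooreb_sol {T : Type} [Fintype T] {x ρ : T → R} (h0 : ∑ j, x j = -1)
    (h1 : ∀ i, 1 ≤ i → i < Fintype.card T →
      ∑ j, x j * ρ j ^ (∑ m ∈ Finset.range i, p ^ m) = 0)
    {l : List R} (hl : l.length < Fintype.card T) (i : T)
    (hi : ∀ j, j ≠ i → mooreN p l (ρ j) = 0) : x i * mooreN p l (ρ i) = -mooreN p l 0 := by
  rw [← mooreb_sys h0 h1 hl, Finset.sum_eq_single i]
  · intro j _ hj
    rw [hi j hj, mul_zero]
  · simp

omit [CharP R p] in
theorem mooreb_step (a : R) (l : List R) (x : R) : x * mooreN p (a :: l) (x ^ (p - 1)) =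
    (x * mooreN p l (x ^ (p - 1))) ^ p -
      a * mooreN p l a ^ (p - 1) * (x * mooreN p l (x ^ (p - 1))) := by
  rw [mooreN, mul_sub, ← mul_assoc, mul_pow_sub_one hp.1.ne_zero, mul_pow]
  ring

theorem mooreb_add (l : List R) (x y : R) : (x + y) * mooreN p l ((x + y) ^ (p - 1)) =
    x * mooreN p l (x ^ (p - 1)) + y * mooreN p l (y ^ (p - 1)) := by
  induction l with
  | nil => simp [mooreN]
  | cons a l ih =>
    rw [mooreb_step, mooreb_step, mooreb_step, ih, add_pow_char]
    ring

theorem mooreb_sum {T : Type} (s : Finset T) (l : List R) (x : T → R) :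
    (∑ j ∈ s, x j) * mooreN p l ((∑ j ∈ s, x j) ^ (p - 1)) =
      ∑ j ∈ s, x j * mooreN p l (x j ^ (p - 1)) :=
  map_sum (AddMonoidHom.mk' (fun y : R => y * mooreN p l (y ^ (p - 1))) (mooreb_add l)) x s

end N

theorem mooreb_sub {K : Type*} [Field K] {p : ℕ} (hp : p ≠ 0) (l : List K) (hl : ∀ a ∈ l, a ≠ 0) :
    ∃ l' : List K, l'.length ≤ l.length ∧ (∀ a ∈ l', a ∈ l) ∧ mooreN p l' 0 ≠ 0 ∧
      ∀ a ∈ l, mooreN p l' a = 0 := by
  induction l with
  | nil => exact ⟨[], le_rfl, by simp, by simp [mooreN], by simp⟩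
  | cons b l ih =>
    obtain ⟨l', h1, h2, h3, h4⟩ := ih fun a ha => hl a (by simp [ha])
    by_cases hb : mooreN p l' b = 0
    · exact ⟨l', h1.trans (Nat.le_succ _), fun a ha => by simp [h2 a ha], h3, by simpa [hb]⟩
    · refine ⟨b :: l', by simpa using h1, fun a ha => ?_, ?_, fun a ha => ?_⟩
      · rcases List.mem_cons.1 ha with rfl | ha
        · simp
        · simp [h2 a ha]
      · rw [mooreb_zero, neg_ne_zero]
        exact mul_ne_zero (mul_ne_zero (hl b (by simp)) (pow_ne_zero _ hb)) h3
      · rcases List.mem_cons.1 ha with rfl | ha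
        · exact mooreb_root hp (by simp)
        · simp [mooreN, h4 a ha, hp]

/-- extension of an additive function to the units of the fraction field -/
theorem mooreb_ext {A F : Type*} [CommRing A] [IsDomain A] [Field F] [Algebra A F]
    [IsFractionRing A F] (m : A → ℤ) (hm : ∀ a b, a ≠ 0 → b ≠ 0 → m (a * b) = m a + m b) :
    ∃ ν : Fˣ →* Multiplicative ℤ, ∀ (x : Fˣ) (a b : A), b ≠ 0 →
      (x : F) * algebraMap A F b = algebraMap A F a → Multiplicative.toAdd (ν x) = m a - m b := by
  have inj := IsFractionRing.injective A F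
  have nz : ∀ (x : Fˣ) (a b : A), b ≠ 0 → (x : F) * algebraMap A F b = algebraMap A F a →
      a ≠ 0 := by
    rintro x a b hb h rfl
    rw [map_zero, mul_eq_zero, map_eq_zero_iff _ inj] at h
    exact h.elim x.ne_zero hb
  have ex : ∀ x : Fˣ, ∃ a b : A, b ≠ 0 ∧ (x : F) * algebraMap A F b = algebraMap A F a := by
    intro x
    obtain ⟨a, b, hb, h⟩ := IsFractionRing.div_surjective (A := A) (x : F)
    have hb' := nonZeroDivisors.ne_zero hb
    exact ⟨a, b, hb', by rw [← h, div_mul_cancel₀ _ ((map_ne_zero_iff _ inj).2 hb')]⟩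
  choose nu de hde hx using ex
  have wd : ∀ (x : Fˣ) (a b : A), b ≠ 0 → (x : F) * algebraMap A F b = algebraMap A F a →
      m (nu x) - m (de x) = m a - m b := by
    intro x a b hb h
    have e : nu x * b = a * de x := inj (by rw [map_mul, map_mul, ← h, ← hx]; ring)
    have := congrArg m e
    rw [hm _ _ (nz x _ _ (hde x) (hx x)) hb, hm _ _ (nz x _ _ hb h) (hde x)] at this
    omega
  refine ⟨MonoidHom.mk' (fun x => Multiplicative.ofAdd (m (nu x) - m (de x))) fun x y => ?_, wd⟩
  rw [← ofAdd_add, wd (x * y) (nu x * nu y) (de x * de y) (mul_ne_zero (hde x) (hde y))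
    (by rw [map_mul, map_mul, ← hx, ← hx, Units.val_mul]; ring),
    hm _ _ (nz x _ _ (hde x) (hx x)) (nz y _ _ (hde y) (hx y)), hm _ _ (hde x) (hde y)]
  congr 1
  ring

section P
variable {k : Type*} [Field k] {T : Type} [DecidableEq T]

/-- substitution of one variable -/
noncomputable def mooreEv (j : T) (g : MvPolynomial T k) : MvPolynomial T k →ₐ[k] MvPolynomial T k :=
  aeval (Function.update X j g)

theorem mooreb_ev_self (j : T) (g : MvPolynomial T k) : mooreEv j g (X j) = g := by
  simp [mooreEv]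

theorem mooreb_ev_ne {i j : T} (h : i ≠ j) (g : MvPolynomial T k) : mooreEv j g (X i) = X i := by
  simp [mooreEv, h]

theorem mooreb_sub_dvd (j : T) (g f : MvPolynomial T k) : X j - g ∣ f - mooreEv j g f := by
  induction f using MvPolynomial.induction_on with
  | C a => simp [mooreEv]
  | add f f' h h' =>
    rw [map_add, add_sub_add_comm]
    exact dvd_add h h'
  | mul_X f n h =>
    have e : f * X n - mooreEv j g (f * X n) =
        (f - mooreEv j g f) * X n + mooreEv j g f * (X n - mooreEv j g (X n)) := by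
      rw [map_mul]
      ring
    rw [e]
    refine dvd_add (h.mul_right _) (Dvd.dvd.mul_left ?_ _)
    by_cases hn : n = j
    · rw [hn, mooreb_ev_self]
    · rw [mooreb_ev_ne hn, sub_self]
      exact dvd_zero _

theorem mooreb_dvd_iff {j : T} {g : MvPolynomial T k} (hg : mooreEv j g g = g)
    (f : MvPolynomial T k) : X j - g ∣ f ↔ mooreEv j g f = 0 := by
  constructor
  · rintro ⟨c, rfl⟩
    rw [map_mul, map_sub, mooreb_ev_self, hg, sub_self, zero_mul]
  · intro h
    simpa [h] using mooreb_sub_dvd j g f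

theorem mooreb_prime {j : T} {g : MvPolynomial T k} (hg : mooreEv j g g = g) (h0 : X j - g ≠ 0) :
    Prime (X j - g) := by
  refine ⟨h0, fun h => ?_, fun a b h => ?_⟩
  · have := (mooreb_dvd_iff hg 1).1 h.dvd
    simp at this
  · simpa only [mooreb_dvd_iff hg, map_mul, mul_eq_zero] using h

theorem mooreb_ev_N (p : ℕ) {j : T} (g : MvPolynomial T k) (e : ℕ) {l : List T} (hl : j ∉ l)
    (x : MvPolynomial T k) :
    mooreEv j g (mooreN p (l.map fun i => X i ^ e) x) =
      mooreN p (l.map fun i => X i ^ e) (mooreEv j g x) := by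
  rw [mooreb_map, List.map_map]
  congr 1
  refine List.map_congr_left fun i hi => ?_
  have : i ≠ j := fun h => hl (h ▸ hi)
  simp [mooreb_ev_ne this]

theorem mooreb_ne {p : ℕ} {e : ℕ} (he : e ≠ 0) {l : List T} (hl : l.Nodup) {i : T} (hi : i ∉ l) :
    mooreN p (l.map fun i => (X i ^ e : MvPolynomial T k)) (X i ^ e) ≠ 0 := by
  induction l with
  | nil => simp [mooreN]
  | cons a l ih =>
    intro h
    have h1 : i ≠ a := fun h => hi (by simp [h])
    have h2 : i ∉ l := fun h => hi (by simp [h])
    obtain ⟨h3, h4⟩ := List.nodup_cons.1 hl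
    have := congrArg (mooreEv a (0 : MvPolynomial T k)) h
    simp only [List.map_cons, mooreN, map_sub, map_mul, map_pow, mooreb_ev_N p _ e h3,
      mooreb_ev_self, mooreb_ev_ne h1, zero_pow he, zero_mul, sub_zero, map_zero] at this
    exact mul_ne_zero (pow_ne_zero _ (X_ne_zero i)) (pow_ne_zero _ (ih h4 h2)) this

theorem mooreb_ne_zero {p : ℕ} {e : ℕ} (he : e ≠ 0) {l : List T} (hl : l.Nodup) :
    mooreN p (l.map fun i => (X i ^ e : MvPolynomial T k)) 0 ≠ 0 := by
  induction l with
  | nil => simp [mooreN]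
  | cons a l ih =>
    obtain ⟨h3, h4⟩ := List.nodup_cons.1 hl
    rw [List.map_cons, mooreb_zero, neg_ne_zero]
    exact mul_ne_zero (mul_ne_zero (pow_ne_zero _ (X_ne_zero a))
      (pow_ne_zero _ (mooreb_ne he h4 h3))) (ih h4)

omit [DecidableEq T] in
theorem mooreb_mult_mul {π a b : MvPolynomial T k} (hπ : Prime π) (ha : a ≠ 0) (hb : b ≠ 0) :
    multiplicity π (a * b) = multiplicity π a + multiplicity π b :=
  multiplicity_mul hπ (FiniteMultiplicity.of_prime_left hπ (mul_ne_zero ha hb))

omit [DecidableEq T] in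
theorem mooreb_mult_one {π a b c : MvPolynomial T k} (hπ : Prime π) (h : c * a = π * b)
    (hb : ¬π ∣ b) (hc : ¬π ∣ c) : multiplicity π a = 1 := by
  have hb0 : b ≠ 0 := fun h => hb (h ▸ dvd_zero _)
  have hc0 : c ≠ 0 := fun h => hc (h ▸ dvd_zero _)
  have ha0 : a ≠ 0 := right_ne_zero_of_mul (h ▸ mul_ne_zero hπ.ne_zero hb0)
  have := congrArg (multiplicity π) h
  rwa [mooreb_mult_mul hπ hc0 ha0, mooreb_mult_mul hπ hπ.ne_zero hb0, multiplicity_self,
    multiplicity_eq_zero.2 hb, multiplicity_eq_zero.2 hc, zero_add, add_zero] at this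

omit [DecidableEq T] in
theorem mooreb_list (s : Finset T) (i : T) (hs : ∀ j, j ∈ s ↔ j ≠ i) :
    s.toList.Nodup ∧ i ∉ s.toList ∧ ∀ j, j ≠ i → j ∈ s.toList :=
  ⟨s.nodup_toList, by simp [hs], fun j hj => by simp [hs, hj]⟩

omit [DecidableEq T] in
theorem mooreb_sumX_ne (s : Finset T) (hs : s.Nonempty) :
    (∑ j ∈ s, X j : MvPolynomial T k) ≠ 0 := by
  classical
  obtain ⟨i, hi⟩ := hs
  intro h
  have := congrArg (eval (Pi.single i (1 : k))) h
  simp [Pi.single_apply, hi] at this

theorem mooreb_val [Fintype T] {p : ℕ} [hp : Fact p.Prime] [CharP k p] (hT : 2 ≤ Fintype.card T)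
    {F : Type*} [Field F] [Algebra (MvPolynomial T k) F] [IsFractionRing (MvPolynomial T k) F]
    (a : T → Fˣ)
    (ha : ∀ i (l : List T), l.Nodup → i ∉ l → (∀ j, j ≠ i → j ∈ l) →
      (a i : F) * algebraMap (MvPolynomial T k) F (mooreN p (l.map X) (X i)) =
        algebraMap (MvPolynomial T k) F (-mooreN p (l.map X) 0)) :
    ∃ ν : T → Fˣ →* Multiplicative ℤ,
      ∀ i j, Multiplicative.toAdd (ν j (a i)) = if i = j then 1 else 0 := by
  have hp1 : p - 1 ≠ 0 := by
    have := hp.1.two_le
    omega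
  have n1 : ∀ {l : List T}, l.Nodup → ∀ {i : T}, i ∉ l →
      mooreN p (l.map X) (X i : MvPolynomial T k) ≠ 0 := fun hl i hi => by
    simpa using mooreb_ne (k := k) (p := p) one_ne_zero hl hi
  have n0 : ∀ {l : List T}, l.Nodup → mooreN p (l.map X) (0 : MvPolynomial T k) ≠ 0 := fun hl => by
    simpa using mooreb_ne_zero (k := k) (p := p) one_ne_zero hl
  have ev1 : ∀ {l : List T} {j : T}, j ∉ l → ∀ x : MvPolynomial T k,
      mooreEv j 0 (mooreN p (l.map X) x) = mooreN p (l.map X) (mooreEv j 0 x) := fun hl x => by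
    simpa using mooreb_ev_N p (0 : MvPolynomial T k) 1 hl x
  have dv : ∀ (j : T) (f : MvPolynomial T k), X j ∣ f ↔ mooreEv j 0 f = 0 := fun j f => by
    simpa using mooreb_dvd_iff (j := j) (g := (0 : MvPolynomial T k)) (map_zero _) f
  have hA : ∀ j : T, ∃ ν : Fˣ →* Multiplicative ℤ,
      ∀ i, Multiplicative.toAdd (ν (a i)) = if i = j then 0 else 1 := by
    intro j
    obtain ⟨ν, hν⟩ := mooreb_ext (F := F)
      (fun f : MvPolynomial T k => (multiplicity (X j) f : ℤ)) fun a b ha hb => by
        rw [mooreb_mult_mul X_prime ha hb, Nat.cast_add]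
    refine ⟨ν, fun i => ?_⟩
    split_ifs with hij
    · subst hij
      obtain ⟨l1, l2, l3⟩ := mooreb_list (Finset.univ.erase i) i (by simp)
      rw [hν _ _ _ (n1 l1 l2) (ha i _ l1 l2 l3), multiplicity_neg, multiplicity_eq_zero.2,
        multiplicity_eq_zero.2, sub_self]
      · rw [dv, ev1 l2, mooreb_ev_self]
        exact n0 l1
      · rw [dv, ev1 l2, map_zero]
        exact n0 l1
    · set l' := ((Finset.univ.erase i).erase j).toList with hl'
      have l0 : l'.Nodup := Finset.nodup_toList _
      have lj : j ∉ l' := by simp [hl']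
      have li : i ∉ l' := by simp [hl']
      have l1 : (j :: l').Nodup := List.nodup_cons.2 ⟨lj, l0⟩
      have l2 : i ∉ j :: l' := by simp [hij, li]
      have l3 : ∀ m, m ≠ i → m ∈ j :: l' := fun m hm => by
        by_cases h : m = j <;> simp [hl', h, hm]
      rw [hν _ _ _ (n1 l1 l2) (ha i _ l1 l2 l3), List.map_cons, mooreb_zero, neg_neg,
        mooreb_mult_one (c := 1) X_prime (by rw [one_mul, mul_assoc]), multiplicity_eq_zero.2]
      · simp
      · rw [dv]
        simp only [mooreN, map_sub, map_mul, map_pow, ev1 lj, mooreb_ev_self, mooreb_ev_ne hij,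
          zero_mul, sub_zero]
        exact mul_ne_zero (X_ne_zero i) (pow_ne_zero _ (n1 l0 li))
      · rw [dv]
        simp only [map_mul, map_pow, ev1 lj, mooreb_ev_self, map_zero]
        exact mul_ne_zero (pow_ne_zero _ (n0 l0)) (n0 l0)
      · exact X_prime.not_dvd_one
  have hB : ∃ ν : Fˣ →* Multiplicative ℤ, ∀ i, Multiplicative.toAdd (ν (a i)) = -1 := by
    have e1 : ∀ i : T, (∑ j, X j : MvPolynomial T k) =
        X i - -∑ j ∈ Finset.univ.erase i, X j := fun i => by
      rw [sub_neg_eq_add, Finset.add_sum_erase _ _ (Finset.mem_univ i)]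
    have e2 : ∀ i : T, mooreEv i (-∑ j ∈ Finset.univ.erase i, X j : MvPolynomial T k)
        (-∑ j ∈ Finset.univ.erase i, X j) = -∑ j ∈ Finset.univ.erase i, X j := fun i => by
      rw [map_neg, map_sum]
      congr 1
      exact Finset.sum_congr rfl fun j hj => mooreb_ev_ne (Finset.ne_of_mem_erase hj) _
    have : Nontrivial T := Fintype.one_lt_card_iff_nontrivial.1 hT
    have h0 : (∑ j, X j : MvPolynomial T k) ≠ 0 := mooreb_sumX_ne _ Finset.univ_nonempty
    have hπ : Prime (∑ j, X j : MvPolynomial T k) := by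
      obtain ⟨i⟩ : Nonempty T := inferInstance
      rw [e1 i] at h0 ⊢
      exact mooreb_prime (e2 i) h0
    have inj := expand_injective (R := k) (σ := T) (Nat.pos_of_ne_zero hp1)
    obtain ⟨ν, hν⟩ := mooreb_ext (F := F)
      (fun f : MvPolynomial T k => (multiplicity (∑ j, X j) (expand (p - 1) f) : ℤ))
      fun a b ha hb => by
        rw [map_mul, mooreb_mult_mul hπ ((map_ne_zero_iff _ inj).2 ha)
          ((map_ne_zero_iff _ inj).2 hb), Nat.cast_add]
    refine ⟨ν, fun i => ?_⟩
    obtain ⟨l1, l2, l3⟩ := mooreb_list (Finset.univ.erase i) i (by simp)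
    set l := (Finset.univ.erase i).toList
    have dw : ∀ f : MvPolynomial T k, (∑ j, X j) ∣ f ↔
        mooreEv i (-∑ j ∈ Finset.univ.erase i, X j) f = 0 := fun f => by
      rw [e1 i, mooreb_dvd_iff (e2 i)]
    have ex : ∀ x : MvPolynomial T k, expand (p - 1) (mooreN p (l.map X) x) =
        mooreN p (l.map fun j => X j ^ (p - 1)) (expand (p - 1) x) := fun x => by
      rw [mooreb_map, List.map_map]
      congr 2
      funext j
      simp
    have key : X i * mooreN p (l.map fun j => (X j ^ (p - 1) : MvPolynomial T k))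
        (X i ^ (p - 1)) = (∑ j, X j) * mooreN p (l.map fun j => X j ^ (p - 1))
          ((∑ j, X j) ^ (p - 1)) := by
      rw [mooreb_sum, Finset.sum_eq_single i]
      · intro j _ hj
        rw [mooreb_root hp.1.ne_zero (List.mem_map.2 ⟨j, l3 j hj, rfl⟩), mul_zero]
      · simp
    rw [hν _ _ _ (n1 l1 l2) (ha i _ l1 l2 l3), map_neg, multiplicity_neg, ex, ex, map_zero,
      expand_X, mooreb_mult_one hπ key, multiplicity_eq_zero.2]
    · simp
    · rw [dw, mooreb_ev_N p _ _ l2, map_zero]
      exact mooreb_ne_zero hp1 l1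
    · rw [dw, mooreb_ev_N p _ _ l2, map_pow, (dw _).1 dvd_rfl, zero_pow hp1]
      exact mooreb_ne_zero hp1 l1
    · rw [dw, mooreb_ev_self, neg_eq_zero]
      obtain ⟨j, hj⟩ := exists_ne i
      exact mooreb_sumX_ne _ ⟨j, by simp [hj]⟩
  choose νA hνA using hA
  obtain ⟨νB, hνB⟩ := hB
  refine ⟨fun j => (νB * νA j)⁻¹, fun i j => ?_⟩
  rw [MonoidHom.inv_apply, MonoidHom.mul_apply, toAdd_inv, toAdd_mul, hνA, hνB]
  split_ifs <;> simp

end P

end PR0
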