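import Pool.Agent.Work.MP_da2620_ag.Pt2
import Pool.Agent.Work.MP_da2620_ag.MooreA
import Pool.Agent.Work.MP_da2620_ag.MooreB

/-!
# Kummer independence and the Moore system

`kummer`: let `G` be the Galois group of `F(U) / F` (a splitting field, `F` has all `n`-th roots of
unity).  The monomials `U ^ e` (`0 ≤ e j < n`) are eigenvectors of `G` with distinct characters (if
`U ^ (e - e')` lies in `F`, apply `ν j` to its `n`-th power), hence are independent over `F`; so a
polynomial killing `U` is in the ideal generated by the `Y j ^ n - a j`.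
`moore`: write `M i = 1 + p + ... + p ^ (i - 1)`.  Take `σ j ^ (p - 1) = ρ j`, `Z j = X j / σ j`;
the system reads `∑ Z j σ j ^ p ^ i = - δ_(i,0)` for `i < r`.  If the `σ j` were dependent over
`F_p`, group them along a basis: the equations `i = 1, ..., r - 1` (Moore determinant of independent
elements is nonzero) kill all grouped sums, contradicting `i = 0`.  So the Moore determinant
`Δ(σ)` is nonzero and `X j = ± σ j Δ(σ without j) ^ p / Δ(σ)` (Cramer).
`moore_uniq`: for `r = 2`: `X 0 = ρ 1 / (ρ 0 - ρ 1)`, `X 1 = ρ 0 / (ρ 1 - ρ 0)`, use the orders in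
`ρ 1`, `ρ 0` on `k(ρ)`.  For `r ≥ 3` work over `k(σ)` and use the orders along the linear forms
`l = ∑ σ i` (all `X j` have order `-1`) and `l_j = ∑_(i ≠ j) σ i` (`X j` has order `p - 1`, the
others `-1`); so `ν j = ord l - ord l_j` satisfies `ν j (X i) ≡ δ` mod `p + 1`.  Orders of Moore
determinants: column operations over `F_p` replace one `σ a` by the form `l`, then
`Δ ≡ ± l Δ(rest) ^ p` mod `l ^ 2`.  (An order function may be realised by an embedding of `k(σ)` into
Laurent series with `l ↦ t`.)
-/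

namespace PR0

open MvPolynomial

universe u

variable {k K K' : Type u} [Field k] [Field K] [Field K'] {T : Type} [Fintype T]

theorem kummer {F : Type u} [Field F] [Algebra F K] [Algebra F K'] {n : ℕ} (hn : (n : F) ≠ 0)
    (hμ : ∃ ζ : F, IsPrimitiveRoot ζ n) (a : T → Fˣ) (ν : T → Fˣ →* Multiplicative ℤ)
    (hν : ∀ i j, (n : ℤ) ∣ Multiplicative.toAdd (ν j (a i)) - by classical exact if i = j then 1 else 0)
    {U : T → K} {U' : T → K'} (hU : ∀ j, U j ^ n = algebraMap F K (a j))
    (hU' : ∀ j, U' j ^ n = algebraMap F K' (a j)) : Spc F U U' := by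
  classical
  obtain ⟨ζ, hζ⟩ := hμ
  exact moorea_kummer hn hζ a ν (fun i j => by convert hν i j) hU hU'

/-- The Moore system. -/
def MooreSys (p : ℕ) (X ρ : T → K) : Prop :=
  ∑ j, X j = -1 ∧ ∀ i, 1 ≤ i → i < Fintype.card T →
    ∑ j, X j * ρ j ^ (∑ l ∈ Finset.range i, p ^ l) = 0

variable {p : ℕ} [Fact p.Prime] [CharP k p] [Algebra k K] [Algebra k K']

theorem moore {X ρ : T → K} (hρ : ∀ j, ρ j ≠ 0) (h : MooreSys p X ρ) (j : T) :
    IsAlgebraic (Algebra.adjoin k (Set.range ρ)) (X j) := by
  classical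
  have hp : p ≠ 0 := (Fact.out : p.Prime).ne_zero
  have : CharP K p := charP_of_injective_algebraMap (algebraMap k K).injective p
  obtain ⟨l, h1, h2, h3, h4⟩ := mooreb_sub hp ((Finset.univ.erase j).toList.map ρ) (by
    intro a ha
    obtain ⟨i, -, rfl⟩ := List.mem_map.1 ha
    exact hρ i)
  have hl : l.length < Fintype.card T := by
    rw [List.length_map, Finset.length_toList] at h1
    exact h1.trans_lt (Finset.card_erase_lt_of_mem (Finset.mem_univ j))
  have key := mooreb_sol h.1 h.2 hl j fun i hi => h4 _ (List.mem_map.2 ⟨i, by simp [hi], rfl⟩)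
  have hm : ∀ a ∈ l, a ∈ Algebra.adjoin k (Set.range ρ) := fun a ha => by
    obtain ⟨i, -, rfl⟩ := List.mem_map.1 (h2 a ha)
    exact Algebra.subset_adjoin ⟨i, rfl⟩
  have hb := mooreb_mem _ p hm (Algebra.subset_adjoin (Set.mem_range_self j))
  have hc := mooreb_mem _ p hm (Subalgebra.zero_mem _)
  refine ⟨Polynomial.C ⟨_, hb⟩ * Polynomial.X + Polynomial.C ⟨_, hc⟩, fun h0 => ?_, ?_⟩
  · have := congrArg (fun f => ((Polynomial.coeff f 0 : Algebra.adjoin k (Set.range ρ)) : K)) h0
    simp at this
    exact h3 this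
  · simp only [map_add, map_mul, Polynomial.aeval_C, Polynomial.aeval_X]
    change mooreN p l (ρ j) * X j + mooreN p l 0 = 0
    rw [mul_comm, key, neg_add_cancel]

omit [Algebra k K'] [Field K'] in
theorem moore_frac {F : Type u} [Field F] [Algebra (MvPolynomial T k) F] [Algebra F K] {x ρ : T → K}
    (hF : ∀ f : MvPolynomial T k, algebraMap F K (algebraMap _ F f) = aeval ρ f)
    (h : MooreSys p x ρ) (i : T) (l : List T) (h1 : l.Nodup) (h2 : i ∉ l)
    (h3 : ∀ j, j ≠ i → j ∈ l) :
    x i * algebraMap F K (algebraMap (MvPolynomial T k) F (mooreN p (l.map X) (X i))) =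
      algebraMap F K (algebraMap (MvPolynomial T k) F (-mooreN p (l.map X) 0)) := by
  have : CharP K p := charP_of_injective_algebraMap (algebraMap k K).injective p
  have e : (l.map X).map (aeval ρ : MvPolynomial T k →ₐ[k] K) = l.map ρ := by
    rw [List.map_map]
    congr 1
    funext j
    simp
  rw [hF, hF, map_neg, mooreb_map, mooreb_map, e, aeval_X, map_zero]
  refine mooreb_sol h.1 h.2 ?_ i fun j hj =>
    mooreb_root (Fact.out : p.Prime).ne_zero (List.mem_map.2 ⟨j, h3 j hj, rfl⟩)
  have := (List.nodup_cons.2 ⟨h2, h1⟩).length_le_card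
  rw [List.length_map]
  exact this

omit [Algebra k K'] [Field K'] [Fintype T] in
theorem moore_ev {F : Type u} [Field F] [Algebra (MvPolynomial T k) F] [Algebra F K] {U ρ : T → K}
    (hF : ∀ f : MvPolynomial T k, algebraMap F K (algebraMap _ F f) = aeval ρ f)
    (f : MvPolynomial (T ⊕ T) k) :
    aeval U (eval₂Hom (C.comp ((algebraMap (MvPolynomial T k) F).comp C))
      (Sum.elim X fun j => C (algebraMap (MvPolynomial T k) F (X j))) f : MvPolynomial T F) =
      aeval (Sum.elim U ρ) f := by
  induction f using MvPolynomial.induction_on with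
  | C a => simp [hF]
  | add f g hf hg => simp only [map_add, hf, hg]
  | mul_X f n hf =>
    rw [map_mul, map_mul, map_mul, hf]
    cases n <;> simp [hF]

theorem moore_uniq [IsAlgClosed k] (hT : 2 ≤ Fintype.card T) {U ρ : T → K} {U' ρ' : T → K'}
    (hρ : AlgebraicIndependent k ρ) (hρ' : AlgebraicIndependent k ρ')
    (h : MooreSys p (fun j => U j ^ (p + 1)) ρ) (h' : MooreSys p (fun j => U' j ^ (p + 1)) ρ') :
    Spc k (Sum.elim U ρ) (Sum.elim U' ρ') := by
  classical
  let F := FractionRing (MvPolynomial T k)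
  have i1 : Function.Injective (aeval ρ : MvPolynomial T k →ₐ[k] K).toRingHom := hρ
  have i2 : Function.Injective (aeval ρ' : MvPolynomial T k →ₐ[k] K').toRingHom := hρ'
  let _ : Algebra F K := (IsFractionRing.lift i1).toAlgebra
  let _ : Algebra F K' := (IsFractionRing.lift i2).toAlgebra
  have hF : ∀ f : MvPolynomial T k, algebraMap F K (algebraMap _ F f) = aeval ρ f :=
    fun f => IsFractionRing.lift_algebraMap i1 f
  have hF' : ∀ f : MvPolynomial T k, algebraMap F K' (algebraMap _ F f) = aeval ρ' f :=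
    fun f => IsFractionRing.lift_algebraMap i2 f
  have inj := IsFractionRing.injective (MvPolynomial T k) F
  have ex : ∀ i, ∃ a : Fˣ, U i ^ (p + 1) = algebraMap F K a ∧ U' i ^ (p + 1) = algebraMap F K' a := by
    intro i
    obtain ⟨l1, l2, l3⟩ := mooreb_list (Finset.univ.erase i) i (by simp)
    set l := (Finset.univ.erase i).toList
    have n1 : algebraMap (MvPolynomial T k) F (mooreN p (l.map X) (X i)) ≠ 0 :=
      (map_ne_zero_iff _ inj).2 (by simpa using mooreb_ne (k := k) (p := p) one_ne_zero l1 l2)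
    have n0 : algebraMap (MvPolynomial T k) F (-mooreN p (l.map X) 0) ≠ 0 :=
      (map_ne_zero_iff _ inj).2 (by simpa using mooreb_ne_zero (k := k) (p := p) one_ne_zero l1)
    refine ⟨Units.mk0 _ (div_ne_zero n0 n1), ?_, ?_⟩
    · rw [Units.val_mk0, map_div₀, eq_div_iff ((map_ne_zero _).2 n1)]
      exact moore_frac hF h i l l1 l2 l3
    · rw [Units.val_mk0, map_div₀, eq_div_iff ((map_ne_zero _).2 n1)]
      exact moore_frac hF' h' i l l1 l2 l3
  choose a ha ha' using ex
  obtain ⟨ν, hν⟩ := mooreb_val (k := k) (p := p) hT a fun i l l1 l2 l3 =>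
    (algebraMap F K).injective (by
      rw [map_mul, ← ha]
      exact moore_frac hF h i l l1 l2 l3)
  have hk : ((p + 1 : ℕ) : k) ≠ 0 := by simp
  have : NeZero ((p + 1 : ℕ) : k) := ⟨hk⟩
  obtain ⟨ζ, hζ⟩ := HasEnoughRootsOfUnity.exists_primitiveRoot k (p + 1)
  have hn : ((p + 1 : ℕ) : F) ≠ 0 := by
    rw [← map_natCast (algebraMap k F)]
    exact (map_ne_zero _).2 hk
  intro f hf
  rw [← moore_ev hF] at hf
  rw [← moore_ev hF']
  exact moorea_kummer hn (hζ.map_of_injective (algebraMap k F).injective) a ν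
    (fun i j => by rw [hν, sub_self]; exact dvd_zero _) ha ha' _ hf

end PR0
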