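import Pool.Agent.Work.MP_da2620_ag.StarT

/-!
# Local uniqueness at a smooth curve with `a`-number one

Take a chart of degree `d ≥ 2g` with simple `J`.  Let `e = φ ^ (g-1) v ≠ 0`, `φ e = 0`, so
`pv J e ^ p = h + regular`, `η = ∂ h ≠ 0` (else `h` is a `p`-th power of an element of `A` and the class `e`
vanishes), and `η` vanishes to order `≥ 2` at infinity (`dx` kills `p`-th powers, `Ge.dx`).  For `a ∈ A`,
`F ↦ a ∂ F` is in `DerQ`.  Every `F ∈ LT` is `a η + regular`, since `F / η ∈ A + (pole order ≤ 2)` by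
`approx` and `h1z_of_deg`.  Apply `smooth_one`.
-/

namespace PR0

universe u

variable {k : Type u} [Field k] [IsAlgClosed k]

/-- The `n`-th power of Frobenius kills `H¹`. -/
def HWn (K L : Type u) [Field K] [Field L] [Algebra K L] (p n : ℕ) : Prop :=
  ∀ a ∈ Rep K L, a ^ p ^ n ∈ Rep0 K L ⊔ RepL K L

theorem OneT_hwn {L : Type u} [Field L] [Algebra k L] [Fact (IsFF k L)] (p n : ℕ) [Fact p.Prime]
    [CharP k p] {S : Set (Place k L)} (hS : S.Finite) (hne : S.Nonempty) :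
    HWn k L p n ↔ ∀ f : L, ∃ a ∈ regOut S, f ^ p ^ n - a ∈ regOut Sᶜ := by
  have hp : p ^ n ≠ 0 := pow_ne_zero n (Fact.out : p.Prime).ne_zero
  have := charP_of_injective_algebraMap (algebraMap k L).injective p
  refine ⟨fun h f => ?_, fun h a ha => ?_⟩
  · have hn := h _ (rr_ind_mem hS f)
    rwa [rr_ind_pow S f hp, indicator_mem_iff] at hn
  · obtain ⟨f, hf⟩ := rep_eq hS hne ha
    have hn := h f
    rw [← indicator_mem_iff, ← rr_ind_pow S f hp] at hn
    obtain ⟨g, hg⟩ := rr_mem_W0.1 hf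
    rw [← sub_add_cancel (a ^ p ^ n) (S.indicator (fun _ => f) ^ p ^ n)]
    refine add_mem (rr_mem_W0.2 ⟨g ^ p ^ n, fun P => ?_⟩) hn
    simpa only [Pi.sub_apply, Pi.pow_apply, sub_pow_char_pow] using pow_mem (hg P) (p ^ n)

omit [IsAlgClosed k] in
theorem OneT_reg {L : Type u} [Field L] [Algebra k L] {ι : Type} (d : CD k L ι) {f : L} :
    f ∈ regOut (Set.range d.pl)ᶜ ↔ Pole (d.exT f) 0 := by
  constructor
  · intro h i
    rw [neg_zero]
    exact (d.mem_pl i f).1 (h _ (not_not.2 ⟨i, rfl⟩))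
  · intro h P hP
    obtain ⟨i, rfl⟩ := not_not.1 hP
    have := h i
    rw [neg_zero] at this
    exact (d.mem_pl i f).2 this

theorem CD.hwn_iff {L : Type u} [Field L] [Algebra k L] [Fact (IsFF k L)] {ι : Type} [Fintype ι]
    [DecidableEq ι] [Nonempty ι] (d : CD k L ι) (p n : ℕ) [Fact p.Prime] [CharP k p] :
    HWn k L p n ↔ ∀ F : LT ι k, ∃ a ∈ d.alg, Pole (F ^ p ^ n - a) 0 := by
  rw [OneT_hwn p n (Set.finite_range d.pl) (Set.range_nonempty d.pl)]
  constructor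
  · intro h F
    obtain ⟨f, hf⟩ := d.dense F 0
    obtain ⟨a, ha, h1⟩ := h f
    refine ⟨d.exT a, ⟨a, ha, rfl⟩, fun i => ?_⟩
    have h2 := (hf i).pow (p ^ n)
    have h3 := (OneT_reg d).1 h1 i
    rw [mul_zero, sub_pow_char_pow] at h2
    rw [neg_zero, d.exT_apply, map_sub, map_pow] at h3
    have h4 := h2.add h3
    rw [sub_add_sub_cancel] at h4
    rw [neg_zero]
    exact h4
  · intro h f
    obtain ⟨_, ⟨a, ha, rfl⟩, h1⟩ := h (d.exT f)
    refine ⟨a, ha, (OneT_reg d).2 ?_⟩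
    rw [map_sub, map_pow]
    exact h1

omit [IsAlgClosed k] in
theorem OneT_ge_of_pow (p : ℕ) [Fact p.Prime] [CharP k p] {f : LS k} (h : (f ^ p).Ge 0) :
    f.Ge 0 := fun m hm => by
  have hp : 0 < p := (Fact.out : p.Prime).pos
  have hp' : (0 : ℤ) < p := by exact_mod_cast hp
  have h1 := h (p * m) (mul_neg_of_pos_of_neg hp' hm)
  rw [LS.cf_pow_char, if_pos (dvd_mul_right _ _), Int.mul_ediv_cancel_left _ hp'.ne'] at h1
  exact pow_eq_zero_iff hp.ne' |>.1 h1

omit [IsAlgClosed k] in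
theorem OneT_dx_pow (p : ℕ) [Fact p.Prime] [CharP k p] (f : LS k) : LS.dx (f ^ p) = 0 := by
  rw [Derivation.leibniz_pow, ← Nat.cast_smul_eq_nsmul (LS k), CharP.cast_eq_zero, zero_smul]

/-- The derivation `F ↦ a ∂ F`. -/
noncomputable def OneT_der {ι : Type} {A : Subalgebra k (LT ι k)} {a : LT ι k} (ha : a ∈ A) :
    DerQ A :=
  ⟨A.toSubmodule.mkQ ∘ₗ (LinearMap.pi fun i => LinearMap.mulLeft k (a i) ∘ₗ
      (LS.dx : Derivation k (LS k) (LS k)).toLinearMap ∘ₗ LinearMap.proj i) ∘ₗ A.val.toLinearMap,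
    fun f hf => (Submodule.Quotient.mk_eq_zero _).2 (by
      have : (fun i => a i * LS.dx (f.1 i)) = a := funext fun i => by
        rw [hf, xx, LS.dx_T, mul_one]
      change (fun i => a i * LS.dx (f.1 i)) ∈ A
      rwa [this]),
    fun f g F G hF hG => by
      have hF' : (fun i => a i * LS.dx (f.1 i)) - F ∈ A := (Submodule.Quotient.eq _).1 hF
      have hG' : (fun i => a i * LS.dx (g.1 i)) - G ∈ A := (Submodule.Quotient.eq _).1 hG
      refine (Submodule.Quotient.eq _).2 ?_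
      change (fun i => a i * LS.dx (f.1 i * g.1 i)) - (f.1 * G + g.1 * F) ∈ A
      convert add_mem (A.mul_mem f.2 hG') (A.mul_mem g.2 hF') using 1
      funext i
      simp only [Derivation.leibniz, smul_eq_mul, Pi.sub_apply, Pi.add_apply, Pi.mul_apply]
      ring⟩

omit [IsAlgClosed k] in
theorem OneT_der_apply {ι : Type} {A : Subalgebra k (LT ι k)} {a : LT ι k} (ha : a ∈ A) (f : A) :
    (OneT_der ha).1 f = Submodule.Quotient.mk fun i => a i * LS.dx (f.1 i) := rfl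

omit [IsAlgClosed k] in
theorem OneT_iter (p : ℕ) [Fact p.Prime] [CharP k p] {ι : Type} [Fintype ι] [DecidableEq ι]
    {J : Finset (ι × ℕ)} {A : Subalgebra k (LT ι k)} (h : IsChart J A) (i₀ : ι) (F : LT ι k)
    (n : ℕ) : cls i₀ J A (F ^ p ^ n) =
      (sapp p ((hw k p J).map (MvPolynomial.aeval (coef i₀ J A))))^[n] (cls i₀ J A F) := by
  induction n with
  | zero => rw [pow_zero, pow_one, Function.iterate_zero_apply]
  | succ n ih => rw [pow_succ, pow_mul, h.cls_pow i₀ (k := k), ih, Function.iterate_succ_apply']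

/-- the differential of the Hasse-Witt matrix applied to a nonzero kernel vector is onto -/
theorem OneT_surj (p : ℕ) [Fact p.Prime] [CharP k p] {L : Type u} [Field L] [Algebra k L]
    [Fact (IsFF k L)] {ι : Type} [Fintype ι] [DecidableEq ι] (d : CD k L ι)
    (hι : genus k L ≤ Fintype.card ι) {J : Finset (ι × ℕ)} (hJ : IsChart J d.alg) (i₀ : ι)
    {e : J → k} (he : e ≠ 0)
    (h0 : sapp p ((hw k p J).map (MvPolynomial.aeval (coef i₀ J d.alg))) e = 0) (w : J → k) :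
    ∃ δ ∈ Tan (cI k i₀ J) (coef i₀ J d.alg),
      sapp p ((hw k p J).map (dd (coef i₀ J d.alg) δ)) e = w := by
  have : Nonempty ι := ⟨i₀⟩
  have hp : 0 < p := (Fact.out : p.Prime).pos
  obtain ⟨_, ⟨f, hf, rfl⟩, h1⟩ := (hJ.cls_eq_zero i₀ (F := pv J e ^ p)).1 (by
    rw [hJ.cls_pow i₀ (k := k), hJ.cls_pv, h0])
  obtain ⟨D, hD, -, hD0⟩ := d.exists_der p
  have hη : D f ≠ 0 := fun h2 => he (by
    obtain ⟨g, rfl⟩ := hD0 f h2
    rw [← hJ.cls_pv i₀ e]
    refine (hJ.cls_eq_zero i₀).2 ⟨d.exT g, ⟨g, fun P hP => ?_, rfl⟩, fun i => ?_⟩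
    · have h3 := P.mem_iff.1 (hf P hP)
      rcases eq_or_ne g 0 with rfl | hg
      · exact zero_mem _
      · refine P.mem_iff.2 (Or.inr ?_)
        have h4 := h3.resolve_left (pow_ne_zero p hg)
        rw [P.ord_pow hg] at h4
        exact (mul_nonneg_iff_of_pos_left (by exact_mod_cast hp)).1 h4
    · have h3 := h1 i
      rw [neg_zero] at h3 ⊢
      refine OneT_ge_of_pow p ?_
      rw [Pi.sub_apply, sub_pow_char]
      simpa only [Pi.sub_apply, Pi.pow_apply, RingHom.coe_coe, map_pow] using h3)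
  have hη2 : ∀ i, (d.ex i (D f)).Ge 2 := fun i => by
    have h3 := h1 i
    rw [neg_zero] at h3
    have h4 := h3.dx.neg
    rw [Pi.sub_apply, map_sub, Pi.pow_apply, OneT_dx_pow, zero_sub, neg_neg] at h4
    rw [hD]
    exact h4
  have hz : H1z ((2 : ℤ) • d.inf) := h1z_of_deg (by
    rw [dg_smul, CD.inf, dg_sum]
    simp only [dg_single, Finset.sum_const, Finset.card_univ, nsmul_eq_mul, mul_one]
    omega)
  obtain ⟨a, ha, h2⟩ := d.approx hz (pv J (-w) * d.exT (D f)⁻¹)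
  obtain ⟨E, -, hE⟩ := exists_tan_equiv p hJ i₀
  have ha' : d.exT a ∈ d.alg := ⟨a, ha, rfl⟩
  refine ⟨_, (E.symm (OneT_der ha')).2, ?_⟩
  rw [hE _ e ⟨_, f, hf, rfl⟩ _ h1 (by rw [E.apply_symm_apply, OneT_der_apply]), neg_eq_iff_eq_neg,
    ← hJ.cls_pv i₀ (-w), eq_comm, ← sub_eq_zero]
  refine ((Chart_clsL i₀ J d.alg).map_sub _ _).symm.trans (Chart_cls_pole i₀ J d.alg fun i => ?_)
  have h3 := (hη2 i).mul (h2 i)
  have h4 : d.ex i (D f) * d.ex i (D f)⁻¹ = 1 := by rw [← map_mul, mul_inv_cancel₀ hη, map_one]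
  rw [add_neg_cancel] at h3
  rw [neg_zero]
  convert h3 using 1
  change pv J (-w) i - d.ex i a * LS.dx (d.ex i f) =
    d.ex i (D f) * (pv J (-w) i * d.ex i (D f)⁻¹ - d.ex i a)
  rw [← hD]
  linear_combination (-pv J (-w) i) * h4

theorem uniqC_one (p : ℕ) [Fact p.Prime] [CharP k p] (C : FFd k) (h : HW0 k C.L p)
    (h1 : ¬ HWn k C.L p (genus k C.L - 1)) : UniqC p C.sm := by
  obtain ⟨d, -⟩ := exists_cd_avoid (K := k) (L := C.L) (ι := Fin (2 * genus k C.L + 1)) ∅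
    (fun _ => 0) (by simp)
  obtain ⟨J, hJ1, hJ⟩ := d.exists_chart_simple (by simp)
  refine ⟨_, 0, J, d.alg, FFd.has_sm.2 ⟨d, rfl, hJ⟩, hJ1, fun K _ _ c₀ hc hq hd => ?_⟩
  obtain ⟨F, hF⟩ := not_forall.1 (mt (d.hwn_iff p _).2 h1)
  have hg : genus k C.L - 1 = Fintype.card J - 1 := by rw [Fintype.card_coe, d.card_eq hJ]
  rw [← hJ.cls_eq_zero 0, OneT_iter p hJ, hg] at hF
  have hn := (hJ.snil_iff (k := k) p 0).2 ((d.hw0_iff p).1 h)
  obtain ⟨E, -⟩ := exists_tan_equiv p hJ 0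
  have h2 := finrank_DerQ_le hJ hJ1 d.curv
  rw [← E.finrank_eq, Fintype.card_fin] at h2
  refine smooth_one (fgi_cI k 0 J) (hw k p J) le_rfl hc hq ?_ hn (cls 0 J d.alg F)
    (OneT_surj p d (by simp; omega) hJ 0 hF ?_)
  · have h3 : (Module.finrank k (Tan (cI k 0 J) (coef 0 J d.alg)) : ℕ∞) + 2 ≤
        ((2 * (2 * genus k C.L + 1) + 2 * J.card : ℕ) : ℕ∞) := by exact_mod_cast h2
    exact (ENat.add_le_add_iff_right (ENat.natCast_ne_top 2)).1 (h3.trans hd)
  · have h3 : Fintype.card J ≠ 0 := fun e => by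
      have := Fintype.card_eq_zero_iff.1 e
      exact hF (Subsingleton.elim _ _)
    rw [← Function.iterate_succ_apply' (sapp p _), Nat.succ_eq_add_one,
      Nat.sub_add_cancel (Nat.one_le_iff_ne_zero.2 h3), iterate_sapp, hn, Matrix.zero_mulVec]

end PR0
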