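import Pool.Agent.Work.MP_da2620_ag.Semi
import Pool.Agent.Work.MP_ffcd14_ag.Cyc.KR

/-! Purity: the locus where an `m × m` matrix of polynomials is `p`-nilpotent has codimension at
most `m` at each of its points. -/

open Matrix MvPolynomial

namespace Pool.Agent.Work.MP_da2620_ag

universe u

variable {k : Type u} [Field k]

theorem aeval_aeval {σ τ A : Type*} [CommRing A] [Algebra k A] (Ψ : σ → MvPolynomial τ k)
    (t : τ → A) (f : MvPolynomial σ k) :
    aeval t (aeval Ψ f) = aeval (fun s => aeval t (Ψ s)) f := by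
  rw [← AlgHom.comp_apply, comp_aeval]

theorem eq_zero_of_open [Infinite k] {τ : Type*} {h f : MvPolynomial τ k} (hh : h ≠ 0)
    (H : ∀ t : τ → k, aeval t h ≠ 0 → aeval t f = 0) : f = 0 := by
  have : h * f = 0 := MvPolynomial.funext fun t => by
    rw [map_mul, map_zero]
    by_cases e : eval t h = 0
    · rw [e, zero_mul]
    · rw [show eval t f = 0 from H t e, mul_zero]
  exact (mul_eq_zero.1 this).resolve_left hh

theorem prime_of_param [Infinite k] {σ τ : Type*} (Ψ : σ → MvPolynomial τ k) (U : Set (σ → k))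
    (h : MvPolynomial τ k) (hh : h ≠ 0)
    (h1 : ∀ t : τ → k, aeval t h ≠ 0 → (fun s => aeval t (Ψ s)) ∈ U)
    (h2 : ∀ c ∈ U, ∀ f : MvPolynomial σ k, aeval Ψ f = 0 → aeval c f = 0) :
    (vanishingIdeal k U).IsPrime := by
  have : vanishingIdeal k U = RingHom.ker (aeval Ψ : MvPolynomial σ k →ₐ[k] MvPolynomial τ k) := by
    ext f
    rw [RingHom.mem_ker, mem_vanishingIdeal_iff]
    refine ⟨fun hf => eq_zero_of_open hh fun t ht => ?_, fun hf c hc => h2 c hc f hf⟩
    rw [aeval_aeval]
    exact hf _ (h1 t ht)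
  rw [this]
  exact RingHom.ker_isPrime _

variable (p : ℕ) [ExpChar k p] {m : ℕ}

theorem det_map_pow {n : Type} [Fintype n] [DecidableEq n] (g : Matrix n n k) (e : ℕ) :
    (g.map (· ^ p ^ e)).det = g.det ^ p ^ e :=
  ((iterateFrobenius k p e).map_det g).symm

theorem det_map_pow' {n : Type} [Fintype n] [DecidableEq n] (g : Matrix n n k) :
    (g.map (· ^ p)).det = g.det ^ p :=
  ((frobenius k p).map_det g).symm

theorem eq_zero_of_mul_det {n : Type} [Fintype n] [DecidableEq n] {M g : Matrix n n k}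
    (hg : g.det ≠ 0) (h : M * g = 0) : M = 0 := by
  have := congrArg (· * g⁻¹) h
  simpa [Matrix.mul_nonsing_inv_cancel_right g M (Ne.isUnit hg)] using this

theorem tw_zero_of_conj {n : Type} [Fintype n] [DecidableEq n] {A B g : Matrix n n k} {r : ℕ}
    (hg : g.det ≠ 0) (h : A * g.map (· ^ p) = g * B) (hB : tw p B r = 0) : tw p A r = 0 := by
  have := tw_conj p h r
  rw [hB, mul_zero] at this
  exact eq_zero_of_mul_det (by rw [det_map_pow]; exact pow_ne_zero _ hg) this

theorem tw_param {g B : Matrix (Fin m) (Fin m) k} (hg : g.det ≠ 0)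
    (hB : ∀ i j, j ≤ i → B i j = 0) : tw p (g * B * (g.map (· ^ p)).adjugate) m = 0 := by
  refine tw_zero_of_conj p hg (B := (g.map (· ^ p)).det • B) ?_
    (tw_upper p fun i j hij => by simp [hB i j hij])
  rw [mul_assoc, adjugate_mul]
  simp

theorem nil_param {A : Matrix (Fin m) (Fin m) k} {r : ℕ} (h : tw p A r = 0) :
    ∃ g B : Matrix (Fin m) (Fin m) k, (∀ i j, j ≤ i → B i j = 0) ∧
      A = g * B * (g.map (· ^ p)).adjugate := by
  obtain ⟨g, B, hg, hB, e⟩ := exists_triang p h
  have hd : (g.map (· ^ p)).det ≠ 0 := by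
    rw [det_map_pow']
    exact pow_ne_zero _ hg
  refine ⟨g, ((g.map (· ^ p)).det)⁻¹ • B, fun i j hij => by simp [hB i j hij], ?_⟩
  rw [Matrix.mul_smul, ← e, Matrix.smul_mul, mul_assoc, mul_adjugate]
  simp [smul_smul, hd]

/-- the generic nilpotent matrix -/
noncomputable def genNil {R : Type*} [CommRing R] (p : ℕ) (a b : Fin m × Fin m → R) :
    Matrix (Fin m) (Fin m) R :=
  Matrix.of (fun i j => a (i, j)) * Matrix.of (fun i j => if i < j then b (i, j) else 0) *
    ((Matrix.of fun i j => a (i, j)).map (· ^ p)).adjugate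

omit [ExpChar k p] in
theorem genNil_map {R S : Type*} [CommRing R] [CommRing S] [Algebra k R] [Algebra k S]
    (f : R →ₐ[k] S) (a b : Fin m × Fin m → R) (i j : Fin m) :
    f (genNil p a b i j) = genNil p (fun s => f (a s)) (fun s => f (b s)) i j := by
  have : f.mapMatrix (genNil p a b) = genNil p (fun s => f (a s)) (fun s => f (b s)) := by
    rw [genNil, genNil, map_mul, map_mul, AlgHom.map_adjugate]
    congr 2
    · ext i j
      simp [apply_ite f]
    · ext i j
      simp
  exact congrFun (congrFun this i) j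

theorem genNil_nil {a : Fin m × Fin m → k} (ha : (Matrix.of fun i j => a (i, j)).det ≠ 0)
    (b : Fin m × Fin m → k) : tw p (genNil p a b) m = 0 :=
  tw_param p ha fun i j hij => by simp [hij]

theorem genNil_surj {A : Matrix (Fin m) (Fin m) k} {r : ℕ} (h : tw p A r = 0) :
    ∃ a b, A = genNil p a b := by
  obtain ⟨g, B, hB, e⟩ := nil_param p h
  refine ⟨fun s => g s.1 s.2, fun s => B s.1 s.2, e.trans ?_⟩
  rw [genNil]
  congr 2
  ext i j
  by_cases hij : i < j
  · simp [hij]
  · simp [hij, hB i j (not_lt.1 hij)]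

omit [ExpChar k p] in
theorem det_gen_ne {τ : Type*} (ι : Fin m × Fin m → τ) (hι : Function.Injective ι) :
    (Matrix.of fun i j => (X (ι (i, j)) : MvPolynomial τ k)).det ≠ 0 := by
  classical
  intro h
  have := congrArg (aeval (Function.extend ι (fun s => (1 : Matrix (Fin m) (Fin m) k) s.1 s.2) 0)) h
  rw [AlgHom.map_det, map_zero] at this
  have e : (aeval (Function.extend ι (fun s => (1 : Matrix (Fin m) (Fin m) k) s.1 s.2) 0) :
      MvPolynomial τ k →ₐ[k] k).mapMatrix (Matrix.of fun i j => X (ι (i, j))) = 1 := by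
    ext i j
    simp [hι.extend_apply]
  rw [e] at this
  simp at this

variable (k m) in
/-- the nilpotent matrices times an affine space -/
def nilSet (σ : Type) : Set (σ ⊕ Fin m × Fin m → k) :=
  {c | tw p (Matrix.of fun i j => c (Sum.inr (i, j))) m = 0}

theorem nil_prime [IsAlgClosed k] (σ : Type) : (vanishingIdeal k (nilSet k p m σ)).IsPrime := by
  refine prime_of_param (τ := σ ⊕ (Fin m × Fin m) ⊕ (Fin m × Fin m))
    (Sum.elim (fun s => X (Sum.inl s)) fun s => genNil p (fun s => X (Sum.inr (Sum.inl s)))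
      (fun s => X (Sum.inr (Sum.inr s))) s.1 s.2) _ _
    (det_gen_ne (fun s => Sum.inr (Sum.inl s)) (Sum.inr_injective.comp Sum.inl_injective)) ?_ ?_
  · intro t ht
    rw [AlgHom.map_det] at ht
    have := genNil_nil p (a := fun s => t (Sum.inr (Sum.inl s))) (by
      convert ht using 2
      ext i j
      simp) fun s => t (Sum.inr (Sum.inr s))
    change tw p _ m = 0
    convert this using 2
    ext i j
    simp [genNil_map]
  · intro c hc f hf
    obtain ⟨a, b, e⟩ := genNil_surj p hc
    have := congrArg (aeval (Sum.elim (fun s => c (Sum.inl s)) (Sum.elim a b))) hf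
    rw [aeval_aeval, map_zero] at this
    rw [← this]
    congr 2
    ext s
    rcases s with s | ⟨i, j⟩
    · simp
    · simpa [genNil_map] using congrFun (congrFun e i) j

theorem tw_zero_of_cyclic {n : Type} [Fintype n] [DecidableEq n] {A : Matrix n n k} {v : n → k}
    {r : ℕ} (s : n → ℕ) (hd : (Matrix.of fun i j => (ph p A)^[s j] v i).det ≠ 0)
    (h : (ph p A)^[r] v = 0) : tw p A r = 0 := by
  refine eq_zero_of_mul_det (g := (Matrix.of fun i j => (ph p A)^[s j] v i).map (· ^ p ^ r))
    (by rw [det_map_pow]; exact pow_ne_zero _ hd) ?_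
  ext i j
  have := tw_mulVec p A r ((ph p A)^[s j] v)
  rw [← Function.iterate_add_apply, add_comm, Function.iterate_add_apply, h,
    Function.iterate_fixed (ph_zero p A)] at this
  exact congrFun this i

theorem shift_iter (r : ℕ) :
    (ph p (Matrix.of fun i j : Fin (m + 1) => if i.1 = j.1 + 1 then (1 : k) else 0))^[r]
      (fun i => if i.1 = 0 then 1 else 0) = fun i => if i.1 = r then 1 else 0 := by
  induction r with
  | zero => rfl
  | succ r ih =>
    rw [Function.iterate_succ_apply', ih]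
    ext i
    simp only [ph, Matrix.mulVec, dotProduct, Matrix.of_apply]
    by_cases hi : i.1 = r + 1
    · rw [Finset.sum_eq_single ⟨r, by omega⟩]
      · simp [hi]
      · intro j _ hj
        have : j.1 ≠ r := fun e => hj (Fin.ext e)
        simp [this, (expChar_pos k p).ne']
      · simp
    · rw [if_neg hi]
      refine Finset.sum_eq_zero fun j _ => ?_
      by_cases hj : j.1 = r
      · simp [hj, hi]
      · simp [hj, (expChar_pos k p).ne']

theorem nil_trdeg [IsAlgClosed k] (σ : Type) [Finite σ] :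
    (Nat.card (σ ⊕ Fin (m + 1) × Fin (m + 1)) : Cardinal) ≤
      Algebra.trdeg k (MvPolynomial _ k ⧸ vanishingIdeal k (nilSet k p (m + 1) σ)) +
        (m + 1 : ℕ) := by
  let Y : Matrix (Fin (m + 1)) (Fin (m + 1)) (MvPolynomial (σ ⊕ Fin (m + 1) × Fin (m + 1)) k) :=
    Matrix.of fun i j => X (Sum.inr (i, j))
  let w : ℕ → Fin (m + 1) → MvPolynomial (σ ⊕ Fin (m + 1) × Fin (m + 1)) k := fun r =>
    (ph p Y)^[r] fun i => if i.1 = 0 then 1 else 0
  have hw : ∀ (c : σ ⊕ Fin (m + 1) × Fin (m + 1) → k) r, (fun i => aeval c (w r i)) =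
      (ph p (Matrix.of fun i j => c (Sum.inr (i, j))))^[r] fun i => if i.1 = 0 then 1 else 0 := by
    intro c r
    rw [ph_iter_map]
    congr 2
    · ext i j
      simp [Y]
    · ext i
      simp [apply_ite (aeval c)]
  let c₀ : σ ⊕ Fin (m + 1) × Fin (m + 1) → k :=
    Sum.elim 0 fun s => if s.1.1 = s.2.1 + 1 then 1 else 0
  have h₀ : ∀ r i, aeval c₀ (w r i) = if i.1 = r then 1 else 0 := fun r i =>
    congrFun ((hw c₀ r).trans (shift_iter p r)) i
  obtain ⟨r, hr, -, hq, hg, hd⟩ := MP_ffcd14_ag.kr_many ⊥ (vanishingIdeal k {c₀}) bot_le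
    (w (m + 1)) fun i => by
      rw [mem_vanishingIdeal_singleton_iff, h₀, if_neg (by omega)]
  have hΔ : (Matrix.of fun i j : Fin (m + 1) => w j.1 i).det ∉ r := fun e => by
    have := (mem_vanishingIdeal_singleton_iff _ _).1 (hq e)
    rw [AlgHom.map_det] at this
    have e : (aeval c₀ : _ →ₐ[k] k).mapMatrix (Matrix.of fun i j : Fin (m + 1) => w j.1 i) = 1 := by
      ext i j
      exact (h₀ j.1 i).trans (by simp [Matrix.one_apply, Fin.ext_iff])
    rw [e] at this
    simp at this
  have hle : vanishingIdeal k (nilSet k p (m + 1) σ) ≤ r := by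
    intro f hf
    refine (hr.mem_or_mem (x := f) ?_).resolve_right hΔ
    rw [← IsPrime.vanishingIdeal_zeroLocus (K := k) r]
    intro x hx
    rw [map_mul]
    by_cases e : aeval x (Matrix.of fun i j : Fin (m + 1) => w j.1 i).det = 0
    · rw [e, mul_zero]
    · rw [hf x (tw_zero_of_cyclic p (v := fun i => if i.1 = 0 then 1 else 0) (fun j => j.1) ?_ ?_),
        zero_mul]
      · rw [AlgHom.map_det] at e
        convert e using 2
        ext i j
        exact (congrFun (hw x j.1) i).symm
      · rw [← hw]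
        ext i
        exact hx _ (hg i)
  have h1 := trdeg_le_of_surjective (Ideal.Quotient.factorₐ k hle)
    (Ideal.Quotient.factor_surjective hle)
  have h2 : Algebra.trdeg k (MvPolynomial (σ ⊕ Fin (m + 1) × Fin (m + 1)) k ⧸
      (⊥ : Ideal (MvPolynomial (σ ⊕ Fin (m + 1) × Fin (m + 1)) k))) =
      Nat.card (σ ⊕ Fin (m + 1) × Fin (m + 1)) := by
    rw [(AlgEquiv.quotientBot k _).trdeg_eq, trdeg_of_isDomain, ← Nat.cast_card,
      Cardinal.lift_natCast]
  rw [h2] at hd
  simpa using hd.trans (add_le_add_left h1 _)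

/-- purity -/
theorem purity [IsAlgClosed k] {σ : Type} [Finite σ]
    (A : Matrix (Fin (m + 1)) (Fin (m + 1)) (MvPolynomial σ k)) (z : σ → k)
    (hz : tw p (A.map (aeval z)) (m + 1) = 0) : ∃ r : Ideal (MvPolynomial σ k), r.IsPrime ∧
      r ≤ vanishingIdeal k {z} ∧ (∀ i j, tw p A (m + 1) i j ∈ r) ∧
      (Nat.card σ : Cardinal) ≤ Algebra.trdeg k (MvPolynomial σ k ⧸ r) + (m + 1 : ℕ) := by
  have := nil_prime (k := k) p (m := m + 1) σ
  let c : σ ⊕ Fin (m + 1) × Fin (m + 1) → k := Sum.elim z fun s => aeval z (A s.1 s.2)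
  have hc : ∀ f : MvPolynomial σ k, aeval c (rename Sum.inl f) = aeval z f := fun f => by
    rw [aeval_rename]
    rfl
  obtain ⟨r, hr, h1, h2, h3, h4⟩ := MP_ffcd14_ag.kr_many (vanishingIdeal k (nilSet k p (m + 1) σ))
    (vanishingIdeal k {c}) (vanishingIdeal_anti_mono (Set.singleton_subset_iff.2 hz))
    (fun s : Fin (m + 1) × Fin (m + 1) => X (Sum.inr s) - rename Sum.inl (A s.1 s.2)) fun s => by
      rw [mem_vanishingIdeal_singleton_iff, map_sub, hc]
      simp [c]
  let φ : MvPolynomial σ k →ₐ[k] MvPolynomial _ k ⧸ r :=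
    (Ideal.Quotient.mkₐ k r).comp (rename Sum.inl)
  have hφ : ∀ s : Fin (m + 1) × Fin (m + 1),
      Ideal.Quotient.mk r (X (Sum.inr s)) = φ (A s.1 s.2) := fun s =>
    Ideal.Quotient.eq.2 (h3 s)
  have hsurj : Function.Surjective φ := by
    intro y
    obtain ⟨y, rfl⟩ := Ideal.Quotient.mk_surjective y
    change _ ∈ φ.range
    induction y using MvPolynomial.induction_on with
    | C a => exact Subalgebra.algebraMap_mem _ a
    | add f g hf hg => rw [map_add]; exact add_mem hf hg
    | mul_X f s hf =>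
      rw [map_mul]
      refine mul_mem hf ?_
      rcases s with s | s
      · exact ⟨X s, by simp [φ]⟩
      · exact ⟨_, (hφ s).symm⟩
  refine ⟨RingHom.ker φ, RingHom.ker_isPrime _, fun f hf => ?_, fun i j => ?_, ?_⟩
  · rw [mem_vanishingIdeal_singleton_iff, ← hc]
    exact (mem_vanishingIdeal_singleton_iff _ _).1 (h2 (Ideal.Quotient.eq_zero_iff_mem.1 hf))
  · have e1 : tw p (Matrix.of fun i j => (X (Sum.inr (i, j)) :
        MvPolynomial (σ ⊕ Fin (m + 1) × Fin (m + 1)) k)) (m + 1) i j ∈ r := by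
      refine h1 fun x hx => ?_
      have := congrFun (congrFun (tw_map (aeval x : _ →ₐ[k] k) p (Matrix.of fun i j =>
        (X (Sum.inr (i, j)) : MvPolynomial (σ ⊕ Fin (m + 1) × Fin (m + 1)) k)) (m + 1)) i) j
      rw [Matrix.map_apply] at this
      rw [this]
      refine Eq.trans ?_ (congrFun (congrFun hx i) j)
      congr 2
      ext i j
      simp
    have e2 := congrFun (congrFun (tw_map φ p A (m + 1)) i) j
    have e3 := congrFun (congrFun (tw_map (Ideal.Quotient.mk r) p (Matrix.of fun i j =>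
        (X (Sum.inr (i, j)) : MvPolynomial (σ ⊕ Fin (m + 1) × Fin (m + 1)) k)) (m + 1)) i) j
    rw [Matrix.map_apply] at e2 e3
    have e4 : A.map φ = (Matrix.of fun i j => (X (Sum.inr (i, j)) :
        MvPolynomial (σ ⊕ Fin (m + 1) × Fin (m + 1)) k)).map (Ideal.Quotient.mk r) := by
      ext i j
      exact (hφ (i, j)).symm
    rw [RingHom.mem_ker, e2, e4, ← e3]
    exact Ideal.Quotient.eq_zero_iff_mem.2 e1
  · rw [(Ideal.quotientKerAlgEquivOfSurjective hsurj).trdeg_eq]
    have h5 := (nil_trdeg (k := k) p (m := m) σ).trans (add_le_add_left h4 _)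
    rw [Nat.card_sum, Nat.cast_add, add_right_comm] at h5
    exact (Cardinal.add_nat_le_add_nat_iff _).1 h5

end Pool.Agent.Work.MP_da2620_ag
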