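import Pool.Agent.Work.MP_da2620_ag.Pt2
import Pool.Agent.Work.MP_da2620_ag.Pure

/-!
# Semilinear nilpotent matrices, purity

`sapp p M v = M (v ^ p)`.  `exists_flag`: a nilpotent semilinear map over a perfect field preserves
a full flag (`ker φ ⊆ ker φ² ⊆ ...` are subspaces).
`purity`: consider the point `(c₀, B n (B ^ p)⁻¹)` with `B` (square matrix) and `n` (strictly upper
triangular) generic over `k(c₀)` (`exists_generic`).  It specialises to `(c, Φ c)` (clear the
denominator `det B`, use `Spc.generic` and `exists_flag`), its dimension is at least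
`dm c₀ + g² - g` (specialise `n` to the Jordan block `J`; for `M = B J (B ^ p)⁻¹` the columns of `B`
are obtained from one column by iterating `sapp p M`, so `g² ≤ rk M + g` over `k(c₀)`), and `krull`
with the `g²` equations `X = Φ` gives the claim.
-/

namespace PR0

open MvPolynomial
open Pool.Agent.Work.MP_da2620_ag hiding purity

universe u

variable (p : ℕ) {G : Type} [Fintype G] [DecidableEq G]

section
variable {R R' : Type u} [CommRing R] [CommRing R']

/-- The semilinear map of a matrix. -/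
def sapp (M : Matrix G G R) (v : G → R) : G → R := M.mulVec fun i => v i ^ p

/-- `M * M ^ (p) * ... * M ^ (p ^ (n - 1))`. -/
def sprod (M : Matrix G G R) : ℕ → Matrix G G R
  | 0 => 1
  | n + 1 => M * (sprod M n).map (· ^ p)

/-- Semilinear nilpotence. -/
def SNil (M : Matrix G G R) : Prop := sprod p M (Fintype.card G) = 0

variable {p}

theorem sig_tw (M : Matrix G G R) (n : ℕ) : sprod p M n = tw p M n := by
  induction n with
  | zero => rfl
  | succ n ih => rw [sprod, tw, ih]

theorem sprod_map (φ : R →+* R') (M : Matrix G G R) (n : ℕ) :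
    (sprod p M n).map φ = sprod p (M.map φ) n := by
  rw [sig_tw, sig_tw, tw_map]
theorem SNil.map {M : Matrix G G R} (h : SNil p M) (φ : R →+* R') : SNil p (M.map φ) := by
  rw [SNil, ← sprod_map, h, Matrix.map_zero _ φ.map_zero]
theorem SNil.of_map {M : Matrix G G R} {φ : R →+* R'} (hφ : Function.Injective φ)
    (h : SNil p (M.map φ)) : SNil p M := by
  rw [SNil, ← sprod_map] at h
  ext i j
  exact hφ ((congrFun (congrFun h i) j).trans φ.map_zero.symm)
theorem iterate_sapp [Fact p.Prime] [CharP R p] (M : Matrix G G R) (n : ℕ) (v : G → R) :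
    (sapp p M)^[n] v = (sprod p M n).mulVec fun i => v i ^ p ^ n := by
  rw [sig_tw]
  exact (tw_mulVec p M n v).symm
theorem sprod_smul [Fact p.Prime] [CharP R p] (c : R) (M : Matrix G G R) (n : ℕ) :
    sprod p (c • M) n = c ^ (∑ i ∈ Finset.range n, p ^ i) • sprod p M n := by
  induction n with
  | zero => simp [sprod]
  | succ n ih =>
    rw [sprod, sprod, ih, Finset.sum_range_succ']
    simp only [pow_succ p, ← Finset.sum_mul]
    ext i j
    simp only [Matrix.mul_apply, Matrix.smul_apply, Matrix.map_apply, smul_eq_mul, Finset.mul_sum]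
    refine Finset.sum_congr rfl fun l _ => ?_
    rw [mul_pow, ← pow_mul]
    ring

theorem sig_sub {G' : Type} [Fintype G'] [DecidableEq G'] (e : G' ≃ G) (M : Matrix G G R) (n : ℕ) :
    tw p (M.submatrix e e) n = (tw p M n).submatrix e e := by
  induction n with
  | zero => exact (Matrix.submatrix_one_equiv e).symm
  | succ n ih => rw [tw, tw, ih, ← Matrix.submatrix_mul_equiv _ _ _ e, Matrix.submatrix_map]

theorem sig_sub_zero {G' : Type} [Fintype G'] [DecidableEq G'] (e : G' ≃ G) (M : Matrix G G R)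
    (n : ℕ) : tw p (M.submatrix e e) n = 0 ↔ tw p M n = 0 := by
  rw [sig_sub]
  refine ⟨fun h => ?_, fun h => by rw [h]; rfl⟩
  ext i j
  simpa using congrFun (congrFun h (e.symm i)) (e.symm j)
end

variable {p} [Fact p.Prime] {K : Type u} [Field K] [CharP K p]

theorem sig_nil {M : Matrix G G K} {r : ℕ} (h : tw p M r = 0) : SNil p M := by
  have e := (Fintype.equivFin G).symm
  obtain ⟨g, B, hg, hB, h1⟩ := exists_triang p ((sig_sub_zero e M r).2 h)
  rw [SNil, sig_tw]
  exact (sig_sub_zero e M _).1 (tw_zero_of_conj p hg h1 (tw_upper p hB))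

theorem snil_iff (M : Matrix G G K) :
    SNil p M ↔ ∀ v, ∃ n, (sapp p M)^[n] v = 0 := by
  refine ⟨fun h v => ⟨_, ph_iter_eq_zero p ((sig_tw M _).symm.trans h) v⟩, fun h => ?_⟩
  choose n hn using h
  refine sig_nil (r := Finset.univ.sup fun j => n (Pi.single j 1)) ?_
  ext i j
  obtain ⟨d, hd⟩ := Nat.exists_eq_add_of_le'
    (Finset.le_sup (f := fun j => n (Pi.single j 1)) (Finset.mem_univ j))
  have h1 := tw_mulVec p M (d + n (Pi.single j 1)) (Pi.single j 1)
  have e : (fun l => (Pi.single j (1 : K) : G → K) l ^ p ^ (d + n (Pi.single j 1))) =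
      Pi.single j 1 := by
    ext l
    by_cases hl : l = j <;> simp [hl, (expChar_pos K p).ne']
  rw [e, Function.iterate_add_apply, show (ph p M)^[n (Pi.single j 1)] (Pi.single j 1) = 0 from
    hn _, Function.iterate_fixed (ph_zero p M)] at h1
  rw [hd]
  simpa using congrFun h1 i
theorem snil_smul {c : K} (hc : c ≠ 0) (M : Matrix G G K) : SNil p (c • M) ↔ SNil p M := by
  rw [SNil, SNil, sprod_smul, smul_eq_zero, or_iff_right (pow_ne_zero _ hc)]
/-- change of basis -/
theorem snil_conj {B : Matrix G G K} (hB : IsUnit B.det) (M : Matrix G G K) :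
    SNil p (B * M * (B.map (· ^ p))⁻¹) ↔ SNil p M := by
  have h0 : IsUnit (B.map (· ^ p)).det := by rw [det_map_pow']; exact hB.pow p
  have h1 : B * M * (B.map (· ^ p))⁻¹ * B.map (· ^ p) = B * M :=
    Matrix.nonsing_inv_mul_cancel_right _ _ h0
  rw [SNil, SNil, sig_tw, sig_tw]
  refine ⟨fun h => ?_, tw_zero_of_conj p hB.ne_zero h1⟩
  have h2 := tw_conj p h1 (Fintype.card G)
  rw [h, zero_mul] at h2
  rw [← Matrix.nonsing_inv_mul_cancel_left B (tw p M _) hB, ← h2, mul_zero]
theorem snil_reindex {G' : Type} [Fintype G'] [DecidableEq G'] (e : G ≃ G') (M : Matrix G G K) :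
    SNil p (M.reindex e e) ↔ SNil p M := by
  rw [SNil, SNil, sig_tw, sig_tw, Matrix.reindex_apply, sig_sub_zero, Fintype.card_congr e]

/-- an additive equation has a nonzero solution -/
theorem sig_root [IsAlgClosed K] (a : ℕ → K) (ha : a 0 ≠ 0) (s : ℕ) : ∃ x : ℕ → K, x s ≠ 0 ∧
    x 0 = x s ^ p * a 0 ∧ ∀ i, x (i + 1) = x i ^ p + x s ^ p * a (i + 1) := by
  have hp := (Fact.out : p.Prime).two_le
  let P : ℕ → Polynomial K := fun i => Nat.rec (Polynomial.X ^ p * Polynomial.C (a 0))
    (fun i Q => Q ^ p + Polynomial.X ^ p * Polynomial.C (a (i + 1))) i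
  have hX : ∀ c : K, Polynomial.X ^ 2 ∣ Polynomial.X ^ p * Polynomial.C c := fun c =>
    (pow_dvd_pow _ hp).mul_right _
  have hP : ∀ i, P i ≠ 0 ∧ Polynomial.X ^ 2 ∣ P i := fun i => by
    induction i with
    | zero =>
      exact ⟨mul_ne_zero (pow_ne_zero _ Polynomial.X_ne_zero) (Polynomial.C_ne_zero.2 ha), hX _⟩
    | succ i ih =>
      refine ⟨fun e => ?_, dvd_add (dvd_pow ih.2 (by omega)) (hX _)⟩
      have h1 := Polynomial.natDegree_le_of_dvd ih.2 ih.1
      have h2 : P i ^ p = -(Polynomial.X ^ p * Polynomial.C (a (i + 1))) :=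
        eq_neg_of_add_eq_zero_left e
      have h3 := Polynomial.natDegree_mul_C_le (Polynomial.X ^ p : Polynomial K) (a (i + 1))
      rw [← Polynomial.natDegree_neg, ← h2, Polynomial.natDegree_pow] at h3
      rw [Polynomial.natDegree_X_pow] at h1 h3
      nlinarith
  obtain ⟨h0, S, hS⟩ := hP s
  have hS0 : S ≠ 0 := fun e => h0 (by rw [hS, e, mul_zero])
  obtain ⟨t, ht⟩ := IsAlgClosed.exists_root (Polynomial.X * S - 1) fun e => by
    have h1 := Polynomial.natDegree_eq_of_degree_eq_some (n := 0) e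
    rw [← Polynomial.C_1, Polynomial.natDegree_sub_C, Polynomial.natDegree_X_mul hS0] at h1
    omega
  simp only [Polynomial.IsRoot.def, Polynomial.eval_sub, Polynomial.eval_mul, Polynomial.eval_X,
    Polynomial.eval_one, sub_eq_zero] at ht
  have e : (P s).eval t = t := by
    rw [hS, Polynomial.eval_mul, Polynomial.eval_pow, Polynomial.eval_X, sq, mul_assoc, ht, mul_one]
  refine ⟨fun i => (P i).eval t, ?_, ?_, fun i => ?_⟩ <;> simp only [e]
  · exact left_ne_zero_of_mul_eq_one ht
  · simp [P, mul_comm (t ^ p)]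
  · simp [P, mul_comm (t ^ p)]

/-- a map which is not nilpotent has a nonzero fixed vector (take a minimal semilinear relation
among the iterates of a vector of the stable image, and solve an additive equation) -/
theorem exists_fixed [IsAlgClosed K] {M : Matrix G G K} (h : ¬ SNil p M) :
    ∃ v, v ≠ 0 ∧ sapp p M v = v := by
  classical
  rw [snil_iff] at h
  push Not at h
  have hex : ∃ r, ∃ v : G → K, (∀ n, (ph p M)^[n] v ≠ 0) ∧
      ∃ a : ℕ → K, ∑ i ∈ Finset.range r, a i • (ph p M)^[i] v = (ph p M)^[r] v := by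
    obtain ⟨v, hv⟩ := h
    obtain ⟨r, hr⟩ := monotone_stabilizes_iff_noetherian.2 (inferInstance : IsNoetherian K (G → K))
      ⟨fun r => Submodule.span K ((fun i => (ph p M)^[i] v) '' (Finset.range r : Set ℕ)),
        fun i j hij => Submodule.span_mono (Set.image_mono
          (Finset.coe_subset.2 (Finset.range_mono hij)))⟩
    exact ⟨r, v, hv, (Submodule.mem_span_image_finset_iff_exists_fun' K).1
      ((hr (r + 1) r.le_succ).ge (Submodule.subset_span ⟨r, by simp, rfl⟩))⟩
  obtain ⟨v, hv, a, ha⟩ := Nat.find_spec hex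
  have hmin := fun r => Nat.find_min hex (m := r)
  generalize Nat.find hex = r at ha hmin
  cases r with
  | zero => exact (hv 0 ha.symm).elim
  | succ s =>
  have h0 : a 0 ≠ 0 := fun e => hmin s s.lt_succ_self ⟨ph p M v, fun n => hv (n + 1),
    fun i => a (i + 1), by rwa [Finset.sum_range_succ', e, zero_smul, add_zero] at ha⟩
  obtain ⟨x, x0, x1, x2⟩ := sig_root (p := p) a h0 s
  refine ⟨∑ i ∈ Finset.range (s + 1), x i • (ph p M)^[i] v, fun e => ?_, ?_⟩
  · refine hmin s s.lt_succ_self ⟨v, hv, fun i => -(x s)⁻¹ * x i, ?_⟩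
    rw [Finset.sum_range_succ] at e
    simp only [mul_smul]
    rw [← Finset.smul_sum, eq_neg_of_add_eq_zero_left e, smul_neg, neg_smul, neg_neg,
      inv_smul_smul₀ x0]
  · refine (ph_sum p M _ _ _).trans ?_
    simp only [← Function.iterate_succ_apply' (ph p M)]
    rw [Finset.sum_range_succ, Nat.succ_eq_add_one, ← ha, Finset.sum_range_succ',
      Finset.sum_range_succ', smul_add, Finset.smul_sum, ← add_assoc, ← Finset.sum_add_distrib, x1]
    simp only [x2, add_smul, mul_smul]
theorem exists_flag [IsAlgClosed K] {g : ℕ} {M : Matrix (Fin g) (Fin g) K} (h : SNil p M) :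
    ∃ B n : Matrix (Fin g) (Fin g) K, IsUnit B.det ∧ (∀ i j, j ≤ i → n i j = 0) ∧
      M = B * n * (B.map (· ^ p))⁻¹ := by
  obtain ⟨B, n, hB, hn, e⟩ := exists_triang p ((sig_tw M _).symm.trans h)
  have h0 : IsUnit (B.map (· ^ p)).det := by rw [det_map_pow']; exact hB.isUnit.pow p
  exact ⟨B, n, hB.isUnit, hn, by rw [← e, Matrix.mul_nonsing_inv_cancel_right _ _ h0]⟩

variable {k K' : Type u} [Field k] [CharP k p] [Algebra k K] [Field K'] [Algebra k K'] {I : Type}

omit [CharP k p] in
theorem sig_generic (c₀ : I → K) (J : Type) :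
    ∃ (Ω : Type u) (_ : Field Ω) (_ : Algebra k Ω) (c₁ : I → Ω) (y : J → Ω), Spc k c₀ c₁ ∧
      Spc k c₁ c₀ ∧ AlgebraicIndependent (IntermediateField.adjoin k (Set.range c₁)) y := by
  obtain ⟨Ω, _, _, _, _, _, y, hy⟩ := exists_generic (k := k) K J
  let φ := IsScalarTower.toAlgHom k K Ω
  refine ⟨Ω, _, _, fun i => φ (c₀ i), y, Spc.map c₀ φ, Spc.of_map c₀ φ φ.injective, ?_⟩
  have hle : (IntermediateField.adjoin k (Set.range fun i => φ (c₀ i))).toSubalgebra ≤ φ.range :=
    show IntermediateField.adjoin k (Set.range fun i => φ (c₀ i)) ≤ φ.fieldRange from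
      IntermediateField.adjoin_le_iff.2 (by rintro _ ⟨i, rfl⟩; exact ⟨_, rfl⟩)
  let f : IntermediateField.adjoin k (Set.range fun i => φ (c₀ i)) →ₐ[k] K :=
    (AlgEquiv.ofInjectiveField φ).symm.toAlgHom.comp (Subalgebra.inclusion hle)
  refine AlgebraicIndependent.of_ringHom_of_comp_eq f (RingHom.id Ω) hy f.injective ?_
  ext z
  exact congrArg Subtype.val ((AlgEquiv.ofInjectiveField φ).apply_symm_apply ⟨z, hle z.2⟩)

omit [Fact p.Prime] [CharP K p] [CharP k p] in
theorem sig_spc {m r : ℕ} {e : I ⊕ Fin m × Fin m → K} {e' : I ⊕ Fin m × Fin m → K'}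
    (h : Spc k e e') (hn : tw p (Matrix.of fun i j => e (Sum.inr (i, j))) r = 0) :
    tw p (Matrix.of fun i j => e' (Sum.inr (i, j))) r = 0 := by
  have key : ∀ {L : Type u} [Field L] [Algebra k L] (d : I ⊕ Fin m × Fin m → L) (i j),
      aeval d (tw p (Matrix.of fun i j => (X (Sum.inr (i, j)) : MvPolynomial _ k)) r i j) =
        tw p (Matrix.of fun i j => d (Sum.inr (i, j))) r i j := fun d i j => by
    refine (congrFun (congrFun (tw_map (aeval d : _ →ₐ[k] _) p _ r) i) j).trans ?_
    congr 2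
    ext i j
    simp
  ext i j
  rw [← key]
  exact h _ (by rw [key, hn]; rfl)

omit [CharP K p] in
/-- the generic nilpotent matrix over a point -/
theorem sig_univ (c₀ : I → K) (m : ℕ) :
    ∃ (Ω : Type u) (_ : Field Ω) (_ : Algebra k Ω) (e : I ⊕ Fin m × Fin m → Ω),
      Spc k c₀ (e ∘ Sum.inl) ∧ tw p (Matrix.of fun i j => e (Sum.inr (i, j))) m = 0 ∧
      ∀ (L : Type u) [Field L] [Algebra k L] (d : I ⊕ Fin m × Fin m → L), Spc k c₀ (d ∘ Sum.inl) →
        tw p (Matrix.of fun i j => d (Sum.inr (i, j))) m = 0 → Spc k e d := by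
  obtain ⟨Ω, _, _, c₁, y, h1, h2, hy⟩ := sig_generic (k := k) c₀ (Fin m × Fin m ⊕ Fin m × Fin m)
  have := charP_of_injective_algebraMap (algebraMap k Ω).injective p
  refine ⟨Ω, _, _, Sum.elim c₁ fun s =>
    genNil p (fun s => y (Sum.inl s)) (fun s => y (Sum.inr s)) s.1 s.2, h1,
    genNil_nil p (a := fun s => y (Sum.inl s)) (fun e => ?_) fun s => y (Sum.inr s),
    fun L _ _ d h3 h4 => ?_⟩
  · refine det_gen_ne Sum.inl Sum.inl_injective (hy.eq_zero_of_aeval_eq_zero _ ?_)
    rw [AlgHom.map_det, ← e]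
    congr 1
    ext i j
    simp
  · have := charP_of_injective_algebraMap (algebraMap k L).injective p
    obtain ⟨a, b, e⟩ := genNil_surj p h4
    have h5 := ((h2.trans h3).generic hy (Sum.elim a b)).aeval
      (Sum.elim (fun i => X (Sum.inl i)) fun s : Fin m × Fin m =>
        genNil p (fun s => X (Sum.inr (Sum.inl s))) (fun s => X (Sum.inr (Sum.inr s))) s.1 s.2)
    convert h5 using 1 <;> ext (i | ⟨i, j⟩)
    · simp
    · simp [genNil_map]
    · simp
    · simpa [genNil_map] using congrFun (congrFun e i) j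

omit [CharP K p] in
/-- a nilpotent matrix of large dimension over a point -/
theorem sig_dim {c₀ : I → K} (hc : FG k c₀) (m : ℕ) :
    ∃ (L : Type u) (_ : Field L) (_ : Algebra k L) (d : I ⊕ Fin m × Fin m → L),
      Spc k c₀ (d ∘ Sum.inl) ∧ tw p (Matrix.of fun i j => d (Sum.inr (i, j))) m = 0 ∧
        dm k c₀ + (m * m : ℕ) ≤ dm k d + m := by
  obtain ⟨Ω, _, _, c₁, y, h1, h2, hy⟩ := sig_generic (k := k) c₀ (Fin m × Fin m)
  have := charP_of_injective_algebraMap (algebraMap k K).injective p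
  let Y : Matrix (Fin m) (Fin m) (MvPolynomial (I ⊕ Fin m × Fin m) k) :=
    Matrix.of fun i j => X (Sum.inr (i, j))
  let w : ℕ → Fin m → MvPolynomial (I ⊕ Fin m × Fin m) k := fun r =>
    (ph p Y)^[r] fun i => if i.1 = 0 then 1 else 0
  have hw : ∀ {L : Type u} [Field L] [Algebra k L] (c : I ⊕ Fin m × Fin m → L) (r),
      (fun i => aeval c (w r i)) = (ph p (Matrix.of fun i j => c (Sum.inr (i, j))))^[r]
        fun i => if i.1 = 0 then 1 else 0 := fun c r => by
    rw [ph_iter_map]
    congr 2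
    · ext i j
      simp [Y]
    · ext i
      simp [apply_ite (aeval c)]
  let c₂ : I ⊕ Fin m × Fin m → K := Sum.elim c₀ fun s => if s.1.1 = s.2.1 + 1 then 1 else 0
  have h₀ : ∀ r i, aeval c₂ (w r i) = if i.1 = r then 1 else 0 := fun r i => by
    cases m with
    | zero => exact i.elim0
    | succ m => exact congrFun ((hw c₂ r).trans (shift_iter p r)) i
  obtain ⟨L, _, _, _, d, h3, h4, h5, h6⟩ := krull ((hc.spc h1).sum (FG.of_finite y))
    (c₀ := c₂) (h2.generic hy _) (w m) fun i => by rw [h₀, if_neg i.2.ne]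
  have := charP_of_injective_algebraMap (algebraMap k L).injective p
  refine ⟨L, _, _, d, h1.trans (h3.comp Sum.inl), tw_zero_of_cyclic p
    (v := fun i => if i.1 = 0 then 1 else 0) (fun j => j.1) (fun e => ?_) ?_, ?_⟩
  · have h7 := h4 (Matrix.of fun i j : Fin m => w j.1 i).det (by
      rw [AlgHom.map_det, ← e]
      congr 1
      ext i j
      exact congrFun (hw d j.1) i)
    have e : (aeval c₂ : _ →ₐ[k] K).mapMatrix (Matrix.of fun i j : Fin m => w j.1 i) = 1 := by
      ext i j
      exact (h₀ j.1 i).trans (by simp [Matrix.one_apply, Fin.ext_iff])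
    rw [AlgHom.map_det, e, Matrix.det_one] at h7
    exact one_ne_zero h7
  · rw [← hw]
    exact funext h5
  · rw [Nat.card_eq_fintype_card, Fintype.card_fin] at h6
    refine le_trans ?_ h6
    rw [dm, dm, Set.Sum.elim_range, rk_union, ← finProdFinEquiv.symm.surjective.range_comp y,
      rk_range_of_indep (hy.comp _ finProdFinEquiv.symm.injective)]
    exact add_le_add h2.dm_le le_rfl

theorem purity (Φ : Matrix G G (MvPolynomial I k)) {c₀ : I → K} {c : I → K'} (hc : FG k c₀)
    (h : Spc k c₀ c) (hn : SNil p (Φ.map (aeval c))) :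
    ∃ (Ω : Type u) (_ : Field Ω) (_ : Algebra k Ω) (_ : IsAlgClosed Ω) (c' : I → Ω),
      Spc k c₀ c' ∧ Spc k c' c ∧ SNil p (Φ.map (aeval c')) ∧
        dm k c₀ ≤ dm k c' + Fintype.card G := by
  have := charP_of_injective_algebraMap (algebraMap k K').injective p
  obtain ⟨m, hm⟩ : ∃ m, Fintype.card G = m := ⟨_, rfl⟩
  have ε := (Fintype.equivFinOfCardEq hm).symm
  rw [SNil, sig_tw, hm, ← sig_sub_zero ε] at hn
  obtain ⟨Ω, _, _, e, h1, h2, h3⟩ := sig_univ (p := p) (k := k) c₀ m
  obtain ⟨L, _, _, d, h4, h5, h6⟩ := sig_dim (p := p) hc m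
  have hF : FG k e := by
    have := (hc.spc h1).sum (FG.of_finite (e ∘ Sum.inr))
    rwa [Sum.elim_comp_inl_inr] at this
  have hr : ∀ {A : Type u} [Field A] [Algebra k A] (x : I ⊕ Fin m × Fin m → A)
      (f : MvPolynomial I k), aeval x (rename Sum.inl f) = aeval (x ∘ Sum.inl) f :=
    fun x f => aeval_rename _ _ _
  obtain ⟨A, _, _, _, x, h7, h8, h9, h10⟩ := krull hF
    (h3 K' (Sum.elim c fun s => aeval c (Φ (ε s.1) (ε s.2))) h hn)
    (fun s : Fin m × Fin m => X (Sum.inr s) - rename Sum.inl (Φ (ε s.1) (ε s.2))) fun s => by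
      rw [map_sub, hr, aeval_X]
      exact sub_self _
  have hx : ∀ s, x (Sum.inr s) = aeval (x ∘ Sum.inl) (Φ (ε s.1) (ε s.2)) := fun s => by
    have := h9 s
    rwa [map_sub, hr, aeval_X, sub_eq_zero] at this
  refine ⟨A, _, _, inferInstance, x ∘ Sum.inl, h1.trans (h7.comp Sum.inl), h8.comp Sum.inl, ?_, ?_⟩
  · rw [SNil, sig_tw, hm, ← sig_sub_zero ε, ← sig_spc h7 h2]
    congr 1
    ext i j
    exact (hx (i, j)).symm
  · have h11 : dm k x ≤ dm k (x ∘ Sum.inl) := rk_le_of_mem (by
      rintro _ ⟨i | s, rfl⟩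
      · exact IntermediateField.subset_adjoin _ _ ⟨i, rfl⟩
      · refine IntermediateField.algebra_adjoin_le_adjoin _ _ ?_
        rw [hx, Algebra.adjoin_range_eq_range_aeval]
        exact ⟨_, rfl⟩)
    rw [Nat.card_eq_fintype_card, Fintype.card_prod, Fintype.card_fin] at h10
    have h12 := h6.trans (add_le_add ((h3 L d h4 h5).dm_le.trans
      (h10.trans (add_le_add h11 le_rfl))) le_rfl)
    rw [add_right_comm] at h12
    rw [hm]
    exact (ENat.add_le_add_iff_right (ENat.natCast_ne_top _)).1 h12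

end PR0
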