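import Pool.Agent.Work.MP_da2620_ag.LS
import Pool.Agent.Work.MP_da2620_ag.Sig

/-!
# Logarithmic derivatives of Laurent series; fixed linear forms

`dx = d / d(1/t) = - t² d/dt`.  Write `η = ∑ c n t ^ (n + 1)`, `c n = η.cf (n + 1)`.  For `u = 1 - a t ^ m`,
`dx u / u = m ∑_(j ≥ 1) a ^ j t ^ (m j + 1)`; for `u = t ^ m`, `dx u / u = - m t`.  In both cases `c (p n) = (c n) ^ p` (for the first:
`c n = m a ^ (n / m)` if `m ∣ n`; if `m ∣ p n` but `m ∤ n` then `p ∣ m`, and `m ^ p = m`).  `Car` is additive.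
`car_dlog`: modulo `t ^ N` every unit series is `c ∏_(m < N) (1 - a m t ^ m)` (recursion on `m`), and `dx u / u` modulo
`t ^ (N + 1)` only depends on `u` modulo `t ^ N`.
`exists_dlog`: choose `a m` recursively such that `η - ∑_(m ≤ N) dlog (1 - a m t ^ m)` has `c n = 0` for `n ≤ N`: for
`p ∤ N` choose `a N`, for `N = p n` the coefficient vanishes by `Car`; the products converge coefficientwise.
`exists_form`: among the subspaces `V'` stable under `φ = sapp p M` such that `φ` is not nilpotent on the quotient take one of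
maximal dimension.  On `W = V / V'` the vectors killed by a power of `φ` form a stable subspace with non nilpotent quotient,
so it is zero, and `φ` is bijective on `W`; for a fixed vector `w ≠ 0` (`exists_fixed` for a matrix of `φ` on `W`) the quotient
`W / K w` is nilpotent with `φ` surjective, so zero.  (Any other proof is fine.)
-/

namespace PR0

universe u

variable {K : Type u} [Field K] (p : ℕ) [Fact p.Prime] [CharP K p]

/-- Fixed by the Cartier operator. -/
def Car (η : LS K) : Prop := ∀ n : ℤ, η.cf (p * n + 1) = η.cf (n + 1) ^ p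

theorem PicA_add {η η' : LS K} (h : Car p η) (h' : Car p η') : Car p (η + η') := fun n => by
  rw [LS.cf_add, LS.cf_add, h n, h' n, add_pow_char]

theorem PicA_sub {η η' : LS K} (h : Car p η) (h' : Car p η') : Car p (η - η') := fun n => by
  rw [LS.cf_sub, LS.cf_sub, h n, h' n, sub_pow_char]

theorem PicA_mul {u v : LS K} (hu : u ≠ 0) (hv : v ≠ 0) :
    LS.dx (u * v) / (u * v) = LS.dx u / u + LS.dx v / v := by
  rw [Derivation.leibniz, smul_eq_mul, smul_eq_mul]
  field_simp
  ring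

theorem PicA_ge_dx {f : LS K} {n : ℤ} (h : f.Ge n) : (LS.dx f).Ge (n + 1) := fun m hm => by
  rw [LS.cf_dx, h _ (by omega), mul_zero]

theorem PicA_cf_one (m : ℤ) : (1 : LS K).cf m = if m = 0 then 1 else 0 := LS.cf_T 0 m

theorem PicA_ge_sub {f g : LS K} {n : ℤ} (h : f.Ge n) (h' : g.Ge n) : (f - g).Ge n :=
  fun k hk => by rw [LS.cf_sub, h k hk, h' k hk, sub_zero]

theorem PicA_unit {v : LS K} (h : (v - 1).Ge 1) :
    v ≠ 0 ∧ v.Ge 0 ∧ v⁻¹.Ge 0 ∧ v⁻¹.cf 0 = 1 := by
  have h0 : v.cf 0 = 1 := by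
    have := h 0 one_pos
    rwa [LS.cf_sub, PicA_cf_one, if_pos rfl, sub_eq_zero] at this
  have h1 : v.Ge 0 := fun m hm => by
    have := h m (by omega)
    rwa [LS.cf_sub, PicA_cf_one, if_neg hm.ne, sub_zero] at this
  obtain ⟨g, hg, e⟩ := LS.exists_inv h1 (by rw [h0]; exact isUnit_one)
  rw [neg_zero] at hg
  have h2 := LS.cf_mul_lead h1 hg
  rw [e, h0, one_mul, add_zero, PicA_cf_one, if_pos rfl] at h2
  rw [← eq_inv_of_mul_eq_one_right e]
  exact ⟨left_ne_zero_of_mul_eq_one e, h1, hg, h2.symm⟩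

theorem PicA_ge_dlog {v : LS K} {n : ℤ} (hn : 1 ≤ n) (h : (v - 1).Ge n) :
    (LS.dx v / v).Ge (n + 1) := by
  have h1 := PicA_ge_dx h
  rw [map_sub, Derivation.map_one_eq_zero, sub_zero] at h1
  have h2 := h1.mul (PicA_unit (h.mono hn)).2.2.1
  rwa [add_zero, ← div_eq_mul_inv] at h2

theorem PicA_w (a : K) (m : ℤ) : ((1 - a • LS.T K m) - 1).Ge m := by
  rw [sub_sub_cancel_left]
  exact ((LS.ge_T m).smul a).neg

theorem PicA_mono {c : K} (hc : c ≠ 0) (n : ℤ) :
    c • LS.T K n ≠ 0 ∧ Car p (LS.dx (c • LS.T K n) / (c • LS.T K n)) := by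
  have h0 : c • LS.T K n ≠ 0 := fun h => by
    have := congrArg (fun f : LS K => f.cf n) h
    simp only [LS.cf_smul, LS.cf_T, if_true, mul_one, LS.cf_zero] at this
    exact hc this
  refine ⟨h0, ?_⟩
  have e : LS.dx (c • LS.T K n) / (c • LS.T K n) = (-(n : K)) • LS.T K 1 := by
    rw [div_eq_iff h0, smul_mul_assoc]
    ext m
    simp only [LS.cf_dx, LS.cf_smul, LS.cf_T_mul, LS.cf_T]
    split_ifs with h
    · rw [h]
    · simp
  have hp : (p : ℤ) ≠ 0 := by exact_mod_cast (Fact.out : p.Prime).ne_zero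
  rw [e]
  intro k
  simp only [LS.cf_smul, LS.cf_T, add_eq_right, mul_eq_zero, hp, false_or]
  split_ifs with h
  · rw [mul_one, ← Int.cast_neg]
    exact (map_intCast (frobenius K p) (-n)).symm
  · rw [mul_zero, zero_pow (Fact.out : p.Prime).ne_zero]

theorem PicA_geom (a : K) {m : ℕ} (hm : 0 < m) :
    Car p (LS.dx (1 - a • LS.T K m) / (1 - a • LS.T K m)) := by
  have hp := (Fact.out : p.Prime)
  have hm' : (0 : ℤ) < m := by exact_mod_cast hm
  obtain ⟨c, hc1, hc0⟩ : ∃ c : ℤ → K, (∀ j : ℕ, c (m * (j + 1)) = m * a ^ (j + 1)) ∧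
      ∀ n : ℤ, (∀ j : ℕ, n ≠ m * (j + 1)) → c n = 0 := by
    refine ⟨fun n => if (m : ℤ) ∣ n ∧ 0 < n then m * a ^ (n / m).toNat else 0, fun j => ?_,
      fun n hn => if_neg ?_⟩
    · simp only
      rw [if_pos ⟨dvd_mul_right _ _, by positivity⟩, Int.mul_ediv_cancel_left _ hm'.ne']
      rfl
    · rintro ⟨⟨k, rfl⟩, hk⟩
      have hk' : 0 < k := pos_of_mul_pos_right hk hm'.le
      exact hn (k - 1).toNat (by rw [Int.toNat_of_nonneg (by omega), sub_add_cancel])
  have hpos : ∀ n ≤ 0, c n = 0 := fun n hn => hc0 n fun j h => by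
    have : (0 : ℤ) < m * (j + 1) := by positivity
    omega
  obtain ⟨η, hη⟩ := LS.exists_cf (fun k => c (k - 1)) 0 fun k hk => hpos _ (by omega)
  have e : LS.dx (1 - a • LS.T K m) / (1 - a • LS.T K m) = η := by
    rw [div_eq_iff (PicA_unit ((PicA_w a m).mono (by omega))).1, mul_sub, mul_one, mul_smul_comm,
      mul_comm η]
    ext k
    simp only [LS.cf_dx, LS.cf_sub, LS.cf_smul, LS.cf_T_mul, LS.cf_T, PicA_cf_one, hη]
    generalize hn : k - 1 = n
    rw [show k - m - 1 = n - m by omega]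
    by_cases h : ∃ j : ℕ, n = m * (j + 1)
    · obtain ⟨j, rfl⟩ := h
      rw [hc1, if_neg (by positivity)]
      cases j with
      | zero => simp [hpos 0 le_rfl]
      | succ j =>
        have h1 : (0 : ℤ) < m * (j + 1) := by positivity
        rw [show (m : ℤ) * ((j + 1 : ℕ) + 1) - m = m * (j + 1) by push_cast; ring, hc1,
          if_neg (by push_cast; nlinarith)]
        ring
    · push Not at h
      rw [hc0 n h, hc0 (n - m) fun j hj => h (j + 1) (by push_cast; linarith),
        if_neg (show ¬ n = m by simpa using h 0)]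
      split_ifs with h1
      · simp [h1]
      · simp
  rw [e]
  intro n
  rw [hη, hη, add_sub_cancel_right, add_sub_cancel_right]
  by_cases h : ∃ j : ℕ, n = m * (j + 1)
  · obtain ⟨j, rfl⟩ := h
    obtain ⟨i, hi⟩ : ∃ i : ℕ, (j + 1) * p = i + 1 :=
      Nat.exists_eq_succ_of_ne_zero (mul_ne_zero j.succ_ne_zero hp.ne_zero)
    have hi' : ((j : ℤ) + 1) * p = i + 1 := by exact_mod_cast hi
    rw [show (p : ℤ) * (m * (j + 1)) = m * (i + 1) by rw [← hi']; ring, hc1, hc1, mul_pow, ← pow_mul,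
      hi]
    congr 1
    exact (map_natCast (frobenius K p) m).symm
  · push Not at h
    rw [hc0 n h, zero_pow hp.ne_zero]
    by_cases h2 : ∃ j : ℕ, p * n = m * (j + 1)
    · obtain ⟨j, hj⟩ := h2
      rw [hj, hc1]
      by_cases h3 : p ∣ m
      · rw [(CharP.cast_eq_zero_iff K p m).2 h3, zero_mul]
      · exfalso
        have h4 : IsCoprime (m : ℤ) p := Nat.isCoprime_iff_coprime.2
          ((Nat.Prime.coprime_iff_not_dvd hp).2 h3).symm
        obtain ⟨k, rfl⟩ := h4.dvd_of_dvd_mul_left ⟨_, hj⟩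
        have hp' : (0 : ℤ) < p := by exact_mod_cast hp.pos
        have h5 : (0 : ℤ) < p * (m * k) := by rw [hj]; positivity
        have hk : 0 < k := pos_of_mul_pos_right (pos_of_mul_pos_right h5 hp'.le) hm'.le
        exact h (k - 1).toNat (by rw [Int.toNat_of_nonneg (by omega), sub_add_cancel])
    · push Not at h2
      exact hc0 _ h2

theorem PicA_fact {u : LS K} (hu : u ≠ 0) (N : ℕ) : ∃ w v : LS K, w ≠ 0 ∧ Car p (LS.dx w / w) ∧
    u = w * v ∧ (v - 1).Ge (N + 1) := by
  induction N with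
  | zero =>
    have h1 : u.Ge u.ser.order := fun _ hm => HahnSeries.coeff_eq_zero_of_lt_order hm
    have h2 : u.cf u.ser.order ≠ 0 := HahnSeries.coeff_order_eq_zero.not.2 hu
    generalize u.ser.order = n at h1 h2
    obtain ⟨h3, h4⟩ := PicA_mono p h2 n
    refine ⟨_, (u.cf n)⁻¹ • (LS.T K (-n) * u), h3, h4, ?_, fun m hm => ?_⟩
    · rw [smul_mul_smul_comm, mul_inv_cancel₀ h2, one_smul, ← mul_assoc, ← LS.T_add, add_neg_cancel,
        LS.T_zero, one_mul]
    · rw [LS.cf_sub, LS.cf_smul, LS.cf_T_mul, PicA_cf_one]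
      split_ifs with h
      · rw [h, zero_sub, neg_neg, inv_mul_cancel₀ h2, sub_self]
      · rw [h1 (m - -n) (by omega), mul_zero, sub_zero]
  | succ N ih =>
    obtain ⟨w, v, hw, hc, rfl, hv⟩ := ih
    have h1 := PicA_unit ((PicA_w (-(v - 1).cf (N + 1)) (N + 1 : ℕ)).mono (by omega))
    have h2 := PicA_geom p (-(v - 1).cf (N + 1)) N.succ_pos
    have h3 : (v - (1 - (-(v - 1).cf (N + 1)) • LS.T K (N + 1 : ℕ))).Ge ((N + 1 : ℕ) + 1) := by
      intro m hm
      rw [← sub_add, LS.cf_add, LS.cf_smul, LS.cf_T]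
      split_ifs with h
      · rw [h]
        push_cast
        ring
      · rw [hv m (by omega), mul_zero, add_zero]
    generalize 1 - (-(v - 1).cf (N + 1)) • LS.T K (N + 1 : ℕ) = y at h1 h2 h3
    refine ⟨w * y, v * y⁻¹, mul_ne_zero hw h1.1, ?_, ?_, ?_⟩
    · rw [PicA_mul hw h1.1]
      exact PicA_add p hc h2
    · rw [mul_assoc, mul_left_comm y, mul_inv_cancel₀ h1.1, mul_one]
    · have h4 := h3.mul h1.2.2.1
      rwa [add_zero, sub_mul, mul_inv_cancel₀ h1.1] at h4

theorem car_dlog {u : LS K} (hu : u ≠ 0) : Car p (LS.dx u / u) := by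
  intro n
  obtain ⟨w, v, hw, hc, rfl, hv⟩ := PicA_fact p hu ((p * n).natAbs + n.natAbs)
  have h1 := PicA_ge_dlog (by omega) hv
  rw [PicA_mul hw (right_ne_zero_of_mul hu), LS.cf_add, LS.cf_add, h1 _ (by omega), h1 _ (by omega),
    add_zero, add_zero, hc n]

theorem PicA_step {η u : LS K} (h : Car p η) (N : ℕ) (h1 : (u - 1).Ge 1)
    (h2 : (η - LS.dx u / u).Ge (N + 2)) : ∃ u' : LS K, ((u' - 1).Ge 1 ∧
      (η - LS.dx u' / u').Ge ((N + 1 : ℕ) + 2)) ∧ (u' - u).Ge (N + 1) := by
  have hp := (Fact.out : p.Prime)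
  have hu := PicA_unit h1
  by_cases hd : p ∣ N + 1
  · refine ⟨u, ⟨h1, fun m hm => ?_⟩, by rw [sub_self]; exact fun _ _ => rfl⟩
    by_cases e : m = N + 2
    · obtain ⟨n, hn⟩ := hd
      have hn' : (N : ℤ) + 1 = p * n := by exact_mod_cast hn
      have h3 : n < N + 1 := by
        have h4 : n ≠ 0 := by rintro rfl; simp at hn
        rw [hn]
        exact lt_mul_left (Nat.pos_of_ne_zero h4) hp.one_lt
      rw [show m = p * n + 1 by omega, PicA_sub p h (car_dlog p hu.1) n, h2 _ (by omega),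
        zero_pow hp.ne_zero]
    · exact h2 m (by omega)
  · have hm : ((N + 1 : ℕ) : K) ≠ 0 := fun h0 => hd ((CharP.cast_eq_zero_iff K p _).1 h0)
    obtain ⟨a, ha⟩ : ∃ a : K, ((N + 1 : ℕ) : K) * a = (η - LS.dx u / u).cf (N + 2) :=
      ⟨_, mul_div_cancel₀ _ hm⟩
    have h3 := PicA_w a (N + 1)
    have h4 := PicA_unit (h3.mono (by omega))
    have h5 := PicA_ge_dlog (by omega) h3
    have h6 := PicA_ge_dx h3
    rw [map_sub, Derivation.map_one_eq_zero, sub_zero] at h6
    have h7 := LS.cf_mul_lead h6 h4.2.2.1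
    rw [← div_eq_mul_inv, h4.2.2.2, mul_one, add_zero, LS.cf_dx, add_sub_cancel_right, LS.cf_sub,
      LS.cf_smul, LS.cf_T, if_pos rfl, PicA_cf_one, if_neg (by omega)] at h7
    generalize 1 - a • LS.T K (N + 1) = y at h3 h4 h5 h7
    have h8 : (u * y - u).Ge (N + 1) := by
      have h9 := hu.2.1.mul h3
      rwa [zero_add, mul_sub, mul_one] at h9
    refine ⟨u * y, ⟨?_, fun m hm => ?_⟩, h8⟩
    · have h9 := (h8.mono (show (1 : ℤ) ≤ N + 1 by omega)).add h1
      rwa [sub_add_sub_cancel] at h9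
    · rw [PicA_mul hu.1 h4.1, ← sub_sub, LS.cf_sub]
      by_cases e : m = N + 2
      · rw [e, ← ha, show (N : ℤ) + 2 = N + 1 + 1 by ring, h7]
        push_cast
        ring
      · rw [h2 m (by omega), h5 m (by omega), sub_zero]

theorem exists_dlog {η : LS K} (h : Car p η) (h2 : η.Ge 2) : ∃ u : LS K, u ≠ 0 ∧ LS.dx u = η * u := by
  choose f hf hf' using fun (N : ℕ) (u : LS K)
    (hu : (u - 1).Ge 1 ∧ (η - LS.dx u / u).Ge (N + 2)) => PicA_step p h N hu.1 hu.2
  let s : ∀ N : ℕ, {u : LS K // (u - 1).Ge 1 ∧ (η - LS.dx u / u).Ge (N + 2)} := fun N =>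
    Nat.rec ⟨1, by rw [sub_self]; exact fun _ _ => rfl, by simpa using h2⟩
      (fun N u => ⟨f N u.1 u.2, hf N u.1 u.2⟩) N
  have hs : ∀ N : ℕ, ((s (N + 1)).1 - (s N).1).Ge (N + 1) := fun N => hf' N (s N).1 (s N).2
  have hs' : ∀ N k : ℕ, ((s (N + k)).1 - (s N).1).Ge (N + 1) := fun N k => by
    induction k with
    | zero => rw [add_zero, sub_self]; exact fun _ _ => rfl
    | succ k ih =>
      have h3 := ((hs (N + k)).mono (show (N : ℤ) + 1 ≤ (N + k : ℕ) + 1 by omega)).add ih
      rwa [sub_add_sub_cancel] at h3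
  obtain ⟨u, hu⟩ := LS.exists_cf (fun k => (s k.toNat).1.cf k) 0
    fun k hk => (PicA_unit (s k.toNat).2.1).2.1 k hk
  have h3 : ∀ N : ℕ, (u - (s N).1).Ge (N + 1) := fun N m hm => by
    obtain ⟨k, hk⟩ : ∃ k, N = m.toNat + k := Nat.exists_eq_add_of_le (by omega)
    have h4 := hs' m.toNat k m (by omega)
    rw [← hk, LS.cf_sub, sub_eq_zero] at h4
    rw [LS.cf_sub, hu, h4, sub_self]
  refine ⟨u, (PicA_unit ?_).1, sub_eq_zero.1 (LS.eq_zero_of_ge fun n => ?_)⟩
  · have h4 := (h3 0).add (s 0).2.1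
    rwa [sub_add_sub_cancel] at h4
  · have h4 := PicA_unit (s n.toNat).2.1
    have h5 := (s n.toNat).2.2.mul h4.2.1
    rw [sub_mul, div_mul_cancel₀ _ h4.1] at h5
    have h6 := PicA_ge_sub (PicA_ge_sub ((PicA_ge_dx (h3 n.toNat)).mono (show n ≤ _ by omega))
      ((h2.mul (h3 n.toNat)).mono (show n ≤ _ by omega))) (h5.mono (show n ≤ _ by omega))
    rw [map_sub] at h6
    convert h6 using 1
    ring

omit [CharP K p] in
theorem cf_dlog {u : LS K} {n : ℤ} (h : u.Ge n) (h' : u.cf n ≠ 0) :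
    (LS.dx u / u).Ge 1 ∧ (LS.dx u / u).cf 1 = -n := by
  obtain ⟨g, hg, e⟩ := LS.exists_inv h (IsUnit.mk0 _ h')
  have h1 := (PicA_ge_dx h).mul hg
  have h2 := LS.cf_mul_lead (PicA_ge_dx h) hg
  have h3 := LS.cf_mul_lead h hg
  rw [e, add_neg_cancel, PicA_cf_one, if_pos rfl] at h3
  rw [show n + 1 + -n = 1 by ring] at h1 h2
  rw [LS.cf_dx, add_sub_cancel_right, mul_assoc, ← h3, mul_one] at h2
  rw [div_eq_mul_inv, ← eq_inv_of_mul_eq_one_right e]
  exact ⟨h1, h2⟩

theorem car_iff {η : LS K} : Car p η ↔ ∀ F : LS K, (F ^ p * η).cf 1 = (F * η).cf 1 ^ p := by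
  have hp := (Fact.out : p.Prime)
  refine ⟨fun h F => ?_, fun h n => ?_⟩
  · obtain ⟨N, hN⟩ := LS.exists_ge η
    have key : ∀ (k : ℕ) (F : LS K), F.Ge (N + 2 - k) →
        (F ^ p * η).cf 1 = (F * η).cf 1 ^ p := by
      intro k
      induction k with
      | zero =>
        intro F hF
        have h1 : (1 : ℤ) ≤ p := by exact_mod_cast hp.one_le
        rw [(hF.mul hN) 1 (by omega), ((hF.pow p).mul hN) 1 (by push_cast; nlinarith),
          zero_pow hp.ne_zero]
      | succ k ih =>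
        intro F hF
        generalize hj : (N : ℤ) + 2 - (k + 1 : ℕ) = j at hF
        have h1 := ih (F - F.cf j • LS.T K j) fun m hm => by
          rw [LS.cf_sub, LS.cf_smul, LS.cf_T]
          split_ifs with e
          · rw [e, mul_one, sub_self]
          · rw [hF m (by omega), mul_zero, sub_zero]
        have h2 := h (-j)
        rw [sub_pow_char, sub_mul, sub_mul, smul_pow, LS.T_pow, smul_mul_assoc, smul_mul_assoc,
          LS.cf_sub, LS.cf_sub, LS.cf_smul, LS.cf_smul, LS.cf_T_mul, LS.cf_T_mul, sub_pow_char,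
          mul_pow, show 1 - (p : ℤ) * j = p * -j + 1 by ring, show 1 - j = -j + 1 by ring, h2] at h1
        exact sub_left_injective h1
    obtain ⟨M, hM⟩ := LS.exists_ge F
    exact key (N + 2 + M) F (hM.mono (by omega))
  · have h1 := h (LS.T K (-n))
    rwa [LS.T_pow, LS.cf_T_mul, LS.cf_T_mul, show 1 - (p : ℤ) * -n = p * n + 1 by ring,
      show 1 - -n = n + 1 by ring] at h1

/-- The map of a matrix as a semilinear map. -/
def PicA_sl {G : Type} [Fintype G] [DecidableEq G] (M : Matrix G G K) :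
    (G → K) →ₛₗ[frobenius K p] (G → K) where
  toFun := sapp p M
  map_add' v w := by
    unfold sapp
    rw [← Matrix.mulVec_add]
    congr 1
    funext i
    exact add_pow_char _ _ _
  map_smul' c v := by
    unfold sapp
    rw [← Matrix.mulVec_smul]
    congr 1
    funext i
    exact mul_pow _ _ _

theorem exists_form [IsAlgClosed K] {G : Type} [Fintype G] [DecidableEq G] {M : Matrix G G K}
    (h : ¬ SNil p M) : ∃ l : (G → K) →ₗ[K] K, l ≠ 0 ∧ ∀ v, l (sapp p M v) = l v ^ p := by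
  have hp := (Fact.out : p.Prime)
  have ha : ∀ n v w, (sapp p M)^[n] (v + w) = (sapp p M)^[n] v + (sapp p M)^[n] w := fun n v w => by
    simp only [iterate_sapp, ← Matrix.mulVec_add]
    congr 1
    funext i
    exact add_pow_char_pow _ _ _ _
  have hs : ∀ n (c : K) v, (sapp p M)^[n] (c • v) = c ^ p ^ n • (sapp p M)^[n] v := fun n c v => by
    simp only [iterate_sapp, ← Matrix.mulVec_smul]
    congr 1
    funext i
    exact mul_pow _ _ _
  have h0 : ∀ n, (sapp p M)^[n] 0 = 0 := fun n =>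
    Function.iterate_fixed (map_zero (PicA_sl p M)) n
  let N : Submodule K (G → K) :=
    { carrier := {v | ∃ n, (sapp p M)^[n] v = 0}
      zero_mem' := ⟨0, rfl⟩
      add_mem' := by
        rintro v w ⟨n, hn⟩ ⟨m, hm⟩
        refine ⟨n + m, ?_⟩
        rw [ha, Function.iterate_add_apply _ n m w, hm, h0, add_comm n, Function.iterate_add_apply,
          hn, h0, add_zero]
      smul_mem' := by
        rintro c v ⟨n, hn⟩
        exact ⟨n, by rw [hs, hn, smul_zero]⟩ }
  have hN : N ≤ N.comap (PicA_sl p M) := by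
    rintro v ⟨n, hn⟩
    refine ⟨n, ?_⟩
    change (sapp p M)^[n] (sapp p M v) = 0
    rw [← Function.iterate_succ_apply, Function.iterate_succ_apply', hn]
    exact h0 1
  let Φ := N.mapQ N (PicA_sl p M) hN
  have hΦ : ∀ v, Φ (N.mkQ v) = N.mkQ (sapp p M v) := fun v => rfl
  have hinj : ∀ w, Φ w = 0 → w = 0 := fun w hw => by
    obtain ⟨v, rfl⟩ := N.mkQ_surjective w
    rw [hΦ, Submodule.mkQ_apply, Submodule.Quotient.mk_eq_zero] at hw
    obtain ⟨n, hn⟩ := hw
    exact (Submodule.Quotient.mk_eq_zero N).2 ⟨n + 1, hn⟩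
  let b := Module.finBasis K ((G → K) ⧸ N)
  let A : Matrix _ _ K := Matrix.of fun i j => b.repr (Φ (b j)) i
  have hA : ∀ w, (b.repr (Φ w) : _ → K) = A.mulVec fun j => b.repr w j ^ p := fun w => by
    funext i
    have h1 : Φ w = ∑ j, b.repr w j ^ p • Φ (b j) := by
      conv_lhs => rw [← b.sum_repr w, map_sum]
      exact Finset.sum_congr rfl fun j _ => Φ.map_smulₛₗ _ _
    rw [h1, map_sum, Finsupp.finsetSum_apply]
    exact Finset.sum_congr rfl fun j _ => by
      rw [map_smul, Finsupp.smul_apply, smul_eq_mul, mul_comm]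
      rfl
  have hdet : A.det ≠ 0 := fun hd => by
    obtain ⟨c, hc, hc'⟩ := Matrix.exists_mulVec_eq_zero_iff.2 hd
    choose d hd' using fun j => IsAlgClosed.exists_pow_nat_eq (c j) hp.pos
    have h1 := hA (b.equivFun.symm d)
    have h2 : ∀ j, b.repr (b.equivFun.symm d) j = d j := fun j =>
      congrFun (b.equivFun.apply_symm_apply d) j
    simp only [h2, hd'] at h1
    have h3 := hinj _ (b.repr.map_eq_zero_iff.1 (DFunLike.coe_injective (h1.trans hc')))
    refine hc (funext fun j => ?_)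
    rw [← hd', ← h2, h3]
    simp [hp.ne_zero]
  have hu : IsUnit A.transpose.det := by rw [Matrix.det_transpose]; exact hdet.isUnit
  have hB : ∀ v, A.transpose.mulVec (sapp p A.transpose⁻¹ v) = fun i => v i ^ p := fun v => by
    rw [sapp, Matrix.mulVec_mulVec, Matrix.mul_nonsing_inv _ hu, Matrix.one_mulVec]
  have hnil : ¬ SNil p A.transpose⁻¹ := fun hn => by
    refine h ((snil_iff M).2 fun v => ?_)
    have h1 : ∀ n w, (sapp p A.transpose⁻¹)^[n] w = 0 → w = 0 := fun n => by
      induction n with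
      | zero => exact fun w hw => hw
      | succ n ih =>
        intro w hw
        have h2 := hB w
        rw [ih _ hw, Matrix.mulVec_zero] at h2
        exact funext fun i => pow_eq_zero_iff hp.ne_zero |>.1 (congrFun h2 i).symm
    obtain ⟨n, hn⟩ := (snil_iff _).1 hn (b.repr (N.mkQ v))
    exact (Submodule.Quotient.mk_eq_zero N).1
      (b.repr.map_eq_zero_iff.1 (DFunLike.coe_injective (h1 n _ hn)))
  obtain ⟨a, ha0, ha1⟩ := exists_fixed hnil
  have h1 := hB a
  rw [ha1] at h1
  refine ⟨(∑ i, a i • b.coord i) ∘ₗ N.mkQ, fun hl => ha0 (funext fun i => ?_), fun v => ?_⟩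
  · obtain ⟨v, hv⟩ := N.mkQ_surjective (b i)
    have h2 := LinearMap.congr_fun hl v
    rw [LinearMap.comp_apply, hv] at h2
    simpa [Finsupp.single_apply] using h2
  · have h2 : ∀ w, (∑ i, a i • b.coord i) w = a ⬝ᵥ (b.repr w : _ → K) := fun w => by
      simp [dotProduct]
    rw [LinearMap.comp_apply, LinearMap.comp_apply, ← hΦ, h2, h2, hA, Matrix.dotProduct_mulVec,
      ← Matrix.mulVec_transpose, h1, dotProduct, dotProduct, sum_pow_char]
    exact Finset.sum_congr rfl fun i _ => (mul_pow _ _ _).symm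

/-- If `∂ h = η h` has a nonzero solution in an extension, it has one in `L`.  (Both fields have the basis
`1, x, ..., x ^ (p - 1)` over the kernels of the derivations; the determinant of `∂ - η` vanishes.) -/
theorem exists_sol {L M : Type u} [Field L] [Field M] [Algebra K L] [Algebra K M] (e : L →ₐ[K] M)
    (D : Derivation K L L) (D' : Derivation K M M) (he : ∀ f, e (D f) = D' (e f)) {x : L} (hx : D x = 1)
    (hD : ∀ f, D^[p] f = 0) (hD' : ∀ f, D'^[p] f = 0) {η : L} {u : M} (hu : u ≠ 0)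
    (h : D' u = e η * u) : ∃ f : L, f ≠ 0 ∧ D f = η * f := by
  have _ := hx
  have _ := hD
  have h1 : ∀ k : ℕ, e ((fun f => D f - η * f)^[k] 1) = u * D'^[k] u⁻¹ := fun k => by
    induction k with
    | zero => simp [hu]
    | succ k ih =>
      rw [Function.iterate_succ_apply', Function.iterate_succ_apply', map_sub, map_mul, he, ih,
        Derivation.leibniz, h, smul_eq_mul, smul_eq_mul]
      ring
  by_contra hn
  push Not at hn
  have h2 : ∀ k : ℕ, (fun f => D f - η * f)^[k] 1 ≠ 0 := fun k => by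
    induction k with
    | zero => exact one_ne_zero
    | succ k ih =>
      rw [Function.iterate_succ_apply']
      exact sub_ne_zero.2 (hn _ ih)
  refine h2 p (e.toRingHom.injective ?_)
  exact (h1 p).trans (by rw [hD', mul_zero, map_zero])

theorem LS.iterate_dx (f : LS K) : (LS.dx : Derivation K (LS K) (LS K))^[p] f = 0 := by
  have h1 : ∀ (k : ℕ) (m : ℤ), ((LS.dx : Derivation K (LS K) (LS K))^[k] f).cf m =
      (∏ i ∈ Finset.range k, -((m - 1 - i : ℤ) : K)) * f.cf (m - k) := fun k => by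
    induction k with
    | zero => simp
    | succ k ih =>
      intro m
      rw [Function.iterate_succ_apply', LS.cf_dx, ih, Finset.prod_range_succ', ← mul_assoc,
        mul_comm (-((m - 1 : ℤ) : K))]
      congr 2
      · exact Finset.prod_congr rfl fun i _ => by congr 2; push_cast; ring
      · simp
      · push_cast; ring
  have hp : (0 : ℤ) < p := by exact_mod_cast (Fact.out : p.Prime).pos
  ext m
  have h2 := Int.emod_nonneg (m - 1) hp.ne'
  have h3 := Int.emod_lt_of_pos (m - 1) hp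
  rw [h1, Finset.prod_eq_zero (i := ((m - 1) % p).toNat) (Finset.mem_range.2 (by omega)), zero_mul,
    LS.cf_zero]
  rw [neg_eq_zero, CharP.intCast_eq_zero_iff K p, Int.toNat_of_nonneg h2]
  exact Int.dvd_self_sub_emod

end PR0
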