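import Pool.Agent.Work.MP_ffcd14_ag.Cyc.KR

/-!
# Field valued points: specialisation, dimension, Krull's theorem

A point is a family `c : I → K` of elements of a field over `k` (`I` may be infinite).
`rk k s` is the transcendence degree of the field generated by `s`.
Models: `Work/MP_ffcd14_ag/Cyc/Rk.lean` (rank lemmas, can be copied) and `Cyc/KR.lean` (`kr_many`,
`trdeg_drop`).  For `krull` reduce to the finite index type `I₀` given by `FG`: choose polynomials
`h i` in the variables `I₀` with `c i = h i (c)`; the map `MvPolynomial I₀ → MvPolynomial I / ker c`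
is onto; take the fraction field (then algebraic closure) of the prime found by `kr_many`.
-/

namespace PR0

open MvPolynomial

universe u

variable (k : Type u) [Field k]
variable {K K' K'' : Type u} [Field K] [Field K'] [Field K''] [Algebra k K] [Algebra k K']
  [Algebra k K''] {I I' : Type}

/-- Transcendence degree over `k` of the field generated by `s`. -/
noncomputable def rk (s : Set K) : ℕ∞ := (AlgebraicIndependent.matroid k K).eRk s

/-- Dimension of a point. -/
noncomputable def dm (c : I → K) : ℕ∞ := rk k (Set.range c)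

/-- `c` specialises to `c'` (rings allowed). -/
def Spc {R R' : Type u} [CommRing R] [CommRing R'] [Algebra k R] [Algebra k R']
    (c : I → R) (c' : I → R') : Prop :=
  ∀ f : MvPolynomial I k, aeval c f = 0 → aeval c' f = 0

/-- The coordinates of `c` generate a finitely generated algebra. -/
def FG {R : Type u} [CommRing R] [Algebra k R] (c : I → R) : Prop :=
  ∃ s : Finset I, ∀ i, c i ∈ Algebra.adjoin k (c '' s)

variable {k}

theorem Pt_mem_closure {s : Set K} {y : K} :
    y ∈ (AlgebraicIndependent.matroid k K).closure s ↔ IsAlgebraic (Algebra.adjoin k s) y := by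
  rw [AlgebraicIndependent.matroid_closure_eq]
  rfl

theorem Pt_comap (ψ : K →ₐ[k] K') :
    (AlgebraicIndependent.matroid k K').comap ψ = AlgebraicIndependent.matroid k K := by
  have hψ : Function.Injective ψ := ψ.toRingHom.injective
  refine Matroid.ext_indep (by simp) fun A _ => ?_
  rw [Matroid.comap_indep_iff, and_iff_left hψ.injOn]
  exact (algebraicIndependent_image (R := k) (f := ψ) hψ.injOn).symm.trans
    (ψ.algebraicIndependent_iff (x := fun x : A => (x : K)) hψ)

theorem rk_mono {s t : Set K} (h : s ⊆ t) : rk k s ≤ rk k t := (AlgebraicIndependent.matroid k K).eRk_mono h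

theorem rk_le_of_alg {s t : Set K} (h : ∀ y ∈ t, IsAlgebraic (Algebra.adjoin k s) y) :
    rk k t ≤ rk k s := by
  rw [rk, rk, ← Matroid.eRk_closure_eq _ s]
  exact (AlgebraicIndependent.matroid k K).eRk_mono fun y hy => Pt_mem_closure.2 (h y hy)

theorem rk_le_of_mem {s t : Set K} (h : ∀ y ∈ t, y ∈ IntermediateField.adjoin k s) :
    rk k t ≤ rk k s := by
  refine rk_le_of_alg fun y hy => IntermediateField.isAlgebraic_adjoin_iff.1 ?_
  exact isAlgebraic_algebraMap (⟨y, h y hy⟩ : IntermediateField.adjoin k s)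

theorem rk_union_le (s t : Set K) : rk k (s ∪ t) ≤ rk k s + rk k t :=
  Matroid.eRk_union_le_eRk_add_eRk _ s t

theorem rk_le_encard (s : Set K) : rk k s ≤ s.encard := Matroid.eRk_le_encard _ s

theorem rk_image (ψ : K →ₐ[k] K') (s : Set K) : rk k (ψ '' s) = rk k s := by
  rw [rk, rk, ← Matroid.eRk_comap, Pt_comap ψ]

theorem rk_insert {s : Set K} {y : K} (h : Transcendental (Algebra.adjoin k s) y) :
    rk k (insert y s) = rk k s + 1 :=
  Matroid.eRk_insert_eq_add_one ⟨Set.mem_univ _, fun h' => h (Pt_mem_closure.1 h')⟩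

theorem rk_insert_le (s : Set K) (y : K) : rk k (insert y s) ≤ rk k s + 1 :=
  Matroid.eRk_insert_le_add_one _ y s

theorem alg_of_rk_insert {s : Set K} {y : K} (hs : rk k s ≠ ⊤) (h : rk k (insert y s) ≤ rk k s) :
    IsAlgebraic (Algebra.adjoin k s) y := by
  by_contra hy
  rw [rk_insert hy] at h
  exact lt_irrefl _ ((ENat.add_one_le_iff hs).1 h)

theorem alg_trans {s t : Set K} {y : K} (h : ∀ z ∈ t, IsAlgebraic (Algebra.adjoin k s) z)
    (hy : IsAlgebraic (Algebra.adjoin k t) y) : IsAlgebraic (Algebra.adjoin k s) y :=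
  Pt_mem_closure.1 (Matroid.closure_subset_closure_of_subset_closure
    (fun z hz => Pt_mem_closure.2 (h z hz)) (Pt_mem_closure.2 hy))

/-- additivity in towers -/
theorem rk_union (s t : Set K) :
    rk k (s ∪ t) = rk k s + rk (IntermediateField.adjoin k s) t := by
  obtain ⟨A, hA⟩ := (AlgebraicIndependent.matroid k K).exists_isBasis s (Set.subset_univ _)
  obtain ⟨B, hB⟩ := (AlgebraicIndependent.matroid (IntermediateField.adjoin k s) K).exists_isBasis
    t (Set.subset_univ _)
  have hcl : ∀ X, (AlgebraicIndependent.matroid (IntermediateField.adjoin k s) K).closure X =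
      (AlgebraicIndependent.matroid k K).closure (A ∪ X) := fun X => by
    rw [Matroid.closure_union_congr_left hA.closure_eq_closure]
    ext y
    rw [Pt_mem_closure, Pt_mem_closure, ← IntermediateField.isAlgebraic_adjoin_iff,
      ← IntermediateField.isAlgebraic_adjoin_iff, ← IntermediateField.adjoin_adjoin_left]
    rfl
  have h1 : ∀ e ∈ B, e ∉ (AlgebraicIndependent.matroid k K).closure (A ∪ B \ {e}) :=
    fun e he => hcl _ ▸ hB.indep.notMem_closure_sdiff_of_mem he
  have hBi : (AlgebraicIndependent.matroid k K).Indep B :=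
    (Matroid.indep_iff_forall_notMem_closure_sdiff (Set.subset_univ _)).2 fun e he h =>
      h1 e he (Matroid.closure_subset_closure _ Set.subset_union_right h)
  have hi : (AlgebraicIndependent.matroid k K).Indep (A ∪ B) :=
    (hA.indep.union_indep_iff_forall_notMem_closure_right hBi).2 fun e he => h1 e he.1
  have hd : Disjoint A B := Set.disjoint_left.2 fun e heA heB =>
    h1 e heB (Matroid.mem_closure_of_mem' _ (Or.inl heA) (Set.mem_univ _))
  have hb : (AlgebraicIndependent.matroid k K).IsBasis (A ∪ B) (s ∪ t) :=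
    hi.isBasis_of_subset_of_subset_closure (Set.union_subset_union hA.subset hB.subset)
      (Set.union_subset
        (hA.subset_closure.trans (Matroid.closure_subset_closure _ Set.subset_union_left))
        (hcl B ▸ hB.subset_closure))
  rw [rk, rk, rk, hb.eRk_eq_encard, hA.eRk_eq_encard, hB.eRk_eq_encard, Set.encard_union_eq hd]

theorem rk_range_of_indep {n : ℕ} {y : Fin n → K} (h : AlgebraicIndependent k y) :
    rk k (Set.range y) = n := by
  have hi : (AlgebraicIndependent.matroid k K).Indep (Set.range y) :=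
    AlgebraicIndependent.matroid_indep_iff.2 h.to_subtype_range
  rw [rk, hi.eRk_eq_encard, ← Set.image_univ, h.injective.encard_image, Set.encard_univ]
  simp

theorem indep_of_rk {J : Type} [Finite J] {y : J → K} (h : (Nat.card J : ℕ∞) ≤ rk k (Set.range y)) :
    AlgebraicIndependent k y := by
  have hu : (Set.univ : Set J).encard = Nat.card J := by
    rw [Set.encard_univ, ENat.card_eq_coe_natCard]
  have h1 : (Set.range y).encard ≤ Nat.card J := by
    rw [← Set.image_univ, ← hu]
    exact Set.encard_image_le _ _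
  have h2 := rk_le_encard (k := k) (Set.range y)
  have hi : (AlgebraicIndependent.matroid k K).Indep (Set.range y) :=
    (Matroid.indep_iff_eRk_eq_encard_of_finite (Set.finite_range y)).2 (h2.antisymm (h1.trans h))
  have hinj : Function.Injective y := Set.injOn_univ.1
    (Set.finite_univ.injOn_of_encard_image_eq (by
      rw [Set.image_univ, hu]
      exact h1.antisymm (h.trans h2)))
  exact (algebraicIndependent_subtype_range hinj).1 (AlgebraicIndependent.matroid_indep_iff.1 hi)

theorem exists_indep_of_le_rk {s : Set K} {n : ℕ} (h : (n : ℕ∞) ≤ rk k s) :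
    ∃ y : Fin n → K, (∀ i, y i ∈ s) ∧ AlgebraicIndependent k y := by
  obtain ⟨A, hAs, hA, hn⟩ := Matroid.le_eRk_iff.1 h
  have hf : A.Finite := Set.finite_of_encard_eq_coe hn
  have := hf.to_subtype
  have hc : Nat.card A = n := by
    rw [Nat.card_coe_set_eq, Set.ncard_def, hn, ENat.toNat_natCast]
  let e : Fin n ≃ A := (Finite.equivFinOfCardEq hc).symm
  have hA' : AlgebraicIndependent k fun x : A => (x : K) :=
    AlgebraicIndependent.matroid_indep_iff.1 hA
  exact ⟨fun i => e i, fun i => hAs (e i).2, hA'.comp e e.injective⟩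

theorem le_rk_of_indep {s : Set K} {n : ℕ} {y : Fin n → K} (h : AlgebraicIndependent k y)
    (hs : ∀ i, IsAlgebraic (Algebra.adjoin k s) (y i)) : (n : ℕ∞) ≤ rk k s := by
  rw [← rk_range_of_indep h]
  exact rk_le_of_alg (Set.forall_mem_range.2 hs)

theorem rk_eq_zero_iff [IsAlgClosed k] {s : Set K} :
    rk k s = 0 ↔ s ⊆ Set.range (algebraMap k K) := by
  refine ⟨fun h y hy => ?_, fun h => ?_⟩
  · have hy' : IsAlgebraic k y := by_contra fun ht => by
      have h1 := rk_range_of_indep (algebraicIndependent_iff_transcendental.2 ht)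
      have h2 : rk k (Set.range ![y]) ≤ rk k s := rk_mono (by simpa using hy)
      rw [h1, h] at h2
      simp at h2
    exact minpoly.mem_range_of_degree_eq_one k y
      (IsAlgClosed.degree_eq_one_of_irreducible k (minpoly.irreducible hy'.isIntegral))
  · have h1 : rk k s ≤ rk k (∅ : Set K) := rk_le_of_mem fun y hy => by
      obtain ⟨a, rfl⟩ := h hy
      exact IntermediateField.algebraMap_mem _ a
    exact nonpos_iff_eq_zero.1 (h1.trans ((rk_le_encard _).trans_eq Set.encard_empty))

section
variable {R R' R'' : Type u} [CommRing R] [CommRing R'] [CommRing R''] [Algebra k R] [Algebra k R']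
  [Algebra k R'']
theorem Spc.refl (c : I → R) : Spc k c c := fun _ h => h
theorem Spc.trans {c : I → R} {c' : I → R'} {c'' : I → R''} (h : Spc k c c') (h' : Spc k c' c'') :
    Spc k c c'' := fun f hf => h' f (h f hf)
theorem Spc.map (c : I → R) (φ : R →ₐ[k] R') : Spc k c fun i => φ (c i) := fun f hf => by
  rw [← comp_aeval_apply, hf, map_zero]

theorem Spc.of_map (c : I → R) (φ : R →ₐ[k] R') (hφ : Function.Injective φ) :
    Spc k (fun i => φ (c i)) c := fun f hf => by
  rw [← comp_aeval_apply] at hf
  exact hφ (hf.trans (map_zero φ).symm)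

theorem Spc.comp {c : I → R} {c' : I → R'} (h : Spc k c c') (e : I' → I) :
    Spc k (c ∘ e) (c' ∘ e) := fun f hf => by
  rw [← aeval_rename] at hf ⊢
  exact h _ hf

/-- polynomial functions of the coordinates -/
theorem Spc.aeval {c : I → R} {c' : I → R'} (h : Spc k c c') (F : I' → MvPolynomial I k) :
    Spc k (fun j => aeval c (F j)) (fun j => aeval c' (F j)) := fun f hf => by
  rw [← comp_aeval_apply] at hf ⊢
  exact h _ hf

theorem Spc.exists_hom {c : I → R} {c' : I → R'} (h : Spc k c c') :
    ∃ φ : Algebra.adjoin k (Set.range c) →ₐ[k] R',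
      ∀ i, φ ⟨c i, Algebra.subset_adjoin ⟨i, rfl⟩⟩ = c' i := by
  let ψ : MvPolynomial I k →ₐ[k] Algebra.adjoin k (Set.range c) :=
    MvPolynomial.aeval fun i => ⟨c i, Algebra.subset_adjoin ⟨i, rfl⟩⟩
  have hψ : ∀ f, (ψ f : R) = MvPolynomial.aeval c f := fun f =>
    comp_aeval_apply _ (Algebra.adjoin k (Set.range c)).val f
  have hs : Function.Surjective ψ := fun y => by
    obtain ⟨f, hf⟩ := (Algebra.adjoin_range_eq_range_aeval k c).le y.2
    exact ⟨f, Subtype.ext ((hψ f).trans hf)⟩
  refine ⟨AlgHom.liftOfSurjective ψ hs (MvPolynomial.aeval c') fun f hf => h f ?_, fun i => ?_⟩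
  · rw [← hψ]
    exact congrArg Subtype.val hf
  · have e : ψ (X i) = ⟨c i, Algebra.subset_adjoin ⟨i, rfl⟩⟩ := aeval_X _ i
    rw [← e]
    exact (AlgHom.liftOfSurjective_apply ψ hs _ _ _).trans (aeval_X _ i)

theorem FG.spc {c : I → R} {c' : I → R'} (hc : FG k c) (h : Spc k c c') : FG k c' := by
  obtain ⟨s, hs⟩ := hc
  have key : ∀ {S : Type u} [CommRing S] [Algebra k S] (d : I → S), Algebra.adjoin k (d '' s) =
      (Algebra.adjoin k (X '' s)).map (MvPolynomial.aeval d : MvPolynomial I k →ₐ[k] S) :=
    fun d => by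
      rw [AlgHom.map_adjoin, Set.image_image]
      simp only [aeval_X]
  refine ⟨s, fun i => ?_⟩
  obtain ⟨f, hf, e⟩ := (key c).le (hs i)
  have h1 := h (f - X i) (by rw [map_sub, aeval_X]; exact sub_eq_zero.2 e)
  rw [map_sub, aeval_X, sub_eq_zero] at h1
  exact (key c').ge ⟨f, hf, h1⟩

theorem FG.of_finite [Finite I] (c : I → R) : FG k c :=
  ⟨Set.finite_univ.toFinset, fun i => Algebra.subset_adjoin ⟨i, by simp, rfl⟩⟩

theorem FG.sum {c : I → R} {c' : I' → R} (h : FG k c) (h' : FG k c') : FG k (Sum.elim c c') := by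
  obtain ⟨s, hs⟩ := h
  obtain ⟨s', hs'⟩ := h'
  refine ⟨s.disjSum s', ?_⟩
  rintro (i | i)
  · refine Algebra.adjoin_mono ?_ (hs i)
    rintro _ ⟨j, hj, rfl⟩
    exact ⟨Sum.inl j, by simpa using hj, rfl⟩
  · refine Algebra.adjoin_mono ?_ (hs' i)
    rintro _ ⟨j, hj, rfl⟩
    exact ⟨Sum.inr j, by simpa using hj, rfl⟩

theorem FG.finiteType {c : I → R} (h : FG k c) :
    Algebra.FiniteType k (Algebra.adjoin k (Set.range c)) := by
  obtain ⟨s, hs⟩ := h
  have e : Algebra.adjoin k (Set.range c) = Algebra.adjoin k (c '' s) :=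
    le_antisymm (Algebra.adjoin_le (Set.range_subset_iff.2 hs))
      (Algebra.adjoin_mono (Set.image_subset_range _ _))
  rw [e]
  exact (Subalgebra.fg_iff_finiteType _).1
    (Subalgebra.fg_def.2 ⟨_, s.finite_toSet.image c, rfl⟩)

end

end PR0
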