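import Pool.Agent.Work.MP_da2620_ag.Good
import Pool.Agent.Work.MP_da2620_ag.Gauss

/-!
# A chart over a valuation ring gives good reduction

Redo `exists_red` (copy `Gauss_val`, keeping that `e a ∈ w`, `ρ (e a) = e₀ a` for `a ∈ 𝒜`, and that every nonzero `f` is
`c · e a / e s` with `e₀ a, e₀ s ≠ 0`).  An element of `d.reg` (`mem_regOut_poles`, `poles_eq`) lying in `w` is in `e 𝒜`
(`Gauss_prim`); `𝒜` is finite over `O[x]` by `span_x`, and reduces onto `d₀.reg` (`Gauss_lift`).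
For `y = 1 / x`: `f` is integral over `K[y]` iff it is regular outside the zeros of `x` iff `x ^ n f ∈ d.reg` has poles of
order `≤ n` for some (all large) `n`.  Fix `n₀` above the levels of `J`; for `n ≥ n₀ + 1` one has
`lev 𝒜 (n + 1) = lev 𝒜 n + x lev 𝒜 n` (`mem_iff`, `pole_chi`), and `lev 𝒜 n` is spanned by `1` and the `chi μ`, `μ.2 < n`; so the ring
is spanned over `O[y]` by `y ^ n` times these elements, `n = n₀ + 1`.  Surjectivity by `exists_lift`.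
-/

namespace PR0

universe u

theorem Red_val {K κ : Type u} [Field K] [Field κ] {O : ValuationSubring K} {r : O →+* κ}
    {L L₀ B : Type u} [Field L] [Field L₀] [Algebra K L] [Algebra κ L₀] [CommRing B]
    (hr' : ∀ c : O, r c = 0 ↔ O.valuation c < 1) (j : O →+* B) (e : B →+* L) (e₀ : B →+* L₀)
    (he : Function.Injective e) (hj : ∀ c, e (j c) = algebraMap K L c)
    (hj₀ : ∀ c, e₀ (j c) = algebraMap κ L₀ (r c))
    (hp : ∀ f : L, f ≠ 0 → ∃ (c : K) (a s : B), e₀ a ≠ 0 ∧ e₀ s ≠ 0 ∧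
      f * e s = algebraMap K L c * e a)
    (hs : ∀ f : L₀, ∃ a s : B, e₀ s ≠ 0 ∧ f * e₀ s = e₀ a) :
    ∃ (w : ValuationSubring L) (ρ : w →+* L₀), Function.Surjective ρ ∧
      (∀ f : w, ρ f = 0 ↔ w.valuation f < 1) ∧ (∀ c : K, algebraMap K L c ∈ w ↔ c ∈ O) ∧
      ∀ b : B, ∃ hb : e b ∈ w, ρ ⟨_, hb⟩ = e₀ b := by
  let w : ValuationSubring L :=
    { carrier := {f | ∃ a s : B, e₀ s ≠ 0 ∧ f * e s = e a}
      mul_mem' := by
        rintro f g ⟨a, s, h1, h2⟩ ⟨b, t, h3, h4⟩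
        refine ⟨a * b, s * t, by rw [map_mul]; exact mul_ne_zero h1 h3, ?_⟩
        rw [map_mul, map_mul, ← h2, ← h4]; ring
      one_mem' := ⟨1, 1, by simp, by simp⟩
      add_mem' := by
        rintro f g ⟨a, s, h1, h2⟩ ⟨b, t, h3, h4⟩
        refine ⟨a * t + b * s, s * t, by rw [map_mul]; exact mul_ne_zero h1 h3, ?_⟩
        rw [map_add, map_mul, map_mul, map_mul, ← h2, ← h4]; ring
      zero_mem' := ⟨0, 1, by simp, by simp⟩
      neg_mem' := by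
        rintro f ⟨a, s, h1, h2⟩
        exact ⟨-a, s, h1, by rw [map_neg, ← h2, neg_mul]⟩
      mem_or_inv_mem' := by
        intro f
        by_cases hf : f = 0
        · exact Or.inl ⟨0, 1, by simp, by simp [hf]⟩
        obtain ⟨c, a, s, h1, h2, h3⟩ := hp f hf
        by_cases hc : c ∈ O
        · exact Or.inl ⟨j ⟨c, hc⟩ * a, s, h2, by rw [map_mul, hj, h3]⟩
        · obtain ⟨c', -, hc'⟩ := Gauss_inv hr' hc
          refine Or.inr ⟨j c' * s, a, h1, ?_⟩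
          have h4 := congrArg (algebraMap K L) hc'
          rw [map_mul, map_one] at h4
          rw [map_mul, hj, inv_mul_eq_iff_eq_mul₀ hf, mul_left_comm, h3, ← mul_assoc]
          exact (one_mul _).symm.trans (congrArg (· * e a) h4.symm) }
  have hw : ∀ f : w, ∃ a s : B, e₀ s ≠ 0 ∧ (f : L) * e s = e a := fun f => f.2
  choose a s hs0 has using hw
  have spec : ∀ (f : w) (b t : B), (f : L) * e t = e b → e₀ (a f) / e₀ (s f) * e₀ t = e₀ b := by
    intro f b t h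
    have h1 : a f * t = b * s f := he (by rw [map_mul, map_mul, ← has f, ← h]; ring)
    have h2 := congrArg e₀ h1
    rw [map_mul, map_mul] at h2
    rw [div_mul_eq_mul_div, h2, mul_div_cancel_right₀ _ (hs0 f)]
  have spec' : ∀ (f : w) (b t : B), e₀ t ≠ 0 → (f : L) * e t = e b →
      e₀ (a f) / e₀ (s f) = e₀ b / e₀ t := fun f b t ht h => by
    rw [eq_div_iff ht, spec f b t h]
  let ρ : w →+* L₀ :=
    { toFun := fun f => e₀ (a f) / e₀ (s f)
      map_one' := by rw [spec' 1 1 1 (by simp) (by simp)]; simp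
      map_zero' := by rw [spec' 0 0 1 (by simp) (by simp)]; simp
      map_mul' := fun f g => by
        rw [spec' (f * g) (a f * a g) (s f * s g)
          (by rw [map_mul]; exact mul_ne_zero (hs0 f) (hs0 g))
          (by rw [map_mul, map_mul, ← has f, ← has g]; push_cast; ring), map_mul, map_mul,
          mul_div_mul_comm]
      map_add' := fun f g => by
        rw [spec' (f + g) (a f * s g + s f * a g) (s f * s g)
          (by rw [map_mul]; exact mul_ne_zero (hs0 f) (hs0 g))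
          (by rw [map_add, map_mul, map_mul, map_mul, ← has f, ← has g]; push_cast; ring),
          map_add, map_mul, map_mul, map_mul, div_add_div _ _ (hs0 f) (hs0 g)] }
  have hρ : Function.Surjective ρ := by
    intro f
    obtain ⟨b, t, ht, h⟩ := hs f
    have ht' : e t ≠ 0 := fun h0 => ht (by rw [(map_eq_zero_iff e he).1 h0, map_zero])
    have h1 : e b / e t * e t = e b := div_mul_cancel₀ _ ht'
    refine ⟨⟨e b / e t, b, t, ht, h1⟩, ?_⟩
    exact (spec' ⟨e b / e t, b, t, ht, h1⟩ b t ht h1).trans ((div_eq_iff ht).2 h.symm)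
  refine ⟨w, ρ, hρ, fun f => ?_, fun c => ⟨?_, fun hc => ⟨j ⟨c, hc⟩, 1, by simp, by simp [hj]⟩⟩,
    fun b => ⟨⟨b, 1, by simp, by simp⟩, ?_⟩⟩
  · rw [← w.valuation_lt_one_iff, ← IsLocalRing.eq_maximalIdeal
      (RingHom.ker_isMaximal_of_surjective ρ hρ), RingHom.mem_ker]
  · rintro ⟨b, t, ht, h⟩
    by_contra hc
    obtain ⟨c', h0, hc'⟩ := Gauss_inv hr' hc
    have h4 := congrArg (algebraMap K L) hc'
    rw [map_mul, map_one] at h4
    have h5 : t = j c' * b := he (by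
      rw [map_mul, hj, ← h, ← mul_assoc]
      exact (one_mul _).symm.trans (congrArg (· * e t) h4.symm))
    rw [h5, map_mul, hj₀, h0, map_zero, zero_mul] at ht
    exact ht rfl
  · refine (spec' ⟨e b, _⟩ b 1 (by simp) (by simp)).trans ?_
    rw [map_one, div_one]

section
variable {K L : Type u} [Field K] [Field L] [Algebra K L] [IsAlgClosed K] [Fact (IsFF K L)]
  {ι : Type} [Fintype ι] [DecidableEq ι] [Nonempty ι] (d : CD K L ι)

theorem Red_ne : d.x ≠ 0 := fun e => d.transcendental (e ▸ isAlgebraic_zero)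

theorem Red_tr : Transcendental K d.x⁻¹ := fun h => d.transcendental (IsAlgebraic.inv_iff.1 h)

theorem Red_reg {f : L} : IsIntegral (Algebra.adjoin K {d.x}) f ↔ f ∈ d.reg := by
  rw [← mem_regOut_poles d.transcendental, d.poles_eq, CD.reg]

theorem Red_alg {f : L} : d.exT f ∈ d.alg ↔ f ∈ d.reg :=
  ⟨fun ⟨_, hg, e⟩ => d.exT_injective e ▸ hg, fun h => ⟨f, h, rfl⟩⟩

theorem Red_int_of {n : ℕ} {g : L} (hg : g ∈ d.reg) (hp : Pole (d.exT g) n) :
    IsIntegral (Algebra.adjoin K {d.x⁻¹}) (d.x⁻¹ ^ n * g) := by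
  refine (mem_regOut_poles (Red_tr d)).1 fun P hP => ?_
  by_cases e : P ∈ Set.range d.pl
  · obtain ⟨i, rfl⟩ := e
    have h1 : (d.pl i).Ge d.x⁻¹ 1 := Or.inr (by rw [Place.ord_inv _ (Red_ne d), d.ord_x]; rfl)
    exact (d.pl i).mem_iff.2 (((h1.pow n).mul ((d.ge_iff i g _).2 (hp i))).mono (by omega))
  · exact mul_mem (pow_mem (not_not.1 hP) n) (hg P e)

theorem Red_of_int {f : L} (hf : IsIntegral (Algebra.adjoin K {d.x⁻¹}) f) (N : ℕ) :
    ∃ n, N ≤ n ∧ d.x ^ n * f ∈ d.reg ∧ Pole (d.exT (d.x ^ n * f)) n := by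
  have h1 := (mem_regOut_poles (Red_tr d)).2 hf
  obtain ⟨m, hm⟩ := ((finite_poles (K := K) f).image fun P => (P.ord f).natAbs).bddAbove
  refine ⟨m + N, by omega, fun P hP => ?_, fun i => (d.ge_iff i _ _).1 ?_⟩
  · by_cases e : f ∈ P.1
    · exact mul_mem (pow_mem (d.x_mem P hP) _) e
    have h2 : P.Ge d.x 1 := (BC_nonunits P).1
      (P.1.mem_nonunits_iff_or.2 (Or.inr fun h => e (h1 P (not_not.2 h))))
    have h3 : (P.ord f).natAbs ≤ m := hm ⟨P, e, rfl⟩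
    exact P.mem_iff.2 (((h2.pow (m + N)).mul (Or.inr le_rfl)).mono (by omega))
  · have h2 : (d.pl i).Ge d.x (-1) := Or.inr (d.ord_x i).ge
    have h3 : d.x⁻¹ ∈ (d.pl i).1 := ((d.pl i).1.mem_or_inv_mem _).resolve_left
      (d.poles_eq.ge ⟨i, rfl⟩ : d.pl i ∈ poles K d.x)
    exact ((h2.pow (m + N)).mul ((d.pl i).mem_iff.1 (h1 _ (not_not.2 h3)))).mono (by omega)

end

theorem Red_step {R : Type u} [CommRing R] {ι : Type} [Fintype ι] [DecidableEq ι]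
    {J : Finset (ι × ℕ)} {A : Subalgebra R (LT ι R)} (h : IsChart J A) (i₀ : ι) {m : ℕ}
    (hJ : ∀ ν ∈ J, ν.2 < m) {F : LT ι R} (hF : Pole F (m + 2 : ℕ)) :
    ∃ G ∈ A, Pole G (m + 1 : ℕ) ∧ Pole (F - xx ι R * G) (m + 1 : ℕ) := by
  have h1 : Pole (∑ i, pc F (i, m + 1) • chi i₀ J A (i, m)) (m + 1 : ℕ) := pole_iff.2 fun μ hμ => by
    rw [Chart_pc_sum]
    exact Finset.sum_eq_zero fun i _ => by
      rw [Chart_pc_smul, pole_iff.1 (h.pole_chi i₀ (μ := (i, m)) (Nat.lt_succ_self m)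
        fun ν hν => (hJ ν hν).trans (Nat.lt_succ_self m)) μ hμ, mul_zero]
  refine ⟨_, sum_mem fun i _ => A.smul_mem (h.chi_mem i₀ _) _, h1, pole_iff.2 ?_⟩
  rintro ⟨i, _ | n⟩ hn
  · simp at hn
  rw [Chart_pc_sub, Chart_pc_xx]
  by_cases e : n = m
  · subst e
    rw [Chart_pc_sum]
    simp [Chart_pc_smul, h.Chart_pc_chi i₀ _ fun hν : (i, n) ∈ J => lt_irrefl _ (hJ _ hν)]
  · simp only at hn
    rw [pole_iff.1 hF _ (by simp only; omega), pole_iff.1 h1 _ (by simp only; omega), sub_zero]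

theorem Red_span {K L : Type u} [Field K] [Field L] [Algebra K L] (w : ValuationSubring L) (x : w)
    {s : Set L} (hs : ∀ f ∈ s, f ∈ w ∧ IsIntegral (Algebra.adjoin K {(x : L)}) f) {f : L}
    (hf : f ∈ Submodule.span
      (Subring.closure (insert (x : L) {c | c ∈ w ∧ c ∈ Set.range (algebraMap K L)})) s) :
    f ∈ w ∧ IsIntegral (Algebra.adjoin K {(x : L)}) f := by
  let T : Subring L := w.toSubring ⊓ (integralClosure (Algebra.adjoin K {(x : L)}) L).toSubring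
  have h1 : Subring.closure (insert (x : L) {c | c ∈ w ∧ c ∈ Set.range (algebraMap K L)}) ≤ T := by
    refine Subring.closure_le.2 ?_
    rintro _ (rfl | ⟨hc, c, rfl⟩)
    · exact ⟨x.2, isIntegral_algebraMap (x := (⟨_, Algebra.self_mem_adjoin_singleton K (x : L)⟩ :
        Algebra.adjoin K {(x : L)}))⟩
    · exact ⟨hc, isIntegral_algebraMap (x := algebraMap K (Algebra.adjoin K {(x : L)}) c)⟩
  change f ∈ T
  induction hf using Submodule.span_induction with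
  | mem g hg => exact hs g hg
  | zero => exact zero_mem _
  | add _ _ _ _ a b => exact add_mem a b
  | smul c _ _ a => exact mul_mem (h1 c.2) a

theorem goodRed_of_chart {k K L L₀ : Type u} [Field k] [Field K] [Field L] [Field L₀] [Algebra k K]
    [Algebra K L] [Algebra k L₀] [IsAlgClosed K] [IsAlgClosed k] [Fact (IsFF K L)] [Fact (IsFF k L₀)]
    {ι : Type} [Fintype ι] [DecidableEq ι] [Nonempty ι] {J : Finset (ι × ℕ)}
    (O : ValuationSubring K) (r : O →+* k)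
    (hr : ∀ c : k, ∃ h : algebraMap k K c ∈ O, r ⟨_, h⟩ = c)
    (hr' : ∀ c : O, r c = 0 ↔ O.valuation c < 1) {𝒜 : Subalgebra O (LT ι O)} (h : IsChart J 𝒜)
    (d : CD K L ι) (hd : d.alg = bc (algebraMap O K) 𝒜) (d₀ : CD k L₀ ι) (hd₀ : d₀.alg = bc r 𝒜) :
    GoodRed k K L L₀ := by
  classical
  obtain ⟨i₀⟩ := ‹Nonempty ι›
  have hrs : Function.Surjective r := fun c => ⟨_, (hr c).2⟩
  have hO : Function.Injective (algebraMap O K) := Subtype.val_injective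
  obtain ⟨e, he⟩ := Gauss_hom (algebraMap O K) d hd
  obtain ⟨e₀, he₀⟩ := Gauss_hom r d₀ hd₀
  have hi := d.exT_injective
  have hi₀ := d₀.exT_injective
  have prim : ∀ f : L, f ≠ 0 → d.exT f ∈ d.alg →
      ∃ (c : K) (a : 𝒜), c ≠ 0 ∧ e₀ a ≠ 0 ∧ e a = algebraMap K L c * f := by
    intro f hf hm
    obtain ⟨c, F₀, hc, h1, h2, h3⟩ := Gauss_prim r h (hd ▸ hm) ((map_ne_zero_iff _ hi).2 hf)
    refine ⟨c, ⟨F₀, h1⟩, hc, fun h0 => h3 ?_, hi ?_⟩
    · rw [← he₀ ⟨F₀, h1⟩, h0, map_zero]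
    · rw [he, ← Algebra.smul_def, map_smul]
      exact h2
  have hj : ∀ c : O, e (algebraMap O 𝒜 c) = algebraMap K L c := fun c => hi (by
    rw [he, AlgHom.commutes]
    exact mapT_algebraMap _ c)
  have hj₀ : ∀ c : O, e₀ (algebraMap O 𝒜 c) = algebraMap k L₀ (r c) := fun c => hi₀ (by
    rw [he₀, AlgHom.commutes]
    exact mapT_algebraMap _ c)
  have hp : ∀ f : L, f ≠ 0 → ∃ (c : K) (a s : 𝒜), e₀ a ≠ 0 ∧ e₀ s ≠ 0 ∧
      f * e s = algebraMap K L c * e a := fun f hf => by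
    obtain ⟨s, hs, h1, h2⟩ := Gauss_frac d f
    obtain ⟨c, a, hc, ha, ea⟩ := prim _ (mul_ne_zero hf hs) h2
    obtain ⟨c', t, -, ht, et⟩ := prim _ hs h1
    refine ⟨c' / c, a, t, ha, ht, ?_⟩
    have hc' : algebraMap K L c ≠ 0 := (map_ne_zero _).2 hc
    rw [ea, et, map_div₀]
    field_simp
  have F4 : ∀ f, f ∈ d₀.reg ↔ ∃ a, e₀ a = f := fun f => by
    rw [← Red_alg, hd₀]
    constructor
    · intro hf
      obtain ⟨t, ht, et⟩ := Gauss_lift hrs hf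
      exact ⟨⟨t, ht⟩, hi₀ ((he₀ _).trans et)⟩
    · rintro ⟨a, rfl⟩
      exact he₀ a ▸ Gauss_mem_bc r a.2
  obtain ⟨w, ρ, h1, h2, h3, h4⟩ := Red_val hr' (algebraMap O 𝒜) e e₀ (fun a b hab => Subtype.ext
    (Gauss_inj hO (by rw [← he, ← he, hab]))) hj hj₀ hp fun f => by
      obtain ⟨s, hs, h1, h2⟩ := Gauss_frac d₀ f
      obtain ⟨t, rfl⟩ := (F4 _).1 ((Red_alg d₀).1 h1)
      obtain ⟨a, ha⟩ := (F4 _).1 ((Red_alg d₀).1 h2)
      exact ⟨a, t, hs, ha.symm⟩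
  choose hw hρ using h4
  have F2 : ∀ b, e₀ b ≠ 0 → w.valuation (e b) = 1 := fun b hb =>
    le_antisymm (w.valuation_le_one ⟨_, hw b⟩) (not_lt.1 (mt (h2 ⟨_, hw b⟩).2 (hρ b ▸ hb)))
  have F3' : ∀ a, e a ∈ d.reg := fun a => by
    rw [← Red_alg, hd, he]
    exact Gauss_mem_bc _ a.2
  have F3 : ∀ f ∈ d.reg, f ∈ w → ∃ a, e a = f := fun f hf hf' => by
    by_cases h0 : f = 0
    · exact ⟨0, by rw [h0, map_zero]⟩
    obtain ⟨c, a, hc, ha, ea⟩ := prim f h0 ((Red_alg d).2 hf)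
    have h5 : algebraMap K L c⁻¹ * e a = f := by
      rw [ea, ← mul_assoc, ← map_mul, inv_mul_cancel₀ hc, map_one, one_mul]
    have h6 : c⁻¹ ∈ O := (h3 _).1 (by
      rw [← h5, ← w.valuation_le_one_iff, map_mul, F2 a ha, mul_one] at hf'
      exact (w.valuation_le_one_iff _).1 hf')
    exact ⟨algebraMap O 𝒜 ⟨_, h6⟩ * a, by rw [map_mul, hj, h5]⟩
  have hc : ∀ (c : O) (hc : algebraMap K L c ∈ w), ρ ⟨_, hc⟩ = algebraMap k L₀ (r c) :=
    fun c hc => by rw [← hj₀, ← hρ]; exact congrArg ρ (Subtype.ext (hj c).symm)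
  let X : 𝒜 := ⟨xx ι O, h.x_mem⟩
  have hX : e X = d.x := hi (by rw [he, d.exT_x, mapT_xx])
  have hX₀ : e₀ X = d₀.x := hi₀ (by rw [he₀, d₀.exT_x, mapT_xx])
  have hx : d.x ∈ w := hX ▸ hw X
  have hy : d.x⁻¹ ∈ w := by
    rw [← w.valuation_le_one_iff, map_inv₀, ← hX, F2 X (hX₀ ▸ Red_ne d₀), inv_one]
  have hxy : (⟨_, hx⟩ : w) * ⟨_, hy⟩ = 1 := Subtype.ext (mul_inv_cancel₀ (Red_ne d))
  have hρx : ρ ⟨_, hx⟩ = d₀.x := by rw [← hX₀, ← hρ]; exact congrArg ρ (Subtype.ext hX.symm)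
  have hρy : ρ ⟨_, hy⟩ = d₀.x⁻¹ := eq_inv_of_mul_eq_one_right (by rw [← hρx, ← map_mul, hxy, map_one])
  obtain ⟨m, hJ⟩ : ∃ m : ℕ, ∀ ν ∈ J, ν.2 < m :=
    ⟨J.sup Prod.snd + 1, fun ν hν => Nat.lt_succ_of_le (Finset.le_sup (f := Prod.snd) hν)⟩
  let χ : ι × ℕ → 𝒜 := fun μ => ⟨chi i₀ J 𝒜 μ, h.chi_mem i₀ μ⟩
  let S : Finset 𝒜 := insert 1 ((Finset.univ ×ˢ Finset.range (m + 1)).image χ)
  have hS : ∀ μ : ι × ℕ, μ.2 ≤ m → χ μ ∈ S := fun μ hμ => Finset.mem_insert_of_mem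
    (Finset.mem_image_of_mem _ (by simp [Finset.mem_product, Nat.lt_succ_of_le hμ]))
  have hcs : ∀ (z : L) (c : O), e (algebraMap O 𝒜 c) ∈
      Subring.closure (insert z {c | c ∈ w ∧ c ∈ Set.range (algebraMap K L)}) :=
    fun z c => Subring.subset_closure (Or.inr ⟨hw _, c, (hj c).symm⟩)
  have hY : ∀ f ∈ w, IsIntegral (Algebra.adjoin K {d.x⁻¹}) f →
      ∃ (n : ℕ) (a : 𝒜), m + 1 ≤ n ∧ Pole a.1 n ∧ f = d.x⁻¹ ^ n * e a := fun f hf hf' => by
    obtain ⟨n, a1, a2, a3⟩ := Red_of_int d hf' (m + 1)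
    obtain ⟨a, ha⟩ := F3 _ a2 (mul_mem (pow_mem hx n) hf)
    refine ⟨n, a, a1, Gauss_pole_of_map hO (by rwa [← he, ha]), ?_⟩
    rw [ha, inv_pow, inv_mul_cancel_left₀ (pow_ne_zero _ (Red_ne d))]
  have hY' : ∀ (n : ℕ) (a : 𝒜), Pole a.1 n →
      IsIntegral (Algebra.adjoin K {d.x⁻¹}) (d.x⁻¹ ^ n * e a) := fun n a ha =>
    Red_int_of d (F3' a) (he a ▸ Gauss_pole_map _ ha)
  refine ⟨w, ρ, h1, h2, fun c => ⟨(h3 _).2 (hr c).1, ?_⟩, fun c hc' => ⟨_, hc ⟨c, (h3 c).1 hc'⟩ hc'⟩,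
    fun f => ?_, ⟨_, hx⟩, ⟨_, hy⟩, hxy, hρx ▸ d₀.transcendental,
    ⟨⟨S.image e, fun f => ⟨?_, Red_span w _ ?_⟩⟩, fun f₀ => ?_⟩,
    ⟨S.image fun a => d.x⁻¹ ^ (m + 1) * e a, fun f => ⟨?_, Red_span w _ ?_⟩⟩, fun f₀ => ?_⟩
  · rw [hc ⟨_, (hr c).1⟩, (hr c).2]
  · by_cases h0 : f = 0
    · exact ⟨0, by rw [h0, map_zero (algebraMap K L)]⟩
    obtain ⟨c, a, s, ha, hs, e1⟩ := hp f h0
    have := congrArg w.valuation e1
    rw [map_mul, map_mul, F2 a ha, F2 s hs, mul_one, mul_one] at this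
    exact ⟨c, this⟩
  · rintro ⟨a1, a2⟩
    obtain ⟨⟨F, hF⟩, rfl⟩ := F3 f ((Red_reg d).1 a2) a1
    clear a1 a2
    have h5 := (h.span_x i₀ hJ).1 hF
    have h6 : Algebra.adjoin O {xx ι O} ≤ 𝒜 :=
      Algebra.adjoin_le (Set.singleton_subset_iff.2 h.x_mem)
    induction h5 using Submodule.span_induction with
    | mem G hG =>
      refine Submodule.subset_span (Finset.mem_coe.2 (Finset.mem_image_of_mem _ ?_))
      rcases hG with rfl | ⟨μ, hμ, rfl⟩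
      exacts [Finset.mem_insert_self _ _, hS μ hμ]
    | zero => exact (map_zero e).symm ▸ zero_mem _
    | add G G' hG hG' b1 b2 =>
      have hG := (h.span_x i₀ hJ).2 hG
      have hG' := (h.span_x i₀ hJ).2 hG'
      rw [show (⟨G + G', hF⟩ : 𝒜) = ⟨G, hG⟩ + ⟨G', hG'⟩ from rfl, map_add]
      exact add_mem (b1 hG) (b2 hG')
    | smul c G hG b1 =>
      have hG := (h.span_x i₀ hJ).2 hG
      rw [show (⟨c • G, hF⟩ : 𝒜) = ⟨c, h6 c.2⟩ * ⟨G, hG⟩ from rfl, map_mul]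
      refine Submodule.smul_mem _ (⟨e ⟨c, h6 c.2⟩, ?_⟩ : Subring.closure _) (b1 hG)
      obtain ⟨c, hc⟩ := c
      clear hF
      induction hc using Algebra.adjoin_induction with
      | mem _ hz => obtain rfl := hz; exact Subring.subset_closure (Or.inl hX)
      | algebraMap c => exact hcs _ c
      | add u v hu hv b2 b3 => exact (map_add e ⟨u, h6 hu⟩ ⟨v, h6 hv⟩).symm ▸ add_mem b2 b3
      | mul u v hu hv b2 b3 => exact (map_mul e ⟨u, h6 hu⟩ ⟨v, h6 hv⟩).symm ▸ mul_mem b2 b3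
  · intro g hg
    obtain ⟨a, -, rfl⟩ := Finset.mem_image.1 (Finset.mem_coe.1 hg)
    exact ⟨hw a, (Red_reg d).2 (F3' a)⟩
  · rw [hρx, Red_reg, F4]
    constructor
    · rintro ⟨a, rfl⟩
      exact ⟨⟨_, hw a⟩, (Red_reg d).2 (F3' a), hρ a⟩
    · rintro ⟨⟨f, hf⟩, a1, rfl⟩
      obtain ⟨a, rfl⟩ := F3 f ((Red_reg d).1 a1) hf
      exact ⟨a, (hρ a).symm⟩
  · rintro ⟨a1, a2⟩
    obtain ⟨n, a, b1, b2, rfl⟩ := hY f a1 a2
    clear a1 a2
    induction n, b1 using Nat.le_induction generalizing a with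
    | base =>
      obtain ⟨c, hc⟩ := (h.mem_iff i₀).1 a.2
      have h5 : a = algebraMap O 𝒜 c * 1 +
          ∑ μ ∈ (finite_pc a.1).toFinset, algebraMap O 𝒜 (pc a.1 μ) * χ μ := Subtype.ext (by
        rw [mul_one, Subalgebra.coe_add, AddSubmonoidClass.coe_finsetSum]
        simp only [← Algebra.smul_def]
        exact hc)
      have h6 : ∀ (c : O), ∀ b ∈ S, d.x⁻¹ ^ (m + 1) * e (algebraMap O 𝒜 c * b) ∈ Submodule.span
          (Subring.closure (insert d.x⁻¹ {c | c ∈ w ∧ c ∈ Set.range (algebraMap K L)}))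
          ((S.image fun a => d.x⁻¹ ^ (m + 1) * e a : Finset L) : Set L) := fun c b hb => by
        rw [map_mul, mul_left_comm]
        exact Submodule.smul_mem _ (⟨_, hcs _ c⟩ : Subring.closure _) (Submodule.subset_span
          (Finset.mem_coe.2 (Finset.mem_image_of_mem _ hb)))
      rw [h5, map_add, map_sum, mul_add, Finset.mul_sum]
      refine add_mem (h6 _ _ (Finset.mem_insert_self _ _)) (sum_mem fun μ hμ => h6 _ _ (hS μ ?_))
      exact Nat.le_of_lt_succ (not_le.1 fun h7 =>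
        (finite_pc a.1).mem_toFinset.1 hμ (pole_iff.1 b2 μ h7))
    | succ n hn ih =>
      obtain ⟨n, rfl⟩ : ∃ n', n = n' + 1 := ⟨n - 1, by omega⟩
      obtain ⟨G, hG, c1, c2⟩ := Red_step h i₀ (m := n) (fun ν hν => (hJ ν hν).trans_le (by omega)) b2
      rw [show d.x⁻¹ ^ (n + 1 + 1) * e a = d.x⁻¹ * (d.x⁻¹ ^ (n + 1) * e (a - X * ⟨G, hG⟩)) +
          d.x⁻¹ ^ (n + 1) * e ⟨G, hG⟩ by
        rw [map_sub, map_mul, hX]
        linear_combination d.x⁻¹ ^ (n + 1) * e ⟨G, hG⟩ * inv_mul_cancel₀ (Red_ne d)]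
      exact add_mem (Submodule.smul_mem _
        (⟨_, Subring.subset_closure (Set.mem_insert _ _)⟩ : Subring.closure _) (ih _ c2)) (ih _ c1)
  · intro g hg
    obtain ⟨a, ha, rfl⟩ := Finset.mem_image.1 (Finset.mem_coe.1 hg)
    refine ⟨mul_mem (pow_mem hy _) (hw a), hY' _ a ?_⟩
    rcases Finset.mem_insert.1 ha with rfl | ha
    · exact fun i => (LS.ge_T (R := O) 0).mono (by omega)
    · obtain ⟨μ, hμ, rfl⟩ := Finset.mem_image.1 ha
      exact h.pole_chi i₀ (by simpa using hμ) fun ν hν => (hJ ν hν).trans (Nat.lt_succ_self m)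
  · have h5 : ∀ (n : ℕ) (a : 𝒜), ρ ⟨_, mul_mem (pow_mem hy n) (hw a)⟩ = d₀.x⁻¹ ^ n * e₀ a :=
      fun n a => by rw [← hρy, ← hρ, ← map_pow, ← map_mul]; rfl
    rw [hρy]
    constructor
    · intro hf
      obtain ⟨n, a1, a2, a3⟩ := Red_of_int d₀ hf m
      obtain ⟨F, b1, b2, b3⟩ := h.exists_lift hrs (hd₀ ▸ (Red_alg d₀).2 a2)
        (fun ν hν => (hJ ν hν).trans_le a1) a3
      refine ⟨⟨_, mul_mem (pow_mem hy n) (hw ⟨F, b1⟩)⟩, hY' n _ b2, ?_⟩
      rw [h5, hi₀ ((he₀ ⟨F, b1⟩).trans b3), inv_pow, inv_mul_cancel_left₀ (pow_ne_zero _ (Red_ne d₀))]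
    · rintro ⟨⟨f, hf⟩, a1, rfl⟩
      obtain ⟨n, a, -, b2, rfl⟩ := hY f hf a1
      rw [h5]
      exact Red_int_of d₀ ((F4 _).2 ⟨a, rfl⟩) (he₀ a ▸ Gauss_pole_map _ b2)

end PR0
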