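import Pool.Agent.Work.MP_da2620_ag.Stmt

/-!
# Curves as schemes: the definitions used in the statement
-/

namespace PR0

open AlgebraicGeometry CategoryTheory

universe u

/-- A smooth proper integral curve over `K`. -/
structure Curve (K : Type u) [Field K] where
  X : Scheme.{u}
  f : X ⟶ Spec (CommRingCat.of K)
  integral : IsIntegral X
  proper : IsProper f
  smooth : SmoothOfRelativeDimension 1 f

attribute [instance] Curve.integral Curve.proper Curve.smooth

namespace Curve

variable {K : Type u} [Field K] (C : Curve K)

/-- The function field. -/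
def L : Type u := C.X.functionField

noncomputable instance : Field C.L := instFieldCarrierFunctionField C.X

/-- Constants are pulled back along the structure morphism. -/
noncomputable def const : CommRingCat.of K ⟶ C.X.functionField :=
  (Scheme.ΓSpecIso (CommRingCat.of K)).inv ≫ C.f.appTop ≫ C.X.presheaf.germ ⊤ (genericPoint C.X) trivial

noncomputable instance : Algebra K C.L := RingHom.toAlgebra (R := K) (S := C.L) C.const.hom

end Curve

/-- `C₀ / k` is a specialisation of `C / K`: there is a smooth proper scheme over a valuation ring `O` of
`K`, containing `k` and with residue field `k`, with generic fibre `C` and special fibre `C₀`. -/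
def Specializes {k K : Type u} [Field k] [Field K] [Algebra k K] (C : Curve K) (C₀ : Curve k) : Prop :=
  ∃ (O : ValuationSubring K) (r : O →+* k) (Y : Scheme.{u}) (π : Y ⟶ Spec (CommRingCat.of O))
    (i : C.X ⟶ Y) (i₀ : C₀.X ⟶ Y),
    (∀ c : k, ∃ h : algebraMap k K c ∈ O, r ⟨_, h⟩ = c) ∧ (∀ c : O, r c = 0 ↔ O.valuation c < 1) ∧
    IsProper π ∧ Smooth π ∧ IsPullback i C.f π (Spec.map (CommRingCat.ofHom O.subtype)) ∧
    IsPullback i₀ C₀.f π (Spec.map (CommRingCat.ofHom r))

end PR0
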