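import Mathlib

/-! Nilpotent `p`-linear maps. -/

open Matrix

namespace Pool.Agent.Work.MP_da2620_ag

section ring

variable {R S : Type*} [CommRing R] [CommRing S] {n : Type} [Fintype n] [DecidableEq n]

/-- the product `A A^(p) ... A^(p^(r-1))` -/
def tw (p : ℕ) (A : Matrix n n R) : ℕ → Matrix n n R
  | 0 => 1
  | r + 1 => A * (tw p A r).map (· ^ p)

/-- the `p`-linear map of a matrix -/
def ph (p : ℕ) (A : Matrix n n R) (v : n → R) : n → R := A *ᵥ fun j => v j ^ p

theorem tw_map {F : Type*} [FunLike F R S] [RingHomClass F R S] (f : F) (p : ℕ) (A : Matrix n n R)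
    (r : ℕ) : (tw p A r).map f = tw p (A.map f) r := by
  induction r with
  | zero => exact Matrix.map_one _ (map_zero f) (map_one f)
  | succ r ih =>
    rw [tw, tw, ← ih]
    ext i j
    simp [Matrix.mul_apply]

omit [DecidableEq n] in
theorem ph_map {F : Type*} [FunLike F R S] [RingHomClass F R S] (f : F) (p : ℕ) (A : Matrix n n R)
    (v : n → R) : (fun i => f (ph p A v i)) = ph p (A.map f) fun i => f (v i) := by
  ext i
  simp [ph, Matrix.mulVec, dotProduct]

omit [DecidableEq n] in
theorem ph_iter_map {F : Type*} [FunLike F R S] [RingHomClass F R S] (f : F) (p : ℕ)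
    (A : Matrix n n R) (v : n → R) (r : ℕ) :
    (fun i => f ((ph p A)^[r] v i)) = (ph p (A.map f))^[r] fun i => f (v i) := by
  induction r with
  | zero => rfl
  | succ r ih => rw [Function.iterate_succ_apply', Function.iterate_succ_apply', ← ih, ph_map]

variable (p : ℕ) [ExpChar R p]

omit [DecidableEq n] in
theorem map_pow_mul (M N : Matrix n n R) (e : ℕ) :
    (M * N).map (· ^ p ^ e) = M.map (· ^ p ^ e) * N.map (· ^ p ^ e) :=
  Matrix.map_mul (f := iterateFrobenius R p e)

omit [DecidableEq n] in
theorem map_pow_mul' (M N : Matrix n n R) :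
    (M * N).map (· ^ p) = M.map (· ^ p) * N.map (· ^ p) :=
  Matrix.map_mul (f := frobenius R p)

omit [Fintype n] in
theorem map_pow_one' : (1 : Matrix n n R).map (· ^ p) = 1 :=
  Matrix.map_one _ (zero_pow (expChar_pos R p).ne') (one_pow p)

omit [Fintype n] [DecidableEq n] in
theorem map_pow_zero' : (0 : Matrix n n R).map (· ^ p) = 0 :=
  Matrix.map_zero _ (zero_pow (expChar_pos R p).ne')

theorem tw_four (A : Matrix n n R) :
    tw p A 4 = A * A.map (· ^ p) * A.map (· ^ p ^ 2) * A.map (· ^ p ^ 3) := by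
  simp only [tw, map_pow_mul', map_pow_one', mul_one, Matrix.map_map, mul_assoc]
  congr 3 <;> ext i j <;> simp [← pow_mul, pow_succ]

omit [DecidableEq n] in
theorem pow_mulVec (M : Matrix n n R) (v : n → R) :
    (fun j => (M *ᵥ v) j ^ p) = M.map (· ^ p) *ᵥ fun j => v j ^ p := by
  ext j
  exact RingHom.map_mulVec (frobenius R p) M v j

theorem tw_mulVec (A : Matrix n n R) (r : ℕ) (v : n → R) :
    tw p A r *ᵥ (fun j => v j ^ p ^ r) = (ph p A)^[r] v := by
  induction r with
  | zero => simp [tw]
  | succ r ih =>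
    rw [Function.iterate_succ_apply', ← ih, ph, pow_mulVec, tw, Matrix.mulVec_mulVec]
    simp [← pow_mul, pow_succ]

theorem tw_eq_zero {A : Matrix n n R} {r : ℕ} (h : ∀ v, (ph p A)^[r] v = 0) : tw p A r = 0 := by
  ext i j
  have := congrFun ((tw_mulVec p A r (Pi.single j 1)).trans (h _)) i
  have e : (fun l => (Pi.single j (1 : R) : n → R) l ^ p ^ r) = Pi.single j 1 := by
    ext l
    by_cases hl : l = j <;> simp [hl, (expChar_pos R p).ne']
  rw [e] at this
  simpa using this

theorem ph_iter_eq_zero {A : Matrix n n R} {r : ℕ} (h : tw p A r = 0) (v : n → R) :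
    (ph p A)^[r] v = 0 := by
  rw [← tw_mulVec, h, Matrix.zero_mulVec]

omit [DecidableEq n] in
theorem ph_add (A : Matrix n n R) (v w : n → R) : ph p A (v + w) = ph p A v + ph p A w := by
  rw [ph, ph, ph, ← Matrix.mulVec_add]
  congr 1
  ext j
  exact add_pow_expChar _ _ p

omit [DecidableEq n] [ExpChar R p] in
theorem ph_smul (A : Matrix n n R) (c : R) (v : n → R) : ph p A (c • v) = c ^ p • ph p A v := by
  rw [ph, ph, ← Matrix.mulVec_smul]
  congr 1
  ext j
  simp [mul_pow]

omit [DecidableEq n] in
theorem ph_zero (A : Matrix n n R) : ph p A 0 = 0 := by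
  simpa [(expChar_pos R p).ne'] using ph_smul p A 0 0

omit [DecidableEq n] in
theorem ph_sum (A : Matrix n n R) {ι : Type*} (s : Finset ι) (c : ι → R) (v : ι → n → R) :
    ph p A (∑ i ∈ s, c i • v i) = ∑ i ∈ s, c i ^ p • ph p A (v i) := by
  classical
  induction s using Finset.induction_on with
  | empty => simpa using ph_zero p A
  | insert a s ha ih => rw [Finset.sum_insert ha, Finset.sum_insert ha, ph_add, ph_smul, ih]

theorem tw_conj {A B g : Matrix n n R} (h : A * g.map (· ^ p) = g * B) (r : ℕ) :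
    tw p A r * g.map (· ^ p ^ r) = g * tw p B r := by
  induction r with
  | zero => simp [tw]
  | succ r ih =>
    have e : g.map (· ^ p ^ (r + 1)) = (g.map (· ^ p ^ r)).map (· ^ p) := by
      ext i j
      simp [← pow_mul, pow_succ]
    rw [tw, tw, e, mul_assoc, ← map_pow_mul', ih, map_pow_mul', ← mul_assoc, h, mul_assoc]

omit [ExpChar R p] in
theorem tw_smul (c : R) (A : Matrix n n R) (r : ℕ) : ∃ e : ℕ, tw p (c • A) r = c ^ e • tw p A r := by
  induction r with
  | zero => exact ⟨0, by simp [tw]⟩
  | succ r ih =>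
    obtain ⟨e, he⟩ := ih
    refine ⟨e * p + 1, ?_⟩
    rw [tw, tw, he]
    ext i j
    simp only [Matrix.mul_apply, Matrix.smul_apply, Matrix.map_apply, smul_eq_mul, Finset.mul_sum]
    refine Finset.sum_congr rfl fun l _ => ?_
    rw [mul_pow, ← pow_mul]
    ring

theorem tw_upper {m : ℕ} {B : Matrix (Fin m) (Fin m) R} (h : ∀ i j, j ≤ i → B i j = 0) :
    tw p B m = 0 := by
  have key : ∀ r, ∀ i j : Fin m, j.1 < i.1 + r → tw p B r i j = 0 := by
    intro r
    induction r with
    | zero => exact fun i j hij => Matrix.one_apply_ne fun e => by simp [e] at hij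
    | succ r ih =>
      intro i j hij
      rw [tw, Matrix.mul_apply]
      refine Finset.sum_eq_zero fun l _ => ?_
      by_cases hl : l ≤ i
      · rw [h i l hl, zero_mul]
      · have : i.1 < l.1 := not_le.1 hl
        rw [Matrix.map_apply, ih l j (by omega), zero_pow (expChar_pos R p).ne', mul_zero]
  ext i j
  exact key m i j (by omega)

/-- an eigenvector of a nilpotent map has eigenvalue zero -/
theorem eigen_zero [IsDomain R] {A : Matrix n n R} {r : ℕ} (h : tw p A r = 0) {v : n → R}
    {μ : R} (hv : ph p A v = μ • v) {i : n} (hi : v i ≠ 0) : μ = 0 := by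
  have key : ∀ r, ∃ e : ℕ, (ph p A)^[r] v = μ ^ e • v := by
    intro r
    induction r with
    | zero => exact ⟨0, by simp⟩
    | succ r ih =>
      obtain ⟨e, he⟩ := ih
      exact ⟨e * p + 1, by rw [Function.iterate_succ_apply', he, ph_smul, hv, smul_smul, ← pow_mul,
        pow_succ]⟩
  obtain ⟨e, he⟩ := key r
  rw [ph_iter_eq_zero p h] at he
  have := congrFun he i
  exact eq_zero_of_pow_eq_zero (n := e) ((mul_eq_zero.1 this.symm).resolve_right hi)

end ring

section field

variable {k : Type*} [Field k] (p : ℕ) [ExpChar k p] {m : ℕ}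

theorem exists_chain {A : Matrix (Fin m) (Fin m) k} {r : ℕ} (h : tw p A r = 0) (l : ℕ)
    (hl : l ≤ m) : ∃ v : Fin l → Fin m → k, LinearIndependent k v ∧
      ∀ j, ph p A (v j) ∈ Submodule.span k (v '' {i | i < j}) := by
  induction l with
  | zero => exact ⟨Fin.elim0, linearIndependent_empty_type, fun j => j.elim0⟩
  | succ l ih =>
    obtain ⟨v, hv, hφ⟩ := ih (by omega)
    have hne : Submodule.span k (Set.range v) ≠ ⊤ := by
      intro e
      have := finrank_span_eq_card hv
      rw [e] at this
      simp at this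
      omega
    obtain ⟨u, hu⟩ : ∃ u, u ∉ Submodule.span k (Set.range v) := by
      by_contra hc
      exact hne (eq_top_iff.2 fun u _ => not_not.1 fun hu => hc ⟨u, hu⟩)
    obtain ⟨w, hw, hw'⟩ : ∃ w, w ∉ Submodule.span k (Set.range v) ∧
        ph p A w ∈ Submodule.span k (Set.range v) := by
      by_contra hc
      have : ∀ s, (ph p A)^[s] u ∉ Submodule.span k (Set.range v) := by
        intro s
        induction s with
        | zero => exact hu
        | succ s ih' =>
          rw [Function.iterate_succ_apply']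
          exact fun e => hc ⟨_, ih', e⟩
      exact this r (by rw [ph_iter_eq_zero p h]; exact Submodule.zero_mem _)
    refine ⟨Fin.snoc v w, linearIndependent_finSnoc.2 ⟨hv, hw⟩, fun j => ?_⟩
    induction j using Fin.lastCases with
    | last =>
      rw [Fin.snoc_last]
      refine Submodule.span_mono ?_ hw'
      rintro _ ⟨i, rfl⟩
      exact ⟨i.castSucc, Fin.castSucc_lt_last i, by simp⟩
    | cast j =>
      rw [Fin.snoc_castSucc]
      refine Submodule.span_mono ?_ (hφ j)
      rintro _ ⟨i, hi, rfl⟩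
      exact ⟨i.castSucc, Fin.castSucc_lt_castSucc_iff.2 hi, by simp⟩

/-- a nilpotent `p`-linear map is strictly upper triangular in a suitable basis -/
theorem exists_triang {A : Matrix (Fin m) (Fin m) k} {r : ℕ} (h : tw p A r = 0) :
    ∃ g B : Matrix (Fin m) (Fin m) k, g.det ≠ 0 ∧ (∀ i j, j ≤ i → B i j = 0) ∧
      A * g.map (· ^ p) = g * B := by
  obtain ⟨v, hv, hφ⟩ := exists_chain p h m le_rfl
  have : ∀ j, ∃ c : Fin m → k, (∀ i, j ≤ i → c i = 0) ∧ ph p A (v j) = ∑ i, c i • v i := by
    intro j
    obtain ⟨c, hc, e⟩ := (Finsupp.mem_span_image_iff_linearCombination k).1 (hφ j)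
    refine ⟨c, fun i hi => ?_, ?_⟩
    · by_contra h0
      exact absurd (hc (Finsupp.mem_support_iff.2 h0)) (not_lt.2 hi)
    · rw [← e, Finsupp.linearCombination_apply, Finsupp.sum_fintype]
      simp
  choose c hc e using this
  refine ⟨(Matrix.of v)ᵀ, (Matrix.of c)ᵀ, ?_, fun i j hij => hc j i hij, ?_⟩
  · have : IsUnit (Matrix.of v)ᵀ := Matrix.linearIndependent_cols_iff_isUnit.1 hv
    exact ((Matrix.isUnit_iff_isUnit_det _).1 this).ne_zero
  · ext i j
    have := congrFun (e j) i
    simpa [ph, Matrix.mulVec, dotProduct, Matrix.mul_apply, mul_comm] using this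

end field

end Pool.Agent.Work.MP_da2620_ag
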