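import Pool.Agent.Work.MP_da2620_ag.Comb

/-!
# Base change and specialisation of combs

`Le.amalg`: amalgamate the constant fields over `K` (`amalgam` with base field `K` and the empty
point, or a maximal ideal of the tensor product), take base changes of `X'` and of `X''` to the common
field (`exists_le`); both are base changes of `X`, so isomorphic componentwise (`BC.unique`, and places
over a given place are unique).
-/

namespace PR0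

universe u

theorem Sp_iso {K K' L L' L₂ : Type u} [Field K] [Field K'] [IsAlgClosed K] [IsAlgClosed K']
    [Field L] [Algebra K L] [Fact (IsFF K L)] [Field L'] [Algebra K' L'] [Fact (IsFF K' L')]
    [Field L₂] [Algebra K' L₂] [Fact (IsFF K' L₂)] {φ : K →+* K'} {ψ : L →+* L'} {ψ₂ : L →+* L₂}
    (h : BC φ ψ) (h₂ : BC φ ψ₂) : ∃ θ : L' →+* L₂, BC (RingHom.id K') θ ∧
      ∀ (P : Place K L) (P' : Place K' L') (P₂ : Place K' L₂),
        Over ψ P P' → Over ψ₂ P P₂ → Over θ P' P₂ := by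
  obtain ⟨ε, hε⟩ := h.unique h₂
  refine ⟨ε, BC.of_equiv ε, fun P P' P₂ o o₂ => ?_⟩
  obtain ⟨Q, hQ⟩ := ((BC.of_equiv ε).exists_over P').exists
  have h1 : Over ψ₂ P Q := fun f => by rw [← hε, ← o f]; exact hQ _
  rwa [← (h₂.exists_over P).unique h1 o₂]

theorem Sp_chart_eq {R : Type u} [CommRing R] {ι : Type} [Fintype ι] [DecidableEq ι] (i₀ : ι)
    {J : Finset (ι × ℕ)} {A A' : Subalgebra R (LT ι R)} (h : IsChart J A) (h' : IsChart J A')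
    (hle : A ≤ A') : A = A' := by
  refine h.eq_of_coef i₀ h' (funext fun a => ?_)
  have h1 : chi i₀ J A' a.1 = chi i₀ J A a.1 := by
    by_cases hμ : a.1 ∈ J
    · simp only [chi, if_pos hμ]
    · exact h'.chi_eq i₀ hμ (hle (h.chi_mem i₀ _)) (h.chi_cf i₀ _) fun ν hν => h.pc_chi i₀ hμ hν
  simp only [coef, h1]

variable (k : Type u) [Field k]
variable {K K' K'' : Type u} [Field K] [Field K'] [Field K''] [Algebra k K] [Algebra k K']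
  [Algebra k K''] {T T' T'' : Type}

namespace Comb

/-- `X'` is a base change of `X` along `φ` (up to isomorphism and renumbering of the tails). -/
def LeVia (φ : K →+* K') (X : Comb T K) (X' : Comb T' K') : Prop :=
  ∃ (e : T ≃ T') (ψ₀ : X.C.L →+* X'.C.L) (ψ : ∀ j, (X.E j).L →+* (X'.E (e j)).L),
    BC φ ψ₀ ∧ ∀ j, BC φ (ψ j) ∧ Over ψ₀ (X.a j) (X'.a (e j)) ∧ Over (ψ j) (X.b j) (X'.b (e j))

/-- `X'` is a base change of `X`. -/
def Le (X : Comb T K) (X' : Comb T' K') : Prop := ∃ φ : K →ₐ[k] K', LeVia (φ : K →+* K') X X'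

/-- `X` specialises to `Y`: every simple chart point of `Y` is a specialisation of one of `X`. -/
def Sp (X : Comb T K) (Y : Comb T' K') : Prop :=
  ∀ (Ω' : Type u) [Field Ω'] [Algebra k Ω'] [IsAlgClosed Ω'] (Y' : Comb T' Ω'), Le k Y Y' →
    ∀ (ι : Type) [Fintype ι] [DecidableEq ι] (i₀ : ι) (J : Finset (ι × ℕ))
      (A' : Subalgebra Ω' (LT ι Ω')), Y'.Has J A' → (∀ ν ∈ J, ν.2 < 1) →
      ∃ (Ω : Type u) (_ : Field Ω) (_ : Algebra k Ω) (_ : IsAlgClosed Ω) (X' : Comb T Ω)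
        (A : Subalgebra Ω (LT ι Ω)), Le k X X' ∧ X'.Has J A ∧ Spc k (coef i₀ J A) (coef i₀ J A')

variable {k} [IsAlgClosed K] [IsAlgClosed K'] [IsAlgClosed K''] [Fintype T] [Fintype T']
  [Fintype T''] {X : Comb T K} {X' : Comb T' K'} {X'' : Comb T'' K''}

theorem LeVia.refl (X : Comb T K) : LeVia (RingHom.id K) X X :=
  ⟨Equiv.refl T, RingHom.id _, fun _ => RingHom.id _, BC.refl,
    fun _ => ⟨BC.refl, fun _ => Iff.rfl, fun _ => Iff.rfl⟩⟩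

theorem LeVia.trans {φ : K →+* K'} {φ' : K' →+* K''} (h : LeVia φ X X') (h' : LeVia φ' X' X'') :
    LeVia (φ'.comp φ) X X'' := by
  obtain ⟨e, ψ₀, ψ, h₀, h⟩ := h
  obtain ⟨e', ψ₀', ψ', h₀', h'⟩ := h'
  exact ⟨e.trans e', ψ₀'.comp ψ₀, fun j => (ψ' (e j)).comp (ψ j), h₀.trans h₀', fun j =>
    ⟨(h j).1.trans (h' (e j)).1, fun f => ((h' (e j)).2.1 _).trans ((h j).2.1 f),
      fun f => ((h' (e j)).2.2 _).trans ((h j).2.2 f)⟩⟩

theorem exists_leVia (X : Comb T K) (φ : K →+* K') : ∃ X' : Comb T K', LeVia φ X X' := by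
  obtain ⟨L₀, _, _, _, ψ₀, h₀⟩ := exists_bc (L := X.C.L) φ
  have hE : ∀ j, ∃ (E : FFd K') (ψ : (X.E j).L →+* E.L), BC φ ψ := fun j => by
    obtain ⟨L, _, _, _, ψ, h⟩ := exists_bc (L := (X.E j).L) φ
    exact ⟨⟨L⟩, ψ, h⟩
  choose E ψ h using hE
  choose a ha using fun j => (h₀.exists_over (X.a j)).exists
  choose b hb using fun j => ((h j).exists_over (X.b j)).exists
  exact ⟨⟨⟨L₀⟩, E, a, b, fun i j hij => X.inj (h₀.over_inj (ha i) (hij ▸ ha j))⟩,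
    Equiv.refl T, ψ₀, ψ, h₀, fun j => ⟨h j, ha j, hb j⟩⟩

theorem LeVia.unique {φ : K →+* K'} {Y : Comb T'' K'} (h : LeVia φ X X') (h' : LeVia φ X Y) :
    LeVia (RingHom.id K') X' Y := by
  obtain ⟨e, ψ₀, ψ, h₀, h⟩ := h
  obtain ⟨e', ψ₀', ψ', h₀', h'⟩ := h'
  obtain ⟨θ₀, k₀, o₀⟩ := Sp_iso h₀ h₀'
  have key : ∀ j' j, e j = j' → ∃ θ : (X'.E j').L →+* (Y.E (e' j)).L, BC (RingHom.id K') θ ∧
      Over θ₀ (X'.a j') (Y.a (e' j)) ∧ Over θ (X'.b j') (Y.b (e' j)) := by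
    rintro _ j rfl
    obtain ⟨θ, k₁, o₁⟩ := Sp_iso (h j).1 (h' j).1
    exact ⟨θ, k₁, o₀ _ _ _ (h j).2.1 (h' j).2.1, o₁ _ _ _ (h j).2.2 (h' j).2.2⟩
  choose θ hθ using fun j' => key j' (e.symm j') (e.apply_symm_apply j')
  exact ⟨e.symm.trans e', θ₀, θ, k₀, hθ⟩

theorem LeVia.has {φ : K →+* K'} (h : LeVia φ X X') {ι : Type} [Fintype ι] [DecidableEq ι]
    {J : Finset (ι × ℕ)} {A : Subalgebra K (LT ι K)} (hA : X.Has J A) : X'.Has J (bc φ A) := by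
  obtain ⟨e, ψ₀, ψ, h₀, h⟩ := h
  obtain ⟨c, rfl, hc⟩ := hA
  have key : ∀ j' j, e j = j' → ∃ θ : (X.E j).L →+* (X'.E j').L, BC φ θ ∧
      Over ψ₀ (X.a j) (X'.a j') ∧ Over θ (X.b j) (X'.b j') := by
    rintro _ j rfl
    exact ⟨ψ j, h j⟩
  choose θ hθ oa ob using fun j' => key j' (e.symm j') (e.apply_symm_apply j')
  obtain ⟨d₀, x₀, -, ex₀, al₀, rg₀⟩ := h₀.exists_cd c.d₀
  choose dt xt _ ext alt rgt using fun j' => (hθ j').exists_cd (c.dt (e.symm j'))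
  let c' : X'.CC ι :=
    { ι₀ := c.ι₀
      ιt := fun j' => c.ιt (e.symm j')
      e := (Equiv.sumCongr (Equiv.refl _) (Equiv.sigmaCongrLeft e.symm)).trans c.e
      d₀ := d₀
      dt := dt
      ha := fun j' => by rw [x₀]; exact (oa j' _).2 (c.ha _)
      hb := fun j' => by rw [xt]; exact (ob j' _).2 (c.hb _)
      hv := fun j' => by
        rw [x₀, xt, h₀.val (oa j') (c.ha _), (hθ j').val (ob j') (c.hb _), c.hv] }
  obtain ⟨J₀, Jt, hs⟩ := c.exists_split J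
  have hs' : c'.Split J J₀ fun j' => Jt (e.symm j') := ⟨hs.1, fun j' => hs.2 (e.symm j')⟩
  obtain ⟨h1, h2⟩ := (c.isChart_iff hs).1 hc
  have hc' : IsChart J c'.alg := (c'.isChart_iff hs').2
    ⟨by change IsChart J₀ d₀.alg; rw [al₀]; exact h1.bc φ,
      fun j' => by change IsChart _ (dt j').alg; rw [alt]; exact (h2 _).bc φ⟩
  refine ⟨c', (Sp_chart_eq (c.e (.inl (Classical.arbitrary _))) (hc.bc φ) hc' ?_).symm, hc.bc φ⟩
  refine Algebra.adjoin_le ?_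
  rintro _ ⟨_, ⟨f, hf, rfl⟩, rfl⟩
  have hn := c.mem_nrm.1 hf.1
  refine ⟨(ψ₀ f.1, fun j' => θ j' (f.2 (e.symm j'))), ⟨c'.mem_nrm.2
    ⟨(rg₀ _).2 (Submodule.subset_span ⟨_, hn.1, rfl⟩),
      fun j' => (rgt j' _).2 (Submodule.subset_span ⟨_, hn.2 _, rfl⟩)⟩, fun j' => ?_⟩, ?_⟩
  · obtain ⟨h3, h4, h5⟩ := hf.2 (e.symm j')
    refine ⟨(oa j' _).2 h3, (ob j' _).2 h4, ?_⟩
    exact (h₀.val (oa j') h3).trans ((congrArg φ h5).trans ((hθ j').val (ob j') h4).symm)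
  · funext i
    obtain ⟨i | ⟨j', i⟩, rfl⟩ := c'.e.surjective i
    · refine (c'.exT_inl _ i).trans ((congrFun (ex₀ f.1) i).trans ?_)
      exact congrArg (LS.map φ) (c.exT_inl f i).symm
    · refine (c'.exT_inr _ j' i).trans ((congrFun (ext j' (f.2 (e.symm j'))) i).trans ?_)
      exact congrArg (LS.map φ) (c.exT_inr f (e.symm j') i).symm

theorem LeVia.genus {φ : K →+* K'} (h : LeVia φ X X') : X'.genus = X.genus := by
  obtain ⟨e, ψ₀, ψ, h₀, h⟩ := h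
  unfold Comb.genus
  rw [h₀.genus_eq, ← e.sum_comp fun j' => PR0.genus K' (X'.E j').L]
  exact congrArg _ (Finset.sum_congr rfl fun j _ => (h j).1.genus_eq)

theorem LeVia.hw0 {φ : K →+* K'} (h : LeVia φ X X') (p : ℕ) [Fact p.Prime] [CharP K p] :
    X'.HW0 p ↔ X.HW0 p := by
  obtain ⟨e, ψ₀, ψ, h₀, h⟩ := h
  exact and_congr (h₀.hw0_iff p)
    (e.surjective.forall.trans (forall_congr' fun j => (h j).1.hw0_iff p))

theorem Le.refl (X : Comb T K) : Le k X X := ⟨AlgHom.id k K, LeVia.refl X⟩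

theorem Le.trans (h : Le k X X') (h' : Le k X' X'') : Le k X X'' := by
  obtain ⟨φ, h⟩ := h
  obtain ⟨φ', h'⟩ := h'
  exact ⟨φ'.comp φ, h.trans h'⟩

theorem Le.amalg (h : Le k X X') (h' : Le k X X'') :
    ∃ (Ω : Type u) (_ : Field Ω) (_ : Algebra k Ω) (_ : IsAlgClosed Ω) (Y : Comb T Ω),
      Le k X' Y ∧ Le k X'' Y := by
  obtain ⟨φ, h⟩ := h
  obtain ⟨φ', h'⟩ := h'
  obtain ⟨Ω, _, _, α, β, hαβ⟩ := @Pt2_amalgam K K' K'' _ _ _ (φ : K →+* K').toAlgebra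
    (φ' : K →+* K'').toAlgebra
  have hαβ' : β.comp (φ' : K →+* K'') = α.comp (φ : K →+* K') :=
    RingHom.ext fun a => (hαβ a).symm
  letI : Algebra k Ω := (α.comp (algebraMap k K')).toAlgebra
  obtain ⟨Y, hY⟩ := exists_leVia X (α.comp (φ : K →+* K'))
  obtain ⟨Y', hY'⟩ := exists_leVia X' α
  obtain ⟨Y'', hY''⟩ := exists_leVia X'' β
  refine ⟨Ω, inferInstance, inferInstance, inferInstance, Y,
    ⟨⟨α, fun _ => rfl⟩, hY'.trans ((h.trans hY').unique hY)⟩,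
    ⟨⟨β, fun a => ?_⟩, hY''.trans ((h'.trans hY'').unique (hαβ' ▸ hY))⟩⟩
  have h1 := RingHom.congr_fun hαβ' (algebraMap k K a)
  simp only [RingHom.comp_apply, RingHom.coe_coe, AlgHom.commutes] at h1
  exact h1

theorem Sp.trans (h : Sp k X X') (h' : Sp k X' X'') : Sp k X X'' := by
  intro Ω'' _ _ _ Y'' hY'' ι _ _ i₀ J A'' hA'' hJ
  obtain ⟨Ω', _, _, _, Y', A', h1, h2, h3⟩ := h' Ω'' Y'' hY'' ι i₀ J A'' hA'' hJ
  obtain ⟨Ω, _, _, _, Y, A, h4, h5, h6⟩ := h Ω' Y' h1 ι i₀ J A' h2 hJ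
  exact ⟨Ω, _, _, ‹_›, Y, A, h4, h5, h6.trans h3⟩

theorem Le.sp (h : Le k X X') : Sp k X X' := by
  intro Ω' _ _ _ Y' hY' ι _ _ i₀ J A' hA' _
  obtain ⟨φ, h1⟩ := h.trans hY'
  obtain ⟨Y, hY⟩ := exists_leVia X (φ : K →+* Ω')
  have h2 := (h1.unique hY).has hA'
  rw [bc_id] at h2
  exact ⟨Ω', _, _, ‹_›, Y, A', ⟨φ, hY⟩, h2, Spc.refl _⟩

theorem Le.sp' (h : Le k X X') : Sp k X' X := by
  intro Ω' _ _ _ Y hY ι _ _ i₀ J A' hA' _
  obtain ⟨Ω, _, _, _, Z, ⟨α, hα⟩, β, hβ⟩ := h.amalg hY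
  obtain ⟨Z', hZ'⟩ := exists_leVia X' (α : K' →+* Ω)
  have h2 := (hα.unique hZ').has (hβ.has hA')
  rw [bc_id] at h2
  refine ⟨Ω, _, _, ‹_›, Z', _, ⟨α, hZ'⟩, h2, ?_⟩
  obtain ⟨-, -, hc⟩ := hA'
  rw [hc.coef_bc]
  exact Spc.of_map _ β (β : Ω' →+* Ω).injective

theorem Sp.refl (X : Comb T K) : Sp k X X := (Le.refl X).sp
/-- renumbering the tails -/
theorem le_of_equiv {X : Comb T K} {Y : Comb T' K} (e : T ≃ T') (ψ₀ : X.C.L ≃ₐ[K] Y.C.L)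
    (ψ : ∀ j, (X.E j).L ≃ₐ[K] (Y.E (e j)).L) (ha : ∀ j f, ψ₀ f ∈ (Y.a (e j)).1 ↔ f ∈ (X.a j).1)
    (hb : ∀ j f, ψ j f ∈ (Y.b (e j)).1 ↔ f ∈ (X.b j).1) : Le k X Y :=
  ⟨AlgHom.id k K, e, ψ₀, fun j => ψ j, BC.of_equiv ψ₀, fun j => ⟨BC.of_equiv (ψ j), ha j, hb j⟩⟩


end Comb

theorem FFd.le_sm {C : FFd K} {C' : FFd K'} (φ : K →ₐ[k] K') (ψ : C.L →+* C'.L)
    (h : BC (φ : K →+* K') ψ) : Comb.Le k C.sm C'.sm :=
  ⟨φ, Equiv.refl _, ψ, fun j => j.elim, h, fun j => j.elim⟩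

theorem FFd.exists_of_le {C : FFd K} {X' : Comb Empty K'} (h : Comb.Le k C.sm X') :
    X' = X'.C.sm ∧ ∃ (φ : K →ₐ[k] K') (ψ : C.L →+* X'.C.L), BC (φ : K →+* K') ψ := by
  obtain ⟨φ, e, ψ₀, ψ, h₀, -⟩ := h
  refine ⟨?_, φ, ψ₀, h₀⟩
  obtain ⟨C', E, a, b, inj⟩ := X'
  obtain rfl : E = Empty.elim := funext fun j => j.elim
  obtain rfl : a = Empty.elim := funext fun j => j.elim
  obtain rfl : b = fun j => j.elim := funext fun j => j.elim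
  rfl


end PR0
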