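import Pool.Agent.Work.MP_da2620_ag.Moore

/-!
# The semilinear map of an arrow matrix, in coordinates
-/

namespace PR0

universe u

variable {K : Type u} [Field K] {T : Type} [Fintype T]

/-- The semilinear map of an arrow matrix. -/
def StarA_phi (p : ℕ) (z : Option T ⊕ T → K) (v : Option T → K) : Option T → K
  | none => z (.inl none) * v none ^ p + ∑ j, z (.inr j) * v (some j) ^ p
  | some j => z (.inr j) * v none ^ p + z (.inl (some j)) * v (some j) ^ p

variable {p : ℕ} {z : Option T ⊕ T → K}

theorem StarA_none (v : Option T → K) : StarA_phi p z v none =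
    z (.inl none) * v none ^ p + ∑ j, z (.inr j) * v (some j) ^ p := rfl

theorem StarA_some (v : Option T → K) (j : T) : StarA_phi p z v (some j) =
    z (.inr j) * v none ^ p + z (.inl (some j)) * v (some j) ^ p := rfl

theorem StarA_smul (a : K) (v : Option T → K) :
    StarA_phi p z (a • v) = a ^ p • StarA_phi p z v := by
  funext b
  cases b <;>
    simp only [StarA_none, StarA_some, Pi.smul_apply, smul_eq_mul, mul_pow, mul_add,
      Finset.mul_sum, mul_left_comm]

/-- A set of vectors which contains `0` and is closed under preimages is everything. -/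
theorem StarA_back {V : Type*} [Zero V] {φ : V → V} (hn : ∀ v, ∃ n, φ^[n] v = 0) {Z : V → Prop}
    (h0 : Z 0) (h : ∀ v, Z (φ v) → Z v) (v : V) : Z v := by
  obtain ⟨n, hv⟩ := hn v
  induction n generalizing v with
  | zero => exact (show v = 0 from hv) ▸ h0
  | succ n ih => exact h v (ih _ hv)

theorem StarA_exp (p i : ℕ) : p + (p ^ 2 - p) * ∑ l ∈ Finset.range i, p ^ l = p ^ (i + 1) := by
  have h : p ^ 2 - p + p = p ^ 2 := Nat.sub_add_cancel (Nat.le_self_pow two_ne_zero p)
  induction i with
  | zero => simp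
  | succ i ih =>
    rw [Finset.sum_range_succ, mul_add, ← add_assoc, ih, pow_succ' p i, ← add_mul, add_comm, h]
    ring

variable [Fact p.Prime] [CharP K p]

theorem StarA_add (v v' : Option T → K) :
    StarA_phi p z (v + v') = StarA_phi p z v + StarA_phi p z v' := by
  funext b
  cases b <;>
    simp only [StarA_none, StarA_some, Pi.add_apply, add_pow_char, mul_add,
      Finset.sum_add_distrib] <;> ring

omit [CharP K p] in
theorem StarA_zero : StarA_phi p z 0 = 0 := by
  simpa [(Fact.out : p.Prime).ne_zero] using StarA_smul (p := p) (z := z) 0 0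

omit [Fact p.Prime] [CharP K p] in
theorem StarA_eig (hn : ∀ v, ∃ n, (StarA_phi p z)^[n] v = 0) {j : T} (h : z (.inr j) = 0) :
    z (.inl (some j)) = 0 := by
  by_contra hw
  refine one_ne_zero (StarA_back hn (Z := fun v => v (some j) = 0) rfl (fun v hv => ?_) 1)
  rw [StarA_some, h, zero_mul, zero_add] at hv
  exact eq_zero_of_pow_eq_zero ((mul_eq_zero.1 hv).resolve_left hw)

theorem StarA_torus [IsAlgClosed K] (hn : ∀ v, ∃ n, (StarA_phi p z)^[n] v = 0)
    (ht : ∀ j, z (.inr j) ≠ 0) (hw : ∀ j, z (.inl (some j)) ≠ 0) :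
    ∃ U ρ : T → K, (∀ j, U j ≠ 0) ∧ (∀ j, ρ j ≠ 0) ∧
      (Nonempty T → MooreSys p (fun j => U j ^ (p + 1)) ρ) ∧
      (∀ j, z (.inl (some j)) * ρ j = U j ^ (p ^ 2 - p)) ∧
      (∀ j, z (.inr j) = U j ^ p * z (.inl (some j))) ∧
      z (.inl none) = ∑ j, U j ^ p * z (.inr j) ∧
      ∃ v, ∀ a, (StarA_phi p z)^[Fintype.card T] v a ≠ 0 := by
  classical
  have hp : 0 < p := (Fact.out : p.Prime).pos
  choose rt hrt using fun x : K => IsAlgClosed.exists_pow_nat_eq x hp
  obtain ⟨U, hU⟩ : ∃ U : T → K, ∀ j, z (.inr j) = U j ^ p * z (.inl (some j)) :=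
    ⟨fun j => rt (z (.inr j) / z (.inl (some j))), fun j => by
      rw [hrt, div_mul_cancel₀ _ (hw j)]⟩
  have hU0 : ∀ j, U j ≠ 0 := fun j h => ht j (by rw [hU, h, zero_pow hp.ne', zero_mul])
  let L : (Option T → K) →ₗ[K] K :=
    LinearMap.proj none - ∑ j, U j ^ p • LinearMap.proj (some j)
  have hL : ∀ v, L v = v none - ∑ j, U j ^ p * v (some j) := fun v => by simp [L]
  have hL1 : ∀ v, L (StarA_phi p z v) =
      (z (.inl none) - ∑ j, U j ^ p * z (.inr j)) * v none ^ p := by
    intro v
    simp only [hL, StarA_none, StarA_some, mul_add, Finset.sum_add_distrib, sub_mul,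
      Finset.sum_mul, ← mul_assoc, ← hU]
    ring
  have hc : z (.inl none) = ∑ j, U j ^ p * z (.inr j) := by
    by_contra hc
    refine one_ne_zero (congrFun (StarA_back hn (Z := fun v => v = 0) rfl (fun v hv => ?_) 1) none)
    have h1 := hL1 v
    rw [hv, map_zero] at h1
    have h2 : v none ^ p = 0 := (mul_eq_zero.1 h1.symm).resolve_left (sub_ne_zero.2 hc)
    funext a
    cases a with
    | none => exact eq_zero_of_pow_eq_zero h2
    | some j =>
      have h3 := congrFun hv (some j)
      rw [StarA_some, h2, mul_zero, zero_add] at h3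
      exact eq_zero_of_pow_eq_zero ((mul_eq_zero.1 h3).resolve_left (hw j))
  have hL2 : ∀ v, L (StarA_phi p z v) = 0 := fun v => by rw [hL1, hc, sub_self, zero_mul]
  obtain ⟨Y, Y0, Y0', Y1, Y1'⟩ : ∃ Y : ℕ → Option T → K, Y 0 none = 1 ∧
      (∀ j, Y 0 (some j) = -U j) ∧ (∀ n, Y (n + 1) none = 0) ∧
      ∀ n j, z (.inl (some j)) * Y (n + 1) (some j) ^ p = Y n (some j) :=
    ⟨fun n => Nat.rec (fun a => a.elim 1 fun j => -U j)
      (fun _ y a => a.elim 0 fun j => rt (y (some j) / z (.inl (some j)))) n, rfl, fun _ => rfl,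
      fun _ => rfl, fun n j => by
        dsimp only [Option.elim]
        rw [hrt, mul_div_cancel₀ _ (hw j)]⟩
  have hker : ∀ v, StarA_phi p z v = 0 → v = v none • Y 0 := by
    intro v hv
    funext a
    cases a with
    | none => simp [Y0]
    | some j =>
      have h3 := congrFun hv (some j)
      rw [StarA_some, hU] at h3
      have h4 : (v (some j) + U j * v none) ^ p = 0 := by
        rw [add_pow_char, mul_pow]
        refine mul_left_cancel₀ (hw j) ?_
        simp only [Pi.zero_apply] at h3
        linear_combination h3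
      have h5 := eq_zero_of_pow_eq_zero h4
      rw [Pi.smul_apply, Y0', smul_eq_mul]
      linear_combination h5
  have hstep : ∀ n, L (Y n) = 0 → StarA_phi p z (Y (n + 1)) = Y n := by
    intro n h
    have h1 : ∀ j, StarA_phi p z (Y (n + 1)) (some j) = Y n (some j) := fun j => by
      rw [StarA_some, Y1, zero_pow hp.ne', mul_zero, zero_add, Y1']
    funext a
    cases a with
    | none =>
      have h2 := hL2 (Y (n + 1))
      rw [hL] at h h2
      simp only [h1] at h2
      linear_combination h2 - h
    | some j => exact h1 j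
  have hH : ∀ i < Fintype.card T, L (Y i) = 0 := by
    intro i
    induction i using Nat.strong_induction_on with
    | _ i ih =>
    intro hi
    by_contra hne
    let S : Submodule K (Option T → K) := Submodule.span K ((Finset.range (i + 1)).image Y : Finset _)
    have hS : ∀ m ≤ i, Y m ∈ S := fun m hm => Submodule.subset_span
      (Finset.mem_coe.2 (Finset.mem_image_of_mem Y (Finset.mem_range.2 (Nat.lt_succ_of_le hm))))
    have h1 : ∀ x ∈ S, ∃ a : K, ∃ u ∈ S, x = a • Y i + StarA_phi p z u := by
      intro x hx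
      induction hx using Submodule.span_induction with
      | mem x hx =>
        obtain ⟨m, hm, rfl⟩ := Finset.mem_image.1 (Finset.mem_coe.1 hx)
        rcases (Nat.lt_succ_iff.1 (Finset.mem_range.1 hm)).eq_or_lt with rfl | hm'
        · exact ⟨1, 0, zero_mem _, by rw [StarA_zero, one_smul, add_zero]⟩
        · exact ⟨0, Y (m + 1), hS _ hm', by
            rw [hstep m (ih m hm' (hm'.trans hi)), zero_smul, zero_add]⟩
      | zero => exact ⟨0, 0, zero_mem _, by rw [StarA_zero, zero_smul, add_zero]⟩
      | add x y _ _ hx hy =>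
        obtain ⟨a, u, hu, rfl⟩ := hx
        obtain ⟨b, u', hu', rfl⟩ := hy
        exact ⟨a + b, u + u', add_mem hu hu', by rw [StarA_add, add_smul]; abel⟩
      | smul c x _ hx =>
        obtain ⟨a, u, hu, rfl⟩ := hx
        exact ⟨c * a, rt c • u, S.smul_mem _ hu, by rw [StarA_smul, hrt, smul_add, mul_smul]⟩
    have h2 : S = ⊤ := by
      refine eq_top_iff.2 fun v _ => StarA_back hn (Z := fun v => v ∈ S) (zero_mem _)
        (fun v hv => ?_) v
      obtain ⟨a, u, hu, e⟩ := h1 _ hv
      have h3 := congrArg L e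
      rw [map_add, map_smul, hL2, hL2, add_zero, smul_eq_mul] at h3
      rw [(mul_eq_zero.1 h3.symm).resolve_right hne, zero_smul, zero_add,
        ← sub_add_cancel v u, StarA_add, add_eq_right] at e
      rw [← sub_add_cancel v u, hker _ e]
      exact add_mem (S.smul_mem _ (hS 0 i.zero_le)) hu
    have h3 : Module.finrank K S ≤ i + 1 :=
      (finrank_span_finset_le_card _).trans (Finset.card_image_le.trans_eq (Finset.card_range _))
    rw [h2, finrank_top, Module.finrank_fintype_fun_eq_card, Fintype.card_option] at h3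
    omega
  have hY : ∀ i j, z (.inl (some j)) ^ (∑ l ∈ Finset.range i, p ^ l) * Y i (some j) ^ p ^ i =
      -U j := by
    intro i j
    induction i with
    | zero => simp [Y0']
    | succ i ih => rw [Finset.sum_range_succ, pow_add, pow_succ' p i, pow_mul, mul_assoc,
        ← mul_pow, Y1', ih]
  refine ⟨U, fun j => U j ^ (p ^ 2 - p) / z (.inl (some j)), hU0,
    fun j => div_ne_zero (pow_ne_zero _ (hU0 j)) (hw j), fun hT => ⟨?_, fun i h1 hi => ?_⟩,
    fun j => mul_div_cancel₀ _ (hw j), hU, hc, Y (Fintype.card T), ?_⟩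
  · have h := hH 0 Fintype.card_pos
    simp only [hL, Y0, Y0', mul_neg, Finset.sum_neg_distrib, ← pow_succ] at h
    linear_combination h
  · obtain ⟨i, rfl⟩ : ∃ m, i = m + 1 := ⟨i - 1, by omega⟩
    have h := hH _ hi
    rw [hL, Y1, zero_sub, neg_eq_zero] at h
    have h2 := congrArg (· ^ p ^ (i + 1)) h
    simp only [sum_pow_char_pow, zero_pow (pow_pos hp _).ne'] at h2
    rw [← neg_eq_zero, ← Finset.sum_neg_distrib, ← h2]
    refine Finset.sum_congr rfl fun j _ => ?_
    have h3 := hY (i + 1) j
    have h4 := pow_ne_zero (∑ l ∈ Finset.range (i + 1), p ^ l) (hw j)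
    dsimp only
    rw [div_pow, mul_pow, ← pow_mul, ← pow_mul, ← pow_succ' p, ← StarA_exp p (i + 1),
      pow_succ (U j) p, pow_add (U j) p, ← mul_div_assoc, ← neg_div, div_eq_iff h4]
    linear_combination
      -(U j ^ p * U j ^ ((p ^ 2 - p) * ∑ l ∈ Finset.range (i + 1), p ^ l)) * h3
  · have h : ∀ n ≤ Fintype.card T, (StarA_phi p z)^[n] (Y n) = Y 0 := by
      intro n hn
      induction n with
      | zero => rfl
      | succ n ih => rw [Function.iterate_succ_apply, hstep n (hH n hn), ih (by omega)]
    rw [h _ le_rfl]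
    rintro (_ | j)
    · rw [Y0]
      exact one_ne_zero
    · rw [Y0']
      exact neg_ne_zero.2 (hU0 j)

/-- Removing the indices with vanishing diagonal entry. -/
theorem StarA_drop [IsAlgClosed K] [DecidableEq K] (hn : ∀ v, ∃ n, (StarA_phi p z)^[n] v = 0) :
    ∑ j with z (.inl (some j)) = 0, z (.inr j) ^ (p + 1) = 0 ∧
      ∀ v, ∃ n, (StarA_phi p fun a : Option {j // ¬ z (.inl (some j)) = 0} ⊕ _ =>
        z (a.map (Option.map Subtype.val) Subtype.val))^[n] v = 0 := by
  have hp : 0 < p := (Fact.out : p.Prime).pos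
  choose τ hτ using fun j => IsAlgClosed.exists_pow_nat_eq (z (.inr j)) hp
  let s : (Option T → K) → K := fun v => ∑ j with z (.inl (some j)) = 0, τ j * v (some j)
  have s1 : ∀ v, s v ^ p = ∑ j with z (.inl (some j)) = 0, z (.inr j) * v (some j) ^ p := by
    intro v
    simp only [s, sum_pow_char, mul_pow, hτ]
  have s2 : ∀ v, s (StarA_phi p z v) =
      (∑ j with z (.inl (some j)) = 0, τ j * z (.inr j)) * v none ^ p := by
    intro v
    rw [Finset.sum_mul]
    refine Finset.sum_congr rfl fun j hj => ?_
    rw [StarA_some, (Finset.mem_filter.1 hj).2, zero_mul, add_zero, mul_assoc]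
  have s3 : ∀ v, StarA_phi p z v none = z (.inl none) * v none ^ p + (s v ^ p +
      ∑ j : {j // ¬ z (.inl (some j)) = 0}, z (.inr j.1) * v (some j.1) ^ p) := by
    intro v
    rw [StarA_none, s1, ← Finset.sum_filter_add_sum_filter_not Finset.univ
      fun j => z (.inl (some j)) = 0, Finset.sum_subtype (Finset.univ.filter
        fun j => ¬ z (.inl (some j)) = 0) (p := fun j => ¬ z (.inl (some j)) = 0) (by simp)]
  have hc : ∑ j with z (.inl (some j)) = 0, τ j * z (.inr j) = 0 := by
    by_contra hc
    refine one_ne_zero (StarA_back hn (Z := fun v => v none = 0 ∧ s v = 0 ∧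
      ∀ j, ¬ z (.inl (some j)) = 0 → v (some j) = 0) ⟨rfl, by simp [s], fun _ _ => rfl⟩
      (fun v hv => ?_) 1).1
    obtain ⟨h1, h2, h3⟩ := hv
    rw [s2] at h2
    have h4 := (mul_eq_zero.1 h2).resolve_left hc
    have h5 : ∀ j, ¬ z (.inl (some j)) = 0 → v (some j) ^ p = 0 := fun j hj => by
      have := h3 j hj
      rw [StarA_some, h4, mul_zero, zero_add] at this
      exact (mul_eq_zero.1 this).resolve_left hj
    rw [s3, h4, mul_zero, zero_add, Finset.sum_eq_zero fun j _ => by rw [h5 j.1 j.2, mul_zero],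
      add_zero] at h1
    exact ⟨eq_zero_of_pow_eq_zero h4, eq_zero_of_pow_eq_zero h1,
      fun j hj => eq_zero_of_pow_eq_zero (h5 j hj)⟩
  constructor
  · have h := congrArg (· ^ p) hc
    simp only [sum_pow_char, mul_pow, hτ, zero_pow hp.ne', ← pow_succ'] at h
    exact h
  · intro v
    have h1 : ∀ n (u : Option T → K), s u = 0 →
        (StarA_phi p fun a : Option {j // ¬ z (.inl (some j)) = 0} ⊕ _ =>
          z (a.map (Option.map Subtype.val) Subtype.val))^[n] (u ∘ Option.map Subtype.val) =
        (StarA_phi p z)^[n] u ∘ Option.map Subtype.val := by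
      intro n
      induction n with
      | zero => exact fun _ _ => rfl
      | succ n ih =>
        intro u hu
        rw [Function.iterate_succ_apply, Function.iterate_succ_apply,
          ← ih _ (by rw [s2, hc, zero_mul])]
        congr 1
        funext a
        cases a with
        | none =>
          refine Eq.trans ?_ (s3 u).symm
          rw [hu, zero_pow hp.ne', zero_add]
          rfl
        | some j => rfl
    let u : Option T → K := fun a => a.elim (v none) fun j =>
      if h : z (.inl (some j)) = 0 then 0 else v (some ⟨j, h⟩)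
    obtain ⟨n, hu⟩ := hn u
    have h2 : v = u ∘ Option.map Subtype.val := by
      funext a
      cases a with
      | none => rfl
      | some j => exact Eq.symm (a := u (some j.1)) (dif_neg j.2)
    refine ⟨n, ?_⟩
    rw [h2, h1 n u (Finset.sum_eq_zero fun j hj => ?_), hu]
    · rfl
    · exact (congrArg _ (dif_pos (Finset.mem_filter.1 hj).2)).trans (mul_zero _)

end PR0
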