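import Pool.Agent.Work.MP_da2620_ag.Cone
import Pool.Agent.Work.MP_da2620_ag.StarA

/-!
# Nilpotent arrow matrices

Write `w v = z (inl v)`, `t j = z (inr j)`, `r = card T`, `g = r + 1`; `φ(v) (some j) = t j v₀^p +
w j v_j^p`, `φ(v) none = w₀ v₀^p + ∑ t j v_j^p`.  All fields may be enlarged to algebraic closures.
`arrow_torus`: all `t j, w (some j)` nonzero.  Let `U j ^ p = t j / w j`.  Nilpotent implies singular,
so `w₀ = ∑ t² / w`, `y₁ = (1, -U)` spans the kernel, and the image is the hyperplane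
`H = {v₀ = ∑ U j ^ p v j}`; `ψ(v) = (0, (v j / w j) ^ (1/p))` satisfies `φ ψ v = v` on `H`.  Put
`y_(i+1) = ψ y_i`.  For `i ≤ r`, `y_i ∈ H` (else `φ` is onto on the nonzero quotient by the stable span of
`y₁, ..., y_i`).  Raising `y_i ∈ H` to the power `p ^ (i-1)` gives the Moore system for
`ρ j = U j ^ (p² - p) / w j`; and `v = y_(r+1)` has `φ ^ r v = y₁`, all of whose entries are nonzero,
so diagonal `δ` give `onto`.
`arrow_le` (induction on `T`): if `t j = 0` then `w j = 0` and the arrow matrix without `j` is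
nilpotent.  If all `t j ≠ 0` and `J = {j | w j = 0}` is nonempty then `∑_J t ^ (p+1) = 0` (otherwise the
map induced on the coordinates `v₀`, `s = ∑_J t j ^ (1/p) v j`, `v j (j ∉ J)` is bijective), and
the arrow matrix without `J` is nilpotent (it is the map induced on `s = 0`); so the dimension is
`≤ (r - #J) + (#J - 1)`.  In the torus case everything is algebraic over the `ρ j` (`moore`).
`arrow_cone`: for `α = β = 1` use `moore_uniq` (`z` is a rational function of `U, ρ`); the general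
case follows by `ConeHyp.conj` with a diagonal matrix `l` (`l none = 1`, `l j ^ (p+1) = β j / α j`)
and `ConeHyp.scale`.
-/

namespace PR0

open MvPolynomial

universe u

variable {k : Type u} [Field k] {T : Type} [Fintype T] [DecidableEq T]

/-- The family of arrow matrices. -/
def arrow (α β : T → k) : Option T ⊕ T → Matrix (Option T) (Option T) k
  | .inl v => Matrix.single v v 1
  | .inr j => Matrix.single none (some j) (α j) + Matrix.single (some j) none (β j)

variable {p : ℕ} [Fact p.Prime] [CharP k p]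

section aux

variable {K K' : Type u} [Field K] [Algebra k K] [Field K'] [Algebra k K']

theorem Star_lin_scale {G μ : Type} [Fintype μ] (M : μ → Matrix G G k) (s : μ → k) (z : μ → K) :
    lin (fun i => s i • M i) z = lin M fun i => algebraMap k K (s i) * z i := by
  ext a b
  simp [lin, Matrix.sum_apply, mul_assoc, mul_left_comm]

theorem Star_lin_map {G μ : Type} [Fintype μ] (M : μ → Matrix G G k) (z : μ → K)
    (φ : K →ₐ[k] K') : (lin M z).map φ.toRingHom = lin M fun i => φ (z i) := by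
  ext a b
  simp [lin, Matrix.sum_apply]

theorem Star_dm_map {μ : Type} (z : μ → K) (φ : K →ₐ[k] K') :
    dm k (fun i => φ (z i)) = dm k z := by
  rw [dm, dm, ← rk_image φ, ← Set.range_comp]
  rfl

theorem Star_dm_scale {μ : Type} (s : μ → k) (z : μ → K) :
    dm k (fun i => algebraMap k K (s i) * z i) ≤ dm k z := by
  refine rk_le_of_mem ?_
  rintro _ ⟨i, rfl⟩
  exact mul_mem (IntermediateField.algebraMap_mem _ _)
    (IntermediateField.subset_adjoin _ _ ⟨i, rfl⟩)

theorem Star_unscale {μ : Type} {s : μ → k} (hs : ∀ i, s i ≠ 0) (z : μ → K) :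
    (fun i => algebraMap k K (s i)⁻¹ * (algebraMap k K (s i) * z i)) = z := by
  funext i
  rw [← mul_assoc, ← map_mul, inv_mul_cancel₀ (hs i), map_one, one_mul]

theorem Star_dm_eq {μ : Type} {s : μ → k} (hs : ∀ i, s i ≠ 0) (z : μ → K) :
    dm k (fun i => algebraMap k K (s i) * z i) = dm k z :=
  (Star_dm_scale s z).antisymm ((congrArg (dm k) (Star_unscale hs z)).ge.trans
    (Star_dm_scale (fun i => (s i)⁻¹) _))

omit [Fact p.Prime] [CharP k p] in
theorem Star_sapp (z : Option T ⊕ T → K) :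
    sapp p (lin (arrow (fun _ => (1 : k)) fun _ => 1) z) = StarA_phi p z := by
  funext v a
  have e : ∀ a b : Option T, lin (arrow (fun _ => (1 : k)) fun _ => 1) z a b =
      (if a = b then z (.inl a) else 0) + ∑ j, ((if none = a ∧ some j = b then z (.inr j) else 0)
        + if some j = a ∧ none = b then z (.inr j) else 0) := by
    intro a b
    simp only [lin, Matrix.sum_apply, Fintype.sum_sum_type, arrow, Matrix.smul_apply,
      Matrix.map_apply, Matrix.add_apply, Matrix.single_apply, map_add, smul_eq_mul, mul_add,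
      apply_ite (algebraMap k K), map_one, map_zero, mul_ite, mul_one, mul_zero]
    congr 1
    rw [Finset.sum_eq_single a (fun c _ hc => if_neg fun h => hc h.1) (by simp)]
    simp
  cases a <;> simp [sapp, Matrix.mulVec, dotProduct, e, StarA_none, StarA_some]

theorem Star_nil {z : Option T ⊕ T → K} : SNil p (lin (arrow (fun _ => (1 : k)) fun _ => 1) z) ↔
    ∀ v, ∃ n, (StarA_phi p z)^[n] v = 0 := by
  have := charP_of_injective_algebraMap (algebraMap k K).injective p
  rw [snil_iff, Star_sapp]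

end aux

theorem ConeHyp.scale {G μ : Type} [Fintype G] [DecidableEq G] [Fintype μ]
    {M : μ → Matrix G G k} (h : ConeHyp p M) (s : μ → k) (hs : ∀ i, s i ≠ 0) :
    ConeHyp p fun i => s i • M i := by
  refine ⟨fun K _ _ z hz => ?_, fun K K' _ _ _ _ z z' hz hz' hd hd' => ?_,
    fun K _ _ _ z hz hd => ?_⟩
  · rw [Star_lin_scale] at hz
    rw [← Star_dm_eq hs z]
    exact h.le K _ hz
  · rw [Star_lin_scale] at hz hz'
    rw [← Star_dm_eq hs] at hd hd'
    have h1 := (h.uniq K K' _ _ hz hz' hd hd').aeval fun i => C (s i)⁻¹ * X i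
    simp only [map_mul, aeval_C, aeval_X] at h1
    rwa [Star_unscale hs, Star_unscale hs] at h1
  · rw [Star_lin_scale] at hz ⊢
    rw [← Star_dm_eq hs] at hd
    obtain ⟨v, hv⟩ := h.onto K _ hz hd
    refine ⟨v, fun w => ?_⟩
    obtain ⟨δ, hδ⟩ := hv w
    refine ⟨fun i => algebraMap k K (s i)⁻¹ * δ i, ?_⟩
    have h1 := Star_unscale (s := fun i => (s i)⁻¹) (fun i => inv_ne_zero (hs i)) δ
    simp only [inv_inv] at h1
    rw [Star_lin_scale, h1, hδ]

theorem arrow_torus {K : Type u} [Field K] [Algebra k K] [IsAlgClosed K] {z : Option T ⊕ T → K}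
    (hn : SNil p (lin (arrow (fun _ => (1 : k)) fun _ => 1) z)) (ht : ∀ j, z (.inr j) ≠ 0)
    (hw : ∀ j, z (.inl (some j)) ≠ 0) :
    ∃ U ρ : T → K, (∀ j, U j ≠ 0) ∧ (∀ j, ρ j ≠ 0) ∧
      (Nonempty T → MooreSys p (fun j => U j ^ (p + 1)) ρ) ∧
      (∀ j, z (.inl (some j)) * ρ j = U j ^ (p ^ 2 - p)) ∧
      (∀ j, z (.inr j) = U j ^ p * z (.inl (some j))) ∧
      z (.inl none) = ∑ j, U j ^ p * z (.inr j) ∧
      ∃ v, ∀ a, (sapp p (lin (arrow (fun _ => (1 : k)) fun _ => 1) z))^[Fintype.card T] v a ≠ 0 := by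
  have := charP_of_injective_algebraMap (algebraMap k K).injective p
  rw [Star_sapp]
  exact StarA_torus (Star_nil.1 hn) ht hw

omit [DecidableEq T] in
theorem Star_dm_rho {K : Type u} [Field K] [Algebra k K] {z : Option T ⊕ T → K} {U ρ : T → K}
    (h0 : ∀ j, ρ j ≠ 0) (h1 : Nonempty T → MooreSys p (fun j => U j ^ (p + 1)) ρ)
    (h2 : ∀ j, z (.inl (some j)) * ρ j = U j ^ (p ^ 2 - p))
    (h3 : ∀ j, z (.inr j) = U j ^ p * z (.inl (some j)))
    (h4 : z (.inl none) = ∑ j, U j ^ p * z (.inr j)) : dm k z ≤ rk k (Set.range ρ) := by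
  refine (rk_le_of_mem (s := Set.range U ∪ Set.range ρ) ?_).trans (rk_le_of_alg ?_)
  · have hU : ∀ j, U j ∈ IntermediateField.adjoin k (Set.range U ∪ Set.range ρ) :=
      fun j => IntermediateField.subset_adjoin _ _ (.inl ⟨j, rfl⟩)
    have hw : ∀ j, z (.inl (some j)) ∈ IntermediateField.adjoin k (Set.range U ∪ Set.range ρ) :=
      fun j => by
        rw [eq_div_of_mul_eq (h0 j) (h2 j)]
        exact div_mem (pow_mem (hU j) _) (IntermediateField.subset_adjoin _ _ (.inr ⟨j, rfl⟩))
    have ht : ∀ j, z (.inr j) ∈ IntermediateField.adjoin k (Set.range U ∪ Set.range ρ) :=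
      fun j => h3 j ▸ mul_mem (pow_mem (hU j) _) (hw j)
    rintro _ ⟨(_ | j) | j, rfl⟩
    · exact h4 ▸ sum_mem fun j _ => mul_mem (pow_mem (hU j) _) (ht j)
    · exact hw j
    · exact ht j
  · rintro _ (⟨j, rfl⟩ | ⟨j, rfl⟩)
    · exact (moore (k := k) h0 (h1 ⟨j⟩) j).of_pow p.succ_pos
    · exact isAlgebraic_algebraMap
        (⟨ρ j, Algebra.subset_adjoin ⟨j, rfl⟩⟩ : Algebra.adjoin k (Set.range ρ))

omit [DecidableEq T] in
theorem Star_rk_le {K : Type u} [Field K] [Algebra k K] (ρ : T → K) :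
    rk k (Set.range ρ) ≤ Fintype.card T := by
  refine (rk_le_encard _).trans ?_
  rw [← Set.image_univ]
  refine (Set.encard_image_le _ _).trans ?_
  simp

omit [DecidableEq T] in
theorem Star_dm_torus {K : Type u} [Field K] [Algebra k K] [IsAlgClosed K] [CharP K p]
    {z : Option T ⊕ T → K} (hn : ∀ v, ∃ n, (StarA_phi p z)^[n] v = 0)
    (hw : ∀ j, z (.inl (some j)) ≠ 0) : dm k z ≤ Fintype.card T := by
  obtain ⟨U, ρ, -, h0, h1, h2, h3, h4, -⟩ :=
    StarA_torus hn (fun j h => hw j (StarA_eig hn h)) hw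
  exact (Star_dm_rho h0 h1 h2 h3 h4).trans (Star_rk_le ρ)

theorem Star_dm_lt {K : Type u} [Field K] [Algebra k K] [IsAlgClosed K] [CharP K p]
    {z : Option T ⊕ T → K} (hn : ∀ v, ∃ n, (StarA_phi p z)^[n] v = 0) {j₀ : T}
    (hj : z (.inl (some j₀)) = 0) : ∃ m : ℕ, dm k z ≤ m ∧ m < Fintype.card T := by
  classical
  obtain ⟨h1, h2⟩ := StarA_drop hn
  have h3 := Star_dm_torus (k := k) h2 fun j => j.2
  set J : Finset T := Finset.univ.filter fun j => z (.inl (some j)) = 0 with hJ
  have hj' : j₀ ∈ J := Finset.mem_filter.2 ⟨Finset.mem_univ _, hj⟩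
  refine ⟨Fintype.card {j // ¬ z (.inl (some j)) = 0} + (J.erase j₀).card, ?_, ?_⟩
  · rw [Nat.cast_add]
    refine le_trans (rk_le_of_alg ?_) ((rk_union_le _ ((fun j => z (.inr j)) '' J.erase j₀)).trans
      (add_le_add h3 ((rk_le_encard _).trans ((Set.encard_image_le _ _).trans_eq
        (Set.encard_coe_eq_coe_finsetCard _)))))
    have hm : ∀ {s : Set K} {y : K}, y ∈ Algebra.adjoin k s → IsAlgebraic (Algebra.adjoin k s) y :=
      fun hy => isAlgebraic_algebraMap (⟨_, hy⟩ : Algebra.adjoin k _)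
    rintro _ ⟨(_ | j) | j, rfl⟩
    · exact hm (Algebra.subset_adjoin (.inl ⟨.inl none, rfl⟩))
    · by_cases h : z (.inl (some j)) = 0
      · rw [h]
        exact hm (zero_mem _)
      · exact hm (Algebra.subset_adjoin (.inl ⟨.inl (some ⟨j, h⟩), rfl⟩))
    · by_cases h : z (.inl (some j)) = 0
      · by_cases e : j = j₀
        · subst e
          refine IsAlgebraic.of_pow p.succ_pos (hm ?_)
          rw [← Finset.add_sum_erase J _ hj'] at h1
          rw [eq_neg_of_add_eq_zero_left h1]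
          refine neg_mem (sum_mem fun i hi => pow_mem (Algebra.subset_adjoin (.inr ?_)) _)
          exact ⟨i, hi, rfl⟩
        · exact hm (Algebra.subset_adjoin (.inr ⟨j, Finset.mem_erase.2
            ⟨e, Finset.mem_filter.2 ⟨Finset.mem_univ _, h⟩⟩, rfl⟩))
      · exact hm (Algebra.subset_adjoin (.inl ⟨.inr ⟨j, h⟩, rfl⟩))
  · have a1 := Finset.card_erase_add_one hj'
    have a2 := Finset.card_filter_add_card_filter_not (s := Finset.univ)
      fun j => z (.inl (some j)) = 0
    rw [Fintype.card_subtype]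
    rw [Finset.card_univ, ← hJ] at a2
    omega

theorem arrow_le {K : Type u} [Field K] [Algebra k K] {z : Option T ⊕ T → K}
    (hn : SNil p (lin (arrow (fun _ => (1 : k)) fun _ => 1) z)) :
    dm k z ≤ Fintype.card T ∧ ((Fintype.card T : ℕ∞) ≤ dm k z →
      (∀ j, z (.inr j) ≠ 0) ∧ ∀ j, z (.inl (some j)) ≠ 0) := by
  let φ := IsScalarTower.toAlgHom k K (AlgebraicClosure K)
  have := charP_of_injective_algebraMap (algebraMap k (AlgebraicClosure K)).injective p
  have h1 := hn.map φ.toRingHom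
  rw [Star_lin_map, Star_nil] at h1
  rw [← Star_dm_map z φ]
  by_cases hw : ∀ j, φ (z (.inl (some j))) ≠ 0
  · have h2 : ∀ j, z (.inl (some j)) ≠ 0 := fun j h => hw j (by rw [h, map_zero])
    exact ⟨Star_dm_torus h1 hw, fun _ => ⟨fun j h => h2 j (StarA_eig (Star_nil.1 hn) h), h2⟩⟩
  · obtain ⟨j, hj⟩ := not_forall.1 hw
    obtain ⟨m, h2, h3⟩ := Star_dm_lt (k := k) h1 (not_not.1 hj)
    exact ⟨h2.trans (Nat.cast_le.2 h3.le), fun h => absurd (Nat.cast_le.1 (h.trans h2)) h3.not_ge⟩

omit [DecidableEq T] in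
theorem Star_card {d : ℕ∞} (h : (Fintype.card (Option T ⊕ T) : ℕ∞) ≤ d + Fintype.card (Option T)) :
    (Fintype.card T : ℕ∞) ≤ d := by
  rw [Fintype.card_sum, Nat.cast_add, add_comm] at h
  exact (ENat.add_le_add_iff_right (ENat.natCast_ne_top _)).1 h

theorem Star_uniq [IsAlgClosed k] (hT : 2 ≤ Fintype.card T) {K K' : Type u} [Field K]
    [Algebra k K] [IsAlgClosed K] [Field K'] [Algebra k K'] [IsAlgClosed K']
    {z : Option T ⊕ T → K} {z' : Option T ⊕ T → K'}
    (hn : SNil p (lin (arrow (fun _ => (1 : k)) fun _ => 1) z))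
    (hn' : SNil p (lin (arrow (fun _ => (1 : k)) fun _ => 1) z'))
    (hd : (Fintype.card T : ℕ∞) ≤ dm k z) (hd' : (Fintype.card T : ℕ∞) ≤ dm k z') : Spc k z z' := by
  have hne : Nonempty T := Fintype.card_pos_iff.1 (by omega)
  obtain ⟨ht, hw⟩ := (arrow_le hn).2 hd
  obtain ⟨ht', hw'⟩ := (arrow_le hn').2 hd'
  obtain ⟨U, ρ, -, h0, h1, h2, h3, h4, -⟩ := arrow_torus hn ht hw
  obtain ⟨U', ρ', -, h0', h1', h2', h3', h4', -⟩ := arrow_torus hn' ht' hw'
  have i1 : AlgebraicIndependent k ρ := indep_of_rk (by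
    rw [Nat.card_eq_fintype_card]
    exact hd.trans (Star_dm_rho h0 h1 h2 h3 h4))
  have i2 : AlgebraicIndependent k ρ' := indep_of_rk (by
    rw [Nat.card_eq_fintype_card]
    exact hd'.trans (Star_dm_rho h0' h1' h2' h3' h4'))
  obtain ⟨Ω, _, _, _, φ, φ', e⟩ := amalgam (moore_uniq hT i1 i2 (h1 hne) (h1' hne))
    (moore_uniq hT i2 i1 (h1' hne) (h1 hne))
  have eU : ∀ j, φ (U j) = φ' (U' j) := fun j => e (.inl j)
  have eρ : ∀ j, φ (ρ j) = φ' (ρ' j) := fun j => e (.inr j)
  have ew : ∀ j, φ (z (.inl (some j))) = φ' (z' (.inl (some j))) := fun j => by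
    rw [eq_div_of_mul_eq (h0 j) (h2 j), eq_div_of_mul_eq (h0' j) (h2' j), map_div₀, map_div₀,
      map_pow, map_pow, eU, eρ]
  have et : ∀ j, φ (z (.inr j)) = φ' (z' (.inr j)) := fun j => by
    rw [h3, h3', map_mul, map_mul, map_pow, map_pow, eU, ew]
  have ez : (fun i => φ (z i)) = fun i => φ' (z' i) := by
    funext i
    rcases i with (_ | j) | j
    · simp only [h4, h4', map_sum, map_mul, map_pow, eU, et]
    · exact ew j
    · exact et j
  exact (Spc.map z φ).trans (ez ▸ Spc.of_map z' φ' φ'.toRingHom.injective)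

theorem Star_cone [IsAlgClosed k] (hT : 2 ≤ Fintype.card T) :
    ConeHyp p (arrow (fun _ : T => (1 : k)) fun _ => 1) := by
  refine ⟨fun K _ _ z hz => ?_, fun K K' _ _ _ _ z z' hz hz' hd hd' => ?_,
    fun K _ _ _ z hz hd => ?_⟩
  · rw [Fintype.card_sum, Nat.cast_add, add_comm]
    exact add_le_add_right (arrow_le hz).1 _
  · let φ := IsScalarTower.toAlgHom k K (AlgebraicClosure K)
    let φ' := IsScalarTower.toAlgHom k K' (AlgebraicClosure K')
    have h1 := hz.map φ.toRingHom
    have h2 := hz'.map φ'.toRingHom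
    rw [Star_lin_map] at h1 h2
    exact (Spc.map z φ).trans ((Star_uniq hT h1 h2 ((Star_card hd).trans_eq (Star_dm_map z φ).symm)
      ((Star_card hd').trans_eq (Star_dm_map z' φ').symm)).trans
      (Spc.of_map z' φ' φ'.toRingHom.injective))
  · obtain ⟨ht, hw⟩ := (arrow_le hz).2 (Star_card hd)
    obtain ⟨-, -, -, -, -, -, -, -, v, hv⟩ := arrow_torus hz ht hw
    refine ⟨v, fun w => ?_⟩
    rw [Fintype.card_option, Nat.add_sub_cancel]
    generalize (sapp p (lin (arrow (fun _ => (1 : k)) fun _ => 1) z))^[Fintype.card T] v = x at hv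
    refine ⟨Sum.elim (fun a => w a / x a ^ p) 0, ?_⟩
    rw [Star_sapp]
    funext a
    cases a <;> simp [StarA_none, StarA_some, hv]

theorem arrow_cone [IsAlgClosed k] (hT : 2 ≤ Fintype.card T) {α β : T → k} (hα : ∀ j, α j ≠ 0)
    (hβ : ∀ j, β j ≠ 0) : ConeHyp p (arrow α β) := by
  have hp : p ≠ 0 := (Fact.out : p.Prime).ne_zero
  choose m hm using fun j => IsAlgClosed.exists_pow_nat_eq (β j / α j) p.succ_pos
  have hm0 : ∀ j, m j ≠ 0 := fun j h => div_ne_zero (hβ j) (hα j) (by
    rw [← hm, h, zero_pow p.succ_ne_zero])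
  let l : Option T → k := fun a => a.elim 1 m
  have hl : ∀ a, l a ≠ 0 := by
    rintro (_ | j)
    exacts [one_ne_zero, hm0 j]
  have hB : IsUnit (Matrix.diagonal l).det := by
    rw [Matrix.det_diagonal]
    exact (Finset.prod_ne_zero_iff.2 fun a _ => hl a).isUnit
  have hI : ((Matrix.diagonal l).map (· ^ p))⁻¹ = Matrix.diagonal fun a => (l a ^ p)⁻¹ := by
    refine Matrix.inv_eq_right_inv ?_
    rw [Matrix.diagonal_map (f := (· ^ p)) (zero_pow hp), Matrix.diagonal_mul_diagonal,
      ← Matrix.diagonal_one]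
    exact congrArg _ (funext fun a => mul_inv_cancel₀ (pow_ne_zero _ (hl a)))
  have h := ((Star_cone (p := p) hT).conj hB).scale
    (Sum.elim (fun a => l a ^ p / l a) fun j => α j * m j ^ p) (by
      rintro (a | j)
      · exact div_ne_zero (pow_ne_zero _ (hl a)) (hl a)
      · exact mul_ne_zero (hα j) (pow_ne_zero _ (hm0 j)))
  convert h using 1
  funext i
  ext a b
  rw [hI, Matrix.smul_apply, Matrix.mul_diagonal, Matrix.diagonal_mul, smul_eq_mul]
  rcases i with v | j
  · simp only [arrow, Matrix.single_apply, Sum.elim_inl]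
    split_ifs with e
    · obtain ⟨rfl, rfl⟩ := e
      have := hl v
      field_simp
    · simp
  · have h1 : α j * (m j ^ p * m j) = β j := by
      rw [← pow_succ, hm, mul_div_cancel₀ _ (hα j)]
    simp only [arrow, Matrix.add_apply, Matrix.single_apply, Sum.elim_inr]
    split_ifs with e e' e'
    · exact absurd (e.1.trans e'.1.symm) (by simp)
    · obtain ⟨rfl, rfl⟩ := e
      have := hm0 j
      simp only [l, Option.elim]
      field_simp
      ring
    · obtain ⟨rfl, rfl⟩ := e'
      simp only [l, Option.elim]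
      rw [← h1]
      ring
    · simp

end PR0
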