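import Pool.Agent.Work.MP_da2620_ag.Disc

/-!
# Functions with a simple pole at a node
-/

namespace PR0

universe u

variable {k L : Type u} [Field k] [IsAlgClosed k] [Field L] [Algebra k L] [Fact (IsFF k L)]
  {ι : Type} [Fintype ι] [DecidableEq ι]

/-- `s` has a simple pole at the finite point `P`, with polar part `1 / (x - x(P))`, and no other
finite pole; `r` is the derivative at `P`. -/
structure StarT_Nd (d : CD k L ι) (P : Place k L) (s : L) (r : L →ₗ[k] k) : Prop where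
  fin : d.x ∈ P.1
  ge : P.Ge s (-1)
  reg : ∀ Q, Q ≠ P → Q ∉ Set.range d.pl → s ∈ Q.1
  r_x : r d.x = 1
  val : ∀ f ∈ P.1, P.val (s * (f - algebraMap k L (P.val f))) = r f

theorem StarT_exists_nd [Nonempty ι] (d : CD k L ι) {P : Place k L} (hx : d.x ∈ P.1)
    (h2 : ¬ P.Ge (d.x - algebraMap k L (P.val d.x)) 2) (S : Finset (Place k L))
    (hS : ∀ Q ∈ S, d.x ∈ Q.1) :
    ∃ s r, StarT_Nd d P s r ∧ ∀ Q ∈ S, Q ≠ P → Q.Ge s 1 := by
  classical
  have h0 : d.x - algebraMap k L (P.val d.x) ≠ 0 := fun e => h2 (.inl e)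
  have h1 : P.ord (d.x - algebraMap k L (P.val d.x)) = 1 := by
    have h3 := (P.ge_sub_val hx).resolve_left h0
    have h4 : ¬ 2 ≤ P.ord (d.x - algebraMap k L (P.val d.x)) := fun e => h2 (.inr e)
    omega
  obtain ⟨e, he, hge⟩ := exists_ex P h0 h1
  have hv : ∀ f ∈ P.1, P.val f = (e f).cf 0 := fun f hf => P.val_eq ((hge _ _).2 fun m hm => by
    rw [map_sub, AlgHom.commutes, LS.cf_sub, LS.cf_algebraMap]
    split_ifs with h
    · rw [h, sub_self]
    · rw [(hge _ _).1 (P.mem_iff.1 hf) m (by omega), sub_zero])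
  have hc : 1 ≤ Fintype.card ι := Fintype.card_pos
  have hz : H1z (((2 * genus k L + S.card : ℕ) : ℤ) • d.inf - ∑ Q ∈ S, Finsupp.single Q 1) :=
    h1z_of_deg (by
      rw [dg_sub, dg_smul, d.CD_dg_inf, dg_sum]
      simp only [dg_single, Finset.sum_const, nsmul_eq_mul, mul_one]
      push_cast
      nlinarith [mul_nonneg (Nat.cast_nonneg (α := ℤ) (2 * genus k L + S.card))
        (sub_nonneg.2 (Nat.one_le_cast (α := ℤ).2 hc))])
  obtain ⟨s, hs⟩ := hz _ (rr_ind_mem (Set.finite_singleton P) (d.x - algebraMap k L (P.val d.x))⁻¹)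
  have hD : ∀ Q, Q ∉ Set.range d.pl → -((((2 * genus k L + S.card : ℕ) : ℤ) • d.inf -
      ∑ Q ∈ S, Finsupp.single Q 1 : Dv k L) Q) = if Q ∈ S then 1 else 0 := fun Q hQ => by
    rw [Finsupp.sub_apply, Finsupp.smul_apply, d.CD_inf_not hQ, smul_zero, zero_sub, neg_neg,
      Finsupp.finsetSum_apply]
    simp only [Finsupp.single_apply, Finset.sum_ite_eq']
  have hfin : ∀ Q : Place k L, d.x ∈ Q.1 → Q ∉ Set.range d.pl := by
    rintro _ hQ ⟨i, rfl⟩
    exact d.CD_x_notMem i hQ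
  have hP : (e s - LS.T k (-1)).Ge 0 := by
    have h3 := hs P
    rw [hD P (hfin P hx), Set.indicator_of_mem (Set.mem_singleton P)] at h3
    have h4 := (hge _ _).1 (h3.mono (m := 0) (by split_ifs <;> omega))
    rwa [map_sub, map_inv₀, he, ← eq_inv_of_mul_eq_one_right
      (show LS.T k 1 * LS.T k (-1) = 1 by rw [← LS.T_add]; rfl)] at h4
  have hP1 : (e s).Ge (-1) := by
    have h3 := (hP.mono (m := -1) (by omega)).add (LS.ge_T (-1))
    rwa [sub_add_cancel] at h3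
  have hP2 : (e s).cf (-1) = 1 := by
    have h3 := hP (-1) (by omega)
    rwa [LS.cf_sub, LS.cf_T, if_pos rfl, sub_eq_zero] at h3
  have hQ : ∀ Q, Q ≠ P → Q ∉ Set.range d.pl → Q.Ge s (if Q ∈ S then 1 else 0) := fun Q h3 h4 => by
    have h5 := hs Q
    rwa [hD Q h4, Set.indicator_of_notMem (by simpa using h3), sub_zero] at h5
  refine ⟨s, ⟨⟨fun f => (e f).cf 1, fun f g => by rw [map_add, LS.cf_add]⟩, fun c f =>
    (congrArg (LS.cf · 1) (map_smul e c f)).trans (LS.cf_smul _ _ _)⟩, ⟨hx, (hge _ _).2 hP1, fun Q h3 h4 => Q.mem_iff.2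
      ((hQ Q h3 h4).mono (by split_ifs <;> omega)), ?_, fun f hf => ?_⟩, fun Q h3 h4 => ?_⟩
  · have h3 := congrArg (fun F : LS k => F.cf 1) he
    simp only [map_sub, AlgHom.commutes, LS.cf_sub, LS.cf_algebraMap, LS.cf_T] at h3
    simpa using h3
  · have h3 := P.ge_sub_val hf
    rw [hv _ (P.mem_iff.2 (((hge _ _).2 hP1).mul h3)), map_mul]
    have h4 := LS.cf_mul_lead hP1 ((hge _ _).1 h3)
    rw [neg_add_cancel] at h4
    rw [h4, hP2, one_mul, map_sub, AlgHom.commutes, LS.cf_sub, LS.cf_algebraMap, if_neg one_ne_zero,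
      sub_zero]
    rfl
  · have h5 := hQ Q h4 (hfin Q (hS Q h3))
    rwa [if_pos h3] at h5

namespace StarT_Nd

variable {d : CD k L ι} {P : Place k L} {s : L} {r : L →ₗ[k] k} (h : StarT_Nd d P s r)
include h

theorem mem_P {f : L} (hf : f ∈ d.reg) : f ∈ P.1 := Comb_mem d h.fin hf

theorem mem0 {f : L} (hf : f ∈ d.reg) (h0 : P.val f = 0) : s * f ∈ d.reg := fun Q hQ => by
  rcases eq_or_ne Q P with rfl | hne
  · exact Q.mem_iff.2 (h.ge.mul ((Q.val_eq_zero (h.mem_P hf)).1 h0))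
  · exact mul_mem (h.reg Q hne hQ) (hf Q hQ)

omit [Fintype ι] [DecidableEq ι] h in
theorem val_sub {f : L} (hf : f ∈ P.1) : P.val (f - algebraMap k L (P.val f)) = 0 :=
  (P.val_eq_zero (sub_mem hf (P.2.2 _))).2 (P.ge_sub_val hf)

theorem mem {f : L} (hf : f ∈ d.reg) : s * (f - algebraMap k L (P.val f)) ∈ d.reg :=
  h.mem0 (sub_mem hf (algebraMap_mem _ _)) (val_sub (h.mem_P hf))

omit [Fintype ι] [DecidableEq ι] in
theorem memP {f : L} (hf : f ∈ P.1) : s * (f - algebraMap k L (P.val f)) ∈ P.1 :=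
  P.mem_iff.2 (h.ge.mul (P.ge_sub_val hf))

omit [Fintype ι] [DecidableEq ι] in
theorem r_const (c : k) : r (algebraMap k L c) = 0 := by
  rw [← h.val _ (P.2.2 c), P.val_const, sub_self, mul_zero, ← map_zero (algebraMap k L), P.val_const]

omit [Fintype ι] [DecidableEq ι] in
theorem r_mul {f g : L} (hf : f ∈ P.1) (hg : g ∈ P.1) :
    r (f * g) = P.val f * r g + P.val g * r f := by
  have h1 := P.val_mul (P.2.2 (P.val g)) (h.memP hf)
  rw [P.val_const] at h1
  rw [← h.val _ (mul_mem hf hg), ← h.val _ hf, ← h.val _ hg, P.val_mul hf hg,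
    ← P.val_mul hf (h.memP hg), ← h1,
    ← P.val_add (mul_mem hf (h.memP hg)) (mul_mem (P.2.2 _) (h.memP hf)), map_mul]
  exact congrArg _ (by ring)

theorem ntriv (hg : genus k L ≠ 0) {a : L} (ha : a ∈ d.reg) : ¬ Pole (d.exT (s - a)) 0 := fun h1 => by
  have h2 : s - a ∈ Lsp (Finsupp.single P (1 : ℤ)) := fun Q => by
    rcases eq_or_ne Q P with rfl | hne
    · rw [Finsupp.single_eq_same]
      exact h.ge.sub ((Q.mem_iff.1 (h.mem_P ha)).mono (by omega))
    · rw [Finsupp.single_eq_of_ne hne, neg_zero]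
      by_cases hQ : Q ∈ Set.range d.pl
      · obtain ⟨i, rfl⟩ := hQ
        exact (d.ge_iff i _ _).2 ((h1 i).mono neg_zero.ge)
      · exact Q.mem_iff.1 (sub_mem (h.reg Q hne hQ) (ha Q hQ))
  have h3 : Lsp (0 : Dv k L) = Lsp (Finsupp.single P (1 : ℤ)) :=
    Submodule.eq_of_le_of_finrank_eq (rr_Lsp_mono (Finsupp.single_nonneg.2 zero_le_one))
      (ell_zero.trans (ell_single hg P).symm)
  rw [← h3] at h2
  have h4 : s ∈ P.1 := by
    have h5 := add_mem (P.mem_iff.2 (h2 P)) (h.mem_P ha)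
    rwa [sub_add_cancel] at h5
  have h5 := h.val _ h.fin
  rw [h.r_x, P.val_mul h4 (sub_mem h.fin (P.2.2 _)), val_sub h.fin, mul_zero] at h5
  exact zero_ne_one h5

end StarT_Nd

end PR0
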