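import Pool.Agent.Work.MP_da2620_ag.StarTA
import Pool.Agent.Work.MP_da2620_ag.Star
import Pool.Agent.Work.MP_da2620_ag.HermTA

/-!
# The residue pairing and the differential of the Hasse-Witt matrix at a star
-/

namespace PR0

universe u

variable {k : Type u} [Field k] {ι : Type} [Fintype ι]

/-- The residue of `F dG`, as a linear form in `F`. -/
noncomputable def StarT_rs (G : LT ι k) : LT ι k →ₗ[k] k where
  toFun F := ∑ i, (F i * LS.dx (G i)).cf 1
  map_add' F F' := by simp only [Pi.add_apply, add_mul, LS.cf_add, Finset.sum_add_distrib]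
  map_smul' c F := by
    simp only [Pi.smul_apply, smul_mul_assoc, LS.cf_smul, RingHom.id_apply, smul_eq_mul,
      Finset.mul_sum]

theorem StarT_rs_apply (G F : LT ι k) : StarT_rs G F = ∑ i, (F i * LS.dx (G i)).cf 1 := rfl

theorem StarT_rs_congr {G F G' F' : LT ι k}
    (h : ∀ i, F i * LS.dx (G i) = F' i * LS.dx (G' i)) : StarT_rs G F = StarT_rs G' F' :=
  Finset.sum_congr rfl fun i _ => congrArg (LS.cf · 1) (h i)

theorem StarT_rs_zero {G F : LT ι k} (h : ∀ i, F i * LS.dx (G i) = 0) : StarT_rs G F = 0 :=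
  Finset.sum_eq_zero fun i _ => congrArg (LS.cf · 1) (h i)

theorem StarT_rs_add (G G' F : LT ι k) : StarT_rs (G + G') F = StarT_rs G F + StarT_rs G' F := by
  simp only [StarT_rs_apply, Pi.add_apply, map_add, mul_add, LS.cf_add, Finset.sum_add_distrib]

theorem StarT_rs_mul (G G' F : LT ι k) :
    StarT_rs (G * G') F = StarT_rs G' (F * G) + StarT_rs G (F * G') := by
  simp only [StarT_rs_apply, Pi.mul_apply, Derivation.leibniz, smul_eq_mul, mul_add, LS.cf_add,
    Finset.sum_add_distrib, mul_assoc]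

theorem StarT_rs_inj {ι' : Type} [Fintype ι'] {φ : ι' → ι} (hφ : Function.Injective φ)
    {G : LT ι k} (h : ∀ i, i ∉ Set.range φ → LS.dx (G i) = 0) (F : LT ι k) :
    StarT_rs G F = StarT_rs (G ∘ φ) (F ∘ φ) :=
  (Fintype.sum_of_injective φ hφ _ _ (fun i hi => by rw [h i hi, mul_zero, LS.cf_zero])
    fun _ => rfl).symm

omit [Fintype ι] in
theorem StarT_pm_inj [DecidableEq ι] {ι' : Type} [DecidableEq ι'] {φ : ι' → ι}
    (hφ : Function.Injective φ) (μ : ι' × ℕ) (i : ι') : pm k (φ μ.1, μ.2) (φ i) = pm k μ i := by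
  simp only [pm, Pi.single_apply, hφ.eq_iff]

theorem StarT_dx_C (c : k) : LS.dx (algebraMap k (LS k) c) = 0 := Derivation.map_algebraMap _ c

variable [DecidableEq ι] {J : Finset (ι × ℕ)} {A : Subalgebra k (LT ι k)}

theorem StarT_sym [IsAlgClosed k] (h : IsChart J A) (i₀ : ι) (D : DerQ A) {f g : A} {F G : LT ι k}
    (hF : D.1 f = Submodule.Quotient.mk F) (hG : D.1 g = Submodule.Quotient.mk G) :
    StarT_rs g.1 F = StarT_rs f.1 G := h.rs_sym i₀ D hF hG

theorem StarT_res [IsAlgClosed k] (h : IsChart J A) (i₀ : ι) {f g : LT ι k} (hf : f ∈ A)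
    (hg : g ∈ A) : StarT_rs g f = 0 := h.rs_zero i₀ hf hg

variable (p : ℕ) [Fact p.Prime] [CharP k p]

omit [Fintype ι] [DecidableEq ι] [Fact p.Prime] in
theorem StarT_ge2 {F H : LT ι k} (h : Pole (F ^ p - H) 0) (i : ι) : (LS.dx (H i)).Ge 2 := by
  have h4 := ((h i).mono neg_zero.ge).dx.neg
  rwa [Pi.sub_apply, map_sub, Pi.pow_apply, Derivation.leibniz_pow,
    ← Nat.cast_smul_eq_nsmul (LS k), CharP.cast_eq_zero, zero_smul, zero_sub, neg_neg] at h4

theorem StarT_dec (h : IsChart J A) (i₀ : ι) (F : LT ι k) :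
    ∃ a ∈ A, Pole (F - pv J (cls i₀ J A F) - a) 0 :=
  (h.cls_eq_zero i₀).1 (((Chart_clsL i₀ J A).map_sub _ _).trans
    (sub_eq_zero.2 (h.cls_pv i₀ _).symm))

/-- the residue pairing with a regular differential factors through `H¹` -/
theorem StarT_rs_cls [IsAlgClosed k] (h : IsChart J A) (i₀ : ι) {H : LT ι k} (hH : H ∈ A)
    (h2 : ∀ i, (LS.dx (H i)).Ge 2) (F : LT ι k) :
    StarT_rs H F = ∑ μ : J, cls i₀ J A F μ * StarT_rs H (pm k μ.1) := by
  obtain ⟨a, ha, h1⟩ := StarT_dec h i₀ F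
  have h3 : StarT_rs H (F - pv J (cls i₀ J A F) - a) = 0 :=
    Finset.sum_eq_zero fun i _ => (h1 i).mul (h2 i) 1 (by omega)
  rw [map_sub, map_sub, StarT_res h i₀ ha hH, sub_zero, sub_eq_zero] at h3
  rw [h3, pv, map_sum]
  simp only [map_smul, smul_eq_mul]

omit [DecidableEq ι] in
theorem StarT_nondeg {ω : LS k} (h : ω ≠ 0) : ∃ F : LS k, (F * ω).cf 1 ≠ 0 := by
  by_contra! h1
  exact h (LS.ext fun n => by simpa [LS.cf_T_mul] using h1 (LS.T k (1 - n)))

/-- The derivation `F ↦ a ∂ F`. -/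
noncomputable def StarT_der {a : LT ι k} (ha : a ∈ A) : DerQ A :=
  ⟨A.toSubmodule.mkQ ∘ₗ (LinearMap.pi fun i => LinearMap.mulLeft k (a i) ∘ₗ
      (LS.dx : Derivation k (LS k) (LS k)).toLinearMap ∘ₗ LinearMap.proj i) ∘ₗ A.val.toLinearMap,
    fun f hf => (Submodule.Quotient.mk_eq_zero _).2 (by
      have : (fun i => a i * LS.dx (f.1 i)) = a := funext fun i => by
        rw [hf, xx, LS.dx_T, mul_one]
      change (fun i => a i * LS.dx (f.1 i)) ∈ A
      rwa [this]),
    fun f g F G hF hG => by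
      have hF' : (fun i => a i * LS.dx (f.1 i)) - F ∈ A := (Submodule.Quotient.eq _).1 hF
      have hG' : (fun i => a i * LS.dx (g.1 i)) - G ∈ A := (Submodule.Quotient.eq _).1 hG
      refine (Submodule.Quotient.eq _).2 ?_
      change (fun i => a i * LS.dx (f.1 i * g.1 i)) - (f.1 * G + g.1 * F) ∈ A
      convert add_mem (A.mul_mem f.2 hG') (A.mul_mem g.2 hF') using 1
      funext i
      simp only [Derivation.leibniz, smul_eq_mul, Pi.sub_apply, Pi.add_apply, Pi.mul_apply]
      ring⟩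

theorem StarT_surj {V α β : Type*} [AddCommMonoid V] [Module k V] [Fintype α] [Fintype β]
    (π : V →ₗ[k] α ⊕ β → k) (h1 : ∀ a, ∃ v, π v (.inl a) ≠ 0 ∧ ∀ x, x ≠ .inl a → π v x = 0)
    (h2 : ∀ b, ∃ v, π v (.inr b) ≠ 0 ∧ ∀ b', b' ≠ b → π v (.inr b') = 0) :
    Function.Surjective π := fun z => by
  choose u hu hu' using h1
  choose w hw hw' using h2
  obtain ⟨v, hv⟩ : ∃ v, ∀ b, π v (.inr b) = z (.inr b) :=
    ⟨∑ b, (z (.inr b) / π (w b) (.inr b)) • w b, fun b => by
      rw [map_sum, Finset.sum_apply, Finset.sum_eq_single b, map_smul, Pi.smul_apply, smul_eq_mul,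
        div_mul_cancel₀ _ (hw b)]
      · exact fun b' _ h => by rw [map_smul, Pi.smul_apply, hw' b' b h.symm, smul_zero]
      · exact fun h => (h (Finset.mem_univ _)).elim⟩
  refine ⟨v + ∑ a, ((z (.inl a) - π v (.inl a)) / π (u a) (.inl a)) • u a, funext fun x => ?_⟩
  rw [map_add, map_sum, Pi.add_apply, Finset.sum_apply]
  rcases x with a | b
  · rw [Finset.sum_eq_single a, map_smul, Pi.smul_apply, smul_eq_mul, div_mul_cancel₀ _ (hu a),
      add_sub_cancel]
    · exact fun a' _ h => by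
        rw [map_smul, Pi.smul_apply, hu' a' _ fun e => h (Sum.inl_injective e).symm, smul_zero]
    · exact fun h => (h (Finset.mem_univ _)).elim
  · rw [hv, Finset.sum_eq_zero fun a _ => by
      rw [map_smul, Pi.smul_apply, hu' a _ Sum.inr_ne_inl, smul_zero], add_zero]

omit [CharP k p] in
theorem StarT_col {G : Type} [Fintype G] [DecidableEq G] (M : Matrix G G k) (a b : G) :
    sapp p M (Pi.single b 1) a = M a b := by
  have hp : p ≠ 0 := (Fact.out : p.Prime).ne_zero
  have : (fun i => (Pi.single b 1 : G → k) i ^ p) = Pi.single b 1 := funext fun i => by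
    rw [Pi.single_apply]
    split_ifs
    · exact one_pow _
    · exact zero_pow hp
  rw [sapp, this, Matrix.mulVec_single_one]
  rfl

omit [Fintype ι] in
theorem StarT_pv (ν : J) : pv J (Pi.single ν (1 : k)) = pm k ν.1 := by
  rw [pv, Finset.sum_eq_single ν, Pi.single_eq_same, one_smul]
  · exact fun b _ h => by rw [Pi.single_eq_of_ne h, zero_smul]
  · exact fun h => (h (Finset.mem_univ _)).elim

theorem StarT_lin {T : Type} [Fintype T] [DecidableEq T] (α β : T → k) (z : Option T ⊕ T → k) :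
    (∀ v, lin (arrow α β) z v v = z (.inl v)) ∧
      (∀ j, lin (arrow α β) z none (some j) = z (.inr j) * α j) ∧
      (∀ j, lin (arrow α β) z (some j) none = z (.inr j) * β j) ∧
      ∀ j j', j ≠ j' → lin (arrow α β) z (some j) (some j') = 0 := by
  refine ⟨fun v => ?_, fun j => ?_, fun j => ?_, fun j j' h => ?_⟩ <;>
    simp [lin, arrow, Matrix.sum_apply, Matrix.single_apply, Fintype.sum_sum_type]
  · cases v <;> simp
  · exact Finset.sum_eq_zero fun x _ => if_neg fun e => h (e.1.symm.trans e.2)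

theorem StarT_reindex {G G' μ : Type} [Fintype μ] (M : μ → Matrix G G k) (e : G ≃ G') (z : μ → k)
    (v w : G) : lin (fun i => (M i).reindex e e) z (e v) (e w) = lin M z v w := by
  simp [lin, Matrix.sum_apply]

theorem StarT_abs [IsAlgClosed k] {T : Type} [Fintype T] (hT : 2 ≤ Fintype.card T)
    (h : IsChart J A) (hJ : ∀ ν ∈ J, ν.2 < 1) (hc : Curv A) (i₀ : ι) (ε : Option T ≃ J)
    (cp : ι → Option T) (hε : ∀ v, cp (ε v).1.1 = v) (H : Option T → A)
    (hH : ∀ v, Pole (pm k (ε v).1 ^ p - (H v).1) 0)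
    (hs : ∀ j i, cp i ≠ some j → (H (some j)).1 i = 0)
    (h0 : ∀ i, cp i ≠ none → LS.dx ((H none).1 i) = 0)
    (hu : ∀ j j', j ≠ j' → ∃ u ∈ A, (∀ i, cp i = some j → u i = 1) ∧
      ∀ i, cp i = some j' → u i = 0)
    (hl : ∀ v, StarT_rs (H v).1 (pm k (ε v).1) ≠ 0)
    (hD : ∀ j, ∃ (D : DerQ A) (F : LT ι k), D.1 (H none) = Submodule.Quotient.mk F ∧
      StarT_rs (H (some j)).1 F ≠ 0 ∧ ∀ j', j' ≠ j → StarT_rs (H (some j')).1 F = 0)
    {K : Type u} [Field K] [Algebra k K] {c₀ : Idx ι → K} (hc₀ : On (cI k i₀ J) c₀)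
    (hq : Spc k c₀ (coef i₀ J A))
    (hd : ((2 * Fintype.card ι + 2 * J.card : ℕ) : ℕ∞) ≤ dm k c₀ + 2) :
    Uniq p (cI k i₀ J) (hw k p J) (coef i₀ J A) := by
  classical
  have : Nonempty ι := ⟨i₀⟩
  obtain ⟨E, -, hE⟩ := exists_tan_equiv p h i₀
  have h2 := finrank_DerQ_le h hJ hc
  rw [← E.finrank_eq] at h2
  have hη : ∀ v i, cp i ≠ v → LS.dx ((H v).1 i) = 0 := by
    rintro (_ | j) i hi
    · exact h0 i hi
    · rw [hs j i hi, map_zero]
  have hg := fun v => StarT_ge2 p (hH v)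
  have hd0 : ∀ v F, StarT_rs (H v).1 F = cls i₀ J A F (ε v) * StarT_rs (H v).1 (pm k (ε v).1) :=
    fun v F => by
      rw [StarT_rs_cls h i₀ (H v).2 (hg v), Finset.sum_eq_single (ε v)]
      · intro μ _ hμ
        rw [StarT_rs_zero, mul_zero]
        intro i
        rcases eq_or_ne i μ.1.1 with rfl | hi
        · rw [hη v, mul_zero]
          obtain ⟨w, rfl⟩ := ε.surjective μ
          rw [hε]
          exact fun e => hμ (congrArg ε e)
        · rw [pm, Pi.single_eq_of_ne hi, zero_mul]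
      · exact fun h => (h (Finset.mem_univ _)).elim
  let ρ : Option T → (LT ι k ⧸ A.toSubmodule) →ₗ[k] k := fun v =>
    A.toSubmodule.liftQ (StarT_rs (H v).1) fun a ha => StarT_res h i₀ ha (H v).2
  let S : Option T → Option T → DerQ A →ₗ[k] k := fun v w =>
    ρ v ∘ₗ LinearMap.applyₗ (R := k) (H w) ∘ₗ (DerQ A).subtype
  have hS : ∀ v w (D : DerQ A) F, D.1 (H w) = Submodule.Quotient.mk F →
      S v w D = StarT_rs (H v).1 F := fun v w D F hF => congrArg (ρ v) hF
  have hΦ : ∀ (δ : Tan (cI k i₀ J) (coef i₀ J A)) v w, (hw k p J).map (dd (coef i₀ J A) δ.1) (ε v)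
      (ε w) = S v w (E δ) * -(StarT_rs (H v).1 (pm k (ε v).1))⁻¹ := fun δ v w => by
    obtain ⟨F, hF⟩ := Submodule.Quotient.mk_surjective _ ((E δ).1 (H w))
    rw [← StarT_col p (Matrix.map _ _), hE δ _ (H w) F (by rw [StarT_pv]; exact hH w) hF.symm, hS v w _ F hF.symm,
      hd0 v F, Pi.neg_apply, mul_neg, mul_inv_cancel_right₀ (hl v)]
  have hsym : ∀ v w D, S v w D = S w v D := fun v w D => by
    obtain ⟨F, hF⟩ := Submodule.Quotient.mk_surjective _ (D.1 (H w))
    obtain ⟨G, hG⟩ := Submodule.Quotient.mk_surjective _ (D.1 (H v))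
    rw [hS v w D F hF.symm, hS w v D G hG.symm, StarT_sym h i₀ D hF.symm hG.symm]
  have htt : ∀ j j' D, j ≠ j' → S (some j) (some j') D = 0 := fun j j' D hj => by
    obtain ⟨u, huA, h3, h4⟩ := hu j j' hj
    obtain ⟨F, hF⟩ := Submodule.Quotient.mk_surjective _ (D.1 (H (some j')))
    obtain ⟨U, hU⟩ := Submodule.Quotient.mk_surjective _ (D.1 ⟨u, huA⟩)
    have h5 := D.2.2 _ _ _ _ hU.symm hF.symm
    have h6 : (⟨u, huA⟩ : A) * H (some j') = 0 := Subtype.ext (funext fun i => by
      change u i * (H (some j')).1 i = 0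
      by_cases hi : cp i = some j'
      · rw [h4 i hi, zero_mul]
      · rw [hs j' i hi, mul_zero])
    rw [h6, map_zero, eq_comm, Submodule.Quotient.mk_eq_zero] at h5
    rw [hS _ _ D F hF.symm, ← StarT_res h i₀ h5 (H (some j)).2]
    refine StarT_rs_congr fun i => ?_
    by_cases hi : cp i = some j
    · change _ = (u i * F i + (H (some j')).1 i * U i) * _
      rw [h3 i hi, hs j' i fun e => hj (Option.some.inj (hi.symm.trans e)), one_mul, zero_mul,
        add_zero]
    · rw [hη _ i hi, mul_zero, mul_zero]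
  let π : DerQ A →ₗ[k] Option T ⊕ T → k := LinearMap.pi (Sum.elim
    (fun v => -(StarT_rs (H v).1 (pm k (ε v).1))⁻¹ • S v v) fun j => S none (some j))
  have hl' : ∀ v, -(StarT_rs (H v).1 (pm k (ε v).1))⁻¹ ≠ 0 := fun v =>
    neg_ne_zero.2 (inv_ne_zero (hl v))
  have hπ : Function.Surjective π := by
    refine StarT_surj π (fun v => ?_) fun j => ?_
    · obtain ⟨i, hi⟩ : ∃ i, LS.dx ((H v).1 i) ≠ 0 := by
        by_contra! h3
        exact hl v (StarT_rs_zero fun i => by rw [h3 i, mul_zero])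
      have hv : cp i = v := by_contra fun e => hi (hη v i e)
      obtain ⟨f, hf⟩ := StarT_nondeg (mul_ne_zero hi hi)
      obtain ⟨a, ha, h3⟩ := StarT_dec h i₀ (Pi.single i f)
      have h4 : ∀ i', ((Pi.single i f - a : LT ι k) i').Ge (-1) := fun i' => by
        have h5 : (pv J (cls i₀ J A (Pi.single i f)) i').Ge (-1) := by
          refine pole_iff (n := 1).2 (fun μ hμ => ?_) i'
          rw [pv, Chart_pc_sum]
          refine Finset.sum_eq_zero fun ν _ => ?_
          rw [Chart_pc_smul, pc_pm, if_neg, mul_zero]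
          rintro rfl
          exact (hJ _ ν.2).not_ge hμ
        have h6 := ((h3 i').mono (m := -1) (by omega)).add h5
        rwa [← Pi.add_apply, sub_right_comm, sub_add_cancel] at h6
      have h5 : ∀ w w', S w w' (StarT_der ha) =
          (f * (LS.dx ((H w').1 i) * LS.dx ((H w).1 i))).cf 1 := fun w w' => by
        have h6 : ∑ i', ((Pi.single i f - a : LT ι k) i' *
            (LS.dx ((H w').1 i') * LS.dx ((H w).1 i'))).cf 1 = 0 :=
          Finset.sum_eq_zero fun i' _ => (h4 i').mul ((hg w' i').mul (hg w i')) 1 (by omega)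
        simp only [Pi.sub_apply, sub_mul, LS.cf_sub, Finset.sum_sub_distrib, sub_eq_zero] at h6
        rw [Finset.sum_eq_single i (fun i' _ hi' => by
          rw [Pi.single_eq_of_ne hi', zero_mul, LS.cf_zero]) (fun h => (h (Finset.mem_univ _)).elim),
          Pi.single_eq_same] at h6
        rw [h6, hS w w' _ (fun i => a i * LS.dx ((H w').1 i)) rfl, StarT_rs_apply]
        simp only [mul_assoc]
      refine ⟨StarT_der ha, mul_ne_zero (hl' v) (by rw [h5]; exact hf), ?_⟩
      rintro (w | j) hx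
      · change _ * S w w _ = 0
        rw [h5, hη w i fun e => hx (congrArg _ (e.symm.trans hv)), mul_zero, mul_zero, LS.cf_zero,
          mul_zero]
      · change S none (some j) (StarT_der ha) = 0
        rw [h5]
        rcases eq_or_ne (cp i) none with e | e
        · rw [hη (some j) i (e ▸ (Option.some_ne_none j).symm), zero_mul, mul_zero, LS.cf_zero]
        · rw [hη none i e, mul_zero, mul_zero, LS.cf_zero]
    · obtain ⟨D, F, hF, h3, h4⟩ := hD j
      refine ⟨D, ?_, fun j' hj => ?_⟩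
      · change S none (some j) D ≠ 0
        rwa [hsym, hS _ _ D F hF]
      · change S none (some j') D = 0
        rw [hsym, hS _ _ D F hF, h4 j' hj]
  refine cone (fgi_cI k i₀ J) (hw k p J) le_rfl hc₀ hq ?_ ?_
    ((arrow_cone hT (fun _ => hl' none) fun j => hl' (some j)).reindex ε) (π ∘ₗ E.toLinearMap)
    (hπ.comp E.surjective) fun δ => ?_
  · have h3 : (Module.finrank k (Tan (cI k i₀ J) (coef i₀ J A)) : ℕ∞) + 2 ≤
        ((2 * Fintype.card ι + 2 * J.card : ℕ) : ℕ∞) := by exact_mod_cast h2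
    exact (ENat.add_le_add_iff_right (ENat.natCast_ne_top 2)).1 (h3.trans hd)
  · ext μ ν
    obtain ⟨w, rfl⟩ := ε.surjective ν
    rw [← StarT_col p (Matrix.map _ _), ← h.cls_pm i₀, ← h.cls_pow i₀ (k := k),
      (h.cls_eq_zero i₀).2 ⟨_, (H w).2, hH w⟩]
    rfl
  · ext μ ν
    obtain ⟨v, rfl⟩ := ε.surjective μ
    obtain ⟨w, rfl⟩ := ε.surjective ν
    obtain ⟨h3, h4, h5, h6⟩ := StarT_lin (fun _ : T => -(StarT_rs (H none).1 (pm k (ε none).1))⁻¹)
      (fun j => -(StarT_rs (H (some j)).1 (pm k (ε (some j)).1))⁻¹) (π (E δ))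
    rw [hΦ, StarT_reindex]
    change _ = lin _ (π (E δ)) v w
    rcases eq_or_ne v w with rfl | hvw
    · rw [h3, mul_comm]
      rfl
    rcases v with _ | j <;> rcases w with _ | j'
    · exact (hvw rfl).elim
    · exact (h4 j').symm
    · rw [h5, hsym]
      rfl
    · rw [h6 j j' fun e => hvw (congrArg _ e), htt j j' _ fun e => hvw (congrArg _ e), zero_mul]

end PR0
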