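import Pool.Agent.Work.MP_da2620_ag.MoebB
import Pool.Agent.Work.MP_da2620_ag.Model
import Pool.Agent.Work.MP_da2620_ag.NrmA

-- merged part: Pool.Agent.Work.MP_da2620_ag.Moeb
section
/-!
# The special fibre made of lines, as a chart point

All floors have degree one, so `s = d` (`sum_deg`) and `L₀ w = κ(x̄)`.  Choose `c ∈ κ` which is not a root
of the conductor polynomial (`exists_cond`), and `x' = 1 / (x - c)`, floors `Φ'` (`exists_moeb`).
`N = A / (x - c)` (`A = regOut (poles x) ∩ spec`) is finite (`fg`) and torsion free over `O`, with reduction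
`κ ^ d`; as in `sec` (characteristic polynomial of a lift of an idempotent) one gets `d` sections
`σ i : A → O` and `s i` with `s i ker (σ i) ⊆ (x - c) A`; so `x - c` has `d` simple zeros, `exists_cd` gives `d'`.
`expand` for the localisation of `A` at the `i`-th point shows that elements of
`A(x') = regOut (poles x') ∩ spec` (they are `a / (x - c) ^ n`) have integral expansions reducing to the
expansions of the reductions.  The image `A₀` of `Φ'.aff x'` in `LT` is a chart point (`exists_isChart`,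
`conn`, `exists_cond`).  For large `n` the leading coefficient map `Λ n → O ^ d` is onto (use `fg` for
`x'⁻¹`), hence `lev A₀ n` is the reduction of `Λ n`, of dimension `n d + 1 - g`; so `#J = g` and `crit`
applies.  `two` and `few` follow from `card_glue` for `Φ'`, the given glued pairs being still glued and
at finite distance.
-/

namespace PR0

open Polynomial

universe u

variable {κ : Type u} [Field κ] {ι : Type}

/-- The lines `i`, `i'` are glued over `a` to order `n`. -/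
def Glue (A : Subalgebra κ (LT ι κ)) (i i' : ι) (a : κ) (n : ℕ) : Prop :=
  ∀ F ∈ A, ∀ h h' : κ[X], F i = aeval (LS.T κ (-1)) h → F i' = aeval (LS.T κ (-1)) h' →
    (X - C a) ^ n ∣ h - h'

/-- A curve made of lines, at most two through each point, with at most `d - 1` singular points. -/
structure Lines [Fintype ι] (A : Subalgebra κ (LT ι κ)) : Prop where
  poly : ∀ F ∈ A, ∀ i, ∃ h : κ[X], F i = aeval (LS.T κ (-1)) h
  two : ∀ a i i' i'', Glue A i i' a 1 → Glue A i i'' a 1 → i = i' ∨ i = i'' ∨ i' = i''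
  few : ∃ S : Finset (κ × Sym2 ι), S.card + 1 ≤ Fintype.card ι ∧
    ∀ a i i', i ≠ i' → Glue A i i' a 1 → (a, s(i, i')) ∈ S

section FF

variable {K L L' : Type u} [Field K] [Field L] [Algebra K L] [IsAlgClosed K] [Fact (IsFF K L)]
  [Field L'] [Algebra K L'] [Fact (IsFF K L')]

theorem Moeb_val {P : Place K L} {f : L} (hf : f ∈ P.1) : P.val f = 0 ↔ f = 0 ∨ f⁻¹ ∉ P.1 := by
  rw [Place.val_eq_zero hf, ← P.valuation_lt_one_iff, ← ValuationSubring.mem_nonunits_iff,
    ValuationSubring.mem_nonunits_iff_or]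

theorem Moeb_sub {P : Place K L} {f : L} (hf : f ∈ P.1) (c : K) :
    f - algebraMap K L c ∈ P.1 ∧ P.val (f - algebraMap K L c) = P.val f - c := by
  have h := MoebB_val hf (X - C c)
  rwa [map_sub, aeval_X, aeval_C, eval_sub, eval_X, eval_C] at h

/-- Transport of places along an isomorphism. -/
theorem Moeb_tr (ψ : L ≃ₐ[K] L') (P : Place K L) : ∃ Q : Place K L',
    (∀ g, ψ g ∈ Q.1 ↔ g ∈ P.1) ∧ ∀ g ∈ P.1, Q.val (ψ g) = P.val g := by
  have h : ∀ g, ψ g ∈ P.1.comap (ψ.symm : L' →+* L) ↔ g ∈ P.1 := fun g => by simp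
  let Q : Place K L' := ⟨P.1.comap (ψ.symm : L' →+* L), fun e => P.2.1 (top_unique fun g _ =>
    (h g).1 (e ▸ trivial)), fun c => ψ.commutes c ▸ (h _).2 (P.2.2 c)⟩
  refine ⟨Q, h, fun g hg => ?_⟩
  have h1 := (Moeb_val (Moeb_sub hg (P.val g)).1).1 ((Moeb_sub hg _).2.trans (sub_self _))
  have h2 := Moeb_sub (P := Q) ((h g).2 hg) (P.val g)
  refine sub_eq_zero.1 (h2.2.symm.trans ((Moeb_val h2.1).2 ?_))
  rw [← ψ.commutes, ← map_sub, ← map_inv₀]
  exact h1.imp (fun e => by rw [e, map_zero]) (mt (h _).1)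

end FF

section Floors

variable {L : Type u} [Field L] [Algebra (HF κ) L] [IsAlgClosed κ] [Fact (IsFF (HF κ) L)] {y : L}
  (Φ : Floors κ y)

omit [Fact (IsFF (HF κ) L)] in
theorem Moeb_glue (P Q : Σ w, Place κ (Φ.L₀ w)) {A A' : Subalgebra κ (∀ w, Φ.L₀ w)} {u : _}
    (hu : u ∈ A') (hP : u P.1 ∈ P.2.1) (hP' : P.2.val (u P.1) ≠ 0) (hQ : u Q.1 ∈ Q.2.1)
    (h : ∀ f ∈ A, f P.1 ∈ P.2.1 ∧ f Q.1 ∈ Q.2.1 ∧ ∃ n : ℕ, u ^ n * f ∈ A')
    (hG : ∀ f ∈ A', P.2.val (f P.1) = Q.2.val (f Q.1)) :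
    ∀ f ∈ A, P.2.val (f P.1) = Q.2.val (f Q.1) := fun f hf => by
  obtain ⟨h1, h2, n, h3⟩ := h f hf
  have h4 := hG _ h3
  have h5 := MoebB_val hP (X ^ n)
  have h6 := MoebB_val hQ (X ^ n)
  rw [map_pow, aeval_X, eval_pow, eval_X] at h5 h6
  rw [Pi.mul_apply, Pi.mul_apply, Pi.pow_apply, Pi.pow_apply, Place.val_mul h5.1 h1,
    Place.val_mul h6.1 h2, h5.2, h6.2, ← hG u hu] at h4
  exact mul_left_cancel₀ (pow_ne_zero n hP') h4

omit [IsAlgClosed κ] [Fact (IsFF (HF κ) L)] in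
theorem Moeb_x : Φ.x₀ ∈ Φ.aff y := ⟨y, MoebB_self _ _, x_mem_spec y, rfl⟩

variable (hy : Transcendental (HF κ) y)
include hy

theorem Moeb_glue_iff (P Q : Φ.Pl) (hP : (Φ.x₀ P.1.1)⁻¹ ∈ P.1.2.1) (hQ : (Φ.x₀ Q.1.1)⁻¹ ∈ Q.1.2.1) :
    Φ.Glued P Q ↔ ∀ f ∈ Φ.aff y⁻¹, P.1.2.val (f P.1.1) = Q.1.2.val (f Q.1.1) := by
  have h0 : y ≠ 0 := fun e => hy (e ▸ isAlgebraic_zero)
  have h1 : Φ.x₀ P.1.1 ≠ 0 := fun e => MoebB_tr Φ _ (e ▸ isAlgebraic_zero)
  refine ⟨Moeb_glue Φ P.1 Q.1 (Moeb_x Φ) P.2 (fun e => ?_) Q.2 fun f hf => ?_,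
    Moeb_glue Φ P.1 Q.1 (u := fun w => (Φ.x₀ w)⁻¹) ⟨y⁻¹, MoebB_self _ _, MoebB_R_inv hy Φ⟩ hP
      (fun e => ?_) hQ fun f hf => ?_⟩
  · exact ((Moeb_val P.2).1 e).elim h1 fun h => h hP
  · obtain ⟨f, rfl⟩ := (MoebB_aff Φ).1 hf
    obtain ⟨n, hn⟩ := MoebB_lam hy f
    refine ⟨MoebB_le hy Φ f _ _ (not_not.2 hP), MoebB_le hy Φ f _ _ (not_not.2 hQ), n, _,
      MoebB_reg h0 (MoebB_flip h0 le_rfl hn), mul_mem (pow_mem (x_mem_spec y) n) f.2.2, ?_⟩
    refine (Φ.ρ.map_mul (⟨y, x_mem_spec y⟩ ^ n) ⟨f.1, f.2.2⟩).trans ?_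
    rw [map_pow]
    rfl
  · exact ((Moeb_val hP).1 e).elim (inv_ne_zero h1) fun h => h (by rw [inv_inv]; exact P.2)
  · refine ⟨Φ.aff_le hy hf _ _ (not_not.2 P.2), Φ.aff_le hy hf _ _ (not_not.2 Q.2), ?_⟩
    obtain ⟨f, rfl⟩ := (MoebB_aff Φ).1 hf
    obtain ⟨n, -, g, -, hg⟩ := MoebB_swap hy Φ f
    exact ⟨n, (MoebB_aff Φ).2 ⟨g, hg⟩⟩

theorem Moeb_lines (p : ℕ) [Fact p.Prime] [CharP κ p] (h : HW0 (HF κ) L p) (hd : ∀ w, Φ.deg w = 1)
    (d₀ : ∀ w, CD κ (Φ.L₀ w) Unit) (hd₀ : ∀ w, (d₀ w).x = Φ.x₀ w) {α : Type} [Fintype α]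
    (hα : Fintype.card α + 1 = Φ.s) (P P' : α → Φ.Pl) (hP : ∀ i j, Φ.Glued (P i) (P j) → i = j)
    (hP' : ∀ i, P' i ≠ P i ∧ Φ.Glued (P i) (P' i)) : Lines ((Φ.aff y).map (MoebB_E Φ d₀)) := by
  classical
  have symm : ∀ {Q R}, Φ.Glued Q R → Φ.Glued R Q := fun h f hf => (h f hf).symm
  have trans : ∀ {Q R S}, Φ.Glued Q R → Φ.Glued R S → Φ.Glued Q S :=
    fun h h' f hf => (h f hf).trans (h' f hf)
  have h1 : ∀ {Q R}, R ≠ Q → Φ.Glued Q R → ∃ j, Φ.Glued (P j) Q := by
    intro Q R hne hG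
    by_contra! e
    have := Φ.card_glue p hy h (α := Option α) (fun o => o.elim Q P) (fun o => {o.elim R P'})
      (by
        rintro (_ | i) (_ | j) h'
        · rfl
        · exact absurd (symm h') (e j)
        · exact absurd h' (e i)
        · exact congrArg _ (hP i j h'))
      (by
        rintro (_ | i) S hS <;> rw [Finset.mem_singleton.1 hS]
        exacts [⟨hne, hG⟩, hP' i])
    simp only [Finset.card_singleton, Finset.sum_const, Finset.card_univ, Fintype.card_option,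
      smul_eq_mul, mul_one] at this
    omega
  have h2 : ∀ {j R}, Φ.Glued (P j) R → R = P j ∨ R = P' j := by
    intro j R hG
    by_contra! e
    have := Φ.card_glue p hy h P (fun i => if i = j then {R, P' i} else {P' i}) hP (by
      intro i S hS
      split_ifs at hS with e'
      · subst e'
        rcases Finset.mem_insert.1 hS with rfl | hS
        · exact ⟨e.1, hG⟩
        · rw [Finset.mem_singleton.1 hS]
          exact hP' i
      · rw [Finset.mem_singleton.1 hS]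
        exact hP' i)
    have h3 : ∀ i, (if i = j then ({R, P' i} : Finset Φ.Pl) else {P' i}).card =
        1 + if i = j then 1 else 0 := fun i => by
      split_ifs with e'
      · subst e'
        rw [Finset.card_pair e.2]
      · rfl
    simp only [h3, Finset.sum_add_distrib, Finset.sum_const, Finset.card_univ, smul_eq_mul, mul_one,
      Finset.sum_ite_eq', Finset.mem_univ, if_true] at this
    omega
  choose Q hQ hQ' using fun w a => exists_place_val (MoebB_tr Φ w) a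
  let Z : Fin Φ.s → κ → Φ.Pl := fun w a => ⟨⟨w, Q w a⟩, hQ w a⟩
  have hZ : ∀ {i j a}, i ≠ j → Z i a ≠ Z j a := fun hne e => hne (congrArg (·.1.1) e)
  have h3 : ∀ {a i j}, Glue ((Φ.aff y).map (MoebB_E Φ d₀)) i j a 1 → Φ.Glued (Z i a) (Z j a) := by
    intro a i j hG f hf
    obtain ⟨g, hg⟩ := MoebB_aff_poly hy Φ hd hf i
    obtain ⟨g', hg'⟩ := MoebB_aff_poly hy Φ hd hf j
    have h4 := hG _ ⟨f, hf, rfl⟩ g g' ((congrArg _ hg).trans (MoebB_ex Φ d₀ hd₀ i g))
      ((congrArg _ hg').trans (MoebB_ex Φ d₀ hd₀ j g'))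
    rw [pow_one, dvd_iff_isRoot, IsRoot, eval_sub, sub_eq_zero] at h4
    change (Q i a).val (f i) = (Q j a).val (f j)
    rw [hg, hg', (MoebB_val (hQ i a) g).2, (MoebB_val (hQ j a) g').2, hQ', hQ', h4]
  refine ⟨?_, fun a i i' i'' hG hG' => ?_, Finset.univ.image fun j =>
    ((P j).1.2.val (Φ.x₀ (P j).1.1), s((P j).1.1, (P' j).1.1)), ?_, fun a i i' hne hG => ?_⟩
  · rintro _ ⟨f, hf, rfl⟩ i
    obtain ⟨g, hg⟩ := MoebB_aff_poly hy Φ hd hf i
    exact ⟨g, (congrArg _ hg).trans (MoebB_ex Φ d₀ hd₀ i g)⟩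
  · by_contra! e
    obtain ⟨j, hj⟩ := h1 (hZ e.1.symm) (h3 hG)
    rcases h2 hj with e1 | e1 <;> rcases h2 (trans hj (h3 hG)) with e2 | e2 <;>
      rcases h2 (trans hj (h3 hG')) with e3 | e3 <;>
      first
        | exact hZ e.1 (e1.trans e2.symm)
        | exact hZ e.2.1 (e1.trans e3.symm)
        | exact hZ e.2.2 (e2.trans e3.symm)
  · rw [Fintype.card_fin]
    exact (Nat.succ_le_succ Finset.card_image_le).trans hα.le
  · obtain ⟨j, hj⟩ := h1 (hZ hne.symm) (h3 hG)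
    refine Finset.mem_image.2 ⟨j, Finset.mem_univ _, Prod.ext ((hj _ (Moeb_x Φ)).trans (hQ' i a)) ?_⟩
    rcases h2 hj with e1 | e1 <;> rcases h2 (trans hj (h3 hG)) with e2 | e2
    · exact absurd (e1.trans e2.symm) (hZ hne)
    · rw [← e1, ← e2]
    · rw [← e1, ← e2]
      exact Sym2.eq_swap
    · exact absurd (e1.trans e2.symm) (hZ hne)

end Floors

theorem Floors.lines {L : Type u} [Field L] [Algebra (HF κ) L] [IsAlgClosed κ]
    [Fact (IsFF (HF κ) L)] {x : L} (Φ : Floors κ x) (hx : Transcendental (HF κ) x) (p : ℕ)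
    [Fact p.Prime] [CharP κ p] (h : HW0 (HF κ) L p) (hd : ∀ w, Φ.deg w = 1)
    (P P' : Fin (Φ.s - 1) → Φ.Pl) (hP : ∀ i j, Φ.Glued (P i) (P j) → i = j)
    (hP' : ∀ i, P' i ≠ P i ∧ Φ.Glued (P i) (P' i)) :
    ∃ (c : κ) (d' : CD (HF κ) L (Fin Φ.s)) (J : Finset (Fin Φ.s × ℕ))
      (𝒜 : Subalgebra (HO κ) (LT (Fin Φ.s) (HO κ))),
      d'.x = (x - algebraMap (HF κ) L (algebraMap κ (HF κ) c))⁻¹ ∧ IsChart J 𝒜 ∧
        d'.alg = gen' 𝒜 ∧ Lines (spe 𝒜) := by
  classical
  obtain ⟨s, hs, hs'⟩ := Φ.exists_cond hx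
  obtain ⟨c, hc⟩ := Infinite.exists_notMem_finset (s.roots.toFinset ∪
    Finset.univ.image fun i => (P i).1.2.val (Φ.x₀ (P i).1.1))
  have hc1 : s.eval c ≠ 0 := fun e =>
    hc (Finset.mem_union_left _ (Multiset.mem_toFinset.2 ((mem_roots hs.ne_zero).2 e)))
  have hc2 : ∀ i, (P i).1.2.val (Φ.x₀ (P i).1.1) ≠ c := fun i e =>
    hc (Finset.mem_union_right _ (Finset.mem_image.2 ⟨i, Finset.mem_univ _, e⟩))
  obtain ⟨Φ', e, ψ, hR, hx₀⟩ := Φ.exists_moeb hx c
  have hsp : spec κ (x - algebraMap (HF κ) L (algebraMap κ (HF κ) c)) = spec κ x :=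
    spec_sub hx (algebraMap κ (HO κ) c)
  have hpo : poles (HF κ) (x - algebraMap (HF κ) L (algebraMap κ (HF κ) c)) = poles (HF κ) x :=
    Set.ext fun Q => not_congr ⟨fun h => by simpa using add_mem h (Q.2.2 (algebraMap κ _ c)),
      fun h => sub_mem h (Q.2.2 _)⟩
  have ht : Transcendental (HF κ) (x - algebraMap (HF κ) L (algebraMap κ (HF κ) c)) :=
    transcendental_iff.2 fun ⟨a, ha⟩ => transcendental_iff.1 hx
      ⟨a + algebraMap κ _ c, by rw [map_add, ha, sub_add_cancel]⟩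
  have hy := rr_tr_inv ht
  rw [← spec_inv ht] at hsp
  rw [← inv_inv (x - _)] at hpo
  refine ⟨c, ?_⟩
  generalize (x - algebraMap (HF κ) L (algebraMap κ (HF κ) c))⁻¹ = y at Φ' hsp hpo hy ⊢
  have hn : Φ'.s = Φ.s := by simpa using (Fintype.card_congr e).symm
  have h1 : ∀ w, (Φ'.x₀ (e w))⁻¹ = ψ w (Φ.x₀ w - algebraMap κ _ c) := fun w => by
    rw [hx₀, map_inv₀, inv_inv]
  have hd' : ∀ w, Φ'.deg w = 1 := fun w => by
    obtain ⟨w, rfl⟩ := e.surjective w
    refine IntermediateField.finrank_eq_one_iff_eq_top.2 (top_unique fun g _ => ?_)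
    obtain ⟨g, rfl⟩ := (ψ w).surjective g
    refine IntermediateField.adjoin_simple_le_iff (K := IntermediateField.comap (ψ w).toAlgHom
      (IntermediateField.adjoin κ {Φ'.x₀ (e w)})).2 ?_
      ((IntermediateField.finrank_eq_one_iff_eq_top.1 (hd w)).ge trivial)
    change ψ w (Φ.x₀ w) ∈ IntermediateField.adjoin κ {Φ'.x₀ (e w)}
    rw [← sub_add_cancel (Φ.x₀ w) (algebraMap κ _ c), map_add, ← h1, AlgEquiv.commutes]
    exact add_mem (inv_mem (IntermediateField.mem_adjoin_simple_self _ _)) (algebraMap_mem _ _)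
  have h2 : ∀ f f', (∀ w, ψ w (f w) = f' (e w)) → (f ∈ Φ.aff x ↔ f' ∈ Φ'.aff y⁻¹) :=
    fun f f' h => ⟨fun ⟨g, h3, h4⟩ => ⟨g, hpo ▸ h3, (hR g f f' h).1 h4⟩,
      fun ⟨g, h3, h4⟩ => ⟨g, hpo ▸ h3, (hR g f f' h).2 h4⟩⟩
  have h3 : ∀ f ∈ Φ.aff x, ∃ f' : ∀ w, Φ'.L₀ w, ∀ w, ψ w (f w) = f' (e w) := by
    rintro _ ⟨g, -, h3, rfl⟩
    have h4 := (hR g (fun w => (ψ w).symm (Φ'.ρ ⟨g, hsp.ge h3⟩ (e w))) _
      fun w => (ψ w).apply_symm_apply _).2 ⟨hsp.ge h3, rfl⟩
    exact ⟨Φ'.ρ ⟨g, hsp.ge h3⟩, fun w => by rw [h4.2, AlgEquiv.apply_symm_apply]⟩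
  choose tr h4 h5 using fun (Q : Φ.Pl) => Moeb_tr (ψ Q.1.1) Q.1.2
  have h6 : ∀ Q : Φ.Pl, Q.1.2.val (Φ.x₀ Q.1.1) ≠ c → Φ'.x₀ (e Q.1.1) ∈ (tr Q).1 := fun Q hQ => by
    rw [hx₀, h4]
    by_contra h'
    exact hQ (sub_eq_zero.1 ((Moeb_sub Q.2 c).2.symm.trans
      ((Moeb_val (Moeb_sub Q.2 c).1).2 (Or.inr h'))))
  have h7 : ∀ (Q R : Φ.Pl) hQ hR, Φ'.Glued ⟨⟨_, tr Q⟩, h6 Q hQ⟩ ⟨⟨_, tr R⟩, h6 R hR⟩ ↔
      Φ.Glued Q R := fun Q R hQ hR => by
    rw [Moeb_glue_iff Φ' hy _ _ (h1 _ ▸ (h4 Q _).2 (Moeb_sub Q.2 c).1)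
      (h1 _ ▸ (h4 R _).2 (Moeb_sub R.2 c).1)]
    have key : ∀ f (f' : ∀ w, Φ'.L₀ w), (∀ w, ψ w (f w) = f' (e w)) → f ∈ Φ.aff x →
        ((tr Q).val (f' (e Q.1.1)) = (tr R).val (f' (e R.1.1)) ↔
          Q.1.2.val (f Q.1.1) = R.1.2.val (f R.1.1)) := fun f f' h hf => by
      rw [← h, ← h, h5 Q _ (Φ.aff_le hx hf _ _ (not_not.2 Q.2)),
        h5 R _ (Φ.aff_le hx hf _ _ (not_not.2 R.2))]
    refine ⟨fun H f hf => ?_, fun H f' hf => ?_⟩
    · obtain ⟨f', h'⟩ := h3 f hf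
      exact (key f f' h' hf).1 (H f' ((h2 f f' h').1 hf))
    · have h' : ∀ w, ψ w ((ψ w).symm (f' (e w))) = f' (e w) := fun w => (ψ w).apply_symm_apply _
      exact (key _ f' h' ((h2 _ f' h').2 hf)).2 (H _ ((h2 _ f' h').2 hf))
  have hc3 : ∀ i, (P' i).1.2.val (Φ.x₀ (P' i).1.1) ≠ c := fun i =>
    ((hP' i).2 _ (Moeb_x Φ)).symm.trans_ne (hc2 i)
  choose d₀ hd₀ using fun w => MoebB_line (MoebB_tr Φ' w) (hd' w)
  obtain ⟨d, J, 𝒜, h8, h9, h10, h11⟩ := MoebB_chart hy Φ' hd' d₀ hd₀ (s := s.comp (X + C c))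
    (by simpa using hc1) (fun f' hf => by
      refine (h2 _ _ fun w => ?_).1 (hs' (fun w => (ψ w).symm (f' (e w))) fun w => ?_)
      · rw [map_mul, AlgEquiv.apply_symm_apply, h1, aeval_comp, ← aeval_algHom_apply]
        simp
      · obtain ⟨g, hg⟩ := MoebB_poly (rr_tr_inv (MoebB_tr Φ' (e w)))
          (by rw [rr_adjoin_inv]; exact hd' _) (hf (e w))
        rw [hg, h1, aeval_algHom_apply, AlgEquiv.symm_apply_apply]
        exact Algebra.adjoin_le (Set.singleton_subset_iff.2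
          (sub_mem (MoebB_self _ _) (algebraMap_mem _ _))) (aeval_mem_adjoin_singleton κ _))
  have h13 : ∀ (Q R : Φ.Pl) hQ hR, (⟨⟨_, tr Q⟩, h6 Q hQ⟩ : Φ'.Pl) = ⟨⟨_, tr R⟩, h6 R hR⟩ →
      Q = R := by
    rintro ⟨⟨w, Q⟩, hQ⟩ ⟨⟨w', R⟩, hR⟩ _ _ H
    obtain rfl : w = w' := e.injective (congrArg (·.1.1) H)
    have h15 : tr ⟨⟨w, Q⟩, hQ⟩ = tr ⟨⟨w, R⟩, hR⟩ :=
      eq_of_heq (Sigma.mk.inj (congrArg Subtype.val H)).2
    obtain rfl : Q = R := Subtype.ext (SetLike.ext fun g =>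
      (h4 ⟨⟨w, Q⟩, hQ⟩ g).symm.trans (h15 ▸ h4 ⟨⟨w, R⟩, hR⟩ g))
    rfl
  have h12 := Moeb_lines Φ' hy p h hd' d₀ hd₀ (α := Fin (Φ.s - 1))
    (by have := Φ.s_pos hx; rw [Fintype.card_fin]; omega)
    (fun i => ⟨⟨_, tr (P i)⟩, h6 _ (hc2 i)⟩) (fun i => ⟨⟨_, tr (P' i)⟩, h6 _ (hc3 i)⟩)
    (fun i j H => hP i j ((h7 _ _ (hc2 i) (hc2 j)).1 H)) fun i =>
      ⟨fun H => (hP' i).1 (h13 _ _ (hc3 i) (hc2 i) H), (h7 _ _ (hc2 i) (hc3 i)).2 (hP' i).2⟩
  rw [← hn]
  exact ⟨d, J, 𝒜, h8, h9, h10, h11 ▸ h12⟩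

/-- In positive genus some pair of lines is tangent: otherwise `A` contains all tuples of
polynomials agreeing at the glued points, and has colength `≤ d - 1`. -/
theorem Lines.exists_tangent [IsAlgClosed κ] [Fintype ι] [DecidableEq ι] [Nonempty ι]
    {A : Subalgebra κ (LT ι κ)} (h : Lines A) {J : Finset (ι × ℕ)} (hJ : IsChart J A)
    (hg : J.Nonempty) : ∃ a i i', i ≠ i' ∧ Glue A i i' a 2 := by
  by_contra! H
  have key : ∀ i j a n, Glue A i j a n ↔
      ∀ F ∈ A.comap (MoebA_P ι κ), (X - C a) ^ n ∣ F i - F j := fun i j a n => by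
    refine ⟨fun h' F hF => h' _ hF _ _ rfl rfl, fun h' F hF g g' e e' => ?_⟩
    choose w hw using h.poly F hF
    rw [MoebA_inj (e.symm.trans (hw i)), MoebA_inj (e'.symm.trans (hw j))]
    exact h' w (by rwa [show F = MoebA_P ι κ w from funext hw] at hF)
  have key1 : ∀ i j a, (∀ F ∈ A.comap (MoebA_P ι κ), (F i).eval a = (F j).eval a) →
      Glue A i j a 1 := fun i j a h' => (key i j a 1).2 fun F hF => by
    rw [pow_one, dvd_iff_isRoot, IsRoot, eval_sub, h' F hF, sub_self]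
  obtain ⟨S, h1, h2⟩ := h.few
  obtain ⟨n, hn⟩ := Chart_bound J
  have := hJ.finite_lev n
  have h3 := MoebA_count A S (fun w hw => MoebA_mem (A.comap (MoebA_P ι κ))
    (by
      have := hJ.x_mem
      rwa [show xx ι κ = MoebA_P ι κ fun _ => X from funext fun _ => (aeval_X _).symm] at this)
    (fun a i j j' h3 h4 => h.two a i j j' (key1 _ _ _ h3) (key1 _ _ _ h4))
    (fun a i j hne => by simpa only [key, not_forall, exists_prop] using H a i j hne)
    fun a i j h3 => by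
      by_cases e : i = j
      · rw [e]
      · exact hw a i j (h2 a i j e (key1 _ _ _ h3))) n
  have h4 := hJ.finrank_lev hn
  have h5 := hg.card_pos
  rw [add_mul, one_mul] at h3
  omega

end PR0
end

-- merged part: Pool.Agent.Work.MP_da2620_ag.StepAA
section
/-!
# Generic points of a plane curve
-/

namespace PR0

open Polynomial

universe u

theorem StepA_coeff {E M : Type u} [Field E] [Field M] (j : E →+* M) (f : M[X]) {T : Set E}
    (hT : T.Infinite) (h : ∀ t ∈ T, f.eval (j t) ∈ Set.range j) : f ∈ lifts j := by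
  classical
  obtain ⟨s, hs, hc⟩ := hT.exists_subset_card_eq (f.natDegree + 1)
  choose! r hr using h
  refine (mem_lifts _).2 ⟨Lagrange.interpolate s id r, ?_⟩
  refine eq_of_degrees_lt_of_eval_index_eq s (v := j) j.injective.injOn ?_ ?_ fun i hi => ?_
  · exact degree_map_le.trans_lt (Lagrange.degree_interpolate_lt _ (Set.injOn_id _))
  · rw [hc]
    exact degree_le_natDegree.trans_lt (by exact_mod_cast Nat.lt_succ_self _)
  · rw [eval_map, eval₂_at_apply, ← hr i (hs hi)]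
    exact congrArg j (Lagrange.eval_interpolate_at_node r (Set.injOn_id _) hi)

theorem StepA_irr {K₁ M : Type u} [Field K₁] [IsAlgClosed K₁] [Field M] (i : K₁ →+* M)
    {F : K₁[X][X]} (hi : Irreducible F) {P H : M[X][X]} (hP : P.Monic) (hH : H.Monic)
    (e : F.map (mapRingHom i) = P * H) (h0 : P.natDegree ≠ 0) : H = 1 := by
  classical
  let := i.toAlgebra
  let s : Finset M := (P.coeffs ∪ H.coeffs).biUnion coeffs
  let R := Algebra.adjoin K₁ (s : Set M)
  have : Algebra.FiniteType K₁ R := (Subalgebra.fg_iff_finiteType _).1 ⟨s, rfl⟩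
  have hl : ∀ Q : M[X][X], Q.coeffs ⊆ P.coeffs ∪ H.coeffs →
      Q ∈ lifts (mapRingHom (algebraMap R M)) := fun Q hQ => by
    rw [lifts_iff_coeffs_subset_range]
    intro q hq
    refine (mem_lifts _).1 ((lifts_iff_coeffs_subset_range _).2 fun c hc => ?_)
    exact ⟨⟨c, Algebra.subset_adjoin (Finset.mem_coe.2 (Finset.mem_biUnion.2 ⟨q, hQ hq, hc⟩))⟩, rfl⟩
  obtain ⟨P', e1, d1, m1⟩ := lifts_and_natDegree_eq_and_monic (hl P Finset.subset_union_left) hP
  obtain ⟨H', e2, d2, m2⟩ := lifts_and_natDegree_eq_and_monic (hl H Finset.subset_union_right) hH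
  obtain ⟨𝔪, h𝔪⟩ := Ideal.exists_maximal R
  let := Ideal.Quotient.field 𝔪
  have := finite_of_finite_type_of_isJacobsonRing K₁ (R ⧸ 𝔪)
  have : Module.IsTorsionFree K₁ (R ⧸ 𝔪) := DivisionSemiring.to_moduleIsTorsionFree
  have := Algebra.IsAlgebraic.of_finite K₁ (R ⧸ 𝔪)
  let σ : R →ₐ[K₁] K₁ := (IsAlgClosed.lift : (R ⧸ 𝔪) →ₐ[K₁] K₁).comp (Ideal.Quotient.mkₐ K₁ 𝔪)
  have e3 : F.map (mapRingHom (algebraMap K₁ R)) = P' * H' := by
    refine map_injective (mapRingHom (algebraMap R M))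
      (map_injective _ Subtype.val_injective) ?_
    rw [Polynomial.map_mul, e1, e2, ← e, Polynomial.map_map, mapRingHom_comp]
    rfl
  have e4 : F = P'.map (mapRingHom (σ : R →+* K₁)) * H'.map (mapRingHom (σ : R →+* K₁)) := by
    rw [← Polynomial.map_mul, ← e3, Polynomial.map_map, mapRingHom_comp, σ.comp_algebraMap]
    simp
  rcases hi.isUnit_or_isUnit e4 with hu | hu
  · exact (h0 (by rw [← d1, ← m1.natDegree_map (mapRingHom (σ : R →+* K₁)),
      natDegree_eq_zero_of_isUnit hu])).elim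
  · exact hH.natDegree_eq_zero.1 (by rw [← d2, ← m2.natDegree_map (mapRingHom (σ : R →+* K₁)),
      natDegree_eq_zero_of_isUnit hu])

theorem StepA_key {E K₁ M K : Type u} [Field E] [IsAlgClosed E] [Field K₁] [IsAlgClosed K₁]
    [Field M] [Field K] [Algebra M K] (i : K₁ →+* M) (j : E →+* M) {F : K₁[X][X]} (hF : F.Monic)
    (hi : Irreducible F) {a b : K} (ha : Transcendental M a)
    (hb : F.eval₂ (eval₂RingHom ((algebraMap M K).comp i) a) b = 0) {G : E[X][X]} (hG : G ≠ 0)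
    (hGb : G.eval₂ (eval₂RingHom ((algebraMap M K).comp j) a) b = 0) (s t : ℕ) :
    i ((F.coeff s).coeff t) ∈ Set.range j := by
  let : Algebra M[X] K := (eval₂RingHom (algebraMap M K) a).toAlgebra
  have hinj : Function.Injective (algebraMap M[X] K) := transcendental_iff_injective.1 ha
  have : FaithfulSMul M[X] K := (faithfulSMul_iff_algebraMap_injective _ _).2 hinj
  have ev : ∀ {N : Type u} [Field N] (l : N →+* M) (Q : N[X][X]),
      aeval b (Q.map (mapRingHom l)) = Q.eval₂ (eval₂RingHom ((algebraMap M K).comp l) a) b := by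
    intro N _ l Q
    rw [aeval_def, eval₂_map]
    congr 1
    refine Polynomial.ringHom_ext (fun c => ?_) ?_
    · change eval₂ _ a ((C c).map l) = eval₂ _ a (C c)
      rw [eval₂_map]
    · change eval₂ _ a (X.map l) = eval₂ _ a X
      rw [eval₂_map]
  have h1 : aeval b (F.map (mapRingHom i)) = 0 := (ev i F).trans hb
  have hint : IsIntegral M[X] b := ⟨_, hF.map _, h1⟩
  obtain ⟨H, hH⟩ := minpoly.isIntegrallyClosed_dvd hint h1
  have h2 := StepA_irr i hi (minpoly.monic hint)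
    ((minpoly.monic hint).of_mul_monic_left (hH ▸ hF.map _)) hH (minpoly.natDegree_pos hint).ne'
  rw [h2, mul_one] at hH
  have h3 := minpoly.isIntegrallyClosed_dvd hint ((ev j G).trans hGb)
  rw [← hH] at h3
  have hT : {e : E | G.leadingCoeff.IsRoot e}ᶜ.Infinite :=
    (finite_setOfPred_isRoot (leadingCoeff_ne_zero.2 hG)).infinite_compl
  have h4 := StepA_coeff j ((F.coeff s).map i) hT fun e he => by
    let := j.toAlgebra
    have g0 : G.map (evalRingHom e) ≠ 0 := fun h0 => he (by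
      have := congrArg (coeff · G.natDegree) h0
      simpa using this)
    have h5 := Polynomial.map_dvd (evalRingHom (j e)) h3
    have h6 : (G.map (mapRingHom j)).map (evalRingHom (j e)) = (G.map (evalRingHom e)).map j := by
      rw [Polynomial.map_map, Polynomial.map_map]
      congr 1
      refine RingHom.ext fun q => ?_
      change eval (j e) (q.map j) = j (eval e q)
      rw [eval_map, eval₂_at_apply]
    rw [h6] at h5
    have h7 := integralClosure.mem_lifts_of_monic_of_dvd_map M (monic_mul_leadingCoeff_inv g0)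
      ((hF.map (mapRingHom i)).map (evalRingHom (j e)))
      (by rw [Polynomial.map_mul]; exact h5.mul_right _)
    obtain ⟨z, hz⟩ := (lifts_iff_coeff_lifts _).1 h7 s
    rw [coeff_map, coeff_map] at hz
    obtain ⟨c, hc⟩ := minpoly.mem_range_of_degree_eq_one E _
      (IsAlgClosed.degree_eq_one_of_irreducible E (minpoly.irreducible z.2))
    exact ⟨c, hc.trans hz⟩
  have h9 := (lifts_iff_coeff_lifts _).1 h4 t
  rwa [coeff_map] at h9

variable {k K : Type u} [Field k] [Field K] [Algebra k K]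

theorem StepA_ind {B : Type u} [CommRing B] [IsDomain B] [Algebra B K] {I : Type} {a : I → K}
    (ha : AlgebraicIndependent B a) (M : IntermediateField k K) (hM : ∀ z ∈ M, IsAlgebraic B z) :
    AlgebraicIndependent M a := by
  let f : M →+* Subalgebra.algebraicClosure B K :=
    (algebraMap M K).codRestrict _ fun z => hM z z.2
  exact AlgebraicIndependent.of_ringHom_of_comp_eq f (RingHom.id K) ha.subalgebraAlgebraicClosure
    f.injective rfl

theorem StepA_alg {K₁ : Type u} [Field K₁] [Algebra k K₁] [Algebra K₁ K] [IsScalarTower k K₁ K]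
    (B : Subalgebra K₁ K) {s : Set K} (hs : ∀ z ∈ s, IsAlgebraic B z) {z : K} (hz : z ∈ acl k s) :
    IsAlgebraic B z := by
  have e : ∀ w : K, IsAlgebraic (Algebra.adjoin k (B.restrictScalars k : Set K)) w ↔
      IsAlgebraic B w := fun w => by
    rw [Algebra.adjoin_eq]
    rfl
  exact (e z).1 (alg_trans (fun w hw => (e w).2 (hs w hw)) (mem_acl.1 hz))

theorem StepA_poly (E : IntermediateField k K) {S : Set K} (hS : S ⊆ E) {a b : K}
    (h : IsAlgebraic (Algebra.adjoin k (insert a S)) b) :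
    ∃ G : E[X][X], G ≠ 0 ∧ G.eval₂ (eval₂RingHom (algebraMap E K) a) b = 0 := by
  obtain ⟨p, h0, hp⟩ := h
  have hle : Algebra.adjoin k (insert a S) ≤
      (aeval a : E[X] →ₐ[E] K).range.restrictScalars k := by
    refine Algebra.adjoin_le ?_
    rintro z (rfl | hz)
    · exact ⟨X, aeval_X _⟩
    · exact ⟨C ⟨z, hS hz⟩, aeval_C _ _⟩
  obtain ⟨G, hG⟩ := (mem_lifts (f := eval₂RingHom (algebraMap E K) a)
    (p.map (algebraMap _ K))).1 ((lifts_iff_coeff_lifts _).2 fun n => by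
      rw [coeff_map]
      exact hle (p.coeff n).2)
  refine ⟨G, fun e => h0 (map_injective (algebraMap _ K) Subtype.val_injective ?_), ?_⟩
  · rw [← hG, e, Polynomial.map_zero, Polynomial.map_zero]
  · rw [← eval_map, hG, eval_map]
    exact hp

theorem StepA_key' {K₁ E M : IntermediateField k K} [IsAlgClosed K₁] [IsAlgClosed E] (l1 : K₁ ≤ M)
    (l2 : E ≤ M) {F : K₁[X][X]} (hF : F.Monic) (hi : Irreducible F) {a b : K}
    (ha : Transcendental M a) (hb : F.eval₂ (eval₂RingHom (algebraMap K₁ K) a) b = 0)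
    {G : E[X][X]} (hG : G ≠ 0) (hGb : G.eval₂ (eval₂RingHom (algebraMap E K) a) b = 0) (s t : ℕ) :
    ((F.coeff s).coeff t : K) ∈ E := by
  obtain ⟨w, hw⟩ := StepA_key (IntermediateField.inclusion l1).toRingHom
    (IntermediateField.inclusion l2).toRingHom hF hi ha hb hG hGb s t
  have e : (w : K) = ((F.coeff s).coeff t : K) := congrArg Subtype.val hw
  rw [← e]
  exact w.2

theorem StepA_int {K₁ : Type u} [Field K₁] [Algebra K₁ K] (B : Subalgebra K₁ K) {F : K₁[X][X]}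
    (hF : F.Monic) {a b : K} (ha : a ∈ B)
    (hb : F.eval₂ (eval₂RingHom (algebraMap K₁ K) a) b = 0) : IsAlgebraic B b := by
  refine IsIntegral.isAlgebraic ⟨F.map (eval₂RingHom (algebraMap K₁ B) ⟨_, ha⟩), hF.map _, ?_⟩
  rw [eval₂_map, ← hb]
  congr 1
  exact RingHom.ext fun q => hom_eval₂ q _ (algebraMap B K) _

theorem StepA_step [IsAlgClosed K] (K₁ : IntermediateField k K) [IsAlgClosed K₁] {F : K₁[X][X]}
    (hF : F.Monic) (hi : Irreducible F)
    (hΓ : (K₁ : Set K) ⊆ acl k {c | ∃ i j, c = ((F.coeff i).coeff j : K)}) (B : Subalgebra K₁ K)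
    {S : Set K} (hS : ∀ z ∈ S, IsAlgebraic B z) (hn : ¬ (K₁ : Set K) ⊆ acl k S) {a b : K}
    (ha : Transcendental B a) (hb : F.eval₂ (eval₂RingHom (algebraMap K₁ K) a) b = 0) :
    rk k (insert b (insert a S)) = rk k S + 1 + 1 := by
  have t1 : Transcendental (acl k ((K₁ : Set K) ∪ S)) a := by
    refine (StepA_ind (a := fun _ : Unit => a) (algebraicIndependent_unique_type_iff.2 ha) _
      fun z hz => StepA_alg B ?_ hz).transcendental ()
    rintro z (hz | hz)
    · exact isAlgebraic_algebraMap (⟨z, B.algebraMap_mem ⟨z, hz⟩⟩ : B)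
    · exact hS z hz
  have l1 : K₁ ≤ acl k ((K₁ : Set K) ∪ S) := fun z hz => subset_acl _ (Or.inl hz)
  have l2 : acl k S ≤ acl k ((K₁ : Set K) ∪ S) := acl_mono Set.subset_union_right
  have t2 : Transcendental (Algebra.adjoin k S) a := fun h =>
    t1 (isAlgebraic_algebraMap (⟨_, l2 (mem_acl.2 h)⟩ : acl k ((K₁ : Set K) ∪ S)))
  have t3 : Transcendental (Algebra.adjoin k (insert a S)) b := fun h => by
    obtain ⟨G, hG, hG'⟩ := StepA_poly (acl k S) (subset_acl S) h
    refine hn (hΓ.trans (acl_le ?_))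
    rintro _ ⟨s, t, rfl⟩
    exact StepA_key' l1 l2 hF hi t1 hb hG hG' s t
  rw [rk_insert t3, rk_insert t2]

theorem StepA_add (K₁ : IntermediateField k K) {n : ℕ} {a : Fin n → K}
    (ha : AlgebraicIndependent K₁ a) :
    rk k ((K₁ : Set K) ∪ Set.range a) = rk k (K₁ : Set K) + n := by
  rw [rk_union, rk_range_of_indep (StepA_ind ha _ fun z hz => ?_)]
  rw [IntermediateField.adjoin_self] at hz
  exact isAlgebraic_algebraMap (⟨z, hz⟩ : K₁)

theorem StepA_rk [IsAlgClosed K] (K₁ : IntermediateField k K) [IsAlgClosed K₁] (F : K₁[X][X])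
    (hF : F.Monic) (hi : Irreducible F)
    (hΓ : (K₁ : Set K) ⊆ acl k {c | ∃ i j, c = ((F.coeff i).coeff j : K)}) (n : ℕ) :
    (n : ℕ∞) ≤ rk k (K₁ : Set K) → ∀ a b : Fin n → K, AlgebraicIndependent K₁ a →
      (∀ i, F.eval₂ (eval₂RingHom (algebraMap K₁ K) (a i)) (b i) = 0) →
      rk k (Set.range a ∪ Set.range b) = (n + n : ℕ) := by
  induction n with
  | zero =>
    intro _ a b _ _
    refine le_antisymm ((rk_le_encard _).trans ?_) zero_le
    simp
  | succ n ih =>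
    intro hn a b ha hb
    have ha' : AlgebraicIndependent K₁ (Fin.tail a) := ha.comp _ (Fin.succ_injective n)
    have h1 := ih (le_trans (Nat.cast_le.2 n.le_succ) hn) (Fin.tail a) (Fin.tail b) ha'
      fun i => hb i.succ
    have e : Set.range a ∪ Set.range b =
        insert (b 0) (insert (a 0) (Set.range (Fin.tail a) ∪ Set.range (Fin.tail b))) := by
      rw [Fin.range_fin_succ a, Fin.range_fin_succ b, Set.insert_union, Set.union_insert,
        Set.insert_comm]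
    have hB : ∀ i : Fin n, a i.succ ∈ Algebra.adjoin K₁ (a '' Set.range Fin.succ) := fun i =>
      Algebra.subset_adjoin ⟨_, ⟨i, rfl⟩, rfl⟩
    rw [e, StepA_step K₁ hF hi hΓ (Algebra.adjoin K₁ (a '' Set.range Fin.succ)) ?_ ?_
      (ha.transcendental_adjoin ?_) (hb 0), h1]
    · have : n + 1 + (n + 1) = n + n + 1 + 1 := by omega
      rw [this, Nat.cast_succ, Nat.cast_succ]
    · rintro z (⟨i, rfl⟩ | ⟨i, rfl⟩)
      · exact isAlgebraic_algebraMap (⟨_, hB i⟩ : Algebra.adjoin K₁ (a '' Set.range Fin.succ))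
      · exact StepA_int _ hF (hB i) (hb i.succ)
    · intro h2
      have h3 := rk_le_of_acl (Set.union_subset h2
        (Set.subset_union_left.trans (subset_acl _)))
      rw [StepA_add K₁ ha', h1] at h3
      have h4 := (add_le_add_left hn (n : ℕ∞)).trans h3
      rw [← Nat.cast_add, Nat.cast_le] at h4
      omega
    · rintro ⟨i, hi⟩
      exact Fin.succ_ne_zero i hi

theorem StepA_self {K₁ : Type u} [Field K₁] [Algebra K₁ K] {z : K}
    (h : IsAlgebraic (⊥ : Subalgebra K₁ K) z) : IsAlgebraic K₁ z := h.restrictScalars K₁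

theorem StepA_gen {Ω : Type u} [Field Ω] [IsAlgClosed Ω] [Algebra k Ω] [Algebra K Ω]
    [IsScalarTower k K Ω] {I I' : Type} [Fintype I'] (c : I → K) {n : ℕ} {a : Fin n → Ω}
    {l : I' → Ω} (hz : AlgebraicIndependent K (Sum.elim a l)) :
    ∃ (K₁ : IntermediateField k Ω) (c₁ : I → K₁) (l₁ : I' → K₁) (_ : IsAlgClosed K₁),
      (∀ i, (c₁ i : Ω) = algebraMap K Ω (c i)) ∧ AlgebraicIndependent k l₁ ∧
      (K₁ : Set Ω) ⊆ acl k (Set.range (fun i => (c₁ i : Ω)) ∪ Set.range fun b => (l₁ b : Ω)) ∧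
      rk k (K₁ : Set Ω) = dm k c + Fintype.card I' ∧ AlgebraicIndependent K₁ a := by
  obtain ⟨hl, ha⟩ := AlgebraicIndependent.sumElim_iff.1 hz
  have hs : rk k (Set.range fun i => algebraMap K Ω (c i)) = dm k c := by
    rw [dm, ← rk_image (IsScalarTower.toAlgHom k K Ω), ← Set.range_comp]
    rfl
  have hB : ∀ (B : Subalgebra K Ω), ∀ w ∈ Set.range fun i => algebraMap K Ω (c i),
      IsAlgebraic B w := by
    rintro B _ ⟨i, rfl⟩
    exact isAlgebraic_algebraMap (⟨_, B.algebraMap_mem _⟩ : B)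
  have l1 := subset_acl (k := k) ((Set.range fun i => algebraMap K Ω (c i)) ∪ Set.range l)
  refine ⟨acl k ((Set.range fun i => algebraMap K Ω (c i)) ∪ Set.range l),
    fun i => ⟨_, l1 (Or.inl ⟨i, rfl⟩)⟩, fun b => ⟨_, l1 (Or.inr ⟨b, rfl⟩)⟩, inferInstance,
    fun _ => rfl, AlgebraicIndependent.of_comp (IntermediateField.val _)
      (hl.restrictScalars (algebraMap k K).injective), subset_rfl, ?_,
    StepA_ind ha _ fun w hw => StepA_alg _ ?_ hw⟩
  · have h1 := StepA_ind hl (IntermediateField.adjoin k (Set.range fun i => algebraMap K Ω (c i)))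
      fun w hw => StepA_self (StepA_alg (k := k) ⊥ (hB _)
        (IntermediateField.adjoin_le_iff.2 (subset_acl _) hw))
    have h2 := rk_range_of_indep (h1.comp _ (Fintype.equivFin I').symm.injective)
    rw [(Equiv.surjective _).range_comp] at h2
    rw [rk_acl, rk_union, hs, h2]
  · rintro w (hw | hw)
    · exact hB _ w hw
    · exact isAlgebraic_algebraMap (⟨w, Algebra.subset_adjoin hw⟩ : Algebra.adjoin K (Set.range l))

end PR0
end

-- merged part: Pool.Agent.Work.MP_da2620_ag.StepAB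
section
/-!
# Plane models of a curve and their field of definition
-/

namespace PR0

open Polynomial

universe u

theorem StepA_ff {E L : Type u} [Field E] [Field L] [Algebra E L] {x y : L}
    (hx : Transcendental E x) {G : E[X][X]} (hG : G.Monic)
    (h : G.eval₂ (eval₂RingHom (algebraMap E L) x) y = 0) :
    IsFF E (IntermediateField.adjoin E {x, y}) := by
  set N := IntermediateField.adjoin E {x, y} with hN
  let x' : N := ⟨x, IntermediateField.subset_adjoin _ _ (Or.inl rfl)⟩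
  let y' : N := ⟨y, IntermediateField.subset_adjoin _ _ (Or.inr rfl)⟩
  refine ⟨x', fun ha => hx (ha.algHom N.val), ?_⟩
  let F := IntermediateField.adjoin E {x'}
  have hint : IsIntegral F y' := by
    refine ⟨G.map (eval₂RingHom (algebraMap E F)
      ⟨x', IntermediateField.mem_adjoin_simple_self E x'⟩), hG.map _, ?_⟩
    refine (algebraMap N L).injective ?_
    rw [eval₂_map, hom_eval₂, map_zero, ← h]
    congr 1
    exact RingHom.ext fun q => hom_eval₂ q _ ((algebraMap N L).comp (algebraMap F N)) _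
  have htop : IntermediateField.adjoin F {y'} = ⊤ := by
    rw [← IntermediateField.restrictScalars_eq_top_iff (K := E),
      IntermediateField.adjoin_adjoin_left]
    refine IntermediateField.lift_injective N ?_
    rw [IntermediateField.lift_adjoin, IntermediateField.lift_top, Set.image_union,
      Set.image_singleton, Set.image_singleton]
    rfl
  have := IntermediateField.adjoin.finiteDimensional hint
  rw [htop] at this
  exact Module.Finite.equiv IntermediateField.topEquiv.toLinearEquiv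

variable {K L : Type u} [Field K] [IsAlgClosed K] [Field L] [Algebra K L] [Fact (IsFF K L)]
  {ι : Type} [Fintype ι] [DecidableEq ι] [Nonempty ι]

theorem StepA_prim (d : CD K L ι) {y : L} (hy : Function.Injective fun i => d.ex i y) :
    IntermediateField.adjoin K {d.x, y} = ⊤ := by
  classical
  let F := IntermediateField.adjoin K {d.x}
  have : FiniteDimensional F L := finiteDimensional_of_transcendental d.transcendental
  obtain ⟨i₀⟩ := ‹Nonempty ι›
  have he : ∀ i, (d.ex i).comp F.val = (d.ex i₀).comp F.val := fun i =>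
    IntermediateField.adjoin_algHom_ext K fun z hz => by
      obtain rfl : z = d.x := hz
      exact (d.ex_x i).trans (d.ex_x i₀).symm
  have hint : IsIntegral F y := IsIntegral.of_finite F y
  let f : F →+* LS K := ((d.ex i₀).comp F.val).toRingHom
  have h1 : (Finset.univ.image fun i => d.ex i y).card ≤ ((minpoly F y).map f).natDegree := by
    refine card_le_degree_of_subset_roots fun z hz => ?_
    obtain ⟨i, -, rfl⟩ := Finset.mem_image.1 hz
    rw [mem_roots ((minpoly.monic hint).map f).ne_zero, IsRoot, eval_map]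
    have h2 := hom_eval₂ (minpoly F y) (algebraMap F L) (d.ex i).toRingHom y
    rw [← aeval_def, minpoly.aeval, map_zero] at h2
    rw [h2]
    congr 1
    exact congrArg AlgHom.toRingHom (he i).symm
  rw [Finset.card_image_of_injective _ hy, Finset.card_univ, (minpoly.monic hint).natDegree_map,
    ← d.finrank_eq] at h1
  have := Module.Free.of_divisionRing F L
  have h3 : IntermediateField.adjoin F {y} = ⊤ :=
    (Field.primitive_element_iff_minpoly_natDegree_eq F y).2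
      (le_antisymm (minpoly.natDegree_le y) h1)
  rw [← IntermediateField.restrictScalars_eq_top_iff (K := K),
    IntermediateField.adjoin_adjoin_left] at h3
  exact h3

omit [IsAlgClosed K] [Fact (IsFF K L)] in
theorem StepA_surj (x : L) : Function.Surjective (eval₂RingHom (algebraMap K (Algebra.adjoin K {x}))
    ⟨x, Algebra.self_mem_adjoin_singleton K x⟩) := fun z => by
  obtain ⟨q, hq⟩ := (Algebra.adjoin_singleton_eq_range_aeval K x).le z.2
  exact ⟨q, Subtype.ext ((hom_eval₂ q _ (algebraMap (Algebra.adjoin K {x}) L) _).trans hq)⟩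

theorem StepA_theta {x : L} (hx : Transcendental K x) {M : Type u} [Field M] [IsAlgClosed M]
    (φ : K →+* M) {a : M} (ha : Function.Injective (eval₂RingHom φ a)) :
    ∃ θ : L →+* M, θ x = a ∧ ∀ c, θ (algebraMap K L c) = φ c := by
  let : Algebra K[X] L := (eval₂RingHom (algebraMap K L) x).toAlgebra
  let : Algebra K[X] M := (eval₂RingHom φ a).toAlgebra
  have : FaithfulSMul K[X] L :=
    (faithfulSMul_iff_algebraMap_injective _ _).2 (transcendental_iff_injective.1 hx)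
  have : FaithfulSMul K[X] M := (faithfulSMul_iff_algebraMap_injective _ _).2 ha
  have := finiteDimensional_of_transcendental hx
  have : Algebra.IsAlgebraic K[X] L := ⟨fun f => IsAlgebraic.of_ringHom_of_comp_eq _ (RingHom.id L)
    (IntermediateField.isAlgebraic_adjoin_iff.1 (Algebra.IsAlgebraic.isAlgebraic f))
    (StepA_surj x) Function.injective_id
    (RingHom.ext fun q => hom_eval₂ q _ (algebraMap (Algebra.adjoin K {x}) L) _)⟩
  let θ : L →ₐ[K[X]] M := IsAlgClosed.lift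
  refine ⟨θ, ?_, fun c => ?_⟩
  · have := θ.commutes X
    rwa [show algebraMap K[X] L X = x from eval₂_X _ _,
      show algebraMap K[X] M X = a from eval₂_X _ _] at this
  · have := θ.commutes (C c)
    rwa [show algebraMap K[X] L (C c) = algebraMap K L c from eval₂_C _ _,
      show algebraMap K[X] M (C c) = φ c from eval₂_C _ _] at this

theorem StepA_min {x y : L} (hx : Transcendental K x) (hy : y ∈ regOut (poles K x)) :
    ∃ F : K[X][X], F.Monic ∧ Irreducible F ∧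
      F.eval₂ (eval₂RingHom (algebraMap K L) x) y = 0 := by
  let : Algebra K[X] L := (eval₂RingHom (algebraMap K L) x).toAlgebra
  obtain ⟨p, hp, h0⟩ := (mem_regOut_poles hx).1 hy
  obtain ⟨q, e, -, hq⟩ := lifts_and_natDegree_eq_and_monic
    ((mem_lifts p).2 (map_surjective _ (StepA_surj (K := K) x) p)) hp
  have hint : IsIntegral K[X] y := by
    refine ⟨q, hq, ?_⟩
    rw [← h0, ← e, eval₂_map]
    congr 1
    symm
    exact RingHom.ext fun q => hom_eval₂ q _ (algebraMap (Algebra.adjoin K {x}) L) _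
  exact ⟨minpoly K[X] y, minpoly.monic hint, minpoly.irreducible hint, minpoly.aeval _ _⟩

theorem StepA_cd {K₀ L₀ : Type u} [Field K₀] [IsAlgClosed K₀] [Field L₀] [Algebra K₀ L₀]
    [Fact (IsFF K₀ L₀)] {φ : K₀ →+* K} {ψ : L₀ →+* L} (hψ : BC φ ψ) (d : CD K L ι)
    (hx : d.x ∈ Set.range ψ) : ∃ d₀ : CD K₀ L₀ ι, ∀ f, d.exT (ψ f) = mapT φ (d₀.exT f) := by
  obtain ⟨x₀, hx⟩ := hx
  have hx0 : d.x ≠ 0 := fun h0 => d.transcendental (h0 ▸ isAlgebraic_zero)
  have hng : ∀ i, ¬ (d.pl i).Ge d.x 0 := fun i hg => by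
    have := hg.resolve_left hx0
    rw [d.ord_x] at this
    omega
  have hov : ∀ i, ∃ P : Place K₀ L₀, Over ψ P (d.pl i) := fun i =>
    (hψ.over_or (d.pl i)).resolve_right fun hh => hng i ((d.pl i).mem_iff.1 (hx ▸ hh x₀))
  choose pl hpl using hov
  obtain ⟨d₀, h1, h2⟩ := exists_cd (x := x₀) (pl := pl)
    (fun i j hij => d.inj ((hψ.exists_over (pl i)).unique (hpl i) (hij ▸ hpl j)))
    (fun i => by
      have e0 : x₀ ≠ 0 := fun h0 => hx0 (by rw [← hx, h0, map_zero])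
      have e1 := (hψ.ge_iff (hpl i) x₀ (-1)).1 (Or.inr (by rw [hx, d.ord_x]))
      have e2 := mt (hψ.ge_iff (hpl i) x₀ 0).2 (hx ▸ hng i)
      have e3 := e1.resolve_left e0
      have e4 : ¬ 0 ≤ (pl i).ord x₀ := fun hh => e2 (Or.inr hh)
      exact ⟨e0, by omega⟩)
    (fun P hP => by
      obtain ⟨P', hP', -⟩ := hψ.exists_over P
      obtain ⟨i, rfl⟩ := d.pole P' (hx ▸ mt (hP' x₀).1 hP)
      exact ⟨i, hψ.over_inj hP' (hpl i)⟩)
  exact ⟨d₀, (fod_cd hψ d₀ d (h1 ▸ hx) (h2 ▸ hpl)).1⟩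

/-- The chart and the expansions of `y` are defined over any algebraically closed field containing
the coefficients of the plane model. -/
theorem StepA_fod {E : Type u} [Field E] [IsAlgClosed E] (φ : E →+* K) (d : CD K L ι)
    {J : Finset (ι × ℕ)} (h : IsChart J d.alg) (i₀ : ι) {y : L}
    (hy : Function.Injective fun i => d.ex i y) {F : K[X][X]} (hF : F.Monic)
    (h0 : F.eval₂ (eval₂RingHom (algebraMap K L) d.x) y = 0)
    (hc : ∀ s t, (F.coeff s).coeff t ∈ Set.range φ) :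
    (∀ a, coef i₀ J d.alg a ∈ Set.range φ) ∧ ∀ i n, (d.ex i y).cf n ∈ Set.range φ := by
  let := φ.toAlgebra
  let : Algebra E L := ((algebraMap K L).comp φ).toAlgebra
  have : IsScalarTower E K L := IsScalarTower.of_algebraMap_eq fun _ => rfl
  obtain ⟨G, e, -, hG⟩ := lifts_and_natDegree_eq_and_monic (f := mapRingHom φ)
    ((lifts_iff_coeff_lifts F).2 fun s =>
      (mem_lifts _).1 ((lifts_iff_coeff_lifts _).2 (hc s))) hF
  have : Fact (IsFF E (IntermediateField.adjoin E {d.x, y})) := by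
    refine ⟨StepA_ff (d.transcendental.of_tower_top E) hG ?_⟩
    rw [← h0, ← e, eval₂_map]
    congr 1
    exact RingHom.ext fun q => (eval₂_map φ _ _).symm
  let N := IntermediateField.adjoin E {d.x, y}
  have hx : d.x ∈ Set.range (algebraMap N L) :=
    ⟨⟨_, IntermediateField.subset_adjoin _ _ (Or.inl rfl)⟩, rfl⟩
  have hy' : y ∈ Set.range (algebraMap N L) :=
    ⟨⟨_, IntermediateField.subset_adjoin _ _ (Or.inr rfl)⟩, rfl⟩
  have hψ : BC φ (algebraMap N L) := by
    refine ⟨fun _ => rfl, fun f => IntermediateField.adjoin_le_subfield K {d.x, y}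
      (fun z hz => Subfield.subset_closure (Or.inr hz)) ?_ ?_⟩
    · rintro z (rfl | rfl)
      exacts [Subfield.subset_closure (Or.inl hx), Subfield.subset_closure (Or.inl hy')]
    · rw [StepA_prim d hy]
      trivial
  refine ⟨coef_of_bc hψ d h i₀ hx, fun i n => ?_⟩
  obtain ⟨d₀, h1⟩ := StepA_cd hψ d hx
  obtain ⟨y₀, e'⟩ := hy'
  have h2 := h1 y₀
  rw [e'] at h2
  exact ⟨(d₀.ex i y₀).cf n, (congrArg (fun F : LT ι K => (F i).cf n) h2).symm⟩

omit [Nonempty ι] in
theorem StepA_fun {R : Type u} [CommRing R] {J : Finset (ι × ℕ)} {A : Subalgebra R (LT ι R)}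
    (h : IsChart J A) (i₀ : ι) {m : ℕ} (hJ : ∀ ν ∈ J, ν.2 < m) (l : Model_ix J m → R) :
    ∃ Y ∈ A, Pole Y m ∧ ∀ b : Model_ix J m, Model_co i₀ b.1 Y = l b := by
  let G : Model_ix J m → LT ι R := fun b => b.1.elim 1 (chi i₀ J A)
  have h1 : ∀ b, G b ∈ lev A m := by
    rintro ⟨_ | μ, hb⟩
    · exact ⟨one_mem _, Univ_pole_mono Univ_pole_one (Int.natCast_nonneg m)⟩
    · exact ⟨h.chi_mem i₀ μ, h.pole_chi i₀ (Model_some_ix.1 hb).1 hJ⟩
  have h2 : ∀ a b : Model_ix J m, Model_co i₀ a.1 (G b) = if a = b then 1 else 0 := by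
    rintro ⟨_ | ν, ha⟩ ⟨_ | μ, hb⟩
    · rw [if_pos rfl]
      have := Model_cf_alg i₀ (1 : R)
      rwa [map_one] at this
    · rw [if_neg (by simp)]
      exact h.chi_cf i₀ μ
    · rw [if_neg (by simp)]
      have := Model_pc_alg (1 : R) ν
      rwa [map_one] at this
    · refine (h.Chart_pc_chi i₀ μ (Model_some_ix.1 ha).2).trans ?_
      simp
  have h3 : ∑ b, l b • G b ∈ lev A m := sum_mem fun b _ => Submodule.smul_mem _ _ (h1 b)
  refine ⟨_, h3.1, h3.2, fun b => ?_⟩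
  simp [map_sum, h2]

theorem StepA_spc {k : Type u} [Field k] {I : Type} {R R' : Type u} [CommRing R] [Algebra k R]
    [CommRing R'] [Algebra k R'] {y : I → R} (h : AlgebraicIndependent k y) (y' : I → R') :
    Spc k y y' := fun f hf => by
  rw [h.eq_zero_of_aeval_eq_zero f hf, map_zero]

theorem StepA_arc {k M : Type u} [Field k] [IsAlgClosed k] [Algebra k K] [Field M] [Algebra k M]
    (hM : Algebra.trdeg k M ≤ Cardinal.aleph0) (φ : K →ₐ[k] M) (d : CD K L ι)
    {J : Finset (ι × ℕ)} (h : IsChart J d.alg) (i₀ : ι) {y : L} (hy0 : y ≠ 0) {m : ℕ}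
    (hy : y ∈ d.reg) (hy' : Pole (d.exT y) m) {n : ℕ} (θ : Fin n → L →+* M)
    (hθ : ∀ i c, θ i (algebraMap K L c) = φ c)
    (hind : AlgebraicIndependent k (Sum.elim (fun i => θ i d.x) fun i => θ i y)) :
    ∃ (D : FFd (HF k)) (d' : CD (HF k) D.L ι) (y : D.L) (Q : Fin n → Place (HF k) D.L)
      (a : Fin n → HO k), IsChart J d'.alg ∧ Spc k (coef i₀ J d.alg) (coef i₀ J d'.alg) ∧
      Spc k (coef i₀ J d'.alg) (coef i₀ J d.alg) ∧ y ≠ 0 ∧ y ∈ Lsp ((m : ℤ) • dvInf (HF k) d'.x) ∧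
      (∀ i, d'.x ∈ (Q i).1 ∧ (Q i).val d'.x = a i) ∧ (Function.Injective fun i => hres (a i)) ∧
      Function.Injective fun i => hv ((Q i).val y) := by
  let t : Fin n → k := fun i => Infinite.natEmbedding k i
  obtain ⟨w, hw, hwi⟩ := gens (k := k) (κ := k) (s := ∅) (by simp [rk])
    (Sum.elim (fun i : Fin n => algebraMap k (HF k) (t i)) fun _ : Fin n => 0)
    (Sum.elim (fun _ => 1) fun i => ((i : ℕ) : ℝ))
  obtain ⟨σ, hσ⟩ := emb (StepA_spc hind w)
    (StepA_spc (hwi.restrictScalars (algebraMap k _).injective) _) (FG.of_finite _).dm_ne_top hM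
  obtain ⟨L', _, _, _, ψ, hψ⟩ := exists_bc (L := L) ((σ.comp φ : K →ₐ[k] HF k) : K →+* HF k)
  obtain ⟨d', hx, -, hex, hA, hr⟩ := hψ.exists_cd d
  choose Q hQ _ using fun i => hψ.exists_generic ((σ : M →+* HF k).comp (θ i))
    fun c => congrArg σ (hθ i c)
  have h1 : ∀ i, 0 < hv (w (.inl i) - algebraMap k (HF k) (t i)) := fun i => by
    have := hw (.inl i)
    rw [Sum.elim_inl, Sum.elim_inl] at this
    rw [this]
    exact_mod_cast one_pos
  have h2 : ∀ i, w (.inl i) ∈ HO k := fun i => by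
    have := add_mem (mem_HO.2 (h1 i).le) (const_mem (t i))
    rwa [sub_add_cancel] at this
  have hc : coef i₀ J d'.alg = fun a => σ.comp φ (coef i₀ J d.alg a) := by
    rw [hA, h.coef_bc]
    rfl
  refine ⟨⟨L'⟩, d', ψ y, Q, fun i => ⟨_, h2 i⟩, hA ▸ h.bc _, hc ▸ Spc.map _ _,
    hc ▸ Spc.of_map _ _ (σ.comp φ).injective, (map_ne_zero ψ).2 hy0, ?_, fun i => ?_, ?_, ?_⟩
  · rw [d'.dvInf_x, d'.mem_Lsp, hex]
    exact ⟨(hr _).2 (Submodule.subset_span ⟨y, hy, rfl⟩), Gauss_pole_map _ hy'⟩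
  · rw [hx]
    exact ⟨(hQ i _).1, (hQ i _).2.trans (hσ (.inl i))⟩
  · have h3 : ∀ i, hres (⟨_, h2 i⟩ : HO k) = t i := fun i => by
      have := hres_eq_zero (x := ⟨_, h2 i⟩ - algebraMap k (HO k) (t i)).2 (h1 i)
      rwa [map_sub, AlgHom.commutes, sub_eq_zero] at this
    intro i j e
    simp only [h3] at e
    exact Fin.ext ((Infinite.natEmbedding k).injective e)
  · have h3 : ∀ i, hv ((Q i).val (ψ y)) = ((i : ℕ) : ℝ) := fun i => by
      have := hw (.inr i)
      rw [Sum.elim_inr, Sum.elim_inr, sub_zero, ← hσ] at this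
      rw [(hQ i _).2]
      exact this
    intro i j e
    simp only [h3] at e
    exact Fin.ext (by exact_mod_cast e)

end PR0
end

-- merged part: Pool.Agent.Work.MP_da2620_ag.StepA
section
/-!
# The dimension bound, and degeneration to lines

`indep_points`: let `K₁` have finite rank `e` and be algebraic over the coefficients `Γ` of an
irreducible `F(X, Y)`.  Let `(a i, b i)` be independent generic points of the curve `F = 0` over `K₁`.  As long as
`Γ` is not algebraic over the previous points, the next point has rank two over them (else it lies on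
a curve `G` defined over them, `F ∣ G`, and `F`, suitably normalised, is algebraic over them).
`exists_arc`: descend the curve to `K₀ = acl (coef)` (`fod_of_coef`), take `m` large, a basis `β` of
`Lsp (m ∞)` (dimension `m d + 1 - g`) and `y = ∑ l j β j` with generic `l`, over `K₁ = acl (K₀, l)`.  The expansions
of `y` at the `d` poles are distinct, so `y` is primitive with minimal polynomial
`P` of `exists_charpoly`.  `K₁` is algebraic over the coefficients `Γ` of `P`: the function field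
`K_Γ(x)[Y] / P` over `K_Γ = acl Γ` has `L` as base change, so `coef_of_bc` gives `K₀ ⊆ K_Γ`, and `BC.mem_Lsp`,
`BC.linearIndependent` give `l j ∈ K_Γ`.  Take `n` independent generic places; by `indep_points` the `2 n` values of
`x, y` are independent over `k`; send them to elements of `HF k` with `a i ≡` distinct constants and
`hv (b i) = i + 1` (`gens`), extend by `emb`, and base change.
-/

namespace PR0

open Polynomial

universe u

variable {k K : Type u} [Field k] [IsAlgClosed k] [Field K] [IsAlgClosed K] [Algebra k K]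
  {ι : Type} [Fintype ι] [DecidableEq ι] [Nonempty ι] {J : Finset (ι × ℕ)}

theorem indep_points (K₁ : IntermediateField k K) [IsAlgClosed K₁] (F : K₁[X][X]) (hF : F.Monic)
    (hi : Irreducible F) (hΓ : (K₁ : Set K) ⊆ acl k {c | ∃ i j, c = ((F.coeff i).coeff j : K)})
    {n : ℕ} (hn : (n : ℕ∞) ≤ rk k (K₁ : Set K)) (a b : Fin n → K) (ha : AlgebraicIndependent K₁ a)
    (hb : ∀ i, aeval (b i) (F.map (aeval (a i) : K₁[X] →ₐ[K₁] K).toRingHom) = 0) :
    AlgebraicIndependent k (Sum.elim a b) := by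
  refine indep_of_rk ?_
  rw [Set.Sum.elim_range, StepA_rk K₁ F hF hi hΓ n hn a b ha fun i => ?_]
  · simp
  · have := hb i
    rwa [coe_aeval_eq_eval, eval_map] at this

theorem StepA_mid (K₁ : IntermediateField k K) [IsAlgClosed K₁] {L : Type u} [Field L]
    [Algebra K₁ L] [Fact (IsFF K₁ L)] (d : CD K₁ L ι) (h : IsChart J d.alg) (i₀ : ι) {m₀ : ℕ}
    (hJ : ∀ ν ∈ J, ν.2 < m₀) (l : Model_ix J (m₀ + 1) → K₁) (hl : AlgebraicIndependent k l)
    (hK : (K₁ : Set K) ⊆ acl k (Set.range (fun a => ((coef i₀ J d.alg a : K₁) : K)) ∪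
      Set.range fun b => (l b : K))) (hK' : rk k (K₁ : Set K) ≠ ⊤) {n : ℕ}
    (hn : (n : ℕ∞) ≤ rk k (K₁ : Set K)) (a : Fin n → K) (ha : AlgebraicIndependent K₁ a) :
    ∃ (D : FFd (HF k)) (d' : CD (HF k) D.L ι) (y : D.L) (Q : Fin n → Place (HF k) D.L)
      (a : Fin n → HO k), IsChart J d'.alg ∧ Spc k (coef i₀ J d.alg) (coef i₀ J d'.alg) ∧
      Spc k (coef i₀ J d'.alg) (coef i₀ J d.alg) ∧ y ≠ 0 ∧
      y ∈ Lsp (((m₀ + 1 : ℕ) : ℤ) • dvInf (HF k) d'.x) ∧
      (∀ i, d'.x ∈ (Q i).1 ∧ (Q i).val d'.x = a i) ∧ (Function.Injective fun i => hres (a i)) ∧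
      Function.Injective fun i => hv ((Q i).val y) := by
  obtain ⟨_, ⟨y, hy, rfl⟩, hp, hc⟩ := StepA_fun h i₀ (fun ν hν => (hJ ν hν).trans m₀.lt_succ_self) l
  have hm : ∀ i, some (i, m₀) ∈ Model_ix J (m₀ + 1) := fun i =>
    Model_some_ix.2 ⟨m₀.lt_succ_self, fun e => (hJ _ e).false⟩
  have hinj : Function.Injective fun i => d.ex i y := fun i j e => by
    have e1 : l ⟨_, hm i⟩ = l ⟨_, hm j⟩ := by
      rw [← hc, ← hc]
      exact congrArg (LS.cf · (-((m₀ : ℤ) + 1))) e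
    simpa using hl.injective e1
  have hy0 : y ≠ 0 := fun e => hl.ne_zero ⟨_, Model_none_ix _⟩ (by
    rw [← hc, e, map_zero, map_zero])
  obtain ⟨F, hF, hi, h0⟩ := StepA_min d.transcendental (y := y) (d.poles_eq ▸ hy)
  have hΓ : (K₁ : Set K) ⊆ acl k {c | ∃ i j, c = ((F.coeff i).coeff j : K)} := by
    have l1 : acl k {c | ∃ i j, c = ((F.coeff i).coeff j : K)} ≤ K₁ := fun z hz => by
      obtain ⟨w, hw⟩ := minpoly.mem_range_of_degree_eq_one K₁ z
        (IsAlgClosed.degree_eq_one_of_irreducible K₁ (minpoly.irreducible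
          (IsAlgebraic.isIntegral ((StepA_alg (⊥ : Subalgebra K₁ K) (by
            rintro _ ⟨i, j, rfl⟩
            exact isAlgebraic_algebraMap (⟨_, Subalgebra.algebraMap_mem _ _⟩ :
              (⊥ : Subalgebra K₁ K))) hz).restrictScalars K₁))))
      exact hw ▸ w.2
    generalize hE : acl k {c | ∃ i j, c = ((F.coeff i).coeff j : K)} = E at l1
    have : IsAlgClosed E := hE ▸ acl_isAlgClosed k _
    have hr : ∀ z : K₁, z ∈ Set.range (IntermediateField.inclusion l1).toRingHom ↔ (z : K) ∈ E :=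
      fun z => ⟨fun ⟨w, hw⟩ => (show (w : K) = z from congrArg Subtype.val hw) ▸ w.2,
        fun hz => ⟨⟨z, hz⟩, rfl⟩⟩
    obtain ⟨h1, h2⟩ := StepA_fod (IntermediateField.inclusion l1).toRingHom d h i₀ hinj hF h0
      fun s t => (hr _).2 (hE ▸ subset_acl _ ⟨s, t, rfl⟩)
    have h3 : ∀ S : Set K, S ⊆ E → acl k S ≤ E := fun S hS => hE ▸ acl_le (hE ▸ hS)
    refine hK.trans (h3 _ ?_)
    rintro _ (⟨a, rfl⟩ | ⟨b, rfl⟩)
    · exact (hr _).1 (h1 a)
    · refine (hr _).1 ?_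
      rw [← hc]
      obtain ⟨_ | μ, hb⟩ := b
      exacts [h2 i₀ 0, h2 μ.1 _]
  have hM := trdeg_acl_le (s := (K₁ : Set K) ∪ Set.range a)
    (by rw [StepA_add K₁ ha]; exact WithTop.add_ne_top.2 ⟨hK', ENat.natCast_ne_top n⟩)
  have l1 : K₁ ≤ acl k ((K₁ : Set K) ∪ Set.range a) := fun z hz => subset_acl _ (Or.inl hz)
  have l2 : ∀ i, a i ∈ acl k ((K₁ : Set K) ∪ Set.range a) := fun i => subset_acl _ (Or.inr ⟨i, rfl⟩)
  have : IsAlgClosed (acl k ((K₁ : Set K) ∪ Set.range a)) := inferInstance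
  generalize acl k ((K₁ : Set K) ∪ Set.range a) = M at hM l1 l2 this
  have e1 : ∀ i (q : K₁[X]), ((eval₂RingHom (IntermediateField.inclusion l1).toRingHom
      ⟨a i, l2 i⟩ q : M) : K) = aeval (a i) q := fun i q => hom_eval₂ q _ (algebraMap M K) _
  choose θ hθ hθ' using fun i => StepA_theta d.transcendental
    (IntermediateField.inclusion l1).toRingHom (a := ⟨a i, l2 i⟩) fun q q' e =>
      transcendental_iff_injective.1 (ha.transcendental i) (by rw [← e1, ← e1, e])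
  refine StepA_arc hM (IntermediateField.inclusion l1) d h i₀ hy0 hy hp θ hθ'
    (AlgebraicIndependent.of_comp M.val ?_)
  convert indep_points K₁ F hF hi hΓ hn a (fun i => θ i y) ha fun i => ?_ using 1
  · funext i
    rcases i with i | i
    · exact congrArg Subtype.val (hθ i)
    · rfl
  · have h1 := congrArg ((algebraMap M K).comp (θ i)) h0
    rw [hom_eval₂, map_zero] at h1
    rw [coe_aeval_eq_eval, eval_map, ← h1]
    congr 1
    refine Polynomial.ringHom_ext (fun c => ?_) ?_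
    · change aeval (a i) (C c) = (θ i (eval₂ _ _ (C c)) : K)
      rw [aeval_C, eval₂_C, hθ']
      rfl
    · change aeval (a i) X = (θ i (eval₂ _ _ X) : K)
      rw [aeval_X, eval₂_X, hθ]

theorem exists_arc (C : FFd K) (d : CD K C.L ι) (h : IsChart J d.alg) (i₀ : ι) :
    ∃ m : ℕ, ∀ n : ℕ, ((n + J.card : ℕ) : ℕ∞) ≤ dm k (coef i₀ J d.alg) + (m * Fintype.card ι + 1 : ℕ) →
      ∃ (D : FFd (HF k)) (d' : CD (HF k) D.L ι) (y : D.L) (Q : Fin n → Place (HF k) D.L)
        (a : Fin n → HO k), IsChart J d'.alg ∧ Spc k (coef i₀ J d.alg) (coef i₀ J d'.alg) ∧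
        Spc k (coef i₀ J d'.alg) (coef i₀ J d.alg) ∧ y ≠ 0 ∧ y ∈ Lsp ((m : ℤ) • dvInf (HF k) d'.x) ∧
        (∀ i, d'.x ∈ (Q i).1 ∧ (Q i).val d'.x = a i) ∧ (Function.Injective fun i => hres (a i)) ∧
        Function.Injective fun i => hv ((Q i).val y) := by
  obtain ⟨m₀, hJ⟩ := Model_bound J
  refine ⟨m₀ + 1, fun n hn => ?_⟩
  obtain ⟨Ω, _, _, _, _, _, z, hz⟩ := exists_generic (k := k) K (Fin n ⊕ Model_ix J (m₀ + 1))
  rw [← Sum.elim_comp_inl_inr z] at hz
  obtain ⟨K₁, c₁, l, _, hc₁, hl, hK, hr, ha⟩ := StepA_gen (k := k) (coef i₀ J d.alg) hz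
  let τ := IsScalarTower.toAlgHom k K Ω
  obtain ⟨A₁, h₁, hc, e⟩ := (h.bc (τ : K →+* Ω)).descend (i₀ := i₀) K₁.val Subtype.val_injective
    (c := c₁) fun i => (hc₁ i).trans (congrFun (h.coef_bc i₀ (τ : K →+* Ω)) i).symm
  have hs : Sm A₁ := by
    rw [← sm_bc_iff h₁ (K₁.val : K₁ →+* Ω), e, sm_bc_iff h]
    exact d.sm
  obtain ⟨L, _, _, _, d₁, rfl⟩ := exists_cd_of_sm h₁ hs
  subst hc
  obtain ⟨e₀, he⟩ := ENat.ne_top_iff_exists.1 (h.fg (k := k) i₀).dm_ne_top
  have h5 := Model_card_ix (ι := ι) fun ν hν => (hJ ν hν).trans m₀.lt_succ_self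
  rw [← he, ← Nat.cast_add, Fintype.card_coe] at hr
  rw [← he, ← Nat.cast_add, Nat.cast_le, ← h5] at hn
  obtain ⟨D, d', y, Q, a', h1, h2, h3, h4⟩ := StepA_mid K₁ d₁ h₁ i₀ hJ l hl hK
    (hr.trans_ne (ENat.natCast_ne_top _)) (n := n)
    (le_of_le_of_eq (Nat.cast_le.2 (Nat.le_of_add_le_add_right
      (hn.trans_eq (add_assoc _ _ _).symm))) hr.symm) _ ha
  have e1 : (fun i => τ (coef i₀ J d.alg i)) = fun i => K₁.val (coef i₀ J d₁.alg i) :=
    funext fun i => (hc₁ i).symm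
  refine ⟨D, d', y, Q, a', h1, ((Spc.map _ τ).trans ?_).trans h2,
    h3.trans (Spc.trans ?_ (Spc.of_map _ τ τ.injective)), h4⟩
  · rw [e1]
    exact Spc.of_map _ _ Subtype.val_injective
  · rw [e1]
    exact Spc.map _ _

theorem StepA_le {C : FFd K} {d : CD K C.L ι} (h : IsChart J d.alg) {i₀ : ι} {D : FFd (HF k)}
    {d' : CD (HF k) D.L ι} (h' : IsChart J d'.alg)
    (h1 : Spc k (coef i₀ J d.alg) (coef i₀ J d'.alg))
    (h2 : Spc k (coef i₀ J d'.alg) (coef i₀ J d.alg)) :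
    Comb.Sp k C.sm D.sm ∧ Comb.Sp k D.sm C.sm ∧
      ∀ (p : ℕ) [Fact p.Prime] [CharP k p], HW0 K C.L p → HW0 (HF k) D.L p := by
  obtain ⟨Ω, _, _, _, E, l1, l2⟩ := le_of_conj (FFd.has_sm.2 ⟨d, rfl, h⟩)
    (FFd.has_sm.2 ⟨d', rfl, h'⟩) h1 h2
  refine ⟨l1.sp.trans l2.sp', l2.sp.trans l1.sp', fun p _ _ hC => ?_⟩
  have : CharP K p := charP_of_injective_algebraMap (algebraMap k K).injective p
  obtain ⟨φ, l1⟩ := l1
  obtain ⟨φ', l2⟩ := l2
  exact (D.hw0_sm p).1 ((l2.hw0 p).1 ((l1.hw0 p).2 ((C.hw0_sm p).2 hC)))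

variable (p : ℕ) [Fact p.Prime] [CharP k p]

/-- The dimension bound. -/
theorem dm_le (C : FFd K) (hC : HW0 K C.L p) (d : CD K C.L ι) (h : IsChart J d.alg) (i₀ : ι) :
    dm k (coef i₀ J d.alg) + 2 ≤ (2 * Fintype.card ι + J.card : ℕ) := by
  obtain ⟨m, hm⟩ := exists_arc (k := k) C d h i₀
  have hfin := (h.fg (k := k) i₀).dm_ne_top
  obtain ⟨e, he⟩ := ENat.ne_top_iff_exists.1 hfin
  have hpos := Fintype.card_pos (α := ι)
  have key : e + 2 ≤ 2 * Fintype.card ι + J.card := by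
    by_cases hg : J.card ≤ e + (m * Fintype.card ι + 1)
    · obtain ⟨D, d', y, Q, a, h', h1, h2, hy, hy', hQ, ha, hb⟩ :=
        hm (e + (m * Fintype.card ι + 1) - J.card) (by
          rw [← he, Nat.sub_add_cancel hg, Nat.cast_add])
      obtain ⟨Φ⟩ := exists_floors (κ := k) d'.transcendental
      have := (Φ.count d'.transcendental p ((StepA_le h h' h1 h2).2.2 p hC) d'.finrank_eq hy hy'
        Q a hQ ha hb).1
      omega
    · omega
  rw [← he]
  exact_mod_cast key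

/-- A curve of maximal dimension degenerates to lines (use `coef_of_bc` in both directions to compare
the dimensions of the charts for `x` and for `1 / (x - c)`). -/
theorem exists_lines (C : FFd K) (hC : HW0 K C.L p) (d : CD K C.L ι) (h : IsChart J d.alg) (i₀ : ι)
    (hm : ((2 * Fintype.card ι + J.card : ℕ) : ℕ∞) ≤ dm k (coef i₀ J d.alg) + 2) :
    ∃ (D : FFd (HF k)) (s : ℕ) (d' : CD (HF k) D.L (Fin s)) (J' : Finset (Fin s × ℕ))
      (𝒜 : Subalgebra (HO k) (LT (Fin s) (HO k))), s = Fintype.card ι ∧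
      Comb.Sp k C.sm D.sm ∧ Comb.Sp k D.sm C.sm ∧ genus (HF k) D.L = genus K C.L ∧
      HW0 (HF k) D.L p ∧ IsChart J' 𝒜 ∧ d'.alg = gen' 𝒜 ∧ Lines (spe 𝒜) ∧
      ∀ i₁, ((2 * s + J'.card : ℕ) : ℕ∞) ≤ dm k (coef i₁ J' d'.alg) + 2 := by
  obtain ⟨m, hn⟩ := exists_arc (k := k) C d h i₀
  obtain ⟨e, he⟩ := ENat.ne_top_iff_exists.1 (h.fg (k := k) i₀).dm_ne_top
  have hpos := Fintype.card_pos (α := ι)
  have hm' : 2 * Fintype.card ι + J.card ≤ e + 2 := by
    rw [← he] at hm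
    exact_mod_cast hm
  obtain ⟨D, d', y, Q, a, h', h1, h2, hy, hy', hQ, ha, hb⟩ :=
    hn (2 * Fintype.card ι + m * Fintype.card ι - 1) (by
      rw [← he, ← Nat.cast_add, Nat.cast_le]
      omega)
  obtain ⟨Φ⟩ := exists_floors (κ := k) d'.transcendental
  obtain ⟨s1, s2, s3⟩ := StepA_le h h' h1 h2
  obtain ⟨hd, P, P', hP, hP'⟩ := (Φ.count d'.transcendental p (s3 p hC) d'.finrank_eq hy hy'
    Q a hQ ha hb).2 (by omega)
  obtain ⟨c, d'', J', 𝒜, hx, h𝒜, hA, hL⟩ := Φ.lines d'.transcendental p (s3 p hC) hd P P' hP hP'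
  have hs : Φ.s = Fintype.card ι := by
    have := Φ.sum_deg d'.transcendental
    rw [d'.finrank_eq] at this
    simpa [hd] using this
  refine ⟨D, Φ.s, d'', J', 𝒜, hs, s1, s2, (d'.card_eq h').symm.trans (d.card_eq h), s3 p hC, h𝒜,
    hA, hL, fun i₁ => ?_⟩
  have : Nonempty (Fin Φ.s) := ⟨i₁⟩
  have h'' : IsChart J' d''.alg := hA ▸ h𝒜.bc _
  rw [d''.card_eq h'', ← d'.card_eq h', congrArg (2 * · + J.card) hs]
  refine hm.trans (add_le_add_left (h2.dm_le.trans ?_) 2)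
  obtain ⟨C₀, d₀, ψ, hψ, hx', -⟩ := fod_of_coef d'' h'' i₁
    (acl k (Set.range (coef i₁ J' d''.alg))).val fun a => ⟨⟨_, subset_acl _ ⟨a, rfl⟩⟩, rfl⟩
  refine rk_le_of_acl ?_
  rintro _ ⟨b, rfl⟩
  obtain ⟨w, hw⟩ := coef_of_bc hψ d' h' i₀
    ⟨d₀.x⁻¹ + algebraMap _ _ (algebraMap k (acl k (Set.range (coef i₁ J' d''.alg))) c), by
      rw [map_add, map_inv₀, hx', hx, inv_inv, hψ.comm]
      exact sub_add_cancel _ _⟩ b
  rw [← hw]
  exact w.2

end PR0
end
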