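import Pool.Agent.Work.MP_da2620_ag.ClsA
import Pool.Agent.Work.MP_da2620_ag.StepA

-- merged part: Pool.Agent.Work.MP_da2620_ag.ClsB
section
/-!
# Points of local degree at most two; the colength
-/

namespace PR0.Cls

open Polynomial

universe u

variable {K : Type u} [Field K] [IsAlgClosed K] {ι : Type} [Fintype ι] [DecidableEq ι]
  {J : Finset (ι × ℕ)} {A : Subalgebra K (LT ι K)} {N : Nrm A}

/-- The isomorphism with the chart point. -/
noncomputable def eqv (N : Nrm A) : N.B ≃ₐ[K] A :=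
  (N.B.equivMapOfInjective N.exT N.exT_injective).trans (Subalgebra.equivOfEq _ _ N.map_eq)

theorem eqv_val (b : N.B) : (eqv N b).1 = N.exT b := rfl

theorem exT_xx : N.exT (xx N) = PR0.xx ι K := funext fun i => by
  obtain ⟨⟨v, j⟩, rfl⟩ := N.e.surjective i
  exact (N.exT_apply _ v j).trans ((N.d v).ex_x j)

/-- Evaluation at a place. -/
noncomputable def ev (P : N.Pl) : N.B →ₐ[K] K where
  toFun f := vl P f
  map_one' := vl_one
  map_mul' f g := vl_mul (G_B f.2) (G_B g.2)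
  map_zero' := vl_zero
  map_add' f g := vl_add (G_B f.2) (G_B g.2)
  commutes' := vl_C

theorem finite_quot (h : IsChart J A) (a : K) (I : Ideal A)
    (hI : (⟨PR0.xx ι K, h.x_mem⟩ - algebraMap K A a : A) ∈ I) (i₀ : ι) : Module.Finite K (A ⧸ I) := by
  obtain ⟨n, hn⟩ := Chart_bound J
  set S : Set (LT ι K) := insert 1 (chi i₀ J A '' {μ | μ.2 ≤ n}) with hS
  have h1 : S.Finite := by
    refine (Set.Finite.image _ ?_).insert _
    refine (Finset.univ ×ˢ Finset.range (n + 1) : Finset (ι × ℕ)).finite_toSet.subset fun μ hμ => ?_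
    simpa [Nat.lt_succ_iff] using hμ
  have h2 : Submodule.span K S ≤ A.toSubmodule := Submodule.span_le.2 (by
    rintro _ (rfl | ⟨μ, -, rfl⟩)
    exacts [A.one_mem, h.chi_mem i₀ μ])
  have h3 : ∀ F ∈ Submodule.span (Algebra.adjoin K {PR0.xx ι K}) S, ∃ c ∈ Submodule.span K S,
      ∃ g ∈ A, F = c + (PR0.xx ι K - algebraMap K _ a) * g := by
    intro F hF
    induction hF using Submodule.span_induction with
    | mem F hF => exact ⟨F, Submodule.subset_span hF, 0, zero_mem _, by simp⟩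
    | zero => exact ⟨0, zero_mem _, 0, zero_mem _, by simp⟩
    | add F F' _ _ ih ih' =>
      obtain ⟨c, h3, g, h4, rfl⟩ := ih
      obtain ⟨c', h5, g', h6, rfl⟩ := ih'
      exact ⟨c + c', add_mem h3 h5, g + g', add_mem h4 h6, by ring⟩
    | smul r F _ ih =>
      obtain ⟨c, h3, g, h4, rfl⟩ := ih
      obtain ⟨r, hr⟩ := r
      obtain ⟨p, rfl⟩ : r ∈ (aeval (PR0.xx ι K) : K[X] →ₐ[K] _).range := by
        rwa [← Algebra.adjoin_singleton_eq_range_aeval]
      obtain ⟨q, hq⟩ := X_sub_C_dvd_sub_C_eval (p := p) (a := a)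
      have h5 : ∀ p : K[X], aeval (PR0.xx ι K) p ∈ A := fun p => Algebra.adjoin_le
        (Set.singleton_subset_iff.2 h.x_mem) (aeval_mem_adjoin_singleton K _)
      refine ⟨p.eval a • c, Submodule.smul_mem _ _ h3, aeval (PR0.xx ι K) q * c +
        aeval (PR0.xx ι K) p * g, add_mem (mul_mem (h5 q) (h2 h3)) (mul_mem (h5 p) h4), ?_⟩
      have h6 := congrArg (aeval (PR0.xx ι K)) hq
      simp only [map_sub, map_mul, aeval_X, aeval_C] at h6
      change aeval (PR0.xx ι K) p * _ = _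
      rw [Algebra.smul_def]
      linear_combination c * h6
  have : Module.Finite K (Submodule.span K S) := Module.Finite.span_of_finite K h1
  refine Module.Finite.of_surjective ((Ideal.Quotient.mkₐ K I).toLinearMap ∘ₗ
    (Submodule.inclusion h2 : _ →ₗ[K] A)) fun z => ?_
  obtain ⟨⟨F, hF⟩, rfl⟩ := Ideal.Quotient.mk_surjective z
  obtain ⟨c, h4, g, h5, rfl⟩ := h3 F ((h.span_x i₀ hn).1 hF)
  refine ⟨⟨c, h4⟩, (Ideal.Quotient.eq.2 ?_).symm⟩
  convert I.mul_mem_right ⟨g, h5⟩ hI using 1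
  exact Subtype.ext (add_sub_cancel_left _ _)

/-- Local degree at most two, on the normalisation. -/
def H2 (N : Nrm A) : Prop := ∀ (P : N.Pl) (n : ℕ), ∃ r ≤ 2, ∃ t : Fin r → W N, (∀ i, t i ∈ N.B) ∧
  ∀ b ∈ N.B, ∃ c : Fin r → K, ∃ g ∈ N.B, ∀ Q, N.Glued P Q →
    G Q (b - ∑ i, c i • t i - yy N (vl P (xx N)) * g) n

private theorem h2_aux {K A M ι : Type*} [Field K] [Ring A] [Ring M] [Algebra K A] [Algebra K M]
    [Fintype ι] (q : A →ₐ[K] M) (bs : Module.Basis ι K M) {t : ι → A} (ht : ∀ i, q (t i) = bs i)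
    (a : A) : q (a - ∑ i, bs.repr (q a) i • t i) = 0 := by
  rw [map_sub, map_sum]
  simp only [map_smul, ht, Module.Basis.sum_repr, sub_self]

theorem h2_of (h : IsChart J A) (i₀ : ι) (h2 : ∀ (σ : A →ₐ[K] K) (n : ℕ),
    Module.finrank K (A ⧸ (Ideal.span {⟨PR0.xx ι K, h.x_mem⟩ -
      algebraMap K A (σ ⟨PR0.xx ι K, h.x_mem⟩)} ⊔ RingHom.ker σ ^ n)) ≤ 2) : H2 N := by
  intro P n
  set σ : A →ₐ[K] K := (ev P).comp (eqv N).symm.toAlgHom with hσ
  have h3 : (eqv N).symm ⟨PR0.xx ι K, h.x_mem⟩ = ⟨xx N, N.x_mem h⟩ :=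
    (eqv N).symm_apply_eq.2 (Subtype.ext exT_xx.symm)
  have h4 : σ ⟨PR0.xx ι K, h.x_mem⟩ = vl P (xx N) := congrArg (ev P) h3
  have h5 := h2 σ n
  rw [h4] at h5
  set I := Ideal.span {(⟨PR0.xx ι K, h.x_mem⟩ - algebraMap K A (vl P (xx N)) : A)} ⊔
    RingHom.ker σ ^ n with hI
  have := finite_quot h _ I (Ideal.mem_sup_left (Ideal.subset_span rfl)) i₀
  have h6 : ∀ n : ℕ, ∀ m ∈ RingHom.ker σ ^ n, ∀ Q, N.Glued P Q → G Q ((eqv N).symm m).1 n := by
    intro n
    induction n with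
    | zero => exact fun m _ Q _ => G_B ((eqv N).symm m).2
    | succ n ih =>
      intro m hm Q hQ
      rw [pow_succ] at hm
      induction hm using Submodule.mul_induction_on' with
      | mem_mul_mem a ha b hb =>
        rw [map_mul]
        exact (ih a ha Q hQ).mul ((vl_eq_zero (G_B ((eqv N).symm b).2)).1
          ((Gl.vl hQ ((eqv N).symm b).2).trans hb))
      | add a _ b _ ha hb =>
        rw [map_add]
        exact ha.add hb
  have : Module.Free K (A ⧸ I) := Module.Free.of_divisionRing K _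
  obtain bs := Module.finBasis K (A ⧸ I)
  choose t ht using fun i => Ideal.Quotient.mkₐ_surjective K I (bs i)
  refine ⟨_, h5, fun i => (eqv N).symm (t i), fun i => ((eqv N).symm (t i)).2, fun b hb => ?_⟩
  set c := bs.repr (Ideal.Quotient.mkₐ K I (eqv N ⟨b, hb⟩)) with hc
  have h7 : eqv N ⟨b, hb⟩ - ∑ i, c i • t i ∈ I :=
    Ideal.Quotient.eq_zero_iff_mem.1 (h2_aux (Ideal.Quotient.mkₐ K I) bs ht _)
  obtain ⟨z, h8, m, h9, e⟩ := Submodule.mem_sup.1 h7
  obtain ⟨g, rfl⟩ := Ideal.mem_span_singleton'.1 h8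
  refine ⟨c, (eqv N).symm g, ((eqv N).symm g).2, fun Q hQ => (h6 n m h9 Q hQ).of_eq ?_⟩
  have e' := congrArg (fun z => ((eqv N).symm z).1) (eq_sub_of_add_eq' e)
  simp only [map_sub, map_sum, map_smul, map_mul, AlgEquiv.symm_apply_apply, h3,
    AlgEquiv.commutes, AddSubgroupClass.coe_sub, AddSubmonoidClass.coe_finsetSum,
    SetLike.val_smul, MulMemClass.coe_mul, SubalgebraClass.coe_algebraMap] at e'
  rw [e', yy, mul_comm]

theorem rel3 {r : ℕ} (hr : r ≤ 2) (α : Fin 3 → Fin r → K[X]) (a : K) :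
    ∃ γ : Fin 3 → K[X], (∃ i, (γ i).eval a ≠ 0) ∧ ∀ j, ∑ i, γ i * α i j = 0 := by
  classical
  have h1 : ¬ LinearIndependent K[X] α := fun h => by
    have := h.fintype_card_le_finrank
    simp at this
    omega
  obtain ⟨γ, h2, i₀, h3⟩ := Fintype.not_linearIndependent_iff.1 h1
  obtain ⟨g, h4, h5⟩ := Finset.extract_gcd γ (Finset.univ_nonempty (α := Fin 3))
  have h6 : Finset.univ.gcd γ ≠ 0 := fun e => h3 (by rw [h4 i₀ (Finset.mem_univ _), e, zero_mul])
  refine ⟨g, ?_, fun j => mul_left_cancel₀ h6 ?_⟩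
  · by_contra h7
    simp only [ne_eq, not_exists, not_not] at h7
    have h8 : X - C a ∣ Finset.univ.gcd g := Finset.dvd_gcd fun i _ => dvd_iff_isRoot.2 (h7 i)
    rw [h5] at h8
    exact not_isUnit_X_sub_C a (isUnit_of_dvd_one h8)
  · have h7 := congrFun h2 j
    rw [Finset.sum_apply] at h7
    rw [mul_zero, Finset.mul_sum]
    refine (Finset.sum_congr rfl fun i hi => ?_).trans h7
    rw [← mul_assoc, ← h4 i hi]
    rfl

variable (hx : xx N ∈ N.B) (h2 : H2 N) (P : N.Pl)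
include hx h2

theorem three (f : Fin 3 → W N) (hf : ∀ i, f i ∈ N.top) : ∃ c : Fin 3 → K, (∃ i, c i ≠ 0) ∧
    ∀ Q, N.Glued P Q → G Q (∑ i, c i • f i) (ee Q) := by
  obtain ⟨s, -, h3, h4⟩ := exists_s N
  obtain ⟨n, hn⟩ := bound (finite_gl hx P) fun Q => ee Q + od Q s
  obtain ⟨r, hr, t, ht, h5⟩ := h2 P n
  set a := vl P (xx N) with ha
  have h6 : ∀ j : ℕ, ∀ b ∈ N.B, ∃ α : Fin r → K[X], ∃ g ∈ N.B, ∀ Q, N.Glued P Q →
      G Q (b - ∑ i, aeval (xx N) (α i) * t i - yy N a ^ j * g) n := by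
    intro j b hb
    induction j with
    | zero => exact ⟨0, b, hb, fun Q _ => G_zero.of_eq (by simp)⟩
    | succ j ih =>
      obtain ⟨α, g, h6, h7⟩ := ih
      obtain ⟨c, g', h8, h9⟩ := h5 g h6
      refine ⟨fun i => α i + (X - C a) ^ j * C (c i), g', h8, fun Q hQ =>
        ((h7 Q hQ).add ((G_top (pow_mem (yy_top a) j)).mul0 (h9 Q hQ))).of_eq ?_⟩
      simp only [map_add, map_mul, map_pow, aeval_yy, aeval_C, add_mul, Finset.sum_add_distrib,
        mul_assoc, ← Finset.mul_sum, Algebra.smul_def]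
      ring
  choose α g h7 h8 using fun i => h6 n _ (h4 _ (hf i))
  obtain ⟨γ, h9, h10⟩ := rel3 hr α a
  refine ⟨fun i => (γ i).eval a, h9, fun Q hQ => ?_⟩
  have h11 := Gl.vl hQ hx
  have h12 : G Q (∑ i, aeval (xx N) (γ i) * f i) (ee Q) := by
    refine G.cancel (h3 _) (G.mono ?_ (hn Q hQ))
    have h13 : ∀ i, G Q (s * f i - ∑ j, aeval (xx N) (α i j) * t j) n := fun i =>
      ((h8 i Q hQ).add ((((G_yy h11).pow n).mono (by have := ee_pos Q; nlinarith)).mul1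
        (G_B (h7 i)))).of_eq (sub_add_cancel _ _).symm
    refine (G_sum Finset.univ fun i _ => (G_top (aeval_mem xx_top (γ i))).mul0 (h13 i)).of_eq ?_
    simp only [mul_sub, Finset.sum_sub_distrib, Finset.mul_sum]
    rw [Finset.sum_comm]
    simp only [← mul_assoc, ← map_mul, ← Finset.sum_mul, ← map_sum, h10, map_zero, zero_mul,
      Finset.sum_const_zero, sub_zero, mul_comm s]
  refine (h12.sub (G_sum Finset.univ fun i _ => (G_aeval h11 (γ i)).mul1 (G_top (hf i)))).of_eq ?_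
  simp only [sub_mul, Finset.sum_sub_distrib, Algebra.smul_def, sub_sub_cancel, ha]

theorem ee_le : ee P ≤ 2 := by
  by_contra h
  obtain ⟨u, h3, h4, h5, -⟩ := exists_unif Set.finite_empty P 0
  have h6 := od_eq h4 h5
  obtain ⟨c, ⟨i, hi⟩, h7⟩ := three hx h2 P ![1, u, u * u] (by
    intro i
    fin_cases i
    exacts [one_mem _, h3, mul_mem h3 h3])
  have h8 : G P (algebraMap K _ (c 0) + u * (algebraMap K _ (c 1) + u * algebraMap K _ (c 2))) 3 :=
    ((h7 P (Gl.refl P)).mono (by omega)).of_eq (by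
      simp [Fin.sum_univ_three, Algebra.smul_def]; ring)
  have h9 : c 0 = 0 := C_eq_zero (((h8.mono (by omega)).sub (h4.mul1 ((G_C _).add
    ((G_top h3).mul0 (G_C _))))).of_eq (add_sub_cancel_right _ _).symm)
  rw [h9, map_zero, zero_add] at h8
  have h10 := G.cancel (n := 2) h6.1 (by rw [h6.2]; exact h8)
  have h11 : c 1 = 0 := C_eq_zero (((h10.mono (by omega)).sub (h4.mul1 (G_C _))).of_eq
    (add_sub_cancel_right _ _).symm)
  rw [h11, map_zero, zero_add] at h10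
  have h12 : c 2 = 0 := C_eq_zero (G.cancel h6.1 (by rw [h6.2]; exact h10))
  fin_cases i
  exacts [hi h9, hi h11, hi h12]

theorem tau : ∃ τ ∈ N.top, ∀ f ∈ N.top, ∃ c c' : K, ∀ Q, N.Glued P Q →
    G Q (f - algebraMap K _ c - algebraMap K _ c' * τ) (ee Q) := by
  by_cases h : ∀ f ∈ N.top, ∃ c : K, ∀ Q, N.Glued P Q → G Q (f - algebraMap K _ c) (ee Q)
  · refine ⟨0, zero_mem _, fun f hf => ?_⟩
    obtain ⟨c, hc⟩ := h f hf
    exact ⟨c, 0, fun Q hQ => (hc Q hQ).of_eq (by simp)⟩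
  obtain ⟨τ, hτ⟩ := not_forall.1 h
  obtain ⟨h3, h4⟩ := Classical.not_imp.1 hτ
  refine ⟨τ, h3, fun f hf => ?_⟩
  obtain ⟨c, ⟨i, hi⟩, h5⟩ := three hx h2 P ![1, τ, f] (by
    intro i
    fin_cases i
    exacts [one_mem _, h3, hf])
  simp only [Fin.sum_univ_three, Matrix.cons_val_zero, Matrix.cons_val_one, Matrix.cons_val] at h5
  by_cases h6 : c 2 = 0
  · by_cases h7 : c 1 = 0
    · have h8 : c 0 = 0 := C_eq_zero (((h5 P (Gl.refl P)).mono (ee_pos P)).of_eq (by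
        simp [h6, h7, Algebra.smul_def]))
      fin_cases i
      exacts [absurd h8 hi, absurd h7 hi, absurd h6 hi]
    · refine absurd ⟨-((c 1)⁻¹ * c 0), fun Q hQ => ((h5 Q hQ).smul (c 1)⁻¹).of_eq ?_⟩ h4
      rw [h6, zero_smul, add_zero, smul_add, smul_smul, smul_smul, inv_mul_cancel₀ h7, one_smul,
        map_neg, sub_neg_eq_add, Algebra.algebraMap_eq_smul_one, add_comm]
  · refine ⟨-((c 2)⁻¹ * c 0), -((c 2)⁻¹ * c 1), fun Q hQ => ((h5 Q hQ).smul (c 2)⁻¹).of_eq ?_⟩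
    rw [smul_add, smul_add, smul_smul, smul_smul, smul_smul, inv_mul_cancel₀ h6, one_smul,
      Algebra.smul_def, Algebra.smul_def, map_neg, map_neg]
    ring

omit h2 in
theorem div_yy {f : W N} {j : ℕ} (hf : ∀ Q, N.Glued P Q → G Q f (j * ee Q)) (φ : N.Pl → ℤ) :
    ∃ g ∈ N.top, ∀ Q, N.Glued P Q → G Q (f - yy N (vl P (xx N)) ^ j * g) (φ Q) := by
  obtain ⟨M, hM⟩ := bound (finite_gl hx P) φ
  set a := vl P (xx N) with ha
  have h1 : yy N a ^ j * (f / yy N a ^ j) = f :=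
    funext fun v => mul_div_cancel₀ _ (pow_ne_zero _ (yy_ne a v))
  obtain ⟨g, h3, h4⟩ := approx (finite_gl hx P) (fun _ => f / yy N a ^ j) (fun Q hQ =>
    G.cancel (g := yy N a ^ j) (pow_ne_zero _ (yy_ne a _)) (by
      rw [h1, od_pow (yy_ne a _), zero_add, ha, ← Gl.vl hQ hx]
      exact hf Q hQ)) M
  refine ⟨g, h3, fun Q hQ => (((G_top (pow_mem (yy_top a) j)).mul0 (h4 Q hQ)).neg.mono
    (hM Q hQ)).of_eq ?_⟩
  rw [mul_sub, h1, neg_sub]

omit h2 in
theorem iter {τ : W N} (h : ∀ f ∈ N.top, ∃ c c' : K, ∀ Q, N.Glued P Q →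
    G Q (f - algebraMap K _ c - algebraMap K _ c' * τ) (ee Q)) (n : ℕ) {f : W N} (hf : f ∈ N.top) :
    ∃ α β : K[X], ∀ Q, N.Glued P Q →
      G Q (f - aeval (xx N) α - aeval (xx N) β * τ) (n * ee Q) := by
  induction n with
  | zero => exact ⟨0, 0, fun Q _ => by simpa using G_top hf⟩
  | succ n ih =>
    obtain ⟨α, β, h1⟩ := ih
    obtain ⟨g, h3, h4⟩ := div_yy hx P h1 fun Q => n * ee Q + ee Q
    obtain ⟨c, c', h5⟩ := h g h3
    refine ⟨α + (X - C (vl P (xx N))) ^ n * C c, β + (X - C (vl P (xx N))) ^ n * C c', fun Q hQ =>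
      (((h4 Q hQ).add (((G_yy (Gl.vl hQ hx)).pow n).mul (h5 Q hQ))).mono
        (by push_cast; linarith)).of_eq ?_⟩
    simp only [map_add, map_mul, map_pow, aeval_yy, aeval_C]
    ring

/-- the local structure -/
theorem str (M : ℕ) : ∃ n : ℕ, (∀ f : W N, (∀ Q, N.Glued P Q → G Q f (n * ee Q)) →
      ∃ b ∈ N.B, ∀ Q, N.Glued P Q → G Q (f - b) M) ∧
    ∀ b ∈ N.B, ∃ p : K[X], ∀ Q, N.Glued P Q → G Q (b - aeval (xx N) p) (n * ee Q) := by
  classical
  have hM : ∀ Q : N.Pl, (M : ℤ) ≤ M * ee Q := fun Q => by have := ee_pos Q; nlinarith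
  have h0 : ∀ f : W N, (∀ Q, N.Glued P Q → G Q f (M * ee Q)) →
      ∃ b ∈ N.B, ∀ Q, N.Glued P Q → G Q (f - b) M := fun f hf =>
    ⟨0, zero_mem _, fun Q hQ => ((hf Q hQ).mono (hM Q)).of_eq (sub_zero f)⟩
  have h1 : ∃ n : ℕ, ∀ f : W N, (∀ Q, N.Glued P Q → G Q f (n * ee Q)) →
      ∃ b ∈ N.B, ∀ Q, N.Glued P Q → G Q (f - b) M := ⟨M, h0⟩
  refine ⟨Nat.find h1, Nat.find_spec h1, fun b hb => ?_⟩
  have h3 : Nat.find h1 ≤ M := Nat.find_min' h1 h0
  obtain ⟨τ, hτ, h4⟩ := tau hx h2 P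
  obtain ⟨α, β, h5⟩ := iter hx P h4 M (B_top hb)
  set a := vl P (xx N) with ha
  by_cases h6 : (X - C a) ^ Nat.find h1 ∣ β
  · obtain ⟨β', rfl⟩ := h6
    refine ⟨α, fun Q hQ => (((h5 Q hQ).mono ?_).add (((G_yy (Gl.vl hQ hx)).pow _).mul1
      (G_top (mul_mem (aeval_mem xx_top β') hτ)))).of_eq ?_⟩
    · have := ee_pos Q
      have : (Nat.find h1 : ℤ) ≤ M := by exact_mod_cast h3
      nlinarith
    · simp only [map_mul, map_pow, aeval_yy]
      ring
  have h7 : β ≠ 0 := fun e => h6 (e ▸ dvd_zero _)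
  obtain ⟨u, h8, h9⟩ := exists_eq_pow_rootMultiplicity_mul_and_not_dvd β h7 a
  have h10 : rootMultiplicity a β < Nat.find h1 := by
    by_contra h
    exact h6 ((pow_dvd_pow _ (not_lt.1 h)).trans (pow_rootMultiplicity_dvd β a))
  refine absurd (fun f hf => ?_) (Nat.find_min h1 h10)
  generalize rootMultiplicity a β = j at h8 hf
  obtain ⟨u', w, h11⟩ : IsCoprime u ((X - C a) ^ M) :=
    ((irreducible_X_sub_C a).coprime_iff_not_dvd.2 h9).symm.pow_right
  obtain ⟨g, h12, h13⟩ := div_yy hx P hf fun _ => M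
  obtain ⟨α', β', h14⟩ := iter hx P h4 M h12
  have h15 : ∀ p, aeval (xx N) p ∈ N.B := aeval_mem hx
  refine ⟨aeval (xx N) ((X - C a) ^ j * α') + aeval (xx N) (β' * u') * (b - aeval (xx N) α),
    add_mem (h15 _) (mul_mem (h15 _) (sub_mem hb (h15 _))), fun Q hQ => ?_⟩
  have h16 := congrArg (aeval (xx N)) h11
  simp only [map_add, map_mul, map_pow, aeval_yy, map_one] at h16
  refine ((((h13 Q hQ).add ((G_top (pow_mem (yy_top a) j)).mul0 ((h14 Q hQ).mono (hM Q)))).sub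
    ((G_B (h15 (β' * u'))).mul0 ((h5 Q hQ).mono (hM Q)))).add
    ((((G_yy (Gl.vl hQ hx)).pow M).mono (hM Q)).mul1
      (G_top (mul_mem (aeval_mem xx_top (w * (X - C a) ^ j * β')) hτ)))).of_eq ?_
  simp only [h8, map_mul, map_pow, aeval_yy]
  linear_combination (-(yy N a ^ j * aeval (xx N) β' * τ)) * h16

omit hx h2 P

theorem le_delta {m : ℕ} (P Q : Fin m → N.Pl) (hP : ∀ i j, N.Glued (P i) (P j) → i = j)
    (hQ : ∀ i, Q i ≠ P i ∧ N.Glued (P i) (Q i)) : m ≤ N.δ := by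
  classical
  have := N.finite_δ
  let Φ : N.top.toSubmodule →ₗ[K] Fin m → K :=
    { toFun := fun f i => vl (P i) f - vl (Q i) f
      map_add' := fun f g => funext fun i => by
        rw [Submodule.coe_add, vl_add (G_top f.2) (G_top g.2), vl_add (G_top f.2) (G_top g.2),
          add_sub_add_comm]
        rfl
      map_smul' := fun c f => funext fun i => by
        rw [Submodule.coe_smul, vl_smul c (G_top f.2), vl_smul c (G_top f.2), ← mul_sub]
        rfl }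
  have h1 : N.B.toSubmodule.submoduleOf N.top.toSubmodule ≤ LinearMap.ker Φ := fun f hf =>
    funext fun i => sub_eq_zero.2 (Gl.vl (hQ i).2 hf).symm
  have h2 : Function.Surjective Φ := fun c => by
    obtain ⟨f, h3, h4⟩ := approx ((Set.finite_range P).union (Set.finite_range Q))
      (fun R => algebraMap K _ (∑ j, if R = P j then c j else 0)) (fun R _ => G_C _) 1
    refine ⟨⟨f, h3⟩, funext fun i => ?_⟩
    change vl (P i) f - vl (Q i) f = c i
    rw [vl_eq (h4 _ (Or.inl ⟨i, rfl⟩)), vl_eq (h4 _ (Or.inr ⟨i, rfl⟩)), Finset.sum_eq_single i,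
      if_pos rfl, Finset.sum_eq_zero, sub_zero]
    · exact fun j _ => if_neg fun e => (hQ i).1 (by rw [e, hP i j (e ▸ (hQ i).2)])
    · exact fun j _ hj => if_neg fun e : P i = P j => hj (hP i j (e ▸ Gl.refl _)).symm
    · exact fun h => absurd (Finset.mem_univ _) h
  have h3 : Function.Surjective (Submodule.liftQ _ Φ h1) := fun c =>
    (h2 c).elim fun f hf => ⟨Submodule.Quotient.mk f, hf⟩
  simpa [Nrm.δ] using LinearMap.finrank_le_finrank_of_surjective h3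

theorem top_le (h : N.δ = 0) {f : W N} (hf : f ∈ N.top) : f ∈ N.B := by
  have := N.finite_δ
  have := Module.finrank_zero_iff.1 h
  exact (Submodule.Quotient.mk_eq_zero (N.B.toSubmodule.submoduleOf N.top.toSubmodule)
    (x := ⟨f, hf⟩)).1 (Subsingleton.elim _ _)

theorem codim_one (h : N.δ ≤ 1) (S : Submodule K (W N)) (hS : ∀ f ∈ N.B, f ∈ S) {f₀ f : W N}
    (h0 : f₀ ∈ N.top) (h1 : f₀ ∉ S) (hf : f ∈ N.top) (h2 : f ∈ S) : f ∈ N.B := by
  have := N.finite_δ
  obtain ⟨z, hz⟩ := finrank_le_one_iff.1 h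
  obtain ⟨c, hc⟩ := hz (Submodule.Quotient.mk ⟨f, hf⟩)
  obtain ⟨c₀, hc₀⟩ := hz (Submodule.Quotient.mk ⟨f₀, h0⟩)
  by_cases h3 : c = 0
  · rw [h3, zero_smul] at hc
    exact (Submodule.Quotient.mk_eq_zero _).1 hc.symm
  have h4 : (Submodule.Quotient.mk ⟨f₀, h0⟩ : _ ⧸ N.B.toSubmodule.submoduleOf N.top.toSubmodule) =
      Submodule.Quotient.mk ((c₀ * c⁻¹) • ⟨f, hf⟩) := by
    rw [Submodule.Quotient.mk_smul, ← hc, ← hc₀, smul_smul, inv_mul_cancel_right₀ h3]
  have h5 : f₀ - (c₀ * c⁻¹) • f ∈ S := hS _ ((Submodule.Quotient.eq _).1 h4)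
  exact absurd (by simpa using add_mem h5 (S.smul_mem (c₀ * c⁻¹) h2)) h1

end PR0.Cls
end

-- merged part: Pool.Agent.Work.MP_da2620_ag.ClsC
section
/-!
# The field of definition of a curve of local degree at most two
-/

namespace PR0.Cls

open Polynomial

universe u

variable {K : Type u} [Field K] {K₀ : Type u} [Field K₀]

theorem dec {V₀ V : Type*} [AddCommGroup V₀] [Module K₀ V₀] [AddCommGroup V] [Module K V]
    (φ : K₀ →+* K) (Θ : V₀ →+ V) (hΘ : ∀ c b, Θ (c • b) = φ c • Θ b) {I : Type*} [Fintype I]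
    (S : I → Submodule K₀ V₀) (x : I → V) (hx : ∀ i, x i ∈ Submodule.span K (Θ '' S i)) :
    ∃ (n : ℕ) (e : Fin n → K) (b : I → Fin n → V₀), BCind φ e ∧ (∀ i l, b i l ∈ S i) ∧
      ∀ i, x i = ∑ l, e l • Θ (b i l) := by
  choose m c g h using fun i => Submodule.mem_span_set'.1 (hx i)
  choose g₀ h1 h2 using fun i j => (g i j).2
  obtain ⟨n, e, π, h3, h4⟩ := BC_dec φ (Finset.univ : Finset (Σ i, Fin (m i))) fun a => c a.1 a.2
  refine ⟨n, e, fun i l => ∑ j, π ⟨i, j⟩ l • g₀ i j, h3,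
    fun i l => sum_mem fun j _ => (S i).smul_mem _ (h1 i j), fun i => ?_⟩
  simp only [map_sum, hΘ, Finset.smul_sum, smul_smul, h2]
  rw [Finset.sum_comm, ← h i]
  refine Finset.sum_congr rfl fun j _ => ?_
  rw [← Finset.sum_smul, h4 ⟨i, j⟩ (Finset.mem_univ _)]
  simp only [mul_comm]

variable [Algebra K₀ K]

theorem lam {V : Type*} [AddCommGroup V] [Module K V] (g : K →ₗ[K₀] K₀) {n : ℕ} (e : Fin n → K)
    (s : Fin n → V) (ℓ : V →ₗ[K] K) (h : ∀ l, ℓ (s l) ∈ Set.range (algebraMap K₀ K)) :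
    ℓ (∑ l, algebraMap K₀ K (g (e l)) • s l) = algebraMap K₀ K (g (ℓ (∑ l, e l • s l))) := by
  choose p hp using h
  simp only [map_sum, map_smul, ← hp]
  refine Finset.sum_congr rfl fun l _ => ?_
  rw [smul_eq_mul, smul_eq_mul, mul_comm (e l), ← Algebra.smul_def (p l), map_smul, smul_eq_mul,
    map_mul, mul_comm]

variable [IsAlgClosed K] [IsAlgClosed K₀] {ι : Type} [Fintype ι] [DecidableEq ι]
  {J : Finset (ι × ℕ)} {A : Subalgebra K (LT ι K)}

/-- Models of the components over `K₀`. -/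
structure Md (N : Nrm A) (K₀ : Type u) [Field K₀] [Algebra K₀ K] where
  C : N.V → FFd K₀
  d : ∀ v, CD K₀ (C v).L (N.ιv v)
  ψ : ∀ v, (C v).L →+* (N.C v).L
  bc : ∀ v, BC (algebraMap K₀ K) (ψ v)
  hx : ∀ v, ψ v (d v).x = (N.d v).x
  hex : ∀ v f, (N.d v).exT (ψ v f) = mapT (algebraMap K₀ K) ((d v).exT f)
  hreg : ∀ v f, f ∈ (N.d v).reg ↔ f ∈ Submodule.span K (ψ v '' (d v).reg)

variable {N : Nrm A} (F : Md N K₀)

/-- The map on total rings. -/
def Md.Ψ : (∀ v, (F.C v).L) →+* W N := RingHom.pi fun v => (F.ψ v).comp (Pi.evalRingHom _ v)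

theorem Md.Ψ_smul (c : K₀) (b : ∀ v, (F.C v).L) : F.Ψ (c • b) = algebraMap K₀ K c • F.Ψ b :=
  funext fun v => (F.bc v).BC_smul c (b v)

/-- Preimage of a subalgebra. -/
def Md.pre (S : Subalgebra K (W N)) : Submodule K₀ (∀ v, (F.C v).L) where
  carrier := {b | F.Ψ b ∈ S}
  add_mem' ha hb := by
    rw [Set.mem_ofPred_eq, map_add]
    exact add_mem ha hb
  zero_mem' := by
    rw [Set.mem_ofPred_eq, map_zero]
    exact zero_mem _
  smul_mem' c b hb := by
    rw [Set.mem_ofPred_eq, F.Ψ_smul]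
    exact S.smul_mem hb _

/-- Places defined over `K₀`. -/
def Md.Rat (Q : N.Pl) : Prop := ∃ Q₀ : Place K₀ (F.C Q.1.1).L, Over (F.ψ Q.1.1) Q₀ Q.1.2

theorem Md.rat_of_val {Q : N.Pl} (h : vl Q (xx N) ∈ Set.range (algebraMap K₀ K)) : F.Rat Q :=
  (F.bc _).over_of_val (F.d _).transcendental (Or.inr (by rw [F.hx]; exact h))

theorem Md.rat_of_ram {Q : N.Pl} (h : G Q (xx N - algebraMap K _ (vl Q (xx N))) 2) : F.Rat Q :=
  ((F.bc _).over_or Q.1.2).resolve_right fun h' =>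
    unram_of_generic (F.bc _) (F.d _) h' (by rw [F.hx]; exact h)

theorem single_top {v : N.V} {f : (N.C v).L} (h : f ∈ (N.d v).reg) :
    (Pi.single v f : W N) ∈ N.top := fun w _ => by
  by_cases e : w = v
  · rw [e, Pi.single_eq_same]
    exact h
  · rw [Pi.single_eq_of_ne e]
    exact (N.d w).reg.zero_mem

theorem Md.top_span {f : W N} (hf : f ∈ N.top) :
    f ∈ Submodule.span K (F.Ψ.toAddMonoidHom '' F.pre N.top) := by
  rw [← Finset.univ_sum_single f]
  refine sum_mem fun v _ => ?_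
  have h := (F.hreg v _).1 (hf v trivial)
  refine (Submodule.span_le (p := Submodule.comap (LinearMap.single K (fun v => (N.C v).L) v)
    (Submodule.span K (F.Ψ.toAddMonoidHom '' F.pre N.top)))).2 ?_ h
  rintro _ ⟨g, hg, rfl⟩
  have e : F.Ψ (Pi.single v g) = Pi.single v (F.ψ v g) := funext fun w =>
    Pi.apply_single (fun v => F.ψ v) (fun v => map_zero _) v g w
  refine Submodule.subset_span ⟨Pi.single v g, ?_, e⟩
  change F.Ψ _ ∈ N.top
  rw [e]
  exact single_top ((F.hreg v _).2 (Submodule.subset_span ⟨g, hg, rfl⟩))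

theorem Md.aeval_span (hx : xx N ∈ N.B) (p : K[X]) :
    aeval (xx N) p ∈ Submodule.span K (F.Ψ.toAddMonoidHom '' F.pre N.B) := by
  rw [aeval_eq_sum_range]
  refine sum_mem fun i _ => Submodule.smul_mem _ _ ?_
  have e : F.Ψ ((fun v => (F.d v).x) ^ i) = xx N ^ i := by
    rw [map_pow]
    exact congrArg (· ^ i) (funext F.hx)
  refine Submodule.subset_span ⟨_, ?_, e⟩
  change F.Ψ _ ∈ N.B
  rw [e]
  exact pow_mem hx i

variable (hx : xx N ∈ N.B) (h2 : H2 N)
  (hm : ∀ P Q, Q ≠ P → N.Glued P Q → vl P (xx N) ∈ Set.range (algebraMap K₀ K))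
include hx hm

theorem Md.rat_or (P : N.Pl) : (∀ Q, N.Glued P Q → F.Rat Q) ∨
    (∀ Q, N.Glued P Q → Q = P) ∧ ¬ G P (xx N - algebraMap K _ (vl P (xx N))) 2 := by
  by_cases h : ∀ Q, N.Glued P Q → Q = P
  · by_cases h' : G P (xx N - algebraMap K _ (vl P (xx N))) 2
    · exact Or.inl fun Q hQ => h Q hQ ▸ F.rat_of_ram h'
    · exact Or.inr ⟨h, h'⟩
  · obtain ⟨R, hR⟩ := not_forall.1 h
    obtain ⟨h3, h4⟩ := Classical.not_imp.1 hR
    exact Or.inl fun Q hQ => F.rat_of_val (Gl.vl hQ hx ▸ hm P R h4 h3)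

include h2

theorem Md.span_rat {f : W N} (hf : f ∈ N.B) : ∃ (n : ℕ) (e : Fin n → K)
    (b : Fin n → ∀ v, (F.C v).L), (∀ l, F.Ψ (b l) ∈ N.B) ∧ f = ∑ l, e l • F.Ψ (b l) := by
  obtain ⟨T, M, hT, hc⟩ := exists_cd N
  choose n h3 h4 using fun P => str hx h2 P M
  choose p hp using fun P => h4 P f hf
  have := hT.fintype
  obtain ⟨m, e, b, h5, h6, h7⟩ := dec (algebraMap K₀ K) F.Ψ.toAddMonoidHom F.Ψ_smul (I := Option T)
    (fun i => i.elim (F.pre N.top) fun _ => F.pre N.B) (fun i => i.elim f fun P => aeval (xx N) (p P))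
    (by
      rintro (_ | P)
      exacts [F.top_span (B_top hf), F.aeval_span hx _])
  refine ⟨m, e, b none, fun l => hc.glob hT (h6 none l) fun P hP => ?_, h7 none⟩
  rcases F.rat_or hx hm P with h8 | ⟨h8, h9⟩
  · obtain ⟨b', h9, h10⟩ := h3 P (F.Ψ (b none l - b (some ⟨P, hP⟩) l)) fun Q hQ => by
      obtain ⟨Q₀, o⟩ := h8 Q hQ
      refine ((F.bc _).ge_iff o _ _).2 ((F.bc _).BC_ge_of_sum h5
        (b := fun l => (b none l - b (some ⟨P, hP⟩) l) Q.1.1) o ?_ l)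
      have h11 : f - aeval (xx N) (p P) = ∑ l, e l • F.Ψ (b none l - b (some ⟨P, hP⟩) l) := by
        simp only [map_sub, smul_sub, Finset.sum_sub_distrib]
        exact congrArg₂ _ (h7 none) (h7 (some ⟨P, hP⟩))
      have h12 := hp P Q hQ
      rw [h11, G, Finset.sum_apply] at h12
      exact h12
    refine ⟨b' + F.Ψ (b (some ⟨P, hP⟩) l), add_mem h9 (h6 (some ⟨P, hP⟩) l), fun Q _ hQ =>
      (h10 Q hQ).of_eq ?_⟩
    rw [map_sub]
    ring
  · obtain ⟨b', h10, h11⟩ := loc_all hx h9 (G_top (h6 none l)) M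
    exact ⟨b', h10, fun Q _ hQ => h8 Q hQ ▸ h11⟩

theorem Md.coef_mem (h : IsChart J A) (i₀ : ι) (σ : A →ₐ[K] K) {P : N.Pl}
    (hσ : ∀ f : N.B, σ (eqv N f) = vl P f) (hP : F.Rat P) (a : Idx ι ⊕ ι × ℕ) :
    Sum.elim (coef i₀ J A) (fun μ => σ ⟨_, h.chi_mem i₀ μ⟩) a ∈ Set.range (algebraMap K₀ K) := by
  obtain ⟨g, hg⟩ := (Algebra.linearMap K₀ K).exists_leftInverse_of_injective
    (LinearMap.ker_eq_bot.2 (algebraMap K₀ K).injective)
  have hg' : ∀ c, g (algebraMap K₀ K c) = c := fun c => LinearMap.congr_fun hg c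
  have key : ∀ y : A, ∃ y' : A, (∀ i n, (y'.1 i).cf n = algebraMap K₀ K (g ((y.1 i).cf n))) ∧
      σ y' = algebraMap K₀ K (g (σ y)) := fun y => by
    obtain ⟨⟨f, hf⟩, rfl⟩ := (eqv N).surjective y
    obtain ⟨m, e, b, h3, h4⟩ := F.span_rat hx h2 hm hf
    have h5 : eqv N ⟨f, hf⟩ = ∑ l, e l • eqv N ⟨_, h3 l⟩ := by
      simp only [← map_smul, ← map_sum]
      exact congrArg _ (Subtype.ext (by simpa using h4))
    rw [h5]
    refine ⟨∑ l, algebraMap K₀ K (g (e l)) • eqv N ⟨_, h3 l⟩, fun i n => lam g e _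
      { toFun := fun y : A => (y.1 i).cf n
        map_add' := fun _ _ => LS.cf_add _ _ _
        map_smul' := fun _ _ => LS.cf_smul _ _ _ } fun l => ?_, lam g e _ σ.toLinearMap fun l => ?_⟩
    · obtain ⟨⟨v, j⟩, rfl⟩ := N.e.surjective i
      refine ⟨((F.d v).exT (b l v) j).cf n, ?_⟩
      change _ = (N.exT (F.Ψ (b l)) _).cf n
      rw [N.exT_apply]
      exact (congrArg (fun z => (z j).cf n) (F.hex v (b l v))).symm
    · obtain ⟨P₀, o⟩ := hP
      exact ⟨_, (((F.bc _).val o ((o _).1 (G_B (h3 l)).mem)).symm).trans (hσ ⟨_, h3 l⟩).symm⟩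
  have key2 : ∀ μ, ∃ y' : A, y' = ⟨_, h.chi_mem i₀ μ⟩ ∧
      (∀ i n, (y'.1 i).cf n ∈ Set.range (algebraMap K₀ K)) ∧ σ y' ∈ Set.range (algebraMap K₀ K) := by
    intro μ
    by_cases hμ : μ ∈ J
    · exact ⟨0, Subtype.ext (Chart_chi_zero i₀ A hμ).symm, fun _ _ => ⟨0, map_zero _⟩,
        0, (map_zero _).trans (map_zero _).symm⟩
    obtain ⟨y', h3, h4⟩ := key ⟨_, h.chi_mem i₀ μ⟩
    refine ⟨y', Subtype.ext (h.chi_eq i₀ hμ y'.2 ?_ fun ν hν => ?_).symm,
      fun i n => ⟨_, (h3 i n).symm⟩, _, h4.symm⟩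
    · rw [h3, h.chi_cf, map_zero, map_zero]
    · rw [pc, h3, ← pc, h.pc_chi i₀ hμ hν]
      split_ifs
      · rw [← map_one (algebraMap K₀ K), hg']
      · rw [map_zero, map_zero]
  rcases a with ⟨μ, i, n⟩ | μ
  · obtain ⟨_, rfl, h3, -⟩ := key2 μ
    exact h3 i n
  · obtain ⟨_, rfl, -, h3⟩ := key2 μ
    exact h3

end PR0.Cls
end

-- merged part: Pool.Agent.Work.MP_da2620_ag.ClsD
section
/-!
# The dimension count and the case of a node
-/

namespace PR0.Cls

open Polynomial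

universe u

variable {K : Type u} [Field K] [IsAlgClosed K] {ι : Type} [Fintype ι] [DecidableEq ι]
  {J : Finset (ι × ℕ)}

theorem norm1 {L : Type u} [Field L] [Algebra K L] [Fact (IsFF K L)] [Nonempty ι] (d : CD K L ι)
    {q : Place K L} (hq : d.x ∈ q.1) {f : L} (hf : f ∈ d.reg) (h0 : q.val f = 0) {p : K[X]}
    (hp : aeval (LS.T K (-1)) p = ∏ i, d.ex i f) : p.eval (q.val d.x) = 0 := by
  obtain ⟨J, h⟩ := d.exists_chart
  obtain ⟨Φ, -, h1⟩ := h.exists_charpoly (y := d.exT f) ⟨f, hf, rfl⟩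
  obtain ⟨i₀⟩ := ‹Nonempty ι›
  obtain ⟨σ, hσ⟩ := q.exists_ev d.reg fun g hg => hg q (by rw [← d.poles_eq]; exact fun h => h hq)
  have h2 : Φ.coeff 0 = (-1) ^ Fintype.card ι * p := by
    refine (transcendental_iff_injective.1 d.transcendental) ((d.ex i₀).injective ?_)
    change d.ex i₀ _ = d.ex i₀ _
    rw [← aeval_algHom_apply, ← aeval_algHom_apply, d.ex_x, map_mul, hp]
    have h3 := congrArg (eval 0) h1
    rw [← coeff_zero_eq_eval_zero, coeff_map, eval_prod] at h3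
    simp only [eval_sub, eval_X, eval_C, zero_sub, Finset.prod_neg, Finset.card_univ] at h3
    rw [map_pow, map_neg, map_one]
    exact h3
  let θ : d.reg →ₐ[K] LS K := (d.ex i₀).comp d.reg.val
  have h3 : eval₂ (aeval (⟨d.x, d.x_mem⟩ : d.reg) : K[X] →ₐ[K] d.reg).toRingHom ⟨f, hf⟩ Φ = 0 := by
    have h5 : Function.Injective θ.toRingHom := (d.ex i₀).injective.comp Subtype.val_injective
    refine h5 ?_
    rw [hom_eval₂, map_zero, eval₂_eq_eval_map]
    have h4 : θ.toRingHom.comp (aeval (⟨d.x, d.x_mem⟩ : d.reg) : K[X] →ₐ[K] d.reg).toRingHom =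
        (aeval (LS.T K (-1)) : K[X] →ₐ[K] LS K).toRingHom := RingHom.ext fun c =>
      (aeval_algHom_apply θ _ c).symm.trans (congrArg (fun z => aeval z c) (d.ex_x i₀))
    rw [h4, h1, eval_prod]
    exact Finset.prod_eq_zero (Finset.mem_univ i₀) (by rw [eval_sub, eval_X, eval_C]; exact sub_self _)
  have h4 := congrArg σ.toRingHom h3
  have h5 : σ.toRingHom ⟨f, hf⟩ = 0 := (hσ _).trans h0
  rw [hom_eval₂, map_zero, h5, eval₂_at_zero, h2] at h4
  have h6 := (aeval_algHom_apply σ _ _).trans h4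
  rw [hσ, coe_aeval_eq_eval, eval_mul] at h6
  exact (mul_eq_zero.1 h6).resolve_left (by simp)

variable {A : Subalgebra K (LT ι K)} {N : Nrm A}

theorem norm2 {Q : N.Pl} {f : W N} (hf : f ∈ N.top) (h0 : vl Q f = 0) {p : K[X]}
    (hp : aeval (LS.T K (-1)) p = ∏ i with (N.e.symm i).1 = Q.1.1, N.exT f i) :
    p.eval (vl Q (xx N)) = 0 := by
  refine norm1 (N.d _) Q.2 (hf _ trivial) h0 (hp.trans (Finset.prod_bij
    (fun j _ => N.e ⟨Q.1.1, j⟩) (fun j _ => by simp) (fun j _ j' _ e => ?_) (fun i hi => ?_)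
    fun j _ => (N.exT_apply f _ j).symm).symm)
  · exact sigma_mk_injective (N.e.injective e)
  · obtain ⟨⟨v, j⟩, rfl⟩ := N.e.surjective i
    obtain rfl : v = Q.1.1 := by simpa using hi
    exact ⟨j, Finset.mem_univ _, rfl⟩

/-- Nonsingular points. -/
def NS (P : N.Pl) : Prop := ∃ u ∈ N.B, ∃ s ∈ N.B, vl P u = 0 ∧ vl P s ≠ 0 ∧
  ∀ f ∈ N.B, vl P f = 0 → ∃ g ∈ N.B, s * f = u * g

theorem NS.ex {P : N.Pl} (h : NS P) {σ : A →ₐ[K] K} (hσ : ∀ f : N.B, σ (eqv N f) = vl P f) :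
    ∃ u s : A, σ u = 0 ∧ σ s ≠ 0 ∧ ∀ f, σ f = 0 → u ∣ s * f := by
  obtain ⟨u, h1, s, h2, h3, h4, h5⟩ := h
  refine ⟨eqv N ⟨u, h1⟩, eqv N ⟨s, h2⟩, (hσ _).trans h3, (hσ _).trans_ne h4, fun f hf => ?_⟩
  obtain ⟨f, rfl⟩ := (eqv N).surjective f
  obtain ⟨g, h6, h7⟩ := h5 f f.2 ((hσ f).symm.trans hf)
  refine ⟨eqv N ⟨g, h6⟩, ?_⟩
  rw [← map_mul, ← map_mul]
  exact congrArg _ (Subtype.ext h7)

theorem case2 (h : IsChart J A) (hV : Fintype.card N.V = 2) (hδ : N.δ ≤ 1) {P₁ Q₁ : N.Pl}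
    (hne : Q₁ ≠ P₁) (hg : N.Glued P₁ Q₁) (σ : A →ₐ[K] K) {P : N.Pl}
    (hσ : ∀ f : N.B, σ (eqv N f) = vl P f) (hs : ¬ NS P) :
    ∃ S : Finset ι, (fun i => if i ∈ S then LS.T K (-1) - algebraMap K _ (σ ⟨_, h.x_mem⟩) else 0) ∈ A ∧
      ∀ w : A, σ w = 0 → ∀ P : K[X],
        (aeval (LS.T K (-1)) P = ∏ i ∈ S, w.1 i ∨ aeval (LS.T K (-1)) P = ∏ i ∈ Sᶜ, w.1 i) →
        P.eval (σ ⟨_, h.x_mem⟩) = 0 := by
  have hx : xx N ∈ N.B := N.x_mem h
  have h1 : ∀ f ∈ N.top, vl P₁ f = vl Q₁ f → f ∈ N.B := fun f hf e => by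
    obtain ⟨f₀, h1, h2, h3⟩ := approx_one (Set.finite_singleton Q₁) P₁ G_one 1
    refine codim_one hδ
      { carrier := {f | f ∈ N.top ∧ vl P₁ f = vl Q₁ f}
        add_mem' := fun ha hb => ⟨add_mem ha.1 hb.1, by
          rw [vl_add (G_top ha.1) (G_top hb.1), vl_add (G_top ha.1) (G_top hb.1), ha.2, hb.2]⟩
        zero_mem' := ⟨zero_mem _, vl_zero.trans vl_zero.symm⟩
        smul_mem' := fun c _ ha => ⟨N.top.smul_mem ha.1 c, by
          rw [vl_smul c (G_top ha.1), vl_smul c (G_top ha.1), ha.2]⟩ }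
      (fun f hf => ⟨B_top hf, hg f hf⟩) h1 (fun h4 => ?_) hf ⟨hf, e⟩
    have h5 := h4.2
    rw [(vl_eq_zero (G_top h1)).2 (h3 Q₁ rfl hne), vl_eq (a := 1) (by rw [map_one]; exact h2)] at h5
    exact one_ne_zero h5
  have h2 : N.Glued P₁ P := by
    by_contra h2
    refine hs (nonsing (T := {P₁, Q₁}) (Set.toFinite _) (M := 1) fun f hf h3 => h1 f hf ?_)
    rw [(vl_eq_zero (G_top hf)).2 (h3 P₁ (by simp) fun e => h2 (e ▸ Gl.refl _)),
      (vl_eq_zero (G_top hf)).2 (h3 Q₁ (by simp) fun e => h2 (e ▸ hg))]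
  have h3 : ∀ f : N.B, σ (eqv N f) = vl P₁ f := fun f => (hσ f).trans (Gl.vl h2 f.2)
  have h4 : σ ⟨_, h.x_mem⟩ = vl P₁ (xx N) :=
    (congrArg σ (Subtype.ext exT_xx.symm)).trans (h3 ⟨_, hx⟩)
  have h5 : ∀ f ∈ N.B, N.exT f ∈ A := fun f hf => (eqv N ⟨f, hf⟩).2
  have h6 : Q₁.1.1 ≠ P₁.1.1 := fun e => by
    obtain ⟨w, hw⟩ := Fintype.exists_ne_of_one_lt_card (by omega) P₁.1.1
    have h7 : (Pi.single w 1 : W N) ∈ N.B := h1 _ (single_top (one_mem _)) (by
      rw [vl_of_eq (Pi.single_eq_of_ne hw.symm _), vl_of_eq (Pi.single_eq_of_ne (e ▸ hw.symm) _)])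
    have h8 : ∀ v j, N.exT (Pi.single w 1) (N.e ⟨v, j⟩) = if v = w then 1 else 0 := fun v j => by
      rw [N.exT_apply]
      split_ifs with h9
      · subst h9
        rw [Pi.single_eq_same, map_one]
      · rw [Pi.single_eq_of_ne h9, map_zero]
    obtain ⟨c, hc⟩ := h.inj _ (h5 _ h7) fun μ _ => by
      obtain ⟨⟨v, j⟩, e⟩ := N.e.surjective μ.1
      rw [pc, ← e, h8]
      split_ifs
      · rw [← LS.T_zero, LS.cf_T, if_neg (by omega)]
      · rfl
    have h9 := h8 w (Classical.arbitrary _)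
    have h10 := h8 P₁.1.1 (Classical.arbitrary _)
    rw [if_pos rfl, hc] at h9
    rw [if_neg hw.symm, hc] at h10
    exact one_ne_zero (h9.symm.trans h10)
  have h7 : ∀ v, v ≠ P₁.1.1 ↔ v = Q₁.1.1 := fun v => ⟨fun hv => by
    by_contra hv'
    have := Fintype.two_lt_card_iff.2 ⟨_, _, _, hv, hv', h6.symm⟩
    omega, fun e => e ▸ h6⟩
  refine ⟨Finset.univ.filter fun i => (N.e.symm i).1 = P₁.1.1, ?_, fun w hw p hp => ?_⟩
  · convert h5 (Pi.single P₁.1.1 (yy N (vl P₁ (xx N)) P₁.1.1)) (h1 _ (single_top (yy_top _ _ trivial))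
      ?_) using 1
    · funext i
      obtain ⟨⟨v, j⟩, rfl⟩ := N.e.surjective i
      rw [N.exT_apply, h4]
      simp only [Finset.mem_filter, Finset.mem_univ, true_and, Equiv.symm_apply_apply]
      split_ifs with h8
      · subst h8
        rw [Pi.single_eq_same, ← (N.d _).ex_x j, ← ((N.d _).ex j).commutes, ← map_sub]
        rfl
      · rw [Pi.single_eq_of_ne h8, map_zero]
    · rw [vl_of_eq (Pi.single_eq_of_ne h6 _), vl, Pi.single_eq_same]
      exact (vl_eq_zero (G_top (yy_top _))).2 ((G_yy rfl).mono (ee_pos _))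
  · obtain ⟨f, rfl⟩ := (eqv N).surjective w
    rw [h3] at hw
    rw [h4]
    rcases hp with hp | hp
    · exact norm2 (B_top f.2) hw hp
    · rw [← Gl.vl hg hx]
      refine norm2 (B_top f.2) ((Gl.vl hg f.2).trans hw) (hp.trans ?_)
      refine Finset.prod_congr (Finset.ext fun i => ?_) fun _ _ => rfl
      simpa using h7 _

theorem reps (N : Nrm A) : ∃ (m : ℕ) (P Q : Fin m → N.Pl), (∀ i j, N.Glued (P i) (P j) → i = j) ∧
    (∀ i, Q i ≠ P i ∧ N.Glued (P i) (Q i)) ∧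
    ∀ R R', R' ≠ R → N.Glued R R' → ∃ i, N.Glued (P i) R := by
  obtain ⟨T, M, hT, hc⟩ := exists_cd N
  let s : Setoid N.Pl := ⟨N.Glued, Gl.refl, Gl.symm, Gl.trans⟩
  have h1 : {z : Quotient s | ∃ R R', R' ≠ R ∧ N.Glued R R' ∧ Quotient.mk s R = z}.Finite :=
    (hT.image (Quotient.mk s)).subset fun z ⟨R, R', h1, h2, h3⟩ => ⟨R, hc.multi hT h1 h2, h3⟩
  obtain ⟨m, f, hf⟩ := h1.fin_embedding
  choose P Q h2 h3 h4 using fun i => (hf ▸ Set.mem_range_self i :
    f i ∈ {z : Quotient s | ∃ R R', R' ≠ R ∧ N.Glued R R' ∧ Quotient.mk s R = z})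
  refine ⟨m, P, Q, fun i j h => f.injective ?_, fun i => ⟨h2 i, h3 i⟩, fun R R' h5 h6 => ?_⟩
  · rw [← h4, ← h4]
    exact Quotient.sound h
  · obtain ⟨i, hi⟩ : Quotient.mk s R ∈ Set.range f := hf ▸ ⟨R, R', h5, h6, rfl⟩
    exact ⟨i, Quotient.exact ((h4 i).trans hi)⟩

variable {k : Type u} [Field k] [IsAlgClosed k] [Algebra k K]

theorem dm_le_rk (h : IsChart J A) (i₀ : ι) (h2 : H2 N) (σ : A →ₐ[K] K) {P : N.Pl}
    (hσ : ∀ f : N.B, σ (eqv N f) = vl P f) (hs : ¬ NS P) {Jv : ∀ v, Finset (N.ιv v × ℕ)}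
    (hv : ∀ v, IsChart (Jv v) (N.d v).alg) (iv : ∀ v, N.ιv v) (t : Set K)
    (h1 : ∀ v a, coef (iv v) (Jv v) (N.d v).alg a ∈ acl k t)
    (hm : ∀ P Q, Q ≠ P → N.Glued P Q → vl P (xx N) ∈ acl k t) :
    dm k (Sum.elim (coef i₀ J A) fun μ => σ ⟨_, h.chi_mem i₀ μ⟩) ≤ rk k t := by
  have hx : xx N ∈ N.B := N.x_mem h
  choose C d ψ h3 h4 _ _ _ h5 h6 using fun v =>
    fod_of_coef (N.d v) (hv v) (iv v) (acl k t).val fun a => ⟨⟨_, h1 v a⟩, rfl⟩
  let F : Md N (acl k t) := ⟨C, d, ψ, h3, h4, h5, h6⟩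
  have hm' : ∀ P Q, Q ≠ P → N.Glued P Q → vl P (xx N) ∈ Set.range (algebraMap (acl k t) K) :=
    fun P Q h7 h8 => ⟨⟨_, hm P Q h7 h8⟩, rfl⟩
  have h7 : F.Rat P := (F.rat_or hx hm' P).elim (fun h => h P (Gl.refl P))
    fun h => absurd (nonsing_of_unif h.1 hx h.2) hs
  refine rk_le_of_acl ?_
  rintro _ ⟨a, rfl⟩
  obtain ⟨c, hc⟩ := F.coef_mem hx h2 hm' h i₀ σ hσ h7 a
  exact hc ▸ c.2

omit [IsAlgClosed K] [IsAlgClosed k] in
theorem rk_iUnion {α : Type*} (s : Finset α) (t : α → Set K) :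
    rk k (⋃ a ∈ s, t a) ≤ ∑ a ∈ s, rk k (t a) := by
  classical
  induction s using Finset.induction_on with
  | empty => simpa using rk_le_encard (k := k) (∅ : Set K)
  | insert a s ha ih =>
    rw [Finset.set_biUnion_insert, Finset.sum_insert ha]
    exact (rk_union_le _ _).trans (add_le_add le_rfl ih)

theorem count (p : ℕ) [Fact p.Prime] [CharP k p] [CharP K p] (h : IsChart J A) (i₀ : ι)
    (hn : ∀ F : LT ι K, ∃ n : ℕ, ∃ a ∈ A, Pole (F ^ p ^ n - a) 0) (h2 : H2 N) (σ : A →ₐ[K] K)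
    {P : N.Pl} (hσ : ∀ f : N.B, σ (eqv N f) = vl P f) (hs : ¬ NS P)
    (hd : ((2 * Fintype.card ι + J.card : ℕ) : ℕ∞) ≤
      dm k (Sum.elim (coef i₀ J A) fun μ => σ ⟨_, h.chi_mem i₀ μ⟩) + 3)
    {m : ℕ} (R : Fin m → N.Pl) (hR : ∀ Q Q', Q' ≠ Q → N.Glued Q Q' → ∃ i, N.Glued (R i) Q) :
    Fintype.card N.V + N.δ ≤ m + 2 := by
  have : Nonempty ι := ⟨i₀⟩
  choose Jv hv using fun v => (N.d v).exists_chart
  let iv : ∀ v, N.ιv v := fun v => Classical.arbitrary _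
  have h3 := dm_le_rk (k := k) h i₀ h2 σ hσ hs hv iv ((⋃ v ∈ (Finset.univ : Finset N.V),
    Set.range (coef (iv v) (Jv v) (N.d v).alg)) ∪ Set.range fun i => vl (R i) (xx N))
    (fun v a => subset_acl _ (Or.inl (Set.mem_biUnion (Finset.mem_univ v) ⟨a, rfl⟩)))
    fun Q Q' h3 h4 => (hR Q Q' h3 h4).elim fun i hi =>
      subset_acl _ (Or.inr ⟨i, (Gl.vl hi (N.x_mem h)).symm⟩)
  have h4 := fun v => dm_le (k := k) p (N.C v) (N.hw0 p hn v) (N.d v) (hv v) (iv v)
  choose r hr using fun v => ENat.ne_top_iff_exists.1 (ne_top_of_le_ne_top (ENat.natCast_ne_top _)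
    (le_self_add.trans (h4 v)))
  have h5 : rk k (Set.range fun i => vl (R i) (xx N)) ≤ m := (rk_le_encard _).trans (by
    rw [← Set.image_univ]
    exact (Set.encard_image_le _ _).trans (by simp))
  have h6 := hd.trans (add_le_add (h3.trans ((rk_union_le _ _).trans
    (add_le_add (rk_iUnion _ _) h5))) le_rfl)
  have h7 : ∀ v, r v + 2 ≤ 2 * Fintype.card (N.ιv v) + genus K (N.C v).L := fun v => by
    have := h4 v
    rw [← hr, (N.d v).card_eq (hv v)] at this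
    exact_mod_cast this
  have h8 := Finset.sum_le_sum (s := Finset.univ) fun v _ => h7 v
  simp only [Finset.sum_add_distrib, ← Finset.mul_sum, N.sum_card, Finset.sum_const,
    Finset.card_univ, smul_eq_mul] at h8
  have h9 : 2 * Fintype.card ι + J.card ≤ ∑ v, r v + m + 3 := by
    simp only [dm] at hr
    simp only [← hr] at h6
    exact_mod_cast h6
  have := N.genus_eq h
  omega

end PR0.Cls
end

-- merged part: Pool.Agent.Work.MP_da2620_ag.Cls
section
/-!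
# Singular curves of local degree at most two and of large dimension

Take a normalisation `N`.  By `LD2`, for each point `z` of `B` over `x = a` the places glued to it have
`∑ ord (x - a) ≤ 2` (the `z`-primary part of `top / (x - a)` and of `B / (x - a)` have the same dimension,
both being the local rank).  Locally `B_z = O_a ⊕ O_a y`, `top_z = O_a ⊕ O_a t` (`O_a` the local ring of
the line), so `B_z = O_a + (x - a) ^ n top_z` with `n = n_z` the local colength: `f ∈ top` lies in `B` iff for all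
singular `z` there is `h ∈ K[x]` with `ord_P (f - h(x)) ≥ n_z ord_P (x - a)` for the places `P` over `z`, and
`δ = ∑ n_z`.  (Avoid localisation: work in the finite algebra `top / (s (x - a) ^ M)` or with
`top / ∏ 𝔪_P ^ M`.)  Let `K₀` be the algebraic closure of the field generated by the coordinates of the
charts of the components and by the `a_z` for the points with two places.  The components and all singular
places are defined over `K₀` (`fod_of_coef`, `over_of_val`, `unram_of_generic`), the subalgebra `B₀` over `K₀`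
given by the same conditions has `B` as base change (`BC.ge_iff`, independence, same colength), so the
coordinates of `A` and the values `σ (χ μ)` lie in `K₀`.  With `dm_le`, `card_glue`, `genus_eq`:
`2d + g - 3 ≤ ∑ (2 d_v + g_v - 2) + #two = 2d + g - 1 - s - (δ - #two)`, `#two ≤ s - 1`.
-/

namespace PR0

open Polynomial

universe u

variable {K : Type u} [Field K] {ι : Type}

/-- Local degree at most two over the `x`-line. -/
def LD2 (A : Subalgebra K (LT ι K)) (hx : xx ι K ∈ A) : Prop := ∀ (σ : A →ₐ[K] K) (n : ℕ),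
  Module.finrank K (A ⧸ (Ideal.span {⟨xx ι K, hx⟩ - algebraMap K A (σ ⟨xx ι K, hx⟩)} ⊔
    RingHom.ker σ ^ n)) ≤ 2

/-- A singular point. -/
def Sing {A : Type u} [CommRing A] [Algebra K A] (σ : A →ₐ[K] K) : Prop :=
  ¬ ∃ u s : A, σ u = 0 ∧ σ s ≠ 0 ∧ ∀ f, σ f = 0 → u ∣ s * f

/-- Functions with vanishing derivative at `q`. -/
def cusp {L : Type u} [Field L] [Algebra K L] [IsAlgClosed K] [Fact (IsFF K L)] (q : Place K L) :
    Subalgebra K L where
  carrier := {f | f ∈ q.1 ∧ q.Ge (f - algebraMap K L (q.val f)) 2}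
  mul_mem' {f g} hf hg := ⟨mul_mem hf.1 hg.1, by
    rw [Place.val_mul hf.1 hg.1, map_mul, show f * g - algebraMap K L (q.val f) *
      algebraMap K L (q.val g) = (f - algebraMap K L (q.val f)) * g +
        algebraMap K L (q.val f) * (g - algebraMap K L (q.val g)) by ring]
    exact ((hf.2.mul (q.mem_iff.1 hg.1)).mono (by omega)).add
      (((q.mem_iff.1 (q.2.2 _)).mul hg.2).mono (by omega))⟩
  add_mem' {f g} hf hg := ⟨add_mem hf.1 hg.1, by
    rw [Place.val_add hf.1 hg.1, map_add, add_sub_add_comm]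
    exact hf.2.add hg.2⟩
  algebraMap_mem' c := ⟨q.2.2 c, Or.inl (by rw [Place.val_const, sub_self])⟩

/-- The chart point of the curve with a cusp at `q`. -/
noncomputable def CD.cuspAlg {L : Type u} [Field L] [Algebra K L] [IsAlgClosed K] [Fact (IsFF K L)]
    (d : CD K L ι) (q : Place K L) : Subalgebra K (LT ι K) := (d.reg ⊓ cusp q).map d.exT

variable {k : Type u} [Field k] [IsAlgClosed k] [Algebra k K] [IsAlgClosed K] [Fintype ι]
  [DecidableEq ι] {J : Finset (ι × ℕ)}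

theorem classify (p : ℕ) [Fact p.Prime] [CharP k p] {A : Subalgebra K (LT ι K)} (h : IsChart J A)
    (i₀ : ι) (hn : ∀ F : LT ι K, ∃ n : ℕ, ∃ a ∈ A, Pole (F ^ p ^ n - a) 0) (h2 : LD2 A h.x_mem)
    (σ : A →ₐ[K] K) (hσ : Sing σ) (hd : ((2 * Fintype.card ι + J.card : ℕ) : ℕ∞) ≤
      dm k (Sum.elim (coef i₀ J A) fun μ => σ ⟨_, h.chi_mem i₀ μ⟩) + 3) :
    (∃ (C : FFd K) (d : CD K C.L ι) (q : Place K C.L) (J' : Finset (ι × ℕ)), d.x ∈ cusp q ∧
      ¬ q.Ge (d.x - algebraMap K _ (q.val d.x)) 3 ∧ A = d.cuspAlg q ∧ genus K C.L + 1 = J.card ∧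
      HW0 K C.L p ∧ IsChart J' d.alg ∧
      ((2 * Fintype.card ι + J'.card : ℕ) : ℕ∞) ≤ dm k (coef i₀ J' d.alg) + 2) ∨
    ∃ S : Finset ι, (fun i => if i ∈ S then LS.T K (-1) - algebraMap K _ (σ ⟨_, h.x_mem⟩) else 0) ∈ A ∧
      ∀ w : A, σ w = 0 → ∀ P : K[X],
        (aeval (LS.T K (-1)) P = ∏ i ∈ S, w.1 i ∨ aeval (LS.T K (-1)) P = ∏ i ∈ Sᶜ, w.1 i) →
        P.eval (σ ⟨_, h.x_mem⟩) = 0 := by
  have : CharP K p := charP_of_injective_algebraMap (algebraMap k K).injective p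
  have : Nonempty ι := ⟨i₀⟩
  obtain ⟨N⟩ := exists_nrm h
  have hx : Cls.xx N ∈ N.B := N.x_mem h
  have h3 : Cls.H2 N := Cls.h2_of h i₀ h2
  obtain ⟨P, hP⟩ := N.exists_pl h (σ.comp (Cls.eqv N).toAlgHom)
  have hP' : ∀ f : N.B, σ (Cls.eqv N f) = Cls.vl P f := hP
  have hs : ¬ Cls.NS P := fun h => hσ (h.ex hP')
  obtain ⟨m, R, R', h4, h5, h6⟩ := Cls.reps N
  have h7 := Cls.count p h i₀ hn h3 σ hP' hs hd R h6
  have h8 := Cls.le_delta R R' h4 h5
  have h9 := N.card_glue p hn R (fun i => {R' i}) h4 fun i Q hQ =>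
    Finset.mem_singleton.1 hQ ▸ h5 i
  simp only [Finset.card_singleton, Finset.sum_const, Finset.card_univ, Fintype.card_fin,
    smul_eq_mul, mul_one] at h9
  have h10 : N.δ ≠ 0 := fun e => hs (Cls.nonsing Set.finite_empty (M := 0) fun f hf _ =>
    Cls.top_le e hf)
  have h11 : 0 < Fintype.card N.V := Fintype.card_pos_iff.2 ⟨P.1.1⟩
  by_cases hm : m = 0
  swap
  · have h12 : 0 < m := Nat.pos_of_ne_zero hm
    exact Or.inr (Cls.case2 h (by omega) (by omega) (h5 ⟨0, h12⟩).1 (h5 ⟨0, h12⟩).2 σ hP' hs)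
  subst hm
  left
  have h12 : ∀ Q Q', N.Glued Q Q' → Q' = Q := fun Q Q' e => by
    by_contra h12
    exact (h6 Q Q' h12 e).elim fun i => i.elim0
  have hV : Fintype.card N.V = 1 := by omega
  have hδ : N.δ = 1 := by omega
  have : Subsingleton N.V := Fintype.card_le_one_iff_subsingleton.1 hV.le
  let e : N.ιv P.1.1 ≃ ι := Equiv.ofBijective (fun j => N.e ⟨P.1.1, j⟩)
    ⟨fun j j' e => sigma_mk_injective (N.e.injective e), fun i => by
      obtain ⟨⟨v, j⟩, rfl⟩ := N.e.surjective i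
      obtain rfl : v = P.1.1 := Subsingleton.elim _ _
      exact ⟨j, rfl⟩⟩
  let d : CD K (N.C P.1.1).L ι := (N.d P.1.1).comp e.symm
  have h13 : d.reg = (N.d P.1.1).reg := congrArg regOut (e.symm.surjective.range_comp _)
  have h14 : ∀ f, N.exT f = d.exT (f P.1.1) := fun f => funext fun i =>
    (congrArg (N.exT f) (e.apply_symm_apply i).symm).trans (N.exT_apply f _ _)
  have h15 : ∀ f ∈ N.B, f P.1.1 ∈ cusp P.1.2 := fun f hf => ⟨(Cls.G_B hf).mem, by
    by_contra h15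
    exact hs (Cls.nonsing_of_unif (h12 P) hf h15)⟩
  obtain ⟨J', hJ⟩ := d.exists_chart
  have h16 := N.genus_eq h
  rw [Fintype.sum_subsingleton _ P.1.1] at h16
  refine ⟨N.C P.1.1, d, P.1.2, J', h15 _ hx, fun h17 => ?_, ?_, by omega, N.hw0 p hn _, hJ, ?_⟩
  · have h18 := Cls.ee_le hx h3 P
    have h19 : 3 ≤ Cls.ee P := h17.resolve_left (Cls.yy_ne _ _)
    omega
  · refine Subalgebra.ext fun F => ⟨fun hF => ?_, ?_⟩
    · obtain ⟨f, hf, rfl⟩ : F ∈ N.B.map N.exT := N.map_eq.symm ▸ hF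
      exact ⟨f P.1.1, ⟨h13 ▸ N.le f hf _, h15 f hf⟩, (h14 f).symm⟩
    · rintro ⟨g, ⟨h17, h18⟩, rfl⟩
      obtain ⟨u, h19, h20, h21, -⟩ := Cls.exists_unif Set.finite_empty P 0
      have h22 := Cls.codim_one hδ.le ((cusp P.1.2).toSubmodule.comap (LinearMap.proj P.1.1)) h15 h19
        (fun h22 => h21 (by
          have h23 : Cls.G P (u - algebraMap K _ (Cls.vl P u)) 2 := h22.2
          rwa [(Cls.vl_eq_zero (Cls.G_top h19)).2 h20, map_zero, sub_zero] at h23))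
        (Cls.single_top (h13 ▸ h17)) (by
          change (Pi.single P.1.1 g : Cls.W N) P.1.1 ∈ cusp P.1.2
          rw [Pi.single_eq_same]
          exact h18)
      have h23 : N.exT (Pi.single P.1.1 g) ∈ A := (Cls.eqv N ⟨_, h22⟩).2
      rwa [h14, Pi.single_eq_same] at h23
  · choose Jv hv using fun v => (N.d v).exists_chart
    obtain ⟨C₀, d₀, ψ, h17, h18, -⟩ := fod_of_coef d hJ i₀ (acl k (Set.range (coef i₀ J' d.alg))).val
      fun a => ⟨⟨_, subset_acl _ ⟨a, rfl⟩⟩, rfl⟩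
    have h19 := Cls.dm_le_rk (k := k) h i₀ h3 σ hP' hs hv (fun v => Classical.arbitrary _)
      (Set.range (coef i₀ J' d.alg)) (fun v a => by
        obtain rfl : v = P.1.1 := Subsingleton.elim _ _
        obtain ⟨c, hc⟩ := coef_of_bc h17 (N.d _) (hv _) (Classical.arbitrary _) ⟨_, h18⟩ a
        exact hc ▸ c.2) fun Q Q' h19 h20 => absurd (h12 Q Q' h20) h19
    have h20 := hd.trans (add_le_add h19 le_rfl)
    rw [show 2 * Fintype.card ι + J.card = 2 * Fintype.card ι + J'.card + 1 by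
      rw [d.card_eq hJ]; omega, Nat.cast_succ, show (3 : ℕ∞) = 2 + 1 from rfl, ← add_assoc] at h20
    exact (WithTop.add_le_add_iff_right ENat.one_ne_top).1 h20

end PR0
end

-- merged part: Pool.Agent.Work.MP_da2620_ag.TailAA
section
/-!
# The special fibre of a cuspidal model, and two pieces of commutative algebra
-/

namespace PR0

open Polynomial

universe u

section Fib
variable {K L : Type u} [Field K] [Field L] [Algebra K L] [IsAlgClosed K] [Fact (IsFF K L)]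

theorem TailA_lead {P : Place K L} {z w : L} {n : ℤ} (hz : P.Ge z n) (hw : w ≠ 0)
    (h : P.ord w = n) : ∃ c : K, P.Ge (z - algebraMap K L c * w) (n + 1) := by
  have h1 := Place.ge_sub_val (P.mem_iff.2 (by simpa [h] using rr_ge_div hw hz))
  have := h1.mul (Or.inr h.ge : P.Ge w n)
  rw [sub_mul, inv_mul_cancel_right₀ hw, add_comm] at this
  exact ⟨_, this⟩

theorem TailA_exp {P : Place K L} {y f : L} {c : K} (h0 : y - algebraMap K L c ≠ 0)
    (h : P.ord (y - algebraMap K L c) = 1) (hf : f ∈ P.1) (n : ℕ) :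
    ∃ g : K[X], P.Ge (f - aeval y g) n := by
  induction n with
  | zero => exact ⟨0, by simpa using P.mem_iff.1 hf⟩
  | succ n ih =>
    obtain ⟨g, hg⟩ := ih
    obtain ⟨b, hb⟩ := TailA_lead hg (pow_ne_zero n h0) (by rw [P.ord_pow h0, h, mul_one])
    exact ⟨g + C b * (X - C c) ^ n, by simpa [sub_add_eq_sub_sub] using hb⟩

theorem TailA_approx {S T : Set (Place K L)} {P₀ : Place K L} (h₀ : P₀ ∈ S) (hT : T.Finite)
    (a : Place K L → L) (ha : ∀ P ∈ T, a P ∈ P.1) (hS : ∀ P ∈ T, P ∉ S) (n : ℕ) :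
    ∃ f ∈ regOut S, ∀ P ∈ T, P.Ge (f - a P) n := by
  classical
  obtain ⟨f, hf⟩ := h1z_of_deg (D := Finsupp.single P₀ (2 * genus K L + hT.toFinset.card * n : ℤ) -
    ∑ P ∈ hT.toFinset, Finsupp.single P (n : ℤ)) (by rw [dg_sub, dg_sum, dg_single]; simp [dg_single])
    (T.indicator a) (Set.finite_empty.subset fun P hP => hP (by
      by_cases h : P ∈ T
      · rw [Set.indicator_of_mem h]; exact ha P h
      · rw [Set.indicator_of_notMem h]; exact zero_mem _))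
  have h1 : ∀ P ∉ S, P.Ge (f - T.indicator a P) (if P ∈ T then n else 0) := fun P hP => by
    have : P₀ ≠ P := fun e => hP (e ▸ h₀)
    simpa [Finsupp.finsetSum_apply, Finsupp.single_apply, this] using hf P
  have h2 : ∀ P ∈ T, P.Ge (f - a P) n := fun P hP => by simpa [hP] using h1 P (hS P hP)
  refine ⟨f, fun P hP => ?_, h2⟩
  by_cases h : P ∈ T
  · simpa using add_mem (P.mem_iff.2 ((h2 P h).mono (by omega))) (ha P h)
  · exact P.mem_iff.2 (by simpa [h] using h1 P hP)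

omit [IsAlgClosed K] [Fact (IsFF K L)] in
theorem TailA_aeval {A : Subalgebra K L} {y : L} (hy : y ∈ A) (g : K[X]) : aeval y g ∈ A :=
  Algebra.adjoin_le (Set.singleton_subset_iff.2 hy) (aeval_mem_adjoin_singleton K y)

theorem TailA_cusp {q : Place K L} {g : L} {b : K} (h : q.Ge (g - algebraMap K L b) 2) :
    g ∈ cusp q := ⟨by simpa using add_mem (q.mem_iff.2 (h.mono (by omega))) (q.2.2 b),
  by rwa [Place.val_eq (h.mono (by omega))]⟩

omit [IsAlgClosed K] [Fact (IsFF K L)] in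
theorem TailA_ord {q : Place K L} {u : L} (h2 : q.Ge u 2) (h3 : ¬ q.Ge u 3) :
    u ≠ 0 ∧ q.ord u = 2 := by
  simp only [Place.Ge, not_or] at h2 h3
  exact ⟨h3.1, by have := h2.resolve_left h3.1; omega⟩

theorem TailA_y {S : Set (Place K L)} {P₀ q : Place K L} (h₀ : P₀ ∈ S) {u : L} (hu : u ≠ 0)
    (hq : q.ord u = 2) (hS : ∀ P ∈ S, u ∉ P.1) : ∃ y ∈ regOut S ⊓ cusp q, y ≠ 0 ∧ q.ord y = 3 ∧
      (∀ Q : Place K L, Q ≠ q → Q.Ge u 1 → Q.val y ≠ 0) ∧
      (∀ f ∈ regOut S ⊓ cusp q, ∃ h : K[X], ∃ g ∈ regOut S ⊓ cusp q, f - aeval y h = u * g) ∧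
      ∃ h : K[X], h.coeff 2 ≠ 0 ∧ ∃ g ∈ regOut S ⊓ cusp q, 0 - aeval y h = u * g := by
  classical
  have hT : {Q : Place K L | Q.Ge u 1}.Finite := (finite_ord hu).subset fun Q hQ => by
    have := hQ.resolve_left hu
    change _ ≠ _
    omega
  have hTS : ∀ Q : Place K L, Q.Ge u 1 → Q ∉ S := fun Q hQ h =>
    hS Q h (Q.mem_iff.2 (hQ.mono (by omega)))
  have hqT : q.Ge u 1 := Or.inr (by omega)
  obtain ⟨M₀, hM⟩ := (hT.image fun Q => Q.ord u).bddAbove
  obtain ⟨M, hM4, hM⟩ : ∃ M : ℕ, 4 ≤ M ∧ ∀ Q : Place K L, Q.Ge u 1 → Q.ord u ≤ M :=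
    ⟨M₀.toNat + 4, by omega, fun Q hQ => by have := hM ⟨Q, hQ, rfl⟩; dsimp only at this; omega⟩
  obtain ⟨c₀, -, hc₀⟩ := hT.exists_injOn_of_encard_le (t := (Set.univ : Set K))
    (by rw [Set.infinite_univ.encard_eq]; exact le_top)
  obtain ⟨c, hcq, hc⟩ : ∃ c : Place K L → K, c q = 0 ∧ {Q : Place K L | Q.Ge u 1}.InjOn c :=
    ⟨fun Q => c₀ Q - c₀ q, sub_self _, fun _ h _ h' e => hc₀ h h' (sub_left_injective e)⟩
  have hun : ∀ (Q : Place K L) (n : ℕ), Q.ord (Q.unif ^ n) = n := fun Q n => by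
    rw [Q.ord_pow Q.unif_ne_zero, Q.ord_unif, mul_one]
  obtain ⟨y, hyS, hy⟩ := TailA_approx h₀ hT
    (fun Q => algebraMap K L (c Q) + Q.unif ^ if Q = q then 3 else 1)
    (fun Q _ => add_mem (Q.2.2 _) (Q.mem_iff.2 (Or.inr (by rw [hun]; omega)))) hTS 4
  have h1 : ∀ Q : Place K L, Q.Ge u 1 → y - algebraMap K L (c Q) ≠ 0 ∧
      Q.ord (y - algebraMap K L (c Q)) = if Q = q then 3 else 1 := fun Q hQ => by
    have := Place.ord_add_of_lt (pow_ne_zero (if Q = q then 3 else 1) Q.unif_ne_zero)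
      ((hy Q hQ).mono (by rw [hun]; split_ifs <;> omega))
    rw [hun, show ∀ a b z : L, a + (z - (b + a)) = z - b from fun _ _ _ => by ring] at this
    exact ⟨this.1, this.2.trans (by split_ifs <;> rfl)⟩
  have h2 : ∀ Q : Place K L, Q.Ge u 1 → Q.Ge (y - algebraMap K L (c Q)) 1 := fun Q hQ =>
    Or.inr (by rw [(h1 Q hQ).2]; split_ifs <;> omega)
  have h3 := h1 q hqT
  rw [hcq, map_zero, sub_zero, if_pos rfl] at h3
  have key : ∀ f ∈ regOut S, ∀ (p : Place K L → K[X]) (b : K),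
      (∀ Q : Place K L, Q.Ge u 1 → Q ≠ q → Q.Ge (f - aeval y (p Q)) M) →
      q.Ge (f - aeval y (p q) - algebraMap K L b * u) 4 →
      ∃ h : K[X], X ^ M ∣ h - p q ∧ ∃ g ∈ regOut S ⊓ cusp q, f - aeval y h = u * g := by
    intro f hf p b hp hb
    have := hT.to_subtype
    obtain ⟨h, hh⟩ := Ideal.exists_forall_sub_mem_ideal
      (I := fun Q : {Q : Place K L | Q.Ge u 1} => Ideal.span {(X - C (c Q)) ^ M})
      (fun Q Q' e => (Ideal.isCoprime_span_singleton_iff _ _).2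
        (pairwise_coprime_X_sub_C hc.injective e).pow) fun Q => p Q
    simp only [Ideal.mem_span_singleton, Subtype.forall] at hh
    have h4 : ∀ Q : Place K L, Q.Ge u 1 → Q.Ge (aeval y h - aeval y (p Q)) M := fun Q hQ => by
      obtain ⟨r, hr⟩ := hh Q hQ
      rw [← map_sub, hr]
      simpa using ((h2 Q hQ).pow M).mul (Q.mem_iff.1 (TailA_aeval hyS r Q (hTS Q hQ)))
    have h5 : (f - aeval y h) * u⁻¹ ∈ cusp q := TailA_cusp (b := b) (by
      have := rr_ge_div hu (hb.sub ((h4 q hqT).mono (by omega)))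
      convert this.mono (by omega : (2 : ℤ) ≤ _) using 1
      field_simp
      ring)
    refine ⟨h, by simpa [hcq] using hh q hqT, _, ⟨fun Q hQ => ?_, h5⟩, by field_simp⟩
    by_cases e : Q = q
    · exact e ▸ h5.1
    refine Q.mem_iff.2 ?_
    by_cases h6 : Q.Ge u 1
    · have := hM Q h6
      exact (rr_ge_div hu (by simpa using (hp Q h6 e).sub (h4 Q h6))).mono (by omega)
    · have : ¬ 1 ≤ Q.ord u := mt Or.inr h6
      exact (rr_ge_div hu (Q.mem_iff.1 (sub_mem hf (TailA_aeval hyS h) Q hQ))).mono (by omega)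
  refine ⟨y, ⟨hyS, TailA_cusp (b := 0) (Or.inr (by rw [map_zero, sub_zero]; omega))⟩, h3.1, h3.2,
    fun Q e hQ => ?_, fun f hf => ?_, ?_⟩
  · rw [Place.val_eq (h2 Q hQ), ← hcq]
    exact mt (hc hQ hqT) e
  · obtain ⟨b, hb⟩ := TailA_lead hf.2.2 hu hq
    obtain ⟨b', hb'⟩ := TailA_lead hb h3.1 h3.2
    choose! p hp using fun (Q : Place K L) (hQ : Q.Ge u 1) (e : Q ≠ q) =>
      TailA_exp (h1 Q hQ).1 ((h1 Q hQ).2.trans (if_neg e)) (hf.1 Q (hTS Q hQ)) M
    obtain ⟨h, -, hh⟩ := key f hf.1 (Function.update p q (C (q.val f) + C b' * X)) b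
      (fun Q hQ e => by rw [Function.update_of_ne e]; exact hp Q hQ e) (by
        convert hb'.mono (by omega : (4 : ℤ) ≤ _) using 1
        simp
        ring)
    exact ⟨h, hh⟩
  · obtain ⟨h, h4, hh⟩ := key 0 (zero_mem _) (Pi.single q (X ^ 2)) 0
      (fun Q _ e => Or.inl (by simp [e])) (by
        simpa using ((Place.Ge.pow (Or.inr h3.2.ge) 2).mono (by omega)).neg)
    refine ⟨h, fun e => ?_, hh⟩
    simpa [e] using X_pow_dvd_iff.1 h4 2 (by omega)

theorem TailA_ge {q : Place K L} {u y : L} (hu : q.Ge u 2) (hy : q.Ge y 3) (G : K[X][X]) (n : ℕ)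
    (h : ∀ i j, 2 * i + 3 * j < n → (G.coeff j).coeff i = 0) :
    q.Ge (G.eval₂ (eval₂RingHom (algebraMap K L) u) y) n := by
  rw [eval₂_eq_sum, sum_def]
  refine rr_ge_sum _ fun j _ => ?_
  rw [coe_eval₂RingHom, eval₂_eq_sum, sum_def, Finset.sum_mul]
  refine rr_ge_sum _ fun i hi => ?_
  have := mt (h i j) (mem_support_iff.1 hi)
  exact (((q.mem_iff.1 (q.2.2 _)).mul (hu.pow i)).mul (hy.pow j)).mono (by omega)

theorem TailA_wt {q : Place K L} {u y : L} (hu0 : u ≠ 0) (hu : q.ord u = 2) (hy0 : y ≠ 0)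
    (hy : q.ord y = 3) {G : K[X][X]} (hG : G.eval₂ (eval₂RingHom (algebraMap K L) u) y = 0)
    {i j : ℕ} (h : ∀ i' j', 2 * i' + 3 * j' ≤ 2 * i + 3 * j → (i' = i → j' ≠ j) →
      (G.coeff j').coeff i' = 0) : (G.coeff j).coeff i = 0 := by
  by_contra hc
  have h1 := TailA_ge (Or.inr hu.ge) (Or.inr hy.ge)
    (monomial j (monomial i ((G.coeff j).coeff i)) - G) (2 * i + 3 * j + 1) fun i' j' h1 => by
      rw [coeff_sub, coeff_sub, coeff_monomial]
      by_cases e : j = j'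
      · rw [if_pos e, coeff_monomial, ← e]
        by_cases e' : i = i'
        · rw [if_pos e', e', sub_self]
        · rw [if_neg e', h i' j (by omega) fun e => absurd e.symm e', sub_self]
      · rw [if_neg e, h i' j' (by omega) fun _ => Ne.symm e, coeff_zero, sub_self]
  have h2 := (map_ne_zero (algebraMap K L)).2 hc
  have h3 := pow_ne_zero i hu0
  have h4 := pow_ne_zero j hy0
  rw [eval₂_sub, hG, sub_zero, eval₂_monomial, coe_eval₂RingHom, eval₂_monomial] at h1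
  have h5 := h1.resolve_left (mul_ne_zero (mul_ne_zero h2 h3) h4)
  rw [q.ord_mul (mul_ne_zero h2 h3) h4, q.ord_mul h2 h3, q.ord_const hc, q.ord_pow hu0,
    q.ord_pow hy0, hu, hy] at h5
  omega

/-- A Dedekind ring has no singular point. -/
theorem TailA_ns {R O : Type u} [CommRing R] [CommRing O] [IsDomain O] {S : Set (Place K L)}
    (hS : S.Finite) (hne : S.Nonempty) (φ : R →+* L) (ψ : R →+* O) (δ : Bool → R →+ O)
    (hδ : ∀ b f g, δ b (f * g) = ψ f * δ b g + ψ g * δ b f) (U : Bool → R) (hU : ∀ b, ψ (U b) = 0)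
    (h1 : ∀ b, δ b (U b) = 1) (h0 : ∀ b, δ b (U !b) = 0)
    (hk : ∀ G, φ G = 0 → ψ G = 0 ∧ ∀ b, δ b G = 0)
    (hr : ∀ f ∈ regOut S, ∃ c E, ψ c ≠ 0 ∧ φ c * f = φ E) : False := by
  let Z : Submodule (regOut S) L :=
    { carrier := {f | ∃ c E, ψ c ≠ 0 ∧ ψ E = 0 ∧ φ c * f = φ E}
      add_mem' := by
        rintro f g ⟨c, E, h1, h2, h3⟩ ⟨c', E', h4, h5, h6⟩
        exact ⟨c * c', c' * E + c * E', by simp [h1, h4], by simp [h2, h5], by
          simp only [map_mul, map_add, ← h3, ← h6]; ring⟩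
      zero_mem' := ⟨1, 0, by simp⟩
      smul_mem' := by
        rintro g f ⟨c, E, h1, h2, h3⟩
        obtain ⟨c', E', h4, h5⟩ := hr g g.2
        exact ⟨c * c', E * E', by simp [h1, h4], by simp [h2], by
          simp only [map_mul, ← h3, ← h5, Subalgebra.smul_def, smul_eq_mul]; ring⟩ }
  have h2 : ∀ b, φ (U b) ≠ 0 := fun b e => one_ne_zero ((h1 b).symm.trans ((hk _ e).2 b))
  have h3 : ∀ b, ∀ e ∈ regOut S, e * (φ (U b) / φ (U !b)) ∈ regOut S → e ∈ Z := fun b e he h => by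
    obtain ⟨c, E, h3, h4⟩ := hr e he
    obtain ⟨c', G, h5, h6⟩ := hr _ h
    have := (hk (c' * E * U b - c * G * U !b) (by
      simp only [map_sub, map_mul, ← h4, ← h6]
      have := h2 (!b)
      field_simp
      ring)).2 b
    rw [map_sub, hδ, hδ b (c * G), hU, hU, h1, h0] at this
    exact ⟨c, E, h3, by simpa [h5] using this, h4⟩
  obtain ⟨c, E, h4, h5, h6⟩ : (1 : L) ∈ Z := by
    refine Submodule.span_le.2 ?_ (mem_span_of_ord hS hne (fun z : Z => z.1) fun P hP => Or.inr ?_)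
    · rintro _ ⟨z, rfl⟩
      exact z.2
    obtain ⟨b, hb⟩ : ∃ b, φ (U b) / φ (U !b) ∈ P.1 :=
      (P.1.mem_or_inv_mem (φ (U true) / φ (U false))).elim (fun h => ⟨true, h⟩)
        fun h => ⟨false, by rwa [inv_div] at h⟩
    obtain ⟨e, he, h7, h8⟩ := exists_den_place hS hne hP hb
    have := BC_unit (he P hP) h7
    exact ⟨⟨e, h3 b e he h8⟩, this.1, by
      rw [this.2, ← map_one (algebraMap K L), P.ord_const one_ne_zero]⟩
  exact h4 (by simpa [h5] using (hk (c - E) (by rw [map_sub, ← h6, mul_one, sub_self])).1)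

end Fib

theorem TailA_nak {R B κ : Type u} [CommRing R] [IsDomain R] [IsIntegrallyClosed R] [CommRing B]
    [IsDomain B] [Algebra R B] [Module.Finite R B] [Module.IsTorsionFree R B] [CommRing κ]
    (ev : R →+* κ) (y : B)
    (h : ∀ b : B, ∃ H : R[X], b - aeval y H ∈ RingHom.ker ev • (⊤ : Submodule R B)) :
    ∃ s, ev s = 1 ∧ (∀ b : B, ∃ H : R[X], s • b = aeval y H) ∧ ∀ H : R[X],
      0 - aeval y H ∈ RingHom.ker ev • (⊤ : Submodule R B) → (minpoly R y).map ev ∣ H.map ev := by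
  obtain ⟨s, h1, h2⟩ := Submodule.exists_sub_one_mem_and_smul_le_of_fg_of_le_sup
    (I := RingHom.ker ev) (N := LinearMap.range (aeval y : R[X] →ₐ[R] B).toLinearMap)
    Module.Finite.fg_top le_rfl fun b _ => by
      obtain ⟨H, hH⟩ := h b
      rw [← add_sub_cancel (aeval y H) b]
      exact Submodule.add_mem_sup ⟨H, rfl⟩ hH
  rw [RingHom.mem_ker, map_sub, map_one, sub_eq_zero] at h1
  have h3 : ∀ b : B, ∃ H : R[X], s • b = aeval y H := fun b =>
    (h2 (Submodule.smul_mem_pointwise_smul b s _ trivial)).imp fun _ => Eq.symm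
  refine ⟨s, h1, h3, fun H hH => ?_⟩
  obtain ⟨W, h4, h5⟩ : ∃ W : R[X], W.map ev = 0 ∧ s • (0 - aeval y H) = aeval y W := by
    refine Submodule.smul_induction_on (p := fun z => ∃ W : R[X], W.map ev = 0 ∧ s • z = aeval y W)
      hH (fun r hr b _ => ?_) ?_
    · obtain ⟨W, hW⟩ := h3 b
      exact ⟨C r * W, by simp [RingHom.mem_ker.1 hr], by
        rw [smul_comm, hW, map_mul, aeval_C, Algebra.smul_def]⟩
    · rintro a b ⟨W, h4, h5⟩ ⟨W', h6, h7⟩
      exact ⟨W + W', by simp [h4, h6], by rw [smul_add, h5, h7, map_add]⟩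
  have := Polynomial.map_dvd ev (minpoly.isIntegrallyClosed_dvd (Algebra.IsIntegral.isIntegral y)
    (p := C s * H + W) (by rw [map_add, ← h5, map_mul, aeval_C, Algebra.smul_def]; ring))
  simpa [h1, h4] using this

theorem TailA_den {K : Type u} [Field K] (O : ValuationSubring K) (G : K[X][X]) :
    ∃ (o : O) (G' : O[X][X]), o ≠ 0 ∧
      G'.map (mapRingHom (algebraMap O K)) = C (C (algebraMap O K o)) * G := by
  have hadd : ∀ G H : K[X][X], (∃ (o : O) (G' : O[X][X]), o ≠ 0 ∧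
      G'.map (mapRingHom (algebraMap O K)) = C (C (algebraMap O K o)) * G) →
      (∃ (o : O) (G' : O[X][X]), o ≠ 0 ∧
      G'.map (mapRingHom (algebraMap O K)) = C (C (algebraMap O K o)) * H) →
      ∃ (o : O) (G' : O[X][X]), o ≠ 0 ∧
      G'.map (mapRingHom (algebraMap O K)) = C (C (algebraMap O K o)) * (G + H) := by
    rintro G H ⟨o, G', h1, h2⟩ ⟨o', H', h3, h4⟩
    refine ⟨o * o', C (C o') * G' + C (C o) * H', mul_ne_zero h1 h3, ?_⟩
    simp only [Polynomial.map_add, Polynomial.map_mul, h2, h4, map_C, coe_mapRingHom, map_mul]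
    ring
  refine G.induction_on' hadd fun j p => p.induction_on' (fun p p' h h' => ?_) fun i c => ?_
  · rw [map_add]
    exact hadd _ _ h h'
  · obtain ⟨a, b, hb, rfl⟩ := IsFractionRing.div_surjective O c
    have := nonZeroDivisors.ne_zero hb
    refine ⟨b, monomial j (monomial i a), this, ?_⟩
    rw [map_monomial, coe_mapRingHom, map_monomial, C_mul_monomial, C_mul_monomial,
      mul_div_cancel₀ _ ((map_ne_zero_iff _ (IsFractionRing.injective O K)).2 this)]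

end PR0
end
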