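import Pool.Agent.Work.MP_da2620_ag.TailAA
import Pool.Agent.Work.MP_da2620_ag.WeiC

-- merged part: Pool.Agent.Work.MP_da2620_ag.TailA
section
/-!
# Models whose special fibre has one cusp: a plane equation

`simple`: `H1z (inf - 2 q)` holds by degree (`h1z_of_deg`), so every Laurent tuple is an element of the cusp
algebra up to simple poles; `exists_isChart`, `exists_lift`, `crit`, `sat_gen`.
`exists_eqn`: let `a = x̄(q)`, `A₀ = d'.reg ⊓ cusp q`.  Choose `ȳ ∈ d'.reg` of order `3` at `q`, and at the other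
places `Q` over `a` with pairwise distinct nonzero values and `ȳ - ȳ(Q)` of order one (`weak_approx` and
`exists_den`, or `exists_ord_eq`).  Then `A₀ = κ[ȳ] + (x̄ - a) A₀`: subtract a polynomial in `ȳ` to make `f`
vanish to order `ord_Q (x̄ - a)` at each `Q ≠ q` (use `R(ȳ) ^ N`, `R` vanishing at the other values), and at `q` remove
the terms of order `0` and `3`, and the term of order `2` by `x̄ - a` times a function which is `1` at `q` to order `2`.
`𝒜` is finite over `O[x]` (`span_x`), so by Nakayama at the maximal ideal `(𝔪, x - a)` of `O[x]` the ring `O[x][y]` is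
all of `𝒜` after inverting some `s` with `s̄(a) ≠ 0`.  `P` comes from `exists_charpoly`, which has to be redone over
`O`: the coefficients of `∏ (Y - y i)` lie in `K[x]` and have integral expansions.  It has degree
`[L : K(x)]` and `y` generates `L`, so `P` is the minimal polynomial.  The monomials in `(x̄ - a, ȳ)` of weight
`< 6` have distinct orders at `q`, so their coefficients vanish.  `P̄(a, Y)` is the minimal polynomial of `ȳ` in
`A₀ / (x̄ - a)` (dimension `d`), and `ȳ ^ 2 R(ȳ) ^ N ∈ (x̄ - a) A₀`, so `0` is a root of multiplicity `≤ 2`; the terms of weight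
`6` cancel, so the coefficient of `X ^ 3` is nonzero too.
Nonsingularity: a common zero `(r, t)` of `P` defines `K[x, y] → K`, which extends to `A = d.reg` by `gen`, so is a
place `Q`; if both derivatives vanish then `P ∈ (X - r, Y - t) ^ 2`, and a uniformiser among `x - r`, `y - t`, say
`y - t = (x - r) g`, `s(x) g = h(x, y)`, gives `s (Y - t) - (X - r) h ∈ (P) ⊆ (X - r, Y - t) ^ 2`, impossible.
-/

namespace PR0

open Polynomial

universe u

/-- Evaluation of a polynomial in two variables. -/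
noncomputable def ev2 {R A : Type u} [CommRing R] [CommRing A] (φ : R →+* A) (x y : A) :
    R[X][X] →+* A := eval₂RingHom (eval₂RingHom φ x) y

theorem TailA_hom {R A B : Type u} [CommRing R] [CommRing A] [CommRing B] (φ : R →+* A) (x y : A)
    (g : A →+* B) (H : R[X][X]) : g (ev2 φ x y H) = ev2 (g.comp φ) (g x) (g y) H :=
  RingHom.congr_fun (f := g.comp (ev2 φ x y)) (by ext <;> simp [ev2]) H

theorem TailA_map {R S A : Type u} [CommRing R] [CommRing S] [CommRing A] (ψ : R →+* S)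
    (φ : S →+* A) (x y : A) (H : R[X][X]) :
    ev2 φ x y (H.map (mapRingHom ψ)) = ev2 (φ.comp ψ) x y H :=
  RingHom.congr_fun (f := (ev2 φ x y).comp (mapRingHom (mapRingHom ψ))) (by ext <;> simp [ev2]) H

theorem TailA_C {R A : Type u} [CommRing R] [CommRing A] (φ : R →+* A) (x y : A) (p : R[X]) :
    ev2 φ x y (C p) = p.eval₂ φ x := eval₂_C _ _

variable {κ : Type u} [Field κ] [IsAlgClosed κ] {ι : Type} [Fintype ι] [DecidableEq ι] [Nonempty ι]
  {J : Finset (ι × ℕ)} {L L' : Type u} [Field L] [Algebra (HF κ) L] [Fact (IsFF (HF κ) L)]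
  [Field L'] [Algebra κ L'] [Fact (IsFF κ L')]

/-- Integral constants. -/
noncomputable abbrev oL (κ L : Type u) [Field κ] [Field L] [Algebra (HF κ) L] : HO κ →+* L :=
  (algebraMap (HF κ) L).comp (inc κ)

/-- Constants in the valuation ring. -/
noncomputable abbrev cO (a : κ) : HO κ := algebraMap κ (HO κ) a

/-- A model with smooth generic fibre whose special fibre has one cusp, where `x` has order two. -/
structure CuspMod (J : Finset (ι × ℕ)) (𝒜 : Subalgebra (HO κ) (LT ι (HO κ))) (d : CD (HF κ) L ι)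
    (d' : CD κ L' ι) (q : Place κ L') : Prop where
  ch : IsChart J 𝒜
  ge : d.alg = gen' 𝒜
  sp : d'.cuspAlg q = spe 𝒜
  x2 : d'.x ∈ cusp q
  x3 : ¬ q.Ge (d'.x - algebraMap κ _ (q.val d'.x)) 3

/-- `f` lies in the model and reduces to `f₀`. -/
def RdC (𝒜 : Subalgebra (HO κ) (LT ι (HO κ))) (d : CD (HF κ) L ι) (d' : CD κ L' ι) (f : L)
    (f₀ : L') : Prop := ∃ F ∈ 𝒜, mapT (inc κ) F = d.exT f ∧ mapT (red κ) F = d'.exT f₀

/-- The plane equation `P (x - a, y) = 0`. -/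
structure Eqn (𝒜 : Subalgebra (HO κ) (LT ι (HO κ))) (d : CD (HF κ) L ι) (d' : CD κ L' ι)
    (q : Place κ L') (y : L) (y₀ : L') (P : (HO κ)[X][X]) : Prop where
  rd : RdC 𝒜 d d' y y₀
  ne : y₀ ≠ 0
  ord : q.ord y₀ = 3
  oth : ∀ Q : Place κ L', Q ≠ q → d'.x ∈ Q.1 → Q.val d'.x = q.val d'.x → Q.val y₀ ≠ 0
  monic : P.Monic
  ker : ∀ G : (HF κ)[X][X], ev2 (algebraMap (HF κ) L) (d.x - oL κ L (cO (q.val d'.x))) y G = 0 ↔
    P.map (mapRingHom (inc κ)) ∣ G
  gen : ∃ s : (HO κ)[X], red κ (s.coeff 0) ≠ 0 ∧ ∀ f f₀, RdC 𝒜 d d' f f₀ → ∃ h : (HO κ)[X][X],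
    s.eval₂ (oL κ L) (d.x - oL κ L (cO (q.val d'.x))) * f =
      ev2 (oL κ L) (d.x - oL κ L (cO (q.val d'.x))) y h
  h0 : ∀ i j, 2 * i + 3 * j < 6 → hres ((P.coeff j).coeff i) = 0
  h1 : hres ((P.coeff 2).coeff 0) ≠ 0
  h2 : hres ((P.coeff 0).coeff 3) ≠ 0
  hs : ∀ r t : HO κ, hres r = 0 → hres t = 0 → (P.map (evalRingHom r)).eval t = 0 →
    (P.derivative.map (evalRingHom r)).eval t = 0 → ((P.eval (C t)).derivative).eval r ≠ 0

variable {𝒜 : Subalgebra (HO κ) (LT ι (HO κ))} {d : CD (HF κ) L ι} {d' : CD κ L' ι} {q : Place κ L'}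

theorem RdC.add {f g : L} {f₀ g₀ : L'} (h : RdC 𝒜 d d' f f₀) (h' : RdC 𝒜 d d' g g₀) :
    RdC 𝒜 d d' (f + g) (f₀ + g₀) := by
  obtain ⟨F, h1, h2, h3⟩ := h
  obtain ⟨G, h4, h5, h6⟩ := h'
  exact ⟨F + G, add_mem h1 h4, by simp only [map_add, h2, h5], by simp only [map_add, h3, h6]⟩
theorem RdC.mul {f g : L} {f₀ g₀ : L'} (h : RdC 𝒜 d d' f f₀) (h' : RdC 𝒜 d d' g g₀) :
    RdC 𝒜 d d' (f * g) (f₀ * g₀) := by
  obtain ⟨F, h1, h2, h3⟩ := h
  obtain ⟨G, h4, h5, h6⟩ := h'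
  exact ⟨F * G, mul_mem h1 h4, by simp only [map_mul, h2, h5], by simp only [map_mul, h3, h6]⟩
theorem RdC.const (o : HO κ) : RdC 𝒜 d d' (oL κ L o) (algebraMap κ L' (red κ o)) :=
  ⟨_, 𝒜.algebraMap_mem o, (mapT_algebraMap _ _).trans (d.exT.commutes _).symm,
    (mapT_algebraMap _ _).trans (d'.exT.commutes _).symm⟩
theorem RdC.unique {f : L} {f₀ g₀ : L'} (h : RdC 𝒜 d d' f f₀) (h' : RdC 𝒜 d d' f g₀) : f₀ = g₀ := by
  obtain ⟨F, -, h2, h3⟩ := h
  obtain ⟨G, -, h5, h6⟩ := h'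
  rw [Model_mapT_inj Model_inc_inj (h2.trans h5.symm)] at h3
  exact d'.exT_injective (h3.symm.trans h6)

namespace CuspMod

variable (h : CuspMod J 𝒜 d d' q)
include h

theorem rd_x : RdC 𝒜 d d' d.x d'.x :=
  ⟨_, h.ch.x_mem, (mapT_xx _).trans d.exT_x.symm, (mapT_xx _).trans d'.exT_x.symm⟩
theorem mem_of_rd {f : L} {f₀ : L'} (hf : RdC 𝒜 d d' f f₀) :
    f ∈ d.reg ∧ f₀ ∈ d'.reg ∧ f₀ ∈ cusp q := by
  obtain ⟨F, h1, h2, h3⟩ := hf
  obtain ⟨g, h4, h5⟩ := h.ge.ge (Chart_mem_bc _ h1)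
  obtain ⟨g₀, h6, h7⟩ := h.sp.ge (Chart_mem_bc _ h1)
  exact ⟨d.exT_injective (h5.trans h2) ▸ h4, d'.exT_injective (h7.trans h3) ▸ h6⟩
theorem exists_rd {f₀ : L'} (hf : f₀ ∈ d'.reg) (hf' : f₀ ∈ cusp q) : ∃ f, RdC 𝒜 d d' f f₀ := by
  obtain ⟨F, h1, h2⟩ := h.ch.mem_spe.1 (h.sp.le ⟨f₀, ⟨hf, hf'⟩, rfl⟩)
  obtain ⟨g, -, h5⟩ := h.ge.ge (Chart_mem_bc _ h1)
  exact ⟨g, F, h1, h5.symm, h2⟩
theorem exists_rd' {F : LT ι (HO κ)} (hF : F ∈ 𝒜) : ∃ f f₀, RdC 𝒜 d d' f f₀ ∧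
    mapT (inc κ) F = d.exT f ∧ mapT (red κ) F = d'.exT f₀ := by
  obtain ⟨g, -, h5⟩ := h.ge.ge (Chart_mem_bc _ hF)
  obtain ⟨g₀, -, h7⟩ := h.sp.ge (Chart_mem_bc _ hF)
  exact ⟨g, g₀, ⟨F, hF, h5.symm, h7.symm⟩, h5.symm, h7.symm⟩
theorem exists_smul {f : L} (hf : f ∈ d.reg) :
    ∃ (o : HO κ) (f₀ : L'), o ≠ 0 ∧ RdC 𝒜 d d' (oL κ L o * f) f₀ := by
  by_cases h0 : f = 0
  · exact ⟨1, _, one_ne_zero, by simpa [h0] using RdC.const (𝒜 := 𝒜) (d := d) (d' := d') 0⟩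
  obtain ⟨c, F, hc, h1, h2, -⟩ := h.ch.exists_prim (h.ge.le ⟨f, hf, rfl⟩)
    ((map_ne_zero_iff _ d.exT_injective).2 h0)
  obtain ⟨a, b, hb, rfl⟩ := IsFractionRing.div_surjective (HO κ) c
  have hb' := (map_ne_zero_iff _ Model_inc_inj).2 (nonZeroDivisors.ne_zero hb)
  obtain ⟨g, g₀, h3, h4, -⟩ := h.exists_rd' (𝒜.smul_mem h1 b)
  refine ⟨a, g₀, fun e => hc (by simp [e]), ?_⟩
  rw [mapT_smul, h2, smul_smul, mul_div_cancel₀ _ hb'] at h4
  rwa [← d.exT_injective ((map_smul _ _ _).trans h4), Algebra.smul_def] at h3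
theorem simple (hg : genus κ L' + 1 = J.card) (hm : 2 * J.card ≤ Fintype.card ι) :
    ∃ J' : Finset (ι × ℕ), (∀ ν ∈ J', ν.2 < 1) ∧ IsChart J' 𝒜 := by
  classical
  have hq : ∀ i, d'.pl i ≠ q := fun i e =>
    (d'.poles_eq.ge ⟨i, rfl⟩ : d'.x ∉ (d'.pl i).1) (e ▸ h.x2.1)
  have h0 := h.ch.bc (red κ)
  obtain ⟨J', h1, h2⟩ := exists_isChart h0.x_mem
    (fun F hF h1 => h0.inj F hF fun μ _ => pole_zero_iff.1 h1 μ) (n := 1) fun F => by
      obtain ⟨f, hf⟩ := d'.dense F 0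
      obtain ⟨g, h3⟩ := h1z_of_deg (D := d'.inf - Finsupp.single q 2)
        (by simp only [dg_sub, CD.inf, dg_sum, dg_single]; simp; omega) _
        (rr_ind_mem (Set.finite_range d'.pl) f)
      have h4 : ∀ P, P ∉ Set.range d'.pl → P.Ge g (if q = P then 2 else 0) := fun P hP => by
        have : ∀ i, d'.pl i ≠ P := fun i e => hP ⟨i, e⟩
        simpa [CD.inf, Finsupp.finsetSum_apply, Finsupp.single_apply, this, hP] using h3 P
      refine ⟨d'.exT g, h.sp.le ⟨g, ⟨fun P hP => P.mem_iff.2 ((h4 P hP).mono (by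
        split_ifs <;> omega)), TailA_cusp (b := 0) (by
          simpa using h4 q fun e => e.elim hq)⟩, rfl⟩, fun i => ?_⟩
      have h5 : (d'.pl i).Ge (g - f) (-1) := by
        simpa [CD.inf, Finsupp.finsetSum_apply, Finsupp.single_apply, (hq i).symm,
          d'.inj.eq_iff] using h3 (d'.pl i)
      have := ((hf i).mono (by omega)).add ((d'.ge_iff i _ _).1 h5).neg
      simpa [CD.exT_apply] using this
  obtain ⟨M, hM⟩ := Model_bound J
  refine ⟨J', h1, h.ch.sat_gen ▸ (crit (h.ch.bc (inc κ)) h2 (h0.card_eq h2) fun m =>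
    ⟨m + M, by omega, fun F hF => ?_⟩).1⟩
  obtain ⟨F₀, h3, h4, h5⟩ := h.ch.exists_lift Model_red_surj hF.1
    (fun ν hν => (hM ν hν).trans_le (Nat.le_add_left M m)) hF.2
  exact ⟨F₀, ⟨h.ch.sat_gen.ge h3, h4⟩, h5⟩
theorem TailA_e : ∃ (e : 𝒜 →+* L) (e₀ : 𝒜 →+* L'), Function.Injective e ∧
    (∀ f f₀, RdC 𝒜 d d' f f₀ ↔ ∃ b, e b = f ∧ e₀ b = f₀) ∧
    (∀ b, e₀ b = 0 → ∃ (π : HO κ) (G : 𝒜), red κ π = 0 ∧ b = π • G) ∧
    e.comp (algebraMap _ _) = oL κ L ∧ e₀.comp (algebraMap _ _) = (algebraMap κ L').comp (red κ) ∧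
    e ⟨_, h.ch.x_mem⟩ = d.x ∧ e₀ ⟨_, h.ch.x_mem⟩ = d'.x := by
  choose e e₀ _ he he₀ using fun b : 𝒜 => h.exists_rd' b.2
  have hi := d.exT_injective
  have hi₀ := d'.exT_injective
  refine ⟨{ toFun := e
            map_one' := hi (by rw [← he]; simp)
            map_zero' := hi (by rw [← he]; simp)
            map_mul' := fun a b => hi (by rw [map_mul, ← he, ← he, ← he]; simp)
            map_add' := fun a b => hi (by rw [map_add, ← he, ← he, ← he]; simp) },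
          { toFun := e₀
            map_one' := hi₀ (by rw [← he₀]; simp)
            map_zero' := hi₀ (by rw [← he₀]; simp)
            map_mul' := fun a b => hi₀ (by rw [map_mul, ← he₀, ← he₀, ← he₀]; simp)
            map_add' := fun a b => hi₀ (by rw [map_add, ← he₀, ← he₀, ← he₀]; simp) },
    fun a b hab => Subtype.ext (Model_mapT_inj Model_inc_inj
      ((he a).trans ((congrArg d.exT hab).trans (he b).symm))), fun f f₀ => ⟨?_, ?_⟩,
    fun b hb => Model_div h.ch b ((he₀ b).trans ((congrArg d'.exT hb).trans (map_zero _))),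
    RingHom.ext fun o => hi ((he _).symm.trans
      ((mapT_algebraMap _ o).trans (d.exT.commutes _).symm)),
    RingHom.ext fun o => hi₀ ((he₀ _).symm.trans
      ((mapT_algebraMap _ o).trans (d'.exT.commutes _).symm)),
    hi ((he _).symm.trans ((mapT_xx _).trans d.exT_x.symm)),
    hi₀ ((he₀ _).symm.trans ((mapT_xx _).trans d'.exT_x.symm))⟩
  · rintro ⟨F, h1, h2, h3⟩
    exact ⟨⟨F, h1⟩, hi ((he _).symm.trans h2), hi₀ ((he₀ _).symm.trans h3)⟩
  · rintro ⟨b, rfl, rfl⟩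
    exact ⟨b, b.2, he b, he₀ b⟩

theorem TailA_fin (a : HO κ) :
    (eval₂RingHom (algebraMap (HO κ) 𝒜) (⟨_, h.ch.x_mem⟩ - algebraMap _ _ a)).Finite := by
  let := (eval₂RingHom (algebraMap (HO κ) 𝒜) (⟨_, h.ch.x_mem⟩ - algebraMap _ _ a)).toAlgebra
  obtain ⟨i₀⟩ := ‹Nonempty ι›
  obtain ⟨M, hM⟩ := Model_bound J
  have h1 : (insert 1 (chi i₀ J 𝒜 '' {μ | μ.2 ≤ M})).Finite :=
    (((Set.finite_univ.prod (Set.finite_le_nat M)).subset fun _ hμ => ⟨trivial, hμ⟩).image _).insert _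
  refine ⟨Submodule.fg_def.2 ⟨_, h1.preimage Subtype.val_injective.injOn,
    eq_top_iff.2 fun ⟨F, hF⟩ _ => ?_⟩⟩
  have h2 := (h.ch.span_x i₀ hM).1 hF
  induction h2 using Submodule.span_induction with
  | mem x hx => exact Submodule.subset_span hx
  | zero => exact zero_mem _
  | add x y hx hy h3 h4 =>
    exact add_mem (h3 ((h.ch.span_x i₀ hM).2 hx) trivial) (h4 ((h.ch.span_x i₀ hM).2 hy) trivial)
  | smul c x hx h3 =>
    obtain ⟨p, hp⟩ := (Algebra.adjoin_singleton_eq_range_aeval _ _).le c.2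
    have h4 : (aeval (⟨_, h.ch.x_mem⟩ - algebraMap _ 𝒜 a) (p.comp (X + C a))).1 = c.1 := by
      rw [aeval_comp, map_add, aeval_X, aeval_C, sub_add_cancel]
      exact (aeval_algHom_apply 𝒜.val _ p).symm.trans hp
    convert Submodule.smul_mem _ (p.comp (X + C a)) (h3 ((h.ch.span_x i₀ hM).2 hx) trivial) using 1
    rw [Algebra.smul_def (p.comp _), RingHom.algebraMap_toAlgebra, coe_eval₂RingHom, ← aeval_def]
    exact Subtype.ext (by rw [MulMemClass.coe_mul, h4]; rfl)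

theorem exists_eqn : ∃ y y₀ P, Eqn 𝒜 d d' q y y₀ P := by
  obtain ⟨e, e₀, hi, hr, hk, hc, hc₀, hx, hx₀⟩ := h.TailA_e
  obtain ⟨hu0, hu⟩ := TailA_ord h.x2.2 h.x3
  obtain ⟨i₀⟩ := ‹Nonempty ι›
  obtain ⟨y₀, hy, hy0, hy3, hyo, hg, h₂, hh, hg₂⟩ := TailA_y (S := Set.range d'.pl) ⟨i₀, rfl⟩ hu0 hu
    fun P hP h1 => (d'.poles_eq.ge hP : d'.x ∉ P.1)
      (by simpa using add_mem h1 (P.2.2 (q.val d'.x)))
  have hl : ∀ g₀ ∈ d'.reg ⊓ cusp q, ∃ g, e₀ g = g₀ := fun g₀ hg =>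
    (h.exists_rd hg.1 hg.2).elim fun _ h1 => ((hr _ _).1 h1).imp fun _ => And.right
  obtain ⟨y, rfl⟩ := hl y₀ hy
  have hf := h.TailA_fin (cO (q.val d'.x))
  obtain ⟨z, hz⟩ : ∃ z : 𝒜, z = ⟨_, h.ch.x_mem⟩ - algebraMap _ _ (cO (q.val d'.x)) := ⟨_, rfl⟩
  rw [← hz] at hf
  have h1 : e z = d.x - oL κ L (cO (q.val d'.x)) := by rw [hz, RingHom.map_sub, hx, ← hc]; rfl
  have h2 : e₀ z = d'.x - algebraMap κ L' (q.val d'.x) := by
    rw [hz, map_sub, hx₀, ← e₀.comp_apply, hc₀]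
    exact congrArg (fun c => d'.x - algebraMap κ L' c) (hres.commutes _)
  have h3 : Transcendental (HF κ) (e z) := transcendental_iff.2 fun ⟨c, h3⟩ =>
    transcendental_iff.1 d.transcendental ⟨c + inc κ (cO (q.val d'.x)), by
      rw [map_add, h3, h1]; exact sub_add_cancel _ _⟩
  rw [← h2] at hu0 hu hyo hg hg₂
  let := (eval₂RingHom (algebraMap (HO κ) 𝒜) z).toAlgebra
  have : Module.Finite (HO κ)[X] 𝒜 := hf
  have h4 : ∀ H, e (aeval y H) = ev2 (oL κ L) (e z) (e y) H := fun H =>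
    (TailA_hom _ z y e H).trans (by rw [hc])
  have h5 : ∀ H, e₀ (aeval y H) = ev2 (algebraMap κ L') (e₀ z) (e₀ y) (H.map (mapRingHom (red κ))) :=
    fun H => (TailA_hom _ z y e₀ H).trans (by rw [hc₀, TailA_map])
  have := hi.isDomain
  have : Module.IsTorsionFree (HO κ)[X] 𝒜 := Module.isTorsionFree_iff_algebraMap_injective.2
    ((injective_iff_map_eq_zero _).2 fun p hp => by
      have := h4 (C p)
      rw [aeval_C, hp, map_zero, TailA_C, ← eval₂_map] at this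
      exact (Polynomial.map_eq_zero_iff Model_inc_inj).1
        (_root_.transcendental_iff.1 h3 _ this.symm))
  have h6 : ∀ (b : 𝒜) (H : κ[X]), (∃ g ∈ d'.reg ⊓ cusp q, e₀ b - aeval (e₀ y) H = e₀ z * g) →
      b - aeval y (H.map (C.comp (algebraMap κ (HO κ)))) ∈
        RingHom.ker (eval₂RingHom (red κ) 0) • (⊤ : Submodule (HO κ)[X] 𝒜) := by
    rintro b H ⟨g₀, h6, h7⟩
    obtain ⟨g, rfl⟩ := hl g₀ h6
    obtain ⟨π, G, h8, h9⟩ := hk (b - aeval y (H.map (C.comp (algebraMap κ (HO κ)))) - z * g) (by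
      rw [RingHom.map_sub, RingHom.map_sub, map_mul, ← h7, h5, sub_eq_zero, sub_right_inj, Polynomial.map_map, ev2,
        coe_eval₂RingHom, eval₂_map, aeval_def]
      congr 1
      ext
      simp)
    rw [sub_eq_iff_eq_add.1 h9]
    rw [show π • G + z * g = (C π : (HO κ)[X]) • G + (X : (HO κ)[X]) • g by
      simp only [Algebra.smul_def, RingHom.algebraMap_toAlgebra, coe_eval₂RingHom, eval₂_C, eval₂_X]]
    exact add_mem (Submodule.smul_mem_smul (by simpa using h8) trivial)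
      (Submodule.smul_mem_smul (by simp) trivial)
  obtain ⟨s, h7, h8, h9⟩ := TailA_nak (eval₂RingHom (red κ) 0) y fun b => by
    obtain ⟨H, hH⟩ := hg (e₀ b) (h.mem_of_rd ((hr _ _).2 ⟨b, rfl, rfl⟩)).2
    exact ⟨_, h6 b H hH⟩
  have hint := Algebra.IsIntegral.isIntegral (R := (HO κ)[X]) y
  have hd : ∀ G, ev2 (oL κ L) (e z) (e y) G = 0 ↔ minpoly _ y ∣ G := fun G => by
    rw [← h4, map_eq_zero_iff _ hi, minpoly.isIntegrallyClosed_dvd_iff hint]
  have hs : ∀ b, ∃ H, s.eval₂ (oL κ L) (e z) * e b = ev2 (oL κ L) (e z) (e y) H := fun b =>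
    (h8 b).imp fun H hH => by
      rw [← h4, ← hH, Algebra.smul_def, map_mul, ← aeval_C y, h4, TailA_C]
  have hP := h5 (minpoly _ y)
  rw [minpoly.aeval, map_zero] at hP
  have hw := fun i j => TailA_wt hu0 hu hy0 hy3 hP.symm (i := i) (j := j)
  simp only [coeff_map, coe_mapRingHom] at hw
  have h0 : ∀ n i j, 2 * i + 3 * j = n → n < 6 →
      red κ (((minpoly (HO κ)[X] y).coeff j).coeff i) = 0 := fun n =>
    n.strong_induction_on fun n ih i j h1 h2 => hw i j fun i' j' h3 h4 =>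
      ih _ (by omega) i' j' rfl (by omega)
  have hY : red κ (((minpoly (HO κ)[X] y).coeff 2).coeff 0) ≠ 0 := fun h1 => hh (by
    have := h9 _ (h6 0 h₂ (by rwa [map_zero]))
    rw [Polynomial.map_map, show (eval₂RingHom (red κ) 0).comp (C.comp (algebraMap κ (HO κ))) =
      RingHom.id κ by ext; simp, Polynomial.map_id] at this
    refine X_pow_dvd_iff.1 ((X_pow_dvd_iff.2 fun n hn => ?_).trans this) 2 (by omega : 2 < 3)
    rw [coeff_map, coe_eval₂RingHom, eval₂_at_zero]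
    by_cases e : n = 2
    · exact e ▸ h1
    · exact h0 _ 0 n rfl (by omega))
  refine ⟨e y, e₀ y, minpoly _ y, (hr _ _).2 ⟨y, rfl, rfl⟩, hy0, hy3, fun Q h1 h3 h4 => hyo Q h1 ?_,
    minpoly.monic hint, fun G => ?_, ⟨s, ?_, fun f f₀ hf => ?_⟩, fun i j => h0 _ i j rfl, hY,
    fun h1 => hY (hw 0 2 fun i j h2 h3 => ?_), fun r t hr0 ht h10 h11 h12 => ?_⟩
  · rw [h2, ← h4]
    exact Place.ge_sub_val h3
  · rw [← h1]
    refine ⟨fun hG => ?_, fun ⟨W, hW⟩ => by rw [hW, map_mul, TailA_map, (hd _).2 dvd_rfl, zero_mul]⟩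
    obtain ⟨o, G', h10, h11⟩ := TailA_den (HO κ) G
    have := Polynomial.map_dvd (mapRingHom (inc κ)) ((hd G').1 (by
      rw [← TailA_map, h11, map_mul, hG, mul_zero]))
    rwa [h11, IsUnit.dvd_mul_left (isUnit_C.2 (isUnit_C.2
      ((map_ne_zero_iff _ Model_inc_inj).2 h10).isUnit))] at this
  · rw [← eval₂_at_zero]
    exact h7.trans_ne one_ne_zero
  · obtain ⟨b, rfl, -⟩ := (hr _ _).1 hf
    exact h1 ▸ hs b
  · by_cases e : i = 3
    · obtain rfl : j = 0 := by omega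
      exact e ▸ h1
    · exact h0 _ i j rfl (by omega)
  rw [map_evalRingHom_eval] at h10 h11
  refine TailA_ns (Set.finite_range d.pl) ⟨_, i₀, rfl⟩ (ev2 (oL κ L) (e z) (e y))
    (evalEvalRingHom r t) (fun b => bif b then
      (evalEvalRingHom r t).toAddMonoidHom.comp derivative.toAddMonoidHom else
      ((evalRingHom r).toAddMonoidHom.comp derivative.toAddMonoidHom).comp
        (evalRingHom (C t)).toAddMonoidHom) (fun b f g => ?_)
    (fun b => bif b then X - C (C t) else C (X - C r)) (fun b => ?_) (fun b => ?_) (fun b => ?_)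
    (fun G hG => ?_) fun f hf => ?_
  · cases b <;> simp [evalEval] <;> ring
  · cases b <;> simp
  · cases b <;> simp
  · cases b <;> simp
  · obtain ⟨W, rfl⟩ := (hd G).1 hG
    refine ⟨by simp [h10], fun b => ?_⟩
    cases b <;> simp [h10, h11, h12]
  · obtain ⟨o, f₀, h13, h14⟩ := h.exists_smul hf
    obtain ⟨b, h15, -⟩ := (hr _ _).1 h14
    obtain ⟨H, h16⟩ := hs b
    refine ⟨C (s * C o), H, ?_, by rw [← h16, h15, TailA_C, eval₂_mul, eval₂_C, mul_assoc]⟩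
    have : red κ (s.eval r) = 1 := by rw [← eval₂_at_apply, show red κ r = 0 from hr0]; exact h7
    simpa [evalEval_C, h13] using fun e => by simp [e] at this

end CuspMod

end PR0
end

-- merged part: Pool.Agent.Work.MP_da2620_ag.TailBA
section
/-!
# The elliptic tail: auxiliary algebra (polynomials in two variables, fractions, contents, values)
-/

namespace PR0

open Polynomial

universe u

section Ev

variable {R R' A A' : Type u} [CommRing R] [CommRing R'] [CommRing A] [CommRing A']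

theorem TailB_C (φ : R →+* A) (x y : A) (p : R[X]) : ev2 φ x y (C p) = p.eval₂ φ x := eval₂_C _ _

theorem TailB_CC (φ : R →+* A) (x y : A) (c : R) : ev2 φ x y (C (C c)) = φ c := by
  rw [TailB_C, eval₂_C]

theorem TailB_CX (φ : R →+* A) (x y : A) : ev2 φ x y (C X) = x := by rw [TailB_C, eval₂_X]

theorem TailB_X (φ : R →+* A) (x y : A) : ev2 φ x y X = y := eval₂_X _ _

theorem TailB_ind {p : R[X][X] → Prop} (hC : ∀ c, p (C (C c))) (hX : p (C X)) (hY : p X)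
    (ha : ∀ F G, p F → p G → p (F + G)) (hm : ∀ F G, p F → p G → p (F * G)) (G : R[X][X]) :
    p G := by
  have h1 : ∀ a : R[X], p (C a) := fun a => by
    induction a using Polynomial.induction_on with
    | C c => exact hC c
    | add a b h h' => exact map_add C a b ▸ ha _ _ h h'
    | monomial n c h =>
      rw [pow_succ, ← mul_assoc, map_mul]
      exact hm _ _ h hX
  induction G using Polynomial.induction_on with
  | C a => exact h1 a
  | add F G h h' => exact ha _ _ h h'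
  | monomial n a h =>
    rw [pow_succ, ← mul_assoc]
    exact hm _ _ h hY

theorem TailB_ext {f g : R[X][X] →+* A} (hC : ∀ c, f (C (C c)) = g (C (C c)))
    (hX : f (C X) = g (C X)) (hY : f X = g X) (G : R[X][X]) : f G = g G :=
  TailB_ind (p := fun G => f G = g G) hC hX hY
    (fun F G h h' => by rw [map_add, map_add, h, h'])
    (fun F G h h' => by rw [map_mul, map_mul, h, h']) G

theorem TailB_hom (ψ : A →+* A') (φ : R →+* A) (x y : A) (G : R[X][X]) :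
    ψ (ev2 φ x y G) = ev2 (ψ.comp φ) (ψ x) (ψ y) G :=
  TailB_ext (f := ψ.comp (ev2 φ x y)) (fun c => by simp only [RingHom.comp_apply, TailB_CC])
    (by simp only [RingHom.comp_apply, TailB_CX]) (by simp only [RingHom.comp_apply, TailB_X]) G

theorem TailB_map (θ : R →+* R') (φ : R' →+* A) (x y : A) (G : R[X][X]) :
    ev2 φ x y (G.map (mapRingHom θ)) = ev2 (φ.comp θ) x y G :=
  TailB_ext (f := (ev2 φ x y).comp (mapRingHom (mapRingHom θ)))
    (fun c => by simp only [RingHom.comp_apply, coe_mapRingHom, map_C, TailB_CC])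
    (by simp only [RingHom.comp_apply, coe_mapRingHom, map_C, map_X, TailB_CX])
    (by simp only [RingHom.comp_apply, coe_mapRingHom, map_X, TailB_X]) G

theorem TailB_eval (φ : R →+* A) (c : R) (y : A) (G : R[X][X]) :
    ev2 φ (φ c) y G = (G.map (evalRingHom c)).eval₂ φ y :=
  TailB_ext (g := (eval₂RingHom φ y).comp (mapRingHom (evalRingHom c)))
    (fun c => by simp [TailB_CC]) (by simp [TailB_CX]) (by simp [TailB_X]) G

theorem TailB_mapC (φ : R →+* A) (x y : A) (p : R[X]) : ev2 φ x y (p.map C) = p.eval₂ φ y := by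
  rw [ev2, coe_eval₂RingHom, eval₂_map]
  congr 1
  ext c
  simp

theorem TailB_zero (φ : R →+* A) (G : R[X][X]) : ev2 φ 0 0 G = φ ((G.coeff 0).coeff 0) := by
  rw [ev2, coe_eval₂RingHom, eval₂_at_zero, coe_eval₂RingHom, eval₂_at_zero]

theorem TailB_comp (a : R[X]) (b G : R[X][X]) :
    (G.map (compRingHom a)).comp b = ev2 (C.comp C) (C a) b G :=
  TailB_ext (f := (compRingHom b).comp (mapRingHom (compRingHom a)))
    (fun c => by simp [TailB_CC]) (by simp [TailB_CX]) (by simp [TailB_X]) G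

theorem TailB_taylor (c e : R) (G : R[X][X]) : ∃ G₁ G₂, G = C (C (ev2 (RingHom.id R) c e G)) +
    (C X - C (C c)) * G₁ + (X - C (C e)) * G₂ := by
  induction G using TailB_ind with
  | hC a => exact ⟨0, 0, by simp [TailB_CC]⟩
  | hX => exact ⟨1, 0, by simp [TailB_CX]⟩
  | hY => exact ⟨0, 1, by simp [TailB_X]⟩
  | ha F G h h' =>
    obtain ⟨F₁, F₂, h⟩ := h
    obtain ⟨G₁, G₂, h'⟩ := h'
    refine ⟨F₁ + G₁, F₂ + G₂, ?_⟩
    rw [map_add, map_add, map_add]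
    linear_combination h + h'
  | hm F G h h' =>
    obtain ⟨F₁, F₂, h⟩ := h
    obtain ⟨G₁, G₂, h'⟩ := h'
    refine ⟨F₁ * G + C (C (ev2 (RingHom.id R) c e F)) * G₁,
      F₂ * G + C (C (ev2 (RingHom.id R) c e F)) * G₂, ?_⟩
    rw [map_mul, map_mul, map_mul]
    linear_combination G * h + C (C (ev2 (RingHom.id R) c e F)) * h'

theorem TailB_sker {B : Type u} [CommRing B] {j : R[X][X] →+* B} {S Q Q₁ Q₂ : R[X][X]} {c e : R}
    (hj : ∀ f : B, ∃ n G, f * j S ^ n = j G) (hS : IsUnit (j S)) (hQ : j Q = 0)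
    (hQ' : Q = (C X - C (C c)) * Q₁ + (X - C (C e)) * Q₂) {σ : B →+* R}
    (hσ : ∀ G, σ (j G) = ev2 (RingHom.id R) c e G) (f : B) (hf : σ f = 0) :
    ∃ g, j Q₂ * f = j (C X - C (C c)) * g := by
  obtain ⟨n, G, hG⟩ := hj f
  obtain ⟨G₁, G₂, h⟩ := TailB_taylor c e G
  obtain ⟨w, hw⟩ := (hS.pow n).exists_right_inv
  rw [← hσ, ← hG, map_mul, hf, zero_mul, map_zero, map_zero, zero_add] at h
  rw [h, map_add, map_mul, map_mul] at hG
  rw [hQ', map_add, map_mul, map_mul] at hQ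
  exact ⟨(j Q₂ * j G₁ - j Q₁ * j G₂) * w, by
    linear_combination j Q₂ * w * hG + j G₂ * w * hQ - j Q₂ * f * hw⟩

/-- The substitution `X ↦ r + u X`, `Y ↦ t + s u X + v Y`. -/
noncomputable def TailB_sub (r s t u v : R) : R[X][X] →+* R[X][X] :=
  ev2 (C.comp C) (C (C r + C u * X)) (C (C t + C (s * u) * X) + C (C v) * X)

theorem TailB_ev_sub (φ : R →+* A) (x y : A) (r s t u v : R) (G : R[X][X]) :
    ev2 φ x y (TailB_sub r s t u v G) =
      ev2 φ (φ r + φ u * x) (φ t + φ s * φ u * x + φ v * y) G := by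
  rw [TailB_sub, TailB_hom]
  congr 2
  · exact RingHom.ext fun c => TailB_CC φ x y c
  · simp only [map_add, map_mul, TailB_CC, TailB_CX]
  · simp only [map_add, map_mul, TailB_CC, TailB_CX, TailB_X]

theorem TailB_clear [IsDomain R] (r s t : R) {u v : R} (hu : u ≠ 0) (hv : v ≠ 0) (G : R[X][X]) :
    ∃ (o : R) (G' : R[X][X]), o ≠ 0 ∧ TailB_sub r s t u v G' = C (C o) * G := by
  induction G using TailB_ind with
  | hC a => exact ⟨1, C (C a), one_ne_zero, by simp [TailB_sub, TailB_CC]⟩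
  | hX => exact ⟨u, C X - C (C r), hu, by simp [TailB_sub, TailB_CC, TailB_CX]⟩
  | hY =>
    refine ⟨v, X - C (C t) - C (C s) * (C X - C (C r)), hv, ?_⟩
    simp only [TailB_sub, map_sub, map_mul, map_add, TailB_CC, TailB_CX, TailB_X,
      RingHom.comp_apply]
    ring
  | ha F G h h' =>
    obtain ⟨o, F', h0, h⟩ := h
    obtain ⟨o', G', h0', h'⟩ := h'
    refine ⟨o * o', C (C o') * F' + C (C o) * G', mul_ne_zero h0 h0', ?_⟩
    rw [map_add, map_mul, map_mul, h, h', TailB_sub, TailB_CC, TailB_CC, map_mul, map_mul,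
      RingHom.comp_apply, RingHom.comp_apply]
    ring
  | hm F G h h' =>
    obtain ⟨o, F', h0, h⟩ := h
    obtain ⟨o', G', h0', h'⟩ := h'
    refine ⟨o * o', F' * G', mul_ne_zero h0 h0', ?_⟩
    rw [map_mul, h, h', map_mul, map_mul]
    ring

/-- The subring generated by the image of `e` and the inverse of `e S`. -/
theorem TailB_loc {L : Type u} [Field L] (e : R →+* L) (S : R) (hS : e S ≠ 0) :
    ∃ (B : Subring L) (j : R →+* B), (∀ G, (j G : L) = e G) ∧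
      (∀ (f : L) (G : R), e S * f = e G → f ∈ B) ∧ (∀ f : B, ∃ n G, f * j S ^ n = j G) ∧
      IsUnit (j S) ∧ ∀ (A : Type u) [CommRing A] (ψ : R →+* A), (∀ G, e G = 0 → ψ G = 0) →
        IsUnit (ψ S) → ∃ ψ' : B →+* A, ∀ G, ψ' (j G) = ψ G := by
  let φ : Localization.Away S →+* L := IsLocalization.Away.lift S hS.isUnit
  have h1 : ∀ G, φ (algebraMap R _ G) = e G := IsLocalization.Away.lift_eq S hS.isUnit
  have hu := IsLocalization.Away.algebraMap_isUnit (S := Localization.Away S) S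
  refine ⟨φ.range, φ.rangeRestrict.comp (algebraMap R _), h1, fun f G h => ?_, fun f => ?_,
    hu.map φ.rangeRestrict, fun A _ ψ hψ hψS => ?_⟩
  · obtain ⟨w, hw⟩ := hu.exists_right_inv
    refine ⟨w * algebraMap R _ G, mul_left_cancel₀ hS ?_⟩
    rw [h, ← h1 S, ← map_mul, ← mul_assoc, hw, one_mul, h1]
  · obtain ⟨g, rfl⟩ := φ.rangeRestrict_surjective f
    obtain ⟨n, G, h⟩ := IsLocalization.Away.surj S g
    exact ⟨n, G, by rw [RingHom.comp_apply, RingHom.comp_apply, ← map_pow, ← map_mul, h]⟩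
  · refine ⟨φ.rangeRestrict.liftOfSurjective φ.rangeRestrict_surjective
      ⟨IsLocalization.Away.lift S hψS, fun g hg => ?_⟩, fun G => ?_⟩
    · obtain ⟨n, G, h⟩ := IsLocalization.Away.surj S g
      have h2 : φ g = 0 := congrArg Subtype.val hg
      have h3 := congrArg φ h
      have h4 := congrArg (IsLocalization.Away.lift S hψS) h
      rw [map_mul, h2, zero_mul, h1] at h3
      rw [map_mul, map_pow, IsLocalization.Away.lift_eq, IsLocalization.Away.lift_eq,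
        hψ G h3.symm] at h4
      exact (hψS.pow n).mul_left_eq_zero.1 h4
    · rw [RingHom.comp_apply, RingHom.liftOfSurjective_comp_apply]
      exact IsLocalization.Away.lift_eq S hψS G

end Ev

section Val

variable {K L : Type u} [Field K] [Field L] [Algebra K L] [IsAlgClosed K] [Fact (IsFF K L)]

/-- The value at a place as a ring homomorphism. -/
noncomputable def TailB_valH (P : Place K L) : P.1 →+* K where
  toFun f := P.val f
  map_one' := by simpa using Place.val_const (P := P) 1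
  map_mul' f g := Place.val_mul f.2 g.2
  map_zero' := by simpa using Place.val_const (P := P) 0
  map_add' f g := Place.val_add f.2 g.2

theorem TailB_val {R : Type u} [CommRing R] (P : Place K L) (φ : R →+* K) {x y : L} (hx : x ∈ P.1)
    (hy : y ∈ P.1) (G : R[X][X]) : ev2 ((algebraMap K L).comp φ) x y G ∈ P.1 ∧
      P.val (ev2 ((algebraMap K L).comp φ) x y G) = ev2 φ (P.val x) (P.val y) G := by
  induction G using TailB_ind with
  | hC a => exact ⟨by rw [TailB_CC]; exact P.2.2 _, by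
      rw [TailB_CC, TailB_CC]; exact Place.val_const _⟩
  | hX => simp only [TailB_CX, hx, and_self]
  | hY => simp only [TailB_X, hy, and_self]
  | ha F G h h' =>
    rw [map_add, map_add, Place.val_add h.1 h'.1, h.2, h'.2]
    exact ⟨add_mem h.1 h'.1, rfl⟩
  | hm F G h h' =>
    rw [map_mul, map_mul, Place.val_mul h.1 h'.1, h.2, h'.2]
    exact ⟨mul_mem h.1 h'.1, rfl⟩

theorem TailB_val_sub {P : Place K L} {f : L} (hf : f ∈ P.1) (c : K) :
    f - algebraMap K L c ∈ P.1 ∧ P.val (f - algebraMap K L c) = P.val f - c := by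
  refine ⟨sub_mem hf (P.2.2 c), ?_⟩
  rw [sub_eq_add_neg, ← map_neg, Place.val_add hf (P.2.2 _), Place.val_const, sub_eq_add_neg]

theorem TailB_val_pow {P : Place K L} {f : L} (hf : f ∈ P.1) (n : ℕ) :
    P.val (f ^ n) = P.val f ^ n := map_pow (TailB_valH P) ⟨f, hf⟩ n

theorem TailB_ord {P : Place K L} {g : L} (hg : g ∈ P.1) (h : P.val g ≠ 0) :
    g ≠ 0 ∧ P.ord g = 0 := by
  have h1 := mt (Place.val_eq_zero hg).2 h
  rw [Place.Ge, not_or] at h1
  have h2 := (P.mem_iff.1 hg).resolve_left h1.1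
  exact ⟨h1.1, by omega⟩

theorem TailB_div {P : Place K L} {f g : L} (hg : g ∈ P.1) (h : P.val g ≠ 0) (hf : f * g ∈ P.1) :
    f ∈ P.1 := by
  obtain ⟨h1, h2⟩ := TailB_ord hg h
  rw [← mul_inv_cancel_right₀ h1 f]
  exact mul_mem hf (P.mem_iff.2 (Or.inr (by rw [P.ord_inv h1, h2, neg_zero])))

theorem TailB_lin {P : Place K L} {f g : L} {b : K} (hb : b ≠ 0) (hg : g ∈ P.1)
    (h : g + algebraMap K L b * f ∈ P.1) :
    f ∈ P.1 ∧ P.val (g + algebraMap K L b * f) = P.val g + b * P.val f := by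
  have h1 : f ∈ P.1 := TailB_div (P.2.2 b) (by rwa [Place.val_const])
    (by rw [mul_comm]; exact (add_mem_cancel_left hg).1 h)
  exact ⟨h1, by rw [Place.val_add hg (mul_mem (P.2.2 b) h1), Place.val_mul (P.2.2 b) h1,
    Place.val_const]⟩

theorem TailB_frac {R B : Type u} [CommRing R] [CommRing B] {j : R →+* B} {S : R}
    (hj : ∀ f : B, ∃ n G, f * j S ^ n = j G) (P : Place K L) (ρ : B →+* L) (θ : B →+* K)
    (h : ∀ G, ρ (j G) ∈ P.1 ∧ P.val (ρ (j G)) = θ (j G)) (hS : θ (j S) ≠ 0) (f : B) :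
    ρ f ∈ P.1 ∧ P.val (ρ f) = θ f := by
  obtain ⟨n, G, hG⟩ := hj f
  have h1 := h G
  have h2 := TailB_val_pow (h S).1 n
  rw [← hG, map_mul, map_mul, map_pow, map_pow] at h1
  rw [(h S).2] at h2
  have h3 := TailB_div (pow_mem (h S).1 n) (h2 ▸ pow_ne_zero n hS) h1.1
  rw [Place.val_mul h3 (pow_mem (h S).1 n), h2] at h1
  exact ⟨h3, mul_right_cancel₀ (pow_ne_zero n hS) h1.2⟩

end Val

section Content

variable {κ : Type u} [Field κ]

theorem TailB_dvd {a b : HO κ} (ha : a ≠ 0) (h : hv a.1 ≤ hv b.1) : a ∣ b := by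
  have h0 : a.1 ≠ 0 := fun e => ha (Subtype.ext e)
  exact ⟨⟨b.1 / a.1, (Hahn_div h0).2 h⟩, Subtype.ext (mul_div_cancel₀ _ h0).symm⟩

theorem TailB_red_ne {H : (HO κ)[X][X]} :
    H.map (mapRingHom (red κ)) ≠ 0 ↔ ∃ j i, IsUnit ((H.coeff j).coeff i) := by
  simp only [Model_unit, Ne, Polynomial.ext_iff, coeff_map, coe_mapRingHom, coeff_zero, not_forall]

theorem TailB_content {H : (HO κ)[X][X]} (h : H ≠ 0) :
    ∃ c H₀, H = C (C c) * H₀ ∧ H₀.map (mapRingHom (red κ)) ≠ 0 := by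
  obtain ⟨⟨j, i⟩, h1, h2⟩ := Finset.exists_min_image (H.support.sigma fun j => (H.coeff j).support)
    (fun p => hv ((H.coeff p.1).coeff p.2).1) (by
      obtain ⟨j, hj⟩ := support_nonempty.2 h
      obtain ⟨i, hi⟩ := support_nonempty.2 (mem_support_iff.1 hj)
      exact ⟨⟨j, i⟩, Finset.mem_sigma.2 ⟨hj, hi⟩⟩)
  have h3 : (H.coeff j).coeff i ≠ 0 := mem_support_iff.1 (Finset.mem_sigma.1 h1).2
  obtain ⟨H₀, h4⟩ : C (C ((H.coeff j).coeff i)) ∣ H := by
    refine (C_dvd_iff_dvd_coeff _ _).2 fun j' => (C_dvd_iff_dvd_coeff _ _).2 fun i' => ?_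
    by_cases h5 : (H.coeff j').coeff i' = 0
    · rw [h5]
      exact dvd_zero _
    · exact TailB_dvd h3 (h2 ⟨j', i'⟩ (Finset.mem_sigma.2 ⟨mem_support_iff.2 fun e =>
        h5 (by rw [e, coeff_zero]), mem_support_iff.2 h5⟩))
  refine ⟨_, H₀, h4, TailB_red_ne.2 ⟨j, i, ?_⟩⟩
  have h5 := congrArg (fun G => (coeff G j).coeff i) h4
  simp only [coeff_C_mul] at h5
  rw [(mul_eq_left₀ h3).1 h5.symm]
  exact isUnit_one

theorem TailB_gauss {Q G : (HO κ)[X][X]} (hQ : Q.map (mapRingHom (red κ)) ≠ 0) {o : HO κ}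
    (ho : o ≠ 0) (h : Q ∣ C (C o) * G) : Q ∣ G := by
  obtain ⟨H, h⟩ := h
  have h0 : (C (C o) : (HO κ)[X][X]) ≠ 0 := C_ne_zero.2 (C_ne_zero.2 ho)
  by_cases hH : H = 0
  · rw [hH, mul_zero] at h
    rw [(mul_eq_zero.1 h).resolve_left h0]
    exact dvd_zero _
  obtain ⟨c, H₀, rfl, h1⟩ := TailB_content hH
  obtain ⟨j, i, h2⟩ := (TailB_red_ne (H := Q * H₀)).1 (by
    rw [Polynomial.map_mul]; exact mul_ne_zero hQ h1)
  rw [mul_left_comm] at h
  have h3 := congrArg (fun G => (coeff G j).coeff i) h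
  simp only [coeff_C_mul] at h3
  obtain ⟨c', rfl⟩ : o ∣ c := (h2.dvd_mul_right).1 ⟨_, h3.symm⟩
  refine ⟨C (C c') * H₀, mul_left_cancel₀ h0 ?_⟩
  rw [h, map_mul, map_mul]
  ring

end Content

end PR0
end

-- merged part: Pool.Agent.Work.MP_da2620_ag.TailB
section
/-!
# The elliptic tail: reduction map and sections

Apply `exists_disk` to `P`, and put `ξ = (x - a - r) / u`, `η = (y - t - s u ξ) / v`, so `Q(ξ, η) = 0`.  If `G ∈ O[X, Y]`
and `G(ξ, η) = 0` then `Q ∣ G` over `K` (`Eqn.ker`, the substitution is an automorphism of `K[X, Y]`), so over `O` since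
`Q̄ ≠ 0` (scale the cofactor to be primitive; a product of two polynomials with nonzero reductions has nonzero
reduction).  So `ρ : O[ξ, η] → E` is well defined; let `B = O[ξ, η][1 / s(x - a)]` with `s` from `Eqn.gen`
(`ρ (s(x - a)) = s̄(0) ≠ 0`).  For `RdC f f₀`: `s f = h(x - a, y)`; `ρ` sends `x - a`, `y` to `0`, and reducing the identity
in the model gives `s̄(0) f₀(q) = h̄(0, 0)`.
Choose `c`, `y i` by `exists_fibre`.  `Q(c, Y)` reduces to `(Y - y 0)(Y - y 1)`, so it has roots `η i ∈ O` with these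
residues (factor over the algebraically closed field: `Q(c, Y) = γ ∏ (Y - ζ) ∏ (1 - Y / ζ)`, integral and non integral
roots).  `σ i` is evaluation at `(c, η i)`; `Q = (X - c) Q₁ + (Y - η i) Q₂` with `Q₂(c, η i)` a unit, `s i = Q₂(ξ, η)`.
With `α = r + u c`, `P(α, Y) = (Y - y₊)(Y - y₋) R(Y)`, `R̄(0) ≠ 0` by `h1`; `m = R(y)`.  A place with `x - a = α` is
determined by the value of `y` (`Eqn.gen`, `exists_smul`, `exists_place_of_hom`).
-/

namespace PR0

open Polynomial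

universe u

variable {κ : Type u} [Field κ] [IsAlgClosed κ] {ι : Type} [Fintype ι] [DecidableEq ι] [Nonempty ι]
  {J : Finset (ι × ℕ)} {L L' : Type u} [Field L] [Algebra (HF κ) L] [Fact (IsFF (HF κ) L)]
  [Field L'] [Algebra κ L'] [Fact (IsFF κ L')]

/-- The data of the tail.  `z = ξ - c`, and `y' = v η`. -/
structure TailD (𝒜 : Subalgebra (HO κ) (LT ι (HO κ))) (d : CD (HF κ) L ι) (d' : CD κ L' ι)
    (q : Place κ L') where
  W : WeierstrassCurve κ
  E : FFd κ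
  X : E.L
  Y : E.L
  wei : IsWei W X Y
  ncusp : ¬ Cuspidal W
  c : κ
  yv : Fin 2 → κ
  yne : yv 0 ≠ yv 1
  fib : W.toAffine.polynomial.map (evalRingHom c) =
    (Polynomial.X - C (yv 0)) * (Polynomial.X - C (yv 1))
  B : Subring L
  ρ : B →+* E.L
  z : B
  η : B
  u : HO κ
  v : HO κ
  α : HO κ
  u0 : u ≠ 0
  v0 : v ≠ 0
  ru : hres u = 0
  uv : 3 • hv u.1 = 2 • hv v.1
  rα : hres α = q.val d'.x
  hz : oL κ L u * z = d.x - oL κ L α
  ρz : ρ z = X - algebraMap κ _ c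
  ρη : ρ η = Y
  y₀ : L'
  rdy : RdC 𝒜 d d' (oL κ L v * η) y₀
  y₀ne : y₀ ≠ 0
  ordy : q.ord y₀ = 3
  mem : ∀ f f₀, RdC 𝒜 d d' f f₀ → ∃ hf : f ∈ B, ρ ⟨f, hf⟩ = algebraMap κ _ (q.val f₀)
  σ : Fin 2 → B →+* HO κ
  σo : ∀ i o (h : oL κ L o ∈ B), σ i ⟨_, h⟩ = o
  σz : ∀ i, σ i z = 0
  σρ : ∀ i (Q : Place κ E.L), X ∈ Q.1 → Q.val X = c → Q.val Y = yv i →
    ∀ f : B, ρ f ∈ Q.1 ∧ Q.val (ρ f) = hres (σ i f)
  σker : ∀ i, ∃ s : B, hres (σ i s) ≠ 0 ∧ ∀ f : B, σ i f = 0 → ∃ g : B, s * f = z * g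
  P : Fin 2 → Place (HF κ) L
  Pval : ∀ i (f : B), (f : L) ∈ (P i).1 ∧ (P i).val (f : L) = σ i f
  Pord : ∀ i, (P i).ord (z : L) = 1
  m : L
  m₀ : L'
  rdm : RdC 𝒜 d d' m m₀
  mq : q.val m₀ ≠ 0
  moth : ∀ Q : Place κ L', Q ≠ q → d'.x ∈ Q.1 → Q.val d'.x = q.val d'.x → Q.val m₀ = 0
  mP : ∀ Q : Place (HF κ) L, (∀ i, Q ≠ P i) → d.x ∈ Q.1 → Q.val d.x = α → Q.val m = 0

variable {𝒜 : Subalgebra (HO κ) (LT ι (HO κ))} {d : CD (HF κ) L ι} {d' : CD κ L' ι} {q : Place κ L'}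

omit [Nonempty ι] in
/-- roots of a polynomial over `O` reduce onto the roots of a nonzero reduction -/
theorem exists_root_lift (Q : (HO κ)[X]) (h : Q.map (red κ) ≠ 0) {y : κ}
    (hy : (Q.map (red κ)).eval y = 0) : ∃ η : HO κ, Q.eval η = 0 ∧ hres η = y := by
  by_contra hc
  have hy' : red κ (cO y) = y := (hres : HO κ →ₐ[κ] κ).commutes y
  have key : ∃ H : (HO κ)[X], Q.map (inc κ) =
      C ((Q.map (inc κ)).eval (inc κ (cO y))) * H.map (inc κ) := by
    rw [(IsAlgClosed.splits (Q.map (inc κ))).eq_prod_roots, ← Multiset.prod_cons]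
    refine Multiset.prod_induction (fun p : (HF κ)[X] => ∃ H : (HO κ)[X],
      p = C (p.eval (inc κ (cO y))) * H.map (inc κ)) _ ?_ ⟨1, by simp⟩ fun p hp => ?_
    · rintro p p' ⟨H, hH⟩ ⟨H', hH'⟩
      refine ⟨H * H', ?_⟩
      rw [eval_mul, map_mul, Polynomial.map_mul, mul_mul_mul_comm, ← hH, ← hH']
    rcases Multiset.mem_cons.1 hp with rfl | hp
    · exact ⟨1, by simp⟩
    obtain ⟨ζ, hζ, rfl⟩ := Multiset.mem_map.1 hp
    have h1 : hv (inc κ (cO y) - ζ) ≤ 0 := not_lt.1 fun h1 => by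
      refine hc ⟨cO y - ⟨_, h1.le⟩, Model_inc_inj ?_, ?_⟩
      · have h2 : inc κ (cO y - ⟨_, h1.le⟩) = ζ := by
          rw [map_sub]
          exact sub_sub_cancel _ _
        rw [← eval₂_at_apply, ← eval_map, h2, map_zero]
        exact (mem_roots'.1 hζ).2
      · rw [map_sub, (hres_eq_zero (x := ⟨_, h1.le⟩)).2 h1, sub_zero]
        exact hy'
    have h2 : inc κ (cO y) - ζ ≠ 0 := fun e => by
      rw [hv_eq_top.2 e] at h1
      exact absurd h1 (by simp)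
    refine ⟨1 + C ⟨1 / (inc κ (cO y) - ζ), (Hahn_div h2).2 (h1.trans_eq hv_one.symm)⟩ *
      (X - C (cO y)), ?_⟩
    rw [Polynomial.map_add, Polynomial.map_mul, Polynomial.map_sub, Polynomial.map_one, map_C,
      map_C, map_X, eval_sub, eval_X, eval_C, mul_add, ← mul_assoc, ← map_mul]
    erw [mul_one_div_cancel h2]
    rw [map_sub, map_one]
    ring
  obtain ⟨H, hH⟩ := key
  rw [eval_map, eval₂_at_apply, ← map_C, ← Polynomial.map_mul] at hH
  refine h ?_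
  rw [← hy', eval_map, eval₂_at_apply] at hy
  rw [map_injective _ Model_inc_inj hH, Polynomial.map_mul, map_C, hy, map_zero, zero_mul]

section Aux

variable {y : L} {y₀ : L'} {P : (HO κ)[X][X]}

theorem TailB_rd (h : CuspMod J 𝒜 d d' q) (hy : RdC 𝒜 d d' y y₀) (G : (HO κ)[X][X]) :
    RdC 𝒜 d d' (ev2 (oL κ L) (d.x - oL κ L (cO (q.val d'.x))) y G)
      (ev2 ((algebraMap κ L').comp (red κ)) (d'.x - algebraMap κ L' (q.val d'.x)) y₀ G) := by
  induction G using TailB_ind with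
  | hC a =>
    rw [TailB_CC, TailB_CC]
    exact RdC.const a
  | hX =>
    have h1 := h.rd_x.add (RdC.const (-cO (q.val d'.x)))
    rw [map_neg, map_neg, map_neg, ← sub_eq_add_neg, ← sub_eq_add_neg,
      show red κ (cO (q.val d'.x)) = _ from (hres : HO κ →ₐ[κ] κ).commutes _] at h1
    rwa [TailB_CX, TailB_CX]
  | hY => rwa [TailB_X, TailB_X]
  | ha F G h1 h2 =>
    rw [map_add, map_add]
    exact h1.add h2
  | hm F G h1 h2 =>
    rw [map_mul, map_mul]
    exact h1.mul h2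

theorem TailB_over (h : CuspMod J 𝒜 d d' q) (hy : RdC 𝒜 d d' y y₀) {Q : Place κ L'}
    (hx : d'.x ∈ Q.1) (hx' : Q.val d'.x = q.val d'.x) (G : (HO κ)[X][X]) :
    Q.val (ev2 ((algebraMap κ L').comp (red κ)) (d'.x - algebraMap κ L' (q.val d'.x)) y₀ G) =
      ev2 (red κ) 0 (Q.val y₀) G := by
  obtain ⟨h1, h2⟩ := TailB_val_sub hx (q.val d'.x)
  rw [(TailB_val Q (red κ) h1 (Comb_mem d' hx (h.mem_of_rd hy).2.1) G).2, h2, hx', sub_self]

theorem TailB_at (h : CuspMod J 𝒜 d d' q) (e : Eqn 𝒜 d d' q y y₀ P) (G : (HO κ)[X][X]) :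
    q.val (ev2 ((algebraMap κ L').comp (red κ)) (d'.x - algebraMap κ L' (q.val d'.x)) y₀ G) =
      ev2 (red κ) 0 0 G := by
  rw [TailB_over h e.rd h.x2.1 rfl, (Place.val_eq_zero (h.mem_of_rd e.rd).2.2.1).2
    (Or.inr (by rw [e.ord]; norm_num))]

omit [IsAlgClosed κ] [Fintype ι] [DecidableEq ι] [Nonempty ι] [Fact (IsFF (HF κ) L)]
  [Fact (IsFF κ L')] in
theorem TailB_ker (e : Eqn 𝒜 d d' q y y₀ P) (G : (HO κ)[X][X]) :
    ev2 (oL κ L) (d.x - oL κ L (cO (q.val d'.x))) y G = 0 ↔ P ∣ G := by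
  rw [← TailB_map, e.ker, map_dvd_map _ (map_injective _ Model_inc_inj) e.monic]

theorem TailB_den (h : CuspMod J 𝒜 d d' q) (e : Eqn 𝒜 d d' q y y₀ P) {s : (HO κ)[X]}
    (hs : red κ (s.coeff 0) ≠ 0) : ev2 (oL κ L) (d.x - oL κ L (cO (q.val d'.x))) y (C s) ≠ 0 := by
  intro h0
  have h1 := TailB_rd h e.rd (C s)
  have h2 := RdC.const (𝒜 := 𝒜) (d := d) (d' := d') 0
  rw [h0] at h1
  rw [map_zero, map_zero, map_zero] at h2
  have h3 := TailB_at h e (C s)
  rw [h1.unique h2, TailB_zero, coeff_C_zero, ← map_zero (algebraMap κ L'), Place.val_const] at h3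
  exact hs h3.symm

theorem TailB_place (h : CuspMod J 𝒜 d d' q) (e : Eqn 𝒜 d d' q y y₀ P) {x₁ : HO κ} {y₁ : HF κ}
    (hx : hres x₁ = 0) (hP : ev2 (inc κ) (inc κ x₁) y₁ P = 0) :
    ∃! Q : Place (HF κ) L, d.x ∈ Q.1 ∧ Q.val (d.x - oL κ L (cO (q.val d'.x))) = inc κ x₁ ∧
      Q.val y = y₁ := by
  obtain ⟨s, hs, hg⟩ := e.gen
  set x := d.x - oL κ L (cO (q.val d'.x)) with hx'
  have hy := (h.mem_of_rd e.rd).1
  have hxm : x ∈ d.reg := sub_mem d.x_mem (d.reg.algebraMap_mem _)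
  have hS : ev2 (algebraMap (HF κ) L) x y ((C s).map (mapRingHom (inc κ))) ≠ 0 := by
    rw [TailB_map]
    exact TailB_den h e hs
  have hS' : ev2 (RingHom.id (HF κ)) (inc κ x₁) y₁ ((C s).map (mapRingHom (inc κ))) ≠ 0 := by
    rw [TailB_map, TailB_C, RingHom.id_comp, eval₂_at_apply]
    refine (map_ne_zero_iff _ Model_inc_inj).2 fun h0 => hs ?_
    have h1 := eval₂_at_apply (p := s) (red κ) x₁
    rwa [h0, map_zero, show red κ x₁ = 0 from hx, eval₂_at_zero] at h1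
  have hK : ∀ f ∈ d.reg, ∃ G, ev2 (algebraMap (HF κ) L) x y ((C s).map (mapRingHom (inc κ))) * f =
      ev2 (algebraMap (HF κ) L) x y G := fun f hf => by
    obtain ⟨o, f₀, ho, h1⟩ := h.exists_smul hf
    obtain ⟨G, hG⟩ := hg _ _ h1
    have h2 : algebraMap (HF κ) L (inc κ o) ≠ 0 :=
      (_root_.map_ne_zero _).2 ((map_ne_zero_iff _ Model_inc_inj).2 ho)
    refine ⟨C (C (inc κ o)⁻¹) * G.map (mapRingHom (inc κ)), ?_⟩
    rw [map_mul, TailB_CC, TailB_map, TailB_map, TailB_C, ← hG, map_inv₀, RingHom.comp_apply]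
    field_simp
  obtain ⟨B, j, j1, j2, -, -, j5⟩ := TailB_loc _ _ hS
  obtain ⟨ψ, hψ⟩ := j5 _ (ev2 (RingHom.id (HF κ)) (inc κ x₁) y₁) (fun G hG => by
    obtain ⟨H, rfl⟩ := (e.ker G).1 hG
    rw [map_mul, TailB_map, RingHom.id_comp, hP, zero_mul]) hS'.isUnit
  have hB : ∀ f : d.reg, (f : L) ∈ B := fun f => (hK f f.2).elim fun G hG => j2 _ G hG
  have hψ' : ∀ (f : d.reg) (G), (f : L) = ev2 (algebraMap (HF κ) L) x y G →
      ψ ⟨f, hB f⟩ = ev2 (RingHom.id (HF κ)) (inc κ x₁) y₁ G := fun f G hG => by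
    rw [← hψ]
    exact congrArg ψ (Subtype.ext (hG.trans (j1 G).symm))
  let σ : d.reg →ₐ[HF κ] HF κ :=
    { toRingHom := ψ.comp ((d.reg.val : d.reg →+* L).codRestrict B hB)
      commutes' := fun c => (hψ' _ (C (C c)) (TailB_CC _ _ _ _).symm).trans (TailB_CC _ _ _ _) }
  have hpl : ∀ Q : Place (HF κ) L, Q ∉ Set.range d.pl ↔ d.x ∈ Q.1 := fun Q => by
    rw [← d.poles_eq]
    exact not_not
  obtain ⟨Q, ⟨q1, q2⟩, q3⟩ := exists_place_of_hom (Set.finite_range d.pl)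
    (Set.range_nonempty _) σ
  refine ⟨Q, ⟨(hpl Q).1 q1, ?_, ?_⟩, fun Q' hQ' => q3 Q' ⟨(hpl Q').2 hQ'.1, fun f => ?_⟩⟩
  · exact (q2 ⟨x, hxm⟩).symm.trans
      ((hψ' ⟨x, hxm⟩ (C X) (TailB_CX _ _ _).symm).trans (TailB_CX _ _ _))
  · exact (q2 ⟨y, hy⟩).symm.trans ((hψ' ⟨y, hy⟩ X (TailB_X _ _ _).symm).trans (TailB_X _ _ _))
  · obtain ⟨G, hG⟩ := hK f f.2
    have h1 := fun G => TailB_val Q' (RingHom.id _) (Comb_mem d hQ'.1 hxm) (Comb_mem d hQ'.1 hy) G
    rw [RingHom.comp_id, hQ'.2.1, hQ'.2.2] at h1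
    refine mul_left_cancel₀ hS' ?_
    rw [← (h1 _).2, ← Place.val_mul (h1 _).1 (Comb_mem d hQ'.1 f.2), hG, (h1 _).2, (h1 _).2,
      ← hψ, ← hψ]
    refine (map_mul ψ _ _).symm.trans (congrArg ψ (Subtype.ext ?_))
    exact (congrArg (· * (f : L)) (j1 _)).trans (hG.trans (j1 G).symm)

theorem TailB_mem (h : CuspMod J 𝒜 d d' q) (e : Eqn 𝒜 d d' q y y₀ P) {s : (HO κ)[X]}
    {f : L} {f₀ : L'} (hf : RdC 𝒜 d d' f f₀) {G : (HO κ)[X][X]}
    (hG : ev2 (oL κ L) (d.x - oL κ L (cO (q.val d'.x))) y (C s) * f =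
      ev2 (oL κ L) (d.x - oL κ L (cO (q.val d'.x))) y G) :
    ev2 (red κ) 0 0 (C s) * q.val f₀ = ev2 (red κ) 0 0 G := by
  have h1 := (TailB_rd h e.rd (C s)).mul hf
  rw [hG] at h1
  rw [← TailB_at h e, ← TailB_at h e, ← h1.unique (TailB_rd h e.rd G),
    Place.val_mul (h.mem_of_rd (TailB_rd h e.rd _)).2.2.1 (h.mem_of_rd hf).2.2.1]

/-- The function `m`. -/
theorem TailB_m (h : CuspMod J 𝒜 d d' q) (e : Eqn 𝒜 d d' q y y₀ P) {x₁ : HO κ} (hx : hres x₁ = 0)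
    {y₁ : Fin 2 → HO κ} (hy : ∀ i, hres (y₁ i) = 0) (hne : y₁ 0 ≠ y₁ 1)
    (hP : ∀ i, ev2 (RingHom.id _) x₁ (y₁ i) P = 0) : ∃ m m₀, RdC 𝒜 d d' m m₀ ∧ q.val m₀ ≠ 0 ∧
      (∀ Q : Place κ L', Q ≠ q → d'.x ∈ Q.1 → Q.val d'.x = q.val d'.x → Q.val m₀ = 0) ∧
      ∀ Q : Place (HF κ) L, d.x ∈ Q.1 → Q.val (d.x - oL κ L (cO (q.val d'.x))) = inc κ x₁ →
        (∀ i, Q.val y ≠ inc κ (y₁ i)) → Q.val m = 0 := by
  have h1 : ∀ i, (P.map (evalRingHom x₁)).eval (y₁ i) = 0 := fun i => by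
    rw [← eval₂_id, ← TailB_eval]
    exact hP i
  obtain ⟨p, hp⟩ := dvd_iff_isRoot.2 (h1 0)
  obtain ⟨R, rfl⟩ : X - C (y₁ 1) ∣ p := by
    have h2 := h1 1
    rw [hp, eval_mul, eval_sub, eval_X, eval_C] at h2
    exact dvd_iff_isRoot.2 ((mul_eq_zero.1 h2).resolve_left (sub_ne_zero.2 hne.symm))
  have h2 : ∀ {A : Type u} [CommRing A] (φ : HO κ →+* A) (b : A), ev2 φ (φ x₁) b P =
      (b - φ (y₁ 0)) * ((b - φ (y₁ 1)) * ev2 φ (φ x₁) b (R.map C)) := fun φ b => by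
    rw [TailB_eval, hp, TailB_mapC, eval₂_mul, eval₂_mul, eval₂_sub, eval₂_sub, eval₂_X, eval₂_C,
      eval₂_C]
  have hx' : red κ x₁ = 0 := hx
  have hy' : ∀ i, red κ (y₁ i) = 0 := hy
  have hP0 := (TailB_ker e P).2 dvd_rfl
  refine ⟨_, _, TailB_rd h e.rd (R.map C), ?_, fun Q q1 q2 q3 => ?_, fun Q q1 q2 q3 => ?_⟩
  · rw [TailB_at h e, TailB_mapC, eval₂_at_zero]
    intro h3
    have h4 := congrArg (fun p => (p.map (red κ)).coeff 2) hp
    simp only [Polynomial.map_mul, Polynomial.map_sub, map_X, map_C, hy', map_zero, sub_zero,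
      coeff_X_mul, coeff_map, h3, coe_evalRingHom] at h4
    rw [← eval₂_at_apply, hx', eval₂_at_zero] at h4
    exact e.h1 h4
  · have h3 := TailB_rd h e.rd P
    have h4 := RdC.const (𝒜 := 𝒜) (d := d) (d' := d') 0
    have h5 := TailB_over h e.rd q2 q3 P
    have h6 := h2 (red κ) (Q.val y₀)
    have h7 := e.oth Q q1 q2 q3
    rw [hP0] at h3
    rw [map_zero, map_zero, map_zero] at h4
    rw [h3.unique h4, ← map_zero (algebraMap κ L'), Place.val_const] at h5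
    rw [hx', hy', hy', sub_zero, ← h5] at h6
    rw [TailB_over h e.rd q2 q3]
    exact (mul_eq_zero.1 ((mul_eq_zero.1 h6.symm).resolve_left h7)).resolve_left h7
  · have h3 := fun G => (TailB_val Q (inc κ) (sub_mem q1 (Q.2.2 (inc κ (cO (q.val d'.x)))))
      (Comb_mem d q1 (h.mem_of_rd e.rd).1) G).2
    have h4 := h3 P
    have h5 := h2 (inc κ) (Q.val y)
    erw [hP0, q2] at h4
    rw [← map_zero (algebraMap (HF κ) L), Place.val_const] at h4
    rw [← h4] at h5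
    refine (h3 _).trans ?_
    erw [q2]
    exact (mul_eq_zero.1 ((mul_eq_zero.1 h5.symm).resolve_left
      (sub_ne_zero.2 (q3 0)))).resolve_left (sub_ne_zero.2 (q3 1))

/-- The order of the parameter of a section. -/
theorem TailB_one (h : CuspMod J 𝒜 d d' q) {B : Subring L}
    (hB : ∀ f f₀, RdC 𝒜 d d' f f₀ → f ∈ B) {σ : B →+* HO κ} {Q : Place (HF κ) L} (hx : d.x ∈ Q.1)
    (hQ : ∀ f : B, (f : L) ∈ Q.1 ∧ Q.val (f : L) = σ f) {z s : B} (hz : σ z = 0) (hs : σ s ≠ 0)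
    (hk : ∀ f : B, σ f = 0 → ∃ g : B, s * f = z * g) : Q.ord (z : L) = 1 := by
  have h1 : Q.Ge Q.unif 1 := Or.inr Q.ord_unif.ge
  have h2 : Q.unif ∈ Q.1 := Q.mem_iff.2 (h1.mono zero_le_one)
  obtain ⟨s', s1, s2, s3⟩ := exists_den_place (Set.finite_range d.pl) (Set.range_nonempty _)
    (P := Q) (by rw [← d.poles_eq]; exact not_not.2 hx) h2
  obtain ⟨o, f₀, ho, h3⟩ := h.exists_smul s3
  have s4 := Comb_mem d hx s1
  obtain ⟨g, hg⟩ := hk ⟨_, hB _ _ h3⟩ (Subtype.ext ((hQ _).2.symm.trans (by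
    refine (Place.val_mul (Q.2.2 (inc κ o)) (mul_mem s4 h2)).trans ?_
    rw [Place.val_mul s4 h2, (Place.val_eq_zero h2).2 h1, mul_zero, mul_zero]
    rfl)))
  have hg' : (s : L) * (oL κ L o * (s' * Q.unif)) = z * g := congrArg Subtype.val hg
  obtain ⟨a1, a2⟩ := TailB_ord (hQ s).1 (by rw [(hQ s).2]; exact fun e => hs (Subtype.ext e))
  obtain ⟨b1, b2⟩ := TailB_ord (Q.2.2 (inc κ o)) (by
    rw [Place.val_const]; exact fun e => ho (Subtype.ext e))
  obtain ⟨c1, c2⟩ := TailB_ord s4 s2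
  have d1 := mul_ne_zero c1 Q.unif_ne_zero
  have d2 := mul_ne_zero a1 (mul_ne_zero b1 d1)
  have d3 := Q.ord_mul a1 (mul_ne_zero b1 d1)
  rw [Q.ord_mul b1 d1, Q.ord_mul c1 Q.unif_ne_zero, a2, b2, c2, Q.ord_unif] at d3
  erw [hg'] at d2 d3
  obtain ⟨d4, d5⟩ := mul_ne_zero_iff.1 d2
  rw [Q.ord_mul d4 d5] at d3
  have d6 := (Q.mem_iff.1 (hQ g).1).resolve_left d5
  have d7 := ((Place.val_eq_zero (hQ z).1).1 (by rw [(hQ z).2, hz]; rfl)).resolve_left d4
  omega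

omit [IsAlgClosed κ] [Nonempty ι] in
theorem TailB_wei {E : Type u} [Field E] [Algebra κ E] [Fact (IsFF κ E)] {W : WeierstrassCurve κ}
    {X Y : E} (h : IsWei W X Y) : ev2 (algebraMap κ E) X Y W.toAffine.polynomial = 0 ∧
      ∀ Q : Place κ E, X ∈ Q.1 → Y ∈ Q.1 := by
  have h1 := (h.ker _).2 dvd_rfl
  rw [aeval_def, eval₂_map] at h1
  refine ⟨h1, fun Q hQ => ?_⟩
  let φ : κ[X] →+* Q.1 := (aeval X : κ[X] →ₐ[κ] E).toRingHom.codRestrict Q.1.toSubring fun p =>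
    FFA_adj Q hQ _ (aeval_mem_adjoin_singleton _ _)
  refine FFA_int Q.1 (A := Q.1) (fun a => a.2) ⟨W.toAffine.polynomial.map φ,
    W.toAffine.monic_polynomial.map φ, ?_⟩
  rw [eval₂_map]
  exact h1

omit [IsAlgClosed κ] in
theorem TailB_fib {Q Q₁ Q₂ : (HO κ)[X][X]} {c : κ} {yv : Fin 2 → κ} (hne : yv 0 ≠ yv 1)
    (hQ : (Q.map (mapRingHom (red κ))).map (evalRingHom c) = (X - C (yv 0)) * (X - C (yv 1)))
    {i : Fin 2} {η : HO κ} (hη : hres η = yv i)
    (h : Q = (C X - C (C (cO c))) * Q₁ + (X - C (C η)) * Q₂) : ev2 (red κ) c (yv i) Q₂ ≠ 0 := by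
  have h1 : ∀ G : (HO κ)[X][X], ev2 (red κ) c (yv i) G =
      ((G.map (mapRingHom (red κ))).map (evalRingHom c)).eval (yv i) := fun G => by
    rw [← eval₂_id, ← TailB_eval, TailB_map]
    rfl
  have h2 : red κ (cO c) = c := (hres : HO κ →ₐ[κ] κ).commutes c
  have h3 : red κ η = yv i := hη
  rw [h] at hQ
  simp only [Polynomial.map_add, Polynomial.map_mul, Polynomial.map_sub, map_C, map_X,
    coe_mapRingHom, coe_evalRingHom, eval_X, eval_C, h2, h3, sub_self, zero_mul, zero_add] at hQ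
  rw [h1]
  fin_cases i
  · rw [mul_left_cancel₀ (X_sub_C_ne_zero _) hQ, eval_sub, eval_X, eval_C]
    exact sub_ne_zero.2 hne
  · rw [mul_comm (X - C (yv 0))] at hQ
    rw [mul_left_cancel₀ (X_sub_C_ne_zero _) hQ, eval_sub, eval_X, eval_C]
    exact sub_ne_zero.2 hne.symm

end Aux

theorem CuspMod.exists_tailD (h : CuspMod J 𝒜 d d' q) : Nonempty (TailD 𝒜 d d' q) := by
  obtain ⟨y, y₀, P, e⟩ := h.exists_eqn
  obtain ⟨r, s, t, u, v, w, Q, W, hr, hs, ht, hu, hv0, hw, ru, uv, hQ, hW, hc⟩ :=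
    exists_disk P e.h0 e.h1 e.h2 e.hs
  obtain ⟨E, X₀, Y₀, hE⟩ := exists_isWei W
  obtain ⟨c, yv, yne, fib⟩ := exists_fibre hc
  obtain ⟨s₀, hs₀, hg⟩ := e.gen
  have rv : hres v = 0 := hres_eq_zero.2 (lt_of_le_of_ne v.2 fun h0 => by
    have h1 := hres_eq_zero.1 ru
    rw [← h0, smul_zero] at uv
    exact (nsmul_pos h1 (by norm_num)).ne' uv)
  replace hQ : TailB_sub r s t u v P = C (C w) * Q := (TailB_comp _ _ _).symm.trans hQ
  replace hW : Q.map (mapRingHom (red κ)) = W.toAffine.polynomial := hW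
  have ho : ∀ o : HO κ, o ≠ 0 → inc κ o ≠ 0 := fun o => (map_ne_zero_iff _ Model_inc_inj).2
  have ho' : ∀ o : HO κ, o ≠ 0 → oL κ L o ≠ 0 :=
    fun o h => (_root_.map_ne_zero (algebraMap (HF κ) L)).2 (ho o h)
  have hcO : ∀ a : κ, red κ (cO a) = a := (hres : HO κ →ₐ[κ] κ).commutes
  obtain ⟨ξ, hξ⟩ : ∃ ξ, oL κ L r + oL κ L u * ξ = d.x - oL κ L (cO (q.val d'.x)) :=
    ⟨(d.x - oL κ L (cO (q.val d'.x)) - oL κ L r) / oL κ L u, by
      rw [mul_div_cancel₀ _ (ho' u hu), add_sub_cancel]⟩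
  obtain ⟨η, hη⟩ : ∃ η, oL κ L t + oL κ L s * oL κ L u * ξ + oL κ L v * η = y :=
    ⟨(y - (oL κ L t + oL κ L s * oL κ L u * ξ)) / oL κ L v, by
      rw [mul_div_cancel₀ _ (ho' v hv0), add_sub_cancel]⟩
  have hsub : ∀ G, ev2 (oL κ L) ξ η (TailB_sub r s t u v G) =
      ev2 (oL κ L) (d.x - oL κ L (cO (q.val d'.x))) y G := fun G => by rw [TailB_ev_sub, hξ, hη]
  have hred : ∀ {A : Type u} [CommRing A] (θ : κ →+* A) (a b : A) (G), ev2 (θ.comp (red κ)) a b
      (TailB_sub r s t u v G) = θ (ev2 (red κ) 0 0 G) := fun θ a b G => by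
    rw [TailB_ev_sub, TailB_hom]
    simp only [RingHom.comp_apply, show red κ r = 0 from hr, show red κ t = 0 from ht,
      show red κ u = 0 from ru, show red κ v = 0 from rv, map_zero, mul_zero, zero_mul, add_zero]
  have hs₁ : ev2 (red κ) 0 0 (C s₀) ≠ 0 := by rwa [TailB_zero, coeff_C_zero]
  have hker : ∀ G, ev2 (oL κ L) ξ η G = 0 → Q ∣ G := fun G hG => by
    obtain ⟨o, G', h0, h1⟩ := TailB_clear r s t hu hv0 G
    have h2 := hsub G'
    rw [h1, map_mul, hG, mul_zero] at h2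
    have h3 := map_dvd (TailB_sub r s t u v) ((TailB_ker e G').1 h2.symm)
    rw [hQ, h1] at h3
    exact TailB_gauss (hW ▸ W.toAffine.monic_polynomial.ne_zero) h0 (dvd_of_mul_left_dvd h3)
  have hQ0 : ev2 (oL κ L) ξ η Q = 0 := by
    have h1 := hsub P
    rw [(TailB_ker e P).2 dvd_rfl, hQ, map_mul, TailB_CC] at h1
    exact (mul_eq_zero.1 h1).resolve_left (ho' w hw)
  obtain ⟨B, j, j1, j2, j3, j4, j5⟩ := TailB_loc (ev2 (oL κ L) ξ η) (TailB_sub r s t u v (C s₀))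
    (by rw [hsub]; exact TailB_den h e hs₀)
  obtain ⟨ρ, hρ⟩ := j5 _ (ev2 ((algebraMap κ E.L).comp (red κ)) X₀ Y₀) (fun G hG => by
    obtain ⟨H, rfl⟩ := hker G hG
    rw [map_mul, ← TailB_map, hW, (TailB_wei hE).1, zero_mul])
    (by rw [hred]; exact ((_root_.map_ne_zero _).2 hs₁).isUnit)
  have hΘ : (Q.map (evalRingHom (cO c))).map (red κ) = (X - C (yv 0)) * (X - C (yv 1)) := by
    rw [← fib, ← hW, Polynomial.map_map, Polynomial.map_map]
    congr 1
    ext a <;> simp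
  choose ζ hζ rζ using fun i : Fin 2 => exists_root_lift (Q.map (evalRingHom (cO c)))
    (hΘ ▸ mul_ne_zero (X_sub_C_ne_zero _) (X_sub_C_ne_zero _)) (y := yv i) (by
      rw [hΘ]; fin_cases i <;> simp)
  replace hζ : ∀ i, ev2 (RingHom.id _) (cO c) (ζ i) Q = 0 := fun i => by
    rw [← hζ i, ← eval₂_id, ← TailB_eval]
    rfl
  have hrσ : ∀ i G, red κ (ev2 (RingHom.id _) (cO c) (ζ i) G) = ev2 (red κ) c (yv i) G :=
    fun i G => by rw [TailB_hom, hcO, show red κ (ζ i) = yv i from rζ i, RingHom.comp_id]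
  have hrS : ∀ i, red κ (ev2 (RingHom.id _) (cO c) (ζ i) (TailB_sub r s t u v (C s₀))) ≠ 0 :=
    fun i => by
      rw [hrσ]
      exact (hred (RingHom.id κ) c (yv i) (C s₀)).trans_ne hs₁
  choose σ hσ using fun i => j5 _ (ev2 (RingHom.id _) (cO c) (ζ i)) (fun G hG => by
    obtain ⟨H, rfl⟩ := hker G hG
    rw [map_mul, hζ, zero_mul]) (Model_unit.2 (hrS i))
  have hx₁ : hres (r + u * cO c) = 0 := by rw [map_add, map_mul, hr, ru, zero_mul, add_zero]
  have hy₁ : ∀ i, ev2 (RingHom.id _) (r + u * cO c) (t + s * u * cO c + v * ζ i) P = 0 :=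
    fun i => by
      have h1 := TailB_ev_sub (RingHom.id _) (cO c) (ζ i) r s t u v P
      rw [hQ, map_mul, hζ, mul_zero] at h1
      exact h1.symm
  choose Pl hPl hPl' using fun i => TailB_place h e hx₁
    (y₁ := inc κ (t + s * u * cO c + v * ζ i)) (by
      rw [← RingHom.comp_id (inc κ), RingHom.comp_apply, RingHom.comp_apply, ← TailB_hom]
      exact (congrArg (inc κ) (hy₁ i)).trans (map_zero _))
  have hmem : ∀ f f₀, RdC 𝒜 d d' f f₀ →
      ∃ hf : f ∈ B, ρ ⟨f, hf⟩ = algebraMap κ _ (q.val f₀) := fun f f₀ hf => by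
    obtain ⟨G, hG⟩ := hg f f₀ hf
    rw [← TailB_C _ _ y] at hG
    have h1 := TailB_mem h e hf hG
    rw [← hsub, ← hsub] at hG
    refine ⟨j2 f _ hG, mul_left_cancel₀ ((_root_.map_ne_zero (algebraMap κ E.L)).2 hs₁) ?_⟩
    rw [← map_mul, h1, ← hred _ X₀ Y₀, ← hred _ X₀ Y₀, ← hρ, ← hρ, ← map_mul]
    exact congrArg ρ (Subtype.ext ((congrArg (· * f) (j1 _)).trans (hG.trans (j1 _).symm)))
  have hker' : ∀ i, ∃ s : B, hres (σ i s) ≠ 0 ∧ ∀ f : B, σ i f = 0 →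
      ∃ g : B, s * f = j (C X - C (C (cO c))) * g := fun i => by
    obtain ⟨Q₁, Q₂, h1⟩ := TailB_taylor (cO c) (ζ i) Q
    rw [hζ, map_zero, map_zero, zero_add] at h1
    refine ⟨j Q₂, ?_, TailB_sker j3 j4 (Subtype.ext ((j1 Q).trans hQ0)) h1 (hσ i)⟩
    rw [hσ]
    exact (hrσ i Q₂).trans_ne (TailB_fib yne (hW ▸ fib) (rζ i) h1)
  have hσz : ∀ i, σ i (j (C X - C (C (cO c)))) = 0 := fun i => by
    rw [hσ, map_sub, TailB_CX, TailB_CC, RingHom.id_apply, sub_self]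
  have hval : ∀ i (f : B), (f : L) ∈ (Pl i).1 ∧ (Pl i).val (f : L) = σ i f := fun i => by
    obtain ⟨p1, p2, p3⟩ := hPl i
    have p4 := Comb_mem d p1 (h.mem_of_rd e.rd).1
    have p5 := sub_mem p1 ((Pl i).2.2 (inc κ (cO (q.val d'.x))))
    erw [← hξ] at p5
    rw [← hξ] at p2
    rw [← hη, ← map_mul] at p3 p4
    obtain ⟨a1, a2⟩ := TailB_lin (ho u hu) ((Pl i).2.2 (inc κ r)) p5
    have a3 : (Pl i).val ξ = inc κ (cO c) := by
      rw [Place.val_const] at a2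
      have a4 := a2.symm.trans p2
      rw [map_add, map_mul] at a4
      exact mul_left_cancel₀ (ho u hu) (add_left_cancel a4)
    have a4 := mul_mem ((Pl i).2.2 (inc κ (s * u))) a1
    obtain ⟨b1, b2⟩ := TailB_lin (ho v hv0) (add_mem ((Pl i).2.2 (inc κ t)) a4) p4
    have b3 : (Pl i).val η = inc κ (ζ i) := by
      rw [Place.val_add ((Pl i).2.2 _) a4, Place.val_mul ((Pl i).2.2 _) a1, Place.val_const,
        Place.val_const, a3] at b2
      have b4 := b2.symm.trans p3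
      rw [map_add, map_add, map_mul _ _ (cO c), map_mul _ v] at b4
      exact mul_left_cancel₀ (ho v hv0) (add_left_cancel b4)
    refine TailB_frac j3 (Pl i) B.subtype ((inc κ).comp (σ i)) (fun G => ?_) ?_
    · have b4 := TailB_val (Pl i) (inc κ) a1 b1 G
      rw [a3, b3, ← j1] at b4
      rw [RingHom.comp_apply, hσ, TailB_hom]
      exact b4
    · rw [RingHom.comp_apply, hσ]
      exact ho _ fun h0 => hrS i (by rw [h0, map_zero])
  obtain ⟨m, m₀, m1, m2, m3, m4⟩ := TailB_m h e hx₁ (y₁ := fun i => t + s * u * cO c + v * ζ i)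
    (fun i => by simp only [map_add, map_mul, ht, hs, rv, zero_mul, add_zero])
    (fun h0 => yne (by rw [← rζ, ← rζ, mul_left_cancel₀ hv0 (add_left_cancel h0)])) hy₁
  refine ⟨⟨W, E, X₀, Y₀, hE, hc, c, yv, yne, fib, B, ρ, j (C X - C (C (cO c))), j X, u, v,
    cO (q.val d'.x) + (r + u * cO c), hu, hv0, ru, uv, ?_, ?_, ?_, ?_, y₀, ?_, e.ne, e.ord, hmem, σ,
    fun i o h0 => ?_, hσz, fun i Q' q1 q2 q3 => ?_, hker', Pl, hval, fun i => ?_, m, m₀, m1, m2, m3,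
    fun Q' q1 q2 q3 => ?_⟩⟩
  · rw [map_add, hx₁, add_zero]
    exact hcO _
  · rw [j1, map_sub, TailB_CX, TailB_CC, map_add, map_add, map_mul]
    linear_combination hξ
  · rw [hρ, map_sub, TailB_CX, TailB_CC, RingHom.comp_apply, hcO]
  · rw [hρ, TailB_X]
  · have h1 := TailB_rd h e.rd (X - C (C t) - C (C s) * (C X - C (C r)))
    simp only [map_sub, map_mul, TailB_CC, TailB_CX, TailB_X, RingHom.comp_apply,
      show red κ s = 0 from hs, show red κ t = 0 from ht, map_zero, zero_mul, sub_zero] at h1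
    convert h1 using 1
    rw [j1, TailB_X]
    simp only [RingHom.comp_apply] at hξ hη ⊢
    linear_combination hη - algebraMap (HF κ) L (inc κ s) * hξ
  · rw [show (⟨_, h0⟩ : B) = j (C (C o)) from Subtype.ext ((j1 _).trans (TailB_CC _ _ _ _)).symm,
      hσ, TailB_CC, RingHom.id_apply]
  · refine TailB_frac j3 Q' ρ ((red κ).comp (σ i)) (fun G => ?_) ?_
    · have h1 := TailB_val Q' (red κ) q1 ((TailB_wei hE).2 Q' q1) G
      rw [q2, q3] at h1
      rwa [RingHom.comp_apply, hσ, hrσ, hρ]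
    · rw [RingHom.comp_apply, hσ]
      exact hrS i
  · obtain ⟨s', h1, h2⟩ := hker' i
    exact TailB_one h (fun f f₀ hf => (hmem f f₀ hf).1) (hPl i).1 (hval i) (hσz i)
      (fun h0 => h1 (by rw [h0, map_zero])) h2
  · have h1 : Q'.val (d.x - oL κ L (cO (q.val d'.x))) = inc κ (r + u * cO c) := by
      refine (TailB_val_sub q2 (inc κ (cO (q.val d'.x)))).2.trans ?_
      rw [q3, sub_eq_iff_eq_add', ← map_add]
      rfl
    exact m4 Q' q2 h1 fun i h2 => q1 i (hPl' i Q' ⟨q2, h1, h2⟩)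

end PR0
end
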