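import Pool.Agent.Work.MP_da2620_ag.Comb

/-!
# First order deformations of chart points

A chart point over the dual numbers reducing to `A` is `{a + ε F | a ∈ A, F ∈ D a}` for a derivation
`D : A → LT / A` with `D x = 0`, and conversely (`exists_chart`, `mem_Tan`).  For `δ ∈ Tan` the derivation
sends `χ μ` to the tuple with coefficients `δ (μ, i, n)`.  Formula: in the dual numbers
`F_v ^ p - (h + ε F) = regular - ε F`, apply `cls_pow`.
-/

namespace PR0

open MvPolynomial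

universe u

variable {k : Type u} [Field k] {ι : Type} [Fintype ι] [DecidableEq ι] {J : Finset (ι × ℕ)}

/-- Derivations `A → LT / A` killing `x`. -/
def DerQ (A : Subalgebra k (LT ι k)) : Submodule k (A →ₗ[k] LT ι k ⧸ A.toSubmodule) where
  carrier := {D | (∀ f : A, f.1 = xx ι k → D f = 0) ∧ ∀ (f g : A) (F G : LT ι k),
    D f = Submodule.Quotient.mk F → D g = Submodule.Quotient.mk G →
      D (f * g) = Submodule.Quotient.mk (f.1 * G + g.1 * F)}
  add_mem' {D D'} h h' := ⟨fun f hf => by rw [LinearMap.add_apply, h.1 f hf, h'.1 f hf, add_zero],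
    fun f g F G hF hG => by
      obtain ⟨F₁, h1⟩ := Submodule.Quotient.mk_surjective _ (D f)
      obtain ⟨G₁, h2⟩ := Submodule.Quotient.mk_surjective _ (D g)
      rw [LinearMap.add_apply, ← h1, ← eq_sub_iff_add_eq', ← Submodule.Quotient.mk_sub] at hF
      rw [LinearMap.add_apply, ← h2, ← eq_sub_iff_add_eq', ← Submodule.Quotient.mk_sub] at hG
      rw [LinearMap.add_apply, h.2 f g _ _ h1.symm h2.symm, h'.2 f g _ _ hF hG,
        ← Submodule.Quotient.mk_add]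
      exact congrArg _ (by ring)⟩
  zero_mem' := ⟨fun _ _ => rfl, fun f g _ _ hF hG => ((Submodule.Quotient.mk_eq_zero _).2
    (A.add_mem (A.mul_mem f.2 ((Submodule.Quotient.mk_eq_zero _).1 hG.symm))
      (A.mul_mem g.2 ((Submodule.Quotient.mk_eq_zero _).1 hF.symm)))).symm⟩
  smul_mem' c D h := ⟨fun f hf => by rw [LinearMap.smul_apply, h.1 f hf, smul_zero],
    fun f g F G hF hG => by
      obtain ⟨F₁, h1⟩ := Submodule.Quotient.mk_surjective _ (D f)
      obtain ⟨G₁, h2⟩ := Submodule.Quotient.mk_surjective _ (D g)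
      rw [LinearMap.smul_apply, ← h1, ← Submodule.Quotient.mk_smul, Submodule.Quotient.eq] at hF
      rw [LinearMap.smul_apply, ← h2, ← Submodule.Quotient.mk_smul, Submodule.Quotient.eq] at hG
      rw [LinearMap.smul_apply, h.2 f g _ _ h1.symm h2.symm, ← Submodule.Quotient.mk_smul,
        Submodule.Quotient.eq, Subalgebra.mem_toSubmodule]
      convert add_mem (A.mul_mem f.2 hG) (A.mul_mem g.2 hF) using 1
      simp only [Algebra.smul_def]
      ring⟩

/-- The combination of polar monomials with coefficients `v`. -/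
noncomputable def pv (J : Finset (ι × ℕ)) (v : J → k) : LT ι k := ∑ j : J, v j • pm k j.1

theorem IsChart.Tan_cls {R : Type u} [CommRing R] {A : Subalgebra R (LT ι R)} (h : IsChart J A)
    (i₀ : ι) (v : J → R) : cls i₀ J A (∑ j : J, v j • pm R j.1) = v := by
  let φ : LT ι R →ₗ[R] J → R := ⟨⟨cls i₀ J A, h.cls_add i₀⟩, h.cls_smul i₀⟩
  change φ _ = v
  rw [map_sum, pi_eq_sum_univ' v]
  exact Finset.sum_congr (by simp) fun j _ => by
    rw [map_smul, ← pi_eq_sum_univ' v]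
    exact congrArg _ (h.cls_pm i₀ j)

theorem IsChart.cls_pv {A : Subalgebra k (LT ι k)} (h : IsChart J A) (i₀ : ι) (v : J → k) :
    cls i₀ J A (pv J v) = v := h.Tan_cls i₀ v

/-- The tuple `a + ε F` over the dual numbers. -/
noncomputable def Tan_T (a F : LT ι k) : LT ι (TrivSqZeroExt k k) :=
  mapT (algebraMap k _) a + (TrivSqZeroExt.inr 1 : TrivSqZeroExt k k) • mapT (algebraMap k _) F

section
omit [Fintype ι] [DecidableEq ι]

theorem Tan_cf (a F : LT ι k) (i : ι) (n : ℤ) : (Tan_T a F i).cf n =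
    TrivSqZeroExt.inl ((a i).cf n) + TrivSqZeroExt.inr ((F i).cf n) := by
  rw [Tan_T, Pi.add_apply, LS.cf_add, Pi.smul_apply, LS.cf_smul]
  change TrivSqZeroExt.inl ((a i).cf n) + _ * TrivSqZeroExt.inl ((F i).cf n) = _
  ext <;> simp

theorem Tan_zero (a : LT ι k) : Tan_T a 0 = mapT (algebraMap k _) a := by
  funext i
  refine LS.ext fun n => (Tan_cf _ _ _ _).trans ?_
  change _ = TrivSqZeroExt.inl ((a i).cf n)
  simp

theorem Tan_add (a F b G : LT ι k) : Tan_T a F + Tan_T b G = Tan_T (a + b) (F + G) := by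
  ext i n <;> simp [Tan_cf]

theorem Tan_smul (c : TrivSqZeroExt k k) (a F : LT ι k) :
    c • Tan_T a F = Tan_T (c.fst • a) (c.fst • F + c.snd • a) := by
  ext i n <;> simp [Tan_cf, mul_comm]

theorem Tan_alg (c : TrivSqZeroExt k k) :
    algebraMap _ (LT ι (TrivSqZeroExt k k)) c = Tan_T (algebraMap k _ c.fst) (algebraMap k _ c.snd) := by
  ext i n <;> simp [Tan_cf, LS.cf_algebraMap, apply_ite TrivSqZeroExt.fst,
    apply_ite TrivSqZeroExt.snd]

theorem Tan_mul (a F b G : LT ι k) : Tan_T a F * Tan_T b G = Tan_T (a * b) (a * G + b * F) := by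
  have h := map_mul (algebraMap (TrivSqZeroExt k k) (LT ι (TrivSqZeroExt k k)))
    (TrivSqZeroExt.inr 1) (TrivSqZeroExt.inr 1)
  rw [TrivSqZeroExt.inr_mul_inr, map_zero] at h
  have e : ∀ X : LT ι (TrivSqZeroExt k k), (TrivSqZeroExt.inr 1 : TrivSqZeroExt k k) • X =
      algebraMap _ _ (TrivSqZeroExt.inr 1 : TrivSqZeroExt k k) * X :=
    fun X => Algebra.smul_def (TrivSqZeroExt.inr 1 : TrivSqZeroExt k k) X
  simp only [Tan_T, map_add, map_mul, e]
  linear_combination (-mapT (algebraMap k _) F * mapT (algebraMap k _) G) * h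

theorem Tan_eq {a F b G : LT ι k} (h : Tan_T a F = Tan_T b G) : F = G := by
  ext i n
  simpa [Tan_cf] using congrArg (fun X : LT ι _ => ((X i).cf n).snd) h

end

/-- Normal forms modulo a chart point. -/
def Tan_W (k : Type u) [Field k] (i₀ : ι) (J : Finset (ι × ℕ)) : Submodule k (LT ι k) where
  carrier := {F | (F i₀).cf 0 = 0 ∧ ∀ ν, ν ∉ J → pc F ν = 0}
  add_mem' h h' := ⟨by simp [h.1, h'.1], fun ν hν => by simp [Univ_pc_add, h.2 ν hν, h'.2 ν hν]⟩
  zero_mem' := ⟨rfl, fun _ _ => rfl⟩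
  smul_mem' c _ h := ⟨by simp [h.1], fun ν hν => by simp [Univ_pc_smul, h.2 ν hν]⟩

theorem IsChart.Tan_compl {A : Subalgebra k (LT ι k)} (h : IsChart J A) (i₀ : ι) :
    IsCompl A.toSubmodule (Tan_W k i₀ J) := by
  refine ⟨Submodule.disjoint_def.2 fun F h1 h2 => ?_, codisjoint_iff.2 (eq_top_iff.2 fun F _ => ?_)⟩
  · obtain ⟨c, rfl⟩ := h.inj F h1 h2.2
    have : c = 0 := by simpa [LS.cf_algebraMap] using h2.1
    rw [this, map_zero]
  · rw [← add_sub_cancel (algebraMap k _ ((F i₀).cf 0) +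
      ∑ μ ∈ (finite_pc F).toFinset, pc F μ • chi i₀ J A μ) F]
    refine Submodule.add_mem_sup (add_mem (A.algebraMap_mem _)
      (sum_mem fun μ _ => A.smul_mem (h.chi_mem i₀ μ) _)) ⟨?_, fun ν hν => ?_⟩
    · simp [LS.cf_algebraMap, LS.cf_sum, h.chi_cf]
    · have h1 : ∀ μ, μ ≠ ν → (chi i₀ J A μ ν.1).cf (-(ν.2 + 1)) = 0 := fun μ hμ => by
        by_cases h2 : μ ∈ J
        · simp [chi, h2]
        · exact (h.pc_chi i₀ h2 hν).trans (if_neg hμ.symm)
      have h2 : (chi i₀ J A ν ν.1).cf (-(ν.2 + 1)) = 1 := (h.pc_chi i₀ hν hν).trans (if_pos rfl)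
      rw [Univ_pc_sub, Univ_pc_add, sub_eq_zero]
      change _ = LS.cf _ _ + LS.cf _ _
      rw [Pi.algebraMap_apply, LS.cf_algebraMap, if_neg (by omega), zero_add, Finset.sum_apply,
        LS.cf_sum, Finset.sum_eq_single ν (fun μ _ hμ => by
          rw [Pi.smul_apply, LS.cf_smul, h1 μ hμ, mul_zero]) fun h3 => by
          rw [Pi.smul_apply, LS.cf_smul, of_not_not (mt (finite_pc F).mem_toFinset.2 h3), zero_mul],
        Pi.smul_apply, LS.cf_smul, h2, mul_one]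

omit [Fintype ι] [DecidableEq ι] in
theorem Tan_one {A : Subalgebra k (LT ι k)} (D : DerQ A) (c : k) : D.1 (algebraMap k A c) = 0 := by
  obtain ⟨F, hF⟩ := Submodule.Quotient.mk_surjective _ (D.1 1)
  have h := D.2.2 1 1 F F hF.symm hF.symm
  rw [mul_one, OneMemClass.coe_one, one_mul, Submodule.Quotient.mk_add, hF, left_eq_add] at h
  rw [Algebra.algebraMap_eq_smul_one, map_smul, h, smul_zero]

/-- The deformation attached to a derivation. -/
def Tan_B {A : Subalgebra k (LT ι k)} (D : DerQ A) :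
    Subalgebra (TrivSqZeroExt k k) (LT ι (TrivSqZeroExt k k)) where
  carrier := {G | ∃ (a : A) (F : LT ι k), D.1 a = Submodule.Quotient.mk F ∧ G = Tan_T a F}
  mul_mem' := by
    rintro _ _ ⟨a, F, h, rfl⟩ ⟨b, G, h', rfl⟩
    exact ⟨a * b, _, D.2.2 a b F G h h', Tan_mul _ _ _ _⟩
  add_mem' := by
    rintro _ _ ⟨a, F, h, rfl⟩ ⟨b, G, h', rfl⟩
    exact ⟨a + b, F + G, by rw [map_add, h, h', Submodule.Quotient.mk_add], Tan_add _ _ _ _⟩
  algebraMap_mem' c := ⟨algebraMap k A c.fst, _, (Tan_one D _).trans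
    ((Submodule.Quotient.mk_eq_zero _).2 (A.algebraMap_mem c.snd)).symm, Tan_alg c⟩

section
variable {A : Subalgebra k (LT ι k)} (h : IsChart J A) (i₀ : ι)

/-- The normal form. -/
noncomputable def IsChart.Tan_N : (LT ι k ⧸ A.toSubmodule) ≃ₗ[k] Tan_W k i₀ J :=
  Submodule.quotientEquivOfIsCompl _ _ (h.Tan_compl i₀)

theorem IsChart.Tan_mk (z) : Submodule.Quotient.mk (h.Tan_N i₀ z : LT ι k) = z :=
  Submodule.mk_quotientEquivOfIsCompl_apply _ z

theorem IsChart.Tan_pc (D : DerQ A) {μ : ι × ℕ} (hμ : μ ∉ J) (ν) (hν : ν ∉ J) :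
    pc (Tan_T (chi i₀ J A μ) (h.Tan_N i₀ (D.1 ⟨_, h.chi_mem i₀ μ⟩))) ν = if ν = μ then 1 else 0 := by
  rw [pc, Tan_cf, ← pc, ← pc, (h.Tan_N i₀ _).2.2 ν hν, h.pc_chi i₀ hμ hν]
  split_ifs <;> simp

include h i₀ in
theorem IsChart.Tan_chart (D : DerQ A) : IsChart J (Tan_B D) := by
  refine ⟨⟨⟨_, h.x_mem⟩, 0, D.2.1 _ rfl, by rw [Tan_zero, mapT_xx]⟩, ?_, fun μ hμ =>
    ⟨_, ⟨⟨_, h.chi_mem i₀ μ⟩, _, (h.Tan_mk i₀ _).symm, rfl⟩, h.Tan_pc i₀ D hμ⟩⟩
  rintro _ ⟨⟨a, ha⟩, F, hF, rfl⟩ h0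
  obtain ⟨c, rfl⟩ := h.inj a ha fun μ hμ => by
    simpa [pc, Tan_cf] using congrArg TrivSqZeroExt.fst (h0 μ hμ)
  obtain ⟨c', rfl⟩ := h.inj F
    ((Submodule.Quotient.mk_eq_zero _).1 (hF.symm.trans (Tan_one D c))) fun μ hμ => by
    simpa [pc, Tan_cf] using congrArg TrivSqZeroExt.snd (h0 μ hμ)
  exact ⟨⟨c, c'⟩, (Tan_alg ⟨c, c'⟩).symm⟩

theorem IsChart.Tan_coef (D : DerQ A) : coef i₀ J (Tan_B D) = dn (coef i₀ J A)
    fun a => ((h.Tan_N i₀ (D.1 ⟨_, h.chi_mem i₀ a.1⟩)).1 a.2.1).cf a.2.2 := by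
  funext a
  refine Eq.trans (congrArg (fun G : LT ι _ => (G a.2.1).cf a.2.2) ?_) (Tan_cf _ _ _ _)
  by_cases hμ : a.1 ∈ J
  · have : (⟨_, h.chi_mem i₀ a.1⟩ : A) = 0 := Subtype.ext (if_pos hμ)
    rw [this, map_zero, map_zero, ZeroMemClass.coe_zero, Tan_zero, chi, chi, if_pos hμ, if_pos hμ,
      map_zero]
  · refine (h.Tan_chart i₀ D).chi_eq i₀ hμ ⟨⟨_, h.chi_mem i₀ _⟩, _, (h.Tan_mk i₀ _).symm, rfl⟩ ?_
      (h.Tan_pc i₀ D hμ)
    rw [Tan_cf, (h.Tan_N i₀ _).2.1, h.chi_cf]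
    simp

/-- The tangent vector of a derivation. -/
noncomputable def IsChart.Tan_map : DerQ A →ₗ[k] Tan (cI k i₀ J) (coef i₀ J A) where
  toFun D := ⟨fun a => ((h.Tan_N i₀ (D.1 ⟨_, h.chi_mem i₀ a.1⟩)).1 a.2.1).cf a.2.2,
    (mem_Tan (h.on i₀)).2 (h.Tan_coef i₀ D ▸ (h.Tan_chart i₀ D).on i₀)⟩
  map_add' D D' := Subtype.ext (funext fun a => by simp)
  map_smul' c D := Subtype.ext (funext fun a => by simp)

theorem IsChart.Tan_inj : Function.Injective (h.Tan_map i₀) := by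
  refine (injective_iff_map_eq_zero _).2 fun D hD => Subtype.ext (LinearMap.ext fun ⟨a, ha⟩ => ?_)
  change D.1 ⟨a, ha⟩ = 0
  induction (h.mem_iff_span i₀).1 ha using Submodule.span_induction with
  | mem x hx =>
    obtain rfl | ⟨μ, rfl⟩ := hx
    · exact (congrArg D.1 (map_one (algebraMap k A)).symm).trans (Tan_one D 1)
    · exact (h.Tan_N i₀).map_eq_zero_iff.1 (Subtype.ext (funext fun i => LS.ext fun n =>
        congrFun (congrArg Subtype.val hD) (μ, i, n)))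
  | zero => exact map_zero D.1
  | add x y hx hy h2 h3 =>
    exact (map_add D.1 ⟨x, (h.mem_iff_span i₀).2 hx⟩ ⟨y, (h.mem_iff_span i₀).2 hy⟩).trans
      (by rw [h2, h3, add_zero])
  | smul c x hx h2 =>
    have h3 := D.1.map_smul c (⟨x, (h.mem_iff_span i₀).2 hx⟩ : A)
    rw [h2, smul_zero] at h3
    exact h3

theorem IsChart.Tan_surj : Function.Surjective (h.Tan_map i₀) := by
  intro δ
  obtain ⟨B, hB, e⟩ := exists_chart ((mem_Tan (h.on i₀)).1 δ.2)
  have h1 : ∀ μ, ∃ F : LT ι k, ∀ i n, (F i).cf n = δ.1 (μ, i, n) := fun μ => by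
    choose F hF using fun i => LS.exists_cf (fun n => δ.1 (μ, i, n)) (-Univ_N J μ) fun n hn => by
      simpa [dn] using congrArg TrivSqZeroExt.snd
        ((congrFun e (μ, i, n)).symm.trans (hB.Univ_pole i₀ μ i n hn))
    exact ⟨F, hF⟩
  choose F hF using h1
  have h2 : ∀ μ, chi i₀ J B μ = Tan_T (chi i₀ J A μ) (F μ) := fun μ =>
    funext fun i => LS.ext fun n => by
      rw [Tan_cf, hF]
      exact congrFun e (μ, i, n)
  have h3 : ∀ a : A, ∃ G, Tan_T a.1 G ∈ B := fun ⟨a, ha⟩ => by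
    induction (h.mem_iff_span i₀).1 ha using Submodule.span_induction with
    | mem x hx =>
      obtain rfl | ⟨μ, rfl⟩ := hx
      · exact ⟨0, by simp [Tan_zero]⟩
      · exact ⟨_, h2 μ ▸ hB.chi_mem i₀ μ⟩
    | zero => exact ⟨0, by simp [Tan_zero]⟩
    | add x y hx hy h3 h4 =>
      obtain ⟨G, h3⟩ := h3 ((h.mem_iff_span i₀).2 hx)
      obtain ⟨G', h4⟩ := h4 ((h.mem_iff_span i₀).2 hy)
      exact ⟨G + G', by simpa [Tan_add] using add_mem h3 h4⟩
    | smul c x hx h3 =>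
      obtain ⟨G, h3⟩ := h3 ((h.mem_iff_span i₀).2 hx)
      exact ⟨c • G, by simpa [Tan_smul] using B.smul_mem h3 (TrivSqZeroExt.inl c)⟩
  choose G hG using h3
  have h4 : ∀ a ∈ A, Tan_T 0 a ∈ B := fun a ha => by
    simpa [Tan_smul] using B.smul_mem (hG ⟨a, ha⟩) (TrivSqZeroExt.inr 1)
  have h5 : ∀ (a : A) (H : LT ι k), (Submodule.Quotient.mk (G a) : _ ⧸ A.toSubmodule) =
      Submodule.Quotient.mk H ↔ Tan_T a.1 H ∈ B := fun a H => by
    rw [eq_comm, Submodule.Quotient.eq]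
    refine ⟨fun h5 => by simpa [Tan_add] using add_mem (hG a) (h4 _ h5), fun h5 => ?_⟩
    obtain ⟨b, hb, w, hw, h6⟩ := Submodule.mem_sup.1
      ((h.Tan_compl i₀).sup_eq_top.ge (Submodule.mem_top (x := H - G a)))
    have h7 := add_mem (add_mem h5 (B.smul_mem (hG a) (-1))) (h4 _ (neg_mem hb))
    simp only [Tan_smul, Tan_add, TrivSqZeroExt.fst_neg, TrivSqZeroExt.snd_neg,
      TrivSqZeroExt.fst_one, TrivSqZeroExt.snd_one, neg_smul, one_smul, zero_smul, neg_zero,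
      add_zero, ← sub_eq_add_neg, ← h6, add_sub_cancel_left, sub_self] at h7
    obtain ⟨c, hc⟩ := hB.inj _ h7 fun μ hμ => by
      rw [pc, Tan_cf, ← pc, ← pc, hw.2 μ hμ]
      simp [pc]
    rw [← h6, Tan_eq (hc.trans (Tan_alg c))]
    exact add_mem hb (A.algebraMap_mem _)
  refine ⟨⟨⟨⟨fun a => Submodule.Quotient.mk (G a), fun a b => (h5 _ _).2 ?_⟩,
    fun c a => (h5 _ _).2 ?_⟩, fun f hf => (h5 f 0).2 ?_, fun f g H H' h6 h7 => (h5 _ _).2 ?_⟩,
    Subtype.ext (funext fun a => ?_)⟩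
  · simpa [Tan_add] using add_mem (hG a) (hG b)
  · simpa [Tan_smul] using B.smul_mem (hG a) (TrivSqZeroExt.inl c)
  · simpa [Tan_zero, hf, mapT_xx] using hB.x_mem
  · simpa [Tan_mul] using mul_mem ((h5 _ _).1 h6) ((h5 _ _).1 h7)
  · have h6 : F a.1 ∈ Tan_W k i₀ J := ⟨by
      simpa [h2, Tan_cf] using congrArg TrivSqZeroExt.snd (hB.chi_cf i₀ a.1), fun ν hν => by
      by_cases hμ : a.1 ∈ J
      · simpa [pc, Tan_cf, chi, hμ] using congrArg (fun X => (pc X ν).snd) (h2 a.1).symm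
      · simpa [h2, pc, Tan_cf, apply_ite TrivSqZeroExt.snd] using
          congrArg TrivSqZeroExt.snd (hB.pc_chi i₀ hμ hν)⟩
    have h7 : h.Tan_N i₀ (Submodule.Quotient.mk (G ⟨_, h.chi_mem i₀ a.1⟩)) = ⟨_, h6⟩ :=
      (LinearEquiv.eq_symm_apply _).1 ((h5 _ _).2 (h2 a.1 ▸ hB.chi_mem i₀ a.1))
    exact (congrArg (fun X : Tan_W k i₀ J => (X.1 a.2.1).cf a.2.2) h7).trans (hF _ _ _)

end

theorem exists_tan_equiv (p : ℕ) [Fact p.Prime] [CharP k p] {A : Subalgebra k (LT ι k)}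
    (h : IsChart J A) (i₀ : ι) : ∃ e : Tan (cI k i₀ J) (coef i₀ J A) ≃ₗ[k] DerQ A,
      (∀ δ μ, μ ∉ J → ∀ F : LT ι k, (∀ i n, (F i).cf n = δ.1 (μ, i, n)) →
        (e δ).1 ⟨_, h.chi_mem i₀ μ⟩ = Submodule.Quotient.mk F) ∧
      ∀ (δ) (v : J → k) (a : A) (F : LT ι k), Pole (pv J v ^ p - a.1) 0 →
        (e δ).1 a = Submodule.Quotient.mk F →
        sapp p ((hw k p J).map (dd (coef i₀ J A) δ.1)) v = -cls i₀ J A F := by
  refine ⟨(LinearEquiv.ofBijective _ ⟨h.Tan_inj i₀, h.Tan_surj i₀⟩).symm, fun δ => ?_, fun δ => ?_⟩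
  all_goals
    obtain ⟨D, rfl⟩ := h.Tan_surj i₀ δ
    rw [LinearEquiv.ofBijective_symm_apply_apply]
  · intro μ _ F hF
    rw [show F = h.Tan_N i₀ (D.1 ⟨_, h.chi_mem i₀ μ⟩) from funext fun i => LS.ext (hF i), h.Tan_mk]
  intro v a F h1 h2
  have := charP_of_injective_algebraMap (algebraMap k (TrivSqZeroExt k k)).injective p
  have hB := h.Tan_chart i₀ D
  have h3 : ∀ w : J → k, cls i₀ J (Tan_B D) (mapT (algebraMap k _) (pv J w)) =
      fun j => algebraMap k _ (w j) := fun w => by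
    rw [← hB.Tan_cls i₀ fun j => algebraMap k _ (w j), pv, map_sum]
    refine congrArg _ (Finset.sum_congr rfl fun j _ => (mapT_smul _ _ _).trans (congrArg _ ?_))
    funext i
    change LS.map _ (pm k _ i) = _
    by_cases hi : i = j.1.1 <;> simp [pm, hi]
  have h4 := hB.cls_pow (k := k) i₀ p (mapT (algebraMap k _) (pv J v))
  obtain ⟨b, hb, h5⟩ := (h.cls_eq_zero i₀ (F := F + (-1 : k) • pv J (cls i₀ J A F))).1 (by
    rw [h.cls_add, h.cls_smul, h.cls_pv, neg_one_smul, add_neg_cancel])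
  have h6 := (hB.cls_eq_zero i₀ (F := mapT (algebraMap k _) (pv J v) ^ p +
      (TrivSqZeroExt.inr 1 : TrivSqZeroExt k k) • mapT (algebraMap k _) (pv J (cls i₀ J A F)))).2
    ⟨_, ⟨a, F - b, h2.trans ((Submodule.Quotient.eq _).2 (by simpa using hb)), rfl⟩,
      fun i n hn => by
        have h6 := h1 i n hn
        have h7 := h5 i n hn
        rw [← map_pow, ← Tan_T, Pi.sub_apply, LS.cf_sub, Tan_cf, Tan_cf]
        simp only [Pi.sub_apply, Pi.add_apply, Pi.smul_apply, LS.cf_sub, LS.cf_add,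
          LS.cf_smul] at h6 h7 ⊢
        ext
        · simpa using h6
        · simp only [TrivSqZeroExt.snd_sub, TrivSqZeroExt.snd_add, TrivSqZeroExt.snd_inl,
            TrivSqZeroExt.snd_inr, TrivSqZeroExt.snd_zero]
          linear_combination -h7⟩
  rw [hB.cls_add, hB.cls_smul, h4, h3, h3, h.Tan_coef i₀ D] at h6
  funext j
  have h7 := congrArg TrivSqZeroExt.snd (congrFun h6 j)
  simp only [sapp, Matrix.mulVec, dotProduct, Matrix.map_apply, Pi.add_apply, Pi.smul_apply,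
    ← map_pow, TrivSqZeroExt.snd_add, TrivSqZeroExt.snd_sum, TrivSqZeroExt.snd_mul,
    TrivSqZeroExt.algebraMap_eq_inl, TrivSqZeroExt.inl_pow, smul_eq_mul, TrivSqZeroExt.snd_inl, TrivSqZeroExt.fst_inl,
    TrivSqZeroExt.snd_inr, mul_zero, zero_add, op_smul_eq_mul, one_mul, Pi.zero_apply,
    TrivSqZeroExt.snd_zero] at h7
  exact eq_neg_of_add_eq_zero_left h7

end PR0
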