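import Pool.Agent.Work.MP_da2620_ag.Final
import Pool.Agent.Work.MP_da2620_ag.Pic
import Pool.Agent.Work.MP_da2620_ag.Ex
import Pool.Agent.Work.MP_da2620_ag.SchG

namespace PR0

universe u

theorem main (k : Type u) [Field k] [IsAlgClosed k] (p : ℕ) [Fact p.Prime] [CharP k p] (g : ℕ)
    (hg : 3 ≤ g) :
    ∃ (K : Type u) (_ : Field K) (_ : Algebra k K) (C : Curve K),
      IsAlgClosed K ∧ genus K C.L = g ∧ PRankZero K C.L p ∧
        ∀ C₀ : Curve k, genus k C₀.L = g → PRankZero k C₀.L p → Specializes C C₀ := by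
  obtain ⟨C₁, h₁, h₂⟩ := exists_hw0 p k g
  obtain ⟨K, _, _, _, D, e1, e2, e3⟩ := main_hw p hg C₁ h₁ h₂
  have : CharP K p := charP_of_injective_algebraMap (algebraMap k K).injective p
  obtain ⟨C, ⟨e⟩⟩ := exists_curve K D.L
  have : Fact (IsFF K C.L) := ⟨C.isFF⟩
  have hb := BC.of_equiv e
  refine ⟨K, inferInstance, inferInstance, C, inferInstance, hb.genus_eq.symm.trans e1,
    prank_of_hw0 p ((hb.hw0_iff p).1 e2), fun C₀ h1 h2 => ?_⟩
  have : Fact (IsFF k C₀.L) := ⟨C₀.isFF⟩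
  obtain ⟨m, J, O, r, 𝒜, d, d₀, a1, a2, a3, a4, a5⟩ := e3 ⟨C₀.L⟩ h1 (hw0_of_prank p h2)
  exact specializes_of_chart O r a1 a2 a3 d a4 d₀ a5 C e C₀ AlgEquiv.refl

end PR0
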