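import Pool.Agent.Work.MP_da2620_ag.Elim
import Pool.Agent.Work.MP_da2620_ag.Pure

/-! Linear changes of coordinates and the Cartier operator. -/

open MvPolynomial Matrix

namespace Pool.Agent.Work.MP_da2620_ag

section ring

variable {R S : Type*} [CommRing R] [CommRing S] {n : Type} [Fintype n] [DecidableEq n]

/-- linear substitution -/
noncomputable def sub (g : Matrix n n R) : MvPolynomial n R →ₐ[R] MvPolynomial n R :=
  aeval fun i => ∑ j, C (g i j) * X j

omit [DecidableEq n] in
theorem sub_X (g : Matrix n n R) (i : n) : sub g (X i) = ∑ j, C (g i j) * X j := aeval_X _ _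

omit [DecidableEq n] in
theorem sub_C (g : Matrix n n R) (a : R) : sub g (C a) = C a := aeval_C _ _

omit [DecidableEq n] in
theorem eval_sub (g : Matrix n n R) (x : n → R) (f : MvPolynomial n R) :
    eval x (sub g f) = eval (g *ᵥ x) f := by
  induction f using MvPolynomial.induction_on with
  | C a => simp
  | add f f' h h' => simp [h, h']
  | mul_X f i h => simp [h, sub_X, Matrix.mulVec, dotProduct]

omit [DecidableEq n] in
theorem sub_mul (g h : Matrix n n R) (f : MvPolynomial n R) : sub (g * h) f = sub h (sub g f) := by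
  induction f using MvPolynomial.induction_on with
  | C a => simp
  | add f f' e e' => simp [e, e']
  | mul_X f i e =>
    simp only [map_mul, e, sub_X, map_sum, sub_C, Matrix.mul_apply, Finset.sum_mul, Finset.mul_sum,
      mul_assoc]
    rw [Finset.sum_comm]

theorem sub_one (f : MvPolynomial n R) : sub (1 : Matrix n n R) f = f := by
  induction f using MvPolynomial.induction_on with
  | C a => simp
  | add f f' e e' => simp [e, e']
  | mul_X f i e => simp [e, sub_X, Matrix.one_apply, apply_ite C]

omit [DecidableEq n] in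
theorem map_sub_ (φ : R →+* S) (g : Matrix n n R) (f : MvPolynomial n R) :
    map φ (sub g f) = sub (g.map φ) (map φ f) := by
  induction f using MvPolynomial.induction_on with
  | C a => simp
  | add f f' e e' => simp [e, e']
  | mul_X f i e => simp [e, sub_X]

omit [DecidableEq n] in
theorem sub_hom (g : Matrix n n R) {f : MvPolynomial n R} {d : ℕ} (h : f.IsHomogeneous d) :
    (sub g f).IsHomogeneous d := by
  have := h.aeval (fun i => ∑ j, C (g i j) * X j) (n := 1) fun i =>
    IsHomogeneous.sum _ _ _ fun j _ => isHomogeneous_C_mul_X _ _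
  rwa [one_mul] at this

theorem pderiv_sub (g : Matrix n n R) (j : n) (f : MvPolynomial n R) :
    pderiv j (sub g f) = ∑ i, C (g i j) * sub g (pderiv i f) := by
  induction f using MvPolynomial.induction_on with
  | C a => simp
  | add f f' e e' => simp [e, e', mul_add, Finset.sum_add_distrib]
  | mul_X f l e =>
    have e1 : pderiv j (sub g (X l)) = C (g l j) := by
      simp [sub_X, Pi.single_apply]
    have e2 : ∑ i, C (g i j) * sub g (f * pderiv i (X l)) = sub g f * C (g l j) := by
      rw [Finset.sum_eq_single l]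
      · simp [mul_comm]
      · intro i _ hi
        simp [pderiv_X_of_ne hi.symm]
      · simp
    rw [map_mul, pderiv_mul, e, e1, ← e2, Finset.sum_mul, ← Finset.sum_add_distrib]
    refine Finset.sum_congr rfl fun i _ => ?_
    rw [pderiv_mul, map_add, map_mul, map_mul]
    ring

omit [Fintype n] in
theorem pderiv_comm' (i j : n) (f : MvPolynomial n R) :
    pderiv i (pderiv j f) = pderiv j (pderiv i f) := by
  by_cases h : i = j
  · rw [h]
  ext m
  simp only [coeff_pderiv, Finsupp.add_apply, Finsupp.single_eq_of_ne h,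
    Finsupp.single_eq_of_ne (Ne.symm h), add_zero]
  rw [add_right_comm]
  ring

variable (n R) in
/-- differential operators with constant coefficients -/
noncomputable def dops : Subalgebra R (Module.End R (MvPolynomial n R)) :=
  Algebra.adjoin R (Set.range fun i => (pderiv i).toLinearMap)

omit [Fintype n] in
theorem dops_comm : IsMulCommutative (dops R n) :=
  Algebra.isMulCommutative_adjoin R (by
    rintro _ ⟨i, rfl⟩ _ ⟨j, rfl⟩
    exact LinearMap.ext fun f => pderiv_comm' i j f)

noncomputable instance dopsRing : CommRing (dops R n) :=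
  { (inferInstance : Ring (dops R n)) with mul_comm := dops_comm.is_comm.comm }

/-- the action of polynomials as differential operators -/
noncomputable def act : MvPolynomial n R →ₐ[R] Module.End R (MvPolynomial n R) :=
  (dops R n).val.comp (aeval fun i => ⟨(pderiv i).toLinearMap, Algebra.subset_adjoin ⟨i, rfl⟩⟩)

omit [Fintype n] in
theorem act_X (i : n) (f : MvPolynomial n R) : act (X i) f = pderiv i f := by
  simp [act]

omit [Fintype n] in
theorem act_C (a : R) (f : MvPolynomial n R) : act (C a) f = C a * f := by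
  rw [← algebraMap_eq, AlgHom.commutes, Module.algebraMap_end_apply, algebraMap_eq, smul_eq_C_mul]

omit [Fintype n] in
theorem act_mul (P P' f : MvPolynomial n R) : act (P * P') f = act P (act P' f) := by
  rw [map_mul, Module.End.mul_apply]

theorem act_sub (g : Matrix n n R) (P f : MvPolynomial n R) :
    act P (sub g f) = sub g (act (sub gᵀ P) f) := by
  induction P using MvPolynomial.induction_on generalizing f with
  | C a => simp
  | add P P' e e' => simp [e, e']
  | mul_X P j e =>
    rw [act_mul, act_X, pderiv_sub, map_mul (sub gᵀ), act_mul, ← e, sub_X]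
    simp [act_X, C_mul']

omit [Fintype n] in
theorem coeff_act_pow (i : n) (r : ℕ) (f : MvPolynomial n R) (m : n →₀ ℕ) :
    coeff m (act (X i ^ r) f) =
      coeff (m + Finsupp.single i r) f * ((m i + 1).ascFactorial r : ℕ) := by
  induction r generalizing f with
  | zero => simp
  | succ r ih =>
    rw [pow_succ, act_mul, ih, act_X, coeff_pderiv, add_assoc, ← Finsupp.single_add,
      Nat.ascFactorial_succ]
    simp only [Finsupp.add_apply, Finsupp.single_eq_same]
    push_cast
    ring

omit [Fintype n] in
theorem coeff_act_prod (s : Finset n) (r : ℕ) (f : MvPolynomial n R) (m : n →₀ ℕ) :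
    coeff m (act (∏ i ∈ s, X i ^ r) f) = coeff (m + ∑ i ∈ s, Finsupp.single i r) f *
      ∏ i ∈ s, ((m i + 1).ascFactorial r : ℕ) := by
  induction s using Finset.induction_on generalizing m with
  | empty => simp
  | insert a s ha ih =>
    rw [Finset.prod_insert ha, act_mul, coeff_act_pow, ih, Finset.sum_insert ha,
      Finset.prod_insert ha, add_assoc, Finset.prod_congr rfl (g := fun i =>
        (m i + 1).ascFactorial r) fun i hi => by
          rw [Finsupp.add_apply, Finsupp.single_eq_of_ne (by rintro rfl; exact ha hi), add_zero]]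
    push_cast
    ring

variable (p : ℕ) [Fact p.Prime] [CharP R p]

omit [Fact p.Prime] in
theorem asc_of_dvd {a : ℕ} (h : p ∣ a) (r : ℕ) :
    (((a + 1).ascFactorial r : ℕ) : R) = (r.factorial : R) := by
  induction r with
  | zero => simp
  | succ r ih =>
    rw [Nat.ascFactorial_succ, Nat.factorial_succ]
    push_cast
    rw [ih, (CharP.cast_eq_zero_iff R p a).2 h]
    ring

theorem dvd_asc {a r s : ℕ} (hs : s < r) : a + s ∣ a.ascFactorial r := by
  rw [Nat.ascFactorial_eq_prod_range]
  exact Finset.dvd_prod_of_mem _ (Finset.mem_range.2 hs)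

theorem asc_of_not_dvd {a : ℕ} (h : ¬p ∣ a) :
    (((a + 1).ascFactorial (p - 1) : ℕ) : R) = 0 := by
  have hp := (Fact.out : p.Prime).pos
  have h1 := Nat.mod_lt a hp
  have h2 : a % p ≠ 0 := fun e => h (Nat.dvd_of_mod_eq_zero e)
  have h3 := Nat.div_add_mod a p
  rw [CharP.cast_eq_zero_iff R p]
  refine Dvd.dvd.trans ⟨a / p + 1, ?_⟩ (dvd_asc (s := p - 1 - a % p) (by omega))
  rw [mul_add]
  omega

omit [Fintype n] in
theorem act_X_pow (i : n) : act ((X i : MvPolynomial n R) ^ p) = 0 := by
  refine LinearMap.ext fun f => MvPolynomial.ext _ _ fun m => ?_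
  rw [coeff_act_pow, (CharP.cast_eq_zero_iff R p _).2
    ((Nat.dvd_factorial (Fact.out : p.Prime).pos le_rfl).trans (Nat.factorial_dvd_ascFactorial _ _))]
  simp

variable (R n) in
/-- the ideal of the `p`-th powers of the variables -/
noncomputable def frobId : Ideal (MvPolynomial n R) := Ideal.span (Set.range fun i => X i ^ p)

omit [DecidableEq n] in
theorem sub_frobId (g : Matrix n n R) {f : MvPolynomial n R} (h : f ∈ frobId R n p) :
    sub g f ∈ frobId R n p := by
  refine (Ideal.span_le (I := (frobId R n p).comap (sub g))).2 ?_ h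
  rintro _ ⟨i, rfl⟩
  change sub g (X i ^ p) ∈ frobId R n p
  rw [map_pow, sub_X, sum_pow_char]
  exact Ideal.sum_mem _ fun j _ => by
    rw [mul_pow]
    exact Ideal.mul_mem_left _ _ (Ideal.subset_span ⟨j, rfl⟩)

omit [Fintype n] in
theorem act_frobId {f : MvPolynomial n R} (h : f ∈ frobId R n p) : act f = 0 := by
  refine (Ideal.span_le (I := RingHom.ker (act : MvPolynomial n R →ₐ[R] _))).2 ?_ h
  rintro _ ⟨i, rfl⟩
  exact act_X_pow p i

/-- the Cartier operator, up to a unit and without extraction of roots -/
noncomputable def car : Module.End R (MvPolynomial n R) := act (∏ i, X i ^ (p - 1))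

theorem coeff_car (f : MvPolynomial n R) (m : n →₀ ℕ) : coeff m (car p f) =
    if ∀ i, p ∣ m i then coeff (m + ∑ i, Finsupp.single i (p - 1)) f *
      ((p - 1).factorial : R) ^ Fintype.card n else 0 := by
  rw [car, coeff_act_prod]
  push_cast
  split_ifs with h
  · simp [asc_of_dvd p (h _)]
  · obtain ⟨i, hi⟩ := not_forall.1 h
    rw [Finset.prod_eq_zero (Finset.mem_univ i) (asc_of_not_dvd p hi), mul_zero]

theorem car_mul_X {G : MvPolynomial (Fin 4) R} (hG : G.IsHomogeneous (5 * (p - 1))) (i : Fin 4) :
    car p (G * X i) = ∑ j, C (((p - 1).factorial : R) ^ 4 * coeff (p • ex j - ex i) G) * X j ^ p := by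
  have hp := (Fact.out : p.Prime).two_le
  ext m
  rw [coeff_car]
  simp only [coeff_sum, coeff_C_mul, coeff_X_pow]
  by_cases h : ∃ j, Finsupp.single j p = m
  · obtain ⟨j, rfl⟩ := h
    have e : Finsupp.single j p + ∑ l : Fin 4, Finsupp.single l (p - 1) =
        (p • ex j - ex i) + Finsupp.single i 1 := by
      ext l
      simp only [ex, Finsupp.add_apply, Finsupp.tsub_apply, Finsupp.smul_apply, Finsupp.single_apply,
        Finsupp.finsetSum_apply, Finset.sum_ite_eq', Finset.mem_univ, if_true, smul_eq_mul]
      split_ifs <;> omega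
    rw [if_pos fun l => by rw [Finsupp.single_apply]; split_ifs <;> simp, e, coeff_mul_X,
      Finset.sum_eq_single j]
    · simp [mul_comm]
    · intro l _ hl
      rw [if_neg fun e => hl (Finsupp.single_left_injective (by omega) e), mul_zero]
    · simp
  · refine Eq.trans ?_ (Finset.sum_eq_zero fun j _ => by
      rw [if_neg fun e => h ⟨j, e⟩, mul_zero]).symm
    split_ifs with h'
    · rw [(hG.mul (isHomogeneous_X R i)).coeff_eq_zero, zero_mul]
      intro e
      simp only [Finsupp.degree_eq_sum, Finsupp.add_apply, Finsupp.finsetSum_apply,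
        Finsupp.single_apply, Finset.sum_ite_eq', Finset.mem_univ, if_true] at e
      rw [Fin.sum_univ_four] at e
      have key : ∀ l, m l = 0 ∨ p ≤ m l := fun l =>
        (Nat.eq_zero_or_pos (m l)).imp id fun a => Nat.le_of_dvd a (h' l)
      have a0 := key 0
      have a1 := key 1
      have a2 := key 2
      have a3 := key 3
      have : ∃ j, m j = p ∧ ∀ l, l ≠ j → m l = 0 := by
        simp only [Fin.exists_fin_succ, Fin.forall_fin_succ]
        simp
        omega
      obtain ⟨j, b1, b2⟩ := this
      refine h ⟨j, Finsupp.ext fun l => ?_⟩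
      by_cases hl : l = j
      · simp [hl, b1]
      · simp [hl, b2 l hl]
    · rfl

end ring

variable {k : Type*} [Field k] {n : Type} [Fintype n] [DecidableEq n] (p : ℕ) [Fact p.Prime]
  [CharP k p]

theorem socle (g : Matrix n n k) :
    sub g (∏ i, X i ^ (p - 1)) - C (g.det ^ (p - 1)) * ∏ i, X i ^ (p - 1) ∈ frobId k n p := by
  refine diagonal_transvection_induction (fun g : Matrix n n k =>
    sub g (∏ i, X i ^ (p - 1)) - C (g.det ^ (p - 1)) * ∏ i, X i ^ (p - 1) ∈ frobId k n p) g
    (fun D _ => ?_) (fun t => ?_) fun A B hA hB => ?_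
  · have : ∀ i, sub (diagonal D) (X i) = C (D i) * X i := fun i => by
      simp [sub_X, diagonal_apply, apply_ite C]
    simp [this, mul_pow, Finset.prod_mul_distrib, Finset.prod_pow]
  · obtain ⟨i, j, hij, c⟩ := t
    have e : ∀ l, sub (transvection i j c) (X l) = X l + if l = i then C c * X j else 0 := by
      intro l
      simp only [sub_X, transvection, Matrix.add_apply, Matrix.one_apply, map_add, add_mul,
        Finset.sum_add_distrib, apply_ite C, ite_mul, Matrix.single_apply]
      by_cases hl : l = i
      · simp [hl]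
      · simp [hl, Ne.symm hl]
    have hj : j ∈ Finset.univ.erase i := Finset.mem_erase.2 ⟨hij.symm, Finset.mem_univ _⟩
    rw [TransvectionStruct.toMatrix_mk, det_transvection_of_ne _ _ hij, one_pow, map_one, one_mul,
      map_prod, ← Finset.mul_prod_erase _ _ (Finset.mem_univ i),
      ← Finset.mul_prod_erase _ (fun l => (X l : MvPolynomial n k) ^ (p - 1)) (Finset.mem_univ i),
      Finset.prod_congr rfl (g := fun l => (X l : MvPolynomial n k) ^ (p - 1)) fun l hl => by
        rw [map_pow, e, if_neg (Finset.mem_erase.1 hl).1, add_zero],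
      ← _root_.sub_mul, ← Finset.mul_prod_erase _ _ hj, map_pow, e, if_pos rfl]
    obtain ⟨u, hu⟩ := sub_dvd_pow_sub_pow (X i + C c * X j : MvPolynomial n k) (X i) (p - 1)
    have e2 : (X j : MvPolynomial n k) ^ p = X j * X j ^ (p - 1) := by
      rw [← pow_succ', Nat.sub_add_cancel (Fact.out : p.Prime).pos]
    rw [hu, show ∀ w : MvPolynomial n k, (X i + C c * X j - X i) * u * (X j ^ (p - 1) * w) =
      C c * u * w * (X j * X j ^ (p - 1)) from fun w => by ring, ← e2]
    exact Ideal.mul_mem_left _ _ (Ideal.subset_span ⟨j, rfl⟩)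
  · have h1 := sub_frobId p B hA
    rw [map_sub, map_mul, sub_C] at h1
    have := add_mem h1 (Ideal.mul_mem_left _ (C (A.det ^ (p - 1))) hB)
    rw [sub_mul, det_mul, mul_pow, map_mul]
    convert this using 1
    ring

theorem car_sub (g : Matrix n n k) (f : MvPolynomial n k) :
    car p (sub g f) = C (g.det ^ (p - 1)) * sub g (car p f) := by
  have h := act_frobId p (socle p gᵀ)
  rw [map_sub, sub_eq_zero] at h
  rw [car, act_sub, h, act_mul, act_C, map_mul, sub_C, det_transpose]

theorem fact_ne : ((p - 1).factorial : k) ≠ 0 := by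
  rw [Ne, CharP.cast_eq_zero_iff k p, (Fact.out : p.Prime).dvd_factorial]
  have := (Fact.out : p.Prime).pos
  omega

omit [Fintype n] [CharP k p] in
theorem pow_indep {s : Finset n} {a b : n → k} (h : ∑ j ∈ s, C (a j) * X j ^ p =
    ∑ j ∈ s, C (b j) * (X j : MvPolynomial n k) ^ p) {j : n} (hj : j ∈ s) : a j = b j := by
  have := congrArg (coeff (Finsupp.single j p)) h
  simpa [coeff_sum, coeff_C_mul, coeff_X_pow,
    Finsupp.single_left_inj (Fact.out : p.Prime).ne_zero, hj] using this

omit [DecidableEq n] in
theorem sub_X_pow (g : Matrix n n k) (i : n) :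
    sub g (X i ^ p) = ∑ j, C (g i j ^ p) * X j ^ p := by
  simp [sub_X, sum_pow_char, mul_pow]

theorem hw_sub_aux (g : Matrix (Fin 4) (Fin 4) k) {G : MvPolynomial (Fin 4) k}
    (hG : G.IsHomogeneous (5 * (p - 1))) (i b : Fin 4) :
    ∑ a, g i a * coeff (p • ex b - ex a) (sub g G) =
      g.det ^ (p - 1) * ∑ j, coeff (p • ex j - ex i) G * g j b ^ p := by
  have h := car_sub p g (G * X i)
  have L : car p (sub g (G * X i)) = ∑ b, C (∑ a, g i a * (((p - 1).factorial : k) ^ 4 *
      coeff (p • ex b - ex a) (sub g G))) * X b ^ p := by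
    rw [map_mul, sub_X, Finset.mul_sum, map_sum]
    simp only [map_sum C, Finset.sum_mul]
    rw [Finset.sum_comm]
    refine Finset.sum_congr rfl fun a _ => ?_
    rw [mul_left_comm, C_mul', map_smul, car_mul_X p (sub_hom g hG), smul_eq_C_mul, Finset.mul_sum]
    simp only [map_mul C (g i a), mul_assoc]
  have R : C (g.det ^ (p - 1)) * sub g (car p (G * X i)) = ∑ b, C (∑ j, g.det ^ (p - 1) *
      (((p - 1).factorial : k) ^ 4 * coeff (p • ex j - ex i) G) * g j b ^ p) * X b ^ p := by
    rw [car_mul_X p hG, map_sum, Finset.mul_sum]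
    simp only [map_sum C, Finset.sum_mul]
    rw [Finset.sum_comm]
    refine Finset.sum_congr rfl fun a _ => ?_
    rw [map_mul (sub g), sub_C, sub_X_pow, Finset.mul_sum, Finset.mul_sum]
    simp only [map_mul C, mul_assoc]
  rw [L, R] at h
  have h2 := pow_indep p h (Finset.mem_univ b)
  refine mul_left_cancel₀ (pow_ne_zero 4 (fact_ne (k := k) p)) ?_
  simp only [Finset.mul_sum]
  convert h2 using 2 <;> ring

theorem hw_sub (g : Matrix (Fin 4) (Fin 4) k) {Q F : MvPolynomial (Fin 4) k}
    (hQ : Q.IsHomogeneous 2) (hF : F.IsHomogeneous 3) :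
    g * hasseWitt p (sub g Q) (sub g F) =
      g.det ^ (p - 1) • (hasseWitt p Q F * g.map (· ^ p)) := by
  ext i b
  have := hw_sub_aux p g ((hQ.mul hF).pow (p - 1)) i b
  rw [map_pow, map_mul] at this
  exact this

theorem nil_sub {g : Matrix (Fin 4) (Fin 4) k} (hg : g.det ≠ 0) {Q F : MvPolynomial (Fin 4) k}
    (hQ : Q.IsHomogeneous 2) (hF : F.IsHomogeneous 3) (h : tw p (hasseWitt p Q F) 4 = 0) :
    tw p (hasseWitt p (sub g Q) (sub g F)) 4 = 0 := by
  have h1 := tw_conj p (A := g.det ^ (p - 1) • hasseWitt p Q F)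
    ((Matrix.smul_mul _ _ _).trans (hw_sub p g hQ hF).symm) 4
  obtain ⟨e, he⟩ := tw_smul p (g.det ^ (p - 1)) (hasseWitt p Q F) 4
  rw [he, h, smul_zero, zero_mul] at h1
  have := congrArg (g⁻¹ * ·) h1
  simpa [Matrix.nonsing_inv_mul_cancel_left g _ (Ne.isUnit hg)] using this.symm

theorem grad_sub (g : Matrix n n k) (x : n → k) (f : MvPolynomial n k) :
    (fun i => eval x (pderiv i (sub g f))) = (fun i => eval (g *ᵥ x) (pderiv i f)) ᵥ* g := by
  ext i
  simp [pderiv_sub, eval_sub, Matrix.vecMul, dotProduct, mul_comm]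

theorem smooth_sub {g : Matrix (Fin 4) (Fin 4) k} (hg : g.det ≠ 0) {Q F : MvPolynomial (Fin 4) k}
    (h : SmoothCI Q F) : SmoothCI (sub g Q) (sub g F) := by
  intro x hx h1 h2
  rw [eval_sub] at h1 h2
  have := h (g *ᵥ x) (fun e => hx (Matrix.eq_zero_of_mulVec_eq_zero hg e)) h1 h2
  rw [grad_sub, grad_sub]
  rw [LinearIndependent.pair_iff] at this ⊢
  intro s t e
  refine this s t (Matrix.eq_zero_of_vecMul_eq_zero hg ?_)
  rw [Matrix.add_vecMul, Matrix.smul_vecMul, Matrix.smul_vecMul, e]

end Pool.Agent.Work.MP_da2620_ag
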