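import Pool.Agent.Work.MP_da2620_ag.Expl

/-! Quadrics in characteristic two: the Hasse-Witt matrix determines the cubic; normal forms. -/

open MvPolynomial Matrix

namespace Pool.Agent.Work.MP_da2620_ag

section ring

variable {R S : Type*} [CommRing R] [CommRing S]

/-- the Pfaffian of the polar form -/
def pf (a : Fin 10 → R) : R := a 1 * a 8 + a 2 * a 6 + a 3 * a 5

/-- the coefficients of `D Q + l Q`, where `D = ∑ M i j x_j ^ 2 ∂_i` -/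
def dq (M : Matrix (Fin 4) (Fin 4) R) (a : Fin 10 → R) (l : Fin 4 → R) : Fin 20 → R :=
  ![M 1 0 * a 1 + M 2 0 * a 2 + M 3 0 * a 3 + a 0 * l 0,
    M 0 0 * a 1 + M 2 0 * a 5 + M 3 0 * a 6 + a 0 * l 1 + a 1 * l 0,
    M 0 0 * a 2 + M 1 0 * a 5 + M 3 0 * a 8 + a 0 * l 2 + a 2 * l 0,
    M 0 0 * a 3 + M 1 0 * a 6 + M 2 0 * a 8 + a 0 * l 3 + a 3 * l 0,
    M 1 1 * a 1 + M 2 1 * a 2 + M 3 1 * a 3 + a 1 * l 1 + a 4 * l 0,
    a 1 * l 2 + a 2 * l 1 + a 5 * l 0,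
    a 1 * l 3 + a 3 * l 1 + a 6 * l 0,
    M 1 2 * a 1 + M 2 2 * a 2 + M 3 2 * a 3 + a 2 * l 2 + a 7 * l 0,
    a 2 * l 3 + a 3 * l 2 + a 8 * l 0,
    M 1 3 * a 1 + M 2 3 * a 2 + M 3 3 * a 3 + a 3 * l 3 + a 9 * l 0,
    M 0 1 * a 1 + M 2 1 * a 5 + M 3 1 * a 6 + a 4 * l 1,
    M 0 1 * a 2 + M 1 1 * a 5 + M 3 1 * a 8 + a 4 * l 2 + a 5 * l 1,
    M 0 1 * a 3 + M 1 1 * a 6 + M 2 1 * a 8 + a 4 * l 3 + a 6 * l 1,
    M 0 2 * a 1 + M 2 2 * a 5 + M 3 2 * a 6 + a 5 * l 2 + a 7 * l 1,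
    a 5 * l 3 + a 6 * l 2 + a 8 * l 1,
    M 0 3 * a 1 + M 2 3 * a 5 + M 3 3 * a 6 + a 6 * l 3 + a 9 * l 1,
    M 0 2 * a 2 + M 1 2 * a 5 + M 3 2 * a 8 + a 7 * l 2,
    M 0 2 * a 3 + M 1 2 * a 6 + M 2 2 * a 8 + a 7 * l 3 + a 8 * l 2,
    M 0 3 * a 2 + M 1 3 * a 5 + M 3 3 * a 8 + a 8 * l 3 + a 9 * l 2,
    M 0 3 * a 3 + M 1 3 * a 6 + M 2 3 * a 8 + a 9 * l 3]

/-- a linear form -/
def lq (a : Fin 10 → R) (c : Fin 20 → R) : Fin 4 → R :=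
  ![a 1 * c 8 + a 2 * c 6 + a 3 * c 5,
    a 1 * c 14 + a 5 * c 6 + a 6 * c 5,
    a 2 * c 14 + a 5 * c 8 + a 8 * c 5,
    a 3 * c 14 + a 6 * c 8 + a 8 * c 6]

theorem dq_map {F : Type*} [FunLike F R S] [RingHomClass F R S] (φ : F)
    (M : Matrix (Fin 4) (Fin 4) R) (a : Fin 10 → R) (l : Fin 4 → R) (i : Fin 20) :
    φ (dq M a l i) = dq (M.map φ) (fun j => φ (a j)) (fun j => φ (l j)) i := by
  fin_cases i <;> simp [dq]

theorem hw2_map {F : Type*} [FunLike F R S] [RingHomClass F R S] (φ : F) (a : Fin 10 → R)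
    (c : Fin 20 → R) : (hw2 a c).map φ = hw2 (fun j => φ (a j)) fun j => φ (c j) := by
  ext i j
  fin_cases i <;> fin_cases j <;> simp [hw2]

theorem dq_smul (s : R) (M : Matrix (Fin 4) (Fin 4) R) (a : Fin 10 → R) (l : Fin 4 → R) :
    dq (s • M) a (s • l) = s • dq M a l := by
  ext i
  fin_cases i <;> simp [dq] <;> ring

theorem dq_hw2 [CharP R 2] (a : Fin 10 → R) (c : Fin 20 → R) :
    dq (hw2 a c) a (lq a c) = pf a • c := by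
  ext i
  fin_cases i <;> simp [dq, hw2, lq, pf] <;> grind

theorem hw2_dq [CharP R 2] (M : Matrix (Fin 4) (Fin 4) R) (a : Fin 10 → R) (l : Fin 4 → R) :
    hw2 a (dq M a l) = pf a • M := by
  ext i j
  fin_cases i <;> fin_cases j <;> simp [dq, hw2, pf] <;> grind

theorem cv_line (c : Fin 20 → R) (r s : Fin 4 → R) : ∃ c₁ c₂ : R, ∀ t : R,
    cv c (r + t • s) = cv c r + c₁ * t + c₂ * t ^ 2 + cv c s * t ^ 3 := by
  refine ⟨3 * c 0 * r 0 ^ 2 * s 0 + 2 * c 1 * r 0 * r 1 * s 0 + c 1 * r 0 ^ 2 * s 1 +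
      3 * c 10 * r 1 ^ 2 * s 1 + 2 * c 11 * r 1 * r 2 * s 1 + c 11 * r 1 ^ 2 * s 2 +
      2 * c 12 * r 1 * r 3 * s 1 + c 12 * r 1 ^ 2 * s 3 + 2 * c 13 * r 1 * r 2 * s 2 +
      c 13 * r 2 ^ 2 * s 1 + c 14 * r 1 * r 2 * s 3 + c 14 * r 1 * r 3 * s 2 +
      c 14 * r 2 * r 3 * s 1 + 2 * c 15 * r 1 * r 3 * s 3 + c 15 * r 3 ^ 2 * s 1 +
      3 * c 16 * r 2 ^ 2 * s 2 + 2 * c 17 * r 2 * r 3 * s 2 + c 17 * r 2 ^ 2 * s 3 +
      2 * c 18 * r 2 * r 3 * s 3 + c 18 * r 3 ^ 2 * s 2 + 3 * c 19 * r 3 ^ 2 * s 3 +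
      2 * c 2 * r 0 * r 2 * s 0 + c 2 * r 0 ^ 2 * s 2 + 2 * c 3 * r 0 * r 3 * s 0 +
      c 3 * r 0 ^ 2 * s 3 + 2 * c 4 * r 0 * r 1 * s 1 + c 4 * r 1 ^ 2 * s 0 +
      c 5 * r 0 * r 1 * s 2 + c 5 * r 0 * r 2 * s 1 + c 5 * r 1 * r 2 * s 0 +
      c 6 * r 0 * r 1 * s 3 + c 6 * r 0 * r 3 * s 1 + c 6 * r 1 * r 3 * s 0 +
      2 * c 7 * r 0 * r 2 * s 2 + c 7 * r 2 ^ 2 * s 0 + c 8 * r 0 * r 2 * s 3 +
      c 8 * r 0 * r 3 * s 2 + c 8 * r 2 * r 3 * s 0 + 2 * c 9 * r 0 * r 3 * s 3 +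
      c 9 * r 3 ^ 2 * s 0,
    3 * c 0 * r 0 * s 0 ^ 2 + 2 * c 1 * r 0 * s 0 * s 1 + c 1 * r 1 * s 0 ^ 2 +
      3 * c 10 * r 1 * s 1 ^ 2 + 2 * c 11 * r 1 * s 1 * s 2 + c 11 * r 2 * s 1 ^ 2 +
      2 * c 12 * r 1 * s 1 * s 3 + c 12 * r 3 * s 1 ^ 2 + c 13 * r 1 * s 2 ^ 2 +
      2 * c 13 * r 2 * s 1 * s 2 + c 14 * r 1 * s 2 * s 3 + c 14 * r 2 * s 1 * s 3 +
      c 14 * r 3 * s 1 * s 2 + c 15 * r 1 * s 3 ^ 2 + 2 * c 15 * r 3 * s 1 * s 3 +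
      3 * c 16 * r 2 * s 2 ^ 2 + 2 * c 17 * r 2 * s 2 * s 3 + c 17 * r 3 * s 2 ^ 2 +
      c 18 * r 2 * s 3 ^ 2 + 2 * c 18 * r 3 * s 2 * s 3 + 3 * c 19 * r 3 * s 3 ^ 2 +
      2 * c 2 * r 0 * s 0 * s 2 + c 2 * r 2 * s 0 ^ 2 + 2 * c 3 * r 0 * s 0 * s 3 +
      c 3 * r 3 * s 0 ^ 2 + c 4 * r 0 * s 1 ^ 2 + 2 * c 4 * r 1 * s 0 * s 1 +
      c 5 * r 0 * s 1 * s 2 + c 5 * r 1 * s 0 * s 2 + c 5 * r 2 * s 0 * s 1 +
      c 6 * r 0 * s 1 * s 3 + c 6 * r 1 * s 0 * s 3 + c 6 * r 3 * s 0 * s 1 +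
      c 7 * r 0 * s 2 ^ 2 + 2 * c 7 * r 2 * s 0 * s 2 + c 8 * r 0 * s 2 * s 3 +
      c 8 * r 2 * s 0 * s 3 + c 8 * r 3 * s 0 * s 2 + c 9 * r 0 * s 3 ^ 2 +
      2 * c 9 * r 3 * s 0 * s 3, fun t => ?_⟩
  simp only [cv, Pi.add_apply, Pi.smul_apply, smul_eq_mul]
  ring

theorem qv_four (a : Fin 10 → R) (w : Fin 4 → Fin 4 → R) (x : Fin 4 → R) :
    qv a ((Matrix.of w)ᵀ *ᵥ x) = x 0 ^ 2 * qv a (w 0) + x 1 ^ 2 * qv a (w 1) +
      x 2 ^ 2 * qv a (w 2) + x 3 ^ 2 * qv a (w 3) + x 0 * x 1 * qb a (w 1) (w 0) +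
      x 0 * x 2 * qb a (w 0) (w 2) + x 0 * x 3 * qb a (w 3) (w 0) + x 1 * x 2 * qb a (w 1) (w 2) +
      x 1 * x 3 * qb a (w 1) (w 3) + x 2 * x 3 * qb a (w 3) (w 2) := by
  simp only [qv, qb, Matrix.mulVec, dotProduct, Fin.sum_univ_four, transpose_apply, of_apply]
  ring

theorem qb_four (a : Fin 10 → R) (w : Fin 4 → Fin 4 → R) (x y : Fin 4 → R) :
    qb a ((Matrix.of w)ᵀ *ᵥ x) y = x 0 * qb a (w 0) y + x 1 * qb a (w 1) y +
      x 2 * qb a (w 2) y + x 3 * qb a (w 3) y := by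
  simp only [qb, Matrix.mulVec, dotProduct, Fin.sum_univ_four, transpose_apply, of_apply]
  ring

theorem qv_two (a : Fin 10 → R) (α β : R) (r s : Fin 4 → R) :
    qv a (α • r + β • s) = α ^ 2 * qv a r + β ^ 2 * qv a s + α * β * qb a s r := by
  simp only [qv, qb, Pi.add_apply, Pi.smul_apply, smul_eq_mul]
  ring

theorem qb_two (a : Fin 10 → R) (α β : R) (r s y : Fin 4 → R) :
    qb a (α • r + β • s) y = α * qb a r y + β * qb a s y := by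
  simp only [qb, Pi.add_apply, Pi.smul_apply, smul_eq_mul]
  ring

theorem qb_comm (a : Fin 10 → R) (x y : Fin 4 → R) : qb a x y = qb a y x := by
  simp only [qb]
  ring

theorem qb_self (a : Fin 10 → R) (x : Fin 4 → R) : qb a x x = 2 * qv a x := by
  simp only [qb, qv]
  ring

end ring

variable {k : Type*} [Field k]

theorem line_zero [IsAlgClosed k] (c : Fin 20 → k) (r s : Fin 4 → k) :
    ∃ α β : k, ¬(α = 0 ∧ β = 0) ∧ cv c (α • r + β • s) = 0 := by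
  by_cases h : cv c s = 0
  · exact ⟨0, 1, by simp, by simpa using h⟩
  obtain ⟨c₁, c₂, e⟩ := cv_line c r s
  obtain ⟨t, ht⟩ := IsAlgClosed.exists_root (Polynomial.C (cv c r) + Polynomial.C c₁ * Polynomial.X +
    Polynomial.C c₂ * Polynomial.X ^ 2 + Polynomial.C (cv c s) * Polynomial.X ^ 3) (by
      rw [show Polynomial.degree _ = 3 by compute_degree!]
      decide)
  refine ⟨1, t, by simp, ?_⟩
  rw [one_smul, e]
  simpa using ht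

theorem not_sing_line [IsAlgClosed k] {a : Fin 10 → k} {c : Fin 20 → k}
    (h : SmoothCI (form v2 a) (form v3 c)) {r s : Fin 4 → k} (hr : ∀ y, qb a r y = 0)
    (hs : ∀ y, qb a s y = 0) (hr' : qv a r = 0) (hs' : qv a s = 0)
    (hi : ∀ α β : k, α • r + β • s = 0 → α = 0 ∧ β = 0) : False := by
  obtain ⟨α, β, h1, h2⟩ := line_zero c r s
  refine h1 (hi α β ((smooth_iff _ _).1 h _ ?_ (by rwa [eval_cub]) fun i j => ?_))
  · rw [eval_quad, qv_two, hr', hs', hs]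
    ring
  · simp [eval_pderiv_quad, qb_two, hr, hs]

variable [CharP k 2]

theorem rad_pair {a : Fin 10 → k} (h : pf a = 0) : (∀ x y, qb a x y = 0) ∨
    ∃ w₀ w₂ r s : Fin 4 → k, qb a w₀ w₂ ≠ 0 ∧ (∀ y, qb a r y = 0) ∧ (∀ y, qb a s y = 0) ∧
      ∀ α β : k, α • r + β • s = 0 → α = 0 ∧ β = 0 := by
  rw [pf] at h
  have r0 : ∀ y, qb a ![0, a 8, a 6, a 5] y = 0 := fun y => by simp [qb]; grind
  have r1 : ∀ y, qb a ![a 8, 0, a 3, a 2] y = 0 := fun y => by simp [qb]; grind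
  have r2 : ∀ y, qb a ![a 6, a 3, 0, a 1] y = 0 := fun y => by simp [qb]; grind
  have r3 : ∀ y, qb a ![a 5, a 2, a 1, 0] y = 0 := fun y => by simp [qb]; grind
  by_cases h1 : a 1 ≠ 0
  · exact Or.inr ⟨Pi.single 0 1, Pi.single 1 1, _, _, by simpa [qb] using h1, r2, r3, fun α β e =>
      ⟨by simpa [h1] using congrFun e 3, by simpa [h1] using congrFun e 2⟩⟩
  by_cases h2 : a 2 ≠ 0
  · exact Or.inr ⟨Pi.single 0 1, Pi.single 2 1, _, _, by simpa [qb] using h2, r1, r3, fun α β e =>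
      ⟨by simpa [h2] using congrFun e 3, by simpa [h2] using congrFun e 1⟩⟩
  by_cases h3 : a 3 ≠ 0
  · exact Or.inr ⟨Pi.single 0 1, Pi.single 3 1, _, _, by simpa [qb] using h3, r1, r2, fun α β e =>
      ⟨by simpa [h3] using congrFun e 2, by simpa [h3] using congrFun e 1⟩⟩
  by_cases h5 : a 5 ≠ 0
  · exact Or.inr ⟨Pi.single 1 1, Pi.single 2 1, _, _, by simpa [qb] using h5, r0, r3, fun α β e =>
      ⟨by simpa [h5] using congrFun e 3, by simpa [h5] using congrFun e 0⟩⟩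
  by_cases h6 : a 6 ≠ 0
  · exact Or.inr ⟨Pi.single 1 1, Pi.single 3 1, _, _, by simpa [qb] using h6, r0, r2, fun α β e =>
      ⟨by simpa [h6] using congrFun e 2, by simpa [h6] using congrFun e 0⟩⟩
  by_cases h8 : a 8 ≠ 0
  · exact Or.inr ⟨Pi.single 2 1, Pi.single 3 1, _, _, by simpa [qb] using h8, r0, r1, fun α β e =>
      ⟨by simpa [h8] using congrFun e 1, by simpa [h8] using congrFun e 0⟩⟩
  refine Or.inl fun x y => ?_
  simp only [ne_eq, not_not] at h1 h2 h3 h5 h6 h8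
  simp only [qb, h1, h2, h3, h5, h6, h8]
  grind

/-- the family of quadrics `x₀ x₂ + x₁ ^ 2 + b x₁ x₃` -/
def qn {R : Type*} [CommRing R] (b : R) : Fin 10 → R := ![0, 0, 1, 0, 1, 0, b, 0, 0, 0]

omit [CharP k 2] in
theorem normal_of [Infinite k] {a : Fin 10 → k} {w₀ u w₂ v : Fin 4 → k} (h0 : qv a w₀ = 0)
    (h1 : qv a u = 1) (h2 : qv a w₂ = 0) (h3 : qv a v = 0) (hb : qb a w₀ w₂ = 1)
    (hu : ∀ y, qb a u y = 0) (hv : ∀ y, qb a v y = 0) (hv' : v ≠ 0) :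
    ∃ g : Matrix (Fin 4) (Fin 4) k, g.det ≠ 0 ∧ sub g (form v2 a) = form v2 (qn 0) := by
  have e : ∀ x, qv a ((Matrix.of ![w₀, u, w₂, v])ᵀ *ᵥ x) = x 0 * x 2 + x 1 ^ 2 := fun x => by
    rw [qv_four]
    simp [h0, h1, h2, h3, hb, hu, hv, add_comm]
  refine ⟨(Matrix.of ![w₀, u, w₂, v])ᵀ, fun hd => ?_, MvPolynomial.funext fun x => ?_⟩
  · obtain ⟨x, hx, hx'⟩ := Matrix.exists_mulVec_eq_zero_iff.2 hd
    have a0 := qb_four a ![w₀, u, w₂, v] x w₂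
    have a2 := qb_four a ![w₀, u, w₂, v] x w₀
    have a1 := e x
    rw [hx'] at a0 a1 a2
    have z1 : ∀ y, qb a 0 y = 0 := fun y => by simp [qb]
    have z2 : qv a 0 = 0 := by simp [qv]
    simp [z1, hb, hu, hv, qb_self, h0, h2, qb_comm a w₂ w₀] at a0 a2
    have b1 : x 1 = 0 := by simpa [z2, ← a0] using a1.symm
    have b3 : x 3 • v = 0 := by
      rw [← hx']
      ext i
      simp [Matrix.mulVec, dotProduct, Fin.sum_univ_four, ← a0, ← a2, b1, mul_comm]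
    refine hx (funext fun i => ?_)
    fin_cases i
    · exact a0.symm
    · exact b1
    · exact a2.symm
    · exact (smul_eq_zero.1 b3).resolve_right hv'
  · rw [eval_sub, eval_quad, eval_quad, e]
    simp [qv, qn]

theorem normal_of_pair [IsAlgClosed k] {a : Fin 10 → k} {w₀ w₂ r s : Fin 4 → k}
    (hb : qb a w₀ w₂ ≠ 0) (hr : ∀ y, qb a r y = 0) (hs : ∀ y, qb a s y = 0) (hr' : qv a r ≠ 0)
    (hi : ∀ α β : k, α • r + β • s = 0 → α = 0 ∧ β = 0) :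
    ∃ g : Matrix (Fin 4) (Fin 4) k, g.det ≠ 0 ∧ sub g (form v2 a) = form v2 (qn 0) := by
  have sq : ∀ x : k, ∃ y : k, y ^ 2 * qv a r = x := fun x => by
    obtain ⟨y, hy⟩ := IsAlgClosed.exists_pow_nat_eq (x / qv a r) (n := 2) two_pos
    exact ⟨y, by rw [hy, div_mul_cancel₀ _ hr']⟩
  obtain ⟨y₀, e₀⟩ := sq (qv a w₀)
  obtain ⟨y₁, e₁⟩ := sq 1
  obtain ⟨y₂, e₂⟩ := sq ((qb a w₀ w₂)⁻¹ ^ 2 * qv a w₂)
  obtain ⟨y₃, e₃⟩ := sq (qv a s)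
  refine normal_of (w₀ := (1 : k) • w₀ + y₀ • r) (u := y₁ • r + (0 : k) • s)
    (w₂ := (qb a w₀ w₂)⁻¹ • w₂ + y₂ • r) (v := y₃ • r + (1 : k) • s) ?_ ?_ ?_ ?_ ?_
    (fun y => by simp [qb_two, hr, hs, -zero_smul]) (fun y => by simp [qb_two, hr, hs, -one_smul])
    fun e => one_ne_zero (hi _ _ e).2
  · rw [qv_two, hr, e₀]
    grind
  · rw [qv_two, hs, e₁]
    ring
  · rw [qv_two, hr, e₂]
    grind
  · rw [qv_two, hs, e₃]
    grind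
  · rw [qb_two, hr, qb_comm, qb_two, hr, qb_comm a w₂, inv_mul_cancel₀ hb]
    ring

theorem normal_form [IsAlgClosed k] {a : Fin 10 → k} {c : Fin 20 → k}
    (h : SmoothCI (form v2 a) (form v3 c)) (hp : pf a = 0) :
    ∃ g : Matrix (Fin 4) (Fin 4) k, g.det ≠ 0 ∧ sub g (form v2 a) = form v2 (qn 0) := by
  rcases rad_pair hp with h0 | ⟨w₀, w₂, r, s, hb, hr, hs, hi⟩
  · have iso : ∀ x y : k, ∃ α β : k, ¬(α = 0 ∧ β = 0) ∧ x * α ^ 2 + y * β ^ 2 = 0 := by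
      intro x y
      by_cases hx : x = 0
      · exact ⟨1, 0, by simp, by simp [hx]⟩
      obtain ⟨z, hz⟩ := IsAlgClosed.exists_pow_nat_eq (y / x) (n := 2) two_pos
      refine ⟨z, 1, by simp, ?_⟩
      rw [hz, mul_div_cancel₀ _ hx]
      grind
    obtain ⟨α, β, h1, h2⟩ := iso (a 0) (a 4)
    obtain ⟨γ, δ, h3, h4⟩ := iso (a 7) (a 9)
    have b1 : a 1 = 0 := by simpa [qb] using h0 (Pi.single 0 1) (Pi.single 1 1)
    have b8 : a 8 = 0 := by simpa [qb] using h0 (Pi.single 2 1) (Pi.single 3 1)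
    refine (not_sing_line h (r := ![α, β, 0, 0]) (s := ![0, 0, γ, δ]) (h0 _) (h0 _)
      (by simpa [qv, b1] using h2) (by simpa [qv, b8] using h4) fun x y e => ?_).elim
    have e0 := congrFun e 0
    have e1 := congrFun e 1
    have e2 := congrFun e 2
    have e3 := congrFun e 3
    simp at e0 e1 e2 e3
    tauto
  · by_cases hr' : qv a r = 0
    · by_cases hs' : qv a s = 0
      · exact (not_sing_line h hr hs hr' hs' hi).elim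
      · exact normal_of_pair hb hs hr hs' fun α β e => (hi β α (by rwa [add_comm])).symm
    · exact normal_of_pair hb hr hs hr' hi

theorem pf_ne {g : Matrix (Fin 4) (Fin 4) k} (hg : g.det ≠ 0) {b : k} (hb : b ≠ 0) {a : Fin 10 → k}
    (h : sub g (form v2 (qn b)) = form v2 a) : pf a ≠ 0 := by
  intro hp
  obtain ⟨x, hx, hx'⟩ : ∃ x : Fin 4 → k, x ≠ 0 ∧ ∀ y, qb a x y = 0 := by
    rcases rad_pair hp with h0 | ⟨-, -, r, s, -, hr, -, hi⟩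
    · exact ⟨1, one_ne_zero, h0 _⟩
    · exact ⟨r, fun e => one_ne_zero (hi 1 0 (by simp [e])).1, hr⟩
  have h1 := grad_sub g x (form v2 (qn b))
  rw [h] at h1
  simp only [eval_pderiv_quad, hx'] at h1
  have h2 := Matrix.eq_zero_of_vecMul_eq_zero hg h1.symm
  refine hx (Matrix.eq_zero_of_mulVec_eq_zero hg ?_)
  generalize g *ᵥ x = y at h2
  have e0 := congrFun h2 0
  have e1 := congrFun h2 1
  have e2 := congrFun h2 2
  have e3 := congrFun h2 3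
  simp [qb, qn, hb, CharTwo.two_eq_zero] at e0 e1 e2 e3
  ext i
  fin_cases i <;> simpa

end Pool.Agent.Work.MP_da2620_ag
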