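import Mathlib

/-!
# Connectedness of linear sections of finite covers: the core argument
`R` is a domain, finite over `P = k[x, y, z]`.  A splitting of `V(x) \ V(y, z)` gives an idempotent
on the formal completion along `x = 0`; its images under linear forms `R → P` are polynomials of
bounded degree, so the idempotent lives in the fraction field of `R`.
-/

namespace PR0.Z

open MvPolynomial

universe u

variable {k : Type u} [Field k] {ι : Type}

/-- Degree in the first group of variables. -/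
def zw (ι : Type) : ι ⊕ Fin 2 → ℕ := Sum.elim (fun _ => 1) fun _ => 0

/-- Polynomials vanishing to order `q` along `x = 0`. -/
def zI (k : Type u) [Field k] (ι : Type) (q : ℕ) : Ideal (MvPolynomial (ι ⊕ Fin 2) k) where
  carrier := {f | ∀ μ, Finsupp.weight (zw ι) μ < q → coeff μ f = 0}
  add_mem' ha hb μ h := by rw [coeff_add, ha μ h, hb μ h, add_zero]
  zero_mem' _ _ := coeff_zero _
  smul_mem' c f hf μ h := by
    classical
    rw [smul_eq_mul, coeff_mul]
    refine Finset.sum_eq_zero fun x hx => ?_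
    rw [← Finset.HasAntidiagonal.mem_antidiagonal.1 hx, map_add] at h
    rw [hf x.2 (by omega), mul_zero]

theorem zI_X {q : ℕ} {f : MvPolynomial (ι ⊕ Fin 2) k} (hf : f ∈ zI k ι q) (i : ι) :
    X (.inl i) * f ∈ zI k ι (q + 1) := by
  classical
  intro μ h
  rw [coeff_X_mul']
  split_ifs with hi
  · refine hf _ ?_
    have h1 : μ = μ - Finsupp.single (.inl i) 1 + Finsupp.single (.inl i) 1 := by
      rw [tsub_add_cancel_of_le]
      rw [Finsupp.single_le_iff]
      exact Nat.one_le_iff_ne_zero.2 (Finsupp.mem_support_iff.1 hi)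
    rw [h1, map_add, Finsupp.weight_single] at h
    exact Nat.lt_of_succ_lt_succ h
  · rfl

theorem zw_single (j : Fin 2) (L : ℕ) :
    Finsupp.weight (zw ι) (Finsupp.single (.inr j) L) = 0 := by
  rw [Finsupp.weight_single]
  simp [zw]

theorem zI_cancel {q L : ℕ} {j : Fin 2} {f : MvPolynomial (ι ⊕ Fin 2) k}
    (hf : X (.inr j) ^ L * f ∈ zI k ι q) : f ∈ zI k ι q := by
  intro μ h
  have := hf (Finsupp.single (.inr j) L + μ) (by rwa [map_add, zw_single, zero_add])
  rwa [X_pow_eq_monomial, coeff_monomial_mul, one_mul] at this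

theorem zw_le (μ : ι ⊕ Fin 2 →₀ ℕ) : Finsupp.weight (zw ι) μ ≤ μ.sum fun _ e => e := by
  rw [Finsupp.weight_apply]
  refine Finset.sum_le_sum fun i _ => ?_
  rcases i with i | i <;> simp [zw]

theorem zI_zero {q : ℕ} {f : MvPolynomial (ι ⊕ Fin 2) k} (hf : f ∈ zI k ι q)
    (hd : f.totalDegree < q) : f = 0 := by
  ext μ
  by_contra h
  exact h (hf μ (((zw_le μ).trans (le_totalDegree (mem_support_iff.2 h))).trans_lt hd))

theorem zI_div {q L d : ℕ} {g g' : MvPolynomial (ι ⊕ Fin 2) k} (hg : g.totalDegree ≤ L + d)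
    (h : g * X (.inr 1) ^ L - g' * X (.inr 0) ^ L ∈ zI k ι q) :
    ∃ c : MvPolynomial (ι ⊕ Fin 2) k, c.totalDegree ≤ d ∧ g - X (.inr 0) ^ L * c ∈ zI k ι q ∧
      g' - X (.inr 1) ^ L * c ∈ zI k ι q := by
  classical
  set s : ι ⊕ Fin 2 →₀ ℕ := Finsupp.single (.inr 0) L with hs
  have h1 : g - X (.inr 0) ^ L * g.divMonomial s ∈ zI k ι q := by
    have h2 : g - X (.inr 0) ^ L * g.divMonomial s = g.modMonomial s := by
      rw [X_pow_eq_monomial, sub_eq_iff_eq_add']
      exact (divMonomial_add_modMonomial g s).symm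
    rw [h2]
    intro μ hμ
    by_cases hle : s ≤ μ
    · exact coeff_modMonomial_of_le _ hle
    · rw [coeff_modMonomial_of_not_le _ hle]
      have := h (μ + Finsupp.single (.inr 1) L) (by rwa [map_add, zw_single, add_zero])
      rw [coeff_sub, X_pow_eq_monomial, coeff_mul_monomial, mul_one, X_pow_eq_monomial,
        coeff_mul_monomial', if_neg, sub_zero] at this
      · exact this
      · intro h3
        refine hle ?_
        rw [hs, Finsupp.single_le_iff] at *
        simpa using h3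
  refine ⟨g.divMonomial s, ?_, h1, ?_⟩
  · rw [totalDegree, Finset.sup_le_iff]
    intro μ hμ
    rw [mem_support_iff, coeff_divMonomial] at hμ
    have h2 := (le_totalDegree (mem_support_iff.2 hμ)).trans hg
    rw [Finsupp.sum_add_index' (fun _ => rfl) (fun _ _ _ => rfl), hs,
      Finsupp.sum_single_index rfl] at h2
    omega
  · refine zI_cancel (L := L) (j := 0) ?_
    have h2 := (zI k ι q).sub_mem ((zI k ι q).mul_mem_left (X (.inr 1) ^ L) h1) h
    convert h2 using 1
    ring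

section
variable {R : Type u} [CommRing R] [Algebra (MvPolynomial (ι ⊕ Fin 2) k) R]

theorem zI_map {q : ℕ} {f : MvPolynomial (ι ⊕ Fin 2) k} (hf : f ∈ zI k ι q) {𝔭 : Ideal R}
    (h : ∀ i, algebraMap (MvPolynomial (ι ⊕ Fin 2) k) R (X (.inl i)) ∈ 𝔭) :
    algebraMap (MvPolynomial (ι ⊕ Fin 2) k) R f ∈ 𝔭 ^ q := by
  classical
  rw [f.as_sum, map_sum]
  refine Ideal.sum_mem _ fun μ hμ => ?_
  have h1 : q ≤ Finsupp.weight (zw ι) μ := by
    by_contra h2
    exact mem_support_iff.1 hμ (hf μ (not_le.1 h2))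
  refine Ideal.pow_le_pow_right h1 ?_
  rw [monomial_eq, map_mul]
  refine Ideal.mul_mem_left _ _ ?_
  rw [Finsupp.weight_apply, Finsupp.sum, Finsupp.prod, map_prod, ← Finset.prod_pow_eq_pow_sum]
  refine Ideal.prod_mem_prod fun i _ => ?_
  rw [map_pow]
  rcases i with i | i
  · simpa [zw] using Ideal.pow_mem_pow (h i) _
  · simp [zw]

variable (k ι R) in
/-- Elements all of whose linear images vanish to order `q`. -/
def zK (q : ℕ) : Ideal R where
  carrier := {w | ∀ φ : R →ₗ[MvPolynomial (ι ⊕ Fin 2) k] MvPolynomial (ι ⊕ Fin 2) k,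
    φ w ∈ zI k ι q}
  add_mem' ha hb φ := by rw [map_add]; exact add_mem (ha φ) (hb φ)
  zero_mem' φ := by rw [map_zero]; exact zero_mem _
  smul_mem' c _ hw φ := hw (φ.comp (LinearMap.mulLeft _ c))

theorem zK_smul {q : ℕ} {g : MvPolynomial (ι ⊕ Fin 2) k} (hg : g ∈ zI k ι q) (w : R) :
    g • w ∈ zK k ι R q := fun φ => by
  rw [map_smul, smul_eq_mul]
  exact Ideal.mul_mem_right _ _ hg

theorem zK_pow (q : ℕ) : Ideal.span (Set.range fun i =>
    algebraMap (MvPolynomial (ι ⊕ Fin 2) k) R (X (.inl i))) ^ q ≤ zK k ι R q := by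
  induction q with
  | zero => intro w _ φ μ h; omega
  | succ q ih =>
    rw [pow_succ', Ideal.mul_le]
    intro r hr w hw
    induction hr using Submodule.span_induction with
    | mem x hx =>
      obtain ⟨i, rfl⟩ := hx
      intro φ
      rw [← Algebra.smul_def, map_smul, smul_eq_mul]
      exact zI_X (ih hw φ) i
    | zero => rw [zero_mul]; exact zero_mem _
    | add x y _ _ hx hy => rw [add_mul]; exact add_mem hx hy
    | smul a x _ hx => rw [smul_eq_mul, mul_assoc]; exact Ideal.mul_mem_left _ _ hx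

end

theorem zsplit {R : Type u} [CommRing R] (G : ℕ → AddSubgroup R) [SetLike.GradedMonoid G] {N : ℕ}
    {a b : R} (ha : a ∈ G N) (hb : b ∈ G N) (n : ℕ) :
    ∃ A B : R, (a + b) ^ (2 * n) = A + B ∧ a ^ n ∣ A ∧ b ^ n ∣ B ∧ A ∈ G (N * (2 * n)) := by
  classical
  rw [add_pow, ← Finset.sum_filter_add_sum_filter_not _ fun j => n ≤ j]
  refine ⟨_, _, rfl, Finset.dvd_sum fun j hj => ?_, Finset.dvd_sum fun j hj => ?_,
    sum_mem fun j hj => ?_⟩
  · exact ((pow_dvd_pow a (Finset.mem_filter.1 hj).2).mul_right _).mul_right _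
  · have := (Finset.mem_filter.1 hj).2
    exact ((pow_dvd_pow b (by omega)).mul_left _).mul_right _
  · have h1 := Finset.mem_range.1 (Finset.mem_filter.1 hj).1
    have h2 := SetLike.mul_mem_graded (SetLike.pow_mem_graded j ha)
      (SetLike.pow_mem_graded (2 * n - j) hb)
    rw [← add_smul, smul_eq_mul, Nat.add_sub_cancel' (by omega), mul_comm (2 * n)] at h2
    rw [← nsmul_eq_mul']
    exact nsmul_mem h2 _

theorem zemb {P R : Type u} [CommRing P] [IsDomain P] [AddCommGroup R] [Module P R]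
    [Module.Finite P R] : ∃ (n : ℕ) (δ : P) (r : Fin n → R) (φ : Fin n → R →ₗ[P] P), δ ≠ 0 ∧
      ∀ w, δ • w = ∑ i, φ i w • r i := by
  classical
  obtain ⟨n, s, hs⟩ := Module.Finite.exists_fin (R := P) (M := R)
  obtain ⟨I, hI, hm⟩ := exists_maximal_linearIndepOn P s
  have hI' : LinearIndependent P (fun i : I => s i) := hI
  let N := Submodule.span P (Set.range fun i : I => s i)
  have ex : ∀ i, ∃ a : P, a ≠ 0 ∧ a • s i ∈ N := by
    intro i
    by_cases hi : i ∈ I
    · exact ⟨1, one_ne_zero, by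
        rw [one_smul]; exact Submodule.subset_span ⟨⟨i, hi⟩, rfl⟩⟩
    · simpa [Set.image_eq_range s I] using! hm i hi
  choose a ha ha' using ex
  have hN : ∀ w, (∏ i, a i) • w ∈ N := by
    intro w
    have hw : w ∈ Submodule.span P (Set.range s) := hs ▸ trivial
    induction hw using Submodule.span_induction with
    | mem x hx =>
      obtain ⟨i, rfl⟩ := hx
      rw [Fintype.prod_eq_prod_compl_mul i, mul_smul]
      exact N.smul_mem _ (ha' i)
    | zero => rw [smul_zero]; exact zero_mem _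
    | add x y _ _ hx hy => rw [smul_add]; exact add_mem hx hy
    | smul c x _ hx => rw [smul_comm]; exact N.smul_mem _ hx
  let ψ : R →ₗ[P] N := (LinearMap.lsmul P R (∏ i, a i)).codRestrict N hN
  let b : Module.Basis I P N := Module.Basis.span hI'
  let e := Fintype.equivFin I
  refine ⟨_, ∏ i, a i, fun j => s (e.symm j), fun j => (b.coord (e.symm j)).comp ψ,
    Finset.prod_ne_zero_iff.2 fun i _ => ha i, fun w => ?_⟩
  have h1 := congrArg N.subtype (b.sum_repr (ψ w))
  rw [map_sum] at h1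
  rw [Equiv.sum_comp e.symm fun i => ((b.coord i).comp ψ) w • s i]
  refine Eq.trans h1.symm (Finset.sum_congr rfl fun i _ => ?_)
  simp only [b, map_smul, Submodule.subtype_apply, LinearMap.comp_apply, Module.Basis.coord_apply]
  rw [Module.Basis.span_apply]

theorem zfin {R : Type u} [CommRing R] [IsDomain R] [IsNoetherianRing R] {𝔭 : Ideal R}
    [𝔭.IsPrime] {δ : R} (h : ∀ q, ∃ A, A ∉ 𝔭 ∧ δ * A ∈ 𝔭 ^ q) : δ = 0 := by
  let L := Localization.AtPrime 𝔭
  have h1 := Ideal.iInf_pow_eq_bot_of_isLocalRing (IsLocalRing.maximalIdeal L)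
    Ideal.IsPrime.ne_top'
  have h2 : algebraMap R L δ ∈ ⨅ q : ℕ, IsLocalRing.maximalIdeal L ^ q := by
    rw [Ideal.mem_iInf]
    intro q
    obtain ⟨A, hA, hq⟩ := h q
    have h3 := Ideal.mem_map_of_mem (algebraMap R L) hq
    rw [Ideal.map_pow, Localization.AtPrime.map_eq_maximalIdeal, map_mul] at h3
    exact (Ideal.mul_unit_mem_iff_mem _
      (IsLocalization.map_units L (⟨A, hA⟩ : 𝔭.primeCompl))).1 h3
  rw [h1, Ideal.mem_bot] at h2
  exact IsLocalization.injective L 𝔭.primeCompl_le_nonZeroDivisors (h2.trans (map_zero _).symm)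

theorem gc_core {R : Type u} [CommRing R] [IsDomain R] [IsNoetherianRing R]
    [Algebra (MvPolynomial (ι ⊕ Fin 2) k) R] [FaithfulSMul (MvPolynomial (ι ⊕ Fin 2) k) R]
    [Module.Finite (MvPolynomial (ι ⊕ Fin 2) k) R]
    (G : ℕ → AddSubgroup R) [SetLike.GradedMonoid G]
    (hG : ∀ φ : R →ₗ[MvPolynomial (ι ⊕ Fin 2) k] MvPolynomial (ι ⊕ Fin 2) k, ∃ d, ∀ J, ∀ w ∈ G J,
      (φ w).totalDegree ≤ J + d)
    {N : ℕ} {a b : Fin 2 → R} (ha : ∀ j, a j ∈ G N) (hb : ∀ j, b j ∈ G N)
    (hab : ∀ j, algebraMap (MvPolynomial (ι ⊕ Fin 2) k) R (X (.inr j)) ^ N = a j + b j)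
    (hr : ∀ i j, a i * b j ∈ (Ideal.span (Set.range fun i =>
      algebraMap (MvPolynomial (ι ⊕ Fin 2) k) R (X (.inl i)))).radical)
    {𝔭 𝔮 : Ideal R} [𝔭.IsPrime] [𝔮.IsPrime]
    (h𝔭 : ∀ i, algebraMap (MvPolynomial (ι ⊕ Fin 2) k) R (X (.inl i)) ∈ 𝔭)
    (h𝔮 : ∀ i, algebraMap (MvPolynomial (ι ⊕ Fin 2) k) R (X (.inl i)) ∈ 𝔮)
    (ha𝔭 : ∀ j, a j ∈ 𝔭) (hb𝔮 : ∀ j, b j ∈ 𝔮) :
    (∀ j, algebraMap (MvPolynomial (ι ⊕ Fin 2) k) R (X (.inr j)) ∈ 𝔭) ∨
      ∀ j, algebraMap (MvPolynomial (ι ⊕ Fin 2) k) R (X (.inr j)) ∈ 𝔮 := by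
  set P := MvPolynomial (ι ⊕ Fin 2) k
  set I := Ideal.span (Set.range fun i => algebraMap P R (X (.inl i)))
  obtain ⟨t, ht0, ht⟩ : ∃ t, t ≠ 0 ∧ ∀ i j, (a i * b j) ^ t ∈ I := by
    choose t ht using hr
    refine ⟨∑ i, ∑ j, t i j + 1, by omega, fun i j => Ideal.pow_mem_of_pow_mem _ (ht i j) ?_⟩
    have h1 := Finset.single_le_sum (f := fun j => t i j) (fun _ _ => Nat.zero_le _)
      (Finset.mem_univ j)
    have h2 := Finset.single_le_sum (f := fun i => ∑ j, t i j) (fun _ _ => Nat.zero_le _)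
      (Finset.mem_univ i)
    omega
  choose A B hAB hA hB hAG using fun (q : ℕ) j => zsplit G (ha j) (hb j) (t * q)
  have hY : ∀ q j, algebraMap P R (X (.inr j) ^ (N * (2 * (t * q)))) = A q j + B q j := by
    intro q j
    rw [map_pow, pow_mul, hab, hAB]
  have hK : ∀ q q₁ q₂ i j, q ≤ q₁ → q ≤ q₂ → A q₁ i * B q₂ j ∈ zK k ι R q := by
    intro q q₁ q₂ i j h1 h2
    have h3 : (a i * b j) ^ (t * q) ∣ A q₁ i * B q₂ j := by
      rw [mul_pow]
      exact mul_dvd_mul ((pow_dvd_pow _ (Nat.mul_le_mul_left _ h1)).trans (hA _ _))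
        ((pow_dvd_pow _ (Nat.mul_le_mul_left _ h2)).trans (hB _ _))
    refine Ideal.mem_of_dvd _ h3 (zK_pow q ?_)
    rw [pow_mul]
    exact Ideal.pow_mem_pow (ht i j) q
  obtain ⟨n, δ, r, φ, hδ, hφ⟩ := zemb (P := P) (R := R)
  choose d hd using hG
  have hc : ∀ q i, ∃ c : P, c.totalDegree ≤ d (φ i) ∧
      ∀ j, φ i (A q j) - X (.inr j) ^ (N * (2 * (t * q))) * c ∈ zI k ι q := by
    intro q i
    have h1 : (X (.inr 1) ^ (N * (2 * (t * q))) : P) • A q 0 -
        (X (.inr 0) ^ (N * (2 * (t * q))) : P) • A q 1 ∈ zK k ι R q := by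
      rw [Algebra.smul_def, Algebra.smul_def, hY, hY]
      convert (zK k ι R q).sub_mem (hK q q q 0 1 le_rfl le_rfl) (hK q q q 1 0 le_rfl le_rfl) using 1
      ring
    have h2 := h1 (φ i)
    rw [map_sub, map_smul, map_smul, smul_eq_mul, smul_eq_mul, mul_comm, mul_comm _ (φ i _)] at h2
    obtain ⟨c, h3, h4, h5⟩ := zI_div (hd (φ i) _ _ (hAG q 0)) h2
    exact ⟨c, h3, Fin.forall_fin_two.2 ⟨h4, h5⟩⟩
  choose c hc hc' using hc
  set D := ∑ i, d (φ i) + 1 with hD
  have hdD : ∀ i, d (φ i) < D := fun i => Nat.lt_succ_of_le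
    (Finset.single_le_sum (f := fun i => d (φ i)) (fun _ _ => Nat.zero_le _) (Finset.mem_univ i))
  have hmono : ∀ {q q'}, q ≤ q' → zI k ι q' ≤ zI k ι q := fun h f hf μ hμ => hf μ (hμ.trans_le h)
  have hst : ∀ q, D ≤ q → ∀ i, c q i = c D i := by
    intro q hq i
    have h1 : (X (.inr 0) ^ (N * (2 * (t * D))) : P) • A q 0 -
        (X (.inr 0) ^ (N * (2 * (t * q))) : P) • A D 0 ∈ zK k ι R D := by
      rw [Algebra.smul_def, Algebra.smul_def, hY, hY]
      convert (zK k ι R D).sub_mem (hK D q D 0 0 hq le_rfl) (hK D D q 0 0 le_rfl hq) using 1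
      ring
    have h2 := h1 (φ i)
    rw [map_sub, map_smul, map_smul, smul_eq_mul, smul_eq_mul] at h2
    have h3 := (zI k ι D).add_mem ((zI k ι D).sub_mem h2
      ((zI k ι D).mul_mem_left (X (.inr 0) ^ (N * (2 * (t * D)))) (hmono hq (hc' q i 0))))
      ((zI k ι D).mul_mem_left (X (.inr 0) ^ (N * (2 * (t * q)))) (hc' D i 0))
    have h4 : c q i - c D i ∈ zI k ι D := by
      refine zI_cancel (L := N * (2 * (t * q))) (j := 0)
        (zI_cancel (L := N * (2 * (t * D))) (j := 0) ?_)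
      convert h3 using 1
      ring
    refine sub_eq_zero.1 (zI_zero h4 ((totalDegree_sub _ _).trans_lt ?_))
    exact max_lt ((hc q i).trans_lt (hdD i)) ((hc D i).trans_lt (hdD i))
  set E := ∑ i, c D i • r i with hE
  set δ' := algebraMap P R δ with hδ'
  have hδ0 : δ' ≠ 0 := fun h =>
    hδ (FaithfulSMul.algebraMap_injective P R (h.trans (map_zero _).symm))
  have hEA : ∀ q, D ≤ q → ∀ j, δ' * A q j - (A q j + B q j) * E ∈ zK k ι R q := by
    intro q hq j
    rw [← hY, ← Algebra.smul_def, ← Algebra.smul_def, hφ, hE, Finset.smul_sum,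
      ← Finset.sum_sub_distrib]
    refine sum_mem fun i _ => ?_
    rw [← mul_smul, ← sub_smul, ← hst q hq]
    exact zK_smul (hc' q i j) _
  have hE0 : E * (δ' - E) = 0 := by
    have h1 : ∀ i, φ i (E * (δ' - E)) = 0 := by
      intro i
      refine zI_zero (q := max D ((φ i (E * (δ' - E))).totalDegree + 1)) ?_
        (lt_max_of_lt_right (Nat.lt_succ_self _))
      generalize hq : max D ((φ i (E * (δ' - E))).totalDegree + 1) = q
      have hq' : D ≤ q := hq ▸ le_max_left _ _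
      have h2 : (X (.inr 0) ^ (N * (2 * (t * q))) : P) • (X (.inr 0) ^ (N * (2 * (t * q))) : P) •
          (E * (δ' - E)) ∈ zK k ι R q := by
        rw [Algebra.smul_def, Algebra.smul_def, hY]
        have h3 := (zK k ι R q).add_mem
          ((zK k ι R q).mul_mem_left (δ' * δ') (hK q q q 0 0 le_rfl le_rfl))
          ((zK k ι R q).mul_mem_left (δ' * A q 0 - (A q 0 + B q 0) * (δ' - E)) (hEA q hq' 0))
        convert h3 using 1
        ring
      have h3 := h2 (φ i)
      rw [map_smul, map_smul, smul_eq_mul, smul_eq_mul] at h3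
      exact zI_cancel (zI_cancel h3)
    have h2 := hφ (E * (δ' - E))
    simp only [h1, zero_smul, Finset.sum_const_zero] at h2
    rw [Algebra.smul_def] at h2
    exact (mul_eq_zero.1 h2).resolve_left hδ0
  have hfin : ∀ (𝔯 : Ideal R) [𝔯.IsPrime], (∀ i, algebraMap P R (X (.inl i)) ∈ 𝔯) →
      ∀ U V : ℕ → R, ∀ j, (∀ q, A q j + B q j = U q + V q) → (∀ q, q ≠ 0 → V q ∈ 𝔯) →
      (∀ q, D ≤ q → δ' * U q ∈ zK k ι R q) → algebraMap P R (X (.inr j)) ∈ 𝔯 := by
    intro 𝔯 h𝔯 hx U V j h1 h2 h3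
    by_contra hj
    refine mul_ne_zero hδ0 hδ0 (zfin (𝔭 := 𝔯) fun q => ⟨U (max D q), fun h => hj ?_, ?_⟩)
    · have h4 := add_mem h (h2 (max D q) (by omega))
      rw [← h1, ← hY, map_pow] at h4
      exact h𝔯.mem_of_pow_mem _ h4
    · refine Ideal.pow_le_pow_right (le_max_right D q) ?_
      rw [mul_assoc, hδ', ← Algebra.smul_def, hφ]
      refine sum_mem fun i _ => ?_
      rw [Algebra.smul_def]
      exact Ideal.mul_mem_right _ _ (zI_map (h3 _ (le_max_left _ _) (φ i)) hx)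
  rcases mul_eq_zero.1 hE0 with h | h
  · refine Or.inr fun j => hfin 𝔮 h𝔮 (A · j) (B · j) j (fun _ => rfl) (fun q hq => ?_)
      fun q hq => ?_
    · exact Ideal.mem_of_dvd _ (hB q j) (Ideal.pow_mem_of_mem _ (hb𝔮 j) _ (by positivity))
    · simpa [h] using hEA q hq j
  · refine Or.inl fun j => hfin 𝔭 h𝔭 (B · j) (A · j) j (fun _ => add_comm _ _) (fun q hq => ?_)
      fun q hq => ?_
    · exact Ideal.mem_of_dvd _ (hA q j) (Ideal.pow_mem_of_mem _ (ha𝔭 j) _ (by positivity))
    · have h1 := neg_mem (hEA q hq j)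
      rw [← sub_eq_zero.1 h] at h1
      convert h1 using 1
      ring

end PR0.Z
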