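import Pool.Agent.Work.MP_da2620_ag.ZDefs

-- merged part: Pool.Agent.Work.MP_da2620_ag.ZP1
section
/-!
# Frobenius on `H¹` of `y ^ 2 = f`: polynomial parts and exact differentials
-/

namespace PR0.Z

open Polynomial Matrix

universe u

theorem odd_p {p : ℕ} [h : Fact p.Prime] (hp : p ≠ 2) : ∃ m, p = 2 * m + 3 := by
  obtain ⟨m, hm⟩ := h.out.odd_of_ne_two hp
  have := h.out.two_le
  exact ⟨m - 1, by omega⟩

section ring
variable {R R' : Type u} [CommRing R] [CommRing R']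

/-- `d (y q) = Dz f q * dx / (2 y)`. -/
noncomputable def Dz (f q : R[X]) : R[X] := C 2 * f * derivative q + derivative f * q

/-- The exact differential attached to a class killed by Frobenius. -/
noncomputable def Psi (p : ℕ) (f : R[X]) : Matrix (Fin 2) (Fin 2) R :=
  !![f.coeff 1 * (f ^ (p / 2)).coeff p, f.coeff 1 * (f ^ (p / 2)).coeff (2 * p);
    f.coeff 5 * (f ^ (p / 2)).coeff (p - 3), f.coeff 5 * (f ^ (p / 2)).coeff (2 * p - 3)]

theorem Phi_eq (p : ℕ) (f : R[X]) : Phi p f =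
    !![(f ^ (p / 2)).coeff (p - 1), (f ^ (p / 2)).coeff (2 * p - 1);
      (f ^ (p / 2)).coeff (p - 2), (f ^ (p / 2)).coeff (2 * p - 2)] := by
  ext j i
  fin_cases j <;> fin_cases i <;> simp [Phi]

theorem Phi_map (p : ℕ) (f : R[X]) (φ : R →+* R') : Phi p (f.map φ) = (Phi p f).map φ := by
  ext j i
  simp [Phi, ← Polynomial.map_pow]

theorem Psi_map (p : ℕ) (f : R[X]) (φ : R →+* R') : Psi p (f.map φ) = (Psi p f).map φ := by
  ext j i
  fin_cases j <;> fin_cases i <;> simp [Psi, ← Polynomial.map_pow]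

theorem fz_map (α : Fin 5 → R) (φ : R →+* R') : (fz α).map φ = fz fun i => φ (α i) := by
  simp [fz, Polynomial.map_prod]

theorem Phi_C_mul (p : ℕ) (e : R) (f : R[X]) : Phi p (C e * f) = e ^ (p / 2) • Phi p f := by
  ext j i
  simp only [Phi, mul_pow, ← C_pow, coeff_C_mul, of_apply, Matrix.smul_apply, smul_eq_mul]

theorem Psi_C_mul (p : ℕ) (e : R) (f : R[X]) : Psi p (C e * f) = e ^ (p / 2 + 1) • Psi p f := by
  simp only [Psi, mul_pow, ← C_pow, coeff_C_mul]
  ext j i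
  fin_cases j <;> fin_cases i <;> simp <;> ring

theorem Dz_add (f q q' : R[X]) : Dz f (q + q') = Dz f q + Dz f q' := by
  simp only [Dz, derivative_add]
  ring

theorem Dz_mul (f q : R[X]) {b : R[X]} (hb : derivative b = 0) : Dz f (q * b) = Dz f q * b := by
  simp only [Dz, derivative_mul, hb]
  ring

theorem Dz_comp (f q : R[X]) (d c : R) : Dz (f.comp (C d * X + C c)) (q.comp (C d * X + C c)) =
    C d * (Dz f q).comp (C d * X + C c) := by
  simp only [Dz, derivative_comp, add_comp, mul_comp, C_comp, derivative_add, derivative_mul,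
    derivative_C, derivative_X]
  ring

theorem Dz_pow {m : ℕ} (hm : ((2 * m + 3 : ℕ) : R) = 0) (f : R[X]) : Dz f (f ^ (m + 1)) = 0 := by
  have h : (C 2 * C ((m + 1 : ℕ) : R) + 1 : R[X]) = 0 := by
    rw [← C_mul, ← C_1, ← C_add, ← C_0, ← hm]
    congr 1
    push_cast
    ring
  rw [Dz, derivative_pow, Nat.add_sub_cancel]
  linear_combination (f ^ (m + 1) * derivative f) * h

theorem Dz_gen {f q n : R[X]} {γ r : ℕ} (hf : f.natDegree ≤ 2 * γ + 3)
    (hN : ((γ + 3 + r : ℕ) : R) = 0) (hn : n.natDegree ≤ r + 1)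
    (h : Dz f (q * X ^ (γ + 3 + r) + n) = 0) :
    (Dz f q).natDegree ≤ γ ∧ (Dz f q).coeff γ = f.coeff (2 * γ + 3) * n.coeff (r + 1) := by
  rw [Dz_add, Dz_mul _ _ (by rw [derivative_X_pow, hN, C_0, zero_mul]),
    add_eq_zero_iff_eq_neg] at h
  have h1 : (derivative n).natDegree ≤ r := (natDegree_derivative_le n).trans (by omega)
  have h2 : (derivative f).natDegree ≤ 2 * γ + 2 := (natDegree_derivative_le f).trans (by omega)
  have h3 : (C 2 * f).natDegree ≤ 2 * γ + 3 := (natDegree_C_mul_le _ _).trans hf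
  have h4 : (Dz f n).natDegree ≤ 2 * γ + 3 + r :=
    (natDegree_add_le _ _).trans (max_le (natDegree_mul_le.trans (by omega))
      (natDegree_mul_le.trans (by omega)))
  constructor
  · rw [natDegree_le_iff_coeff_eq_zero] at h4 ⊢
    intro N hN
    rw [← coeff_mul_X_pow _ (γ + 3 + r), h, coeff_neg, h4 _ (by omega), neg_zero]
  · rw [← coeff_mul_X_pow _ (γ + 3 + r), h, coeff_neg, Dz, coeff_add,
      show γ + (γ + 3 + r) = 2 * γ + 3 + r by omega, coeff_mul_add_eq_of_natDegree_le h3 h1,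
      show 2 * γ + 3 + r = 2 * γ + 2 + (r + 1) by omega, coeff_mul_add_eq_of_natDegree_le h2 hn,
      coeff_derivative, coeff_derivative, coeff_C_mul]
    push_cast at hN ⊢
    linear_combination (-2 * f.coeff (2 * γ + 3) * n.coeff (r + 1)) * hN

theorem Dz_zero {f : R[X]} (q : R[X]) (h : f.coeff 0 = 0) :
    (Dz f q).coeff 0 = f.coeff 1 * q.coeff 0 := by
  simp [Dz, h, coeff_derivative]

/-- `y (β₀ / x ^ p + β₁ / x ^ (2 p)) f ^ m = y (q + A₀ / x + A₁ / x ^ 2 + …)`. -/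
def Rel (p : ℕ) (f : R[X]) (β A : Fin 2 → R) (q : R[X]) : Prop :=
  (f ^ (p / 2) * (C (β 0) * X ^ p + C (β 1)) - q * X ^ (2 * p) -
    (C (A 0) * X + C (A 1)) * X ^ (2 * p - 2)).natDegree ≤ 2 * p - 3

theorem coeff_B (g : R[X]) (p : ℕ) (β : Fin 2 → R) {n : ℕ} (hn : p ≤ n) :
    (g * (C (β 0) * X ^ p + C (β 1))).coeff n = g.coeff (n - p) * β 0 + g.coeff n * β 1 := by
  rw [mul_add, ← mul_assoc, coeff_add, coeff_mul_X_pow', if_pos hn, coeff_mul_C, coeff_mul_C]

theorem Rel.phi {p : ℕ} (hp : 3 ≤ p) {f q : R[X]} {β A : Fin 2 → R} (h : Rel p f β A q) :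
    Phi p f *ᵥ β = A := by
  rw [Rel, natDegree_le_iff_coeff_eq_zero] at h
  have h1 := h (2 * p - 1) (by omega)
  have h2 := h (2 * p - 2) (by omega)
  rw [coeff_sub, coeff_sub, coeff_B _ _ _ (by omega), coeff_mul_X_pow', if_neg (by omega),
    coeff_mul_X_pow', if_pos (by omega)] at h1 h2
  rw [show 2 * p - 1 - (2 * p - 2) = 1 by omega, show 2 * p - 1 - p = p - 1 by omega] at h1
  rw [Nat.sub_self, show 2 * p - 2 - p = p - 2 by omega] at h2
  ext j
  fin_cases j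
  · simpa [Phi_eq, mulVec, dotProduct, sub_eq_zero] using h1
  · simpa [Phi_eq, mulVec, dotProduct, sub_eq_zero] using h2

theorem exists_rel [Nontrivial R] {p : ℕ} (hp : 3 ≤ p) (f : R[X]) (β : Fin 2 → R) :
    ∃ q, Rel p f β (Phi p f *ᵥ β) q := by
  set P := f ^ (p / 2) * (C (β 0) * X ^ p + C (β 1)) with hP
  refine ⟨P /ₘ X ^ (2 * p), ?_⟩
  have h1 : P - P /ₘ X ^ (2 * p) * X ^ (2 * p) = P %ₘ X ^ (2 * p) := by
    rw [sub_eq_iff_eq_add, mul_comm (P /ₘ X ^ (2 * p))]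
    exact (modByMonic_add_div _ _).symm
  have h2 : ∀ n < 2 * p, (P %ₘ X ^ (2 * p)).coeff n = P.coeff n := fun n hn => by
    rw [← h1, coeff_sub, coeff_mul_X_pow', if_neg (by omega), sub_zero]
  rw [Rel, ← hP, h1, natDegree_le_iff_coeff_eq_zero]
  intro N hN
  rw [coeff_sub, coeff_mul_X_pow', if_pos (by omega)]
  rcases (by omega : N = 2 * p - 2 ∨ N = 2 * p - 1 ∨ 2 * p ≤ N) with rfl | rfl | h
  · rw [h2 _ (by omega), hP, coeff_B _ _ _ (by omega), Nat.sub_self,
      show 2 * p - 2 - p = p - 2 by omega]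
    simp [Phi_eq, mulVec, dotProduct]
  · rw [h2 _ (by omega), hP, coeff_B _ _ _ (by omega),
      show 2 * p - 1 - (2 * p - 2) = 1 by omega, show 2 * p - 1 - p = p - 1 by omega]
    simp [Phi_eq, mulVec, dotProduct]
  · rw [coeff_eq_zero_of_degree_lt ((degree_modByMonic_lt _ (monic_X_pow _)).trans_le
      (by rw [degree_X_pow]; exact_mod_cast h)), coeff_eq_zero_of_natDegree_lt, sub_zero]
    exact (natDegree_linear_le).trans_lt (by omega)

variable {p : ℕ} [Fact p.Prime] [CharP R p]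

theorem Rel.dz (hp : p ≠ 2) {f q : R[X]} {β : Fin 2 → R} (hf : f.natDegree ≤ 5)
    (h0 : f.coeff 0 = 0) (h : Rel p f β 0 q) :
    Dz f q = C ((Psi p f *ᵥ β) 1) * X + C ((Psi p f *ᵥ β) 0) := by
  obtain ⟨m, rfl⟩ := odd_p hp
  have hm : ((2 * m + 3 : ℕ) : R) = 0 := CharP.cast_eq_zero R _
  simp only [Rel, Pi.zero_apply, C_0, zero_mul, add_zero, sub_zero] at h
  have e1 : (2 * m + 3) / 2 = m + 1 := by omega
  set P := f ^ ((2 * m + 3) / 2) * (C (β 0) * X ^ (2 * m + 3) + C (β 1)) with hP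
  have h1 : Dz f P = 0 := by
    rw [hP, Dz_mul, e1, Dz_pow hm, zero_mul]
    rw [derivative_add, derivative_C_mul, derivative_X_pow, hm]
    simp
  have e2 : 1 + 3 + (4 * m + 2) = 2 * (2 * m + 3) := by omega
  obtain ⟨h2, h3⟩ := Dz_gen (γ := 1) (r := 4 * m + 2) (q := q) hf
    (by rw [e2, Nat.cast_mul, hm, mul_zero]) (h.trans (by omega))
    (by rw [e2, add_sub_cancel]; exact h1)
  rw [eq_X_add_C_of_natDegree_le_one h2, h3, Dz_zero _ h0, coeff_sub, coeff_mul_X_pow',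
    if_neg (by omega), hP, coeff_B _ _ _ (by omega)]
  have h4 := natDegree_le_iff_coeff_eq_zero.1 h (0 + 2 * (2 * m + 3)) (by omega)
  rw [coeff_sub, coeff_mul_X_pow, sub_eq_zero, hP, coeff_B _ _ _ (by omega)] at h4
  rw [← h4, show 4 * m + 2 + 1 - (2 * m + 3) = 2 * m + 3 - 3 by omega,
    show 4 * m + 2 + 1 = 2 * (2 * m + 3) - 3 by omega, zero_add,
    show 2 * (2 * m + 3) - (2 * m + 3) = 2 * m + 3 by omega]
  congr 2
  · congr 1
    simp [Psi, mulVec, dotProduct]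
    ring
  · simp [Psi, mulVec, dotProduct]
    ring

theorem Dz_orth (hp : p ≠ 2) (f q : R[X]) {w₀ w₁ : R} (h : Dz f q = C w₁ * X + C w₀) (i : Fin 2) :
    w₀ * Phi p f 0 i + w₁ * Phi p f 1 i = 0 := by
  obtain ⟨m, rfl⟩ := odd_p hp
  have hm : ((2 * m + 3 : ℕ) : R) = 0 := CharP.cast_eq_zero R _
  have e1 : (2 * m + 3) / 2 = m + 1 := by omega
  have h1 : f ^ (m + 1) * Dz f q = C 2 * derivative (f ^ (m + 1) * f * q) := by
    have h2 := Dz_pow hm f
    simp only [Dz, derivative_mul] at h2 ⊢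
    linear_combination (-q) * h2 -
      (f ^ (m + 1) * derivative f * q) * (C_ofNat 2 : (C 2 : R[X]) = 2)
  obtain ⟨n, hn⟩ : ∃ n, (i + 1) * (2 * m + 3) = n + 2 := ⟨(i + 1) * (2 * m + 3) - 2, by
    have : 2 * m + 3 ≤ (i + 1) * (2 * m + 3) := Nat.le_mul_of_pos_left _ (by omega)
    omega⟩
  have h2 := congrArg (coeff · (n + 1)) h1
  have h3 : ((n + 1 : ℕ) : R) + 1 = 0 := by
    rw [← Nat.cast_add_one, ← hn, Nat.cast_mul, hm, mul_zero]
  simp only [coeff_C_mul, coeff_derivative, h3, mul_zero, h, mul_add, ← mul_assoc, coeff_add,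
    coeff_mul_X, coeff_mul_C] at h2
  simp only [Phi, of_apply, e1, hn]
  rw [← h2]
  simp
  ring

end ring

section field
variable {K : Type u} [Field K] {p : ℕ} [Fact p.Prime] [CharP K p]

theorem Rel.comp (hp : p ≠ 2) {f q : K[X]} (hf : f.natDegree ≤ 5) {d : K} (hd : d ≠ 0) (c : K)
    {β A : Fin 2 → K} (h : Rel p f ((!![d, 0; c * d, d ^ 2].map (· ^ p)) *ᵥ β)
      (!![d, 0; c * d, d ^ 2] *ᵥ A) q) :
    Rel p (f.comp (C d * X + C c)) β A (q.comp (C d * X + C c)) := by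
  have hp0 : p ≠ 0 := (Fact.out : p.Prime).ne_zero
  obtain ⟨m, hm⟩ := odd_p hp
  set L : K[X] := C d * X + C c with hL
  have hL1 : L.natDegree = 1 := natDegree_linear hd
  have hL0 : L ≠ 0 := fun h => by simp [h] at hL1
  have hLp : L ^ p = C (d ^ p) * X ^ p + C (c ^ p) := by
    rw [hL, add_pow_char, mul_pow, C_pow, C_pow]
  rw [Rel] at h ⊢
  have h1 := natDegree_comp_le.trans (Nat.mul_le_mul h hL1.le)
  simp only [sub_comp, mul_comp, pow_comp, add_comp, C_comp, X_comp] at h1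
  simp only [mulVec, dotProduct, Fin.sum_univ_two, map_apply, of_apply, cons_val', cons_val_zero,
    cons_val_one, cons_val_fin_one, zero_pow hp0, zero_mul, add_zero] at h1
  set g := f.comp L ^ (p / 2) with hg
  have hg' : g.natDegree ≤ (m + 1) * 5 := by
    rw [hg, show p / 2 = m + 1 by omega]
    exact natDegree_pow_le.trans (Nat.mul_le_mul_left _
      (natDegree_comp_le.trans (by rw [hL1]; omega)))
  have e1 : L ^ (2 * p) = (C (d ^ p) * X ^ p + C (c ^ p)) ^ 2 := by rw [mul_comm, pow_mul, hLp]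
  have e2 : (X : K[X]) ^ (2 * p) = (X ^ p) ^ 2 := by rw [mul_comm, pow_mul]
  have e3 : L ^ (2 * p) = L ^ (2 * p - 2) * L ^ 2 := by
    rw [← pow_add]; congr 1; omega
  have e4 : (X : K[X]) ^ (2 * p) = X ^ (2 * p - 2) * X ^ 2 := by
    rw [← pow_add]; congr 1; omega
  generalize hN : (g * (C (β 0) * X ^ p + C (β 1)) - q.comp L * X ^ (2 * p) -
    (C (A 0) * X + C (A 1)) * X ^ (2 * p - 2)) = N
  generalize hN' : (g * _ - q.comp L * L ^ (2 * p) - _ * L ^ (2 * p - 2)) = N' at h1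
  have key : L ^ (2 * p) * N = X ^ (2 * p) * N' +
      g * (C (2 * d ^ p * c ^ p * β 1 + (c ^ p) ^ 2 * β 0) * X ^ p + C ((c ^ p) ^ 2 * β 1)) -
      X ^ (2 * p - 2) * L ^ (2 * p - 2) *
        (C (2 * d * c * A 1 + c ^ 2 * A 0) * X + C (c ^ 2 * A 1)) := by
    have k1 : L ^ (2 * p) * (C (β 0) * X ^ p + C (β 1)) = X ^ (2 * p) *
        (C (d ^ p * β 0) * L ^ p + C ((c * d) ^ p * β 0 + (d ^ 2) ^ p * β 1)) +
        (C (2 * d ^ p * c ^ p * β 1 + (c ^ p) ^ 2 * β 0) * X ^ p + C ((c ^ p) ^ 2 * β 1)) := by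
      rw [e1, e2, hLp, mul_pow, ← pow_mul d 2 p, mul_comm 2 p, pow_mul d p 2]
      simp only [C_add, C_mul, C_pow, C_ofNat]
      ring
    have k2 : L ^ 2 * (C (A 0) * X + C (A 1)) = X ^ 2 *
        (C (d * A 0) * L + C (c * d * A 0 + d ^ 2 * A 1)) +
        (C (2 * d * c * A 1 + c ^ 2 * A 0) * X + C (c ^ 2 * A 1)) := by
      rw [hL]
      simp only [C_add, C_mul, C_pow, C_ofNat]
      ring
    rw [← hN, ← hN']
    linear_combination g * k1 - X ^ (2 * p - 2) * L ^ (2 * p - 2) * k2 -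
      (C (A 0) * X + C (A 1)) * X ^ (2 * p - 2) * e3 +
      (C (d * A 0) * L + C (c * d * A 0 + d ^ 2 * A 1)) * L ^ (2 * p - 2) * e4
  by_cases h0 : N = 0
  · simp [h0]
  have h2 := congrArg natDegree key
  rw [natDegree_mul (pow_ne_zero _ hL0) h0, natDegree_pow, hL1] at h2
  have h3 : ∀ a b : K, (C a * X ^ p + C b).natDegree ≤ p := fun a b =>
    (natDegree_add_le _ _).trans (max_le (natDegree_C_mul_X_pow_le _ _) (by simp))
  have h4 : 2 * p * 1 + N.natDegree ≤ 4 * p - 3 := by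
    rw [h2]
    refine (natDegree_sub_le _ _).trans (max_le ((natDegree_add_le _ _).trans (max_le ?_ ?_)) ?_)
    · exact natDegree_mul_le.trans (by rw [natDegree_X_pow]; omega)
    · exact natDegree_mul_le.trans ((Nat.add_le_add hg' (h3 _ _)).trans (by omega))
    · refine natDegree_mul_le.trans ((Nat.add_le_add natDegree_mul_le natDegree_linear_le).trans ?_)
      rw [natDegree_X_pow, natDegree_pow, hL1]
      omega
  omega

theorem mult_dz (hp : p ≠ 2) [IsAlgClosed K] {f q : K[X]} (hf : f ≠ 0)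
    (h2 : ∀ c, rootMultiplicity c f ≤ 2) (hq : q ≠ 0) (h : Dz f q = 0) :
    p / 2 * f.natDegree ≤ q.natDegree := by
  classical
  obtain ⟨m, hm⟩ := odd_p hp
  have h0 : q * q * f ≠ 0 := mul_ne_zero (mul_ne_zero hq hq) hf
  have h1 : derivative (q * q * f) = 0 := by
    simp only [Dz, derivative_mul, C_ofNat] at h ⊢
    linear_combination q * h
  have h3 : (p / 2) • f.roots ≤ q.roots := by
    rw [Multiset.le_iff_count]
    intro c
    rw [Multiset.count_nsmul, count_roots, count_roots]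
    obtain ⟨w, hw, hw'⟩ := exists_eq_pow_rootMultiplicity_mul_and_not_dvd _ h0 c
    have h4 : rootMultiplicity c (q * q * f) =
        rootMultiplicity c q + rootMultiplicity c q + rootMultiplicity c f := by
      rw [rootMultiplicity_mul h0, rootMultiplicity_mul (mul_ne_zero hq hq)]
    generalize rootMultiplicity c (q * q * f) = e at *
    have h5 : p ∣ e := by
      rcases e with _ | e
      · exact dvd_zero _
      rw [hw, derivative_mul, derivative_X_sub_C_pow, Nat.add_sub_cancel] at h1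
      have h6 : C ((e + 1 : ℕ) : K) * w + (X - C c) * derivative w = 0 := by
        refine (mul_eq_zero.1 (?_ : (X - C c) ^ e * _ = 0)).resolve_left
          (pow_ne_zero _ (X_sub_C_ne_zero c))
        linear_combination h1
      have h7 := congrArg (eval c) h6
      rw [dvd_iff_isRoot] at hw'
      simp only [eval_add, eval_mul, eval_C, eval_sub, eval_X, sub_self, zero_mul, add_zero,
        eval_zero] at h7
      exact (CharP.cast_eq_zero_iff K p _).1 ((mul_eq_zero.1 h7).resolve_right hw')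
    obtain ⟨t, rfl⟩ := h5
    have h6 := h2 c
    rw [show p / 2 = m + 1 by omega]
    generalize rootMultiplicity c q = μ at *
    generalize rootMultiplicity c f = ν at *
    subst hm
    rcases t with _ | _ | t <;> interval_cases ν <;> first | omega | nlinarith
  have h4 := Multiset.card_le_card h3
  rw [Multiset.card_nsmul, IsAlgClosed.card_roots_eq_natDegree] at h4
  exact h4.trans (card_roots' q)

theorem dz_ne (hp : p ≠ 2) [IsAlgClosed K] {f q b : K[X]} (hf : f ≠ 0)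
    (h2 : ∀ c, rootMultiplicity c f ≤ 2) (hb : b ≠ 0) {N : ℕ} (hN : b.natDegree < N)
    (hn : (f ^ (p / 2) * b - q * X ^ N).natDegree < p / 2 * f.natDegree) : Dz f q ≠ 0 := by
  intro h
  have h1 : (f ^ (p / 2) * b).natDegree = p / 2 * f.natDegree + b.natDegree := by
    rw [natDegree_mul (pow_ne_zero _ hf) hb, natDegree_pow]
  by_cases hq : q = 0
  · rw [hq, zero_mul, sub_zero] at hn
    omega
  have h3 := mult_dz hp hf h2 hq h
  have h4 := natDegree_sub_le (f ^ (p / 2) * b) (f ^ (p / 2) * b - q * X ^ N)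
  rw [sub_sub_cancel, natDegree_mul_X_pow _ hq] at h4
  omega

theorem key2 (hp : p ≠ 2) [IsAlgClosed K] {f : K[X]} (h4 : 4 ≤ f.natDegree) (h5 : f.natDegree ≤ 5)
    (h0 : f.coeff 0 = 0) (h2 : ∀ c, rootMultiplicity c f ≤ 2) {β : Fin 2 → K}
    (hΦ : Phi p f *ᵥ β = 0) (hΨ : Psi p f *ᵥ β = 0) : β = 0 := by
  obtain ⟨m, hm⟩ := odd_p hp
  obtain ⟨q, hq⟩ := exists_rel (p := p) (by omega) f β
  rw [hΦ] at hq
  have h1 := hq.dz hp h5 h0
  simp only [hΨ, Pi.zero_apply, C_0, zero_mul, add_zero] at h1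
  simp only [Rel, Pi.zero_apply, C_0, zero_mul, add_zero, sub_zero] at hq
  by_contra hβ
  refine dz_ne hp (fun h => by simp [h] at h4) h2 (fun h => hβ ?_) (N := 2 * p) ?_
    (hq.trans_lt ?_) h1
  · have h6 := congrArg (coeff · p) h
    have h7 := congrArg (coeff · 0) h
    simp only [coeff_add, coeff_C_mul, coeff_X_pow, coeff_C, coeff_zero] at h6 h7
    rw [if_neg (show ¬ p = 0 by omega)] at h6
    rw [if_neg (show ¬ 0 = p by omega)] at h7
    ext i
    fin_cases i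
    · simpa using h6
    · simpa using h7
  · exact ((natDegree_add_le _ _).trans (max_le (natDegree_C_mul_X_pow_le _ _)
      (by simp))).trans_lt (by omega)
  · rw [show p / 2 = m + 1 by omega]
    have := Nat.mul_le_mul_left (m + 1) h4
    omega

theorem key1 (hp : p ≠ 2) [IsAlgClosed K] {f : K[X]} (h4 : 2 ≤ f.natDegree) (h5 : f.natDegree ≤ 3)
    (h0 : f.coeff 0 = 0) (h2 : ∀ c, rootMultiplicity c f ≤ 2)
    (h : (f ^ (p / 2)).coeff (p - 1) = 0) :
    f.coeff 1 * (f ^ (p / 2)).coeff p ≠ 0 ∧ f.coeff 3 * (f ^ (p / 2)).coeff (p - 2) ≠ 0 := by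
  obtain ⟨m, rfl⟩ := odd_p hp
  have hm : ((2 * m + 3 : ℕ) : K) = 0 := CharP.cast_eq_zero K _
  set P := f ^ ((2 * m + 3) / 2) with hP
  set q := P /ₘ X ^ (2 * m + 3)
  have h1 : P - q * X ^ (2 * m + 3) = P %ₘ X ^ (2 * m + 3) := by
    rw [sub_eq_iff_eq_add, mul_comm q]
    exact (modByMonic_add_div _ _).symm
  have h3 : (P - q * X ^ (2 * m + 3)).natDegree ≤ 2 * m + 1 := by
    rw [natDegree_le_iff_coeff_eq_zero]
    intro N hN
    rcases (by omega : N = 2 * m + 3 - 1 ∨ 2 * m + 3 ≤ N) with rfl | h6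
    · rw [coeff_sub, coeff_mul_X_pow', if_neg (by omega), h, sub_zero]
    · rw [h1]
      exact coeff_eq_zero_of_degree_lt ((degree_modByMonic_lt _ (monic_X_pow _)).trans_le
        (by rw [degree_X_pow]; exact_mod_cast h6))
  have e1 : (2 * m + 3) / 2 = m + 1 := by omega
  have e2 : 0 + 3 + 2 * m = 2 * m + 3 := by omega
  obtain ⟨h6, h7⟩ := Dz_gen (γ := 0) (r := 2 * m) (q := q) h5 (by rw [e2, hm]) h3
    (by rw [e2, add_sub_cancel, hP, e1]; exact Dz_pow hm f)
  have h8 : Dz f q ≠ 0 := dz_ne hp (b := 1) (N := 2 * m + 3) (fun h => by simp [h] at h4) h2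
    one_ne_zero (by simp) (by
      rw [mul_one, ← hP, e1]
      have := Nat.mul_le_mul_left (m + 1) h4
      omega)
  have h9 : (Dz f q).coeff 0 ≠ 0 := fun h => h8 (by rw [eq_C_of_natDegree_le_zero h6, h, C_0])
  have h10 := natDegree_le_iff_coeff_eq_zero.1 h3 (0 + (2 * m + 3)) (by omega)
  rw [coeff_sub, coeff_mul_X_pow, sub_eq_zero, zero_add] at h10
  constructor
  · rwa [Dz_zero _ h0, ← h10] at h9
  · rwa [h7, coeff_sub, coeff_mul_X_pow', if_neg (by omega), sub_zero] at h9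

end field

end PR0.Z
end

-- merged part: Pool.Agent.Work.MP_da2620_ag.ZP2
section
/-!
# The second Hasse invariant; covariance
-/

namespace PR0.Z

open Polynomial Matrix

universe u

section ring
variable {R R' : Type u} [CommRing R] [CommRing R']

/-- Rank one data. -/
def HD (Φ Ψ : Matrix (Fin 2) (Fin 2) R) (a b : Fin 2 → R) (ρ : R) : Prop :=
  (∀ j i, Φ j i = a j * b i) ∧ Ψ 0 0 * b 1 - Ψ 0 1 * b 0 = ρ * a 1 ∧
    Ψ 1 0 * b 1 - Ψ 1 1 * b 0 = -(ρ * a 0)

/-- The second Hasse invariant. -/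
def hh (p : ℕ) (a b : Fin 2 → R) (ρ : R) : R := (b 0 * a 0 ^ p + b 1 * a 1 ^ p) ^ 2 * ρ ^ (p - 1)

/-- `h` is the second Hasse invariant. -/
def HH (p : ℕ) (Φ Ψ : Matrix (Fin 2) (Fin 2) R) (h : R) : Prop :=
  ∃ a b ρ, a ≠ 0 ∧ HD Φ Ψ a b ρ ∧ h = hh p a b ρ

theorem HD.map {Φ Ψ : Matrix (Fin 2) (Fin 2) R} {a b : Fin 2 → R} {ρ : R} (h : HD Φ Ψ a b ρ)
    (φ : R →+* R') : HD (Φ.map φ) (Ψ.map φ) (φ ∘ a) (φ ∘ b) (φ ρ) := by
  refine ⟨fun j i => ?_, ?_, ?_⟩
  · simp [h.1]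
  · simpa using congrArg φ h.2.1
  · simpa using congrArg φ h.2.2

theorem HD.of_map {Φ Ψ : Matrix (Fin 2) (Fin 2) R} {a b : Fin 2 → R} {ρ : R} {φ : R →+* R'}
    (hφ : Function.Injective φ) (h : HD (Φ.map φ) (Ψ.map φ) (φ ∘ a) (φ ∘ b) (φ ρ)) :
    HD Φ Ψ a b ρ := by
  refine ⟨fun j i => hφ ?_, hφ ?_, hφ ?_⟩
  · simpa using h.1 j i
  · simpa using h.2.1
  · simpa using h.2.2

theorem hh_map (p : ℕ) (a b : Fin 2 → R) (ρ : R) (φ : R →+* R') :
    φ (hh p a b ρ) = hh p (φ ∘ a) (φ ∘ b) (φ ρ) := by simp [hh]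

theorem _root_.PR0.Nil2.map {p : ℕ} {f : R[X]} (φ : R →+* R') (h : Nil2 p f) :
    Nil2 p (f.map φ) := by
  rw [Nil2] at h ⊢
  have := congrArg (·.map φ) h
  simp only [Matrix.map_mul, Matrix.map_zero _ (map_zero φ), Matrix.map_map] at this
  rw [Phi_map, ← this, Matrix.map_map]
  congr 2
  ext x
  simp

theorem _root_.PR0.Nil2.of_map {p : ℕ} {f : R[X]} {φ : R →+* R'} (hφ : Function.Injective φ)
    (h : Nil2 p (f.map φ)) : Nil2 p f := by
  rw [Nil2] at h ⊢
  ext i j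
  refine hφ ?_
  have := congrFun (congrFun h i) j
  simpa [Phi_map, Matrix.mul_apply] using this

theorem fz_zero {α : Fin 5 → R} {i : Fin 5} (h : α i = 0) : (fz α).coeff 0 = 0 := by
  rw [coeff_zero_eq_eval_zero, fz, eval_prod]
  exact Finset.prod_eq_zero (Finset.mem_univ i) (by simp [h])

theorem fz_deg [Nontrivial R] (α : Fin 5 → R) : (fz α).natDegree = 5 := by
  rw [fz, natDegree_prod_of_monic _ _ fun i _ => monic_X_sub_C _]
  simp

end ring

section field
variable {K : Type u} [Field K] {p : ℕ} [Fact p.Prime] [CharP K p]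

omit [CharP K p] in
theorem HD.nil_iff {Φ Ψ : Matrix (Fin 2) (Fin 2) K} {a b : Fin 2 → K} {ρ : K} (ha : a ≠ 0)
    (h : HD Φ Ψ a b ρ) (hi : ∀ β, Φ *ᵥ β = 0 → Ψ *ᵥ β = 0 → β = 0) :
    hh p a b ρ = 0 ↔ Φ * Φ.map (· ^ p) = 0 := by
  have hp := (Fact.out : p.Prime).two_le
  have h1 : ∀ j i, (Φ * Φ.map (· ^ p)) j i = (b 0 * a 0 ^ p + b 1 * a 1 ^ p) * a j * b i ^ p := by
    intro j i
    simp only [Matrix.mul_apply, Fin.sum_univ_two, map_apply, h.1, mul_pow]
    ring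
  rw [hh, mul_eq_zero, pow_eq_zero_iff two_ne_zero, pow_eq_zero_iff (by omega)]
  constructor
  · rintro (h2 | h2)
    · ext j i
      simp [h1, h2]
    · have h3 := hi ![b 1, -b 0] (by
        ext j
        simp only [mulVec, dotProduct, Fin.sum_univ_two, h.1, cons_val_zero, cons_val_one,
          Pi.zero_apply]
        ring) (by
        have h4 := h.2.1
        have h5 := h.2.2
        rw [h2, zero_mul] at h4 h5
        ext j
        fin_cases j
        · simpa [mulVec, dotProduct, sub_eq_add_neg] using h4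
        · simpa [mulVec, dotProduct, sub_eq_add_neg] using h5)
      have h4 : b 1 = 0 := congrFun h3 0
      have h5 : b 0 = 0 := neg_eq_zero.1 (congrFun h3 1)
      ext j i
      simp [h1, h4, h5]
  · intro h2
    left
    obtain ⟨j, hj⟩ := Function.ne_iff.1 ha
    by_contra h3
    have h4 : ∀ i, b i = 0 := fun i => by
      have h5 := h1 j i
      rw [h2, Matrix.zero_apply] at h5
      exact pow_eq_zero_iff (by omega) |>.1
        ((mul_eq_zero.1 h5.symm).resolve_left (mul_ne_zero h3 hj))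
    exact h3 (by simp [h4])

omit [CharP K p] [Fact p.Prime] in
theorem HH.rescale {Φ Ψ Φ' Ψ' : Matrix (Fin 2) (Fin 2) K} {h δ : K} (hH : HH p Φ Ψ h) (hδ : δ ≠ 0)
    (h1 : δ ^ p * Φ' 0 0 = δ * Φ 0 0) (h2 : Φ' 0 1 = δ * Φ 0 1) (h3 : δ ^ p * Φ' 1 0 = Φ 1 0)
    (h4 : Φ' 1 1 = Φ 1 1) (h5 : δ ^ p * δ * Ψ' 0 0 = Ψ 0 0) (h6 : δ * Ψ' 0 1 = Ψ 0 1)
    (h7 : δ ^ p * Ψ' 1 0 = Ψ 1 0) (h8 : Ψ' 1 1 = Ψ 1 1) :
    HH p Φ' Ψ' (h / (δ ^ (p + 1)) ^ (p - 1)) := by
  obtain ⟨a, b, ρ, ha, ⟨k1, k2, k3⟩, rfl⟩ := hH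
  have hδp : δ ^ p ≠ 0 := pow_ne_zero _ hδ
  refine ⟨![δ * a 0, a 1], ![b 0 / δ ^ p, b 1], ρ / δ ^ (p + 1), fun h => ha ?_, ⟨?_, ?_, ?_⟩, ?_⟩
  · ext i
    fin_cases i
    · exact (mul_eq_zero.1 (congrFun h 0)).resolve_left hδ
    · exact congrFun h 1
  · simp only [Fin.forall_fin_two, cons_val_zero, cons_val_one]
    rw [k1] at h1 h2 h3 h4
    refine ⟨⟨?_, ?_⟩, ?_, h4⟩
    · field_simp
      linear_combination h1
    · linear_combination h2
    · field_simp
      linear_combination h3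
  · simp only [cons_val_zero, cons_val_one, pow_succ]
    field_simp
    linear_combination k2 + b 1 * h5 - b 0 * h6
  · simp only [cons_val_zero, cons_val_one, pow_succ]
    field_simp
    linear_combination k3 + b 1 * h7 - b 0 * h8
  · simp only [hh, cons_val_zero, cons_val_one, div_pow, mul_pow]
    field_simp

theorem exists_HH (hp : p ≠ 2) {f : K[X]} (hf : f.natDegree ≤ 5) (h0 : f.coeff 0 = 0)
    (h : (Phi p f).det = 0) : ∃ h, HH p (Phi p f) (Psi p f) h := by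
  obtain ⟨m, hm⟩ := odd_p hp
  by_cases hΦ : Phi p f = 0
  · exact ⟨_, ![1, 0], 0, 0, by simp, ⟨by simp [hΦ], by simp, by simp⟩, rfl⟩
  obtain ⟨j₀, i₀, hji⟩ : ∃ j i, Phi p f j i ≠ 0 := by
    by_contra h1
    push Not at h1
    exact hΦ (Matrix.ext h1)
  rw [det_fin_two] at h
  let b : Fin 2 → K := fun i => Phi p f j₀ i / Phi p f j₀ i₀
  have h1 : ∀ j i, Phi p f j i = Phi p f j i₀ * b i := by
    intro j i
    simp only [b]
    field_simp
    fin_cases j <;> fin_cases i <;> fin_cases j₀ <;> fin_cases i₀ <;> simp <;>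
      first | linear_combination h | linear_combination -h | ring
  obtain ⟨q, hq⟩ := exists_rel (p := p) (by omega) f ![b 1, -b 0]
  have h2 : Phi p f *ᵥ ![b 1, -b 0] = 0 := by
    ext j
    simp only [mulVec, dotProduct, Fin.sum_univ_two, cons_val_zero, cons_val_one, Pi.zero_apply]
    rw [h1 j 0, h1 j 1]
    ring
  rw [h2] at hq
  have h3 := Dz_orth hp f q (hq.dz hp hf h0) i₀
  simp only [mulVec, dotProduct, Fin.sum_univ_two, cons_val_zero, cons_val_one] at h3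
  have ha : (fun j => Phi p f j i₀) ≠ 0 := fun h => hji (congrFun h j₀)
  by_cases h4 : Phi p f 1 i₀ = 0
  · have h5 : Phi p f 0 i₀ ≠ 0 := by
      fin_cases j₀
      · exact hji
      · exact absurd h4 hji
    refine ⟨_, _, b, -(Psi p f 1 0 * b 1 - Psi p f 1 1 * b 0) / Phi p f 0 i₀, ha,
      ⟨h1, ?_, ?_⟩, rfl⟩
    · simp only [h4, mul_zero, add_zero] at h3 ⊢
      linear_combination (mul_eq_zero.1 h3).resolve_right h5
    · field_simp
  · refine ⟨_, _, b, (Psi p f 0 0 * b 1 - Psi p f 0 1 * b 0) / Phi p f 1 i₀, ha,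
      ⟨h1, ?_, ?_⟩, rfl⟩
    · field_simp
    · field_simp
      linear_combination h3

theorem Phi_comp (hp : p ≠ 2) {f : K[X]} (hf : f.natDegree ≤ 5) {d : K} (hd : d ≠ 0) (c : K) :
    !![d, 0; c * d, d ^ 2] * Phi p (f.comp (C d * X + C c)) =
      Phi p f * !![d, 0; c * d, d ^ 2].map (· ^ p) := by
  obtain ⟨m, hm⟩ := odd_p hp
  rw [ext_iff_mulVec]
  intro β
  obtain ⟨q, hq⟩ := exists_rel (p := p) (by omega) f ((!![d, 0; c * d, d ^ 2].map (· ^ p)) *ᵥ β)
  generalize hA : Phi p f *ᵥ (!![d, 0; c * d, d ^ 2].map (· ^ p)) *ᵥ β = A at hq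
  have h1 : A = !![d, 0; c * d, d ^ 2] *ᵥ ![A 0 / d, (A 1 - c * A 0) / d ^ 2] := by
    ext i
    fin_cases i <;> simp [mulVec, dotProduct] <;> field_simp
    ring
  rw [h1] at hq
  rw [← mulVec_mulVec, ← mulVec_mulVec, (hq.comp hp hf hd c).phi (by omega), hA, ← h1]

theorem det_comp (hp : p ≠ 2) {f : K[X]} (hf : f.natDegree ≤ 5) {d : K} (hd : d ≠ 0) (c e : K) :
    (Phi p (C e * f.comp (C d * X + C c))).det = (e * d ^ 3) ^ (p - 1) * (Phi p f).det := by
  have h := congrArg det (Phi_comp hp hf hd c)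
  obtain ⟨m, rfl⟩ := odd_p hp
  rw [det_mul, det_mul] at h
  rw [Phi_C_mul, det_smul, show (2 * m + 3) / 2 = m + 1 by omega,
    show 2 * m + 3 - 1 = 2 * m + 2 by omega]
  simp only [det_fin_two (A := !![_, _; _, _]), det_fin_two (A := Matrix.map _ _), map_apply,
    of_apply, cons_val', cons_val_zero, cons_val_one, cons_val_fin_one,
    zero_pow (show 2 * m + 3 ≠ 0 by omega), zero_mul, sub_zero, Fintype.card_fin] at h ⊢
  refine mul_left_cancel₀ (pow_ne_zero 3 hd) ?_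
  linear_combination e ^ (2 * m + 2) * h

theorem nil_comp (hp : p ≠ 2) {f : K[X]} (hf : f.natDegree ≤ 5) {d e : K} (hd : d ≠ 0)
    (he : e ≠ 0) (c : K) : Nil2 p (C e * f.comp (C d * X + C c)) ↔ Nil2 p f := by
  have h := Phi_comp hp hf hd c
  have hm : ∀ A B : Matrix (Fin 2) (Fin 2) K,
      (A * B).map (· ^ p) = A.map (· ^ p) * B.map (· ^ p) := fun A B =>
    Matrix.map_mul (f := frobenius K p)
  have h1 := congrArg (·.map (· ^ p)) h
  simp only [hm] at h1
  have hV : IsUnit !![d, 0; c * d, d ^ 2] := by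
    rw [isUnit_iff_isUnit_det, det_fin_two]
    simp [hd]
  have hV' : IsUnit ((!![d, 0; c * d, d ^ 2].map (· ^ p)).map (· ^ p)) :=
    (hV.map (frobenius K p).mapMatrix).map (frobenius K p).mapMatrix
  have h2 : (e ^ (p / 2) • Phi p (f.comp (C d * X + C c))).map (· ^ p) =
      (e ^ (p / 2)) ^ p • (Phi p (f.comp (C d * X + C c))).map (· ^ p) := by
    ext i j
    simp [mul_pow]
  rw [Nil2, Nil2, Phi_C_mul, h2, smul_mul_smul_comm, smul_eq_zero,
    or_iff_right (mul_ne_zero (pow_ne_zero _ he) (pow_ne_zero _ (pow_ne_zero _ he))),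
    ← hV.mul_right_eq_zero, ← mul_assoc, h, mul_assoc, h1, ← mul_assoc, hV'.mul_left_eq_zero]

theorem HH.comp (hp : p ≠ 2) {f : K[X]} (hf : f.natDegree ≤ 5) (h0 : f.coeff 0 = 0) {d e c h : K}
    (hd : d ≠ 0) (h0' : (f.comp (C d * X + C c)).coeff 0 = 0)
    (hH : HH p (Phi p f) (Psi p f) h) :
    HH p (Phi p (C e * f.comp (C d * X + C c))) (Psi p (C e * f.comp (C d * X + C c)))
      (((e * d ^ 3) ^ (p + 1)) ^ (p - 1) * h) := by
  obtain ⟨a, b, ρ, ha, ⟨k1, k2, k3⟩, rfl⟩ := hH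
  have hp0 : p ≠ 0 := (Fact.out : p.Prime).ne_zero
  obtain ⟨m, hm⟩ := odd_p hp
  have h1 := Phi_comp hp hf hd c
  have hf' : (f.comp (C d * X + C c)).natDegree ≤ 5 :=
    natDegree_comp_le.trans (by rw [natDegree_linear hd]; omega)
  obtain ⟨q, hq⟩ := exists_rel (p := p) (by omega) f
    ![(d ^ p) ^ 3 * b 1, -((d ^ p) ^ 3 * b 0)]
  have h2 : Phi p f *ᵥ ![(d ^ p) ^ 3 * b 1, -((d ^ p) ^ 3 * b 0)] = 0 := by
    ext j
    simp only [mulVec, dotProduct, Fin.sum_univ_two, cons_val_zero, cons_val_one, Pi.zero_apply, k1]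
    ring
  rw [h2] at hq
  have h3 := hq.dz hp hf h0
  have e2 : (d ^ 2) ^ p = (d ^ p) ^ 2 := by rw [← pow_mul, mul_comm, pow_mul]
  have h4 : Rel p (f.comp (C d * X + C c))
      ![(d ^ p) ^ 2 * b 1, -(d ^ p * b 0 + c ^ p * d ^ p * b 1)] 0 (q.comp (C d * X + C c)) := by
    refine Rel.comp hp hf hd c ?_
    convert hq using 1
    · ext i
      fin_cases i <;> simp [mulVec, dotProduct, hp0, mul_pow, e2] <;> ring
    · simp
  have h5 := h4.dz hp hf' h0'
  rw [Dz_comp, h3] at h5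
  have h6 := congrArg (coeff · 0) h5
  have h7 := congrArg (coeff · 1) h5
  simp only [add_comp, mul_comp, C_comp, X_comp, coeff_C_mul, coeff_add, coeff_X_zero,
    coeff_C_zero, coeff_X_one, coeff_C_succ, mul_zero, zero_add, mul_one, add_zero,
    mulVec, dotProduct, Fin.sum_univ_two, cons_val_zero, cons_val_one] at h6 h7
  have h8 := fun j i => congrFun (congrFun h1 j) i
  simp only [Matrix.mul_apply, Fin.forall_fin_two, Fin.sum_univ_two, map_apply, of_apply, cons_val',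
    cons_val_zero, cons_val_one, cons_val_fin_one, zero_pow hp0, zero_mul, add_zero, mul_zero,
    zero_add, k1, mul_pow, e2] at h8
  obtain ⟨⟨l1, l2⟩, l3, l4⟩ := h8
  have e3 : e ^ p = e ^ (p / 2) * e ^ (p / 2 + 1) := by
    rw [← pow_add]; congr 1; omega
  refine ⟨![a 0 / d, (a 1 - c * a 0) / d ^ 2],
    ![e ^ (p / 2) * (d ^ p * b 0 + c ^ p * d ^ p * b 1), e ^ (p / 2) * ((d ^ p) ^ 2 * b 1)],
    e ^ p * ((d ^ p) ^ 3 * d ^ 3 * ρ), fun h => ha ?_, ⟨?_, ?_, ?_⟩, ?_⟩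
  · have h9 : a 0 = 0 := by simpa [hd] using congrFun h 0
    have h10 : a 1 = 0 := by simpa [hd, h9] using congrFun h 1
    ext i
    fin_cases i <;> simp [h9, h10]
  · simp only [Phi_C_mul, Fin.forall_fin_two, cons_val_zero, cons_val_one, Matrix.smul_apply,
      smul_eq_mul]
    refine ⟨⟨?_, ?_⟩, ?_, ?_⟩ <;> field_simp
    · linear_combination e ^ (p / 2) * l1
    · linear_combination e ^ (p / 2) * l2
    · linear_combination e ^ (p / 2) * (l3 - c * l1)
    · linear_combination e ^ (p / 2) * (l4 - c * l2)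
  · simp only [Psi_C_mul, cons_val_zero, cons_val_one, Matrix.smul_apply, smul_eq_mul, e3]
    rw [← mul_div_assoc, eq_div_iff (pow_ne_zero 2 hd)]
    linear_combination e ^ (p / 2) * e ^ (p / 2 + 1) * d ^ 2 *
      (-h6 + d * (d ^ p) ^ 3 * k2 + d * c * (d ^ p) ^ 3 * k3)
  · simp only [Psi_C_mul, cons_val_zero, cons_val_one, Matrix.smul_apply, smul_eq_mul, e3]
    rw [← mul_div_assoc, ← neg_div, eq_div_iff hd]
    linear_combination e ^ (p / 2) * e ^ (p / 2 + 1) * d * (-h7 + d * d * (d ^ p) ^ 3 * k3)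
  · simp only [hh, cons_val_zero, cons_val_one, div_pow, sub_pow_char, mul_pow, e2]
    have hdp : d ^ p ≠ 0 := pow_ne_zero _ hd
    have e4 : (e ^ (p + 1)) ^ (p - 1) = (e ^ (p / 2)) ^ 2 * (e ^ p) ^ (p - 1) := by
      rw [pow_succ, mul_pow, mul_comm, ← pow_mul e (p / 2)]
      congr 2
      omega
    have e5 : ((d ^ 3) ^ (p + 1)) ^ (p - 1) = ((d ^ p) ^ 3) ^ (p - 1) * (d ^ 3) ^ (p - 1) := by
      rw [pow_succ, mul_pow, ← pow_mul d 3, mul_comm 3, pow_mul]
    rw [e4, e5]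
    field_simp
    ring

omit [Fact p.Prime] [CharP K p] in
theorem fz_aff (α : Fin 5 → K) (π : Equiv.Perm (Fin 5)) {a : K} (ha : a ≠ 0) (c : K) :
    fz (fun i => a * α (π i) + c) = C (a ^ 5) * (fz α).comp (C a⁻¹ * X + C (-(a⁻¹ * c))) := by
  rw [fz, fz, ← Equiv.prod_comp π fun i => X - C (α i), prod_comp, C_pow]
  have h : (C a * C a⁻¹ : K[X]) = 1 := by rw [← C_mul, mul_inv_cancel₀ ha, C_1]
  have h1 : ∀ i, (X - C (a * α (π i) + c) : K[X]) =
      C a * (X - C (α (π i))).comp (C a⁻¹ * X + C (-(a⁻¹ * c))) := fun i => by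
    simp only [sub_comp, X_comp, C_comp, C_add, C_mul, C_neg]
    linear_combination (C c - X) * h
  simp only [h1, Finset.prod_mul_distrib, Finset.prod_const, Finset.card_univ, Fintype.card_fin]

/-- The Hasse invariant of a configuration. -/
noncomputable def Dc (p : ℕ) {R : Type u} [CommRing R] (α : Fin 5 → R) : R := (Phi p (fz α)).det

/-- The second Hasse invariant of a configuration. -/
def HC (p : ℕ) {R : Type u} [CommRing R] (α : Fin 5 → R) (h : R) : Prop :=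
  HH p (Phi p (fz fun i => α i - α 0)) (Psi p (fz fun i => α i - α 0)) h

theorem Dc_aff (hp : p ≠ 2) (α : Fin 5 → K) (π : Equiv.Perm (Fin 5)) {a : K} (ha : a ≠ 0) (c : K) :
    Dc p (fun i => a * α (π i) + c) = (a ^ 4) ^ (p / 2) * Dc p α := by
  rw [Dc, fz_aff α π ha, det_comp hp (fz_deg α).le (inv_ne_zero ha), Dc]
  obtain ⟨m, hm⟩ := odd_p hp
  rw [show a ^ 5 * a⁻¹ ^ 3 = a ^ 2 by field_simp, ← pow_mul, ← pow_mul]
  congr 2
  omega

theorem nil_aff (hp : p ≠ 2) (α : Fin 5 → K) (π : Equiv.Perm (Fin 5)) {a : K} (ha : a ≠ 0)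
    (c : K) : Nil2 p (fz fun i => a * α (π i) + c) ↔ Nil2 p (fz α) := by
  rw [fz_aff α π ha, nil_comp hp (fz_deg α).le (inv_ne_zero ha) (pow_ne_zero _ ha)]

theorem HC.aff (hp : p ≠ 2) {α : Fin 5 → K} {h : K} (hH : HC p α h) (π : Equiv.Perm (Fin 5))
    {a : K} (ha : a ≠ 0) (c : K) :
    HC p (fun i => a * α (π i) + c) ((a ^ 4) ^ (p / 2 * (p + 1)) * h) := by
  have h1 : (fun i => a * α (π i) + c - (a * α (π 0) + c)) =
      fun i => a * (α (π i) - α 0) + -(a * (α (π 0) - α 0)) := by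
    ext i
    ring
  have h2 := fz_aff (fun i => α i - α 0) π ha (-(a * (α (π 0) - α 0)))
  have h3 : (fz fun i => a * (α (π i) - α 0) + -(a * (α (π 0) - α 0))).coeff 0 = 0 :=
    fz_zero (i := 0) (by simp)
  rw [h2, coeff_C_mul, mul_eq_zero, or_iff_right (pow_ne_zero _ ha)] at h3
  have h4 := HH.comp hp (e := a ^ 5) (fz_deg _).le (fz_zero (i := 0) (by simp))
    (inv_ne_zero ha) h3 hH
  rw [HC, h1, h2]
  convert h4 using 2
  obtain ⟨m, hm⟩ := odd_p hp
  rw [show a ^ 5 * a⁻¹ ^ 3 = a ^ 2 by field_simp, ← pow_mul, ← pow_mul, ← pow_mul,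
    show p - 1 = 2 * (p / 2) by omega]
  congr 1
  ring

theorem exists_HC (hp : p ≠ 2) {α : Fin 5 → K} (h : Dc p α = 0) : ∃ h, HC p α h := by
  refine exists_HH hp (fz_deg _).le (fz_zero (i := 0) (by simp)) ?_
  have := Dc_aff hp α 1 one_ne_zero (-α 0)
  rw [h, mul_zero] at this
  simpa [Dc, sub_eq_add_neg] using this

end field

theorem lin {κ : Type u} [Field κ] {p : ℕ} [Fact p.Prime] {Φ Ψ : Matrix (Fin 2) (Fin 2) (HO κ)}
    {h : HF κ} (hH : HH p (Φ.map (HO κ).subtype) (Ψ.map (HO κ).subtype) h)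
    (hi : ∀ β, Φ.map hres *ᵥ β = 0 → Ψ.map hres *ᵥ β = 0 → β = 0) :
    ∃ h' : HO κ, h = h' ∧ (hres h' = 0 ↔ Φ.map hres * (Φ.map hres).map (· ^ p) = 0) := by
  obtain ⟨a, b, ρ, ha, ⟨k1, k2, k3⟩, rfl⟩ := hH
  have hp := (Fact.out : p.Prime).two_le
  obtain ⟨j, hj, hj'⟩ : ∃ j, a j ≠ 0 ∧ ∀ i, a i / a j ∈ HO κ := by
    rcases le_total (hv (a 0)) (hv (a 1)) with h | h
    · have h0 : a 0 ≠ 0 := fun h0 => ha (by
        rw [hv_eq_top.2 h0, top_le_iff, hv_eq_top] at h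
        ext i
        fin_cases i <;> assumption)
      exact ⟨0, h0, Fin.forall_fin_two.2 ⟨(Hahn_div h0).2 le_rfl, (Hahn_div h0).2 h⟩⟩
    · have h0 : a 1 ≠ 0 := fun h0 => ha (by
        rw [hv_eq_top.2 h0, top_le_iff, hv_eq_top] at h
        ext i
        fin_cases i <;> assumption)
      exact ⟨1, h0, Fin.forall_fin_two.2 ⟨(Hahn_div h0).2 h, (Hahn_div h0).2 le_rfl⟩⟩
  simp only [map_apply, ValuationSubring.subtype_apply] at k1 k2 k3
  have hb : ∀ i, b i = Φ j i / a j := fun i => by rw [k1, mul_div_cancel_left₀ _ hj]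
  have hρ : ρ * a j ^ 2 ∈ HO κ := by
    fin_cases j
    · have : ρ * a 0 ^ 2 = -(Ψ 1 0 * Φ 0 1 - Ψ 1 1 * Φ 0 0 : HO κ) := by
        push_cast
        rw [k1, k1]
        linear_combination a 0 * k3
      exact this ▸ neg_mem (Subtype.mem _)
    · have : ρ * a 1 ^ 2 = (Ψ 0 0 * Φ 1 1 - Ψ 0 1 * Φ 1 0 : HO κ) := by
        push_cast
        rw [k1, k1]
        linear_combination -a 1 * k2
      exact this ▸ Subtype.mem _
  have hD : HD Φ Ψ (fun i => ⟨_, hj' i⟩) (Φ j) ⟨_, hρ⟩ := by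
    refine ⟨fun i l => Subtype.ext ?_, Subtype.ext ?_, Subtype.ext ?_⟩ <;> push_cast <;>
      simp only [k1] <;> field_simp
    · linear_combination k2
    · linear_combination k3
  refine ⟨hh p (fun i => ⟨_, hj' i⟩) (Φ j) ⟨_, hρ⟩, ?_, ?_⟩
  · obtain ⟨n, rfl⟩ : ∃ n, p = n + 1 := ⟨p - 1, by omega⟩
    simp only [hh, Nat.add_sub_cancel]
    push_cast
    simp only [k1, div_pow, mul_pow]
    field_simp
    ring
  · refine Iff.trans ?_ ((hD.map hres.toRingHom).nil_iff (fun h => ?_) hi)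
    · rw [← hh_map]
      rfl
    · have h1 := congrFun h j
      have h2 : (⟨_, hj' j⟩ : HO κ) = 1 := Subtype.ext (div_self hj)
      simp [h2] at h1

end PR0.Z
end

-- merged part: Pool.Agent.Work.MP_da2620_ag.ZP3
section
/-!
# Hasse invariants of degenerate curves; theta coordinates and cross ratios
-/

namespace PR0.Z

open Polynomial Matrix

universe u

section ring
variable {R R' : Type u} [CommRing R] [CommRing R']

/-- Hasse invariant of `x (x - 1) (u x - a)`. -/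
noncomputable def has (p : ℕ) (u a : R) : R :=
  ((X * (X - 1) * (C u * X - C a)) ^ (p / 2)).coeff (p - 1)

theorem has_map (p : ℕ) (u a : R) (φ : R →+* R') : φ (has p u a) = has p (φ u) (φ a) := by
  rw [has, ← coeff_map]
  simp [has]

theorem SS_iff {p : ℕ} {l : R} : SS p l ↔ has p 1 l = 0 := by simp [SS, has]

theorem has_mul (p : ℕ) (e u a : R) : has p (e * u) (e * a) = e ^ (p / 2) * has p u a := by
  rw [has, has, ← coeff_C_mul, C_pow, ← mul_pow]
  simp only [C_mul]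
  congr 2
  ring

theorem coeff_X2 (m n : ℕ) (g : R[X]) : ((X ^ 2 * g) ^ m).coeff (n + 2 * m) = (g ^ m).coeff n := by
  rw [mul_pow, ← pow_mul, coeff_X_pow_mul]

theorem Phi_X2 {p : ℕ} [Fact p.Prime] (hp : p ≠ 2) (g : R[X]) :
    Phi p (X ^ 2 * g) 0 0 = g.coeff 0 ^ (p / 2) ∧ Phi p (X ^ 2 * g) 1 0 = 0 ∧
      Phi p (X ^ 2 * g) 1 1 = (g ^ (p / 2)).coeff (p - 1) := by
  obtain ⟨m, hm⟩ := odd_p hp
  simp only [Phi_eq, of_apply, cons_val', cons_val_zero, cons_val_one, cons_val_fin_one]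
  refine ⟨?_, ?_, ?_⟩
  · rw [show p - 1 = 0 + 2 * (p / 2) by omega, coeff_X2, coeff_zero_eq_eval_zero,
      coeff_zero_eq_eval_zero, eval_pow]
  · rw [mul_pow, ← pow_mul, coeff_X_pow_mul', if_neg (by omega)]
  · rw [show 2 * p - 2 = p - 1 + 2 * (p / 2) by omega, coeff_X2]

theorem Phi_four {p : ℕ} [Fact p.Prime] (hp : p ≠ 2) {f : R[X]} (hf : f.natDegree ≤ 4) :
    Phi p f 0 1 = 0 ∧ Phi p f 1 1 = f.coeff 4 ^ (p / 2) := by
  obtain ⟨m, hm⟩ := odd_p hp
  simp only [Phi_eq, of_apply, cons_val', cons_val_zero, cons_val_one, cons_val_fin_one]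
  refine ⟨coeff_eq_zero_of_natDegree_lt ((natDegree_pow_le_of_le _ hf).trans_lt (by omega)), ?_⟩
  rw [show 2 * p - 2 = p / 2 * 4 by omega, coeff_pow_of_natDegree_le hf]

theorem has_one_zero {p : ℕ} [Fact p.Prime] (hp : p ≠ 2) : has p (1 : R) 0 = (-1) ^ (p / 2) := by
  obtain ⟨m, hm⟩ := odd_p hp
  rw [has, show (X * (X - 1) * (C 1 * X - C 0) : R[X]) = X ^ 2 * (X - 1) by simp; ring,
    show p - 1 = 0 + 2 * (p / 2) by omega, coeff_X2, coeff_zero_eq_eval_zero]
  simp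

theorem has_zero_one {p : ℕ} [Fact p.Prime] (hp : p ≠ 2) : has p (0 : R) 1 = (-1) ^ (p / 2) := by
  obtain ⟨m, hm⟩ := odd_p hp
  rw [has, show (X * (X - 1) * (C 0 * X - C 1) : R[X]) = X - X ^ 2 by simp; ring,
    show p - 1 = p / 2 * 2 by omega, coeff_pow_of_natDegree_le (by compute_degree)]
  simp [coeff_X]

/-- The product of linear forms. -/
noncomputable def pu (U A : Fin 5 → R) : R[X] := ∏ i, (C (U i) * X - C (A i))

theorem pu_map (U A : Fin 5 → R) (φ : R →+* R') :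
    (pu U A).map φ = pu (fun i => φ (U i)) fun i => φ (A i) := by
  simp [pu, Polynomial.map_prod]

/-- Brackets. -/
def br (U A : Fin 5 → R) (i j : Fin 5) : R := A i * U j - A j * U i

/-- Theta coordinates. -/
def TT (α : Fin 5 → R) (σ : Equiv.Perm (Fin 5)) : R :=
  (α (σ 0) - α (σ 1)) * (α (σ 1) - α (σ 2)) * (α (σ 0) - α (σ 2)) * (α (σ 3) - α (σ 4))

/-- Homogeneous theta coordinates. -/
def TU (U A : Fin 5 → R) (σ : Equiv.Perm (Fin 5)) : R :=
  br U A (σ 0) (σ 1) * br U A (σ 1) (σ 2) * br U A (σ 0) (σ 2) * br U A (σ 3) (σ 4) *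
    U (σ 3) * U (σ 4)

theorem TT_aff (α : Fin 5 → R) (π σ : Equiv.Perm (Fin 5)) (a c : R) :
    TT (fun i => a * α (π i) + c) σ = a ^ 4 * TT α (π * σ) := by
  simp only [TT, Equiv.Perm.mul_apply]
  ring

theorem TT_map {F : Type*} [FunLike F R R'] [RingHomClass F R R'] (φ : F) (α : Fin 5 → R)
    (σ : Equiv.Perm (Fin 5)) : φ (TT α σ) = TT (fun i => φ (α i)) σ := by simp [TT]

theorem TU_map {F : Type*} [FunLike F R R'] [RingHomClass F R R'] (φ : F) (U A : Fin 5 → R)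
    (σ : Equiv.Perm (Fin 5)) : φ (TU U A σ) = TU (fun i => φ (U i)) (fun i => φ (A i)) σ := by
  simp [TU, br]

theorem TU_mem {S : Type*} [SetLike S R] [SubringClass S R] {L : S} {U A : Fin 5 → R}
    (hU : ∀ i, U i ∈ L) (hA : ∀ i, A i ∈ L) (σ : Equiv.Perm (Fin 5)) : TU U A σ ∈ L := by
  have h : ∀ i j, br U A i j ∈ L := fun i j =>
    sub_mem (mul_mem (hA _) (hU _)) (mul_mem (hA _) (hU _))
  exact mul_mem (mul_mem (mul_mem (mul_mem (mul_mem (h _ _) (h _ _)) (h _ _)) (h _ _)) (hU _))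
    (hU _)

theorem TU_one (A : Fin 5 → R) : TU (fun _ => 1) A = TT A := by
  ext σ
  simp [TU, TT, br]

theorem Dc_map (p : ℕ) (α : Fin 5 → R) (φ : R →+* R') : φ (Dc p α) = Dc p fun i => φ (α i) := by
  rw [Dc, Dc, ← fz_map, Phi_map, RingHom.map_det]
  rfl

end ring

/-- Explicit permutations. -/
noncomputable def pv (v : Fin 5 → Fin 5) (h : Function.Bijective v) : Equiv.Perm (Fin 5) :=
  Equiv.ofBijective v h

@[simp] theorem pv_apply (v : Fin 5 → Fin 5) (h : Function.Bijective v) (i : Fin 5) :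
    pv v h i = v i := rfl

theorem exists_perm3 {i j l : Fin 5} (h1 : i ≠ j) (h2 : i ≠ l) (h3 : j ≠ l) :
    ∃ π : Equiv.Perm (Fin 5), π 0 = i ∧ π 1 = j ∧ π 2 = l := by
  obtain ⟨π, h⟩ := Equiv.Perm.exists_extending_pair (f := (![0, 1, 2] : Fin 3 → Fin 5))
    (g := ![i, j, l]) (by decide) (by
      intro a b
      fin_cases a <;> fin_cases b <;> simp [h1, h2, h3, h1.symm, h2.symm, h3.symm])
  exact ⟨π, h 0, h 1, h 2⟩

section field
variable {K K' : Type u} [Field K] [Field K'] {p : ℕ} [Fact p.Prime]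

/-- Denominator of the cross ratio. -/
noncomputable def den {R : Type u} [CommRing R] (t : Equiv.Perm (Fin 5) → R)
    (σ : Equiv.Perm (Fin 5)) : R :=
  2 * (t (σ * pv ![0, 1, 3, 2, 4] (by decide)) * t (σ * pv ![0, 1, 4, 2, 3] (by decide)))

/-- Numerator of the cross ratio. -/
noncomputable def num {R : Type u} [CommRing R] (t : Equiv.Perm (Fin 5) → R)
    (σ : Equiv.Perm (Fin 5)) : R :=
  t (σ * pv ![0, 2, 3, 1, 4] (by decide)) * t (σ * pv ![0, 2, 4, 1, 3] (by decide)) +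
    t (σ * pv ![0, 1, 3, 2, 4] (by decide)) * t (σ * pv ![0, 1, 4, 2, 3] (by decide)) -
    t (σ * pv ![1, 2, 3, 0, 4] (by decide)) * t (σ * pv ![1, 2, 4, 0, 3] (by decide))

/-- The cross ratio in terms of theta coordinates. -/
noncomputable def cr (t : Equiv.Perm (Fin 5) → K) (σ : Equiv.Perm (Fin 5)) : K := num t σ / den t σ

theorem den_map {R R' F : Type u} [CommRing R] [CommRing R'] [FunLike F R R'] [RingHomClass F R R']
    (φ : F) (t : Equiv.Perm (Fin 5) → R) (σ : Equiv.Perm (Fin 5)) :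
    φ (den t σ) = den (fun τ => φ (t τ)) σ := by simp [den, map_ofNat]

theorem num_map {R R' F : Type u} [CommRing R] [CommRing R'] [FunLike F R R'] [RingHomClass F R R']
    (φ : F) (t : Equiv.Perm (Fin 5) → R) (σ : Equiv.Perm (Fin 5)) :
    φ (num t σ) = num (fun τ => φ (t τ)) σ := by simp [num]

theorem den_smul (r : K) (t : Equiv.Perm (Fin 5) → K) (π σ : Equiv.Perm (Fin 5)) :
    den (fun τ => r * t (π * τ)) σ = r ^ 2 * den t (π * σ) := by
  simp only [den, mul_assoc]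
  ring

theorem cr_smul {r : K} (hr : r ≠ 0) (t : Equiv.Perm (Fin 5) → K) (π σ : Equiv.Perm (Fin 5)) :
    cr (fun τ => r * t (π * τ)) σ = cr t (π * σ) := by
  have : num (fun τ => r * t (π * τ)) σ = r ^ 2 * num t (π * σ) := by
    simp only [num, mul_assoc]
    ring
  rw [cr, cr, den_smul, this, mul_div_mul_left _ _ (pow_ne_zero _ hr)]

theorem cr_TT {w : K} {α : Fin 5 → K} {σ : Equiv.Perm (Fin 5)}
    (h : den (fun τ => w * TT α τ) σ ≠ 0) : α (σ 1) - α (σ 0) ≠ 0 ∧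
      cr (fun τ => w * TT α τ) σ = (α (σ 2) - α (σ 0)) / (α (σ 1) - α (σ 0)) := by
  have h1 : α (σ 1) - α (σ 0) ≠ 0 := fun h1 => h (by simp [den, TT, sub_eq_zero.1 h1])
  refine ⟨h1, ?_⟩
  rw [cr, div_eq_div_iff h h1]
  simp only [num, den, TT, Equiv.Perm.mul_apply, pv_apply, cons_val_zero, cons_val_one, cons_val]
  ring

theorem TT_ne {α : Fin 5 → K} (h : Function.Injective α) (σ : Equiv.Perm (Fin 5)) : TT α σ ≠ 0 := by
  simp [TT, sub_eq_zero, h.eq_iff]

theorem two_ne [CharP K p] (hp : p ≠ 2) : (2 : K) ≠ 0 := fun h =>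
  hp ((Nat.prime_dvd_prime_iff_eq Fact.out Nat.prime_two).1
    ((CharP.cast_eq_zero_iff K p 2).1 (by exact_mod_cast h)))

theorem den_ne [CharP K p] (hp : p ≠ 2) {t : Equiv.Perm (Fin 5) → K} (h : ∀ σ, t σ ≠ 0)
    (σ : Equiv.Perm (Fin 5)) : den t σ ≠ 0 := mul_ne_zero (two_ne hp) (mul_ne_zero (h _) (h _))

theorem TU_div {U : Fin 5 → K} (hU : ∀ i, U i ≠ 0) (A : Fin 5 → K) (σ : Equiv.Perm (Fin 5)) :
    (∏ i, U i) ^ 2 * TT (fun i => A i / U i) σ = TU U A σ := by
  rw [← Equiv.prod_comp σ U, Fin.prod_univ_five]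
  simp only [TT, TU, br]
  have := hU (σ 0)
  have := hU (σ 1)
  have := hU (σ 2)
  have := hU (σ 3)
  have := hU (σ 4)
  field_simp

theorem pu_div {U : Fin 5 → K} (hU : ∀ i, U i ≠ 0) (A : Fin 5 → K) :
    C (∏ i, U i) * fz (fun i => A i / U i) = pu U A := by
  rw [fz, pu, map_prod, ← Finset.prod_mul_distrib]
  refine Finset.prod_congr rfl fun i _ => ?_
  rw [mul_sub, ← C_mul, mul_div_cancel₀ _ (hU i)]

theorem rm_prod {ι : Type} [DecidableEq K] {f : ι → K[X]} (h0 : ∀ i, f i ≠ 0)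
    (h1 : ∀ i, (f i).natDegree ≤ 1) (c : K) (s : Finset ι) :
    rootMultiplicity c (∏ i ∈ s, f i) ≤ (s.filter fun i => (f i).eval c = 0).card := by
  classical
  induction s using Finset.induction_on with
  | empty => simp
  | insert i s hi ih =>
    rw [Finset.prod_insert hi, rootMultiplicity_mul
      (mul_ne_zero (h0 i) (Finset.prod_ne_zero_iff.2 fun j _ => h0 j)), Finset.filter_insert]
    split_ifs with h
    · rw [Finset.card_insert_of_notMem (by simp [hi])]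
      have : rootMultiplicity c (f i) ≤ 1 := by
        rw [← count_roots]
        exact ((Multiset.count_le_card _ _).trans (card_roots' _)).trans (h1 i)
      omega
    · rw [rootMultiplicity_eq_zero h, zero_add]
      exact ih

theorem lin_ne {u a : K} (h : u ≠ 0 ∨ a ≠ 0) : (C u * X - C a : K[X]) ≠ 0 := fun h0 => by
  have h1 := congrArg (coeff · 1) h0
  have h2 := congrArg (coeff · 0) h0
  simp at h1 h2
  tauto

theorem rm_pu {U A : Fin 5 → K} (h : ∀ i, U i ≠ 0 ∨ A i ≠ 0)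
    (h3 : ∀ i j l, i ≠ j → i ≠ l → j ≠ l → br U A i j = 0 → br U A i l ≠ 0) (c : K) :
    rootMultiplicity c (pu U A) ≤ 2 := by
  classical
  refine (rm_prod (fun i => lin_ne (h i)) (fun i => by compute_degree) c _).trans ?_
  by_contra h4
  obtain ⟨i, hi, j, hj, l, hl, h5, h6, h7⟩ := Finset.two_lt_card.1 (not_le.1 h4)
  simp only [Finset.mem_filter, Finset.mem_univ, true_and, eval_sub, eval_mul, eval_C,
    eval_X] at hi hj hl
  refine h3 i j l h5 h6 h7 ?_ ?_ <;> rw [br]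
  · linear_combination U i * hj - U j * hi
  · linear_combination U i * hl - U l * hi

theorem key1' [CharP K p] (hp : p ≠ 2) [IsAlgClosed K] {u a : K} (h : u ≠ 0 ∨ a ≠ 0)
    (h0 : has p u a = 0) {f : K[X]} (hf : f = X * (X - 1) * (C u * X - C a)) :
    f.coeff 1 * (f ^ (p / 2)).coeff p ≠ 0 ∧ f.coeff 3 * (f ^ (p / 2)).coeff (p - 2) ≠ 0 := by
  classical
  have h1 : (X - 1 : K[X]) ≠ 0 := X_sub_C_ne_zero 1
  refine key1 hp ?_ (by rw [hf]; compute_degree) (by simp [hf]) (fun c => ?_) (hf ▸ h0)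
  · rw [hf, natDegree_mul (mul_ne_zero X_ne_zero h1) (lin_ne h), natDegree_mul X_ne_zero h1,
      natDegree_X, ← C_1, natDegree_X_sub_C]
    omega
  · have h2 := rm_prod (f := ![X, X - 1, C u * X - C a]) (by
      intro i
      fin_cases i
      exacts [X_ne_zero, h1, lin_ne h]) (by
      intro i
      fin_cases i <;> simp only [Fin.zero_eta, Fin.mk_one, Fin.reduceFinMk, cons_val_zero,
        cons_val_one, cons_val] <;> compute_degree) c Finset.univ
    rw [Fin.prod_univ_three] at h2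
    refine (hf ▸ h2).trans (Nat.le_of_lt_succ (Finset.card_lt_card
      (Finset.filter_ssubset.2 ?_)))
    by_cases hc : c = 0
    · exact ⟨1, Finset.mem_univ _, by simp [hc]⟩
    · exact ⟨0, Finset.mem_univ _, by simp [hc]⟩

theorem _root_.PR0.SS.ne_zero [CharP K p] (hp : p ≠ 2) {l : K} (h : SS p l) : l ≠ 0 := by
  rintro rfl
  rw [SS_iff, has_one_zero hp] at h
  simp at h

theorem _root_.PR0.SS.ne_one [CharP K p] (hp : p ≠ 2) {l : K} (h : SS p l) : l ≠ 1 := by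
  rintro rfl
  obtain ⟨m, hm⟩ := odd_p hp
  rw [SS, show (X * (X - 1) * (X - C 1) : K[X]) = X * (X + C (-1)) ^ 2 by simp; ring, mul_pow,
    ← pow_mul, show p - 1 = p / 2 + p / 2 by omega, coeff_X_pow_mul, coeff_X_add_C_pow,
    mul_eq_zero, or_iff_right (by simp), CharP.cast_eq_zero_iff K p] at h
  have h1 := Nat.choose_mul_factorial_mul_factorial (show p / 2 ≤ 2 * (p / 2) by omega)
  have h2 : p ∣ (2 * (p / 2)).factorial := h1 ▸ (h.mul_right _).mul_right _
  rw [(Fact.out : p.Prime).dvd_factorial] at h2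
  omega

theorem not_nil_X2 (hp : p ≠ 2) {g : K[X]} (hg : g.coeff 0 ≠ 0) : ¬ Nil2 p (X ^ 2 * g) := by
  intro h
  obtain ⟨h1, h2, -⟩ := Phi_X2 hp g
  have h3 := congrFun (congrFun h 0) 0
  simp [Matrix.mul_apply, h1, h2, hg, (Fact.out : p.Prime).ne_zero] at h3

theorem not_nil_four (hp : p ≠ 2) {f : K[X]} (hf : f.natDegree ≤ 4) (h4 : f.coeff 4 ≠ 0) :
    ¬ Nil2 p f := by
  intro h
  obtain ⟨h1, h2⟩ := Phi_four hp hf
  have h3 := congrFun (congrFun h 1) 1
  simp [Matrix.mul_apply, h1, h2, h4, (Fact.out : p.Prime).ne_zero] at h3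

theorem fz_node {R : Type u} [CommRing R] (s z z' : R) :
    fz ![0, s, 0, z, z'] = X ^ 2 * ((X - C s) * (X - C z) * (X - C z')) := by
  simp [fz, Fin.prod_univ_five]
  ring

theorem inj_of_nil [CharP K p] (hp : p ≠ 2) {β : Fin 5 → K}
    (h3 : ∀ i j l, i ≠ j → i ≠ l → j ≠ l → β i = β j → β i ≠ β l) (h : Nil2 p (fz β)) :
    Function.Injective β := by
  intro i j hij
  by_contra hne
  obtain ⟨l, h1, h2⟩ : ∃ l, i ≠ l ∧ l ≠ j := by
    clear hij
    revert i j
    decide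
  obtain ⟨π, rfl, rfl, rfl⟩ := exists_perm3 h1 hne h2
  have h4 := (nil_aff hp β π one_ne_zero (-β (π 0))).2 h
  have h5 : (fun i => 1 * β (π i) + -β (π 0)) =
      ![0, β (π 1) - β (π 0), 0, β (π 3) - β (π 0), β (π 4) - β (π 0)] := by
    ext i
    fin_cases i <;> simp [sub_eq_add_neg, hij]
  rw [h5, fz_node] at h4
  refine not_nil_X2 hp ?_ h4
  have h6 := fun l (h : 0 ≠ l) (h' : 2 ≠ l) =>
    h3 _ _ (π l) hne (π.injective.ne h) (π.injective.ne h') hij
  simp [sub_eq_zero, h6]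

variable {k : Type u} [Field k] [Algebra k K]

theorem alg_has (hp : p ≠ 2) {l : K} (h : has p 1 l = 0) : IsAlgebraic k l := by
  refine ⟨has p 1 X, fun h0 => ?_, ?_⟩
  · have h1 := has_map p 1 X (evalRingHom (0 : k))
    simp [h0, has_one_zero hp] at h1
    exact pow_ne_zero _ (neg_ne_zero.2 one_ne_zero) h1.symm
  · simpa [h] using has_map p 1 X (aeval l : k[X] →ₐ[k] K).toRingHom

theorem alg_has' (hp : p ≠ 2) {l : K} (h : has p l 1 = 0) : IsAlgebraic k l := by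
  refine ⟨has p X 1, fun h0 => ?_, ?_⟩
  · have h1 := has_map p X 1 (evalRingHom (0 : k))
    simp [h0, has_zero_one hp] at h1
    exact pow_ne_zero _ (neg_ne_zero.2 one_ne_zero) h1.symm
  · simpa [h] using has_map p X 1 (aeval l : k[X] →ₐ[k] K).toRingHom

omit [Fact p.Prime] in
theorem dm_le_of {I : Type} {t₀ : I → K} {s : Set K} (h : ∀ i, t₀ i ∈ Algebra.adjoin k s) (r : K) :
    dm k (fun i => r * t₀ i) ≤ rk k s + 1 := by
  refine (rk_le_of_alg ?_).trans (rk_insert_le s r)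
  rintro _ ⟨i, rfl⟩
  exact isAlgebraic_algebraMap (⟨r * t₀ i, mul_mem (Algebra.subset_adjoin (Set.mem_insert _ _))
    (Algebra.adjoin_mono (Set.subset_insert _ _) (h i))⟩ : Algebra.adjoin k (insert r s))

omit [Fact p.Prime] in
theorem rk_pair {x y : K} {P : MvPolynomial (Fin 2) k} (hP : P ≠ 0)
    (h : MvPolynomial.aeval ![x, y] P = 0) : rk k {x, y} ≤ 1 := by
  by_contra h1
  have h2 : AlgebraicIndependent k ![x, y] := indep_of_rk (by
    rw [Matrix.range_cons, Matrix.range_cons, Matrix.range_empty, Set.union_empty]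
    simpa [Set.pair_comm y x, one_add_one_eq_two] using Order.add_one_le_of_lt (not_le.1 h1))
  exact hP (h2 (h.trans (map_zero _).symm))

omit [Fact p.Prime] in
theorem rk_alg {x : K} (h : IsAlgebraic k x) (s : Set K) : rk k (insert x s) ≤ rk k s := by
  refine rk_le_of_alg ?_
  rintro y (rfl | hy)
  · exact h.extendScalars (FaithfulSMul.algebraMap_injective k _)
  · exact isAlgebraic_algebraMap (⟨y, Algebra.subset_adjoin hy⟩ : Algebra.adjoin k s)

theorem mem_adj1 (x y : K) : x ∈ Algebra.adjoin k {x, y} := Algebra.subset_adjoin (by simp)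
theorem mem_adj2 (x y : K) : y ∈ Algebra.adjoin k {x, y} := Algebra.subset_adjoin (by simp)

theorem Dc_node (hp : p ≠ 2) :
    Dc p (![0, 1, 0, .X 0, .X 1] : Fin 5 → MvPolynomial (Fin 2) k) ≠ 0 := by
  obtain ⟨h1, h2, h3⟩ := Phi_X2 hp ((X - C 1) * (X - C (.X 0)) * (X - C (.X 1)) :
    (MvPolynomial (Fin 2) k)[X])
  rw [Dc, fz_node, det_fin_two, h1, h2, h3, mul_zero, sub_zero]
  refine mul_ne_zero (by simp) fun h => ?_
  have h4 := congrArg (MvPolynomial.eval (0 : Fin 2 → k)) h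
  rw [← coeff_map, map_zero] at h4
  have h5 := has_one_zero (R := k) hp
  rw [has, show (X * (X - 1) * (C 1 * X - C 0) : k[X]) = (X - 1) * X * X by simp; ring] at h5
  simp only [Polynomial.map_pow, Polynomial.map_mul, Polynomial.map_sub, map_X, map_C, map_one,
    Polynomial.map_one, MvPolynomial.eval_X, Pi.zero_apply, map_zero, sub_zero] at h4
  exact pow_ne_zero _ (neg_ne_zero.2 one_ne_zero) (h5.symm.trans h4)

theorem deg1 [CharP K p] (hp : p ≠ 2) {β : Fin 5 → K} {i j l : Fin 5} (h1 : i ≠ j)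
    (h2 : β i = β j) (h3 : β l ≠ β i) (h : Dc p β = 0) (r : K) :
    dm k (fun σ => r * TT β σ) ≤ 2 := by
  obtain ⟨π, rfl, rfl, rfl⟩ := exists_perm3 (i := i) (j := l) (l := j)
    (fun e => h3 (e ▸ rfl)) h1 fun e => h3 (e ▸ h2.symm)
  have ha : (β (π 1) - β (π 0))⁻¹ ≠ 0 := inv_ne_zero (sub_ne_zero.2 h3)
  generalize hd : (β (π 1) - β (π 0))⁻¹ = a at ha
  have h4 : (fun i => a * β (π i) + -(a * β (π 0))) =
      ![0, 1, 0, a * (β (π 3) - β (π 0)), a * (β (π 4) - β (π 0))] := by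
    have h5 : a * (β (π 1) - β (π 0)) = 1 := hd ▸ inv_mul_cancel₀ (sub_ne_zero.2 h3)
    ext i
    fin_cases i <;> simp [← h2, ← h5] <;> ring
  generalize a * (β (π 3) - β (π 0)) = x at h4
  generalize a * (β (π 4) - β (π 0)) = y at h4
  have h5 := Dc_aff hp β π ha (-(a * β (π 0)))
  rw [h4, h, mul_zero] at h5
  have h6 : rk k {x, y} ≤ 1 := rk_pair (Dc_node hp) (by
    rw [← h5]
    refine (Dc_map p _ (MvPolynomial.aeval ![x, y] : _ →ₐ[k] K).toRingHom).trans ?_
    congr 1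
    ext i
    fin_cases i <;> simp)
  have h7 : (fun σ => r * TT β σ) = fun σ => r / a ^ 4 * TT ![0, 1, 0, x, y] (π⁻¹ * σ) := by
    ext σ
    rw [← h4, TT_aff, mul_inv_cancel_left]
    field_simp
  rw [h7]
  refine (dm_le_of (s := {x, y}) (fun σ => ?_) _).trans (add_le_add_left h6 1)
  rw [← TU_one]
  refine TU_mem (fun _ => one_mem _) (fun i => ?_) _
  fin_cases i <;> simp [mem_adj1, mem_adj2, zero_mem, one_mem]

theorem pu_four {R : Type u} [CommRing R] (x y : R) : pu ![1, 1, 1, 1, 0] ![0, 1, x, y, 1] =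
    -(X * (X - 1) * (X - C x) * (X - C y)) := by
  simp [pu, Fin.prod_univ_five]

theorem deg2 (hp : p ≠ 2) {x y : K} (h : (Phi p (pu ![1, 1, 1, 1, 0] ![0, 1, x, y, 1])).det = 0)
    (r : K) : dm k (fun σ => r * TU ![1, 1, 1, 1, 0] ![0, 1, x, y, 1] σ) ≤ 2 := by
  have h6 : rk k {x, y} ≤ 1 := by
    refine rk_pair (P := (Phi p (pu ![1, 1, 1, 1, 0] ![0, 1, .X 0, .X 1, 1])).det) (fun h0 => ?_) ?_
    · have h1 := congrArg (MvPolynomial.eval (![0, 1] : Fin 2 → k)) h0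
      rw [RingHom.map_det, RingHom.mapMatrix_apply, ← Phi_map, pu_four, map_zero] at h1
      simp only [Polynomial.map_neg, Polynomial.map_mul, Polynomial.map_sub, map_X, map_C,
        Polynomial.map_one, MvPolynomial.eval_X, cons_val_zero, cons_val_one] at h1
      rw [show (-(X * (X - 1) * (X - C 0) * (X - C 1)) : k[X]) = X ^ 2 * -(X - 1) ^ 2 by
        simp; ring] at h1
      obtain ⟨h2, h3, -⟩ := Phi_X2 hp (-(X - 1) ^ 2 : k[X])
      obtain ⟨-, h4⟩ := Phi_four hp (f := (X ^ 2 * -(X - 1) ^ 2 : k[X])) (by compute_degree)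
      have h5 : (X ^ 2 * -(X - 1) ^ 2 : k[X]).coeff 4 = -1 := by
        rw [show (X ^ 2 * -(X - 1) ^ 2 : k[X]) = -X ^ 4 + C 2 * X ^ 3 - X ^ 2 by
          rw [C_ofNat]; ring]
        simp
      rw [det_fin_two, h2, h3, h4, h5] at h1
      simp [coeff_zero_eq_eval_zero] at h1
    · rw [← h]
      refine ((MvPolynomial.aeval ![x, y] : _ →ₐ[k] K).toRingHom.map_det _).trans ?_
      rw [RingHom.mapMatrix_apply, ← Phi_map, pu_four, pu_four]
      simp
  refine (dm_le_of (s := {x, y}) (fun σ => ?_) _).trans (add_le_add_left h6 1)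
  refine TU_mem (fun i => ?_) (fun i => ?_) _ <;>
    fin_cases i <;> simp [mem_adj1, mem_adj2, zero_mem, one_mem]

end field

end PR0.Z
end
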